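import Mathlib

/-! Parts: TR.Defs, TR.Stmts, TR.Stmts2, TG.Defs, TG.Stmts1, TG.Stmts10 -/

section

/-!
# Trace inequality for first-order operators in the slicing class: definitions and statements

Problem MP_287c87_an.  This file holds the definitions and the statements (Prop valued) of the
modules of the proof.  Scales are sc s0 j = s0 * 8^j.
-/

open MeasureTheory Metric Set
open scoped InnerProductSpace ContDiff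

namespace TrI

noncomputable section

/-- Euclidean space of dimension d. -/
abbrev Sp (d : ℕ) := EuclideanSpace ℝ (Fin d)

/-- the fixed radial bump -/
def bmp (d : ℕ) : ContDiffBump (0 : Sp d) := ⟨9/10, 1, by norm_num, by norm_num⟩

/-- the fixed averaging kernel: smooth, even, nonnegative, integral one, support the unit ball,
constant on the ball of radius 9/10 -/
def bk (d : ℕ) (y : Sp d) : ℝ := (bmp d).normed volume y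

variable {d : ℕ}

section Averages

variable {F : Type*} [NormedAddCommGroup F] [NormedSpace ℝ F]

/-- average of g at scale s with kernel ψ -/
def avk (ψ : Sp d → ℝ) (s : ℝ) (g : Sp d → F) (x : Sp d) : F := ∫ y, ψ y • g (x + s • y)

/-- average of g at scale s with the fixed kernel -/
def av (s : ℝ) (g : Sp d → F) : Sp d → F := avk (bk d) s g

/-- the scales -/
def sc (s0 : ℝ) (j : ℕ) : ℝ := s0 * 8 ^ j

/-- r successive averages at the scales of levels m, m+1, ..., m+r-1 -/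
def kav (s0 : ℝ) (m : ℕ) : ℕ → (Sp d → F) → Sp d → F
  | 0, g => g
  | r + 1, g => av (sc s0 (m + r)) (kav s0 m r g)

/-- the field f at level n -/
def fl (s0 : ℝ) (f : Sp d → F) (n : ℕ) : Sp d → F := kav s0 0 n f

/-- the gap of level n -/
def gap (s0 : ℝ) (f : Sp d → F) (n : ℕ) (x : Sp d) : ℝ :=
  av (sc s0 n) (fun z => ‖fl s0 f n z‖) x - ‖fl s0 f (n + 1) x‖

/-- the error functional of level j: all gaps of levels < j + 4 transported to level j + 4 -/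
def er (s0 : ℝ) (f : Sp d → F) (j : ℕ) (x : Sp d) : ℝ :=
  sc s0 j * ∑ k ∈ Finset.range (j + 4),
    (1 / 2 : ℝ) ^ (j - k) * kav s0 (k + 1) (j + 3 - k) (gap s0 f k) x

/-- the mass of level j around x -/
def am (s0 : ℝ) (f : Sp d → F) (j : ℕ) (x : Sp d) : ℝ :=
  sc s0 j / (sc s0 j) ^ d * ∫ z in ball x (32 * sc s0 j), ‖fl s0 f j z‖

/-- the class of functions on which averages are used: strongly measurable and locally bounded -/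
structure LB (g : Sp d → F) : Prop where
  meas : StronglyMeasurable g
  bd : ∀ R : ℝ, ∃ M : ℝ, ∀ x, ‖x‖ ≤ R → ‖g x‖ ≤ M

end Averages

section Operator

variable {V E : Type} [NormedAddCommGroup V] [InnerProductSpace ℝ V] [FiniteDimensional ℝ V]
  [NormedAddCommGroup E] [InnerProductSpace ℝ E] [FiniteDimensional ℝ E]

/-- test fields -/
structure TF (u : Sp d → V) : Prop where
  smooth : ContDiff ℝ ∞ u
  supp : HasCompactSupport u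

/-- the field L(Du) -/
def fo (L : (Sp d →L[ℝ] V) →L[ℝ] E) (u : Sp d → V) : Sp d → E := fun z => L (fderiv ℝ u z)

/-- null fields of L -/
def Null (L : (Sp d →L[ℝ] V) →L[ℝ] E) (p : Sp d → V) : Prop :=
  ContDiff ℝ ∞ p ∧ ∀ z, L (fderiv ℝ p z) = 0

/-- lam annihilates all null fields -/
def Ann (L : (Sp d →L[ℝ] V) →L[ℝ] E) (lam : Sp d → V) : Prop :=
  ∀ p, Null L p → ∫ y, ⟪lam y, p y⟫_ℝ = 0

/-- A cap: on the ball of centre y0 and radius ρ the functional w slices L(Du) -/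
structure IsCap (L : (Sp d →L[ℝ] V) →L[ℝ] E) (y0 : Sp d) (ρ B : ℝ) (w : Sp d → V)
    (τ : Sp d → E) : Prop where
  ρ_pos : 0 < ρ
  B_pos : 0 < B
  inside : ‖y0‖ + ρ ≤ 3 / 2
  slice : ∀ y ∈ ball y0 ρ, ∀ M : Sp d →L[ℝ] V, ⟪w y, M y⟫_ℝ = ⟪L M, τ y⟫_ℝ
  w_bd : ∀ y ∈ ball y0 ρ, ‖w y‖ ≤ B
  τ_bd : ∀ y ∈ ball y0 ρ, ‖τ y‖ ≤ B
  w_lip : ∀ y ∈ ball y0 ρ, ∀ y' ∈ ball y0 ρ, ‖w y - w y'‖ ≤ B * ‖y - y'‖
  τ_lip : ∀ y ∈ ball y0 ρ, ∀ y' ∈ ball y0 ρ, ‖τ y - τ y'‖ ≤ B * ‖y - y'‖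

/-- cut-off functions -/
structure IsCut (κ : Sp d → ℝ) (y0 : Sp d) (r l : ℝ) : Prop where
  l_nonneg : 0 ≤ l
  lip : ∀ y y', |κ y - κ y'| ≤ l * ‖y - y'‖
  supp : ∀ y, r ≤ ‖y - y0‖ → κ y = 0
  bd : ∀ y, |κ y| ≤ 1

/-- standard cut-off: 1 on the closed ball of radius r, 0 outside the ball of radius r' -/
def hat (c : Sp d) (r r' : ℝ) (y : Sp d) : ℝ := max 0 (min 1 ((r' - ‖y - c‖) / (r' - r)))

/-- the slice functional -/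
def YY (u : Sp d → V) (w : Sp d → V) (κ : Sp d → ℝ) (x : Sp d) (t : ℝ) : ℝ :=
  ∫ y, κ y * ⟪w y, u (x + t • y)⟫_ℝ

/-- two sided slice functional -/
def DD (u : Sp d → V) (w : Sp d → V) (κ : Sp d → ℝ) (x : Sp d) (t : ℝ) : ℝ :=
  YY u w κ x t - YY u w κ x (-t)

/-- mass of f at level j - m in the two sided cone over the ball (y0, r), at distances between
the scales of level j and j+1 -/
def NN (s0 : ℝ) (f : Sp d → E) (m j : ℕ) (x y0 : Sp d) (r : ℝ) : ℝ :=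
  ∫ t in (sc s0 j)..(sc s0 (j + 1)), ∫ y in ball y0 r,
    (‖fl s0 f (j - m) (x + t • y)‖ + ‖fl s0 f (j - m) (x - t • y)‖)

/-- the direction of f at level n and at the point x is positive on the cap -/
def Val (s0 : ℝ) (f : Sp d → E) (y0 : Sp d) (ρ : ℝ) (τ : Sp d → E) (c0 : ℝ) (n : ℕ)
    (x : Sp d) : Prop :=
  ∃ e : E, ‖e‖ = 1 ∧ fl s0 f n x = ‖fl s0 f n x‖ • e ∧ ∀ y ∈ ball y0 ρ, c0 ≤ ⟪e, τ y⟫_ℝ

/-- Local Korn-Poincare property (Lemma K) -/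
def KProp (L : (Sp d →L[ℝ] V) →L[ℝ] E) (CK : ℝ) : Prop :=
  ∀ u : Sp d → V, TF u → ∀ s0 : ℝ, 0 < s0 → ∀ j : ℕ, 1 ≤ j → ∀ x : Sp d,
    ∀ (lam : Sp d → V) (l : ℝ), 0 ≤ l → (∀ y y', ‖lam y - lam y'‖ ≤ l * ‖y - y'‖) →
      (∀ y, 2 ≤ ‖y‖ → lam y = 0) → Ann L lam →
      |∫ y, ⟪lam y, u (x + sc s0 j • y)⟫_ℝ| ≤ CK * l * (am s0 (fo L u) j x + er s0 (fo L u) j x)

/-- the kernels used to prove KProp -/
structure RKer (L : (Sp d →L[ℝ] V) →L[ℝ] E) (ψ : Sp d → ℝ) (Ψ : Sp d → (E →L[ℝ] V)) : Prop where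
  ψ_cont : Continuous ψ
  ψ_supp : ∀ y, 1 ≤ ‖y‖ → ψ y = 0
  ψ_int : ∫ y, ψ y = 1
  Ψ_cont : Continuous Ψ
  Ψ_supp : ∀ y, 16 ≤ ‖y‖ → Ψ y = 0
  Ψ_int : ∫ y, Ψ y = 0
  id : ∀ u : Sp d → V, TF u → ∀ s : ℝ, 0 < s → ∀ z,
    avk ψ s u z - avk ψ (8 * s) u z = s • ∫ y, Ψ y (fo L u (z + s • y))

/-- the label gate -/
def Gated (s0 : ℝ) (f : Sp d → E) (δ : ℝ) (l : ℕ) (z : Sp d) : Prop :=
  fl s0 f l z ≠ 0 ∧
    δ / (sc s0 l) ^ d * ∫ z' in ball z (40 * sc s0 l), ‖fl s0 f l z'‖ ≤ ‖fl s0 f l z‖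

/-- the direction of f at level l and point z is near p -/
def Near (s0 : ℝ) (f : Sp d → E) (ε : ℝ) (l : ℕ) (z : Sp d) (p : E) : Prop :=
  ‖fl s0 f l z - ‖fl s0 f l z‖ • p‖ ≤ ε * ‖fl s0 f l z‖

/-- the properties of the moved weights of a label system -/
structure LabelSys (s0 : ℝ) (f : Sp d → E) (ε δ c : ℝ) (J : ℕ) (U : ℕ → Sp d → ℝ) : Prop where
  meas : ∀ l, Measurable (U l)
  nonneg : ∀ l z, 0 ≤ U l z
  le_one : ∀ l z, U l z ≤ 1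
  gated : ∀ l z, U l z ≠ 0 → Gated s0 f δ l z
  cost : ∑ l ∈ Finset.range J, ∫ z, U l z * ‖fl s0 f l z‖ ≤ 8 / ε ^ 2 * ∫ z, ‖f z‖
  capture : ∀ (x : Sp d) (i i' : ℕ) (p p' : E), 1 ≤ i → i < i' → i' < J → ‖p‖ = 1 → ‖p'‖ = 1 →
    5 * ε ≤ ‖p - p'‖ →
    (∀ z ∈ ball x (sc s0 (i - 1) / 4), Gated s0 f δ i z ∧ Near s0 f ε i z p) →
    (∀ z ∈ ball x (sc s0 (i' - 1) / 4), Gated s0 f δ i' z ∧ Near s0 f ε i' z p') →
    c ≤ ∑ l ∈ Finset.Ico i i', kav s0 0 l (U l) x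

/-- A chart: finitely many caps positive in all directions near the label c, with cut-offs and
dual vectors reproducing constants -/
structure Chart (L : (Sp d →L[ℝ] V) →L[ℝ] E) (c : E) (ε : ℝ) where
  N : ℕ
  N_pos : 0 < N
  c0 : ℝ
  B : ℝ
  l : ℝ
  c0_pos : 0 < c0
  y0 : Fin N → Sp d
  ρ : Fin N → ℝ
  w : Fin N → Sp d → V
  τ : Fin N → Sp d → E
  κ : Fin N → Sp d → ℝ
  q : Fin N → V
  cap : ∀ a, IsCap L (y0 a) (ρ a) B (w a) (τ a)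
  cut : ∀ a, IsCut (κ a) (y0 a) (ρ a / 4) l
  pos : ∀ a (e : E), ‖e‖ = 1 → ‖e - c‖ ≤ 10 * ε → ∀ y ∈ ball (y0 a) (ρ a), c0 ≤ ⟪e, τ a y⟫_ℝ
  dual : ∀ v : V, ∑ a, (∫ y, κ a y * ⟪w a y, v⟫_ℝ) • q a = v

/-- the chart value of u at x and distance t -/
def Chart.UC {L : (Sp d →L[ℝ] V) →L[ℝ] E} {c : E} {ε : ℝ} (K : Chart L c ε) (u : Sp d → V)
    (x : Sp d) (t : ℝ) : V := ∑ a, YY u (K.w a) (K.κ a) x t • K.q a

/-- hypothesis for the construction of charts -/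
def ChartHyp (L : (Sp d →L[ℝ] V) →L[ℝ] E) : Prop :=
  ∀ e : E, ‖e‖ = 1 → ∃ (N : ℕ) (_ : 0 < N) (B : ℝ) (y0 : Fin N → Sp d) (ρ : Fin N → ℝ)
    (w : Fin N → Sp d → V) (τ : Fin N → Sp d → E),
    (∀ a, IsCap L (y0 a) (ρ a) B (w a) (τ a)) ∧ (∀ a, 0 < ⟪e, τ a (y0 a)⟫_ℝ) ∧
    Submodule.span ℝ (Set.range fun a => w a (y0 a)) = ⊤

/-- the trace inequality for L -/
def TraceIneq (L : (Sp d →L[ℝ] V) →L[ℝ] E) : Prop :=
  ∀ C' : ℝ, 0 < C' → ∃ C : ℝ, 0 < C ∧ ∀ μ : Measure (Sp d), IsFiniteMeasureOnCompacts μ →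
    (∀ x : Sp d, ∀ r : ℝ, 0 < r → μ (ball x r) ≤ ENNReal.ofReal (C' * r ^ (d - 1))) →
    ∀ u : Sp d → V, TF u →
      ∫⁻ x, ‖u x‖ₑ ∂μ ≤ ENNReal.ofReal C * ∫⁻ x, ‖fo L u x‖ₑ

end Operator

end

end TrI


end

section

/-!
# Trace inequality: statements of the modules
-/

open MeasureTheory Metric Set
open scoped InnerProductSpace ContDiff

namespace TrI

noncomputable section

/-- MODULE MU: integration against a measure of growth d - 1 -/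
def StmtMu : Prop :=
  ∀ (d : ℕ), 1 ≤ d → ∀ C' : ℝ, 0 < C' → ∃ C : ℝ, 0 ≤ C ∧
    ∀ (E : Type) [NormedAddCommGroup E] [InnerProductSpace ℝ E] [FiniteDimensional ℝ E]
      (μ : Measure (Sp d)), IsFiniteMeasureOnCompacts μ →
      (∀ x : Sp d, ∀ r : ℝ, 0 < r → μ (ball x r) ≤ ENNReal.ofReal (C' * r ^ (d - 1))) →
      ∀ f : Sp d → E, Continuous f → HasCompactSupport f → ∀ s0 : ℝ, 0 < s0 →
        (∀ J : ℕ, ∫⁻ x, ENNReal.ofReal (∑ j ∈ Finset.range J, er s0 f j x) ∂μ ≤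
          ENNReal.ofReal C * ∫⁻ x, ‖f x‖ₑ) ∧
        (∀ J : ℕ, ∫⁻ x, ENNReal.ofReal (am s0 f J x) ∂μ ≤
          ENNReal.ofReal C * ∫⁻ x, ‖f x‖ₑ) ∧
        (∀ l : ℕ, 1 ≤ l → ∀ g : Sp d → ℝ, Measurable g → (∀ z, 0 ≤ g z) →
          (∃ M, ∀ z, g z ≤ M) →
          ∫⁻ x, ENNReal.ofReal (sc s0 l * kav s0 0 l g x) ∂μ ≤
            ENNReal.ofReal C * ∫⁻ z, ENNReal.ofReal (g z))

/-- MODULE CG: replacing f by its level m average in an integral against a Lipschitz function -/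
def StmtCG : Prop :=
  ∀ (d : ℕ) (E : Type) [NormedAddCommGroup E] [InnerProductSpace ℝ E] [FiniteDimensional ℝ E]
    (f : Sp d → E), Continuous f → HasCompactSupport f → ∀ s0 : ℝ, 0 < s0 →
    ∀ (m : ℕ) (Φ : Sp d → E) (l : ℝ) (q : Sp d) (ρ t : ℝ) (x : Sp d), 0 ≤ l →
    (∀ y y', ‖Φ y - Φ y'‖ ≤ l * ‖y - y'‖) → (∀ y, ρ ≤ ‖y - q‖ → Φ y = 0) → 0 < t →
    |∫ y, ⟪Φ y, f (x + t • y) - fl s0 f m (x + t • y)⟫_ℝ| ≤
      l * ∫ y in ball q (ρ + sc s0 m / (3 * t)),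
        (sc s0 m / (7 * t) * ‖fl s0 f m (x + t • y)‖ +
          8 / 7 * ∑ k ∈ Finset.range m, sc s0 k / t * gap s0 f k (x + t • y))

/-- the facts on deviations and gaps -/
structure DevFacts {d : ℕ} {E : Type} [NormedAddCommGroup E] [InnerProductSpace ℝ E] (C : ℝ)
    (s0 : ℝ) (f : Sp d → E) : Prop where
  gap_nonneg : ∀ k x, 0 ≤ gap s0 f k x
  er_nonneg : ∀ j x, 0 ≤ er s0 f j x
  am_nonneg : ∀ j x, 0 ≤ am s0 f j x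
  /-- deviation from the direction at level j+4 -/
  dev : ∀ (j m : ℕ) (x : Sp d) (e : E), ‖e‖ = 1 → fl s0 f (j + 4) x = ‖fl s0 f (j + 4) x‖ • e →
    sc s0 j / (sc s0 j) ^ d * ∫ z in ball x (384 * sc s0 j),
      (‖fl s0 f (j - m) z‖ - ⟪fl s0 f (j - m) z, e⟫_ℝ) ≤ C * 2 ^ m * er s0 f j x
  gap_le : ∀ (j k : ℕ) (x : Sp d), k ≤ j + 2 →
    (1 / 2 : ℝ) ^ (j - k) * (sc s0 j / (sc s0 j) ^ d * ∫ z in ball x (384 * sc s0 j),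
      gap s0 f k z) ≤ C * er s0 f j x
  am_mono : ∀ (j : ℕ) (x : Sp d), am s0 f j x ≤ C * (am s0 f (j + 1) x + er s0 f (j + 1) x)
  transfer : ∀ (k m : ℕ) (q : Sp d) (r : ℝ), k ≤ m →
    ∫ z in ball q r, ‖fl s0 f k z‖ ≤ (∫ z in ball q (r + sc s0 m / 7), ‖fl s0 f m z‖) +
      ∑ i ∈ Finset.Ico k m, ∫ z in ball q (r + sc s0 m / 7), gap s0 f i z
  transfer' : ∀ (k m : ℕ) (q : Sp d) (r : ℝ), k ≤ m →
    ∫ z in ball q r, ‖fl s0 f m z‖ ≤ ∫ z in ball q (r + sc s0 m / 7), ‖fl s0 f k z‖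
  /-- directions vary slowly -/
  dir : ∀ (j : ℕ) (x z : Sp d) (e : E), ‖e‖ = 1 → fl s0 f (j + 4) x = ‖fl s0 f (j + 4) x‖ • e →
    ‖z - x‖ ≤ sc s0 (j + 2) / 4 →
    sc s0 j * (‖fl s0 f (j + 3) z‖ - ⟪fl s0 f (j + 3) z, e⟫_ℝ) ≤ C * er s0 f j x
  /-- lower bound of f at level j+3 by the mass of level j -/
  low : ∀ (j : ℕ) (x z : Sp d), ‖z - x‖ ≤ sc s0 (j + 2) / 4 →
    am s0 f j x ≤ C * (sc s0 j * ‖fl s0 f (j + 3) z‖ + er s0 f j x)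

/-- MODULE DEV -/
def StmtDev : Prop :=
  ∀ d : ℕ, ∃ C : ℝ, 1 ≤ C ∧ ∀ (E : Type) [NormedAddCommGroup E] [InnerProductSpace ℝ E]
    [FiniteDimensional ℝ E] (f : Sp d → E), Continuous f → HasCompactSupport f →
    ∀ s0 : ℝ, 0 < s0 → DevFacts C s0 f

section Op

/-- MODULE K1: comparison of u with its average at scale s_j -/
def StmtK1 : Prop :=
  ∀ (d : ℕ) (V E : Type) [NormedAddCommGroup V] [InnerProductSpace ℝ V] [FiniteDimensional ℝ V]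
    [NormedAddCommGroup E] [InnerProductSpace ℝ E] [FiniteDimensional ℝ E]
    (L : (Sp d →L[ℝ] V) →L[ℝ] E) (ψ : Sp d → ℝ) (Ψ : Sp d → (E →L[ℝ] V)), RKer L ψ Ψ →
    ∃ C : ℝ, 0 ≤ C ∧ ∀ u : Sp d → V, TF u → ∀ s0 : ℝ, 0 < s0 → ∀ (j : ℕ) (x : Sp d)
      (lam : Sp d → V) (l : ℝ), 0 ≤ l → (∀ y y', ‖lam y - lam y'‖ ≤ l * ‖y - y'‖) →
      (∀ y, 2 ≤ ‖y‖ → lam y = 0) →
      |∫ y, ⟪lam y, u (x + sc s0 j • y) - avk ψ (sc s0 j) u (x + sc s0 j • y)⟫_ℝ| ≤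
        C * l * (am s0 (fo L u) j x + er s0 (fo L u) j x)

/-- the second half of KProp: estimate for the average at scale s_j -/
def K2Prop {d : ℕ} {V E : Type} [NormedAddCommGroup V] [InnerProductSpace ℝ V]
    [FiniteDimensional ℝ V] [NormedAddCommGroup E] [InnerProductSpace ℝ E]
    [FiniteDimensional ℝ E] (L : (Sp d →L[ℝ] V) →L[ℝ] E) (ψ : Sp d → ℝ) (C : ℝ) : Prop :=
  ∀ u : Sp d → V, TF u → ∀ s0 : ℝ, 0 < s0 → ∀ (j : ℕ) (x : Sp d)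
    (lam : Sp d → V) (l : ℝ), 0 ≤ l → (∀ y y', ‖lam y - lam y'‖ ≤ l * ‖y - y'‖) →
    (∀ y, 2 ≤ ‖y‖ → lam y = 0) → Ann L lam →
    |∫ y, ⟪lam y, avk ψ (sc s0 j) u (x + sc s0 j • y)⟫_ℝ| ≤
      C * l * (am s0 (fo L u) j x + er s0 (fo L u) j x)

/-- MODULE LI: the inequality of one level for the two sided slice functional -/
def StmtLI : Prop :=
  ∀ (d : ℕ) (V E : Type) [NormedAddCommGroup V] [InnerProductSpace ℝ V] [FiniteDimensional ℝ V]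
    [NormedAddCommGroup E] [InnerProductSpace ℝ E] [FiniteDimensional ℝ E]
    (L : (Sp d →L[ℝ] V) →L[ℝ] E) (y0 : Sp d) (ρ B c0 : ℝ) (w : Sp d → V) (τ : Sp d → E),
    IsCap L y0 ρ B w τ → 0 < c0 → ∃ C : ℝ, 0 ≤ C ∧
    ∀ u : Sp d → V, TF u → ∀ s0 : ℝ, 0 < s0 → ∀ (m j : ℕ) (x x' : Sp d),
      ‖x' - x‖ ≤ sc s0 j → Val s0 (fo L u) y0 ρ τ c0 (j + 4) x →
      ∀ (κ : Sp d → ℝ) (l r r1 : ℝ), IsCut κ y0 r l → r ≤ ρ → (∀ y, 0 ≤ κ y) →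
        (∀ y ∈ ball y0 r1, κ y = 1) →
        c0 / 2 * NN s0 (fo L u) m j x' y0 r1 ≤
          DD u w κ x' (sc s0 (j + 1)) - DD u w κ x' (sc s0 j) +
          C * (l + 1) * (1 / 8) ^ m * NN s0 (fo L u) m j x' y0 (r + (1 / 8) ^ m) +
          C * (2 ^ m + l + 1) * er s0 (fo L u) j x

/-- MODULE LT: variation of the one sided slice functional over one level -/
def StmtLT : Prop :=
  ∀ (d : ℕ) (V E : Type) [NormedAddCommGroup V] [InnerProductSpace ℝ V] [FiniteDimensional ℝ V]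
    [NormedAddCommGroup E] [InnerProductSpace ℝ E] [FiniteDimensional ℝ E]
    (L : (Sp d →L[ℝ] V) →L[ℝ] E) (y0 : Sp d) (ρ B : ℝ) (w : Sp d → V) (τ : Sp d → E),
    IsCap L y0 ρ B w τ → ∃ C : ℝ, 0 ≤ C ∧
    ∀ u : Sp d → V, TF u → ∀ s0 : ℝ, 0 < s0 → ∀ (m j : ℕ) (x : Sp d)
      (κ : Sp d → ℝ) (l r : ℝ), IsCut κ y0 r l → r ≤ ρ →
        |YY u w κ x (sc s0 (j + 1)) - YY u w κ x (sc s0 j)| ≤
          C * (l + 1) * (NN s0 (fo L u) m j x y0 (r + (1 / 8) ^ m) + er s0 (fo L u) j x)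

/-- MODULE HF: hole filling -/
def StmtHF : Prop :=
  ∀ (d : ℕ) (V E : Type) [NormedAddCommGroup V] [InnerProductSpace ℝ V] [FiniteDimensional ℝ V]
    [NormedAddCommGroup E] [InnerProductSpace ℝ E] [FiniteDimensional ℝ E]
    (L : (Sp d →L[ℝ] V) →L[ℝ] E) (CK : ℝ), KProp L CK →
    ∀ (y0 : Sp d) (ρ B c0 : ℝ) (w : Sp d → V) (τ : Sp d → E),
    IsCap L y0 ρ B w τ → 0 < c0 → ∃ (C : ℝ) (m0 : ℕ), 0 ≤ C ∧
    ∀ u : Sp d → V, TF u → ∀ s0 : ℝ, 0 < s0 → ∀ (x : Sp d) (j1 j2 : ℕ), 1 ≤ j1 → j1 ≤ j2 →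
      (∀ j ∈ Finset.Ico j1 j2, Val s0 (fo L u) y0 ρ τ c0 (j + 4) x) →
      ∀ m : ℕ, m0 ≤ m →
        ∑ j ∈ Finset.Ico j1 j2, NN s0 (fo L u) m j x y0 (ρ / 2) ≤
          C * 2 ^ m * (am s0 (fo L u) j1 x + am s0 (fo L u) j2 x +
            ∑ j ∈ Finset.Icc j1 j2, er s0 (fo L u) j x)

/-- MODULE LA: the smeared functional controls the mass at its own scale -/
def StmtLA : Prop :=
  ∀ (d : ℕ) (V E : Type) [NormedAddCommGroup V] [InnerProductSpace ℝ V] [FiniteDimensional ℝ V]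
    [NormedAddCommGroup E] [InnerProductSpace ℝ E] [FiniteDimensional ℝ E]
    (L : (Sp d →L[ℝ] V) →L[ℝ] E) (y0 : Sp d) (ρ B c0 : ℝ) (w : Sp d → V) (τ : Sp d → E),
    IsCap L y0 ρ B w τ → 0 < c0 → ∀ (κ : Sp d → ℝ) (l r : ℝ), IsCut κ y0 r l → r ≤ ρ →
    (∀ y, 0 ≤ κ y) → 0 < ∫ y, κ y → ∃ (C c1 : ℝ), 0 ≤ C ∧ 0 < c1 ∧
    ∀ u : Sp d → V, TF u → ∀ s0 : ℝ, 0 < s0 → ∀ (x : Sp d) (i m : ℕ), 2 ≤ m →
      Val s0 (fo L u) y0 ρ τ c0 (i + 6) x →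
      c1 * am s0 (fo L u) i x ≤
        (∫ z, hat (0 : Sp d) (9 / 10) 1 z *
          DD u w κ (x + sc s0 (i + 2) • z) (sc s0 (i + 2))) +
        C * (1 / 8) ^ m * am s0 (fo L u) (i + 2) x + C * 2 ^ m * er s0 (fo L u) (i + 2) x

/-- MODULE A0: masses do not grow downwards while the chart is valid -/
def StmtA0 : Prop :=
  ∀ (d : ℕ) (V E : Type) [NormedAddCommGroup V] [InnerProductSpace ℝ V] [FiniteDimensional ℝ V]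
    [NormedAddCommGroup E] [InnerProductSpace ℝ E] [FiniteDimensional ℝ E]
    (L : (Sp d →L[ℝ] V) →L[ℝ] E) (CK : ℝ), KProp L CK →
    ∀ (y0 : Sp d) (ρ B c0 : ℝ) (w : Sp d → V) (τ : Sp d → E),
    IsCap L y0 ρ B w τ → 0 < c0 → ∃ C : ℝ, 0 ≤ C ∧
    ∀ u : Sp d → V, TF u → ∀ s0 : ℝ, 0 < s0 → ∀ (x : Sp d) (j1 j2 : ℕ), 1 ≤ j1 → j1 ≤ j2 →
      (∀ j ∈ Finset.Ico j1 j2, Val s0 (fo L u) y0 ρ τ c0 (j + 4) x) →
      am s0 (fo L u) j1 x ≤ C * (am s0 (fo L u) j2 x +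
        ∑ j ∈ Finset.Icc j1 j2, er s0 (fo L u) j x)

/-- MODULE TV: total variation of the slice functionals while the chart is valid -/
def StmtTV : Prop :=
  ∀ (d : ℕ) (V E : Type) [NormedAddCommGroup V] [InnerProductSpace ℝ V] [FiniteDimensional ℝ V]
    [NormedAddCommGroup E] [InnerProductSpace ℝ E] [FiniteDimensional ℝ E]
    (L : (Sp d →L[ℝ] V) →L[ℝ] E) (CK : ℝ), KProp L CK →
    ∀ (y0 : Sp d) (ρ B c0 : ℝ) (w : Sp d → V) (τ : Sp d → E),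
    IsCap L y0 ρ B w τ → 0 < c0 → ∀ (κ : Sp d → ℝ) (l : ℝ), IsCut κ y0 (ρ / 4) l →
    ∃ C : ℝ, 0 ≤ C ∧
    ∀ u : Sp d → V, TF u → ∀ s0 : ℝ, 0 < s0 → ∀ (x : Sp d) (j1 j2 : ℕ), 1 ≤ j1 → j1 ≤ j2 →
      (∀ j ∈ Finset.Ico j1 j2, Val s0 (fo L u) y0 ρ τ c0 (j + 4) x) →
      |YY u w κ x (sc s0 j2) - YY u w κ x (sc s0 j1)| ≤
        C * (am s0 (fo L u) j1 x + am s0 (fo L u) j2 x +
          ∑ j ∈ Finset.Icc j1 j2, er s0 (fo L u) j x)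

/-- MODULE LAB: fuzzy labels -/
def StmtLab : Prop :=
  ∀ d : ℕ, ∃ c : ℝ, 0 < c ∧ ∀ (E : Type) [NormedAddCommGroup E] [InnerProductSpace ℝ E]
    [FiniteDimensional ℝ E] (f : Sp d → E), Continuous f → HasCompactSupport f →
    ∀ (s0 ε δ : ℝ), 0 < s0 → 0 < ε → ε ≤ 1 → 0 < δ → ∀ (n : ℕ) (lab : Fin n → E), 0 < n →
      (∀ i, ‖lab i‖ = 1) → (∀ e : E, ‖e‖ = 1 → ∃ i, ‖e - lab i‖ ≤ ε / 4) →
      ∀ J : ℕ, ∃ U : ℕ → Sp d → ℝ, LabelSys s0 f ε δ c J U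

/-- MODULE PT: the pointwise estimate -/
def StmtPt : Prop :=
  ∀ (d : ℕ) (V E : Type) [NormedAddCommGroup V] [InnerProductSpace ℝ V] [FiniteDimensional ℝ V]
    [NormedAddCommGroup E] [InnerProductSpace ℝ E] [FiniteDimensional ℝ E]
    (L : (Sp d →L[ℝ] V) →L[ℝ] E) (CK : ℝ), KProp L CK →
    ∀ (ε : ℝ) (n : ℕ) (lab : Fin n → E), 0 < ε → ε ≤ 1 → (∀ i, ‖lab i‖ = 1) →
      (∀ e : E, ‖e‖ = 1 → ∃ i, ‖e - lab i‖ ≤ ε / 4) →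
    ∀ ch : (i : Fin n) → Chart L (lab i) ε, ∃ δ : ℝ, 0 < δ ∧ ∀ c : ℝ, 0 < c → ∃ C : ℝ, 0 ≤ C ∧
    ∀ u : Sp d → V, TF u → ∀ s0 : ℝ, 0 < s0 → ∀ J : ℕ, 1 ≤ J → ∀ U : ℕ → Sp d → ℝ,
      LabelSys s0 (fo L u) ε δ c J U → ∀ Lu : ℝ, (∀ y y', ‖u y - u y'‖ ≤ Lu * ‖y - y'‖) →
      ∀ (x : Sp d) (i : Fin n),
        ‖u x‖ ≤ ‖(ch i).UC u x (sc s0 J)‖ + C * (am s0 (fo L u) J x + er s0 (fo L u) J x) +
          C * ∑ j ∈ Finset.Ico 1 J, (er s0 (fo L u) j x +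
            sc s0 j * kav s0 0 j (fun z => U j z * ‖fl s0 (fo L u) j z‖) x) + C * s0 * Lu

/-- MODULE CH: charts by compactness -/
def StmtCharts : Prop :=
  ∀ (d : ℕ) (V E : Type) [NormedAddCommGroup V] [InnerProductSpace ℝ V] [FiniteDimensional ℝ V]
    [NormedAddCommGroup E] [InnerProductSpace ℝ E] [FiniteDimensional ℝ E]
    (L : (Sp d →L[ℝ] V) →L[ℝ] E), ChartHyp L →
    ∃ (ε : ℝ) (n : ℕ) (lab : Fin n → E), 0 < ε ∧ ε ≤ 1 ∧ (∀ i, ‖lab i‖ = 1) ∧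
      (∀ e : E, ‖e‖ = 1 → ∃ i, ‖e - lab i‖ ≤ ε / 4) ∧
      Nonempty ((i : Fin n) → Chart L (lab i) ε)

/-- MODULE INT: the abstract theorem -/
def StmtAbs : Prop :=
  ∀ (d : ℕ), 1 ≤ d → ∀ (V E : Type) [NormedAddCommGroup V] [InnerProductSpace ℝ V]
    [FiniteDimensional ℝ V] [NormedAddCommGroup E] [InnerProductSpace ℝ E]
    [FiniteDimensional ℝ E] [Nontrivial E]
    (L : (Sp d →L[ℝ] V) →L[ℝ] E) (CK : ℝ), KProp L CK → ChartHyp L → TraceIneq L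

end Op

/-! ## The symmetric gradient -/

/-- index set of the upper triangular entries -/
abbrev SI (d : ℕ) := {p : Fin d × Fin d // p.1 ≤ p.2}

/-- symmetric matrices, as the Euclidean space of their upper triangular entries -/
abbrev EBD (d : ℕ) := EuclideanSpace ℝ (SI d)

/-- the symmetric part of a matrix -/
def LBD (d : ℕ) : (Sp d →L[ℝ] Sp d) →L[ℝ] EBD d :=
  LinearMap.toContinuousLinearMap
    { toFun := fun M => WithLp.toLp 2 fun p : SI d =>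
        (1 / 2 : ℝ) * (M (EuclideanSpace.single p.1.2 1) p.1.1 +
          M (EuclideanSpace.single p.1.1 1) p.1.2)
      map_add' := by
        intro M M'; ext p; simp; ring
      map_smul' := by
        intro c M; ext p; simp; ring }

/-- MODULE BDR -/
def StmtBDR : Prop := ∀ d : ℕ, ∃ Ψ : Sp d → (EBD d →L[ℝ] Sp d), RKer (LBD d) (bk d) Ψ

/-- MODULE BDK2 -/
def StmtBDK2 : Prop := ∀ d : ℕ, ∃ C : ℝ, 0 ≤ C ∧ K2Prop (LBD d) (bk d) C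

/-- MODULE BDCH -/
def StmtBDCharts : Prop := ∀ d : ℕ, 1 ≤ d → ChartHyp (LBD d)

end

end TrI


end

section

/-!
# Trace inequality, stage 2: every ℂ-elliptic operator in the plane

Statements of the modules (helper97).  Stage 2 proves `KProp` for every ℂ-elliptic `L` (all `d`)
and `ChartHyp` for every ℂ-elliptic `L` in dimension two.
-/

open MeasureTheory Metric Set
open scoped InnerProductSpace ContDiff

namespace TrI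

noncomputable section

variable {d : ℕ}

section Op2

variable {V E : Type} [NormedAddCommGroup V] [InnerProductSpace ℝ V] [FiniteDimensional ℝ V]
  [NormedAddCommGroup E] [InnerProductSpace ℝ E] [FiniteDimensional ℝ E]

/-- the rank one map y ↦ ⟪ξ, y⟫ v -/
def rk1 (ξ : Sp d) (v : V) : Sp d →L[ℝ] V := (innerSL ℝ ξ).smulRight v

/-- ℂ-ellipticity in real form: for the complex frequency ξ + iη ≠ 0 and the complex vector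
v + iw, the equation A(ξ + iη)(v + iw) = 0 has only the zero solution; here A(ξ)v = L (rk1 ξ v). -/
def CEll (L : (Sp d →L[ℝ] V) →L[ℝ] E) : Prop :=
  ∀ ξ η : Sp d, (ξ ≠ 0 ∨ η ≠ 0) → ∀ v w : V,
    L (rk1 ξ v) - L (rk1 η w) = 0 → L (rk1 ξ w) + L (rk1 η v) = 0 → v = 0 ∧ w = 0

/-- the derivative of order n+1 of u is a fixed linear image of the derivative of order n of
L(Du) -/
def NSProp (L : (Sp d →L[ℝ] V) →L[ℝ] E) (n : ℕ)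
    (T : (ContinuousMultilinearMap ℝ (fun _ : Fin n => Sp d) E) →L[ℝ]
      (ContinuousMultilinearMap ℝ (fun _ : Fin (n + 1) => Sp d) V)) : Prop :=
  ∀ u : Sp d → V, ContDiff ℝ ∞ u → ∀ z,
    iteratedFDeriv ℝ (n + 1) u z = T (iteratedFDeriv ℝ n (fo L u) z)

end Op2

/-- smooth kernels supported in the unit ball whose averages reproduce polynomials of degree at
most n -/
structure VKer (n : ℕ) (ψ : Sp d → ℝ) : Prop where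
  smooth : ContDiff ℝ ∞ ψ
  supp : ∀ y, 1 ≤ ‖y‖ → ψ y = 0
  int : ∫ y, ψ y = 1
  mom : ∀ m : ℕ, 1 ≤ m → m ≤ n → ∀ M : ContinuousMultilinearMap ℝ (fun _ : Fin m => Sp d) ℝ,
    ∫ y, ψ y * M (fun _ => y) = 0

/-- MODULE NS (Nullstellensatz) -/
def StmtNS : Prop :=
  ∀ (d : ℕ) (V E : Type) [NormedAddCommGroup V] [InnerProductSpace ℝ V] [FiniteDimensional ℝ V]
    [NormedAddCommGroup E] [InnerProductSpace ℝ E] [FiniteDimensional ℝ E]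
    (L : (Sp d →L[ℝ] V) →L[ℝ] E), CEll L →
    ∃ (n : ℕ) (T : (ContinuousMultilinearMap ℝ (fun _ : Fin n => Sp d) E) →L[ℝ]
      (ContinuousMultilinearMap ℝ (fun _ : Fin (n + 1) => Sp d) V)), 1 ≤ n ∧ NSProp L n T

/-- MODULE VK (kernels with vanishing moments) -/
def StmtVK : Prop := ∀ d n : ℕ, ∃ ψ : Sp d → ℝ, VKer n ψ

/-- MODULE KD (derivatives of averages fall on the kernel) -/
def StmtKD : Prop :=
  ∀ (d : ℕ) (E : Type) [NormedAddCommGroup E] [InnerProductSpace ℝ E] [FiniteDimensional ℝ E]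
    (ψ : Sp d → ℝ), ContDiff ℝ ∞ ψ → (∀ y, 1 ≤ ‖y‖ → ψ y = 0) →
    ∀ f : Sp d → E, Continuous f → ∀ s : ℝ, 0 < s → ∀ (n : ℕ) (z : Sp d),
      iteratedFDeriv ℝ n (avk ψ s f) z =
        (-1 / s) ^ n • ∫ y, (iteratedFDeriv ℝ n ψ y).smulRight (f (z + s • y))

/-- MODULE RKG (RKer for operators with NSProp) -/
def StmtRKG : Prop :=
  ∀ (d : ℕ) (V E : Type) [NormedAddCommGroup V] [InnerProductSpace ℝ V] [FiniteDimensional ℝ V]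
    [NormedAddCommGroup E] [InnerProductSpace ℝ E] [FiniteDimensional ℝ E]
    (L : (Sp d →L[ℝ] V) →L[ℝ] E) (n : ℕ)
    (T : (ContinuousMultilinearMap ℝ (fun _ : Fin n => Sp d) E) →L[ℝ]
      (ContinuousMultilinearMap ℝ (fun _ : Fin (n + 1) => Sp d) V)), 1 ≤ n → NSProp L n T →
    ∀ ψ : Sp d → ℝ, VKer n ψ → ∃ Ψ : Sp d → (E →L[ℝ] V), RKer L ψ Ψ

/-- MODULE K2G (second half of KProp for operators with NSProp) -/
def StmtK2G : Prop :=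
  ∀ (d : ℕ) (V E : Type) [NormedAddCommGroup V] [InnerProductSpace ℝ V] [FiniteDimensional ℝ V]
    [NormedAddCommGroup E] [InnerProductSpace ℝ E] [FiniteDimensional ℝ E]
    (L : (Sp d →L[ℝ] V) →L[ℝ] E) (n : ℕ)
    (T : (ContinuousMultilinearMap ℝ (fun _ : Fin n => Sp d) E) →L[ℝ]
      (ContinuousMultilinearMap ℝ (fun _ : Fin (n + 1) => Sp d) V)), 1 ≤ n → NSProp L n T →
    ∀ ψ : Sp d → ℝ, VKer n ψ → ∃ C : ℝ, 0 ≤ C ∧ K2Prop L ψ C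

/-- MODULE CH2 (charts in the plane) -/
def StmtCH2 : Prop :=
  ∀ (V E : Type) [NormedAddCommGroup V] [InnerProductSpace ℝ V] [FiniteDimensional ℝ V]
    [NormedAddCommGroup E] [InnerProductSpace ℝ E] [FiniteDimensional ℝ E]
    (L : (Sp 2 →L[ℝ] V) →L[ℝ] E), CEll L → Nontrivial E → ChartHyp L

/-- Local Korn-Poincare property of every ℂ-elliptic operator -/
def StmtKPG : Prop :=
  ∀ (d : ℕ) (V E : Type) [NormedAddCommGroup V] [InnerProductSpace ℝ V] [FiniteDimensional ℝ V]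
    [NormedAddCommGroup E] [InnerProductSpace ℝ E] [FiniteDimensional ℝ E]
    (L : (Sp d →L[ℝ] V) →L[ℝ] E), CEll L → ∃ CK : ℝ, KProp L CK

end

end TrI


end

section

/-!
# Trace inequality, general operators: definitions (first part)

Problem MP_287c87_an, see PAPER.md.  Section numbers refer to PAPER.md.
-/

open MeasureTheory Metric Set TrI
open scoped InnerProductSpace ContDiff

namespace TG

noncomputable section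

variable {d : ℕ}

/-! ## Section 1: the potential -/

/-- the Poisson type kernel t (t² + |x|²)^(-d/2) -/
def kk (t : ℝ) (x : Sp d) : ℝ := t / Real.sqrt (t ^ 2 + ‖x‖ ^ 2) ^ d

/-- the potential of μ at height t -/
def th (μ : Measure (Sp d)) (t : ℝ) (x : Sp d) : ℝ := ∫ η, kk t (x - η) ∂μ

/-- its square root -/
def vv (μ : Measure (Sp d)) (t : ℝ) (x : Sp d) : ℝ := Real.sqrt (th μ t x)

/-- finite nonzero measures with (d-1)-growth -/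
structure Gro (C' : ℝ) (μ : Measure (Sp d)) : Prop where
  fin : IsFiniteMeasure μ
  ne : μ ≠ 0
  gro : ∀ (x : Sp d) (r : ℝ), 0 < r → μ (ball x r) ≤ ENNReal.ofReal (C' * r ^ (d - 1))

/-- tangential part of a vector, with respect to the unit normal n -/
def tang (n w : Sp d) : Sp d := w - ⟪n, w⟫_ℝ • n

/-- Laplacian -/
def lap (g : Sp d → ℝ) (x : Sp d) : ℝ :=
  ∑ j : Fin d, iteratedFDeriv ℝ 2 g x
    (fun _ => (EuclideanSpace.single j (1 : ℝ) : Sp d))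

/-- second derivative in direction n -/
def d2 (n : Sp d) (g : Sp d → ℝ) (x : Sp d) : ℝ := iteratedFDeriv ℝ 2 g x (fun _ => n)

/-- time derivative of v -/
def dtv (μ : Measure (Sp d)) (t : ℝ) (x : Sp d) : ℝ := deriv (fun s => vv μ s x) t

/-! ## Section 2: profiles -/

/-- average over a disc of radius one orthogonal to n -/
def disc (n : Sp d) (β : Sp d → ℝ) (x : Sp d) : ℝ :=
  ∫ y in closedBall (0 : (Submodule.span ℝ {n})ᗮ) 1, β (x - (y : Sp d))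

/-- value of a radial function at distance r -/
def rad (β : Sp d → ℝ) (r : ℝ) : ℝ := sSup (β '' sphere 0 r)

/-- radial potential: grad B = - x β for radial β supported in the unit ball -/
def Bp (β : Sp d → ℝ) (x : Sp d) : ℝ := ∫ r in (‖x‖)..1, r * rad β r

/-- profiles -/
structure IsProf (J : ℕ) (M : ℝ) (β : Sp d → ℝ) : Prop where
  smooth : ContDiff ℝ J β
  nonneg : ∀ x, 0 ≤ β x
  mono : ∀ x y, ‖x‖ ≤ ‖y‖ → β y ≤ β x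
  supp : ∀ x, 1 ≤ ‖x‖ → β x = 0
  int : ∫ x, β x = 1
  der : ∀ j ≤ J, ∀ n : Sp d, ‖n‖ = 1 → ∀ x, ‖iteratedFDeriv ℝ j β x‖ ^ 2 ≤ M * disc n β x

/-- profiles together with the properties of the two radial potentials -/
structure Kit (J : ℕ) (M : ℝ) (β : Sp d → ℝ) : Prop where
  prof : IsProf J M β
  smooth1 : ContDiff ℝ J (Bp β)
  smooth2 : ContDiff ℝ J (Bp (Bp β))
  supp1 : ∀ x, 1 ≤ ‖x‖ → Bp β x = 0
  supp2 : ∀ x, 1 ≤ ‖x‖ → Bp (Bp β) x = 0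
  grad1 : ∀ x, HasGradientAt (Bp β) (-(β x) • x) x
  grad2 : ∀ x, HasGradientAt (Bp (Bp β)) (-(Bp β x) • x) x
  nonneg1 : ∀ x, 0 ≤ Bp β x
  nonneg2 : ∀ x, 0 ≤ Bp (Bp β) x
  le1 : ∀ x, Bp β x ≤ β x
  le2 : ∀ x, Bp (Bp β) x ≤ Bp β x
  mono1 : ∀ x y, ‖x‖ ≤ ‖y‖ → Bp β y ≤ Bp β x
  mono2 : ∀ x y, ‖x‖ ≤ ‖y‖ → Bp (Bp β) y ≤ Bp (Bp β) x
  der1 : ∀ j ≤ J, ∀ n : Sp d, ‖n‖ = 1 → ∀ x,
    ‖iteratedFDeriv ℝ j (Bp β) x‖ ^ 2 ≤ M * disc n β x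
  der2 : ∀ j ≤ J, ∀ n : Sp d, ‖n‖ = 1 → ∀ x,
    ‖iteratedFDeriv ℝ j (Bp (Bp β)) x‖ ^ 2 ≤ M * disc n β x

/-- iterated kernels: KN b n is K_(n+1) of the paper -/
def KN (b : Sp d → ℝ) : ℕ → Sp d → ℝ
  | 0 => b
  | n + 1 => fun x => ∫ y, b y * (2 ^ d * KN b n ((2 : ℝ) • (x - y)))

/-- the base kernel -/
structure BaseKer (J : ℕ) (M c : ℝ) (b : Sp d → ℝ) : Prop where
  c_pos : 0 < c
  smooth : ContDiff ℝ J b
  nonneg : ∀ x, 0 ≤ b x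
  mono : ∀ x y, ‖x‖ ≤ ‖y‖ → b y ≤ b x
  supp : ∀ x, 1 / 2 ≤ ‖x‖ → b x = 0
  int : ∫ x, b x = 1
  kit : ∀ n, Kit J M (KN b n)
  low : ∀ n x, ‖x‖ ≤ c → c ≤ KN b n x

/-! ## Sections 2 and 3: w, wt, G, W -/

/-- w -/
def wv (β : Sp d → ℝ) (ε : ℝ) (μ : Measure (Sp d)) (t : ℝ) (y : Sp d) : ℝ :=
  ∫ z, β z * vv μ t (y + (ε * t) • z)

/-- w tilde -/
def wt (β : Sp d → ℝ) (ε : ℝ) (μ : Measure (Sp d)) (t : ℝ) (y : Sp d) : ℝ :=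
  ∫ z, (β z * vv μ t (y + (ε * t) • z)
    - 2 * ε ^ 2 * t * (Bp β z * dtv μ t (y + (ε * t) • z))
    - ε ^ 4 * t ^ 2 * (Bp (Bp β) z * lap (vv μ t) (y + (ε * t) • z)))

/-- the tent -/
def tau (t r : ℝ) : ℝ := max 0 (min (2 / 3 * (r - t / 2)) (1 / 3 * (2 * t - r)))

/-- G at scale t -/
def GG (β : Sp d → ℝ) (ε : ℝ) (μ : Measure (Sp d)) (t : ℝ) (y : Sp d) : ℝ :=
  wv β ε μ t y - 2 / 3 * wv β ε μ (t / 2) y - 1 / 3 * wv β ε μ (2 * t) y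

/-- W at scale t -/
def WW (β : Sp d → ℝ) (ε : ℝ) (μ : Measure (Sp d)) (t : ℝ) (y : Sp d) : ℝ :=
  ∫ r in (t / 2)..(2 * t), tau t r * wt β ε μ r y

/-- the gain in direction n -/
def gn (β : Sp d → ℝ) (ε : ℝ) (μ : Measure (Sp d)) (n : Sp d) (t : ℝ) (y : Sp d) : ℝ :=
  GG β ε μ t y - lap (WW β ε μ t) y + d2 n (WW β ε μ t) y

/-- tangential gradient energy -/
def X1 (β : Sp d → ℝ) (ε : ℝ) (μ : Measure (Sp d)) (n : Sp d) (t : ℝ) (y : Sp d) : ℝ :=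
  ∫ z, β z * (‖tang n (gradient (vv μ t) (y + (ε * t) • z))‖ ^ 2
    / vv μ t (y + (ε * t) • z))

/-- second moment of the posterior distribution in direction n -/
def X2 (μ : Measure (Sp d)) (n : Sp d) (t : ℝ) (y : Sp d) : ℝ :=
  (∫ η, ⟪η - y, n⟫_ℝ ^ 2 / (t ^ 2 + ‖y - η‖ ^ 2) ^ 2 * kk t (y - η) ∂μ) / vv μ t y

/-- energy of the ray derivative -/
def X3 (β : Sp d → ℝ) (ε : ℝ) (μ : Measure (Sp d)) (n : Sp d) (t : ℝ) (y : Sp d) : ℝ :=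
  ∫ z, β z * ((dtv μ t (y + (ε * t) • z)
      + ε * ⟪z, n⟫_ℝ * ⟪gradient (vv μ t) (y + (ε * t) • z), n⟫_ℝ) ^ 2
    / vv μ t (y + (ε * t) • z))

/-- averages in time with the tent -/
def tav (F : ℝ → Sp d → ℝ) (t : ℝ) (y : Sp d) : ℝ := ∫ r in (t / 2)..(2 * t), tau t r * F r y

/-- the gain functional X^k of the paper, for the scale t -/
def XX (β : Sp d → ℝ) (ε : ℝ) (μ : Measure (Sp d)) (n : Sp d) (t : ℝ) (y : Sp d) : ℝ :=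
  tav (X1 β ε μ n) t y + tav (X2 μ n) t y + tav (X3 β ε μ n) t y

/-! ## Sections 3 to 5: the chain of smoothed fields, cells, defects -/

section Chain

variable {F : Type*} [NormedAddCommGroup F] [NormedSpace ℝ F]

/-- scales -/
def lev (s0 : ℝ) (i : ℕ) : ℝ := s0 * 2 ^ i

/-- smoothed fields -/
def fl (b : Sp d → ℝ) (ε s0 : ℝ) (f : Sp d → F) : ℕ → Sp d → F
  | 0 => f
  | i + 1 => avk b (ε * lev s0 (i + 1)) (fl b ε s0 f i)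

end Chain

/-- lattice vector -/
def lat (p : Fin d → ℤ) : Sp d := WithLp.toLp 2 (fun j => (p j : ℝ))

/-- centre of a cell -/
def cen (s0 : ℝ) (i : ℕ) (p : Fin d → ℤ) : Sp d := lev s0 i • lat p

/-- one dimensional partition function, supported in [-1,1] -/
def chi1 (x : ℝ) : ℝ := Real.smoothTransition (x + 1) - Real.smoothTransition x

/-- partition function -/
def chi (y : Sp d) : ℝ := ∏ j, chi1 (y j)

/-- partition function of a cell with centre x and scale t -/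
def chiQ (x : Sp d) (t : ℝ) (y : Sp d) : ℝ := chi ((1 / t) • (y - x))

section Def2

variable {E : Type} [NormedAddCommGroup E] [InnerProductSpace ℝ E]

/-- the defect functional -/
def DD (b : Sp d → ℝ) (ε R s0 : ℝ) (f : Sp d → E) (i : ℕ) (x : Sp d) (e : E) : ℝ :=
  lev s0 i / lev s0 i ^ d *
    (∑ l ∈ Finset.range (i + 1), (1 / 4 : ℝ) ^ (i - l) *
        (∫ y in ball x (R * lev s0 i), (‖fl b ε s0 f l y‖ - ⟪fl b ε s0 f l y, e⟫_ℝ))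
      + (1 / 4 : ℝ) ^ i * ∫ y in ball x (R * lev s0 i), ‖f y‖)

/-- the mass functional -/
def ma (b : Sp d → ℝ) (ε R s0 : ℝ) (f : Sp d → E) (i : ℕ) (x : Sp d) : ℝ :=
  lev s0 i / lev s0 i ^ d * ∫ y in ball x (R * lev s0 i), ‖fl b ε s0 f (i - 1) y‖

end Def2

/-- rescaled field: centre x, scale t -/
def rs {F : Type*} [NormedAddCommGroup F] [NormedSpace ℝ F] (x : Sp d) (t : ℝ) (f : Sp d → F)
    (y : Sp d) : F := t • f (x + t • y)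

/-- rescaled measure -/
def rsm (x : Sp d) (t : ℝ) (μ : Measure (Sp d)) : Measure (Sp d) :=
  ENNReal.ofReal (t / t ^ d) • μ.map (fun y => (1 / t) • (y - x))

/-- C^J norm of a test function at unit scale -/
structure TFn {F : Type*} [NormedAddCommGroup F] [NormedSpace ℝ F] (J : ℕ) (N : ℝ)
    (ζ : Sp d → F) : Prop where
  smooth : ContDiff ℝ J ζ
  bd : ∀ j ≤ J, ∀ x, ‖iteratedFDeriv ℝ j ζ x‖ ≤ N

/-- averaged Taylor polynomial of degree at most m over the ball with centre c and radius r;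
φ is the fixed bump bk of TR -/
def ATP {V : Type*} [NormedAddCommGroup V] [NormedSpace ℝ V] (m : ℕ) (c : Sp d) (r : ℝ)
    (u : Sp d → V) (x : Sp d) : V :=
  ∫ z, bk d z • ∑ k ∈ Finset.range (m + 1),
    ((Nat.factorial k : ℝ)⁻¹ • iteratedFDeriv ℝ k u (c + r • z) (fun _ => x - (c + r • z)))

/-- the plane integral over {⟨n,x⟩ = c} -/
def plInt {F : Type*} [NormedAddCommGroup F] [NormedSpace ℝ F] (n : Sp d) (c : ℝ)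
    (ζ : Sp d → F) : F :=
  ∫ y : (Submodule.span ℝ {n})ᗮ, ζ (c • n + (y : Sp d))

/-- second order operator Σ_k (∂_{S e_k})² -/
def qD {p : ℕ} (S : Sp p →L[ℝ] Sp d) (ζ : Sp d → ℝ) (x : Sp d) : ℝ :=
  ∑ k : Fin p, iteratedFDeriv ℝ 2 ζ x (fun _ => S (EuclideanSpace.single k (1 : ℝ)))

end

end TG


end

section

/-!
# Trace inequality, general operators: module statements, first batch

Every statement StmtXX is proved as theorem stmtXX : StmtXX in Pool/Agent/TG/XX.lean (namespace TG),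
possibly with other Stmt's as hypotheses.  Section numbers refer to PAPER.md.  No double quotes.
Unit scale: s0 = (1/2)^n, so lev s0 n = 1.
-/

open MeasureTheory Metric Set TrI
open scoped InnerProductSpace ContDiff

namespace TG

noncomputable section

/-! ## Section 1 -/

/-- MODULE TH: the potential -/
def StmtTH : Prop :=
  ∀ (d J : ℕ), 2 ≤ d → ∀ C' : ℝ, 0 < C' → ∃ C : ℝ, 0 < C ∧
    ∀ μ : Measure (Sp d), Gro C' μ →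
      (∀ (t : ℝ) (x : Sp d), 0 < t → 0 < th μ t x ∧ th μ t x ≤ C) ∧
      ContDiffOn ℝ ∞ (fun p : ℝ × Sp d => vv μ p.1 p.2) {p | 0 < p.1} ∧
      (∀ (t : ℝ) (x : Sp d) (j : ℕ), 0 < t → j ≤ J →
        ‖iteratedFDeriv ℝ j (fun p : ℝ × Sp d => vv μ p.1 p.2) (t, x)‖ ≤
          C * vv μ t x / t ^ j) ∧
      (∀ (t : ℝ) (x x' : Sp d), 0 < t → th μ t x' ≤ (1 + ‖x - x'‖ / t) ^ d * th μ t x) ∧
      (∀ (s t : ℝ) (x : Sp d), 0 < t → t / 8 ≤ s → s ≤ 8 * t → th μ s x ≤ C * th μ t x)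

/-! ## Section 2 -/

/-- MODULE BK: existence of the base kernel -/
def StmtBK : Prop :=
  ∀ (d J : ℕ), 1 ≤ d → ∃ (M c : ℝ) (b : Sp d → ℝ), BaseKer J M c b

/-- MODULE GN: identity (**) and inequality (G) at unit scale -/
def StmtGN : Prop :=
  ∀ (d J : ℕ), 2 ≤ d → 2 ≤ J → ∀ M : ℝ, ∃ ε0 : ℝ, 0 < ε0 ∧ ∀ ε : ℝ, 0 < ε → ε ≤ ε0 →
    ∃ c : ℝ, 0 < c ∧ ∀ β : Sp d → ℝ, Kit J M β → ∀ (C' : ℝ) (μ : Measure (Sp d)), 0 < C' →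
      Gro C' μ →
      ∀ n : Sp d, ‖n‖ = 1 → ∀ y : Sp d, c * XX β ε μ n 1 y ≤ gn β ε μ n 1 y

/-- the integrand of g_n: minus (D_t² + c² Lap_T) v along the rays through y -/
def gr {d : ℕ} (β : Sp d → ℝ) (ε : ℝ) (μ : Measure (Sp d)) (n : Sp d) (t : ℝ) (y : Sp d) : ℝ :=
  -∫ z, β z * (iteratedFDeriv ℝ 2 (fun p : ℝ × Sp d => vv μ p.1 p.2) (t, y + (ε * t) • z)
      (fun _ => ((1 : ℝ), (ε * ⟪z, n⟫_ℝ) • n))
    + (1 + (ε * ⟪z, n⟫_ℝ) ^ 2) *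
      (lap (vv μ t) (y + (ε * t) • z) - d2 n (vv μ t) (y + (ε * t) • z)))

/-- MODULE GI: the identity (**), integrated in time -/
def StmtGI : Prop :=
  ∀ (d J : ℕ), 2 ≤ d → 2 ≤ J → ∀ (M ε : ℝ), 0 < ε → ε ≤ 1 → ∀ β : Sp d → ℝ, Kit J M β →
    ∀ (C' : ℝ) (μ : Measure (Sp d)), 0 < C' → Gro C' μ → ∀ n : Sp d, ‖n‖ = 1 → ∀ y : Sp d,
      gn β ε μ n 1 y = ∫ r in (1 / 2 : ℝ)..2, tau 1 r * gr β ε μ n r y

/-- MODULE GP: the inequality (G) at a fixed time -/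
def StmtGP : Prop :=
  ∀ (d J : ℕ), 2 ≤ d → 2 ≤ J → ∀ M : ℝ, ∃ ε0 : ℝ, 0 < ε0 ∧ ∀ ε : ℝ, 0 < ε → ε ≤ ε0 →
    ∃ c : ℝ, 0 < c ∧ ∀ β : Sp d → ℝ, Kit J M β → ∀ (C' : ℝ) (μ : Measure (Sp d)), 0 < C' →
      Gro C' μ → ∀ n : Sp d, ‖n‖ = 1 → ∀ (t : ℝ) (y : Sp d), 1 / 2 ≤ t → t ≤ 2 →
        c * (X1 β ε μ n t y + X2 μ n t y + X3 β ε μ n t y) ≤ gr β ε μ n t y

/-- disc average of radius ρ in the plane through y orthogonal to n -/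
def discR {d : ℕ} (n : Sp d) (ρ : ℝ) (F : Sp d → ℝ) (y : Sp d) : ℝ :=
  ∫ y' in closedBall (0 : (Submodule.span ℝ {n})ᗮ) ρ, F (y + (y' : Sp d))

/-- moments of the height over the plane {⟨n,x⟩ = c}, see (10.4) -/
def Mo {d : ℕ} (μ : Measure (Sp d)) (n : Sp d) (c : ℝ) (j : ℕ) (t : ℝ) (y : Sp d) : ℝ :=
  (∫ η, (⟪η, n⟫_ℝ - c) ^ j / (t ^ 2 + ‖y - η‖ ^ 2) ^ 2 * kk t (y - η) ∂μ) / vv μ t y

/-- X1 + X3, averaged in time -/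
def X13 {d : ℕ} (β : Sp d → ℝ) (ε : ℝ) (μ : Measure (Sp d)) (n : Sp d) (t : ℝ) (y : Sp d) : ℝ :=
  tav (X1 β ε μ n) t y + tav (X3 β ε μ n) t y

/-- MODULE WA: smoothness and simple bounds of W, G and the gain functionals, unit scale -/
def StmtWA : Prop :=
  ∀ (d J : ℕ), 2 ≤ d → ∀ (M C' ε : ℝ), 0 < C' → 0 < ε → ε ≤ 1 → ∃ C : ℝ, 0 < C ∧
    ∀ β : Sp d → ℝ, Kit (J + 4) M β → ∀ μ : Measure (Sp d), Gro C' μ →
      ContDiff ℝ ∞ (WW β ε μ 1) ∧ ContDiff ℝ ∞ (GG β ε μ 1) ∧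
      (∀ j ≤ J, ∀ y, ‖iteratedFDeriv ℝ j (WW β ε μ 1) y‖ ≤ C * vv μ 1 y) ∧
      (∀ j ≤ J, ∀ y, ‖iteratedFDeriv ℝ j (GG β ε μ 1) y‖ ≤ C * vv μ 1 y) ∧
      ∀ n : Sp d, ‖n‖ = 1 →
        ContDiff ℝ J (XX β ε μ n 1) ∧ (∀ y, 0 ≤ XX β ε μ n 1 y) ∧
        (∀ j ≤ J, ∀ y, ‖iteratedFDeriv ℝ j (XX β ε μ n 1) y‖ ≤ C * vv μ 1 y) ∧
        ContDiff ℝ J (X13 β ε μ n 1) ∧ (∀ y, 0 ≤ X13 β ε μ n 1 y) ∧
        (∀ j ≤ J, ∀ y, ‖iteratedFDeriv ℝ j (X13 β ε μ n 1) y‖ ≤ C * vv μ 1 y)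

/-- MODULE WB: the sharp derivative bounds (2.2), unit scale -/
def StmtWB : Prop :=
  ∀ (d J : ℕ), 2 ≤ d → ∀ (M C' ε : ℝ), 0 < C' → 0 < ε → ε ≤ 1 → ∃ C : ℝ, 0 < C ∧
    ∀ β : Sp d → ℝ, Kit (J + 4) M β → ∀ μ : Measure (Sp d), Gro C' μ →
      ∀ n : Sp d, ‖n‖ = 1 →
        (∀ j ≤ J, ∀ y, ‖iteratedFDeriv ℝ j (fun x => tang n (gradient (WW β ε μ 1) x)) y‖ ^ 2 ≤
          C * vv μ 1 y * discR n (2 * ε) (X13 β ε μ n 1) y) ∧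
        (∀ j ≤ J, ∀ (h : Fin j → Sp d), (∀ i, ⟪n, h i⟫_ℝ = 0) → (∀ i, ‖h i‖ ≤ 1) → ∀ y,
          (iteratedFDeriv ℝ j (fun x => ⟪gradient (WW β ε μ 1) x, n⟫_ℝ) y h) ^ 2 ≤
          C * vv μ 1 y * tav (X2 μ n) 1 y) ∧
        (∀ j ≤ J, ∀ (h : Fin j → Sp d), (∀ i, ⟪n, h i⟫_ℝ = 0) → (∀ i, ‖h i‖ ≤ 1) → ∀ y,
          (iteratedFDeriv ℝ j (X13 β ε μ n 1) y h) ^ 2 ≤
            C * vv μ 1 y * discR n (2 * ε) (X13 β ε μ n 1) y ∧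
          (iteratedFDeriv ℝ j (fun x => fderiv ℝ (X13 β ε μ n 1) x n) y h) ^ 2 ≤
            C * vv μ 1 y * discR n (2 * ε) (X13 β ε μ n 1) y) ∧
        (∀ y, -C * Real.sqrt (vv μ 1 y * discR n (2 * ε) (X13 β ε μ n 1) y) ≤
          d2 n (X13 β ε μ n 1) y)

/-- MODULE MO: the bilinear form of X2, unit scale -/
def StmtMO : Prop :=
  ∀ (d J : ℕ), 2 ≤ d → ∀ (C' : ℝ), 0 < C' → ∃ C : ℝ, 0 < C ∧
    ∀ μ : Measure (Sp d), Gro C' μ → ∀ n : Sp d, ‖n‖ = 1 → ∀ c : ℝ,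
      (∀ y, tav (X2 μ n) 1 y = tav (Mo μ n c 2) 1 y
        - 2 * (⟪y, n⟫_ℝ - c) * tav (Mo μ n c 1) 1 y
        + (⟪y, n⟫_ℝ - c) ^ 2 * tav (Mo μ n c 0) 1 y) ∧
      (∀ i, ContDiff ℝ ∞ (fun y => tav (Mo μ n c i) 1 y)) ∧
      (∀ j ≤ J, ∀ y, ‖iteratedFDeriv ℝ j (fun y => tav (Mo μ n c 2) 1 y) y‖ ≤
        C * tav (Mo μ n c 2) 1 y) ∧
      (∀ j ≤ J, ∀ y, ‖iteratedFDeriv ℝ j (fun y => tav (Mo μ n c 0) 1 y) y‖ ≤
        C * tav (Mo μ n c 0) 1 y) ∧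
      (∀ j ≤ J, ∀ y, ‖iteratedFDeriv ℝ j (fun y => tav (Mo μ n c 1) 1 y) y‖ ^ 2 ≤
        C * tav (Mo μ n c 0) 1 y * tav (Mo μ n c 2) 1 y) ∧
      (∀ y, tav (Mo μ n c 0) 1 y ≤ C * vv μ 1 y) ∧
      (∀ y y', tav (Mo μ n c 2) 1 y' ≤ C * (1 + ‖y - y'‖) ^ (2 * d + 4) * tav (Mo μ n c 2) 1 y) ∧
      (∀ y y', tav (Mo μ n c 0) 1 y' ≤ C * (1 + ‖y - y'‖) ^ (2 * d + 4) * tav (Mo μ n c 0) 1 y)

/-- MODULE SC: scaling -/
def StmtSC : Prop :=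
  ∀ (d : ℕ), 2 ≤ d → ∀ (C' : ℝ), 0 < C' → ∀ (x : Sp d) (t : ℝ), 0 < t →
    (∀ μ : Measure (Sp d), Gro C' μ →
      Gro C' (rsm x t μ) ∧
      (∀ r y, 0 < r → th (rsm x t μ) r y = th μ (t * r) (x + t • y)) ∧
      (∀ r y, 0 < r → vv (rsm x t μ) r y = vv μ (t * r) (x + t • y)) ∧
      (∀ (S : Set (Sp d)), MeasurableSet S →
        rsm x t μ S = ENNReal.ofReal (t / t ^ d) * μ ((fun y => x + t • y) '' S)) ∧
      ∀ (J : ℕ) (M : ℝ) (β : Sp d → ℝ), Kit J M β → 2 ≤ J → ∀ ε : ℝ, 0 < ε → ε ≤ 1 →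
        ∀ (r : ℝ) (y : Sp d), 0 < r →
          GG β ε (rsm x t μ) r y = GG β ε μ (t * r) (x + t • y) ∧
          t ^ 2 * WW β ε (rsm x t μ) r y = WW β ε μ (t * r) (x + t • y) ∧
          (∀ n : Sp d, XX β ε (rsm x t μ) n r y = XX β ε μ n (t * r) (x + t • y)) ∧
          (∀ n : Sp d, X13 β ε (rsm x t μ) n r y = X13 β ε μ n (t * r) (x + t • y)) ∧
          (∀ n : Sp d, gn β ε (rsm x t μ) n r y = gn β ε μ n (t * r) (x + t • y))) ∧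
    (∀ (E : Type) [NormedAddCommGroup E] [InnerProductSpace ℝ E] [FiniteDimensional ℝ E]
      (M c : ℝ) (b : Sp d → ℝ), BaseKer 2 M c b → ∀ ε : ℝ, 0 < ε → ε ≤ 1 →
      ∀ f : Sp d → E, Continuous f → HasCompactSupport f → ∀ s0 : ℝ, 0 < s0 →
        (∀ i y, fl b ε (s0 / t) (rs x t f) i y = t • fl b ε s0 f i (x + t • y)) ∧
        (∀ R i y e, DD b ε R (s0 / t) (rs x t f) i y e = DD b ε R s0 f i (x + t • y) e) ∧
        (∀ R i y, ma b ε R (s0 / t) (rs x t f) i y = ma b ε R s0 f i (x + t • y))) ∧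
    (∀ (V E : Type) [NormedAddCommGroup V] [InnerProductSpace ℝ V] [FiniteDimensional ℝ V]
      [NormedAddCommGroup E] [InnerProductSpace ℝ E] [FiniteDimensional ℝ E]
      (L : (Sp d →L[ℝ] V) →L[ℝ] E) (u : Sp d → V), TF u →
      TF (fun y => u (x + t • y)) ∧ fo L (fun y => u (x + t • y)) = rs x t (fo L u))

/-! ## Sections 3 and 5 -/

/-- the function g_k of (3.1) -/
def gk {d : ℕ} (b : Sp d → ℝ) (ε : ℝ) (μ : Measure (Sp d)) (s0 : ℝ) (i : ℕ) (y : Sp d) : ℝ :=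
  avk b (ε * lev s0 i) (fun x => vv μ (lev s0 i) x
    - 1 / 3 * avk b (ε * lev s0 (i + 1)) (vv μ (lev s0 (i + 1))) x) y
  - 2 / 3 * vv μ (lev s0 (i - 1)) y

/-- MODULE PO: potential inequality (3.1) -/
def StmtPO : Prop :=
  ∀ (d : ℕ), 2 ≤ d → ∀ (M c C' ε : ℝ), 0 < C' → 0 < ε → ε ≤ 1 / 4 →
    ∀ (b : Sp d → ℝ), BaseKer 4 M c b → ∃ C : ℝ, 0 < C ∧
    ∀ (μ : Measure (Sp d)), Gro C' μ → ∀ s0 : ℝ, 0 < s0 →
      (∀ i y, 1 ≤ i → |gk b ε μ s0 i y| ≤ C * vv μ (lev s0 i) y) ∧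
      (∀ i y, 2 ≤ i → |avk (KN b (i - 2)) (ε * lev s0 (i - 1)) (gk b ε μ s0 i) y
        - GG (KN b (i - 2)) ε μ (lev s0 i) y| ≤ C * (1 / 4) ^ i * vv μ (lev s0 i) y) ∧
      ∀ (E : Type) [NormedAddCommGroup E] [InnerProductSpace ℝ E] [FiniteDimensional ℝ E]
        (f : Sp d → E), Continuous f → HasCompactSupport f → ∀ I : ℕ,
        ∑ i ∈ Finset.Ico 2 I, ∫ y, ‖fl b ε s0 f (i - 1) y‖ * gk b ε μ s0 i y ≤
          C * ∫ y, ‖f y‖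

/-- MODULE PT: potential inequality (3.1) and reduction to cells (5.1) -/
def StmtPT : Prop :=
  ∀ (d : ℕ), 2 ≤ d → ∀ (M c C' ε R : ℝ), 0 < C' → 0 < ε → ε ≤ 1 / 4 → (d : ℝ) + 4 ≤ R →
    ∀ (b : Sp d → ℝ), BaseKer 4 M c b → ∃ C : ℝ, 0 < C ∧
    ∀ (E : Type) [NormedAddCommGroup E] [InnerProductSpace ℝ E] [FiniteDimensional ℝ E]
      (μ : Measure (Sp d)), Gro C' μ →
    ∀ f : Sp d → E, Continuous f → HasCompactSupport f → ∀ s0 : ℝ, 0 < s0 →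
    ∀ e : ℕ → (Fin d → ℤ) → E, (∀ i p, ‖e i p‖ = 1) → ∀ I : ℕ,
      ∑ i ∈ Finset.Ico 2 I, ∑' p : Fin d → ℤ,
        ∫ y, chiQ (cen s0 i p) (lev s0 i) y * ⟪f y, e i p⟫_ℝ *
          GG (KN b (i - 2)) ε μ (lev s0 i) y ≤
      C * ((∫ y, ‖f y‖) + ∑ i ∈ Finset.Ico 2 I, ∑' p : Fin d → ℤ,
        lev s0 i ^ (d - 1) * DD b ε R s0 f i (cen s0 i p) (e i p))

/-! ## Section 4 -/

/-- MODULE PK: packing (4.1) -/
def StmtPK : Prop :=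
  ∀ (d : ℕ), 1 ≤ d → ∀ (M c ε R : ℝ), 0 < ε → ε ≤ 1 → 1 ≤ R →
    ∀ (b : Sp d → ℝ), BaseKer 2 M c b → ∃ C : ℝ, 0 < C ∧
    ∀ (E : Type) [NormedAddCommGroup E] [InnerProductSpace ℝ E] [FiniteDimensional ℝ E]
      [Nontrivial E],
    ∀ f : Sp d → E, Continuous f → HasCompactSupport f → ∀ s0 : ℝ, 0 < s0 →
    ∃ e : ℕ → (Fin d → ℤ) → E, (∀ i p, ‖e i p‖ = 1) ∧ ∀ I : ℕ,
      ∑ i ∈ Finset.range I, ∑' p : Fin d → ℤ,
        lev s0 i ^ (d - 1) * DD b ε R s0 f i (cen s0 i p) (e i p) ≤ C * ∫ y, ‖f y‖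

/-- MODULE ZZ: Lemma Z (4.4) -/
def StmtZ : Prop :=
  ∀ (d : ℕ), 1 ≤ d → ∀ (M c ε : ℝ), 0 < ε → ε ≤ 1 →
    ∀ (b : Sp d → ℝ), BaseKer 2 M c b → ∃ C : ℝ, 0 < C ∧
    ∀ (E : Type) [NormedAddCommGroup E] [InnerProductSpace ℝ E] [FiniteDimensional ℝ E],
    ∀ f : Sp d → E, Continuous f → HasCompactSupport f → ∀ (R : ℝ), 3 ≤ R → ∀ (n : ℕ) (e : E),
    ‖e‖ = 1 → ∀ (x : Sp d) (H : Sp d → ℝ), ContDiff ℝ 2 H → (∀ y, 0 ≤ H y) → (∀ y, H y ≤ 1) →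
      (∀ y, ‖iteratedFDeriv ℝ 2 H y‖ ≤ 1) → (∀ y, R - 2 ≤ ‖y - x‖ → H y = 0) →
      -C * DD b ε R ((1 / 2) ^ n) f n x e ≤ ∫ y, ⟪f y, e⟫_ℝ * H y

/-- MODULE DI: change of direction (4.3) -/
def StmtDI : Prop :=
  ∀ (d : ℕ), 1 ≤ d → ∀ (M c ε : ℝ), 0 < ε → ε ≤ 1 →
    ∀ (b : Sp d → ℝ), BaseKer 2 M c b → ∃ C : ℝ, 0 < C ∧
    ∀ (E : Type) [NormedAddCommGroup E] [InnerProductSpace ℝ E] [FiniteDimensional ℝ E],
    ∀ f : Sp d → E, Continuous f → HasCompactSupport f → ∀ (R : ℝ), 3 ≤ R → ∀ (n : ℕ) (e e' : E),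
    ‖e‖ = 1 → ‖e'‖ = 1 → ∀ (x x' : Sp d) (Y : Sp d → ℝ), ContDiff ℝ 2 Y → (∀ y, |Y y| ≤ 1) →
      (∀ y, ‖iteratedFDeriv ℝ 2 Y y‖ ≤ 1) → (∀ y, R - 1 ≤ ‖y - x‖ → Y y = 0) →
      (∀ y, R - 1 ≤ ‖y - x'‖ → Y y = 0) →
      |∫ y, ⟪f y, e - e'⟫_ℝ * Y y| ≤
        C * (DD b ε R ((1 / 2) ^ n) f n x e + DD b ε R ((1 / 2) ^ n) f n x' e')

/-- MODULE PE: perpendicular part (4.5) -/
def StmtPE : Prop :=
  ∀ (d : ℕ), 1 ≤ d → ∀ (M c ε : ℝ), 0 < ε → ε ≤ 1 →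
    ∀ (b : Sp d → ℝ), BaseKer 2 M c b → ∃ C : ℝ, 0 < C ∧
    ∀ (E : Type) [NormedAddCommGroup E] [InnerProductSpace ℝ E] [FiniteDimensional ℝ E],
    ∀ f : Sp d → E, Continuous f → HasCompactSupport f → ∀ (R : ℝ), 3 ≤ R → ∀ (n : ℕ) (e : E),
    ‖e‖ = 1 → ∀ (x : Sp d) (Y : Sp d → E) (S : Set (Sp d)), MeasurableSet S → ContDiff ℝ 2 Y →
      (∀ y, ‖Y y‖ ≤ 1) → (∀ y, ‖iteratedFDeriv ℝ 2 Y y‖ ≤ 1) →
      (∀ y, R - 2 ≤ ‖y - x‖ → Y y = 0) → (∀ y z, Y y ≠ 0 → ‖z - y‖ ≤ 1 → z ∈ S) →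
      |∫ y, ⟪f y - ⟪f y, e⟫_ℝ • e, Y y⟫_ℝ| ≤
        C * (Real.sqrt ((∫ y in S, ‖fl b ε ((1 / 2) ^ n) f (n - 1) y‖) *
            DD b ε R ((1 / 2) ^ n) f n x e) + DD b ε R ((1 / 2) ^ n) f n x e)

/-- MODULE MA: mass against test functions (4.6) -/
def StmtMA : Prop :=
  ∀ (d : ℕ), 1 ≤ d → ∀ (M c ε : ℝ), 0 < ε → ε ≤ 1 →
    ∀ (b : Sp d → ℝ), BaseKer 2 M c b → ∃ C : ℝ, 0 < C ∧
    ∀ (E : Type) [NormedAddCommGroup E] [InnerProductSpace ℝ E] [FiniteDimensional ℝ E],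
    ∀ f : Sp d → E, Continuous f → HasCompactSupport f → ∀ (R : ℝ), 5 ≤ R → ∀ (n : ℕ) (e : E),
    ‖e‖ = 1 → ∀ (x : Sp d) (S : Set (Sp d)), MeasurableSet S →
      (∀ (ζ : Sp d → ℝ), ContDiff ℝ 2 ζ → (∀ y, |ζ y| ≤ 1) →
        (∀ y, ‖iteratedFDeriv ℝ 2 ζ y‖ ≤ 1) → (∀ y, R - 2 ≤ ‖y - x‖ → ζ y = 0) →
        (∀ y z, ζ y ≠ 0 → ‖z - y‖ ≤ 1 → z ∈ S) →
        |∫ y, ⟪f y, e⟫_ℝ * ζ y| ≤ C * ((∫ y in S, ‖fl b ε ((1 / 2) ^ n) f (n - 1) y‖) +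
            DD b ε R ((1 / 2) ^ n) f n x e)) ∧
      (∀ (H : Sp d → ℝ) (h0 : ℝ), 0 < h0 → h0 ≤ 1 → ContDiff ℝ 2 H → (∀ y, 0 ≤ H y) →
        (∀ y, H y ≤ 1) → (∀ y, ‖iteratedFDeriv ℝ 2 H y‖ ≤ 1) →
        (∀ y, R - 2 ≤ ‖y - x‖ → H y = 0) → (∀ y z, y ∈ S → ‖z - y‖ ≤ 2 → h0 ≤ H z) →
        (∫ y in S, ‖fl b ε ((1 / 2) ^ n) f (n - 1) y‖) ≤
          1 / h0 * (∫ y, ⟪f y, e⟫_ℝ * H y) + C / h0 * DD b ε R ((1 / 2) ^ n) f n x e)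

/-! ## Section 7 -/

section Op

/-- MODULE TP: averaged Taylor polynomials, Lemma 7.1 -/
def StmtTP : Prop :=
  ∀ (d : ℕ) (V E : Type) [NormedAddCommGroup V] [InnerProductSpace ℝ V] [FiniteDimensional ℝ V]
    [NormedAddCommGroup E] [InnerProductSpace ℝ E] [FiniteDimensional ℝ E]
    (L : (Sp d →L[ℝ] V) →L[ℝ] E) (n : ℕ)
    (T : (ContinuousMultilinearMap ℝ (fun _ : Fin n => Sp d) E) →L[ℝ]
      (ContinuousMultilinearMap ℝ (fun _ : Fin (n + 1) => Sp d) V)), 1 ≤ d → 1 ≤ n →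
    NSProp L n T → ∀ (J : ℕ) (r0 R : ℝ), 0 < r0 → r0 ≤ R → ∃ C : ℝ, 0 < C ∧
      ∀ (c : Sp d) (r : ℝ), ‖c‖ ≤ R → r0 ≤ r → r ≤ R →
      ∀ (g : Sp d → V) (N : ℝ), TFn (J + n + 1) N g → (∀ y, R ≤ ‖y‖ → g y = 0) →
      ∃ Φ : Sp d → E, TFn J (C * N) Φ ∧
        (∀ y, Φ y ≠ 0 → y ∈ convexHull ℝ (tsupport g ∪ closedBall c r)) ∧
        ∀ u : Sp d → V, ContDiff ℝ ∞ u →
          ∫ x, ⟪u x - ATP n c r u x, g x⟫_ℝ = ∫ x, ⟪fo L u x, Φ x⟫_ℝ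

/-- MODULE TQ: the averaged Taylor polynomial is a polynomial of degree at most n, reproduces such
polynomials and converges to u(x) for small balls around x -/
def StmtTQ : Prop :=
  ∀ (d : ℕ) (V : Type) [NormedAddCommGroup V] [InnerProductSpace ℝ V] [FiniteDimensional ℝ V]
    (n : ℕ) (u : Sp d → V), 1 ≤ d → ContDiff ℝ ∞ u → ∀ (c : Sp d) (r : ℝ), 0 < r →
      ContDiff ℝ ∞ (ATP n c r u) ∧ (∀ x, iteratedFDeriv ℝ (n + 1) (ATP n c r u) x = 0) ∧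
      ((∀ x, iteratedFDeriv ℝ (n + 1) u x = 0) → ATP n c r u = u)

end Op

/-! ## Section 9, algebra -/

/-- the operator |∇|² - ∂_ν² -/
def opNu {d : ℕ} (ν : Sp d) (ζ : Sp d → ℝ) : Sp d → ℝ := fun x => lap ζ x - d2 ν ζ x

/-- composition of all second order operators of the list -/
def allOp {d r q : ℕ} (ν : Fin r → Sp d) (S : Fin q → (Sp d →L[ℝ] Sp d)) (ζ : Sp d → ℝ) :
    Sp d → ℝ :=
  (List.ofFn ν).foldr (fun v g => opNu v g) ((List.ofFn S).foldr (fun s g => qD s g) ζ)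

/-- MODULE AL: (9.1) - (9.3) -/
def StmtAL : Prop :=
  ∀ (d : ℕ) (V E : Type) [NormedAddCommGroup V] [InnerProductSpace ℝ V] [FiniteDimensional ℝ V]
    [NormedAddCommGroup E] [InnerProductSpace ℝ E] [FiniteDimensional ℝ E]
    (L : (Sp d →L[ℝ] V) →L[ℝ] E), 2 ≤ d → CEll L → ∀ e0 : E, e0 ≠ 0 →
    ∃ (r q Mx m : ℕ) (ν : Fin r → Sp d) (S : Fin q → (Sp d →L[ℝ] Sp d))
      (TY : (ContinuousMultilinearMap ℝ (fun _ : Fin m => Sp d) ℝ) →L[ℝ] E),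
      1 ≤ q ∧ 1 ≤ Mx ∧ (∀ i, ‖ν i‖ = 1) ∧ (∀ i j, i ≠ j → ν i ≠ ν j ∧ ν i ≠ - ν j) ∧
      (∀ k, Function.Bijective (S k)) ∧
      (∀ ζ : Sp d → ℝ, ContDiff ℝ ∞ ζ → ∀ x,
        ⟪e0, TY (iteratedFDeriv ℝ m ζ x)⟫_ℝ = (allOp ν S)^[Mx] ζ x) ∧
      (∀ (u : Sp d → V) (ζ : Sp d → ℝ), ContDiff ℝ ∞ u → ContDiff ℝ ∞ ζ → HasCompactSupport ζ →
        ∫ x, ⟪fo L u x, TY (iteratedFDeriv ℝ m ζ x)⟫_ℝ = 0)

/-! ## Section 9, analysis -/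

/-- MODULE ST: structure theorem (B2'), unit scale -/
def StmtST : Prop :=
  ∀ (d : ℕ) (V E : Type) [NormedAddCommGroup V] [InnerProductSpace ℝ V] [FiniteDimensional ℝ V]
    [NormedAddCommGroup E] [InnerProductSpace ℝ E] [FiniteDimensional ℝ E]
    (L : (Sp d →L[ℝ] V) →L[ℝ] E), 2 ≤ d → CEll L →
    ∀ (M c ε : ℝ), 0 < ε → ε ≤ 1 → ∀ (b : Sp d → ℝ), BaseKer 2 M c b →
    ∀ (γ K Rs ε' : ℝ), 0 < γ → γ ≤ 1 / (8 * d) → 0 < K → 1 ≤ Rs → 0 < ε' →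
    ∃ (J : ℕ) (R1 δ : ℝ), Rs + 3 ≤ R1 ∧ 0 < δ ∧
      ∀ (n : ℕ) (u : Sp d → V), TF u → ∀ (e : E), ‖e‖ = 1 → ∀ a : ℝ, 0 ≤ a →
        (∀ ρ : ℝ, 1 ≤ ρ → ρ ≤ R1 →
          (∫ y in ball (0 : Sp d) ρ, ‖fl b ε ((1 / 2) ^ n) (fo L u) (n - 1) y‖) ≤
            K * ρ ^ ((d : ℝ) - 1 + γ) * a) →
        DD b ε R1 ((1 / 2) ^ n) (fo L u) n 0 e ≤ δ * a →
        ∃ (r : ℕ) (ν : Fin r → Sp d) (κ : Fin r → Sp d → ℝ),
          (∀ i, ‖ν i‖ = 1) ∧ (∀ i y, 0 ≤ κ i y) ∧ (∀ i, TFn 2 1 (κ i)) ∧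
          (∀ i y, κ i y ≠ 0 → ‖tang (ν i) y‖ ≤ R1 - Rs - 3) ∧
          (∀ i y, κ i y = κ i (tang (ν i) y)) ∧
          ∀ (ζ : Sp d → ℝ) (N : ℝ), TFn J N ζ → (∀ y, Rs ≤ ‖y‖ → ζ y = 0) →
            |(∫ y, ⟪fo L u y, e⟫_ℝ * ζ y)
              - ∑ i, ∫ y, ⟪fo L u y, e⟫_ℝ * (κ i y * plInt (ν i) ⟪ν i, y⟫_ℝ ζ)| ≤
              ε' * a * N

end

end TG


end

section

/-!
# Trace inequality, general operators: sections 6 (far function), 10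

Definitions and module statements, unit scale.  No double quotes.
-/

open MeasureTheory Metric Set TrI
open scoped InnerProductSpace ContDiff

namespace TG

noncomputable section

variable {d : ℕ}

/-! ## Section 6: the far function and the matrix field -/

/-- cut-off on the line: 1 for r ≤ 1/2, 0 for r ≥ 1; a square, hence |cut'|² ≤ C cut -/
def cut (r : ℝ) : ℝ := Real.smoothTransition (2 - 2 * r) ^ 2

/-- near fraction of the posterior distribution at height t and position x -/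
def qq (A : ℝ) (μ : Measure (Sp d)) (t : ℝ) (x : Sp d) : ℝ :=
  (∫ η, cut (‖x - η‖ / (A * t)) * kk t (x - η) ∂μ) / th μ t x

/-- the function Υ: 0 where q ≤ p0/2, 1 where q ≥ p0 -/
def Ups (p0 A : ℝ) (μ : Measure (Sp d)) (t : ℝ) (x : Sp d) : ℝ :=
  Real.smoothTransition (2 * qq A μ t x / p0 - 1)

/-- H_n = nᵀ HH n -/
def Hn (β : Sp d → ℝ) (ε p0 A : ℝ) (μ : Measure (Sp d)) (n : Sp d) (t : ℝ) (y : Sp d) : ℝ :=
  Ups p0 A μ t y * gn β ε μ n t y + (1 - Ups p0 A μ t y) * GG β ε μ t y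
    - ⟪tang n (gradient (Ups p0 A μ t) y), tang n (gradient (WW β ε μ t) y)⟫_ℝ

/-- cut-off of the ball: 1 on the ball of radius R, 0 off the ball of radius R + 1 -/
def zR (R : ℝ) (x : Sp d) : ℝ := Real.smoothTransition (R + 1 - ‖x‖)

/-! ## Section 10 -/

/-- the constants p0, A, c of the far region: (6.2), (10.1) -/
structure FarK (d J : ℕ) (M C' ε p0 A c : ℝ) : Prop where
  p0_pos : 0 < p0
  p0_le : p0 ≤ 1
  A_ge : 1 ≤ A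
  c_pos : 0 < c
  gain : ∀ β : Sp d → ℝ, Kit J M β → ∀ μ : Measure (Sp d), Gro C' μ → ∀ n : Sp d, ‖n‖ = 1 →
    ∀ y : Sp d, c * XX β ε μ n 1 y ≤ Hn β ε p0 A μ n 1 y
  far : ∀ β : Sp d → ℝ, Kit J M β → ∀ μ : Measure (Sp d), Gro C' μ → ∀ n : Sp d, ‖n‖ = 1 →
    ∀ y : Sp d, qq A μ 1 y ≤ p0 →
      c * vv μ 1 y ≤ Hn β ε p0 A μ n 1 y ∧ c * vv μ 1 y ≤ GG β ε μ 1 y
  farX : ∀ β : Sp d → ℝ, Kit J M β → ∀ μ : Measure (Sp d), Gro C' μ → ∀ n : Sp d, ‖n‖ = 1 →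
    ∀ y : Sp d, qq A μ 1 y ≤ p0 → c * vv μ 1 y ≤ XX β ε μ n 1 y

/-- MODULE FA (10.1): existence of the far constants -/
def StmtFA : Prop :=
  ∀ (d J : ℕ), 2 ≤ d → 6 ≤ J → ∀ M : ℝ, ∃ ε0 : ℝ, 0 < ε0 ∧ ∀ ε : ℝ, 0 < ε → ε ≤ ε0 →
    ∀ C' : ℝ, 0 < C' → ∃ (p0 A c : ℝ), FarK d J M C' ε p0 A c

/-- MODULE UB: smoothness and simple bounds of W, G (all derivatives fall on v: no kernel
smoothness is used, J is arbitrary), q, Υ, H_n and comparison of v with μ near x -/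
def StmtUB : Prop :=
  ∀ (d J : ℕ), 2 ≤ d → ∀ (M C' ε p0 A : ℝ), 0 < C' → 0 < ε → ε ≤ 1 → 0 < p0 → p0 ≤ 1 → 1 ≤ A →
    ∃ C : ℝ, 0 < C ∧ ∀ β : Sp d → ℝ, Kit 4 M β → ∀ μ : Measure (Sp d), Gro C' μ →
      ContDiff ℝ ∞ (WW β ε μ 1) ∧ ContDiff ℝ ∞ (GG β ε μ 1) ∧
      (∀ j ≤ J, ∀ y, ‖iteratedFDeriv ℝ j (WW β ε μ 1) y‖ ≤ C * vv μ 1 y) ∧
      (∀ j ≤ J, ∀ y, ‖iteratedFDeriv ℝ j (GG β ε μ 1) y‖ ≤ C * vv μ 1 y) ∧
      (∀ y, 0 ≤ qq A μ 1 y ∧ qq A μ 1 y ≤ 1) ∧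
      ContDiff ℝ ∞ (qq A μ 1) ∧ (∀ j ≤ J, ∀ y, ‖iteratedFDeriv ℝ j (qq A μ 1) y‖ ≤ C) ∧
      ContDiff ℝ ∞ (Ups p0 A μ 1) ∧ (∀ j ≤ J, ∀ y, ‖iteratedFDeriv ℝ j (Ups p0 A μ 1) y‖ ≤ C) ∧
      (∀ n : Sp d, ‖n‖ = 1 → ContDiff ℝ ∞ (Hn β ε p0 A μ n 1) ∧
        ∀ j ≤ J, ∀ y, ‖iteratedFDeriv ℝ j (Hn β ε p0 A μ n 1) y‖ ≤ C * vv μ 1 y) ∧
      (∀ y, p0 / 2 ≤ qq A μ 1 y → vv μ 1 y ^ 2 ≤ C * (μ (ball y A)).toReal) ∧
      (∀ (y : Sp d) (r : ℝ), 1 ≤ r → (μ (ball y r)).toReal ≤ C * r ^ (d + 1) * vv μ 1 y ^ 2)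

/-- MODULE UU (10.2): two planes with small gains are close to each other -/
def StmtUU : Prop :=
  ∀ (d J : ℕ), 2 ≤ d → 6 ≤ J → ∀ (M C' ε p0 A c R0 : ℝ), 0 < C' → 0 < ε → ε ≤ 1 / 4 →
    FarK d J M C' ε p0 A c → 4 * A + 4 * d + 20 ≤ R0 → ∃ CU : ℝ, 0 < CU ∧
    ∀ β : Sp d → ℝ, Kit J M β → ∀ μ : Measure (Sp d), Gro C' μ →
    ∀ (n n' : Sp d) (s s' : ℝ), ‖n‖ = 1 → ‖n'‖ = 1 → |s| ≤ R0 + 1 → |s'| ≤ R0 + 1 →
      vv μ 1 0 * plInt n s (fun x => zR R0 x * (⟪n', x⟫_ℝ - s') ^ 2) ≤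
        CU * (plInt n s (fun x => zR (2 * R0 - 1) x * Hn β ε p0 A μ n 1 x)
          + plInt n' s' (fun x => zR (2 * R0 - 1) x * Hn β ε p0 A μ n' 1 x))

/-- MODULE FG: if the plane stays at distance at least R0 from the near part of μ then the gain on
the plane at the scale 128 is large (case A2 with i = 7) -/
def StmtFG : Prop :=
  ∀ (d : ℕ), 2 ≤ d → ∀ (M C' ε p0 A Ra : ℝ), 0 < C' → 0 < ε → ε ≤ 1 / 4 → 0 < p0 → p0 ≤ 1 →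
    1 ≤ A → 0 < Ra → ∃ i0 : ℝ, 0 < i0 ∧
    ∀ β : Sp d → ℝ, Kit 10 M β → ∀ μ : Measure (Sp d), Gro C' μ →
    ∀ (n : Sp d) (s : ℝ), ‖n‖ = 1 → A + d + 1 ≤ |s| → |s| ≤ Ra →
      (∃ y : Sp d, ‖y‖ ≤ d ∧ p0 / 2 ≤ qq A μ 1 y) →
      i0 * vv μ 1 0 ≤ plInt n s (fun x => zR (Ra + 1) x * XX β ε μ n (2 ^ 7) x)

/-- MODULE IN (10.3), (10.4): small gains on the plane at the scales 1, ..., 2^I force small
tangential gradients near the plane, wherever the posterior has a near part -/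
def StmtIN : Prop :=
  ∀ (d : ℕ), 2 ≤ d → ∀ (M C' ε p0 A R0 i1 : ℝ), 0 < C' → 0 < ε → ε ≤ 1 / 4 → 0 < p0 → p0 ≤ 1 →
    1 ≤ A → 4 * A + 4 * d + 20 ≤ R0 → 0 < i1 → ∃ (I : ℕ) (i0 : ℝ), 8 * A ≤ 2 ^ I ∧ 2 ^ I ≤ 32 * A ∧ 0 < i0 ∧
    ∀ β : ℕ → Sp d → ℝ, (∀ i, Kit 10 M (β i)) → ∀ μ : Measure (Sp d), Gro C' μ →
    ∀ (n : Sp d) (s : ℝ), ‖n‖ = 1 → |s| ≤ 3 / 2 * R0 →
      (∀ i ≤ I, plInt n s (fun x => zR (2 * R0 - 1) x * XX (β i) ε μ n (2 ^ i) x) ≤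
        i0 * vv μ 1 0) →
      ∀ x : Sp d, ‖x‖ ≤ R0 → p0 / 2 ≤ qq A μ 1 x →
        |⟪n, x⟫_ℝ - s| ≤ A + 1 ∧ tav (Mo μ n s 2) 1 x ≤ i1 * vv μ 1 0 ∧
        ∀ j ≤ 3, ‖iteratedFDeriv ℝ j
          (fun y => tang n (gradient (WW (β 0) ε μ 1) y)) x‖ ≤ i1 * vv μ 1 0

end

end TG


end
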