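import Mathlib
import Pool.Agent.TRM.C01

/-! Parts: TG.Stmts11, TG.Stmts12, TG.Stmts2, TG.Stmts3, TG.TFU, TG.TreeDefs, TR.Plane, TG.Final, TG.Conc, TG.Stmts4, TG.Stmts14, TG.Stmts13, TG.Tree0, TG.CT6, TG.Stmts15, TG.TreeDefs2, TG.Stmts16, TG.TreePQ0, TG.StmtsFin, TG.FR0, TG.TreeTS1, TG.TreeTS2, TG.TreeLT, TG.DP, TG.Stmts17, TG.LN, TG.TreePQa, TG.TreePQb, TG.TreePQe, TG.TreePQf, TG.SAF0, TG.TA1d -/

section

/-!
# Trace inequality, general operators: sections 6, 11, 12 at unit scale, for an abstract density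

m is a continuous signed density (in the application m = <f, e_Q>, rescaled to the unit cell).
D is an upper bound for all defect terms.  No double quotes.
-/

open MeasureTheory Metric Set TrI
open scoped InnerProductSpace ContDiff

namespace TG

noncomputable section

variable {d : ℕ}

/-! ## Abstract hypotheses -/

/-- Lemma Z (4.4) as a property of the signed density m, for test functions in the ball R -/
def ZP (R D : ℝ) (m : Sp d → ℝ) : Prop :=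
  ∀ H : Sp d → ℝ, ContDiff ℝ 2 H → (∀ y, 0 ≤ H y) → (∀ y, H y ≤ 1) →
    (∀ y, ‖iteratedFDeriv ℝ 2 H y‖ ≤ 1) → (∀ y, R ≤ ‖y‖ → H y = 0) → -D ≤ ∫ y, m y * H y

/-- all tangential derivatives (up to order J) of ζ and of its normal derivative on the plane
{⟨n,x⟩ = s} are bounded by N -/
def TB (J : ℕ) (n : Sp d) (s N : ℝ) (ζ : Sp d → ℝ) : Prop :=
  ∀ j ≤ J, ∀ h : Fin j → Sp d, (∀ i, ⟪n, h i⟫_ℝ = 0) → (∀ i, ‖h i‖ ≤ 1) → ∀ y, ⟪n, y⟫_ℝ = s →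
    |iteratedFDeriv ℝ j ζ y h| ≤ N ∧ |iteratedFDeriv ℝ j (fun x => fderiv ℝ ζ x n) y h| ≤ N

/-- height over the plane -/
def hgt (n : Sp d) (s : ℝ) (y : Sp d) : ℝ := ⟪n, y⟫_ℝ - s

/-- off-sheet mass in the ball of radius R -/
def blc (n : Sp d) (s : ℝ) (m : Sp d → ℝ) (R : ℝ) : ℝ := ∫ y, m y * (zR R y * hgt n s y ^ 2)

/-- sheet estimate (8.3): in the ball of radius R the density m is close to ab times the surface
measure of {⟨n,x⟩ = s}.  The defect D contains all constants (also those of the cut-offs zR) -/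
structure Sheet (J : ℕ) (R ab ep D : ℝ) (m : Sp d → ℝ) (n : Sp d) (s : ℝ) : Prop where
  n1 : ‖n‖ = 1
  ab0 : 0 < ab
  ep0 : 0 ≤ ep
  loc : |s| ≤ 3 / 2 * R
  est : ∀ (ζ : Sp d → ℝ) (ρ N N2 : ℝ), ContDiff ℝ (J + 2 : ℕ) ζ → 0 ≤ ρ → ρ ≤ R →
    (∀ y, ρ ≤ ‖y‖ → ζ y = 0) → TB J n s N ζ → (∀ y, ‖iteratedFDeriv ℝ 2 ζ y‖ ≤ N2) →
    |(∫ y, m y * ζ y) - ab * plInt n s ζ| ≤ ep * N + N2 * blc n s m (ρ + 1) + (N + N2) * D

/-! ## Section 11: the gain of a sheet cell -/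

/-- MODULE TA1 (11.1), case A1: small gain on the sheet -/
def StmtTA1 : Prop :=
  ∀ (d J : ℕ), 2 ≤ d → ∀ (M C' ε p0 A c R0 : ℝ), 0 < C' → 0 < ε → ε ≤ 1 / 4 →
    FarK d (J + 10) M C' ε p0 A c → 4 * A + 4 * d + 20 ≤ R0 →
    ∃ cA : ℝ, 0 < cA ∧ ∀ δ : ℝ, 0 < δ → ∃ (i0 C : ℝ), 0 < i0 ∧ 0 < C ∧
    ∀ β : Sp d → ℝ, Kit (J + 10) M β → ∀ μ : Measure (Sp d), Gro C' μ →
    ∀ (m : Sp d → ℝ) (n : Sp d) (s ab ep D : ℝ), Continuous m → 0 ≤ D → ZP R0 D m →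
      Sheet J R0 ab ep D m n s →
      plInt n s (fun x => zR (2 * R0 - 1) x * XX β ε μ n 1 x) ≤ i0 * vv μ 1 0 →
      cA * (ab * plInt n s (fun x => chi x * XX β ε μ n 1 x)
          + vv μ 1 0 * ∫ y, m y * (chi y * hgt n s y ^ 2))
        - C * ep * Real.sqrt (vv μ 1 0 * plInt n s (fun x => zR (d + 2) x * XX β ε μ n 1 x))
        - δ * vv μ 1 0 * blc n s m (d + 1) - C * vv μ 1 0 * D
        ≤ ∫ y, m y * (chi y * Hn β ε p0 A μ n 1 y)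

/-- MODULE TA2 (11.1), general case -/
def StmtTA2 : Prop :=
  ∀ (d J : ℕ), 2 ≤ d → ∀ (M C' ε p0 A c R0 : ℝ), 0 < C' → 0 < ε → ε ≤ 1 / 4 →
    FarK d (J + 10) M C' ε p0 A c → 4 * A + 4 * d + 20 ≤ R0 →
    ∃ (cA C : ℝ), 0 < cA ∧ 0 < C ∧
    ∀ β : Sp d → ℝ, Kit (J + 10) M β → ∀ μ : Measure (Sp d), Gro C' μ →
    ∀ (m : Sp d → ℝ) (n : Sp d) (s ab ep D : ℝ), Continuous m → 0 ≤ D → ZP R0 D m →
      Sheet J R0 ab ep D m n s →
      cA * ab * plInt n s (fun x => chi x * XX β ε μ n 1 x)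
        - C * vv μ 1 0 * (ep + blc n s m (d + 1) + 2 * D)
        ≤ ∫ y, m y * (chi y * Hn β ε p0 A μ n 1 y)

/-- tangential divergence of χ Υ ∇_T W -/
def dvT (χ β : Sp d → ℝ) (ε p0 A : ℝ) (μ : Measure (Sp d)) (n : Sp d) (x : Sp d) : ℝ :=
  ∑ j : Fin d, fderiv ℝ (fun y => χ y * Ups p0 A μ 1 y * (tang n (gradient (WW β ε μ 1) y)) j) x
    (EuclideanSpace.single j (1 : ℝ))

/-- MODULE TD1 (11.2), case A1 (hypothesis IN) -/
def StmtTD1 : Prop :=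
  ∀ (d J : ℕ), 2 ≤ d → ∀ (M C' ε p0 A R0 δ : ℝ), 0 < C' → 0 < ε → ε ≤ 1 / 4 → 0 < p0 →
    p0 ≤ 1 → 1 ≤ A → 4 * A + 4 * d + 20 ≤ R0 → 0 < δ →
    ∃ (I : ℕ) (i0 C : ℝ), 8 * A ≤ 2 ^ I ∧ 2 ^ I ≤ 32 * A ∧ 0 < i0 ∧ 0 < C ∧
    ∀ β : ℕ → Sp d → ℝ, (∀ i, Kit (J + 10) M (β i)) → ∀ μ : Measure (Sp d), Gro C' μ →
    ∀ (m : Sp d → ℝ) (n : Sp d) (s ab ep D : ℝ), Continuous m → 0 ≤ D → ZP R0 D m →
      Sheet J R0 ab ep D m n s →
      (∀ i ≤ I, plInt n s (fun x => zR (2 * R0 - 1) x * XX (β i) ε μ n (2 ^ i) x) ≤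
        i0 * vv μ 1 0) →
      |∫ y, m y * dvT chi (β 0) ε p0 A μ n y| ≤
        C * ep * Real.sqrt (vv μ 1 0 *
          plInt n s (fun x => zR (d + 2) x * XX (β 0) ε μ n 1 x))
        + δ * vv μ 1 0 * blc n s m (d + 1) + C * vv μ 1 0 * D

/-- MODULE TD2 (11.2), general case -/
def StmtTD2 : Prop :=
  ∀ (d J : ℕ), 2 ≤ d → ∀ (M C' ε p0 A R0 : ℝ), 0 < C' → 0 < ε → ε ≤ 1 / 4 → 0 < p0 →
    p0 ≤ 1 → 1 ≤ A → 4 * A + 4 * d + 20 ≤ R0 → ∃ C : ℝ, 0 < C ∧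
    ∀ β : Sp d → ℝ, Kit (J + 10) M β → ∀ μ : Measure (Sp d), Gro C' μ →
    ∀ (m : Sp d → ℝ) (n : Sp d) (s ab ep D : ℝ), Continuous m → 0 ≤ D → ZP R0 D m →
      Sheet J R0 ab ep D m n s →
      |∫ y, m y * dvT chi β ε p0 A μ n y| ≤ C * vv μ 1 0 * (ep + blc n s m (d + 1) + 2 * D)

/-- the flux density of a sheet field: tr Y - nᵀ Y n for Y = χ' Υ ∇χ ⊗ ∇W -/
def fxA (χ χ' β : Sp d → ℝ) (ε p0 A : ℝ) (μ : Measure (Sp d)) (n : Sp d) (x : Sp d) : ℝ :=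
  χ' x * Ups p0 A μ 1 x *
    ⟪tang n (gradient χ x), tang n (gradient (WW β ε μ 1) x)⟫_ℝ

/-- MODULE TF (11.3): flux between two sheet cells; the planes differ by at most δ, in the frame
of the first cell; p is the difference of the two centres -/
def StmtTF : Prop :=
  ∀ (d J : ℕ), 2 ≤ d → ∀ (M C' ε p0 A R0 : ℝ), 0 < C' → 0 < ε → ε ≤ 1 / 4 → 0 < p0 →
    p0 ≤ 1 → 1 ≤ A → 4 * A + 4 * d + 20 ≤ R0 → ∃ C C1 : ℝ, 0 < C ∧ 0 < C1 ∧
    ∀ β : Sp d → ℝ, Kit (J + 10) M β → ∀ μ : Measure (Sp d), Gro C' μ →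
    ∀ (m m' : Sp d → ℝ) (n n' : Sp d) (s ab ep D δ : ℝ) (p : Sp d), Continuous m →
      Continuous m' → 0 ≤ D → ZP R0 D m → Sheet J R0 ab ep D m n s →
      ‖n'‖ = 1 → ‖n - n'‖ ≤ δ → δ ≤ 1 →
      (∀ Y : Sp d → ℝ, ContDiff ℝ 2 Y → (∀ y, |Y y| ≤ 1) → (∀ y, ‖iteratedFDeriv ℝ 2 Y y‖ ≤ 1) →
        (∀ y, R0 ≤ ‖y‖ → Y y = 0) → |∫ y, (m y - m' y) * Y y| ≤ D) →
      |(∫ y, m y * fxA chi (fun x => chi (x - p)) β ε p0 A μ n y)
          - ∫ y, m' y * fxA chi (fun x => chi (x - p)) β ε p0 A μ n' y| ≤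
        C * (ep + ab * δ) * Real.sqrt (vv μ 1 0 *
            plInt n s (fun x => zR (d + 2) x * XX β ε μ n 1 x))
          + C * (ep * δ + ab * δ ^ 2) * vv μ 1 0
          + C * δ * vv μ 1 0 * blc n s m (d + 1) + C1 * vv μ 1 0 * D

/-- MODULE TC: comparison of the gains on two planes which differ by at most δ -/
def StmtTC : Prop :=
  ∀ (d : ℕ), 2 ≤ d → ∀ (M C' ε R : ℝ), 0 < C' → 0 < ε → ε ≤ 1 / 4 → 1 ≤ R →
    ∃ C : ℝ, 0 < C ∧ ∀ β : Sp d → ℝ, Kit 10 M β → ∀ μ : Measure (Sp d), Gro C' μ →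
    ∀ (n n' : Sp d) (s s' δ : ℝ), ‖n‖ = 1 → ‖n'‖ = 1 → ‖n - n'‖ ≤ δ → |s - s'| ≤ δ →
    ∀ φ : Sp d → ℝ, TFn 2 1 φ → (∀ y, 0 ≤ φ y) → (∀ y, R ≤ ‖y‖ → φ y = 0) →
      plInt n s (fun x => φ x * XX β ε μ n 1 x) ≤
        4 * plInt n' s' (fun x => φ x * XX β ε μ n' 1 x) + C * δ ^ 2 * vv μ 1 0

/-- MODULE HN: comparison of the gains in two directions, and of the gain functional X -/
def StmtHN : Prop :=
  ∀ (d J : ℕ), 2 ≤ d → 10 ≤ J → ∀ (M C' ε p0 A c : ℝ), 0 < C' → 0 < ε → ε ≤ 1 / 4 →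
    FarK d J M C' ε p0 A c → ∃ C : ℝ, 0 < C ∧
    ∀ β : Sp d → ℝ, Kit J M β → ∀ μ : Measure (Sp d), Gro C' μ →
    ∀ (n n' : Sp d), ‖n‖ = 1 → ‖n'‖ = 1 → ∀ y,
      Hn β ε p0 A μ n 1 y ≤ 2 * Hn β ε p0 A μ n' 1 y + C * ‖n - n'‖ ^ 2 * vv μ 1 y ∧
      XX β ε μ n 1 y ≤ 2 * XX β ε μ n' 1 y + C * ‖n - n'‖ ^ 2 * vv μ 1 y

/-! ## Cells which are not near, light and incoherent cells -/

/-- MODULE NF (6.3): cells which are not near -/
def StmtNF : Prop :=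
  ∀ (d J : ℕ), 2 ≤ d → 6 ≤ J → ∀ (M C' ε p0 A c : ℝ), 0 < C' → 0 < ε → ε ≤ 1 / 4 →
    FarK d J M C' ε p0 A c → ∃ (cN C : ℝ), 0 < cN ∧ 0 < C ∧
    ∀ β : Sp d → ℝ, Kit J M β → ∀ μ : Measure (Sp d), Gro C' μ →
    ∀ (m : Sp d → ℝ) (D : ℝ), Continuous m → 0 ≤ D → ZP (d + 2) D m →
      (∀ y, chi y ≠ 0 → qq A μ 1 y ≤ p0) →
      cN * vv μ 1 0 * (∫ y, m y * chi y) - C * vv μ 1 0 * D ≤ ∫ y, m y * (chi y * GG β ε μ 1 y)

/-- MODULE NL (6.3): cost of a test function -/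
def StmtNL : Prop :=
  ∀ (d : ℕ), 2 ≤ d → ∀ (ρ : ℝ), 1 ≤ ρ → ∃ C : ℝ, 0 < C ∧
    ∀ (m : Sp d → ℝ) (D : ℝ), Continuous m → 0 ≤ D → ZP (ρ + 2) D m →
    ∀ (Y : Sp d → ℝ) (N : ℝ), TFn 2 N Y → (∀ y, ρ ≤ ‖y‖ → Y y = 0) →
      |∫ y, m y * Y y| ≤ N * (∫ y, m y * zR ρ y) + C * N * D

/-! ## Section 12: the Newton field -/

/-- compact Newton potential of radius R with the kernel b -/
def NNp (b : Sp d → ℝ) (R : ℝ) (φ : Sp d → ℝ) (x : Sp d) : ℝ :=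
  ∫ s in (0 : ℝ)..R, s * avk (Bp b) s φ x

/-- basis vectors -/
def bv (i : Fin d) : Sp d := EuclideanSpace.single i (1 : ℝ)

/-- second partial derivatives -/
def pd2 (i j : Fin d) (g : Sp d → ℝ) (x : Sp d) : ℝ := iteratedFDeriv ℝ 2 g x ![bv i, bv j]

/-- the matrix field HH (6.1) -/
def HHm (β : Sp d → ℝ) (ε p0 A : ℝ) (μ : Measure (Sp d)) (i j : Fin d) (y : Sp d) : ℝ :=
  Ups p0 A μ 1 y * ((if i = j then GG β ε μ 1 y - lap (WW β ε μ 1) y else 0)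
      + pd2 i j (WW β ε μ 1) y)
    + (if i = j then (1 - Ups p0 A μ 1 y) * GG β ε μ 1 y
        - ⟪gradient (Ups p0 A μ 1) y, gradient (WW β ε μ 1) y⟫_ℝ else 0)
    + 1 / 2 * (fderiv ℝ (Ups p0 A μ 1) y (bv i) * fderiv ℝ (WW β ε μ 1) y (bv j)
        + fderiv ℝ (Ups p0 A μ 1) y (bv j) * fderiv ℝ (WW β ε μ 1) y (bv i))

/-- double divergence of a matrix field -/
def dd2 (F : Fin d → Fin d → Sp d → ℝ) (x : Sp d) : ℝ := ∑ i, ∑ j, pd2 i j (F i j) x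

/-- the test function of the Newton field: <T, F> = ∫ m (nt F) for T = - D² NN m -/
def nt (b : Sp d → ℝ) (R : ℝ) (F : Fin d → Fin d → Sp d → ℝ) (x : Sp d) : ℝ :=
  -NNp b R (dd2 F) x

/-- MODULE HH: H_n = nᵀ HH n, and the pointwise identity of (6.1) for a single cell: with
χ compactly supported, m G = <T,GG> + <S,D²W> for T = m n nᵀ and for T = - D² NN m -/
def StmtHH : Prop :=
  ∀ (d : ℕ), 2 ≤ d → ∀ (M C' ε p0 A : ℝ), 0 < C' → 0 < ε → ε ≤ 1 → 0 < p0 → p0 ≤ 1 → 1 ≤ A →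
    ∀ β : Sp d → ℝ, Kit 10 M β → ∀ μ : Measure (Sp d), Gro C' μ →
      (∀ n : Sp d, ‖n‖ = 1 → ∀ y, ∑ i, ∑ j, n i * n j * HHm β ε p0 A μ i j y =
        Hn β ε p0 A μ n 1 y) ∧
      (∀ n : Sp d, ‖n‖ = 1 → ∀ χ : Sp d → ℝ, ContDiff ℝ ∞ χ → ∀ y,
        χ y * GG β ε μ 1 y = χ y * Hn β ε p0 A μ n 1 y + dvT χ β ε p0 A μ n y
          - fxA χ (fun _ => 1) β ε p0 A μ n y) ∧
      (∀ b : Sp d → ℝ, ∀ Mb cb : ℝ, BaseKer 10 Mb cb b → ∀ R : ℝ, 0 < R →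
        ∀ χ : Sp d → ℝ, ContDiff ℝ ∞ χ → HasCompactSupport χ → ∀ y,
        χ y * GG β ε μ 1 y = nt b R (fun i j x => χ x * HHm β ε p0 A μ i j x) y
          + avk b R (fun x => χ x * GG β ε μ 1 x) y
          - (Ups p0 A μ 1 y * ⟪gradient χ y, gradient (WW β ε μ 1) y⟫_ℝ
            - avk b R (fun x => Ups p0 A μ 1 x *
                ⟪gradient χ x, gradient (WW β ε μ 1) x⟫_ℝ) y
            - nt b R (fun i j x => Ups p0 A μ 1 x * (1 / 2 *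
                (fderiv ℝ χ x (bv i) * fderiv ℝ (WW β ε μ 1) x (bv j)
                + fderiv ℝ χ x (bv j) * fderiv ℝ (WW β ε μ 1) x (bv i)))) y))

end

end TG


end

section

/-!
# Trace inequality, general operators: sections 12 and 13 at unit scale, abstract density

No double quotes.
-/

open MeasureTheory Metric Set TrI
open scoped InnerProductSpace ContDiff

namespace TG

noncomputable section

variable {d : ℕ}

/-- conclusion of the structure theorem (module ST), with at most rm directions -/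
structure Str (J rm : ℕ) (R1 Rs e' a : ℝ) (m : Sp d → ℝ) (r : ℕ) (ν : Fin r → Sp d)
    (κ : Fin r → Sp d → ℝ) : Prop where
  rle : r ≤ rm
  n1 : ∀ i, ‖ν i‖ = 1
  k0 : ∀ i y, 0 ≤ κ i y
  kb : ∀ i, TFn 2 1 (κ i)
  ks : ∀ i y, κ i y ≠ 0 → ‖tang (ν i) y‖ ≤ R1 - Rs - 3
  kt : ∀ i y, κ i y = κ i (tang (ν i) y)
  est : ∀ (ζ : Sp d → ℝ) (N : ℝ), TFn J N ζ → (∀ y, Rs ≤ ‖y‖ → ζ y = 0) →
    |(∫ y, m y * ζ y) - ∑ i, ∫ y, m y * (κ i y * plInt (ν i) ⟪ν i, y⟫_ℝ ζ)| ≤ e' * a * N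

/-- growth of the mass -/
def MG (K γ R a D : ℝ) (m : Sp d → ℝ) : Prop :=
  ∀ ρ : ℝ, 1 ≤ ρ → ρ ≤ R → ∀ ζ : Sp d → ℝ, ContDiff ℝ 2 ζ → (∀ y, |ζ y| ≤ 1) →
    (∀ y, ‖iteratedFDeriv ℝ 2 ζ y‖ ≤ 1) → (∀ y, ρ ≤ ‖y‖ → ζ y = 0) →
    |∫ y, m y * ζ y| ≤ K * ρ ^ ((d : ℝ) - 1 + γ) * a + D

/-- the plane functional b(Q) of (4.6): the best plane meeting the ball of radius R + 1 -/
def bq (R : ℝ) (m : Sp d → ℝ) : ℝ :=
  max 0 (sInf {v : ℝ | ∃ (n : Sp d) (s : ℝ), ‖n‖ = 1 ∧ |s| ≤ R + 1 ∧ v = blc n s m R})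

/-- the sum over the structure pieces of the plane integrals -/
def pieces {r : ℕ} (m : Sp d → ℝ) (ν : Fin r → Sp d) (κ : Fin r → Sp d → ℝ)
    (F : Sp d → Sp d → ℝ) : ℝ :=
  ∑ i, ∫ y, m y * (κ i y * plInt (ν i) ⟪ν i, y⟫_ℝ (F (ν i)))

/-- the quadratic form of a matrix field -/
def qf (F : Fin d → Fin d → Sp d → ℝ) (n x : Sp d) : ℝ := ∑ i, ∑ j, n i * n j * F i j x

/-- MODULE B1 (12.1): the Newton field, tested with matrix fields whose derivatives of order k are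
bounded by N * B k and which vanish off the ball ρ -/
def StmtB1 : Prop :=
  ∀ (d : ℕ), 2 ≤ d → ∀ (Mb cb K γ ρ δ : ℝ) (B : ℕ → ℝ) (b : Sp d → ℝ),
    BaseKer 2 Mb cb b → 0 < K → 0 < γ → γ ≤ 1 / (8 * d) → 1 ≤ ρ → 0 < δ →
    ∃ R0 : ℝ, 1 ≤ R0 ∧ ∀ R : ℝ, R0 ≤ R →
    ∃ E : ℕ → ℝ, (∀ J, 0 < E J) ∧ ∀ (R1 : ℝ) (rm : ℕ), ∃ C : ℝ, 0 < C ∧
    ∀ (m : Sp d → ℝ) (a D : ℝ) (J r : ℕ) (ν : Fin r → Sp d) (κ : Fin r → Sp d → ℝ),
      Continuous m → 0 ≤ a → 0 ≤ D → ZP R1 D m →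
      Str J rm R1 (R + ρ + 3) (E J) a m r ν κ → MG K γ (R + ρ + 4) a D m →
      (∀ (F : Fin d → Fin d → Sp d → ℝ) (N : ℝ), 0 ≤ N → (∀ i j, ContDiff ℝ ∞ (F i j)) →
        (∀ i j k y, ‖iteratedFDeriv ℝ k (F i j) y‖ ≤ N * B k) →
        (∀ i j y, ρ ≤ ‖y‖ → F i j y = 0) → (∀ n : Sp d, ‖n‖ = 1 → ∀ y, 0 ≤ qf F n y) →
        pieces m ν κ (qf F) ≤ (∫ y, m y * nt b R F y) + δ * a * N + C * N * D ∧
        -(C * N * D) ≤ pieces m ν κ (qf F)) ∧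
      (∀ (Y : Fin d → Fin d → Sp d → ℝ) (φ : Sp d → ℝ) (N : ℝ), 0 ≤ N →
        (∀ i j, ContDiff ℝ ∞ (Y i j)) → (∀ i j k y, ‖iteratedFDeriv ℝ k (Y i j) y‖ ≤ N * B k) →
        (∀ i j y, ρ ≤ ‖y‖ → Y i j y = 0) → ContDiff ℝ ∞ φ →
        (∀ k y, ‖iteratedFDeriv ℝ k φ y‖ ≤ B k) → (∀ y, ρ ≤ ‖y‖ → φ y = 0) →
        (∀ n : Sp d, ‖n‖ = 1 → ∀ y, |qf Y n y| ≤ N * φ y) →
        |∫ y, m y * nt b R Y y| ≤ N * (∫ y, m y * φ y) + δ * a * N + C * N * D) ∧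
      (∀ (φ : Sp d → ℝ) (N : ℝ), 0 ≤ N → ContDiff ℝ ∞ φ →
        (∀ k y, ‖iteratedFDeriv ℝ k φ y‖ ≤ N * B k) → (∀ y, ρ ≤ ‖y‖ → φ y = 0) →
        |∫ y, m y * avk b R φ y| ≤ δ * a * N + C * N * D)

/-- MODULE B2 (12.2): the plane functional is controlled by the pieces -/
def StmtB2 : Prop :=
  ∀ (d J0 : ℕ), 2 ≤ d → 6 ≤ J0 → ∀ (M C' ε p0 A c R0 : ℝ),
    0 < C' → 0 < ε → ε ≤ 1 / 4 → FarK d J0 M C' ε p0 A c → 4 * A + 4 * d + 20 ≤ R0 →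
    ∃ CB : ℝ, 0 < CB ∧ ∀ (δ Rs : ℝ), 0 < δ → 2 * R0 ≤ Rs →
    ∃ E : ℕ → ℝ, (∀ J, 0 < E J) ∧ ∀ (R1 : ℝ) (rm : ℕ), ∃ C : ℝ, 0 < C ∧
    ∀ β : Sp d → ℝ, Kit J0 M β → ∀ μ : Measure (Sp d), Gro C' μ →
    ∀ (m : Sp d → ℝ) (a D : ℝ) (J r : ℕ) (ν : Fin r → Sp d) (κ : Fin r → Sp d → ℝ),
      Continuous m → 0 ≤ a → 0 ≤ D → ZP R1 D m → Str J rm R1 Rs (E J) a m r ν κ →
      vv μ 1 0 * bq R0 m ≤
        CB * pieces m ν κ (fun n x => zR (2 * R0 - 1) x * Hn β ε p0 A μ n 1 x)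
          + δ * a * vv μ 1 0 + C * vv μ 1 0 * D

/-- MODULE B3: the pieces see a nonnegative function at most as much as m does; this is used for
light and incoherent cells among the neighbours -/
def StmtB3 : Prop :=
  ∀ (d : ℕ), 2 ≤ d → ∀ (Rs δ : ℝ) (B : ℕ → ℝ), 1 ≤ Rs → 0 < δ →
    ∃ E : ℕ → ℝ, (∀ J, 0 < E J) ∧ ∀ (R1 : ℝ) (rm : ℕ), ∃ C : ℝ, 0 < C ∧
    ∀ (m : Sp d → ℝ) (a D : ℝ) (J r : ℕ) (ν : Fin r → Sp d) (κ : Fin r → Sp d → ℝ),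
      Continuous m → 0 ≤ a → 0 ≤ D → ZP R1 D m → Str J rm R1 Rs (E J) a m r ν κ →
    ∀ (χ : Sp d → ℝ) (F : Sp d → Sp d → ℝ) (N : ℝ), ContDiff ℝ ∞ χ → (∀ y, 0 ≤ χ y) →
      (∀ y, Rs ≤ ‖y‖ → χ y = 0) → (∀ j y, ‖iteratedFDeriv ℝ j χ y‖ ≤ B j) →
      (∀ n, TFn 2 N (F n)) → (∀ n y, 0 ≤ F n y) → (∀ n y, F n y ≤ N * χ y) →
      -C * N * D ≤ pieces m ν κ F ∧
      pieces m ν κ F ≤ N * (∫ y, m y * χ y) + δ * a * N + C * N * D

/-- MODULE AB (13): comparison of the sheet field and the Newton field, tested with a matrix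
function Y of size N; sheets at the scales 1, 2, ..., 2^I -/
def StmtAB : Prop :=
  ∀ (d J : ℕ), 2 ≤ d → ∀ (Mb cb K γ R0 : ℝ) (b : Sp d → ℝ), BaseKer (J + 10) Mb cb b →
    0 < K → 0 < γ → γ ≤ 1 / (8 * d) → 6 * d + 20 ≤ R0 → ∃ C : ℝ, 0 < C ∧
    ∀ (I : ℕ) (R : ℝ), 2 ^ I ≤ R → ∃ C1 : ℝ, 0 < C1 ∧
    ∀ (m : Sp d → ℝ) (a D : ℝ) (x : ℕ → Sp d) (n : ℕ → Sp d) (s ab ep : ℕ → ℝ),
      Continuous m → 0 ≤ a → 0 ≤ D → ZP (2 ^ I * R0) D m → MG K γ (2 * R + d) a D m →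
      (∀ l ≤ I, ‖x l‖ ≤ d * 2 ^ l ∧
        Sheet J R0 (ab l) (ep l) D (fun y => 2 ^ l * m (x l + (2 : ℝ) ^ l • y)) (n l) (s l)) →
    ∀ (Y : Fin d → Fin d → Sp d → ℝ) (N : ℝ), (∀ i j, TFn (J + 6) N (Y i j)) →
      (∀ i j y, (d : ℝ) ≤ ‖y‖ → Y i j y = 0) →
      |∫ y, m y * ((∑ i, ∑ j, n 0 i * n 0 j * Y i j y) - nt b R Y y)| ≤
        C * N * ∑ l ∈ Finset.range (I + 1), (1 / 2 : ℝ) ^ l *
            (ab l * ‖n l - n 0‖ + ep l
              + blc (n l) (s l) (fun y => 2 ^ l * m (x l + (2 : ℝ) ^ l • y)) (4 * d + 8))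
          + C * N * K * (2 : ℝ) ^ (-(I : ℝ) * (1 - γ)) * a + C1 * N * D

end

end TG


end

section

/-!
# Trace inequality, general operators: module statements, second batch

Every statement StmtXX is proved as theorem stmtXX : StmtXX in Pool/Agent/TG/XX.lean (namespace TG),
possibly with other Stmt's as hypotheses.  Section numbers refer to PAPER2.md.  No double quotes.
Unit scale: s0 = (1/2)^n, so lev s0 n = 1.
-/

open MeasureTheory Metric Set TrI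
open scoped InnerProductSpace ContDiff

namespace TG

noncomputable section

variable {d : ℕ}

/-! ## Definitions -/

/-- scalar cut-off -/
def cu1 (ρ z : ℝ) : ℝ := Real.smoothTransition (ρ + 1 - |z|)

/-- height over the plane {⟨ν,y⟩ = c} -/
def ht (ν : Sp d) (c : ℝ) (y : Sp d) : ℝ := ⟪ν, y⟫_ℝ - c

/-- the divergence of a vector field -/
def dv (Y : Sp d → Sp d) (y : Sp d) : ℝ :=
  ∑ j : Fin d, (fderiv ℝ Y y (EuclideanSpace.single j (1 : ℝ))) j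

/-- the weights 2^(-q r) -/
def wq (q : ℝ) (r : ℕ) : ℝ := (2 : ℝ) ^ (-(q * r))

section Def2

variable {E : Type} [NormedAddCommGroup E] [InnerProductSpace ℝ E]

/-- normalised second moment of ⟨f,e⟩ over the plane {⟨ν,y⟩ = c} in the cell with centre x, level i -/
def bb (ρ s0 : ℝ) (f : Sp d → E) (i : ℕ) (x : Sp d) (e : E) (ν : Sp d) (c : ℝ) : ℝ :=
  lev s0 i / lev s0 i ^ d * ∫ y, ⟪f y, e⟫_ℝ *
    (zR ρ ((1 / lev s0 i) • (y - x)) * (ht ν c y / lev s0 i) ^ 2)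

/-- its positive part plus the defect -/
def bD (b : Sp d → ℝ) (ε R0 R s0 : ℝ) (f : Sp d → E) (i : ℕ) (x : Sp d) (e : E) (ν : Sp d)
    (c : ℝ) : ℝ :=
  max 0 (bb R0 s0 f i x e ν c) + DD b ε R s0 f i x e

/-- a tower of cells over the unit cell with centre 0 -/
structure Tower (x : ℕ → Sp d) (e : ℕ → E) : Prop where
  zero : x 0 = 0
  step : ∀ r, ‖x (r + 1) - x r‖ ≤ Real.sqrt d * 2 ^ r
  unit : ∀ r, ‖e r‖ = 1

end Def2

section Def3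

variable {V E : Type} [NormedAddCommGroup V] [InnerProductSpace ℝ V] [FiniteDimensional ℝ V]
  [NormedAddCommGroup E] [InnerProductSpace ℝ E] [FiniteDimensional ℝ E]

/-- the pairing of v with the adjoint operator applied to Φ: Σ_j ⟨L(e_j ⊗ v), ∂_j Φ⟩ -/
def dvE (L : (Sp d →L[ℝ] V) →L[ℝ] E) (Φ : Sp d → E) (v : V) (y : Sp d) : ℝ :=
  ∑ j : Fin d, ⟪L (rk1 (EuclideanSpace.single j (1 : ℝ)) v),
    fderiv ℝ Φ y (EuclideanSpace.single j (1 : ℝ))⟫_ℝ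

/-- the jump polynomial: balls of radius r with centres q ± 6 r ν, where q is a point of the plane -/
def JJ (m : ℕ) (ν q : Sp d) (r : ℝ) (u : Sp d → V) (y : Sp d) : V :=
  ATP m (q + (6 * r) • ν) r u y - ATP m (q - (6 * r) • ν) r u y

/-- functions which are constant in the direction ν, supported in ‖tang‖ ≤ ρ -/
structure Cyl {F : Type*} [NormedAddCommGroup F] (ν : Sp d) (ρ : ℝ) (ζ : Sp d → F) : Prop where
  const : ∀ y, ζ y = ζ (tang ν y)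
  supp : ∀ y, ζ y ≠ 0 → ‖tang ν y‖ ≤ ρ

end Def3

/-! ## Utilities -/

/-- MODULE PF: plane integrals -/
def StmtPF : Prop :=
  ∀ (d : ℕ), 1 ≤ d →
    (∀ ρ : ℝ, ∃ C : ℝ, 0 < C ∧ ∀ (ν : Sp d), ‖ν‖ = 1 → ∀ (F : Sp d → ℝ) (N : ℝ), Continuous F →
      (∀ y, |F y| ≤ N) → (∀ y, F y ≠ 0 → ‖tang ν y‖ ≤ ρ) → ∀ c, |plInt ν c F| ≤ C * N) ∧
    ∀ ν : Sp d, ‖ν‖ = 1 →
    (∀ F : Sp d → ℝ, Integrable F → ∫ y, F y = ∫ c : ℝ, plInt ν c F) ∧
    (∀ F : Sp d → ℝ, Continuous F → HasCompactSupport F → Continuous (fun c => plInt ν c F)) ∧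
    (∀ F : Sp d → ℝ, ContDiff ℝ 1 F → HasCompactSupport F → ∀ c : ℝ,
      HasDerivAt (fun c => plInt ν c F) (plInt ν c (fun y => fderiv ℝ F y ν)) c) ∧
    (∀ (J : ℕ) (F : Sp d → ℝ), ContDiff ℝ J F → HasCompactSupport F →
      ContDiff ℝ J (fun c => plInt ν c F)) ∧
    (∀ F : Sp d → ℝ, ContDiff ℝ 1 F → HasCompactSupport F → ∀ (c : ℝ) (w : Sp d),
      ⟪ν, w⟫_ℝ = 0 → plInt ν c (fun y => fderiv ℝ F y w) = 0) ∧
    (∀ F : Sp d → ℝ, ContDiff ℝ 1 F → (∀ y, F y = F (tang ν y)) →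
      (∃ ρ : ℝ, ∀ y, F y ≠ 0 → ‖tang ν y‖ ≤ ρ) → ∀ (c : ℝ) (w : Sp d),
      ⟪ν, w⟫_ℝ = 0 → plInt ν c (fun y => fderiv ℝ F y w) = 0)

/-- MODULE DV: solving the divergence equation on planes -/
def StmtDV : Prop :=
  ∀ (d : ℕ), 2 ≤ d → ∀ (J : ℕ), ∃ J' : ℕ, ∀ (ρ : ℝ), 0 < ρ → ∃ (C : ℝ), 0 < C ∧
    ∀ (ν : Sp d), ‖ν‖ = 1 → ∀ (ζ : Sp d → ℝ) (N : ℝ), TFn J' N ζ → Cyl ν ρ ζ →
      plInt ν 0 ζ = 0 → ∃ Y : Sp d → Sp d, TFn J (C * N) Y ∧ Cyl ν ρ Y ∧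
        (∀ y, ⟪ν, Y y⟫_ℝ = 0) ∧ (∀ y, dv Y y = ζ y)

/-- MODULE NC: nonnegative polynomials do not concentrate near a plane -/
def StmtNC : Prop :=
  ∀ (d : ℕ), 2 ≤ d → ∀ (m J : ℕ) (ρ : ℝ), 2 ≤ ρ → ∃ (c0 C : ℝ), 0 < c0 ∧ 0 < C ∧
    ∀ (ν p : Sp d) (c : ℝ), ‖ν‖ = 1 → ∀ P : Sp d → ℝ, ContDiff ℝ ∞ P →
      (∀ y, iteratedFDeriv ℝ (m + 1) P y = 0) → ∀ τ : ℝ, 0 ≤ τ →
      (∀ ψ : Sp d → ℝ, TFn J 1 ψ → (∀ y, ψ y = ψ (tang ν y)) →
        (∀ y, ψ y ≠ 0 → ‖tang ν (y - p)‖ ≤ ρ) → (∀ y, 0 ≤ ψ y) →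
        -τ ≤ plInt ν c (fun y => P y * ψ y)) →
      ∀ (w : Sp d) (o : ℝ) (y0 : Sp d), ⟪ν, y0⟫_ℝ = c → ‖tang ν (y0 - p)‖ ≤ ρ →
        c0 * |P y0| * (‖tang ν w‖ ^ 2 + o ^ 2) ≤
          plInt ν c (fun y => P y *
            (zR (ρ - 1) (tang ν (y - p)) * (⟪w, tang ν (y - p)⟫_ℝ + o) ^ 2)) +
          C * τ * (‖tang ν w‖ ^ 2 + o ^ 2)

/-- MODULE GE: two weighted planes which are close as distributions are close -/
def StmtGE : Prop :=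
  ∀ (d : ℕ), 2 ≤ d → ∀ (J : ℕ) (ρ : ℝ), 1 ≤ ρ → ∃ (c0 C : ℝ), 0 < c0 ∧ 0 < C ∧
    ∀ (ν ν' : Sp d) (c c' a a' τ : ℝ) (x : Sp d), ‖ν‖ = 1 → ‖ν'‖ = 1 → ‖x‖ ≤ ρ →
      |⟪ν, x⟫_ℝ - c| ≤ 1 / 2 → 0 < a → 0 ≤ a' → 0 ≤ τ → τ ≤ c0 * a → 
      (∀ (F : Sp d → ℝ) (N : ℝ), TFn J N F → (∀ y, 1 ≤ ‖y - x‖ → F y = 0) →
        |a * plInt ν c F - a' * plInt ν' c' F| ≤ τ * N) →
      |a - a'| ≤ C * τ ∧ ∃ σ : ℝ, (σ = 1 ∨ σ = -1) ∧
        a * (‖ν - σ • ν'‖ + |c - σ * c'|) ≤ C * τ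

/-- MODULE SD: scaling of the remaining functionals -/
def StmtSD : Prop :=
  (∀ (d : ℕ) (V : Type) [NormedAddCommGroup V] [InnerProductSpace ℝ V] [FiniteDimensional ℝ V]
    (u : Sp d → V), ContDiff ℝ ∞ u → ∀ (x : Sp d) (t : ℝ), 0 < t →
      ∀ (m : ℕ) (c : Sp d) (r : ℝ) (y : Sp d),
        ATP m c r (fun y => u (x + t • y)) y = ATP m (x + t • c) (t * r) u (x + t • y)) ∧
  (∀ (d : ℕ) (E : Type) [NormedAddCommGroup E] [InnerProductSpace ℝ E] [FiniteDimensional ℝ E]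
    (f : Sp d → E), 1 ≤ d → Continuous f → HasCompactSupport f →
      ∀ (x : Sp d) (t : ℝ), 0 < t → ∀ (ρ s0 : ℝ) (i : ℕ) (y : Sp d) (e : E) (ν : Sp d) (c : ℝ),
        0 < s0 → bb ρ (s0 / t) (rs x t f) i y e ν c =
          bb ρ s0 f i (x + t • y) e ν (t * c + ⟪ν, x⟫_ℝ))

/-- MODULE TW: comparison of two consecutive levels -/
def StmtTW : Prop :=
  ∀ (d : ℕ), 1 ≤ d → ∀ (M c0 ε : ℝ), 0 < ε → ε ≤ 1 → ∀ (b : Sp d → ℝ), BaseKer 2 M c0 b →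
  ∀ R0 : ℝ, 100 + 8 * d ≤ R0 → ∃ C : ℝ, 0 < C ∧
    ∀ (E : Type) [NormedAddCommGroup E] [InnerProductSpace ℝ E] [FiniteDimensional ℝ E],
    ∀ (R : ℝ), 4 * R0 + 10 ≤ R → ∀ f : Sp d → E, Continuous f → HasCompactSupport f →
    ∀ (n : ℕ) (x : Sp d) (e e' : E), ‖x‖ ≤ Real.sqrt d → ‖e‖ = 1 → ‖e'‖ = 1 →
      DD b ε R ((1 / 2) ^ n) f n 0 e' ≤ C * DD b ε R ((1 / 2) ^ n) f (n + 1) x e' ∧
      (∀ (ζ : Sp d → ℝ) (N : ℝ), TFn 2 N ζ → (∀ y, R - 1 ≤ ‖y‖ → ζ y = 0) →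
        |∫ y, ⟪f y, e - e'⟫_ℝ * ζ y| ≤ C * N *
          (DD b ε R ((1 / 2) ^ n) f n 0 e + DD b ε R ((1 / 2) ^ n) f (n + 1) x e')) ∧
      ma b ε R0 ((1 / 2) ^ n) f n 0 ≤ C *
        (ma b ε R0 ((1 / 2) ^ n) f (n + 1) x + DD b ε R ((1 / 2) ^ n) f (n + 1) x e') ∧
      (∀ (ν : Sp d) (c : ℝ), ‖ν‖ = 1 → |c| ≤ 4 * R0 →
        bD b ε R0 R ((1 / 2) ^ n) f n 0 e ν c ≤ C *
          (bD b ε R0 R ((1 / 2) ^ n) f (n + 1) x e' ν c + DD b ε R ((1 / 2) ^ n) f n 0 e) ∧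
        max 0 (bb R0 ((1 / 2) ^ n) f n 0 e ν c) ≤ C *
          (ma b ε R0 ((1 / 2) ^ n) f (n + 1) x + DD b ε R ((1 / 2) ^ n) f n 0 e +
            DD b ε R ((1 / 2) ^ n) f (n + 1) x e'))

/-! ## Section 7: hull lemma -/

/-- MODULE HU: comparison of averaged Taylor polynomials -/
def StmtHU : Prop :=
  ∀ (d : ℕ) (V E : Type) [NormedAddCommGroup V] [InnerProductSpace ℝ V] [FiniteDimensional ℝ V]
    [NormedAddCommGroup E] [InnerProductSpace ℝ E] [FiniteDimensional ℝ E]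
    (L : (Sp d →L[ℝ] V) →L[ℝ] E) (n0 : ℕ)
    (T : (ContinuousMultilinearMap ℝ (fun _ : Fin n0 => Sp d) E) →L[ℝ]
      (ContinuousMultilinearMap ℝ (fun _ : Fin (n0 + 1) => Sp d) V)), 1 ≤ d → 1 ≤ n0 →
    NSProp L n0 T → ∀ (M c0 ε : ℝ), 0 < ε → ε ≤ 1 → ∀ (b : Sp d → ℝ), BaseKer 2 M c0 b →
    ∀ R0 : ℝ, 20 ≤ R0 → ∃ C : ℝ, 0 < C ∧
      ∀ (R : ℝ), R0 + 10 ≤ R → ∀ (n : ℕ) (u : Sp d → V), TF u → ∀ e : E, ‖e‖ = 1 →
      ∀ (c1 c2 : Sp d) (r1 r2 : ℝ), 1 / 4 ≤ r1 → r1 ≤ 4 → 1 / 4 ≤ r2 → r2 ≤ 4 →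
        ‖c1‖ + r1 ≤ R0 - 10 → ‖c2‖ + r2 ≤ R0 - 10 →
        (∀ x, ‖x‖ ≤ R0 → ‖ATP n0 c1 r1 u x - ATP n0 c2 r2 u x‖ ≤
          C * (ma b ε R0 ((1 / 2) ^ n) (fo L u) n 0 + DD b ε R ((1 / 2) ^ n) (fo L u) n 0 e)) ∧
        ∀ (ν : Sp d) (c : ℝ), ‖ν‖ = 1 → |c| ≤ 3 * R0 →
          (∀ y ∈ convexHull ℝ (closedBall c1 r1 ∪ closedBall c2 r2), 4 ≤ |ht ν c y|) →
          ∀ x, ‖x‖ ≤ R0 → ‖ATP n0 c1 r1 u x - ATP n0 c2 r2 u x‖ ≤
            C * bD b ε R0 R ((1 / 2) ^ n) (fo L u) n 0 e ν c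

/-- MODULE JC: the jump polynomials of consecutive levels over a fixed plane -/
def StmtJC : Prop :=
  ∀ (d : ℕ) (V E : Type) [NormedAddCommGroup V] [InnerProductSpace ℝ V] [FiniteDimensional ℝ V]
    [NormedAddCommGroup E] [InnerProductSpace ℝ E] [FiniteDimensional ℝ E]
    (L : (Sp d →L[ℝ] V) →L[ℝ] E) (n0 : ℕ)
    (T : (ContinuousMultilinearMap ℝ (fun _ : Fin n0 => Sp d) E) →L[ℝ]
      (ContinuousMultilinearMap ℝ (fun _ : Fin (n0 + 1) => Sp d) V)), 1 ≤ d → 1 ≤ n0 →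
    NSProp L n0 T → ∀ (M c0 ε : ℝ), 0 < ε → ε ≤ 1 → ∀ (b : Sp d → ℝ), BaseKer 2 M c0 b →
    ∀ R0 : ℝ, 100 ≤ R0 → ∃ C : ℝ, 0 < C ∧
      ∀ (R : ℝ), R0 + 10 ≤ R → ∀ (n : ℕ) (u : Sp d → V), TF u → ∀ e : E, ‖e‖ = 1 →
      ∀ (ν q q' : Sp d), ‖ν‖ = 1 → ⟪ν, q⟫_ℝ = ⟪ν, q'⟫_ℝ → ‖q‖ ≤ R0 / 2 → ‖q'‖ ≤ R0 / 2 →
      ∀ x, ‖x‖ ≤ R0 →
        ‖JJ n0 ν q 1 u x‖ ≤
          C * (ma b ε R0 ((1 / 2) ^ n) (fo L u) n 0 + DD b ε R ((1 / 2) ^ n) (fo L u) n 0 e) ∧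
        ‖JJ n0 ν q' 1 u x - JJ n0 ν q 1 u x‖ ≤
          C * bD b ε R0 R ((1 / 2) ^ n) (fo L u) n 0 e ν ⟪ν, q⟫_ℝ ∧
        ‖JJ n0 ν q' 2 u x - JJ n0 ν q 1 u x‖ ≤
          C * bD b ε R0 R ((1 / 2) ^ n) (fo L u) n 0 e ν ⟪ν, q⟫_ℝ

/-! ## Section 8: sheet lemma -/

/-- MODULE SHA: the jump identity on one level -/
def StmtSHA : Prop :=
  ∀ (d : ℕ) (V E : Type) [NormedAddCommGroup V] [InnerProductSpace ℝ V] [FiniteDimensional ℝ V]
    [NormedAddCommGroup E] [InnerProductSpace ℝ E] [FiniteDimensional ℝ E]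
    (L : (Sp d →L[ℝ] V) →L[ℝ] E) (n0 : ℕ)
    (T : (ContinuousMultilinearMap ℝ (fun _ : Fin n0 => Sp d) E) →L[ℝ]
      (ContinuousMultilinearMap ℝ (fun _ : Fin (n0 + 1) => Sp d) V)), 2 ≤ d → 1 ≤ n0 →
    CEll L → NSProp L n0 T → ∃ J : ℕ,
    ∀ (M c0 ε : ℝ), 0 < ε → ε ≤ 1 → ∀ (b : Sp d → ℝ), BaseKer 2 M c0 b →
    ∀ R0 : ℝ, 100 ≤ R0 → ∃ (C : ℝ), 0 < C ∧
      ∀ (R : ℝ), R0 + 10 ≤ R → ∀ (n : ℕ) (u : Sp d → V), TF u → ∀ e : E, ‖e‖ = 1 →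
      ∀ (ν : Sp d) (c : ℝ), ‖ν‖ = 1 → |c| ≤ R0 / 3 →
      ∀ ve : V, (∀ w : V, ⟪e - L (rk1 ν ve), L (rk1 ν w)⟫_ℝ = 0) →
      ∀ (Φ : Sp d → E) (N : ℝ), TFn J N Φ → Cyl ν (R0 / 2) Φ →
        |(∫ y, ⟪fo L u y, e⟫_ℝ * (cu1 4 (ht ν c y) * (⟪e, Φ y⟫_ℝ - ht ν c y * dvE L Φ ve y)))
          - plInt ν c (fun y => ⟪L (rk1 ν (JJ n0 ν (c • ν) 1 u y)), Φ y⟫_ℝ)| ≤
        C * N * (bD b ε R0 R ((1 / 2) ^ n) (fo L u) n 0 e ν c +
          Real.sqrt (ma b ε R0 ((1 / 2) ^ n) (fo L u) n 0 *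
            DD b ε R ((1 / 2) ^ n) (fo L u) n 0 e))

/-- the smallness hypothesis of section 8 -/
def Flat {E : Type} [NormedAddCommGroup E] [InnerProductSpace ℝ E] (b : Sp d → ℝ)
    (ε R0 R κ : ℝ) (f : Sp d → E) (n : ℕ) (e : E) (ν : Sp d) (c : ℝ) : Prop :=
  0 < (∫ y, ⟪f y, e⟫_ℝ * zR (R0 / 3) y) ∧
  bD b ε R0 R ((1 / 2) ^ n) f n 0 e ν c ≤ κ * (∫ y, ⟪f y, e⟫_ℝ * zR (R0 / 3) y) ∧
  ma b ε R0 ((1 / 2) ^ n) f n 0 * bD b ε R0 R ((1 / 2) ^ n) f n 0 e ν c ≤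
    κ * (∫ y, ⟪f y, e⟫_ℝ * zR (R0 / 3) y) ^ 2

/-- MODULE SHB: the sheet lemma on one level -/
def StmtSHB : Prop :=
  ∀ (d : ℕ) (V E : Type) [NormedAddCommGroup V] [InnerProductSpace ℝ V] [FiniteDimensional ℝ V]
    [NormedAddCommGroup E] [InnerProductSpace ℝ E] [FiniteDimensional ℝ E]
    (L : (Sp d →L[ℝ] V) →L[ℝ] E) (n0 : ℕ)
    (T : (ContinuousMultilinearMap ℝ (fun _ : Fin n0 => Sp d) E) →L[ℝ]
      (ContinuousMultilinearMap ℝ (fun _ : Fin (n0 + 1) => Sp d) V)), 2 ≤ d → 1 ≤ n0 →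
    CEll L → NSProp L n0 T → ∃ J : ℕ,
    ∀ (M c0 ε : ℝ), 0 < ε → ε ≤ 1 → ∀ (b : Sp d → ℝ), BaseKer 2 M c0 b →
    ∀ R0 : ℝ, 100 ≤ R0 → ∃ (C κ : ℝ), 0 < C ∧ 0 < κ ∧
      ∀ (R : ℝ), R0 + 10 ≤ R → ∀ (n : ℕ) (u : Sp d → V), TF u → ∀ e : E, ‖e‖ = 1 →
      ∀ (ν : Sp d) (c : ℝ), ‖ν‖ = 1 → |c| ≤ R0 / 3 → Flat b ε R0 R κ (fo L u) n e ν c →
      ∀ η : ℝ, η = bD b ε R0 R ((1 / 2) ^ n) (fo L u) n 0 e ν c +
          Real.sqrt (ma b ε R0 ((1 / 2) ^ n) (fo L u) n 0 *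
            DD b ε R ((1 / 2) ^ n) (fo L u) n 0 e) →
      ∃ (l0 : V →L[ℝ] ℝ) (l1 : V →L[ℝ] Sp d), ‖l0‖ ≤ C ∧ ‖l1‖ ≤ C ∧ (∀ v, ⟪ν, l1 v⟫_ℝ = 0) ∧
        (∀ (ψ : Sp d → ℝ) (Y : Sp d → Sp d) (N : ℝ), TFn J N ψ → TFn J N Y →
          Cyl ν (R0 / 2) ψ → Cyl ν (R0 / 2) Y → (∀ y, ⟪ν, Y y⟫_ℝ = 0) →
          |(∫ y, ⟪fo L u y, e⟫_ℝ * (cu1 4 (ht ν c y) * (ψ y - ht ν c y * dv Y y)))
            - plInt ν c (fun y => l0 (JJ n0 ν (c • ν) 1 u y) * ψ y + ⟪l1 (JJ n0 ν (c • ν) 1 u y), Y y⟫_ℝ)| ≤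
          C * N * η) ∧
        (∀ x, ⟪ν, x⟫_ℝ = c → ‖x‖ ≤ R0 →
          ‖JJ n0 ν (c • ν) 1 u x‖ ≤ C * (|l0 (JJ n0 ν (c • ν) 1 u x)| + ‖l1 (JJ n0 ν (c • ν) 1 u x)‖ + η))

/-- MODULE PL: planes carrying the mass are close -/
def StmtPL : Prop :=
  ∀ (d : ℕ) (V E : Type) [NormedAddCommGroup V] [InnerProductSpace ℝ V] [FiniteDimensional ℝ V]
    [NormedAddCommGroup E] [InnerProductSpace ℝ E] [FiniteDimensional ℝ E]
    (L : (Sp d →L[ℝ] V) →L[ℝ] E) (n0 : ℕ)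
    (T : (ContinuousMultilinearMap ℝ (fun _ : Fin n0 => Sp d) E) →L[ℝ]
      (ContinuousMultilinearMap ℝ (fun _ : Fin (n0 + 1) => Sp d) V)), 2 ≤ d → 1 ≤ n0 →
    CEll L → NSProp L n0 T → ∀ (M c0 ε : ℝ), 0 < ε → ε ≤ 1 → ∀ (b : Sp d → ℝ), BaseKer 2 M c0 b →
    ∀ R0 : ℝ, 100 ≤ R0 → ∃ (C κ : ℝ), 0 < C ∧ 0 < κ ∧
      ∀ (R : ℝ), R0 + 10 ≤ R → ∀ (n : ℕ) (u : Sp d → V), TF u → ∀ e : E, ‖e‖ = 1 →
      ∀ (ν ν' : Sp d) (c c' : ℝ), ‖ν‖ = 1 → ‖ν'‖ = 1 → |c| ≤ R0 / 3 → |c'| ≤ 3 * R0 →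
      Flat b ε R0 R κ (fo L u) n e ν c →
      ∃ σ : ℝ, (σ = 1 ∨ σ = -1) ∧
        (∫ y, ⟪fo L u y, e⟫_ℝ * zR (R0 / 3) y) * (‖ν - σ • ν'‖ ^ 2 + (c - σ * c') ^ 2) ≤
        C * (bD b ε R0 R ((1 / 2) ^ n) (fo L u) n 0 e ν c +
          bD b ε R0 R ((1 / 2) ^ n) (fo L u) n 0 e ν' c')

/-- MODULE SM: the mass around a point where the jump is not small -/
def StmtSM : Prop :=
  ∀ (d : ℕ) (V E : Type) [NormedAddCommGroup V] [InnerProductSpace ℝ V] [FiniteDimensional ℝ V]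
    [NormedAddCommGroup E] [InnerProductSpace ℝ E] [FiniteDimensional ℝ E]
    (L : (Sp d →L[ℝ] V) →L[ℝ] E) (n0 : ℕ)
    (T : (ContinuousMultilinearMap ℝ (fun _ : Fin n0 => Sp d) E) →L[ℝ]
      (ContinuousMultilinearMap ℝ (fun _ : Fin (n0 + 1) => Sp d) V)), 2 ≤ d → 1 ≤ n0 →
    CEll L → NSProp L n0 T → ∀ (M c0 ε : ℝ), 0 < ε → ε ≤ 1 → ∀ (b : Sp d → ℝ), BaseKer 2 M c0 b →
    ∀ R0 : ℝ, 100 ≤ R0 → ∃ (C κ : ℝ), 0 < C ∧ 0 < κ ∧
      ∀ (R : ℝ), R0 + 10 ≤ R → ∀ (n : ℕ) (u : Sp d → V), TF u → ∀ e : E, ‖e‖ = 1 →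
      ∀ (ν : Sp d) (c : ℝ), ‖ν‖ = 1 → |c| ≤ R0 / 3 → Flat b ε R0 R κ (fo L u) n e ν c →
      ∀ (x : Sp d) (a : ℝ), ⟪ν, x⟫_ℝ = c → ‖x‖ ≤ R0 / 3 → 0 < a → a ≤ ‖JJ n0 ν (c • ν) 1 u x‖ →
        bD b ε R0 R ((1 / 2) ^ n) (fo L u) n 0 e ν c ≤ κ * a →
        ma b ε R0 ((1 / 2) ^ n) (fo L u) n 0 * bD b ε R0 R ((1 / 2) ^ n) (fo L u) n 0 e ν c ≤
          κ * a ^ 2 →
        a ≤ C * ∫ y, ⟪fo L u y, e⟫_ℝ * zR 1 (y - x)

/-- MODULE SH2: the nonconstant part of the jump at level 2 -/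
def StmtSH2 : Prop :=
  ∀ (d : ℕ) (V E : Type) [NormedAddCommGroup V] [InnerProductSpace ℝ V] [FiniteDimensional ℝ V]
    [NormedAddCommGroup E] [InnerProductSpace ℝ E] [FiniteDimensional ℝ E]
    (L : (Sp d →L[ℝ] V) →L[ℝ] E) (n0 : ℕ)
    (T : (ContinuousMultilinearMap ℝ (fun _ : Fin n0 => Sp d) E) →L[ℝ]
      (ContinuousMultilinearMap ℝ (fun _ : Fin (n0 + 1) => Sp d) V)), 2 ≤ d → 1 ≤ n0 →
    NSProp L n0 T → ∀ (M c0 ε : ℝ), 0 < ε → ε ≤ 1 → ∀ (b : Sp d → ℝ), BaseKer 2 M c0 b →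
    ∀ R0 : ℝ, 200 + 8 * d ≤ R0 → ∃ C : ℝ, 0 < C ∧
      ∀ (R : ℝ), 4 * R0 + 10 ≤ R → ∀ (n : ℕ) (u : Sp d → V), TF u →
      ∀ (x : ℕ → Sp d) (e : ℕ → E), Tower x e →
      ∀ (ν : Sp d) (c B : ℝ), ‖ν‖ = 1 → |c| ≤ R0 + 3 →
        (∀ I : ℕ, ∑ r ∈ Finset.Ico 2 I, (1 / 2 : ℝ) ^ r *
          bD b ε R0 R ((1 / 2) ^ n) (fo L u) (n + r) (x r) (e r) ν c ≤ B) →
        ∀ j, 1 ≤ j → j ≤ n0 → ‖iteratedFDeriv ℝ j (JJ n0 ν (c • ν) 4 u) (c • ν)‖ ≤ C * B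

/-- MODULE SA: the sheet lemma (SA) -/
def StmtSA : Prop :=
  ∀ (d : ℕ) (V E : Type) [NormedAddCommGroup V] [InnerProductSpace ℝ V] [FiniteDimensional ℝ V]
    [NormedAddCommGroup E] [InnerProductSpace ℝ E] [FiniteDimensional ℝ E]
    (L : (Sp d →L[ℝ] V) →L[ℝ] E), 2 ≤ d → CEll L → ∃ J : ℕ,
    ∀ (M c0 ε : ℝ), 0 < ε → ε ≤ 1 → ∀ (b : Sp d → ℝ), BaseKer 2 M c0 b →
    ∀ (R0 γ K : ℝ), 200 + 8 * d ≤ R0 → 0 < γ → γ ≤ 1 / (8 * d) → 1 ≤ K →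
    ∃ (C κ : ℝ), 0 < C ∧ 0 < κ ∧
      ∀ (R : ℝ), 4 * R0 + 10 ≤ R → ∀ (n : ℕ) (u : Sp d → V), TF u →
      ∀ (x : ℕ → Sp d) (e : ℕ → E), Tower x e →
      ∀ a : ℝ, 0 < a → a = ma b ε R0 ((1 / 2) ^ n) (fo L u) n 0 →
      (∀ r : ℕ, ma b ε R0 ((1 / 2) ^ n) (fo L u) (n + r) (x r) ≤ K * (2 : ℝ) ^ (γ * r) * a) →
      ∀ (ν : Sp d) (c B D : ℝ), ‖ν‖ = 1 → |c| ≤ R0 + 3 → B ≤ κ * a →
        (∀ I : ℕ, ∑ r ∈ Finset.range I, wq (1 / 2) r *
          bD b ε R0 R ((1 / 2) ^ n) (fo L u) (n + r) (x r) (e r) ν c ≤ B) →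
        (∀ I : ℕ, ∑ r ∈ Finset.range I, wq (1 / 2) r *
          DD b ε R ((1 / 2) ^ n) (fo L u) (n + r) (x r) (e r) ≤ D) →
        ∃ (ν' : Sp d) (c' a' : ℝ), ‖ν'‖ = 1 ∧
          a * (‖ν' - ν‖ ^ 2 + (c' - c) ^ 2) ≤ C * B ∧ a ≤ C * a' ∧ a' ≤ C * a ∧
          (∀ I : ℕ, ∑ r ∈ Finset.range I, wq (1 / 2) r *
            bD b ε R0 R ((1 / 2) ^ n) (fo L u) (n + r) (x r) (e r) ν' c' ≤ C * B) ∧
          ∀ (ζ0 ζ1 : Sp d → ℝ) (N : ℝ), TFn J N ζ0 → TFn J N ζ1 → Cyl ν' (3 / 2 * R0) ζ0 →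
            Cyl ν' (3 / 2 * R0) ζ1 → ∀ ρ : ℝ, 1 ≤ ρ → ρ ≤ 3 / 2 * R0 →
            |(∫ y, ⟪fo L u y, e 0⟫_ℝ *
                (cu1 ρ (ht ν' c' y) * (ζ0 y + ht ν' c' y * ζ1 y))) - a' * plInt ν' c' ζ0| ≤
              C * N * (B + Real.sqrt (a' * D))

/-- MODULE CM: separately minimised planes against a common plane -/
def StmtCM : Prop :=
  ∀ (d : ℕ) (V E : Type) [NormedAddCommGroup V] [InnerProductSpace ℝ V] [FiniteDimensional ℝ V]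
    [NormedAddCommGroup E] [InnerProductSpace ℝ E] [FiniteDimensional ℝ E]
    (L : (Sp d →L[ℝ] V) →L[ℝ] E), 2 ≤ d → CEll L →
    ∀ (M c0 ε : ℝ), 0 < ε → ε ≤ 1 → ∀ (b : Sp d → ℝ), BaseKer 2 M c0 b →
    ∀ (R0 γ K : ℝ), 200 + 8 * d ≤ R0 → 0 < γ → γ ≤ 1 / (16 * d) → 1 ≤ K →
    ∃ C : ℝ, 0 < C ∧
      ∀ (R : ℝ), 4 * R0 + 10 ≤ R → ∀ (n : ℕ) (u : Sp d → V), TF u →
      ∀ (x : ℕ → Sp d) (e : ℕ → E), Tower x e →
      ∀ a : ℝ, 0 < a → a = ma b ε R0 ((1 / 2) ^ n) (fo L u) n 0 →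
      (∀ r : ℕ, ma b ε R0 ((1 / 2) ^ n) (fo L u) (n + r) (x r) ≤ K * (2 : ℝ) ^ (γ * r) * a) →
      ∀ (νs : ℕ → Sp d) (cs : ℕ → ℝ) (B : ℝ), (∀ r, ‖νs r‖ = 1) →
        (∀ r, |ht (νs r) (cs r) (x r)| ≤ 4 * R0 * 2 ^ r) →
        (∀ I : ℕ, ∑ r ∈ Finset.range I, wq (1 / 4) r *
          bD b ε R0 R ((1 / 2) ^ n) (fo L u) (n + r) (x r) (e r) (νs r) (cs r) ≤ B) →
        ∃ (ν : Sp d) (c : ℝ), ‖ν‖ = 1 ∧ |c| ≤ R0 + 3 ∧
          ∀ I : ℕ, ∑ r ∈ Finset.range I, wq (1 / 2) r *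
            bD b ε R0 R ((1 / 2) ^ n) (fo L u) (n + r) (x r) (e r) ν c ≤ C * B

/-! ## Section 16: cost -/

/-- MODULE CO: pointwise bound of u -/
def StmtCO : Prop :=
  ∀ (d : ℕ) (V E : Type) [NormedAddCommGroup V] [InnerProductSpace ℝ V] [FiniteDimensional ℝ V]
    [NormedAddCommGroup E] [InnerProductSpace ℝ E] [FiniteDimensional ℝ E]
    (L : (Sp d →L[ℝ] V) →L[ℝ] E), 2 ≤ d → CEll L →
    ∀ (M c0 ε : ℝ), 0 < ε → ε ≤ 1 → ∀ (b : Sp d → ℝ), BaseKer 2 M c0 b →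
    ∀ (R0 : ℝ), 400 + 8 * d ≤ R0 → ∃ C : ℝ, 0 < C ∧
      ∀ (R : ℝ), R0 + 10 ≤ R → ∀ (u : Sp d → V), TF u → ∃ Cu : ℝ, 0 ≤ Cu ∧
      ∀ s0 : ℝ, 0 < s0 → s0 ≤ 1 → ∀ (x : Sp d) (xs : ℕ → Sp d) (e : ℕ → E) (νs : ℕ → Sp d)
        (cs : ℕ → ℝ) (B : ℝ), (∀ i, ‖xs i - x‖ ≤ Real.sqrt d * lev s0 i) → (∀ i, ‖e i‖ = 1) →
        (∀ i, ‖νs i‖ = 1) → (∀ i, |ht (νs i) (cs i) (xs i)| ≤ (R0 + 3) * lev s0 i) →
        (∀ I : ℕ, ∑ i ∈ Finset.Ico 2 I,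
          bD b ε R0 R s0 (fo L u) i (xs i) (e i) (νs i) (cs i) ≤ B) →
        ‖u x‖ ≤ C * B + Cu * s0

/-! ## Section 10 -/

/-- MODULE TT: small tangential gradients of v give small tangential gradients of W -/
def StmtTT : Prop :=
  ∀ (d J : ℕ), 2 ≤ d → ∀ (M C' ε i1 : ℝ), 0 < C' → 0 < ε → ε ≤ 1 / 4 → 0 < i1 →
    ∃ i0 : ℝ, 0 < i0 ∧ ∀ β : Sp d → ℝ, Kit 2 M β → ∀ μ : Measure (Sp d), Gro C' μ →
      ∀ (n y : Sp d), ‖n‖ = 1 →
      (∀ (t : ℝ) (x : Sp d), 1 / 2 ≤ t → t ≤ 2 → ‖x - y‖ ≤ 1 →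
        ‖tang n (gradient (vv μ t) x)‖ ≤ i0 * vv μ 1 y) →
      ∀ j ≤ J, ‖iteratedFDeriv ℝ j (fun x => tang n (gradient (WW β ε μ 1) x)) y‖ ≤
        i1 * vv μ 1 y

/-- MODULE SE: scaling of q, Υ and H -/
def StmtSE : Prop :=
  ∀ (d : ℕ), 2 ≤ d → ∀ (C' : ℝ), 0 < C' → ∀ (x : Sp d) (t : ℝ), 0 < t →
    ∀ μ : Measure (Sp d), Gro C' μ → ∀ (M : ℝ) (β : Sp d → ℝ), Kit 2 M β →
      ∀ ε : ℝ, 0 < ε → ε ≤ 1 → ∀ (p0 A : ℝ), 0 < p0 → 0 < A → ∀ (r : ℝ) (y : Sp d), 0 < r →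
        qq A (rsm x t μ) r y = qq A μ (t * r) (x + t • y) ∧
        Ups p0 A (rsm x t μ) r y = Ups p0 A μ (t * r) (x + t • y) ∧
        ∀ n : Sp d, ‖n‖ = 1 →
          Hn β ε p0 A (rsm x t μ) n r y = Hn β ε p0 A μ n (t * r) (x + t • y)

/-! ## Sections 6 and 12: the compact Newton potential -/

/-- MODULE NN: properties of the compact Newton potential -/
def StmtNN : Prop :=
  ∀ (d : ℕ), 2 ≤ d → ∀ (M c0 : ℝ) (b : Sp d → ℝ), BaseKer 2 M c0 b → ∀ R : ℝ, 0 < R →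
    (∀ ζ : Sp d → ℝ, ContDiff ℝ ∞ ζ → HasCompactSupport ζ →
      ContDiff ℝ ∞ (NNp b R ζ) ∧ HasCompactSupport (NNp b R ζ) ∧
      (∀ y, lap (NNp b R ζ) y = avk b R ζ y - ζ y) ∧
      (∀ (j : ℕ) (y : Sp d) (h : Fin j → Sp d),
        iteratedFDeriv ℝ j (NNp b R ζ) y h = NNp b R (fun z => iteratedFDeriv ℝ j ζ z h) y) ∧
      (∀ (j : ℕ) (N : ℝ), (∀ y, ‖iteratedFDeriv ℝ j ζ y‖ ≤ N) →
        ∀ y, ‖iteratedFDeriv ℝ j (NNp b R ζ) y‖ ≤ R ^ 2 * N) ∧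
      (∀ (x : Sp d) (ρ : ℝ), (∀ y, ρ ≤ ‖y - x‖ → ζ y = 0) →
        ∀ y, ρ + R / 2 ≤ ‖y - x‖ → NNp b R ζ y = 0)) ∧
    (∀ φ : Sp d → ℝ, ContDiff ℝ ∞ φ → HasCompactSupport φ → ∀ y,
      nt b R (fun i j z => if i = j then φ z else 0) y = φ y - avk b R φ y) ∧
    (∀ F : Fin d → Fin d → Sp d → ℝ, (∀ i j, ContDiff ℝ ∞ (F i j)) →
      (∀ i j, HasCompactSupport (F i j)) →
      ContDiff ℝ ∞ (nt b R F) ∧ HasCompactSupport (nt b R F) ∧
      ∀ (ν : Sp d) (c : ℝ), ‖ν‖ = 1 → plInt ν c (nt b R F) =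
        plInt ν c (fun y => ∑ i, ∑ j, ν i * ν j * F i j y) -
          ∫ x, b x * plInt ν (c + R * ⟪ν, x⟫_ℝ) (fun y => ∑ i, ∑ j, ν i * ν j * F i j y))

/-! ## Section 9: structure theorem with tolerances -/

/-- MODULE ST2: structure theorem (B2'), unit scale, with a tolerance function E -/
def StmtST2 : Prop :=
  ∀ (d : ℕ) (V E : Type) [NormedAddCommGroup V] [InnerProductSpace ℝ V] [FiniteDimensional ℝ V]
    [NormedAddCommGroup E] [InnerProductSpace ℝ E] [FiniteDimensional ℝ E]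
    (L : (Sp d →L[ℝ] V) →L[ℝ] E), 2 ≤ d → CEll L →
    ∀ (M c ε : ℝ), 0 < ε → ε ≤ 1 → ∀ (b : Sp d → ℝ), BaseKer 2 M c b →
    ∀ (γ K Rs : ℝ) (tol : ℕ → ℝ), 0 < γ → γ ≤ 1 / (8 * d) → 0 < K → 1 ≤ Rs → (∀ J, 0 < tol J) →
    ∃ (rm : ℕ) (R1 δ : ℝ), Rs + 3 ≤ R1 ∧ 0 < δ ∧
      ∀ (n : ℕ) (u : Sp d → V), TF u → ∀ (e : E), ‖e‖ = 1 → ∀ a : ℝ, 0 ≤ a →
        (∀ ρ : ℝ, 1 ≤ ρ → ρ ≤ R1 →
          (∫ y in ball (0 : Sp d) ρ, ‖fl b ε ((1 / 2) ^ n) (fo L u) (n - 1) y‖) ≤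
            K * ρ ^ ((d : ℝ) - 1 + γ) * a) →
        DD b ε R1 ((1 / 2) ^ n) (fo L u) n 0 e ≤ δ * a →
        ∃ (J r : ℕ) (ν : Fin r → Sp d) (κ : Fin r → Sp d → ℝ),
          Str J rm R1 Rs (tol J) a (fun y => ⟪fo L u y, e⟫_ℝ) r ν κ

end

end TG


end

section

/-!
# Trace inequality, general operators: interface between section 8 and sections 11-13

No double quotes.  Unit scale.
-/

open MeasureTheory Metric Set TrI
open scoped InnerProductSpace ContDiff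

namespace TG

noncomputable section

variable {d : ℕ}

/-- MODULE SS: the sheet lemma in the form of the structure Sheet (from SA, Z) -/
def StmtSS : Prop :=
  ∀ (d : ℕ) (V E : Type) [NormedAddCommGroup V] [InnerProductSpace ℝ V] [FiniteDimensional ℝ V]
    [NormedAddCommGroup E] [InnerProductSpace ℝ E] [FiniteDimensional ℝ E]
    (L : (Sp d →L[ℝ] V) →L[ℝ] E), 2 ≤ d → CEll L → ∃ J : ℕ,
    ∀ (M c0 ε : ℝ), 0 < ε → ε ≤ 1 → ∀ (b : Sp d → ℝ), BaseKer 2 M c0 b →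
    ∀ (R0 γ K : ℝ), 200 + 8 * d ≤ R0 → 0 < γ → γ ≤ 1 / (8 * d) → 1 ≤ K →
    ∃ (C κ : ℝ), 0 < C ∧ 0 < κ ∧
      ∀ (R : ℝ), 4 * R0 + 10 ≤ R → ∀ (n : ℕ) (u : Sp d → V), TF u →
      ∀ (x : ℕ → Sp d) (e : ℕ → E), Tower x e →
      ∀ a : ℝ, 0 < a → a = ma b ε R0 ((1 / 2) ^ n) (fo L u) n 0 →
      (∀ r : ℕ, ma b ε R0 ((1 / 2) ^ n) (fo L u) (n + r) (x r) ≤ K * (2 : ℝ) ^ (γ * r) * a) →
      ∀ (ν : Sp d) (c B D : ℝ), ‖ν‖ = 1 → |c| ≤ R0 + 3 → B ≤ κ * a →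
        (∀ I : ℕ, ∑ r ∈ Finset.range I, wq (1 / 2) r *
          bD b ε R0 R ((1 / 2) ^ n) (fo L u) (n + r) (x r) (e r) ν c ≤ B) →
        (∀ I : ℕ, ∑ r ∈ Finset.range I, wq (1 / 2) r *
          DD b ε R ((1 / 2) ^ n) (fo L u) (n + r) (x r) (e r) ≤ D) →
        ∃ (ν' : Sp d) (c' a' : ℝ), ‖ν'‖ = 1 ∧
          a * (‖ν' - ν‖ ^ 2 + (c' - c) ^ 2) ≤ C * B ∧ a ≤ C * a' ∧ a' ≤ C * a ∧
          (∀ I : ℕ, ∑ r ∈ Finset.range I, wq (1 / 2) r *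
            bD b ε R0 R ((1 / 2) ^ n) (fo L u) (n + r) (x r) (e r) ν' c' ≤ C * B) ∧
          Sheet J R0 a' (C * (B + Real.sqrt (a' * D))) (C * D)
            (fun y => ⟪fo L u y, e 0⟫_ℝ) ν' c'

/-- MODULE FS: cells with small separately minimised plane functionals carry a sheet
(from CM and SS) -/
def StmtFS : Prop :=
  ∀ (d : ℕ) (V E : Type) [NormedAddCommGroup V] [InnerProductSpace ℝ V] [FiniteDimensional ℝ V]
    [NormedAddCommGroup E] [InnerProductSpace ℝ E] [FiniteDimensional ℝ E]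
    (L : (Sp d →L[ℝ] V) →L[ℝ] E), 2 ≤ d → CEll L → ∃ J : ℕ,
    ∀ (M c0 ε : ℝ), 0 < ε → ε ≤ 1 → ∀ (b : Sp d → ℝ), BaseKer 2 M c0 b →
    ∀ (R0 γ K : ℝ), 200 + 8 * d ≤ R0 → 0 < γ → γ ≤ 1 / (16 * d) → 1 ≤ K →
    ∃ (C κ : ℝ), 0 < C ∧ 0 < κ ∧
      ∀ (R : ℝ), 4 * R0 + 10 ≤ R → ∀ (n : ℕ) (u : Sp d → V), TF u →
      ∀ (x : ℕ → Sp d) (e : ℕ → E), Tower x e →
      ∀ a : ℝ, 0 < a → a = ma b ε R0 ((1 / 2) ^ n) (fo L u) n 0 →
      (∀ r : ℕ, ma b ε R0 ((1 / 2) ^ n) (fo L u) (n + r) (x r) ≤ K * (2 : ℝ) ^ (γ * r) * a) →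
      ∀ (νs : ℕ → Sp d) (cs : ℕ → ℝ) (B D : ℝ), (∀ r, ‖νs r‖ = 1) →
        (∀ r, |ht (νs r) (cs r) (x r)| ≤ 4 * R0 * 2 ^ r) → B ≤ κ * a →
        (∀ I : ℕ, ∑ r ∈ Finset.range I, wq (1 / 4) r *
          bD b ε R0 R ((1 / 2) ^ n) (fo L u) (n + r) (x r) (e r) (νs r) (cs r) ≤ B) →
        (∀ I : ℕ, ∑ r ∈ Finset.range I, wq (1 / 4) r *
          DD b ε R ((1 / 2) ^ n) (fo L u) (n + r) (x r) (e r) ≤ D) →
        ∃ (ν : Sp d) (c a' : ℝ), ‖ν‖ = 1 ∧ |c| ≤ R0 + 4 ∧ a ≤ C * a' ∧ a' ≤ C * a ∧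
          (∀ I : ℕ, ∑ r ∈ Finset.range I, wq (1 / 2) r *
            bD b ε R0 R ((1 / 2) ^ n) (fo L u) (n + r) (x r) (e r) ν c ≤ C * B) ∧
          Sheet J R0 a' (C * (B + Real.sqrt (a' * D))) (C * D)
            (fun y => ⟪fo L u y, e 0⟫_ℝ) ν c

/-- MODULE GS: two sheets which overlap are close (from GE) -/
def StmtGS : Prop :=
  ∀ (d J : ℕ), 2 ≤ d → ∀ (R : ℝ) (i : ℕ), 8 ≤ R → ∃ (c0 C : ℝ), 0 < c0 ∧ 0 < C ∧
    ∀ (m m' : Sp d → ℝ) (n n' : Sp d) (s s' ab ab' ep ep' D Er : ℝ) (x p : Sp d),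
      Continuous m → Continuous m' → 0 ≤ D →
      Sheet J R ab ep D m n s →
      Sheet J R ab' ep' D (fun y => 2 ^ i * m' (x + (2 : ℝ) ^ i • y)) n' s' →
      ZP (R + 1) D m → ZP (R + 1) D (fun y => 2 ^ i * m' (x + (2 : ℝ) ^ i • y)) →
      (∀ Y : Sp d → ℝ, ContDiff ℝ 2 Y → (∀ y, |Y y| ≤ 1) → (∀ y, ‖iteratedFDeriv ℝ 2 Y y‖ ≤ 1) →
        (∀ y, R ≤ ‖y‖ → Y y = 0) → |∫ y, (m y - m' y) * Y y| ≤ D) →
      ‖p‖ ≤ R - 3 → |hgt n s p| ≤ 1 / 2 → ‖p - x‖ ≤ (R - 3) * 2 ^ i →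
      ep + ep' + max 0 (blc n s m R) +
        max 0 (blc n' s' (fun y => 2 ^ i * m' (x + (2 : ℝ) ^ i • y)) R) + D ≤ Er →
      Er ≤ c0 * ab →
      |ab - ab'| ≤ C * Er ∧ ∃ σ : ℝ, (σ = 1 ∨ σ = -1) ∧
        ab * (‖n - σ • n'‖ + |s - σ * (⟪n', x⟫_ℝ + 2 ^ i * s')|) ≤ C * Er

end

end TG


end

section

/-!
# Trace inequality, general operators: utilities on test functions (helper7)

Facts on the cut-offs zR, on the structure TFn, on heights over planes, and the estimates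
Z, DI, MA, PE for test functions with arbitrary C^2 norm.  Namespace TG.TU.
-/

open MeasureTheory Metric Set TrI
open scoped InnerProductSpace ContDiff

namespace TG

namespace TU

noncomputable section

variable {d : ℕ}

/-! ## the cut-off zR -/

lemma zR_nonneg (R : ℝ) (x : Sp d) : 0 ≤ zR R x := Real.smoothTransition.nonneg _

lemma zR_le_one (R : ℝ) (x : Sp d) : zR R x ≤ 1 := Real.smoothTransition.le_one _

lemma zR_one {R : ℝ} {x : Sp d} (h : ‖x‖ ≤ R) : zR R x = 1 :=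
  Real.smoothTransition.one_of_one_le (by linarith)

lemma zR_zero {R : ℝ} {x : Sp d} (h : R + 1 ≤ ‖x‖) : zR R x = 0 :=
  Real.smoothTransition.zero_of_nonpos (by linarith)

lemma zR_smooth {R : ℝ} (hR : 0 < R) : ContDiff ℝ ∞ (zR R : Sp d → ℝ) := by
  rw [contDiff_iff_contDiffAt]
  intro x
  by_cases hx : x = 0
  · subst hx
    have h1 : (zR R : Sp d → ℝ) =ᶠ[nhds 0] fun _ => 1 := by
      filter_upwards [ball_mem_nhds (0 : Sp d) hR] with y hy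
      exact zR_one (by
        rw [mem_ball, dist_zero_right] at hy
        exact hy.le)
    exact contDiffAt_const.congr_of_eventuallyEq h1
  · unfold zR
    exact Real.smoothTransition.contDiffAt.comp x
      (contDiffAt_const.sub (contDiffAt_norm ℝ hx))

lemma zR_cs (R : ℝ) : HasCompactSupport (zR R : Sp d → ℝ) := by
  refine HasCompactSupport.intro (isCompact_closedBall (0 : Sp d) (R + 1)) fun y hy => ?_
  rw [mem_closedBall, dist_zero_right, not_le] at hy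
  exact zR_zero hy.le

/-! ## the structure TFn -/

section T

variable {F : Type*} [NormedAddCommGroup F] [NormedSpace ℝ F]

lemma TFn_nonneg {J : ℕ} {N : ℝ} {ζ : Sp d → F} (h : TFn J N ζ) : 0 ≤ N :=
  (norm_nonneg _).trans (h.bd 0 (Nat.zero_le _) 0)

lemma TFn_norm {J : ℕ} {N : ℝ} {ζ : Sp d → F} (h : TFn J N ζ) (y : Sp d) : ‖ζ y‖ ≤ N := by
  have := h.bd 0 (Nat.zero_le _) y
  rwa [norm_iteratedFDeriv_zero] at this

lemma TFn_mono {J J' : ℕ} {N N' : ℝ} {ζ : Sp d → F} (h : TFn J N ζ) (hJ : J' ≤ J)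
    (hN : N ≤ N') : TFn J' N' ζ where
  smooth := h.smooth.of_le (by exact_mod_cast hJ)
  bd := fun j hj x => (h.bd j (hj.trans hJ) x).trans hN

lemma TFn_of_cs {J : ℕ} {ζ : Sp d → F} (hs : ContDiff ℝ J ζ) (hc : HasCompactSupport ζ) :
    ∃ N : ℝ, 0 < N ∧ TFn J N ζ := by
  have h1 : ∀ j ≤ J, ∃ N : ℝ, ∀ x, ‖iteratedFDeriv ℝ j ζ x‖ ≤ N := by
    intro j hj
    have hcont : Continuous (iteratedFDeriv ℝ j ζ) :=
      hs.continuous_iteratedFDeriv (by exact_mod_cast hj)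
    exact hcont.bounded_above_of_compact_support (hc.iteratedFDeriv j)
  choose N hN using h1
  refine ⟨1 + ∑ j ∈ (Finset.range (J + 1)).attach,
    |N j.1 (Nat.lt_succ_iff.1 (Finset.mem_range.1 j.2))|, ?_, hs, ?_⟩
  · have : 0 ≤ ∑ j ∈ (Finset.range (J + 1)).attach,
      |N j.1 (Nat.lt_succ_iff.1 (Finset.mem_range.1 j.2))| :=
      Finset.sum_nonneg fun _ _ => abs_nonneg _
    linarith
  · intro j hj x
    have h2 := Finset.single_le_sum (s := (Finset.range (J + 1)).attach)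
      (f := fun j => |N j.1 (Nat.lt_succ_iff.1 (Finset.mem_range.1 j.2))|)
      (fun _ _ => abs_nonneg _) (Finset.mem_attach _ ⟨j, Finset.mem_range.2 (by omega)⟩)
    have h3 := (hN j hj x).trans (le_abs_self _)
    simp only at h2
    linarith

lemma itF_aff_norm (k : ℕ) (g : Sp d → F) (x : Sp d) (t : ℝ) (ht : t ≠ 0) (y : Sp d) :
    ‖iteratedFDeriv ℝ k (fun y => g (x + t • y)) y‖ = |t| ^ k *
      ‖iteratedFDeriv ℝ k g (x + t • y)‖ := by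
  set e : Sp d ≃L[ℝ] Sp d := ContinuousLinearEquiv.smulLeft (Units.mk0 t ht) with he
  have hey : ∀ z, e z = t • z := fun z => rfl
  have h1 : (fun y => g (x + t • y)) = (fun y => g (x + y)) ∘ e := by
    funext z
    simp [hey]
  have h2 := e.iteratedFDerivWithin_comp_right (fun y => g (x + y)) (s := univ)
    uniqueDiffOn_univ (x := y) (mem_univ _) k
  rw [preimage_univ, iteratedFDerivWithin_univ, iteratedFDerivWithin_univ] at h2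
  have h3 : iteratedFDeriv ℝ k (fun y => g (x + t • y)) y =
      (t ^ k) • iteratedFDeriv ℝ k g (x + t • y) := by
    rw [h1, h2, iteratedFDeriv_comp_add_left]
    ext m
    simp only [ContinuousMultilinearMap.compContinuousLinearMap_apply,
      ContinuousLinearEquiv.coe_coe, hey, _root_.smul_apply]
    rw [ContinuousMultilinearMap.map_smul_univ (iteratedFDeriv ℝ k g (x + t • y)) (fun _ => t) m]
    simp
  rw [h3, norm_smul, norm_pow, Real.norm_eq_abs]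

/-- composition with y ↦ x + t y -/
lemma TFn_aff {J : ℕ} {N : ℝ} {ζ : Sp d → F} (h : TFn J N ζ) (x : Sp d) {t : ℝ} (ht : t ≠ 0) :
    TFn J (max 1 |t| ^ J * N) (fun y => ζ (x + t • y)) where
  smooth := by
    have h1 : ContDiff ℝ J fun y : Sp d => x + t • y := by fun_prop
    exact h.smooth.comp h1
  bd := by
    intro j hj y
    rw [itF_aff_norm j ζ x t ht y]
    have h1 : |t| ^ j ≤ max 1 |t| ^ J :=
      (pow_le_pow_left₀ (abs_nonneg t) (le_max_right _ _) j).trans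
        (pow_le_pow_right₀ (le_max_left _ _) hj)
    exact mul_le_mul h1 (h.bd j hj _) (norm_nonneg _) (by positivity)

lemma TFn_smul {J : ℕ} {N : ℝ} {ζ : Sp d → F} (h : TFn J N ζ) (c : ℝ) :
    TFn J (|c| * N) (fun y => c • ζ y) where
  smooth := contDiff_const.smul h.smooth
  bd := by
    intro j hj y
    have h1 : iteratedFDeriv ℝ j (fun y => c • ζ y) y = c • iteratedFDeriv ℝ j ζ y :=
      iteratedFDeriv_const_smul_apply' (h.smooth.of_le (by exact_mod_cast hj)).contDiffAt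
    rw [h1, norm_smul, Real.norm_eq_abs]
    exact mul_le_mul_of_nonneg_left (h.bd j hj y) (abs_nonneg _)

lemma TFn_add {J : ℕ} {N M : ℝ} {ζ ξ : Sp d → F} (h : TFn J N ζ) (k : TFn J M ξ) :
    TFn J (N + M) (fun y => ζ y + ξ y) where
  smooth := h.smooth.add k.smooth
  bd := by
    intro j hj y
    have h1 : iteratedFDeriv ℝ j (fun y => ζ y + ξ y) y =
        iteratedFDeriv ℝ j ζ y + iteratedFDeriv ℝ j ξ y :=
      fun_iteratedFDeriv_add_apply (h.smooth.of_le (by exact_mod_cast hj)).contDiffAt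
        (k.smooth.of_le (by exact_mod_cast hj)).contDiffAt
    rw [h1]
    exact (norm_add_le _ _).trans (add_le_add (h.bd j hj y) (k.bd j hj y))

lemma TFn_sub {J : ℕ} {N M : ℝ} {ζ ξ : Sp d → F} (h : TFn J N ζ) (k : TFn J M ξ) :
    TFn J (N + M) (fun y => ζ y - ξ y) := by
  have h1 := TFn_add h (TFn_smul k (-1))
  simp only [abs_neg, abs_one, one_mul, neg_smul, one_smul, ← sub_eq_add_neg] at h1
  exact h1

end T

lemma TFn_const_mul {J : ℕ} {N : ℝ} {ζ : Sp d → ℝ} (h : TFn J N ζ) (c : ℝ) :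
    TFn J (|c| * N) (fun y => c * ζ y) := TFn_smul h c

/-- Leibniz bound at a point -/
lemma mul_core {J : ℕ} {N M : ℝ} {φ g : Sp d → ℝ} (hφ : ContDiff ℝ J φ) (hg : ContDiff ℝ J g)
    {y : Sp d} (hN : ∀ j ≤ J, ‖iteratedFDeriv ℝ j φ y‖ ≤ N)
    (hM : ∀ j ≤ J, ‖iteratedFDeriv ℝ j g y‖ ≤ M) {j : ℕ} (hj : j ≤ J) :
    ‖iteratedFDeriv ℝ j (fun y => φ y * g y) y‖ ≤ 2 ^ j * (N * M) := by
  have hN0 : 0 ≤ N := (norm_nonneg _).trans (hN 0 (Nat.zero_le _))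
  have hM0 : 0 ≤ M := (norm_nonneg _).trans (hM 0 (Nat.zero_le _))
  have h1 := norm_iteratedFDeriv_mul_le (hφ.of_le (m := j) (by exact_mod_cast hj))
    (hg.of_le (m := j) (by exact_mod_cast hj)) y (n := j) le_rfl
  refine h1.trans ?_
  have h2 : ∀ i ∈ Finset.range (j + 1), (j.choose i : ℝ) * ‖iteratedFDeriv ℝ i φ y‖ *
      ‖iteratedFDeriv ℝ (j - i) g y‖ ≤ (j.choose i : ℝ) * (N * M) := by
    intro i hi
    have hi' := Finset.mem_range.1 hi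
    rw [mul_assoc]
    refine mul_le_mul_of_nonneg_left ?_ (by positivity)
    exact mul_le_mul (hN i (by omega)) (hM (j - i) (by omega)) (norm_nonneg _) hN0
  refine (Finset.sum_le_sum h2).trans ?_
  rw [← Finset.sum_mul]
  have h3 : (∑ i ∈ Finset.range (j + 1), (j.choose i : ℝ)) = 2 ^ j := by
    exact_mod_cast Nat.sum_range_choose j
  rw [h3]

/-- product with a function with bounds near the support -/
lemma TFn_mul_ball {J : ℕ} {N M ρ : ℝ} {φ g : Sp d → ℝ} {x₀ : Sp d} (h : TFn J N φ)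
    (hs : ∀ y, ρ < ‖y - x₀‖ → φ y = 0) (hg : ContDiff ℝ J g)
    (hM : ∀ j ≤ J, ∀ y, ‖y - x₀‖ ≤ ρ → ‖iteratedFDeriv ℝ j g y‖ ≤ M) (hM0 : 0 ≤ M) :
    TFn J (2 ^ J * (N * M)) (fun y => φ y * g y) where
  smooth := h.smooth.mul hg
  bd := by
    intro j hj y
    have hN := TFn_nonneg h
    by_cases hy : ‖y - x₀‖ ≤ ρ
    · refine (mul_core h.smooth hg (fun i hi => h.bd i hi y) (fun i hi => hM i hi y hy) hj).trans ?_
      exact mul_le_mul_of_nonneg_right (pow_le_pow_right₀ (by norm_num) hj) (by positivity)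
    · push Not at hy
      have h1 : (fun y => φ y * g y) =ᶠ[nhds y] fun _ => (0 : ℝ) := by
        have : {z : Sp d | ρ < ‖z - x₀‖} ∈ nhds y := by
          refine IsOpen.mem_nhds ?_ hy
          exact isOpen_lt continuous_const (by fun_prop)
        filter_upwards [this] with z hz
        rw [hs z hz, zero_mul]
      rw [(h1.iteratedFDeriv ℝ j).eq_of_nhds]
      have : iteratedFDeriv ℝ j (fun _ : Sp d => (0 : ℝ)) y = 0 := by
        rw [show (fun _ : Sp d => (0 : ℝ)) = 0 from rfl]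
        simp
      rw [this, norm_zero]
      positivity

lemma TFn_mul {J : ℕ} {N M : ℝ} {φ g : Sp d → ℝ} (h : TFn J N φ) (k : TFn J M g) :
    TFn J (2 ^ J * (N * M)) (fun y => φ y * g y) where
  smooth := h.smooth.mul k.smooth
  bd := by
    intro j hj y
    have hN := TFn_nonneg h
    have hM := TFn_nonneg k
    refine (mul_core h.smooth k.smooth (fun i hi => h.bd i hi y)
      (fun i hi => k.bd i hi y) hj).trans ?_
    exact mul_le_mul_of_nonneg_right (pow_le_pow_right₀ (by norm_num) hj) (by positivity)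

/-! ## heights -/

lemma ht_smooth (ν : Sp d) (c : ℝ) {n : WithTop ℕ∞} : ContDiff ℝ n (ht ν c) := by
  unfold ht
  exact (contDiff_const.inner ℝ contDiff_id).sub contDiff_const

lemma ht_le {ν : Sp d} (hν : ‖ν‖ = 1) (c : ℝ) (y : Sp d) : |ht ν c y| ≤ ‖y‖ + |c| := by
  unfold ht
  refine (abs_sub _ _).trans (add_le_add ?_ le_rfl)
  have := abs_real_inner_le_norm ν y
  rwa [hν, one_mul] at this

lemma ht_bd {ν : Sp d} (hν : ‖ν‖ = 1) (c : ℝ) (y : Sp d) :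
    ∀ j : ℕ, ‖iteratedFDeriv ℝ j (ht ν c) y‖ ≤ max 1 |ht ν c y|
  | 0 => by
    rw [norm_iteratedFDeriv_zero, Real.norm_eq_abs]
    exact le_max_right _ _
  | 1 => by
    have h1 : fderiv ℝ (ht ν c) y = innerSL ℝ ν := by
      have h2 : HasFDerivAt (ht ν c) (innerSL ℝ ν) y := by
        unfold ht
        exact ((innerSL ℝ ν).hasFDerivAt (x := y)).sub_const c
      exact h2.fderiv
    rw [norm_iteratedFDeriv_one, h1, innerSL_apply_norm, hν]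
    exact le_max_left _ _
  | j + 2 => by
    have h1 : fderiv ℝ (ht ν c) = fun _ => innerSL ℝ ν := by
      funext z
      have h2 : HasFDerivAt (ht ν c) (innerSL ℝ ν) z := by
        unfold ht
        exact ((innerSL ℝ ν).hasFDerivAt (x := z)).sub_const c
      exact h2.fderiv
    rw [← norm_iteratedFDeriv_fderiv, h1, iteratedFDeriv_const_of_ne (Nat.succ_ne_zero j)]
    simp

lemma ht_sq_bd {ν : Sp d} (hν : ‖ν‖ = 1) (c : ℝ) (y : Sp d) (j : ℕ) :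
    ‖iteratedFDeriv ℝ j (fun y => ht ν c y ^ 2) y‖ ≤ 2 ^ j * max 1 |ht ν c y| ^ 2 := by
  have h1 := mul_core (J := j) (ht_smooth ν c) (ht_smooth ν c) (fun i _ => ht_bd hν c y i)
    (fun i _ => ht_bd hν c y i) le_rfl
  simp only [← sq] at h1
  exact h1

/-- a cut-off times the squared height -/
lemma TFn_ht_sq {J : ℕ} {N ρ : ℝ} {φ : Sp d → ℝ} (h : TFn J N φ)
    (hs : ∀ y, ρ < ‖y‖ → φ y = 0) {ν : Sp d} (hν : ‖ν‖ = 1) {c c' : ℝ} (hc : |c| ≤ c') :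
    TFn J (4 ^ J * N * max 1 (ρ + c') ^ 2) (fun y => φ y * ht ν c y ^ 2) := by
  have h1 := TFn_mul_ball (x₀ := 0) (ρ := ρ) (g := fun y => ht ν c y ^ 2)
    (M := 2 ^ J * max 1 (ρ + c') ^ 2) h (by simpa using hs) ((ht_smooth ν c).pow 2)
    (fun j hj y hy => by
      refine (ht_sq_bd hν c y j).trans ?_
      rw [sub_zero] at hy
      have h2 := ht_le hν c y
      refine mul_le_mul (pow_le_pow_right₀ (by norm_num) hj) ?_ (by positivity) (by positivity)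
      refine pow_le_pow_left₀ (by positivity) (max_le_max le_rfl ?_) 2
      linarith) (by positivity)
  refine TFn_mono h1 le_rfl (le_of_eq ?_)
  have : (4 : ℝ) ^ J = 2 ^ J * 2 ^ J := by rw [← mul_pow]; norm_num
  rw [this]
  ring

/-! ## the estimates with arbitrary norms -/

section Est

variable {E : Type} [NormedAddCommGroup E] [InnerProductSpace ℝ E] [FiniteDimensional ℝ E]

omit [FiniteDimensional ℝ E] in
lemma DD_nonneg (b : Sp d → ℝ) (ε R : ℝ) {s0 : ℝ} (hs : 0 < s0) (f : Sp d → E) (i : ℕ)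
    (x : Sp d) {e : E} (he : ‖e‖ = 1) : 0 ≤ DD b ε R s0 f i x e := by
  unfold DD
  have h1 : 0 < lev s0 i := by
    unfold lev
    positivity
  refine mul_nonneg (by positivity) (add_nonneg (Finset.sum_nonneg fun l _ => ?_) ?_)
  · refine mul_nonneg (by positivity) (integral_nonneg fun y => ?_)
    have h2 := (abs_le.1 (abs_real_inner_le_norm (fl b ε s0 f l y) e)).2
    rw [he, mul_one] at h2
    simp only [Pi.zero_apply]
    linarith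
  · exact mul_nonneg (by positivity) (integral_nonneg fun y => norm_nonneg _)

omit [FiniteDimensional ℝ E] in
lemma ma_nonneg (b : Sp d → ℝ) (ε R : ℝ) {s0 : ℝ} (hs : 0 < s0) (f : Sp d → E) (i : ℕ)
    (x : Sp d) : 0 ≤ ma b ε R s0 f i x := by
  unfold ma
  have h1 : 0 < lev s0 i := by
    unfold lev
    positivity
  exact mul_nonneg (by positivity) (integral_nonneg fun y => norm_nonneg _)

/-- Lemma Z for arbitrary C^2 norm -/
theorem Z' (hZ : StmtZ) (hd : 1 ≤ d) {M c ε : ℝ} (h0 : 0 < ε) (h1 : ε ≤ 1) {b : Sp d → ℝ}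
    (hb : BaseKer 2 M c b) : ∃ C : ℝ, 0 < C ∧
    ∀ (E : Type) [NormedAddCommGroup E] [InnerProductSpace ℝ E] [FiniteDimensional ℝ E],
    ∀ f : Sp d → E, Continuous f → HasCompactSupport f → ∀ (R : ℝ), 3 ≤ R → ∀ (n : ℕ) (e : E),
    ‖e‖ = 1 → ∀ (x : Sp d) (H : Sp d → ℝ) (N : ℝ), TFn 2 N H → (∀ y, 0 ≤ H y) →
      (∀ y, R - 2 ≤ ‖y - x‖ → H y = 0) →
      -(C * N * DD b ε R ((1 / 2) ^ n) f n x e) ≤ ∫ y, ⟪f y, e⟫_ℝ * H y := by
  obtain ⟨C, hC, hz⟩ := hZ d hd M c ε h0 h1 b hb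
  refine ⟨C, hC, ?_⟩
  intro E _ _ _ f hf hfc R hR n e he x H N hH hH0 hHs
  rcases (TFn_nonneg hH).eq_or_lt with hN | hN
  · have h2 : ∀ y, H y = 0 := fun y => by
      have := TFn_norm hH y
      rw [← hN] at this
      simpa using this
    simp [h2, ← hN]
  · have h2 := TFn_const_mul hH (1 / N)
    have h3 : |1 / N| * N = 1 := by
      rw [abs_of_pos (by positivity)]
      field_simp
    rw [h3] at h2
    have h4 := hz E f hf hfc R hR n e he x (fun y => 1 / N * H y) h2.smooth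
      (fun y => mul_nonneg (by positivity) (hH0 y))
      (fun y => (le_abs_self _).trans (TFn_norm h2 y)) (fun y => h2.bd 2 le_rfl y)
      (fun y hy => by rw [hHs y hy, mul_zero])
    have h5 : ∫ y, ⟪f y, e⟫_ℝ * (1 / N * H y) = 1 / N * ∫ y, ⟪f y, e⟫_ℝ * H y := by
      rw [← integral_const_mul]
      congr 1
      ext y
      ring
    rw [h5] at h4
    have h6 := mul_le_mul_of_nonneg_left h4 hN.le
    have h7 : N * (1 / N * ∫ y, ⟪f y, e⟫_ℝ * H y) = ∫ y, ⟪f y, e⟫_ℝ * H y := by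
      field_simp
    rw [h7] at h6
    linarith only [h6]

/-- change of direction for arbitrary C^2 norm -/
theorem DI' (hD : StmtDI) (hd : 1 ≤ d) {M c ε : ℝ} (h0 : 0 < ε) (h1 : ε ≤ 1) {b : Sp d → ℝ}
    (hb : BaseKer 2 M c b) : ∃ C : ℝ, 0 < C ∧
    ∀ (E : Type) [NormedAddCommGroup E] [InnerProductSpace ℝ E] [FiniteDimensional ℝ E],
    ∀ f : Sp d → E, Continuous f → HasCompactSupport f → ∀ (R : ℝ), 3 ≤ R → ∀ (n : ℕ) (e e' : E),
    ‖e‖ = 1 → ‖e'‖ = 1 → ∀ (x x' : Sp d) (Y : Sp d → ℝ) (N : ℝ), TFn 2 N Y →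
      (∀ y, R - 1 ≤ ‖y - x‖ → Y y = 0) → (∀ y, R - 1 ≤ ‖y - x'‖ → Y y = 0) →
      |∫ y, ⟪f y, e - e'⟫_ℝ * Y y| ≤
        C * N * (DD b ε R ((1 / 2) ^ n) f n x e + DD b ε R ((1 / 2) ^ n) f n x' e') := by
  obtain ⟨C, hC, hz⟩ := hD d hd M c ε h0 h1 b hb
  refine ⟨C, hC, ?_⟩
  intro E _ _ _ f hf hfc R hR n e e' he he' x x' H N hH hHs hHs'
  rcases (TFn_nonneg hH).eq_or_lt with hN | hN
  · have h2 : ∀ y, H y = 0 := fun y => by
      have := TFn_norm hH y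
      rw [← hN] at this
      simpa using this
    simp [h2, ← hN]
  · have h2 := TFn_const_mul hH (1 / N)
    have h3 : |1 / N| * N = 1 := by
      rw [abs_of_pos (by positivity)]
      field_simp
    rw [h3] at h2
    have h4 := hz E f hf hfc R hR n e e' he he' x x' (fun y => 1 / N * H y) h2.smooth
      (fun y => TFn_norm h2 y) (fun y => h2.bd 2 le_rfl y)
      (fun y hy => by rw [hHs y hy, mul_zero]) (fun y hy => by rw [hHs' y hy, mul_zero])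
    have h5 : ∫ y, ⟪f y, e - e'⟫_ℝ * (1 / N * H y) = 1 / N * ∫ y, ⟪f y, e - e'⟫_ℝ * H y := by
      rw [← integral_const_mul]
      congr 1
      ext y
      ring
    rw [h5, abs_mul, abs_of_pos (by positivity : (0 : ℝ) < 1 / N)] at h4
    have h6 := mul_le_mul_of_nonneg_left h4 hN.le
    have h7 : N * (1 / N * |∫ y, ⟪f y, e - e'⟫_ℝ * H y|) = |∫ y, ⟪f y, e - e'⟫_ℝ * H y| := by
      field_simp
    rw [h7] at h6
    linarith only [h6]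

/-- mass bounds for arbitrary C^2 norms -/
theorem MA' (hMA : StmtMA) (hd : 1 ≤ d) {M c ε : ℝ} (h0 : 0 < ε) (h1 : ε ≤ 1) {b : Sp d → ℝ}
    (hb : BaseKer 2 M c b) : ∃ C : ℝ, 0 < C ∧
    ∀ (E : Type) [NormedAddCommGroup E] [InnerProductSpace ℝ E] [FiniteDimensional ℝ E],
    ∀ f : Sp d → E, Continuous f → HasCompactSupport f → ∀ (R : ℝ), 5 ≤ R → ∀ (n : ℕ) (e : E),
    ‖e‖ = 1 → ∀ (x : Sp d) (S : Set (Sp d)), MeasurableSet S →
      (∀ (ζ : Sp d → ℝ) (N : ℝ), TFn 2 N ζ → (∀ y, R - 2 ≤ ‖y - x‖ → ζ y = 0) →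
        (∀ y z, ζ y ≠ 0 → ‖z - y‖ ≤ 1 → z ∈ S) →
        |∫ y, ⟪f y, e⟫_ℝ * ζ y| ≤ C * N * ((∫ y in S, ‖fl b ε ((1 / 2) ^ n) f (n - 1) y‖) +
            DD b ε R ((1 / 2) ^ n) f n x e)) ∧
      (∀ (H : Sp d → ℝ) (N h0 : ℝ), 0 < h0 → TFn 2 N H → (∀ y, 0 ≤ H y) →
        (∀ y, R - 2 ≤ ‖y - x‖ → H y = 0) → (∀ y z, y ∈ S → ‖z - y‖ ≤ 2 → h0 ≤ H z) →
        h0 * (∫ y in S, ‖fl b ε ((1 / 2) ^ n) f (n - 1) y‖) ≤
          (∫ y, ⟪f y, e⟫_ℝ * H y) + C * N * DD b ε R ((1 / 2) ^ n) f n x e) := by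
  obtain ⟨C, hC, hz⟩ := hMA d hd M c ε h0 h1 b hb
  refine ⟨C, hC, ?_⟩
  intro E _ _ _ f hf hfc R hR n e he x S hS
  obtain ⟨z1, z2⟩ := hz E f hf hfc R hR n e he x S hS
  refine ⟨?_, ?_⟩
  · intro H N hH hHs hHS
    rcases (TFn_nonneg hH).eq_or_lt with hN | hN
    · have h2 : ∀ y, H y = 0 := fun y => by
        have := TFn_norm hH y
        rw [← hN] at this
        simpa using this
      simp [h2, ← hN]
    · have h2 := TFn_const_mul hH (1 / N)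
      have h3 : |1 / N| * N = 1 := by
        rw [abs_of_pos (by positivity)]
        field_simp
      rw [h3] at h2
      have h4 := z1 (fun y => 1 / N * H y) h2.smooth
        (fun y => TFn_norm h2 y) (fun y => h2.bd 2 le_rfl y)
        (fun y hy => by rw [hHs y hy, mul_zero])
        (fun y z hy hz => hHS y z (fun h => hy (by simp only [h, mul_zero])) hz)
      have h5 : ∫ y, ⟪f y, e⟫_ℝ * (1 / N * H y) = 1 / N * ∫ y, ⟪f y, e⟫_ℝ * H y := by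
        rw [← integral_const_mul]
        congr 1
        ext y
        ring
      rw [h5, abs_mul, abs_of_pos (by positivity : (0 : ℝ) < 1 / N)] at h4
      have h6 := mul_le_mul_of_nonneg_left h4 hN.le
      have h7 : N * (1 / N * |∫ y, ⟪f y, e⟫_ℝ * H y|) = |∫ y, ⟪f y, e⟫_ℝ * H y| := by
        field_simp
      rw [h7] at h6
      linarith only [h6]
  · intro H N h0 hh0 hH hH0 hHs hHS
    have hDD := DD_nonneg b ε R (by positivity : (0 : ℝ) < (1 / 2) ^ n) f n x he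
    rcases (TFn_nonneg hH).eq_or_lt with hN | hN
    · have h2 : ∀ y, H y = 0 := fun y => by
        have := TFn_norm hH y
        rw [← hN] at this
        simpa using this
      have h3 : S = ∅ := by
        rw [Set.eq_empty_iff_forall_notMem]
        intro y hy
        have := hHS y y hy (by simp)
        rw [h2] at this
        linarith
      simp [h2, ← hN, h3]
    · have h2 := TFn_const_mul hH (1 / N)
      have h3 : |1 / N| * N = 1 := by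
        rw [abs_of_pos (by positivity)]
        field_simp
      rw [h3] at h2
      have h5 : ∫ y, ⟪f y, e⟫_ℝ * (1 / N * H y) = 1 / N * ∫ y, ⟪f y, e⟫_ℝ * H y := by
        rw [← integral_const_mul]
        congr 1
        ext y
        ring
      rcases S.eq_empty_or_nonempty with hSe | ⟨y0, hy0⟩
      · have h4 := z2 (fun y => 1 / N * H y) 1 one_pos le_rfl h2.smooth
          (fun y => mul_nonneg (by positivity) (hH0 y))
          (fun y => (le_abs_self _).trans (TFn_norm h2 y)) (fun y => h2.bd 2 le_rfl y)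
          (fun y hy => by rw [hHs y hy, mul_zero])
          (fun y z hy => by rw [hSe] at hy; exact absurd hy (Set.notMem_empty y))
        rw [h5] at h4
        have h6 := mul_le_mul_of_nonneg_left h4 hN.le
        have h7 : N * (1 / 1 * (1 / N * ∫ y, ⟪f y, e⟫_ℝ * H y) +
            C / 1 * DD b ε R ((1 / 2) ^ n) f n x e) =
            (∫ y, ⟪f y, e⟫_ℝ * H y) + C * N * DD b ε R ((1 / 2) ^ n) f n x e := by
          field_simp
        rw [h7] at h6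
        refine le_trans (le_of_eq ?_) h6
        rw [hSe]
        simp
      · have hh1 : h0 ≤ N := (hHS y0 y0 hy0 (by simp)).trans
          ((le_abs_self _).trans (TFn_norm hH y0))
        have h4 := z2 (fun y => 1 / N * H y) (h0 / N) (by positivity)
          ((div_le_one hN).2 hh1) h2.smooth
          (fun y => mul_nonneg (by positivity) (hH0 y))
          (fun y => (le_abs_self _).trans (TFn_norm h2 y)) (fun y => h2.bd 2 le_rfl y)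
          (fun y hy => by rw [hHs y hy, mul_zero])
          (fun y z hy hz => by
            have := hHS y z hy hz
            rw [div_eq_inv_mul, one_div]
            exact mul_le_mul_of_nonneg_left this (by positivity))
        rw [h5] at h4
        have h6 := mul_le_mul_of_nonneg_left h4 hh0.le
        have h7 : h0 * (1 / (h0 / N) * (1 / N * ∫ y, ⟪f y, e⟫_ℝ * H y) +
            C / (h0 / N) * DD b ε R ((1 / 2) ^ n) f n x e) =
            (∫ y, ⟪f y, e⟫_ℝ * H y) + C * N * DD b ε R ((1 / 2) ^ n) f n x e := by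
          field_simp
        rwa [h7] at h6

/-- the perpendicular part for arbitrary C^2 norm -/
theorem PE' (hP : StmtPE) (hd : 1 ≤ d) {M c ε : ℝ} (h0 : 0 < ε) (h1 : ε ≤ 1) {b : Sp d → ℝ}
    (hb : BaseKer 2 M c b) : ∃ C : ℝ, 0 < C ∧
    ∀ (E : Type) [NormedAddCommGroup E] [InnerProductSpace ℝ E] [FiniteDimensional ℝ E],
    ∀ f : Sp d → E, Continuous f → HasCompactSupport f → ∀ (R : ℝ), 3 ≤ R → ∀ (n : ℕ) (e : E),
    ‖e‖ = 1 → ∀ (x : Sp d) (Y : Sp d → E) (N : ℝ) (S : Set (Sp d)), MeasurableSet S → TFn 2 N Y →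
      (∀ y, R - 2 ≤ ‖y - x‖ → Y y = 0) → (∀ y z, Y y ≠ 0 → ‖z - y‖ ≤ 1 → z ∈ S) →
      |∫ y, ⟪f y - ⟪f y, e⟫_ℝ • e, Y y⟫_ℝ| ≤
        C * N * (Real.sqrt ((∫ y in S, ‖fl b ε ((1 / 2) ^ n) f (n - 1) y‖) *
            DD b ε R ((1 / 2) ^ n) f n x e) + DD b ε R ((1 / 2) ^ n) f n x e) := by
  obtain ⟨C, hC, hz⟩ := hP d hd M c ε h0 h1 b hb
  refine ⟨C, hC, ?_⟩
  intro E _ _ _ f hf hfc R hR n e he x H N S hS hH hHs hHS
  rcases (TFn_nonneg hH).eq_or_lt with hN | hN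
  · have h2 : ∀ y, H y = 0 := fun y => by
      have := TFn_norm hH y
      rw [← hN] at this
      simpa using this
    simp [h2, ← hN]
  · have h2 := TFn_smul hH (1 / N)
    have h3 : |1 / N| * N = 1 := by
      rw [abs_of_pos (by positivity)]
      field_simp
    rw [h3] at h2
    have h4 := hz E f hf hfc R hR n e he x (fun y => (1 / N) • H y) S hS h2.smooth
      (fun y => TFn_norm h2 y) (fun y => h2.bd 2 le_rfl y)
      (fun y hy => by rw [hHs y hy, smul_zero])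
      (fun y z hy hz => hHS y z (fun h => hy (by simp only [h, smul_zero])) hz)
    have h5 : ∫ y, ⟪f y - ⟪f y, e⟫_ℝ • e, (1 / N) • H y⟫_ℝ =
        1 / N * ∫ y, ⟪f y - ⟪f y, e⟫_ℝ • e, H y⟫_ℝ := by
      rw [← integral_const_mul]
      congr 1
      ext y
      rw [inner_smul_right]
    rw [h5, abs_mul, abs_of_pos (by positivity : (0 : ℝ) < 1 / N)] at h4
    have h6 := mul_le_mul_of_nonneg_left h4 hN.le
    have h7 : N * (1 / N * |∫ y, ⟪f y - ⟪f y, e⟫_ℝ • e, H y⟫_ℝ|) =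
        |∫ y, ⟪f y - ⟪f y, e⟫_ℝ • e, H y⟫_ℝ| := by
      field_simp
    rw [h7] at h6
    linarith only [h6]

omit [FiniteDimensional ℝ E] in
/-- change of frame in integrals against test functions -/
lemma frame_int (f : Sp d → E) (e : E) (x : Sp d) {t : ℝ} (ht : 0 < t) (ζ : Sp d → ℝ) :
    ∫ y, ⟪rs x t f y, e⟫_ℝ * ζ (x + t • y) = t / t ^ d * ∫ y, ⟪f y, e⟫_ℝ * ζ y := by
  have h1 : (fun y => ⟪rs x t f y, e⟫_ℝ * ζ (x + t • y)) =
      fun y => t * ((fun z => (fun w => ⟪f w, e⟫_ℝ * ζ w) (x + z)) (t • y)) := by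
    funext y
    simp only [rs, inner_smul_left, conj_trivial]
    ring
  rw [h1, integral_const_mul, Measure.integral_comp_smul_of_nonneg volume
    (fun z => (fun w => ⟪f w, e⟫_ℝ * ζ w) (x + z)) t (hR := ht.le),
    integral_add_left_eq_self (fun w => ⟪f w, e⟫_ℝ * ζ w) x, finrank_euclideanSpace_fin,
    smul_eq_mul, ← mul_assoc]
  congr 1

end Est

end

end TU

end TG


end

section

/-!
# Trace inequality, general operators: cells, tree sums, light cells, assembly (abstract part)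

Problem MP_287c87_an, sections 14', 15', 17' of SEC14_17.md.  Everything here is about nonnegative
numbers indexed by the cells of the dyadic tree; no analysis.  Proofs in Tree.lean.
-/

open Set TrI
open scoped ENNReal

namespace TG

noncomputable section

/-- cells: level and lattice point -/
abbrev Cell (d : ℕ) := ℕ × (Fin d → ℤ)

variable {d : ℕ}

/-- the ancestor i generations up -/
def up (i : ℕ) (Q : Cell d) : Cell d := (Q.1 + i, fun j => Q.2 j / 2 ^ i)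

/-- the descendants i generations down (for i ≤ P.1) -/
def dn (i : ℕ) (P : Cell d) : Finset (Cell d) :=
  ({P.1 - i} : Finset ℕ) ×ˢ
    Fintype.piFinset fun j => Finset.Ico (2 ^ i * P.2 j) (2 ^ i * (P.2 j + 1))

/-- weight of a cell: side length to the power d-1 -/
def cw (s0 : ℝ) (Q : Cell d) : ℝ := lev s0 Q.1 ^ (d - 1)

/-- sum over a set of cells -/
def cs (S : Set (Cell d)) (F : Cell d → ℝ) : ℝ≥0∞ := ∑' Q, S.indicator (fun Q => ENNReal.ofReal (F Q)) Q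

/-- the sum over ancestors with weights 2^(-i/4): Bsh and Dsh of the paper -/
def sh (F : Cell d → ℝ) (Q : Cell d) : ℝ := ∑' i : ℕ, (2 : ℝ) ^ (-((i : ℝ) / 4)) * F (up i Q)

/-- the tree facts (T1), (T2): a = mass, at' = tailed mass, G = sums of gaps -/
structure TreeH (C0 s0 tot : ℝ) (a at' D oml omp : Cell d → ℝ) (G : ℕ → Cell d → ℝ) : Prop where
  C0_one : 1 ≤ C0
  s0_pos : 0 < s0
  tot_nonneg : 0 ≤ tot
  a_nonneg : ∀ Q, 0 ≤ a Q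
  at_nonneg : ∀ Q, 0 ≤ at' Q
  D_nonneg : ∀ Q, 0 ≤ D Q
  oml_nonneg : ∀ Q, 0 ≤ oml Q
  omp_nonneg : ∀ Q, 0 ≤ omp Q
  G_nonneg : ∀ i Q, 0 ≤ G i Q
  omp_le : ∀ Q, omp Q ≤ C0
  a_le : ∀ Q, a Q ≤ C0 * at' Q
  T1 : ∀ (i : ℕ) (P : Cell d), i ≤ P.1 →
    ∑ Q ∈ dn i P, cw s0 Q * a Q ≤ C0 * (cw s0 P * at' P + G i P)
  T2 : ∀ (i : ℕ) (P : Cell d), i ≤ P.1 →
    ∑ Q ∈ dn i P, cw s0 Q * oml Q ^ 2 ≤ C0 * (cw s0 P * omp P ^ 2)
  T3 : ∀ (i : ℕ) (P : Cell d), i ≤ P.1 →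
    ∑ Q ∈ dn i P, cw s0 Q * omp Q ^ 2 ≤ C0 * cw s0 P
  G_sum : ∀ i : ℕ, cs univ (G i) ≤ ENNReal.ofReal (C0 * (i + 1) * tot)
  D_sum : cs univ (fun P => cw s0 P * D P) ≤ ENNReal.ofReal (C0 * tot)

/-- MODULE TS1: (15.1) -/
def StmtTS1 : Prop :=
  ∀ (d : ℕ) (C0 γ : ℝ), 1 ≤ d → 0 < γ → γ ≤ 1 / 8 → ∃ C : ℝ, 0 < C ∧
    ∀ (s0 tot K : ℝ) (a at' D oml omp b : Cell d → ℝ) (G : ℕ → Cell d → ℝ) (NL : Set (Cell d)),
      1 ≤ K → TreeH C0 s0 tot a at' D oml omp G →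
      (∀ Q, 0 ≤ b Q) → (∀ Q, b Q ≤ C0 * (at' Q + D Q)) →
      (∃ B, ∀ Q, D Q ≤ B) → (∃ B, ∀ Q, b Q ≤ B) →
      (∀ Q ∈ NL, ∀ i : ℕ, at' (up i Q) ≤ K * (2 : ℝ) ^ (γ * i) * a Q) →
      (∀ Q ∈ NL, ∀ i : ℕ, D (up i Q) ≤ (2 : ℝ) ^ ((i : ℝ) / 4) * a Q) →
      cs NL (fun Q => cw s0 Q * oml Q * sh D Q) ≤ ENNReal.ofReal (C * K * tot) ∧
      cs NL (fun Q => cw s0 Q * oml Q * sh b Q) ≤
        ENNReal.ofReal (C * Real.sqrt K) * cs univ (fun P => cw s0 P * b P * omp P)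
          + ENNReal.ofReal (C * K * tot)

/-- MODULE TS2: (15.2) -/
def StmtTS2 : Prop :=
  ∀ (d : ℕ) (C0 γ : ℝ), 1 ≤ d → 0 < γ → γ ≤ 1 / 8 → ∃ C : ℝ, 0 < C ∧
    ∀ (s0 tot K δ : ℝ) (a at' D oml omp o : Cell d → ℝ) (G : ℕ → Cell d → ℝ) (S : Set (Cell d)),
      1 ≤ K → 0 < δ → δ ≤ 1 → TreeH C0 s0 tot a at' D oml omp G →
      (∀ Q, 0 ≤ o Q) →
      (∀ (i : ℕ) (P : Cell d), i ≤ P.1 → ∑ Q ∈ dn i P, cw s0 Q * o Q ^ 2 ≤ C0 * cw s0 P) →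
      (∀ Q ∈ S, ∀ i : ℕ, at' (up i Q) ≤ K * (2 : ℝ) ^ (γ * i) * a Q) →
      (∀ Q ∈ S, ∃ i : ℕ, δ * (2 : ℝ) ^ ((i : ℝ) / 8) * a Q ≤ D (up i Q)) →
      cs S (fun Q => cw s0 Q * a Q * o Q) ≤ ENNReal.ofReal (C * K / δ * tot)

/-- MODULE TS3: from omp to oml by passing to the parent -/
def StmtTS3 : Prop :=
  ∀ (d : ℕ) (C0 : ℝ) (m : ℕ), 1 ≤ d → 0 ≤ C0 → ∃ C : ℝ, 0 < C ∧
    ∀ (s0 tot : ℝ) (D oml omp b : Cell d → ℝ), 0 < s0 → 0 ≤ tot →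
      (∀ Q, 0 ≤ b Q) → (∀ Q, 0 ≤ D Q) → (∀ Q, 0 ≤ oml Q) → (∀ Q, 0 ≤ omp Q) →
      (∀ Q, b Q ≤ C0 * (b (up m Q) + D Q + D (up m Q))) →
      (∀ Q, omp Q ≤ C0 * oml (up m Q)) → (∀ Q, omp Q ≤ C0) →
      cs univ (fun P => cw s0 P * D P) ≤ ENNReal.ofReal (C0 * tot) →
      cs univ (fun P => cw s0 P * b P * omp P) ≤
        ENNReal.ofReal C * cs univ (fun P => cw s0 P * b P * oml P) + ENNReal.ofReal (C * tot)

/-- Q is weakly light and up i Q is its top -/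
def Top (γ θ : ℝ) (ah at' : Cell d → ℝ) (i : ℕ) (Q : Cell d) : Prop :=
  (∀ l : ℕ, (2 : ℝ) ^ (-(γ * l)) * at' (up l Q) ≤ (2 : ℝ) ^ (-(γ * i)) * at' (up i Q)) ∧
    ah Q ≤ θ * ((2 : ℝ) ^ (-(γ * i)) * at' (up i Q))

/-- weakly light cells -/
def WL (γ θ : ℝ) (ah at' : Cell d → ℝ) : Set (Cell d) := {Q | ∃ i, Top γ θ ah at' i Q}

/-- tops of class III -/
def CIII (γ κ δ : ℝ) (m : ℕ) (at' D b TG : Cell d → ℝ) : Set (Cell d) :=
  {P | 0 < at' P ∧ (∀ l : ℕ, at' (up l P) ≤ (2 : ℝ) ^ (γ * l) * at' P) ∧ TG P ≤ δ * at' P ∧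
    (∀ l : ℕ, D (up l P) ≤ δ * (2 : ℝ) ^ ((l : ℝ) / 8) * at' P) ∧ b (up m P) ≤ κ * at' P}

/-- MODULE LT: section 14', abstract part -/
def StmtLT : Prop :=
  ∀ (d : ℕ) (C0 C1 γ : ℝ) (m : ℕ), 1 ≤ d → 0 ≤ C1 → 0 < γ → γ ≤ 1 / 8 → ∃ C : ℝ, 0 < C ∧
    ∀ (κ θ δ : ℝ), 0 < κ → κ ≤ 1 → 0 < θ → θ ≤ 1 → 0 < δ → 2 * C0 * δ ≤ 1 → ∃ C' : ℝ, 0 < C' ∧
    ∀ (s0 tot : ℝ) (a at' al ah D oml omp om b Y TG : Cell d → ℝ) (G : ℕ → Cell d → ℝ),
      TreeH C0 s0 tot a at' D oml omp G →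
      (∀ Q, 0 ≤ al Q) → (∀ Q, al Q ≤ ah Q) → (∀ Q, ah Q ≤ a Q) → (∀ Q, 0 ≤ b Q) →
      (∀ Q, 0 ≤ Y Q) → (∀ Q, 0 ≤ om Q) → (∀ Q, om Q ≤ C0) → (∀ Q, 0 ≤ TG Q) →
      (∀ Q, omp Q ≤ C0 * oml (up m Q)) →
      cs univ (fun P => cw s0 P * TG P) ≤ ENNReal.ofReal (C0 * tot) →
      (∀ P, (∀ l : ℕ, at' (up l P) ≤ (2 : ℝ) ^ (γ * l) * at' P) → at' P ≤ C0 * (a P + TG P)) →
      (∀ P ∈ CIII γ κ δ m at' D b TG, ∀ (i : ℕ) (S : Finset (Cell d)), i ≤ P.1 → S ⊆ dn i P →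
        (∀ Q ∈ S, Top γ θ ah at' i Q) →
        ∑ Q ∈ S, cw s0 Q * al Q ≤ C1 * (cw s0 P * (b (up m P) + D (up m P)) + G i P) ∧
        at' P * ∑ Q ∈ S, cw s0 Q * oml Q ^ 2 ≤ C1 * (cw s0 P * om P * Y P)) →
      cs (WL γ θ ah at') (fun Q => cw s0 Q * al Q * oml Q) ≤
        ENNReal.ofReal (C * Real.sqrt θ / κ) * cs univ (fun P => cw s0 P * b P * oml P)
        + ENNReal.ofReal (C * Real.sqrt θ) *
          cs (CIII γ κ δ m at' D b TG) (fun P => cw s0 P * (Y P + b (up m P) * om P))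
        + ENNReal.ofReal (C' * tot)

/-- MODULE AS: section 17', abstract assembly.  X = all b oml, LW = light costs,
the index j runs over n thresholds -/
def StmtAS : Prop :=
  ∀ (C : ℝ), 0 < C → ∃ η0 : ℝ, 0 < η0 ∧ ∀ (CK Cs : ℝ), 0 ≤ CK → 0 ≤ Cs → ∀ nI : ℕ,
    ∃ (n0 : ℕ) (C' : ℝ), 0 < C' ∧ ∀ (d n : ℕ) (tot η : ℝ), n0 ≤ n → 0 ≤ tot → 0 ≤ η → η ≤ η0 →
    ∀ (fX fB fsh : Cell d → ℝ) (Sol III : Set (Cell d)) (INT : ℕ → Set (Cell d)) (LW : ℝ≥0∞),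
      (∀ Q, 0 ≤ fX Q) → (∀ Q, 0 ≤ fB Q) → (∀ Q, 0 ≤ fsh Q) →
      (∀ Q ∈ Sol, {j | j < n ∧ Q ∉ INT j}.ncard ≤ nI) →
      (∀ Q ∈ III, {j | j < n ∧ Q ∉ INT j}.ncard ≤ nI) →
      (∀ j < n, cs (Sol ∩ INT j) fX + cs (III ∩ INT j) fB ≤
        ENNReal.ofReal (Cs * tot) + ENNReal.ofReal η * cs univ fX
          + ENNReal.ofReal CK * cs (Sol ∩ (INT j)ᶜ) fsh + ENNReal.ofReal C * LW) →
      cs Sol fsh ≤ ENNReal.ofReal CK * cs univ fX + ENNReal.ofReal (Cs * tot) →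
      LW ≤ ENNReal.ofReal η * cs univ fX + ENNReal.ofReal η * cs III fB
        + ENNReal.ofReal (Cs * tot) →
      cs univ fX ≤ ENNReal.ofReal C * cs Sol fX + ENNReal.ofReal C * LW
        + ENNReal.ofReal (Cs * tot) →
      cs univ fX < ∞ → cs III fB < ∞ →
      cs univ fX ≤ ENNReal.ofReal (C' * tot)

end

end TG


end

section

/-!
# Module Plane: from the abstract theorem to the matrix form of the problem
-/

open MeasureTheory Metric Set Matrix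
open scoped InnerProductSpace ContDiff

namespace TrI

noncomputable section

section Mat

variable {d N K : ℕ}

/-- the operator given by matrices -/
def LA (A : Fin d → Matrix (Fin K) (Fin N) ℝ) :
    (Sp d →L[ℝ] EuclideanSpace ℝ (Fin N)) →L[ℝ] EuclideanSpace ℝ (Fin K) :=
  ∑ j, (LinearMap.toContinuousLinearMap (Matrix.toEuclideanLin (A j))).comp
    (ContinuousLinearMap.apply ℝ (EuclideanSpace ℝ (Fin N)) (EuclideanSpace.single j (1 : ℝ)))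

theorem LA_apply (A : Fin d → Matrix (Fin K) (Fin N) ℝ)
    (M : Sp d →L[ℝ] EuclideanSpace ℝ (Fin N)) :
    LA A M = ∑ j, Matrix.toEuclideanLin (A j) (M (EuclideanSpace.single j 1)) := by
  unfold LA
  rw [_root_.sum_apply]
  rfl

/-- complex ellipticity of the symbol -/
def SymEll (A : Fin d → Matrix (Fin K) (Fin N) ℝ) : Prop :=
  ∀ ξ : Fin d → ℂ, ξ ≠ 0 → ∀ v : Fin N → ℂ,
    (∑ j, ξ j • (A j).map (algebraMap ℝ ℂ)) *ᵥ v = 0 → v = 0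

theorem LA_rk1 (A : Fin d → Matrix (Fin K) (Fin N) ℝ) (ξ : Sp d)
    (v : EuclideanSpace ℝ (Fin N)) (i : Fin K) :
    LA A (rk1 ξ v) i = ∑ j, ∑ n, ξ j * (A j i n * v n) := by
  rw [LA_apply, WithLp.ofLp_sum, Finset.sum_apply]
  refine Finset.sum_congr rfl fun j _ => ?_
  have h1 : rk1 ξ v (EuclideanSpace.single j (1 : ℝ)) = ξ j • v := by
    simp [rk1, EuclideanSpace.inner_single_right]
  rw [h1, map_smul, PiLp.smul_apply, smul_eq_mul, Matrix.ofLp_toLpLin, Matrix.toLin'_apply,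
    Matrix.mulVec, dotProduct, Finset.mul_sum]

theorem cell_of {A : Fin d → Matrix (Fin K) (Fin N) ℝ} (hA : SymEll A) : CEll (LA A) := by
  intro ξ η hξη v w h1 h2
  set ζ : Fin d → ℂ := fun j => (ξ j : ℂ) + (η j : ℂ) * Complex.I with hζ
  set z : Fin N → ℂ := fun n => (v n : ℂ) + (w n : ℂ) * Complex.I with hz
  have hζ0 : ζ ≠ 0 := by
    intro h0
    have hr : ∀ j, ξ j = 0 := fun j => by
      have := congrArg Complex.re (congrFun h0 j)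
      simpa [hζ] using this
    have hi : ∀ j, η j = 0 := fun j => by
      have := congrArg Complex.im (congrFun h0 j)
      simpa [hζ] using this
    rcases hξη with h | h
    · exact h (by ext j; simpa using hr j)
    · exact h (by ext j; simpa using hi j)
  have hz0 : z = 0 := by
    apply hA ζ hζ0
    funext i
    have e1 := congrArg (fun y : EuclideanSpace ℝ (Fin K) => y i) h1
    have e2 := congrArg (fun y : EuclideanSpace ℝ (Fin K) => y i) h2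
    simp only [PiLp.sub_apply, PiLp.add_apply, PiLp.zero_apply, LA_rk1] at e1 e2
    have h3 : ((∑ j, ζ j • (A j).map (algebraMap ℝ ℂ)) *ᵥ z) i =
        ∑ j, ∑ n, ζ j * ((A j i n : ℂ) * z n) := by
      rw [Matrix.mulVec, dotProduct]
      simp only [Matrix.sum_apply, Matrix.smul_apply, Matrix.map_apply, smul_eq_mul,
        Complex.coe_algebraMap, Finset.sum_mul, mul_assoc]
      rw [Finset.sum_comm]
    rw [h3, Pi.zero_apply]
    apply Complex.ext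
    · rw [Complex.re_sum, Complex.zero_re, ← e1, ← Finset.sum_sub_distrib]
      refine Finset.sum_congr rfl fun j _ => ?_
      rw [Complex.re_sum, ← Finset.sum_sub_distrib]
      refine Finset.sum_congr rfl fun n _ => ?_
      simp only [hζ, hz, Complex.mul_re, Complex.mul_im, Complex.add_re, Complex.add_im,
        Complex.ofReal_re, Complex.ofReal_im, Complex.I_re, Complex.I_im]
      ring
    · rw [Complex.im_sum, Complex.zero_im, ← e2, ← Finset.sum_add_distrib]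
      refine Finset.sum_congr rfl fun j _ => ?_
      rw [Complex.im_sum, ← Finset.sum_add_distrib]
      refine Finset.sum_congr rfl fun n _ => ?_
      simp only [hζ, hz, Complex.mul_re, Complex.mul_im, Complex.add_re, Complex.add_im,
        Complex.ofReal_re, Complex.ofReal_im, Complex.I_re, Complex.I_im]
      ring
  constructor
  · ext n
    have := congrArg Complex.re (congrFun hz0 n)
    simpa [hz] using this
  · ext n
    have := congrArg Complex.im (congrFun hz0 n)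
    simpa [hz] using this

/-- the matrix form of the inequality for operators with charts -/
theorem matrix_form (hAbs : StmtAbs) (hKPG : StmtKPG) (hd : 1 ≤ d)
    (A : Fin d → Matrix (Fin K) (Fin N) ℝ) (hA : SymEll A)
    (hch : Nontrivial (EuclideanSpace ℝ (Fin K)) → ChartHyp (LA A)) :
    ∀ C' : ℝ, 0 < C' → ∃ C : ℝ, 0 < C ∧
    ∀ μ : MeasureTheory.Measure (EuclideanSpace ℝ (Fin d)),
      MeasureTheory.IsFiniteMeasureOnCompacts μ →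
      (∀ x : EuclideanSpace ℝ (Fin d), ∀ r : ℝ, 0 < r →
          μ (Metric.ball x r) ≤ ENNReal.ofReal (C' * r ^ (d - 1))) →
    ∀ u : EuclideanSpace ℝ (Fin d) → EuclideanSpace ℝ (Fin N),
      ContDiff ℝ (⊤ : ℕ∞) u → HasCompactSupport u →
      ∫⁻ x, ‖u x‖ₑ ∂μ ≤ ENNReal.ofReal C *
        ∫⁻ x, ‖∑ j : Fin d, Matrix.toEuclideanLin (A j)
            (fderiv ℝ u x (EuclideanSpace.single j 1))‖ₑ := by
  intro C' hC'
  rcases Nat.eq_zero_or_pos N with hN | hN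
  · subst hN
    refine ⟨1, one_pos, fun μ _ _ u _ _ => ?_⟩
    have h0 : ∀ x, ‖u x‖ₑ = 0 := fun x => by
      have : u x = 0 := Subsingleton.elim _ _
      rw [this, enorm_zero]
    simp [h0]
  · have hK : 0 < K := by
      rcases Nat.eq_zero_or_pos K with hK | hK
      · exfalso
        subst hK
        have h1 := hA (fun _ => 1) (by
          intro h
          have := congrFun h ⟨0, hd⟩
          simp at this) (fun _ => 1) (by
          funext i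
          exact i.elim0)
        have := congrFun h1 ⟨0, hN⟩
        simp at this
      · exact hK
    have hnt : Nontrivial (EuclideanSpace ℝ (Fin K)) := by
      refine ⟨⟨EuclideanSpace.single ⟨0, hK⟩ 1, 0, ?_⟩⟩
      intro h
      have := congrArg (fun y : EuclideanSpace ℝ (Fin K) => y ⟨0, hK⟩) h
      simp at this
    obtain ⟨CK, hCK⟩ := hKPG d _ _ (LA A) (cell_of hA)
    obtain ⟨C, hC, h⟩ := hAbs d hd _ _ (LA A) CK hCK (hch hnt) C' hC'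
    refine ⟨C, hC, fun μ hμ hgr u hu hus => ?_⟩
    have h1 := h μ hμ hgr u ⟨hu, hus⟩
    refine h1.trans (le_of_eq ?_)
    congr 1
    refine lintegral_congr fun x => ?_
    rw [fo, LA_apply]

end Mat

/-- The frozen statement S04123 in dimension two -/
def PlaneStatement : Prop :=
  ∀ (N K : ℕ),
  ∀ A : Fin 2 → Matrix (Fin K) (Fin N) ℝ,
  (∀ ξ : Fin 2 → ℂ, ξ ≠ 0 → ∀ v : Fin N → ℂ,
      (∑ j, ξ j • (A j).map (algebraMap ℝ ℂ)) *ᵥ v = 0 → v = 0) →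
  ∀ C' : ℝ, 0 < C' → ∃ C : ℝ, 0 < C ∧
    ∀ μ : MeasureTheory.Measure (EuclideanSpace ℝ (Fin 2)),
      MeasureTheory.IsFiniteMeasureOnCompacts μ →
      (∀ x : EuclideanSpace ℝ (Fin 2), ∀ r : ℝ, 0 < r →
          μ (Metric.ball x r) ≤ ENNReal.ofReal (C' * r ^ (2 - 1))) →
    ∀ u : EuclideanSpace ℝ (Fin 2) → EuclideanSpace ℝ (Fin N),
      ContDiff ℝ (⊤ : ℕ∞) u → HasCompactSupport u →
      ∫⁻ x, ‖u x‖ₑ ∂μ ≤ ENNReal.ofReal C *
        ∫⁻ x, ‖∑ j : Fin 2, Matrix.toEuclideanLin (A j)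
            (fderiv ℝ u x (EuclideanSpace.single j 1))‖ₑ

theorem plane (hAbs : StmtAbs) (hKPG : StmtKPG) (hCH2 : StmtCH2) : PlaneStatement := by
  intro N K A hA
  exact matrix_form hAbs hKPG (by norm_num) A hA fun h => hCH2 _ _ (LA A) (cell_of hA) h

end

end TrI


end

section

/-!
# From the inequality for finite measures to the frozen statement
-/

open MeasureTheory Metric Set TrI Matrix
open scoped InnerProductSpace ContDiff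

namespace TG

noncomputable section

/-- the inequality for finite nonzero measures -/
def MainIneq : Prop :=
  ∀ (d : ℕ) (V E : Type) [NormedAddCommGroup V] [InnerProductSpace ℝ V] [FiniteDimensional ℝ V]
    [NormedAddCommGroup E] [InnerProductSpace ℝ E] [FiniteDimensional ℝ E]
    (L : (Sp d →L[ℝ] V) →L[ℝ] E), 2 ≤ d → CEll L →
    ∀ C' : ℝ, 0 < C' → ∃ C : ℝ, 0 < C ∧ ∀ μ : Measure (Sp d), Gro C' μ →
      ∀ u : Sp d → V, TF u → ∫⁻ x, ‖u x‖ₑ ∂μ ≤ ENNReal.ofReal C * ∫⁻ x, ‖fo L u x‖ₑ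

/-- the frozen statement S04123 -/
def Frozen : Prop :=
  ∀ (d N K : ℕ), 2 ≤ d →
  ∀ A : Fin d → Matrix (Fin K) (Fin N) ℝ,
  (∀ ξ : Fin d → ℂ, ξ ≠ 0 → ∀ v : Fin N → ℂ,
      (∑ j, ξ j • (A j).map (algebraMap ℝ ℂ)) *ᵥ v = 0 → v = 0) →
  ∀ C' : ℝ, 0 < C' → ∃ C : ℝ, 0 < C ∧
    ∀ μ : MeasureTheory.Measure (EuclideanSpace ℝ (Fin d)),
      MeasureTheory.IsFiniteMeasureOnCompacts μ →
      (∀ x : EuclideanSpace ℝ (Fin d), ∀ r : ℝ, 0 < r →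
          μ (Metric.ball x r) ≤ ENNReal.ofReal (C' * r ^ (d - 1))) →
    ∀ u : EuclideanSpace ℝ (Fin d) → EuclideanSpace ℝ (Fin N),
      ContDiff ℝ (⊤ : ℕ∞) u → HasCompactSupport u →
      ∫⁻ x, ‖u x‖ₑ ∂μ ≤ ENNReal.ofReal C *
        ∫⁻ x, ‖∑ j : Fin d, Matrix.toEuclideanLin (A j)
            (fderiv ℝ u x (EuclideanSpace.single j 1))‖ₑ

theorem frozen_of (hM : MainIneq) : Frozen := by
  intro d N K hd A hA C' hC'
  obtain ⟨C, hC, h⟩ := hM d (EuclideanSpace ℝ (Fin N)) (EuclideanSpace ℝ (Fin K)) (LA A) hd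
    (cell_of hA) C' hC'
  refine ⟨C, hC, fun μ hμ hgr u hu hus => ?_⟩
  -- restrict the measure to a ball containing the support
  obtain ⟨r, hr⟩ := hus.isCompact.isBounded.subset_ball (0 : Sp d)
  set ν : Measure (Sp d) := μ.restrict (ball 0 (max r 1)) with hν
  have hr1 : (0 : ℝ) < max r 1 := lt_of_lt_of_le one_pos (le_max_right _ _)
  have e0 : ∀ x, x ∉ ball (0 : Sp d) (max r 1) → u x = 0 := by
    intro x hx
    by_contra hne
    exact hx (ball_subset_ball (le_max_left _ _) (hr (subset_tsupport u hne)))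
  have e1 : ∫⁻ x, ‖u x‖ₑ ∂μ = ∫⁻ x, ‖u x‖ₑ ∂ν := by
    rw [hν]
    refine (setLIntegral_eq_of_support_subset ?_).symm
    intro x hx
    by_contra hne
    exact hx (by simp [e0 x hne])
  have e2 : ∫⁻ x, ‖fo (LA A) u x‖ₑ = ∫⁻ x, ‖∑ j : Fin d, Matrix.toEuclideanLin (A j)
            (fderiv ℝ u x (EuclideanSpace.single j 1))‖ₑ := by
    refine lintegral_congr fun x => ?_
    rw [fo, LA_apply]
  rw [e1, ← e2]
  by_cases h0 : ν = 0
  · rw [h0]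
    simp
  · refine h ν ⟨⟨?_⟩, h0, ?_⟩ u ⟨hu, hus⟩
    · rw [hν, Measure.restrict_apply_univ]
      exact (hgr 0 _ hr1).trans_lt ENNReal.ofReal_lt_top
    · intro x s hs
      exact (Measure.restrict_apply_le _ _).trans (hgr x s hs)

end

end TG


end

section

/-!
# Trace inequality, general operators: concrete quantities of cells, modules CT and CS   (helper46)

Cells Q : Cell d (TreeDefs); centre xC s0 Q, scale lev s0 Q.1.  The frame of Q is the rescaling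
by its centre and scale (module SC).  All statements StmtXX here are proved as theorem stmtXX in
Pool/Agent/TG/XX.lean, with other statements as hypotheses if useful.  No double quotes.
-/

open MeasureTheory Metric Set TrI
open scoped InnerProductSpace ContDiff ENNReal

namespace TG

noncomputable section

variable {d : ℕ}

/-! ## Basic quantities -/

/-- centre of a cell -/
def xC (s0 : ℝ) (Q : Cell d) : Sp d := cen s0 Q.1 Q.2

/-- the normalisation t^(1-d) -/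
def nw (s0 : ℝ) (Q : Cell d) : ℝ := lev s0 Q.1 / lev s0 Q.1 ^ d

section Def1

variable {E : Type} [NormedAddCommGroup E] [InnerProductSpace ℝ E]

/-- mass of a cell, radius R: al, ah, a of the paper for R = R_l, R_a / 2, R_a -/
def mC (b : Sp d → ℝ) (ε R s0 : ℝ) (f : Sp d → E) (Q : Cell d) : ℝ := ma b ε R s0 f Q.1 (xC s0 Q)

/-- tailed mass -/
def mT (b : Sp d → ℝ) (ε s0 : ℝ) (f : Sp d → E) (Q : Cell d) : ℝ :=
  nw s0 Q * ∫ y, ‖fl b ε s0 f (Q.1 - 1) y‖ / (1 + ‖y - xC s0 Q‖ / lev s0 Q.1) ^ (d + 2)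

/-- defect of a cell in the direction e Q -/
def dC (b : Sp d → ℝ) (ε R s0 : ℝ) (f : Sp d → E) (e : Cell d → E) (Q : Cell d) : ℝ :=
  DD b ε R s0 f Q.1 (xC s0 Q) (e Q)

/-- minimising directions -/
structure Dirs (b : Sp d → ℝ) (ε R s0 : ℝ) (f : Sp d → E) (e : Cell d → E) : Prop where
  unit : ∀ Q, ‖e Q‖ = 1
  min : ∀ (Q : Cell d) (e' : E), ‖e'‖ = 1 →
    dC b ε R s0 f e Q ≤ DD b ε R s0 f Q.1 (xC s0 Q) e'

/-- plane functional of a cell: b of the paper -/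
def bC (R0 s0 : ℝ) (f : Sp d → E) (e : Cell d → E) (ν : Cell d → Sp d) (c : Cell d → ℝ)
    (Q : Cell d) : ℝ := max 0 (bb R0 s0 f Q.1 (xC s0 Q) (e Q) (ν Q) (c Q))

/-- minimising planes -/
structure Plns (R0 s0 : ℝ) (f : Sp d → E) (e : Cell d → E) (ν : Cell d → Sp d)
    (c : Cell d → ℝ) : Prop where
  unit : ∀ Q, ‖ν Q‖ = 1
  loc : ∀ Q, |ht (ν Q) (c Q) (xC s0 Q)| ≤ (R0 + 1) * lev s0 Q.1
  min : ∀ (Q : Cell d) (ν' : Sp d) (c' : ℝ), ‖ν'‖ = 1 →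
    |ht ν' c' (xC s0 Q)| ≤ (R0 + 1) * lev s0 Q.1 →
    bb R0 s0 f Q.1 (xC s0 Q) (e Q) (ν Q) (c Q) ≤ bb R0 s0 f Q.1 (xC s0 Q) (e Q) ν' c'

/-- gap of the triangle inequality, gamma_j of the paper -/
def gm (b : Sp d → ℝ) (ε s0 : ℝ) (f : Sp d → E) (j : ℕ) (y : Sp d) : ℝ :=
  avk b (ε * lev s0 (j + 1)) (fun z => ‖fl b ε s0 f j z‖) y - ‖fl b ε s0 f (j + 1) y‖

/-- G_i(P): gaps between the level of P and the level i generations below, in the ball R t_P -/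
def gC (b : Sp d → ℝ) (ε R s0 : ℝ) (f : Sp d → E) (i : ℕ) (P : Cell d) : ℝ :=
  ∑ j ∈ Finset.Ico (P.1 - i - 1) (P.1 - 1), ∫ y in ball (xC s0 P) (R * lev s0 P.1),
    gm b ε s0 f j y

/-- TG(P): gaps in the tail -/
def tG (b : Sp d → ℝ) (ε s0 : ℝ) (f : Sp d → E) (P : Cell d) : ℝ :=
  nw s0 P * ∑' l : ℕ, (1 / 2 : ℝ) ^ ((l + 1) * (d + 2)) *
    ∑ j ∈ Finset.Ico (P.1 - 1) (P.1 + l), ∫ y in ball (xC s0 P) (2 ^ (l + 2) * lev s0 P.1),
      gm b ε s0 f j y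

end Def1

/-- the weights oml, omp of the paper (radius ρ) -/
def oC (μ : Measure (Sp d)) (ρ s0 : ℝ) (Q : Cell d) : ℝ :=
  Real.sqrt (nw s0 Q * (μ (ball (xC s0 Q) (ρ * lev s0 Q.1))).toReal)

/-- the weight om of the paper -/
def omC (μ : Measure (Sp d)) (s0 : ℝ) (Q : Cell d) : ℝ := vv μ (lev s0 Q.1) (xC s0 Q)

/-! ## Modules CT: tree facts -/

/-- MODULE CG: existence of minimising directions and planes -/
def StmtCG : Prop :=
  ∀ (d : ℕ), 1 ≤ d → ∀ (M c0 ε : ℝ), 0 < ε → ε ≤ 1 → ∀ (b : Sp d → ℝ), BaseKer 2 M c0 b →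
  ∀ (E : Type) [NormedAddCommGroup E] [InnerProductSpace ℝ E] [FiniteDimensional ℝ E]
    [Nontrivial E] (f : Sp d → E), Continuous f → HasCompactSupport f → ∀ (R s0 : ℝ), 0 < R → 0 < s0 →
    (∃ e : Cell d → E, Dirs b ε R s0 f e) ∧
    ∀ (e : Cell d → E) (R0 : ℝ), 1 ≤ R0 → (∀ Q, ‖e Q‖ = 1) →
      ∃ (ν : Cell d → Sp d) (c : Cell d → ℝ), Plns R0 s0 f e ν c

/-- MODULE CT1: the tree facts for mass, tailed mass, gaps and the weights of the measure -/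
def StmtCT1 : Prop :=
  ∀ (d : ℕ), 1 ≤ d → ∀ (M c0 ε C' R ρ : ℝ), 0 < ε → ε ≤ 1 → 0 < C' → (d : ℝ) + 4 ≤ R →
    3 * (d : ℝ) ≤ ρ → ∀ (b : Sp d → ℝ), BaseKer 2 M c0 b → ∀ m : ℕ, 1 ≤ m → ∃ C : ℝ, 1 ≤ C ∧
    ∀ (E : Type) [NormedAddCommGroup E] [InnerProductSpace ℝ E] [FiniteDimensional ℝ E]
      (f : Sp d → E), Continuous f → HasCompactSupport f → ∀ (μ : Measure (Sp d)), Gro C' μ →
    ∀ s0 : ℝ, 0 < s0 →
      (∀ Q : Cell d, 0 ≤ mC b ε R s0 f Q ∧ 0 ≤ mT b ε s0 f Q ∧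
        mC b ε R s0 f Q ≤ C * mT b ε s0 f Q) ∧
      (∀ (i : ℕ) (Q : Cell d), 0 ≤ gC b ε (2 * R) s0 f i Q) ∧
      (∀ Q : Cell d, 0 ≤ oC μ ρ s0 Q ∧ oC μ ρ s0 Q ≤ oC μ (ρ + Real.sqrt d) s0 Q ∧
        oC μ (ρ + Real.sqrt d) s0 Q ≤ C ∧
        oC μ (ρ + Real.sqrt d) s0 Q ≤ C * oC μ ρ s0 (up m Q)) ∧
      (∀ (i : ℕ) (P : Cell d), i ≤ P.1 → ∑ Q ∈ dn i P, cw s0 Q * mC b ε R s0 f Q ≤
        C * (cw s0 P * mT b ε s0 f P + gC b ε (2 * R) s0 f i P)) ∧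
      (∀ (i : ℕ) (P : Cell d), i ≤ P.1 → ∑ Q ∈ dn i P, cw s0 Q * oC μ ρ s0 Q ^ 2 ≤
        C * (cw s0 P * oC μ (ρ + Real.sqrt d) s0 P ^ 2)) ∧
      (∀ (i : ℕ) (P : Cell d), i ≤ P.1 →
        ∑ Q ∈ dn i P, cw s0 Q * oC μ (ρ + Real.sqrt d) s0 Q ^ 2 ≤ C * cw s0 P) ∧
      (∀ i : ℕ, cs univ (gC b ε (2 * R) s0 f i) ≤ ENNReal.ofReal (C * (i + 1) * ∫ y, ‖f y‖))

/-- MODULE CT2: packing for the minimising directions, in the form of cs; boundedness -/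
def StmtCT2 : Prop :=
  ∀ (d : ℕ), 1 ≤ d → ∀ (M c0 ε R : ℝ), 0 < ε → ε ≤ 1 → 1 ≤ R → ∀ (b : Sp d → ℝ),
    BaseKer 2 M c0 b → ∃ C : ℝ, 0 < C ∧
    ∀ (E : Type) [NormedAddCommGroup E] [InnerProductSpace ℝ E] [FiniteDimensional ℝ E]
      [Nontrivial E] (f : Sp d → E), Continuous f → HasCompactSupport f → ∀ s0 : ℝ, 0 < s0 →
    ∀ e : Cell d → E, Dirs b ε R s0 f e →
      (∀ Q, 0 ≤ dC b ε R s0 f e Q) ∧ (∃ B, ∀ Q, dC b ε R s0 f e Q ≤ B) ∧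
      cs univ (fun Q => cw s0 Q * dC b ε R s0 f e Q) ≤ ENNReal.ofReal (C * ∫ y, ‖f y‖)

/-- MODULE CT3: tail lemma (4'.4) and the sum of the tail gaps -/
def StmtCT3 : Prop :=
  ∀ (d : ℕ), 1 ≤ d → ∃ Rt : ℝ, 1 ≤ Rt ∧
    ∀ (M c0 ε : ℝ), 0 < ε → ε ≤ 1 → ∀ (b : Sp d → ℝ), BaseKer 2 M c0 b → ∃ C : ℝ, 0 < C ∧
    ∀ (E : Type) [NormedAddCommGroup E] [InnerProductSpace ℝ E] [FiniteDimensional ℝ E]
      (f : Sp d → E), Continuous f → HasCompactSupport f → ∀ s0 : ℝ, 0 < s0 →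
      (∀ P : Cell d, 0 ≤ tG b ε s0 f P) ∧
      cs univ (fun P => cw s0 P * tG b ε s0 f P) ≤ ENNReal.ofReal (C * ∫ y, ‖f y‖) ∧
      ∀ γ : ℝ, γ ≤ 1 → ∀ P : Cell d,
        (∀ l : ℕ, mT b ε s0 f (up l P) ≤ (2 : ℝ) ^ (γ * l) * mT b ε s0 f P) →
        mT b ε s0 f P ≤ 2 * mC b ε Rt s0 f P + C * tG b ε s0 f P

/-- MODULE CT4: robustness of the masses, the maximum of the tailed masses over the ancestors -/
def StmtCT4 : Prop :=
  ∀ (d : ℕ), 1 ≤ d → ∀ (Mr : ℝ), 0 ≤ Mr → ∃ C : ℝ, 1 ≤ C ∧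
    ∀ (M c0 ε : ℝ), 0 < ε → ε ≤ 1 → ∀ (b : Sp d → ℝ), BaseKer 2 M c0 b →
    ∀ (E : Type) [NormedAddCommGroup E] [InnerProductSpace ℝ E] [FiniteDimensional ℝ E]
      (f : Sp d → E), Continuous f → HasCompactSupport f → ∀ s0 : ℝ, 0 < s0 →
      (∀ R : ℝ, 0 ≤ R → ∀ Q : Cell d, mC b ε R s0 f Q ≤ (1 + R) ^ (d + 2) * mT b ε s0 f Q) ∧
      (∀ Q : Cell d, mT b ε s0 f Q ≤ nw s0 Q * ∫ y, ‖f y‖) ∧
      (∀ (j : ℕ) (Q Q' : Cell d), Q'.1 = Q.1 + j →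
        ‖xC s0 Q' - xC s0 Q‖ ≤ Mr * lev s0 Q'.1 →
        ∀ i : ℕ, mT b ε s0 f (up i Q') ≤ C * mT b ε s0 f (up (i + j) Q) ∧
          mT b ε s0 f (up (i + j) Q) ≤ C * mT b ε s0 f (up i Q')) ∧
      (∀ γ : ℝ, 0 < γ → ∀ Q : Cell d, ∃ i : ℕ, ∀ l : ℕ,
        (2 : ℝ) ^ (-(γ * l)) * mT b ε s0 f (up l Q) ≤ (2 : ℝ) ^ (-(γ * i)) * mT b ε s0 f (up i Q))

/-- MODULE CT5: masses, defects and plane functionals of cells of different levels;
the level of P is the level of Q plus m, the ball R0 + 1 of Q is contained in the ball R0 of P -/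
def StmtCT5 : Prop :=
  ∀ (d : ℕ), 1 ≤ d → ∀ (M c0 ε : ℝ), 0 < ε → ε ≤ 1 → ∀ (b : Sp d → ℝ), BaseKer 2 M c0 b →
  ∀ (R0 : ℝ) (m : ℕ), 3 ≤ R0 → ∃ C : ℝ, 0 < C ∧
    ∀ (E : Type) [NormedAddCommGroup E] [InnerProductSpace ℝ E] [FiniteDimensional ℝ E]
      (R : ℝ), 2 * R0 + 10 ≤ R → ∀ f : Sp d → E, Continuous f → HasCompactSupport f →
    ∀ s0 : ℝ, 0 < s0 → ∀ e : Cell d → E, Dirs b ε R s0 f e →
    ∀ (ν : Cell d → Sp d) (c : Cell d → ℝ), Plns R0 s0 f e ν c →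
      (∀ Q : Cell d, 0 ≤ dC b ε R s0 f e Q ∧ 0 ≤ bC R0 s0 f e ν c Q ∧
        bC R0 s0 f e ν c Q ≤ C * (mC b ε (R0 + 3) s0 f Q + dC b ε R s0 f e Q)) ∧
      (∀ Q P : Cell d, P.1 = Q.1 + m →
        ‖xC s0 P - xC s0 Q‖ ≤ R * (lev s0 P.1 - lev s0 Q.1) →
        dC b ε R s0 f e Q ≤ C * dC b ε R s0 f e P) ∧
      (∀ Q P : Cell d, P.1 = Q.1 + m →
        ‖xC s0 P - xC s0 Q‖ ≤ R0 * lev s0 P.1 - (R0 + 1) * lev s0 Q.1 →
        bC R0 s0 f e ν c Q ≤ C * (bC R0 s0 f e ν c P + dC b ε R s0 f e Q +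
          dC b ε R s0 f e P)) ∧
      (∀ Q P : Cell d, P.1 = Q.1 + m → ∀ r1 r2 : ℝ, 0 ≤ r1 → r2 ≤ R - 3 → 
        r1 * lev s0 Q.1 + ‖xC s0 P - xC s0 Q‖ + lev s0 P.1 ≤ r2 * lev s0 P.1 →
        mC b ε r1 s0 f Q ≤ C * (mC b ε r2 s0 f P + dC b ε R s0 f e P)) ∧
      (∀ Q P : Cell d, P.1 = Q.1 + m → ∀ (ζ : Sp d → ℝ) (N : ℝ), TFn 2 N ζ →
        (∀ y, R - 3 ≤ ‖y‖ → ζ y = 0) →
        ‖xC s0 P - xC s0 Q‖ ≤ R * (lev s0 P.1 - lev s0 Q.1) →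
        |∫ y, ⟪rs (xC s0 Q) (lev s0 Q.1) f y, e Q - e P⟫_ℝ * ζ y| ≤
          C * N * (dC b ε R s0 f e Q + dC b ε R s0 f e P))

/-- MODULE CT6: finiteness of the sums -/
def StmtCT6 : Prop :=
  ∀ (d : ℕ), 2 ≤ d → ∀ (C' ρ : ℝ), 0 < C' → 1 ≤ ρ → ∀ μ : Measure (Sp d), Gro C' μ →
    ∀ s0 : ℝ, 0 < s0 → ∀ (F : Cell d → ℝ) (B1 B2 : ℝ), 0 ≤ B1 → 0 ≤ B2 →
      (∀ Q, 0 ≤ F Q) → (∀ Q, F Q ≤ B1 * nw s0 Q) →
      (∀ Q, F Q ≠ 0 → ‖xC s0 Q‖ ≤ B2 * (1 + lev s0 Q.1)) →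
      cs univ (fun Q => cw s0 Q * F Q * oC μ ρ s0 Q) < ⊤ ∧
      cs univ (fun Q => cw s0 Q * F Q * omC μ s0 Q) < ⊤

/-! ## The final step -/

/-- the main estimate: the sum of all plane functionals -/
def StmtMain : Prop :=
  ∀ (d : ℕ) (V E : Type) [NormedAddCommGroup V] [InnerProductSpace ℝ V] [FiniteDimensional ℝ V]
    [NormedAddCommGroup E] [InnerProductSpace ℝ E] [FiniteDimensional ℝ E] [Nontrivial E]
    (L : (Sp d →L[ℝ] V) →L[ℝ] E), 2 ≤ d → CEll L → ∀ C' : ℝ, 0 < C' →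
    ∃ (M c0 ε R0 R ρ C : ℝ) (b : Sp d → ℝ), BaseKer 2 M c0 b ∧ 0 < ε ∧ ε ≤ 1 ∧
      400 + 8 * d ≤ R0 ∧ R0 + 10 ≤ R ∧ (d : ℝ) + 1 ≤ ρ ∧ 0 < C ∧
      ∀ u : Sp d → V, TF u → ∀ μ : Measure (Sp d), Gro C' μ → ∀ s0 : ℝ, 0 < s0 → s0 ≤ 1 →
        ∃ (e : Cell d → E) (ν : Cell d → Sp d) (c : Cell d → ℝ), (∀ Q, ‖e Q‖ = 1) ∧
          (∀ Q, ‖ν Q‖ = 1) ∧ (∀ Q, |ht (ν Q) (c Q) (xC s0 Q)| ≤ (R0 + 3) * lev s0 Q.1) ∧
          cs {Q | 2 ≤ Q.1} (fun Q => cw s0 Q *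
            bD b ε R0 R s0 (fo L u) Q.1 (xC s0 Q) (e Q) (ν Q) (c Q) * oC μ ρ s0 Q) ≤
              ENNReal.ofReal (C * ∫ y, ‖fo L u y‖)

/-- MODULE CF: from the main estimate to the theorem -/
def StmtCF : Prop := StmtCO → StmtMain → MainIneq

/-! ## Modules CS: contributions and the sum identity (6.1) -/

/-- the parameters of the fields: base kernel, radius of the Newton field, ε, p0, A -/
structure Prm (d : ℕ) where
  b : Sp d → ℝ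
  RN : ℝ
  ε : ℝ
  p0 : ℝ
  A : ℝ

/-- admissible parameters -/
structure PrmOK (M c0 : ℝ) (X : Prm d) : Prop where
  ker : BaseKer 14 M c0 X.b
  RN_ge : 1 ≤ X.RN
  ε_pos : 0 < X.ε
  ε_le : X.ε ≤ 1 / 4
  p0_pos : 0 < X.p0
  p0_le : X.p0 ≤ 1
  A_ge : 1 ≤ X.A

/-- the measure in the frame of Q -/
def muQ (s0 : ℝ) (μ : Measure (Sp d)) (Q : Cell d) : Measure (Sp d) :=
  rsm (xC s0 Q) (lev s0 Q.1) μ

/-- the profile of the level of Q -/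
def bQ (b : Sp d → ℝ) (Q : Cell d) : Sp d → ℝ := KN b (Q.1 - 2)

/-- position of Q' in the frame of Q, for cells of the same level -/
def dsp (Q Q' : Cell d) : Sp d := lat (fun j => Q'.2 j - Q.2 j)

/-- flux density of the Newton field -/
def fxB (b : Sp d → ℝ) (RN : ℝ) (χ χ' β : Sp d → ℝ) (ε p0 A : ℝ) (μ : Measure (Sp d))
    (y : Sp d) : ℝ :=
  χ' y * Ups p0 A μ 1 y * ⟪gradient χ y, gradient (WW β ε μ 1) y⟫_ℝ
    - avk b RN (fun x => χ' x * Ups p0 A μ 1 x *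
        ⟪gradient χ x, gradient (WW β ε μ 1) x⟫_ℝ) y
    - nt b RN (fun i j x => χ' x * Ups p0 A μ 1 x * (1 / 2 *
        (fderiv ℝ χ x (bv i) * fderiv ℝ (WW β ε μ 1) x (bv j)
        + fderiv ℝ χ x (bv j) * fderiv ℝ (WW β ε μ 1) x (bv i)))) y

/-- flux of the field of a density m, kind k: 0 sheet with normal n, 1 Newton, otherwise none -/
def flx (X : Prm d) (k : ℕ) (χ χ' β : Sp d → ℝ) (μ : Measure (Sp d)) (m : Sp d → ℝ)
    (n : Sp d) : ℝ :=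
  if k = 0 then ∫ y, m y * fxA χ χ' β X.ε X.p0 X.A μ n y
  else if k = 1 then ∫ y, m y * fxB X.b X.RN χ χ' β X.ε X.p0 X.A μ y else 0

section Def3

variable {E : Type} [NormedAddCommGroup E] [InnerProductSpace ℝ E]

/-- the density ⟨f,e⟩ in the frame of Q -/
def mQ (s0 : ℝ) (f : Sp d → E) (e : E) (Q : Cell d) (y : Sp d) : ℝ :=
  ⟪rs (xC s0 Q) (lev s0 Q.1) f y, e⟫_ℝ

/-- main contribution of a cell -/
def Gam (X : Prm d) (s0 : ℝ) (μ : Measure (Sp d)) (f : Sp d → E) (e : Cell d → E)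
    (kd : Cell d → ℕ) (nv : Cell d → Sp d) (Q : Cell d) : ℝ :=
  if kd Q = 0 then ∫ y, mQ s0 f (e Q) Q y *
    (chi y * Hn (bQ X.b Q) X.ε X.p0 X.A (muQ s0 μ Q) (nv Q) 1 y)
  else if kd Q = 1 then
    (∫ y, mQ s0 f (e Q) Q y *
      nt X.b X.RN (fun i j x => chi x * HHm (bQ X.b Q) X.ε X.p0 X.A (muQ s0 μ Q) i j x) y)
    + ∫ y, mQ s0 f (e Q) Q y *
      avk X.b X.RN (fun x => chi x * GG (bQ X.b Q) X.ε (muQ s0 μ Q) 1 x) y
  else ∫ y, mQ s0 f (e Q) Q y * (chi y * GG (bQ X.b Q) X.ε (muQ s0 μ Q) 1 y)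

/-- divergence contribution of a cell -/
def Vct (X : Prm d) (s0 : ℝ) (μ : Measure (Sp d)) (f : Sp d → E) (e : Cell d → E)
    (kd : Cell d → ℕ) (nv : Cell d → Sp d) (Q : Cell d) : ℝ :=
  if kd Q = 0 then ∫ y, mQ s0 f (e Q) Q y *
    dvT chi (bQ X.b Q) X.ε X.p0 X.A (muQ s0 μ Q) (nv Q) y else 0

/-- flux between two cells of the same level, in the frame of Q -/
def Fct (X : Prm d) (s0 : ℝ) (μ : Measure (Sp d)) (f : Sp d → E) (e : Cell d → E)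
    (kd : Cell d → ℕ) (nv : Cell d → Sp d) (Q Q' : Cell d) : ℝ :=
  flx X (kd Q) chi (fun x => chi (x - dsp Q Q')) (bQ X.b Q) (muQ s0 μ Q)
      (mQ s0 f (e Q) Q) (nv Q)
    - flx X (kd Q') chi (fun x => chi (x - dsp Q Q')) (bQ X.b Q) (muQ s0 μ Q)
      (mQ s0 f (e Q') Q) (nv Q')

/-- the adjacent cells of the same level -/
def adj (Q : Cell d) : Finset (Cell d) :=
  ({Q.1} : Finset ℕ) ×ˢ Fintype.piFinset fun j => Finset.Icc (Q.2 j - 1) (Q.2 j + 1)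

/-- net contribution of a cell -/
def net (X : Prm d) (s0 : ℝ) (μ : Measure (Sp d)) (f : Sp d → E) (e : Cell d → E)
    (kd : Cell d → ℕ) (nv : Cell d → Sp d) (Q : Cell d) : ℝ :=
  cw s0 Q * (Gam X s0 μ f e kd nv Q + Vct X s0 μ f e kd nv Q
    - ∑ Q' ∈ adj Q, Fct X s0 μ f e kd nv Q Q')

end Def3

/-! ## Modules CT7 - CT9: weights, frames -/

/-- MODULE CT7: the weights om and oml -/
def StmtCT7 : Prop :=
  ∀ (d : ℕ), 2 ≤ d → ∀ (C' p0 A r : ℝ), 0 < C' → 0 < p0 → p0 ≤ 1 → 1 ≤ A → 0 ≤ r → ∀ m : ℕ,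
    ∃ C : ℝ, 0 < C ∧ ∀ μ : Measure (Sp d), Gro C' μ → ∀ s0 : ℝ, 0 < s0 →
      (∀ Q : Cell d, 0 < omC μ s0 Q ∧ omC μ s0 Q ≤ C ∧ vv (muQ s0 μ Q) 1 0 = omC μ s0 Q ∧
        Gro C' (muQ s0 μ Q)) ∧
      (∀ (Q : Cell d) (ρ : ℝ), 1 ≤ ρ → oC μ ρ s0 Q ^ 2 ≤ C * ρ ^ (d + 1) * omC μ s0 Q ^ 2) ∧
      (∀ Q Q' : Cell d, Q'.1 = Q.1 + m → ‖xC s0 Q' - xC s0 Q‖ ≤ r * lev s0 Q'.1 →
        omC μ s0 Q' ≤ C * omC μ s0 Q ∧ omC μ s0 Q ≤ C * omC μ s0 Q') ∧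
      (∀ Q Q' : Cell d, Q'.1 = Q.1 → ‖xC s0 Q' - xC s0 Q‖ ≤ r * lev s0 Q'.1 →
        ∀ y : Sp d, ‖y‖ ≤ r → p0 / 2 ≤ qq A (muQ s0 μ Q) 1 y →
          omC μ s0 Q ≤ C * oC μ (A + r) s0 Q ∧ omC μ s0 Q' ≤ C * oC μ (A + 2 * r) s0 Q')

/-- MODULE CT8: Lemma Z and the growth of the mass in the frame of a cell -/
def StmtCT8 : Prop :=
  ∀ (d : ℕ), 1 ≤ d → ∀ (M c0 ε : ℝ), 0 < ε → ε ≤ 1 → ∀ (b : Sp d → ℝ), BaseKer 2 M c0 b →
    ∃ C : ℝ, 0 < C ∧ ∀ l : ℕ, ∃ C1 : ℝ, 0 < C1 ∧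
    ∀ (E : Type) [NormedAddCommGroup E] [InnerProductSpace ℝ E] [FiniteDimensional ℝ E]
      (R : ℝ), 2 * (d : ℝ) + 10 ≤ R → 2 ^ l + 3 ≤ R → ∀ f : Sp d → E, Continuous f →
      HasCompactSupport f → ∀ s0 : ℝ, 0 < s0 → ∀ e : Cell d → E, Dirs b ε R s0 f e →
      (∀ Q : Cell d, Continuous (mQ s0 f (e Q) Q) ∧
        ZP (R - 2) (C * dC b ε R s0 f e Q) (mQ s0 f (e Q) Q)) ∧
      (∀ Q : Cell d, mC b ε (2 ^ l) s0 f Q ≤
        C * 2 ^ (l * (d - 1)) * mT b ε s0 f (up l Q) + C1 * dC b ε R s0 f e (up l Q)) ∧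
      (∀ (Q : Cell d) (K γ a : ℝ), 0 ≤ K → 0 ≤ γ → γ ≤ 1 → 0 ≤ a →
        (∀ i ≤ l + 1, mT b ε s0 f (up i Q) ≤ K * (2 : ℝ) ^ (γ * i) * a) →
        MG (C * K) γ (2 ^ l) a (C1 * ∑ r ∈ Finset.range (l + 2), dC b ε R s0 f e (up r Q))
          (mQ s0 f (e Q) Q)) ∧
      (∀ (Q : Cell d) (r : ℝ) (ζ : Sp d → ℝ) (N : ℝ), 0 ≤ r → r + 3 ≤ R → TFn 2 N ζ →
        (∀ y, r ≤ ‖y‖ → ζ y = 0) →
        |∫ y, mQ s0 f (e Q) Q y * ζ y| ≤
          C * N * (mC b ε (r + 2) s0 f Q + dC b ε R s0 f e Q))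

/-- MODULE CT9: defects and directions of neighbours -/
def StmtCT9 : Prop :=
  ∀ (d : ℕ), 1 ≤ d → ∀ (M c0 ε : ℝ), 0 < ε → ε ≤ 1 → ∀ (b : Sp d → ℝ), BaseKer 2 M c0 b →
  ∀ (j : ℕ), ∃ C : ℝ, 0 < C ∧
    ∀ (E : Type) [NormedAddCommGroup E] [InnerProductSpace ℝ E] [FiniteDimensional ℝ E]
      (R r : ℝ), 0 ≤ r → 2 * r + 2 * d + 10 ≤ R → ∀ f : Sp d → E, Continuous f →
      HasCompactSupport f → ∀ s0 : ℝ, 0 < s0 → ∀ e : Cell d → E, Dirs b ε R s0 f e →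
    ∀ Q Q' : Cell d, Q'.1 = Q.1 + j → ‖xC s0 Q' - xC s0 Q‖ ≤ r * lev s0 Q'.1 →
      dC b ε R s0 f e Q' ≤ C * dC b ε R s0 f e (up (j + 1) Q) ∧
      ∀ (ρ : ℝ) (ζ : Sp d → ℝ) (N : ℝ), ρ + r * 2 ^ j + 3 ≤ R → TFn 2 N ζ →
        (∀ y, ρ ≤ ‖y‖ → ζ y = 0) →
        |∫ y, (mQ s0 f (e Q') Q y - mQ s0 f (e Q) Q y) * ζ y| ≤
          C * N * (dC b ε R s0 f e Q + dC b ε R s0 f e (up (j + 1) Q))

/-! ## Modules CS -/

/-- MODULE CS1: the sum identity (6.1) on one level -/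
def StmtCS1 : Prop :=
  ∀ (d : ℕ), 2 ≤ d → ∀ (M c0 C' : ℝ), 0 < C' → ∀ X : Prm d, PrmOK M c0 X →
    ∀ (E : Type) [NormedAddCommGroup E] [InnerProductSpace ℝ E] [FiniteDimensional ℝ E]
      (f : Sp d → E), Continuous f → HasCompactSupport f → ∀ μ : Measure (Sp d), Gro C' μ →
    ∀ s0 : ℝ, 0 < s0 →
    ∀ (e : Cell d → E) (kd : Cell d → ℕ) (nv : Cell d → Sp d),
      (∀ Q, kd Q = 0 → ‖nv Q‖ = 1) → ∀ i : ℕ,
      {p : Fin d → ℤ | net X s0 μ f e kd nv (i, p) ≠ 0}.Finite ∧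
      ∑' p : Fin d → ℤ, net X s0 μ f e kd nv (i, p) =
        ∑' p : Fin d → ℤ, ∫ y, chiQ (cen s0 i p) (lev s0 i) y * ⟪f y, e (i, p)⟫_ℝ *
          GG (KN X.b (i - 2)) X.ε μ (lev s0 i) y

/-- MODULE CS2: bounds and localisation of the net contributions -/
def StmtCS2 : Prop :=
  ∀ (d : ℕ), 2 ≤ d → ∀ (M c0 C' : ℝ), 0 < C' → ∀ X : Prm d, PrmOK M c0 X → ∃ C : ℝ, 0 < C ∧
    ∀ (E : Type) [NormedAddCommGroup E] [InnerProductSpace ℝ E] [FiniteDimensional ℝ E]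
      (f : Sp d → E), Continuous f → HasCompactSupport f → ∀ μ : Measure (Sp d), Gro C' μ →
    ∀ s0 : ℝ, 0 < s0 →
    ∀ (e : Cell d → E) (kd : Cell d → ℕ) (nv : Cell d → Sp d), (∀ Q, ‖e Q‖ = 1) →
      (∀ Q, kd Q = 0 → ‖nv Q‖ = 1) → ∀ Q : Cell d,
      |net X s0 μ f e kd nv Q| ≤ C * (∫ y, ‖f y‖) * omC μ s0 Q ∧
      ∀ B : ℝ, (∀ y, B ≤ ‖y‖ → f y = 0) → net X s0 μ f e kd nv Q ≠ 0 →
        ‖xC s0 Q‖ ≤ B + C * lev s0 Q.1

/-- the net contributions of the levels ≥ 2 -/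
def net2 {E : Type} [NormedAddCommGroup E] [InnerProductSpace ℝ E] (X : Prm d) (s0 : ℝ)
    (μ : Measure (Sp d)) (f : Sp d → E) (e : Cell d → E) (kd : Cell d → ℕ)
    (nv : Cell d → Sp d) (Q : Cell d) : ℝ :=
  if 2 ≤ Q.1 then net X s0 μ f e kd nv Q else 0

/-- MODULE CS: the total of all net contributions -/
def StmtCS : Prop :=
  ∀ (d : ℕ), 2 ≤ d → ∀ (M c0 C' R : ℝ), 0 < C' → (d : ℝ) + 4 ≤ R → ∀ X : Prm d, PrmOK M c0 X →
    ∃ C : ℝ, 0 < C ∧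
    ∀ (E : Type) [NormedAddCommGroup E] [InnerProductSpace ℝ E] [FiniteDimensional ℝ E]
      [Nontrivial E] (f : Sp d → E), Continuous f → HasCompactSupport f →
    ∀ μ : Measure (Sp d), Gro C' μ → ∀ s0 : ℝ, 0 < s0 →
    ∀ (e : Cell d → E) (kd : Cell d → ℕ) (nv : Cell d → Sp d), Dirs X.b X.ε R s0 f e →
      (∀ Q, kd Q = 0 → ‖nv Q‖ = 1) →
      Summable (net2 X s0 μ f e kd nv) ∧
      ∑' Q, net2 X s0 μ f e kd nv Q ≤ C * ∫ y, ‖f y‖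

/-- MODULE CA: abstract summation -/
def StmtCA : Prop :=
  ∀ (d : ℕ) (N g err : Cell d → ℝ) (T : ℝ), Summable N → ∑' Q, N Q ≤ T →
    (∀ Q, 0 ≤ g Q) → (∀ Q, 0 ≤ err Q) → (∀ Q, g Q ≤ N Q + err Q) → 0 ≤ T →
    cs univ g ≤ ENNReal.ofReal T + cs univ err

end

end TG


end

section

/-!
# Trace inequality, general operators: sheets at many levels (for the A/B interface, section 13)

No double quotes.  Unit scale.
-/

open MeasureTheory Metric Set TrI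
open scoped InnerProductSpace ContDiff

namespace TG

noncomputable section

variable {d : ℕ}

/-- the inner mass of a field in its unit frame -/
def Mi {E : Type} [NormedAddCommGroup E] [InnerProductSpace ℝ E] (R0 : ℝ) (f : Sp d → E)
    (e : E) : ℝ := ∫ y, ⟪f y, e⟫_ℝ * zR (R0 / 3) y

/-- MODULE SAF: the sheet lemma from Flat at level 2, constants independent of the growth -/
def StmtSAF : Prop :=
  ∀ (d : ℕ) (V E : Type) [NormedAddCommGroup V] [InnerProductSpace ℝ V] [FiniteDimensional ℝ V]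
    [NormedAddCommGroup E] [InnerProductSpace ℝ E] [FiniteDimensional ℝ E]
    (L : (Sp d →L[ℝ] V) →L[ℝ] E), 2 ≤ d → CEll L → ∃ J : ℕ,
    ∀ (M c0 ε : ℝ), 0 < ε → ε ≤ 1 → ∀ (b : Sp d → ℝ), BaseKer 2 M c0 b →
    ∀ R0 : ℝ, 200 + 8 * d ≤ R0 → ∃ (C κ : ℝ), 0 < C ∧ 0 < κ ∧
      ∀ (R : ℝ), 4 * R0 + 10 ≤ R → ∀ (n : ℕ) (u : Sp d → V), TF u →
      ∀ (x : ℕ → Sp d) (e : ℕ → E), Tower x e →
      ∀ (ν : Sp d) (c B D Lam m2 : ℝ), ‖ν‖ = 1 → |c| ≤ R0 + 3 →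
        Flat b ε R0 R κ (rs (x 2) 4 (fo L u)) (n + 2) (e 2) ν ((c - ⟪ν, x 2⟫_ℝ) / 4) →
        m2 = Mi R0 (rs (x 2) 4 (fo L u)) (e 2) →
        1 ≤ Lam → ma b ε R0 ((1 / 2) ^ n) (fo L u) (n + 2) (x 2) ≤ Lam * m2 →
        Lam ^ 2 * B ≤ κ * m2 →
        (∀ I : ℕ, ∑ r ∈ Finset.range I, (1 / 2 : ℝ) ^ r *
          bD b ε R0 R ((1 / 2) ^ n) (fo L u) (n + r) (x r) (e r) ν c ≤ B) →
        (∀ r ≤ 2, DD b ε R ((1 / 2) ^ n) (fo L u) (n + r) (x r) (e r) ≤ D) →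
        ∃ (ν' : Sp d) (c' a' : ℝ), ‖ν'‖ = 1 ∧
          m2 * (‖ν' - ν‖ ^ 2 + (c' - c) ^ 2) ≤ C * Lam * B ∧ m2 ≤ C * a' ∧ a' ≤ C * Lam * m2 ∧
          max 0 (blc ν' c' (fun y => ⟪fo L u y, e 0⟫_ℝ) R0) ≤ C * Lam ^ 2 * B ∧
          Sheet J R0 a' (C * Lam ^ 2 * (B + Real.sqrt (m2 * D))) (C * D)
            (fun y => ⟪fo L u y, e 0⟫_ℝ) ν' c'

/-- MODULE MP: persistence of the mass along a common plane -/
def StmtMP : Prop :=
  ∀ (d : ℕ) (V E : Type) [NormedAddCommGroup V] [InnerProductSpace ℝ V] [FiniteDimensional ℝ V]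
    [NormedAddCommGroup E] [InnerProductSpace ℝ E] [FiniteDimensional ℝ E]
    (L : (Sp d →L[ℝ] V) →L[ℝ] E), 2 ≤ d → CEll L →
    ∀ (M c0 ε : ℝ), 0 < ε → ε ≤ 1 → ∀ (b : Sp d → ℝ), BaseKer 2 M c0 b →
    ∀ (R0 γ K κ1 : ℝ), 200 + 8 * d ≤ R0 → 0 < γ → γ ≤ 1 / (16 * d) → 1 ≤ K → 0 < κ1 →
    ∃ (C κ : ℝ), 0 < C ∧ 0 < κ ∧
      ∀ (R : ℝ), 4 * R0 + 10 ≤ R → ∀ (n : ℕ) (u : Sp d → V), TF u →
      ∀ (x : ℕ → Sp d) (e : ℕ → E), Tower x e →
      ∀ a : ℝ, 0 < a → a = ma b ε R0 ((1 / 2) ^ n) (fo L u) n 0 →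
      (∀ r : ℕ, ma b ε R0 ((1 / 2) ^ n) (fo L u) (n + r) (x r) ≤ K * (2 : ℝ) ^ (γ * r) * a) →
      ∀ (ν : Sp d) (c B : ℝ), ‖ν‖ = 1 → |c| ≤ R0 + 3 →
        (∀ I : ℕ, ∑ r ∈ Finset.range I, wq (1 / 2) r *
          bD b ε R0 R ((1 / 2) ^ n) (fo L u) (n + r) (x r) (e r) ν c ≤ B) →
        ∀ r : ℕ, 2 ≤ r → (2 : ℝ) ^ ((3 / 5 : ℝ) * r) * B ≤ κ * a →
          Flat b ε R0 R κ1 (rs (x r) (2 ^ r) (fo L u)) (n + r) (e r) ν
            ((c - ⟪ν, x r⟫_ℝ) / 2 ^ r) ∧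
          a ≤ C * Mi R0 (rs (x r) (2 ^ r) (fo L u)) (e r)

/-- MODULE ML: sheets at many levels -/
def StmtML : Prop :=
  ∀ (d : ℕ) (V E : Type) [NormedAddCommGroup V] [InnerProductSpace ℝ V] [FiniteDimensional ℝ V]
    [NormedAddCommGroup E] [InnerProductSpace ℝ E] [FiniteDimensional ℝ E]
    (L : (Sp d →L[ℝ] V) →L[ℝ] E), 2 ≤ d → CEll L → ∃ J : ℕ,
    ∀ (M c0 ε : ℝ), 0 < ε → ε ≤ 1 → ∀ (b : Sp d → ℝ), BaseKer 2 M c0 b →
    ∀ (R0 γ K : ℝ), 200 + 8 * d ≤ R0 → 0 < γ → γ ≤ 1 / (32 * d) → 1 ≤ K →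
    ∃ (C κ : ℝ), 0 < C ∧ 0 < κ ∧ ∀ I : ℕ, ∃ C1 : ℝ, 0 < C1 ∧
      ∀ (R : ℝ), 2 ^ (I + 2) * R0 + 10 ≤ R → ∀ (n : ℕ) (u : Sp d → V), TF u →
      ∀ (x : ℕ → Sp d) (e : ℕ → E), Tower x e →
      ∀ a : ℝ, 0 < a → a = ma b ε R0 ((1 / 2) ^ n) (fo L u) n 0 →
      (∀ r : ℕ, ma b ε R0 ((1 / 2) ^ n) (fo L u) (n + r) (x r) ≤ K * (2 : ℝ) ^ (γ * r) * a) →
      ∀ (νs : ℕ → Sp d) (cs : ℕ → ℝ) (B D : ℝ), (∀ r, ‖νs r‖ = 1) →
        (∀ r, |ht (νs r) (cs r) (x r)| ≤ 4 * R0 * 2 ^ r) →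
        (2 : ℝ) ^ ((3 / 5 : ℝ) * I) * B ≤ κ * a →
        (∀ I : ℕ, ∑ r ∈ Finset.range I, wq (1 / 4) r *
          bD b ε R0 R ((1 / 2) ^ n) (fo L u) (n + r) (x r) (e r) (νs r) (cs r) ≤ B) →
        (∀ I : ℕ, ∑ r ∈ Finset.range I, wq (1 / 4) r *
          DD b ε R ((1 / 2) ^ n) (fo L u) (n + r) (x r) (e r) ≤ D) →
        ∃ (ν : ℕ → Sp d) (c ab : ℕ → ℝ), (∀ l, ‖ν l‖ = 1) ∧ |c 0| ≤ R0 + 5 ∧
          ∀ l ≤ I, a ≤ C * ab l ∧ ab l ≤ C * (2 : ℝ) ^ ((1 / 8 : ℝ) * l) * a ∧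
            a * ‖ν l - ν 0‖ ≤ C * (2 : ℝ) ^ ((3 / 4 : ℝ) * l) * (B + Real.sqrt (a * D)) + C1 * D ∧
            max 0 (blc (ν l) (c l)
              (fun y => 2 ^ l * ⟪fo L u (x l + (2 : ℝ) ^ l • y), e 0⟫_ℝ) R0) ≤
              C * (2 : ℝ) ^ ((3 / 4 : ℝ) * l) * B + C1 * D ∧
            Sheet J R0 (ab l) (C * (2 : ℝ) ^ ((3 / 4 : ℝ) * l) * (B + Real.sqrt (a * D)))
              (C1 * D) (fun y => 2 ^ l * ⟪fo L u (x l + (2 : ℝ) ^ l • y), e 0⟫_ℝ) (ν l) (c l)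

end

end TG


end

section

/-!
# Trace inequality, general operators: structured cells carry structure and sheets  (helper98)

The unit scale theorems ST2, FS, GS, ML, AB in the frames of the cells of Conc.lean.
No double quotes.
-/

open MeasureTheory Metric Set TrI
open scoped InnerProductSpace ContDiff ENNReal

namespace TG

noncomputable section

variable {d : ℕ}

/-- position of the cell P in the frame of Q -/
def tw (s0 : ℝ) (Q P : Cell d) : Sp d := (1 / lev s0 Q.1) • (xC s0 P - xC s0 Q)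

/-- MODULE FR1: growth and coherence give the structure theorem in the frame -/
def StmtFR1 : Prop :=
  ∀ (d : ℕ) (V E : Type) [NormedAddCommGroup V] [InnerProductSpace ℝ V] [FiniteDimensional ℝ V]
    [NormedAddCommGroup E] [InnerProductSpace ℝ E] [FiniteDimensional ℝ E] [Nontrivial E]
    (L : (Sp d →L[ℝ] V) →L[ℝ] E), 2 ≤ d → CEll L →
    ∀ (M c0 ε : ℝ), 0 < ε → ε ≤ 1 → ∀ (b : Sp d → ℝ), BaseKer 2 M c0 b →
    ∀ (γ K Rs : ℝ) (tol : ℕ → ℝ), 0 < γ → γ ≤ 1 / (8 * d) → 1 ≤ K → 1 ≤ Rs → (∀ J, 0 < tol J) →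
    ∃ (rm : ℕ) (R1 δ : ℝ), Rs + 3 ≤ R1 ∧ 0 < δ ∧
      ∀ R : ℝ, 2 * R1 + 2 * d + 20 ≤ R → ∀ u : Sp d → V, TF u → ∀ s0 : ℝ, 0 < s0 →
      ∀ e : Cell d → E, Dirs b ε R s0 (fo L u) e → ∀ (Q : Cell d) (a : ℝ), 0 ≤ a →
        (∀ i : ℕ, mT b ε s0 (fo L u) (up i Q) ≤ K * (2 : ℝ) ^ (γ * i) * a) →
        (∀ i : ℕ, dC b ε R s0 (fo L u) e (up i Q) ≤ δ * (2 : ℝ) ^ ((i : ℝ) / 8) * a) →
        ∃ (J r : ℕ) (ν : Fin r → Sp d) (κ : Fin r → Sp d → ℝ),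
          Str J rm R1 Rs (tol J) a (mQ s0 (fo L u) (e Q) Q) r ν κ

/-- the budget b + D summed over the ancestors with weights 2^(-i/4) -/
def bsh {E : Type} [NormedAddCommGroup E] [InnerProductSpace ℝ E] (b : Sp d → ℝ)
    (ε R0 R s0 : ℝ) (f : Sp d → E) (e : Cell d → E) (ν : Cell d → Sp d) (c : Cell d → ℝ)
    (Q : Cell d) : ℝ :=
  sh (fun P => bC R0 s0 f e ν c P + dC b ε R s0 f e P) Q

/-- the defects summed over the ancestors with weights 2^(-i/4) -/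
def dsh {E : Type} [NormedAddCommGroup E] [InnerProductSpace ℝ E] (b : Sp d → ℝ)
    (ε R s0 : ℝ) (f : Sp d → E) (e : Cell d → E) (Q : Cell d) : ℝ :=
  sh (fun P => dC b ε R s0 f e P) Q

/-- MODULE FR2: cells of type A carry a sheet, radius 64 R0 -/
def StmtFR2 : Prop :=
  ∀ (d : ℕ) (V E : Type) [NormedAddCommGroup V] [InnerProductSpace ℝ V] [FiniteDimensional ℝ V]
    [NormedAddCommGroup E] [InnerProductSpace ℝ E] [FiniteDimensional ℝ E] [Nontrivial E]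
    (L : (Sp d →L[ℝ] V) →L[ℝ] E), 2 ≤ d → CEll L → ∃ J : ℕ,
    ∀ (M c0 ε : ℝ), 0 < ε → ε ≤ 1 → ∀ (b : Sp d → ℝ), BaseKer 2 M c0 b →
    ∀ (R0 γ K : ℝ), 400 + 8 * d ≤ R0 → 0 < γ → γ ≤ 1 / (16 * d) → 1 ≤ K →
    ∃ (C κ : ℝ), 0 < C ∧ 0 < κ ∧
      ∀ R : ℝ, 300 * R0 ≤ R → ∀ u : Sp d → V, TF u → ∀ s0 : ℝ, 0 < s0 →
      ∀ e : Cell d → E, Dirs b ε R s0 (fo L u) e →
      ∀ (ν : Cell d → Sp d) (c : Cell d → ℝ), Plns R0 s0 (fo L u) e ν c →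
      ∀ (Q : Cell d) (a : ℝ), 0 < a → a = mC b ε (64 * R0) s0 (fo L u) Q →
        (∀ i : ℕ, mT b ε s0 (fo L u) (up i Q) ≤ K * (2 : ℝ) ^ (γ * i) * a) →
        bsh b ε R0 R s0 (fo L u) e ν c Q ≤ κ * a →
        ∃ (n : Sp d) (s ab : ℝ), ‖n‖ = 1 ∧ |s| ≤ 64 * R0 + 4 ∧ a ≤ C * ab ∧ ab ≤ C * a ∧
          max 0 (blc n s (mQ s0 (fo L u) (e Q) Q) (64 * R0)) ≤
            C * bsh b ε R0 R s0 (fo L u) e ν c Q ∧
          Sheet J (64 * R0) ab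
            (C * (bsh b ε R0 R s0 (fo L u) e ν c Q +
              Real.sqrt (a * dsh b ε R s0 (fo L u) e Q)))
            (C * dsh b ε R s0 (fo L u) e Q) (mQ s0 (fo L u) (e Q) Q) n s

/-- MODULE FR3: the sheets of two cells of nearby levels are close -/
def StmtFR3 : Prop :=
  ∀ (d J : ℕ), 2 ≤ d → ∀ (M c0 ε : ℝ), 0 < ε → ε ≤ 1 → ∀ (b : Sp d → ℝ), BaseKer 2 M c0 b →
  ∀ (R0 : ℝ) (i : ℕ), 400 + 8 * d ≤ R0 → ∃ (κ C : ℝ), 0 < κ ∧ 0 < C ∧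
    ∀ (E : Type) [NormedAddCommGroup E] [InnerProductSpace ℝ E] [FiniteDimensional ℝ E]
      (R : ℝ), 150 * R0 * 2 ^ i ≤ R → ∀ f : Sp d → E, Continuous f → HasCompactSupport f →
    ∀ s0 : ℝ, 0 < s0 → ∀ e : Cell d → E, Dirs b ε R s0 f e →
    ∀ (Q Q' : Cell d), Q'.1 = Q.1 + i → ‖xC s0 Q' - xC s0 Q‖ ≤ 4 * R0 * lev s0 Q'.1 →
    ∀ (n n' : Sp d) (s s' ab ab' ep ep' D D' Er : ℝ), 0 ≤ D → 0 ≤ D' →
      Sheet J (64 * R0) ab ep D (mQ s0 f (e Q) Q) n s →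
      Sheet J (64 * R0) ab' ep' D' (mQ s0 f (e Q') Q') n' s' →
      |s| ≤ 2 * R0 →
      ep + ep' + max 0 (blc n s (mQ s0 f (e Q) Q) (64 * R0)) +
        max 0 (blc n' s' (mQ s0 f (e Q') Q') (64 * R0)) + D + D' +
        dC b ε R s0 f e Q + dC b ε R s0 f e (up (i + 1) Q) ≤ Er → Er ≤ κ * ab →
      |ab - ab'| ≤ C * Er ∧ ∃ σ : ℝ, (σ = 1 ∨ σ = -1) ∧
        ab * (‖n - σ • n'‖ + |s - σ * (⟪n', tw s0 Q Q'⟫_ℝ + 2 ^ i * s')|) ≤ C * Er

/-- MODULE FR4: the A/B interface: for a cell of type A the sheet field and the Newton field give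
almost the same when tested with a matrix function supported in the cell -/
def StmtFR4 : Prop :=
  ∀ (d : ℕ) (V E : Type) [NormedAddCommGroup V] [InnerProductSpace ℝ V] [FiniteDimensional ℝ V]
    [NormedAddCommGroup E] [InnerProductSpace ℝ E] [FiniteDimensional ℝ E] [Nontrivial E]
    (L : (Sp d →L[ℝ] V) →L[ℝ] E), 2 ≤ d → CEll L → ∃ J0 : ℕ, ∀ J : ℕ, J0 ≤ J →
    ∀ (M c0 ε : ℝ), 0 < ε → ε ≤ 1 → ∀ (b : Sp d → ℝ), BaseKer (J + 10) M c0 b →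
    ∀ (R0 γ K : ℝ), 400 + 8 * d ≤ R0 → 0 < γ → γ ≤ 1 / (32 * d) → 1 ≤ K →
    ∃ (C κ : ℝ), 0 < C ∧ 0 < κ ∧ ∀ (I : ℕ) (RN : ℝ), 2 ^ I ≤ RN → ∃ (Rm C1 : ℝ), 0 < C1 ∧
      ∀ R : ℝ, Rm ≤ R → ∀ u : Sp d → V, TF u → ∀ s0 : ℝ, 0 < s0 →
      ∀ e : Cell d → E, Dirs b ε R s0 (fo L u) e →
      ∀ (ν : Cell d → Sp d) (c : Cell d → ℝ), Plns R0 s0 (fo L u) e ν c →
      ∀ (Q : Cell d) (a : ℝ), 0 < a → a = mC b ε (64 * R0) s0 (fo L u) Q →
        (∀ i : ℕ, mT b ε s0 (fo L u) (up i Q) ≤ K * (2 : ℝ) ^ (γ * i) * a) →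
        (2 : ℝ) ^ ((3 / 5 : ℝ) * I) * bsh b ε R0 R s0 (fo L u) e ν c Q ≤ κ * a →
      ∀ (n : Sp d) (s ab ep D : ℝ), 0 ≤ D → a ≤ K * ab → ab ≤ K * a → |s| ≤ 64 * R0 + 4 →
        Sheet J (64 * R0) ab ep D (mQ s0 (fo L u) (e Q) Q) n s →
      ∀ (Y : Fin d → Fin d → Sp d → ℝ) (N : ℝ), (∀ i j, TFn (J + 6) N (Y i j)) →
        (∀ i j y, (d : ℝ) ≤ ‖y‖ → Y i j y = 0) →
        |∫ y, mQ s0 (fo L u) (e Q) Q y * ((∑ i, ∑ j, n i * n j * Y i j y) - nt b RN Y y)| ≤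
          C * N * (bsh b ε R0 R s0 (fo L u) e ν c Q +
              Real.sqrt (a * dsh b ε R s0 (fo L u) e Q) + ep +
              max 0 (blc n s (mQ s0 (fo L u) (e Q) Q) (64 * R0)) + D)
            + C * N * (2 : ℝ) ^ (-(I : ℝ) * (1 - γ)) * a
            + C1 * N * dsh b ε R s0 (fo L u) e Q

end

end TG


end

section

/-!
# Trace inequality, general operators: the local inequalities (W1) - (W7)   (helper32)

All quantities are attached to the cells of Conc.lean; see BATCH13.md for the proofs and SEC_M.md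
for the bookkeeping.  Every statement StmtXX is proved as theorem stmtXX in Pool/Agent/TG/XX.lean,
with other statements as hypotheses if useful.  No double quotes.
-/

open MeasureTheory Metric Set TrI
open scoped InnerProductSpace ContDiff ENNReal

namespace TG

noncomputable section

variable {d : ℕ}

/-! ## Neighbourhoods -/

open Classical in
/-- the cells of the levels Q.1, ..., Q.1 + JA at distance at most r times their size -/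
def nst (s0 r : ℝ) (JA : ℕ) (Q : Cell d) : Finset (Cell d) :=
  ((Finset.range (JA + 1)).biUnion fun i => ({Q.1 + i} : Finset ℕ) ×ˢ
    Fintype.piFinset fun j =>
      Finset.Icc (Q.2 j / 2 ^ i - (⌈r⌉ + 1)) (Q.2 j / 2 ^ i + (⌈r⌉ + 1))).filter
    fun Q' => ‖xC s0 Q' - xC s0 Q‖ ≤ r * lev s0 Q'.1

/-- MODULE NS: membership, partition of unity on balls, scaling of the weights -/
def StmtNS : Prop :=
  ∀ (d : ℕ), 1 ≤ d → ∀ (s0 r : ℝ), 0 < s0 → 0 ≤ r → ∀ (JA : ℕ) (Q : Cell d),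
    (∀ Q' : Cell d, Q' ∈ nst s0 r JA Q ↔ ∃ i ≤ JA, Q'.1 = Q.1 + i ∧
      ‖xC s0 Q' - xC s0 Q‖ ≤ r * lev s0 Q'.1) ∧
    (∀ i ≤ JA, ∀ Q' : Cell d, Q'.1 = Q.1 + i →
      cw s0 Q' = (2 : ℝ) ^ (i * (d - 1)) * cw s0 Q ∧
      lev s0 Q'.1 = 2 ^ i * lev s0 Q.1 ∧
      (Q' ∈ nst s0 r JA Q ↔ ‖tw s0 Q Q'‖ ≤ r * 2 ^ i)) ∧
    (∀ i ≤ JA, ∀ y : Sp d, ‖y‖ ≤ (r - d) * 2 ^ i →
      ∑ Q' ∈ (nst s0 r JA Q).filter (fun Q' => Q'.1 = Q.1 + i),
        chi (((1 / 2 : ℝ) ^ i) • (y - tw s0 Q Q')) = 1) ∧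
    (∀ i ≤ JA, ∀ y : Sp d,
      ∑ Q' ∈ (nst s0 r JA Q).filter (fun Q' => Q'.1 = Q.1 + i),
        chi (((1 / 2 : ℝ) ^ i) • (y - tw s0 Q Q')) ≤ 1) ∧
    (∀ Q' : Cell d, Q'.1 = Q.1 → tw s0 Q Q' = dsp Q Q') ∧
    (∀ Q' ∈ adj Q, ‖tw s0 Q Q'‖ ≤ Real.sqrt d) ∧
    (∀ Q' : Cell d, Q'.1 = Q.1 → (∃ y : Sp d, chi y ≠ 0 ∧ chi (y - tw s0 Q Q') ≠ 0) →
      Q' ∈ adj Q) ∧
    (Real.sqrt d ≤ r → adj Q ⊆ nst s0 r JA Q)

/-- MODULE FM: change of frame.  Q' is a cell i levels above Q, x its position -/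
def StmtFM : Prop :=
  ∀ (d : ℕ), 2 ≤ d → ∀ (C' : ℝ), 0 < C' → ∀ (s0 : ℝ), 0 < s0 → ∀ (i : ℕ) (Q Q' : Cell d),
    Q'.1 = Q.1 + i → ∀ x : Sp d, x = tw s0 Q Q' →
    (∀ (E : Type) [NormedAddCommGroup E] [InnerProductSpace ℝ E] (f : Sp d → E) (e : E) (y : Sp d),
      mQ s0 f e Q' y = 2 ^ i * mQ s0 f e Q (x + (2 : ℝ) ^ i • y)) ∧
    (∀ (E : Type) [NormedAddCommGroup E] [InnerProductSpace ℝ E] (f : Sp d → E) (e : E)
      (ζ : Sp d → ℝ), Continuous f → HasCompactSupport f → Continuous ζ →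
      ∫ y, mQ s0 f e Q y * ζ y =
        (2 : ℝ) ^ (i * (d - 1)) * ∫ y, mQ s0 f e Q' y * ζ (x + (2 : ℝ) ^ i • y)) ∧
    (∀ (n : Sp d) (s : ℝ) (F : Sp d → ℝ), ‖n‖ = 1 → plInt n s F =
      (2 : ℝ) ^ (i * (d - 1)) * plInt n ((1 / 2 : ℝ) ^ i * (s - ⟪n, x⟫_ℝ))
        (fun y => F (x + (2 : ℝ) ^ i • y))) ∧
    ∀ μ : Measure (Sp d), Gro C' μ →
      Gro C' (muQ s0 μ Q) ∧ vv (muQ s0 μ Q) 1 0 = omC μ s0 Q ∧
      omC μ s0 Q' = vv (muQ s0 μ Q) (2 ^ i) x ∧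
      (∀ y, vv (muQ s0 μ Q') 1 y = vv (muQ s0 μ Q) (2 ^ i) (x + (2 : ℝ) ^ i • y)) ∧
      (∀ (M : ℝ) (β : Sp d → ℝ), Kit 2 M β → ∀ ε : ℝ, 0 < ε → ε ≤ 1 → ∀ (n y : Sp d),
        XX β ε (muQ s0 μ Q') n 1 y = XX β ε (muQ s0 μ Q) n (2 ^ i) (x + (2 : ℝ) ^ i • y) ∧
        GG β ε (muQ s0 μ Q') 1 y = GG β ε (muQ s0 μ Q) (2 ^ i) (x + (2 : ℝ) ^ i • y) ∧
        (i = 0 → WW β ε (muQ s0 μ Q') 1 y = WW β ε (muQ s0 μ Q) 1 (x + y)) ∧
        ∀ p0 A : ℝ, 0 < p0 → 0 < A →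
          qq A (muQ s0 μ Q') 1 y = qq A (muQ s0 μ Q) (2 ^ i) (x + (2 : ℝ) ^ i • y) ∧
          (i = 0 → Ups p0 A (muQ s0 μ Q') 1 y = Ups p0 A (muQ s0 μ Q) 1 (x + y)) ∧
          (i = 0 → ‖n‖ = 1 → Hn β ε p0 A (muQ s0 μ Q') n 1 y =
            Hn β ε p0 A (muQ s0 μ Q) n 1 (x + y)) ∧
          (i = 0 → ∀ k l : Fin d, HHm β ε p0 A (muQ s0 μ Q') k l y =
            HHm β ε p0 A (muQ s0 μ Q) k l (x + y)))

/-! ## The data of all cells -/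

/-- all data attached to the cells -/
structure Wld (d : ℕ) (E : Type) where
  /-- parameters of the fields -/
  X : Prm d
  /-- bottom scale -/
  s0 : ℝ
  /-- the measure -/
  μ : Measure (Sp d)
  /-- the field -/
  f : Sp d → E
  /-- directions -/
  e : Cell d → E
  /-- kinds: 0 sheet, 1 Newton, otherwise none -/
  kd : Cell d → ℕ
  /-- normals of the sheets -/
  nv : Cell d → Sp d
  /-- offsets of the sheets -/
  sv : Cell d → ℝ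
  /-- densities of the sheets -/
  ab : Cell d → ℝ
  /-- errors of the sheets -/
  er : Cell d → ℝ
  /-- defects of the sheets (long sums), constants included -/
  dl : Cell d → ℝ
  /-- defects (short sums), constants included -/
  D : Cell d → ℝ
  /-- masses -/
  a : Cell d → ℝ

namespace Wld

variable {E : Type} [NormedAddCommGroup E] [InnerProductSpace ℝ E]

/-- weight of a cell -/
def w (W : Wld d E) (Q : Cell d) : ℝ := cw W.s0 Q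

/-- the value of the potential -/
def v (W : Wld d E) (Q : Cell d) : ℝ := omC W.μ W.s0 Q

/-- the measure in the frame -/
def mu (W : Wld d E) (Q : Cell d) : Measure (Sp d) := muQ W.s0 W.μ Q

/-- the profile of the level -/
def be (W : Wld d E) (Q : Cell d) : Sp d → ℝ := bQ W.X.b Q

/-- the density in the frame, in the direction of the cell -/
def m (W : Wld d E) (Q : Cell d) : Sp d → ℝ := mQ W.s0 W.f (W.e Q) Q

/-- near cells -/
def Near (W : Wld d E) (Q : Cell d) : Prop :=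
  ∃ y : Sp d, chi y ≠ 0 ∧ W.X.p0 / 2 ≤ qq W.X.A (W.mu Q) 1 y

/-- sheet gain -/
def sg (W : Wld d E) (Q : Cell d) : ℝ :=
  W.ab Q * plInt (W.nv Q) (W.sv Q)
    (fun x => chi x * XX (W.be Q) W.X.ε (W.mu Q) (W.nv Q) 1 x)

/-- off-sheet mass of the cell times the potential -/
def bl (W : Wld d E) (Q : Cell d) : ℝ :=
  W.v Q * ∫ y, W.m Q y * (chi y * hgt (W.nv Q) (W.sv Q) y ^ 2)

/-- main contribution -/
def gam (W : Wld d E) (Q : Cell d) : ℝ := Gam W.X W.s0 W.μ W.f W.e W.kd W.nv Q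

/-- net contribution, weight included -/
def nt1 (W : Wld d E) (Q : Cell d) : ℝ := net W.X W.s0 W.μ W.f W.e W.kd W.nv Q

open Classical in
/-- the value of a cell -/
def val (W : Wld d E) (Q : Cell d) : ℝ :=
  if W.Near Q ∧ W.kd Q = 0 then W.sg Q + max 0 (W.bl Q)
  else if W.Near Q ∧ W.kd Q ≠ 1 then 0 else max 0 (W.gam Q)

/-- the neighbourhood of a cell used in all inequalities -/
def ns (W : Wld d E) (R0 : ℝ) (JA : ℕ) (Q : Cell d) : Finset (Cell d) := nst W.s0 (3 * R0) JA Q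

/-- sum of the values over the neighbourhood -/
def sV (W : Wld d E) (R0 : ℝ) (JA : ℕ) (Q : Cell d) : ℝ :=
  ∑ Q' ∈ W.ns R0 JA Q, W.w Q' * W.val Q'

/-- sum of the defects over the neighbourhood -/
def sD (W : Wld d E) (R0 : ℝ) (JA : ℕ) (Q : Cell d) : ℝ := ∑ Q' ∈ W.ns R0 JA Q, W.D Q'

open Classical in
/-- sum of the sheet errors over the neighbourhood, if there is a near cell in it -/
def sE (W : Wld d E) (R0 : ℝ) (JA : ℕ) (Q : Cell d) : ℝ :=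
  if ∃ Q' ∈ W.ns R0 JA Q, W.Near Q' then
    ∑ Q' ∈ W.ns R0 JA Q, (W.er Q' ^ 2 / W.ab Q' + W.dl Q') else 0

end Wld

section World

variable {E : Type} [NormedAddCommGroup E] [InnerProductSpace ℝ E]

/-- the parameters are admissible -/
structure XOK (J JA : ℕ) (M c0 C' c R0 : ℝ) (X : Prm d) : Prop where
  J_ge : 4 ≤ J
  C'_pos : 0 < C'
  prm : PrmOK M c0 X
  ker : BaseKer (J + 10) M c0 X.b
  far : FarK d (J + 10) M C' X.ε X.p0 X.A c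
  R0_ge : 4 * X.A + 8 * d + 400 ≤ R0
  JA_ge : 32 * X.A ≤ 2 ^ JA
  JA_7 : 7 ≤ JA

/-- standing hypotheses on the data -/
structure WOK (JA : ℕ) (C' R0 Rz : ℝ) (X : Prm d) (W : Wld d E) : Prop where
  X_eq : W.X = X
  s0_pos : 0 < W.s0
  gro : Gro C' W.μ
  fc : Continuous W.f
  fs : HasCompactSupport W.f
  eu : ∀ Q, ‖W.e Q‖ = 1
  nu : ∀ Q, ‖W.nv Q‖ = 1
  ab0 : ∀ Q, 0 ≤ W.ab Q
  D0 : ∀ Q, 0 ≤ W.D Q
  zp : ∀ Q, ZP Rz (W.D Q) (W.m Q)
  dir : ∀ Q, ∀ Q' ∈ W.ns R0 JA Q, ∀ (ζ : Sp d → ℝ) (N : ℝ), TFn 2 N ζ →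
    (∀ y, Rz ≤ ‖y‖ → ζ y = 0) →
    |∫ y, (mQ W.s0 W.f (W.e Q') Q y - mQ W.s0 W.f (W.e Q) Q y) * ζ y| ≤ N * W.D Q

/-- a cell with a sheet; the radius of all sheets is 64 R0 -/
structure WSh (J : ℕ) (R0 κ : ℝ) (W : Wld d E) (Q : Cell d) : Prop where
  sh : Sheet J (64 * R0) (W.ab Q) (W.er Q) (W.dl Q) (W.m Q) (W.nv Q) (W.sv Q)
  bl : blc (W.nv Q) (W.sv Q) (W.m Q) (64 * R0) ≤ W.er Q
  loc : |W.sv Q| ≤ 64 * R0 + 4
  dl0 : 0 ≤ W.dl Q
  small : W.er Q ≤ κ * W.ab Q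
  smalld : W.dl Q ≤ κ * W.ab Q

/-- a cell with the structure theorem and growth of the mass -/
structure WNw (K γ R1 Rs RM : ℝ) (rm : ℕ) (tol : ℕ → ℝ) (W : Wld d E) (Q : Cell d) : Prop where
  a0 : 0 ≤ W.a Q
  str : ∃ (J r : ℕ) (ν : Fin r → Sp d) (κ : Fin r → Sp d → ℝ),
    Str J rm R1 Rs (tol J) (W.a Q) (W.m Q) r ν κ
  mg : MG K γ RM (W.a Q) (W.D Q) (W.m Q)

/-- the interface inequality (FR4) with error EI -/
def WIf (J : ℕ) (W : Wld d E) (Q : Cell d) (EI : ℝ) : Prop :=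
  ∀ (Y : Fin d → Fin d → Sp d → ℝ) (N : ℝ), (∀ i j, TFn (J + 6) N (Y i j)) →
    (∀ i j y, (d : ℝ) ≤ ‖y‖ → Y i j y = 0) →
    |∫ y, W.m Q y * ((∑ i, ∑ j, W.nv Q i * W.nv Q j * Y i j y) - nt W.X.b W.X.RN Y y)| ≤ N * EI

end World

/-! ## Pair inequalities -/

/-- MODULE P1: the gain on the plane of Q inside a near cell Q' of level Q.1 + i, and the off-sheet
mass of Q inside a near cell of the same level; C does not depend on Kc -/
def StmtP1 : Prop :=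
  ∀ (d J JA : ℕ), 2 ≤ d → ∀ (M c0 C' c R0 : ℝ) (X : Prm d), XOK J JA M c0 C' c R0 X →
    ∃ C : ℝ, 0 < C ∧ ∀ Kc : ℝ, 1 ≤ Kc → ∃ (κ CK Rz : ℝ), 0 < κ ∧ 0 < CK ∧
    ∀ (E : Type) [NormedAddCommGroup E] [InnerProductSpace ℝ E] [FiniteDimensional ℝ E]
      (W : Wld d E), WOK JA C' R0 Rz X W → ∀ Q : Cell d, |W.sv Q| ≤ 32 * R0 + 4 →
      WSh J R0 κ W Q → ∀ Q' ∈ W.ns R0 JA Q, WSh J R0 κ W Q' → W.ab Q' ≤ Kc * W.ab Q →
      ∀ i : ℕ, Q'.1 = Q.1 + i →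
      -- the gain
      W.w Q * (W.ab Q * plInt (W.nv Q) (W.sv Q) (fun x =>
          chi (((1 / 2 : ℝ) ^ i) • (x - tw W.s0 Q Q')) *
            XX (W.be Q') W.X.ε (W.mu Q) (W.nv Q) (2 ^ i) x)) ≤
        C * (W.w Q' * W.sg Q') + CK * (W.w Q * W.v Q) * (W.er Q ^ 2 / W.ab Q +
          W.er Q' ^ 2 / W.ab Q' + W.dl Q + W.dl Q' + W.D Q + W.D Q') ∧
      -- the mass on the plane is seen by the mass in the cell
      W.w Q * (W.v Q * (W.ab Q * plInt (W.nv Q) (W.sv Q) (fun x =>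
          chi (((1 / 2 : ℝ) ^ i) • (x - tw W.s0 Q Q'))))) ≤
        C * (W.w Q' * W.v Q') * (∫ y, W.m Q' y * chi y) +
          CK * (W.w Q * W.v Q) *
            (W.er Q + W.er Q' + W.dl Q + W.dl Q' + W.D Q + W.D Q') ∧
      -- the off-sheet mass
      (i = 0 → W.w Q * (W.v Q * ∫ y, W.m Q y * (chi (y - tw W.s0 Q Q') *
          hgt (W.nv Q) (W.sv Q) y ^ 2)) ≤
        C * (W.w Q' * max 0 (W.bl Q')) + CK * (W.w Q * W.v Q) * (W.er Q ^ 2 / W.ab Q +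
          W.er Q' ^ 2 / W.ab Q' + W.dl Q + W.dl Q' + W.D Q + W.D Q')) ∧
      -- the tilt
      (∃ σ : ℝ, (σ = 1 ∨ σ = -1) ∧
        W.ab Q * ‖W.nv Q - σ • W.nv Q'‖ ≤
          CK * (W.er Q + W.er Q' + W.dl Q + W.dl Q' + W.D Q + W.D Q'))

/-- the profile of the level i above Q -/
def _root_.TG.Wld.bi {E : Type} (W : Wld d E) (Q : Cell d) (i : ℕ) : Sp d → ℝ :=
  KN W.X.b (Q.1 + i - 2)

/-- all cells of the neighbourhood of Q have sheets with small errors and comparable densities -/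
def Ash {E : Type} [NormedAddCommGroup E] [InnerProductSpace ℝ E] (J JA : ℕ) (R0 κ Kc : ℝ)
    (W : Wld d E) (Q : Cell d) : Prop :=
  |W.sv Q| ≤ 32 * R0 + 4 ∧ WSh J R0 κ W Q ∧
    ∀ Q' ∈ W.ns R0 JA Q, W.kd Q' = 0 ∧ WSh J R0 κ W Q' ∧ W.ab Q' ≤ Kc * W.ab Q

/-! ## The local inequalities -/

/-- MODULE W1: cells which are not near -/
def StmtW1 : Prop :=
  ∀ (d J JA : ℕ), 2 ≤ d → ∀ (M c0 C' c R0 : ℝ) (X : Prm d), XOK J JA M c0 C' c R0 X →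
    ∃ (C Rz : ℝ), 0 < C ∧
    ∀ (E : Type) [NormedAddCommGroup E] [InnerProductSpace ℝ E] [FiniteDimensional ℝ E]
      (W : Wld d E), WOK JA C' R0 Rz X W → ∀ Q : Cell d, ¬ W.Near Q →
      W.gam Q = (∫ y, W.m Q y * (chi y * GG (W.be Q) W.X.ε (W.mu Q) 1 y)) ∧
      W.nt1 Q = W.w Q * W.gam Q ∧
      (∀ Q' ∈ adj Q, Fct W.X W.s0 W.μ W.f W.e W.kd W.nv Q Q' = 0 ∧
        Fct W.X W.s0 W.μ W.f W.e W.kd W.nv Q' Q = 0) ∧
      W.w Q * W.val Q ≤ W.nt1 Q + C * (W.w Q * W.v Q) * W.D Q ∧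
      W.v Q * (∫ y, W.m Q y * chi y) ≤ C * W.val Q + C * W.v Q * W.D Q

/-- MODULE P3: case A2, a large gain on the sheet at some scale bounds the total sheet mass -/
def StmtP3 : Prop :=
  ∀ (d J JA : ℕ), 2 ≤ d → ∀ (M c0 C' c R0 : ℝ) (X : Prm d), XOK J JA M c0 C' c R0 X →
    ∃ C : ℝ, 0 < C ∧ ∀ (i0 Kc : ℝ), 0 < i0 → 1 ≤ Kc → ∃ (κ CK Rz : ℝ), 0 < κ ∧ 0 < CK ∧
    ∀ (E : Type) [NormedAddCommGroup E] [InnerProductSpace ℝ E] [FiniteDimensional ℝ E]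
      (W : Wld d E), WOK JA C' R0 Rz X W → ∀ Q : Cell d, Ash J JA R0 κ Kc W Q →
      ∀ (i : ℕ) (ρ : ℝ), i ≤ JA → 0 ≤ ρ → ρ + 1 ≤ (3 * R0 - d) * 2 ^ i →
      i0 * W.v Q ≤ plInt (W.nv Q) (W.sv Q)
        (fun x => zR ρ x * XX (W.bi Q i) W.X.ε (W.mu Q) (W.nv Q) (2 ^ i) x) →
      W.w Q * W.v Q * W.ab Q ≤ C / i0 * W.sV R0 JA Q + CK * (W.w Q * W.v Q) * W.sD R0 JA Q

/-- MODULE P4: the off-sheet mass in the ball R0 + 4, and the gain if it is small -/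
def StmtP4 : Prop :=
  ∀ (d J JA : ℕ), 2 ≤ d → ∀ (M c0 C' c R0 : ℝ) (X : Prm d), XOK J JA M c0 C' c R0 X →
    ∃ (C i0 : ℝ), 0 < C ∧ 0 < i0 ∧ ∀ Kc : ℝ, 1 ≤ Kc → ∃ (κ CK Rz : ℝ), 0 < κ ∧ 0 < CK ∧
    ∀ (E : Type) [NormedAddCommGroup E] [InnerProductSpace ℝ E] [FiniteDimensional ℝ E]
      (W : Wld d E), WOK JA C' R0 Rz X W → ∀ Q : Cell d, Ash J JA R0 κ Kc W Q →
      W.w Q * W.v Q * max 0 (blc (W.nv Q) (W.sv Q) (W.m Q) (R0 + 4)) ≤
        C * W.sV R0 JA Q + CK * (W.w Q * W.v Q) * (W.sE R0 JA Q + W.sD R0 JA Q) ∧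
      (plInt (W.nv Q) (W.sv Q)
          (fun x => zR (2 * R0 - 1) x * XX (W.be Q) W.X.ε (W.mu Q) (W.nv Q) 1 x) ≤
          i0 * W.v Q →
        W.w Q * (W.ab Q * plInt (W.nv Q) (W.sv Q)
          (fun x => zR R0 x * XX (W.be Q) W.X.ε (W.mu Q) (W.nv Q) 1 x)) ≤
        C * W.sV R0 JA Q + CK * (W.w Q * W.v Q) * (W.sE R0 JA Q + W.sD R0 JA Q))

/-- MODULE W2: near cells of type A whose neighbourhood is of type A -/
def StmtW2 : Prop :=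
  ∀ (d J JA : ℕ), 2 ≤ d → ∀ (M c0 C' c R0 : ℝ) (X : Prm d), XOK J JA M c0 C' c R0 X →
    ∃ c1 : ℝ, 0 < c1 ∧ ∀ (η Kc : ℝ), 0 < η → 1 ≤ Kc → ∃ (κ CK Rz : ℝ), 0 < κ ∧ 0 < CK ∧
    ∀ (E : Type) [NormedAddCommGroup E] [InnerProductSpace ℝ E] [FiniteDimensional ℝ E]
      (W : Wld d E), WOK JA C' R0 Rz X W → ∀ Q : Cell d, 2 ≤ Q.1 → W.Near Q →
      Ash J JA R0 κ Kc W Q →
      c1 * (W.w Q * W.val Q) ≤ W.nt1 Q + η * W.sV R0 JA Q +
        CK * (W.w Q * W.v Q) * (W.sE R0 JA Q + W.sD R0 JA Q)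

/-- MODULE W3: near cells of type B whose near neighbours are of type B -/
def StmtW3 : Prop :=
  ∀ (d J JA : ℕ), 2 ≤ d → ∀ (M c0 C' c R0 : ℝ) (X0 : Prm d), XOK J JA M c0 C' c R0 X0 →
    ∀ (K γ δ : ℝ), 0 < K → 0 < γ → γ ≤ 1 / (8 * d) → 0 < δ → ∃ RN0 : ℝ, 1 ≤ RN0 ∧
    ∀ RN : ℝ, RN0 ≤ RN → ∃ (Rs RM : ℝ) (tol : ℕ → ℝ), (∀ J, 0 < tol J) ∧ 1 ≤ Rs ∧
    ∀ (R1 : ℝ) (rm : ℕ), ∃ (C Rz : ℝ), 0 < C ∧
    ∀ (E : Type) [NormedAddCommGroup E] [InnerProductSpace ℝ E] [FiniteDimensional ℝ E]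
      (W : Wld d E), WOK JA C' R0 Rz { X0 with RN := RN } W → ∀ Q : Cell d, W.Near Q →
      W.kd Q = 1 → WNw K γ R1 Rs RM rm tol W Q →
      (∀ Q' ∈ adj Q, W.Near Q' → W.kd Q' = 1) →
      W.w Q * W.val Q ≤ W.nt1 Q + δ * (W.w Q * W.v Q) * W.a Q + C * (W.w Q * W.v Q) * W.D Q

/-- MODULE W4: near cells at the interface; EI are the errors of the interface inequality -/
def StmtW4 : Prop :=
  ∀ (d J JA : ℕ), 2 ≤ d → ∀ (M c0 C' c R0 : ℝ) (X0 : Prm d), XOK J JA M c0 C' c R0 X0 →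
    ∃ c1 : ℝ, 0 < c1 ∧ ∀ Kc : ℝ, 1 ≤ Kc → ∃ (κ C : ℝ), 0 < κ ∧ 0 < C ∧
    ∀ (K γ δ : ℝ), 0 < K → 0 < γ → γ ≤ 1 / (8 * d) → 0 < δ → ∃ RN0 : ℝ, 1 ≤ RN0 ∧
    ∀ RN : ℝ, RN0 ≤ RN → ∃ (Rs RM : ℝ) (tol : ℕ → ℝ), (∀ J, 0 < tol J) ∧ 1 ≤ Rs ∧
    ∀ (R1 : ℝ) (rm : ℕ), ∃ (C1 Rz : ℝ), 0 < C1 ∧
    ∀ (E : Type) [NormedAddCommGroup E] [InnerProductSpace ℝ E] [FiniteDimensional ℝ E]
      (W : Wld d E), WOK JA C' R0 Rz { X0 with RN := RN } W → ∀ Q : Cell d, W.Near Q →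
      (W.kd Q = 0 → |W.sv Q| ≤ 32 * R0 + 4) →
      (∀ Q' ∈ adj Q, W.kd Q' = 0 ∨ W.kd Q' = 1) →
      (∀ Q' ∈ adj Q, W.kd Q' = 1 → WNw K γ R1 Rs RM rm tol W Q') →
      ∀ EI : Cell d → ℝ, (∀ Q' ∈ adj Q, W.kd Q' = 0 → 0 ≤ EI Q' ∧ WSh J R0 κ W Q' ∧
        WIf J W Q' (EI Q') ∧ 0 ≤ W.a Q' ∧ MG K γ RM (W.a Q') (W.D Q') (W.m Q') ∧
        (W.kd Q = 0 → W.ab Q' ≤ Kc * W.ab Q)) →
      c1 * (W.w Q * W.val Q) ≤ W.nt1 Q +
        C * (W.w Q * W.v Q) * (∑ Q' ∈ (adj Q).filter (fun Q' => W.kd Q' = 0),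
          (W.er Q' + W.dl Q' + EI Q')) +
        δ * (W.w Q * W.v Q) * (∑ Q' ∈ adj Q, W.a Q') +
        C1 * (W.w Q * W.v Q) * ∑ Q' ∈ adj Q, W.D Q'

/-- MODULE W5: near cells, crude bound by the local mass al; used for weakly light and for
incoherent cells; C does not depend on K -/
def StmtW5 : Prop :=
  ∀ (d J JA : ℕ), 2 ≤ d → ∀ (M c0 C' c R0 : ℝ) (X0 : Prm d), XOK J JA M c0 C' c R0 X0 →
    ∃ (κ C : ℝ), 0 < κ ∧ 0 < C ∧
    ∀ (K γ δ : ℝ), 0 < K → 0 < γ → γ ≤ 1 / (8 * d) → 0 < δ → ∃ RN0 : ℝ, 1 ≤ RN0 ∧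
    ∀ RN : ℝ, RN0 ≤ RN → ∃ (Rs RM : ℝ) (tol : ℕ → ℝ), (∀ J, 0 < tol J) ∧ 1 ≤ Rs ∧
    ∀ (R1 : ℝ) (rm : ℕ), ∃ (C1 Rz : ℝ), 0 < C1 ∧
    ∀ (E : Type) [NormedAddCommGroup E] [InnerProductSpace ℝ E] [FiniteDimensional ℝ E]
      (W : Wld d E), WOK JA C' R0 Rz { X0 with RN := RN } W → ∀ Q : Cell d, W.Near Q →
      (W.kd Q = 0 → WSh J R0 κ W Q) →
      (∀ Q' ∈ adj Q, W.kd Q' = 1 → WNw K γ R1 Rs RM rm tol W Q') →
      ∀ al : ℝ, 0 ≤ al → (∀ (ζ : Sp d → ℝ) (N : ℝ), TFn 2 N ζ →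
        (∀ y, (d : ℝ) + 3 ≤ ‖y‖ → ζ y = 0) → |∫ y, W.m Q y * ζ y| ≤ N * al) →
      W.w Q * W.val Q ≤ W.nt1 Q + C * (W.w Q * W.v Q) * al +
        δ * (W.w Q * W.v Q) * (∑ Q' ∈ (adj Q).filter (fun Q' => W.kd Q' = 1), W.a Q') +
        C1 * (W.w Q * W.v Q) * ∑ Q' ∈ adj Q, W.D Q'

/-- MODULE WA6: the plane functional, type A -/
def StmtWA6 : Prop :=
  ∀ (d J JA : ℕ), 2 ≤ d → ∀ (M c0 C' c R0 : ℝ) (X : Prm d), XOK J JA M c0 C' c R0 X →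
    ∃ C : ℝ, 0 < C ∧ ∀ Kc : ℝ, 1 ≤ Kc → ∃ (κ CK Rz : ℝ), 0 < κ ∧ 0 < CK ∧
    ∀ (E : Type) [NormedAddCommGroup E] [InnerProductSpace ℝ E] [FiniteDimensional ℝ E]
      (W : Wld d E), WOK JA C' R0 Rz X W → ∀ Q : Cell d, Ash J JA R0 κ Kc W Q →
      W.w Q * W.v Q * bq R0 (W.m Q) ≤
        C * W.sV R0 JA Q + CK * (W.w Q * W.v Q) * (W.sE R0 JA Q + W.sD R0 JA Q)

/-- MODULE WA7: the functional Y, type A -/
def StmtWA7 : Prop :=
  ∀ (d J JA : ℕ), 2 ≤ d → ∀ (M c0 C' c R0 : ℝ) (X : Prm d), XOK J JA M c0 C' c R0 X →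
    ∀ (C3 Ct R2 : ℝ), 0 < C3 → 1 ≤ Ct → 8 * Ct ≤ R0 → 0 < R2 →
    ∃ C : ℝ, 0 < C ∧ ∀ Kc : ℝ, 1 ≤ Kc → ∃ (κ CK Rz : ℝ), 0 < κ ∧ 0 < CK ∧
    ∀ (E : Type) [NormedAddCommGroup E] [InnerProductSpace ℝ E] [FiniteDimensional ℝ E]
      (W : Wld d E), WOK JA C' R0 Rz X W → ∀ P : Cell d, 2 ≤ P.1 → Ash J JA R0 κ Kc W P →
      ∀ (at1 DT : ℝ) (n : Sp d) (s : ℝ), 0 ≤ at1 → 0 ≤ DT → ‖n‖ = 1 → |s| ≤ R2 →
      at1 ≤ C3 * (∫ y, W.m P y * zR Ct y) + DT →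
      W.w P * (at1 * Mo (W.mu P) n s 2 1 0) ≤ C * W.sV R0 JA P +
        C * (W.w P * W.v P) * max 0 (blc n s (W.m P) R0) +
        CK * (W.w P * W.v P) * (W.sE R0 JA P + W.sD R0 JA P + DT)

/-- MODULE B4: the functional Y controlled by the pieces -/
def StmtB4 : Prop :=
  ∀ (d J0 : ℕ), 2 ≤ d → 6 ≤ J0 → ∀ (M C' ε p0 A c R0 Ct R2 : ℝ),
    0 < C' → 0 < ε → ε ≤ 1 / 4 → FarK d J0 M C' ε p0 A c → 4 * A + 4 * d + 20 ≤ R0 →
    1 ≤ Ct → 8 * Ct ≤ R0 → 0 < R2 →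
    ∃ CB : ℝ, 0 < CB ∧ ∀ (δ Rs : ℝ), 0 < δ → 2 * R0 ≤ Rs →
    ∃ tol : ℕ → ℝ, (∀ J, 0 < tol J) ∧ ∀ (R1 : ℝ) (rm : ℕ), ∃ C : ℝ, 0 < C ∧
    ∀ β : Sp d → ℝ, Kit J0 M β → ∀ μ : Measure (Sp d), Gro C' μ →
    ∀ (m : Sp d → ℝ) (a D : ℝ) (J r : ℕ) (ν : Fin r → Sp d) (κ : Fin r → Sp d → ℝ),
      Continuous m → 0 ≤ a → 0 ≤ D → ZP R1 D m → Str J rm R1 Rs (tol J) a m r ν κ →
    ∀ (n : Sp d) (s : ℝ), ‖n‖ = 1 → |s| ≤ R2 →
      (∫ y, m y * zR Ct y) * Mo μ n s 2 1 0 ≤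
        CB * pieces m ν κ (fun n x => zR (2 * R0 - 1) x * Hn β ε p0 A μ n 1 x)
          + CB * vv μ 1 0 * (∫ y, m y * (zR R0 y * hgt n s y ^ 2))
          + δ * a * vv μ 1 0 + C * vv μ 1 0 * D

/-- MODULE WB6: the plane functional and the functional Y, type B.  The term with the masses is
present only if there is a near cell of the level of Q in the neighbourhood -/
def StmtWB6 : Prop :=
  ∀ (d J JA : ℕ), 2 ≤ d → ∀ (M c0 C' c R0 : ℝ) (X0 : Prm d), XOK J JA M c0 C' c R0 X0 →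
    ∀ (C3 Ct R2 : ℝ), 0 < C3 → 1 ≤ Ct → 8 * Ct ≤ R0 → 0 < R2 → ∃ C : ℝ, 0 < C ∧
    ∀ (K γ δ : ℝ), 0 < K → 0 < γ → γ ≤ 1 / (8 * d) → 0 < δ → ∃ RN0 : ℝ, 1 ≤ RN0 ∧
    ∀ RN : ℝ, RN0 ≤ RN → ∃ (Rs RM : ℝ) (tol : ℕ → ℝ), (∀ J, 0 < tol J) ∧ 1 ≤ Rs ∧
    ∀ (R1 : ℝ) (rm : ℕ), ∃ (C1 Rz : ℝ), 0 < C1 ∧
    ∀ (E : Type) [NormedAddCommGroup E] [InnerProductSpace ℝ E] [FiniteDimensional ℝ E]
      (W : Wld d E), WOK JA C' R0 Rz { X0 with RN := RN } W → ∀ Q : Cell d,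
      (∀ Q' ∈ W.ns R0 JA Q, Q'.1 = Q.1 → W.kd Q' = 1 ∧ WNw K γ R1 Rs RM rm tol W Q') →
      ∀ mass : ℝ, 0 ≤ mass → ((∃ Q' ∈ W.ns R0 JA Q, Q'.1 = Q.1 ∧ W.Near Q') →
        (∑ Q' ∈ (W.ns R0 JA Q).filter (fun Q' => Q'.1 = Q.1), W.a Q') ≤ mass) →
      W.w Q * W.v Q * bq R0 (W.m Q) ≤ C * W.sV R0 JA Q +
        δ * (W.w Q * W.v Q) * mass + C1 * (W.w Q * W.v Q) * W.sD R0 JA Q ∧
      ∀ (at1 DT : ℝ) (n : Sp d) (s : ℝ), 0 ≤ at1 → 0 ≤ DT → ‖n‖ = 1 → |s| ≤ R2 →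
      at1 ≤ C3 * (∫ y, W.m Q y * zR Ct y) + DT →
      W.w Q * (at1 * Mo (W.mu Q) n s 2 1 0) ≤ C * W.sV R0 JA Q +
        C * (W.w Q * W.v Q) * max 0 (blc n s (W.m Q) R0) +
        δ * (W.w Q * W.v Q) * mass + C1 * (W.w Q * W.v Q) * (W.sD R0 JA Q + DT)

end

end TG


end

section

/-! base lemmas for the tree of cells -/

open Set TrI
open scoped ENNReal

namespace TG

noncomputable section

variable {d : ℕ}

theorem mem_dn {i : ℕ} {P Q : Cell d} (h : i ≤ P.1) : Q ∈ dn i P ↔ up i Q = P := by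
  obtain ⟨k, p⟩ := P
  obtain ⟨l, q⟩ := Q
  simp only at h
  simp only [dn, up, Finset.mem_product, Finset.mem_singleton, Fintype.mem_piFinset,
    Finset.mem_Ico, Prod.mk.injEq]
  have h2 : (0 : ℤ) < 2 ^ i := by positivity
  constructor
  · rintro ⟨h3, h4⟩
    refine ⟨by omega, ?_⟩
    funext j
    have h5 := h4 j
    apply le_antisymm
    · have : q j / 2 ^ i < p j + 1 := by
        apply Int.ediv_lt_of_lt_mul h2
        nlinarith [h5.2]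
      omega
    · apply Int.le_ediv_of_mul_le h2
      nlinarith [h5.1]
  · rintro ⟨h3, h4⟩
    refine ⟨by omega, ?_⟩
    intro j
    have h5 : q j / 2 ^ i = p j := congrFun h4 j
    have h6 := Int.mul_ediv_add_emod (q j) (2 ^ i)
    have h7 := Int.emod_nonneg (q j) h2.ne'
    have h8 := Int.emod_lt_of_pos (q j) h2
    rw [h5] at h6
    constructor
    · linarith
    · rw [mul_add]; linarith

theorem up_fst (i : ℕ) (Q : Cell d) : (up i Q).1 = Q.1 + i := rfl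

theorem up_zero (Q : Cell d) : up 0 Q = Q := by
  obtain ⟨k, q⟩ := Q
  simp [up]

theorem up_up (i j : ℕ) (Q : Cell d) : up i (up j Q) = up (j + i) Q := by
  obtain ⟨k, q⟩ := Q
  simp only [up, Prod.mk.injEq]
  refine ⟨by omega, ?_⟩
  funext l
  rw [pow_add, Int.ediv_ediv_of_nonneg (by positivity)]

/-- fibres of up -/
theorem tsum_up (g : Cell d → ℝ≥0∞) (i : ℕ) :
    ∑' Q, g Q = ∑' P : Cell d, if i ≤ P.1 then ∑ Q ∈ dn i P, g Q else 0 := by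
  have h1 : ∀ Q, g Q = ∑' P : Cell d, if P = up i Q then g Q else 0 := by
    intro Q
    rw [tsum_ite_eq]
  calc ∑' Q, g Q = ∑' Q, ∑' P : Cell d, if P = up i Q then g Q else 0 := by
        apply tsum_congr; exact h1
    _ = ∑' P : Cell d, ∑' Q, if P = up i Q then g Q else 0 := ENNReal.tsum_comm
    _ = _ := by
        apply tsum_congr
        intro P
        by_cases hP : i ≤ P.1
        · rw [if_pos hP, tsum_eq_sum (s := dn i P)]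
          · apply Finset.sum_congr rfl
            intro Q hQ
            rw [if_pos ((mem_dn hP).1 hQ).symm]
          · intro Q hQ
            rw [if_neg]
            intro h
            exact hQ ((mem_dn hP).2 h.symm)
        · rw [if_neg hP]
          rw [ENNReal.tsum_eq_zero]
          intro Q
          rw [if_neg]
          intro h
          apply hP
          rw [h, up_fst]
          omega

theorem card_dn (i : ℕ) (P : Cell d) : (dn i P).card = (2 ^ i) ^ d := by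
  simp only [dn, Finset.card_product, Finset.card_singleton, one_mul, Fintype.card_piFinset,
    Int.card_Ico]
  have : ∀ j : Fin d, (2 ^ i * (P.2 j + 1) - 2 ^ i * P.2 j).toNat = 2 ^ i := by
    intro j
    have : (2 : ℤ) ^ i * (P.2 j + 1) - 2 ^ i * P.2 j = ((2 ^ i : ℕ) : ℤ) := by
      push_cast; ring
    rw [this, Int.toNat_natCast]
  simp [this]

theorem tsum_comp_up (g : Cell d → ℝ≥0∞) (i : ℕ) :
    ∑' Q, g (up i Q) ≤ ((2 ^ i) ^ d : ℕ) * ∑' P, g P := by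
  rw [tsum_up _ i, ← ENNReal.tsum_mul_left]
  apply ENNReal.tsum_le_tsum
  intro P
  split_ifs with h
  · rw [Finset.sum_congr rfl (g := fun _ => g P)]
    · rw [Finset.sum_const, card_dn, nsmul_eq_mul]
    · intro Q hQ
      rw [(mem_dn h).1 hQ]
  · exact zero_le

theorem cw_nonneg {s0 : ℝ} (h : 0 < s0) (Q : Cell d) : 0 ≤ cw s0 Q := by
  unfold cw lev; positivity

theorem cw_pos {s0 : ℝ} (h : 0 < s0) (Q : Cell d) : 0 < cw s0 Q := by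
  unfold cw lev; positivity

theorem cw_up {s0 : ℝ} (h : 0 < s0) (i : ℕ) (Q : Cell d) : cw s0 Q ≤ cw s0 (up i Q) := by
  unfold cw lev
  rw [up_fst]
  apply pow_le_pow_left₀ (by positivity)
  apply mul_le_mul_of_nonneg_left _ h.le
  exact pow_le_pow_right₀ (by norm_num) (by omega)

theorem cs_univ (F : Cell d → ℝ) : cs univ F = ∑' Q, ENNReal.ofReal (F Q) := by
  simp [cs]

theorem cs_le_univ (S : Set (Cell d)) (F : Cell d → ℝ) : cs S F ≤ cs univ F := by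
  rw [cs_univ]
  apply ENNReal.tsum_le_tsum
  intro Q
  by_cases h : Q ∈ S <;> simp [h]

theorem cs_mono {S : Set (Cell d)} {F F' : Cell d → ℝ} (h : ∀ Q ∈ S, F Q ≤ F' Q) :
    cs S F ≤ cs S F' := by
  apply ENNReal.tsum_le_tsum
  intro Q
  by_cases hQ : Q ∈ S
  · simp only [hQ, indicator_of_mem]
    exact ENNReal.ofReal_le_ofReal (h Q hQ)
  · simp [hQ]

theorem cs_subset {S S' : Set (Cell d)} (h : S ⊆ S') (F : Cell d → ℝ) : cs S F ≤ cs S' F := by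
  apply ENNReal.tsum_le_tsum
  intro Q
  by_cases hQ : Q ∈ S
  · simp [hQ, h hQ]
  · simp [hQ]

theorem cs_add {S : Set (Cell d)} {F F' : Cell d → ℝ} (h : ∀ Q ∈ S, 0 ≤ F Q)
    (h' : ∀ Q ∈ S, 0 ≤ F' Q) : cs S (fun Q => F Q + F' Q) = cs S F + cs S F' := by
  unfold cs
  rw [← ENNReal.tsum_add]
  apply tsum_congr
  intro Q
  by_cases hQ : Q ∈ S
  · simp only [hQ, indicator_of_mem]
    exact ENNReal.ofReal_add (h Q hQ) (h' Q hQ)
  · simp [hQ]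

theorem cs_mul {S : Set (Cell d)} {c : ℝ} (hc : 0 ≤ c) (F : Cell d → ℝ) :
    cs S (fun Q => c * F Q) = ENNReal.ofReal c * cs S F := by
  unfold cs
  rw [← ENNReal.tsum_mul_left]
  apply tsum_congr
  intro Q
  by_cases hQ : Q ∈ S
  · simp only [hQ, indicator_of_mem]
    exact ENNReal.ofReal_mul hc
  · simp [hQ]

theorem cs_union (S S' : Set (Cell d)) (F : Cell d → ℝ) : cs (S ∪ S') F ≤ cs S F + cs S' F := by
  unfold cs
  rw [← ENNReal.tsum_add]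
  apply ENNReal.tsum_le_tsum
  intro Q
  by_cases hQ : Q ∈ S
  · simp [hQ]
  · by_cases hQ' : Q ∈ S'
    · simp [hQ, hQ']
    · simp [hQ, hQ']

/-- geometric decay: sum over generations of terms r^i (c1 X + c2 (i+1) tot) -/
theorem gen_sum (r : ℝ) (hr : 0 < r) (hr1 : r < 1) : ∃ C : ℝ, 0 < C ∧ ∀ (X : ℝ≥0∞) (tot : ℝ)
    (T : ℕ → ℝ≥0∞), 0 ≤ tot →
    (∀ i : ℕ, T i ≤ ENNReal.ofReal (r ^ i) * (X + ENNReal.ofReal ((i + 1) * tot))) →
    ∑' i, T i ≤ ENNReal.ofReal C * X + ENNReal.ofReal (C * tot) := by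
  have hs1 : Summable (fun i : ℕ => r ^ i) := summable_geometric_of_lt_one hr.le hr1
  have hs2 : Summable (fun i : ℕ => r ^ i * ((i : ℝ) + 1)) := by
    have h1 : Summable (fun i : ℕ => (i : ℝ) * r ^ i) := by
      have := summable_pow_mul_geometric_of_norm_lt_one 1 (r := r)
        (by rw [Real.norm_eq_abs, abs_of_pos hr]; exact hr1)
      simpa using this
    have h2 : (fun i : ℕ => r ^ i * ((i : ℝ) + 1)) = fun i : ℕ => (i : ℝ) * r ^ i + r ^ i := by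
      funext i; ring
    rw [h2]
    exact h1.add hs1
  refine ⟨(∑' i : ℕ, r ^ i) + ∑' i : ℕ, r ^ i * ((i : ℝ) + 1), ?_, ?_⟩
  · have h1 : 0 < ∑' i : ℕ, r ^ i := by
      apply hs1.tsum_pos (fun i => by positivity) 0
      simp
    have h2 : 0 ≤ ∑' i : ℕ, r ^ i * ((i : ℝ) + 1) := tsum_nonneg (fun i => by positivity)
    linarith
  intro X tot T htot hT
  have hA : ∑' i, T i ≤ (∑' i, ENNReal.ofReal (r ^ i)) * X
      + ∑' i : ℕ, ENNReal.ofReal (r ^ i * ((i : ℝ) + 1)) * ENNReal.ofReal tot := by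
    rw [← ENNReal.tsum_mul_right, ← ENNReal.tsum_add]
    apply ENNReal.tsum_le_tsum
    intro i
    apply (hT i).trans
    rw [mul_add]
    refine add_le_add le_rfl ?_
    rw [← ENNReal.ofReal_mul (by positivity), ← ENNReal.ofReal_mul (by positivity)]
    apply ENNReal.ofReal_le_ofReal
    apply le_of_eq; ring
  apply hA.trans
  rw [ENNReal.tsum_mul_right, ← ENNReal.ofReal_tsum_of_nonneg (fun i => by positivity) hs1,
    ← ENNReal.ofReal_tsum_of_nonneg (fun i => by positivity) hs2,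
    ← ENNReal.ofReal_mul (tsum_nonneg (fun i => by positivity))]
  gcongr
  · have h2 : 0 ≤ ∑' i : ℕ, r ^ i * ((i : ℝ) + 1) := tsum_nonneg (fun i => by positivity)
    linarith
  · have h2 : 0 ≤ ∑' i : ℕ, r ^ i := tsum_nonneg (fun i => by positivity)
    linarith

end

end TG


end

section

/-!
# Module CT6: finiteness of the sums over the cells   (helper62)
-/

open MeasureTheory Metric Set TrI
open scoped InnerProductSpace ContDiff ENNReal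

namespace TG

noncomputable section

variable {d : ℕ}

namespace CT6

theorem lev_pos' {s0 : ℝ} (hs : 0 < s0) (k : ℕ) : 0 < lev s0 k := by
  unfold lev; positivity

theorem cw_mul_nw {s0 : ℝ} (hs : 0 < s0) (hd : 1 ≤ d) (Q : Cell d) : cw s0 Q * nw s0 Q = 1 := by
  have h := lev_pos' hs Q.1
  obtain ⟨d', rfl⟩ : ∃ d', d = d' + 1 := ⟨d - 1, by omega⟩
  unfold cw nw
  rw [Nat.add_sub_cancel, pow_succ]
  field_simp

theorem nw_le {s0 : ℝ} (hs : 0 < s0) (hd : 2 ≤ d) (Q : Cell d) :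
    nw s0 Q ≤ (1 / s0) ^ (d - 1) * (1 / 2) ^ Q.1 := by
  have h := lev_pos' hs Q.1
  have h1 : nw s0 Q = (1 / lev s0 Q.1) ^ (d - 1) := by
    obtain ⟨d', rfl⟩ : ∃ d', d = d' + 1 := ⟨d - 1, by omega⟩
    unfold nw
    rw [Nat.add_sub_cancel, pow_succ, one_div_pow]
    field_simp
  rw [h1]
  have h2 : 1 / lev s0 Q.1 = (1 / s0) * (1 / 2) ^ Q.1 := by
    unfold lev
    rw [one_div_pow]
    field_simp
  rw [h2, mul_pow]
  apply mul_le_mul_of_nonneg_left _ (by positivity)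
  rw [← pow_mul]
  apply pow_le_pow_of_le_one (by norm_num) (by norm_num)
  have : 1 ≤ d - 1 := by omega
  nlinarith

theorem nw_nonneg {s0 : ℝ} (hs : 0 < s0) (Q : Cell d) : 0 ≤ nw s0 Q := by
  have h := lev_pos' hs Q.1
  unfold nw; positivity

/-- the abstract form -/
theorem aux {s0 B1 B2 A q : ℝ} (hs : 0 < s0) (hd : 2 ≤ d) (hB1 : 0 ≤ B1) (hB2 : 0 ≤ B2)
    (hq0 : 0 ≤ q) (hq1 : q < 1) (F w : Cell d → ℝ)
    (hF0 : ∀ Q, 0 ≤ F Q) (hF1 : ∀ Q, F Q ≤ B1 * nw s0 Q)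
    (hF2 : ∀ Q, F Q ≠ 0 → ‖xC s0 Q‖ ≤ B2 * (1 + lev s0 Q.1)) (hw0 : ∀ Q, 0 ≤ w Q)
    (hw1 : ∀ Q, w Q ≤ A * q ^ Q.1) :
    cs univ (fun Q => cw s0 Q * F Q * w Q) < ⊤ := by
  classical
  set N : ℤ := ⌈B2 * (1 / s0 + 1)⌉ with hN
  set S : Finset (Fin d → ℤ) := Fintype.piFinset fun _ => Finset.Icc (-N) N with hS
  have hmem : ∀ Q : Cell d, F Q ≠ 0 → Q.2 ∈ S := by
    intro Q hQ
    have hl := lev_pos' hs Q.1
    have h1 := hF2 Q hQ
    rw [hS, Fintype.mem_piFinset]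
    intro j
    have h2 : |(Q.2 j : ℝ)| ≤ B2 * (1 / s0 + 1) := by
      have h3 : ‖xC s0 Q‖ = lev s0 Q.1 * ‖lat Q.2‖ := by
        unfold xC cen
        rw [norm_smul, Real.norm_of_nonneg hl.le]
      have h4 : |(Q.2 j : ℝ)| ≤ ‖lat Q.2‖ := by
        have := PiLp.norm_apply_le (p := 2) (lat Q.2) j
        simpa [lat] using this
      rw [h3] at h1
      have h5 : ‖lat Q.2‖ ≤ B2 * (1 / lev s0 Q.1 + 1) := by
        have h6 : B2 * (1 + lev s0 Q.1) = lev s0 Q.1 * (B2 * (1 / lev s0 Q.1 + 1)) := by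
          field_simp
        rw [h6] at h1
        exact le_of_mul_le_mul_left h1 hl
      have h7 : 1 / lev s0 Q.1 ≤ 1 / s0 := by
        apply one_div_le_one_div_of_le hs
        unfold lev
        exact le_mul_of_one_le_right hs.le (one_le_pow₀ (by norm_num))
      calc |(Q.2 j : ℝ)| ≤ B2 * (1 / lev s0 Q.1 + 1) := h4.trans h5
        _ ≤ _ := by apply mul_le_mul_of_nonneg_left _ hB2; linarith
    have h8 : |(Q.2 j : ℝ)| ≤ (N : ℝ) := h2.trans (Int.le_ceil _)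
    rw [Finset.mem_Icc]
    rw [abs_le] at h8
    exact ⟨by exact_mod_cast h8.1, by exact_mod_cast h8.2⟩
  have hbd : ∀ Q : Cell d, ENNReal.ofReal (cw s0 Q * F Q * w Q) ≤
      ENNReal.ofReal B1 * ENNReal.ofReal A * (ENNReal.ofReal q ^ Q.1 * if Q.2 ∈ S then 1 else 0) := by
    intro Q
    by_cases hQ : F Q = 0
    · rw [hQ]; simp
    · rw [if_pos (hmem Q hQ), mul_one, ← ENNReal.ofReal_pow hq0, ← ENNReal.ofReal_mul hB1]
      have hA : 0 ≤ A := by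
        by_contra hcon
        push Not at hcon
        have h1 := hw1 Q
        have h2 := hw0 Q
        have h3 : 0 ≤ q ^ Q.1 := by positivity
        have h4 := hw1 (0, Q.2)
        have h5 := hw0 (0, Q.2)
        simp only [pow_zero, mul_one] at h4
        linarith
      rw [← ENNReal.ofReal_mul (by positivity)]
      apply ENNReal.ofReal_le_ofReal
      have h1 : cw s0 Q * F Q ≤ B1 := by
        calc cw s0 Q * F Q ≤ cw s0 Q * (B1 * nw s0 Q) :=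
              mul_le_mul_of_nonneg_left (hF1 Q) (cw_nonneg hs Q)
          _ = B1 * (cw s0 Q * nw s0 Q) := by ring
          _ = B1 := by rw [cw_mul_nw hs (by omega), mul_one]
      calc cw s0 Q * F Q * w Q ≤ B1 * (A * q ^ Q.1) :=
            mul_le_mul h1 (hw1 Q) (hw0 Q) hB1
        _ = _ := by ring
  rw [cs_univ]
  refine lt_of_le_of_lt (ENNReal.tsum_le_tsum hbd) ?_
  rw [ENNReal.tsum_mul_left, ENNReal.tsum_prod (f := fun (k : ℕ) (p : Fin d → ℤ) =>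
    ENNReal.ofReal q ^ k * if p ∈ S then 1 else 0)]
  simp only [ENNReal.tsum_mul_left, ENNReal.tsum_mul_right]
  have h1 : ∑' p : Fin d → ℤ, (if p ∈ S then (1 : ℝ≥0∞) else 0) = (S.card : ℝ≥0∞) := by
    rw [tsum_eq_sum (s := S)]
    · rw [Finset.sum_congr rfl (g := fun _ => (1 : ℝ≥0∞))]
      · simp
      · intro p hp; rw [if_pos hp]
    · intro p hp; rw [if_neg hp]
  rw [h1, ENNReal.tsum_geometric]
  apply ENNReal.mul_lt_top (ENNReal.mul_lt_top ENNReal.ofReal_lt_top ENNReal.ofReal_lt_top)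
  apply ENNReal.mul_lt_top _ (by simp)
  rw [ENNReal.inv_lt_top]
  rw [tsub_pos_iff_lt]
  exact ENNReal.ofReal_lt_one.2 hq1

theorem kk_le (t : ℝ) (ht : 0 < t) (x : Sp d) : kk t x ≤ t / t ^ d := by
  unfold kk
  apply div_le_div_of_nonneg_left ht.le (by positivity)
  apply pow_le_pow_left₀ ht.le
  apply Real.le_sqrt_of_sq_le
  nlinarith [sq_nonneg ‖x‖]

theorem kk_nonneg' (t : ℝ) (ht : 0 < t) (x : Sp d) : 0 ≤ kk t x := by
  unfold kk; positivity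

theorem th_le (μ : Measure (Sp d)) [IsFiniteMeasure μ] (t : ℝ) (ht : 0 < t) (x : Sp d) :
    th μ t x ≤ t / t ^ d * (μ univ).toReal := by
  unfold th
  have h1 : ∀ η, ‖kk t (x - η)‖ ≤ t / t ^ d := by
    intro η
    rw [Real.norm_of_nonneg (kk_nonneg' t ht _)]
    exact kk_le t ht _
  have h2 := norm_integral_le_of_norm_le_const (μ := μ) (Filter.Eventually.of_forall h1)
  calc ∫ η, kk t (x - η) ∂μ ≤ ‖∫ η, kk t (x - η) ∂μ‖ := Real.le_norm_self _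
    _ ≤ _ := h2

/-- bound of the weights -/
theorem sqrt_le {s0 m : ℝ} (hs : 0 < s0) (hd : 2 ≤ d) (hm : 0 ≤ m) (Q : Cell d) :
    Real.sqrt (nw s0 Q * m) ≤
      Real.sqrt ((1 / s0) ^ (d - 1) * m) * Real.sqrt (1 / 2) ^ Q.1 := by
  have h1 : Real.sqrt (1 / 2 : ℝ) ^ Q.1 = Real.sqrt ((1 / 2) ^ Q.1) := by
    rw [Real.sqrt_eq_rpow, Real.sqrt_eq_rpow, ← Real.rpow_natCast, ← Real.rpow_natCast,
      ← Real.rpow_mul (by norm_num), ← Real.rpow_mul (by norm_num), mul_comm]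
  rw [h1, ← Real.sqrt_mul (by positivity)]
  apply Real.sqrt_le_sqrt
  have := mul_le_mul_of_nonneg_right (nw_le hs hd Q) hm
  linarith [this]

end CT6

open _root_.TG.CT6

/-- module CT6 -/
theorem stmtCT6 : StmtCT6 := by
  intro d hd C' ρ _ _ μ hμ s0 hs F B1 B2 hB1 hB2 hF0 hF1 hF2
  have := hμ.fin
  have hm : 0 ≤ (μ univ).toReal := ENNReal.toReal_nonneg
  have hq : Real.sqrt (1 / 2) < 1 := by
    rw [Real.sqrt_lt' one_pos]; norm_num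
  constructor
  · apply aux (A := Real.sqrt ((1 / s0) ^ (d - 1) * (μ univ).toReal)) (q := Real.sqrt (1 / 2))
      hs hd hB1 hB2 (Real.sqrt_nonneg _) hq F (oC μ ρ s0) hF0 hF1 hF2
    · intro Q; exact Real.sqrt_nonneg _
    · intro Q
      refine le_trans ?_ (sqrt_le hs hd hm Q)
      unfold oC
      apply Real.sqrt_le_sqrt
      apply mul_le_mul_of_nonneg_left _ (nw_nonneg hs Q)
      exact ENNReal.toReal_mono (measure_ne_top μ _) (measure_mono (subset_univ _))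
  · apply aux (A := Real.sqrt ((1 / s0) ^ (d - 1) * (μ univ).toReal)) (q := Real.sqrt (1 / 2))
      hs hd hB1 hB2 (Real.sqrt_nonneg _) hq F (omC μ s0) hF0 hF1 hF2
    · intro Q; exact Real.sqrt_nonneg _
    · intro Q
      refine le_trans ?_ (sqrt_le hs hd hm Q)
      unfold omC vv
      apply Real.sqrt_le_sqrt
      exact th_le μ _ (lev_pos' hs _) _

end

end TG


end

section

/-!
# Trace inequality, general operators: light cells below a flat top   (helper46)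

Section 14' of SEC14_17.md, (III.1) - (III.4), in the vocabulary of Conc.lean.  The result has the
form of the last hypothesis of StmtLT.  Radii: R0 for b, 64 R0 for a, 32 R0 for ah, R0 + 3 for al,
m0 = 9, tops P, the plane of P is the minimal plane of up 9 P.  No double quotes.
-/

open MeasureTheory Metric Set TrI
open scoped InnerProductSpace ContDiff ENNReal

namespace TG

noncomputable section

variable {d : ℕ}

/-- MODULE T1 (III.1): uniform sheet.  Here cu does not depend on n0 -/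
def StmtT1 : Prop :=
  ∀ (d : ℕ) (V E : Type) [NormedAddCommGroup V] [InnerProductSpace ℝ V] [FiniteDimensional ℝ V]
    [NormedAddCommGroup E] [InnerProductSpace ℝ E] [FiniteDimensional ℝ E] [Nontrivial E]
    (L : (Sp d →L[ℝ] V) →L[ℝ] E), 2 ≤ d → CEll L →
    ∀ (M c0 ε : ℝ), 0 < ε → ε ≤ 1 → ∀ (b : Sp d → ℝ), BaseKer 2 M c0 b →
    ∀ (Rt R0 γ : ℝ), 1 ≤ Rt → 400 + 8 * d ≤ R0 → 8 * Rt ≤ R0 → 0 < γ → γ ≤ 1 / (8 * d) →
    ∃ cu : ℝ, 0 < cu ∧ ∀ n0 : ℕ, ∃ (κ δ Rm : ℝ), 0 < κ ∧ 0 < δ ∧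
      ∀ R : ℝ, Rm ≤ R → ∀ u : Sp d → V, TF u → ∀ s0 : ℝ, 0 < s0 →
      ∀ e : Cell d → E, Dirs b ε R s0 (fo L u) e →
      ∀ (ν : Cell d → Sp d) (c : Cell d → ℝ), Plns R0 s0 (fo L u) e ν c →
      ∀ P : Cell d, 0 < mT b ε s0 (fo L u) P →
        (∀ l : ℕ, mT b ε s0 (fo L u) (up l P) ≤ (2 : ℝ) ^ (γ * l) * mT b ε s0 (fo L u) P) →
        mT b ε s0 (fo L u) P ≤ 4 * mC b ε Rt s0 (fo L u) P →
        (∀ l : ℕ, dC b ε R s0 (fo L u) e (up l P) ≤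
          δ * (2 : ℝ) ^ ((l : ℝ) / 8) * mT b ε s0 (fo L u) P) →
        bC R0 s0 (fo L u) e ν c (up 9 P) ≤ κ * mT b ε s0 (fo L u) P →
      ∀ y : Sp d, ht (ν (up 9 P)) (c (up 9 P)) y = 0 →
        ‖y - xC s0 P‖ ≤ 64 * R0 * lev s0 P.1 → ∀ i ≤ n0, i ≤ P.1 →
        cu * mT b ε s0 (fo L u) P ≤ lev s0 (P.1 - i) / lev s0 (P.1 - i) ^ d *
          ∫ z in ball y (16 * R0 * lev s0 (P.1 - i)), ‖fl b ε s0 (fo L u) (P.1 - i - 1) z‖

/-- the quantity Y_P: second moment of the posterior distribution over the plane of up 9 P -/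
def YC {E : Type} [NormedAddCommGroup E] [InnerProductSpace ℝ E] (b : Sp d → ℝ) (ε s0 : ℝ)
    (f : Sp d → E) (μ : Measure (Sp d)) (ν : Cell d → Sp d) (c : Cell d → ℝ) (P : Cell d) : ℝ :=
  mT b ε s0 f P * Mo (muQ s0 μ P) (ν (up 9 P))
    ((c (up 9 P) - ⟪ν (up 9 P), xC s0 P⟫_ℝ) / lev s0 P.1) 2 1 0

/-- MODULE T2 (III.2) - (III.4), from T1 and CT3 -/
def StmtT2 : Prop :=
  ∀ (d : ℕ) (V E : Type) [NormedAddCommGroup V] [InnerProductSpace ℝ V] [FiniteDimensional ℝ V]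
    [NormedAddCommGroup E] [InnerProductSpace ℝ E] [FiniteDimensional ℝ E] [Nontrivial E]
    (L : (Sp d →L[ℝ] V) →L[ℝ] E), 2 ≤ d → CEll L → ∃ Rt : ℝ, 1 ≤ Rt ∧
    ∀ (M c0 ε : ℝ), 0 < ε → ε ≤ 1 → ∀ (b : Sp d → ℝ), BaseKer 2 M c0 b →
    ∀ (C' R0 γ ρ : ℝ), 0 < C' → 400 + 8 * d ≤ R0 → 8 * Rt ≤ R0 → 0 < γ → γ ≤ 1 / (8 * d) →
      1 ≤ ρ → 8 * ρ ≤ R0 →
    ∃ (C1 κ θ δ Rm : ℝ), 0 < C1 ∧ 0 < κ ∧ 0 < θ ∧ 0 < δ ∧
      ∀ R : ℝ, Rm ≤ R → ∀ u : Sp d → V, TF u → ∀ μ : Measure (Sp d), Gro C' μ →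
      ∀ s0 : ℝ, 0 < s0 → ∀ e : Cell d → E, Dirs b ε R s0 (fo L u) e →
      ∀ (ν : Cell d → Sp d) (c : Cell d → ℝ), Plns R0 s0 (fo L u) e ν c →
      ∀ (κ' θ' δ' : ℝ), κ' ≤ κ → θ' ≤ θ → δ' ≤ δ →
      ∀ P ∈ CIII γ κ' δ' 9 (mT b ε s0 (fo L u)) (dC b ε R s0 (fo L u) e)
          (bC R0 s0 (fo L u) e ν c) (tG b ε s0 (fo L u)),
        ∀ (i : ℕ) (S : Finset (Cell d)), i ≤ P.1 → S ⊆ dn i P →
        (∀ Q ∈ S, Top γ θ' (mC b ε (32 * R0) s0 (fo L u)) (mT b ε s0 (fo L u)) i Q) →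
        ∑ Q ∈ S, cw s0 Q * mC b ε (R0 + 3) s0 (fo L u) Q ≤
          C1 * (cw s0 P * (bC R0 s0 (fo L u) e ν c (up 9 P) +
            dC b ε R s0 (fo L u) e (up 9 P)) + gC b ε (128 * R0) s0 (fo L u) i P) ∧
        mT b ε s0 (fo L u) P * ∑ Q ∈ S, cw s0 Q * oC μ ρ s0 Q ^ 2 ≤
          C1 * (cw s0 P * omC μ s0 P * YC b ε s0 (fo L u) μ ν c P)

end

end TG


end

section

/-!
# Trace inequality, general operators: types of cells and the summation (M_j), abstract part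

Problem MP_287c87_an, sections 4', 17' of SEC14_17.md and SEC_M.md.  Nonnegative numbers indexed by
cells, no analysis.
-/

open Set TrI
open scoped ENNReal Classical

namespace TG

noncomputable section

variable {d : ℕ}

/-- box neighbourhood: levels k, ..., k + J, lattice distance at most ρ -/
def box (J ρ : ℕ) (Q : Cell d) : Finset (Cell d) :=
  (Finset.range (J + 1)).biUnion fun i => ({Q.1 + i} : Finset ℕ) ×ˢ
    Fintype.piFinset fun j => Finset.Icc (Q.2 j / 2 ^ i - ρ) (Q.2 j / 2 ^ i + ρ)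

/-- structured cells: not light and coherent -/
def Strc (γ K d0 : ℝ) (a at' D : Cell d → ℝ) : Set (Cell d) :=
  {Q | 0 < a Q ∧ (∀ l : ℕ, at' (up l Q) ≤ K * (2 : ℝ) ^ (γ * l) * a Q) ∧
    ∀ l : ℕ, D (up l Q) ≤ d0 * (2 : ℝ) ^ ((l : ℝ) / 8) * a Q}

/-- solid cells: not weakly light and coherent with the constant d1 -/
def Solid (γ θ d1 : ℝ) (a ah at' D : Cell d → ℝ) : Set (Cell d) :=
  {Q | Q ∉ WL γ θ ah at' ∧ ∀ l : ℕ, D (up l Q) ≤ d1 * (2 : ℝ) ^ ((l : ℝ) / 8) * a Q}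

/-- incoherent cells: not weakly light and not solid -/
def Inc (γ θ d1 : ℝ) (a ah at' D : Cell d → ℝ) : Set (Cell d) :=
  {Q | Q ∉ WL γ θ ah at' ∧ ∃ l : ℕ, d1 * (2 : ℝ) ^ ((l : ℝ) / 8) * a Q < D (up l Q)}

/-- type A at the threshold κ: sum of 2^(-i/4) (b + D) at the ancestors is at most κ a -/
def TyA (κ : ℝ) (a D b : Cell d → ℝ) : Set (Cell d) := {Q | sh b Q + sh D Q ≤ κ * a Q}

/-- interior cells at the threshold κ: all cells of the neighbourhood have the same type -/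
def Intr (κ : ℝ) (a D b : Cell d → ℝ) (nb : Cell d → Finset (Cell d)) : Set (Cell d) :=
  {Q | (∀ Q' ∈ nb Q, Q' ∈ TyA κ a D b) ∨ ∀ Q' ∈ nb Q, Q' ∉ TyA κ a D b}

/-- robustness of the cell functions in the neighbourhood nb; J = number of levels, e = shift -/
structure Rob (C1 : ℝ) (J e : ℕ) (nb : Cell d → Finset (Cell d)) (a ah at' D b : Cell d → ℝ) :
    Prop where
  C1_one : 1 ≤ C1
  self : ∀ Q, Q ∈ nb Q
  lev : ∀ Q, ∀ Q' ∈ nb Q, Q.1 ≤ Q'.1 ∧ Q'.1 ≤ Q.1 + J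
  a_nonneg : ∀ Q, 0 ≤ a Q
  D_nonneg : ∀ Q, 0 ≤ D Q
  b_nonneg : ∀ Q, 0 ≤ b Q
  at_nonneg : ∀ Q, 0 ≤ at' Q
  at_bd : ∃ B, ∀ Q, at' Q ≤ B
  D_bd : ∃ B, ∀ Q, D Q ≤ B
  b_bd : ∃ B, ∀ Q, b Q ≤ B
  ah_le : ∀ Q, ah Q ≤ a Q
  a_le : ∀ Q, a Q ≤ C1 * at' Q
  at1 : ∀ Q, ∀ Q' ∈ nb Q, ∀ l : ℕ, at' (up l Q') ≤ C1 * at' (up (Q'.1 - Q.1 + l) Q)
  D1 : ∀ Q, ∀ Q' ∈ nb Q, ∀ l : ℕ, D (up l Q') ≤ C1 * D (up (Q'.1 - Q.1 + l + e) Q)
  D2 : ∀ Q, ∀ Q' ∈ nb Q, ∀ l : ℕ, D (up l Q) ≤ C1 * D (up (l + e) Q')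
  m1 : ∀ Q, ∀ Q' ∈ nb Q, ah Q ≤ C1 * (a Q' + D (up (J + e) Q))
  b1 : ∀ Q, ∀ Q' ∈ nb Q, ∀ l : ℕ, b (up l Q') ≤
    C1 * (b (up (Q'.1 - Q.1 + l + e) Q) + D (up (Q'.1 - Q.1 + l + e) Q) + D (up l Q'))
  b2 : ∀ Q, ∀ Q' ∈ nb Q, ∀ l : ℕ, b (up l Q) ≤
    C1 * (b (up (l + e) Q') + D (up (l + e) Q') + D (up l Q))

/-- MODULE TY: types of cells -/
def StmtTY : Prop :=
  ∀ (C1 : ℝ) (J e : ℕ), ∃ Cθ : ℝ, 1 ≤ Cθ ∧ ∀ θ : ℝ, 0 < θ → θ ≤ 1 →
    ∃ (C : ℝ) (nI : ℕ), 0 < C ∧ ∀ K : ℝ, Cθ / θ ≤ K →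
    ∀ d0 : ℝ, 0 < d0 → d0 ≤ 1 → ∃ d1 : ℝ, 0 < d1 ∧ d1 ≤ d0 ∧
    ∀ (d : ℕ) (γ : ℝ), 0 < γ → γ ≤ 1 / 8 →
    ∀ (nb : Cell d → Finset (Cell d)) (a ah at' D b : Cell d → ℝ),
      Rob C1 J e nb a ah at' D b →
      (∀ Q, Q ∉ WL γ θ ah at' → 0 < ah Q ∧
        ∀ l : ℕ, θ * at' (up l Q) ≤ (2 : ℝ) ^ (γ * l) * ah Q) ∧
      (∀ Q ∈ Solid γ θ d1 a ah at' D, ∀ Q' ∈ nb Q,
        Q' ∈ Strc γ K d0 a at' D ∧ a Q' ≤ C * a Q ∧ a Q ≤ C * a Q' ∧
        sh b Q' + sh D Q' ≤ C * (sh b Q + sh D Q) ∧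
        sh b Q + sh D Q ≤ C * (sh b Q' + sh D Q')) ∧
      (∀ κ0 : ℝ, 0 < κ0 → ∀ n : ℕ, ∀ Q ∈ Solid γ θ d1 a ah at' D,
        {j | j < n ∧ Q ∉ Intr (κ0 * (1 / 2) ^ j) a D b nb}.ncard ≤ nI) ∧
      (∀ κ δ : ℝ, ∀ m : ℕ, ∀ (TG : Cell d → ℝ) (Ct : ℝ), 1 ≤ Ct → 2 * Ct * δ ≤ 1 → Ct * δ ≤ d1 / 4 →
        θ * (4 * Ct) ≤ 1 →
        (∀ P, (∀ l : ℕ, at' (up l P) ≤ (2 : ℝ) ^ (γ * l) * at' P) → at' P ≤ Ct * (ah P + TG P)) →
        CIII γ κ δ m at' D b TG ⊆ Solid γ θ d1 a ah at' D)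

/-- MODULE MJ: summation of the local inequalities (P), (Q1), (Q2) -/
def StmtMJ : Prop :=
  ∀ (d J ρ : ℕ) (C1 c0 : ℝ), 1 ≤ d → 0 < C1 → 0 < c0 → ∃ (η1 C : ℝ), 0 < η1 ∧ 0 < C ∧
    ∀ (η2 CK Cs : ℝ), 0 ≤ η2 → 0 ≤ CK → 0 ≤ Cs → ∃ C' : ℝ, 0 < C' ∧
    ∀ (s0 tot : ℝ) (nb : Cell d → Finset (Cell d))
      (N val cost sB pay iF fx fb : Cell d → ℝ) (S3 S4 : Set (Cell d)),
      0 < s0 → 0 ≤ tot → (∀ Q, nb Q ⊆ box J ρ Q) →
      (∀ Q, 0 ≤ val Q) → (∀ Q, 0 ≤ cost Q) → (∀ Q, 0 ≤ sB Q) → (∀ Q, 0 ≤ pay Q) →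
      (∀ Q, 0 ≤ iF Q) →
      (∀ Q, c0 * (cw s0 Q * val Q) ≤ N Q + cw s0 Q * ∑ Q' ∈ nb Q, (η1 * val Q' + C1 * cost Q'
        + η2 * sB Q' + CK * iF Q' + Cs * pay Q')) →
      Summable N → ∑' Q, N Q ≤ Cs * tot →
      (∀ Q ∈ S3, fx Q ≤ ∑ Q' ∈ nb Q, (C1 * val Q' + C1 * cost Q' + η2 * sB Q' + CK * iF Q'
        + Cs * pay Q')) →
      (∀ Q ∈ S4, fb Q ≤ ∑ Q' ∈ nb Q, (C1 * val Q' + C1 * cost Q' + η2 * sB Q' + CK * iF Q'
        + Cs * pay Q')) →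
      cs univ (fun Q => cw s0 Q * pay Q) ≤ ENNReal.ofReal (Cs * tot) →
      cs univ (fun Q => cw s0 Q * val Q) < ∞ →
      cs S3 (fun Q => cw s0 Q * fx Q) + cs S4 (fun Q => cw s0 Q * fb Q) ≤
        ENNReal.ofReal (C' * tot) + ENNReal.ofReal (C * η2) * cs univ (fun Q => cw s0 Q * sB Q)
          + ENNReal.ofReal (C * CK) * cs univ (fun Q => cw s0 Q * iF Q)
          + ENNReal.ofReal C * cs univ (fun Q => cw s0 Q * cost Q)

end

end TG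


end

section

/-!
# Trace inequality, general operators: the W-inequalities as inequalities between numbers (helper47)

Structure LocW collects W1, W2, W3, W4, W5, WA6, WB6, WA7 in terms of numbers attached to the
cells; StmtLW says that the world exists and satisfies LocW.  No double quotes.
-/

open MeasureTheory Metric Set TrI
open scoped InnerProductSpace ContDiff ENNReal

namespace TG

noncomputable section

variable {d : ℕ}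

/-- short sum of the defects of the ancestors -/
def dsm (r0 : ℕ) (D : Cell d → ℝ) (Q : Cell d) : ℝ := ∑ r ∈ Finset.range r0, D (up r Q)

/-- the near cells -/
def NrC (p0 A s0 : ℝ) (μ : Measure (Sp d)) : Set (Cell d) :=
  {Q | ∃ y : Sp d, chi y ≠ 0 ∧ p0 / 2 ≤ qq A (muQ s0 μ Q) 1 y}

/-- all cells of the neighbourhood are structured, of type A, their masses are at most Cr times the
mass of Q; half of the mass of Q is in the half ball up to the factor Cr -/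
def AllA (Cr : ℝ) (ns : Cell d → Finset (Cell d)) (St TA : Set (Cell d)) (a ah : Cell d → ℝ)
    (Q : Cell d) : Prop :=
  (∀ Q' ∈ ns Q, Q' ∈ St ∧ Q' ∈ TA ∧ a Q' ≤ Cr * a Q) ∧ a Q ≤ Cr * ah Q

/-- all cells of the neighbourhood are structured, of type B -/
def AllB (ns : Cell d → Finset (Cell d)) (St TA : Set (Cell d)) (Q : Cell d) : Prop :=
  ∀ Q' ∈ ns Q, Q' ∈ St ∧ Q' ∉ TA

open Classical in
/-- sum over the neighbourhood, if there is a near cell in it -/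
def sEs (ns : Cell d → Finset (Cell d)) (Nr : Set (Cell d)) (F : Cell d → ℝ) (Q : Cell d) : ℝ :=
  if ∃ Q' ∈ ns Q, Q' ∈ Nr then ∑ Q' ∈ ns Q, F Q' else 0

open Classical in
/-- sum over the cells of the same level, if there is a near cell among them -/
def sMs (ns : Cell d → Finset (Cell d)) (Nr : Set (Cell d)) (F : Cell d → ℝ) (Q : Cell d) : ℝ :=
  if ∃ Q' ∈ ns Q, Q'.1 = Q.1 ∧ Q' ∈ Nr then ∑ Q' ∈ (ns Q).filter (fun Q' => Q'.1 = Q.1), F Q'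
  else 0

/-- the local inequalities W1 - W7 in terms of numbers.  Cu, c1 universal; Cr from the types;
CK depends on K, Cr but not on the threshold κ; δ small against κ, Cs depends on everything.
N = net2, v = omC, a = mass 64 R0, ah = mass 32 R0, al = mass R0 + 3, at' = mT, TG = tG, Y = YC,
E1 = er + dl + EI, E2 = er ^ 2 / ab + dl on the cells of type A -/
structure LocW (s0 γ Cu c1 η Cr CK κ δ Cs : ℝ) (r0 : ℕ) (ns : Cell d → Finset (Cell d))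
    (Nr St TA : Set (Cell d)) (N val v a al ah D b at' TG Y E1 E2 : Cell d → ℝ) : Prop where
  val0 : ∀ Q, 0 ≤ val Q
  E1_le : ∀ Q ∈ St, Q ∈ TA → E1 Q ≤ CK * (sh b Q + κ * a Q) + Cs * sh D Q
  E2_le : ∀ Q ∈ St, Q ∈ TA → E2 Q ≤ CK * (κ * sh b Q + sh D Q)
  w1 : ∀ Q, 2 ≤ Q.1 → Q ∉ Nr →
    cw s0 Q * val Q ≤ N Q + Cs * (cw s0 Q * v Q) * dsm r0 D Q
  w2 : ∀ Q ∈ Nr, 2 ≤ Q.1 → AllA Cr ns St TA a ah Q →
    c1 * (cw s0 Q * val Q) ≤ N Q + η * (∑ Q' ∈ ns Q, cw s0 Q' * val Q') +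
      CK * (cw s0 Q * v Q) * sEs ns Nr E2 Q +
      Cs * (cw s0 Q * v Q) * ∑ Q' ∈ ns Q, dsm r0 D Q'
  w3 : ∀ Q ∈ Nr, 2 ≤ Q.1 → AllB ns St TA Q →
    cw s0 Q * val Q ≤ N Q + δ * (cw s0 Q * v Q) * a Q + Cs * (cw s0 Q * v Q) * dsm r0 D Q
  w4 : ∀ Q ∈ Nr, 2 ≤ Q.1 → (∀ Q' ∈ ns Q, Q' ∈ St ∧ a Q' ≤ Cr * a Q ∧ a Q ≤ Cr * a Q') →
    a Q ≤ Cr * ah Q →
    c1 * (cw s0 Q * val Q) ≤ N Q +
      CK * (cw s0 Q * v Q) * (∑ Q' ∈ adj Q, TA.indicator E1 Q') +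
      δ * (cw s0 Q * v Q) * (∑ Q' ∈ adj Q, a Q') +
      Cs * (cw s0 Q * v Q) * ∑ Q' ∈ adj Q, dsm r0 D Q'
  w5 : ∀ Q ∈ Nr, 2 ≤ Q.1 →
    cw s0 Q * val Q ≤ N Q + Cu * (cw s0 Q * v Q) * (al Q + D Q) +
      δ * (cw s0 Q * v Q) * (∑ Q' ∈ adj Q, (St \ TA).indicator a Q') +
      Cs * (cw s0 Q * v Q) * ∑ Q' ∈ adj Q, dsm r0 D Q'
  wA6 : ∀ Q, 2 ≤ Q.1 → AllA Cr ns St TA a ah Q →
    cw s0 Q * v Q * b Q ≤ Cu * (∑ Q' ∈ ns Q, cw s0 Q' * val Q') +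
      CK * (cw s0 Q * v Q) * sEs ns Nr E2 Q +
      Cs * (cw s0 Q * v Q) * ∑ Q' ∈ ns Q, dsm r0 D Q'
  wB6 : ∀ Q, 2 ≤ Q.1 → AllB ns St TA Q →
    cw s0 Q * v Q * b Q ≤ Cu * (∑ Q' ∈ ns Q, cw s0 Q' * val Q') +
      δ * (cw s0 Q * v Q) * sMs ns Nr a Q +
      Cs * (cw s0 Q * v Q) * ∑ Q' ∈ ns Q, dsm r0 D Q'
  wA7 : ∀ P, 2 ≤ P.1 → (∀ l : ℕ, at' (up l P) ≤ (2 : ℝ) ^ (γ * l) * at' P) →
    AllA Cr ns St TA a ah P →
    cw s0 P * Y P ≤ Cu * (∑ Q' ∈ ns P, cw s0 Q' * val Q') +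
      Cu * (cw s0 P * v P) * b (up 9 P) + CK * (cw s0 P * v P) * sEs ns Nr E2 P +
      Cs * (cw s0 P * v P) * ((∑ Q' ∈ ns P, dsm r0 D Q') + TG P)
  wB7 : ∀ P, 2 ≤ P.1 → (∀ l : ℕ, at' (up l P) ≤ (2 : ℝ) ^ (γ * l) * at' P) →
    AllB ns St TA P →
    cw s0 P * Y P ≤ Cu * (∑ Q' ∈ ns P, cw s0 Q' * val Q') +
      Cu * (cw s0 P * v P) * b (up 9 P) + δ * (cw s0 P * v P) * sMs ns Nr a P +
      Cs * (cw s0 P * v P) * ((∑ Q' ∈ ns P, dsm r0 D Q') + TG P)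

/-- MODULE LW: the world exists and satisfies the local inequalities -/
def StmtLW : Prop :=
  ∀ (d : ℕ) (V E : Type) [NormedAddCommGroup V] [InnerProductSpace ℝ V] [FiniteDimensional ℝ V]
    [NormedAddCommGroup E] [InnerProductSpace ℝ E] [FiniteDimensional ℝ E] [Nontrivial E]
    (L : (Sp d →L[ℝ] V) →L[ℝ] E), 2 ≤ d → CEll L → ∃ (J : ℕ) (Rt : ℝ), 1 ≤ Rt ∧
    ∀ (M c0 : ℝ) (b : Sp d → ℝ), BaseKer (J + 14) M c0 b →
    ∀ (C' ε p0 A c : ℝ), 0 < C' → 0 < ε → ε ≤ 1 / 4 → FarK d (J + 10) M C' ε p0 A c →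
    ∀ (JA : ℕ) (γ R0 : ℝ), 32 * A ≤ 2 ^ JA → 7 ≤ JA → 0 < γ → γ ≤ 1 / (32 * d) →
      4 * A + 8 * d + 400 ≤ R0 → 8 * Rt ≤ R0 →
    ∃ (Cu c1 : ℝ), 1 ≤ Cu ∧ 0 < c1 ∧ ∀ η : ℝ, 0 < η → ∀ (K Cr : ℝ), 1 ≤ K → 1 ≤ Cr →
    ∃ (CK κ0 : ℝ), 0 < CK ∧ 0 < κ0 ∧ ∀ (κm δ : ℝ), 0 < κm → 0 < δ →
    ∃ (RN Rm d0 Cs : ℝ) (r0 : ℕ), 1 ≤ RN ∧ 0 < d0 ∧ d0 ≤ 1 ∧ 0 < Cs ∧ 10 ≤ r0 ∧
    ∀ R : ℝ, Rm ≤ R → ∀ u : Sp d → V, TF u → ∀ μ : Measure (Sp d), Gro C' μ →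
    ∀ s0 : ℝ, 0 < s0 → ∀ e : Cell d → E, Dirs b ε R s0 (fo L u) e →
    ∀ (ν : Cell d → Sp d) (c : Cell d → ℝ), Plns R0 s0 (fo L u) e ν c →
    ∀ κ : ℝ, κm ≤ κ → κ ≤ κ0 →
    ∃ (kd : Cell d → ℕ) (nv : Cell d → Sp d) (val E1 E2 : Cell d → ℝ),
      (∀ Q, kd Q = 0 → ‖nv Q‖ = 1) ∧ cs univ (fun Q => cw s0 Q * val Q) < ⊤ ∧
      LocW s0 γ Cu c1 η Cr CK κ δ Cs r0 (nst s0 (3 * R0) JA) (NrC p0 A s0 μ)
        (Strc γ K d0 (mC b ε (64 * R0) s0 (fo L u)) (mT b ε s0 (fo L u))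
          (dC b ε R s0 (fo L u) e))
        (TyA κ (mC b ε (64 * R0) s0 (fo L u)) (dC b ε R s0 (fo L u) e)
          (bC R0 s0 (fo L u) e ν c))
        (net2 (⟨b, RN, ε, p0, A⟩ : Prm d) s0 μ (fo L u) e kd nv) val (omC μ s0)
        (mC b ε (64 * R0) s0 (fo L u)) (mC b ε (R0 + 3) s0 (fo L u))
        (mC b ε (32 * R0) s0 (fo L u)) (dC b ε R s0 (fo L u) e) (bC R0 s0 (fo L u) e ν c)
        (mT b ε s0 (fo L u)) (tG b ε s0 (fo L u)) (YC b ε s0 (fo L u) μ ν c) E1 E2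

end

end TG


end

section

set_option autoImplicit false
set_option linter.unusedSectionVars false

/-!
# Definitions and statement for TreePQ   (helper47)
-/

open MeasureTheory Metric Set TrI
open scoped InnerProductSpace ContDiff ENNReal

namespace TG

noncomputable section

variable {d : ℕ}

/-- the weights -/
structure WtH (s0 Cu : ℝ) (Nb : ℕ) (ns nb : Cell d → Finset (Cell d)) (Nr : Set (Cell d))
    (v oml : Cell d → ℝ) : Prop where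
  s0_pos : 0 < s0
  v0 : ∀ Q, 0 ≤ v Q
  v1 : ∀ Q, v Q ≤ Cu
  oml0 : ∀ Q, 0 ≤ oml Q
  ov : ∀ Q, oml Q ≤ Cu * v Q
  vN : ∀ Q ∈ Nr, v Q ≤ Cu * oml Q
  vA : ∀ Q ∈ Nr, ∀ Q' ∈ adj Q, v Q ≤ Cu * oml Q'
  vnb : ∀ Q, ∀ Q' ∈ nb Q, v Q ≤ Cu * v Q'
  adj_ns : ∀ Q, adj Q ⊆ ns Q
  self : ∀ Q, Q ∈ ns Q
  ns_nb : ∀ Q, ns Q ⊆ nb Q
  ns9 : ∀ Q, ns (up 9 Q) ⊆ nb Q
  lvl : ∀ Q, ∀ Q' ∈ nb Q, Q.1 ≤ Q'.1
  cw2 : ∀ Q, ∀ Q' ∈ nb Q, cw s0 Q' ≤ Cu * cw s0 Q
  card : ∀ Q, (nb Q).card ≤ Nb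

/-- robustness of the types -/
structure RbH (Cr : ℝ) (nb : Cell d → Finset (Cell d)) (St Sol : Set (Cell d))
    (a ah D b : Cell d → ℝ) : Prop where
  an : ∀ Q, 0 ≤ a Q
  bn : ∀ Q, 0 ≤ b Q
  Dn : ∀ Q, 0 ≤ D Q
  sol : ∀ Q ∈ Sol, ∀ Q' ∈ nb Q, Q' ∈ St ∧ a Q' ≤ Cr * a Q ∧ a Q ≤ Cr * a Q' ∧
    sh b Q' + sh D Q' ≤ Cr * (sh b Q + sh D Q) ∧ sh b Q + sh D Q ≤ Cr * (sh b Q' + sh D Q') ∧
    sh D Q' ≤ Cr * sh D Q ∧ sh D Q ≤ Cr * sh D Q'
  half : ∀ Q ∈ Sol, a Q ≤ Cr * ah Q ∧ a (up 9 Q) ≤ Cr * ah (up 9 Q)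

/-- the values of the levels ≥ 2 -/
def val2 (val : Cell d → ℝ) (Q : Cell d) : ℝ := if 2 ≤ Q.1 then val Q else 0

/-- costs -/
def costF (Sol : Set (Cell d)) (al D oml : Cell d → ℝ) : Cell d → ℝ :=
  Solᶜ.indicator fun Q => (al Q + D Q) * oml Q

/-- the sums of b -/
def sBF (St : Set (Cell d)) (b oml : Cell d → ℝ) : Cell d → ℝ :=
  St.indicator fun Q => sh b Q * oml Q

/-- the interface -/
def iFF (Sol INT : Set (Cell d)) (D b oml : Cell d → ℝ) : Cell d → ℝ :=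
  ({Q | 2 ≤ Q.1} ∩ Sol ∩ INTᶜ).indicator fun Q => (sh b Q + sh D Q) * oml Q

/-- payable terms -/
def payF (r0 : ℕ) (St : Set (Cell d)) (D oml TG : Cell d → ℝ) (Q : Cell d) : ℝ :=
  dsm r0 D Q + St.indicator (fun Q => sh D Q * oml Q) Q + TG Q

/-- the right hand side of (P), (Q1), (Q2) -/
def rhsF (Cv Cc Cb Ci Cp : ℝ) (r0 : ℕ) (nb : Cell d → Finset (Cell d)) (St Sol INT : Set (Cell d))
    (val al D b oml TG : Cell d → ℝ) (Q : Cell d) : ℝ :=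
  ∑ Q' ∈ nb Q, (Cv * val2 val Q' + Cc * costF Sol al D oml Q' + Cb * sBF St b oml Q' +
    Ci * iFF Sol INT D b oml Q' + Cp * payF r0 St D oml TG Q')

/-- MODULE PQ: (P), (Q1), (Q2) from LocW -/
def StmtPQ : Prop :=
  ∀ (Cu : ℝ) (Nb : ℕ), 1 ≤ Cu → ∃ C1 : ℝ, 0 < C1 ∧ ∀ (Cr CK : ℝ), 1 ≤ Cr → 0 < CK →
    ∃ C2 : ℝ, 0 < C2 ∧ ∀ Cs : ℝ, 0 < Cs → ∃ C3 : ℝ, 0 < C3 ∧
    ∀ κ δ : ℝ, 0 < κ → κ ≤ 1 → 0 < δ → δ ≤ κ →
    ∀ (d r0 : ℕ) (s0 γ c1 η : ℝ) (ns nb : Cell d → Finset (Cell d))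
      (Nr St Sol : Set (Cell d)) (N val v oml a al ah D b at' TG Y E1 E2 : Cell d → ℝ),
      0 < c1 → c1 ≤ 1 → 0 < η → WtH s0 Cu Nb ns nb Nr v oml → RbH Cr nb St Sol a ah D b →
      (∀ Q, 0 ≤ al Q) → (∀ Q, 0 ≤ TG Q) → (∀ Q : Cell d, ¬ 2 ≤ Q.1 → N Q = 0) →
      LocW s0 γ Cu c1 η (Cr ^ 2) CK κ δ Cs r0 ns Nr St (TyA κ a D b) N val v a al ah D b at' TG Y
        E1 E2 →
      (∀ Q, c1 * (cw s0 Q * val2 val Q) ≤ N Q + cw s0 Q *
        rhsF (Cu * η) C1 (C2 * (κ + δ / κ)) C2 C3 r0 nb St Sol (Intr κ a D b nb)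
          val al D b oml TG Q) ∧
      (∀ Q ∈ {Q | 2 ≤ Q.1} ∩ Sol ∩ Intr κ a D b nb, b Q * oml Q ≤
        rhsF C1 C1 (C2 * (κ + δ / κ)) C2 C3 r0 nb St Sol (Intr κ a D b nb)
          val al D b oml TG Q) ∧
      (∀ P ∈ {Q | 2 ≤ Q.1} ∩ Sol ∩ Intr κ a D b nb,
        (∀ l : ℕ, at' (up l P) ≤ (2 : ℝ) ^ (γ * l) * at' P) → Y P + b (up 9 P) * v P ≤
        rhsF C1 C1 (C2 * (κ + δ / κ)) C2 C3 r0 nb St Sol (Intr κ a D b nb)
          val al D b oml TG P)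

end

end TG


end

section

/-!
# Trace inequality, general operators: small modules for the final assembly   (helper47)

No double quotes.
-/

open MeasureTheory Metric Set TrI
open scoped InnerProductSpace ContDiff ENNReal

namespace TG

noncomputable section

/-- MODULE LS: the masses of one level are payable -/
def StmtLS : Prop :=
  ∀ (d : ℕ), 1 ≤ d → ∀ (M c0 ε r : ℝ), 0 < ε → ε ≤ 1 → 0 ≤ r → ∀ (b : Sp d → ℝ),
    BaseKer 2 M c0 b → ∃ C : ℝ, 0 < C ∧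
    ∀ (E : Type) [NormedAddCommGroup E] [InnerProductSpace ℝ E] [FiniteDimensional ℝ E]
      (f : Sp d → E), Continuous f → HasCompactSupport f → ∀ s0 : ℝ, 0 < s0 → ∀ i : ℕ,
      cs {Q : Cell d | Q.1 = i} (fun Q => cw s0 Q * mC b ε r s0 f Q) ≤
        ENNReal.ofReal (C * ∫ y, ‖f y‖)

/-- MODULE DP: the short sums of the defects are payable -/
def StmtDP : Prop :=
  ∀ (d r0 : ℕ) (C0 : ℝ), 1 ≤ d → 0 ≤ C0 → ∃ C : ℝ, 0 < C ∧
    ∀ (s0 tot : ℝ) (D : Cell d → ℝ), 0 < s0 → 0 ≤ tot → (∀ Q, 0 ≤ D Q) →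
      cs univ (fun P => cw s0 P * D P) ≤ ENNReal.ofReal (C0 * tot) →
      cs univ (fun P => cw s0 P * dsm r0 D P) ≤ ENNReal.ofReal (C * tot)

/-- MODULE FF: finiteness of the sums of b and Y (no uniformity: any finite bound) -/
def StmtFF : Prop :=
  ∀ (d : ℕ), 2 ≤ d → ∀ (C' : ℝ), 0 < C' → ∀ μ : Measure (Sp d), Gro C' μ →
    ∀ (M c0 ε : ℝ), 0 < ε → ε ≤ 1 → ∀ (b : Sp d → ℝ), BaseKer 2 M c0 b →
    ∀ (R0 R ρ : ℝ), 400 + 8 * d ≤ R0 → 2 * R0 + 10 ≤ R → 1 ≤ ρ →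
    ∀ (E : Type) [NormedAddCommGroup E] [InnerProductSpace ℝ E] [FiniteDimensional ℝ E]
      [Nontrivial E] (f : Sp d → E), Continuous f → HasCompactSupport f → ∀ s0 : ℝ, 0 < s0 →
    ∀ e : Cell d → E, Dirs b ε R s0 f e → ∀ (ν : Cell d → Sp d) (c : Cell d → ℝ),
      Plns R0 s0 f e ν c → ∀ (S : Set (Cell d)) (r C : ℝ),
      (∀ P ∈ S, mT b ε s0 f P ≤ C * mC b ε r s0 f P) →
      cs univ (fun Q => cw s0 Q * bC R0 s0 f e ν c Q * oC μ ρ s0 Q) < ⊤ ∧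
      cs S (fun Q => cw s0 Q * (YC b ε s0 f μ ν c Q + bC R0 s0 f e ν c (up 9 Q) * omC μ s0 Q))
        < ⊤

/-- MODULE WH: the weights -/
def StmtWH : Prop :=
  ∀ (d : ℕ), 2 ≤ d → ∀ (C' p0 A R0 ρ : ℝ) (JA : ℕ), 0 < C' → 0 < p0 → p0 ≤ 1 → 1 ≤ A →
    4 * A + 8 * d + 400 ≤ R0 → A + 2 * d ≤ ρ →
    ∃ (Cu : ℝ) (Nb ρb : ℕ), 1 ≤ Cu ∧ ∀ μ : Measure (Sp d), Gro C' μ → ∀ s0 : ℝ, 0 < s0 →
      WtH s0 Cu Nb (nst s0 (3 * R0) JA) (nst s0 (3 * R0 + d) (JA + 9)) (NrC p0 A s0 μ)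
        (omC μ s0) (oC μ ρ s0) ∧
      (∀ Q : Cell d, nst s0 (3 * R0 + d) (JA + 9) Q ⊆ box (JA + 9) ρb Q) ∧
      ∀ Q : Cell d, ∀ Q' ∈ nst s0 (3 * R0 + d) (JA + 9) Q, Q.1 ≤ Q'.1 ∧ Q'.1 ≤ Q.1 + (JA + 9) ∧
        ‖xC s0 Q' - xC s0 Q‖ ≤ 4 * R0 * lev s0 Q'.1

end

end TG


end

section

/-!
# The dictionary between cells and frames  (helper98)
-/

open MeasureTheory Metric Set TrI
open scoped InnerProductSpace ContDiff ENNReal

namespace TG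

namespace FR

noncomputable section

set_option linter.unusedSectionVars false

variable {d : ℕ}

lemma lev_pos {s0 : ℝ} (h : 0 < s0) (i : ℕ) : 0 < lev s0 i := by
  unfold lev
  positivity

lemma lev_add (s0 : ℝ) (i r : ℕ) : lev s0 (i + r) = 2 ^ r * lev s0 i := by
  unfold lev
  rw [pow_add]
  ring

lemma s0_div {s0 : ℝ} (h : 0 < s0) (i : ℕ) : s0 / lev s0 i = (1 / 2) ^ i := by
  unfold lev
  rw [div_pow, one_pow]
  field_simp

lemma lev_half (i r : ℕ) : lev ((1 / 2 : ℝ) ^ i) (i + r) = 2 ^ r := by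
  unfold lev
  rw [pow_add, ← mul_assoc, ← mul_pow]
  norm_num

lemma up_fst (r : ℕ) (Q : Cell d) : (up r Q).1 = Q.1 + r := rfl

lemma up_zero (Q : Cell d) : up 0 Q = Q := by
  unfold up
  ext j
  · rfl
  · simp

lemma up_up (r r' : ℕ) (Q : Cell d) : up r' (up r Q) = up (r + r') Q := by
  unfold up
  refine Prod.ext ?_ ?_
  · simp [add_assoc]
  · funext j
    simp only
    rw [pow_add, Int.ediv_ediv_of_nonneg (by positivity)]

/-- the frame point of a cell -/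
lemma x_tw {s0 : ℝ} (h : 0 < s0) (Q P : Cell d) :
    xC s0 Q + lev s0 Q.1 • tw s0 Q P = xC s0 P := by
  unfold tw
  rw [smul_smul, mul_one_div_cancel (lev_pos h _).ne', one_smul]
  abel

lemma tw_self (s0 : ℝ) (Q : Cell d) : tw s0 Q Q = 0 := by
  unfold tw
  simp

lemma tw_up_zero (s0 : ℝ) (Q : Cell d) : tw s0 Q (up 0 Q) = 0 := by
  rw [up_zero, tw_self]

/-- coordinates of the centre -/
lemma xC_apply (s0 : ℝ) (Q : Cell d) (j : Fin d) : xC s0 Q j = lev s0 Q.1 * (Q.2 j : ℝ) := by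
  simp [xC, cen, lat]

/-- the norm of a vector with coordinates in [0,a] -/
lemma norm_le_sqrt {a : ℝ} (ha : 0 ≤ a) (w : Sp d) (h : ∀ j, |w j| ≤ a) : ‖w‖ ≤ Real.sqrt d * a := by
  rw [EuclideanSpace.norm_eq]
  have h1 : ∑ j, ‖w j‖ ^ 2 ≤ (d : ℝ) * a ^ 2 := by
    calc ∑ j, ‖w j‖ ^ 2 ≤ ∑ _j : Fin d, a ^ 2 := by
          refine Finset.sum_le_sum fun j _ => ?_
          rw [Real.norm_eq_abs]
          exact pow_le_pow_left₀ (abs_nonneg _) (h j) 2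
      _ = (d : ℝ) * a ^ 2 := by simp
  calc Real.sqrt (∑ j, ‖w j‖ ^ 2) ≤ Real.sqrt ((d : ℝ) * a ^ 2) := Real.sqrt_le_sqrt h1
    _ = Real.sqrt d * a := by
        rw [Real.sqrt_mul (Nat.cast_nonneg d), Real.sqrt_sq ha]

/-- the centre of an ancestor, in terms of the centre of the cell, sharp -/
lemma xC_up' {s0 : ℝ} (h : 0 < s0) (r : ℕ) (Q : Cell d) :
    ‖xC s0 (up r Q) - xC s0 Q‖ ≤ Real.sqrt d * ((2 ^ r - 1) * lev s0 Q.1) := by
  have hl := lev_pos h Q.1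
  have h1 : (1 : ℝ) ≤ 2 ^ r := one_le_pow₀ (by norm_num)
  refine norm_le_sqrt (mul_nonneg (by linarith) hl.le) _ fun j => ?_
  rw [PiLp.sub_apply, xC_apply, xC_apply, up_fst, lev_add]
  have h2 : (up r Q).2 j = Q.2 j / 2 ^ r := rfl
  rw [h2]
  have hp : (0 : ℤ) < 2 ^ r := by positivity
  have h3 : ((Q.2 j : ℤ) : ℝ) = ((2 ^ r * (Q.2 j / 2 ^ r) + Q.2 j % 2 ^ r : ℤ) : ℝ) := by
    rw [Int.mul_ediv_add_emod]
  have h4 : (0 : ℝ) ≤ ((Q.2 j % 2 ^ r : ℤ) : ℝ) := by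
    exact_mod_cast Int.emod_nonneg _ hp.ne'
  have h5 : ((Q.2 j % 2 ^ r : ℤ) : ℝ) ≤ 2 ^ r - 1 := by
    have := Int.le_sub_one_of_lt (Int.emod_lt_of_pos (Q.2 j) hp)
    exact_mod_cast this
  push_cast at h3
  rw [h3]
  rw [show 2 ^ r * lev s0 Q.1 * (((Q.2 j / 2 ^ r : ℤ)) : ℝ) -
    lev s0 Q.1 * (2 ^ r * (((Q.2 j / 2 ^ r : ℤ)) : ℝ) + ((Q.2 j % 2 ^ r : ℤ) : ℝ)) =
    -(lev s0 Q.1 * ((Q.2 j % 2 ^ r : ℤ) : ℝ)) by ring, abs_neg, abs_of_nonneg (by positivity)]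
  nlinarith only [hl, h5]

lemma xC_up {s0 : ℝ} (h : 0 < s0) (r : ℕ) (Q : Cell d) :
    ‖xC s0 (up r Q) - xC s0 Q‖ ≤ Real.sqrt d * lev s0 (Q.1 + r) := by
  refine (xC_up' h r Q).trans ?_
  rw [lev_add]
  have hl := lev_pos h Q.1
  have := Real.sqrt_nonneg (d : ℝ)
  nlinarith

lemma norm_tw {s0 : ℝ} (h : 0 < s0) (Q P : Cell d) :
    ‖tw s0 Q P‖ = ‖xC s0 P - xC s0 Q‖ / lev s0 Q.1 := by
  unfold tw
  rw [norm_smul, Real.norm_of_nonneg (by have := lev_pos h Q.1; positivity)]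
  ring

lemma norm_tw_up {s0 : ℝ} (h : 0 < s0) (r : ℕ) (Q : Cell d) :
    ‖tw s0 Q (up r Q)‖ ≤ Real.sqrt d * 2 ^ r := by
  rw [norm_tw h, div_le_iff₀ (lev_pos h _)]
  refine (xC_up h r Q).trans (le_of_eq ?_)
  rw [lev_add]
  ring

lemma tower {s0 : ℝ} (h : 0 < s0) {E : Type} [NormedAddCommGroup E] [InnerProductSpace ℝ E]
    (e : Cell d → E) (he : ∀ Q, ‖e Q‖ = 1) (Q : Cell d) :
    Tower (fun r => tw s0 Q (up r Q)) (fun r => e (up r Q)) where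
  zero := tw_up_zero s0 Q
  step := by
    intro r
    have hl := lev_pos h Q.1
    have h1 := xC_up' h 1 (up r Q)
    rw [up_up, up_fst, lev_add] at h1
    have h2 : tw s0 Q (up (r + 1) Q) - tw s0 Q (up r Q) =
        (1 / lev s0 Q.1) • (xC s0 (up (r + 1) Q) - xC s0 (up r Q)) := by
      unfold tw
      rw [← smul_sub]
      congr 1
      abel
    rw [h2, norm_smul, Real.norm_of_nonneg (by positivity)]
    rw [one_div_mul_eq_div, div_le_iff₀ hl]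
    refine h1.trans (le_of_eq ?_)
    ring
  unit := fun r => he _

/-! ## The functionals of the frame -/

section F

variable {E : Type} [NormedAddCommGroup E] [InnerProductSpace ℝ E] [FiniteDimensional ℝ E]

lemma ma_frame (hSC : StmtSC) (hd : 2 ≤ d) {M c0 ε : ℝ} (hε : 0 < ε) (hε1 : ε ≤ 1)
    {b : Sp d → ℝ} (hb : BaseKer 2 M c0 b) {f : Sp d → E} (hf : Continuous f)
    (hc : HasCompactSupport f) {s0 : ℝ} (h : 0 < s0) (ρ : ℝ) (r : ℕ) (Q : Cell d) :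
    ma b ε ρ ((1 / 2) ^ Q.1) (rs (xC s0 Q) (lev s0 Q.1) f) (Q.1 + r) (tw s0 Q (up r Q)) =
      mC b ε ρ s0 f (up r Q) := by
  have h1 := ((hSC d hd 1 one_pos (xC s0 Q) (lev s0 Q.1) (lev_pos h _)).2.1 E M c0 b hb ε hε hε1
    f hf hc s0 h).2.2 ρ (Q.1 + r) (tw s0 Q (up r Q))
  rw [s0_div h, x_tw h] at h1
  exact h1

lemma DD_frame (hSC : StmtSC) (hd : 2 ≤ d) {M c0 ε : ℝ} (hε : 0 < ε) (hε1 : ε ≤ 1)
    {b : Sp d → ℝ} (hb : BaseKer 2 M c0 b) {f : Sp d → E} (hf : Continuous f)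
    (hc : HasCompactSupport f) {s0 : ℝ} (h : 0 < s0) (R : ℝ) (r : ℕ) (Q : Cell d) (e : E) :
    DD b ε R ((1 / 2) ^ Q.1) (rs (xC s0 Q) (lev s0 Q.1) f) (Q.1 + r) (tw s0 Q (up r Q)) e =
      DD b ε R s0 f (up r Q).1 (xC s0 (up r Q)) e := by
  have h1 := ((hSC d hd 1 one_pos (xC s0 Q) (lev s0 Q.1) (lev_pos h _)).2.1 E M c0 b hb ε hε hε1
    f hf hc s0 h).2.1 R (Q.1 + r) (tw s0 Q (up r Q)) e
  rw [s0_div h, x_tw h] at h1
  exact h1

lemma fl_frame (hSC : StmtSC) (hd : 2 ≤ d) {M c0 ε : ℝ} (hε : 0 < ε) (hε1 : ε ≤ 1)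
    {b : Sp d → ℝ} (hb : BaseKer 2 M c0 b) {f : Sp d → E} (hf : Continuous f)
    (hc : HasCompactSupport f) {s0 : ℝ} (h : 0 < s0) (i : ℕ) (Q : Cell d) (y : Sp d) :
    fl b ε ((1 / 2) ^ Q.1) (rs (xC s0 Q) (lev s0 Q.1) f) i y =
      lev s0 Q.1 • fl b ε s0 f i (xC s0 Q + lev s0 Q.1 • y) := by
  have h1 := ((hSC d hd 1 one_pos (xC s0 Q) (lev s0 Q.1) (lev_pos h _)).2.1 E M c0 b hb ε hε hε1
    f hf hc s0 h).1 i y
  rw [s0_div h] at h1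
  exact h1

/-- the plane {⟨ν,·⟩ = c} in the frame of Q has the constant cfr -/
def cfr (s0 : ℝ) (Q : Cell d) (ν : Sp d) (c : ℝ) : ℝ := (c - ⟪ν, xC s0 Q⟫_ℝ) / lev s0 Q.1

lemma ht_frame {s0 : ℝ} (h : 0 < s0) (Q : Cell d) (ν : Sp d) (c : ℝ) (y : Sp d) :
    ht ν (cfr s0 Q ν c) y = ht ν c (xC s0 Q + lev s0 Q.1 • y) / lev s0 Q.1 := by
  have hl := lev_pos h Q.1
  unfold ht cfr
  rw [inner_add_right, inner_smul_right]
  field_simp
  ring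

lemma ht_frame_tw {s0 : ℝ} (h : 0 < s0) (Q P : Cell d) (ν : Sp d) (c : ℝ) :
    ht ν (cfr s0 Q ν c) (tw s0 Q P) = ht ν c (xC s0 P) / lev s0 Q.1 := by
  rw [ht_frame h, x_tw h]

lemma bb_frame (hSD : StmtSD) (hd : 1 ≤ d) {f : Sp d → E} (hf : Continuous f)
    (hc : HasCompactSupport f) {s0 : ℝ} (h : 0 < s0) (ρ : ℝ) (r : ℕ) (Q : Cell d) (e : E)
    (ν : Sp d) (c : ℝ) :
    bb ρ ((1 / 2) ^ Q.1) (rs (xC s0 Q) (lev s0 Q.1) f) (Q.1 + r) (tw s0 Q (up r Q)) e ν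
      (cfr s0 Q ν c) = bb ρ s0 f (up r Q).1 (xC s0 (up r Q)) e ν c := by
  have hl := lev_pos h Q.1
  have h1 := hSD.2 d E f hd hf hc (xC s0 Q) (lev s0 Q.1) hl ρ s0 (Q.1 + r)
    (tw s0 Q (up r Q)) e ν (cfr s0 Q ν c) h
  rw [s0_div h, x_tw h] at h1
  rw [h1]
  congr 1
  unfold cfr
  field_simp
  ring

/-- bb at unit scale is the functional blc -/
lemma bb_unit (ρ : ℝ) (n : ℕ) (f : Sp d → E) (e : E) (ν : Sp d) (c : ℝ) :
    bb ρ ((1 / 2) ^ n) f n 0 e ν c = blc ν c (fun y => ⟪f y, e⟫_ℝ) ρ := by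
  have h1 : lev ((1 / 2 : ℝ) ^ n) n = 1 := by
    have := lev_half n 0
    simpa using this
  unfold bb blc
  rw [h1]
  simp [ht, hgt]

lemma mQ_eq (s0 : ℝ) (f : Sp d → E) (e : E) (Q : Cell d) :
    mQ s0 f e Q = fun y => ⟪rs (xC s0 Q) (lev s0 Q.1) f y, e⟫_ℝ := rfl

/-- the density in the frame of a cell of a higher level -/
lemma mQ_frame {s0 : ℝ} (h : 0 < s0) (f : Sp d → E) (e : E) (Q P : Cell d) (l : ℕ)
    (hP : P.1 = Q.1 + l) (y : Sp d) :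
    mQ s0 f e P y = 2 ^ l * mQ s0 f e Q (tw s0 Q P + (2 : ℝ) ^ l • y) := by
  unfold mQ rs
  rw [hP, lev_add, smul_add, smul_smul, ← add_assoc, x_tw h, real_inner_smul_left,
    real_inner_smul_left, mul_comm (lev s0 Q.1) (2 ^ l)]
  ring

lemma mQ_frame_up {s0 : ℝ} (h : 0 < s0) (f : Sp d → E) (e : E) (Q : Cell d) (l : ℕ) :
    mQ s0 f e (up l Q) = fun y => 2 ^ l * mQ s0 f e Q (tw s0 Q (up l Q) + (2 : ℝ) ^ l • y) := by
  funext y
  exact mQ_frame h f e Q (up l Q) l rfl y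

lemma rs_cont {f : Sp d → E} (hf : Continuous f) (x : Sp d) (t : ℝ) : Continuous (rs x t f) := by
  unfold rs
  fun_prop

lemma rs_cs {f : Sp d → E} (hc : HasCompactSupport f) (x : Sp d) {t : ℝ} (ht : 0 < t) :
    HasCompactSupport (rs x t f) := by
  have h1 : HasCompactSupport (fun y => f (x + t • y)) := by
    have := (Homeomorph.addLeft x).symm
    exact hc.comp_homeomorph ((Homeomorph.smulOfNeZero t ht.ne').trans (Homeomorph.addLeft x))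
  exact h1.smul_left (f := fun _ => t)

lemma mQ_cont {f : Sp d → E} (hf : Continuous f) (s0 : ℝ) (e : E) (Q : Cell d) :
    Continuous (mQ s0 f e Q) := by
  unfold mQ
  exact (rs_cont hf _ _).inner continuous_const

end F

section U

variable {V E : Type} [NormedAddCommGroup V] [InnerProductSpace ℝ V] [FiniteDimensional ℝ V]
    [NormedAddCommGroup E] [InnerProductSpace ℝ E] [FiniteDimensional ℝ E]

/-- the rescaled test function -/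
def uQ (s0 : ℝ) (u : Sp d → V) (Q : Cell d) : Sp d → V :=
  fun y => u (xC s0 Q + lev s0 Q.1 • y)

lemma uQ_TF (hSC : StmtSC) (hd : 2 ≤ d) (L : (Sp d →L[ℝ] V) →L[ℝ] E) {u : Sp d → V} (hu : TF u)
    {s0 : ℝ} (h : 0 < s0) (Q : Cell d) : TF (uQ s0 u Q) :=
  ((hSC d hd 1 one_pos (xC s0 Q) (lev s0 Q.1) (lev_pos h _)).2.2 V E L u hu).1

lemma fo_uQ (hSC : StmtSC) (hd : 2 ≤ d) (L : (Sp d →L[ℝ] V) →L[ℝ] E) {u : Sp d → V} (hu : TF u)
    {s0 : ℝ} (h : 0 < s0) (Q : Cell d) :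
    fo L (uQ s0 u Q) = rs (xC s0 Q) (lev s0 Q.1) (fo L u) :=
  ((hSC d hd 1 one_pos (xC s0 Q) (lev s0 Q.1) (lev_pos h _)).2.2 V E L u hu).2

end U

end

end FR

end TG


end

section

/-! tree sums, (15.1) -/

open Set TrI
open scoped ENNReal Classical

namespace TG

noncomputable section

variable {d : ℕ}

theorem ts1_key {C0 K k w A g D o F n S q t : ℝ} (hC0 : 1 ≤ C0) (hk : 1 ≤ k) (hkK : k ^ 2 = K)
    (hw : 0 ≤ w) (hA : 0 ≤ A) (hg : 0 ≤ g) (hD : 0 ≤ D) (ho : 0 ≤ o) (hoC : o ≤ C0)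
    (hF : 0 ≤ F) (hn : 0 ≤ n) (hS : 0 ≤ S) (hq : 0 ≤ q) (ht : 0 ≤ t) (hqt : q ≤ t ^ 2)
    (h1 : A * n ≤ K * q * (C0 * (w * A + g))) (h2 : D * n ≤ t ^ 2 * (C0 * (w * A + g)))
    (h3 : S ^ 2 ≤ n * (C0 * (w * o ^ 2))) (h4 : F ≤ C0 * (A + D)) :
    F * S ≤ 3 * C0 ^ 3 * t * (k * (w * F * o) + w * D + K * g) := by
  have hC0' : 0 ≤ C0 := by linarith
  have hK : 1 ≤ K := by rw [← hkK]; nlinarith only [hk]
  have hK0 : 0 ≤ K := by linarith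
  have hk0 : 0 ≤ k := by linarith
  have hR : 0 ≤ 3 * C0 ^ 3 * t * (k * (w * F * o) + w * D + K * g) := by positivity
  have hL : 0 ≤ F * S := by positivity
  rw [← pow_le_pow_iff_left₀ hL hR (two_ne_zero)]
  have e1 : (F * S) ^ 2 = F ^ 2 * S ^ 2 := by ring
  have e2 : (3 * C0 ^ 3 * t * (k * (w * F * o) + w * D + K * g)) ^ 2
      = 9 * C0 ^ 6 * t ^ 2 * (k * (w * F * o) + w * D + K * g) ^ 2 := by ring
  rw [e1, e2]
  have hC2 : 1 ≤ C0 ^ 2 := one_le_pow₀ hC0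
  have hwo : 0 ≤ C0 * (w * o ^ 2) := by positivity
  have b0 : F ^ 2 * S ^ 2 ≤ F ^ 2 * (n * (C0 * (w * o ^ 2))) :=
    mul_le_mul_of_nonneg_left h3 (by positivity)
  have hX : 0 ≤ k * (w * F * o) := by positivity
  have hY : 0 ≤ w * D := by positivity
  have hZ : 0 ≤ K * g := by positivity
  have ho2 : o ^ 2 ≤ C0 ^ 2 := pow_le_pow_left₀ ho hoC 2
  rcases le_or_gt g (w * A) with hc | hc
  · rcases hA.lt_or_eq with hA' | hA'
    · -- n ≤ 2 K q C0 w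
      have hn1 : n ≤ 2 * K * q * C0 * w := by
        have : A * n ≤ A * (2 * K * q * C0 * w) := by
          calc A * n ≤ K * q * (C0 * (w * A + g)) := h1
            _ ≤ K * q * (C0 * (w * A + w * A)) := by gcongr
            _ = A * (2 * K * q * C0 * w) := by ring
        exact le_of_mul_le_mul_left this hA'
      calc F ^ 2 * S ^ 2 ≤ F ^ 2 * (n * (C0 * (w * o ^ 2))) := b0
        _ ≤ F ^ 2 * ((2 * K * t ^ 2 * C0 * w) * (C0 * (w * o ^ 2))) := by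
            gcongr
            exact hn1.trans (by (clear * - hqt hK hC0 hw; gcongr))
        _ = 2 * C0 ^ 2 * t ^ 2 * (k * (w * F * o)) ^ 2 := by rw [← hkK]; ring
        _ ≤ 9 * C0 ^ 6 * t ^ 2 * (k * (w * F * o) + w * D + K * g) ^ 2 := by
            have i1 : 2 * C0 ^ 2 ≤ 9 * C0 ^ 6 := by nlinarith only [one_le_pow₀ hC0 (n := 4)]
            gcongr
            linarith
    · have hg0 : g = 0 := by
        rw [← hA', mul_zero] at hc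
        exact le_antisymm hc hg
      have hDn : D * n ≤ 0 := by
        rw [hg0, ← hA'] at h2
        simpa using h2
      have hF2 : F ≤ C0 * D := by rw [← hA'] at h4; simpa using h4
      have hFn : F ^ 2 * n ≤ 0 := by
        calc F ^ 2 * n ≤ (C0 * D) ^ 2 * n := by gcongr
          _ = C0 ^ 2 * D * (D * n) := by ring
          _ ≤ 0 := mul_nonpos_of_nonneg_of_nonpos (by positivity) hDn
      calc F ^ 2 * S ^ 2 ≤ F ^ 2 * (n * (C0 * (w * o ^ 2))) := b0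
        _ = (F ^ 2 * n) * (C0 * (w * o ^ 2)) := by ring
        _ ≤ 0 := mul_nonpos_of_nonpos_of_nonneg hFn hwo
        _ ≤ _ := by (clear * - hC0; positivity)
  · have hs : w * A + g ≤ 2 * g := by linarith
    have h1' : A * n ≤ K * t ^ 2 * (C0 * (2 * g)) := h1.trans (by (clear * - hqt hK hs hC0 hw hA hg; gcongr))
    have h2' : D * n ≤ t ^ 2 * (C0 * (2 * g)) := h2.trans (by gcongr)
    have hDn0 : 0 ≤ D * n := by positivity
    have hAn0 : 0 ≤ A * n := by positivity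
    rcases le_or_gt A D with hd | hd
    · have hF2 : F ≤ 2 * C0 * D := by nlinarith only [h4, hd, hC0]
      calc F ^ 2 * S ^ 2 ≤ F ^ 2 * (n * (C0 * (w * o ^ 2))) := b0
        _ ≤ (2 * C0 * D) ^ 2 * (n * (C0 * (w * o ^ 2))) := by (clear * - hF hF2 hn hC0 hw; gcongr)
        _ = 4 * C0 ^ 3 * D * w * o ^ 2 * (D * n) := by ring
        _ ≤ 4 * C0 ^ 3 * D * w * C0 ^ 2 * (t ^ 2 * (C0 * (2 * g))) :=
            mul_le_mul (by gcongr) h2' hDn0 (by positivity)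
        _ = 8 * C0 ^ 6 * t ^ 2 * ((w * D) * g) := by ring
        _ ≤ 9 * C0 ^ 6 * t ^ 2 * (k * (w * F * o) + w * D + K * g) ^ 2 := by
            have i1 : (w * D) * g ≤ (k * (w * F * o) + w * D + K * g) ^ 2 := by
              have i2 : g ≤ K * g := by nlinarith only [hg, hK]
              have i3 : (w * D) * g ≤ (w * D) * (K * g) := by gcongr
              linarith only [i3, mul_nonneg hX hY, mul_nonneg hX hZ, mul_nonneg hY hZ, sq_nonneg (w * D), sq_nonneg (K * g), sq_nonneg (k * (w * F * o))]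
            calc 8 * C0 ^ 6 * t ^ 2 * ((w * D) * g)
                ≤ 8 * C0 ^ 6 * t ^ 2 * (k * (w * F * o) + w * D + K * g) ^ 2 := by gcongr
              _ ≤ _ := by
                gcongr
                norm_num
    · have hF2 : F ≤ 2 * C0 * A := by nlinarith only [h4, hd, hC0]
      calc F ^ 2 * S ^ 2 ≤ F ^ 2 * (n * (C0 * (w * o ^ 2))) := b0
        _ = F * F * n * (C0 * (w * o ^ 2)) := by ring
        _ ≤ F * (2 * C0 * A) * n * (C0 * (w * o ^ 2)) := by (clear * - hF2 hF hn hC0 hw; gcongr)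
        _ = 2 * C0 ^ 2 * (w * F * o) * o * (A * n) := by ring
        _ ≤ 2 * C0 ^ 2 * (w * F * o) * C0 * (K * t ^ 2 * (C0 * (2 * g))) :=
            mul_le_mul (by gcongr) h1' hAn0 (by positivity)
        _ = 4 * C0 ^ 4 * t ^ 2 * ((w * F * o) * (K * g)) := by ring
        _ ≤ 9 * C0 ^ 6 * t ^ 2 * (k * (w * F * o) + w * D + K * g) ^ 2 := by
            have i1 : (w * F * o) * (K * g) ≤ (k * (w * F * o) + w * D + K * g) ^ 2 := by
              have i2 : w * F * o ≤ k * (w * F * o) := by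
                have : 0 ≤ w * F * o := by positivity
                nlinarith only [hk, this]
              have i3 : (w * F * o) * (K * g) ≤ (k * (w * F * o)) * (K * g) := by gcongr
              linarith only [i3, mul_nonneg hX hY, mul_nonneg hX hZ, mul_nonneg hY hZ, sq_nonneg (w * D), sq_nonneg (K * g), sq_nonneg (k * (w * F * o))]
            have i4 : 4 * C0 ^ 4 ≤ 9 * C0 ^ 6 := by
              nlinarith only [hC2, pow_nonneg hC0' 4]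
            calc 4 * C0 ^ 4 * t ^ 2 * ((w * F * o) * (K * g))
                ≤ 4 * C0 ^ 4 * t ^ 2 * (k * (w * F * o) + w * D + K * g) ^ 2 := by gcongr
              _ ≤ _ := by (clear * - i4; gcongr)

/-- Cauchy-Schwarz with weights -/
theorem cauchy_w {ι : Type*} (s : Finset ι) (w o : ι → ℝ) (hw : ∀ i ∈ s, 0 ≤ w i) :
    (∑ i ∈ s, w i * o i) ^ 2 ≤ (∑ i ∈ s, w i) * ∑ i ∈ s, w i * o i ^ 2 := by
  have h := Finset.sum_mul_sq_le_sq_mul_sq s (fun i => Real.sqrt (w i))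
    (fun i => Real.sqrt (w i) * o i)
  have e1 : ∑ i ∈ s, Real.sqrt (w i) * (Real.sqrt (w i) * o i) = ∑ i ∈ s, w i * o i := by
    apply Finset.sum_congr rfl
    intro i hi
    rw [← mul_assoc, Real.mul_self_sqrt (hw i hi)]
  have e2 : ∑ i ∈ s, Real.sqrt (w i) ^ 2 = ∑ i ∈ s, w i := by
    apply Finset.sum_congr rfl
    intro i hi
    rw [Real.sq_sqrt (hw i hi)]
  have e3 : ∑ i ∈ s, (Real.sqrt (w i) * o i) ^ 2 = ∑ i ∈ s, w i * o i ^ 2 := by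
    apply Finset.sum_congr rfl
    intro i hi
    rw [mul_pow, Real.sq_sqrt (hw i hi)]
  rw [e1, e2, e3] at h
  exact h

theorem sh_summable {F : Cell d → ℝ} (hF : ∀ Q, 0 ≤ F Q) {B : ℝ} (hB : ∀ Q, F Q ≤ B)
    (Q : Cell d) : Summable (fun i : ℕ => (2 : ℝ) ^ (-((i : ℝ) / 4)) * F (up i Q)) := by
  have h1 : ∀ i : ℕ, (2 : ℝ) ^ (-((i : ℝ) / 4)) = ((2 : ℝ) ^ (-(1 / 4 : ℝ))) ^ i := by
    intro i
    rw [← Real.rpow_natCast, ← Real.rpow_mul (by norm_num)]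
    congr 1; ring
  have h2 : (2 : ℝ) ^ (-(1 / 4 : ℝ)) < 1 := Real.rpow_lt_one_of_one_lt_of_neg (by norm_num)
    (by norm_num)
  have hs : Summable (fun i : ℕ => ((2 : ℝ) ^ (-(1 / 4 : ℝ))) ^ i * B) :=
    (summable_geometric_of_lt_one (by positivity) h2).mul_right B
  apply Summable.of_nonneg_of_le (fun i => mul_nonneg (by positivity) (hF _)) _ hs
  intro i
  rw [h1]
  exact mul_le_mul_of_nonneg_left (hB _) (by positivity)

theorem cs_sh {S : Set (Cell d)} {F c : Cell d → ℝ} (hF : ∀ Q, 0 ≤ F Q) {B : ℝ}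
    (hB : ∀ Q, F Q ≤ B) (hc : ∀ Q, 0 ≤ c Q) :
    cs S (fun Q => c Q * sh F Q) = ∑' i : ℕ, ∑' P : Cell d, if i ≤ P.1 then
      ENNReal.ofReal ((2 : ℝ) ^ (-((i : ℝ) / 4)) * F P * ∑ Q ∈ (dn i P).filter (· ∈ S), c Q)
      else 0 := by
  have h1 : cs S (fun Q => c Q * sh F Q) = ∑' Q, ∑' i : ℕ,
      S.indicator (fun Q => ENNReal.ofReal ((2 : ℝ) ^ (-((i : ℝ) / 4)) * F (up i Q) * c Q)) Q := by
    unfold cs
    apply tsum_congr
    intro Q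
    by_cases hQ : Q ∈ S
    · simp only [hQ, indicator_of_mem]
      unfold sh
      rw [mul_comm, ← tsum_mul_right, ENNReal.ofReal_tsum_of_nonneg]
      · intro i
        have := hF (up i Q)
        have := hc Q
        positivity
      · exact (sh_summable hF hB Q).mul_right _
    · simp [hQ]
  rw [h1, ENNReal.tsum_comm]
  apply tsum_congr
  intro i
  rw [tsum_up _ i]
  apply tsum_congr
  intro P
  split_ifs with hP
  · rw [Finset.mul_sum, ENNReal.ofReal_sum_of_nonneg]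
    · rw [Finset.sum_filter]
      apply Finset.sum_congr rfl
      intro Q hQ
      have hu := (mem_dn hP).1 hQ
      by_cases hQS : Q ∈ S
      · simp [hQS, hu]
      · simp [hQS]
    · intro Q _
      have := hF P
      have := hc Q
      positivity
  · rfl

theorem stmtTS1 : StmtTS1 := by
  intro d C0 γ hd hγ hγ8
  have hr1 : (2 : ℝ) ^ (-(1 / 8 : ℝ)) < 1 := Real.rpow_lt_one_of_one_lt_of_neg (by norm_num)
    (by norm_num)
  obtain ⟨Cg, hCg, gen⟩ := gen_sum ((2 : ℝ) ^ (-(1 / 8 : ℝ))) (by positivity) hr1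
  by_cases hC0 : 1 ≤ C0
  swap
  · refine ⟨1, one_pos, ?_⟩
    intro s0 tot K a at' D oml omp b G NL hK hT
    exact absurd hT.C0_one hC0
  have hC0' : 0 < C0 := by linarith
  set C1 : ℝ := 3 * C0 ^ 3 * (C0 ^ 2 + 2 * C0) with hC1
  refine ⟨Cg * C1 + Cg * (3 * C0 ^ 3), by positivity, ?_⟩
  intro s0 tot K a at' D oml omp b G NL hK hT hb hb2 hDB hbB hg1 hg2
  obtain ⟨BD, hBD⟩ := hDB
  obtain ⟨Bb, hBb⟩ := hbB
  have hK0 : 0 ≤ K := by linarith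
  have hk1 : 1 ≤ Real.sqrt K := by
    rw [show (1 : ℝ) = Real.sqrt 1 by simp]
    exact Real.sqrt_le_sqrt hK
  -- common estimate
  have main : ∀ F : Cell d → ℝ, (∀ Q, 0 ≤ F Q) → (∃ B, ∀ Q, F Q ≤ B) →
      (∀ Q, F Q ≤ C0 * (at' Q + D Q)) →
      cs NL (fun Q => cw s0 Q * oml Q * sh F Q) ≤
        ENNReal.ofReal Cg * (ENNReal.ofReal (3 * C0 ^ 3 * Real.sqrt K) *
          cs univ (fun P => cw s0 P * F P * omp P)) +
        ENNReal.ofReal (Cg * (3 * C0 ^ 3 * (2 * C0) * K * tot)) := by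
    intro F hF hFB hFle
    obtain ⟨B, hB⟩ := hFB
    rw [cs_sh (c := fun Q => cw s0 Q * oml Q) hF hB
      (fun Q => mul_nonneg (cw_nonneg hT.s0_pos Q) (hT.oml_nonneg Q))]
    apply gen (ENNReal.ofReal (3 * C0 ^ 3 * Real.sqrt K) *
          cs univ (fun P => cw s0 P * F P * omp P)) (3 * C0 ^ 3 * (2 * C0) * K * tot)
      (fun i => ∑' P : Cell d, if i ≤ P.1 then
        ENNReal.ofReal ((2 : ℝ) ^ (-((i : ℝ) / 4)) * F P *
          ∑ Q ∈ (dn i P).filter (· ∈ NL), cw s0 Q * oml Q) else 0)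
    · have := hT.tot_nonneg
      positivity
    intro i
    -- pointwise bound
    have hpt : ∀ P : Cell d, (if i ≤ P.1 then
        ENNReal.ofReal ((2 : ℝ) ^ (-((i : ℝ) / 4)) * F P *
          ∑ Q ∈ (dn i P).filter (· ∈ NL), cw s0 Q * oml Q) else 0) ≤
        ENNReal.ofReal (((2 : ℝ) ^ (-(1 / 8 : ℝ))) ^ i) *
        (ENNReal.ofReal (3 * C0 ^ 3 * Real.sqrt K) * ENNReal.ofReal (cw s0 P * F P * omp P)
          + ENNReal.ofReal (3 * C0 ^ 3) * ENNReal.ofReal (cw s0 P * D P)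
          + ENNReal.ofReal (3 * C0 ^ 3 * K) * ENNReal.ofReal (G i P)) := by
      intro P
      split_ifs with hP
      swap
      · exact zero_le
      have hwn : 0 ≤ cw s0 P := cw_nonneg hT.s0_pos P
      have hDn := hT.D_nonneg P
      have hGn := hT.G_nonneg i P
      have hon := hT.omp_nonneg P
      have hFn := hF P
      rw [← ENNReal.ofReal_mul (by positivity), ← ENNReal.ofReal_mul (by positivity),
        ← ENNReal.ofReal_mul (by positivity), ← ENNReal.ofReal_add (by positivity) (by positivity),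
        ← ENNReal.ofReal_add (by positivity) (by positivity), ← ENNReal.ofReal_mul (by positivity)]
      apply ENNReal.ofReal_le_ofReal
      set N := (dn i P).filter (· ∈ NL) with hN
      set n := ∑ Q ∈ N, cw s0 Q with hn
      set S := ∑ Q ∈ N, cw s0 Q * oml Q with hS
      have hup : ∀ Q ∈ N, up i Q = P := fun Q hQ => (mem_dn hP).1 (Finset.mem_filter.1 hQ).1
      have hNL : ∀ Q ∈ N, Q ∈ NL := fun Q hQ => (Finset.mem_filter.1 hQ).2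
      have hsub : ∑ Q ∈ N, cw s0 Q * a Q ≤ C0 * (cw s0 P * at' P + G i P) := by
        refine le_trans ?_ (hT.T1 i P hP)
        apply Finset.sum_le_sum_of_subset_of_nonneg (Finset.filter_subset _ _)
        intro Q _ _
        exact mul_nonneg (cw_nonneg hT.s0_pos Q) (hT.a_nonneg Q)
      have h1 : at' P * n ≤ K * (2 : ℝ) ^ (γ * i) * (C0 * (cw s0 P * at' P + G i P)) := by
        calc at' P * n = ∑ Q ∈ N, cw s0 Q * at' P := by
              rw [hn, Finset.mul_sum]; apply Finset.sum_congr rfl; intro Q _; ring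
          _ ≤ ∑ Q ∈ N, cw s0 Q * (K * (2 : ℝ) ^ (γ * i) * a Q) := by
              apply Finset.sum_le_sum
              intro Q hQ
              apply mul_le_mul_of_nonneg_left _ (cw_nonneg hT.s0_pos Q)
              have := hg1 Q (hNL Q hQ) i
              rwa [hup Q hQ] at this
          _ = K * (2 : ℝ) ^ (γ * i) * ∑ Q ∈ N, cw s0 Q * a Q := by
              rw [Finset.mul_sum]; apply Finset.sum_congr rfl; intro Q _; ring
          _ ≤ _ := mul_le_mul_of_nonneg_left hsub (by positivity)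
      have h2 : D P * n ≤ ((2 : ℝ) ^ ((i : ℝ) / 8)) ^ 2 * (C0 * (cw s0 P * at' P + G i P)) := by
        have e : ((2 : ℝ) ^ ((i : ℝ) / 8)) ^ 2 = (2 : ℝ) ^ ((i : ℝ) / 4) := by
          rw [← Real.rpow_natCast, ← Real.rpow_mul (by norm_num)]
          congr 1; push_cast; ring
        rw [e]
        calc D P * n = ∑ Q ∈ N, cw s0 Q * D P := by
              rw [hn, Finset.mul_sum]; apply Finset.sum_congr rfl; intro Q _; ring
          _ ≤ ∑ Q ∈ N, cw s0 Q * ((2 : ℝ) ^ ((i : ℝ) / 4) * a Q) := by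
              apply Finset.sum_le_sum
              intro Q hQ
              apply mul_le_mul_of_nonneg_left _ (cw_nonneg hT.s0_pos Q)
              have := hg2 Q (hNL Q hQ) i
              rwa [hup Q hQ] at this
          _ = (2 : ℝ) ^ ((i : ℝ) / 4) * ∑ Q ∈ N, cw s0 Q * a Q := by
              rw [Finset.mul_sum]; apply Finset.sum_congr rfl; intro Q _; ring
          _ ≤ _ := mul_le_mul_of_nonneg_left hsub (by positivity)
      have h3 : S ^ 2 ≤ n * (C0 * (cw s0 P * omp P ^ 2)) := by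
        refine (cauchy_w N (cw s0) oml (fun Q _ => cw_nonneg hT.s0_pos Q)).trans ?_
        apply mul_le_mul_of_nonneg_left _
          (Finset.sum_nonneg (fun Q _ => cw_nonneg hT.s0_pos Q))
        refine le_trans ?_ (hT.T2 i P hP)
        apply Finset.sum_le_sum_of_subset_of_nonneg (Finset.filter_subset _ _)
        intro Q _ _
        exact mul_nonneg (cw_nonneg hT.s0_pos Q) (sq_nonneg _)
      have hqt : (2 : ℝ) ^ (γ * i) ≤ ((2 : ℝ) ^ ((i : ℝ) / 8)) ^ 2 := by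
        rw [← Real.rpow_natCast, ← Real.rpow_mul (by norm_num)]
        apply Real.rpow_le_rpow_of_exponent_le (by norm_num)
        push_cast
        have : (0 : ℝ) ≤ i := Nat.cast_nonneg i
        nlinarith only [hγ8]
      have key := ts1_key (C0 := C0) (K := K) (k := Real.sqrt K) (w := cw s0 P) (A := at' P)
        (g := G i P) (D := D P) (o := omp P) (F := F P) (n := n) (S := S)
        (q := (2 : ℝ) ^ (γ * i)) (t := (2 : ℝ) ^ ((i : ℝ) / 8)) hC0 hk1 (Real.sq_sqrt hK0) hwn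
        (hT.at_nonneg P) hGn hDn hon (hT.omp_le P) hFn
        (Finset.sum_nonneg (fun Q _ => cw_nonneg hT.s0_pos Q))
        (Finset.sum_nonneg (fun Q _ => mul_nonneg (cw_nonneg hT.s0_pos Q) (hT.oml_nonneg Q)))
        (by positivity) (by positivity) hqt h1 h2 h3 (hFle P)
      have e3 : (2 : ℝ) ^ (-((i : ℝ) / 4)) * (2 : ℝ) ^ ((i : ℝ) / 8)
          = ((2 : ℝ) ^ (-(1 / 8 : ℝ))) ^ i := by
        rw [← Real.rpow_add (by norm_num), ← Real.rpow_natCast, ← Real.rpow_mul (by norm_num)]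
        congr 1; ring
      calc (2 : ℝ) ^ (-((i : ℝ) / 4)) * F P * S = (2 : ℝ) ^ (-((i : ℝ) / 4)) * (F P * S) := by ring
        _ ≤ (2 : ℝ) ^ (-((i : ℝ) / 4)) * (3 * C0 ^ 3 * (2 : ℝ) ^ ((i : ℝ) / 8) *
            (Real.sqrt K * (cw s0 P * F P * omp P) + cw s0 P * D P + K * G i P)) := by
            gcongr
        _ = ((2 : ℝ) ^ (-((i : ℝ) / 4)) * (2 : ℝ) ^ ((i : ℝ) / 8)) * (3 * C0 ^ 3 *
            (Real.sqrt K * (cw s0 P * F P * omp P) + cw s0 P * D P + K * G i P)) := by ring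
        _ = _ := by rw [e3]; ring
    refine (ENNReal.tsum_le_tsum hpt).trans ?_
    rw [ENNReal.tsum_mul_left]
    refine mul_le_mul_right ?_ _
    rw [ENNReal.tsum_add, ENNReal.tsum_add, ENNReal.tsum_mul_left, ENNReal.tsum_mul_left,
      ENNReal.tsum_mul_left, ← cs_univ, ← cs_univ, ← cs_univ, add_assoc]
    refine add_le_add le_rfl ?_
    have htn := hT.tot_nonneg
    calc ENNReal.ofReal (3 * C0 ^ 3) * cs univ (fun P => cw s0 P * D P)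
        + ENNReal.ofReal (3 * C0 ^ 3 * K) * cs univ (G i)
        ≤ ENNReal.ofReal (3 * C0 ^ 3) * ENNReal.ofReal (C0 * tot)
          + ENNReal.ofReal (3 * C0 ^ 3 * K) * ENNReal.ofReal (C0 * (i + 1) * tot) :=
          add_le_add (mul_le_mul_right hT.D_sum _) (mul_le_mul_right (hT.G_sum i) _)
      _ = ENNReal.ofReal (3 * C0 ^ 3 * (C0 * tot) + 3 * C0 ^ 3 * K * (C0 * (i + 1) * tot)) := by
          rw [← ENNReal.ofReal_mul (by positivity), ← ENNReal.ofReal_mul (by positivity),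
            ← ENNReal.ofReal_add (by positivity) (by positivity)]
      _ ≤ _ := by
          apply ENNReal.ofReal_le_ofReal
          have i1 : 3 * C0 ^ 3 * (C0 * tot) ≤ 3 * C0 ^ 3 * K * (C0 * (i + 1) * tot) := by
            have : C0 * tot * 1 ≤ C0 * tot * (K * (i + 1)) := by
              apply mul_le_mul_of_nonneg_left _ (by positivity)
              have : (0 : ℝ) ≤ i := Nat.cast_nonneg i
              nlinarith only [hK]
            calc 3 * C0 ^ 3 * (C0 * tot) = 3 * C0 ^ 3 * (C0 * tot * 1) := by ring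
              _ ≤ 3 * C0 ^ 3 * (C0 * tot * (K * (i + 1))) := by gcongr
              _ = _ := by ring
          calc 3 * C0 ^ 3 * (C0 * tot) + 3 * C0 ^ 3 * K * (C0 * (i + 1) * tot)
              ≤ 2 * (3 * C0 ^ 3 * K * (C0 * (i + 1) * tot)) := by linarith
            _ = _ := by ring
  have htn := hT.tot_nonneg
  have hkK : Real.sqrt K ≤ K := by
    nlinarith only [hk1, Real.sq_sqrt hK0]
  constructor
  · refine (main D hT.D_nonneg ⟨BD, hBD⟩ ?_).trans ?_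
    · intro Q
      have := hT.at_nonneg Q
      have := hT.D_nonneg Q
      nlinarith
    have hbd : cs univ (fun P => cw s0 P * D P * omp P) ≤ ENNReal.ofReal (C0 * (C0 * tot)) := by
      calc cs univ (fun P => cw s0 P * D P * omp P) ≤ cs univ (fun P => C0 * (cw s0 P * D P)) := by
            apply cs_mono
            intro Q _
            rw [mul_comm C0]
            apply mul_le_mul_of_nonneg_left (hT.omp_le Q)
            exact mul_nonneg (cw_nonneg hT.s0_pos Q) (hT.D_nonneg Q)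
        _ = ENNReal.ofReal C0 * cs univ (fun P => cw s0 P * D P) := cs_mul (by linarith) _
        _ ≤ ENNReal.ofReal C0 * ENNReal.ofReal (C0 * tot) := mul_le_mul_right hT.D_sum _
        _ = _ := by rw [← ENNReal.ofReal_mul (by linarith)]
    calc _ ≤ ENNReal.ofReal Cg * (ENNReal.ofReal (3 * C0 ^ 3 * Real.sqrt K) *
          ENNReal.ofReal (C0 * (C0 * tot))) +
        ENNReal.ofReal (Cg * (3 * C0 ^ 3 * (2 * C0) * K * tot)) := by gcongr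
      _ = ENNReal.ofReal (Cg * (3 * C0 ^ 3 * Real.sqrt K * (C0 * (C0 * tot)))
          + Cg * (3 * C0 ^ 3 * (2 * C0) * K * tot)) := by
          rw [← ENNReal.ofReal_mul (by positivity), ← ENNReal.ofReal_mul (by positivity),
            ← ENNReal.ofReal_add (by positivity) (by positivity)]
      _ ≤ _ := by
          apply ENNReal.ofReal_le_ofReal
          have i1 : Cg * (3 * C0 ^ 3 * Real.sqrt K * (C0 * (C0 * tot))) ≤
              Cg * (3 * C0 ^ 3 * K * (C0 * (C0 * tot))) := by (clear * - hkK hC0 htn hCg; gcongr)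
          have i2 : 0 ≤ Cg * (3 * C0 ^ 3) * K * tot := by positivity
          rw [hC1]
          linarith only [i1, i2]
  · refine (main b hb ⟨Bb, hBb⟩ hb2).trans ?_
    refine add_le_add ?_ ?_
    · rw [← mul_assoc, ← ENNReal.ofReal_mul (by positivity)]
      refine mul_le_mul_left (ENNReal.ofReal_le_ofReal ?_) _
      have : 0 ≤ Cg * C1 * Real.sqrt K := by positivity
      linarith only [this]
    · apply ENNReal.ofReal_le_ofReal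
      have i2 : 0 ≤ Cg * (3 * C0 ^ 3) * K * tot := by positivity
      have i3 : 0 ≤ Cg * (3 * C0 ^ 3 * C0 ^ 2) * K * tot := by positivity
      rw [hC1]
      linarith only [i2, i3]

end

end TG


end

section

/-! tree sums, (15.2) and the passage to the parent -/

open Set TrI
open scoped ENNReal Classical

namespace TG

noncomputable section

variable {d : ℕ}

theorem cs_iUnion (T : ℕ → Set (Cell d)) (F : Cell d → ℝ) :
    cs (⋃ i, T i) F ≤ ∑' i, cs (T i) F := by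
  unfold cs
  rw [ENNReal.tsum_comm]
  apply ENNReal.tsum_le_tsum
  intro Q
  by_cases hQ : Q ∈ ⋃ i, T i
  · obtain ⟨i, hi⟩ := mem_iUnion.1 hQ
    simp only [hQ, indicator_of_mem]
    refine le_trans ?_ (ENNReal.le_tsum i)
    simp [hi]
  · simp [hQ]

theorem cs_fiber {T : Set (Cell d)} {F : Cell d → ℝ} (hF : ∀ Q, 0 ≤ F Q) (i : ℕ) :
    cs T F = ∑' P : Cell d, if i ≤ P.1 then
      ENNReal.ofReal (∑ Q ∈ (dn i P).filter (· ∈ T), F Q) else 0 := by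
  unfold cs
  rw [tsum_up _ i]
  apply tsum_congr
  intro P
  split_ifs with hP
  · rw [ENNReal.ofReal_sum_of_nonneg (fun Q _ => hF Q), Finset.sum_filter]
    apply Finset.sum_congr rfl
    intro Q _
    by_cases hQ : Q ∈ T <;> simp [hQ]
  · rfl

theorem cs_fiber_le {T : Set (Cell d)} {F : Cell d → ℝ} (hF : ∀ Q, 0 ≤ F Q) (i : ℕ)
    (H : Cell d → ℝ≥0∞) (h : ∀ P : Cell d, i ≤ P.1 → ∀ N : Finset (Cell d), N ⊆ dn i P →
      (∀ Q ∈ N, Q ∈ T) → ENNReal.ofReal (∑ Q ∈ N, F Q) ≤ H P) :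
    cs T F ≤ ∑' P, H P := by
  rw [cs_fiber hF i]
  apply ENNReal.tsum_le_tsum
  intro P
  split_ifs with hP
  · apply h P hP _ (Finset.filter_subset _ _)
    intro Q hQ
    exact (Finset.mem_filter.1 hQ).2
  · exact zero_le

/-- Cauchy-Schwarz with weights, two functions -/
theorem cauchy_w2 {ι : Type*} (s : Finset ι) (w a o : ι → ℝ) (hw : ∀ i ∈ s, 0 ≤ w i) :
    (∑ i ∈ s, w i * a i * o i) ^ 2 ≤ (∑ i ∈ s, w i * a i ^ 2) * ∑ i ∈ s, w i * o i ^ 2 := by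
  have h := Finset.sum_mul_sq_le_sq_mul_sq s (fun i => Real.sqrt (w i) * a i)
    (fun i => Real.sqrt (w i) * o i)
  have e1 : ∑ i ∈ s, Real.sqrt (w i) * a i * (Real.sqrt (w i) * o i)
      = ∑ i ∈ s, w i * a i * o i := by
    apply Finset.sum_congr rfl
    intro i hi
    calc Real.sqrt (w i) * a i * (Real.sqrt (w i) * o i)
        = (Real.sqrt (w i) * Real.sqrt (w i)) * a i * o i := by ring
      _ = _ := by rw [Real.mul_self_sqrt (hw i hi)]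
  have e2 : ∀ g : ι → ℝ, ∑ i ∈ s, (Real.sqrt (w i) * g i) ^ 2 = ∑ i ∈ s, w i * g i ^ 2 := by
    intro g
    apply Finset.sum_congr rfl
    intro i hi
    rw [mul_pow, Real.sq_sqrt (hw i hi)]
  rw [e1, e2, e2] at h
  exact h

theorem ts2_key {C0 K w A g D S δ q t SA : ℝ} (hC0 : 0 ≤ C0) (hK : 1 ≤ K)
    (hw : 0 ≤ w) (hg : 0 ≤ g) (hD : 0 ≤ D) (hδ : 0 < δ) (hδ1 : δ ≤ 1)
    (hS : 0 ≤ S) (ht : 1 ≤ t) (hqt : q ≤ t)
    (hSA : SA ≤ C0 * (w * A + g)) (hAD : A ≤ K * q * (D / (δ * t)))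
    (h3 : S ^ 2 ≤ (D / (δ * t) * SA) * (C0 * w)) :
    S ≤ C0 * K / δ * (Real.sqrt (1 / t)) * (w * D + g) := by
  have ht0 : 0 < t := by linarith
  have hR : 0 ≤ C0 * K / δ * (Real.sqrt (1 / t)) * (w * D + g) := by positivity
  rw [← pow_le_pow_iff_left₀ hS hR (two_ne_zero)]
  have e2 : (C0 * K / δ * (Real.sqrt (1 / t)) * (w * D + g)) ^ 2
      = C0 ^ 2 * K ^ 2 / δ ^ 2 * (1 / t) * (w * D + g) ^ 2 := by
    have : Real.sqrt (1 / t) ^ 2 = 1 / t := Real.sq_sqrt (by positivity)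
    calc (C0 * K / δ * (Real.sqrt (1 / t)) * (w * D + g)) ^ 2
        = C0 ^ 2 * K ^ 2 / δ ^ 2 * (Real.sqrt (1 / t) ^ 2) * (w * D + g) ^ 2 := by
          field_simp
      _ = _ := by rw [this]
  rw [e2]
  have hAD' : A ≤ K * (D / δ) := by
    refine hAD.trans ?_
    have : K * q * (D / (δ * t)) ≤ K * t * (D / (δ * t)) := by gcongr
    refine this.trans (le_of_eq ?_)
    field_simp
  have hSA2 : SA ≤ C0 * (K / δ * (w * D) + g) := by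
    refine hSA.trans ?_
    have : w * A ≤ K / δ * (w * D) := by
      calc w * A ≤ w * (K * (D / δ)) := by gcongr
        _ = _ := by ring
    gcongr
  have hKδ : 1 ≤ K / δ := by
    rw [le_div_iff₀ hδ]; linarith
  have hSA3 : SA ≤ C0 * (K / δ * (w * D + g)) := by
    refine hSA2.trans ?_
    have : g ≤ K / δ * g := by nlinarith only [hg, hKδ]
    have : K / δ * (w * D) + g ≤ K / δ * (w * D + g) := by linarith
    gcongr
  calc S ^ 2 ≤ (D / (δ * t) * SA) * (C0 * w) := h3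
    _ ≤ (D / (δ * t) * (C0 * (K / δ * (w * D + g)))) * (C0 * w) := by gcongr
    _ = C0 ^ 2 * K / δ ^ 2 * (1 / t) * ((w * D) * (w * D + g)) := by field_simp
    _ ≤ C0 ^ 2 * K ^ 2 / δ ^ 2 * (1 / t) * (w * D + g) ^ 2 := by
        have i1 : (w * D) * (w * D + g) ≤ (w * D + g) ^ 2 := by
          have : 0 ≤ w * D := by positivity
          nlinarith only [hg, this]
        have i2 : K ≤ K ^ 2 := by nlinarith only [hK]
        (clear * - i2 hδ ht i1 hw hD hg hK; gcongr)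

theorem stmtTS2 : StmtTS2 := by
  intro d C0 γ hd hγ hγ8
  have hr1 : (2 : ℝ) ^ (-(1 / 16 : ℝ)) < 1 := Real.rpow_lt_one_of_one_lt_of_neg (by norm_num)
    (by norm_num)
  obtain ⟨Cg, hCg, gen⟩ := gen_sum ((2 : ℝ) ^ (-(1 / 16 : ℝ))) (by positivity) hr1
  by_cases hC0 : 1 ≤ C0
  swap
  · refine ⟨1, one_pos, ?_⟩
    intro s0 tot K δ a at' D oml omp o G S hK hδ hδ1 hT
    exact absurd hT.C0_one hC0
  have hC0' : 0 < C0 := by linarith
  refine ⟨Cg * (2 * C0 ^ 2), by positivity, ?_⟩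
  intro s0 tot K δ a at' D oml omp o G S hK hδ hδ1 hT ho hT3 hS1 hS2
  have hK0 : 0 ≤ K := by linarith
  have htn := hT.tot_nonneg
  set T : ℕ → Set (Cell d) := fun i =>
    {Q | Q ∈ S ∧ δ * (2 : ℝ) ^ ((i : ℝ) / 8) * a Q ≤ D (up i Q)} with hTdef
  have hST : S ⊆ ⋃ i, T i := by
    intro Q hQ
    obtain ⟨i, hi⟩ := hS2 Q hQ
    exact mem_iUnion.2 ⟨i, hQ, hi⟩
  refine (cs_subset hST _).trans ((cs_iUnion T _).trans ?_)
  have hFn : ∀ Q, 0 ≤ cw s0 Q * a Q * o Q := fun Q =>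
    mul_nonneg (mul_nonneg (cw_nonneg hT.s0_pos Q) (hT.a_nonneg Q)) (ho Q)
  have := gen 0 (2 * C0 ^ 2 * K / δ * tot) (fun i => cs (T i) (fun Q => cw s0 Q * a Q * o Q))
    (by positivity) ?_
  · refine this.trans ?_
    rw [mul_zero, zero_add]
    apply ENNReal.ofReal_le_ofReal
    apply le_of_eq; field_simp
  intro i
  rw [zero_add]
  refine (cs_fiber_le hFn i (fun P =>
      ENNReal.ofReal (((2 : ℝ) ^ (-(1 / 16 : ℝ))) ^ i) * (ENNReal.ofReal (C0 * K / δ) *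
        (ENNReal.ofReal (cw s0 P * D P) + ENNReal.ofReal (G i P)))) ?_).trans ?_
  · intro P hP N hNsub hNT
    have hwn : 0 ≤ cw s0 P := cw_nonneg hT.s0_pos P
    have hDn := hT.D_nonneg P
    have hGn := hT.G_nonneg i P
    rw [← ENNReal.ofReal_add (by positivity) (by positivity), ← ENNReal.ofReal_mul (by positivity),
      ← ENNReal.ofReal_mul (by positivity)]
    apply ENNReal.ofReal_le_ofReal
    have hup : ∀ Q ∈ N, up i Q = P := fun Q hQ => (mem_dn hP).1 (hNsub hQ)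
    rcases N.eq_empty_or_nonempty with hE | ⟨Q0, hQ0⟩
    · rw [hE, Finset.sum_empty]; positivity
    set t : ℝ := (2 : ℝ) ^ ((i : ℝ) / 8) with ht
    have ht1 : 1 ≤ t := Real.one_le_rpow (by norm_num) (by positivity)
    have ht0 : 0 < t := by linarith
    have haD : ∀ Q ∈ N, a Q ≤ D P / (δ * t) := by
      intro Q hQ
      have := (hNT Q hQ).2
      rw [hup Q hQ] at this
      rw [le_div_iff₀ (by positivity)]
      linarith
    have key := ts2_key (C0 := C0) (K := K) (w := cw s0 P) (A := at' P) (g := G i P) (D := D P)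
      (S := ∑ Q ∈ N, cw s0 Q * a Q * o Q) (δ := δ) (q := (2 : ℝ) ^ (γ * i)) (t := t)
      (SA := ∑ Q ∈ N, cw s0 Q * a Q) hC0'.le hK hwn hGn hDn hδ hδ1
      (Finset.sum_nonneg (fun Q _ => hFn Q)) ht1 ?_ ?_ ?_ ?_
    · refine key.trans (le_of_eq ?_)
      have e : Real.sqrt (1 / t) = ((2 : ℝ) ^ (-(1 / 16 : ℝ))) ^ i := by
        rw [ht, one_div, ← Real.rpow_neg (by norm_num), Real.sqrt_eq_rpow,
          ← Real.rpow_mul (by norm_num), ← Real.rpow_natCast, ← Real.rpow_mul (by norm_num)]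
        congr 1; ring
      rw [e]; ring
    · rw [ht]
      apply Real.rpow_le_rpow_of_exponent_le (by norm_num)
      have : (0 : ℝ) ≤ i := Nat.cast_nonneg i
      nlinarith only [hγ8]
    · refine le_trans ?_ (hT.T1 i P hP)
      apply Finset.sum_le_sum_of_subset_of_nonneg hNsub
      intro Q _ _
      exact mul_nonneg (cw_nonneg hT.s0_pos Q) (hT.a_nonneg Q)
    · have h1 := hS1 Q0 (hNT Q0 hQ0).1 i
      rw [hup Q0 hQ0] at h1
      refine h1.trans ?_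
      exact mul_le_mul_of_nonneg_left (haD Q0 hQ0) (by positivity)
    · refine (cauchy_w2 N (cw s0) a o (fun Q _ => cw_nonneg hT.s0_pos Q)).trans ?_
      apply mul_le_mul _ _ (Finset.sum_nonneg (fun Q _ => by
        have := cw_nonneg hT.s0_pos Q; positivity)) _
      · rw [Finset.mul_sum]
        apply Finset.sum_le_sum
        intro Q hQ
        have h1 := haD Q hQ
        have h2 := cw_nonneg hT.s0_pos Q
        have h3 := hT.a_nonneg Q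
        calc cw s0 Q * a Q ^ 2 = a Q * (cw s0 Q * a Q) := by ring
          _ ≤ _ := mul_le_mul_of_nonneg_right h1 (by positivity)
      · refine le_trans ?_ (hT3 i P hP)
        apply Finset.sum_le_sum_of_subset_of_nonneg hNsub
        intro Q _ _
        exact mul_nonneg (cw_nonneg hT.s0_pos Q) (sq_nonneg _)
      · apply mul_nonneg (by positivity)
        exact Finset.sum_nonneg (fun Q _ => mul_nonneg (cw_nonneg hT.s0_pos Q) (hT.a_nonneg Q))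
  rw [ENNReal.tsum_mul_left]
  refine mul_le_mul_right ?_ _
  rw [ENNReal.tsum_mul_left, ENNReal.tsum_add, ← cs_univ, ← cs_univ]
  calc ENNReal.ofReal (C0 * K / δ) * (cs univ (fun P => cw s0 P * D P) + cs univ (G i))
      ≤ ENNReal.ofReal (C0 * K / δ) * (ENNReal.ofReal (C0 * tot)
        + ENNReal.ofReal (C0 * (i + 1) * tot)) := by
        gcongr
        · exact hT.D_sum
        · exact hT.G_sum i
    _ = ENNReal.ofReal (C0 * K / δ * (C0 * tot + C0 * (i + 1) * tot)) := by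
        rw [← ENNReal.ofReal_add (by positivity) (by positivity),
          ← ENNReal.ofReal_mul (by positivity)]
    _ ≤ _ := by
        apply ENNReal.ofReal_le_ofReal
        have h1 : C0 * tot ≤ C0 * (i + 1) * tot := by
          have : (0 : ℝ) ≤ i := Nat.cast_nonneg i
          have h2 : 0 ≤ C0 * i * tot := by positivity
          linarith only [h2]
        calc C0 * K / δ * (C0 * tot + C0 * (i + 1) * tot)
            ≤ C0 * K / δ * (2 * (C0 * (i + 1) * tot)) := by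
              gcongr; linarith
          _ = _ := by field_simp

theorem stmtTS3 : StmtTS3 := by
  intro d C0 m hd hC0
  set N : ℝ := ((2 : ℝ) ^ m) ^ d with hN
  refine ⟨C0 ^ 2 * N + C0 ^ 3 + C0 ^ 3 * N + 1, by positivity, ?_⟩
  intro s0 tot D oml omp b hs0 htot hb hD homl homp h1 h2 h3 h4
  have hN' : (((2 ^ m) ^ d : ℕ) : ℝ≥0∞) = ENNReal.ofReal N := by
    rw [hN]
    rw [← ENNReal.ofReal_natCast]
    push_cast
    rfl
  have hpt : ∀ P, cw s0 P * b P * omp P ≤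
      C0 ^ 2 * (cw s0 (up m P) * b (up m P) * oml (up m P)) + C0 ^ 2 * (cw s0 P * D P)
        + C0 ^ 2 * (cw s0 (up m P) * D (up m P)) := by
    intro P
    have w0 := cw_nonneg hs0 P
    have w1 := cw_up hs0 m P
    have w2 := cw_nonneg hs0 (up m P)
    have o0 := homp P
    have b1 := hb (up m P)
    have d0 := hD P
    have d1 := hD (up m P)
    have o1 := homl (up m P)
    calc cw s0 P * b P * omp P
        ≤ cw s0 P * (C0 * (b (up m P) + D P + D (up m P))) * omp P := by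
          gcongr; exact h1 P
      _ = C0 * (cw s0 P * b (up m P) * omp P) + C0 * (cw s0 P * D P * omp P)
          + C0 * (cw s0 P * D (up m P) * omp P) := by ring
      _ ≤ C0 * (cw s0 (up m P) * b (up m P) * (C0 * oml (up m P))) + C0 * (cw s0 P * D P * C0)
          + C0 * (cw s0 (up m P) * D (up m P) * C0) := by
          gcongr
          · exact h2 P
          · exact h3 P
          · exact h3 P
      _ = _ := by ring
  have e1 : ∀ F : Cell d → ℝ, cs univ (fun P => F (up m P)) ≤ ENNReal.ofReal N * cs univ F := by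
    intro F
    rw [cs_univ, cs_univ, ← hN']
    exact tsum_comp_up (fun Q => ENNReal.ofReal (F Q)) m
  have hbo : ∀ Q, 0 ≤ cw s0 Q * b Q * oml Q := fun Q =>
    mul_nonneg (mul_nonneg (cw_nonneg hs0 Q) (hb Q)) (homl Q)
  have hwD : ∀ Q, 0 ≤ cw s0 Q * D Q := fun Q => mul_nonneg (cw_nonneg hs0 Q) (hD Q)
  calc cs univ (fun P => cw s0 P * b P * omp P)
      ≤ cs univ (fun P => C0 ^ 2 * (cw s0 (up m P) * b (up m P) * oml (up m P))
        + C0 ^ 2 * (cw s0 P * D P) + C0 ^ 2 * (cw s0 (up m P) * D (up m P))) :=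
        cs_mono (fun P _ => hpt P)
    _ = ENNReal.ofReal (C0 ^ 2) * cs univ (fun P => cw s0 (up m P) * b (up m P) * oml (up m P))
        + ENNReal.ofReal (C0 ^ 2) * cs univ (fun P => cw s0 P * D P)
        + ENNReal.ofReal (C0 ^ 2) * cs univ (fun P => cw s0 (up m P) * D (up m P)) := by
        rw [cs_add, cs_add, cs_mul (by positivity), cs_mul (by positivity),
          cs_mul (by positivity)]
        · intro Q _; have := hbo (up m Q); positivity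
        · intro Q _; have := hwD Q; positivity
        · intro Q _; have := hbo (up m Q); have := hwD Q; positivity
        · intro Q _; have := hwD (up m Q); positivity
    _ ≤ ENNReal.ofReal (C0 ^ 2) * (ENNReal.ofReal N * cs univ (fun P => cw s0 P * b P * oml P))
        + ENNReal.ofReal (C0 ^ 2) * ENNReal.ofReal (C0 * tot)
        + ENNReal.ofReal (C0 ^ 2) * (ENNReal.ofReal N * ENNReal.ofReal (C0 * tot)) := by
        gcongr
        · exact e1 (fun P => cw s0 P * b P * oml P)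
        · exact (e1 (fun P => cw s0 P * D P)).trans (by gcongr)
    _ = ENNReal.ofReal (C0 ^ 2 * N) * cs univ (fun P => cw s0 P * b P * oml P)
        + ENNReal.ofReal (C0 ^ 2 * (C0 * tot) + C0 ^ 2 * (N * (C0 * tot))) := by
        rw [← mul_assoc, ← ENNReal.ofReal_mul (by positivity), ← ENNReal.ofReal_mul (by positivity),
          ← ENNReal.ofReal_mul (by positivity), ← ENNReal.ofReal_mul (by positivity), add_assoc,
          ← ENNReal.ofReal_add (by positivity) (by positivity)]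
    _ ≤ _ := by
        gcongr
        · have : 0 ≤ C0 ^ 3 + C0 ^ 3 * N := by positivity
          linarith
        · have : 0 ≤ (C0 ^ 2 * N) * tot := by positivity
          nlinarith

end

end TG


end

section

/-! light cells, abstract part of section 14' -/

open Set TrI
open scoped ENNReal Classical

namespace TG

noncomputable section

variable {d : ℕ}

/-- (14.1') -/
theorem lt_key1 {C0 w A g o θ r S SA SO : ℝ} (hC0 : 0 ≤ C0) (hw : 0 ≤ w) (hA : 0 ≤ A)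
    (hg : 0 ≤ g) (ho : 0 ≤ o) (hθ : 0 ≤ θ) (hr : 0 ≤ r) (hS : 0 ≤ S)
    (h1 : S ^ 2 ≤ (θ * (r ^ 2 * A) * SA) * SO) (hSO0 : 0 ≤ SO)
    (hSA : SA ≤ C0 * (w * A + g)) (hSO : SO ≤ C0 * (w * o ^ 2)) :
    S ≤ r * (C0 * Real.sqrt θ * ((w * A + g) * o)) := by
  have hR : 0 ≤ r * (C0 * Real.sqrt θ * ((w * A + g) * o)) := by positivity
  rw [← pow_le_pow_iff_left₀ hS hR (two_ne_zero)]
  have e2 : (r * (C0 * Real.sqrt θ * ((w * A + g) * o))) ^ 2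
      = r ^ 2 * (C0 ^ 2 * θ * ((w * A + g) * o) ^ 2) := by
    have : Real.sqrt θ ^ 2 = θ := Real.sq_sqrt hθ
    calc (r * (C0 * Real.sqrt θ * ((w * A + g) * o))) ^ 2
        = r ^ 2 * (C0 ^ 2 * (Real.sqrt θ ^ 2) * ((w * A + g) * o) ^ 2) := by ring
      _ = _ := by rw [this]
  rw [e2]
  calc S ^ 2 ≤ (θ * (r ^ 2 * A) * SA) * SO := h1
    _ ≤ (θ * (r ^ 2 * A) * (C0 * (w * A + g))) * (C0 * (w * o ^ 2)) := by gcongr
    _ = r ^ 2 * (C0 ^ 2 * θ * (((w * A) * (w * A + g)) * o ^ 2)) := by ring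
    _ ≤ r ^ 2 * (C0 ^ 2 * θ * ((w * A + g) ^ 2 * o ^ 2)) := by
        have : (w * A) * (w * A + g) ≤ (w * A + g) ^ 2 := by
          have : 0 ≤ w * A := by positivity
          nlinarith only [hg, this]
        gcongr
    _ = _ := by ring

theorem lt_key3 {C1 w A g θ r S SA SO om b D Y : ℝ} (hC1 : 0 ≤ C1) (hw : 0 ≤ w)
    (hg : 0 ≤ g) (hθ : 0 ≤ θ) (hr : 0 ≤ r) (hS : 0 ≤ S) (hom : 0 ≤ om) (hb : 0 ≤ b) (hD : 0 ≤ D)
    (hY : 0 ≤ Y) (hSO0 : 0 ≤ A * SO)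
    (h1 : S ^ 2 ≤ (θ * (r ^ 2 * A) * SA) * SO)
    (hSA : SA ≤ C1 * (w * (b + D) + g)) (hSO : A * SO ≤ C1 * (w * om * Y)) :
    S ≤ r * (C1 * Real.sqrt θ * (w * (Y + b * om) + om * (w * D + g))) := by
  have hR : 0 ≤ r * (C1 * Real.sqrt θ * (w * (Y + b * om) + om * (w * D + g))) := by positivity
  rw [← pow_le_pow_iff_left₀ hS hR (two_ne_zero)]
  have e2 : (r * (C1 * Real.sqrt θ * (w * (Y + b * om) + om * (w * D + g)))) ^ 2
      = r ^ 2 * (C1 ^ 2 * θ * (w * (Y + b * om) + om * (w * D + g)) ^ 2) := by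
    have : Real.sqrt θ ^ 2 = θ := Real.sq_sqrt hθ
    calc (r * (C1 * Real.sqrt θ * (w * (Y + b * om) + om * (w * D + g)))) ^ 2
        = r ^ 2 * (C1 ^ 2 * (Real.sqrt θ ^ 2) * (w * (Y + b * om) + om * (w * D + g)) ^ 2) := by
          ring
      _ = _ := by rw [this]
  rw [e2]
  calc S ^ 2 ≤ (θ * (r ^ 2 * A) * SA) * SO := h1
    _ = θ * r ^ 2 * SA * (A * SO) := by ring
    _ ≤ θ * r ^ 2 * (C1 * (w * (b + D) + g)) * (C1 * (w * om * Y)) := by gcongr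
    _ = r ^ 2 * (C1 ^ 2 * θ * ((w * Y) * (om * (w * (b + D) + g)))) := by ring
    _ ≤ r ^ 2 * (C1 ^ 2 * θ * (w * (Y + b * om) + om * (w * D + g)) ^ 2) := by
        have i1 : (w * Y) * (om * (w * (b + D) + g)) ≤
            (w * (Y + b * om) + om * (w * D + g)) ^ 2 := by
          have x0 : 0 ≤ w * Y := by positivity
          have y0 : 0 ≤ om * (w * (b + D) + g) := by positivity
          have e : w * (Y + b * om) + om * (w * D + g)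
              = w * Y + om * (w * (b + D) + g) := by ring
          rw [e]
          linarith only [mul_nonneg x0 y0, sq_nonneg (w * Y), sq_nonneg (om * (w * (b + D) + g))]
        gcongr

theorem stmtLT : StmtLT := by
  intro d C0 C1 γ m hd hC1 hγ hγ8
  have hr1 : (2 : ℝ) ^ (-(γ / 2)) < 1 := Real.rpow_lt_one_of_one_lt_of_neg (by norm_num)
    (by linarith)
  set r : ℝ := (2 : ℝ) ^ (-(γ / 2)) with hr
  have hr0 : 0 < r := by positivity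
  obtain ⟨Cg, hCg, gen⟩ := gen_sum r hr0 hr1
  obtain ⟨C2, hC2, ts2⟩ := stmtTS2 d C0 γ hd hγ hγ8
  by_cases hC0 : 1 ≤ C0
  swap
  · refine ⟨1, one_pos, ?_⟩
    intro κ θ δ _ _ _ _ _ _
    refine ⟨1, one_pos, ?_⟩
    intro s0 tot a at' al ah D oml omp om b Y TG G hT
    exact absurd hT.C0_one hC0
  have hC0' : 0 < C0 := by linarith
  set N : ℝ := ((2 : ℝ) ^ m) ^ d with hN
  have hN0 : 0 < N := by positivity
  have hNc : (((2 ^ m) ^ d : ℕ) : ℝ≥0∞) = ENNReal.ofReal N := by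
    rw [hN, ← ENNReal.ofReal_natCast]
    push_cast
    rfl
  refine ⟨Cg * (C0 ^ 2 * N + C1) + 1, by positivity, ?_⟩
  intro κ θ δ hκ hκ1 hθ hθ1 hδ hδ1
  -- constants of the payable part
  set c5 : ℝ := C0 ^ 3 / δ + 2 * C0 ^ 2 * (C2 * (2 * C0) / (δ / C0)) + C1 * C0 * (N * C0)
    + (C0 ^ 2 + C1 * C0) * C0 with hc5
  refine ⟨Cg * c5 + 1, by positivity, ?_⟩
  intro s0 tot a at' al ah D oml omp om b Y TG G hT hal hal2 hah hb hY hom homC hTG homp hTGs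
    htail hIII
  have htn := hT.tot_nonneg
  have hsθ1 : Real.sqrt θ ≤ 1 := by
    rw [show (1 : ℝ) = Real.sqrt 1 by simp]
    exact Real.sqrt_le_sqrt hθ1
  -- the class I2
  set S2 : Set (Cell d) := {P | (∀ l : ℕ, at' (up l P) ≤ (2 : ℝ) ^ (γ * l) * at' P) ∧
    TG P ≤ δ * at' P ∧ ∃ l : ℕ, δ * (2 : ℝ) ^ ((l : ℝ) / 8) * at' P ≤ D (up l P)} with hS2
  have hS2a : ∀ P ∈ S2, at' P ≤ 2 * C0 * a P := by
    intro P hP
    have h1 := htail P hP.1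
    have h2 := hP.2.1
    have h3 : C0 * TG P ≤ C0 * (δ * at' P) := by gcongr
    have h4 : C0 * (δ * at' P) ≤ 1 / 2 * at' P := by
      have := hT.at_nonneg P
      nlinarith only [hδ1, this]
    linarith only [h1, h3, h4]
  have hI2 : cs S2 (fun P => cw s0 P * at' P * omp P) ≤
      ENNReal.ofReal (2 * C0 * (C2 * (2 * C0) / (δ / C0) * tot)) := by
    calc cs S2 (fun P => cw s0 P * at' P * omp P)
        ≤ cs S2 (fun P => (2 * C0) * (cw s0 P * a P * omp P)) := by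
          apply cs_mono
          intro P hP
          have h1 := hS2a P hP
          have h2 := cw_nonneg hT.s0_pos P
          have h3 := hT.omp_nonneg P
          calc cw s0 P * at' P * omp P ≤ cw s0 P * (2 * C0 * a P) * omp P := by gcongr
            _ = _ := by ring
      _ = ENNReal.ofReal (2 * C0) * cs S2 (fun P => cw s0 P * a P * omp P) :=
          cs_mul (by positivity) _
      _ ≤ ENNReal.ofReal (2 * C0) * ENNReal.ofReal (C2 * (2 * C0) / (δ / C0) * tot) := by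
          refine mul_le_mul_right ?_ _
          apply ts2 s0 tot (2 * C0) (δ / C0) a at' D oml omp omp G S2 (by linarith)
            (by positivity) ?_ hT hT.omp_nonneg hT.T3
          · intro Q hQ i
            have h1 := hS2a Q hQ
            have h2 : (0 : ℝ) < (2 : ℝ) ^ (γ * i) := by positivity
            calc at' (up i Q) ≤ (2 : ℝ) ^ (γ * i) * at' Q := hQ.1 i
              _ ≤ (2 : ℝ) ^ (γ * i) * (2 * C0 * a Q) := by gcongr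
              _ = _ := by ring
          · intro Q hQ
            obtain ⟨l, hl⟩ := hQ.2.2
            refine ⟨l, le_trans ?_ hl⟩
            have h1 := hT.a_le Q
            have h2 : (0 : ℝ) < (2 : ℝ) ^ ((l : ℝ) / 8) := by positivity
            calc δ / C0 * (2 : ℝ) ^ ((l : ℝ) / 8) * a Q
                ≤ δ / C0 * (2 : ℝ) ^ ((l : ℝ) / 8) * (C0 * at' Q) := by gcongr
              _ = _ := by field_simp
          · rw [div_le_one hC0']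
            nlinarith only [hC0, hδ1]
      _ = _ := by rw [← ENNReal.ofReal_mul (by positivity)]
  set III := CIII γ κ δ m at' D b TG with hIIIdef
  have hFn : ∀ Q, 0 ≤ cw s0 Q * al Q * oml Q := fun Q =>
    mul_nonneg (mul_nonneg (cw_nonneg hT.s0_pos Q) (hal Q)) (hT.oml_nonneg Q)
  -- split over the generation of the top
  have hW : WL γ θ ah at' = ⋃ i, {Q | Top γ θ ah at' i Q} := by
    ext Q; simp [WL]
  rw [hW]
  refine (cs_iUnion _ _).trans ?_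
  -- the bound of one generation
  set X : ℝ≥0∞ := ENNReal.ofReal (C0 ^ 2 * N * (Real.sqrt θ / κ)) *
      cs univ (fun P => cw s0 P * b P * oml P)
    + ENNReal.ofReal (C1 * Real.sqrt θ) *
      cs III (fun P => cw s0 P * (Y P + b (up m P) * om P)) with hX
  have hgen := gen X (c5 * tot) (fun i => cs {Q | Top γ θ ah at' i Q}
    (fun Q => cw s0 Q * al Q * oml Q)) (by (clear * - hC0 hδ hC2 hC1 htn; positivity)) ?_
  · refine hgen.trans ?_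
    rw [hX, mul_add, ← mul_assoc, ← mul_assoc, ← ENNReal.ofReal_mul (by positivity),
      ← ENNReal.ofReal_mul (by positivity)]
    refine add_le_add (add_le_add ?_ ?_) ?_
    · refine mul_le_mul_left (ENNReal.ofReal_le_ofReal ?_) _
      have : 0 ≤ Real.sqrt θ / κ := by positivity
      calc Cg * (C0 ^ 2 * N * (Real.sqrt θ / κ)) ≤
          (Cg * (C0 ^ 2 * N + C1) + 1) * (Real.sqrt θ / κ) := by
            have h2 : 0 ≤ (Cg * C1 + 1) * (Real.sqrt θ / κ) := by positivity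
            linarith only [h2]
        _ = _ := by ring
    · refine mul_le_mul_left (ENNReal.ofReal_le_ofReal ?_) _
      have h2 : 0 ≤ (Cg * (C0 ^ 2 * N) + 1) * Real.sqrt θ := by positivity
      linarith only [h2]
    · apply ENNReal.ofReal_le_ofReal
      linarith only [htn]
  intro i
  -- pointwise majorant
  set H : Cell d → ℝ≥0∞ := fun P =>
    ENNReal.ofReal (r ^ i) *
      (ENNReal.ofReal (C0 ^ 2 * (Real.sqrt θ / κ)) *
          ENNReal.ofReal (cw s0 (up m P) * b (up m P) * oml (up m P))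
        + ENNReal.ofReal (C1 * Real.sqrt θ) *
          III.indicator (fun P => ENNReal.ofReal (cw s0 P * (Y P + b (up m P) * om P))) P
        + ENNReal.ofReal (C0 ^ 2 / δ) * ENNReal.ofReal (cw s0 P * TG P)
        + ENNReal.ofReal C0 * S2.indicator
          (fun P => ENNReal.ofReal (cw s0 P * at' P * omp P)) P
        + ENNReal.ofReal (C1 * C0) * ENNReal.ofReal (cw s0 (up m P) * D (up m P))
        + ENNReal.ofReal (C0 ^ 2 + C1 * C0) * ENNReal.ofReal (G i P)) with hH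
  refine (cs_fiber_le hFn i H ?_).trans ?_
  · intro P hP Nf hNsub hNT
    rcases Nf.eq_empty_or_nonempty with hE | ⟨Q0, hQ0⟩
    · rw [hE, Finset.sum_empty, ENNReal.ofReal_zero]
      exact zero_le
    have hup : ∀ Q ∈ Nf, up i Q = P := fun Q hQ => (mem_dn hP).1 (hNsub hQ)
    have hw := cw_nonneg hT.s0_pos P
    have hgrow : ∀ l : ℕ, at' (up l P) ≤ (2 : ℝ) ^ (γ * l) * at' P := by
      intro l
      have h1 := (hNT Q0 hQ0).1 (i + l)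
      rw [← up_up, hup Q0 hQ0] at h1
      have e1 : (2 : ℝ) ^ (-(γ * ((i + l : ℕ) : ℝ))) = (2 : ℝ) ^ (-(γ * i)) * (2 : ℝ) ^ (-(γ * l)) := by
        rw [← Real.rpow_add (by norm_num)]
        congr 1; push_cast; ring
      rw [e1, mul_assoc] at h1
      have h2 := le_of_mul_le_mul_left h1 (by positivity)
      have e2 : (2 : ℝ) ^ (γ * l) * (2 : ℝ) ^ (-(γ * l)) = 1 := by
        rw [← Real.rpow_add (by norm_num)]
        simp
      calc at' (up l P) = (2 : ℝ) ^ (γ * l) * ((2 : ℝ) ^ (-(γ * l)) * at' (up l P)) := by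
            rw [← mul_assoc, e2, one_mul]
        _ ≤ _ := by gcongr
    set S := ∑ Q ∈ Nf, cw s0 Q * al Q * oml Q with hS
    set SA := ∑ Q ∈ Nf, cw s0 Q * al Q with hSA
    set SO := ∑ Q ∈ Nf, cw s0 Q * oml Q ^ 2 with hSO
    have hS0 : 0 ≤ S := Finset.sum_nonneg (fun Q _ => hFn Q)
    have hSA0 : 0 ≤ SA := Finset.sum_nonneg (fun Q _ =>
      mul_nonneg (cw_nonneg hT.s0_pos Q) (hal Q))
    have hSO0 : 0 ≤ SO := Finset.sum_nonneg (fun Q _ =>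
      mul_nonneg (cw_nonneg hT.s0_pos Q) (sq_nonneg _))
    have er : (r ^ i) ^ 2 = (2 : ℝ) ^ (-(γ * i)) := by
      rw [hr, ← pow_mul, ← Real.rpow_natCast, ← Real.rpow_mul (by norm_num)]
      congr 1; push_cast; ring
    have hmax : ∀ Q ∈ Nf, al Q ≤ θ * ((r ^ i) ^ 2 * at' P) := by
      intro Q hQ
      have h1 := (hNT Q hQ).2
      rw [hup Q hQ] at h1
      rw [er]
      exact (hal2 Q).trans h1
    have h1 : S ^ 2 ≤ (θ * ((r ^ i) ^ 2 * at' P) * SA) * SO := by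
      refine (cauchy_w2 Nf (cw s0) al oml (fun Q _ => cw_nonneg hT.s0_pos Q)).trans ?_
      apply mul_le_mul_of_nonneg_right _ hSO0
      rw [hSA, Finset.mul_sum]
      apply Finset.sum_le_sum
      intro Q hQ
      have h2 := hmax Q hQ
      have h3 := cw_nonneg hT.s0_pos Q
      have h4 := hal Q
      calc cw s0 Q * al Q ^ 2 = al Q * (cw s0 Q * al Q) := by ring
        _ ≤ _ := mul_le_mul_of_nonneg_right h2 (by positivity)
    have hSAa : SA ≤ C0 * (cw s0 P * at' P + G i P) := by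
      refine le_trans ?_ (hT.T1 i P hP)
      refine le_trans (Finset.sum_le_sum (fun Q _ => mul_le_mul_of_nonneg_left
        ((hal2 Q).trans (hah Q)) (cw_nonneg hT.s0_pos Q))) ?_
      apply Finset.sum_le_sum_of_subset_of_nonneg hNsub
      intro Q _ _
      exact mul_nonneg (cw_nonneg hT.s0_pos Q) (hT.a_nonneg Q)
    have hSOa : SO ≤ C0 * (cw s0 P * omp P ^ 2) := by
      refine le_trans ?_ (hT.T2 i P hP)
      apply Finset.sum_le_sum_of_subset_of_nonneg hNsub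
      intro Q _ _
      exact mul_nonneg (cw_nonneg hT.s0_pos Q) (sq_nonneg _)
    have hA := hT.at_nonneg P
    have hG := hT.G_nonneg i P
    have hop := hT.omp_nonneg P
    have hopC := hT.omp_le P
    have hri : 0 ≤ r ^ i := by positivity
    have key1 := lt_key1 (C0 := C0) (w := cw s0 P) (A := at' P) (g := G i P) (o := omp P) (θ := θ)
      (r := r ^ i) (S := S) (SA := SA) (SO := SO) hC0'.le hw hA hG hop hθ.le hri hS0 h1 hSO0
      hSAa hSOa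
    have hbu := hb (up m P)
    have hou := hT.oml_nonneg (up m P)
    have hDu := hT.D_nonneg (up m P)
    have hwu := cw_up hT.s0_pos m P
    have hwu0 := cw_nonneg hT.s0_pos (up m P)
    have hYP := hY P
    have homP := hom P
    have homPC := homC P
    have hTGP := hTG P
    rw [hH]
    simp only
    have hfin : ∀ (x y z : ℝ), 0 ≤ x → 0 ≤ y → S ≤ r ^ i * (x + y * G i P) →
        y ≤ C0 ^ 2 + C1 * C0 → ∀ Z : ℝ≥0∞, ENNReal.ofReal x ≤ Z →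
        ENNReal.ofReal S ≤ ENNReal.ofReal (r ^ i) *
          (Z + ENNReal.ofReal (C0 ^ 2 + C1 * C0) * ENNReal.ofReal (G i P)) := by
      intro x y z hx hy hS1 hyC Z hZ
      calc ENNReal.ofReal S ≤ ENNReal.ofReal (r ^ i * (x + y * G i P)) :=
            ENNReal.ofReal_le_ofReal hS1
        _ = ENNReal.ofReal (r ^ i) * (ENNReal.ofReal x + ENNReal.ofReal (y * G i P)) := by
            rw [ENNReal.ofReal_mul (by positivity), ENNReal.ofReal_add hx (by positivity)]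
        _ ≤ _ := by
            refine mul_le_mul_right (add_le_add hZ ?_) _
            rw [← ENNReal.ofReal_mul (by positivity)]
            apply ENNReal.ofReal_le_ofReal
            (clear * - hyC hG; gcongr)
    by_cases hI1 : TG P ≤ δ * at' P
    swap
    · -- class I, tails
      rw [not_le] at hI1
      have hb1 : cw s0 P * at' P ≤ cw s0 P * TG P / δ := by
        rw [le_div_iff₀ hδ]
        nlinarith only [hw, hI1]
      apply hfin (C0 ^ 2 / δ * (cw s0 P * TG P)) (C0 ^ 2) 0 (by (clear * - hC0 hδ hw hTGP; positivity)) (by positivity)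
      · refine key1.trans ?_
        have h3 : C0 * Real.sqrt θ * ((cw s0 P * at' P + G i P) * omp P) ≤
            C0 * 1 * ((cw s0 P * TG P / δ + G i P) * C0) := by gcongr
        calc r ^ i * (C0 * Real.sqrt θ * ((cw s0 P * at' P + G i P) * omp P))
            ≤ r ^ i * (C0 * 1 * ((cw s0 P * TG P / δ + G i P) * C0)) := by (clear * - h3; gcongr)
          _ = _ := by ring
      · nlinarith only [hC1, hC0]
      · rw [ENNReal.ofReal_mul (by positivity)]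
        calc ENNReal.ofReal (C0 ^ 2 / δ) * ENNReal.ofReal (cw s0 P * TG P)
            = 0 + 0 + ENNReal.ofReal (C0 ^ 2 / δ) * ENNReal.ofReal (cw s0 P * TG P) + 0 + 0 := by
              simp
          _ ≤ _ := by gcongr <;> exact zero_le
    by_cases hI2 : ∃ l : ℕ, δ * (2 : ℝ) ^ ((l : ℝ) / 8) * at' P ≤ D (up l P)
    · -- class I, defect
      have hmem : P ∈ S2 := ⟨hgrow, hI1, hI2⟩
      apply hfin (C0 * (cw s0 P * at' P * omp P)) (C0 ^ 2) 0 (by (clear * - hC0 hw hA hop; positivity)) (by positivity)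
      · refine key1.trans ?_
        have h3 : C0 * Real.sqrt θ * ((cw s0 P * at' P + G i P) * omp P) ≤
            C0 * 1 * ((cw s0 P * at' P + G i P) * omp P) := by gcongr
        have h4 : G i P * omp P ≤ G i P * C0 := by (clear * - hopC hG; gcongr)
        calc r ^ i * (C0 * Real.sqrt θ * ((cw s0 P * at' P + G i P) * omp P))
            ≤ r ^ i * (C0 * 1 * ((cw s0 P * at' P + G i P) * omp P)) := by gcongr
          _ = r ^ i * (C0 * (cw s0 P * at' P * omp P) + C0 * (G i P * omp P)) := by ring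
          _ ≤ r ^ i * (C0 * (cw s0 P * at' P * omp P) + C0 * (G i P * C0)) := by (clear * - h4 hC0; gcongr)
          _ = _ := by ring
      · nlinarith only [hC1, hC0]
      · rw [ENNReal.ofReal_mul (by positivity)]
        simp only [hmem, indicator_of_mem]
        calc ENNReal.ofReal C0 * ENNReal.ofReal (cw s0 P * at' P * omp P)
            = 0 + 0 + 0 + ENNReal.ofReal C0 * ENNReal.ofReal (cw s0 P * at' P * omp P) + 0 := by
              simp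
          _ ≤ _ := by gcongr <;> exact zero_le
    have hI3 : ∀ l : ℕ, D (up l P) ≤ δ * (2 : ℝ) ^ ((l : ℝ) / 8) * at' P := by
      intro l
      by_contra hcon
      exact hI2 ⟨l, (not_le.1 hcon).le⟩
    by_cases hII : b (up m P) ≤ κ * at' P
    swap
    · -- class II
      rw [not_le] at hII
      have hb1 : cw s0 P * at' P ≤ cw s0 (up m P) * b (up m P) / κ := by
        rw [le_div_iff₀ hκ]
        calc cw s0 P * at' P * κ = cw s0 P * (κ * at' P) := by ring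
          _ ≤ cw s0 (up m P) * b (up m P) := by (clear * - hwu hII hκ hA hwu0; gcongr)
      apply hfin (C0 ^ 2 * (Real.sqrt θ / κ) * (cw s0 (up m P) * b (up m P) * oml (up m P)))
        (C0 ^ 2) 0 (by (clear * - hC0 hθ hκ hwu0 hbu hou; positivity)) (by positivity)
      · refine key1.trans ?_
        have h5 : (cw s0 P * at' P + G i P) * omp P ≤
            cw s0 (up m P) * b (up m P) / κ * (C0 * oml (up m P)) + G i P * C0 := by
          calc (cw s0 P * at' P + G i P) * omp P = cw s0 P * at' P * omp P + G i P * omp P := by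
                ring
            _ ≤ _ := by
              gcongr
              exact homp P
        have h6 : Real.sqrt θ * (G i P * C0) ≤ 1 * (G i P * C0) := by (clear * - hsθ1 hG hC0; gcongr)
        calc r ^ i * (C0 * Real.sqrt θ * ((cw s0 P * at' P + G i P) * omp P))
            ≤ r ^ i * (C0 * Real.sqrt θ * (cw s0 (up m P) * b (up m P) / κ *
                (C0 * oml (up m P)) + G i P * C0)) := by (clear * - h5 hC0 hθ; gcongr)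
          _ = r ^ i * (C0 ^ 2 * (Real.sqrt θ / κ) * (cw s0 (up m P) * b (up m P) * oml (up m P))
                + C0 * (Real.sqrt θ * (G i P * C0))) := by ring
          _ ≤ r ^ i * (C0 ^ 2 * (Real.sqrt θ / κ) * (cw s0 (up m P) * b (up m P) * oml (up m P))
                + C0 * (1 * (G i P * C0))) := by (clear * - h6 hC0; gcongr)
          _ = _ := by ring
      · nlinarith only [hC1, hC0]
      · rw [ENNReal.ofReal_mul (by positivity)]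
        calc ENNReal.ofReal (C0 ^ 2 * (Real.sqrt θ / κ)) *
              ENNReal.ofReal (cw s0 (up m P) * b (up m P) * oml (up m P))
            = ENNReal.ofReal (C0 ^ 2 * (Real.sqrt θ / κ)) *
              ENNReal.ofReal (cw s0 (up m P) * b (up m P) * oml (up m P)) + 0 + 0 + 0 + 0 := by
              simp
          _ ≤ _ := by gcongr <;> exact zero_le
    rcases hA.lt_or_eq with hA' | hA'
    swap
    · -- no mass at all
      have hS00 : S ≤ 0 := by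
        refine (Finset.sum_nonpos ?_)
        intro Q hQ
        have h2 := hmax Q hQ
        rw [← hA', mul_zero, mul_zero] at h2
        have h3 : al Q = 0 := le_antisymm h2 (hal Q)
        rw [h3]; simp
      rw [ENNReal.ofReal_of_nonpos hS00]
      exact zero_le
    -- class III
    have hmem : P ∈ III := ⟨hA', hgrow, hI1, hI3, hII⟩
    obtain ⟨h31, h32⟩ := hIII P hmem i Nf hP hNsub hNT
    have key3 := lt_key3 (C1 := C1) (w := cw s0 P) (A := at' P) (g := G i P) (θ := θ)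
      (r := r ^ i) (S := S) (SA := SA) (SO := SO) (om := om P) (b := b (up m P))
      (D := D (up m P)) (Y := Y P) hC1 hw hG hθ.le hri hS0 homP hbu hDu hYP (by (clear * - hA' hSO0; positivity)) h1
      h31 h32
    apply hfin (C1 * Real.sqrt θ * (cw s0 P * (Y P + b (up m P) * om P))
      + C1 * C0 * (cw s0 (up m P) * D (up m P))) (C1 * C0) 0 (by (clear * - hC1 hθ hw hYP hbu homP hC0 hwu0 hDu; positivity)) (by positivity)
    · refine key3.trans ?_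
      have h5 : om P * (cw s0 P * D (up m P) + G i P) ≤
          C0 * (cw s0 (up m P) * D (up m P) + G i P) := by gcongr
      have h6 : Real.sqrt θ * (C0 * (cw s0 (up m P) * D (up m P) + G i P)) ≤
          1 * (C0 * (cw s0 (up m P) * D (up m P) + G i P)) := by gcongr
      calc r ^ i * (C1 * Real.sqrt θ * (cw s0 P * (Y P + b (up m P) * om P)
            + om P * (cw s0 P * D (up m P) + G i P)))
          ≤ r ^ i * (C1 * Real.sqrt θ * (cw s0 P * (Y P + b (up m P) * om P)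
            + C0 * (cw s0 (up m P) * D (up m P) + G i P))) := by (clear * - h5 hC1 hθ; gcongr)
        _ = r ^ i * (C1 * Real.sqrt θ * (cw s0 P * (Y P + b (up m P) * om P))
            + C1 * (Real.sqrt θ * (C0 * (cw s0 (up m P) * D (up m P) + G i P)))) := by ring
        _ ≤ r ^ i * (C1 * Real.sqrt θ * (cw s0 P * (Y P + b (up m P) * om P))
            + C1 * (1 * (C0 * (cw s0 (up m P) * D (up m P) + G i P)))) := by (clear * - h6 hC1; gcongr)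
        _ = _ := by ring
    · nlinarith only []
    · rw [ENNReal.ofReal_add (by (clear * - hC1 hθ hw hYP hbu homP; positivity)) (by (clear * - hC1 hC0 hwu0 hDu; positivity)), ENNReal.ofReal_mul (by positivity),
        ENNReal.ofReal_mul (p := C1 * C0) (by positivity)]
      simp only [hmem, indicator_of_mem]
      calc _ = 0 + ENNReal.ofReal (C1 * Real.sqrt θ) *
              ENNReal.ofReal (cw s0 P * (Y P + b (up m P) * om P)) + 0 + 0 +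
              ENNReal.ofReal (C1 * C0) * ENNReal.ofReal (cw s0 (up m P) * D (up m P)) := by
              simp
        _ ≤ _ := by gcongr <;> exact zero_le
  · -- summation over P
    rw [hH, ENNReal.tsum_mul_left]
    refine mul_le_mul_right ?_ _
    rw [ENNReal.tsum_add, ENNReal.tsum_add, ENNReal.tsum_add, ENNReal.tsum_add, ENNReal.tsum_add,
      ENNReal.tsum_mul_left, ENNReal.tsum_mul_left, ENNReal.tsum_mul_left, ENNReal.tsum_mul_left,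
      ENNReal.tsum_mul_left, ENNReal.tsum_mul_left, ← cs_univ (fun P => cw s0 P * TG P),
      ← cs_univ (G i)]
    have e1 : ∀ F : Cell d → ℝ, ∑' P, ENNReal.ofReal (F (up m P)) ≤
        ENNReal.ofReal N * cs univ F := by
      intro F
      rw [cs_univ, ← hNc]
      exact tsum_comp_up (fun Q => ENNReal.ofReal (F Q)) m
    have eb := e1 (fun P => cw s0 P * b P * oml P)
    have eD := (e1 (fun P => cw s0 P * D P)).trans (mul_le_mul_right hT.D_sum _)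
    have hi0 : (0 : ℝ) ≤ i := Nat.cast_nonneg i
    calc _ ≤ ENNReal.ofReal (C0 ^ 2 * (Real.sqrt θ / κ)) *
            (ENNReal.ofReal N * cs univ (fun P => cw s0 P * b P * oml P))
          + ENNReal.ofReal (C1 * Real.sqrt θ) *
            cs III (fun P => cw s0 P * (Y P + b (up m P) * om P))
          + ENNReal.ofReal (C0 ^ 2 / δ) * ENNReal.ofReal (C0 * tot)
          + ENNReal.ofReal C0 * ENNReal.ofReal (2 * C0 * (C2 * (2 * C0) / (δ / C0) * tot))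
          + ENNReal.ofReal (C1 * C0) * (ENNReal.ofReal N * ENNReal.ofReal (C0 * tot))
          + ENNReal.ofReal (C0 ^ 2 + C1 * C0) * ENNReal.ofReal (C0 * (i + 1) * tot) := by
          gcongr
          · exact le_rfl
          · exact hI2
          · exact hT.G_sum i
      _ = X + ENNReal.ofReal (C0 ^ 2 / δ * (C0 * tot)
          + C0 * (2 * C0 * (C2 * (2 * C0) / (δ / C0) * tot))
          + C1 * C0 * (N * (C0 * tot)) + (C0 ^ 2 + C1 * C0) * (C0 * (i + 1) * tot)) := by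
          rw [hX, ← mul_assoc, ← ENNReal.ofReal_mul (by positivity),
            ← ENNReal.ofReal_mul (by positivity), ← ENNReal.ofReal_mul (by positivity),
            ← ENNReal.ofReal_mul (by positivity), ← ENNReal.ofReal_mul (by positivity),
            ← ENNReal.ofReal_mul (by positivity),
            ENNReal.ofReal_add (by (clear * - hC0 hδ htn hC2 hC1; positivity)) (by (clear * - hC0 hC1 htn; positivity)),
            ENNReal.ofReal_add (by (clear * - hC0 hδ htn hC2; positivity)) (by positivity),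
            ENNReal.ofReal_add (by positivity) (by positivity)]
          have : C0 ^ 2 * (Real.sqrt θ / κ) * N = C0 ^ 2 * N * (Real.sqrt θ / κ) := by ring
          rw [this]
          ring
      _ ≤ _ := by
          refine add_le_add le_rfl ?_
          apply ENNReal.ofReal_le_ofReal
          have p1 : 0 ≤ C0 ^ 3 / δ * tot := by positivity
          have p2 : 0 ≤ 2 * C0 ^ 2 * (C2 * (2 * C0) / (δ / C0)) * tot := by positivity
          have p3 : 0 ≤ C1 * C0 * (N * C0) * tot := by positivity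
          have p4 : 0 ≤ (C0 ^ 2 + C1 * C0) * C0 * tot := by positivity
          have e : C0 ^ 2 / δ * (C0 * tot) + C0 * (2 * C0 * (C2 * (2 * C0) / (δ / C0) * tot))
              + C1 * C0 * (N * (C0 * tot)) + (C0 ^ 2 + C1 * C0) * (C0 * (i + 1) * tot)
              = C0 ^ 3 / δ * tot + 2 * C0 ^ 2 * (C2 * (2 * C0) / (δ / C0)) * tot
                + C1 * C0 * (N * C0) * tot + (i + 1) * ((C0 ^ 2 + C1 * C0) * C0 * tot) := by
            ring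
          rw [e, hc5]
          linarith only [mul_nonneg hi0 p1, mul_nonneg hi0 p2, mul_nonneg hi0 p3]

end

end TG


end

section

/-!
# Trace inequality, general operators: the short sums of the defects are payable   (helper32)

No double quotes.
-/

open MeasureTheory Metric Set TrI
open scoped InnerProductSpace ContDiff ENNReal

namespace TG

noncomputable section

theorem stmtDP : StmtDP := by
  intro d r0 C0 hd hC0
  refine ⟨C0 * ∑ r ∈ Finset.range r0, ((2 : ℝ) ^ r) ^ d + 1, by positivity, ?_⟩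
  intro s0 tot D hs0 htot hD h
  rw [cs_univ] at h ⊢
  have h1 : ∀ P : Cell d, ENNReal.ofReal (cw s0 P * dsm r0 D P) ≤
      ∑ r ∈ Finset.range r0, ENNReal.ofReal (cw s0 (up r P) * D (up r P)) := by
    intro P
    unfold dsm
    rw [Finset.mul_sum, ← ENNReal.ofReal_sum_of_nonneg fun r _ =>
      mul_nonneg (cw_nonneg hs0 _) (hD _)]
    exact ENNReal.ofReal_le_ofReal (Finset.sum_le_sum fun r _ =>
      mul_le_mul_of_nonneg_right (cw_up hs0 r P) (hD _))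
  calc ∑' P : Cell d, ENNReal.ofReal (cw s0 P * dsm r0 D P)
      ≤ ∑' P : Cell d, ∑ r ∈ Finset.range r0, ENNReal.ofReal (cw s0 (up r P) * D (up r P)) :=
        ENNReal.tsum_le_tsum h1
    _ = ∑ r ∈ Finset.range r0, ∑' P : Cell d, ENNReal.ofReal (cw s0 (up r P) * D (up r P)) :=
        Summable.tsum_finsetSum fun _ _ => ENNReal.summable
    _ ≤ ∑ r ∈ Finset.range r0, (((2 ^ r) ^ d : ℕ) : ℝ≥0∞) * ENNReal.ofReal (C0 * tot) := by
        refine Finset.sum_le_sum fun r _ => ?_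
        refine (tsum_comp_up (fun P : Cell d => ENNReal.ofReal (cw s0 P * D P)) r).trans ?_
        gcongr
    _ = ENNReal.ofReal ((∑ r ∈ Finset.range r0, ((2 : ℝ) ^ r) ^ d) * (C0 * tot)) := by
        rw [Finset.sum_mul, ENNReal.ofReal_sum_of_nonneg fun r _ => by positivity]
        refine Finset.sum_congr rfl fun r _ => ?_
        rw [← ENNReal.ofReal_natCast, ← ENNReal.ofReal_mul (by positivity)]
        push_cast
        rfl
    _ ≤ _ := by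
        apply ENNReal.ofReal_le_ofReal
        nlinarith

end

end TG


end

section

/-!
# Trace inequality, general operators: pieces of module LW (construction of the world)   (helper46)

The world: kind 0 on Strc and TyA, 1 on Strc minus TyA, 2 otherwise; sheets from LA (FR2), structure
and growth from LN (FR1, CT8), interface from LB (FR4), tops from LP (CT3, MA, CT5), finiteness LF.
Every statement StmtXX is proved as theorem stmtXX in Pool/Agent/TG/XX.lean (hypotheses: any other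
Stmt).  No double quotes.
-/

open MeasureTheory Metric Set TrI
open scoped InnerProductSpace ContDiff ENNReal

namespace TG

noncomputable section

variable {d : ℕ}

/-- MODULE LA: the sheet of a structured cell of type A (FR2 and FN.far_mass).
er = C (bsh + sqrt (a dsh)), dl = C dsh -/
def StmtLA : Prop :=
  ∀ (d : ℕ) (V E : Type) [NormedAddCommGroup V] [InnerProductSpace ℝ V] [FiniteDimensional ℝ V]
    [NormedAddCommGroup E] [InnerProductSpace ℝ E] [FiniteDimensional ℝ E] [Nontrivial E]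
    (L : (Sp d →L[ℝ] V) →L[ℝ] E), 2 ≤ d → CEll L → ∃ J0 : ℕ, ∀ J : ℕ, J0 ≤ J →
    ∀ (M c0 ε : ℝ), 0 < ε → ε ≤ 1 → ∀ (b : Sp d → ℝ), BaseKer 2 M c0 b →
    ∀ (R0 γ K : ℝ), 400 + 8 * d ≤ R0 → 0 < γ → γ ≤ 1 / (16 * d) → 1 ≤ K →
    ∃ (C κ1 Rm : ℝ), 1 ≤ C ∧ 0 < κ1 ∧ κ1 ≤ 1 ∧
      ∀ R : ℝ, Rm ≤ R → ∀ u : Sp d → V, TF u → ∀ s0 : ℝ, 0 < s0 →
      ∀ e : Cell d → E, Dirs b ε R s0 (fo L u) e →
      ∀ (ν : Cell d → Sp d) (c : Cell d → ℝ), Plns R0 s0 (fo L u) e ν c →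
      ∀ (a D bb' : Cell d → ℝ), a = mC b ε (64 * R0) s0 (fo L u) → D = dC b ε R s0 (fo L u) e →
        bb' = bC R0 s0 (fo L u) e ν c →
      ∀ (κ d0 : ℝ), 0 < κ → κ ≤ κ1 → ∀ Q ∈ Strc γ K d0 a (mT b ε s0 (fo L u)) D,
        Q ∈ TyA κ a D bb' →
        ∃ (n : Sp d) (s ab er dl : ℝ), ‖n‖ = 1 ∧ |s| ≤ 64 * R0 + 4 ∧ 0 < ab ∧ a Q ≤ C * ab ∧
          ab ≤ C * a Q ∧ 0 ≤ er ∧ 0 ≤ dl ∧
          Sheet J (64 * R0) ab er dl (mQ s0 (fo L u) (e Q) Q) n s ∧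
          blc n s (mQ s0 (fo L u) (e Q) Q) (64 * R0) ≤ er ∧
          er ≤ C * Real.sqrt κ * a Q ∧ dl ≤ C * κ * a Q ∧ dl ≤ C * sh D Q ∧
          er ≤ C * (sh bb' Q + κ * a Q) + C / κ * sh D Q ∧
          er ^ 2 / ab + dl ≤ C * (κ * sh bb' Q + sh D Q) ∧
          (32 * R0 + 4 < |s| → mC b ε (32 * R0) s0 (fo L u) Q ≤ C * Real.sqrt κ * a Q)

/-- MODULE LB: the interface inequality with the right error (FR4, I depends on κ, finitely many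
values of I for κ ≥ κm) -/
def StmtLB : Prop :=
  ∀ (d : ℕ) (V E : Type) [NormedAddCommGroup V] [InnerProductSpace ℝ V] [FiniteDimensional ℝ V]
    [NormedAddCommGroup E] [InnerProductSpace ℝ E] [FiniteDimensional ℝ E] [Nontrivial E]
    (L : (Sp d →L[ℝ] V) →L[ℝ] E), 2 ≤ d → CEll L → ∃ J0 : ℕ, ∀ J : ℕ, J0 ≤ J →
    ∀ (M c0 ε : ℝ), 0 < ε → ε ≤ 1 → ∀ (b : Sp d → ℝ), BaseKer (J + 10) M c0 b →
    ∀ (R0 γ K : ℝ), 400 + 8 * d ≤ R0 → 0 < γ → γ ≤ 1 / (32 * d) → 1 ≤ K →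
    ∃ (C κ1 : ℝ), 1 ≤ C ∧ 0 < κ1 ∧ κ1 ≤ 1 ∧ ∀ κm : ℝ, 0 < κm → ∃ RN0 : ℝ, 1 ≤ RN0 ∧
    ∀ RN : ℝ, RN0 ≤ RN → ∃ (Rm C1 : ℝ), 0 < C1 ∧
      ∀ R : ℝ, Rm ≤ R → ∀ u : Sp d → V, TF u → ∀ s0 : ℝ, 0 < s0 →
      ∀ e : Cell d → E, Dirs b ε R s0 (fo L u) e →
      ∀ (ν : Cell d → Sp d) (c : Cell d → ℝ), Plns R0 s0 (fo L u) e ν c →
      ∀ (a D bb' : Cell d → ℝ), a = mC b ε (64 * R0) s0 (fo L u) → D = dC b ε R s0 (fo L u) e →
        bb' = bC R0 s0 (fo L u) e ν c →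
      ∀ (κ d0 : ℝ), κm ≤ κ → κ ≤ κ1 → ∀ Q ∈ Strc γ K d0 a (mT b ε s0 (fo L u)) D,
        Q ∈ TyA κ a D bb' →
      ∀ (n : Sp d) (s ab er dl : ℝ), 0 ≤ er → 0 ≤ dl → a Q ≤ K * ab → ab ≤ K * a Q →
        |s| ≤ 64 * R0 + 4 → Sheet J (64 * R0) ab er dl (mQ s0 (fo L u) (e Q) Q) n s →
        blc n s (mQ s0 (fo L u) (e Q) Q) (64 * R0) ≤ er →
        ∃ EI : ℝ, 0 ≤ EI ∧ EI ≤ C * (sh bb' Q + κ * a Q + er + dl) + C1 * sh D Q ∧
          ∀ (Y : Fin d → Fin d → Sp d → ℝ) (N : ℝ), (∀ i j, TFn (J + 6) N (Y i j)) →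
            (∀ i j y, (d : ℝ) ≤ ‖y‖ → Y i j y = 0) →
            |∫ y, mQ s0 (fo L u) (e Q) Q y *
              ((∑ i, ∑ j, n i * n j * Y i j y) - nt b RN Y y)| ≤ N * EI

/-- MODULE LN: structure and growth of the mass in the frame of a structured cell (FR1, CT8) -/
def StmtLN : Prop :=
  ∀ (d : ℕ) (V E : Type) [NormedAddCommGroup V] [InnerProductSpace ℝ V] [FiniteDimensional ℝ V]
    [NormedAddCommGroup E] [InnerProductSpace ℝ E] [FiniteDimensional ℝ E] [Nontrivial E]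
    (L : (Sp d →L[ℝ] V) →L[ℝ] E), 2 ≤ d → CEll L →
    ∀ (M c0 ε : ℝ), 0 < ε → ε ≤ 1 → ∀ (b : Sp d → ℝ), BaseKer 2 M c0 b → ∃ C8 : ℝ, 1 ≤ C8 ∧
    ∀ (R0 γ K : ℝ), 400 + 8 * d ≤ R0 → 0 < γ → γ ≤ 1 / (8 * d) → 1 ≤ K →
    ∀ (Rs RM : ℝ) (tol : ℕ → ℝ), 1 ≤ Rs → (∀ J, 0 < tol J) →
    ∃ (rm r0 : ℕ) (R1 d0 CD : ℝ), 0 < d0 ∧ d0 ≤ 1 ∧ 0 < CD ∧ ∃ Rm : ℝ,
      ∀ R : ℝ, Rm ≤ R → ∀ u : Sp d → V, TF u → ∀ s0 : ℝ, 0 < s0 →
      ∀ e : Cell d → E, Dirs b ε R s0 (fo L u) e →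
      ∀ Q ∈ Strc γ K d0 (mC b ε (64 * R0) s0 (fo L u)) (mT b ε s0 (fo L u))
          (dC b ε R s0 (fo L u) e),
        (∃ (J r : ℕ) (ν : Fin r → Sp d) (κ : Fin r → Sp d → ℝ),
          Str J rm R1 Rs (tol J) (mC b ε (64 * R0) s0 (fo L u) Q) (mQ s0 (fo L u) (e Q) Q) r ν κ) ∧
        MG (C8 * K) γ RM (mC b ε (64 * R0) s0 (fo L u) Q)
          (CD * dsm r0 (dC b ε R s0 (fo L u) e) Q) (mQ s0 (fo L u) (e Q) Q)

/-- MODULE LP: facts for the functional Y at tops (CT3, FN.mass_le, FN.plane_gen) -/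
def StmtLP : Prop :=
  ∀ (d : ℕ), 2 ≤ d → ∃ Rt : ℝ, 1 ≤ Rt ∧
    ∀ (M c0 ε : ℝ), 0 < ε → ε ≤ 1 → ∀ (b : Sp d → ℝ), BaseKer 2 M c0 b →
    ∀ R0 : ℝ, 400 + 8 * d ≤ R0 → ∃ (C3 R2 C Rm : ℝ), 0 < C3 ∧ 0 < R2 ∧ 0 < C ∧
    ∀ (E : Type) [NormedAddCommGroup E] [InnerProductSpace ℝ E] [FiniteDimensional ℝ E]
      (R : ℝ), Rm ≤ R → ∀ f : Sp d → E, Continuous f → HasCompactSupport f →
    ∀ s0 : ℝ, 0 < s0 → ∀ e : Cell d → E, Dirs b ε R s0 f e →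
    ∀ (ν : Cell d → Sp d) (c : Cell d → ℝ), Plns R0 s0 f e ν c →
    ∀ γ : ℝ, γ ≤ 1 → ∀ P : Cell d,
      (∀ l : ℕ, mT b ε s0 f (up l P) ≤ (2 : ℝ) ^ (γ * l) * mT b ε s0 f P) →
      0 ≤ mT b ε s0 f P ∧ 0 ≤ tG b ε s0 f P ∧
      mT b ε s0 f P ≤ C3 * (∫ y, mQ s0 f (e P) P y * zR Rt y) +
        C * (dC b ε R s0 f e P + tG b ε s0 f P) ∧
      ‖ν (up 9 P)‖ = 1 ∧
      |(c (up 9 P) - ⟪ν (up 9 P), xC s0 P⟫_ℝ) / lev s0 P.1| ≤ R2 ∧
      blc (ν (up 9 P)) ((c (up 9 P) - ⟪ν (up 9 P), xC s0 P⟫_ℝ) / lev s0 P.1)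
        (mQ s0 f (e P) P) R0 ≤
        C * (bC R0 s0 f e ν c (up 9 P) + dC b ε R s0 f e P + dC b ε R s0 f e (up 9 P))

/-- MODULE LF: finiteness of the sum of the values (CT4, CT6, CT7, CS2 lemmas): every value is at
most C nw |f|_1 v, and vanishes for cells far from the support -/
def StmtLF : Prop :=
  ∀ (d : ℕ), 2 ≤ d → ∀ (M c0 C' B ρ : ℝ), 0 < C' → 0 ≤ B → 1 ≤ ρ →
    ∀ (E : Type) [NormedAddCommGroup E] [InnerProductSpace ℝ E] [FiniteDimensional ℝ E]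
      (W : Wld d E), PrmOK M c0 W.X → 0 < W.s0 → Gro C' W.μ → Continuous W.f →
      HasCompactSupport W.f → (∀ Q, ‖W.e Q‖ = 1) → (∀ Q, ‖W.nv Q‖ = 1) → (∀ Q, 0 ≤ W.ab Q) →
      (∀ Q, W.ab Q ≤ B * mC W.X.b W.X.ε ρ W.s0 W.f Q) →
      (∀ Q, 0 ≤ W.val Q) ∧ cs univ (fun Q => W.w Q * W.val Q) < ⊤

end

end TG


end

section

/-!
# Module LN: structure and growth of the mass in the frame of a structured cell  (helper76)
-/

set_option linter.unusedSectionVars false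

open MeasureTheory Metric Set TrI
open scoped InnerProductSpace ContDiff ENNReal

namespace TG

noncomputable section

namespace LNm

variable {d : ℕ}

/-- monotonicity of the growth bound in the constant and in the radius -/
lemma MG_mono {K K' γ R R' a D : ℝ} {m : Sp d → ℝ} (h : MG K γ R a D m) (hK : K ≤ K')
    (hR : R' ≤ R) (ha : 0 ≤ a) : MG K' γ R' a D m := by
  intro ρ h1 h2 ζ hζ hb hb2 h0
  refine (h ρ h1 (h2.trans hR) ζ hζ hb hb2 h0).trans ?_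
  have hρ : 0 ≤ ρ ^ ((d : ℝ) - 1 + γ) := Real.rpow_nonneg (by linarith) _
  have h3 : K * ρ ^ ((d : ℝ) - 1 + γ) * a ≤ K' * ρ ^ ((d : ℝ) - 1 + γ) * a :=
    mul_le_mul_of_nonneg_right (mul_le_mul_of_nonneg_right hK hρ) ha
  linarith

end LNm

open _root_.TG.LNm

theorem stmtLN (hFR1 : StmtFR1) (hCT8 : StmtCT8) : StmtLN := by
  intro d V E _ _ _ _ _ _ _ L hd hL M c0 ε hε hε1 b hb
  have hd2 : (2 : ℝ) ≤ (d : ℝ) := by exact_mod_cast hd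
  obtain ⟨C, hC, hC8⟩ := hCT8 d (by omega) M c0 ε hε hε1 b hb
  refine ⟨max C 1, le_max_right _ _, ?_⟩
  intro R0 γ K hR0 hγ hγ1 hK Rs RM tol hRs htol
  have hγ2 : γ ≤ 1 := hγ1.trans (by
    rw [div_le_one (by positivity)]
    linarith)
  obtain ⟨rm, R1, δ, hR1, hδ, H⟩ := hFR1 d V E L hd hL M c0 ε hε hε1 b hb γ K Rs tol hγ hγ1 hK
    hRs htol
  obtain ⟨l, hl⟩ := pow_unbounded_of_one_lt RM (by norm_num : (1 : ℝ) < 2)
  obtain ⟨C1, hC1, HC⟩ := hC8 l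
  refine ⟨rm, l + 2, R1, min δ 1, C1, lt_min hδ one_pos, min_le_right _ _, hC1,
    max (2 * R1 + 2 * d + 20) (max (2 * (d : ℝ) + 10) (2 ^ l + 3)), ?_⟩
  intro R hR u hu s0 hs0 e he Q hQ
  have hRa : 2 * R1 + 2 * d + 20 ≤ R := (le_max_left _ _).trans hR
  have hRb : 2 * (d : ℝ) + 10 ≤ R := ((le_max_left _ _).trans (le_max_right _ _)).trans hR
  have hRc : (2 : ℝ) ^ l + 3 ≤ R := ((le_max_right _ _).trans (le_max_right _ _)).trans hR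
  have hfc : Continuous (fo L u) := by
    have h := hu.smooth.continuous_fderiv (by simp)
    exact L.continuous.comp h
  have hfs : HasCompactSupport (fo L u) := (hu.supp.fderiv ℝ).comp_left (g := L) (map_zero L)
  obtain ⟨ha, hT, hD⟩ := hQ
  constructor
  · refine H R hRa u hu s0 hs0 e he Q _ ha.le hT ?_
    intro i
    refine (hD i).trans ?_
    exact mul_le_mul_of_nonneg_right
      (mul_le_mul_of_nonneg_right (min_le_left _ _) (by positivity)) ha.le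
  · have h := (HC E R hRb hRc (fo L u) hfc hfs s0 hs0 e he).2.2.1 Q K γ
      (mC b ε (64 * R0) s0 (fo L u) Q) (by linarith) hγ.le hγ2 ha.le (fun i _ => hT i)
    exact MG_mono h (mul_le_mul_of_nonneg_right (le_max_left _ _) (by linarith)) hl.le ha.le

end

end TG


end

section

set_option autoImplicit false
set_option linter.unusedSectionVars false

/-!
# From the local inequalities LocW to (P), (Q1), (Q2) of StmtMJ   (helper47)
-/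

open MeasureTheory Metric Set TrI
open scoped InnerProductSpace ContDiff ENNReal

namespace TG

noncomputable section

variable {d : ℕ}

namespace PQ

lemma sh_nonneg {F : Cell d → ℝ} (h : ∀ Q, 0 ≤ F Q) (Q : Cell d) : 0 ≤ sh F Q :=
  tsum_nonneg fun _ => mul_nonneg (by positivity) (h _)

lemma cw_pos {s0 : ℝ} (h : 0 < s0) (Q : Cell d) : 0 < cw s0 Q := by
  unfold cw lev; positivity

section
variable {Cu Cr CK κ δ Cs η c1 γ s0 : ℝ} {Nb r0 : ℕ} {ns nb : Cell d → Finset (Cell d)}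
  {Nr St Sol : Set (Cell d)} {N val v oml a al ah D b at' TG Y E1 E2 : Cell d → ℝ}

lemma dsm_nonneg (B : RbH Cr nb St Sol a ah D b) (Q : Cell d) : 0 ≤ dsm r0 D Q :=
  Finset.sum_nonneg fun _ _ => B.Dn _

lemma v2_nonneg (h : ∀ Q, 0 ≤ val Q) (Q : Cell d) : 0 ≤ val2 val Q := by
  unfold val2; split_ifs
  · exact h Q
  · exact le_rfl

lemma cost_nonneg (W : WtH s0 Cu Nb ns nb Nr v oml) (B : RbH Cr nb St Sol a ah D b)
    (al0 : ∀ Q, 0 ≤ al Q) (Q : Cell d) : 0 ≤ costF Sol al D oml Q := by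
  unfold costF
  exact indicator_nonneg (fun Q _ => mul_nonneg (add_nonneg (al0 _) (B.Dn _)) (W.oml0 _)) Q

lemma sB_nonneg (W : WtH s0 Cu Nb ns nb Nr v oml) (B : RbH Cr nb St Sol a ah D b)
    (Q : Cell d) : 0 ≤ sBF St b oml Q := by
  unfold sBF
  exact indicator_nonneg (fun Q _ => mul_nonneg (sh_nonneg B.bn _) (W.oml0 _)) Q

lemma iF_nonneg (W : WtH s0 Cu Nb ns nb Nr v oml) (B : RbH Cr nb St Sol a ah D b)
    (INT : Set (Cell d)) (Q : Cell d) : 0 ≤ iFF Sol INT D b oml Q := by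
  unfold iFF
  exact indicator_nonneg (fun Q _ => mul_nonneg (add_nonneg (sh_nonneg B.bn _)
    (sh_nonneg B.Dn _)) (W.oml0 _)) Q

lemma ind_nonneg (W : WtH s0 Cu Nb ns nb Nr v oml) (B : RbH Cr nb St Sol a ah D b)
    (Q : Cell d) : 0 ≤ St.indicator (fun Q => sh D Q * oml Q) Q :=
  indicator_nonneg (fun Q _ => mul_nonneg (sh_nonneg B.Dn _) (W.oml0 _)) Q

lemma pay_nonneg (W : WtH s0 Cu Nb ns nb Nr v oml) (B : RbH Cr nb St Sol a ah D b)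
    (TG0 : ∀ Q, 0 ≤ TG Q) (Q : Cell d) : 0 ≤ payF r0 St D oml TG Q := by
  unfold payF
  exact add_nonneg (add_nonneg (dsm_nonneg B Q) (ind_nonneg W B Q)) (TG0 Q)

lemma pay_dsm (W : WtH s0 Cu Nb ns nb Nr v oml) (B : RbH Cr nb St Sol a ah D b)
    (TG0 : ∀ Q, 0 ≤ TG Q) (Q : Cell d) : dsm r0 D Q ≤ payF r0 St D oml TG Q := by
  unfold payF
  linarith [ind_nonneg W B Q, TG0 Q]

lemma pay_sh (B : RbH Cr nb St Sol a ah D b)
    (TG0 : ∀ Q, 0 ≤ TG Q) {Q : Cell d} (hQ : Q ∈ St) :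
    sh D Q * oml Q ≤ payF r0 St D oml TG Q := by
  unfold payF
  rw [indicator_of_mem hQ]
  linarith [dsm_nonneg (r0 := r0) B Q, TG0 Q]

lemma rhs_eq {Cv Cc Cb Ci Cp : ℝ} {INT : Set (Cell d)} (Q : Cell d) :
    rhsF Cv Cc Cb Ci Cp r0 nb St Sol INT val al D b oml TG Q =
      Cv * (∑ Q' ∈ nb Q, val2 val Q') + Cc * (∑ Q' ∈ nb Q, costF Sol al D oml Q') +
      Cb * (∑ Q' ∈ nb Q, sBF St b oml Q') + Ci * (∑ Q' ∈ nb Q, iFF Sol INT D b oml Q') +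
      Cp * (∑ Q' ∈ nb Q, payF r0 St D oml TG Q') := by
  unfold rhsF
  simp only [Finset.sum_add_distrib, Finset.mul_sum]

/-- sheet errors are charged to a near cell -/
lemma lemE (hCu : 1 ≤ Cu) (hCr : 1 ≤ Cr) (hCK : 0 < CK) (hκ : 0 < κ) (hκ1 : κ ≤ 1)
    (W : WtH s0 Cu Nb ns nb Nr v oml) (B : RbH Cr nb St Sol a ah D b) (TG0 : ∀ Q, 0 ≤ TG Q)
    (hE : ∀ Q ∈ St, Q ∈ TyA κ a D b → E2 Q ≤ CK * (κ * sh b Q + sh D Q)) {Q Q0 : Cell d}
    (hQ : Q ∈ Sol) (hns : ns Q0 ⊆ nb Q) (hA : ∀ Q' ∈ nb Q, Q' ∈ TyA κ a D b) :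
    v Q0 * sEs ns Nr E2 Q0 ≤ Nb * CK * Cr ^ 2 * Cu ^ 2 * (κ * (∑ Q' ∈ nb Q, sBF St b oml Q') +
      2 * ∑ Q' ∈ nb Q, payF r0 St D oml TG Q') := by
  have hSB : 0 ≤ ∑ Q' ∈ nb Q, sBF St b oml Q' := Finset.sum_nonneg fun Q' _ => sB_nonneg W B Q'
  have hSP : 0 ≤ ∑ Q' ∈ nb Q, payF r0 St D oml TG Q' :=
    Finset.sum_nonneg fun Q' _ => pay_nonneg W B TG0 Q'
  unfold sEs
  split_ifs with h
  · obtain ⟨Qs, hQs, hN⟩ := h
    have hQsn : Qs ∈ nb Q := hns hQs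
    obtain ⟨s1, s2, s3, s4, s5, s6, s7⟩ := B.sol Q hQ Qs hQsn
    have hb0 := sh_nonneg B.bn Qs
    have hD0 := sh_nonneg B.Dn Qs
    have key : ∀ Q' ∈ ns Q0, E2 Q' ≤ CK * Cr ^ 2 * (κ * sh b Qs + 2 * sh D Qs) := by
      intro Q' hQ'
      obtain ⟨t1, t2, t3, t4, t5, t6, t7⟩ := B.sol Q hQ Q' (hns hQ')
      have h1 := hE Q' t1 (hA Q' (hns hQ'))
      have hb1 := sh_nonneg B.bn Q'
      have hD1 := sh_nonneg B.Dn Q'
      have h2 : sh b Q' ≤ Cr ^ 2 * (sh b Qs + sh D Qs) := by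
        calc sh b Q' ≤ sh b Q' + sh D Q' := by linarith
          _ ≤ Cr * (sh b Q + sh D Q) := t4
          _ ≤ Cr * (Cr * (sh b Qs + sh D Qs)) := mul_le_mul_of_nonneg_left s5 (by linarith)
          _ = _ := by ring
      have h3 : sh D Q' ≤ Cr ^ 2 * sh D Qs := by
        calc sh D Q' ≤ Cr * sh D Q := t6
          _ ≤ Cr * (Cr * sh D Qs) := mul_le_mul_of_nonneg_left s7 (by linarith)
          _ = _ := by ring
      refine h1.trans ?_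
      have h4 : κ * sh b Q' + sh D Q' ≤ Cr ^ 2 * (κ * sh b Qs + 2 * sh D Qs) := by
        have h5 : κ * sh b Q' ≤ κ * (Cr ^ 2 * (sh b Qs + sh D Qs)) :=
          mul_le_mul_of_nonneg_left h2 hκ.le
        have h6 : κ * (Cr ^ 2 * sh D Qs) ≤ 1 * (Cr ^ 2 * sh D Qs) :=
          mul_le_mul_of_nonneg_right hκ1 (by positivity)
        linarith
      calc CK * (κ * sh b Q' + sh D Q') ≤ CK * (Cr ^ 2 * (κ * sh b Qs + 2 * sh D Qs)) :=
            mul_le_mul_of_nonneg_left h4 hCK.le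
        _ = _ := by ring
    have hX : 0 ≤ CK * Cr ^ 2 * (κ * sh b Qs + 2 * sh D Qs) := by positivity
    have hsum : ∑ Q' ∈ ns Q0, E2 Q' ≤ Nb * (CK * Cr ^ 2 * (κ * sh b Qs + 2 * sh D Qs)) := by
      calc ∑ Q' ∈ ns Q0, E2 Q' ≤ ∑ _Q' ∈ ns Q0, CK * Cr ^ 2 * (κ * sh b Qs + 2 * sh D Qs) :=
            Finset.sum_le_sum key
        _ = (ns Q0).card * (CK * Cr ^ 2 * (κ * sh b Qs + 2 * sh D Qs)) := by
            rw [Finset.sum_const, nsmul_eq_mul]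
        _ ≤ _ := by
            refine mul_le_mul_of_nonneg_right ?_ hX
            exact_mod_cast (Finset.card_le_card hns).trans (W.card Q)
    have hv : v Q0 ≤ Cu ^ 2 * oml Qs := by
      have h1 := W.vnb Q0 Qs (W.ns_nb Q0 hQs)
      have h2 := W.vN Qs hN
      calc v Q0 ≤ Cu * v Qs := h1
        _ ≤ Cu * (Cu * oml Qs) := mul_le_mul_of_nonneg_left h2 (by linarith)
        _ = _ := by ring
    have ho := W.oml0 Qs
    have e1 : sh b Qs * oml Qs ≤ ∑ Q' ∈ nb Q, sBF St b oml Q' := by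
      have : sBF St b oml Qs = sh b Qs * oml Qs := by unfold sBF; rw [indicator_of_mem s1]
      rw [← this]
      exact Finset.single_le_sum (f := sBF St b oml) (fun i _ => sB_nonneg W B i) hQsn
    have e2 : sh D Qs * oml Qs ≤ ∑ Q' ∈ nb Q, payF r0 St D oml TG Q' :=
      (pay_sh (r0 := r0) B TG0 s1).trans
        (Finset.single_le_sum (f := payF r0 St D oml TG) (fun i _ => pay_nonneg W B TG0 i) hQsn)
    calc v Q0 * ∑ Q' ∈ ns Q0, E2 Q'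
        ≤ v Q0 * (Nb * (CK * Cr ^ 2 * (κ * sh b Qs + 2 * sh D Qs))) :=
          mul_le_mul_of_nonneg_left hsum (W.v0 _)
      _ ≤ (Cu ^ 2 * oml Qs) * (Nb * (CK * Cr ^ 2 * (κ * sh b Qs + 2 * sh D Qs))) :=
          mul_le_mul_of_nonneg_right hv (by positivity)
      _ = Nb * CK * Cr ^ 2 * Cu ^ 2 * (κ * (sh b Qs * oml Qs) + 2 * (sh D Qs * oml Qs)) := by ring
      _ ≤ _ := by
          refine mul_le_mul_of_nonneg_left ?_ (by positivity)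
          have := mul_le_mul_of_nonneg_left e1 hκ.le
          linarith
  · rw [mul_zero]; positivity

/-- masses of type B are charged to a near cell -/
lemma lemM (hCu : 1 ≤ Cu) (hCr : 1 ≤ Cr) (hκ : 0 < κ)
    (W : WtH s0 Cu Nb ns nb Nr v oml) (B : RbH Cr nb St Sol a ah D b) (TG0 : ∀ Q, 0 ≤ TG Q)
    {Q Q0 : Cell d} (hQ : Q ∈ Sol) (hns : ns Q0 ⊆ nb Q) (hA : ∀ Q' ∈ nb Q, Q' ∉ TyA κ a D b) :
    v Q0 * sMs ns Nr a Q0 ≤ 1 / κ * (Nb * Cr ^ 2 * Cu ^ 2) *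
      ((∑ Q' ∈ nb Q, sBF St b oml Q') + ∑ Q' ∈ nb Q, payF r0 St D oml TG Q') := by
  have hSB : 0 ≤ ∑ Q' ∈ nb Q, sBF St b oml Q' := Finset.sum_nonneg fun Q' _ => sB_nonneg W B Q'
  have hSP : 0 ≤ ∑ Q' ∈ nb Q, payF r0 St D oml TG Q' :=
    Finset.sum_nonneg fun Q' _ => pay_nonneg W B TG0 Q'
  unfold sMs
  split_ifs with h
  · obtain ⟨Qs, hQs, -, hN⟩ := h
    have hQsn : Qs ∈ nb Q := hns hQs
    obtain ⟨s1, s2, s3, s4, s5, s6, s7⟩ := B.sol Q hQ Qs hQsn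
    have hb0 := sh_nonneg B.bn Qs
    have hD0 := sh_nonneg B.Dn Qs
    have ha : a Qs ≤ 1 / κ * (sh b Qs + sh D Qs) := by
      have h1 := hA Qs hQsn
      simp only [TyA, mem_ofPred_eq, not_le] at h1
      rw [one_div, ← div_eq_inv_mul, le_div_iff₀ hκ]
      linarith
    have key : ∀ Q' ∈ ns Q0, a Q' ≤ Cr ^ 2 * (1 / κ * (sh b Qs + sh D Qs)) := by
      intro Q' hQ'
      obtain ⟨t1, t2, t3, t4, t5, t6, t7⟩ := B.sol Q hQ Q' (hns hQ')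
      calc a Q' ≤ Cr * a Q := t2
        _ ≤ Cr * (Cr * a Qs) := mul_le_mul_of_nonneg_left s3 (by linarith)
        _ = Cr ^ 2 * a Qs := by ring
        _ ≤ _ := mul_le_mul_of_nonneg_left ha (by positivity)
    have hX : 0 ≤ Cr ^ 2 * (1 / κ * (sh b Qs + sh D Qs)) := by positivity
    have hsum : ∑ Q' ∈ (ns Q0).filter (fun Q' => Q'.1 = Q0.1), a Q' ≤
        Nb * (Cr ^ 2 * (1 / κ * (sh b Qs + sh D Qs))) := by
      calc ∑ Q' ∈ (ns Q0).filter (fun Q' => Q'.1 = Q0.1), a Q'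
          ≤ ∑ _Q' ∈ (ns Q0).filter (fun Q' => Q'.1 = Q0.1),
              Cr ^ 2 * (1 / κ * (sh b Qs + sh D Qs)) :=
            Finset.sum_le_sum fun Q' hQ' => key Q' (Finset.mem_filter.1 hQ').1
        _ = ((ns Q0).filter (fun Q' => Q'.1 = Q0.1)).card *
              (Cr ^ 2 * (1 / κ * (sh b Qs + sh D Qs))) := by
            rw [Finset.sum_const, nsmul_eq_mul]
        _ ≤ _ := by
            refine mul_le_mul_of_nonneg_right ?_ hX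
            exact_mod_cast (Finset.card_filter_le _ _).trans
              ((Finset.card_le_card hns).trans (W.card Q))
    have hv : v Q0 ≤ Cu ^ 2 * oml Qs := by
      have h1 := W.vnb Q0 Qs (W.ns_nb Q0 hQs)
      have h2 := W.vN Qs hN
      calc v Q0 ≤ Cu * v Qs := h1
        _ ≤ Cu * (Cu * oml Qs) := mul_le_mul_of_nonneg_left h2 (by linarith)
        _ = _ := by ring
    have ho := W.oml0 Qs
    have e1 : sh b Qs * oml Qs ≤ ∑ Q' ∈ nb Q, sBF St b oml Q' := by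
      have : sBF St b oml Qs = sh b Qs * oml Qs := by unfold sBF; rw [indicator_of_mem s1]
      rw [← this]
      exact Finset.single_le_sum (f := sBF St b oml) (fun i _ => sB_nonneg W B i) hQsn
    have e2 : sh D Qs * oml Qs ≤ ∑ Q' ∈ nb Q, payF r0 St D oml TG Q' :=
      (pay_sh (r0 := r0) B TG0 s1).trans
        (Finset.single_le_sum (f := payF r0 St D oml TG) (fun i _ => pay_nonneg W B TG0 i) hQsn)
    calc v Q0 * ∑ Q' ∈ (ns Q0).filter (fun Q' => Q'.1 = Q0.1), a Q'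
        ≤ v Q0 * (Nb * (Cr ^ 2 * (1 / κ * (sh b Qs + sh D Qs)))) :=
          mul_le_mul_of_nonneg_left hsum (W.v0 _)
      _ ≤ (Cu ^ 2 * oml Qs) * (Nb * (Cr ^ 2 * (1 / κ * (sh b Qs + sh D Qs)))) :=
          mul_le_mul_of_nonneg_right hv (by positivity)
      _ = 1 / κ * (Nb * Cr ^ 2 * Cu ^ 2) * (sh b Qs * oml Qs + sh D Qs * oml Qs) := by ring
      _ ≤ _ := by
          refine mul_le_mul_of_nonneg_left ?_ (by positivity)
          linarith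
  · rw [mul_zero]; positivity

/-- the short defect sums -/
lemma lemD (W : WtH s0 Cu Nb ns nb Nr v oml) (B : RbH Cr nb St Sol a ah D b)
    (hCu : 1 ≤ Cu) (TG0 : ∀ Q, 0 ≤ TG Q) {Q Q0 : Cell d} {S : Finset (Cell d)}
    (hns : S ⊆ nb Q) :
    v Q0 * ∑ Q' ∈ S, dsm r0 D Q' ≤ Cu * ∑ Q' ∈ nb Q, payF r0 St D oml TG Q' := by
  have h1 : ∑ Q' ∈ S, dsm r0 D Q' ≤ ∑ Q' ∈ nb Q, payF r0 St D oml TG Q' :=
    (Finset.sum_le_sum fun Q' _ => pay_dsm W B TG0 Q').trans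
      (Finset.sum_le_sum_of_subset_of_nonneg hns fun i _ _ => pay_nonneg W B TG0 i)
  exact mul_le_mul (W.v1 Q0) h1 (Finset.sum_nonneg fun Q' _ => dsm_nonneg B Q') (by linarith)

/-- the values -/
lemma lemV (W : WtH s0 Cu Nb ns nb Nr v oml) (hv : ∀ Q, 0 ≤ val Q) (hCu : 1 ≤ Cu)
    {Q Q0 : Cell d} (h2 : 2 ≤ Q0.1) (hns : ns Q0 ⊆ nb Q) :
    ∑ Q' ∈ ns Q0, cw s0 Q' * val Q' ≤ cw s0 Q0 * (Cu * ∑ Q' ∈ nb Q, val2 val Q') := by
  have h1 : ∑ Q' ∈ ns Q0, cw s0 Q' * val Q' ≤ ∑ Q' ∈ ns Q0, (Cu * cw s0 Q0) * val2 val Q' := by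
    refine Finset.sum_le_sum fun Q' hQ' => ?_
    have h3 := W.lvl Q0 Q' (W.ns_nb Q0 hQ')
    have h4 : val2 val Q' = val Q' := by unfold val2; rw [if_pos (by omega)]
    rw [h4]
    exact mul_le_mul_of_nonneg_right (W.cw2 Q0 Q' (W.ns_nb Q0 hQ')) (hv Q')
  have hc := cw_pos W.s0_pos Q0
  calc ∑ Q' ∈ ns Q0, cw s0 Q' * val Q' ≤ ∑ Q' ∈ ns Q0, (Cu * cw s0 Q0) * val2 val Q' := h1
    _ = (Cu * cw s0 Q0) * ∑ Q' ∈ ns Q0, val2 val Q' := by rw [Finset.mul_sum]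
    _ ≤ (Cu * cw s0 Q0) * ∑ Q' ∈ nb Q, val2 val Q' :=
        mul_le_mul_of_nonneg_left (Finset.sum_le_sum_of_subset_of_nonneg hns
          fun i _ _ => v2_nonneg hv i) (by positivity)
    _ = _ := by ring

/-- division by the weight -/
lemma divw {w x y : ℝ} (hw : 0 < w) (h : w * x ≤ w * y) : x ≤ y := le_of_mul_le_mul_left h hw

/-- the sums over nb are nonnegative -/
lemma sums_nonneg (W : WtH s0 Cu Nb ns nb Nr v oml) (B : RbH Cr nb St Sol a ah D b)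
    (al0 : ∀ Q, 0 ≤ al Q) (TG0 : ∀ Q, 0 ≤ TG Q) (hv : ∀ Q, 0 ≤ val Q) (INT : Set (Cell d))
    (Q : Cell d) :
    0 ≤ (∑ Q' ∈ nb Q, val2 val Q') ∧ 0 ≤ (∑ Q' ∈ nb Q, costF Sol al D oml Q') ∧
    0 ≤ (∑ Q' ∈ nb Q, sBF St b oml Q') ∧ 0 ≤ (∑ Q' ∈ nb Q, iFF Sol INT D b oml Q') ∧
    0 ≤ (∑ Q' ∈ nb Q, payF r0 St D oml TG Q') :=
  ⟨Finset.sum_nonneg fun i _ => v2_nonneg hv i, Finset.sum_nonneg fun i _ => cost_nonneg W B al0 i,
   Finset.sum_nonneg fun i _ => sB_nonneg W B i, Finset.sum_nonneg fun i _ => iF_nonneg W B INT i,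
   Finset.sum_nonneg fun i _ => pay_nonneg W B TG0 i⟩

lemma allA (hCr : 1 ≤ Cr) (B : RbH Cr nb St Sol a ah D b) {Q Q0 : Cell d}
    (hQ : Q ∈ Sol) (hns : ns Q0 ⊆ nb Q) (h0 : Q0 ∈ nb Q) (hh : a Q0 ≤ Cr * ah Q0)
    (hA : ∀ Q' ∈ nb Q, Q' ∈ TyA κ a D b) : AllA (Cr ^ 2) ns St (TyA κ a D b) a ah Q0 := by
  refine ⟨fun Q' hQ' => ?_, ?_⟩
  · obtain ⟨t1, t2, -⟩ := B.sol Q hQ Q' (hns hQ')
    obtain ⟨-, -, s3, -⟩ := B.sol Q hQ Q0 h0
    refine ⟨t1, hA Q' (hns hQ'), ?_⟩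
    calc a Q' ≤ Cr * a Q := t2
      _ ≤ Cr * (Cr * a Q0) := mul_le_mul_of_nonneg_left s3 (by linarith)
      _ = _ := by ring
  · have h1 := B.an Q0
    have h2 : 0 ≤ ah Q0 := by
      by_contra hneg
      rw [not_le] at hneg
      nlinarith
    calc a Q0 ≤ Cr * ah Q0 := hh
      _ ≤ Cr ^ 2 * ah Q0 := mul_le_mul_of_nonneg_right (by nlinarith) h2

lemma allB (B : RbH Cr nb St Sol a ah D b) {Q Q0 : Cell d}
    (hQ : Q ∈ Sol) (hns : ns Q0 ⊆ nb Q)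
    (hA : ∀ Q' ∈ nb Q, Q' ∉ TyA κ a D b) : AllB ns St (TyA κ a D b) Q0 := fun Q' hQ' =>
  ⟨(B.sol Q hQ Q' (hns hQ')).1, hA Q' (hns hQ')⟩

end

end PQ

end

end TG


end

section

set_option autoImplicit false
set_option linter.unusedSectionVars false

/-!
# From the local inequalities LocW to (P), (Q1), (Q2) of StmtMJ   (helper47)
-/

open MeasureTheory Metric Set TrI
open scoped InnerProductSpace ContDiff ENNReal

namespace TG

noncomputable section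

variable {d : ℕ}

namespace PQ

section
variable {Cu Cr CK κ δ Cs η c1 γ s0 : ℝ} {Nb r0 : ℕ} {ns nb : Cell d → Finset (Cell d)}
  {Nr St Sol : Set (Cell d)} {N val v oml a al ah D b at' TG Y E1 E2 : Cell d → ℝ}

/-- the b-inequality -/
lemma lemb (hCu : 1 ≤ Cu) (hCr : 1 ≤ Cr) (hCK : 0 < CK) (hκ : 0 < κ) (hκ1 : κ ≤ 1)
    (hδ : 0 < δ) (hδκ : δ ≤ κ) (hCs : 0 < Cs)
    (W : WtH s0 Cu Nb ns nb Nr v oml) (B : RbH Cr nb St Sol a ah D b)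
    (al0 : ∀ Q, 0 ≤ al Q) (TG0 : ∀ Q, 0 ≤ TG Q)
    (L : LocW s0 γ Cu c1 η (Cr ^ 2) CK κ δ Cs r0 ns Nr St (TyA κ a D b) N val v a al ah D b at' TG
      Y E1 E2) {Q Q0 : Cell d}
    (hQ : Q ∈ Sol) (hI : Q ∈ Intr κ a D b nb) (hns : ns Q0 ⊆ nb Q) (h0 : Q0 ∈ nb Q)
    (hh : a Q0 ≤ Cr * ah Q0) (h2 : 2 ≤ Q0.1) :
    v Q0 * b Q0 ≤ Cu ^ 2 * (∑ Q' ∈ nb Q, val2 val Q') +
      (Nb * (CK ^ 2 + 1) * Cr ^ 2 * Cu ^ 2) * (κ + δ / κ) * (∑ Q' ∈ nb Q, sBF St b oml Q') +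
      (2 * (Nb * (CK ^ 2 + 1) * Cr ^ 2 * Cu ^ 2) + Cs * Cu) *
        ∑ Q' ∈ nb Q, payF r0 St D oml TG Q' := by
  obtain ⟨hSV, -, hSB, -, hSP⟩ := sums_nonneg (r0 := r0) W B al0 TG0 L.val0 univ Q
  set SV := ∑ Q' ∈ nb Q, val2 val Q'
  set SB := ∑ Q' ∈ nb Q, sBF St b oml Q'
  set SP := ∑ Q' ∈ nb Q, payF r0 St D oml TG Q'
  have hw := cw_pos W.s0_pos Q0
  have hV := lemV (Q := Q) W L.val0 hCu h2 hns
  have hD := lemD (r0 := r0) (Q := Q) (Q0 := Q0) W B hCu TG0 hns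
  have hdk : 0 ≤ δ / κ := by positivity
  have hdk1 : δ / κ ≤ 1 := by rw [div_le_one hκ]; exact hδκ
  rcases hI with hA | hA
  · have h6 := L.wA6 Q0 h2 (allA hCr B hQ hns h0 hh hA)
    have hE := lemE (r0 := r0) hCu hCr hCK hκ hκ1 W B TG0 L.E2_le hQ hns hA
    have h7 : v Q0 * b Q0 ≤ Cu * (Cu * SV) +
        CK * (Nb * CK * Cr ^ 2 * Cu ^ 2 * (κ * SB + 2 * SP)) + Cs * (Cu * SP) := by
      refine divw hw ?_
      calc cw s0 Q0 * (v Q0 * b Q0) = cw s0 Q0 * v Q0 * b Q0 := by ring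
        _ ≤ _ := h6
        _ ≤ Cu * (cw s0 Q0 * (Cu * SV)) + CK * cw s0 Q0 * (v Q0 * sEs ns Nr E2 Q0) +
            Cs * cw s0 Q0 * (v Q0 * ∑ Q' ∈ ns Q0, dsm r0 D Q') := by
            have := mul_le_mul_of_nonneg_left hV (by linarith : (0 : ℝ) ≤ Cu)
            linarith
        _ ≤ Cu * (cw s0 Q0 * (Cu * SV)) +
            CK * cw s0 Q0 * (Nb * CK * Cr ^ 2 * Cu ^ 2 * (κ * SB + 2 * SP)) +
            Cs * cw s0 Q0 * (Cu * SP) := by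
            have i1 := mul_le_mul_of_nonneg_left hE (by positivity : 0 ≤ CK * cw s0 Q0)
            have i2 := mul_le_mul_of_nonneg_left hD (by positivity : 0 ≤ Cs * cw s0 Q0)
            linarith
        _ = _ := by ring
    refine h7.trans ?_
    have e1 : (Nb * (CK ^ 2 + 1) * Cr ^ 2 * Cu ^ 2) * (κ + δ / κ) * SB ≥
        (Nb * CK ^ 2 * Cr ^ 2 * Cu ^ 2) * κ * SB := by
      refine mul_le_mul_of_nonneg_right ?_ hSB
      refine mul_le_mul ?_ (by linarith) hκ.le (by positivity)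
      refine mul_le_mul_of_nonneg_right (mul_le_mul_of_nonneg_right ?_ (by positivity))
        (by positivity)
      exact mul_le_mul_of_nonneg_left (by linarith) (by positivity)
    have e2 : 2 * (Nb * (CK ^ 2 + 1) * Cr ^ 2 * Cu ^ 2) * SP ≥
        2 * (Nb * CK ^ 2 * Cr ^ 2 * Cu ^ 2) * SP := by
      refine mul_le_mul_of_nonneg_right ?_ hSP
      refine mul_le_mul_of_nonneg_left ?_ (by norm_num)
      refine mul_le_mul_of_nonneg_right (mul_le_mul_of_nonneg_right ?_ (by positivity))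
        (by positivity)
      exact mul_le_mul_of_nonneg_left (by linarith) (by positivity)
    linarith
  · have h6 := L.wB6 Q0 h2 (allB B hQ hns hA)
    have hM := lemM (r0 := r0) hCu hCr hκ W B TG0 hQ hns hA
    have h7 : v Q0 * b Q0 ≤ Cu * (Cu * SV) +
        δ * (1 / κ * (Nb * Cr ^ 2 * Cu ^ 2) * (SB + SP)) + Cs * (Cu * SP) := by
      refine divw hw ?_
      calc cw s0 Q0 * (v Q0 * b Q0) = cw s0 Q0 * v Q0 * b Q0 := by ring
        _ ≤ _ := h6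
        _ ≤ Cu * (cw s0 Q0 * (Cu * SV)) + δ * cw s0 Q0 * (v Q0 * sMs ns Nr a Q0) +
            Cs * cw s0 Q0 * (v Q0 * ∑ Q' ∈ ns Q0, dsm r0 D Q') := by
            have := mul_le_mul_of_nonneg_left hV (by linarith : (0 : ℝ) ≤ Cu)
            linarith
        _ ≤ Cu * (cw s0 Q0 * (Cu * SV)) +
            δ * cw s0 Q0 * (1 / κ * (Nb * Cr ^ 2 * Cu ^ 2) * (SB + SP)) +
            Cs * cw s0 Q0 * (Cu * SP) := by
            have i1 := mul_le_mul_of_nonneg_left hM (by positivity : 0 ≤ δ * cw s0 Q0)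
            have i2 := mul_le_mul_of_nonneg_left hD (by positivity : 0 ≤ Cs * cw s0 Q0)
            linarith
        _ = _ := by ring
    refine h7.trans ?_
    have e0 : δ * (1 / κ * (Nb * Cr ^ 2 * Cu ^ 2) * (SB + SP)) =
        (Nb * Cr ^ 2 * Cu ^ 2) * (δ / κ) * SB + (Nb * Cr ^ 2 * Cu ^ 2) * (δ / κ) * SP := by
      ring
    have e1 : (Nb * (CK ^ 2 + 1) * Cr ^ 2 * Cu ^ 2) * (κ + δ / κ) * SB ≥
        (Nb * 1 * Cr ^ 2 * Cu ^ 2) * (δ / κ) * SB := by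
      refine mul_le_mul_of_nonneg_right ?_ hSB
      refine mul_le_mul ?_ (by linarith) hdk (by positivity)
      refine mul_le_mul_of_nonneg_right (mul_le_mul_of_nonneg_right ?_ (by positivity))
        (by positivity)
      exact mul_le_mul_of_nonneg_left (by linarith [sq_nonneg CK]) (by positivity)
    have e2 : 2 * (Nb * (CK ^ 2 + 1) * Cr ^ 2 * Cu ^ 2) * SP ≥
        (Nb * 1 * Cr ^ 2 * Cu ^ 2) * (δ / κ) * SP := by
      refine mul_le_mul_of_nonneg_right ?_ hSP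
      have i1 : (Nb * 1 * Cr ^ 2 * Cu ^ 2 : ℝ) ≤ Nb * (CK ^ 2 + 1) * Cr ^ 2 * Cu ^ 2 := by
        refine mul_le_mul_of_nonneg_right (mul_le_mul_of_nonneg_right ?_ (by positivity))
          (by positivity)
        exact mul_le_mul_of_nonneg_left (by linarith [sq_nonneg CK]) (by positivity)
      have i2 : (Nb * 1 * Cr ^ 2 * Cu ^ 2 : ℝ) * (δ / κ) ≤ (Nb * 1 * Cr ^ 2 * Cu ^ 2) * 1 :=
        mul_le_mul_of_nonneg_left hdk1 (by positivity)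
      have i3 : (0 : ℝ) ≤ Nb * 1 * Cr ^ 2 * Cu ^ 2 := by positivity
      linarith
    rw [e0]
    linarith

end

end PQ

end

end TG


end

section

set_option autoImplicit false
set_option linter.unusedSectionVars false

/-!
# From the local inequalities LocW to (P), (Q1), (Q2) of StmtMJ   (helper47)
-/

open MeasureTheory Metric Set TrI
open scoped InnerProductSpace ContDiff ENNReal

namespace TG

noncomputable section

variable {d : ℕ}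

namespace PQ

section
variable {Cu Cr CK κ δ Cs η c1 γ s0 : ℝ} {Nb r0 : ℕ} {ns nb : Cell d → Finset (Cell d)}
  {Nr St Sol : Set (Cell d)} {N val v oml a al ah D b at' TG Y E1 E2 : Cell d → ℝ}

/-- (P) for solid interior cells -/
lemma P34 (hCu : 1 ≤ Cu) (hCr : 1 ≤ Cr) (hCK : 0 < CK) (hκ : 0 < κ) (hκ1 : κ ≤ 1)
    (hδ : 0 < δ) (hδκ : δ ≤ κ) (hCs : 0 < Cs) (hη : 0 < η) (hc1 : c1 ≤ 1)
    (W : WtH s0 Cu Nb ns nb Nr v oml) (B : RbH Cr nb St Sol a ah D b)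
    (al0 : ∀ Q, 0 ≤ al Q) (TG0 : ∀ Q, 0 ≤ TG Q)
    (L : LocW s0 γ Cu c1 η (Cr ^ 2) CK κ δ Cs r0 ns Nr St (TyA κ a D b) N val v a al ah D b at' TG
      Y E1 E2) {Q : Cell d} (h2 : 2 ≤ Q.1) (hN : Q ∈ Nr)
    (hQ : Q ∈ Sol) (hI : Q ∈ Intr κ a D b nb) :
    c1 * (cw s0 Q * val Q) ≤ N Q + cw s0 Q * ((Cu * η) * (∑ Q' ∈ nb Q, val2 val Q') +
      (Nb * (CK ^ 2 + 1) * Cr ^ 2 * Cu ^ 2) * (κ + δ / κ) * (∑ Q' ∈ nb Q, sBF St b oml Q') +
      (2 * (Nb * (CK ^ 2 + 1) * Cr ^ 2 * Cu ^ 2) + Cs * Cu) *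
        ∑ Q' ∈ nb Q, payF r0 St D oml TG Q') := by
  have hns : ns Q ⊆ nb Q := W.ns_nb Q
  have h0 : Q ∈ nb Q := hns (W.self Q)
  have hh := (B.half Q hQ).1
  obtain ⟨hSV, -, hSB, -, hSP⟩ := sums_nonneg (r0 := r0) W B al0 TG0 L.val0 univ Q
  have hw := cw_pos W.s0_pos Q
  have hV := lemV (Q := Q) W L.val0 hCu h2 hns
  have hD := lemD (r0 := r0) (Q := Q) (Q0 := Q) W B hCu TG0 hns
  have hdk : 0 ≤ δ / κ := by positivity
  have hdk1 : δ / κ ≤ 1 := by rw [div_le_one hκ]; exact hδκ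
  have hNb : (1 : ℝ) ≤ Nb := by
    have := Finset.card_pos.2 ⟨Q, h0⟩
    exact_mod_cast this.trans_le (W.card Q)
  rcases hI with hA | hA
  · have h6 := L.w2 Q hN h2 (allA hCr B hQ hns h0 hh hA)
    have hE := lemE (r0 := r0) hCu hCr hCK hκ hκ1 W B TG0 L.E2_le hQ hns hA
    set SV := ∑ Q' ∈ nb Q, val2 val Q'
    set SB := ∑ Q' ∈ nb Q, sBF St b oml Q'
    set SP := ∑ Q' ∈ nb Q, payF r0 St D oml TG Q'
    have e1 : (Nb * (CK ^ 2 + 1) * Cr ^ 2 * Cu ^ 2) * (κ + δ / κ) * SB ≥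
        (Nb * CK ^ 2 * Cr ^ 2 * Cu ^ 2) * κ * SB := by
      refine mul_le_mul_of_nonneg_right ?_ hSB
      refine mul_le_mul ?_ (by linarith) hκ.le (by positivity)
      refine mul_le_mul_of_nonneg_right (mul_le_mul_of_nonneg_right ?_ (by positivity))
        (by positivity)
      exact mul_le_mul_of_nonneg_left (by linarith) (by positivity)
    have e2 : 2 * (Nb * (CK ^ 2 + 1) * Cr ^ 2 * Cu ^ 2) * SP ≥
        2 * (Nb * CK ^ 2 * Cr ^ 2 * Cu ^ 2) * SP := by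
      refine mul_le_mul_of_nonneg_right ?_ hSP
      refine mul_le_mul_of_nonneg_left ?_ (by norm_num)
      refine mul_le_mul_of_nonneg_right (mul_le_mul_of_nonneg_right ?_ (by positivity))
        (by positivity)
      exact mul_le_mul_of_nonneg_left (by linarith) (by positivity)
    have i0 := mul_le_mul_of_nonneg_left hV hη.le
    have i1 := mul_le_mul_of_nonneg_left hE (by positivity : 0 ≤ CK * cw s0 Q)
    have i2 := mul_le_mul_of_nonneg_left hD (by positivity : 0 ≤ Cs * cw s0 Q)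
    have e3 : CK * cw s0 Q * (Nb * CK * Cr ^ 2 * Cu ^ 2 * (κ * SB + 2 * SP)) =
      cw s0 Q * ((Nb * CK ^ 2 * Cr ^ 2 * Cu ^ 2) * κ * SB +
        2 * (Nb * CK ^ 2 * Cr ^ 2 * Cu ^ 2) * SP) := by ring
    have e4 := mul_le_mul_of_nonneg_left (add_le_add e1.le e2.le) hw.le
    linarith only [h6, i0, i1, i2, e4]
  · have h6 := L.w3 Q hN h2 (allB B hQ hns hA)
    have hval : 0 ≤ cw s0 Q * val Q := mul_nonneg hw.le (L.val0 Q)
    obtain ⟨s1, -⟩ := B.sol Q hQ Q h0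
    have hb0 := sh_nonneg B.bn Q
    have hD0 := sh_nonneg B.Dn Q
    have ho := W.oml0 Q
    have ha : a Q ≤ 1 / κ * (sh b Q + sh D Q) := by
      have h1 := hA Q h0
      simp only [TyA, mem_ofPred_eq, not_le] at h1
      rw [one_div, ← div_eq_inv_mul, le_div_iff₀ hκ]
      linarith
    have e1 : sh b Q * oml Q ≤ ∑ Q' ∈ nb Q, sBF St b oml Q' := by
      have : sBF St b oml Q = sh b Q * oml Q := by unfold sBF; rw [indicator_of_mem s1]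
      rw [← this]
      exact Finset.single_le_sum (f := sBF St b oml) (fun i _ => sB_nonneg W B i) h0
    have e2 : sh D Q * oml Q ≤ ∑ Q' ∈ nb Q, payF r0 St D oml TG Q' :=
      (pay_sh (r0 := r0) B TG0 s1).trans
        (Finset.single_le_sum (f := payF r0 St D oml TG) (fun i _ => pay_nonneg W B TG0 i) h0)
    have e2' : dsm r0 D Q ≤ ∑ Q' ∈ nb Q, payF r0 St D oml TG Q' :=
      (pay_dsm W B TG0 Q).trans
        (Finset.single_le_sum (f := payF r0 St D oml TG) (fun i _ => pay_nonneg W B TG0 i) h0)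
    set SV := ∑ Q' ∈ nb Q, val2 val Q'
    set SB := ∑ Q' ∈ nb Q, sBF St b oml Q'
    set SP := ∑ Q' ∈ nb Q, payF r0 St D oml TG Q'
    have hm : v Q * a Q ≤ 1 / κ * Cu * (SB + SP) := by
      calc v Q * a Q ≤ (Cu * oml Q) * (1 / κ * (sh b Q + sh D Q)) :=
            mul_le_mul (W.vN Q hN) ha (B.an _) (by positivity)
        _ = 1 / κ * Cu * (sh b Q * oml Q + sh D Q * oml Q) := by ring
        _ ≤ _ := mul_le_mul_of_nonneg_left (by linarith) (by positivity)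
    have hd : v Q * dsm r0 D Q ≤ Cu * SP := mul_le_mul (W.v1 Q) e2' (dsm_nonneg B Q) (by linarith)
    have i1 := mul_le_mul_of_nonneg_left hm (by positivity : 0 ≤ δ * cw s0 Q)
    have i2 := mul_le_mul_of_nonneg_left hd (by positivity : 0 ≤ Cs * cw s0 Q)
    have hK : Cu ≤ Nb * (CK ^ 2 + 1) * Cr ^ 2 * Cu ^ 2 := by
      have j1 : (1 : ℝ) ≤ Nb * (CK ^ 2 + 1) := by nlinarith only [hNb]
      have j2 : (1 : ℝ) ≤ Cr ^ 2 := by nlinarith only [hCr]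
      have j3 : Cu ≤ Cu ^ 2 := by nlinarith only [hCu]
      calc Cu ≤ 1 * 1 * Cu ^ 2 := by linarith
        _ ≤ _ := by (clear * - j1 j2 hNb hCK hCu; gcongr)
    have e3 : δ * cw s0 Q * (1 / κ * Cu * (SB + SP)) = cw s0 Q * (Cu * (δ / κ) * SB +
      Cu * (δ / κ) * SP) := by ring
    have e4 : Cu * (δ / κ) * SB ≤ (Nb * (CK ^ 2 + 1) * Cr ^ 2 * Cu ^ 2) * (κ + δ / κ) * SB := by
      refine mul_le_mul_of_nonneg_right ?_ hSB
      exact mul_le_mul hK (by linarith) hdk (by positivity)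
    have e5 : Cu * (δ / κ) * SP ≤ 2 * (Nb * (CK ^ 2 + 1) * Cr ^ 2 * Cu ^ 2) * SP := by
      refine mul_le_mul_of_nonneg_right ?_ hSP
      nlinarith only [hCu, hdk1, hK]
    have e6 : 0 ≤ (Cu * η) * SV := by positivity
    have e7 := mul_le_mul_of_nonneg_left (add_le_add (add_le_add e4 e5) e6) hw.le
    have e8 : c1 * (cw s0 Q * val Q) ≤ cw s0 Q * val Q := by nlinarith only [hc1, hval]
    linarith only [h6, i1, i2, e3, e7, e8]

end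

end PQ

end

end TG


end

section

set_option autoImplicit false
set_option linter.unusedSectionVars false

/-!
# From the local inequalities LocW to (P), (Q1), (Q2) of StmtMJ   (helper47)
-/

open MeasureTheory Metric Set TrI
open scoped InnerProductSpace ContDiff ENNReal

namespace TG

noncomputable section

variable {d : ℕ}

namespace PQ

section
variable {Cu Cr CK κ δ Cs η c1 γ s0 : ℝ} {Nb r0 : ℕ} {ns nb : Cell d → Finset (Cell d)}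
  {Nr St Sol : Set (Cell d)} {N val v oml a al ah D b at' TG Y E1 E2 : Cell d → ℝ}

/-- (P) for cells at the interface -/
lemma P5 (hCu : 1 ≤ Cu) (hCr : 1 ≤ Cr) (hCK : 0 < CK) (hκ : 0 < κ)
    (hδ : 0 < δ) (hδκ : δ ≤ κ) (hCs : 0 < Cs)
    (W : WtH s0 Cu Nb ns nb Nr v oml) (B : RbH Cr nb St Sol a ah D b)
    (al0 : ∀ Q, 0 ≤ al Q) (TG0 : ∀ Q, 0 ≤ TG Q)
    (L : LocW s0 γ Cu c1 η (Cr ^ 2) CK κ δ Cs r0 ns Nr St (TyA κ a D b) N val v a al ah D b at' TG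
      Y E1 E2) {Q : Cell d} (h2 : 2 ≤ Q.1) (hN : Q ∈ Nr)
    (hQ : Q ∈ Sol) (hI : Q ∉ Intr κ a D b nb) :
    c1 * (cw s0 Q * val Q) ≤ N Q + cw s0 Q * (
      (2 * (Nb * CK ^ 2 * Cu * Cr ^ 3) + Nb * Cr ^ 3 * Cu) *
        (∑ Q' ∈ nb Q, iFF Sol (Intr κ a D b nb) D b oml Q') +
      (Nb * CK * Cs * Cr * Cu + Cs * Cu) * ∑ Q' ∈ nb Q, payF r0 St D oml TG Q') := by
  have hns : ns Q ⊆ nb Q := W.ns_nb Q
  have h0 : Q ∈ nb Q := hns (W.self Q)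
  have hadj : adj Q ⊆ nb Q := (W.adj_ns Q).trans hns
  have hh := (B.half Q hQ).1
  have hw := cw_pos W.s0_pos Q
  have hD := lemD (r0 := r0) (Q := Q) (Q0 := Q) W B hCu TG0 hadj
  have ha0 := B.an Q
  have hCr2 : Cr ≤ Cr ^ 2 := by nlinarith only [hCr]
  have hah : 0 ≤ ah Q := by
    by_contra hneg
    rw [not_le] at hneg
    nlinarith only [hh, ha0, hneg, hCr]
  have h4 := L.w4 Q hN h2 (fun Q' hQ' => by
    obtain ⟨t1, t2, t3, -⟩ := B.sol Q hQ Q' (hns hQ')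
    exact ⟨t1, t2.trans (mul_le_mul_of_nonneg_right hCr2 ha0),
      t3.trans (mul_le_mul_of_nonneg_right hCr2 (B.an Q'))⟩)
    (hh.trans (mul_le_mul_of_nonneg_right hCr2 hah))
  -- the mass at the interface
  have hb0 := sh_nonneg B.bn Q
  have hD0 := sh_nonneg B.Dn Q
  have ho := W.oml0 Q
  have hex : ∃ Q2 ∈ nb Q, Q2 ∉ TyA κ a D b := by
    by_contra hneg
    refine hI (Or.inl fun Q' hQ' => ?_)
    by_contra h'
    exact hneg ⟨Q', hQ', h'⟩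
  obtain ⟨Q2, hQ2, hT2⟩ := hex
  set S : ℝ := sh b Q + sh D Q with hS
  have hS0 : 0 ≤ S := add_nonneg hb0 hD0
  have haQ : a Q ≤ Cr ^ 2 * (1 / κ * S) := by
    obtain ⟨-, -, t3, t4, -⟩ := B.sol Q hQ Q2 hQ2
    have h1 : a Q2 ≤ 1 / κ * (Cr * S) := by
      simp only [TyA, mem_ofPred_eq, not_le] at hT2
      rw [one_div, ← div_eq_inv_mul, le_div_iff₀ hκ]
      linarith
    calc a Q ≤ Cr * a Q2 := t3
      _ ≤ Cr * (1 / κ * (Cr * S)) := mul_le_mul_of_nonneg_left h1 (by linarith)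
      _ = _ := by ring
  have haQ' : ∀ Q' ∈ nb Q, a Q' ≤ Cr ^ 3 * (1 / κ * S) := by
    intro Q' hQ'
    obtain ⟨-, t2, -⟩ := B.sol Q hQ Q' hQ'
    calc a Q' ≤ Cr * a Q := t2
      _ ≤ Cr * (Cr ^ 2 * (1 / κ * S)) := mul_le_mul_of_nonneg_left haQ (by linarith)
      _ = _ := by ring
  have hcard : ((adj Q).card : ℝ) ≤ Nb := by
    exact_mod_cast (Finset.card_le_card hadj).trans (W.card Q)
  have hE : ∑ Q' ∈ adj Q, (TyA κ a D b).indicator E1 Q' ≤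
      Nb * (2 * CK * Cr ^ 3 * S + Cs * Cr * sh D Q) := by
    have hX : 0 ≤ 2 * CK * Cr ^ 3 * S + Cs * Cr * sh D Q := by positivity
    calc ∑ Q' ∈ adj Q, (TyA κ a D b).indicator E1 Q'
        ≤ ∑ _Q' ∈ adj Q, (2 * CK * Cr ^ 3 * S + Cs * Cr * sh D Q) := by
          refine Finset.sum_le_sum fun Q' hQ' => ?_
          by_cases hT : Q' ∈ TyA κ a D b
          · rw [indicator_of_mem hT]
            obtain ⟨t1, t2, t3, t4, t5, t6, t7⟩ := B.sol Q hQ Q' (hadj hQ')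
            have e1 := L.E1_le Q' t1 hT
            have hb1 := sh_nonneg B.bn Q'
            have hD1 := sh_nonneg B.Dn Q'
            have e2 : sh b Q' ≤ Cr ^ 3 * S := by
              have : Cr * S ≤ Cr ^ 3 * S := mul_le_mul_of_nonneg_right (by nlinarith only [hCr2, hCr]) hS0
              linarith
            have e3 : κ * a Q' ≤ Cr ^ 3 * S := by
              calc κ * a Q' ≤ κ * (Cr ^ 3 * (1 / κ * S)) :=
                    mul_le_mul_of_nonneg_left (haQ' Q' (hadj hQ')) hκ.le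
                _ = (κ * (1 / κ)) * (Cr ^ 3 * S) := by ring
                _ = _ := by rw [mul_one_div_cancel hκ.ne', one_mul]
            have e4 := mul_le_mul_of_nonneg_left (add_le_add e2 e3) hCK.le
            have e5 := mul_le_mul_of_nonneg_left t6 hCs.le
            linarith
          · rw [indicator_of_notMem hT]; exact hX
      _ = (adj Q).card * (2 * CK * Cr ^ 3 * S + Cs * Cr * sh D Q) := by
          rw [Finset.sum_const, nsmul_eq_mul]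
      _ ≤ _ := mul_le_mul_of_nonneg_right hcard hX
  have hA : ∑ Q' ∈ adj Q, a Q' ≤ Nb * (Cr ^ 3 * (1 / κ * S)) := by
    have hX : 0 ≤ Cr ^ 3 * (1 / κ * S) := by positivity
    calc ∑ Q' ∈ adj Q, a Q' ≤ ∑ _Q' ∈ adj Q, Cr ^ 3 * (1 / κ * S) :=
          Finset.sum_le_sum fun Q' hQ' => haQ' Q' (hadj hQ')
      _ = (adj Q).card * (Cr ^ 3 * (1 / κ * S)) := by rw [Finset.sum_const, nsmul_eq_mul]
      _ ≤ _ := mul_le_mul_of_nonneg_right hcard hX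
  obtain ⟨s1, -⟩ := B.sol Q hQ Q h0
  have f1 : S * oml Q ≤ ∑ Q' ∈ nb Q, iFF Sol (Intr κ a D b nb) D b oml Q' := by
    have : iFF Sol (Intr κ a D b nb) D b oml Q = S * oml Q := by
      unfold iFF
      rw [indicator_of_mem (by exact ⟨⟨h2, hQ⟩, hI⟩)]
    rw [← this]
    exact Finset.single_le_sum (f := iFF Sol (Intr κ a D b nb) D b oml)
      (fun i _ => iF_nonneg W B _ i) h0
  have f2 : sh D Q * oml Q ≤ ∑ Q' ∈ nb Q, payF r0 St D oml TG Q' :=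
    (pay_sh (r0 := r0) B TG0 s1).trans
      (Finset.single_le_sum (f := payF r0 St D oml TG) (fun i _ => pay_nonneg W B TG0 i) h0)
  set SI := ∑ Q' ∈ nb Q, iFF Sol (Intr κ a D b nb) D b oml Q'
  set SP := ∑ Q' ∈ nb Q, payF r0 St D oml TG Q'
  have hv := W.vN Q hN
  have hv0 := W.v0 Q
  have g1 : CK * (cw s0 Q * v Q) * (∑ Q' ∈ adj Q, (TyA κ a D b).indicator E1 Q') ≤
      cw s0 Q * (2 * (Nb * CK ^ 2 * Cu * Cr ^ 3) * SI + Nb * CK * Cs * Cr * Cu * SP) := by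
    calc CK * (cw s0 Q * v Q) * (∑ Q' ∈ adj Q, (TyA κ a D b).indicator E1 Q')
        ≤ CK * (cw s0 Q * v Q) * (Nb * (2 * CK * Cr ^ 3 * S + Cs * Cr * sh D Q)) :=
          mul_le_mul_of_nonneg_left hE (by positivity)
      _ ≤ CK * (cw s0 Q * (Cu * oml Q)) * (Nb * (2 * CK * Cr ^ 3 * S + Cs * Cr * sh D Q)) := by
          refine mul_le_mul_of_nonneg_right ?_ (by (clear * - hCK hCr hb0 hD0 hCs; positivity))
          refine mul_le_mul_of_nonneg_left ?_ hCK.le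
          exact mul_le_mul_of_nonneg_left hv hw.le
      _ = cw s0 Q * (2 * (Nb * CK ^ 2 * Cu * Cr ^ 3) * (S * oml Q) +
            Nb * CK * Cs * Cr * Cu * (sh D Q * oml Q)) := by ring
      _ ≤ _ := by
          refine mul_le_mul_of_nonneg_left ?_ hw.le
          exact add_le_add (mul_le_mul_of_nonneg_left f1 (by positivity))
            (mul_le_mul_of_nonneg_left f2 (by positivity))
  have g2 : δ * (cw s0 Q * v Q) * (∑ Q' ∈ adj Q, a Q') ≤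
      cw s0 Q * (Nb * Cr ^ 3 * Cu * SI) := by
    have hdk1 : δ * (1 / κ) ≤ 1 := by rw [mul_one_div, div_le_one hκ]; exact hδκ
    calc δ * (cw s0 Q * v Q) * (∑ Q' ∈ adj Q, a Q')
        ≤ δ * (cw s0 Q * v Q) * (Nb * (Cr ^ 3 * (1 / κ * S))) :=
          mul_le_mul_of_nonneg_left hA (by positivity)
      _ ≤ δ * (cw s0 Q * (Cu * oml Q)) * (Nb * (Cr ^ 3 * (1 / κ * S))) := by
          refine mul_le_mul_of_nonneg_right ?_ (by positivity)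
          refine mul_le_mul_of_nonneg_left ?_ hδ.le
          exact mul_le_mul_of_nonneg_left hv hw.le
      _ = (δ * (1 / κ)) * (cw s0 Q * (Nb * Cr ^ 3 * Cu * (S * oml Q))) := by ring
      _ ≤ 1 * (cw s0 Q * (Nb * Cr ^ 3 * Cu * (S * oml Q))) :=
          mul_le_mul_of_nonneg_right hdk1 (by (clear * - hw hCr hCu hb0 hD0 ho; positivity))
      _ ≤ _ := by
          rw [one_mul]
          refine mul_le_mul_of_nonneg_left ?_ hw.le
          exact mul_le_mul_of_nonneg_left f1 (by positivity)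
  have g3 := mul_le_mul_of_nonneg_left hD (by positivity : 0 ≤ Cs * cw s0 Q)
  linarith

end

end PQ

end

end TG


end

section

/-!
# Trace inequality, general operators: module SAF, statements of the pieces

No double quotes.  Unit scale.
-/

open MeasureTheory Metric Set TrI
open scoped InnerProductSpace ContDiff

namespace TG

noncomputable section

variable {d : ℕ}

/-- normal of the plane z = ⟨w,y⟩ + o over the plane with normal ν (w orthogonal to ν) -/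
def nunew (ν w : Sp d) : Sp d := (1 / Real.sqrt (1 + ‖w‖ ^ 2)) • (ν - w)

/-- its height: the plane is {⟨ν - w, y⟩ = c + o} -/
def cnew (w : Sp d) (c o : ℝ) : ℝ := (c + o) / Real.sqrt (1 + ‖w‖ ^ 2)

/-- SAF piece 1: the plane integral over a tilted plane, to first order -/
def StmtSAF1 : Prop :=
  ∀ (d : ℕ), 1 ≤ d → ∀ ρ : ℝ, ∃ C : ℝ, 0 < C ∧
    ∀ (ν w : Sp d) (c o : ℝ), ‖ν‖ = 1 → ⟪ν, w⟫_ℝ = 0 → ‖w‖ ≤ 1 → |o| ≤ 1 → |c| ≤ ρ →
    ∀ (F : Sp d → ℝ) (N : ℝ), TFn 2 N F → (∀ y, ρ ≤ ‖y‖ → F y = 0) →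
      |plInt (nunew ν w) (cnew w c o) F
        - plInt ν c (fun y => F y + (⟪w, y⟫_ℝ + o) * fderiv ℝ F y ν)| ≤
      C * N * (‖w‖ ^ 2 + o ^ 2)

/-- SAF piece 2: the jump at level 2 is constant up to B, in the frame of level 2 -/
def StmtSAF2 : Prop :=
  ∀ (d : ℕ) (V E : Type) [NormedAddCommGroup V] [InnerProductSpace ℝ V] [FiniteDimensional ℝ V]
    [NormedAddCommGroup E] [InnerProductSpace ℝ E] [FiniteDimensional ℝ E]
    (L : (Sp d →L[ℝ] V) →L[ℝ] E) (n0 : ℕ)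
    (T : (ContinuousMultilinearMap ℝ (fun _ : Fin n0 => Sp d) E) →L[ℝ]
      (ContinuousMultilinearMap ℝ (fun _ : Fin (n0 + 1) => Sp d) V)), 2 ≤ d → 1 ≤ n0 →
    NSProp L n0 T → ∀ (M c0 ε : ℝ), 0 < ε → ε ≤ 1 → ∀ (b : Sp d → ℝ), BaseKer 2 M c0 b →
    ∀ R0 : ℝ, 200 + 8 * d ≤ R0 → ∃ C : ℝ, 0 < C ∧
      ∀ (R : ℝ), 4 * R0 + 10 ≤ R → ∀ (n : ℕ) (u : Sp d → V), TF u →
      ∀ (x : ℕ → Sp d) (e : ℕ → E), Tower x e →
      ∀ (ν : Sp d) (c B : ℝ), ‖ν‖ = 1 → |c| ≤ R0 + 3 →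
        (∀ I : ℕ, ∑ r ∈ Finset.range I, (1 / 2 : ℝ) ^ r *
          bD b ε R0 R ((1 / 2) ^ n) (fo L u) (n + r) (x r) (e r) ν c ≤ B) →
        ∃ v0 : V, ∀ y : Sp d, ‖y‖ ≤ R0 →
          ‖JJ n0 ν (((c - ⟪ν, x 2⟫_ℝ) / 4) • ν) 1 (fun z => u (x 2 + (4 : ℝ) • z)) y - v0‖ ≤
            C * B

/-- SAF piece 3: from divergences to general functions -/
def StmtSAF3 : Prop :=
  ∀ (d : ℕ), 2 ≤ d → ∀ J : ℕ, ∃ J' : ℕ, ∀ ρ : ℝ, 2 ≤ ρ → ∃ C : ℝ, 0 < C ∧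
    ∀ (m : Sp d → ℝ), Continuous m → HasCompactSupport m →
    ∀ (ν w : Sp d) (c a η : ℝ), ‖ν‖ = 1 → |c| ≤ ρ → ⟪ν, w⟫_ℝ = 0 → 0 ≤ η →
      (∀ (ψ : Sp d → ℝ) (Y : Sp d → Sp d) (N : ℝ), TFn J N ψ → TFn J N Y → Cyl ν ρ ψ →
        Cyl ν ρ Y → (∀ y, ⟪ν, Y y⟫_ℝ = 0) →
        |(∫ y, m y * (cu1 4 (ht ν c y) * (ψ y - ht ν c y * dv Y y)))
          - (a * plInt ν c ψ + plInt ν c (fun y => ⟪w, Y y⟫_ℝ))| ≤ N * η) →
      ∃ o : ℝ, ∀ (ζ0 ζ1 : Sp d → ℝ) (N : ℝ), TFn J' N ζ0 → TFn J' N ζ1 → Cyl ν ρ ζ0 →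
        Cyl ν ρ ζ1 →
        |(∫ y, m y * (cu1 4 (ht ν c y) * (ζ0 y + ht ν c y * ζ1 y)))
          - plInt ν c (fun y => a * ζ0 y + (⟪w, y⟫_ℝ + o) * ζ1 y)| ≤ C * N * η

end

end TG


end

section

/-!
# MODULE TA1 (11.1), case A1: definitions and the statement of the pointwise part (helper88)
-/

open MeasureTheory Metric Set TrI
open scoped InnerProductSpace ContDiff

namespace TG

namespace TA1m

noncomputable section

variable {d : ℕ}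

/-- orthogonal projection to the plane {⟨n,x⟩ = s} -/
def yS (n : Sp d) (s : ℝ) (y : Sp d) : Sp d := s • n + tang n y

/-- the Taylor polynomial of X13 in normal direction, at the plane -/
def LL (β : Sp d → ℝ) (ε : ℝ) (μ : Measure (Sp d)) (n : Sp d) (s : ℝ) (y : Sp d) : ℝ :=
  X13 β ε μ n 1 (yS n s y) + hgt n s y * fderiv ℝ (X13 β ε μ n 1) (yS n s y) n

/-- the test function on the sheet (without the cut-off) -/
def ze (β : Sp d → ℝ) (ε : ℝ) (μ : Measure (Sp d)) (n : Sp d) (s : ℝ) (y : Sp d) : ℝ :=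
  LL β ε μ n s y + (tav (Mo μ n s 2) 1 y - 2 * (hgt n s y * tav (Mo μ n s 1) 1 y))

/-- the pointwise inequality -/
def StmtPtA : Prop :=
  ∀ (d J : ℕ), 2 ≤ d → ∀ (M C' ε p0 A c R0 : ℝ), 0 < C' → 0 < ε → ε ≤ 1 / 4 →
    FarK d (J + 10) M C' ε p0 A c → 4 * A + 4 * d + 20 ≤ R0 →
    ∃ κ i0 : ℝ, 0 < κ ∧ κ ≤ c ∧ 0 < i0 ∧
    ∀ β : Sp d → ℝ, Kit (J + 10) M β → ∀ μ : Measure (Sp d), Gro C' μ →
    ∀ (n : Sp d) (s : ℝ), ‖n‖ = 1 → |s| ≤ 3 / 2 * R0 →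
      plInt n s (fun x => zR (2 * R0 - 1) x * XX β ε μ n 1 x) ≤ i0 * vv μ 1 0 →
      ∀ y : Sp d, ‖y‖ ≤ d →
        c * ze β ε μ n s y + κ * vv μ 1 0 * hgt n s y ^ 2 ≤ Hn β ε p0 A μ n 1 y

end

end TA1m

end TG


end
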