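import Mathlib

/-! Parts: TR.SymD, TG.PI, TG.Bd -/

section

/-!
# Symmetry of the iterated derivatives of smooth functions
-/

open scoped ContDiff

namespace TrI

section

variable {G F : Type*} [NormedAddCommGroup G] [NormedSpace ℝ G] [NormedAddCommGroup F]
  [NormedSpace ℝ F]

theorem smooth_iter {f : G → F} (hf : ContDiff ℝ ∞ f) (n : ℕ) :
    ContDiff ℝ ∞ (iteratedFDeriv ℝ n f) :=
  hf.iteratedFDeriv_right (m := ∞) (by exact_mod_cast le_top)

theorem iter_succ {f : G → F} (hf : ContDiff ℝ ∞ f) (n : ℕ) (x : G) (m : Fin (n + 1) → G) :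
    iteratedFDeriv ℝ (n + 1) f x m =
      fderiv ℝ (fun y => iteratedFDeriv ℝ n f y (Fin.tail m)) x (m 0) :=
  ((smooth_iter hf n).differentiable (by simp)).differentiableAt.iteratedFDeriv_succ_apply_left'

theorem smooth_iter_apply {f : G → F} (hf : ContDiff ℝ ∞ f) (n : ℕ) (w : Fin n → G) :
    ContDiff ℝ ∞ (fun y => iteratedFDeriv ℝ n f y w) := by
  have h := smooth_iter hf n
  exact (ContinuousMultilinearMap.apply ℝ (fun _ : Fin n => G) F w).contDiff.comp h

/-- swapping two adjacent arguments -/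
theorem iter_swap (n : ℕ) : ∀ (f : G → F), ContDiff ℝ ∞ f → ∀ (x : G) (i : Fin n)
    (v : Fin (n + 1) → G),
    iteratedFDeriv ℝ (n + 1) f x (v ∘ Equiv.swap i.castSucc i.succ) =
      iteratedFDeriv ℝ (n + 1) f x v := by
  induction n with
  | zero => intro f _ x i; exact i.elim0
  | succ n ih =>
    intro f hf x i v
    rw [iter_succ hf, iter_succ hf]
    refine Fin.cases ?_ (fun j => ?_) i
    · -- first two arguments
      set w : Fin n → G := Fin.tail (Fin.tail v) with hw
      have h1 : ∀ m : Fin (n + 2) → G, Fin.tail (Fin.tail m) = w →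
          (fun y => iteratedFDeriv ℝ (n + 1) f y (Fin.tail m)) =
            fun y => fderiv ℝ (fun y => iteratedFDeriv ℝ n f y w) y (m 1) := by
        intro m hm
        funext y
        rw [iter_succ hf, hm]
        rfl
      have hv' : Fin.tail (Fin.tail (v ∘ Equiv.swap (Fin.castSucc (0 : Fin (n + 1)))
          (Fin.succ 0))) = w := by
        funext k
        simp only [hw, Fin.tail, Function.comp_apply]
        rw [Equiv.swap_apply_of_ne_of_ne]
        · intro h; simp [Fin.ext_iff] at h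
        · intro h; simp [Fin.ext_iff] at h
      rw [h1 _ hv', h1 v rfl]
      set g : G → F := fun y => iteratedFDeriv ℝ n f y w with hg
      have hgs : ContDiff ℝ ∞ g := smooth_iter_apply hf n w
      have hd : ∀ b : G, ∀ a : G, fderiv ℝ (fun y => fderiv ℝ g y b) x a =
          fderiv ℝ (fderiv ℝ g) x a b := by
        intro b a
        have h2 : DifferentiableAt ℝ (fderiv ℝ g) x :=
          ((hgs.fderiv_right (m := ∞) (by simp)).differentiable (by simp)) x
        rw [fderiv_clm_apply h2 (differentiableAt_const b)]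
        simp
      rw [hd, hd]
      have hsym := (hgs.contDiffAt (x := x)).isSymmSndFDerivAt
        (by rw [minSmoothness_of_isRCLikeNormedField]
            exact WithTop.coe_le_coe.2 (le_top : (2 : ℕ∞) ≤ ⊤))
      have e0 : (v ∘ Equiv.swap (Fin.castSucc (0 : Fin (n + 1))) (Fin.succ 0)) 0 = v 1 := by
        simp
      have e1 : (v ∘ Equiv.swap (Fin.castSucc (0 : Fin (n + 1))) (Fin.succ 0)) 1 = v 0 := by
        simp
      rw [e0, e1]
      exact hsym _ _
    · -- the other arguments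
      have e0 : (v ∘ Equiv.swap (Fin.castSucc j.succ) (Fin.succ j.succ)) 0 = v 0 := by
        simp only [Function.comp_apply]
        rw [Equiv.swap_apply_of_ne_of_ne]
        · intro h; simp [Fin.ext_iff] at h
        · intro h; simp [Fin.ext_iff] at h
      have e1 : Fin.tail (v ∘ Equiv.swap (Fin.castSucc j.succ) (Fin.succ j.succ)) =
          Fin.tail v ∘ Equiv.swap j.castSucc j.succ := by
        funext k
        simp only [Fin.tail, Function.comp_apply]
        congr 1
        rw [← Fin.succ_castSucc]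
        by_cases h1 : k = j.castSucc
        · subst h1; simp
        · by_cases h2 : k = j.succ
          · subst h2; simp
          · rw [Equiv.swap_apply_of_ne_of_ne h1 h2, Equiv.swap_apply_of_ne_of_ne]
            · intro h; exact h1 (Fin.succ_injective _ h)
            · intro h; exact h2 (Fin.succ_injective _ h)
      rw [e0, e1]
      have h3 : (fun y => iteratedFDeriv ℝ (n + 1) f y
          (Fin.tail v ∘ Equiv.swap j.castSucc j.succ)) =
          fun y => iteratedFDeriv ℝ (n + 1) f y (Fin.tail v) := by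
        funext y
        exact ih f hf y j _
      rw [h3]

/-- the iterated derivatives of smooth functions are symmetric -/
theorem iter_perm {f : G → F} (hf : ContDiff ℝ ∞ f) (n : ℕ) (x : G) (π : Equiv.Perm (Fin n))
    (v : Fin n → G) : iteratedFDeriv ℝ n f x (v ∘ π) = iteratedFDeriv ℝ n f x v := by
  cases n with
  | zero =>
    congr 1
    funext i; exact i.elim0
  | succ n =>
    have hmem : π ∈ Submonoid.closure
        (Set.range fun i : Fin n => Equiv.swap i.castSucc i.succ) := by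
      rw [Equiv.Perm.mclosure_swap_castSucc_succ]; trivial
    induction hmem using Submonoid.closure_induction generalizing v with
    | mem π h =>
      obtain ⟨i, rfl⟩ := h
      exact iter_swap n f hf x i v
    | one => rfl
    | mul a b _ _ ha hb =>
      rw [Equiv.Perm.coe_mul, ← Function.comp_assoc, hb, ha]

end

end TrI


end

section

/-!
# Differentiation under the integral sign, all orders

General tools (no dependence on the trace inequality files).
-/

open MeasureTheory Metric Set Filter Topology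
open scoped ContDiff

set_option linter.unusedSectionVars false

namespace TG

section PInt

variable {P E : Type*} [NormedAddCommGroup P] [NormedSpace ℝ P]
  [NormedAddCommGroup E] [NormedSpace ℝ E] [CompleteSpace E]

set_option backward.isDefEq.respectTransparency false in
/-- Differentiation under the integral sign, all orders. -/
theorem pint {α : Type*} [MeasurableSpace α] {ν : Measure α} {U : Set P} (hU : IsOpen U)
    {G : P → α → E} (hG : ∀ a, ContDiffOn ℝ ∞ (fun p => G p a) U)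
    (hm : ∀ j : ℕ, ∀ p ∈ U,
      AEStronglyMeasurable (fun a => iteratedFDeriv ℝ j (fun q => G q a) p) ν)
    (hb : ∀ j : ℕ, ∀ p0 ∈ U, ∃ b : α → ℝ, Integrable b ν ∧ ∃ s ∈ 𝓝 p0,
      ∀ a, ∀ p ∈ s, ‖iteratedFDeriv ℝ j (fun q => G q a) p‖ ≤ b a) :
    HasFTaylorSeriesUpToOn ∞ (fun p => ∫ a, G p a ∂ν)
      (fun p j => ∫ a, iteratedFDeriv ℝ j (fun q => G q a) p ∂ν) U := by
  have hint : ∀ j : ℕ, ∀ p ∈ U, Integrable (fun a => iteratedFDeriv ℝ j (fun q => G q a) p) ν := by
    intro j p hp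
    obtain ⟨b, hb1, s, hs, hb2⟩ := hb j p hp
    exact hb1.mono' (hm j p hp) (Eventually.of_forall fun a => hb2 a p (mem_of_mem_nhds hs))
  have key : ∀ m : ℕ, ∀ x ∈ U,
      HasFDerivAt (fun p => ∫ a, iteratedFDeriv ℝ m (fun q => G q a) p ∂ν)
        ((∫ a, iteratedFDeriv ℝ (m + 1) (fun q => G q a) x ∂ν).curryLeft) x := by
    intro m x hx
    obtain ⟨b, hb1, s, hs, hb2⟩ := hb (m + 1) x hx
    have h1 : HasFDerivAt (fun p => ∫ a, iteratedFDeriv ℝ m (fun q => G q a) p ∂ν)
        (∫ a, (iteratedFDeriv ℝ (m + 1) (fun q => G q a) x).curryLeft ∂ν) x := by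
      refine hasFDerivAt_integral_of_dominated_of_fderiv_le (bound := b) (s := s ∩ U)
        (F' := fun p a => (iteratedFDeriv ℝ (m + 1) (fun q => G q a) p).curryLeft)
        (inter_mem hs (hU.mem_nhds hx)) ?_ (hint m x hx) ?_ ?_ hb1 ?_
      · filter_upwards [hU.mem_nhds hx] with p hp using hm m p hp
      · exact (continuousMultilinearCurryLeftEquiv ℝ (fun _ : Fin (m + 1) => P)
          E).continuous.comp_aestronglyMeasurable (hm (m + 1) x hx)
      · refine Eventually.of_forall fun a p hp => ?_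
        have := hb2 a p hp.1
        rw [ContinuousMultilinearMap.curryLeft_norm]
        exact this
      · refine Eventually.of_forall fun a p hp => ?_
        have h2 : ContDiffAt ℝ ∞ (fun q => G q a) p := (hG a).contDiffAt (hU.mem_nhds hp.2)
        have h3 : DifferentiableAt ℝ (iteratedFDeriv ℝ m (fun q => G q a)) p :=
          ((h2.iteratedFDeriv_right (m := 1) (i := m) (by exact_mod_cast le_top))).differentiableAt
            (by norm_num)
        have h4 := h3.hasFDerivAt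
        have h5 : fderiv ℝ (iteratedFDeriv ℝ m (fun q => G q a)) p =
            (iteratedFDeriv ℝ (m + 1) (fun q => G q a) p).curryLeft := by
          rw [fderiv_iteratedFDeriv]
          rfl
        rw [h5] at h4
        exact h4
    have h6 : (∫ a, (iteratedFDeriv ℝ (m + 1) (fun q => G q a) x).curryLeft ∂ν) =
        (∫ a, iteratedFDeriv ℝ (m + 1) (fun q => G q a) x ∂ν).curryLeft := by
      let L : (P [×(m + 1)]→L[ℝ] E) →L[ℝ] (P →L[ℝ] (P [×m]→L[ℝ] E)) :=
        (continuousMultilinearCurryLeftEquiv ℝ (fun _ : Fin (m + 1) => P)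
          E).toContinuousLinearEquiv.toContinuousLinearMap
      exact ContinuousLinearMap.integral_comp_comm (𝕜 := ℝ) (E := P [×(m + 1)]→L[ℝ] E)
        (Fₗ := P →L[ℝ] (P [×m]→L[ℝ] E)) L (hint (m + 1) x hx)
    rw [h6] at h1
    exact h1
  refine ⟨?_, ?_, ?_⟩
  · intro x hx
    have := (continuousMultilinearCurryFin0 ℝ P
          E).toContinuousLinearEquiv.toContinuousLinearMap.integral_comp_comm (hint 0 x hx)
    exact this.symm
  · intro m _ x hx
    exact (key m x hx).hasFDerivWithinAt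
  · intro m _ x hx
    exact (key m x hx).continuousAt.continuousWithinAt

theorem pint_contDiffOn {α : Type*} [MeasurableSpace α] {ν : Measure α} {U : Set P}
    (hU : IsOpen U) {G : P → α → E} (hG : ∀ a, ContDiffOn ℝ ∞ (fun p => G p a) U)
    (hm : ∀ j : ℕ, ∀ p ∈ U,
      AEStronglyMeasurable (fun a => iteratedFDeriv ℝ j (fun q => G q a) p) ν)
    (hb : ∀ j : ℕ, ∀ p0 ∈ U, ∃ b : α → ℝ, Integrable b ν ∧ ∃ s ∈ 𝓝 p0,
      ∀ a, ∀ p ∈ s, ‖iteratedFDeriv ℝ j (fun q => G q a) p‖ ≤ b a) :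
    ContDiffOn ℝ ∞ (fun p => ∫ a, G p a ∂ν) U :=
  (pint hU hG hm hb).contDiffOn

theorem pint_eq {α : Type*} [MeasurableSpace α] {ν : Measure α} {U : Set P}
    (hU : IsOpen U) {G : P → α → E} (hG : ∀ a, ContDiffOn ℝ ∞ (fun p => G p a) U)
    (hm : ∀ j : ℕ, ∀ p ∈ U,
      AEStronglyMeasurable (fun a => iteratedFDeriv ℝ j (fun q => G q a) p) ν)
    (hb : ∀ j : ℕ, ∀ p0 ∈ U, ∃ b : α → ℝ, Integrable b ν ∧ ∃ s ∈ 𝓝 p0,
      ∀ a, ∀ p ∈ s, ‖iteratedFDeriv ℝ j (fun q => G q a) p‖ ≤ b a) (j : ℕ) {p : P}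
    (hp : p ∈ U) :
    iteratedFDeriv ℝ j (fun p => ∫ a, G p a ∂ν) p =
      ∫ a, iteratedFDeriv ℝ j (fun q => G q a) p ∂ν := by
  have h := (pint hU hG hm hb).eq_iteratedFDerivWithin_of_uniqueDiffOn (m := j)
    (by exact_mod_cast le_top) hU.uniqueDiffOn hp
  rw [iteratedFDerivWithin_of_isOpen j hU hp] at h
  exact h.symm

end PInt

section PIntK

variable {P Z E : Type*} [NormedAddCommGroup P] [NormedSpace ℝ P]
  [NormedAddCommGroup Z] [NormedSpace ℝ Z] [MeasurableSpace Z] [BorelSpace Z]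
  [SecondCountableTopology Z]
  [NormedAddCommGroup E] [NormedSpace ℝ E] [CompleteSpace E]

/-- partial derivatives of a jointly smooth function -/
theorem iter_slice {W : Set (P × Z)} (hW : IsOpen W) {G : P × Z → E} (hG : ContDiffOn ℝ ∞ G W)
    (j : ℕ) {p : P} {z : Z} (h : (p, z) ∈ W) :
    iteratedFDeriv ℝ j (fun q => G (q, z)) p =
      (iteratedFDeriv ℝ j G (p, z)).compContinuousLinearMap
        (fun _ => ContinuousLinearMap.inl ℝ P Z) := by
  have h1 : (fun q => G (q, z)) =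
      (fun y => G (y + ((0 : P), z))) ∘ (ContinuousLinearMap.inl ℝ P Z) := by
    funext q
    simp
  have h2 : ContDiffAt ℝ ∞ G (p, z) := hG.contDiffAt (hW.mem_nhds h)
  have h3 : ContDiffAt ℝ ∞ (fun y => G (y + ((0 : P), z)))
      (ContinuousLinearMap.inl ℝ P Z p) := by
    have : ContDiffAt ℝ ∞ (fun y : P × Z => y + ((0 : P), z)) (ContinuousLinearMap.inl ℝ P Z p) :=
      contDiffAt_id.add contDiffAt_const
    refine ContDiffAt.comp (g := G) _ ?_ this
    simpa using h2
  rw [h1]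
  have h4 : iteratedFDeriv ℝ j
      ((fun y => G (y + ((0 : P), z))) ∘ (ContinuousLinearMap.inl ℝ P Z)) p =
      (iteratedFDeriv ℝ j (fun y => G (y + ((0 : P), z)))
        (ContinuousLinearMap.inl ℝ P Z p)).compContinuousLinearMap
        (fun _ => ContinuousLinearMap.inl ℝ P Z) := by
    -- within an open set
    set s : Set (P × Z) := (fun y : P × Z => y + ((0 : P), z)) ⁻¹' W with hs
    have hso : IsOpen s := hW.preimage (by fun_prop)
    have hps : (ContinuousLinearMap.inl ℝ P Z p) ∈ s := by simpa [hs] using h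
    have hfs : ContDiffOn ℝ ∞ (fun y => G (y + ((0 : P), z))) s := by
      have : ContDiffOn ℝ ∞ (fun y : P × Z => y + ((0 : P), z)) s :=
        contDiffOn_id.add contDiffOn_const
      exact hG.comp this (fun y hy => hy)
    have hto : IsOpen ((ContinuousLinearMap.inl ℝ P Z) ⁻¹' s) :=
      hso.preimage (ContinuousLinearMap.inl ℝ P Z).continuous
    have h5 := (ContinuousLinearMap.inl ℝ P Z).iteratedFDerivWithin_comp_right hfs
      hso.uniqueDiffOn hto.uniqueDiffOn hps (i := j) (by exact_mod_cast le_top)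
    rw [iteratedFDerivWithin_of_isOpen j hso hps, iteratedFDerivWithin_of_isOpen j hto hps] at h5
    exact h5
  rw [h4, iteratedFDeriv_comp_add_right]
  simp

theorem iter_slice_cont {W : Set (P × Z)} (hW : IsOpen W) {G : P × Z → E}
    (hG : ContDiffOn ℝ ∞ G W) (j : ℕ) :
    ContinuousOn (fun q : P × Z => iteratedFDeriv ℝ j (fun p => G (p, q.2)) q.1) W := by
  have h1 : ContinuousOn (iteratedFDeriv ℝ j G) W := by
    have := hG.continuousOn_iteratedFDerivWithin (m := j) (by exact_mod_cast le_top)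
      hW.uniqueDiffOn
    exact this.congr fun x hx => (iteratedFDerivWithin_of_isOpen j hW hx).symm
  have h2 : Continuous (fun m : ContinuousMultilinearMap ℝ (fun _ : Fin j => P × Z) E =>
      m.compContinuousLinearMap (fun _ => ContinuousLinearMap.inl ℝ P Z)) :=
    (ContinuousMultilinearMap.compContinuousLinearMapL
      (fun _ => ContinuousLinearMap.inl ℝ P Z)).continuous
  refine (h2.comp_continuousOn h1).congr ?_
  rintro ⟨p, z⟩ hx
  exact iter_slice hW hG j hx

/-- Parametric integrals of jointly smooth functions, with a weight K. -/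
theorem pintK {ν : Measure Z} {U : Set P} {W : Set (P × Z)} {k : Set Z} (hU : IsOpen U)
    (hW : IsOpen W) (hk : MeasurableSet k) (hUk : ∀ p ∈ U, ∀ z ∈ k, (p, z) ∈ W)
    {K : Z → ℝ} (hK : Integrable K ν) (hK0 : ∀ z, z ∉ k → K z = 0)
    {G : P × Z → E} (hG : ContDiffOn ℝ ∞ G W)
    (hb : ∀ j : ℕ, ∀ p0 ∈ U, ∃ C : ℝ, ∀ᶠ p in 𝓝 p0, ∀ z ∈ k,
      ‖iteratedFDeriv ℝ j (fun q => G (q, z)) p‖ ≤ C) :
    ContDiffOn ℝ ∞ (fun p => ∫ z, K z • G (p, z) ∂ν) U ∧
    (∀ p ∈ U, Integrable (fun z => K z • G (p, z)) ν) ∧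
    (∀ j : ℕ, ∀ p ∈ U, iteratedFDeriv ℝ j (fun q => ∫ z, K z • G (q, z) ∂ν) p =
      ∫ z, K z • iteratedFDeriv ℝ j (fun q => G (q, z)) p ∂ν) ∧
    ∀ j : ℕ, ∀ p ∈ U, ∀ B : ℝ, (∀ z ∈ k, ‖iteratedFDeriv ℝ j (fun q => G (q, z)) p‖ ≤ B) →
      ‖iteratedFDeriv ℝ j (fun q => ∫ z, K z • G (q, z) ∂ν) p‖ ≤ (∫ z, |K z| ∂ν) * B := by
  have hsl : ∀ z ∈ k, ContDiffOn ℝ ∞ (fun q => G (q, z)) U := by
    intro z hz
    refine hG.comp (f := fun q : P => (q, z)) (by fun_prop) (fun p hp => hUk p hp z hz)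
  have hG' : ∀ z, ContDiffOn ℝ ∞ (fun p => K z • G (p, z)) U := by
    intro z
    by_cases hz : z ∈ k
    · exact contDiffOn_const.smul (hsl z hz)
    · simp only [hK0 z hz, zero_smul]
      exact contDiffOn_const
  have hD : ∀ j : ℕ, ∀ p ∈ U, ∀ z, iteratedFDeriv ℝ j (fun q => K z • G (q, z)) p =
      K z • iteratedFDeriv ℝ j (fun q => G (q, z)) p := by
    intro j p hp z
    by_cases hz : z ∈ k
    · have h1 : ContDiffAt ℝ j (fun q => G (q, z)) p :=
        ((hsl z hz).contDiffAt (hU.mem_nhds hp)).of_le (by exact_mod_cast le_top)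
      exact iteratedFDeriv_const_smul_apply h1
    · simp only [hK0 z hz, zero_smul]
      exact congrFun (iteratedFDeriv_fun_zero) p
  have hm : ∀ j : ℕ, ∀ p ∈ U,
      AEStronglyMeasurable (fun z => iteratedFDeriv ℝ j (fun q => K z • G (q, z)) p) ν := by
    intro j p hp
    have h1 : ContinuousOn (fun z => iteratedFDeriv ℝ j (fun q => G (q, z)) p) k := by
      have h2 := iter_slice_cont hW hG j
      exact h2.comp (f := fun z : Z => (p, z)) (by fun_prop) (fun z hz => hUk p hp z hz)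
    have h3 : AEStronglyMeasurable (k.indicator
        (fun z => iteratedFDeriv ℝ j (fun q => G (q, z)) p)) ν := by
      rw [aestronglyMeasurable_indicator_iff hk]
      exact h1.aestronglyMeasurable hk
    have h4 : (fun z => iteratedFDeriv ℝ j (fun q => K z • G (q, z)) p) =
        fun z => K z • (k.indicator (fun z => iteratedFDeriv ℝ j (fun q => G (q, z)) p)) z := by
      funext z
      rw [hD j p hp z]
      by_cases hz : z ∈ k
      · simp [hz]
      · simp [hK0 z hz]
    rw [h4]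
    exact hK.1.smul h3
  have hbb : ∀ j : ℕ, ∀ p0 ∈ U, ∃ b : Z → ℝ, Integrable b ν ∧ ∃ s ∈ 𝓝 p0,
      ∀ z, ∀ p ∈ s, ‖iteratedFDeriv ℝ j (fun q => K z • G (q, z)) p‖ ≤ b z := by
    intro j p0 hp0
    obtain ⟨C, hC⟩ := hb j p0 hp0
    refine ⟨fun z => |K z| * C, (hK.norm.mul_const C).congr (by simp), 
      {p | (∀ z ∈ k, ‖iteratedFDeriv ℝ j (fun q => G (q, z)) p‖ ≤ C) ∧ p ∈ U},
      hC.and (hU.mem_nhds hp0), ?_⟩
    rintro z p ⟨hp1, hp2⟩
    rw [hD j p hp2 z, norm_smul, Real.norm_eq_abs]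
    by_cases hz : z ∈ k
    · exact mul_le_mul_of_nonneg_left (hp1 z hz) (abs_nonneg _)
    · simp [hK0 z hz]
  have heq : ∀ j : ℕ, ∀ p ∈ U, iteratedFDeriv ℝ j (fun q => ∫ z, K z • G (q, z) ∂ν) p =
      ∫ z, K z • iteratedFDeriv ℝ j (fun q => G (q, z)) p ∂ν := by
    intro j p hp
    rw [pint_eq hU hG' hm hbb j hp]
    exact integral_congr_ae (Eventually.of_forall fun z => hD j p hp z)
  refine ⟨pint_contDiffOn hU hG' hm hbb, ?_, heq, ?_⟩
  · intro p hp
    obtain ⟨C, hC⟩ := hb 0 p hp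
    have hCp := hC.self_of_nhds
    have h1 : ContinuousOn (fun z => G (p, z)) k :=
      hG.continuousOn.comp (f := fun z : Z => (p, z)) (by fun_prop) (fun z hz => hUk p hp z hz)
    have h3 : AEStronglyMeasurable (k.indicator (fun z => G (p, z))) ν := by
      rw [aestronglyMeasurable_indicator_iff hk]
      exact h1.aestronglyMeasurable hk
    have h4 : (fun z => K z • G (p, z)) =
        fun z => K z • (k.indicator (fun z => G (p, z))) z := by
      funext z
      by_cases hz : z ∈ k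
      · simp [hz]
      · simp [hK0 z hz]
    refine ((hK.norm.mul_const C).congr (g := fun z => |K z| * C) (by simp)).mono' ?_ ?_
    · rw [h4]
      exact hK.1.smul h3
    · refine Eventually.of_forall fun z => ?_
      rw [norm_smul, Real.norm_eq_abs]
      by_cases hz : z ∈ k
      · have := hCp z hz
        rw [norm_iteratedFDeriv_zero] at this
        exact mul_le_mul_of_nonneg_left this (abs_nonneg _)
      · simp [hK0 z hz]
  · intro j p hp B hB
    rw [heq j p hp]
    calc ‖∫ z, K z • iteratedFDeriv ℝ j (fun q => G (q, z)) p ∂ν‖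
        ≤ ∫ z, |K z| * B ∂ν := by
          refine norm_integral_le_of_norm_le ((hK.norm.mul_const B).congr (by simp)) ?_
          refine Eventually.of_forall fun z => ?_
          rw [norm_smul, Real.norm_eq_abs]
          by_cases hz : z ∈ k
          · exact mul_le_mul_of_nonneg_left (hB z hz) (abs_nonneg _)
          · simp [hK0 z hz]
      _ = (∫ z, |K z| ∂ν) * B := integral_mul_const _ _

/-- local boundedness of the partial derivatives for a compact parameter set -/
theorem bdd_of_compact {U : Set P} {W : Set (P × Z)} {k : Set Z}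
    (hW : IsOpen W) (hk : IsCompact k) (hUk : ∀ p ∈ U, ∀ z ∈ k, (p, z) ∈ W)
    {G : P × Z → E} (hG : ContDiffOn ℝ ∞ G W) (j : ℕ) {p0 : P} (hp0 : p0 ∈ U) :
    ∃ C : ℝ, ∀ᶠ p in 𝓝 p0, ∀ z ∈ k, ‖iteratedFDeriv ℝ j (fun q => G (q, z)) p‖ ≤ C := by
  have hc := iter_slice_cont hW hG j
  have h1 : ContinuousOn (fun z => iteratedFDeriv ℝ j (fun q => G (q, z)) p0) k :=
    hc.comp (f := fun z : Z => (p0, z)) (by fun_prop) (fun z hz => hUk p0 hp0 z hz)
  obtain ⟨M, hM⟩ := hk.exists_bound_of_continuousOn h1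
  refine ⟨M + 1, ?_⟩
  refine hk.eventually_forall_of_forall_eventually ?_
  intro z hz
  have h2 : ContinuousAt (fun q : P × Z => iteratedFDeriv ℝ j (fun p => G (p, q.2)) q.1) (p0, z) :=
    hc.continuousAt (hW.mem_nhds (hUk p0 hp0 z hz))
  have h3 := h2.norm.eventually (gt_mem_nhds (show
    ‖iteratedFDeriv ℝ j (fun p => G (p, z)) p0‖ < M + 1 by
      have := hM z hz
      linarith))
  filter_upwards [h3] with q hq using hq.le

/-- Parametric integrals of jointly smooth functions, compact parameter set. -/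
theorem pintC {ν : Measure Z} {U : Set P} {W : Set (P × Z)} {k : Set Z} (hU : IsOpen U)
    (hW : IsOpen W) (hk : IsCompact k) (hUk : ∀ p ∈ U, ∀ z ∈ k, (p, z) ∈ W)
    {K : Z → ℝ} (hK : Integrable K ν) (hK0 : ∀ z, z ∉ k → K z = 0)
    {G : P × Z → E} (hG : ContDiffOn ℝ ∞ G W) :
    ContDiffOn ℝ ∞ (fun p => ∫ z, K z • G (p, z) ∂ν) U ∧
    (∀ p ∈ U, Integrable (fun z => K z • G (p, z)) ν) ∧
    (∀ j : ℕ, ∀ p ∈ U, iteratedFDeriv ℝ j (fun q => ∫ z, K z • G (q, z) ∂ν) p =
      ∫ z, K z • iteratedFDeriv ℝ j (fun q => G (q, z)) p ∂ν) ∧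
    ∀ j : ℕ, ∀ p ∈ U, ∀ B : ℝ, (∀ z ∈ k, ‖iteratedFDeriv ℝ j (fun q => G (q, z)) p‖ ≤ B) →
      ‖iteratedFDeriv ℝ j (fun q => ∫ z, K z • G (q, z) ∂ν) p‖ ≤ (∫ z, |K z| ∂ν) * B :=
  pintK hU hW hk.measurableSet hUk hK hK0 hG
    (fun j _ hp0 => bdd_of_compact hW hk hUk hG j hp0)

end PIntK

end TG


end

section

/-!
# Families of smooth functions with derivatives bounded by a weight

BdN N U w F : all derivatives of order at most N of the functions F i are bounded on the open set U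
by a constant (uniform in i) times the weight w i.  General tools.
-/

open MeasureTheory Metric Set Filter Topology
open scoped ContDiff

set_option linter.unusedSectionVars false

namespace TG

section BdN

variable {ι P E F G : Type*} [NormedAddCommGroup P] [NormedSpace ℝ P]
  [NormedAddCommGroup E] [NormedSpace ℝ E] [NormedAddCommGroup F] [NormedSpace ℝ F]
  [NormedAddCommGroup G] [NormedSpace ℝ G]

/-- families of smooth functions on U with derivatives of order ≤ N bounded by the weight w -/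
structure BdN (N : ℕ) (U : Set P) (w : ι → P → ℝ) (f : ι → P → E) : Prop where
  smooth : ∀ i, ContDiffOn ℝ ∞ (f i) U
  bd : ∃ C : ℝ, 0 ≤ C ∧ ∀ i, ∀ p ∈ U, ∀ j ≤ N, ‖iteratedFDeriv ℝ j (f i) p‖ ≤ C * w i p

variable {N : ℕ} {U : Set P} {w w' w1 w2 : ι → P → ℝ}

theorem BdN.of_le {N' : ℕ} {f : ι → P → E} (h : BdN N U w f) (hN : N' ≤ N) : BdN N' U w f := by
  obtain ⟨C, hC, h1⟩ := h.bd
  exact ⟨h.smooth, C, hC, fun i p hp j hj => h1 i p hp j (hj.trans hN)⟩

theorem BdN.mono {f : ι → P → E} (h : BdN N U w f) {B : ℝ} (hB : 0 ≤ B)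
    (hw : ∀ i, ∀ p ∈ U, w i p ≤ B * w' i p) : BdN N U w' f := by
  obtain ⟨C, hC, h1⟩ := h.bd
  refine ⟨h.smooth, C * B, mul_nonneg hC hB, fun i p hp j hj => ?_⟩
  calc _ ≤ C * w i p := h1 i p hp j hj
    _ ≤ C * (B * w' i p) := mul_le_mul_of_nonneg_left (hw i p hp) hC
    _ = _ := by ring

theorem BdN.comp_index {κ : Type*} {f : ι → P → E} (h : BdN N U w f) (φ : κ → ι) :
    BdN N U (fun k => w (φ k)) (fun k => f (φ k)) := by
  obtain ⟨C, hC, h1⟩ := h.bd
  exact ⟨fun i => h.smooth _, C, hC, fun i p hp j hj => h1 _ p hp j hj⟩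

theorem BdN.subset {V : Set P} {f : ι → P → E} (h : BdN N U w f) (hV : V ⊆ U) : BdN N V w f := by
  obtain ⟨C, hC, h1⟩ := h.bd
  exact ⟨fun i => (h.smooth i).mono hV, C, hC, fun i p hp j hj => h1 _ p (hV hp) j hj⟩

theorem BdN.zeroth {f : ι → P → E} (h : BdN N U w f) :
    ∃ C : ℝ, 0 ≤ C ∧ ∀ i, ∀ p ∈ U, ‖f i p‖ ≤ C * w i p := by
  obtain ⟨C, hC, h1⟩ := h.bd
  exact ⟨C, hC, fun i p hp => by simpa using h1 i p hp 0 (Nat.zero_le _)⟩

theorem BdN.congr (hU : IsOpen U) {f g : ι → P → E} (h : BdN N U w f)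
    (hfg : ∀ i, ∀ p ∈ U, g i p = f i p) : BdN N U w g := by
  obtain ⟨C, hC, h1⟩ := h.bd
  refine ⟨fun i => (h.smooth i).congr (hfg i), C, hC, fun i p hp j hj => ?_⟩
  have h2 : g i =ᶠ[𝓝 p] f i := by
    filter_upwards [hU.mem_nhds hp] with q hq using hfg i q hq
  rw [(h2.iteratedFDeriv ℝ j).self_of_nhds]
  exact h1 i p hp j hj

theorem BdN.const (c : ι → E) {B : ℝ} (hB : 0 ≤ B) (hc : ∀ i, ∀ p ∈ U, ‖c i‖ ≤ B * w i p) :
    BdN N U w (fun i _ => c i) := by
  refine ⟨fun i => contDiffOn_const, B, hB, fun i p hp j hj => ?_⟩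
  have h0 := hc i p hp
  have hn : 0 ≤ B * w i p := (norm_nonneg _).trans h0
  rcases Nat.eq_zero_or_pos j with rfl | hj0
  · simpa using h0
  · obtain ⟨j', rfl⟩ := Nat.exists_eq_succ_of_ne_zero hj0.ne'
    rw [iteratedFDeriv_succ_const]
    simpa using hn

theorem BdN.add (hU : IsOpen U) {f g : ι → P → E} (hf : BdN N U w f) (hg : BdN N U w g) :
    BdN N U w (fun i p => f i p + g i p) := by
  obtain ⟨C, hC, h1⟩ := hf.bd
  obtain ⟨C', hC', h1'⟩ := hg.bd
  refine ⟨fun i => (hf.smooth i).add (hg.smooth i), C + C', add_nonneg hC hC',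
    fun i p hp j hj => ?_⟩
  have h2 : iteratedFDeriv ℝ j (fun p => f i p + g i p) p =
      iteratedFDeriv ℝ j (f i) p + iteratedFDeriv ℝ j (g i) p := by
    have ha : ContDiffAt ℝ j (f i) p :=
      ((hf.smooth i).contDiffAt (hU.mem_nhds hp)).of_le (by exact_mod_cast le_top)
    have hb : ContDiffAt ℝ j (g i) p :=
      ((hg.smooth i).contDiffAt (hU.mem_nhds hp)).of_le (by exact_mod_cast le_top)
    exact iteratedFDeriv_add_apply ha hb
  rw [h2]
  refine (norm_add_le _ _).trans ?_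
  have := h1 i p hp j hj
  have := h1' i p hp j hj
  linarith [add_mul C C' (w i p)]

/-- composition with a bounded family of linear maps -/
theorem BdN.clm (hU : IsOpen U) {f : ι → P → E} (hf : BdN N U w f) (L : ι → E →L[ℝ] F) {B : ℝ}
    (hL : ∀ i, ‖L i‖ ≤ B) : BdN N U w (fun i p => L i (f i p)) := by
  obtain ⟨C, hC, h1⟩ := hf.bd
  refine ⟨fun i => (L i).contDiff.comp_contDiffOn (hf.smooth i), max B 0 * C,
    mul_nonneg (le_max_right _ _) hC, fun i p hp j hj => ?_⟩
  have ha : ContDiffAt ℝ j (f i) p :=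
    ((hf.smooth i).contDiffAt (hU.mem_nhds hp)).of_le (by exact_mod_cast le_top)
  have h2 := (L i).norm_iteratedFDeriv_comp_left ha le_rfl
  have h3 := h1 i p hp j hj
  calc _ ≤ ‖L i‖ * ‖iteratedFDeriv ℝ j (f i) p‖ := h2
    _ ≤ max B 0 * (C * w i p) := mul_le_mul ((hL i).trans (le_max_left _ _)) h3 (norm_nonneg _)
        (le_max_right _ _)
    _ = _ := by ring

theorem BdN.neg (hU : IsOpen U) {f : ι → P → E} (hf : BdN N U w f) :
    BdN N U w (fun i p => - f i p) := by
  have := hf.clm hU (fun _ => -(ContinuousLinearMap.id ℝ E)) (B := ‖-(ContinuousLinearMap.id ℝ E)‖)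
    (fun _ => le_rfl)
  simpa using this

theorem BdN.sub (hU : IsOpen U) {f g : ι → P → E} (hf : BdN N U w f) (hg : BdN N U w g) :
    BdN N U w (fun i p => f i p - g i p) := by
  have := hf.add hU (hg.neg hU)
  simpa [sub_eq_add_neg] using this

theorem BdN.const_smul (hU : IsOpen U) {f : ι → P → E} (hf : BdN N U w f) (c : ι → ℝ) {B : ℝ}
    (hc : ∀ i, |c i| ≤ B) : BdN N U w (fun i p => c i • f i p) := by
  have := hf.clm hU (fun i => c i • (ContinuousLinearMap.id ℝ E)) (B := B) (fun i => by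
    have h0 : ‖c i • (ContinuousLinearMap.id ℝ E)‖ ≤ ‖c i‖ * ‖ContinuousLinearMap.id ℝ E‖ :=
      ContinuousLinearMap.opNorm_smul_le (c i) (ContinuousLinearMap.id ℝ E)
    refine h0.trans ?_
    have h1 : ‖ContinuousLinearMap.id ℝ E‖ ≤ 1 := ContinuousLinearMap.norm_id_le
    have h2 : ‖c i‖ ≤ B := hc i
    nlinarith [norm_nonneg (c i), norm_nonneg (ContinuousLinearMap.id ℝ E)])
  simpa using this

theorem BdN.const_mul (hU : IsOpen U) {f : ι → P → ℝ} (hf : BdN N U w f) (c : ι → ℝ) {B : ℝ}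
    (hc : ∀ i, |c i| ≤ B) : BdN N U w (fun i p => c i * f i p) := hf.const_smul hU c hc

theorem BdN.sum (hU : IsOpen U) {κ : Type*} (s : Finset κ) {f : κ → ι → P → E}
    (hw : ∀ i, ∀ p ∈ U, 0 ≤ w i p)
    (hf : ∀ k ∈ s, BdN N U w (f k)) : BdN N U w (fun i p => ∑ k ∈ s, f k i p) := by
  classical
  induction s using Finset.induction with
  | empty =>
    simp only [Finset.sum_empty]
    exact BdN.const (fun _ => (0 : E)) zero_le_one (fun i p hp => by simpa using hw i p hp)
  | insert k s hk ih =>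
    simp only [Finset.sum_insert hk]
    exact (hf k (Finset.mem_insert_self _ _)).add hU
      (ih (fun k' hk' => hf k' (Finset.mem_insert_of_mem hk')))

/-- bilinear expressions -/
theorem BdN.bilin (hU : IsOpen U) {f : ι → P → E} {g : ι → P → F} (hf : BdN N U w1 f)
    (hg : BdN N U w2 g) (T : ι → E →L[ℝ] F →L[ℝ] G) {B : ℝ} (hT : ∀ i, ‖T i‖ ≤ B) :
    BdN N U (fun i p => w1 i p * w2 i p) (fun i p => T i (f i p) (g i p)) := by
  obtain ⟨C, hC, h1⟩ := hf.bd
  obtain ⟨C', hC', h1'⟩ := hg.bd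
  refine ⟨fun i => (((T i).contDiff.comp_contDiffOn (hf.smooth i))).clm_apply (hg.smooth i),
    max B 0 * (2 ^ N * (C * C')), by positivity, fun i p hp j hj => ?_⟩
  have h2 := (T i).norm_iteratedFDerivWithin_le_of_bilinear (N := ∞) (hf.smooth i) (hg.smooth i)
    hU.uniqueDiffOn hp (n := j) (by exact_mod_cast le_top)
  rw [iteratedFDerivWithin_of_isOpen j hU hp] at h2
  refine h2.trans ?_
  have h3 : ∑ k ∈ Finset.range (j + 1), (j.choose k : ℝ) *
      ‖iteratedFDerivWithin ℝ k (f i) U p‖ * ‖iteratedFDerivWithin ℝ (j - k) (g i) U p‖ ≤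
      ∑ k ∈ Finset.range (j + 1), (j.choose k : ℝ) * ((C * w1 i p) * (C' * w2 i p)) := by
    refine Finset.sum_le_sum fun k hk => ?_
    rw [iteratedFDerivWithin_of_isOpen k hU hp, iteratedFDerivWithin_of_isOpen (j - k) hU hp,
      mul_assoc]
    have hk' : k ≤ j := Nat.lt_succ_iff.mp (Finset.mem_range.mp hk)
    have ha := h1 i p hp k (hk'.trans hj)
    have hb := h1' i p hp (j - k) ((Nat.sub_le _ _).trans hj)
    exact mul_le_mul_of_nonneg_left (mul_le_mul ha hb (norm_nonneg _)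
      ((norm_nonneg _).trans ha)) (by positivity)
  have h4 : ∑ k ∈ Finset.range (j + 1), (j.choose k : ℝ) * ((C * w1 i p) * (C' * w2 i p)) =
      2 ^ j * ((C * w1 i p) * (C' * w2 i p)) := by
    rw [← Finset.sum_mul]
    congr 1
    exact_mod_cast Nat.sum_range_choose j
  have hnn : 0 ≤ (C * w1 i p) * (C' * w2 i p) :=
    mul_nonneg ((norm_nonneg _).trans (h1 i p hp 0 (Nat.zero_le _)))
      ((norm_nonneg _).trans (h1' i p hp 0 (Nat.zero_le _)))
  have h5 : (2 : ℝ) ^ j ≤ 2 ^ N := pow_le_pow_right₀ (by norm_num) hj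
  calc _ ≤ ‖T i‖ * (2 ^ j * ((C * w1 i p) * (C' * w2 i p))) :=
        mul_le_mul_of_nonneg_left (h3.trans h4.le) (norm_nonneg (T i))
    _ ≤ max B 0 * (2 ^ N * ((C * w1 i p) * (C' * w2 i p))) := by
        refine mul_le_mul ((hT i).trans (le_max_left _ _)) ?_ (by positivity)
          (le_max_right _ _)
        exact mul_le_mul_of_nonneg_right h5 hnn
    _ = _ := by ring

theorem BdN.mul (hU : IsOpen U) {f g : ι → P → ℝ} (hf : BdN N U w1 f) (hg : BdN N U w2 g) :
    BdN N U (fun i p => w1 i p * w2 i p) (fun i p => f i p * g i p) :=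
  hf.bilin hU hg (fun _ => ContinuousLinearMap.mul ℝ ℝ) (B := ‖ContinuousLinearMap.mul ℝ ℝ‖)
    (fun _ => le_rfl)

theorem BdN.smul (hU : IsOpen U) {f : ι → P → ℝ} {g : ι → P → E} (hf : BdN N U w1 f)
    (hg : BdN N U w2 g) :
    BdN N U (fun i p => w1 i p * w2 i p) (fun i p => f i p • g i p) :=
  hf.bilin hU hg (fun _ => ContinuousLinearMap.lsmul ℝ ℝ)
    (B := ‖(ContinuousLinearMap.lsmul ℝ ℝ : ℝ →L[ℝ] E →L[ℝ] E)‖) (fun _ => le_rfl)

theorem BdN.pow (hU : IsOpen U) {f : ι → P → ℝ} (hf : BdN N U w f) (m : ℕ) :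
    BdN N U (fun i p => w i p ^ m) (fun i p => f i p ^ m) := by
  induction m with
  | zero =>
    simp only [pow_zero]
    exact BdN.const (fun _ => (1 : ℝ)) zero_le_one (fun i p hp => by simp)
  | succ m ih =>
    simp only [pow_succ]
    exact ih.mul hU hf

theorem BdN.D (hU : IsOpen U) {f : ι → P → E} (hf : BdN (N + 1) U w f) :
    BdN N U w (fun i => fderiv ℝ (f i)) := by
  obtain ⟨C, hC, h1⟩ := hf.bd
  refine ⟨fun i => (hf.smooth i).fderiv_of_isOpen hU (by norm_num), C, hC,
    fun i p hp j hj => ?_⟩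
  rw [norm_iteratedFDeriv_fderiv]
  exact h1 i p hp (j + 1) (by omega)

theorem BdN.of_fderiv {f : ι → P → E} (hs : ∀ i, ContDiffOn ℝ ∞ (f i) U)
    (hf : BdN N U w (fun i => fderiv ℝ (f i))) {B : ℝ} (hB : 0 ≤ B)
    (hw : ∀ i, ∀ p ∈ U, 0 ≤ w i p)
    (h0 : ∀ i, ∀ p ∈ U, ‖f i p‖ ≤ B * w i p) : BdN (N + 1) U w f := by
  obtain ⟨C, hC, h1⟩ := hf.bd
  refine ⟨hs, max B C, le_max_of_le_left hB, fun i p hp j hj => ?_⟩
  rcases Nat.eq_zero_or_pos j with rfl | hj0
  · rw [norm_iteratedFDeriv_zero]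
    exact (h0 i p hp).trans (mul_le_mul_of_nonneg_right (le_max_left _ _) (hw i p hp))
  · obtain ⟨j', rfl⟩ := Nat.exists_eq_succ_of_ne_zero hj0.ne'
    have := h1 i p hp j' (by omega)
    rw [norm_iteratedFDeriv_fderiv] at this
    exact this.trans (mul_le_mul_of_nonneg_right (le_max_right _ _) (hw i p hp))

/-- families of linear maps -/
theorem BdN.lin (hU : IsOpen U) (L : ι → P →L[ℝ] E) {B : ℝ} (hB : 0 ≤ B)
    (hw : ∀ i, ∀ p ∈ U, 0 ≤ w i p)
    (h0 : ∀ i, ∀ p ∈ U, ‖L i p‖ ≤ B * w i p) (h1 : ∀ i, ∀ p ∈ U, ‖L i‖ ≤ B * w i p) :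
    BdN N U w (fun i p => L i p) := by
  have h2 : BdN N U w (fun i => fderiv ℝ (fun p => L i p)) := by
    refine (BdN.const (fun i => L i) hB h1).congr hU (fun i p hp => ?_)
    exact (L i).fderiv
  exact (BdN.of_fderiv (fun i => (L i).contDiff.contDiffOn) h2 hB hw h0).of_le (Nat.le_succ N)

/-- functions solving D g = g L -/
theorem BdN.ode (hU : IsOpen U) {g : ι → P → ℝ} {L : ι → P → (P →L[ℝ] ℝ)}
    (hs : ∀ i, ContDiffOn ℝ ∞ (g i) U) (hD : ∀ i, ∀ p ∈ U, fderiv ℝ (g i) p = g i p • L i p)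
    (hL : BdN N U (fun _ _ => 1) L) : BdN N U (fun i p => |g i p|) g := by
  induction N with
  | zero =>
    refine ⟨hs, 1, zero_le_one, fun i p hp j hj => ?_⟩
    obtain rfl : j = 0 := by omega
    simp
  | succ N ih =>
    have h1 := ih (hL.of_le (Nat.le_succ N))
    have h2 := h1.smul hU (hL.of_le (Nat.le_succ N))
    have h3 : BdN N U (fun i p => |g i p|) (fun i => fderiv ℝ (g i)) := by
      refine (h2.mono (B := 1) zero_le_one (fun i p hp => by simp)).congr hU hD
    exact BdN.of_fderiv hs h3 zero_le_one (fun i p _ => abs_nonneg _)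
      (fun i p _ => by simp)

/-- the inverse of a positive function bounding its derivatives -/
theorem BdN.inv (hU : IsOpen U) {f : ι → P → ℝ} (hpos : ∀ i, ∀ p ∈ U, 0 < f i p)
    (hf : BdN N U f f) : BdN N U (fun i p => (f i p)⁻¹) (fun i p => (f i p)⁻¹) := by
  have hs : ∀ i, ContDiffOn ℝ ∞ (fun p => (f i p)⁻¹) U := fun i =>
    (hf.smooth i).inv (fun p hp => (hpos i p hp).ne')
  have hnn : ∀ i, ∀ p ∈ U, 0 ≤ (f i p)⁻¹ := fun i p hp => (inv_pos.mpr (hpos i p hp)).le
  have h0 : ∀ i, ∀ p ∈ U, ‖(f i p)⁻¹‖ ≤ 1 * (f i p)⁻¹ := fun i p hp => by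
    rw [one_mul, Real.norm_of_nonneg (hnn i p hp)]
  induction N with
  | zero =>
    refine ⟨hs, 1, zero_le_one, fun i p hp j hj => ?_⟩
    obtain rfl : j = 0 := by omega
    rw [norm_iteratedFDeriv_zero]
    exact h0 i p hp
  | succ N ih =>
    have h1 := ih (hf.of_le (Nat.le_succ N))
    have h2 := ((h1.mul hU h1).smul hU (hf.D hU)).neg hU
    have h3 : BdN N U (fun i p => (f i p)⁻¹) (fun i => fderiv ℝ (fun p => (f i p)⁻¹)) := by
      refine (h2.mono (B := 1) (w' := fun i p => (f i p)⁻¹) zero_le_one (fun i p hp => ?_)).congr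
        hU (fun i p hp => ?_)
      · have := hpos i p hp
        apply le_of_eq
        field_simp
      · have hd : DifferentiableAt ℝ (f i) p :=
          ((hf.smooth i).contDiffAt (hU.mem_nhds hp)).differentiableAt (by norm_num)
        have h4 : HasFDerivAt (fun p => (f i p)⁻¹) (-(f i p ^ 2)⁻¹ • fderiv ℝ (f i) p) p :=
          (hasDerivAt_inv (hpos i p hp).ne').comp_hasFDerivAt p hd.hasFDerivAt
        rw [h4.fderiv, neg_smul]
        congr 2
        have := hpos i p hp
        field_simp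
    exact BdN.of_fderiv hs h3 zero_le_one hnn h0

/-- quotients: f bounded by w, g positive with derivatives bounded by g -/
theorem BdN.div (hU : IsOpen U) {f g : ι → P → ℝ} (hf : BdN N U w f)
    (hpos : ∀ i, ∀ p ∈ U, 0 < g i p) (hg : BdN N U g g) :
    BdN N U (fun i p => w i p / g i p) (fun i p => f i p / g i p) := by
  have := hf.mul hU (hg.inv hU hpos)
  simpa [div_eq_mul_inv] using this

/-- real powers of a positive function bounding its derivatives -/
theorem BdN.rpow (hU : IsOpen U) {f : ι → P → ℝ} (hpos : ∀ i, ∀ p ∈ U, 0 < f i p)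
    (hf : BdN (N + 1) U f f) (a : ℝ) :
    BdN N U (fun i p => f i p ^ a) (fun i p => f i p ^ a) := by
  have hs : ∀ i, ContDiffOn ℝ ∞ (fun p => f i p ^ a) U := fun i =>
    (hf.smooth i).rpow_const_of_ne (fun p hp => (hpos i p hp).ne')
  have hL : BdN N U (fun _ _ => 1) (fun i p => a • ((f i p)⁻¹ • fderiv ℝ (f i) p)) := by
    have h1 := ((hf.of_le (Nat.le_succ N)).inv hU hpos).smul hU (hf.D hU)
    have h2 := h1.const_smul hU (fun _ => a) (B := |a|) (fun _ => le_rfl)
    refine h2.mono (B := 1) zero_le_one (fun i p hp => ?_)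
    have := hpos i p hp
    apply le_of_eq
    field_simp
  have h3 := BdN.ode hU hs (fun i p hp => ?_) hL
  · refine h3.mono (B := 1) zero_le_one (fun i p hp => ?_)
    rw [one_mul, abs_of_pos (Real.rpow_pos_of_pos (hpos i p hp) a)]
  · have hd : DifferentiableAt ℝ (f i) p :=
      ((hf.smooth i).contDiffAt (hU.mem_nhds hp)).differentiableAt (by norm_num)
    have h4 := (hd.hasFDerivAt.rpow_const (p := a) (Or.inl (hpos i p hp).ne')).fderiv
    rw [h4, smul_smul, smul_smul]
    congr 1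
    rw [Real.rpow_sub_one (hpos i p hp).ne']
    have := hpos i p hp
    field_simp

end BdN

end TG


end
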