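import Mathlib
import Pool.Agent.TRM.C01
import Pool.Agent.TRM.C03

/-! Parts: TG.SC, TG.BdAv, TG.WA, TG.UB -/

section

/-!
# Trace inequality, general operators: scaling (module SC)
-/

open MeasureTheory Metric Set TrI
open scoped InnerProductSpace ContDiff

namespace TG

noncomputable section

namespace SC

variable {d : ℕ} {F : Type*} [NormedAddCommGroup F] [NormedSpace ℝ F]

/-! ## derivatives of f(x + t y) -/

lemma itF_aff (k : ℕ) (g : Sp d → F) (x : Sp d) {t : ℝ} (ht : t ≠ 0) (y : Sp d)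
    (m : Fin k → Sp d) :
    iteratedFDeriv ℝ k (fun y => g (x + t • y)) y m =
      t ^ k • iteratedFDeriv ℝ k g (x + t • y) m := by
  set e : Sp d ≃L[ℝ] Sp d := ContinuousLinearEquiv.smulLeft (Units.mk0 t ht) with he
  have hey : ∀ z, e z = t • z := fun z => rfl
  have h1 : (fun y => g (x + t • y)) = (fun y => g (x + y)) ∘ e := by
    funext z
    simp [hey]
  have h2 := e.iteratedFDerivWithin_comp_right (fun y => g (x + y)) (s := univ)
    uniqueDiffOn_univ (x := y) (mem_univ _) k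
  rw [preimage_univ, iteratedFDerivWithin_univ, iteratedFDerivWithin_univ] at h2
  rw [h1, h2, iteratedFDeriv_comp_add_left]
  simp only [ContinuousMultilinearMap.compContinuousLinearMap_apply, ContinuousLinearEquiv.coe_coe,
    hey]
  rw [ContinuousMultilinearMap.map_smul_univ (iteratedFDeriv ℝ k g (x + t • y)) (fun _ => t) m]
  simp

lemma itF_const (k : ℕ) (g : Sp d → ℝ) {a : ℝ} (ha : a ≠ 0) (y : Sp d) (m : Fin k → Sp d) :
    iteratedFDeriv ℝ k (fun y => a * g y) y m = a * iteratedFDeriv ℝ k g y m := by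
  set e : ℝ ≃L[ℝ] ℝ := ContinuousLinearEquiv.smulLeft (Units.mk0 a ha) with he
  have h1 : (fun y => a * g y) = e ∘ g := by
    funext z
    rfl
  rw [h1, e.iteratedFDeriv_comp_left]
  rfl

lemma lap_aff (g : Sp d → ℝ) (x : Sp d) {t : ℝ} (ht : t ≠ 0) (y : Sp d) :
    lap (fun y => g (x + t • y)) y = t ^ 2 * lap g (x + t • y) := by
  unfold lap
  rw [Finset.mul_sum]
  refine Finset.sum_congr rfl fun j _ => ?_
  rw [itF_aff 2 g x ht, smul_eq_mul]

lemma d2_aff (n : Sp d) (g : Sp d → ℝ) (x : Sp d) {t : ℝ} (ht : t ≠ 0) (y : Sp d) :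
    d2 n (fun y => g (x + t • y)) y = t ^ 2 * d2 n g (x + t • y) := by
  unfold d2
  rw [itF_aff 2 g x ht, smul_eq_mul]

lemma lap_const (g : Sp d → ℝ) {a : ℝ} (ha : a ≠ 0) (y : Sp d) :
    lap (fun y => a * g y) y = a * lap g y := by
  unfold lap
  rw [Finset.mul_sum]
  refine Finset.sum_congr rfl fun j _ => ?_
  rw [itF_const 2 g ha]

lemma d2_const (n : Sp d) (g : Sp d → ℝ) {a : ℝ} (ha : a ≠ 0) (y : Sp d) :
    d2 n (fun y => a * g y) y = a * d2 n g y := by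
  unfold d2
  rw [itF_const 2 g ha]

lemma fderiv_aff (g : Sp d → F) (x : Sp d) (t : ℝ) (y : Sp d) :
    fderiv ℝ (fun y => g (x + t • y)) y = t • fderiv ℝ g (x + t • y) := by
  have h1 := fderiv_comp_smul (𝕜 := ℝ) (f := fun y => g (x + y)) (x := y) t
  rw [fderiv_comp_add_left] at h1
  exact h1

lemma gradient_aff (g : Sp d → ℝ) (x : Sp d) (t : ℝ) (y : Sp d) :
    gradient (fun y => g (x + t • y)) y = t • gradient g (x + t • y) := by
  unfold gradient
  rw [fderiv_aff, map_smulₛₗ]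
  rfl

lemma tang_smul (n w : Sp d) (t : ℝ) : tang n (t • w) = t • tang n w := by
  unfold tang
  rw [inner_smul_right, smul_sub, smul_smul]

/-! ## the measure -/

lemma rsm_apply (x : Sp d) {t : ℝ} (ht : 0 < t) (μ : Measure (Sp d)) {S : Set (Sp d)}
    (hS : MeasurableSet S) :
    rsm x t μ S = ENNReal.ofReal (t / t ^ d) * μ ((fun y => x + t • y) '' S) := by
  unfold rsm
  rw [Measure.smul_apply, Measure.map_apply (by fun_prop) hS, smul_eq_mul]
  congr 2
  ext z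
  simp only [mem_preimage, mem_image]
  constructor
  · intro h
    refine ⟨_, h, ?_⟩
    rw [smul_smul, mul_one_div_cancel ht.ne', one_smul]
    abel
  · rintro ⟨y, hy, rfl⟩
    rw [add_sub_cancel_left, smul_smul, one_div_mul_cancel ht.ne', one_smul]
    exact hy

lemma image_ball (x y : Sp d) {t r : ℝ} (ht : 0 < t) :
    (fun y => x + t • y) '' ball y r = ball (x + t • y) (t * r) := by
  ext z
  simp only [mem_image, mem_ball, dist_eq_norm]
  constructor
  · rintro ⟨w, hw, rfl⟩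
    have : x + t • w - (x + t • y) = t • (w - y) := by rw [smul_sub]; abel
    rw [this, norm_smul, Real.norm_of_nonneg ht.le]
    exact mul_lt_mul_of_pos_left hw ht
  · intro h
    refine ⟨(1 / t) • (z - x), ?_, ?_⟩
    · have : (1 / t) • (z - x) - y = (1 / t) • (z - (x + t • y)) := by
        rw [sub_add_eq_sub_sub, smul_sub (1 / t) (z - x), smul_smul, one_div_mul_cancel ht.ne',
          one_smul]
      rw [this, norm_smul, Real.norm_of_nonneg (by positivity), div_mul_eq_mul_div, one_mul,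
        div_lt_iff₀ ht, mul_comm r t]
      exact h
    · beta_reduce
      rw [smul_smul, mul_one_div_cancel ht.ne', one_smul]
      abel

lemma gro_rsm (hd : 1 ≤ d) {C' : ℝ} {μ : Measure (Sp d)} (h : Gro C' μ) (x : Sp d) {t : ℝ}
    (ht : 0 < t) : Gro C' (rsm x t μ) where
  fin := by
    have := h.fin
    constructor
    rw [rsm_apply x ht μ MeasurableSet.univ]
    exact ENNReal.mul_lt_top ENNReal.ofReal_lt_top (measure_lt_top μ _)
  ne := by
    intro h0
    apply h.ne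
    have h1 := rsm_apply x ht μ MeasurableSet.univ
    rw [h0] at h1
    have h2 : (fun y => x + t • y) '' (univ : Set (Sp d)) = univ := by
      rw [image_univ, range_eq_univ]
      intro z
      refine ⟨(1 / t) • (z - x), ?_⟩
      beta_reduce
      rw [smul_smul, mul_one_div_cancel ht.ne', one_smul]
      abel
    rw [h2, Measure.coe_zero, Pi.zero_apply, eq_comm, mul_eq_zero] at h1
    rcases h1 with h1 | h1
    · rw [ENNReal.ofReal_eq_zero] at h1
      have : 0 < t / t ^ d := by positivity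
      linarith
    · exact Measure.measure_univ_eq_zero.mp h1
  gro y r hr := by
    rw [rsm_apply x ht μ measurableSet_ball, image_ball x y ht]
    refine (mul_le_mul_right (h.gro (x + t • y) (t * r) (by positivity)) _).trans ?_
    rw [← ENNReal.ofReal_mul (by positivity)]
    refine ENNReal.ofReal_le_ofReal (le_of_eq ?_)
    obtain ⟨k, rfl⟩ : ∃ k, d = k + 1 := ⟨d - 1, by omega⟩
    simp only [Nat.add_sub_cancel, mul_pow, pow_succ]
    field_simp

/-- integrals against the rescaled measure -/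
lemma integral_rsm (x : Sp d) {t : ℝ} (ht : 0 < t) (μ : Measure (Sp d)) (g : Sp d → ℝ) :
    ∫ η, g η ∂(rsm x t μ) = t / t ^ d * ∫ η, g ((1 / t) • (η - x)) ∂μ := by
  unfold rsm
  rw [integral_smul_measure, ENNReal.toReal_ofReal (by positivity), smul_eq_mul]
  congr 1
  have he : MeasurableEmbedding (fun y : Sp d => (1 / t) • (y - x)) := by
    have h1 : MeasurableEmbedding (fun y : Sp d => (1 / t) • y) :=
      (Homeomorph.smulOfNeZero (1 / t) (by positivity)).measurableEmbedding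
    exact h1.comp (Homeomorph.subRight x).measurableEmbedding
  rw [he.integral_map]

lemma kk_scale {t : ℝ} (ht : 0 < t) (r : ℝ) (w : Sp d) :
    kk r ((1 / t) • w) = t ^ d / t * kk (t * r) w := by
  unfold kk
  have h1 : r ^ 2 + ‖(1 / t) • w‖ ^ 2 = (1 / t) ^ 2 * ((t * r) ^ 2 + ‖w‖ ^ 2) := by
    rw [norm_smul, Real.norm_of_nonneg (by positivity)]
    field_simp
  rw [h1, Real.sqrt_mul (by positivity), Real.sqrt_sq (by positivity), mul_pow, one_div, inv_pow]
  by_cases h : Real.sqrt ((t * r) ^ 2 + ‖w‖ ^ 2) ^ d = 0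
  · rw [h]; simp
  · field_simp

lemma arg_scale {t : ℝ} (ht : 0 < t) (x y η : Sp d) :
    y - (1 / t) • (η - x) = (1 / t) • ((x + t • y) - η) := by
  rw [smul_sub, smul_sub, smul_add, smul_smul, one_div_mul_cancel ht.ne', one_smul]
  abel

lemma th_rsm (x : Sp d) {t : ℝ} (ht : 0 < t) (μ : Measure (Sp d)) (r : ℝ) (y : Sp d) :
    th (rsm x t μ) r y = th μ (t * r) (x + t • y) := by
  unfold th
  rw [integral_rsm x ht]
  have : ∀ η, kk r (y - (1 / t) • (η - x)) = t ^ d / t * kk (t * r) (x + t • y - η) := by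
    intro η
    rw [arg_scale ht, kk_scale ht]
  simp_rw [this]
  rw [integral_const_mul, ← mul_assoc]
  have : t / t ^ d * (t ^ d / t) = 1 := by field_simp
  rw [this, one_mul]

lemma vv_rsm (x : Sp d) {t : ℝ} (ht : 0 < t) (μ : Measure (Sp d)) (r : ℝ) (y : Sp d) :
    vv (rsm x t μ) r y = vv μ (t * r) (x + t • y) := by
  unfold vv
  rw [th_rsm x ht]

lemma vv_rsm' (x : Sp d) {t : ℝ} (ht : 0 < t) (μ : Measure (Sp d)) (r : ℝ) :
    vv (rsm x t μ) r = fun y => vv μ (t * r) (x + t • y) :=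
  funext fun y => vv_rsm x ht μ r y

lemma dtv_rsm (x : Sp d) {t : ℝ} (ht : 0 < t) (μ : Measure (Sp d)) (r : ℝ) (y : Sp d) :
    dtv (rsm x t μ) r y = t * dtv μ (t * r) (x + t • y) := by
  unfold dtv
  simp_rw [vv_rsm x ht]
  have := deriv_comp_mul_left t (fun s => vv μ s (x + t • y)) r
  rw [this, smul_eq_mul]

lemma lap_vv_rsm (x : Sp d) {t : ℝ} (ht : 0 < t) (μ : Measure (Sp d)) (r : ℝ) (y : Sp d) :
    lap (vv (rsm x t μ) r) y = t ^ 2 * lap (vv μ (t * r)) (x + t • y) := by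
  rw [vv_rsm' x ht, lap_aff _ x ht.ne']

lemma grad_vv_rsm (x : Sp d) {t : ℝ} (ht : 0 < t) (μ : Measure (Sp d)) (r : ℝ) (y : Sp d) :
    gradient (vv (rsm x t μ) r) y = t • gradient (vv μ (t * r)) (x + t • y) := by
  rw [vv_rsm' x ht, gradient_aff]

lemma pt_scale (x y z : Sp d) (t ε r : ℝ) :
    x + t • (y + (ε * r) • z) = x + t • y + (ε * (t * r)) • z := by
  rw [smul_add, smul_smul, add_assoc]
  congr 3
  ring

lemma wv_rsm (β : Sp d → ℝ) (ε : ℝ) (x : Sp d) {t : ℝ} (ht : 0 < t) (μ : Measure (Sp d)) (r : ℝ)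
    (y : Sp d) : wv β ε (rsm x t μ) r y = wv β ε μ (t * r) (x + t • y) := by
  unfold wv
  refine integral_congr_ae (Filter.Eventually.of_forall fun z => ?_)
  beta_reduce
  rw [vv_rsm x ht, pt_scale]

lemma wt_rsm (β : Sp d → ℝ) (ε : ℝ) (x : Sp d) {t : ℝ} (ht : 0 < t) (μ : Measure (Sp d)) (r : ℝ)
    (y : Sp d) : wt β ε (rsm x t μ) r y = wt β ε μ (t * r) (x + t • y) := by
  unfold wt
  refine integral_congr_ae (Filter.Eventually.of_forall fun z => ?_)
  beta_reduce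
  rw [vv_rsm x ht, dtv_rsm x ht, lap_vv_rsm x ht, pt_scale]
  ring

lemma tau_scale {t : ℝ} (ht : 0 < t) (r s : ℝ) : tau (t * r) (t * s) = t * tau r s := by
  unfold tau
  rw [mul_max_of_nonneg _ _ ht.le, mul_min_of_nonneg _ _ ht.le]
  congr 1
  · ring
  · congr 1 <;> ring

/-- scaling of the time averages -/
lemma int_tau_scale {t : ℝ} (ht : 0 < t) (r : ℝ) (f : ℝ → ℝ) :
    ∫ s in (r / 2)..(2 * r), tau r s * f (t * s) =
      (1 / t ^ 2) * ∫ s in (t * r / 2)..(2 * (t * r)), tau (t * r) s * f s := by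
  have h1 : ∀ s, tau r s * f (t * s) = (1 / t) * (fun s => tau (t * r) s * f s) (t * s) := by
    intro s
    beta_reduce
    rw [tau_scale ht]
    field_simp
  simp_rw [h1]
  rw [intervalIntegral.integral_const_mul,
    intervalIntegral.integral_comp_mul_left (fun s => tau (t * r) s * f s) ht.ne', smul_eq_mul,
    ← mul_assoc]
  congr 1
  · field_simp
  · congr 1 <;> ring

lemma WW_rsm (β : Sp d → ℝ) (ε : ℝ) (x : Sp d) {t : ℝ} (ht : 0 < t) (μ : Measure (Sp d)) (r : ℝ)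
    (y : Sp d) : WW β ε (rsm x t μ) r y = 1 / t ^ 2 * WW β ε μ (t * r) (x + t • y) := by
  unfold WW
  simp_rw [wt_rsm β ε x ht]
  exact int_tau_scale ht r (fun s => wt β ε μ s (x + t • y))

lemma GG_rsm (β : Sp d → ℝ) (ε : ℝ) (x : Sp d) {t : ℝ} (ht : 0 < t) (μ : Measure (Sp d)) (r : ℝ)
    (y : Sp d) : GG β ε (rsm x t μ) r y = GG β ε μ (t * r) (x + t • y) := by
  unfold GG
  rw [wv_rsm β ε x ht, wv_rsm β ε x ht, wv_rsm β ε x ht]
  have h1 : t * (r / 2) = t * r / 2 := by ring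
  have h2 : t * (2 * r) = 2 * (t * r) := by ring
  rw [h1, h2]

lemma X1_rsm (β : Sp d → ℝ) (ε : ℝ) (x : Sp d) {t : ℝ} (ht : 0 < t) (μ : Measure (Sp d))
    (n : Sp d) (r : ℝ) (y : Sp d) :
    X1 β ε (rsm x t μ) n r y = t ^ 2 * X1 β ε μ n (t * r) (x + t • y) := by
  unfold X1
  rw [← integral_const_mul]
  refine integral_congr_ae (Filter.Eventually.of_forall fun z => ?_)
  beta_reduce
  rw [vv_rsm x ht, grad_vv_rsm x ht, pt_scale, tang_smul, norm_smul, mul_pow, Real.norm_eq_abs,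
    sq_abs]
  ring

lemma X3_rsm (β : Sp d → ℝ) (ε : ℝ) (x : Sp d) {t : ℝ} (ht : 0 < t) (μ : Measure (Sp d))
    (n : Sp d) (r : ℝ) (y : Sp d) :
    X3 β ε (rsm x t μ) n r y = t ^ 2 * X3 β ε μ n (t * r) (x + t • y) := by
  unfold X3
  rw [← integral_const_mul]
  refine integral_congr_ae (Filter.Eventually.of_forall fun z => ?_)
  beta_reduce
  rw [vv_rsm x ht, grad_vv_rsm x ht, dtv_rsm x ht, pt_scale, real_inner_smul_left]
  ring

lemma X2_rsm (x : Sp d) {t : ℝ} (ht : 0 < t) (μ : Measure (Sp d))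
    (n : Sp d) (r : ℝ) (y : Sp d) :
    X2 (rsm x t μ) n r y = t ^ 2 * X2 μ n (t * r) (x + t • y) := by
  unfold X2
  rw [integral_rsm x ht, vv_rsm x ht]
  have h1 : ∀ η : Sp d, ⟪(1 / t) • (η - x) - y, n⟫_ℝ ^ 2 /
      (r ^ 2 + ‖y - (1 / t) • (η - x)‖ ^ 2) ^ 2 * kk r (y - (1 / t) • (η - x)) =
      (t ^ d / t * t ^ 2) * (⟪η - (x + t • y), n⟫_ℝ ^ 2 /
      ((t * r) ^ 2 + ‖x + t • y - η‖ ^ 2) ^ 2 * kk (t * r) (x + t • y - η)) := by
    intro η
    have e1 : (1 / t) • (η - x) - y = (1 / t) • (η - (x + t • y)) := by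
      rw [← neg_sub, arg_scale ht, ← smul_neg, neg_sub]
    have e2 : r ^ 2 + ‖(1 / t) • (x + t • y - η)‖ ^ 2 =
        (1 / t) ^ 2 * ((t * r) ^ 2 + ‖x + t • y - η‖ ^ 2) := by
      rw [norm_smul, Real.norm_of_nonneg (by positivity)]
      field_simp
    rw [arg_scale ht, kk_scale ht, e1, e2, real_inner_smul_left]
    by_cases h : (t * r) ^ 2 + ‖x + t • y - η‖ ^ 2 = 0
    · rw [h]; simp
    · field_simp
  simp_rw [h1]
  rw [integral_const_mul]
  have : t / t ^ d * (t ^ d / t * t ^ 2) = t ^ 2 := by field_simp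
  rw [← mul_assoc, this]
  ring

lemma tav_scale {t : ℝ} (ht : 0 < t) (x : Sp d) (F G : ℝ → Sp d → ℝ) (r : ℝ) (y : Sp d)
    (h : ∀ s, F s y = t ^ 2 * G (t * s) (x + t • y)) :
    tav F r y = tav G (t * r) (x + t • y) := by
  unfold tav
  have h1 : ∀ s, tau r s * F s y = t ^ 2 * (tau r s * (fun s => G s (x + t • y)) (t * s)) := by
    intro s
    rw [h]
    ring
  simp_rw [h1]
  rw [intervalIntegral.integral_const_mul, int_tau_scale ht r (fun s => G s (x + t • y)),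
    ← mul_assoc]
  have : t ^ 2 * (1 / t ^ 2) = 1 := by field_simp
  rw [this, one_mul]

lemma XX_rsm (β : Sp d → ℝ) (ε : ℝ) (x : Sp d) {t : ℝ} (ht : 0 < t) (μ : Measure (Sp d))
    (n : Sp d) (r : ℝ) (y : Sp d) :
    XX β ε (rsm x t μ) n r y = XX β ε μ n (t * r) (x + t • y) := by
  unfold XX
  rw [tav_scale ht x _ _ r y (fun s => X1_rsm β ε x ht μ n s y),
    tav_scale ht x _ _ r y (fun s => X2_rsm x ht μ n s y),
    tav_scale ht x _ _ r y (fun s => X3_rsm β ε x ht μ n s y)]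

lemma X13_rsm (β : Sp d → ℝ) (ε : ℝ) (x : Sp d) {t : ℝ} (ht : 0 < t) (μ : Measure (Sp d))
    (n : Sp d) (r : ℝ) (y : Sp d) :
    X13 β ε (rsm x t μ) n r y = X13 β ε μ n (t * r) (x + t • y) := by
  unfold X13
  rw [tav_scale ht x _ _ r y (fun s => X1_rsm β ε x ht μ n s y),
    tav_scale ht x _ _ r y (fun s => X3_rsm β ε x ht μ n s y)]

lemma gn_rsm (β : Sp d → ℝ) (ε : ℝ) (x : Sp d) {t : ℝ} (ht : 0 < t) (μ : Measure (Sp d))
    (n : Sp d) (r : ℝ) (y : Sp d) :
    gn β ε (rsm x t μ) n r y = gn β ε μ n (t * r) (x + t • y) := by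
  unfold gn
  have h1 : WW β ε (rsm x t μ) r = fun y => 1 / t ^ 2 * WW β ε μ (t * r) (x + t • y) :=
    funext fun y => WW_rsm β ε x ht μ r y
  rw [GG_rsm β ε x ht, h1, lap_const (fun y => WW β ε μ (t * r) (x + t • y)) (by positivity),
    d2_const n (fun y => WW β ε μ (t * r) (x + t • y)) (by positivity), lap_aff _ x ht.ne',
    d2_aff n _ x ht.ne']
  have : 1 / t ^ 2 * t ^ 2 = 1 := by field_simp
  rw [← mul_assoc, ← mul_assoc, this, one_mul, one_mul]

/-! ## fields -/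

lemma lev_div (s0 t : ℝ) (i : ℕ) : lev (s0 / t) i = lev s0 i / t := by
  unfold lev
  ring

lemma fl_rs (b : Sp d → ℝ) (ε s0 : ℝ) (x : Sp d) {t : ℝ} (ht : 0 < t) (f : Sp d → F) (i : ℕ) :
    ∀ y, fl b ε (s0 / t) (rs x t f) i y = t • fl b ε s0 f i (x + t • y) := by
  induction i with
  | zero => intro y; rfl
  | succ i ih =>
    intro y
    show avk b (ε * lev (s0 / t) (i + 1)) (fl b ε (s0 / t) (rs x t f) i) y =
      t • avk b (ε * lev s0 (i + 1)) (fl b ε s0 f i) (x + t • y)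
    unfold avk
    rw [← integral_smul]
    refine integral_congr_ae (Filter.Eventually.of_forall fun z => ?_)
    beta_reduce
    rw [ih, smul_comm, lev_div]
    congr 3
    rw [smul_add, smul_smul, add_assoc]
    congr 3
    field_simp

/-- integrals over balls -/
lemma ball_scale (x : Sp d) {t : ℝ} (ht : 0 < t) (g : Sp d → ℝ) (y : Sp d) (r : ℝ) :
    ∫ z in ball y (r / t), g (x + t • z) = 1 / t ^ d * ∫ z in ball (x + t • y) r, g z := by
  have h1 : ∀ z, (ball y (r / t)).indicator (fun z => g (x + t • z)) z =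
      (fun w => (ball (x + t • y) r).indicator g (x + w)) (t • z) := by
    intro z
    beta_reduce
    have h2 : z ∈ ball y (r / t) ↔ x + t • z ∈ ball (x + t • y) r := by
      rw [mem_ball, mem_ball, dist_eq_norm, dist_eq_norm]
      have : x + t • z - (x + t • y) = t • (z - y) := by rw [smul_sub]; abel
      rw [this, norm_smul, Real.norm_of_nonneg ht.le, lt_div_iff₀ ht, mul_comm]
    by_cases h : z ∈ ball y (r / t)
    · rw [indicator_of_mem h, indicator_of_mem (h2.mp h)]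
    · rw [indicator_of_notMem h, indicator_of_notMem (fun h' => h (h2.mpr h'))]
  rw [← integral_indicator measurableSet_ball, ← integral_indicator measurableSet_ball]
  simp_rw [h1]
  rw [Measure.integral_comp_smul_of_nonneg volume
    (fun w => (ball (x + t • y) r).indicator g (x + w)) t (hR := ht.le),
    integral_add_left_eq_self (fun w => (ball (x + t • y) r).indicator g w) x]
  simp

end SC

theorem stmtSC : StmtSC := by
  intro d hd C' hC' x t ht
  refine ⟨fun μ hμ => ⟨SC.gro_rsm (by omega) hμ x ht, fun r y _ => SC.th_rsm x ht μ r y,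
    fun r y _ => SC.vv_rsm x ht μ r y, fun S hS => SC.rsm_apply x ht μ hS, ?_⟩, ?_, ?_⟩
  · intro J M β _ _ ε _ _ r y _
    refine ⟨SC.GG_rsm β ε x ht μ r y, ?_, fun n => SC.XX_rsm β ε x ht μ n r y,
      fun n => SC.X13_rsm β ε x ht μ n r y, fun n => SC.gn_rsm β ε x ht μ n r y⟩
    rw [SC.WW_rsm β ε x ht μ r y]
    field_simp
  · intro E _ _ _ M c b _ ε _ _ f _ _ s0 _
    have hfl := fun i y => SC.fl_rs b ε s0 x ht f i y
    have ht' : (t : ℝ) ≠ 0 := ht.ne'
    refine ⟨hfl, ?_, ?_⟩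
    · intro R i y e
      unfold DD
      have h1 : ∀ l, ∫ z in ball y (R * lev (s0 / t) i), (‖fl b ε (s0 / t) (rs x t f) l z‖
          - ⟪fl b ε (s0 / t) (rs x t f) l z, e⟫_ℝ) = t / t ^ d *
          ∫ z in ball (x + t • y) (R * lev s0 i), (‖fl b ε s0 f l z‖ - ⟪fl b ε s0 f l z, e⟫_ℝ) := by
        intro l
        simp_rw [hfl, norm_smul, real_inner_smul_left, Real.norm_of_nonneg ht.le, ← mul_sub]
        rw [integral_const_mul, SC.lev_div, ← mul_div_assoc,
          SC.ball_scale x ht (fun z => ‖fl b ε s0 f l z‖ - ⟪fl b ε s0 f l z, e⟫_ℝ)]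
        ring
      have h2 : ∫ z in ball y (R * lev (s0 / t) i), ‖rs x t f z‖ = t / t ^ d *
          ∫ z in ball (x + t • y) (R * lev s0 i), ‖f z‖ := by
        unfold rs
        simp_rw [norm_smul, Real.norm_of_nonneg ht.le]
        rw [integral_const_mul, SC.lev_div, ← mul_div_assoc, SC.ball_scale x ht (fun z => ‖f z‖)]
        ring
      simp_rw [h1]
      rw [h2, SC.lev_div]
      have h3 : ∀ l, (1 / 4 : ℝ) ^ (i - l) * (t / t ^ d *
          ∫ z in ball (x + t • y) (R * lev s0 i), (‖fl b ε s0 f l z‖ - ⟪fl b ε s0 f l z, e⟫_ℝ)) =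
          t / t ^ d * ((1 / 4 : ℝ) ^ (i - l) *
          ∫ z in ball (x + t • y) (R * lev s0 i), (‖fl b ε s0 f l z‖ - ⟪fl b ε s0 f l z, e⟫_ℝ)) := by
        intro l
        ring
      simp_rw [h3]
      rw [← Finset.mul_sum, mul_left_comm _ (t / t ^ d), ← mul_add, ← mul_assoc, div_pow]
      congr 1
      field_simp
    · intro R i y
      unfold ma
      simp_rw [hfl, norm_smul, Real.norm_of_nonneg ht.le]
      rw [integral_const_mul, SC.lev_div, ← mul_div_assoc,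
        SC.ball_scale x ht (fun z => ‖fl b ε s0 f (i - 1) z‖), div_pow]
      field_simp
  · intro V E _ _ _ _ _ _ L u hu
    refine ⟨⟨?_, ?_⟩, ?_⟩
    · exact hu.smooth.comp (by fun_prop)
    · have h1 := hu.supp.comp_homeomorph
        ((Homeomorph.smulOfNeZero t ht.ne').trans (Homeomorph.addLeft x))
      exact h1
    · funext y
      unfold fo rs
      rw [SC.fderiv_aff, map_smul]

end

end TG


end

section

/-!
# Averages of families with bounded derivatives, half space ℝ × Sp d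
-/

open MeasureTheory Metric Set Filter Topology TrI
open scoped InnerProductSpace ContDiff

set_option linter.unusedSectionVars false

namespace TG

noncomputable section

variable {ι E : Type*} [NormedAddCommGroup E] [NormedSpace ℝ E] [CompleteSpace E] {d : ℕ}

/-- the slab a < t < b -/
def slab (d : ℕ) (a b : ℝ) : Set (ℝ × Sp d) := {p | a < p.1 ∧ p.1 < b}

theorem isOpen_slab (a b : ℝ) : IsOpen (slab d a b) := by
  have h1 : IsOpen {p : ℝ × Sp d | a < p.1} := isOpen_lt continuous_const continuous_fst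
  have h2 : IsOpen {p : ℝ × Sp d | p.1 < b} := isOpen_lt continuous_fst continuous_const
  exact h1.inter h2

/-- the map (t,x) ↦ (t, x + ε t z) -/
def shear (ε : ℝ) (z : Sp d) : (ℝ × Sp d) →L[ℝ] (ℝ × Sp d) :=
  (ContinuousLinearMap.fst ℝ ℝ (Sp d)).prod
    (ContinuousLinearMap.snd ℝ ℝ (Sp d) +
      (ContinuousLinearMap.fst ℝ ℝ (Sp d)).smulRight (ε • z))

theorem shear_apply (ε : ℝ) (z : Sp d) (p : ℝ × Sp d) :
    shear ε z p = (p.1, p.2 + (ε * p.1) • z) := by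
  simp [shear, smul_smul, mul_comm]

theorem shear_norm (ε : ℝ) {z : Sp d} (hz : ‖z‖ ≤ 1) : ‖shear ε z‖ ≤ 1 + |ε| := by
  refine ContinuousLinearMap.opNorm_le_bound _ (by positivity) fun p => ?_
  rw [shear_apply, Prod.norm_def]
  have h1 : ‖p.1‖ ≤ ‖p‖ := norm_fst_le p
  have h2 : ‖p.2‖ ≤ ‖p‖ := norm_snd_le p
  have h3 : |ε| * ‖p.1‖ * ‖z‖ ≤ |ε| * ‖p‖ * 1 := by gcongr
  refine max_le ?_ ?_
  · simp only
    nlinarith [abs_nonneg ε, norm_nonneg p]
  · simp only
    calc ‖p.2 + (ε * p.1) • z‖ ≤ ‖p.2‖ + ‖(ε * p.1) • z‖ := norm_add_le _ _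
      _ = ‖p.2‖ + |ε| * ‖p.1‖ * ‖z‖ := by rw [norm_smul, norm_mul, Real.norm_eq_abs]
      _ ≤ _ := by linarith

/-- iterated derivatives of a composition with a linear map, open set -/
theorem iter_comp_clm {P Q : Type*} [NormedAddCommGroup P] [NormedSpace ℝ P]
    [NormedAddCommGroup Q] [NormedSpace ℝ Q] {U : Set Q} (hU : IsOpen U) {f : Q → E}
    (hf : ContDiffOn ℝ ∞ f U) (L : P →L[ℝ] Q) (j : ℕ) {p : P} (hp : L p ∈ U) :
    ‖iteratedFDeriv ℝ j (fun q => f (L q)) p‖ ≤ ‖iteratedFDeriv ℝ j f (L p)‖ * ‖L‖ ^ j := by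
  have hV : IsOpen (L ⁻¹' U) := hU.preimage L.continuous
  have h5 := L.iteratedFDerivWithin_comp_right hf
      hU.uniqueDiffOn hV.uniqueDiffOn hp (i := j) (by exact_mod_cast le_top)
  rw [iteratedFDerivWithin_of_isOpen j hU hp, iteratedFDerivWithin_of_isOpen j hV hp] at h5
  have h6 : iteratedFDeriv ℝ j (fun q => f (L q)) p =
      (iteratedFDeriv ℝ j f (L p)).compContinuousLinearMap fun _ => L := h5
  rw [h6]
  refine (ContinuousMultilinearMap.norm_compContinuousLinearMap_le _ _).trans ?_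
  simp

/-- averages along rays -/
theorem BdN.avg {N : ℕ} {a b : ℝ} {w : ι → ℝ × Sp d → ℝ} {f : ι → ℝ × Sp d → E}
    (hf : BdN N (slab d a b) w f) (ε : ℝ) {K : ι → Sp d → ℝ} (hK : ∀ i, Integrable (K i))
    (hK0 : ∀ i z, 1 < ‖z‖ → K i z = 0) {B : ℝ} (hKB : ∀ i, ∫ z, |K i z| ≤ B)
    {H : ℝ} (hH0 : 0 ≤ H)
    (hH : ∀ i, ∀ p ∈ slab d a b, ∀ z, ‖z‖ ≤ 1 → w i (p.1, p.2 + (ε * p.1) • z) ≤ H * w i p) :
    BdN N (slab d a b) w (fun i p => ∫ z, K i z • f i (p.1, p.2 + (ε * p.1) • z)) := by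
  obtain ⟨C, hC, h1⟩ := hf.bd
  have hG : ∀ i, ContDiffOn ℝ ∞ (fun q : (ℝ × Sp d) × Sp d => f i (q.1.1, q.1.2 + (ε * q.1.1) • q.2))
      (slab d a b ×ˢ univ) := by
    intro i
    refine (hf.smooth i).comp (f := fun q : (ℝ × Sp d) × Sp d =>
      (q.1.1, q.1.2 + (ε * q.1.1) • q.2)) (ContDiff.contDiffOn (by fun_prop)) ?_
    rintro ⟨p, z⟩ ⟨hp, _⟩
    exact hp
  have hP := fun i => pintC (ν := volume) (U := slab d a b) (W := slab d a b ×ˢ univ)
    (k := closedBall (0 : Sp d) 1) (isOpen_slab a b) ((isOpen_slab a b).prod isOpen_univ)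
    (isCompact_closedBall _ _) (fun p hp z _ => ⟨hp, mem_univ _⟩) (hK i)
    (fun z hz => hK0 i z (by simpa using hz)) (hG i)
  refine ⟨fun i => (hP i).1, max B 0 * (C * H * (1 + |ε|) ^ N), by positivity,
    fun i p hp j hj => ?_⟩
  have hw0 : 0 ≤ C * w i p := (norm_nonneg _).trans (h1 i p hp 0 (Nat.zero_le _))
  have h2 := (hP i).2.2.2 j p hp (C * H * (1 + |ε|) ^ N * w i p) ?_
  · refine h2.trans ?_
    calc _ ≤ max B 0 * (C * H * (1 + |ε|) ^ N * w i p) := by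
          refine mul_le_mul_of_nonneg_right ((hKB i).trans (le_max_left _ _)) ?_
          have : C * H * (1 + |ε|) ^ N * w i p = H * (1 + |ε|) ^ N * (C * w i p) := by ring
          rw [this]
          positivity
      _ = _ := by ring
  · intro z hz
    have hz1 : ‖z‖ ≤ 1 := by simpa using hz
    have hp' : shear ε z p ∈ slab d a b := by rw [shear_apply]; exact hp
    have h3 := iter_comp_clm (isOpen_slab a b) (hf.smooth i) (shear ε z) j hp'
    have h4 : (fun q => f i (shear ε z q)) = fun q : ℝ × Sp d => f i (q.1, q.2 + (ε * q.1) • z) := by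
      funext q
      rw [shear_apply]
    rw [h4] at h3
    refine h3.trans ?_
    have h5 := h1 i _ hp' j hj
    have h6 : w i (shear ε z p) ≤ H * w i p := by rw [shear_apply]; exact hH i p hp z hz1
    have h7 : ‖shear ε z‖ ^ j ≤ (1 + |ε|) ^ N :=
      (pow_le_pow_left₀ (norm_nonneg _) (shear_norm ε hz1) j).trans
        (pow_le_pow_right₀ (by linarith [abs_nonneg ε]) hj)
    calc _ ≤ (C * (H * w i p)) * (1 + |ε|) ^ N := by
          refine mul_le_mul (h5.trans (mul_le_mul_of_nonneg_left h6 hC)) h7 (by positivity) ?_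
          have : C * (H * w i p) = H * (C * w i p) := by ring
          rw [this]
          positivity
      _ = _ := by ring

/-- derivatives of the restriction to a fixed time -/
theorem slice_norm {a b : ℝ} {f : ℝ × Sp d → E} (hf : ContDiffOn ℝ ∞ f (slab d a b)) {t : ℝ}
    (ht : a < t ∧ t < b) (y : Sp d) (j : ℕ) :
    ‖iteratedFDeriv ℝ j (fun y => f (t, y)) y‖ ≤ ‖iteratedFDeriv ℝ j f (t, y)‖ := by
  have h2 : (fun y => f (t, y)) = fun y => (fun q => f (q + (t, (0 : Sp d))))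
      (ContinuousLinearMap.inr ℝ ℝ (Sp d) y) := by
    funext y
    simp
  have hV : IsOpen ((fun q : ℝ × Sp d => q + (t, (0 : Sp d))) ⁻¹' slab d a b) :=
    (isOpen_slab a b).preimage (by fun_prop)
  have hs : ContDiffOn ℝ ∞ (fun q => f (q + (t, (0 : Sp d))))
      ((fun q : ℝ × Sp d => q + (t, (0 : Sp d))) ⁻¹' slab d a b) :=
    hf.comp (f := fun q : ℝ × Sp d => q + (t, (0 : Sp d)))
      (ContDiff.contDiffOn (by fun_prop)) (fun q hq => hq)
  rw [h2]
  refine (iter_comp_clm hV hs (ContinuousLinearMap.inr ℝ ℝ (Sp d)) j ?_).trans ?_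
  · simpa [slab] using ht
  · rw [iteratedFDeriv_comp_add_right]
    have h3 : ‖ContinuousLinearMap.inr ℝ ℝ (Sp d)‖ ^ j ≤ 1 :=
      pow_le_one₀ (norm_nonneg _) (ContinuousLinearMap.norm_inr_le_one ℝ ℝ (Sp d))
    simp only [ContinuousLinearMap.inr_apply, Prod.mk_add_mk, zero_add, add_zero]
    nlinarith only [h3, norm_nonneg (iteratedFDeriv ℝ j f (t, y))]

/-- restriction to a fixed time -/
theorem BdN.slice {N : ℕ} {a b : ℝ} {w : ι → ℝ × Sp d → ℝ} {f : ι → ℝ × Sp d → E}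
    (hf : BdN N (slab d a b) w f) {t : ℝ} (ha : a < t) (hb : t < b) :
    BdN N univ (fun i y => w i (t, y)) (fun i y => f i (t, y)) := by
  obtain ⟨C, hC, h1⟩ := hf.bd
  refine ⟨fun i => ?_, C, hC, fun i y _ j hj => (slice_norm (hf.smooth i) ⟨ha, hb⟩ y j).trans
    (h1 i _ ⟨ha, hb⟩ j hj)⟩
  exact (hf.smooth i).comp (f := fun y : Sp d => (t, y)) (ContDiff.contDiffOn (by fun_prop))
    (fun y _ => ⟨ha, hb⟩)

/-- integration in time over [α, γ] -/
theorem BdN.time {N : ℕ} {a b : ℝ} {w : ι → ℝ × Sp d → ℝ} {f : ι → ℝ × Sp d → E}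
    (hf : BdN N (slab d a b) w f) {α γ : ℝ} (hα : a < α) (hγ : γ < b) (hαγ : α ≤ γ)
    {τ : ℝ → ℝ} (hτ : Continuous τ) {w' : ι → Sp d → ℝ}
    {H : ℝ} (hH0 : 0 ≤ H)
    (hH : ∀ i, ∀ t y, α ≤ t → t ≤ γ → w i (t, y) ≤ H * w' i y) :
    BdN N univ w' (fun i y => ∫ r in α..γ, τ r • f i (r, y)) := by
  obtain ⟨C, hC, h1⟩ := hf.bd
  set K : ℝ → ℝ := (Icc α γ).indicator τ with hKdef
  have hK : Integrable K := by
    rw [hKdef, integrable_indicator_iff measurableSet_Icc]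
    exact hτ.continuousOn.integrableOn_Icc
  have hG : ∀ i, ContDiffOn ℝ ∞ (fun q : Sp d × ℝ => f i (q.2, q.1))
      {q | a < q.2 ∧ q.2 < b} := by
    intro i
    exact (hf.smooth i).comp (f := fun q : Sp d × ℝ => (q.2, q.1))
      (ContDiff.contDiffOn (by fun_prop)) (fun q hq => hq)
  have hW : IsOpen {q : Sp d × ℝ | a < q.2 ∧ q.2 < b} :=
    (isOpen_lt continuous_const continuous_snd).inter (isOpen_lt continuous_snd continuous_const)
  have hP := fun i => pintC (ν := volume) (U := (univ : Set (Sp d)))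
    (W := {q : Sp d × ℝ | a < q.2 ∧ q.2 < b})
    (k := Icc α γ) isOpen_univ hW isCompact_Icc
    (fun p _ z hz => ⟨hα.trans_le hz.1, lt_of_le_of_lt hz.2 hγ⟩) hK
    (fun z hz => by simp [hKdef, hz]) (hG i)
  have heq : ∀ i, (fun y => ∫ r in α..γ, τ r • f i (r, y)) =
      fun y => ∫ r, K r • f i (r, y) := by
    intro i
    funext y
    rw [intervalIntegral.integral_of_le hαγ, ← integral_Icc_eq_integral_Ioc,
      ← integral_indicator measurableSet_Icc]
    refine integral_congr_ae (Eventually.of_forall fun r => ?_)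
    by_cases hr : r ∈ Icc α γ
    · simp [hKdef, hr]
    · simp [hKdef, hr]
  refine ⟨fun i => ?_, (∫ r, |K r|) * (C * H), by positivity, fun i y _ j hj => ?_⟩
  · simp only [heq]
    exact (hP i).1
  · simp only [heq]
    refine ((hP i).2.2.2 j y (mem_univ _) (C * (H * w' i y)) ?_).trans (le_of_eq (by ring))
    intro r hr
    have hr' : a < r ∧ r < b := ⟨hα.trans_le hr.1, lt_of_le_of_lt hr.2 hγ⟩
    refine (slice_norm (hf.smooth i) hr' y j).trans ((h1 i _ hr' j hj).trans ?_)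
    exact mul_le_mul_of_nonneg_left (hH i r y hr.1 hr.2) hC

end

end TG


end

section

/-!
# MODULE WA: smoothness and simple bounds of W, G and the gain functionals
-/

open MeasureTheory Metric Set Filter Topology TrI
open scoped InnerProductSpace ContDiff

set_option linter.unusedSectionVars false

namespace TG

noncomputable section

variable {ι : Type*} {d : ℕ}

/-- the family of functions v on the half space -/
def vf (μ : ι → Measure (Sp d)) (i : ι) (p : ℝ × Sp d) : ℝ := vv (μ i) p.1 p.2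

/-- the working slab -/
abbrev SL (d : ℕ) : Set (ℝ × Sp d) := slab d (1 / 4) 4

theorem isOpen_SL : IsOpen (SL d) := isOpen_slab _ _

theorem SL_pos {p : ℝ × Sp d} (hp : p ∈ SL d) : 0 < p.1 := by
  have := hp.1
  linarith

theorem vv_pos (h : StmtTH) (hd : 2 ≤ d) {C' : ℝ} (hC' : 0 < C') {μ : Measure (Sp d)}
    (hμ : Gro C' μ) {t : ℝ} (ht : 0 < t) (x : Sp d) : 0 < vv μ t x := by
  obtain ⟨C, hC, h1⟩ := h d 0 hd C' hC'
  exact Real.sqrt_pos.mpr ((h1 μ hμ).1 t x ht).1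

theorem vv_harnack (h : StmtTH) (hd : 2 ≤ d) {C' : ℝ} (hC' : 0 < C') {μ : Measure (Sp d)}
    (hμ : Gro C' μ) {t : ℝ} (ht : 0 < t) (x : Sp d) {ε : ℝ} (hε0 : 0 < ε) (hε : ε ≤ 1) {z : Sp d}
    (hz : ‖z‖ ≤ 1) : vv μ t (x + (ε * t) • z) ≤ 2 ^ d * vv μ t x := by
  obtain ⟨C, hC, h1⟩ := h d 0 hd C' hC'
  have h2 := (h1 μ hμ).2.2.2.1 t x (x + (ε * t) • z) ht
  have h3 : ‖x - (x + (ε * t) • z)‖ / t ≤ 1 := by
    have : x - (x + (ε * t) • z) = -((ε * t) • z) := by abel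
    rw [this, norm_neg, norm_smul, Real.norm_eq_abs, abs_of_pos (by positivity), div_le_one ht]
    nlinarith only [ht, hε, hz, mul_pos hε0 ht]
  have h4 : (1 + ‖x - (x + (ε * t) • z)‖ / t) ^ d ≤ 2 ^ d :=
    pow_le_pow_left₀ (by positivity) (by linarith) d
  have h5 : 0 ≤ th μ t x := ((h1 μ hμ).1 t x ht).1.le
  have h6 : th μ t (x + (ε * t) • z) ≤ (2 ^ d) ^ 2 * th μ t x := by
    refine h2.trans (mul_le_mul_of_nonneg_right (h4.trans ?_) h5)
    have : (1 : ℝ) ≤ 2 ^ d := one_le_pow₀ (by norm_num)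
    nlinarith only [this]
  unfold vv
  calc Real.sqrt (th μ t (x + (ε * t) • z)) ≤ Real.sqrt ((2 ^ d) ^ 2 * th μ t x) :=
        Real.sqrt_le_sqrt h6
    _ = _ := by rw [Real.sqrt_mul (by positivity), Real.sqrt_sq (by positivity)]

theorem vv_time (h : StmtTH) (hd : 2 ≤ d) {C' : ℝ} (hC' : 0 < C') : ∃ H : ℝ, 0 ≤ H ∧
    ∀ μ : Measure (Sp d), Gro C' μ → ∀ (t : ℝ) (y : Sp d), 1 / 2 ≤ t → t ≤ 2 →
      vv μ t y ≤ H * vv μ 1 y := by
  obtain ⟨C, hC, h1⟩ := h d 0 hd C' hC'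
  refine ⟨Real.sqrt C, Real.sqrt_nonneg _, fun μ hμ t y h2 h3 => ?_⟩
  have h4 := (h1 μ hμ).2.2.2.2 t 1 y one_pos (by linarith) (by linarith)
  unfold vv
  rw [← Real.sqrt_mul hC.le]
  exact Real.sqrt_le_sqrt h4

theorem vf_bd (h : StmtTH) (hd : 2 ≤ d) {C' : ℝ} (hC' : 0 < C') {μ : ι → Measure (Sp d)}
    (hμ : ∀ i, Gro C' (μ i)) (N : ℕ) : BdN N (SL d) (vf μ) (vf μ) := by
  obtain ⟨C, hC, h1⟩ := h d N hd C' hC'
  refine ⟨fun i => ((h1 (μ i) (hμ i)).2.1).mono (fun p hp => SL_pos hp), C * 4 ^ N, by positivity,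
    fun i p hp j hj => ?_⟩
  have h2 := (h1 (μ i) (hμ i)).2.2.1 p.1 p.2 j (SL_pos hp) hj
  have hv : 0 ≤ vv (μ i) p.1 p.2 := Real.sqrt_nonneg _
  have h3 : C * vv (μ i) p.1 p.2 / p.1 ^ j ≤ C * vv (μ i) p.1 p.2 * 4 ^ N := by
    rw [div_eq_mul_inv]
    refine mul_le_mul_of_nonneg_left ?_ (by positivity)
    rw [← inv_pow]
    have h4 : p.1⁻¹ ≤ 4 := by
      have := inv_anti₀ (show (0 : ℝ) < 1 / 4 by norm_num) hp.1.le
      simpa using this
    exact (pow_le_pow_left₀ (inv_nonneg.mpr (SL_pos hp).le) h4 j).trans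
      (pow_le_pow_right₀ (by norm_num) hj)
  calc _ ≤ C * vv (μ i) p.1 p.2 / p.1 ^ j := h2
    _ ≤ C * vv (μ i) p.1 p.2 * 4 ^ N := h3
    _ = _ := by unfold vf; ring

theorem vf_pos (h : StmtTH) (hd : 2 ≤ d) {C' : ℝ} (hC' : 0 < C') {μ : ι → Measure (Sp d)}
    (hμ : ∀ i, Gro C' (μ i)) (i : ι) (p : ℝ × Sp d) (hp : p ∈ SL d) : 0 < vf μ i p :=
  vv_pos h hd hC' (hμ i) (SL_pos hp) p.2

/-! ## derivatives of v -/

/-- first derivatives of v -/
def pd (μ : ι → Measure (Sp d)) (e : ι → ℝ × Sp d) (i : ι) (p : ℝ × Sp d) : ℝ :=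
  fderiv ℝ (vf μ i) p (e i)

/-- second derivatives of v -/
def wpd2 (μ : ι → Measure (Sp d)) (e e' : ι → ℝ × Sp d) (i : ι) (p : ℝ × Sp d) : ℝ :=
  fderiv ℝ (fderiv ℝ (vf μ i)) p (e i) (e' i)

section der

variable (h : StmtTH) (hd : 2 ≤ d) {C' : ℝ} (hC' : 0 < C') {μ : ι → Measure (Sp d)}
    (hμ : ∀ i, Gro C' (μ i)) (N : ℕ)

include h hd hC' hμ

theorem pd_bd {e : ι → ℝ × Sp d} (he : ∀ i, ‖e i‖ ≤ 1) : BdN N (SL d) (vf μ) (pd μ e) := by
  have h1 := (vf_bd h hd hC' hμ (N + 1)).D isOpen_SL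
  exact h1.clm isOpen_SL (fun i => ContinuousLinearMap.apply ℝ ℝ (e i)) (B := 1) (fun i => by
    refine ContinuousLinearMap.opNorm_le_bound _ zero_le_one fun φ => ?_
    rw [ContinuousLinearMap.apply_apply, one_mul]
    exact (φ.le_opNorm _).trans (by nlinarith [he i, norm_nonneg φ]))

theorem wpd2_bd {e e' : ι → ℝ × Sp d} (he : ∀ i, ‖e i‖ ≤ 1) (he' : ∀ i, ‖e' i‖ ≤ 1) :
    BdN N (SL d) (vf μ) (wpd2 μ e e') := by
  have h1 := ((vf_bd h hd hC' hμ (N + 1 + 1)).D isOpen_SL).D isOpen_SL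
  have h2 := h1.clm isOpen_SL (fun i => ContinuousLinearMap.apply ℝ _ (e i)) (B := 1) (fun i => by
    refine ContinuousLinearMap.opNorm_le_bound _ zero_le_one fun φ => ?_
    rw [ContinuousLinearMap.apply_apply, one_mul]
    exact (φ.le_opNorm _).trans (by nlinarith only [he i, norm_nonneg φ]))
  exact h2.clm isOpen_SL (fun i => ContinuousLinearMap.apply ℝ ℝ (e' i)) (B := 1) (fun i => by
    refine ContinuousLinearMap.opNorm_le_bound _ zero_le_one fun φ => ?_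
    rw [ContinuousLinearMap.apply_apply, one_mul]
    exact (φ.le_opNorm _).trans (by nlinarith [he' i, norm_nonneg φ]))

theorem dtv_eq (i : ι) {p : ℝ × Sp d} (hp : p ∈ SL d) :
    dtv (μ i) p.1 p.2 = pd μ (fun _ => (1, 0)) i p := by
  have h1 : DifferentiableAt ℝ (vf μ i) p :=
    (((vf_bd h hd hC' hμ 0).smooth i).contDiffAt (isOpen_SL.mem_nhds hp)).differentiableAt
      (by norm_num)
  have h2 : HasDerivAt (fun s : ℝ => (s, p.2)) ((1 : ℝ), (0 : Sp d)) p.1 :=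
    (hasDerivAt_id p.1).prodMk (hasDerivAt_const p.1 p.2)
  have h4 : HasFDerivAt (vf μ i) (fderiv ℝ (vf μ i) p) ((fun s : ℝ => (s, p.2)) p.1) :=
    h1.hasFDerivAt
  have h3 := h4.comp_hasDerivAt p.1 h2
  exact h3.deriv

theorem fderiv_vv (i : ι) {p : ℝ × Sp d} (hp : p ∈ SL d) :
    HasFDerivAt (vv (μ i) p.1)
      ((fderiv ℝ (vf μ i) p).comp (ContinuousLinearMap.inr ℝ ℝ (Sp d))) p.2 := by
  have h1 : DifferentiableAt ℝ (vf μ i) p :=
    (((vf_bd h hd hC' hμ 0).smooth i).contDiffAt (isOpen_SL.mem_nhds hp)).differentiableAt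
      (by norm_num)
  have h2 : HasFDerivAt (fun y : Sp d => (p.1, y)) (ContinuousLinearMap.inr ℝ ℝ (Sp d)) p.2 :=
    hasFDerivAt_prodMk_right p.1 p.2
  exact h1.hasFDerivAt.comp p.2 h2

theorem inner_grad (i : ι) {p : ℝ × Sp d} (hp : p ∈ SL d) (w : Sp d) :
    ⟪gradient (vv (μ i) p.1) p.2, w⟫_ℝ = fderiv ℝ (vf μ i) p (0, w) := by
  have h1 := fderiv_vv h hd hC' hμ i hp
  rw [inner_gradient_left, h1.fderiv]
  simp

theorem lap_eq (i : ι) {p : ℝ × Sp d} (hp : p ∈ SL d) :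
    lap (vv (μ i) p.1) p.2 =
      ∑ j : Fin d, wpd2 μ (fun _ => (0, EuclideanSpace.single j (1 : ℝ)))
        (fun _ => (0, EuclideanSpace.single j (1 : ℝ))) i p := by
  unfold lap
  refine Finset.sum_congr rfl fun j _ => ?_
  rw [iteratedFDeriv_two_apply]
  have h1 : fderiv ℝ (vv (μ i) p.1) =ᶠ[𝓝 p.2] fun y =>
      (fderiv ℝ (vf μ i) (p.1, y)).comp (ContinuousLinearMap.inr ℝ ℝ (Sp d)) := by
    refine Eventually.of_forall fun y => ?_
    exact (fderiv_vv h hd hC' hμ i (p := (p.1, y)) hp).fderiv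
  have h2 : DifferentiableAt ℝ (fderiv ℝ (vf μ i)) p :=
    ((((vf_bd h hd hC' hμ 1).D isOpen_SL).smooth i).contDiffAt
      (isOpen_SL.mem_nhds hp)).differentiableAt (by norm_num)
  have h3 : HasFDerivAt (fun y : Sp d => (p.1, y)) (ContinuousLinearMap.inr ℝ ℝ (Sp d)) p.2 :=
    hasFDerivAt_prodMk_right p.1 p.2
  have h4 : HasFDerivAt (fun y => fderiv ℝ (vf μ i) (p.1, y))
      ((fderiv ℝ (fderiv ℝ (vf μ i)) p).comp (ContinuousLinearMap.inr ℝ ℝ (Sp d))) p.2 :=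
    h2.hasFDerivAt.comp p.2 h3
  have h5 := ((ContinuousLinearMap.compL ℝ (Sp d) (ℝ × Sp d) ℝ).flip
    (ContinuousLinearMap.inr ℝ ℝ (Sp d))).hasFDerivAt.comp p.2 h4
  have h6 : HasFDerivAt (fderiv ℝ (vv (μ i) p.1)) _ p.2 := h5.congr_of_eventuallyEq h1
  rw [h6.fderiv]
  simp [wpd2]

end der

/-! ## kernels -/

/-- kernels dominated by the profile β -/
structure DomK (β K : Sp d → ℝ) : Prop where
  cont : Continuous K
  le : ∀ z, |K z| ≤ β z

theorem DomK.zero {J : ℕ} {M : ℝ} {β K : Sp d → ℝ} (hβ : Kit J M β) (hK : DomK β K) {z : Sp d}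
    (hz : 1 ≤ ‖z‖) : K z = 0 := by
  have h1 := hK.le z
  rw [hβ.prof.supp z hz] at h1
  exact abs_nonpos_iff.mp h1

theorem DomK.hcs {J : ℕ} {M : ℝ} {β K : Sp d → ℝ} (hβ : Kit J M β) (hK : DomK β K) :
    HasCompactSupport K :=
  HasCompactSupport.intro (isCompact_closedBall (0 : Sp d) 1) (fun z hz => hK.zero hβ (by
    have : 1 < ‖z‖ := by simpa using hz
    exact this.le))

theorem DomK.integrable {J : ℕ} {M : ℝ} {β K : Sp d → ℝ} (hβ : Kit J M β) (hK : DomK β K) :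
    Integrable K := hK.cont.integrable_of_hasCompactSupport (hK.hcs hβ)

theorem domK_self {J : ℕ} {M : ℝ} {β : Sp d → ℝ} (hβ : Kit J M β) : DomK β β where
  cont := hβ.prof.smooth.continuous
  le := fun z => by rw [abs_of_nonneg (hβ.prof.nonneg z)]

theorem DomK.int_le {J : ℕ} {M : ℝ} {β K : Sp d → ℝ} (hβ : Kit J M β) (hK : DomK β K) :
    ∫ z, |K z| ≤ 1 := by
  rw [← hβ.prof.int]
  exact integral_mono (hK.integrable hβ).abs ((domK_self hβ).integrable hβ) hK.le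

theorem domK_Bp {J : ℕ} {M : ℝ} {β : Sp d → ℝ} (hβ : Kit J M β) : DomK β (Bp β) where
  cont := hβ.smooth1.continuous
  le := fun z => by rw [abs_of_nonneg (hβ.nonneg1 z)]; exact hβ.le1 z

theorem domK_Bpp {J : ℕ} {M : ℝ} {β : Sp d → ℝ} (hβ : Kit J M β) : DomK β (Bp (Bp β)) where
  cont := hβ.smooth2.continuous
  le := fun z => by rw [abs_of_nonneg (hβ.nonneg2 z)]; exact (hβ.le2 z).trans (hβ.le1 z)

theorem domK_mul {J : ℕ} {M : ℝ} {β K : Sp d → ℝ} (hβ : Kit J M β) (hK : DomK β K)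
    {φ : Sp d → ℝ} (hφ : Continuous φ) (hφ1 : ∀ z, ‖z‖ ≤ 1 → |φ z| ≤ 1) :
    DomK β (fun z => K z * φ z) where
  cont := hK.cont.mul hφ
  le := fun z => by
    rw [abs_mul]
    by_cases hz : ‖z‖ ≤ 1
    · have h1 := hK.le z
      have h2 := hφ1 z hz
      nlinarith only [h1, h2, abs_nonneg (K z)]
    · rw [hK.zero hβ (not_le.mp hz).le]
      simpa using hβ.prof.nonneg z

section avg

variable {J : ℕ} {M : ℝ} {ε : ℝ}

theorem avg_int {β K : Sp d → ℝ} (hβ : Kit J M β) (hK : DomK β K) {f : ℝ × Sp d → ℝ}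
    (hf : ContDiffOn ℝ ∞ f (SL d)) {p : ℝ × Sp d} (hp : p ∈ SL d) (ε : ℝ) :
    Integrable (fun z => K z * f (p.1, p.2 + (ε * p.1) • z)) := by
  have hc : Continuous (fun z => f (p.1, p.2 + (ε * p.1) • z)) := by
    rw [← continuousOn_univ]
    exact hf.continuousOn.comp (f := fun z : Sp d => (p.1, p.2 + (ε * p.1) • z)) (by fun_prop)
      (fun z _ => hp)
  exact (hK.cont.mul hc).integrable_of_hasCompactSupport ((hK.hcs hβ).mul_right)

theorem avg_bd (h : StmtTH) (hd : 2 ≤ d) {C' : ℝ} (hC' : 0 < C') {μ : ι → Measure (Sp d)}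
    (hμ : ∀ i, Gro C' (μ i)) {N : ℕ} (hε0 : 0 < ε) (hε : ε ≤ 1) {β K : ι → Sp d → ℝ}
    (hβ : ∀ i, Kit J M (β i)) (hK : ∀ i, DomK (β i) (K i)) {f : ι → ℝ × Sp d → ℝ}
    (hf : BdN N (SL d) (vf μ) f) :
    BdN N (SL d) (vf μ) (fun i p => ∫ z, K i z * f i (p.1, p.2 + (ε * p.1) • z)) :=
  hf.avg ε (fun i => (hK i).integrable (hβ i)) (fun i z hz => (hK i).zero (hβ i) hz.le)
    (B := 1) (fun i => (hK i).int_le (hβ i)) (H := 2 ^ d) (by positivity)
    (fun i _ hp _ hz => vv_harnack h hd hC' (hμ i) (SL_pos hp) _ hε0 hε hz)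

end avg

theorem wa_tau_cont (t : ℝ) : Continuous (tau t) := by
  unfold tau
  fun_prop

theorem tau_nonneg (t r : ℝ) : 0 ≤ tau t r := le_max_left _ _

theorem time_bd (h : StmtTH) (hd : 2 ≤ d) {C' : ℝ} (hC' : 0 < C') {μ : ι → Measure (Sp d)}
    (hμ : ∀ i, Gro C' (μ i)) {N : ℕ} {f : ι → ℝ × Sp d → ℝ} (hf : BdN N (SL d) (vf μ) f) :
    BdN N univ (fun i y => vv (μ i) 1 y)
      (fun i y => ∫ r in (1 / 2 : ℝ)..2, tau 1 r * f i (r, y)) := by
  obtain ⟨H, hH0, hH⟩ := vv_time h hd hC'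
  exact hf.time (α := 1 / 2) (γ := 2) (by norm_num) (by norm_num) (by norm_num) (wa_tau_cont 1) hH0
    (fun i t y h1 h2 => hH (μ i) (hμ i) t y h1 h2)

theorem mem_SL_of {r : ℝ} (h1 : 1 / 2 ≤ r) (h2 : r ≤ 2) (y : Sp d) : (r, y) ∈ SL d :=
  ⟨by linarith, by linarith⟩

/-- time averages only depend on the values in the slab -/
theorem tav_eq {F : ℝ → Sp d → ℝ} {f : ℝ × Sp d → ℝ} (hf : ∀ p ∈ SL d, F p.1 p.2 = f p)
    (y : Sp d) : tav F 1 y = ∫ r in (1 / 2 : ℝ)..2, tau 1 r * f (r, y) := by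
  unfold tav
  rw [mul_one]
  refine intervalIntegral.integral_congr fun r hr => ?_
  rw [uIcc_of_le (by norm_num)] at hr
  rw [← hf (r, y) (mem_SL_of hr.1 hr.2 y)]

/-! ## W and G -/

/-- the coordinate t -/
theorem t_bd (N : ℕ) : BdN N (SL d) (fun (_ : ι) p => p.1) (fun _ p => p.1) := by
  refine BdN.lin isOpen_SL (fun _ => ContinuousLinearMap.fst ℝ ℝ (Sp d)) (B := 4) (by norm_num)
    (fun i p hp => (SL_pos hp).le) (fun i p hp => ?_) (fun i p hp => ?_)
  · have := SL_pos hp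
    simp only [ContinuousLinearMap.coe_fst', Real.norm_eq_abs, abs_of_pos this]
    linarith
  · have := hp.1
    linarith [ContinuousLinearMap.norm_fst_le ℝ ℝ (Sp d)]

theorem t_bd1 (N : ℕ) : BdN N (SL d) (fun (_ : ι) _ => 1) (fun _ p => p.1) :=
  (t_bd N).mono (B := 4) (by norm_num) (fun i p hp => by linarith [hp.2])

section WG

variable (h : StmtTH) (hd : 2 ≤ d) {C' : ℝ} (hC' : 0 < C') {μ : ι → Measure (Sp d)}
    (hμ : ∀ i, Gro C' (μ i)) (N : ℕ) {J : ℕ} {M ε : ℝ} (hε0 : 0 < ε) (hε : ε ≤ 1)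
    {β : ι → Sp d → ℝ} (hβ : ∀ i, Kit J M (β i)) {n : ι → Sp d} (hn : ∀ i, ‖n i‖ = 1)

include h hd hC' hμ

theorem one_mul_bd {N : ℕ} {f g : ι → ℝ × Sp d → ℝ}
    (hf : BdN N (SL d) (fun (_ : ι) _ => 1) f)
    (hg : BdN N (SL d) (vf μ) g) : BdN N (SL d) (vf μ) (fun i p => f i p * g i p) :=
  (hf.mul isOpen_SL hg).mono (B := 1) zero_le_one (fun i p hp => by simp)

/-- the Laplacian of v -/
def lv (μ : ι → Measure (Sp d)) (i : ι) (p : ℝ × Sp d) : ℝ :=
  ∑ j : Fin d, wpd2 μ (fun _ => (0, EuclideanSpace.single j (1 : ℝ)))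
        (fun _ => (0, EuclideanSpace.single j (1 : ℝ))) i p

omit h hd hC' hμ in
theorem norm_e (j : Fin d) : ‖((0 : ℝ), (EuclideanSpace.single j (1 : ℝ) : Sp d))‖ ≤ 1 := by
  simp [Prod.norm_def]

theorem lv_bd : BdN N (SL d) (vf μ) (lv μ) :=
  BdN.sum isOpen_SL Finset.univ (fun i p hp => (vf_pos h hd hC' hμ i p hp).le)
    (fun j _ => wpd2_bd h hd hC' hμ N (fun _ => norm_e j) (fun _ => norm_e j))

include hε0 hε hβ

/-- the family w -/
theorem wv_bd : BdN N (SL d) (vf μ) (fun i p => wv (β i) ε (μ i) p.1 p.2) :=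
  avg_bd h hd hC' hμ hε0 hε hβ (fun i => domK_self (hβ i)) (vf_bd h hd hC' hμ N)

/-- the family wt -/
theorem wt_bd : BdN N (SL d) (vf μ) (fun i p => wt (β i) ε (μ i) p.1 p.2) := by
  have hf1 := vf_bd h hd hC' hμ N
  have hf2 : BdN N (SL d) (vf μ) (fun i p => (2 * ε ^ 2) * (p.1 * pd μ (fun _ => (1, 0)) i p)) :=
    (one_mul_bd h hd hC' hμ (t_bd1 N) (pd_bd h hd hC' hμ N (fun _ => by simp [Prod.norm_def]))).const_mul
      isOpen_SL (fun _ => 2 * ε ^ 2) (fun _ => le_rfl)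
  have hf3 : BdN N (SL d) (vf μ) (fun i p => ε ^ 4 * (p.1 * (p.1 * lv μ i p))) :=
    (one_mul_bd h hd hC' hμ (t_bd1 N) (one_mul_bd h hd hC' hμ (t_bd1 N)
      (lv_bd h hd hC' hμ N))).const_mul isOpen_SL (fun _ => ε ^ 4) (fun _ => le_rfl)
  have h1 := avg_bd h hd hC' hμ hε0 hε hβ (fun i => domK_self (hβ i)) hf1
  have h2 := avg_bd h hd hC' hμ hε0 hε hβ (fun i => domK_Bp (hβ i)) hf2
  have h3 := avg_bd h hd hC' hμ hε0 hε hβ (fun i => domK_Bpp (hβ i)) hf3
  refine ((h1.sub isOpen_SL h2).sub isOpen_SL h3).congr isOpen_SL (fun i p hp => ?_)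
  have i1 := avg_int (hβ i) (domK_self (hβ i)) (hf1.smooth i) hp ε
  have i2 := avg_int (hβ i) (domK_Bp (hβ i)) (hf2.smooth i) hp ε
  have i3 := avg_int (hβ i) (domK_Bpp (hβ i)) (hf3.smooth i) hp ε
  have i12 := i1.sub i2
  simp only [Pi.sub_def] at i12
  rw [← integral_sub i1 i2, ← integral_sub i12 i3]
  unfold wt
  refine integral_congr_ae (Eventually.of_forall fun z => ?_)
  have hz : ((p.1, p.2 + (ε * p.1) • z) : ℝ × Sp d) ∈ SL d := hp
  have e1 := dtv_eq h hd hC' hμ i hz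
  have e2 := lap_eq h hd hC' hμ i hz
  simp only at e1 e2 ⊢
  rw [e1, e2]
  unfold lv vf
  simp only
  ring

/-- G at scale one -/
theorem GG_bd : BdN N univ (fun i y => vv (μ i) 1 y) (fun i => GG (β i) ε (μ i) 1) := by
  obtain ⟨H, hH0, hH⟩ := vv_time h hd hC'
  have h0 := wv_bd h hd hC' hμ N hε0 hε hβ
  have h1 := h0.slice (t := 1) (by norm_num) (by norm_num)
  have h2 := (h0.slice (t := 1 / 2) (by norm_num) (by norm_num)).mono
    (w' := fun i y => vv (μ i) 1 y) hH0 (fun i y _ => hH (μ i) (hμ i) (1 / 2) y le_rfl (by norm_num))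
  have h3 := (h0.slice (t := 2) (by norm_num) (by norm_num)).mono
    (w' := fun i y => vv (μ i) 1 y) hH0 (fun i y _ => hH (μ i) (hμ i) 2 y (by norm_num) le_rfl)
  have h4 := (h1.sub isOpen_univ (h2.const_mul isOpen_univ (fun _ => 2 / 3) (fun _ => le_rfl))).sub
    isOpen_univ (h3.const_mul isOpen_univ (fun _ => 1 / 3) (fun _ => le_rfl))
  refine h4.congr isOpen_univ (fun i y _ => ?_)
  simp only [GG, mul_one]

/-- W at scale one -/
theorem WW_bd : BdN N univ (fun i y => vv (μ i) 1 y) (fun i => WW (β i) ε (μ i) 1) := by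
  refine (time_bd h hd hC' hμ (wt_bd h hd hC' hμ N hε0 hε hβ)).congr isOpen_univ
    (fun i y _ => ?_)
  simp only [WW, mul_one]

include hn

/-- the tangential energy density -/
theorem X1_bd : BdN N (SL d) (vf μ) (fun i p => X1 (β i) ε (μ i) (n i) p.1 p.2) := by
  have hpos := vf_pos h hd hC' hμ
  have hv := vf_bd h hd hC' hμ N
  have hn1 : ∀ i, ‖((0 : ℝ), n i)‖ ≤ 1 := fun i => by simp [Prod.norm_def, hn i]
  have he : ∀ j : Fin d, BdN N (SL d) (fun i p => vf μ i p * vf μ i p) (fun i p =>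
      pd μ (fun _ => (0, EuclideanSpace.single j (1 : ℝ))) i p *
      pd μ (fun _ => (0, EuclideanSpace.single j (1 : ℝ))) i p) := fun j =>
    (pd_bd h hd hC' hμ N (fun _ => norm_e j)).mul isOpen_SL
      (pd_bd h hd hC' hμ N (fun _ => norm_e j))
  have hs := BdN.sum isOpen_SL Finset.univ
    (fun i p hp => mul_nonneg (hpos i p hp).le (hpos i p hp).le) (fun j _ => he j)
  have hnn := (pd_bd h hd hC' hμ N hn1).mul isOpen_SL (pd_bd h hd hC' hμ N hn1)
  have hf := ((hs.sub isOpen_SL hnn).div isOpen_SL hpos hv).mono (w' := vf μ) (B := 1) zero_le_one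
    (fun i p hp => by
      have := hpos i p hp
      apply le_of_eq
      field_simp)
  refine (avg_bd h hd hC' hμ hε0 hε hβ (fun i => domK_self (hβ i)) hf).congr isOpen_SL
    (fun i p hp => ?_)
  unfold X1
  refine integral_congr_ae (Eventually.of_forall fun z => ?_)
  have hz : ((p.1, p.2 + (ε * p.1) • z) : ℝ × Sp d) ∈ SL d := hp
  have e1 := inner_grad h hd hC' hμ i hz
  simp only at e1 ⊢
  set g := gradient (vv (μ i) p.1) (p.2 + (ε * p.1) • z) with hg
  have e2 : ‖tang (n i) g‖ ^ 2 = ‖g‖ ^ 2 - ⟪g, n i⟫_ℝ ^ 2 := by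
    unfold tang
    rw [norm_sub_sq_real, norm_smul, inner_smul_right, real_inner_comm (n i) g, mul_pow, hn i,
      Real.norm_eq_abs, sq_abs]
    ring
  have e3 : ‖g‖ ^ 2 = ∑ j : Fin d, ⟪g, EuclideanSpace.single j (1 : ℝ)⟫_ℝ ^ 2 := by
    rw [EuclideanSpace.norm_sq_eq]
    refine Finset.sum_congr rfl fun j _ => ?_
    rw [EuclideanSpace.inner_single_right]
    simp
  rw [e2, e3]
  simp only [e1]
  unfold pd vf
  simp only [pow_two]

/-- the ray derivative energy density -/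
theorem X3_bd : BdN N (SL d) (vf μ) (fun i p => X3 (β i) ε (μ i) (n i) p.1 p.2) := by
  have hpos := vf_pos h hd hC' hμ
  have hv := vf_bd h hd hC' hμ N
  have hn1 : ∀ i, ‖((0 : ℝ), n i)‖ ≤ 1 := fun i => by simp [Prod.norm_def, hn i]
  have ht1 : ∀ _ : ι, ‖((1 : ℝ), (0 : Sp d))‖ ≤ 1 := fun i => by simp [Prod.norm_def]
  have hT := pd_bd h hd hC' hμ N ht1
  have hN := pd_bd h hd hC' hμ N hn1
  have hw : ∀ i, ∀ p ∈ SL d, vf μ i p * vf μ i p / vf μ i p ≤ 1 * vf μ i p := fun i p hp => by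
      have := hpos i p hp
      apply le_of_eq
      field_simp
  have f1 := (((hT.mul isOpen_SL hT)).div isOpen_SL hpos hv).mono (w' := vf μ) zero_le_one hw
  have f2 := ((((hT.mul isOpen_SL hN)).div isOpen_SL hpos hv).mono (w' := vf μ) zero_le_one
    hw).const_mul isOpen_SL (fun _ => 2 * ε) (fun _ => le_rfl)
  have f3 := ((((hN.mul isOpen_SL hN)).div isOpen_SL hpos hv).mono (w' := vf μ) zero_le_one
    hw).const_mul isOpen_SL (fun _ => ε ^ 2) (fun _ => le_rfl)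
  have k1 : ∀ i, DomK (β i) (β i) := fun i => domK_self (hβ i)
  have hin : ∀ i, ∀ z : Sp d, ‖z‖ ≤ 1 → |⟪z, n i⟫_ℝ| ≤ 1 := fun i z hz => by
    refine (abs_real_inner_le_norm _ _).trans ?_
    rw [hn i, mul_one]
    exact hz
  have k2 : ∀ i, DomK (β i) (fun z => β i z * ⟪z, n i⟫_ℝ) := fun i =>
    domK_mul (hβ i) (k1 i) (by fun_prop) (hin i)
  have k3 : ∀ i, DomK (β i) (fun z => β i z * ⟪z, n i⟫_ℝ * ⟪z, n i⟫_ℝ) := fun i =>
    domK_mul (hβ i) (k2 i) (by fun_prop) (hin i)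
  have a1 := avg_bd h hd hC' hμ hε0 hε hβ k1 f1
  have a2 := avg_bd h hd hC' hμ hε0 hε hβ k2 f2
  have a3 := avg_bd h hd hC' hμ hε0 hε hβ k3 f3
  refine ((a1.add isOpen_SL a2).add isOpen_SL a3).congr isOpen_SL (fun i p hp => ?_)
  have i1 := avg_int (hβ i) (k1 i) (f1.smooth i) hp ε
  have i2 := avg_int (hβ i) (k2 i) (f2.smooth i) hp ε
  have i3 := avg_int (hβ i) (k3 i) (f3.smooth i) hp ε
  have i12 := i1.add i2
  simp only [Pi.add_def] at i12
  rw [← integral_add i1 i2, ← integral_add i12 i3]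
  unfold X3
  refine integral_congr_ae (Eventually.of_forall fun z => ?_)
  have hz : ((p.1, p.2 + (ε * p.1) • z) : ℝ × Sp d) ∈ SL d := hp
  have e1 := inner_grad h hd hC' hμ i hz
  have e2 := dtv_eq h hd hC' hμ i hz
  simp only at e1 e2 ⊢
  rw [e1, e2]
  have := hpos i _ hz
  unfold pd
  unfold vf at this ⊢
  simp only at this ⊢
  field_simp
  ring

end WG

/-! ## the kernel of X2 -/

/-- t² + |x|² -/
def rho (p : ℝ × Sp d) : ℝ := p.1 ^ 2 + ‖p.2‖ ^ 2

theorem rho_pos {p : ℝ × Sp d} (hp : p ∈ SL d) : 0 < rho p := by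
  have := SL_pos hp
  unfold rho
  positivity

theorem fst_le_sqrt (p : ℝ × Sp d) : p.1 ≤ Real.sqrt (rho p) :=
  Real.le_sqrt_of_sq_le (by unfold rho; nlinarith [norm_nonneg p.2])

theorem snd_le_sqrt (p : ℝ × Sp d) : ‖p.2‖ ≤ Real.sqrt (rho p) :=
  Real.le_sqrt_of_sq_le (by unfold rho; nlinarith [sq_nonneg p.1])

theorem inn_bd (N : ℕ) (n : ι → Sp d) (hn : ∀ i, ‖n i‖ ≤ 1) :
    BdN N (SL d) (fun (_ : ι) p => Real.sqrt (rho p)) (fun i p => ⟪n i, p.2⟫_ℝ) := by
  refine BdN.lin isOpen_SL (fun i => (innerSL ℝ (n i)).comp (ContinuousLinearMap.snd ℝ ℝ (Sp d)))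
    (B := 4) (by norm_num) (fun i p hp => Real.sqrt_nonneg _) (fun i p hp => ?_)
    (fun i p hp => ?_)
  · have h1 := snd_le_sqrt p
    have h2 : ‖⟪n i, p.2⟫_ℝ‖ ≤ ‖n i‖ * ‖p.2‖ := norm_inner_le_norm _ _
    have h3 : ‖n i‖ * ‖p.2‖ ≤ 1 * ‖p.2‖ := mul_le_mul_of_nonneg_right (hn i) (norm_nonneg _)
    simp only [ContinuousLinearMap.comp_apply, ContinuousLinearMap.coe_snd', innerSL_apply_apply]
    linarith [Real.sqrt_nonneg (rho p)]
  · have h1 : (1 : ℝ) / 4 < Real.sqrt (rho p) := hp.1.trans_le (fst_le_sqrt p)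
    have h2 : ‖(innerSL ℝ (n i)).comp (ContinuousLinearMap.snd ℝ ℝ (Sp d))‖ ≤ 1 := by
      refine (ContinuousLinearMap.opNorm_comp_le _ _).trans ?_
      rw [innerSL_apply_norm]
      have h3 := ContinuousLinearMap.norm_snd_le ℝ ℝ (Sp d)
      nlinarith only [h3, hn i, norm_nonneg (ContinuousLinearMap.snd ℝ ℝ (Sp d))]
    linarith

theorem rho_bd (N : ℕ) : BdN N (SL d) (fun (_ : ι) p => rho p) (fun _ p => rho p) := by
  have h1 : BdN N (SL d) (fun (_ : ι) p => Real.sqrt (rho p)) (fun _ p => p.1) :=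
    (t_bd N).mono (B := 1) zero_le_one (fun i p hp => by rw [one_mul]; exact fst_le_sqrt p)
  have h2 := h1.mul isOpen_SL h1
  have h3 := BdN.sum (ι := ι) isOpen_SL Finset.univ
    (fun i p hp => mul_nonneg (Real.sqrt_nonneg (rho p)) (Real.sqrt_nonneg (rho p)))
    (fun (j : Fin d) _ => (inn_bd N (fun (_ : ι) => (EuclideanSpace.single j (1 : ℝ) : Sp d))
      (fun _ => by simp)).mul isOpen_SL
      (inn_bd N (fun (_ : ι) => (EuclideanSpace.single j (1 : ℝ) : Sp d)) (fun _ => by simp)))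
  refine ((h2.add isOpen_SL h3).mono (B := 1) (w' := fun (_ : ι) p => rho p) zero_le_one
    (fun i p hp => ?_)).congr isOpen_SL (fun i p hp => ?_)
  · rw [one_mul, Real.mul_self_sqrt (rho_pos hp).le]
  · unfold rho
    rw [EuclideanSpace.norm_sq_eq, pow_two]
    congr 1
    refine Finset.sum_congr rfl fun j _ => ?_
    rw [EuclideanSpace.inner_single_left]
    simp [pow_two]

theorem kk_eq {p : ℝ × Sp d} (hp : p ∈ SL d) :
    kk p.1 p.2 = p.1 * (rho p ^ (-(1 / 2) : ℝ)) ^ d := by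
  unfold kk
  rw [Real.rpow_neg (rho_pos hp).le, ← Real.sqrt_eq_rpow, inv_pow, div_eq_mul_inv]
  rfl

theorem kk_pos {p : ℝ × Sp d} (hp : p ∈ SL d) : 0 < kk p.1 p.2 := by
  rw [kk_eq hp]
  have h1 := SL_pos hp
  have h2 := Real.rpow_pos_of_pos (rho_pos hp) (-(1 / 2))
  positivity

theorem kk_bd (N : ℕ) : BdN N (SL d) (fun (_ : ι) p => kk p.1 p.2) (fun _ p => kk p.1 p.2) := by
  have h1 := (rho_bd (ι := ι) (d := d) (N + 1)).rpow isOpen_SL (fun i p hp => rho_pos hp)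
    (-(1 / 2))
  refine (((t_bd N).mul isOpen_SL (h1.pow isOpen_SL d)).mono (B := 1)
    (w' := fun (_ : ι) p => kk p.1 p.2) zero_le_one (fun i p hp => ?_)).congr
    isOpen_SL (fun i p hp => ?_)
  · rw [one_mul, kk_eq hp]
  · rw [kk_eq hp]

/-- the kernel of X2 -/
def wqf (n : ι → Sp d) (i : ι) (p : ℝ × Sp d) : ℝ :=
  ⟪n i, p.2⟫_ℝ ^ 2 / (p.1 ^ 2 + ‖p.2‖ ^ 2) ^ 2 * kk p.1 p.2

theorem qf_bd (N : ℕ) (n : ι → Sp d) (hn : ∀ i, ‖n i‖ ≤ 1) :
    BdN N (SL d) (fun (_ : ι) p => kk p.1 p.2) (wqf n) := by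
  have h1 := inn_bd N n hn
  have h2 := (rho_bd (ι := ι) (d := d) N).inv isOpen_SL (fun i p hp => rho_pos hp)
  have h3 := ((h1.pow isOpen_SL 2).mul isOpen_SL (h2.pow isOpen_SL 2)).mul isOpen_SL (kk_bd N)
  refine (h3.mono (B := 16) (w' := fun (_ : ι) p => kk p.1 p.2) (by norm_num)
    (fun i p hp => ?_)).congr isOpen_SL (fun i p hp => ?_)
  · have h4 := rho_pos hp
    rw [Real.sq_sqrt h4.le]
    have h5 : rho p * (rho p)⁻¹ ^ 2 = (rho p)⁻¹ := by field_simp
    rw [h5]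
    refine mul_le_mul_of_nonneg_right ?_ (kk_pos hp).le
    have h6 : (1 : ℝ) / 16 ≤ rho p := by
      unfold rho
      nlinarith [hp.1, norm_nonneg p.2]
    have := inv_anti₀ (show (0 : ℝ) < 1 / 16 by norm_num) h6
    simpa using this
  · unfold wqf rho
    rw [div_eq_mul_inv, inv_pow]

theorem kk_le {p : ℝ × Sp d} (hp : p ∈ SL d) : kk p.1 p.2 ≤ 4 * 4 ^ d := by
  rw [kk_eq hp]
  have h1 := SL_pos hp
  have h2 : (1 : ℝ) / 4 ≤ Real.sqrt (rho p) := hp.1.le.trans (fst_le_sqrt p)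
  rw [Real.rpow_neg (rho_pos hp).le, ← Real.sqrt_eq_rpow]
  have h3 : (Real.sqrt (rho p))⁻¹ ≤ 4 := by
    have := inv_anti₀ (show (0 : ℝ) < 1 / 4 by norm_num) h2
    simpa using this
  have h4 : ((Real.sqrt (rho p))⁻¹) ^ d ≤ 4 ^ d := pow_le_pow_left₀ (by positivity) h3 d
  have h5 : p.1 ≤ 4 := hp.2.le
  gcongr

theorem kk_cont {t : ℝ} (ht : 0 < t) : Continuous (kk (d := d) t) := by
  unfold kk
  refine continuous_const.div (by fun_prop) (fun x => ?_)
  positivity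

theorem kk_int {μ : Measure (Sp d)} [IsFiniteMeasure μ] {p : ℝ × Sp d} (hp : p ∈ SL d) :
    Integrable (fun η => kk p.1 (p.2 - η)) μ := by
  refine Integrable.of_bound ((kk_cont (SL_pos hp)).comp
    (by fun_prop : Continuous fun η : Sp d => p.2 - η)).aestronglyMeasurable (4 * 4 ^ d)
    (Eventually.of_forall fun η => ?_)
  have hq : ((p.1, p.2 - η) : ℝ × Sp d) ∈ SL d := hp
  have h1 := kk_le hq
  have h2 := kk_pos hq
  rw [Real.norm_of_nonneg h2.le]
  exact h1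

/-- potentials with a kernel bounded by kk -/
theorem pot_bd {C' : ℝ} {μ : ι → Measure (Sp d)} (hμ : ∀ i, Gro C' (μ i)) {N : ℕ}
    {q : ι → ℝ × Sp d → ℝ}
    (hq : ∀ N', BdN N' (SL d) (fun (_ : ι) p => kk p.1 p.2) q) :
    BdN N (SL d) (fun i p => th (μ i) p.1 p.2)
      (fun i p => ∫ η, q i (p.1, p.2 - η) ∂(μ i)) := by
  have hfin : ∀ i, IsFiniteMeasure (μ i) := fun i => (hμ i).fin
  have hG : ∀ i, ContDiffOn ℝ ∞ (fun r : (ℝ × Sp d) × Sp d => q i (r.1.1, r.1.2 - r.2))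
      (SL d ×ˢ univ) := by
    intro i
    refine ((hq 0).smooth i).comp (f := fun r : (ℝ × Sp d) × Sp d => (r.1.1, r.1.2 - r.2))
      (ContDiff.contDiffOn (by fun_prop)) ?_
    rintro ⟨p, z⟩ ⟨hp, _⟩
    exact hp
  have htr : ∀ i (j : ℕ) (p : ℝ × Sp d) (η : Sp d),
      iteratedFDeriv ℝ j (fun r : ℝ × Sp d => q i (r.1, r.2 - η)) p =
        iteratedFDeriv ℝ j (q i) (p.1, p.2 - η) := by
    intro i j p η
    have h1 : (fun r : ℝ × Sp d => q i (r.1, r.2 - η)) = fun r => q i (r + ((0 : ℝ), -η)) := by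
      funext r
      congr 1
      ext <;> simp [sub_eq_add_neg]
    rw [h1, iteratedFDeriv_comp_add_right]
    congr 1
    ext <;> simp [sub_eq_add_neg]
  have hloc : ∀ i (j : ℕ), ∀ p0 ∈ SL d, ∃ C : ℝ, ∀ᶠ p in 𝓝 p0, ∀ η ∈ (univ : Set (Sp d)),
      ‖iteratedFDeriv ℝ j (fun r : ℝ × Sp d => q i (r.1, r.2 - η)) p‖ ≤ C := by
    intro i j p0 hp0
    obtain ⟨C, hC, h1⟩ := (hq j).bd
    refine ⟨C * (4 * 4 ^ d), ?_⟩
    filter_upwards [isOpen_SL.mem_nhds hp0] with p hp η _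
    rw [htr i j p η]
    have hp' : ((p.1, p.2 - η) : ℝ × Sp d) ∈ SL d := hp
    exact (h1 i _ hp' j le_rfl).trans (mul_le_mul_of_nonneg_left (kk_le hp') hC)
  have hP := fun i => pintK (ν := μ i) (U := SL d) (W := SL d ×ˢ univ) (k := univ)
    (K := fun _ => (1 : ℝ)) isOpen_SL (isOpen_SL.prod isOpen_univ) MeasurableSet.univ
    (fun p hp z _ => ⟨hp, mem_univ _⟩) (by have := hfin i; exact integrable_const _)
    (fun z hz => absurd (mem_univ z) hz) (hG i) (hloc i)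
  simp only [one_smul] at hP
  obtain ⟨C, hC, h1⟩ := (hq N).bd
  refine ⟨fun i => (hP i).1, C, hC, fun i p hp j hj => ?_⟩
  have := hfin i
  rw [(hP i).2.2.1 j p hp]
  have h2 : ∫ η, C * kk p.1 (p.2 - η) ∂(μ i) = C * th (μ i) p.1 p.2 := by
    rw [integral_const_mul]
    rfl
  rw [← h2]
  refine norm_integral_le_of_norm_le ((kk_int hp).const_mul C) (Eventually.of_forall fun η => ?_)
  rw [htr i j p η]
  exact h1 i (p.1, p.2 - η) hp j hj

theorem X2_bd (h : StmtTH) (hd : 2 ≤ d) {C' : ℝ} (hC' : 0 < C') {μ : ι → Measure (Sp d)}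
    (hμ : ∀ i, Gro C' (μ i)) (N : ℕ) {n : ι → Sp d} (hn : ∀ i, ‖n i‖ = 1) :
    BdN N (SL d) (vf μ) (fun i p => X2 (μ i) (n i) p.1 p.2) := by
  have hpos := vf_pos h hd hC' hμ
  have h1 := pot_bd hμ (N := N) (fun N' => qf_bd N' n (fun i => (hn i).le))
  refine ((h1.div isOpen_SL hpos (vf_bd h hd hC' hμ N)).mono (w' := vf μ) (B := 1) zero_le_one
    (fun i p hp => ?_)).congr isOpen_SL (fun i p hp => ?_)
  · have h2 := hpos i p hp
    have h3 : th (μ i) p.1 p.2 = vf μ i p * vf μ i p := by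
      obtain ⟨C, hC, h4⟩ := h d 0 hd C' hC'
      unfold vf vv
      rw [Real.mul_self_sqrt ((h4 (μ i) (hμ i)).1 p.1 p.2 (SL_pos hp)).1.le]
    rw [h3]
    apply le_of_eq
    field_simp
  · unfold X2 wqf vf
    congr 1
    refine integral_congr_ae (Eventually.of_forall fun η => ?_)
    simp only
    rw [real_inner_comm, ← neg_sub, inner_neg_right, neg_sq]

/-! ## Conclusion -/

/-- the index set -/
structure IxW (d J : ℕ) (M C' : ℝ) where
  β : Sp d → ℝ
  μ : Measure (Sp d)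
  n : Sp d
  hβ : Kit J M β
  hμ : Gro C' μ
  hn : ‖n‖ = 1

theorem X1_nonneg {J : ℕ} {M : ℝ} {β : Sp d → ℝ} (hβ : Kit J M β) (ε : ℝ) (μ : Measure (Sp d))
    (n : Sp d) (t : ℝ) (y : Sp d) : 0 ≤ X1 β ε μ n t y :=
  integral_nonneg fun z => mul_nonneg (hβ.prof.nonneg z)
    (div_nonneg (sq_nonneg _) (Real.sqrt_nonneg _))

theorem X3_nonneg {J : ℕ} {M : ℝ} {β : Sp d → ℝ} (hβ : Kit J M β) (ε : ℝ) (μ : Measure (Sp d))
    (n : Sp d) (t : ℝ) (y : Sp d) : 0 ≤ X3 β ε μ n t y :=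
  integral_nonneg fun z => mul_nonneg (hβ.prof.nonneg z)
    (div_nonneg (sq_nonneg _) (Real.sqrt_nonneg _))

theorem kk_nonneg {t : ℝ} (ht : 0 ≤ t) (x : Sp d) : 0 ≤ kk t x := by
  unfold kk
  positivity

theorem X2_nonneg (μ : Measure (Sp d)) (n : Sp d) {t : ℝ} (ht : 0 ≤ t) (y : Sp d) :
    0 ≤ X2 μ n t y :=
  div_nonneg (integral_nonneg fun η => mul_nonneg (by positivity) (kk_nonneg ht _))
    (Real.sqrt_nonneg _)

theorem tav_nonneg {F : ℝ → Sp d → ℝ} (hF : ∀ t y, 0 ≤ t → 0 ≤ F t y) (y : Sp d) :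
    0 ≤ tav F 1 y := by
  unfold tav
  refine intervalIntegral.integral_nonneg (by norm_num) fun r hr => ?_
  exact mul_nonneg (tau_nonneg _ _) (hF r y (by linarith [hr.1]))

theorem stmtWA (h : StmtTH) : StmtWA := by
  intro d J hd M C' ε hC' hε0 hε
  let ι := IxW d (J + 4) M C'
  have hμ : ∀ i : ι, Gro C' i.μ := fun i => i.hμ
  have hβ : ∀ i : ι, Kit (J + 4) M i.β := fun i => i.hβ
  have hn : ∀ i : ι, ‖i.n‖ = 1 := fun i => i.hn
  have b1 := WW_bd h hd hC' hμ J hε0 hε hβ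
  have b2 := GG_bd h hd hC' hμ J hε0 hε hβ
  have x1 := time_bd h hd hC' hμ (X1_bd h hd hC' hμ J hε0 hε hβ hn)
  have x2 := time_bd h hd hC' hμ (X2_bd h hd hC' hμ J hn)
  have x3 := time_bd h hd hC' hμ (X3_bd h hd hC' hμ J hε0 hε hβ hn)
  have b3 : BdN J univ (fun (i : ι) y => vv i.μ 1 y) (fun i => X13 i.β ε i.μ i.n 1) := by
    refine (x1.add isOpen_univ x3).congr isOpen_univ (fun i y _ => ?_)
    simp only [X13, tav, mul_one]
  have b4 : BdN J univ (fun (i : ι) y => vv i.μ 1 y) (fun i => XX i.β ε i.μ i.n 1) := by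
    refine ((x1.add isOpen_univ x2).add isOpen_univ x3).congr isOpen_univ (fun i y _ => ?_)
    simp only [XX, tav, mul_one]
  obtain ⟨C1, hC1, h1⟩ := b1.bd
  obtain ⟨C2, hC2, h2⟩ := b2.bd
  obtain ⟨C3, hC3, h3⟩ := b3.bd
  obtain ⟨C4, hC4, h4⟩ := b4.bd
  refine ⟨C1 + C2 + C3 + C4 + 1, by positivity, fun β hβ μ hμ => ?_⟩
  -- a unit vector
  obtain ⟨n0, hn0⟩ : ∃ n : Sp d, ‖n‖ = 1 :=
    ⟨EuclideanSpace.single ⟨0, by omega⟩ (1 : ℝ), by simp⟩
  have hv : ∀ y, 0 ≤ vv μ 1 y := fun y => Real.sqrt_nonneg _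
  let i0 : ι := ⟨β, μ, n0, hβ, hμ, hn0⟩
  refine ⟨contDiffOn_univ.mp (b1.smooth i0), contDiffOn_univ.mp (b2.smooth i0),
    fun j hj y => ?_, fun j hj y => ?_, fun n hn => ?_⟩
  · refine (h1 i0 y (mem_univ _) j hj).trans (mul_le_mul_of_nonneg_right (by linarith) (hv y))
  · refine (h2 i0 y (mem_univ _) j hj).trans (mul_le_mul_of_nonneg_right (by linarith) (hv y))
  · let i : ι := ⟨β, μ, n, hβ, hμ, hn⟩
    refine ⟨(contDiffOn_univ.mp (b4.smooth i)).of_le (by exact_mod_cast le_top), fun y => ?_,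
      fun j hj y => ?_, (contDiffOn_univ.mp (b3.smooth i)).of_le (by exact_mod_cast le_top),
      fun y => ?_, fun j hj y => ?_⟩
    · exact add_nonneg (add_nonneg (tav_nonneg (fun t y _ => X1_nonneg hβ ε μ n t y) y)
        (tav_nonneg (fun t y ht => X2_nonneg μ n ht y) y))
        (tav_nonneg (fun t y _ => X3_nonneg hβ ε μ n t y) y)
    · exact (h4 i y (mem_univ _) j hj).trans (mul_le_mul_of_nonneg_right (by linarith) (hv y))
    · exact add_nonneg (tav_nonneg (fun t y _ => X1_nonneg hβ ε μ n t y) y)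
        (tav_nonneg (fun t y _ => X3_nonneg hβ ε μ n t y) y)
    · exact (h3 i y (mem_univ _) j hj).trans (mul_le_mul_of_nonneg_right (by linarith) (hv y))

end

end TG


end

section

/-!
# MODULE UB: smoothness and simple bounds of W, G, q, Υ and H_n

All derivatives fall on v, no smoothness of the kernel is used.
-/

open MeasureTheory Metric Set Filter Topology TrI
open scoped InnerProductSpace ContDiff

set_option linter.unusedSectionVars false

namespace TG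

noncomputable section

namespace UB

/-! ## composition with a function of one variable -/

section comp

variable {ι P : Type*} [NormedAddCommGroup P] [NormedSpace ℝ P] {U : Set P}

theorem comp1 (hU : IsOpen U) {N : ℕ} {f : ι → P → ℝ} (hf : BdN N U (fun _ _ => (1 : ℝ)) f) :
    ∀ φ : ℝ → ℝ, ContDiff ℝ ∞ φ → BdN N U (fun _ _ => (1 : ℝ)) (fun i p => φ (f i p)) := by
  obtain ⟨C, hC, h0⟩ := hf.zeroth
  have hz : ∀ φ : ℝ → ℝ, Continuous φ → ∃ B : ℝ, 0 ≤ B ∧ ∀ i, ∀ p ∈ U, ‖φ (f i p)‖ ≤ B * 1 := by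
    intro φ hφ
    obtain ⟨B, hB⟩ := isCompact_Icc.exists_bound_of_continuousOn (s := Icc (-C) C)
      hφ.continuousOn
    refine ⟨max B 0, le_max_right _ _, fun i p hp => ?_⟩
    have h1 := h0 i p hp
    rw [mul_one, Real.norm_eq_abs] at h1
    rw [mul_one]
    exact (hB _ ⟨by linarith [neg_abs_le (f i p)], by linarith [le_abs_self (f i p)]⟩).trans
      (le_max_left _ _)
  have hs : ∀ φ : ℝ → ℝ, ContDiff ℝ ∞ φ → ∀ i, ContDiffOn ℝ ∞ (fun p => φ (f i p)) U :=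
    fun φ hφ i => hφ.comp_contDiffOn (hf.smooth i)
  induction N with
  | zero =>
    intro φ hφ
    obtain ⟨B, hB, h1⟩ := hz φ hφ.continuous
    refine ⟨hs φ hφ, B, hB, fun i p hp j hj => ?_⟩
    obtain rfl : j = 0 := by omega
    rw [norm_iteratedFDeriv_zero]
    exact h1 i p hp
  | succ N ih =>
    intro φ hφ
    obtain ⟨B, hB, h1⟩ := hz φ hφ.continuous
    have hφ' : ContDiff ℝ ∞ (deriv φ) := (contDiff_infty_iff_deriv.1 hφ).2
    have h2 := (ih (hf.of_le (Nat.le_succ N)) (deriv φ) hφ').smul hU (hf.D hU)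
    have h3 : BdN N U (fun (_ : ι) _ => (1 : ℝ)) (fun i => fderiv ℝ (fun p => φ (f i p))) := by
      refine (h2.mono (B := 1) (w' := fun (_ : ι) _ => (1 : ℝ)) zero_le_one
        (fun i p hp => by norm_num)).congr hU (fun i p hp => ?_)
      have hd : DifferentiableAt ℝ (f i) p :=
        ((hf.smooth i).contDiffAt (hU.mem_nhds hp)).differentiableAt (by norm_num)
      have hφd : HasDerivAt φ (deriv φ (f i p)) (f i p) :=
        (hφ.differentiable (by norm_num)).differentiableAt.hasDerivAt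
      exact (hφd.comp_hasFDerivAt p hd.hasFDerivAt).fderiv
    exact BdN.of_fderiv (hs φ hφ) h3 hB (fun _ _ _ => zero_le_one) h1

end comp

variable {ι : Type*} {d : ℕ}

/-! ## the cut-off -/

lemma cut_nonneg (r : ℝ) : 0 ≤ cut r := sq_nonneg _

lemma cut_le_one (r : ℝ) : cut r ≤ 1 := by
  unfold cut
  have h1 := Real.smoothTransition.le_one (2 - 2 * r)
  have h2 := Real.smoothTransition.nonneg (2 - 2 * r)
  nlinarith

lemma cut_one {r : ℝ} (h : r ≤ 1 / 2) : cut r = 1 := by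
  unfold cut
  rw [Real.smoothTransition.one_of_one_le (by linarith), one_pow]

lemma cut_zero {r : ℝ} (h : 1 ≤ r) : cut r = 0 := by
  unfold cut
  rw [Real.smoothTransition.zero_of_nonpos (by linarith)]
  norm_num

lemma cut_smooth : ContDiff ℝ ∞ cut := by
  unfold cut
  exact (Real.smoothTransition.contDiff.comp (contDiff_const.sub
    (contDiff_const.mul contDiff_id))).pow 2

/-- the cut-off of the ball of radius A -/
def cA (A : ℝ) (x : Sp d) : ℝ := cut (‖x‖ / A)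

lemma cA_smooth {A : ℝ} (hA : 0 < A) : ContDiff ℝ ∞ (cA A : Sp d → ℝ) := by
  rw [contDiff_iff_contDiffAt]
  intro x
  by_cases hx : x = 0
  · subst hx
    have h1 : (cA A : Sp d → ℝ) =ᶠ[𝓝 0] fun _ => 1 := by
      filter_upwards [ball_mem_nhds (0 : Sp d) (by positivity : (0 : ℝ) < A / 2)] with y hy
      rw [mem_ball, dist_zero_right] at hy
      refine cut_one ?_
      rw [div_le_iff₀ hA]
      linarith
    exact contDiffAt_const.congr_of_eventuallyEq h1
  · exact cut_smooth.contDiffAt.comp x ((contDiffAt_norm ℝ hx).div_const A)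

lemma cA_cs {A : ℝ} (hA : 0 < A) : HasCompactSupport (cA A : Sp d → ℝ) := by
  refine HasCompactSupport.intro (isCompact_closedBall (0 : Sp d) A) fun y hy => ?_
  rw [mem_closedBall, dist_zero_right, not_le] at hy
  exact cut_zero ((one_le_div₀ hA).2 hy.le)

lemma cA_bd {A : ℝ} (hA : 0 < A) (N : ℕ) :
    BdN N univ (fun (_ : ι) _ => (1 : ℝ)) (fun (_ : ι) (x : Sp d) => cA A x) := by
  have hs : ContDiff ℝ ∞ (cA A : Sp d → ℝ) := cA_smooth hA
  have h1 : ∀ j : ℕ, ∃ B : ℝ, ∀ x, ‖iteratedFDeriv ℝ j (cA A : Sp d → ℝ) x‖ ≤ B := fun j =>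
    (hs.continuous_iteratedFDeriv (by exact_mod_cast le_top)).bounded_above_of_compact_support
      ((cA_cs hA).iteratedFDeriv j)
  choose B hB using h1
  refine ⟨fun _ => hs.contDiffOn, ∑ j ∈ Finset.range (N + 1), |B j|,
    Finset.sum_nonneg fun _ _ => abs_nonneg _, fun i x _ j hj => ?_⟩
  rw [mul_one]
  exact ((hB j x).trans (le_abs_self _)).trans
    (Finset.single_le_sum (f := fun j => |B j|) (fun _ _ => abs_nonneg _)
      (Finset.mem_range.2 (by omega)))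

/-- the kernel of q -/
def qk (A : ℝ) (_ : ι) (p : ℝ × Sp d) : ℝ := cA A p.2 * kk p.1 p.2

lemma qk_bd {A : ℝ} (hA : 0 < A) (N : ℕ) :
    BdN N (SL d) (fun (_ : ι) p => kk p.1 p.2) (qk A) := by
  have h1 : BdN N (SL d) (fun (_ : ι) _ => (1 : ℝ)) (fun (_ : ι) (p : ℝ × Sp d) => cA A p.2) := by
    obtain ⟨C, hC, h2⟩ := (cA_bd (ι := ι) (d := d) hA N).bd
    refine ⟨fun _ => ((cA_smooth hA).comp contDiff_snd).contDiffOn, C, hC,
      fun i p hp j hj => ?_⟩
    have h3 := (ContinuousLinearMap.snd ℝ ℝ (Sp d)).iteratedFDeriv_comp_right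
      (f := (cA A : Sp d → ℝ)) (cA_smooth hA) p (i := j) (by exact_mod_cast le_top)
    have h4 : ((cA A : Sp d → ℝ) ∘ (ContinuousLinearMap.snd ℝ ℝ (Sp d))) =
        fun p : ℝ × Sp d => cA A p.2 := rfl
    rw [h4] at h3
    rw [h3]
    refine (ContinuousMultilinearMap.norm_compContinuousLinearMap_le _ _).trans ?_
    rw [Finset.prod_const, Finset.card_univ, Fintype.card_fin]
    have h5 : ‖ContinuousLinearMap.snd ℝ ℝ (Sp d)‖ ^ j ≤ 1 :=
      pow_le_one₀ (norm_nonneg _) (ContinuousLinearMap.norm_snd_le ℝ ℝ (Sp d))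
    have h6 := h2 i p.2 (mem_univ _) j hj
    calc _ ≤ ‖iteratedFDeriv ℝ j (cA A : Sp d → ℝ) p.2‖ * 1 :=
          mul_le_mul_of_nonneg_left h5 (norm_nonneg _)
      _ ≤ _ := by rw [mul_one]; exact h6
  exact ((h1.mul isOpen_SL (kk_bd N)).mono (B := 1) (w' := fun (_ : ι) p => kk p.1 p.2)
    zero_le_one (fun i p hp => by rw [one_mul]))

section main

variable (h : StmtTH) (hd : 2 ≤ d) {C' : ℝ} (hC' : 0 < C') {μ : ι → Measure (Sp d)}
    (hμ : ∀ i, Gro C' (μ i)) (N : ℕ) {J : ℕ} {M ε p0 A : ℝ} (hε0 : 0 < ε) (hε : ε ≤ 1)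
    (hp0 : 0 < p0) (hA : 0 < A)
    {β : ι → Sp d → ℝ} (hβ : ∀ i, Kit J M (β i)) {n : ι → Sp d} (hn : ∀ i, ‖n i‖ = 1)

include h hd hC' hμ

lemma th_pos (i : ι) {t : ℝ} (ht : 0 < t) (y : Sp d) : 0 < th (μ i) t y := by
  obtain ⟨C, hC, h1⟩ := h d 0 hd C' hC'
  exact ((h1 (μ i) (hμ i)).1 t y ht).1

/-- q at time one -/
theorem qq_bd (hA : 0 < A) :
    BdN N univ (fun (_ : ι) _ => (1 : ℝ)) (fun i => qq A (μ i) 1) := by
  have h1 := pot_bd hμ (N := N) (q := qk A) (fun N' => qk_bd hA N')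
  have h2 : BdN N (SL d) (fun i p => th (μ i) p.1 p.2) (fun i p => th (μ i) p.1 p.2) :=
    pot_bd hμ (N := N) (q := fun (_ : ι) p => kk p.1 p.2) (fun N' => kk_bd N')
  have hpos : ∀ i, ∀ p ∈ SL d, 0 < th (μ i) p.1 p.2 := fun i p hp =>
    th_pos h hd hC' hμ i (SL_pos hp) _
  have h3 := ((h1.div isOpen_SL hpos h2).mono (B := 1) (w' := fun (_ : ι) _ => (1 : ℝ))
    zero_le_one (fun i p hp => by
      have := hpos i p hp
      rw [div_self this.ne', mul_one])).slice (t := 1) (by norm_num) (by norm_num)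
  refine h3.congr isOpen_univ (fun i y _ => ?_)
  unfold qq qk cA
  rw [mul_one]

/-- Υ at time one -/
theorem Ups_bd (hA : 0 < A) :
    BdN N univ (fun (_ : ι) _ => (1 : ℝ)) (fun i => Ups p0 A (μ i) 1) := by
  have h1 := comp1 isOpen_univ (qq_bd h hd hC' hμ N hA)
    (fun x => Real.smoothTransition (2 * x / p0 - 1)) (by
      exact Real.smoothTransition.contDiff.comp (((contDiff_const.mul contDiff_id).div_const _).sub
        contDiff_const))
  exact h1

omit h hd hC' hμ in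
lemma clm1 {N : ℕ} {w : ι → Sp d → ℝ} {f : ι → Sp d → ℝ} (hf : BdN (N + 1) univ w f)
    {e : ι → Sp d} (he : ∀ i, ‖e i‖ ≤ 1) :
    BdN N univ w (fun i y => fderiv ℝ (f i) y (e i)) := by
  refine (hf.D isOpen_univ).clm isOpen_univ (fun i => ContinuousLinearMap.apply ℝ ℝ (e i)) (B := 1)
    (fun i => ?_)
  refine ContinuousLinearMap.opNorm_le_bound _ zero_le_one fun φ => ?_
  rw [ContinuousLinearMap.apply_apply, one_mul]
  exact (φ.le_opNorm _).trans (by nlinarith [he i, norm_nonneg φ])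

omit h hd hC' hμ in
lemma clm2 {N : ℕ} {w : ι → Sp d → ℝ} {f : ι → Sp d → ℝ} (hf : BdN (N + 1 + 1) univ w f)
    {e : ι → Sp d} (he : ∀ i, ‖e i‖ ≤ 1) :
    BdN N univ w (fun i y => iteratedFDeriv ℝ 2 (f i) y (fun _ => e i)) := by
  have h1 := ((hf.D isOpen_univ).D isOpen_univ).clm isOpen_univ
    (fun i => ContinuousLinearMap.apply ℝ _ (e i)) (B := 1)
    (fun i => by
      refine ContinuousLinearMap.opNorm_le_bound _ zero_le_one fun φ => ?_
      rw [ContinuousLinearMap.apply_apply, one_mul]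
      exact (φ.le_opNorm _).trans (by nlinarith [he i, norm_nonneg φ]))
  have h2 := h1.clm isOpen_univ (fun i => ContinuousLinearMap.apply ℝ ℝ (e i)) (B := 1)
    (fun i => by
      refine ContinuousLinearMap.opNorm_le_bound _ zero_le_one fun φ => ?_
      rw [ContinuousLinearMap.apply_apply, one_mul]
      exact (φ.le_opNorm _).trans (by nlinarith [he i, norm_nonneg φ]))
  refine h2.congr isOpen_univ (fun i y _ => ?_)
  rw [iteratedFDeriv_two_apply]
  rfl

omit h hd hC' hμ in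
lemma inner_tangs {m a b : Sp d} (hm : ‖m‖ = 1) :
    ⟪tang m a, tang m b⟫_ℝ = (∑ j : Fin d, ⟪a, EuclideanSpace.single j (1 : ℝ)⟫_ℝ *
      ⟪b, EuclideanSpace.single j (1 : ℝ)⟫_ℝ) - ⟪a, m⟫_ℝ * ⟪b, m⟫_ℝ := by
  have h1 : ⟪tang m a, tang m b⟫_ℝ = ⟪a, b⟫_ℝ - ⟪a, m⟫_ℝ * ⟪b, m⟫_ℝ := by
    unfold tang
    rw [inner_sub_left, inner_sub_right, inner_sub_right, inner_smul_left, inner_smul_right,
      inner_smul_right, inner_smul_left, real_inner_self_eq_norm_sq, hm, real_inner_comm m a,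
      real_inner_comm m b]
    simp only [conj_trivial]
    ring
  have h2 : ⟪a, b⟫_ℝ = ∑ j : Fin d, ⟪a, EuclideanSpace.single j (1 : ℝ)⟫_ℝ *
      ⟪b, EuclideanSpace.single j (1 : ℝ)⟫_ℝ := by
    rw [PiLp.inner_apply]
    refine Finset.sum_congr rfl fun j _ => ?_
    rw [EuclideanSpace.inner_single_right, EuclideanSpace.inner_single_right]
    simp [mul_comm]
  rw [h1, h2]

omit h hd hC' hμ in
lemma inner_gradient' (g : Sp d → ℝ) (y w : Sp d) : ⟪gradient g y, w⟫_ℝ = fderiv ℝ g y w :=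
  inner_gradient_left

include hε0 hε hβ hA hn

/-- H_n at time one -/
theorem Hn_bd : BdN N univ (fun i y => vv (μ i) 1 y)
    (fun i => Hn (β i) ε p0 A (μ i) (n i) 1) := by
  have bW := WW_bd h hd hC' hμ (N + 1 + 1) hε0 hε hβ
  have bG := GG_bd h hd hC' hμ N hε0 hε hβ
  have bU : BdN N univ (fun (_ : ι) _ => (1 : ℝ)) (fun i => Ups p0 A (μ i) 1) :=
    Ups_bd h hd hC' hμ N hA
  have bU1 : BdN (N + 1) univ (fun (_ : ι) _ => (1 : ℝ)) (fun i => Ups p0 A (μ i) 1) :=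
    Ups_bd h hd hC' hμ (N + 1) hA
  have hv : ∀ i, ∀ y ∈ (univ : Set (Sp d)), 0 ≤ vv (μ i) 1 y := fun i y _ => Real.sqrt_nonneg _
  have hw : ∀ (i : ι), ∀ y ∈ (univ : Set (Sp d)),
      (fun (_ : ι) (_ : Sp d) => (1 : ℝ)) i y * vv (μ i) 1 y ≤ 1 * vv (μ i) 1 y :=
    fun i y _ => le_rfl
  have he : ∀ j : Fin d, ∀ _ : ι, ‖(EuclideanSpace.single j (1 : ℝ) : Sp d)‖ ≤ 1 := fun j _ => by
    simp
  have bL := BdN.sum isOpen_univ (Finset.univ : Finset (Fin d)) hv (fun j _ => clm2 bW (he j))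
  have bN := clm2 bW (fun i => (hn i).le)
  have bgn := (bG.sub isOpen_univ bL).add isOpen_univ bN
  have c1 := (bU.mul isOpen_univ bgn).mono (B := 1) (w' := fun i y => vv (μ i) 1 y)
    zero_le_one hw
  have c2 := (((BdN.const (N := N) (U := (univ : Set (Sp d))) (w := fun (_ : ι) _ => (1 : ℝ))
    (fun _ => (1 : ℝ)) (B := 1) zero_le_one (fun i p hp => by simp)).sub isOpen_univ bU).mul
    isOpen_univ bG).mono (B := 1) (w' := fun i y => vv (μ i) 1 y) zero_le_one hw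
  have bW1 := bW.of_le (N' := N + 1) (by omega)
  have c3 := BdN.sum isOpen_univ (Finset.univ : Finset (Fin d)) hv (fun j _ =>
    ((clm1 bU1 (he j)).mul isOpen_univ (clm1 bW1 (he j))).mono (B := 1)
      (w' := fun i y => vv (μ i) 1 y) zero_le_one hw)
  have c4 := ((clm1 bU1 (fun i => (hn i).le)).mul isOpen_univ
    (clm1 bW1 (fun i => (hn i).le))).mono (B := 1) (w' := fun i y => vv (μ i) 1 y) zero_le_one hw
  refine ((c1.add isOpen_univ c2).sub isOpen_univ (c3.sub isOpen_univ c4)).congr isOpen_univ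
    (fun i y _ => ?_)
  unfold Hn
  rw [inner_tangs (hn i)]
  simp only [inner_gradient']
  rfl

end main

/-! ## comparison of v with μ -/

lemma kk_one_le (x : Sp d) : kk 1 x ≤ 1 := by
  unfold kk
  have h1 : 1 ≤ Real.sqrt (1 ^ 2 + ‖x‖ ^ 2) := by
    rw [Real.one_le_sqrt]
    nlinarith [norm_nonneg x]
  rw [div_le_one (by positivity)]
  exact one_le_pow₀ h1

lemma kk_one_ge {x : Sp d} {r : ℝ} (hr : 1 ≤ r) (hx : ‖x‖ ≤ r) :
    1 ≤ (2 * r) ^ d * kk 1 x := by
  unfold kk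
  have h1 : Real.sqrt (1 ^ 2 + ‖x‖ ^ 2) ≤ 2 * r := by
    rw [Real.sqrt_le_left (by positivity)]
    nlinarith [norm_nonneg x]
  have h2 : 0 < Real.sqrt (1 ^ 2 + ‖x‖ ^ 2) := by positivity
  have h3 : Real.sqrt (1 ^ 2 + ‖x‖ ^ 2) ^ d ≤ (2 * r) ^ d := pow_le_pow_left₀ h2.le h1 d
  rw [mul_one_div, one_le_div₀ (by positivity)]
  exact h3

lemma th_int {μ : Measure (Sp d)} [IsFiniteMeasure μ] (y : Sp d) :
    Integrable (fun η => kk 1 (y - η)) μ :=
  kk_int (p := ((1 : ℝ), y)) ⟨by norm_num, by norm_num⟩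

lemma cut_int {μ : Measure (Sp d)} [IsFiniteMeasure μ] (A : ℝ) (y : Sp d) :
    Integrable (fun η => cut (‖y - η‖ / (A * 1)) * kk 1 (y - η)) μ := by
  have hc : Continuous (fun η : Sp d => cut (‖y - η‖ / (A * 1))) :=
    cut_smooth.continuous.comp (by fun_prop)
  refine (th_int y).bdd_mul hc.aestronglyMeasurable (c := 1) (Eventually.of_forall fun η => ?_)
  rw [Real.norm_of_nonneg (cut_nonneg _)]
  exact cut_le_one _

end UB

open _root_.TG.UB in
theorem stmtUB (h : StmtTH) : StmtUB := by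
  intro d J hd M C' ε p0 A hC' hε0 hε hp0 hp01 hA1
  have hA : 0 < A := by linarith
  let ι := IxW d 4 M C'
  have hμ : ∀ i : ι, Gro C' i.μ := fun i => i.hμ
  have hβ : ∀ i : ι, Kit 4 M i.β := fun i => i.hβ
  have hn : ∀ i : ι, ‖i.n‖ = 1 := fun i => i.hn
  have b1 := WW_bd h hd hC' hμ J hε0 hε hβ
  have b2 := GG_bd h hd hC' hμ J hε0 hε hβ
  have b3 : BdN J univ (fun (_ : ι) _ => (1 : ℝ)) (fun i : ι => qq A i.μ 1) :=
    qq_bd h hd hC' hμ J hA
  have b4 : BdN J univ (fun (_ : ι) _ => (1 : ℝ)) (fun i : ι => Ups p0 A i.μ 1) :=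
    Ups_bd h hd hC' hμ J hA
  have b5 : BdN J univ (fun (i : ι) y => vv i.μ 1 y) (fun i : ι => Hn i.β ε p0 A i.μ i.n 1) :=
    Hn_bd h hd hC' hμ J hε0 hε hA hβ hn
  obtain ⟨C1, hC1, h1⟩ := b1.bd
  obtain ⟨C2, hC2, h2⟩ := b2.bd
  obtain ⟨C3, hC3, h3⟩ := b3.bd
  obtain ⟨C4, hC4, h4⟩ := b4.bd
  obtain ⟨C5, hC5, h5⟩ := b5.bd
  refine ⟨C1 + C2 + C3 + C4 + C5 + 2 / p0 + 2 ^ d + 1, by positivity, fun β hβ μ hμ => ?_⟩
  have h2p : 0 < 2 / p0 := by positivity
  have h2d : (0 : ℝ) < 2 ^ d := by positivity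
  -- a unit vector
  obtain ⟨n0, hn0⟩ : ∃ n : Sp d, ‖n‖ = 1 :=
    ⟨EuclideanSpace.single ⟨0, by omega⟩ (1 : ℝ), by simp⟩
  have hv : ∀ y, 0 ≤ vv μ 1 y := fun y => Real.sqrt_nonneg _
  let i0 : ι := ⟨β, μ, n0, hβ, hμ, hn0⟩
  have hfin : IsFiniteMeasure μ := hμ.fin
  have hth : ∀ y, 0 < th μ 1 y := fun y =>
    UB.th_pos (ι := Unit) (μ := fun _ => μ) h hd hC' (fun _ => hμ) () one_pos y
  have hvv : ∀ y, vv μ 1 y ^ 2 = th μ 1 y := fun y => Real.sq_sqrt (hth y).le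
  have hkn : ∀ y η : Sp d, 0 ≤ kk 1 (y - η) := fun y η => kk_nonneg zero_le_one _
  have hnum0 : ∀ y, 0 ≤ ∫ η, cut (‖y - η‖ / (A * 1)) * kk 1 (y - η) ∂μ := fun y =>
    integral_nonneg fun η => mul_nonneg (cut_nonneg _) (hkn y η)
  refine ⟨contDiffOn_univ.mp (b1.smooth i0), contDiffOn_univ.mp (b2.smooth i0),
    fun j hj y => ?_, fun j hj y => ?_, fun y => ⟨?_, ?_⟩, contDiffOn_univ.mp (b3.smooth i0),
    fun j hj y => ?_, contDiffOn_univ.mp (b4.smooth i0), fun j hj y => ?_, fun n hn => ?_,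
    fun y hy => ?_, fun y r hr => ?_⟩
  · exact (h1 i0 y (mem_univ _) j hj).trans (mul_le_mul_of_nonneg_right (by linarith) (hv y))
  · exact (h2 i0 y (mem_univ _) j hj).trans (mul_le_mul_of_nonneg_right (by linarith) (hv y))
  · exact div_nonneg (hnum0 y) (hth y).le
  · unfold qq
    rw [div_le_one (hth y)]
    unfold th
    refine integral_mono (cut_int A y) (th_int y) fun η => ?_
    exact mul_le_of_le_one_left (hkn y η) (cut_le_one _)
  · have := h3 i0 y (mem_univ _) j hj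
    rw [mul_one] at this
    exact this.trans (by linarith)
  · have := h4 i0 y (mem_univ _) j hj
    rw [mul_one] at this
    exact this.trans (by linarith)
  · let i : ι := ⟨β, μ, n, hβ, hμ, hn⟩
    exact ⟨contDiffOn_univ.mp (b5.smooth i), fun j hj y =>
      (h5 i y (mem_univ _) j hj).trans (mul_le_mul_of_nonneg_right (by linarith) (hv y))⟩
  · have hb : ∫ η, cut (‖y - η‖ / (A * 1)) * kk 1 (y - η) ∂μ ≤ (μ (ball y A)).toReal := by
      have e1 : ∀ η, cut (‖y - η‖ / (A * 1)) * kk 1 (y - η) ≤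
          (ball y A).indicator (fun _ => (1 : ℝ)) η := by
        intro η
        by_cases hη : η ∈ ball y A
        · rw [indicator_of_mem hη]
          calc cut (‖y - η‖ / (A * 1)) * kk 1 (y - η) ≤ 1 * kk 1 (y - η) :=
                mul_le_mul_of_nonneg_right (cut_le_one _) (hkn y η)
            _ ≤ 1 := by rw [one_mul]; exact kk_one_le _
        · rw [indicator_of_notMem hη]
          rw [mem_ball, dist_eq_norm, not_lt, norm_sub_rev] at hη
          rw [cut_zero (by rw [mul_one]; exact (one_le_div₀ hA).2 hη), zero_mul]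
      calc ∫ η, cut (‖y - η‖ / (A * 1)) * kk 1 (y - η) ∂μ
          ≤ ∫ η, (ball y A).indicator (fun _ => (1 : ℝ)) η ∂μ :=
            integral_mono (cut_int A y)
              ((integrable_const (1 : ℝ)).indicator measurableSet_ball) e1
        _ = (μ (ball y A)).toReal := by
            rw [integral_indicator_const _ measurableSet_ball]
            simp [Measure.real]
    have e2 : p0 / 2 * th μ 1 y ≤ (μ (ball y A)).toReal := by
      unfold qq at hy
      rw [le_div_iff₀ (hth y)] at hy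
      exact hy.trans hb
    have e3 : vv μ 1 y ^ 2 ≤ 2 / p0 * (μ (ball y A)).toReal := by
      rw [hvv]
      calc th μ 1 y = 2 / p0 * (p0 / 2 * th μ 1 y) := by field_simp
        _ ≤ _ := mul_le_mul_of_nonneg_left e2 h2p.le
    exact e3.trans (mul_le_mul_of_nonneg_right (by linarith) ENNReal.toReal_nonneg)
  · have e1 : ∀ η, (ball y r).indicator (fun _ => (1 : ℝ)) η ≤ (2 * r) ^ d * kk 1 (y - η) := by
      intro η
      by_cases hη : η ∈ ball y r
      · rw [indicator_of_mem hη]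
        rw [mem_ball, dist_eq_norm, norm_sub_rev] at hη
        exact kk_one_ge hr hη.le
      · rw [indicator_of_notMem hη]
        exact mul_nonneg (by positivity) (hkn y η)
    have e2 : (μ (ball y r)).toReal ≤ (2 * r) ^ d * th μ 1 y := by
      calc (μ (ball y r)).toReal = ∫ η, (ball y r).indicator (fun _ => (1 : ℝ)) η ∂μ := by
            rw [integral_indicator_const _ measurableSet_ball]
            simp [Measure.real]
        _ ≤ ∫ η, (2 * r) ^ d * kk 1 (y - η) ∂μ :=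
            integral_mono ((integrable_const (1 : ℝ)).indicator measurableSet_ball)
              ((th_int y).const_mul _) e1
        _ = _ := by rw [integral_const_mul]; rfl
    rw [hvv]
    refine e2.trans (mul_le_mul_of_nonneg_right ?_ (hth y).le)
    rw [mul_pow]
    have e3 : r ^ d ≤ r ^ (d + 1) := pow_le_pow_right₀ hr (by omega)
    have e4 : 0 ≤ r ^ (d + 1) := by positivity
    calc (2 : ℝ) ^ d * r ^ d ≤ 2 ^ d * r ^ (d + 1) := mul_le_mul_of_nonneg_left e3 h2d.le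
      _ ≤ _ := mul_le_mul_of_nonneg_right (by linarith) e4

end

end TG


end
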