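import Mathlib
import Pool.Agent.TRM.C01

/-! Parts: TR.Basic1, TR.Basic, TR.KD -/

section

/-!
# Basic facts on the averages, part 1
-/

open MeasureTheory Metric Set
open scoped InnerProductSpace ContDiff Pointwise

set_option linter.unusedSectionVars false

namespace TrI

noncomputable section

variable {d : ℕ}

/-! ## the kernel -/

lemma bk_nonneg (y : Sp d) : 0 ≤ bk d y := (bmp d).nonneg_normed y

lemma bk_contDiff : ContDiff ℝ ∞ (bk d) := (bmp d).contDiff_normed

lemma bk_cont : Continuous (bk d) := (bmp d).continuous_normed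

lemma bk_int : ∫ y, bk d y = 1 := (bmp d).integral_normed

lemma bk_integrable : Integrable (bk d) := (bmp d).integrable_normed

lemma bk_neg (y : Sp d) : bk d (-y) = bk d y := (bmp d).normed_neg y

lemma bk_zero {y : Sp d} (h : 1 ≤ ‖y‖) : bk d y = 0 := by
  have h1 : y ∉ Function.support (bk d) := by
    have : Function.support (bk d) = ball 0 (bmp d).rOut := (bmp d).support_normed_eq
    rw [this]
    simp only [mem_ball, dist_zero_right, not_lt]
    exact h
  simpa using h1

lemma bk_eq {y : Sp d} (h : ‖y‖ ≤ 9 / 10) : bk d y = bk d 0 := by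
  unfold bk
  rw [ContDiffBump.normed_def, ContDiffBump.normed_def]
  rw [(bmp d).one_of_mem_closedBall, (bmp d).one_of_mem_closedBall]
  · simp [bmp]; norm_num
  · simpa [bmp] using h

lemma bk_le (y : Sp d) : bk d y ≤ bk d 0 := by
  unfold bk
  rw [ContDiffBump.normed_def, ContDiffBump.normed_def]
  have h0 : (bmp d) 0 = 1 := (bmp d).one_of_mem_closedBall (by simp [bmp]; norm_num)
  rw [h0]
  have := (bmp d).integral_pos (μ := volume)
  (clear * - this; gcongr)
  exact (bmp d).le_one

lemma bk_zero_pos : 0 < bk d 0 := by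
  unfold bk
  rw [ContDiffBump.normed_def]
  have h0 : (bmp d) 0 = 1 := (bmp d).one_of_mem_closedBall (by simp [bmp]; norm_num)
  rw [h0]
  have := (bmp d).integral_pos (μ := volume)
  (clear * - this; positivity)

lemma sc_pos {s0 : ℝ} (h : 0 < s0) (j : ℕ) : 0 < sc s0 j := by
  unfold sc; positivity

lemma sc_succ (s0 : ℝ) (j : ℕ) : sc s0 (j + 1) = 8 * sc s0 j := by
  unfold sc; ring

lemma sc_add (s0 : ℝ) (j k : ℕ) : sc s0 (j + k) = 8 ^ k * sc s0 j := by
  unfold sc; ring

section LBfacts

variable {F : Type*} [NormedAddCommGroup F] [NormedSpace ℝ F] {g h : Sp d → F}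

lemma LB.of_cont (hg : Continuous g) : LB g where
  meas := hg.stronglyMeasurable
  bd := by
    intro R
    obtain ⟨M, hM⟩ := (isCompact_closedBall (0 : Sp d) R).exists_bound_of_continuousOn
      hg.continuousOn
    exact ⟨M, fun x hx => hM x (by simpa using hx)⟩

lemma LB.of_bdd (hm : StronglyMeasurable g) {M : ℝ} (hb : ∀ x, ‖g x‖ ≤ M) : LB g where
  meas := hm
  bd := fun _ => ⟨M, fun x _ => hb x⟩

lemma LB.add (hg : LB g) (hh : LB h) : LB (fun x => g x + h x) where
  meas := hg.meas.add hh.meas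
  bd := by
    intro R
    obtain ⟨M, hM⟩ := hg.bd R
    obtain ⟨M', hM'⟩ := hh.bd R
    exact ⟨M + M', fun x hx => (norm_add_le _ _).trans (add_le_add (hM x hx) (hM' x hx))⟩

lemma LB.sub (hg : LB g) (hh : LB h) : LB (fun x => g x - h x) where
  meas := hg.meas.sub hh.meas
  bd := by
    intro R
    obtain ⟨M, hM⟩ := hg.bd R
    obtain ⟨M', hM'⟩ := hh.bd R
    exact ⟨M + M', fun x hx => (norm_sub_le _ _).trans (add_le_add (hM x hx) (hM' x hx))⟩

lemma LB.neg (hg : LB g) : LB (fun x => - g x) where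
  meas := hg.meas.neg
  bd := by
    intro R
    obtain ⟨M, hM⟩ := hg.bd R
    exact ⟨M, fun x hx => by simpa using hM x hx⟩

lemma LB.smul {c : Sp d → ℝ} (hc : LB c) (hg : LB g) : LB (fun x => c x • g x) where
  meas := hc.meas.smul hg.meas
  bd := by
    intro R
    obtain ⟨M, hM⟩ := hc.bd R
    obtain ⟨M', hM'⟩ := hg.bd R
    refine ⟨|M| * |M'|, fun x hx => ?_⟩
    rw [norm_smul]
    exact mul_le_mul ((hM x hx).trans (le_abs_self M)) ((hM' x hx).trans (le_abs_self M'))
      (norm_nonneg _) (abs_nonneg _)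

lemma LB.const_mul {g : Sp d → ℝ} (hg : LB g) (c : ℝ) : LB (fun x => c * g x) where
  meas := hg.meas.const_mul c
  bd := by
    intro R
    obtain ⟨M, hM⟩ := hg.bd R
    refine ⟨|c| * M, fun x hx => ?_⟩
    rw [norm_mul]
    exact mul_le_mul_of_nonneg_left (hM x hx) (abs_nonneg _)

lemma LB.norm (hg : LB g) : LB (fun x => ‖g x‖) where
  meas := hg.meas.norm
  bd := by
    intro R
    obtain ⟨M, hM⟩ := hg.bd R
    exact ⟨M, fun x hx => by simpa using hM x hx⟩

lemma LB.comp_add (hg : LB g) (a : Sp d) : LB (fun x => g (x + a)) where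
  meas := hg.meas.comp_measurable (by fun_prop)
  bd := by
    intro R
    obtain ⟨M, hM⟩ := hg.bd (R + ‖a‖)
    exact ⟨M, fun x hx => hM _ ((norm_add_le _ _).trans (by linarith))⟩

lemma LB.comp_smul (hg : LB g) (x : Sp d) (s : ℝ) : LB (fun y => g (x + s • y)) where
  meas := hg.meas.comp_measurable (by fun_prop)
  bd := by
    intro R
    obtain ⟨M, hM⟩ := hg.bd (‖x‖ + |s| * |R|)
    refine ⟨M, fun y hy => hM _ ((norm_add_le _ _).trans ?_)⟩
    rw [norm_smul, Real.norm_eq_abs]
    have : ‖y‖ ≤ |R| := hy.trans (le_abs_self R)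
    gcongr

lemma LB.indicator (hg : LB g) {S : Set (Sp d)} (hS : MeasurableSet S) : LB (S.indicator g) where
  meas := hg.meas.indicator hS
  bd := by
    intro R
    obtain ⟨M, hM⟩ := hg.bd R
    refine ⟨M, fun x hx => ?_⟩
    exact (norm_indicator_le_norm_self _ _).trans (hM x hx)

lemma LB.zero : LB (fun _ : Sp d => (0 : F)) := LB.of_cont continuous_const

lemma LB.sum {ι : Type*} (s : Finset ι) {G : ι → Sp d → F} (hG : ∀ i ∈ s, LB (G i)) :
    LB (fun x => ∑ i ∈ s, G i x) := by
  classical
  induction s using Finset.induction_on with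
  | empty => simpa using LB.zero
  | insert i s hi ih =>
    simp only [Finset.sum_insert hi]
    exact (hG i (Finset.mem_insert_self i s)).add
      (ih fun j hj => hG j (Finset.mem_insert_of_mem hj))

lemma LB.integrableOn (hg : LB g) {S : Set (Sp d)} (hS : Bornology.IsBounded S) :
    IntegrableOn g S := by
  obtain ⟨R, hR⟩ := hS.subset_closedBall 0
  obtain ⟨M, hM⟩ := hg.bd R
  have h1 : IntegrableOn g (closedBall 0 R) := by
    refine Measure.integrableOn_of_bounded (M := M) ?_ hg.meas.aestronglyMeasurable ?_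
    · exact measure_closedBall_lt_top.ne
    · filter_upwards [ae_restrict_mem measurableSet_closedBall] with x hx
      exact hM x (by simpa using hx)
  exact h1.mono_set hR

/-- integrability against a continuous compactly supported function -/
lemma LB.integrable_smul (hg : LB g) {ψ : Sp d → ℝ} (hψ : Continuous ψ) {R : ℝ}
    (hR : ∀ y, R ≤ ‖y‖ → ψ y = 0) : Integrable (fun y => ψ y • g y) := by
  have h1 : IntegrableOn (fun y => ψ y • g y) (ball 0 R) :=
    ((LB.of_cont hψ).smul hg).integrableOn isBounded_ball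
  rw [← integrableOn_univ]
  refine h1.of_forall_sdiff_eq_zero MeasurableSet.univ ?_
  intro x hx
  rw [hR x (by simpa using hx), zero_smul]

lemma LB.av_integrable (hg : LB g) (s : ℝ) (x : Sp d) :
    Integrable (fun y => bk d y • g (x + s • y)) :=
  (hg.comp_smul x s).integrable_smul bk_cont (R := 1) fun _ hy => bk_zero hy

lemma LB.inner_const {E : Type*} [NormedAddCommGroup E] [InnerProductSpace ℝ E] {g : Sp d → E}
    (hg : LB g) (e : E) : LB (fun x => ⟪g x, e⟫_ℝ) where
  meas := by
    have : Continuous fun v : E => ⟪v, e⟫_ℝ := by fun_prop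
    exact this.comp_stronglyMeasurable hg.meas
  bd := by
    intro R
    obtain ⟨M, hM⟩ := hg.bd R
    refine ⟨M * ‖e‖, fun x hx => ?_⟩
    exact (norm_inner_le_norm _ _).trans (mul_le_mul_of_nonneg_right (hM x hx) (norm_nonneg _))

/-! ## one average -/

lemma av_def (s : ℝ) (g : Sp d → F) (x : Sp d) : av s g x = ∫ y, bk d y • g (x + s • y) := rfl

lemma av_zero_scale [CompleteSpace F] (g : Sp d → F) (x : Sp d) : av 0 g x = g x := by
  rw [av_def]
  simp only [zero_smul, add_zero]
  rw [integral_smul_const, bk_int, one_smul]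

/-- bound of an average by a bound of g near x -/
lemma norm_av_le_of_bound {g : Sp d → F} {s : ℝ} {x : Sp d} {M : ℝ}
    (hM : ∀ z, ‖z - x‖ ≤ |s| → ‖g z‖ ≤ M) : ‖av s g x‖ ≤ M := by
  have hM0 : 0 ≤ M := (norm_nonneg _).trans (hM x (by simp))
  have h1 : ‖av s g x‖ ≤ ∫ y, bk d y * M := by
    refine norm_integral_le_of_norm_le (bk_integrable.mul_const M) ?_
    refine Filter.Eventually.of_forall fun y => ?_
    rw [norm_smul, Real.norm_eq_abs, abs_of_nonneg (bk_nonneg y)]
    by_cases hy : 1 ≤ ‖y‖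
    · rw [bk_zero hy]; simp
    · refine mul_le_mul_of_nonneg_left (hM _ ?_) (bk_nonneg y)
      rw [add_sub_cancel_left, norm_smul, Real.norm_eq_abs]
      push Not at hy
      nlinarith [abs_nonneg s, norm_nonneg y]
  rwa [integral_mul_const, bk_int, one_mul] at h1

lemma LB.av (hg : LB g) (s : ℝ) : LB (av s g) where
  meas := by
    have h2 : StronglyMeasurable (Function.uncurry fun (x y : Sp d) => bk d y • g (x + s • y)) := by
      refine StronglyMeasurable.smul (f := fun p : Sp d × Sp d => bk d p.2) ?_ ?_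
      · exact (bk_cont.comp continuous_snd).stronglyMeasurable
      · exact hg.meas.comp_measurable
          (show Measurable fun p : Sp d × Sp d => p.1 + s • p.2 by fun_prop)
    exact h2.integral_prod_right
  bd := by
    intro R
    obtain ⟨M, hM⟩ := hg.bd (R + |s|)
    refine ⟨M, fun x hx => norm_av_le_of_bound fun z hz => hM z ?_⟩
    have : ‖z‖ ≤ ‖x‖ + ‖z - x‖ := by
      have := norm_add_le x (z - x)
      rwa [add_sub_cancel] at this
    linarith

lemma av_cs (hg : HasCompactSupport g) (s : ℝ) : HasCompactSupport (av s g) := by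
  obtain ⟨R, hR⟩ := hg.isCompact.isBounded.subset_closedBall (0 : Sp d)
  refine HasCompactSupport.of_support_subset_isCompact (isCompact_closedBall (0 : Sp d) (R + |s|)) ?_
  intro x hx
  by_contra hx'
  apply hx
  have h1 : ‖av s g x‖ ≤ 0 := by
    refine norm_av_le_of_bound fun z hz => ?_
    have : g z = 0 := by
      by_contra hz'
      have h2 : z ∈ closedBall (0 : Sp d) R := hR (subset_tsupport _ hz')
      rw [mem_closedBall, dist_zero_right] at h2 hx'
      have : ‖x‖ ≤ ‖z‖ + ‖z - x‖ := by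
        have := norm_sub_le z (z - x)
        rwa [sub_sub_cancel] at this
      linarith
    simp [this]
  simpa using h1

lemma av_eq_setIntegral (s : ℝ) (g : Sp d → F) (x : Sp d) :
    av s g x = ∫ y in closedBall (0 : Sp d) 1, bk d y • g (x + s • y) := by
  rw [av_def, setIntegral_eq_integral_of_forall_compl_eq_zero]
  intro y hy
  rw [bk_zero, zero_smul]
  simp only [mem_closedBall, dist_zero_right, not_le] at hy
  exact hy.le

lemma av_cont (hg : Continuous g) (s : ℝ) : Continuous (av s g) := by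
  have h2 : Continuous (Function.uncurry fun (x y : Sp d) => bk d y • g (x + s • y)) := by
    refine Continuous.smul (bk_cont.comp continuous_snd) (hg.comp ?_)
    fun_prop
  have h3 := continuous_parametric_integral_of_continuous (μ := volume) h2
    (isCompact_closedBall (0 : Sp d) 1)
  refine h3.congr fun x => ?_
  exact (av_eq_setIntegral s g x).symm

lemma av_add (hg : LB g) (hh : LB h) (s : ℝ) (x : Sp d) :
    av s (fun z => g z + h z) x = av s g x + av s h x := by
  simp only [av_def, smul_add]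
  exact integral_add (hg.av_integrable s x) (hh.av_integrable s x)

lemma av_sub (hg : LB g) (hh : LB h) (s : ℝ) (x : Sp d) :
    av s (fun z => g z - h z) x = av s g x - av s h x := by
  simp only [av_def, smul_sub]
  exact integral_sub (hg.av_integrable s x) (hh.av_integrable s x)

lemma av_smul (c : ℝ) (s : ℝ) (x : Sp d) : av s (fun z => c • g z) x = c • av s g x := by
  simp only [av_def]
  rw [← integral_smul]
  congr 1
  ext y
  rw [smul_comm]

lemma av_mul (c : ℝ) (g : Sp d → ℝ) (s : ℝ) (x : Sp d) :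
    av s (fun z => c * g z) x = c * av s g x := av_smul c s x

lemma av_sum {ι : Type*} (S : Finset ι) {G : ι → Sp d → F} (hG : ∀ i ∈ S, LB (G i)) (s : ℝ)
    (x : Sp d) : av s (fun z => ∑ i ∈ S, G i z) x = ∑ i ∈ S, av s (G i) x := by
  simp only [av_def, Finset.smul_sum]
  exact integral_finsetSum S fun i hi => (hG i hi).av_integrable s x

lemma av_const [CompleteSpace F] (c : F) (s : ℝ) (x : Sp d) : av s (fun _ => c) x = c := by
  rw [av_def, integral_smul_const, bk_int, one_smul]

lemma av_nonneg {g : Sp d → ℝ} (hg : ∀ z, 0 ≤ g z) (s : ℝ) (x : Sp d) : 0 ≤ av s g x :=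
  integral_nonneg fun y => mul_nonneg (bk_nonneg y) (hg _)

lemma av_mono {g h : Sp d → ℝ} (hg : LB g) (hh : LB h) (hgh : ∀ z, g z ≤ h z) (s : ℝ)
    (x : Sp d) : av s g x ≤ av s h x :=
  integral_mono (hg.av_integrable s x) (hh.av_integrable s x)
    fun y => mul_le_mul_of_nonneg_left (hgh _) (bk_nonneg y)

lemma av_le_of_le {g : Sp d → ℝ} (hg : LB g) {M : ℝ} (hM : ∀ z, g z ≤ M) (s : ℝ) (x : Sp d) :
    av s g x ≤ M :=
  (av_mono hg (LB.of_cont continuous_const) hM s x).trans (av_const M s x).le

lemma norm_av_le (g : Sp d → F) (s : ℝ) (x : Sp d) : ‖av s g x‖ ≤ av s (fun z => ‖g z‖) x := by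
  refine (norm_integral_le_integral_norm _).trans (le_of_eq ?_)
  rw [av_def]
  congr 1
  ext y
  rw [norm_smul, Real.norm_eq_abs, abs_of_nonneg (bk_nonneg y), smul_eq_mul]

lemma av_inner {E : Type*} [NormedAddCommGroup E] [InnerProductSpace ℝ E] [CompleteSpace E]
    {g : Sp d → E} (hg : LB g) (e : E) (s : ℝ) (x : Sp d) :
    av s (fun z => ⟪g z, e⟫_ℝ) x = ⟪av s g x, e⟫_ℝ := by
  simp only [av_def]
  rw [real_inner_comm, ← integral_inner (hg.av_integrable s x) e]
  congr 1
  ext y
  rw [inner_smul_right, real_inner_comm, smul_eq_mul]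

lemma LB.prod_integrable (hg : LB g) (s t : ℝ) (x : Sp d) :
    Integrable (Function.uncurry fun (y z : Sp d) => bk d y • bk d z • g (x + s • y + t • z))
      (volume.prod volume) := by
  obtain ⟨M, hM⟩ := hg.bd (‖x‖ + |s| + |t|)
  have hi : Integrable (fun p : Sp d × Sp d => bk d p.1 * bk d p.2 * |M|)
      (volume.prod volume) := (bk_integrable.mul_prod bk_integrable).mul_const _
  refine hi.mono' ?_ ?_
  · refine StronglyMeasurable.aestronglyMeasurable ?_
    refine StronglyMeasurable.smul (f := fun p : Sp d × Sp d => bk d p.1) ?_ ?_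
    · exact (bk_cont.comp continuous_fst).stronglyMeasurable
    · refine StronglyMeasurable.smul (f := fun p : Sp d × Sp d => bk d p.2) ?_ ?_
      · exact (bk_cont.comp continuous_snd).stronglyMeasurable
      · exact hg.meas.comp_measurable
          (show Measurable fun p : Sp d × Sp d => x + s • p.1 + t • p.2 by fun_prop)
  · refine Filter.Eventually.of_forall fun p => ?_
    obtain ⟨y, z⟩ := p
    simp only [Function.uncurry_apply_pair]
    rw [norm_smul, norm_smul, Real.norm_eq_abs, Real.norm_eq_abs, abs_of_nonneg (bk_nonneg y),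
      abs_of_nonneg (bk_nonneg z), ← mul_assoc]
    by_cases hy : 1 ≤ ‖y‖
    · simp [bk_zero hy]
    by_cases hz : 1 ≤ ‖z‖
    · simp [bk_zero hz]
    push Not at hy hz
    refine mul_le_mul_of_nonneg_left ((hM _ ?_).trans (le_abs_self M))
      (mul_nonneg (bk_nonneg y) (bk_nonneg z))
    refine (norm_add_le _ _).trans ?_
    have h1 : ‖x + s • y‖ ≤ ‖x‖ + |s| * ‖y‖ := (norm_add_le _ _).trans (by
      rw [norm_smul, Real.norm_eq_abs])
    have h2 : ‖t • z‖ = |t| * ‖z‖ := by rw [norm_smul, Real.norm_eq_abs]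
    nlinarith only [h1, h2, hy, hz, abs_nonneg s, abs_nonneg t]

/-- averages commute -/
lemma av_comm (hg : LB g) (s t : ℝ) : av s (av t g) = av t (av s g) := by
  ext x
  simp only [av_def, ← integral_smul]
  rw [integral_integral_swap (hg.prod_integrable s t x)]
  congr 1
  ext z
  congr 1
  ext y
  rw [smul_comm, add_right_comm]

lemma shear_integrable (hg : Integrable g) (hg' : LB g) (s : ℝ) :
    Integrable (Function.uncurry fun (x y : Sp d) => bk d y • g (x + s • y))
      (volume.prod volume) := by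
  have hm : StronglyMeasurable (Function.uncurry fun (x y : Sp d) =>
      bk d y • g (x + s • y)) := by
    refine StronglyMeasurable.smul (f := fun p : Sp d × Sp d => bk d p.2) ?_ ?_
    · exact (bk_cont.comp continuous_snd).stronglyMeasurable
    · exact hg'.meas.comp_measurable
        (show Measurable fun p : Sp d × Sp d => p.1 + s • p.2 by fun_prop)
  rw [integrable_prod_iff' hm.aestronglyMeasurable]
  constructor
  · refine Filter.Eventually.of_forall fun y => ?_
    simp only [Function.uncurry_apply_pair]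
    exact (hg.comp_add_right (s • y)).smul (bk d y)
  · simp only [Function.uncurry_apply_pair, norm_smul]
    have h3 : (fun y : Sp d => ∫ x, ‖bk d y‖ * ‖g (x + s • y)‖) =
        fun y => ‖bk d y‖ * ∫ x, ‖g x‖ := by
      ext y
      rw [integral_const_mul]
      congr 1
      exact integral_add_right_eq_self (μ := volume) (fun x => ‖g x‖) (s • y)
    rw [h3]
    exact bk_integrable.norm.mul_const _

/-- averages preserve integrals -/
lemma av_int [CompleteSpace F] (hg : Integrable g) (hg' : LB g) (s : ℝ) :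
    ∫ x, av s g x = ∫ x, g x := by
  simp only [av_def]
  rw [integral_integral_swap (shear_integrable hg hg' s)]
  simp only [integral_smul]
  have h3 : (fun y : Sp d => bk d y • ∫ x, g (x + s • y)) = fun y => bk d y • ∫ x, g x := by
    ext y
    congr 1
    exact integral_add_right_eq_self (μ := volume) g (s • y)
  rw [h3, integral_smul_const, bk_int, one_smul]

lemma av_integrable (hg : Integrable g) (hg' : LB g) (s : ℝ) : Integrable (av s g) :=
  (shear_integrable hg hg' s).integral_prod_left

lemma LB.integrable (hg : LB g) (hc : HasCompactSupport g) : Integrable g := by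
  obtain ⟨R, hR⟩ := hc.isCompact.isBounded.subset_closedBall (0 : Sp d)
  have h1 : IntegrableOn g (closedBall 0 R) := hg.integrableOn isBounded_closedBall
  rw [← integrableOn_univ]
  refine h1.of_forall_sdiff_eq_zero MeasurableSet.univ ?_
  intro x hx
  by_contra hx'
  exact hx.2 (hR (subset_tsupport _ hx'))

/-- averages are self adjoint -/
lemma av_adj_inner {E : Type*} [NormedAddCommGroup E] [InnerProductSpace ℝ E] [CompleteSpace E]
    {g h : Sp d → E} (hg : LB g) (hh : LB h) (hi : HasCompactSupport h) (s : ℝ) :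
    ∫ x, ⟪av s g x, h x⟫_ℝ = ∫ x, ⟪g x, av s h x⟫_ℝ := by
  obtain ⟨R, hR⟩ := hi.isCompact.isBounded.subset_closedBall (0 : Sp d)
  have hR' : ∀ z, h z ≠ 0 → ‖z‖ ≤ R := fun z hz => by
    simpa using hR (subset_tsupport _ hz)
  obtain ⟨M, hM⟩ := hg.bd (R + |s|)
  have hhi : Integrable h := hh.integrable hi
  have hinner : Continuous (fun p : E × E => ⟪p.1, p.2⟫_ℝ) := by fun_prop
  have hb : ∀ (z y : Sp d), ‖y‖ < 1 → ‖s • y‖ ≤ |s| := by
    intro z y hy
    rw [norm_smul, Real.norm_eq_abs]
    nlinarith [abs_nonneg s, norm_nonneg y]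
  -- first product integrability
  have hI1 : Integrable (Function.uncurry fun (x y : Sp d) => bk d y * ⟪g (x + s • y), h x⟫_ℝ)
      (volume.prod volume) := by
    have hi0 : Integrable (fun p : Sp d × Sp d => ‖h p.1‖ * bk d p.2 * |M|)
        (volume.prod volume) := (hhi.norm.mul_prod bk_integrable).mul_const _
    refine hi0.mono' ?_ ?_
    · refine StronglyMeasurable.aestronglyMeasurable ?_
      refine StronglyMeasurable.mul (f := fun p : Sp d × Sp d => bk d p.2) ?_ ?_
      · exact (bk_cont.comp continuous_snd).stronglyMeasurable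
      · refine hinner.comp_stronglyMeasurable (StronglyMeasurable.prodMk ?_ ?_)
        · exact hg.meas.comp_measurable
            (show Measurable fun p : Sp d × Sp d => p.1 + s • p.2 by fun_prop)
        · exact hh.meas.comp_measurable measurable_fst
    · refine Filter.Eventually.of_forall fun p => ?_
      obtain ⟨x, y⟩ := p
      simp only [Function.uncurry_apply_pair]
      rw [norm_mul, Real.norm_eq_abs, abs_of_nonneg (bk_nonneg y)]
      by_cases hy : 1 ≤ ‖y‖
      · simp [bk_zero hy]
      by_cases hx : h x = 0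
      · simp [hx]
      push Not at hy
      have h1 : ‖g (x + s • y)‖ ≤ |M| := by
        refine (hM _ ?_).trans (le_abs_self M)
        exact (norm_add_le _ _).trans (add_le_add (hR' x hx) (hb x y hy))
      have h2 : ‖⟪g (x + s • y), h x⟫_ℝ‖ ≤ |M| * ‖h x‖ :=
        (norm_inner_le_norm _ _).trans (mul_le_mul_of_nonneg_right h1 (norm_nonneg _))
      calc bk d y * ‖⟪g (x + s • y), h x⟫_ℝ‖ ≤ bk d y * (|M| * ‖h x‖) :=
            mul_le_mul_of_nonneg_left h2 (bk_nonneg y)
        _ = ‖h x‖ * bk d y * |M| := by ring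
  -- second product integrability
  have hI2 : Integrable (Function.uncurry fun (x y : Sp d) => bk d y * ⟪g x, h (x + s • y)⟫_ℝ)
      (volume.prod volume) := by
    have hi0 : Integrable (fun p : Sp d × Sp d => (bk d p.2 • ‖h (p.1 + s • p.2)‖) * |M|)
        (volume.prod volume) := (shear_integrable hhi.norm hh.norm s).mul_const _
    refine hi0.mono' ?_ ?_
    · refine StronglyMeasurable.aestronglyMeasurable ?_
      refine StronglyMeasurable.mul (f := fun p : Sp d × Sp d => bk d p.2) ?_ ?_
      · exact (bk_cont.comp continuous_snd).stronglyMeasurable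
      · refine hinner.comp_stronglyMeasurable (StronglyMeasurable.prodMk ?_ ?_)
        · exact hg.meas.comp_measurable measurable_fst
        · exact hh.meas.comp_measurable
            (show Measurable fun p : Sp d × Sp d => p.1 + s • p.2 by fun_prop)
    · refine Filter.Eventually.of_forall fun p => ?_
      obtain ⟨x, y⟩ := p
      simp only [Function.uncurry_apply_pair]
      rw [norm_mul, Real.norm_eq_abs, abs_of_nonneg (bk_nonneg y)]
      by_cases hy : 1 ≤ ‖y‖
      · simp [bk_zero hy]
      by_cases hx : h (x + s • y) = 0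
      · simp [hx]
      push Not at hy
      have h1 : ‖g x‖ ≤ |M| := by
        refine (hM _ ?_).trans (le_abs_self M)
        have h3 : ‖x‖ ≤ ‖x + s • y‖ + ‖s • y‖ := by
          have := norm_sub_le (x + s • y) (s • y)
          rwa [add_sub_cancel_right] at this
        exact h3.trans (add_le_add (hR' _ hx) (hb x y hy))
      have h2 : ‖⟪g x, h (x + s • y)⟫_ℝ‖ ≤ |M| * ‖h (x + s • y)‖ :=
        (norm_inner_le_norm _ _).trans (mul_le_mul_of_nonneg_right h1 (norm_nonneg _))
      calc bk d y * ‖⟪g x, h (x + s • y)⟫_ℝ‖ ≤ bk d y * (|M| * ‖h (x + s • y)‖) :=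
            mul_le_mul_of_nonneg_left h2 (bk_nonneg y)
        _ = bk d y • ‖h (x + s • y)‖ * |M| := by rw [smul_eq_mul]; ring
  have e1 : ∀ x, ⟪av s g x, h x⟫_ℝ = ∫ y, bk d y * ⟪g (x + s • y), h x⟫_ℝ := by
    intro x
    rw [← av_inner hg (h x) s x, av_def]
    simp only [smul_eq_mul]
  have e2 : ∀ x, ⟪g x, av s h x⟫_ℝ = ∫ y, bk d y * ⟪g x, h (x + s • y)⟫_ℝ := by
    intro x
    rw [real_inner_comm, ← av_inner hh (g x) s x, av_def]
    simp only [smul_eq_mul]
    congr 1
    ext y
    rw [real_inner_comm]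
  simp only [e1, e2]
  rw [integral_integral_swap hI1, integral_integral_swap hI2]
  have e3 : ∀ y : Sp d, ∫ x, bk d y * ⟪g (x + s • y), h x⟫_ℝ =
      ∫ x, bk d (-y) * ⟪g x, h (x + s • (-y))⟫_ℝ := by
    intro y
    rw [integral_const_mul, integral_const_mul, bk_neg]
    congr 1
    rw [← integral_add_right_eq_self (μ := volume) (fun x => ⟪g (x + s • y), h x⟫_ℝ) (-(s • y))]
    congr 1
    ext x
    rw [smul_neg, neg_add_cancel_right]
  simp only [e3]
  exact integral_neg_eq_self (fun y : Sp d => ∫ x, bk d y * ⟪g x, h (x + s • y)⟫_ℝ) volume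

lemma av_adj {g h : Sp d → ℝ} (hg : LB g) (hh : LB h) (hi : HasCompactSupport h) (s : ℝ) :
    ∫ x, av s g x * h x = ∫ x, g x * av s h x := by
  have := av_adj_inner hg hh hi s
  simp only [RCLike.inner_apply, conj_trivial] at this
  simpa only [mul_comm] using this

lemma setIntegral_ball_add (g : Sp d → F) (a q : Sp d) (r : ℝ) :
    ∫ x in ball q r, g (x + a) = ∫ z in ball (q + a) r, g z := by
  have h1 := (measurePreserving_add_right (volume : Measure (Sp d)) a).setIntegral_preimage_emb
    (measurableEmbedding_addRight a) g (ball (q + a) r)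
  rw [← h1]
  congr 2
  ext x
  simp

lemma shear_integrableOn (hg : LB g) (s : ℝ) (q : Sp d) (r : ℝ) :
    Integrable (Function.uncurry fun (x y : Sp d) => bk d y • g (x + s • y))
      ((volume.restrict (ball q r)).prod volume) := by
  obtain ⟨M, hM⟩ := hg.bd (‖q‖ + r + |s|)
  have : IsFiniteMeasure (volume.restrict (ball q r)) := ⟨by
    rw [Measure.restrict_apply_univ]; exact measure_ball_lt_top⟩
  have hi : Integrable (fun p : Sp d × Sp d => (1 : ℝ) * bk d p.2 * |M|)
      ((volume.restrict (ball q r)).prod volume) :=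
    ((integrable_const (1 : ℝ)).mul_prod bk_integrable).mul_const _
  refine hi.mono' ?_ ?_
  · refine StronglyMeasurable.aestronglyMeasurable ?_
    refine StronglyMeasurable.smul (f := fun p : Sp d × Sp d => bk d p.2) ?_ ?_
    · exact (bk_cont.comp continuous_snd).stronglyMeasurable
    · exact hg.meas.comp_measurable
        (show Measurable fun p : Sp d × Sp d => p.1 + s • p.2 by fun_prop)
  · have h1 : ∀ᵐ p ∂((volume.restrict (ball q r)).prod (volume : Measure (Sp d))),
        p.1 ∈ ball q r := by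
      have := (Measure.quasiMeasurePreserving_fst (μ := volume.restrict (ball q r))
        (ν := (volume : Measure (Sp d)))).ae (ae_restrict_mem measurableSet_ball)
      exact this
    filter_upwards [h1] with p hp
    obtain ⟨x, y⟩ := p
    simp only [Function.uncurry_apply_pair]
    rw [norm_smul, Real.norm_eq_abs, abs_of_nonneg (bk_nonneg y), one_mul]
    by_cases hy : 1 ≤ ‖y‖
    · simp [bk_zero hy]
    push Not at hy
    refine mul_le_mul_of_nonneg_left ((hM _ ?_).trans (le_abs_self M)) (bk_nonneg y)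
    refine (norm_add_le _ _).trans ?_
    have h3 : ‖s • y‖ ≤ |s| := by
      rw [norm_smul, Real.norm_eq_abs]
      nlinarith [abs_nonneg s, norm_nonneg y]
    have h4 : ‖x‖ ≤ ‖q‖ + r := by
      have h5 : ‖x - q‖ < r := by simpa [dist_eq_norm] using hp
      have := norm_add_le q (x - q)
      rw [add_sub_cancel] at this
      linarith
    linarith

lemma int_ball_av_ge {g : Sp d → ℝ} (hg : LB g) (h0 : ∀ z, 0 ≤ g z) {s : ℝ} (hs : 0 ≤ s)
    (q : Sp d) (r : ℝ) : ∫ z in ball q r, g z ≤ ∫ z in ball q (r + s), av s g z := by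
  simp only [av_def]
  have hI := shear_integrableOn hg s q (r + s)
  rw [integral_integral_swap hI]
  have h1 : ∀ y : Sp d, bk d y * ∫ z in ball q r, g z ≤
      ∫ x in ball q (r + s), bk d y • g (x + s • y) := by
    intro y
    rw [integral_smul, setIntegral_ball_add, smul_eq_mul]
    by_cases hy : 1 ≤ ‖y‖
    · simp [bk_zero hy]
    push Not at hy
    refine mul_le_mul_of_nonneg_left ?_ (bk_nonneg y)
    refine setIntegral_mono_set (hg.integrableOn isBounded_ball)
      (Filter.Eventually.of_forall fun z => h0 z) (Filter.Eventually.of_forall ?_)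
    intro z hz
    change z ∈ ball q r at hz
    change z ∈ ball (q + s • y) (r + s)
    rw [mem_ball, dist_eq_norm] at hz ⊢
    have h3 : ‖s • y‖ ≤ s := by
      rw [norm_smul, Real.norm_eq_abs, abs_of_nonneg hs]
      nlinarith [norm_nonneg y]
    have h4 : ‖z - (q + s • y)‖ ≤ ‖z - q‖ + ‖s • y‖ := by
      rw [← sub_sub]; exact norm_sub_le _ _
    linarith
  calc ∫ z in ball q r, g z = ∫ y, bk d y * ∫ z in ball q r, g z := by
        rw [integral_mul_const, bk_int, one_mul]
    _ ≤ _ := integral_mono (bk_integrable.mul_const _) hI.integral_prod_right h1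

lemma int_ball_av_le {g : Sp d → ℝ} (hg : LB g) (h0 : ∀ z, 0 ≤ g z) {s : ℝ} (hs : 0 ≤ s)
    (q : Sp d) (r : ℝ) : ∫ z in ball q r, av s g z ≤ ∫ z in ball q (r + s), g z := by
  simp only [av_def]
  have hI := shear_integrableOn hg s q r
  rw [integral_integral_swap hI]
  have h1 : ∀ y : Sp d, ∫ x in ball q r, bk d y • g (x + s • y) ≤
      bk d y * ∫ z in ball q (r + s), g z := by
    intro y
    rw [integral_smul, setIntegral_ball_add, smul_eq_mul]
    by_cases hy : 1 ≤ ‖y‖
    · simp [bk_zero hy]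
    push Not at hy
    refine mul_le_mul_of_nonneg_left ?_ (bk_nonneg y)
    refine setIntegral_mono_set (hg.integrableOn isBounded_ball)
      (Filter.Eventually.of_forall fun z => h0 z) (Filter.Eventually.of_forall ?_)
    intro z hz
    change z ∈ ball (q + s • y) r at hz
    change z ∈ ball q (r + s)
    rw [mem_ball, dist_eq_norm] at hz ⊢
    have h3 : ‖s • y‖ ≤ s := by
      rw [norm_smul, Real.norm_eq_abs, abs_of_nonneg hs]
      nlinarith [norm_nonneg y]
    have h4 : ‖z - q‖ ≤ ‖z - (q + s • y)‖ + ‖s • y‖ := by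
      have := norm_add_le (z - (q + s • y)) (s • y)
      rwa [show z - (q + s • y) + s • y = z - q by abel] at this
    linarith
  calc _ ≤ ∫ y, bk d y * ∫ z in ball q (r + s), g z :=
        integral_mono hI.integral_prod_right (bk_integrable.mul_const _) h1
    _ = _ := by rw [integral_mul_const, bk_int, one_mul]

/-- change of variables in a ball -/
lemma int_ball_scale (g : Sp d → F) {t : ℝ} (ht : 0 < t) (x q : Sp d) (r : ℝ) :
    ∫ y in ball q r, g (x + t • y) = (t ^ d)⁻¹ • ∫ z in ball (x + t • q) (t * r), g z := by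
  have h1 := Measure.setIntegral_comp_smul_of_pos (volume : Measure (Sp d))
    (fun z => g (x + z)) (ball q r) ht
  rw [h1, finrank_euclideanSpace_fin]
  congr 1
  have h2 : t • ball q r = ball (t • q) (t * r) := by
    rw [_root_.smul_ball ht.ne', Real.norm_eq_abs, abs_of_pos ht]
  rw [h2]
  have h3 := setIntegral_ball_add g x (t • q) (t * r)
  rw [add_comm x (t • q), ← h3]
  simp only [add_comm x]

end LBfacts

end

end TrI


end

section

/-!
# Basic facts on the averages, part 2: several averages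
-/

set_option linter.unusedSectionVars false

open MeasureTheory Metric Set
open scoped InnerProductSpace ContDiff Pointwise

namespace TrI

noncomputable section

variable {d : ℕ}

section LBfacts

variable {F : Type*} [NormedAddCommGroup F] [NormedSpace ℝ F] {g h : Sp d → F}

/-! ## several averages -/

lemma kav_succ (s0 : ℝ) (m r : ℕ) (g : Sp d → F) :
    kav s0 m (r + 1) g = av (sc s0 (m + r)) (kav s0 m r g) := rfl

lemma LB.kav (hg : LB g) (s0 : ℝ) (m r : ℕ) : LB (kav s0 m r g) := by
  induction r with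
  | zero => exact hg
  | succ r ih => exact ih.av _

lemma kav_cont (hg : Continuous g) (s0 : ℝ) (m r : ℕ) : Continuous (kav s0 m r g) := by
  induction r with
  | zero => exact hg
  | succ r ih => exact av_cont ih _

lemma kav_cs (hg : HasCompactSupport g) (s0 : ℝ) (m r : ℕ) :
    HasCompactSupport (kav s0 m r g) := by
  induction r with
  | zero => exact hg
  | succ r ih => exact av_cs ih _

lemma kav_add (hg : LB g) (hh : LB h) (s0 : ℝ) (m r : ℕ) (x : Sp d) :
    kav s0 m r (fun z => g z + h z) x = kav s0 m r g x + kav s0 m r h x := by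
  induction r generalizing x with
  | zero => rfl
  | succ r ih =>
    rw [kav_succ, kav_succ, kav_succ, ← av_add (hg.kav s0 m r) (hh.kav s0 m r)]
    congr 1
    ext z
    exact ih z

lemma kav_sub (hg : LB g) (hh : LB h) (s0 : ℝ) (m r : ℕ) (x : Sp d) :
    kav s0 m r (fun z => g z - h z) x = kav s0 m r g x - kav s0 m r h x := by
  induction r generalizing x with
  | zero => rfl
  | succ r ih =>
    rw [kav_succ, kav_succ, kav_succ, ← av_sub (hg.kav s0 m r) (hh.kav s0 m r)]
    congr 1
    ext z
    exact ih z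

lemma kav_smul (c : ℝ) (s0 : ℝ) (m r : ℕ) (x : Sp d) :
    kav s0 m r (fun z => c • g z) x = c • kav s0 m r g x := by
  induction r generalizing x with
  | zero => rfl
  | succ r ih =>
    rw [kav_succ, kav_succ, ← av_smul]
    congr 1
    ext z
    exact ih z

lemma kav_mul (c : ℝ) (g : Sp d → ℝ) (s0 : ℝ) (m r : ℕ) (x : Sp d) :
    kav s0 m r (fun z => c * g z) x = c * kav s0 m r g x := kav_smul c s0 m r x

lemma kav_zero (s0 : ℝ) (m r : ℕ) (x : Sp d) : kav s0 m r (fun _ => (0 : F)) x = 0 := by
  have := kav_smul (g := fun _ : Sp d => (0 : F)) 0 s0 m r x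
  simpa using this

lemma kav_sum {ι : Type*} (S : Finset ι) {G : ι → Sp d → F} (hG : ∀ i ∈ S, LB (G i)) (s0 : ℝ)
    (m r : ℕ) (x : Sp d) :
    kav s0 m r (fun z => ∑ i ∈ S, G i z) x = ∑ i ∈ S, kav s0 m r (G i) x := by
  classical
  induction S using Finset.induction_on with
  | empty => simpa using kav_zero s0 m r x
  | insert i S hi ih =>
    simp only [Finset.sum_insert hi]
    rw [kav_add (hG i (Finset.mem_insert_self i S))
      (LB.sum S fun j hj => hG j (Finset.mem_insert_of_mem hj)),
      ih fun j hj => hG j (Finset.mem_insert_of_mem hj)]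

lemma kav_nonneg {g : Sp d → ℝ} (hg : ∀ z, 0 ≤ g z) (s0 : ℝ) (m r : ℕ) (x : Sp d) :
    0 ≤ kav s0 m r g x := by
  induction r generalizing x with
  | zero => exact hg x
  | succ r ih => exact av_nonneg ih _ x

lemma kav_mono {g h : Sp d → ℝ} (hg : LB g) (hh : LB h) (hgh : ∀ z, g z ≤ h z) (s0 : ℝ)
    (m r : ℕ) (x : Sp d) : kav s0 m r g x ≤ kav s0 m r h x := by
  induction r generalizing x with
  | zero => exact hgh x
  | succ r ih => exact av_mono (hg.kav s0 m r) (hh.kav s0 m r) ih _ x

lemma kav_le_of_le {g : Sp d → ℝ} (hg : LB g) {M : ℝ} (hM : ∀ z, g z ≤ M) (s0 : ℝ)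
    (m r : ℕ) (x : Sp d) : kav s0 m r g x ≤ M := by
  induction r generalizing x with
  | zero => exact hM x
  | succ r ih => exact av_le_of_le (hg.kav s0 m r) ih _ x

lemma norm_kav_le (hg : LB g) (s0 : ℝ) (m r : ℕ) (x : Sp d) :
    ‖kav s0 m r g x‖ ≤ kav s0 m r (fun z => ‖g z‖) x := by
  induction r generalizing x with
  | zero => exact le_rfl
  | succ r ih =>
    exact (norm_av_le _ _ x).trans (av_mono (hg.kav s0 m r).norm (hg.norm.kav s0 m r) ih _ x)

lemma kav_inner {E : Type*} [NormedAddCommGroup E] [InnerProductSpace ℝ E] [CompleteSpace E]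
    {g : Sp d → E} (hg : LB g) (e : E) (s0 : ℝ) (m r : ℕ) (x : Sp d) :
    kav s0 m r (fun z => ⟪g z, e⟫_ℝ) x = ⟪kav s0 m r g x, e⟫_ℝ := by
  induction r generalizing x with
  | zero => rfl
  | succ r ih =>
    rw [kav_succ, kav_succ, ← av_inner (hg.kav s0 m r)]
    congr 1
    ext z
    exact ih z

lemma kav_succ' (s0 : ℝ) (m r : ℕ) (g : Sp d → F) :
    kav s0 m (r + 1) g = kav s0 (m + 1) r (av (sc s0 m) g) := by
  induction r with
  | zero => rfl
  | succ r ih =>
    rw [kav_succ, ih, kav_succ]
    congr 2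
    omega

lemma kav_comp (s0 : ℝ) (m r r' : ℕ) (g : Sp d → F) :
    kav s0 (m + r) r' (kav s0 m r g) = kav s0 m (r + r') g := by
  induction r' with
  | zero => rfl
  | succ r' ih =>
    rw [kav_succ, ih, ← add_assoc r r' 1, kav_succ]
    congr 2
    omega

lemma kav_av_comm (hg : LB g) (s0 : ℝ) (m r : ℕ) (s : ℝ) :
    kav s0 m r (av s g) = av s (kav s0 m r g) := by
  induction r with
  | zero => rfl
  | succ r ih => rw [kav_succ, ih, kav_succ, av_comm (hg.kav s0 m r)]

lemma kav_kav_comm (hg : LB g) (s0 : ℝ) (m r m' r' : ℕ) :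
    kav s0 m r (kav s0 m' r' g) = kav s0 m' r' (kav s0 m r g) := by
  induction r' with
  | zero => rfl
  | succ r' ih => rw [kav_succ, kav_av_comm (hg.kav s0 m' r'), ih, kav_succ]

lemma kav_integrable (hg : Integrable g) (hg' : LB g) (s0 : ℝ) (m r : ℕ) :
    Integrable (kav s0 m r g) := by
  induction r with
  | zero => exact hg
  | succ r ih => exact av_integrable ih (hg'.kav s0 m r) _

lemma kav_int [CompleteSpace F] (hg : Integrable g) (hg' : LB g) (s0 : ℝ) (m r : ℕ) :
    ∫ x, kav s0 m r g x = ∫ x, g x := by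
  induction r with
  | zero => rfl
  | succ r ih => rw [kav_succ, av_int (kav_integrable hg hg' s0 m r) (hg'.kav s0 m r), ih]

/-! ## the kernel of several averages -/

/-- the kernel of r + 1 averages starting at level m -/
def kk (s0 : ℝ) (m : ℕ) : ℕ → Sp d → ℝ
  | 0 => fun y => ((sc s0 m) ^ d)⁻¹ * bk d ((sc s0 m)⁻¹ • y)
  | r + 1 => av (sc s0 (m + (r + 1))) (kk s0 m r)

lemma sc_le {s0 : ℝ} (hs : 0 < s0) {j k : ℕ} (h : j ≤ k) : sc s0 j ≤ sc s0 k := by
  unfold sc
  gcongr
  norm_num

lemma kk_cont {s0 : ℝ} (m r : ℕ) : Continuous (kk s0 m r : Sp d → ℝ) := by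
  induction r with
  | zero =>
    exact continuous_const.mul (bk_cont.comp (by fun_prop))
  | succ r ih => exact av_cont ih _

lemma kk_nonneg {s0 : ℝ} (hs : 0 < s0) (m r : ℕ) (y : Sp d) : 0 ≤ kk s0 m r y := by
  induction r generalizing y with
  | zero =>
    have := sc_pos hs m
    exact mul_nonneg (by positivity) (bk_nonneg _)
  | succ r ih => exact av_nonneg ih _ y

lemma kk_supp {s0 : ℝ} (hs : 0 < s0) (m r : ℕ) {y : Sp d}
    (hy : 8 / 7 * sc s0 (m + r) ≤ ‖y‖) : kk s0 m r y = 0 := by
  induction r generalizing y with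
  | zero =>
    have hp := sc_pos hs m
    simp only [add_zero] at hy
    simp only [kk]
    rw [bk_zero, mul_zero]
    rw [norm_smul, norm_inv, Real.norm_eq_abs, abs_of_pos hp, inv_mul_eq_div, le_div_iff₀ hp]
    linarith
  | succ r ih =>
    have hp := sc_pos hs (m + r)
    have hsucc : sc s0 (m + (r + 1)) = 8 * sc s0 (m + r) := by rw [← sc_succ]; rfl
    rw [hsucc] at hy
    have : ‖kk s0 m (r + 1) y‖ ≤ 0 := by
      refine norm_av_le_of_bound fun z hz => ?_
      rw [hsucc, abs_of_pos (by positivity)] at hz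
      rw [ih, norm_zero]
      have h3 : ‖y‖ ≤ ‖z‖ + ‖z - y‖ := by
        have := norm_sub_le z (z - y)
        rwa [sub_sub_cancel] at this
      linarith
    simpa using this

lemma kk_integrable {s0 : ℝ} (hs : 0 < s0) (m r : ℕ) : Integrable (kk s0 m r : Sp d → ℝ) := by
  refine (LB.of_cont (kk_cont m r)).integrable ?_
  refine HasCompactSupport.of_support_subset_isCompact
    (isCompact_closedBall (0 : Sp d) (8 / 7 * sc s0 (m + r))) ?_
  intro y hy
  by_contra hy'
  apply hy
  rw [mem_closedBall, dist_zero_right, not_le] at hy'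
  exact kk_supp hs m r hy'.le

lemma kk_int {s0 : ℝ} (hs : 0 < s0) (m r : ℕ) : ∫ y : Sp d, kk s0 m r y = 1 := by
  induction r with
  | zero =>
    have hp := sc_pos hs m
    simp only [kk]
    rw [integral_const_mul, Measure.integral_comp_inv_smul_of_nonneg volume (bk d) hp.le,
      finrank_euclideanSpace_fin, bk_int]
    simp only [smul_eq_mul, mul_one]
    field_simp
  | succ r ih =>
    rw [show (fun y : Sp d => kk s0 m (r + 1) y) = av (sc s0 (m + (r + 1))) (kk s0 m r) from rfl,
      av_int (kk_integrable hs m r) (LB.of_cont (kk_cont m r)), ih]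

/-- the average as integral against the rescaled kernel -/
lemma av_eq_scaled {s : ℝ} (hs : 0 < s) (g : Sp d → F) (x : Sp d) :
    av s g x = ∫ z, ((s ^ d)⁻¹ * bk d (s⁻¹ • (z - x))) • g z := by
  have h1 : ∫ z, ((s ^ d)⁻¹ * bk d (s⁻¹ • (z - x))) • g z =
      ∫ z, ((s ^ d)⁻¹ * bk d (s⁻¹ • z)) • g (x + z) := by
    rw [← integral_add_right_eq_self (μ := volume)
      (fun z => ((s ^ d)⁻¹ * bk d (s⁻¹ • (z - x))) • g z) x]
    congr 1
    ext z
    rw [add_sub_cancel_right, add_comm z x]
  rw [h1]
  have h2 := Measure.integral_comp_smul_of_nonneg (volume : Measure (Sp d))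
    (fun z => ((s ^ d)⁻¹ * bk d (s⁻¹ • z)) • g (x + z)) s (hR := hs.le)
  rw [finrank_euclideanSpace_fin] at h2
  have h3 : ∫ z, ((s ^ d)⁻¹ * bk d (s⁻¹ • z)) • g (x + z) =
      s ^ d • ∫ y, ((s ^ d)⁻¹ * bk d (s⁻¹ • s • y)) • g (x + s • y) := by
    rw [h2, smul_smul, mul_inv_cancel₀ (by positivity), one_smul]
  rw [h3, ← integral_smul, av_def]
  congr 1
  ext y
  rw [smul_smul, smul_smul, inv_mul_cancel₀ hs.ne', one_smul, ← mul_assoc,
    mul_inv_cancel₀ (by positivity), one_mul]

lemma kk_le {s0 : ℝ} (hs : 0 < s0) (m r : ℕ) (y : Sp d) :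
    kk s0 m r y ≤ bk d 0 / (sc s0 (m + r)) ^ d := by
  cases r with
  | zero =>
    have hp := sc_pos hs m
    simp only [kk, add_zero]
    rw [div_eq_inv_mul]
    exact mul_le_mul_of_nonneg_left (bk_le _) (by positivity)
  | succ r =>
    have hp := sc_pos hs (m + (r + 1))
    simp only [kk]
    rw [av_eq_scaled hp]
    calc ∫ z, (((sc s0 (m + (r + 1))) ^ d)⁻¹ * bk d ((sc s0 (m + (r + 1)))⁻¹ • (z - y))) •
          kk s0 m r z ≤ ∫ z, (bk d 0 / (sc s0 (m + (r + 1))) ^ d) * kk s0 m r z := by
          refine integral_mono_of_nonneg (Filter.Eventually.of_forall fun z => ?_)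
            ((kk_integrable hs m r).const_mul _) (Filter.Eventually.of_forall fun z => ?_)
          · exact mul_nonneg (mul_nonneg (by positivity) (bk_nonneg _)) (kk_nonneg hs m r z)
          · refine mul_le_mul_of_nonneg_right ?_ (kk_nonneg hs m r z)
            rw [div_eq_inv_mul]
            exact mul_le_mul_of_nonneg_left (bk_le _) (by positivity)
      _ = _ := by rw [integral_const_mul, kk_int hs, mul_one]

lemma kk_eq {s0 : ℝ} (hs : 0 < s0) (m r : ℕ) {y : Sp d} (hy : ‖y‖ ≤ 3 / 4 * sc s0 (m + r)) :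
    kk s0 m r y = bk d 0 / (sc s0 (m + r)) ^ d := by
  cases r with
  | zero =>
    have hp := sc_pos hs m
    simp only [add_zero] at hy ⊢
    simp only [kk]
    rw [bk_eq, div_eq_inv_mul]
    rw [norm_smul, norm_inv, Real.norm_eq_abs, abs_of_pos hp, inv_mul_eq_div, div_le_iff₀ hp]
    linarith
  | succ r =>
    have hp := sc_pos hs (m + (r + 1))
    have hp' := sc_pos hs (m + r)
    have hsucc : sc s0 (m + (r + 1)) = 8 * sc s0 (m + r) := by rw [← sc_succ]; rfl
    simp only [kk]
    rw [av_eq_scaled hp]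
    have h1 : ∀ z, (((sc s0 (m + (r + 1))) ^ d)⁻¹ *
        bk d ((sc s0 (m + (r + 1)))⁻¹ • (z - y))) • kk s0 m r z =
        (bk d 0 / (sc s0 (m + (r + 1))) ^ d) * kk s0 m r z := by
      intro z
      by_cases hz : 8 / 7 * sc s0 (m + r) ≤ ‖z‖
      · rw [kk_supp hs m r hz]; simp
      · push Not at hz
        rw [smul_eq_mul]
        congr 1
        rw [bk_eq, div_eq_inv_mul]
        rw [norm_smul, norm_inv, Real.norm_eq_abs, abs_of_pos hp, inv_mul_eq_div,
          div_le_iff₀ hp]
        have := norm_sub_le z y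
        rw [hsucc] at hy ⊢
        linarith only [hy, hp', hz, this]
    simp only [h1]
    rw [integral_const_mul, kk_int hs, mul_one]

/-- averages are self adjoint, scalar times vector version -/
lemma av_adj_smul [CompleteSpace F] {h : Sp d → ℝ} (hg : LB g) (hh : LB h)
    (hi : HasCompactSupport h) (s : ℝ) :
    ∫ x, h x • av s g x = ∫ x, av s h x • g x := by
  obtain ⟨R, hR⟩ := hi.isCompact.isBounded.subset_closedBall (0 : Sp d)
  have hR' : ∀ z, h z ≠ 0 → ‖z‖ ≤ R := fun z hz => by
    simpa using hR (subset_tsupport _ hz)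
  obtain ⟨M, hM⟩ := hg.bd (R + |s|)
  have hhi : Integrable h := hh.integrable hi
  have hb : ∀ (y : Sp d), ‖y‖ < 1 → ‖s • y‖ ≤ |s| := by
    intro y hy
    rw [norm_smul, Real.norm_eq_abs]
    nlinarith [abs_nonneg s, norm_nonneg y]
  have hI1 : Integrable (Function.uncurry fun (x y : Sp d) => h x • bk d y • g (x + s • y))
      (volume.prod volume) := by
    have hi0 : Integrable (fun p : Sp d × Sp d => ‖h p.1‖ * bk d p.2 * |M|)
        (volume.prod volume) := (hhi.norm.mul_prod bk_integrable).mul_const _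
    refine hi0.mono' ?_ ?_
    · refine StronglyMeasurable.aestronglyMeasurable ?_
      refine StronglyMeasurable.smul (f := fun p : Sp d × Sp d => h p.1) ?_ ?_
      · exact hh.meas.comp_measurable measurable_fst
      refine StronglyMeasurable.smul (f := fun p : Sp d × Sp d => bk d p.2) ?_ ?_
      · exact (bk_cont.comp continuous_snd).stronglyMeasurable
      · exact hg.meas.comp_measurable
          (show Measurable fun p : Sp d × Sp d => p.1 + s • p.2 by fun_prop)
    · refine Filter.Eventually.of_forall fun p => ?_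
      obtain ⟨x, y⟩ := p
      simp only [Function.uncurry_apply_pair]
      rw [norm_smul, norm_smul, Real.norm_eq_abs (bk d y), abs_of_nonneg (bk_nonneg y)]
      by_cases hy : 1 ≤ ‖y‖
      · simp [bk_zero hy]
      by_cases hx : h x = 0
      · simp [hx]
      push Not at hy
      have h1 : ‖g (x + s • y)‖ ≤ |M| := by
        refine (hM _ ?_).trans (le_abs_self M)
        exact (norm_add_le _ _).trans (add_le_add (hR' x hx) (hb y hy))
      calc ‖h x‖ * (bk d y * ‖g (x + s • y)‖) ≤ ‖h x‖ * (bk d y * |M|) :=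
            mul_le_mul_of_nonneg_left (mul_le_mul_of_nonneg_left h1 (bk_nonneg y))
              (norm_nonneg _)
        _ = ‖h x‖ * bk d y * |M| := by ring
  have hI2 : Integrable (Function.uncurry fun (x y : Sp d) => (bk d y • h (x + s • y)) • g x)
      (volume.prod volume) := by
    have hi0 : Integrable (fun p : Sp d × Sp d => (bk d p.2 • ‖h (p.1 + s • p.2)‖) * |M|)
        (volume.prod volume) := (shear_integrable hhi.norm hh.norm s).mul_const _
    refine hi0.mono' ?_ ?_
    · refine StronglyMeasurable.aestronglyMeasurable ?_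
      refine StronglyMeasurable.smul (f := fun p : Sp d × Sp d => bk d p.2 • h (p.1 + s • p.2))
        ?_ ?_
      · refine StronglyMeasurable.smul (f := fun p : Sp d × Sp d => bk d p.2) ?_ ?_
        · exact (bk_cont.comp continuous_snd).stronglyMeasurable
        · exact hh.meas.comp_measurable
            (show Measurable fun p : Sp d × Sp d => p.1 + s • p.2 by fun_prop)
      · exact hg.meas.comp_measurable measurable_fst
    · refine Filter.Eventually.of_forall fun p => ?_
      obtain ⟨x, y⟩ := p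
      simp only [Function.uncurry_apply_pair]
      rw [norm_smul, norm_smul, Real.norm_eq_abs (bk d y), abs_of_nonneg (bk_nonneg y),
        smul_eq_mul]
      by_cases hy : 1 ≤ ‖y‖
      · simp [bk_zero hy]
      by_cases hx : h (x + s • y) = 0
      · simp [hx]
      push Not at hy
      have h1 : ‖g x‖ ≤ |M| := by
        refine (hM _ ?_).trans (le_abs_self M)
        have h3 : ‖x‖ ≤ ‖x + s • y‖ + ‖s • y‖ := by
          have := norm_sub_le (x + s • y) (s • y)
          rwa [add_sub_cancel_right] at this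
        exact h3.trans (add_le_add (hR' _ hx) (hb y hy))
      exact mul_le_mul_of_nonneg_left h1 (mul_nonneg (bk_nonneg y) (norm_nonneg _))
  have e1 : ∀ x, h x • av s g x = ∫ y, h x • bk d y • g (x + s • y) := by
    intro x
    rw [av_def, integral_smul]
  have e2 : ∀ x, av s h x • g x = ∫ y, (bk d y • h (x + s • y)) • g x := by
    intro x
    rw [av_def, integral_smul_const]
  simp only [e1, e2]
  rw [integral_integral_swap hI1, integral_integral_swap hI2]
  have e3 : ∀ y : Sp d, ∫ x, h x • bk d y • g (x + s • y) =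
      ∫ x, (bk d (-y) • h (x + s • (-y))) • g x := by
    intro y
    rw [← integral_add_right_eq_self (μ := volume) (fun x => h x • bk d y • g (x + s • y))
      (-(s • y))]
    congr 1
    ext x
    rw [bk_neg, smul_neg, neg_add_cancel_right, smul_assoc, smul_comm]
  simp only [e3]
  exact integral_neg_eq_self (fun y : Sp d => ∫ x, (bk d y • h (x + s • y)) • g x) volume

lemma kk_cs {s0 : ℝ} (hs : 0 < s0) (m r : ℕ) : HasCompactSupport (kk s0 m r : Sp d → ℝ) := by
  refine HasCompactSupport.of_support_subset_isCompact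
    (isCompact_closedBall (0 : Sp d) (8 / 7 * sc s0 (m + r))) ?_
  intro y hy
  by_contra hy'
  apply hy
  rw [mem_closedBall, dist_zero_right, not_le] at hy'
  exact kk_supp hs m r hy'.le

/-- kernel representation -/
lemma kav_eq_kk [CompleteSpace F] {s0 : ℝ} (hs : 0 < s0) (hg : LB g) (m r : ℕ) (x : Sp d) :
    kav s0 m (r + 1) g x = ∫ z, kk s0 m r z • g (x + z) := by
  induction r generalizing g with
  | zero =>
    change av (sc s0 (m + 0)) g x = _
    have hp := sc_pos hs m
    rw [add_zero, av_eq_scaled hp]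
    rw [← integral_add_right_eq_self (μ := volume)
      (fun z => ((sc s0 m ^ d)⁻¹ * bk d ((sc s0 m)⁻¹ • (z - x))) • g z) x]
    congr 1
    ext z
    rw [add_sub_cancel_right, add_comm z x]
    rfl
  | succ r ih =>
    rw [kav_succ, ← kav_av_comm hg, ih (hg.av _)]
    have h1 : ∀ z, av (sc s0 (m + (r + 1))) g (x + z) =
        av (sc s0 (m + (r + 1))) (fun w => g (x + w)) z := by
      intro z
      simp only [av_def, add_assoc]
    simp only [h1]
    have h2 : LB (fun w => g (x + w)) := by
      have := hg.comp_add x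
      simpa only [add_comm x] using this
    rw [av_adj_smul h2 (LB.of_cont (kk_cont m r)) (kk_cs hs m r)]
    rfl

lemma kav_eq_kk' [CompleteSpace F] {s0 : ℝ} (hs : 0 < s0) (hg : LB g) (m r : ℕ) (x : Sp d) :
    kav s0 m (r + 1) g x = ∫ z, kk s0 m r (z - x) • g z := by
  rw [kav_eq_kk hs hg, ← integral_add_right_eq_self (μ := volume)
    (fun z => kk s0 m r (z - x) • g z) x]
  congr 1
  ext z
  rw [add_sub_cancel_right, add_comm z x]

lemma kk_smul_integrable {s0 : ℝ} (hs : 0 < s0) (hg : LB g) (m r : ℕ) (x : Sp d) :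
    Integrable (fun z => kk s0 m r (z - x) • g z) := by
  refine hg.integrable_smul ((kk_cont m r).comp (by fun_prop))
    (R := ‖x‖ + 8 / 7 * sc s0 (m + r)) fun y hy => kk_supp hs m r ?_
  have := norm_sub_norm_le y x
  linarith

/-- lower bound of the kernel (r + 1 averages, top scale sc s0 (m + r)) -/
lemma kav_lower {s0 : ℝ} (hs : 0 < s0) {g : Sp d → ℝ} (hg : LB g) (h0 : ∀ z, 0 ≤ g z) (m r : ℕ)
    (x : Sp d) : bk d 0 / (sc s0 (m + r)) ^ d * ∫ z in ball x (3 / 4 * sc s0 (m + r)), g z ≤
      kav s0 m (r + 1) g x := by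
  rw [kav_eq_kk' hs hg, ← integral_const_mul]
  have h1 : ∫ z in ball x (3 / 4 * sc s0 (m + r)), bk d 0 / (sc s0 (m + r)) ^ d * g z =
      ∫ z in ball x (3 / 4 * sc s0 (m + r)), kk s0 m r (z - x) • g z := by
    refine setIntegral_congr_fun measurableSet_ball fun z hz => ?_
    change _ = kk s0 m r (z - x) • g z
    rw [kk_eq hs m r, smul_eq_mul]
    rw [mem_ball, dist_eq_norm] at hz
    exact hz.le
  rw [h1]
  exact setIntegral_le_integral (kk_smul_integrable hs hg m r x)
    (Filter.Eventually.of_forall fun z => mul_nonneg (kk_nonneg hs m r _) (h0 z))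

lemma kav_upper {s0 : ℝ} (hs : 0 < s0) {g : Sp d → ℝ} (hg : LB g) (h0 : ∀ z, 0 ≤ g z) (m r : ℕ)
    (x : Sp d) : kav s0 m (r + 1) g x ≤
      bk d 0 / (sc s0 (m + r)) ^ d * ∫ z in ball x (8 / 7 * sc s0 (m + r)), g z := by
  rw [kav_eq_kk' hs hg, ← integral_const_mul]
  rw [← setIntegral_eq_integral_of_forall_compl_eq_zero
    (s := ball x (8 / 7 * sc s0 (m + r)))]
  · refine setIntegral_mono_on ((kk_smul_integrable hs hg m r x).integrableOn)
      ((hg.integrableOn isBounded_ball).const_mul _) measurableSet_ball fun z _ => ?_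
    exact mul_le_mul_of_nonneg_right (kk_le hs m r _) (h0 z)
  · intro z hz
    rw [mem_ball, dist_eq_norm, not_lt] at hz
    rw [kk_supp hs m r hz, zero_smul]

lemma kav_compare {s0 : ℝ} (hs : 0 < s0) {g : Sp d → ℝ} (hg : LB g) (h0 : ∀ z, 0 ≤ g z)
    (m r : ℕ) (x z : Sp d) (hz : ‖z - x‖ ≤ 4 * sc s0 (m + r)) :
    kav s0 m (r + 1) g z ≤ 8 ^ d * kav s0 m (r + 2) g x := by
  have hp := sc_pos hs (m + r)
  have h1 := kav_upper hs hg h0 m r z
  have h2 := kav_lower hs hg h0 m (r + 1) x
  have hsucc : sc s0 (m + (r + 1)) = 8 * sc s0 (m + r) := by rw [← sc_succ]; rfl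
  rw [hsucc] at h2
  have h3 : ∫ w in ball z (8 / 7 * sc s0 (m + r)), g w ≤
      ∫ w in ball x (3 / 4 * (8 * sc s0 (m + r))), g w := by
    refine setIntegral_mono_set (hg.integrableOn isBounded_ball)
      (Filter.Eventually.of_forall fun z => h0 z) (Filter.Eventually.of_forall ?_)
    intro w hw
    change w ∈ ball z _ at hw
    change w ∈ ball x _
    rw [mem_ball, dist_eq_norm] at hw ⊢
    have h4 : ‖w - x‖ ≤ ‖w - z‖ + ‖z - x‖ := by
      rw [← sub_add_sub_cancel w z x]; exact norm_add_le _ _
    linarith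
  have hb := bk_zero_pos (d := d)
  calc kav s0 m (r + 1) g z ≤ _ := h1
    _ ≤ bk d 0 / (sc s0 (m + r)) ^ d * ∫ w in ball x (3 / 4 * (8 * sc s0 (m + r))), g w :=
        mul_le_mul_of_nonneg_left h3 (by positivity)
    _ = 8 ^ d * (bk d 0 / (8 * sc s0 (m + r)) ^ d *
          ∫ w in ball x (3 / 4 * (8 * sc s0 (m + r))), g w) := by
        rw [mul_pow]
        field_simp
    _ ≤ _ := mul_le_mul_of_nonneg_left h2 (by positivity)

/-- av s g x only depends on g near x -/
lemma av_congr {s : ℝ} {g h : Sp d → F} (x : Sp d)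
    (hgh : ∀ z, ‖z - x‖ ≤ |s| → g z = h z) : av s g x = av s h x := by
  rw [av_def, av_def]
  congr 1
  ext y
  by_cases hy : 1 ≤ ‖y‖
  · simp [bk_zero hy]
  · rw [hgh]
    rw [add_sub_cancel_left, norm_smul, Real.norm_eq_abs]
    push Not at hy
    nlinarith [abs_nonneg s, norm_nonneg y]

lemma av_mono_local {s : ℝ} {g h : Sp d → ℝ} (hg : LB g) (hh : LB h) (x : Sp d)
    (hgh : ∀ z, ‖z - x‖ ≤ |s| → g z ≤ h z) : av s g x ≤ av s h x := by
  refine integral_mono (hg.av_integrable s x) (hh.av_integrable s x) fun y => ?_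
  by_cases hy : 1 ≤ ‖y‖
  · simp [bk_zero hy]
  · refine mul_le_mul_of_nonneg_left (hgh _ ?_) (bk_nonneg y)
    rw [add_sub_cancel_left, norm_smul, Real.norm_eq_abs]
    push Not at hy
    nlinarith [abs_nonneg s, norm_nonneg y]

lemma sc_add_one (s0 : ℝ) (m r : ℕ) : sc s0 (m + (r + 1)) = 8 * sc s0 (m + r) := by
  rw [← sc_succ]; rfl

/-- kav s0 m r g x only depends on g on the ball of radius sc s0 (m + r) / 7 -/
lemma kav_congr {s0 : ℝ} (hs : 0 < s0) {g h : Sp d → F} (m r : ℕ) (x : Sp d)
    (hgh : ∀ z, ‖z - x‖ ≤ sc s0 (m + r) / 7 → g z = h z) : kav s0 m r g x = kav s0 m r h x := by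
  induction r generalizing x with
  | zero => exact hgh x (by have := sc_pos hs (m + 0); rw [sub_self, norm_zero]; positivity)
  | succ r ih =>
    have hp := sc_pos hs (m + r)
    rw [kav_succ, kav_succ]
    refine av_congr x fun z hz => ih z fun w hw => hgh w ?_
    rw [abs_of_pos hp] at hz
    rw [sc_add_one]
    have h4 : ‖w - x‖ ≤ ‖w - z‖ + ‖z - x‖ := by
      rw [← sub_add_sub_cancel w z x]; exact norm_add_le _ _
    linarith

lemma kav_mono_local {s0 : ℝ} (hs : 0 < s0) {g h : Sp d → ℝ} (hg : LB g) (hh : LB h) (m r : ℕ)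
    (x : Sp d) (hgh : ∀ z, ‖z - x‖ ≤ sc s0 (m + r) / 7 → g z ≤ h z) :
    kav s0 m r g x ≤ kav s0 m r h x := by
  induction r generalizing x with
  | zero => exact hgh x (by have := sc_pos hs (m + 0); rw [sub_self, norm_zero]; positivity)
  | succ r ih =>
    have hp := sc_pos hs (m + r)
    rw [kav_succ, kav_succ]
    refine av_mono_local (hg.kav s0 m r) (hh.kav s0 m r) x fun z hz => ih z fun w hw => hgh w ?_
    rw [abs_of_pos hp] at hz
    rw [sc_add_one]
    have h4 : ‖w - x‖ ≤ ‖w - z‖ + ‖z - x‖ := by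
      rw [← sub_add_sub_cancel w z x]; exact norm_add_le _ _
    linarith

lemma int_ball_kav_ge {s0 : ℝ} (hs : 0 < s0) {g : Sp d → ℝ} (hg : LB g) (h0 : ∀ z, 0 ≤ g z)
    (m r : ℕ) (q : Sp d) (ρ : ℝ) :
    ∫ z in ball q ρ, g z ≤ ∫ z in ball q (ρ + sc s0 (m + r) / 7), kav s0 m r g z := by
  induction r with
  | zero =>
    refine setIntegral_mono_set ((hg.kav s0 m 0).integrableOn isBounded_ball)
      (Filter.Eventually.of_forall fun z => h0 z) (Filter.Eventually.of_forall ?_)
    exact ball_subset_ball (by have := sc_pos hs (m + 0); linarith)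
  | succ r ih =>
    have hp := sc_pos hs (m + r)
    refine ih.trans ((int_ball_av_ge (hg.kav s0 m r) (kav_nonneg h0 s0 m r) hp.le q _).trans ?_)
    refine le_of_eq ?_
    rw [kav_succ, sc_add_one]
    congr 3
    ring

lemma int_ball_kav_le {s0 : ℝ} (hs : 0 < s0) {g : Sp d → ℝ} (hg : LB g) (h0 : ∀ z, 0 ≤ g z)
    (m r : ℕ) (q : Sp d) (ρ : ℝ) :
    ∫ z in ball q ρ, kav s0 m r g z ≤ ∫ z in ball q (ρ + sc s0 (m + r) / 7), g z := by
  induction r generalizing ρ with
  | zero =>
    refine setIntegral_mono_set (hg.integrableOn isBounded_ball)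
      (Filter.Eventually.of_forall fun z => h0 z) (Filter.Eventually.of_forall ?_)
    exact ball_subset_ball (by have := sc_pos hs (m + 0); linarith)
  | succ r ih =>
    have hp := sc_pos hs (m + r)
    refine (int_ball_av_le (hg.kav s0 m r) (kav_nonneg h0 s0 m r) hp.le q _).trans
      ((ih _).trans (le_of_eq ?_))
    rw [sc_add_one]
    congr 3
    ring

/-! ## the field at its levels -/

lemma fl_zero (s0 : ℝ) (f : Sp d → F) : fl s0 f 0 = f := rfl

lemma fl_succ (s0 : ℝ) (f : Sp d → F) (n : ℕ) : fl s0 f (n + 1) = av (sc s0 n) (fl s0 f n) := by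
  unfold fl
  rw [kav_succ, zero_add]

lemma fl_kav (s0 : ℝ) (f : Sp d → F) {m n : ℕ} (h : m ≤ n) :
    kav s0 m (n - m) (fl s0 f m) = fl s0 f n := by
  have := kav_comp s0 0 m (n - m) f
  rw [zero_add] at this
  unfold fl
  rw [this]
  congr 1
  omega

lemma fl_cont {f : Sp d → F} (hf : Continuous f) (s0 : ℝ) (n : ℕ) : Continuous (fl s0 f n) :=
  kav_cont hf s0 0 n

lemma fl_cs {f : Sp d → F} (hf : HasCompactSupport f) (s0 : ℝ) (n : ℕ) :
    HasCompactSupport (fl s0 f n) := kav_cs hf s0 0 n

lemma gap_nonneg (s0 : ℝ) (f : Sp d → F) (n : ℕ) (x : Sp d) : 0 ≤ gap s0 f n x := by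
  unfold gap
  rw [fl_succ]
  have := norm_av_le (fl s0 f n) (sc s0 n) x
  linarith

lemma gap_cont {f : Sp d → F} (hf : Continuous f) (s0 : ℝ) (n : ℕ) :
    Continuous (gap s0 f n) :=
  (av_cont (fl_cont hf s0 n).norm _).sub (fl_cont hf s0 (n + 1)).norm

lemma gap_cs {f : Sp d → F} (hf : HasCompactSupport f) (s0 : ℝ) (n : ℕ) :
    HasCompactSupport (gap s0 f n) :=
  (av_cs (fl_cs hf s0 n).norm _).sub (fl_cs hf s0 (n + 1)).norm

lemma gap_int {f : Sp d → F} (hf : Continuous f) (hf' : HasCompactSupport f) (s0 : ℝ) (n : ℕ) :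
    ∫ x, gap s0 f n x = (∫ x, ‖fl s0 f n x‖) - ∫ x, ‖fl s0 f (n + 1) x‖ := by
  have h1 : LB (fun z => ‖fl s0 f n z‖) := LB.of_cont (fl_cont hf s0 n).norm
  have h2 : Integrable (fun z => ‖fl s0 f n z‖) := h1.integrable (fl_cs hf' s0 n).norm
  have h3 : Integrable (fun z => ‖fl s0 f (n + 1) z‖) :=
    (LB.of_cont (fl_cont hf s0 (n + 1)).norm).integrable (fl_cs hf' s0 (n + 1)).norm
  unfold gap
  rw [integral_sub (av_integrable h2 h1 _) h3, av_int h2 h1]

lemma er_cont {f : Sp d → F} (hf : Continuous f) (s0 : ℝ) (n : ℕ) : Continuous (er s0 f n) := by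
  unfold er
  refine continuous_const.mul (continuous_finsetSum _ fun k _ => ?_)
  exact continuous_const.mul (kav_cont (gap_cont hf s0 k) s0 _ _)

lemma LB.gap {f : Sp d → F} (hf : Continuous f) (s0 : ℝ) (n : ℕ) : LB (gap s0 f n) :=
  LB.of_cont (gap_cont hf s0 n)

/-- the integral over a moving ball is continuous -/
lemma ball_int_cont {g : Sp d → ℝ} (hg : Continuous g) (r : ℝ) :
    Continuous fun x => ∫ z in ball x r, g z := by
  have h1 : ∀ x : Sp d, ∫ z in ball x r, g z = ∫ z in ball (0 : Sp d) r, g (z + x) := by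
    intro x
    rw [setIntegral_ball_add, zero_add]
  simp only [h1]
  have : IsFiniteMeasure (volume.restrict (ball (0 : Sp d) r)) := ⟨by
    rw [Measure.restrict_apply_univ]; exact measure_ball_lt_top⟩
  rw [continuous_iff_continuousAt]
  intro x
  have hc : IsCompact (closedBall x 1) := isCompact_closedBall _ _
  obtain ⟨M, hM⟩ := (isCompact_closedBall (0 : Sp d) (‖x‖ + 1 + r)).exists_bound_of_continuousOn
    hg.continuousOn
  refine continuousAt_of_dominated (bound := fun _ => M) ?_ ?_ (integrable_const M) ?_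
  · refine Filter.Eventually.of_forall fun y => ?_
    exact (hg.comp (by fun_prop)).aestronglyMeasurable
  · filter_upwards [closedBall_mem_nhds x one_pos] with y hy
    filter_upwards [ae_restrict_mem measurableSet_ball] with z hz
    refine hM _ ?_
    rw [mem_closedBall, dist_zero_right]
    rw [mem_ball, dist_zero_right] at hz
    rw [mem_closedBall, dist_eq_norm] at hy
    have h2 := norm_add_le z y
    have h3 : ‖y‖ ≤ ‖x‖ + ‖y - x‖ := by
      have := norm_add_le x (y - x)
      rwa [add_sub_cancel] at this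
    linarith
  · exact Filter.Eventually.of_forall fun z => (hg.comp (by fun_prop)).continuousAt

lemma am_cont {f : Sp d → F} (hf : Continuous f) (s0 : ℝ) (n : ℕ) : Continuous (am s0 f n) := by
  unfold am
  exact continuous_const.mul (ball_int_cont (fl_cont hf s0 n).norm _)

/-- the deviation formula -/
lemma dev_eq {f : Sp d → F} (hf : Continuous f) (s0 : ℝ) {m n : ℕ} (h : m ≤ n) (x : Sp d) :
    kav s0 m (n - m) (fun z => ‖fl s0 f m z‖) x - ‖fl s0 f n x‖ =
      ∑ k ∈ Finset.Ico m n, kav s0 (k + 1) (n - k - 1) (gap s0 f k) x := by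
  induction n, h using Nat.le_induction generalizing x with
  | base => simp [kav]
  | succ n hmn ih =>
    have e1 : n + 1 - m = (n - m) + 1 := by omega
    rw [e1, kav_succ, Finset.sum_Ico_succ_top hmn]
    have e2 : m + (n - m) = n := by omega
    rw [e2]
    have h1 : LB (fun z => ‖fl s0 f m z‖) := LB.of_cont (fl_cont hf s0 m).norm
    have h2 : LB (fun z => ‖fl s0 f n z‖) := LB.of_cont (fl_cont hf s0 n).norm
    have e3 : av (sc s0 n) (kav s0 m (n - m) fun z => ‖fl s0 f m z‖) x -
        av (sc s0 n) (fun z => ‖fl s0 f n z‖) x =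
        ∑ k ∈ Finset.Ico m n, kav s0 (k + 1) (n + 1 - k - 1) (gap s0 f k) x := by
      rw [← av_sub (h1.kav _ _ _) h2]
      have e4 : (fun z => kav s0 m (n - m) (fun z => ‖fl s0 f m z‖) z - ‖fl s0 f n z‖) =
          fun z => ∑ k ∈ Finset.Ico m n, kav s0 (k + 1) (n - k - 1) (gap s0 f k) z := by
        ext z
        exact ih z
      rw [e4, av_sum _ fun k _ => (LB.gap hf s0 k).kav _ _ _]
      refine Finset.sum_congr rfl fun k hk => ?_
      rw [Finset.mem_Ico] at hk
      have e5 : n + 1 - k - 1 = (n - k - 1) + 1 := by omega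
      rw [e5, kav_succ]
      congr 2
      omega
    have e6 : n + 1 - n - 1 = 0 := by omega
    rw [e6, ← e3]
    simp only [kav, gap]
    ring

end LBfacts

end

end TrI


end

section

/-!
# Trace inequality, stage 2: module KD (derivatives of averages fall on the kernel)
-/

open MeasureTheory Metric Set Filter
open scoped InnerProductSpace ContDiff Topology Convolution

namespace TrI

noncomputable section

variable {d : ℕ}

section General

variable {W E G : Type*} [NormedAddCommGroup W] [NormedSpace ℝ W] [NormedAddCommGroup E]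
  [NormedSpace ℝ E] [NormedAddCommGroup G] [NormedSpace ℝ G]

/-- functions vanishing outside the unit ball have compact support -/
lemma cs_of_vanish {K : Sp d → W} (hK : ∀ y, 1 ≤ ‖y‖ → K y = 0) : HasCompactSupport K := by
  refine HasCompactSupport.intro (isCompact_closedBall (0 : Sp d) 1) fun x hx => hK x ?_
  rw [mem_closedBall, dist_zero_right] at hx
  linarith [not_le.mp hx]

lemma kernel_integrable (B : W →L[ℝ] E →L[ℝ] G) {K : Sp d → W} (hKc : Continuous K)
    (hK : ∀ y, 1 ≤ ‖y‖ → K y = 0) {f : Sp d → E} (hf : Continuous f) (s : ℝ) (z : Sp d) :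
    Integrable (fun y => B (K y) (f (z + s • y))) := by
  refine Continuous.integrable_of_hasCompactSupport (by fun_prop) ?_
  refine cs_of_vanish fun y hy => ?_
  rw [hK y hy]
  simp

lemma kernel_eq_conv (B : W →L[ℝ] E →L[ℝ] G) (K : Sp d → W) (f : Sp d → E) {s : ℝ}
    (hs : s ≠ 0) (z : Sp d) :
    ∫ y, B (K y) (f (z + s • y)) =
      |(s ^ Module.finrank ℝ (Sp d))⁻¹| •
        (f ⋆[B.flip, (volume : Measure (Sp d))] (fun w => K ((-s)⁻¹ • w))) z := by
  rw [convolution_def]
  have h1 := Measure.integral_comp_smul (volume : Measure (Sp d))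
    (fun t => B (K (s⁻¹ • t)) (f (z + t))) s
  have h2 : (fun y => B (K (s⁻¹ • s • y)) (f (z + s • y))) =
      fun y => B (K y) (f (z + s • y)) := by
    funext y
    rw [smul_smul, inv_mul_cancel₀ hs, one_smul]
  rw [h2] at h1
  rw [h1]
  congr 1
  rw [← integral_add_left_eq_self (μ := (volume : Measure (Sp d)))
    (fun t => B.flip (f t) (K ((-s)⁻¹ • (z - t)))) z]
  refine integral_congr_ae (Eventually.of_forall fun t => ?_)
  show B (K (s⁻¹ • t)) (f (z + t)) = B.flip (f (z + t)) (K ((-s)⁻¹ • (z - (z + t))))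
  have e : (-s)⁻¹ • (z - (z + t)) = s⁻¹ • t := by
    rw [sub_add_cancel_left, smul_neg, ← neg_smul, inv_neg, neg_neg]
  rw [e, ContinuousLinearMap.flip_apply]

lemma kernel_hasFDerivAt [CompleteSpace G] (B : W →L[ℝ] E →L[ℝ] G) {K : Sp d → W}
    (hKc : ContDiff ℝ 1 K) (hK : ∀ y, 1 ≤ ‖y‖ → K y = 0) {f : Sp d → E} (hf : Continuous f)
    {s : ℝ} (hs : 0 < s) (z : Sp d) :
    HasFDerivAt (fun z => ∫ y, B (K y) (f (z + s • y)))
      ((-1 / s) • ∫ y, (B.flip (f (z + s • y))).comp (fderiv ℝ K y)) z := by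
  have hs' : s ≠ 0 := hs.ne'
  set c : ℝ := |(s ^ Module.finrank ℝ (Sp d))⁻¹| with hc
  set B' : (Sp d →L[ℝ] W) →L[ℝ] E →L[ℝ] (Sp d →L[ℝ] G) := (B.flip.precompR (Sp d)).flip with hB'
  have hB'a : ∀ A e, B' A e = (B.flip e).comp A := fun A e => rfl
  have e1 : (fun z => ∫ y, B (K y) (f (z + s • y))) =
      c • (f ⋆[B.flip, (volume : Measure (Sp d))] (fun w => K ((-s)⁻¹ • w))) := by
    funext z
    exact kernel_eq_conv B K f hs' z
  have hcs : HasCompactSupport (fun w => K ((-s)⁻¹ • w)) := by
    refine HasCompactSupport.intro (isCompact_closedBall (0 : Sp d) s) fun x hx => hK _ ?_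
    rw [mem_closedBall, dist_zero_right, not_le] at hx
    rw [norm_smul, norm_inv, norm_neg, Real.norm_eq_abs, abs_of_pos hs, inv_mul_eq_div,
      le_div_iff₀ hs]
    linarith
  have hcd : ContDiff ℝ 1 (fun w => K ((-s)⁻¹ • w)) := hKc.comp (contDiff_const_smul _)
  have h1 := (hcs.hasFDerivAt_convolution_right B.flip
    (hf.locallyIntegrable (μ := (volume : Measure (Sp d)))) hcd z).const_smul c
  rw [e1]
  have e2 : (fderiv ℝ fun w => K ((-s)⁻¹ • w)) =
      (-s)⁻¹ • (fun w => fderiv ℝ K ((-s)⁻¹ • w)) := by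
    funext w
    rw [fderiv_comp_smul]
    rfl
  have e3 : (f ⋆[B.flip.precompR (Sp d), (volume : Measure (Sp d))]
      (fderiv ℝ fun w => K ((-s)⁻¹ • w))) z =
      (-s)⁻¹ • (f ⋆[B'.flip, (volume : Measure (Sp d))]
        (fun w => fderiv ℝ K ((-s)⁻¹ • w))) z := by
    rw [e2, convolution_smul]
    rfl
  have e4 : ∫ y, (B.flip (f (z + s • y))).comp (fderiv ℝ K y) =
      c • (f ⋆[B'.flip, (volume : Measure (Sp d))]
        (fun w => fderiv ℝ K ((-s)⁻¹ • w))) z :=
    kernel_eq_conv B' (fderiv ℝ K) f hs' z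
  have e5 : (-1 / s) • ∫ y, (B.flip (f (z + s • y))).comp (fderiv ℝ K y) =
      c • (f ⋆[B.flip.precompR (Sp d), (volume : Measure (Sp d))]
      (fderiv ℝ fun w => K ((-s)⁻¹ • w))) z := by
    rw [e3, e4, smul_comm]
    congr 2
    rw [inv_neg, neg_div, one_div]
  rw [e5]
  exact h1

end General

lemma fderiv_vanish {W : Type*} [NormedAddCommGroup W] [NormedSpace ℝ W] {K : Sp d → W}
    (hKc : ContDiff ℝ 1 K) (hK : ∀ y, 1 ≤ ‖y‖ → K y = 0) : ∀ y, 1 ≤ ‖y‖ → fderiv ℝ K y = 0 := by
  intro y hy
  rcases hy.lt_or_eq with h | h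
  · have hev : K =ᶠ[𝓝 y] fun _ => 0 := by
      have hop : IsOpen {x : Sp d | 1 < ‖x‖} := isOpen_lt continuous_const continuous_norm
      filter_upwards [hop.mem_nhds h] with x hx
      exact hK x (le_of_lt hx)
    rw [hev.fderiv_eq]
    simp
  · -- limit from outside
    have hcont : Continuous (fderiv ℝ K) := hKc.continuous_fderiv one_ne_zero
    have hseq : Tendsto (fun n : ℕ => (1 + 1 / ((n : ℝ) + 1)) • y) atTop (𝓝 y) := by
      have h1 : Tendsto (fun n : ℕ => 1 + 1 / ((n : ℝ) + 1)) atTop (𝓝 (1 + 0)) :=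
        tendsto_const_nhds.add tendsto_one_div_add_atTop_nhds_zero_nat
      have h2 := h1.smul_const y
      simpa using h2
    have hlim := (hcont.tendsto y).comp hseq
    have hzero : ∀ n : ℕ, fderiv ℝ K ((1 + 1 / ((n : ℝ) + 1)) • y) = 0 := by
      intro n
      have hn : (0 : ℝ) < 1 / ((n : ℝ) + 1) := by positivity
      have hgt : 1 < ‖(1 + 1 / ((n : ℝ) + 1)) • y‖ := by
        rw [norm_smul, ← h, mul_one, Real.norm_eq_abs, abs_of_pos (by linarith)]
        linarith
      have hev : K =ᶠ[𝓝 ((1 + 1 / ((n : ℝ) + 1)) • y)] fun _ => 0 := by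
        have hop : IsOpen {x : Sp d | 1 < ‖x‖} := isOpen_lt continuous_const continuous_norm
        filter_upwards [hop.mem_nhds hgt] with x hx
        exact hK x (le_of_lt hx)
      rw [hev.fderiv_eq]
      simp
    have hlim2 : Tendsto (fun n : ℕ => fderiv ℝ K ((1 + 1 / ((n : ℝ) + 1)) • y)) atTop (𝓝 0) := by
      simp only [hzero]
      exact tendsto_const_nhds
    exact tendsto_nhds_unique hlim hlim2

lemma iteratedFDeriv_vanish {ψ : Sp d → ℝ} (hψ : ContDiff ℝ ∞ ψ) (h0 : ∀ y, 1 ≤ ‖y‖ → ψ y = 0)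
    (n : ℕ) : ∀ y, 1 ≤ ‖y‖ → iteratedFDeriv ℝ n ψ y = 0 := by
  induction n with
  | zero =>
    intro y hy
    ext m
    rw [iteratedFDeriv_zero_apply, h0 y hy]
    rfl
  | succ n ih =>
    intro y hy
    have h1 : ContDiff ℝ 1 (iteratedFDeriv ℝ n ψ) := by
      refine hψ.iteratedFDeriv_right (m := 1) ?_
      exact_mod_cast le_top
    have h2 := fderiv_vanish h1 ih y hy
    ext m
    rw [iteratedFDeriv_succ_apply_left, h2]
    rfl

/-- MODULE KD -/
theorem stmtKD : StmtKD := by
  intro d E _ _ _ ψ hψ h0 f hf s hs n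
  induction n with
  | zero =>
    intro z
    ext m
    rw [iteratedFDeriv_zero_apply, pow_zero, one_smul]
    have hint := kernel_integrable (ContinuousMultilinearMap.smulRightL ℝ (fun _ : Fin 0 => Sp d) E)
      (K := iteratedFDeriv ℝ 0 ψ) (hψ.continuous_iteratedFDeriv (by simp))
      (iteratedFDeriv_vanish hψ h0 0) hf s z
    have h1 := (ContinuousMultilinearMap.apply ℝ (fun _ : Fin 0 => Sp d) E m).integral_comp_comm
      hint
    simp only [ContinuousMultilinearMap.apply_apply] at h1
    refine Eq.trans ?_ h1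
    refine integral_congr_ae (Eventually.of_forall fun y => ?_)
    simp [avk, ContinuousMultilinearMap.smulRightL_apply]
  | succ n ih =>
    intro z
    have hK1 : ContDiff ℝ 1 (iteratedFDeriv ℝ n ψ) := by
      refine hψ.iteratedFDeriv_right (m := 1) ?_
      exact_mod_cast le_top
    have hK0 := iteratedFDeriv_vanish hψ h0 n
    have hfun : ((-1 / s : ℝ) ^ n • fun z =>
        ∫ y, (ContinuousMultilinearMap.smulRightL ℝ (fun _ : Fin n => Sp d) E)
          (iteratedFDeriv ℝ n ψ y) (f (z + s • y))) = iteratedFDeriv ℝ n (avk ψ s f) := by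
      funext z
      exact (ih z).symm
    have hD := HasFDerivAt.const_smul (kernel_hasFDerivAt
      (ContinuousMultilinearMap.smulRightL ℝ (fun _ : Fin n => Sp d) E) hK1 hK0 hf hs z)
      ((-1 / s : ℝ) ^ n)
    rw [hfun] at hD
    ext m
    rw [iteratedFDeriv_succ_apply_left, hD.fderiv]
    -- evaluation of the left side
    have hint1 : Integrable (fun y =>
        ((ContinuousMultilinearMap.smulRightL ℝ (fun _ : Fin n => Sp d) E).flip
          (f (z + s • y))).comp (fderiv ℝ (iteratedFDeriv ℝ n ψ) y)) :=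
      kernel_integrable (((ContinuousMultilinearMap.smulRightL ℝ (fun _ : Fin n => Sp d)
        E).flip.precompR (Sp d)).flip) (hK1.continuous_fderiv one_ne_zero) (fderiv_vanish hK1 hK0) hf s z
    have hint2 := kernel_integrable
      (ContinuousMultilinearMap.smulRightL ℝ (fun _ : Fin (n + 1) => Sp d) E)
      (K := iteratedFDeriv ℝ (n + 1) ψ) (hψ.continuous_iteratedFDeriv (by exact_mod_cast le_top))
      (iteratedFDeriv_vanish hψ h0 (n + 1)) hf s z
    have h1 := ((ContinuousMultilinearMap.apply ℝ (fun _ : Fin n => Sp d) E (Fin.tail m)).comp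
      (ContinuousLinearMap.apply ℝ (ContinuousMultilinearMap ℝ (fun _ : Fin n => Sp d) E)
        (m 0))).integral_comp_comm hint1
    have h2 := (ContinuousMultilinearMap.apply ℝ (fun _ : Fin (n + 1) => Sp d) E
      m).integral_comp_comm hint2
    simp only [ContinuousLinearMap.comp_apply, ContinuousLinearMap.apply_apply,
      ContinuousMultilinearMap.apply_apply, ContinuousLinearMap.flip_apply,
      ContinuousMultilinearMap.smulRightL_apply] at h1 h2
    have h3 : (∫ y, (iteratedFDeriv ℝ (n + 1) ψ y).smulRight (f (z + s • y))) m =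
        (∫ y, ((ContinuousMultilinearMap.smulRightL ℝ (fun _ : Fin n => Sp d) E).flip
          (f (z + s • y))).comp (fderiv ℝ (iteratedFDeriv ℝ n ψ) y)) (m 0) (Fin.tail m) := by
      rw [← h1, ← h2]
      refine integral_congr_ae (Eventually.of_forall fun y => ?_)
      simp only [ContinuousMultilinearMap.smulRight_apply]
      rw [iteratedFDeriv_succ_apply_left]
    simp only [ContinuousLinearMap.smul_apply, ContinuousMultilinearMap.smul_apply]
    rw [h3, smul_smul, pow_succ]

end

end TrI


end
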