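import Mathlib
import Pool.Agent.TRM.C01
import Pool.Agent.TRM.C02
import Pool.Agent.TRM.C03
import Pool.Agent.TRM.C04
import Pool.Agent.TRM.C05

/-! Parts: TG.AL0, TR.NS, TG.AL1, TG.AL3, TG.AL4, TG.AL2, TG.AL, TG.PE, TG.TW, TG.FM, TG.TreeTY, TG.TreeRH -/

section

/-!
# Module AL: symbols
-/

open MeasureTheory Metric Set TrI MvPolynomial
open scoped InnerProductSpace ContDiff

namespace TG

noncomputable section

/-- symbol of opNu -/
def sNu {d : ℕ} (v : Sp d) : MvPolynomial (Fin d) ℝ :=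
  ∑ i, X i ^ 2 - (∑ i, C (v i) * X i) ^ 2

/-- symbol of qD -/
def sQ {d : ℕ} (S : Sp d →L[ℝ] Sp d) : MvPolynomial (Fin d) ℝ :=
  ∑ k, (∑ i, C ((S (EuclideanSpace.single k (1 : ℝ))) i) * X i) ^ 2

/-- module AL2: from symbols to operators -/
def StmtAL2 : Prop :=
  ∀ (d : ℕ) (V E : Type) [NormedAddCommGroup V] [InnerProductSpace ℝ V] [FiniteDimensional ℝ V]
    [NormedAddCommGroup E] [InnerProductSpace ℝ E] [FiniteDimensional ℝ E]
    (L : (Sp d →L[ℝ] V) →L[ℝ] E) (e0 : E) (r q Mx m : ℕ) (ν : Fin r → Sp d)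
    (S : Fin q → (Sp d →L[ℝ] Sp d))
    (Y : Fin (Module.finrank ℝ E) → MvPolynomial (Fin d) ℝ),
    (∀ k, (Y k).IsHomogeneous m) →
    (∀ j : Fin (Module.finrank ℝ V), ∑ k, Y k * ∑ i, C (⟪stdOrthonormalBasis ℝ E k,
      L (rk1 (EuclideanSpace.single i (1 : ℝ)) (stdOrthonormalBasis ℝ V j))⟫_ℝ) * X i = 0) →
    ∑ k, Y k * C (⟪stdOrthonormalBasis ℝ E k, e0⟫_ℝ) =
      ((∏ i, sNu (ν i)) * ∏ k, sQ (S k)) ^ Mx →
    ∃ TY : (ContinuousMultilinearMap ℝ (fun _ : Fin m => Sp d) ℝ) →L[ℝ] E,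
      (∀ ζ : Sp d → ℝ, ContDiff ℝ ∞ ζ → ∀ x,
        ⟪e0, TY (iteratedFDeriv ℝ m ζ x)⟫_ℝ = (allOp ν S)^[Mx] ζ x) ∧
      (∀ (u : Sp d → V) (ζ : Sp d → ℝ), ContDiff ℝ ∞ u → ContDiff ℝ ∞ ζ → HasCompactSupport ζ →
        ∫ x, ⟪fo L u x, TY (iteratedFDeriv ℝ m ζ x)⟫_ℝ = 0)

end

end TG


end

section

/-!
# Trace inequality, stage 2, module NS: the Nullstellensatz

For a ℂ-elliptic operator the derivatives of order n+1 of u are linear images of the derivatives
of order n of L(Du), for some n.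
-/

open MeasureTheory Metric Set
open scoped InnerProductSpace ContDiff

namespace TrI

noncomputable section

section algebra

open MvPolynomial Matrix

variable {σ κ ν : Type} [Fintype σ] [Fintype κ] [Fintype ν] [DecidableEq ν] [DecidableEq κ]
  [DecidableEq σ]

/-- product with a constant matrix -/
def bp (B : Matrix ν κ ℂ) (P : Matrix κ ν (MvPolynomial σ ℂ)) :
    Matrix ν ν (MvPolynomial σ ℂ) := Matrix.of fun i j => ∑ k, C (B i k) * P k j

/-- Cramer: the determinants of B * A(X) kill the functionals which are killed by A(X). -/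
theorem ns_kill (P : Matrix κ ν (MvPolynomial σ ℂ)) (φ : ν → (MvPolynomial σ ℂ →ₗ[ℂ] ℂ))
    (h : ∀ k Q, ∑ j, φ j (P k j * Q) = 0) (B : Matrix ν κ ℂ) (i : ν) (Q : MvPolynomial σ ℂ) :
    φ i ((bp B P).det * Q) = 0 := by
  set M : Matrix ν ν (MvPolynomial σ ℂ) := bp B P with hM
  have h1 : ∀ l Q, ∑ j, φ j (M l j * Q) = 0 := by
    intro l Q
    have h2 : ∀ j, φ j (M l j * Q) = ∑ k, B l k * φ j (P k j * Q) := by
      intro j
      rw [hM, bp, Matrix.of_apply, Finset.sum_mul, map_sum]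
      refine Finset.sum_congr rfl fun k _ => ?_
      rw [mul_assoc, ← MvPolynomial.smul_eq_C_mul, map_smul, smul_eq_mul]
    simp_rw [h2]
    rw [Finset.sum_comm]
    refine Finset.sum_eq_zero fun k _ => ?_
    rw [← Finset.mul_sum, h, mul_zero]
  have h3 : φ i (M.det * Q) = ∑ j, φ j ((M.adjugate * M) i j * Q) := by
    rw [Matrix.adjugate_mul]
    rw [Finset.sum_eq_single i]
    · simp
    · intro j _ hj
      simp [Matrix.smul_apply, Matrix.one_apply_ne hj.symm]
    · intro h; exact absurd (Finset.mem_univ i) h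
  rw [h3]
  have h4 : ∀ j, φ j ((M.adjugate * M) i j * Q) = ∑ l, φ j (M l j * (M.adjugate i l * Q)) := by
    intro j
    rw [Matrix.mul_apply, Finset.sum_mul, map_sum]
    refine Finset.sum_congr rfl fun l _ => ?_
    congr 1; ring
  simp_rw [h4]
  rw [Finset.sum_comm]
  exact Finset.sum_eq_zero fun l _ => h1 l _

/-- Nullstellensatz for a matrix of linear forms which is injective at every nonzero point. -/
theorem ns_alg (A : σ → Matrix κ ν ℂ)
    (hA : ∀ x : σ → ℂ, x ≠ 0 → ∀ v : ν → ℂ, (∑ i, x i • A i) *ᵥ v = 0 → v = 0) :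
    ∃ m0 : ℕ, ∀ a : (σ →₀ ℕ) → ν → ℂ,
      (∀ k β, ∑ j, ∑ i, A i k j * a (β + Finsupp.single i 1) j = 0) →
      ∀ α : σ →₀ ℕ, m0 ≤ α.degree → ∀ j, a α j = 0 := by
  set P : Matrix κ ν (MvPolynomial σ ℂ) := Matrix.of fun k j => ∑ i, C (A i k j) * X i with hP
  set I : Ideal (MvPolynomial σ ℂ) :=
    Ideal.span (Set.range fun B : Matrix ν κ ℂ => (bp B P).det) with hI
  have hev : ∀ x : σ → ℂ, P.map (aeval x) = ∑ i, x i • A i := by
    intro x
    ext k j
    simp only [hP, Matrix.map_apply, Matrix.of_apply, map_sum, map_mul, aeval_X]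
    rw [Matrix.sum_apply]
    refine Finset.sum_congr rfl fun i _ => ?_
    simp [mul_comm]
  have hzero : ∀ x ∈ zeroLocus ℂ I, x = 0 := by
    intro x hx
    by_contra hne
    have hinj : Function.Injective (∑ i, x i • A i).mulVecLin := by
      rw [← LinearMap.ker_eq_bot, LinearMap.ker_eq_bot']
      intro v hv
      exact hA x hne v hv
    obtain ⟨g, hg⟩ := LinearMap.exists_leftInverse_of_injective _
      (LinearMap.ker_eq_bot.2 hinj)
    set B : Matrix ν κ ℂ := LinearMap.toMatrix' g with hB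
    have hBA : B * (∑ i, x i • A i) = 1 := by
      have h1 := congrArg LinearMap.toMatrix' hg
      rw [LinearMap.toMatrix'_comp, LinearMap.toMatrix'_id] at h1
      rw [← Matrix.toLin'_apply', LinearMap.toMatrix'_toLin'] at h1
      exact h1
    have hx1 : aeval x ((bp B P).det) = 0 :=
      hx _ (Ideal.subset_span ⟨B, rfl⟩)
    have hx2 : aeval x ((bp B P).det) =
        (B * (∑ i, x i • A i)).det := by
      rw [← hev]
      have h2 := (aeval x : MvPolynomial σ ℂ →ₐ[ℂ] ℂ).toRingHom.map_det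
        (bp B P)
      have h3 : (aeval x : MvPolynomial σ ℂ →ₐ[ℂ] ℂ).toRingHom.mapMatrix
          (bp B P) = B * P.map (aeval x) := by
        ext a b
        simp [Matrix.mul_apply, bp]
      rw [h3] at h2
      exact h2
    rw [hx2, hBA, Matrix.det_one] at hx1
    exact one_ne_zero hx1
  have hX : ∀ i : σ, (X i : MvPolynomial σ ℂ) ∈ I.radical := by
    intro i
    rw [← vanishingIdeal_zeroLocus_eq_radical (K := ℂ)]
    intro x hx
    rw [hzero x hx]
    simp
  choose e he using fun i => hX i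
  refine ⟨(∑ i, e i) + 1, ?_⟩
  intro a ha α hα j
  -- the functionals
  set φ : ν → (MvPolynomial σ ℂ →ₗ[ℂ] ℂ) := fun j =>
    (MvPolynomial.basisMonomials σ ℂ).constr ℂ (fun α => a α j) with hφ
  have hφm : ∀ j α (c : ℂ), φ j (monomial α c) = c * a α j := by
    intro j α c
    have h1 : (monomial α c : MvPolynomial σ ℂ) = c • (MvPolynomial.basisMonomials σ ℂ α) := by
      rw [MvPolynomial.coe_basisMonomials, MvPolynomial.smul_monomial, smul_eq_mul, mul_one]
    rw [h1, map_smul, hφ]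
    simp only [Module.Basis.constr_basis, smul_eq_mul]
  have hkill : ∀ k Q, ∑ j, φ j (P k j * Q) = 0 := by
    intro k Q
    induction Q using MvPolynomial.induction_on' with
    | monomial β c =>
      have h1 : ∀ j, φ j (P k j * monomial β c) =
          c * ∑ i, A i k j * a (β + Finsupp.single i 1) j := by
        intro j
        simp only [hP, Matrix.of_apply, Finset.sum_mul, map_sum, Finset.mul_sum]
        refine Finset.sum_congr rfl fun i _ => ?_
        have h2 : (C (A i k j) * X i * monomial β c : MvPolynomial σ ℂ) =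
            monomial (β + Finsupp.single i 1) (A i k j * c) := by
          rw [MvPolynomial.X, C_mul_monomial, monomial_mul, mul_one, add_comm]
        rw [h2, hφm]; ring
      simp_rw [h1]
      rw [← Finset.mul_sum, ha, mul_zero]
    | add p q hp hq =>
      simp_rw [mul_add, map_add, Finset.sum_add_distrib]
      rw [hp, hq, add_zero]
  have hIkill : ∀ p ∈ I, ∀ j Q, φ j (p * Q) = 0 := by
    intro p hp
    rw [hI] at hp
    refine Submodule.span_induction ?_ ?_ ?_ ?_ hp
    · rintro _ ⟨B, rfl⟩ j Q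
      exact ns_kill P φ hkill B j Q
    · intro j Q; simp
    · intro x y _ _ hx hy j Q
      rw [add_mul, map_add, hx, hy, add_zero]
    · intro c x _ hx j Q
      rw [smul_eq_mul, mul_comm c x, mul_assoc]
      exact hx j _
  -- some exponent is large
  have hex : ∃ i, e i ≤ α i := by
    by_contra hcon
    push Not at hcon
    have h1 : α.degree ≤ ∑ i, e i := by
      rw [Finsupp.degree_eq_sum]
      exact Finset.sum_le_sum fun i _ => (hcon i).le
    omega
  obtain ⟨i, hi⟩ := hex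
  have h5 : (monomial α (1 : ℂ) : MvPolynomial σ ℂ) =
      X i ^ (e i) * monomial (α - Finsupp.single i (e i)) 1 := by
    rw [MvPolynomial.X_pow_eq_monomial, monomial_mul, mul_one]
    congr 2
    rw [add_comm]
    exact (tsub_add_cancel_of_le (Finsupp.single_le_iff.2 hi)).symm
  have h6 := hIkill _ (he i) j (monomial (α - Finsupp.single i (e i)) 1)
  rw [← h5, hφm, one_mul] at h6
  exact h6

end algebra

section tuples

variable {m d : ℕ}

/-- content of a tuple -/
def cnt (t : Fin m → Fin d) : Fin d →₀ ℕ := ∑ r, Finsupp.single (t r) 1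

theorem cnt_apply (t : Fin m → Fin d) (c : Fin d) : cnt t c = Fintype.card {r // t r = c} := by
  classical
  rw [cnt, Finsupp.finset_sum_apply, Fintype.card_subtype, Finset.card_filter]
  refine Finset.sum_congr rfl fun r _ => ?_
  rw [Finsupp.single_apply]

theorem cnt_degree (t : Fin m → Fin d) : (cnt t).degree = m := by
  rw [cnt, map_sum]
  simp

theorem cnt_snoc (t : Fin m → Fin d) (i : Fin d) :
    cnt (Fin.snoc t i : Fin (m + 1) → Fin d) = cnt t + Finsupp.single i 1 := by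
  rw [cnt, cnt, Fin.sum_univ_castSucc]
  simp

theorem exists_perm_of_cnt (t t' : Fin m → Fin d) (h : cnt t = cnt t') :
    ∃ π : Equiv.Perm (Fin m), t ∘ π = t' := by
  classical
  have h1 : ∀ c, Fintype.card {r // t' r = c} = Fintype.card {r // t r = c} := by
    intro c; rw [← cnt_apply, ← cnt_apply, h]
  let e : ∀ c, {r // t' r = c} ≃ {r // t r = c} := fun c => Fintype.equivOfCardEq (h1 c)
  refine ⟨(Equiv.sigmaFiberEquiv t').symm.trans
    ((Equiv.sigmaCongrRight e).trans (Equiv.sigmaFiberEquiv t)), ?_⟩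
  funext r
  exact (e (t' r) ⟨r, rfl⟩).2

theorem exists_tuple (α : Fin d →₀ ℕ) : ∀ m : ℕ, α.degree = m →
    ∃ t : Fin m → Fin d, cnt t = α := by
  intro m
  induction m generalizing α with
  | zero =>
    intro h
    refine ⟨fun i => i.elim0, ?_⟩
    rw [Finsupp.degree_eq_zero_iff] at h
    rw [h, cnt]; simp
  | succ m ih =>
    intro h
    have hne : ∃ i, 1 ≤ α i := by
      by_contra hcon
      push Not at hcon
      have h0 : α = 0 := by
        ext i
        have := hcon i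
        simp; omega
      rw [h0] at h
      simp at h
    obtain ⟨i, hi⟩ := hne
    have hle : Finsupp.single i 1 ≤ α := Finsupp.single_le_iff.2 hi
    have h2 : α = (α - Finsupp.single i 1) + Finsupp.single i 1 :=
      (tsub_add_cancel_of_le hle).symm
    have h3 : (α - Finsupp.single i 1).degree = m := by
      have h4 := congrArg Finsupp.degree h2
      rw [map_add, h, Finsupp.degree_single] at h4
      omega
    obtain ⟨t, ht⟩ := ih _ h3
    refine ⟨Fin.snoc t i, ?_⟩
    rw [cnt_snoc, ht]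
    exact h2.symm

end tuples

section main

variable {d : ℕ} {V E : Type} [NormedAddCommGroup V] [InnerProductSpace ℝ V]
  [FiniteDimensional ℝ V] [NormedAddCommGroup E] [InnerProductSpace ℝ E]
  [FiniteDimensional ℝ E]

theorem rk1_expand (ξ : Sp d) (v : V) :
    rk1 ξ v = ∑ i, ∑ j, (ξ i * ⟪stdOrthonormalBasis ℝ V j, v⟫_ℝ) •
      rk1 (EuclideanSpace.single i (1 : ℝ)) (stdOrthonormalBasis ℝ V j) := by
  ext y
  have h1 : v = ∑ j, ⟪stdOrthonormalBasis ℝ V j, v⟫_ℝ • stdOrthonormalBasis ℝ V j :=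
    ((stdOrthonormalBasis ℝ V).sum_repr' v).symm
  have h2 : ⟪ξ, y⟫_ℝ = ∑ i, ξ i * y i := by
    rw [PiLp.inner_apply]
    refine Finset.sum_congr rfl fun i _ => ?_
    simp [mul_comm]
  simp only [rk1, ContinuousLinearMap.smulRight_apply, innerSL_apply_apply,
    ContinuousLinearMap.sum_apply, ContinuousLinearMap.smul_apply]
  rw [h2]
  conv_lhs => rw [h1]
  rw [Finset.sum_smul]
  refine Finset.sum_congr rfl fun i _ => ?_
  rw [Finset.smul_sum]
  refine Finset.sum_congr rfl fun j _ => ?_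
  rw [EuclideanSpace.inner_single_left]
  simp only [smul_smul]
  congr 1
  simp; ring

/-- a continuous linear map is the sum of its rank one parts -/
theorem clm_expand (M : Sp d →L[ℝ] V) :
    M = ∑ i, rk1 (EuclideanSpace.single i (1 : ℝ)) (M (EuclideanSpace.single i 1)) := by
  ext y
  simp only [rk1, ContinuousLinearMap.smulRight_apply, innerSL_apply_apply,
    ContinuousLinearMap.sum_apply]
  have h : y = ∑ i, y i • EuclideanSpace.single i (1 : ℝ) := by
    have := ((EuclideanSpace.basisFun (Fin d) ℝ).sum_repr y).symm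
    simpa using this
  conv_lhs => rw [h]
  rw [map_sum]
  refine Finset.sum_congr rfl fun i _ => ?_
  rw [map_smul, EuclideanSpace.inner_single_left]
  simp

/-- the matrix of the operator -/
def nsA (L : (Sp d →L[ℝ] V) →L[ℝ] E) (i : Fin d) :
    Matrix (Fin (Module.finrank ℝ E)) (Fin (Module.finrank ℝ V)) ℂ :=
  Matrix.of fun k j => ((⟪stdOrthonormalBasis ℝ E k,
    L (rk1 (EuclideanSpace.single i (1 : ℝ)) (stdOrthonormalBasis ℝ V j))⟫_ℝ : ℝ) : ℂ)

/-- the coordinates of L (rk1 ξ v) -/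
theorem nsA_coord (L : (Sp d →L[ℝ] V) →L[ℝ] E) (ξ : Sp d) (v : V)
    (k : Fin (Module.finrank ℝ E)) :
    ⟪stdOrthonormalBasis ℝ E k, L (rk1 ξ v)⟫_ℝ =
      ∑ i, ∑ j, (ξ i * ⟪stdOrthonormalBasis ℝ V j, v⟫_ℝ) *
        ⟪stdOrthonormalBasis ℝ E k,
          L (rk1 (EuclideanSpace.single i (1 : ℝ)) (stdOrthonormalBasis ℝ V j))⟫_ℝ := by
  rw [rk1_expand ξ v, map_sum, inner_sum]
  refine Finset.sum_congr rfl fun i _ => ?_
  rw [map_sum, inner_sum]
  refine Finset.sum_congr rfl fun j _ => ?_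
  rw [map_smul, inner_smul_right]

theorem nsA_inj (L : (Sp d →L[ℝ] V) →L[ℝ] E) (hL : CEll L) (x : Fin d → ℂ) (hx : x ≠ 0)
    (v : Fin (Module.finrank ℝ V) → ℂ) (hv : Matrix.mulVec (∑ i, x i • nsA L i) v = 0) :
    v = 0 := by
  set ξ : Sp d := WithLp.toLp 2 fun i => (x i).re with hξ
  set η : Sp d := WithLp.toLp 2 fun i => (x i).im with hη
  set a : V := ∑ j, (v j).re • stdOrthonormalBasis ℝ V j with ha
  set b : V := ∑ j, (v j).im • stdOrthonormalBasis ℝ V j with hb
  have hac : ∀ j, ⟪stdOrthonormalBasis ℝ V j, a⟫_ℝ = (v j).re := by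
    intro j; rw [ha]; exact (stdOrthonormalBasis ℝ V).orthonormal.inner_right_fintype _ j
  have hbc : ∀ j, ⟪stdOrthonormalBasis ℝ V j, b⟫_ℝ = (v j).im := by
    intro j; rw [hb]; exact (stdOrthonormalBasis ℝ V).orthonormal.inner_right_fintype _ j
  have hk : ∀ k, ∑ j, ∑ i, x i * nsA L i k j * v j = 0 := by
    intro k
    have h := congrFun hv k
    simp only [Matrix.mulVec, dotProduct, Matrix.sum_apply, Matrix.smul_apply, smul_eq_mul,
      Finset.sum_mul, Pi.zero_apply] at h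
    exact h
  have hre : ∀ k, ⟪stdOrthonormalBasis ℝ E k, L (rk1 ξ a) - L (rk1 η b)⟫_ℝ = 0 := by
    intro k
    rw [inner_sub_right, nsA_coord, nsA_coord, ← Finset.sum_sub_distrib]
    have h := congrArg Complex.re (hk k)
    rw [Finset.sum_comm] at h
    simp only [Complex.re_sum, Complex.zero_re] at h
    rw [← h]
    refine Finset.sum_congr rfl fun i _ => ?_
    rw [← Finset.sum_sub_distrib]
    refine Finset.sum_congr rfl fun j _ => ?_
    rw [hac, hbc]
    simp [nsA, hξ, hη, Complex.mul_re, Complex.mul_im]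
    ring
  have him : ∀ k, ⟪stdOrthonormalBasis ℝ E k, L (rk1 ξ b) + L (rk1 η a)⟫_ℝ = 0 := by
    intro k
    rw [inner_add_right, nsA_coord, nsA_coord, ← Finset.sum_add_distrib]
    have h := congrArg Complex.im (hk k)
    rw [Finset.sum_comm] at h
    simp only [Complex.im_sum, Complex.zero_im] at h
    rw [← h]
    refine Finset.sum_congr rfl fun i _ => ?_
    rw [← Finset.sum_add_distrib]
    refine Finset.sum_congr rfl fun j _ => ?_
    rw [hac, hbc]
    simp [nsA, hξ, hη, Complex.mul_re, Complex.mul_im]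
    ring
  have hzE : ∀ w : E, (∀ k, ⟪stdOrthonormalBasis ℝ E k, w⟫_ℝ = 0) → w = 0 := by
    intro w hw
    rw [← (stdOrthonormalBasis ℝ E).sum_repr' w]
    simp [hw]
  have hne : ξ ≠ 0 ∨ η ≠ 0 := by
    by_contra hcon
    push Not at hcon
    refine hx (funext fun i => Complex.ext ?_ ?_)
    · have := congrArg (fun z : Sp d => z i) hcon.1
      simpa [hξ] using this
    · have := congrArg (fun z : Sp d => z i) hcon.2
      simpa [hη] using this
  obtain ⟨h1, h2⟩ := hL ξ η hne a b (hzE _ hre) (hzE _ him)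
  funext j
  refine Complex.ext ?_ ?_
  · rw [← hac j, h1, inner_zero_right]; rfl
  · rw [← hbc j, h2, inner_zero_right]; rfl

/-- symmetric multilinear maps of high order killed by L vanish -/
theorem ns_inj (L : (Sp d →L[ℝ] V) →L[ℝ] E) (hL : CEll L) :
    ∃ m0 : ℕ, ∀ n : ℕ, m0 ≤ n → ∀ M : ContinuousMultilinearMap ℝ (fun _ : Fin (n + 1) => Sp d) V,
      (∀ (π : Equiv.Perm (Fin (n + 1))) (v : Fin (n + 1) → Sp d), M (v ∘ π) = M v) →
      (∀ y : Fin n → Sp d, L (M.curryRight y) = 0) → M = 0 := by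
  classical
  obtain ⟨m0, hm0⟩ := ns_alg (nsA L) (nsA_inj L hL)
  refine ⟨m0, ?_⟩
  intro n hn M hsym hM
  set e : Fin d → Sp d := fun i => EuclideanSpace.single i (1 : ℝ) with he
  set b := stdOrthonormalBasis ℝ V with hb
  set a : (Fin d →₀ ℕ) → Fin (Module.finrank ℝ V) → ℂ := fun α j =>
    if h : ∃ t : Fin (n + 1) → Fin d, cnt t = α then
      ((⟪b j, M (fun r => e (h.choose r))⟫_ℝ : ℝ) : ℂ) else 0 with ha
  have hat : ∀ (t : Fin (n + 1) → Fin d) j,
      a (cnt t) j = ((⟪b j, M (fun r => e (t r))⟫_ℝ : ℝ) : ℂ) := by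
    intro t j
    have h : ∃ t' : Fin (n + 1) → Fin d, cnt t' = cnt t := ⟨t, rfl⟩
    obtain ⟨π, hπ⟩ := exists_perm_of_cnt _ _ h.choose_spec
    have h1 : M (fun r => e (t r)) = M (fun r => e (h.choose r)) := by
      have h2 : (fun r => e (t r)) = (fun r => e (h.choose r)) ∘ π := by
        funext r
        exact congrArg e (congrFun hπ r).symm
      rw [h2]
      exact hsym π _
    simp only [ha]
    rw [dif_pos h, h1]
  have hH : ∀ k β, ∑ j, ∑ i, nsA L i k j * a (β + Finsupp.single i 1) j = 0 := by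
    intro k β
    by_cases hs : ∃ s : Fin n → Fin d, cnt s = β
    · obtain ⟨s, rfl⟩ := hs
      have h1 : ∀ i, a (cnt s + Finsupp.single i 1) = fun j =>
          ((⟪b j, M.curryRight (fun r => e (s r)) (e i)⟫_ℝ : ℝ) : ℂ) := by
        intro i
        funext j
        rw [← cnt_snoc, hat]
        have h2 : (fun r => e ((Fin.snoc s i : Fin (n + 1) → Fin d) r)) =
            (Fin.snoc (fun r => e (s r)) (e i) : Fin (n + 1) → Sp d) := by
          funext r
          refine Fin.lastCases ?_ (fun r => ?_) r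
          · simp
          · simp
        rw [h2]
        rfl
      simp_rw [h1]
      rw [Finset.sum_comm]
      have h2 : ∑ i, ∑ j, nsA L i k j *
          ((⟪b j, M.curryRight (fun r => e (s r)) (e i)⟫_ℝ : ℝ) : ℂ) =
          ((⟪stdOrthonormalBasis ℝ E k, L (M.curryRight (fun r => e (s r)))⟫_ℝ : ℝ) : ℂ) := by
        conv_rhs => rw [clm_expand (M.curryRight (fun r => e (s r)))]
        rw [map_sum, inner_sum, Complex.ofReal_sum]
        refine Finset.sum_congr rfl fun i _ => ?_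
        rw [nsA_coord, Complex.ofReal_sum, Finset.sum_eq_single i]
        · rw [Complex.ofReal_sum]
          refine Finset.sum_congr rfl fun j _ => ?_
          simp [nsA, he, hb, mul_comm]
        · intro i' _ hi'
          simp [hi']
        · intro h; exact absurd (Finset.mem_univ i) h
      rw [h2, hM, inner_zero_right]; rfl
    · refine Finset.sum_eq_zero fun j _ => Finset.sum_eq_zero fun i _ => ?_
      have h1 : ¬ ∃ t : Fin (n + 1) → Fin d, cnt t = β + Finsupp.single i 1 := by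
        rintro ⟨t, ht⟩
        have h2 := congrArg Finsupp.degree ht
        rw [cnt_degree, map_add, Finsupp.degree_single] at h2
        exact hs (exists_tuple β n (by omega))
      simp only [ha]
      rw [dif_neg h1, mul_zero]
  have hzero : ∀ t : Fin (n + 1) → Fin d, M (fun r => e (t r)) = 0 := by
    intro t
    have h1 : ∀ j, ⟪b j, M (fun r => e (t r))⟫_ℝ = 0 := by
      intro j
      have h2 := hm0 a hH (cnt t) (by rw [cnt_degree]; omega) j
      rw [hat] at h2
      exact_mod_cast h2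
    rw [← b.sum_repr' (M (fun r => e (t r)))]
    simp [h1]
  have hM0 : M.toMultilinearMap = 0 := by
    refine Module.Basis.ext_multilinear (fun _ => (EuclideanSpace.basisFun (Fin d) ℝ).toBasis) ?_
    intro t
    have h1 := hzero t
    simpa [he] using h1
  ext v
  exact congrArg (fun N : MultilinearMap ℝ (fun _ : Fin (n + 1) => Sp d) V => N v) hM0

theorem stmtNS : StmtNS := by
  intro d V E _ _ _ _ _ _ L hL
  obtain ⟨m0, hm0⟩ := ns_inj L hL
  set n : ℕ := m0 + 1 with hn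
  -- the space of symmetric maps
  set Sy : Submodule ℝ (ContinuousMultilinearMap ℝ (fun _ : Fin (n + 1) => Sp d) V) :=
    { carrier := {M | ∀ (π : Equiv.Perm (Fin (n + 1))) (v : Fin (n + 1) → Sp d),
        M (v ∘ π) = M v}
      add_mem' := by
        intro M M' h h' π v
        simp only [ContinuousMultilinearMap.add_apply]
        rw [h, h']
      zero_mem' := by intro π v; rfl
      smul_mem' := by
        intro c M h π v
        simp only [ContinuousMultilinearMap.smul_apply]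
        rw [h] } with hSy
  set F : Sy →ₗ[ℝ] ContinuousMultilinearMap ℝ (fun _ : Fin n => Sp d) E :=
    { toFun := fun M => L.compContinuousMultilinearMap M.1.curryRight
      map_add' := by
        intro M M'
        ext y
        simp only [ContinuousLinearMap.compContinuousMultilinearMap_coe, Function.comp_apply,
          ContinuousMultilinearMap.add_apply]
        rw [← map_add]
        congr 1
      map_smul' := by
        intro c M
        ext y
        simp only [ContinuousLinearMap.compContinuousMultilinearMap_coe, Function.comp_apply,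
          ContinuousMultilinearMap.smul_apply, RingHom.id_apply]
        rw [← map_smul]
        congr 1 } with hF
  have hker : LinearMap.ker F = ⊥ := by
    rw [LinearMap.ker_eq_bot']
    intro M hM
    refine Subtype.ext (hm0 n (by omega) M.1 M.2 fun y => ?_)
    exact congrArg (fun N : ContinuousMultilinearMap ℝ (fun _ : Fin n => Sp d) E => N y) hM
  obtain ⟨g, hg⟩ := LinearMap.exists_leftInverse_of_injective F hker
  have hfin : FiniteDimensional ℝ (ContinuousMultilinearMap ℝ (fun _ : Fin n => Sp d) E) := by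
    let J : (ContinuousMultilinearMap ℝ (fun _ : Fin n => Sp d) E) →ₗ[ℝ]
        (MultilinearMap ℝ (fun _ : Fin n => Sp d) E) :=
      { toFun := fun M => M.toMultilinearMap
        map_add' := fun _ _ => rfl
        map_smul' := fun _ _ => rfl }
    exact FiniteDimensional.of_injective J ContinuousMultilinearMap.toMultilinearMap_injective
  refine ⟨n, LinearMap.toContinuousLinearMap (Sy.subtype ∘ₗ g), by omega, ?_⟩
  intro u hu z
  have hmem : iteratedFDeriv ℝ (n + 1) u z ∈ Sy := fun π v => iter_perm hu (n + 1) z π v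
  have hFu : F ⟨iteratedFDeriv ℝ (n + 1) u z, hmem⟩ = iteratedFDeriv ℝ n (fo L u) z := by
    have h1 : iteratedFDeriv ℝ n (fo L u) z =
        L.compContinuousMultilinearMap (iteratedFDeriv ℝ n (fderiv ℝ u) z) := by
      have h2 : ContDiffAt ℝ ∞ (fderiv ℝ u) z :=
        (hu.fderiv_right (m := ∞) (by simp)).contDiffAt
      exact ContinuousLinearMap.iteratedFDeriv_comp_left L h2 (by exact_mod_cast le_top)
    rw [h1]
    ext y
    show L _ = L _
    congr 1
    ext h
    have h3 : iteratedFDeriv ℝ (n + 1) u z (Fin.snoc y h) =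
        iteratedFDeriv ℝ n (fderiv ℝ u) z y h := by
      rw [iteratedFDeriv_succ_apply_right]
      simp
    exact h3
  have hgF := LinearMap.congr_fun hg ⟨iteratedFDeriv ℝ (n + 1) u z, hmem⟩
  show iteratedFDeriv ℝ (n + 1) u z = ((g (iteratedFDeriv ℝ n (fo L u) z)) : _)
  rw [← hFu]
  exact (congrArg Subtype.val hgF).symm

end main

end

end TrI


end

section

/-!
# Trace inequality, general operators, module AL, part 1: algebra over the complex numbers

(9.1)-(9.2) of PAPER.md: for an injective pencil A(x) and a vector e0 ≠ 0 the points x ≠ 0 with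
e0 in the range of A(x) lie on finitely many lines; Nullstellensatz for the minors of [A(x) | e0].
-/

set_option autoImplicit false

namespace TG

noncomputable section

open MvPolynomial Matrix

section finpts

variable {T : Type} [Fintype T] [DecidableEq T]

/-- a set of points on which a power of each coordinate is a polynomial of lower degree is
finite -/
theorem al_finite (W : Set (T → ℂ)) (e : T → ℕ) (g : T → MvPolynomial T ℂ)
    (hg : ∀ t, (g t).totalDegree < e t) (h : ∀ w ∈ W, ∀ t, w t ^ e t = eval w (g t)) :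
    W.Finite := by
  classical
  set ρ : MvPolynomial T ℂ →ₐ[ℂ] (W → ℂ) := aeval (fun t (w : W) => w.1 t) with hρ
  have hρe : ∀ p (w : W), ρ p w = eval w.1 p := by
    intro p w
    induction p using MvPolynomial.induction_on with
    | C a => simp [hρ]
    | add p q hp hq => rw [map_add, Pi.add_apply, hp, hq, map_add]
    | mul_X p i hp => rw [map_mul, Pi.mul_apply, hp, map_mul]; simp [hρ]
  set N := ∑ t, e t with hN
  set K : Submodule ℂ (W → ℂ) := Submodule.map ρ.toLinearMap (restrictTotalDegree T ℂ N) with hK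
  have key : ∀ n, ∀ p : MvPolynomial T ℂ, p.totalDegree ≤ n → ρ p ∈ K := by
    intro n
    induction n using Nat.strong_induction_on with
    | _ n ih =>
      intro p hp
      rcases le_or_gt n N with hn | hn
      · exact ⟨p, (mem_restrictTotalDegree _ _ _).2 (hp.trans hn), rfl⟩
      · rw [p.as_sum, map_sum]
        refine K.sum_mem fun α hα => ?_
        have hαd : α.degree ≤ n := by
          have := le_totalDegree hα
          exact this.trans hp
        rcases hαd.lt_or_eq with hlt | heq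
        · exact ih _ hlt _ (by
            rw [totalDegree_monomial _ (mem_support_iff.1 hα)]
            exact le_rfl)
        · have hex : ∃ t, e t ≤ α t := by
            by_contra hcon
            push Not at hcon
            have h1 : α.degree ≤ ∑ t, e t := by
              rw [Finsupp.degree_eq_sum]
              exact Finset.sum_le_sum fun i _ => (hcon i).le
            omega
          obtain ⟨t, ht⟩ := hex
          have h5 : (monomial α (coeff α p) : MvPolynomial T ℂ) =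
              monomial (α - Finsupp.single t (e t)) (coeff α p) * X t ^ (e t) := by
            rw [X_pow_eq_monomial, monomial_mul, mul_one,
              tsub_add_cancel_of_le (Finsupp.single_le_iff.2 ht)]
          have h6 : ρ (monomial α (coeff α p)) =
              ρ (monomial (α - Finsupp.single t (e t)) (coeff α p) * g t) := by
            funext w
            rw [h5, hρe, hρe, map_mul, map_mul, map_pow, eval_X, h w.1 w.2 t]
          rw [h6]
          have hlt := hg t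
          have h7 : (α - Finsupp.single t (e t)).degree + e t = n := by
            have h8 : α = (α - Finsupp.single t (e t)) + Finsupp.single t (e t) :=
              (tsub_add_cancel_of_le (Finsupp.single_le_iff.2 ht)).symm
            have h9 := congrArg Finsupp.degree h8
            rw [map_add, Finsupp.degree_single, heq] at h9
            exact h9.symm
          refine ih (n - 1) (by omega) _ ?_
          refine (totalDegree_mul _ _).trans ?_
          rw [totalDegree_monomial _ (mem_support_iff.1 hα)]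
          have h10 : ((α - Finsupp.single t (e t)).sum fun _ e => e) =
              (α - Finsupp.single t (e t)).degree := rfl
          rw [h10]
          omega
  have hrange : Subalgebra.toSubmodule ρ.range ≤ K := by
    rintro _ ⟨p, rfl⟩
    exact key _ p le_rfl
  have hfinK : Module.Finite ℂ K := by
    rw [hK]
    exact Module.Finite.map _ _
  have hfin : Module.Finite ℂ ρ.range := by
    have : Module.Finite ℂ (Subalgebra.toSubmodule ρ.range) :=
      Submodule.finiteDimensional_of_le hrange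
    exact this
  have hint : ∀ t, ∃ q : Polynomial ℂ, q ≠ 0 ∧ ∀ w : W, q.eval (w.1 t) = 0 := by
    intro t
    have h1 : IsIntegral ℂ (⟨ρ (X t), ⟨X t, rfl⟩⟩ : ρ.range) := IsIntegral.of_finite ℂ _
    obtain ⟨q, hq, hq2⟩ := h1
    refine ⟨q, hq.ne_zero, fun w => ?_⟩
    have h2 : Polynomial.aeval (ρ (X t)) q = 0 := by
      have h3 := congrArg (fun z : ρ.range => (z : W → ℂ)) hq2
      have h4 : ((Polynomial.aeval (⟨ρ (X t), ⟨X t, rfl⟩⟩ : ρ.range) q : ρ.range) : W → ℂ) =
          Polynomial.aeval (ρ (X t)) q := by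
        exact (Polynomial.aeval_algHom_apply ρ.range.val _ _).symm
      rw [← h4]
      exact h3
    have h5 := congrFun h2 w
    have h6 := Polynomial.aeval_algHom_apply (Pi.evalAlgHom ℂ (fun _ : W => ℂ) w) (ρ (X t)) q
    rw [Pi.evalAlgHom_apply, Pi.evalAlgHom_apply, h5, hρe, eval_X] at h6
    rw [← Polynomial.coe_aeval_eq_eval]
    exact h6
  choose q hq0 hq using hint
  refine Set.Finite.subset (Set.Finite.pi' fun t => (q t).roots.toFinset.finite_toSet) ?_
  intro w hw t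
  simp only [Finset.mem_coe, Multiset.mem_toFinset]
  rw [Polynomial.mem_roots (hq0 t)]
  exact hq t ⟨w, hw⟩

end finpts

theorem al_aeval {T : Type} (x : T → ℂ) (p : MvPolynomial T ℂ) : aeval x p = eval x p := by
  rw [aeval_eq_eval]

theorem al_hc_mul {T : Type} {R : Type} [CommRing R] {i : ℕ} {b : MvPolynomial T R}
    (hb : b.IsHomogeneous i) (a : MvPolynomial T R) (n : ℕ) :
    homogeneousComponent (n + i) (a * b) = homogeneousComponent n a * b := by
  conv_lhs => rw [← sum_homogeneousComponent a, Finset.sum_mul, map_sum]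
  have h1 : ∀ j, homogeneousComponent (n + i) (homogeneousComponent j a * b) =
      if n = j then homogeneousComponent j a * b else 0 := by
    intro j
    rw [homogeneousComponent_of_mem ((homogeneousComponent_isHomogeneous j a).mul hb)]
    congr 1
    simp
  simp_rw [h1]
  rw [Finset.sum_ite_eq]
  split_ifs with h2
  · rfl
  · rw [homogeneousComponent_eq_zero n a (by
      rw [Finset.mem_range] at h2; omega), zero_mul]

/-- evaluation of components of products with a homogeneous polynomial vanishing at the point -/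
theorem al_hc_zero {T : Type} {i : ℕ} {b : MvPolynomial T ℂ}
    (hb : b.IsHomogeneous i) (a : MvPolynomial T ℂ) (n : ℕ) (w : T → ℂ) (hw : eval w b = 0) :
    eval w (homogeneousComponent n (a * b)) = 0 := by
  rcases le_or_gt i n with h | h
  · obtain ⟨k, rfl⟩ := Nat.exists_eq_add_of_le' h
    rw [al_hc_mul hb, map_mul, hw, mul_zero]
  · conv_lhs => rw [← sum_homogeneousComponent a, Finset.sum_mul, map_sum]
    rw [map_sum]
    refine Finset.sum_eq_zero fun j _ => ?_
    rw [homogeneousComponent_of_mem ((homogeneousComponent_isHomogeneous j a).mul hb),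
      if_neg (by omega), map_zero]

section lines

variable {σ κ ν : Type} [Fintype σ] [Fintype κ] [Fintype ν] [DecidableEq ν] [DecidableEq κ]
  [DecidableEq σ]

/-- 2 × 2 minors -/
def alMin (z : (σ × ν) × (σ × ν)) : MvPolynomial (σ × ν) ℂ :=
  X (z.1.1, z.1.2) * X (z.2.1, z.2.2) - X (z.1.1, z.2.2) * X (z.2.1, z.1.2)

/-- the linear forms -/
def alLin (A : σ → Matrix κ ν ℂ) (k : κ) : MvPolynomial (σ × ν) ℂ :=
  ∑ t : σ × ν, C (A t.1 k t.2) * X t

omit [Fintype σ] [Fintype ν] [DecidableEq ν] [DecidableEq σ] in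
theorem alMin_hom (z : (σ × ν) × (σ × ν)) : (alMin z).IsHomogeneous 2 :=
  ((isHomogeneous_X _ _).mul (isHomogeneous_X _ _)).sub
    ((isHomogeneous_X _ _).mul (isHomogeneous_X _ _))

omit [Fintype κ] [DecidableEq ν] [DecidableEq κ] [DecidableEq σ] in
theorem alLin_hom (A : σ → Matrix κ ν ℂ) (k : κ) : (alLin A k).IsHomogeneous 1 :=
  IsHomogeneous.sum _ _ _ fun t _ => isHomogeneous_C_mul_X _ _

omit [Fintype κ] [DecidableEq ν] [DecidableEq κ] [DecidableEq σ] in
theorem alLin_eval (A : σ → Matrix κ ν ℂ) (k : κ) (x : σ → ℂ) (v : ν → ℂ) (w : σ × ν → ℂ)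
    (hw : ∀ t, w t = x t.1 * v t.2) :
    eval w (alLin A k) = ((∑ i, x i • A i) *ᵥ v) k := by
  rw [alLin, map_sum, Fintype.sum_prod_type]
  simp only [Matrix.mulVec, dotProduct, Matrix.sum_apply, Matrix.smul_apply, smul_eq_mul,
    Finset.sum_mul]
  rw [Finset.sum_comm]
  refine Finset.sum_congr rfl fun j _ => Finset.sum_congr rfl fun i _ => ?_
  simp [hw]
  ring

/-- (9.2), points -/
theorem al_points (A : σ → Matrix κ ν ℂ)
    (hA : ∀ x : σ → ℂ, x ≠ 0 → ∀ v : ν → ℂ, (∑ i, x i • A i) *ᵥ v = 0 → v = 0) (e0 : κ → ℂ) :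
    {w : σ × ν → ℂ | ∃ (x : σ → ℂ) (v : ν → ℂ), (∑ i, x i • A i) *ᵥ v = e0 ∧
      ∀ t, w t = x t.1 * v t.2}.Finite := by
  classical
  set I : Ideal (MvPolynomial (σ × ν) ℂ) :=
    Ideal.span (Set.range (Sum.elim alMin (alLin A))) with hI
  have hzero : ∀ w ∈ zeroLocus ℂ I, w = 0 := by
    intro w hw
    by_contra hne
    obtain ⟨⟨i0, j0⟩, hij⟩ : ∃ t, w t ≠ 0 := by
      by_contra hcon
      push Not at hcon
      exact hne (funext hcon)
    have hgen : ∀ m, eval w (Sum.elim alMin (alLin A) m) = 0 := by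
      intro m
      have := hw _ (Ideal.subset_span ⟨m, rfl⟩)
      rwa [al_aeval] at this
    set x : σ → ℂ := fun i => w (i, j0) with hx
    set v : ν → ℂ := fun j => w (i0, j) / w (i0, j0) with hv
    have hxv : ∀ t : σ × ν, w t = x t.1 * v t.2 := by
      rintro ⟨i, j⟩
      have h1 := hgen (Sum.inl ((i, j), (i0, j0)))
      simp only [Sum.elim_inl, alMin, map_sub, map_mul, eval_X] at h1
      simp only [hx, hv]
      field_simp
      linear_combination h1
    have hx0 : x ≠ 0 := fun h => hij (by have := congrFun h i0; simpa [hx] using this)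
    have hAv : (∑ i, x i • A i) *ᵥ v = 0 := by
      funext k
      have h1 := hgen (Sum.inr k)
      rw [Sum.elim_inr, alLin_eval A k x v w hxv] at h1
      exact h1
    have hv0 := hA x hx0 v hAv
    have h2 := congrFun hv0 j0
    simp only [hv, Pi.zero_apply, div_self hij] at h2
    exact one_ne_zero h2
  have hX : ∀ t : σ × ν, (X t : MvPolynomial (σ × ν) ℂ) ∈ I.radical := by
    intro t
    rw [← vanishingIdeal_zeroLocus_eq_radical (K := ℂ)]
    intro x hx
    rw [hzero x hx]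
    simp
  choose e he using fun t => hX t
  have he1 : ∀ t, X t ^ (e t + 1) ∈ I := fun t => by
    rw [pow_succ]
    exact I.mul_mem_right _ (he t)
  have hc : ∀ t, ∃ c : ((σ × ν) × (σ × ν)) ⊕ κ → MvPolynomial (σ × ν) ℂ,
      ∑ m, c m * Sum.elim alMin (alLin A) m = X t ^ (e t + 1) := fun t =>
    Ideal.mem_span_range_iff_exists_fun.1 (he1 t)
  choose c hc using hc
  refine al_finite _ (fun t => e t + 1)
    (fun t => ∑ k, C (e0 k) * homogeneousComponent (e t) (c t (Sum.inr k))) ?_ ?_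
  · intro t
    refine Nat.lt_succ_of_le ?_
    refine totalDegree_finsetSum_le fun k _ => ?_
    refine (totalDegree_mul _ _).trans ?_
    rw [totalDegree_C, zero_add]
    exact (homogeneousComponent_isHomogeneous _ _).totalDegree_le
  · rintro w ⟨x, v, hxv, hw⟩ t
    have h1 : eval w (homogeneousComponent (e t + 1)
        (∑ m, c t m * Sum.elim alMin (alLin A) m)) =
        eval w (homogeneousComponent (e t + 1) (X t ^ (e t + 1))) := by rw [hc t]
    rw [homogeneousComponent_of_mem (isHomogeneous_X_pow t (e t + 1)), if_pos rfl, map_pow,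
      eval_X] at h1
    rw [← h1, map_sum, map_sum, Fintype.sum_sum_type]
    have h2 : ∀ z, eval w (homogeneousComponent (e t + 1)
        (c t (Sum.inl z) * Sum.elim alMin (alLin A) (Sum.inl z))) = 0 := by
      intro z
      refine al_hc_zero (alMin_hom z) _ _ _ ?_
      simp only [alMin, map_sub, map_mul, eval_X, hw]
      ring
    rw [Finset.sum_eq_zero fun z _ => h2 z, zero_add, map_sum]
    refine Finset.sum_congr rfl fun k _ => ?_
    rw [Sum.elim_inr, al_hc_mul (alLin_hom A k), map_mul, map_mul, alLin_eval A k x v w hw, hxv,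
      eval_C]
    ring

/-- (9.2), lines -/
theorem al_lines (A : σ → Matrix κ ν ℂ)
    (hA : ∀ x : σ → ℂ, x ≠ 0 → ∀ v : ν → ℂ, (∑ i, x i • A i) *ᵥ v = 0 → v = 0) (e0 : κ → ℂ)
    (he0 : e0 ≠ 0) :
    {l : Submodule ℂ (σ → ℂ) | ∃ (x : σ → ℂ) (v : ν → ℂ), x ≠ 0 ∧ (∑ i, x i • A i) *ᵥ v = e0 ∧
      l = Submodule.span ℂ {x}}.Finite := by
  classical
  refine ((al_points A hA e0).image fun w : σ × ν → ℂ =>
    Submodule.span ℂ (Set.range fun j => fun i => w (i, j))).subset ?_
  rintro l ⟨x, v, hx, hxv, rfl⟩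
  refine ⟨fun t => x t.1 * v t.2, ⟨x, v, hxv, fun _ => rfl⟩, ?_⟩
  have hv : v ≠ 0 := by
    rintro rfl
    rw [Matrix.mulVec_zero] at hxv
    exact he0 hxv.symm
  obtain ⟨j0, hj0⟩ : ∃ j, v j ≠ 0 := by
    by_contra hcon
    push Not at hcon
    exact hv (funext hcon)
  apply le_antisymm
  · rw [Submodule.span_le]
    rintro _ ⟨j, rfl⟩
    show (fun i => x i * v j) ∈ Submodule.span ℂ {x}
    have : (fun i => x i * v j) = v j • x := by
      funext i; simp [mul_comm]
    rw [this]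
    exact Submodule.smul_mem _ _ (Submodule.subset_span rfl)
  · rw [Submodule.span_le]
    intro y hy
    rw [Set.mem_singleton_iff.1 hy]
    have : x = (v j0)⁻¹ • (fun i => x i * v j0) := by
      funext i
      simp only [Pi.smul_apply, smul_eq_mul]
      field_simp
    have h2 := Submodule.smul_mem (Submodule.span ℂ (Set.range fun j => fun i => x i * v j))
      (v j0)⁻¹ (Submodule.subset_span ⟨j0, rfl⟩)
    rw [← this] at h2
    exact h2

/-- (9.1): Nullstellensatz for the minors of [A(x) | e0] -/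
theorem al_null (A : σ → Matrix κ ν ℂ)
    (hA : ∀ x : σ → ℂ, x ≠ 0 → ∀ v : ν → ℂ, (∑ i, x i • A i) *ᵥ v = 0 → v = 0) (e0 : κ → ℂ)
    (P : MvPolynomial σ ℂ) (hP0 : eval 0 P = 0)
    (hP : ∀ x v, x ≠ 0 → (∑ i, x i • A i) *ᵥ v = e0 → eval x P = 0) :
    ∃ M : ℕ, 1 ≤ M ∧ ∃ Y : κ → MvPolynomial σ ℂ,
      (∀ j, ∑ k, Y k * ∑ i, C (A i k j) * X i = 0) ∧ ∑ k, Y k * C (e0 k) = P ^ M := by
  classical
  set Q : Matrix κ (ν ⊕ Unit) (MvPolynomial σ ℂ) := Matrix.of fun k j =>
    Sum.elim (fun j => ∑ i, C (A i k j) * X i) (fun _ => C (e0 k)) j with hQ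
  -- the ideal
  let I : Ideal (MvPolynomial σ ℂ) :=
    { carrier := {p | ∃ Y : κ → MvPolynomial σ ℂ,
        (∀ j, ∑ k, Y k * Q k (Sum.inl j) = 0) ∧ ∑ k, Y k * Q k (Sum.inr ()) = p}
      add_mem' := by
        rintro p q ⟨Y, h1, h2⟩ ⟨Z, h3, h4⟩
        refine ⟨fun k => Y k + Z k, fun j => ?_, ?_⟩
        · simp_rw [add_mul, Finset.sum_add_distrib]
          rw [h1, h3, add_zero]
        · simp_rw [add_mul, Finset.sum_add_distrib]
          rw [h2, h4]
      zero_mem' := ⟨0, fun j => by simp, by simp⟩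
      smul_mem' := by
        rintro c p ⟨Y, h1, h2⟩
        refine ⟨fun k => c * Y k, fun j => ?_, ?_⟩
        · simp_rw [mul_assoc]
          rw [← Finset.mul_sum, h1, mul_zero]
        · simp_rw [mul_assoc]
          rw [← Finset.mul_sum, h2, smul_eq_mul] }
  have hdet : ∀ B : Matrix (ν ⊕ Unit) κ ℂ, (TrI.bp B Q).det ∈ I := by
    intro B
    set M := TrI.bp B Q with hM
    have h1 : ∀ c, ∑ k, (∑ l, M.adjugate (Sum.inr ()) l * C (B l k)) * Q k c =
        (M.adjugate * M) (Sum.inr ()) c := by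
      intro c
      rw [Matrix.mul_apply]
      simp_rw [Finset.sum_mul]
      rw [Finset.sum_comm]
      refine Finset.sum_congr rfl fun l _ => ?_
      rw [hM, TrI.bp, Matrix.of_apply, Finset.mul_sum]
      refine Finset.sum_congr rfl fun k _ => ?_
      ring
    refine ⟨fun k => ∑ l, M.adjugate (Sum.inr ()) l * C (B l k), fun j => ?_, ?_⟩
    · rw [h1, Matrix.adjugate_mul]
      simp [Matrix.smul_apply]
    · rw [h1, Matrix.adjugate_mul]
      simp [Matrix.smul_apply]
  have hev : ∀ x : σ → ℂ, ∀ B : Matrix (ν ⊕ Unit) κ ℂ, eval x (TrI.bp B Q).det =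
      (B * Q.map (eval x)).det := by
    intro x B
    have h2 := (eval x).map_det (TrI.bp B Q)
    have h3 : (eval x).mapMatrix (TrI.bp B Q) = B * Q.map (eval x) := by
      ext a b
      simp [Matrix.mul_apply, TrI.bp]
    rw [h3] at h2
    exact h2
  have hQv : ∀ (x : σ → ℂ) (v : ν ⊕ Unit → ℂ), (Q.map (eval x)) *ᵥ v =
      (∑ i, x i • A i) *ᵥ (fun j => v (Sum.inl j)) + v (Sum.inr ()) • e0 := by
    intro x v
    funext k
    simp only [Matrix.mulVec, dotProduct, Matrix.map_apply, hQ, Matrix.of_apply,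
      Fintype.sum_sum_type, Sum.elim_inl, Sum.elim_inr, Pi.add_apply, Pi.smul_apply, smul_eq_mul,
      map_sum, map_mul, eval_C, eval_X, Matrix.sum_apply, Matrix.smul_apply, Finset.univ_unique,
      Finset.sum_singleton]
    congr 1
    · refine Finset.sum_congr rfl fun j _ => ?_
      congr 1
      refine Finset.sum_congr rfl fun i _ => ?_
      ring
    · exact mul_comm _ _
  have hPI : P ∈ I.radical := by
    rw [← vanishingIdeal_zeroLocus_eq_radical (K := ℂ)]
    intro x hx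
    rw [al_aeval]
    by_cases hx0 : x = 0
    · rw [hx0]; exact hP0
    by_contra hPx
    have hinj : Function.Injective (Q.map (eval x)).mulVecLin := by
      rw [← LinearMap.ker_eq_bot, LinearMap.ker_eq_bot']
      intro v hv
      rw [Matrix.mulVecLin_apply, hQv] at hv
      have hvr : v (Sum.inr ()) = 0 := by
        by_contra hne
        refine hPx (hP x (fun j => -(v (Sum.inr ()))⁻¹ * v (Sum.inl j)) hx0 ?_)
        have h1 : (fun j => -(v (Sum.inr ()))⁻¹ * v (Sum.inl j)) =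
            (-(v (Sum.inr ()))⁻¹) • (fun j => v (Sum.inl j)) := rfl
        rw [h1, Matrix.mulVec_smul, eq_neg_of_add_eq_zero_left hv, smul_neg, neg_smul, neg_neg,
          smul_smul, inv_mul_cancel₀ hne, one_smul]
      rw [hvr, zero_smul, add_zero] at hv
      have hvl := hA x hx0 _ hv
      funext j
      rcases j with j | j
      · exact congrFun hvl j
      · exact hvr
    obtain ⟨g, hg⟩ := LinearMap.exists_leftInverse_of_injective _
      (LinearMap.ker_eq_bot.2 hinj)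
    set B : Matrix (ν ⊕ Unit) κ ℂ := LinearMap.toMatrix' g with hB
    have hBA : B * (Q.map (eval x)) = 1 := by
      have h1 := congrArg LinearMap.toMatrix' hg
      rw [LinearMap.toMatrix'_comp, LinearMap.toMatrix'_id] at h1
      rw [← Matrix.toLin'_apply', LinearMap.toMatrix'_toLin'] at h1
      exact h1
    have hx1 : eval x ((TrI.bp B Q).det) = 0 := by
      have := hx _ (hdet B)
      rwa [al_aeval] at this
    rw [hev, hBA, Matrix.det_one] at hx1
    exact one_ne_zero hx1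
  obtain ⟨M, hM⟩ := hPI
  obtain ⟨Y, h1, h2⟩ := I.mul_mem_right P hM
  refine ⟨M + 1, by omega, Y, fun j => ?_, ?_⟩
  · exact h1 j
  · rw [pow_succ]
    exact h2

end lines

end

end TG


end

section

/-!
# Module AL: real homogeneous multipliers
-/

open MvPolynomial Matrix

namespace TG

noncomputable section

section re

variable {σ : Type}

/-- real part of the homogeneous component of degree m -/
def rp (m : ℕ) (p : MvPolynomial σ ℂ) : MvPolynomial σ ℝ :=
  ∑ α ∈ p.support.filter (fun α => α.degree = m), monomial α (coeff α p).re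

theorem rp_coeff (m : ℕ) (p : MvPolynomial σ ℂ) (β : σ →₀ ℕ) :
    coeff β (rp m p) = if β.degree = m then (coeff β p).re else 0 := by
  classical
  rw [rp, coeff_sum]
  simp only [coeff_monomial]
  by_cases hβ : β.degree = m
  · rw [if_pos hβ]
    by_cases hs : β ∈ p.support
    · rw [Finset.sum_eq_single β]
      · rw [if_pos rfl]
      · intro α _ hα
        rw [if_neg hα]
      · intro h
        exact absurd (Finset.mem_filter.2 ⟨hs, hβ⟩) h
    · rw [Finset.sum_eq_zero]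
      · rw [notMem_support_iff.1 hs]; rfl
      · intro α hα
        rw [if_neg]
        rintro rfl
        exact hs (Finset.mem_filter.1 hα).1
  · rw [if_neg hβ, Finset.sum_eq_zero]
    intro α hα
    rw [if_neg]
    rintro rfl
    exact hβ (Finset.mem_filter.1 hα).2

theorem rp_hom (m : ℕ) (p : MvPolynomial σ ℂ) : (rp m p).IsHomogeneous m := by
  intro β hβ
  rw [rp_coeff] at hβ
  by_contra hcon
  refine hβ (if_neg ?_)
  rw [Finsupp.degree_eq_weight_one]
  exact hcon

end re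

section main

variable {σ κ ν : Type} [Fintype σ] [Fintype κ] [Fintype ν] [DecidableEq ν] [DecidableEq κ]
  [DecidableEq σ]

/-- (9.1), real version -/
theorem al_real (A : σ → Matrix κ ν ℝ)
    (hA : ∀ x : σ → ℂ, x ≠ 0 → ∀ v : ν → ℂ,
      (∑ i, x i • (A i).map (fun r : ℝ => (r : ℂ))) *ᵥ v = 0 → v = 0) (e0 : κ → ℝ)
    (P : MvPolynomial σ ℝ) (D : ℕ) (hPh : P.IsHomogeneous D) (hD : 1 ≤ D)
    (hP : ∀ (x : σ → ℂ) (v : ν → ℂ), x ≠ 0 →
      (∑ i, x i • (A i).map (fun r : ℝ => (r : ℂ))) *ᵥ v = (fun k => (e0 k : ℂ)) →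
      eval₂ Complex.ofRealHom x P = 0) :
    ∃ M : ℕ, 1 ≤ M ∧ ∃ Y : κ → MvPolynomial σ ℝ,
      (∀ k, (Y k).IsHomogeneous (D * M)) ∧
      (∀ j, ∑ k, Y k * ∑ i, C (A i k j) * X i = 0) ∧ ∑ k, Y k * C (e0 k) = P ^ M := by
  classical
  have h0 : eval (0 : σ → ℂ) (map Complex.ofRealHom P) = 0 := by
    rw [eval_map]
    rw [eval₂_eq]
    refine Finset.sum_eq_zero fun α hα => ?_
    have hdeg := hPh (mem_support_iff.1 hα)
    have hne : α ≠ 0 := by
      rintro rfl
      simp at hdeg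
      omega
    obtain ⟨i, hi⟩ : ∃ i, α i ≠ 0 := by
      by_contra hcon
      push Not at hcon
      exact hne (Finsupp.ext hcon)
    rw [Finset.prod_eq_zero (Finsupp.mem_support_iff.2 hi) (by simp [hi]), mul_zero]
  obtain ⟨M, hM, Y, hY1, hY2⟩ := al_null (fun i => (A i).map (fun r : ℝ => (r : ℂ))) hA
    (fun k => (e0 k : ℂ)) (map Complex.ofRealHom P) h0 (fun x v hx hv => by
      rw [eval_map]; exact hP x v hx hv)
  refine ⟨M, hM, fun k => rp (D * M) (Y k), fun k => rp_hom _ _, ?_, ?_⟩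
  · intro j
    ext β
    have h1 := congrArg (coeff β) (hY1 j)
    simp only [Finset.mul_sum, coeff_sum, coeff_zero, Matrix.map_apply] at h1 ⊢
    have h2 : ∀ k i, coeff β (Y k * (C ((A i k j : ℝ) : ℂ) * X i)) =
        (A i k j : ℂ) * (if i ∈ β.support then coeff (β - Finsupp.single i 1) (Y k) else 0) := by
      intro k i
      rw [show Y k * (C ((A i k j : ℝ) : ℂ) * X i) = C ((A i k j : ℝ) : ℂ) * (Y k * X i) by ring,
        coeff_C_mul, coeff_mul_X']
    have h3 : ∀ k i, coeff β (rp (D * M) (Y k) * (C (A i k j) * X i)) =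
        A i k j * (if i ∈ β.support then coeff (β - Finsupp.single i 1) (rp (D * M) (Y k))
          else 0) := by
      intro k i
      rw [show rp (D * M) (Y k) * (C (A i k j) * X i) = C (A i k j) * (rp (D * M) (Y k) * X i) by
        ring, coeff_C_mul, coeff_mul_X']
    simp_rw [h2] at h1
    simp_rw [h3]
    by_cases hβ : β.degree = D * M + 1
    · have h4 := congrArg Complex.re h1
      simp only [Complex.re_sum, Complex.zero_re] at h4
      refine Eq.trans ?_ h4
      refine Finset.sum_congr rfl fun k _ => Finset.sum_congr rfl fun i _ => ?_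
      rw [Complex.re_ofReal_mul]
      congr 1
      by_cases hi : i ∈ β.support
      · rw [if_pos hi, if_pos hi, rp_coeff, if_pos]
        have h5 : (β - Finsupp.single i 1) + Finsupp.single i 1 = β := by
          refine tsub_add_cancel_of_le (Finsupp.single_le_iff.2 ?_)
          exact Nat.one_le_iff_ne_zero.2 (Finsupp.mem_support_iff.1 hi)
        have h6 := congrArg Finsupp.degree h5
        rw [map_add, Finsupp.degree_single, hβ] at h6
        omega
      · rw [if_neg hi, if_neg hi]; rfl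
    · refine Finset.sum_eq_zero fun k _ => Finset.sum_eq_zero fun i _ => ?_
      by_cases hi : i ∈ β.support
      · rw [if_pos hi, rp_coeff, if_neg, mul_zero]
        intro h7
        have h5 : (β - Finsupp.single i 1) + Finsupp.single i 1 = β := by
          refine tsub_add_cancel_of_le (Finsupp.single_le_iff.2 ?_)
          exact Nat.one_le_iff_ne_zero.2 (Finsupp.mem_support_iff.1 hi)
        have h6 := congrArg Finsupp.degree h5
        rw [map_add, Finsupp.degree_single, h7] at h6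
        exact hβ h6.symm
      · rw [if_neg hi, mul_zero]
  · ext β
    have h1 := congrArg (coeff β) hY2
    rw [← map_pow, coeff_map] at h1
    simp_rw [mul_comm _ (C _)] at h1 ⊢
    simp only [coeff_sum, coeff_C_mul] at h1 ⊢
    simp_rw [rp_coeff]
    by_cases hβ : β.degree = D * M
    · simp_rw [if_pos hβ]
      have h4 := congrArg Complex.re h1
      simp only [Complex.re_sum, Complex.ofRealHom_eq_coe, Complex.ofReal_re] at h4
      rw [← h4]
      refine Finset.sum_congr rfl fun k _ => ?_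
      rw [Complex.re_ofReal_mul]
    · simp_rw [if_neg hβ]
      simp only [mul_zero, Finset.sum_const_zero]
      symm
      by_contra hne
      have h5 := (hPh.pow M) hne
      refine hβ ?_
      rw [Finsupp.degree_eq_weight_one]
      exact h5

end main

end

end TG


end

section

/-!
# Module AL: (9.3) and the choice of the second order operators
-/

open MeasureTheory Metric Set TrI MvPolynomial
open scoped InnerProductSpace ContDiff

namespace TG

noncomputable section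

variable {d : ℕ}

theorem sNu_hom (v : Sp d) : (sNu v).IsHomogeneous 2 := by
  refine IsHomogeneous.sub ?_ ?_
  · refine IsHomogeneous.sum _ _ _ fun i _ => ?_
    exact isHomogeneous_X_pow i 2
  · have h : (∑ i, C (v i) * X i : MvPolynomial (Fin d) ℝ).IsHomogeneous 1 :=
      IsHomogeneous.sum _ _ _ fun i _ => isHomogeneous_C_mul_X _ _
    exact h.pow 2

theorem sQ_hom (S : Sp d →L[ℝ] Sp d) : (sQ S).IsHomogeneous 2 := by
  refine IsHomogeneous.sum _ _ _ fun k _ => ?_
  have h : (∑ i, C ((S (EuclideanSpace.single k (1 : ℝ))) i) * X i :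
      MvPolynomial (Fin d) ℝ).IsHomogeneous 1 :=
    IsHomogeneous.sum _ _ _ fun i _ => isHomogeneous_C_mul_X _ _
  exact h.pow 2

theorem sNu_eval (v : Sp d) (hv : ‖v‖ = 1) (c : ℂ) :
    eval₂ Complex.ofRealHom (fun i => c * ((v i : ℝ) : ℂ)) (sNu v) = 0 := by
  have h1 : ∑ i, (v i) ^ 2 = 1 := by
    have := EuclideanSpace.real_norm_sq_eq v
    rw [hv] at this
    rw [← this]; norm_num
  have h2 : ∑ i, ((v i : ℝ) : ℂ) ^ 2 = 1 := by exact_mod_cast congrArg (fun r : ℝ => (r : ℂ)) h1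
  rw [sNu, eval₂_sub, eval₂_pow]
  simp only [eval₂_sum, eval₂_pow, eval₂_mul, eval₂_C, eval₂_X, Complex.ofRealHom_eq_coe]
  have h3 : ∑ i, (c * ((v i : ℝ) : ℂ)) ^ 2 = c ^ 2 := by
    simp_rw [mul_pow]
    rw [← Finset.mul_sum, h2, mul_one]
  have h4 : ∑ i, ((v i : ℝ) : ℂ) * (c * ((v i : ℝ) : ℂ)) = c := by
    have : ∀ i, ((v i : ℝ) : ℂ) * (c * ((v i : ℝ) : ℂ)) = c * ((v i : ℝ) : ℂ) ^ 2 := by
      intro i; ring
    simp_rw [this]
    rw [← Finset.mul_sum, h2, mul_one]
  rw [h3, h4, sub_self]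

/-- extension to a basis -/
theorem al_basis (a b : Sp d) (hab : LinearIndependent ℝ ![a, b]) :
    ∃ (ι : Type) (B : Module.Basis (Fin 2 ⊕ ι) ℝ (Sp d)), B (Sum.inl 0) = a ∧ B (Sum.inl 1) = b := by
  refine ⟨_, Module.Basis.sumExtend hab, ?_, ?_⟩
  · rw [Module.Basis.sumExtend]
    simp
    rfl
  · rw [Module.Basis.sumExtend]
    simp
    rfl

/-- for independent a, b there is a bijective S whose form vanishes at a + ib -/
theorem al_form (a b : Sp d) (hab : LinearIndependent ℝ ![a, b]) :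
    ∃ S : Sp d →L[ℝ] Sp d, Function.Bijective S ∧ ∀ c : ℂ,
      eval₂ Complex.ofRealHom (fun i => c * (((a i : ℝ) : ℂ) + ((b i : ℝ) : ℂ) * Complex.I))
        (sQ S) = 0 := by
  classical
  obtain ⟨ι, B, hBa, hBb⟩ := al_basis a b hab
  set O : Module.Basis (Fin d) ℝ (Sp d) := (EuclideanSpace.basisFun (Fin d) ℝ).toBasis with hO
  set e := B.indexEquiv O with he
  set T : Sp d ≃ₗ[ℝ] Sp d := B.equiv O e with hT
  have hTa : T a = EuclideanSpace.single (e (Sum.inl 0)) 1 := by
    rw [← hBa, hT, Module.Basis.equiv_apply, hO]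
    simp
  have hTb : T b = EuclideanSpace.single (e (Sum.inl 1)) 1 := by
    rw [← hBb, hT, Module.Basis.equiv_apply, hO]
    simp
  set Tc : Sp d →L[ℝ] Sp d := LinearMap.toContinuousLinearMap (T : Sp d →ₗ[ℝ] Sp d) with hTc
  have hTcT : ∀ x, Tc x = T x := fun x => rfl
  set S : Sp d →L[ℝ] Sp d := ContinuousLinearMap.adjoint Tc with hS
  have hin : ∀ x y, ⟪S x, y⟫_ℝ = ⟪x, T y⟫_ℝ := by
    intro x y
    rw [hS, ContinuousLinearMap.adjoint_inner_left]
    rfl
  have hinj : Function.Injective S := by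
    rw [injective_iff_map_eq_zero]
    intro x hx
    obtain ⟨y, hy⟩ := T.surjective x
    have h1 := hin x y
    rw [hx, hy, inner_zero_left, real_inner_self_eq_norm_sq] at h1
    exact norm_eq_zero.1 (pow_eq_zero_iff (two_ne_zero) |>.1 h1.symm)
  refine ⟨S, ⟨hinj, ?_⟩, ?_⟩
  · exact (LinearMap.injective_iff_surjective (f := (S : Sp d →ₗ[ℝ] Sp d))).1 hinj
  intro c
  have hk : ∀ (k : Fin d) (x : Sp d), ∑ i, (S (EuclideanSpace.single k (1 : ℝ))) i * x i =
      (T x) k := by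
    intro k x
    have h1 := hin (EuclideanSpace.single k (1 : ℝ)) x
    rw [EuclideanSpace.inner_single_left] at h1
    simp only [map_one, one_mul] at h1
    rw [← h1, PiLp.inner_apply]
    refine Finset.sum_congr rfl fun i _ => ?_
    simp [mul_comm]
  have hlin : ∀ k : Fin d, ∑ i, (((S (EuclideanSpace.single k (1 : ℝ))) i : ℝ) : ℂ) *
      (c * (((a i : ℝ) : ℂ) + ((b i : ℝ) : ℂ) * Complex.I)) =
      c * ((((T a) k : ℝ) : ℂ) + (((T b) k : ℝ) : ℂ) * Complex.I) := by
    intro k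
    rw [← hk k a, ← hk k b]
    push_cast
    rw [Finset.sum_mul, ← Finset.sum_add_distrib, Finset.mul_sum]
    refine Finset.sum_congr rfl fun i _ => ?_
    ring
  have hne : e (Sum.inl 0) ≠ e (Sum.inl 1) := by
    intro h
    have := e.injective h
    simp at this
  rw [sQ]
  simp only [eval₂_sum, eval₂_pow, eval₂_mul, eval₂_C, eval₂_X, Complex.ofRealHom_eq_coe]
  simp_rw [hlin, hTa, hTb]
  rw [Finset.sum_eq_add_of_mem (e (Sum.inl 0)) (e (Sum.inl 1)) (Finset.mem_univ _)
    (Finset.mem_univ _) hne]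
  · simp [hne, hne.symm, mul_pow]
  · intro k _ hk2
    simp [hk2.1, hk2.2]

/-- (9.3) -/
theorem al_choice (𝓛 : Set (Submodule ℂ (Fin d → ℂ))) (hfin : 𝓛.Finite)
    (hl : ∀ l ∈ 𝓛, ∃ x : Fin d → ℂ, x ≠ 0 ∧ l = Submodule.span ℂ {x}) :
    ∃ (r q : ℕ) (ν : Fin r → Sp d) (S : Fin q → (Sp d →L[ℝ] Sp d)), 1 ≤ q ∧
      (∀ i, ‖ν i‖ = 1) ∧ (∀ i j, i ≠ j → ν i ≠ ν j ∧ ν i ≠ - ν j) ∧
      (∀ k, Function.Bijective (S k)) ∧
      ∀ l ∈ 𝓛, ∀ x ∈ l,
        eval₂ Complex.ofRealHom x ((∏ i, sNu (ν i)) * ∏ k, sQ (S k)) = 0 := by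
  classical
  -- real lines
  set Re : Set (Submodule ℂ (Fin d → ℂ)) :=
    {l ∈ 𝓛 | ∃ v : Sp d, ‖v‖ = 1 ∧ l = Submodule.span ℂ {fun i => ((v i : ℝ) : ℂ)}} with hRe
  set Im : Set (Submodule ℂ (Fin d → ℂ)) :=
    {l ∈ 𝓛 | ∃ S : Sp d →L[ℝ] Sp d, Function.Bijective S ∧
      ∀ x ∈ l, eval₂ Complex.ofRealHom x (sQ S) = 0} with hIm
  have hReF : Re.Finite := hfin.subset fun l h => h.1
  have hImF : Im.Finite := hfin.subset fun l h => h.1
  have hcov : ∀ l ∈ 𝓛, l ∈ Re ∨ l ∈ Im := by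
    intro l hlm
    obtain ⟨x, hx, rfl⟩ := hl l hlm
    set a : Sp d := WithLp.toLp 2 fun i => (x i).re with ha
    set b : Sp d := WithLp.toLp 2 fun i => (x i).im with hb
    have hxab : ∀ i, x i = ((a i : ℝ) : ℂ) + ((b i : ℝ) : ℂ) * Complex.I := fun i =>
      (Complex.re_add_im (x i)).symm
    by_cases hab : LinearIndependent ℝ ![a, b]
    · right
      obtain ⟨S, hS1, hS2⟩ := al_form a b hab
      refine ⟨hlm, S, hS1, ?_⟩
      intro y hy
      obtain ⟨c, rfl⟩ := Submodule.mem_span_singleton.1 hy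
      have h1 : c • x = fun i => c * (((a i : ℝ) : ℂ) + ((b i : ℝ) : ℂ) * Complex.I) := by
        funext i
        rw [Pi.smul_apply, smul_eq_mul, hxab i]
      rw [h1]
      exact hS2 c
    · left
      rw [LinearIndependent.pair_iff] at hab
      push Not at hab
      obtain ⟨s, t, hst, hne⟩ := hab
      -- (t + i s) x = t a - s b is real
      set w : Sp d := t • a - s • b with hw
      set z : ℂ := ⟨t, s⟩ with hz
      have hz0 : z ≠ 0 := by
        intro h
        have h1 := congrArg Complex.re h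
        have h2 := congrArg Complex.im h
        simp [hz] at h1 h2
        exact hne h2 h1
      have hzx : z • x = fun i => ((w i : ℝ) : ℂ) := by
        funext i
        have h1 : s * a i + t * b i = 0 := by
          have := congrArg (fun v : Sp d => v i) hst
          simpa using this
        rw [Pi.smul_apply, smul_eq_mul, hxab i]
        apply Complex.ext
        · simp [hz, hw]
        · simp only [hz, Complex.mul_im, Complex.add_im, Complex.add_re, Complex.ofReal_im,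
            Complex.ofReal_re, Complex.mul_re, Complex.I_re, Complex.I_im]
          linarith
      have hw0 : w ≠ 0 := by
        intro h
        rw [h] at hzx
        have h1 : z • x = 0 := by
          rw [hzx]; funext i; simp
        rcases smul_eq_zero.1 h1 with h2 | h2
        · exact hz0 h2
        · exact hx h2
      have hwn : ‖w‖ ≠ 0 := norm_ne_zero_iff.2 hw0
      refine ⟨hlm, (‖w‖)⁻¹ • w, ?_, ?_⟩
      · rw [norm_smul, norm_inv, norm_norm, inv_mul_cancel₀ hwn]
      · have h1 : (fun i => ((((‖w‖)⁻¹ • w) i : ℝ) : ℂ)) = (((‖w‖)⁻¹ : ℝ) : ℂ) • z • x := by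
          rw [hzx]
          funext i
          simp
        rw [h1, smul_smul]
        refine (Submodule.span_singleton_smul_eq ?_ x).symm
        refine IsUnit.mk0 _ (mul_ne_zero ?_ hz0)
        exact_mod_cast inv_ne_zero hwn
  -- enumerate
  let eR := hReF.toFinset.equivFin
  let eI := hImF.toFinset.equivFin
  set r := hReF.toFinset.card
  set q := hImF.toFinset.card
  have hR : ∀ i : Fin r, ∃ v : Sp d, ‖v‖ = 1 ∧
      (eR.symm i : Submodule ℂ (Fin d → ℂ)) = Submodule.span ℂ {fun i => ((v i : ℝ) : ℂ)} := by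
    intro i
    exact ((Set.Finite.mem_toFinset hReF).1 (eR.symm i).2).2
  have hI : ∀ k : Fin q, ∃ S : Sp d →L[ℝ] Sp d, Function.Bijective S ∧
      ∀ x ∈ (eI.symm k : Submodule ℂ (Fin d → ℂ)), eval₂ Complex.ofRealHom x (sQ S) = 0 := by
    intro k
    exact ((Set.Finite.mem_toFinset hImF).1 (eI.symm k).2).2
  choose ν hν1 hν2 using hR
  choose S hS1 hS2 using hI
  refine ⟨r, q + 1, ν, Fin.cons (ContinuousLinearMap.id ℝ (Sp d)) S, by omega, hν1, ?_, ?_, ?_⟩
  · intro i j hij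
    have hne : (eR.symm i : Submodule ℂ (Fin d → ℂ)) ≠ eR.symm j := by
      intro h
      exact hij (eR.symm.injective (Subtype.ext h))
    constructor
    · intro h
      apply hne
      rw [hν2 i, hν2 j, h]
    · intro h
      apply hne
      rw [hν2 i, hν2 j, h]
      have h1 : (fun k => (((-ν j) k : ℝ) : ℂ)) = -(fun k => (((ν j) k : ℝ) : ℂ)) := by
        funext k; simp
      rw [h1, ← Set.neg_singleton, Submodule.span_neg]
  · intro k
    refine Fin.cases ?_ (fun k => ?_) k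
    · exact Function.bijective_id
    · exact hS1 k
  · intro l hlm x hx
    rw [eval₂_mul]
    rcases hcov l hlm with h | h
    · set i := eR ⟨l, (Set.Finite.mem_toFinset hReF).2 h⟩ with hi
      have hli : (eR.symm i : Submodule ℂ (Fin d → ℂ)) = l := by
        rw [hi, Equiv.symm_apply_apply]
      have h1 : eval₂ Complex.ofRealHom x (∏ i, sNu (ν i)) = 0 := by
        rw [← coe_eval₂Hom, map_prod]
        refine Finset.prod_eq_zero (Finset.mem_univ i) ?_
        rw [coe_eval₂Hom]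
        rw [← hli, hν2 i] at hx
        obtain ⟨c, rfl⟩ := Submodule.mem_span_singleton.1 hx
        exact sNu_eval (ν i) (hν1 i) c
      rw [h1, zero_mul]
    · set k := eI ⟨l, (Set.Finite.mem_toFinset hImF).2 h⟩ with hk
      have hlk : (eI.symm k : Submodule ℂ (Fin d → ℂ)) = l := by
        rw [hk, Equiv.symm_apply_apply]
      have h1 : eval₂ Complex.ofRealHom x (∏ k, sQ ((Fin.cons (ContinuousLinearMap.id ℝ (Sp d)) S :
          Fin (q + 1) → (Sp d →L[ℝ] Sp d)) k)) = 0 := by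
        rw [← coe_eval₂Hom, map_prod]
        refine Finset.prod_eq_zero (Finset.mem_univ k.succ) ?_
        rw [coe_eval₂Hom, Fin.cons_succ]
        rw [← hlk] at hx
        exact hS2 k x hx
      rw [h1, mul_zero]

end

end TG


end

section

/-!
# Module AL2: from symbols to operators

Differential operators with constant coefficients, given by real polynomials.
-/

open MeasureTheory Metric Set TrI MvPolynomial
open scoped InnerProductSpace ContDiff

namespace TG

noncomputable section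

namespace AL2

variable {d : ℕ}

/-- the basis vectors -/
def ee (i : Fin d) : Sp d := EuclideanSpace.single i (1 : ℝ)

/-- a tuple with content a -/
def tp (a : Fin d →₀ ℕ) : Fin a.degree → Fin d := (exists_tuple a a.degree rfl).choose

theorem tp_cnt (a : Fin d →₀ ℕ) : cnt (tp a) = a := (exists_tuple a a.degree rfl).choose_spec

/-- partial derivatives -/
def Dm (a : Fin d →₀ ℕ) (ζ : Sp d → ℝ) (x : Sp d) : ℝ :=
  iteratedFDeriv ℝ a.degree ζ x (fun k => ee (tp a k))

theorem Dm_eq {ζ : Sp d → ℝ} (hζ : ContDiff ℝ ∞ ζ) (x : Sp d) :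
    ∀ (m : ℕ) (t : Fin m → Fin d),
      iteratedFDeriv ℝ m ζ x (fun k => ee (t k)) = Dm (cnt t) ζ x := by
  intro m t
  have key : ∀ (n : ℕ) (s : Fin n → Fin d), n = m → cnt s = cnt t →
      iteratedFDeriv ℝ n ζ x (fun k => ee (s k)) = iteratedFDeriv ℝ m ζ x (fun k => ee (t k)) := by
    intro n s hn hs
    subst hn
    obtain ⟨π, hπ⟩ := exists_perm_of_cnt _ _ hs
    have h2 : (fun r => ee (t r)) = (fun r => ee (s r)) ∘ π := by
      funext r
      exact congrArg ee (congrFun hπ r).symm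
    rw [h2]
    exact (iter_perm hζ n x π _).symm
  exact (key _ (tp (cnt t)) (cnt_degree t) (tp_cnt _)).symm

theorem Dm_smooth {ζ : Sp d → ℝ} (hζ : ContDiff ℝ ∞ ζ) (a : Fin d →₀ ℕ) :
    ContDiff ℝ ∞ (Dm a ζ) := smooth_iter_apply hζ _ _

theorem Dm_zero {ζ : Sp d → ℝ} (hζ : ContDiff ℝ ∞ ζ) (x : Sp d) : Dm 0 ζ x = ζ x := by
  have h := Dm_eq hζ x 0 (fun i => i.elim0)
  have h1 : cnt (fun i : Fin 0 => (i.elim0 : Fin d)) = 0 := by
    rw [cnt]; simp
  rw [h1] at h
  rw [← h]
  simp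

theorem Dm_succ {ζ : Sp d → ℝ} (hζ : ContDiff ℝ ∞ ζ) (a : Fin d →₀ ℕ) (i : Fin d) (x : Sp d) :
    Dm (Finsupp.single i 1 + a) ζ x = fderiv ℝ (Dm a ζ) x (ee i) := by
  have h1 : cnt (Fin.cons i (tp a) : Fin (a.degree + 1) → Fin d) = Finsupp.single i 1 + a := by
    rw [cnt, Fin.sum_univ_succ]
    simp only [Fin.cons_zero, Fin.cons_succ]
    congr 1
    exact tp_cnt a
  rw [← h1, ← Dm_eq hζ, iter_succ hζ]
  rfl

/-- the functional of a jet -/
def pDl (ζ : Sp d → ℝ) (x : Sp d) : MvPolynomial (Fin d) ℝ →ₗ[ℝ] ℝ :=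
  (MvPolynomial.basisMonomials (Fin d) ℝ).constr ℝ (fun a => Dm a ζ x)

/-- the differential operator with symbol P -/
def pD (P : MvPolynomial (Fin d) ℝ) (ζ : Sp d → ℝ) (x : Sp d) : ℝ := pDl ζ x P

theorem pD_monomial (a : Fin d →₀ ℕ) (c : ℝ) (ζ : Sp d → ℝ) (x : Sp d) :
    pD (monomial a c) ζ x = c * Dm a ζ x := by
  have h1 : (monomial a c : MvPolynomial (Fin d) ℝ) =
      c • (MvPolynomial.basisMonomials (Fin d) ℝ a) := by
    rw [MvPolynomial.coe_basisMonomials, MvPolynomial.smul_monomial, smul_eq_mul, mul_one]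
  rw [pD, h1, map_smul, pDl]
  simp only [Module.Basis.constr_basis, smul_eq_mul]

theorem pD_add (P Q : MvPolynomial (Fin d) ℝ) (ζ : Sp d → ℝ) (x : Sp d) :
    pD (P + Q) ζ x = pD P ζ x + pD Q ζ x := map_add _ _ _

theorem pD_sub (P Q : MvPolynomial (Fin d) ℝ) (ζ : Sp d → ℝ) (x : Sp d) :
    pD (P - Q) ζ x = pD P ζ x - pD Q ζ x := map_sub _ _ _

theorem pD_zero (ζ : Sp d → ℝ) (x : Sp d) :
    pD (0 : MvPolynomial (Fin d) ℝ) ζ x = 0 := map_zero _

theorem pD_sum {ι : Type*} (s : Finset ι) (P : ι → MvPolynomial (Fin d) ℝ) (ζ : Sp d → ℝ)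
    (x : Sp d) : pD (∑ i ∈ s, P i) ζ x = ∑ i ∈ s, pD (P i) ζ x := map_sum _ _ _

theorem pD_C_mul (c : ℝ) (P : MvPolynomial (Fin d) ℝ) (ζ : Sp d → ℝ) (x : Sp d) :
    pD (C c * P) ζ x = c * pD P ζ x := by
  rw [← MvPolynomial.smul_eq_C_mul, pD, map_smul, smul_eq_mul]; rfl

theorem pD_smooth {ζ : Sp d → ℝ} (hζ : ContDiff ℝ ∞ ζ) (P : MvPolynomial (Fin d) ℝ) :
    ContDiff ℝ ∞ (pD P ζ) := by
  induction P using MvPolynomial.induction_on' with
  | monomial a c =>
    have h : pD (monomial a c) ζ = fun x => c * Dm a ζ x := by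
      funext x; exact pD_monomial a c ζ x
    rw [h]
    exact contDiff_const.mul (Dm_smooth hζ a)
  | add p q hp hq =>
    have h : pD (p + q) ζ = fun x => pD p ζ x + pD q ζ x := by
      funext x; exact pD_add p q ζ x
    rw [h]
    exact hp.add hq

theorem pD_diff {ζ : Sp d → ℝ} (hζ : ContDiff ℝ ∞ ζ) (P : MvPolynomial (Fin d) ℝ) (x : Sp d) :
    DifferentiableAt ℝ (pD P ζ) x :=
  ((pD_smooth hζ P).differentiable (by simp)) x

theorem pD_X_mul {ζ : Sp d → ℝ} (hζ : ContDiff ℝ ∞ ζ) (i : Fin d) (P : MvPolynomial (Fin d) ℝ)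
    (x : Sp d) : pD (X i * P) ζ x = fderiv ℝ (pD P ζ) x (ee i) := by
  induction P using MvPolynomial.induction_on' with
  | monomial a c =>
    have h : pD (monomial a c) ζ = fun x => c * Dm a ζ x := by
      funext x; exact pD_monomial a c ζ x
    rw [h, fderiv_const_mul ((Dm_smooth hζ a).differentiable (by simp) x)]
    rw [MvPolynomial.X, monomial_mul, one_mul, pD_monomial, Dm_succ hζ]
    rfl
  | add p q hp hq =>
    have h : pD (p + q) ζ = fun x => pD p ζ x + pD q ζ x := by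
      funext x; exact pD_add p q ζ x
    rw [h, fderiv_fun_add (pD_diff hζ p x) (pD_diff hζ q x), mul_add, pD_add, hp, hq]
    rfl

theorem pD_one {ζ : Sp d → ℝ} (hζ : ContDiff ℝ ∞ ζ) : pD 1 ζ = ζ := by
  funext x
  have h : (1 : MvPolynomial (Fin d) ℝ) = monomial 0 1 := rfl
  rw [h, pD_monomial, Dm_zero hζ, one_mul]

theorem pD_C {ζ : Sp d → ℝ} (hζ : ContDiff ℝ ∞ ζ) (c : ℝ) (x : Sp d) :
    pD (C c) ζ x = c * ζ x := by
  have h := pD_C_mul c 1 ζ x
  rwa [mul_one, pD_one hζ] at h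

theorem pD_X {ζ : Sp d → ℝ} (hζ : ContDiff ℝ ∞ ζ) (i : Fin d) (x : Sp d) :
    pD (X i) ζ x = fderiv ℝ ζ x (ee i) := by
  have h := pD_X_mul hζ i 1 x
  rwa [mul_one, pD_one hζ] at h

theorem pD_mul (P : MvPolynomial (Fin d) ℝ) : ∀ (Q : MvPolynomial (Fin d) ℝ) (ζ : Sp d → ℝ),
    ContDiff ℝ ∞ ζ → pD (P * Q) ζ = pD P (pD Q ζ) := by
  induction P using MvPolynomial.induction_on with
  | C c =>
    intro Q ζ hζ
    funext x
    rw [pD_C_mul, pD_C (pD_smooth hζ Q)]
  | add p q hp hq =>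
    intro Q ζ hζ
    funext x
    rw [add_mul, pD_add, pD_add, hp Q ζ hζ, hq Q ζ hζ]
  | mul_X p i hp =>
    intro Q ζ hζ
    rw [mul_assoc, hp (X i * Q) ζ hζ, hp (X i) (pD Q ζ) (pD_smooth hζ Q)]
    congr 1
    funext x
    rw [pD_X_mul hζ, pD_X (pD_smooth hζ Q)]

/-- first order operators -/
theorem pD_lin {ζ : Sp d → ℝ} (hζ : ContDiff ℝ ∞ ζ) (w : Sp d) (x : Sp d) :
    pD (∑ i, C (w i) * X i) ζ x = fderiv ℝ ζ x w := by
  rw [pD_sum]
  have h : w = ∑ i, w i • ee i := by
    have := ((EuclideanSpace.basisFun (Fin d) ℝ).sum_repr w).symm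
    simpa [ee] using this
  conv_rhs => rw [h]
  rw [map_sum]
  refine Finset.sum_congr rfl fun i _ => ?_
  rw [pD_C_mul, pD_X hζ, map_smul, smul_eq_mul]

/-- second order operators -/
theorem pD_sq {ζ : Sp d → ℝ} (hζ : ContDiff ℝ ∞ ζ) (w : Sp d) (x : Sp d) :
    pD ((∑ i, C (w i) * X i) ^ 2) ζ x = iteratedFDeriv ℝ 2 ζ x (fun _ => w) := by
  rw [pow_two, pD_mul _ _ _ hζ, pD_lin (pD_smooth hζ _), iter_succ hζ]
  congr 2
  funext y
  rw [pD_lin hζ, iteratedFDeriv_one_apply]
  rfl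

theorem pD_X_sq {ζ : Sp d → ℝ} (hζ : ContDiff ℝ ∞ ζ) (i : Fin d) (x : Sp d) :
    pD (X i ^ 2) ζ x = iteratedFDeriv ℝ 2 ζ x (fun _ => ee i) := by
  rw [← pD_sq hζ]
  congr 2
  rw [Finset.sum_eq_single i]
  · simp [ee]
  · intro j _ hj
    simp [ee, hj]
  · intro h; exact absurd (Finset.mem_univ i) h

theorem pD_sNu {ζ : Sp d → ℝ} (hζ : ContDiff ℝ ∞ ζ) (v : Sp d) : pD (sNu v) ζ = opNu v ζ := by
  funext x
  rw [sNu, pD_sub, pD_sq hζ, pD_sum, opNu, lap, d2]
  congr 1
  refine Finset.sum_congr rfl fun i _ => ?_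
  rw [pD_X_sq hζ]
  rfl

theorem pD_sQ {ζ : Sp d → ℝ} (hζ : ContDiff ℝ ∞ ζ) (S : Sp d →L[ℝ] Sp d) :
    pD (sQ S) ζ = qD S ζ := by
  funext x
  rw [sQ, pD_sum, qD]
  refine Finset.sum_congr rfl fun i _ => ?_
  rw [pD_sq hζ]

theorem foldNu (l : List (Sp d)) {g : Sp d → ℝ} (hg : ContDiff ℝ ∞ g) :
    l.foldr (fun v g => opNu v g) g = pD ((l.map sNu).prod) g := by
  induction l with
  | nil => simp [pD_one hg]
  | cons v l ih =>
    rw [List.foldr_cons, ih, List.map_cons, List.prod_cons, pD_mul _ _ _ hg,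
      pD_sNu (pD_smooth hg _)]

theorem foldQ (l : List (Sp d →L[ℝ] Sp d)) {g : Sp d → ℝ} (hg : ContDiff ℝ ∞ g) :
    l.foldr (fun s g => qD s g) g = pD ((l.map sQ).prod) g := by
  induction l with
  | nil => simp [pD_one hg]
  | cons v l ih =>
    rw [List.foldr_cons, ih, List.map_cons, List.prod_cons, pD_mul _ _ _ hg,
      pD_sQ (pD_smooth hg _)]

theorem allOp_eq {r q : ℕ} (ν : Fin r → Sp d) (S : Fin q → (Sp d →L[ℝ] Sp d)) {ζ : Sp d → ℝ}
    (hζ : ContDiff ℝ ∞ ζ) :
    allOp ν S ζ = pD ((∏ i, sNu (ν i)) * ∏ k, sQ (S k)) ζ := by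
  rw [allOp, foldQ _ hζ, foldNu _ (pD_smooth hζ _), pD_mul _ _ _ hζ, List.map_ofFn, List.map_ofFn,
    List.prod_ofFn, List.prod_ofFn]
  rfl

theorem iter_eq {r q : ℕ} (ν : Fin r → Sp d) (S : Fin q → (Sp d →L[ℝ] Sp d)) (n : ℕ) :
    ∀ {ζ : Sp d → ℝ}, ContDiff ℝ ∞ ζ →
    (allOp ν S)^[n] ζ = pD (((∏ i, sNu (ν i)) * ∏ k, sQ (S k)) ^ n) ζ := by
  induction n with
  | zero => intro ζ hζ; simp [pD_one hζ]
  | succ n ih =>
    intro ζ hζ
    rw [Function.iterate_succ_apply, allOp_eq ν S hζ, ih (pD_smooth hζ _), pow_succ,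
      ← pD_mul _ _ _ hζ]

/-- locality -/
theorem pD_off {ζ : Sp d → ℝ} (P : MvPolynomial (Fin d) ℝ) {x : Sp d} (hx : x ∉ tsupport ζ) :
    pD P ζ x = 0 := by
  have h1 : pDl ζ x = 0 := by
    refine (MvPolynomial.basisMonomials (Fin d) ℝ).ext fun a => ?_
    rw [pDl, Module.Basis.constr_basis]
    have h2 : iteratedFDeriv ℝ a.degree ζ x = 0 := by
      by_contra hne
      exact hx (support_iteratedFDeriv_subset a.degree hne)
    simp [Dm, h2]
  rw [pD, h1]
  rfl

theorem pD_cs {ζ : Sp d → ℝ} (hc : HasCompactSupport ζ) (P : MvPolynomial (Fin d) ℝ) :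
    HasCompactSupport (pD P ζ) :=
  HasCompactSupport.intro hc.isCompact fun _ hx => pD_off P hx

/-- tuple of length m with content a, if there is one -/
def tm (m : ℕ) (a : Fin d →₀ ℕ) (k : Fin m) : Sp d :=
  open Classical in
  if h : ∃ t : Fin m → Fin d, cnt t = a then ee (h.choose k) else 0

theorem tm_eq {ζ : Sp d → ℝ} (hζ : ContDiff ℝ ∞ ζ) (x : Sp d) (m : ℕ) (a : Fin d →₀ ℕ)
    (ha : a.degree = m) : iteratedFDeriv ℝ m ζ x (tm m a) = Dm a ζ x := by
  have h : ∃ t : Fin m → Fin d, cnt t = a := exists_tuple a m ha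
  have h1 : tm m a = fun k => ee (h.choose k) := by
    funext k
    rw [tm, dif_pos h]
  rw [h1, Dm_eq hζ]
  congr 1
  exact h.choose_spec

variable {V E : Type} [NormedAddCommGroup V] [InnerProductSpace ℝ V]
  [FiniteDimensional ℝ V] [NormedAddCommGroup E] [InnerProductSpace ℝ E]
  [FiniteDimensional ℝ E]

/-- evaluation of a polynomial at a multilinear map -/
def ev (m : ℕ) (P : MvPolynomial (Fin d) ℝ) :
    (ContinuousMultilinearMap ℝ (fun _ : Fin m => Sp d) ℝ) →L[ℝ] ℝ :=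
  ∑ a ∈ P.support, coeff a P • ContinuousMultilinearMap.apply ℝ (fun _ : Fin m => Sp d) ℝ (tm m a)

theorem ev_eq {ζ : Sp d → ℝ} (hζ : ContDiff ℝ ∞ ζ) (x : Sp d) (m : ℕ)
    (P : MvPolynomial (Fin d) ℝ) (hP : P.IsHomogeneous m) :
    ev m P (iteratedFDeriv ℝ m ζ x) = pD P ζ x := by
  conv_rhs => rw [P.as_sum]
  rw [pD_sum, ev, ContinuousLinearMap.sum_apply]
  refine Finset.sum_congr rfl fun a ha => ?_
  rw [pD_monomial, ContinuousLinearMap.smul_apply, ContinuousMultilinearMap.apply_apply,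
    smul_eq_mul]
  congr 1
  refine tm_eq hζ x m a ?_
  have h1 := hP (mem_support_iff.1 ha)
  rw [Finsupp.degree_eq_weight_one]
  exact h1

/-- integration by parts -/
theorem ibp {u ζ : Sp d → ℝ} (hu : ContDiff ℝ ∞ u) (hζ : ContDiff ℝ ∞ ζ)
    (hc : HasCompactSupport ζ) (v : Sp d) :
    ∫ x, ζ x * fderiv ℝ u x v = - ∫ x, fderiv ℝ ζ x v * u x := by
  have hu' : Continuous (fun x => fderiv ℝ u x v) :=
    (hu.continuous_fderiv (by simp)).clm_apply continuous_const
  have hz' : Continuous (fun x => fderiv ℝ ζ x v) :=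
    (hζ.continuous_fderiv (by simp)).clm_apply continuous_const
  have hzc : HasCompactSupport (fun x => fderiv ℝ ζ x v) := hc.fderiv_apply ℝ v
  refine integral_mul_fderiv_eq_neg_fderiv_mul_of_integrable ?_ ?_ ?_ ?_ ?_
  · exact (hz'.mul hu.continuous).integrable_of_hasCompactSupport hzc.mul_right
  · exact (hζ.continuous.mul hu').integrable_of_hasCompactSupport hc.mul_right
  · exact (hζ.continuous.mul hu.continuous).integrable_of_hasCompactSupport hc.mul_right
  · exact fun x _ => (hζ.differentiable (by simp)) x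
  · exact fun x _ => (hu.differentiable (by simp)) x

/-- coordinates of L (Du) -/
theorem fo_coord (L : (Sp d →L[ℝ] V) →L[ℝ] E) {u : Sp d → V} (hu : ContDiff ℝ ∞ u) (x : Sp d)
    (k : Fin (Module.finrank ℝ E)) :
    ⟪stdOrthonormalBasis ℝ E k, fo L u x⟫_ℝ =
      ∑ j, ∑ i, ⟪stdOrthonormalBasis ℝ E k,
        L (rk1 (EuclideanSpace.single i (1 : ℝ)) (stdOrthonormalBasis ℝ V j))⟫_ℝ *
        fderiv ℝ (fun y => ⟪stdOrthonormalBasis ℝ V j, u y⟫_ℝ) x (ee i) := by
  have hd : ∀ j i, fderiv ℝ (fun y => ⟪stdOrthonormalBasis ℝ V j, u y⟫_ℝ) x (ee i) =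
      ⟪stdOrthonormalBasis ℝ V j, fderiv ℝ u x (ee i)⟫_ℝ := by
    intro j i
    rw [fderiv_inner_apply ℝ (differentiableAt_const _) ((hu.differentiable (by simp)) x)]
    simp
  simp_rw [hd]
  have h1 : fderiv ℝ u x = ∑ i, rk1 (EuclideanSpace.single i (1 : ℝ)) (fderiv ℝ u x (ee i)) :=
    clm_expand _
  rw [fo]
  conv_lhs => rw [h1]
  rw [map_sum, inner_sum, Finset.sum_comm]
  refine Finset.sum_congr rfl fun i _ => ?_
  have h2 : rk1 (EuclideanSpace.single i (1 : ℝ)) (fderiv ℝ u x (ee i)) =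
      ∑ j, ⟪stdOrthonormalBasis ℝ V j, fderiv ℝ u x (ee i)⟫_ℝ •
        rk1 (EuclideanSpace.single i (1 : ℝ)) (stdOrthonormalBasis ℝ V j) := by
    conv_lhs => rw [← (stdOrthonormalBasis ℝ V).sum_repr' (fderiv ℝ u x (ee i))]
    ext y
    simp only [rk1, ContinuousLinearMap.smulRight_apply, ContinuousLinearMap.sum_apply,
      ContinuousLinearMap.smul_apply]
    rw [Finset.smul_sum]
    refine Finset.sum_congr rfl fun j _ => ?_
    rw [smul_smul, smul_smul, mul_comm]
  rw [h2, map_sum, inner_sum]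
  refine Finset.sum_congr rfl fun j _ => ?_
  rw [map_smul, inner_smul_right, mul_comm]

end AL2

open _root_.TG.AL2

theorem stmtAL2 : StmtAL2 := by
  intro d V E _ _ _ _ _ _ L e0 r q Mx m ν S Y hY hann he0
  refine ⟨∑ k, (ev m (Y k)).smulRight (stdOrthonormalBasis ℝ E k), ?_, ?_⟩
  · intro ζ hζ x
    rw [iter_eq ν S Mx hζ, ← he0, pD_sum, ContinuousLinearMap.sum_apply, inner_sum]
    refine Finset.sum_congr rfl fun k _ => ?_
    rw [ContinuousLinearMap.smulRight_apply, ev_eq hζ x m _ (hY k), inner_smul_right, mul_comm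
      (Y k), pD_C_mul, real_inner_comm, mul_comm]
  · intro u ζ hu hζ hc
    have h0 : ∀ x, ⟪fo L u x, (∑ k, (ev m (Y k)).smulRight (stdOrthonormalBasis ℝ E k))
        (iteratedFDeriv ℝ m ζ x)⟫_ℝ = ∑ j, ∑ k, ∑ i, ⟪stdOrthonormalBasis ℝ E k,
        L (rk1 (EuclideanSpace.single i (1 : ℝ)) (stdOrthonormalBasis ℝ V j))⟫_ℝ *
        (pD (Y k) ζ x * fderiv ℝ (fun y => ⟪stdOrthonormalBasis ℝ V j, u y⟫_ℝ) x (ee i)) := by
      intro x
      rw [ContinuousLinearMap.sum_apply, inner_sum, Finset.sum_comm]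
      refine Finset.sum_congr rfl fun k _ => ?_
      rw [ContinuousLinearMap.smulRight_apply, ev_eq hζ x m _ (hY k), inner_smul_right,
        real_inner_comm, fo_coord L hu, Finset.mul_sum]
      refine Finset.sum_congr rfl fun j _ => ?_
      rw [Finset.mul_sum]
      refine Finset.sum_congr rfl fun i _ => ?_
      ring
    have hus : ∀ j, ContDiff ℝ ∞ (fun y => ⟪stdOrthonormalBasis ℝ V j, u y⟫_ℝ) := fun j =>
      contDiff_const.inner ℝ hu
    have hi1 : ∀ j k i, Integrable (fun x => pD (Y k) ζ x *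
        fderiv ℝ (fun y => ⟪stdOrthonormalBasis ℝ V j, u y⟫_ℝ) x (ee i)) := by
      intro j k i
      refine ((pD_smooth hζ (Y k)).continuous.mul ?_).integrable_of_hasCompactSupport
        (pD_cs hc (Y k)).mul_right
      exact ((hus j).continuous_fderiv (by simp)).clm_apply continuous_const
    have hi2 : ∀ j k i, Integrable (fun x => fderiv ℝ (pD (Y k) ζ) x (ee i) *
        ⟪stdOrthonormalBasis ℝ V j, u x⟫_ℝ) := by
      intro j k i
      refine (Continuous.mul ?_ (hus j).continuous).integrable_of_hasCompactSupport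
        ((pD_cs hc (Y k)).fderiv_apply ℝ (ee i)).mul_right
      exact ((pD_smooth hζ (Y k)).continuous_fderiv (by simp)).clm_apply continuous_const
    simp_rw [h0]
    rw [integral_finset_sum _ fun j _ => integrable_finset_sum _ fun k _ =>
      integrable_finset_sum _ fun i _ => (hi1 j k i).const_mul _]
    refine Finset.sum_eq_zero fun j _ => ?_
    rw [integral_finset_sum _ fun k _ =>
      integrable_finset_sum _ fun i _ => (hi1 j k i).const_mul _]
    have h1 : ∀ k, ∫ x, ∑ i, ⟪stdOrthonormalBasis ℝ E k,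
        L (rk1 (EuclideanSpace.single i (1 : ℝ)) (stdOrthonormalBasis ℝ V j))⟫_ℝ *
        (pD (Y k) ζ x * fderiv ℝ (fun y => ⟪stdOrthonormalBasis ℝ V j, u y⟫_ℝ) x (ee i)) =
        - ∫ x, ∑ i, ⟪stdOrthonormalBasis ℝ E k,
        L (rk1 (EuclideanSpace.single i (1 : ℝ)) (stdOrthonormalBasis ℝ V j))⟫_ℝ *
        (fderiv ℝ (pD (Y k) ζ) x (ee i) * ⟪stdOrthonormalBasis ℝ V j, u x⟫_ℝ) := by
      intro k
      rw [integral_finset_sum _ fun i _ => (hi1 j k i).const_mul _,
        integral_finset_sum _ fun i _ => (hi2 j k i).const_mul _, ← Finset.sum_neg_distrib]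
      refine Finset.sum_congr rfl fun i _ => ?_
      rw [integral_const_mul, integral_const_mul,
        ibp (hus j) (pD_smooth hζ (Y k)) (pD_cs hc (Y k)) (ee i), mul_neg]
    simp_rw [h1]
    rw [Finset.sum_neg_distrib, ← integral_finset_sum _ fun k _ =>
      integrable_finset_sum _ fun i _ => (hi2 j k i).const_mul _, neg_eq_zero]
    refine integral_eq_zero_of_ae (Filter.Eventually.of_forall fun x => ?_)
    have h2 := congrArg (fun P => pD P ζ x) (hann j)
    simp only [pD_zero, pD_sum] at h2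
    have h3 : ∑ k, ∑ i, ⟪stdOrthonormalBasis ℝ E k,
        L (rk1 (EuclideanSpace.single i (1 : ℝ)) (stdOrthonormalBasis ℝ V j))⟫_ℝ *
        (fderiv ℝ (pD (Y k) ζ) x (ee i) * ⟪stdOrthonormalBasis ℝ V j, u x⟫_ℝ) =
        (∑ k, pD (Y k * ∑ i, C (⟪stdOrthonormalBasis ℝ E k,
      L (rk1 (EuclideanSpace.single i (1 : ℝ)) (stdOrthonormalBasis ℝ V j))⟫_ℝ) * X i) ζ x) *
        ⟪stdOrthonormalBasis ℝ V j, u x⟫_ℝ := by
      rw [Finset.sum_mul]
      refine Finset.sum_congr rfl fun k _ => ?_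
      rw [Finset.mul_sum, pD_sum, Finset.sum_mul]
      refine Finset.sum_congr rfl fun i _ => ?_
      rw [show Y k * (C (⟪stdOrthonormalBasis ℝ E k,
        L (rk1 (EuclideanSpace.single i (1 : ℝ)) (stdOrthonormalBasis ℝ V j))⟫_ℝ) * X i) =
        C (⟪stdOrthonormalBasis ℝ E k,
        L (rk1 (EuclideanSpace.single i (1 : ℝ)) (stdOrthonormalBasis ℝ V j))⟫_ℝ) *
        (X i * Y k) by ring, pD_C_mul, pD_X_mul hζ]
      ring
    refine h3.trans ?_
    rw [h2, zero_mul]
    rfl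

end

end TG


end

section

/-!
# Module AL: assembly
-/

open MeasureTheory Metric Set TrI MvPolynomial
open scoped InnerProductSpace ContDiff

namespace TG

noncomputable section

theorem al_main (hAL2 : StmtAL2) : StmtAL := by
  classical
  intro d V E _ _ _ _ _ _ L hd hL e0 he0
  set bE := stdOrthonormalBasis ℝ E with hbE
  set bV := stdOrthonormalBasis ℝ V with hbV
  set c0 : Fin (Module.finrank ℝ E) → ℝ := fun k => ⟪bE k, e0⟫_ℝ with hc0
  set A : Fin d → Matrix (Fin (Module.finrank ℝ E)) (Fin (Module.finrank ℝ V)) ℝ :=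
    fun i => Matrix.of fun k j => ⟪bE k, L (rk1 (EuclideanSpace.single i (1 : ℝ)) (bV j))⟫_ℝ with hA
  have hAm : ∀ i, (A i).map (fun r : ℝ => (r : ℂ)) = nsA L i := by
    intro i
    ext k j
    simp [hA, nsA, hbE, hbV]
  have hinj : ∀ x : Fin d → ℂ, x ≠ 0 → ∀ v : Fin (Module.finrank ℝ V) → ℂ,
      Matrix.mulVec (∑ i, x i • (A i).map (fun r : ℝ => (r : ℂ))) v = 0 → v = 0 := by
    intro x hx v hv
    simp_rw [hAm] at hv
    exact nsA_inj L hL x hx v hv
  have hc0ne : (fun k => ((c0 k : ℝ) : ℂ)) ≠ 0 := by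
    intro h
    apply he0
    rw [← bE.sum_repr' e0]
    refine Finset.sum_eq_zero fun k _ => ?_
    have h1 : ((c0 k : ℝ) : ℂ) = 0 := congrFun h k
    have h2 : c0 k = 0 := by exact_mod_cast h1
    rw [show ⟪bE k, e0⟫_ℝ = 0 from h2, zero_smul]
  set 𝓛 : Set (Submodule ℂ (Fin d → ℂ)) := {l | ∃ (x : Fin d → ℂ)
    (v : Fin (Module.finrank ℝ V) → ℂ), x ≠ 0 ∧
      Matrix.mulVec (∑ i, x i • (A i).map (fun r : ℝ => (r : ℂ))) v = (fun k => ((c0 k : ℝ) : ℂ)) ∧
      l = Submodule.span ℂ {x}} with h𝓛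
  have hfin : 𝓛.Finite := al_lines (fun i => (A i).map (fun r : ℝ => (r : ℂ))) hinj _ hc0ne
  obtain ⟨r, q, ν, S, hq, hν1, hν2, hS, hvan⟩ := al_choice 𝓛 hfin (by
    rintro l ⟨x, v, hx, _, rfl⟩
    exact ⟨x, hx, rfl⟩)
  set P : MvPolynomial (Fin d) ℝ := (∏ i, sNu (ν i)) * ∏ k, sQ (S k) with hP
  have hPh : P.IsHomogeneous (2 * r + 2 * q) := by
    refine IsHomogeneous.mul ?_ ?_
    · have := IsHomogeneous.prod Finset.univ (fun i => sNu (ν i)) (fun _ => 2)
        (fun i _ => sNu_hom (ν i))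
      simpa [mul_comm] using this
    · have := IsHomogeneous.prod Finset.univ (fun k => sQ (S k)) (fun _ => 2)
        (fun k _ => sQ_hom (S k))
      simpa [mul_comm] using this
  obtain ⟨M, hM, Y, hYh, hY1, hY2⟩ := al_real A hinj c0 P (2 * r + 2 * q) hPh (by omega)
    (fun x v hx hv => hvan _ ⟨x, v, hx, hv, rfl⟩ x (Submodule.mem_span_singleton_self x))
  obtain ⟨TY, hT1, hT2⟩ := hAL2 d V E L e0 r q M ((2 * r + 2 * q) * M) ν S Y hYh
    (fun j => hY1 j) hY2
  exact ⟨r, q, M, (2 * r + 2 * q) * M, ν, S, TY, hq, hM, hν1, hν2, hS, hT1, hT2⟩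

theorem stmtAL : StmtAL := al_main stmtAL2

end

end TG


end

section

/-!
# Trace inequality, general operators: MODULE PE, the perpendicular part (4.5)
-/

open MeasureTheory Metric Set TrI
open scoped InnerProductSpace ContDiff

namespace TG

namespace PE

noncomputable section

variable {d : ℕ}

/-- the properties of the kernel used here -/
structure KP (b : Sp d → ℝ) : Prop where
  cont : Continuous b
  nonneg : ∀ y, 0 ≤ b y
  neg : ∀ y, b (-y) = b y
  supp : ∀ y, 1 / 2 ≤ ‖y‖ → b y = 0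
  int : ∫ y, b y = 1

lemma KP.of_base {J : ℕ} {M c : ℝ} {b : Sp d → ℝ} (h : BaseKer J M c b) : KP b where
  cont := h.smooth.continuous
  nonneg := h.nonneg
  neg := fun y => le_antisymm (h.mono _ _ (by simp)) (h.mono _ _ (by simp))
  supp := h.supp
  int := h.int

section Kern

variable {b : Sp d → ℝ} (hb : KP b)

include hb

lemma KP.zero {y : Sp d} (h : 1 ≤ ‖y‖) : b y = 0 := hb.supp y (by linarith)

lemma KP.integrable : Integrable b := by
  refine hb.cont.integrable_of_hasCompactSupport ?_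
  refine HasCompactSupport.of_support_subset_isCompact (isCompact_closedBall (0 : Sp d) 1) ?_
  intro x hx
  by_contra hx'
  apply hx
  rw [mem_closedBall, dist_zero_right] at hx'
  exact hb.zero (by linarith)

variable {F : Type*} [NormedAddCommGroup F] [NormedSpace ℝ F] {g h : Sp d → F}

lemma KP.avi (hg : LB g) (s : ℝ) (x : Sp d) :
    Integrable (fun y => b y • g (x + s • y)) :=
  (hg.comp_smul x s).integrable_smul hb.cont (R := 1) fun _ hy => hb.zero hy

lemma KP.norm_le_of_bound {g : Sp d → F} {s : ℝ} {x : Sp d} {M : ℝ}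
    (hM : ∀ z, ‖z - x‖ ≤ |s| / 2 → ‖g z‖ ≤ M) : ‖avk b s g x‖ ≤ M := by
  have hM0 : 0 ≤ M := (norm_nonneg _).trans (hM x (by
    rw [sub_self, norm_zero]
    positivity))
  have h1 : ‖avk b s g x‖ ≤ ∫ y, b y * M := by
    refine norm_integral_le_of_norm_le (hb.integrable.mul_const M) ?_
    refine Filter.Eventually.of_forall fun y => ?_
    rw [norm_smul, Real.norm_eq_abs, abs_of_nonneg (hb.nonneg y)]
    by_cases hy : 1 / 2 ≤ ‖y‖
    · rw [hb.supp y hy]; simp
    · refine mul_le_mul_of_nonneg_left (hM _ ?_) (hb.nonneg y)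
      rw [add_sub_cancel_left, norm_smul, Real.norm_eq_abs]
      push Not at hy
      nlinarith [abs_nonneg s, norm_nonneg y]
  rwa [integral_mul_const, hb.int, one_mul] at h1

lemma KP.cs (hg : HasCompactSupport g) (s : ℝ) : HasCompactSupport (avk b s g) := by
  obtain ⟨R, hR⟩ := hg.isCompact.isBounded.subset_closedBall (0 : Sp d)
  refine HasCompactSupport.of_support_subset_isCompact (isCompact_closedBall (0 : Sp d) (R + |s|)) ?_
  intro x hx
  by_contra hx'
  apply hx
  have h1 : ‖avk b s g x‖ ≤ 0 := by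
    refine hb.norm_le_of_bound fun z hz => ?_
    have : g z = 0 := by
      by_contra hz'
      have h2 : z ∈ closedBall (0 : Sp d) R := hR (subset_tsupport _ hz')
      rw [mem_closedBall, dist_zero_right] at h2 hx'
      have : ‖x‖ ≤ ‖z‖ + ‖z - x‖ := by
        have := norm_sub_le z (z - x)
        rwa [sub_sub_cancel] at this
      have := abs_nonneg s
      linarith
    simp [this]
  simpa using h1

lemma KP.avc (hg : Continuous g) (s : ℝ) : Continuous (avk b s g) := by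
  have h2 : Continuous (Function.uncurry fun (x y : Sp d) => b y • g (x + s • y)) := by
    refine Continuous.smul (hb.cont.comp continuous_snd) (hg.comp ?_)
    fun_prop
  have h3 := continuous_parametric_integral_of_continuous (μ := volume) h2
    (isCompact_closedBall (0 : Sp d) 1)
  refine h3.congr fun x => ?_
  unfold avk
  rw [setIntegral_eq_integral_of_forall_compl_eq_zero]
  intro y hy
  rw [hb.zero, zero_smul]
  simp only [mem_closedBall, dist_zero_right, not_le] at hy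
  exact hy.le

lemma KP.mono {g h : Sp d → ℝ} (hg : LB g) (hh : LB h) (hgh : ∀ z, g z ≤ h z) (s : ℝ)
    (x : Sp d) : avk b s g x ≤ avk b s h x :=
  integral_mono (hb.avi hg s x) (hb.avi hh s x)
    fun y => mul_le_mul_of_nonneg_left (hgh _) (hb.nonneg y)

lemma KP.nn {g : Sp d → ℝ} (hg : ∀ z, 0 ≤ g z) (s : ℝ) (x : Sp d) : 0 ≤ avk b s g x :=
  integral_nonneg fun y => mul_nonneg (hb.nonneg y) (hg _)

lemma KP.normle (g : Sp d → F) (s : ℝ) (x : Sp d) :
    ‖avk b s g x‖ ≤ avk b s (fun z => ‖g z‖) x := by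
  refine (norm_integral_le_integral_norm _).trans (le_of_eq ?_)
  unfold avk
  congr 1
  ext y
  rw [norm_smul, Real.norm_eq_abs, abs_of_nonneg (hb.nonneg y), smul_eq_mul]

lemma KP.sub (hg : LB g) (hh : LB h) (s : ℝ) (x : Sp d) :
    avk b s (fun z => g z - h z) x = avk b s g x - avk b s h x := by
  simp only [avk, smul_sub]
  exact integral_sub (hb.avi hg s x) (hb.avi hh s x)

lemma KP.clm {E : Type*} [NormedAddCommGroup E] [NormedSpace ℝ E] [CompleteSpace E]
    [CompleteSpace F] (hg : LB g) (T : F →L[ℝ] E) (s : ℝ) (x : Sp d) :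
    avk b s (fun z => T (g z)) x = T (avk b s g x) := by
  unfold avk
  rw [← ContinuousLinearMap.integral_comp_comm T (hb.avi hg s x)]
  simp only [map_smul]

lemma KP.inner {E : Type*} [NormedAddCommGroup E] [InnerProductSpace ℝ E] [CompleteSpace E]
    {g : Sp d → E} (hg : LB g) (e : E) (s : ℝ) (x : Sp d) :
    avk b s (fun z => ⟪g z, e⟫_ℝ) x = ⟪avk b s g x, e⟫_ℝ := by
  simp only [avk]
  rw [real_inner_comm, ← integral_inner (hb.avi hg s x) e]
  congr 1
  ext y
  rw [inner_smul_right, real_inner_comm, smul_eq_mul]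

lemma KP.shear (hg : Integrable g) (hg' : LB g) (s : ℝ) :
    Integrable (Function.uncurry fun (x y : Sp d) => b y • g (x + s • y))
      (volume.prod volume) := by
  have hm : StronglyMeasurable (Function.uncurry fun (x y : Sp d) =>
      b y • g (x + s • y)) := by
    refine StronglyMeasurable.smul (f := fun p : Sp d × Sp d => b p.2) ?_ ?_
    · exact (hb.cont.comp continuous_snd).stronglyMeasurable
    · exact hg'.meas.comp_measurable
        (show Measurable fun p : Sp d × Sp d => p.1 + s • p.2 by fun_prop)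
  rw [integrable_prod_iff' hm.aestronglyMeasurable]
  constructor
  · refine Filter.Eventually.of_forall fun y => ?_
    simp only [Function.uncurry_apply_pair]
    exact (hg.comp_add_right (s • y)).smul (b y)
  · simp only [Function.uncurry_apply_pair, norm_smul]
    have h3 : (fun y : Sp d => ∫ x, ‖b y‖ * ‖g (x + s • y)‖) =
        fun y => ‖b y‖ * ∫ x, ‖g x‖ := by
      ext y
      rw [integral_const_mul]
      congr 1
      exact integral_add_right_eq_self (μ := volume) (fun x => ‖g x‖) (s • y)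
    rw [h3]
    exact hb.integrable.norm.mul_const _

/-- averages are self adjoint -/
lemma KP.adj_inner {E : Type*} [NormedAddCommGroup E] [InnerProductSpace ℝ E] [CompleteSpace E]
    {g h : Sp d → E} (hg : LB g) (hh : LB h) (hi : HasCompactSupport h) (s : ℝ) :
    ∫ x, ⟪avk b s g x, h x⟫_ℝ = ∫ x, ⟪g x, avk b s h x⟫_ℝ := by
  obtain ⟨R, hR⟩ := hi.isCompact.isBounded.subset_closedBall (0 : Sp d)
  have hR' : ∀ z, h z ≠ 0 → ‖z‖ ≤ R := fun z hz => by
    simpa using hR (subset_tsupport _ hz)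
  obtain ⟨M, hM⟩ := hg.bd (R + |s|)
  have hhi : Integrable h := hh.integrable hi
  have hinner : Continuous (fun p : E × E => ⟪p.1, p.2⟫_ℝ) := by fun_prop
  have hbb : ∀ (z y : Sp d), ‖y‖ < 1 → ‖s • y‖ ≤ |s| := by
    intro z y hy
    rw [norm_smul, Real.norm_eq_abs]
    nlinarith [abs_nonneg s, norm_nonneg y]
  -- first product integrability
  have hI1 : Integrable (Function.uncurry fun (x y : Sp d) => b y * ⟪g (x + s • y), h x⟫_ℝ)
      (volume.prod volume) := by
    have hi0 : Integrable (fun p : Sp d × Sp d => ‖h p.1‖ * b p.2 * |M|)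
        (volume.prod volume) := (hhi.norm.mul_prod hb.integrable).mul_const _
    refine hi0.mono' ?_ ?_
    · refine StronglyMeasurable.aestronglyMeasurable ?_
      refine StronglyMeasurable.mul (f := fun p : Sp d × Sp d => b p.2) ?_ ?_
      · exact (hb.cont.comp continuous_snd).stronglyMeasurable
      · refine hinner.comp_stronglyMeasurable (StronglyMeasurable.prodMk ?_ ?_)
        · exact hg.meas.comp_measurable
            (show Measurable fun p : Sp d × Sp d => p.1 + s • p.2 by fun_prop)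
        · exact hh.meas.comp_measurable measurable_fst
    · refine Filter.Eventually.of_forall fun p => ?_
      obtain ⟨x, y⟩ := p
      simp only [Function.uncurry_apply_pair]
      rw [norm_mul, Real.norm_eq_abs, abs_of_nonneg (hb.nonneg y)]
      by_cases hy : 1 ≤ ‖y‖
      · simp [hb.zero hy]
      by_cases hx : h x = 0
      · simp [hx]
      push Not at hy
      have h1 : ‖g (x + s • y)‖ ≤ |M| := by
        refine (hM _ ?_).trans (le_abs_self M)
        exact (norm_add_le _ _).trans (add_le_add (hR' x hx) (hbb x y hy))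
      have h2 : ‖⟪g (x + s • y), h x⟫_ℝ‖ ≤ |M| * ‖h x‖ :=
        (norm_inner_le_norm _ _).trans (mul_le_mul_of_nonneg_right h1 (norm_nonneg _))
      calc b y * ‖⟪g (x + s • y), h x⟫_ℝ‖ ≤ b y * (|M| * ‖h x‖) :=
            mul_le_mul_of_nonneg_left h2 (hb.nonneg y)
        _ = ‖h x‖ * b y * |M| := by ring
  -- second product integrability
  have hI2 : Integrable (Function.uncurry fun (x y : Sp d) => b y * ⟪g x, h (x + s • y)⟫_ℝ)
      (volume.prod volume) := by
    have hi0 : Integrable (fun p : Sp d × Sp d => (b p.2 • ‖h (p.1 + s • p.2)‖) * |M|)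
        (volume.prod volume) := (hb.shear hhi.norm hh.norm s).mul_const _
    refine hi0.mono' ?_ ?_
    · refine StronglyMeasurable.aestronglyMeasurable ?_
      refine StronglyMeasurable.mul (f := fun p : Sp d × Sp d => b p.2) ?_ ?_
      · exact (hb.cont.comp continuous_snd).stronglyMeasurable
      · refine hinner.comp_stronglyMeasurable (StronglyMeasurable.prodMk ?_ ?_)
        · exact hg.meas.comp_measurable measurable_fst
        · exact hh.meas.comp_measurable
            (show Measurable fun p : Sp d × Sp d => p.1 + s • p.2 by fun_prop)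
    · refine Filter.Eventually.of_forall fun p => ?_
      obtain ⟨x, y⟩ := p
      simp only [Function.uncurry_apply_pair]
      rw [norm_mul, Real.norm_eq_abs, abs_of_nonneg (hb.nonneg y)]
      by_cases hy : 1 ≤ ‖y‖
      · simp [hb.zero hy]
      by_cases hx : h (x + s • y) = 0
      · simp [hx]
      push Not at hy
      have h1 : ‖g x‖ ≤ |M| := by
        refine (hM _ ?_).trans (le_abs_self M)
        have h3 : ‖x‖ ≤ ‖x + s • y‖ + ‖s • y‖ := by
          have := norm_sub_le (x + s • y) (s • y)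
          rwa [add_sub_cancel_right] at this
        exact h3.trans (add_le_add (hR' _ hx) (hbb x y hy))
      have h2 : ‖⟪g x, h (x + s • y)⟫_ℝ‖ ≤ |M| * ‖h (x + s • y)‖ :=
        (norm_inner_le_norm _ _).trans (mul_le_mul_of_nonneg_right h1 (norm_nonneg _))
      calc b y * ‖⟪g x, h (x + s • y)⟫_ℝ‖ ≤ b y * (|M| * ‖h (x + s • y)‖) :=
            mul_le_mul_of_nonneg_left h2 (hb.nonneg y)
        _ = b y • ‖h (x + s • y)‖ * |M| := by rw [smul_eq_mul]; ring
  have e1 : ∀ x, ⟪avk b s g x, h x⟫_ℝ = ∫ y, b y * ⟪g (x + s • y), h x⟫_ℝ := by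
    intro x
    rw [← hb.inner hg (h x) s x, avk]
    simp only [smul_eq_mul]
  have e2 : ∀ x, ⟪g x, avk b s h x⟫_ℝ = ∫ y, b y * ⟪g x, h (x + s • y)⟫_ℝ := by
    intro x
    rw [real_inner_comm, ← hb.inner hh (g x) s x, avk]
    simp only [smul_eq_mul]
    congr 1
    ext y
    rw [real_inner_comm]
  simp only [e1, e2]
  rw [integral_integral_swap hI1, integral_integral_swap hI2]
  have e3 : ∀ y : Sp d, ∫ x, b y * ⟪g (x + s • y), h x⟫_ℝ =
      ∫ x, b (-y) * ⟪g x, h (x + s • (-y))⟫_ℝ := by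
    intro y
    rw [integral_const_mul, integral_const_mul, hb.neg]
    congr 1
    rw [← integral_add_right_eq_self (μ := volume) (fun x => ⟪g (x + s • y), h x⟫_ℝ) (-(s • y))]
    congr 1
    ext x
    rw [smul_neg, neg_add_cancel_right]
  simp only [e3]
  exact integral_neg_eq_self (fun y : Sp d => ∫ x, b y * ⟪g x, h (x + s • y)⟫_ℝ) volume

lemma KP.adj {g h : Sp d → ℝ} (hg : LB g) (hh : LB h) (hi : HasCompactSupport h) (s : ℝ) :
    ∫ x, avk b s g x * h x = ∫ x, g x * avk b s h x := by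
  have := hb.adj_inner hg hh hi s
  simp only [RCLike.inner_apply, conj_trivial] at this
  simpa only [mul_comm] using this

/-- average of an indicator function is at most one -/
lemma KP.ind_le {A : Set (Sp d)} (s : ℝ) (z : Sp d) :
    avk b s (A.indicator fun _ => (1 : ℝ)) z ≤ 1 := by
  have h1 : ‖avk b s (A.indicator fun _ => (1 : ℝ)) z‖ ≤ 1 := by
    refine hb.norm_le_of_bound fun w _ => ?_
    rw [Set.indicator]
    split_ifs <;> simp
  exact (le_abs_self _).trans h1

lemma KP.ind_zero {A : Set (Sp d)} (s : ℝ) (z : Sp d)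
    (h : ∀ w, ‖w - z‖ ≤ |s| / 2 → w ∉ A) :
    avk b s (A.indicator fun _ => (1 : ℝ)) z = 0 := by
  have h1 : ‖avk b s (A.indicator fun _ => (1 : ℝ)) z‖ ≤ 0 := by
    refine hb.norm_le_of_bound fun w hw => ?_
    rw [Set.indicator_of_notMem (h w hw)]
    simp
  simpa using h1

lemma KP.ind_one {A : Set (Sp d)} (s : ℝ) (z : Sp d)
    (h : ∀ w, ‖w - z‖ ≤ |s| / 2 → w ∈ A) :
    avk b s (A.indicator fun _ => (1 : ℝ)) z = 1 := by
  unfold avk
  refine Eq.trans ?_ hb.int
  congr 1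
  ext y
  by_cases hy : 1 / 2 ≤ ‖y‖
  · rw [hb.supp y hy, zero_smul]
  · rw [Set.indicator_of_mem, smul_eq_mul, mul_one]
    refine h _ ?_
    rw [add_sub_cancel_left, norm_smul, Real.norm_eq_abs]
    push Not at hy
    nlinarith [abs_nonneg s, norm_nonneg y]

omit hb in
lemma LBind {A : Set (Sp d)} (hA : MeasurableSet A) : LB (A.indicator fun _ => (1 : ℝ)) :=
  (LB.of_cont continuous_const).indicator hA

lemma KP.avLB (hg : LB g) (s : ℝ) : LB (avk b s g) where
  meas := by
    have h2 : StronglyMeasurable (Function.uncurry fun (x y : Sp d) => b y • g (x + s • y)) := by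
      refine StronglyMeasurable.smul (f := fun p : Sp d × Sp d => b p.2) ?_ ?_
      · exact (hb.cont.comp continuous_snd).stronglyMeasurable
      · exact hg.meas.comp_measurable
          (show Measurable fun p : Sp d × Sp d => p.1 + s • p.2 by fun_prop)
    exact h2.integral_prod_right
  bd := by
    intro R
    obtain ⟨M, hM⟩ := hg.bd (R + |s|)
    refine ⟨M, fun x hx => hb.norm_le_of_bound fun z hz => hM z ?_⟩
    have : ‖z‖ ≤ ‖x‖ + ‖z - x‖ := by
      have := norm_add_le x (z - x)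
      rwa [add_sub_cancel] at this
    have := abs_nonneg s
    linarith

/-- transfer, lower bound -/
lemma KP.set_ge {g : Sp d → ℝ} (hg : Continuous g) (hc : HasCompactSupport g)
    (h0 : ∀ z, 0 ≤ g z) (s : ℝ) {A A' : Set (Sp d)} (hA : MeasurableSet A)
    (hA' : MeasurableSet A') (h : ∀ z ∈ A, ∀ w, ‖w - z‖ ≤ |s| / 2 → w ∈ A') :
    ∫ z in A, g z ≤ ∫ z in A', avk b s g z := by
  have hgL := LB.of_cont hg
  have hgi : Integrable g := hgL.integrable hc
  have e1 : ∫ z in A, g z = ∫ z, (A.indicator (fun _ => (1 : ℝ)) z) * g z := by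
    rw [← integral_indicator hA]
    congr 1
    ext z
    by_cases hz : z ∈ A <;> simp [hz]
  have e2 : ∫ z in A', avk b s g z = ∫ z, (A'.indicator (fun _ => (1 : ℝ)) z) * avk b s g z := by
    rw [← integral_indicator hA']
    congr 1
    ext z
    by_cases hz : z ∈ A' <;> simp [hz]
  rw [e1, e2, ← hb.adj (LBind hA') hgL hc s]
  refine integral_mono ?_ ?_ fun z => ?_
  · refine hgi.bdd_mul (c := 1) (LBind hA).meas.aestronglyMeasurable ?_
    refine Filter.Eventually.of_forall fun z => ?_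
    rw [Set.indicator]
    split_ifs <;> simp
  · refine hgi.bdd_mul (c := 1) (hb.avLB (LBind hA') s).meas.aestronglyMeasurable ?_
    refine Filter.Eventually.of_forall fun z => ?_
    refine hb.norm_le_of_bound fun w _ => ?_
    rw [Set.indicator]
    split_ifs <;> simp
  · refine mul_le_mul_of_nonneg_right ?_ (h0 z)
    by_cases hz : z ∈ A
    · rw [Set.indicator_of_mem hz, hb.ind_one s z (h z hz)]
    · rw [Set.indicator_of_notMem hz]
      refine hb.nn (fun w => ?_) s z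
      rw [Set.indicator]
      split_ifs <;> simp

/-- transfer, upper bound -/
lemma KP.set_le {g : Sp d → ℝ} (hg : Continuous g) (hc : HasCompactSupport g)
    (h0 : ∀ z, 0 ≤ g z) (s : ℝ) {A A' : Set (Sp d)} (hA : MeasurableSet A)
    (hA' : MeasurableSet A') (h : ∀ z ∈ A, ∀ w, ‖w - z‖ ≤ |s| / 2 → w ∈ A') :
    ∫ z in A, avk b s g z ≤ ∫ z in A', g z := by
  have hgL := LB.of_cont hg
  have hgi : Integrable g := hgL.integrable hc
  have e1 : ∫ z in A', g z = ∫ z, (A'.indicator (fun _ => (1 : ℝ)) z) * g z := by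
    rw [← integral_indicator hA']
    congr 1
    ext z
    by_cases hz : z ∈ A' <;> simp [hz]
  have e2 : ∫ z in A, avk b s g z = ∫ z, (A.indicator (fun _ => (1 : ℝ)) z) * avk b s g z := by
    rw [← integral_indicator hA]
    congr 1
    ext z
    by_cases hz : z ∈ A <;> simp [hz]
  rw [e1, e2, ← hb.adj (LBind hA) hgL hc s]
  refine integral_mono ?_ ?_ fun z => ?_
  · refine hgi.bdd_mul (c := 1) (hb.avLB (LBind hA) s).meas.aestronglyMeasurable ?_
    refine Filter.Eventually.of_forall fun z => ?_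
    refine hb.norm_le_of_bound fun w _ => ?_
    rw [Set.indicator]
    split_ifs <;> simp
  · refine hgi.bdd_mul (c := 1) (LBind hA').meas.aestronglyMeasurable ?_
    refine Filter.Eventually.of_forall fun z => ?_
    rw [Set.indicator]
    split_ifs <;> simp
  · refine mul_le_mul_of_nonneg_right ?_ (h0 z)
    by_cases hz : z ∈ A'
    · rw [Set.indicator_of_mem hz]
      exact hb.ind_le s z
    · rw [Set.indicator_of_notMem hz, hb.ind_zero s z]
      intro w hw hwA
      exact hz (h w hwA z (by rwa [norm_sub_rev]))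

/-! ## second order bound -/

omit hb in
lemma second_diff {E : Type*} [NormedAddCommGroup E] [NormedSpace ℝ E] {Y : Sp d → E}
    (hY : ContDiff ℝ 2 Y) (h2 : ∀ y, ‖iteratedFDeriv ℝ 2 Y y‖ ≤ 1) (x h : Sp d) :
    ‖Y (x + h) + Y (x - h) - (2 : ℝ) • Y x‖ ≤ 2 * ‖h‖ ^ 2 := by
  have hd1 : ContDiff ℝ 1 (fderiv ℝ Y) := hY.fderiv_right (m := 1) (by norm_num)
  have hdd : Differentiable ℝ (fderiv ℝ Y) := hd1.differentiable (by norm_num)
  have hYd : Differentiable ℝ Y := hY.differentiable (by norm_num)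
  have hb2 : ∀ y, ‖fderiv ℝ (fderiv ℝ Y) y‖ ≤ 1 := by
    intro y
    rw [← norm_iteratedFDeriv_one, norm_iteratedFDeriv_fderiv]
    exact h2 y
  have hlip : ∀ y z, ‖fderiv ℝ Y z - fderiv ℝ Y y‖ ≤ 1 * ‖z - y‖ := by
    intro y z
    exact (convex_univ).norm_image_sub_le_of_norm_fderiv_le (𝕜 := ℝ)
      (fun w _ => hdd w) (fun w _ => hb2 w) (mem_univ y) (mem_univ z)
  -- one variable function
  have hline : ∀ (σ : ℝ) (t : ℝ), HasDerivAt (fun t : ℝ => x + (σ * t) • h) (σ • h) t := by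
    intro σ t
    have h1 : HasDerivAt (fun t : ℝ => σ * t) σ t := by
      simpa using (hasDerivAt_id t).const_mul σ
    exact (h1.smul_const h).const_add x
  have hder : ∀ t : ℝ, HasDerivAt (fun t : ℝ => Y (x + (1 * t) • h) + Y (x + (-1 * t) • h))
      (fderiv ℝ Y (x + (1 * t) • h) ((1 : ℝ) • h) +
        fderiv ℝ Y (x + (-1 * t) • h) ((-1 : ℝ) • h)) t := by
    intro t
    exact ((hYd _).hasFDerivAt.comp_hasDerivAt t (hline 1 t)).add
      ((hYd _).hasFDerivAt.comp_hasDerivAt t (hline (-1) t))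
  have hbd : ∀ t ∈ Icc (0 : ℝ) 1, ‖fderiv ℝ Y (x + (1 * t) • h) ((1 : ℝ) • h) +
        fderiv ℝ Y (x + (-1 * t) • h) ((-1 : ℝ) • h)‖ ≤ 2 * ‖h‖ ^ 2 := by
    intro t ht
    have e1 : fderiv ℝ Y (x + (1 * t) • h) ((1 : ℝ) • h) +
        fderiv ℝ Y (x + (-1 * t) • h) ((-1 : ℝ) • h) =
        (fderiv ℝ Y (x + (1 * t) • h) - fderiv ℝ Y (x + (-1 * t) • h)) h := by
      simp [sub_eq_add_neg]
    rw [e1]
    have e2 : x + (1 * t) • h - (x + (-1 * t) • h) = (2 * t) • h := by
      module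
    have e3 := hlip (x + (-1 * t) • h) (x + (1 * t) • h)
    rw [e2, norm_smul, Real.norm_eq_abs, abs_of_nonneg (by linarith [ht.1] : (0 : ℝ) ≤ 2 * t)]
      at e3
    refine (ContinuousLinearMap.le_opNorm _ _).trans ?_
    have h0 := norm_nonneg h
    have : 2 * t * ‖h‖ ≤ 2 * ‖h‖ := by nlinarith [ht.2]
    calc _ ≤ (2 * ‖h‖) * ‖h‖ := mul_le_mul_of_nonneg_right (by linarith) h0
      _ = 2 * ‖h‖ ^ 2 := by ring
  have key := (convex_Icc (0 : ℝ) 1).norm_image_sub_le_of_norm_hasDerivWithin_le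
    (fun t _ => (hder t).hasDerivWithinAt) hbd (left_mem_Icc.2 zero_le_one)
    (right_mem_Icc.2 zero_le_one)
  simp only [mul_zero, zero_smul, add_zero, mul_one, one_smul, neg_smul, sub_zero, norm_one]
    at key
  rw [two_smul, sub_eq_add_neg x h]
  exact key

lemma KP.taylor {E : Type*} [NormedAddCommGroup E] [NormedSpace ℝ E] [CompleteSpace E]
    {Y : Sp d → E}
    (hY : ContDiff ℝ 2 Y) (h2 : ∀ y, ‖iteratedFDeriv ℝ 2 Y y‖ ≤ 1) (s : ℝ) (x : Sp d) :
    ‖Y x - avk b s Y x‖ ≤ s ^ 2 := by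
  have hL : LB Y := LB.of_cont hY.continuous
  have i1 := hb.avi hL s x
  have i2 := hb.avi hL (-s) x
  have e1 : avk b (-s) Y x = avk b s Y x := by
    unfold avk
    rw [← integral_neg_eq_self]
    congr 1
    ext y
    rw [hb.neg, neg_smul, smul_neg, neg_neg]
  have e2 : avk b s Y x + avk b (-s) Y x - (2 : ℝ) • Y x =
      ∫ y, b y • (Y (x + s • y) + Y (x - s • y) - (2 : ℝ) • Y x) := by
    have e3 : ∫ y, b y • ((2 : ℝ) • Y x) = (2 : ℝ) • Y x := by
      rw [integral_smul_const, hb.int, one_smul]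
    have e6 : ∫ y, b y • (Y (x + s • y) + Y (x - s • y) - (2 : ℝ) • Y x) =
        ∫ y, (b y • Y (x + s • y) + b y • Y (x + -s • y) - b y • ((2 : ℝ) • Y x)) := by
      congr 1
      ext y
      rw [smul_sub, smul_add, sub_eq_add_neg x, neg_smul]
    have e7 := integral_sub (i1.add i2) (hb.integrable.smul_const ((2 : ℝ) • Y x))
    have e8 := integral_add i1 i2
    simp only [Pi.add_apply] at e7
    rw [e6, e7, e8, e3]
    rfl
  have e4 : ‖avk b s Y x + avk b (-s) Y x - (2 : ℝ) • Y x‖ ≤ ∫ y, b y * (2 * s ^ 2) := by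
    rw [e2]
    refine norm_integral_le_of_norm_le (hb.integrable.mul_const _) ?_
    refine Filter.Eventually.of_forall fun y => ?_
    rw [norm_smul, Real.norm_eq_abs, abs_of_nonneg (hb.nonneg y)]
    by_cases hy : 1 ≤ ‖y‖
    · rw [hb.zero hy]; simp
    · push Not at hy
      refine mul_le_mul_of_nonneg_left ?_ (hb.nonneg y)
      refine (second_diff hY h2 x (s • y)).trans ?_
      rw [norm_smul, Real.norm_eq_abs, mul_pow, sq_abs]
      have : ‖y‖ ^ 2 ≤ 1 := by nlinarith [norm_nonneg y]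
      nlinarith [sq_nonneg s]
  rw [integral_mul_const, hb.int, one_mul, e1] at e4
  have e5 : avk b s Y x + avk b s Y x - (2 : ℝ) • Y x = (-2 : ℝ) • (Y x - avk b s Y x) := by
    module
  rw [e5, norm_smul] at e4
  norm_num at e4
  linarith

end Kern

/-! ## scalar lemmas -/

lemma opt {X P Q : ℝ} (hP : 0 ≤ P) (hQ : 0 ≤ Q) (h : ∀ t : ℝ, 0 < t → X ≤ t * P + Q / t) :
    X ≤ 2 * Real.sqrt (P * Q) := by
  by_contra hX
  push Not at hX
  have hX0 : 0 < X := lt_of_le_of_lt (by positivity) hX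
  rcases hP.eq_or_lt with hP0 | hP0
  · have h1 := h ((2 * Q + 1) / X) (by positivity)
    rw [← hP0, mul_zero, zero_add, div_div_eq_mul_div, le_div_iff₀ (by positivity)] at h1
    nlinarith
  rcases hQ.eq_or_lt with hQ0 | hQ0
  · have h1 := h (X / (2 * P + 1)) (by positivity)
    rw [← hQ0, zero_div, add_zero, div_mul_eq_mul_div, le_div_iff₀ (by positivity)] at h1
    nlinarith
  have hs : 0 < Real.sqrt (P * Q) := Real.sqrt_pos.2 (by positivity)
  have hs2 : Real.sqrt (P * Q) ^ 2 = P * Q := Real.sq_sqrt (by positivity)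
  have h1 := h (Real.sqrt (P * Q) / P) (by positivity)
  have e1 : Real.sqrt (P * Q) / P * P = Real.sqrt (P * Q) := by field_simp
  have e2 : Q / (Real.sqrt (P * Q) / P) = Real.sqrt (P * Q) := by
    rw [div_div_eq_mul_div, div_eq_iff hs.ne', ← sq, hs2]
    ring
  rw [e1, e2] at h1
  linarith

lemma seq_sum (n : ℕ) (m D : ℕ → ℝ) (h0 : 0 ≤ m 0)
    (h1 : ∀ l, l < n → m l ≤ m (l + 1) + D l) :
    ∑ l ∈ Finset.range n, (1 / 4 : ℝ) ^ (n - l) * m l ≤
      1 / 3 * m n + 4 / 3 * ∑ l ∈ Finset.range n, (1 / 4 : ℝ) ^ (n - l) * D l := by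
  have e1 : ∑ l ∈ Finset.range n, (1 / 4 : ℝ) ^ (n - l) * m l ≤
      ∑ l ∈ Finset.range n, (1 / 4 * ((1 / 4 : ℝ) ^ (n - (l + 1)) * m (l + 1)) +
        (1 / 4 : ℝ) ^ (n - l) * D l) := by
    refine Finset.sum_le_sum fun l hl => ?_
    have hl' := Finset.mem_range.1 hl
    have e2 : (1 / 4 : ℝ) ^ (n - l) = 1 / 4 * (1 / 4 : ℝ) ^ (n - (l + 1)) := by
      rw [← pow_succ']
      congr 1
      omega
    have e3 := mul_le_mul_of_nonneg_left (h1 l hl')
      (by positivity : (0 : ℝ) ≤ (1 / 4 : ℝ) ^ (n - l))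
    calc _ ≤ (1 / 4 : ℝ) ^ (n - l) * (m (l + 1) + D l) := e3
      _ = (1 / 4 : ℝ) ^ (n - l) * m (l + 1) + (1 / 4 : ℝ) ^ (n - l) * D l := by ring
      _ = _ := by
        congr 1
        rw [e2]
        ring
  rw [Finset.sum_add_distrib, ← Finset.mul_sum] at e1
  have e4 := Finset.sum_range_succ (fun l => (1 / 4 : ℝ) ^ (n - l) * m l) n
  have e5 := Finset.sum_range_succ' (fun l => (1 / 4 : ℝ) ^ (n - l) * m l) n
  rw [e4] at e5
  have e6 : 0 ≤ (1 / 4 : ℝ) ^ (n - 0) * m 0 := by positivity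
  simp only [Nat.sub_self, pow_zero, one_mul] at e5
  linarith

/-! ## projection -/

section Main

variable {E : Type} [NormedAddCommGroup E] [InnerProductSpace ℝ E]

/-- the projection orthogonal to e -/
def prp (e : E) : E →L[ℝ] E := ContinuousLinearMap.id ℝ E - (innerSL ℝ e).smulRight e

lemma prp_apply (e v : E) : prp e v = v - ⟪v, e⟫_ℝ • e := by
  simp [prp, real_inner_comm]

lemma inner_le_norm_unit {e : E} (he : ‖e‖ = 1) (v : E) : |⟪v, e⟫_ℝ| ≤ ‖v‖ := by
  have := abs_real_inner_le_norm v e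
  rwa [he, mul_one] at this

lemma prp_sq {e : E} (he : ‖e‖ = 1) (v : E) :
    ‖prp e v‖ ^ 2 ≤ 2 * ‖v‖ * (‖v‖ - ⟪v, e⟫_ℝ) := by
  have h1 : ‖prp e v‖ ^ 2 = ‖v‖ ^ 2 - ⟪v, e⟫_ℝ ^ 2 := by
    rw [prp_apply, norm_sub_sq_real, inner_smul_right, norm_smul, he, mul_one,
      Real.norm_eq_abs, sq_abs]
    ring
  have h2 := inner_le_norm_unit he v
  have h3 := (abs_le.1 h2)
  rw [h1]
  nlinarith [norm_nonneg v]

lemma prp_le {e : E} (he : ‖e‖ = 1) (v : E) {t : ℝ} (ht : 0 < t) :
    ‖prp e v‖ ≤ t * ‖v‖ + 1 / (2 * t) * (‖v‖ - ⟪v, e⟫_ℝ) := by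
  have h1 := prp_sq he v
  have h2 := (abs_le.1 (inner_le_norm_unit he v)).2
  have h3 : 0 ≤ ‖v‖ - ⟪v, e⟫_ℝ := by linarith
  have h4 : 0 ≤ t * ‖v‖ + 1 / (2 * t) * (‖v‖ - ⟪v, e⟫_ℝ) := by positivity
  refine abs_le_of_sq_le_sq' ?_ h4 |>.2
  refine h1.trans ?_
  have h5 : 2 * ‖v‖ * (‖v‖ - ⟪v, e⟫_ℝ) =
      4 * (t * ‖v‖) * (1 / (2 * t) * (‖v‖ - ⟪v, e⟫_ℝ)) := by
    field_simp
    ring
  rw [h5]
  nlinarith [sq_nonneg (t * ‖v‖ - 1 / (2 * t) * (‖v‖ - ⟪v, e⟫_ℝ))]

/-- one term of the telescoping sum -/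
lemma pair_le {g Z : Sp d → E} (hg : Continuous g) (hc : HasCompactSupport g) {e : E}
    (he : ‖e‖ = 1) {A : Set (Sp d)} (hA : MeasurableSet A) {w t : ℝ} (ht : 0 < t)
    (hZ : ∀ y, ‖Z y‖ ≤ w) (hZA : ∀ y, y ∉ A → Z y = 0) :
    |∫ y, ⟪prp e (g y), Z y⟫_ℝ| ≤
      w * (t * (∫ y in A, ‖g y‖) + 1 / (2 * t) * ∫ y in A, (‖g y‖ - ⟪g y, e⟫_ℝ)) := by
  have i1 : Integrable (fun y => ‖g y‖) := (hg.integrable_of_hasCompactSupport hc).norm
  have i2 : Integrable (fun y => ‖g y‖ - ⟪g y, e⟫_ℝ) := by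
    refine i1.sub ?_
    refine (hg.inner continuous_const).integrable_of_hasCompactSupport ?_
    exact hc.comp_left (g := fun v : E => ⟪v, e⟫_ℝ) (by simp)
  have i3 : Integrable (fun y => w * (t * ‖g y‖ + 1 / (2 * t) * (‖g y‖ - ⟪g y, e⟫_ℝ))) :=
    ((i1.const_mul t).add (i2.const_mul (1 / (2 * t)))).const_mul w
  have h1 : ‖∫ y, ⟪prp e (g y), Z y⟫_ℝ‖ ≤
      ∫ y, A.indicator (fun y => w * (t * ‖g y‖ + 1 / (2 * t) * (‖g y‖ - ⟪g y, e⟫_ℝ))) y := by
    refine norm_integral_le_of_norm_le (i3.indicator hA) ?_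
    refine Filter.Eventually.of_forall fun y => ?_
    by_cases hy : y ∈ A
    · rw [Set.indicator_of_mem hy]
      refine (norm_inner_le_norm _ _).trans ?_
      have h2 := prp_le he (g y) ht
      calc ‖prp e (g y)‖ * ‖Z y‖ ≤
          (t * ‖g y‖ + 1 / (2 * t) * (‖g y‖ - ⟪g y, e⟫_ℝ)) * w :=
            mul_le_mul h2 (hZ y) (norm_nonneg _) ((norm_nonneg _).trans h2)
        _ = _ := by ring
    · rw [Set.indicator_of_notMem hy, hZA y hy]
      simp
  rw [integral_indicator hA, integral_const_mul] at h1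
  have h2 := integral_add (μ := volume.restrict A) ((i1.const_mul t).restrict)
    ((i2.const_mul (1 / (2 * t))).restrict)
  rw [integral_const_mul, integral_const_mul] at h2
  rw [h2] at h1
  exact h1

variable {b : Sp d → ℝ}

lemma fl_cont (hb : KP b) {f : Sp d → E} (hf : Continuous f) (ε s0 : ℝ) :
    ∀ l, Continuous (fl b ε s0 f l)
  | 0 => hf
  | l + 1 => hb.avc (fl_cont hb hf ε s0 l) _

lemma fl_cs (hb : KP b) {f : Sp d → E} (hf : HasCompactSupport f) (ε s0 : ℝ) :
    ∀ l, HasCompactSupport (fl b ε s0 f l)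
  | 0 => hf
  | l + 1 => hb.cs (fl_cs hb hf ε s0 l) _

lemma fl_succ (f : Sp d → E) (ε s0 : ℝ) (l : ℕ) :
    fl b ε s0 f (l + 1) = avk b (ε * lev s0 (l + 1)) (fl b ε s0 f l) := rfl

/-- one telescoping step -/
lemma step [CompleteSpace E] (hb : KP b) {g Y : Sp d → E} (hg : Continuous g)
    (hY : Continuous Y) (hYc : HasCompactSupport Y) (e : E) (s : ℝ) :
    ∫ y, ⟪prp e (g y), Y y⟫_ℝ = (∫ y, ⟪prp e (g y), Y y - avk b s Y y⟫_ℝ) +
      ∫ y, ⟪prp e (avk b s g y), Y y⟫_ℝ := by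
  have hpg : Continuous (fun y => prp e (g y)) := (prp e).continuous.comp hg
  have e1 : ∫ y, ⟪prp e (avk b s g y), Y y⟫_ℝ = ∫ y, ⟪prp e (g y), avk b s Y y⟫_ℝ := by
    have h1 : ∀ y, prp e (avk b s g y) = avk b s (fun z => prp e (g z)) y := fun y =>
      (hb.clm (LB.of_cont hg) (prp e) s y).symm
    simp only [h1]
    exact hb.adj_inner (LB.of_cont hpg) (LB.of_cont hY) hYc s
  have i1 : Integrable (fun y => ⟪prp e (g y), Y y⟫_ℝ) := by
    refine (hpg.inner hY).integrable_of_hasCompactSupport ?_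
    exact hYc.mono fun y hy hy' => hy (by simp [hy'])
  have i2 : Integrable (fun y => ⟪prp e (g y), avk b s Y y⟫_ℝ) := by
    refine (hpg.inner (hb.avc hY s)).integrable_of_hasCompactSupport ?_
    exact (hb.cs hYc s).mono fun y hy hy' => hy (by simp [hy'])
  rw [e1]
  simp only [inner_sub_right]
  rw [integral_sub i1 i2]
  ring

end Main

end

end PE

open _root_.TG.PE in
theorem stmtPE : StmtPE := by
  intro d hd M c ε hε hε1 b hb0
  have hb := KP.of_base hb0
  refine ⟨8, by norm_num, ?_⟩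
  intro E _ _ _ f hf hfc R hR n e he x Y S hS hY hY1 hY2 hYs hYS
  set s0 : ℝ := (1 / 2) ^ n with hs0
  set g : ℕ → Sp d → E := fl b ε s0 f with hg
  have hgc : ∀ l, Continuous (g l) := fl_cont hb hf ε s0
  have hgs : ∀ l, HasCompactSupport (g l) := fl_cs hb hfc ε s0
  -- the scales
  set ρ : ℕ → ℝ := fun l => lev s0 l with hρ
  have hρ0 : ∀ l, 0 < ρ l := fun l => by
    simp only [hρ, lev, hs0]
    positivity
  have hρs : ∀ l, ρ (l + 1) = 2 * ρ l := fun l => by
    simp only [hρ, lev]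
    ring
  have hρn : ρ n = 1 := by
    simp only [hρ, lev, hs0]
    rw [← mul_pow]
    norm_num
  have hρl : ∀ l, l ≤ n → ρ l = (1 / 2) ^ (n - l) := by
    intro l hl
    simp only [hρ, lev, hs0]
    obtain ⟨k, rfl⟩ := Nat.exists_eq_add_of_le hl
    rw [Nat.add_sub_cancel_left, pow_add, mul_right_comm, ← mul_pow]
    norm_num
  have hρ2 : ∀ l, l < n → 2 * ρ l ≤ 1 := by
    intro l hl
    rw [hρl l hl.le]
    obtain ⟨k, hk⟩ := Nat.exists_eq_add_of_lt hl
    have h1 : n - l = k + 1 := by omega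
    rw [h1, pow_succ]
    have : (1 / 2 : ℝ) ^ k ≤ 1 := pow_le_one₀ (by norm_num) (by norm_num)
    linarith
  -- the sets
  set U : Set (Sp d) := {y | Y y ≠ 0} with hU
  have hUo : IsOpen U := isOpen_ne_fun hY.continuous continuous_const
  set T : ℕ → Set (Sp d) := fun l => thickening (2 * ρ l) U with hT
  have hTm : ∀ l, MeasurableSet (T l) := fun l => isOpen_thickening.measurableSet
  have hUT : ∀ l, U ⊆ T l := fun l => self_subset_thickening (by have := hρ0 l; positivity) U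
  have hUx : ∀ z ∈ U, ‖z - x‖ < R - 2 := by
    intro z hz
    by_contra h
    push Not at h
    exact hz (hYs z h)
  have hTS : ∀ l, l < n → T l ⊆ S := by
    intro l hl w hw
    obtain ⟨z, hz, hwz⟩ := mem_thickening_iff.1 hw
    refine hYS z w hz ?_
    rw [dist_eq_norm] at hwz
    have := hρ2 l hl
    linarith
  have hTB : ∀ l, l < n → T l ⊆ ball x R := by
    intro l hl w hw
    obtain ⟨z, hz, hwz⟩ := mem_thickening_iff.1 hw
    have h1 := hUx z hz
    have h2 := hρ2 l hl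
    rw [mem_ball]
    have h3 := dist_triangle w z x
    rw [dist_eq_norm z x] at h3
    linarith
  -- the scale of the averages
  have hsc : ∀ l, |ε * ρ (l + 1)| / 2 ≤ ρ l := by
    intro l
    rw [hρs, abs_of_nonneg (by have := hρ0 l; positivity)]
    have := hρ0 l
    nlinarith only [hε1, this]
  -- the deficits
  set P : ℕ → Sp d → ℝ := fun l y => ‖g l y‖ - ⟪g l y, e⟫_ℝ with hP
  have hP0 : ∀ l y, 0 ≤ P l y := fun l y => by
    have := (abs_le.1 (inner_le_norm_unit he (g l y))).2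
    simp only [hP]
    linarith
  have hPc : ∀ l, Continuous (P l) := fun l => by
    have h1 := (hgc l).norm
    have h2 : Continuous fun y => ⟪g l y, e⟫_ℝ := (hgc l).inner continuous_const
    exact h1.sub h2
  have hPs : ∀ l, HasCompactSupport (P l) := fun l => by
    exact (hgs l).mono fun y hy hy' => hy (by simp [hP, hy'])
  have hPi : ∀ l, Integrable (P l) := fun l =>
    (hPc l).integrable_of_hasCompactSupport (hPs l)
  have hNi : ∀ l, Integrable (fun y => ‖g l y‖) := fun l =>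
    ((hgc l).integrable_of_hasCompactSupport (hgs l)).norm
  set D : ℕ → ℝ := fun l => ∫ y in ball x R, P l y with hD
  have hD0 : ∀ l, 0 ≤ D l := fun l => integral_nonneg fun y => hP0 l y
  have hsub : ∀ (l : ℕ) (A : Set (Sp d)), A ⊆ ball x R → ∫ y in A, P l y ≤ D l := by
    intro l A hA
    exact setIntegral_mono_set (hPi l).integrableOn
      (Filter.Eventually.of_forall fun y => hP0 l y) (Filter.Eventually.of_forall hA)
  set Mm : ℝ := ∫ y in S, ‖g (n - 1) y‖ with hMm
  have hMm0 : 0 ≤ Mm := integral_nonneg fun y => norm_nonneg _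
  set m : ℕ → ℝ := fun l => if l = n then Mm else ∫ y in T l, ‖g l y‖ with hm
  have hmn : m n = Mm := by simp [hm]
  have hml : ∀ l, l < n → m l = ∫ y in T l, ‖g l y‖ := fun l hl => by simp [hm, hl.ne]
  have hm0 : ∀ l, 0 ≤ m l := fun l => by
    simp only [hm]
    split_ifs
    · exact hMm0
    · exact integral_nonneg fun y => norm_nonneg _
  -- transfer
  have htr : ∀ l, l < n → m l ≤ m (l + 1) + D l := by
    intro l hl
    rcases Nat.lt_or_ge (l + 1) n with hl1 | hl1
    · rw [hml l hl, hml (l + 1) hl1]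
      have hA : ∀ z ∈ T l, ∀ w, ‖w - z‖ ≤ |ε * ρ (l + 1)| / 2 → w ∈ T (l + 1) := by
        intro z hz w hw
        obtain ⟨u, hu, hzu⟩ := mem_thickening_iff.1 hz
        refine mem_thickening_iff.2 ⟨u, hu, ?_⟩
        have h1 := hsc l
        have h2 := hρs l
        have h3 := hρ0 l
        have h4 := dist_triangle w z u
        rw [dist_eq_norm w z] at h4
        linarith
      have hB : ∀ z ∈ T (l + 1), ∀ w, ‖w - z‖ ≤ |ε * ρ (l + 1)| / 2 → w ∈ ball x R := by
        intro z hz w hw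
        obtain ⟨u, hu, hzu⟩ := mem_thickening_iff.1 hz
        have h1 := hsc l
        have h2 := hρ2 l hl
        have h3 := hρ2 (l + 1) hl1
        have h4 := dist_triangle w z x
        have h5 := dist_triangle z u x
        have h6 := hUx u hu
        rw [dist_eq_norm w z] at h4
        rw [dist_eq_norm u x] at h5
        rw [mem_ball]
        linarith
      have h1 := hb.set_ge (hgc l).norm (hgs l).norm (fun z => norm_nonneg _) (ε * ρ (l + 1))
        (hTm l) (hTm (l + 1)) hA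
      have h2 := hb.set_le (hPc l) (hPs l) (hP0 l) (ε * ρ (l + 1)) (hTm (l + 1))
        measurableSet_ball hB
      have h3 : ∀ z, avk b (ε * ρ (l + 1)) (fun y => ‖g l y‖) z ≤
          ‖g (l + 1) z‖ + avk b (ε * ρ (l + 1)) (P l) z := by
        intro z
        have hL1 : LB (fun y => ‖g l y‖) := LB.of_cont (hgc l).norm
        have hL2 : LB (fun y => ⟪g l y, e⟫_ℝ) := (LB.of_cont (hgc l)).inner_const e
        have h4 := hb.sub hL1 hL2 (ε * ρ (l + 1)) z
        have h5 := hb.inner (LB.of_cont (hgc l)) e (ε * ρ (l + 1)) z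
        have h6 := (abs_le.1 (inner_le_norm_unit he (g (l + 1) z))).2
        have h7 : g (l + 1) z = avk b (ε * ρ (l + 1)) (g l) z := rfl
        simp only [hP]
        rw [h4, h5, ← h7]
        linarith
      have hci : Integrable (avk b (ε * ρ (l + 1)) (P l)) :=
        (hb.avc (hPc l) _).integrable_of_hasCompactSupport (hb.cs (hPs l) _)
      have hci2 : Integrable (avk b (ε * ρ (l + 1)) (fun y => ‖g l y‖)) :=
        (hb.avc (hgc l).norm _).integrable_of_hasCompactSupport (hb.cs (hgs l).norm _)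
      have h8 : ∫ z in T (l + 1), avk b (ε * ρ (l + 1)) (fun y => ‖g l y‖) z ≤
          ∫ z in T (l + 1), (‖g (l + 1) z‖ + avk b (ε * ρ (l + 1)) (P l) z) :=
        integral_mono hci2.integrableOn ((hNi (l + 1)).add hci).integrableOn h3
      have h9 := integral_add (μ := volume.restrict (T (l + 1))) (hNi (l + 1)).integrableOn
        hci.integrableOn
      rw [h9] at h8
      simp only [hD]
      linarith
    · have hl2 : n = l + 1 := by omega
      have h1 : m (l + 1) = Mm := by rw [← hl2]; exact hmn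
      rw [hml l hl, h1, hMm]
      have h2 : n - 1 = l := by omega
      rw [h2]
      have h3 : ∫ y in T l, ‖g l y‖ ≤ ∫ y in S, ‖g l y‖ :=
        setIntegral_mono_set (hNi l).integrableOn
          (Filter.Eventually.of_forall fun y => norm_nonneg _)
          (Filter.Eventually.of_forall (hTS l hl))
      have := hD0 l
      linarith
  have htop : ∫ y in U, ‖g n y‖ ≤ Mm := by
    rcases Nat.eq_zero_or_pos n with hn | hn
    · rw [hMm, hn]
      refine setIntegral_mono_set (hNi 0).integrableOn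
          (Filter.Eventually.of_forall fun y => norm_nonneg _)
          (Filter.Eventually.of_forall ?_)
      intro y hy
      exact hYS y y hy (by simp)
    · obtain ⟨k, rfl⟩ : ∃ k, n = k + 1 := ⟨n - 1, by omega⟩
      have hA : ∀ z ∈ U, ∀ w, ‖w - z‖ ≤ |ε * ρ (k + 1)| / 2 → w ∈ S := by
        intro z hz w hw
        refine hYS z w hz ?_
        have h1 := hsc k
        have h2 := hρ2 k (by omega)
        have h3 := hρ0 k
        linarith
      have h2 := hb.set_le (hgc k).norm (hgs k).norm (fun z => norm_nonneg _)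
        (ε * ρ (k + 1)) hUo.measurableSet hS hA
      refine le_trans ?_ h2
      refine integral_mono (hNi (k + 1)).integrableOn ?_ fun z => ?_
      · exact ((hb.avc (hgc k).norm _).integrable_of_hasCompactSupport
          (hb.cs (hgs k).norm _)).integrableOn
      · exact hb.normle (g k) (ε * ρ (k + 1)) z
  -- telescoping
  have hYc : HasCompactSupport Y := by
    refine HasCompactSupport.of_support_subset_isCompact (isCompact_closedBall x R) ?_
    intro y hy
    have := hUx y hy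
    rw [mem_closedBall, dist_eq_norm]
    linarith
  have key : ∀ t : ℝ, 0 < t → ∀ k, k ≤ n → |∫ y, ⟪prp e (g 0 y), Y y⟫_ℝ| ≤
      (∑ l ∈ Finset.range k, 4 * (1 / 4 : ℝ) ^ (n - l) * (t * m l + 1 / (2 * t) * D l)) +
      |∫ y, ⟪prp e (g k y), Y y⟫_ℝ| := by
    intro t ht k
    induction k with
    | zero => intro _; simp
    | succ k ih =>
      intro hk
      have hk' : k < n := by omega
      refine (ih hk'.le).trans ?_
      rw [Finset.sum_range_succ, add_assoc]
      refine add_le_add le_rfl ?_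
      rw [step hb (hgc k) hY.continuous hYc e (ε * ρ (k + 1))]
      refine (abs_add_le _ _).trans (add_le_add ?_ le_rfl)
      have hw : (ε * ρ (k + 1)) ^ 2 ≤ 4 * (1 / 4 : ℝ) ^ (n - k) := by
        have h0 : ((1 / 2 : ℝ) ^ (n - k)) ^ 2 = (1 / 4) ^ (n - k) := by
          rw [← pow_mul, mul_comm (n - k) 2, pow_mul]
          norm_num
        have h1 : ε ^ 2 ≤ 1 := pow_le_one₀ hε.le hε1
        have h2 : (0 : ℝ) ≤ (1 / 4) ^ (n - k) := by positivity
        calc (ε * ρ (k + 1)) ^ 2 = ε ^ 2 * (4 * ((1 / 2 : ℝ) ^ (n - k)) ^ 2) := by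
              rw [hρs, hρl k hk'.le]
              ring
          _ = ε ^ 2 * (4 * (1 / 4) ^ (n - k)) := by rw [h0]
          _ ≤ 1 * (4 * (1 / 4) ^ (n - k)) := mul_le_mul_of_nonneg_right h1 (by positivity)
          _ = 4 * (1 / 4) ^ (n - k) := one_mul _
      have hZ : ∀ y, ‖Y y - avk b (ε * ρ (k + 1)) Y y‖ ≤ 4 * (1 / 4 : ℝ) ^ (n - k) :=
        fun y => (hb.taylor hY hY2 _ y).trans hw
      have hZA : ∀ y, y ∉ T k → Y y - avk b (ε * ρ (k + 1)) Y y = 0 := by
        intro y hy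
        have h1 : Y y = 0 := by
          by_contra h
          exact hy (hUT k h)
        have h2 : ‖avk b (ε * ρ (k + 1)) Y y‖ ≤ 0 := by
          refine hb.norm_le_of_bound fun w hw => ?_
          have h3 : Y w = 0 := by
            by_contra h
            apply hy
            refine mem_thickening_iff.2 ⟨w, h, ?_⟩
            have h4 := hsc k
            have h5 := hρ0 k
            rw [dist_eq_norm, norm_sub_rev]
            linarith
          simp [h3]
        have h3 : avk b (ε * ρ (k + 1)) Y y = 0 := by simpa using h2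
        rw [h1, h3, sub_zero]
      refine (pair_le (hgc k) (hgs k) he (hTm k) ht hZ hZA).trans ?_
      rw [hml k hk']
      refine mul_le_mul_of_nonneg_left ?_ (by positivity)
      refine add_le_add le_rfl ?_
      exact mul_le_mul_of_nonneg_left (hsub k _ (hTB k hk')) (by positivity)
  have hlast : ∀ t : ℝ, 0 < t → |∫ y, ⟪prp e (g n y), Y y⟫_ℝ| ≤
      t * Mm + 1 / (2 * t) * D n := by
    intro t ht
    have h1 := pair_le (hgc n) (hgs n) he hUo.measurableSet ht (w := 1) hY1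
      (fun y hy => by
        by_contra h
        exact hy h)
    rw [one_mul] at h1
    refine h1.trans (add_le_add ?_ ?_)
    · exact mul_le_mul_of_nonneg_left htop ht.le
    · refine mul_le_mul_of_nonneg_left (hsub n _ ?_) (by positivity)
      intro z hz
      have := hUx z hz
      rw [mem_ball, dist_eq_norm]
      linarith
  -- summation
  set A : ℝ := ∑ l ∈ Finset.range (n + 1), (1 / 4 : ℝ) ^ (n - l) * D l with hA
  have hA0 : 0 ≤ A := Finset.sum_nonneg fun l _ => mul_nonneg (by positivity) (hD0 l)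
  have hsum := seq_sum n m D (hm0 0) htr
  rw [hmn] at hsum
  have hAs : A = (∑ l ∈ Finset.range n, (1 / 4 : ℝ) ^ (n - l) * D l) + D n := by
    rw [hA, Finset.sum_range_succ, Nat.sub_self, pow_zero, one_mul]
  have hfin : ∀ t : ℝ, 0 < t → |∫ y, ⟪prp e (g 0 y), Y y⟫_ℝ| ≤
      t * (7 / 3 * Mm + 16 / 3 * A) + (2 * A) / t := by
    intro t ht
    have h1 := key t ht n le_rfl
    have h2 := hlast t ht
    have h3 : ∑ l ∈ Finset.range n, 4 * (1 / 4 : ℝ) ^ (n - l) * (t * m l + 1 / (2 * t) * D l) =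
        4 * t * (∑ l ∈ Finset.range n, (1 / 4 : ℝ) ^ (n - l) * m l) +
        2 / t * ∑ l ∈ Finset.range n, (1 / 4 : ℝ) ^ (n - l) * D l := by
      rw [Finset.mul_sum, Finset.mul_sum, ← Finset.sum_add_distrib]
      refine Finset.sum_congr rfl fun l _ => ?_
      field_simp
      ring
    rw [h3] at h1
    set B : ℝ := ∑ l ∈ Finset.range n, (1 / 4 : ℝ) ^ (n - l) * D l with hB
    have hDn := hD0 n
    have h4 : 4 * t * (∑ l ∈ Finset.range n, (1 / 4 : ℝ) ^ (n - l) * m l) ≤
        4 * t * (1 / 3 * Mm + 4 / 3 * B) :=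
      mul_le_mul_of_nonneg_left hsum (by positivity)
    have h5 : 1 / (2 * t) * D n ≤ 2 / t * D n := by
      refine mul_le_mul_of_nonneg_right ?_ hDn
      rw [div_le_div_iff₀ (by positivity) ht]
      linarith only [ht]
    have h6 : 2 / t * B + 2 / t * D n = 2 * A / t := by
      rw [hAs]
      ring
    have h7 : 4 * t * (1 / 3 * Mm + 4 / 3 * B) + t * Mm ≤ t * (7 / 3 * Mm + 16 / 3 * A) := by
      rw [hAs]
      have : 0 ≤ t * D n := by (clear * - ht hDn; positivity)
      linarith only [this]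
    linarith only [h2, h1, h4, h5, h6, h7]
  have hopt := opt (by (clear * - hA0; positivity)) (by (clear * - hA0; positivity)) hfin
  -- conclusion
  have hDD : A ≤ DD b ε R s0 f n x e := by
    have h1 : lev s0 n = 1 := hρn
    unfold DD
    rw [h1, one_pow, div_one, one_mul, mul_one]
    have h2 : 0 ≤ (1 / 4 : ℝ) ^ n * ∫ y in ball x R, ‖f y‖ :=
      mul_nonneg (by positivity) (integral_nonneg fun y => norm_nonneg _)
    have h3 : A = ∑ l ∈ Finset.range (n + 1), (1 / 4 : ℝ) ^ (n - l) *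
        (∫ y in ball x R, (‖fl b ε s0 f l y‖ - ⟪fl b ε s0 f l y, e⟫_ℝ)) := rfl
    linarith only [h2]
  have hgoal : ∫ y, ⟪f y - ⟪f y, e⟫_ℝ • e, Y y⟫_ℝ = ∫ y, ⟪prp e (g 0 y), Y y⟫_ℝ := by
    congr 1
    ext y
    rw [prp_apply]
    rfl
  rw [hgoal]
  refine hopt.trans ?_
  have hMA : 0 ≤ Mm * A := by (clear * - hA0; positivity)
  have h1 : Real.sqrt ((7 / 3 * Mm + 16 / 3 * A) * (2 * A)) ≤ 4 * (Real.sqrt (Mm * A) + A) := by
    rw [Real.sqrt_le_left (by (clear * - hA0; positivity))]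
    have h2 := Real.sq_sqrt hMA
    have h3 := Real.sqrt_nonneg (Mm * A)
    nlinarith only [h2, h3, hA0]
  have h2 : Real.sqrt (Mm * A) ≤ Real.sqrt (Mm * DD b ε R s0 f n x e) :=
    Real.sqrt_le_sqrt (mul_le_mul_of_nonneg_left hDD hMm0)
  linarith only [hDD, h1, h2]

end TG


end

section

/-!
# Trace inequality, general operators: MODULE TW, comparison of two consecutive levels
-/

open MeasureTheory Metric Set TrI
open scoped InnerProductSpace ContDiff

namespace TG

namespace TW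

noncomputable section

variable {d : ℕ} {E : Type} [NormedAddCommGroup E] [InnerProductSpace ℝ E]

lemma lev_u (n : ℕ) : lev ((1 / 2 : ℝ) ^ n) n = 1 := by
  unfold lev
  rw [← mul_pow]
  norm_num

lemma lev_u1 (n : ℕ) : lev ((1 / 2 : ℝ) ^ n) (n + 1) = 2 := by
  have h := lev_u n
  unfold lev at h ⊢
  rw [pow_succ, ← mul_assoc, h, one_mul]

lemma fl_ok {b : Sp d → ℝ} {J : ℕ} {M c0 : ℝ} (hb : BaseKer J M c0 b) (ε s0 : ℝ) {f : Sp d → E}
    (hf : Continuous f) (hfc : HasCompactSupport f) :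
    ∀ l, Continuous (fl b ε s0 f l) ∧ HasCompactSupport (fl b ε s0 f l) := fun l =>
  ⟨PE.fl_cont (PE.KP.of_base hb) hf ε s0 l, PE.fl_cs (PE.KP.of_base hb) hfc ε s0 l⟩

lemma DD_step {b : Sp d → ℝ} {J : ℕ} {M c0 : ℝ} (hb : BaseKer J M c0 b) (ε : ℝ) {f : Sp d → E}
    (hf : Continuous f) (hfc : HasCompactSupport f) (n : ℕ) {R : ℝ} {x : Sp d} (hx : ‖x‖ ≤ R)
    {e : E} (he : ‖e‖ = 1) :
    DD b ε R ((1 / 2) ^ n) f n 0 e ≤ 2 * 2 ^ d * DD b ε R ((1 / 2) ^ n) f (n + 1) x e := by
  have hball : ball (0 : Sp d) R ⊆ ball x (R * 2) := by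
    intro y hy
    rw [mem_ball, dist_zero_right] at hy
    rw [mem_ball, dist_eq_norm]
    have := norm_sub_le y x
    linarith
  have hfl := fl_ok hb ε ((1 / 2) ^ n) hf hfc
  have hin : ∀ (g : Sp d → E) (y : Sp d), 0 ≤ ‖g y‖ - ⟪g y, e⟫_ℝ := by
    intro g y
    have h2 := (abs_le.1 (abs_real_inner_le_norm (g y) e)).2
    rw [he, mul_one] at h2
    linarith
  have hI : ∀ l, ∫ y in ball (0 : Sp d) R, (‖fl b ε ((1 / 2) ^ n) f l y‖ -
      ⟪fl b ε ((1 / 2) ^ n) f l y, e⟫_ℝ) ≤ ∫ y in ball x (R * 2),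
      (‖fl b ε ((1 / 2) ^ n) f l y‖ - ⟪fl b ε ((1 / 2) ^ n) f l y, e⟫_ℝ) := by
    intro l
    refine setIntegral_mono_set ?_ (Filter.Eventually.of_forall fun y => hin _ y)
      (Filter.Eventually.of_forall hball)
    refine Integrable.integrableOn ?_
    refine (((hfl l).1.norm).integrable_of_hasCompactSupport (hfl l).2.norm).sub ?_
    refine Continuous.integrable_of_hasCompactSupport
      ((hfl l).1.inner continuous_const) ?_
    exact (hfl l).2.comp_left (g := fun v : E => ⟪v, e⟫_ℝ) (inner_zero_left _)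
  have hJ : ∫ y in ball (0 : Sp d) R, ‖f y‖ ≤ ∫ y in ball x (R * 2), ‖f y‖ :=
    setIntegral_mono_set (hf.norm.integrable_of_hasCompactSupport hfc.norm).integrableOn
      (Filter.Eventually.of_forall fun y => norm_nonneg _) (Filter.Eventually.of_forall hball)
  unfold DD
  rw [lev_u, lev_u1, one_pow, div_one, one_mul, mul_one]
  have e1 : 2 * 2 ^ d * (2 / 2 ^ d * (∑ l ∈ Finset.range (n + 1 + 1), (1 / 4 : ℝ) ^ (n + 1 - l) *
      (∫ y in ball x (R * 2), (‖fl b ε ((1 / 2) ^ n) f l y‖ -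
        ⟪fl b ε ((1 / 2) ^ n) f l y, e⟫_ℝ)) + (1 / 4 : ℝ) ^ (n + 1) *
        ∫ y in ball x (R * 2), ‖f y‖)) = 4 * (∑ l ∈ Finset.range (n + 1 + 1),
      (1 / 4 : ℝ) ^ (n + 1 - l) * (∫ y in ball x (R * 2), (‖fl b ε ((1 / 2) ^ n) f l y‖ -
        ⟪fl b ε ((1 / 2) ^ n) f l y, e⟫_ℝ)) + (1 / 4 : ℝ) ^ (n + 1) *
        ∫ y in ball x (R * 2), ‖f y‖) := by
    have : (2 : ℝ) ^ d ≠ 0 := by positivity
    field_simp
    ring
  rw [e1, Finset.sum_range_succ _ (n + 1), mul_add, mul_add, Finset.mul_sum]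
  have h1 : ∑ l ∈ Finset.range (n + 1), (1 / 4 : ℝ) ^ (n - l) *
      (∫ y in ball (0 : Sp d) R, (‖fl b ε ((1 / 2) ^ n) f l y‖ -
      ⟪fl b ε ((1 / 2) ^ n) f l y, e⟫_ℝ)) ≤ ∑ l ∈ Finset.range (n + 1),
      4 * ((1 / 4 : ℝ) ^ (n + 1 - l) * (∫ y in ball x (R * 2), (‖fl b ε ((1 / 2) ^ n) f l y‖ -
        ⟪fl b ε ((1 / 2) ^ n) f l y, e⟫_ℝ))) := by
    refine Finset.sum_le_sum fun l hl => ?_
    have hl' := Finset.mem_range.1 hl
    have e2 : (1 / 4 : ℝ) ^ (n + 1 - l) = 1 / 4 * (1 / 4) ^ (n - l) := by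
      rw [← pow_succ']
      congr 1
      omega
    rw [e2]
    have h3 := mul_le_mul_of_nonneg_left (hI l) (by positivity : (0 : ℝ) ≤ (1 / 4) ^ (n - l))
    linarith only [h3]
  have h2 : 0 ≤ 4 * ((1 / 4 : ℝ) ^ (n + 1 - (n + 1)) * ∫ y in ball x (R * 2),
      (‖fl b ε ((1 / 2) ^ n) f (n + 1) y‖ - ⟪fl b ε ((1 / 2) ^ n) f (n + 1) y, e⟫_ℝ)) :=
    mul_nonneg (by norm_num) (mul_nonneg (by positivity) (integral_nonneg fun y => hin _ y))
  have h3 : (1 / 4 : ℝ) ^ n * ∫ y in ball (0 : Sp d) R, ‖f y‖ ≤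
      4 * ((1 / 4 : ℝ) ^ (n + 1) * ∫ y in ball x (R * 2), ‖f y‖) := by
    have h4 := mul_le_mul_of_nonneg_left hJ (by positivity : (0 : ℝ) ≤ (1 / 4) ^ n)
    rw [pow_succ]
    linarith
  linarith

lemma bb_u (ρ : ℝ) (f : Sp d → E) (n : ℕ) (e : E) (ν : Sp d) (c : ℝ) :
    bb ρ ((1 / 2) ^ n) f n 0 e ν c = ∫ y, ⟪f y, e⟫_ℝ * (zR ρ y * ht ν c y ^ 2) := by
  unfold bb
  rw [lev_u, one_pow, div_one, one_mul]
  simp only [one_smul, sub_zero, div_one]

lemma bb_u1 (ρ : ℝ) (f : Sp d → E) (n : ℕ) (x : Sp d) (e : E) (ν : Sp d) (c : ℝ) :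
    2 * 2 ^ d * bb ρ ((1 / 2) ^ n) f (n + 1) x e ν c =
      ∫ y, ⟪f y, e⟫_ℝ * (zR ρ (-((1 / 2 : ℝ) • x) + (1 / 2 : ℝ) • y) * ht ν c y ^ 2) := by
  unfold bb
  rw [lev_u1, ← mul_assoc]
  have h1 : (2 : ℝ) * 2 ^ d * (2 / 2 ^ d) = 4 := by
    have : (2 : ℝ) ^ d ≠ 0 := by positivity
    field_simp
    norm_num
  rw [h1, ← integral_const_mul]
  congr 1
  ext y
  have h2 : (1 / 2 : ℝ) • (y - x) = -((1 / 2 : ℝ) • x) + (1 / 2 : ℝ) • y := by
    rw [smul_sub]
    abel
  rw [h2]
  ring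

lemma DD_rs (b : Sp d → ℝ) (ε R s0 : ℝ) (f : Sp d → E) (i : ℕ) (x y : Sp d) (e : E) {t : ℝ}
    (ht : 0 < t) :
    DD b ε R (s0 / t) (rs x t f) i y e = DD b ε R s0 f i (x + t • y) e := by
  have hfl := fun i y => SC.fl_rs b ε s0 x ht f i y
  have ht' : (t : ℝ) ≠ 0 := ht.ne'
  unfold DD
  have h1 : ∀ l, ∫ z in ball y (R * lev (s0 / t) i), (‖fl b ε (s0 / t) (rs x t f) l z‖
      - ⟪fl b ε (s0 / t) (rs x t f) l z, e⟫_ℝ) = t / t ^ d *
      ∫ z in ball (x + t • y) (R * lev s0 i), (‖fl b ε s0 f l z‖ - ⟪fl b ε s0 f l z, e⟫_ℝ) := by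
    intro l
    simp_rw [hfl, norm_smul, real_inner_smul_left, Real.norm_of_nonneg ht.le, ← mul_sub]
    rw [integral_const_mul, SC.lev_div, ← mul_div_assoc,
      SC.ball_scale x ht (fun z => ‖fl b ε s0 f l z‖ - ⟪fl b ε s0 f l z, e⟫_ℝ)]
    ring
  have h2 : ∫ z in ball y (R * lev (s0 / t) i), ‖rs x t f z‖ = t / t ^ d *
      ∫ z in ball (x + t • y) (R * lev s0 i), ‖f z‖ := by
    unfold rs
    simp_rw [norm_smul, Real.norm_of_nonneg ht.le]
    rw [integral_const_mul, SC.lev_div, ← mul_div_assoc, SC.ball_scale x ht (fun z => ‖f z‖)]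
    ring
  simp_rw [h1]
  rw [h2, SC.lev_div]
  have h3 : ∀ l, (1 / 4 : ℝ) ^ (i - l) * (t / t ^ d *
      ∫ z in ball (x + t • y) (R * lev s0 i), (‖fl b ε s0 f l z‖ - ⟪fl b ε s0 f l z, e⟫_ℝ)) =
      t / t ^ d * ((1 / 4 : ℝ) ^ (i - l) *
      ∫ z in ball (x + t • y) (R * lev s0 i), (‖fl b ε s0 f l z‖ - ⟪fl b ε s0 f l z, e⟫_ℝ)) := by
    intro l
    ring
  simp_rw [h3]
  rw [← Finset.mul_sum, mul_left_comm _ (t / t ^ d), ← mul_add, ← mul_assoc, div_pow]
  congr 1
  field_simp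

lemma ma_rs (b : Sp d → ℝ) (ε R s0 : ℝ) (f : Sp d → E) (i : ℕ) (x y : Sp d) {t : ℝ}
    (ht : 0 < t) : ma b ε R (s0 / t) (rs x t f) i y = ma b ε R s0 f i (x + t • y) := by
  have hfl := fun i y => SC.fl_rs b ε s0 x ht f i y
  have ht' : (t : ℝ) ≠ 0 := ht.ne'
  unfold ma
  simp_rw [hfl, norm_smul, Real.norm_of_nonneg ht.le]
  rw [integral_const_mul, SC.lev_div, ← mul_div_assoc,
    SC.ball_scale x ht (fun z => ‖fl b ε s0 f (i - 1) z‖), div_pow]
  field_simp

/-- the pairing at the next level -/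
theorem next (hMA : StmtMA) (hd : 1 ≤ d) {M c ε : ℝ} (h0 : 0 < ε) (h1 : ε ≤ 1)
    {b : Sp d → ℝ} (hb : BaseKer 2 M c b) {R0 : ℝ} (hR0 : 100 + 8 * d ≤ R0) : ∃ C : ℝ, 0 < C ∧
    ∀ (E : Type) [NormedAddCommGroup E] [InnerProductSpace ℝ E] [FiniteDimensional ℝ E],
    ∀ f : Sp d → E, Continuous f → HasCompactSupport f → ∀ (R : ℝ), 4 * R0 + 10 ≤ R →
    ∀ (n : ℕ) (e : E), ‖e‖ = 1 → ∀ (x : Sp d), ‖x‖ ≤ Real.sqrt d →
    ∀ (ζ : Sp d → ℝ) (N : ℝ), TFn 2 N ζ → (∀ y, R0 + 3 ≤ ‖y‖ → ζ y = 0) →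
      |∫ y, ⟪f y, e⟫_ℝ * ζ y| ≤ C * N * (ma b ε R0 ((1 / 2) ^ n) f (n + 1) x +
        DD b ε R ((1 / 2) ^ n) f (n + 1) x e) := by
  have hd1 : (1 : ℝ) ≤ d := by exact_mod_cast hd
  have hsq : Real.sqrt d ≤ d := by
    rw [Real.sqrt_le_left (by positivity)]
    nlinarith only [hd1]
  obtain ⟨C, hC, H⟩ := TU.MA' hMA hd h0 h1 hb
  refine ⟨2 * 2 ^ d * C, by positivity, ?_⟩
  intro E _ _ _ f hf hfc R hR n e he x hx ζ N hζ hs
  have h2 : (0 : ℝ) < 2 := by norm_num
  have hx0 := norm_nonneg x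
  have hxy : ∀ y : Sp d, 2 * ‖y‖ ≤ ‖x + (2 : ℝ) • y‖ + ‖x‖ := by
    intro y
    have e1 : (2 : ℝ) • y = (x + (2 : ℝ) • y) - x := by abel
    have e2 := norm_sub_le (x + (2 : ℝ) • y) x
    rw [← e1, norm_smul] at e2
    simpa using e2
  have hrc : Continuous (rs x 2 f) := by
    unfold rs
    fun_prop
  have hrs : HasCompactSupport (rs x 2 f) := by
    have h3 := hfc.comp_homeomorph
      ((Homeomorph.smulOfNeZero (2 : ℝ) h2.ne').trans (Homeomorph.addLeft x))
    exact h3.smul_left (f := fun _ : Sp d => (2 : ℝ))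
  have T := TU.TFn_aff hζ x (t := (2 : ℝ)) (by norm_num)
  have e1 : max 1 |(2 : ℝ)| ^ 2 * N = 4 * N := by
    rw [abs_of_pos h2, max_eq_right (by norm_num)]
    norm_num
  rw [e1] at T
  have k1 := (H E (rs x 2 f) hrc hrs R (by linarith) (n + 1) e he 0 (ball 0 R0)
    measurableSet_ball).1 (fun y => ζ (x + (2 : ℝ) • y)) (4 * N) T (fun y hy => hs _ (by
      rw [sub_zero] at hy
      have := hxy y
      linarith)) (fun y z hy hz => by
      have h3 : ‖x + (2 : ℝ) • y‖ < R0 + 3 := by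
        by_contra h4
        push Not at h4
        exact hy (hs _ h4)
      have h5 := hxy y
      rw [mem_ball, dist_zero_right]
      have h6 := norm_add_le (z - y) y
      rw [sub_add_cancel] at h6
      linarith)
  rw [TU.frame_int f e x h2 ζ] at k1
  have hs0 : (1 / 2 : ℝ) ^ (n + 1) = (1 / 2) ^ n / 2 := by
    rw [pow_succ]
    ring
  have k2 : DD b ε R ((1 / 2) ^ (n + 1)) (rs x 2 f) (n + 1) 0 e =
      DD b ε R ((1 / 2) ^ n) f (n + 1) x e := by
    rw [hs0, DD_rs b ε R _ f (n + 1) x 0 e h2, smul_zero, add_zero]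
  have k3 : ∫ y in ball (0 : Sp d) R0, ‖fl b ε ((1 / 2) ^ (n + 1)) (rs x 2 f) (n + 1 - 1) y‖ =
      ma b ε R0 ((1 / 2) ^ n) f (n + 1) x := by
    have k4 := ma_rs b ε R0 ((1 / 2) ^ n) f (n + 1) x 0 h2
    rw [← hs0, smul_zero, add_zero] at k4
    rw [← k4]
    unfold ma
    rw [lev_u, one_pow, div_one, one_mul, mul_one]
  rw [k2, k3, abs_mul, abs_of_pos (by positivity : (0 : ℝ) < 2 / 2 ^ d)] at k1
  have k5 := mul_le_mul_of_nonneg_left k1 (by positivity : (0 : ℝ) ≤ 2 ^ d / 2)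
  have k6 : (2 : ℝ) ^ d / 2 * (2 / 2 ^ d * |∫ y, ⟪f y, e⟫_ℝ * ζ y|) =
      |∫ y, ⟪f y, e⟫_ℝ * ζ y| := by
    have : (2 : ℝ) ^ d ≠ 0 := by positivity
    field_simp
  rw [k6] at k5
  refine k5.trans (le_of_eq ?_)
  ring

end

end TW

open _root_.TG.TW in
theorem stmtTW (h : StmtZ) (h1 : StmtMA) (h2 : StmtDI) (_h3 : StmtSC) : StmtTW := by
  intro d hd M c0 ε hε hε1 b hb R0 hR0
  have hd1 : (1 : ℝ) ≤ d := by exact_mod_cast hd
  have hsq : Real.sqrt d ≤ d := by
    rw [Real.sqrt_le_left (by positivity)]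
    nlinarith
  have hR0' : 100 ≤ R0 := by linarith
  obtain ⟨CZ, hCZ, Z⟩ := TU.Z' h hd hε hε1 hb
  obtain ⟨CM, hCM, MM⟩ := TU.MA' h1 hd hε hε1 hb
  obtain ⟨CD, hCD, DI⟩ := TU.DI' h2 hd hε hε1 hb
  obtain ⟨CP, hCP, PP⟩ := next h1 hd hε hε1 hb hR0
  obtain ⟨N0, hN0, T0⟩ := TU.TFn_of_cs (J := 2) (ζ := (zR (R0 + 2) : Sp d → ℝ))
    (contDiff_infty.1 (TU.zR_smooth (by linarith)) 2) (TU.zR_cs _)
  obtain ⟨N1, hN1, T1⟩ := TU.TFn_of_cs (J := 2) (ζ := (zR R0 : Sp d → ℝ))
    (contDiff_infty.1 (TU.zR_smooth (by linarith)) 2) (TU.zR_cs _)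
  set K : ℝ := 2 * 2 ^ d with hK
  have hK0 : 0 < K := by positivity
  have hK1 : 1 ≤ K := by
    have : (1 : ℝ) ≤ 2 ^ d := one_le_pow₀ (by norm_num)
    linarith
  set N2 : ℝ := 4 ^ 2 * N1 * max 1 ((R0 + 1) + 4 * R0) ^ 2 with hN2
  set N3 : ℝ := 4 ^ 2 * N1 * max 1 ((3 * R0) + 4 * R0) ^ 2 with hN3
  have hN2p : 0 < N2 := by positivity
  have hN3p : 0 < N3 := by positivity
  set C : ℝ := K + CD * K + (CP * N0 + CM * N0 * K) +
    (K + CZ * (N3 + N2) * K + CD * N2 * K + 1) + (CP * N2 + CD * N2 * K) with hC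
  have c1 : 0 < CD * K := by positivity
  have c2 : 0 < CP * N0 := by positivity
  have c3 : 0 < CM * N0 * K := by positivity
  have c4 : 0 < CZ * (N3 + N2) * K := by positivity
  have c5 : 0 < CD * N2 * K := by positivity
  have c6 : 0 < CP * N2 := by positivity
  refine ⟨C, by linarith, ?_⟩
  intro E _ _ _ R hR f hf hfc n x e e' hx he he'
  have hs0 : (0 : ℝ) < (1 / 2) ^ n := by positivity
  have hDn := TU.DD_nonneg b ε R hs0 f n 0 he
  have hDn' := TU.DD_nonneg b ε R hs0 f n 0 he'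
  have hD1 := TU.DD_nonneg b ε R hs0 f (n + 1) x he'
  have hm1 := TU.ma_nonneg b ε R0 hs0 f (n + 1) x
  have hstep : DD b ε R ((1 / 2) ^ n) f n 0 e' ≤ K * DD b ε R ((1 / 2) ^ n) f (n + 1) x e' :=
    DD_step hb ε hf hfc n (by linarith) he'
  generalize hA : DD b ε R ((1 / 2) ^ n) f n 0 e = A at *
  generalize hA' : DD b ε R ((1 / 2) ^ n) f n 0 e' = A' at *
  generalize hB : DD b ε R ((1 / 2) ^ n) f (n + 1) x e' = B at *
  generalize hmm : ma b ε R0 ((1 / 2) ^ n) f (n + 1) x = m at *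
  -- change of direction
  have hii : ∀ (ζ : Sp d → ℝ) (N : ℝ), TFn 2 N ζ → (∀ y, R - 1 ≤ ‖y‖ → ζ y = 0) →
      |∫ y, ⟪f y, e - e'⟫_ℝ * ζ y| ≤ CD * K * N * (A + B) := by
    intro ζ N hζ hs
    have hN := TU.TFn_nonneg hζ
    have k1 := DI E f hf hfc R (by linarith) n e e' he he' 0 0 ζ N hζ
      (by simpa using hs) (by simpa using hs)
    rw [hA, hA'] at k1
    refine k1.trans ?_
    have k2 : A + A' ≤ K * (A + B) := by nlinarith
    calc CD * N * (A + A') ≤ CD * N * (K * (A + B)) :=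
          mul_le_mul_of_nonneg_left k2 (by positivity)
      _ = _ := by ring
  -- integrability
  have hint : ∀ (w : E) (ζ : Sp d → ℝ), Continuous ζ → Integrable fun y => ⟪f y, w⟫_ℝ * ζ y := by
    intro w ζ hζ
    refine Continuous.integrable_of_hasCompactSupport
      ((hf.inner continuous_const).mul hζ) ?_
    exact (hfc.comp_left (g := fun v : E => ⟪v, w⟫_ℝ) (inner_zero_left _)).mul_right
  have hsplit : ∀ ζ : Sp d → ℝ, Continuous ζ → ∫ y, ⟪f y, e⟫_ℝ * ζ y =
      (∫ y, ⟪f y, e'⟫_ℝ * ζ y) + ∫ y, ⟪f y, e - e'⟫_ℝ * ζ y := by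
    intro ζ hζ
    rw [← integral_add (hint e' ζ hζ) (hint (e - e') ζ hζ)]
    congr 1
    ext y
    rw [inner_sub_right]
    ring
  refine ⟨?_, ?_, ?_, ?_⟩
  · nlinarith only [hDn', hD1, hstep, hCD, c2, c3, c4, c5, c6]
  · intro ζ N hζ hs
    have hN := TU.TFn_nonneg hζ
    refine (hii ζ N hζ hs).trans ?_
    have : CD * K ≤ C := by linarith
    exact mul_le_mul_of_nonneg_right (mul_le_mul_of_nonneg_right this hN) (by linarith)
  · -- mass
    have k1 := (MM E f hf hfc R (by linarith) n e' he' 0 (ball 0 R0) measurableSet_ball).2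
      (zR (R0 + 2)) N0 1 one_pos T0 (TU.zR_nonneg _) (fun y hy => TU.zR_zero (by
        rw [sub_zero] at hy
        linarith)) (fun y z hy hz => by
        rw [TU.zR_one]
        rw [mem_ball, dist_zero_right] at hy
        have := norm_add_le (z - y) y
        rw [sub_add_cancel] at this
        linarith)
    rw [one_mul, hA'] at k1
    have k2 := PP E f hf hfc R hR n e' he' x hx (zR (R0 + 2)) N0 T0
      (fun y hy => TU.zR_zero (by linarith))
    rw [hmm, hB] at k2
    have k3 := (le_abs_self _).trans k2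
    have k4 : ma b ε R0 ((1 / 2) ^ n) f n 0 =
        ∫ y in ball (0 : Sp d) R0, ‖fl b ε ((1 / 2) ^ n) f (n - 1) y‖ := by
      unfold ma
      rw [lev_u, one_pow, div_one, one_mul, mul_one]
    rw [k4]
    have k5 : CM * N0 * A' ≤ CM * N0 * K * B := by
      have := mul_le_mul_of_nonneg_left hstep (by positivity : 0 ≤ CM * N0)
      linarith
    have k6 : CP * N0 * (m + B) + CM * N0 * K * B ≤ C * (m + B) := by
      have : (CP * N0 + CM * N0 * K) * (m + B) ≤ C * (m + B) :=
        mul_le_mul_of_nonneg_right (by linarith) (by linarith)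
      nlinarith only [this, c3, hm1]
    linarith only [k1, k3, k5, k6]
  · intro ν c hν hc
    -- the test function at level n
    have T2 : TFn 2 N2 (fun y => zR R0 y * ht ν c y ^ 2) :=
      TU.TFn_ht_sq (ρ := R0 + 1) T1 (fun y hy => TU.zR_zero hy.le) hν hc
    have s2 : ∀ y : Sp d, R0 + 1 ≤ ‖y‖ → zR R0 y * ht ν c y ^ 2 = 0 := fun y hy => by
      rw [TU.zR_zero hy, zero_mul]
    have c2' : Continuous fun y => zR R0 y * ht ν c y ^ 2 := T2.smooth.continuous
    -- the test function at level n + 1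
    have T3a : TFn 2 N1 (fun y => zR R0 (-((1 / 2 : ℝ) • x) + (1 / 2 : ℝ) • y)) := by
      have := TU.TFn_aff T1 (-((1 / 2 : ℝ) • x)) (t := (1 / 2 : ℝ)) (by norm_num)
      have e1 : max 1 |(1 / 2 : ℝ)| = 1 := by
        rw [abs_of_pos (by norm_num)]
        norm_num
      rw [e1, one_pow, one_mul] at this
      exact this
    have hnx : ∀ y : Sp d, ‖y‖ ≤ 2 * ‖-((1 / 2 : ℝ) • x) + (1 / 2 : ℝ) • y‖ + ‖x‖ := by
      intro y
      have e1 : y = (2 : ℝ) • (-((1 / 2 : ℝ) • x) + (1 / 2 : ℝ) • y) + x := by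
        module
      have e2 := norm_add_le ((2 : ℝ) • (-((1 / 2 : ℝ) • x) + (1 / 2 : ℝ) • y)) x
      rw [← e1, norm_smul] at e2
      simpa using e2
    have hnx' : ∀ y : Sp d, 2 * ‖-((1 / 2 : ℝ) • x) + (1 / 2 : ℝ) • y‖ ≤ ‖y‖ + ‖x‖ := by
      intro y
      have e1 : (2 : ℝ) • (-((1 / 2 : ℝ) • x) + (1 / 2 : ℝ) • y) = y - x := by
        module
      have e2 := norm_sub_le y x
      rw [← e1, norm_smul] at e2
      simpa using e2
    have s3a : ∀ y : Sp d, 3 * R0 < ‖y‖ →
        zR R0 (-((1 / 2 : ℝ) • x) + (1 / 2 : ℝ) • y) = 0 := by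
      intro y hy
      refine TU.zR_zero ?_
      have := hnx y
      linarith
    have T3 : TFn 2 N3 (fun y => zR R0 (-((1 / 2 : ℝ) • x) + (1 / 2 : ℝ) • y) *
        ht ν c y ^ 2) := TU.TFn_ht_sq (ρ := 3 * R0) T3a s3a hν hc
    have c3' : Continuous fun y => zR R0 (-((1 / 2 : ℝ) • x) + (1 / 2 : ℝ) • y) *
        ht ν c y ^ 2 := T3.smooth.continuous
    have T4 := TU.TFn_sub T3 T2
    have k1 := Z E f hf hfc R (by linarith) n e' he' 0 _ (N3 + N2) T4 (fun y => by
      rw [← sub_mul]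
      refine mul_nonneg ?_ (sq_nonneg _)
      by_cases hy : R0 + 1 ≤ ‖y‖
      · rw [TU.zR_zero hy, sub_zero]
        exact TU.zR_nonneg _ _
      · push Not at hy
        have := hnx' y
        rw [TU.zR_one (x := -((1 / 2 : ℝ) • x) + (1 / 2 : ℝ) • y) (by linarith)]
        have := TU.zR_le_one R0 y
        linarith) (fun y hy => by
      rw [sub_zero] at hy
      rw [s3a y (by linarith), s2 y (by linarith)]
      ring)
    rw [hA'] at k1
    have k2 : ∫ y, ⟪f y, e'⟫_ℝ * (zR R0 (-((1 / 2 : ℝ) • x) + (1 / 2 : ℝ) • y) *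
        ht ν c y ^ 2 - zR R0 y * ht ν c y ^ 2) =
        (∫ y, ⟪f y, e'⟫_ℝ * (zR R0 (-((1 / 2 : ℝ) • x) + (1 / 2 : ℝ) • y) * ht ν c y ^ 2)) -
        ∫ y, ⟪f y, e'⟫_ℝ * (zR R0 y * ht ν c y ^ 2) := by
      rw [← integral_sub (hint e' _ c3') (hint e' _ c2')]
      congr 1
      ext y
      ring
    rw [k2, ← bb_u1] at k1
    have k3 := hii _ N2 T2 (fun y hy => s2 y (by linarith))
    have k4 := hsplit _ c2'
    have k5 := bb_u R0 f n e ν c
    rw [k4] at k5
    have k6 := (le_abs_self _).trans k3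
    have k7 : CZ * (N3 + N2) * A' ≤ CZ * (N3 + N2) * K * B := by
      have := mul_le_mul_of_nonneg_left hstep (by positivity : 0 ≤ CZ * (N3 + N2))
      linarith only [this]
    refine ⟨?_, ?_⟩
    · unfold bD
      rw [hA, hB]
      set β : ℝ := bb R0 ((1 / 2) ^ n) f n 0 e ν c with hβ
      set β1 : ℝ := bb R0 ((1 / 2) ^ n) f (n + 1) x e' ν c with hβ1
      have hβ1m := le_max_right (0 : ℝ) β1
      have hβ10 := le_max_left (0 : ℝ) β1
      have m1 : β ≤ K * max 0 β1 + CZ * (N3 + N2) * K * B + CD * K * N2 * (A + B) := by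
        have : K * β1 ≤ K * max 0 β1 := mul_le_mul_of_nonneg_left hβ1m hK0.le
        linarith only [k6, k7, k5, k1, this]
      have m2 : max 0 β ≤ K * max 0 β1 + CZ * (N3 + N2) * K * B + CD * K * N2 * (A + B) := by
        refine max_le ?_ m1
        (clear * - hCZ hN1 hD1 hCD hDn; positivity)
      have m3 : K * max 0 β1 + CZ * (N3 + N2) * K * B + CD * K * N2 * (A + B) + A ≤
          (K + CZ * (N3 + N2) * K + CD * N2 * K + 1) * (max 0 β1 + B + A) := by
        have e1 : 0 ≤ K * (B + A) := by (clear * - hD1 hDn; positivity)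
        have e2 : 0 ≤ CZ * (N3 + N2) * K * (max 0 β1 + A) := by (clear * - hCZ hN1 hDn; positivity)
        have e3 : 0 ≤ CD * N2 * K * max 0 β1 := by (clear * - hCD hN1; positivity)
        linarith only [hD1, hβ10, e1, e2, e3]
      have m4 : (K + CZ * (N3 + N2) * K + CD * N2 * K + 1) * (max 0 β1 + B + A) ≤
          C * (max 0 β1 + B + A) :=
        mul_le_mul_of_nonneg_right (by linarith only [hK0, c1, c2, c3, c5, c6]) (by (clear * - hD1 hDn; positivity))
      linarith only [m2, m3, m4]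
    · have k8 := PP E f hf hfc R hR n e' he' x hx _ N2 T2 (fun y hy => s2 y (by linarith only [hy]))
      rw [hmm, hB] at k8
      have k9 := (le_abs_self _).trans k8
      have m1 : (CP * N2 + CD * N2 * K) * (m + A + B) ≤ C * (m + A + B) :=
        mul_le_mul_of_nonneg_right (by linarith only [hK0, c1, c2, c3, c4, c5]) (by linarith only [hDn, hD1, hm1])
      refine max_le (mul_nonneg (by linarith only [hK0, c1, c2, c3, c4, c5, c6]) (by linarith only [hDn, hD1, hm1])) ?_
      rw [k5]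
      have e1 : 0 ≤ CP * N2 * A := by positivity
      have e2 : 0 ≤ CD * N2 * K * m := by positivity
      linarith only [k6, k9, m1, e1, e2]

end TG


end

section

/-!
# MODULE FM: change of frame (helper79)
-/

open MeasureTheory Metric Set TrI
open scoped InnerProductSpace ContDiff ENNReal

namespace TG

namespace FMAux

noncomputable section

variable {d : ℕ}

lemma lev_pos {s0 : ℝ} (h : 0 < s0) (i : ℕ) : 0 < lev s0 i := by
  unfold lev
  positivity

lemma lev_add (s0 : ℝ) (i r : ℕ) : lev s0 (i + r) = 2 ^ r * lev s0 i := by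
  unfold lev
  rw [pow_add]
  ring

lemma x_tw {s0 : ℝ} (h : 0 < s0) (Q P : Cell d) :
    xC s0 Q + lev s0 Q.1 • tw s0 Q P = xC s0 P := by
  unfold tw
  rw [smul_smul, mul_one_div_cancel (lev_pos h _).ne', one_smul]
  abel

lemma mQ_frame {E : Type} [NormedAddCommGroup E] [InnerProductSpace ℝ E]
    {s0 : ℝ} (h : 0 < s0) (f : Sp d → E) (e : E) (Q P : Cell d) (l : ℕ)
    (hP : P.1 = Q.1 + l) (y : Sp d) :
    mQ s0 f e P y = 2 ^ l * mQ s0 f e Q (tw s0 Q P + (2 : ℝ) ^ l • y) := by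
  unfold mQ rs
  rw [hP, lev_add, smul_add, smul_smul, ← add_assoc, x_tw h, real_inner_smul_left,
    real_inner_smul_left, mul_comm (lev s0 Q.1) (2 ^ l)]
  ring

lemma int_scale (g : Sp d → ℝ) (x : Sp d) {t : ℝ} (ht : 0 < t) :
    ∫ y, g (x + t • y) = 1 / t ^ d * ∫ y, g y := by
  have h1 := Measure.integral_comp_smul_of_nonneg (volume : Measure (Sp d))
    (fun w => g (x + w)) t (hR := ht.le)
  rw [h1, integral_add_left_eq_self g x, finrank_euclideanSpace_fin]
  simp

lemma finrank_perp {n : Sp d} (hn : ‖n‖ = 1) :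
    Module.finrank ℝ (Submodule.span ℝ {n})ᗮ = d - 1 := by
  have h0 : n ≠ 0 := by
    rintro rfl
    simp at hn
  have h1 := Submodule.finrank_add_finrank_orthogonal (Submodule.span ℝ {n})
  rw [finrank_span_singleton h0, finrank_euclideanSpace_fin] at h1
  omega

lemma plInt_scale {n : Sp d} (hn : ‖n‖ = 1) (x : Sp d) {t : ℝ} (ht : 0 < t) (s : ℝ)
    (F : Sp d → ℝ) :
    plInt n s (fun y => F (x + t • y)) = 1 / t ^ (d - 1) * plInt n (⟪n, x⟫_ℝ + t * s) F := by
  have hnn : ⟪n, n⟫_ℝ = 1 := by rw [real_inner_self_eq_norm_sq, hn, one_pow]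
  have hx : x - ⟪n, x⟫_ℝ • n ∈ (Submodule.span ℝ {n})ᗮ := by
    rw [Submodule.mem_orthogonal_singleton_iff_inner_right, inner_sub_right, inner_smul_right,
      hnn, mul_one, sub_self]
  set xT : (Submodule.span ℝ {n})ᗮ := ⟨x - ⟪n, x⟫_ℝ • n, hx⟩ with hxT
  set c := ⟪n, x⟫_ℝ + t * s with hc
  have h1 : ∀ y : (Submodule.span ℝ {n})ᗮ, F (x + t • (s • n + (y : Sp d))) =
      (fun w : (Submodule.span ℝ {n})ᗮ => F (c • n + ((xT + w : (Submodule.span ℝ {n})ᗮ) : Sp d)))
        (t • y) := by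
    intro y
    simp only
    congr 1
    rw [Submodule.coe_add, Submodule.coe_smul, hxT, hc]
    module
  unfold plInt
  simp_rw [h1]
  rw [Measure.integral_comp_smul_of_nonneg volume
    (fun w : (Submodule.span ℝ {n})ᗮ => F (c • n + ((xT + w : (Submodule.span ℝ {n})ᗮ) : Sp d))) t
    (hR := ht.le)]
  rw [integral_add_left_eq_self
    (fun w : (Submodule.span ℝ {n})ᗮ => F (c • n + (w : Sp d))) xT, finrank_perp hn]
  simp

lemma pow_id (hd : 1 ≤ d) (i : ℕ) : (2 : ℝ) ^ (i * (d - 1)) * (2 ^ i * (1 / (2 ^ i) ^ d)) = 1 := by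
  obtain ⟨k, rfl⟩ : ∃ k, d = k + 1 := ⟨d - 1, by omega⟩
  simp only [Nat.add_sub_cancel]
  rw [pow_mul, pow_succ]
  have h : ((2 : ℝ) ^ i) ≠ 0 := by positivity
  field_simp

/-- translation of the second order operators -/
lemma fderiv_tr (W : Sp d → ℝ) (x y : Sp d) :
    fderiv ℝ (fun z => W (x + z)) y = fderiv ℝ W (x + y) := by
  exact fderiv_comp_add_left (𝕜 := ℝ) (f := W) x

lemma itf_tr (W : Sp d → ℝ) (x y : Sp d) :
    iteratedFDeriv ℝ 2 (fun z => W (x + z)) y = iteratedFDeriv ℝ 2 W (x + y) := by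
  rw [iteratedFDeriv_comp_add_left]

lemma grad_tr (W : Sp d → ℝ) (x y : Sp d) :
    gradient (fun z => W (x + z)) y = gradient W (x + y) := by
  unfold gradient
  rw [fderiv_tr]

end

end FMAux

open _root_.TG.FMAux in
theorem stmtFM (hSC : StmtSC) (hSE : StmtSE) : StmtFM := by
  intro d hd C' hC' s0 hs0 i Q Q' hQ' x hx
  have hlQ : 0 < lev s0 Q.1 := lev_pos hs0 _
  have hlQ' : 0 < lev s0 Q'.1 := lev_pos hs0 _
  have h2i : (0 : ℝ) < 2 ^ i := by positivity
  have hm : ∀ (E : Type) [NormedAddCommGroup E] [InnerProductSpace ℝ E] (f : Sp d → E) (e : E)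
      (y : Sp d), mQ s0 f e Q' y = 2 ^ i * mQ s0 f e Q (x + (2 : ℝ) ^ i • y) := by
    intro E _ _ f e y
    rw [hx]
    exact mQ_frame hs0 f e Q Q' i hQ' y
  -- points and levels
  have hlev : lev s0 Q'.1 = lev s0 Q.1 * 2 ^ i := by
    rw [hQ', lev_add, mul_comm]
  have hpt : ∀ y : Sp d, xC s0 Q + lev s0 Q.1 • (x + (2 : ℝ) ^ i • y) =
      xC s0 Q' + lev s0 Q'.1 • y := by
    intro y
    rw [smul_add, smul_smul, ← add_assoc, hx, x_tw hs0, hlev]
  refine ⟨hm, ?_, ?_, ?_⟩
  · intro E _ _ f e ζ _ _ _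
    have h1 : ∀ y, mQ s0 f e Q' y * ζ (x + (2 : ℝ) ^ i • y) =
        2 ^ i * (fun z => mQ s0 f e Q z * ζ z) (x + (2 : ℝ) ^ i • y) := by
      intro y
      rw [hm E f e y]
      simp only
      ring
    simp_rw [h1]
    rw [integral_const_mul]
    have h0 := int_scale (fun z => mQ s0 f e Q z * ζ z) x h2i
    rw [h0]
    have h2 := pow_id (d := d) (by omega) i
    calc ∫ y, mQ s0 f e Q y * ζ y = 1 * ∫ y, mQ s0 f e Q y * ζ y := (one_mul _).symm
      _ = ((2 : ℝ) ^ (i * (d - 1)) * (2 ^ i * (1 / (2 ^ i) ^ d))) *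
          ∫ y, mQ s0 f e Q y * ζ y := by rw [h2]
      _ = _ := by ring
  · intro n s F hn
    rw [plInt_scale hn x h2i]
    have h1 : ⟪n, x⟫_ℝ + 2 ^ i * ((1 / 2 : ℝ) ^ i * (s - ⟪n, x⟫_ℝ)) = s := by
      rw [← mul_assoc, ← mul_pow]
      norm_num
    rw [h1, pow_mul, ← mul_assoc, mul_one_div_cancel (by positivity), one_mul]
  · intro μ hμ
    obtain ⟨hG, -, hvv, -, hK⟩ := (hSC d hd C' hC' (xC s0 Q) (lev s0 Q.1) hlQ).1 μ hμ
    obtain ⟨-, -, hvv', -, hK'⟩ := (hSC d hd C' hC' (xC s0 Q') (lev s0 Q'.1) hlQ').1 μ hμ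
    refine ⟨hG, ?_, ?_, ?_, ?_⟩
    · unfold muQ omC
      rw [hvv 1 0 one_pos, mul_one, smul_zero, add_zero]
    · unfold muQ omC
      rw [hvv _ x h2i, hx, x_tw hs0, hlev]
    · intro y
      unfold muQ
      rw [hvv' 1 y one_pos, hvv _ _ h2i, hpt, mul_one, hlev]
    · intro M β hβ ε hε hε1 n y
      have hGG : ∀ y, GG β ε (muQ s0 μ Q') 1 y =
          GG β ε (muQ s0 μ Q) (2 ^ i) (x + (2 : ℝ) ^ i • y) := by
        intro y
        unfold muQ
        rw [(hK' 2 M β hβ le_rfl ε hε hε1 1 y one_pos).1,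
          (hK 2 M β hβ le_rfl ε hε hε1 _ (x + (2 : ℝ) ^ i • y) h2i).1, hpt, mul_one, hlev]
      have hWW : i = 0 → ∀ y, WW β ε (muQ s0 μ Q') 1 y = WW β ε (muQ s0 μ Q) 1 (x + y) := by
        intro hi y
        have h1 := (hK' 2 M β hβ le_rfl ε hε hε1 1 y one_pos).2.1
        have h2 := (hK 2 M β hβ le_rfl ε hε hε1 _ (x + (2 : ℝ) ^ i • y) h2i).2.1
        rw [hpt, ← hlev] at h2
        rw [mul_one] at h1
        have h3 := h1.trans h2.symm
        subst hi
        rw [pow_zero, one_smul] at h3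
        have h4 : lev s0 Q'.1 = lev s0 Q.1 := by rw [hlev, pow_zero, mul_one]
        rw [h4] at h3
        unfold muQ
        rw [h4]
        exact mul_left_cancel₀ (by positivity) h3
      refine ⟨?_, hGG y, fun hi => hWW hi y, ?_⟩
      · unfold muQ
        rw [(hK' 2 M β hβ le_rfl ε hε hε1 1 y one_pos).2.2.1 n,
          (hK 2 M β hβ le_rfl ε hε hε1 _ (x + (2 : ℝ) ^ i • y) h2i).2.2.1 n, hpt, mul_one, hlev]
      · intro p0 A hp0 hA
        have hS := fun r y hr => hSE d hd C' hC' (xC s0 Q) (lev s0 Q.1) hlQ μ hμ M β hβ ε hε hε1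
          p0 A hp0 hA r y hr
        have hS' := fun r y hr => hSE d hd C' hC' (xC s0 Q') (lev s0 Q'.1) hlQ' μ hμ M β hβ ε hε
          hε1 p0 A hp0 hA r y hr
        have hU : i = 0 → ∀ y, Ups p0 A (muQ s0 μ Q') 1 y = Ups p0 A (muQ s0 μ Q) 1 (x + y) := by
          intro hi y
          have h1 := (hS' 1 y one_pos).2.1
          have h2 := (hS (2 ^ i) (x + (2 : ℝ) ^ i • y) h2i).2.1
          rw [hpt, ← hlev] at h2
          rw [mul_one] at h1
          have h3 := h1.trans h2.symm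
          subst hi
          rw [pow_zero, one_smul] at h3
          exact h3
        refine ⟨?_, fun hi => hU hi y, ?_, ?_⟩
        · unfold muQ
          rw [(hS' 1 y one_pos).1, (hS (2 ^ i) (x + (2 : ℝ) ^ i • y) h2i).1, hpt, mul_one, hlev]
        · intro hi hn
          have h1 := (hS' 1 y one_pos).2.2 n hn
          have h2 := (hS (2 ^ i) (x + (2 : ℝ) ^ i • y) h2i).2.2 n hn
          rw [hpt, ← hlev] at h2
          rw [mul_one] at h1
          have h3 := h1.trans h2.symm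
          subst hi
          rw [pow_zero, one_smul] at h3
          exact h3
        · intro hi k l
          have hUf : Ups p0 A (muQ s0 μ Q') 1 = fun y => Ups p0 A (muQ s0 μ Q) 1 (x + y) :=
            funext fun y => hU hi y
          have hWf : WW β ε (muQ s0 μ Q') 1 = fun y => WW β ε (muQ s0 μ Q) 1 (x + y) :=
            funext fun y => hWW hi y
          have hGf : GG β ε (muQ s0 μ Q') 1 y = GG β ε (muQ s0 μ Q) 1 (x + y) := by
            have := hGG y
            subst hi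
            rwa [pow_zero, one_smul] at this
          unfold HHm pd2 lap
          rw [hUf, hWf, hGf]
          simp only [itf_tr, grad_tr, fderiv_tr]

end TG


end

section

/-! types of cells -/

open Set TrI Filter
open scoped ENNReal Classical Topology

namespace TG

noncomputable section

variable {d : ℕ}

theorem sh_nonneg {F : Cell d → ℝ} (hF : ∀ Q, 0 ≤ F Q) (Q : Cell d) : 0 ≤ sh F Q :=
  tsum_nonneg (fun i => mul_nonneg (by positivity) (hF _))

theorem sh_shift {F : Cell d → ℝ} (hF : ∀ Q, 0 ≤ F Q) {B : ℝ} (hB : ∀ Q, F Q ≤ B) (s : ℕ)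
    (Q : Cell d) :
    Summable (fun l : ℕ => (2 : ℝ) ^ (-((l : ℝ) / 4)) * F (up (l + s) Q)) ∧
      ∑' l : ℕ, (2 : ℝ) ^ (-((l : ℝ) / 4)) * F (up (l + s) Q) ≤ (2 : ℝ) ^ ((s : ℝ) / 4) * sh F Q := by
  have hs := sh_summable hF hB Q
  have hs2 := (summable_nat_add_iff s).2 hs
  have e : (fun l : ℕ => (2 : ℝ) ^ (-((l : ℝ) / 4)) * F (up (l + s) Q)) =
      fun l : ℕ => (2 : ℝ) ^ ((s : ℝ) / 4) *
        ((2 : ℝ) ^ (-(((l + s : ℕ) : ℝ) / 4)) * F (up (l + s) Q)) := by
    funext l
    rw [← mul_assoc, ← Real.rpow_add (by norm_num)]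
    congr 2
    push_cast; ring
  rw [e]
  refine ⟨hs2.mul_left _, ?_⟩
  rw [tsum_mul_left]
  apply mul_le_mul_of_nonneg_left _ (by positivity)
  have h1 := hs.sum_add_tsum_nat_add s
  have h2 : 0 ≤ ∑ i ∈ Finset.range s, (2 : ℝ) ^ (-((i : ℝ) / 4)) * F (up i Q) :=
    Finset.sum_nonneg (fun i _ => mul_nonneg (by positivity) (hF _))
  unfold sh
  linarith only [h1, h2]

theorem ncard_window {κ0 x y R : ℝ} {n nI : ℕ} (hκ : 0 < κ0) (hx : 0 < x) (hR : 0 < R)
    (hnI : R ^ 2 < 2 ^ nI) (hy : 0 < y) (S : Set ℕ)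
    (hS : ∀ j ∈ S, j < n ∧ x ≤ R * (κ0 * (1 / 2) ^ j * y) ∧ κ0 * (1 / 2) ^ j * y ≤ R * x) :
    S.ncard ≤ nI := by
  rcases S.eq_empty_or_nonempty with hE | hne
  · rw [hE, Set.ncard_empty]; exact Nat.zero_le _
  set j0 := sInf S with hj0
  have hj0S : j0 ∈ S := Nat.sInf_mem hne
  have hsub : S ⊆ ((Finset.Ico j0 (j0 + nI) : Finset ℕ) : Set ℕ) := by
    intro j hj
    have h1 : j0 ≤ j := Nat.sInf_le hj
    rw [Finset.coe_Ico, mem_Ico]
    refine ⟨h1, ?_⟩
    by_contra hcon
    rw [not_lt] at hcon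
    obtain ⟨-, h2, -⟩ := hS j hj
    obtain ⟨-, -, h3⟩ := hS j0 hj0S
    have h4 : κ0 * (1 / 2) ^ j * y ≤ κ0 * (1 / 2) ^ (j0 + nI) * y := by
      have : ((1 : ℝ) / 2) ^ j ≤ (1 / 2) ^ (j0 + nI) :=
        pow_le_pow_of_le_one (by norm_num) (by norm_num) hcon
      gcongr
    have h5 : κ0 * (1 / 2) ^ (j0 + nI) * y = (κ0 * (1 / 2) ^ j0 * y) * (1 / 2) ^ nI := by ring
    have h6 : x ≤ R * ((R * x) * (1 / 2) ^ nI) := by
      calc x ≤ R * (κ0 * (1 / 2) ^ j * y) := h2
        _ ≤ R * ((κ0 * (1 / 2) ^ j0 * y) * (1 / 2) ^ nI) := by rw [← h5]; gcongr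
        _ ≤ _ := by gcongr
    have h7 : R * ((R * x) * (1 / 2) ^ nI) = x * (R ^ 2 * (1 / 2) ^ nI) := by ring
    have h8 : R ^ 2 * (1 / 2) ^ nI < 1 := by
      have : (2 : ℝ) ^ nI * (1 / 2) ^ nI = 1 := by
        rw [← mul_pow]; norm_num
      calc R ^ 2 * (1 / 2) ^ nI < 2 ^ nI * (1 / 2) ^ nI := by
            apply mul_lt_mul_of_pos_right hnI (by positivity)
        _ = 1 := this
    rw [h7] at h6
    nlinarith only [h6, hx, h8]
  calc S.ncard ≤ ((Finset.Ico j0 (j0 + nI) : Finset ℕ) : Set ℕ).ncard :=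
        Set.ncard_le_ncard hsub (Finset.finite_toSet _)
    _ = nI := by
        rw [Set.ncard_coe_finset, Nat.card_Ico]; omega

theorem exists_top {γ : ℝ} (hγ : 0 < γ) {at' : Cell d → ℝ} (hat : ∀ Q, 0 ≤ at' Q)
    (hB : ∃ B, ∀ Q, at' Q ≤ B) (Q : Cell d) :
    ∃ i : ℕ, ∀ l : ℕ, (2 : ℝ) ^ (-(γ * l)) * at' (up l Q) ≤
      (2 : ℝ) ^ (-(γ * i)) * at' (up i Q) := by
  obtain ⟨B, hB⟩ := hB
  by_cases hz : ∀ l : ℕ, (2 : ℝ) ^ (-(γ * l)) * at' (up l Q) ≤
      (2 : ℝ) ^ (-(γ * (0 : ℕ))) * at' (up 0 Q)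
  · exact ⟨0, hz⟩
  push Not at hz
  obtain ⟨l0, hl0⟩ := hz
  set f : ℕ → ℝ := fun l => (2 : ℝ) ^ (-(γ * l)) * at' (up l Q) with hf
  have hpos : 0 < f l0 := lt_of_le_of_lt (by
    have := hat (up 0 Q); positivity) hl0
  have hlim : Tendsto f atTop (𝓝 0) := by
    have h1 : Tendsto (fun l : ℕ => ((2 : ℝ) ^ (-γ)) ^ l * B) atTop (𝓝 (0 * B)) := by
      apply Tendsto.mul_const
      apply tendsto_pow_atTop_nhds_zero_of_lt_one (by positivity)
      exact Real.rpow_lt_one_of_one_lt_of_neg (by norm_num) (by linarith)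
    rw [zero_mul] at h1
    apply squeeze_zero _ _ h1
    · intro l; have := hat (up l Q); simp only [hf]; positivity
    · intro l
      simp only [hf]
      have e : (2 : ℝ) ^ (-(γ * l)) = ((2 : ℝ) ^ (-γ)) ^ l := by
        rw [← Real.rpow_natCast, ← Real.rpow_mul (by norm_num)]
        congr 1; ring
      rw [e]
      exact mul_le_mul_of_nonneg_left (hB _) (by positivity)
  obtain ⟨N, hN⟩ := (hlim.eventually (gt_mem_nhds hpos)).exists_forall_of_atTop
  -- maximum over the finite range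
  obtain ⟨i, hi, him⟩ := Finset.exists_max_image (Finset.range (max N (l0 + 1))) f
    ⟨l0, Finset.mem_range.2 (by omega)⟩
  refine ⟨i, ?_⟩
  intro l
  by_cases hl : l < max N (l0 + 1)
  · exact him l (Finset.mem_range.2 hl)
  · have h1 : N ≤ l := by omega
    have h2 := hN l h1
    have h3 := him l0 (Finset.mem_range.2 (by omega))
    exact h2.le.trans h3

theorem stmtTY : StmtTY := by
  intro C1 J e
  by_cases hC1 : 1 ≤ C1
  swap
  · refine ⟨1, le_rfl, ?_⟩
    intro θ hθ hθ1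
    refine ⟨1, 0, one_pos, ?_⟩
    intro K hK d0 hd0 hd01
    refine ⟨d0, hd0, le_rfl, ?_⟩
    intro d γ hγ hγ8 nb a ah at' D b hR
    exact absurd hR.C1_one hC1
  have hC10 : 0 < C1 := by linarith
  set Cθ : ℝ := 2 * C1 ^ 2 * 2 ^ J with hCθ
  have hCθ1 : 1 ≤ Cθ := by
    have h1 : 1 ≤ C1 ^ 2 := one_le_pow₀ hC1
    have h2 : (1 : ℝ) ≤ 2 ^ J := one_le_pow₀ (by norm_num)
    rw [hCθ]; nlinarith only [h1, h2]
  refine ⟨Cθ, hCθ1, ?_⟩
  intro θ hθ hθ1
  set Ca : ℝ := 2 * C1 ^ 2 * 2 ^ J / θ with hCa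
  set Cs : ℝ := 3 * C1 ^ 2 * (2 : ℝ) ^ (((J + e : ℕ) : ℝ) / 4) + 1 with hCs
  have hCa0 : 0 < Ca := by positivity
  have hCs0 : 0 < Cs := by positivity
  set C : ℝ := Ca + Cs with hC
  have hCpos : 0 < C := by positivity
  obtain ⟨nI, hnI⟩ : ∃ nI : ℕ, (C * C) ^ 2 < 2 ^ nI := pow_unbounded_of_one_lt _ (by norm_num)
  refine ⟨C, nI, hCpos, ?_⟩
  intro K hK d0 hd0 hd01
  set d1 : ℝ := d0 * θ / (2 * C1 ^ 3 * (2 : ℝ) ^ (J + e)) with hd1
  have hp2 : (1 : ℝ) ≤ 2 ^ (J + e) := one_le_pow₀ (by norm_num)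
  have hC13 : 1 ≤ C1 ^ 3 := one_le_pow₀ hC1
  have hd1pos : 0 < d1 := by positivity
  have hden : 1 ≤ 2 * C1 ^ 3 * (2 : ℝ) ^ (J + e) := by nlinarith only [hp2, hC13]
  have hd1le : d1 ≤ d0 := by
    rw [hd1, div_le_iff₀ (by positivity)]
    have : d0 * θ ≤ d0 * 1 := by gcongr
    nlinarith only [this, hd0, hden]
  refine ⟨d1, hd1pos, hd1le, ?_⟩
  intro d γ hγ hγ8 nb a ah at' D b hR
  obtain ⟨BD, hBD⟩ := hR.D_bd
  obtain ⟨Bb, hBb⟩ := hR.b_bd
  have hdd : d1 * (2 * C1 ^ 3 * (2 : ℝ) ^ (J + e)) = d0 * θ := by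
    rw [hd1]; field_simp
  -- part 1
  have part1 : ∀ Q, Q ∉ WL γ θ ah at' → 0 < ah Q ∧
      ∀ l : ℕ, θ * at' (up l Q) ≤ (2 : ℝ) ^ (γ * l) * ah Q := by
    intro Q hQ
    obtain ⟨i, hi⟩ := exists_top hγ hR.at_nonneg hR.at_bd Q
    have h1 : ¬ ah Q ≤ θ * ((2 : ℝ) ^ (-(γ * i)) * at' (up i Q)) := fun h => hQ ⟨i, hi, h⟩
    rw [not_le] at h1
    have h0 : 0 ≤ at' (up i Q) := hR.at_nonneg _
    refine ⟨lt_of_le_of_lt (by (clear * - hθ h0; positivity)) h1, ?_⟩
    intro l
    have h2 := hi l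
    have e2 : (2 : ℝ) ^ (γ * l) * (2 : ℝ) ^ (-(γ * l)) = 1 := by
      rw [← Real.rpow_add (by norm_num)]; simp
    calc θ * at' (up l Q) = θ * ((2 : ℝ) ^ (γ * l) * ((2 : ℝ) ^ (-(γ * l)) * at' (up l Q))) := by
          rw [← mul_assoc ((2 : ℝ) ^ (γ * l)), e2, one_mul]
      _ ≤ θ * ((2 : ℝ) ^ (γ * l) * ((2 : ℝ) ^ (-(γ * i)) * at' (up i Q))) := by (clear * - h2 hθ; gcongr)
      _ = (2 : ℝ) ^ (γ * l) * (θ * ((2 : ℝ) ^ (-(γ * i)) * at' (up i Q))) := by ring
      _ ≤ _ := by (clear * - h1; gcongr)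
  -- part 2
  have h2J : ∀ (s : ℕ), s ≤ J + e → (2 : ℝ) ^ ((s : ℝ) / 8) ≤ 2 ^ (J + e) := by
    intro s hs
    rw [← Real.rpow_natCast]
    apply Real.rpow_le_rpow_of_exponent_le (by norm_num)
    have : (s : ℝ) ≤ ((J + e : ℕ) : ℝ) := by exact_mod_cast hs
    have h0 : (0 : ℝ) ≤ ((J + e : ℕ) : ℝ) := Nat.cast_nonneg _
    have h1 : (0 : ℝ) ≤ (s : ℝ) := Nat.cast_nonneg _
    linarith only [this]
  have part2 : ∀ Q ∈ Solid γ θ d1 a ah at' D, ∀ Q' ∈ nb Q,
      Q' ∈ Strc γ K d0 a at' D ∧ a Q' ≤ C * a Q ∧ a Q ≤ C * a Q' ∧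
      sh b Q' + sh D Q' ≤ C * (sh b Q + sh D Q) ∧
      sh b Q + sh D Q ≤ C * (sh b Q' + sh D Q') := by
    intro Q hQ Q' hQ'
    obtain ⟨hW, hDc⟩ := hQ
    obtain ⟨hah, hgr⟩ := part1 Q hW
    obtain ⟨hl1, hl2⟩ := hR.lev Q Q' hQ'
    set i := Q'.1 - Q.1 with hi
    have hiJ : i ≤ J := by omega
    have haQ : a Q ≤ C1 / θ * ah Q := by
      have h1 := hgr 0
      rw [up_zero] at h1
      simp only [Nat.cast_zero, mul_zero, Real.rpow_zero, one_mul] at h1
      have h2 := hR.a_le Q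
      calc a Q ≤ C1 * at' Q := h2
        _ = C1 / θ * (θ * at' Q) := by field_simp
        _ ≤ _ := by (clear * - h1 hC1 hθ; gcongr)
    have hDJ : C1 * D (up (J + e) Q) ≤ ah Q / 2 := by
      have h1 := hDc (J + e)
      have h2 := h2J (J + e) le_rfl
      have h3 := hR.a_nonneg Q
      calc C1 * D (up (J + e) Q)
          ≤ C1 * (d1 * (2 : ℝ) ^ (((J + e : ℕ) : ℝ) / 8) * a Q) := by (clear * - h1 hC1; gcongr)
        _ ≤ C1 * (d1 * 2 ^ (J + e) * (C1 / θ * ah Q)) := by (clear * - h2 hd0 hθ hC1 haQ h3; gcongr)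
        _ = (d1 * (2 * C1 ^ 3 * (2 : ℝ) ^ (J + e))) * (ah Q / (2 * C1 * θ)) := by
            field_simp
        _ = d0 * (ah Q / (2 * C1)) := by rw [hdd]; field_simp
        _ ≤ 1 * (ah Q / (2 * 1)) := by (clear * - hd01 hah hC1; gcongr)
        _ = _ := by ring
    have hm := hR.m1 Q Q' hQ'
    have hahQ' : ah Q ≤ 2 * C1 * a Q' := by linarith only [hDJ, hm]
    have haQ'0 : 0 < a Q' := by
      have : 0 < 2 * C1 * a Q' := lt_of_lt_of_le hah hahQ'
      exact (pos_iff_pos_of_mul_pos this).1 (by positivity)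
    have h2γ : (2 : ℝ) ^ (γ * i) ≤ 2 ^ J := by
      rw [← Real.rpow_natCast]
      apply Real.rpow_le_rpow_of_exponent_le (by norm_num)
      have h1 : (i : ℝ) ≤ J := by exact_mod_cast hiJ
      have h0 : (0 : ℝ) ≤ i := Nat.cast_nonneg _
      nlinarith only [h1, hγ8]
    have hθ' : ∀ l : ℕ, at' (up l Q) ≤ (2 : ℝ) ^ (γ * l) * ah Q / θ := by
      intro l
      rw [le_div_iff₀ hθ]
      have := hgr l
      linarith only [this]
    refine ⟨⟨haQ'0, ?_, ?_⟩, ?_, ?_, ?_, ?_⟩
    · intro l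
      have h1 := hR.at1 Q Q' hQ' l
      rw [← hi] at h1
      have h3 : (2 : ℝ) ^ (γ * ((i + l : ℕ) : ℝ)) = (2 : ℝ) ^ (γ * i) * (2 : ℝ) ^ (γ * l) := by
        rw [← Real.rpow_add (by norm_num)]; congr 1; push_cast; ring
      have h4 := hθ' (i + l)
      rw [h3] at h4
      have hK' : 2 * C1 ^ 2 * 2 ^ J ≤ K * θ := by
        rw [hCa, div_le_iff₀ hθ] at hK; exact hK
      calc at' (up l Q') ≤ C1 * at' (up (i + l) Q) := h1
        _ ≤ C1 * ((2 : ℝ) ^ (γ * i) * (2 : ℝ) ^ (γ * l) * ah Q / θ) := by (clear * - h4 hC1; gcongr)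
        _ ≤ C1 * (2 ^ J * (2 : ℝ) ^ (γ * l) * (2 * C1 * a Q') / θ) := by (clear * - h2γ hahQ' hah hθ hC1; gcongr)
        _ = (2 * C1 ^ 2 * 2 ^ J) * ((2 : ℝ) ^ (γ * l) * a Q' / θ) := by ring
        _ ≤ (K * θ) * ((2 : ℝ) ^ (γ * l) * a Q' / θ) := by (clear * - hK' haQ'0 hθ; gcongr)
        _ = _ := by field_simp
    · intro l
      have h1 := hR.D1 Q Q' hQ' l
      rw [← hi] at h1
      have h2 := hDc (i + l + e)
      have h3 : (2 : ℝ) ^ (((i + l + e : ℕ) : ℝ) / 8) =
          (2 : ℝ) ^ (((i + e : ℕ) : ℝ) / 8) * (2 : ℝ) ^ ((l : ℝ) / 8) := by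
        rw [← Real.rpow_add (by norm_num)]; congr 1; push_cast; ring
      rw [h3] at h2
      have h4 := h2J (i + e) (by omega)
      calc D (up l Q') ≤ C1 * D (up (i + l + e) Q) := h1
        _ ≤ C1 * (d1 * ((2 : ℝ) ^ (((i + e : ℕ) : ℝ) / 8) * (2 : ℝ) ^ ((l : ℝ) / 8)) * a Q) := by
            (clear * - h2 hC1; gcongr)
        _ ≤ C1 * (d1 * (2 ^ (J + e) * (2 : ℝ) ^ ((l : ℝ) / 8)) *
            (C1 / θ * (2 * C1 * a Q'))) := by
            have : a Q ≤ C1 / θ * (2 * C1 * a Q') := haQ.trans (by (clear * - hahQ' hC1 hθ; gcongr))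
            have := hR.a_nonneg Q
            gcongr
        _ = (d1 * (2 * C1 ^ 3 * (2 : ℝ) ^ (J + e))) * ((2 : ℝ) ^ ((l : ℝ) / 8) * a Q' / θ) := by
            ring
        _ = (d0 * θ) * ((2 : ℝ) ^ ((l : ℝ) / 8) * a Q' / θ) := by rw [hdd]
        _ = _ := by field_simp
    · -- a Q' ≤ C a Q
      have h1 := hR.at1 Q Q' hQ' 0
      rw [← hi, up_zero, add_zero] at h1
      have h2 := hθ' i
      have h3 := hR.ah_le Q
      calc a Q' ≤ C1 * at' Q' := hR.a_le Q'
        _ ≤ C1 * (C1 * ((2 : ℝ) ^ (γ * i) * ah Q / θ)) := by gcongr; exact h1.trans (by gcongr)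
        _ ≤ C1 * (C1 * (2 ^ J * a Q / θ)) := by (clear * - h2γ h3 hah hθ hC1; gcongr)
        _ = (C1 ^ 2 * 2 ^ J / θ) * a Q := by ring
        _ ≤ C * a Q := by
            have h5 := hR.a_nonneg Q
            have h6 : C1 ^ 2 * 2 ^ J / θ ≤ C := by
              rw [hC, hCa]
              have : 0 ≤ C1 ^ 2 * 2 ^ J / θ := by positivity
              have e9 : 2 * C1 ^ 2 * 2 ^ J / θ = 2 * (C1 ^ 2 * 2 ^ J / θ) := by ring
              rw [e9]; linarith only [hCa0, hCs0, e9]
            (clear * - h6 h5; gcongr)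
    · -- a Q ≤ C a Q'
      calc a Q ≤ C1 / θ * ah Q := haQ
        _ ≤ C1 / θ * (2 * C1 * a Q') := by gcongr
        _ = (2 * C1 ^ 2 / θ) * a Q' := by ring
        _ ≤ C * a Q' := by
            have h6 : 2 * C1 ^ 2 / θ ≤ C := by
              rw [hC, hCa]
              have h7 : (1 : ℝ) ≤ 2 ^ J := one_le_pow₀ (by norm_num)
              have h8 : 2 * C1 ^ 2 / θ ≤ 2 * C1 ^ 2 * 2 ^ J / θ := by
                apply div_le_div_of_nonneg_right _ hθ.le
                nlinarith only [h7]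
              linarith only [hCs0, h8]
            (clear * - h6 haQ'0; gcongr)
    · -- sh Q' ≤ C sh Q
      obtain ⟨sb1, sb2⟩ := sh_shift hR.b_nonneg hBb (i + e) Q
      obtain ⟨sd1, sd2⟩ := sh_shift hR.D_nonneg hBD (i + e) Q
      have hshb := sh_nonneg hR.b_nonneg Q
      have hshD := sh_nonneg hR.D_nonneg Q
      have hD' : sh D Q' ≤ C1 * ((2 : ℝ) ^ (((i + e : ℕ) : ℝ) / 4) * sh D Q) := by
        calc sh D Q' ≤ ∑' l : ℕ, C1 * ((2 : ℝ) ^ (-((l : ℝ) / 4)) * D (up (l + (i + e)) Q)) := by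
              apply Summable.tsum_le_tsum _ (sh_summable hR.D_nonneg hBD Q') (sd1.mul_left C1)
              intro l
              have h1 := hR.D1 Q Q' hQ' l
              rw [← hi] at h1
              have e1 : i + l + e = l + (i + e) := by omega
              rw [e1] at h1
              calc (2 : ℝ) ^ (-((l : ℝ) / 4)) * D (up l Q')
                  ≤ (2 : ℝ) ^ (-((l : ℝ) / 4)) * (C1 * D (up (l + (i + e)) Q)) := by gcongr
                _ = _ := by ring
          _ = C1 * ∑' l : ℕ, (2 : ℝ) ^ (-((l : ℝ) / 4)) * D (up (l + (i + e)) Q) := tsum_mul_left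
          _ ≤ _ := by (clear * - sd2 hC1; gcongr)
      have hb' : sh b Q' ≤ C1 * ((2 : ℝ) ^ (((i + e : ℕ) : ℝ) / 4) * (sh b Q + sh D Q))
          + C1 * sh D Q' := by
        calc sh b Q' ≤ ∑' l : ℕ, (C1 * ((2 : ℝ) ^ (-((l : ℝ) / 4)) * b (up (l + (i + e)) Q)) +
                C1 * ((2 : ℝ) ^ (-((l : ℝ) / 4)) * D (up (l + (i + e)) Q)) +
                C1 * ((2 : ℝ) ^ (-((l : ℝ) / 4)) * D (up l Q'))) := by
              apply Summable.tsum_le_tsum _ (sh_summable hR.b_nonneg hBb Q')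
                (((sb1.mul_left C1).add (sd1.mul_left C1)).add
                  ((sh_summable hR.D_nonneg hBD Q').mul_left C1))
              intro l
              have h1 := hR.b1 Q Q' hQ' l
              rw [← hi] at h1
              have e1 : i + l + e = l + (i + e) := by omega
              rw [e1] at h1
              calc (2 : ℝ) ^ (-((l : ℝ) / 4)) * b (up l Q')
                  ≤ (2 : ℝ) ^ (-((l : ℝ) / 4)) * (C1 * (b (up (l + (i + e)) Q) +
                    D (up (l + (i + e)) Q) + D (up l Q'))) := by (clear * - h1; gcongr)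
                _ = _ := by ring
          _ = C1 * (∑' l : ℕ, (2 : ℝ) ^ (-((l : ℝ) / 4)) * b (up (l + (i + e)) Q)) +
              C1 * (∑' l : ℕ, (2 : ℝ) ^ (-((l : ℝ) / 4)) * D (up (l + (i + e)) Q)) +
              C1 * sh D Q' := by
              rw [Summable.tsum_add ((sb1.mul_left C1).add (sd1.mul_left C1))
                ((sh_summable hR.D_nonneg hBD Q').mul_left C1),
                Summable.tsum_add (sb1.mul_left C1) (sd1.mul_left C1), tsum_mul_left,
                tsum_mul_left, tsum_mul_left]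
              rfl
          _ ≤ C1 * ((2 : ℝ) ^ (((i + e : ℕ) : ℝ) / 4) * sh b Q) +
              C1 * ((2 : ℝ) ^ (((i + e : ℕ) : ℝ) / 4) * sh D Q) + C1 * sh D Q' := by (clear * - sb2 hC1 sd2; gcongr)
          _ = _ := by ring
      have h2e : (2 : ℝ) ^ (((i + e : ℕ) : ℝ) / 4) ≤ (2 : ℝ) ^ (((J + e : ℕ) : ℝ) / 4) := by
        apply Real.rpow_le_rpow_of_exponent_le (by norm_num)
        have : ((i + e : ℕ) : ℝ) ≤ ((J + e : ℕ) : ℝ) := by exact_mod_cast (by omega)
        linarith only [this]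
      set T : ℝ := (2 : ℝ) ^ (((J + e : ℕ) : ℝ) / 4) with hT
      have hT0 : 0 < T := by positivity
      have hD'' : sh D Q' ≤ C1 * (T * sh D Q) := hD'.trans (by (clear * - h2e hshD hC1; gcongr))
      have hb'' : sh b Q' ≤ C1 * (T * (sh b Q + sh D Q)) + C1 * (C1 * (T * sh D Q)) :=
        hb'.trans (by gcongr)
      have hX : 0 ≤ T * sh D Q := by (clear * - hshD; positivity)
      have hY : 0 ≤ T * sh b Q := by (clear * - hshb; positivity)
      calc sh b Q' + sh D Q' ≤ C1 * (T * (sh b Q + sh D Q)) + C1 * (C1 * (T * sh D Q))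
            + C1 * (T * sh D Q) := by linarith only [hD'', hb'']
        _ ≤ 3 * C1 ^ 2 * T * (sh b Q + sh D Q) := by
            have i1 : C1 * (T * sh D Q) ≤ C1 ^ 2 * (T * sh D Q) := by
              apply mul_le_mul_of_nonneg_right _ hX; nlinarith only [hC1]
            have i2 : C1 * (T * sh b Q) ≤ C1 ^ 2 * (T * sh b Q) := by
              apply mul_le_mul_of_nonneg_right _ hY; nlinarith only [hC1]
            have i3 : 0 ≤ C1 ^ 2 * (T * sh b Q) := by positivity
            nlinarith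
        _ ≤ C * (sh b Q + sh D Q) := by
            have : 3 * C1 ^ 2 * T ≤ C := by rw [hC, hCs]; linarith
            gcongr
    · -- sh Q ≤ C sh Q'
      obtain ⟨sb1, sb2⟩ := sh_shift hR.b_nonneg hBb e Q'
      obtain ⟨sd1, sd2⟩ := sh_shift hR.D_nonneg hBD e Q'
      have hshb := sh_nonneg hR.b_nonneg Q'
      have hshD := sh_nonneg hR.D_nonneg Q'
      have hD' : sh D Q ≤ C1 * ((2 : ℝ) ^ ((e : ℝ) / 4) * sh D Q') := by
        calc sh D Q ≤ ∑' l : ℕ, C1 * ((2 : ℝ) ^ (-((l : ℝ) / 4)) * D (up (l + e) Q')) := by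
              apply Summable.tsum_le_tsum _ (sh_summable hR.D_nonneg hBD Q) (sd1.mul_left C1)
              intro l
              have h1 := hR.D2 Q Q' hQ' l
              calc (2 : ℝ) ^ (-((l : ℝ) / 4)) * D (up l Q)
                  ≤ (2 : ℝ) ^ (-((l : ℝ) / 4)) * (C1 * D (up (l + e) Q')) := by (clear * - h1; gcongr)
                _ = _ := by ring
          _ = C1 * ∑' l : ℕ, (2 : ℝ) ^ (-((l : ℝ) / 4)) * D (up (l + e) Q') := tsum_mul_left
          _ ≤ _ := by (clear * - sd2 hC1; gcongr)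
      have hb' : sh b Q ≤ C1 * ((2 : ℝ) ^ ((e : ℝ) / 4) * (sh b Q' + sh D Q'))
          + C1 * sh D Q := by
        calc sh b Q ≤ ∑' l : ℕ, (C1 * ((2 : ℝ) ^ (-((l : ℝ) / 4)) * b (up (l + e) Q')) +
                C1 * ((2 : ℝ) ^ (-((l : ℝ) / 4)) * D (up (l + e) Q')) +
                C1 * ((2 : ℝ) ^ (-((l : ℝ) / 4)) * D (up l Q))) := by
              apply Summable.tsum_le_tsum _ (sh_summable hR.b_nonneg hBb Q)
                (((sb1.mul_left C1).add (sd1.mul_left C1)).add
                  ((sh_summable hR.D_nonneg hBD Q).mul_left C1))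
              intro l
              have h1 := hR.b2 Q Q' hQ' l
              calc (2 : ℝ) ^ (-((l : ℝ) / 4)) * b (up l Q)
                  ≤ (2 : ℝ) ^ (-((l : ℝ) / 4)) * (C1 * (b (up (l + e) Q') +
                    D (up (l + e) Q') + D (up l Q))) := by (clear * - h1; gcongr)
                _ = _ := by ring
          _ = C1 * (∑' l : ℕ, (2 : ℝ) ^ (-((l : ℝ) / 4)) * b (up (l + e) Q')) +
              C1 * (∑' l : ℕ, (2 : ℝ) ^ (-((l : ℝ) / 4)) * D (up (l + e) Q')) +
              C1 * sh D Q := by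
              rw [Summable.tsum_add ((sb1.mul_left C1).add (sd1.mul_left C1))
                ((sh_summable hR.D_nonneg hBD Q).mul_left C1),
                Summable.tsum_add (sb1.mul_left C1) (sd1.mul_left C1), tsum_mul_left,
                tsum_mul_left, tsum_mul_left]
              rfl
          _ ≤ C1 * ((2 : ℝ) ^ ((e : ℝ) / 4) * sh b Q') +
              C1 * ((2 : ℝ) ^ ((e : ℝ) / 4) * sh D Q') + C1 * sh D Q := by (clear * - sb2 hC1 sd2; gcongr)
          _ = _ := by ring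
      have h2e : (2 : ℝ) ^ ((e : ℝ) / 4) ≤ (2 : ℝ) ^ (((J + e : ℕ) : ℝ) / 4) := by
        apply Real.rpow_le_rpow_of_exponent_le (by norm_num)
        have : (e : ℝ) ≤ ((J + e : ℕ) : ℝ) := by exact_mod_cast (by omega)
        linarith only [this]
      set T : ℝ := (2 : ℝ) ^ (((J + e : ℕ) : ℝ) / 4) with hT
      have hT0 : 0 < T := by positivity
      have hD'' : sh D Q ≤ C1 * (T * sh D Q') := hD'.trans (by (clear * - h2e hshD hC1; gcongr))
      have hb'' : sh b Q ≤ C1 * (T * (sh b Q' + sh D Q')) + C1 * (C1 * (T * sh D Q')) :=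
        hb'.trans (by (clear * - h2e hshb hshD hC1 hD''; gcongr))
      have hX : 0 ≤ T * sh D Q' := by positivity
      have hY : 0 ≤ T * sh b Q' := by positivity
      calc sh b Q + sh D Q ≤ C1 * (T * (sh b Q' + sh D Q')) + C1 * (C1 * (T * sh D Q'))
            + C1 * (T * sh D Q') := by linarith only [hD'', hb'']
        _ ≤ 3 * C1 ^ 2 * T * (sh b Q' + sh D Q') := by
            have i1 : C1 * (T * sh D Q') ≤ C1 ^ 2 * (T * sh D Q') := by
              apply mul_le_mul_of_nonneg_right _ hX; nlinarith only [hC1]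
            have i2 : C1 * (T * sh b Q') ≤ C1 ^ 2 * (T * sh b Q') := by
              apply mul_le_mul_of_nonneg_right _ hY; nlinarith only [hC1]
            have i3 : 0 ≤ C1 ^ 2 * (T * sh b Q') := by positivity
            nlinarith
        _ ≤ C * (sh b Q' + sh D Q') := by
            have : 3 * C1 ^ 2 * T ≤ C := by rw [hC, hCs]; linarith
            gcongr
  refine ⟨part1, part2, ?_, ?_⟩
  · -- number of interface indices
    intro κ0 hκ0 n Q hQ
    have hself := part2 Q hQ Q (hR.self Q)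
    have haQ : 0 < a Q := hself.1.1
    set s := sh b Q + sh D Q with hs
    have hs0 : 0 ≤ s := add_nonneg (sh_nonneg hR.b_nonneg Q) (sh_nonneg hR.D_nonneg Q)
    have hC1' : 1 ≤ C := by
      have := hself.2.1
      by_contra hcon
      rw [not_le] at hcon
      nlinarith only [hself, haQ, hcon]
    -- every index of the set has threshold in the window
    have hwin : ∀ j ∈ {j | j < n ∧ Q ∉ Intr (κ0 * (1 / 2) ^ j) a D b nb},
        j < n ∧ s ≤ (C * C) * (κ0 * (1 / 2) ^ j * a Q) ∧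
          κ0 * (1 / 2) ^ j * a Q ≤ (C * C) * s := by
      intro j hj
      obtain ⟨hjn, hI⟩ := hj
      refine ⟨hjn, ?_⟩
      set κ := κ0 * (1 / 2) ^ j with hκdef
      have hκ : 0 < κ := by positivity
      simp only [Intr, mem_ofPred_eq, not_or, not_forall, not_not] at hI
      obtain ⟨⟨Q1, hQ1, hB1⟩, ⟨Q2, hQ2, hA2⟩⟩ := hI
      obtain ⟨-, p1, p2, p3, p4⟩ := part2 Q hQ Q1 hQ1
      obtain ⟨-, q1, q2, q3, q4⟩ := part2 Q hQ Q2 hQ2
      simp only [TyA, mem_ofPred_eq, not_le] at hB1 hA2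
      constructor
      · calc s ≤ C * (sh b Q2 + sh D Q2) := q4
          _ ≤ C * (κ * a Q2) := by gcongr
          _ ≤ C * (κ * (C * a Q)) := by (clear * - q1 hκ0 hC1 hθ; gcongr)
          _ = _ := by ring
      · calc κ * a Q ≤ κ * (C * a Q1) := by (clear * - p2 hκ0; gcongr)
          _ = C * (κ * a Q1) := by ring
          _ ≤ C * (sh b Q1 + sh D Q1) := by (clear * - hB1 hC1 hθ; gcongr)
          _ ≤ C * (C * s) := by (clear * - p3 hC1 hθ; gcongr)
          _ = _ := by ring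
    rcases hs0.lt_or_eq with hs1 | hs1
    · exact ncard_window hκ0 hs1 (by positivity) hnI haQ _ hwin
    · have hE : {j | j < n ∧ Q ∉ Intr (κ0 * (1 / 2) ^ j) a D b nb} = ∅ := by
        rw [Set.eq_empty_iff_forall_notMem]
        intro j hj
        obtain ⟨-, -, h3⟩ := hwin j hj
        rw [← hs1, mul_zero] at h3
        have : 0 < κ0 * (1 / 2) ^ j * a Q := by positivity
        linarith only [h3, this]
      rw [hE, Set.ncard_empty]
      exact Nat.zero_le _
  · -- tops of class III are solid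
    intro κ δ m TG Ct hCt hδ1 hδ2 hθC htail P hP
    obtain ⟨hat, hgrow, hTG, hDl, -⟩ := hP
    have h1 := htail P hgrow
    have hCt0 : 0 < Ct := by linarith
    have h2 : at' P ≤ 2 * Ct * ah P := by
      have h3 : Ct * TG P ≤ Ct * (δ * at' P) := by gcongr
      have h4 : Ct * (δ * at' P) ≤ 1 / 2 * at' P := by nlinarith only [hδ1, hat]
      linarith only [h1, h3, h4]
    have hah : 0 < ah P := by
      by_contra hcon
      rw [not_lt] at hcon
      have : 2 * Ct * ah P ≤ 0 := mul_nonpos_of_nonneg_of_nonpos (by positivity) hcon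
      linarith
    constructor
    · rintro ⟨i, hi1, hi2⟩
      have h5 : (2 : ℝ) ^ (-(γ * i)) * at' (up i P) ≤ at' P := by
        have e2 : (2 : ℝ) ^ (-(γ * i)) * (2 : ℝ) ^ (γ * i) = 1 := by
          rw [← Real.rpow_add (by norm_num)]; simp
        calc (2 : ℝ) ^ (-(γ * i)) * at' (up i P)
            ≤ (2 : ℝ) ^ (-(γ * i)) * ((2 : ℝ) ^ (γ * i) * at' P) := by
              have := hgrow i; gcongr
          _ = at' P := by rw [← mul_assoc, e2, one_mul]
      have h6 : ah P ≤ θ * (2 * Ct * ah P) := by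
        calc ah P ≤ θ * ((2 : ℝ) ^ (-(γ * i)) * at' (up i P)) := hi2
          _ ≤ θ * (2 * Ct * ah P) := mul_le_mul_of_nonneg_left (h5.trans h2) hθ.le
      have h7 : θ * (2 * Ct * ah P) = (θ * (4 * Ct)) * (ah P / 2) := by ring
      rw [h7] at h6
      have h8 : (θ * (4 * Ct)) * (ah P / 2) ≤ 1 * (ah P / 2) := by (clear * - hθC hah; gcongr)
      linarith only [hah, h6, h8]
    · intro l
      have h5 := hDl l
      have h6 := hR.ah_le P
      by_cases hδ : 0 ≤ δ
      · calc D (up l P) ≤ δ * (2 : ℝ) ^ ((l : ℝ) / 8) * at' P := h5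
          _ ≤ δ * (2 : ℝ) ^ ((l : ℝ) / 8) * (2 * Ct * a P) := by
              gcongr; exact h2.trans (by gcongr)
          _ = (2 * (Ct * δ)) * ((2 : ℝ) ^ ((l : ℝ) / 8) * a P) := by ring
          _ ≤ d1 * ((2 : ℝ) ^ ((l : ℝ) / 8) * a P) := by
              have := hR.a_nonneg P
              gcongr
              linarith only [hd1pos, hδ2]
          _ = _ := by ring
      · exfalso
        rw [not_le] at hδ
        have h7 := hR.D_nonneg (up l P)
        have h8 : δ * (2 : ℝ) ^ ((l : ℝ) / 8) * at' P < 0 := by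
          apply mul_neg_of_neg_of_pos _ hat
          exact mul_neg_of_neg_of_pos hδ (by positivity)
        linarith only [h5, h7, h8]

end

end TG


end

section

set_option autoImplicit false
set_option linter.unusedSectionVars false

/-!
# Robustness of the types (RbH) from TY and Rob   (helper47)
-/

open MeasureTheory Metric Set TrI
open scoped InnerProductSpace ContDiff ENNReal

namespace TG

noncomputable section

/-- MODULE RH: the types of cells, all facts for the assembly -/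
def StmtRH : Prop :=
  ∀ (C1 C9 : ℝ) (J e : ℕ), 1 ≤ C1 → 1 ≤ C9 → ∃ Cθ : ℝ, 1 ≤ Cθ ∧ ∀ θ : ℝ, 0 < θ → θ ≤ 1 →
    ∃ (Cr : ℝ) (nI : ℕ), 1 ≤ Cr ∧ ∀ K : ℝ, Cθ / θ ≤ K →
    ∀ d0 : ℝ, 0 < d0 → d0 ≤ 1 → ∃ d1 : ℝ, 0 < d1 ∧ d1 ≤ d0 ∧
    ∀ (d : ℕ) (γ : ℝ), 0 < γ → γ ≤ 1 / 8 →
    ∀ (nb : Cell d → Finset (Cell d)) (a ah at' D b : Cell d → ℝ),
      Rob C1 J e nb a ah at' D b → (∀ Q, up 9 Q ∈ nb Q) →
      (∀ Q, ah Q ≤ C9 * (ah (up 9 Q) + D (up 9 Q))) →
      RbH Cr nb (Strc γ K d0 a at' D) (Solid γ θ d1 a ah at' D) a ah D b ∧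
      (∀ Q, Q ∉ WL γ θ ah at' → 0 < ah Q ∧
        ∀ l : ℕ, θ * at' (up l Q) ≤ (2 : ℝ) ^ (γ * l) * ah Q) ∧
      (∀ κ0 : ℝ, 0 < κ0 → ∀ n : ℕ, ∀ Q ∈ Solid γ θ d1 a ah at' D,
        {j | j < n ∧ Q ∉ Intr (κ0 * (1 / 2) ^ j) a D b nb}.ncard ≤ nI) ∧
      (∀ κ δ : ℝ, ∀ m : ℕ, ∀ (TG : Cell d → ℝ) (Ct : ℝ), 1 ≤ Ct → 2 * Ct * δ ≤ 1 → Ct * δ ≤ d1 / 4 →
        θ * (4 * Ct) ≤ 1 →
        (∀ P, (∀ l : ℕ, at' (up l P) ≤ (2 : ℝ) ^ (γ * l) * at' P) → at' P ≤ Ct * (ah P + TG P)) →
        CIII γ κ δ m at' D b TG ⊆ Solid γ θ d1 a ah at' D)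

theorem stmtRH : StmtRH := by
  intro C1 C9 J e hC1 hC9
  obtain ⟨Cθ, hCθ, H⟩ := stmtTY C1 J e
  refine ⟨Cθ, hCθ, ?_⟩
  intro θ hθ hθ1
  obtain ⟨C, nI, hC, HK⟩ := H θ hθ hθ1
  set X : ℝ := C * (C1 / θ) * C9 with hX
  have hX0 : 0 < X := by positivity
  set Cd : ℝ := C1 * (2 : ℝ) ^ (((J : ℝ) + e) / 4) with hCd
  have hCd0 : 0 < Cd := by positivity
  refine ⟨1 + C + Cd + C1 / θ + 2 * X, nI, by
    have : 0 < C1 / θ := by positivity
    linarith, ?_⟩
  have hCθ1 : 0 < C1 / θ := by positivity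
  intro K hK d0 hd0 hd01
  set d0' : ℝ := min d0 (1 / (8 * X * C)) with hd0'
  have hd0'0 : 0 < d0' := lt_min hd0 (by positivity)
  have hd0'1 : d0' ≤ d0 := min_le_left _ _
  obtain ⟨d1, hd1, hd1d, HH⟩ := HK K hK d0' hd0'0 (hd0'1.trans hd01)
  refine ⟨d1, hd1, hd1d.trans hd0'1, ?_⟩
  intro d γ hγ hγ1 nb a ah at' D b R h9 hh9
  obtain ⟨T1, T2, T3, T4⟩ := HH d γ hγ hγ1 nb a ah at' D b R
  obtain ⟨BD, hBD⟩ := R.D_bd
  set Cr : ℝ := 1 + C + Cd + C1 / θ + 2 * X with hCr
  have hCCr : C ≤ Cr := by rw [hCr]; linarith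
  have hCdCr : Cd ≤ Cr := by rw [hCr]; linarith
  have hCr0 : 0 ≤ Cr := hC.le.trans hCCr
  refine ⟨⟨R.a_nonneg, R.b_nonneg, R.D_nonneg, ?_, ?_⟩, T1, T3, T4⟩
  · intro Q hQ Q' hQ'
    obtain ⟨t1, t2, t3, t4, t5⟩ := T2 Q hQ Q' hQ'
    have hshb := sh_nonneg R.b_nonneg
    have hshD := sh_nonneg R.D_nonneg
    have hs : 0 ≤ sh b Q + sh D Q := add_nonneg (hshb Q) (hshD Q)
    have hs' : 0 ≤ sh b Q' + sh D Q' := add_nonneg (hshb Q') (hshD Q')
    refine ⟨⟨t1.1, t1.2.1, fun l => ?_⟩, t2.trans (mul_le_mul_of_nonneg_right hCCr (R.a_nonneg Q)),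
      t3.trans (mul_le_mul_of_nonneg_right hCCr (R.a_nonneg Q')),
      t4.trans (mul_le_mul_of_nonneg_right hCCr hs),
      t5.trans (mul_le_mul_of_nonneg_right hCCr hs'), ?_, ?_⟩
    · refine (t1.2.2 l).trans (mul_le_mul_of_nonneg_right (mul_le_mul_of_nonneg_right hd0'1
        (by positivity)) (R.a_nonneg Q'))
    · -- sh D Q' ≤ Cr sh D Q
      obtain ⟨g1, g2⟩ := R.lev Q Q' hQ'
      set s : ℕ := Q'.1 - Q.1 + e with hs
      have hsJ : (s : ℝ) ≤ (J : ℝ) + e := by
        have : s ≤ J + e := by omega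
        exact_mod_cast this
      obtain ⟨k1, k2⟩ := sh_shift R.D_nonneg hBD s Q
      have hsm := sh_summable R.D_nonneg hBD Q'
      calc sh D Q' = ∑' l : ℕ, (2 : ℝ) ^ (-((l : ℝ) / 4)) * D (up l Q') := rfl
        _ ≤ ∑' l : ℕ, C1 * ((2 : ℝ) ^ (-((l : ℝ) / 4)) * D (up (l + s) Q)) := by
            refine Summable.tsum_le_tsum (fun l => ?_) hsm (k1.mul_left C1)
            have h := R.D1 Q Q' hQ' l
            have e1 : Q'.1 - Q.1 + l + e = l + s := by omega
            rw [e1] at h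
            have := mul_le_mul_of_nonneg_left h
              (by positivity : (0 : ℝ) ≤ (2 : ℝ) ^ (-((l : ℝ) / 4)))
            linarith only [this]
        _ = C1 * ∑' l : ℕ, (2 : ℝ) ^ (-((l : ℝ) / 4)) * D (up (l + s) Q) := tsum_mul_left
        _ ≤ C1 * ((2 : ℝ) ^ ((s : ℝ) / 4) * sh D Q) := mul_le_mul_of_nonneg_left k2 (by linarith)
        _ ≤ C1 * ((2 : ℝ) ^ (((J : ℝ) + e) / 4) * sh D Q) := by
            refine mul_le_mul_of_nonneg_left (mul_le_mul_of_nonneg_right ?_ (hshD Q)) (by linarith)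
            exact Real.rpow_le_rpow_of_exponent_le (by norm_num) (by linarith)
        _ = Cd * sh D Q := by rw [hCd]; ring
        _ ≤ Cr * sh D Q := mul_le_mul_of_nonneg_right hCdCr (hshD Q)
    · obtain ⟨k1, k2⟩ := sh_shift R.D_nonneg hBD e Q'
      have hsm := sh_summable R.D_nonneg hBD Q
      calc sh D Q = ∑' l : ℕ, (2 : ℝ) ^ (-((l : ℝ) / 4)) * D (up l Q) := rfl
        _ ≤ ∑' l : ℕ, C1 * ((2 : ℝ) ^ (-((l : ℝ) / 4)) * D (up (l + e) Q')) := by
            refine Summable.tsum_le_tsum (fun l => ?_) hsm (k1.mul_left C1)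
            have h := R.D2 Q Q' hQ' l
            have := mul_le_mul_of_nonneg_left h
              (by positivity : (0 : ℝ) ≤ (2 : ℝ) ^ (-((l : ℝ) / 4)))
            linarith
        _ = C1 * ∑' l : ℕ, (2 : ℝ) ^ (-((l : ℝ) / 4)) * D (up (l + e) Q') := tsum_mul_left
        _ ≤ C1 * ((2 : ℝ) ^ ((e : ℝ) / 4) * sh D Q') := mul_le_mul_of_nonneg_left k2 (by linarith)
        _ ≤ C1 * ((2 : ℝ) ^ (((J : ℝ) + e) / 4) * sh D Q') := by
            refine mul_le_mul_of_nonneg_left (mul_le_mul_of_nonneg_right ?_ (hshD Q')) (by linarith)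
            refine Real.rpow_le_rpow_of_exponent_le (by norm_num) ?_
            have : (0 : ℝ) ≤ J := Nat.cast_nonneg J
            linarith
        _ = Cd * sh D Q' := by rw [hCd]; ring
        _ ≤ Cr * sh D Q' := mul_le_mul_of_nonneg_right hCdCr (hshD Q')
  · intro Q hQ
    obtain ⟨w1, w2⟩ := T1 Q hQ.1
    have h0 := w2 0
    rw [up_zero] at h0
    have hah : 0 < ah Q := w1
    have h1 : at' Q ≤ 1 / θ * ah Q := by
      rw [one_div, ← div_eq_inv_mul, le_div_iff₀ hθ]
      have e0 : (2 : ℝ) ^ (γ * ((0 : ℕ) : ℝ)) = 1 := by simp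
      rw [e0, one_mul] at h0
      linarith
    have h2 : a Q ≤ C1 / θ * ah Q := by
      calc a Q ≤ C1 * at' Q := R.a_le Q
        _ ≤ C1 * (1 / θ * ah Q) := mul_le_mul_of_nonneg_left h1 (by linarith)
        _ = _ := by ring
    refine ⟨h2.trans (mul_le_mul_of_nonneg_right (by rw [hCr]; linarith) hah.le), ?_⟩
    set P := up 9 Q with hP
    obtain ⟨t1, t2, t3, t4, t5⟩ := T2 Q hQ P (h9 Q)
    have hDP : D P ≤ d1 * 4 * (C * a P) := by
      have h3 := hQ.2 9
      have h4 : (2 : ℝ) ^ (((9 : ℕ) : ℝ) / 8) ≤ 4 := by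
        calc (2 : ℝ) ^ (((9 : ℕ) : ℝ) / 8) ≤ (2 : ℝ) ^ (2 : ℝ) :=
              Real.rpow_le_rpow_of_exponent_le (by norm_num) (by norm_num)
          _ = 4 := by norm_num
      calc D P ≤ d1 * (2 : ℝ) ^ (((9 : ℕ) : ℝ) / 8) * a Q := h3
        _ ≤ d1 * 4 * a Q := mul_le_mul_of_nonneg_right (mul_le_mul_of_nonneg_left h4 hd1.le)
              (R.a_nonneg Q)
        _ ≤ d1 * 4 * (C * a P) := mul_le_mul_of_nonneg_left t3 (by positivity)
    have haP := R.a_nonneg P
    have h5 : a P ≤ X * (ah P + D P) := by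
      calc a P ≤ C * a Q := t2
        _ ≤ C * (C1 / θ * ah Q) := mul_le_mul_of_nonneg_left h2 hC.le
        _ ≤ C * (C1 / θ * (C9 * (ah P + D P))) :=
            mul_le_mul_of_nonneg_left (mul_le_mul_of_nonneg_left (hh9 Q) hCθ1.le) hC.le
        _ = _ := by rw [hX]; ring
    have h6 : X * D P ≤ 1 / 2 * a P := by
      have h7 : d1 ≤ 1 / (8 * X * C) := hd1d.trans (min_le_right _ _)
      rw [le_div_iff₀ (by positivity)] at h7
      calc X * D P ≤ X * (d1 * 4 * (C * a P)) := mul_le_mul_of_nonneg_left hDP hX0.le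
        _ = 1 / 2 * (d1 * (8 * X * C)) * a P := by ring
        _ ≤ 1 / 2 * 1 * a P := by gcongr
        _ = _ := by ring
    have h8 : a P ≤ 2 * X * ah P := by linarith only [h5, h6]
    have h9' : 0 ≤ ah P := by
      by_contra hneg
      rw [not_le] at hneg
      nlinarith only [haP, h5, h6, hX0, hneg]
    exact h8.trans (mul_le_mul_of_nonneg_right (by rw [hCr]; linarith) h9')

end

end TG


end
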