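import Mathlib
import Pool.Agent.TRM.C01

/-! Parts: TG.Ker, TG.TH, TG.PK, TG.FA1 -/

section

set_option autoImplicit false

/-!
# General averages avk with an arbitrary kernel, and the kernel identity

Everything is for continuous (compactly supported) functions.
-/

open MeasureTheory Metric Set TrI
open scoped InnerProductSpace ContDiff

namespace TG

noncomputable section

variable {d : ℕ}

/-- averaging kernels -/
structure AK (ψ : Sp d → ℝ) : Prop where
  cont : Continuous ψ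
  nonneg : ∀ x, 0 ≤ ψ x
  supp : ∀ x, 1 ≤ ‖x‖ → ψ x = 0
  int : ∫ x, ψ x = 1

lemma IsProf.ak {J : ℕ} {M : ℝ} {β : Sp d → ℝ} (h : IsProf J M β) : AK β where
  cont := h.smooth.continuous
  nonneg := h.nonneg
  supp := h.supp
  int := h.int

lemma BaseKer.ak {J : ℕ} {M c : ℝ} {b : Sp d → ℝ} (h : BaseKer J M c b) : AK b where
  cont := h.smooth.continuous
  nonneg := h.nonneg
  supp x hx := h.supp x (by linarith)
  int := h.int

lemma BaseKer.akn {J : ℕ} {M c : ℝ} {b : Sp d → ℝ} (h : BaseKer J M c b) (n : ℕ) : AK (KN b n) :=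
  (h.kit n).prof.ak

namespace AK

variable {ψ : Sp d → ℝ} (h : AK ψ)

include h in
lemma cs : HasCompactSupport ψ := by
  refine HasCompactSupport.intro (isCompact_closedBall (0 : Sp d) 1) ?_
  intro x hx
  apply h.supp
  rw [mem_closedBall, dist_zero_right, not_le] at hx
  exact hx.le

include h in
lemma integrable : Integrable ψ := h.cont.integrable_of_hasCompactSupport h.cs

variable {F : Type*} [NormedAddCommGroup F] [NormedSpace ℝ F]

include h in
lemma integrand_integrable {g : Sp d → F} (hg : Continuous g) (s : ℝ) (x : Sp d) :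
    Integrable fun y => ψ y • g (x + s • y) := by
  apply Continuous.integrable_of_hasCompactSupport
  · exact h.cont.smul (hg.comp (by fun_prop))
  · exact h.cs.smul_right

include h in
lemma avk_eq_set (g : Sp d → F) (s : ℝ) (x : Sp d) :
    avk ψ s g x = ∫ y in closedBall (0 : Sp d) 1, ψ y • g (x + s • y) := by
  unfold avk
  symm
  refine setIntegral_eq_integral_of_forall_compl_eq_zero fun y hy => ?_
  rw [mem_closedBall, dist_zero_right, not_le] at hy
  rw [h.supp y hy.le, zero_smul]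

include h in
lemma avk_cont {g : Sp d → F} (hg : Continuous g) (s : ℝ) : Continuous (avk ψ s g) := by
  have h1 : avk ψ s g = fun z => ∫ y in closedBall (0 : Sp d) 1, ψ y • g (z + s • y) := by
    ext z
    exact h.avk_eq_set g s z
  rw [h1]
  refine continuous_parametric_integral_of_continuous ?_ (isCompact_closedBall _ _)
  have h2 : Continuous fun p : Sp d × Sp d => ψ p.2 • g (p.1 + s • p.2) :=
    (h.cont.comp continuous_snd).smul (hg.comp (by fun_prop))
  exact h2

include h in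
/-- the average only depends on the values in the ball of radius |s| -/
lemma avk_congr {g g' : Sp d → F} (s : ℝ) (x : Sp d) (hg : ∀ z, ‖z - x‖ ≤ |s| → g z = g' z) :
    avk ψ s g x = avk ψ s g' x := by
  unfold avk
  congr 1
  ext y
  by_cases hy : 1 ≤ ‖y‖
  · rw [h.supp y hy, zero_smul, zero_smul]
  · push Not at hy
    rw [hg]
    rw [add_sub_cancel_left, norm_smul, Real.norm_eq_abs]
    nlinarith [abs_nonneg s, norm_nonneg y]

include h in
lemma avk_cs {g : Sp d → F} (hg : HasCompactSupport g) (s : ℝ) : HasCompactSupport (avk ψ s g) := by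
  obtain ⟨R, hR⟩ := hg.isCompact.isBounded.subset_closedBall (0 : Sp d)
  refine HasCompactSupport.intro (isCompact_closedBall (0 : Sp d) (R + |s|)) ?_
  intro x hx
  rw [mem_closedBall, dist_zero_right, not_le] at hx
  have h1 : avk ψ s g x = avk ψ s (fun _ => (0 : F)) x := by
    apply h.avk_congr
    intro z hz
    by_contra hz'
    have h2 : z ∈ closedBall (0 : Sp d) R := hR (subset_tsupport _ hz')
    rw [mem_closedBall, dist_zero_right] at h2
    have : ‖x‖ ≤ ‖z‖ + ‖z - x‖ := by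
      have := norm_sub_le z (z - x)
      rwa [sub_sub_cancel] at this
    linarith
  rw [h1]
  unfold avk
  simp

include h in
lemma norm_avk_le (g : Sp d → F) (s : ℝ) (x : Sp d) :
    ‖avk ψ s g x‖ ≤ avk ψ s (fun z => ‖g z‖) x := by
  unfold avk
  refine (norm_integral_le_integral_norm _).trans (le_of_eq ?_)
  congr 1
  ext y
  rw [norm_smul, Real.norm_of_nonneg (h.nonneg y)]
  rfl

include h in
lemma avk_nonneg {g : Sp d → ℝ} (hg : ∀ z, 0 ≤ g z) (s : ℝ) (x : Sp d) : 0 ≤ avk ψ s g x :=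
  integral_nonneg fun y => smul_nonneg (h.nonneg y) (hg _)

include h in
lemma avk_sub {g g' : Sp d → F} (hg : Continuous g) (hg' : Continuous g') (s : ℝ) (x : Sp d) :
    avk ψ s (fun z => g z - g' z) x = avk ψ s g x - avk ψ s g' x := by
  unfold avk
  simp only [smul_sub]
  exact integral_sub (h.integrand_integrable hg s x) (h.integrand_integrable hg' s x)

include h in
lemma avk_add {g g' : Sp d → F} (hg : Continuous g) (hg' : Continuous g') (s : ℝ) (x : Sp d) :
    avk ψ s (fun z => g z + g' z) x = avk ψ s g x + avk ψ s g' x := by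
  unfold avk
  simp only [smul_add]
  exact integral_add (h.integrand_integrable hg s x) (h.integrand_integrable hg' s x)

include h in
lemma avk_mono {g g' : Sp d → ℝ} (hg : Continuous g) (hg' : Continuous g') (hgg : ∀ z, g z ≤ g' z)
    (s : ℝ) (x : Sp d) : avk ψ s g x ≤ avk ψ s g' x := by
  unfold avk
  refine integral_mono (h.integrand_integrable hg s x) (h.integrand_integrable hg' s x) ?_
  intro y
  exact smul_le_smul_of_nonneg_left (hgg _) (h.nonneg y)

include h in
lemma avk_inner {E : Type*} [NormedAddCommGroup E] [InnerProductSpace ℝ E] [CompleteSpace E]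
    {g : Sp d → E} (hg : Continuous g) (e : E) (s : ℝ) (x : Sp d) :
    avk ψ s (fun z => ⟪g z, e⟫_ℝ) x = ⟪avk ψ s g x, e⟫_ℝ := by
  unfold avk
  rw [real_inner_comm, ← integral_inner (h.integrand_integrable hg s x)]
  congr 1
  ext y
  rw [real_inner_smul_right, real_inner_comm, smul_eq_mul]

include h in
lemma prod_integrable {g : Sp d → F} (hg : Continuous g) (hc : HasCompactSupport g) (s : ℝ) :
    Integrable (Function.uncurry fun (x y : Sp d) => ψ y • g (x + s • y)) (volume.prod volume) := by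
  obtain ⟨R, hR⟩ := hc.isCompact.isBounded.subset_closedBall (0 : Sp d)
  apply Continuous.integrable_of_hasCompactSupport
  · exact (h.cont.comp continuous_snd).smul (hg.comp (by fun_prop))
  · refine HasCompactSupport.intro
      ((isCompact_closedBall (0 : Sp d) (R + |s|)).prod (isCompact_closedBall (0 : Sp d) 1)) ?_
    rintro ⟨x, y⟩ hxy
    change ψ y • g (x + s • y) = 0
    by_cases hy : 1 ≤ ‖y‖
    · rw [h.supp y hy, zero_smul]
    · push Not at hy
      have hx : ¬ ‖x‖ ≤ R + |s| := by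
        intro hx
        apply hxy
        rw [mem_prod, mem_closedBall, mem_closedBall, dist_zero_right, dist_zero_right]
        exact ⟨hx, hy.le⟩
      have : g (x + s • y) = 0 := by
        by_contra hz'
        have h2 : x + s • y ∈ closedBall (0 : Sp d) R := hR (subset_tsupport _ hz')
        rw [mem_closedBall, dist_zero_right] at h2
        have h3 : ‖x‖ ≤ ‖x + s • y‖ + ‖s • y‖ := by
          have := norm_sub_le (x + s • y) (s • y)
          rwa [add_sub_cancel_right] at this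
        rw [norm_smul, Real.norm_eq_abs] at h3
        apply hx
        nlinarith [abs_nonneg s, norm_nonneg y]
      rw [this, smul_zero]

include h in
lemma avk_int [CompleteSpace F] {g : Sp d → F} (hg : Continuous g) (hc : HasCompactSupport g) (s : ℝ) :
    ∫ x, avk ψ s g x = ∫ x, g x := by
  unfold avk
  rw [integral_integral_swap (h.prod_integrable hg hc s)]
  have h1 : ∀ y : Sp d, ∫ x, ψ y • g (x + s • y) = ψ y • ∫ x, g x := by
    intro y
    rw [integral_smul, integral_add_right_eq_self]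
  simp_rw [h1]
  rw [integral_smul_const, h.int, one_smul]

include h in
/-- the kernel identity for two successive averages -/
lemma avk_avk [CompleteSpace F] {ψ' : Sp d → ℝ} (h' : AK ψ') {g : Sp d → F} (hg : Continuous g) (s : ℝ) (x : Sp d) :
    avk ψ s (avk ψ' (s / 2) g) x =
      avk (fun w => ∫ y, ψ y * (2 ^ d * ψ' ((2 : ℝ) • (w - y)))) s g x := by
  unfold avk
  have h1 : ∀ y : Sp d, ψ y • ∫ w, ψ' w • g (x + s • y + (s / 2) • w) =
      ∫ w, (ψ y * (2 ^ d * ψ' ((2 : ℝ) • (w - y)))) • g (x + s • w) := by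
    intro y
    have h2 : ∫ w, ψ' w • g (x + s • y + (s / 2) • w) =
        ∫ w, (2 ^ d * ψ' ((2 : ℝ) • (w - y))) • g (x + s • w) := by
      have e1 := Measure.integral_comp_smul (μ := (volume : Measure (Sp d)))
        (fun w => ψ' w • g (x + s • y + (s / 2) • w)) (2 : ℝ)
      have e2 := integral_sub_right_eq_self (μ := (volume : Measure (Sp d)))
        (fun w : Sp d => ψ' ((2 : ℝ) • w) • g (x + s • y + (s / 2) • ((2 : ℝ) • w))) y
      have hfin : Module.finrank ℝ (Sp d) = d := by simp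
      rw [hfin] at e1
      have e3 : |((2 : ℝ) ^ d)⁻¹| = ((2 : ℝ) ^ d)⁻¹ := abs_of_nonneg (by positivity)
      rw [e3] at e1
      have e4 : ∫ w, ψ' w • g (x + s • y + (s / 2) • w) =
          (2 : ℝ) ^ d • ∫ w, ψ' ((2 : ℝ) • w) • g (x + s • y + (s / 2) • ((2 : ℝ) • w)) := by
        rw [e1, smul_smul, mul_inv_cancel₀ (by positivity), one_smul]
      rw [e4, ← e2, ← integral_smul]
      congr 1
      ext w
      rw [smul_smul]
      congr 2
      rw [smul_smul, smul_sub]
      have : s / 2 * 2 = s := by ring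
      rw [this]
      abel
    rw [h2, ← integral_smul]
    congr 1
    ext w
    rw [smul_smul]
  simp_rw [h1]
  rw [integral_integral_swap]
  · congr 1
    ext w
    rw [integral_smul_const]
  · apply Continuous.integrable_of_hasCompactSupport
    · have c1 : Continuous fun p : Sp d × Sp d => ψ p.1 := h.cont.comp continuous_fst
      have c2 : Continuous fun p : Sp d × Sp d => ψ' ((2 : ℝ) • (p.2 - p.1)) := h'.cont.comp (by fun_prop)
      have c3 : Continuous fun p : Sp d × Sp d => g (x + s • p.2) := hg.comp (by fun_prop)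
      exact (c1.mul (continuous_const.mul c2)).smul c3
    · refine HasCompactSupport.intro
        ((isCompact_closedBall (0 : Sp d) 1).prod (isCompact_closedBall (0 : Sp d) 2)) ?_
      rintro ⟨y, w⟩ hxy
      change (ψ y * (2 ^ d * ψ' ((2 : ℝ) • (w - y)))) • g (x + s • w) = 0
      by_cases hy : 1 ≤ ‖y‖
      · rw [h.supp y hy, zero_mul, zero_smul]
      · push Not at hy
        have hw : 2 < ‖w‖ := by
          by_contra hw
          push Not at hw
          apply hxy
          rw [mem_prod, mem_closedBall, mem_closedBall, dist_zero_right, dist_zero_right]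
          exact ⟨hy.le, hw⟩
        rw [h'.supp, mul_zero, mul_zero, zero_smul]
        rw [norm_smul, Real.norm_of_nonneg (by norm_num)]
        have := norm_sub_norm_le w y
        linarith

include h in
/-- lower bound for averages of nonnegative functions -/
lemma avk_lower {c : ℝ} (hc : 0 < c) (hlow : ∀ x, ‖x‖ ≤ c → c ≤ ψ x) {g : Sp d → ℝ}
    (hg : Continuous g) (h0 : ∀ z, 0 ≤ g z) {s : ℝ} (hs : 0 < s) (z q : Sp d) (r : ℝ)
    (hr : ‖q - z‖ + r ≤ c * s) :
    ∫ y in ball q r, g y ≤ s ^ d / c * avk ψ s g z := by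
  have hfin : Module.finrank ℝ (Sp d) = d := by simp
  -- substitution
  have h1 : ∫ y in ball q r, g y = s ^ d * ∫ y, (ball q r).indicator g (z + s • y) := by
    have e1 := Measure.integral_comp_smul (μ := (volume : Measure (Sp d)))
      (fun w => (ball q r).indicator g (z + w)) s
    have e2 := integral_add_left_eq_self (μ := (volume : Measure (Sp d)))
      (fun w : Sp d => (ball q r).indicator g w) z
    rw [hfin, abs_of_nonneg (by positivity), e2, integral_indicator measurableSet_ball, smul_eq_mul] at e1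
    rw [e1, ← mul_assoc, mul_inv_cancel₀ (by positivity), one_mul]
  rw [h1]
  have h2 : c * ∫ y, (ball q r).indicator g (z + s • y) ≤ avk ψ s g z := by
    rw [← integral_const_mul]
    unfold avk
    refine integral_mono_of_nonneg (Filter.Eventually.of_forall fun y => ?_) (h.integrand_integrable hg s z)
      (Filter.Eventually.of_forall fun y => ?_)
    · exact mul_nonneg hc.le (Set.indicator_nonneg (fun w _ => h0 w) _)
    · change c * (ball q r).indicator g (z + s • y) ≤ ψ y • g (z + s • y)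
      by_cases hm : z + s • y ∈ ball q r
      · rw [Set.indicator_of_mem hm, smul_eq_mul]
        apply mul_le_mul_of_nonneg_right _ (h0 _)
        apply hlow
        rw [mem_ball, dist_eq_norm] at hm
        have h3 : ‖s • y‖ ≤ ‖z + s • y - q‖ + ‖q - z‖ := by
          have := norm_add_le (z + s • y - q) (q - z)
          have e : z + s • y - q + (q - z) = s • y := by abel
          rwa [e] at this
        rw [norm_smul, Real.norm_of_nonneg hs.le] at h3
        have h4 : s * ‖y‖ ≤ s * c := by linarith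
        exact le_of_mul_le_mul_left h4 hs
      · rw [Set.indicator_of_notMem hm, mul_zero]
        exact smul_nonneg (h.nonneg y) (h0 _)
  calc s ^ d * ∫ y, (ball q r).indicator g (z + s • y)
      = s ^ d / c * (c * ∫ y, (ball q r).indicator g (z + s • y)) := by field_simp
    _ ≤ s ^ d / c * avk ψ s g z := mul_le_mul_of_nonneg_left h2 (by positivity)

end AK

section Chains

variable {F : Type*} [NormedAddCommGroup F] [NormedSpace ℝ F]

/-- r successive averages at the levels l+1, ..., l+r -/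
def chn (b : Sp d → ℝ) (ε s0 : ℝ) (l : ℕ) : ℕ → (Sp d → F) → Sp d → F
  | 0, g => g
  | r + 1, g => avk b (ε * lev s0 (l + r + 1)) (chn b ε s0 l r g)

lemma chn_zero (b : Sp d → ℝ) (ε s0 : ℝ) (l : ℕ) (g : Sp d → F) : chn b ε s0 l 0 g = g := rfl

lemma chn_succ (b : Sp d → ℝ) (ε s0 : ℝ) (l r : ℕ) (g : Sp d → F) :
    chn b ε s0 l (r + 1) g = avk b (ε * lev s0 (l + r + 1)) (chn b ε s0 l r g) := rfl

/-- the fields as chains -/
lemma fl_chn (b : Sp d → ℝ) (ε s0 : ℝ) (f : Sp d → F) (l r : ℕ) :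
    fl b ε s0 f (l + r) = chn b ε s0 l r (fl b ε s0 f l) := by
  induction r with
  | zero => rfl
  | succ r ih =>
    rw [chn_succ, ← ih]
    rfl

lemma lev_succ (s0 : ℝ) (i : ℕ) : lev s0 (i + 1) = 2 * lev s0 i := by
  unfold lev; rw [pow_succ]; ring

lemma lev_pos {s0 : ℝ} (hs : 0 < s0) (i : ℕ) : 0 < lev s0 i := by
  unfold lev; positivity

lemma lev_add (s0 : ℝ) (i j : ℕ) : lev s0 (i + j) = 2 ^ j * lev s0 i := by
  unfold lev; rw [pow_add]; ring

variable {J : ℕ} {M c : ℝ} {b : Sp d → ℝ}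

lemma chn_cont (hb : AK b) (ε s0 : ℝ) (l r : ℕ) {g : Sp d → F} (hg : Continuous g) :
    Continuous (chn b ε s0 l r g) := by
  induction r with
  | zero => exact hg
  | succ r ih => exact hb.avk_cont ih _

lemma chn_cs (hb : AK b) (ε s0 : ℝ) (l r : ℕ) {g : Sp d → F} (hg : HasCompactSupport g) :
    HasCompactSupport (chn b ε s0 l r g) := by
  induction r with
  | zero => exact hg
  | succ r ih => exact hb.avk_cs ih _

lemma chn_int [CompleteSpace F] (hb : AK b) (ε s0 : ℝ) (l r : ℕ) {g : Sp d → F} (hg : Continuous g)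
    (hc : HasCompactSupport g) : ∫ x, chn b ε s0 l r g x = ∫ x, g x := by
  induction r with
  | zero => rfl
  | succ r ih =>
    rw [chn_succ, hb.avk_int (chn_cont hb ε s0 l r hg) (chn_cs hb ε s0 l r hc), ih]

lemma chn_nonneg (hb : AK b) (ε s0 : ℝ) (l r : ℕ) {g : Sp d → ℝ} (hg : ∀ z, 0 ≤ g z) (x : Sp d) :
    0 ≤ chn b ε s0 l r g x := by
  induction r generalizing x with
  | zero => exact hg x
  | succ r ih => exact hb.avk_nonneg ih _ _

lemma chn_sub (hb : AK b) (ε s0 : ℝ) (l r : ℕ) {g g' : Sp d → F} (hg : Continuous g)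
    (hg' : Continuous g') (x : Sp d) :
    chn b ε s0 l r (fun z => g z - g' z) x = chn b ε s0 l r g x - chn b ε s0 l r g' x := by
  induction r generalizing x with
  | zero => rfl
  | succ r ih =>
    rw [chn_succ, chn_succ, chn_succ, ← hb.avk_sub (chn_cont hb ε s0 l r hg) (chn_cont hb ε s0 l r hg')]
    congr 1
    ext z
    exact ih z

lemma chn_inner {E : Type*} [NormedAddCommGroup E] [InnerProductSpace ℝ E] [CompleteSpace E]
    (hb : AK b) (ε s0 : ℝ) (l r : ℕ) {g : Sp d → E} (hg : Continuous g) (e : E) (x : Sp d) :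
    chn b ε s0 l r (fun z => ⟪g z, e⟫_ℝ) x = ⟪chn b ε s0 l r g x, e⟫_ℝ := by
  induction r generalizing x with
  | zero => rfl
  | succ r ih =>
    rw [chn_succ, chn_succ, ← hb.avk_inner (chn_cont hb ε s0 l r hg)]
    congr 1
    ext z
    exact ih z

lemma norm_chn_le (hb : AK b) (ε s0 : ℝ) (l r : ℕ) {g : Sp d → F} (hg : Continuous g) (x : Sp d) :
    ‖chn b ε s0 l r g x‖ ≤ chn b ε s0 l r (fun z => ‖g z‖) x := by
  induction r generalizing x with
  | zero => exact le_rfl
  | succ r ih =>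
    rw [chn_succ, chn_succ]
    refine (hb.norm_avk_le _ _ _).trans ?_
    exact hb.avk_mono (chn_cont hb ε s0 l r hg).norm (chn_cont hb ε s0 l r hg.norm) ih _ _

/-- KERNEL IDENTITY: a chain of r+1 averages is one average with the kernel KN b r -/
lemma chn_eq [CompleteSpace F] (hb : BaseKer J M c b) (ε s0 : ℝ) (l r : ℕ) {g : Sp d → F} (hg : Continuous g)
    (x : Sp d) : chn b ε s0 l (r + 1) g x = avk (KN b r) (ε * lev s0 (l + r + 1)) g x := by
  induction r generalizing x with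
  | zero => rfl
  | succ r ih =>
    rw [chn_succ]
    have e1 : (chn b ε s0 l (r + 1) g) = avk (KN b r) ((ε * lev s0 (l + (r + 1) + 1)) / 2) g := by
      ext z
      rw [ih z]
      congr 1
      have e : lev s0 (l + (r + 1) + 1) = 2 * lev s0 (l + r + 1) := lev_succ s0 (l + r + 1)
      rw [e]
      ring
    rw [e1, hb.ak.avk_avk (hb.akn r) hg]
    rfl

/-- lower bound for chains of nonnegative functions -/
lemma chn_lower (hb : BaseKer J M c b) {ε s0 : ℝ} (hε : 0 < ε) (hs : 0 < s0) (l r : ℕ) {g : Sp d → ℝ}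
    (hg : Continuous g) (h0 : ∀ z, 0 ≤ g z) (z q : Sp d) (ρ : ℝ)
    (hr : ‖q - z‖ + ρ ≤ c * (ε * lev s0 (l + r + 1))) :
    ∫ y in ball q ρ, g y ≤ (ε * lev s0 (l + r + 1)) ^ d / c * chn b ε s0 l (r + 1) g z := by
  rw [chn_eq hb ε s0 l r hg]
  exact (hb.akn r).avk_lower hb.c_pos (hb.low r) hg h0 (mul_pos hε (lev_pos hs _)) z q ρ hr

lemma fl_cont (hb : AK b) (ε s0 : ℝ) {f : Sp d → F} (hf : Continuous f) (i : ℕ) :
    Continuous (fl b ε s0 f i) := by
  have := fl_chn b ε s0 f 0 i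
  rw [Nat.zero_add] at this
  rw [this]
  exact chn_cont hb ε s0 0 i hf

lemma fl_cs (hb : AK b) (ε s0 : ℝ) {f : Sp d → F} (hf : HasCompactSupport f) (i : ℕ) :
    HasCompactSupport (fl b ε s0 f i) := by
  have := fl_chn b ε s0 f 0 i
  rw [Nat.zero_add] at this
  rw [this]
  exact chn_cs hb ε s0 0 i hf

/-- KERNEL IDENTITY for the fields -/
lemma fl_eq [CompleteSpace F] (hb : BaseKer J M c b) (ε s0 : ℝ) {f : Sp d → F} (hf : Continuous f) (i : ℕ)
    (x : Sp d) : fl b ε s0 f (i + 1) x = avk (KN b i) (ε * lev s0 (i + 1)) f x := by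
  have := fl_chn b ε s0 f 0 (i + 1)
  rw [Nat.zero_add] at this
  rw [this]
  have h2 := chn_eq hb ε s0 0 i hf x
  rw [Nat.zero_add] at h2
  exact h2

/-- the mass of the fields is nonincreasing -/
lemma fl_norm_int_le [CompleteSpace F] (hb : AK b) (ε s0 : ℝ) {f : Sp d → F} (hf : Continuous f)
    (hc : HasCompactSupport f) (l r : ℕ) :
    ∫ x, ‖fl b ε s0 f (l + r) x‖ ≤ ∫ x, ‖fl b ε s0 f l x‖ := by
  have hlc := fl_cont hb ε s0 hf l
  have hls := fl_cs hb ε s0 hc l
  rw [← chn_int hb ε s0 l r hlc.norm hls.norm, fl_chn]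
  refine integral_mono ?_ ?_ ?_
  · exact (chn_cont hb ε s0 l r hlc).norm.integrable_of_hasCompactSupport (chn_cs hb ε s0 l r hls).norm
  · exact (chn_cont hb ε s0 l r hlc.norm).integrable_of_hasCompactSupport (chn_cs hb ε s0 l r hls.norm)
  · intro x
    exact norm_chn_le hb ε s0 l r hlc x

end Chains

end

end TG


end

section

set_option autoImplicit false

/-!
# Module TH: the potential
-/

open MeasureTheory Metric Set TrI
open scoped InnerProductSpace ContDiff

namespace TG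

noncomputable section

namespace THm

variable {d : ℕ}

/-! ### The kernel -/

lemma kk_pos {t : ℝ} (ht : 0 < t) (x : Sp d) : 0 < kk t x := by
  unfold kk; positivity

lemma kk_nonneg {t : ℝ} (ht : 0 < t) (x : Sp d) : 0 ≤ kk t x := (kk_pos ht x).le

/-- the kernel as a function on space-time -/
def kq (d : ℕ) (p : ℝ × Sp d) : ℝ := kk p.1 p.2

lemma quad_ne {p : ℝ × Sp d} (hp : p ≠ 0) : p.1 ^ 2 + ‖p.2‖ ^ 2 ≠ 0 := by
  intro h
  apply hp
  have h1 : p.1 ^ 2 = 0 := by linarith only [h, sq_nonneg p.1, sq_nonneg ‖p.2‖]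
  have h2 : ‖p.2‖ ^ 2 = 0 := by linarith only [h, sq_nonneg p.1, sq_nonneg ‖p.2‖]
  exact Prod.ext (pow_eq_zero_iff two_ne_zero |>.mp h1)
    (norm_eq_zero.mp (pow_eq_zero_iff two_ne_zero |>.mp h2))

lemma kq_smooth : ContDiffOn ℝ ∞ (kq d) {0}ᶜ := by
  unfold kq kk
  refine ContDiffOn.div contDiff_fst.contDiffOn (ContDiffOn.pow (ContDiffOn.sqrt ?_ ?_) d) ?_
  · exact ((contDiff_fst.pow 2).add (contDiff_snd.norm_sq ℝ)).contDiffOn
  · intro p hp
    exact quad_ne hp
  · intro p hp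
    apply pow_ne_zero
    rw [Real.sqrt_ne_zero']
    exact lt_of_le_of_ne (by positivity) (quad_ne hp).symm

lemma kq_smul (hd : 1 ≤ d) {l : ℝ} (hl : 0 < l) (p : ℝ × Sp d) :
    kq d (l • p) = kq d p / l ^ (d - 1) := by
  unfold kq kk
  have h1 : Real.sqrt ((l • p).1 ^ 2 + ‖(l • p).2‖ ^ 2) =
      l * Real.sqrt (p.1 ^ 2 + ‖p.2‖ ^ 2) := by
    rw [Prod.smul_fst, Prod.smul_snd, norm_smul, Real.norm_of_nonneg hl.le, smul_eq_mul]
    rw [show (l * p.1) ^ 2 + (l * ‖p.2‖) ^ 2 = l ^ 2 * (p.1 ^ 2 + ‖p.2‖ ^ 2) by ring,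
      Real.sqrt_mul (sq_nonneg l), Real.sqrt_sq hl.le]
  rw [h1, mul_pow, Prod.smul_fst, smul_eq_mul, div_div]
  set S := Real.sqrt (p.1 ^ 2 + ‖p.2‖ ^ 2) ^ d
  have h2 : l ^ d = l * l ^ (d - 1) := by
    rw [← pow_succ']; congr 1; omega
  rw [h2, mul_assoc, mul_div_mul_left _ _ hl.ne', mul_comm S]

lemma kq_iter (hd : 1 ≤ d) (n : ℕ) : ∃ C, 0 ≤ C ∧ ∀ p : ℝ × Sp d, p ≠ 0 →
    ‖iteratedFDeriv ℝ n (kq d) p‖ ≤ C / ‖p‖ ^ (d - 1 + n) := by
  have hop : IsOpen ({0}ᶜ : Set (ℝ × Sp d)) := isOpen_compl_singleton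
  have hcont : ContinuousOn (fun p => iteratedFDeriv ℝ n (kq d) p) ({0}ᶜ : Set (ℝ × Sp d)) := by
    have h2 := (kq_smooth (d := d)).continuousOn_iteratedFDerivWithin (m := n)
      (by exact_mod_cast le_top) hop.uniqueDiffOn
    exact h2.congr (fun p hp => (iteratedFDerivWithin_of_isOpen n hop hp).symm)
  obtain ⟨C, hC⟩ := (isCompact_sphere (0 : ℝ × Sp d) 1).exists_bound_of_continuousOn
    (hcont.mono (by
      intro p hp h
      rw [mem_singleton_iff] at h
      rw [h, mem_sphere, dist_self] at hp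
      exact zero_ne_one hp))
  refine ⟨max C 0, le_max_right _ _, fun p hp => ?_⟩
  have hpn : 0 < ‖p‖ := norm_pos_iff.mpr hp
  set l : ℝ := ‖p‖⁻¹ with hl
  have hlpos : 0 < l := inv_pos.mpr hpn
  let e : (ℝ × Sp d) ≃L[ℝ] (ℝ × Sp d) := ContinuousLinearEquiv.smulLeft (Units.mk0 l hlpos.ne')
  have he : ∀ q, e q = l • q := fun q => rfl
  have hfun : kq d = l ^ (d - 1) • (kq d ∘ e) := by
    funext q
    rw [Pi.smul_apply, Function.comp_apply, he, kq_smul hd hlpos, smul_eq_mul,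
      mul_div_cancel₀ _ (pow_ne_zero _ hlpos.ne')]
  have hep : e p ≠ 0 := by
    rw [he]; exact smul_ne_zero hlpos.ne' hp
  have hcd : ContDiffAt ℝ n (kq d ∘ e) p := by
    have h1 : ContDiffAt ℝ n (kq d) (e p) :=
      ((kq_smooth (d := d)).contDiffAt (hop.mem_nhds hep)).of_le (by exact_mod_cast le_top)
    exact h1.comp p e.contDiff.contDiffAt
  have hit : iteratedFDeriv ℝ n (kq d) p =
      l ^ (d - 1) • (iteratedFDeriv ℝ n (kq d) (e p)).compContinuousLinearMap
        (fun _ => (e : (ℝ × Sp d) →L[ℝ] (ℝ × Sp d))) := by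
    conv_lhs => rw [hfun]
    rw [iteratedFDeriv_const_smul_apply hcd]
    congr 1
    have := e.iteratedFDerivWithin_comp_right (kq d) (s := univ) uniqueDiffOn_univ (x := p)
      (mem_univ _) n
    rw [preimage_univ, iteratedFDerivWithin_univ, iteratedFDerivWithin_univ] at this
    exact this
  have hen : ‖(e : (ℝ × Sp d) →L[ℝ] (ℝ × Sp d))‖ ≤ l := by
    apply ContinuousLinearMap.opNorm_le_bound _ hlpos.le
    intro q
    rw [ContinuousLinearEquiv.coe_coe, he, norm_smul, Real.norm_of_nonneg hlpos.le]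
  have hsph : e p ∈ sphere (0 : ℝ × Sp d) 1 := by
    rw [mem_sphere_zero_iff_norm, he, norm_smul, Real.norm_of_nonneg hlpos.le, hl,
      inv_mul_cancel₀ hpn.ne']
  calc ‖iteratedFDeriv ℝ n (kq d) p‖ = l ^ (d - 1) *
      ‖(iteratedFDeriv ℝ n (kq d) (e p)).compContinuousLinearMap
        (fun _ => (e : (ℝ × Sp d) →L[ℝ] (ℝ × Sp d)))‖ := by
        rw [hit, norm_smul, norm_pow, Real.norm_of_nonneg hlpos.le]
    _ ≤ l ^ (d - 1) * (‖iteratedFDeriv ℝ n (kq d) (e p)‖ *
        ∏ _i : Fin n, ‖(e : (ℝ × Sp d) →L[ℝ] (ℝ × Sp d))‖) := by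
        gcongr
        exact ContinuousMultilinearMap.norm_compContinuousLinearMap_le _ _
    _ ≤ l ^ (d - 1) * (max C 0 * l ^ n) := by
        rw [Finset.prod_const, Finset.card_univ, Fintype.card_fin]
        gcongr
        exact (hC _ hsph).trans (le_max_left _ _)
    _ = max C 0 / ‖p‖ ^ (d - 1 + n) := by
        rw [hl, pow_add, inv_pow, inv_pow]
        field_simp

lemma root_le {p : ℝ × Sp d} : Real.sqrt (p.1 ^ 2 + ‖p.2‖ ^ 2) ≤ 2 * ‖p‖ := by
  have h1 : |p.1| ≤ ‖p‖ := norm_fst_le p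
  have h2 : ‖p.2‖ ≤ ‖p‖ := norm_snd_le p
  rw [Real.sqrt_le_left (by positivity)]
  have h3 : p.1 ^ 2 ≤ ‖p‖ ^ 2 := by
    rw [← sq_abs]; gcongr
  have h4 : ‖p.2‖ ^ 2 ≤ ‖p‖ ^ 2 := by gcongr
  nlinarith

lemma kq_iter' (hd : 1 ≤ d) (n : ℕ) : ∃ C, 1 ≤ C ∧ ∀ p : ℝ × Sp d, 0 < p.1 →
    ‖iteratedFDeriv ℝ n (kq d) p‖ ≤ C * kq d p / p.1 ^ n := by
  rcases Nat.eq_zero_or_pos n with hn | hn
  · refine ⟨1, le_rfl, fun p hp => ?_⟩
    subst hn
    have h0 : 0 ≤ kq d p := kk_nonneg hp p.2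
    rw [norm_iteratedFDeriv_zero, pow_zero, div_one, one_mul, Real.norm_of_nonneg h0]
  · obtain ⟨C, hC0, hC⟩ := kq_iter hd n
    refine ⟨max 1 (C * 2 ^ d), le_max_left _ _, fun p hp => ?_⟩
    have hpne : p ≠ 0 := by
      rintro rfl; exact lt_irrefl _ hp
    have hpn : 0 < ‖p‖ := norm_pos_iff.mpr hpne
    have hle : p.1 ≤ ‖p‖ := (le_abs_self _).trans (norm_fst_le p)
    refine (hC p hpne).trans ?_
    have h1 : p.1 / (2 * ‖p‖) ^ d ≤ kq d p := by
      unfold kq kk
      have hR : 0 < Real.sqrt (p.1 ^ 2 + ‖p.2‖ ^ 2) := by positivity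
      gcongr
      exact root_le
    have h2 : C / ‖p‖ ^ (d - 1 + n) ≤ C * 2 ^ d * (p.1 / (2 * ‖p‖) ^ d) / p.1 ^ n := by
      have hn' : p.1 ^ n = p.1 * p.1 ^ (n - 1) := by
        rw [← pow_succ']; congr 1; omega
      have hd' : ‖p‖ ^ (d - 1 + n) = ‖p‖ ^ d * ‖p‖ ^ (n - 1) := by
        rw [← pow_add]; congr 1; omega
      have h3 : C * 2 ^ d * (p.1 / (2 * ‖p‖) ^ d) / p.1 ^ n = C / (‖p‖ ^ d * p.1 ^ (n - 1)) := by
        rw [hn', mul_pow]
        field_simp
      rw [h3, hd']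
      gcongr
    refine h2.trans ?_
    gcongr
    exact le_max_right _ _

/-! ### Harnack inequalities for the kernel -/

lemma root_add {t a b : ℝ} (hb : 0 ≤ b) :
    Real.sqrt (t ^ 2 + (a + b) ^ 2) ≤ Real.sqrt (t ^ 2 + a ^ 2) + b := by
  rw [Real.sqrt_le_left (by positivity)]
  have h1 : Real.sqrt (t ^ 2 + a ^ 2) ^ 2 = t ^ 2 + a ^ 2 := Real.sq_sqrt (by positivity)
  have h2 : a ≤ Real.sqrt (t ^ 2 + a ^ 2) := by
    apply Real.le_sqrt_of_sq_le
    linarith only [sq_nonneg t]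
  linarith only [h1, mul_le_mul_of_nonneg_right h2 hb]

lemma le_root {t a : ℝ} : t ≤ Real.sqrt (t ^ 2 + a ^ 2) := by
  apply Real.le_sqrt_of_sq_le
  nlinarith [sq_nonneg a]

lemma kk_harnack {t : ℝ} (ht : 0 < t) (x x' : Sp d) :
    kk t x' ≤ (1 + ‖x - x'‖ / t) ^ d * kk t x := by
  unfold kk
  set R := Real.sqrt (t ^ 2 + ‖x‖ ^ 2) with hR
  set R' := Real.sqrt (t ^ 2 + ‖x'‖ ^ 2) with hR'
  have hRp : 0 < R := by positivity
  have hRp' : 0 < R' := by positivity
  have h1 : R ≤ R' + ‖x - x'‖ := by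
    have h2 : ‖x‖ ≤ ‖x'‖ + ‖x - x'‖ := by
      have := norm_add_le x' (x - x')
      rwa [add_sub_cancel] at this
    refine le_trans ?_ (root_add (norm_nonneg (x - x')))
    apply Real.sqrt_le_sqrt
    gcongr
  have h3 : R ≤ R' * (1 + ‖x - x'‖ / t) := by
    have h4 : t ≤ R' := le_root
    have h5 : ‖x - x'‖ ≤ R' * (‖x - x'‖ / t) := by
      rw [← mul_div_assoc, le_div_iff₀ ht]
      nlinarith only [h4, norm_nonneg (x - x')]
    linarith only [h1, h5]
  have h6 : R ^ d ≤ R' ^ d * (1 + ‖x - x'‖ / t) ^ d := by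
    rw [← mul_pow]; gcongr
  rw [← mul_div_assoc, div_le_div_iff₀ (by positivity) (by positivity)]
  nlinarith only [ht, h6]

lemma kk_time {s t : ℝ} (ht : 0 < t) (hs1 : t / 8 ≤ s) (hs2 : s ≤ 8 * t) (x : Sp d) :
    kk s x ≤ 8 ^ (d + 1) * kk t x := by
  unfold kk
  have hs : 0 < s := lt_of_lt_of_le (by positivity) hs1
  set R := Real.sqrt (t ^ 2 + ‖x‖ ^ 2) with hR
  set R' := Real.sqrt (s ^ 2 + ‖x‖ ^ 2) with hR'
  have hRp : 0 < R := by positivity
  have hRp' : 0 < R' := by positivity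
  have h1 : R ≤ 8 * R' := by
    rw [hR, Real.sqrt_le_left (by positivity), mul_pow, hR', Real.sq_sqrt (by positivity)]
    have h2 : t ^ 2 ≤ (8 * s) ^ 2 := by
      gcongr; linarith
    linarith only [h2, sq_nonneg ‖x‖]
  have h3 : R ^ d ≤ 8 ^ d * R' ^ d := by
    rw [← mul_pow]; gcongr
  rw [← mul_div_assoc, div_le_div_iff₀ (by positivity) (by positivity)]
  calc s * R ^ d ≤ (8 * t) * (8 ^ d * R' ^ d) := by gcongr
    _ = 8 ^ (d + 1) * t * R' ^ d := by ring

/-! ### Integrability -/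

lemma kk_cont {t : ℝ} (ht : 0 < t) : Continuous (fun x : Sp d => kk t x) := by
  unfold kk
  refine Continuous.div continuous_const ?_ ?_
  · fun_prop
  · intro x
    have : 0 < Real.sqrt (t ^ 2 + ‖x‖ ^ 2) := by positivity
    positivity

lemma kk_le (hd : 1 ≤ d) {t : ℝ} (ht : 0 < t) (x : Sp d) : kk t x ≤ 1 / t ^ (d - 1) := by
  unfold kk
  have h1 : t ≤ Real.sqrt (t ^ 2 + ‖x‖ ^ 2) := le_root
  have h2 : t ^ d ≤ Real.sqrt (t ^ 2 + ‖x‖ ^ 2) ^ d := by gcongr
  have h3 : t ^ d = t * t ^ (d - 1) := by rw [← pow_succ']; congr 1; omega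
  rw [div_le_div_iff₀ (by positivity) (by positivity), one_mul, ← h3]
  exact h2

lemma kk_int (hd : 1 ≤ d) (μ : Measure (Sp d)) [IsFiniteMeasure μ] {t : ℝ} (ht : 0 < t)
    (x : Sp d) : Integrable (fun η => kk t (x - η)) μ := by
  refine Integrable.mono' (integrable_const (1 / t ^ (d - 1))) ?_ ?_
  · exact ((kk_cont ht).comp (continuous_const.sub continuous_id)).aestronglyMeasurable
  · filter_upwards with η
    rw [Real.norm_of_nonneg (kk_nonneg ht _)]
    exact kk_le hd ht _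

lemma th_pos (hd : 1 ≤ d) (μ : Measure (Sp d)) [IsFiniteMeasure μ] (hμ : μ ≠ 0) {t : ℝ}
    (ht : 0 < t) (x : Sp d) : 0 < th μ t x := by
  unfold th
  rw [integral_pos_iff_support_of_nonneg (fun η => kk_nonneg ht _) (kk_int hd μ ht x)]
  have : Function.support (fun η => kk t (x - η)) = univ := by
    ext η
    simp only [Function.mem_support, mem_univ, iff_true]
    exact (kk_pos ht _).ne'
  rw [this]
  exact Measure.measure_univ_pos.mpr hμ

/-! ### Upper bound from growth -/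

lemma kk_shell {t : ℝ} (ht : 0 < t) (x : Sp d) :
    ENNReal.ofReal (kk t x) ≤ ∑' k : ℕ, (ball (0 : Sp d) (2 ^ (k + 1) * t)).indicator
      (fun _ => ENNReal.ofReal (t / (2 ^ k * t) ^ d)) x := by
  have hR : 0 < Real.sqrt (t ^ 2 + ‖x‖ ^ 2) := by positivity
  have h1 : 1 ≤ Real.sqrt (t ^ 2 + ‖x‖ ^ 2) / t := by
    rw [le_div_iff₀ ht, one_mul]; exact le_root
  obtain ⟨k, hk1, hk2⟩ := exists_nat_pow_near h1 (by norm_num : (1 : ℝ) < 2)
  refine le_trans ?_ (ENNReal.le_tsum k)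
  have hmem : x ∈ ball (0 : Sp d) (2 ^ (k + 1) * t) := by
    rw [mem_ball_zero_iff]
    rw [div_lt_iff₀ ht] at hk2
    refine lt_of_le_of_lt ?_ hk2
    apply Real.le_sqrt_of_sq_le
    nlinarith [sq_nonneg t]
  rw [indicator_of_mem hmem]
  apply ENNReal.ofReal_le_ofReal
  unfold kk
  rw [le_div_iff₀ ht] at hk1
  gcongr

lemma th_le (hd : 1 ≤ d) {C' : ℝ} (hC' : 0 < C') (μ : Measure (Sp d)) [IsFiniteMeasure μ]
    (hg : ∀ (x : Sp d) (r : ℝ), 0 < r → μ (ball x r) ≤ ENNReal.ofReal (C' * r ^ (d - 1)))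
    {t : ℝ} (ht : 0 < t) (x : Sp d) : th μ t x ≤ C' * 2 ^ d := by
  have h0 : ENNReal.ofReal (th μ t x) ≤ ENNReal.ofReal (C' * 2 ^ d) := by
    unfold th
    rw [ofReal_integral_eq_lintegral_ofReal (kk_int hd μ ht x)
      (Filter.Eventually.of_forall (fun η => kk_nonneg ht _))]
    calc ∫⁻ η, ENNReal.ofReal (kk t (x - η)) ∂μ
        ≤ ∫⁻ η, ∑' k : ℕ, (ball x (2 ^ (k + 1) * t)).indicator
          (fun _ => ENNReal.ofReal (t / (2 ^ k * t) ^ d)) η ∂μ := by
          apply lintegral_mono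
          intro η
          refine (kk_shell ht (x - η)).trans (le_of_eq ?_)
          apply tsum_congr
          intro k
          by_cases h : x - η ∈ ball (0 : Sp d) (2 ^ (k + 1) * t)
          · have h' : η ∈ ball x (2 ^ (k + 1) * t) := by
              rw [mem_ball_zero_iff] at h
              rwa [mem_ball, dist_comm, dist_eq_norm]
            rw [indicator_of_mem h, indicator_of_mem h']
          · have h' : η ∉ ball x (2 ^ (k + 1) * t) := by
              intro h'
              apply h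
              rw [mem_ball, dist_comm, dist_eq_norm] at h'
              rwa [mem_ball_zero_iff]
            rw [indicator_of_notMem h, indicator_of_notMem h']
      _ = ∑' k : ℕ, ENNReal.ofReal (t / (2 ^ k * t) ^ d) * μ (ball x (2 ^ (k + 1) * t)) := by
          rw [lintegral_tsum]
          · apply tsum_congr
            intro k
            rw [lintegral_indicator_const measurableSet_ball]
          · intro k
            exact (measurable_const.indicator measurableSet_ball).aemeasurable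
      _ ≤ ∑' k : ℕ, ENNReal.ofReal (C' * 2 ^ (d - 1) * (1 / 2) ^ k) := by
          apply ENNReal.tsum_le_tsum
          intro k
          calc ENNReal.ofReal (t / (2 ^ k * t) ^ d) * μ (ball x (2 ^ (k + 1) * t))
              ≤ ENNReal.ofReal (t / (2 ^ k * t) ^ d) *
                ENNReal.ofReal (C' * (2 ^ (k + 1) * t) ^ (d - 1)) := by
                gcongr
                exact hg x _ (by positivity)
            _ = ENNReal.ofReal (t / (2 ^ k * t) ^ d * (C' * (2 ^ (k + 1) * t) ^ (d - 1))) :=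
                (ENNReal.ofReal_mul (by positivity)).symm
            _ = ENNReal.ofReal (C' * 2 ^ (d - 1) * (1 / 2) ^ k) := by
                congr 1
                have h3 : (2 ^ k * t) ^ d = (2 ^ k * t) * (2 ^ k * t) ^ (d - 1) := by
                  rw [← pow_succ']; congr 1; omega
                have h4 : (2 ^ (k + 1) * t) ^ (d - 1) =
                    2 ^ (d - 1) * (2 ^ k * t) ^ (d - 1) := by
                  rw [← mul_pow]; congr 1; ring
                rw [h3, h4, one_div, inv_pow]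
                field_simp
      _ = ENNReal.ofReal (∑' k : ℕ, C' * 2 ^ (d - 1) * (1 / 2) ^ k) := by
          rw [ENNReal.ofReal_tsum_of_nonneg]
          · intro k; positivity
          · exact (summable_geometric_two).mul_left _
      _ = ENNReal.ofReal (C' * 2 ^ d) := by
          congr 1
          rw [tsum_mul_left, tsum_geometric_two]
          have h3 : (2 : ℝ) ^ d = 2 ^ (d - 1) * 2 := by
            rw [← pow_succ]; congr 1; omega
          rw [h3]; ring
  exact (ENNReal.ofReal_le_ofReal_iff (by positivity)).mp h0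

/-! ### Differentiation under the integral sign -/

/-- the upper half space -/
def UU (d : ℕ) : Set (ℝ × Sp d) := {p | 0 < p.1}

lemma isOpen_UU : IsOpen (UU d) := isOpen_lt continuous_const continuous_fst

lemma UU_sub : UU d ⊆ ({0}ᶜ : Set (ℝ × Sp d)) := by
  intro p hp h
  rw [mem_singleton_iff] at h
  rw [h] at hp
  have h0 : (0 : ℝ) < (0 : ℝ × Sp d).1 := hp
  exact lt_irrefl _ h0

lemma mem_UU_sub {p : ℝ × Sp d} (hp : p ∈ UU d) (η : Sp d) : p - (0, η) ∈ UU d := by
  change 0 < (p - (0, η)).1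
  have hp' : 0 < p.1 := hp
  rw [Prod.fst_sub, sub_zero]
  exact hp'

lemma par_deriv {F : Type*} [NormedAddCommGroup F] [NormedSpace ℝ F]
    (μ : Measure (Sp d)) [IsFiniteMeasure μ] (G : ℝ × Sp d → F)
    (hd1 : ∀ p ∈ UU d, DifferentiableAt ℝ G p) (hc : ContinuousOn (fderiv ℝ G) (UU d))
    (hb : ∀ t0 : ℝ, 0 < t0 → ∃ B, ∀ p : ℝ × Sp d, t0 ≤ p.1 → ‖G p‖ ≤ B)
    (hb' : ∀ t0 : ℝ, 0 < t0 → ∃ B, ∀ p : ℝ × Sp d, t0 ≤ p.1 → ‖fderiv ℝ G p‖ ≤ B)
    {p0 : ℝ × Sp d} (hp0 : p0 ∈ UU d) :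
    Integrable (fun η => fderiv ℝ G (p0 - (0, η))) μ ∧
    HasFDerivAt (fun p => ∫ η, G (p - (0, η)) ∂μ) (∫ η, fderiv ℝ G (p0 - (0, η)) ∂μ) p0 := by
  have hp0' : 0 < p0.1 := hp0
  have hcG : ContinuousOn G (UU d) := fun p hp => (hd1 p hp).continuousAt.continuousWithinAt
  have hcont : ∀ p ∈ UU d, Continuous (fun η : Sp d => p - ((0 : ℝ), η)) := by
    intro p _; fun_prop
  have hm : ∀ p ∈ UU d, AEStronglyMeasurable (fun η => G (p - (0, η))) μ := by
    intro p hp
    exact (hcG.comp_continuous (hcont p hp) (fun η => mem_UU_sub hp η)).aestronglyMeasurable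
  have hm' : ∀ p ∈ UU d, AEStronglyMeasurable (fun η => fderiv ℝ G (p - (0, η))) μ := by
    intro p hp
    exact (hc.comp_continuous (hcont p hp) (fun η => mem_UU_sub hp η)).aestronglyMeasurable
  obtain ⟨B, hB⟩ := hb (p0.1 / 2) (by positivity)
  obtain ⟨B', hB'⟩ := hb' (p0.1 / 2) (by positivity)
  have hfst : ∀ (p : ℝ × Sp d) (η : Sp d), (p - ((0 : ℝ), η)).1 = p.1 := by
    intro p η; simp
  have hs : {p : ℝ × Sp d | p0.1 / 2 < p.1} ∈ nhds p0 :=
    (isOpen_lt continuous_const continuous_fst).mem_nhds (by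
      change p0.1 / 2 < p0.1; linarith)
  have hint : Integrable (fun η => fderiv ℝ G (p0 - (0, η))) μ := by
    refine Integrable.mono' (integrable_const B') (hm' p0 hp0) ?_
    filter_upwards with η
    exact hB' _ (by rw [hfst]; linarith)
  refine ⟨hint, ?_⟩
  refine hasFDerivAt_integral_of_dominated_of_fderiv_le
    (F' := fun p η => fderiv ℝ G (p - (0, η))) (bound := fun _ => B') hs ?_ ?_ (hm' p0 hp0) ?_
    (integrable_const B') ?_
  · filter_upwards [isOpen_UU.mem_nhds hp0] with p hp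
    exact hm p hp
  · refine Integrable.mono' (integrable_const B) (hm p0 hp0) ?_
    filter_upwards with η
    exact hB _ (by rw [hfst]; linarith)
  · filter_upwards with η p hp
    have hp' : p0.1 / 2 < p.1 := hp
    exact hB' _ (by rw [hfst]; linarith)
  · filter_upwards with η p hp
    have hp' : p0.1 / 2 < p.1 := hp
    have hpU : p ∈ UU d := by
      change 0 < p.1; linarith
    have h1 : HasFDerivAt G (fderiv ℝ G (p - (0, η))) (p - (0, η)) :=
      (hd1 _ (mem_UU_sub hpU η)).hasFDerivAt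
    have h2 : HasFDerivAt (fun p : ℝ × Sp d => p - (0, η))
        (ContinuousLinearMap.id ℝ (ℝ × Sp d)) p := (hasFDerivAt_id p).sub_const _
    have h3 := h1.comp p h2
    rwa [ContinuousLinearMap.comp_id] at h3

lemma kq_diff (n : ℕ) {p : ℝ × Sp d} (hp : p ∈ UU d) :
    DifferentiableAt ℝ (iteratedFDeriv ℝ n (kq d)) p := by
  have h1 : ContDiffAt ℝ ∞ (kq d) p :=
    (kq_smooth (d := d)).contDiffAt (isOpen_compl_singleton.mem_nhds (UU_sub hp))
  have h2 : ContDiffAt ℝ (n + 1 : ℕ) (kq d) p := h1.of_le (by exact_mod_cast le_top)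
  exact h2.differentiableAt_iteratedFDeriv (by exact_mod_cast Nat.lt_succ_self n)

lemma kq_bd (hd : 1 ≤ d) (n : ℕ) (t0 : ℝ) (ht0 : 0 < t0) :
    ∃ B, ∀ p : ℝ × Sp d, t0 ≤ p.1 → ‖iteratedFDeriv ℝ n (kq d) p‖ ≤ B := by
  obtain ⟨C, hC0, hC⟩ := kq_iter hd n
  refine ⟨C / t0 ^ (d - 1 + n), fun p hp => ?_⟩
  have hpne : p ≠ 0 := by
    rintro rfl
    exact absurd hp (not_le.mpr ht0)
  have hle : t0 ≤ ‖p‖ := hp.trans ((le_abs_self _).trans (norm_fst_le p))
  refine (hC p hpne).trans ?_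
  (clear * - hC0 ht0 hle; gcongr)

lemma norm_fderiv_iter (n : ℕ) (f : ℝ × Sp d → ℝ) (p : ℝ × Sp d) :
    ‖fderiv ℝ (iteratedFDeriv ℝ n f) p‖ = ‖iteratedFDeriv ℝ (n + 1) f p‖ := by
  rw [norm_fderiv_iteratedFDeriv]

lemma kq_fderiv_cont (n : ℕ) :
    ContinuousOn (fderiv ℝ (iteratedFDeriv ℝ n (kq d))) (UU d) := by
  intro p hp
  have h1 : ContDiffAt ℝ ∞ (kq d) p :=
    (kq_smooth (d := d)).contDiffAt (isOpen_compl_singleton.mem_nhds (UU_sub hp))
  have h2 : ContDiffAt ℝ 1 (iteratedFDeriv ℝ n (kq d)) p := by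
    have h3 : ContDiffAt ℝ ((n + 1 : ℕ) : ℕ∞) (kq d) p := h1.of_le (by exact_mod_cast le_top)
    exact h3.iteratedFDeriv_right (by norm_cast; omega)
  have h4 : ContDiffAt ℝ 0 (fderiv ℝ (iteratedFDeriv ℝ n (kq d))) p :=
    h2.fderiv_right (by norm_num)
  exact h4.continuousAt.continuousWithinAt

/-- the derivatives of the potential -/
lemma th_iter (hd : 1 ≤ d) (μ : Measure (Sp d)) [IsFiniteMeasure μ] (n : ℕ) :
    (∀ p ∈ UU d, Integrable (fun η => iteratedFDeriv ℝ n (kq d) (p - (0, η))) μ) ∧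
    (∀ p ∈ UU d, iteratedFDeriv ℝ n (fun q : ℝ × Sp d => th μ q.1 q.2) p =
      ∫ η, iteratedFDeriv ℝ n (kq d) (p - (0, η)) ∂μ) ∧
    (∀ p ∈ UU d, DifferentiableAt ℝ
      (iteratedFDeriv ℝ n (fun q : ℝ × Sp d => th μ q.1 q.2)) p) := by
  have hI : ∀ m : ℕ, ∀ p ∈ UU d,
      Integrable (fun η => iteratedFDeriv ℝ m (kq d) (p - (0, η))) μ := by
    intro m p hp
    obtain ⟨B, hB⟩ := kq_bd hd m p.1 hp
    refine Integrable.mono' (integrable_const B) ?_ ?_
    · have hcG : ContinuousOn (iteratedFDeriv ℝ m (kq d)) (UU d) :=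
        fun p hp => (kq_diff m hp).continuousAt.continuousWithinAt
      exact (hcG.comp_continuous (by fun_prop) (fun η => mem_UU_sub hp η)).aestronglyMeasurable
    · filter_upwards with η
      exact hB _ (by simp)
  have hb1 : ∀ m : ℕ, ∀ t0 : ℝ, 0 < t0 → ∃ B, ∀ p : ℝ × Sp d, t0 ≤ p.1 →
      ‖fderiv ℝ (iteratedFDeriv ℝ m (kq d)) p‖ ≤ B := by
    intro m t0 ht0
    obtain ⟨B, hB⟩ := kq_bd hd (m + 1) t0 ht0
    exact ⟨B, fun q hq => by rw [norm_fderiv_iter]; exact hB q hq⟩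
  have hpar := fun (m : ℕ) (p : ℝ × Sp d) (hp : p ∈ UU d) =>
    par_deriv μ (iteratedFDeriv ℝ m (kq d)) (fun q hq => kq_diff m hq) (kq_fderiv_cont m)
      (kq_bd hd m) (hb1 m) hp
  have hE : ∀ m : ℕ, ∀ p ∈ UU d, iteratedFDeriv ℝ m (fun q : ℝ × Sp d => th μ q.1 q.2) p =
      ∫ η, iteratedFDeriv ℝ m (kq d) (p - (0, η)) ∂μ := by
    intro m
    induction m with
    | zero =>
      intro p hp
      ext v
      rw [iteratedFDeriv_zero_apply, ContinuousMultilinearMap.integral_apply]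
      · simp only [iteratedFDeriv_zero_apply]
        unfold th
        apply integral_congr_ae
        filter_upwards with η
        simp [kq]
      · exact hI 0 p hp
    | succ m ih =>
      intro p hp
      have hev : iteratedFDeriv ℝ m (fun q : ℝ × Sp d => th μ q.1 q.2) =ᶠ[nhds p]
          fun p => ∫ η, iteratedFDeriv ℝ m (kq d) (p - (0, η)) ∂μ := by
        filter_upwards [isOpen_UU.mem_nhds hp] with q hq
        exact ih q hq
      rw [iteratedFDeriv_succ_eq_comp_left, Function.comp_apply, hev.fderiv_eq,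
        (hpar m p hp).2.fderiv]
      have h1 : ∀ η : Sp d, iteratedFDeriv ℝ (m + 1) (kq d) (p - (0, η)) =
          (continuousMultilinearCurryLeftEquiv ℝ (fun _ : Fin (m + 1) => ℝ × Sp d) ℝ).symm
            (fderiv ℝ (iteratedFDeriv ℝ m (kq d)) (p - (0, η))) := by
        intro η
        rw [iteratedFDeriv_succ_eq_comp_left]; rfl
      simp only [h1]
      let L : ((ℝ × Sp d) →L[ℝ] ((ℝ × Sp d) [×m]→L[ℝ] ℝ)) →L[ℝ] ((ℝ × Sp d) [×(m + 1)]→L[ℝ] ℝ) :=
        ((continuousMultilinearCurryLeftEquiv ℝ (fun _ : Fin (m + 1) => ℝ × Sp d) ℝ).symm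
          ).toContinuousLinearEquiv.toContinuousLinearMap
      exact (L.integral_comp_comm (hpar m p hp).1).symm
  refine ⟨hI n, hE n, ?_⟩
  intro p hp
  have hev : iteratedFDeriv ℝ n (fun q : ℝ × Sp d => th μ q.1 q.2) =ᶠ[nhds p]
      fun p => ∫ η, iteratedFDeriv ℝ n (kq d) (p - (0, η)) ∂μ := by
    filter_upwards [isOpen_UU.mem_nhds hp] with q hq
    exact hE n q hq
  exact ((hpar n p hp).2.differentiableAt).congr_of_eventuallyEq hev

lemma th_smooth (hd : 1 ≤ d) (μ : Measure (Sp d)) [IsFiniteMeasure μ] :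
    ContDiffOn ℝ ∞ (fun q : ℝ × Sp d => th μ q.1 q.2) (UU d) := by
  refine contDiffOn_of_differentiableOn (n := (⊤ : ℕ∞)) ?_
  intro m _
  have h1 : DifferentiableOn ℝ (iteratedFDeriv ℝ m (fun q : ℝ × Sp d => th μ q.1 q.2)) (UU d) :=
    fun p hp => ((th_iter hd μ m).2.2 p hp).differentiableWithinAt
  exact h1.congr (fun p hp => iteratedFDerivWithin_of_isOpen m isOpen_UU hp)

lemma th_bound (hd : 1 ≤ d) (n : ℕ) : ∃ C, 1 ≤ C ∧ ∀ (μ : Measure (Sp d)) [IsFiniteMeasure μ],
    ∀ p ∈ UU d, ‖iteratedFDeriv ℝ n (fun q : ℝ × Sp d => th μ q.1 q.2) p‖ ≤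
      C * th μ p.1 p.2 / p.1 ^ n := by
  obtain ⟨C, hC1, hC⟩ := kq_iter' (d := d) hd n
  refine ⟨C, hC1, ?_⟩
  intro μ _ p hp
  rw [(th_iter hd μ n).2.1 p hp]
  have hint : Integrable (fun η => C / p.1 ^ n * kk p.1 (p.2 - η)) μ :=
    (kk_int hd μ hp p.2).const_mul _
  refine (norm_integral_le_of_norm_le hint ?_).trans (le_of_eq ?_)
  · filter_upwards with η
    have h1 := hC (p - (0, η)) (mem_UU_sub hp η)
    refine h1.trans (le_of_eq ?_)
    simp only [kq, Prod.fst_sub, Prod.snd_sub, sub_zero]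
    ring
  · rw [integral_const_mul]
    unfold th
    ring

/-! ### The square root -/

lemma sqrt_bd (n : ℕ) : ∃ C, 1 ≤ C ∧ ∀ i ≤ n,
    ‖iteratedFDerivWithin ℝ i Real.sqrt (Ioi 0) 1‖ ≤ C := by
  refine ⟨1 + ∑ i ∈ Finset.range (n + 1), ‖iteratedFDerivWithin ℝ i Real.sqrt (Ioi 0) 1‖, ?_, ?_⟩
  · have : 0 ≤ ∑ i ∈ Finset.range (n + 1), ‖iteratedFDerivWithin ℝ i Real.sqrt (Ioi 0) 1‖ :=
      Finset.sum_nonneg (fun _ _ => norm_nonneg _)
    linarith
  · intro i hi
    have := Finset.single_le_sum (f := fun i => ‖iteratedFDerivWithin ℝ i Real.sqrt (Ioi 0) 1‖)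
      (fun _ _ => norm_nonneg _) (Finset.mem_range.mpr (Nat.lt_succ_of_le hi))
    linarith

lemma sqrt_smooth : ContDiffOn ℝ ∞ Real.sqrt (Ioi 0) := by
  intro x hx
  exact (Real.contDiffAt_sqrt (ne_of_gt hx)).contDiffWithinAt

lemma vv_smooth (hd : 1 ≤ d) (μ : Measure (Sp d)) [IsFiniteMeasure μ] (hμ : μ ≠ 0) :
    ContDiffOn ℝ ∞ (fun q : ℝ × Sp d => vv μ q.1 q.2) (UU d) := by
  unfold vv
  exact (th_smooth hd μ).sqrt (fun p hp => (th_pos hd μ hμ hp p.2).ne')

lemma vv_bound (hd : 1 ≤ d) (n : ℕ) : ∃ C, 1 ≤ C ∧ ∀ (μ : Measure (Sp d)) [IsFiniteMeasure μ],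
    μ ≠ 0 → ∀ p ∈ UU d, ‖iteratedFDeriv ℝ n (fun q : ℝ × Sp d => vv μ q.1 q.2) p‖ ≤
      C * vv μ p.1 p.2 / p.1 ^ n := by
  have h1 : ∃ D : ℝ, 1 ≤ D ∧ ∀ i ≤ n, ∀ (μ : Measure (Sp d)) [IsFiniteMeasure μ],
      ∀ p ∈ UU d, ‖iteratedFDeriv ℝ i (fun q : ℝ × Sp d => th μ q.1 q.2) p‖ ≤
      D * th μ p.1 p.2 / p.1 ^ i := by
    choose D hD1 hD using fun i => th_bound (d := d) hd i
    refine ⟨1 + ∑ i ∈ Finset.range (n + 1), D i, ?_, ?_⟩
    · have : 0 ≤ ∑ i ∈ Finset.range (n + 1), D i :=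
        Finset.sum_nonneg (fun i _ => zero_le_one.trans (hD1 i))
      linarith
    · intro i hi μ _ p hp
      refine (hD i μ p hp).trans ?_
      have hle : D i ≤ 1 + ∑ i ∈ Finset.range (n + 1), D i := by
        have := Finset.single_le_sum (f := D)
          (fun i _ => zero_le_one.trans (hD1 i)) (Finset.mem_range.mpr (Nat.lt_succ_of_le hi))
        linarith
      have hth : 0 ≤ th μ p.1 p.2 := integral_nonneg (fun η => kk_nonneg hp _)
      have hp1 : 0 < p.1 := hp
      gcongr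
  obtain ⟨D, hD1, hD⟩ := h1
  obtain ⟨B, hB1, hB⟩ := sqrt_bd n
  refine ⟨n.factorial * B * D ^ n, ?_, ?_⟩
  · have h2 : (1 : ℝ) ≤ n.factorial := by exact_mod_cast Nat.one_le_iff_ne_zero.mpr n.factorial_ne_zero
    have h3 : (1 : ℝ) ≤ D ^ n := one_le_pow₀ hD1
    have h4 : (1 : ℝ) ≤ n.factorial * B := one_le_mul_of_one_le_of_one_le h2 hB1
    exact one_le_mul_of_one_le_of_one_le h4 h3
  · intro μ _ hμ p hp
    have hp1 : 0 < p.1 := hp
    have hn0 : (n : ℕ∞ω) ≤ ∞ := by exact_mod_cast le_top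
    set a := th μ p.1 p.2 with ha
    have hapos : 0 < a := th_pos hd μ hμ hp p.2
    set f : ℝ × Sp d → ℝ := a⁻¹ • (fun q : ℝ × Sp d => th μ q.1 q.2) with hf
    have hfs : ContDiffOn ℝ ∞ f (UU d) := (th_smooth hd μ).const_smul a⁻¹
    have hfp : f p = 1 := by
      rw [hf, Pi.smul_apply, smul_eq_mul, ← ha, inv_mul_cancel₀ hapos.ne']
    have hmaps : MapsTo f (UU d) (Ioi 0) := by
      intro q hq
      rw [mem_Ioi, hf, Pi.smul_apply, smul_eq_mul]
      exact mul_pos (inv_pos.mpr hapos) (th_pos hd μ hμ hq q.2)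
    have key := norm_iteratedFDerivWithin_comp_le (𝕜 := ℝ) (g := Real.sqrt) (f := f) (n := n)
      (s := UU d) (t := Ioi 0) (x := p) (N := ∞) sqrt_smooth hfs hn0 isOpen_Ioi.uniqueDiffOn
      isOpen_UU.uniqueDiffOn hmaps hp (C := B) (D := D / p.1) (by
        intro i hi
        rw [hfp]
        exact hB i hi) (by
        intro i hi1 hi
        have hw : ContDiffWithinAt ℝ i (fun q : ℝ × Sp d => th μ q.1 q.2) (UU d) p :=
          ((th_smooth hd μ) p hp).of_le (by exact_mod_cast le_top)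
        rw [hf, iteratedFDerivWithin_const_smul_apply hw isOpen_UU.uniqueDiffOn hp,
          iteratedFDerivWithin_of_isOpen i isOpen_UU hp, norm_smul,
          Real.norm_of_nonneg (inv_pos.mpr hapos).le]
        calc a⁻¹ * ‖iteratedFDeriv ℝ i (fun q : ℝ × Sp d => th μ q.1 q.2) p‖
            ≤ a⁻¹ * (D * a / p.1 ^ i) := by
              gcongr
              exact hD i hi μ p hp
          _ = D / p.1 ^ i := by
              field_simp
          _ ≤ (D / p.1) ^ i := by
              rw [div_pow]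
              gcongr
              exact le_self_pow₀ hD1 (by omega))
    have hv : (fun q : ℝ × Sp d => vv μ q.1 q.2) = Real.sqrt a • (Real.sqrt ∘ f) := by
      funext q
      rw [Pi.smul_apply, Function.comp_apply, smul_eq_mul, hf, Pi.smul_apply, smul_eq_mul,
        ← Real.sqrt_mul hapos.le, mul_inv_cancel_left₀ hapos.ne']
      rfl
    have hcomp : ContDiffOn ℝ ∞ (Real.sqrt ∘ f) (UU d) := sqrt_smooth.comp hfs hmaps
    rw [hv, ← iteratedFDerivWithin_of_isOpen n isOpen_UU hp,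
      iteratedFDerivWithin_const_smul_apply ((hcomp p hp).of_le hn0) isOpen_UU.uniqueDiffOn hp,
      norm_smul, Real.norm_of_nonneg (Real.sqrt_nonneg a)]
    calc Real.sqrt a * ‖iteratedFDerivWithin ℝ n (Real.sqrt ∘ f) (UU d) p‖
        ≤ Real.sqrt a * (n.factorial * B * (D / p.1) ^ n) := by gcongr
      _ = n.factorial * B * D ^ n * vv μ p.1 p.2 / p.1 ^ n := by
          rw [div_pow]
          change _ = n.factorial * B * D ^ n * Real.sqrt (th μ p.1 p.2) / p.1 ^ n
          rw [← ha]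
          ring

end THm

open _root_.TG.THm in
theorem stmtTH : StmtTH := by
  intro d J hd C' hC'
  have hd1 : 1 ≤ d := by omega
  choose D hD1 hD using fun i => vv_bound (d := d) hd1 i
  set S : ℝ := ∑ i ∈ Finset.range (J + 1), D i with hS
  have hS0 : 0 ≤ S := Finset.sum_nonneg (fun i _ => zero_le_one.trans (hD1 i))
  refine ⟨C' * 2 ^ d + S + 8 ^ (d + 1), by positivity, ?_⟩
  intro μ hμ
  have := hμ.fin
  refine ⟨?_, vv_smooth hd1 μ hμ.ne, ?_, ?_, ?_⟩
  · intro t x ht
    refine ⟨th_pos hd1 μ hμ.ne ht x, (th_le hd1 hC' μ hμ.gro ht x).trans ?_⟩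
    have : (0 : ℝ) ≤ 8 ^ (d + 1) := by positivity
    linarith
  · intro t x j ht hj
    refine (hD j μ hμ.ne (t, x) ht).trans ?_
    have hle : D j ≤ C' * 2 ^ d + S + 8 ^ (d + 1) := by
      have h1 := Finset.single_le_sum (f := D)
        (fun i _ => zero_le_one.trans (hD1 i)) (Finset.mem_range.mpr (Nat.lt_succ_of_le hj))
      have h2 : (0 : ℝ) ≤ 8 ^ (d + 1) := by positivity
      have h3 : (0 : ℝ) ≤ C' * 2 ^ d := by positivity
      linarith
    have hvn : 0 ≤ vv μ t x := Real.sqrt_nonneg _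
    change D j * vv μ t x / t ^ j ≤ _
    gcongr
  · intro t x x' ht
    unfold th
    rw [← integral_const_mul]
    apply integral_mono (kk_int hd1 μ ht x') ((kk_int hd1 μ ht x).const_mul _)
    intro η
    have := kk_harnack ht (x - η) (x' - η)
    have h2 : x - η - (x' - η) = x - x' := by abel
    rw [h2] at this
    exact this
  · intro s t x ht hs1 hs2
    have hs : 0 < s := lt_of_lt_of_le (by positivity) hs1
    have h1 : th μ s x ≤ 8 ^ (d + 1) * th μ t x := by
      unfold th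
      rw [← integral_const_mul]
      apply integral_mono (kk_int hd1 μ hs x) ((kk_int hd1 μ ht x).const_mul _)
      intro η
      exact kk_time ht hs1 hs2 _
    have h2 : 0 ≤ th μ t x := (th_pos hd1 μ hμ.ne ht x).le
    have h3 : (0 : ℝ) ≤ C' * 2 ^ d := by positivity
    refine h1.trans ?_
    gcongr
    linarith

end

end TG


end

section

set_option autoImplicit false

/-!
# Module PK: packing (4.1)
-/

open MeasureTheory Metric Set TrI
open scoped InnerProductSpace ContDiff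

namespace TG

noncomputable section

namespace PK

variable {d : ℕ}

/-! ### Real sums -/

lemma tele (a : ℕ → ℝ) (ha : Antitone a) (h0 : ∀ n, 0 ≤ a n) (q L : ℕ) :
    ∑ l ∈ Finset.range L, (a l - a (l + q)) ≤ q * a 0 := by
  induction q with
  | zero => simp
  | succ q ih =>
    have h1 : ∑ l ∈ Finset.range L, (a l - a (l + (q + 1))) =
        ∑ l ∈ Finset.range L, (a l - a (l + q)) + ∑ l ∈ Finset.range L, (a (l + q) - a (l + 1 + q)) := by
      rw [← Finset.sum_add_distrib]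
      apply Finset.sum_congr rfl
      intro l _
      rw [show l + (q + 1) = l + 1 + q by ring]
      ring
    have h2 : ∑ l ∈ Finset.range L, (a (l + q) - a (l + 1 + q)) = a (0 + q) - a (L + q) :=
      Finset.sum_range_sub' (fun l => a (l + q)) L
    rw [h1, h2]
    have h3 : a (0 + q) ≤ a 0 := ha (Nat.zero_le _)
    have h4 := h0 (L + q)
    push_cast
    linarith

lemma double_sum (a : ℕ → ℝ) (ha : Antitone a) (h0 : ∀ n, 0 ≤ a n) (J0 I : ℕ) :
    ∑ i ∈ Finset.range I, ∑ l ∈ Finset.range (i + 1), (1 / 4 : ℝ) ^ (i - l) * (a l - a (i + J0)) ≤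
      2 * (J0 + 1) * a 0 := by
  have h1 : ∑ i ∈ Finset.range I, ∑ l ∈ Finset.range (i + 1), (1 / 4 : ℝ) ^ (i - l) * (a l - a (i + J0)) =
      ∑ i ∈ Finset.range I, ∑ k ∈ Finset.range (i + 1), (1 / 4 : ℝ) ^ k * (a (i - k) - a (i + J0)) := by
    apply Finset.sum_congr rfl
    intro i _
    rw [← Finset.sum_range_reflect]
    apply Finset.sum_congr rfl
    intro k hk
    rw [Finset.mem_range] at hk
    have e1 : i + 1 - 1 - k = i - k := by omega
    have e2 : i - (i - k) = k := by omega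
    rw [e1, e2]
  have h2 : ∑ i ∈ Finset.range I, ∑ k ∈ Finset.range (i + 1), (1 / 4 : ℝ) ^ k * (a (i - k) - a (i + J0)) =
      ∑ k ∈ Finset.range I, ∑ i ∈ Finset.Ico k I, (1 / 4 : ℝ) ^ k * (a (i - k) - a (i + J0)) := by
    apply Finset.sum_comm'
    intro i k
    simp only [Finset.mem_range, Finset.mem_Ico]
    omega
  have h3 : ∀ k ∈ Finset.range I, ∑ i ∈ Finset.Ico k I, (1 / 4 : ℝ) ^ k * (a (i - k) - a (i + J0)) ≤
      (1 / 2 : ℝ) ^ k * ((J0 + 1) * a 0) := by
    intro k _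
    rw [Finset.sum_Ico_eq_sum_range, ← Finset.mul_sum]
    have e1 : ∑ l ∈ Finset.range (I - k), (a (k + l - k) - a (k + l + J0)) =
        ∑ l ∈ Finset.range (I - k), (a l - a (l + (k + J0))) := by
      apply Finset.sum_congr rfl
      intro l _
      rw [Nat.add_sub_cancel_left, show k + l + J0 = l + (k + J0) by ring]
    rw [e1]
    have e2 := tele a ha h0 (k + J0) (I - k)
    have e3 : ((k + J0 : ℕ) : ℝ) ≤ 2 ^ k * (J0 + 1) := by
      have e4 : (k : ℝ) + 1 ≤ 2 ^ k := by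
        have := (Nat.lt_two_pow_self (n := k))
        exact_mod_cast this
      push_cast
      have e5 : (0 : ℝ) ≤ J0 := Nat.cast_nonneg _
      nlinarith only [e4]
    have e6 : (1 / 4 : ℝ) ^ k = (1 / 2) ^ k * (1 / 2) ^ k := by
      rw [← mul_pow]; norm_num
    have e7 : (1 / 2 : ℝ) ^ k * 2 ^ k = 1 := by
      rw [← mul_pow]; norm_num
    calc (1 / 4 : ℝ) ^ k * ∑ l ∈ Finset.range (I - k), (a l - a (l + (k + J0)))
        ≤ (1 / 4 : ℝ) ^ k * (((k + J0 : ℕ) : ℝ) * a 0) := mul_le_mul_of_nonneg_left e2 (by positivity)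
      _ ≤ (1 / 4 : ℝ) ^ k * ((2 ^ k * (J0 + 1)) * a 0) := by
          apply mul_le_mul_of_nonneg_left _ (by positivity)
          exact mul_le_mul_of_nonneg_right e3 (h0 0)
      _ = (1 / 2 : ℝ) ^ k * ((J0 + 1) * a 0) * ((1 / 2) ^ k * 2 ^ k) := by rw [e6]; ring
      _ = _ := by rw [e7, mul_one]
  rw [h1, h2]
  refine (Finset.sum_le_sum h3).trans ?_
  rw [← Finset.sum_mul]
  have h4 : ∑ k ∈ Finset.range I, (1 / 2 : ℝ) ^ k ≤ 2 := by
    have := geom_sum_eq (show (1 / 2 : ℝ) ≠ 1 by norm_num) I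
    rw [this]
    have h5 : (0 : ℝ) ≤ (1 / 2) ^ I := by positivity
    rw [div_le_iff_of_neg (by norm_num)]
    linarith
  have h5 : 0 ≤ ((J0 : ℝ) + 1) * a 0 := mul_nonneg (by positivity) (h0 0)
  nlinarith only [h4, h5]

lemma tsum_le_of_finset {ι : Type*} {T : ι → ℝ} {B : ℝ} (hB : 0 ≤ B)
    (h : ∀ S : Finset ι, ∑ p ∈ S, T p ≤ B) : ∑' p, T p ≤ B := by
  by_cases hs : Summable T
  · exact hs.tsum_le_of_sum_le h
  · rw [tsum_eq_zero_of_not_summable hs]; exact hB

/-! ### Overlap -/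

open Classical in
lemma card_le (s ρ : ℝ) (hs : 0 < s) (hρ : 0 ≤ ρ) (S : Finset (Fin d → ℤ)) (y : Sp d) :
    (((S.filter (fun p => y ∈ ball (s • lat p) (ρ * s))).card : ℕ) : ℝ) ≤ (2 * ρ + 1) ^ d := by
  have h1 : S.filter (fun p => y ∈ ball (s • lat p) (ρ * s)) ⊆
      Fintype.piFinset (fun j : Fin d => Finset.Icc ⌈y j / s - ρ⌉ ⌊y j / s + ρ⌋) := by
    intro p hp
    rw [Finset.mem_filter, mem_ball, dist_eq_norm] at hp
    rw [Fintype.mem_piFinset]
    intro j
    have h2 : ‖(y - s • lat p) j‖ ≤ ‖y - s • lat p‖ := PiLp.norm_apply_le _ j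
    have h3 : (y - s • lat p) j = y j - s * (p j : ℝ) := by
      simp [lat]
    rw [h3, Real.norm_eq_abs] at h2
    have h4 : |y j - s * (p j : ℝ)| < ρ * s := lt_of_le_of_lt h2 hp.2
    rw [abs_lt] at h4
    have h5 : y j / s - ρ < p j := by
      rw [sub_lt_iff_lt_add, div_lt_iff₀ hs]
      linarith [h4.2]
    have h6 : (p j : ℝ) < y j / s + ρ := by
      rw [← sub_lt_iff_lt_add, lt_div_iff₀ hs]
      linarith [h4.1]
    rw [Finset.mem_Icc]
    exact ⟨Int.ceil_le.mpr h5.le, Int.le_floor.mpr h6.le⟩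
  have h2 := Finset.card_le_card h1
  rw [Fintype.card_piFinset] at h2
  have h3 : ((∏ j : Fin d, (Finset.Icc ⌈y j / s - ρ⌉ ⌊y j / s + ρ⌋).card : ℕ) : ℝ) ≤ (2 * ρ + 1) ^ d := by
    push_cast
    calc ∏ j : Fin d, (((Finset.Icc ⌈y j / s - ρ⌉ ⌊y j / s + ρ⌋).card : ℕ) : ℝ)
        ≤ ∏ _j : Fin d, (2 * ρ + 1) := by
          apply Finset.prod_le_prod
          · intro j _; positivity
          · intro j _
            rw [Int.card_Icc]
            have e1 : ((((⌊y j / s + ρ⌋ + 1 - ⌈y j / s - ρ⌉).toNat : ℕ) : ℤ) : ℝ) ≤ 2 * ρ + 1 := by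
              rw [Int.toNat_eq_max]
              push_cast
              apply max_le
              · have h7 := Int.floor_le (y j / s + ρ)
                have h8 := Int.le_ceil (y j / s - ρ)
                linarith
              · linarith
            exact_mod_cast e1
      _ = (2 * ρ + 1) ^ d := by simp
  exact le_trans (by exact_mod_cast h2) h3

open Classical in
lemma overlap (s ρ : ℝ) (hs : 0 < s) (hρ : 0 ≤ ρ) (S : Finset (Fin d → ℤ)) {g : Sp d → ℝ}
    (hg : Integrable g) (h0 : ∀ y, 0 ≤ g y) :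
    ∑ p ∈ S, ∫ y in ball (s • lat p) (ρ * s), g y ≤ (2 * ρ + 1) ^ d * ∫ y, g y := by
  have h1 : ∀ p ∈ S, ∫ y in ball (s • lat p) (ρ * s), g y =
      ∫ y, (ball (s • lat p) (ρ * s)).indicator g y := by
    intro p _
    rw [integral_indicator measurableSet_ball]
  rw [Finset.sum_congr rfl h1, ← integral_finsetSum _ (fun p _ => hg.indicator measurableSet_ball),
    ← integral_const_mul]
  refine integral_mono (integrable_finsetSum _ (fun p _ => hg.indicator measurableSet_ball))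
    (hg.const_mul _) ?_
  intro y
  change ∑ p ∈ S, (ball (s • lat p) (ρ * s)).indicator g y ≤ (2 * ρ + 1) ^ d * g y
  have h2 : ∀ p ∈ S, (ball (s • lat p) (ρ * s)).indicator g y =
      if y ∈ ball (s • lat p) (ρ * s) then g y else 0 := by
    intro p _
    rw [Set.indicator_apply]
  rw [Finset.sum_congr rfl h2, ← Finset.sum_filter, Finset.sum_const, nsmul_eq_mul]
  exact mul_le_mul_of_nonneg_right (card_le s ρ hs hρ S y) (h0 y)

end PK

theorem stmtPK : StmtPK := by
  intro d hd M c ε R hε hε1 hR b hb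
  have hc := hb.c_pos
  -- choice of J0
  obtain ⟨J0, hJ0, hJ1⟩ : ∃ J0 : ℕ, 1 ≤ J0 ∧ R + 1 ≤ c * (ε * 2 ^ J0) := by
    obtain ⟨k, hk⟩ := pow_unbounded_of_one_lt ((R + 1) / (c * ε)) (one_lt_two : (1 : ℝ) < 2)
    refine ⟨k + 1, by omega, ?_⟩
    rw [div_lt_iff₀ (mul_pos hc hε)] at hk
    have : (2 : ℝ) ^ (k + 1) = 2 * 2 ^ k := by rw [pow_succ]; ring
    rw [this]
    have h2 : 0 < (2 : ℝ) ^ k := by positivity
    linarith only [hR, hk]
  set κ : ℝ := (volume (ball (0 : Sp d) 1)).toReal with hκ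
  have hκ0 : 0 < κ := ENNReal.toReal_pos (measure_ball_pos _ _ one_pos).ne' measure_ball_lt_top.ne
  set K : ℝ := (ε * 2 ^ J0) ^ d / (c * κ) with hK
  have hK0 : 0 < K := by positivity
  refine ⟨K * 3 ^ d * (2 * (J0 + 1)) + (2 * R + 1) ^ d * 2, by positivity, ?_⟩
  intro E _ _ _ _ f hf hfc s0 hs0
  have hak := hb.ak
  -- basic objects
  set a : ℕ → ℝ := fun l => ∫ x, ‖fl b ε s0 f l x‖ with ha
  have hfl := fun l => fl_cont hak ε s0 hf l
  have hfs := fun l => fl_cs hak ε s0 hfc l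
  have ha0 : ∀ l, 0 ≤ a l := fun l => integral_nonneg (fun x => norm_nonneg _)
  have hanti : Antitone a := by
    intro l m hlm
    obtain ⟨r, rfl⟩ := Nat.exists_eq_add_of_le hlm
    exact fl_norm_int_le hak ε s0 hf hfc l r
  set Hf : ℕ → ℕ → Sp d → ℝ := fun i l z =>
    chn b ε s0 l (i + J0 - l) (fun y => ‖fl b ε s0 f l y‖) z - ‖fl b ε s0 f (i + J0) z‖ with hHf
  have hHc : ∀ i l, Continuous (Hf i l) := fun i l =>
    (chn_cont hak ε s0 l _ (hfl l).norm).sub (hfl _).norm
  have hHs : ∀ i l, HasCompactSupport (Hf i l) := by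
    intro i l
    have h1 := chn_cs hak ε s0 l (i + J0 - l) (hfs l).norm
    have h2 := (hfs (i + J0)).norm
    exact h1.sub h2
  have hHi : ∀ i l, Integrable (Hf i l) := fun i l =>
    (hHc i l).integrable_of_hasCompactSupport (hHs i l)
  have hH0 : ∀ i l, l ≤ i → ∀ z, 0 ≤ Hf i l z := by
    intro i l hl z
    have h1 := norm_chn_le hak ε s0 l (i + J0 - l) (hfl l) z
    rw [← fl_chn, show l + (i + J0 - l) = i + J0 by omega] at h1
    exact sub_nonneg.mpr h1
  have hHint : ∀ i l, l ≤ i → ∫ z, Hf i l z = a l - a (i + J0) := by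
    intro i l hl
    simp only [hHf]
    rw [integral_sub, chn_int hak ε s0 l _ (hfl l).norm (hfs l).norm]
    · exact (chn_cont hak ε s0 l _ (hfl l).norm).integrable_of_hasCompactSupport
        (chn_cs hak ε s0 l _ (hfs l).norm)
    · exact (hfl _).norm.integrable_of_hasCompactSupport (hfs _).norm
  set Φ : ℕ → Sp d → ℝ := fun i z => ∑ l ∈ Finset.range (i + 1), (1 / 4 : ℝ) ^ (i - l) * Hf i l z with hΦ
  have hΦi : ∀ i, Integrable (Φ i) := fun i =>
    integrable_finsetSum _ (fun l _ => (hHi i l).const_mul _)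
  have hΦ0 : ∀ i z, 0 ≤ Φ i z := fun i z => Finset.sum_nonneg (fun l hl =>
    mul_nonneg (by positivity) (hH0 i l (by rw [Finset.mem_range] at hl; omega) z))
  have hΦint : ∀ i, ∫ z, Φ i z = ∑ l ∈ Finset.range (i + 1), (1 / 4 : ℝ) ^ (i - l) * (a l - a (i + J0)) := by
    intro i
    simp only [hΦ]
    rw [integral_finsetSum _ (fun l _ => (hHi i l).const_mul _)]
    apply Finset.sum_congr rfl
    intro l hl
    rw [Finset.mem_range] at hl
    rw [integral_const_mul, hHint i l (by omega)]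
  -- the choice of the directions
  have key : ∀ (i : ℕ) (p : Fin d → ℤ), ∃ e : E, ‖e‖ = 1 ∧
      lev s0 i ^ (d - 1) * DD b ε R s0 f i (cen s0 i p) e ≤
        K * (∫ z in ball (lev s0 i • lat p) (1 * lev s0 i), Φ i z) +
        (1 / 4 : ℝ) ^ i * ∫ y in ball (lev s0 i • lat p) (R * lev s0 i), ‖f y‖ := by
    intro i p
    have hs := lev_pos hs0 i
    set s := lev s0 i with hsdef
    set q : Sp d := s • lat p with hq
    have hvol : (volume (ball q (1 * s))).toReal = s ^ d * κ := by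
      rw [one_mul, Measure.addHaar_ball_of_pos _ _ hs, ENNReal.toReal_mul, ENNReal.toReal_ofReal (by positivity)]
      simp [hκ]
    obtain ⟨z, hz, hzle⟩ := exists_le_setAverage (μ := (volume : Measure (Sp d)))
      (s := ball q (1 * s)) (f := Φ i) (measure_ball_pos _ _ (by linarith)).ne' measure_ball_lt_top.ne
      (hΦi i).integrableOn
    rw [setAverage_eq, Measure.real, hvol, smul_eq_mul] at hzle
    rw [mem_ball, one_mul, dist_eq_norm] at hz
    -- the direction
    obtain ⟨e, he, hfe⟩ : ∃ e : E, ‖e‖ = 1 ∧ ⟪fl b ε s0 f (i + J0) z, e⟫_ℝ = ‖fl b ε s0 f (i + J0) z‖ := by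
      by_cases h0 : fl b ε s0 f (i + J0) z = 0
      · obtain ⟨e, he⟩ := exists_norm_eq E (zero_le_one : (0 : ℝ) ≤ 1)
        refine ⟨e, he, ?_⟩
        rw [h0]; simp
      · have hn : ‖fl b ε s0 f (i + J0) z‖ ≠ 0 := norm_ne_zero_iff.mpr h0
        refine ⟨(‖fl b ε s0 f (i + J0) z‖)⁻¹ • fl b ε s0 f (i + J0) z, ?_, ?_⟩
        · rw [norm_smul, norm_inv, norm_norm, inv_mul_cancel₀ hn]
        · rw [real_inner_smul_right, real_inner_self_eq_norm_sq, pow_two, ← mul_assoc, inv_mul_cancel₀ hn, one_mul]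
    refine ⟨e, he, ?_⟩
    -- bound for each level
    have hlev : ∀ l ∈ Finset.range (i + 1),
        ∫ y in ball q (R * s), (‖fl b ε s0 f l y‖ - ⟪fl b ε s0 f l y, e⟫_ℝ) ≤
          (ε * (2 ^ J0 * s)) ^ d / c * Hf i l z := by
      intro l hl
      rw [Finset.mem_range] at hl
      obtain ⟨r, hr⟩ : ∃ r, i + J0 - l = r + 1 := ⟨i + J0 - l - 1, by omega⟩
      have hlr : l + r + 1 = i + J0 := by omega
      have hgc : Continuous fun y => ‖fl b ε s0 f l y‖ - ⟪fl b ε s0 f l y, e⟫_ℝ :=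
        (hfl l).norm.sub ((hfl l).inner continuous_const)
      have hg0 : ∀ y, 0 ≤ ‖fl b ε s0 f l y‖ - ⟪fl b ε s0 f l y, e⟫_ℝ := by
        intro y
        have := real_inner_le_norm (fl b ε s0 f l y) e
        rw [he, mul_one] at this
        linarith only [this]
      have h1 := chn_lower hb hε hs0 l r hgc hg0 z q (R * s) (by
        rw [hlr, lev_add, ← hsdef]
        rw [norm_sub_rev]
        nlinarith only [hz, hJ1, hs])
      rw [hlr, lev_add, ← hsdef] at h1
      refine h1.trans (le_of_eq ?_)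
      congr 1
      rw [chn_sub hak ε s0 l (r + 1) (hfl l).norm ((hfl l).inner continuous_const),
        chn_inner hak ε s0 l (r + 1) (hfl l), ← fl_chn, show l + (r + 1) = i + J0 by omega, hfe]
      simp only [hHf]
      rw [hr]
    have hDD : s ^ (d - 1) * DD b ε R s0 f i (cen s0 i p) e =
        (∑ l ∈ Finset.range (i + 1), (1 / 4 : ℝ) ^ (i - l) *
          (∫ y in ball q (R * s), (‖fl b ε s0 f l y‖ - ⟪fl b ε s0 f l y, e⟫_ℝ))) +
        (1 / 4 : ℝ) ^ i * ∫ y in ball q (R * s), ‖f y‖ := by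
      unfold DD cen
      rw [← hsdef, ← hq, ← mul_assoc]
      have : s ^ (d - 1) * (s / s ^ d) = 1 := by
        obtain ⟨k, rfl⟩ : ∃ k, d = k + 1 := ⟨d - 1, by omega⟩
        rw [Nat.add_sub_cancel, pow_succ]
        field_simp
      rw [this, one_mul]
    rw [hDD]
    have h2 : (∑ l ∈ Finset.range (i + 1), (1 / 4 : ℝ) ^ (i - l) *
          (∫ y in ball q (R * s), (‖fl b ε s0 f l y‖ - ⟪fl b ε s0 f l y, e⟫_ℝ))) ≤
        (ε * (2 ^ J0 * s)) ^ d / c * Φ i z := by
      simp only [hΦ]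
      rw [Finset.mul_sum]
      apply Finset.sum_le_sum
      intro l hl
      have := mul_le_mul_of_nonneg_left (hlev l hl) (show (0 : ℝ) ≤ (1 / 4) ^ (i - l) by positivity)
      refine this.trans (le_of_eq ?_)
      ring
    have h3 : (ε * (2 ^ J0 * s)) ^ d / c * Φ i z ≤ K * ∫ z in ball q (1 * s), Φ i z := by
      refine (mul_le_mul_of_nonneg_left hzle (by positivity)).trans (le_of_eq ?_)
      rw [hK]
      have e1 : (ε * (2 ^ J0 * s)) ^ d = (ε * 2 ^ J0) ^ d * s ^ d := by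
        rw [← mul_pow]; congr 1; ring
      rw [e1]
      have : s ^ d ≠ 0 := by positivity
      field_simp
    linarith only [h2, h3]
  choose e he hle using key
  refine ⟨e, he, ?_⟩
  intro I
  have hfi : Integrable f := hf.integrable_of_hasCompactSupport hfc
  have ha00 : a 0 = ∫ y, ‖f y‖ := rfl
  -- sum over the cells of one level
  have hi : ∀ i ∈ Finset.range I, ∑' p : Fin d → ℤ,
      lev s0 i ^ (d - 1) * DD b ε R s0 f i (cen s0 i p) (e i p) ≤
      K * 3 ^ d * (∑ l ∈ Finset.range (i + 1), (1 / 4 : ℝ) ^ (i - l) * (a l - a (i + J0))) +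
      (2 * R + 1) ^ d * ((1 / 4 : ℝ) ^ i * a 0) := by
    intro i _
    rw [← hΦint i]
    have hΦ1 : 0 ≤ ∫ z, Φ i z := integral_nonneg (hΦ0 i)
    apply PK.tsum_le_of_finset
    · have := ha0 0
      (clear * - hε hc hκ0 hΦ1 hR; positivity)
    · intro S
      refine (Finset.sum_le_sum (fun p _ => hle i p)).trans ?_
      rw [Finset.sum_add_distrib, ← Finset.mul_sum, ← Finset.mul_sum]
      have h1 := PK.overlap (lev s0 i) 1 (lev_pos hs0 i) zero_le_one S (hΦi i) (hΦ0 i)
      have h2 := PK.overlap (lev s0 i) R (lev_pos hs0 i) (by linarith) S hfi.norm (fun y => norm_nonneg (f y))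
      have h3 := mul_le_mul_of_nonneg_left h1 hK0.le
      have h4 := mul_le_mul_of_nonneg_left h2 (show (0 : ℝ) ≤ (1 / 4) ^ i by positivity)
      have e1 : (2 * (1 : ℝ) + 1) = 3 := by norm_num
      rw [e1] at h3
      rw [ha00]
      linarith only [h3, h4]
  refine (Finset.sum_le_sum hi).trans ?_
  rw [Finset.sum_add_distrib, ← Finset.mul_sum, ← Finset.mul_sum, ← Finset.sum_mul]
  have h1 := PK.double_sum a hanti ha0 J0 I
  have h2 : ∑ i ∈ Finset.range I, (1 / 4 : ℝ) ^ i ≤ 2 := by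
    have := geom_sum_eq (show (1 / 4 : ℝ) ≠ 1 by norm_num) I
    rw [this]
    have h5 : (0 : ℝ) ≤ (1 / 4) ^ I := by positivity
    rw [div_le_iff_of_neg (by norm_num)]
    linarith
  have h3 := mul_le_mul_of_nonneg_left h1 (show (0 : ℝ) ≤ K * 3 ^ d by positivity)
  have h4 := mul_le_mul_of_nonneg_left (mul_le_mul_of_nonneg_right h2 (ha0 0))
    (show (0 : ℝ) ≤ (2 * R + 1) ^ d by positivity)
  rw [← ha00]
  linarith only [h3, h4]

end

end TG


end

section

/-!
# MODULE FA, part 1: kernel estimates (MP_287c87_an, helper51)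
-/

open MeasureTheory Metric Set Filter Topology TrI
open scoped InnerProductSpace ContDiff

namespace TG

noncomputable section

namespace FAm

open THm

variable {d : ℕ}

/-- the radius -/
def rt (t : ℝ) (x : Sp d) : ℝ := Real.sqrt (t ^ 2 + ‖x‖ ^ 2)

lemma kk_rt (t : ℝ) (x : Sp d) : kk t x = t / rt t x ^ d := rfl

lemma rt_ge_t (t : ℝ) (x : Sp d) : t ≤ rt t x := by
  unfold rt
  refine Real.le_sqrt_of_sq_le ?_
  nlinarith [sq_nonneg ‖x‖]

lemma rt_ge_x (t : ℝ) (x : Sp d) : ‖x‖ ≤ rt t x := by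
  unfold rt
  refine Real.le_sqrt_of_sq_le ?_
  nlinarith [sq_nonneg t]

lemma root_tri (x y u v : ℝ) :
    Real.sqrt (x ^ 2 + y ^ 2) ≤ Real.sqrt (u ^ 2 + v ^ 2) + |x - u| + |y - v| := by
  have hr := Real.sqrt_nonneg (u ^ 2 + v ^ 2)
  have hr2 := Real.mul_self_sqrt (by positivity : 0 ≤ u ^ 2 + v ^ 2)
  set r := Real.sqrt (u ^ 2 + v ^ 2) with hrd
  have hp := abs_nonneg (x - u)
  have hq := abs_nonneg (y - v)
  have hu : |u| ≤ r := by
    rw [hrd]
    exact Real.abs_le_sqrt (by nlinarith [sq_nonneg v])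
  have hv : |v| ≤ r := by
    rw [hrd]
    exact Real.abs_le_sqrt (by nlinarith [sq_nonneg u])
  refine Real.sqrt_le_iff.2 ⟨by positivity, ?_⟩
  have h1 : x ^ 2 ≤ (|u| + |x - u|) ^ 2 := by
    rw [← sq_abs x]
    refine pow_le_pow_left₀ (abs_nonneg x) ?_ 2
    have := abs_add_le u (x - u)
    rwa [add_sub_cancel] at this
  have h2 : y ^ 2 ≤ (|v| + |y - v|) ^ 2 := by
    rw [← sq_abs y]
    refine pow_le_pow_left₀ (abs_nonneg y) ?_ 2
    have := abs_add_le v (y - v)
    rwa [add_sub_cancel] at this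
  have h3 : |u| ^ 2 = u ^ 2 := sq_abs u
  have h4 : |v| ^ 2 = v ^ 2 := sq_abs v
  have h5 := abs_nonneg u
  have h6 := abs_nonneg v
  linarith only [hr2, h1, h2, h3, h4, mul_le_mul_of_nonneg_right hu hp, mul_le_mul_of_nonneg_right hv hq, mul_nonneg hp hq]

lemma rt_diff (t : ℝ) (x y η : Sp d) :
    |rt t (x - η) - rt 1 (y - η)| ≤ |t - 1| + ‖x - y‖ := by
  unfold rt
  have h0 : |‖x - η‖ - ‖y - η‖| ≤ ‖x - y‖ := by
    have := abs_norm_sub_norm_le (x - η) (y - η)
    rwa [sub_sub_sub_cancel_right] at this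
  have h1 := root_tri t ‖x - η‖ 1 ‖y - η‖
  have h2 := root_tri 1 ‖y - η‖ t ‖x - η‖
  rw [abs_sub_comm 1 t, abs_sub_comm ‖y - η‖] at h2
  rw [abs_le]
  constructor <;> linarith

/-- the constant -/
def Kc (d : ℕ) : ℝ := 2 * d * 9 ^ d

lemma Kc_nonneg : 0 ≤ Kc d := by
  unfold Kc
  positivity

/-- the difference of kernels -/
lemma kk_diff (hd1 : 1 ≤ d) {t : ℝ} (ht : 1 / 2 ≤ t) (ht2 : t ≤ 2) {x y : Sp d} (hxy : ‖x - y‖ ≤ 2) (η : Sp d) :
    |kk t (x - η) - t * kk 1 (y - η)| ≤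
      Kc d * ((|t - 1| + ‖x - y‖) / rt t (x - η)) * kk 1 (y - η) := by
  have hs0 : 0 ≤ |t - 1| + ‖x - y‖ := by positivity
  have hs : |t - 1| + ‖x - y‖ ≤ 3 := by
    have : |t - 1| ≤ 1 := abs_le.2 ⟨by linarith, by linarith⟩
    linarith
  have hd := rt_diff t x y η
  set s := |t - 1| + ‖x - y‖ with hsd
  set a := rt t (x - η) with ha
  set b := rt 1 (y - η) with hb
  have ha1 : 1 / 2 ≤ a := ht.trans (rt_ge_t t _)
  have hb1 : 1 ≤ b := rt_ge_t 1 _
  have ha0 : 0 < a := by linarith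
  have hb0 : 0 < b := by linarith
  rw [kk_rt, kk_rt, ← ha, ← hb]
  have e1 : t / a ^ d - t * (1 / b ^ d) = t * (b ^ d - a ^ d) / (a ^ d * b ^ d) := by
    field_simp
  rw [e1, abs_div, abs_mul, abs_of_pos (by linarith : 0 < t),
    abs_of_pos (by positivity : 0 < a ^ d * b ^ d)]
  have h1 := abs_pow_sub_pow_le b a d
  have h2 : |b - a| ≤ s := by
    rw [abs_sub_comm]
    exact hd
  have h3 : max |b| |a| ≤ 7 * a := by
    rw [abs_of_pos hb0, abs_of_pos ha0]
    refine max_le ?_ (by linarith)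
    have := (abs_le.1 h2).2
    linarith
  have h4 : max |b| |a| ^ (d - 1) ≤ (7 * a) ^ (d - 1) :=
    pow_le_pow_left₀ (le_max_of_le_left (abs_nonneg b)) h3 _
  have h5 : (7 * a) ^ (d - 1) * a ≤ 9 ^ d * a ^ d := by
    obtain ⟨k, rfl⟩ : ∃ k, d = k + 1 := ⟨d - 1, by omega⟩
    rw [Nat.add_sub_cancel, mul_pow, pow_succ a k]
    have : (7 : ℝ) ^ k ≤ 9 ^ (k + 1) := by
      calc (7 : ℝ) ^ k ≤ 9 ^ k := pow_le_pow_left₀ (by norm_num) (by norm_num) k
        _ ≤ 9 ^ (k + 1) := pow_le_pow_right₀ (by norm_num) (by omega)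
    have h6 : 0 ≤ a ^ k * a := by positivity
    nlinarith only [this, h6]
  have h6 : |b ^ d - a ^ d| * a ≤ s * d * (9 ^ d * a ^ d) := by
    calc |b ^ d - a ^ d| * a ≤ (|b - a| * d * max |b| |a| ^ (d - 1)) * a :=
          mul_le_mul_of_nonneg_right h1 ha0.le
      _ ≤ (s * d * (7 * a) ^ (d - 1)) * a := by gcongr
      _ = s * d * ((7 * a) ^ (d - 1) * a) := by ring
      _ ≤ _ := mul_le_mul_of_nonneg_left h5 (by positivity)
  rw [div_le_iff₀ (by positivity)]
  unfold Kc
  have e2 : 2 * ↑d * 9 ^ d * (s / a) * (1 / b ^ d) * (a ^ d * b ^ d) =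
      2 * (s * d * (9 ^ d * a ^ d)) / a := by
    field_simp
  rw [e2, le_div_iff₀ ha0]
  have h7 : 0 ≤ |b ^ d - a ^ d| * a := by positivity
  nlinarith only [h6, ht2, h7]

/-! ### The cut-off -/

/-- the square root of the cut-off -/
def st (A : ℝ) (x : Sp d) : ℝ := Real.smoothTransition (2 - 2 * (‖x‖ / (A * 1)))

lemma cut_st (A : ℝ) (x : Sp d) : cut (‖x‖ / (A * 1)) = st A x ^ 2 := rfl

lemma st_nonneg (A : ℝ) (x : Sp d) : 0 ≤ st A x := Real.smoothTransition.nonneg _

lemma st_le (A : ℝ) (x : Sp d) : st A x ≤ 1 := Real.smoothTransition.le_one _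

lemma st_one {A : ℝ} (hA : 0 < A) {x : Sp d} (hx : ‖x‖ ≤ A / 2) : st A x = 1 := by
  refine Real.smoothTransition.one_of_one_le ?_
  rw [mul_one]
  have : ‖x‖ / A ≤ 1 / 2 := by
    rw [div_le_iff₀ hA]
    linarith
  linarith

/-- the smooth transition function is Lipschitz -/
lemma trans_lip : ∃ L : ℝ, 1 ≤ L ∧ ∀ a b : ℝ,
    |Real.smoothTransition a - Real.smoothTransition b| ≤ L * |a - b| := by
  have hcd : ContDiff ℝ ∞ Real.smoothTransition := Real.smoothTransition.contDiff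
  have hc : Continuous (deriv Real.smoothTransition) := hcd.continuous_deriv (by simp)
  have h0 : ∀ t : ℝ, t < 0 ∨ 1 < t → deriv Real.smoothTransition t = 0 := by
    rintro t (ht | ht)
    · have : Real.smoothTransition =ᶠ[𝓝 t] fun _ => 0 := by
        filter_upwards [Iio_mem_nhds ht] with s hs
        exact Real.smoothTransition.zero_of_nonpos (le_of_lt hs)
      rw [this.deriv_eq]
      simp
    · have : Real.smoothTransition =ᶠ[𝓝 t] fun _ => 1 := by
        filter_upwards [Ioi_mem_nhds ht] with s hs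
        exact Real.smoothTransition.one_of_one_le (le_of_lt hs)
      rw [this.deriv_eq]
      simp
  obtain ⟨B, hB⟩ := isCompact_Icc.exists_bound_of_continuousOn (s := Icc (0 : ℝ) 1)
    (f := deriv Real.smoothTransition) hc.continuousOn
  have hB' : ∀ t : ℝ, ‖deriv Real.smoothTransition t‖ ≤ max B 1 := by
    intro t
    by_cases ht : t ∈ Icc (0 : ℝ) 1
    · exact (hB t ht).trans (le_max_left _ _)
    · rw [h0 t (by
        rw [mem_Icc, not_and_or, not_le, not_le] at ht
        exact ht), norm_zero]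
      exact le_max_of_le_right zero_le_one
  refine ⟨max B 1, le_max_right _ _, fun a b => ?_⟩
  have h1 := convex_univ.norm_image_sub_le_of_norm_deriv_le (f := Real.smoothTransition)
    (C := max B 1) (fun x _ => (hcd.differentiable (by simp)) x) (fun x _ => hB' x)
    (mem_univ b) (mem_univ a)
  rwa [Real.norm_eq_abs, Real.norm_eq_abs] at h1

lemma st_lip {L : ℝ} (hL : ∀ a b : ℝ,
    |Real.smoothTransition a - Real.smoothTransition b| ≤ L * |a - b|) (hL0 : 1 ≤ L) {A : ℝ}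
    (hA : 0 < A) (x y η : Sp d) : |st A (x - η) - st A (y - η)| ≤ 2 * L / A * ‖x - y‖ := by
  refine (hL _ _).trans ?_
  have h1 : |‖x - η‖ - ‖y - η‖| ≤ ‖x - y‖ := by
    have := abs_norm_sub_norm_le (x - η) (y - η)
    rwa [sub_sub_sub_cancel_right] at this
  have h2 : |2 - 2 * (‖x - η‖ / (A * 1)) - (2 - 2 * (‖y - η‖ / (A * 1)))| =
      2 / A * |‖x - η‖ - ‖y - η‖| := by
    rw [abs_sub_comm]
    have e : 2 - 2 * (‖y - η‖ / (A * 1)) - (2 - 2 * (‖x - η‖ / (A * 1))) =
        2 / A * (‖x - η‖ - ‖y - η‖) := by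
      field_simp
      ring
    rw [e, abs_mul, abs_of_pos (by positivity : 0 < 2 / A)]
  rw [h2]
  calc L * (2 / A * |‖x - η‖ - ‖y - η‖|) ≤ L * (2 / A * ‖x - y‖) := by gcongr
    _ = _ := by ring

/-! ### Integrals -/

/-- the numerator of q -/
def NN (A : ℝ) (μ : Measure (Sp d)) (x : Sp d) : ℝ := ∫ η, st A (x - η) ^ 2 * kk 1 (x - η) ∂μ

lemma qq_eq (A : ℝ) (μ : Measure (Sp d)) (x : Sp d) : qq A μ 1 x = NN A μ x / th μ 1 x := rfl

lemma st_cont (A : ℝ) : Continuous fun x : Sp d => st A x := by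
  unfold st
  exact Real.smoothTransition.continuous.comp (by fun_prop)

lemma NN_int (hd : 1 ≤ d) (A : ℝ) (μ : Measure (Sp d)) [IsFiniteMeasure μ] (x : Sp d) :
    Integrable (fun η => st A (x - η) ^ 2 * kk 1 (x - η)) μ := by
  refine (kk_int hd μ one_pos x).mono' ?_ ?_
  · have h1 : Continuous fun η : Sp d => st A (x - η) ^ 2 * kk 1 (x - η) :=
      (((st_cont A).comp (continuous_const.sub continuous_id)).pow 2).mul
        ((kk_cont one_pos).comp (continuous_const.sub continuous_id))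
    exact h1.aestronglyMeasurable
  · filter_upwards with η
    have h1 := kk_nonneg one_pos (x - η)
    rw [Real.norm_of_nonneg (by positivity)]
    have h2 := st_nonneg A (x - η)
    have h3 := st_le A (x - η)
    have h4 : st A (x - η) ^ 2 ≤ 1 := by nlinarith only [h3, h2]
    nlinarith

lemma qq_nonneg (A : ℝ) (μ : Measure (Sp d)) (x : Sp d) : 0 ≤ qq A μ 1 x := by
  rw [qq_eq]
  refine div_nonneg (integral_nonneg fun η => ?_) (integral_nonneg fun η => ?_)
  · exact mul_nonneg (sq_nonneg _) (kk_nonneg one_pos _)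
  · exact kk_nonneg one_pos _

/-- the potential at other points and times -/
lemma th_diff (hd : 1 ≤ d) (μ : Measure (Sp d)) [IsFiniteMeasure μ] (hμ : μ ≠ 0) {A : ℝ}
    (hA : 8 ≤ A) {t : ℝ} (ht : 1 / 2 ≤ t) (ht2 : t ≤ 2) {x y : Sp d} (hxy : ‖x - y‖ ≤ 2) :
    |th μ t x - t * th μ 1 y| ≤ 12 * Kc d * (qq A μ 1 y + 1 / A) * th μ 1 y := by
  have ht0 : 0 < t := by linarith
  have hA0 : 0 < A := by linarith
  have hK := Kc_nonneg (d := d)
  have hth := th_pos hd μ hμ one_pos y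
  have i1 := kk_int hd μ ht0 x
  have i2 := kk_int hd μ one_pos y
  have i3 := NN_int hd A μ y
  have e1 : th μ t x - t * th μ 1 y = ∫ η, (kk t (x - η) - t * kk 1 (y - η)) ∂μ := by
    rw [integral_sub i1 (i2.const_mul t), integral_const_mul]
    rfl
  have e2 : 12 * Kc d * (qq A μ 1 y + 1 / A) * th μ 1 y =
      ∫ η, (12 * Kc d * (st A (y - η) ^ 2 * kk 1 (y - η)) +
        12 * Kc d * (1 / A) * kk 1 (y - η)) ∂μ := by
    rw [integral_add (i3.const_mul _) (i2.const_mul _), integral_const_mul, integral_const_mul,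
      qq_eq]
    have : ∫ η, kk 1 (y - η) ∂μ = th μ 1 y := rfl
    rw [this]
    unfold NN
    field_simp
  rw [e1, e2]
  refine (abs_integral_le_integral_abs).trans (integral_mono (i1.sub (i2.const_mul t)).abs
    ((i3.const_mul _).add (i2.const_mul _)) fun η => ?_)
  have h1 := kk_diff hd ht ht2 hxy η
  have h2 := kk_nonneg one_pos (y - η)
  have hs : |t - 1| + ‖x - y‖ ≤ 3 := by
    have : |t - 1| ≤ 1 := abs_le.2 ⟨by linarith, by linarith⟩
    linarith
  have hr : 1 / 2 ≤ rt t (x - η) := ht.trans (rt_ge_t t _)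
  refine h1.trans ?_
  have key : (|t - 1| + ‖x - y‖) / rt t (x - η) ≤ 12 * (st A (y - η) ^ 2 + 1 / A) := by
    rw [div_le_iff₀ (by linarith)]
    have hA1 : 0 < 1 / A := by positivity
    by_cases hn : ‖y - η‖ ≤ A / 2
    · rw [st_one hA0 hn]
      nlinarith only [hs, hr, hA1]
    · rw [not_le] at hn
      have h3 : ‖y - η‖ ≤ ‖x - η‖ + ‖x - y‖ := by
        have := norm_sub_le (x - η) (x - y)
        rwa [sub_sub_sub_cancel_left] at this
      have h4 : A / 4 ≤ rt t (x - η) := by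
        have := rt_ge_x t (x - η)
        linarith
      have h5 : 1 / A * (A / 4) = 1 / 4 := by field_simp
      have h6 : 1 / A * (A / 4) ≤ 1 / A * rt t (x - η) := mul_le_mul_of_nonneg_left h4 hA1.le
      have h7 : 0 ≤ st A (y - η) ^ 2 * rt t (x - η) := by
        have := rt_ge_t t (x - η)
        positivity
      linarith only [hs, h5, h6, h7]
  calc Kc d * ((|t - 1| + ‖x - y‖) / rt t (x - η)) * kk 1 (y - η)
      ≤ Kc d * (12 * (st A (y - η) ^ 2 + 1 / A)) * kk 1 (y - η) := by gcongr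
    _ = _ := by ring

/-- the same for the square roots -/
lemma vv_diff (hd : 1 ≤ d) (μ : Measure (Sp d)) [IsFiniteMeasure μ] (hμ : μ ≠ 0) {A : ℝ}
    (hA : 8 ≤ A) {t : ℝ} (ht : 1 / 2 ≤ t) (ht2 : t ≤ 2) {x y : Sp d} (hxy : ‖x - y‖ ≤ 2) :
    |vv μ t x - Real.sqrt t * vv μ 1 y| ≤ 24 * Kc d * (qq A μ 1 y + 1 / A) * vv μ 1 y := by
  have ht0 : 0 < t := by linarith
  have h1 := th_diff hd μ hμ hA ht ht2 hxy
  have hth := th_pos hd μ hμ one_pos y
  have htx := th_pos hd μ hμ ht0 x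
  have hV : 0 < vv μ 1 y := Real.sqrt_pos.2 hth
  have hV2 : vv μ 1 y ^ 2 = th μ 1 y := Real.sq_sqrt hth.le
  have hx2 : vv μ t x ^ 2 = th μ t x := Real.sq_sqrt htx.le
  have hx : 0 < vv μ t x := Real.sqrt_pos.2 htx
  have hs : 1 / 2 ≤ Real.sqrt t := Real.le_sqrt_of_sq_le (by linarith only [ht])
  have hs2 : Real.sqrt t ^ 2 = t := Real.sq_sqrt ht0.le
  set a := vv μ t x
  set b := Real.sqrt t * vv μ 1 y with hb
  have hb0 : vv μ 1 y / 2 ≤ b := by rw [hb]; nlinarith only [hV, hs]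
  have hb2 : b ^ 2 = t * th μ 1 y := by rw [hb, mul_pow, hs2, hV2]
  rw [← hx2, ← hb2] at h1
  have h2 : a ^ 2 - b ^ 2 = (a - b) * (a + b) := by ring
  rw [h2, abs_mul, abs_of_pos (by linarith : 0 < a + b)] at h1
  have h3 : |a - b| * (vv μ 1 y / 2) ≤ |a - b| * (a + b) :=
    mul_le_mul_of_nonneg_left (by linarith) (abs_nonneg _)
  rw [← hV2] at h1
  have h4 : |a - b| * (vv μ 1 y / 2) ≤
      24 * Kc d * (qq A μ 1 y + 1 / A) * vv μ 1 y * (vv μ 1 y / 2) := by
    refine (h3.trans h1).trans (le_of_eq ?_)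
    ring
  exact le_of_mul_le_mul_right h4 (by linarith)

end FAm

end

end TG


end
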