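import Mathlib
import Pool.Agent.TRM.C01
import Pool.Agent.TRM.C02
import Pool.Agent.TRM.C05
import Pool.Agent.TRM.C07

/-! Parts: TG.Adj, TG.Mass, TR.RKG, TG.MA, TG.ZZ, TG.TFc, TG.Tf, TG.CM1 -/

section

set_option autoImplicit false

/-!
# General averages avk: adjointness, set inequalities, derivatives, second order errors
-/

open MeasureTheory Metric Set TrI Filter
open scoped InnerProductSpace ContDiff Topology

namespace TG

noncomputable section

variable {d : ℕ}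

lemma BaseKer.even {J : ℕ} {M c : ℝ} {b : Sp d → ℝ} (h : BaseKer J M c b) (x : Sp d) :
    b (-x) = b x :=
  le_antisymm (h.mono x (-x) (by rw [norm_neg])) (h.mono (-x) x (by rw [norm_neg]))

lemma IsProf.even {J : ℕ} {M : ℝ} {β : Sp d → ℝ} (h : IsProf J M β) (x : Sp d) :
    β (-x) = β x :=
  le_antisymm (h.mono x (-x) (by rw [norm_neg])) (h.mono (-x) x (by rw [norm_neg]))

namespace AK

variable {ψ : Sp d → ℝ} (h : AK ψ)

variable {F : Type*} [NormedAddCommGroup F] [NormedSpace ℝ F]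

/-! ## adjointness -/

include h in
lemma integrand_integrable' {g : Sp d → F} (hg : LB g) (s : ℝ) (x : Sp d) :
    Integrable fun y => ψ y • g (x + s • y) :=
  (hg.comp_smul x s).integrable_smul h.cont (R := 1) h.supp

include h in
/-- joint integrability for locally bounded functions, weight with compact support at x -/
lemma prod_integrable_left {w : Sp d → ℝ} {g : Sp d → F} (hw : LB w) (hc : HasCompactSupport w)
    (hg : LB g) (s : ℝ) :
    Integrable (Function.uncurry fun (x y : Sp d) => w x • ψ y • g (x + s • y))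
      (volume.prod volume) := by
  obtain ⟨R, hR⟩ := hc.isCompact.isBounded.subset_closedBall (0 : Sp d)
  have hR' : ∀ z, w z ≠ 0 → ‖z‖ ≤ R := fun z hz => by
    simpa using hR (subset_tsupport _ hz)
  obtain ⟨M, hM⟩ := hg.bd (R + |s|)
  have hwi : Integrable w := hw.integrable hc
  have hi0 : Integrable (fun p : Sp d × Sp d => ‖w p.1‖ * ψ p.2 * |M|)
      (volume.prod volume) := (hwi.norm.mul_prod h.integrable).mul_const _
  refine hi0.mono' ?_ ?_
  · refine StronglyMeasurable.aestronglyMeasurable ?_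
    refine StronglyMeasurable.smul (f := fun p : Sp d × Sp d => w p.1) ?_ ?_
    · exact hw.meas.comp_measurable measurable_fst
    refine StronglyMeasurable.smul (f := fun p : Sp d × Sp d => ψ p.2) ?_ ?_
    · exact (h.cont.comp continuous_snd).stronglyMeasurable
    · exact hg.meas.comp_measurable
        (show Measurable fun p : Sp d × Sp d => p.1 + s • p.2 by fun_prop)
  · refine Filter.Eventually.of_forall fun p => ?_
    obtain ⟨x, y⟩ := p
    simp only [Function.uncurry_apply_pair]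
    rw [norm_smul, norm_smul, Real.norm_eq_abs (ψ y), abs_of_nonneg (h.nonneg y)]
    by_cases hy : 1 ≤ ‖y‖
    · simp [h.supp y hy]
    by_cases hx : w x = 0
    · simp [hx]
    push Not at hy
    have hb : ‖s • y‖ ≤ |s| := by
      rw [norm_smul, Real.norm_eq_abs]
      nlinarith [abs_nonneg s, norm_nonneg y]
    have h1 : ‖g (x + s • y)‖ ≤ |M| := by
      refine (hM _ ?_).trans (le_abs_self M)
      exact (norm_add_le _ _).trans (add_le_add (hR' x hx) hb)
    calc ‖w x‖ * (ψ y * ‖g (x + s • y)‖) ≤ ‖w x‖ * (ψ y * |M|) :=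
          mul_le_mul_of_nonneg_left (mul_le_mul_of_nonneg_left h1 (h.nonneg y))
            (norm_nonneg _)
      _ = ‖w x‖ * ψ y * |M| := by ring

include h in
lemma prod_integrable_right {w : Sp d → ℝ} {g : Sp d → F} (hw : LB w) (hc : HasCompactSupport w)
    (hg : LB g) (s : ℝ) :
    Integrable (Function.uncurry fun (x y : Sp d) => (ψ y • w (x + s • y)) • g x)
      (volume.prod volume) := by
  obtain ⟨R, hR⟩ := hc.isCompact.isBounded.subset_closedBall (0 : Sp d)
  have hR' : ∀ z, w z ≠ 0 → ‖z‖ ≤ R := fun z hz => by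
    simpa using hR (subset_tsupport _ hz)
  obtain ⟨M, hM⟩ := hg.bd (R + |s|)
  obtain ⟨N, hN⟩ := hw.bd R
  have hb : ∀ (y : Sp d), ‖y‖ < 1 → ‖s • y‖ ≤ |s| := by
    intro y hy
    rw [norm_smul, Real.norm_eq_abs]
    nlinarith [abs_nonneg s, norm_nonneg y]
  have hi1 : Integrable ((closedBall (0 : Sp d) (R + |s|)).indicator fun _ => |N| * |M|) := by
    refine (integrable_indicator_iff measurableSet_closedBall).mpr ?_
    exact integrableOn_const (hs := (isCompact_closedBall _ _).measure_lt_top.ne)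
  have hi0 : Integrable (fun p : Sp d × Sp d =>
      (closedBall (0 : Sp d) (R + |s|)).indicator (fun _ => |N| * |M|) p.1 * ψ p.2)
      (volume.prod volume) := hi1.mul_prod h.integrable
  refine hi0.mono' ?_ ?_
  · refine StronglyMeasurable.aestronglyMeasurable ?_
    refine StronglyMeasurable.smul (f := fun p : Sp d × Sp d => ψ p.2 • w (p.1 + s • p.2))
      ?_ ?_
    · refine StronglyMeasurable.smul (f := fun p : Sp d × Sp d => ψ p.2) ?_ ?_
      · exact (h.cont.comp continuous_snd).stronglyMeasurable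
      · exact hw.meas.comp_measurable
          (show Measurable fun p : Sp d × Sp d => p.1 + s • p.2 by fun_prop)
    · exact hg.meas.comp_measurable measurable_fst
  · refine Filter.Eventually.of_forall fun p => ?_
    obtain ⟨x, y⟩ := p
    simp only [Function.uncurry_apply_pair]
    rw [norm_smul, norm_smul, Real.norm_eq_abs (ψ y), abs_of_nonneg (h.nonneg y)]
    by_cases hy : 1 ≤ ‖y‖
    · simp [h.supp y hy]
    by_cases hx : w (x + s • y) = 0
    · rw [hx]
      simp only [norm_zero, mul_zero, zero_mul]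
      exact mul_nonneg (Set.indicator_nonneg (fun _ _ => by positivity) _) (h.nonneg y)
    push Not at hy
    have hx1 : ‖x‖ ≤ R + |s| := by
      have h3 : ‖x‖ ≤ ‖x + s • y‖ + ‖s • y‖ := by
        have := norm_sub_le (x + s • y) (s • y)
        rwa [add_sub_cancel_right] at this
      exact h3.trans (add_le_add (hR' _ hx) (hb y hy))
    rw [Set.indicator_of_mem (by rw [mem_closedBall, dist_zero_right]; exact hx1)]
    have h1 : ‖g x‖ ≤ |M| := (hM _ hx1).trans (le_abs_self M)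
    have h2 : ‖w (x + s • y)‖ ≤ |N| := (hN _ (hR' _ hx)).trans (le_abs_self N)
    have h3 : ‖w (x + s • y)‖ * ‖g x‖ ≤ |N| * |M| :=
      mul_le_mul h2 h1 (norm_nonneg _) (abs_nonneg _)
    calc ψ y * ‖w (x + s • y)‖ * ‖g x‖ = ψ y * (‖w (x + s • y)‖ * ‖g x‖) := by ring
      _ ≤ ψ y * (|N| * |M|) := mul_le_mul_of_nonneg_left h3 (h.nonneg y)
      _ = _ := by ring

include h in
/-- averages with an even kernel are self adjoint -/
lemma avk_adj (he : ∀ x, ψ (-x) = ψ x) {w : Sp d → ℝ} {g : Sp d → F} (hw : LB w)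
    (hc : HasCompactSupport w) (hg : LB g) (s : ℝ) :
    ∫ x, w x • avk ψ s g x = ∫ x, avk ψ s w x • g x := by
  by_cases hF : CompleteSpace F
  swap
  · simp only [integral, hF, dite_false]
  have hI1 := h.prod_integrable_left hw hc hg s
  have hI2 := h.prod_integrable_right hw hc hg s
  have e1 : ∀ x, w x • avk ψ s g x = ∫ y, w x • ψ y • g (x + s • y) := by
    intro x
    unfold avk
    rw [integral_smul]
  have e2 : ∀ x, avk ψ s w x • g x = ∫ y, (ψ y • w (x + s • y)) • g x := by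
    intro x
    unfold avk
    rw [integral_smul_const]
  simp only [e1, e2]
  rw [integral_integral_swap hI1, integral_integral_swap hI2]
  have e3 : ∀ y : Sp d, ∫ x, w x • ψ y • g (x + s • y) =
      ∫ x, (ψ (-y) • w (x + s • (-y))) • g x := by
    intro y
    rw [← integral_add_right_eq_self (μ := volume) (fun x => w x • ψ y • g (x + s • y))
      (-(s • y))]
    congr 1
    ext x
    rw [he, smul_neg, neg_add_cancel_right, smul_assoc, smul_comm]
  simp only [e3]
  exact integral_neg_eq_self (fun y : Sp d => ∫ x, (ψ y • w (x + s • y)) • g x) volume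

include h in
/-- scalar version, the weight on the right and the function with compact support -/
lemma avk_adj' (he : ∀ x, ψ (-x) = ψ x) {w g : Sp d → ℝ} (hw : LB w)
    (hg : LB g) (hc : HasCompactSupport g) (s : ℝ) :
    ∫ x, w x * avk ψ s g x = ∫ x, avk ψ s w x * g x := by
  have := h.avk_adj he hg hc hw s
  simp only [smul_eq_mul] at this
  calc ∫ x, w x * avk ψ s g x = ∫ x, avk ψ s g x * w x := by
        congr 1; ext x; ring
    _ = ∫ x, g x * avk ψ s w x := this.symm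
    _ = _ := by congr 1; ext x; ring

/-! ## support of averages -/

/-- where an average is nonzero; ρ is the radius of the support of the kernel -/
lemma exists_of_avk_ne {ρ : ℝ} (hρ : ∀ x, ρ ≤ ‖x‖ → ψ x = 0) {g : Sp d → F} {s : ℝ}
    (hs : 0 < s) {x : Sp d} (hx : avk ψ s g x ≠ 0) : ∃ z, g z ≠ 0 ∧ ‖z - x‖ < ρ * s := by
  by_contra hcon
  push Not at hcon
  apply hx
  unfold avk
  refine integral_eq_zero_of_ae (Eventually.of_forall fun y => ?_)
  change ψ y • g (x + s • y) = 0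
  by_cases hy : ρ ≤ ‖y‖
  · rw [hρ y hy, zero_smul]
  · push Not at hy
    by_cases hg : g (x + s • y) = 0
    · rw [hg, smul_zero]
    · have h1 := hcon _ hg
      rw [add_sub_cancel_left, norm_smul, Real.norm_of_nonneg hs.le] at h1
      nlinarith

/-! ## set inequalities -/

lemma indicator_one_LB {E : Set (Sp d)} (hE : MeasurableSet E) :
    LB (E.indicator fun _ => (1 : ℝ)) :=
  (LB.of_cont continuous_const).indicator hE

lemma indicator_one_cs {E : Set (Sp d)} (hb : Bornology.IsBounded E) :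
    HasCompactSupport (E.indicator fun _ => (1 : ℝ)) := by
  obtain ⟨R, hR⟩ := hb.subset_closedBall (0 : Sp d)
  refine HasCompactSupport.intro (isCompact_closedBall (0 : Sp d) R) fun x hx => ?_
  exact Set.indicator_of_notMem (fun h => hx (hR h)) _

include h in
lemma avk_indicator_nonneg (E : Set (Sp d)) (s : ℝ) (x : Sp d) :
    0 ≤ avk ψ s (E.indicator fun _ => (1 : ℝ)) x :=
  h.avk_nonneg (fun _ => Set.indicator_nonneg (fun _ _ => zero_le_one) _) s x

include h in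
lemma avk_const [CompleteSpace F] (c : F) (s : ℝ) (x : Sp d) : avk ψ s (fun _ => c) x = c := by
  unfold avk
  rw [integral_smul_const, h.int, one_smul]

include h in
lemma avk_mono' {g g' : Sp d → ℝ} (hg : LB g) (hg' : LB g') (hgg : ∀ z, g z ≤ g' z)
    (s : ℝ) (x : Sp d) : avk ψ s g x ≤ avk ψ s g' x := by
  unfold avk
  refine integral_mono (h.integrand_integrable' hg s x) (h.integrand_integrable' hg' s x) ?_
  intro y
  exact smul_le_smul_of_nonneg_left (hgg _) (h.nonneg y)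

include h in
lemma avk_le_of_le {g : Sp d → ℝ} (hg : LB g) {N : ℝ} (hN : ∀ z, g z ≤ N) (s : ℝ) (x : Sp d) :
    avk ψ s g x ≤ N :=
  (h.avk_mono' hg (LB.of_cont continuous_const) hN s x).trans_eq (h.avk_const N s x)

include h in
lemma avk_indicator_le_one {E : Set (Sp d)} (hE : MeasurableSet E) (s : ℝ) (x : Sp d) :
    avk ψ s (E.indicator fun _ => (1 : ℝ)) x ≤ 1 :=
  h.avk_le_of_le (indicator_one_LB hE)
    (fun _ => Set.indicator_le' (fun _ _ => le_rfl) (fun _ _ => zero_le_one) _) s x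

include h in
/-- the average of an indicator is one deep inside -/
lemma avk_indicator_eq_one {ρ : ℝ} (hρ : ∀ x, ρ ≤ ‖x‖ → ψ x = 0) {E : Set (Sp d)} {s : ℝ}
    (hs : 0 < s) {x : Sp d} (hx : ∀ z, ‖z - x‖ < ρ * s → z ∈ E) :
    avk ψ s (E.indicator fun _ => (1 : ℝ)) x = 1 := by
  have h1 : avk ψ s (E.indicator fun _ => (1 : ℝ)) x = avk ψ s (fun _ => (1 : ℝ)) x := by
    unfold avk
    congr 1
    ext y
    by_cases hy : ρ ≤ ‖y‖
    · rw [hρ y hy, zero_smul, zero_smul]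
    · push Not at hy
      rw [Set.indicator_of_mem]
      apply hx
      rw [add_sub_cancel_left, norm_smul, Real.norm_of_nonneg hs.le]
      nlinarith
  rw [h1, h.avk_const]

include h in
lemma avk_LB {g : Sp d → F} (hg : LB g) (s : ℝ) : LB (avk ψ s g) := by
  refine ⟨?_, ?_⟩
  · refine StronglyMeasurable.integral_prod_right
      (f := fun (x y : Sp d) => ψ y • g (x + s • y)) ?_
    refine StronglyMeasurable.smul (f := fun p : Sp d × Sp d => ψ p.2) ?_ ?_
    · exact (h.cont.comp continuous_snd).stronglyMeasurable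
    · exact hg.meas.comp_measurable
        (show Measurable fun p : Sp d × Sp d => p.1 + s • p.2 by fun_prop)
  · intro R
    obtain ⟨M, hM⟩ := hg.bd (R + |s|)
    refine ⟨|M|, fun x hx => ?_⟩
    refine (h.norm_avk_le g s x).trans ?_
    have h1 : avk ψ s (fun z => ‖g z‖) x ≤ avk ψ s (fun _ => |M|) x := by
      unfold avk
      refine integral_mono (h.integrand_integrable' hg.norm s x)
        (h.integrand_integrable' (LB.of_cont continuous_const) s x) fun y => ?_
      change ψ y • ‖g (x + s • y)‖ ≤ ψ y • |M|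
      by_cases hy : 1 ≤ ‖y‖
      · rw [h.supp y hy, zero_smul, zero_smul]
      · push Not at hy
        refine smul_le_smul_of_nonneg_left ((hM _ ?_).trans (le_abs_self M)) (h.nonneg y)
        refine (norm_add_le _ _).trans (add_le_add hx ?_)
        rw [norm_smul, Real.norm_eq_abs]
        nlinarith [abs_nonneg s, norm_nonneg y]
    rwa [h.avk_const] at h1

include h in
/-- the integral over E is at most the integral of the average over E', if E' contains the
(ρ s)-neighbourhood of E -/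
lemma setInt_le_avk (he : ∀ x, ψ (-x) = ψ x) {ρ : ℝ} (hρ : ∀ x, ρ ≤ ‖x‖ → ψ x = 0)
    {g : Sp d → ℝ} (hg : LB g) (hc : HasCompactSupport g) (h0 : ∀ z, 0 ≤ g z)
    {s : ℝ} (hs : 0 < s) {E E' : Set (Sp d)} (hE : MeasurableSet E) (hE' : MeasurableSet E')
    (hEE : ∀ x ∈ E, ∀ z, ‖z - x‖ < ρ * s → z ∈ E') :
    ∫ x in E, g x ≤ ∫ x in E', avk ψ s g x := by
  rw [← integral_indicator hE, ← integral_indicator hE']
  have e1 : ∀ x, E'.indicator (fun x => avk ψ s g x) x =
      (E'.indicator fun _ => (1 : ℝ)) x * avk ψ s g x := by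
    intro x
    by_cases hx : x ∈ E' <;> simp [hx]
  simp only [e1]
  rw [h.avk_adj' he (indicator_one_LB hE') hg hc s]
  have hgi : Integrable g := hg.integrable hc
  refine integral_mono (hgi.indicator hE) ?_ ?_
  · have hm : AEStronglyMeasurable (avk ψ s (E'.indicator fun _ => (1 : ℝ))) volume :=
      (h.avk_LB (indicator_one_LB hE') s).meas.aestronglyMeasurable
    refine hgi.bdd_mul (c := 1) hm (Eventually.of_forall fun x => ?_)
    rw [Real.norm_of_nonneg (h.avk_indicator_nonneg E' s x)]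
    exact h.avk_indicator_le_one hE' s x
  · intro x
    change E.indicator g x ≤ avk ψ s (E'.indicator fun _ => (1 : ℝ)) x * g x
    by_cases hx : x ∈ E
    · rw [Set.indicator_of_mem hx, h.avk_indicator_eq_one hρ hs (hEE x hx), one_mul]
    · rw [Set.indicator_of_notMem hx]
      exact mul_nonneg (h.avk_indicator_nonneg E' s x) (h0 x)

include h in
/-- the integral of the average over E' is at most the integral over E, if E contains the
(ρ s)-neighbourhood of E' -/
lemma setInt_avk_le (he : ∀ x, ψ (-x) = ψ x) {ρ : ℝ} (hρ : ∀ x, ρ ≤ ‖x‖ → ψ x = 0)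
    {g : Sp d → ℝ} (hg : LB g) (hc : HasCompactSupport g) (h0 : ∀ z, 0 ≤ g z)
    {s : ℝ} (hs : 0 < s) {E E' : Set (Sp d)} (hE : MeasurableSet E) (hE' : MeasurableSet E')
    (hEE : ∀ x ∈ E', ∀ z, ‖z - x‖ < ρ * s → z ∈ E) :
    ∫ x in E', avk ψ s g x ≤ ∫ x in E, g x := by
  rw [← integral_indicator hE, ← integral_indicator hE']
  have e1 : ∀ x, E'.indicator (fun x => avk ψ s g x) x =
      (E'.indicator fun _ => (1 : ℝ)) x * avk ψ s g x := by
    intro x
    by_cases hx : x ∈ E' <;> simp [hx]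
  simp only [e1]
  rw [h.avk_adj' he (indicator_one_LB hE') hg hc s]
  have hgi : Integrable g := hg.integrable hc
  refine integral_mono_of_nonneg ?_ (hgi.indicator hE) ?_
  · exact Eventually.of_forall fun x => mul_nonneg (h.avk_indicator_nonneg E' s x) (h0 x)
  · refine Eventually.of_forall fun x => ?_
    change avk ψ s (E'.indicator fun _ => (1 : ℝ)) x * g x ≤ E.indicator g x
    by_cases hx : x ∈ E
    · rw [Set.indicator_of_mem hx]
      have h1 := h.avk_indicator_le_one hE' s x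
      have h2 := h0 x
      nlinarith
    · rw [Set.indicator_of_notMem hx]
      have h1 : avk ψ s (E'.indicator fun _ => (1 : ℝ)) x = 0 := by
        by_contra hne
        obtain ⟨z, hz, hzx⟩ := exists_of_avk_ne (ψ := ψ) hρ hs hne
        apply hx
        refine hEE z ?_ x ?_
        · by_contra hz'
          exact hz (Set.indicator_of_notMem hz' _)
        · rwa [← norm_neg, neg_sub]
      rw [h1, zero_mul]

/-! ## derivatives -/

include h in
lemma hasFDerivAt_avk {g : Sp d → F} (hg : ContDiff ℝ 1 g) (s : ℝ) (x : Sp d) :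
    HasFDerivAt (avk ψ s g) (avk ψ s (fderiv ℝ g) x) x := by
  have hcf : Continuous (fderiv ℝ g) := hg.continuous_fderiv one_ne_zero
  obtain ⟨M, hM⟩ := (isCompact_closedBall (0 : Sp d) (‖x‖ + 1 + |s|)).exists_bound_of_continuousOn
    hcf.continuousOn
  refine hasFDerivAt_integral_of_dominated_of_fderiv_le (s := ball x 1)
    (F := fun z y => ψ y • g (z + s • y)) (F' := fun z y => ψ y • fderiv ℝ g (z + s • y))
    (bound := fun y => ψ y * |M|) (ball_mem_nhds x one_pos) ?_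
    (h.integrand_integrable hg.continuous s x) ?_ ?_ ?_ ?_
  · exact Eventually.of_forall fun z =>
      (h.integrand_integrable hg.continuous s z).aestronglyMeasurable
  · exact (h.cont.smul (hcf.comp (by fun_prop))).aestronglyMeasurable
  · refine Eventually.of_forall fun y z hz => ?_
    rw [norm_smul, Real.norm_of_nonneg (h.nonneg y)]
    by_cases hy : 1 ≤ ‖y‖
    · rw [h.supp y hy, zero_mul, zero_mul]
    · push Not at hy
      refine mul_le_mul_of_nonneg_left ((hM _ ?_).trans (le_abs_self M)) (h.nonneg y)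
      rw [mem_closedBall, dist_zero_right]
      rw [mem_ball, dist_eq_norm] at hz
      have h1 : ‖z‖ ≤ ‖x‖ + ‖z - x‖ := by
        have := norm_add_le x (z - x)
        rwa [add_sub_cancel] at this
      have h2 : ‖s • y‖ ≤ |s| := by
        rw [norm_smul, Real.norm_eq_abs]
        nlinarith [abs_nonneg s, norm_nonneg y]
      have h3 := norm_add_le z (s • y)
      linarith
  · exact h.integrable.mul_const _
  · refine Eventually.of_forall fun y z _ => ?_
    have h1 : HasFDerivAt g (fderiv ℝ g (z + s • y)) (z + s • y) :=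
      (hg.differentiable one_ne_zero _).hasFDerivAt
    have h2 : HasFDerivAt (fun z => g (z + s • y)) (fderiv ℝ g (z + s • y)) z :=
      (hasFDerivAt_comp_add_right (s • y)).mpr h1
    exact h2.const_smul (ψ y)

include h in
lemma fderiv_avk {g : Sp d → F} (hg : ContDiff ℝ 1 g) (s : ℝ) :
    fderiv ℝ (avk ψ s g) = avk ψ s (fderiv ℝ g) :=
  funext fun x => (h.hasFDerivAt_avk hg s x).fderiv

include h in
/-- continuous linear maps commute with averages -/
lemma avk_clm [CompleteSpace F] {G : Type*} [NormedAddCommGroup G] [NormedSpace ℝ G]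
    [CompleteSpace G] (L : F →L[ℝ] G) {g : Sp d → F} (hg : Continuous g) (s : ℝ) (x : Sp d) :
    avk ψ s (fun z => L (g z)) x = L (avk ψ s g x) := by
  unfold avk
  rw [← L.integral_comp_comm (h.integrand_integrable hg s x)]
  simp only [map_smul]

include h in
lemma iteratedFDeriv_avk_nat [CompleteSpace F] (n : ℕ) {g : Sp d → F} (hg : ContDiff ℝ n g)
    (s : ℝ) : ContDiff ℝ n (avk ψ s g) ∧
      ∀ j ≤ n, iteratedFDeriv ℝ j (avk ψ s g) = avk ψ s (iteratedFDeriv ℝ j g) := by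
  have key : ∀ j ≤ n, iteratedFDeriv ℝ j (avk ψ s g) = avk ψ s (iteratedFDeriv ℝ j g) := by
    intro j
    induction j with
    | zero =>
      intro _
      funext x
      rw [iteratedFDeriv_zero_eq_comp, iteratedFDeriv_zero_eq_comp]
      have := h.avk_clm
        (continuousMultilinearCurryFin0 ℝ (Sp d) F).symm.toContinuousLinearEquiv.toContinuousLinearMap
        hg.continuous s x
      exact this.symm
    | succ j ih =>
      intro hj
      have h1 := ih (by omega)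
      have hcj : ContDiff ℝ 1 (iteratedFDeriv ℝ j g) :=
        hg.iteratedFDeriv_right (by exact_mod_cast (by omega : 1 + j ≤ n))
      funext x
      rw [iteratedFDeriv_succ_eq_comp_left, iteratedFDeriv_succ_eq_comp_left, h1,
        Function.comp_apply, h.fderiv_avk hcj]
      have := h.avk_clm
        (continuousMultilinearCurryLeftEquiv ℝ (fun _ : Fin (j + 1) => Sp d)
          F).symm.toContinuousLinearEquiv.toContinuousLinearMap
        (hcj.continuous_fderiv one_ne_zero) s x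
      exact this.symm
  refine ⟨?_, key⟩
  refine contDiff_nat_iff_continuous_differentiable.mpr ⟨fun j hj => ?_, fun j hj => ?_⟩
  · rw [key j hj]
    exact h.avk_cont (hg.continuous_iteratedFDeriv (by exact_mod_cast hj)) s
  · rw [key j hj.le]
    have hcj : ContDiff ℝ 1 (iteratedFDeriv ℝ j g) :=
      hg.iteratedFDeriv_right (by exact_mod_cast (by omega : 1 + j ≤ n))
    exact fun x => (h.hasFDerivAt_avk hcj s x).differentiableAt

include h in
/-- averages of C^n functions are C^n -/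
lemma avk_contDiff [CompleteSpace F] {n : ℕ} {g : Sp d → F} (hg : ContDiff ℝ n g) (s : ℝ) :
    ContDiff ℝ n (avk ψ s g) := (h.iteratedFDeriv_avk_nat n hg s).1

include h in
/-- derivatives of averages are averages of derivatives -/
lemma iteratedFDeriv_avk [CompleteSpace F] {n : ℕ} {g : Sp d → F} (hg : ContDiff ℝ n g)
    (s : ℝ) {j : ℕ} (hj : j ≤ n) (x : Sp d) :
    iteratedFDeriv ℝ j (avk ψ s g) x = avk ψ s (iteratedFDeriv ℝ j g) x := by
  rw [(h.iteratedFDeriv_avk_nat n hg s).2 j hj]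

include h in
/-- averages do not increase bounds of derivatives -/
lemma norm_iteratedFDeriv_avk_le [CompleteSpace F] {n : ℕ} {g : Sp d → F} (hg : ContDiff ℝ n g)
    (s : ℝ) {j : ℕ} (hj : j ≤ n) {N : ℝ} (hN : ∀ x, ‖iteratedFDeriv ℝ j g x‖ ≤ N) (x : Sp d) :
    ‖iteratedFDeriv ℝ j (avk ψ s g) x‖ ≤ N := by
  rw [h.iteratedFDeriv_avk hg s hj]
  refine (h.norm_avk_le _ s x).trans ?_
  refine h.avk_le_of_le ?_ hN s x
  exact (LB.of_cont (hg.continuous_iteratedFDeriv (by exact_mod_cast hj))).norm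

/-! ## second order error -/

/-- a C² function with bounded second derivative has Lipschitz derivative -/
lemma _root_.TG.fderiv_lip {g : Sp d → F} (hg : ContDiff ℝ 2 g) {N : ℝ}
    (hN : ∀ y, ‖iteratedFDeriv ℝ 2 g y‖ ≤ N) (x y : Sp d) :
    ‖fderiv ℝ g y - fderiv ℝ g x‖ ≤ N * ‖y - x‖ := by
  have h1 : ContDiff ℝ 1 (fderiv ℝ g) := hg.fderiv_right (by norm_num)
  refine Convex.norm_image_sub_le_of_norm_fderiv_le (𝕜 := ℝ) (s := univ) (f := fderiv ℝ g)
    (fun z _ => h1.differentiable one_ne_zero z) (fun z _ => ?_) convex_univ (mem_univ x)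
    (mem_univ y)
  have h2 := hN z
  rwa [← norm_iteratedFDeriv_fderiv, norm_iteratedFDeriv_one] at h2

/-- linear terms average to zero -/
lemma avk_linear (he : ∀ x, ψ (-x) = ψ x) (L : Sp d →L[ℝ] F) (s : ℝ) :
    ∫ y, ψ y • L (s • y) = 0 := by
  have h1 : ∫ y, ψ y • L (s • y) = -∫ y, ψ y • L (s • y) := by
    rw [← integral_neg]
    rw [← integral_neg_eq_self (fun y : Sp d => ψ y • L (s • y)) volume]
    congr 1
    ext y
    rw [he, smul_neg, map_neg, smul_neg]
  have h2 : (2 : ℝ) • ∫ y, ψ y • L (s • y) = 0 := by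
    rw [two_smul]
    nth_rewrite 1 [h1]
    exact neg_add_cancel _
  exact (smul_eq_zero.mp h2).resolve_left (by norm_num)

include h in
/-- second order error of averages with even kernels -/
lemma avk_sub_self_le [CompleteSpace F] (he : ∀ x, ψ (-x) = ψ x) {g : Sp d → F}
    (hg : ContDiff ℝ 2 g) {N : ℝ} (hN0 : 0 ≤ N) (hN : ∀ y, ‖iteratedFDeriv ℝ 2 g y‖ ≤ N) (s : ℝ)
    (x : Sp d) : ‖avk ψ s g x - g x‖ ≤ N * s ^ 2 := by
  have hi1 := h.integrand_integrable hg.continuous s x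
  have hi2 : Integrable fun y : Sp d => ψ y • g x := h.integrable.smul_const _
  have hi3 : Integrable fun y : Sp d => ψ y • (fderiv ℝ g x) (s • y) := by
    apply Continuous.integrable_of_hasCompactSupport
    · exact h.cont.smul ((fderiv ℝ g x).continuous.comp (by fun_prop))
    · exact h.cs.smul_right
  have e1 : avk ψ s g x - g x =
      ∫ y, ψ y • (g (x + s • y) - g x - (fderiv ℝ g x) (s • y)) := by
    have h1 : ∫ y, ψ y • (g (x + s • y) - g x - (fderiv ℝ g x) (s • y)) =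
        (∫ y, ψ y • g (x + s • y)) - (∫ y, ψ y • g x) -
          ∫ y, ψ y • (fderiv ℝ g x) (s • y) := by
      have h5 : Integrable fun y : Sp d => ψ y • g (x + s • y) - ψ y • g x := hi1.sub hi2
      rw [← integral_sub hi1 hi2, ← integral_sub h5 hi3]
      congr 1
      ext y
      simp only [smul_sub]
    rw [h1, avk_linear he, sub_zero, integral_smul_const, h.int, one_smul]
    rfl
  rw [e1]
  have h2 : ∀ y, ‖ψ y • (g (x + s • y) - g x - (fderiv ℝ g x) (s • y))‖ ≤ ψ y * (N * s ^ 2) := by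
    intro y
    rw [norm_smul, Real.norm_of_nonneg (h.nonneg y)]
    by_cases hy : 1 ≤ ‖y‖
    · rw [h.supp y hy, zero_mul, zero_mul]
    · push Not at hy
      refine mul_le_mul_of_nonneg_left ?_ (h.nonneg y)
      have hsy : ‖s • y‖ ≤ |s| := by
        rw [norm_smul, Real.norm_eq_abs]
        nlinarith [abs_nonneg s, norm_nonneg y]
      have h3 := Convex.norm_image_sub_le_of_norm_fderiv_le' (𝕜 := ℝ)
        (s := closedBall x |s|) (f := g) (φ := fderiv ℝ g x) (x := x) (y := x + s • y)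
        (C := N * |s|)
        (fun z _ => (hg.differentiable (by norm_num)) z) (fun z hz => ?_)
        (convex_closedBall _ _) (mem_closedBall_self (abs_nonneg s)) ?_
      · rw [add_sub_cancel_left] at h3
        refine h3.trans ?_
        calc N * |s| * ‖s • y‖ ≤ N * |s| * |s| :=
              mul_le_mul_of_nonneg_left hsy (mul_nonneg hN0 (abs_nonneg s))
          _ = N * s ^ 2 := by rw [mul_assoc, abs_mul_abs_self]; ring
      · rw [mem_closedBall, dist_eq_norm] at hz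
        exact (fderiv_lip hg hN x z).trans (mul_le_mul_of_nonneg_left hz hN0)
      · rw [mem_closedBall, dist_eq_norm, add_sub_cancel_left]
        exact hsy
  refine (norm_integral_le_integral_norm _).trans ?_
  have h4 : ∫ y, ψ y * (N * s ^ 2) = N * s ^ 2 := by
    rw [integral_mul_const, h.int, one_mul]
  rw [← h4]
  exact integral_mono_of_nonneg (Eventually.of_forall fun y => norm_nonneg _)
    (h.integrable.mul_const _) (Eventually.of_forall h2)

end AK

end

end TG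


end

section

set_option autoImplicit false
set_option linter.unusedSectionVars false

/-!
# Deficits, mass transfer, telescoping against test functions (unit scale)
-/

open MeasureTheory Metric Set TrI Filter
open scoped InnerProductSpace ContDiff Topology

namespace TG

noncomputable section

namespace MA

variable {d : ℕ} {E : Type} [NormedAddCommGroup E] [InnerProductSpace ℝ E] [FiniteDimensional ℝ E]

/-- deficit density -/
def dfn (g : Sp d → E) (e : E) (x : Sp d) : ℝ := ‖g x‖ - ⟪g x, e⟫_ℝ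

lemma inner_le {e : E} (he : ‖e‖ = 1) (v : E) : ⟪v, e⟫_ℝ ≤ ‖v‖ := by
  have := real_inner_le_norm v e
  rwa [he, mul_one] at this

lemma abs_inner_le {e : E} (he : ‖e‖ = 1) (v : E) : |⟪v, e⟫_ℝ| ≤ ‖v‖ := by
  have := abs_real_inner_le_norm v e
  rwa [he, mul_one] at this

lemma dfn_nonneg {e : E} (he : ‖e‖ = 1) (g : Sp d → E) (x : Sp d) : 0 ≤ dfn g e x := by
  have := inner_le he (g x)
  unfold dfn
  linarith

lemma dfn_cont {g : Sp d → E} (hg : Continuous g) (e : E) : Continuous (dfn g e) :=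
  hg.norm.sub (hg.inner continuous_const)

lemma inner_cs {g : Sp d → E} (hc : HasCompactSupport g) (e : E) :
    HasCompactSupport (fun x => ⟪g x, e⟫_ℝ) :=
  hc.comp_left (g := fun v : E => ⟪v, e⟫_ℝ) (inner_zero_left e)

lemma dfn_cs {g : Sp d → E} (hc : HasCompactSupport g) (e : E) : HasCompactSupport (dfn g e) :=
  hc.comp_left (g := fun v : E => ‖v‖ - ⟪v, e⟫_ℝ) (by simp)

variable {b : Sp d → ℝ}

/-- one step of the mass transfer -/
lemma mass_step (hb : AK b) (hev : ∀ x, b (-x) = b x) (hρ : ∀ x, 1 / 2 ≤ ‖x‖ → b x = 0)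
    {g : Sp d → E} (hg : Continuous g) (hc : HasCompactSupport g) {e : E} (he : ‖e‖ = 1) {s : ℝ}
    (hs : 0 < s) {A A' A'' : Set (Sp d)} (hA : MeasurableSet A) (hA' : MeasurableSet A')
    (hA'' : MeasurableSet A'') (h1 : ∀ x ∈ A, ∀ z, ‖z - x‖ < 1 / 2 * s → z ∈ A')
    (h2 : ∀ x ∈ A', ∀ z, ‖z - x‖ < 1 / 2 * s → z ∈ A'') :
    ∫ x in A, ‖g x‖ ≤ (∫ x in A', ‖avk b s g x‖) + ∫ x in A'', dfn g e x := by
  have hn : Continuous (fun x => ‖g x‖) := hg.norm
  have i1 : Integrable (avk b s (fun x => ‖g x‖)) :=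
    (hb.avk_cont hn s).integrable_of_hasCompactSupport (hb.avk_cs hc.norm s)
  have i2 : Integrable (fun x => ‖avk b s g x‖) :=
    (hb.avk_cont hg s).norm.integrable_of_hasCompactSupport (hb.avk_cs hc s).norm
  have i3 : Integrable (avk b s (dfn g e)) :=
    (hb.avk_cont (dfn_cont hg e) s).integrable_of_hasCompactSupport (hb.avk_cs (dfn_cs hc e) s)
  have s1 := hb.setInt_le_avk hev hρ (LB.of_cont hn) hc.norm (fun _ => norm_nonneg _) hs hA hA' h1
  have s2 := hb.setInt_avk_le hev hρ (LB.of_cont (dfn_cont hg e)) (dfn_cs hc e)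
    (dfn_nonneg he g) hs hA'' hA' h2
  have s3 : ∫ x in A', avk b s (fun x => ‖g x‖) x ≤
      ∫ x in A', (‖avk b s g x‖ + avk b s (dfn g e) x) := by
    refine setIntegral_mono i1.integrableOn (i2.add i3).integrableOn fun x => ?_
    change avk b s (fun x => ‖g x‖) x ≤ ‖avk b s g x‖ + avk b s (dfn g e) x
    have e1 : avk b s (dfn g e) x = avk b s (fun x => ‖g x‖) x - ⟪avk b s g x, e⟫_ℝ := by
      rw [← hb.avk_inner hg e s x, ← hb.avk_sub hn (hg.inner continuous_const)]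
      rfl
    have e2 := inner_le he (avk b s g x)
    linarith
  rw [integral_add i2.integrableOn i3.integrableOn] at s3
  linarith

/-! ## unit scale -/

lemma lev_unit (n : ℕ) : lev ((1 / 2 : ℝ) ^ n) n = 1 := by
  unfold lev
  rw [← mul_pow]
  norm_num

lemma lev_le_lev {s0 : ℝ} (hs : 0 < s0) {i j : ℕ} (h : i ≤ j) : lev s0 i ≤ lev s0 j := by
  unfold lev
  gcongr
  norm_num

lemma lev_sq (n l : ℕ) (h : l ≤ n) : lev ((1 / 2 : ℝ) ^ n) l ^ 2 = (1 / 4) ^ (n - l) := by
  obtain ⟨k, rfl⟩ := Nat.exists_eq_add_of_le h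
  unfold lev
  rw [Nat.add_sub_cancel_left, pow_add]
  have e1 : ((1 / 2 : ℝ) ^ l * (1 / 2) ^ k * 2 ^ l) = (1 / 2) ^ k := by
    have e2 : (1 / 2 : ℝ) ^ l * 2 ^ l = 1 := by rw [← mul_pow]; norm_num
    calc ((1 / 2 : ℝ) ^ l * (1 / 2) ^ k * 2 ^ l) = ((1 / 2 : ℝ) ^ l * 2 ^ l) * (1 / 2) ^ k := by
          ring
      _ = _ := by rw [e2, one_mul]
  rw [e1, ← pow_mul, mul_comm k 2, pow_mul]
  norm_num

lemma DD_eq (b : Sp d → ℝ) (ε R : ℝ) (n : ℕ) (f : Sp d → E) (x : Sp d) (e : E) :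
    DD b ε R ((1 / 2) ^ n) f n x e =
      ∑ l ∈ Finset.range (n + 1), (1 / 4 : ℝ) ^ (n - l) *
        (∫ y in ball x R, dfn (fl b ε ((1 / 2) ^ n) f l) e y) +
      (1 / 4 : ℝ) ^ n * ∫ y in ball x R, ‖f y‖ := by
  unfold DD
  rw [lev_unit, one_pow, div_one, one_mul, mul_one]
  rfl

lemma DD_ge (b : Sp d → ℝ) (ε R : ℝ) {n : ℕ} (f : Sp d → E) (x : Sp d) {e : E} (he : ‖e‖ = 1)
    {N : ℕ} (hN : N ≤ n + 1) :
    ∑ l ∈ Finset.range N, (1 / 4 : ℝ) ^ (n - l) *
        (∫ y in ball x R, dfn (fl b ε ((1 / 2) ^ n) f l) e y) ≤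
      DD b ε R ((1 / 2) ^ n) f n x e := by
  rw [DD_eq]
  have h1 : 0 ≤ (1 / 4 : ℝ) ^ n * ∫ y in ball x R, ‖f y‖ :=
    mul_nonneg (by positivity) (integral_nonneg fun _ => norm_nonneg _)
  have h2 : ∑ l ∈ Finset.range N, (1 / 4 : ℝ) ^ (n - l) *
        (∫ y in ball x R, dfn (fl b ε ((1 / 2) ^ n) f l) e y) ≤
      ∑ l ∈ Finset.range (n + 1), (1 / 4 : ℝ) ^ (n - l) *
        (∫ y in ball x R, dfn (fl b ε ((1 / 2) ^ n) f l) e y) := by
    refine Finset.sum_le_sum_of_subset_of_nonneg (Finset.range_mono hN) fun l _ _ => ?_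
    exact mul_nonneg (by positivity) (integral_nonneg fun _ => dfn_nonneg he _ _)
  linarith

/-- mass transfer from level l to level N -/
lemma transfer (hb : AK b) (hev : ∀ x, b (-x) = b x) (hρ : ∀ x, 1 / 2 ≤ ‖x‖ → b x = 0)
    {ε s0 : ℝ} (hε : 0 < ε) (hε1 : ε ≤ 1) (hs0 : 0 < s0) {f : Sp d → E} (hf : Continuous f)
    (hc : HasCompactSupport f) {e : E} (he : ‖e‖ = 1) {x : Sp d} {R : ℝ} {U : Set (Sp d)}
    (hU : ∀ y ∈ U, ‖y - x‖ < R - 2) {N : ℕ} (hN : lev s0 N ≤ 1) :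
    ∀ (k l : ℕ) (r : ℝ), l + k = N → 0 < r → r + (lev s0 N - lev s0 l) ≤ 1 →
      ∫ y in thickening r U, ‖fl b ε s0 f l y‖ ≤
        (∫ y in thickening (r + (lev s0 N - lev s0 l)) U, ‖fl b ε s0 f N y‖) +
        ∑ j ∈ Finset.Ico l N, ∫ y in ball x R, dfn (fl b ε s0 f j) e y := by
  intro k
  induction k with
  | zero =>
    intro l r hl hr h1
    rw [Nat.add_zero] at hl
    subst hl
    simp
  | succ k ih =>
    intro l r hl hr h1
    have hl0 := lev_pos hs0 l
    have hls := lev_succ s0 l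
    have hlN : lev s0 (l + 1) ≤ lev s0 N := lev_le_lev hs0 (by omega)
    have hs : 0 < ε * lev s0 (l + 1) := mul_pos hε (lev_pos hs0 _)
    have hs' : ε * lev s0 (l + 1) ≤ 2 * lev s0 l := by
      rw [hls]
      nlinarith
    have step := mass_step hb hev hρ (fl_cont hb ε s0 hf l) (fl_cs hb ε s0 hc l) he hs
      (A := thickening r U) (A' := thickening (r + lev s0 l) U) (A'' := ball x R)
      isOpen_thickening.measurableSet isOpen_thickening.measurableSet measurableSet_ball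
      (fun y hy z hz => by
        rw [mem_thickening_iff] at hy ⊢
        obtain ⟨w, hw, hyw⟩ := hy
        refine ⟨w, hw, ?_⟩
        have h2 := dist_triangle z y w
        rw [← dist_eq_norm] at hz
        linarith)
      (fun y hy z hz => by
        rw [mem_thickening_iff] at hy
        obtain ⟨w, hw, hyw⟩ := hy
        have h2 := dist_triangle z y w
        have h3 := dist_triangle z w x
        have h4 := hU w hw
        rw [← dist_eq_norm] at hz h4
        rw [mem_ball]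
        linarith)
    have h2 := ih (l + 1) (r + lev s0 l) (by omega) (by linarith) (by rw [hls]; linarith)
    have e1 : r + lev s0 l + (lev s0 N - lev s0 (l + 1)) = r + (lev s0 N - lev s0 l) := by
      rw [hls]; ring
    rw [e1] at h2
    have e2 : avk b (ε * lev s0 (l + 1)) (fl b ε s0 f l) = fl b ε s0 f (l + 1) := rfl
    rw [e2] at step
    rw [Finset.sum_eq_sum_Ico_succ_bot (by omega : l < N)]
    linarith

/-- telescoping against a test function -/
lemma telescope (hb : AK b) (hev : ∀ x, b (-x) = b x) (ε s0 : ℝ) {f : Sp d → E}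
    (hf : Continuous f) (hc : HasCompactSupport f) (e : E) {ζ : Sp d → ℝ} (hζ : Continuous ζ)
    (N : ℕ) :
    ∫ y, ⟪f y, e⟫_ℝ * ζ y = (∫ y, ⟪fl b ε s0 f N y, e⟫_ℝ * ζ y) +
      ∑ l ∈ Finset.range N, ∫ y, ⟪fl b ε s0 f l y, e⟫_ℝ *
        (ζ y - avk b (ε * lev s0 (l + 1)) ζ y) := by
  induction N with
  | zero => simp [fl]
  | succ N ih =>
    rw [Finset.sum_range_succ, ih]
    have hgc : Continuous fun y => ⟪fl b ε s0 f N y, e⟫_ℝ :=
      (fl_cont hb ε s0 hf N).inner continuous_const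
    have hgs : HasCompactSupport fun y => ⟪fl b ε s0 f N y, e⟫_ℝ :=
      inner_cs (fl_cs hb ε s0 hc N) e
    have e1 : ∫ y, ⟪fl b ε s0 f (N + 1) y, e⟫_ℝ * ζ y =
        ∫ y, ⟪fl b ε s0 f N y, e⟫_ℝ * avk b (ε * lev s0 (N + 1)) ζ y := by
      have h1 := hb.avk_adj' hev (LB.of_cont hζ) (LB.of_cont hgc) hgs (ε * lev s0 (N + 1))
      have h2 : ∀ y, avk b (ε * lev s0 (N + 1)) (fun y => ⟪fl b ε s0 f N y, e⟫_ℝ) y =
          ⟪fl b ε s0 f (N + 1) y, e⟫_ℝ := fun y =>
        hb.avk_inner (fl_cont hb ε s0 hf N) e _ y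
      calc ∫ y, ⟪fl b ε s0 f (N + 1) y, e⟫_ℝ * ζ y
          = ∫ y, ζ y * avk b (ε * lev s0 (N + 1)) (fun y => ⟪fl b ε s0 f N y, e⟫_ℝ) y := by
            congr 1; ext y; rw [h2 y, mul_comm]
        _ = _ := h1
        _ = _ := by congr 1; ext y; rw [mul_comm]
    have i1 : Integrable fun y => ⟪fl b ε s0 f N y, e⟫_ℝ * ζ y :=
      (hgc.mul hζ).integrable_of_hasCompactSupport hgs.mul_right
    have i2 : Integrable fun y => ⟪fl b ε s0 f N y, e⟫_ℝ *
        avk b (ε * lev s0 (N + 1)) ζ y :=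
      (hgc.mul (hb.avk_cont hζ _)).integrable_of_hasCompactSupport hgs.mul_right
    have e2 : ∫ y, ⟪fl b ε s0 f N y, e⟫_ℝ * (ζ y - avk b (ε * lev s0 (N + 1)) ζ y) =
        (∫ y, ⟪fl b ε s0 f N y, e⟫_ℝ * ζ y) -
          ∫ y, ⟪fl b ε s0 f (N + 1) y, e⟫_ℝ * ζ y := by
      rw [e1, ← integral_sub i1 i2]
      congr 1
      ext y
      ring
    rw [e2]
    ring

/-- the error of one step -/
lemma err_le (hb : AK b) (hev : ∀ x, b (-x) = b x) (hρ : ∀ x, 1 / 2 ≤ ‖x‖ → b x = 0)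
    {g : Sp d → E} (hg : Continuous g) (hc : HasCompactSupport g) {e : E} (he : ‖e‖ = 1) {s t : ℝ}
    (hs : 0 < s) (hst : s ≤ 2 * t) {ζ : Sp d → ℝ} (hζ : ContDiff ℝ 2 ζ)
    (hζ2 : ∀ y, ‖iteratedFDeriv ℝ 2 ζ y‖ ≤ 1) {U : Set (Sp d)} (hU : ∀ y, ζ y ≠ 0 → y ∈ U) :
    |∫ y, ⟪g y, e⟫_ℝ * (ζ y - avk b s ζ y)| ≤ 4 * t ^ 2 * ∫ y in thickening t U, ‖g y‖ := by
  have hn : Integrable (fun y => ‖g y‖) := hg.norm.integrable_of_hasCompactSupport hc.norm
  rw [← Real.norm_eq_abs, ← integral_indicator isOpen_thickening.measurableSet,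
    ← integral_const_mul]
  refine (norm_integral_le_integral_norm _).trans ?_
  refine integral_mono_of_nonneg (Eventually.of_forall fun y => norm_nonneg _)
    ((hn.indicator isOpen_thickening.measurableSet).const_mul _) (Eventually.of_forall fun y => ?_)
  change ‖⟪g y, e⟫_ℝ * (ζ y - avk b s ζ y)‖ ≤
    4 * t ^ 2 * (thickening t U).indicator (fun y => ‖g y‖) y
  rw [norm_mul, Real.norm_eq_abs]
  by_cases hy : y ∈ thickening t U
  · rw [Set.indicator_of_mem hy]
    have h1 := hb.avk_sub_self_le hev hζ zero_le_one hζ2 s y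
    rw [← norm_neg, neg_sub, one_mul] at h1
    have h2 : s ^ 2 ≤ 4 * t ^ 2 := by nlinarith
    calc |⟪g y, e⟫_ℝ| * ‖ζ y - avk b s ζ y‖ ≤ ‖g y‖ * (4 * t ^ 2) :=
          mul_le_mul (abs_inner_le he _) (h1.trans h2) (norm_nonneg _) (norm_nonneg _)
      _ = _ := mul_comm _ _
  · rw [Set.indicator_of_notMem hy, mul_zero]
    have h1 : ζ y = 0 := by
      by_contra hne
      exact hy (self_subset_thickening (by linarith) U (hU y hne))
    have h2 : avk b s ζ y = 0 := by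
      by_contra hne
      obtain ⟨z, hz, hzy⟩ := AK.exists_of_avk_ne (ψ := b) hρ hs hne
      apply hy
      rw [mem_thickening_iff]
      refine ⟨z, hU z hz, ?_⟩
      rw [dist_comm, dist_eq_norm]
      linarith
    rw [h1, h2, sub_zero, norm_zero, mul_zero]

/-- summation of the errors -/
lemma sum_aux (N : ℕ) (c D : ℕ → ℝ) (hc : ∀ l, 0 ≤ c l) (hc2 : ∀ l, c (l + 1) = 4 * c l)
    (hD : ∀ l, 0 ≤ D l) {A : ℝ} (hA : 0 ≤ A) (hN : c N ≤ 1) :
    ∑ l ∈ Finset.range N, 4 * c l * (A + ∑ j ∈ Finset.Ico l N, D j) ≤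
      2 * A + 8 * ∑ j ∈ Finset.range N, c j * D j := by
  have hgeo : ∀ m, ∑ l ∈ Finset.range m, c l ≤ c m / 3 := by
    intro m
    induction m with
    | zero =>
      have h0 := hc 0
      rw [Finset.range_zero, Finset.sum_empty]
      linarith
    | succ m ih =>
      rw [Finset.sum_range_succ, hc2]
      linarith
  have h1 : ∑ l ∈ Finset.range N, 4 * c l * (A + ∑ j ∈ Finset.Ico l N, D j) =
      4 * A * ∑ l ∈ Finset.range N, c l +
        4 * ∑ l ∈ Finset.range N, ∑ j ∈ Finset.Ico l N, c l * D j := by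
    rw [Finset.mul_sum, Finset.mul_sum, ← Finset.sum_add_distrib]
    refine Finset.sum_congr rfl fun l _ => ?_
    rw [← Finset.mul_sum]
    ring
  have h2 : ∑ l ∈ Finset.range N, ∑ j ∈ Finset.Ico l N, c l * D j ≤
      2 * ∑ j ∈ Finset.range N, c j * D j := by
    rw [Finset.range_eq_Ico, Finset.sum_Ico_Ico_comm, ← Finset.range_eq_Ico, Finset.mul_sum]
    refine Finset.sum_le_sum fun j _ => ?_
    rw [← Finset.sum_mul, ← Finset.range_eq_Ico]
    have h3 := hgeo (j + 1)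
    rw [hc2] at h3
    have h4 := hc j
    have h5 := hD j
    nlinarith
  have h3 := hgeo N
  have h4 : 4 * A * ∑ l ∈ Finset.range N, c l ≤ 2 * A := by nlinarith
  rw [h1]
  linarith

end MA

end

end TG


end

section

/-!
# Trace inequality, stage 2: module RKG (the kernels of RKer for operators with NSProp)
-/

open MeasureTheory Metric Set Filter
open scoped InnerProductSpace ContDiff Topology Convolution Nat

namespace TrI

noncomputable section

variable {d : ℕ}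

section General

variable {V E : Type} [NormedAddCommGroup V] [InnerProductSpace ℝ V] [FiniteDimensional ℝ V]
  [NormedAddCommGroup E] [InnerProductSpace ℝ E] [FiniteDimensional ℝ E]

/-- averages of continuous functions with smooth kernels are smooth -/
lemma avk_contDiff {ψ : Sp d → ℝ} (hψ : ContDiff ℝ ∞ ψ) (h0 : ∀ y, 1 ≤ ‖y‖ → ψ y = 0)
    {f : Sp d → V} (hf : Continuous f) {s : ℝ} (hs : 0 < s) : ContDiff ℝ ∞ (avk ψ s f) := by
  have e1 : avk ψ s f = fun z => |(s ^ Module.finrank ℝ (Sp d))⁻¹| •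
      (f ⋆[(ContinuousLinearMap.lsmul ℝ ℝ : ℝ →L[ℝ] V →L[ℝ] V).flip, (volume : Measure (Sp d))]
        (fun w => ψ ((-s)⁻¹ • w))) z := by
    funext z
    exact kernel_eq_conv (ContinuousLinearMap.lsmul ℝ ℝ : ℝ →L[ℝ] V →L[ℝ] V) ψ f hs.ne' z
  rw [e1]
  have hcs : HasCompactSupport (fun w => ψ ((-s)⁻¹ • w)) := by
    refine HasCompactSupport.intro (isCompact_closedBall (0 : Sp d) s) fun x hx => h0 _ ?_
    rw [mem_closedBall, dist_zero_right, not_le] at hx
    rw [norm_smul, norm_inv, norm_neg, Real.norm_eq_abs, abs_of_pos hs, inv_mul_eq_div,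
      le_div_iff₀ hs]
    linarith
  have hcd : ContDiff ℝ ∞ (fun w => ψ ((-s)⁻¹ • w)) := hψ.comp (contDiff_const_smul _)
  refine ContDiff.const_smul _ ?_
  exact hcs.contDiff_convolution_right _
    (hf.locallyIntegrable (μ := (volume : Measure (Sp d)))) hcd

/-- the derivative commutes with averages -/
lemma fderiv_avk {ψ : Sp d → ℝ} (hψ : Continuous ψ) (h0 : ∀ y, 1 ≤ ‖y‖ → ψ y = 0)
    {u : Sp d → V} (hu : TF u) {s : ℝ} (z : Sp d) :
    fderiv ℝ (avk ψ s u) z = ∫ y, ψ y • fderiv ℝ u (z + s • y) := by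
  have hu1 : ContDiff ℝ 1 u := hu.smooth.of_le (by exact_mod_cast le_top)
  have hcf : Continuous (fderiv ℝ u) := hu1.continuous_fderiv one_ne_zero
  obtain ⟨M, hM⟩ := hcf.bounded_above_of_compact_support (hu.supp.fderiv (𝕜 := ℝ))
  have hF : ∀ z, Integrable (fun y => ψ y • u (z + s • y)) := fun z =>
    kernel_integrable (ContinuousLinearMap.lsmul ℝ ℝ : ℝ →L[ℝ] V →L[ℝ] V) hψ h0
      hu.smooth.continuous s z
  have hψi : Integrable ψ := hψ.integrable_of_hasCompactSupport (cs_of_vanish h0)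
  have key : HasFDerivAt (fun z => ∫ y, ψ y • u (z + s • y))
      (∫ y, ψ y • fderiv ℝ u (z + s • y)) z := by
    refine hasFDerivAt_integral_of_dominated_of_fderiv_le (s := univ)
      (F := fun z y => ψ y • u (z + s • y)) (F' := fun z y => ψ y • fderiv ℝ u (z + s • y))
      (bound := fun y => ‖ψ y‖ * M) univ_mem ?_ (hF z) ?_ ?_ ?_ ?_
    · exact Eventually.of_forall fun z => (hF z).aestronglyMeasurable
    · exact (hψ.smul (hcf.comp (by fun_prop))).aestronglyMeasurable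
    · refine Eventually.of_forall fun y z _ => ?_
      rw [norm_smul]
      exact mul_le_mul_of_nonneg_left (hM _) (norm_nonneg _)
    · exact hψi.norm.mul_const M
    · refine Eventually.of_forall fun y z _ => ?_
      have h1 : HasFDerivAt u (fderiv ℝ u (z + s • y)) (z + s • y) :=
        (hu1.differentiable one_ne_zero _).hasFDerivAt
      have h2 : HasFDerivAt (fun z => u (z + s • y)) (fderiv ℝ u (z + s • y)) z :=
        (hasFDerivAt_comp_add_right (s • y)).mpr h1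
      exact h2.const_smul (ψ y)
  exact key.fderiv

/-- the operator commutes with averages -/
lemma fo_avk (L : (Sp d →L[ℝ] V) →L[ℝ] E) {ψ : Sp d → ℝ} (hψ : Continuous ψ)
    (h0 : ∀ y, 1 ≤ ‖y‖ → ψ y = 0) {u : Sp d → V} (hu : TF u) (s : ℝ) :
    fo L (avk ψ s u) = avk ψ s (fo L u) := by
  funext z
  unfold fo
  rw [fderiv_avk hψ h0 hu z]
  have hu1 : ContDiff ℝ 1 u := hu.smooth.of_le (by exact_mod_cast le_top)
  have hcf : Continuous (fderiv ℝ u) := hu1.continuous_fderiv one_ne_zero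
  have hi : Integrable (fun y => ψ y • fderiv ℝ u (z + s • y)) :=
    kernel_integrable (ContinuousLinearMap.lsmul ℝ ℝ : ℝ →L[ℝ] (Sp d →L[ℝ] V) →L[ℝ] _) hψ h0
      hcf s z
  rw [← L.integral_comp_comm hi]
  simp only [map_smul]
  rfl

/-- averages commute -/
lemma avk_comm {ψ : Sp d → ℝ} (hψ : Continuous ψ) (h0 : ∀ y, 1 ≤ ‖y‖ → ψ y = 0)
    {u : Sp d → V} (hu : Continuous u) (s t : ℝ) (x : Sp d) :
    avk ψ s (avk ψ t u) x = avk ψ t (avk ψ s u) x := by
  unfold avk
  have hint : Integrable (Function.uncurry fun (y w : Sp d) =>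
      ψ y • ψ w • u (x + s • y + t • w)) ((volume : Measure (Sp d)).prod volume) := by
    refine Continuous.integrable_of_hasCompactSupport (by unfold Function.uncurry; fun_prop) ?_
    refine HasCompactSupport.intro
      ((isCompact_closedBall (0 : Sp d) 1).prod (isCompact_closedBall (0 : Sp d) 1)) ?_
    rintro ⟨y, w⟩ hx
    simp only [Function.uncurry]
    rw [mem_prod, not_and_or] at hx
    rcases hx with hx | hx
    · rw [mem_closedBall, dist_zero_right, not_le] at hx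
      rw [h0 y hx.le, zero_smul]
    · rw [mem_closedBall, dist_zero_right, not_le] at hx
      rw [h0 w hx.le, zero_smul, smul_zero]
  have h1 := integral_integral_swap hint
  have e1 : ∀ y, ψ y • ∫ w, ψ w • u (x + s • y + t • w) =
      ∫ w, ψ y • ψ w • u (x + s • y + t • w) := fun y => (integral_smul _ _).symm
  have e2 : ∀ w, ψ w • ∫ y, ψ y • u (x + t • w + s • y) =
      ∫ y, ψ y • ψ w • u (x + s • y + t • w) := by
    intro w
    rw [← integral_smul]
    refine integral_congr_ae (Eventually.of_forall fun y => ?_)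
    show ψ w • ψ y • u (x + t • w + s • y) = ψ y • ψ w • u (x + s • y + t • w)
    rw [smul_comm, add_right_comm]
  simp only [e1, e2]
  exact h1

/-- vector valued moments vanish -/
lemma VKer.mom' {n : ℕ} {ψ : Sp d → ℝ} (h : VKer n ψ) {m : ℕ} (h1 : 1 ≤ m) (h2 : m ≤ n)
    (M : ContinuousMultilinearMap ℝ (fun _ : Fin m => Sp d) V) :
    ∫ y, ψ y • M (fun _ => y) = 0 := by
  have hi : Integrable (fun y => ψ y • M (fun _ => y)) := by
    refine Continuous.integrable_of_hasCompactSupport ?_ (cs_of_vanish fun y hy => ?_)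
    · have := h.smooth.continuous
      fun_prop
    · rw [h.supp y hy, zero_smul]
  refine ext_inner_left ℝ fun e => ?_
  rw [inner_zero_right]
  have h3 := (innerSL ℝ e).integral_comp_comm hi
  simp only [innerSL_apply_apply, inner_smul_right] at h3
  rw [← h3]
  exact h.mom m h1 h2 ((innerSL ℝ e).compContinuousMultilinearMap M)

end General

/-- the parameter set of the Taylor remainder -/
def PS (d : ℕ) : Set (Sp d × ℝ) := closedBall (0 : Sp d) 1 ×ˢ Icc (0 : ℝ) 1

lemma PS_compact : IsCompact (PS d) := (isCompact_closedBall _ _).prod isCompact_Icc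

lemma PS_meas : MeasurableSet (PS d) := PS_compact.isClosed.measurableSet

section Taylor

variable {V E : Type} [NormedAddCommGroup V] [InnerProductSpace ℝ V] [FiniteDimensional ℝ V]
  [NormedAddCommGroup E] [InnerProductSpace ℝ E] [FiniteDimensional ℝ E]

/-- Taylor expansion of an average with vanishing moments -/
lemma avk_taylor {n : ℕ} {ψ : Sp d → ℝ} (hψ : VKer n ψ) {v : Sp d → V} (hv : ContDiff ℝ ∞ v)
    (S : ℝ) (z : Sp d) :
    avk ψ S v z - v z = (n ! : ℝ)⁻¹ • ∫ p in PS d, (ψ p.1 * (1 - p.2) ^ n) •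
      iteratedFDeriv ℝ (n + 1) v (z + p.2 • S • p.1) (fun _ => S • p.1) := by
  have hψc := hψ.smooth.continuous
  have hDc : ∀ k : ℕ, Continuous (iteratedFDeriv ℝ k v) := fun k =>
    hv.continuous_iteratedFDeriv (by exact_mod_cast le_top)
  have hcs : ∀ G : Sp d → V, HasCompactSupport (fun y => ψ y • G y) := fun G =>
    cs_of_vanish fun y hy => by rw [hψ.supp y hy, zero_smul]
  -- the integrand
  have hT : ∀ η : Sp d, v (z + S • η) =
      ∑ k ∈ Finset.range (n + 1), (k ! : ℝ)⁻¹ • (iteratedFDeriv ℝ k v z (fun _ ↦ S • η)) +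
      (n ! : ℝ)⁻¹ • ∫ t in (0 : ℝ)..1, (1 - t) ^ n •
        iteratedFDeriv ℝ (n + 1) v (z + t • S • η) (fun _ ↦ S • η) := fun η =>
    map_add_eq_sum_add_integral_iteratedFDeriv fun t _ =>
      (hv.contDiffAt).of_le (by exact_mod_cast le_top)
  -- the remainder is continuous
  have hRc : Continuous fun η : Sp d => ∫ t in (0 : ℝ)..1, (1 - t) ^ n •
        iteratedFDeriv ℝ (n + 1) v (z + t • S • η) (fun _ ↦ S • η) := by
    have := hDc (n + 1)
    refine intervalIntegral.continuous_parametric_intervalIntegral_of_continuous' ?_ 0 1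
    unfold Function.uncurry
    fun_prop
  have hi1 : ∀ k, Integrable fun η : Sp d =>
      ψ η • ((k ! : ℝ)⁻¹ • (iteratedFDeriv ℝ k v z (fun _ ↦ S • η))) := fun k =>
    Continuous.integrable_of_hasCompactSupport (by fun_prop) (hcs _)
  have hi2 : Integrable fun η : Sp d => ψ η • ((n ! : ℝ)⁻¹ • ∫ t in (0 : ℝ)..1, (1 - t) ^ n •
        iteratedFDeriv ℝ (n + 1) v (z + t • S • η) (fun _ ↦ S • η)) :=
    Continuous.integrable_of_hasCompactSupport (by fun_prop) (hcs _)
  have h1 : avk ψ S v z = ∑ k ∈ Finset.range (n + 1),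
      (∫ η, ψ η • ((k ! : ℝ)⁻¹ • (iteratedFDeriv ℝ k v z (fun _ ↦ S • η)))) +
      ∫ η, ψ η • ((n ! : ℝ)⁻¹ • ∫ t in (0 : ℝ)..1, (1 - t) ^ n •
        iteratedFDeriv ℝ (n + 1) v (z + t • S • η) (fun _ ↦ S • η)) := by
    unfold avk
    rw [← integral_finset_sum _ fun k _ => hi1 k, ← integral_add (integrable_finset_sum _
      fun k _ => hi1 k) hi2]
    refine integral_congr_ae (Eventually.of_forall fun η => ?_)
    show ψ η • v (z + S • η) = _
    rw [hT η, smul_add, Finset.smul_sum]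
  -- the moments
  have h2 : ∑ k ∈ Finset.range (n + 1),
      (∫ η, ψ η • ((k ! : ℝ)⁻¹ • (iteratedFDeriv ℝ k v z (fun _ ↦ S • η)))) = v z := by
    rw [Finset.sum_range_succ']
    have h3 : ∀ k ∈ Finset.range n, (∫ η, ψ η • (((k + 1)! : ℝ)⁻¹ •
        (iteratedFDeriv ℝ (k + 1) v z (fun _ ↦ S • η)))) = 0 := by
      intro k hk
      rw [Finset.mem_range] at hk
      have h4 := hψ.mom' (V := V) (m := k + 1) (by omega) (by omega) (iteratedFDeriv ℝ (k + 1) v z)
      have h5 : ∀ η : Sp d, ψ η • (((k + 1)! : ℝ)⁻¹ •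
          (iteratedFDeriv ℝ (k + 1) v z (fun _ ↦ S • η))) =
          (((k + 1)! : ℝ)⁻¹ * S ^ (k + 1)) •
            (ψ η • iteratedFDeriv ℝ (k + 1) v z (fun _ => η)) := by
        intro η
        have h6 := (iteratedFDeriv ℝ (k + 1) v z).map_smul_univ (fun _ => S) (fun _ => η)
        rw [Finset.prod_const, Finset.card_univ, Fintype.card_fin] at h6
        rw [h6, smul_smul, smul_smul, smul_smul]
        congr 1
        ring
      simp only [h5]
      rw [integral_smul, h4, smul_zero]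
    rw [Finset.sum_eq_zero h3, zero_add]
    simp only [iteratedFDeriv_zero_apply, Nat.factorial_zero, Nat.cast_one, inv_one, one_smul]
    rw [integral_smul_const, hψ.int, one_smul]
  -- the remainder
  have h3 : ∫ η, ψ η • ((n ! : ℝ)⁻¹ • ∫ t in (0 : ℝ)..1, (1 - t) ^ n •
        iteratedFDeriv ℝ (n + 1) v (z + t • S • η) (fun _ ↦ S • η)) =
      (n ! : ℝ)⁻¹ • ∫ p in PS d, (ψ p.1 * (1 - p.2) ^ n) •
      iteratedFDeriv ℝ (n + 1) v (z + p.2 • S • p.1) (fun _ => S • p.1) := by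
    have hcont : Continuous fun p : Sp d × ℝ => (ψ p.1 * (1 - p.2) ^ n) •
        iteratedFDeriv ℝ (n + 1) v (z + p.2 • S • p.1) (fun _ => S • p.1) := by
      have := hDc (n + 1)
      fun_prop
    have h4 := setIntegral_prod (μ := (volume : Measure (Sp d))) (ν := (volume : Measure ℝ))
      (fun p : Sp d × ℝ => (ψ p.1 * (1 - p.2) ^ n) •
        iteratedFDeriv ℝ (n + 1) v (z + p.2 • S • p.1) (fun _ => S • p.1))
      (s := closedBall (0 : Sp d) 1) (t := Icc (0 : ℝ) 1)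
      (hcont.continuousOn.integrableOn_compact PS_compact)
    have h5 : ∫ p in PS d, (ψ p.1 * (1 - p.2) ^ n) •
        iteratedFDeriv ℝ (n + 1) v (z + p.2 • S • p.1) (fun _ => S • p.1) =
        ∫ η in closedBall (0 : Sp d) 1, ∫ t in Icc (0 : ℝ) 1, (ψ η * (1 - t) ^ n) •
        iteratedFDeriv ℝ (n + 1) v (z + t • S • η) (fun _ => S • η) := h4
    rw [h5]
    rw [← integral_smul]
    rw [← setIntegral_eq_integral_of_forall_compl_eq_zero (s := closedBall (0 : Sp d) 1)
      (μ := (volume : Measure (Sp d)))]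
    · refine integral_congr_ae (Eventually.of_forall fun η => ?_)
      show ψ η • ((n ! : ℝ)⁻¹ • ∫ t in (0 : ℝ)..1, (1 - t) ^ n •
        iteratedFDeriv ℝ (n + 1) v (z + t • S • η) (fun _ ↦ S • η)) =
        (n ! : ℝ)⁻¹ • ∫ t in Icc (0 : ℝ) 1, (ψ η * (1 - t) ^ n) •
        iteratedFDeriv ℝ (n + 1) v (z + t • S • η) (fun _ => S • η)
      rw [smul_comm, intervalIntegral.integral_of_le zero_le_one, integral_Icc_eq_integral_Ioc,
        ← integral_smul]
      congr 1
      refine integral_congr_ae (Eventually.of_forall fun t => ?_)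
      exact smul_smul _ _ _
    · intro η hη
      rw [mem_closedBall, dist_zero_right, not_le] at hη
      rw [hψ.supp η hη.le, zero_smul]
  rw [h1, h2, h3]
  abel

end Taylor

section Kernel

variable {V E : Type} [NormedAddCommGroup V] [InnerProductSpace ℝ V] [FiniteDimensional ℝ V]
  [NormedAddCommGroup E] [InnerProductSpace ℝ E] [FiniteDimensional ℝ E]

/-- the elementary kernel: e is sent to T (D^n ψ (ζ) ⊗ e) (η, ..., η) -/
def qk {n : ℕ} (T : (ContinuousMultilinearMap ℝ (fun _ : Fin n => Sp d) E) →L[ℝ]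
      (ContinuousMultilinearMap ℝ (fun _ : Fin (n + 1) => Sp d) V)) (ψ : Sp d → ℝ)
    (ζ η : Sp d) : E →L[ℝ] V :=
  (ContinuousMultilinearMap.apply ℝ (fun _ : Fin (n + 1) => Sp d) V (fun _ => η)).comp
    (T.comp (ContinuousMultilinearMap.smulRightL ℝ (fun _ : Fin n => Sp d) E
      (iteratedFDeriv ℝ n ψ ζ)))

lemma qk_apply {n : ℕ} (T : (ContinuousMultilinearMap ℝ (fun _ : Fin n => Sp d) E) →L[ℝ]
      (ContinuousMultilinearMap ℝ (fun _ : Fin (n + 1) => Sp d) V)) (ψ : Sp d → ℝ)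
    (ζ η : Sp d) (e : E) :
    qk T ψ ζ η e = T ((iteratedFDeriv ℝ n ψ ζ).smulRight e) (fun _ => η) := rfl

lemma qk_cont {n : ℕ} (T : (ContinuousMultilinearMap ℝ (fun _ : Fin n => Sp d) E) →L[ℝ]
      (ContinuousMultilinearMap ℝ (fun _ : Fin (n + 1) => Sp d) V)) {ψ : Sp d → ℝ}
    (hψ : ContDiff ℝ ∞ ψ) {X : Type*} [TopologicalSpace X] {g h : X → Sp d} (hg : Continuous g)
    (hh : Continuous h) : Continuous (fun x => qk T ψ (g x) (h x)) := by
  have hD : Continuous (iteratedFDeriv ℝ n ψ) :=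
    hψ.continuous_iteratedFDeriv (by exact_mod_cast le_top)
  rw [continuous_clm_apply]
  intro e
  have h1 : Continuous fun x => T (ContinuousMultilinearMap.smulRightL ℝ (fun _ : Fin n => Sp d) E
      (iteratedFDeriv ℝ n ψ (g x)) e) := by
    fun_prop
  have h2 : (fun x => qk T ψ (g x) (h x) e) = fun x =>
      (T (ContinuousMultilinearMap.smulRightL ℝ (fun _ : Fin n => Sp d) E
      (iteratedFDeriv ℝ n ψ (g x)) e)) (fun _ => h x) := rfl
  rw [h2]
  fun_prop

lemma qk_zero {n : ℕ} (T : (ContinuousMultilinearMap ℝ (fun _ : Fin n => Sp d) E) →L[ℝ]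
      (ContinuousMultilinearMap ℝ (fun _ : Fin (n + 1) => Sp d) V)) {ψ : Sp d → ℝ}
    (hψ : ContDiff ℝ ∞ ψ) (h0 : ∀ y, 1 ≤ ‖y‖ → ψ y = 0) {ζ : Sp d} (hζ : 1 ≤ ‖ζ‖) (η : Sp d) :
    qk T ψ ζ η = 0 := by
  unfold qk
  rw [iteratedFDeriv_vanish hψ h0 n ζ hζ]
  simp

/-- the kernel for one Taylor expansion, without constant -/
def th {n : ℕ} (T : (ContinuousMultilinearMap ℝ (fun _ : Fin n => Sp d) E) →L[ℝ]
      (ContinuousMultilinearMap ℝ (fun _ : Fin (n + 1) => Sp d) V)) (ψ : Sp d → ℝ) (a b : ℝ)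
    (y : Sp d) : E →L[ℝ] V :=
  ∫ p in PS d, (ψ p.1 * (1 - p.2) ^ n) • qk T ψ (a⁻¹ • (y - (p.2 * b) • p.1)) p.1

lemma th_integrand_cont {n : ℕ} (T : (ContinuousMultilinearMap ℝ (fun _ : Fin n => Sp d) E) →L[ℝ]
      (ContinuousMultilinearMap ℝ (fun _ : Fin (n + 1) => Sp d) V)) {ψ : Sp d → ℝ}
    (hψ : ContDiff ℝ ∞ ψ) (a b : ℝ) :
    Continuous (fun q : Sp d × (Sp d × ℝ) => (ψ q.2.1 * (1 - q.2.2) ^ n) •
      qk T ψ (a⁻¹ • (q.1 - (q.2.2 * b) • q.2.1)) q.2.1) := by
  have hc := hψ.continuous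
  have h1 := qk_cont T hψ (g := fun q : Sp d × (Sp d × ℝ) => a⁻¹ • (q.1 - (q.2.2 * b) • q.2.1))
    (h := fun q : Sp d × (Sp d × ℝ) => q.2.1) (by fun_prop) (by fun_prop)
  have h2 : Continuous (fun q : Sp d × (Sp d × ℝ) => ψ q.2.1 * (1 - q.2.2) ^ n) := by fun_prop
  exact h2.smul h1

lemma th_cont {n : ℕ} (T : (ContinuousMultilinearMap ℝ (fun _ : Fin n => Sp d) E) →L[ℝ]
      (ContinuousMultilinearMap ℝ (fun _ : Fin (n + 1) => Sp d) V)) {ψ : Sp d → ℝ}
    (hψ : ContDiff ℝ ∞ ψ) (a b : ℝ) : Continuous (th T ψ a b) :=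
  continuous_parametric_integral_of_continuous
    (f := fun (y : Sp d) (p : Sp d × ℝ) => (ψ p.1 * (1 - p.2) ^ n) •
      qk T ψ (a⁻¹ • (y - (p.2 * b) • p.1)) p.1) (th_integrand_cont T hψ a b) PS_compact

lemma qk_far {n : ℕ} (T : (ContinuousMultilinearMap ℝ (fun _ : Fin n => Sp d) E) →L[ℝ]
      (ContinuousMultilinearMap ℝ (fun _ : Fin (n + 1) => Sp d) V)) {ψ : Sp d → ℝ}
    (hψ : ContDiff ℝ ∞ ψ) (h0 : ∀ y, 1 ≤ ‖y‖ → ψ y = 0) {a b : ℝ} (ha : 0 < a) (hb : 0 < b)
    {y : Sp d} (hy : a + b ≤ ‖y‖) {p : Sp d × ℝ} (hp : p ∈ PS d) :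
    qk T ψ (a⁻¹ • (y - (p.2 * b) • p.1)) p.1 = 0 := by
  refine qk_zero T hψ h0 ?_ _
  obtain ⟨hp1, hp2⟩ := hp
  rw [mem_closedBall, dist_zero_right] at hp1
  rw [mem_Icc] at hp2
  rw [norm_smul, norm_inv, Real.norm_eq_abs, abs_of_pos ha, inv_mul_eq_div, le_div_iff₀ ha,
    one_mul]
  have h1 : ‖(p.2 * b) • p.1‖ ≤ b := by
    rw [norm_smul, Real.norm_eq_abs, abs_of_nonneg (mul_nonneg hp2.1 hb.le)]
    calc p.2 * b * ‖p.1‖ ≤ 1 * b * 1 :=
          mul_le_mul (mul_le_mul_of_nonneg_right hp2.2 hb.le) hp1 (norm_nonneg _) (by positivity)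
      _ = b := by ring
  have h2 : ‖y‖ - ‖(p.2 * b) • p.1‖ ≤ ‖y - (p.2 * b) • p.1‖ := norm_sub_norm_le _ _
  linarith

lemma th_far {n : ℕ} (T : (ContinuousMultilinearMap ℝ (fun _ : Fin n => Sp d) E) →L[ℝ]
      (ContinuousMultilinearMap ℝ (fun _ : Fin (n + 1) => Sp d) V)) {ψ : Sp d → ℝ}
    (hψ : ContDiff ℝ ∞ ψ) (h0 : ∀ y, 1 ≤ ‖y‖ → ψ y = 0) {a b : ℝ} (ha : 0 < a) (hb : 0 < b)
    {y : Sp d} (hy : a + b ≤ ‖y‖) : th T ψ a b y = 0 := by
  unfold th
  refine setIntegral_eq_zero_of_forall_eq_zero fun p hp => ?_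
  rw [qk_far T hψ h0 ha hb hy hp, smul_zero]

/-- the action of the kernel th -/
lemma th_int {n : ℕ} (T : (ContinuousMultilinearMap ℝ (fun _ : Fin n => Sp d) E) →L[ℝ]
      (ContinuousMultilinearMap ℝ (fun _ : Fin (n + 1) => Sp d) V)) {ψ : Sp d → ℝ}
    (hψ : ContDiff ℝ ∞ ψ) (h0 : ∀ y, 1 ≤ ‖y‖ → ψ y = 0) {a b : ℝ} (ha : 0 < a) (hb : 0 < b)
    {f : Sp d → E} (hf : Continuous f) (s : ℝ) (z : Sp d) :
    ∫ y, th T ψ a b y (f (z + s • y)) = a ^ d • ∫ p in PS d, (ψ p.1 * (1 - p.2) ^ n) •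
      ∫ ζ, qk T ψ ζ p.1 (f ((z + p.2 • (b * s) • p.1) + (a * s) • ζ)) := by
  set H : Sp d → (Sp d × ℝ) → V := fun y p => ((ψ p.1 * (1 - p.2) ^ n) •
      qk T ψ (a⁻¹ • (y - (p.2 * b) • p.1)) p.1) (f (z + s • y)) with hH
  have hHc : Continuous (Function.uncurry H) := by
    have h1 := th_integrand_cont T hψ a b
    have h2 : Continuous fun q : Sp d × (Sp d × ℝ) => f (z + s • q.1) := by fun_prop
    exact h1.clm_apply h2
  -- the inner integral
  have e1 : ∀ y, th T ψ a b y (f (z + s • y)) = ∫ p in PS d, H y p := by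
    intro y
    unfold th
    rw [ContinuousLinearMap.integral_apply]
    refine ContinuousOn.integrableOn_compact PS_compact ?_
    exact ((th_integrand_cont T hψ a b).comp (by fun_prop :
      Continuous fun p : Sp d × ℝ => (y, p))).continuousOn
  simp only [e1]
  -- swap
  have hint : Integrable (Function.uncurry H)
      ((volume : Measure (Sp d)).prod (volume.restrict (PS d))) := by
    have hr : ((volume : Measure (Sp d)).prod (volume.restrict (PS d))) =
        ((volume : Measure (Sp d)).prod (volume : Measure (Sp d × ℝ))).restrict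
          (univ ×ˢ PS d) := by
      rw [← Measure.prod_restrict, Measure.restrict_univ]
    rw [hr]
    have hcomp : IsCompact ((closedBall (0 : Sp d) (a + b)) ×ˢ PS d) :=
      (isCompact_closedBall _ _).prod PS_compact
    refine IntegrableOn.of_forall_sdiff_eq_zero
      (hHc.continuousOn.integrableOn_compact hcomp) (MeasurableSet.univ.prod PS_meas) ?_
    rintro ⟨y, p⟩ ⟨hq1, hq2⟩
    have hp : p ∈ PS d := hq1.2
    have hy : a + b ≤ ‖y‖ := by
      by_contra hlt
      push Not at hlt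
      refine hq2 ⟨?_, hp⟩
      rw [mem_closedBall, dist_zero_right]
      exact hlt.le
    show ((ψ p.1 * (1 - p.2) ^ n) • qk T ψ (a⁻¹ • (y - (p.2 * b) • p.1)) p.1) (f (z + s • y)) = 0
    rw [qk_far T hψ h0 ha hb hy hp]
    simp
  rw [integral_integral_swap hint, ← integral_smul]
  refine integral_congr_ae (Eventually.of_forall fun p => ?_)
  show ∫ y, ((ψ p.1 * (1 - p.2) ^ n) • qk T ψ (a⁻¹ • (y - (p.2 * b) • p.1)) p.1) (f (z + s • y)) =
    a ^ d • (ψ p.1 * (1 - p.2) ^ n) •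
      ∫ ζ, qk T ψ ζ p.1 (f ((z + p.2 • (b * s) • p.1) + (a * s) • ζ))
  simp only [ContinuousLinearMap.smul_apply]
  rw [integral_smul, smul_comm (a ^ d)]
  congr 1
  -- change of variables
  have h1 := integral_add_right_eq_self (μ := (volume : Measure (Sp d)))
    (fun y => qk T ψ (a⁻¹ • (y - (p.2 * b) • p.1)) p.1 (f (z + s • y))) ((p.2 * b) • p.1)
  rw [← h1]
  have h2 := Measure.integral_comp_smul (volume : Measure (Sp d))
    (fun y => qk T ψ (a⁻¹ • (y + (p.2 * b) • p.1 - (p.2 * b) • p.1)) p.1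
      (f (z + s • (y + (p.2 * b) • p.1)))) a
  rw [finrank_euclideanSpace, Fintype.card_fin, abs_of_pos (by positivity)] at h2
  have h3 : (fun ζ => qk T ψ (a⁻¹ • (a • ζ + (p.2 * b) • p.1 - (p.2 * b) • p.1)) p.1
      (f (z + s • (a • ζ + (p.2 * b) • p.1)))) =
      fun ζ => qk T ψ ζ p.1 (f ((z + p.2 • (b * s) • p.1) + (a * s) • ζ)) := by
    funext ζ
    rw [add_sub_cancel_right, smul_smul, inv_mul_cancel₀ ha.ne', one_smul]
    congr 2
    rw [smul_add, smul_smul, smul_smul, smul_smul, add_assoc, add_comm ((s * a) • ζ)]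
    congr 2
    · congr 1
      ring
    · congr 1
      ring
  rw [h3] at h2
  rw [h2, smul_smul, mul_inv_cancel₀ (by positivity), one_smul]

end Kernel

section Final

variable {V E : Type} [NormedAddCommGroup V] [InnerProductSpace ℝ V] [FiniteDimensional ℝ V]
  [NormedAddCommGroup E] [InnerProductSpace ℝ E] [FiniteDimensional ℝ E]

/-- the inner integral of th_int in terms of the derivative of the average -/
lemma qk_int {n : ℕ} (T : (ContinuousMultilinearMap ℝ (fun _ : Fin n => Sp d) E) →L[ℝ]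
      (ContinuousMultilinearMap ℝ (fun _ : Fin (n + 1) => Sp d) V)) {ψ : Sp d → ℝ}
    (hψ : ContDiff ℝ ∞ ψ) (h0 : ∀ y, 1 ≤ ‖y‖ → ψ y = 0) {f : Sp d → E} (hf : Continuous f)
    {σ : ℝ} (hσ : 0 < σ) (z η : Sp d) :
    T (iteratedFDeriv ℝ n (avk ψ σ f) z) (fun _ => η) =
      (-1 / σ) ^ n • ∫ ζ, qk T ψ ζ η (f (z + σ • ζ)) := by
  rw [stmtKD d E ψ hψ h0 f hf σ hσ n z, map_smul, ContinuousMultilinearMap.smul_apply]
  congr 1
  have hint := kernel_integrable
      (ContinuousMultilinearMap.smulRightL ℝ (fun _ : Fin n => Sp d) E)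
      (K := iteratedFDeriv ℝ n ψ) (hψ.continuous_iteratedFDeriv (by exact_mod_cast le_top))
      (iteratedFDeriv_vanish hψ h0 n) hf σ z
  have h1 := ((ContinuousMultilinearMap.apply ℝ (fun _ : Fin (n + 1) => Sp d) V
    (fun _ => η)).comp T).integral_comp_comm hint
  exact h1.symm

/-- the constant in front of th -/
def thc (d n : ℕ) (a b : ℝ) : ℝ := -((n ! : ℝ)⁻¹ * b ^ (n + 1) * (-1 / a) ^ n * (a ^ d)⁻¹)

lemma one_step {L : (Sp d →L[ℝ] V) →L[ℝ] E} {n : ℕ}
    {T : (ContinuousMultilinearMap ℝ (fun _ : Fin n => Sp d) E) →L[ℝ]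
      (ContinuousMultilinearMap ℝ (fun _ : Fin (n + 1) => Sp d) V)} (hT : NSProp L n T)
    {ψ : Sp d → ℝ} (hψ : VKer n ψ) {a b : ℝ} (ha : 0 < a) (hb : 0 < b) {u : Sp d → V}
    (hu : TF u) {s : ℝ} (hs : 0 < s) (z : Sp d) :
    avk ψ (a * s) u z - avk ψ (b * s) (avk ψ (a * s) u) z =
      s • ∫ y, (thc d n a b • th T ψ a b y) (fo L u (z + s • y)) := by
  have hψc := hψ.smooth.continuous
  have has : 0 < a * s := mul_pos ha hs
  have hv : ContDiff ℝ ∞ (avk ψ (a * s) u) := avk_contDiff hψ.smooth hψ.supp hu.smooth.continuous has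
  have hfc : Continuous (fo L u) := L.continuous.comp (hu.smooth.continuous_fderiv (by simp))
  have h1 := avk_taylor hψ hv (b * s) z
  have h2 : ∀ p : Sp d × ℝ, iteratedFDeriv ℝ (n + 1) (avk ψ (a * s) u) (z + p.2 • (b * s) • p.1)
      (fun _ => (b * s) • p.1) = ((b * s) ^ (n + 1) * (-1 / (a * s)) ^ n) •
        ∫ ζ, qk T ψ ζ p.1 (fo L u ((z + p.2 • (b * s) • p.1) + (a * s) • ζ)) := by
    intro p
    have h3 := (iteratedFDeriv ℝ (n + 1) (avk ψ (a * s) u)
      (z + p.2 • (b * s) • p.1)).map_smul_univ (fun _ => b * s) (fun _ => p.1)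
    rw [Finset.prod_const, Finset.card_univ, Fintype.card_fin] at h3
    rw [h3, hT _ hv, fo_avk L hψc hψ.supp hu, qk_int T hψ.smooth hψ.supp hfc has, smul_smul]
  simp only [h2] at h1
  have h4 := th_int T hψ.smooth hψ.supp ha hb hfc s z
  have h5 : ∫ y, (thc d n a b • th T ψ a b y) (fo L u (z + s • y)) =
      thc d n a b • ∫ y, th T ψ a b y (fo L u (z + s • y)) := by
    rw [← integral_smul]
    rfl
  rw [h5, h4]
  have h6 : avk ψ (a * s) u z - avk ψ (b * s) (avk ψ (a * s) u) z =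
      -(avk ψ (b * s) (avk ψ (a * s) u) z - avk ψ (a * s) u z) := by abel
  rw [h6, h1]
  have h7 : ∫ p in PS d, (ψ p.1 * (1 - p.2) ^ n) • ((b * s) ^ (n + 1) * (-1 / (a * s)) ^ n) •
        ∫ ζ, qk T ψ ζ p.1 (fo L u ((z + p.2 • (b * s) • p.1) + (a * s) • ζ)) =
      ((b * s) ^ (n + 1) * (-1 / (a * s)) ^ n) • ∫ p in PS d, (ψ p.1 * (1 - p.2) ^ n) •
        ∫ ζ, qk T ψ ζ p.1 (fo L u ((z + p.2 • (b * s) • p.1) + (a * s) • ζ)) := by
    rw [← integral_smul]
    refine integral_congr_ae (Eventually.of_forall fun p => ?_)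
    exact smul_comm _ _ _
  rw [h7, ← neg_smul, smul_smul, smul_smul, smul_smul]
  congr 1
  unfold thc
  have e1 : (-1 / (a * s)) ^ n = (-1 / a) ^ n * (s ^ n)⁻¹ := by
    rw [← div_div, div_pow, div_eq_mul_inv]
  rw [e1, mul_pow, pow_succ s n]
  field_simp

/-- MODULE RKG -/
theorem stmtRKG : StmtRKG := by
  intro d V E _ _ _ _ _ _ L n T hn hT ψ hψ
  have hψc := hψ.smooth.continuous
  set Ψ : Sp d → (E →L[ℝ] V) := fun y =>
    thc d n 1 8 • th T ψ 1 8 y - thc d n 8 1 • th T ψ 8 1 y with hΨ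
  have hc1 : Continuous fun y => thc d n 1 8 • th T ψ 1 8 y :=  by
    have := th_cont T hψ.smooth 1 8
    fun_prop
  have hc2 : Continuous fun y => thc d n 8 1 • th T ψ 8 1 y :=  by
    have := th_cont T hψ.smooth 8 1
    fun_prop
  have hΨc : Continuous Ψ := hc1.sub hc2
  have hf1 : ∀ y : Sp d, 16 ≤ ‖y‖ → thc d n 1 8 • th T ψ 1 8 y = 0 := by
    intro y hy
    rw [th_far T hψ.smooth hψ.supp one_pos (by norm_num) (by linarith), smul_zero]
  have hf2 : ∀ y : Sp d, 16 ≤ ‖y‖ → thc d n 8 1 • th T ψ 8 1 y = 0 := by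
    intro y hy
    rw [th_far T hψ.smooth hψ.supp (by norm_num) one_pos (by linarith), smul_zero]
  have hcsg : ∀ (G : Sp d → E →L[ℝ] V), (∀ y : Sp d, 16 ≤ ‖y‖ → G y = 0) →
      HasCompactSupport G := by
    intro G hG
    refine HasCompactSupport.intro (isCompact_closedBall (0 : Sp d) 16) fun x hx => hG x ?_
    rw [mem_closedBall, dist_zero_right, not_le] at hx
    exact hx.le
  have hint : ∀ (G : Sp d → E →L[ℝ] V), Continuous G → (∀ y : Sp d, 16 ≤ ‖y‖ → G y = 0) →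
      ∀ (f : Sp d → E), Continuous f → ∀ (s : ℝ) (z : Sp d),
      Integrable fun y => G y (f (z + s • y)) := by
    intro G hG hG0 f hf s z
    refine Continuous.integrable_of_hasCompactSupport ?_ ?_
    · exact hG.clm_apply (hf.comp (by fun_prop))
    · refine HasCompactSupport.intro (isCompact_closedBall (0 : Sp d) 16) fun x hx => ?_
      rw [mem_closedBall, dist_zero_right, not_le] at hx
      rw [hG0 x hx.le]
      rfl
  refine ⟨Ψ, ⟨hψc, hψ.supp, hψ.int, hΨc, ?_, ?_, ?_⟩⟩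
  · intro y hy
    rw [hΨ]
    simp only [hf1 y hy, hf2 y hy, sub_zero]
  · -- the integral vanishes
    have hi1 : Integrable (fun y => thc d n 1 8 • th T ψ 1 8 y) :=
      hc1.integrable_of_hasCompactSupport (hcsg _ hf1)
    have hi2 : Integrable (fun y => thc d n 8 1 • th T ψ 8 1 y) :=
      hc2.integrable_of_hasCompactSupport (hcsg _ hf2)
    have key : ∀ a b : ℝ, 0 < a → 0 < b → Integrable (th T ψ a b) →
        ∫ y, th T ψ a b y = 0 := by
      intro a b ha hb hi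
      ext e
      rw [ContinuousLinearMap.integral_apply hi]
      have h1 := th_int T hψ.smooth hψ.supp ha hb (f := fun _ : Sp d => e) continuous_const 1 0
      rw [h1]
      have h2 : ∀ η : Sp d, ∫ ζ : Sp d, qk T ψ ζ η e = 0 := by
        intro η
        have h3 := qk_int T hψ.smooth hψ.supp (f := fun _ : Sp d => e) continuous_const
          one_pos 0 η
        have h4 : avk ψ 1 (fun _ : Sp d => e) = fun _ => e := by
          funext z
          unfold avk
          rw [integral_smul_const, hψ.int, one_smul]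
        rw [h4, iteratedFDeriv_const_of_ne (by omega)] at h3
        simp only [Pi.zero_apply, map_zero, ContinuousMultilinearMap.zero_apply, div_one] at h3
        have h5 : ((-1 : ℝ)) ^ n ≠ 0 := pow_ne_zero _ (by norm_num)
        exact (smul_eq_zero.mp h3.symm).resolve_left h5
      simp only [h2, smul_zero, integral_zero]
      rfl
    rw [hΨ]
    rw [integral_sub hi1 hi2, integral_smul, integral_smul, key 1 8 one_pos (by norm_num), key 8 1
      (by norm_num) one_pos]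
    · simp
    · refine (th_cont T hψ.smooth 8 1).integrable_of_hasCompactSupport (hcsg _ fun y hy => ?_)
      exact th_far T hψ.smooth hψ.supp (by norm_num) one_pos (by linarith)
    · refine (th_cont T hψ.smooth 1 8).integrable_of_hasCompactSupport (hcsg _ fun y hy => ?_)
      exact th_far T hψ.smooth hψ.supp one_pos (by norm_num) (by linarith)
  · intro u hu s hs z
    have hfc : Continuous (fo L u) := L.continuous.comp (hu.smooth.continuous_fderiv (by simp))
    have h1 := one_step hT hψ one_pos (by norm_num : (0 : ℝ) < 8) hu hs z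
    have h2 := one_step hT hψ (by norm_num : (0 : ℝ) < 8) one_pos hu hs z
    rw [one_mul] at h1 h2
    have h3 := avk_comm hψc hψ.supp hu.smooth.continuous (8 * s) s z
    have h4 : avk ψ s u z - avk ψ (8 * s) u z =
        (avk ψ s u z - avk ψ (8 * s) (avk ψ s u) z) -
        (avk ψ (8 * s) u z - avk ψ s (avk ψ (8 * s) u) z) := by
      rw [h3]
      abel
    rw [h4, h1, h2, ← smul_sub, ← integral_sub]
    · congr 1
    · exact hint _ hc1 hf1 _ hfc s z
    · exact hint _ hc2 hf2 _ hfc s z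

end Final

end

end TrI


end

section

set_option autoImplicit false
set_option linter.unusedSectionVars false

/-!
# MODULE MA: mass against test functions (4.6)
-/

open MeasureTheory Metric Set TrI Filter
open scoped InnerProductSpace ContDiff Topology

namespace TG

noncomputable section

namespace MA

variable {d : ℕ} {E : Type} [NormedAddCommGroup E] [InnerProductSpace ℝ E] [FiniteDimensional ℝ E]

variable {b : Sp d → ℝ}

/-- first part of (4.6) -/
lemma part1 (hb : AK b) (hev : ∀ x, b (-x) = b x) (hρ : ∀ x, 1 / 2 ≤ ‖x‖ → b x = 0)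
    {ε : ℝ} (hε : 0 < ε) (hε1 : ε ≤ 1) {f : Sp d → E} (hf : Continuous f)
    (hc : HasCompactSupport f) {n : ℕ} {e : E} (he : ‖e‖ = 1) {x : Sp d} {R : ℝ}
    {S : Set (Sp d)} (hS : MeasurableSet S) {ζ : Sp d → ℝ} (hζ : ContDiff ℝ 2 ζ)
    (hζ1 : ∀ y, |ζ y| ≤ 1) (hζ2 : ∀ y, ‖iteratedFDeriv ℝ 2 ζ y‖ ≤ 1)
    (hζ0 : ∀ y, R - 2 ≤ ‖y - x‖ → ζ y = 0) (hζS : ∀ y z, ζ y ≠ 0 → ‖z - y‖ ≤ 1 → z ∈ S) :
    |∫ y, ⟪f y, e⟫_ℝ * ζ y| ≤ 8 * ((∫ y in S, ‖fl b ε ((1 / 2) ^ n) f (n - 1) y‖) +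
      DD b ε R ((1 / 2) ^ n) f n x e) := by
  set s0 : ℝ := (1 / 2) ^ n with hs0d
  have hs0 : 0 < s0 := by positivity
  set N : ℕ := n - 1 with hNd
  have hNn : N ≤ n := Nat.sub_le n 1
  have hlN : lev s0 N ≤ 1 := by
    have := lev_le_lev hs0 hNn
    rwa [hs0d, lev_unit] at this
  set U : Set (Sp d) := {y | ζ y ≠ 0} with hUd
  have hUx : ∀ y ∈ U, ‖y - x‖ < R - 2 := by
    intro y hy
    by_contra h
    push Not at h
    exact hy (hζ0 y h)
  set A : ℝ := ∫ y in S, ‖fl b ε s0 f N y‖ with hA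
  have hA0 : 0 ≤ A := integral_nonneg fun _ => norm_nonneg _
  have hNi : Integrable (fun y => ‖fl b ε s0 f N y‖) :=
    (fl_cont hb ε s0 hf N).norm.integrable_of_hasCompactSupport (fl_cs hb ε s0 hc N).norm
  set D : ℕ → ℝ := fun j => ∫ y in ball x R, dfn (fl b ε s0 f j) e y with hD
  have hD0 : ∀ j, 0 ≤ D j := fun j => integral_nonneg fun _ => dfn_nonneg he _ _
  rw [telescope hb hev ε s0 hf hc e hζ.continuous N]
  -- the main term
  have hmain : |∫ y, ⟪fl b ε s0 f N y, e⟫_ℝ * ζ y| ≤ A := by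
    rw [← Real.norm_eq_abs, hA, ← integral_indicator hS]
    refine (norm_integral_le_integral_norm _).trans ?_
    refine integral_mono_of_nonneg (Eventually.of_forall fun y => norm_nonneg _)
      (hNi.indicator hS) (Eventually.of_forall fun y => ?_)
    change ‖⟪fl b ε s0 f N y, e⟫_ℝ * ζ y‖ ≤ S.indicator (fun y => ‖fl b ε s0 f N y‖) y
    rw [norm_mul, Real.norm_eq_abs, Real.norm_eq_abs]
    by_cases hy : ζ y = 0
    · rw [hy, abs_zero, mul_zero]
      exact Set.indicator_nonneg (fun _ _ => norm_nonneg _) y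
    · rw [Set.indicator_of_mem (hζS y y hy (by simp))]
      calc |⟪fl b ε s0 f N y, e⟫_ℝ| * |ζ y| ≤ ‖fl b ε s0 f N y‖ * 1 :=
            mul_le_mul (abs_inner_le he _) (hζ1 y) (abs_nonneg _) (norm_nonneg _)
        _ = _ := mul_one _
  -- the errors
  have herr : ∀ l ∈ Finset.range N, |∫ y, ⟪fl b ε s0 f l y, e⟫_ℝ *
        (ζ y - avk b (ε * lev s0 (l + 1)) ζ y)| ≤
      4 * lev s0 l ^ 2 * (A + ∑ j ∈ Finset.Ico l N, D j) := by
    intro l hl
    rw [Finset.mem_range] at hl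
    have hl0 := lev_pos hs0 l
    have h1 := err_le hb hev hρ (fl_cont hb ε s0 hf l) (fl_cs hb ε s0 hc l) he
      (s := ε * lev s0 (l + 1)) (t := lev s0 l) (mul_pos hε (lev_pos hs0 _))
      (by rw [lev_succ]; nlinarith) hζ hζ2 (U := U) (fun y hy => hy)
    have h2 := transfer hb hev hρ hε hε1 hs0 hf hc he hUx hlN (N - l) l (lev s0 l) (by omega) hl0
      (by linarith)
    have h3 : ∫ y in thickening (lev s0 l + (lev s0 N - lev s0 l)) U, ‖fl b ε s0 f N y‖ ≤ A := by
      refine setIntegral_mono_set hNi.integrableOn (Eventually.of_forall fun _ => norm_nonneg _)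
        (Eventually.of_forall ?_)
      intro z hz
      change z ∈ thickening _ U at hz
      change z ∈ S
      rw [mem_thickening_iff] at hz
      obtain ⟨y, hy, hzy⟩ := hz
      refine hζS y z hy ?_
      rw [← dist_eq_norm]
      linarith
    refine h1.trans (mul_le_mul_of_nonneg_left ?_ (by positivity))
    linarith
  have hsum := sum_aux N (fun l => lev s0 l ^ 2) D (fun l => by positivity)
    (fun l => by rw [lev_succ]; ring) hD0 hA0 (by
      have := lev_pos hs0 N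
      nlinarith)
  have hDD : ∑ j ∈ Finset.range N, lev s0 j ^ 2 * D j ≤ DD b ε R s0 f n x e := by
    refine le_trans (le_of_eq ?_) (DD_ge b ε R f x he (by omega : N ≤ n + 1))
    refine Finset.sum_congr rfl fun j hj => ?_
    rw [Finset.mem_range] at hj
    rw [hs0d, lev_sq n j (by omega)]
  have habs : |∑ l ∈ Finset.range N, ∫ y, ⟪fl b ε s0 f l y, e⟫_ℝ *
        (ζ y - avk b (ε * lev s0 (l + 1)) ζ y)| ≤
      ∑ l ∈ Finset.range N, 4 * lev s0 l ^ 2 * (A + ∑ j ∈ Finset.Ico l N, D j) :=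
    (Finset.abs_sum_le_sum_abs _ _).trans (Finset.sum_le_sum herr)
  refine (abs_add_le _ _).trans ?_
  linarith

/-! ## second part -/

/-- the iterated averages of the test function -/
def dn (b : Sp d → ℝ) (ε s0 : ℝ) : ℕ → (Sp d → ℝ) → Sp d → ℝ
  | 0, φ => φ
  | N + 1, φ => dn b ε s0 N (avk b (ε * lev s0 (N + 1)) φ)

lemma dn_cs (hb : AK b) (ε s0 : ℝ) (N : ℕ) {φ : Sp d → ℝ} (hφ : HasCompactSupport φ) :
    HasCompactSupport (dn b ε s0 N φ) := by
  induction N generalizing φ with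
  | zero => exact hφ
  | succ N ih => exact ih (hb.avk_cs hφ _)

lemma dn_contDiff (hb : AK b) (ε s0 : ℝ) (N : ℕ) {φ : Sp d → ℝ} (hφ : ContDiff ℝ 2 φ) :
    ContDiff ℝ 2 (dn b ε s0 N φ) := by
  induction N generalizing φ with
  | zero => exact hφ
  | succ N ih => exact ih (hb.avk_contDiff (n := 2) hφ _)

lemma dn_deriv (hb : AK b) (ε s0 : ℝ) (N : ℕ) {φ : Sp d → ℝ} (hφ : ContDiff ℝ 2 φ) {K : ℝ}
    (hK : ∀ y, ‖iteratedFDeriv ℝ 2 φ y‖ ≤ K) (y : Sp d) :
    ‖iteratedFDeriv ℝ 2 (dn b ε s0 N φ) y‖ ≤ K := by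
  induction N generalizing φ with
  | zero => exact hK y
  | succ N ih =>
    exact ih (hb.avk_contDiff (n := 2) hφ _)
      (hb.norm_iteratedFDeriv_avk_le (n := 2) hφ _ le_rfl hK)

lemma dn_nonneg (hb : AK b) (ε s0 : ℝ) (N : ℕ) {φ : Sp d → ℝ} (hφ : ∀ y, 0 ≤ φ y) (y : Sp d) :
    0 ≤ dn b ε s0 N φ y := by
  induction N generalizing φ with
  | zero => exact hφ y
  | succ N ih => exact ih (hb.avk_nonneg hφ _)

lemma dn_le (hb : AK b) (ε s0 : ℝ) (N : ℕ) {φ : Sp d → ℝ} (hc : Continuous φ)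
    (hφ : ∀ y, φ y ≤ 1) (y : Sp d) : dn b ε s0 N φ y ≤ 1 := by
  induction N generalizing φ with
  | zero => exact hφ y
  | succ N ih => exact ih (hb.avk_cont hc _) (hb.avk_le_of_le (LB.of_cont hc) hφ _)

lemma dn_supp (hρ : ∀ x, 1 / 2 ≤ ‖x‖ → b x = 0) {ε s0 : ℝ} (hε : 0 < ε) (hε1 : ε ≤ 1)
    (hs0 : 0 < s0) (N : ℕ) {φ : Sp d → ℝ} {y : Sp d} (hy : dn b ε s0 N φ y ≠ 0) :
    ∃ z, φ z ≠ 0 ∧ ‖z - y‖ ≤ lev s0 N := by
  induction N generalizing φ with
  | zero => exact ⟨y, hy, by rw [sub_self, norm_zero]; exact (lev_pos hs0 0).le⟩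
  | succ N ih =>
    obtain ⟨z, hz, hzy⟩ := ih hy
    obtain ⟨w, hw, hwz⟩ := AK.exists_of_avk_ne (ψ := b) hρ (mul_pos hε (lev_pos hs0 (N + 1))) hz
    refine ⟨w, hw, ?_⟩
    have h1 : ‖w - y‖ ≤ ‖w - z‖ + ‖z - y‖ := by
      rw [← sub_add_sub_cancel w z y]
      exact norm_add_le _ _
    have h2 := lev_succ s0 N
    have h3 := lev_pos hs0 N
    rw [h2] at hwz ⊢
    nlinarith

lemma dn_adj (hb : AK b) (hev : ∀ x, b (-x) = b x) (ε s0 : ℝ) {f : Sp d → E}
    (hf : Continuous f) (hc : HasCompactSupport f) (e : E) (N : ℕ) {φ : Sp d → ℝ}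
    (hφ : Continuous φ) :
    ∫ y, φ y * ⟪fl b ε s0 f N y, e⟫_ℝ = ∫ y, dn b ε s0 N φ y * ⟪f y, e⟫_ℝ := by
  induction N generalizing φ with
  | zero => rfl
  | succ N ih =>
    have hgc : Continuous fun y => ⟪fl b ε s0 f N y, e⟫_ℝ :=
      (fl_cont hb ε s0 hf N).inner continuous_const
    have hgs : HasCompactSupport fun y => ⟪fl b ε s0 f N y, e⟫_ℝ :=
      inner_cs (fl_cs hb ε s0 hc N) e
    have h1 := hb.avk_adj' hev (LB.of_cont hφ) (LB.of_cont hgc) hgs (ε * lev s0 (N + 1))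
    have h2 : ∀ y, avk b (ε * lev s0 (N + 1)) (fun y => ⟪fl b ε s0 f N y, e⟫_ℝ) y =
        ⟪fl b ε s0 f (N + 1) y, e⟫_ℝ := fun y =>
      hb.avk_inner (fl_cont hb ε s0 hf N) e _ y
    simp only [h2] at h1
    rw [h1]
    exact ih (hb.avk_cont hφ _)

/-- smooth cut-off of a set -/
lemma exists_cut (d : ℕ) : ∃ K : ℝ, 0 ≤ K ∧ ∀ S : Set (Sp d), S.Nonempty →
    ∃ φ : Sp d → ℝ, ContDiff ℝ 2 φ ∧ (∀ y, ‖iteratedFDeriv ℝ 2 φ y‖ ≤ K) ∧ (∀ y, 0 ≤ φ y) ∧
      (∀ y, φ y ≤ 1) ∧ (∀ y ∈ S, φ y = 1) ∧ ∀ y, φ y ≠ 0 → ∃ z ∈ S, ‖z - y‖ < 1 := by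
  have hak : AK (bk d) := ⟨bk_cont, bk_nonneg, fun _ h => bk_zero h, bk_int⟩
  have hsm : ContDiff ℝ 2 (bk d) := by exact_mod_cast contDiff_infty.mp bk_contDiff 2
  have hci : Continuous (iteratedFDeriv ℝ 2 (bk d)) :=
    hsm.continuous_iteratedFDeriv le_rfl
  have hsi : HasCompactSupport (iteratedFDeriv ℝ 2 (bk d)) :=
    hak.cs.iteratedFDeriv (𝕜 := ℝ) 2
  have hni : Integrable fun y => ‖iteratedFDeriv ℝ 2 (bk d) y‖ :=
    hci.norm.integrable_of_hasCompactSupport hsi.norm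
  refine ⟨16 * ∫ y, ‖iteratedFDeriv ℝ 2 (bk d) y‖,
    mul_nonneg (by norm_num) (integral_nonneg fun _ => norm_nonneg _), ?_⟩
  intro S hS
  set g : Sp d → ℝ := fun z => max 0 (min 1 (2 - 4 * infDist z S)) with hg
  have hgc : Continuous g := by
    have := continuous_infDist_pt (α := Sp d) S
    exact continuous_const.max (continuous_const.min (continuous_const.sub
      (continuous_const.mul this)))
  have hg0 : ∀ z, 0 ≤ g z := fun z => le_max_left _ _
  have hg1 : ∀ z, g z ≤ 1 := fun z => max_le zero_le_one (min_le_left _ _)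
  have h4 : (0 : ℝ) < 1 / 4 := by norm_num
  refine ⟨avk (bk d) (1 / 4) g, ?_, ?_, ?_, ?_, ?_, ?_⟩
  · exact_mod_cast contDiff_infty.mp
      (TrI.avk_contDiff bk_contDiff (fun _ h => bk_zero h) hgc h4) 2
  · intro y
    rw [stmtKD d ℝ (bk d) bk_contDiff (fun _ h => bk_zero h) g hgc (1 / 4) h4 2 y, norm_smul]
    have e1 : ‖(-1 / (1 / 4 : ℝ)) ^ 2‖ = 16 := by norm_num
    rw [e1]
    refine mul_le_mul_of_nonneg_left ?_ (by norm_num)
    refine norm_integral_le_of_norm_le hni (Eventually.of_forall fun z => ?_)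
    rw [ContinuousMultilinearMap.norm_smulRight, Real.norm_of_nonneg (hg0 _)]
    exact mul_le_of_le_one_right (norm_nonneg _) (hg1 _)
  · exact hak.avk_nonneg hg0 _
  · exact hak.avk_le_of_le (LB.of_cont hgc) hg1 _
  · intro y hy
    have h1 : avk (bk d) (1 / 4) g y = avk (bk d) (1 / 4) (fun _ => (1 : ℝ)) y := by
      refine hak.avk_congr _ _ fun z hz => ?_
      have h2 : infDist z S ≤ 1 / 4 := by
        refine (infDist_le_dist_of_mem hy).trans ?_
        rw [dist_eq_norm]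
        rwa [abs_of_pos h4] at hz
      have h3 : min 1 (2 - 4 * infDist z S) = 1 := min_eq_left (by linarith)
      simp only [hg, h3]
      exact max_eq_right zero_le_one
    rw [h1, hak.avk_const]
  · intro y hy
    obtain ⟨z, hz, hzy⟩ := AK.exists_of_avk_ne (ψ := bk d) (ρ := 1) (fun _ h => bk_zero h) h4 hy
    have h2 : infDist z S < 1 / 2 := by
      by_contra h
      push Not at h
      apply hz
      have h3 : min 1 (2 - 4 * infDist z S) ≤ 0 := (min_le_right _ _).trans (by linarith)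
      exact max_eq_left h3
    obtain ⟨w, hw, hzw⟩ := (infDist_lt_iff hS).mp h2
    refine ⟨w, hw, ?_⟩
    have h5 : ‖w - y‖ ≤ ‖w - z‖ + ‖z - y‖ := by
      rw [← sub_add_sub_cancel w z y]
      exact norm_add_le _ _
    rw [dist_comm, dist_eq_norm] at hzw
    linarith

/-- second part of (4.6) -/
lemma part2 (hb : AK b) (hev : ∀ x, b (-x) = b x) (hρ : ∀ x, 1 / 2 ≤ ‖x‖ → b x = 0)
    {ε : ℝ} (hε : 0 < ε) (hε1 : ε ≤ 1) {K CZ : ℝ} (hK0 : 0 ≤ K) (hCZ : 0 < CZ)
    (hK : ∀ S : Set (Sp d), S.Nonempty →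
      ∃ φ : Sp d → ℝ, ContDiff ℝ 2 φ ∧ (∀ y, ‖iteratedFDeriv ℝ 2 φ y‖ ≤ K) ∧ (∀ y, 0 ≤ φ y) ∧
      (∀ y, φ y ≤ 1) ∧ (∀ y ∈ S, φ y = 1) ∧ ∀ y, φ y ≠ 0 → ∃ z ∈ S, ‖z - y‖ < 1)
    {f : Sp d → E} (hf : Continuous f)
    (hc : HasCompactSupport f) {n : ℕ} {e : E} (he : ‖e‖ = 1) {x : Sp d} {R : ℝ}
    (hZ : ∀ (H : Sp d → ℝ), ContDiff ℝ 2 H → (∀ y, 0 ≤ H y) → (∀ y, H y ≤ 1) →
      (∀ y, ‖iteratedFDeriv ℝ 2 H y‖ ≤ 1) → (∀ y, R - 2 ≤ ‖y - x‖ → H y = 0) →
      -CZ * DD b ε R ((1 / 2) ^ n) f n x e ≤ ∫ y, ⟪f y, e⟫_ℝ * H y)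
    {S : Set (Sp d)} (hS : MeasurableSet S) {H : Sp d → ℝ} {h0 : ℝ} (hh0 : 0 < h0) (hh1 : h0 ≤ 1)
    (hH : ContDiff ℝ 2 H) (hH0 : ∀ y, 0 ≤ H y) (hH1 : ∀ y, H y ≤ 1)
    (hH2 : ∀ y, ‖iteratedFDeriv ℝ 2 H y‖ ≤ 1) (hHs : ∀ y, R - 2 ≤ ‖y - x‖ → H y = 0)
    (hHS : ∀ y z, y ∈ S → ‖z - y‖ ≤ 2 → h0 ≤ H z) :
    (∫ y in S, ‖fl b ε ((1 / 2) ^ n) f (n - 1) y‖) ≤
      1 / h0 * (∫ y, ⟪f y, e⟫_ℝ * H y) +
        ((1 + K) * CZ + 4) / h0 * DD b ε R ((1 / 2) ^ n) f n x e := by
  set s0 : ℝ := (1 / 2) ^ n with hs0d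
  have hs0 : 0 < s0 := by positivity
  set N : ℕ := n - 1 with hNd
  have hNn : N ≤ n := Nat.sub_le n 1
  have hlN : lev s0 N ≤ 1 := by
    have := lev_le_lev hs0 hNn
    rwa [hs0d, lev_unit] at this
  set m : Sp d → ℝ := fun y => ⟪f y, e⟫_ℝ with hm
  have hmc : Continuous m := hf.inner continuous_const
  have hms : HasCompactSupport m := inner_cs hc e
  have hDD0 : 0 ≤ DD b ε R s0 f n x e := by
    have := DD_ge b ε R (n := n) f x he (Nat.zero_le (n + 1))
    rwa [Finset.range_zero, Finset.sum_empty] at this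
  -- the empty case
  rcases S.eq_empty_or_nonempty with hSe | hSn
  · rw [hSe, Measure.restrict_empty, integral_zero_measure]
    have h1 := hZ H hH hH0 hH1 hH2 hHs
    have h2 : 0 < 1 / h0 := by positivity
    have h3 : 1 / h0 * (-CZ * DD b ε R s0 f n x e) ≤ 1 / h0 * ∫ y, m y * H y :=
      mul_le_mul_of_nonneg_left h1 h2.le
    have h4 : 0 ≤ (K * CZ + 4) / h0 * DD b ε R s0 f n x e :=
      mul_nonneg (div_nonneg (by positivity) hh0.le) hDD0
    have h5 : ((1 + K) * CZ + 4) / h0 * DD b ε R s0 f n x e =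
        1 / h0 * (CZ * DD b ε R s0 f n x e) + (K * CZ + 4) / h0 * DD b ε R s0 f n x e := by
      field_simp
      ring
    rw [h5]
    linarith
  obtain ⟨φ, hφ, hφ2, hφ0, hφ1, hφS, hφs⟩ := hK S hSn
  have hSx : ∀ y ∈ S, ∀ z, ‖z - y‖ ≤ 2 → ‖z - x‖ < R - 2 := by
    intro y hy z hz
    by_contra h
    push Not at h
    have h1 := hHS y z hy hz
    rw [hHs z h] at h1
    linarith
  have hφR : ∀ y, φ y ≠ 0 → y ∈ ball x R := by
    intro y hy
    obtain ⟨z, hz, hzy⟩ := hφs y hy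
    have h1 := hSx z hz y (by rw [← norm_neg, neg_sub]; linarith)
    rw [mem_ball, dist_eq_norm]
    linarith
  -- integrability
  have hNc := fl_cont hb ε s0 hf N
  have hNs := fl_cs hb ε s0 hc N
  have hNi : Integrable (fun y => ‖fl b ε s0 f N y‖) :=
    hNc.norm.integrable_of_hasCompactSupport hNs.norm
  have hdi : Integrable (dfn (fl b ε s0 f N) e) :=
    (dfn_cont hNc e).integrable_of_hasCompactSupport (dfn_cs hNs e)
  have hφn : Integrable (fun y => φ y * ‖fl b ε s0 f N y‖) :=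
    (hφ.continuous.mul hNc.norm).integrable_of_hasCompactSupport hNs.norm.mul_left
  have hφm : Integrable (fun y => φ y * ⟪fl b ε s0 f N y, e⟫_ℝ) :=
    (hφ.continuous.mul (hNc.inner continuous_const)).integrable_of_hasCompactSupport
      (inner_cs hNs e).mul_left
  have hφd : Integrable (fun y => φ y * dfn (fl b ε s0 f N) e y) :=
    (hφ.continuous.mul (dfn_cont hNc e)).integrable_of_hasCompactSupport
      (dfn_cs hNs e).mul_left
  -- step 1
  have s1 : (∫ y in S, ‖fl b ε s0 f N y‖) ≤ ∫ y, φ y * ‖fl b ε s0 f N y‖ := by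
    rw [← integral_indicator hS]
    refine integral_mono (hNi.indicator hS) hφn fun y => ?_
    change S.indicator (fun y => ‖fl b ε s0 f N y‖) y ≤ φ y * ‖fl b ε s0 f N y‖
    by_cases hy : y ∈ S
    · rw [Set.indicator_of_mem hy, hφS y hy, one_mul]
    · rw [Set.indicator_of_notMem hy]
      exact mul_nonneg (hφ0 y) (norm_nonneg _)
  have s2 : ∫ y, φ y * ‖fl b ε s0 f N y‖ =
      (∫ y, φ y * ⟪fl b ε s0 f N y, e⟫_ℝ) + ∫ y, φ y * dfn (fl b ε s0 f N) e y := by
    rw [← integral_add hφm hφd]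
    congr 1
    ext y
    unfold dfn
    ring
  have s3 : ∫ y, φ y * dfn (fl b ε s0 f N) e y ≤
      ∫ y in ball x R, dfn (fl b ε s0 f N) e y := by
    rw [← integral_indicator measurableSet_ball]
    refine integral_mono hφd (hdi.indicator measurableSet_ball) fun y => ?_
    change φ y * dfn (fl b ε s0 f N) e y ≤ (ball x R).indicator (dfn (fl b ε s0 f N) e) y
    by_cases hy : φ y = 0
    · rw [hy, zero_mul]
      exact Set.indicator_nonneg (fun _ _ => dfn_nonneg he _ _) y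
    · rw [Set.indicator_of_mem (hφR y hy)]
      exact mul_le_of_le_one_left (dfn_nonneg he _ _) (hφ1 y)
  have s4 : ∫ y in ball x R, dfn (fl b ε s0 f N) e y ≤ 4 * DD b ε R s0 f n x e := by
    have h1 := DD_ge b ε R f x he (by omega : N + 1 ≤ n + 1)
    rw [Finset.sum_range_succ] at h1
    have h2 : 0 ≤ ∑ l ∈ Finset.range N, (1 / 4 : ℝ) ^ (n - l) *
        (∫ y in ball x R, dfn (fl b ε s0 f l) e y) :=
      Finset.sum_nonneg fun l _ =>
        mul_nonneg (by positivity) (integral_nonneg fun _ => dfn_nonneg he _ _)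
    have h3 : 0 ≤ ∫ y in ball x R, dfn (fl b ε s0 f N) e y :=
      integral_nonneg fun _ => dfn_nonneg he _ _
    have h4 : (1 / 4 : ℝ) ≤ (1 / 4) ^ (n - N) := by
      have h5 : n - N ≤ 1 := by omega
      calc (1 / 4 : ℝ) = (1 / 4) ^ 1 := (pow_one _).symm
        _ ≤ (1 / 4) ^ (n - N) := pow_le_pow_of_le_one (by norm_num) (by norm_num) h5
    nlinarith only [h1, h2, h3, h4]
  -- step 2: the iterated average
  set ψ : Sp d → ℝ := dn b ε s0 N φ with hψ
  have s5 : ∫ y, φ y * ⟪fl b ε s0 f N y, e⟫_ℝ = ∫ y, m y * ψ y := by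
    rw [dn_adj hb hev ε s0 hf hc e N hφ.continuous]
    congr 1
    ext y
    rw [mul_comm]
  have hψc : ContDiff ℝ 2 ψ := dn_contDiff hb ε s0 N hφ
  have hψ2 : ∀ y, ‖iteratedFDeriv ℝ 2 ψ y‖ ≤ K := dn_deriv hb ε s0 N hφ hφ2
  have hψ0 : ∀ y, 0 ≤ ψ y := dn_nonneg hb ε s0 N hφ0
  have hψ1 : ∀ y, ψ y ≤ 1 := dn_le hb ε s0 N hφ.continuous hφ1
  have hψH : ∀ y, ψ y ≤ H y / h0 := by
    intro y
    by_cases hy : ψ y = 0
    · rw [hy]
      exact div_nonneg (hH0 y) hh0.le
    · obtain ⟨z, hz, hzy⟩ := dn_supp hρ hε hε1 hs0 N hy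
      obtain ⟨w, hw, hwz⟩ := hφs z hz
      have h1 : ‖w - y‖ ≤ ‖w - z‖ + ‖z - y‖ := by
        rw [← sub_add_sub_cancel w z y]
        exact norm_add_le _ _
      have h2 := hHS w y hw (by rw [← norm_neg, neg_sub]; linarith)
      refine (hψ1 y).trans ?_
      rwa [le_div_iff₀ hh0, one_mul]
  -- step 3: Lemma Z
  set κ : ℝ := h0 / (1 + K) with hκ
  have hκ0 : 0 < κ := by positivity
  have h1K : 0 < 1 + K := by linarith
  have hZ' := hZ (fun y => κ * (H y / h0 - ψ y)) ?_ ?_ ?_ ?_ ?_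
  · have e1 : ∫ y, m y * (κ * (H y / h0 - ψ y)) =
        κ * (1 / h0 * (∫ y, m y * H y) - ∫ y, m y * ψ y) := by
      have i1 : Integrable fun y => 1 / h0 * (m y * H y) :=
        ((hmc.mul hH.continuous).integrable_of_hasCompactSupport hms.mul_right).const_mul _
      have i2 : Integrable fun y => m y * ψ y :=
        (hmc.mul hψc.continuous).integrable_of_hasCompactSupport hms.mul_right
      rw [← integral_const_mul, ← integral_sub i1 i2, ← integral_const_mul]
      congr 1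
      ext y
      ring
    rw [e1] at hZ'
    have h2 : ∫ y, m y * ψ y ≤ 1 / h0 * (∫ y, m y * H y) +
        (1 + K) * CZ / h0 * DD b ε R s0 f n x e := by
      have h3 : -(1 / κ * (CZ * DD b ε R s0 f n x e)) ≤
          1 / h0 * (∫ y, m y * H y) - ∫ y, m y * ψ y := by
        have h4 := mul_le_mul_of_nonneg_left hZ' (by positivity : (0 : ℝ) ≤ 1 / κ)
        rw [← mul_assoc (1 / κ) κ, one_div_mul_cancel hκ0.ne', one_mul] at h4
        linarith only [h4]
      have h5 : 1 / κ * (CZ * DD b ε R s0 f n x e) =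
          (1 + K) * CZ / h0 * DD b ε R s0 f n x e := by
        rw [hκ, one_div_div]
        ring
      rw [h5] at h3
      linarith only [h3]
    have h6 : 4 * DD b ε R s0 f n x e ≤ 4 / h0 * DD b ε R s0 f n x e := by
      refine mul_le_mul_of_nonneg_right ?_ hDD0
      rw [le_div_iff₀ hh0]
      linarith
    have h7 : ((1 + K) * CZ + 4) / h0 * DD b ε R s0 f n x e =
        (1 + K) * CZ / h0 * DD b ε R s0 f n x e + 4 / h0 * DD b ε R s0 f n x e := by ring
    rw [h7]
    linarith only [s1, s2, s3, s4, s5, h2, h6]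
  · exact contDiff_const.mul ((hH.div_const h0).sub hψc)
  · intro y
    exact mul_nonneg hκ0.le (sub_nonneg.mpr (hψH y))
  · intro y
    have h2 : H y / h0 - ψ y ≤ 1 / h0 := by
      have := div_le_div_of_nonneg_right (hH1 y) hh0.le
      have := hψ0 y
      linarith
    calc κ * (H y / h0 - ψ y) ≤ κ * (1 / h0) := mul_le_mul_of_nonneg_left h2 hκ0.le
      _ = 1 / (1 + K) := by rw [hκ]; field_simp
      _ ≤ 1 := by rw [div_le_one h1K]; linarith
  · intro y
    have e1 : (fun y => κ * (H y / h0 - ψ y)) = (κ / h0) • H + (-κ) • ψ := by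
      ext y
      simp only [Pi.add_apply, Pi.smul_apply, smul_eq_mul]
      ring
    have c1 : ContDiff ℝ 2 ((κ / h0) • H) := contDiff_const.smul hH
    have c2 : ContDiff ℝ 2 ((-κ) • ψ) := contDiff_const.smul hψc
    rw [e1, iteratedFDeriv_add_apply c1.contDiffAt c2.contDiffAt,
      iteratedFDeriv_const_smul_apply hH.contDiffAt, iteratedFDeriv_const_smul_apply hψc.contDiffAt]
    refine (norm_add_le _ _).trans ?_
    rw [norm_smul, norm_smul, norm_neg, Real.norm_of_nonneg hκ0.le,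
      Real.norm_of_nonneg (by positivity : 0 ≤ κ / h0)]
    have h2 : κ / h0 * ‖iteratedFDeriv ℝ 2 H y‖ ≤ κ / h0 * 1 :=
      mul_le_mul_of_nonneg_left (hH2 y) (by positivity)
    have h3 : κ * ‖iteratedFDeriv ℝ 2 ψ y‖ ≤ κ * K := mul_le_mul_of_nonneg_left (hψ2 y) hκ0.le
    have h4 : κ / h0 * 1 + κ * K ≤ 1 := by
      have h5 : κ / h0 = 1 / (1 + K) := by rw [hκ]; field_simp
      have h6 : κ ≤ 1 / (1 + K) := by
        rw [hκ]
        exact div_le_div_of_nonneg_right hh1 h1K.le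
      have h7 : 1 / (1 + K) * (1 + K) = 1 := by field_simp
      rw [h5]
      nlinarith only [h7, hK0, h6]
    linarith
  · intro y hy
    have h1 : ψ y = 0 := by
      have h2 := hψH y
      rw [hHs y hy, zero_div] at h2
      exact le_antisymm h2 (hψ0 y)
    simp only [hHs y hy, h1]
    ring

end MA

/-- MODULE MA -/
theorem stmtMA (h : StmtZ) : StmtMA := by
  intro d hd M c ε hε hε1 b hb
  obtain ⟨CZ, hCZ, hZ⟩ := h d hd M c ε hε hε1 b hb
  obtain ⟨K, hK0, hK⟩ := MA.exists_cut d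
  have hC1 : 0 < (1 + K) * CZ + 4 := by positivity
  refine ⟨(1 + K) * CZ + 4 + 8, by positivity, ?_⟩
  intro E _ _ _ f hf hc R hR n e he x S hS
  have hDD0 : 0 ≤ DD b ε R ((1 / 2) ^ n) f n x e := by
    have := MA.DD_ge b ε R (n := n) f x he (Nat.zero_le (n + 1))
    rwa [Finset.range_zero, Finset.sum_empty] at this
  refine ⟨?_, ?_⟩
  · intro ζ hζ hζ1 hζ2 hζ0 hζS
    refine (MA.part1 (n := n) hb.ak hb.even hb.supp hε hε1 hf hc he hS hζ hζ1 hζ2 hζ0 hζS).trans ?_
    refine mul_le_mul_of_nonneg_right (by linarith) (add_nonneg ?_ hDD0)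
    exact integral_nonneg fun _ => norm_nonneg _
  · intro H h0 hh0 hh1 hH hH0 hH1 hH2 hHs hHS
    refine (MA.part2 hb.ak hb.even hb.supp hε hε1 hK0 hCZ hK hf hc he
      (fun H' a1 a2 a3 a4 a5 => hZ E f hf hc R (by linarith) n e he x H' a1 a2 a3 a4 a5)
      hS hh0 hh1 hH hH0 hH1 hH2 hHs hHS).trans ?_
    have h1 : ((1 + K) * CZ + 4) / h0 ≤ ((1 + K) * CZ + 4 + 8) / h0 :=
      div_le_div_of_nonneg_right (by linarith) hh0.le
    have h2 := mul_le_mul_of_nonneg_right h1 hDD0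
    linarith

end

end TG


end

section

/-!
# Lemma Z (4.4)

The proof does not localise H: with W_l = (H - θ_l)₊, θ_l = 100 · 4^(l-n), one has
0 ≤ W_l - b_(s_(l+1)) * W_(l+1) ≤ 4 θ_l pointwise, and W_n = 0.
-/

open MeasureTheory Metric Set TrI
open scoped InnerProductSpace ContDiff

namespace TG

noncomputable section

namespace ZZ

variable {d : ℕ}

/-- even probability kernels supported in the ball of radius one half -/
structure Ker (b : Sp d → ℝ) : Prop where
  cont : Continuous b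
  nonneg : ∀ x, 0 ≤ b x
  even : ∀ x, b (-x) = b x
  supp : ∀ x, 1 / 2 ≤ ‖x‖ → b x = 0
  int : ∫ x, b x = 1

lemma ker_of {J : ℕ} {M c : ℝ} {b : Sp d → ℝ} (h : BaseKer J M c b) : Ker b where
  cont := h.smooth.continuous
  nonneg := h.nonneg
  even := fun x => le_antisymm (h.mono x (-x) (by rw [norm_neg])) (h.mono (-x) x (by rw [norm_neg]))
  supp := h.supp
  int := h.int

section kernel

variable {b : Sp d → ℝ} {F : Type*} [NormedAddCommGroup F] [NormedSpace ℝ F]

lemma Ker.supp1 (hb : Ker b) (y : Sp d) (hy : y ∉ closedBall (0 : Sp d) 1) : b y = 0 := by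
  rw [mem_closedBall, dist_zero_right, not_le] at hy
  exact hb.supp y (by linarith)

lemma Ker.cs (hb : Ker b) : HasCompactSupport b :=
  HasCompactSupport.intro (isCompact_closedBall (0 : Sp d) 1) hb.supp1

lemma Ker.integrable (hb : Ker b) : Integrable b :=
  hb.cont.integrable_of_hasCompactSupport hb.cs

lemma Ker.int_smul (hb : Ker b) {g : Sp d → F} (hg : Continuous g) :
    Integrable (fun y => b y • g y) :=
  (hb.cont.smul hg).integrable_of_hasCompactSupport hb.cs.smul_right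

lemma Ker.int_avk (hb : Ker b) {g : Sp d → F} (hg : Continuous g) (s : ℝ) (x : Sp d) :
    Integrable (fun y => b y • g (x + s • y)) :=
  hb.int_smul (g := fun y => g (x + s • y)) (hg.comp (by fun_prop))

lemma avk_cont (hb : Ker b) {g : Sp d → F} (hg : Continuous g) (s : ℝ) :
    Continuous (avk b s g) := by
  have h1 : avk b s g = fun z => ∫ y in closedBall (0 : Sp d) 1, b y • g (z + s • y) := by
    ext z
    unfold avk
    symm
    refine setIntegral_eq_integral_of_forall_compl_eq_zero fun y hy => ?_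
    rw [hb.supp1 y hy, zero_smul]
  rw [h1]
  refine continuous_parametric_integral_of_continuous ?_ (isCompact_closedBall _ _)
  have h2 : Continuous fun p : Sp d × Sp d => b p.2 • g (p.1 + s • p.2) :=
    (hb.cont.comp continuous_snd).smul (hg.comp (by fun_prop))
  exact h2

lemma avk_cs (hb : Ker b) {g : Sp d → F} (hg : HasCompactSupport g) (s : ℝ) :
    HasCompactSupport (avk b s g) := by
  obtain ⟨A, hA⟩ := hg.isCompact.isBounded.subset_closedBall (0 : Sp d)
  refine HasCompactSupport.intro (isCompact_closedBall (0 : Sp d) (A + |s|)) fun x hx => ?_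
  unfold avk
  rw [← integral_zero (Sp d) F (μ := volume)]
  congr 1
  funext y
  by_cases hy : y ∈ closedBall (0 : Sp d) 1
  · have h1 : g (x + s • y) = 0 := by
      by_contra hne
      have h2 : x + s • y ∈ closedBall (0 : Sp d) A :=
        hA (subset_tsupport g (Function.mem_support.mpr hne))
      rw [mem_closedBall, dist_zero_right] at h2 hy
      rw [mem_closedBall, dist_zero_right, not_le] at hx
      have h3 : ‖x‖ ≤ ‖x + s • y‖ + ‖s • y‖ := by
        have := norm_sub_le (x + s • y) (s • y)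
        simpa using this
      rw [norm_smul, Real.norm_eq_abs] at h3
      have h4 : |s| * ‖y‖ ≤ |s| * 1 := mul_le_mul_of_nonneg_left hy (abs_nonneg s)
      linarith
    rw [h1, smul_zero]
  · rw [hb.supp1 y hy, zero_smul]

/-- averages are self adjoint -/
lemma avk_adj (hb : Ker b) {m W : Sp d → ℝ} (hm : Continuous m) (hms : HasCompactSupport m)
    (hW : Continuous W) (hWs : HasCompactSupport W) (s : ℝ) :
    ∫ x, avk b s m x * W x = ∫ x, m x * avk b s W x := by
  have hint : Integrable (Function.uncurry fun (x y : Sp d) => b y * m (x + s • y) * W x)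
      ((volume : Measure (Sp d)).prod volume) := by
    refine Continuous.integrable_of_hasCompactSupport ?_ ?_
    · unfold Function.uncurry
      exact ((hb.cont.comp continuous_snd).mul (hm.comp (by fun_prop))).mul
        (hW.comp continuous_fst)
    · refine HasCompactSupport.intro (hWs.isCompact.prod (isCompact_closedBall (0 : Sp d) 1)) ?_
      rintro ⟨x, y⟩ hx
      simp only [Function.uncurry]
      rw [mem_prod, not_and_or] at hx
      rcases hx with hx | hx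
      · rw [image_eq_zero_of_notMem_tsupport hx, mul_zero]
      · rw [hb.supp1 y hx, zero_mul, zero_mul]
  have e1 : ∫ x, avk b s m x * W x = ∫ x, ∫ y, b y * m (x + s • y) * W x := by
    congr 1
    funext x
    unfold avk
    rw [← integral_mul_const]
    rfl
  have e2 : ∀ y, ∫ x, b y * m (x + s • y) * W x = ∫ x, b y * m x * W (x - s • y) := by
    intro y
    rw [← integral_add_right_eq_self (fun x => b y * m x * W (x - s • y)) (s • y)]
    congr 1
    funext x
    rw [add_sub_cancel_right]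
  have e3 : ∫ y, ∫ x, b y * m x * W (x - s • y) = ∫ y, ∫ x, b y * m x * W (x + s • y) := by
    rw [← integral_neg_eq_self (fun y => ∫ x, b y * m x * W (x + s • y)) (μ := volume)]
    congr 1
    funext y
    rw [hb.even]
    congr 1
    funext x
    rw [smul_neg, ← sub_eq_add_neg]
  have hint2 : Integrable (Function.uncurry fun (x y : Sp d) => b y * m x * W (x + s • y))
      ((volume : Measure (Sp d)).prod volume) := by
    refine Continuous.integrable_of_hasCompactSupport ?_ ?_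
    · unfold Function.uncurry
      exact ((hb.cont.comp continuous_snd).mul (hm.comp continuous_fst)).mul
        (hW.comp (by fun_prop))
    · refine HasCompactSupport.intro (hms.isCompact.prod (isCompact_closedBall (0 : Sp d) 1)) ?_
      rintro ⟨x, y⟩ hx
      simp only [Function.uncurry]
      rw [mem_prod, not_and_or] at hx
      rcases hx with hx | hx
      · rw [image_eq_zero_of_notMem_tsupport hx, mul_zero, zero_mul]
      · rw [hb.supp1 y hx, zero_mul, zero_mul]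
  rw [e1, integral_integral_swap hint, integral_congr_ae (Filter.Eventually.of_forall e2), e3,
    ← integral_integral_swap hint2]
  congr 1
  funext x
  unfold avk
  rw [← integral_const_mul]
  congr 1
  funext y
  rw [smul_eq_mul]
  ring

end kernel

/-! ## Taylor inequalities for H -/

section taylor

variable {H : Sp d → ℝ}

lemma taylor (hH : ContDiff ℝ 2 H) (h2 : ∀ y, ‖iteratedFDeriv ℝ 2 H y‖ ≤ 1) (x v : Sp d) :
    |H (x + v) - H x - fderiv ℝ H x v| ≤ ‖v‖ ^ 2 := by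
  have hd : Differentiable ℝ H := hH.differentiable (by norm_num)
  have hD : ContDiff ℝ 1 (fderiv ℝ H) := hH.fderiv_right (by norm_num)
  have hDd : Differentiable ℝ (fderiv ℝ H) := hD.differentiable (by norm_num)
  have hbd : ∀ y, ‖fderiv ℝ (fderiv ℝ H) y‖ ≤ 1 := fun y => by
    have : ‖fderiv ℝ (fderiv ℝ H) y‖ = ‖iteratedFDeriv ℝ 2 H y‖ := by
      rw [show (2 : ℕ) = 1 + 1 from rfl, ← norm_iteratedFDeriv_fderiv,
        norm_iteratedFDeriv_one]
    rw [this]
    exact h2 y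
  have hlip : ∀ y, ‖fderiv ℝ H y - fderiv ℝ H x‖ ≤ ‖y - x‖ := fun y => by
    have := Convex.norm_image_sub_le_of_norm_fderiv_le (𝕜 := ℝ) (f := fderiv ℝ H) (s := univ)
      (C := 1) (x := x) (y := y) (fun z _ => hDd z) (fun z _ => hbd z) convex_univ (mem_univ _)
      (mem_univ _)
    simpa using this
  have h3 := (convex_closedBall x ‖v‖).norm_image_sub_le_of_norm_fderiv_le' (𝕜 := ℝ) (f := H)
    (φ := fderiv ℝ H x) (C := ‖v‖) (x := x) (y := x + v) (fun z _ => hd z)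
    (fun z hz => (hlip z).trans (by rwa [mem_closedBall, dist_eq_norm] at hz))
    (mem_closedBall_self (norm_nonneg v)) (by simp [mem_closedBall, dist_eq_norm])
  rw [Real.norm_eq_abs, add_sub_cancel_left] at h3
  rw [pow_two]
  exact h3

lemma grad_bd (hH : ContDiff ℝ 2 H) (h2 : ∀ y, ‖iteratedFDeriv ℝ 2 H y‖ ≤ 1)
    (h0 : ∀ y, 0 ≤ H y) (x v : Sp d) : |fderiv ℝ H x v| ≤ H x / 10 + 10 * ‖v‖ ^ 2 := by
  have key : ∀ t : ℝ, 0 ≤ H x + t * fderiv ℝ H x v + t ^ 2 * ‖v‖ ^ 2 := fun t => by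
    have h3 := (abs_le.mp (taylor hH h2 x (t • v))).2
    rw [map_smul, smul_eq_mul, norm_smul, mul_pow, Real.norm_eq_abs, sq_abs] at h3
    have h4 := h0 (x + t • v)
    linarith
  have k1 := key 10
  have k2 := key (-10)
  rw [abs_le]
  constructor <;> nlinarith

end taylor

/-! ## The pointwise inequalities -/

section pointwise

variable {b H : Sp d → ℝ}

/-- truncation -/
def tr (H : Sp d → ℝ) (θ : ℝ) (y : Sp d) : ℝ := max 0 (H y - θ)

lemma tr_cont (hH : Continuous H) (θ : ℝ) : Continuous (tr H θ) :=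
  continuous_const.max (hH.sub continuous_const)

lemma tr_cs (hH : HasCompactSupport H) {θ : ℝ} (hθ : 0 ≤ θ) : HasCompactSupport (tr H θ) := by
  refine hH.mono fun y hy => ?_
  rw [Function.mem_support] at hy ⊢
  intro h
  refine hy ?_
  unfold tr
  rw [h, zero_sub]
  exact max_eq_left (by linarith)

lemma odd_int (hb : Ker b) (φ : Sp d →L[ℝ] ℝ) : ∫ z, b z * φ z = 0 := by
  have h1 := integral_neg_eq_self (fun z => b z * φ z) (volume : Measure (Sp d))
  have h2 : ∫ z, b (-z) * φ (-z) = - ∫ z, b z * φ z := by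
    rw [← integral_neg]
    congr 1
    funext z
    rw [hb.even, map_neg]
    ring
  linarith

lemma aff_int (hb : Ker b) (φ : Sp d →L[ℝ] ℝ) (s c : ℝ) :
    Integrable (fun z => b z * (c + φ (s • z))) ∧ ∫ z, b z * (c + φ (s • z)) = c := by
  have i1 : Integrable (fun z => b z * c) := hb.integrable.mul_const c
  have i2 : Integrable (fun z => b z * φ z) := by
    have := hb.int_smul (g := fun z => φ z) φ.continuous
    simpa using this
  have e : (fun z => b z * (c + φ (s • z))) = fun z => b z * c + s * (b z * φ z) := by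
    funext z
    rw [map_smul, smul_eq_mul]
    ring
  rw [e]
  refine ⟨i1.add (i2.const_mul s), ?_⟩
  rw [integral_add i1 (i2.const_mul s), integral_mul_const, hb.int, integral_const_mul,
    odd_int hb, mul_zero, add_zero, one_mul]

lemma avk_le (hb : Ker b) (hH : ContDiff ℝ 2 H) (h2 : ∀ y, ‖iteratedFDeriv ℝ 2 H y‖ ≤ 1)
    (h0 : ∀ y, 0 ≤ H y) {s θ : ℝ} (hs : 0 ≤ s) (hθ : 0 < θ) (hsθ : (s / 2) ^ 2 ≤ θ / 100)
    (x : Sp d) : avk b s (tr H (4 * θ)) x ≤ tr H θ x := by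
  have hv : ∀ z : Sp d, ‖z‖ < 1 / 2 → ‖s • z‖ ^ 2 ≤ θ / 100 := fun z hz => by
    rw [norm_smul, Real.norm_of_nonneg hs]
    refine le_trans ?_ hsθ
    have h3 : s * ‖z‖ ≤ s / 2 := by nlinarith
    exact pow_le_pow_left₀ (by positivity) h3 2
  have hup : ∀ z : Sp d, ‖z‖ < 1 / 2 →
      H (x + s • z) ≤ H x + fderiv ℝ H x (s • z) + θ / 100 := fun z hz => by
    have h3 := (abs_le.mp (taylor hH h2 x (s • z))).2
    have h4 := hv z hz
    linarith only [h3, h4]
  have hgr : ∀ z : Sp d, ‖z‖ < 1 / 2 → |fderiv ℝ H x (s • z)| ≤ H x / 10 + θ / 10 :=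
    fun z hz => by
    have h3 := grad_bd hH h2 h0 x (s • z)
    have h4 := hv z hz
    linarith only [h3, h4]
  unfold avk
  have hi : Integrable fun y => b y • tr H (4 * θ) (x + s • y) :=
    hb.int_avk (tr_cont hH.continuous _) s x
  rcases le_or_gt (5 * θ) (H x) with hc | hc
  · obtain ⟨i1, e1⟩ := aff_int hb (fderiv ℝ H x) s (H x + θ / 100 - 4 * θ)
    have h5 : ∫ y, b y • tr H (4 * θ) (x + s • y) ≤ H x + θ / 100 - 4 * θ := by
      rw [← e1]
      refine integral_mono hi i1 fun z => ?_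
      rw [smul_eq_mul]
      rcases le_or_gt (1 / 2) ‖z‖ with hz | hz
      · simp only [hb.supp z hz, zero_mul, le_refl]
      · refine mul_le_mul_of_nonneg_left ?_ (hb.nonneg z)
        have h6 := hup z hz
        have h7 := (abs_le.mp (hgr z hz)).1
        exact max_le (by linarith only [hθ, hc, h7]) (by linarith only [h6])
    refine h5.trans (le_max_of_le_right ?_)
    linarith only [hθ]
  · have i1 : Integrable fun z => b z * tr H θ x := hb.integrable.mul_const _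
    have h5 : ∫ y, b y • tr H (4 * θ) (x + s • y) ≤ ∫ z, b z * tr H θ x := by
      refine integral_mono hi i1 fun z => ?_
      show b z • tr H (4 * θ) (x + s • z) ≤ b z * tr H θ x
      rw [smul_eq_mul]
      rcases le_or_gt (1 / 2) ‖z‖ with hz | hz
      · rw [hb.supp z hz, zero_mul, zero_mul]
      · refine mul_le_mul_of_nonneg_left ?_ (hb.nonneg z)
        have h6 := hup z hz
        have h7 := (abs_le.mp (hgr z hz)).2
        have h8 := h0 x
        exact max_le_max le_rfl (by linarith)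
    refine h5.trans ?_
    rw [integral_mul_const, hb.int, one_mul]

lemma avk_ge (hb : Ker b) (hH : ContDiff ℝ 2 H) (h2 : ∀ y, ‖iteratedFDeriv ℝ 2 H y‖ ≤ 1)
    {s θ : ℝ} (hs : 0 ≤ s) (hsθ : (s / 2) ^ 2 ≤ θ / 100)
    (x : Sp d) : tr H θ x - 4 * θ ≤ avk b s (tr H (4 * θ)) x := by
  have hv : ∀ z : Sp d, ‖z‖ < 1 / 2 → ‖s • z‖ ^ 2 ≤ θ / 100 := fun z hz => by
    rw [norm_smul, Real.norm_of_nonneg hs]
    refine le_trans ?_ hsθ
    have h3 : s * ‖z‖ ≤ s / 2 := by nlinarith only [hs, hz]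
    exact pow_le_pow_left₀ (by positivity) h3 2
  have hθ : 0 ≤ θ := by
    have : 0 ≤ (s / 2) ^ 2 := sq_nonneg _
    linarith
  have hlo : ∀ z : Sp d, ‖z‖ < 1 / 2 →
      H x + fderiv ℝ H x (s • z) - θ / 100 ≤ H (x + s • z) := fun z hz => by
    have h3 := (abs_le.mp (taylor hH h2 x (s • z))).1
    have h4 := hv z hz
    linarith only [h3, h4]
  have hi : Integrable fun y => b y • tr H (4 * θ) (x + s • y) :=
    hb.int_avk (tr_cont hH.continuous _) s x
  have h0 : 0 ≤ avk b s (tr H (4 * θ)) x := by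
    unfold avk
    exact integral_nonneg fun z => mul_nonneg (hb.nonneg z) (le_max_left _ _)
  obtain ⟨i1, e1⟩ := aff_int hb (fderiv ℝ H x) s (H x - θ / 100 - 4 * θ)
  have h5 : H x - θ / 100 - 4 * θ ≤ avk b s (tr H (4 * θ)) x := by
    unfold avk
    rw [← e1]
    refine integral_mono i1 hi fun z => ?_
    rw [smul_eq_mul]
    rcases le_or_gt (1 / 2) ‖z‖ with hz | hz
    · simp only [hb.supp z hz, zero_mul, le_refl]
    · refine mul_le_mul_of_nonneg_left ?_ (hb.nonneg z)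
      have h6 := hlo z hz
      exact le_max_of_le_right (by linarith only [h6])
  rw [sub_le_iff_le_add]
  exact max_le (by linarith only [hθ, h0]) (by linarith)

end pointwise

/-! ## The fields -/

section fields

variable {E : Type} [NormedAddCommGroup E] [InnerProductSpace ℝ E] {b : Sp d → ℝ}

lemma fl_reg (hb : Ker b) (ε s0 : ℝ) {f : Sp d → E} (hf : Continuous f)
    (hfs : HasCompactSupport f) (l : ℕ) :
    Continuous (fl b ε s0 f l) ∧ HasCompactSupport (fl b ε s0 f l) := by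
  induction l with
  | zero => exact ⟨hf, hfs⟩
  | succ l ih => exact ⟨avk_cont hb ih.1 _, avk_cs hb ih.2 _⟩

/-- the component of f_l in direction e -/
def mm (b : Sp d → ℝ) (ε s0 : ℝ) (f : Sp d → E) (e : E) (l : ℕ) (y : Sp d) : ℝ :=
  ⟪fl b ε s0 f l y, e⟫_ℝ

lemma mm_reg (hb : Ker b) (ε s0 : ℝ) {f : Sp d → E} (hf : Continuous f)
    (hfs : HasCompactSupport f) (e : E) (l : ℕ) :
    Continuous (mm b ε s0 f e l) ∧ HasCompactSupport (mm b ε s0 f e l) := by
  obtain ⟨h1, h2⟩ := fl_reg hb ε s0 hf hfs l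
  refine ⟨h1.inner continuous_const, h2.mono fun y hy => ?_⟩
  rw [Function.mem_support] at hy ⊢
  intro h
  refine hy ?_
  unfold mm
  rw [h, inner_zero_left]

lemma mm_succ [CompleteSpace E] (hb : Ker b) (ε s0 : ℝ) {f : Sp d → E} (hf : Continuous f)
    (hfs : HasCompactSupport f) (e : E) (l : ℕ) :
    mm b ε s0 f e (l + 1) = avk b (ε * lev s0 (l + 1)) (mm b ε s0 f e l) := by
  funext x
  have h1 := (fl_reg hb ε s0 hf hfs l).1
  have hi := hb.int_avk h1 (ε * lev s0 (l + 1)) x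
  have h2 := (innerSL ℝ e).integral_comp_comm hi
  simp only [innerSL_apply_apply, inner_smul_right] at h2
  show ⟪∫ y, b y • fl b ε s0 f l (x + (ε * lev s0 (l + 1)) • y), e⟫_ℝ = _
  rw [real_inner_comm, ← h2]
  unfold avk mm
  congr 1
  funext y
  rw [smul_eq_mul, real_inner_comm]

/-- the defect density -/
def de (b : Sp d → ℝ) (ε s0 : ℝ) (f : Sp d → E) (e : E) (l : ℕ) (y : Sp d) : ℝ :=
  ‖fl b ε s0 f l y‖ - ⟪fl b ε s0 f l y, e⟫_ℝ

lemma de_nonneg (ε s0 : ℝ) (f : Sp d → E) {e : E} (he : ‖e‖ = 1) (l : ℕ) (y : Sp d) :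
    0 ≤ de b ε s0 f e l y := by
  unfold de
  have := real_inner_le_norm (fl b ε s0 f l y) e
  rw [he, mul_one] at this
  linarith

lemma de_int (hb : Ker b) (ε s0 : ℝ) {f : Sp d → E} (hf : Continuous f)
    (hfs : HasCompactSupport f) (e : E) (l : ℕ) : Integrable (de b ε s0 f e l) := by
  obtain ⟨h1, h2⟩ := fl_reg hb ε s0 hf hfs l
  obtain ⟨h3, h4⟩ := mm_reg hb ε s0 hf hfs e l
  exact (h1.norm.integrable_of_hasCompactSupport h2.norm).sub
    (h3.integrable_of_hasCompactSupport h4)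

/-- a nonnegative function bounded by c and supported in the ball -/
lemma low (hb : Ker b) (ε s0 : ℝ) {f : Sp d → E} (hf : Continuous f)
    (hfs : HasCompactSupport f) {e : E} (he : ‖e‖ = 1) (l : ℕ) {g : Sp d → ℝ} {c : ℝ}
    (hg : Continuous g) (g0 : ∀ y, 0 ≤ g y) (gc : ∀ y, g y ≤ c) {B : Set (Sp d)}
    (hB : MeasurableSet B) (gB : ∀ y, y ∉ B → g y = 0) :
    -(c * ∫ y in B, de b ε s0 f e l y) ≤ ∫ y, mm b ε s0 f e l y * g y := by
  obtain ⟨h3, h4⟩ := mm_reg hb ε s0 hf hfs e l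
  have hd := de_int hb ε s0 hf hfs e l
  rw [← integral_indicator hB, ← integral_const_mul, ← integral_neg]
  refine integral_mono ((hd.indicator hB).const_mul c).neg
    ((h3.mul hg).integrable_of_hasCompactSupport h4.mul_right) fun y => ?_
  show -(c * B.indicator (de b ε s0 f e l) y) ≤ mm b ε s0 f e l y * g y
  have h5 := de_nonneg (b := b) ε s0 f he l y
  have h6 : -de b ε s0 f e l y ≤ mm b ε s0 f e l y := by
    unfold de mm
    have := norm_nonneg (fl b ε s0 f l y)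
    linarith
  by_cases hy : y ∈ B
  · rw [indicator_of_mem hy]
    have h7 := g0 y
    have h8 := gc y
    have h9 : -de b ε s0 f e l y * g y ≤ mm b ε s0 f e l y * g y :=
      mul_le_mul_of_nonneg_right h6 h7
    nlinarith
  · rw [indicator_of_notMem hy, gB y hy]
    simp

end fields

lemma lev_one (n : ℕ) : lev ((1 / 2 : ℝ) ^ n) n = 1 := by
  unfold lev
  rw [← mul_pow]
  norm_num

/-- one step -/
lemma scale_sq {ε : ℝ} (h0 : 0 < ε) (h1 : ε ≤ 1) {n l : ℕ} (hl : l < n) :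
    (ε * lev ((1 / 2 : ℝ) ^ n) (l + 1) / 2) ^ 2 ≤ 100 * (1 / 4 : ℝ) ^ (n - l) / 100 := by
  unfold lev
  obtain ⟨k, rfl⟩ := Nat.exists_eq_add_of_lt hl
  have e1 : l + k + 1 - l = k + 1 := by omega
  have e2 : ε * ((1 / 2 : ℝ) ^ (l + k + 1) * 2 ^ (l + 1)) / 2 = ε * (1 / 2) ^ (k + 1) := by
    have : (1 / 2 : ℝ) ^ (l + k + 1) = (1 / 2) ^ l * (1 / 2) ^ (k + 1) := by
      rw [← pow_add]; congr 1
    have h3 : (1 / 2 : ℝ) ^ l * 2 ^ l = 1 := by rw [← mul_pow]; norm_num
    rw [this, pow_succ 2 l]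
    calc ε * ((1 / 2 : ℝ) ^ l * (1 / 2) ^ (k + 1) * (2 ^ l * 2)) / 2
        = ε * (1 / 2) ^ (k + 1) * ((1 / 2 : ℝ) ^ l * 2 ^ l) := by ring
      _ = ε * (1 / 2) ^ (k + 1) := by rw [h3, mul_one]
  rw [e1, e2, mul_pow, mul_div_cancel_left₀ _ (by norm_num : (100 : ℝ) ≠ 0), ← pow_mul,
    mul_comm (k + 1) 2, pow_mul]
  have h3 : ε ^ 2 ≤ 1 := by nlinarith
  have h4 : (0 : ℝ) ≤ ((1 / 2 : ℝ) ^ 2) ^ (k + 1) := by positivity
  have h5 : ((1 / 2 : ℝ) ^ 2) ^ (k + 1) = (1 / 4) ^ (k + 1) := by norm_num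
  rw [h5] at h4 ⊢
  nlinarith only [h3, h4]

end ZZ

theorem stmtZ : StmtZ := by
  intro d _ M c ε h0 h1 b hbk
  have hb := ZZ.ker_of hbk
  refine ⟨500, by norm_num, ?_⟩
  intro E _ _ _ f hf hfs R hR n e he x H hH H0 H1 H2 Hs
  set s0 : ℝ := (1 / 2 : ℝ) ^ n with hs0
  set B : Set (Sp d) := ball x R with hB
  have hBm : MeasurableSet B := measurableSet_ball
  have HB : ∀ y, y ∉ B → H y = 0 := fun y hy => Hs y (by
    rw [hB, mem_ball, dist_eq_norm, not_lt] at hy
    linarith)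
  have Hcs : HasCompactSupport H := by
    refine HasCompactSupport.intro (isCompact_closedBall x R) fun y hy => HB y fun hy' => hy ?_
    exact ball_subset_closedBall hy'
  have Hc : Continuous H := hH.continuous
  set θ : ℕ → ℝ := fun l => 100 * (1 / 4 : ℝ) ^ (n - l) with hθ
  have hθ0 : ∀ l, 0 < θ l := fun l => by positivity
  set I : ℕ → ℝ := fun l => ∫ y in B, ZZ.de b ε s0 f e l y with hI
  have hI0 : ∀ l, 0 ≤ I l := fun l =>
    setIntegral_nonneg hBm fun y _ => ZZ.de_nonneg ε s0 f he l y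
  -- one step
  have step : ∀ l, l < n → -(4 * θ l * I l) + ∫ y, ZZ.mm b ε s0 f e (l + 1) y *
      ZZ.tr H (θ (l + 1)) y ≤ ∫ y, ZZ.mm b ε s0 f e l y * ZZ.tr H (θ l) y := by
    intro l hl
    have hθl : θ (l + 1) = 4 * θ l := by
      simp only [hθ]
      have : n - l = (n - (l + 1)) + 1 := by omega
      rw [this, pow_succ]
      ring
    have hsc := ZZ.scale_sq h0 h1 hl
    have hs : 0 ≤ ε * lev s0 (l + 1) := by
      unfold lev
      positivity
    obtain ⟨m1, m2⟩ := ZZ.mm_reg hb ε s0 hf hfs e l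
    have ht1 := ZZ.tr_cont Hc (θ l)
    have ht2 := ZZ.tr_cont Hc (θ (l + 1))
    have ht3 := ZZ.tr_cs Hcs (hθ0 (l + 1)).le
    have hcont : Continuous (avk b (ε * lev s0 (l + 1)) (ZZ.tr H (θ (l + 1)))) :=
      ZZ.avk_cont hb ht2 _
    have hlow := ZZ.low hb ε s0 hf hfs he l
      (g := fun y => ZZ.tr H (θ l) y - avk b (ε * lev s0 (l + 1)) (ZZ.tr H (θ (l + 1))) y)
      (c := 4 * θ l) (ht1.sub hcont)
      (fun y => by
        have := ZZ.avk_le hb hH H2 H0 hs (hθ0 l) hsc y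
        rw [← hθl] at this
        linarith)
      (fun y => by
        have := ZZ.avk_ge hb hH H2 hs hsc y
        rw [← hθl] at this
        have e4 : 4 * θ l = θ (l + 1) := hθl.symm
        change ZZ.tr H (θ l) y - θ (l + 1) ≤ _ at this
        rw [e4]
        linarith only [this])
      hBm
      (fun y hy => by
        have h3 := ZZ.avk_le hb hH H2 H0 hs (hθ0 l) hsc y
        rw [← hθl] at h3
        have h4 : ZZ.tr H (θ l) y = 0 := by
          unfold ZZ.tr
          rw [HB y hy, zero_sub]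
          exact max_eq_left (by linarith only [hθ0 l])
        have h5 : 0 ≤ avk b (ε * lev s0 (l + 1)) (ZZ.tr H (θ (l + 1))) y := by
          unfold avk
          exact integral_nonneg fun z => mul_nonneg (hb.nonneg z) (le_max_left _ _)
        change avk b (ε * lev s0 (l + 1)) (ZZ.tr H (θ (l + 1))) y ≤ ZZ.tr H (θ l) y at h3
        rw [h4] at h3 ⊢
        linarith)
    have e1 : ∫ y, ZZ.mm b ε s0 f e (l + 1) y * ZZ.tr H (θ (l + 1)) y =
        ∫ y, ZZ.mm b ε s0 f e l y * avk b (ε * lev s0 (l + 1)) (ZZ.tr H (θ (l + 1))) y := by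
      rw [ZZ.mm_succ hb ε s0 hf hfs e l]
      exact ZZ.avk_adj hb m1 m2 ht2 ht3 _
    have i1 : Integrable fun y => ZZ.mm b ε s0 f e l y * ZZ.tr H (θ l) y :=
      (m1.mul ht1).integrable_of_hasCompactSupport m2.mul_right
    have i2 : Integrable fun y => ZZ.mm b ε s0 f e l y *
        avk b (ε * lev s0 (l + 1)) (ZZ.tr H (θ (l + 1))) y :=
      (m1.mul hcont).integrable_of_hasCompactSupport m2.mul_right
    have e2 : ∫ y, ZZ.mm b ε s0 f e l y * (ZZ.tr H (θ l) y -
        avk b (ε * lev s0 (l + 1)) (ZZ.tr H (θ (l + 1))) y) =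
        (∫ y, ZZ.mm b ε s0 f e l y * ZZ.tr H (θ l) y) - ∫ y, ZZ.mm b ε s0 f e l y *
          avk b (ε * lev s0 (l + 1)) (ZZ.tr H (θ (l + 1))) y := by
      rw [← integral_sub i1 i2]
      congr 1
      funext y
      ring
    rw [e2] at hlow
    rw [e1]
    change -(4 * θ l * I l) ≤ _ at hlow
    linarith only [hlow]
  -- telescoping
  have tele : ∀ l, l ≤ n → -(∑ j ∈ Finset.range l, 4 * θ j * I j) +
      ∫ y, ZZ.mm b ε s0 f e l y * ZZ.tr H (θ l) y ≤
        ∫ y, ZZ.mm b ε s0 f e 0 y * ZZ.tr H (θ 0) y := by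
    intro l
    induction l with
    | zero => intro _; simp
    | succ l ih =>
      intro hl
      have h3 := ih (by omega)
      have h4 := step l (by omega)
      rw [Finset.sum_range_succ]
      linarith
  have hn := tele n le_rfl
  have htop : ∫ y, ZZ.mm b ε s0 f e n y * ZZ.tr H (θ n) y = 0 := by
    have : ∀ y, ZZ.tr H (θ n) y = 0 := fun y => by
      unfold ZZ.tr
      simp only [hθ, Nat.sub_self, pow_zero, mul_one]
      exact max_eq_left (by linarith [H1 y])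
    simp [this]
  rw [htop, add_zero] at hn
  -- bottom
  obtain ⟨m1, m2⟩ := ZZ.mm_reg hb ε s0 hf hfs e 0
  have ht := ZZ.tr_cont Hc (θ 0)
  have hbot := ZZ.low hb ε s0 hf hfs he 0 (g := fun y => H y - ZZ.tr H (θ 0) y) (c := θ 0)
    (Hc.sub ht)
    (fun y => by
      have : ZZ.tr H (θ 0) y ≤ H y := max_le (H0 y) (by linarith [hθ0 0])
      linarith)
    (fun y => by
      have : H y - θ 0 ≤ ZZ.tr H (θ 0) y := le_max_right _ _
      linarith)
    hBm
    (fun y hy => by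
      have : ZZ.tr H (θ 0) y = 0 := by
        unfold ZZ.tr
        rw [HB y hy, zero_sub]
        exact max_eq_left (by linarith [hθ0 0])
      rw [this, HB y hy, sub_zero])
  have i1 : Integrable fun y => ZZ.mm b ε s0 f e 0 y * H y :=
    (m1.mul Hc).integrable_of_hasCompactSupport m2.mul_right
  have i2 : Integrable fun y => ZZ.mm b ε s0 f e 0 y * ZZ.tr H (θ 0) y :=
    (m1.mul ht).integrable_of_hasCompactSupport m2.mul_right
  have e2 : ∫ y, ZZ.mm b ε s0 f e 0 y * (H y - ZZ.tr H (θ 0) y) =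
      (∫ y, ZZ.mm b ε s0 f e 0 y * H y) -
        ∫ y, ZZ.mm b ε s0 f e 0 y * ZZ.tr H (θ 0) y := by
    rw [← integral_sub i1 i2]
    congr 1
    funext y
    ring
  rw [e2] at hbot
  change -(θ 0 * I 0) ≤ _ at hbot
  have hDD : DD b ε R s0 f n x e = ∑ l ∈ Finset.range (n + 1), (1 / 4 : ℝ) ^ (n - l) * I l +
      (1 / 4 : ℝ) ^ n * ∫ y in B, ‖f y‖ := by
    unfold DD
    rw [hs0, ZZ.lev_one n]
    simp only [one_pow, div_one, mul_one, one_mul]
    rfl
  have hsum : θ 0 * I 0 + ∑ j ∈ Finset.range n, 4 * θ j * I j ≤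
      500 * ∑ l ∈ Finset.range (n + 1), (1 / 4 : ℝ) ^ (n - l) * I l := by
    have h3 : ∑ j ∈ Finset.range n, 4 * θ j * I j =
        400 * ∑ l ∈ Finset.range n, (1 / 4 : ℝ) ^ (n - l) * I l := by
      rw [Finset.mul_sum]
      refine Finset.sum_congr rfl fun j _ => ?_
      simp only [hθ]
      ring
    have h4 : ∑ l ∈ Finset.range n, (1 / 4 : ℝ) ^ (n - l) * I l ≤
        ∑ l ∈ Finset.range (n + 1), (1 / 4 : ℝ) ^ (n - l) * I l := by
      rw [Finset.sum_range_succ]
      have : 0 ≤ (1 / 4 : ℝ) ^ (n - n) * I n := mul_nonneg (by positivity) (hI0 n)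
      linarith
    have h5 : (1 / 4 : ℝ) ^ (n - 0) * I 0 ≤
        ∑ l ∈ Finset.range (n + 1), (1 / 4 : ℝ) ^ (n - l) * I l :=
      Finset.single_le_sum (f := fun l => (1 / 4 : ℝ) ^ (n - l) * I l)
        (fun l _ => mul_nonneg (by positivity) (hI0 l)) (Finset.mem_range.mpr (by omega))
    have h6 : θ 0 * I 0 = 100 * ((1 / 4 : ℝ) ^ (n - 0) * I 0) := by
      simp only [hθ]
      ring
    rw [h3, h6]
    linarith only [h4, h5]
  have hf0 : 0 ≤ (1 / 4 : ℝ) ^ n * ∫ y in B, ‖f y‖ :=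
    mul_nonneg (by positivity) (integral_nonneg fun y => norm_nonneg _)
  rw [hDD]
  change _ ≤ ∫ y, ZZ.mm b ε s0 f e 0 y * H y
  linarith only [hn, hbot, hsum, hf0]

end

end TG


end

section

/-!
# Trace inequality, general operators: calculus of test functions (helper74)

CB J N g: all derivatives up to order J of g : X → F are bounded by N (X arbitrary).
On Sp d this is TFn J N g.  No double quotes.
-/

open MeasureTheory Metric Set TrI
open scoped InnerProductSpace ContDiff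

namespace TG

namespace TC

noncomputable section

/-- derivatives up to order J bounded by N -/
structure CB {X F : Type*} [NormedAddCommGroup X] [NormedSpace ℝ X] [NormedAddCommGroup F]
    [NormedSpace ℝ F] (J : ℕ) (N : ℝ) (g : X → F) : Prop where
  smooth : ContDiff ℝ J g
  bd : ∀ j ≤ J, ∀ x, ‖iteratedFDeriv ℝ j g x‖ ≤ N

section Gen

variable {X Y F G : Type*} [NormedAddCommGroup X] [NormedSpace ℝ X]
  [NormedAddCommGroup Y] [NormedSpace ℝ Y] [NormedAddCommGroup F]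
  [NormedSpace ℝ F] [NormedAddCommGroup G] [NormedSpace ℝ G] {J : ℕ} {N N' : ℝ}

lemma CB.nonneg {g : X → F} (h : CB J N g) : 0 ≤ N :=
  (norm_nonneg _).trans (h.bd 0 (Nat.zero_le _) 0)

lemma CB.mono {g : X → F} (h : CB J N g) (hN : N ≤ N') : CB J N' g :=
  ⟨h.smooth, fun j hj x => (h.bd j hj x).trans hN⟩

lemma CB.le {J' : ℕ} {g : X → F} (h : CB J N g) (hJ : J' ≤ J) : CB J' N g :=
  ⟨h.smooth.of_le (by exact_mod_cast hJ), fun j hj x => h.bd j (hj.trans hJ) x⟩

lemma CB.norm_le {g : X → F} (h : CB J N g) (x : X) : ‖g x‖ ≤ N := by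
  have := h.bd 0 (Nat.zero_le _) x
  simpa using this

lemma CB.abs_le {g : X → ℝ} (h : CB J N g) (x : X) : |g x| ≤ N := h.norm_le x

lemma CB.const (c : F) : CB J ‖c‖ (fun _ : X => c) := by
  refine ⟨contDiff_const, fun j _ x => ?_⟩
  rcases Nat.eq_zero_or_pos j with rfl | hj
  · simp
  · rw [iteratedFDeriv_const_of_ne (by omega)]
    simp

lemma CB.add {g h : X → F} (hg : CB J N g) (hh : CB J N' h) :
    CB J (N + N') (fun x => g x + h x) := by
  refine ⟨hg.smooth.add hh.smooth, fun j hj x => ?_⟩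
  have := iteratedFDeriv_add_apply (𝕜 := ℝ) (i := j) (x := x) (f := g) (g := h)
    ((hg.smooth.of_le (by exact_mod_cast hj)).contDiffAt)
    ((hh.smooth.of_le (by exact_mod_cast hj)).contDiffAt)
  have e : (fun x => g x + h x) = g + h := rfl
  rw [e, this]
  exact (norm_add_le _ _).trans (add_le_add (hg.bd j hj x) (hh.bd j hj x))

lemma CB.neg {g : X → F} (hg : CB J N g) : CB J N (fun x => -g x) := by
  refine ⟨hg.smooth.neg, fun j hj x => ?_⟩
  have e : (fun x => -g x) = -g := rfl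
  rw [e, iteratedFDeriv_neg_apply, norm_neg]
  exact hg.bd j hj x

lemma CB.sub {g h : X → F} (hg : CB J N g) (hh : CB J N' h) :
    CB J (N + N') (fun x => g x - h x) := by
  have := hg.add hh.neg
  simpa [sub_eq_add_neg] using this

lemma CB.const_smul {g : X → F} (hg : CB J N g) (c : ℝ) : CB J (|c| * N) (fun x => c • g x) := by
  refine ⟨contDiff_const.smul hg.smooth, fun j hj x => ?_⟩
  have e : (fun x => c • g x) = c • g := rfl
  rw [e, iteratedFDeriv_const_smul_apply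
    ((hg.smooth.of_le (by exact_mod_cast hj)).contDiffAt), norm_smul, Real.norm_eq_abs]
  exact mul_le_mul_of_nonneg_left (hg.bd j hj x) (abs_nonneg c)

lemma CB.const_mul {g : X → ℝ} (hg : CB J N g) (c : ℝ) : CB J (|c| * N) (fun x => c * g x) :=
  hg.const_smul c

lemma CB.sum {ι : Type*} (s : Finset ι) {g : ι → X → F} {n : ι → ℝ}
    (h : ∀ i ∈ s, CB J (n i) (g i)) : CB J (∑ i ∈ s, n i) (fun x => ∑ i ∈ s, g i x) := by
  classical
  induction s using Finset.induction with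
  | empty => simpa using CB.const (X := X) (J := J) (0 : F)
  | insert i s hi IH =>
    simp only [Finset.sum_insert hi]
    exact (h i (Finset.mem_insert_self _ _)).add
      (IH fun j hj => h j (Finset.mem_insert_of_mem hj))

lemma choose_bound {j : ℕ} (hj : j ≤ J) {N N' : ℝ} (a b : ℕ → ℝ)
    (ha : ∀ i ≤ J, a i ≤ N) (hb : ∀ i ≤ J, b i ≤ N') (ha0 : ∀ i, 0 ≤ a i) (hb0 : ∀ i, 0 ≤ b i) :
    ∑ i ∈ Finset.range (j + 1), (j.choose i : ℝ) * a i * b (j - i) ≤ 2 ^ J * N * N' := by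
  have hN : 0 ≤ N := (ha0 0).trans (ha 0 (Nat.zero_le _))
  have hN' : 0 ≤ N' := (hb0 0).trans (hb 0 (Nat.zero_le _))
  calc ∑ i ∈ Finset.range (j + 1), (j.choose i : ℝ) * a i * b (j - i)
      ≤ ∑ i ∈ Finset.range (j + 1), (j.choose i : ℝ) * N * N' := by
        refine Finset.sum_le_sum fun i hi => ?_
        rw [Finset.mem_range] at hi
        have h1 := ha i (by omega)
        have h2 := hb (j - i) (by omega)
        have h3 : (0 : ℝ) ≤ j.choose i := by positivity
        exact mul_le_mul (mul_le_mul_of_nonneg_left h1 h3) h2 (hb0 _) (by positivity)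
    _ = 2 ^ j * N * N' := by
        rw [← Finset.sum_mul, ← Finset.sum_mul]
        congr 2
        exact_mod_cast Nat.sum_range_choose j
    _ ≤ 2 ^ J * N * N' := by
        have : (2 : ℝ) ^ j ≤ 2 ^ J := pow_le_pow_right₀ (by norm_num) hj
        gcongr

lemma CB.smul {g : X → ℝ} {h : X → F} (hg : CB J N g) (hh : CB J N' h) :
    CB J (2 ^ J * N * N') (fun x => g x • h x) := by
  refine ⟨hg.smooth.smul hh.smooth, fun j hj x => ?_⟩
  refine (norm_iteratedFDeriv_smul_le hg.smooth hh.smooth x (by exact_mod_cast hj)).trans ?_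
  exact choose_bound hj (fun i => ‖iteratedFDeriv ℝ i g x‖) (fun i => ‖iteratedFDeriv ℝ i h x‖)
    (fun i hi => hg.bd i hi x) (fun i hi => hh.bd i hi x) (fun i => norm_nonneg _)
    (fun i => norm_nonneg _)

lemma CB.mul {g h : X → ℝ} (hg : CB J N g) (hh : CB J N' h) :
    CB J (2 ^ J * N * N') (fun x => g x * h x) := hg.smul hh

lemma CB.bilin {H : Type*} [NormedAddCommGroup H] [NormedSpace ℝ H] (B : F →L[ℝ] G →L[ℝ] H)
    (hB : ‖B‖ ≤ 1) {g : X → F} {h : X → G} (hg : CB J N g) (hh : CB J N' h) :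
    CB J (2 ^ J * N * N') (fun x => B (g x) (h x)) := by
  refine ⟨B.isBoundedBilinearMap.contDiff.comp₂ hg.smooth hh.smooth, fun j hj x => ?_⟩
  refine (B.norm_iteratedFDeriv_le_of_bilinear_of_le_one hg.smooth hh.smooth x
    (by exact_mod_cast hj) hB).trans ?_
  exact choose_bound hj (fun i => ‖iteratedFDeriv ℝ i g x‖) (fun i => ‖iteratedFDeriv ℝ i h x‖)
    (fun i hi => hg.bd i hi x) (fun i hi => hh.bd i hi x) (fun i => norm_nonneg _)
    (fun i => norm_nonneg _)

lemma CB.inner {E : Type*} [NormedAddCommGroup E] [InnerProductSpace ℝ E] {g h : X → E}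
    (hg : CB J N g) (hh : CB J N' h) : CB J (2 ^ J * N * N') (fun x => ⟪g x, h x⟫_ℝ) := by
  exact CB.bilin (innerSL ℝ) (norm_innerSL_le ℝ) hg hh

lemma CB.clm {g : X → F} (hg : CB J N g) (A : F →L[ℝ] G) : CB J (‖A‖ * N) (fun x => A (g x)) := by
  refine ⟨A.contDiff.comp hg.smooth, fun j hj x => ?_⟩
  have := A.norm_iteratedFDeriv_comp_left (f := g) (x := x) (N := J) (n := j)
    hg.smooth.contDiffAt (by exact_mod_cast hj)
  exact this.trans (mul_le_mul_of_nonneg_left (hg.bd j hj x) (norm_nonneg _))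

lemma CB.clm_le {g : X → F} (hg : CB J N g) {A : F →L[ℝ] G} {K : ℝ} (hA : ‖A‖ ≤ K) :
    CB J (K * N) (fun x => A (g x)) :=
  (hg.clm A).mono (mul_le_mul_of_nonneg_right hA hg.nonneg)

/-- scalar function times a fixed vector -/
lemma CB.smul_vec {g : X → ℝ} (hg : CB J N g) (v : F) : CB J (N * ‖v‖) (fun x => g x • v) := by
  have := hg.clm ((ContinuousLinearMap.id ℝ ℝ).smulRight v)
  refine (CB.mono (N' := N * ‖v‖) this ?_)
  rw [ContinuousLinearMap.norm_smulRight_apply]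
  have : ‖ContinuousLinearMap.id ℝ ℝ‖ ≤ 1 := ContinuousLinearMap.norm_id_le
  nlinarith only [this, mul_nonneg hg.nonneg (norm_nonneg v)]

lemma CB.inner_vec {E : Type*} [NormedAddCommGroup E] [InnerProductSpace ℝ E] {g : X → E}
    (hg : CB J N g) (v : E) : CB J (‖v‖ * N) (fun x => ⟪v, g x⟫_ℝ) := by
  have := hg.clm (innerSL ℝ v)
  rw [innerSL_apply_norm] at this
  simpa using this

lemma norm_itF_comp_aff (j : ℕ) {g : X → F} (hg : ContDiff ℝ j g) (A : Y →L[ℝ] X) (a : X) (y : Y) :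
    ‖iteratedFDeriv ℝ j (fun y => g (A y + a)) y‖ ≤
      ‖iteratedFDeriv ℝ j g (A y + a)‖ * ‖A‖ ^ j := by
  have h1 : ContDiff ℝ j (fun x => g (x + a)) := hg.comp (contDiff_id.add contDiff_const)
  have h2 := A.iteratedFDeriv_comp_right (f := fun x => g (x + a)) h1 y (i := j) le_rfl
  have e : (fun y => g (A y + a)) = (fun x => g (x + a)) ∘ A := rfl
  rw [e, h2, iteratedFDeriv_comp_add_right]
  refine (ContinuousMultilinearMap.norm_compContinuousLinearMap_le _ _).trans ?_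
  simp

lemma CB.comp_aff_le {g : X → F} (hg : CB J N g) (A : Y →L[ℝ] X) {K : ℝ} (hK : 1 ≤ K)
    (hA : ‖A‖ ≤ K) (a : X) : CB J (K ^ J * N) (fun y => g (A y + a)) := by
  refine ⟨hg.smooth.comp (A.contDiff.add contDiff_const), fun j hj y => ?_⟩
  refine (norm_itF_comp_aff j (hg.smooth.of_le (by exact_mod_cast hj)) A a y).trans ?_
  have h1 := hg.bd j hj (A y + a)
  have h2 : ‖A‖ ^ j ≤ K ^ J :=
    (pow_le_pow_left₀ (norm_nonneg _) hA j).trans (pow_le_pow_right₀ hK hj)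
  calc _ ≤ N * K ^ J := mul_le_mul h1 h2 (by positivity) hg.nonneg
    _ = _ := mul_comm _ _

lemma CB.comp_aff {g : X → F} (hg : CB J N g) (A : Y →L[ℝ] X) (hA : ‖A‖ ≤ 1) (a : X) :
    CB J N (fun y => g (A y + a)) := by
  simpa using hg.comp_aff_le A le_rfl hA a

lemma CB.comp_clm {g : X → F} (hg : CB J N g) (A : Y →L[ℝ] X) (hA : ‖A‖ ≤ 1) :
    CB J N (fun y => g (A y)) := by
  simpa using hg.comp_aff A hA 0

lemma CB.comp_neg {g : X → F} (hg : CB J N g) : CB J N (fun y => g (-y)) := by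
  have := hg.comp_clm (-ContinuousLinearMap.id ℝ X) (by
    rw [norm_neg]; exact ContinuousLinearMap.norm_id_le)
  simpa using this

lemma CB.fderiv {g : X → F} (hg : CB (J + 1) N g) : CB J N (fun y => _root_.fderiv ℝ g y) := by
  refine ⟨hg.smooth.fderiv_right (by norm_cast), fun j hj x => ?_⟩
  rw [norm_iteratedFDeriv_fderiv]
  exact hg.bd (j + 1) (by omega) x

lemma CB.fderiv_apply {g : X → F} (hg : CB (J + 1) N g) (w : X) :
    CB J (‖w‖ * N) (fun y => _root_.fderiv ℝ g y w) := by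
  have := hg.fderiv.clm (ContinuousLinearMap.apply ℝ F w)
  refine CB.mono (N' := ‖w‖ * N) this (mul_le_mul_of_nonneg_right ?_ hg.nonneg)
  refine ContinuousLinearMap.opNorm_le_bound _ (norm_nonneg _) fun f => ?_
  rw [ContinuousLinearMap.apply_apply, mul_comm]
  exact f.le_opNorm w

/-- a smooth function with bounded derivatives on a compact set, and locally constant off it -/
lemma CB.of_compact {g : X → F} (hg : ContDiff ℝ J g) {K : Set X} (hK : IsCompact K)
    {M : ℝ} (hM : ∀ x ∉ K, ∃ c : F, ‖c‖ ≤ M ∧ ∀ᶠ y in nhds x, g y = c) :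
    ∃ N : ℝ, 0 < N ∧ CB J N g := by
  have h1 : ∀ j : ℕ, ∃ C : ℝ, 0 ≤ C ∧ (j ≤ J → ∀ x ∈ K, ‖iteratedFDeriv ℝ j g x‖ ≤ C) := by
    intro j
    by_cases hj : j ≤ J
    · have hc : Continuous (iteratedFDeriv ℝ j g) :=
        hg.continuous_iteratedFDeriv (by exact_mod_cast hj)
      obtain ⟨C, hC⟩ := hK.exists_bound_of_continuousOn hc.continuousOn
      exact ⟨max C 0, le_max_right _ _, fun _ x hx => (hC x hx).trans (le_max_left _ _)⟩
    · exact ⟨0, le_rfl, fun h => absurd h hj⟩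
  choose C hC0 hC using h1
  refine ⟨(∑ j ∈ Finset.range (J + 1), C j) + |M| + 1, ?_, hg, fun j hj x => ?_⟩
  · have : 0 ≤ ∑ j ∈ Finset.range (J + 1), C j := Finset.sum_nonneg fun j _ => hC0 j
    positivity
  · have hs : C j ≤ ∑ j ∈ Finset.range (J + 1), C j :=
      Finset.single_le_sum (fun i _ => hC0 i) (Finset.mem_range.2 (by omega))
    by_cases hx : x ∈ K
    · have := hC j hj x hx
      linarith [abs_nonneg M]
    · obtain ⟨c, hc, hev⟩ := hM x hx
      have he : iteratedFDeriv ℝ j g x = iteratedFDeriv ℝ j (fun _ : X => c) x :=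
        (Filter.EventuallyEq.iteratedFDeriv (𝕜 := ℝ) hev j).self_of_nhds
      rw [he]
      have h2 := (CB.const (X := X) (J := J) c).bd j hj x
      have h3 : 0 ≤ ∑ j ∈ Finset.range (J + 1), C j := Finset.sum_nonneg fun j _ => hC0 j
      have h4 := le_abs_self M
      linarith

lemma CB.of_compactSupport {g : X → F} (hg : ContDiff ℝ J g) (hc : HasCompactSupport g) :
    ∃ N : ℝ, 0 < N ∧ CB J N g := by
  refine CB.of_compact hg hc (M := 0) fun x hx => ⟨0, by simp, ?_⟩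
  exact (notMem_tsupport_iff_eventuallyEq.1 hx)

end Gen

section Fixed

variable {d : ℕ}

lemma _root_.TG.TFn.cb {F : Type*} [NormedAddCommGroup F] [NormedSpace ℝ F] {J : ℕ} {N : ℝ} {g : Sp d → F}
    (h : TFn J N g) : CB J N g := ⟨h.smooth, h.bd⟩

lemma CB.tfn {F : Type*} [NormedAddCommGroup F] [NormedSpace ℝ F] {J : ℕ} {N : ℝ} {g : Sp d → F}
    (h : CB J N g) : TFn J N g := ⟨h.smooth, h.bd⟩

lemma st_cb (J : ℕ) : ∃ N : ℝ, 0 < N ∧ CB J N Real.smoothTransition := by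
  refine CB.of_compact (Real.smoothTransition.contDiff) (isCompact_Icc (a := (0 : ℝ)) (b := 1))
    (M := 1) fun x hx => ?_
  rcases lt_or_ge x 0 with h | h
  · refine ⟨0, by simp, ?_⟩
    filter_upwards [Iio_mem_nhds h] with y hy
    exact Real.smoothTransition.zero_of_nonpos (le_of_lt hy)
  · have h1 : 1 < x := by
      by_contra hcon
      exact hx ⟨h, not_lt.1 hcon⟩
    refine ⟨1, by simp, ?_⟩
    filter_upwards [Ioi_mem_nhds h1] with y hy
    exact Real.smoothTransition.one_of_one_le (le_of_lt hy)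

lemma cu1_eq {ρ : ℝ} (hρ : 0 ≤ ρ) (z : ℝ) :
    cu1 ρ z = Real.smoothTransition (ρ + 1 - z) * Real.smoothTransition (ρ + 1 + z) := by
  unfold cu1
  rcases le_total 0 z with h | h
  · rw [abs_of_nonneg h, Real.smoothTransition.one_of_one_le (x := ρ + 1 + z) (by linarith),
      mul_one]
  · rw [abs_of_nonpos h, Real.smoothTransition.one_of_one_le (x := ρ + 1 - z) (by linarith),
      one_mul, sub_neg_eq_add]

/-- cu1 ρ, uniformly in ρ ≥ 0 -/
lemma cu1_cb (J : ℕ) : ∃ N : ℝ, 0 < N ∧ ∀ ρ : ℝ, 0 ≤ ρ → CB J N (cu1 ρ) := by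
  obtain ⟨N, hN, h⟩ := st_cb J
  refine ⟨2 ^ J * N * N, by positivity, fun ρ hρ => ?_⟩
  have e : cu1 ρ = fun z => Real.smoothTransition (ρ + 1 - z) * Real.smoothTransition (ρ + 1 + z) :=
    funext fun z => cu1_eq hρ z
  rw [e]
  have h1 := h.comp_aff (-ContinuousLinearMap.id ℝ ℝ)
    (by rw [norm_neg]; exact ContinuousLinearMap.norm_id_le) (ρ + 1)
  have h2 := h.comp_aff (ContinuousLinearMap.id ℝ ℝ) ContinuousLinearMap.norm_id_le (ρ + 1)
  have := h1.mul h2
  refine (congrArg (CB J _) ?_).mp this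
  funext z
  simp only [neg_apply, ContinuousLinearMap.id_apply]
  congr 2 <;> ring

lemma cu1_nonneg (ρ z : ℝ) : 0 ≤ cu1 ρ z := Real.smoothTransition.nonneg _
lemma cu1_le_one (ρ z : ℝ) : cu1 ρ z ≤ 1 := Real.smoothTransition.le_one _
lemma cu1_one {ρ z : ℝ} (h : |z| ≤ ρ) : cu1 ρ z = 1 :=
  Real.smoothTransition.one_of_one_le (by linarith)
lemma cu1_zero {ρ z : ℝ} (h : ρ + 1 ≤ |z|) : cu1 ρ z = 0 :=
  Real.smoothTransition.zero_of_nonpos (by linarith)

lemma zR_nonneg (R : ℝ) (x : Sp d) : 0 ≤ zR R x := Real.smoothTransition.nonneg _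
lemma zR_le_one (R : ℝ) (x : Sp d) : zR R x ≤ 1 := Real.smoothTransition.le_one _
lemma zR_one {R : ℝ} {x : Sp d} (h : ‖x‖ ≤ R) : zR R x = 1 :=
  Real.smoothTransition.one_of_one_le (by linarith)
lemma zR_zero {R : ℝ} {x : Sp d} (h : R + 1 ≤ ‖x‖) : zR R x = 0 :=
  Real.smoothTransition.zero_of_nonpos (by linarith)

lemma zR_contDiff {R : ℝ} (hR : 0 < R) {n : ℕ∞ω} (hn : n ≤ ∞) : ContDiff ℝ n (zR R : Sp d → ℝ) := by
  refine ContDiff.of_le ?_ hn
  rw [contDiff_iff_contDiffAt]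
  intro x
  by_cases hx : x = 0
  · have : ∀ᶠ y in nhds x, zR R y = 1 := by
      have hb : ball (0 : Sp d) R ∈ nhds x := by
        rw [hx]; exact ball_mem_nhds _ hR
      filter_upwards [hb] with y hy
      rw [mem_ball_zero_iff] at hy
      exact zR_one hy.le
    exact (contDiffAt_const (c := (1 : ℝ))).congr_of_eventuallyEq this
  · have h1 : ContDiffAt ℝ ∞ (fun y : Sp d => R + 1 - ‖y‖) x :=
      contDiffAt_const.sub (contDiffAt_norm ℝ hx)
    exact (Real.smoothTransition.contDiff (n := ⊤)).contDiffAt.comp x h1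

lemma zR_cs (R : ℝ) : HasCompactSupport (zR R : Sp d → ℝ) := by
  refine HasCompactSupport.intro (isCompact_closedBall (0 : Sp d) (R + 1)) fun x hx => ?_
  rw [mem_closedBall, dist_zero_right, not_le] at hx
  exact zR_zero hx.le

lemma zR_cb (d J : ℕ) {R : ℝ} (hR : 0 < R) : ∃ N : ℝ, 0 < N ∧ CB J N (zR R : Sp d → ℝ) :=
  CB.of_compactSupport (zR_contDiff hR (by exact_mod_cast le_top)) (zR_cs R)

/-- the tangential projection as a linear map -/
def tangL (ν : Sp d) : Sp d →L[ℝ] Sp d :=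
  ContinuousLinearMap.id ℝ (Sp d) - (innerSL ℝ ν).smulRight ν

lemma tangL_apply (ν y : Sp d) : tangL ν y = tang ν y := by
  simp [tangL, tang]

lemma tang_inner {ν : Sp d} (hν : ‖ν‖ = 1) (y : Sp d) : ⟪ν, tang ν y⟫_ℝ = 0 := by
  unfold tang
  rw [inner_sub_right, inner_smul_right, real_inner_self_eq_norm_sq, hν]
  ring

lemma norm_sq_tang {ν : Sp d} (hν : ‖ν‖ = 1) (y : Sp d) :
    ‖y‖ ^ 2 = ‖tang ν y‖ ^ 2 + ⟪ν, y⟫_ℝ ^ 2 := by
  have e : y = tang ν y + ⟪ν, y⟫_ℝ • ν := by unfold tang; abel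
  conv_lhs => rw [e]
  rw [norm_add_sq_real, inner_smul_right, real_inner_comm ν (tang ν y), tang_inner hν,
    norm_smul, hν, Real.norm_eq_abs, mul_one, sq_abs]
  ring

lemma norm_tang_le {ν : Sp d} (hν : ‖ν‖ = 1) (y : Sp d) : ‖tang ν y‖ ≤ ‖y‖ := by
  have := norm_sq_tang hν y
  exact abs_le_of_sq_le_sq' (by linarith only [this, sq_nonneg ⟪ν, y⟫_ℝ]) (norm_nonneg _) |>.2

lemma norm_le_tang {ν : Sp d} (hν : ‖ν‖ = 1) (y : Sp d) : ‖y‖ ≤ ‖tang ν y‖ + |⟪ν, y⟫_ℝ| := by
  have h : y = tang ν y + ⟪ν, y⟫_ℝ • ν := by unfold tang; abel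
  calc ‖y‖ = ‖tang ν y + ⟪ν, y⟫_ℝ • ν‖ := by rw [← h]
    _ ≤ ‖tang ν y‖ + ‖⟪ν, y⟫_ℝ • ν‖ := norm_add_le _ _
    _ = _ := by rw [norm_smul, hν, mul_one, Real.norm_eq_abs]

lemma norm_tangL_le {ν : Sp d} (hν : ‖ν‖ = 1) : ‖tangL ν‖ ≤ 1 :=
  ContinuousLinearMap.opNorm_le_bound _ zero_le_one fun y => by
    rw [tangL_apply, one_mul]; exact norm_tang_le hν y

lemma tang_tang {ν : Sp d} (hν : ‖ν‖ = 1) (y : Sp d) : tang ν (tang ν y) = tang ν y := by
  have : tang ν (tang ν y) = tang ν y - ⟪ν, tang ν y⟫_ℝ • ν := rfl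
  rw [this, tang_inner hν, zero_smul, sub_zero]

lemma tang_add (ν y z : Sp d) : tang ν (y + z) = tang ν y + tang ν z := by
  rw [← tangL_apply, ← tangL_apply, ← tangL_apply, map_add]

lemma tang_sub (ν y z : Sp d) : tang ν (y - z) = tang ν y - tang ν z := by
  rw [← tangL_apply, ← tangL_apply, ← tangL_apply, map_sub]

lemma tang_smul' (ν y : Sp d) (c : ℝ) : tang ν (c • y) = c • tang ν y := by
  rw [← tangL_apply, ← tangL_apply, map_smul]

lemma tang_self {ν : Sp d} (hν : ‖ν‖ = 1) : tang ν ν = 0 := by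
  unfold tang
  rw [real_inner_self_eq_norm_sq, hν]
  simp

lemma tang_of_inner {ν : Sp d} {y : Sp d} (h : ⟪ν, y⟫_ℝ = 0) : tang ν y = y := by
  unfold tang; rw [h]; simp

/-- composition with ht: the height over the plane -/
lemma CB.comp_ht {F : Type*} [NormedAddCommGroup F] [NormedSpace ℝ F] {J : ℕ} {N : ℝ} {g : ℝ → F}
    (hg : CB J N g) {ν : Sp d} (hν : ‖ν‖ ≤ 1) (c : ℝ) : CB J N (fun y => g (ht ν c y)) := by
  have := hg.comp_aff (innerSL ℝ ν) (by rw [innerSL_apply_norm]; exact hν) (-c)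
  simpa [ht, sub_eq_add_neg] using this

lemma CB.comp_tang {F : Type*} [NormedAddCommGroup F] [NormedSpace ℝ F] {J : ℕ} {N : ℝ}
    {g : Sp d → F} (hg : CB J N g) {ν : Sp d} (hν : ‖ν‖ = 1) : CB J N (fun y => g (tang ν y)) := by
  have := hg.comp_clm (tangL ν) (norm_tangL_le hν)
  simpa [tangL_apply] using this

/-- the height times a cut-off -/
lemma htz_cb (d J : ℕ) {R : ℝ} (hR : 0 < R) (K : ℝ) : ∃ N : ℝ, 0 < N ∧ ∀ (ν : Sp d) (c : ℝ),
    ‖ν‖ ≤ 1 → |c| ≤ K → CB J N (fun y => ht ν c y * zR R y) := by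
  have h1 : ∃ N : ℝ, 0 < N ∧ CB J N (fun y : Sp d => zR R y • y) := by
    refine CB.of_compactSupport ((zR_contDiff hR (by exact_mod_cast le_top)).smul contDiff_id) ?_
    exact (zR_cs R).smul_right
  obtain ⟨N1, hN1, h1⟩ := h1
  obtain ⟨N2, hN2, h2⟩ := zR_cb d J hR
  refine ⟨N1 + |K| * N2 + 1, by positivity, fun ν c hν hc => ?_⟩
  have h3 := (h1.inner_vec ν).sub (h2.const_mul c)
  refine CB.mono (N := ‖ν‖ * N1 + |c| * N2) ?_ ?_
  · refine (congrArg (CB J _) ?_).mp h3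
    funext y
    simp only [ht, inner_smul_right]
    ring
  · have : |c| ≤ |K| := hc.trans (le_abs_self K)
    nlinarith [norm_nonneg ν]

/-- the square of the height times a cut-off -/
lemma ht2z_cb (d J : ℕ) {R : ℝ} (hR : 0 < R) (K : ℝ) : ∃ N : ℝ, 0 < N ∧ ∀ (ν : Sp d) (c : ℝ),
    ‖ν‖ ≤ 1 → |c| ≤ K → CB J N (fun y => zR R y * ht ν c y ^ 2) := by
  obtain ⟨N1, hN1, h1⟩ := htz_cb d J (R := R + 1) (by linarith) K
  obtain ⟨N2, hN2, h2⟩ := zR_cb d J hR
  refine ⟨2 ^ J * N2 * (2 ^ J * N1 * N1), by positivity, fun ν c hν hc => ?_⟩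
  have h3 := h2.mul ((h1 ν c hν hc).mul (h1 ν c hν hc))
  refine (congrArg (CB J _) ?_).mp h3
  funext y
  by_cases hy : ‖y‖ ≤ R + 1
  · rw [zR_one hy]; ring
  · rw [zR_zero (R := R) (by linarith)]; ring

end Fixed

/-! ## Scaled versions of Lemma Z, MA, and integrability -/

section Sc

variable {d : ℕ} {E : Type} [NormedAddCommGroup E] [InnerProductSpace ℝ E]

lemma fo_cont {V : Type} [NormedAddCommGroup V] [InnerProductSpace ℝ V] [FiniteDimensional ℝ V]
    [FiniteDimensional ℝ E] (L : (Sp d →L[ℝ] V) →L[ℝ] E) {u : Sp d → V} (hu : TF u) :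
    Continuous (fo L u) :=
  L.continuous.comp (hu.smooth.continuous_fderiv (by simp))

lemma fo_cs {V : Type} [NormedAddCommGroup V] [InnerProductSpace ℝ V] [FiniteDimensional ℝ V]
    [FiniteDimensional ℝ E] (L : (Sp d →L[ℝ] V) →L[ℝ] E) {u : Sp d → V} (hu : TF u) :
    HasCompactSupport (fo L u) := by
  have := (hu.supp.fderiv (𝕜 := ℝ)).comp_left (g := L) (map_zero L)
  exact this

lemma int_test {f : Sp d → E} (hf : Continuous f) (hfs : HasCompactSupport f) (e : E)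
    {H : Sp d → ℝ} (hH : Continuous H) : Integrable (fun y => ⟪f y, e⟫_ℝ * H y) := by
  refine Continuous.integrable_of_hasCompactSupport (by fun_prop) ?_
  refine HasCompactSupport.mul_right ?_
  exact hfs.comp_left (g := fun v => ⟪v, e⟫_ℝ) (by simp)

/-- Lemma Z for test functions of size N -/
def StmtZs : Prop :=
  ∀ (d : ℕ), 1 ≤ d → ∀ (M c ε : ℝ), 0 < ε → ε ≤ 1 →
    ∀ (b : Sp d → ℝ), BaseKer 2 M c b → ∃ C : ℝ, 0 < C ∧
    ∀ (E : Type) [NormedAddCommGroup E] [InnerProductSpace ℝ E] [FiniteDimensional ℝ E],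
    ∀ f : Sp d → E, Continuous f → HasCompactSupport f → ∀ (R : ℝ), 3 ≤ R → ∀ (n : ℕ) (e : E),
    ‖e‖ = 1 → ∀ (x : Sp d) (H : Sp d → ℝ) (N : ℝ), CB 2 N H → (∀ y, 0 ≤ H y) →
      (∀ y, R - 2 ≤ ‖y - x‖ → H y = 0) →
      -(C * N * DD b ε R ((1 / 2) ^ n) f n x e) ≤ ∫ y, ⟪f y, e⟫_ℝ * H y

theorem stmtZs : StmtZs := by
  intro d hd M c ε hε hε1 b hb
  obtain ⟨C, hC, h⟩ := stmtZ d hd M c ε hε hε1 b hb
  refine ⟨C, hC, ?_⟩
  intro E _ _ _ f hf hfs R hR n e he x H N hN h0 hs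
  rcases eq_or_lt_of_le hN.nonneg with hN0 | hN0
  · have : ∀ y, H y = 0 := fun y => by
      have := hN.norm_le y
      rw [← hN0] at this
      exact norm_le_zero_iff.1 this
    simp [this, ← hN0]
  · have h1 := h E f hf hfs R hR n e he x (fun y => N⁻¹ * H y)
      (contDiff_const.mul hN.smooth) (fun y => mul_nonneg (by positivity) (h0 y))
      (fun y => ?_) (fun y => ?_) (fun y hy => by rw [hs y hy, mul_zero])
    · have e1 : (∫ y, ⟪f y, e⟫_ℝ * (N⁻¹ * H y)) = N⁻¹ * ∫ y, ⟪f y, e⟫_ℝ * H y := by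
        rw [← integral_const_mul]
        congr 1; ext y; ring
      rw [e1] at h1
      have h2 := mul_le_mul_of_nonneg_left h1 hN0.le
      rw [← mul_assoc N N⁻¹, mul_inv_cancel₀ hN0.ne', one_mul] at h2
      refine le_trans (le_of_eq ?_) h2
      ring
    · have := hN.norm_le y
      rw [Real.norm_eq_abs] at this
      have h3 := le_abs_self (H y)
      rw [inv_mul_le_iff₀ hN0]; linarith
    · have h3 := (hN.const_mul N⁻¹).bd 2 le_rfl y
      rw [abs_of_pos (by positivity), inv_mul_cancel₀ hN0.ne'] at h3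
      exact h3

/-- MA part 1 for test functions of size N -/
def StmtMAs : Prop :=
  ∀ (d : ℕ), 1 ≤ d → ∀ (M c ε : ℝ), 0 < ε → ε ≤ 1 →
    ∀ (b : Sp d → ℝ), BaseKer 2 M c b → ∃ C : ℝ, 0 < C ∧
    ∀ (E : Type) [NormedAddCommGroup E] [InnerProductSpace ℝ E] [FiniteDimensional ℝ E],
    ∀ f : Sp d → E, Continuous f → HasCompactSupport f → ∀ (R : ℝ), 5 ≤ R → ∀ (n : ℕ) (e : E),
    ‖e‖ = 1 → ∀ (x : Sp d) (S : Set (Sp d)), MeasurableSet S →
      ∀ (ζ : Sp d → ℝ) (N : ℝ), CB 2 N ζ → (∀ y, R - 2 ≤ ‖y - x‖ → ζ y = 0) →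
        (∀ y z, ζ y ≠ 0 → ‖z - y‖ ≤ 1 → z ∈ S) →
        |∫ y, ⟪f y, e⟫_ℝ * ζ y| ≤ C * N * ((∫ y in S, ‖fl b ε ((1 / 2) ^ n) f (n - 1) y‖) +
            DD b ε R ((1 / 2) ^ n) f n x e)

theorem stmtMAs : StmtMAs := by
  intro d hd M c ε hε hε1 b hb
  obtain ⟨C, hC, h⟩ := stmtMA stmtZ d hd M c ε hε hε1 b hb
  refine ⟨C, hC, ?_⟩
  intro E _ _ _ f hf hfs R hR n e he x S hS ζ N hN hs hS'
  rcases eq_or_lt_of_le hN.nonneg with hN0 | hN0
  · have : ∀ y, ζ y = 0 := fun y => by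
      have := hN.norm_le y
      rw [← hN0] at this
      exact norm_le_zero_iff.1 this
    simp [this, ← hN0]
  · have h1 := (h E f hf hfs R hR n e he x S hS).1 (fun y => N⁻¹ * ζ y)
      (contDiff_const.mul hN.smooth) (fun y => ?_) (fun y => ?_)
      (fun y hy => by rw [hs y hy, mul_zero]) (fun y z hy hz => hS' y z (right_ne_zero_of_mul hy) hz)
    · have e1 : (∫ y, ⟪f y, e⟫_ℝ * (N⁻¹ * ζ y)) = N⁻¹ * ∫ y, ⟪f y, e⟫_ℝ * ζ y := by
        rw [← integral_const_mul]
        congr 1; ext y; ring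
      rw [e1, abs_mul, abs_of_pos (by positivity : (0 : ℝ) < N⁻¹), inv_mul_le_iff₀ hN0] at h1
      refine h1.trans (le_of_eq ?_)
      ring
    · have h3 := (hN.const_mul N⁻¹).abs_le y
      rw [abs_of_pos (by positivity : (0 : ℝ) < N⁻¹), inv_mul_cancel₀ hN0.ne'] at h3
      exact h3
    · have h3 := (hN.const_mul N⁻¹).bd 2 le_rfl y
      rw [abs_of_pos (by positivity), inv_mul_cancel₀ hN0.ne'] at h3
      exact h3

end Sc

end

end TC

end TG


end

section

/-!
# Trace inequality: toolkit of test functions (helper57, interface by helper42)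

Built on TFc.lean (helper74) and TFU.lean.  New: the bounds for zR are uniform in the radius.
-/

set_option autoImplicit false

open MeasureTheory Metric Set TrI
open scoped InnerProductSpace ContDiff

namespace TG

noncomputable section

variable {d : ℕ}

section

variable {F : Type*} [NormedAddCommGroup F] [NormedSpace ℝ F]

lemma TFn.mono {J : ℕ} {N N' : ℝ} {ζ : Sp d → F} (h : TFn J N ζ) (hN : N ≤ N') :
    TFn J N' ζ := ⟨h.smooth, fun j hj x => (h.bd j hj x).trans hN⟩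

lemma TFn.add {J : ℕ} {N N' : ℝ} {ζ ζ' : Sp d → F} (h : TFn J N ζ) (h' : TFn J N' ζ') :
    TFn J (N + N') (fun y => ζ y + ζ' y) := (h.cb.add h'.cb).tfn

lemma TFn.sub {J : ℕ} {N N' : ℝ} {ζ ζ' : Sp d → F} (h : TFn J N ζ) (h' : TFn J N' ζ') :
    TFn J (N + N') (fun y => ζ y - ζ' y) := (h.cb.sub h'.cb).tfn

lemma TFn.comp_aff {J : ℕ} {N : ℝ} {ζ : Sp d → F} (h : TFn J N ζ) (x : Sp d) (t : ℝ) {T : ℝ}
    (hT : 1 ≤ T) (ht : |t| ≤ T) : TFn J (T ^ J * N) (fun y => ζ (x + t • y)) := by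
  have h1 := h.cb.comp_aff_le (t • ContinuousLinearMap.id ℝ (Sp d)) hT (by
    rw [norm_smul, Real.norm_eq_abs]
    calc |t| * ‖ContinuousLinearMap.id ℝ (Sp d)‖ ≤ |t| * 1 :=
          mul_le_mul_of_nonneg_left ContinuousLinearMap.norm_id_le (abs_nonneg t)
      _ ≤ T := by rw [mul_one]; exact ht) x
  refine (congrArg (TFn J _) ?_).mp h1.tfn
  funext y
  simp [add_comm]

end

lemma TFn.const_mul {J : ℕ} {N : ℝ} {ζ : Sp d → ℝ} (h : TFn J N ζ) (c : ℝ) :
    TFn J (|c| * N) (fun y => c * ζ y) := (h.cb.const_mul c).tfn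

lemma TFn.mul {J : ℕ} {N N' : ℝ} {ζ ζ' : Sp d → ℝ} (h : TFn J N ζ) (h' : TFn J N' ζ') :
    TFn J (2 ^ J * N * N') (fun y => ζ y * ζ' y) := (h.cb.mul h'.cb).tfn

lemma zR_nonneg (ρ : ℝ) (y : Sp d) : 0 ≤ zR ρ y := Real.smoothTransition.nonneg _

lemma zR_le_one (ρ : ℝ) (y : Sp d) : zR ρ y ≤ 1 := Real.smoothTransition.le_one _

lemma zR_eq_one {ρ : ℝ} {y : Sp d} (h : ‖y‖ ≤ ρ) : zR ρ y = 1 :=
  Real.smoothTransition.one_of_one_le (by linarith)

lemma zR_eq_zero {ρ : ℝ} {y : Sp d} (h : ρ + 1 ≤ ‖y‖) : zR ρ y = 0 :=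
  Real.smoothTransition.zero_of_nonpos (by linarith)

lemma cu1_nonneg (ρ z : ℝ) : 0 ≤ cu1 ρ z := Real.smoothTransition.nonneg _

lemma cu1_le_one (ρ z : ℝ) : cu1 ρ z ≤ 1 := Real.smoothTransition.le_one _

lemma cu1_eq_one {ρ z : ℝ} (h : |z| ≤ ρ) : cu1 ρ z = 1 :=
  Real.smoothTransition.one_of_one_le (by linarith)

lemma cu1_eq_zero {ρ z : ℝ} (h : ρ + 1 ≤ |z|) : cu1 ρ z = 0 :=
  Real.smoothTransition.zero_of_nonpos (by linarith)

/-- the norm is smooth off the origin -/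
lemma norm_contDiffOn (d : ℕ) : ContDiffOn ℝ ∞ (fun y : Sp d => ‖y‖) {y | y ≠ 0} :=
  fun _ hy => (contDiffAt_norm ℝ hy).contDiffWithinAt

/-- derivatives of the norm off the unit ball -/
lemma norm_bd (d J : ℕ) : ∃ K : ℝ, 1 ≤ K ∧ ∀ y : Sp d, 1 ≤ ‖y‖ → ∀ j, 1 ≤ j → j ≤ J →
    ‖iteratedFDeriv ℝ j (fun y : Sp d => ‖y‖) y‖ ≤ K := by
  have ho : IsOpen {y : Sp d | y ≠ 0} := isOpen_ne
  have h1 : ∀ j : ℕ, ∃ C : ℝ, 0 ≤ C ∧ ∀ x ∈ sphere (0 : Sp d) 1,
      ‖iteratedFDeriv ℝ j (fun y : Sp d => ‖y‖) x‖ ≤ C := by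
    intro j
    have hc : ContinuousOn (iteratedFDeriv ℝ j (fun y : Sp d => ‖y‖)) {y | y ≠ 0} := by
      have h2 := (norm_contDiffOn d).continuousOn_iteratedFDerivWithin (m := j)
        (by exact_mod_cast le_top) ho.uniqueDiffOn
      exact h2.congr fun y hy => (iteratedFDerivWithin_of_isOpen j ho hy).symm
    have hs : sphere (0 : Sp d) 1 ⊆ {y | y ≠ 0} := by
      intro y hy h0
      rw [mem_sphere_zero_iff_norm] at hy
      rw [h0, norm_zero] at hy
      exact zero_ne_one hy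
    obtain ⟨C, hC⟩ := (isCompact_sphere (0 : Sp d) 1).exists_bound_of_continuousOn (hc.mono hs)
    exact ⟨max C 0, le_max_right _ _, fun x hx => (hC x hx).trans (le_max_left _ _)⟩
  choose C hC0 hC using h1
  refine ⟨(∑ j ∈ Finset.range (J + 1), C j) + 1, ?_, fun y hy j hj1 hj => ?_⟩
  · have : 0 ≤ ∑ j ∈ Finset.range (J + 1), C j := Finset.sum_nonneg fun j _ => hC0 j
    linarith
  · have hy0 : 0 < ‖y‖ := by linarith
    have hs : C j ≤ ∑ j ∈ Finset.range (J + 1), C j :=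
      Finset.single_le_sum (fun i _ => hC0 i) (Finset.mem_range.2 (by omega))
    have e : (fun w : Sp d => ‖w‖) = fun w => ‖y‖ • ‖(0 : Sp d) + ‖y‖⁻¹ • w‖ := by
      funext w
      rw [zero_add, norm_smul, norm_inv, norm_norm, smul_eq_mul]
      field_simp
    have hd1 : ContDiffAt ℝ j (fun w : Sp d => ‖(0 : Sp d) + ‖y‖⁻¹ • w‖) y := by
      have hne : (0 : Sp d) + ‖y‖⁻¹ • y ≠ 0 := by
        rw [zero_add]
        refine smul_ne_zero (inv_ne_zero hy0.ne') ?_
        exact norm_pos_iff.1 hy0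
      have h3 : ContDiffAt ℝ j (fun w : Sp d => (0 : Sp d) + ‖y‖⁻¹ • w) y := by fun_prop
      exact (contDiffAt_norm ℝ hne).comp y h3
    rw [e, iteratedFDeriv_const_smul_apply' hd1, norm_smul, norm_norm,
      TU.itF_aff_norm j (fun w : Sp d => ‖w‖) 0 ‖y‖⁻¹ (inv_ne_zero hy0.ne') y, zero_add]
    have hsph : ‖y‖⁻¹ • y ∈ sphere (0 : Sp d) 1 := by
      rw [mem_sphere_zero_iff_norm, norm_smul, norm_inv, norm_norm]
      field_simp
    have h4 := hC j _ hsph
    have h5 : |‖y‖⁻¹| ^ j ≤ ‖y‖⁻¹ := by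
      rw [abs_of_pos (inv_pos.2 hy0)]
      calc ‖y‖⁻¹ ^ j ≤ ‖y‖⁻¹ ^ 1 :=
            pow_le_pow_of_le_one (inv_nonneg.2 hy0.le) (inv_le_one_of_one_le₀ hy) hj1
        _ = ‖y‖⁻¹ := pow_one _
    calc ‖y‖ * (|‖y‖⁻¹| ^ j * ‖iteratedFDeriv ℝ j (fun w : Sp d => ‖w‖) (‖y‖⁻¹ • y)‖)
        ≤ ‖y‖ * (‖y‖⁻¹ * C j) := by
          refine mul_le_mul_of_nonneg_left ?_ hy0.le
          exact mul_le_mul h5 h4 (norm_nonneg _) (inv_nonneg.2 hy0.le)
      _ = C j := by field_simp
      _ ≤ _ := by linarith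

lemma exists_TFn_zR (d J : ℕ) : ∃ C : ℝ, 0 < C ∧ ∀ ρ : ℝ, 1 ≤ ρ →
    TFn J C (zR ρ : Sp d → ℝ) := by
  obtain ⟨N, hN, hst⟩ := TC.st_cb J
  obtain ⟨K, hK1, hK⟩ := norm_bd d J
  refine ⟨max 1 (J.factorial * N * K ^ J), by positivity, fun ρ hρ => ?_⟩
  refine ⟨TC.zR_contDiff (by linarith) (by exact_mod_cast le_top), fun j hj y => ?_⟩
  rcases lt_or_ge ‖y‖ 1 with hy | hy
  · have he : (zR ρ : Sp d → ℝ) =ᶠ[nhds y] fun _ => 1 := by
      have : {w : Sp d | ‖w‖ < 1} ∈ nhds y :=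
        (isOpen_lt continuous_norm continuous_const).mem_nhds hy
      filter_upwards [this] with w hw
      exact zR_eq_one (le_of_lt (lt_of_lt_of_le hw hρ))
    have he2 : iteratedFDeriv ℝ j (zR ρ : Sp d → ℝ) y = iteratedFDeriv ℝ j (fun _ => (1 : ℝ)) y :=
      (Filter.EventuallyEq.iteratedFDeriv (𝕜 := ℝ) he j).self_of_nhds
    rw [he2]
    have h3 := (TC.CB.const (X := Sp d) (J := J) (1 : ℝ)).bd j hj y
    rw [norm_one] at h3
    exact h3.trans (le_max_left _ _)
  · -- composition with the norm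
    have ho : IsOpen {y : Sp d | y ≠ 0} := isOpen_ne
    have hy0 : y ∈ {y : Sp d | y ≠ 0} := by
      intro h0
      rw [h0, norm_zero] at hy
      linarith
    set g : ℝ → ℝ := fun r => Real.smoothTransition ((-ContinuousLinearMap.id ℝ ℝ) r + (ρ + 1))
      with hg
    have hgcb : TC.CB J N g := hst.comp_aff (-ContinuousLinearMap.id ℝ ℝ) (by
      rw [norm_neg]; exact ContinuousLinearMap.norm_id_le) (ρ + 1)
    have hgs : ContDiff ℝ ∞ g := by
      have : ContDiff ℝ ∞ Real.smoothTransition := Real.smoothTransition.contDiff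
      exact this.comp (by fun_prop)
    have e : (zR ρ : Sp d → ℝ) = g ∘ fun y : Sp d => ‖y‖ := by
      funext w
      simp only [hg, zR, Function.comp_apply]
      congr 1
      simp only [_root_.neg_apply, ContinuousLinearMap.coe_id', id_eq]
      ring
    have h1 := norm_iteratedFDerivWithin_comp_le (𝕜 := ℝ) (g := g) (f := fun y : Sp d => ‖y‖)
      (n := j) (s := {y : Sp d | y ≠ 0}) (t := univ) (x := y) (N := ∞) hgs.contDiffOn
      (norm_contDiffOn d) (by exact_mod_cast le_top) uniqueDiffOn_univ ho.uniqueDiffOn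
      (mapsTo_univ _ _) hy0 (C := N) (D := K)
      (fun i hi => by rw [iteratedFDerivWithin_univ]; exact hgcb.bd i (hi.trans hj) _)
      (fun i hi1 hi => by
        rw [iteratedFDerivWithin_of_isOpen i ho hy0]
        refine (hK y hy i hi1 (hi.trans hj)).trans ?_
        calc K = K ^ 1 := (pow_one K).symm
          _ ≤ K ^ i := pow_le_pow_right₀ hK1 hi1)
    rw [iteratedFDerivWithin_of_isOpen j ho hy0, ← e] at h1
    refine h1.trans (le_trans ?_ (le_max_right _ _))
    have h2 : (j.factorial : ℝ) ≤ J.factorial := by exact_mod_cast Nat.factorial_le hj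
    have h3 : K ^ j ≤ K ^ J := pow_le_pow_right₀ hK1 hj
    have h4 : 0 ≤ K ^ j := by positivity
    exact mul_le_mul (mul_le_mul_of_nonneg_right h2 hN.le) h3 h4 (by positivity)

lemma exists_TFn_cu1 (d J : ℕ) : ∃ C : ℝ, 0 < C ∧ ∀ ρ : ℝ, 1 ≤ ρ → ∀ (ν : Sp d) (c : ℝ),
    ‖ν‖ = 1 → TFn J C (fun y => cu1 ρ (ht ν c y)) := by
  obtain ⟨N, hN, h⟩ := TC.cu1_cb J
  exact ⟨N, hN, fun ρ hρ ν c hν => ((h ρ (by linarith)).comp_ht hν.le c).tfn⟩

/-- cylindrical cut-off -/
lemma exists_TFn_cyl (d J : ℕ) : ∃ C : ℝ, 0 < C ∧ ∀ ρ : ℝ, 1 ≤ ρ → ∀ ν : Sp d, ‖ν‖ = 1 →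
    TFn J C (fun y => zR ρ (tang ν y)) ∧ Cyl ν (ρ + 1) (fun y => zR ρ (tang ν y)) := by
  obtain ⟨C, hC, h⟩ := exists_TFn_zR d J
  refine ⟨C, hC, fun ρ hρ ν hν => ⟨((h ρ hρ).cb.comp_tang hν).tfn, ?_, ?_⟩⟩
  · intro y
    simp only [TC.tang_tang hν]
  · intro y hy
    by_contra hcon
    exact hy (zR_eq_zero (le_of_lt (not_le.1 hcon)))

lemma exists_TFn_ht (d J : ℕ) (ρ A : ℝ) (hρ : 1 ≤ ρ) : ∃ C : ℝ, 0 < C ∧
    ∀ (ν : Sp d) (c : ℝ), ‖ν‖ = 1 → |c| ≤ A → TFn J C (fun y => zR ρ y * ht ν c y) := by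
  obtain ⟨N, hN, h⟩ := TC.htz_cb d J (R := ρ) (by linarith) A
  refine ⟨N, hN, fun ν c hν hc => ?_⟩
  have := (h ν c hν.le hc).tfn
  simpa only [mul_comm] using this

lemma exists_TFn_ht2 (d J : ℕ) (ρ A : ℝ) (hρ : 1 ≤ ρ) : ∃ C : ℝ, 0 < C ∧
    ∀ (ν : Sp d) (c : ℝ), ‖ν‖ = 1 → |c| ≤ A → TFn J C (fun y => zR ρ y * ht ν c y ^ 2) := by
  obtain ⟨N, hN, h⟩ := TC.ht2z_cb d J (R := ρ) (by linarith) A
  exact ⟨N, hN, fun ν c hν hc => (h ν c hν.le hc).tfn⟩

/-- Lemma Z for the comparison of two test functions -/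
lemma exists_Zc (hZ : StmtZ) {d : ℕ} (hd : 1 ≤ d) {M c ε : ℝ} (hε : 0 < ε) (hε1 : ε ≤ 1)
    {b : Sp d → ℝ} (hb : BaseKer 2 M c b) : ∃ C : ℝ, 0 < C ∧
    ∀ (E : Type) [NormedAddCommGroup E] [InnerProductSpace ℝ E] [FiniteDimensional ℝ E],
    ∀ f : Sp d → E, Continuous f → HasCompactSupport f → ∀ (R : ℝ), 3 ≤ R → ∀ (n : ℕ) (e : E),
    ‖e‖ = 1 → ∀ (x : Sp d) (ζ₁ ζ₂ : Sp d → ℝ) (N : ℝ), TFn 2 N ζ₁ → TFn 2 N ζ₂ →
      (∀ y, ζ₁ y ≤ ζ₂ y) → (∀ y, R - 2 ≤ ‖y - x‖ → ζ₁ y = 0) → (∀ y, R - 2 ≤ ‖y - x‖ → ζ₂ y = 0) →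
      ∫ y, ⟪f y, e⟫_ℝ * ζ₁ y ≤ (∫ y, ⟪f y, e⟫_ℝ * ζ₂ y) +
        C * N * DD b ε R ((1 / 2) ^ n) f n x e := by
  obtain ⟨C, hC, h⟩ := TU.Z' hZ hd hε hε1 hb
  refine ⟨2 * C, by positivity, ?_⟩
  intro E _ _ _ f hf hfc R hR n e he x ζ₁ ζ₂ N h1 h2 h12 s1 s2
  have h3 := h E f hf hfc R hR n e he x (fun y => ζ₂ y - ζ₁ y) (N + N) (h2.sub h1)
    (fun y => sub_nonneg.2 (h12 y)) (fun y hy => by rw [s1 y hy, s2 y hy, sub_zero])
  have hc : Continuous fun y => ⟪f y, e⟫_ℝ := hf.inner continuous_const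
  have hcs : HasCompactSupport fun y => ⟪f y, e⟫_ℝ :=
    hfc.comp_left (g := fun v : E => ⟪v, e⟫_ℝ) (inner_zero_left e)
  have i1 : Integrable fun y => ⟪f y, e⟫_ℝ * ζ₁ y :=
    (hc.mul h1.smooth.continuous).integrable_of_hasCompactSupport hcs.mul_right
  have i2 : Integrable fun y => ⟪f y, e⟫_ℝ * ζ₂ y :=
    (hc.mul h2.smooth.continuous).integrable_of_hasCompactSupport hcs.mul_right
  have h4 : ∫ y, ⟪f y, e⟫_ℝ * (ζ₂ y - ζ₁ y) =
      (∫ y, ⟪f y, e⟫_ℝ * ζ₂ y) - ∫ y, ⟪f y, e⟫_ℝ * ζ₁ y := by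
    rw [← integral_sub i2 i1]
    refine integral_congr_ae (Filter.Eventually.of_forall fun y => ?_)
    ring
  rw [h4] at h3
  linarith

end

end TG


end

section

/-!
# Trace inequality, module CM, part 1: frames

A cell is described by its level N, the rescaled function u and the direction e; the child of
(N+1, zm ξ u) is (N, u).
-/

set_option autoImplicit false
set_option linter.unusedSectionVars false

open MeasureTheory Metric Set TrI
open scoped InnerProductSpace ContDiff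

namespace TG

noncomputable section

namespace CM

variable {d : ℕ} {V E : Type} [NormedAddCommGroup V] [InnerProductSpace ℝ V]
  [FiniteDimensional ℝ V] [NormedAddCommGroup E] [InnerProductSpace ℝ E] [FiniteDimensional ℝ E]

/-- the function in the frame of the parent -/
def zm (ξ : Sp d) (u : Sp d → V) : Sp d → V := fun y => u (ξ + (2 : ℝ) • y)

/-- defect in the unit frame -/
def cD (b : Sp d → ℝ) (ε R : ℝ) (L : (Sp d →L[ℝ] V) →L[ℝ] E) (N : ℕ) (u : Sp d → V) (e : E) : ℝ :=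
  DD b ε R ((1 / 2) ^ N) (fo L u) N 0 e

/-- mass in the unit frame -/
def cA (b : Sp d → ℝ) (ε R0 : ℝ) (L : (Sp d →L[ℝ] V) →L[ℝ] E) (N : ℕ) (u : Sp d → V) : ℝ :=
  ma b ε R0 ((1 / 2) ^ N) (fo L u) N 0

/-- plane functional plus defect in the unit frame -/
def cB (b : Sp d → ℝ) (ε R0 R : ℝ) (L : (Sp d →L[ℝ] V) →L[ℝ] E) (N : ℕ) (u : Sp d → V) (e : E)
    (ν : Sp d) (c : ℝ) : ℝ := bD b ε R0 R ((1 / 2) ^ N) (fo L u) N 0 e ν c

/-- the signed density against a test function -/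
def cI (L : (Sp d →L[ℝ] V) →L[ℝ] E) (u : Sp d → V) (e : E) (ζ : Sp d → ℝ) : ℝ :=
  ∫ y, ⟪fo L u y, e⟫_ℝ * ζ y

variable {L : (Sp d →L[ℝ] V) →L[ℝ] E} {b : Sp d → ℝ}

lemma fo_cont {u : Sp d → V} (hu : TF u) : Continuous (fo L u) := by
  unfold fo
  exact L.continuous.comp (hu.smooth.continuous_fderiv (by simp))

lemma fo_cs {u : Sp d → V} (hu : TF u) : HasCompactSupport (fo L u) := by
  have h : HasCompactSupport (fderiv ℝ u) := hu.supp.fderiv ℝ
  exact h.comp_left (map_zero L)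

lemma TF_zm (hSC : StmtSC) (hd : 2 ≤ d) {u : Sp d → V} (hu : TF u) (ξ : Sp d) :
    TF (zm ξ u) :=
  ((hSC d hd 1 one_pos ξ 2 two_pos).2.2 V V (L := 0) u hu).1

lemma lev_self (N : ℕ) : lev ((1 / 2 : ℝ) ^ N) N = 1 := by
  unfold lev
  rw [← mul_pow]
  norm_num

lemma half_div_two (N : ℕ) : ((1 / 2 : ℝ) ^ N) / 2 = (1 / 2) ^ (N + 1) := by
  rw [pow_succ]; ring

lemma zm_D (hSC : StmtSC) (hd : 2 ≤ d) {M c0 ε : ℝ} (hb : BaseKer 2 M c0 b) (hε : 0 < ε)
    (hε1 : ε ≤ 1) (R : ℝ) (N : ℕ) {u : Sp d → V} (hu : TF u) (ξ : Sp d) (e : E) :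
    DD b ε R ((1 / 2) ^ N) (fo L u) (N + 1) ξ e = cD b ε R L (N + 1) (zm ξ u) e := by
  obtain ⟨-, h1, h2⟩ := hSC d hd 1 one_pos ξ 2 two_pos
  have h3 := (h2 V E L u hu).2
  have h4 := (h1 E M c0 b hb ε hε hε1 (fo L u) (fo_cont hu) (fo_cs hu) ((1 / 2) ^ N)
    (by positivity)).2.1 R (N + 1) 0 e
  rw [half_div_two, ← h3, smul_zero, add_zero] at h4
  exact h4.symm

lemma zm_A (hSC : StmtSC) (hd : 2 ≤ d) {M c0 ε : ℝ} (hb : BaseKer 2 M c0 b) (hε : 0 < ε)
    (hε1 : ε ≤ 1) (R : ℝ) (N : ℕ) {u : Sp d → V} (hu : TF u) (ξ : Sp d) :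
    ma b ε R ((1 / 2) ^ N) (fo L u) (N + 1) ξ = cA b ε R L (N + 1) (zm ξ u) := by
  obtain ⟨-, h1, h2⟩ := hSC d hd 1 one_pos ξ 2 two_pos
  have h3 := (h2 V E L u hu).2
  have h4 := (h1 E M c0 b hb ε hε hε1 (fo L u) (fo_cont hu) (fo_cs hu) ((1 / 2) ^ N)
    (by positivity)).2.2 R (N + 1) 0
  rw [half_div_two, ← h3, smul_zero, add_zero] at h4
  exact h4.symm

lemma zm_B (hSC : StmtSC) (hSD : StmtSD) (hd : 2 ≤ d) {M c0 ε : ℝ} (hb : BaseKer 2 M c0 b)
    (hε : 0 < ε) (hε1 : ε ≤ 1) (R0 R : ℝ) (N : ℕ) {u : Sp d → V} (hu : TF u) (ξ : Sp d) (e : E)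
    (ν : Sp d) (c : ℝ) :
    bD b ε R0 R ((1 / 2) ^ N) (fo L u) (N + 1) ξ e ν c =
      cB b ε R0 R L (N + 1) (zm ξ u) e ν ((c - ⟪ν, ξ⟫_ℝ) / 2) := by
  unfold cB bD
  have h1 := zm_D (L := L) hSC hd hb hε hε1 R N hu ξ e
  unfold cD at h1
  rw [h1]
  congr 2
  have h3 := ((hSC d hd 1 one_pos ξ 2 two_pos).2.2 V E L u hu).2
  have h4 := hSD.2 d E (fo L u) (by omega) (fo_cont hu) (fo_cs hu) ξ 2 two_pos R0
    ((1 / 2) ^ N) (N + 1) 0 e ν ((c - ⟪ν, ξ⟫_ℝ) / 2) (by positivity)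
  rw [half_div_two, ← h3, smul_zero, add_zero] at h4
  have h5 : 2 * ((c - ⟪ν, ξ⟫_ℝ) / 2) + ⟪ν, ξ⟫_ℝ = c := by ring
  rw [h5] at h4
  exact h4.symm

/-- change of variables for the density -/
lemma cI_zm (hSC : StmtSC) (hd : 2 ≤ d) {u : Sp d → V} (hu : TF u) (ξ : Sp d) (e : E)
    (ζ : Sp d → ℝ) :
    cI L u e ζ = 2 ^ (d - 1) * cI L (zm ξ u) e (fun z => ζ (ξ + (2 : ℝ) • z)) := by
  have h3 := ((hSC d hd 1 one_pos ξ 2 two_pos).2.2 V E L u hu).2
  have h0 : fo L (zm ξ u) = rs ξ 2 (fo L u) := h3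
  unfold cI
  rw [h0]
  have h1 := Measure.integral_comp_smul_of_nonneg volume
    (fun w : Sp d => ⟪fo L u (ξ + w), e⟫_ℝ * ζ (ξ + w)) (2 : ℝ) (hR := by norm_num)
  rw [integral_add_left_eq_self (fun w => ⟪fo L u w, e⟫_ℝ * ζ w) ξ] at h1
  have h2 : ∀ z, ⟪rs ξ 2 (fo L u) z, e⟫_ℝ * ζ (ξ + (2 : ℝ) • z) =
      2 * (⟪fo L u (ξ + (2 : ℝ) • z), e⟫_ℝ * ζ (ξ + (2 : ℝ) • z)) := by
    intro z
    unfold rs
    rw [inner_smul_left]
    simp only [conj_trivial]
    ring
  simp_rw [h2]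
  rw [integral_const_mul, h1]
  have hfin : Module.finrank ℝ (Sp d) = d := by simp
  rw [hfin, smul_eq_mul]
  obtain ⟨k, rfl⟩ : ∃ k, d = k + 1 := ⟨d - 1, by omega⟩
  rw [Nat.add_sub_cancel, pow_succ]
  field_simp

/-- the jump polynomial in the frame of the parent -/
lemma JJ_zm (hSD : StmtSD) (m : ℕ) {u : Sp d → V} (hu : TF u) (ξ ν : Sp d) (γ : ℝ) (z : Sp d) :
    JJ m ν (((γ - ⟪ν, ξ⟫_ℝ) / 2) • ν) 1 (zm ξ u) z =
      JJ m ν (ξ - (⟪ν, ξ⟫_ℝ - γ) • ν) 2 u (ξ + (2 : ℝ) • z) := by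
  unfold JJ
  have h1 := fun (c : Sp d) => hSD.1 d V u hu.smooth ξ 2 two_pos m c 1 z
  have e1 : ξ + (2 : ℝ) • (((γ - ⟪ν, ξ⟫_ℝ) / 2) • ν + (6 * 1 : ℝ) • ν) =
      ξ - (⟪ν, ξ⟫_ℝ - γ) • ν + (6 * 2 : ℝ) • ν := by module
  have e2 : ξ + (2 : ℝ) • (((γ - ⟪ν, ξ⟫_ℝ) / 2) • ν - (6 * 1 : ℝ) • ν) =
      ξ - (⟪ν, ξ⟫_ℝ - γ) • ν - (6 * 2 : ℝ) • ν := by module
  unfold zm
  rw [h1, h1, e1, e2, mul_one]

lemma ht_zm (ξ ν : Sp d) (γ : ℝ) (z : Sp d) :
    ht ν ((γ - ⟪ν, ξ⟫_ℝ) / 2) z = ht ν γ (ξ + (2 : ℝ) • z) / 2 := by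
  unfold ht
  rw [inner_add_right, inner_smul_right]
  ring

end CM

end

end TG


end
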