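import Mathlib

/-! Parts: TG.Par -/

section

/-!
# Parametric integrals of smooth functions (general lemmas, helper37)

`par`: if almost every `f a` is smooth and the derivatives of every order are locally dominated by
integrable functions then `y ↦ ∫ f a y` is smooth and iterated derivatives commute with the
integral.  `cdAt_iter`: partial iterated derivatives of jointly smooth functions are smooth.
-/

open MeasureTheory Metric Set Filter Topology
open scoped ContDiff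

namespace TG.Par

section equiv

variable {Y W : Type*} [NormedAddCommGroup Y] [NormedSpace ℝ Y] [NormedAddCommGroup W] [NormedSpace ℝ W]

lemma eq_cd (e : Y ≃ₗᵢ[ℝ] W) : ContDiff ℝ ∞ e := e.contDiff

lemma eq_int [CompleteSpace Y] [CompleteSpace W] (e : Y ≃ₗᵢ[ℝ] W) {Ω : Type*} [MeasurableSpace Ω] {ν : Measure Ω} (g : Ω → Y) :
    e (∫ a, g a ∂ν) = ∫ a, e (g a) ∂ν :=
  (e.toContinuousLinearEquiv.integral_comp_comm (μ := ν) g).symm

lemma eq_cd' {X Z : Type*} [NormedAddCommGroup X] [NormedSpace ℝ X] [NormedAddCommGroup Z]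
    [NormedSpace ℝ Z] (e : (X →L[ℝ] Z) ≃ₗᵢ[ℝ] W) : ContDiff ℝ ∞ e := e.contDiff

lemma eq_int' {X Z : Type*} [NormedAddCommGroup X] [NormedSpace ℝ X] [NormedAddCommGroup Z]
    [NormedSpace ℝ Z] [CompleteSpace Z] [CompleteSpace W] (e : (X →L[ℝ] Z) ≃ₗᵢ[ℝ] W) {Ω : Type*}
    [MeasurableSpace Ω] {ν : Measure Ω} (g : Ω → X →L[ℝ] Z) :
    e (∫ a, g a ∂ν) = ∫ a, e (g a) ∂ν :=
  (e.toContinuousLinearEquiv.integral_comp_comm (μ := ν) g).symm

end equiv

section par

variable {X : Type*} [NormedAddCommGroup X] [NormedSpace ℝ X]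
variable {G : Type*} [NormedAddCommGroup G] [NormedSpace ℝ G]
variable {Ω : Type*} [MeasurableSpace Ω] {ν : Measure Ω} {f : Ω → X → G}

lemma norm_fderiv_iter (g : X → G) (j : ℕ) (y : X) :
    ‖fderiv ℝ (iteratedFDeriv ℝ j g) y‖ = ‖iteratedFDeriv ℝ (j + 1) g y‖ := by
  rw [fderiv_iteratedFDeriv, Function.comp_apply]
  exact LinearIsometryEquiv.norm_map _ _

lemma par_step (hs : ∀ᵐ a ∂ν, ContDiff ℝ ∞ (f a))
    (hm : ∀ (j : ℕ) (y : X), AEStronglyMeasurable (fun a => iteratedFDeriv ℝ j (f a) y) ν)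
    (hb : ∀ (j : ℕ) (y0 : X), ∃ b : Ω → ℝ, Integrable b ν ∧
      ∀ᵐ a ∂ν, ∀ y ∈ ball y0 1, ‖iteratedFDeriv ℝ j (f a) y‖ ≤ b a) (j : ℕ) (y0 : X) :
    HasFDerivAt (fun y => ∫ a, iteratedFDeriv ℝ j (f a) y ∂ν)
      (∫ a, fderiv ℝ (iteratedFDeriv ℝ j (f a)) y0 ∂ν) y0 := by
  obtain ⟨b0, hb0, hb0'⟩ := hb j y0
  obtain ⟨b, hb1, hb1'⟩ := hb (j + 1) y0
  refine hasFDerivAt_integral_of_dominated_of_fderiv_le (s := ball y0 1) (bound := b)
    (F := fun y a => iteratedFDeriv ℝ j (f a) y)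
    (F' := fun y a => fderiv ℝ (iteratedFDeriv ℝ j (f a)) y)
    (ball_mem_nhds y0 one_pos) (Eventually.of_forall fun y => hm j y) ?_ ?_ ?_ hb1 ?_
  · refine Integrable.mono' hb0 (hm j y0) ?_
    filter_upwards [hb0'] with a h
    exact h y0 (mem_ball_self one_pos)
  · have h1 := (continuousMultilinearCurryLeftEquiv ℝ (fun _ : Fin (j + 1) => X) G).continuous.comp_aestronglyMeasurable
      (hm (j + 1) y0)
    refine h1.congr (Eventually.of_forall fun a => ?_)
    simp only [fderiv_iteratedFDeriv, Function.comp_apply]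
  · filter_upwards [hb1'] with a h y hy
    rw [norm_fderiv_iter]
    exact h y hy
  · filter_upwards [hs] with a h y _
    have h1 : Differentiable ℝ (iteratedFDeriv ℝ j (f a)) :=
      h.differentiable_iteratedFDeriv (by exact_mod_cast WithTop.coe_lt_top _)
    exact (h1 y).hasFDerivAt

theorem par [CompleteSpace G] (hs : ∀ᵐ a ∂ν, ContDiff ℝ ∞ (f a))
    (hm : ∀ (j : ℕ) (y : X), AEStronglyMeasurable (fun a => iteratedFDeriv ℝ j (f a) y) ν)
    (hb : ∀ (j : ℕ) (y0 : X), ∃ b : Ω → ℝ, Integrable b ν ∧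
      ∀ᵐ a ∂ν, ∀ y ∈ ball y0 1, ‖iteratedFDeriv ℝ j (f a) y‖ ≤ b a) :
    ContDiff ℝ ∞ (fun y => ∫ a, f a y ∂ν) ∧
      ∀ (j : ℕ) (y : X), iteratedFDeriv ℝ j (fun y => ∫ a, f a y ∂ν) y =
        ∫ a, iteratedFDeriv ℝ j (f a) y ∂ν := by
  have key : ∀ (j : ℕ) (y : X), iteratedFDeriv ℝ j (fun y => ∫ a, f a y ∂ν) y =
        ∫ a, iteratedFDeriv ℝ j (f a) y ∂ν := by
    intro j
    induction j with
    | zero =>
      intro y
      simp only [iteratedFDeriv_zero_eq_comp, Function.comp_apply]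
      exact eq_int (continuousMultilinearCurryFin0 ℝ X G).symm _
    | succ j ih =>
      intro y
      have e : iteratedFDeriv ℝ j (fun y => ∫ a, f a y ∂ν) = fun y => ∫ a, iteratedFDeriv ℝ j (f a) y ∂ν :=
        funext ih
      simp only [iteratedFDeriv_succ_eq_comp_left, Function.comp_apply]
      rw [e, (par_step hs hm hb j y).fderiv]
      exact eq_int' (continuousMultilinearCurryLeftEquiv ℝ (fun _ : Fin (j + 1) => X) G).symm _
  refine ⟨contDiff_of_differentiable_iteratedFDeriv fun m _ => ?_, key⟩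
  have e : iteratedFDeriv ℝ m (fun y => ∫ a, f a y ∂ν) = fun y => ∫ a, iteratedFDeriv ℝ m (f a) y ∂ν :=
    funext (key m)
  rw [e]
  exact fun y => (par_step hs hm hb m y).differentiableAt

/-- the derivatives of a parametric integral are bounded by the integral of the norms -/
theorem par_norm [CompleteSpace G] (hs : ∀ᵐ a ∂ν, ContDiff ℝ ∞ (f a))
    (hm : ∀ (j : ℕ) (y : X), AEStronglyMeasurable (fun a => iteratedFDeriv ℝ j (f a) y) ν)
    (hb : ∀ (j : ℕ) (y0 : X), ∃ b : Ω → ℝ, Integrable b ν ∧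
      ∀ᵐ a ∂ν, ∀ y ∈ ball y0 1, ‖iteratedFDeriv ℝ j (f a) y‖ ≤ b a) (j : ℕ) (y : X)
    (g : Ω → ℝ) (hg : Integrable g ν) (h : ∀ᵐ a ∂ν, ‖iteratedFDeriv ℝ j (f a) y‖ ≤ g a) :
    ‖iteratedFDeriv ℝ j (fun y => ∫ a, f a y ∂ν) y‖ ≤ ∫ a, g a ∂ν := by
  rw [(par hs hm hb).2]
  exact norm_integral_le_of_norm_le hg h

end par

section partial_derivatives

variable {P : Type*} [NormedAddCommGroup P] [NormedSpace ℝ P]
variable {X : Type*} [NormedAddCommGroup X] [NormedSpace ℝ X]
variable {G : Type*} [NormedAddCommGroup G] [NormedSpace ℝ G]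

/-- partial iterated derivatives of a jointly smooth function are jointly smooth -/
theorem cdAt_iter {g : P × X → G} {U : Set (P × X)} (hU : IsOpen U) (hg : ContDiffOn ℝ ∞ g U)
    (j : ℕ) : ∀ p ∈ U, ContDiffAt ℝ ∞ (fun q : P × X => iteratedFDeriv ℝ j (fun y => g (q.1, y)) q.2) p := by
  induction j with
  | zero =>
    intro p hp
    simp only [iteratedFDeriv_zero_eq_comp, Function.comp_apply, Prod.mk.eta]
    exact (eq_cd (continuousMultilinearCurryFin0 ℝ X G).symm).contDiffAt.comp p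
      (hg.contDiffAt (hU.mem_nhds hp))
  | succ j ih =>
    intro p hp
    simp only [iteratedFDeriv_succ_eq_comp_left, Function.comp_apply]
    refine (eq_cd' (continuousMultilinearCurryLeftEquiv ℝ (fun _ : Fin (j + 1) => X) G).symm).contDiffAt.comp p ?_
    refine ContDiffAt.fderiv (n := ∞) (f := fun (q : P × X) (z : X) => iteratedFDeriv ℝ j (fun y => g (q.1, y)) z)
      (g := fun q : P × X => q.2) ?_ contDiffAt_snd (by simp)
    have h1 := ih p hp
    have h2 : ContDiffAt ℝ ∞ (fun q : (P × X) × X => (q.1.1, q.2)) (p, p.2) := by fun_prop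
    exact ContDiffAt.comp (g := fun q : P × X => iteratedFDeriv ℝ j (fun y => g (q.1, y)) q.2) (p, p.2) h1 h2

theorem cont_iter {g : P × X → G} {U : Set (P × X)} (hU : IsOpen U) (hg : ContDiffOn ℝ ∞ g U)
    (j : ℕ) : ContinuousOn (fun q : P × X => iteratedFDeriv ℝ j (fun y => g (q.1, y)) q.2) U :=
  fun p hp => (cdAt_iter hU hg j p hp).continuousAt.continuousWithinAt

end partial_derivatives

end TG.Par


end
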