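import Mathlib
import Pool.Agent.TRM.C01
import Pool.Agent.TRM.C02
import Pool.Agent.TRM.C03
import Pool.Agent.TRM.C04
import Pool.Agent.TRM.C05
import Pool.Agent.TRM.C09

/-! Parts: TG.NN, TG.SD, TG.GS, TG.PTa, TG.PTb, TG.TDc, TG.FRL, TG.FN, TG.LP, TG.WT, TG.FN2, TG.LWa, TG.NS, TR.VK, TG.WHm -/

section

set_option autoImplicit false

/-!
# Module NN: the compact Newton potential
-/

open MeasureTheory Metric Set TrI Filter
open scoped InnerProductSpace ContDiff Topology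

namespace TG

noncomputable section

namespace NN

variable {d : ℕ}

/-! ## the potential as an integral over a compact set -/

/-- the region of integration -/
def SS (d : ℕ) (R : ℝ) : Set (ℝ × Sp d) := Icc 0 R ×ˢ closedBall (0 : Sp d) 1

lemma SS_compact (R : ℝ) : IsCompact (SS d R) := isCompact_Icc.prod (isCompact_closedBall 0 1)

lemma SS_meas (R : ℝ) : MeasurableSet (SS d R) := (SS_compact R).isClosed.measurableSet

/-- the weight -/
def wt (β : Sp d → ℝ) (p : ℝ × Sp d) : ℝ := p.1 * β p.2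

lemma wt_cont {β : Sp d → ℝ} (hβ : Continuous β) : Continuous (wt β) :=
  continuous_fst.mul (hβ.comp continuous_snd)

lemma cont_arg {F : Type*} [TopologicalSpace F] {φ : Sp d → F} (hφ : Continuous φ) (x : Sp d) :
    Continuous (fun p : ℝ × Sp d => φ (x + p.1 • p.2)) := hφ.comp (by fun_prop)

lemma int_SS {F : Type*} [NormedAddCommGroup F] [NormedSpace ℝ F] {β : Sp d → ℝ}
    (hβ : Continuous β) {φ : Sp d → F} (hφ : Continuous φ) (R : ℝ) (x : Sp d) :
    IntegrableOn (fun p : ℝ × Sp d => wt β p • φ (x + p.1 • p.2)) (SS d R) :=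
  ((wt_cont hβ).smul (cont_arg hφ x)).continuousOn.integrableOn_compact (SS_compact R)

lemma NNp_eq {b : Sp d → ℝ} (hβ : Continuous (Bp b)) (hs : ∀ x, 1 ≤ ‖x‖ → Bp b x = 0) {R : ℝ}
    (hR : 0 ≤ R) {φ : Sp d → ℝ} (hφ : Continuous φ) (x : Sp d) :
    NNp b R φ x = ∫ p in SS d R, wt (Bp b) p * φ (x + p.1 • p.2) := by
  have h1 := int_SS hβ hφ R x
  simp only [smul_eq_mul] at h1
  unfold SS at h1 ⊢
  rw [Measure.volume_eq_prod] at h1 ⊢
  rw [setIntegral_prod _ h1, integral_Icc_eq_integral_Ioc,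
    ← intervalIntegral.integral_of_le hR]
  unfold NNp
  refine intervalIntegral.integral_congr (fun s _ => ?_)
  simp only [wt, avk, smul_eq_mul]
  rw [setIntegral_eq_integral_of_forall_compl_eq_zero]
  · rw [← integral_const_mul]
    refine integral_congr_ae (Eventually.of_forall fun y => ?_)
    simp only []
    ring
  · intro y hy
    rw [mem_closedBall, dist_zero_right, not_le] at hy
    rw [hs y hy.le]
    ring

lemma it_cont {ζ : Sp d → ℝ} (hζ : ContDiff ℝ ∞ ζ) (j : ℕ) : Continuous (iteratedFDeriv ℝ j ζ) :=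
  hζ.continuous_iteratedFDeriv (by exact_mod_cast le_top)

lemma iter_shift {ζ : Sp d → ℝ} (hζ : ContDiff ℝ ∞ ζ) (w : ℝ) (z : Sp d) (j : ℕ) (y : Sp d) :
    iteratedFDeriv ℝ j (fun x => w * ζ (x + z)) y = w • iteratedFDeriv ℝ j ζ (y + z) := by
  have h1 : ContDiff ℝ j (fun x => ζ (x + z)) :=
    (hζ.of_le (by exact_mod_cast le_top)).comp (by fun_prop)
  have h2 : (fun x => w * ζ (x + z)) = w • (fun x => ζ (x + z)) := by
    ext x; simp
  rw [h2, iteratedFDeriv_const_smul_apply h1.contDiffAt, iteratedFDeriv_comp_add_right]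

lemma NNp_smooth {b : Sp d → ℝ} (hβ : Continuous (Bp b)) (hs : ∀ x, 1 ≤ ‖x‖ → Bp b x = 0) {R : ℝ}
    (hR : 0 ≤ R) {ζ : Sp d → ℝ} (hζ : ContDiff ℝ ∞ ζ) :
    ContDiff ℝ ∞ (NNp b R ζ) ∧ ∀ (j : ℕ) (y : Sp d), iteratedFDeriv ℝ j (NNp b R ζ) y =
      ∫ p in SS d R, wt (Bp b) p • iteratedFDeriv ℝ j ζ (y + p.1 • p.2) := by
  have hcj : ∀ j : ℕ, Continuous (iteratedFDeriv ℝ j ζ) := fun j =>
    hζ.continuous_iteratedFDeriv (by exact_mod_cast le_top)
  have e : NNp b R ζ = fun x => ∫ p in SS d R, wt (Bp b) p * ζ (x + p.1 • p.2) :=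
    funext fun x => NNp_eq hβ hs hR hζ.continuous x
  have key := Par.par (X := Sp d) (ν := volume.restrict (SS d R))
    (f := fun (p : ℝ × Sp d) x => wt (Bp b) p * ζ (x + p.1 • p.2)) ?_ ?_ ?_
  · rw [e]
    refine ⟨key.1, fun j y => ?_⟩
    rw [key.2 j y]
    refine integral_congr_ae (Eventually.of_forall fun p => ?_)
    exact iter_shift hζ _ _ j y
  · exact Eventually.of_forall fun p => contDiff_const.mul (hζ.comp (by fun_prop))
  · intro j y
    have h1 : Continuous fun p : ℝ × Sp d => iteratedFDeriv ℝ j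
        (fun x => wt (Bp b) p * ζ (x + p.1 • p.2)) y := by
      simp only [iter_shift hζ]
      exact (wt_cont hβ).smul (cont_arg (hcj j) y)
    exact h1.aestronglyMeasurable
  · intro j y0
    obtain ⟨M, hM⟩ := (isCompact_closedBall y0 (1 + R)).exists_bound_of_continuousOn
      (hcj j).continuousOn
    refine ⟨fun p => |wt (Bp b) p| * M, ?_, ?_⟩
    · exact ((wt_cont hβ).abs.mul continuous_const).continuousOn.integrableOn_compact
        (SS_compact R)
    · refine (ae_restrict_iff' (SS_meas R)).2 (Eventually.of_forall fun p hp y hy => ?_)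
      rw [iter_shift hζ, norm_smul, Real.norm_eq_abs]
      refine mul_le_mul_of_nonneg_left (hM _ ?_) (abs_nonneg _)
      obtain ⟨h1, h2⟩ := hp
      rw [mem_closedBall, dist_zero_right] at h2
      rw [mem_ball, dist_eq_norm] at hy
      rw [mem_closedBall, dist_eq_norm]
      have h3 : y + p.1 • p.2 - y0 = (y - y0) + p.1 • p.2 := by abel
      rw [h3]
      refine (norm_add_le _ _).trans ?_
      have h4 : ‖p.1 • p.2‖ ≤ R := by
        rw [norm_smul, Real.norm_of_nonneg h1.1]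
        calc p.1 * ‖p.2‖ ≤ R * 1 := mul_le_mul h1.2 h2 (norm_nonneg _) hR
          _ = R := mul_one R
      linarith

/-! ## the fundamental theorem of calculus in the scale -/

lemma kernel_cs {ψ : Sp d → ℝ} (hs : ∀ x, 1 ≤ ‖x‖ → ψ x = 0) : HasCompactSupport ψ := by
  refine HasCompactSupport.intro (isCompact_closedBall (0 : Sp d) 1) fun x hx => ?_
  apply hs
  rw [mem_closedBall, dist_zero_right, not_le] at hx
  exact hx.le

lemma avk_deriv {b : Sp d → ℝ} (hb : Continuous b) (hs : ∀ x, 1 ≤ ‖x‖ → b x = 0)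
    {ζ : Sp d → ℝ} (hζ : ContDiff ℝ ∞ ζ) (y : Sp d) (s : ℝ) :
    HasDerivAt (fun s => avk b s ζ y) (∫ z, b z * fderiv ℝ ζ (y + s • z) z) s := by
  have hcf : Continuous (fderiv ℝ ζ) := hζ.continuous_fderiv (by simp)
  obtain ⟨M, hM⟩ := (isCompact_closedBall y (|s| + 1)).exists_bound_of_continuousOn
    hcf.continuousOn
  have hbc := kernel_cs hs
  unfold avk
  simp only [smul_eq_mul]
  refine (hasDerivAt_integral_of_dominated_loc_of_deriv_le (s := ball s 1)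
    (F := fun s z => b z * ζ (y + s • z)) (F' := fun s z => b z * fderiv ℝ ζ (y + s • z) z)
    (bound := fun z => |b z| * M) (ball_mem_nhds s one_pos) ?_ ?_ ?_ ?_ ?_ ?_).2
  · exact Eventually.of_forall fun t =>
      (hb.mul (hζ.continuous.comp (by fun_prop))).aestronglyMeasurable
  · exact (hb.mul (hζ.continuous.comp (by fun_prop))).integrable_of_hasCompactSupport
      hbc.mul_right
  · have h1 : Continuous fun z : Sp d => fderiv ℝ ζ (y + s • z) z :=
      (hcf.comp (by fun_prop : Continuous fun z : Sp d => y + s • z)).clm_apply continuous_id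
    exact (hb.mul h1).aestronglyMeasurable
  · refine Eventually.of_forall fun z t ht => ?_
    rw [norm_mul, Real.norm_eq_abs (b z)]
    by_cases hz : 1 ≤ ‖z‖
    · rw [hs z hz, abs_zero, zero_mul, zero_mul]
    · push Not at hz
      refine mul_le_mul_of_nonneg_left ?_ (abs_nonneg _)
      rw [mem_ball, Real.dist_eq] at ht
      have ht' : |t| ≤ |s| + 1 := by
        have := abs_add_le (t - s) s
        rw [sub_add_cancel] at this
        linarith
      have hmem : y + t • z ∈ closedBall y (|s| + 1) := by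
        rw [mem_closedBall, dist_eq_norm, add_sub_cancel_left, norm_smul, Real.norm_eq_abs]
        nlinarith [abs_nonneg t, norm_nonneg z]
      have h2 := hM _ hmem
      have hM0 : 0 ≤ M := (norm_nonneg _).trans h2
      calc ‖fderiv ℝ ζ (y + t • z) z‖ ≤ ‖fderiv ℝ ζ (y + t • z)‖ * ‖z‖ :=
            ContinuousLinearMap.le_opNorm _ _
        _ ≤ M * 1 := mul_le_mul h2 hz.le (norm_nonneg _) hM0
        _ = M := mul_one M
  · exact (hb.abs.mul continuous_const).integrable_of_hasCompactSupport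
      ((hbc.comp_left abs_zero).mul_right)
  · refine Eventually.of_forall fun z t _ => ?_
    have h1 : HasFDerivAt ζ (fderiv ℝ ζ (y + t • z)) (y + t • z) :=
      (hζ.differentiable (by simp) _).hasFDerivAt
    have h2 : HasDerivAt (fun t : ℝ => y + t • z) z t := by
      have := ((hasDerivAt_id t).smul_const z).const_add y
      simpa using this
    exact (h1.comp_hasDerivAt t h2).const_mul (b z)

lemma coord_sum (z : Sp d) : z = ∑ i : Fin d, z i • (EuclideanSpace.single i (1 : ℝ) : Sp d) := by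
  ext j
  simp [Pi.single_apply]

lemma iter2 {ζ : Sp d → ℝ} (hζ : ContDiff ℝ ∞ ζ) (x v w : Sp d) :
    fderiv ℝ (fun y => fderiv ℝ ζ y w) x v = fderiv ℝ (fderiv ℝ ζ) x v w := by
  have h1 : DifferentiableAt ℝ (fderiv ℝ ζ) x :=
    (hζ.fderiv_right (m := 1) (by norm_cast)).differentiable (by simp) x
  rw [fderiv_clm_apply h1 (differentiableAt_const _)]
  simp

lemma lap_eq {ζ : Sp d → ℝ} (hζ : ContDiff ℝ ∞ ζ) (x : Sp d) :
    lap ζ x = ∑ i : Fin d, fderiv ℝ (fun y => fderiv ℝ ζ y (EuclideanSpace.single i (1 : ℝ))) x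
      (EuclideanSpace.single i (1 : ℝ)) := by
  unfold lap
  refine Finset.sum_congr rfl fun i _ => ?_
  rw [iteratedFDeriv_two_apply, iter2 hζ]

lemma smooth_fd {ζ : Sp d → ℝ} (hζ : ContDiff ℝ ∞ ζ) (v : Sp d) :
    ContDiff ℝ ∞ (fun y => fderiv ℝ ζ y v) :=
  (hζ.fderiv_right (m := ∞) (by norm_cast)).clm_apply contDiff_const

lemma ibp_scale {b : Sp d → ℝ} (hβ : ContDiff ℝ 1 (Bp b)) (hs1 : ∀ x, 1 ≤ ‖x‖ → Bp b x = 0)
    (hg : ∀ x, HasGradientAt (Bp b) (-(b x) • x) x)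
    {ζ : Sp d → ℝ} (hζ : ContDiff ℝ ∞ ζ) (y : Sp d) (s : ℝ) :
    ∫ z, b z * fderiv ℝ ζ (y + s • z) z = s * avk (Bp b) s (lap ζ) y := by
  have hβc := kernel_cs hs1
  set e : Fin d → Sp d := fun i => EuclideanSpace.single i (1 : ℝ) with he
  have hfd : ∀ (z v : Sp d), fderiv ℝ (Bp b) z v = -(b z * ⟪z, v⟫_ℝ) := by
    intro z v
    have h1 := (hg z).hasFDerivAt.fderiv
    rw [h1]
    simp only [InnerProductSpace.toDual_apply_apply]
    rw [inner_smul_left]
    simp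
  have hψ : ∀ i, ContDiff ℝ ∞ (fun z => fderiv ℝ ζ (y + s • z) (e i)) := fun i =>
    (smooth_fd hζ (e i)).comp (by fun_prop : ContDiff ℝ ∞ fun z : Sp d => y + s • z)
  have hfψ : ∀ i z, fderiv ℝ (fun z => fderiv ℝ ζ (y + s • z) (e i)) z (e i) =
      s * fderiv ℝ (fun w => fderiv ℝ ζ w (e i)) (y + s • z) (e i) := by
    intro i z
    have h1 : HasFDerivAt (fun w => fderiv ℝ ζ w (e i))
        (fderiv ℝ (fun w => fderiv ℝ ζ w (e i)) (y + s • z)) (y + s • z) :=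
      ((smooth_fd hζ (e i)).differentiable (by simp) _).hasFDerivAt
    have h2 : HasFDerivAt (fun z : Sp d => y + s • z) (s • ContinuousLinearMap.id ℝ (Sp d)) z := by
      exact ((hasFDerivAt_id z).const_smul s).const_add y
    have h3 := (h1.comp z h2).fderiv
    have h4 : fderiv ℝ (fun z => fderiv ℝ ζ (y + s • z) (e i)) z =
        (fderiv ℝ (fun w => fderiv ℝ ζ w (e i)) (y + s • z)).comp
          (s • ContinuousLinearMap.id ℝ (Sp d)) := h3
    rw [h4]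
    simp
  have hint1 : ∀ i, Integrable (fun z => Bp b z * fderiv ℝ (fun z => fderiv ℝ ζ (y + s • z) (e i)) z (e i)) :=
    fun i => (hβ.continuous.mul (smooth_fd (hψ i) (e i)).continuous).integrable_of_hasCompactSupport
      hβc.mul_right
  have hint2 : ∀ i, Integrable (fun z => fderiv ℝ (Bp b) z (e i) * fderiv ℝ ζ (y + s • z) (e i)) := by
    intro i
    refine Continuous.integrable_of_hasCompactSupport ?_ (HasCompactSupport.mul_right
      (hβc.fderiv_apply ℝ (e i)))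
    exact ((hβ.continuous_fderiv (by simp)).clm_apply continuous_const).mul (hψ i).continuous
  have hibp : ∀ i, ∫ z, Bp b z * fderiv ℝ (fun z => fderiv ℝ ζ (y + s • z) (e i)) z (e i) =
      - ∫ z, fderiv ℝ (Bp b) z (e i) * fderiv ℝ ζ (y + s • z) (e i) := by
    intro i
    refine integral_mul_fderiv_eq_neg_fderiv_mul_of_integrable (hint2 i) (hint1 i) ?_ ?_ ?_
    · exact (hβ.continuous.mul (hψ i).continuous).integrable_of_hasCompactSupport hβc.mul_right
    · exact fun x _ => hβ.differentiable (by simp) x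
    · exact fun x _ => (hψ i).differentiable (by simp) x
  have hL : ∀ z, b z * fderiv ℝ ζ (y + s • z) z =
      ∑ i, -(fderiv ℝ (Bp b) z (e i) * fderiv ℝ ζ (y + s • z) (e i)) := by
    intro z
    have h0 := congrArg (fderiv ℝ ζ (y + s • z)) (coord_sum z)
    rw [map_sum] at h0
    rw [h0, Finset.mul_sum]
    refine Finset.sum_congr rfl fun i _ => ?_
    rw [hfd, map_smul, smul_eq_mul]
    have : ⟪z, e i⟫_ℝ = z i := by
      simp [he, EuclideanSpace.inner_single_right]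
    rw [this]
    ring
  have hR : ∀ z, s * (Bp b z * lap ζ (y + s • z)) =
      ∑ i, Bp b z * fderiv ℝ (fun z => fderiv ℝ ζ (y + s • z) (e i)) z (e i) := by
    intro z
    rw [lap_eq hζ, Finset.mul_sum, Finset.mul_sum]
    refine Finset.sum_congr rfl fun i _ => ?_
    rw [hfψ]
    ring
  unfold avk
  simp only [smul_eq_mul]
  rw [← integral_const_mul]
  simp only [hL, hR]
  have hint2' : ∀ i, Integrable (fun z => -(fderiv ℝ (Bp b) z (e i) *
      fderiv ℝ ζ (y + s • z) (e i))) := fun i => (hint2 i).neg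
  rw [integral_finsetSum _ (fun i _ => hint2' i), integral_finsetSum _ (fun i _ => hint1 i)]
  refine Finset.sum_congr rfl fun i _ => ?_
  rw [integral_neg, hibp]

lemma lap_cont {ζ : Sp d → ℝ} (hζ : ContDiff ℝ ∞ ζ) : ContDiff ℝ ∞ (lap ζ) := by
  have : lap ζ = fun x => ∑ i : Fin d, fderiv ℝ (fun y => fderiv ℝ ζ y (EuclideanSpace.single i (1 : ℝ))) x
      (EuclideanSpace.single i (1 : ℝ)) := funext (lap_eq hζ)
  rw [this]
  exact ContDiff.sum fun i _ => smooth_fd (smooth_fd hζ _) _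

lemma ftc {b : Sp d → ℝ} (hb : Continuous b) (hs : ∀ x, 1 ≤ ‖x‖ → b x = 0) (hint : ∫ x, b x = 1)
    (hβ : ContDiff ℝ 1 (Bp b)) (hs1 : ∀ x, 1 ≤ ‖x‖ → Bp b x = 0)
    (hg : ∀ x, HasGradientAt (Bp b) (-(b x) • x) x)
    {ζ : Sp d → ℝ} (hζ : ContDiff ℝ ∞ ζ) (R : ℝ) (y : Sp d) :
    NNp b R (lap ζ) y = avk b R ζ y - ζ y := by
  have h1 : ∀ s, HasDerivAt (fun s => avk b s ζ y) (s * avk (Bp b) s (lap ζ) y) s := by
    intro s
    rw [← ibp_scale hβ hs1 hg hζ y s]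
    exact avk_deriv hb hs hζ y s
  have h2 : Continuous fun s => avk (Bp b) s (lap ζ) y := by
    rw [continuous_iff_continuousAt]
    intro s
    exact (avk_deriv hβ.continuous hs1 (lap_cont hζ) y s).continuousAt
  have h3 : avk b 0 ζ y = ζ y := by
    unfold avk
    simp only [zero_smul, add_zero]
    rw [integral_smul_const, hint, one_smul]
  unfold NNp
  rw [intervalIntegral.integral_eq_sub_of_hasDerivAt (fun s _ => h1 s)
    ((continuous_id.mul h2).intervalIntegrable _ _)]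
  rw [h3]

/-! ## kernels -/

lemma Bp_half {M c0 : ℝ} {b : Sp d → ℝ} (hb : BaseKer 2 M c0 b) (x : Sp d) (hx : 1 / 2 ≤ ‖x‖) :
    Bp b x = 0 := by
  by_cases h1 : 1 ≤ ‖x‖
  · exact (hb.kit 0).supp1 x h1
  · push Not at h1
    unfold Bp
    have h2 : ∀ r ∈ uIcc ‖x‖ 1, r * rad b r = 0 := by
      intro r hr
      rw [uIcc_of_le h1.le] at hr
      have h3 : b '' sphere 0 r ⊆ {0} := by
        rintro _ ⟨y, hy, rfl⟩
        rw [mem_sphere, dist_zero_right] at hy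
        exact hb.supp y (by rw [hy]; linarith only [hx, hr.1])
      have h4 : rad b r = 0 := by
        unfold rad
        rcases Set.subset_singleton_iff_eq.1 h3 with h5 | h5
        · rw [h5, Real.sSup_empty]
        · rw [h5, csSup_singleton]
      rw [h4, mul_zero]
    rw [intervalIntegral.integral_congr (g := fun _ => (0 : ℝ)) h2]
    simp

lemma NNp_supp {M c0 : ℝ} {b : Sp d → ℝ} (hb : BaseKer 2 M c0 b) {R : ℝ} (hR : 0 ≤ R)
    {ζ : Sp d → ℝ} (x : Sp d) (ρ : ℝ) (hζ : ∀ y, ρ ≤ ‖y - x‖ → ζ y = 0) (y : Sp d)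
    (hy : ρ + R / 2 ≤ ‖y - x‖) : NNp b R ζ y = 0 := by
  unfold NNp
  have h2 : ∀ s ∈ uIcc 0 R, s * avk (Bp b) s ζ y = 0 := by
    intro s hs
    rw [uIcc_of_le hR] at hs
    have h3 : avk (Bp b) s ζ y = 0 := by
      unfold avk
      refine integral_eq_zero_of_ae (Eventually.of_forall fun z => ?_)
      simp only [smul_eq_mul, Pi.zero_apply]
      by_cases hz : 1 / 2 ≤ ‖z‖
      · rw [Bp_half hb z hz, zero_mul]
      · push Not at hz
        rw [hζ, mul_zero]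
        have h4 : ‖y - x‖ ≤ ‖y + s • z - x‖ + ‖s • z‖ := by
          have := norm_sub_le (y + s • z - x) (s • z)
          rwa [show y + s • z - x - s • z = y - x by abel] at this
        have h5 : ‖s • z‖ ≤ R * (1 / 2) := by
          rw [norm_smul, Real.norm_of_nonneg hs.1]
          exact mul_le_mul hs.2 hz.le (norm_nonneg _) hR
        linarith
    rw [h3, mul_zero]
  rw [intervalIntegral.integral_congr (g := fun _ => (0 : ℝ)) h2]
  simp

lemma NNp_cs {M c0 : ℝ} {b : Sp d → ℝ} (hb : BaseKer 2 M c0 b) {R : ℝ} (hR : 0 ≤ R)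
    {ζ : Sp d → ℝ} (hc : HasCompactSupport ζ) : HasCompactSupport (NNp b R ζ) := by
  obtain ⟨r, hr⟩ := hc.isCompact.isBounded.subset_closedBall 0
  refine HasCompactSupport.intro (isCompact_closedBall (0 : Sp d) (r + 1 + R / 2)) fun y hy => ?_
  refine NNp_supp hb hR 0 (r + 1) ?_ y ?_
  · intro z hz
    by_contra hne
    have h1 := hr (subset_tsupport _ (Function.mem_support.2 hne))
    rw [mem_closedBall, dist_zero_right] at h1
    rw [sub_zero] at hz
    linarith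
  · rw [mem_closedBall, dist_zero_right, not_le] at hy
    rw [sub_zero]
    exact hy.le

lemma Bp_int_le {M c0 : ℝ} {b : Sp d → ℝ} (hb : BaseKer 2 M c0 b) : ∫ x, Bp b x ≤ 1 := by
  have hk := hb.kit 0
  have h1 : Continuous (Bp b) := hk.smooth1.continuous
  have h2 : Continuous b := hb.smooth.continuous
  have h3 : ∀ x, 1 ≤ ‖x‖ → b x = 0 := fun x hx => hb.supp x (by linarith)
  rw [← hb.int]
  exact integral_mono (h1.integrable_of_hasCompactSupport (kernel_cs hk.supp1))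
    (h2.integrable_of_hasCompactSupport (kernel_cs h3)) hk.le1

lemma wt_int_le {M c0 : ℝ} {b : Sp d → ℝ} (hb : BaseKer 2 M c0 b) {R : ℝ} (hR : 0 ≤ R) :
    ∫ p in SS d R, wt (Bp b) p ≤ R ^ 2 := by
  have hk := hb.kit 0
  have h1 := NNp_eq (b := b) hk.smooth1.continuous hk.supp1 hR (φ := fun _ => (1 : ℝ))
    continuous_const 0
  simp only [mul_one] at h1
  rw [← h1]
  unfold NNp
  have h2 : ∀ s, avk (Bp b) s (fun _ => (1 : ℝ)) 0 = ∫ x, Bp b x := by
    intro s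
    unfold avk
    simp
  simp only [h2]
  rw [intervalIntegral.integral_mul_const, integral_id]
  have h3 : 0 ≤ ∫ x, Bp b x := integral_nonneg hk.nonneg1
  have h4 := Bp_int_le hb
  nlinarith only [h4]

lemma NNp_norm {M c0 : ℝ} {b : Sp d → ℝ} (hb : BaseKer 2 M c0 b) {R : ℝ} (hR : 0 ≤ R)
    {ζ : Sp d → ℝ} (hζ : ContDiff ℝ ∞ ζ) (j : ℕ) (N : ℝ) (hN : ∀ y, ‖iteratedFDeriv ℝ j ζ y‖ ≤ N)
    (y : Sp d) : ‖iteratedFDeriv ℝ j (NNp b R ζ) y‖ ≤ R ^ 2 * N := by
  have hk := hb.kit 0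
  have hβ : Continuous (Bp b) := hk.smooth1.continuous
  rw [(NNp_smooth hβ hk.supp1 hR hζ).2]
  have hN0 : 0 ≤ N := (norm_nonneg _).trans (hN 0)
  have h1 : ‖∫ p in SS d R, wt (Bp b) p • iteratedFDeriv ℝ j ζ (y + p.1 • p.2)‖ ≤
      ∫ p in SS d R, wt (Bp b) p * N := by
    refine norm_integral_le_of_norm_le ?_ ?_
    · exact ((wt_cont hβ).mul continuous_const).continuousOn.integrableOn_compact (SS_compact R)
    · refine (ae_restrict_iff' (SS_meas R)).2 (Eventually.of_forall fun p hp => ?_)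
      have hw : 0 ≤ wt (Bp b) p := mul_nonneg hp.1.1 (hk.nonneg1 _)
      rw [norm_smul, Real.norm_of_nonneg hw]
      exact mul_le_mul_of_nonneg_left (hN _) hw
  refine h1.trans ?_
  rw [integral_mul_const]
  exact mul_le_mul_of_nonneg_right (wt_int_le hb hR) hN0

lemma NNp_apply {b : Sp d → ℝ} (hβ : Continuous (Bp b)) (hs : ∀ x, 1 ≤ ‖x‖ → Bp b x = 0) {R : ℝ}
    (hR : 0 ≤ R) {ζ : Sp d → ℝ} (hζ : ContDiff ℝ ∞ ζ) (j : ℕ) (y : Sp d) (h : Fin j → Sp d) :
    iteratedFDeriv ℝ j (NNp b R ζ) y h = NNp b R (fun z => iteratedFDeriv ℝ j ζ z h) y := by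
  have hcj : Continuous (iteratedFDeriv ℝ j ζ) :=
    hζ.continuous_iteratedFDeriv (by exact_mod_cast le_top)
  have hcj' : Continuous (fun z => iteratedFDeriv ℝ j ζ z h) :=
    (ContinuousMultilinearMap.apply ℝ (fun _ : Fin j => Sp d) ℝ h).continuous.comp hcj
  rw [(NNp_smooth hβ hs hR hζ).2, NNp_eq hβ hs hR hcj']
  have h1 := (ContinuousMultilinearMap.apply ℝ (fun _ : Fin j => Sp d) ℝ h).integral_comp_comm
    (int_SS hβ hcj R y)
  simp only [ContinuousMultilinearMap.apply_apply] at h1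
  rw [← h1]
  rfl

lemma NNp_sum {b : Sp d → ℝ} (hβ : Continuous (Bp b)) (hs : ∀ x, 1 ≤ ‖x‖ → Bp b x = 0) {R : ℝ}
    (hR : 0 ≤ R) {ι : Type*} (I : Finset ι) {g : ι → Sp d → ℝ} (hg : ∀ i, Continuous (g i))
    (y : Sp d) : NNp b R (fun z => ∑ i ∈ I, g i z) y = ∑ i ∈ I, NNp b R (g i) y := by
  rw [NNp_eq hβ hs hR (continuous_finsetSum _ fun i _ => hg i)]
  simp only [NNp_eq hβ hs hR (hg _), Finset.mul_sum]
  rw [integral_finsetSum _ (fun i _ => ?_)]
  have := int_SS hβ (hg i) R y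
  simp only [smul_eq_mul] at this
  exact this

lemma NNp_lap {b : Sp d → ℝ} (hβ : Continuous (Bp b)) (hs : ∀ x, 1 ≤ ‖x‖ → Bp b x = 0) {R : ℝ}
    (hR : 0 ≤ R) {ζ : Sp d → ℝ} (hζ : ContDiff ℝ ∞ ζ) (y : Sp d) :
    lap (NNp b R ζ) y = NNp b R (lap ζ) y := by
  have hc : ∀ i : Fin d, Continuous (fun z => iteratedFDeriv ℝ 2 ζ z
      (fun _ => (EuclideanSpace.single i (1 : ℝ) : Sp d))) := by
    intro i
    exact (ContinuousMultilinearMap.apply ℝ (fun _ : Fin 2 => Sp d) ℝ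
      (fun _ => (EuclideanSpace.single i (1 : ℝ) : Sp d))).continuous.comp (it_cont hζ 2)
  have h1 : lap ζ = fun z => ∑ i : Fin d, iteratedFDeriv ℝ 2 ζ z
      (fun _ => (EuclideanSpace.single i (1 : ℝ) : Sp d)) := rfl
  rw [h1, NNp_sum hβ hs hR _ hc]
  unfold lap
  refine Finset.sum_congr rfl fun i _ => ?_
  rw [NNp_apply hβ hs hR hζ]

/-! ## plane integrals -/

/-- ridge functions -/
lemma lap_ridge (ν : Sp d) (hν : ‖ν‖ = 1) {Φ Φ1 Φ2 : ℝ → ℝ} (h0 : ∀ c, HasDerivAt Φ (Φ1 c) c)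
    (h1 : ∀ c, HasDerivAt Φ1 (Φ2 c) c) (x : Sp d) :
    lap (fun y => Φ ⟪ν, y⟫_ℝ) x = Φ2 ⟪ν, x⟫_ℝ := by
  have hd : ∀ {Ψ : ℝ → ℝ} {Ψ1 : ℝ → ℝ}, (∀ c, HasDerivAt Ψ (Ψ1 c) c) → ∀ y : Sp d,
      HasFDerivAt (fun y => Ψ ⟪ν, y⟫_ℝ) (Ψ1 ⟪ν, y⟫_ℝ • innerSL ℝ ν) y := by
    intro Ψ Ψ1 h y
    have e : HasFDerivAt (fun y : Sp d => ⟪ν, y⟫_ℝ) (innerSL ℝ ν) y :=
      (innerSL ℝ ν).hasFDerivAt
    exact (h _).comp_hasFDerivAt y e
  have hf : fderiv ℝ (fun y => Φ ⟪ν, y⟫_ℝ) = fun y => Φ1 ⟪ν, y⟫_ℝ • innerSL ℝ ν :=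
    funext fun y => (hd h0 y).fderiv
  have hf2 : fderiv ℝ (fderiv ℝ (fun y => Φ ⟪ν, y⟫_ℝ)) x =
      (Φ2 ⟪ν, x⟫_ℝ • innerSL ℝ ν).smulRight (innerSL ℝ ν) := by
    rw [hf]
    exact ((hd h1 x).smul_const (innerSL ℝ ν)).fderiv
  unfold lap
  simp only [iteratedFDeriv_two_apply, hf2]
  simp only [ContinuousLinearMap.smulRight_apply, _root_.smul_apply, smul_eq_mul,
    innerSL_apply_apply]
  have h2 : ∀ i : Fin d, ⟪ν, (EuclideanSpace.single i (1 : ℝ) : Sp d)⟫_ℝ = ν i := by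
    intro i
    simp [EuclideanSpace.inner_single_right]
  simp only [h2]
  have h3 : ∑ i : Fin d, ν i * ν i = 1 := by
    have := EuclideanSpace.real_norm_sq_eq ν
    rw [hν] at this
    simp only [one_pow] at this
    rw [this]
    exact Finset.sum_congr rfl fun i _ => (sq _).symm
  calc ∑ i : Fin d, Φ2 ⟪ν, x⟫_ℝ * ν i * ν i = Φ2 ⟪ν, x⟫_ℝ * ∑ i : Fin d, ν i * ν i := by
        rw [Finset.mul_sum]
        exact Finset.sum_congr rfl fun i _ => by ring
    _ = _ := by rw [h3, mul_one]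

lemma pl_int {ν : Sp d} {c : ℝ} {g : Sp d → ℝ} (hg : Continuous g) (hc : HasCompactSupport g) :
    Integrable (fun y : (Submodule.span ℝ {ν})ᗮ => g (c • ν + (y : Sp d))) := by
  refine Continuous.integrable_of_hasCompactSupport (hg.comp (by fun_prop)) ?_
  obtain ⟨r, hr⟩ := hc.isCompact.isBounded.subset_closedBall 0
  refine HasCompactSupport.intro (isCompact_closedBall (0 : (Submodule.span ℝ {ν})ᗮ) (r + ‖c • ν‖))
    fun y hy => ?_
  by_contra hne
  have h1 := hr (subset_tsupport _ (Function.mem_support.2 hne))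
  rw [mem_closedBall, dist_zero_right] at h1
  rw [mem_closedBall, dist_zero_right, not_le] at hy
  have h2 := norm_sub_le (c • ν + (y : Sp d)) (c • ν)
  rw [add_sub_cancel_left] at h2
  have h3 : ‖(y : Sp d)‖ = ‖y‖ := rfl
  linarith

lemma pl_add {ν : Sp d} {c : ℝ} {g h : Sp d → ℝ} (hg : Continuous g) (hgc : HasCompactSupport g)
    (hh : Continuous h) (hhc : HasCompactSupport h) :
    plInt ν c (fun y => g y + h y) = plInt ν c g + plInt ν c h :=
  integral_add (pl_int hg hgc) (pl_int hh hhc)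

lemma pl_mul {ν : Sp d} {c : ℝ} (a : ℝ) (g : Sp d → ℝ) :
    plInt ν c (fun y => a * g y) = a * plInt ν c g := integral_const_mul _ _

lemma pl_sum {ν : Sp d} {c : ℝ} {ι : Type*} (I : Finset ι) {g : ι → Sp d → ℝ}
    (hg : ∀ i, Continuous (g i)) (hgc : ∀ i, HasCompactSupport (g i)) :
    plInt ν c (fun y => ∑ i ∈ I, g i y) = ∑ i ∈ I, plInt ν c (g i) :=
  integral_finsetSum _ (fun i _ => pl_int (hg i) (hgc i))

/-- translation -/
lemma pl_shift {ν : Sp d} (hν : ‖ν‖ = 1) (c : ℝ) (g : Sp d → ℝ) (z : Sp d) :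
    ∫ y : (Submodule.span ℝ {ν})ᗮ, g (c • ν + (y : Sp d) + z) = plInt ν (c + ⟪ν, z⟫_ℝ) g := by
  have h1 : z - ⟪ν, z⟫_ℝ • ν ∈ (Submodule.span ℝ {ν})ᗮ := by
    rw [Submodule.mem_orthogonal_singleton_iff_inner_right, inner_sub_right, inner_smul_right,
      real_inner_self_eq_norm_sq, hν]
    ring
  unfold plInt
  rw [← integral_add_right_eq_self (μ := volume)
    (fun y : (Submodule.span ℝ {ν})ᗮ => g ((c + ⟪ν, z⟫_ℝ) • ν + (y : Sp d)))
    (⟨z - ⟪ν, z⟫_ℝ • ν, h1⟩ : (Submodule.span ℝ {ν})ᗮ)]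
  refine integral_congr_ae (Eventually.of_forall fun y => ?_)
  simp only [Submodule.coe_add]
  congr 1
  rw [add_smul]
  abel

lemma pl_NNp {b : Sp d → ℝ} (hβ : Continuous (Bp b)) (hs : ∀ x, 1 ≤ ‖x‖ → Bp b x = 0) {R : ℝ}
    (hR : 0 ≤ R) {ν : Sp d} (hν : ‖ν‖ = 1) (c : ℝ) {g : Sp d → ℝ} (hg : Continuous g)
    (hgc : HasCompactSupport g) : plInt ν c (NNp b R g) =
      ∫ p in SS d R, wt (Bp b) p * plInt ν (c + ⟪ν, p.1 • p.2⟫_ℝ) g := by
  have h1 : plInt ν c (NNp b R g) = ∫ y : (Submodule.span ℝ {ν})ᗮ, ∫ p in SS d R,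
      wt (Bp b) p * g (c • ν + (y : Sp d) + p.1 • p.2) := by
    unfold plInt
    refine integral_congr_ae (Eventually.of_forall fun y => ?_)
    exact NNp_eq hβ hs hR hg _
  rw [h1, integral_integral_swap]
  · refine integral_congr_ae (Eventually.of_forall fun p => ?_)
    simp only []
    rw [integral_const_mul, pl_shift hν]
  · obtain ⟨r, hr⟩ := hgc.isCompact.isBounded.subset_closedBall 0
    have hcont : Continuous (Function.uncurry fun (y : (Submodule.span ℝ {ν})ᗮ) (p : ℝ × Sp d) =>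
        wt (Bp b) p * g (c • ν + (y : Sp d) + p.1 • p.2)) := by
      refine ((wt_cont hβ).comp continuous_snd).mul (hg.comp ?_)
      fun_prop
    have hK : IsCompact (closedBall (0 : (Submodule.span ℝ {ν})ᗮ) (r + ‖c • ν‖ + R) ×ˢ SS d R) :=
      (isCompact_closedBall _ _).prod (SS_compact R)
    have h2 := hcont.continuousOn.integrableOn_compact
      (μ := (volume : Measure (Submodule.span ℝ {ν})ᗮ).prod (volume : Measure (ℝ × Sp d))) hK
    have h3 : (volume : Measure (Submodule.span ℝ {ν})ᗮ).prod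
        ((volume : Measure (ℝ × Sp d)).restrict (SS d R)) =
        ((volume : Measure (Submodule.span ℝ {ν})ᗮ).prod (volume : Measure (ℝ × Sp d))).restrict
          (univ ×ˢ SS d R) := by
      rw [← Measure.prod_restrict, Measure.restrict_univ]
    rw [h3]
    refine IntegrableOn.of_forall_sdiff_eq_zero h2 (MeasurableSet.univ.prod (SS_meas R)) ?_
    rintro ⟨y, p⟩ ⟨⟨_, hp⟩, hn⟩
    have hp' : p ∈ SS d R := hp
    have hy : y ∉ closedBall (0 : (Submodule.span ℝ {ν})ᗮ) (r + ‖c • ν‖ + R) := fun h =>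
      hn ⟨h, hp⟩
    simp only [Function.uncurry_apply_pair]
    have : g (c • ν + (y : Sp d) + p.1 • p.2) = 0 := by
      by_contra hne
      have h4 := hr (subset_tsupport _ (Function.mem_support.2 hne))
      rw [mem_closedBall, dist_zero_right] at h4
      rw [mem_closedBall, dist_zero_right, not_le] at hy
      obtain ⟨h5, h6⟩ := hp'
      rw [mem_closedBall, dist_zero_right] at h6
      have h7 : ‖p.1 • p.2‖ ≤ R := by
        rw [norm_smul, Real.norm_of_nonneg h5.1]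
        calc p.1 * ‖p.2‖ ≤ R * 1 := mul_le_mul h5.2 h6 (norm_nonneg _) hR
          _ = R := mul_one R
      have h8 : ‖(y : Sp d)‖ ≤ ‖c • ν + (y : Sp d) + p.1 • p.2‖ + ‖c • ν + p.1 • p.2‖ := by
        have := norm_sub_le (c • ν + (y : Sp d) + p.1 • p.2) (c • ν + p.1 • p.2)
        rwa [show c • ν + (y : Sp d) + p.1 • p.2 - (c • ν + p.1 • p.2) = (y : Sp d) by abel] at this
      have h9 := norm_add_le (c • ν) (p.1 • p.2)
      have h10 : ‖(y : Sp d)‖ = ‖y‖ := rfl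
      linarith
    rw [this, mul_zero]

/-- derivatives in arbitrary directions -/
lemma pl_fd (hPF : StmtPF) (hd : 1 ≤ d) {ν : Sp d} (hν : ‖ν‖ = 1) {g : Sp d → ℝ}
    (hg : ContDiff ℝ ∞ g) (hgc : HasCompactSupport g) (w : Sp d) (c : ℝ) :
    plInt ν c (fun y => fderiv ℝ g y w) = ⟪ν, w⟫_ℝ * plInt ν c (fun y => fderiv ℝ g y ν) := by
  have hg1 : ContDiff ℝ 1 g := hg.of_le (by exact_mod_cast le_top)
  obtain ⟨-, -, -, -, h5, -⟩ := (hPF d hd).2 ν hν
  have h6 := h5 g hg1 hgc c (w - ⟪ν, w⟫_ℝ • ν) (by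
    rw [inner_sub_right, inner_smul_right, real_inner_self_eq_norm_sq, hν]
    ring)
  have h7 : (fun y => fderiv ℝ g y w) = fun y => fderiv ℝ g y (w - ⟪ν, w⟫_ℝ • ν) +
      ⟪ν, w⟫_ℝ * fderiv ℝ g y ν := by
    ext y
    rw [map_sub, map_smul, smul_eq_mul]
    ring
  have h8 : Continuous (fun y => ⟪ν, w⟫_ℝ * fderiv ℝ g y ν) :=
    continuous_const.mul (smooth_fd hg _).continuous
  have h9 : HasCompactSupport (fun y => ⟪ν, w⟫_ℝ * fderiv ℝ g y ν) :=
    HasCompactSupport.mul_left (hgc.fderiv_apply ℝ ν)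
  have h10 := pl_add (ν := ν) (c := c) (smooth_fd hg (w - ⟪ν, w⟫_ℝ • ν)).continuous
    (hgc.fderiv_apply ℝ (w - ⟪ν, w⟫_ℝ • ν)) h8 h9
  rw [h7, h10, h6, zero_add, pl_mul]

/-- normal derivative -/
def dn (ν : Sp d) (g : Sp d → ℝ) (y : Sp d) : ℝ := fderiv ℝ g y ν

lemma dn_smooth {ν : Sp d} {g : Sp d → ℝ} (hg : ContDiff ℝ ∞ g) : ContDiff ℝ ∞ (dn ν g) :=
  smooth_fd hg ν

lemma dn_cs {ν : Sp d} {g : Sp d → ℝ} (hg : HasCompactSupport g) : HasCompactSupport (dn ν g) :=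
  hg.fderiv_apply ℝ ν

lemma pl_pd2 (hPF : StmtPF) (hd : 1 ≤ d) {ν : Sp d} (hν : ‖ν‖ = 1) {g : Sp d → ℝ}
    (hg : ContDiff ℝ ∞ g) (hgc : HasCompactSupport g) (i j : Fin d) (c : ℝ) :
    plInt ν c (pd2 i j g) = ν i * ν j * plInt ν c (dn ν (dn ν g)) := by
  have hin : ∀ i : Fin d, ⟪ν, bv i⟫_ℝ = ν i := by
    intro i
    simp [bv, EuclideanSpace.inner_single_right]
  have h1 : pd2 i j g = fun y => fderiv ℝ (fun z => fderiv ℝ g z (bv j)) y (bv i) := by
    ext y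
    unfold pd2
    rw [iteratedFDeriv_two_apply, iter2 hg]
    simp
  rw [h1, pl_fd hPF hd hν (smooth_fd hg _) (hgc.fderiv_apply ℝ _), hin]
  obtain ⟨-, -, h3, -, -, -⟩ := (hPF d hd).2 ν hν
  have ha : HasDerivAt (fun c => plInt ν c (fun y => fderiv ℝ g y (bv j)))
      (plInt ν c (fun y => fderiv ℝ (fun z => fderiv ℝ g z (bv j)) y ν)) c :=
    h3 _ ((smooth_fd hg _).of_le (by exact_mod_cast le_top)) (hgc.fderiv_apply ℝ _) c
  have hb : HasDerivAt (fun c => plInt ν c (fun y => fderiv ℝ g y (bv j)))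
      (ν j * plInt ν c (dn ν (dn ν g))) c := by
    have e : (fun c => plInt ν c (fun y => fderiv ℝ g y (bv j))) =
        fun c => ν j * plInt ν c (dn ν g) := by
      ext c
      rw [pl_fd hPF hd hν hg hgc, hin]
      rfl
    rw [e]
    exact (h3 _ ((dn_smooth hg).of_le (by exact_mod_cast le_top)) (dn_cs hgc) c).const_mul _
  rw [ha.unique hb]
  ring

lemma dd2_smooth {F : Fin d → Fin d → Sp d → ℝ} (hF : ∀ i j, ContDiff ℝ ∞ (F i j)) :
    ContDiff ℝ ∞ (dd2 F) := by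
  have h1 : dd2 F = fun x => ∑ i, ∑ j, fderiv ℝ (fun z => fderiv ℝ (F i j) z (bv j)) x (bv i) := by
    ext x
    unfold dd2 pd2
    refine Finset.sum_congr rfl fun i _ => Finset.sum_congr rfl fun j _ => ?_
    rw [iteratedFDeriv_two_apply, iter2 (hF i j)]
    simp
  rw [h1]
  exact ContDiff.sum fun i _ => ContDiff.sum fun j _ => smooth_fd (smooth_fd (hF i j) _) _

lemma pd2_cont {g : Sp d → ℝ} (hg : ContDiff ℝ ∞ g) (i j : Fin d) : Continuous (pd2 i j g) := by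
  have h1 : pd2 i j g = fun y => fderiv ℝ (fun z => fderiv ℝ g z (bv j)) y (bv i) := by
    ext y
    unfold pd2
    rw [iteratedFDeriv_two_apply, iter2 hg]
    simp
  rw [h1]
  exact (smooth_fd (smooth_fd hg _) _).continuous

lemma pd2_cs {g : Sp d → ℝ} (hg : ContDiff ℝ ∞ g) (hgc : HasCompactSupport g) (i j : Fin d) :
    HasCompactSupport (pd2 i j g) := by
  have h1 : pd2 i j g = fun y => fderiv ℝ (fun z => fderiv ℝ g z (bv j)) y (bv i) := by
    ext y
    unfold pd2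
    rw [iteratedFDeriv_two_apply, iter2 hg]
    simp
  rw [h1]
  exact (hgc.fderiv_apply ℝ _).fderiv_apply ℝ _

lemma cs_sum {ι : Type*} (I : Finset ι) {g : ι → Sp d → ℝ} (hg : ∀ i, HasCompactSupport (g i)) :
    HasCompactSupport (fun y => ∑ i ∈ I, g i y) := by
  classical
  induction I using Finset.induction_on with
  | empty =>
    simp only [Finset.sum_empty]
    exact (HasCompactSupport.zero : HasCompactSupport (0 : Sp d → ℝ))
  | insert i I hi ih =>
    have h1 : (fun y => ∑ k ∈ insert i I, g k y) = g i + fun y => ∑ k ∈ I, g k y := by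
      ext y
      rw [Finset.sum_insert hi]
      rfl
    rw [h1]
    exact (hg i).add ih

lemma pl_main (hPF : StmtPF) (hd : 1 ≤ d) {M c0 : ℝ} {b : Sp d → ℝ} (hb : BaseKer 2 M c0 b)
    {R : ℝ} (hR : 0 ≤ R) {F : Fin d → Fin d → Sp d → ℝ} (hF : ∀ i j, ContDiff ℝ ∞ (F i j))
    (hFc : ∀ i j, HasCompactSupport (F i j)) (ν : Sp d) (c : ℝ) (hν : ‖ν‖ = 1) :
    plInt ν c (nt b R F) =
        plInt ν c (fun y => ∑ i, ∑ j, ν i * ν j * F i j y) -
          ∫ x, b x * plInt ν (c + R * ⟪ν, x⟫_ℝ) (fun y => ∑ i, ∑ j, ν i * ν j * F i j y) := by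
  have hk := hb.kit 0
  have hβ : Continuous (Bp b) := hk.smooth1.continuous
  set G : Sp d → ℝ := fun y => ∑ i, ∑ j, ν i * ν j * F i j y with hG
  have hGs : ContDiff ℝ ∞ G :=
    ContDiff.sum fun i _ => ContDiff.sum fun j _ => contDiff_const.mul (hF i j)
  have hGc : HasCompactSupport G :=
    cs_sum _ fun i => cs_sum _ fun j => HasCompactSupport.mul_left (hFc i j)
  obtain ⟨-, -, h3, h4, -, -⟩ := (hPF d hd).2 ν hν
  -- the profile
  set Φ : ℝ → ℝ := fun c => plInt ν c G with hΦ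
  set Φ1 : ℝ → ℝ := fun c => plInt ν c (dn ν G) with hΦ1
  set Φ2 : ℝ → ℝ := fun c => plInt ν c (dn ν (dn ν G)) with hΦ2
  have hd0 : ∀ c, HasDerivAt Φ (Φ1 c) c := fun c =>
    h3 G (hGs.of_le (by exact_mod_cast le_top)) hGc c
  have hd1 : ∀ c, HasDerivAt Φ1 (Φ2 c) c := fun c =>
    h3 _ ((dn_smooth hGs).of_le (by exact_mod_cast le_top)) (dn_cs hGc) c
  have hΦs : ContDiff ℝ ∞ Φ := contDiff_infty.2 fun n =>
    h4 n G (hGs.of_le (by exact_mod_cast le_top)) hGc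
  -- the plane integral of the double divergence
  have hGG : dn ν (dn ν G) = fun y => ∑ i, ∑ j, ν i * ν j * dn ν (dn ν (F i j)) y := by
    have key : ∀ {H : Fin d → Fin d → Sp d → ℝ}, (∀ i j, ContDiff ℝ ∞ (H i j)) →
        dn ν (fun y => ∑ i, ∑ j, ν i * ν j * H i j y) =
          fun y => ∑ i, ∑ j, ν i * ν j * dn ν (H i j) y := by
      intro H hH
      ext y
      unfold dn
      have h5 : HasFDerivAt (fun y => ∑ i, ∑ j, ν i * ν j * H i j y)
          (∑ i, ∑ j, (ν i * ν j) • fderiv ℝ (H i j) y) y := by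
        refine HasFDerivAt.fun_sum fun i _ => HasFDerivAt.fun_sum fun j _ => ?_
        exact ((hH i j).differentiable (by simp) y).hasFDerivAt.const_mul _
      rw [h5.fderiv]
      simp
    rw [hG, key hF, key fun i j => dn_smooth (hF i j)]
  have hpl : ∀ c, plInt ν c (dd2 F) = Φ2 c := by
    intro c
    have h5 : dd2 F = fun x => ∑ i, ∑ j, pd2 i j (F i j) x := rfl
    rw [h5, pl_sum _ (fun i => continuous_finsetSum _ fun j _ => pd2_cont (hF i j) i j)
      (fun i => cs_sum _ fun j => pd2_cs (hF i j) (hFc i j) i j)]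
    simp only [hΦ2]
    have hHc : ∀ i j, Continuous (fun y => ν i * ν j * dn ν (dn ν (F i j)) y) := fun i j =>
      continuous_const.mul (dn_smooth (dn_smooth (hF i j))).continuous
    have hHs : ∀ i j, HasCompactSupport (fun y => ν i * ν j * dn ν (dn ν (F i j)) y) := fun i j =>
      HasCompactSupport.mul_left (dn_cs (dn_cs (hFc i j)))
    rw [hGG, pl_sum _ (fun i => continuous_finsetSum _ fun j _ => hHc i j)
      (fun i => cs_sum _ fun j => hHs i j)]
    refine Finset.sum_congr rfl fun i _ => ?_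
    rw [pl_sum _ (fun j => pd2_cont (hF i j) i j) (fun j => pd2_cs (hF i j) (hFc i j) i j),
      pl_sum _ (fun j => hHc i j) (fun j => hHs i j)]
    refine Finset.sum_congr rfl fun j _ => ?_
    rw [pl_pd2 hPF hd hν (hF i j) (hFc i j), pl_mul]
  -- the ridge function
  set Z : Sp d → ℝ := fun y => Φ ⟪ν, y⟫_ℝ with hZ
  have hZs : ContDiff ℝ ∞ Z := hΦs.comp (contDiff_const.inner ℝ contDiff_id)
  have hlapZ : lap Z = fun y => Φ2 ⟪ν, y⟫_ℝ := funext (lap_ridge ν hν hd0 hd1)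
  have hftc := ftc (b := b) hb.smooth.continuous (fun x hx => hb.supp x (by linarith)) hb.int
    (hk.smooth1.of_le (by norm_num)) hk.supp1 hk.grad1 hZs R (c • ν)
  have hdc : Continuous (dd2 F) := (dd2_smooth hF).continuous
  have hdcs : HasCompactSupport (dd2 F) :=
    cs_sum _ fun i => cs_sum _ fun j => pd2_cs (hF i j) (hFc i j) i j
  have hνν : ⟪ν, c • ν⟫_ℝ = c := by
    rw [inner_smul_right, real_inner_self_eq_norm_sq, hν]
    ring
  have h6 : plInt ν c (NNp b R (dd2 F)) = NNp b R (lap Z) (c • ν) := by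
    rw [pl_NNp hβ hk.supp1 hR hν c hdc hdcs, NNp_eq hβ hk.supp1 hR (lap_cont hZs).continuous]
    refine integral_congr_ae (Eventually.of_forall fun p => ?_)
    simp only [hlapZ]
    rw [hpl, inner_add_right, hνν]
  have h7 : plInt ν c (nt b R F) = - plInt ν c (NNp b R (dd2 F)) := integral_neg _
  rw [h7, h6, hftc]
  have h8 : Z (c • ν) = plInt ν c G := by
    simp only [hZ, hνν, hΦ]
  have h9 : avk b R Z (c • ν) = ∫ x, b x * plInt ν (c + R * ⟪ν, x⟫_ℝ) G := by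
    unfold avk
    refine integral_congr_ae (Eventually.of_forall fun x => ?_)
    simp only [smul_eq_mul, hZ, hΦ]
    rw [inner_add_right, hνν, inner_smul_right]
  rw [h8, h9]
  ring

end NN

open _root_.TG.NN

/-- MODULE NN -/
theorem stmtNN (hPF : StmtPF) : StmtNN := by
  intro d hd M c0 b hb R hR
  have hk := hb.kit 0
  have hβ : Continuous (Bp b) := hk.smooth1.continuous
  have hftc := fun {ζ : Sp d → ℝ} (hζ : ContDiff ℝ ∞ ζ) (y : Sp d) =>
    ftc (b := b) hb.smooth.continuous (fun x hx => hb.supp x (by linarith)) hb.int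
    (hk.smooth1.of_le (by norm_num)) hk.supp1 hk.grad1 hζ R y
  refine ⟨fun ζ hζ hc => ⟨(NNp_smooth hβ hk.supp1 hR.le hζ).1, NNp_cs hb hR.le hc, fun y => ?_,
    fun j y h => NNp_apply hβ hk.supp1 hR.le hζ j y h,
    fun j N hN y => NNp_norm hb hR.le hζ j N hN y,
    fun x ρ hρ y hy => NNp_supp hb hR.le x ρ hρ y hy⟩, fun φ hφ hc y => ?_, fun F hF hFc => ?_⟩
  · rw [NNp_lap hβ hk.supp1 hR.le hζ, hftc hζ]
  · have h1 : dd2 (fun (i j : Fin d) (z : Sp d) => if i = j then φ z else 0) = lap φ := by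
      ext x
      unfold dd2 lap
      refine Finset.sum_congr rfl fun i _ => ?_
      rw [Finset.sum_eq_single i]
      · simp only [if_true]
        unfold pd2
        congr 1
        ext k
        fin_cases k <;> rfl
      · intro j _ hj
        have hij : ¬ i = j := fun h => hj h.symm
        simp only [hij, if_false]
        unfold pd2
        simp
      · intro h
        exact absurd (Finset.mem_univ i) h
    unfold nt
    rw [h1, hftc hφ]
    ring
  · refine ⟨?_, ?_, fun ν c hν => pl_main hPF (by omega) hb hR.le hF hFc ν c hν⟩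
    · exact (NNp_smooth hβ hk.supp1 hR.le (dd2_smooth hF)).1.neg
    · have h1 : HasCompactSupport (dd2 F) :=
        cs_sum _ fun i => cs_sum _ fun j => pd2_cs (hF i j) (hFc i j) i j
      exact (NNp_cs hb hR.le h1).neg

end

end TG


end

section

/-!
# Trace inequality, general operators: scaling of ATP and bb (module SD)
-/

open MeasureTheory Metric Set TrI
open scoped InnerProductSpace ContDiff

namespace TG

noncomputable section

namespace SD

variable {d : ℕ}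

/-- change of variables on the whole space -/
lemma int_scale (x : Sp d) {t : ℝ} (ht : 0 < t) (g : Sp d → ℝ) :
    ∫ z, g (x + t • z) = 1 / t ^ d * ∫ z, g z := by
  have h1 := Measure.integral_comp_smul_of_nonneg volume (fun w : Sp d => g (x + w)) t
    (hR := ht.le)
  rw [integral_add_left_eq_self (fun w => g w) x] at h1
  rw [h1]
  simp

end SD

theorem stmtSD : StmtSD := by
  refine ⟨?_, ?_⟩
  · intro d V _ _ _ u _ x t ht m c r y
    unfold ATP
    refine integral_congr_ae (Filter.Eventually.of_forall fun z => ?_)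
    beta_reduce
    congr 1
    refine Finset.sum_congr rfl fun k _ => ?_
    congr 1
    rw [SC.itF_aff k u x ht.ne']
    have e1 : x + t • (c + r • z) = x + t • c + (t * r) • z := by
      rw [smul_add, smul_smul, add_assoc]
    have e2 : x + t • y - (x + t • c + (t * r) • z) = t • (y - (c + r • z)) := by
      rw [← e1, add_sub_add_left_eq_sub, ← smul_sub]
    rw [e2, ← e1]
    have h3 := ContinuousMultilinearMap.map_smul_univ
      (iteratedFDeriv ℝ k u (x + t • (c + r • z))) (fun _ => t) (fun _ => y - (c + r • z))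
    rw [h3]
    simp
  · intro d E _ _ _ f hd _ _ x t ht ρ s0 i y e ν c hs0
    unfold bb
    have hl : 0 < lev s0 i := by unfold lev; positivity
    rw [SC.lev_div]
    have h1 : ∀ z, ⟪rs x t f z, e⟫_ℝ *
        (zR ρ ((1 / (lev s0 i / t)) • (z - y)) * (TG.ht ν c z / (lev s0 i / t)) ^ 2) =
        t * (fun w => ⟪f w, e⟫_ℝ * (zR ρ ((1 / lev s0 i) • (w - (x + t • y))) *
          (TG.ht ν (t * c + ⟪ν, x⟫_ℝ) w / lev s0 i) ^ 2)) (x + t • z) := by
      intro z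
      beta_reduce
      have e1 : (1 / (lev s0 i / t)) • (z - y) = (1 / lev s0 i) • (x + t • z - (x + t • y)) := by
        rw [add_sub_add_left_eq_sub, ← smul_sub, smul_smul]
        congr 1
        field_simp
      have e2 : TG.ht ν c z / (lev s0 i / t) =
          TG.ht ν (t * c + ⟪ν, x⟫_ℝ) (x + t • z) / lev s0 i := by
        unfold TG.ht
        rw [inner_add_right, real_inner_smul_right]
        field_simp
        ring
      rw [e1, e2]
      unfold rs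
      rw [real_inner_smul_left]
      ring
    simp_rw [h1]
    rw [integral_const_mul, SD.int_scale x ht (fun w => ⟪f w, e⟫_ℝ *
      (zR ρ ((1 / lev s0 i) • (w - (x + t • y))) *
          (TG.ht ν (t * c + ⟪ν, x⟫_ℝ) w / lev s0 i) ^ 2)), div_pow]
    field_simp

end

end TG


end

section

/-!
# MODULE GS: two sheets which overlap are close (helper79)
-/

open MeasureTheory Metric Set TrI
open scoped InnerProductSpace ContDiff

namespace TG

namespace GSAux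

noncomputable section

variable {d : ℕ}

lemma finrank_perp {n : Sp d} (hn : ‖n‖ = 1) :
    Module.finrank ℝ (Submodule.span ℝ {n})ᗮ = d - 1 := by
  have h0 : n ≠ 0 := by
    rintro rfl
    simp at hn
  have h1 := Submodule.finrank_add_finrank_orthogonal (Submodule.span ℝ {n})
  rw [finrank_span_singleton h0, finrank_euclideanSpace_fin] at h1
  omega

/-- scaling of the plane integral -/
lemma plInt_scale {n : Sp d} (hn : ‖n‖ = 1) (x : Sp d) {t : ℝ} (ht : 0 < t) (s : ℝ)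
    (F : Sp d → ℝ) :
    plInt n s (fun y => F (x + t • y)) = 1 / t ^ (d - 1) * plInt n (⟪n, x⟫_ℝ + t * s) F := by
  have hnn : ⟪n, n⟫_ℝ = 1 := by rw [real_inner_self_eq_norm_sq, hn, one_pow]
  have hx : x - ⟪n, x⟫_ℝ • n ∈ (Submodule.span ℝ {n})ᗮ := by
    rw [Submodule.mem_orthogonal_singleton_iff_inner_right, inner_sub_right, inner_smul_right,
      hnn, mul_one, sub_self]
  set xT : (Submodule.span ℝ {n})ᗮ := ⟨x - ⟪n, x⟫_ℝ • n, hx⟩ with hxT
  set c := ⟪n, x⟫_ℝ + t * s with hc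
  have h1 : ∀ y : (Submodule.span ℝ {n})ᗮ, F (x + t • (s • n + (y : Sp d))) =
      (fun w : (Submodule.span ℝ {n})ᗮ => F (c • n + ((xT + w : (Submodule.span ℝ {n})ᗮ) : Sp d)))
        (t • y) := by
    intro y
    simp only
    congr 1
    rw [Submodule.coe_add, Submodule.coe_smul, hxT, hc]
    module
  unfold plInt
  simp_rw [h1]
  rw [Measure.integral_comp_smul_of_nonneg volume
    (fun w : (Submodule.span ℝ {n})ᗮ => F (c • n + ((xT + w : (Submodule.span ℝ {n})ᗮ) : Sp d))) t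
    (hR := ht.le)]
  rw [integral_add_left_eq_self
    (fun w : (Submodule.span ℝ {n})ᗮ => F (c • n + (w : Sp d))) xT, finrank_perp hn]
  simp

/-- test functions satisfy the tangential bounds -/
lemma TB_of_TFn {J : ℕ} {N : ℝ} {ζ : Sp d → ℝ} (h : TFn (J + 2) N ζ) {n : Sp d}
    (hn : ‖n‖ = 1) (s : ℝ) : TB J n s N ζ := by
  have hN := TU.TFn_nonneg h
  have key : ∀ (j : ℕ) (A : ContinuousMultilinearMap ℝ (fun _ : Fin j => Sp d) ℝ)
      (v : Fin j → Sp d), (∀ i, ‖v i‖ ≤ 1) → ‖A‖ ≤ N → |A v| ≤ N := by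
    intro j A v hv hA
    have h1 := A.le_opNorm v
    rw [Real.norm_eq_abs] at h1
    have h2 : ∏ i, ‖v i‖ ≤ 1 := Finset.prod_le_one (fun i _ => norm_nonneg _) (fun i _ => hv i)
    have h3 : 0 ≤ ∏ i, ‖v i‖ := Finset.prod_nonneg fun i _ => norm_nonneg _
    nlinarith only [h1, hN, h2, hA, h3]
  intro j hj v _ hv y _
  refine ⟨key j _ v hv (h.bd j (by omega) y), key j _ v hv ?_⟩
  set Lv : (Sp d →L[ℝ] ℝ) →L[ℝ] ℝ := ContinuousLinearMap.apply ℝ ℝ n with hL
  have h4 : (fun x => fderiv ℝ ζ x n) = Lv ∘ (fderiv ℝ ζ) := rfl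
  have h5 : ContDiff ℝ j (fderiv ℝ ζ) :=
    h.smooth.fderiv_right (by exact_mod_cast (by omega : j + 1 ≤ J + 2))
  have h6 : ‖Lv‖ ≤ 1 := by
    refine ContinuousLinearMap.opNorm_le_bound _ zero_le_one fun A => ?_
    have := A.le_opNorm n
    rw [hn, mul_one] at this
    rw [one_mul]
    exact this
  rw [h4]
  have h7 := Lv.norm_iteratedFDeriv_comp_left (f := fderiv ℝ ζ) (x := y)
    h5.contDiffAt le_rfl
  refine h7.trans ?_
  rw [norm_iteratedFDeriv_fderiv]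
  have h8 := h.bd (j + 1) (by omega) y
  calc ‖Lv‖ * ‖iteratedFDeriv ℝ (j + 1) ζ y‖ ≤ 1 * N :=
        mul_le_mul h6 h8 (norm_nonneg _) zero_le_one
    _ = N := one_mul N

/-- near positivity for arbitrary C^2 norm -/
lemma ZP' {R D : ℝ} {m : Sp d → ℝ} (h : ZP R D m) {H : Sp d → ℝ} {N : ℝ} (hH : TFn 2 N H)
    (h0 : ∀ y, 0 ≤ H y) (hs : ∀ y, R ≤ ‖y‖ → H y = 0) : -(N * D) ≤ ∫ y, m y * H y := by
  rcases (TU.TFn_nonneg hH).eq_or_lt with hN | hN
  · have h2 : ∀ y, H y = 0 := fun y => by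
      have := TU.TFn_norm hH y
      rw [← hN] at this
      simpa using this
    simp [h2, ← hN]
  · have h2 := TU.TFn_const_mul hH (1 / N)
    have h3 : |1 / N| * N = 1 := by
      rw [abs_of_pos (by positivity)]
      field_simp
    rw [h3] at h2
    have h4 := h (fun y => 1 / N * H y) h2.smooth
      (fun y => mul_nonneg (by positivity) (h0 y))
      (fun y => (le_abs_self _).trans (TU.TFn_norm h2 y)) (fun y => h2.bd 2 le_rfl y)
      (fun y hy => by rw [hs y hy, mul_zero])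
    have h5 : ∫ y, m y * (1 / N * H y) = 1 / N * ∫ y, m y * H y := by
      rw [← integral_const_mul]
      congr 1
      ext y
      ring
    rw [h5] at h4
    have h6 := mul_le_mul_of_nonneg_left h4 hN.le
    have h7 : N * (1 / N * ∫ y, m y * H y) = ∫ y, m y * H y := by
      field_simp
    rw [h7] at h6
    linarith

/-- the off-sheet mass for the radii R - 1 and R -/
lemma blc_mono (R : ℝ) (hR : 8 ≤ R) : ∃ K : ℝ, 0 < K ∧ ∀ (m : Sp d → ℝ) (n : Sp d) (s D : ℝ),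
    Continuous m → ‖n‖ = 1 → |s| ≤ 3 / 2 * R → ZP (R + 1) D m →
      blc n s m (R - 1) ≤ blc n s m R + K * D := by
  have hφs : ContDiff ℝ ∞ (fun y : Sp d => zR R y - zR (R - 1) y) :=
    (TU.zR_smooth (by linarith)).sub (TU.zR_smooth (by linarith))
  have hφc : HasCompactSupport (fun y : Sp d => zR R y - zR (R - 1) y) :=
    (TU.zR_cs R).sub (TU.zR_cs (R - 1))
  obtain ⟨N, hN, hφ⟩ := TU.TFn_of_cs (J := 2) (contDiff_infty.1 hφs 2) hφc
  refine ⟨4 ^ 2 * N * max 1 (R + 1 + 3 / 2 * R) ^ 2, by positivity, ?_⟩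
  intro m n s D hm hn hs hZ
  have h1 : ∀ y : Sp d, R + 1 < ‖y‖ → zR R y - zR (R - 1) y = 0 := fun y hy => by
    rw [TU.zR_zero hy.le, TU.zR_zero (by linarith), sub_zero]
  have h2 := TU.TFn_ht_sq hφ h1 hn hs
  have h3 := ZP' hZ h2 (fun y => by
    refine mul_nonneg ?_ (sq_nonneg _)
    have : zR (R - 1) y ≤ zR R y := Real.smoothTransition.monotone (by linarith)
    linarith) (fun y hy => by
      rw [TU.zR_zero hy, TU.zR_zero (by linarith), sub_zero, zero_mul])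
  have hi : ∀ r : ℝ, 0 < r → Integrable (fun y => m y * (zR r y * hgt n s y ^ 2)) := by
    intro r hr
    have hc : Continuous (fun y => m y * (zR r y * hgt n s y ^ 2)) := by
      have := (TU.zR_smooth (d := d) hr).continuous
      unfold hgt
      fun_prop
    refine hc.integrable_of_hasCompactSupport ?_
    exact ((TU.zR_cs r).mul_right).mul_left
  have h4 : ∫ y, m y * ((zR R y - zR (R - 1) y) * ht n s y ^ 2) =
      blc n s m R - blc n s m (R - 1) := by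
    unfold blc
    rw [← integral_sub (hi R (by linarith)) (hi (R - 1) (by linarith))]
    congr 1
    ext y
    simp only [ht, hgt]
    ring
  rw [h4] at h3
  linarith

/-- the sheet estimate for test functions supported in the ball of radius R - 2 -/
lemma est1 {J : ℕ} {R ab ep D K : ℝ} (hR : 8 ≤ R) (_hD : 0 ≤ D) (hK : 0 < K) {m : Sp d → ℝ}
    {n : Sp d} {s : ℝ} (hS : Sheet J R ab ep D m n s)
    (hb : blc n s m (R - 1) ≤ blc n s m R + K * D) {ζ : Sp d → ℝ} {N Er : ℝ}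
    (hζ : TFn (J + 2) N ζ) (hs : ∀ y, R - 2 ≤ ‖y‖ → ζ y = 0)
    (hE : ep + max 0 (blc n s m R) + D ≤ Er) :
    |(∫ y, m y * ζ y) - ab * plInt n s ζ| ≤ N * ((K + 2) * Er) := by
  have hN := TU.TFn_nonneg hζ
  have h1 := hS.est ζ (R - 2) N N (by exact_mod_cast hζ.smooth) (by linarith) (by linarith) hs
    (TB_of_TFn hζ hS.n1 s) (fun y => hζ.bd 2 (by omega) y)
  refine h1.trans ?_
  have h2 : R - 2 + 1 = R - 1 := by ring
  rw [h2]
  have h3 : blc n s m R ≤ max 0 (blc n s m R) := le_max_right _ _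
  have h4 : 0 ≤ max 0 (blc n s m R) := le_max_left _ _
  have h5 := hS.ep0
  have h6 : ep * N + N * blc n s m (R - 1) + (N + N) * D =
      N * (ep + blc n s m (R - 1) + 2 * D) := by ring
  rw [h6]
  refine mul_le_mul_of_nonneg_left ?_ hN
  have h7 : (K + 2) * (ep + max 0 (blc n s m R) + D) ≤ (K + 2) * Er :=
    mul_le_mul_of_nonneg_left hE (by linarith)
  have h8 : 0 ≤ K * ep := mul_nonneg hK.le h5
  have h9 : 0 ≤ K * max 0 (blc n s m R) := mul_nonneg hK.le h4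
  nlinarith

end

end GSAux

open _root_.TG.GSAux in
theorem stmtGS (h : StmtGE) (_h1 : StmtPF) : StmtGS := by
  intro d J hd R i hR
  obtain ⟨c0, C, hc0, hC, hGE⟩ := h d hd (J + 2) R (by linarith)
  obtain ⟨K, hK, hblc⟩ := blc_mono (d := d) R hR
  set T : ℝ := 2 ^ i with hT
  have hT1 : 1 ≤ T := one_le_pow₀ (by norm_num)
  have hT0 : 0 < T := by linarith
  set C1 : ℝ := (K + 2) + 1 + T ^ (d - 1) * (T ^ (J + 2) * (K + 2)) with hC1
  have hC1p : 0 < C1 := by positivity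
  refine ⟨c0 / C1, C * C1, by positivity, by positivity, ?_⟩
  intro m m' n n' s s' ab ab' ep ep' D Er x p hm hm' hD hS hS' hZ hZ' hcl hp hhp hpx hEr hEc
  have hm'' : Continuous (fun y => T * m' (x + T • y)) := by fun_prop
  have e1 : 0 ≤ ep := hS.ep0
  have e2 : 0 ≤ ep' := hS'.ep0
  have e3 : 0 ≤ max 0 (blc n s m R) := le_max_left _ _
  have e4 : 0 ≤ max 0 (blc n' s' (fun y => T * m' (x + T • y)) R) := le_max_left _ _
  have hEr0 : 0 ≤ Er := by linarith
  have hb1 := hblc m n s D hm hS.n1 hS.loc hZ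
  have hb2 := hblc _ n' s' D hm'' hS'.n1 hS'.loc hZ'
  have key : ∀ (F : Sp d → ℝ) (N : ℝ), TFn (J + 2) N F → (∀ y, 1 ≤ ‖y - p‖ → F y = 0) →
      |ab * plInt n s F - ab' * plInt n' (⟪n', x⟫_ℝ + T * s') F| ≤ C1 * Er * N := by
    intro F N hF hFs
    have hN := TU.TFn_nonneg hF
    have hFc : HasCompactSupport F := by
      refine HasCompactSupport.intro (isCompact_closedBall p 1) fun y hy => ?_
      rw [mem_closedBall, dist_eq_norm, not_le] at hy
      exact hFs y hy.le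
    have hFcont : Continuous F := hF.smooth.continuous
    -- (A)
    have hA := est1 hR hD hK hS hb1 hF (fun y hy => hFs y (by
      have := norm_sub_norm_le y p
      linarith)) (Er := Er) (by linarith)
    -- (B)
    have hζ := TU.TFn_aff hF x hT0.ne'
    have hmax : max 1 |T| = T := by rw [abs_of_pos hT0, max_eq_right hT1]
    rw [hmax] at hζ
    have hB := est1 hR hD hK hS' hb2 hζ (fun y hy => hFs _ (by
      have h1 : ‖T • y‖ = T * ‖y‖ := by rw [norm_smul, Real.norm_eq_abs, abs_of_pos hT0]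
      have h2 : T • y = (x + T • y - p) + (p - x) := by abel
      have h3 := norm_add_le (x + T • y - p) (p - x)
      rw [← h2, h1] at h3
      have h4 : T * (R - 2) ≤ T * ‖y‖ := mul_le_mul_of_nonneg_left hy hT0.le
      nlinarith)) (Er := Er) (by linarith)
    have hI : ∫ y, T * m' (x + T • y) * F (x + T • y) = T * (1 / T ^ d * ∫ y, m' y * F y) := by
      have h1 := SD.int_scale x hT0 (fun z => m' z * F z)
      rw [← h1, ← integral_const_mul]
      congr 1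
      ext y
      ring
    rw [hI, plInt_scale hS'.n1 x hT0 s' F] at hB
    have hTd : T * (1 / T ^ d) = 1 / T ^ (d - 1) := by
      obtain ⟨k, rfl⟩ : ∃ k, d = k + 1 := ⟨d - 1, by omega⟩
      simp only [Nat.add_sub_cancel]
      field_simp
      ring
    have hB' : |(∫ y, m' y * F y) - ab' * plInt n' (⟪n', x⟫_ℝ + T * s') F| ≤
        T ^ (d - 1) * (T ^ (J + 2) * N * ((K + 2) * Er)) := by
      have h1 : T * (1 / T ^ d * ∫ y, m' y * F y) -
          ab' * (1 / T ^ (d - 1) * plInt n' (⟪n', x⟫_ℝ + T * s') F) =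
          1 / T ^ (d - 1) * ((∫ y, m' y * F y) - ab' * plInt n' (⟪n', x⟫_ℝ + T * s') F) := by
        rw [← mul_assoc, hTd]
        ring
      rw [h1, abs_mul, abs_of_pos (by positivity : 0 < 1 / T ^ (d - 1))] at hB
      have h2 := mul_le_mul_of_nonneg_left hB (by positivity : 0 ≤ T ^ (d - 1))
      have h3 : T ^ (d - 1) * (1 / T ^ (d - 1) *
          |(∫ y, m' y * F y) - ab' * plInt n' (⟪n', x⟫_ℝ + T * s') F|) =
          |(∫ y, m' y * F y) - ab' * plInt n' (⟪n', x⟫_ℝ + T * s') F| := by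
        field_simp
      rwa [h3] at h2
    -- (C)
    have hCl : |(∫ y, m y * F y) - ∫ y, m' y * F y| ≤ N * D := by
      have hi : Integrable (fun y => m y * F y) :=
        (hm.mul hFcont).integrable_of_hasCompactSupport hFc.mul_left
      have hi' : Integrable (fun y => m' y * F y) :=
        (hm'.mul hFcont).integrable_of_hasCompactSupport hFc.mul_left
      rw [← integral_sub hi hi']
      have h0 : ∀ y, m y * F y - m' y * F y = (m y - m' y) * F y := fun y => by ring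
      simp_rw [h0]
      rcases hN.eq_or_lt with hN0 | hN0
      · have h2 : ∀ y, F y = 0 := fun y => by
          have := TU.TFn_norm hF y
          rw [← hN0] at this
          simpa using this
        simp [h2, ← hN0]
      · have h2 := TU.TFn_const_mul (TU.TFn_mono hF (by omega : 2 ≤ J + 2) le_rfl) (1 / N)
        have h3 : |1 / N| * N = 1 := by
          rw [abs_of_pos (by positivity)]
          field_simp
        rw [h3] at h2
        have h4 := hcl (fun y => 1 / N * F y) h2.smooth (fun y => TU.TFn_norm h2 y)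
          (fun y => h2.bd 2 le_rfl y) (fun y hy => by
            rw [hFs y (by
              have := norm_sub_norm_le y p
              linarith), mul_zero])
        have h5 : ∫ y, (m y - m' y) * (1 / N * F y) = 1 / N * ∫ y, (m y - m' y) * F y := by
          rw [← integral_const_mul]
          congr 1
          ext y
          ring
        rw [h5, abs_mul, abs_of_pos (by positivity : 0 < 1 / N)] at h4
        have h6 := mul_le_mul_of_nonneg_left h4 hN0.le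
        have h7 : N * (1 / N * |∫ y, (m y - m' y) * F y|) = |∫ y, (m y - m' y) * F y| := by
          field_simp
        rwa [h7] at h6
    have hDE : N * D ≤ N * Er := mul_le_mul_of_nonneg_left (by linarith) hN
    have h9 : ab * plInt n s F - ab' * plInt n' (⟪n', x⟫_ℝ + T * s') F =
        -((∫ y, m y * F y) - ab * plInt n s F) + ((∫ y, m y * F y) - ∫ y, m' y * F y) +
        ((∫ y, m' y * F y) - ab' * plInt n' (⟪n', x⟫_ℝ + T * s') F) := by ring
    rw [h9]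
    refine (abs_add_three _ _ _).trans ?_
    rw [abs_neg, hC1]
    linarith only [hA, hB', hCl, hDE]
  have hfin := hGE n n' s (⟪n', x⟫_ℝ + T * s') ab ab' (C1 * Er) p hS.n1 hS'.n1 (by linarith)
    hhp hS.ab0 hS'.ab0.le (by positivity) (by
      have := mul_le_mul_of_nonneg_left hEc hC1p.le
      have h2 : C1 * (c0 / C1 * ab) = c0 * ab := by field_simp
      rwa [h2] at this) key
  obtain ⟨h1, σ, hσ, h2⟩ := hfin
  refine ⟨by linarith, σ, hσ, by linarith⟩

end TG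


end

section

/-!
# Reduction to cells (module PT), part a: averages with general kernels
-/

open MeasureTheory Metric Set TrI Filter
open scoped InnerProductSpace ContDiff Convolution

set_option linter.unusedSectionVars false

namespace TG

noncomputable section

namespace PTm

variable {d : ℕ}

/-- kernels: continuous, supported in the unit ball -/
structure Ker (ψ : Sp d → ℝ) : Prop where
  cont : Continuous ψ
  supp : ∀ y, 1 ≤ ‖y‖ → ψ y = 0

lemma Ker.cs {ψ : Sp d → ℝ} (h : Ker ψ) : HasCompactSupport ψ :=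
  HasCompactSupport.intro (isCompact_closedBall (0 : Sp d) 1) fun x hx => h.supp x (by
    rw [mem_closedBall, dist_zero_right, not_le] at hx
    exact hx.le)

section Avk

variable {F : Type*} [NormedAddCommGroup F] [NormedSpace ℝ F]

lemma Ker.int {ψ : Sp d → ℝ} (h : Ker ψ) {g : Sp d → F} (hg : Continuous g) (s : ℝ) (x : Sp d) :
    Integrable (fun y => ψ y • g (x + s • y)) := by
  refine Continuous.integrable_of_hasCompactSupport
    (h.cont.smul (hg.comp (by fun_prop))) ?_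
  exact HasCompactSupport.smul_right h.cs

lemma avk_cont {ψ : Sp d → ℝ} (h : Ker ψ) {g : Sp d → F} (hg : Continuous g) (s : ℝ) :
    Continuous (avk ψ s g) := by
  have h1 : avk ψ s g = fun z => ∫ y in closedBall (0 : Sp d) 1, ψ y • g (z + s • y) := by
    ext z
    unfold avk
    symm
    refine setIntegral_eq_integral_of_forall_compl_eq_zero fun y hy => ?_
    rw [mem_closedBall, dist_zero_right, not_le] at hy
    rw [h.supp y hy.le, zero_smul]
  rw [h1]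
  refine continuous_parametric_integral_of_continuous ?_ (isCompact_closedBall _ _)
  have h2 : Continuous fun p : Sp d × Sp d => ψ p.2 • g (p.1 + s • p.2) :=
    (h.cont.comp continuous_snd).smul (hg.comp (by fun_prop))
  exact h2

/-- avk ψ s g x only depends on g near x -/
lemma avk_congr {ψ : Sp d → ℝ} (h : Ker ψ) {s : ℝ} (hs : 0 ≤ s) {g g' : Sp d → F} {x : Sp d}
    (hg : ∀ z, ‖z - x‖ ≤ s → g z = g' z) : avk ψ s g x = avk ψ s g' x := by
  unfold avk
  congr 1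
  ext y
  by_cases hy : 1 ≤ ‖y‖
  · rw [h.supp y hy, zero_smul, zero_smul]
  · rw [hg]
    rw [add_sub_cancel_left, norm_smul, Real.norm_of_nonneg hs]
    push Not at hy
    nlinarith [norm_nonneg y]

lemma avk_zero_of {ψ : Sp d → ℝ} (h : Ker ψ) {s : ℝ} (hs : 0 ≤ s) {g : Sp d → F} {x : Sp d}
    (hg : ∀ z, ‖z - x‖ ≤ s → g z = 0) : avk ψ s g x = 0 := by
  rw [avk_congr h hs (g' := fun _ => 0) hg]
  unfold avk
  simp

lemma avk_sum {ι : Type*} {ψ : Sp d → ℝ} (h : Ker ψ) (s : ℝ) (S : Finset ι) {g : ι → Sp d → F}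
    (hg : ∀ i ∈ S, Continuous (g i)) (x : Sp d) :
    avk ψ s (fun z => ∑ i ∈ S, g i z) x = ∑ i ∈ S, avk ψ s (g i) x := by
  unfold avk
  rw [← integral_finsetSum _ fun i hi => h.int (hg i hi) s x]
  congr 1
  ext y
  rw [Finset.smul_sum]

lemma norm_avk_le {ψ : Sp d → ℝ} (h : Ker ψ) (h0 : ∀ y, 0 ≤ ψ y) (h1 : ∫ y, ψ y = 1)
    {g : Sp d → F} {H : ℝ} (hH : ∀ z, ‖g z‖ ≤ H) (s : ℝ) (x : Sp d) : ‖avk ψ s g x‖ ≤ H := by
  have hψ : Integrable ψ := h.cont.integrable_of_hasCompactSupport h.cs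
  have h2 : ‖avk ψ s g x‖ ≤ ∫ y, ψ y * H := by
    refine norm_integral_le_of_norm_le (hψ.mul_const H) ?_
    refine Eventually.of_forall fun y => ?_
    rw [norm_smul, Real.norm_of_nonneg (h0 y)]
    exact mul_le_mul_of_nonneg_left (hH _) (h0 y)
  rwa [integral_mul_const, h1, one_mul] at h2

lemma avk_inner {E : Type*} [NormedAddCommGroup E] [InnerProductSpace ℝ E] [CompleteSpace E]
    {ψ : Sp d → ℝ} (h : Ker ψ) {g : Sp d → E} (hg : Continuous g) (s : ℝ) (x : Sp d) (e : E) :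
    ⟪avk ψ s g x, e⟫_ℝ = avk ψ s (fun z => ⟪g z, e⟫_ℝ) x := by
  unfold avk
  rw [real_inner_comm, ← integral_inner (h.int hg s x) e]
  congr 1
  ext y
  rw [real_inner_smul_right, smul_eq_mul, real_inner_comm]

lemma cs_bd {G : Type*} [NormedAddCommGroup G] {g : Sp d → G} (hg : HasCompactSupport g) :
    ∃ ρ : ℝ, 0 ≤ ρ ∧ ∀ y, ρ < ‖y‖ → g y = 0 := by
  obtain ⟨ρ, hρ⟩ := hg.isCompact.isBounded.subset_closedBall 0
  refine ⟨max ρ 0, le_max_right _ _, fun y hy => ?_⟩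
  by_contra h
  have h1 := hρ (subset_tsupport g h)
  rw [mem_closedBall, dist_zero_right] at h1
  exact absurd ((le_max_left _ _).trans_lt hy) (not_lt.mpr h1)

/-- self-adjointness for even kernels -/
lemma avk_adj {ψ : Sp d → ℝ} (h : Ker ψ) (he : ∀ y, ψ (-y) = ψ y) {φ k : Sp d → ℝ}
    (hφ : Continuous φ) (hφ' : HasCompactSupport φ) (hk : Continuous k) (s : ℝ) :
    ∫ x, avk ψ s φ x * k x = ∫ x, φ x * avk ψ s k x := by
  obtain ⟨ρ, hρ0, hρ⟩ := cs_bd hφ'
  have hI1 : Integrable (Function.uncurry fun (x y : Sp d) => ψ y * φ (x + s • y) * k x)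
      ((volume : Measure (Sp d)).prod volume) := by
    refine Continuous.integrable_of_hasCompactSupport ?_ ?_
    · have := h.cont
      unfold Function.uncurry
      fun_prop
    · refine HasCompactSupport.intro
        ((isCompact_closedBall (0 : Sp d) (ρ + |s|)).prod (isCompact_closedBall (0 : Sp d) 1)) ?_
      rintro ⟨x, y⟩ hx
      simp only [Function.uncurry]
      rw [mem_prod, not_and_or] at hx
      by_cases hy : 1 ≤ ‖y‖
      · rw [h.supp y hy, zero_mul, zero_mul]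
      push Not at hy
      rcases hx with hx | hx
      · rw [mem_closedBall, dist_zero_right, not_le] at hx
        rw [hρ, mul_zero, zero_mul]
        have h1 : ‖x‖ ≤ ‖x + s • y‖ + ‖s • y‖ := by
          have := norm_sub_le (x + s • y) (s • y)
          rwa [add_sub_cancel_right] at this
        have h2 : ‖s • y‖ ≤ |s| := by
          rw [norm_smul, Real.norm_eq_abs]
          exact mul_le_of_le_one_right (abs_nonneg s) hy.le
        simp only at hx
        linarith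
      · rw [mem_closedBall, dist_zero_right, not_le] at hx
        simp only at hx
        linarith
  have hI2 : Integrable (Function.uncurry fun (x y : Sp d) => ψ y * φ x * k (x + s • y))
      ((volume : Measure (Sp d)).prod volume) := by
    refine Continuous.integrable_of_hasCompactSupport ?_ ?_
    · have := h.cont
      unfold Function.uncurry
      fun_prop
    · refine HasCompactSupport.intro
        ((isCompact_closedBall (0 : Sp d) ρ).prod (isCompact_closedBall (0 : Sp d) 1)) ?_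
      rintro ⟨x, y⟩ hx
      simp only [Function.uncurry]
      rw [mem_prod, not_and_or] at hx
      rcases hx with hx | hx
      · rw [mem_closedBall, dist_zero_right, not_le] at hx
        rw [hρ x hx, mul_zero, zero_mul]
      · rw [mem_closedBall, dist_zero_right, not_le] at hx
        rw [h.supp y hx.le, zero_mul, zero_mul]
  have e1 : ∀ x, avk ψ s φ x * k x = ∫ y, ψ y * φ (x + s • y) * k x := by
    intro x
    unfold avk
    rw [← integral_mul_const]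
    rfl
  have e2 : ∀ x, φ x * avk ψ s k x = ∫ y, ψ y * φ x * k (x + s • y) := by
    intro x
    unfold avk
    rw [← integral_const_mul]
    congr 1
    ext y
    rw [smul_eq_mul]
    ring
  simp only [e1, e2]
  rw [integral_integral_swap hI1, integral_integral_swap hI2]
  have e3 : ∀ y : Sp d, ∫ x, ψ y * φ (x + s • y) * k x =
      ∫ x, ψ (-y) * φ x * k (x + s • (-y)) := by
    intro y
    rw [← integral_add_right_eq_self (μ := volume) (fun x => ψ y * φ (x + s • y) * k x)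
      (-(s • y))]
    congr 1
    ext x
    rw [he, smul_neg, neg_add_cancel_right]
  simp only [e3]
  exact integral_neg_eq_self (fun y : Sp d => ∫ x, ψ y * φ x * k (x + s • y)) volume

end Avk

/-! ## the kernels KN -/

lemma kit_ker {J : ℕ} {M : ℝ} {β : Sp d → ℝ} (h : Kit J M β) : Ker β :=
  ⟨h.prof.smooth.continuous, h.prof.supp⟩

lemma kit_even {J : ℕ} {M : ℝ} {β : Sp d → ℝ} (h : Kit J M β) (y : Sp d) : β (-y) = β y :=
  le_antisymm (h.prof.mono y (-y) (by rw [norm_neg])) (h.prof.mono (-y) y (by rw [norm_neg]))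

lemma base_ker {J : ℕ} {M c : ℝ} {b : Sp d → ℝ} (h : BaseKer J M c b) : Ker b :=
  ⟨h.smooth.continuous, fun y hy => h.supp y (by linarith)⟩

lemma kit_mono {J J' : ℕ} (hJ : J' ≤ J) {M : ℝ} {β : Sp d → ℝ} (h : Kit J M β) : Kit J' M β where
  prof := ⟨h.prof.smooth.of_le (by exact_mod_cast hJ), h.prof.nonneg, h.prof.mono, h.prof.supp,
    h.prof.int, fun j hj => h.prof.der j (hj.trans hJ)⟩
  smooth1 := h.smooth1.of_le (by exact_mod_cast hJ)
  smooth2 := h.smooth2.of_le (by exact_mod_cast hJ)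
  supp1 := h.supp1
  supp2 := h.supp2
  grad1 := h.grad1
  grad2 := h.grad2
  nonneg1 := h.nonneg1
  nonneg2 := h.nonneg2
  le1 := h.le1
  le2 := h.le2
  mono1 := h.mono1
  mono2 := h.mono2
  der1 := fun j hj => h.der1 j (hj.trans hJ)
  der2 := fun j hj => h.der2 j (hj.trans hJ)

lemma base_mono {J J' : ℕ} (hJ : J' ≤ J) {M c : ℝ} {b : Sp d → ℝ} (h : BaseKer J M c b) :
    BaseKer J' M c b where
  c_pos := h.c_pos
  smooth := h.smooth.of_le (by exact_mod_cast hJ)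
  nonneg := h.nonneg
  mono := h.mono
  supp := h.supp
  int := h.int
  kit := fun n => kit_mono hJ (h.kit n)
  low := h.low

lemma lev_pos {s0 : ℝ} (h : 0 < s0) (i : ℕ) : 0 < lev s0 i := by
  unfold lev; positivity

lemma lev_succ (s0 : ℝ) (i : ℕ) : lev s0 (i + 1) = 2 * lev s0 i := by
  unfold lev; ring

section Fl

variable {F : Type*} [NormedAddCommGroup F] [NormedSpace ℝ F]

lemma fl_zero (b : Sp d → ℝ) (ε s0 : ℝ) (f : Sp d → F) : fl b ε s0 f 0 = f := rfl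

lemma fl_succ (b : Sp d → ℝ) (ε s0 : ℝ) (f : Sp d → F) (i : ℕ) :
    fl b ε s0 f (i + 1) = avk b (ε * lev s0 (i + 1)) (fl b ε s0 f i) := rfl

lemma fl_cont {b : Sp d → ℝ} (hb : Ker b) (ε s0 : ℝ) {f : Sp d → F} (hf : Continuous f) (i : ℕ) :
    Continuous (fl b ε s0 f i) := by
  induction i with
  | zero => exact hf
  | succ i ih => exact avk_cont hb ih _

lemma fl_supp {b : Sp d → ℝ} (hb : Ker b) {ε s0 : ℝ} (hε : 0 ≤ ε) (hs : 0 < s0) {f : Sp d → F}
    {ρ : ℝ} (hρ : ∀ y, ρ < ‖y‖ → f y = 0) (i : ℕ) :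
    ∀ y, ρ + ε * (2 * lev s0 i) < ‖y‖ → fl b ε s0 f i y = 0 := by
  induction i with
  | zero =>
    intro y hy
    refine hρ y (lt_of_le_of_lt ?_ hy)
    have := lev_pos hs 0
    have : 0 ≤ ε * (2 * lev s0 0) := by positivity
    linarith
  | succ i ih =>
    intro y hy
    rw [fl_succ]
    have h0 := lev_pos hs i
    refine avk_zero_of hb (by rw [lev_succ]; positivity) fun z hz => ih z ?_
    rw [lev_succ] at hy hz
    have h1 : ‖y‖ ≤ ‖z‖ + ‖z - y‖ := by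
      have := norm_sub_le z (z - y)
      rwa [sub_sub_cancel] at this
    nlinarith

/-- kernel identity -/
lemma avk_KN [CompleteSpace F] {b : Sp d → ℝ} (hb : Ker b) {n : ℕ} (hn : Ker (KN b n))
    {f : Sp d → F} (hf : Continuous f) (s : ℝ) (x : Sp d) :
    avk (KN b (n + 1)) s f x = avk b s (avk (KN b n) (s / 2) f) x := by
  unfold avk
  have e1 : ∀ z : Sp d, KN b (n + 1) z • f (x + s • z) =
      ∫ y, (b y * (2 ^ d * KN b n ((2 : ℝ) • (z - y)))) • f (x + s • z) := by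
    intro z
    rw [integral_smul_const]
    rfl
  have hI : Integrable (Function.uncurry fun (z y : Sp d) =>
      (b y * (2 ^ d * KN b n ((2 : ℝ) • (z - y)))) • f (x + s • z))
      ((volume : Measure (Sp d)).prod volume) := by
    refine Continuous.integrable_of_hasCompactSupport ?_ ?_
    · have := hb.cont
      have := hn.cont
      unfold Function.uncurry
      fun_prop
    · refine HasCompactSupport.intro
        ((isCompact_closedBall (0 : Sp d) 2).prod (isCompact_closedBall (0 : Sp d) 1)) ?_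
      rintro ⟨z, y⟩ hx
      simp only [Function.uncurry]
      rw [mem_prod, not_and_or] at hx
      by_cases hy : 1 ≤ ‖y‖
      · rw [hb.supp y hy, zero_mul, zero_smul]
      push Not at hy
      rcases hx with hx | hx
      · rw [mem_closedBall, dist_zero_right, not_le] at hx
        rw [hn.supp, mul_zero, mul_zero, zero_smul]
        rw [norm_smul, Real.norm_of_nonneg (by norm_num : (0 : ℝ) ≤ 2)]
        have h1 : ‖z‖ ≤ ‖z - y‖ + ‖y‖ := by
          have := norm_add_le (z - y) y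
          rwa [sub_add_cancel] at this
        simp only at hx
        linarith
      · rw [mem_closedBall, dist_zero_right, not_le] at hx
        simp only at hx
        linarith
  simp only [e1]
  rw [integral_integral_swap hI]
  congr 1
  ext y
  have e2 : ∀ z : Sp d, (b y * (2 ^ d * KN b n ((2 : ℝ) • (z - y)))) • f (x + s • z) =
      b y • ((2 : ℝ) ^ d • (KN b n ((2 : ℝ) • (z - y)) • f (x + s • z))) := by
    intro z
    rw [smul_smul, smul_smul]
    congr 1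
    ring
  simp only [e2]
  rw [integral_smul, integral_smul]
  congr 1
  rw [← integral_add_right_eq_self (μ := volume)
    (fun z => KN b n ((2 : ℝ) • (z - y)) • f (x + s • z)) y]
  have e3 : ∀ z : Sp d, KN b n ((2 : ℝ) • (z + y - y)) • f (x + s • (z + y)) =
      (fun w => KN b n w • f (x + s • y + (s / 2) • w)) ((2 : ℝ) • z) := by
    intro z
    simp only [add_sub_cancel_right, smul_smul]
    congr 2
    rw [smul_add, div_mul_cancel₀ _ (by norm_num : (2 : ℝ) ≠ 0), add_assoc, add_comm (s • z)]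
  simp only [e3]
  have e4 := Measure.integral_comp_smul (volume : Measure (Sp d))
    (fun w => KN b n w • f (x + s • y + (s / 2) • w)) (2 : ℝ)
  beta_reduce at e4
  rw [e4, smul_smul, finrank_euclideanSpace_fin, abs_of_pos (by positivity),
    mul_inv_cancel₀ (by positivity), one_smul]

lemma fl_eq [CompleteSpace F] {b : Sp d → ℝ} (hb : Ker b) (hn : ∀ n, Ker (KN b n))
    {f : Sp d → F} (hf : Continuous f) (ε s0 : ℝ) (n : ℕ) :
    fl b ε s0 f (n + 1) = avk (KN b n) (ε * lev s0 (n + 1)) f := by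
  induction n with
  | zero => rfl
  | succ n ih =>
    rw [fl_succ, ih]
    ext x
    rw [avk_KN hb (hn n) hf]
    congr 2
    rw [lev_succ s0 (n + 1)]
    ring

end Fl

end PTm

end

end TG


end

section

/-!
# Reduction to cells (module PT), part b: C² bounds
-/

open MeasureTheory Metric Set TrI Filter
open scoped InnerProductSpace ContDiff Convolution

set_option linter.unusedSectionVars false

namespace TG

noncomputable section

namespace PTm

variable {d : ℕ}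

lemma TFn.nonneg {J : ℕ} {N : ℝ} {φ : Sp d → ℝ} (h : TFn J N φ) : 0 ≤ N :=
  (norm_nonneg _).trans (h.bd 0 (Nat.zero_le J) 0)

lemma TFn.abs_le {J : ℕ} {N : ℝ} {φ : Sp d → ℝ} (h : TFn J N φ) (x : Sp d) : |φ x| ≤ N := by
  have := h.bd 0 (Nat.zero_le J) x
  rwa [norm_iteratedFDeriv_zero, Real.norm_eq_abs] at this

lemma TFn.mono' {J : ℕ} {N N' : ℝ} {φ : Sp d → ℝ} (h : TFn J N φ) (hN : N ≤ N') : TFn J N' φ :=
  ⟨h.smooth, fun j hj x => (h.bd j hj x).trans hN⟩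

lemma TFn.mul {N N' : ℝ} {φ ψ : Sp d → ℝ} (h : TFn 2 N φ) (h' : TFn 2 N' ψ) :
    TFn 2 (4 * N * N') (fun x => φ x * ψ x) where
  smooth := h.smooth.mul h'.smooth
  bd := by
    intro j hj x
    have h0 := TFn.nonneg h
    have h0' := TFn.nonneg h'
    refine (norm_iteratedFDeriv_mul_le h.smooth h'.smooth x (n := j) (by exact_mod_cast hj)).trans ?_
    have h1 : ∑ i ∈ Finset.range (j + 1), (j.choose i : ℝ) * ‖iteratedFDeriv ℝ i φ x‖ *
        ‖iteratedFDeriv ℝ (j - i) ψ x‖ ≤ ∑ i ∈ Finset.range (j + 1), (j.choose i : ℝ) * N * N' := by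
      refine Finset.sum_le_sum fun i hi => ?_
      have hi' : i ≤ j := Nat.lt_succ_iff.mp (Finset.mem_range.mp hi)
      have := h.bd i (hi'.trans hj) x
      have := h'.bd (j - i) ((Nat.sub_le _ _).trans hj) x
      gcongr
    refine h1.trans ?_
    rw [← Finset.sum_mul, ← Finset.sum_mul]
    have h2 : ∑ i ∈ Finset.range (j + 1), (j.choose i : ℝ) = 2 ^ j := by
      exact_mod_cast Nat.sum_range_choose j
    rw [h2]
    have h3 : (2 : ℝ) ^ j ≤ 4 := by
      calc (2 : ℝ) ^ j ≤ 2 ^ 2 := pow_le_pow_right₀ (by norm_num) hj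
        _ = 4 := by norm_num
    gcongr

lemma TFn.sub {N N' : ℝ} {φ ψ : Sp d → ℝ} (h : TFn 2 N φ) (h' : TFn 2 N' ψ) :
    TFn 2 (N + N') (fun x => φ x - ψ x) where
  smooth := h.smooth.sub h'.smooth
  bd := by
    intro j hj x
    have e : iteratedFDeriv ℝ j (fun x => φ x - ψ x) x =
        iteratedFDeriv ℝ j φ x - iteratedFDeriv ℝ j ψ x := by
      have h1 : ContDiffAt ℝ j φ x := (h.smooth.of_le (by exact_mod_cast hj)).contDiffAt
      have h2 : ContDiffAt ℝ j ψ x := (h'.smooth.of_le (by exact_mod_cast hj)).contDiffAt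
      exact iteratedFDeriv_sub_apply h1 h2
    rw [e]
    exact (norm_sub_le _ _).trans (add_le_add (h.bd j hj x) (h'.bd j hj x))

lemma TFn.const_mul {N : ℝ} {φ : Sp d → ℝ} (h : TFn 2 N φ) (a : ℝ) :
    TFn 2 (|a| * N) (fun x => a * φ x) where
  smooth := contDiff_const.mul h.smooth
  bd := by
    intro j hj x
    have e : iteratedFDeriv ℝ j (fun x => a * φ x) x = a • iteratedFDeriv ℝ j φ x := by
      have h1 : ContDiffAt ℝ j φ x := (h.smooth.of_le (by exact_mod_cast hj)).contDiffAt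
      exact iteratedFDeriv_const_smul_apply' (a := a) h1
    rw [e, norm_smul, Real.norm_eq_abs]
    exact mul_le_mul_of_nonneg_left (h.bd j hj x) (abs_nonneg a)

lemma TFn.comp_sub {N : ℝ} {φ : Sp d → ℝ} (h : TFn 2 N φ) (a : Sp d) :
    TFn 2 N (fun x => φ (x - a)) where
  smooth := h.smooth.comp (contDiff_id.sub contDiff_const)
  bd := by
    intro j hj x
    rw [iteratedFDeriv_comp_sub]
    exact h.bd j hj _

lemma TFn.comp_smul {N : ℝ} {φ : Sp d → ℝ} (h : TFn 2 N φ) {a : ℝ} (ha : 1 ≤ a) :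
    TFn 2 (a ^ 2 * N) (fun x => φ (a • x)) where
  smooth := h.smooth.comp (contDiff_const_smul a)
  bd := by
    intro j hj x
    have h0 := TFn.nonneg h
    have e := (a • ContinuousLinearMap.id ℝ (Sp d)).iteratedFDeriv_comp_right h.smooth x (i := j)
      (by exact_mod_cast hj)
    have e2 : (φ ∘ (a • ContinuousLinearMap.id ℝ (Sp d) : Sp d →L[ℝ] Sp d)) =
        fun x => φ (a • x) := rfl
    rw [e2] at e
    rw [e]
    refine (ContinuousMultilinearMap.norm_compContinuousLinearMap_le _ _).trans ?_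
    have h1 : ‖(a • ContinuousLinearMap.id ℝ (Sp d) : Sp d →L[ℝ] Sp d)‖ ≤ a := by
      rw [norm_smul, Real.norm_of_nonneg (by linarith)]
      exact mul_le_of_le_one_right (by linarith) ContinuousLinearMap.norm_id_le
    rw [Finset.prod_const, Finset.card_univ, Fintype.card_fin]
    have h2 : ‖(a • ContinuousLinearMap.id ℝ (Sp d) : Sp d →L[ℝ] Sp d)‖ ^ j ≤ a ^ 2 :=
      (pow_le_pow_left₀ (norm_nonneg _) h1 j).trans (pow_le_pow_right₀ ha hj)
    rw [mul_comm]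
    exact mul_le_mul h2 (h.bd j hj _) (norm_nonneg _) (by positivity)

/-! ## convolutions -/

section Conv

variable {W : Type*} [NormedAddCommGroup W] [NormedSpace ℝ W]

/-- convolution -/
def cv (k : Sp d → ℝ) (K : Sp d → W) (x : Sp d) : W := ∫ z, k z • K (x - z)

lemma cv_fderiv {k : Sp d → ℝ} (hk : Continuous k) {K : Sp d → W} (hK : ContDiff ℝ 1 K)
    (hK' : HasCompactSupport K) (x : Sp d) : HasFDerivAt (cv k K) (cv k (fderiv ℝ K) x) x := by
  have h1 := hK'.hasFDerivAt_convolution_right (ContinuousLinearMap.lsmul ℝ ℝ : ℝ →L[ℝ] W →L[ℝ] W)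
    (hk.locallyIntegrable (μ := (volume : Measure (Sp d)))) hK x
  exact h1

lemma cv_bd {k : Sp d → ℝ} {H : ℝ} (hH : ∀ z, |k z| ≤ H) {K : Sp d → W}
    (hK' : ∀ z, 1 < ‖z‖ → K z = 0) {B : ℝ} (hB : ∀ z, ‖K z‖ ≤ B) (x : Sp d) :
    ‖cv k K x‖ ≤ H * B * (volume (closedBall (0 : Sp d) 1)).toReal := by
  have hH0 : 0 ≤ H := (abs_nonneg _).trans (hH 0)
  have hB0 : 0 ≤ B := (norm_nonneg _).trans (hB 0)
  unfold cv
  have e : ∫ z, k z • K (x - z) = ∫ z in closedBall x 1, k z • K (x - z) := by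
    symm
    refine setIntegral_eq_integral_of_forall_compl_eq_zero fun z hz => ?_
    rw [mem_closedBall, dist_comm, dist_eq_norm, not_le] at hz
    rw [hK' _ hz, smul_zero]
  rw [e]
  have h2 : (volume (closedBall x 1)).toReal = (volume (closedBall (0 : Sp d) 1)).toReal := by
    rw [Measure.addHaar_closedBall_center]
  rw [← h2]
  refine norm_setIntegral_le_of_norm_le_const measure_closedBall_lt_top fun z _ => ?_
  rw [norm_smul, Real.norm_eq_abs]
  exact mul_le_mul (hH z) (hB _) (norm_nonneg _) hH0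

lemma fderiv_supp {K : Sp d → W} (hK : ∀ z, 1 < ‖z‖ → K z = 0) :
    ∀ z, 1 < ‖z‖ → fderiv ℝ K z = 0 := by
  intro z hz
  have h1 : K =ᶠ[nhds z] fun _ => 0 := by
    have h2 : {w : Sp d | 1 < ‖w‖} ∈ nhds z := (isOpen_lt continuous_const continuous_norm).mem_nhds hz
    filter_upwards [h2] with w hw
    exact hK w hw
  rw [h1.fderiv_eq, fderiv_fun_const]
  rfl

lemma cs_of_supp {K : Sp d → W} (hK : ∀ z, 1 < ‖z‖ → K z = 0) : HasCompactSupport K :=
  HasCompactSupport.intro (isCompact_closedBall (0 : Sp d) 1) fun x hx => hK x (by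
    rwa [mem_closedBall, dist_zero_right, not_le] at hx)

end Conv

lemma cv_TFn {k : Sp d → ℝ} (hk : Continuous k) {H : ℝ} (hH : ∀ z, |k z| ≤ H) {K : Sp d → ℝ}
    {B : ℝ} (hK : TFn 2 B K) (hK' : ∀ z, 1 < ‖z‖ → K z = 0) :
    TFn 2 (H * B * (volume (closedBall (0 : Sp d) 1)).toReal) (cv k K) where
  smooth := by
    have h1 := (cs_of_supp hK').contDiff_convolution_right
      (ContinuousLinearMap.lsmul ℝ ℝ : ℝ →L[ℝ] ℝ →L[ℝ] ℝ)
      (hk.locallyIntegrable (μ := (volume : Measure (Sp d)))) hK.smooth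
    exact h1
  bd := by
    intro j hj x
    have hK1 : ContDiff ℝ 1 K := hK.smooth.of_le (by norm_num)
    have hD1 : ContDiff ℝ 1 (fderiv ℝ K) := hK.smooth.fderiv_right (by norm_num)
    have e1 : fderiv ℝ (cv k K) = cv k (fderiv ℝ K) := by
      ext1 z
      exact (cv_fderiv hk hK1 (cs_of_supp hK') z).fderiv
    have hs1 := fderiv_supp hK'
    have e2 : fderiv ℝ (cv k (fderiv ℝ K)) = cv k (fderiv ℝ (fderiv ℝ K)) := by
      ext1 z
      exact (cv_fderiv hk hD1 (cs_of_supp hs1) z).fderiv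
    have hb0 : ∀ z, ‖K z‖ ≤ B := fun z => by
      have := hK.bd 0 (by norm_num) z
      rwa [norm_iteratedFDeriv_zero] at this
    have hb1 : ∀ z, ‖fderiv ℝ K z‖ ≤ B := fun z => by
      have := hK.bd 1 (by norm_num) z
      rwa [norm_iteratedFDeriv_one] at this
    have hb2 : ∀ z, ‖fderiv ℝ (fderiv ℝ K) z‖ ≤ B := fun z => by
      have := hK.bd 2 le_rfl z
      rwa [← norm_iteratedFDeriv_fderiv, norm_iteratedFDeriv_one] at this
    interval_cases j
    · rw [norm_iteratedFDeriv_zero]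
      exact cv_bd hH hK' hb0 x
    · rw [norm_iteratedFDeriv_one, e1]
      exact cv_bd hH hs1 hb1 x
    · rw [← norm_iteratedFDeriv_fderiv, norm_iteratedFDeriv_one, e1, e2]
      exact cv_bd hH (fderiv_supp hs1) hb2 x

/-- C² bounds of averages -/
lemma avk_TFn {k : Sp d → ℝ} (hk : Continuous k) {H : ℝ} (hH : ∀ z, |k z| ≤ H) {β : Sp d → ℝ}
    {B : ℝ} (hβ : TFn 2 B β) (hβs : ∀ y, 1 ≤ ‖y‖ → β y = 0) (he : ∀ y, β (-y) = β y) {s : ℝ}
    (hs : 0 < s) (hs1 : s ≤ 1) :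
    TFn 2 ((s⁻¹) ^ 2 * (H * B * (volume (closedBall (0 : Sp d) 1)).toReal)) (avk β s k) := by
  have h1 := cv_TFn (k := fun z => k (s • z)) (hk.comp (by fun_prop)) (fun z => hH _) hβ
    fun z hz => hβs z hz.le
  have h2 := TFn.comp_smul h1 (a := s⁻¹) ((one_le_inv₀ hs).mpr hs1)
  have e : avk β s k = fun x => cv (fun z => k (s • z)) β (s⁻¹ • x) := by
    ext x
    unfold avk cv
    rw [← integral_add_right_eq_self (μ := volume) (fun z => k (s • z) • β (s⁻¹ • x - z)) (s⁻¹ • x)]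
    congr 1
    ext y
    rw [smul_add, smul_smul, mul_inv_cancel₀ hs.ne', one_smul, sub_add_cancel_right, he,
      add_comm (s • y), smul_eq_mul, smul_eq_mul, mul_comm]
  rw [e]
  exact h2

/-- uniform bounds of the kernels -/
lemma kit_TFn (hd : 1 ≤ d) (M : ℝ) : ∃ B : ℝ, 0 < B ∧ ∀ (J : ℕ) (β : Sp d → ℝ), 2 ≤ J →
    Kit J M β → TFn 2 B β := by
  set n : Sp d := EuclideanSpace.single ⟨0, hd⟩ (1 : ℝ) with hn
  have hn1 : ‖n‖ = 1 := by rw [hn, PiLp.norm_single, norm_one]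
  set V : ℝ := (volume (closedBall (0 : (Submodule.span ℝ {n})ᗮ) 1)).toReal with hV
  have hV0 : 0 ≤ V := ENNReal.toReal_nonneg
  refine ⟨|M| * V + 1, by positivity, ?_⟩
  intro J β hJ hβ
  have hS0 : 0 ≤ β 0 := hβ.prof.nonneg 0
  have hS : ∀ x, β x ≤ β 0 := fun x => hβ.prof.mono 0 x (by rw [norm_zero]; exact norm_nonneg x)
  have hdisc : ∀ x, |disc n β x| ≤ V * β 0 := by
    intro x
    unfold disc
    rw [← Real.norm_eq_abs]
    have := norm_setIntegral_le_of_norm_le_const (C := β 0) (f := fun y : (Submodule.span ℝ {n})ᗮ =>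
      β (x - (y : Sp d))) (s := closedBall (0 : (Submodule.span ℝ {n})ᗮ) 1) (μ := volume)
      measure_closedBall_lt_top fun y _ => by
        rw [Real.norm_of_nonneg (hβ.prof.nonneg _)]
        exact hS _
    rw [mul_comm]
    exact this
  have hder : ∀ j ≤ J, ∀ x, ‖iteratedFDeriv ℝ j β x‖ ^ 2 ≤ |M| * V * β 0 := by
    intro j hj x
    refine (hβ.prof.der j hj n hn1 x).trans ?_
    calc M * disc n β x ≤ |M * disc n β x| := le_abs_self _
      _ = |M| * |disc n β x| := abs_mul _ _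
      _ ≤ |M| * (V * β 0) := mul_le_mul_of_nonneg_left (hdisc x) (abs_nonneg M)
      _ = |M| * V * β 0 := by ring
  have hS2 : β 0 ≤ |M| * V := by
    have h1 := hder 0 (Nat.zero_le J) 0
    rw [norm_iteratedFDeriv_zero, Real.norm_of_nonneg hS0] at h1
    rcases hS0.eq_or_lt with h | h
    · rw [← h]; positivity
    · have : β 0 * β 0 ≤ |M| * V * β 0 := by rw [← sq]; exact h1
      exact le_of_mul_le_mul_right this h
  refine ⟨hβ.prof.smooth.of_le (by exact_mod_cast hJ), fun j hj x => ?_⟩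
  have h1 := hder j (hj.trans hJ) x
  have h2 : ‖iteratedFDeriv ℝ j β x‖ ^ 2 ≤ (|M| * V) ^ 2 := by
    refine h1.trans ?_
    rw [sq]
    exact mul_le_mul_of_nonneg_left hS2 (by positivity)
  have h3 : ‖iteratedFDeriv ℝ j β x‖ ≤ |M| * V := by
    exact (sq_le_sq₀ (norm_nonneg _) (by positivity)).mp h2
  linarith

/-! ## the partition of unity -/

lemma chi1_nonneg (x : ℝ) : 0 ≤ chi1 x := by
  unfold chi1
  have := Real.smoothTransition.monotone (show x ≤ x + 1 by linarith)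
  linarith

lemma chi1_zero {x : ℝ} (h : 1 ≤ |x|) : chi1 x = 0 := by
  unfold chi1
  rcases le_abs.mp h with h | h
  · rw [Real.smoothTransition.one_of_one_le h, Real.smoothTransition.one_of_one_le (by linarith),
      sub_self]
  · rw [Real.smoothTransition.zero_of_nonpos (show x ≤ 0 by linarith),
      Real.smoothTransition.zero_of_nonpos (show x + 1 ≤ 0 by linarith), sub_self]

lemma chi1_sum (L : ℕ) {x : ℝ} (hx : |x| ≤ L) :
    ∑ k ∈ Finset.Icc (-(L : ℤ)) L, chi1 (x - k) = 1 := by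
  have key : ∀ m : ℕ, ∑ k ∈ Finset.Icc (-(L : ℤ)) (-(L : ℤ) + m), chi1 (x - k) =
      Real.smoothTransition (x + L + 1) - Real.smoothTransition (x + L - m) := by
    intro m
    induction m with
    | zero =>
      simp only [Nat.cast_zero, add_zero, Finset.Icc_self, Finset.sum_singleton, Int.cast_neg,
        Int.cast_natCast, sub_neg_eq_add, sub_zero]
      rfl
    | succ m ih =>
      have e : Finset.Icc (-(L : ℤ)) (-(L : ℤ) + (m + 1 : ℕ)) =
          insert (-(L : ℤ) + (m + 1 : ℕ)) (Finset.Icc (-(L : ℤ)) (-(L : ℤ) + m)) := by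
        ext k
        simp only [Finset.mem_insert, Finset.mem_Icc]
        push_cast
        omega
      rw [e, Finset.sum_insert (by simp), ih]
      unfold chi1
      have e1 : x - ((-(L : ℤ) + (m + 1 : ℕ) : ℤ) : ℝ) + 1 = x + L - m := by push_cast; ring
      have e2 : x - ((-(L : ℤ) + (m + 1 : ℕ) : ℤ) : ℝ) = x + L - (m + 1 : ℕ) := by push_cast; ring
      rw [e1, e2]
      ring
  have h1 := key (2 * L)
  have e : -(L : ℤ) + (2 * L : ℕ) = L := by push_cast; ring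
  rw [e] at h1
  rw [h1]
  obtain ⟨h2, h3⟩ := abs_le.mp hx
  rw [Real.smoothTransition.one_of_one_le (by linarith),
    Real.smoothTransition.zero_of_nonpos (by push_cast; linarith), sub_zero]

lemma chi_nonneg (y : Sp d) : 0 ≤ chi y := Finset.prod_nonneg fun j _ => chi1_nonneg _

lemma chi_zero {y : Sp d} {j : Fin d} (h : 1 ≤ |y j|) : chi y = 0 :=
  Finset.prod_eq_zero (Finset.mem_univ j) (chi1_zero h)

/-- the box of lattice points -/
def box (d L : ℕ) : Finset (Fin d → ℤ) := Fintype.piFinset fun _ => Finset.Icc (-(L : ℤ)) L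

lemma lat_apply (p : Fin d → ℤ) (j : Fin d) : lat p j = (p j : ℝ) := rfl

lemma chi_sum (L : ℕ) {y : Sp d} (hy : ∀ j, |y j| ≤ L) :
    ∑ p ∈ box d L, chi (y - lat p) = 1 := by
  unfold chi box
  have e : ∀ p : Fin d → ℤ, ∏ j, chi1 ((y - lat p) j) = ∏ j, chi1 (y j - (p j : ℝ)) := by
    intro p
    refine Finset.prod_congr rfl fun j _ => ?_
    rfl
  simp only [e]
  rw [← Finset.prod_univ_sum (fun _ => Finset.Icc (-(L : ℤ)) L) (fun j k => chi1 (y j - (k : ℝ)))]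
  exact Finset.prod_eq_one fun j _ => chi1_sum L (hy j)

lemma chi_sum_le (L : ℕ) (y : Sp d) : ∑ p ∈ box d L, chi (y - lat p) ≤ 1 := by
  obtain ⟨L', hL'⟩ := exists_nat_ge (‖y‖ + L)
  have h1 : ∀ j, |y j| ≤ (L' : ℝ) := by
    intro j
    have h2 : |y j| ≤ ‖y‖ := by
      rw [← Real.norm_eq_abs]
      exact PiLp.norm_apply_le y j
    have : (0 : ℝ) ≤ L := Nat.cast_nonneg L
    linarith
  rw [← chi_sum L' h1]
  refine Finset.sum_le_sum_of_subset_of_nonneg ?_ fun p _ _ => chi_nonneg _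
  intro p hp
  unfold box at hp ⊢
  rw [Fintype.mem_piFinset] at hp ⊢
  intro j
  have h3 := Finset.mem_Icc.mp (hp j)
  have h4 : (L : ℝ) ≤ L' := by linarith [norm_nonneg y]
  have h5 : (L : ℤ) ≤ L' := by exact_mod_cast h4
  exact Finset.mem_Icc.mpr ⟨by omega, by omega⟩

lemma chi_le_one (y : Sp d) : chi y ≤ 1 := by
  unfold chi
  refine Finset.prod_le_one (fun j _ => chi1_nonneg _) fun j _ => ?_
  unfold chi1
  have := Real.smoothTransition.le_one (y j + 1)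
  have := Real.smoothTransition.nonneg (y j)
  linarith

lemma chi_supp {y : Sp d} (h : (d : ℝ) ≤ ‖y‖) (hd : 1 ≤ d) : chi y = 0 := by
  by_contra h0
  have h1 : ∀ j, |y j| < 1 := by
    intro j
    by_contra h2
    exact h0 (chi_zero (not_lt.mp h2))
  have h2 : ‖y‖ ^ 2 < d := by
    rw [EuclideanSpace.norm_sq_eq]
    have : ∑ i : Fin d, ‖y i‖ ^ 2 < ∑ i : Fin d, (1 : ℝ) := by
      refine Finset.sum_lt_sum_of_nonempty ⟨⟨0, hd⟩, Finset.mem_univ _⟩ fun i _ => ?_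
      rw [Real.norm_eq_abs, sq_lt_one_iff₀ (abs_nonneg _)]
      exact h1 i
    simpa using this
  have hd' : (1 : ℝ) ≤ d := by exact_mod_cast hd
  nlinarith [norm_nonneg y]

lemma chi_contDiff : ContDiff ℝ 2 (chi : Sp d → ℝ) := by
  unfold chi chi1
  refine contDiff_prod fun j _ => ?_
  have h1 : ContDiff ℝ 2 Real.smoothTransition := Real.smoothTransition.contDiff (n := 2)
  have h2 : ContDiff ℝ 2 fun y : Sp d => y j := by fun_prop
  exact (h1.comp (h2.add contDiff_const)).sub (h1.comp h2)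

lemma chi_TFn (hd : 1 ≤ d) : ∃ N : ℝ, 0 < N ∧ TFn 2 N (chi : Sp d → ℝ) := by
  have hcs : HasCompactSupport (chi : Sp d → ℝ) :=
    HasCompactSupport.intro (isCompact_closedBall (0 : Sp d) d) fun x hx => chi_supp (by
      rw [mem_closedBall, dist_zero_right, not_le] at hx
      exact hx.le) hd
  have h1 : ∀ j ≤ 2, ∃ N : ℝ, ∀ x, ‖iteratedFDeriv ℝ j (chi : Sp d → ℝ) x‖ ≤ N := by
    intro j hj
    have hc : Continuous (iteratedFDeriv ℝ j (chi : Sp d → ℝ)) :=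
      chi_contDiff.continuous_iteratedFDeriv (by exact_mod_cast hj)
    exact hc.bounded_above_of_compact_support (hcs.iteratedFDeriv j)
  obtain ⟨N0, h0⟩ := h1 0 (by norm_num)
  obtain ⟨N1, h1'⟩ := h1 1 (by norm_num)
  obtain ⟨N2, h2⟩ := h1 2 le_rfl
  refine ⟨|N0| + |N1| + |N2| + 1, by positivity, chi_contDiff, fun j hj x => ?_⟩
  interval_cases j
  · linarith [h0 x, le_abs_self N0, abs_nonneg N1, abs_nonneg N2]
  · linarith [h1' x, le_abs_self N1, abs_nonneg N0, abs_nonneg N2]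
  · linarith [h2 x, le_abs_self N2, abs_nonneg N0, abs_nonneg N1]

end PTm

end

end TG


end

section

set_option autoImplicit false

/-!
# Modules TD1, TD2: common part (helper63)

The function z = div (chi u g) for a vector field g tangential to the planes orthogonal to n.
-/

open MeasureTheory Metric Set TrI Filter
open scoped InnerProductSpace ContDiff Topology

namespace TG

noncomputable section

namespace TDc

variable {d : ℕ}

/-- the divergence of chi u g -/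
def dvg (u : Sp d → ℝ) (g : Sp d → Sp d) (x : Sp d) : ℝ :=
  ∑ j : Fin d, fderiv ℝ (fun y => chi y * u y * (g y) j) x (EuclideanSpace.single j (1 : ℝ))

lemma dvT_eq (β : Sp d → ℝ) (ε p0 A : ℝ) (μ : Measure (Sp d)) (n : Sp d) :
    dvT chi β ε p0 A μ n = dvg (Ups p0 A μ 1) (fun y => tang n (gradient (WW β ε μ 1) y)) := rfl

lemma chi_smooth : ContDiff ℝ ∞ (chi : Sp d → ℝ) := by
  unfold chi chi1
  refine contDiff_prod fun j _ => ?_
  have h1 : ContDiff ℝ ∞ Real.smoothTransition := Real.smoothTransition.contDiff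
  have h2 : ContDiff ℝ ∞ fun y : Sp d => y j := by fun_prop
  exact (h1.comp (h2.add contDiff_const)).sub (h1.comp h2)

lemma chi_cs (hd : 1 ≤ d) : HasCompactSupport (chi : Sp d → ℝ) :=
  HasCompactSupport.intro (isCompact_closedBall (0 : Sp d) d) fun x hx => PTm.chi_supp (by
    rw [mem_closedBall, dist_zero_right, not_le] at hx
    exact hx.le) hd

/-- chi vanishes near every point of norm at least d -/
lemma chi_ev (hd : 2 ≤ d) {y : Sp d} (hy : (d : ℝ) ≤ ‖y‖) : ∀ᶠ z in 𝓝 y, chi z = 0 := by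
  have hd' : (2 : ℝ) ≤ d := by exact_mod_cast hd
  have h1 : (d : ℝ) < ‖y‖ ^ 2 := by nlinarith only [hd', hy]
  have h2 : ∀ᶠ z in 𝓝 y, (d : ℝ) < ‖z‖ ^ 2 :=
    (continuous_norm.pow 2).continuousAt.eventually_const_lt h1
  filter_upwards [h2] with z hz
  by_contra h0
  have h3 : ∀ j, |z j| < 1 := by
    intro j
    by_contra h4
    exact h0 (PTm.chi_zero (not_lt.mp h4))
  have h5 : ‖z‖ ^ 2 ≤ d := by
    rw [EuclideanSpace.norm_sq_eq]
    have : ∑ i : Fin d, ‖z i‖ ^ 2 ≤ ∑ i : Fin d, (1 : ℝ) := by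
      refine Finset.sum_le_sum fun i _ => ?_
      rw [Real.norm_eq_abs, sq_le_one_iff₀ (abs_nonneg _)]
      exact (h3 i).le
    simpa using this
  linarith

lemma comp_smooth {g : Sp d → Sp d} (hg : ContDiff ℝ ∞ g) (j : Fin d) :
    ContDiff ℝ ∞ (fun y => (g y) j) :=
  (EuclideanSpace.proj (𝕜 := ℝ) j).contDiff.comp hg

lemma term_smooth {u : Sp d → ℝ} (hu : ContDiff ℝ ∞ u) {g : Sp d → Sp d} (hg : ContDiff ℝ ∞ g)
    (j : Fin d) : ContDiff ℝ ∞ (fun y => chi y * u y * (g y) j) :=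
  (chi_smooth.mul hu).mul (comp_smooth hg j)

lemma dvg_smooth {u : Sp d → ℝ} (hu : ContDiff ℝ ∞ u) {g : Sp d → Sp d} (hg : ContDiff ℝ ∞ g) :
    ContDiff ℝ ∞ (dvg u g) :=
  ContDiff.sum fun j _ => NN.smooth_fd (term_smooth hu hg j) _

/-- if chi u vanishes near y then so does the divergence -/
lemma dvg_ev {u : Sp d → ℝ} {g : Sp d → Sp d} {y : Sp d} (h : ∀ᶠ z in 𝓝 y, chi z * u z = 0) :
    dvg u g =ᶠ[𝓝 y] fun _ => 0 := by
  filter_upwards [h.eventually_nhds] with z hz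
  unfold dvg
  refine Finset.sum_eq_zero fun j _ => ?_
  have h1 : (fun y => chi y * u y * (g y) j) =ᶠ[𝓝 z] fun _ => (0 : ℝ) := by
    filter_upwards [hz] with w hw
    rw [hw, zero_mul]
  rw [h1.fderiv_eq]
  simp

lemma dvg_ev_far (hd : 2 ≤ d) {u : Sp d → ℝ} {g : Sp d → Sp d} {y : Sp d} (hy : (d : ℝ) ≤ ‖y‖) :
    dvg u g =ᶠ[𝓝 y] fun _ => 0 := by
  refine dvg_ev ?_
  filter_upwards [chi_ev hd hy] with z hz
  rw [hz, zero_mul]

lemma iter_zero {F : Type*} [NormedAddCommGroup F] [NormedSpace ℝ F] {f : Sp d → F} {y : Sp d}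
    (h : f =ᶠ[𝓝 y] fun _ => 0) (j : ℕ) : iteratedFDeriv ℝ j f y = 0 := by
  have h1 := (h.iteratedFDeriv (𝕜 := ℝ) j).eq_of_nhds
  rw [h1, iteratedFDeriv_fun_zero]
  rfl

/-- the index set for the Leibniz estimate -/
structure Ix (d K : ℕ) (B : ℝ) where
  u : Sp d → ℝ
  g : Sp d → Sp d
  hu : ContDiff ℝ ∞ u
  hg : ContDiff ℝ ∞ g
  hb : ∀ j ≤ K, ∀ x, ‖iteratedFDeriv ℝ j u x‖ ≤ B

/-- the Leibniz estimate -/
lemma dvg_bd (hd : 2 ≤ d) (K : ℕ) (B : ℝ) (hB : 0 ≤ B) : ∃ C : ℝ, 0 < C ∧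
    ∀ (u : Sp d → ℝ) (g : Sp d → Sp d), ContDiff ℝ ∞ u → ContDiff ℝ ∞ g →
      (∀ j ≤ K + 1, ∀ x, ‖iteratedFDeriv ℝ j u x‖ ≤ B) → ∀ k ≤ K, ∀ x,
        ‖iteratedFDeriv ℝ k (dvg u g) x‖ ≤
          C * ∑ i ∈ Finset.range (K + 2), ‖iteratedFDeriv ℝ i g x‖ := by
  let ι := Ix d (K + 1) B
  have hU : IsOpen (univ : Set (Sp d)) := isOpen_univ
  let w : ι → Sp d → ℝ := fun i x => ∑ k ∈ Finset.range (K + 2), ‖iteratedFDeriv ℝ k i.g x‖
  have bχ : BdN (K + 1) univ (fun (_ : ι) (_ : Sp d) => (1 : ℝ)) (fun _ => (chi : Sp d → ℝ)) := by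
    refine ⟨fun _ => chi_smooth.contDiffOn, ?_⟩
    have h1 : ∀ j : ℕ, ∃ C : ℝ, ∀ x, ‖iteratedFDeriv ℝ j (chi : Sp d → ℝ) x‖ ≤ C := by
      intro j
      have hc : Continuous (iteratedFDeriv ℝ j (chi : Sp d → ℝ)) := NN.it_cont chi_smooth j
      have hs : HasCompactSupport (iteratedFDeriv ℝ j (chi : Sp d → ℝ)) :=
        (chi_cs (by omega)).iteratedFDeriv j
      exact hc.bounded_above_of_compact_support hs
    choose c hc using h1
    refine ⟨∑ j ∈ Finset.range (K + 2), |c j|, Finset.sum_nonneg fun _ _ => abs_nonneg _,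
      fun _ x _ j hj => ?_⟩
    rw [mul_one]
    refine (hc j x).trans ((le_abs_self _).trans ?_)
    exact Finset.single_le_sum (f := fun j => |c j|) (fun _ _ => abs_nonneg _)
      (Finset.mem_range.2 (by omega))
  have bu : BdN (K + 1) univ (fun (_ : ι) (_ : Sp d) => (1 : ℝ)) (fun i => i.u) :=
    ⟨fun i => i.hu.contDiffOn, B, hB, fun i x _ j hj => by rw [mul_one]; exact i.hb j hj x⟩
  have bg : BdN (K + 1) univ w (fun i => i.g) := by
    refine ⟨fun i => i.hg.contDiffOn, 1, zero_le_one, fun i x _ j hj => ?_⟩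
    rw [one_mul]
    exact Finset.single_le_sum (f := fun k => ‖iteratedFDeriv ℝ k i.g x‖)
      (fun _ _ => norm_nonneg _) (Finset.mem_range.2 (by omega))
  have bj : ∀ j : Fin d, BdN K univ w (fun i x => fderiv ℝ
      (fun y => chi y * i.u y * (i.g y) j) x (EuclideanSpace.single j (1 : ℝ))) := by
    intro j
    have h1 : BdN (K + 1) univ w (fun i y => (i.g y) j) :=
      bg.clm hU (fun _ => EuclideanSpace.proj (𝕜 := ℝ) j)
        (B := ‖(EuclideanSpace.proj (𝕜 := ℝ) j : Sp d →L[ℝ] ℝ)‖) (fun _ => le_rfl)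
    have h2 := (bχ.mul hU bu).mul hU h1
    simp only [one_mul] at h2
    have h3 := (h2.D hU).clm hU (fun _ => ContinuousLinearMap.apply ℝ ℝ
      (EuclideanSpace.single j (1 : ℝ) : Sp d)) (B := ‖(ContinuousLinearMap.apply ℝ ℝ
      (EuclideanSpace.single j (1 : ℝ) : Sp d) : (Sp d →L[ℝ] ℝ) →L[ℝ] ℝ)‖)
      (fun _ => le_rfl)
    exact h3
  have bs := BdN.sum hU (Finset.univ : Finset (Fin d))
    (fun i x _ => Finset.sum_nonneg fun _ _ => norm_nonneg _) (fun j _ => bj j)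
  obtain ⟨C, hC, h⟩ := bs.bd
  refine ⟨C + 1, by linarith, fun u g hu hg hb k hk x => ?_⟩
  have h1 := h ⟨u, g, hu, hg, hb⟩ x (mem_univ _) k hk
  have h2 : (fun x => ∑ j : Fin d, fderiv ℝ (fun y => chi y * u y * (g y) j) x
    (EuclideanSpace.single j (1 : ℝ))) = dvg u g := rfl
  refine le_trans h1 ?_
  refine mul_le_mul_of_nonneg_right (by linarith) (Finset.sum_nonneg fun _ _ => norm_nonneg _)

/-- the plane integral of the divergence vanishes -/
lemma dvg_pl (hPF : StmtPF) (hd : 2 ≤ d) {n : Sp d} (hn : ‖n‖ = 1) {u : Sp d → ℝ}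
    (hu : ContDiff ℝ ∞ u) {g : Sp d → Sp d} (hg : ContDiff ℝ ∞ g) (ht : ∀ y, ⟪n, g y⟫_ℝ = 0)
    (s : ℝ) : plInt n s (dvg u g) = 0 := by
  set e : Fin d → Sp d := fun j => EuclideanSpace.single j (1 : ℝ) with he
  set Y : Fin d → Sp d → ℝ := fun j y => chi y * u y * (g y) j with hY
  have hYs : ∀ j, ContDiff ℝ ∞ (Y j) := fun j => term_smooth hu hg j
  have hYc : ∀ j, HasCompactSupport (Y j) := fun j =>
    ((chi_cs (by omega)).mul_right).mul_right
  have hsum : ∀ y, ∑ j, n j * Y j y = 0 := by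
    intro y
    have h1 : ⟪n, g y⟫_ℝ = ∑ j, n j * (g y) j := by
      simp [PiLp.inner_apply, mul_comm]
    have h2 := ht y
    rw [h1] at h2
    calc ∑ j, n j * Y j y = chi y * u y * ∑ j, n j * (g y) j := by
          rw [Finset.mul_sum]
          exact Finset.sum_congr rfl fun j _ => by simp only [hY]; ring
      _ = 0 := by rw [h2, mul_zero]
  have hin : ∀ j, ⟪n, e j⟫_ℝ = n j := by
    intro j
    simp [he, EuclideanSpace.inner_single_right]
  have h3 : dvg u g = fun x => ∑ j, fderiv ℝ (Y j) x (e j - n j • n) := by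
    ext x
    have h4 : ∑ j, n j * fderiv ℝ (Y j) x n = 0 := by
      have h5 : HasFDerivAt (fun y => ∑ j, n j * Y j y) (∑ j, n j • fderiv ℝ (Y j) x) x := by
        refine HasFDerivAt.fun_sum fun j _ => ?_
        exact ((hYs j).differentiable (by simp) x).hasFDerivAt.const_mul _
      have h6 : (fun y => ∑ j, n j * Y j y) = fun _ => (0 : ℝ) := funext hsum
      rw [h6] at h5
      have h7 := h5.unique (hasFDerivAt_const (0 : ℝ) x)
      have h8 := congrArg (fun L : Sp d →L[ℝ] ℝ => L n) h7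
      simpa using h8
    unfold dvg
    simp only [map_sub, map_smul, smul_eq_mul, Finset.sum_sub_distrib]
    rw [h4, sub_zero]
  rw [h3, NN.pl_sum _ (fun j => (NN.smooth_fd (hYs j) _).continuous)
    (fun j => (hYc j).fderiv_apply ℝ _)]
  refine Finset.sum_eq_zero fun j _ => ?_
  obtain ⟨-, -, -, -, h5, -⟩ := (hPF d (by omega)).2 n hn
  refine h5 (Y j) ((hYs j).of_le (by exact_mod_cast le_top)) (hYc j) s _ ?_
  rw [inner_sub_right, inner_smul_right, real_inner_self_eq_norm_sq, hn, hin]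
  ring

/-- the tangential derivative bounds on a plane, from norm bounds -/
lemma dvg_TB (hd : 2 ≤ d) {J : ℕ} {n : Sp d} (hn : ‖n‖ = 1) {s N : ℝ} (hN : 0 ≤ N)
    {u : Sp d → ℝ} (hu : ContDiff ℝ ∞ u) {g : Sp d → Sp d} (hg : ContDiff ℝ ∞ g)
    (h : ∀ j ≤ J + 1, ∀ y, ‖y‖ ≤ d → ⟪n, y⟫_ℝ = s → ‖iteratedFDeriv ℝ j (dvg u g) y‖ ≤ N) :
    TB J n s N (dvg u g) := by
  have hs := dvg_smooth hu hg
  have h' : ∀ j ≤ J + 1, ∀ y, ⟪n, y⟫_ℝ = s → ‖iteratedFDeriv ℝ j (dvg u g) y‖ ≤ N := by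
    intro j hj y hy
    rcases le_or_gt (d : ℝ) ‖y‖ with h1 | h1
    · rw [iter_zero (dvg_ev_far hd h1), norm_zero]
      exact hN
    · exact h j hj y h1.le hy
  have hprod : ∀ {j : ℕ} (k : Fin j → Sp d), (∀ i, ‖k i‖ ≤ 1) → ∏ i, ‖k i‖ ≤ 1 := by
    intro j k hk
    exact Finset.prod_le_one (fun i _ => norm_nonneg _) (fun i _ => hk i)
  intro j hj k _ hk y hy
  constructor
  · have h1 := (iteratedFDeriv ℝ j (dvg u g) y).le_opNorm k
    rw [← Real.norm_eq_abs]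
    calc ‖iteratedFDeriv ℝ j (dvg u g) y k‖ ≤ ‖iteratedFDeriv ℝ j (dvg u g) y‖ * ∏ i, ‖k i‖ := h1
      _ ≤ N * 1 := mul_le_mul (h' j (by omega) y hy) (hprod k hk)
          (Finset.prod_nonneg fun i _ => norm_nonneg _) hN
      _ = N := mul_one N
  · have h1 := (iteratedFDeriv ℝ j (fun x => fderiv ℝ (dvg u g) x n) y).le_opNorm k
    have h2 : ‖iteratedFDeriv ℝ j (fun x => fderiv ℝ (dvg u g) x n) y‖ ≤ N := by
      have h3 : ContDiff ℝ j (fderiv ℝ (dvg u g)) :=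
        (hs.fderiv_right (m := ∞) (by norm_cast)).of_le (by exact_mod_cast le_top)
      have h4 := (ContinuousLinearMap.apply ℝ ℝ n : (Sp d →L[ℝ] ℝ) →L[ℝ] ℝ).norm_iteratedFDeriv_comp_left
        (f := fderiv ℝ (dvg u g)) (x := y) (n := j) h3.contDiffAt le_rfl
      have h5 : ‖(ContinuousLinearMap.apply ℝ ℝ n : (Sp d →L[ℝ] ℝ) →L[ℝ] ℝ)‖ ≤ 1 := by
        refine ContinuousLinearMap.opNorm_le_bound _ zero_le_one fun L => ?_
        rw [ContinuousLinearMap.apply_apply, one_mul]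
        have := L.le_opNorm n
        rwa [hn, mul_one] at this
      have h6 : ‖iteratedFDeriv ℝ j (fderiv ℝ (dvg u g)) y‖ ≤ N := by
        rw [norm_iteratedFDeriv_fderiv]
        exact h' (j + 1) (by omega) y hy
      calc ‖iteratedFDeriv ℝ j (fun x => fderiv ℝ (dvg u g) x n) y‖
          ≤ ‖(ContinuousLinearMap.apply ℝ ℝ n : (Sp d →L[ℝ] ℝ) →L[ℝ] ℝ)‖ *
            ‖iteratedFDeriv ℝ j (fderiv ℝ (dvg u g)) y‖ := h4
        _ ≤ 1 * N := mul_le_mul h5 h6 (norm_nonneg _) zero_le_one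
        _ = N := one_mul N
    rw [← Real.norm_eq_abs]
    calc _ ≤ ‖iteratedFDeriv ℝ j (fun x => fderiv ℝ (dvg u g) x n) y‖ * ∏ i, ‖k i‖ := h1
      _ ≤ N * 1 := mul_le_mul h2 (hprod k hk)
          (Finset.prod_nonneg fun i _ => norm_nonneg _) hN
      _ = N := mul_one N

/-- comparison of v near the centre -/
lemma vv_le (hTH : StmtTH) (hd : 2 ≤ d) {C' : ℝ} (hC' : 0 < C') {μ : Measure (Sp d)}
    (hμ : Gro C' μ) {y : Sp d} (hy : ‖y‖ ≤ d) : vv μ 1 y ≤ (1 + d) ^ d * vv μ 1 0 := by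
  obtain ⟨C, _, hC⟩ := hTH d 0 hd C' hC'
  obtain ⟨-, -, -, h4, -⟩ := hC μ hμ
  have h5 := h4 1 0 y one_pos
  have h6 : (1 + ‖(0 : Sp d) - y‖ / 1) ^ d ≤ (1 + (d : ℝ)) ^ d := by
    refine pow_le_pow_left₀ (by positivity) ?_ d
    rw [zero_sub, norm_neg, div_one]
    linarith
  have h7 : 0 ≤ th μ 1 0 := by
    have := (hC μ hμ).1 1 0 one_pos
    exact this.1.le
  have h8 : (1 : ℝ) ≤ (1 + (d : ℝ)) ^ d := one_le_pow₀ (by linarith [Nat.cast_nonneg (α := ℝ) d])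
  unfold vv
  rw [Real.sqrt_le_left (by positivity), mul_pow, Real.sq_sqrt h7]
  calc th μ 1 y ≤ (1 + ‖(0 : Sp d) - y‖ / 1) ^ d * th μ 1 0 := h5
    _ ≤ (1 + (d : ℝ)) ^ d * th μ 1 0 := mul_le_mul_of_nonneg_right h6 h7
    _ ≤ ((1 + (d : ℝ)) ^ d) ^ 2 * th μ 1 0 := by
        refine mul_le_mul_of_nonneg_right ?_ h7
        nlinarith only [h8]

end TDc

end

end TG


end

section

/-!
# The plane lemma and the partial sums, common to the modules FR2 and FR4  (helper89)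

For a cell S and P = up 7 S, the plane of P is an admissible plane for S with the radius 64 R0:
the plane functional of S is at most C (bC P + dC S + dC P).
-/

open MeasureTheory Metric Set TrI
open scoped InnerProductSpace ContDiff ENNReal

namespace TG

namespace FR4

open FR

noncomputable section

variable {d : ℕ}

section F

variable {E : Type} [NormedAddCommGroup E] [InnerProductSpace ℝ E] [FiniteDimensional ℝ E]

omit [FiniteDimensional ℝ E] in
/-- the functional bb is blc in the frame of the cell -/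
lemma bb_mQ {s0 : ℝ} (h : 0 < s0) (ρ : ℝ) (f : Sp d → E) (e : E) (Q : Cell d) (ν : Sp d)
    (c : ℝ) : bb ρ s0 f Q.1 (xC s0 Q) e ν c =
      ∫ y, mQ s0 f e Q y * (zR ρ y * ht ν (cfr s0 Q ν c) y ^ 2) := by
  have hl := lev_pos h Q.1
  unfold bb mQ
  rw [← TU.frame_int f e (xC s0 Q) hl]
  congr 1
  funext y
  rw [ht_frame h, add_sub_cancel_left, smul_smul, one_div_mul_cancel hl.ne', one_smul]

/-- integrals in the frame of a cell and of a cell m levels higher -/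
lemma int_frame {s0 : ℝ} (h : 0 < s0) (f : Sp d → E) (e : E) (S P : Cell d) (l : ℕ)
    (hP : P.1 = S.1 + l) (ζ : Sp d → ℝ) :
    ∫ z, mQ s0 f e P z * ζ (tw s0 S P + (2 : ℝ) ^ l • z) =
      (2 : ℝ) ^ l / ((2 : ℝ) ^ l) ^ d * ∫ y, mQ s0 f e S y * ζ y := by
  have h1 : (fun z => mQ s0 f e P z * ζ (tw s0 S P + (2 : ℝ) ^ l • z)) =
      fun z => (2 : ℝ) ^ l * ((fun z => (fun w => mQ s0 f e S w * ζ w) (tw s0 S P + z))
        ((2 : ℝ) ^ l • z)) := by
    funext z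
    rw [mQ_frame h f e S P l hP]
    ring
  rw [h1, integral_const_mul, Measure.integral_comp_smul_of_nonneg volume
    (fun z => (fun w => mQ s0 f e S w * ζ w) (tw s0 S P + z)) ((2 : ℝ) ^ l)
    (hR := by positivity),
    integral_add_left_eq_self (fun w => mQ s0 f e S w * ζ w) (tw s0 S P),
    finrank_euclideanSpace_fin, smul_eq_mul, ← mul_assoc]
  congr 1

lemma ht_frame2 {s0 : ℝ} (h : 0 < s0) (S P : Cell d) (l : ℕ) (hP : P.1 = S.1 + l) (ν : Sp d)
    (c : ℝ) (z : Sp d) : ht ν (cfr s0 S ν c) (tw s0 S P + (2 : ℝ) ^ l • z) =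
      2 ^ l * ht ν (cfr s0 P ν c) z := by
  have hl := lev_pos h S.1
  rw [ht_frame h, ht_frame h, smul_add, ← add_assoc, x_tw h, smul_smul, hP, lev_add,
    mul_comm (lev s0 S.1) (2 ^ l)]
  field_simp

lemma ht_zero (ν : Sp d) (c : ℝ) : ht ν c 0 = -c := by
  unfold ht
  rw [inner_zero_right, zero_sub]

/-- heights at two points -/
lemma ht_two {ν : Sp d} (hν : ‖ν‖ = 1) (c : ℝ) (x y : Sp d) :
    |ht ν c x| ≤ |ht ν c y| + ‖x - y‖ := by
  have h1 : ht ν c x = ht ν c y + ⟪ν, x - y⟫_ℝ := by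
    unfold ht
    rw [inner_sub_right]
    ring
  rw [h1]
  refine (abs_add_le _ _).trans (add_le_add le_rfl ?_)
  have := abs_real_inner_le_norm ν (x - y)
  rwa [hν, one_mul] at this

end F

/-- the plane lemma -/
theorem plane_le (h8 : StmtCT8) (h5 : StmtCT5) (hd : 2 ≤ d) {M c0 ε : ℝ} (hε : 0 < ε)
    (hε1 : ε ≤ 1) {b : Sp d → ℝ} (hb : BaseKer 2 M c0 b) {R0 : ℝ} (hR0 : 400 + 8 * d ≤ R0) :
    ∃ C : ℝ, 0 < C ∧
    ∀ (E : Type) [NormedAddCommGroup E] [InnerProductSpace ℝ E] [FiniteDimensional ℝ E]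
      (R : ℝ), 300 * R0 ≤ R → ∀ f : Sp d → E, Continuous f → HasCompactSupport f →
    ∀ s0 : ℝ, 0 < s0 → ∀ e : Cell d → E, Dirs b ε R s0 f e →
    ∀ (ν : Cell d → Sp d) (c : Cell d → ℝ), Plns R0 s0 f e ν c → ∀ S : Cell d,
      max 0 (bb (64 * R0) s0 f S.1 (xC s0 S) (e S) (ν (up 7 S)) (c (up 7 S))) ≤
        C * (bC R0 s0 f e ν c (up 7 S) + dC b ε R s0 f e S + dC b ε R s0 f e (up 7 S)) := by
  have hd1 : 1 ≤ d := by omega
  have hdR : (1 : ℝ) ≤ d := by exact_mod_cast hd1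
  have hsd : Real.sqrt d ≤ d := by
    rw [Real.sqrt_le_left (by linarith)]
    nlinarith
  have hsd0 := Real.sqrt_nonneg (d : ℝ)
  have hR00 : 0 < R0 := by linarith
  obtain ⟨C8, hC8, g8⟩ := h8 d hd1 M c0 ε hε hε1 b hb
  obtain ⟨C81, hC81, g8⟩ := g8 0
  obtain ⟨C5, hC5, g5⟩ := h5 d hd1 M c0 ε hε hε1 b hb R0 7 (by linarith)
  obtain ⟨N1, hN1, hT1⟩ := TU.TFn_of_cs (J := 2)
    (contDiff_infty.1 (TU.zR_smooth (d := d) hR00) 2) (TU.zR_cs R0)
  obtain ⟨N2, hN2, hT2⟩ := TU.TFn_of_cs (J := 2)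
    (contDiff_infty.1 (TU.zR_smooth (d := d) (by linarith : 0 < 64 * R0)) 2) (TU.zR_cs (64 * R0))
  set NA : ℝ := 4 ^ 2 * (N1 + max 1 |(2 : ℝ) ^ 7| ^ 2 * N2) * max 1 (R0 + 1 + (R0 + 1)) ^ 2
    with hNA
  set NB : ℝ := 4 ^ 2 * N2 * max 1 (64 * R0 + 1 + (128 * (R0 + 1) + 128 * Real.sqrt d)) ^ 2
    with hNB
  have hNA0 : 0 < NA := by positivity
  have hNB0 : 0 < NB := by positivity
  set q : ℝ := ((2 : ℝ) ^ 7) ^ d / (2 : ℝ) ^ 7 * 2 ^ 14 with hq
  have hq0 : 0 < q := by positivity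
  refine ⟨q + q * (NA * C8) + C5 * NB, by positivity, ?_⟩
  intro E _ _ _ R hR f hf hc s0 h e he ν c hν S
  set P := up 7 S with hP
  have hP1 : P.1 = S.1 + 7 := rfl
  obtain ⟨⟨g50, g51, _⟩, -, -, -, g55⟩ := g5 E R (by linarith) f hf hc s0 h e he ν c hν |>.imp
    (fun h => h P) id
  have g50S := ((g5 E R (by linarith) f hf hc s0 h e he ν c hν).1 S).1
  obtain ⟨g8c, g8z⟩ := (g8 E R (by linarith) (by norm_num; linarith) f hf hc s0 h e he).1 P
  have hlS := lev_pos h S.1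
  have hlP := lev_pos h P.1
  have hlev : lev s0 P.1 = 2 ^ 7 * lev s0 S.1 := by rw [hP1, lev_add]
  -- distances
  have hdist : ‖xC s0 P - xC s0 S‖ ≤ Real.sqrt d * ((2 ^ 7 - 1) * lev s0 S.1) := xC_up' h 7 S
  have hw : ‖tw s0 S P‖ ≤ Real.sqrt d * 2 ^ 7 := norm_tw_up h 7 S
  have hcP : |cfr s0 P (ν P) (c P)| ≤ R0 + 1 := by
    have h1 := ht_frame_tw h P P (ν P) (c P)
    rw [tw_self, ht_zero] at h1
    rw [← abs_neg, h1, abs_div, abs_of_pos hlP, div_le_iff₀ hlP]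
    exact hν.loc P
  have hcS : |cfr s0 S (ν P) (c P)| ≤ 128 * (R0 + 1) + 128 * Real.sqrt d := by
    have h1 := ht_frame2 h S P 7 hP1 (ν P) (c P) 0
    rw [smul_zero, add_zero, ht_zero] at h1
    have h2 := ht_two (hν.unit P) (cfr s0 S (ν P) (c P)) 0 (tw s0 S P)
    rw [ht_zero, abs_neg, h1, zero_sub, norm_neg] at h2
    refine h2.trans ?_
    rw [mul_neg, abs_neg, abs_mul]
    norm_num
    norm_num at hw
    linarith
  -- the two test functions
  set hP2 := fun z : Sp d => ht (ν P) (cfr s0 P (ν P) (c P)) z ^ 2 with hhP2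
  set ζ := fun y : Sp d => zR (64 * R0) y * ht (ν P) (cfr s0 S (ν P) (c P)) y ^ 2 with hζ
  set φ := fun z : Sp d => zR R0 z - zR (64 * R0) (tw s0 S P + (2 : ℝ) ^ 7 • z) with hφ
  have hsm : ∀ (ν : Sp d) (c : ℝ), Continuous (ht ν c) := fun ν c =>
    (TU.ht_smooth ν c (n := 0)).continuous
  have hφ1 : TFn 2 (N1 + max 1 |(2 : ℝ) ^ 7| ^ 2 * N2) φ :=
    TU.TFn_sub hT1 (TU.TFn_aff hT2 (tw s0 S P) (by norm_num))
  have hφ2 : ∀ y : Sp d, R0 + 1 ≤ ‖y‖ → φ y = 0 := by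
    intro y hy
    have h1 : 64 * R0 + 1 ≤ ‖tw s0 S P + (2 : ℝ) ^ 7 • y‖ := by
      have h2 : ‖(2 : ℝ) ^ 7 • y‖ = 2 ^ 7 * ‖y‖ := by
        rw [norm_smul, Real.norm_of_nonneg (by positivity)]
      have h3 := norm_sub_le_norm_add ((2 : ℝ) ^ 7 • y) (tw s0 S P)
      rw [add_comm] at h3
      rw [h2] at h3
      norm_num at h3 hw ⊢
      linarith
    simp only [hφ]
    rw [TU.zR_zero hy, TU.zR_zero h1, sub_zero]
  have hφ0 : ∀ y, 0 ≤ φ y := by
    intro y
    simp only [hφ]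
    by_cases hy : ‖y‖ ≤ R0
    · rw [TU.zR_one hy]
      linarith [TU.zR_le_one (64 * R0) (tw s0 S P + (2 : ℝ) ^ 7 • y)]
    · push Not at hy
      have h1 : 64 * R0 + 1 ≤ ‖tw s0 S P + (2 : ℝ) ^ 7 • y‖ := by
        have h2 : ‖(2 : ℝ) ^ 7 • y‖ = 2 ^ 7 * ‖y‖ := by
          rw [norm_smul, Real.norm_of_nonneg (by positivity)]
        have h3 := norm_sub_le_norm_add ((2 : ℝ) ^ 7 • y) (tw s0 S P)
        rw [add_comm] at h3
        rw [h2] at h3
        norm_num at h3 hw ⊢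
        linarith
      rw [TU.zR_zero h1, sub_zero]
      exact TU.zR_nonneg _ _
  have hT3 : TFn 2 NA (fun y => φ y * ht (ν P) (cfr s0 P (ν P) (c P)) y ^ 2) :=
    TU.TFn_ht_sq hφ1 (fun y hy => hφ2 y hy.le) (hν.unit P) hcP
  have hZ := GSAux.ZP' g8z hT3 (fun y => mul_nonneg (hφ0 y) (sq_nonneg _))
    (fun y hy => by rw [hφ2 y (by linarith), zero_mul])
  have hT4 : TFn 2 NB ζ := TU.TFn_ht_sq hT2 (fun y hy => TU.zR_zero hy.le) (hν.unit P) hcS
  have hD := g55 S P hP1 ζ NB hT4 (fun y hy => by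
      simp only [hζ]
      rw [TU.zR_zero (by linarith), zero_mul]) (by
      refine hdist.trans ?_
      rw [hlev]
      have : Real.sqrt d ≤ R := by linarith
      nlinarith only [hlS, hR0, hsd, hR])
  -- integrability
  have hci : ∀ (m g : Sp d → ℝ), Continuous m → Continuous g → HasCompactSupport g →
      Integrable (fun y => m y * g y) := fun m g hm hg hgc =>
    (hm.mul hg).integrable_of_hasCompactSupport hgc.mul_left
  have hzc : ∀ ρ : ℝ, 0 < ρ → Continuous (zR ρ : Sp d → ℝ) := fun ρ hρ =>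
    (TU.zR_smooth hρ).continuous
  have hζc : Continuous ζ := (hzc _ (by linarith)).mul ((hsm _ _).pow 2)
  have hζs : HasCompactSupport ζ := (TU.zR_cs (64 * R0)).mul_right
  -- first decomposition
  have e1 : ∫ y, mQ s0 f (e S) S y * ζ y = (∫ y, mQ s0 f (e P) S y * ζ y) +
      ∫ y, ⟪rs (xC s0 S) (lev s0 S.1) f y, e S - e P⟫_ℝ * ζ y := by
    rw [← integral_add (hci _ _ (mQ_cont hf s0 (e P) S) hζc hζs)
      (hci _ _ ((rs_cont hf _ _).inner continuous_const) hζc hζs)]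
    congr 1
    funext y
    unfold mQ
    rw [inner_sub_right]
    ring
  -- second decomposition
  have e2 : ∫ z, mQ s0 f (e P) P z * ζ (tw s0 S P + (2 : ℝ) ^ 7 • z) =
      2 ^ 14 * (bb R0 s0 f P.1 (xC s0 P) (e P) (ν P) (c P) -
        ∫ z, mQ s0 f (e P) P z * (φ z * ht (ν P) (cfr s0 P (ν P) (c P)) z ^ 2)) := by
    rw [bb_mQ h, ← integral_sub, ← integral_const_mul]
    · congr 1
      funext z
      simp only [hζ, hφ]
      rw [ht_frame2 h S P 7 hP1]
      ring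
    · exact hci _ _ (mQ_cont hf s0 (e P) P) ((hzc _ hR00).mul ((hsm _ _).pow 2))
        (TU.zR_cs R0).mul_right
    · refine hci _ _ (mQ_cont hf s0 (e P) P) hT3.smooth.continuous ?_
      refine HasCompactSupport.intro (isCompact_closedBall (0 : Sp d) (R0 + 1)) fun y hy => ?_
      rw [mem_closedBall, dist_zero_right, not_le] at hy
      rw [hφ2 y hy.le, zero_mul]
  have e3 := int_frame h f (e P) S P 7 hP1 ζ
  have e4 : ∫ y, mQ s0 f (e P) S y * ζ y = q * (bb R0 s0 f P.1 (xC s0 P) (e P) (ν P) (c P) -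
        ∫ z, mQ s0 f (e P) P z * (φ z * ht (ν P) (cfr s0 P (ν P) (c P)) z ^ 2)) := by
    rw [e2] at e3
    have h1 : (2 : ℝ) ^ 7 / ((2 : ℝ) ^ 7) ^ d * (((2 : ℝ) ^ 7) ^ d / (2 : ℝ) ^ 7) = 1 := by
      field_simp
    rw [hq, mul_assoc, e3, ← mul_assoc, mul_comm (((2 : ℝ) ^ 7) ^ d / (2 : ℝ) ^ 7), h1, one_mul]
  have e5 : bb (64 * R0) s0 f S.1 (xC s0 S) (e S) (ν P) (c P) ≤
      q * (bC R0 s0 f e ν c P + NA * (C8 * dC b ε R s0 f e P)) +
        C5 * NB * (dC b ε R s0 f e S + dC b ε R s0 f e P) := by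
    rw [bb_mQ h]
    have h1 : ∫ y, mQ s0 f (e S) S y * (zR (64 * R0) y *
      ht (ν P) (cfr s0 S (ν P) (c P)) y ^ 2) = ∫ y, mQ s0 f (e S) S y * ζ y := rfl
    rw [h1, e1, e4]
    refine add_le_add (mul_le_mul_of_nonneg_left ?_ hq0.le) ((le_abs_self _).trans hD)
    have h2 : bb R0 s0 f P.1 (xC s0 P) (e P) (ν P) (c P) ≤ bC R0 s0 f e ν c P := le_max_right _ _
    linarith
  have h6 : 0 ≤ q * (NA * C8) := by positivity
  have h7 : 0 ≤ C5 * NB := by positivity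
  refine max_le (by (clear * - hN1 hN2 hC8 hC5 g51 g50S g50; positivity)) (e5.trans ?_)
  linarith only [mul_nonneg h6 g51, mul_nonneg h6 g50S, mul_nonneg h7 g51, mul_nonneg hq0.le g50S, mul_nonneg hq0.le g50]

end

end FR4

end TG


end

section

/-!
# Small facts in the frames of the cells, for the construction of the world  (helper98)

FN1 bC_le_bq; FN2 far_mass; FN3 mass_le; FN4 plane_gen; FN5 zp_dir; FN6 near_om
-/

open MeasureTheory Metric Set TrI
open scoped InnerProductSpace ContDiff ENNReal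

namespace TG

namespace FN

open FR FR4

noncomputable section

variable {d : ℕ}

/-- the plane lemma -/
theorem plane_gen (h8 : StmtCT8) (h5 : StmtCT5) (hd : 2 ≤ d) {M c0 ε : ℝ} (hε : 0 < ε)
    (hε1 : ε ≤ 1) {b : Sp d → ℝ} (hb : BaseKer 2 M c0 b) {R0 : ℝ} (hR0 : 400 + 8 * d ≤ R0) (l : ℕ)
    {ρ : ℝ} (hρ : 1 ≤ ρ) (hl : ρ + 1 + Real.sqrt d * 2 ^ l ≤ R0 * 2 ^ l) :
    ∃ C : ℝ, 0 < C ∧
    ∀ (E : Type) [NormedAddCommGroup E] [InnerProductSpace ℝ E] [FiniteDimensional ℝ E]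
      (R : ℝ), 300 * R0 ≤ R → ρ + 4 ≤ R → ∀ f : Sp d → E, Continuous f → HasCompactSupport f →
    ∀ s0 : ℝ, 0 < s0 → ∀ e : Cell d → E, Dirs b ε R s0 f e →
    ∀ (ν : Cell d → Sp d) (c : Cell d → ℝ), Plns R0 s0 f e ν c → ∀ S : Cell d,
      max 0 (bb ρ s0 f S.1 (xC s0 S) (e S) (ν (up l S)) (c (up l S))) ≤
        C * (bC R0 s0 f e ν c (up l S) + dC b ε R s0 f e S + dC b ε R s0 f e (up l S)) := by
  have hd1 : 1 ≤ d := by omega
  have hdR : (1 : ℝ) ≤ d := by exact_mod_cast hd1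
  have hsd : Real.sqrt d ≤ d := by
    rw [Real.sqrt_le_left (by linarith)]
    nlinarith
  have hsd0 := Real.sqrt_nonneg (d : ℝ)
  have hR00 : 0 < R0 := by linarith
  obtain ⟨C8, hC8, g8⟩ := h8 d hd1 M c0 ε hε hε1 b hb
  obtain ⟨C81, hC81, g8⟩ := g8 0
  obtain ⟨C5, hC5, g5⟩ := h5 d hd1 M c0 ε hε hε1 b hb R0 l (by linarith)
  obtain ⟨N1, hN1, hT1⟩ := TU.TFn_of_cs (J := 2)
    (contDiff_infty.1 (TU.zR_smooth (d := d) hR00) 2) (TU.zR_cs R0)
  obtain ⟨N2, hN2, hT2⟩ := TU.TFn_of_cs (J := 2)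
    (contDiff_infty.1 (TU.zR_smooth (d := d) (by linarith : 0 < ρ)) 2) (TU.zR_cs ρ)
  set NA : ℝ := 4 ^ 2 * (N1 + max 1 |(2 : ℝ) ^ l| ^ 2 * N2) * max 1 (R0 + 1 + (R0 + 1)) ^ 2
    with hNA
  set NB : ℝ := 4 ^ 2 * N2 * max 1 (ρ + 1 + ((2 ^ l) * (R0 + 1) + (2 ^ l) * Real.sqrt d)) ^ 2
    with hNB
  have hNA0 : 0 < NA := by positivity
  have hNB0 : 0 < NB := by positivity
  set q : ℝ := ((2 : ℝ) ^ l) ^ d / (2 : ℝ) ^ l * (2 ^ l) ^ 2 with hq
  have hq0 : 0 < q := by positivity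
  refine ⟨q + q * (NA * C8) + C5 * NB, by positivity, ?_⟩
  intro E _ _ _ R hR hR2 f hf hc s0 h e he ν c hν S
  set P := up l S with hP
  have hP1 : P.1 = S.1 + l := rfl
  obtain ⟨⟨g50, g51, _⟩, -, -, -, g55⟩ := g5 E R (by linarith) f hf hc s0 h e he ν c hν |>.imp
    (fun h => h P) id
  have g50S := ((g5 E R (by linarith) f hf hc s0 h e he ν c hν).1 S).1
  obtain ⟨g8c, g8z⟩ := (g8 E R (by linarith) (by norm_num; linarith) f hf hc s0 h e he).1 P
  have hlS := lev_pos h S.1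
  have hlP := lev_pos h P.1
  have hlev : lev s0 P.1 = 2 ^ l * lev s0 S.1 := by rw [hP1, lev_add]
  -- distances
  have hdist : ‖xC s0 P - xC s0 S‖ ≤ Real.sqrt d * ((2 ^ l - 1) * lev s0 S.1) := xC_up' h l S
  have hw : ‖tw s0 S P‖ ≤ Real.sqrt d * 2 ^ l := norm_tw_up h l S
  have hcP : |cfr s0 P (ν P) (c P)| ≤ R0 + 1 := by
    have h1 := ht_frame_tw h P P (ν P) (c P)
    rw [tw_self, ht_zero] at h1
    rw [← abs_neg, h1, abs_div, abs_of_pos hlP, div_le_iff₀ hlP]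
    exact hν.loc P
  have hcS : |cfr s0 S (ν P) (c P)| ≤ (2 ^ l) * (R0 + 1) + (2 ^ l) * Real.sqrt d := by
    have h1 := ht_frame2 h S P l hP1 (ν P) (c P) 0
    rw [smul_zero, add_zero, ht_zero] at h1
    have h2 := ht_two (hν.unit P) (cfr s0 S (ν P) (c P)) 0 (tw s0 S P)
    rw [ht_zero, abs_neg, h1, zero_sub, norm_neg] at h2
    refine h2.trans ?_
    rw [mul_neg, abs_neg, abs_mul, abs_of_pos (by positivity : (0 : ℝ) < 2 ^ l)]
    have h3 := mul_le_mul_of_nonneg_left hcP (by positivity : (0 : ℝ) ≤ 2 ^ l)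
    linarith
  -- the two test functions
  set hP2 := fun z : Sp d => ht (ν P) (cfr s0 P (ν P) (c P)) z ^ 2 with hhP2
  set ζ := fun y : Sp d => zR ρ y * ht (ν P) (cfr s0 S (ν P) (c P)) y ^ 2 with hζ
  set φ := fun z : Sp d => zR R0 z - zR ρ (tw s0 S P + (2 : ℝ) ^ l • z) with hφ
  have hsm : ∀ (ν : Sp d) (c : ℝ), Continuous (ht ν c) := fun ν c =>
    (TU.ht_smooth ν c (n := 0)).continuous
  have hφ1 : TFn 2 (N1 + max 1 |(2 : ℝ) ^ l| ^ 2 * N2) φ :=
    TU.TFn_sub hT1 (TU.TFn_aff hT2 (tw s0 S P) (by norm_num))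
  have hφ2 : ∀ y : Sp d, R0 + 1 ≤ ‖y‖ → φ y = 0 := by
    intro y hy
    have h1 : ρ + 1 ≤ ‖tw s0 S P + (2 : ℝ) ^ l • y‖ := by
      have h2 : ‖(2 : ℝ) ^ l • y‖ = 2 ^ l * ‖y‖ := by
        rw [norm_smul, Real.norm_of_nonneg (by positivity)]
      have h3 := norm_sub_le_norm_add ((2 : ℝ) ^ l • y) (tw s0 S P)
      rw [add_comm] at h3
      rw [h2] at h3
      have h4 := mul_le_mul_of_nonneg_left hy (by positivity : (0 : ℝ) ≤ 2 ^ l)
      have h5 : (0 : ℝ) < 2 ^ l := by positivity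
      linarith
    simp only [hφ]
    rw [TU.zR_zero hy, TU.zR_zero h1, sub_zero]
  have hφ0 : ∀ y, 0 ≤ φ y := by
    intro y
    simp only [hφ]
    by_cases hy : ‖y‖ ≤ R0
    · rw [TU.zR_one hy]
      linarith [TU.zR_le_one ρ (tw s0 S P + (2 : ℝ) ^ l • y)]
    · push Not at hy
      have h1 : ρ + 1 ≤ ‖tw s0 S P + (2 : ℝ) ^ l • y‖ := by
        have h2 : ‖(2 : ℝ) ^ l • y‖ = 2 ^ l * ‖y‖ := by
          rw [norm_smul, Real.norm_of_nonneg (by positivity)]
        have h3 := norm_sub_le_norm_add ((2 : ℝ) ^ l • y) (tw s0 S P)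
        rw [add_comm] at h3
        rw [h2] at h3
        have h4 := mul_le_mul_of_nonneg_left hy.le (by positivity : (0 : ℝ) ≤ 2 ^ l)
        linarith
      rw [TU.zR_zero h1, sub_zero]
      exact TU.zR_nonneg _ _
  have hT3 : TFn 2 NA (fun y => φ y * ht (ν P) (cfr s0 P (ν P) (c P)) y ^ 2) :=
    TU.TFn_ht_sq hφ1 (fun y hy => hφ2 y hy.le) (hν.unit P) hcP
  have hZ := GSAux.ZP' g8z hT3 (fun y => mul_nonneg (hφ0 y) (sq_nonneg _))
    (fun y hy => by rw [hφ2 y (by linarith), zero_mul])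
  have hT4 : TFn 2 NB ζ := TU.TFn_ht_sq hT2 (fun y hy => TU.zR_zero hy.le) (hν.unit P) hcS
  have hD := g55 S P hP1 ζ NB hT4 (fun y hy => by
      simp only [hζ]
      rw [TU.zR_zero (by linarith), zero_mul]) (by
      refine hdist.trans ?_
      rw [hlev]
      have h1 : Real.sqrt d ≤ R := by linarith
      have h2 : (0 : ℝ) ≤ (2 ^ l - 1) * lev s0 S.1 := by
        have : (1 : ℝ) ≤ 2 ^ l := one_le_pow₀ (by norm_num)
        exact mul_nonneg (by linarith) hlS.le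
      have h3 := mul_le_mul_of_nonneg_right h1 h2
      linarith [h3, show R * (2 ^ l * lev s0 S.1 - lev s0 S.1) = R * ((2 ^ l - 1) * lev s0 S.1) by
        ring])
  -- integrability
  have hci : ∀ (m g : Sp d → ℝ), Continuous m → Continuous g → HasCompactSupport g →
      Integrable (fun y => m y * g y) := fun m g hm hg hgc =>
    (hm.mul hg).integrable_of_hasCompactSupport hgc.mul_left
  have hzc : ∀ ρ : ℝ, 0 < ρ → Continuous (zR ρ : Sp d → ℝ) := fun ρ hρ =>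
    (TU.zR_smooth hρ).continuous
  have hζc : Continuous ζ := (hzc _ (by linarith)).mul ((hsm _ _).pow 2)
  have hζs : HasCompactSupport ζ := (TU.zR_cs ρ).mul_right
  -- first decomposition
  have e1 : ∫ y, mQ s0 f (e S) S y * ζ y = (∫ y, mQ s0 f (e P) S y * ζ y) +
      ∫ y, ⟪rs (xC s0 S) (lev s0 S.1) f y, e S - e P⟫_ℝ * ζ y := by
    rw [← integral_add (hci _ _ (mQ_cont hf s0 (e P) S) hζc hζs)
      (hci _ _ ((rs_cont hf _ _).inner continuous_const) hζc hζs)]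
    congr 1
    funext y
    unfold mQ
    rw [inner_sub_right]
    ring
  -- second decomposition
  have e2 : ∫ z, mQ s0 f (e P) P z * ζ (tw s0 S P + (2 : ℝ) ^ l • z) =
      (2 ^ l) ^ 2 * (bb R0 s0 f P.1 (xC s0 P) (e P) (ν P) (c P) -
        ∫ z, mQ s0 f (e P) P z * (φ z * ht (ν P) (cfr s0 P (ν P) (c P)) z ^ 2)) := by
    rw [bb_mQ h, ← integral_sub, ← integral_const_mul]
    · congr 1
      funext z
      simp only [hζ, hφ]
      rw [ht_frame2 h S P l hP1]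
      ring
    · exact hci _ _ (mQ_cont hf s0 (e P) P) ((hzc _ hR00).mul ((hsm _ _).pow 2))
        (TU.zR_cs R0).mul_right
    · refine hci _ _ (mQ_cont hf s0 (e P) P) hT3.smooth.continuous ?_
      refine HasCompactSupport.intro (isCompact_closedBall (0 : Sp d) (R0 + 1)) fun y hy => ?_
      rw [mem_closedBall, dist_zero_right, not_le] at hy
      rw [hφ2 y hy.le, zero_mul]
  have e3 := int_frame h f (e P) S P l hP1 ζ
  have e4 : ∫ y, mQ s0 f (e P) S y * ζ y = q * (bb R0 s0 f P.1 (xC s0 P) (e P) (ν P) (c P) -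
        ∫ z, mQ s0 f (e P) P z * (φ z * ht (ν P) (cfr s0 P (ν P) (c P)) z ^ 2)) := by
    rw [e2] at e3
    have h1 : (2 : ℝ) ^ l / ((2 : ℝ) ^ l) ^ d * (((2 : ℝ) ^ l) ^ d / (2 : ℝ) ^ l) = 1 := by
      field_simp
    rw [hq, mul_assoc, e3, ← mul_assoc, mul_comm (((2 : ℝ) ^ l) ^ d / (2 : ℝ) ^ l), h1, one_mul]
  have e5 : bb ρ s0 f S.1 (xC s0 S) (e S) (ν P) (c P) ≤
      q * (bC R0 s0 f e ν c P + NA * (C8 * dC b ε R s0 f e P)) +
        C5 * NB * (dC b ε R s0 f e S + dC b ε R s0 f e P) := by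
    rw [bb_mQ h]
    have h1 : ∫ y, mQ s0 f (e S) S y * (zR ρ y *
      ht (ν P) (cfr s0 S (ν P) (c P)) y ^ 2) = ∫ y, mQ s0 f (e S) S y * ζ y := rfl
    rw [h1, e1, e4]
    refine add_le_add (mul_le_mul_of_nonneg_left ?_ hq0.le) ((le_abs_self _).trans hD)
    have h2 : bb R0 s0 f P.1 (xC s0 P) (e P) (ν P) (c P) ≤ bC R0 s0 f e ν c P := le_max_right _ _
    linarith
  have h6 : 0 ≤ q * (NA * C8) := by positivity
  have h7 : 0 ≤ C5 * NB := by positivity
  refine max_le (by (clear * - hN1 hN2 hC8 hC5 g51 g50S g50; positivity)) (e5.trans ?_)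
  linarith only [mul_nonneg h6 g51, mul_nonneg h6 g50S, mul_nonneg h7 g51, mul_nonneg hq0.le g50S, mul_nonneg hq0.le g50]

/-! ## FN1 -/

section F1

variable {E : Type} [NormedAddCommGroup E] [InnerProductSpace ℝ E] [FiniteDimensional ℝ E]

lemma cfr_plane {s0 : ℝ} (h : 0 < s0) (Q : Cell d) (n : Sp d) (s : ℝ) :
    cfr s0 Q n (⟪n, xC s0 Q⟫_ℝ + lev s0 Q.1 * s) = s := by
  have hl := lev_pos h Q.1
  unfold cfr
  field_simp
  ring

lemma bb_blc {s0 : ℝ} (h : 0 < s0) (ρ : ℝ) (f : Sp d → E) (e : E) (Q : Cell d) (ν : Sp d)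
    (c : ℝ) : bb ρ s0 f Q.1 (xC s0 Q) e ν c = blc ν (cfr s0 Q ν c) (mQ s0 f e Q) ρ :=
  bb_mQ h ρ f e Q ν c

/-- the plane functional of a cell is at most (in fact equal to) the functional bq of the frame -/
theorem bC_le_bq (hd : 1 ≤ d) {R0 s0 : ℝ} (h : 0 < s0) (hR0 : 0 ≤ R0) {f : Sp d → E}
    {e : Cell d → E} {ν : Cell d → Sp d} {c : Cell d → ℝ} (hν : Plns R0 s0 f e ν c)
    (Q : Cell d) : bC R0 s0 f e ν c Q ≤ bq R0 (mQ s0 f (e Q) Q) := by
  have hl := lev_pos h Q.1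
  unfold bC bq
  refine max_le_max le_rfl (le_csInf ?_ ?_)
  · refine ⟨_, EuclideanSpace.single (⟨0, hd⟩ : Fin d) (1 : ℝ), 0, by simp, ?_, rfl⟩
    rw [abs_zero]
    linarith
  · rintro v ⟨n, s, hn, hs, rfl⟩
    have h1 := hν.min Q n (⟪n, xC s0 Q⟫_ℝ + lev s0 Q.1 * s) hn (by
      unfold ht
      rw [show ⟪n, xC s0 Q⟫_ℝ - (⟪n, xC s0 Q⟫_ℝ + lev s0 Q.1 * s) = -(lev s0 Q.1 * s) by ring,
        abs_neg, abs_mul, abs_of_pos hl, mul_comm]
      exact mul_le_mul_of_nonneg_right hs hl.le)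
    refine h1.trans (le_of_eq ?_)
    rw [bb_blc h, cfr_plane h]

end F1

/-! ## FN2, FN3: masses in the frame -/

lemma lev_unit (n : ℕ) : lev ((1 / 2 : ℝ) ^ n) n = 1 := by
  have := lev_half n 0
  simpa using this

/-- mass of a cell in terms of an integral in the frame -/
lemma mC_frame {E : Type} [NormedAddCommGroup E] [InnerProductSpace ℝ E] [FiniteDimensional ℝ E]
    (hSC : StmtSC) (hd : 2 ≤ d) {M c0 ε : ℝ} (hε : 0 < ε) (hε1 : ε ≤ 1)
    {b : Sp d → ℝ} (hb : BaseKer 2 M c0 b) {f : Sp d → E} (hf : Continuous f)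
    (hc : HasCompactSupport f) {s0 : ℝ} (h : 0 < s0) (ρ : ℝ) (Q : Cell d) :
    mC b ε ρ s0 f Q = ∫ y in ball (0 : Sp d) ρ,
      ‖fl b ε ((1 / 2) ^ Q.1) (rs (xC s0 Q) (lev s0 Q.1) f) (Q.1 - 1) y‖ := by
  have h1 := ma_frame hSC hd hε hε1 hb hf hc h ρ 0 Q
  rw [up_zero, tw_self, add_zero] at h1
  rw [← h1]
  unfold ma
  rw [lev_unit]
  simp

/-- masses against nonnegative test functions in the frame -/
theorem mass_test (hMA : StmtMA) (hSC : StmtSC) (hd : 2 ≤ d) {M c0 ε : ℝ} (hε : 0 < ε)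
    (hε1 : ε ≤ 1) {b : Sp d → ℝ} (hb : BaseKer 2 M c0 b) :
    ∃ C : ℝ, 0 < C ∧
    ∀ (E : Type) [NormedAddCommGroup E] [InnerProductSpace ℝ E] [FiniteDimensional ℝ E]
      (R : ℝ), 5 ≤ R → ∀ f : Sp d → E, Continuous f → HasCompactSupport f →
    ∀ s0 : ℝ, 0 < s0 → ∀ e : Cell d → E, (∀ Q, ‖e Q‖ = 1) → ∀ (Q : Cell d) (ρ : ℝ)
      (H : Sp d → ℝ) (N h0 : ℝ), 0 < h0 → TFn 2 N H → (∀ y, 0 ≤ H y) →
        (∀ y, R - 2 ≤ ‖y‖ → H y = 0) → (∀ z, ‖z‖ ≤ ρ + 2 → h0 ≤ H z) →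
      h0 * mC b ε ρ s0 f Q ≤ (∫ y, mQ s0 f (e Q) Q y * H y) + C * N * dC b ε R s0 f e Q := by
  obtain ⟨C, hC, hM⟩ := TU.MA' hMA (by omega : 1 ≤ d) hε hε1 hb
  refine ⟨C, hC, ?_⟩
  intro E _ _ _ R hR f hf hc s0 h e he Q ρ H N h0 hh0 hH hH0 hHs hHl
  have h1 := (hM E (rs (xC s0 Q) (lev s0 Q.1) f) (rs_cont hf _ _)
    (rs_cs hc _ (lev_pos h _)) R hR Q.1 (e Q) (he Q) 0 (ball 0 ρ) measurableSet_ball).2 H N h0
    hh0 hH hH0 (fun y hy => hHs y (by simpa using hy)) (fun y z hy hz => hHl z (by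
      rw [mem_ball, dist_zero_right] at hy
      have : z = (z - y) + y := by abel
      rw [this]
      exact (norm_add_le _ _).trans (by linarith)))
  have h2 := DD_frame hSC hd hε hε1 hb hf hc h R 0 Q (e Q)
  rw [up_zero, tw_self, add_zero] at h2
  rw [h2, ← mC_frame hSC hd hε hε1 hb hf hc h ρ Q] at h1
  exact h1

/-- FN2: if the plane stays away from the ball of radius 32 R0 then the mass in this ball is
bounded by the off-plane mass -/
theorem far_mass (hMA : StmtMA) (hSC : StmtSC) (hd : 2 ≤ d) {M c0 ε : ℝ} (hε : 0 < ε)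
    (hε1 : ε ≤ 1) {b : Sp d → ℝ} (hb : BaseKer 2 M c0 b) {R0 : ℝ} (hR0 : 1 ≤ R0) :
    ∃ C : ℝ, 0 < C ∧
    ∀ (E : Type) [NormedAddCommGroup E] [InnerProductSpace ℝ E] [FiniteDimensional ℝ E]
      (R : ℝ), 64 * R0 + 5 ≤ R → ∀ f : Sp d → E, Continuous f → HasCompactSupport f →
    ∀ s0 : ℝ, 0 < s0 → ∀ e : Cell d → E, (∀ Q, ‖e Q‖ = 1) → ∀ (Q : Cell d) (n : Sp d) (s : ℝ),
      ‖n‖ = 1 → 32 * R0 + 4 < |s| → |s| ≤ 64 * R0 + 4 →
      mC b ε (32 * R0) s0 f Q ≤ blc n s (mQ s0 f (e Q) Q) (64 * R0) + C * dC b ε R s0 f e Q := by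
  obtain ⟨C, hC, hT⟩ := mass_test hMA hSC hd hε hε1 hb
  obtain ⟨N2, hN2, hT2⟩ := TU.TFn_of_cs (J := 2)
    (contDiff_infty.1 (TU.zR_smooth (d := d) (by linarith : 0 < 64 * R0)) 2) (TU.zR_cs (64 * R0))
  set N : ℝ := 4 ^ 2 * N2 * max 1 (64 * R0 + 1 + (64 * R0 + 4)) ^ 2 with hN
  have hN0 : 0 < N := by positivity
  refine ⟨C * N, by positivity, ?_⟩
  intro E _ _ _ R hR f hf hc s0 h e he Q n s hn hs hs2
  have h1 := hT E R (by linarith) f hf hc s0 h e he Q (32 * R0)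
    (fun y => zR (64 * R0) y * ht n s y ^ 2) N 1 one_pos
    (TU.TFn_ht_sq hT2 (fun y hy => TU.zR_zero hy.le) hn hs2)
    (fun y => mul_nonneg (TU.zR_nonneg _ _) (sq_nonneg _))
    (fun y hy => by rw [TU.zR_zero (by linarith), zero_mul])
    (fun z hz => by
      rw [TU.zR_one (by linarith), one_mul]
      have h2 : |s| - ‖z‖ ≤ |ht n s z| := by
        unfold ht
        have h3 := abs_real_inner_le_norm n z
        rw [hn, one_mul] at h3
        have h4 : |s| ≤ |⟪n, z⟫_ℝ - s| + |⟪n, z⟫_ℝ| := by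
          have := abs_sub_abs_le_abs_sub s ⟪n, z⟫_ℝ
          rw [abs_sub_comm] at this
          linarith
        linarith
      have h5 : (1 : ℝ) ≤ |ht n s z| := by linarith
      rw [← sq_abs]
      nlinarith only [hs, hz, h2])
  rw [one_mul] at h1
  exact h1

/-- FN3: the mass in the ball ρ against a cut-off -/
theorem mass_le (hMA : StmtMA) (hSC : StmtSC) (hd : 2 ≤ d) {M c0 ε : ℝ} (hε : 0 < ε)
    (hε1 : ε ≤ 1) {b : Sp d → ℝ} (hb : BaseKer 2 M c0 b) {ρ : ℝ} (hρ : 0 < ρ) :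
    ∃ C : ℝ, 0 < C ∧
    ∀ (E : Type) [NormedAddCommGroup E] [InnerProductSpace ℝ E] [FiniteDimensional ℝ E]
      (R : ℝ), ρ + 5 ≤ R → ∀ f : Sp d → E, Continuous f → HasCompactSupport f →
    ∀ s0 : ℝ, 0 < s0 → ∀ e : Cell d → E, (∀ Q, ‖e Q‖ = 1) → ∀ (Q : Cell d),
      mC b ε ρ s0 f Q ≤ (∫ y, mQ s0 f (e Q) Q y * zR (ρ + 2) y) + C * dC b ε R s0 f e Q := by
  obtain ⟨C, hC, hT⟩ := mass_test hMA hSC hd hε hε1 hb
  obtain ⟨N2, hN2, hT2⟩ := TU.TFn_of_cs (J := 2)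
    (contDiff_infty.1 (TU.zR_smooth (d := d) (by linarith : 0 < ρ + 2)) 2) (TU.zR_cs (ρ + 2))
  refine ⟨C * N2, by positivity, ?_⟩
  intro E _ _ _ R hR f hf hc s0 h e he Q
  have h1 := hT E R (by linarith) f hf hc s0 h e he Q ρ (zR (ρ + 2)) N2 1 one_pos hT2
    (fun y => TU.zR_nonneg _ _) (fun y hy => TU.zR_zero (by linarith))
    (fun z hz => by rw [TU.zR_one (by linarith)])
  rw [one_mul] at h1
  exact h1

end

end FN

end TG


end

section

/-!
# Module LP: facts for the functional Y at tops  (helper96)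

Tail lemma CT3 and FN.mass_le for the mass; FN.plane_gen (l = 9, radius R0) and FN.bb_blc for the
plane of the ninth ancestor in the frame of the cell.
-/

open MeasureTheory Metric Set TrI
open scoped InnerProductSpace ContDiff ENNReal

namespace TG

namespace LP

open FR FR4 FN

noncomputable section

variable {d : ℕ}

lemma mT_nn {E : Type} [NormedAddCommGroup E] [InnerProductSpace ℝ E] (b : Sp d → ℝ) (ε : ℝ)
    {s0 : ℝ} (h : 0 < s0) (f : Sp d → E) (Q : Cell d) : 0 ≤ mT b ε s0 f Q := by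
  have hl := lev_pos h Q.1
  unfold mT nw
  refine mul_nonneg (by positivity) (integral_nonneg fun y => ?_)
  positivity

/-- the plane of the l-th ancestor in the frame of a cell -/
lemma cfr_up {R0 s0 : ℝ} (h : 0 < s0) {E : Type} [NormedAddCommGroup E] [InnerProductSpace ℝ E]
    {f : Sp d → E} {e : Cell d → E} {ν : Cell d → Sp d} {c : Cell d → ℝ}
    (hν : Plns R0 s0 f e ν c) (l : ℕ) (S : Cell d) :
    |cfr s0 S (ν (up l S)) (c (up l S))| ≤ 2 ^ l * (R0 + 1) + 2 ^ l * Real.sqrt d := by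
  set P := up l S with hP
  have hP1 : P.1 = S.1 + l := rfl
  have hlP := lev_pos h P.1
  have hw : ‖tw s0 S P‖ ≤ Real.sqrt d * 2 ^ l := norm_tw_up h l S
  have hcP : |cfr s0 P (ν P) (c P)| ≤ R0 + 1 := by
    have h1 := ht_frame_tw h P P (ν P) (c P)
    rw [tw_self, ht_zero] at h1
    rw [← abs_neg, h1, abs_div, abs_of_pos hlP, div_le_iff₀ hlP]
    exact hν.loc P
  have h1 := ht_frame2 h S P l hP1 (ν P) (c P) 0
  rw [smul_zero, add_zero, ht_zero] at h1
  have h2 := ht_two (hν.unit P) (cfr s0 S (ν P) (c P)) 0 (tw s0 S P)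
  rw [ht_zero, abs_neg, h1, zero_sub, norm_neg] at h2
  refine h2.trans ?_
  rw [mul_neg, abs_neg, abs_mul, abs_of_pos (by positivity : (0 : ℝ) < 2 ^ l)]
  have h3 := mul_le_mul_of_nonneg_left hcP (by positivity : (0 : ℝ) ≤ 2 ^ l)
  linarith

end

end LP

open FR FR4 FN

theorem stmtLP (hCT3 : StmtCT3) (hMA : StmtMA) (hSC : StmtSC) (hCT8 : StmtCT8)
    (hCT5 : StmtCT5) : StmtLP := by
  intro d hd
  have hd1 : 1 ≤ d := by omega
  obtain ⟨Rt, hRt, h3⟩ := hCT3 d hd1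
  refine ⟨Rt + 2, by linarith, ?_⟩
  intro M c0 ε hε hε1 b hb R0 hR0
  have hdR : (1 : ℝ) ≤ d := by exact_mod_cast hd1
  have hsd : Real.sqrt d ≤ d := by
    rw [Real.sqrt_le_left (by linarith)]
    nlinarith
  have hsd0 := Real.sqrt_nonneg (d : ℝ)
  have hR00 : 0 < R0 := by linarith
  obtain ⟨C1, hC1, h3⟩ := h3 M c0 ε hε hε1 b hb
  obtain ⟨C2, hC2, h4⟩ := FN.mass_le hMA hSC hd hε hε1 hb (by linarith : 0 < Rt)
  obtain ⟨C4, hC4, h5⟩ := FN.plane_gen hCT8 hCT5 hd hε hε1 hb hR0 9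
    (ρ := R0) (by linarith) (by norm_num; linarith)
  refine ⟨2, 2 ^ 9 * (R0 + 1) + 2 ^ 9 * Real.sqrt d, C1 + 2 * C2 + C4,
    max (300 * R0) (Rt + 5), by norm_num, by positivity, by positivity, ?_⟩
  intro E _ _ _ R hR f hf hc s0 h e he ν c hν γ hγ P hP
  have hRa : 300 * R0 ≤ R := (le_max_left _ _).trans hR
  have hRb : Rt + 5 ≤ R := (le_max_right _ _).trans hR
  obtain ⟨h31, -, h33⟩ := h3 E f hf hc s0 h
  have hT := LP.mT_nn b ε h f P
  have hG := h31 P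
  have hA := h33 γ hγ P hP
  have hB := h4 E R hRb f hf hc s0 h e he.unit P
  have hC := h5 E R hRa (by linarith) f hf hc s0 h e he ν c hν P
  obtain ⟨hD, -⟩ := hCT5 d hd1 M c0 ε hε hε1 b hb R0 9 (by linarith) |>.choose_spec.2 E R
    (by linarith) f hf hc s0 h e he ν c hν
  obtain ⟨hD1, hD2, -⟩ := hD P
  obtain ⟨hD3, hD4, -⟩ := hD (up 9 P)
  refine ⟨hT, hG, ?_, hν.unit _, LP.cfr_up h hν 9 P, ?_⟩
  · have e1 : 0 ≤ C1 * dC b ε R s0 f e P := mul_nonneg hC1.le hD1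
    have e2 : 0 ≤ C4 * dC b ε R s0 f e P := mul_nonneg hC4.le hD1
    have e3 : 0 ≤ C2 * tG b ε s0 f P := mul_nonneg hC2.le hG
    have e4 : 0 ≤ C4 * tG b ε s0 f P := mul_nonneg hC4.le hG
    nlinarith [hA, hB]
  · have e5 := bb_blc h R0 f (e P) P (ν (up 9 P)) (c (up 9 P))
    have e6 : blc (ν (up 9 P)) ((c (up 9 P) - ⟪ν (up 9 P), xC s0 P⟫_ℝ) / lev s0 P.1)
        (mQ s0 f (e P) P) R0 = bb R0 s0 f P.1 (xC s0 P) (e P) (ν (up 9 P)) (c (up 9 P)) := by
      rw [e5]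
      rfl
    rw [e6]
    refine (le_max_right _ _).trans (hC.trans ?_)
    refine mul_le_mul_of_nonneg_right (by linarith) ?_
    linarith

end TG


end

section

/-!
# Tools for the modules W1 - W7  (helper98)

(1) the symmetry (n,s) -> (-n,-s); (2) monotonicity of Sheet; (3) plane integrals under translation
and scaling; (4) gains in the frames of other cells; (5) the partition of unity.
-/

open MeasureTheory Metric Set TrI
open scoped InnerProductSpace ContDiff ENNReal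

namespace TG

namespace WT

noncomputable section

set_option linter.unusedSectionVars false

variable {d : ℕ}

/-! ## Symmetry -/

lemma tang_neg (n w : Sp d) : tang (-n) w = tang n w := by
  unfold tang
  rw [inner_neg_left]
  simp

lemma X1_neg (β : Sp d → ℝ) (ε : ℝ) (μ : Measure (Sp d)) (n : Sp d) :
    X1 β ε μ (-n) = X1 β ε μ n := by
  funext t y
  unfold X1
  simp only [tang_neg]

lemma X2_neg (μ : Measure (Sp d)) (n : Sp d) : X2 μ (-n) = X2 μ n := by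
  funext t y
  unfold X2
  simp only [inner_neg_right, neg_sq]

lemma X3_neg (β : Sp d → ℝ) (ε : ℝ) (μ : Measure (Sp d)) (n : Sp d) :
    X3 β ε μ (-n) = X3 β ε μ n := by
  funext t y
  unfold X3
  simp only [inner_neg_right, mul_neg, neg_mul, neg_neg]

lemma XX_neg (β : Sp d → ℝ) (ε : ℝ) (μ : Measure (Sp d)) (n : Sp d) (t : ℝ) (y : Sp d) :
    XX β ε μ (-n) t y = XX β ε μ n t y := by
  unfold XX
  rw [X1_neg, X2_neg, X3_neg]

lemma d2_neg (n : Sp d) (g : Sp d → ℝ) (x : Sp d) : d2 (-n) g x = d2 n g x := by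
  unfold d2
  have h : (fun _ : Fin 2 => -n) = fun i : Fin 2 => (-1 : ℝ) • (fun _ : Fin 2 => n) i := by
    funext i
    simp
  rw [h, ContinuousMultilinearMap.map_smul_univ]
  simp

lemma gn_neg (β : Sp d → ℝ) (ε : ℝ) (μ : Measure (Sp d)) (n : Sp d) (t : ℝ) (y : Sp d) :
    gn β ε μ (-n) t y = gn β ε μ n t y := by
  unfold gn
  rw [d2_neg]

lemma Hn_neg (β : Sp d → ℝ) (ε p0 A : ℝ) (μ : Measure (Sp d)) (n : Sp d) (t : ℝ) (y : Sp d) :
    Hn β ε p0 A μ (-n) t y = Hn β ε p0 A μ n t y := by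
  unfold Hn
  rw [gn_neg, tang_neg, tang_neg]

lemma fxA_neg (χ χ' β : Sp d → ℝ) (ε p0 A : ℝ) (μ : Measure (Sp d)) (n x : Sp d) :
    fxA χ χ' β ε p0 A μ (-n) x = fxA χ χ' β ε p0 A μ n x := by
  unfold fxA
  rw [tang_neg, tang_neg]

lemma dvT_neg (χ β : Sp d → ℝ) (ε p0 A : ℝ) (μ : Measure (Sp d)) (n x : Sp d) :
    dvT χ β ε p0 A μ (-n) x = dvT χ β ε p0 A μ n x := by
  unfold dvT
  simp only [tang_neg]

lemma span_neg_singleton (n : Sp d) :
    Submodule.span ℝ ({-n} : Set (Sp d)) = Submodule.span ℝ {n} := by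
  rw [← Set.neg_singleton, Submodule.span_neg]

lemma int_sub {F : Type*} [NormedAddCommGroup F] [NormedSpace ℝ F] {S T : Submodule ℝ (Sp d)}
    (h : S = T) (f : Sp d → F) : ∫ y : S, f (y : Sp d) = ∫ y : T, f (y : Sp d) := by
  subst h
  rfl

lemma plInt_neg {F : Type*} [NormedAddCommGroup F] [NormedSpace ℝ F] (n : Sp d) (s : ℝ)
    (ζ : Sp d → F) : plInt (-n) (-s) ζ = plInt n s ζ := by
  unfold plInt
  rw [neg_smul_neg]
  exact int_sub (by rw [span_neg_singleton]) (fun y => ζ (s • n + y))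

lemma hgt_neg (n : Sp d) (s : ℝ) (y : Sp d) : hgt (-n) (-s) y = -hgt n s y := by
  unfold hgt
  rw [inner_neg_left]
  ring

lemma blc_neg (n : Sp d) (s : ℝ) (m : Sp d → ℝ) (R : ℝ) : blc (-n) (-s) m R = blc n s m R := by
  unfold blc
  simp only [hgt_neg, neg_sq]

lemma TB_neg {J : ℕ} {n : Sp d} {s N : ℝ} {ζ : Sp d → ℝ} (h : TB J (-n) (-s) N ζ) :
    TB J n s N ζ := by
  intro j hj w hw hw1 y hy
  obtain ⟨h1, h2⟩ := h j hj w (fun i => by rw [inner_neg_left, hw i, neg_zero]) hw1 y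
    (by rw [inner_neg_left, hy])
  refine ⟨h1, ?_⟩
  have h3 : (fun x => fderiv ℝ ζ x (-n)) = -(fun x => fderiv ℝ ζ x n) := by
    funext x
    simp
  rw [h3, iteratedFDeriv_neg_apply] at h2
  simpa using h2

lemma sheet_neg {J : ℕ} {R ab ep D : ℝ} {m : Sp d → ℝ} {n : Sp d} {s : ℝ}
    (h : Sheet J R ab ep D m n s) : Sheet J R ab ep D m (-n) (-s) where
  n1 := by rw [norm_neg]; exact h.n1
  ab0 := h.ab0
  ep0 := h.ep0
  loc := by rw [abs_neg]; exact h.loc
  est := by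
    intro ζ ρ N N2 h1 h2 h3 h4 h5 h6
    rw [plInt_neg, blc_neg]
    exact h.est ζ ρ N N2 h1 h2 h3 h4 (TB_neg h5) h6

/-- the symmetry with a sign -/
lemma sheet_sign {J : ℕ} {R ab ep D : ℝ} {m : Sp d → ℝ} {n : Sp d} {s σ : ℝ}
    (hσ : σ = 1 ∨ σ = -1)
    (h : Sheet J R ab ep D m n s) : Sheet J R ab ep D m (σ • n) (σ * s) := by
  rcases hσ with rfl | rfl
  · simpa using h
  · simpa using sheet_neg h

lemma plInt_sign {F : Type*} [NormedAddCommGroup F] [NormedSpace ℝ F] (n : Sp d) (s : ℝ)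
    (ζ : Sp d → F) {σ : ℝ} (hσ : σ = 1 ∨ σ = -1) :
    plInt (σ • n) (σ * s) ζ = plInt n s ζ := by
  rcases hσ with rfl | rfl
  · simp
  · simpa using plInt_neg n s ζ

lemma blc_sign (n : Sp d) (s : ℝ) (m : Sp d → ℝ) (R : ℝ) {σ : ℝ} (hσ : σ = 1 ∨ σ = -1) :
    blc (σ • n) (σ * s) m R = blc n s m R := by
  rcases hσ with rfl | rfl
  · simp
  · simpa using blc_neg n s m R

lemma XX_sign (β : Sp d → ℝ) (ε : ℝ) (μ : Measure (Sp d)) (n : Sp d) (t : ℝ) (y : Sp d) {σ : ℝ}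
    (hσ : σ = 1 ∨ σ = -1) : XX β ε μ (σ • n) t y = XX β ε μ n t y := by
  rcases hσ with rfl | rfl
  · simp
  · simpa using XX_neg β ε μ n t y

lemma Hn_sign (β : Sp d → ℝ) (ε p0 A : ℝ) (μ : Measure (Sp d)) (n : Sp d) (t : ℝ) (y : Sp d)
    {σ : ℝ} (hσ : σ = 1 ∨ σ = -1) :
    Hn β ε p0 A μ (σ • n) t y = Hn β ε p0 A μ n t y := by
  rcases hσ with rfl | rfl
  · simp
  · simpa using Hn_neg β ε p0 A μ n t y

lemma fxA_sign (χ χ' β : Sp d → ℝ) (ε p0 A : ℝ) (μ : Measure (Sp d)) (n x : Sp d)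
    {σ : ℝ} (hσ : σ = 1 ∨ σ = -1) :
    fxA χ χ' β ε p0 A μ (σ • n) x = fxA χ χ' β ε p0 A μ n x := by
  rcases hσ with rfl | rfl
  · simp
  · simpa using fxA_neg χ χ' β ε p0 A μ n x

/-! ## Monotonicity -/

lemma sheet_N {J : ℕ} {n : Sp d} {s N : ℝ} {ζ : Sp d → ℝ} (hn : ‖n‖ = 1) (h : TB J n s N ζ) :
    0 ≤ N := by
  refine (abs_nonneg _).trans (h 0 (Nat.zero_le _) (fun j => j.elim0) (fun j => j.elim0)
    (fun j => j.elim0) (s • n) ?_).1
  rw [inner_smul_right, real_inner_self_eq_norm_sq, hn]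
  ring

/-- Sheet is monotone in the order, the radius, ep and D -/
lemma sheet_mono {J J' : ℕ} {R R' ab ep ep' D D' : ℝ} {m : Sp d → ℝ} {n : Sp d} {s : ℝ}
    (h : Sheet J R ab ep D m n s) (hJ : J ≤ J') (hR : R' ≤ R) (hs : |s| ≤ 3 / 2 * R')
    (he : ep ≤ ep') (hD : D ≤ D') : Sheet J' R' ab ep' D' m n s where
  n1 := h.n1
  ab0 := h.ab0
  ep0 := h.ep0.trans he
  loc := hs
  est := by
    intro ζ ρ N N2 h1 h2 h3 h4 h5 h6
    have h7 := h.est ζ ρ N N2 (h1.of_le (by exact_mod_cast Nat.add_le_add_right hJ 2)) h2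
      (h3.trans hR) h4 (fun j hj => h5 j (hj.trans hJ)) h6
    have hN2 : 0 ≤ N2 := (norm_nonneg _).trans (h6 0)
    have hN : 0 ≤ N := sheet_N h.n1 h5
    have h8 : (N + N2) * D ≤ (N + N2) * D' := mul_le_mul_of_nonneg_left hD (by linarith)
    have h9 : ep * N ≤ ep' * N := mul_le_mul_of_nonneg_right he hN
    linarith

/-! ## Positions -/

lemma dsp_eq {s0 : ℝ} (h : 0 < s0) (Q Q' : Cell d) (hl : Q'.1 = Q.1) :
    dsp Q Q' = tw s0 Q Q' := by
  have hp := FR.lev_pos h Q.1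
  refine PiLp.ext fun j => ?_
  unfold tw dsp
  rw [PiLp.smul_apply, PiLp.sub_apply, FR.xC_apply, FR.xC_apply, hl, lat]
  simp only [smul_eq_mul]
  push_cast
  field_simp

lemma lev_ne {s0 : ℝ} (h : 0 < s0) (i : ℕ) : lev s0 i ≠ 0 := (FR.lev_pos h i).ne'

/-- a point of the frame of P, seen in the frame of Q -/
lemma frame_pt {s0 : ℝ} (h : 0 < s0) (Q P : Cell d) (l : ℕ) (hP : P.1 = Q.1 + l) (y : Sp d) :
    xC s0 P + lev s0 P.1 • y = xC s0 Q + lev s0 Q.1 • (tw s0 Q P + (2 : ℝ) ^ l • y) := by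
  rw [hP, FR.lev_add, smul_add, ← add_assoc, FR.x_tw h, smul_smul, mul_comm (lev s0 Q.1)]

/-! ## The measure functionals in the frames of two cells -/

section G

variable {C' : ℝ} {μ : Measure (Sp d)}

lemma gro_muQ (hSC : StmtSC) (hd : 2 ≤ d) (hC' : 0 < C') (hμ : Gro C' μ) {s0 : ℝ} (h : 0 < s0)
    (Q : Cell d) : Gro C' (muQ s0 μ Q) :=
  ((hSC d hd C' hC' (xC s0 Q) (lev s0 Q.1) (FR.lev_pos h _)).1 μ hμ).1

lemma vv_frame (hSC : StmtSC) (hd : 2 ≤ d) (hC' : 0 < C') (hμ : Gro C' μ) {s0 : ℝ} (h : 0 < s0)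
    (Q : Cell d) {r : ℝ} (hr : 0 < r) (y : Sp d) :
    vv (muQ s0 μ Q) r y = vv μ (lev s0 Q.1 * r) (xC s0 Q + lev s0 Q.1 • y) :=
  ((hSC d hd C' hC' (xC s0 Q) (lev s0 Q.1) (FR.lev_pos h _)).1 μ hμ).2.2.1 r y hr

lemma vv_frames (hSC : StmtSC) (hd : 2 ≤ d) (hC' : 0 < C') (hμ : Gro C' μ) {s0 : ℝ} (h : 0 < s0)
    (Q P : Cell d) (l : ℕ) (hP : P.1 = Q.1 + l) (y : Sp d) :
    vv (muQ s0 μ P) 1 y = vv (muQ s0 μ Q) (2 ^ l) (tw s0 Q P + (2 : ℝ) ^ l • y) := by
  rw [vv_frame hSC hd hC' hμ h P one_pos, vv_frame hSC hd hC' hμ h Q (by positivity),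
    frame_pt h Q P l hP, mul_one, hP, FR.lev_add, mul_comm (lev s0 Q.1)]

lemma XX_frame (hSC : StmtSC) (hd : 2 ≤ d) (hC' : 0 < C') (hμ : Gro C' μ) {s0 : ℝ} (h : 0 < s0)
    {J : ℕ} {M : ℝ} {β : Sp d → ℝ} (hβ : Kit J M β) (hJ : 2 ≤ J) {ε : ℝ} (hε : 0 < ε)
    (hε1 : ε ≤ 1) (Q : Cell d) (n : Sp d) {r : ℝ} (hr : 0 < r) (y : Sp d) :
    XX β ε (muQ s0 μ Q) n r y = XX β ε μ n (lev s0 Q.1 * r) (xC s0 Q + lev s0 Q.1 • y) :=
  (((hSC d hd C' hC' (xC s0 Q) (lev s0 Q.1) (FR.lev_pos h _)).1 μ hμ).2.2.2.2 J M β hβ hJ ε hε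
    hε1 r y hr).2.2.1 n

lemma XX_frames (hSC : StmtSC) (hd : 2 ≤ d) (hC' : 0 < C') (hμ : Gro C' μ) {s0 : ℝ} (h : 0 < s0)
    {J : ℕ} {M : ℝ} {β : Sp d → ℝ} (hβ : Kit J M β) (hJ : 2 ≤ J) {ε : ℝ} (hε : 0 < ε)
    (hε1 : ε ≤ 1) (Q P : Cell d) (l : ℕ) (hP : P.1 = Q.1 + l) (n y : Sp d) :
    XX β ε (muQ s0 μ P) n 1 y = XX β ε (muQ s0 μ Q) n (2 ^ l) (tw s0 Q P + (2 : ℝ) ^ l • y) := by
  rw [XX_frame hSC hd hC' hμ h hβ hJ hε hε1 P n one_pos,
    XX_frame hSC hd hC' hμ h hβ hJ hε hε1 Q n (by positivity),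
    frame_pt h Q P l hP, mul_one, hP, FR.lev_add, mul_comm (lev s0 Q.1)]

/-- the same on one level -/
lemma XX_shift (hSC : StmtSC) (hd : 2 ≤ d) (hC' : 0 < C') (hμ : Gro C' μ) {s0 : ℝ} (h : 0 < s0)
    {J : ℕ} {M : ℝ} {β : Sp d → ℝ} (hβ : Kit J M β) (hJ : 2 ≤ J) {ε : ℝ} (hε : 0 < ε)
    (hε1 : ε ≤ 1) (Q P : Cell d) (hP : P.1 = Q.1) (n y : Sp d) :
    XX β ε (muQ s0 μ P) n 1 y = XX β ε (muQ s0 μ Q) n 1 (dsp Q P + y) := by
  have := XX_frames hSC hd hC' hμ h hβ hJ hε hε1 Q P 0 (by simpa using hP) n y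
  rw [pow_zero, one_smul] at this
  rw [this, dsp_eq h Q P hP]

lemma vv_shift (hSC : StmtSC) (hd : 2 ≤ d) (hC' : 0 < C') (hμ : Gro C' μ) {s0 : ℝ} (h : 0 < s0)
    (Q P : Cell d) (hP : P.1 = Q.1) (y : Sp d) :
    vv (muQ s0 μ P) 1 y = vv (muQ s0 μ Q) 1 (dsp Q P + y) := by
  have := vv_frames hSC hd hC' hμ h Q P 0 (by simpa using hP) y
  rw [pow_zero, one_smul] at this
  rw [this, dsp_eq h Q P hP]

lemma GG_shift (hSC : StmtSC) (hd : 2 ≤ d) (hC' : 0 < C') (hμ : Gro C' μ) {s0 : ℝ} (h : 0 < s0)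
    {J : ℕ} {M : ℝ} {β : Sp d → ℝ} (hβ : Kit J M β) (hJ : 2 ≤ J) {ε : ℝ} (hε : 0 < ε)
    (hε1 : ε ≤ 1) (Q P : Cell d) (hP : P.1 = Q.1) (y : Sp d) :
    GG β ε (muQ s0 μ P) 1 y = GG β ε (muQ s0 μ Q) 1 (dsp Q P + y) := by
  have h1 := (((hSC d hd C' hC' (xC s0 P) (lev s0 P.1) (FR.lev_pos h _)).1 μ hμ).2.2.2.2 J M β
    hβ hJ ε hε hε1 1 y one_pos).1
  have h2 := (((hSC d hd C' hC' (xC s0 Q) (lev s0 Q.1) (FR.lev_pos h _)).1 μ hμ).2.2.2.2 J M β
    hβ hJ ε hε hε1 1 (dsp Q P + y) one_pos).1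
  have h3 := frame_pt h Q P 0 (by simpa using hP) y
  rw [pow_zero, one_smul, ← dsp_eq h Q P hP] at h3
  unfold muQ
  rw [h1, h2, h3, hP]

lemma WW_shift (hSC : StmtSC) (hd : 2 ≤ d) (hC' : 0 < C') (hμ : Gro C' μ) {s0 : ℝ} (h : 0 < s0)
    {J : ℕ} {M : ℝ} {β : Sp d → ℝ} (hβ : Kit J M β) (hJ : 2 ≤ J) {ε : ℝ} (hε : 0 < ε)
    (hε1 : ε ≤ 1) (Q P : Cell d) (hP : P.1 = Q.1) (y : Sp d) :
    WW β ε (muQ s0 μ P) 1 y = WW β ε (muQ s0 μ Q) 1 (dsp Q P + y) := by
  have hl := FR.lev_pos h Q.1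
  have h1 := (((hSC d hd C' hC' (xC s0 P) (lev s0 P.1) (FR.lev_pos h _)).1 μ hμ).2.2.2.2 J M β
    hβ hJ ε hε hε1 1 y one_pos).2.1
  have h2 := (((hSC d hd C' hC' (xC s0 Q) (lev s0 Q.1) (FR.lev_pos h _)).1 μ hμ).2.2.2.2 J M β
    hβ hJ ε hε hε1 1 (dsp Q P + y) one_pos).2.1
  have h3 := frame_pt h Q P 0 (by simpa using hP) y
  rw [pow_zero, one_smul, ← dsp_eq h Q P hP] at h3
  rw [h3, hP, ← h2] at h1
  unfold muQ
  rw [hP]
  exact mul_left_cancel₀ (pow_ne_zero 2 hl.ne') h1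

lemma SE_shift (hSE : StmtSE) (hd : 2 ≤ d) (hC' : 0 < C') (hμ : Gro C' μ) {s0 : ℝ} (h : 0 < s0)
    {M : ℝ} {β : Sp d → ℝ} (hβ : Kit 2 M β) {ε : ℝ} (hε : 0 < ε) (hε1 : ε ≤ 1) {p0 A : ℝ}
    (hp : 0 < p0) (hA : 0 < A) (Q P : Cell d) (hP : P.1 = Q.1) (y : Sp d) :
    qq A (muQ s0 μ P) 1 y = qq A (muQ s0 μ Q) 1 (dsp Q P + y) ∧
    Ups p0 A (muQ s0 μ P) 1 y = Ups p0 A (muQ s0 μ Q) 1 (dsp Q P + y) ∧
    ∀ n : Sp d, ‖n‖ = 1 → Hn β ε p0 A (muQ s0 μ P) n 1 y =
      Hn β ε p0 A (muQ s0 μ Q) n 1 (dsp Q P + y) := by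
  have h1 := hSE d hd C' hC' (xC s0 P) (lev s0 P.1) (FR.lev_pos h _) μ hμ M β hβ ε hε hε1 p0 A
    hp hA 1 y one_pos
  have h2 := hSE d hd C' hC' (xC s0 Q) (lev s0 Q.1) (FR.lev_pos h _) μ hμ M β hβ ε hε hε1 p0 A
    hp hA 1 (dsp Q P + y) one_pos
  have h3 := frame_pt h Q P 0 (by simpa using hP) y
  rw [pow_zero, one_smul, ← dsp_eq h Q P hP] at h3
  unfold muQ
  refine ⟨?_, ?_, fun n hn => ?_⟩
  · rw [h1.1, h2.1, h3, hP]
  · rw [h1.2.1, h2.2.1, h3, hP]
  · rw [h1.2.2 n hn, h2.2.2 n hn, h3, hP]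

end G

/-! ## Plane integrals -/

/-- translation of a plane integral -/
lemma plInt_shift {n : Sp d} (hn : ‖n‖ = 1) (x : Sp d) (s : ℝ) (F : Sp d → ℝ) :
    plInt n s (fun y => F (x + y)) = plInt n (⟪n, x⟫_ℝ + s) F := by
  have := GSAux.plInt_scale hn x one_pos s F
  simpa using this

/-- a plane integral over a finite partition of unity -/
lemma chi_part {d : ℕ} (L : ℕ) {y : Sp d} (hy : ‖y‖ ≤ L) :
    ∑ p ∈ PTm.box d L, chi (y - lat p) = 1 :=
  PTm.chi_sum L fun j => by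
    have h2 : |y j| ≤ ‖y‖ := by
      rw [← Real.norm_eq_abs]
      exact PiLp.norm_apply_le y j
    exact h2.trans hy

/-- a function with support in the ball L is the sum of its pieces -/
lemma chi_decomp {d : ℕ} (L : ℕ) {F : Sp d → ℝ} (hF : ∀ y, (L : ℝ) ≤ ‖y‖ → F y = 0) (y : Sp d) :
    F y = ∑ p ∈ PTm.box d L, chi (y - lat p) * F y := by
  rw [← Finset.sum_mul]
  by_cases h : ‖y‖ ≤ L
  · rw [chi_part L h, one_mul]
  · rw [hF y (not_le.mp h).le, mul_zero]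

/-- a cut-off is bounded by the pieces which meet the ball -/
lemma zR_le_chi {d : ℕ} (L : ℕ) {r : ℝ} (hr : r + 1 ≤ L) (y : Sp d) :
    zR r y ≤ ∑ p ∈ PTm.box d L, chi (y - lat p) := by
  by_cases h : ‖y‖ ≤ L
  · rw [chi_part L h]
    exact Real.smoothTransition.le_one _
  · have h0 : zR r y = 0 := by
      unfold zR
      exact Real.smoothTransition.zero_of_nonpos (by linarith [not_le.mp h])
    rw [h0]
    exact Finset.sum_nonneg fun p _ => PTm.chi_nonneg _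

end

end WT

end TG


end

section

/-!
# Small facts for the construction of the world, second part  (helper98)

FN5 zp_dir; FN6 near_om
-/

open MeasureTheory Metric Set TrI
open scoped InnerProductSpace ContDiff ENNReal

namespace TG

namespace FN

open FR FR4

noncomputable section

variable {d : ℕ}

lemma le_dsm {r0 : ℕ} {D : Cell d → ℝ} (hD : ∀ Q, 0 ≤ D Q) (Q : Cell d) {r : ℕ} (hr : r < r0) :
    D (up r Q) ≤ dsm r0 D Q :=
  Finset.single_le_sum (f := fun r => D (up r Q)) (fun i _ => hD _) (Finset.mem_range.2 hr)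

lemma dsm_nonneg {r0 : ℕ} {D : Cell d → ℝ} (hD : ∀ Q, 0 ≤ D Q) (Q : Cell d) : 0 ≤ dsm r0 D Q :=
  Finset.sum_nonneg fun i _ => hD _

lemma dsm_mono {r0 r1 : ℕ} (h : r0 ≤ r1) {D : Cell d → ℝ} (hD : ∀ Q, 0 ≤ D Q) (Q : Cell d) :
    dsm r0 D Q ≤ dsm r1 D Q :=
  Finset.sum_le_sum_of_subset_of_nonneg (Finset.range_mono h) fun i _ _ => hD _

lemma dC_nonneg {E : Type} [NormedAddCommGroup E] [InnerProductSpace ℝ E] (b : Sp d → ℝ)
    (ε R : ℝ) {s0 : ℝ} (hs : 0 < s0) (f : Sp d → E) {e : Cell d → E} (he : ∀ Q, ‖e Q‖ = 1)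
    (Q : Cell d) : 0 ≤ dC b ε R s0 f e Q := TU.DD_nonneg b ε R hs f _ _ (he Q)

/-- FN5: Lemma Z and the directions of the neighbours, with the short sum of defects -/
theorem zp_dir (h8 : StmtCT8) (h9 : StmtCT9) (hNS : StmtNS) (hd : 1 ≤ d) {M c0 ε : ℝ}
    (hε : 0 < ε) (hε1 : ε ≤ 1) {b : Sp d → ℝ} (hb : BaseKer 2 M c0 b) {R0 : ℝ} (hR0 : 0 ≤ R0)
    (JA : ℕ) : ∃ C : ℝ, 0 < C ∧ ∀ Rz : ℝ, ∃ Rm : ℝ,
    ∀ (E : Type) [NormedAddCommGroup E] [InnerProductSpace ℝ E] [FiniteDimensional ℝ E]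
      (R : ℝ), Rm ≤ R → ∀ f : Sp d → E, Continuous f → HasCompactSupport f →
    ∀ s0 : ℝ, 0 < s0 → ∀ e : Cell d → E, Dirs b ε R s0 f e → ∀ Q : Cell d,
      ZP Rz (C * dsm (JA + 2) (dC b ε R s0 f e) Q) (mQ s0 f (e Q) Q) ∧
      ∀ Q' ∈ nst s0 (3 * R0) JA Q, ∀ (ζ : Sp d → ℝ) (N : ℝ), TFn 2 N ζ →
        (∀ y, Rz ≤ ‖y‖ → ζ y = 0) →
        |∫ y, (mQ s0 f (e Q') Q y - mQ s0 f (e Q) Q y) * ζ y| ≤
          N * (C * dsm (JA + 2) (dC b ε R s0 f e) Q) := by
  obtain ⟨C8, hC8, g8⟩ := h8 d hd M c0 ε hε hε1 b hb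
  obtain ⟨C81, hC81, g8⟩ := g8 0
  choose C9 hC9 g9 using h9 d hd M c0 ε hε hε1 b hb
  have hS : 0 ≤ ∑ j ∈ Finset.range (JA + 1), C9 j :=
    Finset.sum_nonneg fun j _ => (hC9 j).le
  refine ⟨C8 + 2 * ∑ j ∈ Finset.range (JA + 1), C9 j, by linarith, ?_⟩
  intro Rz
  refine ⟨max (Rz + 3 * R0 * 2 ^ JA + 3) (2 * (3 * R0) + 2 * d + 10 + |Rz| + 4), ?_⟩
  intro E _ _ _ R hR f hf hc s0 h e he Q
  have hR1 : Rz + 3 * R0 * 2 ^ JA + 3 ≤ R := (le_max_left _ _).trans hR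
  have hR2 : 2 * (3 * R0) + 2 * d + 10 + |Rz| + 4 ≤ R := (le_max_right _ _).trans hR
  have hRz := le_abs_self Rz
  have hRz0 := abs_nonneg Rz
  have hd0 : (0 : ℝ) ≤ d := Nat.cast_nonneg d
  set D := dC b ε R s0 f e with hD
  have hD0 : ∀ Q, 0 ≤ D Q := dC_nonneg b ε R h f he.unit
  have hm0 : D Q ≤ dsm (JA + 2) D Q := by
    have := le_dsm hD0 Q (r0 := JA + 2) (r := 0) (by omega)
    rwa [up_zero] at this
  have hmn := dsm_nonneg hD0 Q (r0 := JA + 2)
  constructor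
  · have h1 := ((g8 E R (by linarith) (by norm_num; linarith) f hf hc s0 h e he).1 Q).2
    intro H H1 H2 H3 H4 H5
    have h2 := h1 H H1 H2 H3 H4 (fun y hy => H5 y (by linarith))
    have h3 : C8 * D Q ≤ (C8 + 2 * ∑ j ∈ Finset.range (JA + 1), C9 j) * dsm (JA + 2) D Q := by
      nlinarith only [hC8, hm0, hS, hmn]
    linarith
  · intro Q' hQ' ζ N hζ hs
    obtain ⟨j, hj, hl, hx⟩ := ((hNS d hd s0 (3 * R0) h (by positivity) JA Q).1 Q').1 hQ'
    have h1 := (g9 j E R (3 * R0) (by positivity) (by linarith) f hf hc s0 h e he Q Q' hl hx).2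
      Rz ζ N (by
        have h2 : (2 : ℝ) ^ j ≤ 2 ^ JA := pow_le_pow_right₀ (by norm_num) hj
        have h3 := mul_le_mul_of_nonneg_left h2 (by positivity : 0 ≤ 3 * R0)
        linarith) hζ hs
    refine h1.trans ?_
    have hN := TU.TFn_nonneg hζ
    have h4 := le_dsm hD0 Q (r0 := JA + 2) (r := j + 1) (by omega)
    have h5 : C9 j ≤ ∑ j ∈ Finset.range (JA + 1), C9 j :=
      Finset.single_le_sum (f := C9) (fun i _ => (hC9 i).le) (Finset.mem_range.2 (by omega))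
    have h6 : C9 j * (D Q + D (up (j + 1) Q)) ≤
        (C8 + 2 * ∑ j ∈ Finset.range (JA + 1), C9 j) * dsm (JA + 2) D Q := by
      have h7 := hC9 j
      nlinarith only [hC8, hmn, hm0, h7, h5, h4]
    calc C9 j * N * (D Q + D (up (j + 1) Q)) = N * (C9 j * (D Q + D (up (j + 1) Q))) := by ring
      _ ≤ _ := mul_le_mul_of_nonneg_left h6 hN

/-- oC is monotone in the radius -/
lemma oC_mono {μ : Measure (Sp d)} [IsFiniteMeasure μ] {ρ ρ' s0 : ℝ} (h : 0 < s0) (hρ : ρ ≤ ρ')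
    (Q : Cell d) : oC μ ρ s0 Q ≤ oC μ ρ' s0 Q := by
  have hl := lev_pos h Q.1
  unfold oC
  refine Real.sqrt_le_sqrt (mul_le_mul_of_nonneg_left ?_ ?_)
  · exact ENNReal.toReal_mono (measure_ne_top _ _)
      (measure_mono (ball_subset_ball (mul_le_mul_of_nonneg_right hρ hl.le)))
  · unfold nw
    positivity

lemma oC_nonneg (μ : Measure (Sp d)) (ρ s0 : ℝ) (Q : Cell d) : 0 ≤ oC μ ρ s0 Q :=
  Real.sqrt_nonneg _

/-- FN6: the weights of near cells -/
theorem near_om (h7 : StmtCT7) (hNS : StmtNS) (hd : 2 ≤ d) {C' p0 A R0 : ℝ} (hC' : 0 < C')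
    (hp : 0 < p0) (hp1 : p0 ≤ 1) (hA : 1 ≤ A) (hR0 : 0 ≤ R0) (JA : ℕ) : ∃ C : ℝ, 0 < C ∧
    ∀ μ : Measure (Sp d), Gro C' μ → ∀ s0 : ℝ, 0 < s0 → ∀ ρ : ℝ, A + 2 * d ≤ ρ →
      (∀ Q ∈ NrC p0 A s0 μ, omC μ s0 Q ≤ C * oC μ ρ s0 Q) ∧
      (∀ Q ∈ NrC p0 A s0 μ, ∀ Q' ∈ adj Q, omC μ s0 Q' ≤ C * oC μ ρ s0 Q' ∧
        omC μ s0 Q ≤ C * oC μ ρ s0 Q') ∧
      (∀ Q : Cell d, ∀ Q' ∈ nst s0 (3 * R0) JA Q, Q' ∈ NrC p0 A s0 μ →
        omC μ s0 Q ≤ C * oC μ ρ s0 Q') ∧
      (∀ Q : Cell d, ∀ Q' ∈ nst s0 (3 * R0) JA Q,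
        omC μ s0 Q' ≤ C * omC μ s0 Q ∧ omC μ s0 Q ≤ C * omC μ s0 Q') := by
  have hd1 : 1 ≤ d := by omega
  have hdR : (1 : ℝ) ≤ d := by exact_mod_cast hd1
  have hsd : Real.sqrt d ≤ d := by
    rw [Real.sqrt_le_left (by linarith)]
    nlinarith
  obtain ⟨Ca, hCa, ga⟩ := h7 d hd C' p0 A d hC' hp hp1 hA (by linarith) 0
  choose Cb hCb gb using h7 d hd C' p0 A (3 * R0) hC' hp hp1 hA (by positivity)
  set Sb := ∑ j ∈ Finset.range (JA + 1), Cb j with hSb
  have hSb0 : 0 ≤ Sb := Finset.sum_nonneg fun j _ => (hCb j).le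
  refine ⟨(1 + Ca + Sb) * (1 + Ca), by positivity, ?_⟩
  intro μ hμ s0 h ρ hρ
  haveI := hμ.fin
  have hpos : ∀ Q : Cell d, 0 < omC μ s0 Q := fun Q => ((ga μ hμ s0 h).1 Q).1
  have h1 : Ca ≤ (1 + Ca + Sb) * (1 + Ca) := by nlinarith only [hCa, hSb0]
  have hadj : ∀ Q : Cell d, ∀ Q' ∈ adj Q, Q'.1 = Q.1 ∧
      ‖xC s0 Q' - xC s0 Q‖ ≤ d * lev s0 Q'.1 := by
    intro Q Q' hQ'
    have h2 : Q'.1 = Q.1 := by
      unfold adj at hQ'
      exact Finset.mem_singleton.1 (Finset.mem_product.1 hQ').1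
    refine ⟨h2, ?_⟩
    have h3 := (hNS d hd1 s0 0 h le_rfl 0 Q).2.2.2.2.2.1 Q' hQ'
    rw [norm_tw h, div_le_iff₀ (lev_pos h _)] at h3
    rw [h2]
    exact h3.trans (mul_le_mul_of_nonneg_right hsd (lev_pos h _).le)
  have hnear : ∀ Q ∈ NrC p0 A s0 μ, ∃ y : Sp d, ‖y‖ ≤ d ∧ p0 / 2 ≤ qq A (muQ s0 μ Q) 1 y := by
    rintro Q ⟨y, hy, hq⟩
    refine ⟨y, ?_, hq⟩
    by_contra hne
    exact hy (PTm.chi_supp (not_le.1 hne).le hd1)
  have hA1 : ∀ Q ∈ NrC p0 A s0 μ, omC μ s0 Q ≤ Ca * oC μ ρ s0 Q := by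
    intro Q hQ
    obtain ⟨y, hy, hq⟩ := hnear Q hQ
    have h3 := ((ga μ hμ s0 h).2.2.2 Q Q rfl (by
      rw [sub_self, norm_zero]
      exact mul_nonneg (by linarith) (lev_pos h _).le) y hy hq).1
    exact h3.trans (mul_le_mul_of_nonneg_left (oC_mono h (by linarith) Q) hCa.le)
  have hA2 : ∀ Q ∈ NrC p0 A s0 μ, ∀ Q' ∈ adj Q, omC μ s0 Q' ≤ Ca * oC μ ρ s0 Q' := by
    intro Q hQ Q' hQ'
    obtain ⟨y, hy, hq⟩ := hnear Q hQ
    obtain ⟨h4, h5⟩ := hadj Q Q' hQ'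
    have h3 := ((ga μ hμ s0 h).2.2.2 Q Q' h4 h5 y hy hq).2
    exact h3.trans (mul_le_mul_of_nonneg_left (oC_mono h (by linarith) Q') hCa.le)
  have hns : ∀ Q : Cell d, ∀ Q' ∈ nst s0 (3 * R0) JA Q,
      omC μ s0 Q' ≤ Sb * omC μ s0 Q ∧ omC μ s0 Q ≤ Sb * omC μ s0 Q' := by
    intro Q Q' hQ'
    obtain ⟨j, hj, hl, hx⟩ := ((hNS d hd1 s0 (3 * R0) h (by positivity) JA Q).1 Q').1 hQ'
    have h3 := (gb j μ hμ s0 h).2.2.1 Q Q' hl hx
    have h5 : Cb j ≤ Sb :=
      Finset.single_le_sum (f := Cb) (fun i _ => (hCb i).le) (Finset.mem_range.2 (by omega))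
    exact ⟨h3.1.trans (mul_le_mul_of_nonneg_right h5 (hpos Q).le),
      h3.2.trans (mul_le_mul_of_nonneg_right h5 (hpos Q').le)⟩
  have h0 : ∀ Q, 0 ≤ oC μ ρ s0 Q := oC_nonneg μ ρ s0
  have hSC : Sb ≤ (1 + Ca + Sb) * (1 + Ca) := by nlinarith [mul_nonneg hSb0 hCa.le]
  refine ⟨fun Q hQ => (hA1 Q hQ).trans (mul_le_mul_of_nonneg_right h1 (h0 Q)), ?_, ?_, ?_⟩
  · intro Q hQ Q' hQ'
    refine ⟨(hA2 Q hQ Q' hQ').trans (mul_le_mul_of_nonneg_right h1 (h0 Q')), ?_⟩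
    obtain ⟨h4, h5⟩ := hadj Q Q' hQ'
    have h6 := ((ga μ hμ s0 h).2.2.1 Q Q' (by rw [h4, add_zero]) h5).2
    have h7 := hA2 Q hQ Q' hQ'
    have h8 := mul_le_mul_of_nonneg_left h7 hCa.le
    refine h6.trans (h8.trans ?_)
    rw [← mul_assoc]
    refine mul_le_mul_of_nonneg_right ?_ (h0 Q')
    linarith only [hCa, hSb0, mul_nonneg hSb0 hCa.le]
  · intro Q Q' hQ' hN
    have h6 := (hns Q Q' hQ').2
    have h7 := mul_le_mul_of_nonneg_left (hA1 Q' hN) hSb0
    refine h6.trans (h7.trans ?_)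
    rw [← mul_assoc]
    refine mul_le_mul_of_nonneg_right ?_ (h0 Q')
    nlinarith only [hCa, hSb0]
  · intro Q Q' hQ'
    exact ⟨(hns Q Q' hQ').1.trans (mul_le_mul_of_nonneg_right hSC (hpos Q).le),
      (hns Q Q' hQ').2.trans (mul_le_mul_of_nonneg_right hSC (hpos Q').le)⟩

end

end FN

end TG


end

section

/-!
# Module LW, part a: monotonicity in the constants, change of RN   (helper46)
-/

open MeasureTheory Metric Set TrI
open scoped InnerProductSpace ContDiff ENNReal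

namespace TG

namespace LW

noncomputable section

variable {d : ℕ}

lemma TFn0 {J : ℕ} {N : ℝ} {ζ : Sp d → ℝ} (h : TFn J N ζ) : 0 ≤ N := TU.TFn_nonneg h

lemma str_mono {J rm : ℕ} {R1 Rs Rs' e' e'' a : ℝ} {m : Sp d → ℝ} {r : ℕ} {ν : Fin r → Sp d}
    {κ : Fin r → Sp d → ℝ} (h : Str J rm R1 Rs e' a m r ν κ) (hR : Rs' ≤ Rs) (he : e' ≤ e'')
    (ha : 0 ≤ a) : Str J rm R1 Rs' e'' a m r ν κ where
  rle := h.rle
  n1 := h.n1
  k0 := h.k0
  kb := h.kb
  ks := fun i y hy => (h.ks i y hy).trans (by linarith)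
  kt := h.kt
  est := by
    intro ζ N hζ hs
    refine (h.est ζ N hζ fun y hy => hs y (hR.trans hy)).trans ?_
    have hN := TFn0 hζ
    exact mul_le_mul_of_nonneg_right (mul_le_mul_of_nonneg_right he ha) hN

lemma mg_mono {K K' γ R R' a D D' : ℝ} {m : Sp d → ℝ} (h : MG K γ R a D m) (hK : K ≤ K')
    (hR : R' ≤ R) (ha : 0 ≤ a) (hD : D ≤ D') : MG K' γ R' a D' m := by
  intro ρ h1 h2 ζ h3 h4 h5 h6
  refine (h ρ h1 (h2.trans hR) ζ h3 h4 h5 h6).trans ?_
  have h7 : 0 ≤ ρ ^ ((d : ℝ) - 1 + γ) := Real.rpow_nonneg (by linarith) _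
  have h8 : K * ρ ^ ((d : ℝ) - 1 + γ) * a ≤ K' * ρ ^ ((d : ℝ) - 1 + γ) * a :=
    mul_le_mul_of_nonneg_right (mul_le_mul_of_nonneg_right hK h7) ha
  linarith

lemma zp_mono {R R' D D' : ℝ} {m : Sp d → ℝ} (h : ZP R D m) (hR : R' ≤ R) (hD : D ≤ D') :
    ZP R' D' m := by
  intro H h1 h2 h3 h4 h5
  have := h H h1 h2 h3 h4 fun y hy => h5 y (hR.trans hy)
  linarith

variable {E : Type} [NormedAddCommGroup E] [InnerProductSpace ℝ E]

lemma wok_mono {JA : ℕ} {C' R0 Rz Rz' : ℝ} {X : Prm d} {W : Wld d E}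
    (h : WOK JA C' R0 Rz X W) (hR : Rz' ≤ Rz) : WOK JA C' R0 Rz' X W where
  X_eq := h.X_eq
  s0_pos := h.s0_pos
  gro := h.gro
  fc := h.fc
  fs := h.fs
  eu := h.eu
  nu := h.nu
  ab0 := h.ab0
  D0 := h.D0
  zp := fun Q => zp_mono (h.zp Q) hR le_rfl
  dir := fun Q Q' hQ' ζ N h1 h2 => h.dir Q Q' hQ' ζ N h1 fun y hy => h2 y (hR.trans hy)

lemma wsh_mono {J : ℕ} {R0 κ κ' : ℝ} {W : Wld d E} {Q : Cell d} (h : WSh J R0 κ W Q)
    (hκ : κ ≤ κ') : WSh J R0 κ' W Q where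
  sh := h.sh
  bl := h.bl
  loc := h.loc
  dl0 := h.dl0
  small := h.small.trans (mul_le_mul_of_nonneg_right hκ h.sh.ab0.le)
  smalld := h.smalld.trans (mul_le_mul_of_nonneg_right hκ h.sh.ab0.le)

lemma wnw_mono {K γ R1 Rs Rs' RM RM' : ℝ} {rm : ℕ} {tol tol' : ℕ → ℝ} {W : Wld d E} {Q : Cell d}
    (h : WNw K γ R1 Rs RM rm tol W Q) (hR : Rs' ≤ Rs) (hM : RM' ≤ RM)
    (ht : ∀ J, tol J ≤ tol' J) : WNw K γ R1 Rs' RM' rm tol' W Q where
  a0 := h.a0
  str := by
    obtain ⟨J, r, ν, κ, hs⟩ := h.str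
    exact ⟨J, r, ν, κ, str_mono hs hR (ht J) h.a0⟩
  mg := mg_mono h.mg le_rfl hM h.a0 le_rfl

/-- change of the radius of the Newton field -/
def cRN (W : Wld d E) (RN : ℝ) : Wld d E := { W with X := { W.X with RN := RN } }

lemma cRN_gam (W : Wld d E) (RN : ℝ) {Q : Cell d} (h : W.kd Q = 0) :
    (cRN W RN).gam Q = W.gam Q := by
  unfold Wld.gam Gam cRN
  simp [h]

lemma cRN_val (W : Wld d E) (RN : ℝ) {Q : Cell d} (h : W.kd Q = 0) :
    (cRN W RN).val Q = W.val Q := by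
  have h1 := cRN_gam W RN h
  unfold Wld.val
  rw [h1]
  rfl

lemma cRN_flx (W : Wld d E) (RN : ℝ) {k : ℕ} (h : k = 0) (χ χ' β : Sp d → ℝ)
    (μ : Measure (Sp d)) (m : Sp d → ℝ) (n : Sp d) :
    flx (cRN W RN).X k χ χ' β μ m n = flx W.X k χ χ' β μ m n := by
  unfold flx cRN
  simp [h]

lemma cRN_nt1 (W : Wld d E) (RN : ℝ) {Q : Cell d} (h : W.kd Q = 0)
    (h' : ∀ Q' ∈ adj Q, W.kd Q' = 0) : (cRN W RN).nt1 Q = W.nt1 Q := by
  have h1 := cRN_gam W RN h
  unfold Wld.gam at h1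
  unfold Wld.nt1 net
  have h2 : Vct (cRN W RN).X (cRN W RN).s0 (cRN W RN).μ (cRN W RN).f (cRN W RN).e
      (cRN W RN).kd (cRN W RN).nv Q = Vct W.X W.s0 W.μ W.f W.e W.kd W.nv Q := by
    unfold Vct cRN
    rfl
  rw [h1, h2]
  have h3 : ∑ Q' ∈ adj Q, Fct (cRN W RN).X (cRN W RN).s0 (cRN W RN).μ (cRN W RN).f
      (cRN W RN).e (cRN W RN).kd (cRN W RN).nv Q Q' =
      ∑ Q' ∈ adj Q, Fct W.X W.s0 W.μ W.f W.e W.kd W.nv Q Q' := by
    refine Finset.sum_congr rfl fun Q' hQ' => ?_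
    unfold Fct
    have h4 := cRN_flx W RN h
    have h5 := cRN_flx W RN (h' Q' hQ')
    rw [show (cRN W RN).kd = W.kd from rfl, h4, h5]
    rfl
  rw [h3]
  rfl

lemma cRN_sV (W : Wld d E) (RN R0 : ℝ) (JA : ℕ) {Q : Cell d}
    (h : ∀ Q' ∈ W.ns R0 JA Q, W.kd Q' = 0) : (cRN W RN).sV R0 JA Q = W.sV R0 JA Q := by
  unfold Wld.sV
  refine Finset.sum_congr rfl fun Q' hQ' => ?_
  rw [cRN_val W RN (h Q' hQ')]
  rfl

lemma cRN_wok {JA : ℕ} {C' R0 Rz RN : ℝ} {X : Prm d} {W : Wld d E}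
    (h : WOK JA C' R0 Rz { X with RN := RN } W) : WOK JA C' R0 Rz X (cRN W X.RN) where
  X_eq := by
    unfold cRN
    rw [h.X_eq]
  s0_pos := h.s0_pos
  gro := h.gro
  fc := h.fc
  fs := h.fs
  eu := h.eu
  nu := h.nu
  ab0 := h.ab0
  D0 := h.D0
  zp := h.zp
  dir := h.dir

lemma cRN_ash {J JA : ℕ} {R0 κ Kc : ℝ} {W : Wld d E} {Q : Cell d}
    (h : Ash J JA R0 κ Kc W Q) (RN : ℝ) : Ash J JA R0 κ Kc (cRN W RN) Q := by
  refine ⟨h.1, ⟨h.2.1.sh, h.2.1.bl, h.2.1.loc, h.2.1.dl0, h.2.1.small, h.2.1.smalld⟩, ?_⟩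
  intro Q' hQ'
  obtain ⟨h1, h2, h3⟩ := h.2.2 Q' hQ'
  exact ⟨h1, ⟨h2.sh, h2.bl, h2.loc, h2.dl0, h2.small, h2.smalld⟩, h3⟩

end

end LW

end TG


end

section

/-!
# Module NS: neighbourhoods of cells, partition of unity (helper75)
-/

open MeasureTheory Metric Set TrI
open scoped InnerProductSpace ContDiff ENNReal

namespace TG

namespace NS

noncomputable section

open PTm

variable {d : ℕ}

lemma lev_pos {s0 : ℝ} (hs : 0 < s0) (i : ℕ) : 0 < lev s0 i := by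
  unfold lev
  positivity

lemma lev_add (s0 : ℝ) (k i : ℕ) : lev s0 (k + i) = 2 ^ i * lev s0 k := by
  unfold lev
  rw [pow_add]
  ring

/-- the position of Q' in units of Q', seen from the centre of Q -/
def V (i : ℕ) (Q : Cell d) (p : Fin d → ℤ) : Sp d := lat p - (1 / 2 : ℝ) ^ i • lat Q.2

lemma two_half (i : ℕ) : (2 : ℝ) ^ i * (1 / 2 : ℝ) ^ i = 1 := by
  rw [← mul_pow]; norm_num

lemma half_two (i : ℕ) : (1 / 2 : ℝ) ^ i * (2 : ℝ) ^ i = 1 := by
  rw [← mul_pow]; norm_num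

lemma xC_sub {s0 : ℝ} {i : ℕ} {Q Q' : Cell d} (h : Q'.1 = Q.1 + i) :
    xC s0 Q' - xC s0 Q = lev s0 Q'.1 • V i Q Q'.2 := by
  unfold xC cen V
  rw [h, lev_add, smul_sub, smul_smul]
  congr 2
  linear_combination (-lev s0 Q.1) * two_half i

lemma norm_xC {s0 : ℝ} (hs : 0 < s0) {i : ℕ} {Q Q' : Cell d} (h : Q'.1 = Q.1 + i) :
    ‖xC s0 Q' - xC s0 Q‖ = lev s0 Q'.1 * ‖V i Q Q'.2‖ := by
  rw [xC_sub h, norm_smul, Real.norm_of_nonneg (lev_pos hs _).le]

lemma near_iff {s0 : ℝ} (hs : 0 < s0) (r : ℝ) {i : ℕ} {Q Q' : Cell d} (h : Q'.1 = Q.1 + i) :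
    ‖xC s0 Q' - xC s0 Q‖ ≤ r * lev s0 Q'.1 ↔ ‖V i Q Q'.2‖ ≤ r := by
  rw [norm_xC hs h, mul_comm r]
  exact mul_le_mul_iff_of_pos_left (lev_pos hs _)

lemma tw_eq {s0 : ℝ} (hs : 0 < s0) {i : ℕ} {Q Q' : Cell d} (h : Q'.1 = Q.1 + i) :
    tw s0 Q Q' = (2 : ℝ) ^ i • V i Q Q'.2 := by
  unfold tw
  rw [xC_sub h, h, lev_add, smul_smul]
  congr 1
  have := (lev_pos hs Q.1).ne'
  field_simp

lemma coord_le (x : Sp d) (j : Fin d) : |x j| ≤ ‖x‖ := by
  rw [← Real.norm_eq_abs]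
  exact PiLp.norm_apply_le x j

lemma V_apply (i : ℕ) (Q : Cell d) (p : Fin d → ℤ) (j : Fin d) :
    V i Q p j = (p j : ℝ) - (1 / 2 : ℝ) ^ i * (Q.2 j : ℝ) := rfl

/-- the box condition follows from the distance condition -/
lemma in_box {r : ℝ} {i : ℕ} {Q : Cell d} {p : Fin d → ℤ} (h : ‖V i Q p‖ ≤ r) (j : Fin d) :
    Q.2 j / 2 ^ i - (⌈r⌉ + 1) ≤ p j ∧ p j ≤ Q.2 j / 2 ^ i + (⌈r⌉ + 1) := by
  have h1 := (coord_le (V i Q p) j).trans h
  rw [V_apply] at h1
  obtain ⟨h2, h3⟩ := abs_le.mp h1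
  have hc : r ≤ (⌈r⌉ : ℝ) := Int.le_ceil r
  have hd1 : Q.2 j / 2 ^ i * 2 ^ i ≤ Q.2 j := Int.ediv_mul_le _ (by positivity)
  have hd2 : Q.2 j < (Q.2 j / 2 ^ i + 1) * 2 ^ i := Int.lt_ediv_add_one_mul_self _ (by positivity)
  have hp : (0 : ℝ) < (1 / 2 : ℝ) ^ i := by positivity
  have e1 : ((Q.2 j / 2 ^ i : ℤ) : ℝ) ≤ (1 / 2 : ℝ) ^ i * (Q.2 j : ℝ) := by
    have h4 : ((Q.2 j / 2 ^ i : ℤ) : ℝ) * 2 ^ i ≤ (Q.2 j : ℝ) := by exact_mod_cast hd1
    have h5 := mul_le_mul_of_nonneg_left h4 hp.le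
    have h6 : (1 / 2 : ℝ) ^ i * (((Q.2 j / 2 ^ i : ℤ) : ℝ) * 2 ^ i) = ((Q.2 j / 2 ^ i : ℤ) : ℝ) := by
      linear_combination ((Q.2 j / 2 ^ i : ℤ) : ℝ) * half_two i
    rwa [h6] at h5
  have e2 : (1 / 2 : ℝ) ^ i * (Q.2 j : ℝ) < ((Q.2 j / 2 ^ i : ℤ) : ℝ) + 1 := by
    have h4 : (Q.2 j : ℝ) < (((Q.2 j / 2 ^ i : ℤ) : ℝ) + 1) * 2 ^ i := by exact_mod_cast hd2
    have h5 := mul_lt_mul_of_pos_left h4 hp
    have h6 : (1 / 2 : ℝ) ^ i * ((((Q.2 j / 2 ^ i : ℤ) : ℝ) + 1) * 2 ^ i) =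
        ((Q.2 j / 2 ^ i : ℤ) : ℝ) + 1 := by
      linear_combination (((Q.2 j / 2 ^ i : ℤ) : ℝ) + 1) * half_two i
    rwa [h6] at h5
  constructor
  · have h4 : ((Q.2 j / 2 ^ i : ℤ) : ℝ) - ((⌈r⌉ : ℝ) + 1) ≤ (p j : ℝ) := by linarith
    exact_mod_cast h4
  · have h4 : (p j : ℝ) ≤ ((Q.2 j / 2 ^ i : ℤ) : ℝ) + ((⌈r⌉ : ℝ) + 1) := by linarith
    exact_mod_cast h4

lemma mem_nst {s0 : ℝ} (hs : 0 < s0) (r : ℝ) (JA : ℕ) (Q Q' : Cell d) :
    Q' ∈ nst s0 r JA Q ↔ ∃ i ≤ JA, Q'.1 = Q.1 + i ∧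
      ‖xC s0 Q' - xC s0 Q‖ ≤ r * lev s0 Q'.1 := by
  unfold nst
  rw [Finset.mem_filter, Finset.mem_biUnion]
  constructor
  · rintro ⟨⟨i, hi, hm⟩, hn⟩
    rw [Finset.mem_range] at hi
    rw [Finset.mem_product, Finset.mem_singleton] at hm
    exact ⟨i, by omega, hm.1, hn⟩
  · rintro ⟨i, hi, h1, h2⟩
    refine ⟨⟨i, Finset.mem_range.mpr (by omega), ?_⟩, h2⟩
    rw [Finset.mem_product, Finset.mem_singleton, Fintype.mem_piFinset]
    refine ⟨h1, fun j => ?_⟩
    have h3 := (near_iff hs r h1).mp h2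
    exact Finset.mem_Icc.mpr (in_box h3 j)

lemma mem_nst' {s0 : ℝ} (hs : 0 < s0) (r : ℝ) {JA i : ℕ} (hi : i ≤ JA) (Q : Cell d)
    (p : Fin d → ℤ) : ((Q.1 + i, p) : Cell d) ∈ nst s0 r JA Q ↔ ‖V i Q p‖ ≤ r := by
  rw [mem_nst hs]
  constructor
  · rintro ⟨k, hk, h1, h2⟩
    have hk' : k = i := by
      have : Q.1 + i = Q.1 + k := h1
      omega
    subst hk'
    exact (near_iff (Q' := (Q.1 + k, p)) hs r h1).mp h2
  · intro h
    exact ⟨i, hi, rfl, (near_iff (Q' := (Q.1 + i, p)) hs r rfl).mpr h⟩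

/-- sum over the cells of one level as a sum over lattice points -/
lemma sum_level {s0 : ℝ} (hs : 0 < s0) (r : ℝ) {JA i : ℕ} (hi : i ≤ JA) (Q : Cell d)
    (g : (Fin d → ℤ) → ℝ) :
    ∃ S : Finset (Fin d → ℤ), (∀ p, p ∈ S ↔ ‖V i Q p‖ ≤ r) ∧
      ∑ Q' ∈ (nst s0 r JA Q).filter (fun Q' => Q'.1 = Q.1 + i), g Q'.2 = ∑ p ∈ S, g p := by
  classical
  refine ⟨((nst s0 r JA Q).filter (fun Q' => Q'.1 = Q.1 + i)).image Prod.snd, ?_, ?_⟩
  · intro p
    rw [Finset.mem_image]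
    constructor
    · rintro ⟨Q', h1, rfl⟩
      rw [Finset.mem_filter] at h1
      have e : Q' = (Q.1 + i, Q'.2) := Prod.ext h1.2 rfl
      have h2 := h1.1
      rw [e] at h2
      exact (mem_nst' hs r hi Q _).mp h2
    · intro h
      exact ⟨(Q.1 + i, p), Finset.mem_filter.mpr ⟨(mem_nst' hs r hi Q p).mpr h, rfl⟩, rfl⟩
  · rw [Finset.sum_image]
    intro Q1 h1 Q2 h2 h
    have e1 := (Finset.mem_filter.mp h1).2
    have e2 := (Finset.mem_filter.mp h2).2
    exact Prod.ext (e1.trans e2.symm) h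

lemma arg_eq {s0 : ℝ} (hs : 0 < s0) {i : ℕ} {Q Q' : Cell d} (h : Q'.1 = Q.1 + i) (y : Sp d) :
    ((1 / 2 : ℝ) ^ i) • (y - tw s0 Q Q') =
      ((1 / 2 : ℝ) ^ i • (y + lat Q.2)) - lat Q'.2 := by
  rw [tw_eq hs h, smul_sub, smul_smul, half_two, one_smul, smul_add]
  unfold V
  abel

/-- large boxes -/
lemma big (r : ℝ) (i : ℕ) (Q : Cell d) (z : Sp d) :
    ∃ L : ℕ, (∀ j, |z j| ≤ L) ∧ ∀ p, ‖V i Q p‖ ≤ r → p ∈ PTm.box d L := by
  obtain ⟨L, hL⟩ := exists_nat_ge (‖z‖ + |r| + ‖(1 / 2 : ℝ) ^ i • lat Q.2‖)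
  have h0 := norm_nonneg z
  have h1 := abs_nonneg r
  have h2 := norm_nonneg ((1 / 2 : ℝ) ^ i • lat Q.2)
  refine ⟨L, fun j => (coord_le z j).trans (by linarith), fun p hp => ?_⟩
  have h3 : ‖lat p‖ ≤ ‖V i Q p‖ + ‖(1 / 2 : ℝ) ^ i • lat Q.2‖ := by
    have := norm_add_le (V i Q p) ((1 / 2 : ℝ) ^ i • lat Q.2)
    unfold V at this ⊢
    rwa [sub_add_cancel] at this
  have h4 : ‖lat p‖ ≤ L := by
    have := le_abs_self r
    linarith
  unfold PTm.box
  rw [Fintype.mem_piFinset]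
  intro j
  have h5 := (coord_le (lat p) j).trans h4
  rw [lat_apply] at h5
  obtain ⟨h6, h7⟩ := abs_le.mp h5
  have h8 : ((-(L : ℤ) : ℤ) : ℝ) ≤ ((p j : ℤ) : ℝ) := by push_cast; exact h6
  have h9 : ((p j : ℤ) : ℝ) ≤ (((L : ℕ) : ℤ) : ℝ) := by push_cast; exact h7
  rw [Finset.mem_Icc]
  exact ⟨Int.cast_le.mp h8, Int.cast_le.mp h9⟩

end

end NS

open _root_.TG.NS PTm in
/-- MODULE NS -/
theorem stmtNS : StmtNS := by
  intro d hd s0 r hs hr JA Q
  have hsqrt : Real.sqrt d ≤ d := by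
    rw [Real.sqrt_le_left (by positivity)]
    have : (1 : ℝ) ≤ d := by exact_mod_cast hd
    nlinarith
  -- same level
  have hV0 : ∀ p : Fin d → ℤ, V 0 Q p = lat (fun j => p j - Q.2 j) := by
    intro p
    ext j
    rw [V_apply, lat_apply]
    push_cast
    ring
  have htw0 : ∀ Q' : Cell d, Q'.1 = Q.1 → tw s0 Q Q' = dsp Q Q' := by
    intro Q' h
    rw [tw_eq hs (i := 0) (by omega), pow_zero, one_smul, hV0]
    rfl
  have hadj : ∀ Q' ∈ adj Q, Q'.1 = Q.1 ∧ ‖V 0 Q Q'.2‖ ≤ Real.sqrt d := by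
    intro Q' hQ'
    unfold adj at hQ'
    rw [Finset.mem_product, Finset.mem_singleton, Fintype.mem_piFinset] at hQ'
    refine ⟨hQ'.1, ?_⟩
    rw [EuclideanSpace.norm_eq]
    refine Real.sqrt_le_sqrt ?_
    have h1 : ∀ j : Fin d, ‖V 0 Q Q'.2 j‖ ^ 2 ≤ 1 := by
      intro j
      have h2 := Finset.mem_Icc.mp (hQ'.2 j)
      rw [hV0, lat_apply, Real.norm_eq_abs, sq_abs]
      have h3 : (Q'.2 j - Q.2 j) = -1 ∨ (Q'.2 j - Q.2 j) = 0 ∨ (Q'.2 j - Q.2 j) = 1 := by omega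
      rcases h3 with h3 | h3 | h3
      · rw [h3]; norm_num
      · rw [h3]; norm_num
      · rw [h3]; norm_num
    calc ∑ j, ‖V 0 Q Q'.2 j‖ ^ 2 ≤ ∑ _j : Fin d, (1 : ℝ) := Finset.sum_le_sum fun j _ => h1 j
      _ = d := by simp
  refine ⟨fun Q' => mem_nst hs r JA Q Q', ?_, ?_, ?_, htw0, ?_, ?_, ?_⟩
  · intro i hi Q' h
    refine ⟨?_, ?_, ?_⟩
    · unfold cw
      rw [h, lev_add, mul_pow, pow_mul]
    · rw [h, lev_add]
    · rw [tw_eq hs h, norm_smul, Real.norm_of_nonneg (by positivity)]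
      have e : Q' = (Q.1 + i, Q'.2) := Prod.ext h rfl
      rw [e, mem_nst' hs r hi]
      rw [mul_comm r]
      exact (mul_le_mul_iff_of_pos_left (by positivity)).symm
  · intro i hi y hy
    set z : Sp d := (1 / 2 : ℝ) ^ i • (y + lat Q.2) with hz
    obtain ⟨S, hS, hsum⟩ := sum_level hs r hi Q (fun p => chi (z - lat p))
    obtain ⟨L, hL1, hL2⟩ := big r i Q z
    have e1 : ∑ Q' ∈ (nst s0 r JA Q).filter (fun Q' => Q'.1 = Q.1 + i),
        chi (((1 / 2 : ℝ) ^ i) • (y - tw s0 Q Q')) =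
        ∑ Q' ∈ (nst s0 r JA Q).filter (fun Q' => Q'.1 = Q.1 + i), chi (z - lat Q'.2) := by
      refine Finset.sum_congr rfl fun Q' hQ' => ?_
      rw [arg_eq hs (Finset.mem_filter.mp hQ').2]
    rw [e1, hsum, ← chi_sum L hL1]
    refine Finset.sum_subset (fun p hp => hL2 p ((hS p).mp hp)) fun p _ hp => ?_
    rw [hS, not_le] at hp
    refine chi_supp ?_ hd
    have e2 : z - lat p = (1 / 2 : ℝ) ^ i • y - V i Q p := by
      rw [hz, smul_add]
      unfold V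
      abel
    rw [e2]
    have h1 : ‖(1 / 2 : ℝ) ^ i • y‖ ≤ r - d := by
      rw [norm_smul, Real.norm_of_nonneg (by positivity)]
      calc (1 / 2 : ℝ) ^ i * ‖y‖ ≤ (1 / 2 : ℝ) ^ i * ((r - d) * 2 ^ i) :=
            mul_le_mul_of_nonneg_left hy (by positivity)
        _ = r - d := by linear_combination (r - d) * half_two i
    have h2 : ‖V i Q p‖ ≤ ‖(1 / 2 : ℝ) ^ i • y - V i Q p‖ + ‖(1 / 2 : ℝ) ^ i • y‖ := by
      have := norm_sub_le ((1 / 2 : ℝ) ^ i • y) ((1 / 2 : ℝ) ^ i • y - V i Q p)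
      rw [sub_sub_cancel] at this
      linarith
    linarith
  · intro i hi y
    set z : Sp d := (1 / 2 : ℝ) ^ i • (y + lat Q.2) with hz
    obtain ⟨S, hS, hsum⟩ := sum_level hs r hi Q (fun p => chi (z - lat p))
    obtain ⟨L, hL1, hL2⟩ := big r i Q z
    have e1 : ∑ Q' ∈ (nst s0 r JA Q).filter (fun Q' => Q'.1 = Q.1 + i),
        chi (((1 / 2 : ℝ) ^ i) • (y - tw s0 Q Q')) =
        ∑ Q' ∈ (nst s0 r JA Q).filter (fun Q' => Q'.1 = Q.1 + i), chi (z - lat Q'.2) := by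
      refine Finset.sum_congr rfl fun Q' hQ' => ?_
      rw [arg_eq hs (Finset.mem_filter.mp hQ').2]
    rw [e1, hsum, ← chi_sum L hL1]
    exact Finset.sum_le_sum_of_subset_of_nonneg (fun p hp => hL2 p ((hS p).mp hp))
      fun p _ _ => chi_nonneg _
  · intro Q' hQ'
    obtain ⟨h1, h2⟩ := hadj Q' hQ'
    rw [tw_eq hs (i := 0) (by omega), pow_zero, one_smul]
    exact h2
  · rintro Q' h ⟨y, hy1, hy2⟩
    rw [htw0 Q' h] at hy2
    unfold adj
    rw [Finset.mem_product, Finset.mem_singleton, Fintype.mem_piFinset]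
    refine ⟨h, fun j => ?_⟩
    have h1 : |y j| < 1 := by
      by_contra hcon
      exact hy1 (chi_zero (not_lt.mp hcon))
    have h2 : |(y - dsp Q Q') j| < 1 := by
      by_contra hcon
      exact hy2 (chi_zero (not_lt.mp hcon))
    have e : (y - dsp Q Q') j = y j - ((Q'.2 j - Q.2 j : ℤ) : ℝ) := rfl
    rw [e] at h2
    obtain ⟨h3, h4⟩ := abs_lt.mp h1
    obtain ⟨h5, h6⟩ := abs_lt.mp h2
    have h7 : ((Q'.2 j - Q.2 j : ℤ) : ℝ) < (2 : ℤ) := by push_cast at *; linarith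
    have h8 : ((-2 : ℤ) : ℝ) < ((Q'.2 j - Q.2 j : ℤ) : ℝ) := by push_cast at *; linarith
    have h9 : Q'.2 j - Q.2 j < 2 := by exact_mod_cast h7
    have h10 : -2 < Q'.2 j - Q.2 j := by exact_mod_cast h8
    rw [Finset.mem_Icc]
    omega
  · intro hrd Q' hQ'
    obtain ⟨h1, h2⟩ := hadj Q' hQ'
    rw [mem_nst hs]
    refine ⟨0, Nat.zero_le _, by omega, ?_⟩
    exact (near_iff hs r (i := 0) (by omega)).mpr (h2.trans hrd)

end TG


end

section

/-!
# Module VK: kernels with vanishing moments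
-/

open MeasureTheory Metric Set
open scoped InnerProductSpace ContDiff

namespace TrI

noncomputable section

namespace VK

variable {d : ℕ}

/-- the rescaled kernel -/
def rb (d : ℕ) (t : ℝ) (y : Sp d) : ℝ := (t⁻¹) ^ d * bk d (t⁻¹ • y)

theorem rb_smooth (t : ℝ) : ContDiff ℝ ∞ (rb d t) := by
  unfold rb
  exact contDiff_const.mul (bk_contDiff.comp (contDiff_const_smul (t⁻¹)))

theorem rb_zero {t : ℝ} (h0 : 0 < t) (h1 : t ≤ 1) {y : Sp d} (hy : 1 ≤ ‖y‖) : rb d t y = 0 := by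
  unfold rb
  rw [bk_zero, mul_zero]
  rw [norm_smul, Real.norm_eq_abs, abs_of_pos (inv_pos.mpr h0)]
  have : 1 ≤ t⁻¹ := (one_le_inv₀ h0).mpr h1
  nlinarith

theorem rb_integrable {t : ℝ} (h0 : 0 < t) (h1 : t ≤ 1) (g : Sp d → ℝ) (hg : Continuous g) :
    Integrable fun y => rb d t y * g y := by
  apply Continuous.integrable_of_hasCompactSupport
  · exact (rb_smooth t).continuous.mul hg
  · refine HasCompactSupport.intro (isCompact_closedBall (0 : Sp d) 1) fun y hy => ?_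
    rw [mem_closedBall, dist_zero_right, not_le] at hy
    rw [rb_zero h0 h1 hy.le, zero_mul]

/-- homogeneous moments scale -/
theorem rb_moment {t : ℝ} (h0 : 0 < t) (m : ℕ) (g : Sp d → ℝ)
    (hg : ∀ (c : ℝ) y, g (c • y) = c ^ m * g y) :
    ∫ y, rb d t y * g y = t ^ m * ∫ y, bk d y * g y := by
  have h1 : ∀ y : Sp d, rb d t y * g y =
      (t⁻¹) ^ d * t ^ m * (fun z => bk d z * g z) (t⁻¹ • y) := by
    intro y
    unfold rb
    simp only
    rw [hg, inv_pow, inv_pow]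
    field_simp
  have h2 := Measure.integral_comp_smul (μ := (volume : Measure (Sp d)))
    (fun z => bk d z * g z) t⁻¹
  rw [integral_congr_ae (Filter.Eventually.of_forall h1), integral_const_mul, h2,
    finrank_euclideanSpace, Fintype.card_fin, smul_eq_mul, abs_of_pos (by positivity), inv_pow,
    inv_inv]
  field_simp

theorem exists_coeff (n : ℕ) : ∃ c : ℕ → ℝ, ∀ m : ℕ, m ≤ n →
    ∑ i ∈ Finset.range (n + 1), c i * (1 / ((i : ℝ) + 1)) ^ m = if m = 0 then 1 else 0 := by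
  set v : ℕ → ℝ := fun i => 1 / ((i : ℝ) + 1) with hv
  have hinj : Set.InjOn v (Finset.range (n + 1)) := by
    intro i _ j _ hij
    simp only [hv] at hij
    have h1 : ((i : ℝ) + 1) = ((j : ℝ) + 1) := by
      have hi : (0 : ℝ) < (i : ℝ) + 1 := by positivity
      have hj : (0 : ℝ) < (j : ℝ) + 1 := by positivity
      field_simp at hij
      linarith
    exact_mod_cast add_right_cancel h1
  refine ⟨fun i => (Lagrange.basis (Finset.range (n + 1)) v i).eval 0, fun m hm => ?_⟩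
  have h1 := Lagrange.eq_interpolate (f := (Polynomial.X ^ m : Polynomial ℝ)) hinj (by
    rw [Finset.card_range, Polynomial.degree_X_pow]
    exact_mod_cast Nat.lt_succ_of_le hm)
  have h2 := congrArg (Polynomial.eval 0) h1
  rw [Lagrange.interpolate_apply, Polynomial.eval_finsetSum] at h2
  simp only [Polynomial.eval_mul, Polynomial.eval_C, Polynomial.eval_pow, Polynomial.eval_X] at h2
  rw [zero_pow_eq] at h2
  rw [h2]
  exact Finset.sum_congr rfl fun i _ => mul_comm _ _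

theorem main (d n : ℕ) : ∃ ψ : Sp d → ℝ, VKer n ψ := by
  obtain ⟨c, hc⟩ := exists_coeff n
  have hl0 : ∀ i : ℕ, 0 < 1 / ((i : ℝ) + 1) := fun i => by positivity
  have hl1 : ∀ i : ℕ, 1 / ((i : ℝ) + 1) ≤ 1 := fun i => by
    rw [div_le_one (by positivity)]
    have : (0 : ℝ) ≤ i := by positivity
    linarith
  have key : ∀ (m : ℕ), m ≤ n → ∀ g : Sp d → ℝ, Continuous g →
      (∀ (c : ℝ) y, g (c • y) = c ^ m * g y) →
      ∫ y, (∑ i ∈ Finset.range (n + 1), c i * rb d (1 / ((i : ℝ) + 1)) y) * g y =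
        (if m = 0 then 1 else 0) * ∫ y, bk d y * g y := by
    intro m hm g hgc hg
    have h1 : ∀ y, (∑ i ∈ Finset.range (n + 1), c i * rb d (1 / ((i : ℝ) + 1)) y) * g y =
        ∑ i ∈ Finset.range (n + 1), c i * (rb d (1 / ((i : ℝ) + 1)) y * g y) := by
      intro y
      rw [Finset.sum_mul]
      exact Finset.sum_congr rfl fun i _ => by ring
    simp_rw [h1]
    rw [integral_finsetSum _ fun i _ => (rb_integrable (hl0 i) (hl1 i) g hgc).const_mul _,
      ← hc m hm, Finset.sum_mul]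
    refine Finset.sum_congr rfl fun i _ => ?_
    rw [integral_const_mul, rb_moment (hl0 i) m g hg]
    ring
  refine ⟨fun y => ∑ i ∈ Finset.range (n + 1), c i * rb d (1 / ((i : ℝ) + 1)) y, ?_, ?_, ?_, ?_⟩
  · exact ContDiff.sum fun i _ => contDiff_const.mul (rb_smooth _)
  · intro y hy
    exact Finset.sum_eq_zero fun i _ => by rw [rb_zero (hl0 i) (hl1 i) hy, mul_zero]
  · have h1 := key 0 (Nat.zero_le n) (fun _ => 1) continuous_const (fun c y => by simp)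
    simp only [mul_one, if_true, bk_int] at h1
    exact h1
  · intro m hm1 hmn M
    have h1 := key m hmn (fun y => M fun _ => y)
      (M.cont.comp (continuous_pi fun _ => continuous_id)) (fun c y => by
        have := M.map_smul_univ (fun _ => c) (fun _ => y)
        simpa using this)
    rw [h1, if_neg (by omega), zero_mul]

end VK

theorem stmtVK : StmtVK := VK.main

end

end TrI


end

section

/-!
# Trace inequality, general operators: module WH, the weights   (helper69)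
-/

open MeasureTheory Metric Set TrI
open scoped InnerProductSpace ContDiff ENNReal

namespace TG

namespace WHm

noncomputable section

variable {d : ℕ}

lemma lev_pos {s0 : ℝ} (hs : 0 < s0) (i : ℕ) : 0 < lev s0 i := by
  unfold lev
  positivity

lemma lev_add (s0 : ℝ) (k i : ℕ) : lev s0 (k + i) = 2 ^ i * lev s0 k := by
  unfold lev
  rw [pow_add]
  ring

lemma nst_sub_box (s0 r : ℝ) (J : ℕ) (Q : Cell d) : nst s0 r J Q ⊆ box J (⌈r⌉ + 1).toNat Q := by
  classical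
  intro Q' hQ'
  unfold nst at hQ'
  rw [Finset.mem_filter, Finset.mem_biUnion] at hQ'
  obtain ⟨⟨i, hi, hm⟩, -⟩ := hQ'
  unfold box
  rw [Finset.mem_biUnion]
  refine ⟨i, hi, ?_⟩
  rw [Finset.mem_product, Fintype.mem_piFinset] at hm ⊢
  refine ⟨hm.1, fun j => ?_⟩
  have h1 := Finset.mem_Icc.1 (hm.2 j)
  have h2 := Int.self_le_toNat (⌈r⌉ + 1)
  exact Finset.mem_Icc.2 ⟨by omega, by omega⟩

lemma card_box_le (J ρ : ℕ) (Q : Cell d) : (box J ρ Q).card ≤ (J + 1) * (2 * ρ + 1) ^ d := by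
  classical
  unfold box
  refine Finset.card_biUnion_le_card_mul _ _ _ (fun i _ => ?_) |>.trans (by rw [Finset.card_range])
  rw [Finset.card_product, Finset.card_singleton, one_mul, Fintype.card_piFinset]
  simp only [Int.card_Icc]
  have : ∀ j : Fin d, (Q.2 j / 2 ^ i + (ρ : ℤ) + 1 - (Q.2 j / 2 ^ i - (ρ : ℤ))).toNat = 2 * ρ + 1 := by
    intro j
    omega
  simp only [this, Finset.prod_const, Finset.card_univ, Fintype.card_fin]
  exact le_rfl

end

end WHm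

open _root_.TG.WHm FN in
theorem stmtWH (h7 : StmtCT7) (hNS : StmtNS) : StmtWH := by
  intro d hd C' p0 A R0 ρ JA hC' hp hp1 hA hR0 hρ
  have hd1 : 1 ≤ d := by omega
  have hdR : (1 : ℝ) ≤ d := by exact_mod_cast hd1
  have hR0p : 0 ≤ R0 := by linarith
  have hsd : Real.sqrt d ≤ d := by
    rw [Real.sqrt_le_left (by linarith)]
    nlinarith
  have hρ1 : 1 ≤ ρ := by linarith
  obtain ⟨Ca, hCa, ga⟩ := h7 d hd C' p0 A 0 hC' hp hp1 hA le_rfl 0
  obtain ⟨Cb, hCb, gb⟩ := near_om h7 hNS hd hC' hp hp1 hA (R0 := R0 + d / 3) (by positivity) (JA + 9)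
  have e3 : 3 * (R0 + d / 3) = 3 * R0 + d := by ring
  rw [e3] at gb
  set Cρ : ℝ := Real.sqrt (Ca * ρ ^ (d + 1)) with hCρ
  have hCρ0 : 0 ≤ Cρ := Real.sqrt_nonneg _
  set Cw : ℝ := 2 ^ ((JA + 9) * (d - 1)) with hCw
  have hCw0 : 0 < Cw := by positivity
  refine ⟨1 + Ca + Cb + Cρ + Cw, (JA + 9 + 1) * (2 * (⌈3 * R0 + d⌉ + 1).toNat + 1) ^ d,
    (⌈3 * R0 + d⌉ + 1).toNat, by linarith, ?_⟩
  intro μ hμ s0 h
  haveI := hμ.fin
  obtain ⟨b1, b2, b3, b4⟩ := gb μ hμ s0 h ρ hρ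
  have a1 := (ga μ hμ s0 h).1
  have a2 := (ga μ hμ s0 h).2.1
  have hv0 : ∀ Q : Cell d, 0 ≤ omC μ s0 Q := fun Q => (a1 Q).1.le
  have ho0 : ∀ Q : Cell d, 0 ≤ oC μ ρ s0 Q := oC_nonneg μ ρ s0
  have hmem : ∀ (r : ℝ), 0 ≤ r → ∀ (J : ℕ) (Q Q' : Cell d), Q' ∈ nst s0 r J Q ↔
      ∃ i ≤ J, Q'.1 = Q.1 + i ∧ ‖xC s0 Q' - xC s0 Q‖ ≤ r * lev s0 Q'.1 := by
    intro r hr J Q Q'
    exact (hNS d hd1 s0 r h hr J Q).1 Q'
  have h3R : 0 ≤ 3 * R0 := by linarith
  have h3Rd : 0 ≤ 3 * R0 + d := by linarith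
  have hbox : ∀ Q : Cell d, nst s0 (3 * R0 + d) (JA + 9) Q ⊆
      box (JA + 9) (⌈3 * R0 + d⌉ + 1).toNat Q := fun Q => nst_sub_box _ _ _ _
  refine ⟨?_, hbox, ?_⟩
  · refine
      { s0_pos := h
        v0 := hv0
        v1 := fun Q => (a1 Q).2.1.trans (by linarith)
        oml0 := ho0
        ov := ?_
        vN := fun Q hQ => (b1 Q hQ).trans (mul_le_mul_of_nonneg_right (by linarith) (ho0 Q))
        vA := fun Q hQ Q' hQ' =>
          (b2 Q hQ Q' hQ').2.trans (mul_le_mul_of_nonneg_right (by linarith) (ho0 Q'))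
        vnb := fun Q Q' hQ' =>
          (b4 Q Q' hQ').2.trans (mul_le_mul_of_nonneg_right (by linarith) (hv0 Q'))
        adj_ns := fun Q => (hNS d hd1 s0 (3 * R0) h h3R JA Q).2.2.2.2.2.2.2 (by linarith)
        self := ?_
        ns_nb := ?_
        ns9 := ?_
        lvl := ?_
        cw2 := ?_
        card := ?_ }
    · intro Q
      have h1 := a2 Q ρ hρ1
      have h2 : oC μ ρ s0 Q ≤ Cρ * omC μ s0 Q := by
        have h3 : 0 ≤ Ca * ρ ^ (d + 1) := by positivity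
        have h4 : (Cρ * omC μ s0 Q) ^ 2 = Ca * ρ ^ (d + 1) * omC μ s0 Q ^ 2 := by
          rw [mul_pow, hCρ, Real.sq_sqrt h3]
        rw [← h4] at h1
        exact (sq_le_sq₀ (ho0 Q) (mul_nonneg hCρ0 (hv0 Q))).1 h1
      exact h2.trans (mul_le_mul_of_nonneg_right (by linarith) (hv0 Q))
    · intro Q
      rw [hmem _ h3R]
      refine ⟨0, Nat.zero_le _, rfl, ?_⟩
      rw [sub_self, norm_zero]
      exact mul_nonneg h3R (WHm.lev_pos h _).le
    · intro Q Q' hQ'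
      rw [hmem _ h3R] at hQ'
      rw [hmem _ h3Rd]
      obtain ⟨i, hi, hl, hx⟩ := hQ'
      exact ⟨i, by omega, hl, hx.trans
        (mul_le_mul_of_nonneg_right (by linarith) (WHm.lev_pos h _).le)⟩
    · intro Q Q' hQ'
      rw [hmem _ h3R] at hQ'
      rw [hmem _ h3Rd]
      obtain ⟨i, hi, hl, hx⟩ := hQ'
      have hl2 : Q'.1 = Q.1 + 9 + i := hl
      refine ⟨9 + i, by omega, by omega, ?_⟩
      have h1 := FR.xC_up h 9 Q
      have h2 : lev s0 (Q.1 + 9) ≤ lev s0 Q'.1 := by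
        rw [hl2, WHm.lev_add s0 (Q.1 + 9) i]
        exact le_mul_of_one_le_left (WHm.lev_pos h _).le (one_le_pow₀ (by norm_num))
      have h3 : ‖xC s0 Q' - xC s0 Q‖ ≤ ‖xC s0 Q' - xC s0 (up 9 Q)‖ + ‖xC s0 (up 9 Q) - xC s0 Q‖ := by
        have : xC s0 Q' - xC s0 Q = (xC s0 Q' - xC s0 (up 9 Q)) + (xC s0 (up 9 Q) - xC s0 Q) := by
          abel
        rw [this]
        exact norm_add_le _ _
      have h4 : Real.sqrt d * lev s0 (Q.1 + 9) ≤ d * lev s0 Q'.1 :=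
        mul_le_mul hsd h2 (WHm.lev_pos h _).le (by linarith)
      rw [add_mul]
      linarith
    · intro Q Q' hQ'
      rw [hmem _ h3Rd] at hQ'
      obtain ⟨i, hi, hl, hx⟩ := hQ'
      omega
    · intro Q Q' hQ'
      rw [hmem _ h3Rd] at hQ'
      obtain ⟨i, hi, hl, hx⟩ := hQ'
      have h1 := ((hNS d hd1 s0 (3 * R0 + d) h h3Rd (JA + 9) Q).2.1 i hi Q' hl).1
      rw [h1]
      have h0 : 0 ≤ cw s0 Q := by
        unfold cw
        have := WHm.lev_pos h Q.1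
        positivity
      refine mul_le_mul_of_nonneg_right ?_ h0
      have h2 : (2 : ℝ) ^ (i * (d - 1)) ≤ Cw :=
        pow_le_pow_right₀ (by norm_num) (Nat.mul_le_mul_right _ hi)
      linarith
    · intro Q
      exact (Finset.card_le_card (hbox Q)).trans (card_box_le _ _ Q)
  · intro Q Q' hQ'
    rw [hmem _ h3Rd] at hQ'
    obtain ⟨i, hi, hl, hx⟩ := hQ'
    exact ⟨by omega, by omega, hx.trans
      (mul_le_mul_of_nonneg_right (by linarith) (WHm.lev_pos h _).le)⟩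

end TG


end
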