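import Mathlib
import Pool.Agent.TRM.C01
import Pool.Agent.TRM.C02
import Pool.Agent.TRM.C05

/-! Parts: TG.TQ, TG.HU, TG.SS1, TG.SS -/

section

/-!
# Module TQ: averaged Taylor polynomials (by helper56)
-/

open MeasureTheory Metric Set TrI
open scoped InnerProductSpace ContDiff

namespace TG

section Poly

variable {d : ℕ} {V : Type*} [NormedAddCommGroup V] [NormedSpace ℝ V]

/-- polynomial maps of degree less than k -/
def PolL (k : ℕ) (g : Sp d → V) : Prop :=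
  ContDiff ℝ ∞ g ∧ ∀ x, iteratedFDeriv ℝ k g x = 0

lemma PolL.succ {k : ℕ} {g : Sp d → V} (h : PolL k g) : PolL (k + 1) g := by
  refine ⟨h.1, fun x => ?_⟩
  have h1 : iteratedFDeriv ℝ k g = fun _ => 0 := funext h.2
  have h2 : fderiv ℝ (iteratedFDeriv ℝ k g) x = 0 := by
    rw [h1]
    exact fderiv_const_apply _
  rw [← norm_eq_zero, ← norm_fderiv_iteratedFDeriv, h2]
  exact norm_zero (E := Sp d →L[ℝ] ContinuousMultilinearMap ℝ (fun _ : Fin k => Sp d) V)

lemma PolL.mono {k l : ℕ} (hkl : k ≤ l) {g : Sp d → V} (h : PolL k g) : PolL l g := by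
  induction l, hkl using Nat.le_induction with
  | base => exact h
  | succ l _ ih => exact ih.succ

lemma PolL.sum {ι : Type*} (S : Finset ι) {k : ℕ} {g : ι → Sp d → V}
    (h : ∀ i ∈ S, PolL k (g i)) : PolL k (fun x => ∑ i ∈ S, g i x) := by
  refine ⟨ContDiff.sum fun i hi => (h i hi).1, fun x => ?_⟩
  rw [iteratedFDeriv_fun_sum_apply (fun i hi =>
    ((h i hi).1.contDiffAt).of_le (by exact_mod_cast le_top))]
  exact Finset.sum_eq_zero fun i hi => (h i hi).2 x

lemma PolL.const (c : V) : PolL 1 (fun _ : Sp d => c) :=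
  ⟨contDiff_const, fun x => by rw [iteratedFDeriv_const_of_ne one_ne_zero]; rfl⟩

/-- the coordinates are polynomials of degree one -/
lemma PolL.coord (j : Fin d) : PolL 2 (fun x : Sp d => x j) := by
  have h1 : (fun x : Sp d => x j) = fun x => (EuclideanSpace.proj j : Sp d →L[ℝ] ℝ) x := rfl
  rw [h1]
  refine ⟨ContinuousLinearMap.contDiff _, fun x => ?_⟩
  rw [← norm_eq_zero, ← norm_iteratedFDeriv_fderiv]
  have h2 : fderiv ℝ (fun x => (EuclideanSpace.proj j : Sp d →L[ℝ] ℝ) x) =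
      fun _ => (EuclideanSpace.proj j : Sp d →L[ℝ] ℝ) := by
    funext y
    exact ContinuousLinearMap.fderiv _
  rw [h2, iteratedFDeriv_const_of_ne one_ne_zero]
  simp

lemma PolL.coord_smul {k : ℕ} {g : Sp d → V} (h : PolL k g) (j : Fin d) :
    PolL (k + 1) (fun x => x j • g x) := by
  have hc := PolL.coord (d := d) j
  refine ⟨hc.1.smul h.1, fun x => ?_⟩
  rw [← norm_eq_zero]
  refine le_antisymm ?_ (norm_nonneg _)
  refine (norm_iteratedFDeriv_smul_le hc.1 h.1 x (n := k + 1) (by exact_mod_cast le_top)).trans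
    (le_of_eq ?_)
  refine Finset.sum_eq_zero fun i hi => ?_
  rcases Nat.lt_or_ge i 2 with h2 | h2
  · have : iteratedFDeriv ℝ (k + 1 - i) g x = 0 := (h.mono (by omega)).2 x
    rw [this, norm_zero, mul_zero]
  · have : iteratedFDeriv ℝ i (fun x : Sp d => x j) x = 0 := (hc.mono h2).2 x
    rw [this, norm_zero, mul_zero, zero_mul]

lemma PolL.monomial {ι : Type*} (S : Finset ι) (f : ι → Fin d) (c : V) :
    PolL (S.card + 1) (fun x : Sp d => (∏ i ∈ S, x (f i)) • c) := by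
  classical
  induction S using Finset.induction_on with
  | empty => simpa using PolL.const (d := d) c
  | insert a S ha ih =>
    have h1 := ih.coord_smul (f a)
    rw [Finset.card_insert_of_notMem ha]
    have h2 : (fun x : Sp d => (∏ i ∈ insert a S, x (f i)) • c) =
        fun x => x (f a) • ((∏ i ∈ S, x (f i)) • c) := by
      funext x
      rw [Finset.prod_insert ha, mul_smul]
    rw [h2]
    exact h1

end Poly

section Taylor

variable {E V : Type*} [NormedAddCommGroup E] [NormedSpace ℝ E] [NormedAddCommGroup V]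
  [NormedSpace ℝ V]

/-- derivatives along a line -/
lemma iteratedDeriv_line {u : E → V} (hu : ContDiff ℝ ∞ u) (y v : E) (k : ℕ) :
    ∀ t, iteratedDeriv k (fun t : ℝ => u (y + t • v)) t =
      iteratedFDeriv ℝ k u (y + t • v) (fun _ => v) := by
  induction k with
  | zero => intro t; simp
  | succ k ih =>
    intro t
    have h1 : iteratedDeriv k (fun t : ℝ => u (y + t • v)) =
        fun t => iteratedFDeriv ℝ k u (y + t • v) (fun _ => v) := funext ih
    rw [iteratedDeriv_succ, h1]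
    have h2 : Differentiable ℝ (iteratedFDeriv ℝ k u) :=
      hu.differentiable_iteratedFDeriv (by exact_mod_cast ENat.natCast_lt_top k)
    have h3 : HasDerivAt (fun t : ℝ => y + t • v) v t := by
      simpa using ((hasDerivAt_id t).smul_const v).const_add y
    have h4 := (h2 (y + t • v)).hasFDerivAt.comp_hasDerivAt t h3
    have h5 := ((ContinuousMultilinearMap.apply ℝ (fun _ : Fin k => E) V
      (fun _ => v)).hasFDerivAt).comp_hasDerivAt t h4
    have h6 : deriv (fun t : ℝ => iteratedFDeriv ℝ k u (y + t • v) (fun _ => v)) t =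
        (fderiv ℝ (iteratedFDeriv ℝ k u) (y + t • v) v) (fun _ => v) := h5.deriv
    rw [h6, iteratedFDeriv_succ_apply_left]
    rfl

/-- a function whose derivative of order n+1 vanishes is its Taylor polynomial -/
lemma eq_taylor {u : E → V} (hu : ContDiff ℝ ∞ u) {n : ℕ}
    (h : ∀ x, iteratedFDeriv ℝ (n + 1) u x = 0) (x y : E) :
    ∑ k ∈ Finset.range (n + 1), ((Nat.factorial k : ℝ)⁻¹ •
      iteratedFDeriv ℝ k u y (fun _ => x - y)) = u x := by
  set g : ℝ → V := fun t => u (y + t • (x - y)) with hg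
  have hgc : ContDiff ℝ ∞ g := hu.comp (contDiff_const.add (contDiff_id.smul contDiff_const))
  have hD := iteratedDeriv_line hu y (x - y)
  have hW : ∀ (k : ℕ), ∀ t ∈ Icc (0 : ℝ) 1, iteratedDerivWithin k g (Icc 0 1) t =
      iteratedFDeriv ℝ k u (y + t • (x - y)) (fun _ => x - y) := by
    intro k t ht
    rw [iteratedDerivWithin_eq_iteratedDeriv (uniqueDiffOn_Icc zero_lt_one)
      (hgc.contDiffAt.of_le (by exact_mod_cast le_top)) ht, hD]
  have h1 := taylor_mean_remainder_bound (f := g) (a := 0) (b := 1) (C := 0) (x := 1) (n := n)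
    zero_le_one ((hgc.of_le (by exact_mod_cast le_top)).contDiffOn) (by simp) (by
      intro t ht
      rw [hW _ t ht, h]
      simp)
  have h2 : g 1 = taylorWithinEval g n (Icc 0 1) 0 1 := by
    rw [← sub_eq_zero, ← norm_eq_zero]
    refine le_antisymm (h1.trans (by simp)) (norm_nonneg _)
  have h3 : g 1 = u x := by
    rw [hg]
    simp
  rw [← h3, h2, taylor_within_apply]
  refine Finset.sum_congr rfl fun k _ => ?_
  rw [hW k 0 (by simp)]
  simp

end Taylor

theorem stmtTQ : StmtTQ := by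
  intro d V _ _ _ n u hd hu c r hr
  classical
  have : CompleteSpace V := FiniteDimensional.complete ℝ V
  -- the coefficients
  set e : Fin d → Sp d := fun j => EuclideanSpace.single j (1 : ℝ) with he
  set hh : (k : ℕ) → (Fin k → Fin d) → Finset (Fin k) → Sp d → V := fun k f S z =>
    bk d z • (((Nat.factorial k : ℝ)⁻¹ * ∏ i ∈ Finset.univ \ S, (-(c + r • z) (f i))) •
      iteratedFDeriv ℝ k u (c + r • z) (fun i => e (f i))) with hhh
  have key : ∀ x z : Sp d, bk d z • ∑ k ∈ Finset.range (n + 1),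
      ((Nat.factorial k : ℝ)⁻¹ • iteratedFDeriv ℝ k u (c + r • z) (fun _ => x - (c + r • z))) =
      ∑ k ∈ Finset.range (n + 1), ∑ f : Fin k → Fin d, ∑ S ∈ Finset.univ.powerset,
        (∏ i ∈ S, x (f i)) • hh k f S z := by
    intro x z
    rw [Finset.smul_sum]
    refine Finset.sum_congr rfl fun k _ => ?_
    have h1 : (fun _ : Fin k => x - (c + r • z)) =
        fun _ => ∑ j : Fin d, (x - (c + r • z)) j • e j := by
      funext i
      ext l
      rw [WithLp.ofLp_sum, Finset.sum_apply]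
      simp [he]
    rw [h1, ContinuousMultilinearMap.map_sum, Finset.smul_sum, Finset.smul_sum]
    refine Finset.sum_congr rfl fun f _ => ?_
    have h2 := (iteratedFDeriv ℝ k u (c + r • z)).map_smul_univ
      (fun i => (x - (c + r • z)) (f i)) (fun i => e (f i))
    rw [h2]
    have h3 : ∏ i : Fin k, (x - (c + r • z)) (f i) =
        ∑ S ∈ Finset.univ.powerset, (∏ i ∈ S, x (f i)) *
          ∏ i ∈ Finset.univ \ S, (-(c + r • z) (f i)) := by
      rw [← Finset.prod_add]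
      refine Finset.prod_congr rfl fun i _ => ?_
      simp [sub_eq_add_neg]
    rw [h3, Finset.sum_smul, Finset.smul_sum, Finset.smul_sum]
    refine Finset.sum_congr rfl fun S _ => ?_
    simp only [hhh, smul_smul]
    congr 1
    ring
  have hint : ∀ k f S, Integrable (hh k f S) := by
    intro k f S
    have hc1 : Continuous fun z : Sp d => c + r • z := by fun_prop
    have hc2 : Continuous fun z : Sp d => iteratedFDeriv ℝ k u (c + r • z) (fun i => e (f i)) :=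
      (ContinuousMultilinearMap.apply ℝ (fun _ : Fin k => Sp d) V
        (fun i => e (f i))).continuous.comp
        ((hu.continuous_iteratedFDeriv (by exact_mod_cast le_top)).comp hc1)
    have hc3 : Continuous fun z : Sp d =>
        (Nat.factorial k : ℝ)⁻¹ * ∏ i ∈ Finset.univ \ S, (-(c + r • z) (f i)) := by
      refine continuous_const.mul (continuous_finsetProd _ fun i _ => ?_)
      fun_prop
    refine Continuous.integrable_of_hasCompactSupport (bk_cont.smul (hc3.smul hc2)) ?_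
    exact (bmp d).hasCompactSupport_normed.smul_right
  have hs : ∀ (x : Sp d) (k : ℕ) (f : Fin k → Fin d) (S : Finset (Fin k)),
      Integrable (fun z => (∏ i ∈ S, x (f i)) • hh k f S z) := fun x k f S => (hint k f S).smul _
  have hATP : ATP n c r u = fun x => ∑ k ∈ Finset.range (n + 1), ∑ f : Fin k → Fin d,
      ∑ S ∈ Finset.univ.powerset, (∏ i ∈ S, x (f i)) • ∫ z, hh k f S z := by
    funext x
    unfold ATP
    rw [integral_congr_ae (Filter.Eventually.of_forall (key x))]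
    rw [integral_finsetSum _ (fun k _ => integrable_finsetSum _ fun f _ =>
      integrable_finsetSum _ fun S _ => hs x k f S)]
    refine Finset.sum_congr rfl fun k _ => ?_
    rw [integral_finsetSum _ (fun f _ => integrable_finsetSum _ fun S _ => hs x k f S)]
    refine Finset.sum_congr rfl fun f _ => ?_
    rw [integral_finsetSum _ (fun S _ => hs x k f S)]
    refine Finset.sum_congr rfl fun S _ => ?_
    rw [integral_smul]
  have hPol : PolL (n + 1) (ATP n c r u) := by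
    rw [hATP]
    refine PolL.sum _ fun k hk => PolL.sum _ fun f _ => PolL.sum _ fun S _ => ?_
    refine (PolL.monomial S f _).mono ?_
    have h1 : S.card ≤ k := by simpa using Finset.card_le_univ S
    have h2 := Finset.mem_range.mp hk
    omega
  refine ⟨hPol.1, hPol.2, fun h => ?_⟩
  funext x
  unfold ATP
  have h1 : ∀ z : Sp d, bk d z • ∑ k ∈ Finset.range (n + 1),
      ((Nat.factorial k : ℝ)⁻¹ • iteratedFDeriv ℝ k u (c + r • z) (fun _ => x - (c + r • z))) =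
      bk d z • u x := fun z => by rw [eq_taylor hu h x (c + r • z)]
  rw [integral_congr_ae (Filter.Eventually.of_forall h1), integral_smul_const, bk_int, one_smul]

end TG


end

section

/-!
# Modules HU and JC: comparison of averaged Taylor polynomials (by helper97)
-/

open MeasureTheory Metric Set TrI
open scoped InnerProductSpace ContDiff

namespace TG

namespace HU

noncomputable section

section Poly

variable {d m : ℕ} {V : Type*} [NormedAddCommGroup V] [InnerProductSpace ℝ V]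
  [FiniteDimensional ℝ V]

/-- the space of polynomials of degree at most m -/
def PS (d m : ℕ) (V : Type*) [NormedAddCommGroup V] [InnerProductSpace ℝ V] :
    Submodule ℝ (Sp d → V) where
  carrier := {p | PolL (m + 1) p}
  add_mem' := by
    rintro p q ⟨hp1, hp2⟩ ⟨hq1, hq2⟩
    refine ⟨hp1.add hq1, fun x => ?_⟩
    have := iteratedFDeriv_add_apply (i := m + 1) (x := x)
      ((hp1.contDiffAt (x := x)).of_le (by exact_mod_cast le_top))
      ((hq1.contDiffAt (x := x)).of_le (by exact_mod_cast le_top))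
    rw [this, hp2, hq2, add_zero]
  zero_mem' := by
    refine ⟨contDiff_const, fun x => ?_⟩
    have : (0 : Sp d → V) = fun _ => 0 := rfl
    rw [this, iteratedFDeriv_const_of_ne (Nat.succ_ne_zero m)]
    rfl
  smul_mem' := by
    rintro c p ⟨hp1, hp2⟩
    refine ⟨hp1.const_smul c, fun x => ?_⟩
    have := iteratedFDeriv_const_smul_apply (i := m + 1) (a := c) (x := x)
      ((hp1.contDiffAt (x := x)).of_le (by exact_mod_cast le_top))
    rw [this, hp2, smul_zero]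

/-- coordinates of polynomials: the derivatives at the origin -/
def co (d m : ℕ) (V : Type*) [NormedAddCommGroup V] [InnerProductSpace ℝ V] :
    PS d m V →ₗ[ℝ] ((k : Fin (m + 1)) → (Fin k → Fin d) → V) where
  toFun p := fun k f => iteratedFDeriv ℝ k p.1 0 (fun i => EuclideanSpace.single (f i) (1 : ℝ))
  map_add' := by
    rintro ⟨p, hp⟩ ⟨q, hq⟩
    funext k f
    have := iteratedFDeriv_add_apply (i := k) (x := (0 : Sp d))
      ((hp.1.contDiffAt (x := (0 : Sp d))).of_le (by exact_mod_cast le_top))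
      ((hq.1.contDiffAt (x := (0 : Sp d))).of_le (by exact_mod_cast le_top))
    show iteratedFDeriv ℝ k (p + q) 0 _ = _
    rw [this]
    rfl
  map_smul' := by
    rintro c ⟨p, hp⟩
    funext k f
    have := iteratedFDeriv_const_smul_apply (i := k) (a := c) (x := (0 : Sp d))
      ((hp.1.contDiffAt (x := (0 : Sp d))).of_le (by exact_mod_cast le_top))
    show iteratedFDeriv ℝ k (c • p) 0 _ = _
    rw [this]
    rfl

omit [FiniteDimensional ℝ V] in
lemma cml_zero {k : ℕ} {A : ContinuousMultilinearMap ℝ (fun _ : Fin k => Sp d) V}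
    (h : ∀ f : Fin k → Fin d, A (fun i => EuclideanSpace.single (f i) (1 : ℝ)) = 0) : A = 0 := by
  apply ContinuousMultilinearMap.toMultilinearMap_injective
  refine Module.Basis.ext_multilinear (fun _ => (EuclideanSpace.basisFun (Fin d) ℝ).toBasis) ?_
  intro f
  simpa using h f

omit [FiniteDimensional ℝ V] in
lemma co_inj : Function.Injective (co d m V) := by
  rw [injective_iff_map_eq_zero]
  rintro ⟨p, hp⟩ h
  have h1 : ∀ k ≤ m, iteratedFDeriv ℝ k p 0 = 0 := by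
    intro k hk
    refine cml_zero fun f => ?_
    have := congrFun (congrFun h ⟨k, by omega⟩) f
    exact this
  apply Subtype.ext
  funext x
  have h2 := eq_taylor hp.1 hp.2 x 0
  rw [Finset.sum_eq_zero] at h2
  · exact h2.symm
  · intro k hk
    rw [h1 k (by have := Finset.mem_range.mp hk; omega)]
    simp

instance : FiniteDimensional ℝ (PS d m V) :=
  FiniteDimensional.of_injective (co d m V) co_inj

omit [FiniteDimensional ℝ V] in
lemma cs_bound {F : Sp d → V} (hF : ContDiff ℝ ∞ F) (hc : HasCompactSupport F) (J : ℕ) :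
    ∃ B : ℝ, 0 ≤ B ∧ ∀ j ≤ J, ∀ y, ‖iteratedFDeriv ℝ j F y‖ ≤ B := by
  have h : ∀ j : ℕ, ∃ B : ℝ, ∀ y, ‖iteratedFDeriv ℝ j F y‖ ≤ B := fun j =>
    (hF.continuous_iteratedFDeriv (by exact_mod_cast le_top)).bounded_above_of_compact_support
      (hc.iteratedFDeriv j)
  choose B hB using h
  have h0 : ∀ j, 0 ≤ B j := fun j => (norm_nonneg _).trans (hB j 0)
  refine ⟨∑ j ∈ Finset.range (J + 1), B j, Finset.sum_nonneg fun j _ => h0 j, fun j hj y => ?_⟩
  exact (hB j y).trans (Finset.single_le_sum (f := B) (fun i _ => h0 i)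
    (Finset.mem_range.mpr (by omega)))

/-- a polynomial is controlled by its integrals against test functions with small support -/
lemma poly0 (d m J : ℕ) (V : Type*) [NormedAddCommGroup V] [InnerProductSpace ℝ V]
    [FiniteDimensional ℝ V] (ρ : ℝ) :
    ∃ C : ℝ, 0 < C ∧ ∀ p : Sp d → V, PolL (m + 1) p → ∀ τ : ℝ, 0 ≤ τ →
      (∀ g : Sp d → V, TFn J 1 g → (∀ y, g y ≠ 0 → ‖y‖ < 1 / 4) →
        |∫ x, ⟪p x, g x⟫_ℝ| ≤ τ) → ∀ x, ‖x‖ ≤ ρ → ‖p x‖ ≤ C * τ := by
  classical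
  set φ : ContDiffBump (0 : Sp d) := ⟨1 / 8, 1 / 5, by norm_num, by norm_num⟩ with hφ
  have hφc : Continuous (φ : Sp d → ℝ) := φ.continuous
  have hφs : HasCompactSupport (φ : Sp d → ℝ) := φ.hasCompactSupport
  set N := Module.finrank ℝ (PS d m V) with hN
  set b := Module.finBasis ℝ (PS d m V) with hb
  set q : Fin N → Sp d → V := fun i => (b i).1 with hq
  have hqP : ∀ i, PolL (m + 1) (q i) := fun i => (b i).2
  have hqc : ∀ i, Continuous (q i) := fun i => (hqP i).1.continuous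
  set P : (Fin N → ℝ) → Sp d → V := fun a x => ∑ i, a i • q i x with hP
  have hPS : ∀ a, P a = (∑ i, a i • b i : PS d m V).1 := by
    intro a
    funext x
    simp [hP, hq, Finset.sum_apply]
  -- values
  obtain ⟨K, hK0, hK⟩ : ∃ K : ℝ, 0 ≤ K ∧ ∀ i x, ‖x‖ ≤ ρ → ‖q i x‖ ≤ K := by
    have h : ∀ i, ∃ K : ℝ, ∀ x ∈ closedBall (0 : Sp d) ρ, ‖q i x‖ ≤ K := fun i =>
      (isCompact_closedBall _ _).exists_bound_of_continuousOn (hqc i).continuousOn
    choose K hK using h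
    refine ⟨∑ i, |K i|, Finset.sum_nonneg fun i _ => abs_nonneg _, fun i x hx => ?_⟩
    exact ((hK i x (by simpa using hx)).trans (le_abs_self _)).trans
      (Finset.single_le_sum (f := fun i => |K i|) (fun i _ => abs_nonneg _) (Finset.mem_univ i))
  -- test functions
  set F : Fin N → Sp d → V := fun i y => φ y • q i y with hF
  have hFc : ∀ i, ContDiff ℝ ∞ (F i) := fun i => φ.contDiff.smul (hqP i).1
  have hFs : ∀ i, HasCompactSupport (F i) := fun i => hφs.smul_right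
  obtain ⟨B, hB0, hB⟩ : ∃ B : ℝ, 0 ≤ B ∧ ∀ i, ∀ j ≤ J, ∀ y, ‖iteratedFDeriv ℝ j (F i) y‖ ≤ B := by
    have h := fun i => cs_bound (hFc i) (hFs i) J
    choose B hB0 hB using h
    refine ⟨∑ i, B i, Finset.sum_nonneg fun i _ => hB0 i, fun i j hj y => ?_⟩
    exact (hB i j hj y).trans (Finset.single_le_sum (f := B) (fun i _ => hB0 i)
      (Finset.mem_univ i))
  -- the quadratic form
  set Q : (Fin N → ℝ) → ℝ := fun a => ∫ y, φ y * ‖P a y‖ ^ 2 with hQ
  have hPc : ∀ a, Continuous (P a) := fun a =>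
    continuous_finsetSum _ fun i _ => (hqc i).const_smul (a i)
  have hQi : ∀ a, Integrable (fun y => φ y * ‖P a y‖ ^ 2) := fun a =>
    (hφc.mul ((hPc a).norm.pow 2)).integrable_of_hasCompactSupport hφs.mul_right
  have hQexp : ∀ a, Q a = ∑ i, ∑ j, a i * a j * ∫ y, φ y * ⟪q i y, q j y⟫_ℝ := by
    intro a
    have h1 : ∀ y, φ y * ‖P a y‖ ^ 2 = ∑ i, ∑ j, a i * a j * (φ y * ⟪q i y, q j y⟫_ℝ) := by
      intro y
      rw [← real_inner_self_eq_norm_sq]
      simp only [hP, sum_inner, inner_sum, real_inner_smul_left, real_inner_smul_right,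
        Finset.mul_sum]
      refine Finset.sum_congr rfl fun i _ => Finset.sum_congr rfl fun j _ => ?_
      rw [real_inner_comm]
      ring
    have h2 : ∀ i j, Integrable (fun y => a i * a j * (φ y * ⟪q i y, q j y⟫_ℝ)) := fun i j =>
      ((hφc.mul ((hqc i).inner (hqc j))).integrable_of_hasCompactSupport
        hφs.mul_right).const_mul _
    simp only [hQ]
    rw [integral_congr_ae (Filter.Eventually.of_forall h1),
      integral_finsetSum _ fun i _ => integrable_finsetSum _ fun j _ => h2 i j]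
    refine Finset.sum_congr rfl fun i _ => ?_
    rw [integral_finsetSum _ fun j _ => h2 i j]
    refine Finset.sum_congr rfl fun j _ => ?_
    rw [integral_const_mul]
  have hQcont : Continuous Q := by
    have : Q = fun a => ∑ i, ∑ j, a i * a j * ∫ y, φ y * ⟪q i y, q j y⟫_ℝ := funext hQexp
    rw [this]
    fun_prop
  have hQpos : ∀ a, a ≠ 0 → 0 < Q a := by
    intro a ha
    have h0 : ∀ y, 0 ≤ φ y * ‖P a y‖ ^ 2 := fun y => mul_nonneg φ.nonneg (sq_nonneg _)
    have h00 : 0 ≤ ∫ y, φ y * ‖P a y‖ ^ 2 := integral_nonneg h0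
    rcases h00.lt_or_eq with h | h
    · exact h
    exfalso
    have hc : Continuous (fun y => φ y * ‖P a y‖ ^ 2) := hφc.mul ((hPc a).norm.pow 2)
    have h11 : (fun y => φ y * ‖P a y‖ ^ 2) =ᵐ[volume] 0 :=
      (integral_eq_zero_iff_of_nonneg h0 (hQi a)).mp h.symm
    have h1 : (fun y => φ y * ‖P a y‖ ^ 2) = 0 :=
      (Continuous.ae_eq_iff_eq volume hc continuous_zero).mp h11
    have h2 : ∀ y, ‖y‖ < 1 / 8 → P a y = 0 := by
      intro y hy
      have h3 := congrFun h1 y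
      have h4 : φ y = 1 := φ.one_of_mem_closedBall (by
        rw [mem_closedBall, dist_zero_right]
        exact hy.le)
      simp only [h4, one_mul, Pi.zero_apply] at h3
      exact norm_eq_zero.mp (pow_eq_zero_iff (two_ne_zero) |>.mp h3)
    have hPP : PolL (m + 1) (P a) := by
      rw [hPS]
      exact (∑ i, a i • b i : PS d m V).2
    have h5 : P a = 0 := by
      funext x
      have h6 := eq_taylor hPP.1 hPP.2 x 0
      rw [← h6]
      refine Finset.sum_eq_zero fun k _ => ?_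
      have h7 : P a =ᶠ[nhds 0] fun _ => 0 := by
        filter_upwards [ball_mem_nhds (0 : Sp d) (by norm_num : (0 : ℝ) < 1 / 8)] with y hy
        exact h2 y (by simpa using hy)
      have h8 : iteratedFDeriv ℝ k (P a) 0 = iteratedFDeriv ℝ k (fun _ => (0 : V)) (0 : Sp d) :=
        (h7.iteratedFDeriv ℝ k).eq_of_nhds
      rw [h8]
      have h9 : iteratedFDeriv ℝ k (fun _ => (0 : V)) = (0 : Sp d → _) := iteratedFDeriv_fun_zero
      rw [h9]
      simp
    apply ha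
    have h10 : (∑ i, a i • b i : PS d m V) = 0 := by
      apply Subtype.ext
      rw [← hPS, h5]
      rfl
    funext i
    exact Fintype.linearIndependent_iff.mp b.linearIndependent a h10 i
  have hQhom : ∀ (t : ℝ) a, Q (t • a) = t ^ 2 * Q a := by
    intro t a
    rw [hQexp, hQexp, Finset.mul_sum]
    refine Finset.sum_congr rfl fun i _ => ?_
    rw [Finset.mul_sum]
    refine Finset.sum_congr rfl fun j _ => ?_
    simp only [Pi.smul_apply, smul_eq_mul]
    ring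
  obtain ⟨c, hc0, hc⟩ : ∃ c : ℝ, 0 < c ∧ ∀ a, c * ‖a‖ ^ 2 ≤ Q a := by
    rcases (sphere (0 : Fin N → ℝ) 1).eq_empty_or_nonempty with h | h
    · refine ⟨1, one_pos, fun a => ?_⟩
      have ha : a = 0 := by
        by_contra ha
        have : ‖a‖⁻¹ • a ∈ sphere (0 : Fin N → ℝ) 1 := by
          simp [norm_smul, ha]
        rw [h] at this
        exact this
      rw [ha, norm_zero]
      simp only [ne_eq, OfNat.ofNat_ne_zero, not_false_eq_true, zero_pow, mul_zero]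
      exact integral_nonneg fun y => mul_nonneg φ.nonneg (sq_nonneg _)
    · obtain ⟨a0, ha0, hmin⟩ := (isCompact_sphere (0 : Fin N → ℝ) 1).exists_isMinOn h
        hQcont.continuousOn
      have ha0' : a0 ≠ 0 := by
        rintro rfl
        simp at ha0
      refine ⟨Q a0, hQpos a0 ha0', fun a => ?_⟩
      by_cases ha : a = 0
      · rw [ha, norm_zero]
        simp only [ne_eq, OfNat.ofNat_ne_zero, not_false_eq_true, zero_pow, mul_zero]
        exact integral_nonneg fun y => mul_nonneg φ.nonneg (sq_nonneg _)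
      · have h1 : ‖a‖⁻¹ • a ∈ sphere (0 : Fin N → ℝ) 1 := by
          simp [norm_smul, ha]
        have h2 : Q a0 ≤ Q (‖a‖⁻¹ • a) := hmin h1
        rw [hQhom] at h2
        have h3 : 0 < ‖a‖ := norm_pos_iff.mpr ha
        have h4 : Q a0 * ‖a‖ ^ 2 ≤ ‖a‖⁻¹ ^ 2 * Q a * ‖a‖ ^ 2 :=
          mul_le_mul_of_nonneg_right h2 (sq_nonneg _)
        have h5 : ‖a‖⁻¹ ^ 2 * Q a * ‖a‖ ^ 2 = Q a := by
          field_simp
        linarith
  refine ⟨N * K * (N * B) / c + 1, by (clear * - hK0 hB0 hc0; positivity), fun p hp τ hτ hg x hx => ?_⟩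
  set a : Fin N → ℝ := b.equivFun ⟨p, hp⟩ with ha
  have hpa : p = P a := by
    rw [hPS, ha, b.sum_equivFun]
  have hai : ∀ i, |a i| ≤ ‖a‖ := fun i => by
    rw [← Real.norm_eq_abs]
    exact norm_le_pi_norm a i
  have hpx : ‖p x‖ ≤ N * K * ‖a‖ := by
    rw [hpa]
    calc ‖P a x‖ ≤ ∑ i, ‖a i • q i x‖ := norm_sum_le _ _
      _ ≤ ∑ _i : Fin N, ‖a‖ * K := by
          refine Finset.sum_le_sum fun i _ => ?_
          rw [norm_smul, Real.norm_eq_abs]
          exact mul_le_mul (hai i) (hK i x hx) (norm_nonneg _) (norm_nonneg _)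
      _ = N * K * ‖a‖ := by
          rw [Finset.sum_const, Finset.card_univ, Fintype.card_fin, nsmul_eq_mul]
          ring
  have hnorm : c * ‖a‖ ≤ (N * B) * τ := by
    rcases eq_or_ne a 0 with h | h
    · rw [h, norm_zero, mul_zero]
      positivity
    have hn : 0 < ‖a‖ := norm_pos_iff.mpr h
    -- the test function
    have hder : ∀ j ≤ J, ∀ y, ‖iteratedFDeriv ℝ j (fun y => φ y • p y) y‖ ≤ N * B * ‖a‖ := by
      intro j hj y
      have h1 : (fun y => φ y • p y) = fun y => ∑ i, a i • F i y := by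
        funext z
        rw [hpa]
        simp only [hP, hF, Finset.smul_sum]
        refine Finset.sum_congr rfl fun i _ => ?_
        rw [smul_comm]
      rw [h1, iteratedFDeriv_fun_sum_apply (fun i _ =>
        ((((hFc i).const_smul (a i)).contDiffAt).of_le (by exact_mod_cast le_top)))]
      calc ‖∑ i, iteratedFDeriv ℝ j (fun y => a i • F i y) y‖
          ≤ ∑ i, ‖iteratedFDeriv ℝ j (fun y => a i • F i y) y‖ := norm_sum_le _ _
        _ ≤ ∑ _i : Fin N, ‖a‖ * B := by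
            refine Finset.sum_le_sum fun i _ => ?_
            have h2 : iteratedFDeriv ℝ j (fun y => a i • F i y) y =
                a i • iteratedFDeriv ℝ j (F i) y :=
              iteratedFDeriv_const_smul_apply
                (((hFc i).contDiffAt).of_le (by exact_mod_cast le_top))
            rw [h2, norm_smul, Real.norm_eq_abs]
            exact mul_le_mul (hai i) (hB i j hj y) (norm_nonneg _) (norm_nonneg _)
        _ = N * B * ‖a‖ := by
            rw [Finset.sum_const, Finset.card_univ, Fintype.card_fin, nsmul_eq_mul]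
            ring
    have hQint : ∫ y, ⟪p y, φ y • p y⟫_ℝ = Q a := by
      simp only [hQ]
      refine integral_congr_ae (Filter.Eventually.of_forall fun y => ?_)
      simp only [real_inner_smul_right, real_inner_self_eq_norm_sq, hpa]
    have hM0 : 0 < N * B * ‖a‖ := by
      rcases (by positivity : 0 ≤ N * B * ‖a‖).lt_or_eq with h1 | h1
      · exact h1
      exfalso
      have h2 : ∀ y, φ y • p y = 0 := by
        intro y
        have := hder 0 (Nat.zero_le _) y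
        rw [norm_iteratedFDeriv_zero, ← h1] at this
        exact norm_le_zero_iff.mp this
      have h3 := hQpos a h
      rw [← hQint] at h3
      simp [h2] at h3
    set M := N * B * ‖a‖ with hM
    have h1 := hg (fun y => M⁻¹ • (φ y • p y)) ⟨by
        have : ContDiff ℝ ∞ (fun y => M⁻¹ • (φ y • p y)) := (φ.contDiff.smul hp.1).const_smul _
        exact this.of_le (by exact_mod_cast le_top), by
        intro j hj y
        have h2 : iteratedFDeriv ℝ j (fun y => M⁻¹ • (φ y • p y)) y =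
            M⁻¹ • iteratedFDeriv ℝ j (fun y => φ y • p y) y :=
          iteratedFDeriv_const_smul_apply
            (((φ.contDiff.smul hp.1).contDiffAt).of_le (by exact_mod_cast le_top))
        rw [h2, norm_smul, norm_inv, Real.norm_of_nonneg hM0.le]
        rw [inv_mul_le_iff₀ hM0, mul_one]
        exact hder j hj y⟩ (by
        intro y hy
        by_contra hcon
        apply hy
        have : φ y = 0 := φ.zero_of_le_dist (by
          rw [dist_zero_right]
          show (1 / 5 : ℝ) ≤ ‖y‖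
          linarith [not_lt.mp hcon])
        simp [this])
    have h2 : ∫ y, ⟪p y, M⁻¹ • (φ y • p y)⟫_ℝ = M⁻¹ * Q a := by
      rw [← hQint, ← integral_const_mul]
      refine integral_congr_ae (Filter.Eventually.of_forall fun y => ?_)
      simp only
      rw [real_inner_smul_right]
    rw [h2] at h1
    have h3 : M⁻¹ * Q a ≤ τ := (le_abs_self _).trans h1
    rw [inv_mul_le_iff₀ hM0] at h3
    have h4 : c * ‖a‖ * ‖a‖ ≤ N * B * τ * ‖a‖ := by
      have := hc a
      rw [hM] at h3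
      linarith only [h3, this]
    exact le_of_mul_le_mul_right h4 hn
  have h5 : ‖a‖ ≤ N * B * τ / c := by
    rw [le_div_iff₀ hc0]
    linarith
  calc ‖p x‖ ≤ N * K * ‖a‖ := hpx
    _ ≤ N * K * (N * B * τ / c) := by gcongr
    _ = N * K * (N * B) / c * τ := by ring
    _ ≤ (N * K * (N * B) / c + 1) * τ := by nlinarith

omit [FiniteDimensional ℝ V] in
lemma PolL_shift {k : ℕ} {p : Sp d → V} (h : PolL k p) (c : Sp d) :
    PolL k (fun y => p (c + y)) := by
  refine ⟨h.1.comp (contDiff_const.add contDiff_id), fun x => ?_⟩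
  rw [iteratedFDeriv_comp_add_left, h.2]

omit [FiniteDimensional ℝ V] in
lemma TFn_shift {J : ℕ} {N : ℝ} {g : Sp d → V} (h : TFn J N g) (c : Sp d) :
    TFn J N (fun y => g (c + y)) := by
  refine ⟨h.smooth.comp (contDiff_const.add contDiff_id), fun j hj x => ?_⟩
  rw [iteratedFDeriv_comp_add_left]
  exact h.bd j hj _

/-- the same for test functions supported near an arbitrary point -/
lemma polyc (d m J : ℕ) (V : Type*) [NormedAddCommGroup V] [InnerProductSpace ℝ V]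
    [FiniteDimensional ℝ V] (ρ : ℝ) :
    ∃ C : ℝ, 0 < C ∧ ∀ c : Sp d, ‖c‖ ≤ ρ → ∀ p : Sp d → V, PolL (m + 1) p → ∀ τ : ℝ, 0 ≤ τ →
      (∀ g : Sp d → V, TFn J 1 g → (∀ y, g y ≠ 0 → ‖y - c‖ < 1 / 4) →
        |∫ x, ⟪p x, g x⟫_ℝ| ≤ τ) → ∀ x, ‖x‖ ≤ ρ → ‖p x‖ ≤ C * τ := by
  obtain ⟨C, hC0, hC⟩ := poly0 d m J V (2 * ρ)
  refine ⟨C, hC0, fun c hc p hp τ hτ hg x hx => ?_⟩
  have h1 := hC (fun y => p (c + y)) (PolL_shift hp c) τ hτ (by
    intro g hgT hgs
    have h2 := hg (fun y => g (-c + y)) (TFn_shift hgT (-c)) (by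
      intro y hy
      have := hgs _ hy
      rwa [neg_add_eq_sub] at this)
    have h3 : ∫ x, ⟪p (c + x), g x⟫_ℝ = ∫ x, ⟪p x, g (-c + x)⟫_ℝ := by
      rw [← integral_add_left_eq_self (fun x => ⟪p x, g (-c + x)⟫_ℝ) c]
      simp
    rw [h3]
    exact h2) (x - c) (by
      have := norm_sub_le x c
      linarith)
  simpa using h1

end Poly

section Pair

variable {d : ℕ}

lemma DD_nn {E : Type} [NormedAddCommGroup E] [InnerProductSpace ℝ E] (b : Sp d → ℝ)
    (ε R s0 : ℝ) (hs0 : 0 < s0) (f : Sp d → E) (i : ℕ) (x : Sp d) {e : E} (he : ‖e‖ = 1) :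
    0 ≤ DD b ε R s0 f i x e := by
  have h1 : ∀ v : E, 0 ≤ ‖v‖ - ⟪v, e⟫_ℝ := by
    intro v
    have := real_inner_le_norm v e
    rw [he, mul_one] at this
    linarith
  unfold DD
  have h2 : 0 < lev s0 i := by
    unfold lev
    positivity
  refine mul_nonneg (by positivity) (add_nonneg (Finset.sum_nonneg fun l _ => mul_nonneg
    (by positivity) (integral_nonneg fun y => h1 _)) (mul_nonneg (by positivity)
      (integral_nonneg fun y => norm_nonneg _)))

/-- the pairing of f with a test field -/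
lemma pair (h1 : StmtMA) (h2 : StmtPE) (hd : 1 ≤ d) (M c ε : ℝ) (hε : 0 < ε) (hε1 : ε ≤ 1)
    (b : Sp d → ℝ) (hb : BaseKer 2 M c b) : ∃ C : ℝ, 0 < C ∧
    ∀ (E : Type) [NormedAddCommGroup E] [InnerProductSpace ℝ E] [FiniteDimensional ℝ E],
    ∀ f : Sp d → E, Continuous f → HasCompactSupport f → ∀ (R : ℝ), 5 ≤ R → ∀ (n : ℕ) (e : E),
    ‖e‖ = 1 → ∀ (S : Set (Sp d)), MeasurableSet S → ∀ (Φ : Sp d → E) (N : ℝ), 0 < N →
    TFn 2 N Φ → (∀ y, R - 2 ≤ ‖y‖ → Φ y = 0) → (∀ y z, Φ y ≠ 0 → ‖z - y‖ ≤ 1 → z ∈ S) →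
    |∫ y, ⟪f y, Φ y⟫_ℝ| ≤ C * N * ((∫ y in S, ‖fl b ε ((1 / 2) ^ n) f (n - 1) y‖) +
      DD b ε R ((1 / 2) ^ n) f n 0 e) := by
  obtain ⟨C1, hC1, H1⟩ := h1 d hd M c ε hε hε1 b hb
  obtain ⟨C2, hC2, H2⟩ := h2 d hd M c ε hε hε1 b hb
  refine ⟨C1 + 2 * C2, by positivity, ?_⟩
  intro E _ _ _ f hf hfs R hR n e he S hS Φ N hN hΦ hΦ0 hΦS
  have hDD : 0 ≤ DD b ε R ((1 / 2) ^ n) f n 0 e := DD_nn b ε R _ (by positivity) f n 0 he
  set D := DD b ε R ((1 / 2) ^ n) f n 0 e with hD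
  have hm0 : 0 ≤ ∫ y in S, ‖fl b ε ((1 / 2) ^ n) f (n - 1) y‖ :=
    integral_nonneg fun y => norm_nonneg _
  set Y : Sp d → E := fun y => N⁻¹ • Φ y with hY
  have hYc : ContDiff ℝ 2 Y := hΦ.smooth.const_smul _
  have hYd : ∀ j ≤ 2, ∀ y, ‖iteratedFDeriv ℝ j Y y‖ ≤ 1 := by
    intro j hj y
    have h3 : iteratedFDeriv ℝ j Y y = N⁻¹ • iteratedFDeriv ℝ j Φ y :=
      iteratedFDeriv_const_smul_apply ((hΦ.smooth.contDiffAt).of_le (by exact_mod_cast hj))
    rw [h3, norm_smul, norm_inv, Real.norm_of_nonneg hN.le, inv_mul_le_iff₀ hN, mul_one]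
    exact hΦ.bd j hj y
  have hY1 : ∀ y, ‖Y y‖ ≤ 1 := fun y => by
    have := hYd 0 (by norm_num) y
    rwa [norm_iteratedFDeriv_zero] at this
  have hY0 : ∀ y, R - 2 ≤ ‖y - 0‖ → Y y = 0 := fun y hy => by
    rw [sub_zero] at hy
    simp [hY, hΦ0 y hy]
  have hYS : ∀ y z, Y y ≠ 0 → ‖z - y‖ ≤ 1 → z ∈ S := by
    intro y z hy hz
    refine hΦS y z (fun h => hy ?_) hz
    simp [hY, h]
  set ζ : Sp d → ℝ := fun y => ⟪e, Y y⟫_ℝ with hζ
  have hζc : ContDiff ℝ 2 ζ := contDiff_const.inner ℝ hYc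
  have hζ1 : ∀ y, |ζ y| ≤ 1 := fun y => by
    have := abs_real_inner_le_norm e (Y y)
    rw [he, one_mul] at this
    exact this.trans (hY1 y)
  have hζd : ∀ y, ‖iteratedFDeriv ℝ 2 ζ y‖ ≤ 1 := fun y => by
    have h3 : ‖iteratedFDeriv ℝ 2 ((innerSL ℝ e) ∘ Y) y‖ ≤
        ‖innerSL ℝ e‖ * ‖iteratedFDeriv ℝ 2 Y y‖ :=
      (innerSL ℝ e).norm_iteratedFDeriv_comp_left hYc.contDiffAt le_rfl
    rw [innerSL_apply_norm, he, one_mul] at h3
    exact h3.trans (hYd 2 le_rfl y)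
  have hζ0 : ∀ y, R - 2 ≤ ‖y - 0‖ → ζ y = 0 := fun y hy => by
    simp [hζ, hY0 y hy]
  have hζS : ∀ y z, ζ y ≠ 0 → ‖z - y‖ ≤ 1 → z ∈ S := by
    intro y z hy hz
    refine hYS y z (fun h => hy ?_) hz
    simp [hζ, h]
  have h3 := (H1 E f hf hfs R hR n e he 0 S hS).1 ζ hζc hζ1 hζd hζ0 hζS
  have h4 := H2 E f hf hfs R (by linarith only [hR]) n e he 0 Y S hS hYc hY1 (hYd 2 le_rfl) hY0 hYS
  have h5 : ∀ y, ⟪f y, Φ y⟫_ℝ = N * (⟪f y, e⟫_ℝ * ζ y + ⟪f y - ⟪f y, e⟫_ℝ • e, Y y⟫_ℝ) := by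
    intro y
    have : Φ y = N • Y y := by
      simp only [hY]
      rw [smul_smul, mul_inv_cancel₀ hN.ne', one_smul]
    rw [this, real_inner_smul_right, inner_sub_left, real_inner_smul_left]
    ring
  have i1 : Integrable (fun y => ⟪f y, e⟫_ℝ * ζ y) :=
    ((hf.inner continuous_const).mul hζc.continuous).integrable_of_hasCompactSupport (by
      refine hfs.mono' (fun y hy => subset_closure ?_)
      intro h
      apply hy
      simp [h])
  have i2 : Integrable (fun y => ⟪f y - ⟪f y, e⟫_ℝ • e, Y y⟫_ℝ) :=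
    ((hf.sub ((hf.inner continuous_const).smul continuous_const)).inner
      hYc.continuous).integrable_of_hasCompactSupport (by
      refine hfs.mono' (fun y hy => subset_closure ?_)
      intro h
      apply hy
      simp [h])
  rw [integral_congr_ae (Filter.Eventually.of_forall h5), integral_const_mul,
    integral_add i1 i2, abs_mul, abs_of_pos hN]
  set mS := ∫ y in S, ‖fl b ε ((1 / 2) ^ n) f (n - 1) y‖ with hmS
  have h6 : Real.sqrt (mS * D) ≤ mS + D := by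
    rw [Real.sqrt_le_left (by positivity)]
    nlinarith only [hDD, hm0]
  have h7 := abs_add_le (∫ y, ⟪f y, e⟫_ℝ * ζ y) (∫ y, ⟪f y - ⟪f y, e⟫_ℝ • e, Y y⟫_ℝ)
  have h8 : C2 * (Real.sqrt (mS * D) + D) ≤ C2 * (mS + D + D) := by (clear * - h6 hC2; gcongr)
  have h9 : |(∫ y, ⟪f y, e⟫_ℝ * ζ y) + ∫ y, ⟪f y - ⟪f y, e⟫_ℝ • e, Y y⟫_ℝ| ≤
      (C1 + 2 * C2) * (mS + D) := by
    nlinarith [mul_nonneg hC2.le hm0]
  calc N * |(∫ y, ⟪f y, e⟫_ℝ * ζ y) + ∫ y, ⟪f y - ⟪f y, e⟫_ℝ • e, Y y⟫_ℝ|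
      ≤ N * ((C1 + 2 * C2) * (mS + D)) := by (clear * - h9 hN; gcongr)
    _ = (C1 + 2 * C2) * N * (mS + D) := by ring

end Pair

section Weight

variable {d : ℕ}

lemma nat_le (k : ℕ) : ((k : ℕ) : WithTop ℕ∞) ≤ ∞ := by exact_mod_cast le_top

lemma two_le : (2 : WithTop ℕ∞) ≤ ∞ := nat_le 2

lemma norm_smul_itF {F : Sp d → ℝ} (hF : ContDiff ℝ ∞ F) (a : ℝ) (j : ℕ) (y : Sp d) :
    ‖iteratedFDeriv ℝ j (fun y => a • F y) y‖ = |a| * ‖iteratedFDeriv ℝ j F y‖ := by
  have h3 := iteratedFDeriv_const_smul_apply (i := j) (a := a) (x := y)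
    (hF.contDiffAt.of_le (nat_le j))
  have h4 : (fun y => a • F y) = a • F := rfl
  rw [h4, h3, norm_smul, Real.norm_eq_abs]

lemma mul_d1 {F G : Sp d → ℝ} (hF : ContDiff ℝ ∞ F) (hG : ContDiff ℝ ∞ G) (y : Sp d) :
    ‖iteratedFDeriv ℝ 1 (fun y => F y * G y) y‖ ≤
      ‖iteratedFDeriv ℝ 0 F y‖ * ‖iteratedFDeriv ℝ 1 G y‖ +
      ‖iteratedFDeriv ℝ 1 F y‖ * ‖iteratedFDeriv ℝ 0 G y‖ := by
  have h := norm_iteratedFDeriv_mul_le hF hG y (n := 1) (nat_le 1)
  rw [Finset.sum_range_succ, Finset.sum_range_one] at h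
  have h' : ‖iteratedFDeriv ℝ 1 (fun y => F y * G y) y‖ ≤
      (Nat.choose 1 0 : ℝ) * ‖iteratedFDeriv ℝ 0 F y‖ * ‖iteratedFDeriv ℝ 1 G y‖ +
      (Nat.choose 1 1 : ℝ) * ‖iteratedFDeriv ℝ 1 F y‖ * ‖iteratedFDeriv ℝ 0 G y‖ := h
  rwa [Nat.choose_zero_right, Nat.choose_self, Nat.cast_one, one_mul, one_mul] at h'

lemma mul_d2 {F G : Sp d → ℝ} (hF : ContDiff ℝ ∞ F) (hG : ContDiff ℝ ∞ G) (y : Sp d) :
    ‖iteratedFDeriv ℝ 2 (fun y => F y * G y) y‖ ≤
      ‖iteratedFDeriv ℝ 0 F y‖ * ‖iteratedFDeriv ℝ 2 G y‖ +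
      2 * ‖iteratedFDeriv ℝ 1 F y‖ * ‖iteratedFDeriv ℝ 1 G y‖ +
      ‖iteratedFDeriv ℝ 2 F y‖ * ‖iteratedFDeriv ℝ 0 G y‖ := by
  have h := norm_iteratedFDeriv_mul_le hF hG y (n := 2) (nat_le 2)
  rw [Finset.sum_range_succ, Finset.sum_range_succ, Finset.sum_range_one] at h
  have h' : ‖iteratedFDeriv ℝ 2 (fun y => F y * G y) y‖ ≤
      (Nat.choose 2 0 : ℝ) * ‖iteratedFDeriv ℝ 0 F y‖ * ‖iteratedFDeriv ℝ 2 G y‖ +
      (Nat.choose 2 1 : ℝ) * ‖iteratedFDeriv ℝ 1 F y‖ * ‖iteratedFDeriv ℝ 1 G y‖ +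
      (Nat.choose 2 2 : ℝ) * ‖iteratedFDeriv ℝ 2 F y‖ * ‖iteratedFDeriv ℝ 0 G y‖ := h
  rwa [Nat.choose_zero_right, Nat.choose_self, Nat.choose_one_right, Nat.cast_one, one_mul,
    one_mul, Nat.cast_ofNat] at h'

lemma zR_contDiff {R : ℝ} (hR : 0 < R) : ContDiff ℝ ∞ (zR R : Sp d → ℝ) := by
  rw [contDiff_iff_contDiffAt]
  intro x
  by_cases hx : x = 0
  · have h : (zR R : Sp d → ℝ) =ᶠ[nhds x] fun _ => (1 : ℝ) := by
      filter_upwards [ball_mem_nhds x hR] with y hy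
      subst hx
      rw [mem_ball, dist_zero_right] at hy
      exact Real.smoothTransition.one_of_one_le (by linarith)
    exact contDiffAt_const.congr_of_eventuallyEq h
  · exact Real.smoothTransition.contDiffAt.comp x (contDiffAt_const.sub (contDiffAt_norm ℝ hx))

lemma zR_nn (R : ℝ) (x : Sp d) : 0 ≤ zR R x := Real.smoothTransition.nonneg _

lemma zR_le (R : ℝ) (x : Sp d) : zR R x ≤ 1 := Real.smoothTransition.le_one _

lemma zR_one {R : ℝ} {x : Sp d} (h : ‖x‖ ≤ R) : zR R x = 1 :=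
  Real.smoothTransition.one_of_one_le (by linarith)

lemma zR_zero {R : ℝ} {x : Sp d} (h : R + 1 ≤ ‖x‖) : zR R x = 0 :=
  Real.smoothTransition.zero_of_nonpos (by linarith)

lemma zR_cs {R : ℝ} : HasCompactSupport (zR R : Sp d → ℝ) := by
  refine HasCompactSupport.of_support_subset_isCompact (isCompact_closedBall 0 (R + 1)) ?_
  intro x hx
  rw [mem_closedBall, dist_zero_right]
  by_contra h
  exact hx (zR_zero (not_le.mp h).le)

lemma ht_contDiff (ν : Sp d) (c : ℝ) : ContDiff ℝ ∞ (ht ν c) :=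
  (contDiff_const.inner ℝ contDiff_id).sub contDiff_const

lemma ht_fderiv (ν : Sp d) (c : ℝ) : fderiv ℝ (ht ν c) = fun _ => innerSL ℝ ν := by
  funext y
  have h1 : HasFDerivAt (fun y : Sp d => (innerSL ℝ ν) y - c) (innerSL ℝ ν) y :=
    ((innerSL ℝ ν).hasFDerivAt (x := y)).sub_const c
  exact h1.fderiv

lemma ht_d1 {ν : Sp d} (hν : ‖ν‖ = 1) (c : ℝ) (y : Sp d) : ‖iteratedFDeriv ℝ 1 (ht ν c) y‖ = 1 := by
  rw [norm_iteratedFDeriv_one, ht_fderiv, innerSL_apply_norm, hν]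

lemma ht_d2 (ν : Sp d) (c : ℝ) (y : Sp d) : ‖iteratedFDeriv ℝ 2 (ht ν c) y‖ = 0 := by
  rw [← norm_iteratedFDeriv_fderiv, ht_fderiv, iteratedFDeriv_const_of_ne one_ne_zero]
  simp

lemma ht_lip {ν : Sp d} (hν : ‖ν‖ = 1) (c : ℝ) (y z : Sp d) :
    |ht ν c z - ht ν c y| ≤ ‖z - y‖ := by
  have h1 : ht ν c z - ht ν c y = ⟪ν, z - y⟫_ℝ := by
    unfold ht
    rw [inner_sub_right]
    ring
  rw [h1]
  have := abs_real_inner_le_norm ν (z - y)
  rwa [hν, one_mul] at this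

lemma ht_abs {ν : Sp d} (hν : ‖ν‖ = 1) (c : ℝ) (y : Sp d) : |ht ν c y| ≤ ‖y‖ + |c| := by
  unfold ht
  have h1 := abs_real_inner_le_norm ν y
  rw [hν, one_mul] at h1
  exact (abs_sub _ _).trans (by linarith)

/-- second derivatives of the weight -/
lemma weight (R0 : ℝ) (hR0 : 0 < R0) : ∃ K : ℝ, 1 ≤ K ∧ ∀ (ν : Sp d) (c : ℝ), ‖ν‖ = 1 →
    |c| ≤ 3 * R0 → (∀ y, zR R0 y * ht ν c y ^ 2 ≤ K) ∧
      ∀ y, ‖iteratedFDeriv ℝ 2 (fun y => zR R0 y * ht ν c y ^ 2) y‖ ≤ K := by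
  obtain ⟨B, hB0, hB⟩ := cs_bound (zR_contDiff (d := d) hR0) zR_cs 2
  set A : ℝ := 4 * R0 + 1 with hA
  have hA0 : 0 < A := by positivity
  have hA2 : 0 ≤ A ^ 2 + 4 * A + 2 := by positivity
  have hBA := mul_nonneg hB0 hA2
  refine ⟨1 + A ^ 2 + B * (A ^ 2 + 4 * A + 2), ?_, fun ν c hν hc => ⟨fun y => ?_,
      fun y => ?_⟩⟩
  · linarith only [hBA, sq_nonneg A]
  · rcases le_or_gt (R0 + 1) ‖y‖ with h | h
    · rw [zR_zero h, zero_mul]
      positivity
    · have h1 : |ht ν c y| ≤ A := (ht_abs hν c y).trans (by rw [hA]; linarith)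
      have h2 : ht ν c y ^ 2 ≤ A ^ 2 := sq_le_sq' (by linarith [(abs_le.mp h1).1])
        (abs_le.mp h1).2
      have h3 : zR R0 y * ht ν c y ^ 2 ≤ 1 * A ^ 2 :=
        mul_le_mul (zR_le _ _) h2 (sq_nonneg _) zero_le_one
      linarith
  · rcases lt_or_ge (R0 + 1) ‖y‖ with h | h
    · have h1 : (fun y => zR R0 y * ht ν c y ^ 2) =ᶠ[nhds y] fun _ => (0 : ℝ) := by
        filter_upwards [(isOpen_lt continuous_const continuous_norm).mem_nhds h] with z hz
        rw [zR_zero (le_of_lt hz), zero_mul]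
      rw [(h1.iteratedFDeriv ℝ 2).eq_of_nhds, iteratedFDeriv_fun_zero]
      simp only [Pi.zero_apply, norm_zero]
      positivity
    · have h1 : |ht ν c y| ≤ A := (ht_abs hν c y).trans (by rw [hA]; linarith)
      have hs : ContDiff ℝ ∞ (fun y => ht ν c y ^ 2) := (ht_contDiff ν c).pow 2
      have e0 : ‖iteratedFDeriv ℝ 0 (fun y => ht ν c y ^ 2) y‖ ≤ A ^ 2 := by
        rw [norm_iteratedFDeriv_zero, Real.norm_eq_abs, abs_pow]
        exact pow_le_pow_left₀ (abs_nonneg _) h1 2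
      have hpow : (fun y => ht ν c y ^ 2) = fun y => ht ν c y * ht ν c y := by
        funext z
        ring
      have e1 : ‖iteratedFDeriv ℝ 1 (fun y => ht ν c y ^ 2) y‖ ≤ 2 * A := by
        rw [hpow]
        refine (mul_d1 (ht_contDiff ν c) (ht_contDiff ν c) y).trans ?_
        rw [ht_d1 hν, norm_iteratedFDeriv_zero, Real.norm_eq_abs]
        linarith
      have e2 : ‖iteratedFDeriv ℝ 2 (fun y => ht ν c y ^ 2) y‖ ≤ 2 := by
        rw [hpow]
        refine (mul_d2 (ht_contDiff ν c) (ht_contDiff ν c) y).trans ?_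
        rw [ht_d1 hν, ht_d2, norm_iteratedFDeriv_zero, Real.norm_eq_abs]
        linarith
      refine (mul_d2 (zR_contDiff hR0) hs y).trans ?_
      have b0 := hB 0 (by norm_num) y
      have b1 := hB 1 (by norm_num) y
      have b2 := hB 2 (by norm_num) y
      have p0 := mul_le_mul b0 e2 (norm_nonneg _) hB0
      have p1 := mul_le_mul b1 e1 (norm_nonneg _) hB0
      have p2 := mul_le_mul b2 e0 (norm_nonneg _) hB0
      have p3 : B * 2 + 2 * (B * (2 * A)) + B * A ^ 2 = B * (A ^ 2 + 4 * A + 2) := by ring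
      have := sq_nonneg A
      linarith

/-- the mass far from a plane -/
lemma mass (h1 : StmtMA) (hd : 1 ≤ d) (M c0 ε : ℝ) (hε : 0 < ε) (hε1 : ε ≤ 1)
    (b : Sp d → ℝ) (hb : BaseKer 2 M c0 b) (R0 : ℝ) (hR0 : 20 ≤ R0) : ∃ C : ℝ, 0 < C ∧
    ∀ (E : Type) [NormedAddCommGroup E] [InnerProductSpace ℝ E] [FiniteDimensional ℝ E],
    ∀ f : Sp d → E, Continuous f → HasCompactSupport f → ∀ (R : ℝ), R0 + 10 ≤ R →
    ∀ (n : ℕ) (e : E), ‖e‖ = 1 → ∀ (ν : Sp d) (c : ℝ), ‖ν‖ = 1 → |c| ≤ 3 * R0 →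
    (∫ y in {y : Sp d | ‖y‖ ≤ R0 - 9 ∧ 3 ≤ |ht ν c y|},
      ‖fl b ε ((1 / 2) ^ n) f (n - 1) y‖) ≤
      C * bD b ε R0 R ((1 / 2) ^ n) f n 0 e ν c := by
  obtain ⟨C1, hC1, H1⟩ := h1 d hd M c0 ε hε hε1 b hb
  obtain ⟨K, hK1, hK⟩ := weight (d := d) R0 (by linarith)
  have hK0 : 0 < K := by linarith
  refine ⟨1 + C1 * K, by positivity, ?_⟩
  intro E _ _ _ f hf hfs R hR n e he ν c hν hc
  have hDD : 0 ≤ DD b ε R ((1 / 2) ^ n) f n 0 e := DD_nn b ε R _ (by positivity) f n 0 he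
  obtain ⟨hw1, hw2⟩ := hK ν c hν hc
  have hhc : Continuous (ht ν c) := (ht_contDiff ν c).continuous
  set S : Set (Sp d) := {y : Sp d | ‖y‖ ≤ R0 - 9 ∧ 3 ≤ |ht ν c y|} with hS
  have hSm : MeasurableSet S :=
    (isClosed_le continuous_norm continuous_const).measurableSet.inter
      (isClosed_le continuous_const hhc.abs).measurableSet
  have hsm : ContDiff ℝ ∞ (fun y => zR R0 y * ht ν c y ^ 2) :=
    (zR_contDiff (by linarith)).mul ((ht_contDiff ν c).pow 2)
  set H : Sp d → ℝ := fun y => K⁻¹ • (zR R0 y * ht ν c y ^ 2) with hH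
  have hHc : ContDiff ℝ 2 H := (hsm.const_smul K⁻¹).of_le two_le
  have h2 := (H1 E f hf hfs R (by linarith) n e he 0 S hSm).2 H K⁻¹ (by positivity)
    (inv_le_one_of_one_le₀ hK1) hHc
    (fun y => mul_nonneg (by positivity) (mul_nonneg (zR_nn _ _) (sq_nonneg _)))
    (fun y => by
      simp only [hH, smul_eq_mul]
      rw [inv_mul_le_iff₀ hK0, mul_one]
      exact hw1 y)
    (fun y => by
      rw [hH, norm_smul_itF hsm, abs_inv, abs_of_pos hK0, inv_mul_le_iff₀ hK0, mul_one]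
      exact hw2 y)
    (fun y hy => by
      rw [sub_zero] at hy
      simp only [hH, smul_eq_mul]
      rw [zR_zero (by linarith), zero_mul, mul_zero])
    (fun y z hy hz => by
      have h3 : ‖z‖ ≤ R0 := by
        have h4 : ‖z‖ ≤ ‖y‖ + ‖z - y‖ := by
          have := norm_add_le y (z - y)
          rwa [add_sub_cancel] at this
        have := hy.1
        linarith
      have h5 := (ht_lip hν c y z).trans hz
      have h6 : 1 ≤ |ht ν c z| := by
        have h7 := hy.2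
        have h8 : |ht ν c y| ≤ |ht ν c z| + |ht ν c z - ht ν c y| := by
          have := abs_sub_abs_le_abs_sub (ht ν c y) (ht ν c z)
          rw [abs_sub_comm] at this
          linarith
        linarith
      simp only [hH, smul_eq_mul]
      rw [zR_one h3, one_mul]
      have h7 : 1 ≤ ht ν c z ^ 2 := by
        rw [← sq_abs]
        nlinarith only [h6]
      have : 0 < K⁻¹ := by positivity
      nlinarith only [h7, this])
  have h3 : ∫ y, ⟪f y, e⟫_ℝ * H y = K⁻¹ * ∫ y, ⟪f y, e⟫_ℝ * (zR R0 y * ht ν c y ^ 2) := by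
    rw [← integral_const_mul]
    refine integral_congr_ae (Filter.Eventually.of_forall fun y => ?_)
    simp only [hH, smul_eq_mul]
    ring
  have h4 : bb R0 ((1 / 2) ^ n) f n 0 e ν c = ∫ y, ⟪f y, e⟫_ℝ * (zR R0 y * ht ν c y ^ 2) := by
    have hl : lev ((1 / 2 : ℝ) ^ n) n = 1 := by
      unfold lev
      rw [← mul_pow]
      norm_num
    unfold bb
    rw [hl]
    simp
  rw [h3, ← h4] at h2
  have h5 : bb R0 ((1 / 2) ^ n) f n 0 e ν c ≤ max 0 (bb R0 ((1 / 2) ^ n) f n 0 e ν c) :=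
    le_max_right _ _
  have h6 : 0 ≤ max 0 (bb R0 ((1 / 2) ^ n) f n 0 e ν c) := le_max_left _ _
  have h7 : 1 / K⁻¹ * (K⁻¹ * bb R0 ((1 / 2) ^ n) f n 0 e ν c) =
      bb R0 ((1 / 2) ^ n) f n 0 e ν c := by
    field_simp
  rw [h7, div_inv_eq_mul] at h2
  unfold bD
  linarith only [hDD, h2, h5, mul_nonneg (mul_nonneg hC1.le hK0.le) h6]

end Weight

end

end HU

open _root_.TG.HU in
theorem stmtHU (h : StmtTP) (h1 : StmtMA) (h2 : StmtPE) (_h3 : StmtZ) (h4 : StmtTQ) : StmtHU := by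
  intro d V E _ _ _ _ _ _ L n0 T hd hn0 hNS M c0 ε hε hε1 b hb R0 hR0
  obtain ⟨CT, hCT, HT⟩ := h d V E L n0 T hd hn0 hNS 2 (1 / 4) R0 (by norm_num) (by linarith)
  obtain ⟨CP, hCP, HP⟩ := pair h1 h2 hd M c0 ε hε hε1 b hb
  obtain ⟨CM, hCM, HM⟩ := mass h1 hd M c0 ε hε hε1 b hb R0 hR0
  obtain ⟨CQ, hCQ, HQ⟩ := polyc d n0 (2 + n0 + 1) V R0
  -- the common estimate
  have main : ∀ (R : ℝ), R0 + 10 ≤ R → ∀ (n : ℕ) (u : Sp d → V), TF u → ∀ e : E, ‖e‖ = 1 →
      ∀ (c1 c2 : Sp d) (r1 r2 : ℝ), 1 / 4 ≤ r1 → r1 ≤ 4 → 1 / 4 ≤ r2 → r2 ≤ 4 →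
        ‖c1‖ + r1 ≤ R0 - 10 → ‖c2‖ + r2 ≤ R0 - 10 → ∀ S : Set (Sp d), MeasurableSet S →
        (∀ y ∈ convexHull ℝ (closedBall c1 r1 ∪ closedBall c2 r2), ∀ z, ‖z - y‖ ≤ 1 → z ∈ S) →
        ∀ x, ‖x‖ ≤ R0 → ‖ATP n0 c1 r1 u x - ATP n0 c2 r2 u x‖ ≤
          CQ * (2 * CP * CT) *
            ((∫ y in S, ‖fl b ε ((1 / 2) ^ n) (fo L u) (n - 1) y‖) +
              DD b ε R ((1 / 2) ^ n) (fo L u) n 0 e) := by
    intro R hR n u hu e he c1 c2 r1 r2 hr1 hr1' hr2 hr2' hc1 hc2 S hS hK x hx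
    have hfc : Continuous (fo L u) := L.continuous.comp (hu.smooth.continuous_fderiv (by simp))
    have hfs : HasCompactSupport (fo L u) := by
      have h5 : HasCompactSupport (fderiv ℝ u) := hu.supp.fderiv ℝ
      exact h5.comp_left (g := L) (map_zero L)
    have hD0 : 0 ≤ DD b ε R ((1 / 2) ^ n) (fo L u) n 0 e :=
      DD_nn b ε R _ (by positivity) _ n 0 he
    have hm0 : 0 ≤ ∫ y in S, ‖fl b ε ((1 / 2) ^ n) (fo L u) (n - 1) y‖ :=
      integral_nonneg fun y => norm_nonneg _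
    set X := (∫ y in S, ‖fl b ε ((1 / 2) ^ n) (fo L u) (n - 1) y‖) +
      DD b ε R ((1 / 2) ^ n) (fo L u) n 0 e with hX
    have hX0 : 0 ≤ X := add_nonneg hm0 hD0
    have q1 := h4 d V n0 u hd hu.smooth c1 r1 (by linarith)
    have q2 := h4 d V n0 u hd hu.smooth c2 r2 (by linarith)
    have hp : PolL (n0 + 1) (fun y => ATP n0 c1 r1 u y - ATP n0 c2 r2 u y) :=
      (PS d n0 V).sub_mem (x := ATP n0 c1 r1 u) (y := ATP n0 c2 r2 u) ⟨q1.1, q1.2.1⟩
        ⟨q2.1, q2.2.1⟩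
    have hKb : convexHull ℝ (closedBall c1 r1 ∪ closedBall c2 r2) ⊆
        closedBall (0 : Sp d) (R0 - 10) := by
      refine convexHull_min (union_subset ?_ ?_) (convex_closedBall _ _)
      · exact closedBall_subset_closedBall' (by rw [dist_zero_right]; linarith)
      · exact closedBall_subset_closedBall' (by rw [dist_zero_right]; linarith)
    have h9 : CQ * (2 * CP * CT) * X = CQ * (2 * CP * CT * X) := by ring
    rw [h9]
    refine HQ c1 (by linarith) _ hp (2 * CP * CT * X) (by positivity) ?_ x hx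
    intro g hg hgs
    have hgt : tsupport g ⊆ closedBall c1 (1 / 4) := by
      refine closure_minimal (fun y hy => ?_) isClosed_closedBall
      rw [mem_closedBall, dist_eq_norm]
      exact (hgs y hy).le
    have hgc : HasCompactSupport g :=
      HasCompactSupport.of_support_subset_isCompact (isCompact_closedBall c1 (1 / 4))
        (subset_closure.trans hgt)
    have hg0 : ∀ y, R0 ≤ ‖y‖ → g y = 0 := by
      intro y hy
      by_contra hcon
      have h5 := hgs y hcon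
      have h6 : ‖y‖ ≤ ‖c1‖ + ‖y - c1‖ := by
        have := norm_add_le c1 (y - c1)
        rwa [add_sub_cancel] at this
      linarith only [hr1, hc1, hy, h5, h6]
    obtain ⟨Φ1, hΦ1, hΦ1s, hΦ1i⟩ := HT c1 r1 (by linarith) hr1 (by linarith) g 1 hg hg0
    obtain ⟨Φ2, hΦ2, hΦ2s, hΦ2i⟩ := HT c2 r2 (by linarith) hr2 (by linarith) g 1 hg hg0
    have s1 : ∀ y, Φ1 y ≠ 0 → y ∈ convexHull ℝ (closedBall c1 r1 ∪ closedBall c2 r2) := by
      intro y hy
      refine convexHull_mono (union_subset ?_ subset_union_left) (hΦ1s y hy)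
      exact (hgt.trans (closedBall_subset_closedBall hr1)).trans subset_union_left
    have s2 : ∀ y, Φ2 y ≠ 0 → y ∈ convexHull ℝ (closedBall c1 r1 ∪ closedBall c2 r2) := by
      intro y hy
      refine convexHull_mono (union_subset ?_ subset_union_right) (hΦ2s y hy)
      exact (hgt.trans (closedBall_subset_closedBall hr1)).trans subset_union_left
    have b1 := HP E (fo L u) hfc hfs R (by linarith) n e he S hS Φ1 (CT * 1) (by positivity) hΦ1
      (fun y hy => by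
        by_contra hcon
        have := hKb (s1 y hcon)
        rw [mem_closedBall, dist_zero_right] at this
        linarith) (fun y z hy hz => hK y (s1 y hy) z hz)
    have b2 := HP E (fo L u) hfc hfs R (by linarith) n e he S hS Φ2 (CT * 1) (by positivity) hΦ2
      (fun y hy => by
        by_contra hcon
        have := hKb (s2 y hcon)
        rw [mem_closedBall, dist_zero_right] at this
        linarith) (fun y z hy hz => hK y (s2 y hy) z hz)
    have e1 := hΦ1i u hu.smooth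
    have e2 := hΦ2i u hu.smooth
    have ci : ∀ w : Sp d → V, Continuous w → Integrable (fun y => ⟪w y, g y⟫_ℝ) := by
      intro w hw
      refine (hw.inner hg.smooth.continuous).integrable_of_hasCompactSupport ?_
      refine hgc.mono' (fun y hy => subset_closure ?_)
      intro h5
      apply hy
      simp [h5]
    have h5 : ∫ y, ⟪ATP n0 c1 r1 u y - ATP n0 c2 r2 u y, g y⟫_ℝ =
        (∫ y, ⟪fo L u y, Φ2 y⟫_ℝ) - ∫ y, ⟪fo L u y, Φ1 y⟫_ℝ := by
      rw [← e1, ← e2, ← integral_sub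
        (ci (fun y => u y - ATP n0 c2 r2 u y) (hu.smooth.continuous.sub q2.1.continuous))
        (ci (fun y => u y - ATP n0 c1 r1 u y) (hu.smooth.continuous.sub q1.1.continuous))]
      refine integral_congr_ae (Filter.Eventually.of_forall fun y => ?_)
      simp only [inner_sub_left]
      ring
    rw [h5]
    have h6 := abs_sub (∫ y, ⟪fo L u y, Φ2 y⟫_ℝ) (∫ y, ⟪fo L u y, Φ1 y⟫_ℝ)
    rw [mul_one] at b1 b2
    linarith only [b1, b2, h6]
  have hl : ∀ n : ℕ, lev ((1 / 2 : ℝ) ^ n) n = 1 := fun n => by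
    unfold lev
    rw [← mul_pow]
    norm_num
  refine ⟨CQ * (2 * CP * CT) * (CM + 1), by positivity, ?_⟩
  intro R hR n u hu e he c1 c2 r1 r2 hr1 hr1' hr2 hr2' hc1 hc2
  have hfc : Continuous (fo L u) := L.continuous.comp (hu.smooth.continuous_fderiv (by simp))
  have hfs : HasCompactSupport (fo L u) := by
    have h5 : HasCompactSupport (fderiv ℝ u) := hu.supp.fderiv ℝ
    exact h5.comp_left (g := L) (map_zero L)
  have hD0 : 0 ≤ DD b ε R ((1 / 2) ^ n) (fo L u) n 0 e :=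
    DD_nn b ε R _ (by positivity) _ n 0 he
  have hKb : convexHull ℝ (closedBall c1 r1 ∪ closedBall c2 r2) ⊆
      closedBall (0 : Sp d) (R0 - 10) := by
    refine convexHull_min (union_subset ?_ ?_) (convex_closedBall _ _)
    · exact closedBall_subset_closedBall' (by rw [dist_zero_right]; linarith)
    · exact closedBall_subset_closedBall' (by rw [dist_zero_right]; linarith)
  have hnz : ∀ y z : Sp d, ‖z - y‖ ≤ 1 → ‖z‖ ≤ ‖y‖ + 1 := by
    intro y z hz
    have := norm_add_le y (z - y)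
    rw [add_sub_cancel] at this
    linarith
  refine ⟨fun x hx => ?_, fun ν c hν hc hK x hx => ?_⟩
  · have h5 := main R hR n u hu e he c1 c2 r1 r2 hr1 hr1' hr2 hr2' hc1 hc2 (ball 0 R0)
      measurableSet_ball (fun y hy z hz => by
        have h6 := hKb hy
        rw [mem_closedBall, dist_zero_right] at h6
        rw [mem_ball, dist_zero_right]
        have := hnz y z hz
        linarith) x hx
    have h6 : ma b ε R0 ((1 / 2) ^ n) (fo L u) n 0 =
        ∫ y in ball (0 : Sp d) R0, ‖fl b ε ((1 / 2) ^ n) (fo L u) (n - 1) y‖ := by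
      unfold ma
      rw [hl]
      simp
    have h7 : 0 ≤ ma b ε R0 ((1 / 2) ^ n) (fo L u) n 0 := by
      rw [h6]
      exact integral_nonneg fun y => norm_nonneg _
    rw [← h6] at h5
    refine h5.trans ?_
    have h8 : CQ * (2 * CP * CT) * 1 ≤ CQ * (2 * CP * CT) * (CM + 1) := by
      gcongr
      linarith
    have h9 := mul_le_mul_of_nonneg_right h8 (add_nonneg h7 hD0)
    rwa [mul_one] at h9
  · have h5 := main R hR n u hu e he c1 c2 r1 r2 hr1 hr1' hr2 hr2' hc1 hc2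
      {y : Sp d | ‖y‖ ≤ R0 - 9 ∧ 3 ≤ |ht ν c y|}
      ((isClosed_le continuous_norm continuous_const).measurableSet.inter
        (isClosed_le continuous_const (ht_contDiff ν c).continuous.abs).measurableSet)
      (fun y hy z hz => by
        have h6 := hKb hy
        rw [mem_closedBall, dist_zero_right] at h6
        have h7 := hnz y z hz
        have h8 := hK y hy
        have h9 := (ht_lip hν c y z).trans hz
        refine ⟨by linarith, ?_⟩
        have h10 := abs_sub_abs_le_abs_sub (ht ν c y) (ht ν c z)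
        rw [abs_sub_comm] at h10
        linarith) x hx
    have h6 := HM E (fo L u) hfc hfs R hR n e he ν c hν hc
    have h7 : DD b ε R ((1 / 2) ^ n) (fo L u) n 0 e ≤
        bD b ε R0 R ((1 / 2) ^ n) (fo L u) n 0 e ν c := by
      unfold bD
      linarith [le_max_left 0 (bb R0 ((1 / 2) ^ n) (fo L u) n 0 e ν c)]
    refine h5.trans ?_
    have h8 : CQ * (2 * CP * CT) * (CM + 1) * bD b ε R0 R ((1 / 2) ^ n) (fo L u) n 0 e ν c =
        CQ * (2 * CP * CT) * (CM * bD b ε R0 R ((1 / 2) ^ n) (fo L u) n 0 e ν c +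
          bD b ε R0 R ((1 / 2) ^ n) (fo L u) n 0 e ν c) := by ring
    rw [h8]
    (clear * - h6 h7 hCQ hCP hCT; gcongr)

open _root_.TG.HU in
theorem stmtJC (h : StmtHU) : StmtJC := by
  intro d V E _ _ _ _ _ _ L n0 T hd hn0 hNS M c0 ε hε hε1 b hb R0 hR0
  obtain ⟨C, hC, H⟩ := h d V E L n0 T hd hn0 hNS M c0 ε hε hε1 b hb R0 (by linarith)
  refine ⟨2 * C, by positivity, ?_⟩
  intro R hR n u hu e he ν q q' hν hqq hq hq' x hx
  have hnv : ∀ (p : Sp d) (t : ℝ), 0 ≤ t → ‖p‖ ≤ R0 / 2 → ‖p + t • ν‖ ≤ R0 / 2 + t ∧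
      ‖p - t • ν‖ ≤ R0 / 2 + t := by
    intro p t ht0 hp
    have h1 : ‖t • ν‖ = t := by rw [norm_smul, hν, mul_one, Real.norm_of_nonneg ht0]
    have h2 := norm_add_le p (t • ν)
    have h3 := norm_sub_le p (t • ν)
    exact ⟨by linarith, by linarith⟩
  have hc : |⟪ν, q⟫_ℝ| ≤ 3 * R0 := by
    have := abs_real_inner_le_norm ν q
    rw [hν, one_mul] at this
    linarith
  have hνν : ⟪ν, ν⟫_ℝ = 1 := by rw [real_inner_self_eq_norm_sq, hν, one_pow]
  -- heights
  have up : ∀ (p : Sp d) (t r : ℝ), ⟪ν, p⟫_ℝ = ⟪ν, q⟫_ℝ → 5 + r ≤ t →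
      closedBall (p + t • ν) r ⊆ {y | 5 ≤ ht ν ⟪ν, q⟫_ℝ y} := by
    intro p t r hp htr y hy
    rw [mem_closedBall, dist_eq_norm] at hy
    have h1 := (abs_le.mp (ht_lip hν ⟪ν, q⟫_ℝ (p + t • ν) y)).1
    have h2 : ht ν ⟪ν, q⟫_ℝ (p + t • ν) = t := by
      unfold ht
      rw [inner_add_right, real_inner_smul_right, hνν, hp]
      ring
    show 5 ≤ ht ν ⟪ν, q⟫_ℝ y
    linarith
  have dn : ∀ (p : Sp d) (t r : ℝ), ⟪ν, p⟫_ℝ = ⟪ν, q⟫_ℝ → 5 + r ≤ t →
      closedBall (p - t • ν) r ⊆ {y | ht ν ⟪ν, q⟫_ℝ y ≤ -5} := by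
    intro p t r hp htr y hy
    rw [mem_closedBall, dist_eq_norm] at hy
    have h1 := (abs_le.mp (ht_lip hν ⟪ν, q⟫_ℝ (p - t • ν) y)).2
    have h2 : ht ν ⟪ν, q⟫_ℝ (p - t • ν) = -t := by
      unfold ht
      rw [inner_sub_right, real_inner_smul_right, hνν, hp]
      ring
    show ht ν ⟪ν, q⟫_ℝ y ≤ -5
    linarith
  have cup : Convex ℝ {y | 5 ≤ ht ν ⟪ν, q⟫_ℝ y} := by
    have h1 : {y | 5 ≤ ht ν ⟪ν, q⟫_ℝ y} = {y | 5 + ⟪ν, q⟫_ℝ ≤ (innerSL ℝ ν) y} := by
      ext y
      simp only [mem_ofPred_eq, ht, innerSL_apply_apply]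
      constructor <;> intro h <;> linarith
    rw [h1]
    exact convex_halfSpace_ge (innerSL ℝ ν).isLinear _
  have cdn : Convex ℝ {y | ht ν ⟪ν, q⟫_ℝ y ≤ -5} := by
    have h1 : {y | ht ν ⟪ν, q⟫_ℝ y ≤ -5} = {y | (innerSL ℝ ν) y ≤ -5 + ⟪ν, q⟫_ℝ} := by
      ext y
      simp only [mem_ofPred_eq, ht, innerSL_apply_apply]
      constructor <;> intro h <;> linarith
    rw [h1]
    exact convex_halfSpace_le (innerSL ℝ ν).isLinear _
  have gen : ∀ (t r : ℝ), 5 + r ≤ t → t + r ≤ 14 → 1 / 4 ≤ r → r ≤ 4 →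
      ‖(ATP n0 (q' + t • ν) r u x - ATP n0 (q' - t • ν) r u x) - JJ n0 ν q 1 u x‖ ≤
        2 * C * bD b ε R0 R ((1 / 2) ^ n) (fo L u) n 0 e ν ⟪ν, q⟫_ℝ := by
    intro t r ht1 ht2 hr1 hr2
    have a1 := (H R hR n u hu e he (q' + t • ν) (q + (6 : ℝ) • ν) r 1 hr1 hr2 (by norm_num)
      (by norm_num) (by linarith only [hR0, ht2, (hnv q' t (by linarith) hq').1])
      (by linarith [(hnv q 6 (by norm_num) hq).1])).2 ν ⟪ν, q⟫_ℝ hν hc (fun y hy => by
        have h1 := convexHull_min (union_subset (up q' t r hqq.symm ht1)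
          (up q 6 1 rfl (by norm_num))) cup hy
        have h2 : 5 ≤ ht ν ⟪ν, q⟫_ℝ y := h1
        have := le_abs_self (ht ν ⟪ν, q⟫_ℝ y)
        linarith) x hx
    have a2 := (H R hR n u hu e he (q' - t • ν) (q - (6 : ℝ) • ν) r 1 hr1 hr2 (by norm_num)
      (by norm_num) (by linarith only [hR0, ht2, (hnv q' t (by linarith) hq').2])
      (by linarith [(hnv q 6 (by norm_num) hq).2])).2 ν ⟪ν, q⟫_ℝ hν hc (fun y hy => by
        have h1 := convexHull_min (union_subset (dn q' t r hqq.symm ht1)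
          (dn q 6 1 rfl (by norm_num))) cdn hy
        have h2 : ht ν ⟪ν, q⟫_ℝ y ≤ -5 := h1
        have := neg_le_abs (ht ν ⟪ν, q⟫_ℝ y)
        linarith) x hx
    have h3 : (ATP n0 (q' + t • ν) r u x - ATP n0 (q' - t • ν) r u x) - JJ n0 ν q 1 u x =
        (ATP n0 (q' + t • ν) r u x - ATP n0 (q + (6 : ℝ) • ν) 1 u x) -
        (ATP n0 (q' - t • ν) r u x - ATP n0 (q - (6 : ℝ) • ν) 1 u x) := by
      unfold JJ
      rw [mul_one]
      abel
    rw [h3]
    refine (norm_sub_le _ _).trans ?_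
    linarith
  refine ⟨?_, ?_, ?_⟩
  · have a1 := (H R hR n u hu e he (q + (6 : ℝ) • ν) (q - (6 : ℝ) • ν) 1 1 (by norm_num)
      (by norm_num) (by norm_num) (by norm_num) (by linarith [(hnv q 6 (by norm_num) hq).1])
      (by linarith [(hnv q 6 (by norm_num) hq).2])).1 x hx
    have hD0 : 0 ≤ DD b ε R ((1 / 2) ^ n) (fo L u) n 0 e :=
      DD_nn b ε R _ (by positivity) _ n 0 he
    have hm0 : 0 ≤ ma b ε R0 ((1 / 2) ^ n) (fo L u) n 0 := by
      unfold ma lev
      exact mul_nonneg (by positivity) (integral_nonneg fun y => norm_nonneg _)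
    have h5 : JJ n0 ν q 1 u x = ATP n0 (q + (6 : ℝ) • ν) 1 u x - ATP n0 (q - (6 : ℝ) • ν) 1 u x := by
      unfold JJ
      rw [mul_one]
    rw [h5]
    refine a1.trans ?_
    have := mul_nonneg hC.le (add_nonneg hm0 hD0)
    linarith
  · have h5 := gen 6 1 (by norm_num) (by norm_num) (by norm_num) (by norm_num)
    have h6 : JJ n0 ν q' 1 u x =
        ATP n0 (q' + (6 : ℝ) • ν) 1 u x - ATP n0 (q' - (6 : ℝ) • ν) 1 u x := by
      unfold JJ
      rw [mul_one]
    rw [h6]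
    exact h5
  · have h5 := gen 12 2 (by norm_num) (by norm_num) (by norm_num) (by norm_num)
    have h6 : JJ n0 ν q' 2 u x =
        ATP n0 (q' + (12 : ℝ) • ν) 2 u x - ATP n0 (q' - (12 : ℝ) • ν) 2 u x := by
      unfold JJ
      norm_num
    rw [h6]
    exact h5

end TG


end

section

/-!
# Trace inequality, general operators: module SS, part 1

Uniform bounds for the cut-offs zR and cu1, functions of the projection to a plane, Taylor's
formula of first order at a plane.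
-/

open MeasureTheory Metric Set TrI
open scoped InnerProductSpace ContDiff

namespace TG

namespace SS

noncomputable section

variable {d : ℕ}

/-! ## a smooth modification of the norm -/

/-- smooth, equal to the norm off the unit ball, at most one in the unit ball -/
def nn (y : Sp d) : ℝ := Real.smoothTransition (2 * ‖y‖ ^ 2 - 1) * ‖y‖

lemma nn_smooth : ContDiff ℝ ∞ (nn : Sp d → ℝ) := by
  rw [contDiff_iff_contDiffAt]
  intro x
  by_cases hx : x = 0
  · subst hx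
    have h1 : (nn : Sp d → ℝ) =ᶠ[nhds 0] fun _ => 0 := by
      filter_upwards [ball_mem_nhds (0 : Sp d) (by norm_num : (0 : ℝ) < 1 / 2)] with y hy
      rw [mem_ball, dist_zero_right] at hy
      have h2 : ‖y‖ ^ 2 ≤ 1 / 2 := by nlinarith only [hy, norm_nonneg y]
      unfold nn
      rw [Real.smoothTransition.zero_of_nonpos (by linarith), zero_mul]
    exact contDiffAt_const.congr_of_eventuallyEq h1
  · unfold nn
    exact (Real.smoothTransition.contDiffAt.comp x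
      ((contDiffAt_const.mul (contDiff_norm_sq ℝ).contDiffAt).sub contDiffAt_const)).mul
      (contDiffAt_norm ℝ hx)

lemma nn_le (y : Sp d) : nn y ≤ ‖y‖ :=
  mul_le_of_le_one_left (norm_nonneg _) (Real.smoothTransition.le_one _)

lemma nn_nonneg (y : Sp d) : 0 ≤ nn y :=
  mul_nonneg (Real.smoothTransition.nonneg _) (norm_nonneg _)

lemma nn_eq {y : Sp d} (h : 1 ≤ ‖y‖) : nn y = ‖y‖ := by
  unfold nn
  rw [Real.smoothTransition.one_of_one_le (by nlinarith), one_mul]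

lemma zR_nn {ρ : ℝ} (hρ : 1 ≤ ρ) (y : Sp d) :
    zR ρ y = Real.smoothTransition (ρ + 1 + -nn y) := by
  rcases le_total ‖y‖ 1 with h | h
  · have h1 := nn_le y
    unfold zR
    rw [Real.smoothTransition.one_of_one_le (by linarith),
      Real.smoothTransition.one_of_one_le (by linarith)]
  · rw [nn_eq h]
    rfl

lemma itF_const_add {k : ℕ} (hk : 1 ≤ k) (a : ℝ) {g : Sp d → ℝ} (hg : ContDiff ℝ k g) (y : Sp d) :
    iteratedFDeriv ℝ k (fun y => a + g y) y = iteratedFDeriv ℝ k g y := by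
  have h1 : iteratedFDeriv ℝ k (fun y => a + g y) y =
      iteratedFDeriv ℝ k (fun _ : Sp d => a) y + iteratedFDeriv ℝ k g y :=
    fun_iteratedFDeriv_add_apply contDiffAt_const hg.contDiffAt
  rw [h1, iteratedFDeriv_const_of_ne (by omega)]
  simp

/-- composition with a smooth function of one variable -/
lemma comp_bd {φ : ℝ → ℝ} {g : Sp d → ℝ} (hφ : ContDiff ℝ 2 φ) (hg : ContDiff ℝ 2 g) (y : Sp d)
    {A B : ℝ} (hA : ∀ i ≤ 2, ‖iteratedFDeriv ℝ i φ (g y)‖ ≤ A)
    (hB : 1 ≤ B) (hB' : ∀ i, 1 ≤ i → i ≤ 2 → ‖iteratedFDeriv ℝ i g y‖ ≤ B) {j : ℕ} (hj : j ≤ 2) :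
    ‖iteratedFDeriv ℝ j (fun y => φ (g y)) y‖ ≤ 2 * A * B ^ 2 := by
  have hA0 : 0 ≤ A := (norm_nonneg _).trans (hA 0 (by norm_num))
  have h1 := norm_iteratedFDeriv_comp_le (n := j) (N := 2) hφ hg (by exact_mod_cast hj) y
    (C := A) (D := B) (fun i hi => hA i (hi.trans hj))
    (fun i hi hi' => (hB' i hi (hi'.trans hj)).trans (le_self_pow₀ hB (by omega)))
  refine h1.trans ?_
  have h2 : ((Nat.factorial j : ℕ) : ℝ) ≤ 2 := by
    interval_cases j <;> norm_num [Nat.factorial]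
  have h3 : B ^ j ≤ B ^ 2 := pow_le_pow_right₀ hB hj
  have h4 : (0 : ℝ) ≤ B ^ j := by positivity
  calc ((Nat.factorial j : ℕ) : ℝ) * A * B ^ j ≤ 2 * A * B ^ j := by gcongr
    _ ≤ 2 * A * B ^ 2 := by gcongr

lemma ev_zero {F : Type*} [NormedAddCommGroup F] [NormedSpace ℝ F] {g : Sp d → F} {ρ : ℝ}
    (h : ∀ y, ρ < ‖y‖ → g y = 0) {y : Sp d} (hy : ρ < ‖y‖) (j : ℕ) :
    iteratedFDeriv ℝ j g y = 0 := by
  have h1 : g =ᶠ[nhds y] fun _ => 0 := by
    have : {z : Sp d | ρ < ‖z‖} ∈ nhds y := by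
      refine IsOpen.mem_nhds ?_ hy
      exact isOpen_lt continuous_const (by fun_prop)
    filter_upwards [this] with z hz
    exact h z hz
  rw [(h1.iteratedFDeriv ℝ j).eq_of_nhds]
  rw [show (fun _ : Sp d => (0 : F)) = 0 from rfl]
  simp

/-- the cut-offs zR are uniformly bounded in C^2 -/
lemma TFn_zR (R : ℝ) : ∃ C : ℝ, 0 < C ∧ ∀ ρ, 1 ≤ ρ → ρ ≤ R → TFn 2 C (zR ρ : Sp d → ℝ) := by
  have hP : ContDiff ℝ 2 (fun y : Sp d => -nn y) :=
    (show ContDiff ℝ 2 (nn : Sp d → ℝ) by exact_mod_cast contDiff_infty.1 nn_smooth 2).neg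
  have hφ : ContDiff ℝ 2 Real.smoothTransition := Real.smoothTransition.contDiff (n := 2)
  have h1 : ∀ i : ℕ, i ≤ 2 → ∃ A : ℝ, ∀ t ∈ Icc (-(R + 2)) (R + 2),
      ‖iteratedFDeriv ℝ i Real.smoothTransition t‖ ≤ A := fun i hi =>
    isCompact_Icc.exists_bound_of_continuousOn
      (hφ.continuous_iteratedFDeriv (by exact_mod_cast hi)).continuousOn
  have h2 : ∀ i : ℕ, i ≤ 2 → ∃ A : ℝ, ∀ y ∈ closedBall (0 : Sp d) (R + 2),
      ‖iteratedFDeriv ℝ i (fun y : Sp d => -nn y) y‖ ≤ A := fun i hi =>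
    (isCompact_closedBall _ _).exists_bound_of_continuousOn
      (hP.continuous_iteratedFDeriv (by exact_mod_cast hi)).continuousOn
  obtain ⟨A0, hA0⟩ := h1 0 (by norm_num)
  obtain ⟨A1, hA1⟩ := h1 1 (by norm_num)
  obtain ⟨A2, hA2⟩ := h1 2 le_rfl
  obtain ⟨B1, hB1⟩ := h2 1 (by norm_num)
  obtain ⟨B2, hB2⟩ := h2 2 le_rfl
  set A := |A0| + |A1| + |A2| + 1 with hA
  set B := |B1| + |B2| + 1 with hB
  have hAp : 0 < A := by positivity
  have hBp : 1 ≤ B := by
    have := abs_nonneg B1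
    have := abs_nonneg B2
    linarith
  refine ⟨2 * A * B ^ 2, by positivity, fun ρ h1ρ hρR => ?_⟩
  have hz : (zR ρ : Sp d → ℝ) = fun y => Real.smoothTransition (ρ + 1 + -nn y) :=
    funext (zR_nn h1ρ)
  have hgs : ContDiff ℝ 2 (fun y : Sp d => ρ + 1 + -nn y) := contDiff_const.add hP
  refine ⟨by exact_mod_cast contDiff_infty.1 (TU.zR_smooth (by linarith : 0 < ρ)) 2,
    fun j hj y => ?_⟩
  by_cases hy : ‖y‖ ≤ ρ + 1
  · rw [hz]
    have hmem : ρ + 1 + -nn y ∈ Icc (-(R + 2)) (R + 2) := by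
      have := nn_nonneg y
      have := nn_le y
      constructor <;> linarith
    have hyB : y ∈ closedBall (0 : Sp d) (R + 2) := by
      rw [mem_closedBall, dist_zero_right]
      linarith
    refine comp_bd hφ hgs y (fun i hi => ?_) hBp (fun i hi1 hi2 => ?_) hj
    · interval_cases i
      · exact (hA0 _ hmem).trans (by
          linarith [le_abs_self A0, abs_nonneg A1, abs_nonneg A2])
      · exact (hA1 _ hmem).trans (by
          linarith [le_abs_self A1, abs_nonneg A0, abs_nonneg A2])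
      · exact (hA2 _ hmem).trans (by
          linarith [le_abs_self A2, abs_nonneg A1, abs_nonneg A0])
    · rw [itF_const_add hi1 (ρ + 1) (hP.of_le (by exact_mod_cast hi2))]
      interval_cases i
      · exact (hB1 _ hyB).trans (by linarith [le_abs_self B1, abs_nonneg B2])
      · exact (hB2 _ hyB).trans (by linarith [le_abs_self B2, abs_nonneg B1])
  · push Not at hy
    rw [ev_zero (ρ := ρ + 1) (fun y hy => TU.zR_zero hy.le) hy j, norm_zero]
    positivity

/-! ## functions of the height -/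

lemma ht_deriv {ν : Sp d} (hν : ‖ν‖ = 1) (c : ℝ) (y : Sp d) :
    ∀ j : ℕ, 1 ≤ j → ‖iteratedFDeriv ℝ j (ht ν c) y‖ ≤ 1
  | 0 => fun h => by omega
  | 1 => fun _ => by
    have h2 : HasFDerivAt (ht ν c) (innerSL ℝ ν) y := by
      unfold ht
      exact ((innerSL ℝ ν).hasFDerivAt (x := y)).sub_const c
    rw [norm_iteratedFDeriv_one, h2.fderiv, innerSL_apply_norm, hν]
  | j + 2 => fun _ => by
    have h1 : fderiv ℝ (ht ν c) = fun _ => innerSL ℝ ν := by
      funext z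
      have h2 : HasFDerivAt (ht ν c) (innerSL ℝ ν) z := by
        unfold ht
        exact ((innerSL ℝ ν).hasFDerivAt (x := z)).sub_const c
      exact h2.fderiv
    rw [← norm_iteratedFDeriv_fderiv, h1, iteratedFDeriv_const_of_ne (Nat.succ_ne_zero j)]
    simp

lemma TFn_comp_ht {φ : ℝ → ℝ} (hφ : ContDiff ℝ 2 φ) (hc : HasCompactSupport φ) :
    ∃ C : ℝ, 0 < C ∧ ∀ (ν : Sp d) (c : ℝ), ‖ν‖ = 1 → TFn 2 C (fun y => φ (ht ν c y)) := by
  have h1 : ∀ i : ℕ, i ≤ 2 → ∃ A : ℝ, ∀ t, ‖iteratedFDeriv ℝ i φ t‖ ≤ A := fun i hi =>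
    (hφ.continuous_iteratedFDeriv (by exact_mod_cast hi)).bounded_above_of_compact_support
      (hc.iteratedFDeriv i)
  obtain ⟨A0, hA0⟩ := h1 0 (by norm_num)
  obtain ⟨A1, hA1⟩ := h1 1 (by norm_num)
  obtain ⟨A2, hA2⟩ := h1 2 le_rfl
  refine ⟨2 * (|A0| + |A1| + |A2| + 1) * 1 ^ 2, by positivity, fun ν c hν => ?_⟩
  refine ⟨hφ.comp (TU.ht_smooth ν c), fun j hj y => ?_⟩
  refine comp_bd hφ (TU.ht_smooth ν c) y (fun i hi => ?_) le_rfl
    (fun i hi1 hi2 => ht_deriv hν c y i hi1) hj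
  interval_cases i
  · exact (hA0 _).trans (by linarith [le_abs_self A0, abs_nonneg A1, abs_nonneg A2])
  · exact (hA1 _).trans (by linarith [le_abs_self A1, abs_nonneg A0, abs_nonneg A2])
  · exact (hA2 _).trans (by linarith [le_abs_self A2, abs_nonneg A1, abs_nonneg A0])

lemma cu1_eq (z : ℝ) : cu1 1 z = Real.smoothTransition (2 - z) * Real.smoothTransition (2 + z) := by
  unfold cu1
  rcases le_total 0 z with h | h
  · rw [abs_of_nonneg h, Real.smoothTransition.one_of_one_le (x := 2 + z) (by linarith), mul_one]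
    congr 1
    ring
  · rw [abs_of_nonpos h, Real.smoothTransition.one_of_one_le (x := 2 - z) (by linarith), one_mul]
    congr 1
    ring

lemma cu1_smooth : ContDiff ℝ 2 (fun z => cu1 1 z) := by
  have h1 : ContDiff ℝ 2 Real.smoothTransition := Real.smoothTransition.contDiff (n := 2)
  have h2 : (fun z => cu1 1 z) =
      fun z => Real.smoothTransition (2 - z) * Real.smoothTransition (2 + z) := funext cu1_eq
  rw [h2]
  exact (h1.comp (contDiff_const.sub contDiff_id)).mul (h1.comp (contDiff_const.add contDiff_id))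

lemma cu1_nonneg (ρ z : ℝ) : 0 ≤ cu1 ρ z := Real.smoothTransition.nonneg _

lemma cu1_le_one (ρ z : ℝ) : cu1 ρ z ≤ 1 := Real.smoothTransition.le_one _

lemma cu1_one {z : ℝ} (h : |z| ≤ 1) : cu1 1 z = 1 :=
  Real.smoothTransition.one_of_one_le (by linarith)

lemma cu1_zero {z : ℝ} (h : 2 ≤ |z|) : cu1 1 z = 0 :=
  Real.smoothTransition.zero_of_nonpos (by linarith)

lemma cu1_cs : HasCompactSupport (fun z => cu1 1 z) := by
  refine HasCompactSupport.intro (isCompact_Icc (a := (-2 : ℝ)) (b := 2)) fun z hz => ?_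
  refine cu1_zero ?_
  by_contra h
  push Not at h
  exact hz ⟨by linarith [neg_abs_le z], by linarith [le_abs_self z]⟩

/-! ## functions of the projection to a plane -/

/-- tangential part as a linear map -/
def tl (ν : Sp d) : Sp d →L[ℝ] Sp d :=
  ContinuousLinearMap.id ℝ (Sp d) - (innerSL ℝ ν).smulRight ν

lemma tl_apply (ν y : Sp d) : tl ν y = tang ν y := by
  simp [tl, tang]

lemma inner_tang {ν : Sp d} (hν : ‖ν‖ = 1) (y : Sp d) : ⟪ν, tang ν y⟫_ℝ = 0 := by
  unfold tang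
  rw [inner_sub_right, inner_smul_right, real_inner_self_eq_norm_sq, hν]
  ring

lemma norm_tang_le {ν : Sp d} (hν : ‖ν‖ = 1) (y : Sp d) : ‖tang ν y‖ ≤ ‖y‖ := by
  have h1 : ‖tang ν y‖ ^ 2 = ‖y‖ ^ 2 - ⟪ν, y⟫_ℝ ^ 2 := by
    unfold tang
    rw [@norm_sub_sq_real, norm_smul, hν, inner_smul_right, real_inner_comm, Real.norm_eq_abs,
      mul_one, sq_abs]
    ring
  have h2 : ‖tang ν y‖ ^ 2 ≤ ‖y‖ ^ 2 := by rw [h1]; nlinarith [sq_nonneg ⟪ν, y⟫_ℝ]
  exact (sq_le_sq₀ (norm_nonneg _) (norm_nonneg _)).1 h2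

/-- projection to the plane -/
def pj (ν : Sp d) (c : ℝ) (y : Sp d) : Sp d := c • ν + tang ν y

lemma pj_eq (ν : Sp d) (c : ℝ) (y : Sp d) : y = pj ν c y + ht ν c y • ν := by
  unfold pj ht tang
  rw [sub_smul]
  abel

lemma inner_pj {ν : Sp d} (hν : ‖ν‖ = 1) (c : ℝ) (y : Sp d) : ⟪ν, pj ν c y⟫_ℝ = c := by
  unfold pj
  rw [inner_add_right, inner_tang hν, inner_smul_right, real_inner_self_eq_norm_sq, hν]
  ring

lemma pj_of_mem {ν : Sp d} {c : ℝ} {y : Sp d} (h : ⟪ν, y⟫_ℝ = c) : pj ν c y = y := by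
  unfold pj tang
  rw [h]
  abel

lemma tang_tang {ν : Sp d} (hν : ‖ν‖ = 1) (y : Sp d) : tang ν (tang ν y) = tang ν y := by
  conv_lhs => unfold tang
  have h1 := inner_tang hν y
  unfold tang at h1
  rw [h1]
  simp [tang]

lemma norm_tang_pj {ν : Sp d} (hν : ‖ν‖ = 1) (c : ℝ) (y : Sp d) : ‖tang ν y‖ ≤ ‖pj ν c y‖ := by
  have h0 : tang ν ν = 0 := by
    unfold tang
    rw [real_inner_self_eq_norm_sq, hν]
    simp
  have h1 : tang ν (pj ν c y) = tang ν y := by
    unfold pj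
    rw [← tl_apply, map_add, map_smul, tl_apply, tl_apply, h0, tang_tang hν, smul_zero, zero_add]
  rw [← h1]
  exact norm_tang_le hν _

lemma norm_le_pj {ν : Sp d} (hν : ‖ν‖ = 1) (c : ℝ) (y : Sp d) :
    ‖y‖ ≤ ‖pj ν c y‖ + |ht ν c y| := by
  conv_lhs => rw [pj_eq ν c y]
  refine (norm_add_le _ _).trans ?_
  rw [norm_smul, hν, mul_one, Real.norm_eq_abs]

lemma TFn_pj {J : ℕ} {N c : ℝ} {g : Sp d → ℝ} (hg : ContDiff ℝ J g) {ν : Sp d} (hν : ‖ν‖ = 1)
    (hN : 0 ≤ N) (hb : ∀ j ≤ J, ∀ h : Fin j → Sp d, (∀ i, ⟪ν, h i⟫_ℝ = 0) → (∀ i, ‖h i‖ ≤ 1) →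
      ∀ y, ⟪ν, y⟫_ℝ = c → |iteratedFDeriv ℝ j g y h| ≤ N) :
    TFn J N (fun y => g (pj ν c y)) := by
  have e0 : (fun y => g (pj ν c y)) = (fun x => g (c • ν + x)) ∘ (tl ν) := by
    funext y
    simp only [Function.comp_apply, tl_apply]
    rfl
  have hg' : ContDiff ℝ J (fun x => g (c • ν + x)) := hg.comp (contDiff_const.add contDiff_id)
  refine ⟨?_, fun j hj y => ?_⟩
  · rw [e0]
    exact hg'.comp (tl ν).contDiff
  · rw [e0, (tl ν).iteratedFDeriv_comp_right hg' y (by exact_mod_cast hj),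
      iteratedFDeriv_comp_add_left]
    refine ContinuousMultilinearMap.opNorm_le_bound hN fun m => ?_
    rw [ContinuousMultilinearMap.compContinuousLinearMap_apply]
    set k : Fin j → Sp d := fun i => tl ν (m i) with hk
    have hki : ∀ i, k i = ‖k i‖ • (‖k i‖⁻¹ • k i) := by
      intro i
      by_cases h0 : k i = 0
      · rw [h0]
        simp
      · rw [smul_smul, mul_inv_cancel₀ (norm_ne_zero_iff.2 h0), one_smul]
    have h1 : (iteratedFDeriv ℝ j g (c • ν + tl ν y)) k =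
        (∏ i, ‖k i‖) • (iteratedFDeriv ℝ j g (c • ν + tl ν y)) (fun i => ‖k i‖⁻¹ • k i) := by
      rw [← ContinuousMultilinearMap.map_smul_univ]
      congr 1
      funext i
      exact hki i
    have h2 : |(iteratedFDeriv ℝ j g (c • ν + tl ν y)) (fun i => ‖k i‖⁻¹ • k i)| ≤ N := by
      refine hb j hj _ (fun i => ?_) (fun i => ?_) _ ?_
      · rw [inner_smul_right, hk]
        simp only
        rw [tl_apply, inner_tang hν, mul_zero]
      · rw [norm_smul, norm_inv, norm_norm]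
        by_cases h0 : k i = 0
        · rw [h0]
          simp
        · rw [inv_mul_cancel₀ (norm_ne_zero_iff.2 h0)]
      · rw [tl_apply]
        exact inner_pj hν c y
    have h3 : ∏ i, ‖k i‖ ≤ ∏ i, ‖m i‖ := by
      refine Finset.prod_le_prod (fun i _ => norm_nonneg _) fun i _ => ?_
      rw [hk]
      simp only
      rw [tl_apply]
      exact norm_tang_le hν _
    have h4 : 0 ≤ ∏ i, ‖k i‖ := Finset.prod_nonneg fun i _ => norm_nonneg _
    calc ‖(iteratedFDeriv ℝ j g (c • ν + tl ν y)) k‖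
        = (∏ i, ‖k i‖) * |(iteratedFDeriv ℝ j g (c • ν + tl ν y)) (fun i => ‖k i‖⁻¹ • k i)| := by
          rw [h1, norm_smul, Real.norm_of_nonneg h4, Real.norm_eq_abs]
      _ ≤ (∏ i, ‖m i‖) * N := mul_le_mul h3 h2 (abs_nonneg _) (h4.trans h3)
      _ = N * ∏ i, ‖m i‖ := mul_comm _ _

/-! ## first order Taylor formula -/

lemma fd_lip {ζ : Sp d → ℝ} (hζ : ContDiff ℝ 2 ζ) {N : ℝ}
    (hN : ∀ y, ‖iteratedFDeriv ℝ 2 ζ y‖ ≤ N) (x y : Sp d) :
    ‖fderiv ℝ ζ y - fderiv ℝ ζ x‖ ≤ N * ‖y - x‖ := by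
  have h1 : ContDiff ℝ 1 (fderiv ℝ ζ) := hζ.fderiv_right (m := 1) (by norm_num)
  refine Convex.norm_image_sub_le_of_norm_fderiv_le (𝕜 := ℝ) (s := univ)
    (fun z _ => (h1.differentiable (by norm_num)).differentiableAt) (fun z _ => ?_) convex_univ
    (mem_univ _) (mem_univ _)
  rw [← norm_iteratedFDeriv_one, norm_iteratedFDeriv_fderiv]
  exact hN z

lemma taylor {ζ : Sp d → ℝ} (hζ : ContDiff ℝ 2 ζ) {N : ℝ}
    (hN : ∀ y, ‖iteratedFDeriv ℝ 2 ζ y‖ ≤ N) (x y : Sp d) :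
    |ζ y - ζ x - fderiv ℝ ζ x (y - x)| ≤ N * ‖y - x‖ ^ 2 := by
  have hN0 : 0 ≤ N := (norm_nonneg _).trans (hN 0)
  have h1 := Convex.norm_image_sub_le_of_norm_fderiv_le' (𝕜 := ℝ) (f := ζ) (φ := fderiv ℝ ζ x)
    (C := N * ‖y - x‖) (s := segment ℝ x y) (x := x) (y := y)
    (fun z _ => (hζ.differentiable (by norm_num)).differentiableAt) (fun z hz => ?_)
    (convex_segment x y) (left_mem_segment ℝ x y) (right_mem_segment ℝ x y)
  · rw [Real.norm_eq_abs] at h1
    refine h1.trans (le_of_eq (by ring))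
  · refine (fd_lip hζ hN x z).trans ?_
    refine mul_le_mul_of_nonneg_left ?_ hN0
    obtain ⟨a, b, ha, hb, hab, rfl⟩ := hz
    have h2 : a • x + b • y - x = b • (y - x) := by
      have : a = 1 - b := by linarith
      rw [this, sub_smul, smul_sub, one_smul]
      abel
    rw [h2, norm_smul, Real.norm_of_nonneg hb]
    exact mul_le_of_le_one_left (norm_nonneg _) (by linarith)

/-- compactly supported functions are bounded in C^2 by their second derivatives -/
lemma TFn_of_d2 {ζ : Sp d → ℝ} (hζ : ContDiff ℝ 2 ζ) {N ρ R : ℝ} (hρ : 0 ≤ ρ) (hR : ρ ≤ R)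
    (hN : ∀ y, ‖iteratedFDeriv ℝ 2 ζ y‖ ≤ N) (hs : ∀ y, ρ ≤ ‖y‖ → ζ y = 0) {ν : Sp d}
    (hν : ‖ν‖ = 1) : TFn 2 ((2 * R + 1) ^ 2 * N) ζ := by
  have hN0 : 0 ≤ N := (norm_nonneg _).trans (hN 0)
  have hR0 : 0 ≤ R := hρ.trans hR
  set p : Sp d := (ρ + 1) • ν with hp
  have hpn : ‖p‖ = ρ + 1 := by rw [hp, norm_smul, hν, mul_one, Real.norm_of_nonneg (by linarith)]
  have hs' : ∀ y, ρ < ‖y‖ → ζ y = 0 := fun y hy => hs y hy.le
  have hfd : ∀ y, ρ < ‖y‖ → fderiv ℝ ζ y = 0 := by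
    intro y hy
    have := ev_zero hs' hy 1
    rw [← norm_eq_zero, norm_iteratedFDeriv_one, norm_eq_zero] at this
    exact this
  have h1 : ∀ y, ‖fderiv ℝ ζ y‖ ≤ (2 * R + 1) * N := by
    intro y
    by_cases hy : ρ < ‖y‖
    · rw [hfd y hy, norm_zero]
      positivity
    · push Not at hy
      have h2 := fd_lip hζ hN p y
      rw [hfd p (by rw [hpn]; linarith), sub_zero] at h2
      refine h2.trans ?_
      rw [mul_comm]
      refine mul_le_mul_of_nonneg_right ?_ hN0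
      refine (norm_sub_le _ _).trans ?_
      rw [hpn]
      linarith
  have h0 : ∀ y, |ζ y| ≤ (2 * R + 1) ^ 2 * N := by
    intro y
    by_cases hy : ρ < ‖y‖
    · rw [hs' y hy, abs_zero]
      positivity
    · push Not at hy
      have h2 := Convex.norm_image_sub_le_of_norm_fderiv_le (𝕜 := ℝ) (f := ζ) (s := univ)
        (fun z _ => (hζ.differentiable (by norm_num)).differentiableAt) (fun z _ => h1 z)
        convex_univ (mem_univ p) (mem_univ y)
      rw [hs' p (by rw [hpn]; linarith), sub_zero, Real.norm_eq_abs] at h2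
      refine h2.trans ?_
      have h3 : ‖y - p‖ ≤ 2 * R + 1 := by
        refine (norm_sub_le _ _).trans ?_
        rw [hpn]
        linarith
      calc (2 * R + 1) * N * ‖y - p‖ ≤ (2 * R + 1) * N * (2 * R + 1) := by gcongr
        _ = (2 * R + 1) ^ 2 * N := by ring
  have hone : 1 ≤ (2 * R + 1) := by linarith
  refine ⟨hζ, fun j hj y => ?_⟩
  interval_cases j
  · rw [norm_iteratedFDeriv_zero]
    exact h0 y
  · rw [norm_iteratedFDeriv_one]
    refine (h1 y).trans ?_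
    refine mul_le_mul_of_nonneg_right ?_ hN0
    nlinarith only [hρ, hR]
  · refine (hN y).trans ?_
    have : 1 ≤ (2 * R + 1) ^ 2 := one_le_pow₀ hone
    nlinarith

end

end SS

end TG


end

section

/-!
# Trace inequality, general operators: module SS (the sheet lemma as the structure Sheet)
-/

open MeasureTheory Metric Set TrI
open scoped InnerProductSpace ContDiff

namespace TG

noncomputable section

variable {d : ℕ}

namespace SS

/-- Taylor polynomial at the plane -/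
def tp (ν : Sp d) (c : ℝ) (ζ : Sp d → ℝ) (y : Sp d) : ℝ :=
  ζ (pj ν c y) + ht ν c y * fderiv ℝ ζ (pj ν c y) ν

/-- the remainder -/
def rem (ν : Sp d) (c : ℝ) (ζ : Sp d → ℝ) (y : Sp d) : ℝ :=
  ζ y - cu1 1 (ht ν c y) * tp ν c ζ y

lemma tp_bd {ν : Sp d} (hν : ‖ν‖ = 1) (c : ℝ) {N2 : ℝ} {ζ : Sp d → ℝ} (hζ : ContDiff ℝ 2 ζ)
    (hN2 : ∀ y, ‖iteratedFDeriv ℝ 2 ζ y‖ ≤ N2) (y : Sp d) :
    |ζ y - tp ν c ζ y| ≤ N2 * ht ν c y ^ 2 := by
  have h1 := taylor hζ hN2 (pj ν c y) y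
  have h2 : y - pj ν c y = ht ν c y • ν := by
    conv_lhs => rw [pj_eq ν c y]
    have h3 : pj ν c (pj ν c y + ht ν c y • ν) = pj ν c y := by rw [← pj_eq]
    rw [h3]
    abel
  rw [h2, map_smul, norm_smul, hν, mul_one, Real.norm_eq_abs, sq_abs, smul_eq_mul] at h1
  unfold tp
  rw [← sub_sub]
  exact h1

lemma tp_zero {ν : Sp d} {c ρ : ℝ} {ζ : Sp d → ℝ} (hs : ∀ y, ρ ≤ ‖y‖ → ζ y = 0) {y : Sp d}
    (hy : ρ < ‖pj ν c y‖) : tp ν c ζ y = 0 := by
  have h1 : fderiv ℝ ζ (pj ν c y) = 0 := by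
    have := ev_zero (fun y hy => hs y hy.le) hy 1
    rw [← norm_eq_zero, norm_iteratedFDeriv_one, norm_eq_zero] at this
    exact this
  unfold tp
  rw [hs _ hy.le, h1]
  simp

lemma rem_bd {ν : Sp d} (hν : ‖ν‖ = 1) {c N N2 ρ R0 : ℝ} {ζ : Sp d → ℝ} (hζ : ContDiff ℝ 2 ζ)
    (hρR : ρ ≤ R0) (hs : ∀ y, ρ ≤ ‖y‖ → ζ y = 0)
    (hN2 : ∀ y, ‖iteratedFDeriv ℝ 2 ζ y‖ ≤ N2)
    (h0 : ∀ y, |ζ (pj ν c y)| ≤ N) (h1 : ∀ y, |fderiv ℝ ζ (pj ν c y) ν| ≤ N) (y : Sp d) :
    |rem ν c ζ y| ≤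
      N2 * (zR (ρ + 1) y * ht ν c y ^ 2) + 2 * N * (zR R0 y * ht ν c y ^ 2) := by
  have hN : 0 ≤ N := (abs_nonneg _).trans (h0 0)
  have hN20 : 0 ≤ N2 := (norm_nonneg _).trans (hN2 0)
  have hT := tp_bd hν c hζ hN2 y
  have hz0 := TU.zR_nonneg (ρ + 1) y
  have hz0' := TU.zR_nonneg R0 y
  have hc0 := cu1_nonneg 1 (ht ν c y)
  have hc1 := cu1_le_one 1 (ht ν c y)
  rcases lt_or_ge ‖y‖ ρ with hy | hy
  · rw [TU.zR_one (by linarith : ‖y‖ ≤ ρ + 1), TU.zR_one (by linarith : ‖y‖ ≤ R0)]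
    have h2 : rem ν c ζ y = (ζ y - tp ν c ζ y) + (1 - cu1 1 (ht ν c y)) * tp ν c ζ y := by
      unfold rem
      ring
    have h3 : |(1 - cu1 1 (ht ν c y)) * tp ν c ζ y| ≤ 2 * N * ht ν c y ^ 2 := by
      rcases le_total |ht ν c y| 1 with hw | hw
      · rw [cu1_one hw]
        simp only [sub_self, zero_mul, abs_zero]
        positivity
      · have h4 : |tp ν c ζ y| ≤ 2 * N * ht ν c y ^ 2 := by
          have h5 : |tp ν c ζ y| ≤ N + |ht ν c y| * N := by
            unfold tp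
            refine (abs_add_le _ _).trans (add_le_add (h0 y) ?_)
            rw [abs_mul]
            exact mul_le_mul_of_nonneg_left (h1 y) (abs_nonneg _)
          have h6 : |ht ν c y| ≤ ht ν c y ^ 2 := by
            rw [← sq_abs]
            nlinarith only [hw]
          have h7 : 1 ≤ ht ν c y ^ 2 := hw.trans h6
          nlinarith only [h5, hN, hw, h6]
        rw [abs_mul]
        have h8 : |1 - cu1 1 (ht ν c y)| ≤ 1 := by
          rw [abs_of_nonneg (by linarith)]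
          linarith
        exact (mul_le_of_le_one_left (abs_nonneg _) h8).trans h4
    rw [h2]
    refine (abs_add_le _ _).trans ?_
    simp only [one_mul]
    exact add_le_add hT h3
  · have hy0 := hs y hy
    have h2 : rem ν c ζ y = -(cu1 1 (ht ν c y) * tp ν c ζ y) := by
      unfold rem
      rw [hy0, zero_sub]
    rw [h2, abs_neg, abs_mul, abs_of_nonneg hc0]
    have h9 : 0 ≤ 2 * N * (zR R0 y * ht ν c y ^ 2) := by positivity
    by_cases hq : tp ν c ζ y = 0
    · rw [hq, abs_zero, mul_zero]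
      (clear * - hN20 hz0 hN hz0'; positivity)
    · have h3 : ‖pj ν c y‖ ≤ ρ := by
        by_contra h
        exact hq (tp_zero hs (not_le.1 h))
      have h4 : ‖y‖ ≤ ρ + |ht ν c y| := (norm_le_pj hν c y).trans (by linarith)
      have h5 : cu1 1 (ht ν c y) ≤ zR (ρ + 1) y := by
        unfold cu1 zR
        exact Real.smoothTransition.monotone (by linarith)
      rw [hy0, zero_sub, abs_neg] at hT
      have h6 : cu1 1 (ht ν c y) * |tp ν c ζ y| ≤ zR (ρ + 1) y * (N2 * ht ν c y ^ 2) :=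
        mul_le_mul h5 hT (abs_nonneg _) hz0
      calc cu1 1 (ht ν c y) * |tp ν c ζ y| ≤ zR (ρ + 1) y * (N2 * ht ν c y ^ 2) := h6
        _ = N2 * (zR (ρ + 1) y * ht ν c y ^ 2) := by ring
        _ ≤ _ := by linarith

lemma rem_zero {ν : Sp d} (hν : ‖ν‖ = 1) {c ρ : ℝ} {ζ : Sp d → ℝ}
    (hs : ∀ y, ρ ≤ ‖y‖ → ζ y = 0) {y : Sp d} (hy : ρ + 2 ≤ ‖y‖) : rem ν c ζ y = 0 := by
  unfold rem
  rw [hs y (by linarith), zero_sub, neg_eq_zero]
  by_cases hq : tp ν c ζ y = 0
  · rw [hq, mul_zero]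
  · have h3 : ‖pj ν c y‖ ≤ ρ := by
      by_contra h
      exact hq (tp_zero hs (not_le.1 h))
    have h4 : ‖y‖ ≤ ρ + |ht ν c y| := (norm_le_pj hν c y).trans (by linarith)
    rw [cu1_zero (by linarith), zero_mul]

/-- constants for the cut-offs -/
lemma consts (d : ℕ) : ∃ C : ℝ, 0 < C ∧ ∀ (ν : Sp d) (c : ℝ), ‖ν‖ = 1 →
    TFn 2 C (fun y => cu1 1 (ht ν c y)) ∧ TFn 2 C (fun y => ht ν c y * cu1 1 (ht ν c y)) := by
  obtain ⟨C0, h0, h1⟩ := TFn_comp_ht (d := d) cu1_smooth cu1_cs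
  obtain ⟨C1, h2, h3⟩ := TFn_comp_ht (d := d) (φ := fun z => z * cu1 1 z)
    (contDiff_id.mul cu1_smooth) cu1_cs.mul_left
  exact ⟨C0 + C1, by positivity, fun ν c hν =>
    ⟨TU.TFn_mono (h1 ν c hν) le_rfl (by linarith), TU.TFn_mono (h3 ν c hν) le_rfl (by linarith)⟩⟩

lemma rem_TFn {C : ℝ} {ν : Sp d} (hν : ‖ν‖ = 1) {c N N2 ρ R0 : ℝ} {ζ : Sp d → ℝ}
    (hC1 : TFn 2 C (fun y => cu1 1 (ht ν c y)))
    (hC2 : TFn 2 C (fun y => ht ν c y * cu1 1 (ht ν c y)))
    (hζ : ContDiff ℝ 2 ζ) (hρ : 0 ≤ ρ)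
    (hρR : ρ ≤ R0) (hs : ∀ y, ρ ≤ ‖y‖ → ζ y = 0)
    (hN2 : ∀ y, ‖iteratedFDeriv ℝ 2 ζ y‖ ≤ N2)
    (h0 : TFn 2 N (fun y => ζ (pj ν c y))) (h1 : TFn 2 N (fun y => fderiv ℝ ζ (pj ν c y) ν)) :
    TFn 2 (((2 * R0 + 1) ^ 2 + 8 * C) * (N + N2)) (rem ν c ζ) := by
  have hN : 0 ≤ N := TU.TFn_nonneg h0
  have hC : 0 ≤ C := TU.TFn_nonneg hC1
  have hN20 : 0 ≤ N2 := (norm_nonneg _).trans (hN2 0)
  have h2 := TU.TFn_sub (TFn_of_d2 hζ hρ hρR hN2 hs hν)
    (TU.TFn_add (TU.TFn_mul hC1 h0) (TU.TFn_mul hC2 h1))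
  have h3 : rem ν c ζ = fun y => ζ y - (cu1 1 (ht ν c y) * ζ (pj ν c y) +
      ht ν c y * cu1 1 (ht ν c y) * fderiv ℝ ζ (pj ν c y) ν) := by
    funext y
    unfold rem tp
    ring
  rw [h3]
  refine TU.TFn_mono h2 le_rfl ?_
  have h4 : 0 ≤ (2 * R0 + 1) ^ 2 * N := by positivity
  have h5 : 0 ≤ C * N2 := by positivity
  nlinarith

section Main

variable {E : Type} [NormedAddCommGroup E] [InnerProductSpace ℝ E]

lemma integrable_m {f : Sp d → E} (hf : Continuous f) (hfc : HasCompactSupport f) (e : E)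
    {g : Sp d → ℝ} (hg : Continuous g) : Integrable (fun y => ⟪f y, e⟫_ℝ * g y) := by
  refine Continuous.integrable_of_hasCompactSupport ((hf.inner continuous_const).mul hg) ?_
  have h1 : HasCompactSupport (fun y => ⟪f y, e⟫_ℝ) :=
    hfc.comp_left (g := fun v : E => ⟪v, e⟫_ℝ) (by simp)
  exact h1.mul_right

end Main

/-- the integral of the remainder -/
theorem rem_int (hZ : StmtZ) (hd : 1 ≤ d) {M c0 ε : ℝ} (hε : 0 < ε) (hε1 : ε ≤ 1)
    {b : Sp d → ℝ} (hb : BaseKer 2 M c0 b) {R0 : ℝ} (hR0 : 1 ≤ R0) : ∃ C : ℝ, 0 < C ∧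
    ∀ (E : Type) [NormedAddCommGroup E] [InnerProductSpace ℝ E] [FiniteDimensional ℝ E],
    ∀ f : Sp d → E, Continuous f → HasCompactSupport f → ∀ (R : ℝ), 4 * R0 + 10 ≤ R →
    ∀ (n : ℕ) (e : E), ‖e‖ = 1 → ∀ (ν : Sp d) (c : ℝ), ‖ν‖ = 1 → |c| ≤ R0 + 4 →
    ∀ (ζ : Sp d → ℝ) (ρ N N2 : ℝ), ContDiff ℝ 2 ζ → 0 ≤ ρ → ρ ≤ R0 →
      (∀ y, ρ ≤ ‖y‖ → ζ y = 0) → (∀ y, ‖iteratedFDeriv ℝ 2 ζ y‖ ≤ N2) →
      TFn 2 N (fun y => ζ (pj ν c y)) → TFn 2 N (fun y => fderiv ℝ ζ (pj ν c y) ν) →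
      |∫ y, ⟪f y, e⟫_ℝ * rem ν c ζ y| ≤ N2 * blc ν c (fun y => ⟪f y, e⟫_ℝ) (ρ + 1) +
        2 * N * blc ν c (fun y => ⟪f y, e⟫_ℝ) R0 +
        C * ((N + N2) * DD b ε R ((1 / 2) ^ n) f n 0 e) := by
  obtain ⟨CZ, hCZ, hz⟩ := TU.Z' hZ hd hε hε1 hb
  obtain ⟨Cc, hCc, hcc⟩ := consts d
  obtain ⟨Cr, hCr, hzR⟩ := TFn_zR (d := d) (R0 + 2)
  set G : ℝ := 4 ^ 2 * Cr * max 1 (R0 + 3 + (R0 + 4)) ^ 2 with hG
  have hG0 : 0 < G := by positivity
  refine ⟨CZ * (3 * G + ((2 * R0 + 1) ^ 2 + 8 * Cc)), by positivity, ?_⟩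
  intro E _ _ _ f hf hfc R hR n e he ν c hν hc ζ ρ N N2 hζ hρ hρR hs hN2 h0 h1
  obtain ⟨hc1, hc2⟩ := hcc ν c hν
  have hN : 0 ≤ N := TU.TFn_nonneg h0
  have hN20 : 0 ≤ N2 := (norm_nonneg _).trans (hN2 0)
  have hr := rem_TFn hν hc1 hc2 hζ hρ hρR hs hN2 h0 h1
  have hpt := rem_bd (N := N) hν hζ hρR hs hN2 (fun y => by
    have := TU.TFn_norm h0 y
    rwa [Real.norm_eq_abs] at this) (fun y => by
    have := TU.TFn_norm h1 y
    rwa [Real.norm_eq_abs] at this)
  have hg1 : TFn 2 G (fun y => zR (ρ + 1) y * ht ν c y ^ 2) :=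
    TU.TFn_ht_sq (ρ := R0 + 3) (hzR (ρ + 1) (by linarith) (by linarith))
      (fun y hy => TU.zR_zero (by linarith)) hν hc
  have hg2 : TFn 2 G (fun y => zR R0 y * ht ν c y ^ 2) :=
    TU.TFn_ht_sq (ρ := R0 + 3) (hzR R0 hR0 (by linarith))
      (fun y hy => TU.zR_zero (by linarith)) hν hc
  have hDD := TU.DD_nonneg b ε R (by positivity : (0 : ℝ) < (1 / 2) ^ n) f n 0 he
  set K : ℝ := (2 * R0 + 1) ^ 2 + 8 * Cc with hK
  set m : Sp d → ℝ := fun y => ⟪f y, e⟫_ℝ with hm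
  set X : ℝ := DD b ε R ((1 / 2) ^ n) f n 0 e with hX
  have hgs := TU.TFn_add (TU.TFn_const_mul hg1 N2) (TU.TFn_const_mul hg2 (2 * N))
  rw [abs_of_nonneg hN20, abs_of_nonneg (by positivity : (0 : ℝ) ≤ 2 * N)] at hgs
  have hgint : ∀ g : Sp d → ℝ, Continuous g → Integrable (fun y => m y * g y) :=
    fun g hg => integrable_m hf hfc e hg
  have hi1 := hgint _ hg1.smooth.continuous
  have hi2 := hgint _ hg2.smooth.continuous
  have hi3 := hgint _ hr.smooth.continuous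
  have hnorm : N2 * G + 2 * N * G + K * (N + N2) ≤ (3 * G + K) * (N + N2) := by
    have : 0 ≤ G * N := by positivity
    have : 0 ≤ G * N2 := by positivity
    linarith
  have hbl1 : ∫ y, m y * (zR (ρ + 1) y * ht ν c y ^ 2) = blc ν c m (ρ + 1) := rfl
  have hbl2 : ∫ y, m y * (zR R0 y * ht ν c y ^ 2) = blc ν c m R0 := rfl
  have hsum : ∀ σ : ℝ, ∫ y, m y * (N2 * (zR (ρ + 1) y * ht ν c y ^ 2) +
      2 * N * (zR R0 y * ht ν c y ^ 2) + σ * rem ν c ζ y) =
      N2 * blc ν c m (ρ + 1) + 2 * N * blc ν c m R0 + σ * ∫ y, m y * rem ν c ζ y := by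
    intro σ
    have e1 : (fun y => m y * (N2 * (zR (ρ + 1) y * ht ν c y ^ 2) +
        2 * N * (zR R0 y * ht ν c y ^ 2) + σ * rem ν c ζ y)) =
        fun y => (N2 * (m y * (zR (ρ + 1) y * ht ν c y ^ 2)) +
          2 * N * (m y * (zR R0 y * ht ν c y ^ 2))) + σ * (m y * rem ν c ζ y) := by
      funext y
      ring
    have hi12 : Integrable (fun y => N2 * (m y * (zR (ρ + 1) y * ht ν c y ^ 2)) +
        2 * N * (m y * (zR R0 y * ht ν c y ^ 2))) := (hi1.const_mul _).add (hi2.const_mul _)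
    rw [e1, integral_add hi12 (hi3.const_mul _), integral_add (hi1.const_mul _) (hi2.const_mul _),
      integral_const_mul, integral_const_mul, integral_const_mul, hbl1, hbl2]
  have key : ∀ σ : ℝ, |σ| = 1 → -(CZ * (3 * G + K) * ((N + N2) * X)) ≤
      N2 * blc ν c m (ρ + 1) + 2 * N * blc ν c m R0 + σ * ∫ y, m y * rem ν c ζ y := by
    intro σ hσ
    have h2 := TU.TFn_mono (TU.TFn_add hgs (TU.TFn_const_mul hr σ)) le_rfl
      (show N2 * G + 2 * N * G + |σ| * (K * (N + N2)) ≤ (3 * G + K) * (N + N2) by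
        rw [hσ, one_mul]; exact hnorm)
    have h3 := hz E f hf hfc R (by linarith) n e he 0 _ _ h2 (fun y => by
      have h4 := hpt y
      have h5 : -|rem ν c ζ y| ≤ σ * rem ν c ζ y := by
        have := neg_abs_le (σ * rem ν c ζ y)
        rwa [abs_mul, hσ, one_mul] at this
      linarith) (fun y hy => by
      rw [sub_zero] at hy
      rw [TU.zR_zero (by linarith), TU.zR_zero (by linarith), rem_zero hν hs (by linarith)]
      ring)
    rw [hsum σ] at h3
    refine le_trans (le_of_eq ?_) h3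
    ring
  have k1 := key 1 (by norm_num)
  have k2 := key (-1) (by norm_num)
  rw [abs_le]
  constructor <;> linarith

/-- from the estimate for cylindrical test functions to the structure Sheet (used for SS and SAF) -/
theorem sheet_of_est (hZ : StmtZ) (hd : 1 ≤ d) {M c0 ε : ℝ} (hε : 0 < ε) (hε1 : ε ≤ 1)
    {b : Sp d → ℝ} (hb : BaseKer 2 M c0 b) {R0 : ℝ} (hR0 : 8 ≤ R0) : ∃ C : ℝ, 0 < C ∧
    ∀ (E : Type) [NormedAddCommGroup E] [InnerProductSpace ℝ E] [FiniteDimensional ℝ E],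
    ∀ f : Sp d → E, Continuous f → HasCompactSupport f → ∀ (R : ℝ), 4 * R0 + 10 ≤ R →
    ∀ (n : ℕ) (e : E), ‖e‖ = 1 → ∀ (J : ℕ) (ν : Sp d) (c a' ep X : ℝ), 2 ≤ J → ‖ν‖ = 1 →
      |c| ≤ R0 + 4 → 0 < a' → 0 ≤ ep → 0 ≤ X →
      blc ν c (fun y => ⟪f y, e⟫_ℝ) R0 ≤ X →
      (∀ (ζ0 ζ1 : Sp d → ℝ) (N : ℝ), TFn J N ζ0 → TFn J N ζ1 → Cyl ν (3 / 2 * R0) ζ0 →
        Cyl ν (3 / 2 * R0) ζ1 →
        |(∫ y, ⟪f y, e⟫_ℝ * (cu1 1 (ht ν c y) * (ζ0 y + ht ν c y * ζ1 y))) -
          a' * plInt ν c ζ0| ≤ ep * N) →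
      Sheet J R0 a' (ep + 2 * X) (C * DD b ε R ((1 / 2) ^ n) f n 0 e)
        (fun y => ⟪f y, e⟫_ℝ) ν c := by
  obtain ⟨C2, hC2, hr⟩ := rem_int hZ hd hε hε1 hb (R0 := R0) (by linarith)
  refine ⟨C2, hC2, ?_⟩
  intro E _ _ _ f hf hfc R hR n e he J ν' c' a' ep X hJ hν' hloc ha' hep hX hB1 h5
  refine ⟨hν', ha', by positivity, by linarith, ?_⟩
  intro ζ ρ N N2 hζ hρ hρR hs hTB hN2
  have hN0 : 0 ≤ N := (abs_nonneg _).trans (hTB 0 (Nat.zero_le _) (fun _ => 0) (fun i => by simp)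
    (fun i => by simp) (pj ν' c' 0) (inner_pj hν' c' 0)).1
  have hN20 : 0 ≤ N2 := (norm_nonneg _).trans (hN2 0)
  have hζ2 : ContDiff ℝ 2 ζ := hζ.of_le (by
    have : 2 ≤ J + 2 := by omega
    exact_mod_cast this)
  have hT0 : TFn J N (fun y => ζ (pj ν' c' y)) :=
    TFn_pj (hζ.of_le (by
      have : J ≤ J + 2 := by omega
      exact_mod_cast this)) hν' hN0 (fun j hj h h1 h2 y hy => (hTB j hj h h1 h2 y hy).1)
  have hT1 : TFn J N (fun y => fderiv ℝ ζ (pj ν' c' y) ν') := by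
    refine TFn_pj (g := fun y => fderiv ℝ ζ y ν') ?_ hν' hN0
      (fun j hj h h1 h2 y hy => (hTB j hj h h1 h2 y hy).2)
    have h6 : ContDiff ℝ J (fderiv ℝ ζ) := hζ.fderiv_right (by
      have : J + 1 ≤ J + 2 := by omega
      exact_mod_cast this)
    exact h6.clm_apply contDiff_const
  have htt : ∀ y, pj ν' c' y = pj ν' c' (tang ν' y) := fun y => by
    unfold pj
    rw [tang_tang hν']
  have hC0 : Cyl ν' (3 / 2 * R0) (fun y => ζ (pj ν' c' y)) := by
    refine ⟨fun y => congrArg ζ (htt y), fun y hy => ?_⟩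
    have h6 : ‖pj ν' c' y‖ < ρ := by
      by_contra hh
      exact hy (hs _ (not_lt.1 hh))
    linarith [norm_tang_pj hν' c' y]
  have hC1 : Cyl ν' (3 / 2 * R0) (fun y => fderiv ℝ ζ (pj ν' c' y) ν') := by
    refine ⟨fun y => congrArg (fun z => fderiv ℝ ζ z ν') (htt y), fun y hy => ?_⟩
    have h6 : ‖pj ν' c' y‖ ≤ ρ := by
      by_contra hh
      have h7 := ev_zero (fun y hy => hs y hy.le) (not_le.1 hh) 1
      rw [← norm_eq_zero, norm_iteratedFDeriv_one, norm_eq_zero] at h7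
      exact hy (by rw [h7]; simp)
    linarith [norm_tang_pj hν' c' y]
  have h6 := h5 _ _ N hT0 hT1 hC0 hC1
  have h7 : plInt ν' c' (fun y => ζ (pj ν' c' y)) = plInt ν' c' ζ := by
    unfold plInt
    congr 1
    funext y
    refine congrArg ζ (pj_of_mem ?_)
    rw [inner_add_right, inner_smul_right, real_inner_self_eq_norm_sq, hν']
    have : ⟪ν', (y : Sp d)⟫_ℝ = 0 :=
      (Submodule.mem_orthogonal_singleton_iff_inner_right.1 y.2)
    rw [this]
    ring
  rw [h7] at h6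
  have h8 := hr E f hf hfc R hR n e he ν' c' hν' hloc ζ ρ N N2 hζ2 hρ hρR hs
    hN2 (TU.TFn_mono hT0 hJ le_rfl) (TU.TFn_mono hT1 hJ le_rfl)
  have hrs : Continuous (rem ν' c' ζ) := by
    obtain ⟨Cc, hCc, hcc⟩ := consts d
    exact (rem_TFn hν' (hcc ν' c' hν').1 (hcc ν' c' hν').2 hζ2 hρ hρR hs hN2
      (TU.TFn_mono hT0 hJ le_rfl) (TU.TFn_mono hT1 hJ le_rfl)).smooth.continuous
  have hi1 := integrable_m hf hfc e hrs
  have hi0 := integrable_m hf hfc e hζ2.continuous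
  have h9 : (∫ y, ⟪f y, e⟫_ℝ * (cu1 1 (ht ν' c' y) *
      (ζ (pj ν' c' y) + ht ν' c' y * fderiv ℝ ζ (pj ν' c' y) ν'))) =
      (∫ y, ⟪f y, e⟫_ℝ * ζ y) - ∫ y, ⟪f y, e⟫_ℝ * rem ν' c' ζ y := by
    rw [← integral_sub hi0 hi1]
    congr 1
    funext y
    unfold rem tp
    ring
  rw [h9] at h6
  have h10 : |(∫ y, ⟪f y, e⟫_ℝ * ζ y) - a' * plInt ν' c' ζ| ≤
      |(∫ y, ⟪f y, e⟫_ℝ * ζ y) - (∫ y, ⟪f y, e⟫_ℝ * rem ν' c' ζ y) -
        a' * plInt ν' c' ζ| + |∫ y, ⟪f y, e⟫_ℝ * rem ν' c' ζ y| := by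
    refine le_trans (le_of_eq ?_) (abs_add_le _ _)
    congr 1
    ring
  have h11 : 2 * N * blc ν' c' (fun y => ⟪f y, e⟫_ℝ) R0 ≤ 2 * N * X :=
    mul_le_mul_of_nonneg_left hB1 (by positivity)
  nlinarith

end SS

theorem stmtSS (hSA : StmtSA) (hZ : StmtZ) : StmtSS := by
  intro d V E _ _ _ _ _ _ L hd hL
  obtain ⟨J, hJ⟩ := hSA d V E L hd hL
  refine ⟨max J 2, ?_⟩
  intro M c0 ε hε hε1 b hb R0 γ K hR0 hγ hγ1 hK
  obtain ⟨C, κ, hC, hκ, h⟩ := hJ M c0 ε hε hε1 b hb R0 γ K hR0 hγ hγ1 hK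
  have hdd : (2 : ℝ) ≤ d := by exact_mod_cast hd
  have hR01 : 200 ≤ R0 := by linarith
  obtain ⟨C2, hC2, hr⟩ := SS.sheet_of_est hZ (by omega : 1 ≤ d) hε hε1 hb (R0 := R0) (by linarith)
  refine ⟨3 * C + C2, min κ (1 / C), by positivity, by positivity, ?_⟩
  intro R hR n u hu x e hT a ha haa hma ν c B D hν hc hB hbD hDD
  obtain ⟨ν', c', a', hν', h1, h2, h3, h4, h5⟩ := h R hR n u hu x e hT a ha haa hma ν c B D hν hc
    (hB.trans (mul_le_mul_of_nonneg_right (min_le_left _ _) ha.le)) hbD hDD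
  have hB0 : 0 ≤ B := by simpa using hbD 0
  have hD0 : 0 ≤ D := by simpa using hDD 0
  have ha' : 0 < a' := by
    by_contra hh
    push Not at hh
    have := mul_nonpos_of_nonneg_of_nonpos hC.le hh
    linarith
  have hle : C ≤ 3 * C + C2 := by linarith
  have hCB : C * B ≤ (3 * C + C2) * B := mul_le_mul_of_nonneg_right hle hB0
  refine ⟨ν', c', a', hν', h1.trans hCB, h2.trans (mul_le_mul_of_nonneg_right hle ha'.le),
    h3.trans (mul_le_mul_of_nonneg_right hle ha.le), fun I => (h4 I).trans hCB, ?_⟩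
  have hloc : |c'| ≤ R0 + 4 := by
    have h6 : C * B ≤ a := by
      have h7 : B ≤ 1 / C * a := hB.trans (mul_le_mul_of_nonneg_right (min_le_right _ _) ha.le)
      calc C * B ≤ C * (1 / C * a) := mul_le_mul_of_nonneg_left h7 hC.le
        _ = a := by field_simp
    have h8 : a * (c' - c) ^ 2 ≤ a * 1 := by
      have h9 : a * (c' - c) ^ 2 ≤ a * (‖ν' - ν‖ ^ 2 + (c' - c) ^ 2) :=
        mul_le_mul_of_nonneg_left (by linarith [sq_nonneg ‖ν' - ν‖]) ha.le
      linarith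
    have h10 : (c' - c) ^ 2 ≤ 1 := le_of_mul_le_mul_left h8 ha
    have h11 : |c' - c| ≤ 1 := by
      rw [← sq_abs] at h10
      exact abs_le_one_iff_mul_self_le_one.2 (by
        rw [← sq, ← sq_abs]
        exact h10)
    have h12 : |c'| ≤ |c' - c| + |c| := by
      have := abs_add_le (c' - c) c
      rwa [sub_add_cancel] at this
    linarith
  have hf : Continuous (fo L u) := by
    unfold fo
    exact L.continuous.comp (hu.smooth.continuous_fderiv (by simp))
  have hfc : HasCompactSupport (fo L u) := by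
    unfold fo
    exact (hu.supp.fderiv (𝕜 := ℝ)).comp_left (map_zero L)
  have hlev : lev ((1 / 2 : ℝ) ^ n) n = 1 := by
    unfold lev
    rw [← mul_pow]
    norm_num
  have hw0 : wq (1 / 2) 0 = 1 := by
    unfold wq
    simp
  have h7 := TU.DD_nonneg b ε R (by positivity : (0 : ℝ) < (1 / 2) ^ n) (fo L u) n 0 (hT.unit 0)
  have hD1 : DD b ε R ((1 / 2) ^ n) (fo L u) n 0 (e 0) ≤ D := by
    have := hDD 1
    rw [Finset.sum_range_one, hw0, one_mul, add_zero, hT.zero] at this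
    exact this
  have hB1 : blc ν' c' (fun y => ⟪fo L u y, e 0⟫_ℝ) R0 ≤ C * B := by
    have h6 := h4 1
    rw [Finset.sum_range_one, hw0, one_mul, add_zero, hT.zero] at h6
    have h8 : blc ν' c' (fun y => ⟪fo L u y, e 0⟫_ℝ) R0 =
        bb R0 ((1 / 2) ^ n) (fo L u) n 0 (e 0) ν' c' := by
      unfold blc bb
      rw [hlev]
      simp only [one_pow, div_one, sub_zero, one_smul, one_mul]
      rfl
    rw [h8]
    unfold bD at h6
    have h9 := le_max_right 0 (bb R0 ((1 / 2) ^ n) (fo L u) n 0 (e 0) ν' c')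
    linarith
  have hsq := Real.sqrt_nonneg (a' * D)
  have hS := hr E (fo L u) hf hfc R hR n (e 0) (hT.unit 0) (max J 2) ν' c' a'
    (C * (B + Real.sqrt (a' * D))) (C * B) (le_max_right _ _) hν' hloc ha' (by positivity)
    (by positivity) hB1 (fun ζ0 ζ1 N k0 k1 k2 k3 => by
      have h6 := h5 ζ0 ζ1 N (TU.TFn_mono k0 (le_max_left _ _) le_rfl)
        (TU.TFn_mono k1 (le_max_left _ _) le_rfl) k2 k3 1 le_rfl (by linarith)
      refine h6.trans (le_of_eq ?_)
      ring)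
  refine ⟨hν', ha', by positivity, hS.loc, ?_⟩
  intro ζ ρ N N2 hζ hρ hρR hs hTB hN2
  have hN0 : 0 ≤ N := (abs_nonneg _).trans (hTB 0 (Nat.zero_le _) (fun _ => 0) (fun i => by simp)
    (fun i => by simp) (SS.pj ν' c' 0) (SS.inner_pj hν' c' 0)).1
  have hN20 : 0 ≤ N2 := (norm_nonneg _).trans (hN2 0)
  have h8 := hS.est ζ ρ N N2 hζ hρ hρR hs hTB hN2
  have e1 : 0 ≤ C * N * Real.sqrt (a' * D) := by positivity
  have e2 : 0 ≤ C2 * N * B := by positivity
  have e3 : 0 ≤ C2 * N * Real.sqrt (a' * D) := by positivity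
  have e4 : 0 ≤ (N + N2) * (C * D) := by positivity
  have e5 : (N + N2) * (C2 * DD b ε R ((1 / 2) ^ n) (fo L u) n 0 (e 0)) ≤
      (N + N2) * (C2 * D) :=
    mul_le_mul_of_nonneg_left (mul_le_mul_of_nonneg_left hD1 hC2.le) (by positivity)
  linarith only [h8, e1, e2, e3, e4, e5]

end

end TG


end
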