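import Mathlib
import Pool.Agent.TRM.C01
import Pool.Agent.TRM.C02
import Pool.Agent.TRM.C04
import Pool.Agent.TRM.C05
import Pool.Agent.TRM.C09
import Pool.Agent.TRM.C12

/-! Parts: TG.PF, TG.MO1, TG.MO2, TG.MO, TG.UUa, TG.UUb, TG.UUc, TG.AvBasic, TG.CG, TG.FS -/

section

/-! MODULE PF: plane integrals (utilities), helper27 -/

open MeasureTheory Metric Set TrI
open scoped InnerProductSpace ContDiff

namespace TG

noncomputable section

namespace PF

variable {d : ℕ}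

/-- the orthogonal complement of the line spanned by ν -/
abbrev Pl (ν : Sp d) : Submodule ℝ (Sp d) := (Submodule.span ℝ {ν})ᗮ

lemma inner_pl (ν : Sp d) (y : Pl ν) : ⟪ν, (y : Sp d)⟫_ℝ = 0 :=
  Submodule.mem_orthogonal_singleton_iff_inner_right.1 y.2

lemma tang_pl {ν : Sp d} (hν : ‖ν‖ = 1) (c : ℝ) (y : Pl ν) : tang ν (c • ν + (y : Sp d)) = y := by
  unfold tang
  rw [inner_add_right, inner_smul_right, real_inner_self_eq_norm_sq, hν, inner_pl]
  simp

/-- Fubini: the map (c, y) ↦ c ν + y preserves volume -/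
lemma mp {ν : Sp d} (hν : ‖ν‖ = 1) :
    MeasurePreserving (fun p : ℝ × Pl ν => p.1 • ν + (p.2 : Sp d)) (volume.prod volume) volume := by
  have h1 := ((LinearIsometryEquiv.toSpanUnitSingleton (𝕜 := ℝ) ν hν).measurePreserving).prod
    (MeasurePreserving.id (volume : Measure (Pl ν)))
  have h2 := WithLp.volume_preserving_toLp (Submodule.span ℝ {ν}) (Pl ν)
  have h3 := (Submodule.span ℝ {ν}).orthogonalDecomposition.symm.measurePreserving
  have h := h3.comp (h2.comp h1)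
  have e : (fun p : ℝ × Pl ν => p.1 • ν + (p.2 : Sp d)) =
      (Submodule.span ℝ {ν}).orthogonalDecomposition.symm ∘
        (WithLp.toLp 2 ∘ Prod.map (LinearIsometryEquiv.toSpanUnitSingleton ν hν) id) := by
    funext p
    simp
  rw [e]
  exact h

lemma emb {ν : Sp d} (hν : ‖ν‖ = 1) :
    MeasurableEmbedding (fun p : ℝ × Pl ν => p.1 • ν + (p.2 : Sp d)) := by
  refine Continuous.measurableEmbedding (by fun_prop) ?_
  rintro ⟨c, y⟩ ⟨c', y'⟩ h
  have h0 : c • ν + (y : Sp d) = c' • ν + (y' : Sp d) := h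
  have h1 := congrArg (tang ν) h0
  rw [tang_pl hν, tang_pl hν] at h1
  have h2 := congrArg (fun v => ⟪ν, v⟫_ℝ) h0
  simp only [inner_add_right, inner_smul_right, real_inner_self_eq_norm_sq, hν, inner_pl] at h2
  have h3 : c = c' := by simpa using h2
  rw [h3, Subtype.ext h1]

lemma fubini {ν : Sp d} (hν : ‖ν‖ = 1) (F : Sp d → ℝ) (hF : Integrable F) :
    ∫ y, F y = ∫ c : ℝ, plInt ν c F := by
  have h1 : Integrable (fun p : ℝ × Pl ν => F (p.1 • ν + (p.2 : Sp d))) (volume.prod volume) :=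
    ((mp hν).integrable_comp_emb (emb hν)).2 hF
  rw [← (mp hν).integral_comp (emb hν), integral_prod _ h1]
  rfl

/-! ### volume of balls in the plane -/

lemma vol (n : ℕ) (ν : Sp (n + 1)) (hν : ‖ν‖ = 1) (ρ : ℝ) :
    volume (closedBall (0 : Pl ν) ρ) = volume (closedBall (0 : Sp n) ρ) := by
  have h0 : ν ≠ 0 := by intro h; simp [h] at hν
  have : Fact (Module.finrank ℝ (Sp (n + 1)) = n + 1) := ⟨by simp⟩
  have e := (OrthonormalBasis.fromOrthogonalSpanSingleton (𝕜 := ℝ) n h0).repr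
  have h1 := e.measurePreserving.measure_preimage
    (measurableSet_closedBall (x := (0 : Sp n)) (ε := ρ)).nullMeasurableSet
  rw [← h1]
  congr 1
  ext y
  simp

lemma supp_sub {ν : Sp d} (hν : ‖ν‖ = 1) {F : Sp d → ℝ} {ρ : ℝ}
    (hF : ∀ y, F y ≠ 0 → ‖tang ν y‖ ≤ ρ) (c : ℝ) (y : Pl ν) (hy : F (c • ν + (y : Sp d)) ≠ 0) :
    y ∈ closedBall (0 : Pl ν) ρ := by
  have h := hF _ hy
  rw [tang_pl hν] at h
  simpa using h

lemma int_of {ν : Sp d} (hν : ‖ν‖ = 1) {F : Sp d → ℝ} {ρ : ℝ}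
    (hF : ∀ y, F y ≠ 0 → ‖tang ν y‖ ≤ ρ) (c : ℝ) :
    HasCompactSupport (fun y : Pl ν => F (c • ν + (y : Sp d))) := by
  refine HasCompactSupport.intro (isCompact_closedBall (0 : Pl ν) ρ) ?_
  intro y hy
  by_contra h
  exact hy (supp_sub hν hF c y h)

lemma bound (n : ℕ) (ρ : ℝ) : ∃ C : ℝ, 0 < C ∧ ∀ (ν : Sp (n + 1)), ‖ν‖ = 1 →
    ∀ (F : Sp (n + 1) → ℝ) (N : ℝ), Continuous F →
      (∀ y, |F y| ≤ N) → (∀ y, F y ≠ 0 → ‖tang ν y‖ ≤ ρ) → ∀ c, |plInt ν c F| ≤ C * N := by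
  refine ⟨(volume (closedBall (0 : Sp n) ρ)).toReal + 1, by positivity, ?_⟩
  intro ν hν F N hF hN hs c
  have hN0 : 0 ≤ N := le_trans (abs_nonneg _) (hN 0)
  have hi : plInt ν c F = ∫ y in closedBall (0 : Pl ν) ρ, F (c • ν + (y : Sp (n + 1))) := by
    unfold plInt
    rw [setIntegral_eq_integral_of_forall_compl_eq_zero]
    intro y hy
    by_contra h
    exact hy (supp_sub hν hs c y h)
  rw [hi]
  have h1 := norm_setIntegral_le_of_norm_le_const (μ := (volume : Measure (Pl ν)))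
    (s := closedBall (0 : Pl ν) ρ) (f := fun y : Pl ν => F (c • ν + (y : Sp (n + 1)))) (C := N)
    measure_closedBall_lt_top (fun y _ => by rw [Real.norm_eq_abs]; exact hN _)
  rw [Real.norm_eq_abs] at h1
  have h2 : volume.real (closedBall (0 : Pl ν) ρ) = (volume (closedBall (0 : Sp n) ρ)).toReal := by
    rw [Measure.real, vol n ν hν ρ]
  rw [h2] at h1
  nlinarith

/-! ### regularity in c -/

lemma cs_fd {X : Type*} [NormedAddCommGroup X] [NormedSpace ℝ X] {F : X → ℝ}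
    (h : HasCompactSupport F) (w : X) : HasCompactSupport (fun y => fderiv ℝ F y w) := by
  refine (h.fderiv ℝ).mono ?_
  intro y hy h0
  apply hy
  show fderiv ℝ F y w = 0
  rw [h0]
  rfl

/-- compactly supported functions vanish outside a cylinder and outside a strip -/
lemma cs_bd {F : Sp d → ℝ} (h : HasCompactSupport F) : ∃ ρ : ℝ, ∀ y, F y ≠ 0 → ‖y‖ ≤ ρ := by
  obtain ⟨ρ, hρ⟩ := h.isCompact.isBounded.subset_closedBall (0 : Sp d)
  refine ⟨ρ, fun y hy => ?_⟩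
  have := hρ (subset_tsupport F hy)
  simpa using this

lemma norm_tang_le {ν : Sp d} (hν : ‖ν‖ = 1) (y : Sp d) : ‖tang ν y‖ ≤ ‖y‖ := by
  have h : ‖tang ν y‖ ^ 2 = ‖y‖ ^ 2 - ⟪ν, y⟫_ℝ ^ 2 := by
    unfold tang
    rw [norm_sub_sq_real, norm_smul, hν, inner_smul_right, real_inner_comm]
    simp
    ring
  nlinarith only [h, norm_nonneg y]

lemma cs_tang {ν : Sp d} (hν : ‖ν‖ = 1) {F : Sp d → ℝ} (h : HasCompactSupport F) :
    ∃ ρ : ℝ, ∀ y, F y ≠ 0 → ‖tang ν y‖ ≤ ρ := by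
  obtain ⟨ρ, hρ⟩ := cs_bd h
  exact ⟨ρ, fun y hy => (norm_tang_le hν y).trans (hρ y hy)⟩

lemma bdd {F : Sp d → ℝ} (hF : Continuous F) (h : HasCompactSupport F) :
    ∃ N : ℝ, ∀ y, |F y| ≤ N := by
  obtain ⟨N, hN⟩ := h.exists_bound_of_continuous hF
  exact ⟨N, fun y => by simpa using hN y⟩

lemma integrable_pl {ν : Sp d} (hν : ‖ν‖ = 1) {F : Sp d → ℝ} (hc : Continuous F) {ρ : ℝ}
    (hF : ∀ y, F y ≠ 0 → ‖tang ν y‖ ≤ ρ) (c : ℝ) :
    Integrable (fun y : Pl ν => F (c • ν + (y : Sp d))) :=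
  (show Continuous (fun y : Pl ν => F (c • ν + (y : Sp d))) by fun_prop).integrable_of_hasCompactSupport
    (int_of hν hF c)

lemma cont {ν : Sp d} (hν : ‖ν‖ = 1) (F : Sp d → ℝ) (hF : Continuous F)
    (h : HasCompactSupport F) : Continuous (fun c => plInt ν c F) := by
  obtain ⟨ρ, hρ⟩ := cs_tang hν h
  obtain ⟨N, hN⟩ := bdd hF h
  unfold plInt
  refine continuous_of_dominated (bound := (closedBall (0 : Pl ν) ρ).indicator (fun _ => N)) ?_ ?_ ?_ ?_
  · intro c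
    exact (show Continuous (fun y : Pl ν => F (c • ν + (y : Sp d))) by fun_prop).aestronglyMeasurable
  · intro c
    refine Filter.Eventually.of_forall fun y => ?_
    by_cases hy : y ∈ closedBall (0 : Pl ν) ρ
    · rw [indicator_of_mem hy, Real.norm_eq_abs]; exact hN _
    · rw [indicator_of_notMem hy]
      have : F (c • ν + (y : Sp d)) = 0 := by
        by_contra h'
        exact hy (supp_sub hν hρ c y h')
      rw [this, norm_zero]
  · exact (integrable_indicator_iff measurableSet_closedBall).2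
      (integrableOn_const (measure_closedBall_lt_top.ne))
  · exact Filter.Eventually.of_forall fun y => by fun_prop

lemma deriv_pl {ν : Sp d} (hν : ‖ν‖ = 1) (F : Sp d → ℝ) (hF : ContDiff ℝ 1 F)
    (h : HasCompactSupport F) (c : ℝ) :
    HasDerivAt (fun c => plInt ν c F) (plInt ν c (fun y => fderiv ℝ F y ν)) c := by
  have hF' : Continuous (fun y => fderiv ℝ F y ν) :=
    (hF.continuous_fderiv one_ne_zero).clm_apply continuous_const
  have h' : HasCompactSupport (fun y => fderiv ℝ F y ν) := cs_fd h ν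
  obtain ⟨ρ, hρ⟩ := cs_tang hν h
  obtain ⟨ρ', hρ'⟩ := cs_tang hν h'
  obtain ⟨N, hN⟩ := bdd hF' h'
  unfold plInt
  refine (hasDerivAt_integral_of_dominated_loc_of_deriv_le (s := univ)
    (F := fun (c : ℝ) (y : Pl ν) => F (c • ν + (y : Sp d)))
    (F' := fun (c : ℝ) (y : Pl ν) => fderiv ℝ F (c • ν + (y : Sp d)) ν)
    (bound := (closedBall (0 : Pl ν) ρ').indicator (fun _ => N)) Filter.univ_mem ?_ ?_ ?_ ?_ ?_ ?_).2
  · refine Filter.Eventually.of_forall fun c => ?_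
    exact (show Continuous (fun y : Pl ν => F (c • ν + (y : Sp d))) from
      hF.continuous.comp (by fun_prop)).aestronglyMeasurable
  · exact integrable_pl hν hF.continuous hρ c
  · exact (show Continuous (fun y : Pl ν => fderiv ℝ F (c • ν + (y : Sp d)) ν) from
      hF'.comp (by fun_prop)).aestronglyMeasurable
  · refine Filter.Eventually.of_forall fun y c _ => ?_
    by_cases hy : y ∈ closedBall (0 : Pl ν) ρ'
    · rw [indicator_of_mem hy, Real.norm_eq_abs]; exact hN _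
    · rw [indicator_of_notMem hy]
      have : fderiv ℝ F (c • ν + (y : Sp d)) ν = 0 := by
        by_contra h''
        exact hy (supp_sub hν hρ' c y h'')
      rw [this, norm_zero]
  · exact (integrable_indicator_iff measurableSet_closedBall).2
      (integrableOn_const (measure_closedBall_lt_top.ne))
  · refine Filter.Eventually.of_forall fun y c _ => ?_
    have h1 : HasDerivAt (fun c : ℝ => c • ν + (y : Sp d)) ν c := by
      simpa using ((hasDerivAt_id c).smul_const ν).add_const (y : Sp d)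
    have h2 := (hF.differentiable one_ne_zero (c • ν + (y : Sp d))).hasFDerivAt
    exact h2.comp_hasDerivAt c h1

lemma contDiff_pl {ν : Sp d} (hν : ‖ν‖ = 1) : ∀ (J : ℕ) (F : Sp d → ℝ), ContDiff ℝ J F →
    HasCompactSupport F → ContDiff ℝ J (fun c => plInt ν c F) := by
  intro J
  induction J with
  | zero =>
    intro F hF h
    rw [Nat.cast_zero, contDiff_zero] at hF ⊢
    exact cont hν F hF h
  | succ J ih =>
    intro F hF h
    have hF1 : ContDiff ℝ 1 F := hF.of_le (by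
      rw [Nat.cast_succ]
      exact le_add_self)
    have hd : deriv (fun c => plInt ν c F) = fun c => plInt ν c (fun y => fderiv ℝ F y ν) := by
      ext c
      exact (deriv_pl hν F hF1 h c).deriv
    rw [Nat.cast_succ, contDiff_succ_iff_deriv]
    refine ⟨fun c => (deriv_pl hν F hF1 h c).differentiableAt, by simp, ?_⟩
    rw [hd]
    refine ih _ ?_ ?_
    · have := hF.fderiv_right (m := (J : WithTop ℕ∞)) (by rw [Nat.cast_succ])
      exact this.clm_apply contDiff_const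
    · exact cs_fd h ν

/-! ### tangential derivatives -/

lemma zero_of {ν : Sp d} (F : Sp d → ℝ) (hF : ContDiff ℝ 1 F) (c : ℝ)
    (h : HasCompactSupport (fun y : Pl ν => F (c • ν + (y : Sp d)))) (w : Sp d)
    (hw : ⟪ν, w⟫_ℝ = 0) : plInt ν c (fun y => fderiv ℝ F y w) = 0 := by
  set W : Pl ν := ⟨w, Submodule.mem_orthogonal_singleton_iff_inner_right.2 hw⟩ with hW
  set G : Pl ν → ℝ := fun y => F (c • ν + (y : Sp d)) with hG
  have hGc : ContDiff ℝ 1 G := hF.comp (contDiff_const.add (Pl ν).subtypeL.contDiff)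
  have hd : ∀ y : Pl ν, fderiv ℝ G y W = fderiv ℝ F (c • ν + (y : Sp d)) w := by
    intro y
    have h1 : HasFDerivAt (fun y : Pl ν => c • ν + (y : Sp d)) (Pl ν).subtypeL y :=
      (Pl ν).subtypeL.hasFDerivAt.const_add _
    have h2 := (hF.differentiable one_ne_zero (c • ν + (y : Sp d))).hasFDerivAt
    have h3 := (h2.comp y h1).fderiv
    change fderiv ℝ (F ∘ fun y : Pl ν => c • ν + (y : Sp d)) y W = _
    rw [h3]
    rfl
  have hcont : Continuous (fun y => fderiv ℝ G y W) :=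
    (hGc.continuous_fderiv one_ne_zero).clm_apply continuous_const
  have hcs : HasCompactSupport (fun y => fderiv ℝ G y W) := cs_fd h W
  have h1 := integral_mul_fderiv_eq_neg_fderiv_mul_of_integrable (μ := (volume : Measure (Pl ν)))
    (f := fun _ : Pl ν => (1 : ℝ)) (g := G) (v := W) (by simp)
    (by simpa using hcont.integrable_of_hasCompactSupport hcs)
    (by simpa using hGc.continuous.integrable_of_hasCompactSupport h)
    (fun _ _ => differentiableAt_const _) (fun y _ => hGc.differentiable one_ne_zero y)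
  simp only [one_mul, fderiv_fun_const, Pi.zero_apply, zero_apply, zero_mul,
    integral_zero, neg_zero] at h1
  unfold plInt
  rw [← h1]
  exact integral_congr_ae (Filter.Eventually.of_forall fun y => (hd y).symm)

end PF

theorem stmtPF : StmtPF := by
  intro d hd
  obtain ⟨n, rfl⟩ : ∃ n, d = n + 1 := ⟨d - 1, by omega⟩
  refine ⟨PF.bound n, fun ν hν => ⟨PF.fubini hν, PF.cont hν, PF.deriv_pl hν, PF.contDiff_pl hν,
    ?_, ?_⟩⟩
  · intro F hF h c w hw
    obtain ⟨ρ, hρ⟩ := PF.cs_tang hν h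
    exact PF.zero_of F hF c (PF.int_of hν hρ c) w hw
  · rintro F hF - ⟨ρ, hρ⟩ c w hw
    exact PF.zero_of F hF c (PF.int_of hν hρ c) w hw

end

end TG


end

section

/-!
# The kernel k R^(-4) and its derivatives (module TG_MO, first part, helper37)
-/

open MeasureTheory Metric Set TrI Filter
open scoped InnerProductSpace ContDiff Nat Topology

namespace TG.MO

noncomputable section

variable {d : ℕ}

/-! ### General derivative bounds -/

/-- composition with a function on the half line, normalised at the value one -/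
lemma comp_bd (ψ : ℝ → ℝ) (hψ : ContDiffOn ℝ ∞ ψ (Ioi 0)) (J : ℕ) : ∃ C : ℝ, 0 < C ∧
    ∀ (u : Sp d → ℝ) (x0 : Sp d) (D : ℝ), 1 ≤ D → ContDiff ℝ ∞ u → (∀ x, 0 < u x) → u x0 = 1 →
      (∀ i : ℕ, 1 ≤ i → i ≤ J → ‖iteratedFDeriv ℝ i u x0‖ ≤ D ^ i) →
      ∀ j ≤ J, ‖iteratedFDeriv ℝ j (fun x => ψ (u x)) x0‖ ≤ C * D ^ J := by
  set S : ℝ := ∑ i ∈ Finset.range (J + 1), ‖iteratedFDerivWithin ℝ i ψ (Ioi 0) 1‖ with hS
  have hS0 : 0 ≤ S := Finset.sum_nonneg fun _ _ => norm_nonneg _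
  refine ⟨J ! * (S + 1), by positivity, ?_⟩
  intro u x0 D hD hu hpos hx0 hb j hj
  have h1 := norm_iteratedFDerivWithin_comp_le (n := j) (N := ∞) (g := ψ) (f := u) (s := univ) (t := Ioi 0)
    (x := x0) (C := S) (D := D) hψ hu.contDiffOn (by exact_mod_cast le_top) (uniqueDiffOn_Ioi 0)
    uniqueDiffOn_univ (fun x _ => hpos x) (mem_univ x0) ?_ ?_
  · rw [iteratedFDerivWithin_univ] at h1
    refine h1.trans ?_
    have h2 : (j ! : ℝ) ≤ J ! := by exact_mod_cast Nat.factorial_le hj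
    have h3 : D ^ j ≤ D ^ J := pow_le_pow_right₀ hD hj
    have h4 : (j ! : ℝ) * S ≤ J ! * (S + 1) :=
      mul_le_mul h2 (by linarith) hS0 (by positivity)
    exact mul_le_mul h4 h3 (by positivity) (by positivity)
  · intro i hi
    rw [hx0, hS]
    exact Finset.single_le_sum (f := fun i => ‖iteratedFDerivWithin ℝ i ψ (Ioi 0) 1‖)
      (fun _ _ => norm_nonneg _) (Finset.mem_range.mpr (by omega))
  · intro i h1i hi
    rw [iteratedFDerivWithin_univ]
    exact hb i h1i (hi.trans hj)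

/-- product rule -/
lemma mul_bd {f g : Sp d → ℝ} (hf : ContDiff ℝ ∞ f) (hg : ContDiff ℝ ∞ g) (x : Sp d) (J : ℕ) (a b : ℝ)
    (hfa : ∀ i ≤ J, ‖iteratedFDeriv ℝ i f x‖ ≤ a) (hgb : ∀ i ≤ J, ‖iteratedFDeriv ℝ i g x‖ ≤ b) :
    ∀ j ≤ J, ‖iteratedFDeriv ℝ j (fun y => f y * g y) x‖ ≤ 2 ^ J * (a * b) := by
  intro j hj
  have ha : 0 ≤ a := (norm_nonneg _).trans (hfa 0 (Nat.zero_le _))
  have hb : 0 ≤ b := (norm_nonneg _).trans (hgb 0 (Nat.zero_le _))
  refine (norm_iteratedFDeriv_mul_le (N := ∞) hf hg x (n := j) (by exact_mod_cast le_top)).trans ?_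
  have h1 : ∀ i ∈ Finset.range (j + 1), (j.choose i : ℝ) * ‖iteratedFDeriv ℝ i f x‖ *
      ‖iteratedFDeriv ℝ (j - i) g x‖ ≤ j.choose i * (a * b) := by
    intro i hi
    have hi' : i ≤ j := by have := Finset.mem_range.mp hi; omega
    have e1 := hfa i (hi'.trans hj)
    have e2 := hgb (j - i) (by omega)
    rw [mul_assoc]
    exact mul_le_mul_of_nonneg_left (mul_le_mul e1 e2 (norm_nonneg _) ha) (by positivity)
  refine (Finset.sum_le_sum h1).trans ?_
  rw [← Finset.sum_mul]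
  have h2 : (∑ i ∈ Finset.range (j + 1), (j.choose i : ℝ)) = 2 ^ j := by
    exact_mod_cast Nat.sum_range_choose j
  rw [h2]
  exact mul_le_mul_of_nonneg_right (pow_le_pow_right₀ (by norm_num) hj) (by positivity)

/-! ### The squared norm -/

lemma fderiv_sqn (a b : ℝ) : fderiv ℝ (fun x : Sp d => a * (b + ‖x‖ ^ 2)) =
    fun x => ((2 * a) • innerSL ℝ : Sp d →L[ℝ] Sp d →L[ℝ] ℝ) x := by
  funext x
  have h1 : HasFDerivAt (fun x : Sp d => ‖x‖ ^ 2) (2 • (innerSL ℝ x)) x :=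
    (hasStrictFDerivAt_norm_sq x).hasFDerivAt
  have h2 := (h1.const_add b).const_mul a
  rw [h2.fderiv]
  ext v
  simp
  ring

lemma sqn_bd (a b : ℝ) (ha : 0 ≤ a) (x : Sp d) (i : ℕ) (hi : 1 ≤ i) (D : ℝ) (hD : 1 ≤ D)
    (h1 : 2 * a * ‖x‖ ≤ D) (h2 : 2 * a ≤ D ^ 2) :
    ‖iteratedFDeriv ℝ i (fun x : Sp d => a * (b + ‖x‖ ^ 2)) x‖ ≤ D ^ i := by
  obtain ⟨k, rfl⟩ : ∃ k, i = k + 1 := ⟨i - 1, by omega⟩
  rw [← norm_iteratedFDeriv_fderiv, fderiv_sqn]
  rcases Nat.eq_zero_or_pos k with rfl | hk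
  · rw [norm_iteratedFDeriv_zero]
    have e : ((2 * a) • innerSL ℝ : Sp d →L[ℝ] Sp d →L[ℝ] ℝ) x = (2 * a) • innerSL ℝ x := rfl
    rw [e, norm_smul, innerSL_apply_norm, Real.norm_of_nonneg (by positivity)]
    simpa using h1
  · obtain ⟨l, rfl⟩ : ∃ l, k = l + 1 := ⟨k - 1, by omega⟩
    rw [← norm_iteratedFDeriv_fderiv]
    have e : fderiv ℝ (fun x => ((2 * a) • innerSL ℝ : Sp d →L[ℝ] Sp d →L[ℝ] ℝ) x) =
        fun _ => ((2 * a) • innerSL ℝ : Sp d →L[ℝ] Sp d →L[ℝ] ℝ) := by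
      funext x
      exact ContinuousLinearMap.fderiv _
    rw [e]
    rcases Nat.eq_zero_or_pos l with rfl | hl
    · rw [norm_iteratedFDeriv_zero]
      refine (ContinuousLinearMap.opNorm_le_bound _ (by positivity) fun y => ?_).trans h2
      have e : ((2 * a) • innerSL ℝ : Sp d →L[ℝ] Sp d →L[ℝ] ℝ) y = (2 * a) • innerSL ℝ y := rfl
      rw [e, norm_smul, innerSL_apply_norm, Real.norm_of_nonneg (by positivity)]
    · rw [iteratedFDeriv_const_of_ne (by omega)]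
      simp only [Pi.zero_apply, norm_zero]
      positivity

/-! ### The kernel -/

/-- the kernel k R^(-4) -/
def K (r : ℝ) (x : Sp d) : ℝ := kk r x / (r ^ 2 + ‖x‖ ^ 2) ^ 2

/-- the radius -/
def R (r : ℝ) (x : Sp d) : ℝ := Real.sqrt (r ^ 2 + ‖x‖ ^ 2)

lemma R_sq (r : ℝ) (x : Sp d) : R r x ^ 2 = r ^ 2 + ‖x‖ ^ 2 := Real.sq_sqrt (by positivity)

lemma R_pos {r : ℝ} (hr : 0 < r) (x : Sp d) : 0 < R r x := Real.sqrt_pos.mpr (by positivity)

lemma le_R {r : ℝ} (hr : 0 < r) (x : Sp d) : r ≤ R r x := by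
  apply Real.le_sqrt_of_sq_le
  nlinarith [sq_nonneg ‖x‖]

lemma norm_le_R (r : ℝ) (x : Sp d) : ‖x‖ ≤ R r x := by
  apply Real.le_sqrt_of_sq_le
  nlinarith [sq_nonneg r]

lemma K_eq (r : ℝ) (x : Sp d) : K r x = r / R r x ^ (d + 4) := by
  unfold K kk
  rw [← R_sq r x, div_div]
  have : Real.sqrt (R r x ^ 2) = R r x := Real.sqrt_sq (Real.sqrt_nonneg _)
  rw [this]
  congr 1
  ring

lemma K_pos {r : ℝ} (hr : 0 < r) (x : Sp d) : 0 < K r x := by
  rw [K_eq]
  have := R_pos hr x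
  positivity

lemma K_neg (r : ℝ) (x : Sp d) : K r (-x) = K r x := by
  rw [K_eq, K_eq]; unfold R; rw [norm_neg]

lemma R_le {r : ℝ} (hr : 0 < r) (x x' : Sp d) : R r x ≤ (1 + ‖x - x'‖ / r) * R r x' := by
  have h1 : R r x ≤ R r x' + ‖x - x'‖ := by
    have h0 : 0 ≤ R r x' + ‖x - x'‖ := add_nonneg (Real.sqrt_nonneg _) (norm_nonneg _)
    refine (abs_le_of_sq_le_sq' ?_ h0).2
    have h2 : ‖x‖ ≤ ‖x'‖ + ‖x - x'‖ := by
      have := norm_add_le x' (x - x')
      simpa using this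
    have h3 := R_sq r x
    have h4 := R_sq r x'
    have h5 := norm_le_R r x'
    have h6 := norm_nonneg (x - x')
    have h7 := norm_nonneg x
    have h8 := norm_nonneg x'
    nlinarith only [h3, h4, h2, h7, h5, h6]
  have h2 := le_R hr x'
  have h3 : ‖x - x'‖ ≤ ‖x - x'‖ / r * R r x' := by
    rw [div_mul_eq_mul_div, le_div_iff₀ hr]
    exact mul_le_mul_of_nonneg_left h2 (norm_nonneg _)
  linarith

/-- Harnack inequality for the kernel -/
lemma K_harnack {r : ℝ} (hr : 0 < r) (x x' : Sp d) :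
    K r x' ≤ (1 + ‖x - x'‖ / r) ^ (d + 4) * K r x := by
  rw [K_eq, K_eq, mul_div_assoc', div_le_div_iff₀ (by have := R_pos hr x'; positivity)
    (by have := R_pos hr x; positivity)]
  have h1 := R_le hr x x'
  have h2 : R r x ^ (d + 4) ≤ ((1 + ‖x - x'‖ / r) * R r x') ^ (d + 4) :=
    pow_le_pow_left₀ (R_pos hr x).le h1 _
  rw [mul_pow] at h2
  nlinarith

/-- comparison of times -/
lemma K_time {r s : ℝ} (hr : 0 < r) (hrs : r ≤ 4 * s) (hsr : s ≤ 4 * r) (x : Sp d) :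
    K r x ≤ 4 ^ (d + 5) * K s x := by
  have hs : 0 < s := by linarith
  rw [K_eq, K_eq, mul_div_assoc', div_le_div_iff₀ (by have := R_pos hr x; positivity)
    (by have := R_pos hs x; positivity)]
  have h1 : R s x ≤ 4 * R r x := by
    have h0 : 0 ≤ 4 * R r x := mul_nonneg (by norm_num) (Real.sqrt_nonneg _)
    refine (abs_le_of_sq_le_sq' ?_ h0).2
    have h3 := R_sq r x
    have h4 := R_sq s x
    have h5 := norm_nonneg x
    nlinarith only [h3, h4, hsr, hrs]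
  have h2 : R s x ^ (d + 4) ≤ (4 * R r x) ^ (d + 4) := pow_le_pow_left₀ (R_pos hs x).le h1 _
  rw [mul_pow] at h2
  have h3 := R_pos hr x
  have h4 : r * R s x ^ (d + 4) ≤ (4 * s) * (4 ^ (d + 4) * R r x ^ (d + 4)) :=
    mul_le_mul hrs h2 (by have := R_pos hs x; positivity) (by positivity)
  refine h4.trans (le_of_eq ?_)
  ring

/-- the function u ↦ u^(-(d+4)/2) -/
def psi (d : ℕ) (u : ℝ) : ℝ := (Real.sqrt u ^ (d + 4))⁻¹

lemma psi_cd (d : ℕ) : ContDiffOn ℝ ∞ (psi d) (Ioi 0) := by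
  intro u hu
  have hu' : 0 < u := hu
  have h1 : ContDiffAt ℝ ∞ (fun u : ℝ => Real.sqrt u) u := Real.contDiffAt_sqrt hu'.ne'
  have h2 : ContDiffAt ℝ ∞ (psi d) u :=
    ContDiffAt.inv (h1.pow (d + 4)) (by have := Real.sqrt_pos.mpr hu'; positivity)
  exact h2.contDiffWithinAt

lemma K_psi {r : ℝ} (hr : 0 < r) (x0 x : Sp d) :
    K r x = r / R r x0 ^ (d + 4) * psi d ((1 / R r x0 ^ 2) * (r ^ 2 + ‖x‖ ^ 2)) := by
  have h0 := R_pos hr x0
  have h1 := R_pos hr x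
  have e : (1 / R r x0 ^ 2) * (r ^ 2 + ‖x‖ ^ 2) = (R r x / R r x0) ^ 2 := by
    rw [div_pow, R_sq r x]; ring
  rw [e]
  unfold psi
  rw [Real.sqrt_sq (by positivity), K_eq, div_pow, inv_div]
  field_simp

lemma K_cd {r : ℝ} (hr : 0 < r) : ContDiff ℝ ∞ (K (d := d) r) := by
  have e : (K (d := d) r) = fun x => r / R r (0 : Sp d) ^ (d + 4) *
      psi d ((1 / R r (0 : Sp d) ^ 2) * (r ^ 2 + ‖x‖ ^ 2)) := funext fun x => K_psi hr 0 x
  rw [e]
  have h0 := R_pos hr (0 : Sp d)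
  refine contDiff_const.mul ?_
  rw [contDiff_iff_contDiffAt]
  intro x
  have hu : (0 : ℝ) < (1 / R r (0 : Sp d) ^ 2) * (r ^ 2 + ‖x‖ ^ 2) := by positivity
  have h1 : ContDiffAt ℝ ∞ (psi d) ((1 / R r (0 : Sp d) ^ 2) * (r ^ 2 + ‖x‖ ^ 2)) :=
    (psi_cd d).contDiffAt (Ioi_mem_nhds hu)
  have h2 : ContDiffAt ℝ ∞ (fun x : Sp d => (1 / R r (0 : Sp d) ^ 2) * (r ^ 2 + ‖x‖ ^ 2)) x :=
    contDiffAt_const.mul (contDiffAt_const.add (contDiff_norm_sq ℝ).contDiffAt)
  exact ContDiffAt.comp (g := psi d) x h1 h2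

/-- derivatives of the kernel -/
lemma K_bd (d J : ℕ) : ∃ C : ℝ, 0 < C ∧ ∀ (r : ℝ) (x : Sp d), 1 / 2 ≤ r → ∀ j ≤ J,
    ‖iteratedFDeriv ℝ j (K r) x‖ ≤ C * K r x := by
  obtain ⟨C, hC, hb⟩ := comp_bd (d := d) (psi d) (psi_cd d) J
  refine ⟨C * 4 ^ J, by positivity, ?_⟩
  intro r x0 hr j hj
  have hr0 : 0 < r := by linarith
  have hR := R_pos hr0 x0
  have hR2 : 1 / 2 ≤ R r x0 := hr.trans (le_R hr0 x0)
  have e : (K (d := d) r) = fun x => (r / R r x0 ^ (d + 4)) •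
      psi d ((1 / R r x0 ^ 2) * (r ^ 2 + ‖x‖ ^ 2)) := funext fun x => K_psi hr0 x0 x
  have hu : ContDiff ℝ ∞ (fun x : Sp d => (1 / R r x0 ^ 2) * (r ^ 2 + ‖x‖ ^ 2)) :=
    contDiff_const.mul (contDiff_const.add (contDiff_norm_sq ℝ))
  have h1 := hb (fun x : Sp d => (1 / R r x0 ^ 2) * (r ^ 2 + ‖x‖ ^ 2)) x0 4 (by norm_num) hu
    (fun x => by positivity) (by beta_reduce; rw [← R_sq r x0]; field_simp) ?_ j hj
  · have h2 : ContDiff ℝ ∞ (fun x : Sp d => psi d ((1 / R r x0 ^ 2) * (r ^ 2 + ‖x‖ ^ 2))) := by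
      rw [contDiff_iff_contDiffAt]
      intro x
      have hu' : (0 : ℝ) < (1 / R r x0 ^ 2) * (r ^ 2 + ‖x‖ ^ 2) := by positivity
      exact ContDiffAt.comp (g := psi d) x ((psi_cd d).contDiffAt (Ioi_mem_nhds hu')) hu.contDiffAt
    have h3 : iteratedFDeriv ℝ j (K (d := d) r) x0 = (r / R r x0 ^ (d + 4)) •
        iteratedFDeriv ℝ j (fun x : Sp d => psi d ((1 / R r x0 ^ 2) * (r ^ 2 + ‖x‖ ^ 2))) x0 := by
      rw [e]
      exact iteratedFDeriv_const_smul_apply' (h2.of_le (by exact_mod_cast le_top)).contDiffAt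
    rw [h3, norm_smul, Real.norm_of_nonneg (by positivity), K_eq]
    calc r / R r x0 ^ (d + 4) * _ ≤ r / R r x0 ^ (d + 4) * (C * 4 ^ J) :=
          mul_le_mul_of_nonneg_left h1 (by positivity)
      _ = C * 4 ^ J * (r / R r x0 ^ (d + 4)) := by ring
  · intro i hi _
    refine sqn_bd (1 / R r x0 ^ 2) (r ^ 2) (by positivity) x0 i hi 4 (by norm_num) ?_ ?_
    · have h4 := norm_le_R r x0
      have h5 : 2 * (1 / R r x0 ^ 2) * ‖x0‖ = 2 * ‖x0‖ / R r x0 ^ 2 := by ring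
      rw [h5, div_le_iff₀ (by positivity)]
      nlinarith only [h4, hR2]
    · have h5 : 2 * (1 / R r x0 ^ 2) = 2 / R r x0 ^ 2 := by ring
      rw [h5, div_le_iff₀ (by positivity)]
      nlinarith only [hR2]

end

end TG.MO


end

section

/-!
# The integrand of the moments (module TG_MO, second part, helper37)
-/

open MeasureTheory Metric Set TrI Filter
open scoped InnerProductSpace ContDiff Nat Topology

namespace TG.MO

noncomputable section

variable {d : ℕ}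

/-- the properties of the potential given by StmtTH -/
structure THd (J : ℕ) (C : ℝ) (μ : Measure (Sp d)) : Prop where
  pos : ∀ (t : ℝ) (x : Sp d), 0 < t → 0 < th μ t x
  smooth : ContDiffOn ℝ ∞ (fun p : ℝ × Sp d => vv μ p.1 p.2) {p | 0 < p.1}
  der : ∀ (t : ℝ) (x : Sp d) (j : ℕ), 0 < t → j ≤ J →
        ‖iteratedFDeriv ℝ j (fun p : ℝ × Sp d => vv μ p.1 p.2) (t, x)‖ ≤
          C * vv μ t x / t ^ j
  har : ∀ (t : ℝ) (x x' : Sp d), 0 < t → th μ t x' ≤ (1 + ‖x - x'‖ / t) ^ d * th μ t x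
  tim : ∀ (s t : ℝ) (x : Sp d), 0 < t → t / 8 ≤ s → s ≤ 8 * t → th μ s x ≤ C * th μ t x

lemma isOpen_posU : IsOpen {p : ℝ × Sp d | 0 < p.1} :=
  isOpen_lt continuous_const continuous_fst

/-- partial derivatives are bounded by joint derivatives -/
lemma part_le {g : ℝ × Sp d → ℝ} (hg : ContDiffOn ℝ ∞ g {p | 0 < p.1}) {r : ℝ} (hr : 0 < r)
    (y : Sp d) (j : ℕ) :
    ‖iteratedFDeriv ℝ j (fun x => g (r, x)) y‖ ≤ ‖iteratedFDeriv ℝ j g (r, y)‖ := by
  set s : Set (ℝ × Sp d) := {p | 0 < r + p.1} with hs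
  have hso : IsOpen s := isOpen_lt continuous_const (continuous_const.add continuous_fst)
  set g' : ℝ × Sp d → ℝ := fun p => g ((r, 0) + p) with hg'
  have hg's : ContDiffOn ℝ ∞ g' s := by
    refine ContDiffOn.comp (g := g) (t := {p | 0 < p.1}) hg ?_ ?_
    · exact (contDiff_const.add contDiff_id).contDiffOn
    · intro p hp
      exact hp
  set L : Sp d →L[ℝ] ℝ × Sp d := ContinuousLinearMap.inr ℝ ℝ (Sp d) with hL
  have hpre : L ⁻¹' s = univ := by
    ext x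
    simp [hs, hL, hr]
  have hLy : L y ∈ s := by
    have : y ∈ L ⁻¹' s := by rw [hpre]; trivial
    exact this
  have h1 := ContinuousLinearMap.iteratedFDerivWithin_comp_right (i := j) L hg's hso.uniqueDiffOn
    (by rw [hpre]; exact uniqueDiffOn_univ) hLy (by exact_mod_cast le_top)
  rw [hpre, iteratedFDerivWithin_univ] at h1
  have e1 : g' ∘ L = fun x => g (r, x) := by
    funext x
    simp [hg', hL]
  rw [e1] at h1
  rw [h1, iteratedFDerivWithin_of_isOpen j hso hLy, hg', iteratedFDeriv_comp_add_left]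
  have e2 : (r, (0 : Sp d)) + L y = (r, y) := by simp [hL]
  rw [e2]
  refine (ContinuousMultilinearMap.norm_compContinuousLinearMap_le _ _).trans ?_
  have h2 : ‖L‖ ≤ 1 := ContinuousLinearMap.norm_inr_le_one ℝ ℝ (Sp d)
  have h3 : ∏ _i : Fin j, ‖L‖ ≤ 1 := by
    rw [Finset.prod_const]
    exact pow_le_one₀ (norm_nonneg _) h2
  calc _ ≤ ‖iteratedFDeriv ℝ j g (r, y)‖ * 1 := mul_le_mul_of_nonneg_left h3 (norm_nonneg _)
    _ = _ := mul_one _

lemma THd.vpos {J : ℕ} {C : ℝ} {μ : Measure (Sp d)} (h : THd J C μ) {r : ℝ} (hr : 0 < r) (y : Sp d) :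
    0 < vv μ r y := Real.sqrt_pos.mpr (h.pos r y hr)

lemma THd.vcd {J : ℕ} {C : ℝ} {μ : Measure (Sp d)} (h : THd J C μ) {r : ℝ} (hr : 0 < r) :
    ContDiff ℝ ∞ (vv μ r) := by
  rw [contDiff_iff_contDiffAt]
  intro y
  have h1 : ContDiffAt ℝ ∞ (fun p : ℝ × Sp d => vv μ p.1 p.2) (r, y) :=
    h.smooth.contDiffAt (isOpen_posU.mem_nhds hr)
  exact ContDiffAt.comp (g := fun p : ℝ × Sp d => vv μ p.1 p.2) y h1
    (contDiffAt_const.prodMk contDiffAt_id)

/-- derivatives of 1/v -/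
lemma vinv_bd (d J : ℕ) (C : ℝ) : ∃ C2 : ℝ, 0 < C2 ∧ ∀ μ : Measure (Sp d), THd J C μ →
    ∀ (r : ℝ) (y : Sp d), 1 / 2 ≤ r → ∀ j ≤ J,
      ‖iteratedFDeriv ℝ j (fun y => (vv μ r y)⁻¹) y‖ ≤ C2 * (vv μ r y)⁻¹ := by
  have hinv : ContDiffOn ℝ ∞ (fun u : ℝ => u⁻¹) (Ioi 0) := by
    intro u hu
    exact (contDiffAt_inv ℝ (ne_of_gt hu)).contDiffWithinAt
  obtain ⟨C0, hC0, hb⟩ := comp_bd (d := d) (fun u : ℝ => u⁻¹) hinv J
  set D : ℝ := 2 * max 1 C with hD
  have hD1 : 1 ≤ D := by have := le_max_left 1 C; linarith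
  refine ⟨C0 * D ^ J, by positivity, ?_⟩
  intro μ hμ r y0 hr j hj
  have hr0 : 0 < r := by linarith
  have hv := hμ.vpos hr0
  have hcd := hμ.vcd hr0
  have hu : ContDiff ℝ ∞ (fun x : Sp d => (vv μ r y0)⁻¹ • vv μ r x) := by
    show ContDiff ℝ ∞ (fun x : Sp d => (vv μ r y0)⁻¹ * vv μ r x)
    exact contDiff_const.mul hcd
  have h1 := hb (fun x : Sp d => (vv μ r y0)⁻¹ • vv μ r x) y0 D hD1 hu
    (fun x => mul_pos (inv_pos.mpr (hv y0)) (hv x)) (inv_mul_cancel₀ (hv y0).ne') ?_ j hj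
  · have e : (fun y => (vv μ r y)⁻¹) = fun x => (vv μ r y0)⁻¹ • ((vv μ r y0)⁻¹ • vv μ r x)⁻¹ := by
      funext x
      have := (hv y0).ne'
      have := (hv x).ne'
      simp only [smul_eq_mul]
      field_simp
    have hcd2 : ContDiff ℝ ∞ (fun x : Sp d => ((vv μ r y0)⁻¹ • vv μ r x)⁻¹) :=
      hu.inv (fun x => (mul_pos (inv_pos.mpr (hv y0)) (hv x)).ne')
    rw [e, iteratedFDeriv_const_smul_apply' (hcd2.of_le (by exact_mod_cast le_top)).contDiffAt,
      norm_smul, Real.norm_of_nonneg (inv_pos.mpr (hv y0)).le]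
    rw [mul_comm]
    exact mul_le_mul_of_nonneg_right h1 (inv_pos.mpr (hv y0)).le
  · intro i hi hiJ
    rw [iteratedFDeriv_const_smul_apply' (hcd.of_le (by exact_mod_cast le_top)).contDiffAt,
      norm_smul, Real.norm_of_nonneg (inv_pos.mpr (hv y0)).le]
    have h2 := (part_le hμ.smooth hr0 y0 i).trans (hμ.der r y0 i hr0 hiJ)
    have h3 : C ≤ max 1 C := le_max_right _ _
    have h4 : (1 : ℝ) ≤ max 1 C := le_max_left _ _
    have h5 : 1 ≤ (2 * r) ^ i := one_le_pow₀ (by linarith)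
    have h6 : max 1 C ≤ (max 1 C) ^ i := le_self_pow₀ h4 (by omega)
    have hvy := hv y0
    calc (vv μ r y0)⁻¹ * ‖iteratedFDeriv ℝ i (vv μ r) y0‖
        ≤ (vv μ r y0)⁻¹ * (C * vv μ r y0 / r ^ i) := mul_le_mul_of_nonneg_left h2 (by positivity)
      _ = C / r ^ i := by field_simp
      _ ≤ D ^ i := by
          rw [div_le_iff₀ (by positivity), hD, ← mul_pow]
          have h7 : (2 * max 1 C * r) ^ i = (2 * r) ^ i * (max 1 C) ^ i := by rw [← mul_pow]; congr 1; ring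
          rw [h7]
          exact (h3.trans h6).trans (le_mul_of_one_le_left (by positivity) h5)

/-! ### The integrand -/

/-- the integrand, without the factors which do not depend on y -/
def Gk (μ : Measure (Sp d)) (r : ℝ) (η y : Sp d) : ℝ := K r (y - η) * (vv μ r y)⁻¹

lemma Gk_pos {J : ℕ} {C : ℝ} {μ : Measure (Sp d)} (h : THd J C μ) {r : ℝ} (hr : 0 < r) (η y : Sp d) :
    0 < Gk μ r η y := mul_pos (K_pos hr _) (inv_pos.mpr (h.vpos hr y))

lemma Gk_cd {J : ℕ} {C : ℝ} {μ : Measure (Sp d)} (h : THd J C μ) {r : ℝ} (hr : 0 < r) (η : Sp d) :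
    ContDiff ℝ ∞ (Gk μ r η) := by
  have h1 : ContDiff ℝ ∞ (fun y : Sp d => K r (y - η)) :=
    ContDiff.comp (g := K r) (K_cd hr) (contDiff_id.sub contDiff_const)
  exact h1.mul ((h.vcd hr).inv fun y => (h.vpos hr y).ne')

lemma Gk_bd (d J : ℕ) (C : ℝ) : ∃ C3 : ℝ, 0 < C3 ∧ ∀ μ : Measure (Sp d), THd J C μ →
    ∀ (r : ℝ) (η y : Sp d), 1 / 2 ≤ r → ∀ j ≤ J,
      ‖iteratedFDeriv ℝ j (Gk μ r η) y‖ ≤ C3 * Gk μ r η y := by
  obtain ⟨C1, hC1, h1⟩ := K_bd d J
  obtain ⟨C2, hC2, h2⟩ := vinv_bd d J C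
  refine ⟨2 ^ J * (C1 * C2), by positivity, ?_⟩
  intro μ hμ r η y hr j hj
  have hr0 : 0 < r := by linarith
  have e1 : ContDiff ℝ ∞ (fun y : Sp d => K r (y - η)) :=
    ContDiff.comp (g := K r) (K_cd hr0) (contDiff_id.sub contDiff_const)
  have e2 : ContDiff ℝ ∞ (fun y : Sp d => (vv μ r y)⁻¹) := (hμ.vcd hr0).inv fun y => (hμ.vpos hr0 y).ne'
  have h3 := mul_bd e1 e2 y J (C1 * K r (y - η)) (C2 * (vv μ r y)⁻¹) ?_ ?_ j hj
  · refine h3.trans (le_of_eq ?_)
    unfold Gk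
    ring
  · intro i hi
    rw [iteratedFDeriv_comp_sub]
    exact h1 r (y - η) hr i hi
  · intro i hi
    exact h2 μ hμ r y hr i hi

lemma one_add_div_le {r s : ℝ} (hr : 1 / 2 ≤ r) (hs : 0 ≤ s) : 1 + s / r ≤ 1 + 2 * s := by
  have : s / r ≤ 2 * s := by
    rw [div_le_iff₀ (by linarith)]
    nlinarith only [hr, hs]
  linarith

lemma v_harnack {J : ℕ} {C : ℝ} {μ : Measure (Sp d)} (h : THd J C μ) {r : ℝ} (hr : 1 / 2 ≤ r)
    (y y' : Sp d) : vv μ r y ≤ (1 + 2 * ‖y - y'‖) ^ d * vv μ r y' := by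
  have hr0 : 0 < r := by linarith
  have h1 := h.har r y' y hr0
  have h2 := one_add_div_le hr (norm_nonneg (y' - y))
  rw [norm_sub_rev y' y] at h1 h2
  have h3 : (1 + ‖y - y'‖ / r) ^ d ≤ (1 + 2 * ‖y - y'‖) ^ d :=
    pow_le_pow_left₀ (by positivity) h2 d
  have h4 : (1 : ℝ) ≤ (1 + 2 * ‖y - y'‖) ^ d := one_le_pow₀ (by linarith [norm_nonneg (y - y')])
  have h5 : th μ r y ≤ ((1 + 2 * ‖y - y'‖) ^ d) ^ 2 * th μ r y' := by
    refine h1.trans (mul_le_mul_of_nonneg_right (h3.trans ?_) (h.pos r y' hr0).le)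
    nlinarith only [h4]
  unfold vv
  rw [← Real.sqrt_sq (show (0 : ℝ) ≤ (1 + 2 * ‖y - y'‖) ^ d by positivity), ← Real.sqrt_mul (by positivity)]
  exact Real.sqrt_le_sqrt h5

lemma Gk_harnack {J : ℕ} {C : ℝ} {μ : Measure (Sp d)} (h : THd J C μ) {r : ℝ} (hr : 1 / 2 ≤ r)
    (η y y' : Sp d) : Gk μ r η y' ≤ (1 + 2 * ‖y - y'‖) ^ (2 * d + 4) * Gk μ r η y := by
  have hr0 : 0 < r := by linarith
  have h1 := K_harnack hr0 (y - η) (y' - η)
  have e : y - η - (y' - η) = y - y' := by abel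
  rw [e] at h1
  have h2 : (1 + ‖y - y'‖ / r) ^ (d + 4) ≤ (1 + 2 * ‖y - y'‖) ^ (d + 4) :=
    pow_le_pow_left₀ (by positivity) (one_add_div_le hr (norm_nonneg _)) _
  have h3 : K r (y' - η) ≤ (1 + 2 * ‖y - y'‖) ^ (d + 4) * K r (y - η) :=
    h1.trans (mul_le_mul_of_nonneg_right h2 (K_pos hr0 _).le)
  have hv := h.vpos hr0 y
  have hv' := h.vpos hr0 y'
  have h4 : (vv μ r y')⁻¹ ≤ (1 + 2 * ‖y - y'‖) ^ d * (vv μ r y)⁻¹ := by
    have h5 := v_harnack h hr y y'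
    rw [inv_le_iff_one_le_mul₀ hv', ← div_eq_mul_inv, ← mul_div_right_comm, le_div_iff₀ hv, one_mul]
    exact h5
  have h6 := mul_le_mul h3 h4 (inv_pos.mpr hv').le (by have := K_pos hr0 (y - η); positivity)
  unfold Gk
  refine h6.trans (le_of_eq ?_)
  have e7 : 2 * d + 4 = (d + 4) + d := by omega
  rw [e7, pow_add]
  ring

/-- comparison of times for v -/
lemma v_time {J : ℕ} {C : ℝ} {μ : Measure (Sp d)} (h : THd J C μ) (hC : 0 < C) {r s : ℝ} (hs : 0 < s)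
    (h1 : s / 8 ≤ r) (h2 : r ≤ 8 * s) (y : Sp d) : vv μ r y ≤ Real.sqrt C * vv μ s y := by
  unfold vv
  rw [← Real.sqrt_mul hC.le]
  exact Real.sqrt_le_sqrt (h.tim r s y hs h1 h2)

lemma K_jcd : ContDiffOn ℝ ∞ (fun q : (ℝ × Sp d) × Sp d => K q.1.1 (q.2 - q.1.2)) {q | 0 < q.1.1} := by
  intro q hq
  have hq0 : (0 : ℝ) < q.1.1 := hq
  have h1 : ContDiffAt ℝ ∞ (fun q : (ℝ × Sp d) × Sp d => q.1.1 ^ 2 + ‖q.2 - q.1.2‖ ^ 2) q := by
    have h0 : ContDiffAt ℝ ∞ (fun q : (ℝ × Sp d) × Sp d => q.2 - q.1.2) q := by fun_prop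
    have h00 : ContDiffAt ℝ ∞ (fun q : (ℝ × Sp d) × Sp d => q.1.1 ^ 2) q := by fun_prop
    exact h00.add (h0.norm_sq ℝ)
  have h2 : ContDiffAt ℝ ∞ (fun q : (ℝ × Sp d) × Sp d => psi d (q.1.1 ^ 2 + ‖q.2 - q.1.2‖ ^ 2)) q := by
    have h3 : ContDiffAt ℝ ∞ (psi d) (q.1.1 ^ 2 + ‖q.2 - q.1.2‖ ^ 2) :=
      (psi_cd d).contDiffAt (Ioi_mem_nhds (by positivity))
    exact ContDiffAt.comp (g := psi d) q h3 h1
  have h4 : ContDiffAt ℝ ∞ (fun q : (ℝ × Sp d) × Sp d => q.1.1 * psi d (q.1.1 ^ 2 + ‖q.2 - q.1.2‖ ^ 2)) q := by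
    have h0 : ContDiffAt ℝ ∞ (fun q : (ℝ × Sp d) × Sp d => q.1.1) q := by fun_prop
    exact h0.mul h2
  have e : (fun q : (ℝ × Sp d) × Sp d => K q.1.1 (q.2 - q.1.2)) =
      fun q : (ℝ × Sp d) × Sp d => q.1.1 * psi d (q.1.1 ^ 2 + ‖q.2 - q.1.2‖ ^ 2) := by
    funext q
    rw [K_eq]
    rfl
  rw [e]
  exact h4.contDiffWithinAt

lemma Gk_jcd {J : ℕ} {C : ℝ} {μ : Measure (Sp d)} (h : THd J C μ) :
    ContDiffOn ℝ ∞ (fun q : (ℝ × Sp d) × Sp d => Gk μ q.1.1 q.1.2 q.2) {q | 0 < q.1.1} := by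
  have h1 : ContDiffOn ℝ ∞ (fun q : (ℝ × Sp d) × Sp d => vv μ q.1.1 q.2) {q | 0 < q.1.1} := by
    refine ContDiffOn.comp (g := fun p : ℝ × Sp d => vv μ p.1 p.2) (t := {p | 0 < p.1})
      (f := fun q : (ℝ × Sp d) × Sp d => (q.1.1, q.2)) h.smooth ?_ ?_
    · exact (ContDiff.prodMk (by fun_prop) (by fun_prop)).contDiffOn
    · intro q hq
      exact hq
  exact K_jcd.mul (h1.inv fun q hq => (h.vpos hq q.2).ne')

lemma isOpen_posQ : IsOpen {q : (ℝ × Sp d) × Sp d | 0 < q.1.1} :=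
  isOpen_lt continuous_const (continuous_fst.comp continuous_fst)

/-- joint continuity of the partial derivatives of the integrand -/
lemma Gk_cont {J : ℕ} {C : ℝ} {μ : Measure (Sp d)} (h : THd J C μ) (j : ℕ) (y : Sp d) :
    ContinuousOn (fun p : ℝ × Sp d => iteratedFDeriv ℝ j (Gk μ p.1 p.2) y) {p | 0 < p.1} := by
  have h1 := Par.cont_iter (g := fun q : (ℝ × Sp d) × Sp d => Gk μ q.1.1 q.1.2 q.2) isOpen_posQ (Gk_jcd h) j
  have h2 : ContinuousOn (fun p : ℝ × Sp d => (p, y)) {p | 0 < p.1} := by fun_prop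
  exact h1.comp h2 (fun p hp => hp)

end

end TG.MO


end

section

/-!
# The bilinear form of X2 (module TG_MO, helper37)
-/

open MeasureTheory Metric Set TrI Filter
open scoped InnerProductSpace ContDiff Nat Topology

namespace TG.MO

noncomputable section

variable {d : ℕ}

lemma int3 {α : Type*} [MeasurableSpace α] {ν : Measure α} {f g k : α → ℝ} (hf : Integrable f ν)
    (hg : Integrable g ν) (hk : Integrable k ν) (a b : ℝ) :
    (∫ x, (f x + a * g x + b * k x) ∂ν) = (∫ x, f x ∂ν) + a * (∫ x, g x ∂ν) + b * ∫ x, k x ∂ν := by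
  have h1 : Integrable (fun x => f x + a * g x) ν := hf.add (hg.const_mul a)
  rw [integral_add h1 (hk.const_mul b), integral_add hf (hg.const_mul a), integral_const_mul,
    integral_const_mul]

/-- time and space variable of integration -/
def nu (μ : Measure (Sp d)) : Measure (ℝ × Sp d) := ((volume : Measure ℝ).restrict (Ioc (1 / 2) 2)).prod μ

lemma nu_eq (μ : Measure (Sp d)) [SFinite μ] :
    nu μ = ((volume : Measure ℝ).prod μ).restrict (Ioc (1 / 2) 2 ×ˢ univ) := by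
  unfold nu
  conv_lhs => rw [← Measure.restrict_univ (μ := μ)]
  rw [Measure.prod_restrict]

lemma ae_nu (μ : Measure (Sp d)) [SFinite μ] : ∀ᵐ p ∂(nu μ), 1 / 2 < p.1 ∧ p.1 ≤ 2 := by
  rw [nu_eq, ae_restrict_iff' (measurableSet_Ioc.prod MeasurableSet.univ)]
  exact Eventually.of_forall fun p hp => hp.1

/-- the height over the plane -/
def ht (n : Sp d) (c : ℝ) (η : Sp d) : ℝ := ⟪η, n⟫_ℝ - c

lemma ht_cont (n : Sp d) (c : ℝ) : Continuous (ht n c) := by unfold ht; fun_prop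

/-- the full integrand -/
def Fk (μ : Measure (Sp d)) (n : Sp d) (c : ℝ) (i : ℕ) (p : ℝ × Sp d) (y : Sp d) : ℝ :=
  (tau 1 p.1 * ht n c p.2 ^ i) • Gk μ p.1 p.2 y

/-- the majorant -/
def Bk (n : Sp d) (c : ℝ) (i : ℕ) (η : Sp d) : ℝ := |ht n c η| ^ i * K 1 η

lemma tau_cont : Continuous (fun r : ℝ => tau 1 r) := by unfold tau; fun_prop

lemma tau_nonneg (r : ℝ) : 0 ≤ tau 1 r := le_max_left _ _

lemma tau_le {r : ℝ} (hr : r ≤ 2) : tau 1 r ≤ 1 := by
  unfold tau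
  refine max_le (by norm_num) ((min_le_left _ _).trans ?_)
  linarith

lemma tau_abs {r : ℝ} (hr : r ≤ 2) : |tau 1 r| ≤ 1 := by
  rw [abs_of_nonneg (tau_nonneg r)]; exact tau_le hr

lemma K1_cont : Continuous (K (d := d) 1) := (K_cd one_pos).continuous

lemma Bk_cont (n : Sp d) (c : ℝ) (i : ℕ) : Continuous (Bk n c i) :=
  ((ht_cont n c).abs.pow i).mul K1_cont

lemma Bk_nonneg (n : Sp d) (c : ℝ) (i : ℕ) (η : Sp d) : 0 ≤ Bk n c i η :=
  mul_nonneg (by positivity) (K_pos one_pos η).le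

/-- comparison of the kernel with the kernel at the origin at time one -/
lemma K_le_base {r : ℝ} (h1 : 1 / 2 ≤ r) (h2 : r ≤ 2) (η y : Sp d) :
    K r (y - η) ≤ (1 + 2 * ‖y‖) ^ (d + 4) * 4 ^ (d + 5) * K 1 η := by
  have hr0 : 0 < r := by linarith
  have h3 := K_harnack hr0 (-η) (y - η)
  have e : -η - (y - η) = -y := by abel
  rw [e, norm_neg, K_neg] at h3
  have h4 : (1 + ‖y‖ / r) ^ (d + 4) ≤ (1 + 2 * ‖y‖) ^ (d + 4) :=
    pow_le_pow_left₀ (by positivity) (one_add_div_le h1 (norm_nonneg _)) _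
  have h5 := K_time (r := r) (s := 1) hr0 (by linarith) (by linarith) η
  have h6 := K_pos hr0 η
  calc K r (y - η) ≤ (1 + ‖y‖ / r) ^ (d + 4) * K r η := h3
    _ ≤ (1 + 2 * ‖y‖) ^ (d + 4) * (4 ^ (d + 5) * K 1 η) := mul_le_mul h4 h5 h6.le (by positivity)
    _ = _ := by ring

lemma base_le_K {r : ℝ} (h1 : 1 / 2 ≤ r) (h2 : r ≤ 2) (η y : Sp d) :
    K 1 η ≤ 4 ^ (d + 5) * (1 + 2 * ‖y‖) ^ (d + 4) * K r (y - η) := by
  have hr0 : 0 < r := by linarith
  have h3 := K_harnack hr0 (y - η) (-η)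
  have e : y - η - -η = y := by abel
  rw [e, K_neg] at h3
  have h4 : (1 + ‖y‖ / r) ^ (d + 4) ≤ (1 + 2 * ‖y‖) ^ (d + 4) :=
    pow_le_pow_left₀ (by positivity) (one_add_div_le h1 (norm_nonneg _)) _
  have h5 := K_time (r := 1) (s := r) one_pos (by linarith) (by linarith) η
  have h6 := K_pos hr0 (y - η)
  calc K 1 η ≤ 4 ^ (d + 5) * K r η := h5
    _ ≤ 4 ^ (d + 5) * ((1 + 2 * ‖y‖) ^ (d + 4) * K r (y - η)) :=
        mul_le_mul_of_nonneg_left (h3.trans (mul_le_mul_of_nonneg_right h4 h6.le)) (by positivity)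
    _ = _ := by ring

/-- the majorant is integrable for small i -/
lemma Bk_int (μ : Measure (Sp d)) [IsFiniteMeasure μ] (n : Sp d) (hn : ‖n‖ = 1) (c : ℝ) (i : ℕ)
    (hi : i ≤ 4) : Integrable (Bk n c i) μ := by
  refine Integrable.mono' (integrable_const ((1 + |c|) ^ i)) (Bk_cont n c i).aestronglyMeasurable
    (Eventually.of_forall fun η => ?_)
  rw [Real.norm_of_nonneg (Bk_nonneg n c i η)]
  unfold Bk
  have hR := R_pos one_pos η
  have hR1 := le_R one_pos η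
  have h1 : |ht n c η| ≤ (1 + |c|) * R 1 η := by
    have h2 : |⟪η, n⟫_ℝ| ≤ ‖η‖ := by
      have := abs_real_inner_le_norm η n
      rwa [hn, mul_one] at this
    have h3 := norm_le_R 1 η
    have h4 : |ht n c η| ≤ |⟪η, n⟫_ℝ| + |c| := by
      unfold ht
      exact abs_sub _ _
    nlinarith only [h2, h3, h4, hR1, abs_nonneg c]
  have h2 : |ht n c η| ^ i ≤ (1 + |c|) ^ i * R 1 η ^ i := by
    rw [← mul_pow]
    exact pow_le_pow_left₀ (abs_nonneg _) h1 i
  have h3 : R 1 η ^ i ≤ R 1 η ^ (d + 4) := pow_le_pow_right₀ hR1 (by omega)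
  rw [K_eq, mul_one_div, div_le_iff₀ (by positivity)]
  calc |ht n c η| ^ i ≤ (1 + |c|) ^ i * R 1 η ^ i := h2
    _ ≤ (1 + |c|) ^ i * R 1 η ^ (d + 4) := mul_le_mul_of_nonneg_left h3 (by positivity)

section fixed

variable {J : ℕ} {C : ℝ} {μ : Measure (Sp d)}

/-- local bound of 1/v -/
lemma vinv_le (h : THd J C μ) (hC : 0 < C) {r : ℝ} (h1 : 1 / 2 ≤ r) (h2 : r ≤ 2) (y0 y : Sp d)
    (hy : y ∈ ball y0 1) : (vv μ r y)⁻¹ ≤ 3 ^ d * Real.sqrt C * (vv μ 1 y0)⁻¹ := by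
  have hr0 : 0 < r := by linarith
  have hv := h.vpos hr0 y
  have hv0 := h.vpos one_pos y0
  have e1 := v_time h hC (r := 1) (s := r) hr0 (by linarith) (by linarith) y0
  have e2 := v_harnack h h1 y0 y
  have e3 : (1 + 2 * ‖y0 - y‖) ^ d ≤ 3 ^ d := by
    refine pow_le_pow_left₀ (by positivity) ?_ d
    have : ‖y0 - y‖ < 1 := by rw [norm_sub_rev, ← dist_eq_norm]; exact hy
    linarith
  have hs := Real.sqrt_nonneg C
  have e4 : vv μ 1 y0 ≤ 3 ^ d * Real.sqrt C * vv μ r y := by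
    calc vv μ 1 y0 ≤ Real.sqrt C * vv μ r y0 := e1
      _ ≤ Real.sqrt C * (3 ^ d * vv μ r y) :=
          mul_le_mul_of_nonneg_left (e2.trans (mul_le_mul_of_nonneg_right e3 hv.le)) hs
      _ = _ := by ring
  rw [inv_le_iff_one_le_mul₀ hv]
  have e5 : 3 ^ d * Real.sqrt C * (vv μ 1 y0)⁻¹ * vv μ r y = (3 ^ d * Real.sqrt C * vv μ r y) / vv μ 1 y0 := by
    rw [div_eq_mul_inv]; ring
  rw [e5, le_div_iff₀ hv0, one_mul]
  exact e4

lemma Fk_iter (h : THd J C μ) (n : Sp d) (c : ℝ) (i : ℕ) (p : ℝ × Sp d) (hp : 0 < p.1) (j : ℕ)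
    (y : Sp d) : iteratedFDeriv ℝ j (Fk μ n c i p) y =
      (tau 1 p.1 * ht n c p.2 ^ i) • iteratedFDeriv ℝ j (Gk μ p.1 p.2) y := by
  unfold Fk
  exact iteratedFDeriv_const_smul_apply' ((Gk_cd h hp p.2).of_le (by exact_mod_cast le_top)).contDiffAt

lemma Fk_meas [SFinite μ] (h : THd J C μ) (n : Sp d) (c : ℝ) (i : ℕ) (j : ℕ) (y : Sp d) :
    AEStronglyMeasurable (fun p => iteratedFDeriv ℝ j (Fk μ n c i p) y) (nu μ) := by
  have h1 : ContinuousOn (fun p : ℝ × Sp d => (tau 1 p.1 * ht n c p.2 ^ i) •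
      iteratedFDeriv ℝ j (Gk μ p.1 p.2) y) {p | 0 < p.1} := by
    have e1 : Continuous (fun p : ℝ × Sp d => tau 1 p.1) := tau_cont.comp continuous_fst
    have e2 : Continuous (fun p : ℝ × Sp d => ht n c p.2) := (ht_cont n c).comp continuous_snd
    have e3 : ContinuousOn (fun p : ℝ × Sp d => tau 1 p.1 * ht n c p.2 ^ i) {p | 0 < p.1} :=
      (e1.mul (e2.pow i)).continuousOn
    exact e3.smul (Gk_cont h j y)
  have h2 : AEStronglyMeasurable (fun p : ℝ × Sp d => (tau 1 p.1 * ht n c p.2 ^ i) •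
      iteratedFDeriv ℝ j (Gk μ p.1 p.2) y) (nu μ) := by
    rw [nu_eq]
    refine ContinuousOn.aestronglyMeasurable (h1.mono ?_) (measurableSet_Ioc.prod MeasurableSet.univ)
    intro p hp
    have : (1 : ℝ) / 2 < p.1 := hp.1.1
    show 0 < p.1
    linarith
  refine h2.congr ?_
  filter_upwards [ae_nu μ] with p hp
  exact (Fk_iter h n c i p (by linarith [hp.1]) j y).symm

/-- local domination -/
lemma Fk_dom [IsFiniteMeasure μ] (h : THd J C μ) (hC : 0 < C) (n : Sp d) (c : ℝ) (i : ℕ)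
    (hi : Integrable (Bk n c i) μ) (j : ℕ) (hj : j ≤ J) (y0 : Sp d) :
    ∃ b : ℝ × Sp d → ℝ, Integrable b (nu μ) ∧
      ∀ᵐ p ∂(nu μ), ∀ y ∈ ball y0 1, ‖iteratedFDeriv ℝ j (Fk μ n c i p) y‖ ≤ b p := by
  obtain ⟨C3, hC3, h3⟩ := Gk_bd d J C
  set A : ℝ := C3 * ((1 + 2 * (‖y0‖ + 1)) ^ (d + 4) * 4 ^ (d + 5)) * (3 ^ d * Real.sqrt C * (vv μ 1 y0)⁻¹) with hA
  have hv0 := h.vpos one_pos y0
  have hfin : IsFiniteMeasure ((volume : Measure ℝ).restrict (Ioc (1 / 2) 2)) :=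
    ⟨by rw [Measure.restrict_apply_univ]; simp⟩
  refine ⟨fun p => A * Bk n c i p.2, (hi.comp_snd _).const_mul A, ?_⟩
  filter_upwards [ae_nu μ] with p hp y hy
  have hp0 : 0 < p.1 := by linarith [hp.1]
  rw [Fk_iter h n c i p hp0 j y, norm_smul, norm_mul, norm_pow, Real.norm_eq_abs, Real.norm_eq_abs]
  have e1 := h3 μ h p.1 p.2 y hp.1.le j hj
  have hy1 : ‖y‖ ≤ ‖y0‖ + 1 := by
    have h1 : ‖y - y0‖ < 1 := by rw [← dist_eq_norm]; exact hy
    have h2 := norm_add_le y0 (y - y0)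
    rw [add_sub_cancel] at h2
    linarith
  have e2 := K_le_base hp.1.le hp.2 p.2 y
  have e2' : (1 + 2 * ‖y‖) ^ (d + 4) ≤ (1 + 2 * (‖y0‖ + 1)) ^ (d + 4) :=
    pow_le_pow_left₀ (by positivity) (by linarith) _
  have hK1 := K_pos (d := d) one_pos p.2
  have e3 : K p.1 (y - p.2) ≤ (1 + 2 * (‖y0‖ + 1)) ^ (d + 4) * 4 ^ (d + 5) * K 1 p.2 :=
    e2.trans (mul_le_mul_of_nonneg_right (mul_le_mul_of_nonneg_right e2' (by positivity)) hK1.le)
  have e4 := vinv_le h hC hp.1.le hp.2 y0 y hy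
  have hv := h.vpos hp0 y
  have e5 : Gk μ p.1 p.2 y ≤ ((1 + 2 * (‖y0‖ + 1)) ^ (d + 4) * 4 ^ (d + 5) * K 1 p.2) *
      (3 ^ d * Real.sqrt C * (vv μ 1 y0)⁻¹) :=
    mul_le_mul e3 e4 (inv_pos.mpr hv).le (by positivity)
  have e6 : |tau 1 p.1| * |ht n c p.2| ^ i ≤ |ht n c p.2| ^ i := by
    have := tau_abs hp.2
    have h0 : 0 ≤ |ht n c p.2| ^ i := by positivity
    nlinarith only [this, h0]
  have e7 : ‖iteratedFDeriv ℝ j (Gk μ p.1 p.2) y‖ ≤ C3 * (((1 + 2 * (‖y0‖ + 1)) ^ (d + 4) * 4 ^ (d + 5) * K 1 p.2) *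
      (3 ^ d * Real.sqrt C * (vv μ 1 y0)⁻¹)) := e1.trans (mul_le_mul_of_nonneg_left e5 hC3.le)
  calc |tau 1 p.1| * |ht n c p.2| ^ i * ‖iteratedFDeriv ℝ j (Gk μ p.1 p.2) y‖
      ≤ |ht n c p.2| ^ i * (C3 * (((1 + 2 * (‖y0‖ + 1)) ^ (d + 4) * 4 ^ (d + 5) * K 1 p.2) *
      (3 ^ d * Real.sqrt C * (vv μ 1 y0)⁻¹))) := mul_le_mul e6 e7 (norm_nonneg _) (by positivity)
    _ = A * Bk n c i p.2 := by rw [hA]; unfold Bk; ring

lemma Fk_int [IsFiniteMeasure μ] (h : THd J C μ) (hC : 0 < C) (n : Sp d) (c : ℝ) (i : ℕ)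
    (hi : Integrable (Bk n c i) μ) (y : Sp d) : Integrable (fun p => Fk μ n c i p y) (nu μ) := by
  obtain ⟨b, hb, hb'⟩ := Fk_dom h hC n c i hi 0 (Nat.zero_le _) y
  have h1 := Fk_meas h n c i 0 y
  have h2 : AEStronglyMeasurable (fun p => Fk μ n c i p y) (nu μ) := by
    have h3 := (continuousMultilinearCurryFin0 ℝ (Sp d) ℝ).continuous.comp_aestronglyMeasurable h1
    refine h3.congr (Eventually.of_forall fun p => ?_)
    simp [iteratedFDeriv_zero_eq_comp]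
  refine Integrable.mono' hb h2 ?_
  filter_upwards [hb'] with p hp
  have := hp y (mem_ball_self one_pos)
  rwa [norm_iteratedFDeriv_zero] at this

/-- the moments as integrals over time and space -/
lemma Mo_eq (n : Sp d) (c : ℝ) (i : ℕ) (r : ℝ) (y : Sp d) :
    tau 1 r * Mo μ n c i r y = ∫ η, Fk μ n c i (r, η) y ∂μ := by
  unfold Mo Fk Gk K ht
  simp only [smul_eq_mul]
  rw [← integral_div, ← integral_const_mul]
  congr 1
  funext η
  rw [div_eq_mul_inv _ (vv μ r y), div_eq_mul_inv, div_eq_mul_inv]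
  ring

lemma tav_eq [IsFiniteMeasure μ] (h : THd J C μ) (hC : 0 < C) (n : Sp d) (c : ℝ) (i : ℕ)
    (hi : Integrable (Bk n c i) μ) (y : Sp d) :
    tav (Mo μ n c i) 1 y = ∫ p, Fk μ n c i p y ∂(nu μ) := by
  unfold tav
  rw [intervalIntegral.integral_of_le (by norm_num)]
  unfold nu
  rw [integral_prod _ (Fk_int h hC n c i hi y)]
  rw [mul_one]
  congr 1
  funext r
  exact Mo_eq n c i r y

/-- if the majorant is not integrable all moments vanish -/
lemma Mo_undef [IsFiniteMeasure μ] (n : Sp d) (c : ℝ) (i : ℕ)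
    (hi : ¬ Integrable (Bk n c i) μ) {r : ℝ} (h1 : 1 / 2 ≤ r) (h2 : r ≤ 2) (y : Sp d) :
    Mo μ n c i r y = 0 := by
  unfold Mo
  rw [integral_undef, zero_div]
  intro hint
  apply hi
  have hr0 : 0 < r := by linarith
  refine Integrable.mono' (hint.norm.const_mul (4 ^ (d + 5) * (1 + 2 * ‖y‖) ^ (d + 4)))
    (Bk_cont n c i).aestronglyMeasurable (Eventually.of_forall fun η => ?_)
  rw [Real.norm_of_nonneg (Bk_nonneg n c i η)]
  have e1 : ‖(⟪η, n⟫_ℝ - c) ^ i / (r ^ 2 + ‖y - η‖ ^ 2) ^ 2 * kk r (y - η)‖ =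
      |ht n c η| ^ i * K r (y - η) := by
    have : (⟪η, n⟫_ℝ - c) ^ i / (r ^ 2 + ‖y - η‖ ^ 2) ^ 2 * kk r (y - η) = ht n c η ^ i * K r (y - η) := by
      unfold K ht
      ring
    rw [this, norm_mul, norm_pow, Real.norm_eq_abs, Real.norm_of_nonneg (K_pos hr0 _).le]
  rw [e1]
  unfold Bk
  have e2 := base_le_K h1 h2 η y
  calc |ht n c η| ^ i * K 1 η ≤ |ht n c η| ^ i * (4 ^ (d + 5) * (1 + 2 * ‖y‖) ^ (d + 4) * K r (y - η)) :=
        mul_le_mul_of_nonneg_left e2 (by positivity)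
    _ = _ := by ring

end fixed

lemma getTH (h : StmtTH) (d J : ℕ) (hd : 2 ≤ d) (C' : ℝ) (hC' : 0 < C') :
    ∃ C : ℝ, 0 < C ∧ ∀ μ : Measure (Sp d), Gro C' μ → THd J C μ := by
  obtain ⟨C, hC, hh⟩ := h d J hd C' hC'
  refine ⟨C, hC, fun μ hμ => ?_⟩
  obtain ⟨h1, h2, h3, h4, h5⟩ := hh μ hμ
  exact ⟨fun t x ht => (h1 t x ht).1, h2, h3, h4, h5⟩

section main

variable (h : StmtTH) (hd : 2 ≤ d) {C' : ℝ} (hC' : 0 < C') {μ : Measure (Sp d)} (hμ : Gro C' μ)

include h hd hC' hμ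

lemma Fk_ae_cd (n : Sp d) (c : ℝ) (i : ℕ) : ∀ᵐ p ∂(nu μ), ContDiff ℝ ∞ (Fk μ n c i p) := by
  have := hμ.fin
  obtain ⟨C, hC, hT⟩ := getTH h d 0 hd C' hC'
  filter_upwards [ae_nu μ] with p hp
  have hp0 : 0 < p.1 := by linarith [hp.1]
  show ContDiff ℝ ∞ (fun y => (tau 1 p.1 * ht n c p.2 ^ i) • Gk μ p.1 p.2 y)
  exact (contDiff_const (c := tau 1 p.1 * ht n c p.2 ^ i)).mul (Gk_cd (hT μ hμ) hp0 p.2)

lemma Fk_all_dom (n : Sp d) (c : ℝ) (i : ℕ) (hi : Integrable (Bk n c i) μ) (j : ℕ) (y0 : Sp d) :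
    ∃ b : ℝ × Sp d → ℝ, Integrable b (nu μ) ∧
      ∀ᵐ p ∂(nu μ), ∀ y ∈ ball y0 1, ‖iteratedFDeriv ℝ j (Fk μ n c i p) y‖ ≤ b p := by
  have := hμ.fin
  obtain ⟨C, hC, hT⟩ := getTH h d j hd C' hC'
  exact Fk_dom (hT μ hμ) hC n c i hi j le_rfl y0

lemma Fk_all_meas (n : Sp d) (c : ℝ) (i : ℕ) (j : ℕ) (y : Sp d) :
    AEStronglyMeasurable (fun p => iteratedFDeriv ℝ j (Fk μ n c i p) y) (nu μ) := by
  have := hμ.fin
  obtain ⟨C, hC, hT⟩ := getTH h d 0 hd C' hC'
  exact Fk_meas (hT μ hμ) n c i j y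

lemma tav_fun_eq (n : Sp d) (c : ℝ) (i : ℕ) (hi : Integrable (Bk n c i) μ) :
    (fun y => tav (Mo μ n c i) 1 y) = fun y => ∫ p, Fk μ n c i p y ∂(nu μ) := by
  have := hμ.fin
  obtain ⟨C, hC, hT⟩ := getTH h d 0 hd C' hC'
  funext y
  exact tav_eq (hT μ hμ) hC n c i hi y

lemma tav_cd (n : Sp d) (c : ℝ) (i : ℕ) : ContDiff ℝ ∞ (fun y => tav (Mo μ n c i) 1 y) := by
  have := hμ.fin
  by_cases hi : Integrable (Bk n c i) μ
  · rw [tav_fun_eq h hd hC' hμ n c i hi]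
    exact (Par.par (Fk_ae_cd h hd hC' hμ n c i) (Fk_all_meas h hd hC' hμ n c i)
      (Fk_all_dom h hd hC' hμ n c i hi)).1
  · have e : (fun y => tav (Mo μ n c i) 1 y) = fun _ => 0 := by
      funext y
      unfold tav
      rw [intervalIntegral.integral_of_le (by norm_num), mul_one]
      refine (setIntegral_congr_fun measurableSet_Ioc fun r hr => ?_).trans (integral_zero _ _)
      beta_reduce
      rw [Mo_undef n c i hi hr.1.le hr.2 y, mul_zero]
    rw [e]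
    exact contDiff_const

/-- the derivative bound by the integral of the absolute value -/
lemma tav_bd {J : ℕ} {C3 : ℝ}
    (h3 : ∀ (r : ℝ) (η y : Sp d), 1 / 2 ≤ r → ∀ j ≤ J, ‖iteratedFDeriv ℝ j (Gk μ r η) y‖ ≤ C3 * Gk μ r η y)
    (n : Sp d) (c : ℝ) (i : ℕ) (hi : Integrable (Bk n c i) μ) (j : ℕ) (hj : j ≤ J) (y : Sp d) :
    ‖iteratedFDeriv ℝ j (fun y => tav (Mo μ n c i) 1 y) y‖ ≤ C3 * ∫ p, |Fk μ n c i p y| ∂(nu μ) := by
  have := hμ.fin
  obtain ⟨C, hC, hT⟩ := getTH h d 0 hd C' hC'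
  have hint := Fk_int (hT μ hμ) hC n c i hi y
  rw [tav_fun_eq h hd hC' hμ n c i hi, ← integral_const_mul]
  refine Par.par_norm (Fk_ae_cd h hd hC' hμ n c i) (Fk_all_meas h hd hC' hμ n c i)
      (Fk_all_dom h hd hC' hμ n c i hi) j y _ (hint.abs.const_mul C3) ?_
  filter_upwards [ae_nu μ] with p hp
  have hp0 : 0 < p.1 := by linarith only [hp]
  rw [Fk_iter (hT μ hμ) n c i p hp0 j y, norm_smul, Real.norm_eq_abs]
  have e1 := h3 p.1 p.2 y hp.1.le j hj
  have hG := Gk_pos (hT μ hμ) hp0 p.2 y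
  have e2 : |Fk μ n c i p y| = |tau 1 p.1 * ht n c p.2 ^ i| * Gk μ p.1 p.2 y := by
    unfold Fk
    rw [smul_eq_mul, abs_mul, abs_of_pos hG]
  rw [e2]
  calc _ ≤ |tau 1 p.1 * ht n c p.2 ^ i| * (C3 * Gk μ p.1 p.2 y) :=
        mul_le_mul_of_nonneg_left e1 (abs_nonneg _)
    _ = _ := by ring

lemma Fk_even_nonneg (n : Sp d) (c : ℝ) (i : ℕ) (hi : Even i) (p : ℝ × Sp d) (hp : 0 < p.1) (y : Sp d) :
    0 ≤ Fk μ n c i p y := by
  have := hμ.fin
  obtain ⟨C, hC, hT⟩ := getTH h d 0 hd C' hC'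
  unfold Fk
  rw [smul_eq_mul]
  exact mul_nonneg (mul_nonneg (tau_nonneg _) (hi.pow_nonneg _)) (Gk_pos (hT μ hμ) hp p.2 y).le

lemma abs_even (n : Sp d) (c : ℝ) (i : ℕ) (hi : Even i) (hint : Integrable (Bk n c i) μ) (y : Sp d) :
    ∫ p, |Fk μ n c i p y| ∂(nu μ) = tav (Mo μ n c i) 1 y := by
  have := hμ.fin
  have e := congrFun (tav_fun_eq h hd hC' hμ n c i hint) y
  rw [e]
  refine integral_congr_ae ?_
  filter_upwards [ae_nu μ] with p hp
  exact abs_of_nonneg (Fk_even_nonneg h hd hC' hμ n c i hi p (by linarith [hp.1]) y)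

/-- Cauchy-Schwarz -/
lemma abs_one (n : Sp d) (hn : ‖n‖ = 1) (c : ℝ) (y : Sp d) :
    (∫ p, |Fk μ n c 1 p y| ∂(nu μ)) ^ 2 ≤ tav (Mo μ n c 0) 1 y * tav (Mo μ n c 2) 1 y := by
  have := hμ.fin
  obtain ⟨C, hC, hT⟩ := getTH h d 0 hd C' hC'
  have i0 := Fk_int (hT μ hμ) hC n c 0 (Bk_int μ n hn c 0 (by norm_num)) y
  have i1 := (Fk_int (hT μ hμ) hC n c 1 (Bk_int μ n hn c 1 (by norm_num)) y).abs
  have i2 := Fk_int (hT μ hμ) hC n c 2 (Bk_int μ n hn c 2 (by norm_num)) y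
  have e0 := congrFun (tav_fun_eq h hd hC' hμ n c 0 (Bk_int μ n hn c 0 (by norm_num))) y
  have e2 := congrFun (tav_fun_eq h hd hC' hμ n c 2 (Bk_int μ n hn c 2 (by norm_num))) y
  beta_reduce at e0 e2
  rw [e0, e2]
  have key : ∀ x : ℝ, 0 ≤ (∫ p, Fk μ n c 0 p y ∂(nu μ)) * (x * x) +
      (-2 * ∫ p, |Fk μ n c 1 p y| ∂(nu μ)) * x + ∫ p, Fk μ n c 2 p y ∂(nu μ) := by
    intro x
    have e : (∫ p, Fk μ n c 0 p y ∂(nu μ)) * (x * x) +
      (-2 * ∫ p, |Fk μ n c 1 p y| ∂(nu μ)) * x + ∫ p, Fk μ n c 2 p y ∂(nu μ) =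
      ∫ p, (Fk μ n c 2 p y + (-2 * x) * |Fk μ n c 1 p y| + (x * x) * Fk μ n c 0 p y) ∂(nu μ) := by
      rw [int3 i2 i1 i0]
      ring
    rw [e]
    refine integral_nonneg_of_ae ?_
    filter_upwards [ae_nu μ] with p hp
    have hp0 : 0 < p.1 := by linarith [hp.1]
    have hG := Gk_pos (hT μ hμ) hp0 p.2 y
    have ht0 := tau_nonneg p.1
    have e3 : |Fk μ n c 1 p y| = tau 1 p.1 * |ht n c p.2| * Gk μ p.1 p.2 y := by
      unfold Fk
      rw [smul_eq_mul, abs_mul, abs_mul, abs_of_pos hG, abs_of_nonneg ht0, pow_one]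
    rw [e3]
    unfold Fk
    simp only [smul_eq_mul, pow_zero, mul_one, Pi.zero_apply]
    have e4 : tau 1 p.1 * ht n c p.2 ^ 2 * Gk μ p.1 p.2 y +
        -2 * x * (tau 1 p.1 * |ht n c p.2| * Gk μ p.1 p.2 y) + x * x * (tau 1 p.1 * Gk μ p.1 p.2 y) =
        tau 1 p.1 * Gk μ p.1 p.2 y * (x - |ht n c p.2|) ^ 2 := by
      rw [← sq_abs (ht n c p.2)]
      ring
    rw [e4]
    positivity
  have hdis := discrim_le_zero key
  unfold discrim at hdis
  linarith only [hdis]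

lemma harnack_even (n : Sp d) (c : ℝ) (i : ℕ) (hi : Even i) (hint : Integrable (Bk n c i) μ)
    (y y' : Sp d) : tav (Mo μ n c i) 1 y' ≤ 2 ^ (2 * d + 4) * (1 + ‖y - y'‖) ^ (2 * d + 4) * tav (Mo μ n c i) 1 y := by
  have := hμ.fin
  obtain ⟨C, hC, hT⟩ := getTH h d 0 hd C' hC'
  have e := tav_fun_eq h hd hC' hμ n c i hint
  have e1 := congrFun e y
  have e2 := congrFun e y'
  beta_reduce at e1 e2
  rw [e1, e2, ← integral_const_mul]
  refine integral_mono_ae (Fk_int (hT μ hμ) hC n c i hint y')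
    ((Fk_int (hT μ hμ) hC n c i hint y).const_mul _) ?_
  filter_upwards [ae_nu μ] with p hp
  have hp0 : 0 < p.1 := by linarith only [hp]
  have hG := Gk_harnack (hT μ hμ) hp.1.le p.2 y y'
  have hG0 := (Gk_pos (hT μ hμ) hp0 p.2 y).le
  have h1 : (1 + 2 * ‖y - y'‖) ^ (2 * d + 4) ≤ 2 ^ (2 * d + 4) * (1 + ‖y - y'‖) ^ (2 * d + 4) := by
    rw [← mul_pow]
    exact pow_le_pow_left₀ (by positivity) (by linarith [norm_nonneg (y - y')]) _
  have h2 := hG.trans (mul_le_mul_of_nonneg_right h1 hG0)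
  unfold Fk
  simp only [smul_eq_mul]
  have h3 : 0 ≤ tau 1 p.1 * ht n c p.2 ^ i := mul_nonneg (tau_nonneg _) (hi.pow_nonneg _)
  calc _ ≤ tau 1 p.1 * ht n c p.2 ^ i * (2 ^ (2 * d + 4) * (1 + ‖y - y'‖) ^ (2 * d + 4) * Gk μ p.1 p.2 y) :=
        mul_le_mul_of_nonneg_left h2 h3
    _ = _ := by ring

/-- integrability in η at a fixed time -/
lemma hK_int (n : Sp d) (hn : ‖n‖ = 1) (c : ℝ) (i : ℕ) (hi : i ≤ 4) {r : ℝ} (h1 : 1 / 2 ≤ r) (h2 : r ≤ 2) (y : Sp d) :
    Integrable (fun η => ht n c η ^ i * K r (y - η)) μ := by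
  have := hμ.fin
  have hr0 : 0 < r := by linarith
  have hB := Bk_int μ n hn c i hi
  have hcont : Continuous (fun η => ht n c η ^ i * K r (y - η)) :=
    ((ht_cont n c).pow i).mul ((K_cd hr0).continuous.comp (continuous_const.sub continuous_id))
  refine Integrable.mono' (hB.const_mul ((1 + 2 * ‖y‖) ^ (d + 4) * 4 ^ (d + 5))) hcont.aestronglyMeasurable
    (Eventually.of_forall fun η => ?_)
  rw [norm_mul, norm_pow, Real.norm_eq_abs, Real.norm_of_nonneg (K_pos hr0 _).le]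
  have e2 := K_le_base h1 h2 η y
  unfold Bk
  calc |ht n c η| ^ i * K r (y - η) ≤ |ht n c η| ^ i * ((1 + 2 * ‖y‖) ^ (d + 4) * 4 ^ (d + 5) * K 1 η) :=
        mul_le_mul_of_nonneg_left e2 (by positivity)
    _ = _ := by ring

lemma X2_eq (n : Sp d) (hn : ‖n‖ = 1) (c : ℝ) {r : ℝ} (h1 : 1 / 2 ≤ r) (h2 : r ≤ 2) (y : Sp d) :
    X2 μ n r y = Mo μ n c 2 r y - 2 * (⟪y, n⟫_ℝ - c) * Mo μ n c 1 r y
        + (⟪y, n⟫_ℝ - c) ^ 2 * Mo μ n c 0 r y := by
  have e : ∀ i : ℕ, Mo μ n c i r y = (∫ η, ht n c η ^ i * K r (y - η) ∂μ) / vv μ r y := by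
    intro i
    unfold Mo K ht
    congr 1
    congr 1
    funext η
    ring
  have i0 := hK_int h hd hC' hμ n hn c 0 (by norm_num) h1 h2 y
  have i1 := hK_int h hd hC' hμ n hn c 1 (by norm_num) h1 h2 y
  have i2 := hK_int h hd hC' hμ n hn c 2 (by norm_num) h1 h2 y
  have e2 : (∫ η, ⟪η - y, n⟫_ℝ ^ 2 / (r ^ 2 + ‖y - η‖ ^ 2) ^ 2 * kk r (y - η) ∂μ) =
      (∫ η, ht n c η ^ 2 * K r (y - η) ∂μ) - 2 * (⟪y, n⟫_ℝ - c) * (∫ η, ht n c η ^ 1 * K r (y - η) ∂μ)
        + (⟪y, n⟫_ℝ - c) ^ 2 * (∫ η, ht n c η ^ 0 * K r (y - η) ∂μ) := by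
    have e3 := int3 i2 i1 i0 (-(2 * (⟪y, n⟫_ℝ - c))) ((⟪y, n⟫_ℝ - c) ^ 2)
    rw [sub_eq_add_neg, ← neg_mul, ← e3]
    congr 1
    funext η
    unfold ht K
    rw [inner_sub_left]
    ring
  rw [e 2, e 1, e 0]
  unfold X2
  rw [e2]
  ring

lemma tavX2 (n : Sp d) (hn : ‖n‖ = 1) (c : ℝ) (y : Sp d) :
    tav (X2 μ n) 1 y = tav (Mo μ n c 2) 1 y
        - 2 * (⟪y, n⟫_ℝ - c) * tav (Mo μ n c 1) 1 y
        + (⟪y, n⟫_ℝ - c) ^ 2 * tav (Mo μ n c 0) 1 y := by
  have := hμ.fin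
  obtain ⟨C, hC, hT⟩ := getTH h d 0 hd C' hC'
  have hI : ∀ i : ℕ, i ≤ 4 → Integrable (fun r => tau 1 r * Mo μ n c i r y)
      ((volume : Measure ℝ).restrict (Ioc (1 / 2) 2)) := by
    intro i hi
    have h1 := (Fk_int (hT μ hμ) hC n c i (Bk_int μ n hn c i hi) y)
    unfold nu at h1
    have h2 := h1.integral_prod_left
    refine h2.congr (Eventually.of_forall fun r => ?_)
    exact (Mo_eq n c i r y).symm
  unfold tav
  rw [mul_one, intervalIntegral.integral_of_le (by norm_num), intervalIntegral.integral_of_le (by norm_num),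
    intervalIntegral.integral_of_le (by norm_num), intervalIntegral.integral_of_le (by norm_num)]
  have i0 := hI 0 (by norm_num)
  have i1 := hI 1 (by norm_num)
  have i2 := hI 2 (by norm_num)
  have e3 := int3 i2 i1 i0 (-(2 * (⟪y, n⟫_ℝ - c))) ((⟪y, n⟫_ℝ - c) ^ 2)
  rw [sub_eq_add_neg, ← neg_mul, ← e3]
  refine setIntegral_congr_fun measurableSet_Ioc fun r hr => ?_
  beta_reduce
  rw [X2_eq h hd hC' hμ n hn c hr.1.le hr.2 y]
  ring

lemma kk_int {r : ℝ} (hr : 0 < r) (y : Sp d) : Integrable (fun η => kk r (y - η)) μ := by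
  have := hμ.fin
  have hcont : Continuous (fun η : Sp d => kk r (y - η)) := by
    unfold kk
    refine continuous_const.div (by fun_prop) fun η => ?_
    have := R_pos hr (y - η)
    unfold R at this
    positivity
  refine Integrable.mono' (integrable_const (r / r ^ d)) hcont.aestronglyMeasurable
    (Eventually.of_forall fun η => ?_)
  have hR := R_pos hr (y - η)
  have hR1 := le_R hr (y - η)
  unfold kk
  change ‖r / R r (y - η) ^ d‖ ≤ r / r ^ d
  rw [Real.norm_of_nonneg (by positivity)]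
  exact div_le_div_of_nonneg_left hr.le (by positivity) (pow_le_pow_left₀ hr.le hR1 d)

lemma Mo0_le {J : ℕ} {C : ℝ} (hC : 0 < C) (hT : THd J C μ) (n : Sp d) (hn : ‖n‖ = 1) (c : ℝ) {r : ℝ}
    (h1 : 1 / 2 ≤ r) (h2 : r ≤ 2) (y : Sp d) :
    Mo μ n c 0 r y ≤ 16 * (Real.sqrt C * vv μ 1 y) := by
  have := hμ.fin
  have hr0 : 0 < r := by linarith
  have hv := hT.vpos hr0 y
  have e1 := v_time hT hC (r := r) (s := 1) one_pos (by linarith) (by linarith) y
  have e : Mo μ n c 0 r y = (∫ η, ht n c η ^ 0 * K r (y - η) ∂μ) / vv μ r y := by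
    unfold Mo K ht
    congr 1
    congr 1
    funext η
    ring
  have e2 : (∫ η, ht n c η ^ 0 * K r (y - η) ∂μ) ≤ 16 * th μ r y := by
    unfold th
    rw [← integral_const_mul]
    refine integral_mono (hK_int h hd hC' hμ n hn c 0 (by norm_num) h1 h2 y)
      ((kk_int h hd hC' hμ hr0 y).const_mul 16) fun η => ?_
    beta_reduce
    rw [pow_zero, one_mul]
    unfold K
    have hk : 0 ≤ kk r (y - η) := by
      unfold kk
      positivity
    rw [div_le_iff₀ (by positivity)]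
    have h3 : (1 : ℝ) / 4 ≤ r ^ 2 + ‖y - η‖ ^ 2 := by nlinarith only [h1]
    have h4 : (1 : ℝ) / 16 ≤ (r ^ 2 + ‖y - η‖ ^ 2) ^ 2 := by nlinarith only [h3]
    nlinarith only [hk, h4]
  have e3 : th μ r y = vv μ r y * vv μ r y := by
    unfold vv
    exact (Real.mul_self_sqrt (hT.pos r y hr0).le).symm
  rw [e, div_le_iff₀ hv]
  rw [e3] at e2
  calc _ ≤ 16 * (vv μ r y * vv μ r y) := e2
    _ = 16 * vv μ r y * vv μ r y := by ring
    _ ≤ 16 * (Real.sqrt C * vv μ 1 y) * vv μ r y :=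
        mul_le_mul_of_nonneg_right (mul_le_mul_of_nonneg_left e1 (by norm_num)) hv.le

lemma tavMo0_le {J : ℕ} {C : ℝ} (hC : 0 < C) (hT : THd J C μ) (n : Sp d) (hn : ‖n‖ = 1) (c : ℝ) (y : Sp d) :
    tav (Mo μ n c 0) 1 y ≤ 24 * Real.sqrt C * vv μ 1 y := by
  have := hμ.fin
  have hv := hT.vpos one_pos y
  have h1 := (Fk_int hT hC n c 0 (Bk_int μ n hn c 0 (by norm_num)) y)
  unfold nu at h1
  have h2 := h1.integral_prod_left
  have hI : Integrable (fun r => tau 1 r * Mo μ n c 0 r y)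
      ((volume : Measure ℝ).restrict (Ioc (1 / 2) 2)) := by
    refine h2.congr (Eventually.of_forall fun r => ?_)
    exact (Mo_eq n c 0 r y).symm
  unfold tav
  rw [mul_one, intervalIntegral.integral_of_le (by norm_num)]
  have h3 : (∫ r in Ioc (1 / 2 : ℝ) 2, tau 1 r * Mo μ n c 0 r y) ≤
      ∫ _r in Ioc (1 / 2 : ℝ) 2, 16 * (Real.sqrt C * vv μ 1 y) := by
    refine setIntegral_mono_on hI (integrableOn_const (by simp)) measurableSet_Ioc fun r hr => ?_
    have e1 := Mo0_le h hd hC' hμ hC hT n hn c hr.1.le hr.2 y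
    have e2 := tau_nonneg r
    have e3 := tau_le hr.2
    have hs := Real.sqrt_nonneg C
    have e4 : 0 ≤ 16 * (Real.sqrt C * vv μ 1 y) := by positivity
    calc tau 1 r * Mo μ n c 0 r y ≤ tau 1 r * (16 * (Real.sqrt C * vv μ 1 y)) :=
          mul_le_mul_of_nonneg_left e1 e2
      _ ≤ 1 * (16 * (Real.sqrt C * vv μ 1 y)) := mul_le_mul_of_nonneg_right e3 e4
      _ = _ := one_mul _
  refine h3.trans (le_of_eq ?_)
  rw [setIntegral_const, Real.volume_real_Ioc_of_le (by norm_num), smul_eq_mul]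
  ring

end main

end

end TG.MO

namespace TG

open MO

theorem stmtMO (h : StmtTH) : StmtMO := by
  intro d J hd C' hC'
  obtain ⟨C, hC, hT⟩ := getTH h d J hd C' hC'
  obtain ⟨C3, hC3, h3⟩ := Gk_bd d J C
  have hs := Real.sqrt_nonneg C
  set Cf : ℝ := C3 + C3 ^ 2 + 24 * Real.sqrt C + 2 ^ (2 * d + 4) with hCf
  have hp : (0 : ℝ) < 2 ^ (2 * d + 4) := by positivity
  have c1 : C3 ≤ Cf := by rw [hCf]; linarith only [hs, hp, sq_nonneg C3]
  have c2 : C3 ^ 2 ≤ Cf := by rw [hCf]; linarith only [hC3, hs, hp]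
  have c3 : 24 * Real.sqrt C ≤ Cf := by rw [hCf]; linarith only [hC3, hp, sq_nonneg C3]
  have c4 : (2 : ℝ) ^ (2 * d + 4) ≤ Cf := by rw [hCf]; linarith only [hC3, hs, sq_nonneg C3]
  refine ⟨Cf, by linarith, ?_⟩
  intro μ hμ n hn c
  have := hμ.fin
  have hTμ := hT μ hμ
  have b0 := Bk_int μ n hn c 0 (by norm_num)
  have b1 := Bk_int μ n hn c 1 (by norm_num)
  have b2 := Bk_int μ n hn c 2 (by norm_num)
  have p0 : ∀ y, 0 ≤ tav (Mo μ n c 0) 1 y := fun y => by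
    rw [← abs_even h hd hC' hμ n c 0 (by decide) b0 y]
    exact integral_nonneg fun _ => abs_nonneg _
  have p2 : ∀ y, 0 ≤ tav (Mo μ n c 2) 1 y := fun y => by
    rw [← abs_even h hd hC' hμ n c 2 (by decide) b2 y]
    exact integral_nonneg fun _ => abs_nonneg _
  refine ⟨tavX2 h hd hC' hμ n hn c, tav_cd h hd hC' hμ n c, ?_, ?_, ?_, ?_, ?_, ?_⟩
  · intro j hj y
    have e := tav_bd h hd hC' hμ (h3 μ hTμ) n c 2 b2 j hj y
    rw [abs_even h hd hC' hμ n c 2 (by decide) b2 y] at e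
    exact e.trans (mul_le_mul_of_nonneg_right c1 (p2 y))
  · intro j hj y
    have e := tav_bd h hd hC' hμ (h3 μ hTμ) n c 0 b0 j hj y
    rw [abs_even h hd hC' hμ n c 0 (by decide) b0 y] at e
    exact e.trans (mul_le_mul_of_nonneg_right c1 (p0 y))
  · intro j hj y
    have e := tav_bd h hd hC' hμ (h3 μ hTμ) n c 1 b1 j hj y
    have e1 := abs_one h hd hC' hμ n hn c y
    have e2 : ‖iteratedFDeriv ℝ j (fun y => tav (Mo μ n c 1) 1 y) y‖ ^ 2 ≤
        (C3 * ∫ p, |Fk μ n c 1 p y| ∂(nu μ)) ^ 2 := pow_le_pow_left₀ (norm_nonneg _) e 2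
    rw [mul_pow] at e2
    calc _ ≤ C3 ^ 2 * (∫ p, |Fk μ n c 1 p y| ∂(nu μ)) ^ 2 := e2
      _ ≤ C3 ^ 2 * (tav (Mo μ n c 0) 1 y * tav (Mo μ n c 2) 1 y) :=
          mul_le_mul_of_nonneg_left e1 (by positivity)
      _ ≤ Cf * (tav (Mo μ n c 0) 1 y * tav (Mo μ n c 2) 1 y) :=
          mul_le_mul_of_nonneg_right c2 (mul_nonneg (p0 y) (p2 y))
      _ = _ := by ring
  · intro y
    have e := tavMo0_le h hd hC' hμ hC hTμ n hn c y
    exact e.trans (mul_le_mul_of_nonneg_right c3 (hTμ.vpos one_pos y).le)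
  · intro y y'
    have e := harnack_even h hd hC' hμ n c 2 (by decide) b2 y y'
    refine e.trans (mul_le_mul_of_nonneg_right (mul_le_mul_of_nonneg_right c4 (by positivity)) (p2 y))
  · intro y y'
    have e := harnack_even h hd hC' hμ n c 0 (by decide) b0 y y'
    refine e.trans (mul_le_mul_of_nonneg_right (mul_le_mul_of_nonneg_right c4 (by positivity)) (p0 y))

end TG


end

section

/-!
# Module UU, tools: second moments of the height, lower bounds of plane integrals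
-/

open MeasureTheory Metric Set TrI Filter
open scoped InnerProductSpace ContDiff Topology

set_option linter.unusedSectionVars false

namespace TG

noncomputable section

namespace UUm

variable {d : ℕ}

/-- the weighted integral -/
def EE (μ : Measure (Sp d)) (F : Sp d → ℝ) (y : Sp d) : ℝ := ∫ η, F η * MO.K 1 (y - η) ∂μ

lemma EE_nonneg (μ : Measure (Sp d)) {F : Sp d → ℝ} (hF : ∀ η, 0 ≤ F η) (y : Sp d) :
    0 ≤ EE μ F y :=
  integral_nonneg fun η => mul_nonneg (hF η) (MO.K_pos one_pos _).le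

lemma EE_harnack {μ : Measure (Sp d)} {F : Sp d → ℝ} (hF : ∀ η, 0 ≤ F η) {y y' : Sp d}
    (hi : Integrable (fun η => F η * MO.K 1 (y - η)) μ)
    (hi' : Integrable (fun η => F η * MO.K 1 (y' - η)) μ) :
    EE μ F y' ≤ (1 + ‖y - y'‖) ^ (d + 4) * EE μ F y := by
  unfold EE
  rw [← integral_const_mul]
  refine integral_mono hi' (hi.const_mul _) fun η => ?_
  have h := MO.K_harnack one_pos (y - η) (y' - η)
  rw [show y - η - (y' - η) = y - y' by abel, div_one] at h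
  calc F η * MO.K 1 (y' - η) ≤ F η * ((1 + ‖y - y'‖) ^ (d + 4) * MO.K 1 (y - η)) :=
        mul_le_mul_of_nonneg_left h (hF η)
    _ = _ := by ring

/-- the integral of the tent -/
def T0 : ℝ := ∫ r in (1 / 2 : ℝ)..2, tau 1 r

lemma tau_pos {r : ℝ} (h1 : 1 / 2 < r) (h2 : r < 2) : 0 < tau 1 r := by
  unfold tau
  refine lt_max_of_lt_right (lt_min ?_ ?_)
  · nlinarith
  · nlinarith

lemma T0_pos : 0 < T0 := by
  unfold T0
  refine intervalIntegral.intervalIntegral_pos_of_pos_on ?_ (fun r hr => tau_pos hr.1 hr.2)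
    (by norm_num)
  exact MO.tau_cont.intervalIntegrable _ _

section main

variable (h : StmtTH) (hd : 2 ≤ d) {C' : ℝ} (hC' : 0 < C') {μ : Measure (Sp d)} (hμ : Gro C' μ)

include h hd hC' hμ

lemma int_h2 {n : Sp d} (hn : ‖n‖ = 1) (s : ℝ) (y : Sp d) :
    Integrable (fun η => MO.ht n s η ^ 2 * MO.K 1 (y - η)) μ :=
  MO.hK_int h hd hC' hμ n hn s 2 (by norm_num) (r := 1) (by norm_num) (by norm_num) y

/-- the second moment at a fixed time bounds the weighted integral -/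
lemma EE_le_Mo {J : ℕ} {C : ℝ} (hC : 0 < C) (hT : MO.THd J C μ) {n : Sp d} (hn : ‖n‖ = 1) (s : ℝ)
    {r : ℝ} (h1 : 1 / 2 ≤ r) (h2 : r ≤ 2) (y : Sp d) :
    EE μ (fun η => MO.ht n s η ^ 2) y ≤
      4 ^ (d + 5) * Real.sqrt C * vv μ 1 y * Mo μ n s 2 r y := by
  have hr0 : 0 < r := by linarith
  have hv := hT.vpos hr0 y
  have hv1 := hT.vpos one_pos y
  have e : Mo μ n s 2 r y = (∫ η, MO.ht n s η ^ 2 * MO.K r (y - η) ∂μ) / vv μ r y := by
    unfold Mo MO.K MO.ht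
    congr 1
    congr 1
    funext η
    ring
  have i1 := MO.hK_int h hd hC' hμ n hn s 2 (by norm_num) h1 h2 y
  have e1 : EE μ (fun η => MO.ht n s η ^ 2) y ≤
      4 ^ (d + 5) * ∫ η, MO.ht n s η ^ 2 * MO.K r (y - η) ∂μ := by
    unfold EE
    rw [← integral_const_mul]
    refine integral_mono (int_h2 h hd hC' hμ hn s y) (i1.const_mul _) fun η => ?_
    have h5 := MO.K_time (r := 1) (s := r) one_pos (by linarith) (by linarith) (y - η)
    calc MO.ht n s η ^ 2 * MO.K 1 (y - η) ≤ MO.ht n s η ^ 2 * (4 ^ (d + 5) * MO.K r (y - η)) :=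
          mul_le_mul_of_nonneg_left h5 (sq_nonneg _)
      _ = _ := by ring
  have e2 : (∫ η, MO.ht n s η ^ 2 * MO.K r (y - η) ∂μ) = Mo μ n s 2 r y * vv μ r y := by
    rw [e]; field_simp
  have e3 := MO.v_time hT hC (r := r) (s := 1) one_pos (by linarith) (by linarith) y
  have hM : 0 ≤ Mo μ n s 2 r y := by
    rw [e]
    exact div_nonneg (integral_nonneg fun η => mul_nonneg (sq_nonneg _) (MO.K_pos hr0 _).le) hv.le
  rw [e2] at e1
  refine e1.trans ?_
  calc (4 : ℝ) ^ (d + 5) * (Mo μ n s 2 r y * vv μ r y) ≤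
      4 ^ (d + 5) * (Mo μ n s 2 r y * (Real.sqrt C * vv μ 1 y)) := by gcongr
    _ = _ := by ring

/-- the averaged second moment bounds the weighted integral -/
lemma EE_le_tav {J : ℕ} {C : ℝ} (hC : 0 < C) (hT : MO.THd J C μ) {n : Sp d} (hn : ‖n‖ = 1) (s : ℝ)
    (y : Sp d) :
    T0 * EE μ (fun η => MO.ht n s η ^ 2) y ≤
      4 ^ (d + 5) * Real.sqrt C * vv μ 1 y * tav (Mo μ n s 2) 1 y := by
  have := hμ.fin
  have h1 := MO.Fk_int hT hC n s 2 (MO.Bk_int μ n hn s 2 (by norm_num)) y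
  unfold MO.nu at h1
  have h2 := h1.integral_prod_left
  have hI : Integrable (fun r => tau 1 r * Mo μ n s 2 r y)
      ((volume : Measure ℝ).restrict (Ioc (1 / 2) 2)) := by
    refine h2.congr (Eventually.of_forall fun r => ?_)
    exact (MO.Mo_eq n s 2 r y).symm
  unfold tav T0
  rw [mul_one, intervalIntegral.integral_of_le (by norm_num),
    intervalIntegral.integral_of_le (by norm_num), ← integral_mul_const, ← integral_const_mul]
  refine setIntegral_mono_on ?_ (hI.const_mul _) measurableSet_Ioc fun r hr => ?_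
  · have hc : Continuous fun r : ℝ => tau 1 r * EE μ (fun η => MO.ht n s η ^ 2) y :=
      MO.tau_cont.mul continuous_const
    exact (hc.integrableOn_Icc (a := 1 / 2) (b := 2)).mono_set Ioc_subset_Icc_self
  · have e1 := EE_le_Mo h hd hC' hμ hC hT hn s hr.1.le hr.2 y
    have e2 := MO.tau_nonneg r
    calc tau 1 r * EE μ (fun η => MO.ht n s η ^ 2) y ≤
          tau 1 r * (4 ^ (d + 5) * Real.sqrt C * vv μ 1 y * Mo μ n s 2 r y) :=
          mul_le_mul_of_nonneg_left e1 e2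
      _ = _ := by ring

/-- the gain on the plane bounds the weighted second moment -/
lemma EE_le_XX {J : ℕ} {C : ℝ} (hC : 0 < C) (hT : MO.THd J C μ) {J' : ℕ} {M : ℝ} {β : Sp d → ℝ}
    (hβ : Kit J' M β) (ε : ℝ) {n : Sp d} (hn : ‖n‖ = 1) {s : ℝ}
    {y : Sp d} (hy : ⟪y, n⟫_ℝ = s) :
    T0 * EE μ (fun η => MO.ht n s η ^ 2) y ≤
      4 ^ (d + 5) * Real.sqrt C * vv μ 1 y * XX β ε μ n 1 y := by
  refine (EE_le_tav h hd hC' hμ hC hT hn s y).trans ?_
  have h1 := MO.tavX2 h hd hC' hμ n hn s y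
  rw [hy, sub_self] at h1
  have h2 : tav (Mo μ n s 2) 1 y = tav (X2 μ n) 1 y := by rw [h1]; ring
  have h3 : 0 ≤ tav (X1 β ε μ n) 1 y := tav_nonneg (fun t y _ => X1_nonneg hβ ε μ n t y) y
  have h4 : 0 ≤ tav (X3 β ε μ n) 1 y := tav_nonneg (fun t y _ => X3_nonneg hβ ε μ n t y) y
  rw [h2]
  refine mul_le_mul_of_nonneg_left ?_ ?_
  · unfold XX; linarith
  · have := (hT.vpos one_pos y).le
    positivity

end main

/-! ## plane integrals -/

/-- the constant in the lower bound -/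
def vb (n : ℕ) (r : ℝ) : ℝ := (volume (closedBall (0 : Sp n) r)).toReal

lemma vb_pos (n : ℕ) {r : ℝ} (hr : 0 < r) : 0 < vb n r :=
  ENNReal.toReal_pos (measure_closedBall_pos _ _ hr).ne' measure_closedBall_lt_top.ne

/-- lower bound of plane integrals of nonnegative functions -/
lemma pl_lower (m : ℕ) {n : Sp (m + 1)} (hn : ‖n‖ = 1) {s : ℝ} {F : Sp (m + 1) → ℝ}
    (hc : Continuous F) (hcs : HasCompactSupport F) (h0 : ∀ y, 0 ≤ F y) {x : Sp (m + 1)}
    (hx : ⟪n, x⟫_ℝ = s) {r κ : ℝ}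
    (hκ : ∀ y, ⟪n, y⟫_ℝ = s → ‖y - x‖ ≤ r → κ ≤ F y) : κ * vb m r ≤ plInt n s F := by
  obtain ⟨ρ, hρ⟩ := PF.cs_tang hn hcs
  have hi := PF.integrable_pl hn hc hρ s
  have hxt : tang n x ∈ (Submodule.span ℝ {n})ᗮ := by
    rw [Submodule.mem_orthogonal_singleton_iff_inner_right]
    unfold tang
    rw [inner_sub_right, inner_smul_right, real_inner_self_eq_norm_sq, hn]
    simp
  set u : PF.Pl n := ⟨tang n x, hxt⟩ with hu
  have hxe : x = s • n + (u : Sp (m + 1)) := by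
    rw [hu]
    simp only [tang, hx]
    abel
  have h1 : (∫ y in closedBall u r, F (s • n + (y : Sp (m + 1)))) ≤ plInt n s F := by
    unfold plInt
    exact setIntegral_le_integral hi (Eventually.of_forall fun y => h0 _)
  refine le_trans ?_ h1
  have hfin : volume (closedBall u r) ≠ ⊤ := measure_closedBall_lt_top.ne
  have hvol : (volume (closedBall u r)).toReal = vb m r := by
    have h2 : volume (closedBall u r) = volume (closedBall (0 : PF.Pl n) r) := by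
      have h3 : (fun y : PF.Pl n => y - u) ⁻¹' (closedBall (0 : PF.Pl n) r) = closedBall u r := by
        ext y
        simp [dist_eq_norm]
      rw [← h3]
      exact (measurePreserving_sub_right volume u).measure_preimage
        (measurableSet_closedBall).nullMeasurableSet
    rw [h2, PF.vol m n hn r]
    rfl
  have h4 : (∫ _y in closedBall u r, κ) = κ * vb m r := by
    rw [setIntegral_const, smul_eq_mul, Measure.real, hvol, mul_comm]
  rw [← h4]
  refine setIntegral_mono_on (integrableOn_const hfin) hi.integrableOn measurableSet_closedBall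
    fun y hy => ?_
  refine hκ _ ?_ ?_
  · rw [inner_add_right, inner_smul_right, real_inner_self_eq_norm_sq, hn, PF.inner_pl]
    simp
  · rw [hxe, show s • n + (y : Sp (m + 1)) - (s • n + (u : Sp (m + 1))) = ((y - u : PF.Pl n) : Sp (m + 1)) by
      push_cast; abel]
    have : ‖y - u‖ ≤ r := by
      rw [← dist_eq_norm]; exact hy
    exact this

end UUm

end

end TG


end

section

/-!
# Module UU: lower bound of the tangential gradient
-/

open MeasureTheory Metric Set TrI Filter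
open scoped InnerProductSpace ContDiff Topology

set_option linter.unusedSectionVars false

namespace TG

noncomputable section

namespace UUm

variable {d : ℕ}

lemma kit_mono {J J' : ℕ} (hJ : J' ≤ J) {M : ℝ} {β : Sp d → ℝ} (h : Kit J M β) : Kit J' M β where
  prof := { smooth := h.prof.smooth.of_le (by exact_mod_cast hJ)
            nonneg := h.prof.nonneg
            mono := h.prof.mono
            supp := h.prof.supp
            int := h.prof.int
            der := fun j hj => h.prof.der j (hj.trans hJ) }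
  smooth1 := h.smooth1.of_le (by exact_mod_cast hJ)
  smooth2 := h.smooth2.of_le (by exact_mod_cast hJ)
  supp1 := h.supp1
  supp2 := h.supp2
  grad1 := h.grad1
  grad2 := h.grad2
  nonneg1 := h.nonneg1
  nonneg2 := h.nonneg2
  le1 := h.le1
  le2 := h.le2
  mono1 := h.mono1
  mono2 := h.mono2
  der1 := fun j hj => h.der1 j (hj.trans hJ)
  der2 := fun j hj => h.der2 j (hj.trans hJ)

variable {μ : Measure (Sp d)}

lemma K1_val (t : ℝ) (X w : Sp d) :
    GPx.K1 t 0 X w 0 = -(d * t * (⟪X, w⟫_ℝ * GPx.ip (d + 2) (t ^ 2 + ‖X‖ ^ 2))) := by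
  simp only [GPx.K1, GPx.lT, GPx.lP, GPx.lQ, zero_mul, add_zero, zero_add, mul_zero, zero_smul]
  ring

/-- the derivative of the potential -/
lemma deriv_th (hP : GPx.Pot μ) {t : ℝ} (ht : 0 < t) (y w : Sp d) :
    2 * vv μ t y * fderiv ℝ (vv μ t) y w =
      -(d * t * ∫ η, ⟪y - η, w⟫_ℝ * GPx.ip (d + 2) (t ^ 2 + ‖y - η‖ ^ 2) ∂μ) := by
  have := hP.fin
  have h1 := (GPx.deriv_K0 (μ := μ) (x := y) (w2 := w) ht (GPx.zero_mem_lU (w1 := 0) ht)).2
  have h2 : HasDerivAt (fun s : ℝ => vv μ t (y + s • w)) (fderiv ℝ (vv μ t) y w) 0 := by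
    have h3 : HasFDerivAt (vv μ t) (fderiv ℝ (vv μ t) y) (y + (0 : ℝ) • w) := by
      rw [zero_smul, add_zero]
      exact ((hP.smoothx ht).differentiable (by simp)).differentiableAt.hasFDerivAt
    exact h3.comp_hasDerivAt (0 : ℝ) (GPx.hasDerivAt_line y w 0)
  have h3 := h2.mul h2
  have h4 : ((fun s : ℝ => vv μ t (y + s • w)) * fun s : ℝ => vv μ t (y + s • w)) =
      fun s => ∫ η, GPx.K0 t 0 (y - η) w s ∂μ := by
    funext s
    rw [← GPx.th_line, Pi.mul_apply, mul_zero, add_zero, ← hP.vsq ht, sq]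
  rw [h4] at h3
  have h5 := h3.unique h1
  simp only [zero_smul, add_zero] at h5
  have h6 : (∫ η, GPx.K1 t 0 (y - η) w 0 ∂μ) =
      -(d * t * ∫ η, ⟪y - η, w⟫_ℝ * GPx.ip (d + 2) (t ^ 2 + ‖y - η‖ ^ 2) ∂μ) := by
    rw [← integral_const_mul, ← integral_neg]
    refine integral_congr_ae (Eventually.of_forall fun η => ?_)
    exact K1_val t (y - η) w
  rw [← h6, ← h5]
  ring

lemma K_ip {t : ℝ} (X : Sp d) :
    MO.K t X = t * GPx.ip (d + 4) (t ^ 2 + ‖X‖ ^ 2) := by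
  rw [MO.K_eq]
  unfold GPx.ip MO.R
  rw [div_eq_mul_inv]

lemma ip4_le {t : ℝ} (h1 : 1 / 2 ≤ t) (h2 : t ≤ 2) (X : Sp d) :
    GPx.ip (d + 4) (t ^ 2 + ‖X‖ ^ 2) ≤ 2 * 4 ^ (d + 5) * MO.K 1 X := by
  have h3 := MO.K_time (r := t) (s := 1) (by linarith) (by linarith) (by linarith) X
  rw [K_ip] at h3
  have h4 := GPx.ip_nonneg (d + 4) (t ^ 2 + ‖X‖ ^ 2)
  nlinarith

lemma kk_ip (t : ℝ) (X : Sp d) : kk t X = t * GPx.ip d (t ^ 2 + ‖X‖ ^ 2) := by
  unfold kk GPx.ip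
  rw [div_eq_mul_inv]

lemma amgm {k : ℕ} {q θ m : ℝ} (hq : 0 < q) (hθ : 0 < θ) :
    |m| * GPx.ip (k + 2) q ≤ θ / 2 * GPx.ip k q + 1 / (2 * θ) * (m ^ 2 * GPx.ip (k + 4) q) := by
  have h1 := GPx.ip_add_two k hq
  have h2 := GPx.ip_add_two (k + 2) hq
  rw [show k + 2 + 2 = k + 4 from rfl] at h2
  have h3 := GPx.ip_nonneg (k + 4) q
  rw [← h1, ← h2]
  generalize GPx.ip (k + 4) q = u at *
  have h4 : 0 ≤ u * (θ * q - |m|) ^ 2 / (2 * θ) := by positivity
  have h5 : u * (θ * q - |m|) ^ 2 / (2 * θ) =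
      θ / 2 * (q * (q * u)) + 1 / (2 * θ) * (m ^ 2 * u) - |m| * (q * u) := by
    rw [← sq_abs m]; field_simp; ring
  linarith

/-- lower bound of the first moment -/
lemma mom_low (hP : GPx.Pot μ) {t : ℝ} (h1 : 1 / 2 ≤ t) (h2 : t ≤ 2) {x y w : Sp d}
    {a L v0 Cv cm A : ℝ} {m : Sp d → ℝ} (hmc : Continuous m)
    (hmi : Integrable (fun η => m η ^ 2 * MO.K 1 (y - η)) μ)
    (hw : ∀ η, ⟪y - η, w⟫_ℝ = L - m η) (ha : 0 < a) (hL : a ≤ |L|) (hyx : ‖y - x‖ ≤ 1)
    (hA : 1 ≤ A) (hv0 : 0 < v0) (hCv : 0 < Cv) (hcm : 0 < cm) (hv : vv μ t y ≤ Cv * v0)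
    (hnear : cm * v0 ^ 2 ≤ (μ (ball x A)).toReal) {c1 : ℝ} (hc1 : c1 = cm / (A + 3) ^ (d + 2))
    (hE : EE μ (fun η => m η ^ 2) y ≤
      c1 ^ 2 / (16 * Cv ^ 2 * 4 ^ (d + 5)) * (a ^ 2 * v0 ^ 2)) :
    a * (v0 ^ 2 * (c1 / 2)) ≤
      |∫ η, ⟪y - η, w⟫_ℝ * GPx.ip (d + 2) (t ^ 2 + ‖y - η‖ ^ 2) ∂μ| := by
  have := hP.fin
  have ht : 0 < t := by linarith
  have hc1p : 0 < c1 := by rw [hc1]; positivity
  have i2 := hP.int_ip ht (d + 2) y
  have i0 := hP.int_ip ht d y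
  set θ : ℝ := c1 / (4 * Cv ^ 2) * a with hθ
  have hθ0 : 0 < θ := by positivity
  -- the near part
  have n1 : a * (v0 ^ 2 * c1) ≤ a * ∫ η, GPx.ip (d + 2) (t ^ 2 + ‖y - η‖ ^ 2) ∂μ := by
    refine mul_le_mul_of_nonneg_left ?_ ha.le
    have e1 : (∫ η in ball x A, GPx.ip (d + 2) (t ^ 2 + ‖y - η‖ ^ 2) ∂μ) ≤
        ∫ η, GPx.ip (d + 2) (t ^ 2 + ‖y - η‖ ^ 2) ∂μ :=
      setIntegral_le_integral i2 (Eventually.of_forall fun η => GPx.ip_nonneg _ _)
    refine le_trans ?_ e1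
    have e2 : (∫ _η in ball x A, ((A + 3) ^ (d + 2))⁻¹ ∂μ) ≤
        ∫ η in ball x A, GPx.ip (d + 2) (t ^ 2 + ‖y - η‖ ^ 2) ∂μ := by
      refine setIntegral_mono_on (integrable_const _).integrableOn i2.integrableOn
        measurableSet_ball fun η hη => ?_
      have hη' : ‖η - x‖ < A := by rw [← dist_eq_norm]; exact hη
      have e3 : ‖y - η‖ ≤ A + 1 := by
        have : y - η = (y - x) - (η - x) := by abel
        rw [this]
        refine (norm_sub_le _ _).trans ?_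
        linarith
      have e4 : Real.sqrt (t ^ 2 + ‖y - η‖ ^ 2) ≤ A + 3 := by
        rw [Real.sqrt_le_left (by linarith)]
        nlinarith [norm_nonneg (y - η)]
      have e5 : 0 < Real.sqrt (t ^ 2 + ‖y - η‖ ^ 2) := Real.sqrt_pos.2 (by positivity)
      unfold GPx.ip
      (clear * - h1 e4; gcongr)
    refine le_trans ?_ e2
    rw [setIntegral_const, smul_eq_mul, Measure.real, hc1]
    have e6 : 0 < (A + 3) ^ (d + 2) := by positivity
    calc v0 ^ 2 * (cm / (A + 3) ^ (d + 2)) = (cm * v0 ^ 2) * ((A + 3) ^ (d + 2))⁻¹ := by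
          rw [div_eq_mul_inv]; ring
      _ ≤ _ := mul_le_mul_of_nonneg_right hnear (by positivity)
  -- the far part
  have hm4c : Continuous (fun η => m η ^ 2 * GPx.ip (d + 4) (t ^ 2 + ‖y - η‖ ^ 2)) :=
    (hmc.pow 2).mul (GPx.continuous_ipx ht _ y)
  have i4 : Integrable (fun η => m η ^ 2 * GPx.ip (d + 4) (t ^ 2 + ‖y - η‖ ^ 2)) μ := by
    refine Integrable.mono' (hmi.const_mul (2 * 4 ^ (d + 5))) hm4c.aestronglyMeasurable
      (Eventually.of_forall fun η => ?_)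
    rw [Real.norm_of_nonneg (mul_nonneg (sq_nonneg _) (GPx.ip_nonneg _ _))]
    have := ip4_le h1 h2 (y - η)
    nlinarith only [this]
  have hm2c : Continuous (fun η => |m η| * GPx.ip (d + 2) (t ^ 2 + ‖y - η‖ ^ 2)) :=
    hmc.abs.mul (GPx.continuous_ipx ht _ y)
  have im : Integrable (fun η => |m η| * GPx.ip (d + 2) (t ^ 2 + ‖y - η‖ ^ 2)) μ := by
    refine Integrable.mono' ((i0.const_mul (θ / 2)).add (i4.const_mul (1 / (2 * θ))))
      hm2c.aestronglyMeasurable (Eventually.of_forall fun η => ?_)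
    rw [Real.norm_of_nonneg (mul_nonneg (abs_nonneg _) (GPx.ip_nonneg _ _))]
    exact amgm (by positivity) hθ0
  have f1 : (∫ η, |m η| * GPx.ip (d + 2) (t ^ 2 + ‖y - η‖ ^ 2) ∂μ) ≤
      θ / 2 * (∫ η, GPx.ip d (t ^ 2 + ‖y - η‖ ^ 2) ∂μ) +
        1 / (2 * θ) * ∫ η, m η ^ 2 * GPx.ip (d + 4) (t ^ 2 + ‖y - η‖ ^ 2) ∂μ := by
    rw [← integral_const_mul, ← integral_const_mul, ← integral_add (i0.const_mul _) (i4.const_mul _)]
    refine integral_mono im ((i0.const_mul _).add (i4.const_mul _)) fun η => ?_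
    exact amgm (by positivity) hθ0
  have f2 : (∫ η, GPx.ip d (t ^ 2 + ‖y - η‖ ^ 2) ∂μ) ≤ 2 * (Cv ^ 2 * v0 ^ 2) := by
    have e1 : th μ t y = t * ∫ η, GPx.ip d (t ^ 2 + ‖y - η‖ ^ 2) ∂μ := by
      unfold th
      rw [← integral_const_mul]
      refine integral_congr_ae (Eventually.of_forall fun η => ?_)
      exact kk_ip t (y - η)
    have e2 := hP.vsq ht y
    have e3 := (hP.vpos ht y).le
    have e4 : vv μ t y ^ 2 ≤ (Cv * v0) ^ 2 := pow_le_pow_left₀ e3 hv 2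
    rw [e2, e1] at e4
    have e5 : 0 ≤ ∫ η, GPx.ip d (t ^ 2 + ‖y - η‖ ^ 2) ∂μ := integral_nonneg fun η => GPx.ip_nonneg _ _
    nlinarith only [e4, h1]
  have f3 : (∫ η, m η ^ 2 * GPx.ip (d + 4) (t ^ 2 + ‖y - η‖ ^ 2) ∂μ) ≤
      2 * 4 ^ (d + 5) * (c1 ^ 2 / (16 * Cv ^ 2 * 4 ^ (d + 5)) * (a ^ 2 * v0 ^ 2)) := by
    refine le_trans ?_ (mul_le_mul_of_nonneg_left hE (by positivity))
    unfold EE
    rw [← integral_const_mul]
    refine integral_mono i4 (hmi.const_mul _) fun η => ?_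
    have := ip4_le h1 h2 (y - η)
    calc m η ^ 2 * GPx.ip (d + 4) (t ^ 2 + ‖y - η‖ ^ 2) ≤
          m η ^ 2 * (2 * 4 ^ (d + 5) * MO.K 1 (y - η)) := mul_le_mul_of_nonneg_left this (sq_nonneg _)
      _ = _ := by ring
  have f4 : (∫ η, |m η| * GPx.ip (d + 2) (t ^ 2 + ‖y - η‖ ^ 2) ∂μ) ≤ a * (v0 ^ 2 * (c1 / 2)) := by
    have g1 : θ / 2 * (∫ η, GPx.ip d (t ^ 2 + ‖y - η‖ ^ 2) ∂μ) ≤ θ / 2 * (2 * (Cv ^ 2 * v0 ^ 2)) :=
      mul_le_mul_of_nonneg_left f2 (by positivity)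
    have g2 : 1 / (2 * θ) * (∫ η, m η ^ 2 * GPx.ip (d + 4) (t ^ 2 + ‖y - η‖ ^ 2) ∂μ) ≤
        1 / (2 * θ) * (2 * 4 ^ (d + 5) * (c1 ^ 2 / (16 * Cv ^ 2 * 4 ^ (d + 5)) * (a ^ 2 * v0 ^ 2))) :=
      mul_le_mul_of_nonneg_left f3 (by positivity)
    have g3 : θ / 2 * (2 * (Cv ^ 2 * v0 ^ 2)) = a * (v0 ^ 2 * (c1 / 4)) := by
      rw [hθ]; field_simp
    have g4 : 1 / (2 * θ) * (2 * 4 ^ (d + 5) * (c1 ^ 2 / (16 * Cv ^ 2 * 4 ^ (d + 5)) *
        (a ^ 2 * v0 ^ 2))) = a * (v0 ^ 2 * (c1 / 4)) := by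
      rw [hθ]; field_simp; ring
    linarith
  -- assembly
  have s1 : (∫ η, ⟪y - η, w⟫_ℝ * GPx.ip (d + 2) (t ^ 2 + ‖y - η‖ ^ 2) ∂μ) =
      L * (∫ η, GPx.ip (d + 2) (t ^ 2 + ‖y - η‖ ^ 2) ∂μ) -
        ∫ η, m η * GPx.ip (d + 2) (t ^ 2 + ‖y - η‖ ^ 2) ∂μ := by
    have im' : Integrable (fun η => m η * GPx.ip (d + 2) (t ^ 2 + ‖y - η‖ ^ 2)) μ := by
      refine Integrable.mono' im (hmc.mul (GPx.continuous_ipx ht _ y)).aestronglyMeasurable
        (Eventually.of_forall fun η => ?_)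
      rw [norm_mul, Real.norm_eq_abs, Real.norm_of_nonneg (GPx.ip_nonneg _ _)]
    rw [← integral_const_mul, ← integral_sub (i2.const_mul _) im']
    refine integral_congr_ae (Eventually.of_forall fun η => ?_)
    simp only [hw]
    ring
  have s2 : |∫ η, m η * GPx.ip (d + 2) (t ^ 2 + ‖y - η‖ ^ 2) ∂μ| ≤ a * (v0 ^ 2 * (c1 / 2)) := by
    refine le_trans ?_ f4
    rw [← Real.norm_eq_abs]
    refine (norm_integral_le_integral_norm _).trans (le_of_eq ?_)
    refine integral_congr_ae (Eventually.of_forall fun η => ?_)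
    simp only [norm_mul, Real.norm_eq_abs, abs_of_nonneg (GPx.ip_nonneg _ _)]
  rw [s1]
  have s3 : 0 ≤ ∫ η, GPx.ip (d + 2) (t ^ 2 + ‖y - η‖ ^ 2) ∂μ :=
    integral_nonneg fun η => GPx.ip_nonneg _ _
  have s4 : a * (∫ η, GPx.ip (d + 2) (t ^ 2 + ‖y - η‖ ^ 2) ∂μ) ≤
      |L * ∫ η, GPx.ip (d + 2) (t ^ 2 + ‖y - η‖ ^ 2) ∂μ| := by
    rw [abs_mul, abs_of_nonneg s3]
    exact mul_le_mul_of_nonneg_right hL s3
  have s5 := abs_sub_abs_le_abs_sub (L * ∫ η, GPx.ip (d + 2) (t ^ 2 + ‖y - η‖ ^ 2) ∂μ)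
    (∫ η, m η * GPx.ip (d + 2) (t ^ 2 + ‖y - η‖ ^ 2) ∂μ)
  linarith only [n1, s2, s4, s5]

/-- lower bound of the tangential energy density -/
lemma tang_low (hd : 2 ≤ d) (hP : GPx.Pot μ) {t : ℝ} (h1 : 1 / 2 ≤ t) (h2 : t ≤ 2) {x y w n : Sp d}
    (hnw : ⟪n, w⟫_ℝ = 0)
    {a L v0 Cv cm A : ℝ} (hwa : ‖w‖ ≤ a) {m : Sp d → ℝ} (hmc : Continuous m)
    (hmi : Integrable (fun η => m η ^ 2 * MO.K 1 (y - η)) μ)
    (hw : ∀ η, ⟪y - η, w⟫_ℝ = L - m η) (ha : 0 < a) (hL : a ≤ |L|) (hyx : ‖y - x‖ ≤ 1)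
    (hA : 1 ≤ A) (hv0 : 0 < v0) (hCv : 0 < Cv) (hcm : 0 < cm) (hv : vv μ t y ≤ Cv * v0)
    (hnear : cm * v0 ^ 2 ≤ (μ (ball x A)).toReal) {c1 : ℝ} (hc1 : c1 = cm / (A + 3) ^ (d + 2))
    (hE : EE μ (fun η => m η ^ 2) y ≤
      c1 ^ 2 / (16 * Cv ^ 2 * 4 ^ (d + 5)) * (a ^ 2 * v0 ^ 2)) :
    v0 * (c1 ^ 2 / (16 * Cv ^ 3)) ≤ ‖tang n (gradient (vv μ t) y)‖ ^ 2 / vv μ t y := by
  have ht : 0 < t := by linarith
  have hc1p : 0 < c1 := by rw [hc1]; positivity
  have k1 := mom_low hP h1 h2 hmc hmi hw ha hL hyx hA hv0 hCv hcm hv hnear hc1 hE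
  have k2 := deriv_th hP ht y w
  have hvy := hP.vpos ht y
  have k3 : |2 * vv μ t y * fderiv ℝ (vv μ t) y w| =
      d * t * |∫ η, ⟪y - η, w⟫_ℝ * GPx.ip (d + 2) (t ^ 2 + ‖y - η‖ ^ 2) ∂μ| := by
    rw [k2, abs_neg, abs_mul, abs_of_nonneg (by positivity : (0 : ℝ) ≤ d * t)]
  have k4 : |2 * vv μ t y * fderiv ℝ (vv μ t) y w| = 2 * vv μ t y * |fderiv ℝ (vv μ t) y w| := by
    rw [abs_mul, abs_of_nonneg (by positivity)]
  rw [k4] at k3
  have k5 : (1 : ℝ) ≤ d * t := by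
    have : (2 : ℝ) ≤ d := by exact_mod_cast hd
    nlinarith
  have k6 : a * (v0 ^ 2 * (c1 / 2)) ≤ 2 * vv μ t y * |fderiv ℝ (vv μ t) y w| := by
    rw [k3]
    have := abs_nonneg (∫ η, ⟪y - η, w⟫_ℝ * GPx.ip (d + 2) (t ^ 2 + ‖y - η‖ ^ 2) ∂μ)
    nlinarith only [k1, k5, this]
  have k7 : |fderiv ℝ (vv μ t) y w| ≤ ‖tang n (gradient (vv μ t) y)‖ * a := by
    have e1 : fderiv ℝ (vv μ t) y w = ⟪tang n (gradient (vv μ t) y), w⟫_ℝ := by
      unfold tang
      rw [inner_sub_left, inner_smul_left, hnw, mul_zero, sub_zero, GPx.grad_inner]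
    rw [e1]
    exact (abs_real_inner_le_norm _ _).trans (mul_le_mul_of_nonneg_left hwa (norm_nonneg _))
  set g := ‖tang n (gradient (vv μ t) y)‖ with hg
  have hg0 : 0 ≤ g := norm_nonneg _
  have k8 : v0 * (c1 / (4 * Cv)) ≤ g := by
    have e1 : a * (v0 ^ 2 * (c1 / 2)) ≤ 2 * (Cv * v0) * (g * a) := by
      refine k6.trans ?_
      gcongr
    have e2 : (a * v0) * (v0 * c1) ≤ (a * v0) * (4 * Cv * g) := by linarith only [e1]
    have e3 := le_of_mul_le_mul_left e2 (by positivity)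
    rw [mul_div_assoc', div_le_iff₀ (by positivity)]
    linarith only [e3]
  rw [le_div_iff₀ hvy]
  calc v0 * (c1 ^ 2 / (16 * Cv ^ 3)) * vv μ t y ≤
        v0 * (c1 ^ 2 / (16 * Cv ^ 3)) * (Cv * v0) := mul_le_mul_of_nonneg_left hv (by positivity)
    _ = (v0 * (c1 / (4 * Cv))) ^ 2 := by field_simp; ring
    _ ≤ g ^ 2 := pow_le_pow_left₀ (by positivity) k8 2

end UUm

end

end TG


end

section

/-!
# MODULE UU (10.2): two planes with small gains are close to each other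
-/

open MeasureTheory Metric Set TrI Filter
open scoped InnerProductSpace ContDiff Topology

set_option linter.unusedSectionVars false

namespace TG

noncomputable section

namespace UUm

variable {d : ℕ}

lemma cont_tang (n : Sp d) : Continuous (fun v : Sp d => tang n v) := by
  unfold tang; fun_prop

/-- lower bound of X1 -/
lemma X1_low {μ : Measure (Sp d)} (hP : GPx.Pot μ) {J : ℕ} {M : ℝ} {β : Sp d → ℝ} (hβ : Kit J M β)
    {ε : ℝ} {n : Sp d} {r : ℝ} (hr : 0 < r) {y : Sp d} {κ : ℝ}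
    (hκ : ∀ z : Sp d, ‖z‖ ≤ 1 → κ ≤ ‖tang n (gradient (vv μ r) (y + (ε * r) • z))‖ ^ 2
      / vv μ r (y + (ε * r) • z)) : κ ≤ X1 β ε μ n r y := by
  have hc1 : Continuous (fun z : Sp d => ‖tang n (gradient (vv μ r) (y + (ε * r) • z))‖ ^ 2
      / vv μ r (y + (ε * r) • z)) := by
    refine Continuous.div ?_ (hP.cont_v hr ε y) (fun z => (hP.vpos hr _).ne')
    exact ((cont_tang n).comp (hP.cont_grad hr ε y)).norm.pow 2
  have hbc : Continuous β := hβ.prof.smooth.continuous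
  have hcs : HasCompactSupport β := by
    refine HasCompactSupport.intro (isCompact_closedBall (0 : Sp d) 1) fun z hz => ?_
    refine hβ.prof.supp z ?_
    simp only [mem_closedBall, dist_zero_right, not_le] at hz
    exact hz.le
  have i1 : Integrable (fun z => β z * (‖tang n (gradient (vv μ r) (y + (ε * r) • z))‖ ^ 2
      / vv μ r (y + (ε * r) • z))) :=
    (hbc.mul hc1).integrable_of_hasCompactSupport hcs.mul_right
  have i2 : Integrable β := hbc.integrable_of_hasCompactSupport hcs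
  have h1 : κ = ∫ z, β z * κ := by
    rw [integral_mul_const, hβ.prof.int, one_mul]
  rw [h1]
  unfold X1
  refine integral_mono (i2.mul_const κ) i1 fun z => ?_
  by_cases hz : ‖z‖ ≤ 1
  · exact mul_le_mul_of_nonneg_left (hκ z hz) (hβ.prof.nonneg z)
  · have : β z = 0 := hβ.prof.supp z (by linarith)
    simp only [this, zero_mul, le_refl]

section main

variable (h : StmtTH) (hd : 2 ≤ d) {C' : ℝ} (hC' : 0 < C') {μ : Measure (Sp d)} (hμ : Gro C' μ)

include h hd hC' hμ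

lemma tavX1_low {J : ℕ} {M : ℝ} {β : Sp d → ℝ} (hβ : Kit J M β) {ε : ℝ} (hε : 0 < ε) (hε1 : ε ≤ 1)
    {n : Sp d} (hn : ‖n‖ = 1) {y : Sp d} {κ : ℝ}
    (hκ : ∀ r : ℝ, 1 / 2 ≤ r → r ≤ 2 → κ ≤ X1 β ε μ n r y) :
    T0 * κ ≤ tav (X1 β ε μ n) 1 y := by
  have hs := (X1_bd (ι := Unit) h hd hC' (μ := fun _ => μ) (fun _ => hμ) 0 hε hε1
    (β := fun _ => β) (fun _ => hβ) (n := fun _ => n) (fun _ => hn)).smooth ()
  have hc : ContinuousOn (fun r : ℝ => X1 β ε μ n r y) (Icc (1 / 2) 2) := by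
    have h1 : ContinuousOn (fun p : ℝ × Sp d => X1 β ε μ n p.1 p.2) (SL d) := hs.continuousOn
    exact h1.comp (f := fun r : ℝ => ((r, y) : ℝ × Sp d)) (by fun_prop)
      (fun r hr => mem_SL_of hr.1 hr.2 y)
  have hI : IntegrableOn (fun r => tau 1 r * X1 β ε μ n r y) (Ioc (1 / 2) 2) :=
    ((MO.tau_cont.continuousOn.mul hc).integrableOn_Icc).mono_set Ioc_subset_Icc_self
  unfold tav T0
  rw [mul_one, intervalIntegral.integral_of_le (by norm_num),
    intervalIntegral.integral_of_le (by norm_num), ← integral_mul_const]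
  refine setIntegral_mono_on ?_ hI measurableSet_Ioc fun r hr => ?_
  · have hc : Continuous fun r : ℝ => tau 1 r * κ := MO.tau_cont.mul continuous_const
    exact (hc.integrableOn_Icc (a := 1 / 2) (b := 2)).mono_set Ioc_subset_Icc_self
  · exact mul_le_mul_of_nonneg_left (hκ r hr.1.le hr.2) (MO.tau_nonneg r)

end main

/-! ## the cut-off -/

lemma zR_nonneg (R : ℝ) (x : Sp d) : 0 ≤ zR R x := Real.smoothTransition.nonneg _

lemma zR_le_one (R : ℝ) (x : Sp d) : zR R x ≤ 1 := Real.smoothTransition.le_one _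

lemma zR_one {R : ℝ} {x : Sp d} (h : ‖x‖ ≤ R) : zR R x = 1 :=
  Real.smoothTransition.one_of_one_le (by linarith)

lemma zR_zero {R : ℝ} {x : Sp d} (h : R + 1 ≤ ‖x‖) : zR R x = 0 :=
  Real.smoothTransition.zero_of_nonpos (by linarith)

lemma zR_cont (R : ℝ) : Continuous (zR R : Sp d → ℝ) := by
  unfold zR
  exact Real.smoothTransition.continuous.comp (by fun_prop)

lemma zR_cs (R : ℝ) : HasCompactSupport (zR R : Sp d → ℝ) := by
  refine HasCompactSupport.intro (isCompact_closedBall (0 : Sp d) (R + 1)) fun x hx => ?_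
  refine zR_zero ?_
  simp only [mem_closedBall, dist_zero_right, not_le] at hx
  exact hx.le

/-! ## geometry -/

/-- combination of the heights -/
def mm (n n' : Sp d) (s s' g σ : ℝ) (η : Sp d) : ℝ := g * MO.ht n s η - σ * MO.ht n' s' η

lemma mm_cont (n n' : Sp d) (s s' g σ : ℝ) : Continuous (mm n n' s s' g σ) := by
  unfold mm
  exact (continuous_const.mul (MO.ht_cont n s)).sub (continuous_const.mul (MO.ht_cont n' s'))

lemma mm_diff (n n' : Sp d) (s s' g σ : ℝ) (y η : Sp d) :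
    ⟪y - η, g • n - σ • n'⟫_ℝ = mm n n' s s' g σ y - mm n n' s s' g σ η := by
  unfold mm MO.ht
  rw [inner_sub_right, inner_smul_right, inner_smul_right, inner_sub_left, inner_sub_left]
  ring

lemma mm_sq (n n' : Sp d) (s s' : ℝ) {g σ : ℝ} (hg0 : 0 ≤ g) (hg1 : g ≤ 1) (hσ : σ ^ 2 = 1)
    (η : Sp d) : mm n n' s s' g σ η ^ 2 ≤ 2 * MO.ht n s η ^ 2 + 2 * MO.ht n' s' η ^ 2 := by
  unfold mm
  have h1 : g ^ 2 ≤ 1 := by nlinarith only [hg1, hg0]
  have h2 : (g * MO.ht n s η - σ * MO.ht n' s' η) ^ 2 ≤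
      2 * (g * MO.ht n s η) ^ 2 + 2 * (σ * MO.ht n' s' η) ^ 2 := by
    linarith only [sq_nonneg (g * MO.ht n s η + σ * MO.ht n' s' η)]
  rw [mul_pow, mul_pow, hσ, one_mul] at h2
  nlinarith only [h2, h1]

/-! ## the core argument -/

/-- constant of comparison of v -/
def Cv (d : ℕ) (C R0 : ℝ) : ℝ := Real.sqrt C * (1 + 4 * R0) ^ d

section core

variable (h : StmtTH) {k : ℕ} (hd : 2 ≤ k + 1) {C' : ℝ} (hC' : 0 < C')
  {μ : Measure (Sp (k + 1))} (hμ : Gro C' μ)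

lemma v_cmp {C : ℝ} (hC : 0 < C) (hT : MO.THd 0 C μ) {R0 : ℝ} (hR0 : 0 < R0) {r : ℝ}
    (h1 : 1 / 2 ≤ r) (h2 : r ≤ 2) {y : Sp (k + 1)} (hy : ‖y‖ ≤ 2 * R0) :
    vv μ r y ≤ Cv (k + 1) C R0 * vv μ 1 0 ∧ vv μ 1 0 ≤ Cv (k + 1) C R0 * vv μ r y := by
  have hr0 : 0 < r := by linarith
  have hs := Real.sqrt_nonneg C
  have e1 := MO.v_time hT hC (r := r) (s := 1) one_pos (by linarith) (by linarith) (0 : Sp (k + 1))
  have e2 := MO.v_time hT hC (r := 1) (s := r) hr0 (by linarith) (by linarith) (0 : Sp (k + 1))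
  have e3 := MO.v_harnack hT h1 y 0
  have e4 := MO.v_harnack hT h1 0 y
  rw [sub_zero] at e3
  rw [zero_sub, norm_neg] at e4
  have e5 : (1 + 2 * ‖y‖) ^ (k + 1) ≤ (1 + 4 * R0) ^ (k + 1) :=
    pow_le_pow_left₀ (by positivity) (by linarith) _
  have hv := (hT.vpos hr0 y).le
  have hv0 := (hT.vpos hr0 (0 : Sp (k + 1))).le
  unfold Cv
  constructor
  · calc vv μ r y ≤ (1 + 2 * ‖y‖) ^ (k + 1) * vv μ r 0 := e3
      _ ≤ (1 + 4 * R0) ^ (k + 1) * (Real.sqrt C * vv μ 1 0) := mul_le_mul e5 e1 hv0 (by positivity)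
      _ = _ := by ring
  · calc vv μ 1 0 ≤ Real.sqrt C * vv μ r 0 := e2
      _ ≤ Real.sqrt C * ((1 + 2 * ‖y‖) ^ (k + 1) * vv μ r y) := mul_le_mul_of_nonneg_left e4 hs
      _ ≤ Real.sqrt C * ((1 + 4 * R0) ^ (k + 1) * vv μ r y) :=
          mul_le_mul_of_nonneg_left (mul_le_mul_of_nonneg_right e5 hv) hs
      _ = _ := by ring

/-- the constant of L_E -/
def Ca (k : ℕ) (C R0 c : ℝ) : ℝ :=
  (1 + 4 * R0) ^ (k + 1 + 4) * (4 ^ (k + 1 + 5) * Real.sqrt C * Cv (k + 1) C R0 / (c * T0)) / vb k 1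

include h hd hC' hμ

/-- the gain on the plane bounds the second moment in the whole ball -/
lemma L_E {C : ℝ} (hC : 0 < C) (hT : MO.THd 0 C μ) {R0 c : ℝ} (hR0 : 32 ≤ R0) (hc : 0 < c)
    {J : ℕ} {M : ℝ} {β : Sp (k + 1) → ℝ} (hβ : Kit J M β) {ε : ℝ} {n : Sp (k + 1)} (hn : ‖n‖ = 1)
    {s : ℝ} (hs : |s| ≤ R0 + 1) {H : Sp (k + 1) → ℝ} (hHc : Continuous H) (hH0 : ∀ y, 0 ≤ H y)
    (hHX : ∀ y, c * XX β ε μ n 1 y ≤ H y) {y : Sp (k + 1)} (hy : ‖y‖ ≤ 2 * R0) :
    EE μ (fun η => MO.ht n s η ^ 2) y ≤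
      Ca k C R0 c * vv μ 1 0 * plInt n s (fun x => zR (2 * R0 - 1) x * H x) := by
  have hT0 := T0_pos
  have hv0 := hT.vpos one_pos (0 : Sp (k + 1))
  have hCv : 0 < Cv (k + 1) C R0 := by
    unfold Cv; have := Real.sqrt_pos.2 hC; positivity
  have hsC := Real.sqrt_pos.2 hC
  have hvb := vb_pos k one_pos
  set Kh : ℝ := (1 + 4 * R0) ^ (k + 1 + 4) *
    (4 ^ (k + 1 + 5) * Real.sqrt C * Cv (k + 1) C R0 / (c * T0)) with hKh
  have hKh0 : 0 < Kh := by positivity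
  have hx0 : ⟪n, s • n⟫_ℝ = s := by
    rw [inner_smul_right, real_inner_self_eq_norm_sq, hn]; ring
  have hlow := pl_lower k hn (s := s) (F := fun x => zR (2 * R0 - 1) x * H x)
    ((zR_cont _).mul hHc) ((zR_cs _).mul_right) (fun x => mul_nonneg (zR_nonneg _ _) (hH0 x))
    (x := s • n) hx0 (r := 1) (κ := EE μ (fun η => MO.ht n s η ^ 2) y / (Kh * vv μ 1 0))
    (fun z hz hzx => by
      have hzn : ‖z‖ ≤ R0 + 2 := by
        have h1 : ‖s • n‖ = |s| := by rw [norm_smul, hn, mul_one, Real.norm_eq_abs]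
        have h2 := norm_add_le (z - s • n) (s • n)
        rw [sub_add_cancel, h1] at h2
        linarith
      rw [zR_one (by linarith), one_mul, div_le_iff₀ (by positivity)]
      have h1 := EE_harnack (μ := μ) (F := fun η => MO.ht n s η ^ 2) (fun η => sq_nonneg _)
        (y := z) (y' := y) (int_h2 h hd hC' hμ hn s z) (int_h2 h hd hC' hμ hn s y)
      have h2 : (1 + ‖z - y‖) ^ (k + 1 + 4) ≤ (1 + 4 * R0) ^ (k + 1 + 4) := by
        refine pow_le_pow_left₀ (by positivity) ?_ _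
        have := norm_sub_le z y
        linarith only [hR0, hy, hzn, this]
      have h3 := EE_le_XX h hd hC' hμ hC hT hβ ε hn (s := s) (y := z)
        (by rw [real_inner_comm]; exact hz)
      have h4 := EE_nonneg μ (F := fun η => MO.ht n s η ^ 2) (fun η => sq_nonneg _) z
      have h5 := (v_cmp (μ := μ) hC hT (R0 := R0) (by linarith) (r := 1) (by norm_num) (by norm_num)
        (y := z) (by linarith)).1
      have hXX : XX β ε μ n 1 z ≤ H z / c := by
        rw [le_div_iff₀ hc]; linarith [hHX z]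
      have h6 : T0 * EE μ (fun η => MO.ht n s η ^ 2) z ≤
          4 ^ (k + 1 + 5) * Real.sqrt C * (Cv (k + 1) C R0 * vv μ 1 0) * (H z / c) := by
        refine h3.trans ?_
        have hXX0 : 0 ≤ H z / c := div_nonneg (hH0 z) hc.le
        have hvz := (hT.vpos one_pos z).le
        calc 4 ^ (k + 1 + 5) * Real.sqrt C * vv μ 1 z * XX β ε μ n 1 z ≤
            4 ^ (k + 1 + 5) * Real.sqrt C * vv μ 1 z * (H z / c) :=
              mul_le_mul_of_nonneg_left hXX (by positivity)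
          _ ≤ 4 ^ (k + 1 + 5) * Real.sqrt C * (Cv (k + 1) C R0 * vv μ 1 0) * (H z / c) := by gcongr
      have h7 : EE μ (fun η => MO.ht n s η ^ 2) z ≤
          (4 ^ (k + 1 + 5) * Real.sqrt C * Cv (k + 1) C R0 / (c * T0)) * (vv μ 1 0 * H z) := by
        have e : (4 ^ (k + 1 + 5) * Real.sqrt C * Cv (k + 1) C R0 / (c * T0)) * (vv μ 1 0 * H z) =
            (4 ^ (k + 1 + 5) * Real.sqrt C * (Cv (k + 1) C R0 * vv μ 1 0) * (H z / c)) / T0 := by
          field_simp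
        rw [e, le_div_iff₀ hT0]
        linarith
      calc EE μ (fun η => MO.ht n s η ^ 2) y ≤
            (1 + ‖z - y‖) ^ (k + 1 + 4) * EE μ (fun η => MO.ht n s η ^ 2) z := h1
        _ ≤ (1 + 4 * R0) ^ (k + 1 + 4) *
            ((4 ^ (k + 1 + 5) * Real.sqrt C * Cv (k + 1) C R0 / (c * T0)) * (vv μ 1 0 * H z)) :=
            mul_le_mul h2 h7 h4 (by positivity)
        _ = H z * (Kh * vv μ 1 0) := by rw [hKh]; ring)
  have e : Ca k C R0 c = Kh / vb k 1 := rfl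
  rw [e]
  rw [div_mul_eq_mul_div, div_le_iff₀ (by positivity)] at hlow
  have e2 : Kh / vb k 1 * vv μ 1 0 * plInt n s (fun x => zR (2 * R0 - 1) x * H x) =
      (plInt n s (fun x => zR (2 * R0 - 1) x * H x) * (Kh * vv μ 1 0)) / vb k 1 := by
    field_simp
  rw [e2, le_div_iff₀ hvb]
  exact hlow

omit h hd hC' hμ in
/-- alternative at a point of the plane: large gain or near mass -/
lemma L_far {C : ℝ} (hC : 0 < C) (hT : MO.THd 0 C μ) {R0 c CB LH A : ℝ} (hR0 : 32 ≤ R0)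
    (hc : 0 < c) (hCB : 0 < CB) (hLH : 0 < LH)
    {n : Sp (k + 1)} (hn : ‖n‖ = 1) {s : ℝ} {H : Sp (k + 1) → ℝ} (hHc : Continuous H)
    (hH0 : ∀ y, 0 ≤ H y)
    (hLip : ∀ x y : Sp (k + 1), ‖x‖ ≤ 2 * R0 → ‖y‖ ≤ 2 * R0 → |H y - H x| ≤ LH * vv μ 1 0 * ‖y - x‖)
    {x : Sp (k + 1)} (hx : ⟪n, x⟫_ℝ = s) (hxR : ‖x‖ ≤ 2 * R0 - 3)
    (hdich : c * vv μ 1 x ≤ H x ∨ vv μ 1 x ^ 2 ≤ CB * (μ (ball x A)).toReal) :
    c / (2 * Cv (k + 1) C R0) * vb k (min 1 (c / (2 * Cv (k + 1) C R0 * LH))) * vv μ 1 0 ≤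
      plInt n s (fun x => zR (2 * R0 - 1) x * H x) ∨
    1 / (CB * Cv (k + 1) C R0 ^ 2) * vv μ 1 0 ^ 2 ≤ (μ (ball x A)).toReal := by
  have hv0 := hT.vpos one_pos (0 : Sp (k + 1))
  have hCv : 0 < Cv (k + 1) C R0 := by
    unfold Cv; have := Real.sqrt_pos.2 hC; positivity
  have hcmp := (v_cmp (μ := μ) hC hT (R0 := R0) (by linarith) (r := 1) (by norm_num) (by norm_num)
        (y := x) (by linarith)).2
  rcases hdich with hd1 | hd1
  · left
    set r1 : ℝ := min 1 (c / (2 * Cv (k + 1) C R0 * LH)) with hr1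
    have hlow := pl_lower k hn (s := s) (F := fun x => zR (2 * R0 - 1) x * H x)
      ((zR_cont _).mul hHc) ((zR_cs _).mul_right) (fun x => mul_nonneg (zR_nonneg _ _) (hH0 x))
      (x := x) hx (r := r1) (κ := c / (2 * Cv (k + 1) C R0) * vv μ 1 0)
      (fun z hz hzx => by
        have h1 : ‖z - x‖ ≤ 1 := hzx.trans (min_le_left _ _)
        have h2 : ‖z‖ ≤ 2 * R0 - 2 := by
          have := norm_add_le (z - x) x
          rw [sub_add_cancel] at this
          linarith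
        rw [zR_one (by linarith), one_mul]
        have h3 := hLip x z (by linarith) (by linarith)
        have h4 : LH * vv μ 1 0 * ‖z - x‖ ≤ c / (2 * Cv (k + 1) C R0) * vv μ 1 0 := by
          have h5 : ‖z - x‖ ≤ c / (2 * Cv (k + 1) C R0 * LH) := hzx.trans (min_le_right _ _)
          calc LH * vv μ 1 0 * ‖z - x‖ ≤ LH * vv μ 1 0 * (c / (2 * Cv (k + 1) C R0 * LH)) :=
                mul_le_mul_of_nonneg_left h5 (by positivity)
            _ = _ := by field_simp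
        have h6 : c / Cv (k + 1) C R0 * vv μ 1 0 ≤ H x := by
          refine le_trans ?_ hd1
          rw [div_mul_eq_mul_div, div_le_iff₀ hCv]
          nlinarith only [hc, hcmp]
        have h7 : c / Cv (k + 1) C R0 * vv μ 1 0 =
            c / (2 * Cv (k + 1) C R0) * vv μ 1 0 + c / (2 * Cv (k + 1) C R0) * vv μ 1 0 := by
          field_simp; ring
        have h8 := (abs_le.1 h3).1
        linarith)
    calc _ = c / (2 * Cv (k + 1) C R0) * vv μ 1 0 * vb k r1 := by ring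
      _ ≤ _ := hlow
  · right
    have h1 : vv μ 1 0 ^ 2 ≤ (Cv (k + 1) C R0 * vv μ 1 x) ^ 2 := pow_le_pow_left₀ hv0.le hcmp 2
    rw [div_mul_eq_mul_div, one_mul, div_le_iff₀ (by positivity)]
    calc vv μ 1 0 ^ 2 ≤ Cv (k + 1) C R0 ^ 2 * vv μ 1 x ^ 2 := by rw [← mul_pow]; exact h1
      _ ≤ Cv (k + 1) C R0 ^ 2 * (CB * (μ (ball x A)).toReal) :=
          mul_le_mul_of_nonneg_left hd1 (by positivity)
      _ = _ := by ring

lemma mm_int {n n' : Sp (k + 1)} (hn : ‖n‖ = 1) (hn' : ‖n'‖ = 1) (s s' : ℝ) {g σ : ℝ} (hg0 : 0 ≤ g)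
    (hg1 : g ≤ 1) (hσ : σ ^ 2 = 1) (y : Sp (k + 1)) :
    Integrable (fun η => mm n n' s s' g σ η ^ 2 * MO.K 1 (y - η)) μ := by
  have i1 := int_h2 h hd hC' hμ hn s y
  have i2 := int_h2 h hd hC' hμ hn' s' y
  have hKc : Continuous (fun η : Sp (k + 1) => MO.K 1 (y - η)) :=
    MO.K1_cont.comp (continuous_const.sub continuous_id)
  refine Integrable.mono' ((i1.const_mul 2).add (i2.const_mul 2))
    (((mm_cont n n' s s' g σ).pow 2).mul hKc).aestronglyMeasurable (Eventually.of_forall fun η => ?_)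
  have hK := (MO.K_pos one_pos (y - η)).le
  rw [Real.norm_of_nonneg (mul_nonneg (sq_nonneg _) hK)]
  have h1 := mul_le_mul_of_nonneg_right (mm_sq n n' s s' hg0 hg1 hσ η) hK
  simp only [Pi.add_apply]
  linarith

lemma mm_EE {n n' : Sp (k + 1)} (hn : ‖n‖ = 1) (hn' : ‖n'‖ = 1) (s s' : ℝ) {g σ : ℝ} (hg0 : 0 ≤ g)
    (hg1 : g ≤ 1) (hσ : σ ^ 2 = 1) (y : Sp (k + 1)) :
    EE μ (fun η => mm n n' s s' g σ η ^ 2) y ≤
      2 * EE μ (fun η => MO.ht n s η ^ 2) y + 2 * EE μ (fun η => MO.ht n' s' η ^ 2) y := by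
  have i1 := int_h2 h hd hC' hμ hn s y
  have i2 := int_h2 h hd hC' hμ hn' s' y
  have im := mm_int h hd hC' hμ hn hn' s s' hg0 hg1 hσ y
  unfold EE
  rw [← integral_const_mul, ← integral_const_mul, ← integral_add (i1.const_mul 2) (i2.const_mul 2)]
  refine integral_mono im ((i1.const_mul 2).add (i2.const_mul 2)) fun η => ?_
  have hK := (MO.K_pos one_pos (y - η)).le
  have h1 := mul_le_mul_of_nonneg_right (mm_sq n n' s s' hg0 hg1 hσ η) hK
  simp only []
  linarith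

/-- near part of the second moment -/
lemma EE_near {n n' : Sp (k + 1)} (hn : ‖n‖ = 1) (hn' : ‖n'‖ = 1) (s s' : ℝ) {g σ : ℝ} (hg0 : 0 ≤ g)
    (hg1 : g ≤ 1) (hσ : σ ^ 2 = 1) {x : Sp (k + 1)} {A q : ℝ} (hA : 0 < A) (hq : 0 ≤ q)
    (hlow : ∀ η, ‖η - x‖ < A → q ≤ |mm n n' s s' g σ η|) :
    q ^ 2 / (1 + A) ^ (k + 1 + 4) * (μ (ball x A)).toReal ≤
      EE μ (fun η => mm n n' s s' g σ η ^ 2) x := by
  have := hμ.fin
  have im := mm_int h hd hC' hμ hn hn' s s' hg0 hg1 hσ x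
  have e1 : (∫ η in ball x A, mm n n' s s' g σ η ^ 2 * MO.K 1 (x - η) ∂μ) ≤
      EE μ (fun η => mm n n' s s' g σ η ^ 2) x := by
    unfold EE
    exact setIntegral_le_integral im
      (Eventually.of_forall fun η => mul_nonneg (sq_nonneg _) (MO.K_pos one_pos _).le)
  refine le_trans ?_ e1
  have e2 : (∫ _η in ball x A, q ^ 2 / (1 + A) ^ (k + 1 + 4) ∂μ) =
      q ^ 2 / (1 + A) ^ (k + 1 + 4) * (μ (ball x A)).toReal := by
    rw [setIntegral_const, smul_eq_mul, Measure.real, mul_comm]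
  rw [← e2]
  refine setIntegral_mono_on (integrable_const _).integrableOn im.integrableOn
    measurableSet_ball fun η hη => ?_
  have hη' : ‖η - x‖ < A := by rw [← dist_eq_norm]; exact hη
  have h1 := hlow η hη'
  have h2 : q ^ 2 ≤ mm n n' s s' g σ η ^ 2 := by
    rw [← sq_abs (mm n n' s s' g σ η)]
    exact pow_le_pow_left₀ hq h1 2
  have h3 : 1 / (1 + A) ^ (k + 1 + 4) ≤ MO.K 1 (x - η) := by
    rw [MO.K_eq]
    have hR := MO.R_pos one_pos (x - η)
    have hR2 : MO.R 1 (x - η) ≤ 1 + A := by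
      unfold MO.R
      rw [Real.sqrt_le_left (by linarith)]
      have : ‖x - η‖ < A := by rw [norm_sub_rev]; exact hη'
      nlinarith [norm_nonneg (x - η)]
    (clear * - hR hR2; gcongr)
  calc q ^ 2 / (1 + A) ^ (k + 1 + 4) = q ^ 2 * (1 / (1 + A) ^ (k + 1 + 4)) := by ring
    _ ≤ mm n n' s s' g σ η ^ 2 * MO.K 1 (x - η) :=
        mul_le_mul h2 h3 (by positivity) (sq_nonneg _)

/-- the case of a large tilt: the tangential gradient is large near x -/
lemma L_near {C : ℝ} (hC : 0 < C) (hT : MO.THd 0 C μ) {R0 c A cm : ℝ} (hR0 : 32 ≤ R0) (hc : 0 < c)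
    (hA : 1 ≤ A) (hcm : 0 < cm)
    {J : ℕ} {M : ℝ} {β : Sp (k + 1) → ℝ} (hβ : Kit J M β) {ε : ℝ} (hε : 0 < ε) (hε1 : ε ≤ 1 / 4)
    {n n' : Sp (k + 1)} (hn : ‖n‖ = 1) (hn' : ‖n'‖ = 1) {s s' : ℝ} {g σ : ℝ} (hg0 : 0 ≤ g)
    (hg1 : g ≤ 1) (hσ : σ ^ 2 = 1) (hgn : ⟪n, g • n - σ • n'⟫_ℝ = 0)
    {H : Sp (k + 1) → ℝ} (hHc : Continuous H) (hH0 : ∀ y, 0 ≤ H y)
    (hHX : ∀ y, c * XX β ε μ n 1 y ≤ H y) {x : Sp (k + 1)} (hx : ⟪n, x⟫_ℝ = s) (hxR : ‖x‖ ≤ R0 + 3)
    (hw0 : 0 < ‖g • n - σ • n'‖)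
    (hfar : ∀ y, ‖y - x‖ ≤ 1 → ‖g • n - σ • n'‖ ≤ |mm n n' s s' g σ y|)
    (hnear : cm * vv μ 1 0 ^ 2 ≤ (μ (ball x A)).toReal) {c1 : ℝ}
    (hc1 : c1 = cm / (A + 3) ^ (k + 1 + 2))
    (hE : ∀ y : Sp (k + 1), ‖y‖ ≤ 2 * R0 → EE μ (fun η => mm n n' s s' g σ η ^ 2) y ≤
      c1 ^ 2 / (16 * Cv (k + 1) C R0 ^ 2 * 4 ^ (k + 1 + 5)) *
        (‖g • n - σ • n'‖ ^ 2 * vv μ 1 0 ^ 2)) :
    c * (T0 * (c1 ^ 2 / (16 * Cv (k + 1) C R0 ^ 3))) * vb k (1 / 2) * vv μ 1 0 ≤
      plInt n s (fun x => zR (2 * R0 - 1) x * H x) := by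
  have hP : GPx.Pot μ := ⟨hμ.fin, hT.pos, hT.smooth, hT.har⟩
  have hT0 := T0_pos
  have hv0 := hT.vpos one_pos (0 : Sp (k + 1))
  have hCv : 0 < Cv (k + 1) C R0 := by
    unfold Cv; have := Real.sqrt_pos.2 hC; positivity
  have hc1p : 0 < c1 := by rw [hc1]; positivity
  have hlow := pl_lower k hn (s := s) (F := fun x => zR (2 * R0 - 1) x * H x)
    ((zR_cont _).mul hHc) ((zR_cs _).mul_right) (fun x => mul_nonneg (zR_nonneg _ _) (hH0 x))
    (x := x) hx (r := 1 / 2)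
    (κ := c * (T0 * (vv μ 1 0 * (c1 ^ 2 / (16 * Cv (k + 1) C R0 ^ 3)))))
    (fun y hy hyx => by
      have hyR : ‖y‖ ≤ R0 + 7 / 2 := by
        have := norm_add_le (y - x) x
        rw [sub_add_cancel] at this
        linarith only [hxR, hyx, this]
      rw [zR_one (by linarith only [hR0, hyR]), one_mul]
      have h1 := tavX1_low h hd hC' hμ hβ hε (by linarith) hn (y := y)
        (κ := vv μ 1 0 * (c1 ^ 2 / (16 * Cv (k + 1) C R0 ^ 3))) (fun r hr1 hr2 => by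
          refine X1_low hP hβ (by linarith) fun z hz => ?_
          have hz1 : ‖(ε * r) • z‖ ≤ 1 / 2 := by
            rw [norm_smul, Real.norm_of_nonneg (by positivity)]
            have : ε * r ≤ 1 / 2 := by nlinarith only [hε1, hε, hr2]
            have h0 : 0 ≤ ε * r := by positivity
            nlinarith only [hε1, hr2, hr1, hz, h0]
          have hyx2 : ‖y + (ε * r) • z - x‖ ≤ 1 := by
            have e : y + (ε * r) • z - x = (y - x) + (ε * r) • z := by abel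
            rw [e]
            refine (norm_add_le _ _).trans ?_
            linarith
          have hyR2 : ‖y + (ε * r) • z‖ ≤ 2 * R0 := by
            have := norm_add_le y ((ε * r) • z)
            linarith
          have hvc := (v_cmp (μ := μ) hC hT (R0 := R0) (by linarith) hr1 hr2 hyR2).1
          exact tang_low (by omega) hP hr1 hr2 (x := x) (w := g • n - σ • n') hgn
            (a := ‖g • n - σ • n'‖) (L := mm n n' s s' g σ (y + (ε * r) • z)) le_rfl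
            (mm_cont n n' s s' g σ)
            (mm_int h hd hC' hμ hn hn' s s' hg0 hg1 hσ _)
            (fun η => mm_diff n n' s s' g σ _ η) hw0 (hfar _ hyx2) hyx2 hA hv0 hCv hcm hvc hnear hc1
            (hE _ hyR2))
      have h3 : 0 ≤ tav (X2 μ n) 1 y := tav_nonneg (fun t y ht => X2_nonneg μ n ht y) y
      have h4 : 0 ≤ tav (X3 β ε μ n) 1 y := tav_nonneg (fun t y _ => X3_nonneg hβ ε μ n t y) y
      have h5 : T0 * (vv μ 1 0 * (c1 ^ 2 / (16 * Cv (k + 1) C R0 ^ 3))) ≤ XX β ε μ n 1 y := by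
        unfold XX; linarith
      exact (mul_le_mul_of_nonneg_left h5 hc.le).trans (hHX y))
  refine le_trans (le_of_eq ?_) hlow
  ring

omit h hd hC' hμ in
lemma pl_nonneg {n : Sp (k + 1)} {s : ℝ} {F : Sp (k + 1) → ℝ} (hF : ∀ y, 0 ≤ F y) :
    0 ≤ plInt n s F := by
  unfold plInt
  exact integral_nonneg fun y => hF _

omit h hd hC' hμ in
lemma pl_congr {n : Sp (k + 1)} (hn : ‖n‖ = 1) {s : ℝ} {F G : Sp (k + 1) → ℝ}
    (hF : ∀ y, ⟪n, y⟫_ℝ = s → F y = G y) : plInt n s F = plInt n s G := by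
  unfold plInt
  congr 1
  funext y
  refine hF _ ?_
  rw [inner_add_right, inner_smul_right, real_inner_self_eq_norm_sq, hn, PF.inner_pl]
  simp

/-- the constant -/
def CP (k : ℕ) (C R0 c CB LH A : ℝ) : ℝ :=
  (1 + 4 * (R0 + 1) ^ 2) /
      (c / (2 * Cv (k + 1) C R0) * vb k (min 1 (c / (2 * Cv (k + 1) C R0 * LH)))) +
    16 * Ca k C R0 c * (1 + A) ^ (k + 1 + 4) / (1 / (CB * Cv (k + 1) C R0 ^ 2)) +
    (1 + 4 * A ^ 2) / (((1 / (CB * Cv (k + 1) C R0 ^ 2)) / (A + 3) ^ (k + 1 + 2)) ^ 2 /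
      (16 * Cv (k + 1) C R0 ^ 2 * 4 ^ (k + 1 + 5)) / (2 * Ca k C R0 c)) +
    (1 + 4 * (R0 + 1) ^ 2) /
      (c * (T0 * (((1 / (CB * Cv (k + 1) C R0 ^ 2)) / (A + 3) ^ (k + 1 + 2)) ^ 2 /
        (16 * Cv (k + 1) C R0 ^ 3))) * vb k (1 / 2))

lemma L_core {C : ℝ} (hC : 0 < C) (hT : MO.THd 0 C μ) {R0 c A CB LH : ℝ} (hR0 : 32 ≤ R0)
    (hc : 0 < c) (hA : 1 ≤ A) (hCB : 0 < CB) (hLH : 0 < LH)
    {J : ℕ} {M : ℝ} {β : Sp (k + 1) → ℝ} (hβ : Kit J M β) {ε : ℝ} (hε : 0 < ε) (hε1 : ε ≤ 1 / 4)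
    {n n' : Sp (k + 1)} (hn : ‖n‖ = 1) (hn' : ‖n'‖ = 1) {s s' : ℝ} (hs : |s| ≤ R0 + 1)
    (hs' : |s'| ≤ R0 + 1) {g σ : ℝ} (hg0 : 0 ≤ g)
    (hg1 : g ≤ 1) (hσ : σ ^ 2 = 1) (hg : g = σ * ⟪n, n'⟫_ℝ)
    {H H' : Sp (k + 1) → ℝ} (hHc : Continuous H) (hH0 : ∀ y, 0 ≤ H y)
    (hHX : ∀ y, c * XX β ε μ n 1 y ≤ H y) (hHc' : Continuous H') (hH0' : ∀ y, 0 ≤ H' y)
    (hHX' : ∀ y, c * XX β ε μ n' 1 y ≤ H' y)
    (hLip : ∀ x y : Sp (k + 1), ‖x‖ ≤ 2 * R0 → ‖y‖ ≤ 2 * R0 → |H y - H x| ≤ LH * vv μ 1 0 * ‖y - x‖)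
    (hdich : ∀ x, c * vv μ 1 x ≤ H x ∨ vv μ 1 x ^ 2 ≤ CB * (μ (ball x A)).toReal) :
    vv μ 1 0 * (‖g • n - σ • n'‖ ^ 2 + mm n n' s s' g σ (s • n) ^ 2) ≤
      CP k C R0 c CB LH A * (plInt n s (fun x => zR (2 * R0 - 1) x * H x) +
        plInt n' s' (fun x => zR (2 * R0 - 1) x * H' x)) := by
  have hT0 := T0_pos
  have hv0 := hT.vpos one_pos (0 : Sp (k + 1))
  have hCv : 0 < Cv (k + 1) C R0 := by
    unfold Cv; have := Real.sqrt_pos.2 hC; positivity
  have hsC := Real.sqrt_pos.2 hC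
  set v0 := vv μ 1 0 with hv0e
  set V := Cv (k + 1) C R0 with hV
  set w : Sp (k + 1) := g • n - σ • n' with hw
  set l0 := mm n n' s s' g σ (s • n) with hl0
  set P1 := plInt n s (fun x => zR (2 * R0 - 1) x * H x) with hP1
  set P2 := plInt n' s' (fun x => zR (2 * R0 - 1) x * H' x) with hP2
  have hP1n : 0 ≤ P1 := pl_nonneg fun x => mul_nonneg (zR_nonneg _ _) (hH0 x)
  have hP2n : 0 ≤ P2 := pl_nonneg fun x => mul_nonneg (zR_nonneg _ _) (hH0' x)
  set cb : ℝ := c / (2 * V) * vb k (min 1 (c / (2 * V * LH))) with hcb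
  have hr1 : 0 < min 1 (c / (2 * V * LH)) := lt_min one_pos (by positivity)
  have hcb0 : 0 < cb := mul_pos (by positivity) (vb_pos k hr1)
  set cm : ℝ := 1 / (CB * V ^ 2) with hcm
  have hcm0 : 0 < cm := by positivity
  set a0 : ℝ := Ca k C R0 c with ha0
  have hCa : 0 < a0 := by
    rw [ha0]; unfold Ca
    have := vb_pos k one_pos
    rw [← hV]
    positivity
  set c1 : ℝ := cm / (A + 3) ^ (k + 1 + 2) with hc1
  have hc10 : 0 < c1 := by positivity
  set kE : ℝ := c1 ^ 2 / (16 * V ^ 2 * 4 ^ (k + 1 + 5)) with hkE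
  have hkE0 : 0 < kE := by positivity
  set k2 : ℝ := kE / (2 * a0) with hk2
  have hk20 : 0 < k2 := by positivity
  set c3 : ℝ := c * (T0 * (c1 ^ 2 / (16 * V ^ 3))) * vb k (1 / 2) with hc3
  have hc30 : 0 < c3 := mul_pos (by positivity) (vb_pos k (by norm_num))
  set CD : ℝ := 1 + 4 * (R0 + 1) ^ 2 with hCD
  have hCD0 : 0 < CD := by positivity
  have hCP : CP k C R0 c CB LH A = CD / cb + 16 * a0 * (1 + A) ^ (k + 1 + 4) / cm +
      (1 + 4 * A ^ 2) / k2 + CD / c3 := rfl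
  have t1 : 0 < CD / cb := by positivity
  have t2 : 0 < 16 * a0 * (1 + A) ^ (k + 1 + 4) / cm := by positivity
  have t3 : 0 < (1 + 4 * A ^ 2) / k2 := by positivity
  have t4 : 0 < CD / c3 := by positivity
  have hPP : 0 ≤ P1 + P2 := by linarith only [hP1n, hP2n]
  rw [hCP]
  -- it suffices to bound by one of the four constants
  have fin1 : ∀ K : ℝ, K ≤ CD / cb + 16 * a0 * (1 + A) ^ (k + 1 + 4) / cm + (1 + 4 * A ^ 2) / k2 + CD / c3 →
      v0 * (‖w‖ ^ 2 + l0 ^ 2) ≤ K * (P1 + P2) → v0 * (‖w‖ ^ 2 + l0 ^ 2) ≤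
      (CD / cb + 16 * a0 * (1 + A) ^ (k + 1 + 4) / cm + (1 + 4 * A ^ 2) / k2 + CD / c3) * (P1 + P2) :=
    fun K hK h1 => h1.trans (mul_le_mul_of_nonneg_right hK hPP)
  -- geometry
  have hnn' : ⟪n', n'⟫_ℝ = 1 := by rw [real_inner_self_eq_norm_sq, hn']; norm_num
  have hnn : ⟪n, n⟫_ℝ = 1 := by rw [real_inner_self_eq_norm_sq, hn]; norm_num
  have hgn : ⟪n, w⟫_ℝ = 0 := by
    rw [hw, inner_sub_right, inner_smul_right, inner_smul_right, hnn, hg]; ring
  have hwsq : ‖w‖ ^ 2 = 1 - g ^ 2 := by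
    have e1 : ‖w‖ ^ 2 = ⟪w, w⟫_ℝ := (real_inner_self_eq_norm_sq w).symm
    have e2 : ⟪w, w⟫_ℝ = g * ⟪n, w⟫_ℝ - σ * ⟪n', w⟫_ℝ := by
      have e3 : ⟪g • n - σ • n', w⟫_ℝ = g * ⟪n, w⟫_ℝ - σ * ⟪n', w⟫_ℝ := by
        rw [inner_sub_left, inner_smul_left, inner_smul_left]
        simp
      exact e3
    have e3 : ⟪n', w⟫_ℝ = g * ⟪n, n'⟫_ℝ - σ := by
      rw [hw, inner_sub_right, inner_smul_right, inner_smul_right, hnn', real_inner_comm n n']; ring
    rw [e1, e2, hgn, e3]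
    have e4 : σ * ⟪n, n'⟫_ℝ = g := hg.symm
    linear_combination (-g) * e4 + hσ
  have hw1 : ‖w‖ ^ 2 ≤ 1 := by rw [hwsq]; nlinarith only []
  have hsn : ⟪n, s • n⟫_ℝ = s := by rw [inner_smul_right, hnn]; ring
  have hxn : ‖s • n‖ ≤ R0 + 1 := by rw [norm_smul, hn, mul_one, Real.norm_eq_abs]; exact hs
  have hl0b : l0 ^ 2 ≤ 4 * (R0 + 1) ^ 2 := by
    have e1 : MO.ht n s (s • n) = 0 := by
      unfold MO.ht; rw [real_inner_comm, hsn]; ring
    have e2 : |MO.ht n' s' (s • n)| ≤ 2 * (R0 + 1) := by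
      unfold MO.ht
      refine (abs_sub _ _).trans ?_
      have := abs_real_inner_le_norm (s • n) n'
      rw [hn', mul_one] at this
      linarith only [hs', hxn, this]
    have e3 : l0 ^ 2 = MO.ht n' s' (s • n) ^ 2 := by
      rw [hl0]; unfold mm; rw [e1]
      have : (g * 0 - σ * MO.ht n' s' (s • n)) ^ 2 = σ ^ 2 * MO.ht n' s' (s • n) ^ 2 := by ring
      rw [this, hσ, one_mul]
    rw [e3, ← sq_abs]
    calc |MO.ht n' s' (s • n)| ^ 2 ≤ (2 * (R0 + 1)) ^ 2 := pow_le_pow_left₀ (abs_nonneg _) e2 2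
      _ = _ := by ring
  have hDel : ‖w‖ ^ 2 + l0 ^ 2 ≤ CD := by rw [hCD]; linarith only [hw1, hl0b]
  have hEm : ∀ y : Sp (k + 1), ‖y‖ ≤ 2 * R0 →
      EE μ (fun η => mm n n' s s' g σ η ^ 2) y ≤ 2 * a0 * v0 * (P1 + P2) := by
    intro y hy
    have e1 := L_E h hd hC' hμ hC hT hR0 hc hβ hn hs hHc hH0 hHX hy
    have e2 := L_E h hd hC' hμ hC hT hR0 hc hβ hn' hs' hHc' hH0' hHX' hy
    have e3 := mm_EE h hd hC' hμ hn hn' s s' hg0 hg1 hσ y
    rw [← ha0, ← hv0e, ← hP1] at e1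
    rw [← ha0, ← hv0e, ← hP2] at e2
    linarith only [e1, e2, e3]
  have hmd : ∀ y η, ⟪y - η, w⟫_ℝ = mm n n' s s' g σ y - mm n n' s s' g σ η :=
    fun y η => mm_diff n n' s s' g σ y η
  -- case of a large gain somewhere
  have big : ∀ K0 : ℝ, 0 < K0 → K0 * v0 ≤ P1 → v0 * (‖w‖ ^ 2 + l0 ^ 2) ≤ CD / K0 * (P1 + P2) := by
    intro K0 hK0 h1
    rw [div_mul_eq_mul_div, le_div_iff₀ hK0]
    calc v0 * (‖w‖ ^ 2 + l0 ^ 2) * K0 ≤ v0 * CD * K0 := by (clear * - hDel hv0 hK0; gcongr)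
      _ = CD * (K0 * v0) := by ring
      _ ≤ CD * (P1 + P2) := mul_le_mul_of_nonneg_left (by linarith only [hP2n, h1]) hCD0.le
  rcases le_or_gt (2 * A * ‖w‖) |l0| with hcase | hcase
  · -- offset dominates
    rcases L_far hC hT hR0 hc hCB hLH hn hHc hH0 hLip hsn (by linarith only [hR0, hxn]) (hdich (s • n)) with h1 | h1
    · exact fin1 (CD / cb) (by linarith only [t2, t3, t4]) (big cb hcb0 h1)
    · refine fin1 (16 * a0 * (1 + A) ^ (k + 1 + 4) / cm) (by linarith only [t1, t3, t4]) ?_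
      have h2 := EE_near h hd hC' hμ hn hn' s s' hg0 hg1 hσ (x := s • n) (A := A) (q := |l0| / 2)
        (by linarith only [hA]) (by (clear * -; positivity)) (fun η hη => by
          have e1 := hmd (s • n) η
          have e2 : |⟪s • n - η, w⟫_ℝ| ≤ A * ‖w‖ := by
            refine (abs_real_inner_le_norm _ _).trans ?_
            rw [norm_sub_rev]
            exact mul_le_mul_of_nonneg_right hη.le (norm_nonneg _)
          have e3 : |l0| - |⟪s • n - η, w⟫_ℝ| ≤ |mm n n' s s' g σ η| := by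
            have e4 : mm n n' s s' g σ η = l0 - ⟪s • n - η, w⟫_ℝ := by rw [e1]; ring
            rw [e4]
            exact abs_sub_abs_le_abs_sub _ _
          linarith only [hcase, e2, e3])
      have h3 := hEm (s • n) (by linarith only [hR0, hxn])
      have h4 : (|l0| / 2) ^ 2 / (1 + A) ^ (k + 1 + 4) * (cm * v0 ^ 2) ≤ 2 * a0 * v0 * (P1 + P2) := by
        refine le_trans ?_ (h2.trans h3)
        exact mul_le_mul_of_nonneg_left h1 (by (clear * - hA; positivity))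
      have h5 : (|l0| / 2) ^ 2 = l0 ^ 2 / 4 := by rw [div_pow, sq_abs]; norm_num
      rw [h5] at h4
      have h6 : ‖w‖ ^ 2 ≤ l0 ^ 2 := by
        have e1 : ‖w‖ ≤ |l0| := by
          have := norm_nonneg w
          nlinarith only [hcase, this, hA]
        rw [← sq_abs l0]
        exact pow_le_pow_left₀ (norm_nonneg _) e1 2
      rw [div_mul_eq_mul_div, le_div_iff₀ hcm0]
      have hA4 : 0 < (1 + A) ^ (k + 1 + 4) := by positivity
      have h7 : l0 ^ 2 * (cm * v0) ≤ 8 * a0 * (1 + A) ^ (k + 1 + 4) * (P1 + P2) := by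
        have e1 : l0 ^ 2 / 4 / (1 + A) ^ (k + 1 + 4) * (cm * v0 ^ 2) =
            v0 * (l0 ^ 2 * (cm * v0) / (4 * (1 + A) ^ (k + 1 + 4))) := by field_simp
        rw [e1, show 2 * a0 * v0 * (P1 + P2) = v0 * (2 * a0 * (P1 + P2)) by ring] at h4
        have e2 := le_of_mul_le_mul_left h4 hv0
        rw [div_le_iff₀ (by positivity)] at e2
        linarith only [e2]
      calc v0 * (‖w‖ ^ 2 + l0 ^ 2) * cm ≤ v0 * (l0 ^ 2 + l0 ^ 2) * cm := by (clear * - h6 hv0 hCB hCv; gcongr)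
        _ = 2 * (l0 ^ 2 * (cm * v0)) := by ring
        _ ≤ 16 * a0 * (1 + A) ^ (k + 1 + 4) * (P1 + P2) := by linarith only [h7]
  · -- tilt dominates
    have hw0 : 0 < ‖w‖ := by
      by_contra h1
      have h2 : ‖w‖ = 0 := le_antisymm (not_lt.1 h1) (norm_nonneg _)
      rw [h2, mul_zero] at hcase
      exact absurd hcase (not_lt.2 (abs_nonneg _))
    have hDel2 : ‖w‖ ^ 2 + l0 ^ 2 ≤ (1 + 4 * A ^ 2) * ‖w‖ ^ 2 := by
      have e1 : l0 ^ 2 ≤ (2 * A * ‖w‖) ^ 2 := by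
        rw [← sq_abs l0]
        exact pow_le_pow_left₀ (abs_nonneg _) hcase.le 2
      linarith only [e1]
    obtain ⟨τ, hτ, hτl⟩ : ∃ τ : ℝ, |τ| = 2 ∧ |l0 + τ * ‖w‖| = |l0| + 2 * ‖w‖ := by
      rcases le_total 0 l0 with h1 | h1
      · refine ⟨2, by norm_num, ?_⟩
        rw [abs_of_nonneg h1, abs_of_nonneg (by (clear * - h1 hw0; positivity))]
      · refine ⟨-2, by norm_num, ?_⟩
        rw [abs_of_nonpos h1, abs_of_nonpos (by linarith only [hw0, h1])]
        ring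
    set x : Sp (k + 1) := s • n + (τ / ‖w‖) • w with hx
    have hxS : ⟪n, x⟫_ℝ = s := by
      rw [hx, inner_add_right, hsn, inner_smul_right, hgn]; ring
    have hxR : ‖x‖ ≤ R0 + 3 := by
      refine (norm_add_le _ _).trans ?_
      have : ‖(τ / ‖w‖) • w‖ = 2 := by
        rw [norm_smul, Real.norm_eq_abs, abs_div, abs_norm, hτ]; field_simp
      linarith only [hxn, this]
    have hmx : mm n n' s s' g σ x = l0 + τ * ‖w‖ := by
      have e1 := hmd x (s • n)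
      have e2 : x - s • n = (τ / ‖w‖) • w := by rw [hx]; abel
      rw [e2, inner_smul_left, real_inner_self_eq_norm_sq] at e1
      simp only [conj_trivial] at e1
      have e3 : τ / ‖w‖ * ‖w‖ ^ 2 = τ * ‖w‖ := by field_simp
      rw [e3] at e1
      linarith only [e1]
    have hfar : ∀ y, ‖y - x‖ ≤ 1 → ‖w‖ ≤ |mm n n' s s' g σ y| := by
      intro y hy
      have e1 := hmd y x
      have e2 : |⟪y - x, w⟫_ℝ| ≤ ‖w‖ := by
        refine (abs_real_inner_le_norm _ _).trans ?_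
        have := norm_nonneg w
        nlinarith only [hw0, hy]
      have e3 : |mm n n' s s' g σ x| - |⟪y - x, w⟫_ℝ| ≤ |mm n n' s s' g σ y| := by
        have e4 : mm n n' s s' g σ y = mm n n' s s' g σ x - (-⟪y - x, w⟫_ℝ) := by rw [e1]; ring
        rw [e4, ← abs_neg ⟪y - x, w⟫_ℝ]
        exact abs_sub_abs_le_abs_sub _ _
      rw [hmx, hτl] at e3
      have := abs_nonneg l0
      linarith only [e2, e3, this]
    rcases L_far hC hT hR0 hc hCB hLH hn hHc hH0 hLip hxS (by linarith only [hR0, hxR]) (hdich x) with h1 | h1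
    · exact fin1 (CD / cb) (by linarith only [t2, t3, t4]) (big cb hcb0 h1)
    · rcases le_or_gt (k2 * (‖w‖ ^ 2 * v0)) (P1 + P2) with h2 | h2
      · refine fin1 ((1 + 4 * A ^ 2) / k2) (by linarith only [t1, t2, t4]) ?_
        rw [div_mul_eq_mul_div, le_div_iff₀ hk20]
        calc v0 * (‖w‖ ^ 2 + l0 ^ 2) * k2 ≤ v0 * ((1 + 4 * A ^ 2) * ‖w‖ ^ 2) * k2 := by (clear * - hDel2 hv0 hCB hCv hA hCa; gcongr)
          _ = (1 + 4 * A ^ 2) * (k2 * (‖w‖ ^ 2 * v0)) := by ring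
          _ ≤ _ := mul_le_mul_of_nonneg_left h2 (by positivity)
      · refine fin1 (CD / c3) (by linarith only [t1, t2, t3]) (big c3 hc30 ?_)
        refine L_near h hd hC' hμ hC hT hR0 hc hA hcm0 hβ hε hε1 hn hn' hg0 hg1 hσ hgn hHc hH0 hHX hxS
          hxR hw0 hfar h1 hc1 fun y hy => ?_
        refine (hEm y hy).trans ?_
        have e1 : 2 * a0 * v0 * (P1 + P2) ≤ 2 * a0 * v0 * (k2 * (‖w‖ ^ 2 * v0)) :=
          mul_le_mul_of_nonneg_left h2.le (by positivity)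
        refine e1.trans (le_of_eq ?_)
        rw [← hw, ← hv0e]
        simp only [hk2, hkE]
        rw [← hV]
        field_simp

end core

end UUm

end

end TG


end

section

/-!
# Averages with general kernels

avk ψ s g for a continuous, even, nonnegative kernel ψ of integral one, supported in the unit ball
(structure GK).  The base kernel b and all KN b n are of this kind; identities between the averages
with these kernels.
-/

open MeasureTheory Metric Set TrI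
open scoped InnerProductSpace ContDiff Pointwise

set_option linter.unusedSectionVars false

namespace TG

noncomputable section

variable {d : ℕ}

/-- averaging kernels -/
structure GK (ψ : Sp d → ℝ) : Prop where
  cont : Continuous ψ
  nonneg : ∀ y, 0 ≤ ψ y
  supp : ∀ y, 1 ≤ ‖y‖ → ψ y = 0
  even : ∀ y, ψ (-y) = ψ y
  int : ∫ y, ψ y = 1

section Gen

variable {F : Type*} [NormedAddCommGroup F] [NormedSpace ℝ F] {g h : Sp d → F}
  {ψ χ : Sp d → ℝ}

lemma GK.hcs (hψ : GK ψ) : HasCompactSupport ψ := by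
  refine HasCompactSupport.of_support_subset_isCompact (isCompact_closedBall (0 : Sp d) 1) ?_
  intro x hx
  by_contra hx'
  apply hx
  rw [mem_closedBall, dist_zero_right, not_le] at hx'
  exact hψ.supp x hx'.le

lemma GK.integrable (hψ : GK ψ) : Integrable ψ :=
  hψ.cont.integrable_of_hasCompactSupport hψ.hcs

lemma GK.avk_integrable' (hψ : GK ψ) (hg : LB g) (s : ℝ) (x : Sp d) :
    Integrable (fun y => ψ y • g (x + s • y)) :=
  (hg.comp_smul x s).integrable_smul hψ.cont (R := 1) fun y hy => hψ.supp y hy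

lemma avkA_def (ψ : Sp d → ℝ) (s : ℝ) (g : Sp d → F) (x : Sp d) :
    avk ψ s g x = ∫ y, ψ y • g (x + s • y) := rfl

lemma GK.avk_zero_scale [CompleteSpace F] (hψ : GK ψ) (g : Sp d → F) (x : Sp d) :
    avk ψ 0 g x = g x := by
  rw [avkA_def]
  simp only [zero_smul, add_zero]
  rw [integral_smul_const, hψ.int, one_smul]

/-- bound of an average by a bound of g near x -/
lemma GK.norm_avk_le_of_bound (hψ : GK ψ) {g : Sp d → F} {s : ℝ} {x : Sp d} {M : ℝ}
    (hM : ∀ z, ‖z - x‖ ≤ |s| → ‖g z‖ ≤ M) : ‖avk ψ s g x‖ ≤ M := by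
  have hM0 : 0 ≤ M := (norm_nonneg _).trans (hM x (by simp))
  have h1 : ‖avk ψ s g x‖ ≤ ∫ y, ψ y * M := by
    refine norm_integral_le_of_norm_le (hψ.integrable.mul_const M) ?_
    refine Filter.Eventually.of_forall fun y => ?_
    rw [norm_smul, Real.norm_eq_abs, abs_of_nonneg (hψ.nonneg y)]
    by_cases hy : 1 ≤ ‖y‖
    · rw [hψ.supp y hy]; simp
    · refine mul_le_mul_of_nonneg_left (hM _ ?_) (hψ.nonneg y)
      rw [add_sub_cancel_left, norm_smul, Real.norm_eq_abs]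
      push Not at hy
      nlinarith [abs_nonneg s, norm_nonneg y]
  rwa [integral_mul_const, hψ.int, one_mul] at h1

lemma GK.LBavk (hψ : GK ψ) (hg : LB g) (s : ℝ) : LB (avk ψ s g) where
  meas := by
    have h2 : StronglyMeasurable (Function.uncurry fun (x y : Sp d) => ψ y • g (x + s • y)) := by
      refine StronglyMeasurable.smul (f := fun p : Sp d × Sp d => ψ p.2) ?_ ?_
      · exact (hψ.cont.comp continuous_snd).stronglyMeasurable
      · exact hg.meas.comp_measurable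
          (show Measurable fun p : Sp d × Sp d => p.1 + s • p.2 by fun_prop)
    exact h2.integral_prod_right
  bd := by
    intro R
    obtain ⟨M, hM⟩ := hg.bd (R + |s|)
    refine ⟨M, fun x hx => hψ.norm_avk_le_of_bound fun z hz => hM z ?_⟩
    have : ‖z‖ ≤ ‖x‖ + ‖z - x‖ := by
      have := norm_add_le x (z - x)
      rwa [add_sub_cancel] at this
    linarith

lemma GK.avk_cs (hψ : GK ψ) (hg : HasCompactSupport g) (s : ℝ) :
    HasCompactSupport (avk ψ s g) := by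
  obtain ⟨R, hR⟩ := hg.isCompact.isBounded.subset_closedBall (0 : Sp d)
  refine HasCompactSupport.of_support_subset_isCompact (isCompact_closedBall (0 : Sp d) (R + |s|)) ?_
  intro x hx
  by_contra hx'
  apply hx
  have h1 : ‖avk ψ s g x‖ ≤ 0 := by
    refine hψ.norm_avk_le_of_bound fun z hz => ?_
    have : g z = 0 := by
      by_contra hz'
      have h2 : z ∈ closedBall (0 : Sp d) R := hR (subset_tsupport _ hz')
      rw [mem_closedBall, dist_zero_right] at h2 hx'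
      have : ‖x‖ ≤ ‖z‖ + ‖z - x‖ := by
        have := norm_sub_le z (z - x)
        rwa [sub_sub_cancel] at this
      linarith
    simp [this]
  simpa using h1

lemma GK.avk_eq_setIntegral (hψ : GK ψ) (s : ℝ) (g : Sp d → F) (x : Sp d) :
    avk ψ s g x = ∫ y in closedBall (0 : Sp d) 1, ψ y • g (x + s • y) := by
  rw [avkA_def, setIntegral_eq_integral_of_forall_compl_eq_zero]
  intro y hy
  rw [hψ.supp, zero_smul]
  simp only [mem_closedBall, dist_zero_right, not_le] at hy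
  exact hy.le

lemma GK.avk_cont (hψ : GK ψ) (hg : Continuous g) (s : ℝ) : Continuous (avk ψ s g) := by
  have h2 : Continuous (Function.uncurry fun (x y : Sp d) => ψ y • g (x + s • y)) := by
    refine Continuous.smul (hψ.cont.comp continuous_snd) (hg.comp ?_)
    fun_prop
  have h3 := continuous_parametric_integral_of_continuous (μ := volume) h2
    (isCompact_closedBall (0 : Sp d) 1)
  refine h3.congr fun x => ?_
  exact (hψ.avk_eq_setIntegral s g x).symm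

lemma GK.avk_add (hψ : GK ψ) (hg : LB g) (hh : LB h) (s : ℝ) (x : Sp d) :
    avk ψ s (fun z => g z + h z) x = avk ψ s g x + avk ψ s h x := by
  simp only [avkA_def, smul_add]
  exact integral_add (hψ.avk_integrable' hg s x) (hψ.avk_integrable' hh s x)

lemma GK.avk_sub (hψ : GK ψ) (hg : LB g) (hh : LB h) (s : ℝ) (x : Sp d) :
    avk ψ s (fun z => g z - h z) x = avk ψ s g x - avk ψ s h x := by
  simp only [avkA_def, smul_sub]
  exact integral_sub (hψ.avk_integrable' hg s x) (hψ.avk_integrable' hh s x)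

lemma avk_smul (ψ : Sp d → ℝ) (c : ℝ) (g : Sp d → F) (s : ℝ) (x : Sp d) :
    avk ψ s (fun z => c • g z) x = c • avk ψ s g x := by
  simp only [avkA_def]
  rw [← integral_smul]
  congr 1
  ext y
  rw [smul_comm]

lemma avk_mul (ψ : Sp d → ℝ) (c : ℝ) (g : Sp d → ℝ) (s : ℝ) (x : Sp d) :
    avk ψ s (fun z => c * g z) x = c * avk ψ s g x := avk_smul ψ c g s x

lemma GK.avk_sum (hψ : GK ψ) {ι : Type*} (S : Finset ι) {G : ι → Sp d → F}
    (hG : ∀ i ∈ S, LB (G i)) (s : ℝ) (x : Sp d) :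
    avk ψ s (fun z => ∑ i ∈ S, G i z) x = ∑ i ∈ S, avk ψ s (G i) x := by
  simp only [avkA_def, Finset.smul_sum]
  exact integral_finsetSum S fun i hi => hψ.avk_integrable' (hG i hi) s x

lemma GK.avk_const [CompleteSpace F] (hψ : GK ψ) (c : F) (s : ℝ) (x : Sp d) :
    avk ψ s (fun _ => c) x = c := by
  rw [avkA_def, integral_smul_const, hψ.int, one_smul]

lemma GK.avk_nonneg (hψ : GK ψ) {g : Sp d → ℝ} (hg : ∀ z, 0 ≤ g z) (s : ℝ) (x : Sp d) :
    0 ≤ avk ψ s g x :=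
  integral_nonneg fun y => mul_nonneg (hψ.nonneg y) (hg _)

lemma GK.avk_mono (hψ : GK ψ) {g h : Sp d → ℝ} (hg : LB g) (hh : LB h)
    (hgh : ∀ z, g z ≤ h z) (s : ℝ) (x : Sp d) : avk ψ s g x ≤ avk ψ s h x :=
  integral_mono (hψ.avk_integrable' hg s x) (hψ.avk_integrable' hh s x)
    fun y => mul_le_mul_of_nonneg_left (hgh _) (hψ.nonneg y)

lemma GK.avk_le_of_le (hψ : GK ψ) {g : Sp d → ℝ} (hg : LB g) {M : ℝ} (hM : ∀ z, g z ≤ M)
    (s : ℝ) (x : Sp d) : avk ψ s g x ≤ M :=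
  (hψ.avk_mono hg (LB.of_cont continuous_const) hM s x).trans (hψ.avk_const M s x).le

lemma GK.norm_avk_le (hψ : GK ψ) (g : Sp d → F) (s : ℝ) (x : Sp d) :
    ‖avk ψ s g x‖ ≤ avk ψ s (fun z => ‖g z‖) x := by
  refine (norm_integral_le_integral_norm _).trans (le_of_eq ?_)
  rw [avkA_def]
  congr 1
  ext y
  rw [norm_smul, Real.norm_eq_abs, abs_of_nonneg (hψ.nonneg y), smul_eq_mul]

lemma GK.avk_inner (hψ : GK ψ) {E : Type*} [NormedAddCommGroup E] [InnerProductSpace ℝ E]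
    [CompleteSpace E] {g : Sp d → E} (hg : LB g) (e : E) (s : ℝ) (x : Sp d) :
    avk ψ s (fun z => ⟪g z, e⟫_ℝ) x = ⟪avk ψ s g x, e⟫_ℝ := by
  simp only [avkA_def]
  rw [real_inner_comm, ← integral_inner (hψ.avk_integrable' hg s x) e]
  congr 1
  ext y
  rw [inner_smul_right, real_inner_comm, smul_eq_mul]

lemma GK.prod_integrable (hψ : GK ψ) (hχ : GK χ) (hg : LB g) (s t : ℝ) (x : Sp d) :
    Integrable (Function.uncurry fun (y z : Sp d) => ψ y • χ z • g (x + s • y + t • z))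
      (volume.prod volume) := by
  obtain ⟨M, hM⟩ := hg.bd (‖x‖ + |s| + |t|)
  have hi : Integrable (fun p : Sp d × Sp d => ψ p.1 * χ p.2 * |M|)
      (volume.prod volume) := (hψ.integrable.mul_prod hχ.integrable).mul_const _
  refine hi.mono' ?_ ?_
  · refine StronglyMeasurable.aestronglyMeasurable ?_
    refine StronglyMeasurable.smul (f := fun p : Sp d × Sp d => ψ p.1) ?_ ?_
    · exact (hψ.cont.comp continuous_fst).stronglyMeasurable
    · refine StronglyMeasurable.smul (f := fun p : Sp d × Sp d => χ p.2) ?_ ?_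
      · exact (hχ.cont.comp continuous_snd).stronglyMeasurable
      · exact hg.meas.comp_measurable
          (show Measurable fun p : Sp d × Sp d => x + s • p.1 + t • p.2 by fun_prop)
  · refine Filter.Eventually.of_forall fun p => ?_
    obtain ⟨y, z⟩ := p
    simp only [Function.uncurry_apply_pair]
    rw [norm_smul, norm_smul, Real.norm_eq_abs, Real.norm_eq_abs, abs_of_nonneg (hψ.nonneg y),
      abs_of_nonneg (hχ.nonneg z), ← mul_assoc]
    by_cases hy : 1 ≤ ‖y‖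
    · simp [hψ.supp y hy]
    by_cases hz : 1 ≤ ‖z‖
    · simp [hχ.supp z hz]
    push Not at hy hz
    refine mul_le_mul_of_nonneg_left ((hM _ ?_).trans (le_abs_self M))
      (mul_nonneg (hψ.nonneg y) (hχ.nonneg z))
    refine (norm_add_le _ _).trans ?_
    have h1 : ‖x + s • y‖ ≤ ‖x‖ + |s| * ‖y‖ := (norm_add_le _ _).trans (by
      rw [norm_smul, Real.norm_eq_abs])
    have h2 : ‖t • z‖ = |t| * ‖z‖ := by rw [norm_smul, Real.norm_eq_abs]
    nlinarith only [h1, h2, hy, hz, abs_nonneg s, abs_nonneg t]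

/-- averages commute -/
lemma GK.avk_comm (hψ : GK ψ) (hχ : GK χ) (hg : LB g) (s t : ℝ) :
    avk ψ s (avk χ t g) = avk χ t (avk ψ s g) := by
  ext x
  simp only [avkA_def, ← integral_smul]
  rw [integral_integral_swap (hψ.prod_integrable hχ hg s t x)]
  congr 1
  ext z
  congr 1
  ext y
  rw [smul_comm, add_right_comm]

lemma GK.shear_integrable (hψ : GK ψ) (hg : Integrable g) (hg' : LB g) (s : ℝ) :
    Integrable (Function.uncurry fun (x y : Sp d) => ψ y • g (x + s • y))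
      (volume.prod volume) := by
  have hm : StronglyMeasurable (Function.uncurry fun (x y : Sp d) =>
      ψ y • g (x + s • y)) := by
    refine StronglyMeasurable.smul (f := fun p : Sp d × Sp d => ψ p.2) ?_ ?_
    · exact (hψ.cont.comp continuous_snd).stronglyMeasurable
    · exact hg'.meas.comp_measurable
        (show Measurable fun p : Sp d × Sp d => p.1 + s • p.2 by fun_prop)
  rw [integrable_prod_iff' hm.aestronglyMeasurable]
  constructor
  · refine Filter.Eventually.of_forall fun y => ?_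
    simp only [Function.uncurry_apply_pair]
    exact (hg.comp_add_right (s • y)).smul (ψ y)
  · simp only [Function.uncurry_apply_pair, norm_smul]
    have h3 : (fun y : Sp d => ∫ x, ‖ψ y‖ * ‖g (x + s • y)‖) =
        fun y => ‖ψ y‖ * ∫ x, ‖g x‖ := by
      ext y
      rw [integral_const_mul]
      congr 1
      exact integral_add_right_eq_self (μ := volume) (fun x => ‖g x‖) (s • y)
    rw [h3]
    exact hψ.integrable.norm.mul_const _

/-- averages preserve integrals -/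
lemma GK.avk_int [CompleteSpace F] (hψ : GK ψ) (hg : Integrable g) (hg' : LB g) (s : ℝ) :
    ∫ x, avk ψ s g x = ∫ x, g x := by
  simp only [avkA_def]
  rw [integral_integral_swap (hψ.shear_integrable hg hg' s)]
  simp only [integral_smul]
  have h3 : (fun y : Sp d => ψ y • ∫ x, g (x + s • y)) = fun y => ψ y • ∫ x, g x := by
    ext y
    congr 1
    exact integral_add_right_eq_self (μ := volume) g (s • y)
  rw [h3, integral_smul_const, hψ.int, one_smul]

lemma GK.avk_integrable (hψ : GK ψ) (hg : Integrable g) (hg' : LB g) (s : ℝ) :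
    Integrable (avk ψ s g) :=
  (hψ.shear_integrable hg hg' s).integral_prod_left

/-- averages are self adjoint -/
lemma GK.avk_adj_inner (hψ : GK ψ) {E : Type*} [NormedAddCommGroup E] [InnerProductSpace ℝ E]
    [CompleteSpace E] {g h : Sp d → E} (hg : LB g) (hh : LB h) (hi : HasCompactSupport h)
    (s : ℝ) : ∫ x, ⟪avk ψ s g x, h x⟫_ℝ = ∫ x, ⟪g x, avk ψ s h x⟫_ℝ := by
  obtain ⟨R, hR⟩ := hi.isCompact.isBounded.subset_closedBall (0 : Sp d)
  have hR' : ∀ z, h z ≠ 0 → ‖z‖ ≤ R := fun z hz => by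
    simpa using hR (subset_tsupport _ hz)
  obtain ⟨M, hM⟩ := hg.bd (R + |s|)
  have hhi : Integrable h := hh.integrable hi
  have hinner : Continuous (fun p : E × E => ⟪p.1, p.2⟫_ℝ) := by fun_prop
  have hb : ∀ (z y : Sp d), ‖y‖ < 1 → ‖s • y‖ ≤ |s| := by
    intro z y hy
    rw [norm_smul, Real.norm_eq_abs]
    nlinarith [abs_nonneg s, norm_nonneg y]
  -- first product integrability
  have hI1 : Integrable (Function.uncurry fun (x y : Sp d) => ψ y * ⟪g (x + s • y), h x⟫_ℝ)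
      (volume.prod volume) := by
    have hi0 : Integrable (fun p : Sp d × Sp d => ‖h p.1‖ * ψ p.2 * |M|)
        (volume.prod volume) := (hhi.norm.mul_prod hψ.integrable).mul_const _
    refine hi0.mono' ?_ ?_
    · refine StronglyMeasurable.aestronglyMeasurable ?_
      refine StronglyMeasurable.mul (f := fun p : Sp d × Sp d => ψ p.2) ?_ ?_
      · exact (hψ.cont.comp continuous_snd).stronglyMeasurable
      · refine hinner.comp_stronglyMeasurable (StronglyMeasurable.prodMk ?_ ?_)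
        · exact hg.meas.comp_measurable
            (show Measurable fun p : Sp d × Sp d => p.1 + s • p.2 by fun_prop)
        · exact hh.meas.comp_measurable measurable_fst
    · refine Filter.Eventually.of_forall fun p => ?_
      obtain ⟨x, y⟩ := p
      simp only [Function.uncurry_apply_pair]
      rw [norm_mul, Real.norm_eq_abs, abs_of_nonneg (hψ.nonneg y)]
      by_cases hy : 1 ≤ ‖y‖
      · simp [hψ.supp y hy]
      by_cases hx : h x = 0
      · simp [hx]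
      push Not at hy
      have h1 : ‖g (x + s • y)‖ ≤ |M| := by
        refine (hM _ ?_).trans (le_abs_self M)
        exact (norm_add_le _ _).trans (add_le_add (hR' x hx) (hb x y hy))
      have h2 : ‖⟪g (x + s • y), h x⟫_ℝ‖ ≤ |M| * ‖h x‖ :=
        (norm_inner_le_norm _ _).trans (mul_le_mul_of_nonneg_right h1 (norm_nonneg _))
      calc ψ y * ‖⟪g (x + s • y), h x⟫_ℝ‖ ≤ ψ y * (|M| * ‖h x‖) :=
            mul_le_mul_of_nonneg_left h2 (hψ.nonneg y)
        _ = ‖h x‖ * ψ y * |M| := by ring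
  -- second product integrability
  have hI2 : Integrable (Function.uncurry fun (x y : Sp d) => ψ y * ⟪g x, h (x + s • y)⟫_ℝ)
      (volume.prod volume) := by
    have hi0 : Integrable (fun p : Sp d × Sp d => (ψ p.2 • ‖h (p.1 + s • p.2)‖) * |M|)
        (volume.prod volume) := (hψ.shear_integrable hhi.norm hh.norm s).mul_const _
    refine hi0.mono' ?_ ?_
    · refine StronglyMeasurable.aestronglyMeasurable ?_
      refine StronglyMeasurable.mul (f := fun p : Sp d × Sp d => ψ p.2) ?_ ?_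
      · exact (hψ.cont.comp continuous_snd).stronglyMeasurable
      · refine hinner.comp_stronglyMeasurable (StronglyMeasurable.prodMk ?_ ?_)
        · exact hg.meas.comp_measurable measurable_fst
        · exact hh.meas.comp_measurable
            (show Measurable fun p : Sp d × Sp d => p.1 + s • p.2 by fun_prop)
    · refine Filter.Eventually.of_forall fun p => ?_
      obtain ⟨x, y⟩ := p
      simp only [Function.uncurry_apply_pair]
      rw [norm_mul, Real.norm_eq_abs, abs_of_nonneg (hψ.nonneg y)]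
      by_cases hy : 1 ≤ ‖y‖
      · simp [hψ.supp y hy]
      by_cases hx : h (x + s • y) = 0
      · simp [hx]
      push Not at hy
      have h1 : ‖g x‖ ≤ |M| := by
        refine (hM _ ?_).trans (le_abs_self M)
        have h3 : ‖x‖ ≤ ‖x + s • y‖ + ‖s • y‖ := by
          have := norm_sub_le (x + s • y) (s • y)
          rwa [add_sub_cancel_right] at this
        exact h3.trans (add_le_add (hR' _ hx) (hb x y hy))
      have h2 : ‖⟪g x, h (x + s • y)⟫_ℝ‖ ≤ |M| * ‖h (x + s • y)‖ :=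
        (norm_inner_le_norm _ _).trans (mul_le_mul_of_nonneg_right h1 (norm_nonneg _))
      calc ψ y * ‖⟪g x, h (x + s • y)⟫_ℝ‖ ≤ ψ y * (|M| * ‖h (x + s • y)‖) :=
            mul_le_mul_of_nonneg_left h2 (hψ.nonneg y)
        _ = ψ y • ‖h (x + s • y)‖ * |M| := by rw [smul_eq_mul]; ring
  have e1 : ∀ x, ⟪avk ψ s g x, h x⟫_ℝ = ∫ y, ψ y * ⟪g (x + s • y), h x⟫_ℝ := by
    intro x
    rw [← hψ.avk_inner hg (h x) s x, avkA_def]
    simp only [smul_eq_mul]
  have e2 : ∀ x, ⟪g x, avk ψ s h x⟫_ℝ = ∫ y, ψ y * ⟪g x, h (x + s • y)⟫_ℝ := by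
    intro x
    rw [real_inner_comm, ← hψ.avk_inner hh (g x) s x, avkA_def]
    simp only [smul_eq_mul]
    congr 1
    ext y
    rw [real_inner_comm]
  simp only [e1, e2]
  rw [integral_integral_swap hI1, integral_integral_swap hI2]
  have e3 : ∀ y : Sp d, ∫ x, ψ y * ⟪g (x + s • y), h x⟫_ℝ =
      ∫ x, ψ (-y) * ⟪g x, h (x + s • (-y))⟫_ℝ := by
    intro y
    rw [integral_const_mul, integral_const_mul, hψ.even]
    congr 1
    rw [← integral_add_right_eq_self (μ := volume) (fun x => ⟪g (x + s • y), h x⟫_ℝ) (-(s • y))]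
    congr 1
    ext x
    rw [smul_neg, neg_add_cancel_right]
  simp only [e3]
  exact integral_neg_eq_self (fun y : Sp d => ∫ x, ψ y * ⟪g x, h (x + s • y)⟫_ℝ) volume

lemma GK.avk_adj (hψ : GK ψ) {g h : Sp d → ℝ} (hg : LB g) (hh : LB h)
    (hi : HasCompactSupport h) (s : ℝ) :
    ∫ x, avk ψ s g x * h x = ∫ x, g x * avk ψ s h x := by
  have := hψ.avk_adj_inner hg hh hi s
  simp only [RCLike.inner_apply, conj_trivial] at this
  simpa only [mul_comm] using this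

end Gen

/-! ## the kernels of the chain -/

lemma IsProf.gk {J : ℕ} {M : ℝ} {β : Sp d → ℝ} (h : IsProf J M β) : GK β where
  cont := h.smooth.continuous
  nonneg := h.nonneg
  supp := h.supp
  even := fun y => le_antisymm (h.mono y (-y) (by simp)) (h.mono (-y) y (by simp))
  int := h.int

lemma BaseKer.gk {J : ℕ} {M c : ℝ} {b : Sp d → ℝ} (h : BaseKer J M c b) : GK b :=
  (h.kit 0).prof.gk

lemma BaseKer.gkN {J : ℕ} {M c : ℝ} {b : Sp d → ℝ} (h : BaseKer J M c b) (n : ℕ) :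
    GK (KN b n) := (h.kit n).prof.gk

section Chain

variable {F : Type*} [NormedAddCommGroup F] [NormedSpace ℝ F] [CompleteSpace F] {g : Sp d → F}
  {J : ℕ} {M c : ℝ} {b : Sp d → ℝ}

/-- the average with the kernel KN b (n+1) -/
lemma BaseKer.avk_KN_succ (hb : BaseKer J M c b) (n : ℕ) (hg : LB g) (s : ℝ) :
    avk (KN b (n + 1)) s g = avk b s (avk (KN b n) (s / 2) g) := by
  have hK := hb.gkN n
  have hB := hb.gk
  ext x
  have e1 : avk (KN b (n + 1)) s g x =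
      ∫ z, ∫ y, (b y * (2 ^ d * KN b n ((2 : ℝ) • (z - y)))) • g (x + s • z) := by
    rw [avkA_def]
    congr 1
    ext z
    rw [integral_smul_const]
    rfl
  have hi : Integrable (Function.uncurry fun (z y : Sp d) =>
      (b y * (2 ^ d * KN b n ((2 : ℝ) • (z - y)))) • g (x + s • z)) (volume.prod volume) := by
    obtain ⟨M', hM'⟩ := hg.bd (‖x‖ + |s|)
    have hk : Continuous fun p : Sp d × Sp d =>
        b p.2 * (2 ^ d * KN b n ((2 : ℝ) • (p.1 - p.2))) := by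
      refine (hB.cont.comp continuous_snd).mul (continuous_const.mul (hK.cont.comp ?_))
      fun_prop
    have hz : ∀ p : Sp d × Sp d, b p.2 * (2 ^ d * KN b n ((2 : ℝ) • (p.1 - p.2))) ≠ 0 →
        ‖p.1‖ ≤ 1 ∧ ‖p.2‖ ≤ 1 := by
      intro p hp
      have h1 : ‖p.2‖ < 1 / 2 := by
        by_contra h
        push Not at h
        exact hp (by rw [hb.supp _ h, zero_mul])
      have h2 : ‖(2 : ℝ) • (p.1 - p.2)‖ < 1 := by
        by_contra h
        push Not at h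
        exact hp (by rw [hK.supp _ h, mul_zero, mul_zero])
      rw [norm_smul, Real.norm_eq_abs, abs_of_pos (by norm_num : (0 : ℝ) < 2)] at h2
      have h3 : ‖p.1‖ ≤ ‖p.1 - p.2‖ + ‖p.2‖ := by
        have := norm_add_le (p.1 - p.2) p.2
        rwa [sub_add_cancel] at this
      constructor <;> linarith
    have hcs : HasCompactSupport fun p : Sp d × Sp d =>
        b p.2 * (2 ^ d * KN b n ((2 : ℝ) • (p.1 - p.2))) := by
      refine HasCompactSupport.of_support_subset_isCompact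
        ((isCompact_closedBall (0 : Sp d) 1).prod (isCompact_closedBall (0 : Sp d) 1)) ?_
      intro p hp
      have := hz p hp
      exact ⟨by simpa using this.1, by simpa using this.2⟩
    have hki := (hk.integrable_of_hasCompactSupport (μ := volume.prod volume) hcs).mul_const |M'|
    refine hki.mono' ?_ ?_
    · refine StronglyMeasurable.aestronglyMeasurable ?_
      refine StronglyMeasurable.smul (f := fun p : Sp d × Sp d =>
        b p.2 * (2 ^ d * KN b n ((2 : ℝ) • (p.1 - p.2)))) ?_ ?_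
      · exact hk.stronglyMeasurable
      · exact hg.meas.comp_measurable
          (show Measurable fun p : Sp d × Sp d => x + s • p.1 by fun_prop)
    · refine Filter.Eventually.of_forall fun p => ?_
      obtain ⟨z, y⟩ := p
      simp only [Function.uncurry_apply_pair]
      have h0 : 0 ≤ b y * (2 ^ d * KN b n ((2 : ℝ) • (z - y))) :=
        mul_nonneg (hB.nonneg _) (mul_nonneg (by positivity) (hK.nonneg _))
      rw [norm_smul, Real.norm_eq_abs, abs_of_nonneg h0]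
      by_cases h00 : b y * (2 ^ d * KN b n ((2 : ℝ) • (z - y))) = 0
      · rw [h00, zero_mul, zero_mul]
      refine mul_le_mul_of_nonneg_left ((hM' _ ?_).trans (le_abs_self M')) h0
      refine (norm_add_le _ _).trans ?_
      have h1 := (hz (z, y) h00).1
      simp only at h1
      rw [norm_smul, Real.norm_eq_abs]
      nlinarith [abs_nonneg s, norm_nonneg z]
  rw [e1, integral_integral_swap hi, avkA_def]
  congr 1
  ext y
  have e2 : (fun z : Sp d => (b y * (2 ^ d * KN b n ((2 : ℝ) • (z - y)))) • g (x + s • z)) =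
      fun z => b y • ((2 ^ d : ℝ) • (KN b n ((2 : ℝ) • (z - y)) • g (x + s • z))) := by
    ext z
    rw [smul_smul, smul_smul, mul_assoc]
  rw [e2, integral_smul, integral_smul]
  congr 1
  have e3 : ∫ z : Sp d, KN b n ((2 : ℝ) • (z - y)) • g (x + s • z) =
      ∫ z : Sp d, KN b n ((2 : ℝ) • z) • g (x + s • y + (s / 2) • ((2 : ℝ) • z)) := by
    rw [← integral_add_right_eq_self (μ := volume)
      (fun z : Sp d => KN b n ((2 : ℝ) • (z - y)) • g (x + s • z)) y]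
    congr 1
    ext z
    rw [add_sub_cancel_right, smul_smul, div_mul_cancel₀ s (two_ne_zero), smul_add,
      add_comm (s • z) (s • y), add_assoc]
  rw [e3, Measure.integral_comp_smul (μ := (volume : Measure (Sp d)))
    (fun w : Sp d => KN b n w • g (x + s • y + (s / 2) • w)) (2 : ℝ), finrank_euclideanSpace_fin,
    smul_smul, avkA_def]
  rw [abs_of_nonneg (by positivity), mul_inv_cancel₀ (by positivity), one_smul]

lemma BaseKer.avk_KN_comm (hb : BaseKer J M c b) (n : ℕ) (hg : LB g) (s t : ℝ) :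
    avk (KN b n) s (avk b t g) = avk b t (avk (KN b n) s g) :=
  (hb.gkN n).avk_comm hb.gk hg s t

/-- KN b (n+1) is a small perturbation of KN b n -/
lemma BaseKer.avk_KN_succ' (hb : BaseKer J M c b) (n : ℕ) (hg : LB g) (s : ℝ) :
    avk (KN b (n + 1)) s g = avk (KN b n) s (avk b (s / 2 ^ (n + 1)) g) := by
  induction n generalizing s g with
  | zero =>
    rw [hb.avk_KN_succ 0 hg s]
    simp only [KN]
    norm_num
  | succ n ih =>
    rw [hb.avk_KN_succ (n + 1) hg s, ih hg (s / 2),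
      hb.avk_KN_succ n (hb.gk.LBavk hg _) s]
    have : s / 2 / 2 ^ (n + 1) = s / 2 ^ (n + 1 + 1) := by
      rw [div_div, ← pow_succ']
    rw [this]

lemma LB_fl (hb : BaseKer J M c b) (ε s0 : ℝ) (hg : LB g) (i : ℕ) : LB (fl b ε s0 g i) := by
  induction i with
  | zero => exact hg
  | succ i ih => exact hb.gk.LBavk ih _

lemma flA_cont (hb : BaseKer J M c b) (ε s0 : ℝ) (hg : Continuous g) (i : ℕ) :
    Continuous (fl b ε s0 g i) := by
  induction i with
  | zero => exact hg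
  | succ i ih => exact hb.gk.avk_cont ih _

lemma flA_cs (hb : BaseKer J M c b) (ε s0 : ℝ) (hg : HasCompactSupport g) (i : ℕ) :
    HasCompactSupport (fl b ε s0 g i) := by
  induction i with
  | zero => exact hg
  | succ i ih => exact hb.gk.avk_cs ih _

lemma levA_succ (s0 : ℝ) (i : ℕ) : lev s0 (i + 1) = 2 * lev s0 i := by
  unfold lev; ring

lemma levA_pos {s0 : ℝ} (h : 0 < s0) (i : ℕ) : 0 < lev s0 i := by
  unfold lev; positivity

/-- the chain in terms of the kernels KN b n -/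
lemma flA_eq (hb : BaseKer J M c b) (ε s0 : ℝ) (hg : LB g) (i : ℕ) :
    fl b ε s0 g (i + 1) = avk (KN b i) (ε * lev s0 (i + 1)) g := by
  induction i with
  | zero => rfl
  | succ i ih =>
    have : fl b ε s0 g (i + 1 + 1) = avk b (ε * lev s0 (i + 1 + 1)) (fl b ε s0 g (i + 1)) := rfl
    rw [this, ih, hb.avk_KN_succ i hg]
    congr 2
    rw [levA_succ s0 (i + 1)]; ring

end Chain

end

end TG


end

section

/-!
# Module CG: existence of minimising directions and planes (by helper85)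
-/

open MeasureTheory Metric Set TrI
open scoped InnerProductSpace ContDiff ENNReal

namespace TG

noncomputable section

variable {d : ℕ}

section A

variable {E : Type} [NormedAddCommGroup E] [InnerProductSpace ℝ E] [FiniteDimensional ℝ E]
  {b : Sp d → ℝ} {M c0 : ℝ}

/-- the defect is an affine function of the direction -/
lemma cg_affine (hb : BaseKer 2 M c0 b) (ε R s0 : ℝ) {f : Sp d → E} (hf : Continuous f)
    (hfc : HasCompactSupport f) (i : ℕ) (x : Sp d) :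
    ∃ (A : ℝ) (w : E), ∀ e : E, DD b ε R s0 f i x e = A - ⟪w, e⟫_ℝ := by
  set B := ball x (R * lev s0 i) with hB
  have hi : ∀ l, Integrable (fl b ε s0 f l) := fun l =>
    (flA_cont hb ε s0 hf l).integrable_of_hasCompactSupport (flA_cs hb ε s0 hfc l)
  have h1 : ∀ (l : ℕ) (e : E), ∫ y in B, (‖fl b ε s0 f l y‖ - ⟪fl b ε s0 f l y, e⟫_ℝ) =
      (∫ y in B, ‖fl b ε s0 f l y‖) - ⟪∫ y in B, fl b ε s0 f l y, e⟫_ℝ := by
    intro l e
    rw [integral_sub (hi l).norm.integrableOn ((hi l).inner_const e).integrableOn]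
    congr 1
    have h2 := integral_inner (𝕜 := ℝ) ((hi l).integrableOn (s := B)) e
    rw [real_inner_comm, ← h2]
    exact integral_congr_ae (Filter.Eventually.of_forall fun y => real_inner_comm _ _)
  refine ⟨lev s0 i / lev s0 i ^ d * (∑ l ∈ Finset.range (i + 1), (1 / 4 : ℝ) ^ (i - l) *
      (∫ y in B, ‖fl b ε s0 f l y‖) + (1 / 4 : ℝ) ^ i * ∫ y in B, ‖f y‖),
    (lev s0 i / lev s0 i ^ d) • ∑ l ∈ Finset.range (i + 1), (1 / 4 : ℝ) ^ (i - l) •
      ∫ y in B, fl b ε s0 f l y, fun e => ?_⟩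
  unfold DD
  simp only [← hB, h1]
  rw [real_inner_smul_left, sum_inner, ← mul_sub]
  congr 1
  have h3 : ∑ l ∈ Finset.range (i + 1), (1 / 4 : ℝ) ^ (i - l) *
      ((∫ y in B, ‖fl b ε s0 f l y‖) - ⟪∫ y in B, fl b ε s0 f l y, e⟫_ℝ) =
      ∑ l ∈ Finset.range (i + 1), (1 / 4 : ℝ) ^ (i - l) * (∫ y in B, ‖fl b ε s0 f l y‖) -
      ∑ l ∈ Finset.range (i + 1), ⟪(1 / 4 : ℝ) ^ (i - l) • ∫ y in B, fl b ε s0 f l y, e⟫_ℝ := by
    rw [← Finset.sum_sub_distrib]
    refine Finset.sum_congr rfl fun l _ => ?_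
    rw [real_inner_smul_left]
    ring
  rw [h3]
  ring

omit [FiniteDimensional ℝ E] in
/-- the plane functional is continuous -/
lemma cg_cont (R0 s0 : ℝ) {f : Sp d → E} (hf : Continuous f) (hfc : HasCompactSupport f)
    (i : ℕ) (x : Sp d) (e : E) :
    Continuous (fun p : Sp d × ℝ => bb R0 s0 f i x e p.1 p.2) := by
  unfold bb
  refine continuous_const.mul ?_
  have h1 : ∀ p : Sp d × ℝ, (∫ y, ⟪f y, e⟫_ℝ *
      (zR R0 ((1 / lev s0 i) • (y - x)) * (ht p.1 p.2 y / lev s0 i) ^ 2)) =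
      ∫ y in tsupport f, ⟪f y, e⟫_ℝ *
      (zR R0 ((1 / lev s0 i) • (y - x)) * (ht p.1 p.2 y / lev s0 i) ^ 2) := by
    intro p
    refine (setIntegral_eq_integral_of_forall_compl_eq_zero fun y hy => ?_).symm
    rw [image_eq_zero_of_notMem_tsupport hy, inner_zero_left, zero_mul]
  simp only [h1]
  refine continuous_parametric_integral_of_continuous ?_ hfc
  have hz : Continuous (zR (d := d) R0) := by
    unfold zR
    exact Real.smoothTransition.continuous.comp (continuous_const.sub continuous_norm)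
  have c0 : Continuous (fun q : (Sp d × ℝ) × Sp d => ⟪f q.2, e⟫_ℝ) :=
    (hf.comp continuous_snd).inner continuous_const
  have c1 : Continuous (fun q : (Sp d × ℝ) × Sp d => (1 / lev s0 i) • (q.2 - x)) := by fun_prop
  have c2 : Continuous (fun q : (Sp d × ℝ) × Sp d => zR R0 ((1 / lev s0 i) • (q.2 - x))) :=
    hz.comp c1
  have c3 : Continuous (fun q : (Sp d × ℝ) × Sp d => ht q.1.1 q.1.2 q.2 / lev s0 i) := by
    unfold ht
    fun_prop
  have h2 : Continuous (fun q : (Sp d × ℝ) × Sp d => ⟪f q.2, e⟫_ℝ *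
      (zR R0 ((1 / lev s0 i) • (q.2 - x)) * (ht q.1.1 q.1.2 q.2 / lev s0 i) ^ 2)) :=
    c0.mul (c2.mul (c3.pow 2))
  exact h2

end A

/-- the admissible planes form a compact set -/
lemma cg_compact (x : Sp d) (r : ℝ) :
    IsCompact {p : Sp d × ℝ | ‖p.1‖ = 1 ∧ |ht p.1 p.2 x| ≤ r} := by
  have hclosed : IsClosed {p : Sp d × ℝ | ‖p.1‖ = 1 ∧ |ht p.1 p.2 x| ≤ r} := by
    have c1 : Continuous (fun p : Sp d × ℝ => ‖p.1‖) := by fun_prop
    have c2 : Continuous (fun p : Sp d × ℝ => |ht p.1 p.2 x|) := by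
      unfold ht
      fun_prop
    exact (isClosed_eq c1 continuous_const).inter (isClosed_le c2 continuous_const)
  refine IsCompact.of_isClosed_subset
    ((isCompact_sphere (0 : Sp d) 1).prod (isCompact_Icc (a := -(‖x‖ + r)) (b := ‖x‖ + r)))
    hclosed ?_
  rintro ⟨ν, c⟩ ⟨h1, h2⟩
  simp only at h1 h2
  have h3 := abs_real_inner_le_norm ν x
  rw [h1, one_mul] at h3
  unfold ht at h2
  have h4 := abs_le.mp h2
  have h5 := abs_le.mp h3
  refine ⟨by simpa using h1, ?_, ?_⟩ <;> simp only <;> linarith [h4.1, h4.2, h5.1, h5.2]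

theorem stmtCG : StmtCG := by
  intro d hd M c0 ε _ _ b hb E _ _ _ _ f hf hfc R s0 _ hs0
  refine ⟨?_, ?_⟩
  · have key : ∀ Q : Cell d, ∃ e : E, ‖e‖ = 1 ∧ ∀ e' : E, ‖e'‖ = 1 →
        DD b ε R s0 f Q.1 (xC s0 Q) e ≤ DD b ε R s0 f Q.1 (xC s0 Q) e' := by
      intro Q
      obtain ⟨A, w, hAw⟩ := cg_affine hb ε R s0 hf hfc Q.1 (xC s0 Q)
      obtain ⟨e0, he0⟩ := exists_norm_eq E (zero_le_one (α := ℝ))
      obtain ⟨e, he, hmin⟩ := (isCompact_sphere (0 : E) 1).exists_isMinOn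
        ⟨e0, by simpa using he0⟩ (f := fun e => A - ⟪w, e⟫_ℝ)
        (continuous_const.sub (continuous_const.inner continuous_id)).continuousOn
      refine ⟨e, by simpa using he, fun e' he' => ?_⟩
      rw [hAw, hAw]
      exact hmin (by simpa using he')
    choose e he1 he2 using key
    exact ⟨e, ⟨he1, fun Q e' he' => he2 Q e' he'⟩⟩
  · intro e R0 hR0 _
    have key : ∀ Q : Cell d, ∃ p : Sp d × ℝ, (‖p.1‖ = 1 ∧
        |ht p.1 p.2 (xC s0 Q)| ≤ (R0 + 1) * lev s0 Q.1) ∧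
        ∀ p' : Sp d × ℝ, (‖p'.1‖ = 1 ∧ |ht p'.1 p'.2 (xC s0 Q)| ≤ (R0 + 1) * lev s0 Q.1) →
          bb R0 s0 f Q.1 (xC s0 Q) (e Q) p.1 p.2 ≤ bb R0 s0 f Q.1 (xC s0 Q) (e Q) p'.1 p'.2 := by
      intro Q
      have ht0 := levA_pos hs0 Q.1
      have : Nonempty (Fin d) := ⟨⟨0, by omega⟩⟩
      obtain ⟨ν0, hν0⟩ := exists_norm_eq (Sp d) (zero_le_one (α := ℝ))
      obtain ⟨p, hp, hmin⟩ := (cg_compact (xC s0 Q) ((R0 + 1) * lev s0 Q.1)).exists_isMinOn
        ⟨(ν0, ⟪ν0, xC s0 Q⟫_ℝ), hν0, by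
          unfold ht
          simp only [sub_self, abs_zero]
          positivity⟩
        (cg_cont R0 s0 hf hfc Q.1 (xC s0 Q) (e Q)).continuousOn
      exact ⟨p, hp, fun p' hp' => hmin hp'⟩
    choose p hp1 hp2 using key
    exact ⟨fun Q => (p Q).1, fun Q => (p Q).2, ⟨fun Q => (hp1 Q).1, fun Q => (hp1 Q).2,
      fun Q ν' c' h1 h2 => hp2 Q (ν', c') ⟨h1, h2⟩⟩⟩

end

end TG


end

section

/-!
# Trace inequality, general operators: module FS (one plane and its sheet)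
-/

open MeasureTheory Metric Set TrI
open scoped InnerProductSpace ContDiff

namespace TG

noncomputable section

variable {d : ℕ}

section FSaux

variable {E : Type} [NormedAddCommGroup E] [InnerProductSpace ℝ E]

lemma FS_DD_nonneg (b : Sp d → ℝ) (ε R : ℝ) {s0 : ℝ} (hs : 0 < s0) (f : Sp d → E) (i : ℕ) (x : Sp d)
    {e : E} (he : ‖e‖ = 1) : 0 ≤ DD b ε R s0 f i x e := by
  unfold DD
  have h0 : 0 < lev s0 i := by unfold lev; positivity
  have hd : ∀ v : E, 0 ≤ ‖v‖ - ⟪v, e⟫_ℝ := by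
    intro v
    have h1 := real_inner_le_norm v e
    rw [he, mul_one] at h1
    linarith
  refine mul_nonneg (by positivity) (add_nonneg (Finset.sum_nonneg fun l _ => ?_) ?_)
  · exact mul_nonneg (by positivity) (integral_nonneg fun y => hd _)
  · exact mul_nonneg (by positivity) (integral_nonneg fun y => norm_nonneg _)

lemma FS_wq_le {q q' : ℝ} (h : q ≤ q') (r : ℕ) : wq q' r ≤ wq q r := by
  unfold wq
  apply Real.rpow_le_rpow_of_exponent_le (by norm_num)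
  have hr : (0 : ℝ) ≤ r := Nat.cast_nonneg r
  nlinarith

lemma FS_sheet_mono {J : ℕ} {R ab ep ep' D D' : ℝ} {m : Sp d → ℝ} {n : Sp d} {s : ℝ}
    (h : Sheet J R ab ep D m n s) (hep : ep ≤ ep') (hD : D ≤ D') : Sheet J R ab ep' D' m n s where
  n1 := h.n1
  ab0 := h.ab0
  ep0 := h.ep0.trans hep
  loc := h.loc
  est := by
    intro ζ ρ N N2 h1 h2 h3 h4 h5 h6
    have hN : 0 ≤ N := by
      have := (h5 0 (Nat.zero_le _) (fun _ => 0) (fun i => by simp) (fun i => by simp) (s • n)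
        (by rw [inner_smul_right, real_inner_self_eq_norm_sq, h.n1]; ring)).1
      exact (abs_nonneg _).trans this
    have hN2 : 0 ≤ N2 := (norm_nonneg _).trans (h6 0)
    have h7 := h.est ζ ρ N N2 h1 h2 h3 h4 h5 h6
    have h8 : ep * N ≤ ep' * N := mul_le_mul_of_nonneg_right hep hN
    have h9 : (N + N2) * D ≤ (N + N2) * D' := mul_le_mul_of_nonneg_left hD (by positivity)
    linarith

end FSaux

theorem stmtFS (h : StmtCM) (h1 : StmtSS) : StmtFS := by
  intro d V E _ _ _ _ _ _ L hd hL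
  obtain ⟨J, HJ⟩ := h1 d V E L hd hL
  refine ⟨J, ?_⟩
  intro M c0 ε hε hε1 b hb R0 γ K hR0 hγ hγ1 hK
  obtain ⟨C1, hC1, H1⟩ := h d V E L hd hL M c0 ε hε hε1 b hb R0 γ K hR0 hγ hγ1 hK
  have hd0 : (0 : ℝ) < d := by
    have : 0 < d := by omega
    exact_mod_cast this
  have hγ2 : γ ≤ 1 / (8 * d) :=
    hγ1.trans (one_div_le_one_div_of_le (by positivity) (by nlinarith))
  obtain ⟨C2, κ2, hC2, hκ2, H2⟩ := HJ M c0 ε hε hε1 b hb R0 γ K hR0 hγ hγ2 hK
  refine ⟨(C2 + 1) * (C1 + 1), min (κ2 / C1) (1 / (C1 * C2)), by positivity,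
    lt_min (by positivity) (by positivity), ?_⟩
  intro R hR n u hu x e hT a ha haeq hgr νs cs B D hν hht hB hsum hD
  obtain ⟨ν, c, hν1, hc, hs⟩ := H1 R hR n u hu x e hT a ha haeq hgr νs cs B hν hht hsum
  have hB0 : 0 ≤ B := by simpa using hsum 0
  have hD0 : 0 ≤ D := by simpa using hD 0
  have hD2 : ∀ I : ℕ, ∑ r ∈ Finset.range I, wq (1 / 2) r *
      DD b ε R ((1 / 2) ^ n) (fo L u) (n + r) (x r) (e r) ≤ D := by
    intro I
    refine (Finset.sum_le_sum fun r _ => ?_).trans (hD I)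
    exact mul_le_mul_of_nonneg_right (FS_wq_le (by norm_num) r)
      (FS_DD_nonneg b ε R (by positivity) _ _ _ (hT.unit r))
  have hB1 : C1 * B ≤ κ2 * a := by
    have h2 : B ≤ κ2 / C1 * a := hB.trans (mul_le_mul_of_nonneg_right (min_le_left _ _) ha.le)
    calc C1 * B ≤ C1 * (κ2 / C1 * a) := mul_le_mul_of_nonneg_left h2 hC1.le
      _ = κ2 * a := by field_simp
  have hB2 : C2 * (C1 * B) ≤ a := by
    have h2 : B ≤ 1 / (C1 * C2) * a := hB.trans (mul_le_mul_of_nonneg_right (min_le_right _ _) ha.le)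
    calc C2 * (C1 * B) ≤ C2 * (C1 * (1 / (C1 * C2) * a)) :=
          mul_le_mul_of_nonneg_left (mul_le_mul_of_nonneg_left h2 hC1.le) hC2.le
      _ = a := by field_simp
  obtain ⟨ν', c', a', hν', hdist, ha1, ha2, hs', hSh⟩ :=
    H2 R hR n u hu x e hT a ha haeq hgr ν c (C1 * B) D hν1 hc hB1 hs hD2
  have ha' : 0 < a' := hSh.ab0
  have hCC : C2 ≤ (C2 + 1) * (C1 + 1) := by nlinarith only [hC1, hC2]
  have hCC1 : C2 * C1 ≤ (C2 + 1) * (C1 + 1) := by linarith only [hC1, hC2]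
  refine ⟨ν', c', a', hν', ?_, ?_, ?_, ?_, ?_⟩
  · have h3 : (c' - c) ^ 2 ≤ 1 := by
      have h4 : a * (c' - c) ^ 2 ≤ a * 1 := by
        have : 0 ≤ a * ‖ν' - ν‖ ^ 2 := by positivity
        linarith only [hB2, hdist, this]
      exact le_of_mul_le_mul_left h4 ha
    have h5 : |c' - c| ≤ 1 := by
      rw [← sq_abs] at h3
      nlinarith only [h3]
    calc |c'| = |c + (c' - c)| := by ring_nf
      _ ≤ |c| + |c' - c| := abs_add_le _ _
      _ ≤ R0 + 4 := by linarith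
  · exact ha1.trans (mul_le_mul_of_nonneg_right hCC ha'.le)
  · exact ha2.trans (mul_le_mul_of_nonneg_right hCC ha.le)
  · intro I
    refine (hs' I).trans ?_
    rw [← mul_assoc]
    exact mul_le_mul_of_nonneg_right hCC1 hB0
  · refine FS_sheet_mono hSh ?_ (mul_le_mul_of_nonneg_right hCC hD0)
    have hq : 0 ≤ Real.sqrt (a' * D) := Real.sqrt_nonneg _
    have e1 : C2 * (C1 * B) ≤ (C2 + 1) * (C1 + 1) * B := by
      rw [← mul_assoc]; exact mul_le_mul_of_nonneg_right hCC1 hB0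
    have e2 : C2 * Real.sqrt (a' * D) ≤ (C2 + 1) * (C1 + 1) * Real.sqrt (a' * D) :=
      mul_le_mul_of_nonneg_right hCC hq
    calc C2 * (C1 * B + Real.sqrt (a' * D)) = C2 * (C1 * B) + C2 * Real.sqrt (a' * D) := by ring
      _ ≤ (C2 + 1) * (C1 + 1) * B + (C2 + 1) * (C1 + 1) * Real.sqrt (a' * D) := add_le_add e1 e2
      _ = (C2 + 1) * (C1 + 1) * (B + Real.sqrt (a' * D)) := by ring

end

end TG


end
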