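import Mathlib
import Pool.Agent.TRM.C02
import Pool.Agent.TRM.C11
import Pool.Agent.TRM.C13

/-! Parts: TG.GE, TG.TreeAS, TG.SA1, TG.SA2, TG.SA3, TG.SA4, TG.SA5, TG.SA6 -/

section

set_option autoImplicit false
set_option linter.unusedSectionVars false

/-!
# MODULE GE: two weighted planes which are close as distributions are close
-/

open MeasureTheory Metric Set TrI Filter
open scoped InnerProductSpace ContDiff Topology

namespace TG

noncomputable section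

namespace GE

variable {n : ℕ}

/-- parametrisation of the hyperplanes with normal ν -/
lemma param (ν : Sp (n + 1)) (hν : ‖ν‖ = 1) : ∃ i : Sp n →ₗᵢ[ℝ] Sp (n + 1),
    (∀ v, ⟪ν, i v⟫_ℝ = 0) ∧ (∀ w, ⟪ν, w⟫_ℝ = 0 → ∃ v, i v = w) ∧
    ∀ (q : Sp (n + 1)) (ζ : Sp (n + 1) → ℝ), plInt ν ⟪ν, q⟫_ℝ ζ = ∫ v, ζ (q + i v) := by
  have hν0 : ν ≠ 0 := by
    intro h
    rw [h, norm_zero] at hν
    exact zero_ne_one hν
  have : Fact (Module.finrank ℝ (Sp (n + 1)) = n + 1) := ⟨by simp⟩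
  set e := (OrthonormalBasis.fromOrthogonalSpanSingleton (𝕜 := ℝ) n hν0) with he
  set i : Sp n →ₗᵢ[ℝ] Sp (n + 1) :=
    (Submodule.span ℝ {ν})ᗮ.subtypeₗᵢ.comp e.repr.symm.toLinearIsometry with hi
  have hval : ∀ v, i v = ((e.repr.symm v : (Submodule.span ℝ {ν})ᗮ) : Sp (n + 1)) := fun v => rfl
  refine ⟨i, ?_, ?_, ?_⟩
  · intro v
    rw [hval]
    exact Submodule.mem_orthogonal_singleton_iff_inner_right.mp (e.repr.symm v).2
  · intro w hw
    refine ⟨e.repr ⟨w, Submodule.mem_orthogonal_singleton_iff_inner_right.mpr hw⟩, ?_⟩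
    rw [hval, LinearIsometryEquiv.symm_apply_apply]
  · intro q ζ
    have hq0 : q - ⟪ν, q⟫_ℝ • ν ∈ (Submodule.span ℝ {ν})ᗮ := by
      rw [Submodule.mem_orthogonal_singleton_iff_inner_right, inner_sub_right,
        real_inner_smul_right, real_inner_self_eq_norm_sq, hν]
      ring
    set w0 : (Submodule.span ℝ {ν})ᗮ := ⟨q - ⟪ν, q⟫_ℝ • ν, hq0⟩ with hw0
    unfold plInt
    have h1 := integral_add_left_eq_self (μ := (volume : Measure ((Submodule.span ℝ {ν})ᗮ)))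
      (fun y => ζ (⟪ν, q⟫_ℝ • ν + (y : Sp (n + 1)))) w0
    rw [← h1]
    have h2 := e.measurePreserving_repr_symm.integral_comp
      e.repr.symm.toHomeomorph.measurableEmbedding
      (fun y : (Submodule.span ℝ {ν})ᗮ => ζ (⟪ν, q⟫_ℝ • ν + ((w0 + y : (Submodule.span ℝ {ν})ᗮ) : Sp (n + 1))))
    rw [← h2]
    congr 1
    ext v
    congr 1
    rw [hval, hw0, Submodule.coe_add, ← add_assoc, add_sub_cancel]

/-! ## test functions -/

section test

variable {m : ℕ}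

lemma TFn.add' {J : ℕ} {N N' : ℝ} {f g : Sp m → ℝ} (hf : TFn J N f) (hg : TFn J N' g) :
    TFn J (N + N') (fun y => f y + g y) := by
  refine ⟨hf.smooth.add hg.smooth, fun j hj x => ?_⟩
  have h1 : (fun y => f y + g y) = f + g := rfl
  have hf1 : ContDiff ℝ j f := hf.smooth.of_le (by exact_mod_cast hj)
  have hg1 : ContDiff ℝ j g := hg.smooth.of_le (by exact_mod_cast hj)
  rw [h1, iteratedFDeriv_add_apply hf1.contDiffAt hg1.contDiffAt]
  exact (norm_add_le _ _).trans (add_le_add (hf.bd j hj x) (hg.bd j hj x))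

lemma TFn.smul' {J : ℕ} {N : ℝ} {f : Sp m → ℝ} (hf : TFn J N f) (c : ℝ) :
    TFn J (|c| * N) (fun y => c * f y) := by
  refine ⟨contDiff_const.mul hf.smooth, fun j hj x => ?_⟩
  have h1 : (fun y => c * f y) = c • f := rfl
  have hf1 : ContDiff ℝ j f := hf.smooth.of_le (by exact_mod_cast hj)
  rw [h1, iteratedFDeriv_const_smul_apply hf1.contDiffAt, norm_smul, Real.norm_eq_abs]
  exact mul_le_mul_of_nonneg_left (hf.bd j hj x) (abs_nonneg c)

lemma TFn.mono' {J : ℕ} {N N' : ℝ} {f : Sp m → ℝ} (hf : TFn J N f) (h : N ≤ N') : TFn J N' f :=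
  ⟨hf.smooth, fun j hj x => (hf.bd j hj x).trans h⟩

lemma TFn.zero' (J : ℕ) : TFn J 0 (fun _ : Sp m => (0 : ℝ)) := by
  refine ⟨contDiff_const, fun j _ x => ?_⟩
  have h1 : (fun _ : Sp m => (0 : ℝ)) = 0 := rfl
  rw [h1, iteratedFDeriv_zero]
  simp

lemma TFn.sum' {ι : Type*} (S : Finset ι) {J : ℕ} {N : ι → ℝ} {f : ι → Sp m → ℝ}
    (hf : ∀ k ∈ S, TFn J (N k) (f k)) :
    TFn J (∑ k ∈ S, N k) (fun y => ∑ k ∈ S, f k y) := by
  classical
  induction S using Finset.induction_on with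
  | empty => simpa using TFn.zero' (m := m) J
  | insert k S hk ih =>
    simp only [Finset.sum_insert hk]
    exact TFn.add' (hf k (Finset.mem_insert_self k S))
      (ih fun l hl => hf l (Finset.mem_insert_of_mem hl))

lemma TFn.shift' {J : ℕ} {N : ℝ} {f : Sp m → ℝ} (hf : TFn J N f) (p : Sp m) :
    TFn J N (fun y => f (y - p)) := by
  refine ⟨hf.smooth.comp (contDiff_id.sub contDiff_const), fun j hj x => ?_⟩
  rw [iteratedFDeriv_comp_sub]
  exact hf.bd j hj _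

/-- smooth compactly supported functions are test functions -/
lemma exists_TFn (J : ℕ) {f : Sp m → ℝ} (hf : ContDiff ℝ ∞ f) (hc : HasCompactSupport f) :
    ∃ N : ℝ, 0 ≤ N ∧ TFn J N f := by
  have h1 : ∀ j : ℕ, ∃ N : ℝ, ∀ x, ‖iteratedFDeriv ℝ j f x‖ ≤ N := by
    intro j
    have hcj : Continuous (iteratedFDeriv ℝ j f) :=
      hf.continuous_iteratedFDeriv (by exact_mod_cast le_top)
    exact hcj.bounded_above_of_compact_support (hc.iteratedFDeriv (𝕜 := ℝ) j)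
  choose N hN using h1
  have hN0 : ∀ j, 0 ≤ N j := fun j => (norm_nonneg _).trans (hN j 0)
  refine ⟨∑ j ∈ Finset.range (J + 1), N j, Finset.sum_nonneg fun j _ => hN0 j, ?_, ?_⟩
  · exact hf.of_le (by exact_mod_cast le_top)
  · intro j hj x
    exact (hN j x).trans (Finset.single_le_sum (f := N) (fun k _ => hN0 k)
      (Finset.mem_range.mpr (by omega)))

/-- radial bump, equal to 1 on the ball of radius r, 0 outside the ball of radius R -/
def gb (r R : ℝ) (y : Sp m) : ℝ := Real.smoothTransition ((R ^ 2 - ‖y‖ ^ 2) / (R ^ 2 - r ^ 2))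

lemma gb_smooth (r R : ℝ) : ContDiff ℝ ∞ (gb r R : Sp m → ℝ) := by
  unfold gb
  refine Real.smoothTransition.contDiff.comp ?_
  exact (contDiff_const.sub (contDiff_norm_sq ℝ)).div_const _

lemma gb_nonneg (r R : ℝ) (y : Sp m) : 0 ≤ gb r R y := Real.smoothTransition.nonneg _

lemma gb_le_one (r R : ℝ) (y : Sp m) : gb r R y ≤ 1 := Real.smoothTransition.le_one _

lemma gb_zero {r R : ℝ} (hr : 0 ≤ r) (h : r < R) {y : Sp m} (hy : R ≤ ‖y‖) : gb r R y = 0 := by
  refine Real.smoothTransition.zero_of_nonpos ?_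
  have h1 : 0 < R ^ 2 - r ^ 2 := by nlinarith
  have h2 : R ^ 2 - ‖y‖ ^ 2 ≤ 0 := by nlinarith [norm_nonneg y]
  exact div_nonpos_of_nonpos_of_nonneg h2 h1.le

lemma gb_one {r R : ℝ} (hr : 0 ≤ r) (h : r < R) {y : Sp m} (hy : ‖y‖ ≤ r) : gb r R y = 1 := by
  refine Real.smoothTransition.one_of_one_le ?_
  have h1 : 0 < R ^ 2 - r ^ 2 := by nlinarith
  rw [le_div_iff₀ h1]
  nlinarith [norm_nonneg y]

lemma gb_cs {r R : ℝ} (hr : 0 ≤ r) (h : r < R) : HasCompactSupport (gb r R : Sp m → ℝ) := by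
  refine HasCompactSupport.intro (isCompact_closedBall (0 : Sp m) R) fun y hy => ?_
  rw [mem_closedBall, dist_zero_right, not_le] at hy
  exact gb_zero hr h hy.le

/-- bump times a product of two linear functionals -/
lemma exists_quad (J : ℕ) {r R : ℝ} (hr : 0 ≤ r) (h : r < R) : ∃ C : ℝ, 0 ≤ C ∧
    ∀ v w : Sp m, ‖v‖ ≤ 1 → ∀ o : ℝ,
      TFn J (C * (|o| + ‖w‖)) (fun y => gb r R y * ⟪v, y⟫_ℝ * (o + ⟪w, y⟫_ℝ)) := by
  have hlin : ∀ k : Fin m, ContDiff ℝ ∞ (fun y : Sp m => y k) := fun k =>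
    (EuclideanSpace.proj (𝕜 := ℝ) k : Sp m →L[ℝ] ℝ).contDiff
  have h1 : ∀ k : Fin m, ∃ N : ℝ, 0 ≤ N ∧ TFn J N (fun y : Sp m => gb r R y * y k) := fun k =>
    exists_TFn J ((gb_smooth r R).mul (hlin k)) (gb_cs hr h).mul_right
  have h2 : ∀ k l : Fin m, ∃ N : ℝ, 0 ≤ N ∧ TFn J N (fun y : Sp m => gb r R y * y k * y l) :=
    fun k l => exists_TFn J (((gb_smooth r R).mul (hlin k)).mul (hlin l))
      ((gb_cs hr h).mul_right).mul_right
  choose N1 hN1 hT1 using h1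
  choose N2 hN2 hT2 using h2
  refine ⟨(∑ k, N1 k) + ∑ k, ∑ l, N2 k l, add_nonneg (Finset.sum_nonneg fun k _ => hN1 k)
    (Finset.sum_nonneg fun k _ => Finset.sum_nonneg fun l _ => hN2 k l), ?_⟩
  intro v w hv o
  have hvk : ∀ k, |v k| ≤ 1 := fun k => by
    have := PiLp.norm_apply_le v k
    rw [Real.norm_eq_abs] at this
    linarith
  have hwk : ∀ k, |w k| ≤ ‖w‖ := fun k => by
    have := PiLp.norm_apply_le w k
    rwa [Real.norm_eq_abs] at this
  have e1 : (fun y : Sp m => gb r R y * ⟪v, y⟫_ℝ * (o + ⟪w, y⟫_ℝ)) = fun y =>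
      (∑ k, (o * v k) * (gb r R y * y k)) +
        ∑ k, ∑ l, (v k * w l) * (gb r R y * y k * y l) := by
    funext y
    have e2 : ⟪v, y⟫_ℝ = ∑ k, v k * y k := by
      rw [PiLp.inner_apply]
      refine Finset.sum_congr rfl fun k _ => ?_
      simp [mul_comm]
    have e3 : ⟪w, y⟫_ℝ = ∑ k, w k * y k := by
      rw [PiLp.inner_apply]
      refine Finset.sum_congr rfl fun k _ => ?_
      simp [mul_comm]
    rw [e2, e3, mul_add]
    congr 1
    · rw [Finset.mul_sum, Finset.sum_mul]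
      refine Finset.sum_congr rfl fun k _ => ?_
      ring
    · rw [mul_assoc, Finset.sum_mul_sum, Finset.mul_sum]
      refine Finset.sum_congr rfl fun k _ => ?_
      rw [Finset.mul_sum]
      refine Finset.sum_congr rfl fun l _ => ?_
      ring
  rw [e1]
  have t1 : TFn J (∑ k, |o| * N1 k) (fun y : Sp m => ∑ k, (o * v k) * (gb r R y * y k)) := by
    refine TFn.sum' _ fun k _ => ?_
    refine TFn.mono' (TFn.smul' (hT1 k) (o * v k)) ?_
    refine mul_le_mul_of_nonneg_right ?_ (hN1 k)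
    rw [abs_mul]
    exact mul_le_of_le_one_right (abs_nonneg o) (hvk k)
  have t2 : TFn J (∑ k, ∑ l, ‖w‖ * N2 k l)
      (fun y : Sp m => ∑ k, ∑ l, (v k * w l) * (gb r R y * y k * y l)) := by
    refine TFn.sum' _ fun k _ => ?_
    refine TFn.sum' _ fun l _ => ?_
    refine TFn.mono' (TFn.smul' (hT2 k l) (v k * w l)) ?_
    refine mul_le_mul_of_nonneg_right ?_ (hN2 k l)
    rw [abs_mul]
    have := hvk k
    have h3 := hwk l
    nlinarith only [h3, this, abs_nonneg (w l)]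
  refine TFn.mono' (TFn.add' t1 t2) ?_
  have e4 : ∑ k, |o| * N1 k = |o| * ∑ k, N1 k := by rw [Finset.mul_sum]
  have e5 : ∑ k, ∑ l, ‖w‖ * N2 k l = ‖w‖ * ∑ k, ∑ l, N2 k l := by
    rw [Finset.mul_sum]
    refine Finset.sum_congr rfl fun k _ => ?_
    rw [Finset.mul_sum]
  rw [e4, e5]
  have s1 : 0 ≤ ∑ k, N1 k := Finset.sum_nonneg fun k _ => hN1 k
  have s2 : 0 ≤ ∑ k, ∑ l, N2 k l :=
    Finset.sum_nonneg fun k _ => Finset.sum_nonneg fun l _ => hN2 k l
  nlinarith [mul_nonneg s1 (norm_nonneg w), mul_nonneg s2 (abs_nonneg o)]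

end test

/-! ## the main argument -/

lemma gb_map {m k : ℕ} (i : Sp m →ₗᵢ[ℝ] Sp k) (r R : ℝ) (v : Sp m) : gb r R (i v) = gb r R v := by
  unfold gb
  rw [i.norm_map]

lemma gb_mono {m k : ℕ} {r R : ℝ} (hr : 0 ≤ r) (h : r < R) {u : Sp m} {v : Sp k}
    (huv : ‖u‖ ≤ ‖v‖) : gb r R v ≤ gb r R u := by
  refine Real.smoothTransition.monotone ?_
  have h1 : 0 < R ^ 2 - r ^ 2 := by nlinarith
  refine div_le_div_of_nonneg_right ?_ h1.le
  nlinarith [norm_nonneg u]

lemma lip_of_TFn {m : ℕ} {f : Sp m → ℝ} {N : ℝ} (hf : TFn 1 N f) (x y : Sp m) :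
    |f y - f x| ≤ N * ‖y - x‖ := by
  have h1 : ContDiff ℝ 1 f := by exact_mod_cast hf.smooth
  have := Convex.norm_image_sub_le_of_norm_fderiv_le (𝕜 := ℝ) (s := univ) (f := f)
    (fun z _ => h1.differentiable one_ne_zero z) (C := N) (fun z _ => ?_) convex_univ (mem_univ x)
    (mem_univ y)
  · rwa [Real.norm_eq_abs] at this
  · have h2 := hf.bd 1 le_rfl z
    rwa [norm_iteratedFDeriv_one] at h2

lemma vol_ball_pos (n : ℕ) {r : ℝ} (hr : 0 < r) : 0 < volume.real (ball (0 : Sp n) r) :=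
  ENNReal.toReal_pos (measure_ball_pos _ _ hr).ne' measure_ball_lt_top.ne

lemma int_ge {n : ℕ} {F : Sp n → ℝ} (hF : Continuous F) (hc : HasCompactSupport F)
    (h0 : ∀ v, 0 ≤ F v) {w0 : Sp n} {r X : ℝ} (hX : ∀ v ∈ ball w0 r, X ≤ F v) :
    X * volume.real (ball (0 : Sp n) r) ≤ ∫ v, F v := by
  have hi : Integrable F := hF.integrable_of_hasCompactSupport hc
  have h1 : ∫ _ in ball w0 r, X = X * volume.real (ball (0 : Sp n) r) := by
    rw [setIntegral_const, smul_eq_mul, mul_comm, measureReal_def, measureReal_def,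
      Measure.addHaar_ball_center]
  rw [← h1]
  calc ∫ _ in ball w0 r, X ≤ ∫ v in ball w0 r, F v := by
        refine setIntegral_mono_on ?_ hi.integrableOn measurableSet_ball hX
        exact integrableOn_const (hs := measure_ball_lt_top.ne)
    _ ≤ ∫ v, F v := setIntegral_le_integral hi (Eventually.of_forall h0)

lemma int_le {n : ℕ} {F : Sp n → ℝ} {r X : ℝ} (hF : Continuous F) (hX : ∀ v, F v ≤ X)
    (h0 : ∀ v, r ≤ ‖v‖ → F v = 0) :
    ∫ v, F v ≤ X * volume.real (ball (0 : Sp n) r) := by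
  have hc : HasCompactSupport F := by
    refine HasCompactSupport.intro (isCompact_closedBall (0 : Sp n) r) fun v hv => ?_
    rw [mem_closedBall, dist_zero_right, not_le] at hv
    exact h0 v hv.le
  have hi : Integrable F := hF.integrable_of_hasCompactSupport hc
  have h2 : ∫ v in ball (0 : Sp n) r, F v = ∫ v, F v := by
    refine setIntegral_eq_integral_of_forall_compl_eq_zero fun v hv => ?_
    rw [mem_ball, dist_zero_right, not_lt] at hv
    exact h0 v hv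
  rw [← h2]
  have h1 : ∫ _ in ball (0 : Sp n) r, X = X * volume.real (ball (0 : Sp n) r) := by
    rw [setIntegral_const, smul_eq_mul, mul_comm]
  rw [← h1]
  refine setIntegral_mono_on hi.integrableOn ?_ measurableSet_ball fun v _ => hX v
  exact integrableOn_const (hs := measure_ball_lt_top.ne)

lemma norm_sq_aux {n : ℕ} {ν' : Sp (n + 1)} (hν' : ‖ν'‖ = 1) {i' : Sp n →ₗᵢ[ℝ] Sp (n + 1)}
    (hi' : ∀ v, ⟪ν', i' v⟫_ℝ = 0) (h : ℝ) (v : Sp n) :
    ‖(-h) • ν' + i' v‖ ^ 2 = h ^ 2 + ‖v‖ ^ 2 := by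
  rw [norm_add_sq_real, real_inner_smul_left, hi', norm_smul, hν', i'.norm_map, Real.norm_eq_abs,
    abs_neg, mul_one, sq_abs]
  ring

theorem main (n J : ℕ) (ρ : ℝ) (hρ : 1 ≤ ρ) : ∃ (c0 C : ℝ), 0 < c0 ∧ 0 < C ∧
    ∀ (ν ν' : Sp (n + 1)) (c c' a a' τ : ℝ) (x : Sp (n + 1)), ‖ν‖ = 1 → ‖ν'‖ = 1 → ‖x‖ ≤ ρ →
      |⟪ν, x⟫_ℝ - c| ≤ 1 / 2 → 0 < a → 0 ≤ a' → 0 ≤ τ → τ ≤ c0 * a →
      (∀ (F : Sp (n + 1) → ℝ) (N : ℝ), TFn J N F → (∀ y, 1 ≤ ‖y - x‖ → F y = 0) →
        |a * plInt ν c F - a' * plInt ν' c' F| ≤ τ * N) →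
      |a - a'| ≤ C * τ ∧ ∃ σ : ℝ, (σ = 1 ∨ σ = -1) ∧
        a * (‖ν - σ • ν'‖ + |c - σ * c'|) ≤ C * τ := by
  -- constants
  have h14 : (0 : ℝ) ≤ 1 / 8 := by norm_num
  have h14' : (1 / 8 : ℝ) < 1 / 4 := by norm_num
  obtain ⟨N1, hN1, hT1⟩ := exists_TFn J (gb_smooth (m := n + 1) (1 / 8) (1 / 4)) (gb_cs h14 h14')
  obtain ⟨L1, hL1, hT1'⟩ := exists_TFn 1 (gb_smooth (m := n + 1) (1 / 8) (1 / 4)) (gb_cs h14 h14')
  obtain ⟨C3, hC3, hT3⟩ := exists_quad (m := n + 1) J (r := 3 / 8) (R := 1 / 2) (by norm_num)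
    (by norm_num)
  set K1 : ℝ := ∫ v : Sp n, gb (1 / 8) (1 / 4) v with hK1
  set κ4 : ℝ := volume.real (ball (0 : Sp n) (1 / 4)) with hκ4
  set κ16 : ℝ := volume.real (ball (0 : Sp n) (1 / 16)) with hκ16
  have hκ16p : 0 < κ16 := vol_ball_pos n (by norm_num)
  have hκ4p : 0 < κ4 := vol_ball_pos n (by norm_num)
  have hgbc : Continuous (gb (1 / 8) (1 / 4) : Sp n → ℝ) := (gb_smooth _ _).continuous
  have hgbs : HasCompactSupport (gb (1 / 8) (1 / 4) : Sp n → ℝ) := gb_cs h14 h14'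
  have hK1p : 0 < K1 := by
    have h1 := int_ge (n := n) (F := gb (1 / 8) (1 / 4)) hgbc hgbs (gb_nonneg _ _) (w0 := 0)
      (r := 1 / 8) (X := 1) (fun v hv => by
        rw [mem_ball, dist_zero_right] at hv
        rw [gb_one h14 h14' hv.le])
    have h2 := vol_ball_pos n (show (0 : ℝ) < 1 / 8 by norm_num)
    linarith
  set C4 : ℝ := 576 * C3 / κ16 with hC4
  have hC4p : 0 ≤ C4 := by positivity
  refine ⟨K1 / (2 * (N1 + 1)), (N1 + L1 * κ4 * C4) / K1 + 2 * (ρ + 2) * C4 + 1, by positivity,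
    by positivity, ?_⟩
  intro ν ν' c c' a a' τ x hν hν' hx hxc ha ha' hτ0 hτ htest
  -- the foot point
  set p : Sp (n + 1) := x - (⟪ν, x⟫_ℝ - c) • ν with hp
  have hpx : ‖p - x‖ ≤ 1 / 2 := by
    rw [hp, sub_sub_cancel_left, norm_neg, norm_smul, hν, mul_one, Real.norm_eq_abs]
    exact hxc
  have hpc : ⟪ν, p⟫_ℝ = c := by
    rw [hp, inner_sub_right, real_inner_smul_right, real_inner_self_eq_norm_sq, hν]
    ring
  have hpn : ‖p‖ ≤ ρ + 1 / 2 := by
    have := norm_add_le (p - x) x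
    rw [sub_add_cancel] at this
    linarith
  set h : ℝ := ⟪ν', p⟫_ℝ - c' with hh
  obtain ⟨i, hi1, hi2, hi3⟩ := param ν hν
  obtain ⟨i', hi1', hi2', hi3'⟩ := param ν' hν'
  have hpl : ∀ F : Sp (n + 1) → ℝ, plInt ν c F = ∫ v, F (p + i v) := by
    intro F
    have := hi3 p F
    rwa [hpc] at this
  have hpl' : ∀ F : Sp (n + 1) → ℝ, plInt ν' c' F = ∫ v, F (p + ((-h) • ν' + i' v)) := by
    intro F
    have h1 := hi3' (p + (-h) • ν') F
    have h2 : ⟪ν', p + (-h) • ν'⟫_ℝ = c' := by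
      rw [inner_add_right, real_inner_smul_right, real_inner_self_eq_norm_sq, hν', hh]
      ring
    rw [h2] at h1
    rw [h1]
    simp only [add_assoc]
  have hU2 : ∀ v : Sp n, ‖(-h) • ν' + i' v‖ ^ 2 = h ^ 2 + ‖v‖ ^ 2 := norm_sq_aux hν' hi1' h
  have hUv : ∀ v : Sp n, ‖v‖ ≤ ‖(-h) • ν' + i' v‖ := by
    intro v
    have := hU2 v
    nlinarith only [this, norm_nonneg v, norm_nonneg ((-h) • ν' + i' v), sq_nonneg h]
  have hUh : ∀ v : Sp n, |h| ≤ ‖(-h) • ν' + i' v‖ := by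
    intro v
    have := hU2 v
    have h1 : |h| ^ 2 = h ^ 2 := sq_abs h
    nlinarith only [this, h1, sq_nonneg ‖v‖, norm_nonneg ((-h) • ν' + i' v), abs_nonneg h]
  -- first test
  set P1 : ℝ := ∫ v, gb (1 / 8) (1 / 4) ((-h) • ν' + i' v) with hP1
  have hF1c : Continuous fun v : Sp n => gb (1 / 8) (1 / 4) ((-h) • ν' + i' v) :=
    (gb_smooth _ _).continuous.comp (continuous_const.add i'.continuous)
  have hF1s : HasCompactSupport fun v : Sp n => gb (1 / 8) (1 / 4) ((-h) • ν' + i' v) := by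
    refine HasCompactSupport.intro (isCompact_closedBall (0 : Sp n) (1 / 4)) fun v hv => ?_
    rw [mem_closedBall, dist_zero_right, not_le] at hv
    exact gb_zero h14 h14' (hv.le.trans (hUv v))
  have hsup : ∀ y, 1 ≤ ‖y - x‖ → 1 / 2 ≤ ‖y - p‖ := by
    intro y hy
    have h1 : ‖y - x‖ ≤ ‖y - p‖ + ‖p - x‖ := by
      rw [← sub_add_sub_cancel y p x]
      exact norm_add_le _ _
    linarith
  have t1 := htest (fun y => gb (1 / 8) (1 / 4) (y - p)) N1 (TFn.shift' hT1 p) (fun y hy =>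
    gb_zero h14 h14' (by have := hsup y hy; linarith))
  have e1 : plInt ν c (fun y => gb (1 / 8) (1 / 4) (y - p)) = K1 := by
    rw [hpl, hK1]
    congr 1
    ext v
    rw [add_sub_cancel_left, gb_map]
  have e1' : plInt ν' c' (fun y => gb (1 / 8) (1 / 4) (y - p)) = P1 := by
    rw [hpl', hP1]
    congr 1
    ext v
    rw [add_sub_cancel_left]
  rw [e1, e1'] at t1
  have hP1K : P1 ≤ K1 := by
    refine integral_mono (hF1c.integrable_of_hasCompactSupport hF1s)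
      (hgbc.integrable_of_hasCompactSupport hgbs) fun v => ?_
    exact gb_mono h14 h14' (hUv v)
  have hτN : τ * N1 ≤ a * K1 / 2 := by
    have h1 : τ * (N1 + 1) ≤ a * K1 / 2 := by
      calc τ * (N1 + 1) ≤ K1 / (2 * (N1 + 1)) * a * (N1 + 1) :=
            mul_le_mul_of_nonneg_right hτ (by linarith)
        _ = a * K1 / 2 := by field_simp
    nlinarith only [h1, hτ0]
  have hlow : a * K1 / 2 ≤ a' * P1 := by
    have := (abs_le.mp t1).2
    linarith only [hτN, this]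
  have haa : a ≤ 2 * a' := by
    have h1 : a' * P1 ≤ a' * K1 := mul_le_mul_of_nonneg_left hP1K ha'
    have h2 : a * K1 ≤ 2 * a' * K1 := by linarith
    exact le_of_mul_le_mul_right h2 hK1p
  have hh4 : |h| < 1 / 4 := by
    by_contra hcon
    push Not at hcon
    have h1 : P1 = 0 := by
      rw [hP1]
      refine integral_eq_zero_of_ae (Eventually.of_forall fun v => ?_)
      exact gb_zero h14 h14' (hcon.trans (hUh v))
    rw [h1, mul_zero] at hlow
    nlinarith only [hlow, mul_pos ha hK1p]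
  -- difference of the two integrals
  have hdiff : |P1 - K1| ≤ L1 * |h| * κ4 := by
    have h1 : P1 - K1 = ∫ v : Sp n, (gb (1 / 8) (1 / 4) ((-h) • ν' + i' v) - gb (1 / 8) (1 / 4) v) :=
      (integral_sub (hF1c.integrable_of_hasCompactSupport hF1s)
        (hgbc.integrable_of_hasCompactSupport hgbs)).symm
    rw [h1, ← Real.norm_eq_abs]
    refine (norm_integral_le_integral_norm _).trans ?_
    refine int_le (r := 1 / 4) (hF1c.sub hgbc).norm (fun v => ?_) (fun v hv => ?_)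
    · rw [Real.norm_eq_abs, ← gb_map i']
      refine (lip_of_TFn hT1' _ _).trans (le_of_eq ?_)
      rw [add_sub_cancel_right, norm_smul, hν', mul_one, norm_neg, Real.norm_eq_abs]
    · rw [gb_zero h14 h14' hv, gb_zero h14 h14' (hv.trans (hUv v)), sub_zero, norm_zero]
  -- the sign
  set g : ℝ := ⟪ν, ν'⟫_ℝ with hg
  obtain ⟨σ, hσ, hσg⟩ : ∃ σ : ℝ, (σ = 1 ∨ σ = -1) ∧ σ * g = |g| := by
    rcases le_or_gt 0 g with hg0 | hg0
    · exact ⟨1, Or.inl rfl, by rw [one_mul, abs_of_nonneg hg0]⟩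
    · exact ⟨-1, Or.inr rfl, by rw [neg_one_mul, abs_of_neg hg0]⟩
  have hσ2 : σ ^ 2 = 1 := by rcases hσ with rfl | rfl <;> norm_num
  have hσa : |σ| = 1 := by rcases hσ with rfl | rfl <;> norm_num
  set μ : Sp (n + 1) := ν - σ • ν' with hμ
  have hμ2 : ‖μ‖ ^ 2 = 2 - 2 * |g| := by
    rw [hμ, norm_sub_sq_real, real_inner_smul_right, norm_smul, hν, hν', Real.norm_eq_abs, hσa,
      ← hg, hσg]
    ring
  -- the tangential part of ν
  obtain ⟨v1, hv1⟩ := hi2' (ν - g • ν') (by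
    rw [inner_sub_right, real_inner_smul_right, real_inner_self_eq_norm_sq, hν',
      real_inner_comm, ← hg]
    ring)
  have hv1n : ‖v1‖ ^ 2 = 1 - g ^ 2 := by
    rw [← i'.norm_map, hv1, norm_sub_sq_real, real_inner_smul_right, norm_smul, hν, hν', ← hg,
      Real.norm_eq_abs, mul_one, sq_abs]
    ring
  have hin : ∀ v : Sp n, ⟪ν, i' v⟫_ℝ = ⟪v1, v⟫_ℝ := by
    intro v
    have h1 : ν = i' v1 + g • ν' := by rw [hv1]; abel
    rw [← i'.inner_map_map v1 v]
    nth_rewrite 1 [h1]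
    rw [inner_add_left, real_inner_smul_left, hi1', mul_zero, add_zero]
  have hg1 : |g| ≤ 1 := by
    have h1 : g ^ 2 ≤ 1 := by linarith only [hv1n, sq_nonneg ‖v1‖]
    nlinarith only [h1, sq_abs g, abs_nonneg g]
  have hv1l : ‖v1‖ ≤ 1 := by nlinarith only [hv1n, norm_nonneg v1, sq_nonneg g]
  have hμv : ‖μ‖ ≤ 2 * ‖v1‖ := by
    have h1 : ‖μ‖ ^ 2 ≤ (2 * ‖v1‖) ^ 2 := by
      rw [hμ2, mul_pow, hv1n, ← sq_abs g]
      nlinarith only [hg1, abs_nonneg g]
    exact (pow_le_pow_iff_left₀ (norm_nonneg _) (by positivity) two_ne_zero).mp h1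
  set X : ℝ := |h * g| + ‖v1‖ / 8 with hX
  have hX0 : 0 ≤ X := by (clear * -; positivity)
  have hhv : |h| ≤ |h * g| + ‖v1‖ := by
    rw [abs_mul]
    have h1 : 1 - |g| ≤ ‖v1‖ := by
      have h2 : 1 - |g| ≤ ‖v1‖ ^ 2 := by
        rw [hv1n, ← sq_abs g]
        nlinarith only [hg1, abs_nonneg g]
      nlinarith only [h2, hv1l, norm_nonneg v1]
    nlinarith only [h1, hh4, hg1, abs_nonneg h, abs_nonneg g, norm_nonneg v1]
  have hsum : |h| + ‖μ‖ ≤ 24 * X := by
    rw [hX]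
    linarith only [hhv, hμv, abs_nonneg (h * g), norm_nonneg v1]
  -- second test
  have t3 := htest (fun y => gb (3 / 8) (1 / 2) (y - p) * ⟪ν, y - p⟫_ℝ *
      (-(σ * h) + ⟪μ, y - p⟫_ℝ)) (C3 * (|(-(σ * h))| + ‖μ‖))
    (TFn.shift' (f := fun y => gb (3 / 8) (1 / 2) y * ⟪ν, y⟫_ℝ * (-(σ * h) + ⟪μ, y⟫_ℝ))
      (hT3 ν μ hν.le _) p) (fun y hy => by
      rw [gb_zero (by norm_num) (by norm_num) (hsup y hy), zero_mul, zero_mul])
  have e3 : plInt ν c (fun y => gb (3 / 8) (1 / 2) (y - p) * ⟪ν, y - p⟫_ℝ *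
      (-(σ * h) + ⟪μ, y - p⟫_ℝ)) = 0 := by
    rw [hpl]
    refine integral_eq_zero_of_ae (Eventually.of_forall fun v => ?_)
    change gb (3 / 8) (1 / 2) (p + i v - p) * ⟪ν, p + i v - p⟫_ℝ *
      (-(σ * h) + ⟪μ, p + i v - p⟫_ℝ) = 0
    rw [add_sub_cancel_left, hi1, mul_zero, zero_mul]
  set P3 : ℝ := ∫ v : Sp n, gb (3 / 8) (1 / 2) ((-h) • ν' + i' v) *
    (-(h * g) + ⟪v1, v⟫_ℝ) ^ 2 with hP3
  have e3' : plInt ν' c' (fun y => gb (3 / 8) (1 / 2) (y - p) * ⟪ν, y - p⟫_ℝ *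
      (-(σ * h) + ⟪μ, y - p⟫_ℝ)) = P3 := by
    rw [hpl', hP3]
    congr 1
    ext v
    rw [add_sub_cancel_left]
    have h1 : ⟪ν, (-h) • ν' + i' v⟫_ℝ = -(h * g) + ⟪v1, v⟫_ℝ := by
      rw [inner_add_right, real_inner_smul_right, hin, ← hg]
      ring
    have h2 : ⟪ν', (-h) • ν' + i' v⟫_ℝ = -h := by
      rw [inner_add_right, real_inner_smul_right, hi1', real_inner_self_eq_norm_sq, hν']
      ring
    have h3 : -(σ * h) + ⟪μ, (-h) • ν' + i' v⟫_ℝ = -(h * g) + ⟪v1, v⟫_ℝ := by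
      rw [hμ, inner_sub_left, real_inner_smul_left, h1, h2]
      ring
    rw [h3, h1]
    ring
  rw [e3, e3', mul_zero, zero_sub, abs_neg, abs_neg, abs_mul σ h, hσa, one_mul] at t3
  have hF3c : Continuous fun v : Sp n => gb (3 / 8) (1 / 2) ((-h) • ν' + i' v) *
      (-(h * g) + ⟪v1, v⟫_ℝ) ^ 2 :=
    ((gb_smooth _ _).continuous.comp (continuous_const.add i'.continuous)).mul
      ((continuous_const.add (continuous_const.inner continuous_id)).pow 2)
  have hF3s : HasCompactSupport fun v : Sp n => gb (3 / 8) (1 / 2) ((-h) • ν' + i' v) *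
      (-(h * g) + ⟪v1, v⟫_ℝ) ^ 2 := by
    refine HasCompactSupport.intro (isCompact_closedBall (0 : Sp n) (1 / 2)) fun v hv => ?_
    rw [mem_closedBall, dist_zero_right, not_le] at hv
    rw [gb_zero (by norm_num) (by norm_num) (hv.le.trans (hUv v)), zero_mul]
  have hP3l : X ^ 2 * κ16 ≤ P3 := by
    obtain ⟨s, hs1, hs2⟩ : ∃ s : ℝ, |s| = 1 ∧ s * (-(h * g)) = |h * g| := by
      rcases le_or_gt 0 (h * g) with hg0 | hg0
      · exact ⟨-1, by norm_num, by rw [abs_of_nonneg hg0]; ring⟩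
      · exact ⟨1, by norm_num, by rw [abs_of_neg hg0]; ring⟩
    have hs3 : s ^ 2 = 1 := by rw [← sq_abs, hs1]; norm_num
    refine int_ge (w0 := (s * (3 / 16) * ‖v1‖⁻¹) • v1) (r := 1 / 16) hF3c hF3s
      (fun v => mul_nonneg (gb_nonneg _ _ _) (sq_nonneg _)) (fun v hv => ?_)
    set w0 : Sp n := (s * (3 / 16) * ‖v1‖⁻¹) • v1 with hw0
    rw [mem_ball, dist_eq_norm] at hv
    have hinv : ‖v1‖⁻¹ * ‖v1‖ ≤ 1 := inv_mul_le_one
    have hw0n : ‖w0‖ ≤ 3 / 16 := by
      rw [hw0, norm_smul, norm_mul, norm_mul, Real.norm_eq_abs s, hs1, norm_inv, norm_norm,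
        Real.norm_of_nonneg (by norm_num : (0 : ℝ) ≤ 3 / 16), one_mul, mul_assoc]
      linarith only [hinv]
    have hvn : ‖v‖ ≤ 1 / 4 := by
      have := norm_add_le (v - w0) w0
      rw [sub_add_cancel] at this
      linarith only [hv, hw0n, this]
    have hUn : ‖(-h) • ν' + i' v‖ ≤ 3 / 8 := by
      have h1 := hU2 v
      have h2 : h ^ 2 ≤ 1 / 16 := by
        rw [← sq_abs]
        nlinarith only [hh4, abs_nonneg h]
      have h3 : ‖v‖ ^ 2 ≤ 1 / 16 := by nlinarith only [hvn, norm_nonneg v]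
      nlinarith only [h1, h2, h3, norm_nonneg ((-h) • ν' + i' v)]
    rw [gb_one (by norm_num) (by norm_num) hUn, one_mul]
    have hiw : ⟪v1, w0⟫_ℝ = s * (3 / 16) * ‖v1‖ := by
      rw [hw0, real_inner_smul_right, real_inner_self_eq_norm_sq]
      by_cases hv0 : ‖v1‖ = 0
      · rw [hv0]; ring
      · field_simp
    have hiv : |⟪v1, v - w0⟫_ℝ| ≤ ‖v1‖ / 16 := by
      refine (abs_real_inner_le_norm _ _).trans ?_
      nlinarith only [hv, norm_nonneg v1]
    have h4 : X ≤ s * (-(h * g) + ⟪v1, v⟫_ℝ) := by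
      have h5 : ⟪v1, v⟫_ℝ = ⟪v1, w0⟫_ℝ + ⟪v1, v - w0⟫_ℝ := by
        rw [← inner_add_right, add_sub_cancel]
      have h6 : s * ⟪v1, v - w0⟫_ℝ ≥ -(‖v1‖ / 16) := by
        have h7 : |s * ⟪v1, v - w0⟫_ℝ| ≤ ‖v1‖ / 16 := by rwa [abs_mul, hs1, one_mul]
        exact (abs_le.mp h7).1
      rw [mul_add, hs2, h5, mul_add, hiw, hX]
      have h8 : s * (s * (3 / 16) * ‖v1‖) = 3 / 16 * ‖v1‖ := by
        calc s * (s * (3 / 16) * ‖v1‖) = s ^ 2 * (3 / 16 * ‖v1‖) := by ring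
          _ = _ := by rw [hs3, one_mul]
      rw [h8]
      linarith only [h6]
    have h9 : (-(h * g) + ⟪v1, v⟫_ℝ) ^ 2 = (s * (-(h * g) + ⟪v1, v⟫_ℝ)) ^ 2 := by
      rw [mul_pow, hs3, one_mul]
    rw [h9]
    exact pow_le_pow_left₀ hX0 h4 2
  -- conclusion of the second test
  have hkey : a' * (|h| + ‖μ‖) ≤ C4 * τ := by
    have h1 : a' * (X ^ 2 * κ16) ≤ τ * (C3 * (24 * X)) := by
      calc a' * (X ^ 2 * κ16) ≤ a' * P3 := mul_le_mul_of_nonneg_left hP3l ha'
        _ ≤ |a' * P3| := le_abs_self _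
        _ ≤ τ * (C3 * (|h| + ‖μ‖)) := t3
        _ ≤ τ * (C3 * (24 * X)) := by (clear * - hsum hC3 hτ0; gcongr)
    have h2 : a' * X ≤ 24 * C3 * τ / κ16 := by
      rw [le_div_iff₀ hκ16p]
      rcases hX0.eq_or_lt with h3 | h3
      · rw [← h3]
        simp only [mul_zero, zero_mul]
        (clear * - hC3 hτ0; positivity)
      · have h4 : X * (a' * X * κ16) ≤ X * (24 * C3 * τ) := by linarith only [h1]
        exact le_of_mul_le_mul_left h4 h3
    calc a' * (|h| + ‖μ‖) ≤ a' * (24 * X) := mul_le_mul_of_nonneg_left hsum ha'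
      _ = 24 * (a' * X) := by ring
      _ ≤ 24 * (24 * C3 * τ / κ16) := by linarith only [h2]
      _ = C4 * τ := by rw [hC4]; ring
  have hah : a' * |h| ≤ C4 * τ := by
    have := mul_nonneg ha' (norm_nonneg μ)
    linarith only [hkey, this, mul_add a' |h| ‖μ‖]
  refine ⟨?_, σ, hσ, ?_⟩
  · have h1 : |a - a'| * K1 ≤ (N1 + L1 * κ4 * C4) * τ := by
      have h2 : (a - a') * K1 = (a * K1 - a' * P1) + a' * (P1 - K1) := by ring
      calc |a - a'| * K1 = |(a - a') * K1| := by rw [abs_mul, abs_of_pos hK1p]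
        _ ≤ |a * K1 - a' * P1| + |a' * (P1 - K1)| := by rw [h2]; exact abs_add_le _ _
        _ ≤ τ * N1 + a' * (L1 * |h| * κ4) := by
            rw [abs_mul, abs_of_nonneg ha']
            exact add_le_add t1 (mul_le_mul_of_nonneg_left hdiff ha')
        _ = τ * N1 + L1 * κ4 * (a' * |h|) := by ring
        _ ≤ τ * N1 + L1 * κ4 * (C4 * τ) := by (clear * - hah hL1 hκ4p; gcongr)
        _ = _ := by ring
    have h3 : |a - a'| ≤ (N1 + L1 * κ4 * C4) / K1 * τ := by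
      rw [div_mul_eq_mul_div, le_div_iff₀ hK1p]
      exact h1
    have h4 : 0 ≤ (2 * (ρ + 2) * C4 + 1) * τ := by (clear * - hρ hC3 hκ16p hτ0; positivity)
    linarith only [h3, h4]
  · have h1 : |c - σ * c'| ≤ (ρ + 1) * ‖μ‖ + |h| := by
      have h2 : c - σ * c' = ⟪μ, p⟫_ℝ + σ * h := by
        rw [hμ, inner_sub_left, real_inner_smul_left, hpc, hh]
        ring
      rw [h2]
      refine (abs_add_le _ _).trans ?_
      rw [abs_mul, hσa, one_mul]
      have h3 := abs_real_inner_le_norm μ p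
      have h4 : ‖μ‖ * ‖p‖ ≤ ‖μ‖ * (ρ + 1) :=
        mul_le_mul_of_nonneg_left (by linarith only [hpn]) (norm_nonneg _)
      linarith only [h3, h4]
    have h5 : ‖μ‖ + |c - σ * c'| ≤ (ρ + 2) * (|h| + ‖μ‖) := by
      nlinarith only [h1, hρ, abs_nonneg h, norm_nonneg μ]
    have h6 : 0 ≤ |h| + ‖μ‖ := by (clear * -; positivity)
    have h7 : a * (‖μ‖ + |c - σ * c'|) ≤ 2 * (ρ + 2) * C4 * τ := by
      calc a * (‖μ‖ + |c - σ * c'|) ≤ a * ((ρ + 2) * (|h| + ‖μ‖)) :=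
            mul_le_mul_of_nonneg_left h5 ha.le
        _ ≤ (2 * a') * ((ρ + 2) * (|h| + ‖μ‖)) :=
            mul_le_mul_of_nonneg_right haa (by (clear * - hρ; positivity))
        _ = 2 * (ρ + 2) * (a' * (|h| + ‖μ‖)) := by ring
        _ ≤ 2 * (ρ + 2) * (C4 * τ) := by (clear * - hkey hρ; gcongr)
        _ = _ := by ring
    have h8 : 0 ≤ ((N1 + L1 * κ4 * C4) / K1 + 1) * τ := by (clear * - hN1 hL1 hκ4p hC3 hκ16p hK1p hτ0; positivity)
    linarith only [h7, h8]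

end GE

/-- MODULE GE -/
theorem stmtGE : StmtGE := by
  intro d hd J ρ hρ
  obtain ⟨n, rfl⟩ : ∃ n, d = n + 1 := ⟨d - 1, by omega⟩
  exact GE.main n J ρ hρ

end

end TG


end

section

/-! abstract assembly, section 17' -/

open Set TrI
open scoped ENNReal Classical

namespace TG

noncomputable section

variable {d : ℕ}

theorem sum_cs_inter (S : Set (Cell d)) (T : ℕ → Set (Cell d)) (F : Cell d → ℝ) (n : ℕ) :
    ∑ j ∈ Finset.range n, cs (S ∩ T j) F =
      ∑' Q, (((Finset.range n).filter (fun j => Q ∈ T j)).card : ℝ≥0∞) *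
        S.indicator (fun Q => ENNReal.ofReal (F Q)) Q := by
  unfold cs
  rw [← Summable.tsum_finsetSum (fun _ _ => ENNReal.summable)]
  apply tsum_congr
  intro Q
  rw [← nsmul_eq_mul, ← Finset.sum_const, Finset.sum_filter]
  apply Finset.sum_congr rfl
  intro j _
  by_cases h : Q ∈ T j <;> by_cases h' : Q ∈ S <;> simp [h, h']

theorem sum_cs_ge {S : Set (Cell d)} {T : ℕ → Set (Cell d)} {F : Cell d → ℝ} {n nI : ℕ}
    (h : ∀ Q ∈ S, {j | j < n ∧ Q ∉ T j}.ncard ≤ nI) :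
    ((n - nI : ℕ) : ℝ≥0∞) * cs S F ≤ ∑ j ∈ Finset.range n, cs (S ∩ T j) F := by
  rw [sum_cs_inter]
  unfold cs
  rw [← ENNReal.tsum_mul_left]
  apply ENNReal.tsum_le_tsum
  intro Q
  by_cases hQ : Q ∈ S
  · refine mul_le_mul_left ?_ _
    have h1 := h Q hQ
    have h2 : {j | j < n ∧ Q ∉ T j}.ncard =
        ((Finset.range n).filter (fun j => ¬ Q ∈ T j)).card := by
      rw [← Set.ncard_coe_finset]
      congr 1
      ext j; simp
    rw [h2] at h1
    have h3 := Finset.card_filter_add_card_filter_not (s := Finset.range n) (fun j => Q ∈ T j)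
    rw [Finset.card_range] at h3
    have h4 : n - nI ≤ ((Finset.range n).filter (fun j => Q ∈ T j)).card := by omega
    exact_mod_cast h4
  · simp [hQ]

theorem sum_cs_le {S : Set (Cell d)} {T : ℕ → Set (Cell d)} {F : Cell d → ℝ} {n nI : ℕ}
    (h : ∀ Q ∈ S, {j | j < n ∧ Q ∉ T j}.ncard ≤ nI) :
    ∑ j ∈ Finset.range n, cs (S ∩ (T j)ᶜ) F ≤ (nI : ℝ≥0∞) * cs S F := by
  rw [sum_cs_inter]
  unfold cs
  rw [← ENNReal.tsum_mul_left]
  apply ENNReal.tsum_le_tsum
  intro Q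
  by_cases hQ : Q ∈ S
  · refine mul_le_mul_left ?_ _
    have h1 := h Q hQ
    have h2 : {j | j < n ∧ Q ∉ T j}.ncard =
        ((Finset.range n).filter (fun j => Q ∈ (T j)ᶜ)).card := by
      rw [← Set.ncard_coe_finset]
      congr 1
      ext j; simp
    rw [h2] at h1
    have h3 : (((Finset.range n).filter (fun j => Q ∈ (T j)ᶜ)).card : ℝ≥0∞) ≤ nI := by
      exact_mod_cast h1
    convert h3
  · simp [hQ]

theorem as_real {C η0 CK Cs n nI tot η x B3 BS L F : ℝ} (hC : 0 < C) (hη0 : 0 < η0)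
    (hη1 : η0 ≤ 1) (hη2 : 4 * C * η0 ≤ 1) (hη3 : 2 * ((4 * C * (3 + 2 * C) + C) * η0) ≤ 1)
    (hCK : 0 ≤ CK) (hCs : 0 ≤ Cs) (hn : 0 < n) (hnI : 0 ≤ nI) (hn1 : 2 * nI ≤ n)
    (hn2 : 2 * CK ^ 2 * nI ≤ η0 * n) (htot : 0 ≤ tot) (hηη : η ≤ η0)
    (hx : 0 ≤ x) (hB3 : 0 ≤ B3) (hBS : 0 ≤ BS)
    (h1 : (n - nI) * (BS + B3) ≤ n * (Cs * tot + η * x + C * L) + CK * (nI * F))
    (h2 : F ≤ CK * x + Cs * tot) (h3 : L ≤ η * x + η * B3 + Cs * tot)
    (h4 : x ≤ C * BS + C * L + Cs * tot) :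
    x ≤ (4 * C * (2 * (2 * Cs + CK * Cs + 2 * C * Cs)) + 2 * (C + 1) * Cs) * tot := by
  set B := BS + B3 with hB
  have hB0 : 0 ≤ B := by positivity
  have i1 : n / 2 * B ≤ n * (Cs * tot + η * x + C * L) + CK * (nI * F) := by
    refine le_trans ?_ h1
    apply mul_le_mul_of_nonneg_right _ hB0
    linarith
  have i2 : CK * (nI * F) ≤ n * (η0 / 2 * x) + n * (CK / 2 * (Cs * tot)) := by
    have e1 : CK * (nI * F) ≤ CK * (nI * (CK * x + Cs * tot)) := by gcongr
    have e2 : CK * (nI * (CK * x + Cs * tot)) = (CK ^ 2 * nI) * x + CK * nI * (Cs * tot) := by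
      ring
    have e3 : (CK ^ 2 * nI) * x ≤ (η0 * n / 2) * x := by
      apply mul_le_mul_of_nonneg_right _ hx; linarith
    have e4 : CK * nI * (Cs * tot) ≤ CK * (n / 2) * (Cs * tot) := by
      have : nI ≤ n / 2 := by linarith
      gcongr
    linarith only [e1, e3, e4]
  have i3 : B ≤ 2 * (Cs * tot + η * x + C * L) + η0 * x + CK * (Cs * tot) := by
    have : n / 2 * B ≤ n / 2 * (2 * (Cs * tot + η * x + C * L) + η0 * x + CK * (Cs * tot)) := by
      calc n / 2 * B ≤ n * (Cs * tot + η * x + C * L) + (n * (η0 / 2 * x)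
            + n * (CK / 2 * (Cs * tot))) := by linarith
        _ = _ := by ring
    exact le_of_mul_le_mul_left this (by positivity)
  have hηx : η * x ≤ η0 * x := by gcongr
  have hηB : η * B3 ≤ η0 * B := by
    have : B3 ≤ B := by rw [hB]; linarith
    gcongr
  have i4 : L ≤ η0 * x + η0 * B + Cs * tot := by linarith
  have hCL : C * L ≤ C * (η0 * x + η0 * B + Cs * tot) := by gcongr
  have hs0 : 0 ≤ Cs * tot := by positivity
  have i5 : B ≤ 2 * ((3 + 2 * C) * (η0 * x)) + 2 * ((2 * Cs + CK * Cs + 2 * C * Cs) * tot) := by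
    have : 2 * (C * (η0 * B)) ≤ 1 / 2 * B := by nlinarith only [hη2, hB3, hBS]
    linarith only [i3, hηx, hCL, this]
  have i6 : x ≤ C * B + C * (η0 * x + η0 * B + Cs * tot) + Cs * tot := by
    have : C * BS ≤ C * B := by
      have : BS ≤ B := by rw [hB]; linarith
      gcongr
    linarith
  have i7 : C * (η0 * B) ≤ C * B := by
    have : η0 * B ≤ B := by nlinarith only [hη1, hB3, hBS]
    gcongr
  have i8 : x ≤ 2 * (C * B) + C * (η0 * x) + (C + 1) * (Cs * tot) := by linarith only [i6, i7]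
  have i9 : 2 * (C * B) ≤ 2 * (C * (2 * ((3 + 2 * C) * (η0 * x)) +
      2 * ((2 * Cs + CK * Cs + 2 * C * Cs) * tot))) := by gcongr
  have i10 : (4 * C * (3 + 2 * C) + C) * η0 * x ≤ 1 / 2 * x := by
    apply mul_le_mul_of_nonneg_right _ hx; linarith
  linarith only [i6, i7, i9, i10]

/-- MODULE AS with the order of quantifiers of the application: n0 is chosen before Cs -/
def StmtAS2 : Prop :=
  ∀ (C : ℝ), 0 < C → ∃ η0 : ℝ, 0 < η0 ∧ ∀ (CK : ℝ), 0 ≤ CK → ∀ nI : ℕ,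
    ∃ n0 : ℕ, ∀ Cs : ℝ, 0 ≤ Cs → ∃ C' : ℝ, 0 < C' ∧ ∀ (d n : ℕ) (tot η : ℝ),
    n0 ≤ n → 0 ≤ tot → 0 ≤ η → η ≤ η0 →
    ∀ (fX fB fsh : Cell d → ℝ) (Sol III : Set (Cell d)) (INT : ℕ → Set (Cell d)) (LW : ℝ≥0∞),
      (∀ Q, 0 ≤ fX Q) → (∀ Q, 0 ≤ fB Q) → (∀ Q, 0 ≤ fsh Q) →
      (∀ Q ∈ Sol, {j | j < n ∧ Q ∉ INT j}.ncard ≤ nI) →
      (∀ Q ∈ III, {j | j < n ∧ Q ∉ INT j}.ncard ≤ nI) →
      (∀ j < n, cs (Sol ∩ INT j) fX + cs (III ∩ INT j) fB ≤
        ENNReal.ofReal (Cs * tot) + ENNReal.ofReal η * cs univ fX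
          + ENNReal.ofReal CK * cs (Sol ∩ (INT j)ᶜ) fsh + ENNReal.ofReal C * LW) →
      cs Sol fsh ≤ ENNReal.ofReal CK * cs univ fX + ENNReal.ofReal (Cs * tot) →
      LW ≤ ENNReal.ofReal η * cs univ fX + ENNReal.ofReal η * cs III fB
        + ENNReal.ofReal (Cs * tot) →
      cs univ fX ≤ ENNReal.ofReal C * cs Sol fX + ENNReal.ofReal C * LW
        + ENNReal.ofReal (Cs * tot) →
      cs univ fX < ∞ → cs III fB < ∞ →
      cs univ fX ≤ ENNReal.ofReal (C' * tot)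

theorem stmtAS2 : StmtAS2 := by
  intro C hC
  set η0 : ℝ := min 1 (min (1 / (4 * C)) (1 / (2 * (4 * C * (3 + 2 * C) + C)))) with hη0
  have hpos : 0 < η0 := by
    rw [hη0]
    apply lt_min one_pos
    apply lt_min
    · positivity
    · positivity
  have hη1 : η0 ≤ 1 := min_le_left _ _
  have hη2 : 4 * C * η0 ≤ 1 := by
    have : η0 ≤ 1 / (4 * C) := (min_le_right _ _).trans (min_le_left _ _)
    rw [le_div_iff₀ (by positivity)] at this
    linarith
  have hη3 : 2 * ((4 * C * (3 + 2 * C) + C) * η0) ≤ 1 := by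
    have : η0 ≤ 1 / (2 * (4 * C * (3 + 2 * C) + C)) := (min_le_right _ _).trans (min_le_right _ _)
    rw [le_div_iff₀ (by positivity)] at this
    linarith
  refine ⟨η0, hpos, ?_⟩
  intro CK hCK nI
  obtain ⟨n0, hn0⟩ := exists_nat_ge (max (2 * nI + 1 : ℝ) (2 * CK ^ 2 * nI / η0))
  refine ⟨n0, ?_⟩
  intro Cs hCs
  refine ⟨(4 * C * (2 * (2 * Cs + CK * Cs + 2 * C * Cs)) + 2 * (C + 1) * Cs) + 1,
    by positivity, ?_⟩
  intro d n tot η hn htot hη hηη fX fB fsh Sol III INT LW hfX hfB hfsh hSol hIII hM hsh hLW hX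
    hXf hBf
  have hnn0 : (n0 : ℝ) ≤ n := by exact_mod_cast hn
  have hn1 : 2 * (nI : ℝ) + 1 ≤ n := ((le_max_left _ _).trans hn0).trans hnn0
  have hn2 : 2 * CK ^ 2 * (nI : ℝ) ≤ η0 * n := by
    have := ((le_max_right _ _).trans hn0).trans hnn0
    rw [div_le_iff₀ hpos] at this
    linarith
  have hnpos : (0 : ℝ) < n := by
    have : (0 : ℝ) ≤ nI := Nat.cast_nonneg _
    linarith
  have hnI : nI ≤ n := by
    have : (nI : ℝ) ≤ n := by
      have : (0 : ℝ) ≤ nI := Nat.cast_nonneg _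
      linarith
    exact_mod_cast this
  -- finiteness
  have hXt : cs univ fX ≠ ∞ := hXf.ne
  have hBt : cs III fB ≠ ∞ := hBf.ne
  have hSt : cs Sol fX ≠ ∞ := ((cs_le_univ Sol fX).trans_lt hXf).ne
  have hLt : LW ≠ ∞ := by
    apply ne_top_of_le_ne_top _ hLW
    exact ENNReal.add_ne_top.2 ⟨ENNReal.add_ne_top.2 ⟨ENNReal.mul_ne_top ENNReal.ofReal_ne_top hXt,
      ENNReal.mul_ne_top ENNReal.ofReal_ne_top hBt⟩, ENNReal.ofReal_ne_top⟩
  have hFt : cs Sol fsh ≠ ∞ := by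
    apply ne_top_of_le_ne_top _ hsh
    exact ENNReal.add_ne_top.2 ⟨ENNReal.mul_ne_top ENNReal.ofReal_ne_top hXt,
      ENNReal.ofReal_ne_top⟩
  -- sum over j
  have hsum : ((n - nI : ℕ) : ℝ≥0∞) * (cs Sol fX + cs III fB) ≤
      (n : ℝ≥0∞) * (ENNReal.ofReal (Cs * tot) + ENNReal.ofReal η * cs univ fX
        + ENNReal.ofReal C * LW) + ENNReal.ofReal CK * ((nI : ℝ≥0∞) * cs Sol fsh) := by
    calc ((n - nI : ℕ) : ℝ≥0∞) * (cs Sol fX + cs III fB)
        = ((n - nI : ℕ) : ℝ≥0∞) * cs Sol fX + ((n - nI : ℕ) : ℝ≥0∞) * cs III fB := mul_add _ _ _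
      _ ≤ ∑ j ∈ Finset.range n, cs (Sol ∩ INT j) fX
          + ∑ j ∈ Finset.range n, cs (III ∩ INT j) fB :=
          add_le_add (sum_cs_ge hSol) (sum_cs_ge hIII)
      _ = ∑ j ∈ Finset.range n, (cs (Sol ∩ INT j) fX + cs (III ∩ INT j) fB) := by
          rw [Finset.sum_add_distrib]
      _ ≤ ∑ j ∈ Finset.range n, (ENNReal.ofReal (Cs * tot) + ENNReal.ofReal η * cs univ fX
          + ENNReal.ofReal CK * cs (Sol ∩ (INT j)ᶜ) fsh + ENNReal.ofReal C * LW) := by
          apply Finset.sum_le_sum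
          intro j hj
          exact hM j (Finset.mem_range.1 hj)
      _ = (n : ℝ≥0∞) * (ENNReal.ofReal (Cs * tot) + ENNReal.ofReal η * cs univ fX
          + ENNReal.ofReal C * LW) + ENNReal.ofReal CK *
            ∑ j ∈ Finset.range n, cs (Sol ∩ (INT j)ᶜ) fsh := by
          have e : (n : ℝ≥0∞) * (ENNReal.ofReal (Cs * tot) + ENNReal.ofReal η * cs univ fX
              + ENNReal.ofReal C * LW) = ∑ _j ∈ Finset.range n, (ENNReal.ofReal (Cs * tot)
              + ENNReal.ofReal η * cs univ fX + ENNReal.ofReal C * LW) := by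
            rw [Finset.sum_const, Finset.card_range, nsmul_eq_mul]
          rw [Finset.mul_sum, e, ← Finset.sum_add_distrib]
          apply Finset.sum_congr rfl
          intro j _
          ring
      _ ≤ _ := by
          refine add_le_add le_rfl (mul_le_mul_right ?_ _)
          exact sum_cs_le hSol
  -- to the reals
  set x := (cs univ fX).toReal with hx
  set B3 := (cs III fB).toReal with hB3
  set BS := (cs Sol fX).toReal with hBS
  set L := LW.toReal with hL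
  set F := (cs Sol fsh).toReal with hF
  have r1 : ((n : ℝ) - nI) * (BS + B3) ≤ n * (Cs * tot + η * x + C * L) + CK * (nI * F) := by
    have hT : (n : ℝ≥0∞) * (ENNReal.ofReal (Cs * tot) + ENNReal.ofReal η * cs univ fX
        + ENNReal.ofReal C * LW) + ENNReal.ofReal CK * ((nI : ℝ≥0∞) * cs Sol fsh) ≠ ∞ := by
      apply ENNReal.add_ne_top.2
      refine ⟨ENNReal.mul_ne_top (ENNReal.natCast_ne_top n) ?_, ENNReal.mul_ne_top
        ENNReal.ofReal_ne_top (ENNReal.mul_ne_top (ENNReal.natCast_ne_top nI) hFt)⟩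
      exact ENNReal.add_ne_top.2 ⟨ENNReal.add_ne_top.2 ⟨ENNReal.ofReal_ne_top,
        ENNReal.mul_ne_top ENNReal.ofReal_ne_top hXt⟩, ENNReal.mul_ne_top ENNReal.ofReal_ne_top hLt⟩
    have h := ENNReal.toReal_mono hT hsum
    rw [ENNReal.toReal_mul, ENNReal.toReal_add hSt hBt, ENNReal.toReal_natCast,
      ENNReal.toReal_add, ENNReal.toReal_mul, ENNReal.toReal_natCast, ENNReal.toReal_add,
      ENNReal.toReal_add, ENNReal.toReal_mul, ENNReal.toReal_mul, ENNReal.toReal_mul,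
      ENNReal.toReal_mul, ENNReal.toReal_natCast, ENNReal.toReal_ofReal (by positivity),
      ENNReal.toReal_ofReal hη, ENNReal.toReal_ofReal hC.le, ENNReal.toReal_ofReal hCK,
      Nat.cast_sub hnI] at h
    · exact h
    · exact ENNReal.ofReal_ne_top
    · exact ENNReal.mul_ne_top ENNReal.ofReal_ne_top hXt
    · exact ENNReal.add_ne_top.2 ⟨ENNReal.ofReal_ne_top,
        ENNReal.mul_ne_top ENNReal.ofReal_ne_top hXt⟩
    · exact ENNReal.mul_ne_top ENNReal.ofReal_ne_top hLt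
    · exact (ENNReal.add_ne_top.1 hT).1
    · exact (ENNReal.add_ne_top.1 hT).2
  have r2 : F ≤ CK * x + Cs * tot := by
    have hT : ENNReal.ofReal CK * cs univ fX + ENNReal.ofReal (Cs * tot) ≠ ∞ :=
      ENNReal.add_ne_top.2 ⟨ENNReal.mul_ne_top ENNReal.ofReal_ne_top hXt, ENNReal.ofReal_ne_top⟩
    have h := ENNReal.toReal_mono hT hsh
    rwa [ENNReal.toReal_add (ENNReal.add_ne_top.1 hT).1 (ENNReal.add_ne_top.1 hT).2,
      ENNReal.toReal_mul, ENNReal.toReal_ofReal hCK, ENNReal.toReal_ofReal (by positivity)] at h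
  have r3 : L ≤ η * x + η * B3 + Cs * tot := by
    have hT : ENNReal.ofReal η * cs univ fX + ENNReal.ofReal η * cs III fB
        + ENNReal.ofReal (Cs * tot) ≠ ∞ :=
      ENNReal.add_ne_top.2 ⟨ENNReal.add_ne_top.2 ⟨ENNReal.mul_ne_top ENNReal.ofReal_ne_top hXt,
      ENNReal.mul_ne_top ENNReal.ofReal_ne_top hBt⟩, ENNReal.ofReal_ne_top⟩
    have h := ENNReal.toReal_mono hT hLW
    have hT1 := (ENNReal.add_ne_top.1 hT).1
    rwa [ENNReal.toReal_add hT1 (ENNReal.add_ne_top.1 hT).2,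
      ENNReal.toReal_add (ENNReal.add_ne_top.1 hT1).1 (ENNReal.add_ne_top.1 hT1).2,
      ENNReal.toReal_mul, ENNReal.toReal_mul, ENNReal.toReal_ofReal hη,
      ENNReal.toReal_ofReal (by positivity)] at h
  have r4 : x ≤ C * BS + C * L + Cs * tot := by
    have hT : ENNReal.ofReal C * cs Sol fX + ENNReal.ofReal C * LW
        + ENNReal.ofReal (Cs * tot) ≠ ∞ :=
      ENNReal.add_ne_top.2 ⟨ENNReal.add_ne_top.2 ⟨ENNReal.mul_ne_top ENNReal.ofReal_ne_top hSt,
      ENNReal.mul_ne_top ENNReal.ofReal_ne_top hLt⟩, ENNReal.ofReal_ne_top⟩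
    have h := ENNReal.toReal_mono hT hX
    have hT1 := (ENNReal.add_ne_top.1 hT).1
    rwa [ENNReal.toReal_add hT1 (ENNReal.add_ne_top.1 hT).2,
      ENNReal.toReal_add (ENNReal.add_ne_top.1 hT1).1 (ENNReal.add_ne_top.1 hT1).2,
      ENNReal.toReal_mul, ENNReal.toReal_mul, ENNReal.toReal_ofReal hC.le,
      ENNReal.toReal_ofReal (by positivity)] at h
  have hmain := as_real (C := C) (η0 := η0) (CK := CK) (Cs := Cs) (n := n) (nI := nI) (tot := tot)
    (η := η) (x := x) (B3 := B3) (BS := BS) (L := L) (F := F) hC hpos hη1 hη2 hη3 hCK hCs hnpos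
    (Nat.cast_nonneg _) (by linarith) hn2 htot hηη ENNReal.toReal_nonneg
    ENNReal.toReal_nonneg ENNReal.toReal_nonneg r1 r2 r3 r4
  rw [← ENNReal.ofReal_toReal hXt]
  apply ENNReal.ofReal_le_ofReal
  rw [← hx]
  linarith only [htot, hmain]

theorem stmtAS : StmtAS := by
  intro C hC
  obtain ⟨η0, h0, H⟩ := stmtAS2 C hC
  refine ⟨η0, h0, fun CK Cs hCK hCs nI => ?_⟩
  obtain ⟨n0, Hn⟩ := H CK hCK nI
  obtain ⟨C', hC', H'⟩ := Hn Cs hCs
  exact ⟨n0, C', hC', H'⟩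

end

end TG


end

section

/-!
# Sheet lemma (module SA), part 1: test functions and plane integrals (helper65)

Composition of test functions with linear maps, the cut-offs cu1, functions constant along a
direction, integration by parts on planes.  Namespace TG.SAm.
-/

open MeasureTheory Metric Set TrI
open scoped InnerProductSpace ContDiff

namespace TG

namespace SAm

noncomputable section

open TU PF

variable {d : ℕ}

/-! ## tang -/

/-- tang as a continuous linear map -/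
def tangL (ν : Sp d) : Sp d →L[ℝ] Sp d :=
  ContinuousLinearMap.id ℝ (Sp d) - (innerSL ℝ ν).smulRight ν

lemma tangL_apply (ν y : Sp d) : tangL ν y = tang ν y := by
  simp [tangL, tang]

lemma tangL_norm {ν : Sp d} (hν : ‖ν‖ = 1) : ‖tangL ν‖ ≤ 1 := by
  refine ContinuousLinearMap.opNorm_le_bound _ zero_le_one fun y => ?_
  rw [tangL_apply, one_mul]
  exact norm_tang_le hν y

lemma tang_inner {ν : Sp d} (hν : ‖ν‖ = 1) (y : Sp d) : ⟪ν, tang ν y⟫_ℝ = 0 := by
  unfold tang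
  rw [inner_sub_right, inner_smul_right, real_inner_self_eq_norm_sq, hν]
  ring

lemma tang_of_inner {ν y : Sp d} (h : ⟪ν, y⟫_ℝ = 0) : tang ν y = y := by
  unfold tang
  rw [h, zero_smul, sub_zero]

lemma tang_tang {ν : Sp d} (hν : ‖ν‖ = 1) (y : Sp d) : tang ν (tang ν y) = tang ν y :=
  tang_of_inner (tang_inner hν y)

lemma tang_add (ν y z : Sp d) : tang ν (y + z) = tang ν y + tang ν z := by
  rw [← tangL_apply, map_add, tangL_apply, tangL_apply]

lemma tang_sub (ν y z : Sp d) : tang ν (y - z) = tang ν y - tang ν z := by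
  rw [← tangL_apply, map_sub, tangL_apply, tangL_apply]

lemma tang_smul (ν y : Sp d) (t : ℝ) : tang ν (t • y) = t • tang ν y := by
  rw [← tangL_apply, map_smul, tangL_apply]

lemma tang_self {ν : Sp d} (hν : ‖ν‖ = 1) : tang ν ν = 0 := by
  unfold tang
  rw [real_inner_self_eq_norm_sq, hν]
  simp

lemma tang_add_inner (ν y : Sp d) : tang ν y + ⟪ν, y⟫_ℝ • ν = y := by
  unfold tang
  abel

lemma inner_tang_of {ν w : Sp d} (hw : ⟪ν, w⟫_ℝ = 0) (y : Sp d) : ⟪w, tang ν y⟫_ℝ = ⟪w, y⟫_ℝ := by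
  unfold tang
  rw [inner_sub_right, inner_smul_right, real_inner_comm ν w, hw]
  ring

lemma norm_sq_tang {ν : Sp d} (hν : ‖ν‖ = 1) (y : Sp d) :
    ‖y‖ ^ 2 = ‖tang ν y‖ ^ 2 + ⟪ν, y⟫_ℝ ^ 2 := by
  unfold tang
  rw [norm_sub_sq_real, norm_smul, hν, inner_smul_right, real_inner_comm]
  simp
  ring

lemma norm_le_tang {ν : Sp d} (hν : ‖ν‖ = 1) (y : Sp d) : ‖y‖ ≤ ‖tang ν y‖ + |⟪ν, y⟫_ℝ| := by
  conv_lhs => rw [← tang_add_inner ν y]
  refine (norm_add_le _ _).trans ?_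
  rw [norm_smul, hν, mul_one, Real.norm_eq_abs]

/-! ## test functions -/

section T

variable {F : Type*} [NormedAddCommGroup F] [NormedSpace ℝ F]
  {G : Type*} [NormedAddCommGroup G] [NormedSpace ℝ G]

/-- composition with a linear contraction and a translation -/
lemma TFn_lin {J : ℕ} {N : ℝ} {g : G → F} (hs : ContDiff ℝ J g)
    (hb : ∀ j ≤ J, ∀ z, ‖iteratedFDeriv ℝ j g z‖ ≤ N) {A : Sp d →L[ℝ] G} (hA : ‖A‖ ≤ 1) (p : G) :
    TFn J N (fun y => g (A y + p)) where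
  smooth := by
    have h1 : ContDiff ℝ J fun y : Sp d => A y + p := by fun_prop
    exact hs.comp h1
  bd := by
    intro j hj y
    set g' : G → F := fun z => g (z + p) with hg'
    have hs' : ContDiff ℝ J g' := by
      have h1 : ContDiff ℝ J fun y : G => y + p := by fun_prop
      exact hs.comp h1
    have e1 : (fun y => g (A y + p)) = g' ∘ A := rfl
    rw [e1, A.iteratedFDeriv_comp_right hs' y (by exact_mod_cast hj)]
    refine (ContinuousMultilinearMap.norm_compContinuousLinearMap_le _ _).trans ?_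
    have h2 : iteratedFDeriv ℝ j g' (A y) = iteratedFDeriv ℝ j g (A y + p) := by
      rw [hg', iteratedFDeriv_comp_add_right]
    rw [h2]
    have h3 : ∏ _i : Fin j, ‖A‖ ≤ 1 := by
      rw [Finset.prod_const]
      exact pow_le_one₀ (norm_nonneg _) hA
    calc ‖iteratedFDeriv ℝ j g (A y + p)‖ * ∏ _i : Fin j, ‖A‖
        ≤ ‖iteratedFDeriv ℝ j g (A y + p)‖ * 1 :=
          mul_le_mul_of_nonneg_left h3 (norm_nonneg _)
      _ ≤ N := by rw [mul_one]; exact hb j hj _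

lemma TFn_linS {J : ℕ} {N : ℝ} {g : Sp d → F} (h : TFn J N g) {A : Sp d →L[ℝ] Sp d}
    (hA : ‖A‖ ≤ 1) (p : Sp d) : TFn J N (fun y => g (A y + p)) :=
  TFn_lin h.smooth h.bd hA p

/-- freezing the normal variable -/
lemma TFn_tang {J : ℕ} {N : ℝ} {g : Sp d → F} (h : TFn J N g) {ν : Sp d} (hν : ‖ν‖ = 1)
    (p : Sp d) : TFn J N (fun y => g (tang ν y + p)) := by
  have h1 := TFn_linS h (tangL_norm hν) p
  simpa only [tangL_apply] using h1

lemma TFn_tang0 {J : ℕ} {N : ℝ} {g : Sp d → F} (h : TFn J N g) {ν : Sp d} (hν : ‖ν‖ = 1) :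
    TFn J N (fun y => g (tang ν y)) := by
  have h1 := TFn_tang h hν 0
  simpa only [add_zero] using h1

omit [NormedSpace ℝ F] in
lemma Cyl_tang {g : Sp d → F} {ν : Sp d} (hν : ‖ν‖ = 1) {ρ : ℝ} (p : Sp d)
    (hg : ∀ y, ⟪ν, y⟫_ℝ = 0 → g (y + p) ≠ 0 → ‖y‖ ≤ ρ) : Cyl ν ρ (fun y => g (tang ν y + p)) where
  const := fun y => by rw [tang_tang hν]
  supp := fun y hy => hg (tang ν y) (tang_inner hν y) hy

omit [NormedSpace ℝ F] in
lemma Cyl_tang0 {g : Sp d → F} {ν : Sp d} (hν : ‖ν‖ = 1) {ρ : ℝ}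
    (hg : ∀ y, g y ≠ 0 → ‖y‖ ≤ ρ) : Cyl ν ρ (fun y => g (tang ν y)) where
  const := fun y => by rw [tang_tang hν]
  supp := fun y hy => hg (tang ν y) hy

/-- directional derivative -/
lemma TFn_fderiv {J : ℕ} {N : ℝ} {g : Sp d → F} (h : TFn (J + 1) N g) (w : Sp d) :
    TFn J (‖w‖ * N) (fun y => fderiv ℝ g y w) where
  smooth := by
    have h1 : ContDiff ℝ J (fderiv ℝ g) := h.smooth.fderiv_right (by norm_cast)
    exact h1.clm_apply contDiff_const
  bd := by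
    intro j hj y
    have h1 : ContDiff ℝ J (fderiv ℝ g) := h.smooth.fderiv_right (by norm_cast)
    have e1 : (fun y => fderiv ℝ g y w) =
        (ContinuousLinearMap.apply ℝ F w) ∘ (fderiv ℝ g) := rfl
    rw [e1, (ContinuousLinearMap.apply ℝ F w).iteratedFDeriv_comp_left
      h1.contDiffAt (by exact_mod_cast hj)]
    refine ((ContinuousLinearMap.apply ℝ F w).norm_compContinuousMultilinearMap_le _).trans ?_
    have h2 : ‖ContinuousLinearMap.apply ℝ F w‖ ≤ ‖w‖ := by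
      refine ContinuousLinearMap.opNorm_le_bound _ (norm_nonneg _) fun A => ?_
      rw [ContinuousLinearMap.apply_apply, mul_comm]
      exact A.le_opNorm w
    refine mul_le_mul h2 ?_ (norm_nonneg _) (norm_nonneg _)
    rw [norm_iteratedFDeriv_fderiv]
    exact h.bd (j + 1) (by omega) y

/-- scalar function times a constant vector -/
lemma TFn_vec {J : ℕ} {N : ℝ} {χ : Sp d → ℝ} (h : TFn J N χ) (w : F) :
    TFn J (‖w‖ * N) (fun y => χ y • w) where
  smooth := h.smooth.smul contDiff_const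
  bd := by
    intro j hj y
    have e1 : (fun y => χ y • w) =
        ((ContinuousLinearMap.id ℝ ℝ).smulRight w) ∘ χ := by
      funext y
      simp
    rw [e1, ((ContinuousLinearMap.id ℝ ℝ).smulRight w).iteratedFDeriv_comp_left
      h.smooth.contDiffAt (by exact_mod_cast hj)]
    refine (((ContinuousLinearMap.id ℝ ℝ).smulRight w).norm_compContinuousMultilinearMap_le
      _).trans ?_
    have h2 : ‖(ContinuousLinearMap.id ℝ ℝ).smulRight w‖ ≤ ‖w‖ := by
      refine ContinuousLinearMap.opNorm_le_bound _ (norm_nonneg _) fun t => ?_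
      simp only [ContinuousLinearMap.smulRight_apply, ContinuousLinearMap.id_apply]
      rw [norm_smul, mul_comm]
    exact mul_le_mul h2 (h.bd j hj y) (norm_nonneg _) (norm_nonneg _)

end T

lemma lin_smooth (w : Sp d) (o : ℝ) {n : WithTop ℕ∞} :
    ContDiff ℝ n (fun y : Sp d => ⟪w, y⟫_ℝ + o) :=
  (contDiff_const.inner ℝ contDiff_id).add contDiff_const

lemma lin_fderiv (w : Sp d) (o : ℝ) (y : Sp d) :
    HasFDerivAt (fun y : Sp d => ⟪w, y⟫_ℝ + o) (innerSL ℝ w) y :=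
  ((innerSL ℝ w).hasFDerivAt (x := y)).add_const o

/-- derivatives of affine functions -/
lemma lin_bd (w : Sp d) (o : ℝ) (y : Sp d) :
    ∀ j : ℕ, ‖iteratedFDeriv ℝ j (fun y : Sp d => ⟪w, y⟫_ℝ + o) y‖ ≤
      ‖w‖ * (1 + ‖y‖) + |o|
  | 0 => by
    rw [norm_iteratedFDeriv_zero, Real.norm_eq_abs]
    refine (abs_add_le _ _).trans (add_le_add ?_ le_rfl)
    refine (abs_real_inner_le_norm w y).trans ?_
    nlinarith [norm_nonneg w, norm_nonneg y]
  | 1 => by
    rw [norm_iteratedFDeriv_one, (lin_fderiv w o y).fderiv, innerSL_apply_norm]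
    nlinarith [norm_nonneg w, norm_nonneg y, abs_nonneg o, mul_nonneg (norm_nonneg w) (norm_nonneg y)]
  | j + 2 => by
    have h1 : fderiv ℝ (fun y : Sp d => ⟪w, y⟫_ℝ + o) = fun _ => innerSL ℝ w := by
      funext z
      exact (lin_fderiv w o z).fderiv
    rw [← norm_iteratedFDeriv_fderiv, h1, iteratedFDeriv_const_of_ne (Nat.succ_ne_zero j)]
    have := norm_nonneg w
    have := norm_nonneg y
    simp only [Pi.zero_apply, norm_zero]
    positivity

/-- affine function times a test function supported in a ball -/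
lemma TFn_mul_lin {J : ℕ} {N ρ : ℝ} {φ : Sp d → ℝ} (h : TFn J N φ) (hρ : 0 ≤ ρ)
    (hs : ∀ y, ρ < ‖y‖ → φ y = 0) (w : Sp d) (o : ℝ) :
    TFn J (2 ^ J * (N * (‖w‖ * (1 + ρ) + |o|))) (fun y => φ y * (⟪w, y⟫_ℝ + o)) := by
  refine TFn_mul_ball (x₀ := 0) (ρ := ρ) h (by simpa using hs) (lin_smooth w o) ?_ (by positivity)
  intro j _ y hy
  rw [sub_zero] at hy
  refine (lin_bd w o y j).trans ?_
  gcongr

/-! ## the smooth transition and cu1 -/

lemma sT_bd (J : ℕ) : ∃ N : ℝ, 0 < N ∧ ∀ j ≤ J, ∀ z : ℝ,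
    ‖iteratedFDeriv ℝ j Real.smoothTransition z‖ ≤ N := by
  have hs : ContDiff ℝ ∞ Real.smoothTransition := Real.smoothTransition.contDiff
  have h1 : ∀ j : ℕ, ∃ N : ℝ, 0 < N ∧ ∀ z : ℝ,
      ‖iteratedFDeriv ℝ j Real.smoothTransition z‖ ≤ N := by
    intro j
    rcases Nat.eq_zero_or_pos j with rfl | hj
    · refine ⟨1, one_pos, fun z => ?_⟩
      rw [norm_iteratedFDeriv_zero, Real.norm_eq_abs, abs_of_nonneg (Real.smoothTransition.nonneg _)]
      exact Real.smoothTransition.le_one _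
    · have hc : Continuous (iteratedFDeriv ℝ j Real.smoothTransition) :=
        hs.continuous_iteratedFDeriv (by exact_mod_cast le_top)
      obtain ⟨N, hN⟩ := (isCompact_Icc (a := (0 : ℝ)) (b := 1)).exists_bound_of_continuousOn
        hc.continuousOn
      refine ⟨max N 1, by positivity, fun z => ?_⟩
      rcases lt_or_ge z 0 with hz | hz
      · have h2 : Real.smoothTransition =ᶠ[nhds z] fun _ => 0 := by
          filter_upwards [Iio_mem_nhds hz] with t ht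
          exact Real.smoothTransition.zero_of_nonpos ht.le
        rw [(h2.iteratedFDeriv ℝ j).eq_of_nhds, iteratedFDeriv_const_of_ne (by omega)]
        simp
      · rcases le_or_gt z 1 with hz1 | hz1
        · exact (hN z ⟨hz, hz1⟩).trans (le_max_left _ _)
        · have h2 : Real.smoothTransition =ᶠ[nhds z] fun _ => 1 := by
            filter_upwards [Ioi_mem_nhds hz1] with t ht
            exact Real.smoothTransition.one_of_one_le (le_of_lt ht)
          rw [(h2.iteratedFDeriv ℝ j).eq_of_nhds, iteratedFDeriv_const_of_ne (by omega)]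
          simp
  choose N hN0 hN using h1
  refine ⟨∑ j ∈ Finset.range (J + 1), N j, Finset.sum_pos (fun j _ => hN0 j) (by simp), ?_⟩
  intro j hj z
  refine (hN j z).trans ?_
  exact Finset.single_le_sum (f := N) (fun i _ => (hN0 i).le) (Finset.mem_range.2 (by omega))

lemma cu1_eq {ρ : ℝ} (hρ : 0 ≤ ρ) (z : ℝ) :
    cu1 ρ z = Real.smoothTransition (ρ + 1 - z) * Real.smoothTransition (ρ + 1 + z) := by
  unfold cu1
  rcases le_total 0 z with h | h
  · rw [abs_of_nonneg h, Real.smoothTransition.one_of_one_le (show 1 ≤ ρ + 1 + z by linarith),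
      mul_one]
  · rw [abs_of_nonpos h, Real.smoothTransition.one_of_one_le (show 1 ≤ ρ + 1 - z by linarith),
      one_mul, sub_neg_eq_add]

lemma cu1_nonneg (ρ z : ℝ) : 0 ≤ cu1 ρ z := Real.smoothTransition.nonneg _

lemma cu1_le_one (ρ z : ℝ) : cu1 ρ z ≤ 1 := Real.smoothTransition.le_one _

lemma cu1_one {ρ z : ℝ} (h : |z| ≤ ρ) : cu1 ρ z = 1 :=
  Real.smoothTransition.one_of_one_le (by linarith)

lemma cu1_zero {ρ z : ℝ} (h : ρ + 1 ≤ |z|) : cu1 ρ z = 0 :=
  Real.smoothTransition.zero_of_nonpos (by linarith)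

/-- cut-offs of the height -/
lemma cu1_TFn (d J : ℕ) : ∃ N : ℝ, 0 < N ∧ ∀ ρ : ℝ, 0 ≤ ρ → ∀ (ν : Sp d) (c : ℝ), ‖ν‖ = 1 →
    TFn J N (fun y => cu1 ρ (ht ν c y)) := by
  obtain ⟨N, hN, hb⟩ := sT_bd J
  refine ⟨2 ^ J * (N * N), by positivity, ?_⟩
  intro ρ hρ ν c hν
  have hs : ContDiff ℝ J Real.smoothTransition := Real.smoothTransition.contDiff
  have h1 := TFn_lin (d := d) hs hb (A := -innerSL ℝ ν)
    (by rw [norm_neg, innerSL_apply_norm, hν]) (ρ + 1 + c)
  have h2 := TFn_lin (d := d) hs hb (A := innerSL ℝ ν)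
    (by rw [innerSL_apply_norm, hν]) (ρ + 1 - c)
  have h3 := TFn_mul h1 h2
  have e : (fun y => cu1 ρ (ht ν c y)) = fun y : Sp d =>
      Real.smoothTransition ((-innerSL ℝ ν) y + (ρ + 1 + c)) *
        Real.smoothTransition ((innerSL ℝ ν) y + (ρ + 1 - c)) := by
    funext y
    rw [cu1_eq hρ]
    unfold ht
    simp only [_root_.neg_apply, innerSL_apply_apply]
    congr 2 <;> ring
  rw [e]
  exact h3

end

end SAm

end TG


end

section

/-!
# Sheet lemma (module SA), part 2: plane integrals (helper65)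
-/

open MeasureTheory Metric Set TrI
open scoped InnerProductSpace ContDiff

namespace TG

namespace SAm

noncomputable section

open TU PF

variable {d : ℕ}

/-! ## linearity -/

lemma plInt_add {ν : Sp d} (hν : ‖ν‖ = 1) {F G : Sp d → ℝ} (hF : Continuous F)
    (hG : Continuous G) {ρ ρ' : ℝ} (hFs : ∀ y, F y ≠ 0 → ‖tang ν y‖ ≤ ρ)
    (hGs : ∀ y, G y ≠ 0 → ‖tang ν y‖ ≤ ρ') (c : ℝ) :
    plInt ν c (fun y => F y + G y) = plInt ν c F + plInt ν c G :=
  integral_add (integrable_pl hν hF hFs c) (integrable_pl hν hG hGs c)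

lemma plInt_sub {ν : Sp d} (hν : ‖ν‖ = 1) {F G : Sp d → ℝ} (hF : Continuous F)
    (hG : Continuous G) {ρ ρ' : ℝ} (hFs : ∀ y, F y ≠ 0 → ‖tang ν y‖ ≤ ρ)
    (hGs : ∀ y, G y ≠ 0 → ‖tang ν y‖ ≤ ρ') (c : ℝ) :
    plInt ν c (fun y => F y - G y) = plInt ν c F - plInt ν c G :=
  integral_sub (integrable_pl hν hF hFs c) (integrable_pl hν hG hGs c)

lemma plInt_mul (ν : Sp d) (c a : ℝ) (F : Sp d → ℝ) :
    plInt ν c (fun y => a * F y) = a * plInt ν c F :=
  integral_const_mul _ _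

lemma plInt_neg (ν : Sp d) (c : ℝ) (F : Sp d → ℝ) :
    plInt ν c (fun y => -F y) = -plInt ν c F :=
  integral_neg _

lemma inner_plane {ν : Sp d} (hν : ‖ν‖ = 1) (c : ℝ) (y : Pl ν) :
    ⟪ν, c • ν + (y : Sp d)⟫_ℝ = c := by
  rw [inner_add_right, inner_smul_right, real_inner_self_eq_norm_sq, hν, inner_pl]
  ring

lemma plInt_congr {ν : Sp d} (hν : ‖ν‖ = 1) {c : ℝ} {F G : Sp d → ℝ}
    (h : ∀ y, ⟪ν, y⟫_ℝ = c → F y = G y) : plInt ν c F = plInt ν c G := by
  unfold plInt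
  congr 1
  funext y
  exact h _ (inner_plane hν c y)

lemma plInt_cyl {ν : Sp d} (hν : ‖ν‖ = 1) {F : Sp d → ℝ} (h : ∀ y, F y = F (tang ν y))
    (c c' : ℝ) : plInt ν c F = plInt ν c' F := by
  unfold plInt
  congr 1
  funext y
  rw [h, tang_pl hν, h (c' • ν + (y : Sp d)), tang_pl hν]

lemma plInt_nonneg (ν : Sp d) (c : ℝ) {F : Sp d → ℝ} (h : ∀ y, 0 ≤ F y) : 0 ≤ plInt ν c F :=
  integral_nonneg fun _ => h _

/-! ## bounds -/

lemma norm_plane {ν : Sp d} (hν : ‖ν‖ = 1) (c : ℝ) (y : Pl ν) :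
    ‖c • ν + (y : Sp d)‖ ^ 2 = ‖y‖ ^ 2 + c ^ 2 := by
  rw [norm_sq_tang hν, tang_pl hν, inner_plane hν]
  rfl

lemma pl_bound (hd : 1 ≤ d) (ρ : ℝ) : ∃ C : ℝ, 0 < C ∧ ∀ (ν : Sp d), ‖ν‖ = 1 →
    ∀ (g : Pl ν → ℝ) (N : ℝ), (∀ y, |g y| ≤ N) → (∀ y, g y ≠ 0 → ‖y‖ ≤ ρ) →
      |∫ y, g y| ≤ C * N := by
  obtain ⟨n, rfl⟩ : ∃ n, d = n + 1 := ⟨d - 1, by omega⟩
  refine ⟨(volume (closedBall (0 : Sp n) ρ)).toReal + 1, by positivity, ?_⟩
  intro ν hν g N hN hs
  have hN0 : 0 ≤ N := le_trans (abs_nonneg _) (hN 0)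
  have hi : ∫ y, g y = ∫ y in closedBall (0 : Pl ν) ρ, g y := by
    symm
    refine setIntegral_eq_integral_of_forall_compl_eq_zero fun y hy => ?_
    by_contra h
    exact hy (by simpa using hs y h)
  rw [hi]
  have h1 := norm_setIntegral_le_of_norm_le_const (μ := volume) (s := closedBall (0 : Pl ν) ρ)
    (f := g) (C := N) measure_closedBall_lt_top (fun y _ => by
      rw [Real.norm_eq_abs]
      exact hN y)
  rw [Real.norm_eq_abs] at h1
  refine h1.trans ?_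
  rw [Measure.real, vol n ν hν ρ, mul_comm]
  exact mul_le_mul_of_nonneg_right (by linarith) hN0

lemma plInt_bound (hd : 1 ≤ d) (ρ : ℝ) : ∃ C : ℝ, 0 < C ∧ ∀ (ν : Sp d), ‖ν‖ = 1 →
    ∀ (F : Sp d → ℝ) (c N : ℝ), 0 ≤ N → (∀ y, ⟪ν, y⟫_ℝ = c → |F y| ≤ N) →
      (∀ y, ⟪ν, y⟫_ℝ = c → F y ≠ 0 → ‖tang ν y‖ ≤ ρ) → |plInt ν c F| ≤ C * N := by
  obtain ⟨C, hC, h⟩ := pl_bound hd ρ
  refine ⟨C, hC, fun ν hν F c N hN hb hs => ?_⟩
  refine h ν hν _ N (fun y => hb _ (inner_plane hν c y)) fun y hy => ?_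
  have := hs _ (inner_plane hν c y) hy
  rw [tang_pl hν] at this
  simpa using this

/-- the bump function on planes -/
def chp (ν : Sp d) (y : Sp d) : ℝ := zR 1 (tang ν y)

lemma chp_lower (hd : 1 ≤ d) : ∃ v : ℝ, 0 < v ∧ ∀ (ν : Sp d) (c : ℝ), ‖ν‖ = 1 →
    v ≤ plInt ν c (chp ν) := by
  obtain ⟨n, rfl⟩ : ∃ n, d = n + 1 := ⟨d - 1, by omega⟩
  refine ⟨(volume (closedBall (0 : Sp n) 1)).toReal, ?_, ?_⟩
  · exact ENNReal.toReal_pos (measure_closedBall_pos _ _ one_pos).ne'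
      measure_closedBall_lt_top.ne
  · intro ν c hν
    have h1 : (volume (closedBall (0 : Sp n) 1)).toReal =
        ∫ y in closedBall (0 : Pl ν) 1, (1 : ℝ) := by
      rw [setIntegral_const, Measure.real, vol n ν hν 1]
      simp
    rw [h1, ← integral_indicator measurableSet_closedBall]
    unfold plInt
    refine integral_mono_of_nonneg (Filter.Eventually.of_forall fun y => ?_) ?_
      (Filter.Eventually.of_forall fun y => ?_)
    · exact indicator_nonneg (fun _ _ => zero_le_one) _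
    · refine integrable_pl (F := chp ν) (ρ := 2) hν ?_ ?_ c
      · have h2 : Continuous (zR 1 : Sp (n + 1) → ℝ) := (zR_smooth one_pos).continuous
        have h3 : Continuous (tang ν : Sp (n + 1) → Sp (n + 1)) := by
          unfold tang
          fun_prop
        exact h2.comp h3
      · intro y hy
        by_contra h
        push Not at h
        exact hy (zR_zero (by linarith))
    · simp only [chp]
      rw [tang_pl hν]
      by_cases hy : y ∈ closedBall (0 : Pl ν) 1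
      · rw [indicator_of_mem hy, zR_one]
        simpa using hy
      · rw [indicator_of_notMem hy]
        exact zR_nonneg _ _

lemma tang_cont (ν : Sp d) : Continuous (tang ν : Sp d → Sp d) := by
  unfold tang
  fun_prop

lemma chp_TFn (J : ℕ) : ∃ N : ℝ, 0 < N ∧ ∀ ν : Sp d, ‖ν‖ = 1 → TFn J N (chp ν) := by
  obtain ⟨N, hN, h⟩ := TFn_of_cs (J := J) (ζ := (zR 1 : Sp d → ℝ))
    ((zR_smooth one_pos).of_le (by exact_mod_cast le_top)) (zR_cs 1)
  exact ⟨N, hN, fun ν hν => TFn_tang0 h hν⟩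

lemma chp_cyl {ν : Sp d} (hν : ‖ν‖ = 1) : Cyl ν 2 (chp ν) :=
  Cyl_tang0 hν fun y hy => by
    by_contra h
    push Not at h
    exact hy (zR_zero (by linarith))

/-! ## integration by parts -/

section Parts

variable {Y : Sp d → Sp d} {ν w : Sp d} {ρ : ℝ}

lemma cyl_fderiv_normal (hν : ‖ν‖ = 1) (hC : ∀ y, Y y = Y (tang ν y)) (hY : ContDiff ℝ 1 Y)
    (y : Sp d) : fderiv ℝ Y y ν = 0 := by
  have h1 : Y = Y ∘ (tangL ν) := by
    funext z
    simp only [Function.comp_apply, tangL_apply]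
    exact hC z
  have h2 : HasFDerivAt (Y ∘ (tangL ν)) ((fderiv ℝ Y (tangL ν y)).comp (tangL ν)) y :=
    ((hY.differentiable one_ne_zero) _).hasFDerivAt.comp y (tangL ν).hasFDerivAt
  rw [← h1] at h2
  rw [h2.fderiv, ContinuousLinearMap.comp_apply, tangL_apply, tangL_apply, tang_self hν, map_zero]

lemma fderiv_coord (hY : ContDiff ℝ 1 Y) (j : Fin d) (y t : Sp d) :
    fderiv ℝ (fun z => Y z j) y t = (fderiv ℝ Y y t) j := by
  have h1 : HasFDerivAt (fun z => Y z j)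
      ((EuclideanSpace.proj j : Sp d →L[ℝ] ℝ).comp (fderiv ℝ Y y)) y :=
    (EuclideanSpace.proj j : Sp d →L[ℝ] ℝ).hasFDerivAt.comp y
      ((hY.differentiable one_ne_zero) _).hasFDerivAt
  rw [h1.fderiv]
  rfl

lemma dv_tang (hν : ‖ν‖ = 1) (hC : ∀ y, Y y = Y (tang ν y)) (hY : ContDiff ℝ 1 Y) (y : Sp d) :
    dv Y y = ∑ j : Fin d,
      fderiv ℝ (fun z => Y z j) y (tang ν (EuclideanSpace.single j (1 : ℝ))) := by
  unfold dv
  refine Finset.sum_congr rfl fun j _ => ?_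
  rw [fderiv_coord hY]
  have h : fderiv ℝ Y y (EuclideanSpace.single j (1 : ℝ)) =
      fderiv ℝ Y y (tang ν (EuclideanSpace.single j (1 : ℝ))) := by
    conv_lhs => rw [← tang_add_inner ν (EuclideanSpace.single j (1 : ℝ))]
    rw [map_add, map_smul, cyl_fderiv_normal hν hC hY, smul_zero, add_zero]
  rw [h]

lemma fderiv_zero_of {G : Type*} [NormedAddCommGroup G] [NormedSpace ℝ G] {g : Sp d → G}
    (hs : ∀ y, g y ≠ 0 → ‖tang ν y‖ ≤ ρ) {y : Sp d} (hy : ρ < ‖tang ν y‖) :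
    fderiv ℝ g y = 0 := by
  have h1 : g =ᶠ[nhds y] fun _ => 0 := by
    have h2 : {z : Sp d | ρ < ‖tang ν z‖} ∈ nhds y :=
      (isOpen_lt continuous_const (tang_cont ν).norm).mem_nhds hy
    filter_upwards [h2] with z hz
    by_contra h
    exact absurd (hs z h) (not_le.2 hz)
  rw [h1.fderiv_eq]
  simp

/-- integration by parts against linear functions -/
lemma dv_plInt (hd : 1 ≤ d) (hν : ‖ν‖ = 1) (hw : ⟪ν, w⟫_ℝ = 0) (hY : ContDiff ℝ 1 Y)
    (hC : Cyl ν ρ Y) (c : ℝ) :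
    plInt ν c (fun y => ⟪w, y⟫_ℝ * dv Y y) = -plInt ν c (fun y => ⟪w, Y y⟫_ℝ) := by
  have hPF := ((stmtPF d hd).2 ν hν).2.2.2.2.2
  set e : Fin d → Sp d := fun j => EuclideanSpace.single j (1 : ℝ) with he
  have hYj : ∀ j : Fin d, ContDiff ℝ 1 (fun z => Y z j) := fun j =>
    (EuclideanSpace.proj j : Sp d →L[ℝ] ℝ).contDiff.comp hY
  have hYc : ∀ (j : Fin d) (t : Sp d), Continuous (fun y => fderiv ℝ (fun z => Y z j) y t) :=
    fun j t => ((hYj j).continuous_fderiv one_ne_zero).clm_apply continuous_const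
  have hYs : ∀ (j : Fin d) (y : Sp d), Y y j ≠ 0 → ‖tang ν y‖ ≤ ρ := fun j y hy =>
    hC.supp y fun h => hy (by rw [h]; rfl)
  have hYds : ∀ (j : Fin d) (t y : Sp d), fderiv ℝ (fun z => Y z j) y t ≠ 0 → ‖tang ν y‖ ≤ ρ := by
    intro j t y hy
    by_contra h
    push Not at h
    exact hy (by rw [fderiv_zero_of (hYs j) h]; rfl)
  have hwc : Continuous (fun y : Sp d => ⟪w, y⟫_ℝ) := by fun_prop
  -- each term
  have hterm : ∀ j : Fin d, plInt ν c (fun y => ⟪w, y⟫_ℝ *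
      fderiv ℝ (fun z => Y z j) y (tang ν (e j))) = -(w j * plInt ν c (fun y => Y y j)) := by
    intro j
    have h1 := hPF (fun y => ⟪w, y⟫_ℝ * Y y j) ((contDiff_const.inner ℝ contDiff_id).mul (hYj j))
      (fun y => by
        simp only
        rw [inner_tang_of hw, ← hC.const])
      ⟨ρ, fun y hy => hYs j y (right_ne_zero_of_mul hy)⟩ c (tang ν (e j)) (tang_inner hν _)
    have h2 : ∀ y, fderiv ℝ (fun y => ⟪w, y⟫_ℝ * Y y j) y (tang ν (e j)) =
        w j * Y y j + ⟪w, y⟫_ℝ * fderiv ℝ (fun z => Y z j) y (tang ν (e j)) := by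
      intro y
      have h3 : HasFDerivAt (fun y : Sp d => ⟪w, y⟫_ℝ) (innerSL ℝ w) y :=
        (innerSL ℝ w).hasFDerivAt
      have h4 : HasFDerivAt (fun y => ⟪w, y⟫_ℝ * Y y j) _ y :=
        h3.mul (((hYj j).differentiable one_ne_zero) y).hasFDerivAt
      rw [h4.fderiv]
      simp only [ContinuousLinearMap.add_apply, ContinuousLinearMap.smul_apply, smul_eq_mul,
        innerSL_apply_apply]
      rw [inner_tang_of hw]
      have h5 : ⟪w, e j⟫_ℝ = w j := by
        rw [he]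
        simp [EuclideanSpace.inner_single_right]
      rw [h5]
      ring
    simp only [h2] at h1
    rw [plInt_add hν (F := fun y => w j * Y y j)
      (G := fun y => ⟪w, y⟫_ℝ * fderiv ℝ (fun z => Y z j) y (tang ν (e j)))
      (continuous_const.mul (hYj j).continuous) (hwc.mul (hYc j _))
      (ρ := ρ) (ρ' := ρ) (fun y hy => hYs j y (right_ne_zero_of_mul hy))
      (fun y hy => hYds j _ y (right_ne_zero_of_mul hy)), plInt_mul] at h1
    linarith
  have hsum : ∀ (S : Finset (Fin d)), plInt ν c (fun y => ∑ j ∈ S, ⟪w, y⟫_ℝ *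
      fderiv ℝ (fun z => Y z j) y (tang ν (e j))) =
      ∑ j ∈ S, plInt ν c (fun y => ⟪w, y⟫_ℝ *
        fderiv ℝ (fun z => Y z j) y (tang ν (e j))) := by
    intro S
    unfold plInt
    rw [integral_finsetSum]
    intro j _
    exact integrable_pl (F := fun y => ⟪w, y⟫_ℝ * fderiv ℝ (fun z => Y z j) y (tang ν (e j)))
      hν (hwc.mul (hYc j _)) (ρ := ρ) (fun y hy => hYds j _ y (right_ne_zero_of_mul hy)) c
  have hsum2 : ∀ (S : Finset (Fin d)), plInt ν c (fun y => ∑ j ∈ S, w j * Y y j) =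
      ∑ j ∈ S, w j * plInt ν c (fun y => Y y j) := by
    intro S
    unfold plInt
    rw [integral_finsetSum]
    · refine Finset.sum_congr rfl fun j _ => ?_
      rw [integral_const_mul]
    · intro j _
      exact integrable_pl (F := fun y => w j * Y y j)
        hν (continuous_const.mul (hYj j).continuous) (ρ := ρ)
        (fun y hy => hYs j y (right_ne_zero_of_mul hy)) c
  have h6 : (fun y => ⟪w, y⟫_ℝ * dv Y y) = fun y => ∑ j ∈ Finset.univ, ⟪w, y⟫_ℝ *
      fderiv ℝ (fun z => Y z j) y (tang ν (e j)) := by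
    funext y
    rw [dv_tang hν hC.const hY, Finset.mul_sum]
  have h7 : (fun y => ⟪w, Y y⟫_ℝ) = fun y => ∑ j ∈ Finset.univ, w j * Y y j := by
    funext y
    simp [PiLp.inner_apply, mul_comm]
  rw [h6, h7, hsum, hsum2, ← Finset.sum_neg_distrib]
  exact Finset.sum_congr rfl fun j _ => hterm j

end Parts

end

end SAm

end TG


end

section

/-!
# Sheet lemma (module SA), part 3: comparison of the integrals over two close planes (helper65)
-/

open MeasureTheory Metric Set TrI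
open scoped InnerProductSpace ContDiff

namespace TG

namespace SAm

noncomputable section

open TU PF

variable {d : ℕ}

/-- Taylor inequality -/
lemma taylor2 {H : Sp d → ℝ} {N : ℝ} (hH : TFn 2 N H) (x v : Sp d) :
    |H (x + v) - H x - fderiv ℝ H x v| ≤ N * ‖v‖ ^ 2 := by
  have hN := TFn_nonneg hH
  have hs : ContDiff ℝ 2 H := hH.smooth
  have hd : Differentiable ℝ H := hs.differentiable (by norm_num)
  have hD : ContDiff ℝ 1 (fderiv ℝ H) := hs.fderiv_right (by norm_num)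
  have hDd : Differentiable ℝ (fderiv ℝ H) := hD.differentiable (by norm_num)
  have hbd : ∀ y, ‖fderiv ℝ (fderiv ℝ H) y‖ ≤ N := fun y => by
    have : ‖fderiv ℝ (fderiv ℝ H) y‖ = ‖iteratedFDeriv ℝ 2 H y‖ := by
      rw [show (2 : ℕ) = 1 + 1 from rfl, ← norm_iteratedFDeriv_fderiv,
        norm_iteratedFDeriv_one]
    rw [this]
    exact hH.bd 2 le_rfl y
  have hlip : ∀ y, ‖fderiv ℝ H y - fderiv ℝ H x‖ ≤ N * ‖y - x‖ := fun y => by
    have := Convex.norm_image_sub_le_of_norm_fderiv_le (𝕜 := ℝ) (f := fderiv ℝ H) (s := univ)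
      (C := N) (x := x) (y := y) (fun z _ => hDd z) (fun z _ => hbd z) convex_univ (mem_univ _)
      (mem_univ _)
    simpa using this
  have h3 := (convex_closedBall x ‖v‖).norm_image_sub_le_of_norm_fderiv_le' (𝕜 := ℝ) (f := H)
    (φ := fderiv ℝ H x) (C := N * ‖v‖) (x := x) (y := x + v) (fun z _ => hd z)
    (fun z hz => (hlip z).trans (by
      rw [mem_closedBall, dist_eq_norm] at hz
      exact mul_le_mul_of_nonneg_left hz hN))
    (mem_closedBall_self (norm_nonneg v)) (by simp [mem_closedBall, dist_eq_norm])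
  rw [Real.norm_eq_abs, add_sub_cancel_left] at h3
  rw [pow_two, ← mul_assoc]
  exact h3

/-- reflection mapping ν^⊥ to ν'^⊥ -/
def Qr (ν ν' : Sp d) : Sp d ≃ₗᵢ[ℝ] Sp d := (Submodule.span ℝ {ν + ν'})ᗮ.reflection

lemma Qr_apply (ν ν' y : Sp d) :
    Qr ν ν' y = y - (2 * (⟪ν + ν', y⟫_ℝ / ‖ν + ν'‖ ^ 2)) • (ν + ν') := by
  unfold Qr
  rw [Submodule.reflection_orthogonal_apply, Submodule.reflection_singleton_apply, neg_sub,
    mul_smul, two_smul, two_smul]
  rfl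

lemma Qr_self {ν ν' : Sp d} (hν : ‖ν‖ = 1) (hν' : ‖ν'‖ = 1) : Qr ν ν' ν = -ν' := by
  have h := Submodule.reflection_sub (v := ν) (w := -ν') (by rw [norm_neg, hν, hν'])
  rw [sub_neg_eq_add] at h
  exact h

lemma Qr_symm (ν ν' y : Sp d) : (Qr ν ν').symm y = Qr ν ν' y := by
  unfold Qr
  rw [Submodule.reflection_symm]

lemma Qr_map {ν ν' : Sp d} (hν : ‖ν‖ = 1) (hν' : ‖ν'‖ = 1) :
    (Pl ν).map ((Qr ν ν').toLinearEquiv : Sp d →ₗ[ℝ] Sp d) = Pl ν' := by
  ext z
  rw [Submodule.mem_map_equiv, Submodule.mem_orthogonal_singleton_iff_inner_right,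
    Submodule.mem_orthogonal_singleton_iff_inner_right]
  have h1 : (Qr ν ν').toLinearEquiv.symm z = (Qr ν ν').symm z := rfl
  have h2 : ⟪ν, (Qr ν ν').symm z⟫_ℝ = -⟪ν', z⟫_ℝ := by
    rw [← (Qr ν ν').inner_map_map, (Qr ν ν').apply_symm_apply, Qr_self hν hν', inner_neg_left]
  rw [h1, h2, neg_eq_zero]

/-- the isometry of the planes -/
def Qpl {ν ν' : Sp d} (hν : ‖ν‖ = 1) (hν' : ‖ν'‖ = 1) : Pl ν ≃ₗᵢ[ℝ] Pl ν' where
  toLinearEquiv := (Qr ν ν').toLinearEquiv.ofSubmodules (Pl ν) (Pl ν') (Qr_map hν hν')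
  norm_map' := fun y => (Qr ν ν').norm_map (y : Sp d)

lemma Qpl_coe {ν ν' : Sp d} (hν : ‖ν‖ = 1) (hν' : ‖ν'‖ = 1) (y : Pl ν) :
    ((Qpl hν hν' y : Pl ν') : Sp d) = Qr ν ν' (y : Sp d) := rfl

lemma plInt_rot {ν ν' : Sp d} (hν : ‖ν‖ = 1) (hν' : ‖ν'‖ = 1) (c : ℝ) (G : Sp d → ℝ) :
    plInt ν' c G = ∫ y : Pl ν, G (c • ν' + Qr ν ν' (y : Sp d)) := by
  unfold plInt
  have h := (Qpl hν hν').measurePreserving.integral_comp
    (Qpl hν hν').toHomeomorph.measurableEmbedding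
    (fun y : Pl ν' => G (c • ν' + (y : Sp d)))
  rw [← h]
  rfl

lemma one_le_q (s : ℝ) : 1 ≤ Real.sqrt (1 + s ^ 2) := by
  rw [Real.one_le_sqrt]
  nlinarith [sq_nonneg s]

/-- displacement between the two parametrisations -/
lemma displacement {ν w : Sp d} {c o q : ℝ} (hν : ‖ν‖ = 1) (hw : ⟪ν, w⟫_ℝ = 0)
    (hq : q = Real.sqrt (1 + ‖w‖ ^ 2)) (y : Sp d) (hy : ⟪ν, y⟫_ℝ = 0) :
    ((c + o) / q) • ((1 / q) • (ν - w)) + Qr ν ((1 / q) • (ν - w)) y = c • ν + y +
      (((⟪w, y⟫_ℝ + o) • ν - c • w) +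
        ((((c + o) * (1 / q ^ 2 - 1)) + ⟪w, y⟫_ℝ * (1 / q - 1)) • ν -
          (((c + o) * (1 / q ^ 2 - 1)) + o + ⟪w, y⟫_ℝ / (q * (q + 1))) • w)) := by
  have hq1 : 1 ≤ q := by rw [hq]; exact one_le_q _
  have hq0 : 0 < q := by linarith
  have hq2 : q ^ 2 = 1 + ‖w‖ ^ 2 := by
    rw [hq, Real.sq_sqrt (by positivity)]
  have hn : ‖ν + (1 / q) • (ν - w)‖ ^ 2 = 2 * (q + 1) / q := by
    have e1 : ν + (1 / q) • (ν - w) = (1 + 1 / q) • ν - (1 / q) • w := by
      rw [smul_sub, add_smul, one_smul]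
      abel
    rw [e1, norm_sub_sq_real, norm_smul, norm_smul, hν, inner_smul_left, inner_smul_right, hw]
    simp only [Real.norm_eq_abs, mul_one, mul_zero, sub_zero, mul_pow, sq_abs]
    have : ‖w‖ ^ 2 = q ^ 2 - 1 := by linarith
    rw [this]
    field_simp
    ring
  have hi : ⟪ν + (1 / q) • (ν - w), y⟫_ℝ = -(⟪w, y⟫_ℝ / q) := by
    rw [inner_add_left, inner_smul_left, inner_sub_left, hy]
    simp
    ring
  rw [Qr_apply, hn, hi]
  set t := ⟪w, y⟫_ℝ with ht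
  have hv : (2 * (-(t / q) / (2 * (q + 1) / q))) = -(t / (q + 1)) := by
    field_simp
  rw [hv]
  have e2 : ∀ (a b : ℝ), a • ((1 / q) • (ν - w)) + (y - b • (ν + (1 / q) • (ν - w))) =
      (a / q - b * (1 + 1 / q)) • ν + y - (a / q - b / q) • w := by
    intro a b
    module
  rw [e2]
  have e3 : (c + o) / q / q - -(t / (q + 1)) * (1 + 1 / q) =
      c + (t + o) + ((c + o) * (1 / q ^ 2 - 1) + t * (1 / q - 1)) := by
    field_simp
    ring
  have e4 : (c + o) / q / q - -(t / (q + 1)) / q =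
      c + ((c + o) * (1 / q ^ 2 - 1) + o + t / (q * (q + 1))) := by
    field_simp
    ring
  rw [e3, e4]
  module

lemma q_bounds {s q : ℝ} (hs : 0 ≤ s) (hs1 : s ≤ 1) (hq : q = Real.sqrt (1 + s ^ 2)) :
    1 ≤ q ∧ q ≤ 2 ∧ |1 / q ^ 2 - 1| ≤ s ^ 2 ∧ |1 / q - 1| ≤ s ^ 2 := by
  have hq1 : 1 ≤ q := by rw [hq]; exact one_le_q _
  have hq0 : 0 < q := by linarith
  have hq2 : q ^ 2 = 1 + s ^ 2 := by
    rw [hq, Real.sq_sqrt (by positivity)]
  have h2 : 1 / q ^ 2 ≤ 1 := by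
    rw [div_le_one (by positivity)]
    nlinarith
  have h3 : 1 - 1 / q ^ 2 ≤ s ^ 2 := by
    rw [sub_le_iff_le_add, ← sub_le_iff_le_add', le_div_iff₀ (by positivity), hq2]
    nlinarith [sq_nonneg (s ^ 2)]
  have h4 : 1 / q ≤ 1 := by
    rw [div_le_one hq0]
    exact hq1
  have h5 : 1 / q ^ 2 ≤ 1 / q := by
    apply one_div_le_one_div_of_le hq0
    nlinarith only [hq1]
  refine ⟨hq1, by nlinarith only [hs1, hq2, hs], ?_, ?_⟩
  · rw [abs_sub_comm, abs_of_nonneg (by linarith)]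
    exact h3
  · rw [abs_sub_comm, abs_of_nonneg (by linarith)]
    linarith

/-- comparison of the plane integrals over close planes, second order -/
theorem rot_cmp (hd : 1 ≤ d) (ρ : ℝ) (hρ : 1 ≤ ρ) : ∃ C : ℝ, 0 < C ∧
    ∀ (ν w : Sp d) (c o q : ℝ), ‖ν‖ = 1 → ⟪ν, w⟫_ℝ = 0 → ‖w‖ ≤ 1 → |o| ≤ 1 → |c| ≤ ρ →
      q = Real.sqrt (1 + ‖w‖ ^ 2) →
      ∀ (G : Sp d → ℝ) (N : ℝ), TFn 2 N G → (∀ y, ρ < ‖y‖ → G y = 0) →
        |plInt ν c (fun y => G y + (⟪w, y⟫_ℝ + o) * fderiv ℝ G y ν) -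
          plInt ((1 / q) • (ν - w)) ((c + o) / q) G| ≤ C * N * (‖w‖ ^ 2 + o ^ 2) := by
  obtain ⟨C, hC, hb⟩ := pl_bound hd ρ
  refine ⟨C * (1000 * ρ ^ 4), by positivity, ?_⟩
  intro ν w c o q hν hw hw1 ho1 hc hq G N hG hGs
  obtain ⟨hq1, hq2, hqa, hqb⟩ := q_bounds (norm_nonneg w) hw1 hq
  have hq0 : 0 < q := by linarith
  have hN := TFn_nonneg hG
  set ν' : Sp d := (1 / q) • (ν - w) with hν'
  have hν'1 : ‖ν'‖ = 1 := by
    have h1 : ‖ν - w‖ ^ 2 = q ^ 2 := by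
      rw [norm_sub_sq_real, hν, hw, hq, Real.sq_sqrt (by positivity)]
      ring
    have h2 : ‖ν - w‖ = q := by
      rw [← Real.sqrt_sq (norm_nonneg _), h1, Real.sqrt_sq hq0.le]
    rw [hν', norm_smul, h2, Real.norm_of_nonneg (by positivity)]
    field_simp
  have hGc : Continuous G := hG.smooth.continuous
  have hG1 : ContDiff ℝ 1 G := hG.smooth.of_le (by norm_num)
  have hGd : Continuous (fderiv ℝ G) := hG1.continuous_fderiv one_ne_zero
  have hGcs : HasCompactSupport G :=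
    HasCompactSupport.intro (isCompact_closedBall (0 : Sp d) ρ) fun y hy => hGs y (by
      rw [mem_closedBall, dist_zero_right, not_le] at hy
      exact hy)
  have hGd0 : ∀ y, ρ < ‖y‖ → fderiv ℝ G y = 0 := by
    intro y hy
    have h1 : G =ᶠ[nhds y] fun _ => 0 := by
      filter_upwards [(isOpen_lt continuous_const continuous_norm).mem_nhds hy] with z hz
      exact hGs z hz
    rw [h1.fderiv_eq]
    simp
  have hGdN : ∀ y, ‖fderiv ℝ G y‖ ≤ N := fun y => by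
    rw [← norm_iteratedFDeriv_one]
    exact hG.bd 1 (by norm_num) y
  set g : Pl ν → ℝ := fun y => G (((c + o) / q) • ν' + Qr ν ν' (y : Sp d)) -
    (G (c • ν + (y : Sp d)) + (⟪w, c • ν + (y : Sp d)⟫_ℝ + o) *
      fderiv ℝ G (c • ν + (y : Sp d)) ν) + c * fderiv ℝ G (c • ν + (y : Sp d)) w with hg
  have hwy : ∀ y : Pl ν, ⟪w, c • ν + (y : Sp d)⟫_ℝ = ⟪w, (y : Sp d)⟫_ℝ := fun y => by
    rw [inner_add_right, inner_smul_right, real_inner_comm ν w, hw]
    ring
  have hgs : ∀ y, g y ≠ 0 → ‖y‖ ≤ ρ := by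
    intro y hy
    by_contra h
    push Not at h
    apply hy
    have h1 : ρ < ‖c • ν + (y : Sp d)‖ := by
      have h2 := norm_plane hν c y
      nlinarith [norm_nonneg (c • ν + (y : Sp d)), sq_nonneg c, norm_nonneg y]
    have h3 : ρ < ‖((c + o) / q) • ν' + Qr ν ν' (y : Sp d)‖ := by
      have h2 := norm_plane hν'1 ((c + o) / q) (Qpl hν hν'1 y)
      rw [Qpl_coe, (Qpl hν hν'1).norm_map] at h2
      nlinarith only [h, h2, norm_nonneg (((c + o) / q) • ν' + Qr ν ν' (y : Sp d))]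
    simp only [hg, hGs _ h1, hGs _ h3, hGd0 _ h1]
    simp
  have hgb : ∀ y, |g y| ≤ 1000 * ρ ^ 4 * N * (‖w‖ ^ 2 + o ^ 2) := by
    intro y
    by_cases hyρ : ‖y‖ ≤ ρ
    swap
    · have : g y = 0 := by
        by_contra h
        exact hyρ (hgs y h)
      rw [this, abs_zero]
      (clear * - hρ hN; positivity)
    set t := ⟪w, (y : Sp d)⟫_ℝ with ht
    have htb : |t| ≤ ‖w‖ * ρ := (abs_real_inner_le_norm _ _).trans
      (mul_le_mul_of_nonneg_left hyρ (norm_nonneg _))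
    set h1 : Sp d := (t + o) • ν - c • w with hh1
    set h2 : Sp d := (((c + o) * (1 / q ^ 2 - 1)) + t * (1 / q - 1)) • ν -
      (((c + o) * (1 / q ^ 2 - 1)) + o + t / (q * (q + 1))) • w with hh2
    have hdis : ((c + o) / q) • ν' + Qr ν ν' (y : Sp d) = c • ν + (y : Sp d) + (h1 + h2) :=
      displacement hν hw hq (y : Sp d) (inner_pl ν y)
    have hco : |c + o| ≤ 2 * ρ := (abs_add_le _ _).trans (by linarith)
    have hS0 : 0 ≤ ‖w‖ ^ 2 + o ^ 2 := by positivity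
    have hSw : ‖w‖ ^ 2 ≤ ‖w‖ ^ 2 + o ^ 2 := by linarith only [sq_nonneg o]
    have hSo : |o| * ‖w‖ ≤ ‖w‖ ^ 2 + o ^ 2 := by
      nlinarith only [sq_abs o]
    set S := ‖w‖ ^ 2 + o ^ 2 with hS
    have hS2 : S ≤ 2 := by
      have e1 : ‖w‖ ^ 2 ≤ 1 := by nlinarith only [hw1, norm_nonneg w]
      have e2 : o ^ 2 ≤ 1 := by nlinarith only [ho1, sq_abs o, abs_nonneg o]
      linarith
    have hw0 := norm_nonneg w
    have hρ0 : 0 ≤ ρ := by linarith
    have b1 : ‖h1‖ ≤ (2 * ρ) * ‖w‖ + |o| := by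
      rw [hh1]
      refine (norm_sub_le _ _).trans ?_
      rw [norm_smul, norm_smul, hν, mul_one, Real.norm_eq_abs, Real.norm_eq_abs]
      have e1 : |t + o| ≤ ‖w‖ * ρ + |o| := (abs_add_le _ _).trans (by linarith)
      have e2 : |c| * ‖w‖ ≤ ρ * ‖w‖ := mul_le_mul_of_nonneg_right hc hw0
      linarith
    have b1' : ‖h1‖ ^ 2 ≤ 8 * ρ ^ 2 * S := by
      have e1 : ‖h1‖ ^ 2 ≤ ((2 * ρ) * ‖w‖ + |o|) ^ 2 := pow_le_pow_left₀ (norm_nonneg _) b1 2
      have e2 : ((2 * ρ) * ‖w‖ + |o|) ^ 2 ≤ 2 * (((2 * ρ) * ‖w‖) ^ 2 + |o| ^ 2) := by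
        linarith only [sq_nonneg ((2 * ρ) * ‖w‖ - |o|)]
      have e3 : |o| ^ 2 = o ^ 2 := sq_abs o
      have e4 : o ^ 2 ≤ ρ ^ 2 * o ^ 2 := le_mul_of_one_le_left (sq_nonneg o) (one_le_pow₀ hρ)
      rw [e3] at e2
      nlinarith only [e1, e2, e4]
    have b2 : ‖h2‖ ≤ 12 * ρ * S := by
      rw [hh2]
      refine (norm_sub_le _ _).trans ?_
      rw [norm_smul, norm_smul, hν, mul_one, Real.norm_eq_abs, Real.norm_eq_abs]
      have e0 : |(c + o) * (1 / q ^ 2 - 1)| ≤ 2 * ρ * ‖w‖ ^ 2 := by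
        rw [abs_mul]
        exact mul_le_mul hco hqa (abs_nonneg _) (by linarith)
      have e1 : |t * (1 / q - 1)| ≤ ρ * ‖w‖ ^ 2 := by
        rw [abs_mul]
        calc |t| * |1 / q - 1| ≤ (‖w‖ * ρ) * ‖w‖ ^ 2 :=
              mul_le_mul htb hqb (abs_nonneg _) (by positivity)
          _ ≤ (1 * ρ) * ‖w‖ ^ 2 := by (clear * - hw1 hρ; gcongr)
          _ = _ := by ring
      have e2 : |t / (q * (q + 1))| ≤ ρ * ‖w‖ := by
        rw [abs_div, abs_of_pos (show 0 < q * (q + 1) by positivity),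
          div_le_iff₀ (by positivity)]
        have : 1 ≤ q * (q + 1) := by nlinarith only [hq1]
        nlinarith [mul_nonneg hρ0 hw0]
      have e3 : |(c + o) * (1 / q ^ 2 - 1) + t * (1 / q - 1)| ≤ 3 * ρ * S := by
        refine (abs_add_le _ _).trans ?_
        nlinarith only [e0, e1, hρ]
      have e4 : |(c + o) * (1 / q ^ 2 - 1) + o + t / (q * (q + 1))| * ‖w‖ ≤ 5 * ρ * S := by
        have f1 : |(c + o) * (1 / q ^ 2 - 1) + o + t / (q * (q + 1))| ≤
            2 * ρ * ‖w‖ ^ 2 + |o| + ρ * ‖w‖ := by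
          refine (abs_add_le _ _).trans (add_le_add ((abs_add_le _ _).trans ?_) e2)
          linarith only [e0]
        have f2 := mul_le_mul_of_nonneg_right f1 hw0
        have f3 : 2 * ρ * ‖w‖ ^ 2 * ‖w‖ ≤ 2 * ρ * S := by
          have : ‖w‖ ^ 2 * ‖w‖ ≤ S * 1 := mul_le_mul hSw hw1 hw0 hS0
          nlinarith only [this, hρ]
        have f4 : |o| * ‖w‖ ≤ ρ * S := by nlinarith
        have f5 : ρ * ‖w‖ * ‖w‖ ≤ ρ * S := by nlinarith
        nlinarith only [f2, f3, f4, hρ]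
      linarith only [e3, e4, mul_nonneg hρ0 hS0]
    have b2' : ‖h2‖ ^ 2 ≤ 288 * ρ ^ 2 * S := by
      have e1 : ‖h2‖ ^ 2 ≤ (12 * ρ * S) ^ 2 := pow_le_pow_left₀ (norm_nonneg _) b2 2
      have e2 : (12 * ρ * S) ^ 2 ≤ 288 * ρ ^ 2 * S := by
        have : S ^ 2 ≤ 2 * S := by nlinarith
        nlinarith only [this]
      linarith
    have b3 : ‖h1 + h2‖ ^ 2 ≤ 592 * ρ ^ 2 * S := by
      have e1 : ‖h1 + h2‖ ^ 2 ≤ (‖h1‖ + ‖h2‖) ^ 2 :=
        pow_le_pow_left₀ (norm_nonneg _) (norm_add_le _ _) 2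
      linarith only [b1', b2', e1, sq_nonneg (‖h1‖ - ‖h2‖)]
    have hgy : g y = (G (c • ν + (y : Sp d) + (h1 + h2)) - G (c • ν + (y : Sp d)) -
        fderiv ℝ G (c • ν + (y : Sp d)) (h1 + h2)) + fderiv ℝ G (c • ν + (y : Sp d)) h2 := by
      have e1 : fderiv ℝ G (c • ν + (y : Sp d)) h1 =
          (t + o) * fderiv ℝ G (c • ν + (y : Sp d)) ν -
            c * fderiv ℝ G (c • ν + (y : Sp d)) w := by
        rw [hh1, map_sub, map_smul, map_smul, smul_eq_mul, smul_eq_mul]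
      simp only [hg]
      rw [hdis, hwy, ← ht, map_add, e1]
      ring
    rw [hgy]
    refine (abs_add_le _ _).trans ?_
    have t1 := taylor2 hG (c • ν + (y : Sp d)) (h1 + h2)
    have t2 : |fderiv ℝ G (c • ν + (y : Sp d)) h2| ≤ N * ‖h2‖ := by
      rw [← Real.norm_eq_abs]
      refine ((fderiv ℝ G (c • ν + (y : Sp d))).le_opNorm h2).trans ?_
      exact mul_le_mul_of_nonneg_right (hGdN _) (norm_nonneg _)
    have t3 : N * ‖h1 + h2‖ ^ 2 ≤ N * (592 * ρ ^ 2 * S) := mul_le_mul_of_nonneg_left b3 hN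
    have t4 : N * ‖h2‖ ≤ N * (12 * ρ * S) := mul_le_mul_of_nonneg_left b2 hN
    have t5 : N * (592 * ρ ^ 2 * S) + N * (12 * ρ * S) ≤ 1000 * ρ ^ 4 * N * S := by
      have r1 : ρ ≤ ρ ^ 2 := by nlinarith only [hρ]
      have r2 : ρ ^ 2 ≤ ρ ^ 4 := by nlinarith only [hρ, r1]
      have : 592 * ρ ^ 2 + 12 * ρ ≤ 1000 * ρ ^ 4 := by linarith only [hρ, r1, r2]
      have h9 := mul_le_mul_of_nonneg_left this (mul_nonneg hN hS0)
      linarith only [h9]
    linarith only [t1, t2, t3, t4, t5]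
  have hmain := hb ν hν g _ hgb hgs
  have hint1 : Integrable (fun y : Pl ν => G (((c + o) / q) • ν' + Qr ν ν' (y : Sp d))) := by
    refine Continuous.integrable_of_hasCompactSupport (hGc.comp (by fun_prop)) ?_
    refine HasCompactSupport.intro (isCompact_closedBall (0 : Pl ν) ρ) fun y hy => ?_
    rw [mem_closedBall, dist_zero_right, not_le] at hy
    refine hGs _ ?_
    have h2 := norm_plane hν'1 ((c + o) / q) (Qpl hν hν'1 y)
    rw [Qpl_coe, (Qpl hν hν'1).norm_map] at h2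
    nlinarith only [hy, h2, norm_nonneg (((c + o) / q) • ν' + Qr ν ν' (y : Sp d))]
  have htan : ∀ y : Sp d, ‖y‖ ≤ ρ → ‖tang ν y‖ ≤ ρ := fun y hy => (norm_tang_le hν y).trans hy
  have hGd1 : ∀ (v y : Sp d), fderiv ℝ G y v ≠ 0 → ‖y‖ ≤ ρ := by
    intro v y hy
    by_contra h
    push Not at h
    exact hy (by rw [hGd0 y h]; rfl)
  have hint2 : Integrable (fun y : Pl ν => G (c • ν + (y : Sp d)) +
      (⟪w, c • ν + (y : Sp d)⟫_ℝ + o) * fderiv ℝ G (c • ν + (y : Sp d)) ν) := by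
    refine integrable_pl (F := fun y => G y + (⟪w, y⟫_ℝ + o) * fderiv ℝ G y ν) hν
      (hGc.add (((continuous_const.inner continuous_id).add continuous_const).mul
        (hGd.clm_apply continuous_const))) (ρ := ρ) ?_ c
    intro y hy
    by_contra h
    push Not at h
    have h1 : ρ < ‖y‖ := h.trans_le (norm_tang_le hν y)
    apply hy
    rw [hGs y h1, hGd0 y h1]
    simp
  have hint3 : Integrable (fun y : Pl ν => c * fderiv ℝ G (c • ν + (y : Sp d)) w) := by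
    refine integrable_pl (F := fun y => c * fderiv ℝ G y w) hν
      (continuous_const.mul (hGd.clm_apply continuous_const)) (ρ := ρ) ?_ c
    intro y hy
    exact htan y (hGd1 w y (right_ne_zero_of_mul hy))
  have hPF : plInt ν c (fun y => fderiv ℝ G y w) = 0 :=
    ((stmtPF d hd).2 ν hν).2.2.2.2.1 G hG1 hGcs c w hw
  have hsplit : ∫ y, g y = plInt ν' ((c + o) / q) G -
      plInt ν c (fun y => G y + (⟪w, y⟫_ℝ + o) * fderiv ℝ G y ν) := by
    have e1 : ∫ y, g y = (∫ y : Pl ν, (G (((c + o) / q) • ν' + Qr ν ν' (y : Sp d)) -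
        (G (c • ν + (y : Sp d)) + (⟪w, c • ν + (y : Sp d)⟫_ℝ + o) *
          fderiv ℝ G (c • ν + (y : Sp d)) ν))) +
        ∫ y : Pl ν, c * fderiv ℝ G (c • ν + (y : Sp d)) w :=
      integral_add (hint1.sub hint2) hint3
    have e2 : (∫ y : Pl ν, (G (((c + o) / q) • ν' + Qr ν ν' (y : Sp d)) -
        (G (c • ν + (y : Sp d)) + (⟪w, c • ν + (y : Sp d)⟫_ℝ + o) *
          fderiv ℝ G (c • ν + (y : Sp d)) ν))) =
        (∫ y : Pl ν, G (((c + o) / q) • ν' + Qr ν ν' (y : Sp d))) -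
        ∫ y : Pl ν, (G (c • ν + (y : Sp d)) + (⟪w, c • ν + (y : Sp d)⟫_ℝ + o) *
          fderiv ℝ G (c • ν + (y : Sp d)) ν) := integral_sub hint1 hint2
    have e3 : ∫ y : Pl ν, c * fderiv ℝ G (c • ν + (y : Sp d)) w =
        c * plInt ν c (fun y => fderiv ℝ G y w) := integral_const_mul _ _
    rw [e1, e2, e3, hPF, mul_zero, add_zero, ← plInt_rot hν hν'1]
    rfl
  rw [abs_sub_comm, ← hsplit]
  refine hmain.trans (le_of_eq ?_)
  ring

end

end SAm

end TG


end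

section

/-!
# Sheet lemma (module SA), part 4: the frame of the sheet, abstract density (helper65)
-/

open MeasureTheory Metric Set TrI
open scoped InnerProductSpace ContDiff

namespace TG

namespace SAm

noncomputable section

open TU PF

variable {d : ℕ}

/-- sheet data at unit scale, for an abstract density m -/
structure SFr (JB : ℕ) (C0 R0 : ℝ) (m : Sp d → ℝ) (ν : Sp d) (c a B η al : ℝ) (w : Sp d) :
    Prop where
  cont : Continuous m
  nu : ‖ν‖ = 1
  cle : |c| ≤ R0 / 3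
  a0 : 0 < a
  B0 : 0 ≤ B
  Ba : B ≤ a
  eta0 : 0 ≤ η
  eta : η ≤ C0 * Real.sqrt (a * B)
  Z : ∀ (H : Sp d → ℝ) (N : ℝ), TFn 2 N H → (∀ y, 0 ≤ H y) → (∀ y, R0 + 1 ≤ ‖y‖ → H y = 0) →
    -(C0 * N * B) ≤ ∫ y, m y * H y
  mass : ∫ y, m y * zR (R0 - 2) y ≤ C0 * a
  bb : ∫ y, m y * (zR R0 y * ht ν c y ^ 2) ≤ C0 * B
  wn : ⟪ν, w⟫_ℝ = 0
  al_le : |al| ≤ C0 * a
  SH : ∀ (ψ : Sp d → ℝ) (Y : Sp d → Sp d) (N : ℝ), TFn JB N ψ → TFn JB N Y →
    Cyl ν (R0 / 2) ψ → Cyl ν (R0 / 2) Y → (∀ y, ⟪ν, Y y⟫_ℝ = 0) →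
    |(∫ y, m y * (cu1 4 (ht ν c y) * (ψ y - ht ν c y * dv Y y))) -
      (al * plInt ν c ψ + plInt ν c (fun y => ⟪w, Y y⟫_ℝ))| ≤ C0 * N * η

lemma int_m {m H : Sp d → ℝ} (hm : Continuous m) (hH : Continuous H) {R : ℝ}
    (hs : ∀ y, R < ‖y‖ → H y = 0) : Integrable (fun y => m y * H y) := by
  refine (hm.mul hH).integrable_of_hasCompactSupport ?_
  refine HasCompactSupport.intro (isCompact_closedBall (0 : Sp d) R) fun y hy => ?_
  rw [mem_closedBall, dist_zero_right, not_le] at hy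
  show m y * H y = 0
  rw [hs y hy, mul_zero]

lemma zR_contDiff {R : ℝ} (hR : 0 < R) (J : ℕ) : ContDiff ℝ J (zR R : Sp d → ℝ) :=
  contDiff_infty.1 (zR_smooth hR) J

lemma zR_mono {R R' : ℝ} (h : R ≤ R') (y : Sp d) : zR R y ≤ zR R' y :=
  Real.smoothTransition.monotone (by linarith)

lemma ht_eq (ν : Sp d) (c : ℝ) : ht ν c = fun y => ⟪ν, y⟫_ℝ + (-c) := by
  funext y
  unfold ht
  ring

lemma ht_cont (ν : Sp d) (c : ℝ) : Continuous (ht ν c) := (ht_smooth ν c (n := 0)).continuous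

/-- first lemma: densities of second order at the plane -/
lemma L1 (R0 C0 : ℝ) (hR0 : 100 ≤ R0) (hC0 : 0 < C0) : ∃ C : ℝ, 0 < C ∧
    ∀ (JB : ℕ) (m : Sp d → ℝ) (ν : Sp d) (c a B η al : ℝ) (w : Sp d),
      SFr JB C0 R0 m ν c a B η al w →
      (∫ y, m y * (zR (R0 - 2) y * ht ν c y ^ 2) ≤ C * B) ∧
      (∀ N : ℝ, 0 ≤ N → TFn 2 (C * N) (fun y => N * (zR (R0 - 2) y * ht ν c y ^ 2))) ∧
      ∀ (G : Sp d → ℝ) (N : ℝ), TFn 2 N G → (∀ y, |G y| ≤ N * ht ν c y ^ 2) →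
        (∀ y, R0 - 2 < ‖y‖ → G y = 0) → |∫ y, m y * G y| ≤ C * N * B := by
  obtain ⟨N1, hN1, hz1⟩ := TFn_of_cs (J := 2) (ζ := (zR (R0 - 2) : Sp d → ℝ))
    (zR_contDiff (by linarith) 2) (zR_cs _)
  obtain ⟨N2, hN2, hz2⟩ := TFn_of_cs (J := 2) (ζ := (zR R0 : Sp d → ℝ))
    (zR_contDiff (by linarith) 2) (zR_cs _)
  set K1 := 4 ^ 2 * N1 * max 1 ((R0 - 1) + R0 / 3) ^ 2 with hK1
  set K2 := 4 ^ 2 * N2 * max 1 ((R0 + 1) + R0 / 3) ^ 2 with hK2
  have hK1' : 0 < K1 := by positivity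
  have hK2' : 0 < K2 := by positivity
  refine ⟨C0 + C0 * (K1 + K2) + C0 * (K1 + 1) + K1, by positivity, ?_⟩
  intro JB m ν c a B η al w h
  have hz : ∫ y, m y * (zR (R0 - 2) y * ht ν c y ^ 2) ≤ (C0 + C0 * (K1 + K2)) * B := by
    have t1 := TFn_ht_sq hz1 (ρ := R0 - 1) (fun y hy => zR_zero (by linarith)) h.nu h.cle
    have t2 := TFn_ht_sq hz2 (ρ := R0 + 1) (fun y hy => zR_zero (by linarith)) h.nu h.cle
    have t3 := TFn_sub t2 t1
    have h1 := h.Z _ _ t3 (fun y => by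
      have := zR_mono (show R0 - 2 ≤ R0 by linarith) y
      have h2 := sq_nonneg (ht ν c y)
      nlinarith only [this]) (fun y hy => by
      rw [zR_zero (by linarith), zR_zero (by linarith)]
      ring)
    have hc1 : Continuous (fun y => zR (R0 - 2) y * ht ν c y ^ 2) := t1.smooth.continuous
    have hc2 : Continuous (fun y => zR R0 y * ht ν c y ^ 2) := t2.smooth.continuous
    have i1 := int_m h.cont hc1 (R := R0 + 1) (fun y hy => by
      rw [zR_zero (by linarith), zero_mul])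
    have i2 := int_m h.cont hc2 (R := R0 + 1) (fun y hy => by
      rw [zR_zero (by linarith), zero_mul])
    have e1 : ∫ y, m y * (zR R0 y * ht ν c y ^ 2 - zR (R0 - 2) y * ht ν c y ^ 2) =
        (∫ y, m y * (zR R0 y * ht ν c y ^ 2)) - ∫ y, m y * (zR (R0 - 2) y * ht ν c y ^ 2) := by
      rw [← integral_sub i2 i1]
      congr 1
      funext y
      ring
    rw [e1] at h1
    have h2 := h.bb
    have h3 : C0 * (K2 + K1) * B = C0 * (K1 + K2) * B := by ring
    simp only [← hK1, ← hK2] at h1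
    rw [h3] at h1
    linarith
  have hT : ∀ N : ℝ, 0 ≤ N → TFn 2 (K1 * N) (fun y => N * (zR (R0 - 2) y * ht ν c y ^ 2)) := by
    intro N hN
    have t1 := TFn_ht_sq hz1 (ρ := R0 - 1) (fun y hy => zR_zero (by linarith)) h.nu h.cle
    refine TFn_mono (TFn_const_mul t1 N) le_rfl (le_of_eq ?_)
    rw [abs_of_nonneg hN, hK1]
    ring
  refine ⟨?_, fun N hN => TFn_mono (hT N hN) le_rfl ?_, ?_⟩
  · refine hz.trans ?_
    refine mul_le_mul_of_nonneg_right ?_ h.B0
    have : 0 < C0 * (K1 + 1) := by positivity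
    linarith
  · refine mul_le_mul_of_nonneg_right ?_ hN
    have h1 : 0 < C0 * (K1 + 1) := by positivity
    have h2 : 0 < C0 * (K1 + K2) := by positivity
    linarith
  · intro G N hG hGb hGs
    have hN := TFn_nonneg hG
    have hGc : Continuous G := hG.smooth.continuous
    have iG := int_m h.cont hGc hGs
    have iz := int_m h.cont (hT N hN).smooth.continuous (R := R0 + 1) (fun y hy => by
      rw [zR_zero (by linarith)]
      ring)
    have key : ∀ σ : ℝ, (σ = 1 ∨ σ = -1) → -(σ * ∫ y, m y * G y) ≤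
        N * ((C0 + C0 * (K1 + K2)) * B) + C0 * (K1 * N + N) * B := by
      intro σ hσ
      have hσ1 : |σ| = 1 := by rcases hσ with rfl | rfl <;> simp
      have t1 := TFn_add (hT N hN) (TFn_const_mul hG σ)
      rw [hσ1, one_mul] at t1
      have h1 := h.Z _ _ t1 (fun y => by
        rcases le_or_gt ‖y‖ (R0 - 2) with hy | hy
        · rw [zR_one hy, one_mul]
          have h2 := hGb y
          have h3 : |σ * G y| ≤ N * ht ν c y ^ 2 := by
            rw [abs_mul, hσ1, one_mul]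
            exact h2
          linarith [(abs_le.1 h3).1]
        · rw [hGs y hy]
          have := zR_nonneg (R0 - 2) y
          rw [mul_zero, add_zero]
          positivity) (fun y hy => by
        rw [zR_zero (by linarith), hGs y (by linarith)]
        ring)
      have e1 : ∫ y, m y * (N * (zR (R0 - 2) y * ht ν c y ^ 2) + σ * G y) =
          N * (∫ y, m y * (zR (R0 - 2) y * ht ν c y ^ 2)) + σ * ∫ y, m y * G y := by
        rw [← integral_const_mul, ← integral_const_mul, ← integral_add]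
        · congr 1
          funext y
          ring
        · refine iz.congr (Filter.Eventually.of_forall fun y => ?_)
          ring
        · exact iG.const_mul σ
      rw [e1] at h1
      have h2 := mul_le_mul_of_nonneg_left hz hN
      linarith
    have k1 := key 1 (Or.inl rfl)
    have k2 := key (-1) (Or.inr rfl)
    have hB := h.B0
    have hfin : N * ((C0 + C0 * (K1 + K2)) * B) + C0 * (K1 * N + N) * B ≤
        (C0 + C0 * (K1 + K2) + C0 * (K1 + 1) + K1) * N * B := by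
      have : 0 ≤ K1 * N * B := by positivity
      linarith only [this]
    rw [abs_le]
    constructor <;> linarith

end

end SAm

end TG


end

section

/-!
# Sheet lemma (module SA), part 5: first moments over the plane (helper65)
-/

open MeasureTheory Metric Set TrI
open scoped InnerProductSpace ContDiff

namespace TG

namespace SAm

noncomputable section

open TU PF

variable {d : ℕ}

/-- the first moment functional -/
def K1 (m : Sp d → ℝ) (ν : Sp d) (c : ℝ) (ζ : Sp d → ℝ) : ℝ :=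
  ∫ y, m y * (cu1 4 (ht ν c y) * (ht ν c y * ζ y))

lemma cutK (d J : ℕ) (R0 : ℝ) (hR0 : 100 ≤ R0) : ∃ C : ℝ, 0 < C ∧
    ∀ (ν : Sp d) (c : ℝ), ‖ν‖ = 1 → |c| ≤ R0 / 3 → ∀ (ζ : Sp d → ℝ) (N : ℝ), TFn J N ζ →
      Cyl ν (R0 / 2) ζ → TFn J (C * N) (fun y => cu1 4 (ht ν c y) * ζ y) ∧
        TFn J (C * N) (fun y => cu1 4 (ht ν c y) * (ht ν c y * ζ y)) ∧
        ∀ y, R0 - 2 < ‖y‖ → cu1 4 (ht ν c y) * ζ y = 0 := by
  obtain ⟨Nc, hNc, hcu⟩ := cu1_TFn d J
  refine ⟨2 ^ J * Nc + 2 ^ J * (2 ^ J * Nc * (1 + R0 + R0 / 3)), by positivity, ?_⟩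
  intro ν c hν hc ζ N hζ hC
  have hN := TFn_nonneg hζ
  have t1 := TFn_mul (hcu 4 (by norm_num) ν c hν) hζ
  have hs : ∀ y, R0 - 2 < ‖y‖ → cu1 4 (ht ν c y) * ζ y = 0 := by
    intro y hy
    by_contra h
    have h1 := left_ne_zero_of_mul h
    have h2 := hC.supp y (right_ne_zero_of_mul h)
    have h3 : |ht ν c y| < 5 := by
      by_contra h4
      push Not at h4
      exact h1 (cu1_zero (by linarith))
    have h4 := norm_le_tang hν y
    have h5 : |⟪ν, y⟫_ℝ| ≤ |ht ν c y| + |c| := by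
      have : ⟪ν, y⟫_ℝ = ht ν c y + c := by unfold ht; ring
      rw [this]
      exact abs_add_le _ _
    linarith
  have t2 := TFn_mul_lin t1 (ρ := R0) (by linarith) (fun y hy => hs y (by linarith)) ν (-c)
  refine ⟨TFn_mono t1 le_rfl ?_, ?_, hs⟩
  · have : 0 ≤ 2 ^ J * (2 ^ J * Nc * (1 + R0 + R0 / 3)) * N := by positivity
    linarith only [this]
  · have e : (fun y => cu1 4 (ht ν c y) * (ht ν c y * ζ y)) =
        fun y => cu1 4 (ht ν c y) * ζ y * (⟪ν, y⟫_ℝ + (-c)) := by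
      funext y
      have : ⟪ν, y⟫_ℝ + (-c) = ht ν c y := by unfold ht; ring
      rw [this]
      ring
    rw [e]
    refine TFn_mono t2 le_rfl ?_
    rw [hν, abs_neg]
    have h1 : 1 * (1 + R0) + |c| ≤ 1 + R0 + R0 / 3 := by linarith
    have h2 : 2 ^ J * (2 ^ J * (Nc * N) * (1 * (1 + R0) + |c|)) ≤
        2 ^ J * (2 ^ J * (Nc * N) * (1 + R0 + R0 / 3)) := by
      have := mul_le_mul_of_nonneg_left h1 (show (0 : ℝ) ≤ 2 ^ J * (2 ^ J * (Nc * N)) by positivity)
      linarith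
    refine h2.trans ?_
    have : 0 ≤ 2 ^ J * Nc * N := by positivity
    linarith

lemma opt {X K a B : ℝ} (ha : 0 < a) (hB : 0 ≤ B) (hBa : B ≤ a) (hK : 0 ≤ K)
    (h : ∀ δ : ℝ, 0 < δ → δ ≤ 1 → δ * X ≤ K * (δ ^ 2 * a + B)) :
    X ≤ 2 * K * Real.sqrt (a * B) := by
  rcases hB.eq_or_lt with hB0 | hB0
  · rw [← hB0, mul_zero, Real.sqrt_zero, mul_zero]
    by_contra hX
    push Not at hX
    have hKa : 0 ≤ K * a := by positivity
    set δ := min 1 (X / (2 * (K * a + 1))) with hδ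
    have hδ0 : 0 < δ := lt_min one_pos (by positivity)
    have h1 := h δ hδ0 (min_le_left _ _)
    rw [← hB0, add_zero] at h1
    have h2 : δ ≤ X / (2 * (K * a + 1)) := min_le_right _ _
    rw [le_div_iff₀ (by positivity)] at h2
    have h3 : X ≤ K * a * δ := by
      have : δ * X ≤ δ * (K * a * δ) := by linarith only [h1]
      exact le_of_mul_le_mul_left this hδ0
    nlinarith
  · set s := Real.sqrt (a * B) with hs
    have hs0 : 0 < s := Real.sqrt_pos.2 (by positivity)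
    have hs2 : s ^ 2 = a * B := Real.sq_sqrt (by positivity)
    have hsa : s ≤ a := by
      rw [hs, Real.sqrt_le_left ha.le]
      nlinarith
    have h1 := h (s / a) (by positivity) ((div_le_one ha).2 hsa)
    have h2 : (s / a) ^ 2 * a = B := by
      rw [div_pow, hs2]
      field_simp
    rw [h2] at h1
    have h3 : s * X ≤ s * (2 * K * s) := by
      have h4 := mul_le_mul_of_nonneg_left h1 ha.le
      have h5 : a * (s / a * X) = s * X := by field_simp
      rw [h5] at h4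
      nlinarith
    exact le_of_mul_le_mul_left h3 hs0

/-- first moments are at most of the order of the square root -/
lemma L2 (R0 C0 : ℝ) (hR0 : 100 ≤ R0) (hC0 : 0 < C0) : ∃ C : ℝ, 0 < C ∧
    ∀ (JB : ℕ) (m : Sp d → ℝ) (ν : Sp d) (c a B η al : ℝ) (w : Sp d),
      SFr JB C0 R0 m ν c a B η al w →
      ∀ (ζ : Sp d → ℝ) (N : ℝ), TFn 2 N ζ → Cyl ν (R0 / 2) ζ →
        |K1 m ν c ζ| ≤ C * N * Real.sqrt (a * B) := by
  obtain ⟨C1, hC1, hL⟩ := L1 (d := d) R0 C0 hR0 hC0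
  obtain ⟨C2, hC2, hk⟩ := cutK d 2 R0 hR0
  obtain ⟨N1, hN1, hz1⟩ := TFn_of_cs (J := 2) (ζ := (zR (R0 - 2) : Sp d → ℝ))
    (zR_contDiff (by linarith) 2) (zR_cs _)
  set K := C0 + C1 + C0 * (N1 + C1 + 2 * C2) with hK
  have hK0 : 0 < K := by positivity
  refine ⟨K, hK0, ?_⟩
  intro JB m ν c a B η al w h ζ N hζ hC
  have hN := TFn_nonneg hζ
  obtain ⟨hb, hT, _⟩ := hL JB m ν c a B η al w h
  obtain ⟨-, hk2, hks⟩ := hk ν c h.nu h.cle ζ N hζ hC
  have hks' : ∀ y, R0 - 2 < ‖y‖ → cu1 4 (ht ν c y) * (ht ν c y * ζ y) = 0 := by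
    intro y hy
    have : cu1 4 (ht ν c y) * (ht ν c y * ζ y) = ht ν c y * (cu1 4 (ht ν c y) * ζ y) := by ring
    rw [this, hks y hy, mul_zero]
  have iK := int_m h.cont hk2.smooth.continuous hks'
  have iz := int_m h.cont (hT N hN).smooth.continuous (R := R0 + 1) (fun y hy => by
    rw [zR_zero (by linarith)]
    ring)
  have iz1 := int_m h.cont hz1.smooth.continuous (R := R0 + 1) (fun y hy =>
    zR_zero (by linarith))
  have key : ∀ σ : ℝ, (σ = 1 ∨ σ = -1) → -(2 * σ * K1 m ν c ζ) ≤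
      2 * (K * N) * Real.sqrt (a * B) := by
    intro σ hσ
    have hσ1 : |σ| = 1 := by rcases hσ with rfl | rfl <;> simp
    refine opt h.a0 h.B0 h.Ba (by positivity) ?_
    intro δ hδ hδ1
    have t0 := TFn_const_mul hz1 (N * δ ^ 2)
    have t1 := TFn_add (TFn_add t0 (hT N hN)) (TFn_const_mul hk2 (2 * δ * σ))
    have e0 : |N * δ ^ 2| * N1 + C1 * N + |2 * δ * σ| * (C2 * N) ≤ (N1 + C1 + 2 * C2) * N := by
      rw [abs_mul (2 * δ), hσ1, abs_of_nonneg (show 0 ≤ N * δ ^ 2 by positivity),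
        abs_of_pos (show 0 < 2 * δ by positivity)]
      have f1 : δ ^ 2 ≤ 1 := by nlinarith only [hδ1, hδ]
      have f2 : N * δ ^ 2 * N1 ≤ N * 1 * N1 := by gcongr
      have f3 : 2 * δ * 1 * (C2 * N) ≤ 2 * 1 * 1 * (C2 * N) := by (clear * - hδ1 hC2 hN; gcongr)
      linarith
    have h1 := h.Z _ _ (TFn_mono t1 le_rfl e0) (fun y => by
      rcases le_or_gt ‖y‖ (R0 - 2) with hy | hy
      · rw [zR_one hy]
        have g1 := TFn_norm hζ y
        rw [Real.norm_eq_abs] at g1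
        have g2 := cu1_nonneg 4 (ht ν c y)
        have g3 := cu1_le_one 4 (ht ν c y)
        set z := ht ν c y with hz
        have g4 : |2 * δ * σ * (cu1 4 z * (z * ζ y))| ≤ 2 * δ * (|z| * N) := by
          rw [abs_mul, abs_mul (2 * δ), hσ1, abs_of_pos (show 0 < 2 * δ by positivity), mul_one,
            abs_mul, abs_mul, abs_of_nonneg g2]
          refine mul_le_mul_of_nonneg_left ?_ (by positivity)
          calc cu1 4 z * (|z| * |ζ y|) ≤ 1 * (|z| * N) := by (clear * - g3 g1; gcongr)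
            _ = _ := one_mul _
        have g5 : 2 * δ * (|z| * N) ≤ N * (δ ^ 2 + z ^ 2) := by
          have : 2 * δ * |z| ≤ δ ^ 2 + z ^ 2 := by
            linarith only [sq_nonneg (δ - |z|), sq_abs z]
          nlinarith only [hN, this]
        have g6 := (abs_le.1 g4).1
        linarith only [g5, g6]
      · rw [hks' y hy]
        have := zR_nonneg (R0 - 2) y
        rw [mul_zero, add_zero]
        (clear * - hN hδ this; positivity)) (fun y hy => by
      rw [zR_zero (by linarith), hks' y (by linarith)]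
      ring)
    have e1 : ∫ y, m y * (N * δ ^ 2 * zR (R0 - 2) y + N * (zR (R0 - 2) y * ht ν c y ^ 2) +
        2 * δ * σ * (cu1 4 (ht ν c y) * (ht ν c y * ζ y))) =
        N * δ ^ 2 * (∫ y, m y * zR (R0 - 2) y) +
        N * (∫ y, m y * (zR (R0 - 2) y * ht ν c y ^ 2)) + 2 * δ * σ * K1 m ν c ζ := by
      unfold K1
      rw [← integral_const_mul, ← integral_const_mul, ← integral_const_mul, ← integral_add,
        ← integral_add]
      · congr 1
        funext y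
        ring
      · refine Integrable.add (iz1.const_mul _) ?_
        refine iz.congr (Filter.Eventually.of_forall fun y => ?_)
        ring
      · exact iK.const_mul _
      · exact iz1.const_mul _
      · refine iz.congr (Filter.Eventually.of_forall fun y => ?_)
        ring
    rw [e1] at h1
    have h2 : N * δ ^ 2 * (∫ y, m y * zR (R0 - 2) y) ≤ N * δ ^ 2 * (C0 * a) :=
      mul_le_mul_of_nonneg_left h.mass (by positivity)
    have h3 := mul_le_mul_of_nonneg_left hb hN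
    have hB := h.B0
    have ha := h.a0
    have f4 : 0 ≤ C1 * N * (δ ^ 2 * a) := by positivity
    have f5 : 0 ≤ C0 * (N1 + C1 + 2 * C2) * N * (δ ^ 2 * a) := by positivity
    have f6 : 0 ≤ C0 * N * B := by positivity
    have f7 : K * N * (δ ^ 2 * a + B) = C0 * N * (δ ^ 2 * a) + C1 * N * (δ ^ 2 * a) +
        C0 * (N1 + C1 + 2 * C2) * N * (δ ^ 2 * a) + C0 * N * B + C1 * N * B +
        C0 * (N1 + C1 + 2 * C2) * N * B := by
      rw [hK]
      ring
    rw [f7]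
    linarith only [h1, h2, h3, f4, f5, f6]
  have k1 := key 1 (Or.inl rfl)
  have k2 := key (-1) (Or.inr rfl)
  rw [abs_le]
  constructor <;> linarith

end

end SAm

end TG


end

section

/-!
# Sheet lemma (module SA), part 6: the tilt and offset of the sheet (helper65)
-/

open MeasureTheory Metric Set TrI
open scoped InnerProductSpace ContDiff

namespace TG

namespace SAm

noncomputable section

open TU PF

variable {d : ℕ}

lemma TFn_zero {F : Type*} [NormedAddCommGroup F] [NormedSpace ℝ F] (J : ℕ) {N : ℝ}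
    (hN : 0 ≤ N) : TFn J N (fun _ : Sp d => (0 : F)) where
  smooth := contDiff_const
  bd := by
    intro j _ x
    have : iteratedFDeriv ℝ j (fun _ : Sp d => (0 : F)) x = 0 := by
      rw [show (fun _ : Sp d => (0 : F)) = 0 from rfl]
      simp
    rw [this, norm_zero]
    exact hN

lemma Cyl_zero {F : Type*} [NormedAddCommGroup F] (ν : Sp d) (ρ : ℝ) :
    Cyl ν ρ (fun _ : Sp d => (0 : F)) where
  const := fun _ => rfl
  supp := fun _ h => absurd rfl h

lemma Cyl_mono {F : Type*} [NormedAddCommGroup F] {ν : Sp d} {ρ ρ' : ℝ} {ζ : Sp d → F}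
    (h : Cyl ν ρ ζ) (hρ : ρ ≤ ρ') : Cyl ν ρ' ζ where
  const := h.const
  supp := fun y hy => (h.supp y hy).trans hρ

lemma dv_smul {χ : Sp d → ℝ} (hχ : Differentiable ℝ χ) (w y : Sp d) :
    dv (fun y => χ y • w) y = fderiv ℝ χ y w := by
  unfold dv
  have h1 : HasFDerivAt (fun y => χ y • w) ((fderiv ℝ χ y).smulRight w) y :=
    (hχ y).hasFDerivAt.smul_const w
  rw [h1.fderiv]
  have h2 : w = ∑ j : Fin d, w j • (EuclideanSpace.single j (1 : ℝ) : Sp d) := by
    ext i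
    simp [Pi.single_apply]
  conv_rhs => rw [h2, map_sum]
  refine Finset.sum_congr rfl fun j _ => ?_
  rw [map_smul, ContinuousLinearMap.smulRight_apply]
  simp only [PiLp.smul_apply, smul_eq_mul]
  ring

lemma dv_zero (y : Sp d) : dv (fun _ : Sp d => (0 : Sp d)) y = 0 := by
  unfold dv
  refine Finset.sum_eq_zero fun j _ => ?_
  rw [fderiv_fun_const]
  rfl

lemma K1_neg {m : Sp d → ℝ} {ν : Sp d} {c : ℝ} (ζ : Sp d → ℝ) :
    ∫ y, m y * (cu1 4 (ht ν c y) * (0 - ht ν c y * ζ y)) = -K1 m ν c ζ := by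
  unfold K1
  rw [← integral_neg]
  congr 1
  funext y
  ring

/-- bound of the vector -/
lemma L3 (hd : 1 ≤ d) (JB : ℕ) (R0 C0 : ℝ) (hR0 : 100 ≤ R0) (hC0 : 0 < C0) :
    ∃ C : ℝ, 0 < C ∧
    ∀ (m : Sp d → ℝ) (ν : Sp d) (c a B η al : ℝ) (w : Sp d),
      SFr JB C0 R0 m ν c a B η al w → ‖w‖ ≤ C * Real.sqrt (a * B) := by
  obtain ⟨C2, hC2, hL⟩ := L2 (d := d) R0 C0 hR0 hC0
  obtain ⟨NJ, hNJ, hcJ⟩ := chp_TFn (d := d) JB
  obtain ⟨N3, hN3, hc3⟩ := chp_TFn (d := d) 3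
  obtain ⟨v, hv, hlow⟩ := chp_lower hd
  refine ⟨(C2 * N3 + C0 * NJ * C0) / v, by positivity, ?_⟩
  intro m ν c a B η al w h
  set s := Real.sqrt (a * B) with hs
  rcases (norm_nonneg w).eq_or_lt with hw | hw
  · rw [← hw]
    positivity
  have hcs : Differentiable ℝ (chp ν) := (hc3 ν h.nu).smooth.differentiable (by norm_num)
  have hcyl := chp_cyl h.nu
  have hYC : Cyl ν (R0 / 2) (fun y => chp ν y • w) := by
    refine ⟨fun y => by rw [← hcyl.const], fun y hy => ?_⟩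
    exact (hcyl.supp y (fun h0 => hy (by rw [h0, zero_smul]))).trans (by linarith)
  have h1 := h.SH (fun _ => 0) (fun y => chp ν y • w) (‖w‖ * NJ) (TFn_zero JB (by positivity))
    (TFn_vec (hcJ ν h.nu) w) (Cyl_zero ν _) hYC (fun y => by
      rw [inner_smul_right, h.wn, mul_zero])
  simp only [dv_smul hcs, inner_smul_right] at h1
  rw [K1_neg] at h1
  have e1 : plInt ν c (fun _ => (0 : ℝ)) = 0 := by
    unfold plInt
    simp
  have e2 : plInt ν c (fun y => chp ν y * ⟪w, w⟫_ℝ) = ‖w‖ ^ 2 * plInt ν c (chp ν) := by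
    rw [← plInt_mul]
    congr 1
    funext y
    rw [real_inner_self_eq_norm_sq]
    ring
  rw [e1, e2, mul_zero, zero_add] at h1
  have h2 := hL JB m ν c a B η al w h (fun y => fderiv ℝ (chp ν) y w) (‖w‖ * N3)
    (TFn_fderiv (hc3 ν h.nu) w) (by
      refine ⟨fun y => ?_, fun y hy => ?_⟩
      · have hAA : chp ν = chp ν ∘ (tangL ν) := by
          funext z
          simp only [Function.comp_apply, tangL_apply]
          exact hcyl.const z
        have hBB : HasFDerivAt (chp ν ∘ (tangL ν))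
            ((fderiv ℝ (chp ν) (tangL ν y)).comp (tangL ν)) y :=
          (hcs _).hasFDerivAt.comp y (tangL ν).hasFDerivAt
        rw [← hAA] at hBB
        rw [hBB.fderiv, ContinuousLinearMap.comp_apply, tangL_apply, tangL_apply,
          tang_of_inner h.wn]
      · by_contra h0
        push Not at h0
        exact hy (by
          rw [fderiv_zero_of (ρ := 2) (fun y hy => hcyl.supp y hy) (by linarith)]
          rfl))
  have h3 := hlow ν c h.nu
  have h4 := (abs_le.1 h1).1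
  have h5 := (abs_le.1 h2).1
  have h6 := (abs_le.1 h2).2
  have h7 : ‖w‖ ^ 2 * v ≤ ‖w‖ ^ 2 * plInt ν c (chp ν) :=
    mul_le_mul_of_nonneg_left h3 (by positivity)
  have h8 : C0 * (‖w‖ * NJ) * η ≤ C0 * (‖w‖ * NJ) * (C0 * s) :=
    mul_le_mul_of_nonneg_left h.eta (by positivity)
  rw [div_mul_eq_mul_div, le_div_iff₀ hv]
  have h9 : ‖w‖ * (‖w‖ * v) ≤ ‖w‖ * ((C2 * N3 + C0 * NJ * C0) * s) := by
    linarith only [h4, h5, h7, h8]
  exact le_of_mul_le_mul_left h9 hw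

/-- first moments -/
lemma L4 (hDV : StmtDV) (hd : 2 ≤ d) (JB : ℕ) : ∃ J' : ℕ, ∀ (R0 C0 : ℝ), 100 ≤ R0 → 0 < C0 →
    ∃ C : ℝ, 0 < C ∧
    ∀ (m : Sp d → ℝ) (ν : Sp d) (c a B η al : ℝ) (w : Sp d),
      SFr JB C0 R0 m ν c a B η al w → ∃ o : ℝ, |o| ≤ C * Real.sqrt (a * B) ∧
      ∀ (ζ : Sp d → ℝ) (N : ℝ), TFn J' N ζ → Cyl ν (R0 / 2) ζ →
        |K1 m ν c ζ - plInt ν c (fun y => (⟪w, y⟫_ℝ + o) * ζ y)| ≤ C * N * η := by
  have hd1 : 1 ≤ d := by omega
  obtain ⟨JD, hDV'⟩ := hDV d hd (JB + 1)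
  set J' := max JD 2 with hJ'
  refine ⟨J', ?_⟩
  intro R0 C0 hR0 hC0
  obtain ⟨CD, hCD, hdv⟩ := hDV' (R0 / 2) (by linarith)
  obtain ⟨C2, hC2, hL⟩ := L2 (d := d) R0 C0 hR0 hC0
  obtain ⟨C3, hC3, hL3⟩ := L3 hd1 JB R0 C0 hR0 hC0
  obtain ⟨NJ, hNJ, hcJ⟩ := chp_TFn (d := d) J'
  obtain ⟨v, hv, hlow⟩ := chp_lower hd1
  obtain ⟨CP, hCP, hpl⟩ := plInt_bound hd1 (R0 / 2)
  set CO := (C2 * NJ + CP * (C3 * NJ * R0)) / v with hCO
  set CN := 1 + CP / v * NJ with hCN
  have hCO0 : 0 < CO := by positivity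
  have hCN0 : 0 < CN := by positivity
  refine ⟨CO + C0 * (CD * CN), by positivity, ?_⟩
  intro m ν c a B η al w h
  have hν := h.nu
  have hcyl := Cyl_mono (chp_cyl hν) (show (2 : ℝ) ≤ R0 / 2 by linarith)
  set χ := chp ν with hχ
  have hχT := hcJ ν hν
  have hχc : Continuous χ := hχT.smooth.continuous
  set I0 := plInt ν c χ with hI0
  have hI : v ≤ I0 := hlow ν c hν
  have hI0' : 0 < I0 := lt_of_lt_of_le hv hI
  set s := Real.sqrt (a * B) with hs
  have hs0 : 0 ≤ s := Real.sqrt_nonneg _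
  have hwc : Continuous (fun y : Sp d => ⟪w, y⟫_ℝ) := by fun_prop
  set o := (K1 m ν c χ - plInt ν c (fun y => ⟪w, y⟫_ℝ * χ y)) / I0 with ho
  have hb1 : |K1 m ν c χ| ≤ C2 * NJ * s :=
    hL JB m ν c a B η al w h χ NJ (TFn_mono hχT (le_max_right _ _) le_rfl) hcyl
  have hb2 : |plInt ν c (fun y => ⟪w, y⟫_ℝ * χ y)| ≤ CP * (C3 * NJ * R0) * s := by
    have h1 := hpl ν hν (fun y => ⟪w, y⟫_ℝ * χ y) c (‖w‖ * (R0 / 2) * NJ) (by positivity)
      (fun y _ => by
        rw [abs_mul]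
        by_cases hy : χ y = 0
        · rw [hy]
          simp only [abs_zero, mul_zero]
          positivity
        · have e1 : |⟪w, y⟫_ℝ| ≤ ‖w‖ * (R0 / 2) := by
            rw [← inner_tang_of h.wn]
            exact (abs_real_inner_le_norm _ _).trans
              (mul_le_mul_of_nonneg_left (hcyl.supp y hy) (norm_nonneg _))
          have e2 := TFn_norm hχT y
          rw [Real.norm_eq_abs] at e2
          exact mul_le_mul e1 e2 (abs_nonneg _) (by positivity))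
      (fun y _ hy => hcyl.supp y (right_ne_zero_of_mul hy))
    refine h1.trans ?_
    have h2 := hL3 m ν c a B η al w h
    have h3 : ‖w‖ * (R0 / 2) * NJ ≤ (C3 * s) * R0 * NJ := by
      have : ‖w‖ * (R0 / 2) ≤ (C3 * s) * R0 :=
        mul_le_mul h2 (by linarith) (by linarith) (by positivity)
      exact mul_le_mul_of_nonneg_right this hNJ.le
    calc CP * (‖w‖ * (R0 / 2) * NJ) ≤ CP * ((C3 * s) * R0 * NJ) :=
          mul_le_mul_of_nonneg_left h3 hCP.le
      _ = _ := by ring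
  have hob : |o| ≤ CO * s := by
    rw [ho, abs_div, abs_of_pos hI0', div_le_iff₀ hI0']
    have h1 : |K1 m ν c χ - plInt ν c (fun y => ⟪w, y⟫_ℝ * χ y)| ≤
        (C2 * NJ + CP * (C3 * NJ * R0)) * s := by
      refine (abs_sub _ _).trans ?_
      linarith
    refine h1.trans ?_
    have h2 : CO * s * v ≤ CO * s * I0 := mul_le_mul_of_nonneg_left hI (by positivity)
    have h3 : CO * s * v = (C2 * NJ + CP * (C3 * NJ * R0)) * s := by
      rw [hCO]
      field_simp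
    linarith
  refine ⟨o, hob.trans (mul_le_mul_of_nonneg_right (by
    have : 0 < C0 * (CD * CN) := by positivity
    linarith) hs0), ?_⟩
  intro ζ N hζ hζC
  have hN := TFn_nonneg hζ
  have hζc : Continuous ζ := hζ.smooth.continuous
  set p := plInt ν c ζ with hp
  have hpb : |p| ≤ CP * N := hpl ν hν ζ c N hN (fun y _ => by
    have := TFn_norm hζ y
    rwa [Real.norm_eq_abs] at this) (fun y _ hy => hζC.supp y hy)
  set t := p / I0 with ht'
  have htb : |t| ≤ CP / v * N := by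
    rw [ht', abs_div, abs_of_pos hI0', div_le_iff₀ hI0']
    refine hpb.trans ?_
    have h2 : CP / v * N * v ≤ CP / v * N * I0 := mul_le_mul_of_nonneg_left hI (by positivity)
    have h3 : CP / v * N * v = CP * N := by field_simp
    linarith
  set ζ' : Sp d → ℝ := fun y => ζ y - t * χ y with hζ'
  have hζ'T : TFn J' (CN * N) ζ' := by
    refine TFn_mono (TFn_sub hζ (TFn_const_mul hχT t)) le_rfl ?_
    have := mul_le_mul_of_nonneg_right htb hNJ.le
    rw [hCN]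
    linarith only [this]
  have hζ'C : Cyl ν (R0 / 2) ζ' := by
    refine ⟨fun y => ?_, fun y hy => ?_⟩
    · simp only [hζ']
      rw [← hζC.const, ← hcyl.const]
    · by_contra h0
      apply hy
      simp only [hζ']
      have e1 : ζ y = 0 := by
        by_contra h1
        exact h0 (hζC.supp y h1)
      have e2 : χ y = 0 := by
        by_contra h1
        exact h0 (hcyl.supp y h1)
      rw [e1, e2]
      ring
  have hmean : plInt ν 0 ζ' = 0 := by
    rw [plInt_cyl hν hζ'C.const 0 c]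
    have e1 : plInt ν c ζ' = plInt ν c ζ - plInt ν c (fun y => t * χ y) :=
      plInt_sub hν hζc (continuous_const.mul hχc) (ρ := R0 / 2) (ρ' := R0 / 2)
        (fun y hy => hζC.supp y hy) (fun y hy => hcyl.supp y (right_ne_zero_of_mul hy)) c
    rw [e1, plInt_mul, ← hp, ← hI0, ht']
    field_simp
    ring
  obtain ⟨Y, hYT, hYC, hYn, hYd⟩ := hdv ν hν ζ' (CN * N)
    (TFn_mono hζ'T (le_max_left _ _) le_rfl) hζ'C hmean
  have hY1 : ContDiff ℝ 1 Y := hYT.smooth.of_le (by norm_cast; omega)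
  have h1 := h.SH (fun _ => 0) Y (CD * (CN * N)) (TFn_zero JB (by positivity))
    (TFn_mono hYT (by omega) le_rfl) (Cyl_zero ν _) hYC hYn
  simp only [hYd] at h1
  rw [K1_neg] at h1
  have e1 : plInt ν c (fun _ => (0 : ℝ)) = 0 := by
    unfold plInt
    simp
  have h2 := dv_plInt (w := w) hd1 hν h.wn hY1 hYC c
  simp only [hYd] at h2
  rw [e1, mul_zero, zero_add] at h1
  have e2 : K1 m ν c ζ' = K1 m ν c ζ - t * K1 m ν c χ := by
    unfold K1
    obtain ⟨Ck, _, hk⟩ := cutK d 2 R0 hR0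
    obtain ⟨-, ka, kb⟩ := hk ν c hν h.cle ζ N (TFn_mono hζ (le_max_right _ _) le_rfl) hζC
    obtain ⟨-, ka', kb'⟩ := hk ν c hν h.cle χ NJ (TFn_mono hχT (le_max_right _ _) le_rfl) hcyl
    have i1 := int_m h.cont ka.smooth.continuous (R := R0 - 2) (fun y hy => by
      have : cu1 4 (ht ν c y) * (ht ν c y * ζ y) = ht ν c y * (cu1 4 (ht ν c y) * ζ y) := by
        ring
      rw [this, kb y hy, mul_zero])
    have i2 := int_m h.cont ka'.smooth.continuous (R := R0 - 2) (fun y hy => by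
      have : cu1 4 (ht ν c y) * (ht ν c y * χ y) = ht ν c y * (cu1 4 (ht ν c y) * χ y) := by
        ring
      rw [this, kb' y hy, mul_zero])
    rw [← integral_const_mul, ← integral_sub i1 (i2.const_mul t)]
    congr 1
    funext y
    simp only [hζ']
    ring
  have hsζ : ∀ y, ⟪w, y⟫_ℝ * ζ y ≠ 0 → ‖tang ν y‖ ≤ R0 / 2 := fun y hy =>
    hζC.supp y (right_ne_zero_of_mul hy)
  have hsχ : ∀ y, ⟪w, y⟫_ℝ * χ y ≠ 0 → ‖tang ν y‖ ≤ R0 / 2 := fun y hy =>
    hcyl.supp y (right_ne_zero_of_mul hy)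
  have e3 : plInt ν c (fun y => ⟪w, y⟫_ℝ * ζ' y) =
      plInt ν c (fun y => ⟪w, y⟫_ℝ * ζ y) - t * plInt ν c (fun y => ⟪w, y⟫_ℝ * χ y) := by
    have e0 : plInt ν c (fun y => ⟪w, y⟫_ℝ * ζ y - t * (⟪w, y⟫_ℝ * χ y)) =
        plInt ν c (fun y => ⟪w, y⟫_ℝ * ζ y) - plInt ν c (fun y => t * (⟪w, y⟫_ℝ * χ y)) :=
      plInt_sub hν (hwc.mul hζc) (continuous_const.mul (hwc.mul hχc))
        hsζ (ρ' := R0 / 2) (fun y hy => hsχ y (right_ne_zero_of_mul hy)) c
    rw [← plInt_mul, ← e0]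
    congr 1
    funext y
    simp only [hζ']
    ring
  have e4 : plInt ν c (fun y => (⟪w, y⟫_ℝ + o) * ζ y) =
      plInt ν c (fun y => ⟪w, y⟫_ℝ * ζ y) + o * p := by
    have e0 : plInt ν c (fun y => ⟪w, y⟫_ℝ * ζ y + o * ζ y) =
        plInt ν c (fun y => ⟪w, y⟫_ℝ * ζ y) + plInt ν c (fun y => o * ζ y) :=
      plInt_add hν (hwc.mul hζc) (continuous_const.mul hζc)
        hsζ (ρ' := R0 / 2) (fun y hy => hζC.supp y (right_ne_zero_of_mul hy)) c
    rw [hp, ← plInt_mul, ← e0]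
    congr 1
    funext y
    ring
  have e5 : o * p = t * K1 m ν c χ - t * plInt ν c (fun y => ⟪w, y⟫_ℝ * χ y) := by
    rw [ho, ht']
    field_simp
  have e6 : K1 m ν c ζ - plInt ν c (fun y => (⟪w, y⟫_ℝ + o) * ζ y) =
      K1 m ν c ζ' - plInt ν c (fun y => ⟪w, y⟫_ℝ * ζ' y) := by
    rw [e4, e5, e2, e3]
    ring
  rw [e6, h2]
  have e7 : K1 m ν c ζ' - -plInt ν c (fun y => ⟪w, Y y⟫_ℝ) =
      -(-K1 m ν c ζ' - plInt ν c (fun y => ⟪w, Y y⟫_ℝ)) := by ring
  rw [e7, abs_neg]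
  refine h1.trans ?_
  have : 0 ≤ CO * N * η := by
    have := h.eta0
    (clear * - hC2 hNJ hCP hC3 hR0 hv hN this; positivity)
  linarith only [this]

end

end SAm

end TG


end
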