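import Mathlib
import Pool.Agent.TRM.C01
import Pool.Agent.TRM.C02
import Pool.Agent.TRM.C05

/-! Parts: TG.KitMono, TG.TPa, TG.TPb, TG.TPc, TG.TPd, TG.TP, TG.SHT -/

section

/-!
# Profiles, kits and base kernels of higher order are also of lower order   (helper46)
-/

open MeasureTheory Metric Set TrI
open scoped InnerProductSpace ContDiff

namespace TG

noncomputable section

variable {d : ℕ}

theorem IsProf.mono_order {J J' : ℕ} {M : ℝ} {β : Sp d → ℝ} (h : IsProf J M β) (hJ : J' ≤ J) :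
    IsProf J' M β where
  smooth := h.smooth.of_le (by exact_mod_cast hJ)
  nonneg := h.nonneg
  mono := h.mono
  supp := h.supp
  int := h.int
  der := fun j hj => h.der j (hj.trans hJ)

theorem Kit.mono_order {J J' : ℕ} {M : ℝ} {β : Sp d → ℝ} (h : Kit J M β) (hJ : J' ≤ J) :
    Kit J' M β where
  prof := h.prof.mono_order hJ
  smooth1 := h.smooth1.of_le (by exact_mod_cast hJ)
  smooth2 := h.smooth2.of_le (by exact_mod_cast hJ)
  supp1 := h.supp1
  supp2 := h.supp2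
  grad1 := h.grad1
  grad2 := h.grad2
  nonneg1 := h.nonneg1
  nonneg2 := h.nonneg2
  le1 := h.le1
  le2 := h.le2
  mono1 := h.mono1
  mono2 := h.mono2
  der1 := fun j hj => h.der1 j (hj.trans hJ)
  der2 := fun j hj => h.der2 j (hj.trans hJ)

theorem BaseKer.mono_order {J J' : ℕ} {M c : ℝ} {b : Sp d → ℝ} (h : BaseKer J M c b)
    (hJ : J' ≤ J) : BaseKer J' M c b where
  c_pos := h.c_pos
  smooth := h.smooth.of_le (by exact_mod_cast hJ)
  nonneg := h.nonneg
  mono := h.mono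
  supp := h.supp
  int := h.int
  kit := fun n => (h.kit n).mono_order hJ
  low := h.low

end

end TG


end

section

/-!
# Module TP, part a: general lemmas (parametric integrals, integration by parts)
-/

set_option linter.unusedSectionVars false

open MeasureTheory Metric Set TrI
open scoped InnerProductSpace ContDiff

namespace TG
namespace TP

/-! ## Parametric integrals -/

section Param

variable {X Z Y : Type} [NormedAddCommGroup X] [NormedSpace ℝ X] [FiniteDimensional ℝ X]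
  [NormedAddCommGroup Z] [NormedSpace ℝ Z] [FiniteDimensional ℝ Z] [MeasurableSpace Y]

lemma int_equiv {A B' : Type} [NormedAddCommGroup A] [NormedSpace ℝ A] [NormedAddCommGroup B']
    [NormedSpace ℝ B'] (L : A ≃ₗᵢ[ℝ] B') (ν : Measure Y) (φ : Y → A) :
    L (∫ a, φ a ∂ν) = ∫ a, L (φ a) ∂ν :=
  (L.toContinuousLinearEquiv.integral_comp_comm φ).symm

lemma bdd_loc {F : Type} [NormedAddCommGroup F] {G : X × Z → F} (hG : Continuous G) (p0 : X)
    (B : ℝ) : ∃ M : ℝ, ∀ p ∈ closedBall p0 1, ∀ z, ‖z‖ ≤ B → ‖G (p, z)‖ ≤ M := by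
  have hX : ProperSpace X := FiniteDimensional.proper ℝ X
  have hZ : ProperSpace Z := FiniteDimensional.proper ℝ Z
  obtain ⟨M, hM⟩ := ((isCompact_closedBall p0 1).prod
    (isCompact_closedBall (0 : Z) B)).exists_bound_of_continuousOn hG.continuousOn
  exact ⟨M, fun p hp z hz => hM (p, z) ⟨hp, by simpa using hz⟩⟩

lemma meas_comp {F : Type} [NormedAddCommGroup F] {G : X × Z → F} (hG : Continuous G) (p : X)
    {ν : Measure Y} {θ : Y → Z} (hθ : AEStronglyMeasurable θ ν) :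
    AEStronglyMeasurable (fun a => G (p, θ a)) ν :=
  (hG.comp (Continuous.prodMk_right p)).comp_aestronglyMeasurable hθ

lemma int_comp {F : Type} [NormedAddCommGroup F] {G : X × Z → F} (hG : Continuous G) (p : X)
    {ν : Measure Y} [IsFiniteMeasure ν] {θ : Y → Z} (hθ : AEStronglyMeasurable θ ν) {B : ℝ}
    (hB : ∀ᵐ a ∂ν, ‖θ a‖ ≤ B) :
    Integrable (fun a => G (p, θ a)) ν := by
  obtain ⟨M, hM⟩ := bdd_loc hG p B
  refine Integrable.of_bound (meas_comp hG p hθ) M ?_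
  filter_upwards [hB] with a ha
  exact hM p (mem_closedBall_self zero_le_one) _ ha

theorem param (ν : Measure Y) [IsFiniteMeasure ν] (θ : Y → Z) (hθ : AEStronglyMeasurable θ ν)
    (B : ℝ) (hB : ∀ᵐ a ∂ν, ‖θ a‖ ≤ B) (m : ℕ) :
    ∀ (F : Type) [NormedAddCommGroup F] [NormedSpace ℝ F] (H : X × Z → F), ContDiff ℝ m H →
      ContDiff ℝ m (fun p => ∫ a, H (p, θ a) ∂ν) ∧ ∀ j ≤ m, ∀ p,
        iteratedFDeriv ℝ j (fun p => ∫ a, H (p, θ a) ∂ν) p =
          ∫ a, iteratedFDeriv ℝ j (fun q => H (q, θ a)) p ∂ν := by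
  induction m with
  | zero =>
    intro F _ _ H hH
    have hc : Continuous H := hH.continuous
    constructor
    · rw [Nat.cast_zero, contDiff_zero]
      rw [continuous_iff_continuousAt]
      intro p0
      obtain ⟨M, hM⟩ := bdd_loc hc p0 B
      refine continuousAt_of_dominated (F := fun p a => H (p, θ a)) (bound := fun _ => M) ?_ ?_
        (integrable_const _) ?_
      · exact Filter.Eventually.of_forall fun p => meas_comp hc p hθ
      · filter_upwards [closedBall_mem_nhds p0 zero_lt_one] with p hp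
        filter_upwards [hB] with a ha
        exact hM p hp _ ha
      · exact Filter.Eventually.of_forall fun a =>
          (hc.comp (Continuous.prodMk_left (θ a))).continuousAt
    · intro j hj p
      obtain rfl : j = 0 := by omega
      simp only [iteratedFDeriv_zero_eq_comp, Function.comp_apply]
      exact int_equiv (continuousMultilinearCurryFin0 ℝ X F).symm _ _
  | succ m ih =>
    intro F _ _ H hH
    have hc : Continuous H := hH.continuous
    set H1 : X × Z → (X →L[ℝ] F) := fun q => (fderiv ℝ H q).comp (ContinuousLinearMap.inl ℝ X Z)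
      with hH1
    have hd : ∀ p z, HasFDerivAt (fun q => H (q, z)) (H1 (p, z)) p := by
      intro p z
      have h1 : HasFDerivAt H (fderiv ℝ H (p, z)) (p, z) :=
        (hH.differentiable (by simp) (p, z)).hasFDerivAt
      exact h1.comp p (hasFDerivAt_prodMk_left p z)
    have hH1c : ContDiff ℝ m H1 := by
      have h1 : ContDiff ℝ m (fderiv ℝ H) := hH.fderiv_right (by simp)
      exact h1.clm_comp contDiff_const
    have hI : ∀ p, HasFDerivAt (fun p => ∫ a, H (p, θ a) ∂ν) (∫ a, H1 (p, θ a) ∂ν) p := by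
      intro p0
      obtain ⟨M, hM⟩ := bdd_loc hH1c.continuous p0 B
      refine hasFDerivAt_integral_of_dominated_of_fderiv_le (F := fun p a => H (p, θ a))
        (F' := fun p a => H1 (p, θ a)) (bound := fun _ => M)
        (closedBall_mem_nhds p0 zero_lt_one) ?_ ?_ ?_ ?_ (integrable_const _) ?_
      · exact Filter.Eventually.of_forall fun p => meas_comp hc p hθ
      · exact int_comp hc p0 hθ hB
      · exact meas_comp hH1c.continuous p0 hθ
      · filter_upwards [hB] with a ha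
        intro p hp
        exact hM p hp _ ha
      · exact Filter.Eventually.of_forall fun a p _ => hd p (θ a)
    obtain ⟨ih1, ih2⟩ := ih (X →L[ℝ] F) H1 hH1c
    constructor
    · push_cast
      exact contDiff_succ_iff_hasFDerivAt.mpr ⟨_, ih1, hI⟩
    · intro j hj p
      rcases j with _ | j
      · simp only [iteratedFDeriv_zero_eq_comp, Function.comp_apply]
        exact int_equiv (continuousMultilinearCurryFin0 ℝ X F).symm _ _
      · have h1 : (fderiv ℝ (fun p => ∫ a, H (p, θ a) ∂ν)) = fun p => ∫ a, H1 (p, θ a) ∂ν :=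
          funext fun q => (hI q).fderiv
        have h2 : ∀ z, fderiv ℝ (fun q => H (q, z)) = fun q => H1 (q, z) :=
          fun z => funext fun q => (hd q z).fderiv
        simp only [iteratedFDeriv_succ_eq_comp_right, Function.comp_apply, h1, h2]
        rw [ih2 j (by omega) p]
        exact int_equiv (A := ContinuousMultilinearMap ℝ (fun _ : Fin j => X) (X →L[ℝ] F))
          (B' := ContinuousMultilinearMap ℝ (fun _ : Fin (j + 1) => X) F)
          (continuousMultilinearCurryRightEquiv' ℝ j X F).symm ν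
          (fun a => iteratedFDeriv ℝ j (fun q => H1 (q, θ a)) p)

end Param

/-! ## Integration by parts -/

section IBP

variable {d : ℕ}

lemma post_bound {A B : Type} [NormedAddCommGroup A] [NormedSpace ℝ A] [NormedAddCommGroup B]
    [NormedSpace ℝ B] (D : A →L[ℝ] B) {k : ℕ} {Lam : Sp d → A} (hL : ContDiff ℝ k Lam) {N : ℝ}
    (hN : ∀ j ≤ k, ∀ p, ‖iteratedFDeriv ℝ j Lam p‖ ≤ N) :
    ∀ j ≤ k, ∀ p, ‖iteratedFDeriv ℝ j (fun p => D (Lam p)) p‖ ≤ (‖D‖ + 1) * N := by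
  intro j hj p
  have h0 : 0 ≤ N := (norm_nonneg _).trans (hN 0 (Nat.zero_le _) p)
  have h1 := D.norm_iteratedFDeriv_comp_left (hL.contDiffAt (x := p)) (n := j)
    (by exact_mod_cast hj)
  calc ‖iteratedFDeriv ℝ j (fun p => D (Lam p)) p‖ ≤ ‖D‖ * ‖iteratedFDeriv ℝ j Lam p‖ := h1
    _ ≤ ‖D‖ * N := mul_le_mul_of_nonneg_left (hN j hj p) (norm_nonneg _)
    _ ≤ (‖D‖ + 1) * N := by nlinarith

lemma post_supp {A B : Type} [NormedAddCommGroup A] [NormedSpace ℝ A] [NormedAddCommGroup B]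
    [NormedSpace ℝ B] (D : A →L[ℝ] B) (Lam : Sp d → A) :
    tsupport (fun p => D (Lam p)) ⊆ tsupport Lam := by
  refine closure_mono fun p hp => ?_
  rw [Function.mem_support] at hp ⊢
  intro h
  exact hp (by rw [h, map_zero])

lemma cs_int {G : Sp d → ℝ} (hG : Continuous G) {A : Type} [Zero A] {Lam : Sp d → A}
    (hs : HasCompactSupport Lam) (h : ∀ p, Lam p = 0 → G p = 0) : Integrable G := by
  refine hG.integrable_of_hasCompactSupport (hs.mono' ?_)
  intro p hp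
  rw [Function.mem_support] at hp
  exact subset_closure (fun h0 => hp (h p h0))

theorem ibp_one {F G : Type} [NormedAddCommGroup F] [NormedSpace ℝ F] [NormedAddCommGroup G]
    [NormedSpace ℝ G] (B : G →L[ℝ] F →L[ℝ] ℝ)
    {Psi : Sp d → G} (hP : ContDiff ℝ 1 Psi)
    (hs : HasCompactSupport Psi) {f : Sp d → F} (hf : ContDiff ℝ 1 f) (w : Sp d) :
    ∫ p, B (Psi p) (fderiv ℝ f p w) = ∫ p, B (fderiv ℝ Psi p (-w)) (f p) := by
  have hfc : Continuous f := hf.continuous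
  have hfd : Continuous (fderiv ℝ f) := (hf.fderiv_right (m := 0) (by simp)).continuous
  have hPc : Continuous Psi := hP.continuous
  have hPd : Continuous (fderiv ℝ Psi) := (hP.fderiv_right (m := 0) (by simp)).continuous
  have hPs : HasCompactSupport (fderiv ℝ Psi) := hs.fderiv ℝ
  have h := integral_bilinear_fderiv_right_eq_neg_left_of_integrable (μ := volume)
      (B := B) (f := Psi) (g := f) (v := w) ?_ ?_ ?_
      (fun x _ => hP.differentiable (by simp) x) (fun x _ => hf.differentiable (by simp) x)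
  · rw [h, ← integral_neg]
    refine integral_congr_ae (Filter.Eventually.of_forall fun p => ?_)
    simp
  · refine cs_int (by fun_prop) hPs fun p hp => ?_
    rw [hp]; simp
  · refine cs_int (by fun_prop) hs fun p hp => ?_
    rw [hp]; simp
  · refine cs_int (by fun_prop) hs fun p hp => ?_
    rw [hp]; simp

theorem ibp {F G : Type} [NormedAddCommGroup F] [NormedSpace ℝ F] [NormedAddCommGroup G]
    [NormedSpace ℝ G] (B : G →L[ℝ] F →L[ℝ] ℝ) (m : ℕ) :
    ∀ (al : Fin m → Sp d), (∀ i, ‖al i‖ ≤ 1) → ∀ (J : ℕ) (Lam : Sp d → G) (N : ℝ),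
      ContDiff ℝ (J + m : ℕ) Lam → HasCompactSupport Lam →
      (∀ j ≤ J + m, ∀ p, ‖iteratedFDeriv ℝ j Lam p‖ ≤ N) →
      ∃ Psi : Sp d → G, ContDiff ℝ J Psi ∧
        (∀ j ≤ J, ∀ p, ‖iteratedFDeriv ℝ j Psi p‖ ≤ N) ∧ tsupport Psi ⊆ tsupport Lam ∧
        ∀ f : Sp d → F, ContDiff ℝ ∞ f →
          ∫ p, B (Lam p) (iteratedFDeriv ℝ m f p al) = ∫ p, B (Psi p) (f p) := by
  induction m with
  | zero =>
    intro al _ J Lam N hL hs hN
    exact ⟨Lam, hL, hN, Subset.rfl, fun f hf => rfl⟩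
  | succ m ih =>
    intro al hal J Lam N hL hs hN
    let D : (Sp d →L[ℝ] G) →L[ℝ] G := ContinuousLinearMap.apply ℝ G (-(al 0))
    have hD : ∀ S, D S = S (-(al 0)) := fun S => rfl
    have hD1 : ‖D‖ ≤ 1 := by
      refine ContinuousLinearMap.opNorm_le_bound _ zero_le_one fun S => ?_
      rw [hD, one_mul]
      calc ‖S (-(al 0))‖ ≤ ‖S‖ * ‖-(al 0)‖ := S.le_opNorm _
        _ ≤ ‖S‖ * 1 := by
            gcongr
            rw [norm_neg]; exact hal 0
        _ = ‖S‖ := mul_one _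
    have hLd : ContDiff ℝ (J + m : ℕ) (fderiv ℝ Lam) := hL.fderiv_right (by norm_cast)
    have hL1 : ContDiff ℝ (J + m : ℕ) (fun p => D (fderiv ℝ Lam p)) := D.contDiff.comp hLd
    have hsub : tsupport (fun p => D (fderiv ℝ Lam p)) ⊆ tsupport Lam :=
      (post_supp D (fderiv ℝ Lam)).trans (tsupport_fderiv_subset ℝ)
    have hs1 : HasCompactSupport (fun p => D (fderiv ℝ Lam p)) :=
      hs.of_isClosed_subset (isClosed_tsupport _) hsub
    have hN1 : ∀ j ≤ J + m, ∀ p, ‖iteratedFDeriv ℝ j (fun p => D (fderiv ℝ Lam p)) p‖ ≤ N := by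
      intro j hj p
      have h1 := D.norm_iteratedFDeriv_comp_left (hLd.contDiffAt (x := p)) (n := j)
        (by exact_mod_cast hj)
      calc ‖iteratedFDeriv ℝ j (fun p => D (fderiv ℝ Lam p)) p‖ ≤
          ‖D‖ * ‖iteratedFDeriv ℝ j (fderiv ℝ Lam) p‖ := h1
        _ ≤ 1 * ‖iteratedFDeriv ℝ j (fderiv ℝ Lam) p‖ := by (clear * - hD1; gcongr)
        _ = ‖iteratedFDeriv ℝ (j + 1) Lam p‖ := by rw [one_mul, norm_iteratedFDeriv_fderiv]
        _ ≤ N := hN (j + 1) (by omega) p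
    obtain ⟨Psi, hP1, hP2, hP3, hP4⟩ := ih (Fin.tail al) (fun i => hal _) J _ N hL1 hs1 hN1
    refine ⟨Psi, hP1, hP2, hP3.trans hsub, ?_⟩
    intro f hf
    rw [← hP4 f hf]
    have hg : ContDiff ℝ 1 (iteratedFDeriv ℝ m f) :=
      hf.iteratedFDeriv_right (by norm_cast; exact le_top)
    have hg1 : ContDiff ℝ 1 (fun p => iteratedFDeriv ℝ m f p (Fin.tail al)) :=
      (ContinuousMultilinearMap.apply ℝ (fun _ : Fin m => Sp d) F (Fin.tail al)).contDiff.comp hg
    have h1 := ibp_one B (hL.of_le (by norm_cast; omega)) hs hg1 (al 0)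
    have h2 : ∀ p, fderiv ℝ (fun p => iteratedFDeriv ℝ m f p (Fin.tail al)) p (al 0) =
        iteratedFDeriv ℝ (m + 1) f p al := by
      intro p
      rw [iteratedFDeriv_succ_apply_left, fderiv_continuousMultilinear_apply_const_apply]
      exact hg.differentiable (by simp) p
    simp_rw [h2] at h1
    exact h1

end IBP

end TP
end TG


end

section

/-!
# Module TP, part b: the kernel and its derivatives
-/

set_option linter.unusedSectionVars false

open MeasureTheory Metric Set TrI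
open scoped InnerProductSpace ContDiff Nat

namespace TG
namespace TP

section Bounds

variable {d : ℕ} {A1 A2 A3 : Type} [NormedAddCommGroup A1] [NormedSpace ℝ A1]
  [NormedAddCommGroup A2] [NormedSpace ℝ A2] [NormedAddCommGroup A3] [NormedSpace ℝ A3]

lemma leib (B : A1 →L[ℝ] A2 →L[ℝ] A3) {k : ℕ} {f1 : Sp d → A1} {f2 : Sp d → A2}
    (h1 : ContDiff ℝ k f1) (h2 : ContDiff ℝ k f2) (p : Sp d) {N1 N2 : ℝ}
    (b1 : ∀ j ≤ k, ‖iteratedFDeriv ℝ j f1 p‖ ≤ N1) (b2 : ∀ j ≤ k, ‖iteratedFDeriv ℝ j f2 p‖ ≤ N2) :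
    ∀ j ≤ k, ‖iteratedFDeriv ℝ j (fun q => B (f1 q) (f2 q)) p‖ ≤ 2 ^ k * ‖B‖ * N1 * N2 := by
  intro j hj
  have h01 : 0 ≤ N1 := (norm_nonneg _).trans (b1 0 (Nat.zero_le _))
  have h02 : 0 ≤ N2 := (norm_nonneg _).trans (b2 0 (Nat.zero_le _))
  have h := B.norm_iteratedFDeriv_le_of_bilinear h1 h2 p (n := j) (by exact_mod_cast hj)
  have h3 : ∑ i ∈ Finset.range (j + 1), (j.choose i : ℝ) * ‖iteratedFDeriv ℝ i f1 p‖ *
      ‖iteratedFDeriv ℝ (j - i) f2 p‖ ≤ ∑ i ∈ Finset.range (j + 1), (j.choose i : ℝ) * N1 * N2 := by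
    refine Finset.sum_le_sum fun i hi => ?_
    rw [Finset.mem_range] at hi
    have e1 := b1 i (by omega)
    have e2 := b2 (j - i) (by omega)
    (clear * - e1 e2 h01; gcongr)
  have h4 : ∑ i ∈ Finset.range (j + 1), (j.choose i : ℝ) * N1 * N2 = 2 ^ j * N1 * N2 := by
    rw [← Finset.sum_mul, ← Finset.sum_mul]
    congr 2
    have := Nat.sum_range_choose j
    exact_mod_cast this
  have h5 : (2 : ℝ) ^ j ≤ 2 ^ k := pow_le_pow_right₀ (by norm_num) hj
  calc _ ≤ _ := h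
    _ ≤ ‖B‖ * (2 ^ j * N1 * N2) := by
        rw [← h4]
        gcongr
    _ ≤ ‖B‖ * (2 ^ k * N1 * N2) := by gcongr
    _ = _ := by ring

lemma affb {k : ℕ} {f : Sp d → A1} (hf : ContDiff ℝ k f) (a : ℝ) (b p : Sp d) {j : ℕ}
    (hj : j ≤ k) :
    ‖iteratedFDeriv ℝ j (fun q => f (a • q + b)) p‖ ≤
      |a| ^ j * ‖iteratedFDeriv ℝ j f (a • p + b)‖ := by
  have hf2 : ContDiff ℝ k (fun q => f (q + b)) := hf.comp (contDiff_id.add contDiff_const)
  have h := (a • ContinuousLinearMap.id ℝ (Sp d)).iteratedFDeriv_comp_right hf2 p (i := j)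
    (by exact_mod_cast hj)
  have h1 : (fun q => f (q + b)) ∘ (a • ContinuousLinearMap.id ℝ (Sp d)) =
      fun q => f (a • q + b) := rfl
  rw [h1] at h
  rw [h, iteratedFDeriv_comp_add_right]
  refine (ContinuousMultilinearMap.norm_compContinuousLinearMap_le _ _).trans ?_
  rw [Finset.prod_const, Finset.card_univ, Fintype.card_fin, mul_comm]
  gcongr
  · rw [norm_smul, Real.norm_eq_abs]
    calc |a| * ‖ContinuousLinearMap.id ℝ (Sp d)‖ ≤ |a| * 1 := by
          gcongr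
          exact ContinuousLinearMap.norm_id_le
      _ = |a| := mul_one _
  · rfl

lemma affb' {k : ℕ} {f : Sp d → A1} (hf : ContDiff ℝ k f) {a A0 N : ℝ} (b p : Sp d)
    (ha : |a| ≤ A0) (hA : 1 ≤ A0) (hN : ∀ j ≤ k, ‖iteratedFDeriv ℝ j f (a • p + b)‖ ≤ N) :
    ∀ j ≤ k, ‖iteratedFDeriv ℝ j (fun q => f (a • q + b)) p‖ ≤ A0 ^ k * N := by
  intro j hj
  have h0 : 0 ≤ N := (norm_nonneg _).trans (hN 0 (Nat.zero_le _))
  calc _ ≤ _ := affb hf a b p hj
    _ ≤ A0 ^ j * N := by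
        gcongr
        exact hN j hj
    _ ≤ A0 ^ k * N := by
        gcongr

end Bounds

section Kernel

variable {d : ℕ} {V P G : Type} [NormedAddCommGroup V] [NormedSpace ℝ V]
  [NormedAddCommGroup P] [NormedSpace ℝ P] [NormedAddCommGroup G] [NormedSpace ℝ G]

/-- the parameter space: t, alpha, beta, kappa, xi, alpha', beta' -/
abbrev ZZ (d : ℕ) : Type := ℝ × ℝ × Sp d × ℝ × Sp d × ℝ × Sp d

/-- the kernel -/
noncomputable def HH (B : V →L[ℝ] P →L[ℝ] G) (S : Sp d → P)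
    (g : Sp d → V) (q : Sp d × ZZ d) : G :=
  (q.2.1 * bk d (q.2.2.1 • q.1 + q.2.2.2.1)) •
    B (g (q.2.2.2.2.2.2.1 • q.1 + q.2.2.2.2.2.2.2)) (S (q.2.2.2.2.1 • q.1 + q.2.2.2.2.2.1))

lemma HH_contDiff {k : ℕ} (B : V →L[ℝ] P →L[ℝ] G) {S : Sp d → P} (hS : ContDiff ℝ ∞ S)
    {g : Sp d → V} (hg : ContDiff ℝ k g) : ContDiff ℝ k (HH B S g) := by
  have hb : ContDiff ℝ k (bk d) := bk_contDiff.of_le (by exact_mod_cast le_top)
  have hP : ContDiff ℝ k S := hS.of_le (by exact_mod_cast le_top)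
  have h1 : ContDiff ℝ k (fun q : Sp d × ZZ d => q.2.1 * bk d (q.2.2.1 • q.1 + q.2.2.2.1)) := by
    fun_prop
  have h2 : ContDiff ℝ k (fun q : Sp d × ZZ d =>
      B (g (q.2.2.2.2.2.2.1 • q.1 + q.2.2.2.2.2.2.2))) := by
    fun_prop
  have h3 : ContDiff ℝ k (fun q : Sp d × ZZ d => S (q.2.2.2.2.1 • q.1 + q.2.2.2.2.2.1)) := by
    fun_prop
  exact h1.smul (h2.clm_apply h3)

lemma bk_bd (d k : ℕ) : ∃ M : ℝ, 0 < M ∧ ∀ j ≤ k, ∀ y, ‖iteratedFDeriv ℝ j (bk d) y‖ ≤ M := by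
  have h1 : ∀ j : ℕ, ∃ M : ℝ, ∀ y, ‖iteratedFDeriv ℝ j (bk d) y‖ ≤ M := by
    intro j
    have hc : Continuous (iteratedFDeriv ℝ j (bk d)) :=
      bk_contDiff.continuous_iteratedFDeriv (by exact_mod_cast le_top)
    have hs : HasCompactSupport (iteratedFDeriv ℝ j (bk d)) := by
      refine HasCompactSupport.iteratedFDeriv ?_ j
      exact (bmp d).hasCompactSupport_normed
    exact hs.exists_bound_of_continuous hc
  choose M hM using h1
  refine ⟨1 + ∑ j ∈ Finset.range (k + 1), |M j|, by positivity, ?_⟩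
  intro j hj y
  have h2 : |M j| ≤ ∑ j ∈ Finset.range (k + 1), |M j| :=
    Finset.single_le_sum (f := fun j => |M j|) (fun _ _ => abs_nonneg _)
      (Finset.mem_range.mpr (by omega))
  have h3 := hM j y
  have h4 := le_abs_self (M j)
  linarith

lemma PP_bd {S : Sp d → P} (hS : ContDiff ℝ ∞ S)
    (k : ℕ) (ρ : ℝ) : ∃ M : ℝ, 0 < M ∧ ∀ j ≤ k, ∀ y, ‖y‖ ≤ ρ →
      ‖iteratedFDeriv ℝ j S y‖ ≤ M := by
  have h1 : ∀ j : ℕ, ∃ M : ℝ, ∀ y ∈ closedBall (0 : Sp d) ρ, ‖iteratedFDeriv ℝ j S y‖ ≤ M := by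
    intro j
    have hc : Continuous (iteratedFDeriv ℝ j S) :=
      hS.continuous_iteratedFDeriv (by exact_mod_cast le_top)
    exact (isCompact_closedBall (0 : Sp d) ρ).exists_bound_of_continuousOn hc.continuousOn
  choose M hM using h1
  refine ⟨1 + ∑ j ∈ Finset.range (k + 1), |M j|, by positivity, ?_⟩
  intro j hj y hy
  have h2 : |M j| ≤ ∑ j ∈ Finset.range (k + 1), |M j| :=
    Finset.single_le_sum (f := fun j => |M j|) (fun _ _ => abs_nonneg _)
      (Finset.mem_range.mpr (by omega))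
  have h3 := hM j y (by simpa using hy)
  have h4 := le_abs_self (M j)
  linarith

/-- bound of the derivatives of the kernel -/
lemma HH_bd (B : V →L[ℝ] P →L[ℝ] G) {S : Sp d → P} (hS : ContDiff ℝ ∞ S)
    (k : ℕ) (A0 ρ tb : ℝ) (hA : 2 ≤ A0) (htb : 0 ≤ tb) : ∃ C : ℝ, 0 < C ∧
      ∀ (g : Sp d → V) (N : ℝ), TFn k N g → ∀ (th : ZZ d) (p : Sp d),
      |th.1| ≤ tb → |th.2.1| ≤ A0 → |th.2.2.2.1| ≤ 2 → |th.2.2.2.2.2.1| ≤ 2 →
      ‖th.2.2.2.1 • p + th.2.2.2.2.1‖ ≤ ρ →
      ∀ j ≤ k, ‖iteratedFDeriv ℝ j (fun q => HH B S g (q, th)) p‖ ≤ C * N := by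
  obtain ⟨Mb, hMb, hb⟩ := bk_bd d k
  obtain ⟨Mp, hMp, hp⟩ := PP_bd hS k ρ
  refine ⟨2 ^ k * ‖(ContinuousLinearMap.lsmul ℝ ℝ : ℝ →L[ℝ] G →L[ℝ] G)‖ *
    (tb * (A0 ^ k * Mb)) * (2 ^ k * ‖B‖ * 2 ^ k * (2 ^ k * Mp)) + 1, by positivity, ?_⟩
  intro g N hg th p h1 h2 h3 h4 h5 j hj
  have hN : 0 ≤ N := (norm_nonneg _).trans (hg.bd 0 (Nat.zero_le _) 0)
  have hbk : ContDiff ℝ k (bk d) := bk_contDiff.of_le (by exact_mod_cast le_top)
  have hPk : ContDiff ℝ k S := hS.of_le (by exact_mod_cast le_top)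
  have haff : ∀ (a : ℝ) (b : Sp d), ContDiff ℝ k (fun q : Sp d => a • q + b) := by
    intro a b; fun_prop
  -- the three factors
  have c1 : ContDiff ℝ k (fun q => bk d (th.2.1 • q + th.2.2.1)) := hbk.comp (haff _ _)
  have b1 : ∀ j ≤ k, ‖iteratedFDeriv ℝ j (fun q => bk d (th.2.1 • q + th.2.2.1)) p‖ ≤
      A0 ^ k * Mb := affb' hbk _ p h2 (by linarith) (fun j hj => hb j hj _)
  have c1' : ContDiff ℝ k (fun q => th.1 * bk d (th.2.1 • q + th.2.2.1)) := by fun_prop
  have b1' : ∀ j ≤ k, ‖iteratedFDeriv ℝ j (fun q => th.1 * bk d (th.2.1 • q + th.2.2.1)) p‖ ≤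
      tb * (A0 ^ k * Mb) := by
    intro j hj
    have e1 := iteratedFDeriv_const_smul_apply (𝕜 := ℝ) (a := th.1)
      ((c1.contDiffAt (x := p)).of_le (m := (j : ℕ)) (by exact_mod_cast hj))
    have e2 : (th.1 • fun q => bk d (th.2.1 • q + th.2.2.1)) =
        fun q => th.1 * bk d (th.2.1 • q + th.2.2.1) := rfl
    rw [e2] at e1
    rw [e1, norm_smul, Real.norm_eq_abs]
    gcongr
    exact b1 j hj
  have c2 : ContDiff ℝ k (fun q => g (th.2.2.2.2.2.1 • q + th.2.2.2.2.2.2)) :=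
    hg.smooth.comp (haff _ _)
  have b2 : ∀ j ≤ k, ‖iteratedFDeriv ℝ j (fun q => g (th.2.2.2.2.2.1 • q + th.2.2.2.2.2.2)) p‖ ≤
      2 ^ k * N := affb' hg.smooth _ p h4 (by norm_num) (fun j hj => hg.bd j hj _)
  have c3 : ContDiff ℝ k (fun q => S (th.2.2.2.1 • q + th.2.2.2.2.1)) := hPk.comp (haff _ _)
  have b3 : ∀ j ≤ k, ‖iteratedFDeriv ℝ j (fun q => S (th.2.2.2.1 • q + th.2.2.2.2.1)) p‖ ≤
      2 ^ k * Mp := affb' hPk _ p h3 (by norm_num) (fun j hj => hp j hj _ h5)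
  have b4 := leib B c2 c3 p b2 b3
  have c4 : ContDiff ℝ k (fun q => B (g (th.2.2.2.2.2.1 • q + th.2.2.2.2.2.2))
      (S (th.2.2.2.1 • q + th.2.2.2.2.1))) :=
    (B.contDiff.comp c2).clm_apply c3
  have b5 := leib (ContinuousLinearMap.lsmul ℝ ℝ : ℝ →L[ℝ] G →L[ℝ] G)
    c1' c4 p b1' b4 j hj
  calc ‖iteratedFDeriv ℝ j (fun q => HH B S g (q, th)) p‖ ≤ _ := b5
    _ = (2 ^ k * ‖(ContinuousLinearMap.lsmul ℝ ℝ : ℝ →L[ℝ] G →L[ℝ] G)‖ *
      (tb * (A0 ^ k * Mb)) * (2 ^ k * ‖B‖ * 2 ^ k * (2 ^ k * Mp))) * N := by ring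
    _ ≤ _ := by linarith only [hN]

end Kernel

end TP
end TG


end

section

/-!
# Module TP, part c: the smoothed kernel, its support and the integral identity
-/

set_option linter.unusedSectionVars false

open MeasureTheory Metric Set TrI
open scoped InnerProductSpace ContDiff Nat

namespace TG
namespace TP

section Fub

lemma swapc {A B : Type} [TopologicalSpace A] [MeasureSpace A] [OpensMeasurableSpace A]
    [SecondCountableTopology A] [T2Space A] [TopologicalSpace B] [MeasureSpace B]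
    [OpensMeasurableSpace B] [SecondCountableTopology B] [T2Space B]
    [SFinite (volume : Measure A)] [SFinite (volume : Measure B)]
    [IsFiniteMeasureOnCompacts (volume : Measure A)]
    [IsFiniteMeasureOnCompacts (volume : Measure B)]
    [IsFiniteMeasureOnCompacts ((volume : Measure A).prod (volume : Measure B))]
    {K1 : Set A} {K2 : Set B} (h1 : IsCompact K1) (h2 : IsCompact K2) {f : A → B → ℝ}
    (hf : Continuous (Function.uncurry f)) :
    ∫ a in K1, ∫ b in K2, f a b = ∫ b in K2, ∫ a in K1, f a b := by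
  refine integral_integral_swap ?_
  rw [Measure.prod_restrict]
  exact hf.continuousOn.integrableOn_compact (h1.prod h2)

variable {d : ℕ}

lemma cov {f : Sp d → ℝ} {a : ℝ} (ha : 0 < a) (b : Sp d) :
    ∫ p, a ^ d * f (a • p + b) = ∫ z, f z := by
  have h1 := Measure.integral_comp_smul (volume : Measure (Sp d)) (fun q => f (q + b)) a
  rw [integral_add_right_eq_self (fun q => f q) b, finrank_euclideanSpace, Fintype.card_fin] at h1
  rw [integral_const_mul, h1, smul_eq_mul, abs_of_pos (by positivity), ← mul_assoc,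
    mul_inv_cancel₀ (by positivity), one_mul]

end Fub

/-! ## parameters -/

section Par

variable {d : ℕ}

noncomputable def m1 (s : ℝ) : ℝ := max (1 - s) (1 / 2)
noncomputable def m2 (s : ℝ) : ℝ := max s (1 / 2)

lemma m1_pos (s : ℝ) : 0 < m1 s := lt_of_lt_of_le (by norm_num) (le_max_right _ _)
lemma m2_pos (s : ℝ) : 0 < m2 s := lt_of_lt_of_le (by norm_num) (le_max_right _ _)
lemma m1_eq {s : ℝ} (h : s ≤ 1 / 2) : m1 s = 1 - s := max_eq_left (by linarith)
lemma m2_eq {s : ℝ} (h : 1 / 2 ≤ s) : m2 s = s := max_eq_left h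
lemma m1_inv (s : ℝ) : (m1 s)⁻¹ ≤ 2 := by
  have h : (1 / 2 : ℝ) ≤ m1 s := le_max_right _ _
  calc (m1 s)⁻¹ ≤ (1 / 2 : ℝ)⁻¹ := inv_anti₀ (by norm_num) h
    _ = 2 := by norm_num
lemma m2_inv (s : ℝ) : (m2 s)⁻¹ ≤ 2 := by
  have h : (1 / 2 : ℝ) ≤ m2 s := le_max_right _ _
  calc (m2 s)⁻¹ ≤ (1 / 2 : ℝ)⁻¹ := inv_anti₀ (by norm_num) h
    _ = 2 := by norm_num

noncomputable def th1 (n : ℕ) (c : Sp d) (r : ℝ) (a : Sp d × ℝ) : ZZ d :=
  ((n ! : ℝ)⁻¹ * (1 - a.2) ^ n * ((m1 a.2 * r)⁻¹) ^ d, (m1 a.2 * r)⁻¹,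
   -((m1 a.2 * r)⁻¹ • (a.2 • a.1 + (1 - a.2) • c)), -(m1 a.2)⁻¹, (m1 a.2)⁻¹ • a.1, 0, a.1)

noncomputable def th2 (n : ℕ) (c : Sp d) (r : ℝ) (a : Sp d × ℝ) : ZZ d :=
  ((n ! : ℝ)⁻¹ * (1 - a.2) ^ n * ((m2 a.2)⁻¹) ^ d, 0, a.1, (m2 a.2)⁻¹,
   -((m2 a.2)⁻¹ • (c + r • a.1)), (m2 a.2)⁻¹, -(((1 - a.2) * (m2 a.2)⁻¹) • (c + r • a.1)))

lemma m1_cont : Continuous m1 := by unfold m1; fun_prop
lemma m2_cont : Continuous m2 := by unfold m2; fun_prop

lemma th1_cont (n : ℕ) (c : Sp d) {r : ℝ} (hr : 0 < r) : Continuous (th1 n c r) := by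
  have h1 : Continuous (fun a : Sp d × ℝ => (m1 a.2 * r)⁻¹) := by
    refine Continuous.inv₀ ((m1_cont.comp continuous_snd).mul continuous_const) fun a => ?_
    exact (mul_pos (m1_pos _) hr).ne'
  have h2 : Continuous (fun a : Sp d × ℝ => (m1 a.2)⁻¹) :=
    (m1_cont.comp continuous_snd).inv₀ fun a => (m1_pos _).ne'
  unfold th1
  fun_prop

lemma th2_cont (n : ℕ) (c : Sp d) (r : ℝ) : Continuous (th2 n c r) := by
  have h2 : Continuous (fun a : Sp d × ℝ => (m2 a.2)⁻¹) :=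
    (m2_cont.comp continuous_snd).inv₀ fun a => (m2_pos _).ne'
  unfold th2
  fun_prop

/-- the support set -/
def SS {V : Type} [Zero V] (g : Sp d → V) (c : Sp d) (r : ℝ) : Set (Sp d) :=
  (fun q : ℝ × Sp d × Sp d => (1 - q.1) • q.2.1 + q.1 • q.2.2) ''
    (Icc (0 : ℝ) 1 ×ˢ (closedBall c r ×ˢ tsupport g))

variable {V : Type} [NormedAddCommGroup V] [NormedSpace ℝ V]

lemma SS_compact {g : Sp d → V} (hg : HasCompactSupport g) (c : Sp d) (r : ℝ) :
    IsCompact (SS g c r) := by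
  refine IsCompact.image ?_ (by fun_prop)
  exact isCompact_Icc.prod ((isCompact_closedBall c r).prod hg)

lemma SS_hull (g : Sp d → V) (c : Sp d) (r : ℝ) :
    SS g c r ⊆ convexHull ℝ (tsupport g ∪ closedBall c r) := by
  rintro _ ⟨⟨s, y, x⟩, ⟨⟨h0, h1⟩, hy, hx⟩, rfl⟩
  have hy' : y ∈ convexHull ℝ (tsupport g ∪ closedBall c r) :=
    subset_convexHull ℝ _ (Or.inr hy)
  have hx' : x ∈ convexHull ℝ (tsupport g ∪ closedBall c r) :=
    subset_convexHull ℝ _ (Or.inl hx)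
  exact convex_convexHull ℝ _ hy' hx' (sub_nonneg.mpr h1) h0 (by ring)

lemma SS_ball {g : Sp d → V} {R : ℝ} (hgR : ∀ y, R ≤ ‖y‖ → g y = 0) {c : Sp d} {r : ℝ}
    (hc : ‖c‖ ≤ R) (hr : r ≤ R) : SS g c r ⊆ closedBall 0 (2 * R) := by
  have hR : 0 ≤ R := (norm_nonneg _).trans hc
  have hts : tsupport g ⊆ closedBall 0 R := by
    refine closure_minimal (fun y hy => ?_) isClosed_closedBall
    rw [Function.mem_support] at hy
    rw [mem_closedBall, dist_zero_right]
    by_contra h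
    push Not at h
    exact hy (hgR y h.le)
  rintro _ ⟨⟨s, y, x⟩, ⟨⟨h0, h1⟩, hy, hx⟩, rfl⟩
  have hx' := hts hx
  simp only [mem_closedBall, dist_zero_right] at hx' ⊢
  rw [mem_closedBall, dist_eq_norm] at hy
  have hy2 : ‖y‖ ≤ 2 * R := by
    calc ‖y‖ = ‖(y - c) + c‖ := by rw [sub_add_cancel]
      _ ≤ ‖y - c‖ + ‖c‖ := norm_add_le _ _
      _ ≤ 2 * R := by linarith
  calc ‖(1 - s) • y + s • x‖ ≤ ‖(1 - s) • y‖ + ‖s • x‖ := norm_add_le _ _
    _ = (1 - s) * ‖y‖ + s * ‖x‖ := by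
        rw [norm_smul, norm_smul, Real.norm_of_nonneg (sub_nonneg.mpr h1), Real.norm_of_nonneg h0]
    _ ≤ (1 - s) * (2 * R) + s * (2 * R) := by
        have : ‖x‖ ≤ 2 * R := by linarith
        have : 0 ≤ 1 - s := sub_nonneg.mpr h1
        simp only at h0
        gcongr
    _ = 2 * R := by ring

variable {P G : Type}
  [NormedAddCommGroup P] [NormedSpace ℝ P] [NormedAddCommGroup G] [NormedSpace ℝ G]

lemma HH_ne {B : V →L[ℝ] P →L[ℝ] G} {S : Sp d → P} {g : Sp d → V} {p : Sp d} {th : ZZ d}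
    (h : HH B S g (p, th) ≠ 0) : ‖th.2.1 • p + th.2.2.1‖ < 1 ∧
      th.2.2.2.2.2.1 • p + th.2.2.2.2.2.2 ∈ tsupport g := by
  unfold HH at h
  constructor
  · by_contra h1
    push Not at h1
    apply h
    simp only
    rw [bk_zero h1, mul_zero, zero_smul]
  · refine subset_closure fun h1 => h ?_
    simp only
    rw [h1, map_zero, zero_apply, smul_zero]

lemma supp1 {B : V →L[ℝ] P →L[ℝ] G} {S : Sp d → P} {g : Sp d → V} {p : Sp d} {n : ℕ} {c : Sp d}
    {r : ℝ} (hr : 0 < r) {x : Sp d} {s : ℝ} (hs : s ∈ Icc (0 : ℝ) (1 / 2))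
    (h : HH B S g (p, th1 n c r (x, s)) ≠ 0) : p ∈ SS g c r := by
  obtain ⟨h1, h2⟩ := HH_ne h
  simp only [th1] at h1 h2
  rw [zero_smul, zero_add] at h2
  rw [m1_eq hs.2] at h1
  have h0 : 0 < 1 - s := by linarith [hs.2]
  set z : Sp d := ((1 - s) * r)⁻¹ • p + -(((1 - s) * r)⁻¹ • (s • x + (1 - s) • c)) with hz
  refine ⟨(s, c + r • z, x), ⟨⟨hs.1, by linarith [hs.2]⟩, ?_, h2⟩, ?_⟩
  · rw [mem_closedBall, dist_eq_norm, add_sub_cancel_left, norm_smul, Real.norm_of_nonneg hr.le]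
    nlinarith [norm_nonneg z]
  · show (1 - s) • (c + r • z) + s • x = p
    have e : ((1 - s) * r) • z = p - (s • x + (1 - s) • c) := by
      rw [hz, smul_add, smul_neg, smul_smul, smul_smul, mul_inv_cancel₀ (by positivity), one_smul,
        one_smul]
      abel
    rw [smul_add, smul_smul, e]
    abel

lemma supp2 {B : V →L[ℝ] P →L[ℝ] G} {S : Sp d → P} {g : Sp d → V} {p : Sp d} {n : ℕ} {c : Sp d}
    {r : ℝ} (hr : 0 < r) {z : Sp d} {s : ℝ} (hs : s ∈ Icc (1 / 2 : ℝ) 1)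
    (h : HH B S g (p, th2 n c r (z, s)) ≠ 0) : p ∈ SS g c r := by
  obtain ⟨h1, h2⟩ := HH_ne h
  simp only [th2] at h1 h2
  rw [zero_smul, zero_add] at h1
  rw [m2_eq hs.1] at h2
  have h0 : 0 < s := by linarith [hs.1]
  refine ⟨(s, c + r • z, _), ⟨⟨h0.le, hs.2⟩, ?_, h2⟩, ?_⟩
  · rw [mem_closedBall, dist_eq_norm, add_sub_cancel_left, norm_smul, Real.norm_of_nonneg hr.le]
    nlinarith [norm_nonneg z]
  · show (1 - s) • (c + r • z) + s • (s⁻¹ • p + -(((1 - s) * s⁻¹) • (c + r • z))) = p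
    rw [smul_add s, smul_smul s, mul_inv_cancel₀ h0.ne', one_smul, smul_neg, smul_smul s]
    have : s * ((1 - s) * s⁻¹) = 1 - s := by field_simp
    rw [this]
    abel

/-! ## the change of variables -/

variable {E : Type} [NormedAddCommGroup E] [NormedSpace ℝ E]

/-- the integrand of the Taylor remainder -/
noncomputable def Gt (n : ℕ) (c : Sp d) (r : ℝ) (ev : G →L[ℝ] E →L[ℝ] ℝ) (B : V →L[ℝ] P →L[ℝ] G)
    (S : Sp d → P) (g : Sp d → V) (h : Sp d → E) (x z : Sp d) (s : ℝ) : ℝ :=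
  bk d z * ((n ! : ℝ)⁻¹ * (1 - s) ^ n) *
    ev (B (g x) (S (x - (c + r • z)))) (h ((1 - s) • (c + r • z) + s • x))

lemma id1 (n : ℕ) (c : Sp d) {r : ℝ} (hr : 0 < r) (ev : G →L[ℝ] E →L[ℝ] ℝ)
    (B : V →L[ℝ] P →L[ℝ] G) (S : Sp d → P) (g : Sp d → V) (h : Sp d → E) (x : Sp d) {s : ℝ}
    (hs : s ∈ Icc (0 : ℝ) (1 / 2)) :
    ∫ z, Gt n c r ev B S g h x z s = ∫ p, ev (HH B S g (p, th1 n c r (x, s))) (h p) := by
  have h0 : 0 < 1 - s := by linarith [hs.2]
  have ha : 0 < ((1 - s) * r)⁻¹ := by positivity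
  rw [← cov ha (-(((1 - s) * r)⁻¹ • (s • x + (1 - s) • c)))]
  refine integral_congr_ae (Filter.Eventually.of_forall fun p => ?_)
  simp only [HH, th1, m1_eq hs.2, Gt]
  set z : Sp d := ((1 - s) * r)⁻¹ • p + -(((1 - s) * r)⁻¹ • (s • x + (1 - s) • c)) with hz
  have e : ((1 - s) * r) • z = p - (s • x + (1 - s) • c) := by
    rw [hz, smul_add, smul_neg, smul_smul, smul_smul, mul_inv_cancel₀ (by positivity), one_smul,
      one_smul]
    abel
  have e1 : (1 - s) • (c + r • z) + s • x = p := by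
    rw [smul_add, smul_smul, e]
    abel
  have e2 : x - (c + r • z) = -(1 - s)⁻¹ • p + (1 - s)⁻¹ • x := by
    have e3 : c + r • z = (1 - s)⁻¹ • (p - s • x) := by
      rw [← e1, add_sub_cancel_right, smul_smul, inv_mul_cancel₀ h0.ne', one_smul]
    rw [e3, smul_sub, smul_smul, neg_smul]
    have e4 : x = (1 - s)⁻¹ • x - ((1 - s)⁻¹ * s) • x := by
      rw [← sub_smul]
      have : (1 - s)⁻¹ - (1 - s)⁻¹ * s = 1 := by field_simp
      rw [this, one_smul]
    nth_rewrite 1 [e4]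
    abel
  rw [e1, e2, zero_smul, zero_add, map_smul, smul_apply, smul_eq_mul]
  ring

lemma id2 (n : ℕ) (c : Sp d) {r : ℝ} (ev : G →L[ℝ] E →L[ℝ] ℝ)
    (B : V →L[ℝ] P →L[ℝ] G) (S : Sp d → P) (g : Sp d → V) (h : Sp d → E) (z : Sp d) {s : ℝ}
    (hs : s ∈ Icc (1 / 2 : ℝ) 1) :
    ∫ x, Gt n c r ev B S g h x z s = ∫ p, ev (HH B S g (p, th2 n c r (z, s))) (h p) := by
  have h0 : 0 < s := by linarith [hs.1]
  have ha : 0 < s⁻¹ := by positivity
  rw [← cov ha (-(((1 - s) * s⁻¹) • (c + r • z)))]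
  refine integral_congr_ae (Filter.Eventually.of_forall fun p => ?_)
  simp only [HH, th2, m2_eq hs.1, Gt]
  set x : Sp d := s⁻¹ • p + -(((1 - s) * s⁻¹) • (c + r • z)) with hx
  have e1 : (1 - s) • (c + r • z) + s • x = p := by
    rw [hx, smul_add s, smul_smul s, mul_inv_cancel₀ h0.ne', one_smul, smul_neg, smul_smul s]
    have : s * ((1 - s) * s⁻¹) = 1 - s := by field_simp
    rw [this]
    abel
  have e2 : x - (c + r • z) = s⁻¹ • p + -(s⁻¹ • (c + r • z)) := by
    rw [hx]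
    have e4 : s⁻¹ • (c + r • z) = ((1 - s) * s⁻¹) • (c + r • z) + (c + r • z) := by
      nth_rewrite 3 [← one_smul ℝ (c + r • z)]
      rw [← add_smul]
      congr 1
      field_simp
      ring
    rw [e4]
    abel
  rw [e1, e2, zero_smul, zero_add, map_smul, smul_apply, smul_eq_mul]
  ring

end Par

end TP
end TG


end

section

/-!
# Module TP, part d: Fubini, the smoothed kernel
-/

set_option linter.unusedSectionVars false

open MeasureTheory Metric Set TrI
open scoped InnerProductSpace ContDiff Nat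

namespace TG
namespace TP

variable {d : ℕ} {V P G E : Type} [NormedAddCommGroup V] [NormedSpace ℝ V]
  [NormedAddCommGroup P] [NormedSpace ℝ P] [NormedAddCommGroup G] [NormedSpace ℝ G]
  [CompleteSpace G] [NormedAddCommGroup E] [NormedSpace ℝ E]

/-- the smoothed kernel -/
noncomputable def Lm (B : V →L[ℝ] P →L[ℝ] G) (S : Sp d → P) (g : Sp d → V)
    (th : Sp d × ℝ → ZZ d) (Ka : Set (Sp d)) (I : Set ℝ) (p : Sp d) : G :=
  ∫ a in Ka ×ˢ I, HH B S g (p, th a)

lemma HH_cont (B : V →L[ℝ] P →L[ℝ] G) {S : Sp d → P} (hS : Continuous S) {g : Sp d → V}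
    (hg : Continuous g) : Continuous (HH B S g) := by
  have hb : Continuous (bk d) := bk_cont
  unfold HH
  have h2 : Continuous (fun q : Sp d × ZZ d =>
      B (g (q.2.2.2.2.2.2.1 • q.1 + q.2.2.2.2.2.2.2))) := by
    fun_prop
  have h3 : Continuous (fun q : Sp d × ZZ d => S (q.2.2.2.2.1 • q.1 + q.2.2.2.2.2.1)) := by
    fun_prop
  have h4 := h2.clm_apply h3
  fun_prop

lemma chain (ev : G →L[ℝ] E →L[ℝ] ℝ) (B : V →L[ℝ] P →L[ℝ] G) {S : Sp d → P} (hS : Continuous S)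
    {g : Sp d → V} (hg : Continuous g) {h : Sp d → E} (hh : Continuous h)
    {th : Sp d × ℝ → ZZ d} (hth : Continuous th) {Ka : Set (Sp d)} {I : Set ℝ}
    (hK : IsCompact Ka) (hI : IsCompact I) {R2 : ℝ}
    (hsupp : ∀ a1 ∈ Ka, ∀ s ∈ I, ∀ p, HH B S g (p, th (a1, s)) ≠ 0 → p ∈ closedBall 0 R2) :
    ∫ a1 in Ka, ∫ s in I, ∫ p, ev (HH B S g (p, th (a1, s))) (h p) =
      ∫ p, ev (Lm B S g th Ka I p) (h p) := by
  have hHc := HH_cont B hS hg
  have hM : Continuous (Function.uncurry fun (a : Sp d × ℝ) (p : Sp d) =>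
      ev (HH B S g (p, th a)) (h p)) := by
    have h1 : Continuous fun q : (Sp d × ℝ) × Sp d => ev (HH B S g (q.2, th q.1)) := by
      fun_prop
    have h2 : Continuous fun q : (Sp d × ℝ) × Sp d => h q.2 := by fun_prop
    exact h1.clm_apply h2
  have hKI : IsCompact (Ka ×ˢ I) := hK.prod hI
  -- step 1
  have s1 : ∫ a1 in Ka, ∫ s in I, ∫ p, ev (HH B S g (p, th (a1, s))) (h p) =
      ∫ a1 in Ka, ∫ s in I, ∫ p in closedBall 0 R2, ev (HH B S g (p, th (a1, s))) (h p) := by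
    refine setIntegral_congr_fun hK.measurableSet fun a1 ha1 => ?_
    refine setIntegral_congr_fun hI.measurableSet fun s hs => ?_
    refine (setIntegral_eq_integral_of_forall_compl_eq_zero fun p hp => ?_).symm
    by_contra h0
    apply hp
    refine hsupp a1 ha1 s hs p fun h1 => h0 ?_
    rw [h1, map_zero, zero_apply]
  -- step 2
  have hF : Continuous fun a : Sp d × ℝ =>
      ∫ p in closedBall 0 R2, ev (HH B S g (p, th a)) (h p) :=
    continuous_parametric_integral_of_continuous hM (isCompact_closedBall _ _)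
  have s2 : ∫ a1 in Ka, ∫ s in I, ∫ p in closedBall 0 R2, ev (HH B S g (p, th (a1, s))) (h p) =
      ∫ a in Ka ×ˢ I, ∫ p in closedBall 0 R2, ev (HH B S g (p, th a)) (h p) := by
    refine (setIntegral_prod (μ := (volume : Measure (Sp d))) (ν := (volume : Measure ℝ))
      (fun a => ∫ p in closedBall 0 R2, ev (HH B S g (p, th a)) (h p)) ?_).symm
    exact hF.continuousOn.integrableOn_compact hKI
  -- step 3
  have s3 : ∫ a in Ka ×ˢ I, ∫ p in closedBall 0 R2, ev (HH B S g (p, th a)) (h p) =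
      ∫ p in closedBall 0 R2, ∫ a in Ka ×ˢ I, ev (HH B S g (p, th a)) (h p) :=
    swapc hKI (isCompact_closedBall _ _) hM
  -- step 4
  have s4 : ∀ p, ∫ a in Ka ×ˢ I, ev (HH B S g (p, th a)) (h p) = ev (Lm B S g th Ka I p) (h p) := by
    intro p
    have h0 : Integrable (fun a => HH B S g (p, th a)) (volume.restrict (Ka ×ˢ I)) := by
      refine ContinuousOn.integrableOn_compact hKI (Continuous.continuousOn ?_)
      fun_prop
    exact (ev.flip (h p)).integral_comp_comm h0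
  -- step 5
  rw [s1, s2, s3]
  simp_rw [s4]
  refine setIntegral_eq_integral_of_forall_compl_eq_zero fun p hp => ?_
  have h0 : Lm B S g th Ka I p = 0 := by
    unfold Lm
    refine setIntegral_eq_zero_of_forall_eq_zero fun a ha => ?_
    by_contra h1
    exact hp (hsupp a.1 ha.1 a.2 ha.2 p h1)
  rw [h0, map_zero, zero_apply]

lemma Lm_zero (B : V →L[ℝ] P →L[ℝ] G) {S : Sp d → P}
    {g : Sp d → V} {th : Sp d × ℝ → ZZ d} {Ka : Set (Sp d)} {I : Set ℝ} {K : Set (Sp d)}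
    (hsupp : ∀ a1 ∈ Ka, ∀ s ∈ I, ∀ p, HH B S g (p, th (a1, s)) ≠ 0 → p ∈ K) {p : Sp d}
    (hp : p ∉ K) : Lm B S g th Ka I p = 0 := by
  unfold Lm
  refine setIntegral_eq_zero_of_forall_eq_zero fun a ha => ?_
  by_contra h1
  exact hp (hsupp a.1 ha.1 a.2 ha.2 p h1)

lemma Lm_props (B : V →L[ℝ] P →L[ℝ] G) {S : Sp d → P} (hS : ContDiff ℝ ∞ S) {k : ℕ}
    {g : Sp d → V} (hg : ContDiff ℝ k g)
    {th : Sp d × ℝ → ZZ d} (hth : Continuous th) {Ka : Set (Sp d)} {I : Set ℝ}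
    (hK : IsCompact Ka) (hI : IsCompact I) {K : Set (Sp d)} (hKc : IsClosed K)
    (hsupp : ∀ a1 ∈ Ka, ∀ s ∈ I, ∀ p, HH B S g (p, th (a1, s)) ≠ 0 → p ∈ K) {C : ℝ}
    (hC : ∀ p ∈ K, ∀ a1 ∈ Ka, ∀ s ∈ I, ∀ j ≤ k,
      ‖iteratedFDeriv ℝ j (fun q => HH B S g (q, th (a1, s))) p‖ ≤ C) (hC0 : 0 ≤ C) :
    ContDiff ℝ k (Lm B S g th Ka I) ∧
    ∀ j ≤ k, ∀ p, ‖iteratedFDeriv ℝ j (Lm B S g th Ka I) p‖ ≤
      C * (volume : Measure (Sp d × ℝ)).real (Ka ×ˢ I) := by
  have hKI : IsCompact (Ka ×ˢ I) := hK.prod hI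
  have hfin : volume (Ka ×ˢ I) < ⊤ := hKI.measure_lt_top
  have : IsFiniteMeasure ((volume : Measure (Sp d × ℝ)).restrict (Ka ×ˢ I)) :=
    ⟨by rw [Measure.restrict_apply_univ]; exact hfin⟩
  obtain ⟨M, hM⟩ := hKI.exists_bound_of_continuousOn hth.continuousOn
  obtain ⟨h1, h2⟩ := param ((volume : Measure (Sp d × ℝ)).restrict (Ka ×ˢ I)) th
    hth.aestronglyMeasurable M (by
      rw [ae_restrict_iff' hKI.measurableSet]
      exact Filter.Eventually.of_forall fun a ha => hM a ha) k G (HH B S g) (HH_contDiff B hS hg)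
  refine ⟨h1, ?_⟩
  intro j hj p
  by_cases hp : p ∈ K
  · have h3 := h2 j hj p
    change iteratedFDeriv ℝ j (Lm B S g th Ka I) p = _ at h3
    rw [h3]
    exact norm_setIntegral_le_of_norm_le_const hfin
      (fun a ha => hC p hp a.1 ha.1 a.2 ha.2 j hj)
  · have h3 : Lm B S g th Ka I =ᶠ[nhds p] fun _ => 0 := by
      filter_upwards [hKc.isOpen_compl.mem_nhds hp] with q hq
      exact Lm_zero B hsupp hq
    have h5 : iteratedFDeriv ℝ j (Lm B S g th Ka I) p = iteratedFDeriv ℝ j (fun _ => (0 : G)) p := by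
      rw [← iteratedFDerivWithin_univ, ← iteratedFDerivWithin_univ]
      refine Filter.EventuallyEq.iteratedFDerivWithin_eq ?_ h3.self_of_nhds j
      rwa [nhdsWithin_univ]
    rw [h5]
    have h4 : iteratedFDeriv ℝ j (fun _ : Sp d => (0 : G)) p = 0 := by
      have := iteratedFDeriv_fun_zero (𝕜 := ℝ) (n := j) (E := Sp d) (F := G)
      exact congrFun this p
    rw [h4, norm_zero]
    positivity

/-! ## the triple integral -/

lemma Gt_cont (n : ℕ) (c : Sp d) (r : ℝ) (ev : G →L[ℝ] E →L[ℝ] ℝ) (B : V →L[ℝ] P →L[ℝ] G)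
    {S : Sp d → P} (hS : Continuous S) {g : Sp d → V} (hg : Continuous g) {h : Sp d → E}
    (hh : Continuous h) :
    Continuous fun q : Sp d × Sp d × ℝ => Gt n c r ev B S g h q.1 q.2.1 q.2.2 := by
  have hb : Continuous (bk d) := bk_cont
  unfold Gt
  have h1 : Continuous fun q : Sp d × Sp d × ℝ =>
      ev (B (g q.1) (S (q.1 - (c + r • q.2.1)))) := by
    have h2 : Continuous fun q : Sp d × Sp d × ℝ => B (g q.1) := by fun_prop
    have h3 : Continuous fun q : Sp d × Sp d × ℝ => S (q.1 - (c + r • q.2.1)) := by fun_prop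
    exact ev.continuous.comp (h2.clm_apply h3)
  have h4 : Continuous fun q : Sp d × Sp d × ℝ =>
      h ((1 - q.2.2) • (c + r • q.2.1) + q.2.2 • q.1) := by fun_prop
  have h5 := h1.clm_apply h4
  fun_prop

lemma split_Icc {f : ℝ → ℝ} (hf : Continuous f) :
    ∫ s in Icc (0 : ℝ) 1, f s = (∫ s in Icc (0 : ℝ) (1 / 2), f s) + ∫ s in Icc (1 / 2 : ℝ) 1, f s := by
  simp only [integral_Icc_eq_integral_Ioc]
  rw [← intervalIntegral.integral_of_le (by norm_num), ← intervalIntegral.integral_of_le (by norm_num),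
    ← intervalIntegral.integral_of_le (by norm_num)]
  exact (intervalIntegral.integral_add_adjacent_intervals (hf.intervalIntegrable _ _)
    (hf.intervalIntegrable _ _)).symm

lemma triple (n : ℕ) {c : Sp d} {r R : ℝ} (hr : 0 < r) (hc : ‖c‖ ≤ R) (hrR : r ≤ R)
    (ev : G →L[ℝ] E →L[ℝ] ℝ) (B : V →L[ℝ] P →L[ℝ] G)
    {S : Sp d → P} (hS : Continuous S) {g : Sp d → V} (hg : Continuous g)
    (hgR : ∀ y, R ≤ ‖y‖ → g y = 0) {h : Sp d → E} (hh : Continuous h) :
    ∫ x in closedBall (0 : Sp d) R, ∫ z in closedBall (0 : Sp d) 1, ∫ s in Icc (0 : ℝ) 1,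
      Gt n c r ev B S g h x z s =
    (∫ p, ev (Lm B S g (th1 n c r) (closedBall 0 R) (Icc 0 (1 / 2)) p) (h p)) +
    ∫ p, ev (Lm B S g (th2 n c r) (closedBall 0 1) (Icc (1 / 2) 1) p) (h p) := by
  have hG := Gt_cont n c r ev B hS hg hh
  have hGz : ∀ x, Continuous fun q : Sp d × ℝ => Gt n c r ev B S g h x q.1 q.2 := fun x =>
    hG.comp (Continuous.prodMk_right x)
  have hGs : ∀ x z, Continuous fun s : ℝ => Gt n c r ev B S g h x z s := fun x z =>
    (hGz x).comp (Continuous.prodMk_right z)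
  -- inner integrals are continuous
  have hI : ∀ I : Set ℝ, IsCompact I → Continuous fun q : Sp d × Sp d =>
      ∫ s in I, Gt n c r ev B S g h q.1 q.2 s := by
    intro I hI
    refine continuous_parametric_integral_of_continuous (X := Sp d × Sp d)
      (f := fun q s => Gt n c r ev B S g h q.1 q.2 s) ?_ hI
    exact hG.comp (f := fun q : (Sp d × Sp d) × ℝ => (q.1.1, q.1.2, q.2)) (by fun_prop)
  have hIz : ∀ I : Set ℝ, IsCompact I → ∀ x, Continuous fun z : Sp d =>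
      ∫ s in I, Gt n c r ev B S g h x z s := fun I hc x =>
    (hI I hc).comp (Continuous.prodMk_right x)
  have hJ : ∀ I : Set ℝ, IsCompact I → Continuous fun x : Sp d =>
      ∫ z in closedBall (0 : Sp d) 1, ∫ s in I, Gt n c r ev B S g h x z s := by
    intro I hI'
    exact continuous_parametric_integral_of_continuous (X := Sp d)
      (f := fun x z => ∫ s in I, Gt n c r ev B S g h x z s) (hI I hI') (isCompact_closedBall _ _)
  -- split
  have e1 : ∫ x in closedBall (0 : Sp d) R, ∫ z in closedBall (0 : Sp d) 1, ∫ s in Icc (0 : ℝ) 1,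
      Gt n c r ev B S g h x z s =
      (∫ x in closedBall (0 : Sp d) R, ∫ z in closedBall (0 : Sp d) 1,
        ∫ s in Icc (0 : ℝ) (1 / 2), Gt n c r ev B S g h x z s) +
      ∫ x in closedBall (0 : Sp d) R, ∫ z in closedBall (0 : Sp d) 1,
        ∫ s in Icc (1 / 2 : ℝ) 1, Gt n c r ev B S g h x z s := by
    rw [← integral_add]
    · refine integral_congr_ae (Filter.Eventually.of_forall fun x => ?_)
      show _ = (∫ z in closedBall (0 : Sp d) 1, ∫ s in Icc (0 : ℝ) (1 / 2),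
        Gt n c r ev B S g h x z s) + ∫ z in closedBall (0 : Sp d) 1, ∫ s in Icc (1 / 2 : ℝ) 1,
        Gt n c r ev B S g h x z s
      rw [← integral_add]
      · refine integral_congr_ae (Filter.Eventually.of_forall fun z => ?_)
        exact split_Icc (hGs x z)
      · exact (hIz _ isCompact_Icc x).continuousOn.integrableOn_compact (isCompact_closedBall _ _)
      · exact (hIz _ isCompact_Icc x).continuousOn.integrableOn_compact (isCompact_closedBall _ _)
    · exact (hJ _ isCompact_Icc).continuousOn.integrableOn_compact (isCompact_closedBall _ _)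
    · exact (hJ _ isCompact_Icc).continuousOn.integrableOn_compact (isCompact_closedBall _ _)
  -- vanishing
  have v1 : ∀ x z s, z ∉ closedBall (0 : Sp d) 1 → Gt n c r ev B S g h x z s = 0 := by
    intro x z s hz
    rw [mem_closedBall, dist_zero_right, not_le] at hz
    unfold Gt
    rw [bk_zero hz.le, zero_mul, zero_mul]
  have v2 : ∀ x z s, x ∉ closedBall (0 : Sp d) R → Gt n c r ev B S g h x z s = 0 := by
    intro x z s hx
    rw [mem_closedBall, dist_zero_right, not_le] at hx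
    unfold Gt
    rw [hgR x hx.le, map_zero, zero_apply, map_zero, zero_apply, mul_zero]
  -- part 1
  have p1 : ∫ x in closedBall (0 : Sp d) R, ∫ z in closedBall (0 : Sp d) 1,
        ∫ s in Icc (0 : ℝ) (1 / 2), Gt n c r ev B S g h x z s =
      ∫ p, ev (Lm B S g (th1 n c r) (closedBall 0 R) (Icc 0 (1 / 2)) p) (h p) := by
    rw [← chain ev B hS hg hh (th1_cont n c hr) (isCompact_closedBall _ _) isCompact_Icc
      (R2 := 2 * R) (fun x hx s hs p hp => SS_ball hgR hc hrR (supp1 hr hs hp))]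
    refine integral_congr_ae (Filter.Eventually.of_forall fun x => ?_)
    show ∫ z in closedBall (0 : Sp d) 1, ∫ s in Icc (0 : ℝ) (1 / 2), Gt n c r ev B S g h x z s = _
    rw [swapc (isCompact_closedBall _ _) isCompact_Icc (hGz x)]
    refine setIntegral_congr_fun measurableSet_Icc fun s hs => ?_
    show ∫ z in closedBall (0 : Sp d) 1, Gt n c r ev B S g h x z s = _
    rw [setIntegral_eq_integral_of_forall_compl_eq_zero (fun z hz => v1 x z s hz)]
    exact id1 n c hr ev B S g h x hs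
  -- part 2
  have p2 : ∫ x in closedBall (0 : Sp d) R, ∫ z in closedBall (0 : Sp d) 1,
        ∫ s in Icc (1 / 2 : ℝ) 1, Gt n c r ev B S g h x z s =
      ∫ p, ev (Lm B S g (th2 n c r) (closedBall 0 1) (Icc (1 / 2) 1) p) (h p) := by
    rw [← chain ev B hS hg hh (th2_cont n c r) (isCompact_closedBall _ _) isCompact_Icc
      (R2 := 2 * R) (fun x hx s hs p hp => SS_ball hgR hc hrR (supp2 hr hs hp))]
    rw [swapc (isCompact_closedBall _ _) (isCompact_closedBall _ _) (hI _ isCompact_Icc)]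
    refine integral_congr_ae (Filter.Eventually.of_forall fun z => ?_)
    show ∫ x in closedBall (0 : Sp d) R, ∫ s in Icc (1 / 2 : ℝ) 1, Gt n c r ev B S g h x z s = _
    have hxs : Continuous (Function.uncurry fun (x : Sp d) (s : ℝ) =>
        Gt n c r ev B S g h x z s) :=
      hG.comp (f := fun q : Sp d × ℝ => (q.1, z, q.2)) (by fun_prop)
    rw [swapc (isCompact_closedBall _ _) isCompact_Icc hxs]
    refine setIntegral_congr_fun measurableSet_Icc fun s hs => ?_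
    show ∫ x in closedBall (0 : Sp d) R, Gt n c r ev B S g h x z s = _
    rw [setIntegral_eq_integral_of_forall_compl_eq_zero (fun x hx => v2 x z s hx)]
    exact id2 n c ev B S g h z hs
  rw [e1, p1, p2]

end TP
end TG


end

section

/-!
# Module TP: averaged Taylor polynomials, Lemma 7.1
-/

set_option linter.unusedSectionVars false

open MeasureTheory Metric Set TrI
open scoped InnerProductSpace ContDiff Nat

namespace TG
namespace TP

section Taylor

variable {d : ℕ} {V : Type} [NormedAddCommGroup V] [InnerProductSpace ℝ V]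
  [FiniteDimensional ℝ V]

lemma bk_cs {F : Type} [NormedAddCommGroup F] [NormedSpace ℝ F] (W : Sp d → F) :
    HasCompactSupport (fun z => bk d z • W z) := by
  refine HasCompactSupport.intro (isCompact_closedBall (0 : Sp d) 1) fun z hz => ?_
  rw [mem_closedBall, dist_zero_right, not_le] at hz
  rw [bk_zero hz.le, zero_smul]

lemma taylor_id {u : Sp d → V} (hu : ContDiff ℝ ∞ u) (n : ℕ) (c : Sp d) (r : ℝ) (x : Sp d)
    (v : V) : ⟪u x - ATP n c r u x, v⟫_ℝ =
      ∫ z in closedBall (0 : Sp d) 1, ∫ s in Icc (0 : ℝ) 1,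
        bk d z * ((n ! : ℝ)⁻¹ * (1 - s) ^ n) *
          ⟪v, iteratedFDeriv ℝ (n + 1) u ((1 - s) • (c + r • z) + s • x)
            (fun _ => x - (c + r • z))⟫_ℝ := by
  have hDc : ∀ k : ℕ, Continuous (iteratedFDeriv ℝ k u) := fun k =>
    hu.continuous_iteratedFDeriv (by exact_mod_cast le_top)
  have hbc : Continuous (bk d) := bk_cont
  -- Taylor
  set W : Sp d → V := fun z => ∫ s in (0 : ℝ)..1, (1 - s) ^ n •
    iteratedFDeriv ℝ (n + 1) u ((c + r • z) + s • (x - (c + r • z))) (fun _ => x - (c + r • z))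
    with hW
  have hT : ∀ z : Sp d, u x = ∑ k ∈ Finset.range (n + 1), ((k ! : ℝ)⁻¹ •
      iteratedFDeriv ℝ k u (c + r • z) (fun _ => x - (c + r • z))) + (n ! : ℝ)⁻¹ • W z := by
    intro z
    have h := map_add_eq_sum_add_integral_iteratedFDeriv (f := u) (x := c + r • z)
      (y := x - (c + r • z)) (n := n) fun t _ =>
      (hu.contDiffAt).of_le (by exact_mod_cast le_top)
    rw [add_sub_cancel] at h
    exact h
  have hWc : Continuous W := by
    have := hDc (n + 1)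
    refine intervalIntegral.continuous_parametric_intervalIntegral_of_continuous' ?_ 0 1
    unfold Function.uncurry
    fun_prop
  have hPc : Continuous fun z : Sp d => ∑ k ∈ Finset.range (n + 1), ((k ! : ℝ)⁻¹ •
      iteratedFDeriv ℝ k u (c + r • z) (fun _ => x - (c + r • z))) := by
    have := hDc
    fun_prop
  have e1 : u x - ATP n c r u x = ∫ z, bk d z • ((n ! : ℝ)⁻¹ • W z) := by
    have h1 : u x = ∫ z, bk d z • u x := by
      rw [integral_smul_const, bk_int, one_smul]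
    have h2 : ATP n c r u x = ∫ z, bk d z • ∑ k ∈ Finset.range (n + 1), ((k ! : ℝ)⁻¹ •
      iteratedFDeriv ℝ k u (c + r • z) (fun _ => x - (c + r • z))) := rfl
    rw [h1, h2, ← integral_sub]
    · refine integral_congr_ae (Filter.Eventually.of_forall fun z => ?_)
      show bk d z • u x - bk d z • _ = bk d z • ((n ! : ℝ)⁻¹ • W z)
      rw [← smul_sub]
      congr 1
      nth_rewrite 1 [hT z]
      rw [add_sub_cancel_left]
    · exact Continuous.integrable_of_hasCompactSupport (by fun_prop) (bk_cs _)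
    · exact Continuous.integrable_of_hasCompactSupport (by fun_prop) (bk_cs _)
  rw [e1, real_inner_comm]
  have e2 : ⟪v, ∫ z, bk d z • ((n ! : ℝ)⁻¹ • W z)⟫_ℝ =
      ∫ z, ⟪v, bk d z • ((n ! : ℝ)⁻¹ • W z)⟫_ℝ := by
    have h0 : Integrable (fun z => bk d z • ((n ! : ℝ)⁻¹ • W z)) :=
      Continuous.integrable_of_hasCompactSupport (by fun_prop) (bk_cs _)
    exact ((innerSL ℝ v).integral_comp_comm h0).symm
  rw [e2]
  rw [← setIntegral_eq_integral_of_forall_compl_eq_zero (s := closedBall (0 : Sp d) 1)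
    (μ := (volume : Measure (Sp d)))]
  · refine integral_congr_ae (Filter.Eventually.of_forall fun z => ?_)
    show ⟪v, bk d z • ((n ! : ℝ)⁻¹ • W z)⟫_ℝ = _
    rw [inner_smul_right, inner_smul_right]
    have h0 : Continuous fun s : ℝ => (1 - s) ^ n • iteratedFDeriv ℝ (n + 1) u
        ((c + r • z) + s • (x - (c + r • z))) (fun _ => x - (c + r • z)) := by
      have := hDc (n + 1)
      fun_prop
    have h1 : ⟪v, W z⟫_ℝ = ∫ s in Icc (0 : ℝ) 1, ⟪v, (1 - s) ^ n • iteratedFDeriv ℝ (n + 1) u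
        ((c + r • z) + s • (x - (c + r • z))) (fun _ => x - (c + r • z))⟫_ℝ := by
      rw [hW]
      simp only
      rw [intervalIntegral.integral_of_le zero_le_one, ← integral_Icc_eq_integral_Ioc]
      have h2 : Integrable (fun s : ℝ => (1 - s) ^ n • iteratedFDeriv ℝ (n + 1) u
        ((c + r • z) + s • (x - (c + r • z))) (fun _ => x - (c + r • z)))
        (volume.restrict (Icc (0 : ℝ) 1)) := h0.continuousOn.integrableOn_compact isCompact_Icc
      exact ((innerSL ℝ v).integral_comp_comm h2).symm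
    rw [h1, ← integral_const_mul, ← integral_const_mul]
    refine integral_congr_ae (Filter.Eventually.of_forall fun s => ?_)
    show bk d z * ((n ! : ℝ)⁻¹ * ⟪v, (1 - s) ^ n • iteratedFDeriv ℝ (n + 1) u
        ((c + r • z) + s • (x - (c + r • z))) (fun _ => x - (c + r • z))⟫_ℝ) = _
    have h3 : (c + r • z) + s • (x - (c + r • z)) = (1 - s) • (c + r • z) + s • x := by
      rw [smul_sub, sub_smul, one_smul]
      abel
    rw [h3, inner_smul_right]
    ring
  · intro z hz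
    rw [mem_closedBall, dist_zero_right, not_le] at hz
    rw [bk_zero hz.le, zero_smul, inner_zero_right]

end Taylor

section Basis

variable {d : ℕ} {V E : Type} [NormedAddCommGroup V] [InnerProductSpace ℝ V]
  [FiniteDimensional ℝ V] [NormedAddCommGroup E] [InnerProductSpace ℝ E] [FiniteDimensional ℝ E]

/-- basis vector -/
noncomputable def ei (i : Fin d) : Sp d := EuclideanSpace.single i (1 : ℝ)

/-- product of coordinates -/
noncomputable def Mc {n : ℕ} (al : Fin n → Fin d) :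
    ContinuousMultilinearMap ℝ (fun _ : Fin n => Sp d) ℝ :=
  (ContinuousMultilinearMap.mkPiAlgebra ℝ (Fin n) ℝ).compContinuousLinearMap
    (fun i => EuclideanSpace.proj (al i))

lemma Mc_apply {n : ℕ} (al : Fin n → Fin d) (x : Fin n → Sp d) :
    Mc al x = ∏ i, x i (al i) := by
  unfold Mc
  simp

lemma expand {n : ℕ} (A : ContinuousMultilinearMap ℝ (fun _ : Fin n => Sp d) E) :
    A = ∑ al : Fin n → Fin d, (Mc al).smulRight (A (fun i => ei (al i))) := by
  ext x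
  have h1 : x = fun i => ∑ j, x i j • (ei j : Sp d) := by
    funext i
    conv_lhs => rw [← (EuclideanSpace.basisFun (Fin d) ℝ).sum_repr (x i)]
    refine Finset.sum_congr rfl fun j _ => ?_
    simp [ei]
  conv_lhs => rw [h1]
  have h2 := A.map_sum (fun (i : Fin n) (j : Fin d) => x i j • (ei j : Sp d))
  rw [h2, sum_apply]
  refine Finset.sum_congr rfl fun al _ => ?_
  have h3 := A.map_smul_univ (fun i => x i (al i)) (fun i => (ei (al i) : Sp d))
  rw [h3, ContinuousMultilinearMap.smulRight_apply, Mc_apply]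

/-- Riesz representation -/
noncomputable def Rz (E : Type) [NormedAddCommGroup E] [InnerProductSpace ℝ E]
    [FiniteDimensional ℝ E] : (E →L[ℝ] ℝ) →L[ℝ] E :=
  ∑ i, (ContinuousLinearMap.apply ℝ ℝ (stdOrthonormalBasis ℝ E i)).smulRight
    (stdOrthonormalBasis ℝ E i)

lemma inner_Rz (v : E) (S : E →L[ℝ] ℝ) : ⟪v, Rz E S⟫_ℝ = S v := by
  unfold Rz
  rw [sum_apply, inner_sum]
  conv_rhs => rw [← (stdOrthonormalBasis ℝ E).sum_repr v, map_sum]
  refine Finset.sum_congr rfl fun i _ => ?_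
  rw [ContinuousLinearMap.smulRight_apply, inner_smul_right, map_smul, smul_eq_mul,
    OrthonormalBasis.repr_apply_apply, real_inner_comm, mul_comm]
  rfl

/-- the real inner product as a bilinear map -/
noncomputable def ip (V : Type) [NormedAddCommGroup V] [InnerProductSpace ℝ V] :
    V →L[ℝ] V →L[ℝ] ℝ := (innerₗ V).mkContinuous₂ 1 (fun x y => by
      rw [one_mul]; exact norm_inner_le_norm x y)

lemma ip_apply (v w : V) : ip V v w = ⟪v, w⟫_ℝ := rfl

/-- pairing of a vector with a linear map -/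
noncomputable def BL (V E : Type) [NormedAddCommGroup V] [InnerProductSpace ℝ V]
    [NormedAddCommGroup E] [InnerProductSpace ℝ E] :
    V →L[ℝ] (E →L[ℝ] V) →L[ℝ] (E →L[ℝ] ℝ) :=
  (ContinuousLinearMap.compL ℝ E V ℝ).comp (ip V)

lemma BL_apply (v : V) (P : E →L[ℝ] V) (e : E) : BL V E v P e = ⟪v, P e⟫_ℝ := rfl

/-- evaluation on the diagonal -/
noncomputable def Dg {m : ℕ} (S : E →L[ℝ] (ContinuousMultilinearMap ℝ (fun _ : Fin m => Sp d) V))
    (w : Sp d) : E →L[ℝ] V :=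
  (ContinuousMultilinearMap.apply ℝ (fun _ : Fin m => Sp d) V (fun _ => w)).comp S

lemma Dg_apply {m : ℕ} (S : E →L[ℝ] (ContinuousMultilinearMap ℝ (fun _ : Fin m => Sp d) V))
    (w : Sp d) (e : E) : Dg S w e = S e (fun _ => w) := rfl

lemma Dg_contDiff {m : ℕ}
    (S : E →L[ℝ] (ContinuousMultilinearMap ℝ (fun _ : Fin m => Sp d) V)) :
    ContDiff ℝ ∞ (Dg S) := by
  rw [contDiff_clm_apply_iff]
  intro e
  have h : (fun w => Dg S w e) = fun w => (S e) (fun _ => w) := rfl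
  rw [h]
  exact (S e).contDiff.comp (contDiff_pi.mpr fun _ => contDiff_id)

/-- the component of T -/
noncomputable def Sc {n : ℕ} (T : (ContinuousMultilinearMap ℝ (fun _ : Fin n => Sp d) E) →L[ℝ]
      (ContinuousMultilinearMap ℝ (fun _ : Fin (n + 1) => Sp d) V)) (al : Fin n → Fin d) :
    E →L[ℝ] (ContinuousMultilinearMap ℝ (fun _ : Fin (n + 1) => Sp d) V) :=
  T.comp (ContinuousMultilinearMap.smulRightL ℝ (fun _ : Fin n => Sp d) E (Mc al))

lemma Sc_apply {n : ℕ} (T : (ContinuousMultilinearMap ℝ (fun _ : Fin n => Sp d) E) →L[ℝ]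
      (ContinuousMultilinearMap ℝ (fun _ : Fin (n + 1) => Sp d) V)) (al : Fin n → Fin d) (e : E) :
    Sc T al e = T ((Mc al).smulRight e) := rfl

lemma sum_Sc {n : ℕ} (T : (ContinuousMultilinearMap ℝ (fun _ : Fin n => Sp d) E) →L[ℝ]
      (ContinuousMultilinearMap ℝ (fun _ : Fin (n + 1) => Sp d) V))
    (A : ContinuousMultilinearMap ℝ (fun _ : Fin n => Sp d) E) :
    T A = ∑ al : Fin n → Fin d, Sc T al (A (fun i => ei (al i))) := by
  conv_lhs => rw [expand A, map_sum]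
  rfl

end Basis

section Main

variable {d : ℕ} {V E : Type} [NormedAddCommGroup V] [InnerProductSpace ℝ V]
  [FiniteDimensional ℝ V] [NormedAddCommGroup E] [InnerProductSpace ℝ E] [FiniteDimensional ℝ E]

lemma th1_bd (n : ℕ) {c : Sp d} {r r0 R : ℝ} (hr0 : 0 < r0) (hr : r0 ≤ r)
    {x : Sp d} (hx : ‖x‖ ≤ R) {s : ℝ} (hs : s ∈ Icc (0 : ℝ) (1 / 2)) {p : Sp d}
    (hp : ‖p‖ ≤ 2 * R) :
    |(th1 n c r (x, s)).1| ≤ (2 / r0) ^ d + 2 ^ d ∧ |(th1 n c r (x, s)).2.1| ≤ 2 + 2 / r0 ∧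
    |(th1 n c r (x, s)).2.2.2.1| ≤ 2 ∧ |(th1 n c r (x, s)).2.2.2.2.2.1| ≤ 2 ∧
    ‖(th1 n c r (x, s)).2.2.2.1 • p + (th1 n c r (x, s)).2.2.2.2.1‖ ≤ 8 * R := by
  have hR : 0 ≤ R := (norm_nonneg _).trans hx
  have hrp : 0 < r := lt_of_lt_of_le hr0 hr
  have hm := m1_inv s
  have hmp := m1_pos s
  have hmi : 0 < (m1 s)⁻¹ := inv_pos.mpr hmp
  have h1 : (m1 s * r)⁻¹ ≤ 2 / r0 := by
    rw [mul_inv, div_eq_mul_inv]
    have : r⁻¹ ≤ r0⁻¹ := inv_anti₀ hr0 hr
    gcongr
  have h1p : 0 < (m1 s * r)⁻¹ := by positivity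
  have hs1 : 0 ≤ 1 - s := by linarith [hs.2]
  have hs2 : 1 - s ≤ 1 := by linarith [hs.1]
  refine ⟨?_, ?_, ?_, ?_, ?_⟩
  · simp only [th1]
    rw [abs_of_nonneg (by positivity)]
    have e1 : (n ! : ℝ)⁻¹ ≤ 1 := inv_le_one_of_one_le₀ (by exact_mod_cast Nat.one_le_iff_ne_zero.mpr (Nat.factorial_ne_zero n))
    have e2 : (1 - s) ^ n ≤ 1 := pow_le_one₀ hs1 hs2
    have e3 : ((m1 s * r)⁻¹) ^ d ≤ (2 / r0) ^ d := by gcongr
    calc (n ! : ℝ)⁻¹ * (1 - s) ^ n * ((m1 s * r)⁻¹) ^ d ≤ 1 * 1 * (2 / r0) ^ d := by (clear * - e1 e2 hs1 e3 hmp hrp; gcongr)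
      _ ≤ _ := by
          have : (0 : ℝ) < 2 ^ d := by positivity
          linarith
  · simp only [th1]
    rw [abs_of_pos h1p]
    linarith
  · simp only [th1]
    rw [abs_neg, abs_of_pos hmi]
    exact hm
  · simp only [th1]
    rw [abs_zero]; norm_num
  · simp only [th1]
    calc ‖-(m1 s)⁻¹ • p + (m1 s)⁻¹ • x‖ ≤ ‖-(m1 s)⁻¹ • p‖ + ‖(m1 s)⁻¹ • x‖ := norm_add_le _ _
      _ = (m1 s)⁻¹ * ‖p‖ + (m1 s)⁻¹ * ‖x‖ := by
          rw [norm_smul, norm_smul, norm_neg, Real.norm_of_nonneg hmi.le]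
      _ ≤ 2 * (2 * R) + 2 * R := by gcongr
      _ ≤ 8 * R := by linarith

lemma th2_bd (n : ℕ) {c : Sp d} {r r0 R : ℝ} (hr0 : 0 < r0) (hr : r0 ≤ r) (hrR : r ≤ R)
    (hc : ‖c‖ ≤ R)
    {z : Sp d} (hz : ‖z‖ ≤ 1) {s : ℝ} (hs : s ∈ Icc (1 / 2 : ℝ) 1) {p : Sp d}
    (hp : ‖p‖ ≤ 2 * R) :
    |(th2 n c r (z, s)).1| ≤ (2 / r0) ^ d + 2 ^ d ∧ |(th2 n c r (z, s)).2.1| ≤ 2 + 2 / r0 ∧
    |(th2 n c r (z, s)).2.2.2.1| ≤ 2 ∧ |(th2 n c r (z, s)).2.2.2.2.2.1| ≤ 2 ∧
    ‖(th2 n c r (z, s)).2.2.2.1 • p + (th2 n c r (z, s)).2.2.2.2.1‖ ≤ 8 * R := by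
  have hR : 0 ≤ R := (norm_nonneg _).trans hc
  have hrp : 0 < r := lt_of_lt_of_le hr0 hr
  have hm := m2_inv s
  have hmp := m2_pos s
  have hmi : 0 < (m2 s)⁻¹ := inv_pos.mpr hmp
  have hs1 : 0 ≤ 1 - s := by linarith [hs.2]
  have hs2 : 1 - s ≤ 1 := by linarith [hs.1]
  refine ⟨?_, ?_, ?_, ?_, ?_⟩
  · simp only [th2]
    rw [abs_of_nonneg (by positivity)]
    have e1 : (n ! : ℝ)⁻¹ ≤ 1 := inv_le_one_of_one_le₀ (by exact_mod_cast Nat.one_le_iff_ne_zero.mpr (Nat.factorial_ne_zero n))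
    have e2 : (1 - s) ^ n ≤ 1 := pow_le_one₀ hs1 hs2
    have e3 : ((m2 s)⁻¹) ^ d ≤ 2 ^ d := by gcongr
    calc (n ! : ℝ)⁻¹ * (1 - s) ^ n * ((m2 s)⁻¹) ^ d ≤ 1 * 1 * 2 ^ d := by (clear * - e1 e2 hs1 e3 hmp; gcongr)
      _ ≤ _ := by
          have : (0 : ℝ) < (2 / r0) ^ d := by positivity
          linarith
  · simp only [th2]
    rw [abs_zero]; positivity
  · simp only [th2]
    rw [abs_of_pos hmi]
    exact hm
  · simp only [th2]
    rw [abs_of_pos hmi]
    exact hm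
  · simp only [th2]
    have h3 : ‖c + r • z‖ ≤ 2 * R := by
      calc ‖c + r • z‖ ≤ ‖c‖ + ‖r • z‖ := norm_add_le _ _
        _ = ‖c‖ + r * ‖z‖ := by rw [norm_smul, Real.norm_of_nonneg hrp.le]
        _ ≤ R + R * 1 := by gcongr
        _ = 2 * R := by ring
    calc ‖(m2 s)⁻¹ • p + -((m2 s)⁻¹ • (c + r • z))‖ ≤ ‖(m2 s)⁻¹ • p‖ +
          ‖-((m2 s)⁻¹ • (c + r • z))‖ := norm_add_le _ _
      _ = (m2 s)⁻¹ * ‖p‖ + (m2 s)⁻¹ * ‖c + r • z‖ := by
          rw [norm_neg, norm_smul, norm_smul, Real.norm_of_nonneg hmi.le]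
      _ ≤ 2 * (2 * R) + 2 * (2 * R) := by (clear * - hm hp h3; gcongr)
      _ ≤ 8 * R := by linarith

/-- the result for one component -/
lemma one_comp (n : ℕ) (S : E →L[ℝ] (ContinuousMultilinearMap ℝ (fun _ : Fin (n + 1) => Sp d) V))
    (al : Fin n → Fin d) (J : ℕ) (r0 R : ℝ) (hr0 : 0 < r0) (_hR : r0 ≤ R) : ∃ C : ℝ, 0 < C ∧
      ∀ (c : Sp d) (r : ℝ), ‖c‖ ≤ R → r0 ≤ r → r ≤ R →
      ∀ (g : Sp d → V) (N : ℝ), TFn (J + n + 1) N g → (∀ y, R ≤ ‖y‖ → g y = 0) →
      ∃ Psi : Sp d → (E →L[ℝ] ℝ), ContDiff ℝ J Psi ∧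
        (∀ j ≤ J, ∀ p, ‖iteratedFDeriv ℝ j Psi p‖ ≤ C * N) ∧ tsupport Psi ⊆ SS g c r ∧
        ∀ f : Sp d → E, ContDiff ℝ ∞ f →
          ∫ x in closedBall (0 : Sp d) R, ∫ z in closedBall (0 : Sp d) 1, ∫ s in Icc (0 : ℝ) 1,
            Gt n c r (ContinuousLinearMap.id ℝ (E →L[ℝ] ℝ)) (BL V E) (Dg S) g
              (fun p => iteratedFDeriv ℝ n f p (fun i => ei (al i))) x z s =
          ∫ p, Psi p (f p) := by
  obtain ⟨C, hC, hb⟩ := HH_bd (BL V E) (Dg_contDiff S) (J + n) (2 + 2 / r0) (8 * R)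
    ((2 / r0) ^ d + 2 ^ d) (by have : 0 < 2 / r0 := by positivity
                               linarith) (by positivity)
  set v1 : ℝ := (volume : Measure (Sp d × ℝ)).real (closedBall (0 : Sp d) R ×ˢ Icc (0 : ℝ) (1 / 2))
    with hv1
  set v2 : ℝ := (volume : Measure (Sp d × ℝ)).real (closedBall (0 : Sp d) 1 ×ˢ Icc (1 / 2 : ℝ) 1)
    with hv2
  have hv1p : 0 ≤ v1 := measureReal_nonneg
  have hv2p : 0 ≤ v2 := measureReal_nonneg
  refine ⟨C * v1 + C * v2 + 1, by positivity, ?_⟩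
  intro c r hc hr hrR g N hg hgR
  have hR0 : 0 ≤ R := (norm_nonneg _).trans hc
  have hrp : 0 < r := lt_of_lt_of_le hr0 hr
  have hN : 0 ≤ N := (norm_nonneg _).trans (hg.bd 0 (Nat.zero_le _) 0)
  have hg' : TFn (J + n) N g := ⟨hg.smooth.of_le (by norm_cast; omega), fun j hj => hg.bd j (by omega)⟩
  have hgc : Continuous g := hg.smooth.continuous
  have hgs : HasCompactSupport g := by
    refine HasCompactSupport.intro (isCompact_closedBall (0 : Sp d) R) fun y hy => ?_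
    rw [mem_closedBall, dist_zero_right, not_le] at hy
    exact hgR y hy.le
  have hSc : Continuous (Dg S) := (Dg_contDiff S).continuous
  have hSScl : IsClosed (SS g c r) := (SS_compact hgs c r).isClosed
  have hball := SS_ball hgR hc hrR
  -- the two kernels
  obtain ⟨a1, a2⟩ := Lm_props (BL V E) (Dg_contDiff S) hg'.smooth (th1_cont n c hrp)
    (isCompact_closedBall (0 : Sp d) R) (isCompact_Icc (a := (0 : ℝ)) (b := 1 / 2)) hSScl
    (fun x _ s hs p hp => supp1 hrp hs hp) (C := C * N) (by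
      intro p hp x hx s hs j hj
      have hx' : ‖x‖ ≤ R := by simpa using hx
      have hp' : ‖p‖ ≤ 2 * R := by simpa using hball hp
      obtain ⟨q1, q2, q3, q4, q5⟩ := th1_bd n (c := c) hr0 hr hx' hs hp'
      exact hb g N hg' _ p q1 q2 q3 q4 q5 j hj) (by positivity)
  obtain ⟨b1, b2⟩ := Lm_props (BL V E) (Dg_contDiff S) hg'.smooth (th2_cont n c r)
    (isCompact_closedBall (0 : Sp d) 1) (isCompact_Icc (a := (1 / 2 : ℝ)) (b := 1)) hSScl
    (fun x _ s hs p hp => supp2 hrp hs hp) (C := C * N) (by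
      intro p hp z hz s hs j hj
      have hz' : ‖z‖ ≤ 1 := by simpa using hz
      have hp' : ‖p‖ ≤ 2 * R := by simpa using hball hp
      obtain ⟨q1, q2, q3, q4, q5⟩ := th2_bd n (c := c) hr0 hr hrR hc hz' hs hp'
      exact hb g N hg' _ p q1 q2 q3 q4 q5 j hj) (by positivity)
  set L1 := Lm (BL V E) (Dg S) g (th1 n c r) (closedBall (0 : Sp d) R) (Icc (0 : ℝ) (1 / 2)) with hL1
  set L2 := Lm (BL V E) (Dg S) g (th2 n c r) (closedBall (0 : Sp d) 1) (Icc (1 / 2 : ℝ) 1) with hL2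
  have z1 : ∀ p, p ∉ SS g c r → L1 p = 0 := fun p hp =>
    Lm_zero (BL V E) (fun x _ s hs p hp => supp1 hrp hs hp) hp
  have z2 : ∀ p, p ∉ SS g c r → L2 p = 0 := fun p hp =>
    Lm_zero (BL V E) (fun x _ s hs p hp => supp2 hrp hs hp) hp
  have hts : tsupport (fun p => L1 p + L2 p) ⊆ SS g c r := by
    refine closure_minimal (fun p hp => ?_) hSScl
    by_contra h
    rw [Function.mem_support] at hp
    exact hp (by rw [z1 p h, z2 p h, add_zero])
  have hcs : HasCompactSupport (fun p => L1 p + L2 p) :=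
    (SS_compact hgs c r).of_isClosed_subset (isClosed_tsupport _) hts
  have hbd : ∀ j ≤ J + n, ∀ p, ‖iteratedFDeriv ℝ j (fun p => L1 p + L2 p) p‖ ≤
      (C * v1 + C * v2 + 1) * N := by
    intro j hj p
    have e1 : iteratedFDeriv ℝ j (fun p => L1 p + L2 p) p =
        iteratedFDeriv ℝ j L1 p + iteratedFDeriv ℝ j L2 p :=
      iteratedFDeriv_add_apply ((a1.of_le (by exact_mod_cast hj)).contDiffAt)
        ((b1.of_le (by exact_mod_cast hj)).contDiffAt)
    rw [e1]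
    calc _ ≤ ‖iteratedFDeriv ℝ j L1 p‖ + ‖iteratedFDeriv ℝ j L2 p‖ := norm_add_le _ _
      _ ≤ C * N * v1 + C * N * v2 := add_le_add (a2 j hj p) (b2 j hj p)
      _ ≤ _ := by nlinarith
  obtain ⟨Psi, hP1, hP2, hP3, hP4⟩ := ibp (ContinuousLinearMap.id ℝ (E →L[ℝ] ℝ)) n
    (fun i => ei (al i)) (fun i => by simp [ei]) J (fun p => L1 p + L2 p) _ (a1.add b1) hcs hbd
  refine ⟨Psi, hP1, hP2, hP3.trans hts, ?_⟩
  intro f hf
  have hhc : Continuous (fun p => iteratedFDeriv ℝ n f p (fun i => (ei (al i) : Sp d))) := by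
    have : Continuous (iteratedFDeriv ℝ n f) :=
      hf.continuous_iteratedFDeriv (by exact_mod_cast le_top)
    fun_prop
  rw [triple n hrp hc hrR (ContinuousLinearMap.id ℝ (E →L[ℝ] ℝ)) (BL V E) hSc hgc hgR hhc]
  have h4 := hP4 f hf
  simp only [ContinuousLinearMap.id_apply] at h4 ⊢
  rw [← h4, ← integral_add]
  · rfl
  · have h5 : Continuous fun p => L1 p (iteratedFDeriv ℝ n f p (fun i => (ei (al i) : Sp d))) :=
      a1.continuous.clm_apply hhc
    refine h5.integrable_of_hasCompactSupport (HasCompactSupport.intro (SS_compact hgs c r) ?_)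
    intro p hp
    rw [z1 p hp, zero_apply]
  · have h5 : Continuous fun p => L2 p (iteratedFDeriv ℝ n f p (fun i => (ei (al i) : Sp d))) :=
      b1.continuous.clm_apply hhc
    refine h5.integrable_of_hasCompactSupport (HasCompactSupport.intro (SS_compact hgs c r) ?_)
    intro p hp
    rw [z2 p hp, zero_apply]

lemma triple_sum {ι : Type} [Fintype ι] (G : ι → Sp d × Sp d × ℝ → ℝ) (hG : ∀ i, Continuous (G i))
    (R : ℝ) :
    ∫ x in closedBall (0 : Sp d) R, ∫ z in closedBall (0 : Sp d) 1, ∫ s in Icc (0 : ℝ) 1,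
      ∑ i, G i (x, z, s) =
    ∑ i, ∫ x in closedBall (0 : Sp d) R, ∫ z in closedBall (0 : Sp d) 1, ∫ s in Icc (0 : ℝ) 1,
      G i (x, z, s) := by
  have hGz : ∀ i x, Continuous fun q : Sp d × ℝ => G i (x, q.1, q.2) := fun i x =>
    (hG i).comp (f := fun q : Sp d × ℝ => (x, q.1, q.2)) (by fun_prop)
  have hGs : ∀ i x z, Continuous fun s : ℝ => G i (x, z, s) := fun i x z =>
    (hGz i x).comp (f := fun s : ℝ => (z, s)) (by fun_prop)
  have hI : ∀ i, Continuous fun q : Sp d × Sp d => ∫ s in Icc (0 : ℝ) 1, G i (q.1, q.2, s) := by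
    intro i
    refine continuous_parametric_integral_of_continuous (X := Sp d × Sp d)
      (f := fun q s => G i (q.1, q.2, s)) ?_ isCompact_Icc
    exact (hG i).comp (f := fun q : (Sp d × Sp d) × ℝ => (q.1.1, q.1.2, q.2)) (by fun_prop)
  have hIz : ∀ i x, Continuous fun z : Sp d => ∫ s in Icc (0 : ℝ) 1, G i (x, z, s) := fun i x =>
    (hI i).comp (f := fun z : Sp d => (x, z)) (by fun_prop)
  have hJ : ∀ i, Continuous fun x : Sp d =>
      ∫ z in closedBall (0 : Sp d) 1, ∫ s in Icc (0 : ℝ) 1, G i (x, z, s) := by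
    intro i
    exact continuous_parametric_integral_of_continuous (X := Sp d)
      (f := fun x z => ∫ s in Icc (0 : ℝ) 1, G i (x, z, s)) (hI i) (isCompact_closedBall _ _)
  rw [← integral_finsetSum]
  · refine integral_congr_ae (Filter.Eventually.of_forall fun x => ?_)
    show ∫ z in closedBall (0 : Sp d) 1, ∫ s in Icc (0 : ℝ) 1, ∑ i, G i (x, z, s) =
      ∑ i, ∫ z in closedBall (0 : Sp d) 1, ∫ s in Icc (0 : ℝ) 1, G i (x, z, s)
    rw [← integral_finsetSum]
    · refine integral_congr_ae (Filter.Eventually.of_forall fun z => ?_)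
      show ∫ s in Icc (0 : ℝ) 1, ∑ i, G i (x, z, s) = ∑ i, ∫ s in Icc (0 : ℝ) 1, G i (x, z, s)
      rw [← integral_finsetSum]
      intro i _
      exact (hGs i x z).continuousOn.integrableOn_compact isCompact_Icc
    · intro i _
      exact (hIz i x).continuousOn.integrableOn_compact (isCompact_closedBall _ _)
  · intro i _
    exact (hJ i).continuousOn.integrableOn_compact (isCompact_closedBall _ _)

end Main

end TP

open _root_.TG.TP in
theorem stmtTP : StmtTP := by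
  intro d V E _ _ _ _ _ _ L n T _hd _hn hNS J r0 R hr0 hR
  have h1 := fun al : Fin n → Fin d => one_comp n (Sc T al) al J r0 R hr0 hR
  choose C hC hmain using h1
  refine ⟨‖Rz E‖ * (∑ al, C al) + 1, ?_, ?_⟩
  · have : 0 ≤ ∑ al, C al := Finset.sum_nonneg fun al _ => (hC al).le
    positivity
  intro c r hc hr hrR g N hg hgR
  have hR0 : 0 ≤ R := (norm_nonneg _).trans hc
  have hN : 0 ≤ N := (norm_nonneg _).trans (hg.bd 0 (Nat.zero_le _) 0)
  have hgc : Continuous g := hg.smooth.continuous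
  have hgs : HasCompactSupport g := by
    refine HasCompactSupport.intro (isCompact_closedBall (0 : Sp d) R) fun y hy => ?_
    rw [mem_closedBall, dist_zero_right, not_le] at hy
    exact hgR y hy.le
  choose Psi hP1 hP2 hP3 hP4 using fun al => hmain al c r hc hr hrR g N hg hgR
  have hsum : ContDiff ℝ J (fun p => ∑ al, Psi al p) := ContDiff.sum fun al _ => hP1 al
  have hsb : ∀ j ≤ J, ∀ p, ‖iteratedFDeriv ℝ j (fun p => ∑ al, Psi al p) p‖ ≤
      (∑ al, C al) * N := by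
    intro j hj p
    have e1 := iteratedFDeriv_sum (𝕜 := ℝ) (u := (Finset.univ : Finset (Fin n → Fin d)))
      (f := Psi) (i := j) (fun al _ => (hP1 al).of_le (by exact_mod_cast hj))
    rw [e1, Finset.sum_apply, Finset.sum_mul]
    exact (norm_sum_le _ _).trans (Finset.sum_le_sum fun al _ => hP2 al j hj p)
  refine ⟨fun p => Rz E (∑ al, Psi al p), ⟨(Rz E).contDiff.comp hsum, ?_⟩, ?_, ?_⟩
  · intro j hj p
    have e2 := (Rz E).norm_iteratedFDeriv_comp_left (hsum.contDiffAt (x := p)) (n := j)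
      (by exact_mod_cast hj)
    calc ‖iteratedFDeriv ℝ j (fun p => Rz E (∑ al, Psi al p)) p‖ ≤ _ := e2
      _ ≤ ‖Rz E‖ * ((∑ al, C al) * N) := by
          gcongr
          exact hsb j hj p
      _ ≤ _ := by linarith only [hN]
  · intro y hy
    apply SS_hull g c r
    by_contra h
    apply hy
    have : ∀ al, Psi al y = 0 := fun al => by
      by_contra h2
      exact h (hP3 al (subset_closure h2))
    simp only [this, Finset.sum_const_zero, map_zero]
  · intro u hu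
    have hf : ContDiff ℝ ∞ (fo L u) := by
      have : ContDiff ℝ ∞ (fderiv ℝ u) := hu.fderiv_right (m := ∞) le_rfl
      exact L.contDiff.comp this
    -- the components
    set Gc : (Fin n → Fin d) → Sp d × Sp d × ℝ → ℝ := fun al q =>
      Gt n c r (ContinuousLinearMap.id ℝ (E →L[ℝ] ℝ)) (BL V E) (Dg (Sc T al)) g
        (fun p => iteratedFDeriv ℝ n (fo L u) p (fun i => ei (al i))) q.1 q.2.1 q.2.2 with hGc
    have hGcc : ∀ al, Continuous (Gc al) := by
      intro al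
      have hDf : Continuous (iteratedFDeriv ℝ n (fo L u)) :=
        hf.continuous_iteratedFDeriv (by exact_mod_cast le_top)
      exact Gt_cont n c r _ (BL V E) (Dg_contDiff _).continuous hgc (by fun_prop)
    have e1 : ∫ x, ⟪u x - ATP n c r u x, g x⟫_ℝ =
        ∫ x in closedBall (0 : Sp d) R, ⟪u x - ATP n c r u x, g x⟫_ℝ := by
      refine (setIntegral_eq_integral_of_forall_compl_eq_zero fun x hx => ?_).symm
      rw [mem_closedBall, dist_zero_right, not_le] at hx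
      rw [hgR x hx.le, inner_zero_right]
    have e2 : ∫ x in closedBall (0 : Sp d) R, ⟪u x - ATP n c r u x, g x⟫_ℝ =
        ∫ x in closedBall (0 : Sp d) R, ∫ z in closedBall (0 : Sp d) 1, ∫ s in Icc (0 : ℝ) 1,
          ∑ al, Gc al (x, z, s) := by
      refine integral_congr_ae (Filter.Eventually.of_forall fun x => ?_)
      show ⟪u x - ATP n c r u x, g x⟫_ℝ = _
      rw [taylor_id hu n c r x (g x)]
      refine integral_congr_ae (Filter.Eventually.of_forall fun z => ?_)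
      refine integral_congr_ae (Filter.Eventually.of_forall fun s => ?_)
      show bk d z * ((n ! : ℝ)⁻¹ * (1 - s) ^ n) *
          ⟪g x, iteratedFDeriv ℝ (n + 1) u ((1 - s) • (c + r • z) + s • x)
            (fun _ => x - (c + r • z))⟫_ℝ = ∑ al, bk d z * ((n ! : ℝ)⁻¹ * (1 - s) ^ n) *
          ⟪g x, Sc T al (iteratedFDeriv ℝ n (fo L u) ((1 - s) • (c + r • z) + s • x)
            (fun i => ei (al i))) (fun _ => x - (c + r • z))⟫_ℝ
      rw [← Finset.mul_sum, hNS u hu, sum_Sc T, sum_apply, inner_sum]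
    rw [e1, e2, triple_sum Gc hGcc R]
    have e3 : ∀ p, ⟪fo L u p, Rz E (∑ al, Psi al p)⟫_ℝ = ∑ al, Psi al p (fo L u p) := by
      intro p
      rw [inner_Rz, sum_apply]
    simp_rw [e3]
    rw [integral_finsetSum]
    · exact Finset.sum_congr rfl fun al _ => hP4 al (fo L u) hf
    · intro al _
      have h5 : Continuous fun p => Psi al p (fo L u p) :=
        (hP1 al).continuous.clm_apply hf.continuous
      refine h5.integrable_of_hasCompactSupport (HasCompactSupport.intro (SS_compact hgs c r) ?_)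
      intro p hp
      have : Psi al p = 0 := by
        by_contra h2
        exact hp (hP3 al (subset_closure h2))
      rw [this, zero_apply]

end TG


end

section

/-!
# Tools for the modules SHA and HU (MP_287c87_an; helper22)

Test functions of the height over a plane, estimates of the pairing of the field with tests
supported on one side of a plane, tests vanishing quadratically on a plane.
-/

set_option linter.unusedSectionVars false

open MeasureTheory Metric Set TrI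
open scoped InnerProductSpace ContDiff

namespace TG
namespace SH

variable {d : ℕ}

section Basic

variable {F : Type*} [NormedAddCommGroup F] [NormedSpace ℝ F]

theorem lev_unit (n : ℕ) : lev ((1 / 2 : ℝ) ^ n) n = 1 := by
  unfold lev
  rw [← mul_pow]
  norm_num

theorem ma_unit {E : Type} [NormedAddCommGroup E] [InnerProductSpace ℝ E] (b : Sp d → ℝ)
    (ε R0 : ℝ) (f : Sp d → E) (n : ℕ) :
    ma b ε R0 ((1 / 2) ^ n) f n 0 =
      ∫ y in ball (0 : Sp d) R0, ‖fl b ε ((1 / 2) ^ n) f (n - 1) y‖ := by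
  unfold ma
  rw [lev_unit]
  simp

theorem bb_unit {E : Type} [NormedAddCommGroup E] [InnerProductSpace ℝ E]
    (R0 : ℝ) (f : Sp d → E) (n : ℕ) (e : E) (ν : Sp d) (c : ℝ) :
    bb R0 ((1 / 2) ^ n) f n 0 e ν c =
      ∫ y, ⟪f y, e⟫_ℝ * (zR R0 y * ht ν c y ^ 2) := by
  unfold bb
  rw [lev_unit]
  simp

theorem tfn_nonneg {J : ℕ} {N : ℝ} {g : Sp d → F} (h : TFn J N g) : 0 ≤ N :=
  (norm_nonneg _).trans (h.bd 0 (Nat.zero_le _) 0)

theorem tfn_le {J J' : ℕ} {N N' : ℝ} {g : Sp d → F} (h : TFn J N g) (hJ : J' ≤ J)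
    (hN : N ≤ N') : TFn J' N' g :=
  ⟨h.smooth.of_le (by exact_mod_cast hJ), fun j hj x => (h.bd j (hj.trans hJ) x).trans hN⟩

theorem tfn_norm_le {J : ℕ} {N : ℝ} {g : Sp d → F} (h : TFn J N g) (x : Sp d) : ‖g x‖ ≤ N := by
  have := h.bd 0 (Nat.zero_le _) x
  rwa [norm_iteratedFDeriv_zero] at this

theorem tfn_clm {F' : Type*} [NormedAddCommGroup F'] [NormedSpace ℝ F'] (A : F →L[ℝ] F')
    {J : ℕ} {N : ℝ} {g : Sp d → F} (h : TFn J N g) : TFn J (‖A‖ * N) (fun x => A (g x)) := by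
  refine ⟨A.contDiff.comp h.smooth, fun j hj x => ?_⟩
  refine (A.norm_iteratedFDeriv_comp_left (h.smooth.contDiffAt (x := x)) (n := j)
    (by exact_mod_cast hj)).trans ?_
  gcongr
  exact h.bd j hj x

theorem tfn_add {J : ℕ} {N N' : ℝ} {g g' : Sp d → F} (h : TFn J N g) (h' : TFn J N' g') :
    TFn J (N + N') (fun x => g x + g' x) := by
  refine ⟨h.smooth.add h'.smooth, fun j hj x => ?_⟩
  have e1 : iteratedFDeriv ℝ j (fun x => g x + g' x) x =
      iteratedFDeriv ℝ j g x + iteratedFDeriv ℝ j g' x :=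
    iteratedFDeriv_add_apply ((h.smooth.of_le (by exact_mod_cast hj)).contDiffAt)
      ((h'.smooth.of_le (by exact_mod_cast hj)).contDiffAt)
  rw [e1]
  exact (norm_add_le _ _).trans (add_le_add (h.bd j hj x) (h'.bd j hj x))

theorem tfn_fderiv {J : ℕ} {N : ℝ} {g : Sp d → F} (h : TFn (J + 1) N g) :
    TFn J N (fderiv ℝ g) := by
  refine ⟨h.smooth.fderiv_right (by norm_cast), fun j hj x => ?_⟩
  rw [norm_iteratedFDeriv_fderiv]
  exact h.bd (j + 1) (by omega) x

/-- a function with compact support has bounded derivatives -/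
theorem tfn_of_cs {J : ℕ} {g : Sp d → F} (h : ContDiff ℝ J g) (hc : HasCompactSupport g) :
    ∃ N : ℝ, 0 < N ∧ TFn J N g := by
  have h1 : ∀ j : ℕ, ∃ N : ℝ, j ≤ J → ∀ x, ‖iteratedFDeriv ℝ j g x‖ ≤ N := by
    intro j
    by_cases hj : j ≤ J
    · obtain ⟨N, hN⟩ := (hc.iteratedFDeriv (𝕜 := ℝ) j).exists_bound_of_continuous
        (h.continuous_iteratedFDeriv (by exact_mod_cast hj))
      exact ⟨N, fun _ => hN⟩
    · exact ⟨0, fun h => absurd h hj⟩
  choose N hN using h1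
  refine ⟨∑ j ∈ Finset.range (J + 1), |N j| + 1, by positivity, h, fun j hj x => ?_⟩
  have h2 := Finset.single_le_sum (f := fun j => |N j|) (fun i _ => abs_nonneg (N i))
    (Finset.mem_range.2 (Nat.lt_succ_of_le hj))
  have h3 := hN j hj x
  have h4 := le_abs_self (N j)

  linarith

end Basic

section Height

theorem ht_contDiff {k : WithTop ℕ∞} (ν : Sp d) (c : ℝ) : ContDiff ℝ k (ht ν c) := by
  unfold ht
  exact (innerSL ℝ ν).contDiff.sub contDiff_const

theorem ht_continuous (ν : Sp d) (c : ℝ) : Continuous (ht ν c) :=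
  (ht_contDiff (k := 0) ν c).continuous

theorem abs_ht_le {ν : Sp d} (hν : ‖ν‖ = 1) (c : ℝ) (y : Sp d) : |ht ν c y| ≤ ‖y‖ + |c| := by
  unfold ht
  have h1 := abs_real_inner_le_norm ν y
  rw [hν, one_mul] at h1
  calc |⟪ν, y⟫_ℝ - c| ≤ |⟪ν, y⟫_ℝ| + |c| := abs_sub _ _
    _ ≤ _ := by linarith

/-- derivatives of a function of the height -/
theorem comp_ht {k : ℕ} {a : ℝ → ℝ} (ha : ContDiff ℝ k a) {ν : Sp d} (hν : ‖ν‖ = 1) (c : ℝ)
    (p : Sp d) {j : ℕ} (hj : j ≤ k) :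
    ‖iteratedFDeriv ℝ j (fun y => a (ht ν c y)) p‖ ≤ |iteratedDeriv j a (ht ν c p)| := by
  have ha2 : ContDiff ℝ k (fun t => a (t + (-c))) := ha.comp (contDiff_id.add contDiff_const)
  have h := (innerSL ℝ ν).iteratedFDeriv_comp_right ha2 p (i := j) (by exact_mod_cast hj)
  have h1 : (fun t => a (t + (-c))) ∘ (innerSL ℝ ν) = fun y => a (ht ν c y) := by
    funext y
    simp [ht, sub_eq_add_neg]
  rw [h1] at h
  rw [h, iteratedFDeriv_comp_add_right]
  refine (ContinuousMultilinearMap.norm_compContinuousLinearMap_le _ _).trans ?_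
  rw [Finset.prod_const, Finset.card_univ, Fintype.card_fin, innerSL_apply_norm, hν, one_pow,
    mul_one, norm_iteratedFDeriv_eq_norm_iteratedDeriv, Real.norm_eq_abs]
  have h2 : (innerSL ℝ ν) p + -c = ht ν c p := by simp [ht, sub_eq_add_neg]
  rw [h2]

theorem comp_ht_contDiff {k : WithTop ℕ∞} {a : ℝ → ℝ} (ha : ContDiff ℝ k a) (ν : Sp d) (c : ℝ) :
    ContDiff ℝ k (fun y => a (ht ν c y)) := ha.comp (ht_contDiff ν c)

/-- product of a function of the height and a test -/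
theorem tfn_htmul {F : Type} [NormedAddCommGroup F] [NormedSpace ℝ F] {J : ℕ} {a : ℝ → ℝ}
    (ha : ContDiff ℝ J a) {A : ℝ} (hA : ∀ j ≤ J, ∀ t, |iteratedDeriv j a t| ≤ A)
    {ν : Sp d} (hν : ‖ν‖ = 1) (c : ℝ) {N : ℝ} {g : Sp d → F} (hg : TFn J N g) :
    TFn J (2 ^ J * A * N) (fun y => a (ht ν c y) • g y) := by
  refine ⟨(comp_ht_contDiff ha ν c).smul hg.smooth, fun j hj x => ?_⟩
  have h := TP.leib (ContinuousLinearMap.lsmul ℝ ℝ : ℝ →L[ℝ] F →L[ℝ] F)
    (comp_ht_contDiff ha ν c) hg.smooth x (N1 := A) (N2 := N)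
    (fun j hj => (comp_ht ha hν c x hj).trans (hA j hj _)) (fun j hj => hg.bd j hj x) j hj
  have hA0 : 0 ≤ A := (abs_nonneg _).trans (hA 0 (Nat.zero_le _) 0)
  have hN0 := tfn_nonneg hg
  refine h.trans ?_
  have h2 : ‖(ContinuousLinearMap.lsmul ℝ ℝ : ℝ →L[ℝ] F →L[ℝ] F)‖ ≤ 1 :=
    ContinuousLinearMap.opNorm_lsmul_le
  calc 2 ^ J * ‖(ContinuousLinearMap.lsmul ℝ ℝ : ℝ →L[ℝ] F →L[ℝ] F)‖ * A * N
      ≤ 2 ^ J * 1 * A * N := by gcongr
    _ = _ := by ring

end Height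

section Cut

theorem zR_contDiff {k : ℕ} {R : ℝ} (hR : 0 < R) : ContDiff ℝ k (zR R : Sp d → ℝ) := by
  rw [contDiff_iff_contDiffAt]
  intro x
  by_cases hx : x = 0
  · subst hx
    have h : (fun _ : Sp d => (1 : ℝ)) =ᶠ[nhds (0 : Sp d)] zR R := by
      filter_upwards [Metric.ball_mem_nhds (0 : Sp d) hR] with y hy
      rw [mem_ball_zero_iff] at hy
      exact (Real.smoothTransition.one_of_one_le (by linarith)).symm
    exact contDiffAt_const.congr_of_eventuallyEq h.symm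
  · unfold zR
    exact Real.smoothTransition.contDiff.contDiffAt.comp x
      (contDiffAt_const.sub (contDiffAt_norm ℝ hx))

theorem zR_nonneg (R : ℝ) (x : Sp d) : 0 ≤ zR R x := Real.smoothTransition.nonneg _

theorem zR_le_one (R : ℝ) (x : Sp d) : zR R x ≤ 1 := Real.smoothTransition.le_one _

theorem zR_one {R : ℝ} {x : Sp d} (h : ‖x‖ ≤ R) : zR R x = 1 :=
  Real.smoothTransition.one_of_one_le (by linarith)

theorem zR_zero {R : ℝ} {x : Sp d} (h : R + 1 ≤ ‖x‖) : zR R x = 0 :=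
  Real.smoothTransition.zero_of_nonpos (by linarith)

theorem zR_cs (R : ℝ) : HasCompactSupport (zR R : Sp d → ℝ) := by
  refine HasCompactSupport.intro (isCompact_closedBall (0 : Sp d) (R + 1)) fun y hy => ?_
  rw [mem_closedBall_zero_iff, not_le] at hy
  exact zR_zero hy.le

/-- the quadratic weight of a plane -/
theorem zq_tfn {R : ℝ} (hR : 0 < R) (J : ℕ) : ∃ K : ℝ, 1 ≤ K ∧ ∀ (ν : Sp d) (c : ℝ), ‖ν‖ = 1 →
    |c| ≤ 3 * R → TFn J K (fun y => zR R y * ht ν c y ^ 2) := by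
  obtain ⟨N, hN0, hN⟩ := tfn_of_cs (d := d) (zR_contDiff (k := J) hR) (zR_cs R)
  refine ⟨2 ^ J * N * ((4 * R + 2) ^ 2 + 2 * (4 * R + 2) + 2) + 1, by
    have : 0 ≤ 2 ^ J * N * ((4 * R + 2) ^ 2 + 2 * (4 * R + 2) + 2) := by positivity
    linarith, fun ν c hν hc => ⟨(zR_contDiff hR).mul ((ht_contDiff ν c).pow 2), ?_⟩⟩
  intro j hj p
  by_cases hp : ‖p‖ ≤ R + 2
  · have hz : |ht ν c p| ≤ 4 * R + 2 := (abs_ht_le hν c p).trans (by linarith)
    have h1 : ∀ j ≤ J, ‖iteratedFDeriv ℝ j (fun y => ht ν c y ^ 2) p‖ ≤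
        (4 * R + 2) ^ 2 + 2 * (4 * R + 2) + 2 := by
      intro j _
      have h := comp_ht (k := j) (a := fun t => t ^ 2) (contDiff_id.pow 2) hν c p le_rfl
      refine h.trans ?_
      have h0 : (0 : ℝ) ≤ 4 * R + 2 := by linarith
      rw [iteratedDeriv_eq_iterate]
      match j with
      | 0 =>
        simp only [Function.iterate_zero, id_eq]
        rw [abs_pow]
        have : |ht ν c p| ^ 2 ≤ (4 * R + 2) ^ 2 := by gcongr
        linarith
      | 1 =>
        simp only [Function.iterate_one]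
        have e : deriv (fun t : ℝ => t ^ 2) (ht ν c p) = 2 * ht ν c p := by simp
        rw [e, abs_mul, abs_two]
        linarith only [hz, sq_nonneg (4 * R + 2)]
      | j + 2 =>
        have e : (deriv^[j + 2] (fun t : ℝ => t ^ 2)) = deriv^[j] (fun _ => (2 : ℝ)) := by
          rw [Function.iterate_add_apply]
          congr 1
          simp only [Function.iterate_succ, Function.iterate_zero, Function.comp_apply, id_eq]
          have e1 : deriv (fun t : ℝ => t ^ 2) = fun t => 2 * t := by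
            funext t
            simp
          rw [e1]
          funext t
          simp
        rw [e]
        have e3 : |(deriv^[j] (fun _ : ℝ => (2 : ℝ))) (ht ν c p)| ≤ 2 := by
          cases j with
          | zero => simp
          | succ j =>
            rw [Function.iterate_succ_apply]
            have e4 : deriv (fun _ : ℝ => (2 : ℝ)) = fun _ => 0 := by
              funext t; simp
            rw [e4]
            have e5 : ∀ k : ℕ, (deriv^[k] (fun _ : ℝ => (0 : ℝ))) = fun _ => 0 := by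
              intro k
              induction k with
              | zero => rfl
              | succ k ih =>
                rw [Function.iterate_succ_apply']
                rw [ih]
                funext t; simp
            rw [e5]
            simp
        linarith only [hR, e3, sq_nonneg (4 * R + 2)]
    have h := TP.leib (ContinuousLinearMap.mul ℝ ℝ) (hN.smooth)
      ((ht_contDiff (k := J) ν c).pow 2) p (fun j hj => hN.bd j hj p) h1 j hj
    have h2 : ‖(ContinuousLinearMap.mul ℝ ℝ : ℝ →L[ℝ] ℝ →L[ℝ] ℝ)‖ ≤ 1 :=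
      ContinuousLinearMap.opNorm_mul_le ℝ ℝ
    have h3 : (fun y => zR R y * ht ν c y ^ 2) =
        fun q => (ContinuousLinearMap.mul ℝ ℝ (zR R q)) (ht ν c q ^ 2) := rfl
    rw [h3]
    refine h.trans ?_
    calc 2 ^ J * ‖(ContinuousLinearMap.mul ℝ ℝ : ℝ →L[ℝ] ℝ →L[ℝ] ℝ)‖ * N *
          ((4 * R + 2) ^ 2 + 2 * (4 * R + 2) + 2)
        ≤ 2 ^ J * 1 * N * ((4 * R + 2) ^ 2 + 2 * (4 * R + 2) + 2) := by gcongr
      _ ≤ _ := by linarith
  · push Not at hp
    have h : (fun y => zR R y * ht ν c y ^ 2) =ᶠ[nhds p] fun _ => (0 : ℝ) := by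
      filter_upwards [(isOpen_lt continuous_const continuous_norm).mem_nhds
        (show R + 1 < ‖p‖ by linarith)] with y hy
      rw [zR_zero (le_of_lt hy), zero_mul]
    rw [(h.iteratedFDeriv ℝ j).eq_of_nhds, iteratedFDeriv_fun_zero]
    simp only [Pi.zero_apply, norm_zero]
    positivity

end Cut

section Est

variable {E : Type} [NormedAddCommGroup E] [InnerProductSpace ℝ E] [FiniteDimensional ℝ E]

theorem DD_nonneg (b : Sp d → ℝ) (ε R : ℝ) (f : Sp d → E) (n : ℕ) {e : E} (he : ‖e‖ = 1) :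
    0 ≤ DD b ε R ((1 / 2) ^ n) f n 0 e := by
  unfold DD
  rw [lev_unit]
  have h1 : ∀ l, 0 ≤ ∫ y in ball (0 : Sp d) (R * 1),
      (‖fl b ε ((1 / 2) ^ n) f l y‖ - ⟪fl b ε ((1 / 2) ^ n) f l y, e⟫_ℝ) := by
    intro l
    refine integral_nonneg fun y => ?_
    have := real_inner_le_norm (fl b ε ((1 / 2) ^ n) f l y) e
    rw [he, mul_one] at this
    simpa using this
  have h2 : 0 ≤ ∫ y in ball (0 : Sp d) (R * 1), ‖f y‖ := integral_nonneg fun _ => norm_nonneg _
  have h3 : 0 ≤ ∑ l ∈ Finset.range (n + 1), (1 / 4 : ℝ) ^ (n - l) *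
      ∫ y in ball (0 : Sp d) (R * 1),
        (‖fl b ε ((1 / 2) ^ n) f l y‖ - ⟪fl b ε ((1 / 2) ^ n) f l y, e⟫_ℝ) :=
    Finset.sum_nonneg fun l _ => mul_nonneg (by positivity) (h1 l)
  positivity

theorem bD_ge (b : Sp d → ℝ) (ε R0 R : ℝ) (f : Sp d → E) (n : ℕ) (e : E) (ν : Sp d) (c : ℝ) :
    DD b ε R ((1 / 2) ^ n) f n 0 e ≤ bD b ε R0 R ((1 / 2) ^ n) f n 0 e ν c := by
  unfold bD
  have := le_max_left 0 (bb R0 ((1 / 2) ^ n) f n 0 e ν c)
  linarith

theorem bb_le (b : Sp d → ℝ) (ε R0 R : ℝ) (f : Sp d → E) (n : ℕ) {e : E} (he : ‖e‖ = 1)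
    (ν : Sp d) (c : ℝ) :
    bb R0 ((1 / 2) ^ n) f n 0 e ν c ≤ bD b ε R0 R ((1 / 2) ^ n) f n 0 e ν c := by
  unfold bD
  have := le_max_right 0 (bb R0 ((1 / 2) ^ n) f n 0 e ν c)
  have := DD_nonneg b ε R f n he
  linarith

theorem int_mul {f : Sp d → E} (hf : Continuous f) (hc : HasCompactSupport f) (e : E)
    {g : Sp d → ℝ} (hg : Continuous g) : Integrable (fun y => ⟪f y, e⟫_ℝ * g y) := by
  have h1 : Continuous fun y => ⟪f y, e⟫_ℝ * g y :=
    (hf.inner continuous_const).mul hg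
  refine h1.integrable_of_hasCompactSupport (hc.mono' fun y hy => ?_)
  rw [Function.mem_support] at hy
  refine subset_closure ?_
  rw [Function.mem_support]
  intro h0
  exact hy (by rw [h0, inner_zero_left, zero_mul])

theorem tfn_zero_of {F : Type*} [NormedAddCommGroup F] [NormedSpace ℝ F] {J : ℕ} {g : Sp d → F}
    (h : TFn J 0 g) (x : Sp d) : g x = 0 := by
  have := tfn_norm_le h x
  exact norm_le_zero_iff.1 this

theorem tfn_smul {F : Type*} [NormedAddCommGroup F] [NormedSpace ℝ F] {J : ℕ} {N : ℝ}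
    {g : Sp d → F} (h : TFn J N g) (a : ℝ) : TFn J (|a| * N) (fun x => a • g x) := by
  refine ⟨h.smooth.const_smul a, fun j hj x => ?_⟩
  have e1 : iteratedFDeriv ℝ j (fun x => a • g x) x = a • iteratedFDeriv ℝ j g x :=
    iteratedFDeriv_const_smul_apply ((h.smooth.of_le (by exact_mod_cast hj)).contDiffAt)
  rw [e1, norm_smul, Real.norm_eq_abs]
  exact mul_le_mul_of_nonneg_left (h.bd j hj x) (abs_nonneg a)

/-- one sided bound -/
theorem quad_one (hZ : StmtZ) (hd : 1 ≤ d) {M c0 ε : ℝ} (hε : 0 < ε) (hε1 : ε ≤ 1)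
    {b : Sp d → ℝ} (hb : BaseKer 2 M c0 b) {R0 : ℝ} (hR0 : 1 ≤ R0) : ∃ C : ℝ, 0 < C ∧
    ∀ (E : Type) [NormedAddCommGroup E] [InnerProductSpace ℝ E] [FiniteDimensional ℝ E],
    ∀ (R : ℝ), R0 + 10 ≤ R → ∀ f : Sp d → E, Continuous f → HasCompactSupport f →
    ∀ (n : ℕ) (e : E), ‖e‖ = 1 → ∀ (ν : Sp d) (c : ℝ), ‖ν‖ = 1 → |c| ≤ 3 * R0 →
    ∀ (w : Sp d → ℝ) (N : ℝ), TFn 2 N w → (∀ y, |w y| ≤ N * ht ν c y ^ 2) →
      (∀ y, R0 ≤ ‖y‖ → w y = 0) →
      -(C * N * bD b ε R0 R ((1 / 2) ^ n) f n 0 e ν c) ≤ ∫ y, ⟪f y, e⟫_ℝ * w y := by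
  obtain ⟨C, hC, hZ1⟩ := hZ d hd M c0 ε hε hε1 b hb
  obtain ⟨K, hK, hKt⟩ := zq_tfn (d := d) (by linarith : 0 < R0) 2
  refine ⟨1 + C * (1 + K), by positivity, ?_⟩
  intro E _ _ _ R hR f hf hc n e he ν c hν hcR w N hw hwq hw0
  have hN0 := tfn_nonneg hw
  have hDD := DD_nonneg b ε R f n he
  have hbb := bb_le b ε R0 R f n he ν c
  have hbD := bD_ge b ε R0 R f n e ν c
  rcases hN0.eq_or_lt with h0 | hN
  · subst h0
    have : ∀ y, ⟪f y, e⟫_ℝ * w y = 0 := fun y => by rw [tfn_zero_of hw y, mul_zero]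
    simp only [this, integral_zero]
    simp
  set q : Sp d → ℝ := fun y => zR R0 y * ht ν c y ^ 2 with hq
  have hqt : TFn 2 K q := hKt ν c hν hcR
  set D : ℝ := N * (1 + K) with hD
  have hD0 : 0 < D := by positivity
  set H : Sp d → ℝ := fun y => D⁻¹ • (w y + N • q y) with hH
  have hHt : TFn 2 1 H := by
    have h1 := tfn_smul (tfn_add hw (tfn_smul hqt N)) D⁻¹
    refine tfn_le h1 le_rfl ?_
    rw [abs_of_pos (inv_pos.2 hD0), abs_of_pos hN, hD]
    rw [← mul_one_add, inv_mul_cancel₀ hD0.ne']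
  have hH0 : ∀ y, 0 ≤ H y := by
    intro y
    refine smul_nonneg (inv_pos.2 hD0).le ?_
    by_cases hy : R0 ≤ ‖y‖
    · rw [hw0 y hy, zero_add]
      exact smul_nonneg hN0 (mul_nonneg (zR_nonneg _ _) (sq_nonneg _))
    · push Not at hy
      have h2 : q y = ht ν c y ^ 2 := by simp only [hq]; rw [zR_one hy.le, one_mul]
      rw [h2, smul_eq_mul]
      have := (abs_le.1 (hwq y)).1
      linarith
  have hHs : ∀ y, R - 2 ≤ ‖y - 0‖ → H y = 0 := by
    intro y hy
    rw [sub_zero] at hy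
    simp only [hH, hq]
    rw [hw0 y (by linarith), zR_zero (by linarith)]
    simp
  have h := hZ1 E f hf hc R (by linarith) n e he 0 H hHt.smooth hH0
    (fun y => (le_abs_self _).trans (by
      have := tfn_norm_le hHt y
      rwa [Real.norm_eq_abs] at this)) (fun y => hHt.bd 2 le_rfl y) hHs
  have e1 : ∫ y, ⟪f y, e⟫_ℝ * H y =
      D⁻¹ * ((∫ y, ⟪f y, e⟫_ℝ * w y) + N * bb R0 ((1 / 2) ^ n) f n 0 e ν c) := by
    rw [bb_unit, ← integral_const_mul, ← integral_add (int_mul hf hc e hw.smooth.continuous)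
      ((int_mul hf hc e hqt.smooth.continuous).const_mul N), ← integral_const_mul]
    refine integral_congr_ae (Filter.Eventually.of_forall fun y => ?_)
    simp only [hH, hq, smul_eq_mul]
    ring
  rw [e1] at h
  have h2 : -C * DD b ε R ((1 / 2) ^ n) f n 0 e * D ≤
      (∫ y, ⟪f y, e⟫_ℝ * w y) + N * bb R0 ((1 / 2) ^ n) f n 0 e ν c := by
    rw [inv_mul_eq_div, le_div_iff₀ hD0] at h
    exact h
  have h3 : N * bb R0 ((1 / 2) ^ n) f n 0 e ν c ≤ N * bD b ε R0 R ((1 / 2) ^ n) f n 0 e ν c := by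
    gcongr
  have h4 : C * DD b ε R ((1 / 2) ^ n) f n 0 e * D ≤
      C * bD b ε R0 R ((1 / 2) ^ n) f n 0 e ν c * D := by gcongr
  have h5 : (1 + C * (1 + K)) * N * bD b ε R0 R ((1 / 2) ^ n) f n 0 e ν c =
      N * bD b ε R0 R ((1 / 2) ^ n) f n 0 e ν c +
        C * bD b ε R0 R ((1 / 2) ^ n) f n 0 e ν c * D := by rw [hD]; ring
  rw [h5]
  linarith only [h2, h3, h4]

/-- tests which vanish quadratically on the plane -/
theorem quad (hZ : StmtZ) (hd : 1 ≤ d) {M c0 ε : ℝ} (hε : 0 < ε) (hε1 : ε ≤ 1)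
    {b : Sp d → ℝ} (hb : BaseKer 2 M c0 b) {R0 : ℝ} (hR0 : 1 ≤ R0) : ∃ C : ℝ, 0 < C ∧
    ∀ (E : Type) [NormedAddCommGroup E] [InnerProductSpace ℝ E] [FiniteDimensional ℝ E],
    ∀ (R : ℝ), R0 + 10 ≤ R → ∀ f : Sp d → E, Continuous f → HasCompactSupport f →
    ∀ (n : ℕ) (e : E), ‖e‖ = 1 → ∀ (ν : Sp d) (c : ℝ), ‖ν‖ = 1 → |c| ≤ 3 * R0 →
    ∀ (w : Sp d → ℝ) (N : ℝ), TFn 2 N w → (∀ y, |w y| ≤ N * ht ν c y ^ 2) →
      (∀ y, R0 ≤ ‖y‖ → w y = 0) →
      |∫ y, ⟪f y, e⟫_ℝ * w y| ≤ C * N * bD b ε R0 R ((1 / 2) ^ n) f n 0 e ν c := by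
  obtain ⟨C, hC, h1⟩ := quad_one hZ hd hε hε1 hb hR0
  refine ⟨C, hC, ?_⟩
  intro E _ _ _ R hR f hf hc n e he ν c hν hcR w N hw hwq hw0
  have h2 := h1 E R hR f hf hc n e he ν c hν hcR w N hw hwq hw0
  have hw' : TFn 2 N (fun y => -w y) := by
    have := tfn_smul hw (-1)
    simpa using this
  have h3 := h1 E R hR f hf hc n e he ν c hν hcR (fun y => -w y) N hw'
    (fun y => by rw [abs_neg]; exact hwq y) (fun y hy => by rw [hw0 y hy, neg_zero])
  have e3 : ∫ y, ⟪f y, e⟫_ℝ * -w y = -∫ y, ⟪f y, e⟫_ℝ * w y := by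
    rw [← integral_neg]
    refine integral_congr_ae (Filter.Eventually.of_forall fun y => ?_)
    simp
  rw [e3] at h3
  rw [abs_le]
  constructor <;> linarith

/-- the perpendicular part -/
theorem perp (hPE : StmtPE) (hd : 1 ≤ d) {M c0 ε : ℝ} (hε : 0 < ε) (hε1 : ε ≤ 1)
    {b : Sp d → ℝ} (hb : BaseKer 2 M c0 b) : ∃ C : ℝ, 0 < C ∧
    ∀ (E : Type) [NormedAddCommGroup E] [InnerProductSpace ℝ E] [FiniteDimensional ℝ E],
    ∀ (R : ℝ), 3 ≤ R → ∀ f : Sp d → E, Continuous f → HasCompactSupport f →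
    ∀ (n : ℕ) (e : E), ‖e‖ = 1 → ∀ (Y : Sp d → E) (N : ℝ) (S : Set (Sp d)), MeasurableSet S →
      TFn 2 N Y → (∀ y, R - 2 ≤ ‖y‖ → Y y = 0) → (∀ y z, Y y ≠ 0 → ‖z - y‖ ≤ 1 → z ∈ S) →
      |∫ y, ⟪f y - ⟪f y, e⟫_ℝ • e, Y y⟫_ℝ| ≤
        C * N * (Real.sqrt ((∫ y in S, ‖fl b ε ((1 / 2) ^ n) f (n - 1) y‖) *
            DD b ε R ((1 / 2) ^ n) f n 0 e) + DD b ε R ((1 / 2) ^ n) f n 0 e) := by
  obtain ⟨C, hC, h1⟩ := hPE d hd M c0 ε hε hε1 b hb
  refine ⟨C, hC, ?_⟩
  intro E _ _ _ R hR f hf hc n e he Y N S hS hY hY0 hYS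
  have hN0 := tfn_nonneg hY
  rcases hN0.eq_or_lt with h0 | hN
  · subst h0
    have : ∀ y, ⟪f y - ⟪f y, e⟫_ℝ • e, Y y⟫_ℝ = 0 := fun y => by
      rw [tfn_zero_of hY y, inner_zero_right]
    simp only [this, integral_zero]
    simp
  have hYt : TFn 2 1 (fun y => N⁻¹ • Y y) := by
    have := tfn_smul hY N⁻¹
    rwa [abs_of_pos (inv_pos.2 hN), inv_mul_cancel₀ hN.ne'] at this
  have h2 := h1 E f hf hc R hR n e he 0 (fun y => N⁻¹ • Y y) S hS hYt.smooth
    (fun y => tfn_norm_le hYt y) (fun y => hYt.bd 2 le_rfl y)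
    (fun y hy => by rw [sub_zero] at hy; rw [hY0 y hy, smul_zero])
    (fun y z hy hz => hYS y z (fun h => hy (by rw [h, smul_zero])) hz)
  have e1 : ∫ y, ⟪f y - ⟪f y, e⟫_ℝ • e, N⁻¹ • Y y⟫_ℝ =
      N⁻¹ * ∫ y, ⟪f y - ⟪f y, e⟫_ℝ • e, Y y⟫_ℝ := by
    rw [← integral_const_mul]
    refine integral_congr_ae (Filter.Eventually.of_forall fun y => ?_)
    simp only [inner_smul_right]
  rw [e1, abs_mul, abs_of_pos (inv_pos.2 hN), inv_mul_eq_div, div_le_iff₀ hN] at h2
  linarith only [h2]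

/-- the mass far from the plane -/
theorem farmass (hMA : StmtMA) (hd : 1 ≤ d) {M c0 ε : ℝ} (hε : 0 < ε) (hε1 : ε ≤ 1)
    {b : Sp d → ℝ} (hb : BaseKer 2 M c0 b) {R0 : ℝ} (hR0 : 1 ≤ R0) : ∃ C : ℝ, 0 < C ∧
    ∀ (E : Type) [NormedAddCommGroup E] [InnerProductSpace ℝ E] [FiniteDimensional ℝ E],
    ∀ (R : ℝ), R0 + 10 ≤ R → ∀ f : Sp d → E, Continuous f → HasCompactSupport f →
    ∀ (n : ℕ) (e : E), ‖e‖ = 1 → ∀ (ν : Sp d) (c : ℝ), ‖ν‖ = 1 → |c| ≤ 3 * R0 →
      (∫ y in {y | 3 ≤ |ht ν c y| ∧ ‖y‖ ≤ R0 - 2}, ‖fl b ε ((1 / 2) ^ n) f (n - 1) y‖) ≤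
        C * bD b ε R0 R ((1 / 2) ^ n) f n 0 e ν c := by
  obtain ⟨C, hC, h1⟩ := hMA d hd M c0 ε hε hε1 b hb
  obtain ⟨K, hK, hKt⟩ := zq_tfn (d := d) (by linarith : 0 < R0) 2
  refine ⟨1 + C * K, by positivity, ?_⟩
  intro E _ _ _ R hR f hf hc n e he ν c hν hcR
  have hK0 : 0 < K := by linarith
  have hDD := DD_nonneg b ε R f n he
  have hbb := bb_le b ε R0 R f n he ν c
  have hbD := bD_ge b ε R0 R f n e ν c
  set q : Sp d → ℝ := fun y => zR R0 y * ht ν c y ^ 2 with hq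
  have hqt : TFn 2 K q := hKt ν c hν hcR
  have hHt : TFn 2 1 (fun y => K⁻¹ • q y) := by
    have := tfn_smul hqt K⁻¹
    rwa [abs_of_pos (inv_pos.2 hK0), inv_mul_cancel₀ hK0.ne'] at this
  have hS : MeasurableSet {y : Sp d | 3 ≤ |ht ν c y| ∧ ‖y‖ ≤ R0 - 2} :=
    ((isClosed_le continuous_const (ht_continuous ν c).abs).inter
      (isClosed_le continuous_norm continuous_const)).measurableSet
  have h2 := (h1 E f hf hc R (by linarith) n e he 0 _ hS).2 (fun y => K⁻¹ • q y) K⁻¹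
    (inv_pos.2 hK0) (inv_le_one_of_one_le₀ hK) hHt.smooth
    (fun y => smul_nonneg (inv_pos.2 hK0).le (mul_nonneg (zR_nonneg _ _) (sq_nonneg _)))
    (fun y => (le_abs_self _).trans (by
      have := tfn_norm_le hHt y
      rwa [Real.norm_eq_abs] at this)) (fun y => hHt.bd 2 le_rfl y)
    (fun y hy => by
      rw [sub_zero] at hy
      simp only [hq]
      rw [zR_zero (by linarith), zero_mul, smul_zero])
    (fun y z hy hz => by
      obtain ⟨hy1, hy2⟩ := hy
      have hz1 : ‖z‖ ≤ R0 := by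
        calc ‖z‖ = ‖(z - y) + y‖ := by rw [sub_add_cancel]
          _ ≤ ‖z - y‖ + ‖y‖ := norm_add_le _ _
          _ ≤ R0 := by linarith
      have hz2 : 1 ≤ |ht ν c z| := by
        have h3 : ht ν c z = ht ν c y + ⟪ν, z - y⟫_ℝ := by
          unfold ht
          rw [inner_sub_right]
          ring
        have h4 : |⟪ν, z - y⟫_ℝ| ≤ 2 := by
          have := abs_real_inner_le_norm ν (z - y)
          rw [hν, one_mul] at this
          linarith
        have h5 : |ht ν c y| ≤ |ht ν c z| + |⟪ν, z - y⟫_ℝ| := by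
          have : ht ν c y = ht ν c z - ⟪ν, z - y⟫_ℝ := by rw [h3]; ring
          rw [this]
          exact abs_sub _ _
        linarith
      simp only [hq]
      rw [zR_one hz1, one_mul, smul_eq_mul]
      have h6 : 1 ≤ ht ν c z ^ 2 := by
        rw [← sq_abs]
        nlinarith only [hz2]
      have := inv_pos.2 hK0
      nlinarith only [h6, this])
  have e1 : ∫ y, ⟪f y, e⟫_ℝ * (K⁻¹ • q y) = K⁻¹ * bb R0 ((1 / 2) ^ n) f n 0 e ν c := by
    rw [bb_unit, ← integral_const_mul]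
    refine integral_congr_ae (Filter.Eventually.of_forall fun y => ?_)
    simp only [hq, smul_eq_mul]
    ring
  rw [e1] at h2
  have e2 : 1 / K⁻¹ * (K⁻¹ * bb R0 ((1 / 2) ^ n) f n 0 e ν c) = bb R0 ((1 / 2) ^ n) f n 0 e ν c := by
    field_simp
  have e3 : C / K⁻¹ * DD b ε R ((1 / 2) ^ n) f n 0 e = C * K * DD b ε R ((1 / 2) ^ n) f n 0 e := by
    field_simp
  rw [e2, e3] at h2
  have h6 : C * K * DD b ε R ((1 / 2) ^ n) f n 0 e ≤
      C * K * bD b ε R0 R ((1 / 2) ^ n) f n 0 e ν c := by gcongr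
  linarith only [hbb, h2, h6]

/-- splitting of the pairing -/
theorem split {f : Sp d → E} (hf : Continuous f) (hc : HasCompactSupport f) (e : E)
    {Y : Sp d → E} (hY : Continuous Y) :
    ∫ y, ⟪f y, Y y⟫_ℝ = (∫ y, ⟪f y, e⟫_ℝ * ⟪e, Y y⟫_ℝ) +
      ∫ y, ⟪f y - ⟪f y, e⟫_ℝ • e, Y y⟫_ℝ := by
  have h2 : Integrable fun y => ⟪f y - ⟪f y, e⟫_ℝ • e, Y y⟫_ℝ := by
    have h3 : Continuous fun y => ⟪f y - ⟪f y, e⟫_ℝ • e, Y y⟫_ℝ := by fun_prop
    refine h3.integrable_of_hasCompactSupport (hc.mono' fun y hy => ?_)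
    rw [Function.mem_support] at hy
    refine subset_closure ?_
    rw [Function.mem_support]
    intro h0
    exact hy (by rw [h0, inner_zero_left, zero_smul, sub_zero, inner_zero_left])
  rw [← integral_add (int_mul hf hc e (continuous_const.inner hY)) h2]
  refine integral_congr_ae (Filter.Eventually.of_forall fun y => ?_)
  simp only [inner_sub_left, inner_smul_left]
  simp

/-- tests supported off the plane -/
theorem off_plane (hZ : StmtZ) (hMA : StmtMA) (hPE : StmtPE) (hd : 1 ≤ d) {M c0 ε : ℝ}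
    (hε : 0 < ε) (hε1 : ε ≤ 1) {b : Sp d → ℝ} (hb : BaseKer 2 M c0 b) {R0 : ℝ} (hR0 : 10 ≤ R0) :
    ∃ C : ℝ, 0 < C ∧
    ∀ (E : Type) [NormedAddCommGroup E] [InnerProductSpace ℝ E] [FiniteDimensional ℝ E],
    ∀ (R : ℝ), R0 + 10 ≤ R → ∀ f : Sp d → E, Continuous f → HasCompactSupport f →
    ∀ (n : ℕ) (e : E), ‖e‖ = 1 → ∀ (ν : Sp d) (c : ℝ), ‖ν‖ = 1 → |c| ≤ 3 * R0 →
    ∀ (Y : Sp d → E) (N : ℝ), TFn 2 N Y → (∀ y, Y y ≠ 0 → 4 ≤ |ht ν c y| ∧ ‖y‖ ≤ R0 - 3) →
      |∫ y, ⟪f y, Y y⟫_ℝ| ≤ C * N * bD b ε R0 R ((1 / 2) ^ n) f n 0 e ν c := by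
  obtain ⟨C1, hC1, h1⟩ := quad hZ hd hε hε1 hb (by linarith : 1 ≤ R0)
  obtain ⟨C2, hC2, h2⟩ := perp hPE hd hε hε1 hb
  obtain ⟨C3, hC3, h3⟩ := farmass hMA hd hε hε1 hb (by linarith : 1 ≤ R0)
  refine ⟨C1 + C2 * (C3 + 2), by positivity, ?_⟩
  intro E _ _ _ R hR f hf hc n e he ν c hν hcR Y N hY hYs
  have hN0 := tfn_nonneg hY
  have hDD := DD_nonneg b ε R f n he
  have hbD := bD_ge b ε R0 R f n e ν c
  have hB0 : 0 ≤ bD b ε R0 R ((1 / 2) ^ n) f n 0 e ν c := hDD.trans hbD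
  rw [split hf hc e hY.smooth.continuous]
  have hw : TFn 2 N (fun y => ⟪e, Y y⟫_ℝ) := by
    have := tfn_clm (innerSL ℝ e) hY
    rwa [innerSL_apply_norm, he, one_mul] at this
  have q1 := h1 E R hR f hf hc n e he ν c hν hcR _ N hw (fun y => by
    by_cases hy : Y y = 0
    · rw [hy, inner_zero_right, abs_zero]
      positivity
    · have h4 := (hYs y hy).1
      have h5 := tfn_norm_le hw y
      rw [Real.norm_eq_abs] at h5
      have h6 : 1 ≤ ht ν c y ^ 2 := by
        rw [← sq_abs]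
        nlinarith
      nlinarith only [h5, hN0, h6]) (fun y hy => by
    by_cases h7 : Y y = 0
    · rw [h7, inner_zero_right]
    · exact absurd (hYs y h7).2 (by linarith))
  have hS : MeasurableSet {y : Sp d | 3 ≤ |ht ν c y| ∧ ‖y‖ ≤ R0 - 2} :=
    ((isClosed_le continuous_const (ht_continuous ν c).abs).inter
      (isClosed_le continuous_norm continuous_const)).measurableSet
  have q2 := h2 E R (by linarith) f hf hc n e he Y N _ hS hY (fun y hy => by
    by_contra h7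
    exact absurd (hYs y h7).2 (by linarith)) (fun y z hy hz => by
    obtain ⟨h4, h5⟩ := hYs y hy
    refine ⟨?_, ?_⟩
    · have h6 : ht ν c y = ht ν c z - ⟪ν, z - y⟫_ℝ := by
        unfold ht
        rw [inner_sub_right]
        ring
      have h7 : |⟪ν, z - y⟫_ℝ| ≤ 1 := by
        have := abs_real_inner_le_norm ν (z - y)
        rw [hν, one_mul] at this
        linarith
      have h8 : |ht ν c y| ≤ |ht ν c z| + |⟪ν, z - y⟫_ℝ| := by
        rw [h6]
        exact abs_sub _ _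
      linarith
    · calc ‖z‖ = ‖(z - y) + y‖ := by rw [sub_add_cancel]
        _ ≤ ‖z - y‖ + ‖y‖ := norm_add_le _ _
        _ ≤ R0 - 2 := by linarith)
  have q3 := h3 E R hR f hf hc n e he ν c hν hcR
  set B := bD b ε R0 R ((1 / 2) ^ n) f n 0 e ν c with hB
  set Dd := DD b ε R ((1 / 2) ^ n) f n 0 e with hDd
  set m := ∫ y in {y : Sp d | 3 ≤ |ht ν c y| ∧ ‖y‖ ≤ R0 - 2},
    ‖fl b ε ((1 / 2) ^ n) f (n - 1) y‖ with hm
  have hm0 : 0 ≤ m := integral_nonneg fun _ => norm_nonneg _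
  have h9 : Real.sqrt (m * Dd) ≤ (C3 + 1) * B := by
    refine (Real.sqrt_le_sqrt (mul_le_mul q3 hbD hDD (by positivity))).trans ?_
    rw [Real.sqrt_le_left (by positivity)]
    have : 0 ≤ B ^ 2 := sq_nonneg B
    nlinarith [mul_nonneg hC3.le this, mul_nonneg (sq_nonneg C3) this]
  have h10 : C2 * N * (Real.sqrt (m * Dd) + Dd) ≤ C2 * N * ((C3 + 1) * B + B) := by (clear * - h9 hbD hC2 hN0; gcongr)
  calc _ ≤ C1 * N * B + C2 * N * (Real.sqrt (m * Dd) + Dd) := (abs_add_le _ _).trans (add_le_add q1 q2)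
    _ ≤ C1 * N * B + C2 * N * ((C3 + 1) * B + B) := by linarith
    _ = _ := by ring

end Est

end SH
end TG


end
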