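import Mathlib
import Pool.Agent.TRM.C01
import Pool.Agent.TRM.C04
import Pool.Agent.TRM.C05

/-! Parts: TR.A0, TG.GN, TG.FG -/

section

/-!
# Module A0: masses do not grow downwards while the chart is valid
-/

set_option linter.unusedSectionVars false

open MeasureTheory Metric Set
open scoped InnerProductSpace ContDiff

namespace TrI

noncomputable section

namespace A0

variable {d : ℕ}

/-! ## sequences -/

lemma chain {a e : ℕ → ℝ} (ha : ∀ j, 0 ≤ a j) (he : ∀ j, 0 ≤ e j) {C : ℝ} (hC : 1 ≤ C)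
    (h : ∀ j, a j ≤ C * (a (j + 1) + e (j + 1))) (l n : ℕ) (hln : l ≤ n) :
    a l ≤ C ^ (n - l) * (a n + ∑ j ∈ Finset.Icc l n, e j) := by
  induction n, hln using Nat.le_induction with
  | base => simpa using he l
  | succ n hn ih =>
    refine ih.trans ?_
    have e1 : n + 1 - l = (n - l) + 1 := by omega
    rw [e1, pow_succ, mul_assoc]
    refine mul_le_mul_of_nonneg_left ?_ (by positivity)
    have hS : 0 ≤ ∑ j ∈ Finset.Icc l n, e j := Finset.sum_nonneg fun j _ => he j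
    rw [← Finset.insert_Icc_right_eq_Icc_add_one (by omega : l ≤ n + 1),
      Finset.sum_insert (by simp)]
    have h1 := h n
    have h2 := ha (n + 1)
    have h3 := he (n + 1)
    nlinarith only [h1, hC, hS]

lemma iterate {a e : ℕ → ℝ} (ha : ∀ j, 0 ≤ a j) (he : ∀ j, 0 ≤ e j) {j1 j2 k : ℕ} (hk : 1 ≤ k)
    {C D : ℝ} (hC : 0 ≤ C) (hD : 0 ≤ D)
    (h1 : ∀ l, j1 ≤ l → l + k ≤ j2 →
      a l ≤ a (l + k) / 2 + C * (a j2 + ∑ j ∈ Finset.Icc l j2, e j))
    (h2 : ∀ l, l ≤ j2 → j2 < l + k → a l ≤ D * (a j2 + ∑ j ∈ Finset.Icc l j2, e j)) :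
    ∀ n l, j2 - l = n → j1 ≤ l → l ≤ j2 →
      a l ≤ (2 * C + D) * (a j2 + ∑ j ∈ Finset.Icc l j2, e j) := by
  intro n
  induction n using Nat.strong_induction_on with
  | _ n ih =>
    intro l hn hl1 hl2
    have hS : 0 ≤ a j2 + ∑ j ∈ Finset.Icc l j2, e j :=
      add_nonneg (ha _) (Finset.sum_nonneg fun j _ => he j)
    by_cases hlk : l + k ≤ j2
    · have h3 := h1 l hl1 hlk
      have h4 := ih (j2 - (l + k)) (by omega) (l + k) rfl (by omega) hlk
      have h5 : ∑ j ∈ Finset.Icc (l + k) j2, e j ≤ ∑ j ∈ Finset.Icc l j2, e j :=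
        Finset.sum_le_sum_of_subset_of_nonneg
          (Finset.Icc_subset_Icc (by omega) le_rfl) fun j _ _ => he j
      have h6 : (2 * C + D) * (a j2 + ∑ j ∈ Finset.Icc (l + k) j2, e j) ≤
          (2 * C + D) * (a j2 + ∑ j ∈ Finset.Icc l j2, e j) :=
        mul_le_mul_of_nonneg_left (by linarith only [h5]) (by positivity)
      nlinarith only [h3, h4, h6, hD, hS]
    · have h3 := h2 l hl2 (by omega)
      nlinarith only [h3, hC, hS]

/-! ## the cut-off -/

lemma hat_nonneg (c : Sp d) (r r' : ℝ) (y : Sp d) : 0 ≤ hat c r r' y := le_max_left _ _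

lemma hat_le_one (c : Sp d) (r r' : ℝ) (y : Sp d) : hat c r r' y ≤ 1 :=
  max_le zero_le_one (min_le_left _ _)

lemma hat_zero (c : Sp d) {r r' : ℝ} (h : r < r') {y : Sp d} (hy : r' ≤ ‖y - c‖) :
    hat c r r' y = 0 := by
  unfold hat
  refine max_eq_left ((min_le_right _ _).trans ?_)
  exact div_nonpos_of_nonpos_of_nonneg (by linarith) (by linarith)

lemma hat_one (c : Sp d) {r r' : ℝ} (h : r < r') {y : Sp d} (hy : ‖y - c‖ ≤ r) :
    hat c r r' y = 1 := by
  unfold hat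
  have h1 : 1 ≤ (r' - ‖y - c‖) / (r' - r) := by
    rw [le_div_iff₀ (by linarith)]
    linarith
  rw [min_eq_left h1]
  exact max_eq_right zero_le_one

lemma hat_cont (c : Sp d) (r r' : ℝ) : Continuous (hat c r r') := by
  unfold hat
  fun_prop

lemma hat_cs (c : Sp d) {r r' : ℝ} (h : r < r') : HasCompactSupport (hat c r r') := by
  refine HasCompactSupport.intro (isCompact_closedBall c r') fun y hy => hat_zero c h ?_
  rw [mem_closedBall, dist_eq_norm, not_le] at hy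
  exact hy.le

lemma hat_lip (c : Sp d) {r r' : ℝ} (h : r < r') (y y' : Sp d) :
    |hat c r r' y - hat c r r' y'| ≤ (r' - r)⁻¹ * ‖y - y'‖ := by
  have hp : 0 < r' - r := by linarith
  unfold hat
  have h1 : |(r' - ‖y - c‖) / (r' - r) - (r' - ‖y' - c‖) / (r' - r)| ≤
      (r' - r)⁻¹ * ‖y - y'‖ := by
    rw [← sub_div, abs_div, abs_of_pos hp, div_eq_inv_mul]
    refine mul_le_mul_of_nonneg_left ?_ (by positivity)
    have h2 := abs_norm_sub_norm_le (y' - c) (y - c)
    rw [sub_sub_sub_cancel_right, norm_sub_rev y' y] at h2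
    rw [show r' - ‖y - c‖ - (r' - ‖y' - c‖) = ‖y' - c‖ - ‖y - c‖ by ring]
    exact h2
  have hnn : 0 ≤ (r' - r)⁻¹ * ‖y - y'‖ := by positivity
  refine (abs_max_sub_max_le_max _ _ _ _).trans (max_le (by simpa using hnn) ?_)
  exact (abs_min_sub_min_le_max _ _ _ _).trans (max_le (by simpa using hnn) h1)

lemma hat_cut (c : Sp d) {r r' : ℝ} (h : r < r') : IsCut (hat c r r') c r' (r' - r)⁻¹ where
  l_nonneg := by
    have : 0 < r' - r := by linarith
    positivity
  lip := hat_lip c h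
  supp := fun y hy => hat_zero c h hy
  bd := fun y => by
    rw [abs_of_nonneg (hat_nonneg _ _ _ _)]
    exact hat_le_one _ _ _ _

lemma hat_int_pos (c : Sp d) {r r' : ℝ} (h : r < r') (hr : 0 ≤ r) : 0 < ∫ y, hat c r r' y := by
  refine (hat_cont c r r').integral_pos_of_hasCompactSupport_nonneg_nonzero (hat_cs c h)
    (fun y => hat_nonneg c r r' y) (x := c) ?_
  rw [hat_one c h (by simpa using hr)]
  exact one_ne_zero

/-! ## null fields, the test function of the top level -/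

section Op

variable {V E : Type} [NormedAddCommGroup V] [InnerProductSpace ℝ V] [FiniteDimensional ℝ V]
  [NormedAddCommGroup E] [InnerProductSpace ℝ E] [FiniteDimensional ℝ E]
  {L : (Sp d →L[ℝ] V) →L[ℝ] E} {y0 : Sp d} {ρ B : ℝ} {w : Sp d → V} {τ : Sp d → E}

lemma fo_cont (L : (Sp d →L[ℝ] V) →L[ℝ] E) {u : Sp d → V} (hu : TF u) :
    Continuous (fo L u) := by
  unfold fo
  exact L.continuous.comp (hu.smooth.continuous_fderiv (by simp))

lemma fo_cs (L : (Sp d →L[ℝ] V) →L[ℝ] E) {u : Sp d → V} (hu : TF u) :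
    HasCompactSupport (fo L u) := by
  unfold fo
  exact (hu.supp.fderiv (𝕜 := ℝ)).comp_left (map_zero L)

lemma cutw_lip (hcap : IsCap L y0 ρ B w τ) {κ : Sp d → ℝ} {r l : ℝ} (hκ : IsCut κ y0 r l)
    (hr : r ≤ ρ) (y y' : Sp d) :
    ‖κ y • w y - κ y' • w y'‖ ≤ (B * (l + 1)) * ‖y - y'‖ := by
  have hB := hcap.B_pos
  have hl := hκ.l_nonneg
  have hz : ∀ y, y ∉ ball y0 ρ → κ y = 0 := by
    intro y hy
    rw [mem_ball, dist_eq_norm, not_lt] at hy
    exact hκ.supp y (hr.trans hy)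
  have hn := norm_nonneg (y - y')
  by_cases hy : y ∈ ball y0 ρ
  · by_cases hy' : y' ∈ ball y0 ρ
    · have e1 : κ y • w y - κ y' • w y' = (κ y - κ y') • w y + κ y' • (w y - w y') := by
        rw [sub_smul, smul_sub]; abel
      rw [e1]
      refine (norm_add_le _ _).trans ?_
      rw [norm_smul, norm_smul, Real.norm_eq_abs, Real.norm_eq_abs]
      have h1 : |κ y - κ y'| * ‖w y‖ ≤ (l * ‖y - y'‖) * B :=
        mul_le_mul (hκ.lip y y') (hcap.w_bd y hy) (norm_nonneg _) (by positivity)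
      have h2 : |κ y'| * ‖w y - w y'‖ ≤ 1 * (B * ‖y - y'‖) :=
        mul_le_mul (hκ.bd y') (hcap.w_lip y hy y' hy') (norm_nonneg _) zero_le_one
      linarith
    · rw [hz y' hy', zero_smul, sub_zero, norm_smul, Real.norm_eq_abs]
      have h0 := hκ.lip y y'
      rw [hz y' hy', sub_zero] at h0
      have h1 : |κ y| * ‖w y‖ ≤ (l * ‖y - y'‖) * B :=
        mul_le_mul h0 (hcap.w_bd y hy) (norm_nonneg _) (by positivity)
      nlinarith [mul_nonneg hB.le hn]
  · by_cases hy' : y' ∈ ball y0 ρ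
    · rw [hz y hy, zero_smul, zero_sub, norm_neg, norm_smul, Real.norm_eq_abs]
      have h0 := hκ.lip y y'
      rw [hz y hy, zero_sub, abs_neg] at h0
      have h1 : |κ y'| * ‖w y'‖ ≤ (l * ‖y - y'‖) * B :=
        mul_le_mul h0 (hcap.w_bd y' hy') (norm_nonneg _) (by positivity)
      linarith only [h1, mul_nonneg hB.le hn]
    · rw [hz y hy, hz y' hy', zero_smul, zero_smul, sub_zero, norm_zero]
      positivity

lemma cutw_cont (hcap : IsCap L y0 ρ B w τ) {κ : Sp d → ℝ} {r l : ℝ} (hκ : IsCut κ y0 r l)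
    (hr : r ≤ ρ) : Continuous fun y => κ y • w y := by
  have hB := hcap.B_pos
  have hl := hκ.l_nonneg
  have : LipschitzWith (Real.toNNReal (B * (l + 1))) fun y => κ y • w y := by
    refine LipschitzWith.of_dist_le_mul fun y y' => ?_
    rw [dist_eq_norm, dist_eq_norm, Real.coe_toNNReal _ (by positivity)]
    exact cutw_lip hcap hκ hr y y'
  exact this.continuous

lemma cutw_cs (w : Sp d → V) {κ : Sp d → ℝ} {r l : ℝ} (hκ : IsCut κ y0 r l) :
    HasCompactSupport fun y => κ y • w y := by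
  refine HasCompactSupport.intro (isCompact_closedBall y0 r) fun y hy => ?_
  rw [mem_closedBall, dist_eq_norm, not_le] at hy
  rw [hκ.supp y hy.le, zero_smul]

lemma null_even {p : Sp d → V} (hp : Null L p) (hcap : IsCap L y0 ρ B w τ) {y : Sp d}
    (hy : y ∈ ball y0 ρ) (a : Sp d) : ⟪w y, p (a + y)⟫_ℝ = ⟪w y, p (a - y)⟫_ℝ := by
  have hd : ∀ t : ℝ, HasDerivAt (fun t : ℝ => ⟪w y, p (a + t • y)⟫_ℝ) 0 t := by
    intro t
    have h1 : HasDerivAt (fun t : ℝ => a + t • y) y t := by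
      have := ((hasDerivAt_id t).smul_const y).const_add a
      simpa using this
    have h2 : HasFDerivAt p (fderiv ℝ p (a + t • y)) (a + t • y) :=
      (hp.1.differentiable (by simp)).differentiableAt.hasFDerivAt
    have h3 : HasDerivAt (fun t : ℝ => p (a + t • y)) (fderiv ℝ p (a + t • y) y) t :=
      h2.comp_hasDerivAt t h1
    have h4 := (hasDerivAt_const t (w y)).inner ℝ h3
    have h5 : ⟪w y, fderiv ℝ p (a + t • y) y⟫_ℝ = 0 := by
      rw [hcap.slice y hy, hp.2, inner_zero_left]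
    simpa [h5] using h4
  have hc := is_const_of_deriv_eq_zero (fun t => (hd t).differentiableAt)
    (fun t => (hd t).deriv) 1 (-1)
  simpa [sub_eq_add_neg] using hc

lemma YY_eq (u : Sp d → V) (w : Sp d → V) (κ : Sp d → ℝ) (x : Sp d) (t : ℝ) :
    YY u w κ x t = ∫ y, ⟪κ y • w y, u (x + t • y)⟫_ℝ := by
  unfold YY
  congr 1
  ext y
  rw [real_inner_smul_left]

/-- integrals of a continuous function with compact support against a continuous one -/
lemma inner_integrable {W g : Sp d → V} (hW : Continuous W) (hWc : HasCompactSupport W)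
    (hg : Continuous g) : Integrable fun y => ⟪W y, g y⟫_ℝ := by
  refine Continuous.integrable_of_hasCompactSupport (hW.inner hg) ?_
  refine hWc.mono' ?_
  intro y hy
  refine subset_tsupport _ ?_
  intro h0
  apply hy
  simp [h0]

/-- the two change of variables in the top level functional -/
lemma shift_formula {W : Sp d → V} (hW : Continuous W) (hWc : HasCompactSupport W)
    {g : Sp d → V} (hg : Continuous g) (a : Sp d) :
    ∫ y, ⟪W (y - a) - W (a - y), g y⟫_ℝ =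
      (∫ y, ⟪W y, g (a + y)⟫_ℝ) - ∫ y, ⟪W y, g (a - y)⟫_ℝ := by
  have e1 : ∫ y, ⟪W y, g (a + y)⟫_ℝ = ∫ y, ⟪W (y - a), g y⟫_ℝ := by
    rw [← integral_sub_right_eq_self (fun y => ⟪W y, g (a + y)⟫_ℝ) a]
    congr 1
    ext y
    rw [add_sub_cancel]
  have e2 : ∫ y, ⟪W y, g (a - y)⟫_ℝ = ∫ y, ⟪W (a - y), g y⟫_ℝ := by
    rw [← integral_sub_left_eq_self (fun y => ⟪W y, g (a - y)⟫_ℝ) volume a]
    congr 1
    ext y
    rw [sub_sub_cancel]
  rw [e1, e2, ← integral_sub]
  · congr 1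
    ext y
    rw [inner_sub_left]
  · refine inner_integrable (hW.comp (by fun_prop)) ?_ hg
    exact hWc.comp_homeomorph (Homeomorph.subRight a)
  · refine inner_integrable (hW.comp (by fun_prop)) ?_ hg
    exact hWc.comp_homeomorph (Homeomorph.subLeft a)

lemma DD_top {CK : ℝ} (hK : KProp L CK) (hcap : IsCap L y0 ρ B w τ) {κ : Sp d → ℝ} {r l : ℝ}
    (hκ : IsCut κ y0 r l) (hr : r ≤ ρ) {u : Sp d → V} (hu : TF u) {s0 : ℝ} (hs : 0 < s0) {j : ℕ}
    (hj : 1 ≤ j) (x a : Sp d) (ha : ‖a‖ ≤ 1 / 2)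
    (hnn : 0 ≤ am s0 (fo L u) j x + er s0 (fo L u) j x) :
    |DD u w κ (x + sc s0 j • a) (sc s0 j)| ≤
      |CK| * (2 * (B * (l + 1))) * (am s0 (fo L u) j x + er s0 (fo L u) j x) := by
  have hB := hcap.B_pos
  have hl := hκ.l_nonneg
  have hW := cutw_cont hcap hκ hr
  have hWc := cutw_cs w hκ
  set W : Sp d → V := fun y => κ y • w y with hWdef
  have hin := hcap.inside
  have hρ := hcap.ρ_pos
  have h1 := hK u hu s0 hs j hj x (fun y => W (y - a) - W (a - y)) (2 * (B * (l + 1)))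
    (by positivity) ?_ ?_ ?_
  · have e1 : DD u w κ (x + sc s0 j • a) (sc s0 j) =
        ∫ y, ⟪W (y - a) - W (a - y), u (x + sc s0 j • y)⟫_ℝ := by
      rw [shift_formula hW hWc (g := fun y => u (x + sc s0 j • y))
        (hu.smooth.continuous.comp (by fun_prop)) a]
      unfold DD
      rw [YY_eq, YY_eq]
      congr 2
      · ext y
        rw [smul_add, ← add_assoc]
      · ext y
        rw [smul_sub, neg_smul, ← sub_eq_add_neg, ← add_sub_assoc]
    rw [e1]
    refine h1.trans ?_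
    refine mul_le_mul_of_nonneg_right ?_ hnn
    exact mul_le_mul_of_nonneg_right (le_abs_self CK) (by positivity)
  · intro y y'
    have e1 : W (y - a) - W (a - y) - (W (y' - a) - W (a - y')) =
        (W (y - a) - W (y' - a)) - (W (a - y) - W (a - y')) := by abel
    rw [e1]
    refine (norm_sub_le _ _).trans ?_
    have h2 := cutw_lip hcap hκ hr (y - a) (y' - a)
    have h3 := cutw_lip hcap hκ hr (a - y) (a - y')
    rw [sub_sub_sub_cancel_right] at h2
    rw [sub_sub_sub_cancel_left, norm_sub_rev y' y] at h3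
    simp only [hWdef]
    linarith
  · intro y hy
    have hz : ∀ v : Sp d, 3 / 2 ≤ ‖v‖ → W v = 0 := by
      intro v hv
      simp only [hWdef]
      rw [hκ.supp v, zero_smul]
      have h4 : ‖v‖ ≤ ‖v - y0‖ + ‖y0‖ := by
        have := norm_add_le (v - y0) y0
        rwa [sub_add_cancel] at this
      linarith
    have h5 : 3 / 2 ≤ ‖y - a‖ := by
      have := norm_sub_norm_le y a
      linarith
    rw [hz _ h5, hz (a - y) (by rw [norm_sub_rev]; exact h5), sub_zero]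
  · intro p hp
    rw [shift_formula hW hWc hp.1.continuous a, sub_eq_zero]
    congr 1
    ext y
    by_cases hy : y ∈ ball y0 ρ
    · simp only [hWdef]
      rw [real_inner_smul_left, real_inner_smul_left, null_even hp hcap hy]
    · have : W y = 0 := by
        simp only [hWdef]
        rw [mem_ball, dist_eq_norm, not_lt] at hy
        rw [hκ.supp y (hr.trans hy), zero_smul]
      rw [this, inner_zero_left, inner_zero_left]

end Op

/-! ## bounds of NN -/

section NNsec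

variable {E : Type} [NormedAddCommGroup E] [InnerProductSpace ℝ E] [FiniteDimensional ℝ E]

lemma NN_nonneg {s0 : ℝ} (hs : 0 < s0) (f : Sp d → E) (m j : ℕ) (x y0 : Sp d) (r : ℝ) :
    0 ≤ NN s0 f m j x y0 r :=
  intervalIntegral.integral_nonneg (sc_le hs (Nat.le_succ j)) fun t _ =>
    setIntegral_nonneg measurableSet_ball fun y _ => by positivity

lemma int_ball_neg (g : Sp d → ℝ) (q : Sp d) (r : ℝ) :
    ∫ y in ball q r, g (-y) = ∫ y in ball (-q) r, g y := by
  have h1 := (Measure.measurePreserving_neg (volume : Measure (Sp d))).setIntegral_preimage_emb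
    (Homeomorph.neg (Sp d)).measurableEmbedding g (ball (-q) r)
  rw [← h1]
  congr 2
  ext x
  simp only [mem_preimage, mem_ball, dist_eq_norm]
  rw [show -x - -q = -(x - q) by abel, norm_neg]

lemma inner_le {g : Sp d → ℝ} (hg : LB g) (h0 : ∀ z, 0 ≤ g z) {s t : ℝ} (hs : 0 < s)
    (ht : s ≤ t) (ht' : t ≤ 8 * s) {x x' y0 : Sp d} {r : ℝ} (hr : ‖y0‖ + r ≤ 3 / 2)
    (hx : ‖x' - x‖ ≤ s) :
    ∫ y in ball y0 r, g (x' + t • y) ≤ (s ^ d)⁻¹ * ∫ z in ball x (13 * s), g z := by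
  have htp : 0 < t := hs.trans_le ht
  rw [int_ball_scale g htp, smul_eq_mul]
  have hI : 0 ≤ ∫ z in ball x (13 * s), g z :=
    setIntegral_nonneg measurableSet_ball fun z _ => h0 z
  have h1 : ∫ z in ball (x' + t • y0) (t * r), g z ≤ ∫ z in ball x (13 * s), g z := by
    refine setIntegral_mono_set (hg.integrableOn isBounded_ball)
      (Filter.Eventually.of_forall fun z => h0 z) (Filter.Eventually.of_forall ?_)
    intro z hz
    change z ∈ ball (x' + t • y0) (t * r) at hz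
    change z ∈ ball x (13 * s)
    rw [mem_ball, dist_eq_norm] at hz ⊢
    have h2 : ‖z - x‖ ≤ ‖z - (x' + t • y0)‖ + ‖t • y0‖ + ‖x' - x‖ := by
      have e : z - x = (z - (x' + t • y0)) + t • y0 + (x' - x) := by abel
      calc ‖z - x‖ = ‖(z - (x' + t • y0)) + t • y0 + (x' - x)‖ := by rw [← e]
        _ ≤ _ := norm_add₃_le
    have h3 : ‖t • y0‖ = t * ‖y0‖ := by rw [norm_smul, Real.norm_eq_abs, abs_of_pos htp]
    have h4 : t * r + t * ‖y0‖ ≤ 8 * s * (3 / 2) := by
      have h5 : t * (‖y0‖ + r) ≤ t * (3 / 2) := mul_le_mul_of_nonneg_left hr htp.le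
      linarith only [ht', h5]
    linarith
  have h5 : (t ^ d)⁻¹ ≤ (s ^ d)⁻¹ := by gcongr
  exact mul_le_mul h5 h1 (setIntegral_nonneg measurableSet_ball fun z _ => h0 z) (by positivity)

lemma inner_le' {g : Sp d → ℝ} (hg : LB g) (h0 : ∀ z, 0 ≤ g z) {s t : ℝ} (hs : 0 < s)
    (ht : s ≤ t) (ht' : t ≤ 8 * s) {x x' y0 : Sp d} {r : ℝ} (hr : ‖y0‖ + r ≤ 3 / 2)
    (hx : ‖x' - x‖ ≤ s) :
    ∫ y in ball y0 r, g (x' - t • y) ≤ (s ^ d)⁻¹ * ∫ z in ball x (13 * s), g z := by
  have h1 := int_ball_neg (fun y => g (x' + t • y)) y0 r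
  have h2 : ∫ y in ball y0 r, g (x' - t • y) = ∫ y in ball (-y0) r, g (x' + t • y) := by
    rw [← h1]
    congr 1
    ext y
    rw [smul_neg, sub_eq_add_neg]
  rw [h2]
  exact inner_le hg h0 hs ht ht' (by rwa [norm_neg]) hx

lemma LB.comp_sub_smul {g : Sp d → ℝ} (hg : LB g) (x : Sp d) (t : ℝ) :
    LB (fun y => g (x - t • y)) := by
  have := hg.comp_smul x (-t)
  refine ⟨?_, ?_⟩
  · have h := this.meas
    simpa only [neg_smul, ← sub_eq_add_neg] using h
  · intro R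
    obtain ⟨M, hM⟩ := this.bd R
    refine ⟨M, fun y hy => ?_⟩
    have := hM y hy
    simpa only [neg_smul, ← sub_eq_add_neg] using this

lemma NN_le {C s0 : ℝ} (hs : 0 < s0) {f : Sp d → E} (hf : Continuous f) (D : DevFacts C s0 f)
    (hC : 0 ≤ C) (m j : ℕ) {x x' y0 : Sp d} {r : ℝ} (hr : ‖y0‖ + r ≤ 3 / 2)
    (hx : ‖x' - x‖ ≤ sc s0 j) :
    NN s0 f m j x' y0 r ≤ 14 * am s0 f j x + 14 * (m * 2 ^ m * C) * er s0 f j x := by
  have hsj := sc_pos hs j
  set s := sc s0 j with hsdef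
  have hg : LB (fun z => ‖fl s0 f (j - m) z‖) := LB.of_cont (fl_cont hf s0 _).norm
  set M := ∫ z in ball x (13 * s), ‖fl s0 f (j - m) z‖ with hM
  have hM0 : 0 ≤ M := setIntegral_nonneg measurableSet_ball fun z _ => norm_nonneg _
  have h1 : NN s0 f m j x' y0 r ≤ (2 * (s ^ d)⁻¹ * M) * |sc s0 (j + 1) - s| := by
    refine (Real.le_norm_self _).trans ?_
    unfold NN
    refine intervalIntegral.norm_integral_le_of_norm_le_const fun t ht => ?_
    rw [uIoc_of_le (sc_le hs (Nat.le_succ j)), sc_succ] at ht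
    have ht1 : s ≤ t := ht.1.le
    have ht2 : t ≤ 8 * s := ht.2
    rw [Real.norm_eq_abs, abs_of_nonneg (setIntegral_nonneg measurableSet_ball fun y _ => by
      positivity), integral_add]
    · have h2 := inner_le hg (fun z => norm_nonneg _) hsj ht1 ht2 hr hx
      have h3 := inner_le' hg (fun z => norm_nonneg _) hsj ht1 ht2 hr hx
      linarith
    · exact (hg.comp_smul x' t).integrableOn isBounded_ball
    · exact (LB.comp_sub_smul hg x' t).integrableOn isBounded_ball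
  have e1 : |sc s0 (j + 1) - s| = 7 * s := by
    rw [sc_succ, ← hsdef, show 8 * s - s = 7 * s by ring, abs_of_pos (by positivity)]
  rw [e1] at h1
  have h2 := D.transfer (j - m) j x (13 * s) (Nat.sub_le _ _)
  rw [← hM] at h2
  have hfj : LB (fun z => ‖fl s0 f j z‖) := LB.of_cont (fl_cont hf s0 _).norm
  have h3 : s / s ^ d * ∫ z in ball x (13 * s + s / 7), ‖fl s0 f j z‖ ≤ am s0 f j x := by
    unfold am
    refine mul_le_mul_of_nonneg_left ?_ (by positivity)
    refine setIntegral_mono_set (hfj.integrableOn isBounded_ball)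
      (Filter.Eventually.of_forall fun z => norm_nonneg _) (Filter.Eventually.of_forall ?_)
    exact ball_subset_ball (by linarith)
  have h4 : ∀ i ∈ Finset.Ico (j - m) j, s / s ^ d * ∫ z in ball x (13 * s + s / 7),
      gap s0 f i z ≤ 2 ^ m * C * er s0 f j x := by
    intro i hi
    rw [Finset.mem_Ico] at hi
    have h5 := D.gap_le j i x (by omega)
    have h6 : s / s ^ d * ∫ z in ball x (13 * s + s / 7), gap s0 f i z ≤
        s / s ^ d * ∫ z in ball x (384 * s), gap s0 f i z := by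
      refine mul_le_mul_of_nonneg_left ?_ (by positivity)
      refine setIntegral_mono_set ((LB.gap hf s0 i).integrableOn isBounded_ball)
        (Filter.Eventually.of_forall fun z => D.gap_nonneg i z)
        (Filter.Eventually.of_forall ?_)
      exact ball_subset_ball (by linarith only [hsj])
    have h7 : (2 : ℝ) ^ (j - i) * (1 / 2) ^ (j - i) = 1 := by
      rw [← mul_pow]; norm_num
    have h8 : s / s ^ d * ∫ z in ball x (384 * s), gap s0 f i z ≤
        2 ^ (j - i) * (C * er s0 f j x) := by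
      calc s / s ^ d * ∫ z in ball x (384 * s), gap s0 f i z =
            2 ^ (j - i) * ((1 / 2) ^ (j - i) *
              (s / s ^ d * ∫ z in ball x (384 * s), gap s0 f i z)) := by
            rw [← mul_assoc, h7, one_mul]
        _ ≤ _ := mul_le_mul_of_nonneg_left h5 (by positivity)
    have h9 : (2 : ℝ) ^ (j - i) ≤ 2 ^ m := pow_le_pow_right₀ (by norm_num) (by omega)
    have h10 : 0 ≤ C * er s0 f j x := mul_nonneg hC (D.er_nonneg j x)
    calc _ ≤ _ := h6
      _ ≤ _ := h8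
      _ ≤ 2 ^ m * (C * er s0 f j x) := mul_le_mul_of_nonneg_right h9 h10
      _ = _ := by ring
  have h5 : s / s ^ d * ∑ i ∈ Finset.Ico (j - m) j, ∫ z in ball x (13 * s + s / 7),
      gap s0 f i z ≤ m * (2 ^ m * C * er s0 f j x) := by
    rw [Finset.mul_sum]
    refine (Finset.sum_le_card_nsmul _ _ _ h4).trans ?_
    rw [nsmul_eq_mul, Nat.card_Ico]
    have h10 : 0 ≤ 2 ^ m * C * er s0 f j x :=
      mul_nonneg (by positivity) (D.er_nonneg j x)
    refine mul_le_mul_of_nonneg_right ?_ h10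
    exact_mod_cast (by omega : j - (j - m) ≤ m)
  have h6 : (2 * (s ^ d)⁻¹ * M) * (7 * s) = 14 * (s / s ^ d * M) := by
    rw [div_eq_mul_inv]; ring
  rw [h6] at h1
  have h7 : s / s ^ d * M ≤ s / s ^ d * ((∫ z in ball x (13 * s + s / 7), ‖fl s0 f j z‖) +
      ∑ i ∈ Finset.Ico (j - m) j, ∫ z in ball x (13 * s + s / 7), gap s0 f i z) :=
    mul_le_mul_of_nonneg_left h2 (by positivity)
  rw [mul_add] at h7
  linarith

lemma int_cont_t {g : Sp d → ℝ} (hg : Continuous g) (hgc : HasCompactSupport g) (x y0 : Sp d)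
    (r : ℝ) : Continuous fun t : ℝ => ∫ y in ball y0 r, g (x + t • y) := by
  obtain ⟨M, hM⟩ := hgc.exists_bound_of_continuous hg
  have : IsFiniteMeasure (volume.restrict (ball y0 r)) := ⟨by
    rw [Measure.restrict_apply_univ]; exact measure_ball_lt_top⟩
  refine continuous_of_dominated (bound := fun _ => M) ?_ ?_ (integrable_const M) ?_
  · exact fun t => (hg.comp (by fun_prop)).aestronglyMeasurable
  · exact fun t => Filter.Eventually.of_forall fun y => hM _
  · exact Filter.Eventually.of_forall fun y => hg.comp (by fun_prop)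

lemma int_cont_t' {g : Sp d → ℝ} (hg : Continuous g) (hgc : HasCompactSupport g) (x y0 : Sp d)
    (r : ℝ) : Continuous fun t : ℝ => ∫ y in ball y0 r, g (x - t • y) := by
  have h := (int_cont_t hg hgc x y0 r).comp continuous_neg
  refine h.congr fun t => ?_
  simp only [Function.comp_apply, neg_smul, ← sub_eq_add_neg]

lemma NN_shift {s0 : ℝ} (hs : 0 < s0) {f : Sp d → E} (hf : Continuous f)
    (hfc : HasCompactSupport f) (m j : ℕ) {x b y0 : Sp d} {r r' : ℝ}
    (hb : ‖b‖ ≤ sc s0 j * (r' - r)) :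
    NN s0 f m j (x + b) y0 r ≤ NN s0 f m j x y0 r' := by
  have hsj := sc_pos hs j
  set s := sc s0 j with hsdef
  have hg : Continuous (fun z => ‖fl s0 f (j - m) z‖) := (fl_cont hf s0 _).norm
  have hgc : HasCompactSupport (fun z => ‖fl s0 f (j - m) z‖) := (fl_cs hfc s0 _).norm
  have hgL : LB (fun z => ‖fl s0 f (j - m) z‖) := LB.of_cont hg
  have hadd : ∀ (x : Sp d) (r t : ℝ), ∫ y in ball y0 r,
      (‖fl s0 f (j - m) (x + t • y)‖ + ‖fl s0 f (j - m) (x - t • y)‖) =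
      (∫ y in ball y0 r, ‖fl s0 f (j - m) (x + t • y)‖) +
        ∫ y in ball y0 r, ‖fl s0 f (j - m) (x - t • y)‖ := by
    intro x r t
    exact integral_add ((hgL.comp_smul x t).integrableOn isBounded_ball)
      ((LB.comp_sub_smul hgL x t).integrableOn isBounded_ball)
  have hc : ∀ (x : Sp d) (r : ℝ), Continuous fun t : ℝ => ∫ y in ball y0 r,
      (‖fl s0 f (j - m) (x + t • y)‖ + ‖fl s0 f (j - m) (x - t • y)‖) := by
    intro x r
    simp only [hadd]
    exact (int_cont_t hg hgc x y0 r).add (int_cont_t' hg hgc x y0 r)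
  unfold NN
  refine intervalIntegral.integral_mono_on (sc_le hs (Nat.le_succ j))
    ((hc _ _).intervalIntegrable _ _) ((hc _ _).intervalIntegrable _ _) fun t ht => ?_
  have ht1 : s ≤ t := ht.1
  have htp : 0 < t := hsj.trans_le ht1
  have hbt : ‖t⁻¹ • b‖ ≤ r' - r := by
    rw [norm_smul, norm_inv, Real.norm_eq_abs, abs_of_pos htp, inv_mul_le_iff₀ htp]
    have h0 : 0 ≤ r' - r := by
      have := (norm_nonneg b).trans hb
      by_contra hneg
      push Not at hneg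
      nlinarith
    nlinarith
  rw [hadd, hadd]
  refine add_le_add ?_ ?_
  · have e1 : ∫ y in ball y0 r, ‖fl s0 f (j - m) (x + b + t • y)‖ =
        ∫ y in ball (y0 + t⁻¹ • b) r, ‖fl s0 f (j - m) (x + t • y)‖ := by
      rw [← setIntegral_ball_add (fun y => ‖fl s0 f (j - m) (x + t • y)‖) (t⁻¹ • b) y0 r]
      congr 1
      ext y
      rw [smul_add, smul_smul, mul_inv_cancel₀ htp.ne', one_smul, add_assoc, add_comm b]
    rw [e1]
    refine setIntegral_mono_set ((hgL.comp_smul x t).integrableOn isBounded_ball)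
      (Filter.Eventually.of_forall fun z => norm_nonneg _) (Filter.Eventually.of_forall ?_)
    refine ball_subset_ball' ?_
    rw [dist_eq_norm, add_sub_cancel_left]
    linarith
  · have e1 : ∫ y in ball y0 r, ‖fl s0 f (j - m) (x + b - t • y)‖ =
        ∫ y in ball (y0 + -(t⁻¹ • b)) r, ‖fl s0 f (j - m) (x - t • y)‖ := by
      rw [← setIntegral_ball_add (fun y => ‖fl s0 f (j - m) (x - t • y)‖) (-(t⁻¹ • b)) y0 r]
      congr 1
      ext y
      rw [smul_add, smul_neg, smul_smul, mul_inv_cancel₀ htp.ne', one_smul]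
      congr 2
      abel
    rw [e1]
    refine setIntegral_mono_set ((LB.comp_sub_smul hgL x t).integrableOn isBounded_ball)
      (Filter.Eventually.of_forall fun z => norm_nonneg _) (Filter.Eventually.of_forall ?_)
    refine ball_subset_ball' ?_
    rw [dist_eq_norm, add_sub_cancel_left, norm_neg]
    linarith

end NNsec

/-! ## the main step -/

lemma telescope {g : ℕ → ℝ} {b : ℕ → ℝ} {l n : ℕ} (h : l ≤ n)
    (hg : ∀ j ∈ Finset.Ico l n, g j ≤ g (j + 1) + b j) :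
    g l ≤ g n + ∑ j ∈ Finset.Ico l n, b j := by
  induction n, h using Nat.le_induction with
  | base => simp
  | succ n hn ih =>
    rw [Finset.sum_Ico_succ_top hn]
    have h1 := ih fun j hj => hg j (by rw [Finset.mem_Ico] at hj ⊢; omega)
    have h2 := hg n (by rw [Finset.mem_Ico]; omega)
    linarith

lemma exists_m {P Q c ρ : ℝ} (hc : 0 < c) (hρ : 0 < ρ) (m0 : ℕ) : ∃ m : ℕ, 2 ≤ m ∧ m0 ≤ m ∧
    (1 / 8 : ℝ) ^ m ≤ ρ ∧ (1 / 8 : ℝ) ^ m * (P + Q * 2 ^ m) ≤ c := by
  have h1 : Filter.Tendsto (fun m : ℕ => (1 / 8 : ℝ) ^ m) Filter.atTop (nhds 0) :=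
    tendsto_pow_atTop_nhds_zero_of_lt_one (by norm_num) (by norm_num)
  have h2 : Filter.Tendsto (fun m : ℕ => (1 / 4 : ℝ) ^ m) Filter.atTop (nhds 0) :=
    tendsto_pow_atTop_nhds_zero_of_lt_one (by norm_num) (by norm_num)
  have h3 : Filter.Tendsto (fun m : ℕ => P * (1 / 8 : ℝ) ^ m + Q * (1 / 4 : ℝ) ^ m)
      Filter.atTop (nhds 0) := by
    have := (h1.const_mul P).add (h2.const_mul Q)
    simpa using this
  have e3 := h3.eventually (gt_mem_nhds hc)
  have e1 := h1.eventually (gt_mem_nhds hρ)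
  obtain ⟨m, hm⟩ := (((Filter.eventually_ge_atTop 2).and (Filter.eventually_ge_atTop m0)).and
    (e1.and e3)).exists
  refine ⟨m, hm.1.1, hm.1.2, hm.2.1.le, ?_⟩
  have h4 : (1 / 8 : ℝ) ^ m * 2 ^ m = (1 / 4) ^ m := by
    rw [← mul_pow]; norm_num
  calc (1 / 8 : ℝ) ^ m * (P + Q * 2 ^ m) = P * (1 / 8) ^ m + Q * ((1 / 8) ^ m * 2 ^ m) := by ring
    _ = P * (1 / 8) ^ m + Q * (1 / 4) ^ m := by rw [h4]
    _ ≤ c := hm.2.2.le

end A0

/-- MODULE A0 -/
theorem stmtA0 (hDev : StmtDev) (hLI : StmtLI) (hHF : StmtHF) (hLA : StmtLA) : StmtA0 := by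
  intro d V E _ _ _ _ _ _ L CK hK y0 ρ B c0 w τ hcap hc0
  have hρ := hcap.ρ_pos
  have hBp := hcap.B_pos
  have hin := hcap.inside
  obtain ⟨CD, hCD1, hD⟩ := hDev d
  have hCD0 : 0 ≤ CD := by linarith
  have hlt : ρ / 8 < ρ / 4 := by linarith
  have hrρ : ρ / 4 ≤ ρ := by linarith
  obtain ⟨κ, hκdef⟩ : ∃ κ : Sp d → ℝ, κ = hat y0 (ρ / 8) (ρ / 4) := ⟨_, rfl⟩
  obtain ⟨lk, hlk⟩ : ∃ lk : ℝ, lk = (ρ / 4 - ρ / 8)⁻¹ := ⟨_, rfl⟩
  have hκ : IsCut κ y0 (ρ / 4) lk := by rw [hκdef, hlk]; exact A0.hat_cut y0 hlt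
  have hlk0 := hκ.l_nonneg
  have hκ0 : ∀ y, 0 ≤ κ y := by rw [hκdef]; exact A0.hat_nonneg y0 _ _
  have hκ1 : ∀ y ∈ ball y0 (ρ / 8), κ y = 1 := by
    intro y hy
    rw [mem_ball, dist_eq_norm] at hy
    rw [hκdef]
    exact A0.hat_one y0 hlt hy.le
  have hκi : 0 < ∫ y, κ y := by rw [hκdef]; exact A0.hat_int_pos y0 hlt (by linarith)
  obtain ⟨CI, hCI0, hI⟩ := hLI d V E L y0 ρ B c0 w τ hcap hc0
  obtain ⟨CH, m0, hCH0, hH⟩ := hHF d V E L CK hK y0 ρ B c0 w τ hcap hc0
  obtain ⟨CA, c1, hCA0, hc1, hA⟩ := hLA d V E L y0 ρ B c0 w τ hcap hc0 κ lk (ρ / 4) hκ hrρ hκ0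
    hκi
  obtain ⟨k0, hk0⟩ := exists_pow_lt_of_lt_one (show 0 < ρ / 8 by linarith)
    (show (1 / 8 : ℝ) < 1 by norm_num)
  obtain ⟨k, hk⟩ : ∃ k : ℕ, k = k0 + 3 := ⟨_, rfl⟩
  obtain ⟨Iφ, hIφdef⟩ : ∃ I : ℝ, I = ∫ z, hat (0 : Sp d) (9 / 10) 1 z := ⟨_, rfl⟩
  have hIφ : 0 ≤ Iφ := by rw [hIφdef]; exact integral_nonneg (A0.hat_nonneg _ _ _)
  obtain ⟨A, hAdef⟩ : ∃ A : ℝ, A = CI * (lk + 1) := ⟨_, rfl⟩
  have hA0 : 0 ≤ A := by rw [hAdef]; positivity
  obtain ⟨m, hm2, hmm0, hmρ, hmP⟩ := A0.exists_m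
    (P := Iφ * A * (14 * k * CD ^ k) + CA * CD ^ k) (Q := Iφ * A * CH)
    (show 0 < c1 / 2 by linarith) (show 0 < ρ / 8 by linarith only [hρ]) m0
  obtain ⟨A', hA'def⟩ : ∃ A' : ℝ, A' = CI * (2 ^ m + lk + 1) := ⟨_, rfl⟩
  have hA'0 : 0 ≤ A' := by rw [hA'def]; positivity
  obtain ⟨KK, hKKdef⟩ : ∃ KK : ℝ, KK = |CK| * (2 * (B * (lk + 1))) := ⟨_, rfl⟩
  have hKK0 : 0 ≤ KK := by rw [hKKdef]; positivity
  -- the constant of the step
  obtain ⟨T, hTdef⟩ : ∃ T : ℝ, T = Iφ * (KK + A * (14 * k * CD ^ k + 14 * (m * 2 ^ m * CD) +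
    2 * (CH * 2 ^ m)) + A') + CA * CD ^ k + CA * 2 ^ m := ⟨_, rfl⟩
  have hT0 : 0 ≤ T := by rw [hTdef]; (clear * - hIφ hKK0 hA0 hCD1 hm2 hCH0 hA'0 hCA0; positivity)
  refine ⟨2 * (T / c1) + CD ^ k, by positivity, ?_⟩
  intro u hu s0 hs x j1 j2 hj1 hj12 hval
  have hf : Continuous (fo L u) := A0.fo_cont L hu
  have hfc : HasCompactSupport (fo L u) := A0.fo_cs L hu
  have D := hD E (fo L u) hf hfc s0 hs
  obtain ⟨a, hadef⟩ : ∃ a : ℕ → ℝ, a = fun j => am s0 (fo L u) j x := ⟨_, rfl⟩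
  obtain ⟨e, hedef⟩ : ∃ e : ℕ → ℝ, e = fun j => er s0 (fo L u) j x := ⟨_, rfl⟩
  have ha : ∀ j, 0 ≤ a j := fun j => by rw [hadef]; exact D.am_nonneg j x
  have he : ∀ j, 0 ≤ e j := fun j => by rw [hedef]; exact D.er_nonneg j x
  have hmono : ∀ j, a j ≤ CD * (a (j + 1) + e (j + 1)) := fun j => by
    rw [hadef, hedef]; exact D.am_mono j x
  have hchain := A0.chain ha he hCD1 hmono
  -- long chain bound
  have hchain' : ∀ l n : ℕ, l ≤ n → n ≤ l + k →
      a l ≤ CD ^ k * (a n + ∑ j ∈ Finset.Icc l n, e j) := by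
    intro l n h1 h2
    refine (hchain l n h1).trans (mul_le_mul_of_nonneg_right ?_ ?_)
    · exact pow_le_pow_right₀ hCD1 (by omega)
    · exact add_nonneg (ha _) (Finset.sum_nonneg fun j _ => he j)
  have hstep : ∀ l, j1 ≤ l → l + k ≤ j2 →
      a l ≤ a (l + k) / 2 + (T / c1) * (a j2 + ∑ j ∈ Finset.Icc l j2, e j) := by
    intro l hl1 hl2
    obtain ⟨S, hS⟩ : ∃ S : ℝ, S = ∑ j ∈ Finset.Icc l j2, e j := ⟨_, rfl⟩
    have hS0 : 0 ≤ S := by rw [hS]; exact Finset.sum_nonneg fun j _ => he j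
    have hsub : ∀ s : Finset ℕ, s ⊆ Finset.Icc l j2 → ∑ j ∈ s, e j ≤ S := by
      intro s hs'
      rw [hS]
      exact Finset.sum_le_sum_of_subset_of_nonneg hs' fun j _ _ => he j
    have hmem : ∀ j, l ≤ j → j ≤ j2 → e j ≤ S := by
      intro j h1 h2
      have := hsub {j} (by
        rw [Finset.singleton_subset_iff, Finset.mem_Icc]; exact ⟨h1, h2⟩)
      simpa using this
    have hσp := sc_pos hs (l + 2)
    obtain ⟨σ, hσ⟩ : ∃ σ : ℝ, σ = sc s0 (l + 2) := ⟨_, rfl⟩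
    rw [← hσ] at hσp
    -- the bound N of the sum of the NN
    obtain ⟨N, hN⟩ : ∃ N : ℝ, N = (14 * k * CD ^ k) * (a (l + k) + S) +
      14 * (m * 2 ^ m * CD) * S + CH * 2 ^ m * (a (l + k) + a j2 + S) := ⟨_, rfl⟩
    have hNN : ∀ z : Sp d, ‖z‖ ≤ 1 → ∑ j ∈ Finset.Ico (l + 2) j2,
        NN s0 (fo L u) m j (x + σ • z) y0 (ρ / 4 + (1 / 8) ^ m) ≤ N := by
      intro z hz
      have hσz : ‖σ • z‖ ≤ σ := by
        rw [norm_smul, Real.norm_eq_abs, abs_of_pos hσp]
        nlinarith only [hσp, hz]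
      rw [← Finset.sum_Ico_consecutive _ (show l + 2 ≤ l + k by omega) hl2]
      have hp1 : ∑ j ∈ Finset.Ico (l + 2) (l + k),
          NN s0 (fo L u) m j (x + σ • z) y0 (ρ / 4 + (1 / 8) ^ m) ≤
          (14 * k * CD ^ k) * (a (l + k) + S) + 14 * (m * 2 ^ m * CD) * S := by
        have h1 : ∀ j ∈ Finset.Ico (l + 2) (l + k),
            NN s0 (fo L u) m j (x + σ • z) y0 (ρ / 4 + (1 / 8) ^ m) ≤
            14 * (CD ^ k * (a (l + k) + S)) + 14 * (m * 2 ^ m * CD) * e j := by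
          intro j hj
          rw [Finset.mem_Ico] at hj
          have h2 := A0.NN_le hs hf D hCD0 m j (x := x) (x' := x + σ • z) (y0 := y0)
            (r := ρ / 4 + (1 / 8) ^ m) (by linarith only [hρ, hin, hmρ]) (by
              rw [add_sub_cancel_left]
              refine hσz.trans ?_
              rw [hσ]
              exact sc_le hs hj.1)
          have h3 := hchain' j (l + k) hj.2.le (by omega)
          have h4 : ∑ i ∈ Finset.Icc j (l + k), e i ≤ S :=
            hsub _ (Finset.Icc_subset_Icc (by omega) hl2)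
          have h5 : CD ^ k * (a (l + k) + ∑ i ∈ Finset.Icc j (l + k), e i) ≤
              CD ^ k * (a (l + k) + S) :=
            mul_le_mul_of_nonneg_left (by linarith only [h4]) (by positivity)
          have h6 : am s0 (fo L u) j x = a j := by rw [hadef]
          have h7 : er s0 (fo L u) j x = e j := by rw [hedef]
          rw [h6, h7] at h2
          linarith only [h2, h3, h5]
        refine (Finset.sum_le_sum h1).trans ?_
        rw [Finset.sum_add_distrib, Finset.sum_const, ← Finset.mul_sum, Nat.card_Ico,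
          nsmul_eq_mul]
        have h8 : ∑ j ∈ Finset.Ico (l + 2) (l + k), e j ≤ S := by
          refine hsub _ fun j hj => ?_
          rw [Finset.mem_Ico] at hj
          rw [Finset.mem_Icc]
          omega
        have h9 : ((l + k - (l + 2) : ℕ) : ℝ) ≤ k := by exact_mod_cast (by omega)
        have h10 : 0 ≤ 14 * (CD ^ k * (a (l + k) + S)) := by
          have := ha (l + k)
          (clear * - hCD1 this hS0; positivity)
        have h11 := mul_le_mul_of_nonneg_right h9 h10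
        have h12 : 14 * (m * 2 ^ m * CD) * ∑ j ∈ Finset.Ico (l + 2) (l + k), e j ≤
            14 * (m * 2 ^ m * CD) * S := mul_le_mul_of_nonneg_left h8 (by positivity)
        linarith only [h11, h12]
      have hp2 : ∑ j ∈ Finset.Ico (l + k) j2,
          NN s0 (fo L u) m j (x + σ • z) y0 (ρ / 4 + (1 / 8) ^ m) ≤
          CH * 2 ^ m * (a (l + k) + a j2 + S) := by
        have h1 : ∀ j ∈ Finset.Ico (l + k) j2,
            NN s0 (fo L u) m j (x + σ • z) y0 (ρ / 4 + (1 / 8) ^ m) ≤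
            NN s0 (fo L u) m j x y0 (ρ / 2) := by
          intro j hj
          rw [Finset.mem_Ico] at hj
          refine A0.NN_shift hs hf hfc m j (hσz.trans ?_)
          have h2 : sc s0 (l + k) ≤ sc s0 j := sc_le hs hj.1
          have h3 : sc s0 (l + k) = 8 ^ (k0 + 1) * σ := by
            rw [hσ, ← sc_add]
            congr 1
            omega
          have h4 : (8 : ℝ) ^ k0 * (1 / 8) ^ k0 = 1 := by
            rw [← mul_pow]; norm_num
          have h5 : 1 ≤ (8 : ℝ) ^ k0 * (ρ / 8) := by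
            have h50 : (8 : ℝ) ^ k0 * (1 / 8) ^ k0 ≤ 8 ^ k0 * (ρ / 8) :=
              mul_le_mul_of_nonneg_left hk0.le (by positivity)
            linarith only [h4, h50]
          have h6 : ρ / 8 ≤ ρ / 2 - (ρ / 4 + (1 / 8) ^ m) := by linarith only [hmρ]
          calc σ ≤ 8 * (8 ^ k0 * (ρ / 8)) * σ := by nlinarith only [hσp, h5]
            _ = sc s0 (l + k) * (ρ / 8) := by rw [h3, pow_succ]; ring
            _ ≤ sc s0 j * (ρ / 8) := mul_le_mul_of_nonneg_right h2 (by positivity)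
            _ ≤ sc s0 j * (ρ / 2 - (ρ / 4 + (1 / 8) ^ m)) :=
              mul_le_mul_of_nonneg_left h6 (sc_pos hs j).le
        refine (Finset.sum_le_sum h1).trans ?_
        have h2 := hH u hu s0 hs x (l + k) j2 (by omega) hl2 (fun j hj => hval j (by
          rw [Finset.mem_Ico] at hj ⊢
          omega)) m hmm0
        refine h2.trans (mul_le_mul_of_nonneg_left ?_ (by positivity))
        have h3 : ∑ j ∈ Finset.Icc (l + k) j2, er s0 (fo L u) j x ≤ S := by
          have := hsub (Finset.Icc (l + k) j2) (Finset.Icc_subset_Icc (by omega) le_rfl)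
          rwa [hedef] at this
        rw [hadef]
        linarith only [h3]
      rw [hN]
      linarith only [hp1, hp2]
    -- the bound of DD at the scale σ
    obtain ⟨K, hKdef⟩ : ∃ K : ℝ, K = KK * (a j2 + e j2) + (A * (1 / 8) ^ m * N + A' * S) :=
      ⟨_, rfl⟩
    have hN0 : 0 ≤ N := by
      have h1 := ha (l + k)
      have h2 := ha j2
      rw [hN]
      (clear * - hCD1 h1 hS0 hm2 hCH0 h2; positivity)
    have hK0 : 0 ≤ K := by
      have h1 := ha j2
      have h2 := he j2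
      rw [hKdef]
      (clear * - hKK0 h1 h2 hA0 hN0 hA'0 hS0; positivity)
    have hDD : ∀ z : Sp d, ‖z‖ ≤ 1 → DD u w κ (x + σ • z) σ ≤ K := by
      intro z hz
      have hσz : ‖σ • z‖ ≤ σ := by
        rw [norm_smul, Real.norm_eq_abs, abs_of_pos hσp]
        nlinarith only [hσp, hz]
      have h1 : ∀ j ∈ Finset.Ico (l + 2) j2,
          DD u w κ (x + σ • z) (sc s0 j) ≤ DD u w κ (x + σ • z) (sc s0 (j + 1)) +
            (A * (1 / 8) ^ m * NN s0 (fo L u) m j (x + σ • z) y0 (ρ / 4 + (1 / 8) ^ m) +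
              A' * e j) := by
        intro j hj
        rw [Finset.mem_Ico] at hj
        have h2 := hI u hu s0 hs m j x (x + σ • z) (by
              rw [add_sub_cancel_left]
              refine hσz.trans ?_
              rw [hσ]
              exact sc_le hs hj.1) (hval j (by rw [Finset.mem_Ico]; omega)) κ lk (ρ / 4)
            (ρ / 8) hκ hrρ hκ0 hκ1
        have h3 : 0 ≤ c0 / 2 * NN s0 (fo L u) m j (x + σ • z) y0 (ρ / 8) :=
          mul_nonneg (by linarith only [hc0]) (A0.NN_nonneg hs _ _ _ _ _ _)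
        have h4 : er s0 (fo L u) j x = e j := by rw [hedef]
        rw [h4, ← hAdef, ← hA'def] at h2
        linarith only [h2, h3]
      have h5 := A0.telescope (g := fun j => DD u w κ (x + σ • z) (sc s0 j))
        (show l + 2 ≤ j2 by omega) h1
      rw [Finset.sum_add_distrib, ← Finset.mul_sum, ← Finset.mul_sum, ← hσ] at h5
      have h6 := hNN z hz
      have h7 : ∑ j ∈ Finset.Ico (l + 2) j2, e j ≤ S := by
        refine hsub _ fun j hj => ?_
        rw [Finset.mem_Ico] at hj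
        rw [Finset.mem_Icc]
        omega
      have h8 : DD u w κ (x + σ • z) (sc s0 j2) ≤ KK * (a j2 + e j2) := by
        have hp2 := sc_pos hs j2
        have h9 : (sc s0 j2)⁻¹ * σ ≤ 1 / 2 := by
          rw [inv_mul_le_iff₀ hp2]
          have h10 : sc s0 (l + 3) ≤ sc s0 j2 := sc_le hs (by omega)
          have h11 : sc s0 (l + 3) = 8 * σ := by rw [hσ, ← sc_succ]
          linarith only [hσp, h10, h11]
        have h10 := A0.DD_top hK hcap hκ hrρ hu hs (show 1 ≤ j2 by omega) x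
          (((sc s0 j2)⁻¹ * σ) • z) (by
            rw [norm_smul, Real.norm_eq_abs, abs_of_nonneg (by positivity)]
            have := norm_nonneg z
            have h12 : 0 ≤ (sc s0 j2)⁻¹ * σ := by positivity
            nlinarith only [h9, hz, h12]) (add_nonneg (D.am_nonneg _ _) (D.er_nonneg _ _))
        rw [smul_smul, ← mul_assoc, mul_inv_cancel₀ hp2.ne', one_mul] at h10
        have h11 := (le_abs_self _).trans h10
        rw [← hKKdef] at h11
        rw [hadef, hedef]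
        exact h11
      have h9 : A * (1 / 8) ^ m * ∑ j ∈ Finset.Ico (l + 2) j2,
          NN s0 (fo L u) m j (x + σ • z) y0 (ρ / 4 + (1 / 8) ^ m) ≤ A * (1 / 8) ^ m * N :=
        mul_le_mul_of_nonneg_left h6 (by positivity)
      have h10 : A' * ∑ j ∈ Finset.Ico (l + 2) j2, e j ≤ A' * S :=
        mul_le_mul_of_nonneg_left h7 hA'0
      rw [hKdef]
      linarith only [h5, h8, h9, h10]
    -- the smeared functional
    have hsm : (∫ z, hat (0 : Sp d) (9 / 10) 1 z * DD u w κ (x + σ • z) σ) ≤ Iφ * K := by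
      have hφi : Integrable (fun z : Sp d => hat (0 : Sp d) (9 / 10) 1 z) :=
        (A0.hat_cont _ _ _).integrable_of_hasCompactSupport (A0.hat_cs _ (by norm_num))
      by_cases hint : Integrable fun z => hat (0 : Sp d) (9 / 10) 1 z *
          DD u w κ (x + σ • z) σ
      · rw [hIφdef, ← integral_mul_const]
        refine integral_mono hint (hφi.mul_const _) fun z => ?_
        by_cases hz : ‖z‖ ≤ 1
        · exact mul_le_mul_of_nonneg_left (hDD z hz) (A0.hat_nonneg _ _ _ _)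
        · push Not at hz
          simp only
          rw [A0.hat_zero (0 : Sp d) (by norm_num) (by rw [sub_zero]; exact hz.le)]
          simp
      · rw [integral_undef hint]
        positivity
    have hLAi := hA u hu s0 hs x l m hm2 (by
      have := hval (l + 2) (by rw [Finset.mem_Ico]; omega)
      exact this)
    rw [← hσ] at hLAi
    have e1 : am s0 (fo L u) l x = a l := by rw [hadef]
    have e2 : am s0 (fo L u) (l + 2) x = a (l + 2) := by rw [hadef]
    have e3 : er s0 (fo L u) (l + 2) x = e (l + 2) := by rw [hedef]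
    rw [e1, e2, e3] at hLAi
    have h1 : a (l + 2) ≤ CD ^ k * (a (l + k) + S) := by
      refine (hchain' (l + 2) (l + k) (by omega) (by omega)).trans ?_
      refine mul_le_mul_of_nonneg_left ?_ (by positivity)
      have := hsub (Finset.Icc (l + 2) (l + k)) (Finset.Icc_subset_Icc (by omega) hl2)
      linarith only [this]
    have h2 : e (l + 2) ≤ S := hmem _ (by omega) (by omega)
    have h3 : e j2 ≤ S := hmem _ (by omega) le_rfl
    have h8m : (1 / 8 : ℝ) ^ m ≤ 1 := pow_le_one₀ (by norm_num) (by norm_num)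
    have h8m0 : 0 ≤ (1 / 8 : ℝ) ^ m := by positivity
    have hal := ha (l + k)
    have haj := ha j2
    -- main inequality
    have hmain : c1 * a l ≤ (c1 / 2) * a (l + k) + T * (a j2 + S) := by
      have b1 : CA * (1 / 8) ^ m * a (l + 2) ≤
          CA * (1 / 8) ^ m * (CD ^ k * (a (l + k) + S)) :=
        mul_le_mul_of_nonneg_left h1 (by positivity)
      have b2 : CA * 2 ^ m * e (l + 2) ≤ CA * 2 ^ m * S :=
        mul_le_mul_of_nonneg_left h2 (by positivity)
      have b3 : Iφ * K ≤ Iφ * (KK * (a j2 + S) + (A * (1 / 8) ^ m * N + A' * S)) := by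
        refine mul_le_mul_of_nonneg_left ?_ hIφ
        rw [hKdef]
        have := mul_le_mul_of_nonneg_left (show a j2 + e j2 ≤ a j2 + S by linarith only [h3]) hKK0
        linarith only [this]
      have b4 : c1 * a l ≤ Iφ * (KK * (a j2 + S) + (A * (1 / 8) ^ m * N + A' * S)) +
          CA * (1 / 8) ^ m * (CD ^ k * (a (l + k) + S)) + CA * 2 ^ m * S := by linarith only [hsm, hLAi, b1, b2, b3]
      have b5 : (1 / 8 : ℝ) ^ m * (Iφ * A * (14 * k * CD ^ k) + CA * CD ^ k +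
          Iφ * A * CH * 2 ^ m) * a (l + k) ≤ c1 / 2 * a (l + k) :=
        mul_le_mul_of_nonneg_right hmP hal
      -- the remaining part
      have b6 : Iφ * (KK * (a j2 + S) + (A * (1 / 8) ^ m * N + A' * S)) +
          CA * (1 / 8) ^ m * (CD ^ k * (a (l + k) + S)) + CA * 2 ^ m * S =
          (1 / 8 : ℝ) ^ m * (Iφ * A * (14 * k * CD ^ k) + CA * CD ^ k +
          Iφ * A * CH * 2 ^ m) * a (l + k) +
          ((1 / 8 : ℝ) ^ m * (Iφ * A * (14 * k * CD ^ k * S + 14 * (m * 2 ^ m * CD) * S +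
            CH * 2 ^ m * (a j2 + S)) + CA * CD ^ k * S) +
            (Iφ * (KK * (a j2 + S) + A' * S) + CA * 2 ^ m * S)) := by
        rw [hN]; ring
      have b7 : (1 / 8 : ℝ) ^ m * (Iφ * A * (14 * k * CD ^ k * S + 14 * (m * 2 ^ m * CD) * S +
            CH * 2 ^ m * (a j2 + S)) + CA * CD ^ k * S) ≤
          1 * (Iφ * A * (14 * k * CD ^ k * S + 14 * (m * 2 ^ m * CD) * S +
            CH * 2 ^ m * (a j2 + S)) + CA * CD ^ k * S) :=
        mul_le_mul_of_nonneg_right h8m (by (clear * - hIφ hA0 hCD1 hS0 hm2 hCH0 haj hCA0; positivity))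
      have b8 : 1 * (Iφ * A * (14 * k * CD ^ k * S + 14 * (m * 2 ^ m * CD) * S +
            CH * 2 ^ m * (a j2 + S)) + CA * CD ^ k * S) +
            (Iφ * (KK * (a j2 + S) + A' * S) + CA * 2 ^ m * S) ≤ T * (a j2 + S) := by
        have c1' : T * (a j2 + S) - (1 * (Iφ * A * (14 * k * CD ^ k * S +
            14 * (m * 2 ^ m * CD) * S + CH * 2 ^ m * (a j2 + S)) + CA * CD ^ k * S) +
            (Iφ * (KK * (a j2 + S) + A' * S) + CA * 2 ^ m * S)) =
            Iφ * A * (14 * k * CD ^ k) * a j2 + Iφ * A * (14 * (m * 2 ^ m * CD)) * a j2 +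
            Iφ * A * (CH * 2 ^ m) * (a j2 + S) + Iφ * A' * a j2 + CA * CD ^ k * a j2 +
            CA * 2 ^ m * a j2 := by
          rw [hTdef]; ring
        have c2 : 0 ≤ Iφ * A * (14 * k * CD ^ k) * a j2 +
            Iφ * A * (14 * (m * 2 ^ m * CD)) * a j2 +
            Iφ * A * (CH * 2 ^ m) * (a j2 + S) + Iφ * A' * a j2 + CA * CD ^ k * a j2 +
            CA * 2 ^ m * a j2 := by (clear * - hIφ hA0 hCD1 haj hm2 hCH0 hS0 hA'0 hCA0; positivity)
        linarith only [c1', c2]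
      linarith only [hsm, hLAi, b1, b2, b3, b5, b6, b7, b8]
    rw [← hS]
    have h4 : a l ≤ ((c1 / 2) * a (l + k) + T * (a j2 + S)) / c1 := by
      rw [le_div_iff₀ hc1]
      linarith only [hmain]
    refine h4.trans (le_of_eq ?_)
    field_simp
  have hshort : ∀ l, l ≤ j2 → j2 < l + k →
      a l ≤ CD ^ k * (a j2 + ∑ j ∈ Finset.Icc l j2, e j) := fun l h1 h2 =>
    hchain' l j2 h1 h2.le
  have hfin := A0.iterate ha he (show 1 ≤ k by omega) (by positivity) (by positivity) hstep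
    hshort (j2 - j1) j1 rfl le_rfl hj12
  rw [hadef, hedef] at hfin
  exact hfin

end

end TrI


end

section

/-!
# Trace inequality, general operators: module GN

The inequality (G) at unit scale, from the identity (**) (GI) and the pointwise inequality (GP).
-/

open MeasureTheory Metric Set TrI
open scoped InnerProductSpace ContDiff

namespace TG

noncomputable section

namespace GNaux

variable {d : ℕ}

/-- the integral with a compactly supported continuous weight is continuous -/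
theorem cont_int (β : Sp d → ℝ) (hβ : Continuous β) (hs : ∀ x, 1 ≤ ‖x‖ → β x = 0)
    (F : ℝ → Sp d → ℝ) (hF : ContinuousOn (Function.uncurry F) (Ioi 0 ×ˢ univ)) :
    ContinuousOn (fun t => ∫ z, β z * F t z) (Ioi 0) := by
  refine continuousOn_integral_of_compact_support (k := closedBall 0 1)
    (isCompact_closedBall 0 1) ?_ ?_
  · exact (hβ.comp_continuousOn continuousOn_snd).mul hF
  · intro p x _ hx
    rw [hs x (by
      simp only [mem_closedBall, dist_zero_right, not_le] at hx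
      exact hx.le), zero_mul]

/-- the potential as a function of both variables -/
def VV (μ : Measure (Sp d)) (p : ℝ × Sp d) : ℝ := vv μ p.1 p.2

theorem isOpen_S : IsOpen {p : ℝ × Sp d | 0 < p.1} := isOpen_lt continuous_const continuous_fst

theorem cont_iter (μ : Measure (Sp d)) (h : ContDiffOn ℝ ∞ (VV μ) {p | 0 < p.1}) (k : ℕ) :
    ContinuousOn (iteratedFDeriv ℝ k (VV μ)) {p | 0 < p.1} := by
  have h1 := h.continuousOn_iteratedFDerivWithin (m := k) (by exact_mod_cast le_top)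
    isOpen_S.uniqueDiffOn
  refine h1.congr ?_
  intro p hp
  exact (iteratedFDerivWithin_of_isOpen k isOpen_S hp).symm

theorem slice2 (μ : Measure (Sp d)) (h : ContDiffOn ℝ ∞ (VV μ) {p | 0 < p.1}) (t : ℝ)
    (ht : 0 < t) (x w : Sp d) :
    iteratedFDeriv ℝ 2 (vv μ t) x (fun _ => w) =
      iteratedFDeriv ℝ 2 (VV μ) (t, x) (fun _ => (0, w)) := by
  set g : Sp d →L[ℝ] ℝ × Sp d := ContinuousLinearMap.inr ℝ ℝ (Sp d) with hg
  set f : ℝ × Sp d → ℝ := fun p => VV μ ((t, 0) + p) with hf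
  set s : Set (ℝ × Sp d) := {p | 0 < t + p.1} with hs
  have hso : IsOpen s := isOpen_lt continuous_const (continuous_const.add continuous_fst)
  have hfd : ContDiffOn ℝ ∞ f s := by
    refine h.comp (contDiff_const.add contDiff_id).contDiffOn ?_
    intro p hp
    simpa [hs] using hp
  have hpre : g ⁻¹' s = univ := by
    ext z
    simp [hg, hs, ht]
  have hx : g x ∈ s := by
    have : x ∈ g ⁻¹' s := by rw [hpre]; trivial
    exact this
  have h2 := g.iteratedFDerivWithin_comp_right hfd hso.uniqueDiffOn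
    (by rw [hpre]; exact uniqueDiffOn_univ) hx (i := 2) (WithTop.coe_le_coe.2 (le_top : (2 : ℕ∞) ≤ ⊤))
  rw [hpre, iteratedFDerivWithin_univ, iteratedFDerivWithin_of_isOpen 2 hso hx] at h2
  have h3 : (f ∘ g) = vv μ t := by
    funext z
    simp [hf, hg, VV]
  rw [h3] at h2
  rw [h2]
  have h4 : iteratedFDeriv ℝ 2 f (g x) = iteratedFDeriv ℝ 2 (VV μ) ((t, 0) + g x) := by
    rw [hf]
    exact iteratedFDeriv_comp_add_left 2 (t, (0 : Sp d)) (g x)
  rw [h4]
  have h5 : ((t, (0 : Sp d)) + g x) = (t, x) := by simp [hg]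
  rw [h5]
  rfl

theorem hasFD (μ : Measure (Sp d)) (h : ContDiffOn ℝ ∞ (VV μ) {p | 0 < p.1}) (t : ℝ)
    (ht : 0 < t) (x : Sp d) : HasFDerivAt (VV μ) (fderiv ℝ (VV μ) (t, x)) (t, x) := by
  have := (h.contDiffAt (isOpen_S.mem_nhds (show (t, x) ∈ {p : ℝ × Sp d | 0 < p.1} from ht)))
  exact (this.differentiableAt (by norm_num)).hasFDerivAt

theorem cont_fd (μ : Measure (Sp d)) (h : ContDiffOn ℝ ∞ (VV μ) {p | 0 < p.1}) :
    ContinuousOn (fderiv ℝ (VV μ)) {p | 0 < p.1} :=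
  h.continuousOn_fderiv_of_isOpen isOpen_S (by norm_num)

theorem slice1 (μ : Measure (Sp d)) (h : ContDiffOn ℝ ∞ (VV μ) {p | 0 < p.1}) (t : ℝ)
    (ht : 0 < t) (x : Sp d) :
    fderiv ℝ (vv μ t) x = (fderiv ℝ (VV μ) (t, x)).comp (ContinuousLinearMap.inr ℝ ℝ (Sp d)) := by
  have h1 : HasFDerivAt (fun z : Sp d => (t, z)) (ContinuousLinearMap.inr ℝ ℝ (Sp d)) x :=
    hasFDerivAt_prodMk_right t x
  exact ((hasFD μ h t ht x).comp x h1).fderiv

theorem grad_eq (μ : Measure (Sp d)) (h : ContDiffOn ℝ ∞ (VV μ) {p | 0 < p.1}) (t : ℝ)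
    (ht : 0 < t) (x : Sp d) :
    gradient (vv μ t) x = (InnerProductSpace.toDual ℝ (Sp d)).symm
      ((fderiv ℝ (VV μ) (t, x)).comp (ContinuousLinearMap.inr ℝ ℝ (Sp d))) := by
  rw [gradient, slice1 μ h t ht x]

theorem dtv_eq (μ : Measure (Sp d)) (h : ContDiffOn ℝ ∞ (VV μ) {p | 0 < p.1}) (t : ℝ)
    (ht : 0 < t) (x : Sp d) : dtv μ t x = fderiv ℝ (VV μ) (t, x) (1, 0) := by
  have h1 : HasFDerivAt (fun s : ℝ => (s, x)) (ContinuousLinearMap.inl ℝ ℝ (Sp d)) t :=
    hasFDerivAt_prodMk_left t x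
  have h2 := ((hasFD μ h t ht x).comp t h1).hasDerivAt.deriv
  rw [dtv]
  have h3 : (fun s => vv μ s x) = (VV μ ∘ fun s : ℝ => (s, x)) := by
    funext s
    rfl
  rw [h3, h2]
  simp

/-- the ray map -/
def ray (ε : ℝ) (y : Sp d) (p : ℝ × Sp d) : ℝ × Sp d := (p.1, y + (ε * p.1) • p.2)

theorem ray_cont (ε : ℝ) (y : Sp d) : Continuous (ray ε y) := by
  unfold ray
  fun_prop

theorem ray_maps (ε : ℝ) (y : Sp d) :
    MapsTo (ray ε y) (Ioi (0 : ℝ) ×ˢ (univ : Set (Sp d))) {p | 0 < p.1} := by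
  intro p hp
  exact hp.1

theorem cont_gr (μ : Measure (Sp d)) (h : ContDiffOn ℝ ∞ (VV μ) {p | 0 < p.1}) (β : Sp d → ℝ)
    (hβ : Continuous β) (hs : ∀ x, 1 ≤ ‖x‖ → β x = 0) (ε : ℝ) (n y : Sp d) :
    ContinuousOn (fun t => gr β ε μ n t y) (Ioi 0) := by
  unfold gr
  refine (cont_int β hβ hs _ ?_).neg
  have hV := (cont_iter μ h 2).comp (ray_cont ε y).continuousOn (ray_maps ε y)
  have hev : ∀ (w : ℝ × Sp d → ℝ × Sp d), Continuous w →
      ContinuousOn (fun p : ℝ × Sp d => iteratedFDeriv ℝ 2 (VV μ) (ray ε y p) (fun _ => w p))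
        (Ioi (0 : ℝ) ×ˢ univ) := by
    intro w hw
    have h1 : Continuous (fun q : (ContinuousMultilinearMap ℝ (fun _ : Fin 2 => ℝ × Sp d) ℝ) ×
        (Fin 2 → ℝ × Sp d) => q.1 q.2) := continuous_eval
    exact h1.comp_continuousOn (hV.prodMk (by fun_prop))
  have h1 : ContinuousOn (fun p : ℝ × Sp d => iteratedFDeriv ℝ 2 (VV μ) (ray ε y p)
      (fun _ => ((1 : ℝ), (ε * ⟪p.2, n⟫_ℝ) • n)) + (1 + (ε * ⟪p.2, n⟫_ℝ) ^ 2) *
        ((∑ j : Fin d, iteratedFDeriv ℝ 2 (VV μ) (ray ε y p)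
          (fun _ => ((0 : ℝ), (EuclideanSpace.single j (1 : ℝ) : Sp d)))) -
          iteratedFDeriv ℝ 2 (VV μ) (ray ε y p) (fun _ => ((0 : ℝ), n))))
      (Ioi (0 : ℝ) ×ˢ univ) := by
    refine (hev _ (by fun_prop)).add (ContinuousOn.mul (by fun_prop) (ContinuousOn.sub ?_
      (hev _ continuous_const)))
    exact continuousOn_finsetSum _ (fun j _ => hev _ continuous_const)
  refine h1.congr ?_
  rintro ⟨t, z⟩ ⟨ht, -⟩
  have ht' : 0 < t := ht
  simp only [Function.uncurry]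
  unfold lap d2
  simp only [slice2 μ h t ht']
  rfl

theorem cont_grad (μ : Measure (Sp d)) (h : ContDiffOn ℝ ∞ (VV μ) {p | 0 < p.1})
    (ε : ℝ) (y : Sp d) :
    ContinuousOn (fun p : ℝ × Sp d => gradient (vv μ p.1) (y + (ε * p.1) • p.2))
      (Ioi (0 : ℝ) ×ˢ univ) := by
  have hV := (cont_fd μ h).comp (ray_cont ε y).continuousOn (ray_maps ε y)
  have h1 : ContinuousOn (fun p : ℝ × Sp d => (InnerProductSpace.toDual ℝ (Sp d)).symm
      ((fderiv ℝ (VV μ) (ray ε y p)).comp (ContinuousLinearMap.inr ℝ ℝ (Sp d))))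
      (Ioi (0 : ℝ) ×ˢ univ) := by
    refine (InnerProductSpace.toDual ℝ (Sp d)).symm.continuous.comp_continuousOn ?_
    exact ContinuousOn.clm_comp hV continuousOn_const
  refine h1.congr ?_
  rintro ⟨t, z⟩ ⟨ht, -⟩
  exact grad_eq μ h t ht _

theorem cont_dtv (μ : Measure (Sp d)) (h : ContDiffOn ℝ ∞ (VV μ) {p | 0 < p.1})
    (ε : ℝ) (y : Sp d) :
    ContinuousOn (fun p : ℝ × Sp d => dtv μ p.1 (y + (ε * p.1) • p.2))
      (Ioi (0 : ℝ) ×ˢ univ) := by
  have hV := (cont_fd μ h).comp (ray_cont ε y).continuousOn (ray_maps ε y)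
  have h1 : ContinuousOn (fun p : ℝ × Sp d => fderiv ℝ (VV μ) (ray ε y p) ((1 : ℝ), (0 : Sp d)))
      (Ioi (0 : ℝ) ×ˢ univ) := ContinuousOn.clm_apply hV continuousOn_const
  refine h1.congr ?_
  rintro ⟨t, z⟩ ⟨ht, -⟩
  exact dtv_eq μ h t ht _

theorem cont_vv (μ : Measure (Sp d)) (h : ContDiffOn ℝ ∞ (VV μ) {p | 0 < p.1})
    (ε : ℝ) (y : Sp d) :
    ContinuousOn (fun p : ℝ × Sp d => vv μ p.1 (y + (ε * p.1) • p.2))
      (Ioi (0 : ℝ) ×ˢ univ) :=
  (h.continuousOn.comp (ray_cont ε y).continuousOn (ray_maps ε y))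

theorem tang_cont (n : Sp d) : Continuous (tang n) := by
  unfold tang
  fun_prop

theorem cont_X1 (μ : Measure (Sp d)) (h : ContDiffOn ℝ ∞ (VV μ) {p | 0 < p.1})
    (hpos : ∀ (t : ℝ) (x : Sp d), 0 < t → 0 < vv μ t x) (β : Sp d → ℝ)
    (hβ : Continuous β) (hs : ∀ x, 1 ≤ ‖x‖ → β x = 0) (ε : ℝ) (n y : Sp d) :
    ContinuousOn (fun t => X1 β ε μ n t y) (Ioi 0) := by
  unfold X1
  refine cont_int β hβ hs _ ?_
  refine ContinuousOn.div (((tang_cont n).comp_continuousOn (cont_grad μ h ε y)).norm.pow 2)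
    (cont_vv μ h ε y) ?_
  rintro ⟨t, z⟩ ⟨ht, -⟩
  exact (hpos t _ ht).ne'

theorem cont_X3 (μ : Measure (Sp d)) (h : ContDiffOn ℝ ∞ (VV μ) {p | 0 < p.1})
    (hpos : ∀ (t : ℝ) (x : Sp d), 0 < t → 0 < vv μ t x) (β : Sp d → ℝ)
    (hβ : Continuous β) (hs : ∀ x, 1 ≤ ‖x‖ → β x = 0) (ε : ℝ) (n y : Sp d) :
    ContinuousOn (fun t => X3 β ε μ n t y) (Ioi 0) := by
  unfold X3
  refine cont_int β hβ hs _ ?_
  refine ContinuousOn.div (ContinuousOn.pow (ContinuousOn.add (cont_dtv μ h ε y)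
    (ContinuousOn.mul (by fun_prop) (ContinuousOn.inner (𝕜 := ℝ) (cont_grad μ h ε y)
      continuousOn_const))) 2) (cont_vv μ h ε y) ?_
  rintro ⟨t, z⟩ ⟨ht, -⟩
  exact (hpos t _ ht).ne'

theorem kk_cont (d : ℕ) (x : Sp d) : ContinuousOn (fun t => kk t x) (Ioi 0) := by
  unfold kk
  refine ContinuousOn.div continuousOn_id (by fun_prop) ?_
  intro t ht
  have ht' : 0 < t := ht
  positivity

theorem kk_nonneg (t : ℝ) (ht : 0 ≤ t) (x : Sp d) : 0 ≤ kk t x := by
  unfold kk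
  positivity

theorem kk_le (t : ℝ) (ht : 0 < t) (x : Sp d) : kk t x ≤ t / t ^ d := by
  unfold kk
  have h1 : t ≤ Real.sqrt (t ^ 2 + ‖x‖ ^ 2) := by
    refine Real.le_sqrt_of_sq_le ?_
    nlinarith [sq_nonneg ‖x‖]
  gcongr

theorem kk_meas (t : ℝ) (ht : 0 < t) (y : Sp d) : Continuous (fun η : Sp d => kk t (y - η)) := by
  unfold kk
  refine Continuous.div continuous_const (by fun_prop) ?_
  intro η
  positivity

theorem cont_X2 (μ : Measure (Sp d)) [IsFiniteMeasure μ]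
    (h : ContDiffOn ℝ ∞ (VV μ) {p | 0 < p.1})
    (hpos : ∀ (t : ℝ) (x : Sp d), 0 < t → 0 < vv μ t x) (n y : Sp d) (hn : ‖n‖ = 1) :
    ContinuousOn (fun t => X2 μ n t y) (Icc (1 / 2) 2) := by
  unfold X2
  refine ContinuousOn.div ?_ ?_ ?_
  · refine continuousOn_of_dominated (bound := fun _ => 4 * (2 / (1 / 2 : ℝ) ^ d)) ?_ ?_
      (integrable_const _) ?_
    · intro t ht
      have ht0 : 0 < t := lt_of_lt_of_le (by norm_num) ht.1
      refine Continuous.aestronglyMeasurable ?_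
      refine Continuous.mul (Continuous.div (by fun_prop) (by fun_prop) ?_) (kk_meas t ht0 y)
      intro η
      positivity
    · intro t ht
      have ht0 : 0 < t := lt_of_lt_of_le (by norm_num) ht.1
      refine Filter.Eventually.of_forall ?_
      intro η
      have h1 : 0 ≤ ⟪η - y, n⟫_ℝ ^ 2 / (t ^ 2 + ‖y - η‖ ^ 2) ^ 2 := by positivity
      have h2 := kk_nonneg t ht0.le (y - η)
      rw [Real.norm_of_nonneg (mul_nonneg h1 h2)]
      have h3 : ⟪η - y, n⟫_ℝ ^ 2 ≤ ‖y - η‖ ^ 2 := by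
        have h4 := abs_real_inner_le_norm (η - y) n
        rw [hn, mul_one, norm_sub_rev] at h4
        rw [← sq_abs]
        gcongr
      have h5 : ⟪η - y, n⟫_ℝ ^ 2 / (t ^ 2 + ‖y - η‖ ^ 2) ^ 2 ≤ 4 := by
        rw [div_le_iff₀ (by positivity)]
        have h6 : (1 / 4 : ℝ) ≤ t ^ 2 := by nlinarith only [ht.1]
        have h7 : 0 ≤ ‖y - η‖ ^ 2 := sq_nonneg _
        linarith only [h3, h7, mul_nonneg (sub_nonneg.2 h6) h7, sq_nonneg (t ^ 2), sq_nonneg (‖y - η‖ ^ 2)]
      have h8 : kk t (y - η) ≤ 2 / (1 / 2 : ℝ) ^ d := by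
        refine (kk_le t ht0 _).trans ?_
        have := ht.1
        have := ht.2
        gcongr
      exact mul_le_mul h5 h8 h2 (by norm_num)
    · refine Filter.Eventually.of_forall ?_
      intro η
      refine ContinuousOn.mul (ContinuousOn.div continuousOn_const (by fun_prop) ?_)
        ((kk_cont d (y - η)).mono ?_)
      · intro t ht
        have ht0 : 0 < t := lt_of_lt_of_le (by norm_num) ht.1
        positivity
      · intro t ht
        exact lt_of_lt_of_le (by norm_num) ht.1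
  · have h1 : ContinuousOn (fun t : ℝ => VV μ (t, y)) (Icc (1 / 2) 2) := by
      refine h.continuousOn.comp (by fun_prop) ?_
      intro t ht
      exact lt_of_lt_of_le (by norm_num) ht.1
    exact h1
  · intro t ht
    exact (hpos t y (lt_of_lt_of_le (by norm_num) ht.1)).ne'

theorem tau_cont (t : ℝ) : Continuous (tau t) := by
  unfold tau
  fun_prop

theorem tau_nonneg (t r : ℝ) : 0 ≤ tau t r := le_max_left _ _

end GNaux

open _root_.TG.GNaux in
/-- MODULE GN -/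
theorem stmtGN (h : StmtTH) (h1 : StmtGI) (h2 : StmtGP) : StmtGN := by
  intro d J hd hJ M
  obtain ⟨ε0, hε0, H⟩ := h2 d J hd hJ M
  refine ⟨min ε0 1, lt_min hε0 one_pos, ?_⟩
  intro ε hε hεle
  obtain ⟨c, hc, H⟩ := H ε hε (hεle.trans (min_le_left _ _))
  refine ⟨c, hc, ?_⟩
  intro β hβ C' μ hC' hμ n hn y
  obtain ⟨C, hC, HTH⟩ := h d 0 hd C' hC'
  obtain ⟨hp, hsm, -⟩ := HTH μ hμ
  have hpos : ∀ (t : ℝ) (x : Sp d), 0 < t → 0 < vv μ t x := fun t x ht =>
    Real.sqrt_pos.2 (hp t x ht).1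
  have hsm' : ContDiffOn ℝ ∞ (VV μ) {p | 0 < p.1} := hsm
  have := hμ.fin
  have hβc : Continuous β := hβ.prof.smooth.continuous
  have hβs := hβ.prof.supp
  have hsub : Icc (1 / 2 : ℝ) 2 ⊆ Ioi 0 := by
    intro t ht
    exact lt_of_lt_of_le (by norm_num) ht.1
  have hle : (1 / 2 : ℝ) ≤ 2 := by norm_num
  have hu : uIcc (1 / 2 : ℝ) 2 = Icc (1 / 2) 2 := uIcc_of_le hle
  have i1 : IntervalIntegrable (fun r => tau 1 r * X1 β ε μ n r y) volume (1 / 2) 2 := by
    refine ContinuousOn.intervalIntegrable ?_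
    rw [hu]
    exact (tau_cont 1).continuousOn.mul ((cont_X1 μ hsm' hpos β hβc hβs ε n y).mono hsub)
  have i2 : IntervalIntegrable (fun r => tau 1 r * X2 μ n r y) volume (1 / 2) 2 := by
    refine ContinuousOn.intervalIntegrable ?_
    rw [hu]
    exact (tau_cont 1).continuousOn.mul (cont_X2 μ hsm' hpos n y hn)
  have i3 : IntervalIntegrable (fun r => tau 1 r * X3 β ε μ n r y) volume (1 / 2) 2 := by
    refine ContinuousOn.intervalIntegrable ?_
    rw [hu]
    exact (tau_cont 1).continuousOn.mul ((cont_X3 μ hsm' hpos β hβc hβs ε n y).mono hsub)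
  have ig : IntervalIntegrable (fun r => tau 1 r * gr β ε μ n r y) volume (1 / 2) 2 := by
    refine ContinuousOn.intervalIntegrable ?_
    rw [hu]
    exact (tau_cont 1).continuousOn.mul ((cont_gr μ hsm' β hβc hβs ε n y).mono hsub)
  rw [h1 d J hd hJ M ε hε (hεle.trans (min_le_right _ _)) β hβ C' μ hC' hμ n hn y]
  have hXX : c * XX β ε μ n 1 y = ∫ r in (1 / 2 : ℝ)..2,
      c * (tau 1 r * X1 β ε μ n r y + tau 1 r * X2 μ n r y + tau 1 r * X3 β ε μ n r y) := by
    rw [intervalIntegral.integral_const_mul,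
      intervalIntegral.integral_add (i1.add i2) i3, intervalIntegral.integral_add i1 i2]
    unfold XX tav
    norm_num
  rw [hXX]
  refine intervalIntegral.integral_mono_on hle (((i1.add i2).add i3).const_mul c) ig ?_
  intro r hr
  have h5 := H β hβ C' μ hC' hμ n hn r y hr.1 hr.2
  have h6 := mul_le_mul_of_nonneg_left h5 (tau_nonneg 1 r)
  calc _ = tau 1 r * (c * (X1 β ε μ n r y + X2 μ n r y + X3 β ε μ n r y)) := by ring
    _ ≤ _ := h6

end

end TG


end

section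

/-!
# MODULE FG: a plane far from the near part of the measure has a large gain (helper76)
-/

open MeasureTheory Metric Set TrI
open scoped InnerProductSpace ContDiff

namespace TG

namespace FGm

noncomputable section

variable {d : ℕ}

lemma finrank_perp {n : Sp d} (hn : ‖n‖ = 1) :
    Module.finrank ℝ (Submodule.span ℝ {n})ᗮ = d - 1 := by
  have h0 : n ≠ 0 := by
    rintro rfl
    simp at hn
  have h1 := Submodule.finrank_add_finrank_orthogonal (Submodule.span ℝ {n})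
  rw [finrank_span_singleton h0, finrank_euclideanSpace_fin] at h1
  omega

/-- the volume of the unit ball of a hyperplane -/
def vb (d : ℕ) : ℝ :=
  Real.sqrt Real.pi ^ (d - 1) / Real.Gamma (((d - 1 : ℕ) : ℝ) / 2 + 1)

lemma vb_pos (d : ℕ) : 0 < vb d := by
  unfold vb
  have : 0 < Real.Gamma (((d - 1 : ℕ) : ℝ) / 2 + 1) := Real.Gamma_pos_of_pos (by positivity)
  positivity

lemma vol_ball {n : Sp d} (hd : 2 ≤ d) (hn : ‖n‖ = 1) :
    (volume (closedBall (0 : (Submodule.span ℝ {n})ᗮ) 1)).toReal = vb d := by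
  have hf := finrank_perp hn
  have : Nontrivial (Submodule.span ℝ {n})ᗮ :=
    Module.nontrivial_of_finrank_pos (R := ℝ) (by omega)
  rw [InnerProductSpace.volume_closedBall, hf, ENNReal.toReal_mul, ENNReal.toReal_pow,
    ENNReal.toReal_ofReal zero_le_one, one_pow, one_mul,
    ENNReal.toReal_ofReal (by have := vb_pos d; unfold vb at this; exact this.le)]
  rfl

/-- lower bound for plane integrals -/
lemma plInt_low {n : Sp d} (hd : 2 ≤ d) (hn : ‖n‖ = 1) (s : ℝ) {F : Sp d → ℝ}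
    (hF : Continuous F) (hc : HasCompactSupport F) (h0 : ∀ x, 0 ≤ F x) {m : ℝ}
    (hm : ∀ x, ⟪n, x⟫_ℝ = s → ‖x‖ ≤ |s| + 1 → m ≤ F x) : m * vb d ≤ plInt n s F := by
  have hiso : Topology.IsClosedEmbedding
      (fun y : (Submodule.span ℝ {n})ᗮ => s • n + (y : Sp d)) :=
    Isometry.isClosedEmbedding (Isometry.of_dist_eq fun a b => by
      rw [dist_add_left]
      rfl)
  have hcont : Continuous (fun y : (Submodule.span ℝ {n})ᗮ => F (s • n + (y : Sp d))) :=
    hF.comp hiso.continuous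
  have hcs : HasCompactSupport (fun y : (Submodule.span ℝ {n})ᗮ => F (s • n + (y : Sp d))) :=
    hc.comp_isClosedEmbedding hiso
  have hint : Integrable (fun y : (Submodule.span ℝ {n})ᗮ => F (s • n + (y : Sp d))) :=
    hcont.integrable_of_hasCompactSupport hcs
  unfold plInt
  calc m * vb d = ∫ _y in closedBall (0 : (Submodule.span ℝ {n})ᗮ) 1, m := by
        rw [setIntegral_const, smul_eq_mul, Measure.real, vol_ball hd hn, mul_comm]
    _ ≤ ∫ y in closedBall (0 : (Submodule.span ℝ {n})ᗮ) 1, F (s • n + (y : Sp d)) := by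
        refine setIntegral_mono_on (integrableOn_const measure_closedBall_lt_top.ne)
          hint.integrableOn measurableSet_closedBall fun y hy => hm _ ?_ ?_
        · have h1 : ⟪n, (y : Sp d)⟫_ℝ = 0 :=
            Submodule.mem_orthogonal_singleton_iff_inner_right.1 y.2
          rw [inner_add_right, h1, inner_smul_right, real_inner_self_eq_norm_sq, hn]
          ring
        · refine (norm_add_le _ _).trans ?_
          rw [norm_smul, hn, mul_one, Real.norm_eq_abs]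
          have : ‖y‖ ≤ 1 := by simpa using hy
          have h2 : ‖(y : Sp d)‖ = ‖y‖ := rfl
          rw [h2]
          linarith
    _ ≤ ∫ y : (Submodule.span ℝ {n})ᗮ, F (s • n + (y : Sp d)) :=
        setIntegral_le_integral hint (Filter.Eventually.of_forall fun y => h0 _)

lemma cut_le (r : ℝ) : cut r ≤ 1 := by
  unfold cut
  exact pow_le_one₀ (Real.smoothTransition.nonneg _) (Real.smoothTransition.le_one _)

lemma cut_nonneg (r : ℝ) : 0 ≤ cut r := sq_nonneg _

lemma cut_zero {r : ℝ} (hr : 1 ≤ r) : cut r = 0 := by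
  unfold cut
  rw [Real.smoothTransition.zero_of_nonpos (by linarith)]
  norm_num

lemma cut_cont : Continuous cut := by
  unfold cut
  exact (Real.smoothTransition.continuous.comp (by fun_prop)).pow 2

/-- the integrand of X2 is integrable -/
lemma int_X2 (μ : Measure (Sp d)) [IsFiniteMeasure μ] {n : Sp d} (hn : ‖n‖ = 1) (x : Sp d)
    {t : ℝ} (ht1 : 1 ≤ t) : Integrable (fun η => ⟪η - x, n⟫_ℝ ^ 2 /
      (t ^ 2 + ‖x - η‖ ^ 2) ^ 2 * kk t (x - η)) μ := by
  have ht0 : 0 < t := by linarith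
  refine Integrable.of_bound (C := 1 * (t / t ^ d)) ?_ (Filter.Eventually.of_forall fun η => ?_)
  · refine Continuous.aestronglyMeasurable ?_
    refine Continuous.mul (Continuous.div (by fun_prop) (by fun_prop) ?_)
      (GNaux.kk_meas t ht0 x)
    intro η
    positivity
  · have h1 : 0 ≤ ⟪η - x, n⟫_ℝ ^ 2 / (t ^ 2 + ‖x - η‖ ^ 2) ^ 2 := by positivity
    have h2 := kk_nonneg ht0.le (x - η)
    rw [Real.norm_of_nonneg (mul_nonneg h1 h2)]
    have h3 : ⟪η - x, n⟫_ℝ ^ 2 ≤ ‖x - η‖ ^ 2 := by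
      have h4 := abs_real_inner_le_norm (η - x) n
      rw [hn, mul_one, norm_sub_rev] at h4
      rw [← sq_abs]
      gcongr
    have h5 : ⟪η - x, n⟫_ℝ ^ 2 / (t ^ 2 + ‖x - η‖ ^ 2) ^ 2 ≤ 1 := by
      rw [div_le_one₀ (by positivity)]
      have h6 : (1 : ℝ) ≤ t ^ 2 := one_le_pow₀ ht1
      have h7 : 0 ≤ ‖x - η‖ ^ 2 := sq_nonneg _
      have h8 : 1 ≤ t ^ 2 + ‖x - η‖ ^ 2 := by linarith
      calc ⟪η - x, n⟫_ℝ ^ 2 ≤ ‖x - η‖ ^ 2 := h3
        _ ≤ t ^ 2 + ‖x - η‖ ^ 2 := by linarith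
        _ ≤ (t ^ 2 + ‖x - η‖ ^ 2) ^ 2 := le_self_pow₀ h8 (by norm_num)
    exact mul_le_mul h5 (GNaux.kk_le t ht0 _) h2 (by norm_num)

/-- pointwise comparison with the near part -/
lemma ptw {A Ra Q : ℝ} (hA : 1 ≤ A) (hRa : 0 < Ra)
    (hQ : Q = 256 ^ 2 + (Ra + 1 + (A + d)) ^ 2) {n : Sp d} {s : ℝ} (hn : ‖n‖ = 1)
    (hs : A + d + 1 ≤ |s|) {x y : Sp d} (hy : ‖y‖ ≤ d) (hx : ⟪n, x⟫_ℝ = s) (hxR : ‖x‖ ≤ Ra + 1)
    {t : ℝ} (ht1 : 64 ≤ t) (ht2 : t ≤ 256) (η : Sp d) :
    1 / Q ^ 2 * (64 / Real.sqrt Q ^ d) * (cut (‖y - η‖ / (A * 1)) * kk 1 (y - η)) ≤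
      ⟪η - x, n⟫_ℝ ^ 2 / (t ^ 2 + ‖x - η‖ ^ 2) ^ 2 * kk t (x - η) := by
  have hd0 : (0 : ℝ) ≤ d := Nat.cast_nonneg d
  have hQ0 : 0 < Q := by rw [hQ]; positivity
  have ht0 : 0 < t := by linarith
  by_cases hη : ‖y - η‖ ≤ A
  · have e1 : ‖η‖ ≤ A + d := by
      have : η = y - (y - η) := by abel
      rw [this]
      exact (norm_sub_le _ _).trans (by linarith)
    have e2 : 1 ≤ |⟪η - x, n⟫_ℝ| := by
      rw [inner_sub_left, real_inner_comm n x, hx]
      have a1 : |⟪η, n⟫_ℝ| ≤ A + d := by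
        refine (abs_real_inner_le_norm _ _).trans ?_
        rw [hn, mul_one]
        exact e1
      have a2 := abs_sub_abs_le_abs_sub s ⟪η, n⟫_ℝ
      rw [abs_sub_comm] at a2
      linarith
    have e3 : 1 ≤ ⟪η - x, n⟫_ℝ ^ 2 := by
      rw [← sq_abs]
      exact one_le_pow₀ e2
    have e4 : ‖x - η‖ ≤ Ra + 1 + (A + d) := (norm_sub_le _ _).trans (by linarith)
    have e5 : t ^ 2 + ‖x - η‖ ^ 2 ≤ Q := by
      rw [hQ]
      (clear * - ht1 ht2 e4; gcongr)
    have e6 : 1 / Q ^ 2 ≤ ⟪η - x, n⟫_ℝ ^ 2 / (t ^ 2 + ‖x - η‖ ^ 2) ^ 2 := by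
      have : 0 < t ^ 2 + ‖x - η‖ ^ 2 := by positivity
      (clear * - e3 ht1 e5; gcongr)
    have e7 : 64 / Real.sqrt Q ^ d ≤ kk t (x - η) := by
      unfold kk
      have : 0 < Real.sqrt (t ^ 2 + ‖x - η‖ ^ 2) := Real.sqrt_pos.2 (by positivity)
      (clear * - ht1 e5; gcongr)
    have e8 : cut (‖y - η‖ / (A * 1)) * kk 1 (y - η) ≤ 1 := by
      have a1 : kk 1 (y - η) ≤ 1 := by
        have := GNaux.kk_le 1 one_pos (y - η)
        simpa using this
      exact mul_le_one₀ (cut_le _) (kk_nonneg zero_le_one _) a1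
    calc 1 / Q ^ 2 * (64 / Real.sqrt Q ^ d) * (cut (‖y - η‖ / (A * 1)) * kk 1 (y - η)) ≤
        1 / Q ^ 2 * (64 / Real.sqrt Q ^ d) * 1 := by gcongr
      _ = 1 / Q ^ 2 * (64 / Real.sqrt Q ^ d) := by rw [mul_one]
      _ ≤ _ := mul_le_mul e6 e7 (by positivity) (by positivity)
  · rw [cut_zero, zero_mul, mul_zero]
    · exact mul_nonneg (by positivity) (kk_nonneg ht0.le _)
    · rw [mul_one, le_div_iff₀ (by linarith), one_mul]
      linarith

/-- v at time t and x against v at time 1 and 0 -/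
lemma th_up {C Ra : ℝ} {μ : Measure (Sp d)} (hC : 0 < C) (hRa : 0 < Ra)
    (T1 : ∀ (t : ℝ) (x : Sp d), 0 < t → 0 < th μ t x ∧ th μ t x ≤ C)
    (T4 : ∀ (t : ℝ) (x x' : Sp d), 0 < t → th μ t x' ≤ (1 + ‖x - x'‖ / t) ^ d * th μ t x)
    (T5 : ∀ (s t : ℝ) (x : Sp d), 0 < t → t / 8 ≤ s → s ≤ 8 * t → th μ s x ≤ C * th μ t x)
    {x : Sp d} (hxR : ‖x‖ ≤ Ra + 1) {t : ℝ} (ht1 : 64 ≤ t) (ht2 : t ≤ 256) :
    th μ t x ≤ (1 + (Ra + 1)) ^ d * (C * (C * C)) * th μ 1 0 := by
  have ht0 : 0 < t := by linarith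
  have a1 := T4 t 0 x ht0
  rw [zero_sub, norm_neg] at a1
  have a2 : (1 + ‖x‖ / t) ^ d ≤ (1 + (Ra + 1)) ^ d := by
    have : ‖x‖ / t ≤ Ra + 1 := by
      rw [div_le_iff₀ ht0]
      calc ‖x‖ ≤ Ra + 1 := hxR
        _ = (Ra + 1) * 1 := (mul_one _).symm
        _ ≤ (Ra + 1) * t := by gcongr; linarith
    gcongr
  have b1 : th μ t 0 ≤ C * th μ (t / 8) 0 := T5 t (t / 8) 0 (by positivity) (by linarith)
    (by linarith)
  have b2 : th μ (t / 8) 0 ≤ C * th μ (t / 64) 0 :=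
    T5 (t / 8) (t / 64) 0 (by positivity) (by linarith) (by linarith)
  have b3 : th μ (t / 64) 0 ≤ C * th μ 1 0 :=
    T5 (t / 64) 1 0 (by norm_num) (by linarith) (by linarith)
  have hp := (T1 1 0 one_pos).1
  have b4 : th μ t 0 ≤ C * (C * C) * th μ 1 0 := by
    calc th μ t 0 ≤ C * th μ (t / 8) 0 := b1
      _ ≤ C * (C * th μ (t / 64) 0) := by gcongr
      _ ≤ C * (C * (C * th μ 1 0)) := by gcongr
      _ = _ := by ring
  have hpt := (T1 t 0 ht0).1
  calc th μ t x ≤ (1 + ‖x‖ / t) ^ d * th μ t 0 := a1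
    _ ≤ (1 + (Ra + 1)) ^ d * (C * (C * C) * th μ 1 0) := by gcongr
    _ = _ := by ring

/-- pointwise lower bound of X2 -/
lemma X2_low (h : StmtTH) (hd : 2 ≤ d) {C' p0 A Ra : ℝ} (hC' : 0 < C') (hp0 : 0 < p0)
    (hA : 1 ≤ A) (hRa : 0 < Ra) : ∃ c : ℝ, 0 < c ∧ ∀ μ : Measure (Sp d), Gro C' μ →
      ∀ (n : Sp d) (s : ℝ), ‖n‖ = 1 → A + d + 1 ≤ |s| →
      ∀ y : Sp d, ‖y‖ ≤ d → p0 / 2 ≤ qq A μ 1 y → ∀ x : Sp d, ⟪n, x⟫_ℝ = s → ‖x‖ ≤ Ra + 1 →
      ∀ t : ℝ, 64 ≤ t → t ≤ 256 → c * vv μ 1 0 ≤ X2 μ n t x := by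
  obtain ⟨C, hC, hTH⟩ := h d 0 hd C' hC'
  set Q : ℝ := 256 ^ 2 + (Ra + 1 + (A + d)) ^ 2 with hQ
  have hQ0 : 0 < Q := by positivity
  set c1 : ℝ := 1 / Q ^ 2 * (64 / Real.sqrt Q ^ d) with hc1
  have hc1p : 0 < c1 := by positivity
  set c2 : ℝ := c1 * (p0 / 2 / (1 + d) ^ d) with hc2
  have hc2p : 0 < c2 := by positivity
  set K : ℝ := (1 + (Ra + 1)) ^ d * (C * (C * C)) with hK
  have hKp : 0 < K := by positivity
  refine ⟨c2 / Real.sqrt K, by positivity, ?_⟩
  intro μ hμ n s hn hs y hy hq x hx hxR t ht1 ht2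
  obtain ⟨T1, -, -, T4, T5⟩ := hTH μ hμ
  have := hμ.fin
  have ht0 : 0 < t := by linarith only [ht1]
  have hv : th μ t x ≤ K * th μ 1 0 := th_up hC hRa T1 T4 T5 hxR ht1 ht2
  -- th at y against th at 0
  have hy0 : th μ 1 0 ≤ (1 + d) ^ d * th μ 1 y := by
    have a1 := T4 1 y 0 one_pos
    rw [sub_zero, div_one] at a1
    have hp := (T1 1 y one_pos).1
    refine a1.trans ?_
    (clear * - hy hp; gcongr)
  -- the numerator
  have hnum : c2 * th μ 1 0 ≤
      ∫ η, ⟪η - x, n⟫_ℝ ^ 2 / (t ^ 2 + ‖x - η‖ ^ 2) ^ 2 * kk t (x - η) ∂μ := by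
    have i1 := int_X2 μ hn x (t := t) (by linarith)
    have hq' : p0 / 2 * th μ 1 y ≤ ∫ η, cut (‖y - η‖ / (A * 1)) * kk 1 (y - η) ∂μ := by
      unfold qq at hq
      exact (le_div_iff₀ (T1 1 y one_pos).1).1 hq
    have hle : c1 * ∫ η, cut (‖y - η‖ / (A * 1)) * kk 1 (y - η) ∂μ ≤
        ∫ η, ⟪η - x, n⟫_ℝ ^ 2 / (t ^ 2 + ‖x - η‖ ^ 2) ^ 2 * kk t (x - η) ∂μ := by
      rw [← integral_const_mul]
      refine integral_mono_of_nonneg (Filter.Eventually.of_forall fun η => ?_) i1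
        (Filter.Eventually.of_forall fun η => ?_)
      · exact mul_nonneg hc1p.le (mul_nonneg (cut_nonneg _) (kk_nonneg zero_le_one _))
      · exact ptw hA hRa hQ hn hs hy hx hxR ht1 ht2 η
    refine le_trans ?_ hle
    calc c2 * th μ 1 0 ≤ c2 * ((1 + d) ^ d * th μ 1 y) := by gcongr
      _ = c1 * (p0 / 2 * th μ 1 y) := by
        rw [hc2]
        field_simp
      _ ≤ _ := by gcongr
  -- conclusion
  have hpos := (T1 1 0 one_pos).1
  have hvx : 0 < vv μ t x := Real.sqrt_pos.2 (T1 t x ht0).1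
  have hvv : vv μ t x ≤ Real.sqrt K * vv μ 1 0 := by
    unfold vv
    rw [← Real.sqrt_mul hKp.le]
    exact Real.sqrt_le_sqrt hv
  have hsq : vv μ 1 0 * vv μ 1 0 = th μ 1 0 := Real.mul_self_sqrt hpos.le
  have hv0 : 0 < vv μ 1 0 := Real.sqrt_pos.2 hpos
  unfold X2
  rw [le_div_iff₀ hvx]
  have hsK : 0 < Real.sqrt K := Real.sqrt_pos.2 hKp
  calc c2 / Real.sqrt K * vv μ 1 0 * vv μ t x ≤
      c2 / Real.sqrt K * vv μ 1 0 * (Real.sqrt K * vv μ 1 0) := by gcongr
    _ = c2 * (vv μ 1 0 * vv μ 1 0) := by field_simp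
    _ = c2 * th μ 1 0 := by rw [hsq]
    _ ≤ _ := hnum

lemma tau_pos {r : ℝ} (h1 : 1 / 2 < r) (h2 : r < 2) : 0 < tau 1 r := by
  unfold tau
  refine lt_max_of_lt_right (lt_min ?_ ?_) <;> linarith

/-- the integral of the tent -/
def ct : ℝ := ∫ r in (1 / 2 : ℝ)..2, tau 1 r

lemma ct_pos : 0 < ct := by
  unfold ct
  refine intervalIntegral.intervalIntegral_pos_of_pos_on
    ((GNaux.tau_cont 1).intervalIntegrable _ _) (fun r hr => tau_pos hr.1 hr.2) (by norm_num)

lemma zR_cont (R : ℝ) : Continuous (zR (d := d) R) := by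
  unfold zR
  exact Real.smoothTransition.continuous.comp (by fun_prop)

lemma zR_nonneg (R : ℝ) (x : Sp d) : 0 ≤ zR R x := Real.smoothTransition.nonneg _

lemma zR_one {R : ℝ} {x : Sp d} (h : ‖x‖ ≤ R) : zR R x = 1 :=
  Real.smoothTransition.one_of_one_le (by linarith)

lemma zR_compact (R : ℝ) : HasCompactSupport (zR (d := d) R) := by
  refine HasCompactSupport.of_support_subset_isCompact (isCompact_closedBall (0 : Sp d) (R + 1)) ?_
  intro x hx
  rw [mem_closedBall_zero_iff]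
  by_contra hcon
  push Not at hcon
  exact hx (Real.smoothTransition.zero_of_nonpos (by linarith))

end

end FGm

open _root_.TG.FGm in
/-- MODULE FG -/
theorem stmtFG (h : StmtTH) : StmtFG := by
  intro d hd M C' ε p0 A Ra hC' hε hε4 hp0 hp01 hA hRa
  obtain ⟨c, hc, hlow⟩ := X2_low h hd hC' hp0 hA hRa
  obtain ⟨C1, hC1, hWA⟩ := stmtWA h d 6 hd M C' ε hC' hε (by linarith)
  have hct := ct_pos
  have hvb := vb_pos d
  refine ⟨2 ^ 14 * c * ct * vb d, by positivity, ?_⟩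
  intro β hβ μ hμ n s hn hs1 hs2 ⟨y, hy, hq⟩
  have h128 : (0 : ℝ) < 2 ^ 7 := by positivity
  obtain ⟨hμ', -⟩ := (stmtSC d hd C' hC' 0 (2 ^ 7) h128).1 μ hμ
  obtain ⟨-, -, -, -, hW⟩ := hWA β hβ (rsm 0 (2 ^ 7) μ) hμ'
  obtain ⟨hsm, hnn, -, -, -, -⟩ := hW n hn
  obtain ⟨CT, hCT, hTH⟩ := h d 2 hd C' hC'
  obtain ⟨T1', T2', -, -, -⟩ := hTH (rsm 0 (2 ^ 7) μ) hμ'
  have hv0 : 0 ≤ vv μ 1 0 := Real.sqrt_nonneg _
  have hXX : ∀ x : Sp d, XX β ε μ n (2 ^ 7) x =
      XX β ε (rsm 0 (2 ^ 7) μ) n 1 ((1 / 2 ^ 7 : ℝ) • x) := by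
    intro x
    rw [SC.XX_rsm β ε 0 h128, mul_one, zero_add, smul_smul]
    norm_num
  have hfin := hμ'.fin
  have hlowX : ∀ x : Sp d, ⟪n, x⟫_ℝ = s → ‖x‖ ≤ Ra + 1 →
      2 ^ 14 * c * ct * vv μ 1 0 ≤ XX β ε μ n (2 ^ 7) x := by
    intro x hx hxR
    rw [hXX]
    have e1 : tav (X2 (rsm 0 (2 ^ 7) μ) n) 1 ((1 / 2 ^ 7 : ℝ) • x) ≤
        XX β ε (rsm 0 (2 ^ 7) μ) n 1 ((1 / 2 ^ 7 : ℝ) • x) := by
      have a1 := tav_nonneg (fun t y _ => X1_nonneg hβ ε (rsm 0 (2 ^ 7) μ) n t y)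
        ((1 / 2 ^ 7 : ℝ) • x)
      have a3 := tav_nonneg (fun t y _ => X3_nonneg hβ ε (rsm 0 (2 ^ 7) μ) n t y)
        ((1 / 2 ^ 7 : ℝ) • x)
      unfold XX
      linarith
    refine le_trans ?_ e1
    have hVV : ∀ r ∈ Icc (1 / 2 : ℝ) 2, 2 ^ 14 * (c * vv μ 1 0) ≤
        X2 (rsm 0 (2 ^ 7) μ) n r ((1 / 2 ^ 7 : ℝ) • x) := by
      intro r hr
      rw [SC.X2_rsm 0 h128, zero_add, smul_smul]
      have e2 : ((2 : ℝ) ^ 7 * (1 / 2 ^ 7)) • x = x := by norm_num
      rw [e2]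
      have := hlow μ hμ n s hn hs1 y hy hq x hx hxR (2 ^ 7 * r) (by linarith [hr.1])
        (by linarith [hr.2])
      linarith only [this]
    unfold tav
    have e3 : 2 ^ 14 * c * ct * vv μ 1 0 =
        ∫ r in (1 / 2 : ℝ)..2, tau 1 r * (2 ^ 14 * (c * vv μ 1 0)) := by
      rw [intervalIntegral.integral_mul_const]
      unfold ct
      ring
    rw [e3, mul_one]
    refine intervalIntegral.integral_mono_on (by norm_num)
      (((GNaux.tau_cont 1).mul continuous_const).intervalIntegrable _ _) ?_ ?_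
    · have hcX := GNaux.cont_X2 (rsm 0 (2 ^ 7) μ) T2'
        (fun t x ht => Real.sqrt_pos.2 (T1' t x ht).1) n ((1 / 2 ^ 7 : ℝ) • x) hn
      refine ContinuousOn.intervalIntegrable ?_
      rw [uIcc_of_le (by norm_num)]
      exact (GNaux.tau_cont 1).continuousOn.mul hcX
    · intro r hr
      exact mul_le_mul_of_nonneg_left (hVV r hr) (GNaux.tau_nonneg _ _)
  have hcXX : Continuous (XX β ε μ n (2 ^ 7)) := by
    have : XX β ε μ n (2 ^ 7) = fun x => XX β ε (rsm 0 (2 ^ 7) μ) n 1 ((1 / 2 ^ 7 : ℝ) • x) :=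
      funext hXX
    rw [this]
    exact hsm.continuous.comp (by fun_prop)
  have hfinal := plInt_low hd hn s (F := fun x => zR (Ra + 1) x * XX β ε μ n (2 ^ 7) x)
    ((zR_cont _).mul hcXX) ((zR_compact _).mul_right)
    (fun x => mul_nonneg (zR_nonneg _ _) (by rw [hXX]; exact hnn _))
    (m := 2 ^ 14 * c * ct * vv μ 1 0) (fun x hx hxs => by
      rw [zR_one (by linarith), one_mul]
      exact hlowX x hx (by linarith))
  calc 2 ^ 14 * c * ct * vb d * vv μ 1 0 = 2 ^ 14 * c * ct * vv μ 1 0 * vb d := by ring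
    _ ≤ _ := hfinal

end TG


end
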