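import Mathlib
import Pool.Agent.TRM.C02
import Pool.Agent.TRM.C04
import Pool.Agent.TRM.C07
import Pool.Agent.TRM.C08
import Pool.Agent.TRM.C10
import Pool.Agent.TRM.C11
import Pool.Agent.TRM.C12
import Pool.Agent.TRM.C13
import Pool.Agent.TRM.C15
import Pool.Agent.TRM.C16

/-! Parts: TG.SE, TG.CT1, TG.CT7, TG.LS, TG.Stmts18, TG.TA2, TG.TC, TG.P1a -/

section

/-!
# Trace inequality, general operators: scaling of q, Υ and H_n (module SE)
-/

open MeasureTheory Metric Set TrI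
open scoped InnerProductSpace ContDiff

namespace TG

noncomputable section

namespace SE

variable {d : ℕ}

lemma qq_rsm (A : ℝ) (x : Sp d) {t : ℝ} (ht : 0 < t) (μ : Measure (Sp d)) (r : ℝ) (y : Sp d) :
    qq A (rsm x t μ) r y = qq A μ (t * r) (x + t • y) := by
  unfold qq
  rw [SC.integral_rsm x ht, SC.th_rsm x ht]
  have h1 : ∀ η : Sp d, cut (‖y - (1 / t) • (η - x)‖ / (A * r)) * kk r (y - (1 / t) • (η - x)) =
      t ^ d / t * (cut (‖x + t • y - η‖ / (A * (t * r))) * kk (t * r) (x + t • y - η)) := by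
    intro η
    rw [SC.arg_scale ht, SC.kk_scale ht]
    have e1 : ‖(1 / t) • (x + t • y - η)‖ / (A * r) = ‖x + t • y - η‖ / (A * (t * r)) := by
      rw [norm_smul, Real.norm_of_nonneg (by positivity), one_div, inv_mul_eq_div, div_div]
      congr 1
      ring
    rw [e1]
    ring
  simp_rw [h1]
  rw [integral_const_mul, ← mul_assoc]
  have : t / t ^ d * (t ^ d / t) = 1 := by field_simp
  rw [this, one_mul]

lemma Ups_rsm (p0 A : ℝ) (x : Sp d) {t : ℝ} (ht : 0 < t) (μ : Measure (Sp d)) (r : ℝ)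
    (y : Sp d) : Ups p0 A (rsm x t μ) r y = Ups p0 A μ (t * r) (x + t • y) := by
  unfold Ups
  rw [qq_rsm A x ht]

lemma gradient_const (g : Sp d → ℝ) {a : ℝ} (ha : a ≠ 0) (y : Sp d) :
    gradient (fun y => a * g y) y = a • gradient g y := by
  set e : ℝ ≃L[ℝ] ℝ := ContinuousLinearEquiv.smulLeft (Units.mk0 a ha) with he
  have h1 : (fun y => a * g y) = e ∘ g := by
    funext z
    rfl
  have h2 : fderiv ℝ (fun y => a * g y) y = a • fderiv ℝ g y := by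
    rw [h1, e.comp_fderiv]
    ext z
    rfl
  unfold gradient
  rw [h2, map_smulₛₗ]
  rfl

lemma Hn_rsm (β : Sp d → ℝ) (ε p0 A : ℝ) (x : Sp d) {t : ℝ} (ht : 0 < t) (μ : Measure (Sp d))
    (n : Sp d) (r : ℝ) (y : Sp d) :
    Hn β ε p0 A (rsm x t μ) n r y = Hn β ε p0 A μ n (t * r) (x + t • y) := by
  unfold Hn
  have h1 : WW β ε (rsm x t μ) r = fun y => 1 / t ^ 2 * WW β ε μ (t * r) (x + t • y) :=
    funext fun y => SC.WW_rsm β ε x ht μ r y
  have h2 : Ups p0 A (rsm x t μ) r = fun y => Ups p0 A μ (t * r) (x + t • y) :=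
    funext fun y => Ups_rsm p0 A x ht μ r y
  have h3 : gradient (WW β ε (rsm x t μ) r) y =
      (1 / t) • gradient (WW β ε μ (t * r)) (x + t • y) := by
    rw [h1, gradient_const (fun y => WW β ε μ (t * r) (x + t • y)) (by positivity),
      SC.gradient_aff, smul_smul]
    congr 1
    field_simp
  have h4 : gradient (Ups p0 A (rsm x t μ) r) y =
      t • gradient (Ups p0 A μ (t * r)) (x + t • y) := by
    rw [h2, SC.gradient_aff]
  rw [Ups_rsm p0 A x ht, SC.gn_rsm β ε x ht, SC.GG_rsm β ε x ht, h3, h4, SC.tang_smul,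
    SC.tang_smul, real_inner_smul_left, real_inner_smul_right, ← mul_assoc,
    mul_one_div_cancel ht.ne', one_mul]

end SE

theorem stmtSE (_ : StmtSC) : StmtSE := by
  intro d _ C' _ x t ht μ _ M β _ ε _ _ p0 A _ _ r y _
  exact ⟨SE.qq_rsm A x ht μ r y, SE.Ups_rsm p0 A x ht μ r y,
    fun n _ => SE.Hn_rsm β ε p0 A x ht μ n r y⟩

end

end TG


end

section

set_option autoImplicit false
set_option linter.unusedSectionVars false

/-!
# Module CT1: the tree facts for mass, tailed mass, gaps and the weights of the measure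
-/

open MeasureTheory Metric Set TrI
open scoped InnerProductSpace ContDiff ENNReal

namespace TG

noncomputable section

namespace CT1

variable {d : ℕ}

/-! ## Geometry of cells -/

lemma norm_le_sqrt (v : Sp d) {L : ℝ} (hL : 0 ≤ L) (h : ∀ j, |v j| ≤ L) :
    ‖v‖ ≤ Real.sqrt d * L := by
  rw [EuclideanSpace.norm_eq]
  have h1 : ∑ j : Fin d, ‖v j‖ ^ 2 ≤ d * L ^ 2 := by
    calc ∑ j : Fin d, ‖v j‖ ^ 2 ≤ ∑ _j : Fin d, L ^ 2 := by
          refine Finset.sum_le_sum fun j _ => ?_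
          rw [Real.norm_eq_abs]
          exact pow_le_pow_left₀ (abs_nonneg _) (h j) 2
      _ = d * L ^ 2 := by simp
  calc Real.sqrt (∑ j : Fin d, ‖v j‖ ^ 2) ≤ Real.sqrt (d * L ^ 2) := Real.sqrt_le_sqrt h1
    _ = Real.sqrt d * L := by
      rw [Real.sqrt_mul (Nat.cast_nonneg d), Real.sqrt_sq hL]

lemma cen_sub_up {s0 : ℝ} (hs : 0 < s0) (i : ℕ) (Q : Cell d) :
    ‖xC s0 Q - xC s0 (up i Q)‖ ≤ Real.sqrt d * lev s0 (Q.1 + i) := by
  refine norm_le_sqrt _ (lev_pos hs _).le fun j => ?_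
  have h0 := lev_pos hs Q.1
  have hl : lev s0 (Q.1 + i) = 2 ^ i * lev s0 Q.1 := lev_add s0 Q.1 i
  have h2 : (0 : ℤ) < 2 ^ i := by positivity
  have h6 := Int.mul_ediv_add_emod (Q.2 j) (2 ^ i)
  have h7 := Int.emod_nonneg (Q.2 j) h2.ne'
  have h8 := Int.emod_lt_of_pos (Q.2 j) h2
  have e1 : (xC s0 Q - xC s0 (up i Q)) j =
      lev s0 Q.1 * ((Q.2 j : ℝ) - 2 ^ i * ((Q.2 j / 2 ^ i : ℤ) : ℝ)) := by
    have : (xC s0 Q - xC s0 (up i Q)) j =
        lev s0 Q.1 * (Q.2 j : ℝ) - lev s0 (Q.1 + i) * ((Q.2 j / 2 ^ i : ℤ) : ℝ) := by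
      simp [xC, cen, up, lat]
    rw [this, hl]
    ring
  have e2 : ((Q.2 j : ℝ) - 2 ^ i * ((Q.2 j / 2 ^ i : ℤ) : ℝ)) = ((Q.2 j % 2 ^ i : ℤ) : ℝ) := by
    have h9 : (Q.2 j : ℤ) - 2 ^ i * (Q.2 j / 2 ^ i) = Q.2 j % 2 ^ i := by linarith
    rw [← h9]
    push_cast
    ring
  rw [e1, e2]
  have h10 : (0 : ℝ) ≤ ((Q.2 j % 2 ^ i : ℤ) : ℝ) := by exact_mod_cast h7
  have h11 : ((Q.2 j % 2 ^ i : ℤ) : ℝ) ≤ 2 ^ i := by exact_mod_cast h8.le
  rw [abs_of_nonneg (mul_nonneg h0.le h10), hl, mul_comm (2 ^ i : ℝ)]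
  exact mul_le_mul_of_nonneg_left h11 h0.le

lemma cen_sub_dn {s0 : ℝ} (hs : 0 < s0) {i : ℕ} {P Q : Cell d} (hi : i ≤ P.1) (hQ : Q ∈ dn i P) :
    ‖xC s0 Q - xC s0 P‖ ≤ Real.sqrt d * lev s0 P.1 := by
  have h := (mem_dn hi).1 hQ
  have h1 := cen_sub_up hs i Q
  rw [h] at h1
  have h2 : Q.1 + i = P.1 := by rw [← h]; rfl
  rwa [h2] at h1

lemma lvl_dn {i : ℕ} {P Q : Cell d} (hQ : Q ∈ dn i P) : Q.1 = P.1 - i := by
  simp only [dn, Finset.mem_product, Finset.mem_singleton] at hQ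
  exact hQ.1

lemma nw_pos {s0 : ℝ} (hs : 0 < s0) (Q : Cell d) : 0 < nw s0 Q := by
  have := lev_pos hs Q.1
  unfold nw
  positivity

lemma cw_nw (hd : 1 ≤ d) {s0 : ℝ} (hs : 0 < s0) (Q : Cell d) : cw s0 Q * nw s0 Q = 1 := by
  have h := lev_pos hs Q.1
  unfold cw nw
  have h1 : lev s0 Q.1 ^ d = lev s0 Q.1 ^ (d - 1) * lev s0 Q.1 := by
    rw [← pow_succ]
    congr 1
    omega
  rw [h1]
  field_simp

lemma MAlev {s0 : ℝ} (hs : 0 < s0) {i j : ℕ} (h : i ≤ j) : lev s0 i ≤ lev s0 j := by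
  unfold lev
  gcongr
  norm_num

/-! ## Overlap for general measures -/

open Classical in
lemma overlap (ν : Measure (Sp d)) (s ρ : ℝ) (hs : 0 < s) (hρ : 0 ≤ ρ) (S : Finset (Fin d → ℤ))
    {g : Sp d → ℝ} {A : Set (Sp d)} (hA : MeasurableSet A) (hg : IntegrableOn g A ν)
    (h0 : ∀ y, 0 ≤ g y) (hsub : ∀ p ∈ S, ball (s • lat p) (ρ * s) ⊆ A) :
    ∑ p ∈ S, ∫ y in ball (s • lat p) (ρ * s), g y ∂ν ≤ (2 * ρ + 1) ^ d * ∫ y in A, g y ∂ν := by
  have hi : Integrable (A.indicator g) ν := (integrable_indicator_iff hA).2 hg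
  have h1 : ∀ p ∈ S, ∫ y in ball (s • lat p) (ρ * s), g y ∂ν =
      ∫ y, (ball (s • lat p) (ρ * s)).indicator (A.indicator g) y ∂ν := by
    intro p hp
    rw [← integral_indicator measurableSet_ball]
    congr 1
    funext y
    rw [Set.indicator_indicator, Set.inter_eq_self_of_subset_left (hsub p hp)]
  rw [Finset.sum_congr rfl h1,
    ← integral_finsetSum _ (fun p _ => hi.indicator measurableSet_ball),
    ← integral_indicator hA, ← integral_const_mul]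
  refine integral_mono (integrable_finsetSum _ (fun p _ => hi.indicator measurableSet_ball))
    (hi.const_mul _) ?_
  intro y
  change ∑ p ∈ S, (ball (s • lat p) (ρ * s)).indicator (A.indicator g) y ≤
    (2 * ρ + 1) ^ d * A.indicator g y
  have h2 : ∀ p ∈ S, (ball (s • lat p) (ρ * s)).indicator (A.indicator g) y =
      if y ∈ ball (s • lat p) (ρ * s) then A.indicator g y else 0 := by
    intro p _
    rw [Set.indicator_apply]
  rw [Finset.sum_congr rfl h2, ← Finset.sum_filter, Finset.sum_const, nsmul_eq_mul]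
  exact mul_le_mul_of_nonneg_right (PK.card_le s ρ hs hρ S y)
    (Set.indicator_nonneg (fun z _ => h0 z) y)

/-- overlap for the descendants of a cell -/
lemma overlap_dn (ν : Measure (Sp d)) {s0 ρ : ℝ} (hs : 0 < s0) (hρ : 0 ≤ ρ) {i : ℕ} {P : Cell d}
    (hi : i ≤ P.1) {g : Sp d → ℝ} {r : ℝ} (hr : Real.sqrt d * lev s0 P.1 + ρ * lev s0 (P.1 - i) ≤ r)
    (hg : IntegrableOn g (ball (xC s0 P) r) ν) (h0 : ∀ y, 0 ≤ g y) :
    ∑ Q ∈ dn i P, ∫ y in ball (xC s0 Q) (ρ * lev s0 Q.1), g y ∂ν ≤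
      (2 * ρ + 1) ^ d * ∫ y in ball (xC s0 P) r, g y ∂ν := by
  have h1 : ∑ Q ∈ dn i P, ∫ y in ball (xC s0 Q) (ρ * lev s0 Q.1), g y ∂ν =
      ∑ p ∈ Fintype.piFinset (fun j => Finset.Ico (2 ^ i * P.2 j) (2 ^ i * (P.2 j + 1))),
        ∫ y in ball (lev s0 (P.1 - i) • lat p) (ρ * lev s0 (P.1 - i)), g y ∂ν := by
    unfold dn
    rw [Finset.sum_product, Finset.sum_singleton]
    rfl
  rw [h1]
  refine overlap ν (lev s0 (P.1 - i)) ρ (lev_pos hs _) hρ _ measurableSet_ball hg h0 ?_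
  intro p hp
  have hQ : ((P.1 - i, p) : Cell d) ∈ dn i P := by
    unfold dn
    rw [Finset.mem_product]
    exact ⟨Finset.mem_singleton.2 rfl, hp⟩
  have h2 := cen_sub_dn hs hi hQ
  have h3 : xC s0 ((P.1 - i, p) : Cell d) = lev s0 (P.1 - i) • lat p := rfl
  rw [h3] at h2
  refine ball_subset_ball' ?_
  rw [dist_eq_norm]
  linarith

/-! ## Gaps -/

section Gaps

variable {E : Type} [NormedAddCommGroup E] [InnerProductSpace ℝ E] [FiniteDimensional ℝ E]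
variable {b : Sp d → ℝ} {M c0 : ℝ}

lemma gm_nonneg (hb : AK b) (ε s0 : ℝ) (f : Sp d → E) (j : ℕ) (y : Sp d) :
    0 ≤ gm b ε s0 f j y := by
  unfold gm
  have := hb.norm_avk_le (fl b ε s0 f j) (ε * lev s0 (j + 1)) y
  have e : fl b ε s0 f (j + 1) y = avk b (ε * lev s0 (j + 1)) (fl b ε s0 f j) y := rfl
  rw [e]
  linarith

lemma gm_cont (hb : AK b) (ε s0 : ℝ) {f : Sp d → E} (hf : Continuous f) (j : ℕ) :
    Continuous (gm b ε s0 f j) :=
  (hb.avk_cont (fl_cont hb ε s0 hf j).norm _).sub (fl_cont hb ε s0 hf (j + 1)).norm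

lemma gm_cs (hb : AK b) (ε s0 : ℝ) {f : Sp d → E} (hc : HasCompactSupport f) (j : ℕ) :
    HasCompactSupport (gm b ε s0 f j) := by
  have h1 := hb.avk_cs (fl_cs hb ε s0 hc j).norm (ε * lev s0 (j + 1))
  have h2 := (fl_cs hb ε s0 hc (j + 1)).norm
  exact h1.sub h2

/-- one step of the transfer -/
lemma step (hb : AK b) (hev : ∀ x, b (-x) = b x) (hρ : ∀ x, 1 / 2 ≤ ‖x‖ → b x = 0) {ε s0 : ℝ}
    (hε : 0 < ε) (hε1 : ε ≤ 1) (hs : 0 < s0) {f : Sp d → E} (hf : Continuous f)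
    (hc : HasCompactSupport f) (x : Sp d) (r : ℝ) (j : ℕ) :
    ∫ y in ball x r, ‖fl b ε s0 f j y‖ ≤
      (∫ y in ball x (r + lev s0 j), ‖fl b ε s0 f (j + 1) y‖) +
        ∫ y in ball x (r + lev s0 j), gm b ε s0 f j y := by
  have hl := lev_pos hs j
  have hl1 := lev_succ s0 j
  have hs' : 0 < ε * lev s0 (j + 1) := mul_pos hε (lev_pos hs _)
  have hn : Continuous (fun y => ‖fl b ε s0 f j y‖) := (fl_cont hb ε s0 hf j).norm
  have h1 := hb.setInt_le_avk hev hρ (LB.of_cont hn) (fl_cs hb ε s0 hc j).norm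
    (fun _ => norm_nonneg _) hs' (E := ball x r) (E' := ball x (r + lev s0 j))
    measurableSet_ball measurableSet_ball (fun y hy z hz => by
      rw [mem_ball] at hy ⊢
      have h2 := dist_triangle z y x
      rw [← dist_eq_norm] at hz
      have h3 : 1 / 2 * (ε * lev s0 (j + 1)) ≤ lev s0 j := by
        rw [hl1]
        nlinarith only [hε1, hl]
      linarith)
  have i1 : Integrable (fun y => ‖fl b ε s0 f (j + 1) y‖) :=
    (fl_cont hb ε s0 hf (j + 1)).norm.integrable_of_hasCompactSupport (fl_cs hb ε s0 hc (j + 1)).norm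
  have i2 : Integrable (gm b ε s0 f j) :=
    (gm_cont hb ε s0 hf j).integrable_of_hasCompactSupport (gm_cs hb ε s0 hc j)
  rw [← integral_add i1.integrableOn i2.integrableOn]
  refine h1.trans (le_of_eq ?_)
  congr 1
  funext y
  unfold gm
  ring

/-- transfer of the mass between two levels -/
lemma transfer (hb : AK b) (hev : ∀ x, b (-x) = b x) (hρ : ∀ x, 1 / 2 ≤ ‖x‖ → b x = 0) {ε s0 : ℝ}
    (hε : 0 < ε) (hε1 : ε ≤ 1) (hs : 0 < s0) {f : Sp d → E} (hf : Continuous f)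
    (hc : HasCompactSupport f) (x : Sp d) (r : ℝ) (l : ℕ) :
    ∀ (k : ℕ) (R' : ℝ), r + (lev s0 (l + k) - lev s0 l) ≤ R' →
    ∫ y in ball x r, ‖fl b ε s0 f l y‖ ≤
      (∫ y in ball x (r + (lev s0 (l + k) - lev s0 l)), ‖fl b ε s0 f (l + k) y‖) +
        ∑ j ∈ Finset.Ico l (l + k), ∫ y in ball x R', gm b ε s0 f j y := by
  intro k
  induction k with
  | zero => intro R' _; simp
  | succ k ih =>
    intro R' hR'
    have hl := lev_pos hs (l + k)
    have hl1 : lev s0 (l + (k + 1)) = 2 * lev s0 (l + k) := lev_succ s0 (l + k)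
    have h1 := ih R' (by rw [hl1] at hR'; linarith)
    have h2 := step hb hev hρ hε hε1 hs hf hc x (r + (lev s0 (l + k) - lev s0 l)) (l + k)
    have e1 : r + (lev s0 (l + k) - lev s0 l) + lev s0 (l + k) =
        r + (lev s0 (l + (k + 1)) - lev s0 l) := by rw [hl1]; ring
    rw [e1] at h2
    have h3 : ∫ y in ball x (r + (lev s0 (l + (k + 1)) - lev s0 l)), gm b ε s0 f (l + k) y ≤
        ∫ y in ball x R', gm b ε s0 f (l + k) y := by
      refine setIntegral_mono_set ?_ ?_ ?_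
      · exact ((gm_cont hb ε s0 hf _).integrable_of_hasCompactSupport
          (gm_cs hb ε s0 hc _)).integrableOn
      · exact Filter.Eventually.of_forall fun y => gm_nonneg hb ε s0 f _ y
      · exact (ball_subset_ball hR').eventuallyLE
    have e2 : l + (k + 1) = l + k + 1 := rfl
    have e3 : ∑ j ∈ Finset.Ico l (l + (k + 1)), ∫ y in ball x R', gm b ε s0 f j y =
        (∑ j ∈ Finset.Ico l (l + k), ∫ y in ball x R', gm b ε s0 f j y) +
          ∫ y in ball x R', gm b ε s0 f (l + k) y := by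
      rw [e2, Finset.sum_Ico_succ_top (by omega)]
    rw [e3]
    have e4 : ∫ y in ball x (r + (lev s0 (l + (k + 1)) - lev s0 l)), ‖fl b ε s0 f (l + (k + 1)) y‖ =
      ∫ y in ball x (r + (lev s0 (l + (k + 1)) - lev s0 l)), ‖fl b ε s0 f (l + k + 1) y‖ := rfl
    rw [e4]
    linarith

lemma gC_nonneg (hb : AK b) (ε R s0 : ℝ) (f : Sp d → E) (i : ℕ) (P : Cell d) :
    0 ≤ gC b ε R s0 f i P :=
  Finset.sum_nonneg fun j _ => integral_nonneg fun y => gm_nonneg hb ε s0 f j y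

lemma int_gm_nonneg (hb : AK b) (ε s0 : ℝ) (f : Sp d → E) (j : ℕ) :
    0 ≤ ∫ y, gm b ε s0 f j y := integral_nonneg fun y => gm_nonneg hb ε s0 f j y

/-- the gaps telescope -/
lemma sum_gm (hb : AK b) (ε s0 : ℝ) {f : Sp d → E} (hf : Continuous f)
    (hc : HasCompactSupport f) (N : ℕ) :
    ∑ j ∈ Finset.range N, ∫ y, gm b ε s0 f j y = (∫ y, ‖f y‖) - ∫ y, ‖fl b ε s0 f N y‖ := by
  induction N with
  | zero => simp [fl]
  | succ N ih =>
    rw [Finset.sum_range_succ, ih]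
    have hn := (fl_cont hb ε s0 hf N).norm
    have hcs := (fl_cs hb ε s0 hc N).norm
    have i1 : Integrable (avk b (ε * lev s0 (N + 1)) fun z => ‖fl b ε s0 f N z‖) :=
      (hb.avk_cont hn _).integrable_of_hasCompactSupport (hb.avk_cs hcs _)
    have i2 : Integrable (fun y => ‖fl b ε s0 f (N + 1) y‖) :=
      (fl_cont hb ε s0 hf (N + 1)).norm.integrable_of_hasCompactSupport
        (fl_cs hb ε s0 hc (N + 1)).norm
    have e1 : ∫ y, gm b ε s0 f N y = (∫ y, ‖fl b ε s0 f N y‖) - ∫ y, ‖fl b ε s0 f (N + 1) y‖ := by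
      unfold gm
      rw [integral_sub i1 i2, hb.avk_int hn hcs]
    rw [e1]
    ring

lemma sum_gm_le (hb : AK b) (ε s0 : ℝ) {f : Sp d → E} (hf : Continuous f)
    (hc : HasCompactSupport f) (N : ℕ) :
    ∑ j ∈ Finset.range N, ∫ y, gm b ε s0 f j y ≤ ∫ y, ‖f y‖ := by
  rw [sum_gm hb ε s0 hf hc N]
  have : 0 ≤ ∫ y, ‖fl b ε s0 f N y‖ := integral_nonneg fun _ => norm_nonneg _
  linarith

/-! ## Masses -/

lemma mC_nonneg {ε R s0 : ℝ} (hs : 0 < s0) (f : Sp d → E) (Q : Cell d) : 0 ≤ mC b ε R s0 f Q := by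
  have h := nw_pos hs Q
  unfold nw at h
  exact mul_nonneg h.le (integral_nonneg fun _ => norm_nonneg _)

lemma mT_nonneg {ε s0 : ℝ} (hs : 0 < s0) (f : Sp d → E) (Q : Cell d) : 0 ≤ mT b ε s0 f Q := by
  have h := nw_pos hs Q
  have hl := lev_pos hs Q.1
  refine mul_nonneg h.le (integral_nonneg fun y => ?_)
  change 0 ≤ ‖fl b ε s0 f (Q.1 - 1) y‖ / (1 + ‖y - xC s0 Q‖ / lev s0 Q.1) ^ (d + 2)
  positivity

lemma mT_integrable (hb : AK b) {ε s0 : ℝ} (_hs : 0 < s0) {f : Sp d → E} (hf : Continuous f)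
    (hc : HasCompactSupport f) (j : ℕ) (x : Sp d) {t : ℝ} (ht : 0 < t) :
    Integrable fun y => ‖fl b ε s0 f j y‖ / (1 + ‖y - x‖ / t) ^ (d + 2) := by
  have hn := (fl_cont hb ε s0 hf j).norm
  have hcs := (fl_cs hb ε s0 hc j).norm
  have hw : Continuous fun y : Sp d => ((1 + ‖y - x‖ / t) ^ (d + 2))⁻¹ := by
    refine Continuous.inv₀ (by fun_prop) fun y => ?_
    have : 0 ≤ ‖y - x‖ / t := by positivity
    positivity
  have e : (fun y => ‖fl b ε s0 f j y‖ / (1 + ‖y - x‖ / t) ^ (d + 2)) =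
      fun y => ‖fl b ε s0 f j y‖ * ((1 + ‖y - x‖ / t) ^ (d + 2))⁻¹ := by
    funext y; rw [div_eq_mul_inv]
  rw [e]
  exact (hn.mul hw).integrable_of_hasCompactSupport hcs.mul_right

lemma mC_le_mT (hb : AK b) {ε R s0 : ℝ} (hR : 0 ≤ R) (hs : 0 < s0) {f : Sp d → E}
    (hf : Continuous f) (hc : HasCompactSupport f) (Q : Cell d) :
    mC b ε R s0 f Q ≤ (1 + R) ^ (d + 2) * mT b ε s0 f Q := by
  have h := nw_pos hs Q
  have hl := lev_pos hs Q.1
  have h1 : ∫ y in ball (xC s0 Q) (R * lev s0 Q.1), ‖fl b ε s0 f (Q.1 - 1) y‖ ≤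
      (1 + R) ^ (d + 2) *
        ∫ y, ‖fl b ε s0 f (Q.1 - 1) y‖ / (1 + ‖y - xC s0 Q‖ / lev s0 Q.1) ^ (d + 2) := by
    rw [← integral_indicator measurableSet_ball, ← integral_const_mul]
    refine integral_mono_of_nonneg (Filter.Eventually.of_forall fun y =>
      Set.indicator_nonneg (fun _ _ => norm_nonneg _) y)
      ((mT_integrable hb hs hf hc _ _ hl).const_mul _) (Filter.Eventually.of_forall fun y => ?_)
    change (ball (xC s0 Q) (R * lev s0 Q.1)).indicator (fun y => ‖fl b ε s0 f (Q.1 - 1) y‖) y ≤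
      (1 + R) ^ (d + 2) *
        (‖fl b ε s0 f (Q.1 - 1) y‖ / (1 + ‖y - xC s0 Q‖ / lev s0 Q.1) ^ (d + 2))
    have h0 : 0 ≤ ‖y - xC s0 Q‖ / lev s0 Q.1 := by positivity
    by_cases hy : y ∈ ball (xC s0 Q) (R * lev s0 Q.1)
    · rw [Set.indicator_of_mem hy]
      rw [mem_ball, dist_eq_norm] at hy
      have h2 : ‖y - xC s0 Q‖ / lev s0 Q.1 ≤ R := by
        rw [div_le_iff₀ hl]; exact hy.le
      have h3 : (1 + ‖y - xC s0 Q‖ / lev s0 Q.1) ^ (d + 2) ≤ (1 + R) ^ (d + 2) :=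
        pow_le_pow_left₀ (by positivity) (by linarith) _
      have h4 : 0 < (1 + ‖y - xC s0 Q‖ / lev s0 Q.1) ^ (d + 2) := by positivity
      rw [mul_div_assoc', le_div_iff₀ h4, mul_comm]
      exact mul_le_mul_of_nonneg_right h3 (norm_nonneg _)
    · rw [Set.indicator_of_notMem hy]
      positivity
  calc mC b ε R s0 f Q = nw s0 Q *
        ∫ y in ball (xC s0 Q) (R * lev s0 Q.1), ‖fl b ε s0 f (Q.1 - 1) y‖ := rfl
    _ ≤ nw s0 Q * ((1 + R) ^ (d + 2) *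
        ∫ y, ‖fl b ε s0 f (Q.1 - 1) y‖ / (1 + ‖y - xC s0 Q‖ / lev s0 Q.1) ^ (d + 2)) :=
        mul_le_mul_of_nonneg_left h1 h.le
    _ = (1 + R) ^ (d + 2) * mT b ε s0 f Q := by unfold mT; ring

lemma cw_mC (hd : 1 ≤ d) {ε R s0 : ℝ} (hs : 0 < s0) (f : Sp d → E) (Q : Cell d) :
    cw s0 Q * mC b ε R s0 f Q =
      ∫ y in ball (xC s0 Q) (R * lev s0 Q.1), ‖fl b ε s0 f (Q.1 - 1) y‖ := by
  have e : mC b ε R s0 f Q = nw s0 Q *
        ∫ y in ball (xC s0 Q) (R * lev s0 Q.1), ‖fl b ε s0 f (Q.1 - 1) y‖ := rfl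
  rw [e, ← mul_assoc, cw_nw hd hs, one_mul]

/-- fact T1 -/
lemma factT1 (hd : 1 ≤ d) (hb : AK b) (hev : ∀ x, b (-x) = b x)
    (hρ : ∀ x, 1 / 2 ≤ ‖x‖ → b x = 0) {ε s0 R : ℝ} (hε : 0 < ε) (hε1 : ε ≤ 1) (hs : 0 < s0)
    (hR : (d : ℝ) + 4 ≤ R) {f : Sp d → E} (hf : Continuous f) (hc : HasCompactSupport f)
    (i : ℕ) (P : Cell d) (hi : i ≤ P.1) :
    ∑ Q ∈ dn i P, cw s0 Q * mC b ε R s0 f Q ≤
      (2 * R + 1) ^ d * (1 + R) ^ (d + 2) * (cw s0 P * mT b ε s0 f P + gC b ε (2 * R) s0 f i P) := by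
  have hd1 : (1 : ℝ) ≤ d := by exact_mod_cast hd
  have hR0 : 0 ≤ R := by linarith
  have hcw := cw_nonneg hs P
  have hmT := mT_nonneg (b := b) (ε := ε) hs f P
  have hgC := gC_nonneg hb ε (2 * R) s0 f i P
  have hone : (1 : ℝ) ≤ (2 * R + 1) ^ d := one_le_pow₀ (by linarith)
  have hone' : (1 : ℝ) ≤ (1 + R) ^ (d + 2) := one_le_pow₀ (by linarith)
  have hmC := mC_le_mT hb (ε := ε) hR0 hs hf hc P
  rcases Nat.eq_zero_or_pos i with h0 | h0
  · subst h0
    have e1 : dn 0 P = {P} := by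
      ext Q
      rw [mem_dn (Nat.zero_le _), up_zero, Finset.mem_singleton]
    rw [e1, Finset.sum_singleton]
    have h1 : cw s0 P * mC b ε R s0 f P ≤ (1 + R) ^ (d + 2) * (cw s0 P * mT b ε s0 f P) := by
      calc cw s0 P * mC b ε R s0 f P ≤ cw s0 P * ((1 + R) ^ (d + 2) * mT b ε s0 f P) :=
            mul_le_mul_of_nonneg_left hmC hcw
        _ = _ := by ring
    have h2 : 0 ≤ cw s0 P * mT b ε s0 f P := mul_nonneg hcw hmT
    have h3 : (1 + R) ^ (d + 2) * (cw s0 P * mT b ε s0 f P) ≤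
        (2 * R + 1) ^ d * (1 + R) ^ (d + 2) * (cw s0 P * mT b ε s0 f P) := by
      have h4 : 0 ≤ (1 + R) ^ (d + 2) * (cw s0 P * mT b ε s0 f P) := by positivity
      nlinarith
    have h5 : 0 ≤ (2 * R + 1) ^ d * (1 + R) ^ (d + 2) * gC b ε (2 * R) s0 f 0 P := by (clear * - hR0 hgC; positivity)
    calc cw s0 P * mC b ε R s0 f P ≤ (2 * R + 1) ^ d * (1 + R) ^ (d + 2) *
          (cw s0 P * mT b ε s0 f P) := h1.trans h3
      _ ≤ _ := by rw [mul_add]; linarith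
  · -- the levels
    have hl := lev_pos hs P.1
    have hsd : Real.sqrt d ≤ (d + 1) / 2 := by
      rw [Real.sqrt_le_left (by linarith)]
      linarith only [sq_nonneg ((d : ℝ) - 1)]
    set g : Sp d → ℝ := fun y => ‖fl b ε s0 f (P.1 - i - 1) y‖ with hg
    have hgi : Integrable g := (fl_cont hb ε s0 hf _).norm.integrable_of_hasCompactSupport
      (fl_cs hb ε s0 hc _).norm
    have e1 : ∑ Q ∈ dn i P, cw s0 Q * mC b ε R s0 f Q =
        ∑ Q ∈ dn i P, ∫ y in ball (xC s0 Q) (R * lev s0 Q.1), g y := by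
      refine Finset.sum_congr rfl fun Q hQ => ?_
      rw [cw_mC hd hs, lvl_dn hQ]
    have h1 := overlap_dn (volume : Measure (Sp d)) (s0 := s0) (ρ := R) hs hR0 hi (g := g)
      (r := Real.sqrt d * lev s0 P.1 + R * lev s0 (P.1 - i)) le_rfl hgi.integrableOn
      (fun _ => norm_nonneg _)
    obtain ⟨k, hk⟩ : ∃ k, P.1 - i - 1 + k = P.1 - 1 := ⟨P.1 - 1 - (P.1 - i - 1), by omega⟩
    have hlq : lev s0 (P.1 - i) ≤ lev s0 P.1 / 2 := by
      have h2 : lev s0 (P.1 - i) ≤ lev s0 (P.1 - 1) := MAlev hs (by omega)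
      have h3 : lev s0 P.1 = 2 * lev s0 (P.1 - 1) := by
        have : P.1 = P.1 - 1 + 1 := by omega
        rw [this, lev_succ]
        simp
      linarith only [h2, h3]
    have hlN : lev s0 (P.1 - 1) = lev s0 P.1 / 2 := by
      have h3 : lev s0 P.1 = 2 * lev s0 (P.1 - 1) := by
        have : P.1 = P.1 - 1 + 1 := by omega
        rw [this, lev_succ]
        simp
      linarith only [h3]
    have hl0 := lev_pos hs (P.1 - i - 1)
    have hrad : Real.sqrt d * lev s0 P.1 + R * lev s0 (P.1 - i) +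
        (lev s0 (P.1 - i - 1 + k) - lev s0 (P.1 - i - 1)) ≤ R * lev s0 P.1 := by
      rw [hk, hlN]
      have h2 : Real.sqrt d * lev s0 P.1 ≤ (d + 1) / 2 * lev s0 P.1 :=
        mul_le_mul_of_nonneg_right hsd hl.le
      have h3 : R * lev s0 (P.1 - i) ≤ R * (lev s0 P.1 / 2) :=
        mul_le_mul_of_nonneg_left hlq hR0
      nlinarith only [hl, hl0, h2, h3, hR]
    have h2 := transfer hb hev hρ hε hε1 hs hf hc (xC s0 P)
      (Real.sqrt d * lev s0 P.1 + R * lev s0 (P.1 - i)) (P.1 - i - 1) k (2 * R * lev s0 P.1)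
      (hrad.trans (by nlinarith only [hl, hR]))
    have h3 : ∫ y in ball (xC s0 P) (Real.sqrt d * lev s0 P.1 + R * lev s0 (P.1 - i) +
        (lev s0 (P.1 - i - 1 + k) - lev s0 (P.1 - i - 1))), ‖fl b ε s0 f (P.1 - i - 1 + k) y‖ ≤
        cw s0 P * mC b ε R s0 f P := by
      rw [cw_mC hd hs, hk]
      rw [hk] at hrad
      refine setIntegral_mono_set ?_ ?_ ?_
      · exact ((fl_cont hb ε s0 hf _).norm.integrable_of_hasCompactSupport
          (fl_cs hb ε s0 hc _).norm).integrableOn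
      · exact Filter.Eventually.of_forall fun y => norm_nonneg _
      · exact (ball_subset_ball hrad).eventuallyLE
    have e2 : ∑ j ∈ Finset.Ico (P.1 - i - 1) (P.1 - i - 1 + k),
        ∫ y in ball (xC s0 P) (2 * R * lev s0 P.1), gm b ε s0 f j y = gC b ε (2 * R) s0 f i P := by
      rw [hk]
      rfl
    rw [e2] at h2
    have h4 : cw s0 P * mC b ε R s0 f P ≤ (1 + R) ^ (d + 2) * (cw s0 P * mT b ε s0 f P) := by
      calc cw s0 P * mC b ε R s0 f P ≤ cw s0 P * ((1 + R) ^ (d + 2) * mT b ε s0 f P) :=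
            mul_le_mul_of_nonneg_left hmC hcw
        _ = _ := by ring
    have h5 : gC b ε (2 * R) s0 f i P ≤ (1 + R) ^ (d + 2) * gC b ε (2 * R) s0 f i P := by
      nlinarith only [hgC, hone']
    rw [e1]
    calc ∑ Q ∈ dn i P, ∫ y in ball (xC s0 Q) (R * lev s0 Q.1), g y
        ≤ (2 * R + 1) ^ d * ∫ y in ball (xC s0 P)
            (Real.sqrt d * lev s0 P.1 + R * lev s0 (P.1 - i)), g y := h1
      _ ≤ (2 * R + 1) ^ d * ((1 + R) ^ (d + 2) *
            (cw s0 P * mT b ε s0 f P + gC b ε (2 * R) s0 f i P)) := by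
          refine mul_le_mul_of_nonneg_left ?_ (by positivity)
          rw [mul_add]
          linarith only [h2, h3, h4, h5]
      _ = _ := by ring

/-! ## The sum of the gaps -/

/-- sum over windows of length i -/
lemma window (a : ℕ → ℝ) (h0 : ∀ j, 0 ≤ a j) {A : ℝ} (hA : ∀ N, ∑ j ∈ Finset.range N, a j ≤ A)
    (i K : ℕ) : ∑ k ∈ Finset.range K, ∑ j ∈ Finset.Ico (k - i - 1) (k - 1), a j ≤ i * A := by
  have h1 : ∀ k ∈ Finset.range K, ∑ j ∈ Finset.Ico (k - i - 1) (k - 1), a j =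
      ∑ j ∈ Finset.range K, if k - i - 1 ≤ j ∧ j < k - 1 then a j else 0 := by
    intro k hk
    rw [Finset.mem_range] at hk
    rw [← Finset.sum_filter]
    refine Finset.sum_congr ?_ fun _ _ => rfl
    ext j
    simp only [Finset.mem_Ico, Finset.mem_filter, Finset.mem_range]
    constructor
    · intro h; exact ⟨by omega, h⟩
    · intro h; exact h.2
  rw [Finset.sum_congr rfl h1, Finset.sum_comm]
  have h2 : ∀ j ∈ Finset.range K,
      (∑ k ∈ Finset.range K, if k - i - 1 ≤ j ∧ j < k - 1 then a j else 0) ≤ i * a j := by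
    intro j _
    rw [← Finset.sum_filter, Finset.sum_const, nsmul_eq_mul]
    refine mul_le_mul_of_nonneg_right ?_ (h0 j)
    have h3 : (Finset.range K).filter (fun k => k - i - 1 ≤ j ∧ j < k - 1) ⊆
        Finset.Ico (j + 2) (j + 2 + i) := by
      intro k hk
      simp only [Finset.mem_filter, Finset.mem_range] at hk
      rw [Finset.mem_Ico]
      omega
    have h4 := Finset.card_le_card h3
    rw [Nat.card_Ico] at h4
    have h5 : j + 2 + i - (j + 2) = i := by omega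
    rw [h5] at h4
    exact_mod_cast h4
  refine (Finset.sum_le_sum h2).trans ?_
  rw [← Finset.mul_sum]
  exact mul_le_mul_of_nonneg_left (hA K) (Nat.cast_nonneg i)

lemma gC_level (hb : AK b) {ε s0 R : ℝ} (hR : 0 ≤ R) (hs : 0 < s0) {f : Sp d → E}
    (hf : Continuous f) (hc : HasCompactSupport f) (i k : ℕ) (S : Finset (Fin d → ℤ)) :
    ∑ p ∈ S, gC b ε R s0 f i (k, p) ≤
      (2 * R + 1) ^ d * ∑ j ∈ Finset.Ico (k - i - 1) (k - 1), ∫ y, gm b ε s0 f j y := by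
  change ∑ p ∈ S, ∑ j ∈ Finset.Ico (k - i - 1) (k - 1),
    ∫ y in ball (lev s0 k • lat p) (R * lev s0 k), gm b ε s0 f j y ≤ _
  rw [Finset.sum_comm, Finset.mul_sum]
  refine Finset.sum_le_sum fun j _ => ?_
  exact PK.overlap (lev s0 k) R (lev_pos hs k) hR S
    ((gm_cont hb ε s0 hf j).integrable_of_hasCompactSupport (gm_cs hb ε s0 hc j))
    (gm_nonneg hb ε s0 f j)

lemma factG (hb : AK b) {ε s0 R : ℝ} (hR : 0 ≤ R) (hs : 0 < s0) {f : Sp d → E}
    (hf : Continuous f) (hc : HasCompactSupport f) (i : ℕ) :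
    cs univ (gC b ε R s0 f i) ≤ ENNReal.ofReal ((2 * R + 1) ^ d * (i * ∫ y, ‖f y‖)) := by
  rw [cs_univ]
  have h00 : ∑' Q : Cell d, ENNReal.ofReal (gC b ε R s0 f i Q) =
      ∑' (k : ℕ) (p : Fin d → ℤ), ENNReal.ofReal (gC b ε R s0 f i (k, p)) :=
    ENNReal.tsum_prod (f := fun k p => ENNReal.ofReal (gC b ε R s0 f i (k, p)))
  rw [h00]
  have h1 : ∀ k : ℕ, ∑' p : Fin d → ℤ, ENNReal.ofReal (gC b ε R s0 f i (k, p)) ≤
      ENNReal.ofReal ((2 * R + 1) ^ d *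
        ∑ j ∈ Finset.Ico (k - i - 1) (k - 1), ∫ y, gm b ε s0 f j y) := by
    intro k
    rw [ENNReal.tsum_eq_iSup_sum]
    refine iSup_le fun S => ?_
    rw [← ENNReal.ofReal_sum_of_nonneg (fun p _ => gC_nonneg hb ε R s0 f i (k, p))]
    exact ENNReal.ofReal_le_ofReal (gC_level hb hR hs hf hc i k S)
  refine (ENNReal.tsum_le_tsum h1).trans ?_
  rw [ENNReal.tsum_eq_iSup_nat]
  refine iSup_le fun K => ?_
  have h0 : ∀ k, 0 ≤ (2 * R + 1) ^ d *
      ∑ j ∈ Finset.Ico (k - i - 1) (k - 1), ∫ y, gm b ε s0 f j y := fun k =>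
    mul_nonneg (by positivity) (Finset.sum_nonneg fun j _ => int_gm_nonneg hb ε s0 f j)
  rw [← ENNReal.ofReal_sum_of_nonneg (fun k _ => h0 k), ← Finset.mul_sum]
  refine ENNReal.ofReal_le_ofReal (mul_le_mul_of_nonneg_left ?_ (by positivity))
  exact window _ (int_gm_nonneg hb ε s0 f) (sum_gm_le hb ε s0 hf hc) i K

end Gaps

/-! ## Weights of the measure -/

section Weights

variable {C' : ℝ} {μ : Measure (Sp d)}

lemma toReal_mono (hμ : Gro C' μ) {A B : Set (Sp d)} (h : A ⊆ B) : (μ A).toReal ≤ (μ B).toReal := by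
  have := hμ.fin
  exact ENNReal.toReal_mono (measure_ne_top μ B) (measure_mono h)

lemma gro_real (hμ : Gro C' μ) (hC : 0 < C') (x : Sp d) {r : ℝ} (hr : 0 < r) :
    (μ (ball x r)).toReal ≤ C' * r ^ (d - 1) :=
  ENNReal.toReal_le_of_le_ofReal (by positivity) (hμ.gro x r hr)

lemma oC_nonneg (ρ s0 : ℝ) (Q : Cell d) : 0 ≤ oC μ ρ s0 Q := Real.sqrt_nonneg _

lemma oC_sq {s0 : ℝ} (hs : 0 < s0) (ρ : ℝ) (Q : Cell d) :
    oC μ ρ s0 Q ^ 2 = nw s0 Q * (μ (ball (xC s0 Q) (ρ * lev s0 Q.1))).toReal := by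
  unfold oC
  rw [Real.sq_sqrt (mul_nonneg (nw_pos hs Q).le ENNReal.toReal_nonneg)]

lemma cw_oC_sq (hd : 1 ≤ d) {s0 : ℝ} (hs : 0 < s0) (ρ : ℝ) (Q : Cell d) :
    cw s0 Q * oC μ ρ s0 Q ^ 2 = (μ (ball (xC s0 Q) (ρ * lev s0 Q.1))).toReal := by
  rw [oC_sq hs, ← mul_assoc, cw_nw hd hs, one_mul]

lemma oC_mono (hμ : Gro C' μ) {s0 : ℝ} (hs : 0 < s0) {ρ ρ' : ℝ} (h : ρ ≤ ρ') (Q : Cell d) :
    oC μ ρ s0 Q ≤ oC μ ρ' s0 Q := by
  unfold oC
  refine Real.sqrt_le_sqrt (mul_le_mul_of_nonneg_left ?_ (nw_pos hs Q).le)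
  exact toReal_mono hμ (ball_subset_ball (mul_le_mul_of_nonneg_right h (lev_pos hs _).le))

lemma nw_gro (hd : 1 ≤ d) (hμ : Gro C' μ) (hC : 0 < C') {s0 : ℝ} (hs : 0 < s0) {ρ : ℝ}
    (hρ : 0 < ρ) (Q : Cell d) :
    nw s0 Q * (μ (ball (xC s0 Q) (ρ * lev s0 Q.1))).toReal ≤ C' * ρ ^ (d - 1) := by
  have hl := lev_pos hs Q.1
  have h1 := gro_real hμ hC (xC s0 Q) (mul_pos hρ hl)
  have h2 := cw_nw hd hs Q
  calc nw s0 Q * (μ (ball (xC s0 Q) (ρ * lev s0 Q.1))).toReal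
      ≤ nw s0 Q * (C' * (ρ * lev s0 Q.1) ^ (d - 1)) :=
        mul_le_mul_of_nonneg_left h1 (nw_pos hs Q).le
    _ = C' * ρ ^ (d - 1) * (cw s0 Q * nw s0 Q) := by
        unfold cw
        rw [mul_pow]
        ring
    _ = _ := by rw [h2, mul_one]

lemma sqrt_le_max {x K : ℝ} (hK : 1 ≤ K) (h : x ≤ K) : Real.sqrt x ≤ K := by
  rw [Real.sqrt_le_left (by linarith)]
  nlinarith

lemma sum_mu (hμ : Gro C' μ) {s0 ρ : ℝ} (hs : 0 < s0) (hρ : 0 ≤ ρ) {i : ℕ} {P : Cell d}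
    (hi : i ≤ P.1) :
    ∑ Q ∈ dn i P, (μ (ball (xC s0 Q) (ρ * lev s0 Q.1))).toReal ≤
      (2 * ρ + 1) ^ d * (μ (ball (xC s0 P) ((ρ + Real.sqrt d) * lev s0 P.1))).toReal := by
  have := hμ.fin
  have hl : lev s0 (P.1 - i) ≤ lev s0 P.1 := MAlev hs (by omega)
  have h1 := overlap_dn μ (s0 := s0) (ρ := ρ) hs hρ hi (g := fun _ => (1 : ℝ))
    (r := (ρ + Real.sqrt d) * lev s0 P.1) (by nlinarith) (integrable_const (1 : ℝ)).integrableOn
    (fun _ => zero_le_one)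
  simpa [Measure.real] using h1

lemma oC_up (hd : 1 ≤ d) (hμ : Gro C' μ) {s0 ρ : ℝ} (hs : 0 < s0) (hρ : 3 * (d : ℝ) ≤ ρ) {m : ℕ}
    (hm : 1 ≤ m) (Q : Cell d) :
    oC μ (ρ + Real.sqrt d) s0 Q ≤ 2 ^ (m * (d - 1)) * oC μ ρ s0 (up m Q) := by
  have hd1 : (1 : ℝ) ≤ d := by exact_mod_cast hd
  have hl := lev_pos hs Q.1
  have hlm : lev s0 (Q.1 + m) = 2 ^ m * lev s0 Q.1 := lev_add s0 Q.1 m
  have h2m : (2 : ℝ) ≤ 2 ^ m := by
    calc (2 : ℝ) = 2 ^ 1 := (pow_one 2).symm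
      _ ≤ 2 ^ m := pow_le_pow_right₀ (by norm_num) hm
  have hsd : Real.sqrt d ≤ d := by
    rw [Real.sqrt_le_left (by linarith)]
    nlinarith only [hd1]
  have hcen := cen_sub_up hs m Q
  have hsub : ball (xC s0 Q) ((ρ + Real.sqrt d) * lev s0 Q.1) ⊆
      ball (xC s0 (up m Q)) (ρ * lev s0 (up m Q).1) := by
    refine ball_subset_ball' ?_
    rw [dist_eq_norm]
    have e : (up m Q).1 = Q.1 + m := rfl
    rw [e]
    have h3 : (ρ + Real.sqrt d) * lev s0 Q.1 + Real.sqrt d * lev s0 (Q.1 + m) ≤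
        ρ * lev s0 (Q.1 + m) := by
      rw [hlm]
      have h4 : ρ + Real.sqrt d + Real.sqrt d * 2 ^ m ≤ ρ * 2 ^ m := by
        have h5 : 3 * Real.sqrt d ≤ ρ := by linarith
        nlinarith only [hρ, hsd, h2m]
      nlinarith only [hl, h4]
    linarith
  have hnw : nw s0 Q = 2 ^ (m * (d - 1)) * nw s0 (up m Q) := by
    have h5 := cw_nw hd hs Q
    have h6 := cw_nw hd hs (up m Q)
    have h7 : cw s0 (up m Q) = 2 ^ (m * (d - 1)) * cw s0 Q := by
      unfold cw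
      have e : (up m Q).1 = Q.1 + m := rfl
      rw [e, hlm, mul_pow, ← pow_mul]
    have h8 := cw_pos hs Q
    rw [h7] at h6
    have h9 : cw s0 Q * (2 ^ (m * (d - 1)) * nw s0 (up m Q)) = cw s0 Q * nw s0 Q := by
      rw [h5, ← h6]; ring
    exact (mul_left_cancel₀ h8.ne' h9).symm
  have hK : (1 : ℝ) ≤ 2 ^ (m * (d - 1)) := one_le_pow₀ (by norm_num)
  unfold oC
  rw [hnw, mul_assoc]
  rw [Real.sqrt_mul (by positivity)]
  have h10 : Real.sqrt (2 ^ (m * (d - 1))) ≤ 2 ^ (m * (d - 1)) := sqrt_le_max hK le_rfl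
  refine mul_le_mul h10 (Real.sqrt_le_sqrt (mul_le_mul_of_nonneg_left (toReal_mono hμ hsub)
    (nw_pos hs _).le)) (Real.sqrt_nonneg _) (by positivity)

end Weights

end CT1

open _root_.TG.CT1 in
theorem stmtCT1 : StmtCT1 := by
  intro d hd M c0 ε C' R ρ hε hε1 hC' hR hρ b hbK m hm
  have hb : AK b := hbK.ak
  have hev := hbK.even
  have hsup := hbK.supp
  have hd1 : (1 : ℝ) ≤ d := by exact_mod_cast hd
  have hR0 : 0 ≤ R := by linarith
  have hρ0 : 0 < ρ := by linarith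
  have hsq : 0 ≤ Real.sqrt (d : ℝ) := Real.sqrt_nonneg _
  set ρ' : ℝ := ρ + Real.sqrt d with hρ'
  have hρ'0 : 0 < ρ' := by positivity
  set K1 : ℝ := (2 * R + 1) ^ d * (1 + R) ^ (d + 2) with hK1
  set K2 : ℝ := 1 + C' * ρ' ^ (d - 1) with hK2
  set K3 : ℝ := 2 ^ (m * (d - 1)) with hK3
  set K4 : ℝ := (2 * ρ + 1) ^ d with hK4
  set K5 : ℝ := (2 * ρ' + 1) ^ d * (C' * (ρ' + Real.sqrt d) ^ (d - 1)) with hK5
  set K6 : ℝ := (2 * (2 * R) + 1) ^ d with hK6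
  have k1 : 0 ≤ K1 := by positivity
  have k2 : 0 ≤ K2 := by positivity
  have k3 : 0 ≤ K3 := by positivity
  have k4 : 0 ≤ K4 := by positivity
  have k5 : 0 ≤ K5 := by positivity
  have k6 : 0 ≤ K6 := by positivity
  refine ⟨1 + K1 + K2 + K3 + K4 + K5 + K6, by linarith, ?_⟩
  intro E _ _ _ f hf hc μ hμ s0 hs
  set K : ℝ := 1 + K1 + K2 + K3 + K4 + K5 + K6 with hK
  have hfin := hμ.fin
  refine ⟨fun Q => ⟨mC_nonneg hs f Q, mT_nonneg hs f Q, ?_⟩, fun i Q => gC_nonneg hb ε _ s0 f i Q,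
    fun Q => ⟨oC_nonneg _ _ _, oC_mono hμ hs (by linarith) Q, ?_, ?_⟩, ?_, ?_, ?_, ?_⟩
  · have h1 := mC_le_mT hb (ε := ε) hR0 hs hf hc Q
    have h2 := mT_nonneg (b := b) (ε := ε) hs f Q
    have h3 : (1 + R) ^ (d + 2) ≤ K := by
      have h4 : (1 : ℝ) ≤ (2 * R + 1) ^ d := one_le_pow₀ (by linarith)
      have h5 : (0 : ℝ) ≤ (1 + R) ^ (d + 2) := by positivity
      have h6 : (1 + R) ^ (d + 2) ≤ K1 := by rw [hK1]; nlinarith
      linarith
    exact h1.trans (mul_le_mul_of_nonneg_right h3 h2)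
  · have h1 := nw_gro hd hμ hC' hs hρ'0 Q
    have h2 : oC μ ρ' s0 Q ≤ K2 := by
      unfold oC
      refine sqrt_le_max ?_ (h1.trans ?_)
      · rw [hK2]; have : 0 ≤ C' * ρ' ^ (d - 1) := by positivity
        linarith
      · rw [hK2]; linarith
    linarith
  · have h1 := oC_up hd hμ hs hρ hm Q
    have h2 : K3 * oC μ ρ s0 (up m Q) ≤ K * oC μ ρ s0 (up m Q) :=
      mul_le_mul_of_nonneg_right (by linarith) (oC_nonneg _ _ _)
    exact h1.trans h2
  · intro i P hi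
    have h1 := factT1 hd hb hev hsup hε hε1 hs hR hf hc i P hi
    have h2 : 0 ≤ cw s0 P * mT b ε s0 f P + gC b ε (2 * R) s0 f i P :=
      add_nonneg (mul_nonneg (cw_nonneg hs P) (mT_nonneg hs f P)) (gC_nonneg hb ε _ s0 f i P)
    exact h1.trans (mul_le_mul_of_nonneg_right (by linarith) h2)
  · intro i P hi
    have h1 := sum_mu hμ (ρ := ρ) hs hρ0.le hi
    have e1 : ∑ Q ∈ dn i P, cw s0 Q * oC μ ρ s0 Q ^ 2 =
        ∑ Q ∈ dn i P, (μ (ball (xC s0 Q) (ρ * lev s0 Q.1))).toReal :=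
      Finset.sum_congr rfl fun Q _ => cw_oC_sq hd hs ρ Q
    rw [e1, cw_oC_sq hd hs]
    exact h1.trans (mul_le_mul_of_nonneg_right (by linarith) ENNReal.toReal_nonneg)
  · intro i P hi
    have h1 := sum_mu hμ (ρ := ρ') hs hρ'0.le hi
    have e1 : ∑ Q ∈ dn i P, cw s0 Q * oC μ ρ' s0 Q ^ 2 =
        ∑ Q ∈ dn i P, (μ (ball (xC s0 Q) (ρ' * lev s0 Q.1))).toReal :=
      Finset.sum_congr rfl fun Q _ => cw_oC_sq hd hs ρ' Q
    rw [e1]
    have h2 := gro_real hμ hC' (xC s0 P) (r := (ρ' + Real.sqrt d) * lev s0 P.1)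
      (mul_pos (by positivity) (lev_pos hs _))
    have h3 : (2 * ρ' + 1) ^ d * (μ (ball (xC s0 P) ((ρ' + Real.sqrt d) * lev s0 P.1))).toReal ≤
        K5 * cw s0 P := by
      calc (2 * ρ' + 1) ^ d * (μ (ball (xC s0 P) ((ρ' + Real.sqrt d) * lev s0 P.1))).toReal
          ≤ (2 * ρ' + 1) ^ d * (C' * ((ρ' + Real.sqrt d) * lev s0 P.1) ^ (d - 1)) :=
            mul_le_mul_of_nonneg_left h2 (by positivity)
        _ = K5 * cw s0 P := by rw [hK5, mul_pow]; unfold cw; ring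
    exact h1.trans (h3.trans (mul_le_mul_of_nonneg_right (by linarith) (cw_nonneg hs P)))
  · intro i
    have h1 := factG hb (ε := ε) (R := 2 * R) (by linarith) hs hf hc i
    refine h1.trans (ENNReal.ofReal_le_ofReal ?_)
    have hI : 0 ≤ ∫ y, ‖f y‖ := integral_nonneg fun _ => norm_nonneg _
    have hi : (0 : ℝ) ≤ i := Nat.cast_nonneg i
    calc (2 * (2 * R) + 1) ^ d * (i * ∫ y, ‖f y‖) ≤ K * ((i + 1) * ∫ y, ‖f y‖) := by
          refine mul_le_mul (by linarith) ?_ (by positivity) (by linarith)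
          exact mul_le_mul_of_nonneg_right (by linarith) hI
      _ = K * (i + 1) * ∫ y, ‖f y‖ := by ring

end

end TG


end

section

/-!
# Trace inequality, general operators: module CT7, the weights om and oml
-/

open MeasureTheory Metric Set TrI
open scoped InnerProductSpace ContDiff ENNReal

namespace TG

noncomputable section

namespace CT7

variable {d : ℕ}

lemma lev_pos {s0 : ℝ} (hs : 0 < s0) (i : ℕ) : 0 < lev s0 i := by
  unfold lev; positivity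

lemma th_harnack (hd : 1 ≤ d) (μ : Measure (Sp d)) [IsFiniteMeasure μ] {t : ℝ} (ht : 0 < t)
    (x x' : Sp d) : th μ t x' ≤ (1 + ‖x - x'‖ / t) ^ d * th μ t x := by
  unfold th
  rw [← integral_const_mul]
  apply integral_mono (THm.kk_int hd μ ht x') ((THm.kk_int hd μ ht x).const_mul _)
  intro η
  have := THm.kk_harnack ht (x - η) (x' - η)
  have h2 : x - η - (x' - η) = x - x' := by abel
  rw [h2] at this
  exact this

lemma th_nonneg (μ : Measure (Sp d)) {t : ℝ} (ht : 0 < t) (x : Sp d) : 0 ≤ th μ t x :=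
  integral_nonneg fun _ => THm.kk_nonneg ht _

lemma kk_up {t : ℝ} (ht : 0 < t) (m : ℕ) (x : Sp d) : kk (t * 2 ^ m) x ≤ 2 ^ m * kk t x := by
  unfold kk
  have h1 : Real.sqrt (t ^ 2 + ‖x‖ ^ 2) ≤ Real.sqrt ((t * 2 ^ m) ^ 2 + ‖x‖ ^ 2) := by
    apply Real.sqrt_le_sqrt
    have h2 : t ≤ t * 2 ^ m := le_mul_of_one_le_right ht.le (one_le_pow₀ (by norm_num))
    gcongr
  have h3 : 0 < Real.sqrt (t ^ 2 + ‖x‖ ^ 2) := by positivity
  calc t * 2 ^ m / Real.sqrt ((t * 2 ^ m) ^ 2 + ‖x‖ ^ 2) ^ d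
      ≤ t * 2 ^ m / Real.sqrt (t ^ 2 + ‖x‖ ^ 2) ^ d := by gcongr
    _ = 2 ^ m * (t / Real.sqrt (t ^ 2 + ‖x‖ ^ 2) ^ d) := by ring

lemma kk_dn {t : ℝ} (ht : 0 < t) (m : ℕ) (x : Sp d) :
    kk t x ≤ (2 ^ m) ^ d * kk (t * 2 ^ m) x := by
  unfold kk
  have hm : (1 : ℝ) ≤ 2 ^ m := one_le_pow₀ (by norm_num)
  have h1 : Real.sqrt ((t * 2 ^ m) ^ 2 + ‖x‖ ^ 2) ≤ 2 ^ m * Real.sqrt (t ^ 2 + ‖x‖ ^ 2) := by
    rw [Real.sqrt_le_left (by positivity), mul_pow (2 ^ m : ℝ), Real.sq_sqrt (by positivity)]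
    have h2 : ‖x‖ ^ 2 ≤ (2 ^ m) ^ 2 * ‖x‖ ^ 2 :=
      le_mul_of_one_le_left (by positivity) (one_le_pow₀ hm)
    nlinarith
  have h3 : 0 < Real.sqrt (t ^ 2 + ‖x‖ ^ 2) := by positivity
  have h4 : 0 < Real.sqrt ((t * 2 ^ m) ^ 2 + ‖x‖ ^ 2) := by positivity
  have h5 : Real.sqrt ((t * 2 ^ m) ^ 2 + ‖x‖ ^ 2) ^ d ≤
      (2 ^ m) ^ d * Real.sqrt (t ^ 2 + ‖x‖ ^ 2) ^ d := by
    rw [← mul_pow]; gcongr
  rw [← mul_div_assoc, div_le_div_iff₀ (by positivity) (by positivity)]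
  have h6 : t ≤ t * 2 ^ m := le_mul_of_one_le_right ht.le hm
  calc t * Real.sqrt ((t * 2 ^ m) ^ 2 + ‖x‖ ^ 2) ^ d
      ≤ (t * 2 ^ m) * ((2 ^ m) ^ d * Real.sqrt (t ^ 2 + ‖x‖ ^ 2) ^ d) := by gcongr
    _ = (2 ^ m) ^ d * (t * 2 ^ m) * Real.sqrt (t ^ 2 + ‖x‖ ^ 2) ^ d := by ring

lemma th_up (hd : 1 ≤ d) (μ : Measure (Sp d)) [IsFiniteMeasure μ] {t : ℝ} (ht : 0 < t) (m : ℕ)
    (x : Sp d) : th μ (t * 2 ^ m) x ≤ 2 ^ m * th μ t x := by
  unfold th
  rw [← integral_const_mul]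
  exact integral_mono (THm.kk_int hd μ (by positivity) x) ((THm.kk_int hd μ ht x).const_mul _)
    fun η => kk_up ht m _

lemma th_dn (hd : 1 ≤ d) (μ : Measure (Sp d)) [IsFiniteMeasure μ] {t : ℝ} (ht : 0 < t) (m : ℕ)
    (x : Sp d) : th μ t x ≤ (2 ^ m) ^ d * th μ (t * 2 ^ m) x := by
  unfold th
  rw [← integral_const_mul]
  exact integral_mono (THm.kk_int hd μ ht x)
    ((THm.kk_int hd μ (t := t * 2 ^ m) (by positivity) x).const_mul _) fun η => kk_dn ht m _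

/-- the mass of a ball is bounded by the potential -/
lemma ball_le_th (hd : 1 ≤ d) (μ : Measure (Sp d)) [IsFiniteMeasure μ] {t ρ : ℝ} (ht : 0 < t)
    (hρ : 0 ≤ ρ) (x : Sp d) :
    t / t ^ d * (μ (ball x (ρ * t))).toReal ≤ (1 + ρ) ^ d * th μ t x := by
  have h1 : ∀ η ∈ ball x (ρ * t), t / t ^ d / (1 + ρ) ^ d ≤ kk t (x - η) := by
    intro η hη
    have h2 : ‖x - η‖ ≤ ρ * t := by
      rw [← dist_eq_norm]
      exact (mem_ball'.mp hη).le
    unfold kk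
    rw [div_div, ← mul_pow]
    have h3 : Real.sqrt (t ^ 2 + ‖x - η‖ ^ 2) ≤ t * (1 + ρ) := by
      rw [Real.sqrt_le_left (by positivity)]
      have h4 : ‖x - η‖ ^ 2 ≤ (ρ * t) ^ 2 := by gcongr
      linarith only [h4, mul_nonneg (mul_nonneg ht.le ht.le) hρ]
    have h5 : 0 < Real.sqrt (t ^ 2 + ‖x - η‖ ^ 2) := by positivity
    gcongr
  have h6 : ∫ η in ball x (ρ * t), (t / t ^ d / (1 + ρ) ^ d : ℝ) ∂μ ≤ th μ t x := by
    unfold th
    refine le_trans (setIntegral_mono_on (integrable_const _).integrableOn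
      (THm.kk_int hd μ ht x).integrableOn measurableSet_ball h1) ?_
    exact setIntegral_le_integral (THm.kk_int hd μ ht x)
      (Filter.Eventually.of_forall fun η => THm.kk_nonneg ht _)
  rw [setIntegral_const, smul_eq_mul, Measure.real] at h6
  have h7 : 0 < (1 + ρ) ^ d := by positivity
  calc t / t ^ d * (μ (ball x (ρ * t))).toReal
      = (1 + ρ) ^ d * ((μ (ball x (ρ * t))).toReal * (t / t ^ d / (1 + ρ) ^ d)) := by
        field_simp
    _ ≤ (1 + ρ) ^ d * th μ t x := by gcongr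

lemma cut_nonneg (r : ℝ) : 0 ≤ cut r := by unfold cut; positivity

lemma cut_le (r : ℝ) : cut r ≤ 1 := by
  unfold cut
  exact pow_le_one₀ (Real.smoothTransition.nonneg _) (Real.smoothTransition.le_one _)

lemma cut_zero {r : ℝ} (h : 1 ≤ r) : cut r = 0 := by
  unfold cut
  rw [Real.smoothTransition.zero_of_nonpos (by linarith)]
  norm_num

/-- near points: the potential is bounded by the mass of the ball -/
lemma th_le_ball (hd : 1 ≤ d) (μ : Measure (Sp d)) [IsFiniteMeasure μ] (hμ : μ ≠ 0) {t A p0 : ℝ}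
    (ht : 0 < t) (hA : 0 < A) (hp : 0 < p0) (x : Sp d) (hq : p0 / 2 ≤ qq A μ t x) :
    th μ t x ≤ 2 / p0 * (t / t ^ d * (μ (ball x (A * t))).toReal) := by
  have hth := THm.th_pos hd μ hμ ht x
  unfold qq at hq
  rw [le_div_iff₀ hth] at hq
  have h1 : ∫ η, cut (‖x - η‖ / (A * t)) * kk t (x - η) ∂μ ≤
      ∫ η in ball x (A * t), (t / t ^ d : ℝ) ∂μ := by
    rw [← integral_indicator measurableSet_ball]
    refine integral_mono_of_nonneg (Filter.Eventually.of_forall fun η =>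
      mul_nonneg (cut_nonneg _) (THm.kk_nonneg ht _)) ?_ (Filter.Eventually.of_forall ?_)
    · exact (integrable_const _).indicator measurableSet_ball
    · intro η
      beta_reduce
      by_cases hη : η ∈ ball x (A * t)
      · rw [indicator_of_mem hη]
        calc cut (‖x - η‖ / (A * t)) * kk t (x - η) ≤ 1 * (1 / t ^ (d - 1)) := by
              gcongr
              · exact THm.kk_nonneg ht _
              · exact cut_le _
              · exact THm.kk_le hd ht _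
          _ = t / t ^ d := by
              obtain ⟨k, rfl⟩ : ∃ k, d = k + 1 := ⟨d - 1, by omega⟩
              rw [Nat.add_sub_cancel, pow_succ]
              field_simp
      · rw [indicator_of_notMem hη, cut_zero, zero_mul]
        rw [mem_ball', dist_eq_norm, not_lt] at hη
        rwa [le_div_iff₀ (by positivity), one_mul]
  rw [setIntegral_const, smul_eq_mul, Measure.real] at h1
  have h2 : p0 / 2 * th μ t x ≤ (μ (ball x (A * t))).toReal * (t / t ^ d) := hq.trans h1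
  calc th μ t x = 2 / p0 * (p0 / 2 * th μ t x) := by field_simp
    _ ≤ 2 / p0 * ((μ (ball x (A * t))).toReal * (t / t ^ d)) := by gcongr
    _ = _ := by ring

lemma ball_mono_toReal (μ : Measure (Sp d)) [IsFiniteMeasure μ] {x x' : Sp d} {r r' : ℝ}
    (h : ‖x - x'‖ + r ≤ r') : (μ (ball x r)).toReal ≤ (μ (ball x' r')).toReal := by
  refine ENNReal.toReal_mono (measure_ne_top μ _) (measure_mono ?_)
  apply ball_subset_ball'
  rw [dist_eq_norm]
  linarith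

end CT7

open _root_.TG.CT7 in
theorem stmtCT7 : StmtCT7 := by
  intro d hd C' p0 A r hC' hp0 hp1 hA hr m
  have hd1 : 1 ≤ d := by omega
  obtain ⟨CT, hCT, hTH⟩ := stmtTH d 0 hd C' hC'
  set K1 : ℝ := Real.sqrt CT with hK1
  set K2 : ℝ := 2 ^ d with hK2
  set K3 : ℝ := Real.sqrt ((1 + r) ^ d * (2 ^ m) ^ d) with hK3
  set K3' : ℝ := Real.sqrt ((1 + r) ^ d * 2 ^ m) with hK3'
  set K4 : ℝ := Real.sqrt ((1 + r) ^ d * (2 / p0)) with hK4
  set K5 : ℝ := Real.sqrt ((1 + r) ^ d * ((1 + r) ^ d * (2 / p0))) with hK5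
  have k1 : 0 ≤ K1 := Real.sqrt_nonneg _
  have k2 : 0 < K2 := by positivity
  have k3 : 0 ≤ K3 := Real.sqrt_nonneg _
  have k3' : 0 ≤ K3' := Real.sqrt_nonneg _
  have k4 : 0 ≤ K4 := Real.sqrt_nonneg _
  have k5 : 0 ≤ K5 := Real.sqrt_nonneg _
  refine ⟨K1 + K2 + K3 + K3' + K4 + K5, by positivity, ?_⟩
  intro μ hμ s0 hs0
  have hfin := hμ.fin
  obtain ⟨hT1, -⟩ := hTH μ hμ
  have hthp : ∀ Q : Cell d, 0 < th μ (lev s0 Q.1) (xC s0 Q) :=
    fun Q => THm.th_pos hd1 μ hμ.ne (lev_pos hs0 _) _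
  have ho0 : ∀ Q : Cell d, 0 ≤ omC μ s0 Q := fun Q => Real.sqrt_nonneg _
  have hosq : ∀ Q : Cell d, omC μ s0 Q ^ 2 = th μ (lev s0 Q.1) (xC s0 Q) := by
    intro Q
    exact Real.sq_sqrt (hthp Q).le
  have hoC0 : ∀ (ρ : ℝ) (Q : Cell d), 0 ≤ oC μ ρ s0 Q := fun ρ Q => Real.sqrt_nonneg _
  have hoCsq : ∀ (ρ : ℝ) (Q : Cell d), oC μ ρ s0 Q ^ 2 =
      lev s0 Q.1 / lev s0 Q.1 ^ d * (μ (ball (xC s0 Q) (ρ * lev s0 Q.1))).toReal := by
    intro ρ Q
    have := lev_pos hs0 Q.1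
    exact Real.sq_sqrt (by unfold nw; positivity)
  -- comparison of square roots
  have hcmp : ∀ (a b K : ℝ), 0 ≤ a → 0 ≤ b → 0 ≤ K → a ^ 2 ≤ K * b ^ 2 →
      a ≤ Real.sqrt K * b := by
    intro a b K ha hb hK h
    calc a = Real.sqrt (a ^ 2) := (Real.sqrt_sq ha).symm
      _ ≤ Real.sqrt (K * b ^ 2) := Real.sqrt_le_sqrt h
      _ = Real.sqrt K * b := by rw [Real.sqrt_mul hK, Real.sqrt_sq hb]
  have hharn : ∀ Q Q' : Cell d, Q'.1 = Q.1 → ‖xC s0 Q' - xC s0 Q‖ ≤ r * lev s0 Q'.1 →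
      th μ (lev s0 Q.1) (xC s0 Q') ≤ (1 + r) ^ d * th μ (lev s0 Q.1) (xC s0 Q) := by
    intro Q Q' h1 h2
    have h3 := lev_pos hs0 Q.1
    refine (th_harnack hd1 μ h3 (xC s0 Q) (xC s0 Q')).trans ?_
    have h4 : ‖xC s0 Q - xC s0 Q'‖ / lev s0 Q.1 ≤ r := by
      rw [div_le_iff₀ h3, norm_sub_rev, ← h1]
      exact h2
    have := (hthp Q).le
    gcongr
  refine ⟨?_, ?_, ?_, ?_⟩
  · intro Q
    have hl := lev_pos hs0 Q.1
    refine ⟨Real.sqrt_pos.mpr (hthp Q), ?_, ?_, ?_⟩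
    · have h1 : omC μ s0 Q ≤ K1 := by
        have := (hT1 (lev s0 Q.1) (xC s0 Q) hl).2
        exact Real.sqrt_le_sqrt this
      linarith
    · unfold muQ omC
      rw [SC.vv_rsm _ hl, mul_one, smul_zero, add_zero]
    · exact SC.gro_rsm hd1 hμ _ hl
  · intro Q ρ hρ
    have hl := lev_pos hs0 Q.1
    rw [hoCsq, hosq]
    refine (ball_le_th hd1 μ hl (by linarith) (xC s0 Q)).trans ?_
    have h0 := (hthp Q).le
    have h1 : (1 + ρ) ^ d ≤ (K1 + K2 + K3 + K3' + K4 + K5) * ρ ^ (d + 1) := by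
      calc (1 + ρ) ^ d ≤ (2 * ρ) ^ d := by gcongr; linarith
        _ = K2 * ρ ^ d := by rw [mul_pow]
        _ ≤ (K1 + K2 + K3 + K3' + K4 + K5) * ρ ^ (d + 1) := by
            gcongr
            · linarith
            · omega
    gcongr
  · intro Q Q' h1 h2
    have hl := lev_pos hs0 Q.1
    have hl' := lev_pos hs0 Q'.1
    have hlev : lev s0 Q'.1 = lev s0 Q.1 * 2 ^ m := by
      rw [h1]; unfold lev; rw [pow_add]; ring
    have h3 : th μ (lev s0 Q'.1) (xC s0 Q') ≤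
        (1 + r) ^ d * th μ (lev s0 Q'.1) (xC s0 Q) := by
      refine (th_harnack hd1 μ hl' (xC s0 Q) (xC s0 Q')).trans ?_
      have h4 : ‖xC s0 Q - xC s0 Q'‖ / lev s0 Q'.1 ≤ r := by
        rw [div_le_iff₀ hl', norm_sub_rev]
        exact h2
      have := th_nonneg μ hl' (xC s0 Q)
      (clear * - hl' h4 this; gcongr)
    have h3' : th μ (lev s0 Q'.1) (xC s0 Q) ≤
        (1 + r) ^ d * th μ (lev s0 Q'.1) (xC s0 Q') := by
      refine (th_harnack hd1 μ hl' (xC s0 Q') (xC s0 Q)).trans ?_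
      have h4 : ‖xC s0 Q' - xC s0 Q‖ / lev s0 Q'.1 ≤ r := by
        rw [div_le_iff₀ hl']
        exact h2
      have := th_nonneg μ hl' (xC s0 Q')
      (clear * - hl' h4 this; gcongr)
    have h5 := th_up hd1 μ hl m (xC s0 Q)
    have h6 := th_dn hd1 μ hl m (xC s0 Q)
    rw [← hlev] at h5 h6
    constructor
    · have h7 : omC μ s0 Q' ≤ K3' * omC μ s0 Q := by
        apply hcmp _ _ _ (ho0 Q') (ho0 Q) (by positivity)
        rw [hosq, hosq, mul_assoc]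
        exact h3.trans (by gcongr)
      refine h7.trans ?_
      have := ho0 Q
      gcongr
      linarith
    · have h7 : omC μ s0 Q ≤ K3 * omC μ s0 Q' := by
        apply hcmp _ _ _ (ho0 Q) (ho0 Q') (by positivity)
        rw [hosq, hosq]
        calc th μ (lev s0 Q.1) (xC s0 Q) ≤ (2 ^ m) ^ d * th μ (lev s0 Q'.1) (xC s0 Q) := h6
          _ ≤ (2 ^ m) ^ d * ((1 + r) ^ d * th μ (lev s0 Q'.1) (xC s0 Q')) := by gcongr
          _ = _ := by ring
      refine h7.trans ?_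
      have := ho0 Q'
      gcongr
      linarith
  · intro Q Q' h1 h2 y hy hq
    have hl := lev_pos hs0 Q.1
    have hll : lev s0 Q'.1 = lev s0 Q.1 := by rw [h1]
    unfold muQ at hq
    rw [SE.qq_rsm A _ hl, mul_one] at hq
    set t := lev s0 Q.1 with ht
    set x := xC s0 Q with hx
    set x' := xC s0 Q' with hx'
    have h3 := th_le_ball hd1 μ hμ.ne hl (by linarith) hp0 (x + t • y) hq
    have hny : ‖x + t • y - x‖ = t * ‖y‖ := by
      rw [add_sub_cancel_left, norm_smul, Real.norm_of_nonneg hl.le]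
    have h4 : th μ t x ≤ (1 + r) ^ d * th μ t (x + t • y) := by
      refine (th_harnack hd1 μ hl (x + t • y) x).trans ?_
      have h5 : ‖x + t • y - x‖ / t ≤ r := by
        rw [div_le_iff₀ hl, hny, mul_comm]
        gcongr
      have := th_nonneg μ hl (x + t • y)
      (clear * - hl h5 this; gcongr)
    have h6 : (μ (ball (x + t • y) (A * t))).toReal ≤ (μ (ball x ((A + r) * t))).toReal := by
      apply ball_mono_toReal
      rw [hny]
      nlinarith only [hy, hl]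
    have h7 : th μ t x ≤ (1 + r) ^ d * (2 / p0) * (oC μ (A + r) s0 Q) ^ 2 := by
      rw [hoCsq]
      calc th μ t x ≤ (1 + r) ^ d * (2 / p0 * (t / t ^ d *
            (μ (ball (x + t • y) (A * t))).toReal)) := h4.trans (by gcongr)
        _ ≤ (1 + r) ^ d * (2 / p0 * (t / t ^ d *
            (μ (ball x ((A + r) * t))).toReal)) := by (clear * - h6 hl hp0 hr; gcongr)
        _ = _ := by ring
    constructor
    · have h8 : omC μ s0 Q ≤ K4 * oC μ (A + r) s0 Q := by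
        apply hcmp _ _ _ (ho0 Q) (hoC0 _ Q) (by positivity)
        rw [hosq]
        exact h7
      refine h8.trans ?_
      have := hoC0 (A + r) Q
      gcongr
      linarith
    · have h9 : oC μ (A + r) s0 Q ^ 2 ≤ oC μ (A + 2 * r) s0 Q' ^ 2 := by
        rw [hoCsq, hoCsq, hll]
        have h10 : (μ (ball x ((A + r) * t))).toReal ≤
            (μ (ball x' ((A + 2 * r) * t))).toReal := by
          apply ball_mono_toReal
          rw [norm_sub_rev]
          have h11 : ‖x' - x‖ ≤ r * t := by rw [← hll]; exact h2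
          linarith
        gcongr
      have h8 : omC μ s0 Q' ≤ K5 * oC μ (A + 2 * r) s0 Q' := by
        apply hcmp _ _ _ (ho0 Q') (hoC0 _ Q') (by positivity)
        rw [hosq, hll]
        calc th μ t x' ≤ (1 + r) ^ d * th μ t x := hharn Q Q' h1 h2
          _ ≤ (1 + r) ^ d * ((1 + r) ^ d * (2 / p0) * oC μ (A + r) s0 Q ^ 2) := by gcongr
          _ ≤ (1 + r) ^ d * ((1 + r) ^ d * (2 / p0) * oC μ (A + 2 * r) s0 Q' ^ 2) := by (clear * - h9 hr hp0; gcongr)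
          _ = _ := by ring
      refine h8.trans ?_
      have := hoC0 (A + 2 * r) Q'
      gcongr
      linarith

end

end TG


end

section

/-!
# Trace inequality, general operators: the masses of one level are payable   (helper32)

No double quotes.
-/

open MeasureTheory Metric Set TrI
open scoped InnerProductSpace ContDiff ENNReal

namespace TG

noncomputable section

open CT1 in
theorem stmtLS : StmtLS := by
  intro d hd M c0 ε r hε hε1 hr b hbK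
  have hb : AK b := hbK.ak
  refine ⟨(2 * r + 1) ^ d, by positivity, ?_⟩
  intro E _ _ _ f hf hc s0 hs i
  have hI : ∫ y, ‖fl b ε s0 f (i - 1) y‖ ≤ ∫ y, ‖f y‖ := by
    have h1 := sum_gm hb ε s0 hf hc (i - 1)
    have h2 : 0 ≤ ∑ j ∈ Finset.range (i - 1), ∫ y, gm b ε s0 f j y :=
      Finset.sum_nonneg fun j _ => int_gm_nonneg hb ε s0 f j
    linarith
  have hlev : ∀ S : Finset (Fin d → ℤ), ∑ p ∈ S, cw s0 ((i, p) : Cell d) *
      mC b ε r s0 f ((i, p) : Cell d) ≤ (2 * r + 1) ^ d * ∫ y, ‖f y‖ := by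
    intro S
    have h1 : ∑ p ∈ S, cw s0 ((i, p) : Cell d) * mC b ε r s0 f ((i, p) : Cell d) =
        ∑ p ∈ S, ∫ y in ball (lev s0 i • lat p) (r * lev s0 i), ‖fl b ε s0 f (i - 1) y‖ :=
      Finset.sum_congr rfl fun p _ => cw_mC hd hs f (i, p)
    rw [h1]
    refine (PK.overlap (lev s0 i) r (lev_pos hs i) hr S
      ((fl_cont hb ε s0 hf (i - 1)).norm.integrable_of_hasCompactSupport
        (fl_cs hb ε s0 hc (i - 1)).norm) fun y => norm_nonneg _).trans ?_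
    exact mul_le_mul_of_nonneg_left hI (by positivity)
  have h0 : ∀ Q : Cell d, 0 ≤ cw s0 Q * mC b ε r s0 f Q := fun Q =>
    mul_nonneg (cw_nonneg hs Q) (mC_nonneg hs f Q)
  unfold cs
  have h00 : ∑' Q : Cell d, {Q : Cell d | Q.1 = i}.indicator
      (fun Q => ENNReal.ofReal (cw s0 Q * mC b ε r s0 f Q)) Q =
      ∑' (k : ℕ) (p : Fin d → ℤ), {Q : Cell d | Q.1 = i}.indicator
      (fun Q => ENNReal.ofReal (cw s0 Q * mC b ε r s0 f Q)) ((k, p) : Cell d) :=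
    ENNReal.tsum_prod (f := fun k p => {Q : Cell d | Q.1 = i}.indicator
      (fun Q => ENNReal.ofReal (cw s0 Q * mC b ε r s0 f Q)) ((k, p) : Cell d))
  rw [h00, tsum_eq_single i]
  · have h1 : ∀ p : Fin d → ℤ, {Q : Cell d | Q.1 = i}.indicator
        (fun Q => ENNReal.ofReal (cw s0 Q * mC b ε r s0 f Q)) ((i, p) : Cell d) =
        ENNReal.ofReal (cw s0 ((i, p) : Cell d) * mC b ε r s0 f ((i, p) : Cell d)) := by
      intro p
      rw [indicator_of_mem]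
      simp
    rw [tsum_congr h1, ENNReal.tsum_eq_iSup_sum]
    refine iSup_le fun S => ?_
    rw [← ENNReal.ofReal_sum_of_nonneg fun p _ => h0 (i, p)]
    exact ENNReal.ofReal_le_ofReal (hlev S)
  · intro k hk
    rw [ENNReal.tsum_eq_zero]
    intro p
    rw [indicator_of_notMem]
    simpa using hk

end

end TG


end

section

/-!
# Trace inequality, general operators: the construction of the world  (helper98)

StmtWD (the world exists) and StmtWF (finiteness of the sum of the values) are the two analytic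
inputs of StmtLW; the rest is the case analysis with W1, ..., WB6.  No double quotes.
-/

open MeasureTheory Metric Set TrI
open scoped InnerProductSpace ContDiff ENNReal

namespace TG

noncomputable section

variable {d : ℕ}

/-- the good world: St, TA are the structured cells and the cells of type A; ah = mass 32 R0;
bf, df = sh b, sh D; EI = errors of the interface inequality -/
structure GoodW {E : Type} [NormedAddCommGroup E] [InnerProductSpace ℝ E] (J JA : ℕ)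
    (C' R0 Rz : ℝ) (X : Prm d) (Cr Kc K' γ κW CK κ Cs R1 Rs RM : ℝ) (rm : ℕ) (tol : ℕ → ℝ)
    (St TA : Set (Cell d)) (ah bf df : Cell d → ℝ) (EI : Cell d → ℝ) (W : Wld d E) : Prop where
  ok : WOK JA C' R0 Rz X W
  kd0 : ∀ Q, W.kd Q = 0 ↔ Q ∈ St ∧ Q ∈ TA
  kd1 : ∀ Q, W.kd Q = 1 ↔ Q ∈ St ∧ Q ∉ TA
  a_pos : ∀ Q ∈ St, 0 < W.a Q
  a0 : ∀ Q, 0 ≤ W.a Q
  str : ∀ Q ∈ St, WNw K' γ R1 Rs RM rm tol W Q
  she : ∀ Q ∈ St, Q ∈ TA → WSh J R0 κW W Q
  EI0 : ∀ Q, 0 ≤ EI Q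
  ifc : ∀ Q ∈ St, Q ∈ TA → WIf J W Q (EI Q)
  ab_le : ∀ Q ∈ St, Q ∈ TA → W.ab Q ≤ Kc * W.a Q
  ab_cmp : ∀ Q ∈ St, Q ∈ TA → ∀ Q' ∈ St, Q' ∈ TA → W.a Q' ≤ Cr * W.a Q → W.ab Q' ≤ Kc * W.ab Q
  sv_le : ∀ Q ∈ St, Q ∈ TA → W.a Q ≤ Cr * ah Q → |W.sv Q| ≤ 32 * R0 + 4
  E1_le : ∀ Q ∈ St, Q ∈ TA → W.er Q + W.dl Q + EI Q ≤ CK * (bf Q + κ * W.a Q) + Cs * df Q
  E2_le : ∀ Q ∈ St, Q ∈ TA → W.er Q ^ 2 / W.ab Q + W.dl Q ≤ CK * (κ * bf Q + df Q)

/-- MODULE WD: the world exists -/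
def StmtWD : Prop :=
  ∀ (d : ℕ) (V E : Type) [NormedAddCommGroup V] [InnerProductSpace ℝ V] [FiniteDimensional ℝ V]
    [NormedAddCommGroup E] [InnerProductSpace ℝ E] [FiniteDimensional ℝ E] [Nontrivial E]
    (L : (Sp d →L[ℝ] V) →L[ℝ] E), 2 ≤ d → CEll L → ∃ J : ℕ, 4 ≤ J ∧
    ∀ (M c0 : ℝ) (b : Sp d → ℝ), BaseKer (J + 14) M c0 b →
    ∀ (C' ε p0 A : ℝ), 0 < C' → 0 < ε → ε ≤ 1 / 4 →
    ∀ (JA : ℕ) (γ R0 : ℝ), 0 < γ → γ ≤ 1 / (32 * d) → 8 * d + 400 ≤ R0 →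
    ∀ (K Cr : ℝ), 1 ≤ K → 1 ≤ Cr →
    ∃ (Kc K' : ℝ), 1 ≤ Kc ∧ 1 ≤ K' ∧ ∀ κW : ℝ, 0 < κW →
    ∃ (CK κ0 : ℝ), 0 < CK ∧ 0 < κ0 ∧ ∀ κm : ℝ, 0 < κm →
    ∃ RN1 : ℝ, 1 ≤ RN1 ∧ ∀ RN : ℝ, RN1 ≤ RN →
    ∀ (Rs RM : ℝ) (tol : ℕ → ℝ), 1 ≤ Rs → (∀ J, 0 < tol J) → ∃ (R1 : ℝ) (rm : ℕ), ∀ Rz : ℝ,
    ∃ (Rm d0 CD Cs : ℝ) (r0 : ℕ), 0 < d0 ∧ d0 ≤ 1 ∧ 0 < CD ∧ 0 < Cs ∧ 10 ≤ r0 ∧
    ∀ R : ℝ, Rm ≤ R → ∀ u : Sp d → V, TF u → ∀ μ : Measure (Sp d), Gro C' μ →
    ∀ s0 : ℝ, 0 < s0 → ∀ e : Cell d → E, Dirs b ε R s0 (fo L u) e →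
    ∀ (ν : Cell d → Sp d) (c : Cell d → ℝ), Plns R0 s0 (fo L u) e ν c →
    ∀ κ : ℝ, κm ≤ κ → κ ≤ κ0 →
    ∃ (W : Wld d E) (EI : Cell d → ℝ),
      W.X = (⟨b, RN, ε, p0, A⟩ : Prm d) ∧ W.s0 = s0 ∧ W.μ = μ ∧ W.f = fo L u ∧ W.e = e ∧
      W.a = mC b ε (64 * R0) s0 (fo L u) ∧
      (∀ Q, W.D Q = CD * dsm r0 (dC b ε R s0 (fo L u) e) Q) ∧
      GoodW J JA C' R0 Rz (⟨b, RN, ε, p0, A⟩ : Prm d) Cr Kc K' γ κW CK κ Cs R1 Rs RM rm tol
        (Strc γ K d0 (mC b ε (64 * R0) s0 (fo L u)) (mT b ε s0 (fo L u))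
          (dC b ε R s0 (fo L u) e))
        (TyA κ (mC b ε (64 * R0) s0 (fo L u)) (dC b ε R s0 (fo L u) e)
          (bC R0 s0 (fo L u) e ν c))
        (mC b ε (32 * R0) s0 (fo L u)) (sh (bC R0 s0 (fo L u) e ν c))
        (sh (dC b ε R s0 (fo L u) e)) EI W

/-- MODULE WF: the sum of the values is finite -/
def StmtWF : Prop :=
  ∀ (d : ℕ), 2 ≤ d → ∀ (M c0 C' R B : ℝ), 0 < C' → 1 ≤ R → ∀ X : Prm d, PrmOK M c0 X →
    ∀ (E : Type) [NormedAddCommGroup E] [InnerProductSpace ℝ E] [FiniteDimensional ℝ E]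
      (W : Wld d E), W.X = X → 0 < W.s0 → Gro C' W.μ → Continuous W.f → HasCompactSupport W.f →
      (∀ Q, ‖W.e Q‖ = 1) → (∀ Q, ‖W.nv Q‖ = 1) → (∀ Q, 0 ≤ W.ab Q) →
      (∀ Q, W.kd Q = 0 → 0 < mC X.b X.ε R W.s0 W.f Q ∧
        W.ab Q ≤ B * mC X.b X.ε R W.s0 W.f Q ∧ |W.sv Q| ≤ B) →
      cs univ (fun Q => cw W.s0 Q * W.val Q) < ⊤

end

end TG


end

section

/-!
# MODULE TA2 (11.1): gain of a sheet cell, general case (helper79)
-/

open MeasureTheory Metric Set TrI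
open scoped InnerProductSpace ContDiff

namespace TG

namespace TA2Aux

noncomputable section

variable {d : ℕ}

/-- chi as a test function of arbitrary order -/
lemma chi_TFnJ (hd : 1 ≤ d) (J : ℕ) : ∃ N : ℝ, 0 < N ∧ TFn J N (chi : Sp d → ℝ) := by
  have hs : ContDiff ℝ J (chi : Sp d → ℝ) := by
    unfold chi chi1
    refine contDiff_prod fun j _ => ?_
    have h1 : ContDiff ℝ J Real.smoothTransition := Real.smoothTransition.contDiff (n := J)
    have h2 : ContDiff ℝ J fun y : Sp d => y j := by fun_prop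
    exact (h1.comp (h2.add contDiff_const)).sub (h1.comp h2)
  exact TU.TFn_of_cs hs (HasCompactSupport.intro (isCompact_closedBall (0 : Sp d) d)
    fun x hx => PTm.chi_supp (by
      rw [mem_closedBall, dist_zero_right, not_le] at hx
      exact hx.le) hd)

/-- Harnack inequality for v at unit scale -/
lemma vv_harnack (hd : 2 ≤ d) {C' : ℝ} (hC' : 0 < C') {μ : Measure (Sp d)} (hμ : Gro C' μ)
    {y : Sp d} {r : ℝ} (hy : ‖y‖ ≤ r) :
    vv μ 1 y ≤ Real.sqrt ((1 + r) ^ d) * vv μ 1 0 := by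
  obtain ⟨C, _, hTH⟩ := stmtTH d 0 hd C' hC'
  obtain ⟨_, _, _, h4, _⟩ := hTH μ hμ
  have h5 := h4 1 0 y one_pos
  have hr : 0 ≤ r := (norm_nonneg y).trans hy
  unfold vv
  rw [← Real.sqrt_mul (by positivity)]
  refine Real.sqrt_le_sqrt (h5.trans ?_)
  have h6 : 0 ≤ th μ 1 (0 : Sp d) := by
    unfold th
    exact integral_nonneg fun η => by
      simp only [kk, Pi.zero_apply]
      positivity
  refine mul_le_mul_of_nonneg_right ?_ h6
  rw [zero_sub, norm_neg, div_one]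
  exact pow_le_pow_left₀ (by positivity) (by linarith) d

/-- the lower bound of the off-sheet mass which follows from the sheet estimate -/
lemma blc_ge {J : ℕ} {R ab ep D : ℝ} {m : Sp d → ℝ} {n : Sp d} {s : ℝ}
    (hS : Sheet J R ab ep D m n s) {ρ : ℝ} (h0 : 0 ≤ ρ) (h1 : ρ ≤ R) :
    0 ≤ blc n s m (ρ + 1) + D := by
  have hz : TFn (J + 2) 0 (fun _ : Sp d => (0 : ℝ)) := by
    refine ⟨contDiff_const, fun j hj x => ?_⟩
    rw [show (fun _ : Sp d => (0 : ℝ)) = 0 from rfl]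
    simp
  have h2 := hS.est (fun _ => 0) ρ 0 1 contDiff_const h0 h1 (fun _ _ => rfl)
    (GSAux.TB_of_TFn hz hS.n1 s) (fun y => by
      rw [show (fun _ : Sp d => (0 : ℝ)) = 0 from rfl]
      simp)
  have h3 : plInt n s (fun _ : Sp d => (0 : ℝ)) = 0 := by
    unfold plInt
    simp
  simp only [mul_zero, integral_zero, h3, sub_zero, abs_zero, one_mul, zero_add] at h2
  exact h2

end

end TA2Aux

open _root_.TG.TA2Aux in
theorem stmtTA2 (hWA : StmtWA) (hUB : StmtUB) : StmtTA2 := by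
  intro d J hd M C' ε p0 A c R0 hC' hε hε1 hFK hR0
  have hε2 : ε ≤ 1 := by linarith only [hε1]
  have hA := hFK.A_ge
  have hc := hFK.c_pos
  obtain ⟨C1, hC1, h1⟩ := hWA d (J + 2) hd M C' ε hC' hε hε2
  obtain ⟨C2, hC2, h2⟩ := hUB d 2 hd M C' ε p0 A hC' hε hε2 hFK.p0_pos hFK.p0_le hA
  obtain ⟨Nc, hNc, hchi⟩ := chi_TFnJ (d := d) (by omega) (J + 2)
  set H0 : ℝ := Real.sqrt ((1 + (d : ℝ)) ^ d) with hH0
  have hH0p : 0 ≤ H0 := Real.sqrt_nonneg _
  set K1 : ℝ := 2 ^ (J + 2) * (Nc * (C1 * H0)) with hK1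
  set K2 : ℝ := 2 ^ 2 * (Nc * (C2 * H0 + c * (C1 * H0))) with hK2
  have hK1p : 0 ≤ K1 := by positivity
  have hK2p : 0 ≤ K2 := by positivity
  refine ⟨c, c * K1 + K2 + 1, hc, by positivity, ?_⟩
  intro β hβ μ hμ m n s ab ep D hm hD hZ hS
  obtain ⟨_, _, _, _, h1n⟩ := h1 β (PTm.kit_mono (by omega) hβ) μ hμ
  obtain ⟨hXs, hX0, hXb, _, _, _⟩ := h1n n hS.n1
  obtain ⟨_, _, _, _, _, _, _, _, _, h2n, _, _⟩ := h2 β (PTm.kit_mono (by omega) hβ) μ hμ
  obtain ⟨hHs, hHb⟩ := h2n n hS.n1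
  set v : ℝ := vv μ 1 0 with hv
  have hv0 : 0 ≤ v := Real.sqrt_nonneg _
  have hchis : ∀ y : Sp d, (d : ℝ) < ‖y - 0‖ → chi y = 0 := fun y hy => by
    rw [sub_zero] at hy
    exact PTm.chi_supp hy.le (by omega)
  have hdR : (d : ℝ) ≤ R0 := by
    have : (0 : ℝ) ≤ d := Nat.cast_nonneg d
    linarith
  have hvv : ∀ y : Sp d, ‖y - 0‖ ≤ d → vv μ 1 y ≤ H0 * v := fun y hy => by
    rw [sub_zero] at hy
    exact TA2Aux.vv_harnack hd hC' hμ hy
  -- the test function of the sheet estimate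
  have hζ : TFn (J + 2) (K1 * v) (fun y => chi y * XX β ε μ n 1 y) := by
    refine TU.TFn_mono (TU.TFn_mul_ball (x₀ := 0) (ρ := d) (M := C1 * (H0 * v)) hchi hchis hXs
      (fun j hj y hy => (hXb j hj y).trans (mul_le_mul_of_nonneg_left (hvv y hy) hC1.le))
      (by positivity)) le_rfl (le_of_eq ?_)
    rw [hK1]
    ring
  have hHX : ContDiff ℝ 2 (fun y => Hn β ε p0 A μ n 1 y - c * XX β ε μ n 1 y) :=
    (contDiff_infty.1 hHs 2).sub
      (contDiff_const.mul (hXs.of_le (by exact_mod_cast (by omega : 2 ≤ J + 2))))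
  have hF : TFn 2 (K2 * v) (fun y => chi y * (Hn β ε p0 A μ n 1 y - c * XX β ε μ n 1 y)) := by
    refine TU.TFn_mono (TU.TFn_mul_ball (x₀ := 0) (ρ := d)
      (M := C2 * (H0 * v) + c * (C1 * (H0 * v)))
      (TU.TFn_mono hchi (by omega : 2 ≤ J + 2) le_rfl) hchis hHX ?_
      (by (clear * - hC2 hd hv0 hc hC1; positivity))) le_rfl (le_of_eq ?_)
    · intro j hj y hy
      have e1 : ContDiffAt ℝ j (Hn β ε p0 A μ n 1) y := (contDiff_infty.1 hHs j).contDiffAt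
      have e2 : ContDiffAt ℝ j (XX β ε μ n 1) y :=
        (hXs.of_le (by exact_mod_cast (by omega : j ≤ J + 2))).contDiffAt
      have e3 : iteratedFDeriv ℝ j (fun y => Hn β ε p0 A μ n 1 y - c * XX β ε μ n 1 y) y =
          iteratedFDeriv ℝ j (Hn β ε p0 A μ n 1) y -
            c • iteratedFDeriv ℝ j (XX β ε μ n 1) y := by
        have e4 : (fun y => Hn β ε p0 A μ n 1 y - c * XX β ε μ n 1 y) =
            (fun y => Hn β ε p0 A μ n 1 y + (-c) • XX β ε μ n 1 y) := by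
          funext z
          simp only [smul_eq_mul]
          ring
        have e6 : ContDiffAt ℝ j (fun y => (-c) • XX β ε μ n 1 y) y := e2.const_smul (-c)
        have e7 : iteratedFDeriv ℝ j (fun y => (-c) • XX β ε μ n 1 y) y =
            (-c) • iteratedFDeriv ℝ j (XX β ε μ n 1) y := iteratedFDeriv_const_smul_apply' e2
        rw [e4, fun_iteratedFDeriv_add_apply e1 e6, e7, neg_smul, ← sub_eq_add_neg]
      rw [e3]
      refine (norm_sub_le _ _).trans (add_le_add ?_ ?_)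
      · exact (hHb j hj y).trans (mul_le_mul_of_nonneg_left (hvv y hy) hC2.le)
      · rw [norm_smul, Real.norm_eq_abs, abs_of_pos hc]
        exact mul_le_mul_of_nonneg_left ((hXb j (by omega) y).trans
          (mul_le_mul_of_nonneg_left (hvv y hy) hC1.le)) hc.le
    · rw [hK2]
      ring
  have hZF := GSAux.ZP' hZ hF (fun y => mul_nonneg (PTm.chi_nonneg y) (by
    have := hFK.gain β hβ μ hμ n hS.n1 y
    linarith)) (fun y hy => by
      rw [PTm.chi_supp (hdR.trans hy) (by omega), zero_mul])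
  have hest := hS.est (fun y => chi y * XX β ε μ n 1 y) d (K1 * v) (K1 * v)
    (by exact_mod_cast hζ.smooth) (Nat.cast_nonneg d) hdR
    (fun y hy => by rw [PTm.chi_supp hy (by omega), zero_mul])
    (GSAux.TB_of_TFn hζ hS.n1 s) (fun y => hζ.bd 2 (by omega) y)
  have hbD := blc_ge hS (Nat.cast_nonneg d) hdR
  have hep := hS.ep0
  -- integrability
  have hcs : HasCompactSupport (chi : Sp d → ℝ) :=
    HasCompactSupport.intro (isCompact_closedBall (0 : Sp d) d) fun x hx => PTm.chi_supp (by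
      rw [mem_closedBall, dist_zero_right, not_le] at hx
      exact hx.le) (by omega)
  have hchic : Continuous (chi : Sp d → ℝ) := hchi.smooth.continuous
  have hXc : Continuous (XX β ε μ n 1) := hXs.continuous
  have hHc : Continuous (Hn β ε p0 A μ n 1) := hHs.continuous
  have i1 : Integrable (fun y => m y * (chi y * XX β ε μ n 1 y)) :=
    (hm.mul (hchic.mul hXc)).integrable_of_hasCompactSupport (hcs.mul_right).mul_left
  have i2 : Integrable (fun y => m y * (chi y * Hn β ε p0 A μ n 1 y)) :=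
    (hm.mul (hchic.mul hHc)).integrable_of_hasCompactSupport (hcs.mul_right).mul_left
  have hsum : ∫ y, m y * (chi y * (Hn β ε p0 A μ n 1 y - c * XX β ε μ n 1 y)) =
      (∫ y, m y * (chi y * Hn β ε p0 A μ n 1 y)) -
        c * ∫ y, m y * (chi y * XX β ε μ n 1 y) := by
    rw [← integral_const_mul, ← integral_sub i2 (i1.const_mul c)]
    congr 1
    ext y
    ring
  rw [hsum] at hZF
  have h5 := (abs_le.1 hest).1
  have h6 := mul_le_mul_of_nonneg_left h5 hc.le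
  have h7 : 0 ≤ v * (ep + (blc n s m (d + 1) + D)) := mul_nonneg hv0 (by linarith)
  have h8 : 0 ≤ K2 * (v * (ep + (blc n s m (d + 1) + D))) := mul_nonneg hK2p h7
  have h9 : 0 ≤ v * D := mul_nonneg hv0 hD
  linarith only [hZF, h6, h7, h8, h9]

end TG


end

section

/-! MODULE TC: comparison of the gains on two planes, helper61 -/

open MeasureTheory Metric Set TrI Filter Topology
open scoped InnerProductSpace ContDiff

namespace TG

namespace TCm

noncomputable section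

variable {d : ℕ}

/-! ### change of the direction, fixed time -/

lemma vv_harnack {μ : Measure (Sp d)} (p : GPx.Pot μ) {t : ℝ} (ht : 0 < t) (x : Sp d) {ε : ℝ}
    (hε0 : 0 < ε) (hε : ε ≤ 1) {z : Sp d} (hz : ‖z‖ ≤ 1) :
    vv μ t (x + (ε * t) • z) ≤ 2 ^ d * vv μ t x := by
  refine p.harv ht ?_
  have : x - (x + (ε * t) • z) = -((ε * t) • z) := by abel
  rw [this, norm_neg, norm_smul, Real.norm_eq_abs, abs_of_pos (by positivity)]
  nlinarith only [ht, hε, hz, mul_pos hε0 ht]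

lemma vv_time (h : StmtTH) (hd : 2 ≤ d) {C' : ℝ} (hC' : 0 < C') : ∃ H : ℝ, 0 ≤ H ∧
    ∀ μ : Measure (Sp d), Gro C' μ → ∀ (t : ℝ) (y : Sp d), 1 / 2 ≤ t → t ≤ 2 →
      vv μ t y ≤ H * vv μ 1 y := by
  obtain ⟨C, hC, h1⟩ := h d 0 hd C' hC'
  refine ⟨Real.sqrt C, Real.sqrt_nonneg _, fun μ hμ t y h2 h3 => ?_⟩
  have h4 := (h1 μ hμ).2.2.2.2 t 1 y one_pos (by linarith only [h2]) (by linarith)
  unfold vv
  rw [← Real.sqrt_mul hC.le]
  exact Real.sqrt_le_sqrt h4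

lemma kk_int {μ : Measure (Sp d)} [IsFiniteMeasure μ] {t : ℝ} (ht : 0 < t) (y : Sp d) :
    Integrable (fun η => kk t (y - η)) μ := by
  refine Integrable.mono' (integrable_const (t / t ^ d))
    (GNaux.kk_meas t ht y).aestronglyMeasurable (Eventually.of_forall fun η => ?_)
  rw [Real.norm_of_nonneg (GNaux.kk_nonneg t ht.le _)]
  exact GNaux.kk_le t ht _

lemma pot_of (h : StmtTH) (hd : 2 ≤ d) {C' : ℝ} (hC' : 0 < C') {μ : Measure (Sp d)}
    (hμ : Gro C' μ) : GPx.Pot μ := by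
  obtain ⟨C, hC, H⟩ := h d 0 hd C' hC'
  obtain ⟨h1, h2, h3, h4, h5⟩ := H μ hμ
  exact ⟨hμ.fin, fun t x ht => (h1 t x ht).1, h2, h4⟩

lemma tang_cmp {n n' : Sp d} (hn : ‖n‖ = 1) (hn' : ‖n'‖ = 1) (g : Sp d) :
    ‖tang n g‖ ^ 2 ≤ 2 * ‖tang n' g‖ ^ 2 + 8 * ‖n - n'‖ ^ 2 * ‖g‖ ^ 2 := by
  have e : tang n g - tang n' g = -(⟪n - n', g⟫_ℝ • n' + ⟪n, g⟫_ℝ • (n - n')) := by
    unfold tang
    rw [inner_sub_left]
    module
  have h1 : ‖tang n g - tang n' g‖ ≤ 2 * ‖n - n'‖ * ‖g‖ := by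
    rw [e, norm_neg]
    refine (norm_add_le _ _).trans ?_
    rw [norm_smul, norm_smul, hn', mul_one, Real.norm_eq_abs, Real.norm_eq_abs]
    have a1 := abs_real_inner_le_norm (n - n') g
    have a2 := abs_real_inner_le_norm n g
    rw [hn, one_mul] at a2
    have a3 := mul_le_mul_of_nonneg_right a2 (norm_nonneg (n - n'))
    nlinarith
  have h2 : ‖tang n g‖ ≤ ‖tang n' g‖ + 2 * ‖n - n'‖ * ‖g‖ := by
    have := norm_sub_norm_le (tang n g) (tang n' g)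
    linarith
  have h3 : ‖tang n g‖ ^ 2 ≤ (‖tang n' g‖ + 2 * ‖n - n'‖ * ‖g‖) ^ 2 :=
    pow_le_pow_left₀ (norm_nonneg _) h2 2
  linarith only [h3, sq_nonneg (‖tang n' g‖ - 2 * ‖n - n'‖ * ‖g‖)]

lemma int_cmp {β : Sp d → ℝ} (hβ : Continuous β) (hs : ∀ x, 1 ≤ ‖x‖ → β x = 0)
    (h0 : ∀ x, 0 ≤ β x) (h1 : ∫ x, β x = 1) {F G : Sp d → ℝ} (hF : Continuous F)
    (hG : Continuous G) {K : ℝ} (hFG : ∀ z, ‖z‖ ≤ 1 → F z ≤ 2 * G z + K) :
    ∫ z, β z * F z ≤ 2 * (∫ z, β z * G z) + K := by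
  have iF := GPx.int_beta hβ hs hF
  have iG := GPx.int_beta hβ hs hG
  have iK := GPx.int_beta hβ hs (continuous_const (y := K))
  calc ∫ z, β z * F z ≤ ∫ z, (2 * (β z * G z) + β z * K) := by
        refine integral_mono iF ((iG.const_mul 2).add iK) (fun z => ?_)
        show β z * F z ≤ 2 * (β z * G z) + β z * K
        by_cases hz : ‖z‖ ≤ 1
        · have := mul_le_mul_of_nonneg_left (hFG z hz) (h0 z)
          linarith
        · rw [hs z (le_of_lt (not_le.mp hz))]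
          simp
    _ = _ := by
        rw [integral_add (iG.const_mul 2) iK, integral_const_mul, integral_mul_const, h1, one_mul]

lemma X1_cmp {μ : Measure (Sp d)} (p : GPx.Pot μ) {J : ℕ} {M : ℝ} {β : Sp d → ℝ}
    (hβ : IsProf J M β) {n n' : Sp d} (hn : ‖n‖ = 1) (hn' : ‖n'‖ = 1) {t : ℝ} (ht : 0 < t)
    (ε : ℝ) (y : Sp d) {K : ℝ}
    (hK : ∀ z : Sp d, ‖z‖ ≤ 1 → ‖gradient (vv μ t) (y + (ε * t) • z)‖ ^ 2 /
      vv μ t (y + (ε * t) • z) ≤ K) :
    X1 β ε μ n t y ≤ 2 * X1 β ε μ n' t y + 8 * ‖n - n'‖ ^ 2 * K := by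
  unfold X1
  refine int_cmp hβ.smooth.continuous hβ.supp hβ.nonneg hβ.int (p.cont_T ht ε n y)
    (p.cont_T ht ε n' y) (fun z hz => ?_)
  have hv := p.vpos ht (y + (ε * t) • z)
  have h1 := tang_cmp hn hn' (gradient (vv μ t) (y + (ε * t) • z))
  have h2 := div_le_div_of_nonneg_right h1 hv.le
  have h3 := mul_le_mul_of_nonneg_left (hK z hz) (show 0 ≤ 8 * ‖n - n'‖ ^ 2 by positivity)
  refine h2.trans ?_
  rw [add_div]
  have e1 : 2 * ‖tang n' (gradient (vv μ t) (y + (ε * t) • z))‖ ^ 2 / vv μ t (y + (ε * t) • z)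
    = 2 * (‖tang n' (gradient (vv μ t) (y + (ε * t) • z))‖ ^ 2 / vv μ t (y + (ε * t) • z)) := by
    ring
  have e2 : 8 * ‖n - n'‖ ^ 2 * ‖gradient (vv μ t) (y + (ε * t) • z)‖ ^ 2 /
      vv μ t (y + (ε * t) • z) = 8 * ‖n - n'‖ ^ 2 *
      (‖gradient (vv μ t) (y + (ε * t) • z)‖ ^ 2 / vv μ t (y + (ε * t) • z)) := by
    ring
  rw [e1, e2]
  linarith

lemma X3_cmp {μ : Measure (Sp d)} (p : GPx.Pot μ) {J : ℕ} {M : ℝ} {β : Sp d → ℝ}
    (hβ : IsProf J M β) {n n' : Sp d} (hn : ‖n‖ = 1) (hn' : ‖n'‖ = 1) {t : ℝ} (ht : 0 < t)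
    {ε : ℝ} (hε : 0 < ε) (hε1 : ε ≤ 1) (y : Sp d) {K : ℝ}
    (hK : ∀ z : Sp d, ‖z‖ ≤ 1 → ‖gradient (vv μ t) (y + (ε * t) • z)‖ ^ 2 /
      vv μ t (y + (ε * t) • z) ≤ K) :
    X3 β ε μ n t y ≤ 2 * X3 β ε μ n' t y + 8 * ‖n - n'‖ ^ 2 * K := by
  unfold X3
  refine int_cmp hβ.smooth.continuous hβ.supp hβ.nonneg hβ.int (p.cont_D ht ε n y)
    (p.cont_D ht ε n' y) (fun z hz => ?_)
  have hv := p.vpos ht (y + (ε * t) • z)
  set g := gradient (vv μ t) (y + (ε * t) • z) with hg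
  set a := dtv μ t (y + (ε * t) • z) with ha
  have e0 : ⟪z, n⟫_ℝ * ⟪g, n⟫_ℝ - ⟪z, n'⟫_ℝ * ⟪g, n'⟫_ℝ =
      ⟪z, n - n'⟫_ℝ * ⟪g, n⟫_ℝ + ⟪z, n'⟫_ℝ * ⟪g, n - n'⟫_ℝ := by
    rw [inner_sub_right, inner_sub_right]
    ring
  have b0 : |⟪z, n⟫_ℝ * ⟪g, n⟫_ℝ - ⟪z, n'⟫_ℝ * ⟪g, n'⟫_ℝ| ≤ 2 * ‖n - n'‖ * ‖g‖ := by
    rw [e0]
    refine (abs_add_le _ _).trans ?_
    rw [abs_mul, abs_mul]
    have a1 := abs_real_inner_le_norm z (n - n')
    have a2 := abs_real_inner_le_norm g n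
    have a3 := abs_real_inner_le_norm z n'
    have a4 := abs_real_inner_le_norm g (n - n')
    rw [hn, mul_one] at a2
    rw [hn', mul_one] at a3
    have c1 : |⟪z, n - n'⟫_ℝ| * |⟪g, n⟫_ℝ| ≤ (1 * ‖n - n'‖) * ‖g‖ := by
      refine mul_le_mul (a1.trans ?_) a2 (abs_nonneg _) (by (clear * -; positivity))
      exact mul_le_mul_of_nonneg_right hz (norm_nonneg _)
    have c2 : |⟪z, n'⟫_ℝ| * |⟪g, n - n'⟫_ℝ| ≤ 1 * (‖g‖ * ‖n - n'‖) :=
      mul_le_mul (a3.trans hz) a4 (abs_nonneg _) zero_le_one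
    linarith only [c1, c2]
  have b1 : (⟪z, n⟫_ℝ * ⟪g, n⟫_ℝ - ⟪z, n'⟫_ℝ * ⟪g, n'⟫_ℝ) ^ 2 ≤ (2 * ‖n - n'‖ * ‖g‖) ^ 2 :=
    sq_le_sq' (abs_le.mp b0).1 (abs_le.mp b0).2
  have b2 : ε ^ 2 ≤ 1 := by nlinarith only [hε1, hε]
  have h1 : (a + ε * ⟪z, n⟫_ℝ * ⟪g, n⟫_ℝ) ^ 2 ≤
      2 * (a + ε * ⟪z, n'⟫_ℝ * ⟪g, n'⟫_ℝ) ^ 2 + 8 * ‖n - n'‖ ^ 2 * ‖g‖ ^ 2 := by
    have e1 : a + ε * ⟪z, n⟫_ℝ * ⟪g, n⟫_ℝ = (a + ε * ⟪z, n'⟫_ℝ * ⟪g, n'⟫_ℝ) +
      ε * (⟪z, n⟫_ℝ * ⟪g, n⟫_ℝ - ⟪z, n'⟫_ℝ * ⟪g, n'⟫_ℝ) := by ring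
    rw [e1]
    set A := a + ε * ⟪z, n'⟫_ℝ * ⟪g, n'⟫_ℝ
    set B := ⟪z, n⟫_ℝ * ⟪g, n⟫_ℝ - ⟪z, n'⟫_ℝ * ⟪g, n'⟫_ℝ
    have c1 : (A + ε * B) ^ 2 ≤ 2 * A ^ 2 + 2 * (ε ^ 2 * B ^ 2) := by
      linarith only [sq_nonneg (A - ε * B)]
    have c2 : ε ^ 2 * B ^ 2 ≤ 1 * (2 * ‖n - n'‖ * ‖g‖) ^ 2 :=
      mul_le_mul b2 b1 (sq_nonneg _) zero_le_one
    linarith only [c1, c2]
  have h2 := div_le_div_of_nonneg_right h1 hv.le
  have h3 := mul_le_mul_of_nonneg_left (hK z hz) (show 0 ≤ 8 * ‖n - n'‖ ^ 2 by positivity)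
  refine h2.trans ?_
  rw [add_div]
  have e2 : 8 * ‖n - n'‖ ^ 2 * ‖g‖ ^ 2 / vv μ t (y + (ε * t) • z) = 8 * ‖n - n'‖ ^ 2 *
      (‖g‖ ^ 2 / vv μ t (y + (ε * t) • z)) := by
    ring
  rw [e2, mul_div_assoc]
  linarith

lemma X2_cmp {μ : Measure (Sp d)} (p : GPx.Pot μ) {n n' : Sp d} (hn : ‖n‖ = 1)
    (hn' : ‖n'‖ = 1) {t : ℝ} (ht1 : 1 / 2 ≤ t) (y : Sp d) :
    X2 μ n t y ≤ 2 * X2 μ n' t y + 8 * ‖n - n'‖ ^ 2 * vv μ t y := by
  have := p.fin
  have ht : 0 < t := by linarith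
  have hv := p.vpos ht y
  have hkk : Integrable (fun η => kk t (y - η)) μ := kk_int ht y
  have hint : ∀ m : Sp d, ‖m‖ = 1 →
      Integrable (fun η => ⟪η - y, m⟫_ℝ ^ 2 / (t ^ 2 + ‖y - η‖ ^ 2) ^ 2 * kk t (y - η)) μ := by
    intro m hm
    refine Integrable.mono' (hkk.const_mul 4) ?_ (Eventually.of_forall fun η => ?_)
    · refine Continuous.aestronglyMeasurable ?_
      refine Continuous.mul (Continuous.div (by fun_prop) (by fun_prop) ?_)
        (GNaux.kk_meas t ht y)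
      intro η
      (clear * - ht1; positivity)
    · have h1 : 0 ≤ ⟪η - y, m⟫_ℝ ^ 2 / (t ^ 2 + ‖y - η‖ ^ 2) ^ 2 := by (clear * - ht1; positivity)
      have h2 := GNaux.kk_nonneg t ht.le (y - η)
      rw [Real.norm_of_nonneg (mul_nonneg h1 h2)]
      refine mul_le_mul_of_nonneg_right ?_ h2
      have h3 : ⟪η - y, m⟫_ℝ ^ 2 ≤ ‖y - η‖ ^ 2 := by
        have h4 := abs_real_inner_le_norm (η - y) m
        rw [hm, mul_one, norm_sub_rev] at h4
        rw [← sq_abs]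
        (clear * - h4; gcongr)
      rw [div_le_iff₀ (by positivity)]
      have h6 : (1 / 4 : ℝ) ≤ t ^ 2 := by nlinarith only [ht1]
      have h7 : 0 ≤ ‖y - η‖ ^ 2 := sq_nonneg _
      linarith only [h3, h7, mul_nonneg (sub_nonneg.2 h6) h7, sq_nonneg (t ^ 2), sq_nonneg (‖y - η‖ ^ 2)]
  have key : (∫ η, ⟪η - y, n⟫_ℝ ^ 2 / (t ^ 2 + ‖y - η‖ ^ 2) ^ 2 * kk t (y - η) ∂μ) ≤
      2 * (∫ η, ⟪η - y, n'⟫_ℝ ^ 2 / (t ^ 2 + ‖y - η‖ ^ 2) ^ 2 * kk t (y - η) ∂μ) +
        8 * ‖n - n'‖ ^ 2 * th μ t y := by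
    unfold th
    rw [← integral_const_mul, ← integral_const_mul, ← integral_add
      ((hint n' hn').const_mul 2) (hkk.const_mul _)]
    refine integral_mono (hint n hn) (((hint n' hn').const_mul 2).add (hkk.const_mul _))
      (fun η => ?_)
    show ⟪η - y, n⟫_ℝ ^ 2 / (t ^ 2 + ‖y - η‖ ^ 2) ^ 2 * kk t (y - η) ≤
      2 * (⟪η - y, n'⟫_ℝ ^ 2 / (t ^ 2 + ‖y - η‖ ^ 2) ^ 2 * kk t (y - η)) +
        8 * ‖n - n'‖ ^ 2 * kk t (y - η)
    have h2 := GNaux.kk_nonneg t ht.le (y - η)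
    have h3 : ⟪η - y, n⟫_ℝ ^ 2 ≤ 2 * ⟪η - y, n'⟫_ℝ ^ 2 + 2 * (‖n - n'‖ ^ 2 * ‖y - η‖ ^ 2) := by
      have e : ⟪η - y, n⟫_ℝ = ⟪η - y, n'⟫_ℝ + ⟪η - y, n - n'⟫_ℝ := by
        rw [inner_sub_right]; ring
      have a1 := abs_real_inner_le_norm (η - y) (n - n')
      have a2 : ⟪η - y, n - n'⟫_ℝ ^ 2 ≤ (‖η - y‖ * ‖n - n'‖) ^ 2 :=
        sq_le_sq' (abs_le.mp a1).1 (abs_le.mp a1).2
      rw [norm_sub_rev η y, mul_pow] at a2
      rw [e]
      linarith only [a2, sq_nonneg (⟪η - y, n'⟫_ℝ - ⟪η - y, n - n'⟫_ℝ)]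
    have h4 : ‖y - η‖ ^ 2 / (t ^ 2 + ‖y - η‖ ^ 2) ^ 2 ≤ 4 := by
      rw [div_le_iff₀ (by positivity)]
      have h6 : (1 / 4 : ℝ) ≤ t ^ 2 := by nlinarith
      have h7 : 0 ≤ ‖y - η‖ ^ 2 := sq_nonneg _
      linarith only [h7, mul_nonneg (sub_nonneg.2 h6) h7, sq_nonneg (t ^ 2), sq_nonneg (‖y - η‖ ^ 2)]
    have h5 : ⟪η - y, n⟫_ℝ ^ 2 / (t ^ 2 + ‖y - η‖ ^ 2) ^ 2 ≤
        2 * (⟪η - y, n'⟫_ℝ ^ 2 / (t ^ 2 + ‖y - η‖ ^ 2) ^ 2) + 8 * ‖n - n'‖ ^ 2 := by
      have a1 := div_le_div_of_nonneg_right h3 (show 0 ≤ (t ^ 2 + ‖y - η‖ ^ 2) ^ 2 by positivity)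
      refine a1.trans ?_
      rw [add_div, mul_div_assoc, mul_div_assoc, mul_div_assoc]
      have a2 := mul_le_mul_of_nonneg_left h4 (show 0 ≤ ‖n - n'‖ ^ 2 by positivity)
      linarith
    have h6 := mul_le_mul_of_nonneg_right h5 h2
    linarith
  unfold X2
  rw [div_le_iff₀ hv]
  refine key.trans (le_of_eq ?_)
  have hvs := p.vsq ht y
  rw [← hvs]
  field_simp

/-! ### change of the direction, averages in time -/

lemma tau_le (r : ℝ) : tau 1 r ≤ 1 ∨ 2 < r := by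
  by_cases hr : r ≤ 2
  · left
    unfold tau
    refine max_le zero_le_one ((min_le_left _ _).trans ?_)
    linarith
  · right
    exact not_le.mp hr

lemma tav_cmp {F G : ℝ → Sp d → ℝ} {y : Sp d}
    (hF : IntervalIntegrable (fun r => tau 1 r * F r y) volume (1 / 2) 2)
    (hG : IntervalIntegrable (fun r => tau 1 r * G r y) volume (1 / 2) 2) {K : ℝ} (hK : 0 ≤ K)
    (H : ∀ r, 1 / 2 ≤ r → r ≤ 2 → F r y ≤ 2 * G r y + K) :
    tav F 1 y ≤ 2 * tav G 1 y + 2 * K := by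
  unfold tav
  rw [mul_one]
  have h1 : ∫ r in (1 / 2 : ℝ)..2, tau 1 r * F r y ≤
      ∫ r in (1 / 2 : ℝ)..2, (2 * (tau 1 r * G r y) + K) := by
    refine intervalIntegral.integral_mono_on (by norm_num) hF
      ((hG.const_mul 2).add (by simp)) (fun r hr => ?_)
    have h2 := mul_le_mul_of_nonneg_left (H r hr.1 hr.2) (GNaux.tau_nonneg 1 r)
    have h3 : tau 1 r * K ≤ K := by
      rcases tau_le r with h | h
      · exact mul_le_of_le_one_left hK h
      · linarith [hr.2]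
    linarith
  refine h1.trans ?_
  rw [intervalIntegral.integral_add (hG.const_mul 2) (by simp),
    intervalIntegral.integral_const_mul, intervalIntegral.integral_const, smul_eq_mul]
  linarith

lemma XX_cmp (h : StmtTH) (hd : 2 ≤ d) (J : ℕ) (M : ℝ) {C' ε : ℝ} (hC' : 0 < C') (hε : 0 < ε)
    (hε1 : ε ≤ 1) : ∃ C : ℝ, 0 < C ∧ ∀ β : Sp d → ℝ, Kit J M β → ∀ μ : Measure (Sp d),
      Gro C' μ → ∀ n n' : Sp d, ‖n‖ = 1 → ‖n'‖ = 1 → ∀ y,
        XX β ε μ n 1 y ≤ 2 * XX β ε μ n' 1 y + C * ‖n - n'‖ ^ 2 * vv μ 1 y := by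
  obtain ⟨C, hC, HTH⟩ := h d 1 hd C' hC'
  obtain ⟨H, hH, hHv⟩ := vv_time h hd hC'
  set K0 : ℝ := (2 * C) ^ 2 * 2 ^ d * H with hK0
  have hK00 : 0 ≤ K0 := by positivity
  refine ⟨2 * (8 * K0) + 2 * (8 * H) + 2 * (8 * K0) + 1, by positivity, ?_⟩
  intro β hβ μ hμ n n' hn hn' y
  have p := pot_of h hd hC' hμ
  obtain ⟨hp, hsm, hder, -⟩ := HTH μ hμ
  have hpos : ∀ (t : ℝ) (x : Sp d), 0 < t → 0 < vv μ t x := fun t x ht => p.vpos ht x
  have hsm' : ContDiffOn ℝ ∞ (GNaux.VV μ) {p | 0 < p.1} := hsm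
  have := hμ.fin
  have hβc : Continuous β := hβ.prof.smooth.continuous
  have hβs := hβ.prof.supp
  have hv1 := hpos 1 y one_pos
  have hsub : Icc (1 / 2 : ℝ) 2 ⊆ Ioi 0 := by
    intro t ht
    exact lt_of_lt_of_le (by norm_num) ht.1
  have hu : uIcc (1 / 2 : ℝ) 2 = Icc (1 / 2) 2 := uIcc_of_le (by norm_num)
  have i1 : ∀ m : Sp d, IntervalIntegrable (fun r => tau 1 r * X1 β ε μ m r y) volume (1 / 2) 2 := by
    intro m
    refine ContinuousOn.intervalIntegrable ?_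
    rw [hu]
    exact (GNaux.tau_cont 1).continuousOn.mul
      ((GNaux.cont_X1 μ hsm' hpos β hβc hβs ε m y).mono hsub)
  have i2 : ∀ m : Sp d, ‖m‖ = 1 →
      IntervalIntegrable (fun r => tau 1 r * X2 μ m r y) volume (1 / 2) 2 := by
    intro m hm
    refine ContinuousOn.intervalIntegrable ?_
    rw [hu]
    exact (GNaux.tau_cont 1).continuousOn.mul (GNaux.cont_X2 μ hsm' hpos m y hm)
  have i3 : ∀ m : Sp d, IntervalIntegrable (fun r => tau 1 r * X3 β ε μ m r y) volume (1 / 2) 2 := by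
    intro m
    refine ContinuousOn.intervalIntegrable ?_
    rw [hu]
    exact (GNaux.tau_cont 1).continuousOn.mul
      ((GNaux.cont_X3 μ hsm' hpos β hβc hβs ε m y).mono hsub)
  -- the gradient
  have hgr : ∀ (t : ℝ), 1 / 2 ≤ t → t ≤ 2 → ∀ z : Sp d, ‖z‖ ≤ 1 →
      ‖gradient (vv μ t) (y + (ε * t) • z)‖ ^ 2 / vv μ t (y + (ε * t) • z) ≤
        K0 * vv μ 1 y := by
    intro t ht1 ht2 z hz
    have ht : 0 < t := by linarith
    have hv := hpos t (y + (ε * t) • z) ht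
    have g1 : ‖gradient (vv μ t) (y + (ε * t) • z)‖ ≤ 2 * C * vv μ t (y + (ε * t) • z) := by
      rw [GNaux.grad_eq μ hsm' t ht, LinearIsometryEquiv.norm_map]
      have a1 := hder t (y + (ε * t) • z) 1 ht le_rfl
      rw [norm_iteratedFDeriv_one] at a1
      have a2 : ‖(fderiv ℝ (GNaux.VV μ) (t, y + (ε * t) • z)).comp
          (ContinuousLinearMap.inr ℝ ℝ (Sp d))‖ ≤
          ‖fderiv ℝ (GNaux.VV μ) (t, y + (ε * t) • z)‖ := by
        refine (ContinuousLinearMap.opNorm_comp_le _ _).trans ?_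
        exact mul_le_of_le_one_right (norm_nonneg _)
          (ContinuousLinearMap.norm_inr_le_one ℝ ℝ (Sp d))
      refine a2.trans (a1.trans ?_)
      rw [pow_one, div_le_iff₀ ht]
      nlinarith only [ht1, mul_pos hC hv]
    rw [div_le_iff₀ hv]
    have g2 := pow_le_pow_left₀ (norm_nonneg _) g1 2
    refine g2.trans ?_
    have g3 : vv μ t (y + (ε * t) • z) ≤ 2 ^ d * (H * vv μ 1 y) :=
      (vv_harnack p ht y hε hε1 hz).trans
        (mul_le_mul_of_nonneg_left (hHv μ hμ t y ht1 ht2) (by positivity))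
    have g4 := mul_le_mul_of_nonneg_left g3
      (show 0 ≤ (2 * C) ^ 2 * vv μ t (y + (ε * t) • z) by positivity)
    calc _ = (2 * C) ^ 2 * vv μ t (y + (ε * t) • z) * vv μ t (y + (ε * t) • z) := by ring
      _ ≤ _ := g4
      _ = _ := by rw [hK0]; ring
  have c1 := tav_cmp (i1 n) (i1 n') (K := 8 * ‖n - n'‖ ^ 2 * (K0 * vv μ 1 y)) (by (clear * - hC hH hv1; positivity))
    (fun r h1 h2 => X1_cmp p hβ.prof hn hn' (by linarith) ε y (hgr r h1 h2))
  have c3 := tav_cmp (i3 n) (i3 n') (K := 8 * ‖n - n'‖ ^ 2 * (K0 * vv μ 1 y)) (by (clear * - hC hH hv1; positivity))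
    (fun r h1 h2 => X3_cmp p hβ.prof hn hn' (by linarith) hε hε1 y (hgr r h1 h2))
  have c2 := tav_cmp (i2 n hn) (i2 n' hn') (K := 8 * ‖n - n'‖ ^ 2 * (H * vv μ 1 y))
    (by positivity) (fun r h1 h2 => by
      refine (X2_cmp p hn hn' h1 y).trans ?_
      have := mul_le_mul_of_nonneg_left (hHv μ hμ r y h1 h2)
        (show 0 ≤ 8 * ‖n - n'‖ ^ 2 by positivity)
      linarith)
  unfold XX
  have e : (2 * (8 * K0) + 2 * (8 * H) + 2 * (8 * K0) + 1) * ‖n - n'‖ ^ 2 * vv μ 1 y =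
    2 * (8 * ‖n - n'‖ ^ 2 * (K0 * vv μ 1 y)) + 2 * (8 * ‖n - n'‖ ^ 2 * (H * vv μ 1 y)) +
    2 * (8 * ‖n - n'‖ ^ 2 * (K0 * vv μ 1 y)) + ‖n - n'‖ ^ 2 * vv μ 1 y := by ring
  rw [e]
  have e2 : 0 ≤ ‖n - n'‖ ^ 2 * vv μ 1 y := by (clear * - hv1; positivity)
  linarith only [c1, c3, c2, e2]

/-! ### the rotation -/

lemma sum_norm {n n' : Sp d} (hn' : ‖n'‖ = 1) (hδ : ‖n - n'‖ ≤ 1) :
    1 ≤ ‖n + n'‖ := by
  have e : n + n' = (2 : ℝ) • n' + (n - n') := by module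
  have h1 : ‖(2 : ℝ) • n'‖ = 2 := by rw [norm_smul, hn']; norm_num
  have h2 := norm_sub_norm_le ((2 : ℝ) • n') (-(n - n'))
  rw [norm_neg, sub_neg_eq_add, ← e, h1] at h2
  linarith

/-- a rotation which maps n' to n -/
lemma rot {n n' : Sp d} (hn : ‖n‖ = 1) (hn' : ‖n'‖ = 1) (hδ : ‖n - n'‖ ≤ 1) :
    ∃ A : Sp d ≃ₗᵢ[ℝ] Sp d, A n' = n ∧ ∀ x, ‖A x - x‖ ≤ 8 * ‖n - n'‖ * ‖x‖ := by
  have hw := sum_norm hn' hδ
  have hw0 : 0 < ‖n + n'‖ := by linarith
  set m : Sp d := ‖n + n'‖⁻¹ • (n + n') with hm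
  have hm1 : ‖m‖ = 1 := by
    rw [hm, norm_smul, norm_inv, norm_norm, inv_mul_cancel₀ hw0.ne']
  have hnn : ‖n + n'‖ ^ 2 = 2 * (1 + ⟪n', n⟫_ℝ) := by
    rw [norm_add_sq_real, hn, hn', real_inner_comm]
    ring
  have hmn : ‖n' - m‖ ≤ 2 * ‖n - n'‖ := by
    have e : n' - m = ‖n + n'‖⁻¹ • (‖n + n'‖ • n' - (n + n')) := by
      rw [hm, smul_sub, smul_smul, inv_mul_cancel₀ hw0.ne', one_smul]
    have e2 : ‖n + n'‖ • n' - (n + n') = (‖n + n'‖ - 2) • n' - (n - n') := by module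
    have e3 : |‖n + n'‖ - 2| ≤ ‖n - n'‖ := by
      have h1 : ‖(2 : ℝ) • n'‖ = 2 := by rw [norm_smul, hn']; norm_num
      have h2 := abs_norm_sub_norm_le (n + n') ((2 : ℝ) • n')
      rw [h1] at h2
      have e4 : n + n' - (2 : ℝ) • n' = n - n' := by module
      rwa [e4] at h2
    rw [e, norm_smul, norm_inv, norm_norm, e2]
    have h3 : ‖(‖n + n'‖ - 2) • n' - (n - n')‖ ≤ 2 * ‖n - n'‖ := by
      refine (norm_sub_le _ _).trans ?_
      rw [norm_smul, hn', mul_one, Real.norm_eq_abs]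
      linarith
    have h4 : ‖n + n'‖⁻¹ ≤ 1 := inv_le_one_of_one_le₀ hw
    have h5 : 0 ≤ ‖n + n'‖⁻¹ := by positivity
    nlinarith [norm_nonneg ((‖n + n'‖ - 2) • n' - (n - n')), norm_nonneg (n - n')]
  refine ⟨(GPx.rf n').trans (GPx.rf m), ?_, ?_⟩
  · show GPx.rf m (GPx.rf n' n') = n
    have h1 : GPx.rf n' n' = -n' := by
      rw [GPx.rf_apply hn', real_inner_self_eq_norm_sq, hn']
      module
    rw [h1, map_neg, GPx.rf_apply hm1, hm, inner_smul_right, inner_add_right,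
      real_inner_self_eq_norm_sq, hn', smul_smul]
    have e : 2 * (‖n + n'‖⁻¹ * (⟪n', n⟫_ℝ + 1 ^ 2)) * ‖n + n'‖⁻¹ = 1 := by
      have : (‖n + n'‖⁻¹) ^ 2 * ‖n + n'‖ ^ 2 = 1 := by
        rw [← mul_pow, inv_mul_cancel₀ hw0.ne', one_pow]
      rw [hnn] at this
      linear_combination this
    rw [e, one_smul]
    abel
  · intro x
    show ‖GPx.rf m (GPx.rf n' x) - x‖ ≤ _
    set u := GPx.rf n' x with hu
    have hux : ‖u‖ = ‖x‖ := by rw [hu, LinearIsometryEquiv.norm_map]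
    have hx : x = GPx.rf n' u := by
      rw [hu, GPx.rf_apply hn', GPx.rf_apply hn', inner_sub_left, inner_smul_left,
        real_inner_self_eq_norm_sq, hn']
      simp only [RCLike.conj_to_real]
      module
    have e : GPx.rf m u - x = (2 * ⟪u, n' - m⟫_ℝ) • n' + (2 * ⟪u, m⟫_ℝ) • (n' - m) := by
      rw [hx, GPx.rf_apply hn', GPx.rf_apply hm1, inner_sub_right]
      module
    rw [e]
    refine (norm_add_le _ _).trans ?_
    rw [norm_smul, norm_smul, hn', mul_one, Real.norm_eq_abs, Real.norm_eq_abs, abs_mul, abs_mul,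
      abs_two]
    have a1 := abs_real_inner_le_norm u (n' - m)
    have a2 := abs_real_inner_le_norm u m
    rw [hm1, mul_one] at a2
    rw [hux] at a1 a2
    have a3 := mul_le_mul_of_nonneg_right a2 (norm_nonneg (n' - m))
    have a4 := mul_le_mul_of_nonneg_left hmn (norm_nonneg x)
    linarith only [a1, a3, a4]

/-! ### transport of plane integrals -/

lemma int_map (A : Sp d ≃ₗᵢ[ℝ] Sp d) (p q : Submodule ℝ (Sp d))
    (hq : q = p.map (A.toLinearEquiv : Sp d →ₗ[ℝ] Sp d)) (G : Sp d → ℝ) :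
    ∫ y : q, G y = ∫ y : p, G (A y) := by
  subst hq
  have e := (A.submoduleMap p).measurePreserving
  exact (e.integral_comp (A.submoduleMap p).toHomeomorph.measurableEmbedding
    (fun y => G y)).symm

lemma map_pl (A : Sp d ≃ₗᵢ[ℝ] Sp d) {n n' : Sp d} (hA : A n' = n) :
    (Submodule.span ℝ {n})ᗮ =
      (Submodule.span ℝ {n'})ᗮ.map (A.toLinearEquiv : Sp d →ₗ[ℝ] Sp d) := by
  ext y
  rw [Submodule.mem_orthogonal_singleton_iff_inner_right, Submodule.mem_map]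
  constructor
  · intro hy
    refine ⟨A.symm y, ?_, by simp⟩
    rw [Submodule.mem_orthogonal_singleton_iff_inner_right]
    have := A.inner_map_map n' (A.symm y)
    rw [A.apply_symm_apply, hA, hy] at this
    exact this.symm
  · rintro ⟨x, hx, rfl⟩
    rw [Submodule.mem_orthogonal_singleton_iff_inner_right] at hx
    have := A.inner_map_map n' x
    rw [hA, hx] at this
    exact this

lemma plInt_rot (A : Sp d ≃ₗᵢ[ℝ] Sp d) {n n' : Sp d} (hA : A n' = n) (s s' : ℝ) (g : Sp d → ℝ) :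
    plInt n s g = plInt n' s' (fun x => g (A x + (s - s') • n)) := by
  unfold plInt
  rw [int_map A _ _ (map_pl A hA) (fun y => g (s • n + y))]
  refine integral_congr_ae (Eventually.of_forall fun y => ?_)
  show g (s • n + A y) = g (A (s' • n' + y) + (s - s') • n)
  congr 1
  rw [map_add, map_smul, hA]
  module

/-! ### comparison of nonnegative functions on two planes -/

lemma two_pt {g : Sp d → ℝ} (hg : ContDiff ℝ 2 g) (h0 : ∀ y, 0 ≤ g y) {N : ℝ}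
    (hN : ∀ y, ‖iteratedFDeriv ℝ 2 g y‖ ≤ N) (x y : Sp d) :
    g y ≤ 2 * g x + 2 * N * ‖y - x‖ ^ 2 := by
  have h1 := abs_le.mp (SS.taylor hg hN x y)
  have h2 := abs_le.mp (SS.taylor hg hN x (x - (y - x)))
  have e : x - (y - x) - x = -(y - x) := by abel
  rw [e, map_neg, norm_neg] at h2
  have h3 := h0 (x - (y - x))
  linarith [h1.2, h2.2]

lemma pl_cmp (hPF : StmtPF) (hd : 1 ≤ d) (R : ℝ) (hR : 1 ≤ R) : ∃ C : ℝ, 0 < C ∧
    ∀ (n n' : Sp d) (s s' δ : ℝ), ‖n‖ = 1 → ‖n'‖ = 1 → ‖n - n'‖ ≤ δ → |s - s'| ≤ δ → δ ≤ 1 →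
    ∀ (g : Sp d → ℝ) (N : ℝ), ContDiff ℝ 2 g → (∀ y, 0 ≤ g y) →
      (∀ y, ‖iteratedFDeriv ℝ 2 g y‖ ≤ N) → (∀ y, R ≤ ‖y‖ → g y = 0) →
      plInt n s g ≤ 2 * plInt n' s' g + C * N * δ ^ 2 := by
  obtain ⟨C0, hC0, hb⟩ := (hPF d hd).1 (R + 2)
  refine ⟨2 * (8 * (R + 1) + 1) ^ 2 * C0, by positivity, ?_⟩
  intro n n' s s' δ hn hn' hnn hss hδ g N hg h0 hN hs
  have hδ0 : 0 ≤ δ := (norm_nonneg _).trans hnn
  have hN0 : 0 ≤ N := (norm_nonneg _).trans (hN 0)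
  obtain ⟨A, hA, hAx⟩ := rot hn hn' (hnn.trans hδ)
  rw [plInt_rot A hA s s']
  set F : Sp d → ℝ := fun x => max 0 (min 1 (R + 2 - ‖x‖)) with hF
  have hFc : Continuous F := by rw [hF]; fun_prop
  have hF0 : ∀ x, 0 ≤ F x := fun x => le_max_left _ _
  have hF1 : ∀ x, F x ≤ 1 := fun x => max_le zero_le_one (min_le_left _ _)
  have hFs : ∀ x, F x ≠ 0 → ‖tang n' x‖ ≤ R + 2 := by
    intro x hx
    refine (PF.norm_tang_le hn' x).trans ?_
    by_contra hc
    apply hx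
    show max 0 (min 1 (R + 2 - ‖x‖)) = 0
    refine max_eq_left ((min_le_right _ _).trans ?_)
    linarith [not_le.mp hc]
  have hFb := hb n' hn' F 1 hFc (fun y => by rw [abs_of_nonneg (hF0 y)]; exact hF1 y) hFs s'
  have hs1 : ‖(s - s') • n‖ ≤ δ := by
    rw [norm_smul, hn, mul_one, Real.norm_eq_abs]
    exact hss
  have hT : ∀ x, g (A x + (s - s') • n) ≠ 0 → ‖x‖ ≤ R + 1 := by
    intro x hx
    by_contra hc
    apply hx
    apply hs
    have h1 : ‖A x‖ = ‖x‖ := A.norm_map x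
    have h2 := norm_sub_norm_le (A x) (-((s - s') • n))
    rw [norm_neg, sub_neg_eq_add, h1] at h2
    linarith [not_le.mp hc]
  set K : ℝ := 2 * N * (8 * (R + 1) + 1) ^ 2 * δ ^ 2 with hK
  have hK0 : 0 ≤ K := by positivity
  have key : ∀ x, g (A x + (s - s') • n) ≤ 2 * g x + K * F x := by
    intro x
    by_cases hx : g (A x + (s - s') • n) = 0
    · rw [hx]
      have := h0 x
      have := mul_nonneg hK0 (hF0 x)
      linarith
    · have hx1 := hT x hx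
      have hx2 : F x = 1 := by
        show max 0 (min 1 (R + 2 - ‖x‖)) = 1
        rw [min_eq_left (by linarith), max_eq_right zero_le_one]
      rw [hx2, mul_one]
      refine (two_pt hg h0 hN x _).trans ?_
      have h3 : ‖A x + (s - s') • n - x‖ ≤ (8 * (R + 1) + 1) * δ := by
        have e : A x + (s - s') • n - x = (A x - x) + (s - s') • n := by abel
        rw [e]
        refine (norm_add_le _ _).trans ?_
        have h4 : 8 * ‖n - n'‖ * ‖x‖ ≤ 8 * δ * (R + 1) := by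
          refine mul_le_mul ?_ hx1 (norm_nonneg _) (by positivity)
          linarith
        linarith [hAx x]
      have h5 := pow_le_pow_left₀ (norm_nonneg _) h3 2
      have h6 := mul_le_mul_of_nonneg_left h5 (show 0 ≤ 2 * N by positivity)
      rw [hK]
      nlinarith
  have ig : Integrable (fun y : PF.Pl n' => g (s' • n' + (y : Sp d))) :=
    PF.integrable_pl hn' hg.continuous (ρ := R) (fun y hy => by
      refine (PF.norm_tang_le hn' y).trans ?_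
      by_contra hc
      exact hy (hs y (not_le.mp hc).le)) s'
  have iF : Integrable (fun y : PF.Pl n' => F (s' • n' + (y : Sp d))) :=
    PF.integrable_pl hn' hFc hFs s'
  have iG : Integrable (fun y : PF.Pl n' =>
      (fun x => g (A x + (s - s') • n)) (s' • n' + (y : Sp d))) :=
    PF.integrable_pl hn' (hg.continuous.comp (by fun_prop)) (ρ := R + 1) (fun y hy =>
      (PF.norm_tang_le hn' y).trans (hT y hy)) s'
  have h1 : plInt n' s' (fun x => g (A x + (s - s') • n)) ≤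
      2 * plInt n' s' g + K * plInt n' s' F := by
    unfold plInt
    rw [← integral_const_mul, ← integral_const_mul, ← integral_add (ig.const_mul 2)
      (iF.const_mul K)]
    exact integral_mono iG ((ig.const_mul 2).add (iF.const_mul K)) (fun y => key _)
  refine h1.trans ?_
  have h2 : plInt n' s' F ≤ C0 := by
    have := (abs_le.mp hFb).2
    linarith
  have h3 := mul_le_mul_of_nonneg_left h2 hK0
  rw [hK] at h3 ⊢
  linarith

lemma mul_d2 {φ X : Sp d → ℝ} (hφ : ContDiff ℝ 2 φ) (hX : ContDiff ℝ 2 X) {y : Sp d} {B : ℝ}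
    (h1 : ∀ j ≤ 2, ‖iteratedFDeriv ℝ j φ y‖ ≤ 1) (h2 : ∀ j ≤ 2, ‖iteratedFDeriv ℝ j X y‖ ≤ B) :
    ‖iteratedFDeriv ℝ 2 (fun x => φ x * X x) y‖ ≤ 4 * B := by
  have hB : 0 ≤ B := (norm_nonneg _).trans (h2 0 (by norm_num))
  refine (norm_iteratedFDeriv_mul_le (n := 2) hφ hX y le_rfl).trans ?_
  have h3 : ∀ i ∈ Finset.range (2 + 1), ((Nat.choose 2 i : ℕ) : ℝ) * ‖iteratedFDeriv ℝ i φ y‖ *
      ‖iteratedFDeriv ℝ (2 - i) X y‖ ≤ (Nat.choose 2 i : ℝ) * B := by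
    intro i hi
    have hi2 : i ≤ 2 := by
      have := Finset.mem_range.mp hi
      omega
    have a1 := h1 i hi2
    have a2 := h2 (2 - i) (by omega)
    rw [mul_assoc]
    refine mul_le_mul_of_nonneg_left ?_ (by positivity)
    calc _ ≤ 1 * B := mul_le_mul a1 a2 (norm_nonneg _) zero_le_one
      _ = B := one_mul B
  refine (Finset.sum_le_sum h3).trans (le_of_eq ?_)
  simp [Finset.sum_range_succ]
  ring

lemma supp_d2 {g : Sp d → ℝ} {R : ℝ} (hs : ∀ y, R ≤ ‖y‖ → g y = 0) {y : Sp d}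
    (hy : R < ‖y‖) : iteratedFDeriv ℝ 2 g y = 0 := by
  have h1 : y ∉ tsupport g := by
    intro h
    have h2 : tsupport g ⊆ closedBall 0 R := by
      refine closure_minimal (fun x hx => ?_) isClosed_closedBall
      rw [mem_closedBall_zero_iff]
      by_contra hc
      exact hx (hs x (not_le.mp hc).le)
    have h3 := h2 h
    rw [mem_closedBall_zero_iff] at h3
    linarith
  have h4 : y ∉ Function.support (iteratedFDeriv ℝ 2 g) :=
    fun h => h1 (support_iteratedFDeriv_subset 2 h)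
  simpa using h4

end

end TCm

open _root_.TG.TCm in
/-- MODULE TC -/
theorem stmtTC (hTH : StmtTH) (hWA : StmtWA) (hPF : StmtPF) : StmtTC := by
  intro d hd M C' ε R hC' hε hε4 hR
  obtain ⟨Cx, hCx, hx⟩ := XX_cmp (d := d) hTH hd 10 M hC' hε (by linarith)
  obtain ⟨Cw, hCw, hw⟩ := hWA d 6 hd M C' ε hC' hε (by linarith)
  obtain ⟨Cp, hCp, hp⟩ := pl_cmp (d := d) hPF (by omega) R hR
  obtain ⟨C0, hC0, hb⟩ := (hPF d (by omega)).1 R
  set Q : ℝ := (1 + R) ^ d with hQ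
  have hQ0 : 0 < Q := by positivity
  refine ⟨Cx * C0 * Q + 2 * Cp * (4 * (Cw * Q)) + C0 * (Cw * Q), by positivity, ?_⟩
  intro β hβ μ hμ n n' s s' δ hn hn' hnn hss φ hφ hφ0 hφs
  have p := pot_of hTH hd hC' hμ
  have hδ0 : 0 ≤ δ := (norm_nonneg _).trans hnn
  have hv0 := p.vpos one_pos (0 : Sp d)
  have hvc : Continuous (vv μ 1) := (p.smoothx one_pos).continuous
  have hvy : ∀ y : Sp d, ‖y‖ ≤ R → vv μ 1 y ≤ Q * vv μ 1 0 := by
    intro y hy
    have h1 := p.har 1 0 y one_pos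
    have h2 : (1 + ‖(0 : Sp d) - y‖ / 1) ^ d ≤ Q := by
      rw [zero_sub, norm_neg, div_one]
      exact pow_le_pow_left₀ (by positivity) (by linarith) d
    have hQ1 : 1 ≤ Q := one_le_pow₀ (by linarith)
    have h3 := p.pos 1 0 one_pos
    have h4 : th μ 1 y ≤ Q * th μ 1 0 := h1.trans (mul_le_mul_of_nonneg_right h2 h3.le)
    have h5 : vv μ 1 y ^ 2 ≤ (Q * vv μ 1 0) ^ 2 := by
      rw [p.vsq one_pos, mul_pow, p.vsq one_pos]
      nlinarith [mul_nonneg (mul_nonneg hQ0.le (sub_nonneg.2 hQ1)) h3.le]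
    exact (abs_le_of_sq_le_sq' h5 (by positivity)).2
  have hW : ∀ m : Sp d, ‖m‖ = 1 → ContDiff ℝ 6 (XX β ε μ m 1) ∧ (∀ y, 0 ≤ XX β ε μ m 1 y) ∧
      (∀ j ≤ 6, ∀ y, ‖iteratedFDeriv ℝ j (XX β ε μ m 1) y‖ ≤ Cw * vv μ 1 y) := by
    intro m hm
    obtain ⟨a1, a2, a3, -⟩ := (hw β hβ μ hμ).2.2.2.2 m hm
    exact ⟨a1, a2, a3⟩
  obtain ⟨cn, pn, bn⟩ := hW n hn
  obtain ⟨cn', pn', bn'⟩ := hW n' hn'
  have hφb : ∀ y, |φ y| ≤ 1 := by
    intro y
    have := hφ.bd 0 (by norm_num) y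
    rwa [norm_iteratedFDeriv_zero, Real.norm_eq_abs] at this
  have hφc : Continuous φ := hφ.smooth.continuous
  have hts : ∀ (G : Sp d → ℝ) (m : Sp d), ‖m‖ = 1 → ∀ y, φ y * G y ≠ 0 → ‖tang m y‖ ≤ R := by
    intro G m hm y hy
    refine (PF.norm_tang_le hm y).trans ?_
    by_contra hc
    apply hy
    rw [hφs y (not_le.mp hc).le, zero_mul]
  -- bounds of products
  have hbd : ∀ (G : Sp d → ℝ) (B : ℝ), 0 ≤ B → (∀ y, |G y| ≤ B * vv μ 1 y) →
      ∀ y, |φ y * G y| ≤ B * Q * vv μ 1 0 := by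
    intro G B hB hG y
    by_cases hy : R ≤ ‖y‖
    · rw [hφs y hy, zero_mul, abs_zero]
      positivity
    · rw [abs_mul]
      have h1 := hvy y (not_le.mp hy).le
      calc |φ y| * |G y| ≤ 1 * (B * (Q * vv μ 1 0)) :=
            mul_le_mul (hφb y) ((hG y).trans (mul_le_mul_of_nonneg_left h1 hB)) (abs_nonneg _)
              zero_le_one
        _ = _ := by ring
  have bn0 : ∀ y, |XX β ε μ n 1 y| ≤ Cw * vv μ 1 y := by
    intro y
    have := bn 0 (by norm_num) y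
    rwa [norm_iteratedFDeriv_zero, Real.norm_eq_abs] at this
  have hpos' : 0 ≤ plInt n' s' (fun x => φ x * XX β ε μ n' 1 x) :=
    integral_nonneg fun y => mul_nonneg (hφ0 _) (pn' _)
  by_cases hδ1 : δ ≤ 1
  · -- small δ
    have hφ2 : ContDiff ℝ 2 φ := hφ.smooth
    have cX : ContDiff ℝ 2 (XX β ε μ n' 1) := cn'.of_le (by norm_num)
    have hN : ∀ y, ‖iteratedFDeriv ℝ 2 (fun x => φ x * XX β ε μ n' 1 x) y‖ ≤
        4 * (Cw * Q) * vv μ 1 0 := by
      intro y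
      by_cases hy : ‖y‖ ≤ R
      · have h1 := mul_d2 (y := y) (B := Cw * vv μ 1 y) hφ2 cX (fun j hj => hφ.bd j hj y)
          (fun j hj => bn' j (by omega) y)
        refine h1.trans ?_
        have := mul_le_mul_of_nonneg_left (hvy y hy) hCw.le
        linarith
      · rw [supp_d2 (R := R) (fun y hy => by rw [hφs y hy, zero_mul]) (not_le.mp hy), norm_zero]
        positivity
    have h1 := hp n n' s s' δ hn hn' hnn hss hδ1 (fun x => φ x * XX β ε μ n' 1 x)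
      (4 * (Cw * Q) * vv μ 1 0) (hφ2.mul cX) (fun y => mul_nonneg (hφ0 y) (pn' y)) hN
      (fun y hy => by
        show φ y * XX β ε μ n' 1 y = 0
        rw [hφs y hy, zero_mul])
    have h2 := hb n hn (fun x => φ x * vv μ 1 x) (1 * Q * vv μ 1 0) (hφc.mul hvc)
      (hbd (vv μ 1) 1 zero_le_one (fun y => by
        rw [abs_of_pos (p.vpos one_pos y), one_mul])) (hts (vv μ 1) n hn) s
    have i0 : Integrable (fun y : PF.Pl n => (fun x => φ x * XX β ε μ n 1 x) (s • n + (y : Sp d))) :=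
      PF.integrable_pl hn (hφc.mul cn.continuous) (hts _ n hn) s
    have i1 : Integrable (fun y : PF.Pl n => (fun x => φ x * XX β ε μ n' 1 x)
        (s • n + (y : Sp d))) :=
      PF.integrable_pl hn (hφc.mul cn'.continuous) (hts _ n hn) s
    have i2 : Integrable (fun y : PF.Pl n => (fun x => φ x * vv μ 1 x) (s • n + (y : Sp d))) :=
      PF.integrable_pl hn (hφc.mul hvc) (hts _ n hn) s
    have h3 : plInt n s (fun x => φ x * XX β ε μ n 1 x) ≤
        2 * plInt n s (fun x => φ x * XX β ε μ n' 1 x) +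
          Cx * ‖n - n'‖ ^ 2 * plInt n s (fun x => φ x * vv μ 1 x) := by
      unfold plInt
      rw [← integral_const_mul, ← integral_const_mul, ← integral_add (i1.const_mul 2)
        (i2.const_mul _)]
      refine integral_mono i0 ((i1.const_mul 2).add (i2.const_mul _)) (fun y => ?_)
      have h4 := mul_le_mul_of_nonneg_left (hx β hβ μ hμ n n' hn hn' (s • n + (y : Sp d)))
        (hφ0 (s • n + (y : Sp d)))
      refine h4.trans (le_of_eq ?_)
      show _ = 2 * (φ (s • n + (y : Sp d)) * XX β ε μ n' 1 (s • n + (y : Sp d))) +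
        Cx * ‖n - n'‖ ^ 2 * (φ (s • n + (y : Sp d)) * vv μ 1 (s • n + (y : Sp d)))
      ring
    have h5 : plInt n s (fun x => φ x * vv μ 1 x) ≤ C0 * (Q * vv μ 1 0) := by
      have := (abs_le.mp h2).2
      linarith
    have h6 : ‖n - n'‖ ^ 2 ≤ δ ^ 2 := pow_le_pow_left₀ (norm_nonneg _) hnn 2
    have h7 : Cx * ‖n - n'‖ ^ 2 * plInt n s (fun x => φ x * vv μ 1 x) ≤
        Cx * δ ^ 2 * (C0 * (Q * vv μ 1 0)) := by
      refine mul_le_mul (mul_le_mul_of_nonneg_left h6 hCx.le) h5 ?_ (by positivity)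
      exact integral_nonneg fun y => mul_nonneg (hφ0 _) (p.vpos one_pos _).le
    have h8 : 0 ≤ C0 * (Cw * Q) * δ ^ 2 * vv μ 1 0 := by positivity
    refine h3.trans ?_
    linarith only [h1, h7, h8]
  · -- large δ
    have h1 := hb n hn (fun x => φ x * XX β ε μ n 1 x) (Cw * Q * vv μ 1 0)
      (hφc.mul cn.continuous) (hbd _ Cw hCw.le bn0) (hts _ n hn) s
    have h2 := (abs_le.mp h1).2
    have h3 : 1 ≤ δ ^ 2 := by nlinarith only [hδ1]
    have h4 : 0 ≤ C0 * (Cw * Q) * vv μ 1 0 := by positivity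
    have h5 : 0 ≤ (Cx * C0 * Q + 2 * Cp * (4 * (Cw * Q))) * δ ^ 2 * vv μ 1 0 := by positivity
    have h6 := mul_le_mul_of_nonneg_left h3 h4
    linarith only [hpos', h2, h5, h6]

end TG


end

section

/-!
# Trace inequality, general operators: module P1, the pair inequalities   (helper52)

Two sheets in cells of nearby levels.  Either the defects dominate the density of the first sheet,
or (module GS) the two planes are close and the densities are comparable; then module TC compares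
the gains, and near positivity compares the off-sheet masses.
-/

open MeasureTheory Metric Set TrI
open scoped InnerProductSpace ContDiff ENNReal

namespace TG

namespace P1x

noncomputable section

variable {d : ℕ}

/-! ## The alternative -/

lemma inner_smul_self {n : Sp d} (hn : ‖n‖ = 1) (s : ℝ) : ⟪n, s • n⟫_ℝ = s := by
  rw [inner_smul_right, real_inner_self_eq_norm_sq, hn]
  ring

lemma ZP_mono {R D D' : ℝ} {m : Sp d → ℝ} (h : ZP R D m) (hD : D ≤ D') : ZP R D' m := by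
  intro H h1 h2 h3 h4 h5
  have := h H h1 h2 h3 h4 h5
  linarith

/-- arithmetic of the second moment -/
lemma arith2 {ab ab' er er' e z C K0 : ℝ} (hab : 0 < ab) (hab' : 0 < ab') (h2 : ab' ≤ 2 * ab)
    (her : 0 ≤ er) (her' : 0 ≤ er') (he : 0 ≤ e) (hz : 0 ≤ z) (hC : 1 ≤ C) (hK : 1 ≤ K0)
    (hEr : C * (2 * (er + er') + e + K0 * z) ≤ ab) :
    ab * (C * (2 * (er + er') + e + K0 * z) / ab) ^ 2 ≤
      32 * C ^ 2 * K0 * (er ^ 2 / ab + er' ^ 2 / ab' + e + z) := by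
  have hC0 : 0 < C := by linarith
  have hK0 : 0 < K0 := by linarith
  have hEr0 : 0 ≤ 2 * (er + er') + e + K0 * z := by positivity
  have hEr1 : 2 * (er + er') + e + K0 * z ≤ ab := by nlinarith only [hEr, hC, hEr0]
  have e1 : e ≤ ab := by linarith only [her, her', hEr1, mul_nonneg hK0.le hz]
  have e2 : K0 * z ≤ ab := by linarith only [her, her', he, hEr1]
  have e3 : ab * (C * (2 * (er + er') + e + K0 * z) / ab) ^ 2 =
      C ^ 2 * ((2 * (er + er') + e + K0 * z) ^ 2 / ab) := by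
    field_simp
  have e4 : (2 * (er + er') + e + K0 * z) ^ 2 ≤
      16 * er ^ 2 + 16 * er' ^ 2 + 4 * e ^ 2 + 4 * (K0 * z) ^ 2 := by
    linarith only [sq_nonneg (2 * er - 2 * er'), sq_nonneg (2 * er - e), sq_nonneg (2 * er - K0 * z), sq_nonneg (2 * er' - e), sq_nonneg (2 * er' - K0 * z), sq_nonneg (e - K0 * z)]
  have e5 : er' ^ 2 / ab ≤ 2 * (er' ^ 2 / ab') := by
    rw [mul_div_assoc', div_le_div_iff₀ hab hab']
    linarith only [mul_le_mul_of_nonneg_left h2 (sq_nonneg er')]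
  have e6 : e ^ 2 / ab ≤ e := by
    rw [div_le_iff₀ hab]
    nlinarith only [he, e1]
  have e7 : (K0 * z) ^ 2 / ab ≤ K0 * z := by
    rw [div_le_iff₀ hab]
    nlinarith only [her, her', he, hEr1, mul_nonneg hK0.le hz]
  have e8 : 0 ≤ er ^ 2 / ab := by positivity
  have e9 : 0 ≤ er' ^ 2 / ab' := by positivity
  have e10 : (2 * (er + er') + e + K0 * z) ^ 2 / ab ≤
      16 * (er ^ 2 / ab) + 32 * (er' ^ 2 / ab') + 4 * e + 4 * (K0 * z) := by
    have h1 := div_le_div_of_nonneg_right e4 hab.le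
    have h3 : (16 * er ^ 2 + 16 * er' ^ 2 + 4 * e ^ 2 + 4 * (K0 * z) ^ 2) / ab =
        16 * (er ^ 2 / ab) + 16 * (er' ^ 2 / ab) + 4 * (e ^ 2 / ab) + 4 * ((K0 * z) ^ 2 / ab) := by
      ring
    rw [h3] at h1
    linarith only [e5, e6, e7, h1]
  rw [e3]
  have e11 : 16 * (er ^ 2 / ab) + 32 * (er' ^ 2 / ab') + 4 * e + 4 * (K0 * z) ≤
      32 * K0 * (er ^ 2 / ab + er' ^ 2 / ab' + e + z) := by
    have h1 : 0 ≤ (K0 - 1) * (er ^ 2 / ab + er' ^ 2 / ab' + e) := by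
      apply mul_nonneg <;> [linarith only [hK]; (clear * - hab hab' he; positivity)]
    have h3 : 0 ≤ K0 * z := by positivity
    linarith only [he, e8, h1, h3]
  calc C ^ 2 * ((2 * (er + er') + e + K0 * z) ^ 2 / ab) ≤
        C ^ 2 * (32 * K0 * (er ^ 2 / ab + er' ^ 2 / ab' + e + z)) :=
        mul_le_mul_of_nonneg_left (e10.trans e11) (by positivity)
    _ = _ := by ring

/-- either the defects dominate the density, or the two planes are close -/
lemma pair (hGS : StmtGS) (hd : 2 ≤ d) (J JA : ℕ) {R0 : ℝ} (hR0 : 1 ≤ R0) : ∃ K : ℝ, 1 ≤ K ∧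
    ∀ i ≤ JA, ∀ (m mx : Sp d → ℝ) (n n' x : Sp d) (s s' ab ab' er er' dl dl' D D' Kc κ : ℝ),
      Continuous m → Continuous mx → 0 ≤ D → 0 ≤ D' → 0 ≤ dl → 0 ≤ dl' →
      Sheet J (64 * R0) ab er dl m n s →
      Sheet J (64 * R0) ab' er' dl' (fun y => 2 ^ i * mx (x + (2 : ℝ) ^ i • y)) n' s' →
      ZP (64 * R0 + 1) D m → ZP (64 * R0 + 1) D' (fun y => 2 ^ i * mx (x + (2 : ℝ) ^ i • y)) →
      (∀ (Y : Sp d → ℝ) (N : ℝ), TFn 2 N Y → (∀ y, 64 * R0 + 1 ≤ ‖y‖ → Y y = 0) →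
        |∫ y, (mx y - m y) * Y y| ≤ N * D) →
      |s| ≤ 32 * R0 + 4 → ‖x‖ ≤ 3 * R0 * 2 ^ i → blc n s m (64 * R0) ≤ er →
      blc n' s' (fun y => 2 ^ i * mx (x + (2 : ℝ) ^ i • y)) (64 * R0) ≤ er' →
      1 ≤ Kc → 0 < κ → K * (κ * (1 + Kc)) ≤ 1 → er ≤ κ * ab → dl ≤ κ * ab → er' ≤ κ * ab' →
      dl' ≤ κ * ab' → ab' ≤ Kc * ab →
      ab ≤ K * (D + D') ∨ ∃ σ δ : ℝ, (σ = 1 ∨ σ = -1) ∧ 0 ≤ δ ∧ δ ≤ 1 ∧ ab ≤ 2 * ab' ∧
        ab' ≤ 2 * ab ∧ ‖n - σ • n'‖ ≤ δ ∧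
        |(1 / 2 : ℝ) ^ i * (s - ⟪n, x⟫_ℝ) - σ * s'| ≤ (1 + 3 * R0) * δ ∧
        ab * δ ≤ K * (er + er' + dl + dl' + D + D') ∧
        ab * δ ^ 2 ≤ K * (er ^ 2 / ab + er' ^ 2 / ab' + dl + dl' + D + D') := by
  have hG0 := fun i => hGS d J hd (64 * R0) i (by linarith)
  choose c1 C1 hc1 hC1 hG using hG0
  set C : ℝ := 1 + ∑ i ∈ Finset.range (JA + 1), (1 / c1 i + C1 i) with hC
  have hterm : ∀ i, 0 ≤ 1 / c1 i + C1 i := fun i => by
    have h1 := hc1 i
    have h2 := hC1 i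
    positivity
  have hCge : ∀ i ≤ JA, 1 / c1 i + C1 i ≤ C := by
    intro i hi
    have h1 : 1 / c1 i + C1 i ≤ ∑ i ∈ Finset.range (JA + 1), (1 / c1 i + C1 i) :=
      Finset.single_le_sum (f := fun i => 1 / c1 i + C1 i) (fun i _ => hterm i)
        (Finset.mem_range.2 (by omega))
    rw [hC]
    linarith
  have hC1' : 1 ≤ C := by
    have : 0 ≤ ∑ i ∈ Finset.range (JA + 1), (1 / c1 i + C1 i) :=
      Finset.sum_nonneg fun i _ => hterm i
    rw [hC]
    linarith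
  have hC0 : 0 < C := by linarith
  clear_value C
  set K0 : ℝ := (2 * (64 * R0) + 1) ^ 2 with hK0
  have hK01 : 2 ≤ K0 := by
    rw [hK0]
    nlinarith only [hR0]
  clear_value K0
  have hKK : 1 ≤ 32 * C ^ 2 * K0 := by nlinarith only [hC1', hK01]
  refine ⟨32 * C ^ 2 * K0, hKK, ?_⟩
  intro i hi m mx n n' x s s' ab ab' er er' dl dl' D D' Kc κ hm hmx hD hD' hdl hdl' hS hS' hZ hZ'
    hdir hs hx hbl hbl' hKc hκ hκK h1 h2 h3 h4 h5
  have hab := hS.ab0
  have hab' := hS'.ab0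
  have her := hS.ep0
  have her' := hS'.ep0
  have hT1 : (1 : ℝ) ≤ 2 ^ i := one_le_pow₀ (by norm_num)
  have hT0 : (0 : ℝ) < 2 ^ i := by positivity
  set Er : ℝ := 2 * (er + er') + (dl + dl') + K0 * (D + D') with hEr
  have hEr0 : 0 ≤ Er := by rw [hEr]; (clear * - her her' hdl hdl' hK01 hD hD'; positivity)
  by_cases hcase : C * Er ≤ ab / 2
  · right
    have hDt : 0 ≤ dl + dl' + K0 * (D + D') := by (clear * - hdl hdl' hK01 hD hD'; positivity)
    have hKD : D ≤ K0 * (D + D') := by nlinarith only [hD, hD', hK01]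
    have hKD' : D' ≤ K0 * (D + D') := by nlinarith only [hD, hK01, hD']
    have hp1 : ‖s • n‖ = |s| := by rw [norm_smul, hS.n1, mul_one, Real.norm_eq_abs]
    have hCi := hCge i hi
    have hc1i := hc1 i
    have hfin := hG i m mx n n' s s' ab ab' er er' (dl + dl' + K0 * (D + D')) Er x (s • n)
      hm hmx hDt (WT.sheet_mono hS le_rfl le_rfl hS.loc le_rfl (by linarith))
      (WT.sheet_mono hS' le_rfl le_rfl hS'.loc le_rfl (by linarith only [hD, hdl, hKD]))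
      (ZP_mono hZ (by linarith)) (ZP_mono hZ' (by linarith only [hdl, hdl', hKD'])) ?_ ?_ ?_ ?_ ?_ ?_
    · obtain ⟨g1, σ, hσ, g2⟩ := hfin
      have hC1i : C1 i * Er ≤ C * Er := by
        refine mul_le_mul_of_nonneg_right ?_ hEr0
        have : 0 ≤ 1 / c1 i := by positivity
        linarith only [hCi, this]
      have g1' := abs_le.1 (g1.trans hC1i)
      have g2' := g2.trans hC1i
      refine ⟨σ, C * Er / ab, hσ, by (clear * - hC1' her her' hdl hdl' hK01 hD hD' hab; positivity), ?_, by linarith only [hcase, g1'], by linarith only [hcase, g1'], ?_, ?_, ?_, ?_⟩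
      · rw [div_le_one hab]
        linarith only [hab, hcase]
      · rw [le_div_iff₀ hab]
        linarith only [g2, hC1i, mul_nonneg hab.le (abs_nonneg (s - σ * (⟪n', x⟫_ℝ + 2 ^ i * s')))]
      · set δ := C * Er / ab with hδ
        have hδ0 : 0 ≤ δ := by (clear * - hC1' her her' hdl hdl' hK01 hD hD' hab; positivity)
        have d1 : ‖n - σ • n'‖ ≤ δ := by
          rw [hδ, le_div_iff₀ hab]
          linarith only [g2, hC1i, mul_nonneg hab.le (abs_nonneg (s - σ * (⟪n', x⟫_ℝ + 2 ^ i * s')))]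
        have d2 : |s - σ * (⟪n', x⟫_ℝ + 2 ^ i * s')| ≤ δ := by
          rw [hδ, le_div_iff₀ hab]
          linarith only [g2, hC1i, mul_nonneg hab.le (norm_nonneg (n - σ • n'))]
        have hh : (1 / 2 : ℝ) ^ i * 2 ^ i = 1 := by rw [← mul_pow]; norm_num
        have e1 : (1 / 2 : ℝ) ^ i * (s - ⟪n, x⟫_ℝ) - σ * s' =
            (1 / 2 : ℝ) ^ i * ((s - σ * (⟪n', x⟫_ℝ + 2 ^ i * s')) - ⟪n - σ • n', x⟫_ℝ) := by
          rw [inner_sub_left, real_inner_smul_left]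
          linear_combination (σ * s') * hh
        rw [e1, abs_mul, abs_of_pos (by positivity)]
        have e2 : |⟪n - σ • n', x⟫_ℝ| ≤ δ * (3 * R0 * 2 ^ i) :=
          (abs_real_inner_le_norm _ _).trans (mul_le_mul d1 hx (norm_nonneg _) hδ0)
        have e3 : |(s - σ * (⟪n', x⟫_ℝ + 2 ^ i * s')) - ⟪n - σ • n', x⟫_ℝ| ≤
            (1 + 3 * R0) * δ * 2 ^ i := by
          refine (abs_sub _ _).trans ?_
          have : δ ≤ δ * 2 ^ i := le_mul_of_one_le_right hδ0 hT1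
          linarith only [d2, e2, this]
        calc (1 / 2 : ℝ) ^ i * |(s - σ * (⟪n', x⟫_ℝ + 2 ^ i * s')) - ⟪n - σ • n', x⟫_ℝ| ≤
              (1 / 2 : ℝ) ^ i * ((1 + 3 * R0) * δ * 2 ^ i) :=
              mul_le_mul_of_nonneg_left e3 (by positivity)
          _ = (1 + 3 * R0) * δ * ((1 / 2 : ℝ) ^ i * 2 ^ i) := by ring
          _ = _ := by rw [hh, mul_one]
      · rw [mul_div_cancel₀ _ hab.ne']
        have e1 : Er ≤ K0 * (er + er' + dl + dl' + D + D') := by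
          rw [hEr]
          nlinarith only [hdl, hdl', hK01, her, her']
        have e2 : 0 ≤ er + er' + dl + dl' + D + D' := by (clear * - her her' hdl hdl' hD hD'; positivity)
        calc C * Er ≤ C * (K0 * (er + er' + dl + dl' + D + D')) :=
              mul_le_mul_of_nonneg_left e1 hC0.le
          _ = (C * K0) * (er + er' + dl + dl' + D + D') := by ring
          _ ≤ (32 * C ^ 2 * K0) * (er + er' + dl + dl' + D + D') := by
              refine mul_le_mul_of_nonneg_right ?_ e2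
              have : C * K0 ≤ C ^ 2 * K0 := by
                refine mul_le_mul_of_nonneg_right ?_ (by linarith only [hK01])
                nlinarith only [hC1']
              linarith only [hKK, this]
      · have := arith2 (e := dl + dl') (z := D + D') hab hab' (by linarith only [hcase, g1']) her her'
          (by linarith) (by linarith) hC1' (by linarith : 1 ≤ K0) (by rw [← hEr]; linarith only [hab, hcase])
        rw [← hEr] at this
        refine this.trans (le_of_eq ?_)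
        ring
    · -- the difference
      intro Y hY1 hY2 hY3 hY4
      have hY : TFn 2 K0 Y := by
        have := SS.TFn_of_d2 hY1 (N := 1) (ρ := 64 * R0) (R := 64 * R0) (by linarith) le_rfl
          hY3 hY4 hS.n1
        rw [mul_one, ← hK0] at this
        exact this
      have h1 := hdir Y K0 hY (fun y hy => hY4 y (by linarith))
      have h2 : ∫ y, (m y - mx y) * Y y = -∫ y, (mx y - m y) * Y y := by
        rw [← integral_neg]
        congr 1
        ext y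
        ring
      rw [h2, abs_neg]
      refine h1.trans ?_
      nlinarith only [hdl, hdl', hD', hK0]
    · rw [hp1]
      linarith
    · unfold hgt
      rw [inner_smul_self hS.n1, sub_self, abs_zero]
      norm_num
    · refine (norm_sub_le _ _).trans ?_
      rw [hp1]
      have h1 : 0 ≤ (32 * R0 + 4) * (2 ^ i - 1) := mul_nonneg (by linarith) (by linarith)
      have h2 : 0 ≤ (29 * R0 - 7) * 2 ^ i := mul_nonneg (by linarith) (by linarith)
      linarith only [hs, hx, h1, h2]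
    · have e3 : max 0 (blc n s m (64 * R0)) ≤ er := max_le her hbl
      have e4 : max 0 (blc n' s' (fun y => 2 ^ i * mx (x + (2 : ℝ) ^ i • y)) (64 * R0)) ≤ er' :=
        max_le her' hbl'
      rw [hEr]
      linarith only [e3, e4]
    · have e1 : 1 / c1 i * Er ≤ C * Er :=
        mul_le_mul_of_nonneg_right (by have := hC1 i; linarith only [hCi, this]) hEr0
      have e2 : 1 / c1 i * Er ≤ ab := by linarith only [hab, hcase, e1]
      rw [div_mul_eq_mul_div, one_mul, div_le_iff₀ hc1i] at e2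
      linarith only [e2]
  · left
    push Not at hcase
    have e1 : er' ≤ κ * (Kc * ab) := h3.trans (mul_le_mul_of_nonneg_left h5 hκ.le)
    have e2 : dl' ≤ κ * (Kc * ab) := h4.trans (mul_le_mul_of_nonneg_left h5 hκ.le)
    have e3 : Er ≤ 3 * (κ * (1 + Kc)) * ab + K0 * (D + D') := by
      rw [hEr]
      linarith only [h1, h2, e1, e2]
    have e4 : C * Er ≤ C * (3 * (κ * (1 + Kc)) * ab + K0 * (D + D')) :=
      mul_le_mul_of_nonneg_left e3 hC0.le
    have e5 : 12 * C * (κ * (1 + Kc)) ≤ 1 := by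
      refine le_trans ?_ hκK
      refine mul_le_mul_of_nonneg_right ?_ (by positivity)
      nlinarith only [hC1', hK01]
    have e6 : 12 * C * (κ * (1 + Kc)) * ab ≤ ab := by nlinarith only [hdl, e5, hκ, h2]
    have e7 : ab ≤ 4 * (C * K0) * (D + D') := by linarith only [hcase, e4, e6]
    refine e7.trans (mul_le_mul_of_nonneg_right ?_ (by linarith))
    have : C * K0 ≤ C ^ 2 * K0 := by
      refine mul_le_mul_of_nonneg_right ?_ (by linarith)
      nlinarith only [hC1']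
    have h0 : 0 ≤ C ^ 2 * K0 := by positivity
    linarith only [hKK, this]

end

end P1x

end TG


end
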