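import Mathlib
import Pool.Agent.TRM.C02
import Pool.Agent.TRM.C07
import Pool.Agent.TRM.C08
import Pool.Agent.TRM.C10
import Pool.Agent.TRM.C11
import Pool.Agent.TRM.C15
import Pool.Agent.TRM.C17

/-! Parts: TG.CT3, TG.CT4, TG.NC, TG.P1b, TG.P1, TG.SHP -/

section

set_option autoImplicit false
set_option linter.unusedSectionVars false

/-!
# Module CT3: tail lemma (4'.4) and the sum of the tail gaps
-/

open MeasureTheory Metric Set TrI Filter
open scoped InnerProductSpace ContDiff ENNReal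

namespace TG

noncomputable section

namespace CT3

variable {d : ℕ} {E : Type} [NormedAddCommGroup E] [InnerProductSpace ℝ E] [FiniteDimensional ℝ E]
  {b : Sp d → ℝ}

/-! ## The gaps -/

lemma gm_cont (hb : AK b) (ε s0 : ℝ) {f : Sp d → E} (hf : Continuous f) (j : ℕ) :
    Continuous (gm b ε s0 f j) :=
  (hb.avk_cont (fl_cont hb ε s0 hf j).norm _).sub (fl_cont hb ε s0 hf (j + 1)).norm

lemma gm_cs (hb : AK b) (ε s0 : ℝ) {f : Sp d → E} (hc : HasCompactSupport f) (j : ℕ) :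
    HasCompactSupport (gm b ε s0 f j) :=
  (hb.avk_cs (fl_cs hb ε s0 hc j).norm _).sub (fl_cs hb ε s0 hc (j + 1)).norm

lemma gm_nonneg (hb : AK b) (ε s0 : ℝ) (f : Sp d → E) (j : ℕ) (y : Sp d) :
    0 ≤ gm b ε s0 f j y :=
  sub_nonneg.mpr (hb.norm_avk_le (fl b ε s0 f j) (ε * lev s0 (j + 1)) y)

lemma gm_integrable (hb : AK b) (ε s0 : ℝ) {f : Sp d → E} (hf : Continuous f)
    (hc : HasCompactSupport f) (j : ℕ) : Integrable (gm b ε s0 f j) :=
  (gm_cont hb ε s0 hf j).integrable_of_hasCompactSupport (gm_cs hb ε s0 hc j)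

lemma fl_nint (hb : AK b) (ε s0 : ℝ) {f : Sp d → E} (hf : Continuous f)
    (hc : HasCompactSupport f) (j : ℕ) : Integrable (fun y => ‖fl b ε s0 f j y‖) :=
  (fl_cont hb ε s0 hf j).norm.integrable_of_hasCompactSupport (fl_cs hb ε s0 hc j).norm

lemma gm_int (hb : AK b) (ε s0 : ℝ) {f : Sp d → E} (hf : Continuous f)
    (hc : HasCompactSupport f) (j : ℕ) :
    ∫ y, gm b ε s0 f j y = (∫ y, ‖fl b ε s0 f j y‖) - ∫ y, ‖fl b ε s0 f (j + 1) y‖ := by
  have hn := (fl_cont hb ε s0 hf j).norm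
  have hs := (fl_cs hb ε s0 hc j).norm
  rw [← hb.avk_int hn hs (ε * lev s0 (j + 1)), ← integral_sub]
  · rfl
  · exact (hb.avk_cont hn _).integrable_of_hasCompactSupport (hb.avk_cs hs _)
  · exact fl_nint hb ε s0 hf hc (j + 1)

lemma gm_sum (hb : AK b) (ε s0 : ℝ) {f : Sp d → E} (hf : Continuous f)
    (hc : HasCompactSupport f) (n : ℕ) :
    ∑ j ∈ Finset.range n, ∫ y, gm b ε s0 f j y ≤ ∫ y, ‖f y‖ := by
  simp_rw [gm_int hb ε s0 hf hc]
  rw [Finset.sum_range_sub' (fun j => ∫ y, ‖fl b ε s0 f j y‖)]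
  have h1 : 0 ≤ ∫ y, ‖fl b ε s0 f n y‖ := integral_nonneg fun _ => norm_nonneg _
  have h2 : ∫ y, ‖fl b ε s0 f 0 y‖ = ∫ y, ‖f y‖ := rfl
  linarith

lemma set_mono {g : Sp d → ℝ} (hg : Integrable g) (h0 : ∀ y, 0 ≤ g y) (x : Sp d) {r r' : ℝ}
    (h : r ≤ r') : ∫ y in ball x r, g y ≤ ∫ y in ball x r', g y :=
  setIntegral_mono_set hg.integrableOn (Eventually.of_forall h0)
    (ball_subset_ball h).eventuallyLE

/-- mass transfer with the gaps -/
lemma transfer (hb : AK b) (hev : ∀ x, b (-x) = b x) (hρ : ∀ x, 1 / 2 ≤ ‖x‖ → b x = 0)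
    {ε s0 : ℝ} (hε : 0 < ε) (hε1 : ε ≤ 1) (hs0 : 0 < s0) {f : Sp d → E} (hf : Continuous f)
    (hc : HasCompactSupport f) (x : Sp d) (R' : ℝ) (k : ℕ) :
    ∀ (l : ℕ) (r : ℝ), r + (lev s0 (l + k) - lev s0 l) ≤ R' →
      ∫ y in ball x r, ‖fl b ε s0 f l y‖ ≤ (∫ y in ball x R', ‖fl b ε s0 f (l + k) y‖) +
        ∑ j ∈ Finset.Ico l (l + k), ∫ y in ball x R', gm b ε s0 f j y := by
  induction k with
  | zero =>
    intro l r h
    rw [Nat.add_zero, Finset.Ico_self, Finset.sum_empty, add_zero]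
    rw [Nat.add_zero, sub_self, add_zero] at h
    exact set_mono (fl_nint hb ε s0 hf hc l) (fun _ => norm_nonneg _) x h
  | succ k ih =>
    intro l r h
    have hl := lev_pos hs0 l
    have hl1 := lev_succ s0 l
    have hlk : lev s0 (l + 1) ≤ lev s0 (l + (k + 1)) := by
      unfold lev
      gcongr
      · norm_num
      · omega
    have hs : 0 < ε * lev s0 (l + 1) := mul_pos hε (lev_pos hs0 _)
    have hn := (fl_cont hb ε s0 hf l).norm
    have s1 := hb.setInt_le_avk hev hρ (LB.of_cont hn) (fl_cs hb ε s0 hc l).norm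
      (fun _ => norm_nonneg _) hs (E := ball x r) (E' := ball x (r + lev s0 l))
      measurableSet_ball measurableSet_ball (fun y hy z hz => by
        rw [mem_ball, dist_eq_norm] at hy ⊢
        have h2 : ‖z - x‖ ≤ ‖z - y‖ + ‖y - x‖ := by
          rw [show z - x = (z - y) + (y - x) by abel]
          exact norm_add_le _ _
        rw [hl1] at hz
        nlinarith)
    have s2 : ∫ y in ball x (r + lev s0 l), avk b (ε * lev s0 (l + 1))
        (fun z => ‖fl b ε s0 f l z‖) y =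
        (∫ y in ball x (r + lev s0 l), ‖fl b ε s0 f (l + 1) y‖) +
          ∫ y in ball x (r + lev s0 l), gm b ε s0 f l y := by
      rw [← integral_add (fl_nint hb ε s0 hf hc (l + 1)).integrableOn
        (gm_integrable hb ε s0 hf hc l).integrableOn]
      refine integral_congr_ae (Eventually.of_forall fun y => ?_)
      simp only [gm]
      ring
    have s3 := ih (l + 1) (r + lev s0 l) (by
      rw [show l + 1 + k = l + (k + 1) by ring, hl1]
      linarith)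
    have s4 : ∫ y in ball x (r + lev s0 l), gm b ε s0 f l y ≤
        ∫ y in ball x R', gm b ε s0 f l y :=
      set_mono (gm_integrable hb ε s0 hf hc l) (gm_nonneg hb ε s0 f l) x (by linarith)
    rw [show l + 1 + k = l + (k + 1) by ring] at s3
    rw [Finset.sum_eq_sum_Ico_succ_bot (by omega : l < l + (k + 1))]
    linarith

/-! ## Geometry of cells -/

lemma xC_up {s0 : ℝ} (hs0 : 0 < s0) (i : ℕ) (P : Cell d) :
    ‖xC s0 (up i P) - xC s0 P‖ ≤ Real.sqrt d * lev s0 (P.1 + i) := by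
  have hl := lev_pos hs0 (P.1 + i)
  have hc : ∀ j, |(xC s0 (up i P) - xC s0 P) j| ≤ lev s0 (P.1 + i) := by
    intro j
    have e1 : (xC s0 (up i P) - xC s0 P) j =
        -(lev s0 P.1 * ((P.2 j % 2 ^ i : ℤ) : ℝ)) := by
      have e2 : (xC s0 (up i P) - xC s0 P) j =
          lev s0 (P.1 + i) * ((P.2 j / 2 ^ i : ℤ) : ℝ) - lev s0 P.1 * (P.2 j : ℝ) := by
        simp [xC, cen, up, lat]
      rw [e2, lev_add]
      have e3 : (P.2 j : ℝ) = 2 ^ i * ((P.2 j / 2 ^ i : ℤ) : ℝ) + ((P.2 j % 2 ^ i : ℤ) : ℝ) := by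
        have := Int.mul_ediv_add_emod (P.2 j) (2 ^ i)
        exact_mod_cast this.symm
      rw [e3]
      have e4 : (2 ^ i * (P.2 j / 2 ^ i) + P.2 j % 2 ^ i) = P.2 j :=
        Int.mul_ediv_add_emod (P.2 j) (2 ^ i)
      ring
    have h0 : (0 : ℝ) ≤ ((P.2 j % 2 ^ i : ℤ) : ℝ) := by
      exact_mod_cast Int.emod_nonneg _ (by positivity)
    have h1 : ((P.2 j % 2 ^ i : ℤ) : ℝ) ≤ 2 ^ i := by
      exact_mod_cast (Int.emod_lt_of_pos _ (by positivity)).le
    have hl0 := lev_pos hs0 P.1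
    rw [e1, abs_neg, abs_of_nonneg (by positivity), lev_add]
    nlinarith
  rw [EuclideanSpace.norm_eq]
  refine Real.sqrt_le_iff.mpr ⟨by positivity, ?_⟩
  calc ∑ j, ‖(xC s0 (up i P) - xC s0 P) j‖ ^ 2 ≤ ∑ _j : Fin d, lev s0 (P.1 + i) ^ 2 := by
        refine Finset.sum_le_sum fun j _ => ?_
        rw [Real.norm_eq_abs]
        exact pow_le_pow_left₀ (abs_nonneg _) (hc j) 2
    _ = (Real.sqrt d * lev s0 (P.1 + i)) ^ 2 := by
        rw [Finset.sum_const, Finset.card_univ, Fintype.card_fin, nsmul_eq_mul, mul_pow,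
          Real.sq_sqrt (Nat.cast_nonneg _)]

lemma nw_pos {s0 : ℝ} (hs0 : 0 < s0) (P : Cell d) : 0 < nw s0 P := by
  unfold nw
  have := lev_pos hs0 P.1
  positivity

lemma cw_nw (hd : 1 ≤ d) {s0 : ℝ} (hs0 : 0 < s0) (P : Cell d) : cw s0 P * nw s0 P = 1 := by
  unfold nw cw
  have hl := lev_pos hs0 P.1
  obtain ⟨k, rfl⟩ : ∃ k, d = k + 1 := ⟨d - 1, by omega⟩
  rw [Nat.add_sub_cancel, pow_succ]
  field_simp

lemma nw_up {s0 : ℝ} (hs0 : 0 < s0) (i : ℕ) (P : Cell d) :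
    nw s0 P * 2 ^ i = nw s0 (up i P) * (2 ^ i) ^ d := by
  unfold nw up
  have hl := lev_pos hs0 P.1
  simp only
  rw [lev_add, mul_pow]
  field_simp

/-- the mass in a ball is bounded by the tailed mass -/
lemma ball_le_mT (hb : AK b) {ε s0 : ℝ} (hs0 : 0 < s0) {f : Sp d → E} (hf : Continuous f)
    (hc : HasCompactSupport f) (Q : Cell d) (x : Sp d) {r ρ : ℝ} (hρ : 0 ≤ ρ)
    (h : r + ‖x - xC s0 Q‖ ≤ ρ * lev s0 Q.1) :
    nw s0 Q * ∫ y in ball x r, ‖fl b ε s0 f (Q.1 - 1) y‖ ≤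
      (1 + ρ) ^ (d + 2) * mT b ε s0 f Q := by
  have hl := lev_pos hs0 Q.1
  have hc0 := fl_cont hb ε s0 hf (Q.1 - 1)
  have hcs := (fl_cs hb ε s0 hc (Q.1 - 1)).norm
  have hden : ∀ y : Sp d, 0 < (1 + ‖y - xC s0 Q‖ / lev s0 Q.1) ^ (d + 2) := by
    intro y
    positivity
  have hcont : Continuous (fun y => ‖fl b ε s0 f (Q.1 - 1) y‖ /
      (1 + ‖y - xC s0 Q‖ / lev s0 Q.1) ^ (d + 2)) := by
    refine hc0.norm.div (by fun_prop) fun y => (hden y).ne'
  have hint : Integrable (fun y => ‖fl b ε s0 f (Q.1 - 1) y‖ /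
      (1 + ‖y - xC s0 Q‖ / lev s0 Q.1) ^ (d + 2)) := by
    refine hcont.integrable_of_hasCompactSupport (hcs.mono' ?_)
    intro y hy
    rw [Function.mem_support] at hy
    refine subset_closure ?_
    rw [Function.mem_support]
    intro h0
    apply hy
    rw [h0, zero_div]
  have h1 : ∫ y in ball x r, ‖fl b ε s0 f (Q.1 - 1) y‖ ≤
      (1 + ρ) ^ (d + 2) * ∫ y, ‖fl b ε s0 f (Q.1 - 1) y‖ /
        (1 + ‖y - xC s0 Q‖ / lev s0 Q.1) ^ (d + 2) := by
    rw [← integral_indicator measurableSet_ball, ← integral_const_mul]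
    refine integral_mono ((fl_nint hb ε s0 hf hc (Q.1 - 1)).indicator measurableSet_ball)
      (hint.const_mul _) fun y => ?_
    change (ball x r).indicator (fun y => ‖fl b ε s0 f (Q.1 - 1) y‖) y ≤ _
    by_cases hy : y ∈ ball x r
    · rw [Set.indicator_of_mem hy]
      rw [mem_ball, dist_eq_norm] at hy
      have h2 : ‖y - xC s0 Q‖ ≤ ‖y - x‖ + ‖x - xC s0 Q‖ := by
        rw [show y - xC s0 Q = (y - x) + (x - xC s0 Q) by abel]
        exact norm_add_le _ _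
      have h3 : ‖y - xC s0 Q‖ / lev s0 Q.1 ≤ ρ := by
        rw [div_le_iff₀ hl]
        linarith
      have h4 : (1 + ‖y - xC s0 Q‖ / lev s0 Q.1) ^ (d + 2) ≤ (1 + ρ) ^ (d + 2) := by
        gcongr
      rw [mul_div_assoc', le_div_iff₀ (hden y), mul_comm]
      exact mul_le_mul_of_nonneg_right h4 (norm_nonneg _)
    · rw [Set.indicator_of_notMem hy]
      have := hden y
      positivity
  have h5 := mul_le_mul_of_nonneg_left h1 (nw_pos hs0 Q).le
  refine h5.trans (le_of_eq ?_)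
  unfold mT
  ring


/-! ## The tail lemma -/

/-- the summands of the tail gaps -/
def Bt (b : Sp d → ℝ) (ε s0 : ℝ) (f : Sp d → E) (P : Cell d) (l : ℕ) : ℝ :=
  (1 / 2 : ℝ) ^ ((l + 1) * (d + 2)) *
    ∑ j ∈ Finset.Ico (P.1 - 1) (P.1 + l), ∫ y in ball (xC s0 P) (2 ^ (l + 2) * lev s0 P.1),
      gm b ε s0 f j y

lemma tG_eq (b : Sp d → ℝ) (ε s0 : ℝ) (f : Sp d → E) (P : Cell d) :
    tG b ε s0 f P = nw s0 P * ∑' l, Bt b ε s0 f P l := rfl

lemma Bt_nonneg (hb : AK b) (ε s0 : ℝ) (f : Sp d → E) (P : Cell d) (l : ℕ) :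
    0 ≤ Bt b ε s0 f P l :=
  mul_nonneg (by positivity)
    (Finset.sum_nonneg fun j _ => integral_nonneg fun y => gm_nonneg hb ε s0 f j y)

lemma Bt_le (hb : AK b) (ε s0 : ℝ) {f : Sp d → E} (hf : Continuous f)
    (hc : HasCompactSupport f) (P : Cell d) (l : ℕ) :
    Bt b ε s0 f P l ≤ (1 / 2 : ℝ) ^ l * ∫ y, ‖f y‖ := by
  unfold Bt
  have h0 : 0 ≤ ∫ y, ‖f y‖ := integral_nonneg fun _ => norm_nonneg _
  have h1 : ∑ j ∈ Finset.Ico (P.1 - 1) (P.1 + l),
      ∫ y in ball (xC s0 P) (2 ^ (l + 2) * lev s0 P.1), gm b ε s0 f j y ≤ ∫ y, ‖f y‖ := by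
    refine le_trans ?_ (gm_sum hb ε s0 hf hc (P.1 + l))
    calc ∑ j ∈ Finset.Ico (P.1 - 1) (P.1 + l),
          ∫ y in ball (xC s0 P) (2 ^ (l + 2) * lev s0 P.1), gm b ε s0 f j y ≤
        ∑ j ∈ Finset.Ico (P.1 - 1) (P.1 + l), ∫ y, gm b ε s0 f j y := by
          refine Finset.sum_le_sum fun j _ => ?_
          exact setIntegral_le_integral (gm_integrable hb ε s0 hf hc j)
            (Eventually.of_forall fun y => gm_nonneg hb ε s0 f j y)
      _ ≤ ∑ j ∈ Finset.range (P.1 + l), ∫ y, gm b ε s0 f j y := by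
          refine Finset.sum_le_sum_of_subset_of_nonneg ?_ fun j _ _ =>
            integral_nonneg fun y => gm_nonneg hb ε s0 f j y
          intro j hj
          rw [Finset.mem_Ico] at hj
          rw [Finset.mem_range]
          exact hj.2
  have h2 : (1 / 2 : ℝ) ^ ((l + 1) * (d + 2)) ≤ (1 / 2 : ℝ) ^ l := by
    refine pow_le_pow_of_le_one (by norm_num) (by norm_num) ?_
    nlinarith
  calc _ ≤ (1 / 2 : ℝ) ^ ((l + 1) * (d + 2)) * ∫ y, ‖f y‖ := by gcongr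
    _ ≤ _ := by gcongr

lemma Bt_summable (hb : AK b) (ε s0 : ℝ) {f : Sp d → E} (hf : Continuous f)
    (hc : HasCompactSupport f) (P : Cell d) : Summable (Bt b ε s0 f P) :=
  Summable.of_nonneg_of_le (Bt_nonneg hb ε s0 f P) (Bt_le hb ε s0 hf hc P)
    (summable_geometric_two.mul_right _)

lemma tG_nonneg (hb : AK b) (ε : ℝ) {s0 : ℝ} (hs0 : 0 < s0) (f : Sp d → E) (P : Cell d) :
    0 ≤ tG b ε s0 f P := by
  rw [tG_eq]
  exact mul_nonneg (nw_pos hs0 P).le (tsum_nonneg (Bt_nonneg hb ε s0 f P))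

lemma mT_nonneg (b : Sp d → ℝ) (ε : ℝ) {s0 : ℝ} (hs0 : 0 < s0) (f : Sp d → E) (Q : Cell d) :
    0 ≤ mT b ε s0 f Q := by
  have hl := lev_pos hs0 Q.1
  refine mul_nonneg (nw_pos hs0 Q).le (integral_nonneg fun y => ?_)
  positivity

lemma tail (hb : AK b) (hev : ∀ x, b (-x) = b x) (hρ : ∀ x, 1 / 2 ≤ ‖x‖ → b x = 0)
    {ε s0 : ℝ} (hε : 0 < ε) (hε1 : ε ≤ 1) (hs0 : 0 < s0) {f : Sp d → E} (hf : Continuous f)
    (hc : HasCompactSupport f) {l0 : ℕ}
    (hl0 : (3 + Real.sqrt d) ^ (d + 2) * 2 ^ d * ((1 / 4) ^ l0 * (4 / 3)) ≤ 1 / 2)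
    {γ : ℝ} (hγ : γ ≤ 1) (P : Cell d)
    (hP : ∀ l : ℕ, mT b ε s0 f (up l P) ≤ (2 : ℝ) ^ (γ * l) * mT b ε s0 f P) :
    mT b ε s0 f P ≤ 2 * mC b ε (2 ^ l0) s0 f P + 2 * 2 ^ (d + 2) * tG b ε s0 f P := by
  have hl := lev_pos hs0 P.1
  have hmT := mT_nonneg b ε hs0 f P
  have hnw := nw_pos hs0 P
  obtain ⟨g, hg⟩ : ∃ g : Sp d → ℝ, g = fun y => ‖fl b ε s0 f (P.1 - 1) y‖ := ⟨_, rfl⟩
  have hgi : Integrable g := by rw [hg]; exact fl_nint hb ε s0 hf hc _
  have hg0 : ∀ y, 0 ≤ g y := by rw [hg]; exact fun y => norm_nonneg _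
  have hgs : HasCompactSupport g := by rw [hg]; exact (fl_cs hb ε s0 hc _).norm
  -- a ball containing the support
  obtain ⟨L, hL⟩ : ∃ L : ℕ, ∀ y, g y ≠ 0 → ‖y - xC s0 P‖ < 2 ^ L * lev s0 P.1 := by
    obtain ⟨R, hR⟩ := hgs.isCompact.isBounded.subset_closedBall (xC s0 P)
    obtain ⟨L, hL⟩ := pow_unbounded_of_one_lt (R / lev s0 P.1) (one_lt_two : (1 : ℝ) < 2)
    refine ⟨L, fun y hy => ?_⟩
    have h1 := hR (subset_tsupport _ hy)
    rw [mem_closedBall, dist_eq_norm] at h1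
    rw [div_lt_iff₀ hl] at hL
    linarith
  -- pointwise bound
  have hpt : ∀ y, g y / (1 + ‖y - xC s0 P‖ / lev s0 P.1) ^ (d + 2) ≤
      (ball (xC s0 P) (2 ^ l0 * lev s0 P.1)).indicator g y +
      ∑ l ∈ Finset.Ico l0 L, (1 / 2 : ℝ) ^ (l * (d + 2)) *
        (ball (xC s0 P) (2 ^ (l + 1) * lev s0 P.1)).indicator g y := by
    intro y
    have hterm : ∀ l, 0 ≤ (1 / 2 : ℝ) ^ (l * (d + 2)) *
        (ball (xC s0 P) (2 ^ (l + 1) * lev s0 P.1)).indicator g y := fun l =>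
      mul_nonneg (by positivity) (Set.indicator_nonneg (fun z _ => hg0 z) y)
    have hsum := Finset.sum_nonneg (s := Finset.Ico l0 L) fun l _ => hterm l
    have hq : 0 ≤ ‖y - xC s0 P‖ / lev s0 P.1 := by positivity
    by_cases h1 : y ∈ ball (xC s0 P) (2 ^ l0 * lev s0 P.1)
    · rw [Set.indicator_of_mem h1]
      have h2 : g y / (1 + ‖y - xC s0 P‖ / lev s0 P.1) ^ (d + 2) ≤ g y :=
        div_le_self (hg0 y) (one_le_pow₀ (by linarith))
      linarith
    rw [Set.indicator_of_notMem h1, zero_add]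
    by_cases h2 : g y = 0
    · rw [h2, zero_div]
      exact hsum
    have h3 := hL y h2
    rw [mem_ball, dist_eq_norm, not_lt] at h1
    -- the shell
    have hex : ∃ l : ℕ, ‖y - xC s0 P‖ < 2 ^ (l + 1) * lev s0 P.1 := by
      refine ⟨L, h3.trans_le ?_⟩
      gcongr
      · norm_num
      · omega
    classical
    obtain ⟨l, hl1, hl2⟩ : ∃ l : ℕ, 2 ^ l * lev s0 P.1 ≤ ‖y - xC s0 P‖ ∧
        ‖y - xC s0 P‖ < 2 ^ (l + 1) * lev s0 P.1 := by
      by_cases h4 : Nat.find hex = 0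
      · have h5 := Nat.find_spec hex
        refine ⟨Nat.find hex, ?_, h5⟩
        rw [h4, pow_zero]
        refine le_trans ?_ h1
        gcongr
        exact one_le_pow₀ (by norm_num)
      · refine ⟨Nat.find hex, ?_, Nat.find_spec hex⟩
        have h5 := Nat.find_min hex (m := Nat.find hex - 1) (by omega)
        rw [not_lt, show Nat.find hex - 1 + 1 = Nat.find hex by omega] at h5
        exact h5
    have hl3 : l0 ≤ l := by
      by_contra h4
      have h5 : (2 : ℝ) ^ (l + 1) * lev s0 P.1 ≤ 2 ^ l0 * lev s0 P.1 := by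
        gcongr
        · norm_num
        · omega
      linarith
    have hl4 : l < L := by
      by_contra h4
      have h5 : (2 : ℝ) ^ L * lev s0 P.1 ≤ 2 ^ l * lev s0 P.1 := by
        gcongr
        · norm_num
        · omega
      linarith
    refine le_trans ?_ (Finset.single_le_sum (fun l _ => hterm l)
      (Finset.mem_Ico.mpr ⟨hl3, hl4⟩))
    rw [Set.indicator_of_mem (by rw [mem_ball, dist_eq_norm]; exact hl2)]
    have h6 : (2 : ℝ) ^ l ≤ ‖y - xC s0 P‖ / lev s0 P.1 := by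
      rw [le_div_iff₀ hl]
      exact hl1
    have h7 : ((2 : ℝ) ^ l) ^ (d + 2) ≤ (1 + ‖y - xC s0 P‖ / lev s0 P.1) ^ (d + 2) := by
      gcongr
      linarith
    have h8 : (1 / 2 : ℝ) ^ (l * (d + 2)) * g y = g y / ((2 : ℝ) ^ l) ^ (d + 2) := by
      rw [← pow_mul, one_div, inv_pow, div_eq_mul_inv, mul_comm]
    rw [h8]
    exact div_le_div_of_nonneg_left (hg0 y) (by positivity) h7
  -- integrate
  have hint1 : ∫ y, g y / (1 + ‖y - xC s0 P‖ / lev s0 P.1) ^ (d + 2) ≤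
      (∫ y in ball (xC s0 P) (2 ^ l0 * lev s0 P.1), g y) +
      ∑ l ∈ Finset.Ico l0 L, (1 / 2 : ℝ) ^ (l * (d + 2)) *
        ∫ y in ball (xC s0 P) (2 ^ (l + 1) * lev s0 P.1), g y := by
    have i1 : Integrable ((ball (xC s0 P) (2 ^ l0 * lev s0 P.1)).indicator g) :=
      hgi.indicator measurableSet_ball
    have i2 : ∀ l ∈ Finset.Ico l0 L, Integrable (fun y => (1 / 2 : ℝ) ^ (l * (d + 2)) *
        (ball (xC s0 P) (2 ^ (l + 1) * lev s0 P.1)).indicator g y) := fun l _ =>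
      (hgi.indicator measurableSet_ball).const_mul _
    have e1 : (∫ y in ball (xC s0 P) (2 ^ l0 * lev s0 P.1), g y) +
      ∑ l ∈ Finset.Ico l0 L, (1 / 2 : ℝ) ^ (l * (d + 2)) *
        ∫ y in ball (xC s0 P) (2 ^ (l + 1) * lev s0 P.1), g y =
      ∫ y, ((ball (xC s0 P) (2 ^ l0 * lev s0 P.1)).indicator g y +
      ∑ l ∈ Finset.Ico l0 L, (1 / 2 : ℝ) ^ (l * (d + 2)) *
        (ball (xC s0 P) (2 ^ (l + 1) * lev s0 P.1)).indicator g y) := by
      rw [integral_add i1 (integrable_finsetSum _ i2), integral_finsetSum _ i2,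
        integral_indicator measurableSet_ball]
      congr 1
      refine Finset.sum_congr rfl fun l _ => ?_
      rw [integral_const_mul, integral_indicator measurableSet_ball]
    rw [e1]
    refine integral_mono_of_nonneg (Eventually.of_forall fun y => ?_)
      (i1.add (integrable_finsetSum _ i2)) (Eventually.of_forall hpt)
    exact div_nonneg (hg0 y) (by positivity)
  -- the shells
  have hshell : ∀ l : ℕ, nw s0 P * ((1 / 2 : ℝ) ^ (l * (d + 2)) *
      ∫ y in ball (xC s0 P) (2 ^ (l + 1) * lev s0 P.1), g y) ≤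
      (3 + Real.sqrt d) ^ (d + 2) * 2 ^ d * (1 / 4) ^ l * mT b ε s0 f P +
        2 ^ (d + 2) * (nw s0 P * Bt b ε s0 f P l) := by
    intro l
    obtain ⟨k, hk⟩ : ∃ k, P.1 - 1 + k = P.1 + l := ⟨P.1 + l - (P.1 - 1), by omega⟩
    have hll : lev s0 (P.1 + l) = 2 ^ l * lev s0 P.1 := lev_add s0 P.1 l
    have hlm := lev_pos hs0 (P.1 - 1)
    have t1 := transfer hb hev hρ hε hε1 hs0 hf hc (xC s0 P) (2 ^ (l + 2) * lev s0 P.1) k
      (P.1 - 1) (2 ^ (l + 1) * lev s0 P.1) (by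
        rw [hk, hll]
        have e1 : (2 : ℝ) ^ (l + 2) = 4 * 2 ^ l := by ring
        have e2 : (2 : ℝ) ^ (l + 1) = 2 * 2 ^ l := by ring
        have e3 : (0 : ℝ) < 2 ^ l := by positivity
        rw [e1, e2]
        nlinarith only [hlm, hl, e3])
    rw [hk] at t1
    have t2 := ball_le_mT hb (ε := ε) hs0 hf hc (up (l + 1) P) (xC s0 P)
      (r := 2 ^ (l + 2) * lev s0 P.1) (ρ := 2 + Real.sqrt d) (by positivity) (by
        have h1 := xC_up hs0 (l + 1) P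
        rw [norm_sub_rev] at h1
        have e1 : lev s0 (up (l + 1) P).1 = 2 ^ (l + 1) * lev s0 P.1 := lev_add s0 P.1 (l + 1)
        have e2 : lev s0 (P.1 + (l + 1)) = 2 ^ (l + 1) * lev s0 P.1 := lev_add s0 P.1 (l + 1)
        rw [e2] at h1
        rw [e1]
        have e3 : (2 : ℝ) ^ (l + 2) = 2 * 2 ^ (l + 1) := by ring
        rw [e3]
        linarith)
    have e0 : (up (l + 1) P).1 - 1 = P.1 + l := rfl
    rw [e0, show (1 : ℝ) + (2 + Real.sqrt d) = 3 + Real.sqrt d by ring] at t2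
    have t3 := hP (l + 1)
    have t4 : (2 : ℝ) ^ (γ * ((l + 1 : ℕ) : ℝ)) ≤ 2 ^ (l + 1) := by
      rw [← Real.rpow_natCast 2 (l + 1)]
      refine Real.rpow_le_rpow_of_exponent_le (by norm_num) ?_
      have : (0 : ℝ) ≤ ((l + 1 : ℕ) : ℝ) := Nat.cast_nonneg _
      nlinarith only [hγ]
    have t5 : mT b ε s0 f (up (l + 1) P) ≤ 2 ^ (l + 1) * mT b ε s0 f P :=
      t3.trans (mul_le_mul_of_nonneg_right t4 hmT)
    have t6 := nw_up hs0 (l + 1) P
    obtain ⟨X, hX⟩ : ∃ X : ℝ, X = ∫ y in ball (xC s0 P) (2 ^ (l + 2) * lev s0 P.1),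
      ‖fl b ε s0 f (P.1 + l) y‖ := ⟨_, rfl⟩
    rw [← hX] at t1 t2
    have hX0 : 0 ≤ X := by rw [hX]; exact integral_nonneg fun _ => norm_nonneg _
    have hS0 : (0 : ℝ) ≤ (3 + Real.sqrt d) ^ (d + 2) := by positivity
    -- nw P X is bounded
    have t7 : nw s0 P * X ≤ ((2 : ℝ) ^ (l + 1)) ^ d * ((3 + Real.sqrt d) ^ (d + 2) *
        mT b ε s0 f P) := by
      have h1 : nw s0 P * 2 ^ (l + 1) * X =
          ((2 : ℝ) ^ (l + 1)) ^ d * (nw s0 (up (l + 1) P) * X) := by rw [t6]; ring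
      have h2 : nw s0 (up (l + 1) P) * X ≤
          (3 + Real.sqrt d) ^ (d + 2) * (2 ^ (l + 1) * mT b ε s0 f P) :=
        t2.trans (mul_le_mul_of_nonneg_left t5 hS0)
      have h3 : (0 : ℝ) < 2 ^ (l + 1) := by positivity
      have h4 : nw s0 P * 2 ^ (l + 1) * X ≤ ((2 : ℝ) ^ (l + 1)) ^ d *
          ((3 + Real.sqrt d) ^ (d + 2) * (2 ^ (l + 1) * mT b ε s0 f P)) := by
        rw [h1]
        exact mul_le_mul_of_nonneg_left h2 (by positivity)
      have h5 : (nw s0 P * X) * 2 ^ (l + 1) ≤ (((2 : ℝ) ^ (l + 1)) ^ d *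
          ((3 + Real.sqrt d) ^ (d + 2) * mT b ε s0 f P)) * 2 ^ (l + 1) := by
        calc (nw s0 P * X) * 2 ^ (l + 1) = nw s0 P * 2 ^ (l + 1) * X := by ring
          _ ≤ _ := h4
          _ = _ := by ring
      exact le_of_mul_le_mul_right h5 h3
    have e5 : (1 / 2 : ℝ) ^ (l * (d + 2)) * ((2 : ℝ) ^ (l + 1)) ^ d = 2 ^ d * (1 / 4) ^ l := by
      have a1 : (1 / 2 : ℝ) ^ (l * (d + 2)) = (1 / 2) ^ (l * d) * (1 / 4) ^ l := by
        rw [mul_add, pow_add, mul_comm l 2, pow_mul (1 / 2 : ℝ) 2 l]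
        norm_num
      have a2 : ((2 : ℝ) ^ (l + 1)) ^ d = 2 ^ (l * d) * 2 ^ d := by
        rw [← pow_mul, add_mul, one_mul, pow_add]
      have a3 : (1 / 2 : ℝ) ^ (l * d) * 2 ^ (l * d) = 1 := by
        rw [← mul_pow]
        norm_num
      rw [a1, a2]
      calc (1 / 2 : ℝ) ^ (l * d) * (1 / 4) ^ l * (2 ^ (l * d) * 2 ^ d) =
          ((1 / 2 : ℝ) ^ (l * d) * 2 ^ (l * d)) * (2 ^ d * (1 / 4) ^ l) := by ring
        _ = _ := by rw [a3, one_mul]
    have e6 : (1 / 2 : ℝ) ^ (l * (d + 2)) = 2 ^ (d + 2) * (1 / 2 : ℝ) ^ ((l + 1) * (d + 2)) := by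
      rw [add_mul, one_mul, pow_add]
      have a3 : (2 : ℝ) ^ (d + 2) * (1 / 2) ^ (d + 2) = 1 := by
        rw [← mul_pow]
        norm_num
      calc (1 / 2 : ℝ) ^ (l * (d + 2)) = ((2 : ℝ) ^ (d + 2) * (1 / 2) ^ (d + 2)) *
          (1 / 2 : ℝ) ^ (l * (d + 2)) := by rw [a3, one_mul]
        _ = _ := by ring
    obtain ⟨G, hG⟩ : ∃ G : ℝ, G = ∑ j ∈ Finset.Ico (P.1 - 1) (P.1 + l),
      ∫ y in ball (xC s0 P) (2 ^ (l + 2) * lev s0 P.1), gm b ε s0 f j y := ⟨_, rfl⟩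
    have hB : Bt b ε s0 f P l = (1 / 2 : ℝ) ^ ((l + 1) * (d + 2)) * G := by rw [hG]; rfl
    rw [← hG] at t1
    have hgX : ∫ y in ball (xC s0 P) (2 ^ (l + 1) * lev s0 P.1), g y ≤ X + G := by
      rw [hg]
      exact t1
    calc nw s0 P * ((1 / 2 : ℝ) ^ (l * (d + 2)) *
          ∫ y in ball (xC s0 P) (2 ^ (l + 1) * lev s0 P.1), g y) ≤
        nw s0 P * ((1 / 2 : ℝ) ^ (l * (d + 2)) * (X + G)) := by gcongr
      _ = (1 / 2 : ℝ) ^ (l * (d + 2)) * (nw s0 P * X) +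
          nw s0 P * ((1 / 2 : ℝ) ^ (l * (d + 2)) * G) := by ring
      _ ≤ (1 / 2 : ℝ) ^ (l * (d + 2)) * (((2 : ℝ) ^ (l + 1)) ^ d *
          ((3 + Real.sqrt d) ^ (d + 2) * mT b ε s0 f P)) +
          nw s0 P * ((1 / 2 : ℝ) ^ (l * (d + 2)) * G) := by gcongr
      _ = ((1 / 2 : ℝ) ^ (l * (d + 2)) * ((2 : ℝ) ^ (l + 1)) ^ d) *
          ((3 + Real.sqrt d) ^ (d + 2) * mT b ε s0 f P) +
          nw s0 P * ((2 ^ (d + 2) * (1 / 2 : ℝ) ^ ((l + 1) * (d + 2))) * G) := by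
            rw [← e6]; ring
      _ = _ := by rw [e5, hB]; ring
  -- sum up
  have hfin : mT b ε s0 f P ≤ nw s0 P * (∫ y in ball (xC s0 P) (2 ^ l0 * lev s0 P.1), g y) +
      ∑ l ∈ Finset.Ico l0 L, ((3 + Real.sqrt d) ^ (d + 2) * 2 ^ d * (1 / 4) ^ l * mT b ε s0 f P +
        2 ^ (d + 2) * (nw s0 P * Bt b ε s0 f P l)) := by
    have h1 : mT b ε s0 f P =
        nw s0 P * ∫ y, g y / (1 + ‖y - xC s0 P‖ / lev s0 P.1) ^ (d + 2) := by
      rw [hg]; rfl
    have h2 := mul_le_mul_of_nonneg_left hint1 hnw.le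
    rw [← h1, mul_add, Finset.mul_sum] at h2
    exact h2.trans (add_le_add le_rfl (Finset.sum_le_sum fun l _ => hshell l))
  have hmC : nw s0 P * (∫ y in ball (xC s0 P) (2 ^ l0 * lev s0 P.1), g y) =
      mC b ε (2 ^ l0) s0 f P := by
    rw [hg]; rfl
  rw [hmC, Finset.sum_add_distrib, ← Finset.sum_mul, ← Finset.mul_sum, ← Finset.mul_sum,
    ← Finset.mul_sum] at hfin
  have hgeo : ∑ l ∈ Finset.Ico l0 L, (1 / 4 : ℝ) ^ l ≤ (1 / 4) ^ l0 * (4 / 3) := by
    have := geom_sum_Ico_le_of_lt_one (m := l0) (n := L) (show (0 : ℝ) ≤ 1 / 4 by norm_num)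
      (by norm_num)
    refine this.trans (le_of_eq ?_)
    rw [div_eq_mul_inv]
    norm_num
  have hpart : ∑ l ∈ Finset.Ico l0 L, Bt b ε s0 f P l ≤ ∑' l, Bt b ε s0 f P l :=
    (Bt_summable hb ε s0 hf hc P).sum_le_tsum _ fun l _ => Bt_nonneg hb ε s0 f P l
  have h3 : (3 + Real.sqrt d) ^ (d + 2) * 2 ^ d * (∑ l ∈ Finset.Ico l0 L, (1 / 4 : ℝ) ^ l) *
      mT b ε s0 f P ≤ 1 / 2 * mT b ε s0 f P := by
    refine mul_le_mul_of_nonneg_right (le_trans ?_ hl0) hmT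
    exact mul_le_mul_of_nonneg_left hgeo (by positivity)
  have h4 : 2 ^ (d + 2) * (nw s0 P * ∑ l ∈ Finset.Ico l0 L, Bt b ε s0 f P l) ≤
      2 ^ (d + 2) * tG b ε s0 f P := by
    rw [tG_eq]
    gcongr
  linarith only [hfin, h3, h4]

/-! ## The sum of the tail gaps -/

lemma tsum_pred (F : ℕ → ℝ≥0∞) : ∑' k, F (k - 1) ≤ 2 * ∑' k, F k := by
  rw [tsum_eq_zero_add' ENNReal.summable, two_mul]
  refine add_le_add ?_ (le_of_eq ?_)
  · exact ENNReal.le_tsum 0
  · rfl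

lemma count (a : ℕ → ℝ≥0∞) (l : ℕ) :
    ∑' k, ∑ j ∈ Finset.Ico (k - 1) (k + l), a j ≤ ((l + 1 : ℕ) : ℝ≥0∞) * (2 * ∑' j, a j) := by
  have h1 : ∀ k, ∑ j ∈ Finset.Ico (k - 1) (k + l), a j ≤
      ∑ i ∈ Finset.range (l + 1), a (k - 1 + i) := by
    intro k
    rw [Finset.sum_Ico_eq_sum_range]
    refine Finset.sum_le_sum_of_subset (Finset.range_mono ?_)
    omega
  calc ∑' k, ∑ j ∈ Finset.Ico (k - 1) (k + l), a j
      ≤ ∑' k, ∑ i ∈ Finset.range (l + 1), a (k - 1 + i) := ENNReal.tsum_le_tsum h1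
    _ = ∑ i ∈ Finset.range (l + 1), ∑' k, a (k - 1 + i) :=
        Summable.tsum_finsetSum fun _ _ => ENNReal.summable
    _ ≤ ∑ _i ∈ Finset.range (l + 1), 2 * ∑' j, a j := by
        refine Finset.sum_le_sum fun i _ => ?_
        refine (tsum_pred fun k => a (k + i)).trans (mul_le_mul' le_rfl ?_)
        exact ENNReal.tsum_comp_le_tsum_of_injective (add_left_injective i) a
    _ = _ := by rw [Finset.sum_const, Finset.card_range, nsmul_eq_mul]

lemma tsum_gm (hb : AK b) (ε s0 : ℝ) {f : Sp d → E} (hf : Continuous f)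
    (hc : HasCompactSupport f) :
    ∑' j, ENNReal.ofReal (∫ y, gm b ε s0 f j y) ≤ ENNReal.ofReal (∫ y, ‖f y‖) := by
  refine ENNReal.tsum_le_of_sum_range_le fun n => ?_
  rw [← ENNReal.ofReal_sum_of_nonneg fun j _ => integral_nonneg fun y => gm_nonneg hb ε s0 f j y]
  exact ENNReal.ofReal_le_ofReal (gm_sum hb ε s0 hf hc n)

lemma level_le (hb : AK b) (ε : ℝ) {s0 : ℝ} (hs0 : 0 < s0) {f : Sp d → E} (hf : Continuous f)
    (hc : HasCompactSupport f) (l : ℕ) :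
    ∑' P : Cell d, ENNReal.ofReal (Bt b ε s0 f P l) ≤
      ENNReal.ofReal (2 * 8 ^ d * (1 / 2) ^ (l + 1)) * ENNReal.ofReal (∫ y, ‖f y‖) := by
  have e1 : ∀ P : Cell d, ENNReal.ofReal (Bt b ε s0 f P l) =
      ENNReal.ofReal ((1 / 2 : ℝ) ^ ((l + 1) * (d + 2))) *
        ∑ j ∈ Finset.Ico (P.1 - 1) (P.1 + l), ENNReal.ofReal
          (∫ y in ball (lev s0 P.1 • lat P.2) (2 ^ (l + 2) * lev s0 P.1), gm b ε s0 f j y) := by
    intro P
    unfold Bt
    rw [ENNReal.ofReal_mul (by positivity), ENNReal.ofReal_sum_of_nonneg fun j _ =>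
      integral_nonneg fun y => gm_nonneg hb ε s0 f j y]
    rfl
  simp_rw [e1]
  rw [ENNReal.tsum_mul_left]
  have e2 : ∑' P : Cell d, ∑ j ∈ Finset.Ico (P.1 - 1) (P.1 + l), ENNReal.ofReal
          (∫ y in ball (lev s0 P.1 • lat P.2) (2 ^ (l + 2) * lev s0 P.1), gm b ε s0 f j y) =
      ∑' (k : ℕ) (p : Fin d → ℤ), ∑ j ∈ Finset.Ico (k - 1) (k + l), ENNReal.ofReal
          (∫ y in ball (lev s0 k • lat p) (2 ^ (l + 2) * lev s0 k), gm b ε s0 f j y) :=
    ENNReal.tsum_prod (f := fun (k : ℕ) (p : Fin d → ℤ) =>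
      ∑ j ∈ Finset.Ico (k - 1) (k + l), ENNReal.ofReal
          (∫ y in ball (lev s0 k • lat p) (2 ^ (l + 2) * lev s0 k), gm b ε s0 f j y))
  rw [e2]
  have h1 : ∀ k j : ℕ, ∑' p : Fin d → ℤ, ENNReal.ofReal
          (∫ y in ball (lev s0 k • lat p) (2 ^ (l + 2) * lev s0 k), gm b ε s0 f j y) ≤
      ENNReal.ofReal ((2 * 2 ^ (l + 2) + 1) ^ d) * ENNReal.ofReal (∫ y, gm b ε s0 f j y) := by
    intro k j
    rw [ENNReal.tsum_eq_iSup_sum]
    refine iSup_le fun S => ?_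
    rw [← ENNReal.ofReal_sum_of_nonneg fun p _ =>
      integral_nonneg fun y => gm_nonneg hb ε s0 f j y, ← ENNReal.ofReal_mul (by positivity)]
    exact ENNReal.ofReal_le_ofReal (PK.overlap (lev s0 k) (2 ^ (l + 2)) (lev_pos hs0 k)
      (by positivity) S (gm_integrable hb ε s0 hf hc j) (gm_nonneg hb ε s0 f j))
  have h2 : ∑' (k : ℕ) (p : Fin d → ℤ), ∑ j ∈ Finset.Ico (k - 1) (k + l), ENNReal.ofReal
          (∫ y in ball (lev s0 k • lat p) (2 ^ (l + 2) * lev s0 k), gm b ε s0 f j y) ≤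
      ENNReal.ofReal ((2 * 2 ^ (l + 2) + 1) ^ d) * (((l + 1 : ℕ) : ℝ≥0∞) *
        (2 * ENNReal.ofReal (∫ y, ‖f y‖))) := by
    calc _ ≤ ∑' k : ℕ, ∑ j ∈ Finset.Ico (k - 1) (k + l),
          ENNReal.ofReal ((2 * 2 ^ (l + 2) + 1) ^ d) *
            ENNReal.ofReal (∫ y, gm b ε s0 f j y) := by
          refine ENNReal.tsum_le_tsum fun k => ?_
          rw [Summable.tsum_finsetSum fun _ _ => ENNReal.summable]
          exact Finset.sum_le_sum fun j _ => h1 k j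
      _ = ENNReal.ofReal ((2 * 2 ^ (l + 2) + 1) ^ d) *
          ∑' k : ℕ, ∑ j ∈ Finset.Ico (k - 1) (k + l),
            ENNReal.ofReal (∫ y, gm b ε s0 f j y) := by
          rw [← ENNReal.tsum_mul_left]
          congr 1
          funext k
          rw [Finset.mul_sum]
      _ ≤ _ := by
          gcongr
          refine (count _ l).trans ?_
          gcongr
          exact tsum_gm hb ε s0 hf hc
  calc _ ≤ ENNReal.ofReal ((1 / 2 : ℝ) ^ ((l + 1) * (d + 2))) *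
        (ENNReal.ofReal ((2 * 2 ^ (l + 2) + 1) ^ d) * (((l + 1 : ℕ) : ℝ≥0∞) *
        (2 * ENNReal.ofReal (∫ y, ‖f y‖)))) := by gcongr
    _ = ENNReal.ofReal ((1 / 2 : ℝ) ^ ((l + 1) * (d + 2)) * ((2 * 2 ^ (l + 2) + 1) ^ d *
        (((l + 1 : ℕ) : ℝ) * 2))) * ENNReal.ofReal (∫ y, ‖f y‖) := by
        rw [ENNReal.ofReal_mul (by positivity), ENNReal.ofReal_mul (by positivity),
          ENNReal.ofReal_mul (by positivity), ENNReal.ofReal_natCast, ENNReal.ofReal_ofNat]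
        ring
    _ ≤ _ := by
        refine mul_le_mul' (ENNReal.ofReal_le_ofReal ?_) le_rfl
        have a0 : (2 * 2 ^ (l + 2) + 1 : ℝ) ≤ 2 ^ (l + 1) * 8 := by
          have e1 : (2 : ℝ) ^ (l + 2) = 2 * 2 ^ (l + 1) := by ring
          have e2 : (1 : ℝ) ≤ 2 ^ (l + 1) := one_le_pow₀ (by norm_num)
          rw [e1]
          linarith
        have a1 : ((2 * 2 ^ (l + 2) + 1 : ℝ)) ^ d ≤ (2 ^ (l + 1)) ^ d * 8 ^ d := by
          rw [← mul_pow]
          gcongr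
        have a2 : (((l + 1 : ℕ) : ℝ)) ≤ 2 ^ (l + 1) := by
          exact_mod_cast (Nat.lt_two_pow_self (n := l + 1)).le
        have a3 : (1 / 2 : ℝ) ^ ((l + 1) * (d + 2)) =
            (1 / 2) ^ ((l + 1) * d) * ((1 / 2) ^ (l + 1) * (1 / 2) ^ (l + 1)) := by
          rw [mul_add, pow_add, mul_comm (l + 1) 2, pow_mul (1 / 2 : ℝ) 2 (l + 1), ← mul_pow]
          norm_num
        have a4 : (1 / 2 : ℝ) ^ ((l + 1) * d) * (2 ^ (l + 1)) ^ d = 1 := by
          rw [← pow_mul, ← mul_pow]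
          norm_num
        have a5 : (1 / 2 : ℝ) ^ (l + 1) * 2 ^ (l + 1) = 1 := by
          rw [← mul_pow]
          norm_num
        calc (1 / 2 : ℝ) ^ ((l + 1) * (d + 2)) * ((2 * 2 ^ (l + 2) + 1) ^ d *
              (((l + 1 : ℕ) : ℝ) * 2)) ≤
            (1 / 2 : ℝ) ^ ((l + 1) * (d + 2)) * (((2 ^ (l + 1)) ^ d * 8 ^ d) *
              (2 ^ (l + 1) * 2)) := by gcongr
          _ = ((1 / 2 : ℝ) ^ ((l + 1) * d) * (2 ^ (l + 1)) ^ d) *
              ((1 / 2 : ℝ) ^ (l + 1) * 2 ^ (l + 1)) * (2 * 8 ^ d * (1 / 2) ^ (l + 1)) := by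
              rw [a3]; ring
          _ = _ := by rw [a4, a5, one_mul, one_mul]

lemma sum_le (hd : 1 ≤ d) (hb : AK b) (ε : ℝ) {s0 : ℝ} (hs0 : 0 < s0) {f : Sp d → E}
    (hf : Continuous f) (hc : HasCompactSupport f) :
    cs univ (fun P => cw s0 P * tG b ε s0 f P) ≤
      ENNReal.ofReal (2 * 8 ^ d * ∫ y, ‖f y‖) := by
  rw [cs_univ]
  have e1 : ∀ P : Cell d, ENNReal.ofReal (cw s0 P * tG b ε s0 f P) =
      ∑' l, ENNReal.ofReal (Bt b ε s0 f P l) := by
    intro P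
    rw [tG_eq, ← mul_assoc, cw_nw hd hs0, one_mul]
    exact ENNReal.ofReal_tsum_of_nonneg (Bt_nonneg hb ε s0 f P) (Bt_summable hb ε s0 hf hc P)
  simp_rw [e1]
  rw [ENNReal.tsum_comm]
  refine (ENNReal.tsum_le_tsum fun l => level_le hb ε hs0 hf hc l).trans ?_
  rw [ENNReal.tsum_mul_right, ENNReal.ofReal_mul (by positivity)]
  gcongr
  have hsum : Summable (fun l : ℕ => (2 * 8 ^ d * (1 / 2) ^ (l + 1) : ℝ)) := by
    have : (fun l : ℕ => (2 * 8 ^ d * (1 / 2) ^ (l + 1) : ℝ)) =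
        fun l : ℕ => (8 ^ d : ℝ) * (1 / 2) ^ l := by
      funext l
      rw [pow_succ]
      ring
    rw [this]
    exact summable_geometric_two.mul_left _
  rw [← ENNReal.ofReal_tsum_of_nonneg (fun l => by positivity) hsum]
  refine ENNReal.ofReal_le_ofReal (le_of_eq ?_)
  have : (fun l : ℕ => (2 * 8 ^ d * (1 / 2) ^ (l + 1) : ℝ)) =
      fun l : ℕ => (8 ^ d : ℝ) * (1 / 2) ^ l := by
    funext l
    rw [pow_succ]
    ring
  rw [this, tsum_mul_left, tsum_geometric_two]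
  ring

end CT3

theorem stmtCT3 : StmtCT3 := by
  intro d hd
  obtain ⟨l0, hl0⟩ : ∃ l0 : ℕ,
      (3 + Real.sqrt d) ^ (d + 2) * 2 ^ d * ((1 / 4) ^ l0 * (4 / 3)) ≤ 1 / 2 := by
    have hS : 0 < (3 + Real.sqrt d) ^ (d + 2) * 2 ^ d * (4 / 3) := by positivity
    obtain ⟨l0, hl0⟩ := exists_pow_lt_of_lt_one
      (show 0 < 1 / 2 / ((3 + Real.sqrt d) ^ (d + 2) * 2 ^ d * (4 / 3)) by positivity)
      (show (1 / 4 : ℝ) < 1 by norm_num)
    refine ⟨l0, ?_⟩
    rw [lt_div_iff₀ hS] at hl0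
    linarith
  refine ⟨2 ^ l0, one_le_pow₀ (by norm_num), ?_⟩
  intro M c0 ε hε hε1 b hb
  have hak := hb.ak
  refine ⟨2 * 8 ^ d + 2 * 2 ^ (d + 2), by positivity, ?_⟩
  intro E _ _ _ f hf hc s0 hs0
  have h0 : 0 ≤ ∫ y, ‖f y‖ := integral_nonneg fun _ => norm_nonneg _
  have hN : (0 : ℝ) < 2 * 2 ^ (d + 2) := by positivity
  have h8 : (0 : ℝ) < 2 * 8 ^ d := by positivity
  refine ⟨fun P => CT3.tG_nonneg hak ε hs0 f P, ?_, ?_⟩
  · refine (CT3.sum_le hd hak ε hs0 hf hc).trans (ENNReal.ofReal_le_ofReal ?_)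
    nlinarith only [h0, hN]
  · intro γ hγ P hP
    have h1 := CT3.tail hak hb.even hb.supp hε hε1 hs0 hf hc hl0 hγ P hP
    have h2 := CT3.tG_nonneg hak ε hs0 f P
    nlinarith

end

end TG


end

section

set_option autoImplicit false
set_option linter.unusedSectionVars false

/-!
# Module CT4: robustness of the masses, the maximum of the tailed masses over the ancestors
-/

open MeasureTheory Metric Set TrI Filter
open scoped InnerProductSpace ContDiff ENNReal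

namespace TG

noncomputable section

namespace CT4

variable {d : ℕ} {E : Type} [NormedAddCommGroup E] [InnerProductSpace ℝ E] [FiniteDimensional ℝ E]
  {b : Sp d → ℝ}

/-- the integrand of the tailed mass with an arbitrary centre -/
lemma tail_int (hb : AK b) (ε : ℝ) {s0 t : ℝ} (ht : 0 < t) {f : Sp d → E} (hf : Continuous f)
    (hc : HasCompactSupport f) (j : ℕ) (x : Sp d) :
    Integrable (fun y => ‖fl b ε s0 f j y‖ / (1 + ‖y - x‖ / t) ^ (d + 2)) := by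
  have hden : ∀ y : Sp d, 0 < (1 + ‖y - x‖ / t) ^ (d + 2) := by
    intro y
    positivity
  have hcont : Continuous (fun y => ‖fl b ε s0 f j y‖ / (1 + ‖y - x‖ / t) ^ (d + 2)) := by
    refine (fl_cont hb ε s0 hf j).norm.div (by fun_prop) fun y => (hden y).ne'
  refine hcont.integrable_of_hasCompactSupport ((fl_cs hb ε s0 hc j).norm.mono' ?_)
  intro y hy
  rw [Function.mem_support] at hy
  refine subset_closure ?_
  rw [Function.mem_support]
  intro h0
  apply hy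
  rw [h0, zero_div]

lemma fl_int_le (hb : AK b) (ε s0 : ℝ) {f : Sp d → E} (hf : Continuous f)
    (hc : HasCompactSupport f) (n : ℕ) : ∫ y, ‖fl b ε s0 f n y‖ ≤ ∫ y, ‖f y‖ := by
  have h2 : ∫ y, ‖fl b ε s0 f 0 y‖ = ∫ y, ‖f y‖ := rfl
  have h3 : ∑ j ∈ Finset.range n, ∫ y, gm b ε s0 f j y =
      (∫ y, ‖fl b ε s0 f 0 y‖) - ∫ y, ‖fl b ε s0 f n y‖ := by
    rw [Finset.sum_congr rfl fun j _ => CT3.gm_int hb ε s0 hf hc j]
    rw [Finset.sum_range_sub' (fun j => ∫ y, ‖fl b ε s0 f j y‖)]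
  have h4 : 0 ≤ ∑ j ∈ Finset.range n, ∫ y, gm b ε s0 f j y :=
    Finset.sum_nonneg fun j _ => integral_nonneg fun y => CT3.gm_nonneg hb ε s0 f j y
  linarith

lemma mT_le_nw (hb : AK b) (ε : ℝ) {s0 : ℝ} (hs0 : 0 < s0) {f : Sp d → E} (hf : Continuous f)
    (hc : HasCompactSupport f) (Q : Cell d) : mT b ε s0 f Q ≤ nw s0 Q * ∫ y, ‖f y‖ := by
  have hl := lev_pos hs0 Q.1
  unfold mT
  refine mul_le_mul_of_nonneg_left ?_ (CT3.nw_pos hs0 Q).le
  refine le_trans ?_ (fl_int_le hb ε s0 hf hc (Q.1 - 1))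
  refine integral_mono (tail_int hb ε hl hf hc _ _) (CT3.fl_nint hb ε s0 hf hc _) fun y => ?_
  show ‖fl b ε s0 f (Q.1 - 1) y‖ / (1 + ‖y - xC s0 Q‖ / lev s0 Q.1) ^ (d + 2) ≤
    ‖fl b ε s0 f (Q.1 - 1) y‖
  refine div_le_self (norm_nonneg _) ?_
  refine one_le_pow₀ ?_
  have : 0 ≤ ‖y - xC s0 Q‖ / lev s0 Q.1 := by positivity
  linarith

/-- comparison of the tailed masses of two cells of the same level -/
lemma mT_comp (hb : AK b) (ε : ℝ) {s0 : ℝ} (hs0 : 0 < s0) {f : Sp d → E} (hf : Continuous f)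
    (hc : HasCompactSupport f) (P P' : Cell d) (h1 : P.1 = P'.1) {D : ℝ} (hD : 0 ≤ D)
    (h : ‖xC s0 P - xC s0 P'‖ ≤ D * lev s0 P.1) :
    mT b ε s0 f P ≤ (1 + D) ^ (d + 2) * mT b ε s0 f P' := by
  have hl := lev_pos hs0 P.1
  have hnw : nw s0 P = nw s0 P' := by unfold nw; rw [h1]
  unfold mT
  rw [← hnw, ← h1, mul_left_comm]
  refine mul_le_mul_of_nonneg_left ?_ (CT3.nw_pos hs0 P).le
  rw [← integral_const_mul]
  refine integral_mono (tail_int hb ε hl hf hc _ _)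
    ((tail_int hb ε hl hf hc _ _).const_mul _) fun y => ?_
  show ‖fl b ε s0 f (P.1 - 1) y‖ / (1 + ‖y - xC s0 P‖ / lev s0 P.1) ^ (d + 2) ≤
    (1 + D) ^ (d + 2) * (‖fl b ε s0 f (P.1 - 1) y‖ /
      (1 + ‖y - xC s0 P'‖ / lev s0 P.1) ^ (d + 2))
  have e1 : 0 < 1 + ‖y - xC s0 P‖ / lev s0 P.1 := by positivity
  have e2 : 0 < 1 + ‖y - xC s0 P'‖ / lev s0 P.1 := by positivity
  have e3 : 1 + ‖y - xC s0 P'‖ / lev s0 P.1 ≤ (1 + D) * (1 + ‖y - xC s0 P‖ / lev s0 P.1) := by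
    have a1 : ‖y - xC s0 P'‖ ≤ ‖y - xC s0 P‖ + ‖xC s0 P - xC s0 P'‖ := by
      rw [show y - xC s0 P' = (y - xC s0 P) + (xC s0 P - xC s0 P') by abel]
      exact norm_add_le _ _
    have a2 : ‖y - xC s0 P'‖ / lev s0 P.1 ≤ ‖y - xC s0 P‖ / lev s0 P.1 + D := by
      rw [div_le_iff₀ hl, add_mul, div_mul_cancel₀ _ hl.ne']
      linarith
    have a3 : 0 ≤ ‖y - xC s0 P‖ / lev s0 P.1 := by positivity
    nlinarith only [a2, hD, a3]
  rw [mul_div_assoc', div_le_div_iff₀ (by positivity) (by positivity)]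
  have e4 : (1 + ‖y - xC s0 P'‖ / lev s0 P.1) ^ (d + 2) ≤
      (1 + D) ^ (d + 2) * (1 + ‖y - xC s0 P‖ / lev s0 P.1) ^ (d + 2) := by
    rw [← mul_pow]
    exact pow_le_pow_left₀ e2.le e3 _
  calc ‖fl b ε s0 f (P.1 - 1) y‖ * (1 + ‖y - xC s0 P'‖ / lev s0 P.1) ^ (d + 2) ≤
      ‖fl b ε s0 f (P.1 - 1) y‖ *
        ((1 + D) ^ (d + 2) * (1 + ‖y - xC s0 P‖ / lev s0 P.1) ^ (d + 2)) :=
        mul_le_mul_of_nonneg_left e4 (norm_nonneg _)
    _ = _ := by ring

/-- a nonnegative sequence which tends to zero has a maximum -/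
lemma exists_max {a : ℕ → ℝ} (h0 : ∀ l, 0 ≤ a l) (h : Tendsto a atTop (nhds 0)) :
    ∃ i, ∀ l, a l ≤ a i := by
  by_cases hm : ∃ m, 0 < a m
  · obtain ⟨m, hm⟩ := hm
    have h1 := h.eventually (gt_mem_nhds hm)
    rw [eventually_atTop] at h1
    obtain ⟨N, hN⟩ := h1
    obtain ⟨i, hi, hmax⟩ := Finset.exists_max_image (Finset.range (N + m + 1)) a
      ⟨m, by rw [Finset.mem_range]; omega⟩
    refine ⟨i, fun l => ?_⟩
    by_cases hl : l < N + m + 1
    · exact hmax l (Finset.mem_range.2 hl)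
    · exact (hN l (by omega)).le.trans (hmax m (by rw [Finset.mem_range]; omega))
  · push Not at hm
    exact ⟨0, fun l => (hm l).trans (h0 0)⟩

end CT4

theorem stmtCT4 : StmtCT4 := by
  intro d hd Mr hMr
  refine ⟨(1 + (Mr + 2 * Real.sqrt d)) ^ (d + 2), ?_, ?_⟩
  · refine one_le_pow₀ ?_
    have := Real.sqrt_nonneg d
    linarith
  intro M c0 ε hε hε1 b hb E _ _ _ f hf hc s0 hs0
  have hak := hb.ak
  refine ⟨?_, ?_, ?_, ?_⟩
  · intro R hR Q
    have h1 := CT3.ball_le_mT (E := E) hak (ε := ε) hs0 hf hc Q (xC s0 Q) (r := R * lev s0 Q.1)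
      (ρ := R) hR (by rw [sub_self, norm_zero, add_zero])
    exact h1
  · intro Q
    exact CT4.mT_le_nw hak ε hs0 hf hc Q
  · intro j Q Q' hQ hdist i
    have hs := Real.sqrt_nonneg (d : ℝ)
    have hlev : (up i Q').1 = (up (i + j) Q).1 := by
      unfold up
      simp only
      omega
    have hle : lev s0 Q'.1 ≤ lev s0 (up i Q').1 := by
      unfold lev up
      simp only
      gcongr
      · norm_num
      · omega
    have h1 := CT3.xC_up hs0 i Q'
    have h2 := CT3.xC_up hs0 (i + j) Q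
    have hl2 : lev s0 (Q.1 + (i + j)) = lev s0 (up i Q').1 := by
      rw [hlev]; rfl
    have hl1 : lev s0 (Q'.1 + i) = lev s0 (up i Q').1 := rfl
    rw [hl1] at h1
    rw [hl2] at h2
    have h3 : ‖xC s0 (up i Q') - xC s0 (up (i + j) Q)‖ ≤
        (Mr + 2 * Real.sqrt d) * lev s0 (up i Q').1 := by
      have a1 : ‖xC s0 (up i Q') - xC s0 (up (i + j) Q)‖ ≤
          ‖xC s0 (up i Q') - xC s0 Q'‖ + ‖xC s0 Q' - xC s0 Q‖ +
            ‖xC s0 (up (i + j) Q) - xC s0 Q‖ := by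
        rw [show xC s0 (up i Q') - xC s0 (up (i + j) Q) =
          (xC s0 (up i Q') - xC s0 Q') + (xC s0 Q' - xC s0 Q) -
            (xC s0 (up (i + j) Q) - xC s0 Q) by abel]
        exact (norm_sub_le _ _).trans (by gcongr; exact norm_add_le _ _)
      have a2 : Mr * lev s0 Q'.1 ≤ Mr * lev s0 (up i Q').1 :=
        mul_le_mul_of_nonneg_left hle hMr
      linarith
    have hD : 0 ≤ Mr + 2 * Real.sqrt d := by positivity
    refine ⟨CT4.mT_comp hak ε hs0 hf hc _ _ hlev hD h3, ?_⟩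
    refine CT4.mT_comp hak ε hs0 hf hc _ _ hlev.symm hD ?_
    rw [norm_sub_rev, ← hlev]
    exact h3
  · intro γ hγ Q
    refine CT4.exists_max (a := fun l : ℕ => (2 : ℝ) ^ (-(γ * l)) * mT b ε s0 f (up l Q))
      (fun l => mul_nonneg (by positivity) (CT3.mT_nonneg b ε hs0 f _)) ?_
    have hB : ∀ l, mT b ε s0 f (up l Q) ≤ nw s0 Q * ∫ y, ‖f y‖ := by
      intro l
      refine (CT4.mT_le_nw hak ε hs0 hf hc _).trans ?_
      refine mul_le_mul_of_nonneg_right ?_ (integral_nonneg fun _ => norm_nonneg _)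
      have h1 := CT3.nw_up hs0 l Q
      have h2 : (2 : ℝ) ^ l ≤ (2 ^ l) ^ d := by
        refine le_self_pow₀ (one_le_pow₀ (by norm_num)) (by omega)
      have h3 := CT3.nw_pos hs0 (up l Q)
      have h4 : (0 : ℝ) < 2 ^ l := by positivity
      have h5 : nw s0 (up l Q) * 2 ^ l ≤ nw s0 Q * 2 ^ l := by
        rw [h1]
        exact mul_le_mul_of_nonneg_left h2 h3.le
      exact le_of_mul_le_mul_right h5 h4
    have hlim : Tendsto (fun l : ℕ => (2 : ℝ) ^ (-(γ * l)) * (nw s0 Q * ∫ y, ‖f y‖)) atTop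
        (nhds 0) := by
      have e1 : ∀ l : ℕ, (2 : ℝ) ^ (-(γ * l)) = ((2 : ℝ) ^ (-γ)) ^ l := by
        intro l
        rw [← Real.rpow_natCast, ← Real.rpow_mul (by norm_num)]
        congr 1
        ring
      simp_rw [e1]
      have e2 : Tendsto (fun l : ℕ => ((2 : ℝ) ^ (-γ)) ^ l) atTop (nhds 0) := by
        apply tendsto_pow_atTop_nhds_zero_of_lt_one (by positivity)
        exact Real.rpow_lt_one_of_one_lt_of_neg (by norm_num) (by linarith)
      have e3 := e2.mul_const (nw s0 Q * ∫ y, ‖f y‖)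
      rwa [zero_mul] at e3
    refine squeeze_zero (fun l => mul_nonneg (by positivity) (CT3.mT_nonneg b ε hs0 f _))
      (fun l => ?_) hlim
    exact mul_le_mul_of_nonneg_left (hB l) (by positivity)

end

end TG


end

section

/-!
# Module NC: nonnegative polynomials do not concentrate near a plane (by helper18)
-/

open MeasureTheory Metric Set TrI
open scoped InnerProductSpace ContDiff

namespace TG

namespace NCm

lemma nle (k : ℕ) : ((k : ℕ∞) : WithTop ℕ∞) ≤ ∞ := by exact_mod_cast le_top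

lemma cd {n : ℕ} {f : Sp n → ℝ} (hf : ContDiff ℝ ∞ f) (k : ℕ) : ContDiff ℝ k f :=
  hf.of_le (nle k)

/-! ## Polynomials of degree at most m on Sp n -/

section Poly

variable {n : ℕ}

/-- the space of polynomials of degree at most m -/
def PolS (n m : ℕ) : Submodule ℝ (Sp n → ℝ) where
  carrier := {g | ContDiff ℝ ∞ g ∧ ∀ x, iteratedFDeriv ℝ (m + 1) g x = 0}
  add_mem' := by
    rintro f g ⟨hf, hf'⟩ ⟨hg, hg'⟩
    refine ⟨hf.add hg, fun x => ?_⟩
    rw [iteratedFDeriv_add_apply (cd hf _).contDiffAt (cd hg _).contDiffAt, hf', hg', add_zero]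
  zero_mem' := by
    refine ⟨contDiff_const, fun x => ?_⟩
    have : (0 : Sp n → ℝ) = fun _ => (0 : ℝ) := rfl
    rw [this, iteratedFDeriv_const_of_ne (by omega)]
    rfl
  smul_mem' := by
    rintro c f ⟨hf, hf'⟩
    refine ⟨hf.const_smul c, fun x => ?_⟩
    rw [iteratedFDeriv_const_smul_apply (cd hf _).contDiffAt, hf', smul_zero]

lemma fd_cmm (n k : ℕ) :
    FiniteDimensional ℝ (ContinuousMultilinearMap ℝ (fun _ : Fin k => Sp n) ℝ) :=
  FiniteDimensional.of_injective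
    (ContinuousMultilinearMap.toMultilinearMapLinear (R' := ℝ) (A := ℝ)
      (M₁ := fun _ : Fin k => Sp n) (M₂ := ℝ))
    ContinuousMultilinearMap.toMultilinearMap_injective

/-- the jet map -/
noncomputable def jet (n m : ℕ) : PolS n m →ₗ[ℝ]
    ((k : Fin (m + 1)) → ContinuousMultilinearMap ℝ (fun _ : Fin (k : ℕ) => Sp n) ℝ) where
  toFun g := fun k => iteratedFDeriv ℝ (k : ℕ) (g : Sp n → ℝ) 0
  map_add' f g := by
    funext k
    exact iteratedFDeriv_add_apply (cd f.2.1 _).contDiffAt (cd g.2.1 _).contDiffAt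
  map_smul' c f := by
    funext k
    exact iteratedFDeriv_const_smul_apply (cd f.2.1 _).contDiffAt

lemma eq_zero_of_jets {m : ℕ} {g : Sp n → ℝ} (hg : ContDiff ℝ ∞ g)
    (hg' : ∀ x, iteratedFDeriv ℝ (m + 1) g x = 0) (y : Sp n)
    (h : ∀ k ≤ m, iteratedFDeriv ℝ k g y = 0) (x : Sp n) : g x = 0 := by
  rw [← eq_taylor hg hg' x y]
  refine Finset.sum_eq_zero fun k hk => ?_
  rw [h k (by rw [Finset.mem_range] at hk; omega)]
  simp

lemma jet_injective (n m : ℕ) : Function.Injective (jet n m) := by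
  rw [← LinearMap.ker_eq_bot, LinearMap.ker_eq_bot']
  intro g hg
  ext x
  refine eq_zero_of_jets g.2.1 g.2.2 0 (fun k hk => ?_) x
  exact congrFun hg ⟨k, by omega⟩

lemma fd_polS (n m : ℕ) : FiniteDimensional ℝ (PolS n m) := by
  have : ∀ k : Fin (m + 1),
      FiniteDimensional ℝ (ContinuousMultilinearMap ℝ (fun _ : Fin (k : ℕ) => Sp n) ℝ) :=
    fun k => fd_cmm n k
  exact FiniteDimensional.of_injective (jet n m) (jet_injective n m)

/-- a polynomial which vanishes on an open set is zero -/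
lemma eq_zero_of_eventually {m : ℕ} {g : Sp n → ℝ} (hg : ContDiff ℝ ∞ g)
    (hg' : ∀ x, iteratedFDeriv ℝ (m + 1) g x = 0) (y : Sp n)
    (h : ∀ᶠ x in nhds y, g x = 0) (x : Sp n) : g x = 0 := by
  refine eq_zero_of_jets hg hg' y (fun k _ => ?_) x
  have h1 : g =ᶠ[nhds y] fun _ => (0 : ℝ) := h
  rw [(h1.iteratedFDeriv ℝ k).eq_of_nhds]
  rw [iteratedFDeriv_fun_zero]
  rfl

end Poly

/-! ## Test functions -/

lemma exists_TFn {n : ℕ} (J : ℕ) {f : Sp n → ℝ} (hf : ContDiff ℝ ∞ f) (hc : HasCompactSupport f) :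
    ∃ κ : ℝ, 0 < κ ∧ TFn J 1 (fun x => κ * f x) := by
  have h1 : ∀ j, ∃ B, ∀ x, ‖iteratedFDeriv ℝ j f x‖ ≤ B := by
    intro j
    have hcont : Continuous (iteratedFDeriv ℝ j f) :=
      hf.continuous_iteratedFDeriv (nle j)
    exact hcont.bounded_above_of_compact_support (hc.iteratedFDeriv j)
  choose B hB using h1
  set M : ℝ := ∑ j ∈ Finset.range (J + 1), |B j| with hM
  have hM0 : 0 ≤ M := Finset.sum_nonneg fun _ _ => abs_nonneg _
  refine ⟨1 / (1 + M), by positivity, contDiff_const.mul (cd hf J), ?_⟩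
  intro j hj x
  have e1 : (fun x => 1 / (1 + M) * f x) = fun x => (1 / (1 + M)) • f x := rfl
  rw [e1, iteratedFDeriv_const_smul_apply' (cd hf j).contDiffAt,
    norm_smul, Real.norm_of_nonneg (by positivity)]
  have h2 : ‖iteratedFDeriv ℝ j f x‖ ≤ M := by
    refine (hB j x).trans ((le_abs_self _).trans ?_)
    exact Finset.single_le_sum (f := fun j => |B j|) (fun _ _ => abs_nonneg _)
      (Finset.mem_range.mpr (by omega))
  rw [one_div, inv_mul_le_iff₀ (by positivity)]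
  linarith

/-! ## The core statement on Sp n -/

section Core

variable {n : ℕ}

/-- admissible tests -/
structure Tst (J : ℕ) (ρ : ℝ) (ψ : Sp n → ℝ) : Prop where
  tf : TFn J 1 ψ
  supp : ∀ y, ψ y ≠ 0 → ‖y‖ ≤ ρ
  nonneg : ∀ y, 0 ≤ ψ y

lemma Tst.cont {J : ℕ} {ρ : ℝ} {ψ : Sp n → ℝ} (h : Tst J ρ ψ) : Continuous ψ :=
  h.tf.smooth.continuous

lemma Tst.hcs {J : ℕ} {ρ : ℝ} {ψ : Sp n → ℝ} (h : Tst J ρ ψ) : HasCompactSupport ψ := by
  refine HasCompactSupport.intro (isCompact_closedBall (0 : Sp n) ρ) fun y hy => ?_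
  by_contra h0
  exact hy (by simpa using h.supp y h0)

/-- a polynomial which is nonnegative against all tests is nonnegative on the open ball -/
lemma nonneg_of_tests (J : ℕ) {ρ : ℝ} {Q : Sp n → ℝ} (hQ : Continuous Q)
    (h : ∀ ψ : Sp n → ℝ, Tst J ρ ψ → 0 ≤ ∫ y, Q y * ψ y) (s : Sp n) (hs : ‖s‖ < ρ) : 0 ≤ Q s := by
  by_contra hneg
  rw [not_le] at hneg
  have h1 : ∀ᶠ y in nhds s, Q y < 0 := hQ.continuousAt.eventually (gt_mem_nhds hneg)
  have h2 : ∀ᶠ y in nhds s, ‖y‖ < ρ := continuous_norm.continuousAt.eventually (gt_mem_nhds hs)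
  obtain ⟨r, hr, hr'⟩ := Metric.eventually_nhds_iff_ball.mp (h1.and h2)
  let f : ContDiffBump s := ⟨r / 4, r / 2, by positivity, by linarith⟩
  obtain ⟨κ, hκ, hT⟩ := exists_TFn J (f := f) f.contDiff f.hasCompactSupport
  have hf0 : ∀ y, f y ≠ 0 → y ∈ ball s r := by
    intro y hy
    have : y ∈ Function.support f := hy
    rw [f.support_eq] at this
    exact ball_subset_ball (by change r / 2 ≤ r; linarith) this
  have hψ : Tst J ρ (fun y => κ * f y) := by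
    refine ⟨hT, fun y hy => ?_, fun y => mul_nonneg hκ.le f.nonneg⟩
    exact (hr' y (hf0 y (right_ne_zero_of_mul hy))).2.le
  have h3 := h _ hψ
  have h4 : 0 < ∫ y, -(Q y * (κ * f y)) := by
    refine Continuous.integral_pos_of_hasCompactSupport_nonneg_nonzero (x := s) ?_ ?_ ?_ ?_
    · exact (hQ.mul hψ.cont).neg
    · exact hψ.hcs.mul_left.neg
    · intro y
      change 0 ≤ -(Q y * (κ * f y))
      by_cases hy : f y = 0
      · rw [hy]; simp
      · have := (hr' y (hf0 y hy)).1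
        have h5 : 0 ≤ κ * f y := mul_nonneg hκ.le f.nonneg
        nlinarith
    · have h6 : f s = 1 := f.one_of_mem_closedBall (mem_closedBall_self (by positivity))
      rw [h6, mul_one]
      exact neg_ne_zero.mpr (mul_ne_zero hneg.ne hκ.ne')
  rw [integral_neg] at h4
  linarith

/-- the weight -/
noncomputable def wt0 (ρ : ℝ) (y : Sp n) : ℝ := Real.smoothTransition (ρ - ‖y‖)

lemma wt0_cont (ρ : ℝ) : Continuous (wt0 (n := n) ρ) :=
  Real.smoothTransition.continuous.comp (continuous_const.sub continuous_norm)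

lemma wt0_nonneg (ρ : ℝ) (y : Sp n) : 0 ≤ wt0 ρ y := Real.smoothTransition.nonneg _

lemma wt0_zero {ρ : ℝ} {y : Sp n} (h : ρ ≤ ‖y‖) : wt0 ρ y = 0 :=
  Real.smoothTransition.zero_of_nonpos (by linarith)

lemma wt0_one {ρ : ℝ} {y : Sp n} (h : ‖y‖ ≤ ρ - 1) : wt0 ρ y = 1 :=
  Real.smoothTransition.one_of_one_le (by linarith)

lemma wt0_hcs (ρ : ℝ) : HasCompactSupport (wt0 (n := n) ρ) := by
  refine HasCompactSupport.intro (isCompact_closedBall (0 : Sp n) ρ) fun y hy => ?_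
  refine wt0_zero ?_
  rw [mem_closedBall_zero_iff, not_le] at hy
  exact hy.le

/-- the quadratic functional -/
noncomputable def II (ρ : ℝ) (Q : Sp n → ℝ) (w : Sp n) (o : ℝ) : ℝ :=
  ∫ y, Q y * (wt0 ρ y * (⟪w, y⟫_ℝ + o) ^ 2)

lemma II_set (ρ : ℝ) (Q : Sp n → ℝ) (w : Sp n) (o : ℝ) :
    II ρ Q w o = ∫ y in closedBall (0 : Sp n) ρ, Q y * (wt0 ρ y * (⟪w, y⟫_ℝ + o) ^ 2) := by
  refine (setIntegral_eq_integral_of_forall_compl_eq_zero fun y hy => ?_).symm
  rw [mem_closedBall_zero_iff, not_le] at hy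
  rw [wt0_zero hy.le]; simp

/-- admissible defects -/
def Adm (J : ℕ) (ρ : ℝ) (Q : Sp n → ℝ) (τ : ℝ) : Prop :=
  0 ≤ τ ∧ ∀ ψ : Sp n → ℝ, Tst J ρ ψ → -τ ≤ ∫ y, Q y * ψ y

/-- positivity of the functional for nonnegative polynomials -/
lemma II_pos {m : ℕ} {ρ : ℝ} (hρ : 2 ≤ ρ) {Q : Sp n → ℝ} (hQ : ContDiff ℝ ∞ Q)
    (hQ' : ∀ x, iteratedFDeriv ℝ (m + 1) Q x = 0) (hne : ∃ x, Q x ≠ 0)
    (hpos : ∀ s, ‖s‖ < ρ → 0 ≤ Q s) (w : Sp n) (o : ℝ) (hwo : ‖w‖ ^ 2 + o ^ 2 = 1) :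
    0 < II ρ Q w o := by
  have hcont : Continuous fun y => Q y * (wt0 ρ y * (⟪w, y⟫_ℝ + o) ^ 2) :=
    hQ.continuous.mul ((wt0_cont ρ).mul (((continuous_const.inner continuous_id).add
      continuous_const).pow 2))
  have hnn : ∀ y, 0 ≤ Q y * (wt0 ρ y * (⟪w, y⟫_ℝ + o) ^ 2) := by
    intro y
    rcases lt_or_ge ‖y‖ ρ with h | h
    · exact mul_nonneg (hpos y h) (mul_nonneg (wt0_nonneg ρ y) (sq_nonneg _))
    · rw [wt0_zero h]; simp
  by_contra hI
  have hz : ∀ y, Q y * (wt0 ρ y * (⟪w, y⟫_ℝ + o) ^ 2) = 0 := by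
    intro y
    by_contra hy
    refine hI (hcont.integral_pos_of_hasCompactSupport_nonneg_nonzero ?_ hnn hy)
    exact ((wt0_hcs ρ).mul_right).mul_left
  -- a point where the affine function does not vanish
  obtain ⟨s1, hs1, hl1⟩ : ∃ s1 : Sp n, ‖s1‖ < 1 ∧ ⟪w, s1⟫_ℝ + o ≠ 0 := by
    by_cases ho : o = 0
    · refine ⟨(1 / 2 : ℝ) • w, ?_, ?_⟩
      · have : ‖w‖ = 1 := by
          rw [ho] at hwo
          have h0 := norm_nonneg w
          nlinarith
        rw [norm_smul, this]; norm_num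
      · rw [ho, inner_smul_right, real_inner_self_eq_norm_sq]
        rw [ho] at hwo
        have : ‖w‖ ^ 2 = 1 := by linarith
        rw [this]; norm_num
    · exact ⟨0, by simp, by simpa using ho⟩
  have hev : ∀ᶠ y in nhds s1, Q y = 0 := by
    have e1 : ∀ᶠ y in nhds s1, ‖y‖ < 1 := continuous_norm.continuousAt.eventually (gt_mem_nhds hs1)
    have e2 : ∀ᶠ y in nhds s1, ⟪w, y⟫_ℝ + o ≠ 0 :=
      ((continuous_const.inner continuous_id).add continuous_const).continuousAt.eventually_ne hl1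
    filter_upwards [e1, e2] with y h1 h2
    have h3 := hz y
    rw [wt0_one (by linarith), one_mul] at h3
    exact (mul_eq_zero.mp h3).resolve_right (pow_ne_zero 2 h2)
  obtain ⟨x, hx⟩ := hne
  exact hx (eq_zero_of_eventually hQ hQ' s1 hev x)

/-- compactness -/
theorem nc_unit (n m J : ℕ) {ρ : ℝ} (hρ : 2 ≤ ρ) (N : ℕ) (q : Fin N → Sp n → ℝ)
    (hq : ∀ i, ContDiff ℝ ∞ (q i)) (hq' : ∀ i x, iteratedFDeriv ℝ (m + 1) (q i) x = 0)
    (hli : ∀ a : Fin N → ℝ, (∀ x, ∑ i, a i * q i x = 0) → a = 0) :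
    ∃ c C : ℝ, 0 < c ∧ 0 < C ∧ ∀ (a : Fin N → ℝ) (w : Sp n) (o : ℝ), ‖a‖ = 1 →
      ‖w‖ ^ 2 + o ^ 2 = 1 → ∀ τ, Adm J ρ (fun y => ∑ i, a i * q i y) τ →
        c ≤ II ρ (fun y => ∑ i, a i * q i y) w o + C * τ := by
  classical
  let X := (Fin N → ℝ) × (Sp n × ℝ)
  let Qf : (Fin N → ℝ) → Sp n → ℝ := fun a y => ∑ i, a i * q i y
  have hQc : Continuous fun p : (Fin N → ℝ) × Sp n => Qf p.1 p.2 := by
    refine continuous_finsetSum _ fun i _ => ?_
    exact ((continuous_apply i).comp continuous_fst).mul ((hq i).continuous.comp continuous_snd)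
  let I : X → ℝ := fun x => II ρ (Qf x.1) x.2.1 x.2.2
  have hI : Continuous I := by
    have h1 : I = fun x : X => ∫ y in closedBall (0 : Sp n) ρ,
        Qf x.1 y * (wt0 ρ y * (⟪x.2.1, y⟫_ℝ + x.2.2) ^ 2) := by
      funext x; exact II_set _ _ _ _
    rw [h1]
    refine continuous_parametric_integral_of_continuous ?_ (isCompact_closedBall 0 ρ)
    refine Continuous.mul ?_ (Continuous.mul ?_ ?_)
    · exact hQc.comp ((continuous_fst.comp continuous_fst).prodMk continuous_snd)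
    · exact (wt0_cont ρ).comp continuous_snd
    · refine Continuous.pow (Continuous.add ?_ ?_) 2
      · exact (continuous_fst.comp (continuous_snd.comp continuous_fst)).inner continuous_snd
      · exact continuous_snd.comp (continuous_snd.comp continuous_fst)
  let K2 : Set (Sp n × ℝ) := {p | ‖p.1‖ ^ 2 + p.2 ^ 2 = 1}
  have hK2 : IsCompact K2 := by
    refine (isCompact_closedBall (0 : Sp n × ℝ) 1).of_isClosed_subset ?_ ?_
    · exact isClosed_eq (((continuous_norm.comp continuous_fst).pow 2).add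
        (continuous_snd.pow 2)) continuous_const
    · intro p hp
      have hp' : ‖p.1‖ ^ 2 + p.2 ^ 2 = 1 := hp
      rw [mem_closedBall_zero_iff, Prod.norm_def, max_le_iff]
      constructor
      · have := norm_nonneg p.1
        nlinarith [sq_nonneg p.2]
      · rw [Real.norm_eq_abs, abs_le_one_iff_mul_self_le_one]
        nlinarith [sq_nonneg ‖p.1‖]
  let K : Set X := sphere (0 : Fin N → ℝ) 1 ×ˢ K2
  have hK : IsCompact K := (isCompact_sphere 0 1).prod hK2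
  let P : Set X → Prop := fun S => ∃ c C : ℝ, 0 < c ∧ 0 < C ∧ ∀ x ∈ S, ∀ τ,
    Adm J ρ (Qf x.1) τ → c ≤ I x + C * τ
  have hP : P K := by
    refine hK.induction_on (p := P) ?_ ?_ ?_ ?_
    · exact ⟨1, 1, one_pos, one_pos, fun x hx => absurd hx (notMem_empty x)⟩
    · rintro S T hST ⟨c, C, hc, hC, h⟩
      exact ⟨c, C, hc, hC, fun x hx => h x (hST hx)⟩
    · rintro S T ⟨c, C, hc, hC, h⟩ ⟨c', C', hc', hC', h'⟩
      refine ⟨min c c', max C C', lt_min hc hc', lt_max_of_lt_left hC, ?_⟩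
      rintro x (hx | hx) τ hτ
      · refine (min_le_left _ _).trans ((h x hx τ hτ).trans ?_)
        have := mul_le_mul_of_nonneg_right (le_max_left C C') hτ.1
        linarith
      · refine (min_le_right _ _).trans ((h' x hx τ hτ).trans ?_)
        have := mul_le_mul_of_nonneg_right (le_max_right C C') hτ.1
        linarith
    · rintro x hx
      have hx1 : ‖x.1‖ = 1 := by simpa using hx.1
      have hx2 : ‖x.2.1‖ ^ 2 + x.2.2 ^ 2 = 1 := hx.2
      by_cases hcase : ∃ ψ : Sp n → ℝ, Tst J ρ ψ ∧ ∫ y, Qf x.1 y * ψ y < 0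
      · obtain ⟨ψ, hψ, hneg⟩ := hcase
        set δ : ℝ := -(∫ y, Qf x.1 y * ψ y) / 2 with hδ
        have hδ0 : 0 < δ := by rw [hδ]; linarith
        have hcψ : Continuous fun x' : X => ∫ y, Qf x'.1 y * ψ y := by
          have h1 : (fun x' : X => ∫ y, Qf x'.1 y * ψ y) = fun x' : X =>
              ∫ y in closedBall (0 : Sp n) ρ, Qf x'.1 y * ψ y := by
            funext x'
            refine (setIntegral_eq_integral_of_forall_compl_eq_zero fun y hy => ?_).symm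
            rw [mem_closedBall_zero_iff] at hy
            have : ψ y = 0 := by
              by_contra h0; exact hy (hψ.supp y h0)
            rw [this, mul_zero]
          rw [h1]
          refine continuous_parametric_integral_of_continuous ?_ (isCompact_closedBall 0 ρ)
          exact (hQc.comp ((continuous_fst.comp continuous_fst).prodMk continuous_snd)).mul
            (hψ.cont.comp continuous_snd)
        have hU1 : {x' : X | ∫ y, Qf x'.1 y * ψ y < -δ} ∈ nhds x := by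
          refine hcψ.continuousAt.eventually (gt_mem_nhds ?_)
          rw [hδ]; linarith
        have hU2 : {x' : X | I x - 1 < I x'} ∈ nhds x :=
          hI.continuousAt.eventually (lt_mem_nhds (by linarith))
        refine ⟨_, mem_nhdsWithin_of_mem_nhds (Filter.inter_mem hU1 hU2), 1, (|I x| + 2) / δ,
          one_pos, by (clear * - hδ0; positivity), ?_⟩
        rintro x' ⟨h1, h2⟩ τ hτ
        have h3 : -τ ≤ ∫ y, Qf x'.1 y * ψ y := hτ.2 ψ hψ
        have h1' : ∫ y, Qf x'.1 y * ψ y < -δ := h1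
        have h2' : I x - 1 < I x' := h2
        have h4 : δ ≤ τ := by linarith
        have h5 : |I x| + 2 ≤ (|I x| + 2) / δ * τ := by
          rw [div_mul_eq_mul_div, le_div_iff₀ hδ0]
          exact mul_le_mul_of_nonneg_left h4 (by positivity)
        have h6 := neg_abs_le (I x)
        linarith
      · push Not at hcase
        have hcont : Continuous (Qf x.1) :=
          continuous_finsetSum _ fun i _ => continuous_const.mul (hq i).continuous
        have hpos := nonneg_of_tests J hcont hcase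
        have hs : ContDiff ℝ ∞ (Qf x.1) := ContDiff.sum fun i _ => contDiff_const.mul (hq i)
        have hs' : ∀ y, iteratedFDeriv ℝ (m + 1) (Qf x.1) y = 0 := by
          intro y
          have hmem : (∑ i, x.1 i • q i) ∈ PolS n m :=
            Submodule.sum_mem _ fun i _ => Submodule.smul_mem _ _ ⟨hq i, hq' i⟩
          have e : Qf x.1 = ∑ i, x.1 i • q i := by
            funext y
            simp [Qf, Finset.sum_apply]
          rw [e]
          exact hmem.2 y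
        have hne : ∃ y, Qf x.1 y ≠ 0 := by
          by_contra hall
          push Not at hall
          have := hli x.1 hall
          rw [this] at hx1
          simp at hx1
        have hIpos : 0 < I x := II_pos hρ hs hs' hne hpos _ _ hx2
        refine ⟨_, mem_nhdsWithin_of_mem_nhds (hI.continuousAt.eventually
          (lt_mem_nhds (half_lt_self hIpos))), I x / 2, 1, by positivity, one_pos, ?_⟩
        intro x' hx' τ hτ
        have h1 : I x / 2 < I x' := hx'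
        have := hτ.1
        linarith
  obtain ⟨c, C, hc, hC, h⟩ := hP
  refine ⟨c, C, hc, hC, fun a w o ha hwo τ hτ => ?_⟩
  exact h (a, (w, o)) ⟨by simpa using ha, hwo⟩ τ hτ

lemma II_scale (ρ : ℝ) (Q : Sp n → ℝ) (w : Sp n) (o a b : ℝ) :
    II ρ (fun y => a * Q y) (b • w) (b * o) = a * b ^ 2 * II ρ Q w o := by
  rw [II, II, ← integral_const_mul]
  congr 1
  funext y
  rw [inner_smul_left]
  simp only [conj_trivial]
  ring

theorem nc_core (n m J : ℕ) {ρ : ℝ} (hρ : 2 ≤ ρ) : ∃ c0 C : ℝ, 0 < c0 ∧ 0 < C ∧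
    ∀ Q : Sp n → ℝ, ContDiff ℝ ∞ Q → (∀ y, iteratedFDeriv ℝ (m + 1) Q y = 0) → ∀ τ, Adm J ρ Q τ →
      ∀ (w : Sp n) (o : ℝ) (s0 : Sp n), ‖s0‖ ≤ ρ →
        c0 * |Q s0| * (‖w‖ ^ 2 + o ^ 2) ≤ II ρ Q w o + C * τ * (‖w‖ ^ 2 + o ^ 2) := by
  have hfd := fd_polS n m
  let b := Module.finBasis ℝ (PolS n m)
  obtain ⟨c, C, hc, hC, h⟩ := nc_unit n m J hρ _ (fun i => ((b i : PolS n m) : Sp n → ℝ))
    (fun i => (b i).2.1) (fun i => (b i).2.2) (by
      intro a ha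
      have h1 : ∑ i, a i • b i = 0 := by
        ext x
        have := ha x
        simpa [Finset.sum_apply] using this
      funext i
      exact Fintype.linearIndependent_iff.mp b.linearIndependent a h1 i)
  -- bound of the basis functions
  have hB : ∀ i, ∃ B : ℝ, ∀ s : Sp n, ‖s‖ ≤ ρ → |(b i : Sp n → ℝ) s| ≤ B := by
    intro i
    obtain ⟨B, hB⟩ := (isCompact_closedBall (0 : Sp n) ρ).exists_bound_of_continuousOn
      ((b i).2.1.continuous.continuousOn)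
    exact ⟨B, fun s hs => by simpa using hB s (by simpa using hs)⟩
  choose B hB using hB
  set B0 : ℝ := ∑ i, |B i| + 1 with hB0
  have hB0p : 0 < B0 := by
    have : 0 ≤ ∑ i, |B i| := Finset.sum_nonneg fun _ _ => abs_nonneg _
    linarith
  refine ⟨c / B0, C, by positivity, hC, ?_⟩
  intro Q hQ hQ' τ hτ w o s0 hs0
  set a : Fin (Module.finrank ℝ (PolS n m)) → ℝ := fun i => b.repr ⟨Q, hQ, hQ'⟩ i with ha
  have hQa : ∀ y, Q y = ∑ i, a i * (b i : Sp n → ℝ) y := by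
    intro y
    have h2 : (∑ i, a i • b i) = (⟨Q, hQ, hQ'⟩ : PolS n m) := b.sum_repr _
    have h3 : ((∑ i, a i • b i : PolS n m) : Sp n → ℝ) y = Q y := by rw [h2]
    rw [← h3, Submodule.coe_sum, Finset.sum_apply]
    rfl
  have hτ0 := hτ.1
  have hwo : 0 ≤ ‖w‖ ^ 2 + o ^ 2 := by positivity
  rcases (norm_nonneg a).eq_or_lt with ha0 | ha0
  · have ha1 : a = 0 := norm_eq_zero.mp ha0.symm
    have hQ0 : ∀ y, Q y = 0 := by
      intro y; rw [hQa y, ha1]; simp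
    have hI0 : II ρ Q w o = 0 := by
      rw [II]; simp [hQ0]
    rw [hI0, hQ0]
    simp only [abs_zero, mul_zero, zero_mul, zero_add]
    (clear * - hC hτ0; positivity)
  rcases hwo.eq_or_lt with hw0 | hw0
  · have hw1 : ‖w‖ = 0 := by nlinarith only [hw0]
    have ho1 : o = 0 := by nlinarith only [hw0]
    have hw2 : w = 0 := norm_eq_zero.mp hw1
    have hI0 : II ρ Q w o = 0 := by
      rw [II, hw2, ho1]; simp
    rw [hI0, ← hw0]; simp
  set μ : ℝ := √(‖w‖ ^ 2 + o ^ 2) with hμ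
  have hμ0 : 0 < μ := Real.sqrt_pos.mpr hw0
  have hμ2 : μ ^ 2 = ‖w‖ ^ 2 + o ^ 2 := Real.sq_sqrt hwo
  have key := h (fun i => ‖a‖⁻¹ * a i) (μ⁻¹ • w) (μ⁻¹ * o) (by
      have : (fun i => ‖a‖⁻¹ * a i) = ‖a‖⁻¹ • a := rfl
      rw [this, norm_smul, norm_inv, norm_norm, inv_mul_cancel₀ ha0.ne']) (by
      rw [norm_smul, norm_inv, Real.norm_of_nonneg hμ0.le, mul_pow, mul_pow, ← mul_add, ← hμ2]
      field_simp) (‖a‖⁻¹ * τ) (by
      have e : (fun y => ∑ i, ‖a‖⁻¹ * a i * (b i : Sp n → ℝ) y) = fun y => ‖a‖⁻¹ * Q y := by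
        funext y
        rw [hQa y, Finset.mul_sum]
        exact Finset.sum_congr rfl fun i _ => by ring
      rw [e]
      refine ⟨by positivity, fun ψ hψ => ?_⟩
      have h1 := hτ.2 ψ hψ
      have e2 : (fun y => ‖a‖⁻¹ * Q y * ψ y) = fun y => ‖a‖⁻¹ * (Q y * ψ y) := by
        funext y; ring
      rw [e2, integral_const_mul, ← mul_neg]
      exact mul_le_mul_of_nonneg_left h1 (by positivity))
  have e : (fun y => ∑ i, ‖a‖⁻¹ * a i * (b i : Sp n → ℝ) y) = fun y => ‖a‖⁻¹ * Q y := by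
    funext y
    rw [hQa y, Finset.mul_sum]
    exact Finset.sum_congr rfl fun i _ => by ring
  rw [e, II_scale] at key
  have h1 : c * (‖a‖ * μ ^ 2) ≤ II ρ Q w o + C * τ * μ ^ 2 := by
    have h2 := mul_le_mul_of_nonneg_right key (show 0 ≤ ‖a‖ * μ ^ 2 by positivity)
    refine h2.trans (le_of_eq ?_)
    field_simp
  have h3 : |Q s0| ≤ ‖a‖ * B0 := by
    rw [hQa s0]
    refine (Finset.abs_sum_le_sum_abs _ _).trans ?_
    have : ∑ i, |a i * (b i : Sp n → ℝ) s0| ≤ ∑ i, ‖a‖ * |B i| := by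
      refine Finset.sum_le_sum fun i _ => ?_
      rw [abs_mul]
      refine mul_le_mul ?_ ((hB i s0 hs0).trans (le_abs_self _)) (abs_nonneg _) (norm_nonneg _)
      have := norm_le_pi_norm a i
      simpa using this
    refine this.trans ?_
    rw [← Finset.mul_sum, hB0]
    exact mul_le_mul_of_nonneg_left (by linarith) (norm_nonneg _)
  rw [← hμ2]
  refine le_trans ?_ h1
  have h4 : c / B0 * |Q s0| ≤ c * ‖a‖ := by
    rw [div_mul_eq_mul_div, div_le_iff₀ hB0p]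
    have := mul_le_mul_of_nonneg_left h3 hc.le
    linarith
  have h5 := mul_le_mul_of_nonneg_right h4 (sq_nonneg μ)
  linarith

end Core

/-! ## Coordinates on the plane -/

section Plane

variable {n : ℕ}

lemma norm_tang_le' {d : ℕ} {ν : Sp d} (hν : ‖ν‖ = 1) (y : Sp d) : ‖tang ν y‖ ≤ ‖y‖ := by
  have h1 : ‖tang ν y‖ ^ 2 = ‖y‖ ^ 2 - ⟪ν, y⟫_ℝ ^ 2 := by
    rw [tang, norm_sub_sq_real, norm_smul, hν, inner_smul_right, real_inner_comm]
    simp only [Real.norm_eq_abs, mul_one, sq_abs]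
    ring
  have h2 : ‖tang ν y‖ ^ 2 ≤ ‖y‖ ^ 2 := by rw [h1]; nlinarith [sq_nonneg ⟪ν, y⟫_ℝ]
  exact le_of_sq_le_sq h2 (norm_nonneg _)

/-- isometric parametrisation of ν^perp -/
theorem exists_param (ν : Sp (n + 1)) (hν : ‖ν‖ = 1) :
    ∃ (ι : Sp n →L[ℝ] Sp (n + 1)) (π : Sp (n + 1) →L[ℝ] Sp n),
      (∀ s, ‖ι s‖ = ‖s‖) ∧ (∀ y, ‖π y‖ = ‖tang ν y‖) ∧ (∀ y, ι (π y) = tang ν y) ∧
      (∀ s, π (ι s) = s) ∧ (∀ w s, ⟪w, ι s⟫_ℝ = ⟪π w, s⟫_ℝ) ∧
      (∀ s, ⟪ν, ι s⟫_ℝ = 0) ∧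
      (∀ (c : ℝ) (F : Sp (n + 1) → ℝ), plInt ν c F = ∫ s, F (c • ν + ι s)) := by
  have hν0 : ν ≠ 0 := by
    intro h; rw [h] at hν; simp at hν
  have : Fact (Module.finrank ℝ (Sp (n + 1)) = n + 1) := ⟨by simp⟩
  let β := OrthonormalBasis.fromOrthogonalSpanSingleton (𝕜 := ℝ) n hν0
  let e : Sp n ≃ₗᵢ[ℝ] (Submodule.span ℝ {ν})ᗮ := β.repr.symm
  let K : Submodule ℝ (Sp (n + 1)) := (Submodule.span ℝ {ν})ᗮ
  let ι : Sp n →L[ℝ] Sp (n + 1) := K.subtypeL.comp (e : Sp n →L[ℝ] K)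
  let pr : Sp (n + 1) →L[ℝ] K := K.orthogonalProjectionOnto
  let π : Sp (n + 1) →L[ℝ] Sp n := (e.symm : K →L[ℝ] Sp n).comp pr
  have hpr : ∀ y, (pr y : Sp (n + 1)) = tang ν y := by
    intro y
    have h1 : (pr y : Sp (n + 1)) = y - (Submodule.span ℝ {ν}).starProjection y := by
      exact Submodule.starProjection_orthogonal_val y
    rw [h1, Submodule.starProjection_unit_singleton ℝ hν, tang]
  have hιπ : ∀ y, ι (π y) = tang ν y := by
    intro y
    have : ι (π y) = ((e (e.symm (pr y)) : K) : Sp (n + 1)) := rfl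
    rw [this, e.apply_symm_apply, hpr]
  have hι : ∀ s, ‖ι s‖ = ‖s‖ := fun s => e.norm_map s
  have hπι : ∀ s, π (ι s) = s := by
    intro s
    have : π (ι s) = e.symm (pr ((e s : K) : Sp (n + 1))) := rfl
    rw [this, Submodule.orthogonalProjectionOnto_mem_subspace_eq_self, e.symm_apply_apply]
  have hνι : ∀ s, ⟪ν, ι s⟫_ℝ = 0 := by
    intro s
    exact (Submodule.mem_orthogonal_singleton_iff_inner_right).mp (e s).2
  refine ⟨ι, π, hι, fun y => ?_, hιπ, hπι, fun w s => ?_, hνι, fun c F => ?_⟩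
  · rw [← hι (π y), hιπ]
  · have h1 : ⟪w, ι s⟫_ℝ = ⟪tang ν w, ι s⟫_ℝ := by
      rw [tang, inner_sub_left, inner_smul_left, hνι]; simp
    have h2 : ∀ a b : Sp n, ⟪ι a, ι b⟫_ℝ = ⟪a, b⟫_ℝ := fun a b => e.inner_map_map a b
    rw [h1, ← hιπ, h2]
  · rw [plInt]
    have := (e.measurePreserving).integral_comp e.toHomeomorph.measurableEmbedding
      (fun y : (Submodule.span ℝ {ν})ᗮ => F (c • ν + (y : Sp (n + 1))))
    exact this.symm

end Plane

theorem stmtNC_aux (n : ℕ) (m J : ℕ) (ρ : ℝ) (hρ : 2 ≤ ρ) : ∃ (c0 C : ℝ), 0 < c0 ∧ 0 < C ∧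
    ∀ (ν p : Sp (n + 1)) (c : ℝ), ‖ν‖ = 1 → ∀ P : Sp (n + 1) → ℝ, ContDiff ℝ ∞ P →
      (∀ y, iteratedFDeriv ℝ (m + 1) P y = 0) → ∀ τ : ℝ, 0 ≤ τ →
      (∀ ψ : Sp (n + 1) → ℝ, TFn J 1 ψ → (∀ y, ψ y = ψ (tang ν y)) →
        (∀ y, ψ y ≠ 0 → ‖tang ν (y - p)‖ ≤ ρ) → (∀ y, 0 ≤ ψ y) →
        -τ ≤ plInt ν c (fun y => P y * ψ y)) →
      ∀ (w : Sp (n + 1)) (o : ℝ) (y0 : Sp (n + 1)), ⟪ν, y0⟫_ℝ = c → ‖tang ν (y0 - p)‖ ≤ ρ →
        c0 * |P y0| * (‖tang ν w‖ ^ 2 + o ^ 2) ≤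
          plInt ν c (fun y => P y *
            (zR (ρ - 1) (tang ν (y - p)) * (⟪w, tang ν (y - p)⟫_ℝ + o) ^ 2)) +
          C * τ * (‖tang ν w‖ ^ 2 + o ^ 2) := by
  obtain ⟨c0, C, hc0, hC, h⟩ := nc_core n m J hρ
  refine ⟨c0, C, hc0, hC, ?_⟩
  intro ν p c hν P hP hP' τ hτ hψ w o y0 hy0 hy0'
  obtain ⟨ι, π, hι, hπ, hιπ, hπι, hadj, hνι, hint⟩ := exists_param ν hν
  set q : Sp (n + 1) := c • ν + tang ν p with hq
  set sp : Sp n := π p with hsp
  -- plane integrals in coordinates centred at p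
  have hint' : ∀ F : Sp (n + 1) → ℝ, plInt ν c F = ∫ s, F (q + ι s) := by
    intro F
    rw [hint, ← integral_add_right_eq_self _ sp]
    congr 1
    funext s
    rw [map_add, hsp, hιπ, hq]
    congr 1
    abel
  have hπν : π ν = 0 := by
    rw [← norm_eq_zero, hπ, tang, real_inner_self_eq_norm_sq, hν]; simp
  have htang : ∀ y, tang ν y = ι (π y) := fun y => (hιπ y).symm
  have hπq : ∀ s, π (q + ι s - p) = s := by
    intro s
    rw [map_sub, map_add, hq, map_add, map_smul, hπν, htang, hπι, hπι]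
    simp
  -- the polynomial
  set Q : Sp n → ℝ := fun s => P (q + ι s) with hQdef
  have hQ : ContDiff ℝ ∞ Q := hP.comp (contDiff_const.add ι.contDiff)
  have hQ' : ∀ s, iteratedFDeriv ℝ (m + 1) Q s = 0 := by
    intro s
    have e1 : Q = (fun y => P (q + y)) ∘ ι := rfl
    have hPq : ContDiff ℝ ((m + 1 : ℕ) : WithTop ℕ∞) (fun y => P (q + y)) :=
      (hP.of_le (nle _)).comp (contDiff_const.add contDiff_id)
    rw [e1, ContinuousLinearMap.iteratedFDeriv_comp_right ι hPq s le_rfl]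
    rw [iteratedFDeriv_comp_add_left, hP']
    ext v
    simp
  have hAdm : Adm J ρ Q τ := by
    refine ⟨hτ, fun ψ hψt => ?_⟩
    set Ψ : Sp (n + 1) → ℝ := fun y => ψ (π (y - p)) with hΨ
    have h1 : -τ ≤ plInt ν c (fun y => P y * Ψ y) := by
      refine hψ Ψ ⟨?_, ?_⟩ ?_ ?_ ?_
      · exact hψt.tf.smooth.comp (π.contDiff.comp (contDiff_id.sub contDiff_const))
      · intro j hj y
        have e1 : Ψ = fun y => (ψ ∘ π) (y - p) := rfl
        rw [e1, iteratedFDeriv_comp_sub, ContinuousLinearMap.iteratedFDeriv_comp_right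
          (n := ((J : ℕ) : WithTop ℕ∞)) π hψt.tf.smooth _ (by exact_mod_cast hj)]
        refine (ContinuousMultilinearMap.norm_compContinuousLinearMap_le _ _).trans ?_
        have hπ1 : ‖π‖ ≤ 1 := by
          refine ContinuousLinearMap.opNorm_le_bound _ zero_le_one fun y => ?_
          rw [one_mul, hπ]
          exact norm_tang_le' hν y
        have h2 : ∏ i : Fin j, ‖π‖ ≤ 1 := Finset.prod_le_one (fun _ _ => norm_nonneg _)
          (fun _ _ => hπ1)
        calc _ ≤ 1 * (1 : ℝ) := mul_le_mul (hψt.tf.bd j hj _) h2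
              (Finset.prod_nonneg fun _ _ => norm_nonneg _) zero_le_one
          _ = 1 := one_mul 1
      · intro y
        have : π (tang ν y - p) = π (y - p) := by
          rw [map_sub, map_sub, htang, hπι]
        rw [hΨ]; simp only [this]
      · intro y hy
        rw [← hπ]
        exact hψt.supp _ hy
      · intro y; exact hψt.nonneg _
    rw [hint'] at h1
    have e2 : (fun s => P (q + ι s) * Ψ (q + ι s)) = fun s => Q s * ψ s := by
      funext s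
      rw [hΨ]; simp only [hπq]; rfl
    rwa [e2] at h1
  -- the point
  set s0 : Sp n := π (y0 - p) with hs0
  have hs0' : ‖s0‖ ≤ ρ := by rw [hs0, hπ]; exact hy0'
  have hQs0 : Q s0 = P y0 := by
    rw [hQdef]
    simp only
    congr 1
    rw [hs0, map_sub, map_sub, hιπ, hιπ, hq, tang, tang, hy0]
    abel
  have key := h Q hQ hQ' τ hAdm (π w) o s0 hs0'
  rw [hQs0, hπ] at key
  refine key.trans (le_of_eq ?_)
  congr 1
  rw [hint', II]
  congr 1
  funext s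
  have e3 : tang ν (q + ι s - p) = ι s := by rw [htang, hπq]
  rw [e3, hadj, hQdef]
  simp only [zR, wt0, hι]
  congr 3
  ring_nf

end NCm

theorem stmtNC : StmtNC := by
  intro d hd m J ρ hρ
  obtain ⟨n, rfl⟩ : ∃ n, d = n + 1 := ⟨d - 1, by omega⟩
  exact NCm.stmtNC_aux n m J ρ hρ

end TG


end

section

/-!
# Trace inequality, general operators: module P1, unit scale   (helper52)
-/

open MeasureTheory Metric Set TrI
open scoped InnerProductSpace ContDiff ENNReal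

namespace TG

namespace P1x

noncomputable section

variable {d : ℕ}

/-! ## Masses -/

/-- the mass of a cut-off times the squared height is at most the off-sheet mass -/
lemma le_blc {R cs : ℝ} (hR : 0 < R) : ∃ K : ℝ, 0 < K ∧ ∀ (ψ : Sp d → ℝ) (N : ℝ), TFn 2 N ψ →
    (∀ y, ψ y ≤ zR R y) → (∀ y, R + 1 ≤ ‖y‖ → ψ y = 0) → ∀ (m : Sp d → ℝ) (n : Sp d) (s D : ℝ),
    Continuous m → ‖n‖ = 1 → |s| ≤ cs → ZP (R + 1) D m →
      ∫ y, m y * (ψ y * hgt n s y ^ 2) ≤ blc n s m R + K * (1 + N) * |D| := by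
  obtain ⟨Nz, hNz, hz⟩ := TU.TFn_of_cs (J := 2) (contDiff_infty.1 (TU.zR_smooth (d := d) hR) 2)
    (TU.zR_cs R)
  refine ⟨4 ^ 2 * (1 + Nz) * max 1 (R + 1 + cs) ^ 2, by positivity, ?_⟩
  intro ψ N hψ hψz hψs m n s D hm hn hs hZ
  have hN := TU.TFn_nonneg hψ
  have hφ := TU.TFn_sub hz hψ
  have h1 : ∀ y : Sp d, R + 1 < ‖y‖ → zR R y - ψ y = 0 := fun y hy => by
    rw [TU.zR_zero hy.le, hψs y hy.le, sub_zero]
  have h2 := TU.TFn_ht_sq hφ h1 hn hs
  have h3 := GSAux.ZP' hZ h2 (fun y => mul_nonneg (by linarith [hψz y]) (sq_nonneg _))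
    (fun y hy => by rw [TU.zR_zero hy, hψs y hy, sub_zero, zero_mul])
  have hi : ∀ φ : Sp d → ℝ, Continuous φ → (∀ y, R + 1 ≤ ‖y‖ → φ y = 0) →
      Integrable (fun y => m y * (φ y * hgt n s y ^ 2)) := by
    intro φ hφ1 hφ2
    have hc : Continuous (fun y => m y * (φ y * hgt n s y ^ 2)) := by
      unfold hgt
      fun_prop
    refine hc.integrable_of_hasCompactSupport ?_
    refine HasCompactSupport.intro (isCompact_closedBall (0 : Sp d) (R + 1)) fun y hy => ?_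
    rw [mem_closedBall, dist_zero_right, not_le] at hy
    rw [hφ2 y hy.le, zero_mul, mul_zero]
  have h4 : ∫ y, m y * ((zR R y - ψ y) * ht n s y ^ 2) =
      blc n s m R - ∫ y, m y * (ψ y * hgt n s y ^ 2) := by
    unfold blc
    rw [← integral_sub (hi (zR R) (TU.zR_smooth hR).continuous fun y hy => TU.zR_zero hy)
      (hi ψ hψ.smooth.continuous hψs)]
    congr 1
    ext y
    simp only [ht, hgt]
    ring
  rw [h4] at h3
  have h5 : 4 ^ 2 * (Nz + N) * max 1 (R + 1 + cs) ^ 2 * D ≤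
      4 ^ 2 * (1 + Nz) * max 1 (R + 1 + cs) ^ 2 * (1 + N) * |D| := by
    have e1 : Nz + N ≤ (1 + Nz) * (1 + N) := by nlinarith only [hNz, hN]
    have e2 : 0 ≤ 4 ^ 2 * max 1 (R + 1 + cs) ^ 2 := by positivity
    calc 4 ^ 2 * (Nz + N) * max 1 (R + 1 + cs) ^ 2 * D =
          (4 ^ 2 * max 1 (R + 1 + cs) ^ 2) * ((Nz + N) * D) := by ring
      _ ≤ (4 ^ 2 * max 1 (R + 1 + cs) ^ 2) * ((1 + Nz) * (1 + N) * |D|) := by
          refine mul_le_mul_of_nonneg_left ?_ e2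
          calc (Nz + N) * D ≤ (Nz + N) * |D| :=
                mul_le_mul_of_nonneg_left (le_abs_self D) (by linarith)
            _ ≤ _ := mul_le_mul_of_nonneg_right e1 (abs_nonneg D)
      _ = _ := by ring
  linarith

/-- the mass of a cell -/
lemma chi_est (hd : 1 ≤ d) (J : ℕ) {R0 : ℝ} (hR0 : (d : ℝ) + 1 ≤ R0) : ∃ K : ℝ, 0 < K ∧
    ∀ (m : Sp d → ℝ) (n : Sp d) (s ab er dl D : ℝ), Continuous m → 0 ≤ D → 0 ≤ dl →
      Sheet J (64 * R0) ab er dl m n s → blc n s m (64 * R0) ≤ er → ZP (64 * R0 + 1) D m →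
      |(∫ y, m y * chi y) - ab * plInt n s chi| ≤ K * (er + dl + D) := by
  have hd0 : (0 : ℝ) ≤ d := Nat.cast_nonneg d
  obtain ⟨Nc, hNc, hc⟩ := TA2Aux.chi_TFnJ hd (J + 2)
  obtain ⟨Nz, hNz, hz⟩ := TU.TFn_of_cs (J := 2)
    (contDiff_infty.1 (TU.zR_smooth (d := d) (R := (d : ℝ) + 1) (by linarith)) 2)
    (TU.zR_cs _)
  obtain ⟨K, hK, hb⟩ := le_blc (d := d) (R := 64 * R0) (cs := 3 / 2 * (64 * R0)) (by linarith)
  refine ⟨Nc * (2 + K * (1 + Nz)), by positivity, ?_⟩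
  intro m n s ab er dl D hm hD hdl hS hbl hZ
  have h1 := hS.est chi d Nc Nc (by exact_mod_cast hc.smooth) hd0 (by linarith)
    (fun y hy => PTm.chi_supp hy hd) (GSAux.TB_of_TFn hc hS.n1 s)
    (fun y => hc.bd 2 (by omega) y)
  have h2 := hb (zR ((d : ℝ) + 1)) Nz hz (fun y => Real.smoothTransition.monotone (by linarith))
    (fun y hy => TU.zR_zero (by linarith)) m n s D hm hS.n1 hS.loc hZ
  have h3 : blc n s m ((d : ℝ) + 1) ≤ er + K * (1 + Nz) * D := by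
    rw [abs_of_nonneg hD] at h2
    exact h2.trans (by linarith)
  have her := hS.ep0
  refine h1.trans ?_
  have h4 := mul_le_mul_of_nonneg_left h3 hNc.le
  have h5 : 0 ≤ Nc * (K * (1 + Nz)) * (er + dl) := by positivity
  have h6 : 0 ≤ Nc * D := by positivity
  nlinarith

/-- the plane integral of a function against the cut-off -/
lemma pl_abs (hPF : StmtPF) (hd : 1 ≤ d) : ∃ C : ℝ, 0 < C ∧ ∀ (n : Sp d), ‖n‖ = 1 →
    ∀ (F : Sp d → ℝ) (B : ℝ), Continuous F → 0 ≤ B → (∀ y, ‖y‖ ≤ d → |F y| ≤ B) → ∀ s,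
      |plInt n s (fun y => chi y * F y)| ≤ C * B := by
  obtain ⟨C, hC, h⟩ := (hPF d hd).1 d
  refine ⟨C, hC, fun n hn F B hF hB hFB s => ?_⟩
  refine h n hn (fun y => chi y * F y) B (PTm.chi_contDiff.continuous.mul hF) (fun y => ?_)
    (fun y hy => ?_) s
  · by_cases hy : ‖y‖ ≤ d
    · rw [abs_mul, abs_of_nonneg (PTm.chi_nonneg y)]
      calc chi y * |F y| ≤ 1 * B :=
            mul_le_mul (PTm.chi_le_one y) (hFB y hy) (abs_nonneg _) zero_le_one
        _ = B := one_mul B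
    · rw [PTm.chi_supp (not_le.1 hy).le hd, zero_mul, abs_zero]
      exact hB
  · refine (PF.norm_tang_le hn y).trans ?_
    by_contra hc
    apply hy
    show chi y * F y = 0
    rw [PTm.chi_supp (not_le.1 hc).le hd, zero_mul]

/-! ## Gains -/

/-- the gain of a cell is at most the potential -/
lemma gain0 (hWA : StmtWA) (hPF : StmtPF) (hd : 2 ≤ d) {M C' ε : ℝ} (hC' : 0 < C') (hε : 0 < ε)
    (hε1 : ε ≤ 1) : ∃ K : ℝ, 0 < K ∧ ∀ β : Sp d → ℝ, Kit 4 M β → ∀ μ : Measure (Sp d),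
      Gro C' μ → ∀ n : Sp d, ‖n‖ = 1 → ∀ s : ℝ,
        0 ≤ plInt n s (fun y => chi y * XX β ε μ n 1 y) ∧
        plInt n s (fun y => chi y * XX β ε μ n 1 y) ≤ K * vv μ 1 0 := by
  obtain ⟨C, hC, h⟩ := hWA d 0 hd M C' ε hC' hε hε1
  obtain ⟨C0, hC0, h0⟩ := pl_abs (d := d) hPF (by omega)
  refine ⟨C0 * (C * Real.sqrt ((1 + (d : ℝ)) ^ d)), by positivity, ?_⟩
  intro β hβ μ hμ n hn s
  obtain ⟨h1, h2, h3, -⟩ := (h β hβ μ hμ).2.2.2.2 n hn
  refine ⟨integral_nonneg fun y => mul_nonneg (PTm.chi_nonneg _) (h2 _), ?_⟩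
  have hv0 : 0 ≤ vv μ 1 (0 : Sp d) := Real.sqrt_nonneg _
  have h4 := h0 n hn (XX β ε μ n 1) (C * (Real.sqrt ((1 + (d : ℝ)) ^ d) * vv μ 1 0))
    h1.continuous (by positivity) (fun y hy => by
      have h5 := h3 0 le_rfl y
      rw [norm_iteratedFDeriv_zero, Real.norm_eq_abs] at h5
      exact h5.trans (mul_le_mul_of_nonneg_left (TA2Aux.vv_harnack hd hC' hμ hy) hC.le)) s
  refine (le_abs_self _).trans (h4.trans (le_of_eq ?_))
  ring

/-- the gains of a cell on two close planes -/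
lemma gain (hTC : StmtTC) (hd : 2 ≤ d) {M C' ε R0 : ℝ} (hC' : 0 < C') (hε : 0 < ε)
    (hε4 : ε ≤ 1 / 4) (hR0 : 0 ≤ R0) : ∃ K : ℝ, 0 < K ∧ ∀ β : Sp d → ℝ, Kit 10 M β →
    ∀ μ : Measure (Sp d), Gro C' μ → ∀ (n n' : Sp d) (s s' σ δ : ℝ), ‖n‖ = 1 → ‖n'‖ = 1 →
      (σ = 1 ∨ σ = -1) → 0 ≤ δ → ‖n - σ • n'‖ ≤ δ → |s - σ * s'| ≤ (1 + 3 * R0) * δ →
        plInt n s (fun y => chi y * XX β ε μ n 1 y) ≤
          4 * plInt n' s' (fun y => chi y * XX β ε μ n' 1 y) + K * δ ^ 2 * vv μ 1 0 := by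
  obtain ⟨Nc, hNc, hc⟩ := TA2Aux.chi_TFnJ (d := d) (by omega) 2
  have hd1 : (1 : ℝ) ≤ d := by exact_mod_cast (by omega : 1 ≤ d)
  obtain ⟨C, hC, h⟩ := hTC d hd M C' ε d hC' hε hε4 hd1
  refine ⟨Nc * C * (1 + 3 * R0) ^ 2, by positivity, ?_⟩
  intro β hβ μ hμ n n' s s' σ δ hn hn' hσ hδ h1 h2
  have hn2 : ‖σ • n'‖ = 1 := by
    rw [norm_smul, hn', mul_one]
    rcases hσ with rfl | rfl <;> simp
  have h3 := TU.TFn_const_mul hc (1 / Nc)
  have h3' : |1 / Nc| * Nc = 1 := by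
    rw [abs_of_pos (by positivity)]
    field_simp
  rw [h3'] at h3
  have h4 := h β hβ μ hμ n (σ • n') s (σ * s') ((1 + 3 * R0) * δ) hn hn2
    (h1.trans (le_mul_of_one_le_left hδ (by linarith only [hR0]))) h2 (fun y => 1 / Nc * chi y) h3
    (fun y => mul_nonneg (by positivity) (PTm.chi_nonneg y))
    (fun y hy => by rw [PTm.chi_supp hy (by omega), mul_zero])
  have h5 : ∀ (k : Sp d) (r : ℝ) (G : Sp d → ℝ), plInt k r (fun y => 1 / Nc * chi y * G y) =
      1 / Nc * plInt k r (fun y => chi y * G y) := by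
    intro k r G
    unfold plInt
    rw [← integral_const_mul]
    congr 1
    ext y
    ring
  rw [h5, h5, WT.plInt_sign n' s' _ hσ] at h4
  simp only [WT.XX_sign β ε μ n' 1 _ hσ] at h4
  have h6 := mul_le_mul_of_nonneg_left h4 hNc.le
  have h7 : Nc * (1 / Nc * plInt n s (fun y => chi y * XX β ε μ n 1 y)) =
      plInt n s (fun y => chi y * XX β ε μ n 1 y) := by
    field_simp
  rw [h7] at h6
  refine h6.trans (le_of_eq ?_)
  field_simp

/-- the areas of a cell on two close planes -/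
lemma area (hPF : StmtPF) (hd : 2 ≤ d) {R0 : ℝ} (hR0 : 0 ≤ R0) : ∃ K : ℝ, 0 < K ∧
    (∀ (n : Sp d) (s : ℝ), ‖n‖ = 1 → 0 ≤ plInt n s chi ∧ plInt n s chi ≤ K) ∧
    ∀ (n n' : Sp d) (s s' σ δ : ℝ), ‖n‖ = 1 → ‖n'‖ = 1 →
      (σ = 1 ∨ σ = -1) → 0 ≤ δ → ‖n - σ • n'‖ ≤ δ → |s - σ * s'| ≤ (1 + 3 * R0) * δ →
        plInt n s chi ≤ 2 * plInt n' s' chi + K * δ ^ 2 := by
  obtain ⟨Nc, hNc, hc⟩ := TA2Aux.chi_TFnJ (d := d) (by omega) 2
  have hd1 : (1 : ℝ) ≤ d := by exact_mod_cast (by omega : 1 ≤ d)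
  obtain ⟨C0, hC0, h0⟩ := pl_abs (d := d) hPF (by omega)
  obtain ⟨C, hC, h⟩ := TCm.pl_cmp (d := d) hPF (by omega) d hd1
  have h9 : ∀ (n : Sp d) (s : ℝ), ‖n‖ = 1 → 0 ≤ plInt n s chi ∧ plInt n s chi ≤ C0 := by
    intro n s hn
    refine ⟨integral_nonneg fun y => PTm.chi_nonneg _, ?_⟩
    have h1 := h0 n hn (fun _ => 1) 1 continuous_const zero_le_one (fun y _ => by simp) s
    simp only [mul_one] at h1
    exact (le_abs_self _).trans h1
  have hR1 : 1 ≤ 1 + 3 * R0 := by linarith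
  refine ⟨(C0 + C * Nc) * (1 + 3 * R0) ^ 2, by positivity, ?_, ?_⟩
  · intro n s hn
    obtain ⟨a1, a2⟩ := h9 n s hn
    refine ⟨a1, a2.trans ?_⟩
    have e1 : 1 ≤ (1 + 3 * R0) ^ 2 := one_le_pow₀ hR1
    have e2 : 0 ≤ C * Nc := by positivity
    nlinarith
  · intro n n' s s' σ δ hn hn' hσ hδ h1 h2
    have hn2 : ‖σ • n'‖ = 1 := by
      rw [norm_smul, hn', mul_one]
      rcases hσ with rfl | rfl <;> simp
    obtain ⟨a1, a2⟩ := h9 n s hn
    obtain ⟨b1, -⟩ := h9 n' s' hn'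
    have e0 : 0 ≤ C * Nc * ((1 + 3 * R0) ^ 2 * δ ^ 2) := by positivity
    have e1 : 0 ≤ C0 * ((1 + 3 * R0) ^ 2 * δ ^ 2) := by positivity
    by_cases h3 : (1 + 3 * R0) * δ ≤ 1
    · have h4 := h n (σ • n') s (σ * s') ((1 + 3 * R0) * δ) hn hn2
        (h1.trans (le_mul_of_one_le_left hδ (by linarith))) h2 h3 chi Nc hc.smooth
        PTm.chi_nonneg (fun y => hc.bd 2 le_rfl y) (fun y hy => PTm.chi_supp hy (by omega))
      rw [WT.plInt_sign n' s' _ hσ, mul_pow] at h4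
      linarith
    · have h4 : 1 ≤ ((1 + 3 * R0) * δ) ^ 2 := one_le_pow₀ (not_le.1 h3).le
      rw [mul_pow] at h4
      have h5 := mul_le_mul_of_nonneg_left h4 hC0.le
      linarith

/-! ## The off-sheet mass -/

/-- the off-sheet mass of a cell with respect to two close planes -/
lemma off (hPF : StmtPF) (hd : 2 ≤ d) (J : ℕ) {R0 : ℝ} (hR0 : (d : ℝ) + 1 ≤ R0) :
    ∃ K : ℝ, 0 < K ∧
    ∀ (m : Sp d → ℝ) (n n' : Sp d) (s s' σ δ ab er dl D : ℝ), Continuous m → 0 ≤ D → 0 ≤ dl →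
      Sheet J (64 * R0) ab er dl m n' s' → blc n' s' m (64 * R0) ≤ er → ZP (64 * R0 + 1) D m →
      er ≤ ab → dl ≤ ab → ‖n‖ = 1 → (σ = 1 ∨ σ = -1) → 0 ≤ δ → δ ≤ 1 → ‖n - σ • n'‖ ≤ δ →
      |s - σ * s'| ≤ (1 + 3 * R0) * δ →
      ∫ y, m y * (chi y * hgt n s y ^ 2) ≤
        2 * (∫ y, m y * (chi y * hgt n' s' y ^ 2)) + K * (ab * δ ^ 2 + D) := by
  have hd0 : (0 : ℝ) ≤ d := Nat.cast_nonneg d
  have hR00 : 0 ≤ R0 := by linarith
  obtain ⟨Nc, hNc, hc⟩ := TA2Aux.chi_TFnJ (d := d) (by omega) 2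
  obtain ⟨Ka, hKa, ha, -⟩ := area (d := d) hPF hd hR00
  obtain ⟨Ke, hKe, he⟩ := chi_est (d := d) (by omega) J hR0
  set c : ℝ := 2 * ((d : ℝ) + 1 + 3 * R0) ^ 2 with hcd
  have hc0 : 0 < c := by positivity
  set N1 : ℝ := 4 ^ 2 * Nc * max 1 (d + 100 * R0) ^ 2 with hN1
  have hN10 : 0 < N1 := by positivity
  refine ⟨c * Ka + 3 * (c * Ke) + (3 * N1 + c * Nc), by positivity, ?_⟩
  intro m n n' s s' σ δ ab er dl D hm hD hdl hS hbl hZ her hdl2 hn hσ hδ hδ1 h1 h2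
  have hab := hS.ab0
  have hn' := hS.n1
  have hs1 : |s'| ≤ 100 * R0 := hS.loc.trans (by linarith only [hR0])
  have hσ1 : |σ| = 1 := by rcases hσ with rfl | rfl <;> simp
  have hσ2 : σ ^ 2 = 1 := by rcases hσ with rfl | rfl <;> norm_num
  have hs2 : |s| ≤ 100 * R0 := by
    have e1 : s = (s - σ * s') + σ * s' := by ring
    rw [e1]
    refine (abs_add_le _ _).trans ?_
    rw [abs_mul, hσ1, one_mul]
    have e2 := hS.loc
    have e3 : (1 + 3 * R0) * δ ≤ 1 + 3 * R0 := mul_le_of_le_one_right (by linarith) hδ1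
    linarith
  have hsp : ∀ y : Sp d, (d : ℝ) < ‖y‖ → chi y = 0 := fun y hy => PTm.chi_supp hy.le (by omega)
  have t1 : TFn 2 N1 (fun y => chi y * ht n' s' y ^ 2) := TU.TFn_ht_sq hc hsp hn' hs1
  have t2 : TFn 2 N1 (fun y => chi y * ht n s y ^ 2) := TU.TFn_ht_sq hc hsp hn hs2
  have t3 := TU.TFn_const_mul t1 2
  have t4 := TU.TFn_const_mul hc (c * δ ^ 2)
  have t5 := TU.TFn_sub (TU.TFn_add t3 t4) t2
  rw [abs_two, abs_of_nonneg (by positivity : 0 ≤ c * δ ^ 2)] at t5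
  have hδ2 : δ ^ 2 ≤ 1 := pow_le_one₀ hδ hδ1
  -- positivity
  have hpos : ∀ y, 0 ≤ 2 * (chi y * ht n' s' y ^ 2) + c * δ ^ 2 * chi y - chi y * ht n s y ^ 2 := by
    intro y
    by_cases hy : ‖y‖ ≤ d
    · have e1 : ht n s y = σ * ht n' s' y + (⟪n - σ • n', y⟫_ℝ - (s - σ * s')) := by
        unfold ht
        rw [inner_sub_left, real_inner_smul_left]
        ring
      have e2 : |⟪n - σ • n', y⟫_ℝ - (s - σ * s')| ≤ ((d : ℝ) + 1 + 3 * R0) * δ := by
        refine (abs_sub _ _).trans ?_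
        have e3 : |⟪n - σ • n', y⟫_ℝ| ≤ δ * d :=
          (abs_real_inner_le_norm _ _).trans (mul_le_mul h1 hy (norm_nonneg _) hδ)
        linarith
      set e := ⟪n - σ • n', y⟫_ℝ - (s - σ * s') with he'
      have e4 : e ^ 2 ≤ (((d : ℝ) + 1 + 3 * R0) * δ) ^ 2 :=
        sq_le_sq' (abs_le.1 e2).1 (abs_le.1 e2).2
      have e5 : ht n s y ^ 2 ≤ 2 * ht n' s' y ^ 2 + c * δ ^ 2 := by
        rw [e1, hcd]
        have e6 : (σ * ht n' s' y + e) ^ 2 ≤ 2 * (σ ^ 2 * ht n' s' y ^ 2) + 2 * e ^ 2 := by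
          linarith only [sq_nonneg (σ * ht n' s' y - e)]
        rw [hσ2, one_mul] at e6
        linarith only [e4, e6]
      have e7 := mul_le_mul_of_nonneg_left e5 (PTm.chi_nonneg y)
      linarith
    · rw [hsp y (not_le.1 hy)]
      simp
  have h3 := GSAux.ZP' hZ t5 hpos (fun y hy => by
    have : chi y = 0 := hsp y (by linarith)
    rw [this]
    simp)
  -- the integrals
  have hi : ∀ φ : Sp d → ℝ, Continuous φ → Integrable (fun y => m y * (chi y * φ y)) := by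
    intro φ hφ
    have hcc : Continuous (fun y => m y * (chi y * φ y)) :=
      hm.mul (PTm.chi_contDiff.continuous.mul hφ)
    refine hcc.integrable_of_hasCompactSupport ?_
    refine HasCompactSupport.intro (isCompact_closedBall (0 : Sp d) d) fun y hy => ?_
    rw [mem_closedBall, dist_zero_right, not_le] at hy
    rw [hsp y hy, zero_mul, mul_zero]
  have c1 : Continuous fun y : Sp d => ht n' s' y ^ 2 := by unfold ht; fun_prop
  have c2 : Continuous fun y : Sp d => ht n s y ^ 2 := by unfold ht; fun_prop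
  have i1 := hi _ c1
  have i2 := hi _ c2
  have i3 := hi (fun _ => 1) continuous_const
  have h4 : ∫ y, m y * (2 * (chi y * ht n' s' y ^ 2) + c * δ ^ 2 * chi y - chi y * ht n s y ^ 2) =
      2 * (∫ y, m y * (chi y * ht n' s' y ^ 2)) + c * δ ^ 2 * (∫ y, m y * chi y) -
        ∫ y, m y * (chi y * ht n s y ^ 2) := by
    have e1 : (fun y => m y * (2 * (chi y * ht n' s' y ^ 2) + c * δ ^ 2 * chi y -
        chi y * ht n s y ^ 2)) = fun y => (2 * (m y * (chi y * ht n' s' y ^ 2)) +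
          c * δ ^ 2 * (m y * (chi y * 1))) - m y * (chi y * ht n s y ^ 2) := by
      funext y
      ring
    have i12 : Integrable (fun y => 2 * (m y * (chi y * ht n' s' y ^ 2)) +
        c * δ ^ 2 * (m y * (chi y * 1))) := (i1.const_mul 2).add (i3.const_mul _)
    rw [e1, integral_sub i12 i2,
      integral_add (i1.const_mul 2) (i3.const_mul _), integral_const_mul, integral_const_mul]
    simp only [mul_one]
  rw [h4] at h3
  -- the mass
  have h5 := (abs_le.1 (he m n' s' ab er dl D hm hD hdl hS hbl hZ)).2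
  have h6 := mul_le_mul_of_nonneg_left (ha n' s' hn').2 hab.le
  have h7 : ∫ y, m y * chi y ≤ (Ka + 2 * Ke) * ab + Ke * D := by
    have e1 : Ke * (er + dl + D) ≤ Ke * (2 * ab + D) :=
      mul_le_mul_of_nonneg_left (by linarith) hKe.le
    linarith
  have h8 : c * δ ^ 2 * (∫ y, m y * chi y) ≤ c * δ ^ 2 * ((Ka + 2 * Ke) * ab) + c * (Ke * D) := by
    have e1 := mul_le_mul_of_nonneg_left h7 (by positivity : 0 ≤ c * δ ^ 2)
    have e2 : c * (Ke * D) * δ ^ 2 ≤ c * (Ke * D) :=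
      mul_le_of_le_one_right (by positivity) hδ2
    linarith
  have h9 : (2 * N1 + c * δ ^ 2 * Nc + N1) * D ≤ (3 * N1 + c * Nc) * D := by
    refine mul_le_mul_of_nonneg_right ?_ hD
    have : c * Nc * δ ^ 2 ≤ c * Nc := mul_le_of_le_one_right (by positivity) hδ2
    linarith
  have h10 : 0 ≤ (c * Ke + (3 * N1 + c * Nc)) * (ab * δ ^ 2) := by (clear * - hd hR00 hKe hNc hab; positivity)
  have h11 : 0 ≤ (c * Ka + 2 * (c * Ke)) * D := by (clear * - hd hR00 hKa hKe hD; positivity)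
  show ∫ y, m y * (chi y * ht n s y ^ 2) ≤ 2 * (∫ y, m y * (chi y * ht n' s' y ^ 2)) + _
  linarith only [h3, h8, h9, h10, h11]

end

end P1x

end TG


end

section

/-!
# Trace inequality, general operators: module P1, the pair inequalities   (helper52)
-/

open MeasureTheory Metric Set TrI
open scoped InnerProductSpace ContDiff ENNReal

namespace TG

namespace P1x

noncomputable section

variable {d : ℕ}

/-- Harnack for the weights, finitely many scales -/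
lemma harn (hd : 2 ≤ d) {C' r : ℝ} (hC' : 0 < C') (hr : 0 ≤ r) (JA : ℕ) :
    ∃ C : ℝ, 1 ≤ C ∧ ∀ i ≤ JA, ∀ μ : Measure (Sp d), Gro C' μ → ∀ s0 : ℝ, 0 < s0 →
      ∀ Q Q' : Cell d, Q'.1 = Q.1 + i → ‖xC s0 Q' - xC s0 Q‖ ≤ r * lev s0 Q'.1 →
        omC μ s0 Q' ≤ C * omC μ s0 Q ∧ omC μ s0 Q ≤ C * omC μ s0 Q' := by
  have h := fun i => stmtCT7 d hd C' 1 1 r hC' one_pos le_rfl le_rfl hr i
  choose C hC hH using h
  have hCn : ∀ i, 0 ≤ C i := fun i => (hC i).le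
  refine ⟨1 + ∑ i ∈ Finset.range (JA + 1), C i, ?_, ?_⟩
  · have := Finset.sum_nonneg fun i (_ : i ∈ Finset.range (JA + 1)) => hCn i
    linarith
  · intro i hi μ hμ s0 hs0 Q Q' h1 h2
    obtain ⟨h3, h4⟩ := (hH i μ hμ s0 hs0).2.2.1 Q Q' h1 h2
    have h5 : 0 ≤ omC μ s0 Q := Real.sqrt_nonneg _
    have h6 : 0 ≤ omC μ s0 Q' := Real.sqrt_nonneg _
    have h7 : C i ≤ 1 + ∑ i ∈ Finset.range (JA + 1), C i := by
      have := Finset.single_le_sum (f := C) (fun i _ => hCn i)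
        (Finset.mem_range.2 (by omega : i < JA + 1))
      linarith
    exact ⟨h3.trans (mul_le_mul_of_nonneg_right h7 h5), h4.trans (mul_le_mul_of_nonneg_right h7 h6)⟩

lemma cw_pos {s0 : ℝ} (h : 0 < s0) (Q : Cell d) : 0 < cw s0 Q := by
  unfold cw lev
  positivity

/-- arithmetic: the gain -/
lemma ar1 {w v w' v' ab ab' G G' K1 Kg0 Kg B S2 z δ C : ℝ} (hw' : 0 ≤ w') (hE : 0 ≤ w * v)
    (hww : w' * v' ≤ B * (w * v)) (hab : 0 ≤ ab) (hv' : 0 ≤ v') (hG : 0 ≤ G) (hG' : 0 ≤ G')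
    (hG1 : G ≤ Kg0 * v') (hz : 0 ≤ z) (hzS : z ≤ S2) (hK1 : 0 ≤ K1) (hKg0 : 0 ≤ Kg0)
    (hKg : 0 ≤ Kg) (hB : 0 ≤ B) (hab' : 0 ≤ ab') (hC : 8 ≤ C)
    (h : ab ≤ K1 * z ∨ (ab ≤ 2 * ab' ∧ G ≤ 4 * G' + Kg * δ ^ 2 * v' ∧ ab * δ ^ 2 ≤ K1 * S2)) :
    w' * (ab * G) ≤ C * (w' * (ab' * G')) + B * (Kg0 * K1 + Kg * K1) * (w * v) * S2 := by
  have hS2 : 0 ≤ S2 := hz.trans hzS
  have n1 : 0 ≤ w' * (ab' * G') := by positivity
  have n2 : 0 ≤ B * (Kg * K1) * (w * v) * S2 := by positivity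
  have n3 : 0 ≤ B * (Kg0 * K1) * (w * v) * S2 := by positivity
  have n4 : 0 ≤ (C - 8) * (w' * (ab' * G')) := mul_nonneg (by linarith) n1
  rcases h with h | ⟨h1, h2, h3⟩
  · have e1 : ab * G ≤ (K1 * z) * (Kg0 * v') := mul_le_mul h hG1 hG (by positivity)
    have e2 : w' * (ab * G) ≤ (w' * v') * (Kg0 * K1 * S2) := by
      calc w' * (ab * G) ≤ w' * ((K1 * z) * (Kg0 * v')) := mul_le_mul_of_nonneg_left e1 hw'
        _ = (w' * v' * (Kg0 * K1)) * z := by ring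
        _ ≤ (w' * v' * (Kg0 * K1)) * S2 := mul_le_mul_of_nonneg_left hzS (by positivity)
        _ = _ := by ring
    have e3 : (w' * v') * (Kg0 * K1 * S2) ≤ B * (w * v) * (Kg0 * K1 * S2) :=
      mul_le_mul_of_nonneg_right hww (by positivity)
    have e4 : 0 ≤ C * (w' * (ab' * G')) := by linarith only [n1, n4]
    linarith
  · have e1 : ab * G ≤ 8 * (ab' * G') + Kg * v' * (K1 * S2) := by
      calc ab * G ≤ ab * (4 * G' + Kg * δ ^ 2 * v') := mul_le_mul_of_nonneg_left h2 hab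
        _ = 4 * G' * ab + Kg * v' * (ab * δ ^ 2) := by ring
        _ ≤ 4 * G' * (2 * ab') + Kg * v' * (K1 * S2) :=
            add_le_add (mul_le_mul_of_nonneg_left h1 (by positivity))
              (mul_le_mul_of_nonneg_left h3 (by positivity))
        _ = _ := by ring
    have e2 : w' * (ab * G) ≤ 8 * (w' * (ab' * G')) + (w' * v') * (Kg * K1 * S2) := by
      have := mul_le_mul_of_nonneg_left e1 hw'
      linarith
    have e3 : (w' * v') * (Kg * K1 * S2) ≤ B * (w * v) * (Kg * K1 * S2) :=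
      mul_le_mul_of_nonneg_right hww (by positivity)
    linarith

/-- arithmetic: the mass -/
lemma ar2 {w v w' v' ab ab' P P' I e K1 Ke Ka CH B S1 z δ C : ℝ} (hw' : 0 ≤ w')
    (hww : w' * v' ≤ B * (w * v)) (hww2 : w' * v ≤ B * (w * v))
    (hv : 0 ≤ v) (hv' : 0 ≤ v') (hvv : v ≤ CH * v') (hab : 0 ≤ ab)
    (hP1 : P ≤ Ka) (hz : 0 ≤ z) (hzS : z ≤ S1) (he : 0 ≤ e) (heS : e ≤ S1)
    (hK1 : 0 ≤ K1) (hKe : 0 ≤ Ke) (hKa : 0 ≤ Ka)
    (hab' : 0 ≤ ab') (hP' : 0 ≤ P') (hI : |I - ab' * P'| ≤ Ke * e) (hCH : 0 ≤ CH)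
    (hC : 4 * CH ≤ C) (hδ : 0 ≤ δ) (hδ1 : δ ≤ 1)
    (h : ab ≤ K1 * z ∨ (ab ≤ 2 * ab' ∧ P ≤ 2 * P' + Ka * δ ^ 2 ∧ ab * δ ≤ K1 * S1)) :
    w' * (v * (ab * P)) ≤ C * (w' * v') * I + (C * B * Ke + B * Ka * K1) * (w * v) * S1 := by
  have hS1 : 0 ≤ S1 := hz.trans hzS
  obtain ⟨i1, i2⟩ := abs_le.1 hI
  have hX : ab' * P' ≤ I + Ke * e := by linarith
  have hX0 : 0 ≤ I + Ke * e := le_trans (by positivity) hX
  have hC0 : 0 ≤ C := le_trans (by positivity) hC
  have a1 : ab * P ≤ 4 * (I + Ke * e) + Ka * (K1 * S1) := by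
    rcases h with h | ⟨h1, h2, h3⟩
    · calc ab * P ≤ ab * Ka := mul_le_mul_of_nonneg_left hP1 hab
        _ ≤ (K1 * z) * Ka := mul_le_mul_of_nonneg_right h hKa
        _ = K1 * Ka * z := by ring
        _ ≤ K1 * Ka * S1 := mul_le_mul_of_nonneg_left hzS (by positivity)
        _ ≤ _ := by linarith
    · have hδ2 : δ ^ 2 ≤ δ := by nlinarith only [hδ, hδ1]
      calc ab * P ≤ ab * (2 * P' + Ka * δ ^ 2) := mul_le_mul_of_nonneg_left h2 hab
        _ = 2 * P' * ab + Ka * (ab * δ ^ 2) := by ring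
        _ ≤ 2 * P' * (2 * ab') + Ka * (ab * δ) :=
            add_le_add (mul_le_mul_of_nonneg_left h1 (by positivity))
              (mul_le_mul_of_nonneg_left (mul_le_mul_of_nonneg_left hδ2 hab) hKa)
        _ ≤ 4 * (I + Ke * e) + Ka * (K1 * S1) := by
            have := mul_le_mul_of_nonneg_left h3 hKa
            linarith
  have a2 : v * (ab * P) ≤ C * v' * (I + Ke * e) + v * (Ka * K1 * S1) := by
    have b1 := mul_le_mul_of_nonneg_left a1 hv
    have b2 : v * (4 * (I + Ke * e)) ≤ C * v' * (I + Ke * e) := by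
      calc v * (4 * (I + Ke * e)) ≤ (CH * v') * (4 * (I + Ke * e)) :=
            mul_le_mul_of_nonneg_right hvv (by positivity)
        _ = (4 * CH) * (v' * (I + Ke * e)) := by ring
        _ ≤ C * (v' * (I + Ke * e)) := mul_le_mul_of_nonneg_right hC (by positivity)
        _ = _ := by ring
    linarith
  have a3 := mul_le_mul_of_nonneg_left a2 hw'
  have a4 : C * (w' * v') * (Ke * e) ≤ C * B * Ke * (w * v) * S1 := by
    calc C * (w' * v') * (Ke * e) = (w' * v') * (C * Ke * e) := by ring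
      _ ≤ (B * (w * v)) * (C * Ke * e) := mul_le_mul_of_nonneg_right hww (by positivity)
      _ = ((B * (w * v)) * (C * Ke)) * e := by ring
      _ ≤ ((B * (w * v)) * (C * Ke)) * S1 := by
          refine mul_le_mul_of_nonneg_left heS (mul_nonneg ?_ (by positivity))
          exact le_trans (by positivity) hww
      _ = _ := by ring
  have a5 : (w' * v) * (Ka * K1 * S1) ≤ (B * (w * v)) * (Ka * K1 * S1) :=
    mul_le_mul_of_nonneg_right hww2 (by positivity)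
  linarith

/-- arithmetic: the off-sheet mass -/
lemma ar3 {w v v' L I2 CH C K S2 : ℝ} (hw : 0 ≤ w) (hv : 0 ≤ v) (hv' : 0 ≤ v')
    (hvv : v ≤ CH * v') (hC : 2 * CH ≤ C) (hL : L ≤ 2 * max 0 I2 + K * S2) :
    w * (v * L) ≤ C * (w * max 0 (v' * I2)) + K * (w * v) * S2 := by
  have h1 : max 0 (v' * I2) = v' * max 0 I2 := by
    rw [mul_max_of_nonneg _ _ hv', mul_zero]
  have h0 : 0 ≤ max 0 I2 := le_max_left _ _
  have h2 : v * L ≤ C * (v' * max 0 I2) + v * (K * S2) := by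
    have b1 := mul_le_mul_of_nonneg_left hL hv
    have b2 : v * (2 * max 0 I2) ≤ C * (v' * max 0 I2) := by
      calc v * (2 * max 0 I2) ≤ (CH * v') * (2 * max 0 I2) :=
            mul_le_mul_of_nonneg_right hvv (by positivity)
        _ = (2 * CH) * (v' * max 0 I2) := by ring
        _ ≤ _ := mul_le_mul_of_nonneg_right hC (by positivity)
    linarith
  have h3 := mul_le_mul_of_nonneg_left h2 hw
  rw [h1]
  linarith

end

end P1x

open _root_.TG.P1x in
/-- MODULE P1 -/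
theorem stmtP1 (hGS : StmtGS) (hTC : StmtTC) (hNS : StmtNS) (hFM : StmtFM) (hWA : StmtWA)
    (hPF : StmtPF) : StmtP1 := by
  intro d J JA hd M c0 C' c R0 X hX
  have hd1 : 1 ≤ d := by omega
  have hd0 : (0 : ℝ) ≤ d := Nat.cast_nonneg d
  have hC' := hX.C'_pos
  have hε := hX.prm.ε_pos
  have hε4 := hX.prm.ε_le
  have hA := hX.prm.A_ge
  have hRg := hX.R0_ge
  have hR0 : (d : ℝ) + 1 ≤ R0 := by linarith
  have hR01 : 1 ≤ R0 := by linarith
  have hR00 : 0 ≤ R0 := by linarith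
  obtain ⟨K1, hK1, hpair⟩ := pair (d := d) hGS hd J JA hR01
  obtain ⟨Ke, hKe, hest⟩ := chi_est (d := d) hd1 J hR0
  obtain ⟨Kg0, hKg0, hgain0⟩ := gain0 (d := d) (M := M) hWA hPF hd hC' hε
    (by linarith : X.ε ≤ 1)
  obtain ⟨Kg, hKg, hgain⟩ := gain (d := d) (M := M) hTC hd hC' hε hε4 hR00
  obtain ⟨Ka, hKa, ha, harea⟩ := area (d := d) hPF hd hR00
  obtain ⟨Ko, hKo, hoff⟩ := off (d := d) hPF hd J hR0
  obtain ⟨CH, hCH, hH⟩ := harn (d := d) hd (C' := C') (r := 3 * R0) hC' (by linarith) JA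
  obtain ⟨Kb, hKb, hblc⟩ := le_blc (d := d) (R := 64 * R0) (cs := 3 / 2 * (64 * R0))
    (by linarith)
  obtain ⟨Nc, hNc, hc⟩ := TA2Aux.chi_TFnJ (d := d) hd1 2
  have hCH0 : 0 < CH := by linarith
  have hK10 : 0 < K1 := by linarith
  set C : ℝ := 8 + 4 * CH with hC
  have hC0 : 0 < C := by rw [hC]; linarith
  set B : ℝ := 2 ^ (JA * (d - 1)) * CH with hB
  have hB0 : 0 < B := by rw [hB]; positivity
  set Nz : ℝ := 4 ^ 2 * Nc * max 1 (3 * R0 + d + 100 * R0) ^ 2 with hNz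
  have hNz0 : 0 < Nz := by rw [hNz]; positivity
  set Q1 : ℝ := B * (Kg0 * K1 + Kg * K1) with hQ1
  set Q2 : ℝ := C * B * Ke + B * Ka * K1 with hQ2
  set Q3 : ℝ := K1 + Kb * (1 + Nc) with hQ3
  set Q4 : ℝ := Nz + 2 * (Ko * K1) + Ko with hQ4
  have p1 : 0 < Q1 := by rw [hQ1]; positivity
  have p2 : 0 < Q2 := by rw [hQ2]; positivity
  have p3 : 0 < Q3 := by rw [hQ3]; positivity
  have p4 : 0 < Q4 := by rw [hQ4]; positivity
  refine ⟨C, hC0, ?_⟩
  intro Kc hKc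
  refine ⟨1 / (K1 * (1 + Kc)), Q1 + Q2 + Q3 + Q4 + 2 * K1, 64 * R0 + 1, by positivity,
    by positivity, ?_⟩
  intro E _ _ _ W hW Q hsv hQ Q' hQ' hQ2' habK i hi
  set κ : ℝ := 1 / (K1 * (1 + Kc)) with hκ
  have hκ0 : 0 < κ := by rw [hκ]; positivity
  have hκK : K1 * (κ * (1 + Kc)) = 1 := by
    rw [hκ]
    field_simp
  have hκ1 : κ ≤ 1 := by
    rw [hκ, div_le_one (by positivity)]
    nlinarith only [hK1, hKc]
  clear_value κ
  have hs0 := hW.s0_pos
  obtain ⟨hmem, hsc, -⟩ := hNS d hd1 W.s0 (3 * R0) hs0 (by linarith) JA Q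
  obtain ⟨i', hi', hl, hx0⟩ := (hmem Q').1 hQ'
  have hii : i' = i := by omega
  subst hii
  obtain ⟨hwT, -, hmem2⟩ := hsc i' hi' Q' hi
  have hx : ‖tw W.s0 Q Q'‖ ≤ 3 * R0 * 2 ^ i' := hmem2.1 hQ'
  obtain ⟨hfA, hfB, hfC, hfD⟩ := hFM d hd C' hC' W.s0 hs0 i' Q Q' hi (tw W.s0 Q Q') rfl
  obtain ⟨hGr, hv1, -, -, hXX⟩ := hfD W.μ hW.gro
  obtain ⟨hGr', hv1', -⟩ := (hFM d hd C' hC' W.s0 hs0 0 Q' Q' rfl _ rfl).2.2.2 W.μ hW.gro
  have hm' : W.m Q' = fun y => 2 ^ i' * mQ W.s0 W.f (W.e Q') Q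
      (tw W.s0 Q Q' + (2 : ℝ) ^ i' • y) := funext fun y => hfA E W.f (W.e Q') y
  have hmc : Continuous (W.m Q) := FR.mQ_cont hW.fc _ _ _
  have hmc' : Continuous (W.m Q') := FR.mQ_cont hW.fc _ _ _
  have hmx : Continuous (mQ W.s0 W.f (W.e Q') Q) := FR.mQ_cont hW.fc _ _ _
  have hn := hW.nu Q
  have hn' := hW.nu Q'
  have hab := hQ.sh.ab0
  have hab' := hQ2'.sh.ab0
  have her := hQ.sh.ep0
  have her' := hQ2'.sh.ep0
  have hD := hW.D0 Q
  have hD' := hW.D0 Q'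
  have hdl := hQ.dl0
  have hdl' := hQ2'.dl0
  have hw : 0 < W.w Q := cw_pos hs0 Q
  have hw' : 0 < W.w Q' := cw_pos hs0 Q'
  have hv : 0 ≤ W.v Q := Real.sqrt_nonneg _
  have hv' : 0 ≤ W.v Q' := Real.sqrt_nonneg _
  obtain ⟨hH1, hH2⟩ := hH i' hi' W.μ hW.gro W.s0 hs0 Q Q' hi hx0
  have hH1' : W.v Q' ≤ CH * W.v Q := hH1
  have hH2' : W.v Q ≤ CH * W.v Q' := hH2
  have hwT' : W.w Q' = (2 : ℝ) ^ (i' * (d - 1)) * W.w Q := hwT
  have hwle : W.w Q' ≤ 2 ^ (JA * (d - 1)) * W.w Q := by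
    rw [hwT']
    refine mul_le_mul_of_nonneg_right ?_ hw.le
    exact pow_le_pow_right₀ (by norm_num) (Nat.mul_le_mul_right _ hi')
  have hE : 0 ≤ W.w Q * W.v Q := mul_nonneg hw.le hv
  have hww : W.w Q' * W.v Q' ≤ B * (W.w Q * W.v Q) := by
    calc W.w Q' * W.v Q' ≤ (2 ^ (JA * (d - 1)) * W.w Q) * (CH * W.v Q) :=
          mul_le_mul hwle hH1' hv' (by positivity)
      _ = _ := by rw [hB]; ring
  have hww2 : W.w Q' * W.v Q ≤ B * (W.w Q * W.v Q) := by
    calc W.w Q' * W.v Q ≤ (2 ^ (JA * (d - 1)) * W.w Q) * W.v Q :=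
          mul_le_mul_of_nonneg_right hwle hv
      _ = 2 ^ (JA * (d - 1)) * (W.w Q * W.v Q) * 1 := by ring
      _ ≤ 2 ^ (JA * (d - 1)) * (W.w Q * W.v Q) * CH :=
          mul_le_mul_of_nonneg_left hCH (by (clear * - hw hv; positivity))
      _ = _ := by rw [hB]; ring
  -- the kernels
  have hXe : W.X.ε = X.ε := by rw [hW.X_eq]
  have hkit : Kit (J + 10) M (W.be Q') := by
    unfold Wld.be bQ
    rw [hW.X_eq]
    exact hX.ker.kit _
  -- the alternative
  have hpr := hpair i' hi' (W.m Q) (mQ W.s0 W.f (W.e Q') Q) (W.nv Q) (W.nv Q') (tw W.s0 Q Q')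
    (W.sv Q) (W.sv Q') (W.ab Q) (W.ab Q') (W.er Q) (W.er Q') (W.dl Q) (W.dl Q') (W.D Q) (W.D Q')
    Kc κ hmc hmx hD hD' hdl hdl' hQ.sh (by rw [← hm']; exact hQ2'.sh) (hW.zp Q)
    (by rw [← hm']; exact hW.zp Q') (fun Y N hY hYs => hW.dir Q Q' hQ' Y N hY hYs) hsv hx hQ.bl
    (by rw [← hm']; exact hQ2'.bl) hKc hκ0 hκK.le hQ.small hQ.smalld hQ2'.small hQ2'.smalld habK
  set S2 : ℝ := W.er Q ^ 2 / W.ab Q + W.er Q' ^ 2 / W.ab Q' + W.dl Q + W.dl Q' + W.D Q + W.D Q'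
    with hS2
  set S1 : ℝ := W.er Q + W.er Q' + W.dl Q + W.dl Q' + W.D Q + W.D Q' with hS1
  have hq1 : 0 ≤ W.er Q ^ 2 / W.ab Q := by (clear * - hab; positivity)
  have hq2 : 0 ≤ W.er Q' ^ 2 / W.ab Q' := by (clear * - hab'; positivity)
  have hDS2 : W.D Q + W.D Q' ≤ S2 := by rw [hS2]; linarith only [hdl, hdl', hq1, hq2]
  have hDS1 : W.D Q + W.D Q' ≤ S1 := by rw [hS1]; linarith only [her, her', hdl, hdl']
  have hS20 : 0 ≤ S2 := by linarith only [hD, hD', hdl, hdl', hq1, hq2]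
  have hS10 : 0 ≤ S1 := by linarith only [her, her', hD, hD', hdl, hdl']
  clear_value S1 S2
  set st : ℝ := (1 / 2 : ℝ) ^ i' * (W.sv Q - ⟪W.nv Q, tw W.s0 Q Q'⟫_ℝ) with hst
  clear_value Q1 Q2 Q3 Q4
  have hchi : ∀ y : Sp d, ((1 / 2 : ℝ) ^ i') • (tw W.s0 Q Q' + (2 : ℝ) ^ i' • y -
      tw W.s0 Q Q') = y := by
    intro y
    rw [add_sub_cancel_left, smul_smul, ← mul_pow]
    norm_num
  refine ⟨?_, ?_, ?_, ?_⟩
  · -- the gain
    obtain ⟨g1, g2⟩ := hgain0 (W.be Q') (hkit.mono_order (by omega)) (W.mu Q') hGr' (W.nv Q) hn st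
    obtain ⟨g3, -⟩ := hgain0 (W.be Q') (hkit.mono_order (by omega)) (W.mu Q') hGr' (W.nv Q') hn'
      (W.sv Q')
    have g4 : vv (W.mu Q') 1 0 = W.v Q' := hv1'
    rw [g4] at g2
    have hT := hfC (W.nv Q) (W.sv Q) (fun x => chi (((1 / 2 : ℝ) ^ i') • (x - tw W.s0 Q Q')) *
      XX (W.be Q') W.X.ε (W.mu Q) (W.nv Q) (2 ^ i') x) hn
    have hT2 : (fun y => chi (((1 / 2 : ℝ) ^ i') • (tw W.s0 Q Q' + (2 : ℝ) ^ i' • y -
        tw W.s0 Q Q')) * XX (W.be Q') W.X.ε (W.mu Q) (W.nv Q) (2 ^ i')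
          (tw W.s0 Q Q' + (2 : ℝ) ^ i' • y)) =
        fun y => chi y * XX (W.be Q') X.ε (W.mu Q') (W.nv Q) 1 y := by
      funext y
      rw [hchi, hXe]
      congr 1
      exact (hXX M (W.be Q') (hkit.mono_order (by omega)) X.ε hε (by linarith only [hε4]) (W.nv Q) y).1.symm
    rw [hT2, ← hst] at hT
    rw [hT]
    set G : ℝ := plInt (W.nv Q) st (fun y => chi y * XX (W.be Q') X.ε (W.mu Q') (W.nv Q) 1 y)
      with hG
    set G' : ℝ := plInt (W.nv Q') (W.sv Q')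
      (fun y => chi y * XX (W.be Q') X.ε (W.mu Q') (W.nv Q') 1 y) with hG'
    have hsg : W.sg Q' = W.ab Q' * G' := by
      unfold Wld.sg
      rw [hXe]
    have halt : W.ab Q ≤ K1 * (W.D Q + W.D Q') ∨ ∃ δ : ℝ, (W.ab Q ≤ 2 * W.ab Q' ∧
        G ≤ 4 * G' + Kg * δ ^ 2 * W.v Q' ∧ W.ab Q * δ ^ 2 ≤ K1 * S2) := by
      rcases hpr with h | ⟨σ, δ, hσ, hδ0, hδ1, q1, q2, q3, q4, q5, q6⟩
      · exact Or.inl h
      · refine Or.inr ⟨δ, q1, ?_, q6⟩
        have := hgain (W.be Q') (hkit.mono_order (by omega)) (W.mu Q') hGr' (W.nv Q) (W.nv Q') st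
          (W.sv Q') σ δ hn hn' hσ hδ0 q3 q4
        rw [g4] at this
        exact this
    have hfin : W.w Q' * (W.ab Q * G) ≤ C * (W.w Q' * (W.ab Q' * G')) +
        Q1 * (W.w Q * W.v Q) * S2 := by
      rw [hQ1]
      rcases halt with h | ⟨δ, h⟩
      · exact ar1 (δ := 0) hw'.le hE hww hab.le hv' g1 g3 g2 (by linarith only [hD, hD']) hDS2 hK10.le hKg0.le
          hKg.le hB0.le hab'.le (by linarith only [hCH]) (Or.inl h)
      · exact ar1 hw'.le hE hww hab.le hv' g1 g3 g2 (by linarith only [hD, hD']) hDS2 hK10.le hKg0.le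
          hKg.le hB0.le hab'.le (by linarith only [hCH]) (Or.inr h)
    rw [hsg]
    have h0 : 0 ≤ (Q2 + Q3 + Q4 + 2 * K1) * (W.w Q * W.v Q) * S2 := by (clear * - p2 p3 p4 hK1 hw hv hS20; positivity)
    calc W.w Q * (W.ab Q * (2 ^ (i' * (d - 1)) * G)) = W.w Q' * (W.ab Q * G) := by
          rw [hwT']; ring
      _ ≤ _ := hfin
      _ ≤ _ := by linarith only [h0]
  · -- the mass
    have hT := hfC (W.nv Q) (W.sv Q) (fun x => chi (((1 / 2 : ℝ) ^ i') • (x - tw W.s0 Q Q'))) hn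
    simp only [hchi] at hT
    rw [← hst] at hT
    rw [hT]
    have he := hest (W.m Q') (W.nv Q') (W.sv Q') (W.ab Q') (W.er Q') (W.dl Q') (W.D Q') hmc' hD'
      hdl' hQ2'.sh hQ2'.bl (hW.zp Q')
    obtain ⟨a1, a2⟩ := ha (W.nv Q) st hn
    obtain ⟨a3, a4⟩ := ha (W.nv Q') (W.sv Q') hn'
    have heS : W.er Q' + W.dl Q' + W.D Q' ≤ S1 := by rw [hS1]; linarith only [her, hD, hdl]
    have hfin : W.w Q' * (W.v Q * (W.ab Q * plInt (W.nv Q) st (fun y => chi y))) ≤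
        C * (W.w Q' * W.v Q') * (∫ y, W.m Q' y * chi y) + Q2 * (W.w Q * W.v Q) * S1 := by
      rw [hQ2]
      rcases hpr with h | ⟨σ, δ, hσ, hδ0, hδ1, q1, q2, q3, q4, q5, q6⟩
      · exact ar2 (P := plInt (W.nv Q) st chi) (P' := plInt (W.nv Q') (W.sv Q') chi) (δ := 0)
          hw'.le hww hww2 hv hv' hH2' hab.le a2 (by linarith only [hD, hD']) hDS1 (by linarith only [her', hD', hdl']) heS hK10.le
          hKe.le hKa.le hab'.le a3 he hCH0.le (by linarith only []) le_rfl zero_le_one (Or.inl h)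
      · exact ar2 (P := plInt (W.nv Q) st chi) (P' := plInt (W.nv Q') (W.sv Q') chi)
          hw'.le hww hww2 hv hv' hH2' hab.le a2 (by linarith only [hD, hD']) hDS1 (by linarith only [her', hD', hdl']) heS hK10.le
          hKe.le hKa.le hab'.le a3 he hCH0.le (by linarith only []) hδ0 hδ1 (Or.inr ⟨q1,
            harea (W.nv Q) (W.nv Q') st (W.sv Q') σ δ hn hn' hσ hδ0 q3 q4, q5⟩)
    have h0 : 0 ≤ (Q1 + Q3 + Q4 + 2 * K1) * (W.w Q * W.v Q) * S1 := by (clear * - p1 p3 p4 hK1 hw hv hS10; positivity)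
    calc W.w Q * (W.v Q * (W.ab Q * (2 ^ (i' * (d - 1)) * plInt (W.nv Q) st (fun y => chi y)))) =
          W.w Q' * (W.v Q * (W.ab Q * plInt (W.nv Q) st (fun y => chi y))) := by
          rw [hwT']; ring
      _ ≤ _ := hfin
      _ ≤ _ := by linarith only [h0]
  · -- the off-sheet mass
    intro hi0
    subst hi0
    have hw1 : W.w Q' = W.w Q := by rw [hwT', zero_mul, pow_zero, one_mul]
    set I2 : ℝ := ∫ y, W.m Q' y * (chi y * hgt (W.nv Q') (W.sv Q') y ^ 2) with hI2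
    have hbl2 : W.bl Q' = W.v Q' * I2 := rfl
    have hx1 : ‖tw W.s0 Q Q'‖ ≤ 3 * R0 := by simpa using hx
    have hψ : TFn 2 Nc (fun y : Sp d => chi (y - tw W.s0 Q Q')) := PTm.TFn.comp_sub hc _
    have hψs : ∀ y : Sp d, 3 * R0 + d ≤ ‖y‖ → chi (y - tw W.s0 Q Q') = 0 := by
      intro y hy
      refine PTm.chi_supp ?_ hd1
      have := norm_sub_norm_le y (tw W.s0 Q Q')
      linarith only [hx, hy, this]
    have hL : ∫ y, W.m Q y * (chi (y - tw W.s0 Q Q') * hgt (W.nv Q) (W.sv Q) y ^ 2) ≤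
        2 * max 0 I2 + (Q3 + Q4) * S2 := by
      have hI0 : 0 ≤ max 0 I2 := le_max_left _ _
      have hI1 : I2 ≤ max 0 I2 := le_max_right _ _
      rcases hpr with h | ⟨σ, δ, hσ, hδ0, hδ1, q1, q2, q3, q4, q5, q6⟩
      · have h1 := hblc (fun y => chi (y - tw W.s0 Q Q')) Nc hψ (fun y => by
            by_cases hy : ‖y‖ ≤ 64 * R0
            · rw [TU.zR_one hy]
              exact PTm.chi_le_one _
            · rw [hψs y (by linarith only [hA, hRg, hy])]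
              exact TU.zR_nonneg _ _) (fun y hy => hψs y (by linarith only [hA, hRg, hy])) (W.m Q) (W.nv Q) (W.sv Q)
          (W.D Q) hmc hn hQ.sh.loc (hW.zp Q)
        rw [abs_of_nonneg hD] at h1
        have h2 := hQ.bl
        have h3 : W.er Q ≤ W.ab Q := hQ.small.trans (mul_le_of_le_one_left hab.le hκ1)
        have h4 : K1 * (W.D Q + W.D Q') ≤ K1 * S2 := mul_le_mul_of_nonneg_left hDS2 hK10.le
        have h5 : Kb * (1 + Nc) * W.D Q ≤ Kb * (1 + Nc) * S2 :=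
          mul_le_mul_of_nonneg_left (by linarith only [hD', hdl, hdl', hS2, hq1, hq2]) (by positivity)
        have h6 : 0 ≤ Q4 * S2 := by (clear * - p4 hS20; positivity)
        have h7 : Q3 * S2 = K1 * S2 + Kb * (1 + Nc) * S2 := by rw [hQ3]; ring
        linarith only [hI0, h, h1, h2, h3, h4, h5, h6, h7]
      · have hs1 : |W.sv Q| ≤ 100 * R0 := hsv.trans (by linarith only [hA, hRg])
        have t1 : TFn 2 Nz (fun y => chi (y - tw W.s0 Q Q') * ht (W.nv Q) (W.sv Q) y ^ 2) := by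
          rw [hNz]
          exact TU.TFn_ht_sq hψ (fun y hy => hψs y hy.le) hn hs1
        have h1 := (abs_le.1 (hW.dir Q Q' hQ' _ Nz t1 (fun y hy => by
          rw [hψs y (by linarith only [hA, hRg, hy]), zero_mul]))).1
        have hint : ∀ g : Sp d → ℝ, Continuous g → Integrable (fun y => g y *
            (chi (y - tw W.s0 Q Q') * ht (W.nv Q) (W.sv Q) y ^ 2)) := by
          intro g hg
          have hgc : Continuous (fun y => g y *
            (chi (y - tw W.s0 Q Q') * ht (W.nv Q) (W.sv Q) y ^ 2)) :=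
            hg.mul t1.smooth.continuous
          refine hgc.integrable_of_hasCompactSupport ?_
          refine HasCompactSupport.intro (isCompact_closedBall (0 : Sp d) (3 * R0 + d))
            fun y hy => ?_
          rw [mem_closedBall, dist_zero_right, not_le] at hy
          rw [hψs y hy.le, zero_mul, mul_zero]
        have h2 : ∫ y, (mQ W.s0 W.f (W.e Q') Q y - mQ W.s0 W.f (W.e Q) Q y) *
            (chi (y - tw W.s0 Q Q') * ht (W.nv Q) (W.sv Q) y ^ 2) =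
            (∫ y, mQ W.s0 W.f (W.e Q') Q y *
              (chi (y - tw W.s0 Q Q') * ht (W.nv Q) (W.sv Q) y ^ 2)) -
            ∫ y, W.m Q y * (chi (y - tw W.s0 Q Q') * hgt (W.nv Q) (W.sv Q) y ^ 2) := by
          have e0 : ∫ y, W.m Q y * (chi (y - tw W.s0 Q Q') * hgt (W.nv Q) (W.sv Q) y ^ 2) =
              ∫ y, W.m Q y * (chi (y - tw W.s0 Q Q') * ht (W.nv Q) (W.sv Q) y ^ 2) := rfl
          rw [e0, ← integral_sub (hint _ hmx) (hint _ hmc)]
          congr 1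
          ext y
          rw [sub_mul]
          rfl
        have h3 := hfB E W.f (W.e Q') (fun y => chi (y - tw W.s0 Q Q') *
          ht (W.nv Q) (W.sv Q) y ^ 2) hW.fc hW.fs t1.smooth.continuous
        have h4 : ∀ y : Sp d, mQ W.s0 W.f (W.e Q') Q' y * (chi (tw W.s0 Q Q' + (2 : ℝ) ^ 0 • y -
            tw W.s0 Q Q') * ht (W.nv Q) (W.sv Q) (tw W.s0 Q Q' + (2 : ℝ) ^ 0 • y) ^ 2) =
            W.m Q' y * (chi y * hgt (W.nv Q) st y ^ 2) := by
          intro y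
          have e1 : tw W.s0 Q Q' + (2 : ℝ) ^ 0 • y - tw W.s0 Q Q' = y := by
            rw [pow_zero, one_smul, add_sub_cancel_left]
          have e2 : ht (W.nv Q) (W.sv Q) (tw W.s0 Q Q' + (2 : ℝ) ^ 0 • y) =
              hgt (W.nv Q) st y := by
            unfold ht hgt
            rw [hst, pow_zero, pow_zero, one_smul, one_mul, inner_add_right]
            ring
          rw [e1, e2]
          rfl
        simp only [h4] at h3
        rw [zero_mul, pow_zero, one_mul] at h3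
        rw [h2, h3] at h1
        have h5 := hoff (W.m Q') (W.nv Q) (W.nv Q') st (W.sv Q') σ δ (W.ab Q') (W.er Q')
          (W.dl Q') (W.D Q') hmc' hD' hdl' hQ2'.sh hQ2'.bl (hW.zp Q')
          (hQ2'.small.trans (mul_le_of_le_one_left hab'.le hκ1))
          (hQ2'.smalld.trans (mul_le_of_le_one_left hab'.le hκ1)) hn hσ hδ0 hδ1 q3 q4
        rw [← hI2] at h5
        have h6 : W.ab Q' * δ ^ 2 ≤ 2 * (K1 * S2) := by
          have := mul_le_mul_of_nonneg_right q2 (sq_nonneg δ)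
          linarith only [q6, this]
        have h7 : Ko * (W.ab Q' * δ ^ 2 + W.D Q') ≤ Ko * (2 * (K1 * S2) + S2) :=
          mul_le_mul_of_nonneg_left (by linarith only [hD, hdl, hdl', hS2, hq1, hq2, h6]) hKo.le
        have h8 : Nz * W.D Q ≤ Nz * S2 := mul_le_mul_of_nonneg_left (by linarith only [hD', hdl, hdl', hS2, hq1, hq2]) hNz0.le
        have h9 : 0 ≤ Q3 * S2 := by (clear * - p3 hS20; positivity)
        have h10 : Q4 * S2 = Nz * S2 + Ko * (2 * (K1 * S2) + S2) := by rw [hQ4]; ring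
        linarith only [hI1, h1, h5, h7, h8, h9, h10]
    have hfin := ar3 (C := C) hw.le hv hv' hH2' (by linarith only [hCH]) hL
    rw [hbl2, hw1]
    have h0 : 0 ≤ (Q1 + Q2 + 2 * K1) * (W.w Q * W.v Q) * S2 := by (clear * - p1 p2 hK1 hw hv hS20; positivity)
    linarith only [hfin, h0]
  · -- the tilt
    have h00 : 0 ≤ (Q1 + Q2 + Q3 + Q4) * S1 := by (clear * - p1 p2 p3 p4 hS10; positivity)
    have h01 : 0 ≤ K1 * S1 := by positivity
    rcases hpr with h | ⟨σ, δ, hσ, hδ0, hδ1, q1, q2, q3, q4, q5, q6⟩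
    · refine ⟨1, Or.inl rfl, ?_⟩
      have h1 : ‖W.nv Q - (1 : ℝ) • W.nv Q'‖ ≤ 2 := by
        rw [one_smul]
        refine (norm_sub_le _ _).trans ?_
        rw [hn, hn']
        norm_num
      have h2 : W.ab Q * ‖W.nv Q - (1 : ℝ) • W.nv Q'‖ ≤ W.ab Q * 2 :=
        mul_le_mul_of_nonneg_left h1 hab.le
      have h3 : K1 * (W.D Q + W.D Q') ≤ K1 * S1 := mul_le_mul_of_nonneg_left hDS1 hK10.le
      linarith only [h00, h, h2, h3]
    · refine ⟨σ, hσ, ?_⟩
      have h2 : W.ab Q * ‖W.nv Q - σ • W.nv Q'‖ ≤ W.ab Q * δ :=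
        mul_le_mul_of_nonneg_left q3 hab.le
      linarith only [h00, h01, q5, h2]

end TG


end

section

/-!
# Polynomials are controlled by tests supported in a small ball (MP_287c87_an; helper22)
-/

set_option linter.unusedSectionVars false

open MeasureTheory Metric Set TrI
open scoped InnerProductSpace ContDiff Nat

namespace TG
namespace SH

variable {d : ℕ}

theorem tfn_comp_sub {F : Type*} [NormedAddCommGroup F] [NormedSpace ℝ F] {J : ℕ} {N : ℝ}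
    {g : Sp d → F} (h : TFn J N g) (a : Sp d) : TFn J N (fun x => g (x - a)) := by
  refine ⟨h.smooth.comp (contDiff_id.sub contDiff_const), fun j hj x => ?_⟩
  rw [iteratedFDeriv_comp_sub]
  exact h.bd j hj _

theorem norm_le_of_inner {E : Type*} [NormedAddCommGroup E] [InnerProductSpace ℝ E] {a : E} {B : ℝ}
    (hB : 0 ≤ B) (h : ∀ w : E, ‖w‖ ≤ 1 → ⟪a, w⟫_ℝ ≤ B) : ‖a‖ ≤ B := by
  by_cases ha : a = 0
  · rw [ha, norm_zero]; exact hB
  · have hn : 0 < ‖a‖ := norm_pos_iff.2 ha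
    have h1 := h (‖a‖⁻¹ • a) (by rw [norm_smul, norm_inv, norm_norm, inv_mul_cancel₀ hn.ne'])
    rw [inner_smul_right, real_inner_self_eq_norm_sq, sq, ← mul_assoc, inv_mul_cancel₀ hn.ne',
      one_mul] at h1
    exact h1

/-- change of variables -/
theorem cov_s {s : ℝ} (hs : 0 < s) (c1 : Sp d) (G : Sp d → ℝ) :
    ∫ z, G (s⁻¹ • (z - c1)) = s ^ d * ∫ y, G y := by
  rw [integral_sub_right_eq_self (fun z => G (s⁻¹ • z)) c1, Measure.integral_comp_smul]
  rw [finrank_euclideanSpace, Fintype.card_fin, inv_pow, inv_inv, abs_of_pos (by positivity),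
    smul_eq_mul]

theorem poly_bd (d m J : ℕ) {ρ R : ℝ} (hρ : 0 < ρ) (hR : 0 ≤ R) : ∃ C : ℝ, 0 < C ∧
    ∀ (E : Type) [NormedAddCommGroup E] [InnerProductSpace ℝ E] [FiniteDimensional ℝ E]
      (q : Sp d → E), ContDiff ℝ ∞ q → (∀ x, iteratedFDeriv ℝ (m + 1) q x = 0) →
      ∀ (c1 : Sp d) (B : ℝ), ‖c1‖ ≤ R → 0 ≤ B →
      (∀ (Y : Sp d → E) (N : ℝ), TFn J N Y → (∀ y, Y y ≠ 0 → ‖y - c1‖ ≤ ρ) →
        |∫ y, ⟪q y, Y y⟫_ℝ| ≤ N * B) →
      ∀ x, ‖x‖ ≤ R → ‖q x‖ ≤ C * B := by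
  obtain ⟨ψ, hψ⟩ := VK.main d m
  -- kernels
  have hK : ∀ k : ℕ, ∃ N : ℝ, 0 < N ∧
      TFn J N (fun z : Sp d => iteratedFDeriv ℝ k ψ (ρ⁻¹ • z)) := by
    intro k
    refine tfn_of_cs ?_ ?_
    · have h1 : ContDiff ℝ J (iteratedFDeriv ℝ k ψ) :=
        (hψ.smooth.iteratedFDeriv_right (m := ∞) (by exact_mod_cast le_top)).of_le
          (by exact_mod_cast le_top)
      exact h1.comp (contDiff_const_smul _)
    · refine HasCompactSupport.intro (isCompact_closedBall (0 : Sp d) ρ) fun y hy => ?_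
      rw [mem_closedBall_zero_iff, not_le] at hy
      refine iteratedFDeriv_vanish hψ.smooth hψ.supp k _ ?_
      rw [norm_smul, norm_inv, Real.norm_eq_abs, abs_of_pos hρ, inv_mul_eq_div, le_div_iff₀ hρ]
      linarith
  choose Nk hNk hKt using hK
  refine ⟨∑ k ∈ Finset.range (m + 1), (k ! : ℝ)⁻¹ * ((ρ⁻¹) ^ k * (ρ ^ d)⁻¹ * (2 * R) ^ k * Nk k) + 1,
    ?_, ?_⟩
  · have : 0 ≤ ∑ k ∈ Finset.range (m + 1),
        (k ! : ℝ)⁻¹ * ((ρ⁻¹) ^ k * (ρ ^ d)⁻¹ * (2 * R) ^ k * Nk k) :=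
      Finset.sum_nonneg fun k _ => by
        have := (hNk k).le
        positivity
    linarith
  intro E _ _ _ q hq hqm c1 B hc1 hB htest x hx
  have hqc : Continuous q := hq.continuous
  -- the average reproduces q
  have hav : avk ψ ρ q = q := by
    funext z
    have h1 := avk_taylor hψ hq ρ z
    simp only [hqm, zero_apply, smul_zero, integral_zero] at h1
    exact sub_eq_zero.1 h1
  have hder : ∀ k : ℕ, ∀ v : Sp d, ‖v‖ ≤ 2 * R → ‖iteratedFDeriv ℝ k q c1 (fun _ => v)‖ ≤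
      (ρ⁻¹) ^ k * (ρ ^ d)⁻¹ * (2 * R) ^ k * Nk k * B := by
    intro k v hv
    have hk0 := (hNk k).le
    refine norm_le_of_inner (by positivity) fun w hw => ?_
    have h1 := stmtKD d E ψ hψ.smooth hψ.supp q hqc ρ hρ k c1
    rw [hav] at h1
    have hint : Integrable fun y => (iteratedFDeriv ℝ k ψ y).smulRight (q (c1 + ρ • y)) := by
      refine Continuous.integrable_of_hasCompactSupport ?_ ?_
      · have e1 : Continuous (iteratedFDeriv ℝ k ψ) :=
          hψ.smooth.continuous_iteratedFDeriv (by exact_mod_cast le_top)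
        have e2 : Continuous fun y : Sp d => q (c1 + ρ • y) := by fun_prop
        exact (ContinuousMultilinearMap.smulRightL ℝ (fun _ : Fin k => Sp d) E).continuous₂.comp
          (e1.prodMk e2)
      · refine HasCompactSupport.intro (isCompact_closedBall (0 : Sp d) 1) fun y hy => ?_
        rw [mem_closedBall_zero_iff, not_le] at hy
        rw [iteratedFDeriv_vanish hψ.smooth hψ.supp k y hy.le]
        ext
        simp
    have h2 : iteratedFDeriv ℝ k q c1 (fun _ => v) =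
        (-1 / ρ) ^ k • ∫ y, (iteratedFDeriv ℝ k ψ y (fun _ => v)) • q (c1 + ρ • y) := by
      rw [h1, smul_apply]
      congr 1
      exact ((ContinuousMultilinearMap.apply ℝ (fun _ : Fin k => Sp d) E
        (fun _ => v)).integral_comp_comm hint).symm
    have hint2 : Integrable fun y => (iteratedFDeriv ℝ k ψ y (fun _ => v)) • q (c1 + ρ • y) :=
      (ContinuousMultilinearMap.apply ℝ (fun _ : Fin k => Sp d) E
        (fun _ => v)).integrable_comp hint
    -- the test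
    set A : ContinuousMultilinearMap ℝ (fun _ : Fin k => Sp d) ℝ →L[ℝ] E :=
      ((-1 / ρ) ^ k * (ρ ^ d)⁻¹) • (ContinuousMultilinearMap.apply ℝ (fun _ : Fin k => Sp d) ℝ
        (fun _ => v)).smulRight w with hA
    have hAn : ‖A‖ ≤ (ρ⁻¹) ^ k * (ρ ^ d)⁻¹ * (2 * R) ^ k := by
      refine ContinuousLinearMap.opNorm_le_bound _ (by positivity) fun M => ?_
      have e1 : A M = ((-1 / ρ) ^ k * (ρ ^ d)⁻¹) • (M (fun _ => v) • w) := rfl
      rw [e1, norm_smul, norm_smul, norm_mul, norm_pow, norm_div, norm_neg, norm_one,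
        Real.norm_eq_abs, abs_of_pos hρ, norm_inv, norm_pow, Real.norm_eq_abs, abs_of_pos hρ,
        one_div]
      have e2 : ‖M (fun _ => v)‖ ≤ ‖M‖ * (2 * R) ^ k := by
        refine (M.le_opNorm _).trans ?_
        rw [Finset.prod_const, Finset.card_univ, Fintype.card_fin]
        (clear * - hv; gcongr)
      calc (ρ⁻¹) ^ k * (ρ ^ d)⁻¹ * (‖M (fun _ => v)‖ * ‖w‖)
          ≤ (ρ⁻¹) ^ k * (ρ ^ d)⁻¹ * ((‖M‖ * (2 * R) ^ k) * 1) := by (clear * - e2 hw hR hρ; gcongr)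
        _ = _ := by ring
    set Y : Sp d → E := fun z => A (iteratedFDeriv ℝ k ψ (ρ⁻¹ • (z - c1))) with hY
    have hYt : TFn J ((ρ⁻¹) ^ k * (ρ ^ d)⁻¹ * (2 * R) ^ k * Nk k) Y := by
      refine tfn_le (tfn_clm A (tfn_comp_sub (hKt k) c1)) le_rfl ?_
      gcongr
    have hYs : ∀ y, Y y ≠ 0 → ‖y - c1‖ ≤ ρ := by
      intro y hy
      by_contra h
      push Not at h
      apply hy
      simp only [hY]
      rw [iteratedFDeriv_vanish hψ.smooth hψ.supp k, map_zero]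
      rw [norm_smul, norm_inv, Real.norm_eq_abs, abs_of_pos hρ, inv_mul_eq_div, le_div_iff₀ hρ]
      linarith
    have h3 := htest Y _ hYt hYs
    have h4 : ∫ y, ⟪q y, Y y⟫_ℝ = ⟪iteratedFDeriv ℝ k q c1 (fun _ => v), w⟫_ℝ := by
      rw [h2, inner_smul_left]
      have e1 : ⟪∫ y, (iteratedFDeriv ℝ k ψ y (fun _ => v)) • q (c1 + ρ • y), w⟫_ℝ =
          ∫ y, ⟪(iteratedFDeriv ℝ k ψ y (fun _ => v)) • q (c1 + ρ • y), w⟫_ℝ := by
        rw [real_inner_comm]
        have := ((innerSL ℝ w).integral_comp_comm hint2)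
        simp only [innerSL_apply_apply] at this
        rw [← this]
        refine integral_congr_ae (Filter.Eventually.of_forall fun y => ?_)
        exact real_inner_comm _ _
      rw [e1]
      set G : Sp d → ℝ := fun y =>
        ⟪(iteratedFDeriv ℝ k ψ y (fun _ => v)) • q (c1 + ρ • y), w⟫_ℝ with hG
      have e2 : ∀ y, ⟪q y, Y y⟫_ℝ = ((-1 / ρ) ^ k * (ρ ^ d)⁻¹) * G (ρ⁻¹ • (y - c1)) := by
        intro y
        have e3 : c1 + ρ • (ρ⁻¹ • (y - c1)) = y := by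
          rw [smul_smul, mul_inv_cancel₀ hρ.ne', one_smul]
          abel
        simp only [hY, hG, e3, inner_smul_left]
        have e4 : A (iteratedFDeriv ℝ k ψ (ρ⁻¹ • (y - c1))) = ((-1 / ρ) ^ k * (ρ ^ d)⁻¹) •
          (iteratedFDeriv ℝ k ψ (ρ⁻¹ • (y - c1)) (fun _ => v) • w) := rfl
        rw [e4, inner_smul_right, inner_smul_right]
        simp
      rw [integral_congr_ae (Filter.Eventually.of_forall e2), integral_const_mul, cov_s hρ c1 G]
      simp only [conj_trivial]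
      have : (ρ ^ d) ≠ 0 := by positivity
      field_simp
    rw [h4] at h3
    exact (le_abs_self _).trans h3
  -- Taylor
  rw [← eq_taylor hq hqm x c1]
  refine (norm_sum_le _ _).trans ?_
  have hxc : ‖x - c1‖ ≤ 2 * R := (norm_sub_le _ _).trans (by linarith)
  calc ∑ k ∈ Finset.range (m + 1), ‖(k ! : ℝ)⁻¹ • iteratedFDeriv ℝ k q c1 (fun _ => x - c1)‖
      ≤ ∑ k ∈ Finset.range (m + 1),
        (k ! : ℝ)⁻¹ * ((ρ⁻¹) ^ k * (ρ ^ d)⁻¹ * (2 * R) ^ k * Nk k) * B := by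
        refine Finset.sum_le_sum fun k _ => ?_
        rw [norm_smul, norm_inv, Real.norm_eq_abs, abs_of_nonneg (by positivity), mul_assoc]
        gcongr
        exact hder k _ hxc
    _ ≤ _ := by
        rw [← Finset.sum_mul, add_mul, one_mul]
        linarith

end SH
end TG


end
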