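import Mathlib
import Pool.Agent.TRM.C01
import Pool.Agent.TRM.C02
import Pool.Agent.TRM.C08
import Pool.Agent.TRM.C10
import Pool.Agent.TRM.C15

/-! Parts: TG.ABm, TG.STh1, TG.STh2, TG.STh3, TG.STh4, TG.STh5, TG.STh6, TG.STh7, TG.STh8, TG.STh9, TG.ST, TG.ST2, TG.W1 -/

section

/-!
# Trace inequality, section 12: smoothing of the matrix field

A matrix field of class J + 6 with bounded derivatives, supported in the ball of radius d, can be
replaced by a smooth one, with the same bounds, up to an arbitrarily small error in the two test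
functions (the algebraic one and the one of the Newton field).  No double quotes.
-/

open MeasureTheory Metric Set TrI
open scoped InnerProductSpace ContDiff Convolution

namespace TG

noncomputable section

variable {d : ℕ}

namespace AB

/-- averages with a smooth even kernel of compact support are smooth -/
lemma avk_smooth {ψ : Sp d → ℝ} (hψ : ContDiff ℝ ∞ ψ) (he : ∀ x, ψ (-x) = ψ x)
    (hs : ∀ x, 1 ≤ ‖x‖ → ψ x = 0) {g : Sp d → ℝ} (hg : Continuous g) {s : ℝ} (hs0 : 0 < s) :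
    ContDiff ℝ ∞ (avk ψ s g) := by
  set K : Sp d → ℝ := fun t => ψ (s⁻¹ • t) with hK
  have hKc : HasCompactSupport K := by
    refine HasCompactSupport.intro (isCompact_closedBall (0 : Sp d) s) fun x hx => ?_
    rw [mem_closedBall, dist_zero_right, not_le] at hx
    apply hs
    rw [norm_smul, Real.norm_eq_abs, abs_of_pos (inv_pos.2 hs0), ← div_eq_inv_mul, le_div_iff₀ hs0]
    linarith
  have hKs : ContDiff ℝ ∞ K := hψ.comp (contDiff_const_smul _)
  have h1 : ContDiff ℝ ∞ (K ⋆[ContinuousLinearMap.lsmul ℝ ℝ, volume] g) :=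
    hKc.contDiff_convolution_left _ hKs hg.locallyIntegrable
  have h2 : avk ψ s g = fun x => |(s ^ Module.finrank ℝ (Sp d))⁻¹| •
      (K ⋆[ContinuousLinearMap.lsmul ℝ ℝ, volume] g) x := by
    funext x
    unfold avk convolution
    rw [← Measure.integral_comp_smul volume (fun t => (ContinuousLinearMap.lsmul ℝ ℝ (K t))
      (g (x - t))) s]
    rw [← integral_neg_eq_self]
    congr 1
    ext y
    simp only [hK, ContinuousLinearMap.lsmul_apply, smul_eq_mul, he, smul_neg, smul_smul,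
      inv_mul_cancel₀ hs0.ne', one_smul, ← sub_eq_add_neg]
  rw [h2]
  exact h1.const_smul _

lemma bk_ak : AK (bk d) where
  cont := bk_cont
  nonneg := bk_nonneg
  supp := fun _ h => bk_zero h
  int := bk_int

/-- averages of a Lipschitz function are close to the function -/
lemma avk_lip {ψ : Sp d → ℝ} (h : AK ψ) {F : Type*} [NormedAddCommGroup F] [NormedSpace ℝ F]
    [CompleteSpace F] {g : Sp d → F} (hg : Continuous g) {L : ℝ} (hL : 0 ≤ L)
    (hgL : ∀ x y, ‖g y - g x‖ ≤ L * ‖y - x‖) {s : ℝ} (hs : 0 ≤ s) (x : Sp d) :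
    ‖avk ψ s g x - g x‖ ≤ L * s := by
  have h1 := h.integrand_integrable hg s x
  have h2 : Integrable fun y : Sp d => ψ y • g x := h.integrable.smul_const _
  have h3 : avk ψ s g x - g x = ∫ y, ψ y • (g (x + s • y) - g x) := by
    have h4 : g x = ∫ y, ψ y • g x := by rw [integral_smul_const, h.int, one_smul]
    unfold avk
    conv_lhs => rw [h4]
    rw [← integral_sub h1 h2]
    congr 1
    ext y
    rw [smul_sub]
  rw [h3]
  calc ‖∫ y, ψ y • (g (x + s • y) - g x)‖ ≤ ∫ y, ‖ψ y • (g (x + s • y) - g x)‖ :=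
        norm_integral_le_integral_norm _
    _ ≤ ∫ y, ψ y * (L * s) := by
        refine integral_mono ?_ (h.integrable.mul_const _) fun y => ?_
        · refine Integrable.norm ?_
          refine (h1.sub h2).congr (ae_of_all _ fun y => ?_)
          simp only [Pi.sub_apply, smul_sub]
        · simp only [norm_smul, Real.norm_eq_abs, abs_of_nonneg (h.nonneg y)]
          by_cases hy : 1 ≤ ‖y‖
          · rw [h.supp y hy]
            simp
          · push Not at hy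
            refine mul_le_mul_of_nonneg_left ?_ (h.nonneg y)
            refine (hgL _ _).trans ?_
            refine mul_le_mul_of_nonneg_left ?_ hL
            rw [add_sub_cancel_left, norm_smul, Real.norm_eq_abs, abs_of_nonneg hs]
            nlinarith [norm_nonneg y]
    _ = L * s := by rw [integral_mul_const, h.int, one_mul]

lemma lip_of_iter {n : ℕ} {g : Sp d → ℝ} (hg : ContDiff ℝ (n + 1 : ℕ) g) {N : ℝ}
    (hN : ∀ x, ‖iteratedFDeriv ℝ (n + 1) g x‖ ≤ N) (x y : Sp d) :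
    ‖iteratedFDeriv ℝ n g y - iteratedFDeriv ℝ n g x‖ ≤ N * ‖y - x‖ := by
  refine Convex.norm_image_sub_le_of_norm_fderiv_le (𝕜 := ℝ) (s := univ)
    (f := iteratedFDeriv ℝ n g) (fun z _ => ?_) (fun z _ => ?_) convex_univ (mem_univ x)
    (mem_univ y)
  · exact (hg.differentiable_iteratedFDeriv (by norm_cast; omega)) z
  · rw [norm_fderiv_iteratedFDeriv]
    exact hN z

open NN in
lemma NNp_cont {Mb cb : ℝ} {b : Sp d → ℝ} (hb : BaseKer 2 Mb cb b) {R : ℝ} (hR : 0 ≤ R)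
    {φ : Sp d → ℝ} (hφ : Continuous φ) : Continuous (NNp b R φ) := by
  have hk := hb.kit 0
  have hβ : Continuous (Bp b) := hk.smooth1.continuous
  have h1 : NNp b R φ = fun x => ∫ p in SS d R, NN.wt (Bp b) p * φ (x + p.1 • p.2) :=
    funext fun x => NNp_eq hβ hk.supp1 hR hφ x
  rw [h1]
  refine continuous_parametric_integral_of_continuous ?_ (SS_compact R)
  refine ((NN.wt_cont hβ).comp continuous_snd).mul (hφ.comp ?_)
  fun_prop

open NN in
lemma NNp_sub_le {Mb cb : ℝ} {b : Sp d → ℝ} (hb : BaseKer 2 Mb cb b) {R : ℝ} (hR : 0 ≤ R)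
    {φ φ' : Sp d → ℝ} (hφ : Continuous φ) (hφ' : Continuous φ') {L : ℝ}
    (hL : ∀ x, |φ x - φ' x| ≤ L) (x : Sp d) : |NNp b R φ x - NNp b R φ' x| ≤ R ^ 2 * L := by
  have hk := hb.kit 0
  have hβ : Continuous (Bp b) := hk.smooth1.continuous
  have hL0 : 0 ≤ L := (abs_nonneg _).trans (hL 0)
  have hw0 : ∀ p ∈ SS d R, 0 ≤ NN.wt (Bp b) p := fun p hp =>
    mul_nonneg hp.1.1 (hk.nonneg1 p.2)
  have hwi : IntegrableOn (NN.wt (Bp b)) (SS d R) :=
    (NN.wt_cont hβ).continuousOn.integrableOn_compact (SS_compact R)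
  have h1 := int_SS hβ hφ R x
  have h2 := int_SS hβ hφ' R x
  simp only [smul_eq_mul] at h1 h2
  rw [NNp_eq hβ hk.supp1 hR hφ, NNp_eq hβ hk.supp1 hR hφ', ← integral_sub h1 h2]
  calc |∫ p in SS d R, (NN.wt (Bp b) p * φ (x + p.1 • p.2) - NN.wt (Bp b) p * φ' (x + p.1 • p.2))|
      ≤ ∫ p in SS d R, |NN.wt (Bp b) p * φ (x + p.1 • p.2) - NN.wt (Bp b) p * φ' (x + p.1 • p.2)| :=
        abs_integral_le_integral_abs
    _ ≤ ∫ p in SS d R, NN.wt (Bp b) p * L := by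
        refine setIntegral_mono_on (h1.sub h2).abs (hwi.mul_const _) (SS_meas R) fun p hp => ?_
        rw [← mul_sub, abs_mul, abs_of_nonneg (hw0 p hp)]
        exact mul_le_mul_of_nonneg_left (hL _) (hw0 p hp)
    _ = (∫ p in SS d R, NN.wt (Bp b) p) * L := integral_mul_const _ _
    _ ≤ R ^ 2 * L := mul_le_mul_of_nonneg_right (wt_int_le hb hR) hL0

lemma bv_norm (i : Fin d) : ‖(bv i : Sp d)‖ = 1 := by
  unfold bv
  simp

lemma pd2_cont' {g : Sp d → ℝ} (hg : ContDiff ℝ 2 g) (i j : Fin d) : Continuous (pd2 i j g) := by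
  have h1 : Continuous (iteratedFDeriv ℝ 2 g) := hg.continuous_iteratedFDeriv (by norm_cast)
  exact (ContinuousMultilinearMap.apply ℝ (fun _ : Fin 2 => Sp d) ℝ ![bv i, bv j]).continuous.comp h1

lemma pd2_zero {g : Sp d → ℝ} {ρ : ℝ} (h0 : ∀ y, ρ ≤ ‖y‖ → g y = 0) (i j : Fin d) (y : Sp d)
    (hy : ρ < ‖y‖) : pd2 i j g y = 0 := by
  have h1 : g =ᶠ[nhds y] fun _ => 0 := by
    filter_upwards [(isOpen_lt continuous_const continuous_norm).mem_nhds hy] with z hz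
    exact h0 z (le_of_lt hz)
  unfold pd2
  rw [(h1.iteratedFDeriv (𝕜 := ℝ) 2).eq_of_nhds]
  simp

/-- the two test functions together -/
def tf (b : Sp d → ℝ) (R : ℝ) (n : Sp d) (F : Fin d → Fin d → Sp d → ℝ) (y : Sp d) : ℝ :=
  (∑ i, ∑ j, n i * n j * F i j y) - nt b R F y

lemma dd2_cont {F : Fin d → Fin d → Sp d → ℝ} (hF : ∀ i j, ContDiff ℝ 2 (F i j)) :
    Continuous (dd2 F) :=
  continuous_finsetSum _ fun i _ => continuous_finsetSum _ fun j _ => pd2_cont' (hF i j) i j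

lemma tf_cont {Mb cb : ℝ} {b : Sp d → ℝ} (hb : BaseKer 2 Mb cb b) {R : ℝ} (hR : 0 ≤ R) (n : Sp d)
    {F : Fin d → Fin d → Sp d → ℝ} (hF : ∀ i j, ContDiff ℝ 2 (F i j)) :
    Continuous (tf b R n F) := by
  refine Continuous.sub ?_ ?_
  · exact continuous_finsetSum _ fun i _ => continuous_finsetSum _ fun j _ =>
      continuous_const.mul (hF i j).continuous
  · exact (NNp_cont hb hR (dd2_cont hF)).neg

lemma tf_supp {Mb cb : ℝ} {b : Sp d → ℝ} (hb : BaseKer 2 Mb cb b) {R : ℝ} (hR : 0 ≤ R) (n : Sp d)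
    {F : Fin d → Fin d → Sp d → ℝ} {ρ : ℝ} (h0 : ∀ i j y, ρ ≤ ‖y‖ → F i j y = 0) (y : Sp d)
    (hy : ρ + 1 + R / 2 ≤ ‖y‖) : tf b R n F y = 0 := by
  unfold tf nt
  rw [NN.NNp_supp hb hR 0 (ρ + 1) ?_ y (by rwa [sub_zero])]
  · rw [neg_zero, sub_zero]
    refine Finset.sum_eq_zero fun i _ => Finset.sum_eq_zero fun j _ => ?_
    rw [h0 i j y (by linarith), mul_zero]
  · intro z hz
    rw [sub_zero] at hz
    unfold dd2
    exact Finset.sum_eq_zero fun i _ => Finset.sum_eq_zero fun j _ =>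
      pd2_zero (h0 i j) i j z (by linarith)

lemma tf_int {Mb cb : ℝ} {b : Sp d → ℝ} (hb : BaseKer 2 Mb cb b) {R : ℝ} (hR : 0 ≤ R) (n : Sp d)
    {F : Fin d → Fin d → Sp d → ℝ} (hF : ∀ i j, ContDiff ℝ 2 (F i j)) {ρ : ℝ}
    (h0 : ∀ i j y, ρ ≤ ‖y‖ → F i j y = 0) {m : Sp d → ℝ} (hm : Continuous m) :
    Integrable fun y => m y * tf b R n F y := by
  refine (hm.mul (tf_cont hb hR n hF)).integrable_of_hasCompactSupport ?_
  refine HasCompactSupport.intro (isCompact_closedBall (0 : Sp d) (ρ + 1 + R / 2)) fun x hx => ?_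
  rw [mem_closedBall, dist_zero_right, not_le] at hx
  change m x * tf b R n F x = 0
  rw [tf_supp hb hR n h0 x hx.le, mul_zero]

lemma moll (d J : ℕ) (hd : 2 ≤ d) (Mb cb : ℝ) (b : Sp d → ℝ) (hb : BaseKer 2 Mb cb b)
    (m : Sp d → ℝ) (hm : Continuous m) (Y : Fin d → Fin d → Sp d → ℝ) (N : ℝ)
    (hY : ∀ i j, TFn (J + 6) N (Y i j)) (hs : ∀ i j y, (d:ℝ) ≤ ‖y‖ → Y i j y = 0)
    (R : ℝ) (hR : 0 < R) (n : Sp d) (η : ℝ) (hη : 0 < η) :
    ∃ Y' : Fin d → Fin d → Sp d → ℝ, (∀ i j, ContDiff ℝ ∞ (Y' i j)) ∧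
      (∀ i j, TFn (J + 6) N (Y' i j)) ∧ (∀ i j y, (d:ℝ) + 1 ≤ ‖y‖ → Y' i j y = 0) ∧
      |(∫ y, m y * ((∑ i, ∑ j, n i * n j * Y i j y) - nt b R Y y))
        - ∫ y, m y * ((∑ i, ∑ j, n i * n j * Y' i j y) - nt b R Y' y)| ≤ η := by
  have hN : 0 ≤ N :=
    (norm_nonneg _).trans ((hY ⟨0, by omega⟩ ⟨0, by omega⟩).bd 0 (by omega) 0)
  set A0 : ℝ := ∑ i, ∑ j, |n i * n j| with hA0
  have hA0p : 0 ≤ A0 := Finset.sum_nonneg fun i _ => Finset.sum_nonneg fun j _ => abs_nonneg _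
  set A : ℝ := A0 + R ^ 2 * (d * d) with hA
  have hAp : 0 ≤ A := by (clear * - hR hd; positivity)
  set B : Set (Sp d) := closedBall 0 ((d : ℝ) + 1 + 1 + R / 2) with hB
  set I : ℝ := ∫ y in B, |m y| with hI
  have hIp : 0 ≤ I := integral_nonneg fun _ => abs_nonneg _
  set δ : ℝ := min 1 (η / (A * N * I + 1)) with hδ
  have hANI : 0 ≤ A * N * I := by (clear * - hR hd hN; positivity)
  have hδ0 : 0 < δ := lt_min one_pos (div_pos hη (by (clear * - hR hd hN; positivity)))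
  have hδ1 : δ ≤ 1 := min_le_left _ _
  have hδη : A * N * δ * I ≤ η := by
    have h1 : δ * (A * N * I + 1) ≤ η := by
      have h2 : δ ≤ η / (A * N * I + 1) := min_le_right _ _
      rwa [le_div_iff₀ (by (clear * - hR hd hN; positivity))] at h2
    linarith only [hδ0, h1]
  have hk : AK (bk d) := bk_ak
  have hY2 : ∀ i j, ContDiff ℝ 2 (Y i j) := fun i j => (hY i j).smooth.of_le (by norm_cast; omega)
  have hY3 : ∀ i j, ContDiff ℝ 3 (Y i j) := fun i j => (hY i j).smooth.of_le (by norm_cast; omega)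
  have hY1 : ∀ i j, ContDiff ℝ 1 (Y i j) := fun i j => (hY i j).smooth.of_le (by norm_cast; omega)
  set Y' : Fin d → Fin d → Sp d → ℝ := fun i j => avk (bk d) δ (Y i j) with hY'
  have hY's : ∀ i j, ContDiff ℝ ∞ (Y' i j) := fun i j =>
    avk_smooth bk_contDiff bk_neg (fun _ h => bk_zero h) (hY2 i j).continuous hδ0
  have hY'2 : ∀ i j, ContDiff ℝ 2 (Y' i j) := fun i j => (hY's i j).of_le (WithTop.coe_le_coe.2 le_top)
  have hY't : ∀ i j, TFn (J + 6) N (Y' i j) := fun i j =>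
    ⟨hk.avk_contDiff (hY i j).smooth δ, fun l hl x =>
      hk.norm_iteratedFDeriv_avk_le (hY i j).smooth δ hl ((hY i j).bd l hl) x⟩
  have hY'0 : ∀ i j y, (d:ℝ) + 1 ≤ ‖y‖ → Y' i j y = 0 := by
    intro i j y hy
    by_contra hne
    obtain ⟨z, hz, hzy⟩ := AK.exists_of_avk_ne (ρ := 1) hk.supp hδ0 hne
    apply hz
    apply hs
    have h1 := norm_sub_norm_le y z
    rw [norm_sub_rev] at h1
    linarith
  refine ⟨Y', hY's, hY't, hY'0, ?_⟩
  have hs' : ∀ i j y, (d:ℝ) + 1 ≤ ‖y‖ → Y i j y = 0 := fun i j y hy => hs i j y (by linarith)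
  -- pointwise bounds
  have hp0 : ∀ i j y, |Y i j y - Y' i j y| ≤ N * δ := by
    intro i j y
    have h1 := avk_lip hk (hY2 i j).continuous hN (fun x y => ?_) hδ0.le y (g := Y i j)
    · rw [abs_sub_comm]
      exact h1
    · have h2 := lip_of_iter (n := 0) (g := Y i j) (N := N) (by simpa using hY1 i j)
        (fun x => (hY i j).bd 1 (by omega) x) x y
      have h3 : iteratedFDeriv ℝ 0 (Y i j) y - iteratedFDeriv ℝ 0 (Y i j) x =
        ContinuousMultilinearMap.uncurry0 ℝ (Sp d) (Y i j y - Y i j x) := by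
        ext w
        simp
      rw [h3] at h2
      simpa using h2
  have hp2 : ∀ i j y, |pd2 i j (Y i j) y - pd2 i j (Y' i j) y| ≤ N * δ := by
    intro i j y
    have hc : Continuous (iteratedFDeriv ℝ 2 (Y i j)) :=
      (hY2 i j).continuous_iteratedFDeriv (by norm_cast)
    have h1 := avk_lip hk hc hN (fun x y => lip_of_iter (n := 2) (g := Y i j) (N := N)
      (by exact_mod_cast hY3 i j) (fun x => (hY i j).bd 3 (by omega) x) x y) hδ0.le y
    rw [← hk.iteratedFDeriv_avk (hY i j).smooth δ (by omega)] at h1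
    unfold pd2
    have h2 : iteratedFDeriv ℝ 2 (Y i j) y ![bv i, bv j] - iteratedFDeriv ℝ 2 (Y' i j) y ![bv i, bv j]
      = (iteratedFDeriv ℝ 2 (Y i j) y - iteratedFDeriv ℝ 2 (Y' i j) y) ![bv i, bv j] := rfl
    rw [h2, ← Real.norm_eq_abs]
    refine (ContinuousMultilinearMap.le_opNorm _ _).trans ?_
    rw [Fin.prod_univ_two]
    simp only [Matrix.cons_val_zero, Matrix.cons_val_one, bv_norm, mul_one]
    rw [norm_sub_rev]
    exact h1
  have hdd : ∀ y, |dd2 Y y - dd2 Y' y| ≤ (d * d) * (N * δ) := by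
    intro y
    unfold dd2
    simp only [← Finset.sum_sub_distrib]
    refine (Finset.abs_sum_le_sum_abs _ _).trans ?_
    calc ∑ i : Fin d, |∑ j, (pd2 i j (Y i j) y - pd2 i j (Y' i j) y)|
        ≤ ∑ i : Fin d, ∑ j : Fin d, N * δ := by
          refine Finset.sum_le_sum fun i _ => (Finset.abs_sum_le_sum_abs _ _).trans ?_
          exact Finset.sum_le_sum fun j _ => hp2 i j y
      _ = (d * d) * (N * δ) := by
          simp only [Finset.sum_const, Finset.card_univ, Fintype.card_fin, nsmul_eq_mul]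
          ring
  have htf : ∀ y, |tf b R n Y y - tf b R n Y' y| ≤ A * N * δ := by
    intro y
    have h1 : tf b R n Y y - tf b R n Y' y = (∑ i, ∑ j, n i * n j * (Y i j y - Y' i j y))
        + (NNp b R (dd2 Y) y - NNp b R (dd2 Y') y) := by
      unfold tf nt
      simp only [mul_sub, Finset.sum_sub_distrib]
      ring
    have h2 := NNp_sub_le hb hR.le (dd2_cont hY2) (dd2_cont hY'2) hdd y
    have h3 : |∑ i, ∑ j, n i * n j * (Y i j y - Y' i j y)| ≤ A0 * (N * δ) := by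
      refine (Finset.abs_sum_le_sum_abs _ _).trans ?_
      rw [hA0, Finset.sum_mul]
      refine Finset.sum_le_sum fun i _ => (Finset.abs_sum_le_sum_abs _ _).trans ?_
      rw [Finset.sum_mul]
      refine Finset.sum_le_sum fun j _ => ?_
      rw [abs_mul]
      exact mul_le_mul_of_nonneg_left (hp0 i j y) (abs_nonneg _)
    rw [h1]
    refine (abs_add_le _ _).trans ((add_le_add h3 h2).trans (le_of_eq ?_))
    rw [hA]
    ring
  have hi1 := tf_int hb hR.le n hY2 hs' hm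
  have hi2 := tf_int hb hR.le n hY'2 hY'0 hm
  have hgoal : |(∫ y, m y * tf b R n Y y) - ∫ y, m y * tf b R n Y' y| ≤ η := by
    rw [← integral_sub hi1 hi2]
    have h4 : ∫ y, (m y * tf b R n Y y - m y * tf b R n Y' y) =
        ∫ y in B, (m y * tf b R n Y y - m y * tf b R n Y' y) := by
      symm
      refine setIntegral_eq_integral_of_forall_compl_eq_zero fun y hy => ?_
      rw [hB, mem_closedBall, dist_zero_right, not_le] at hy
      rw [tf_supp hb hR.le n hs' y hy.le, tf_supp hb hR.le n hY'0 y hy.le]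
      ring
    rw [h4]
    calc |∫ y in B, (m y * tf b R n Y y - m y * tf b R n Y' y)|
        ≤ ∫ y in B, |m y * tf b R n Y y - m y * tf b R n Y' y| := abs_integral_le_integral_abs
      _ ≤ ∫ y in B, |m y| * (A * N * δ) := by
          refine integral_mono (hi1.sub hi2).abs.integrableOn
            ((hm.abs.mul continuous_const).continuousOn.integrableOn_compact
              (isCompact_closedBall _ _)) fun y => ?_
          rw [← mul_sub, abs_mul]
          exact mul_le_mul_of_nonneg_left (htf y) (abs_nonneg _)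
      _ = A * N * δ * I := by
          rw [integral_mul_const, hI]
          ring
      _ ≤ η := hδη
  exact hgoal

end AB

end

end TG


end

section

/-!
# Structure theorem: the algebra of averaging operators (module ST, helper55)
-/

open MeasureTheory Metric Set TrI
open scoped InnerProductSpace ContDiff

namespace TG
namespace ST

noncomputable section

variable {d : ℕ}

/-- smooth functions -/
structure Cs (d : ℕ) where
  /-- the function -/
  f : Sp d → ℝ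
  cd : ContDiff ℝ ∞ f

lemma Cs.inj : Function.Injective (Cs.f : Cs d → (Sp d → ℝ)) := by
  rintro ⟨f, hf⟩ ⟨g, hg⟩ h
  cases h
  rfl

lemma Cs.ext {g g' : Cs d} (h : ∀ x, g.f x = g'.f x) : g = g' := Cs.inj (funext h)

instance : Zero (Cs d) := ⟨⟨fun _ => 0, contDiff_const⟩⟩
instance : Add (Cs d) := ⟨fun g g' => ⟨fun x => g.f x + g'.f x, g.cd.add g'.cd⟩⟩
instance : Neg (Cs d) := ⟨fun g => ⟨fun x => -g.f x, g.cd.neg⟩⟩
instance : Sub (Cs d) := ⟨fun g g' => ⟨fun x => g.f x - g'.f x, g.cd.sub g'.cd⟩⟩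
instance : SMul ℕ (Cs d) := ⟨fun c g => ⟨fun x => (c : ℝ) * g.f x, contDiff_const.mul g.cd⟩⟩
instance : SMul ℤ (Cs d) := ⟨fun c g => ⟨fun x => (c : ℝ) * g.f x, contDiff_const.mul g.cd⟩⟩
instance : SMul ℝ (Cs d) := ⟨fun c g => ⟨fun x => c * g.f x, contDiff_const.mul g.cd⟩⟩

instance : AddCommGroup (Cs d) :=
  Function.Injective.addCommGroup Cs.f Cs.inj rfl (fun _ _ => rfl) (fun _ => rfl) (fun _ _ => rfl)
    (fun g n => by
      funext x
      change (n : ℝ) * g.f x = n • g.f x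
      rw [nsmul_eq_mul])
    (fun g n => by
      funext x
      change (n : ℝ) * g.f x = n • g.f x
      rw [zsmul_eq_mul])

/-- evaluation as a homomorphism -/
def Cs.toFun (d : ℕ) : Cs d →+ (Sp d → ℝ) where
  toFun := Cs.f
  map_zero' := rfl
  map_add' _ _ := rfl

instance : Module ℝ (Cs d) :=
  Function.Injective.module ℝ (Cs.toFun d) Cs.inj (fun _ _ => rfl)

lemma Cs.add_apply' (g g' : Cs d) (x : Sp d) : (g + g').f x = g.f x + g'.f x := rfl
lemma Cs.sub_apply' (g g' : Cs d) (x : Sp d) : (g - g').f x = g.f x - g'.f x := rfl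

/-- make a smooth function -/
def mkC (g : Sp d → ℝ) (hg : ContDiff ℝ ∞ g) : Cs d := ⟨g, hg⟩

/-- operators on smooth functions -/
abbrev Op (d : ℕ) := Module.End ℝ (Cs d)

lemma Cs.diff (g : Cs d) : Differentiable ℝ g.f := g.cd.differentiable (by simp)

lemma Cs.cont (g : Cs d) : Continuous g.f := g.cd.continuous

@[simp] lemma Cs.add_apply (g g' : Cs d) (x : Sp d) : (g + g').f x = g.f x + g'.f x := rfl
@[simp] lemma Cs.sub_apply (g g' : Cs d) (x : Sp d) : (g - g').f x = g.f x - g'.f x := rfl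
@[simp] lemma Cs.neg_apply (g : Cs d) (x : Sp d) : (-g).f x = -g.f x := rfl
@[simp] lemma Cs.zero_apply (x : Sp d) : (0 : Cs d).f x = 0 := rfl
@[simp] lemma Cs.smul_apply (c : ℝ) (g : Cs d) (x : Sp d) : (c • g).f x = c * g.f x := rfl

/-- directional derivative -/
def dd (h : Sp d) : Op d where
  toFun g := mkC (fun x => fderiv ℝ g.f x h)
    ((g.cd.fderiv_right (m := ∞) (by simp)).clm_apply contDiff_const)
  map_add' g g' := by
    apply Cs.ext
    intro x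
    have h1 : fderiv ℝ (g.f + g'.f) x = fderiv ℝ g.f x + fderiv ℝ g'.f x :=
      fderiv_add (g.diff x) (g'.diff x)
    change fderiv ℝ (g.f + g'.f) x h = fderiv ℝ g.f x h + fderiv ℝ g'.f x h
    rw [h1]; rfl
  map_smul' c g := by
    apply Cs.ext
    intro x
    have h1 : fderiv ℝ (c • g.f) x = c • fderiv ℝ g.f x := fderiv_const_smul (g.diff x) c
    change fderiv ℝ (c • g.f) x h = c • fderiv ℝ g.f x h
    rw [h1]; rfl

lemma dd_apply (h : Sp d) (g : Cs d) (x : Sp d) : (dd h g).f x = fderiv ℝ g.f x h := rfl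

/-- iterated directional derivatives -/
def itD {j : ℕ} (m : Fin j → Sp d) : Op d := ((List.ofFn m).map dd).prod

lemma itD_apply {j : ℕ} (m : Fin j → Sp d) (g : Cs d) (x : Sp d) :
    (itD m g).f x = iteratedFDeriv ℝ j g.f x m := by
  induction j generalizing x with
  | zero => simp [itD]
  | succ n ih =>
    have h1 : itD m g = dd (m 0) (itD (fun i : Fin n => m i.succ) g) := by
      unfold itD
      rw [List.ofFn_succ, List.map_cons, List.prod_cons]
      rfl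
    have h2 : (itD (fun i : Fin n => m i.succ) g).f =
        fun y => iteratedFDeriv ℝ n g.f y (fun i : Fin n => m i.succ) := by
      funext y
      exact ih _ y
    rw [h1, dd_apply, h2, iteratedFDeriv_succ_apply_left]
    have hd : DifferentiableAt ℝ (iteratedFDeriv ℝ n g.f) x :=
      (g.cd.differentiable_iteratedFDeriv (by
        exact_mod_cast WithTop.coe_lt_coe.mpr (ENat.natCast_lt_top n))) x
    have h3 : (fun y => iteratedFDeriv ℝ n g.f y (fun i : Fin n => m i.succ)) =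
        fun y => (ContinuousMultilinearMap.apply ℝ (fun _ : Fin n => Sp d) ℝ
          (fun i : Fin n => m i.succ)) (iteratedFDeriv ℝ n g.f y) := rfl
    rw [h3, fderiv_fun_comp x (ContinuousLinearMap.differentiableAt _) hd]
    simp
    rfl

/-- operators which commute with derivatives and are local at scale ρ -/
structure AO (ρ C : ℝ) (A : Op d) : Prop where
  ρ0 : 0 ≤ ρ
  C0 : 0 ≤ C
  comm : ∀ h, Commute A (dd h)
  bd : ∀ (g : Cs d) (x : Sp d) (N : ℝ), (∀ y, ‖y - x‖ ≤ ρ → |g.f y| ≤ N) → |(A g).f x| ≤ C * N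

lemma AO.comm_itD {ρ C : ℝ} {A : Op d} (hA : AO ρ C A) {j : ℕ} (m : Fin j → Sp d) :
    Commute A (itD m) := by
  unfold itD
  apply Commute.list_prod_right
  intro B hB
  obtain ⟨h, _, rfl⟩ := List.mem_map.mp hB
  exact hA.comm h

lemma AO.itD_eq {ρ C : ℝ} {A : Op d} (hA : AO ρ C A) {j : ℕ} (m : Fin j → Sp d) (g : Cs d)
    (x : Sp d) : iteratedFDeriv ℝ j (A g).f x m = (A (itD m g)).f x := by
  rw [← itD_apply]
  have h := hA.comm_itD m
  have h2 : (A * itD m) g = (itD m * A) g := by rw [h.eq]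
  change ((itD m * A) g).f x = ((A * itD m) g).f x
  rw [h2]

lemma AO.one : AO 0 1 (1 : Op d) where
  ρ0 := le_rfl
  C0 := zero_le_one
  comm h := Commute.one_left _
  bd g x N h := by
    rw [one_mul]
    exact h x (by simp)

lemma AO.mono {ρ ρ' C C' : ℝ} {A : Op d} (hA : AO ρ C A) (h : ρ ≤ ρ') (h' : C ≤ C') :
    AO ρ' C' A where
  ρ0 := hA.ρ0.trans h
  C0 := hA.C0.trans h'
  comm := hA.comm
  bd g x N hN := by
    have h1 := hA.bd g x N (fun y hy => hN y (hy.trans h))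
    have h2 : 0 ≤ N := (abs_nonneg _).trans (hN x (by simpa using hA.ρ0.trans h))
    exact h1.trans (mul_le_mul_of_nonneg_right h' h2)

lemma AO.mul {ρ ρ' C C' : ℝ} {A B : Op d} (hA : AO ρ C A) (hB : AO ρ' C' B) :
    AO (ρ + ρ') (C * C') (A * B) where
  ρ0 := add_nonneg hA.ρ0 hB.ρ0
  C0 := mul_nonneg hA.C0 hB.C0
  comm h := (hA.comm h).mul_left (hB.comm h)
  bd g x N hN := by
    have h1 := hA.bd (B g) x (C' * N) (fun y hy => hB.bd g y N (fun z hz => hN z (by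
      calc ‖z - x‖ = ‖(y - x) + (z - y)‖ := by congr 1; abel
        _ ≤ ‖y - x‖ + ‖z - y‖ := norm_add_le _ _
        _ ≤ ρ + ρ' := add_le_add hy hz)))
    rw [mul_assoc]
    exact h1

lemma AO.add {ρ C C' : ℝ} {A B : Op d} (hA : AO ρ C A) (hB : AO ρ C' B) :
    AO ρ (C + C') (A + B) where
  ρ0 := hA.ρ0
  C0 := add_nonneg hA.C0 hB.C0
  comm h := (hA.comm h).add_left (hB.comm h)
  bd g x N hN := by
    have h1 := hA.bd g x N hN
    have h2 := hB.bd g x N hN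
    rw [add_mul]
    exact (abs_add_le _ _).trans (add_le_add h1 h2)

lemma AO.neg {ρ C : ℝ} {A : Op d} (hA : AO ρ C A) : AO ρ C (-A) where
  ρ0 := hA.ρ0
  C0 := hA.C0
  comm h := (hA.comm h).neg_left
  bd g x N hN := by
    have h1 := hA.bd g x N hN
    have h2 : |((-A) g).f x| = |(A g).f x| := by
      rw [LinearMap.neg_apply]
      exact abs_neg _
    rw [h2]; exact h1

lemma AO.sub {ρ C C' : ℝ} {A B : Op d} (hA : AO ρ C A) (hB : AO ρ C' B) :
    AO ρ (C + C') (A - B) := by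
  rw [sub_eq_add_neg]
  exact hA.add hB.neg

/-- the support grows by ρ at most -/
lemma AO.supp {ρ C R : ℝ} {A : Op d} (hA : AO ρ C A) {g : Cs d} (hg : ∀ y, R ≤ ‖y‖ → g.f y = 0)
    (x : Sp d) (hx : R + ρ ≤ ‖x‖) : (A g).f x = 0 := by
  have h1 := hA.bd g x 0 (fun y hy => by
    have h2 : R ≤ ‖y‖ := by
      have h3 : ‖x‖ ≤ ‖y‖ + ‖y - x‖ := by
        calc ‖x‖ = ‖y - (y - x)‖ := by congr 1; abel
          _ ≤ _ := norm_sub_le _ _
      linarith
    rw [hg y h2]; simp)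
  rw [mul_zero] at h1
  exact abs_nonpos_iff.mp h1

/-! ### general averaging operators -/

section GO

variable {Ω : Type} [MeasurableSpace Ω] (μ : Measure Ω) (w : Ω → ℝ) (h : Ω → Sp d)

/-- weighted average of translates -/
def go {F : Type} [NormedAddCommGroup F] [NormedSpace ℝ F] (g : Sp d → F) (x : Sp d) : F :=
  ∫ o, w o • g (x + h o) ∂μ

/-- the data of an averaging operator -/
structure GD (ρ : ℝ) : Prop where
  ρ0 : 0 ≤ ρ
  int : Integrable w μ
  meas : Measurable h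
  bd : ∀ o, w o ≠ 0 → ‖h o‖ ≤ ρ

variable {μ w h} {ρ : ℝ}

lemma GD.bound (hD : GD μ w h ρ) {F : Type} [NormedAddCommGroup F] [NormedSpace ℝ F]
    {g : Sp d → F} (hg : Continuous g) (x : Sp d) :
    ∃ M : ℝ, ∀ y ∈ ball x 1, ∀ o, ‖w o • g (y + h o)‖ ≤ |w o| * M := by
  obtain ⟨M, hM⟩ := (isCompact_closedBall x (ρ + 1)).exists_bound_of_continuousOn hg.continuousOn
  refine ⟨M, fun y hy o => ?_⟩
  rw [norm_smul, Real.norm_eq_abs]
  by_cases h0 : w o = 0
  · rw [h0]; simp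
  · apply mul_le_mul_of_nonneg_left _ (abs_nonneg _)
    apply hM
    rw [mem_closedBall, dist_eq_norm]
    have h1 := hD.bd o h0
    have h2 : ‖y - x‖ < 1 := by rw [← dist_eq_norm]; exact hy
    calc ‖y + h o - x‖ = ‖(y - x) + h o‖ := by congr 1; abel
      _ ≤ ‖y - x‖ + ‖h o‖ := norm_add_le _ _
      _ ≤ ρ + 1 := by linarith

lemma GD.aesm (hD : GD μ w h ρ) {F : Type} [NormedAddCommGroup F] [NormedSpace ℝ F]
    {g : Sp d → F} (hg : Continuous g) (x : Sp d) :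
    AEStronglyMeasurable (fun o => w o • g (x + h o)) μ := by
  apply AEStronglyMeasurable.smul hD.int.1
  have h1 : StronglyMeasurable g := hg.stronglyMeasurable
  exact (h1.comp_measurable (measurable_const.add hD.meas)).aestronglyMeasurable

lemma GD.integrable (hD : GD μ w h ρ) {F : Type} [NormedAddCommGroup F] [NormedSpace ℝ F]
    {g : Sp d → F} (hg : Continuous g) (x : Sp d) :
    Integrable (fun o => w o • g (x + h o)) μ := by
  obtain ⟨M, hM⟩ := hD.bound hg x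
  exact (hD.int.abs.mul_const M).mono' (hD.aesm hg x)
    (Filter.Eventually.of_forall (hM x (mem_ball_self one_pos)))

lemma GD.cont (hD : GD μ w h ρ) {F : Type} [NormedAddCommGroup F] [NormedSpace ℝ F]
    {g : Sp d → F} (hg : Continuous g) : Continuous (go μ w h g) := by
  rw [continuous_iff_continuousAt]
  intro x
  obtain ⟨M, hM⟩ := hD.bound hg x
  apply continuousAt_of_dominated (bound := fun o => |w o| * M)
  · exact Filter.Eventually.of_forall (fun y => hD.aesm hg y)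
  · filter_upwards [ball_mem_nhds x one_pos] with y hy
    exact Filter.Eventually.of_forall (hM y hy)
  · exact hD.int.abs.mul_const M
  · refine Filter.Eventually.of_forall (fun o => ?_)
    exact (continuous_const.smul (hg.comp (continuous_id.add continuous_const))).continuousAt

lemma GD.fderiv (hD : GD μ w h ρ) {F : Type} [NormedAddCommGroup F] [NormedSpace ℝ F]
    {g : Sp d → F} (hg : ContDiff ℝ 1 g) (x : Sp d) :
    HasFDerivAt (go μ w h g) (go μ w h (fderiv ℝ g) x) x := by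
  have hg' : Continuous (_root_.fderiv ℝ g) := hg.continuous_fderiv (by simp)
  obtain ⟨M, hM⟩ := hD.bound hg' x
  apply hasFDerivAt_integral_of_dominated_of_fderiv_le (bound := fun o => |w o| * M)
    (F' := fun y o => w o • _root_.fderiv ℝ g (y + h o)) (ball_mem_nhds x one_pos)
  · exact Filter.Eventually.of_forall (fun y => hD.aesm hg.continuous y)
  · exact hD.integrable hg.continuous x
  · exact hD.aesm hg' x
  · exact Filter.Eventually.of_forall (fun o y hy => hM y hy o)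
  · exact hD.int.abs.mul_const M
  · refine Filter.Eventually.of_forall (fun o y _ => ?_)
    have h1 : HasFDerivAt g (_root_.fderiv ℝ g (y + h o)) (y + h o) :=
      (hg.differentiable (by simp) _).hasFDerivAt
    exact ((hasFDerivAt_comp_add_right (h o)).mpr h1).const_smul (w o)

lemma GD.contDiff_nat (hD : GD μ w h ρ) (n : ℕ) : ∀ {F : Type} [NormedAddCommGroup F]
    [NormedSpace ℝ F] {g : Sp d → F}, ContDiff ℝ ∞ g → ContDiff ℝ n (go μ w h g) := by
  induction n with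
  | zero =>
    intro F _ _ g hg
    exact contDiff_zero.mpr (hD.cont hg.continuous)
  | succ n ih =>
    intro F _ _ g hg
    have hf : ∀ x, HasFDerivAt (go μ w h g) (go μ w h (_root_.fderiv ℝ g) x) x :=
      fun x => hD.fderiv (hg.of_le (by simp)) x
    have h2 : ContDiff ℝ ∞ (_root_.fderiv ℝ g) := hg.fderiv_right (by simp)
    have h3 : _root_.fderiv ℝ (go μ w h g) = go μ w h (_root_.fderiv ℝ g) :=
      funext (fun x => (hf x).fderiv)
    have : ((n + 1 : ℕ) : WithTop ℕ∞) = (n : WithTop ℕ∞) + 1 := by push_cast; rfl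
    rw [this, contDiff_succ_iff_fderiv]
    refine ⟨fun x => (hf x).differentiableAt, ?_, ?_⟩
    · intro hc
      exact absurd hc (by simp)
    · rw [h3]
      exact ih h2

lemma GD.contDiff (hD : GD μ w h ρ) {F : Type} [NormedAddCommGroup F] [NormedSpace ℝ F]
    {g : Sp d → F} (hg : ContDiff ℝ ∞ g) : ContDiff ℝ ∞ (go μ w h g) :=
  contDiff_infty.mpr (fun n => hD.contDiff_nat n hg)

/-- the averaging operator -/
def goOp (hD : GD μ w h ρ) : Op d where
  toFun g := mkC (go μ w h g.f) (hD.contDiff g.cd)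
  map_add' g g' := by
    apply Cs.ext
    intro x
    change ∫ o, w o • (g.f (x + h o) + g'.f (x + h o)) ∂μ =
      (∫ o, w o • g.f (x + h o) ∂μ) + ∫ o, w o • g'.f (x + h o) ∂μ
    rw [← integral_add (hD.integrable g.cont x) (hD.integrable g'.cont x)]
    simp only [smul_add]
  map_smul' c g := by
    apply Cs.ext
    intro x
    change ∫ o, w o • (c • g.f (x + h o)) ∂μ = c • ∫ o, w o • g.f (x + h o) ∂μ
    rw [← integral_smul]
    congr 1
    funext o
    rw [smul_comm]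

lemma goOp_apply (hD : GD μ w h ρ) (g : Cs d) (x : Sp d) :
    (goOp hD g).f x = ∫ o, w o * g.f (x + h o) ∂μ := rfl

lemma goOp_AO (hD : GD μ w h ρ) : AO ρ (∫ o, |w o| ∂μ) (goOp hD) where
  ρ0 := hD.ρ0
  C0 := integral_nonneg (fun _ => abs_nonneg _)
  comm k := by
    apply LinearMap.ext
    intro g
    apply Cs.ext
    intro x
    change go μ w h (fun y => _root_.fderiv ℝ g.f y k) x = _root_.fderiv ℝ (go μ w h g.f) x k
    have h1 := (hD.fderiv (g.cd.of_le (by simp)) x).fderiv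
    rw [h1]
    unfold go
    rw [ContinuousLinearMap.integral_apply
      (hD.integrable (g.cd.continuous_fderiv (by simp)) x)]
    rfl
  bd g x N hN := by
    rw [goOp_apply, ← Real.norm_eq_abs]
    refine (norm_integral_le_integral_norm _).trans ?_
    rw [← integral_mul_const]
    apply integral_mono_of_nonneg (Filter.Eventually.of_forall (fun _ => norm_nonneg _))
      (hD.int.abs.mul_const N)
    refine Filter.Eventually.of_forall (fun o => ?_)
    change ‖w o * g.f (x + h o)‖ ≤ |w o| * N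
    rw [norm_mul, Real.norm_eq_abs, Real.norm_eq_abs]
    by_cases h0 : w o = 0
    · rw [h0]; simp
    · apply mul_le_mul_of_nonneg_left _ (abs_nonneg _)
      apply hN
      rw [add_sub_cancel_left]
      exact hD.bd o h0

end GO

end

end ST
end TG


end

section

/-!
# Structure theorem: the averages E_S(T) and the identity E_S(T) - 1 = K q_S(D)
-/

open MeasureTheory Metric Set TrI
open scoped InnerProductSpace ContDiff

namespace TG
namespace ST

noncomputable section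

variable {d : ℕ}

section Ker

variable {H : Type} [NormedAddCommGroup H] [InnerProductSpace ℝ H] [FiniteDimensional ℝ H]
  [MeasurableSpace H] [BorelSpace H]

/-- radial probability kernel with its potential -/
structure Rdl (φ B : H → ℝ) : Prop where
  smooth : ContDiff ℝ ∞ φ
  smoothB : ContDiff ℝ ∞ B
  nonneg : ∀ y, 0 ≤ φ y
  supp : ∀ y, 1 ≤ ‖y‖ → φ y = 0
  suppB : ∀ y, 1 ≤ ‖y‖ → B y = 0
  int : ∫ y, φ y = 1
  grad : ∀ y h, fderiv ℝ B y h = -(φ y * ⟪y, h⟫_ℝ)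
  even : ∀ y, φ (-y) = φ y

lemma glue_mono : Monotone expNegInvGlue := by
  intro x y hxy
  by_cases hx : x ≤ 0
  · rw [expNegInvGlue.zero_of_nonpos hx]
    exact expNegInvGlue.nonneg y
  · push Not at hx
    have hy : ¬ y ≤ 0 := not_le.mpr (hx.trans_le hxy)
    unfold expNegInvGlue
    rw [if_neg (not_le.mpr hx), if_neg hy]
    apply Real.exp_le_exp.mpr
    have := inv_anti₀ hx hxy
    linarith

lemma glue_deriv_nonneg (s : ℝ) : 0 ≤ deriv expNegInvGlue s := glue_mono.deriv_nonneg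

lemma glue_deriv_zero {s : ℝ} (hs : s ≤ 0) : deriv expNegInvGlue s = 0 := by
  apply IsLocalMin.deriv_eq_zero
  refine Filter.Eventually.of_forall (fun y => ?_)
  rw [expNegInvGlue.zero_of_nonpos hs]
  exact expNegInvGlue.nonneg y

omit [MeasurableSpace H] [BorelSpace H] in
lemma cs_of_supp {F : Type} [Zero F] {f : H → F} (h : ∀ y, 1 ≤ ‖y‖ → f y = 0) : HasCompactSupport f := by
  apply HasCompactSupport.intro (isCompact_closedBall (0 : H) 1)
  intro y hy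
  apply h
  rw [mem_closedBall, dist_zero_right, not_le] at hy
  exact hy.le

lemma exists_Rdl [Nontrivial H] : ∃ φ B : H → ℝ, Rdl φ B := by
  set B0 : H → ℝ := fun y => expNegInvGlue (1 - ‖y‖ ^ 2) with hB0
  set φ0 : H → ℝ := fun y => 2 * deriv expNegInvGlue (1 - ‖y‖ ^ 2) with hφ0
  have hg : ContDiff ℝ ∞ expNegInvGlue := expNegInvGlue.contDiff
  have hg' : ContDiff ℝ ∞ (deriv expNegInvGlue) := (contDiff_infty_iff_deriv.mp hg).2
  have hn : ContDiff ℝ ∞ (fun y : H => 1 - ‖y‖ ^ 2) := contDiff_const.sub (contDiff_norm_sq ℝ)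
  have s1 : ContDiff ℝ ∞ B0 := hg.comp hn
  have s2 : ContDiff ℝ ∞ φ0 := contDiff_const.mul (hg'.comp hn)
  have hgrad : ∀ y h, fderiv ℝ B0 y h = -(φ0 y * ⟪y, h⟫_ℝ) := by
    intro y h
    have h1 : HasFDerivAt (fun y : H => 1 - ‖y‖ ^ 2) (-(2 • innerSL ℝ y)) y := by
      have := (hasStrictFDerivAt_norm_sq y).hasFDerivAt
      exact (this.const_sub 1)
    have h2 : HasDerivAt expNegInvGlue (deriv expNegInvGlue (1 - ‖y‖ ^ 2)) (1 - ‖y‖ ^ 2) :=
      (hg.differentiable (by simp) _).hasDerivAt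
    have h3 := h2.comp_hasFDerivAt y h1
    have h4 : fderiv ℝ B0 y = deriv expNegInvGlue (1 - ‖y‖ ^ 2) • (-(2 • innerSL ℝ y)) := h3.fderiv
    rw [h4]
    simp only [smul_apply, neg_apply, smul_eq_mul, nsmul_eq_mul,
      innerSL_apply_apply, hφ0]
    push_cast
    ring
  have hneg : ∀ y : H, 1 ≤ ‖y‖ → 1 - ‖y‖ ^ 2 ≤ 0 := by
    intro y hy
    nlinarith
  have z1 : ∀ y, 1 ≤ ‖y‖ → B0 y = 0 := fun y hy => expNegInvGlue.zero_of_nonpos (hneg y hy)
  have z2 : ∀ y, 1 ≤ ‖y‖ → φ0 y = 0 := fun y hy => by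
    change 2 * deriv expNegInvGlue (1 - ‖y‖ ^ 2) = 0
    rw [glue_deriv_zero (hneg y hy), mul_zero]
  have n2 : ∀ y, 0 ≤ φ0 y := fun y => mul_nonneg zero_le_two (glue_deriv_nonneg _)
  have hex : ∃ y, φ0 y ≠ 0 := by
    by_contra hcon
    push Not at hcon
    have h1 : ∀ y, fderiv ℝ B0 y = 0 := by
      intro y
      ext h
      rw [hgrad, hcon y]
      simp
    have h2 := is_const_of_fderiv_eq_zero (s1.differentiable (by simp)) h1
    obtain ⟨v, hv⟩ := exists_ne (0 : H)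
    have hv' : 0 < ‖v‖ := norm_pos_iff.mpr hv
    have h3 : 1 ≤ ‖(‖v‖⁻¹) • v‖ := by
      rw [norm_smul, norm_inv, norm_norm, inv_mul_cancel₀ hv'.ne']
    have h4 := h2 0 ((‖v‖⁻¹) • v)
    rw [z1 _ h3] at h4
    have h5 : 0 < B0 0 := by
      change 0 < expNegInvGlue (1 - ‖(0 : H)‖ ^ 2)
      apply expNegInvGlue.pos_of_pos
      simp
    linarith
  obtain ⟨y0, hy0⟩ := hex
  have hc : 0 < ∫ y, φ0 y :=
    s2.continuous.integral_pos_of_hasCompactSupport_nonneg_nonzero (cs_of_supp z2) n2 hy0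
  set c := ∫ y, φ0 y with hcdef
  refine ⟨fun y => c⁻¹ * φ0 y, fun y => c⁻¹ * B0 y, ?_⟩
  refine ⟨contDiff_const.mul s2, contDiff_const.mul s1, fun y => ?_, fun y hy => ?_, fun y hy => ?_, ?_,
    fun y h => ?_, fun y => ?_⟩
  · exact mul_nonneg (inv_nonneg.mpr hc.le) (n2 y)
  · rw [z2 y hy, mul_zero]
  · rw [z1 y hy, mul_zero]
  · rw [integral_const_mul, inv_mul_cancel₀ hc.ne']
  · have : fderiv ℝ (fun y => c⁻¹ * B0 y) y = c⁻¹ • fderiv ℝ B0 y :=
      fderiv_const_mul (s1.differentiable (by simp) y) _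
    rw [this, smul_apply, hgrad, smul_eq_mul]
    ring
  · change c⁻¹ * (2 * deriv expNegInvGlue (1 - ‖-y‖ ^ 2)) = _
    rw [norm_neg]

variable {φ B : H → ℝ}

lemma gdE {ψ : H → ℝ} (hc : Continuous ψ) (hs : ∀ y, 1 ≤ ‖y‖ → ψ y = 0) (S : H →L[ℝ] Sp d) (T : ℝ) :
    GD volume ψ (fun y => T • S y) (|T| * ‖S‖) where
  ρ0 := mul_nonneg (abs_nonneg _) (norm_nonneg _)
  int := hc.integrable_of_hasCompactSupport (cs_of_supp hs)
  meas := (S.continuous.measurable).const_smul T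
  bd y hy := by
    have h1 : ‖y‖ < 1 := by
      by_contra hcon
      exact hy (hs y (not_lt.mp hcon))
    rw [norm_smul, Real.norm_eq_abs]
    apply mul_le_mul_of_nonneg_left _ (abs_nonneg _)
    calc ‖S y‖ ≤ ‖S‖ * ‖y‖ := S.le_opNorm y
      _ ≤ ‖S‖ * 1 := mul_le_mul_of_nonneg_left h1.le (norm_nonneg _)
      _ = ‖S‖ := mul_one _

/-- the average E_S(T) -/
def EE (hR : Rdl φ B) (S : H →L[ℝ] Sp d) (T : ℝ) : Op d := goOp (gdE hR.smooth.continuous hR.supp S T)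

lemma EE_apply (hR : Rdl φ B) (S : H →L[ℝ] Sp d) (T : ℝ) (g : Cs d) (x : Sp d) :
    (EE hR S T g).f x = ∫ y, φ y * g.f (x + T • S y) := rfl

lemma Rdl.int_abs (hR : Rdl φ B) : ∫ y, |φ y| = 1 := by
  rw [← hR.int]
  congr 1
  funext y
  exact abs_of_nonneg (hR.nonneg y)

lemma EE_AO (hR : Rdl φ B) (S : H →L[ℝ] Sp d) (T : ℝ) : AO (|T| * ‖S‖) 1 (EE hR S T) := by
  have := goOp_AO (gdE hR.smooth.continuous hR.supp S T)
  rw [hR.int_abs] at this
  exact this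

lemma gdK (hR : Rdl φ B) (S : H →L[ℝ] Sp d) (T : ℝ) :
    GD (volume : Measure (ℝ × H)) (fun p => (Ioc 0 T).indicator (fun s => s) p.1 * B p.2)
      (fun p => p.1 • S p.2) (|T| * ‖S‖) where
  ρ0 := mul_nonneg (abs_nonneg _) (norm_nonneg _)
  int := by
    apply Integrable.mul_prod
    · rw [integrable_indicator_iff measurableSet_Ioc]
      exact (continuous_id.integrableOn_Icc (a := 0) (b := T)).mono_set Ioc_subset_Icc_self
    · exact hR.smoothB.continuous.integrable_of_hasCompactSupport (cs_of_supp hR.suppB)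
  meas := measurable_fst.smul (S.continuous.measurable.comp measurable_snd)
  bd p hp := by
    have h1 : ‖p.2‖ < 1 := by
      by_contra hcon
      exact hp (by rw [hR.suppB p.2 (not_lt.mp hcon), mul_zero])
    have h2 : p.1 ∈ Ioc 0 T := by
      by_contra hcon
      exact hp (by rw [indicator_of_notMem hcon, zero_mul])
    rw [norm_smul, Real.norm_eq_abs]
    apply mul_le_mul _ _ (norm_nonneg _) (abs_nonneg _)
    · rw [abs_of_pos h2.1, abs_of_pos (h2.1.trans_le h2.2)]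
      exact h2.2
    · calc ‖S p.2‖ ≤ ‖S‖ * ‖p.2‖ := S.le_opNorm _
        _ ≤ ‖S‖ * 1 := mul_le_mul_of_nonneg_left h1.le (norm_nonneg _)
        _ = ‖S‖ := mul_one _

/-- the compact operator in the identity -/
def KK (hR : Rdl φ B) (S : H →L[ℝ] Sp d) (T : ℝ) : Op d := goOp (gdK hR S T)

lemma KK_apply (hR : Rdl φ B) (S : H →L[ℝ] Sp d) (T : ℝ) (hT : 0 ≤ T) (g : Cs d) (x : Sp d) :
    (KK hR S T g).f x = ∫ s in (0 : ℝ)..T, s * ∫ y, B y * g.f (x + s • S y) := by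
  have h1 : (KK hR S T g).f x = ∫ p : ℝ × H, ((Ioc 0 T).indicator (fun s => s) p.1 * B p.2) *
      g.f (x + p.1 • S p.2) := rfl
  have h2 := (gdK hR S T).integrable g.cont x
  rw [h1, Measure.volume_eq_prod, integral_prod]
  · rw [intervalIntegral.integral_of_le hT, ← integral_indicator measurableSet_Ioc]
    congr 1
    funext s
    by_cases hs : s ∈ Ioc 0 T
    · rw [indicator_of_mem hs, ← integral_const_mul]
      congr 1
      funext y
      simp only [indicator_of_mem hs]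
      ring
    · rw [indicator_of_notMem hs]
      simp only [indicator_of_notMem hs, zero_mul, integral_zero]
  · exact h2

/-- derivative in the scale -/
lemma hasDeriv_scale {ψ : H → ℝ} (hc : Continuous ψ) (hs : ∀ y, 1 ≤ ‖y‖ → ψ y = 0)
    (S : H →L[ℝ] Sp d) (g : Cs d) (x : Sp d) (s : ℝ) :
    HasDerivAt (fun s => ∫ y, ψ y * g.f (x + s • S y))
      (∫ y, ψ y * fderiv ℝ g.f (x + s • S y) (S y)) s := by
  have hf : Continuous (fderiv ℝ g.f) := g.cd.continuous_fderiv (by simp)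
  obtain ⟨M, hM⟩ := (isCompact_closedBall x ((|s| + 1) * ‖S‖)).exists_bound_of_continuousOn
    hf.continuousOn
  have hint : Integrable ψ := hc.integrable_of_hasCompactSupport (cs_of_supp hs)
  have hline : ∀ t : ℝ, Continuous (fun y : H => x + t • S y) := fun t => by fun_prop
  have key := hasDerivAt_integral_of_dominated_loc_of_deriv_le
    (μ := (volume : Measure H)) (F := fun s y => ψ y * g.f (x + s • S y))
    (F' := fun s y => ψ y * fderiv ℝ g.f (x + s • S y) (S y)) (x₀ := s)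
    (bound := fun y => |ψ y| * (M * ‖S‖)) (ball_mem_nhds s one_pos) ?_ ?_ ?_ ?_ ?_ ?_
  · exact key.2
  · refine Filter.Eventually.of_forall (fun t => ?_)
    exact (hc.mul (g.cont.comp (hline t))).aestronglyMeasurable
  · apply Continuous.integrable_of_hasCompactSupport
    · exact hc.mul (g.cont.comp (hline s))
    · exact (cs_of_supp hs).mul_right
  · apply Continuous.aestronglyMeasurable
    exact hc.mul ((hf.comp (hline s)).clm_apply S.continuous)
  · refine Filter.Eventually.of_forall (fun y t ht => ?_)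
    rw [norm_mul, Real.norm_eq_abs]
    by_cases h0 : ψ y = 0
    · rw [h0]; simp
    · apply mul_le_mul_of_nonneg_left _ (abs_nonneg _)
      have h1 : ‖y‖ < 1 := by
        by_contra hcon
        exact h0 (hs y (not_lt.mp hcon))
      have h2 : ‖S y‖ ≤ ‖S‖ := by
        calc ‖S y‖ ≤ ‖S‖ * ‖y‖ := S.le_opNorm y
          _ ≤ ‖S‖ * 1 := mul_le_mul_of_nonneg_left h1.le (norm_nonneg _)
          _ = ‖S‖ := mul_one _
      have h3 : |t| ≤ |s| + 1 := by
        rw [mem_ball, Real.dist_eq] at ht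
        calc |t| = |s + (t - s)| := by congr 1; ring
          _ ≤ |s| + |t - s| := abs_add_le _ _
          _ ≤ |s| + 1 := by linarith
      have h4 : x + t • S y ∈ closedBall x ((|s| + 1) * ‖S‖) := by
        rw [mem_closedBall, dist_eq_norm, add_sub_cancel_left, norm_smul, Real.norm_eq_abs]
        exact mul_le_mul h3 h2 (norm_nonneg _) (by positivity)
      have h5 := hM _ h4
      calc ‖fderiv ℝ g.f (x + t • S y) (S y)‖ ≤ ‖fderiv ℝ g.f (x + t • S y)‖ * ‖S y‖ :=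
            ContinuousLinearMap.le_opNorm _ _
        _ ≤ M * ‖S‖ := mul_le_mul h5 h2 (norm_nonneg _) ((norm_nonneg _).trans h5)
  · exact hint.abs.mul_const _
  · refine Filter.Eventually.of_forall (fun y t _ => ?_)
    apply HasDerivAt.const_mul
    have h1 : HasFDerivAt g.f (fderiv ℝ g.f (x + t • S y)) (x + t • S y) := (g.diff _).hasFDerivAt
    have h2 : HasDerivAt (fun t : ℝ => x + t • S y) (S y) t := by
      have := ((hasDerivAt_id t).smul_const (S y)).const_add x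
      simpa using this
    exact h1.comp_hasDerivAt t h2

/-- the second order operator of a frame -/
def QQ (S : H →L[ℝ] Sp d) (hf : Fin d → H) : Op d := ∑ k, dd (S (hf k)) * dd (S (hf k))

omit [FiniteDimensional ℝ H] [MeasurableSpace H] [BorelSpace H] in
lemma QQ_apply (S : H →L[ℝ] Sp d) (hf : Fin d → H) (g : Cs d) (x : Sp d) :
    (QQ S hf g).f x = ∑ k, (dd (S (hf k)) (dd (S (hf k)) g)).f x := by
  unfold QQ
  rw [LinearMap.sum_apply]
  have : ∀ s : Finset (Fin d), (∑ k ∈ s, (dd (S (hf k)) * dd (S (hf k))) g).f x =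
      ∑ k ∈ s, (dd (S (hf k)) (dd (S (hf k)) g)).f x := by
    intro s
    induction s using Finset.induction_on with
    | empty => simp
    | insert a s ha ih =>
      rw [Finset.sum_insert ha, Finset.sum_insert ha, Cs.add_apply, ih]
      rfl
  exact this _

lemma ibp (hR : Rdl φ B) (S : H →L[ℝ] Sp d) (hf : Fin d → H)
    (hfr : ∀ y, ∑ k, ⟪y, hf k⟫_ℝ • hf k = y) (g : Cs d) (x : Sp d) (s : ℝ) :
    ∫ y, φ y * fderiv ℝ g.f (x + s • S y) (S y) =
      s * ∫ y, B y * (QQ S hf g).f (x + s • S y) := by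
  have hline : Continuous (fun y : H => x + s • S y) := by fun_prop
  -- the functions G_k
  have hG : ∀ k, ContDiff ℝ ∞ (fun y : H => (dd (S (hf k)) g).f (x + s • S y)) := by
    intro k
    exact (dd (S (hf k)) g).cd.comp (by fun_prop)
  have hGd : ∀ k y, fderiv ℝ (fun y : H => (dd (S (hf k)) g).f (x + s • S y)) y (hf k) =
      s * (dd (S (hf k)) (dd (S (hf k)) g)).f (x + s • S y) := by
    intro k y
    have h1 : HasFDerivAt (dd (S (hf k)) g).f (fderiv ℝ (dd (S (hf k)) g).f (x + s • S y)) (x + s • S y) :=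
      ((dd (S (hf k)) g).diff _).hasFDerivAt
    have h2 : HasFDerivAt (fun y : H => x + s • S y) (s • S) y := by
      have := (S.hasFDerivAt (x := y)).const_smul s
      exact this.const_add x
    have h3 := (h1.comp y h2).fderiv
    have h4 : (fun y : H => (dd (S (hf k)) g).f (x + s • S y)) =
      (dd (S (hf k)) g).f ∘ (fun y : H => x + s • S y) := rfl
    rw [h4, h3]
    simp only [ContinuousLinearMap.comp_apply, smul_apply, map_smul, smul_eq_mul]
    rfl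
  have hBc : HasCompactSupport B := cs_of_supp hR.suppB
  have hint : ∀ {f : H → ℝ}, Continuous f → Integrable (fun y => B y * f y) := by
    intro f hf'
    exact (hR.smoothB.continuous.mul hf').integrable_of_hasCompactSupport hBc.mul_right
  have hstep : ∀ k, ∫ y, φ y * (⟪y, hf k⟫_ℝ * fderiv ℝ g.f (x + s • S y) (S (hf k))) =
      s * ∫ y, B y * (dd (S (hf k)) (dd (S (hf k)) g)).f (x + s • S y) := by
    intro k
    have e1 : ∀ y, φ y * (⟪y, hf k⟫_ℝ * fderiv ℝ g.f (x + s • S y) (S (hf k))) =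
        -(fderiv ℝ B y (hf k) * (dd (S (hf k)) g).f (x + s • S y)) := by
      intro y
      rw [hR.grad, dd_apply]
      ring
    simp_rw [e1]
    rw [integral_neg]
    have hBd : Continuous (fun y => fderiv ℝ B y (hf k)) :=
      (hR.smoothB.continuous_fderiv (by simp)).clm_apply continuous_const
    have key := integral_mul_fderiv_eq_neg_fderiv_mul_of_integrable (μ := (volume : Measure H))
      (f := B) (g := fun y : H => (dd (S (hf k)) g).f (x + s • S y)) (v := hf k) ?_ ?_ ?_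
      (fun y _ => hR.smoothB.differentiable (by simp) y) (fun y _ => (hG k).differentiable (by simp) y)
    · rw [← key]
      simp_rw [hGd]
      rw [← integral_const_mul]
      congr 1
      funext y
      ring
    · apply Continuous.integrable_of_hasCompactSupport (hBd.mul (hG k).continuous)
      apply HasCompactSupport.mul_right
      have := hBc.fderiv_apply (𝕜 := ℝ) (v := hf k)
      exact this
    · simp_rw [hGd]
      have := hint (f := fun y => s * (dd (S (hf k)) (dd (S (hf k)) g)).f (x + s • S y))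
        (continuous_const.mul ((dd (S (hf k)) (dd (S (hf k)) g)).cont.comp hline))
      exact this
    · exact hint (hG k).continuous
  have e0 : ∀ y, φ y * fderiv ℝ g.f (x + s • S y) (S y) =
      ∑ k, φ y * (⟪y, hf k⟫_ℝ * fderiv ℝ g.f (x + s • S y) (S (hf k))) := by
    intro y
    rw [← Finset.mul_sum]
    congr 1
    have h1 : S y = ∑ k, ⟪y, hf k⟫_ℝ • S (hf k) := by
      conv_lhs => rw [← hfr y]
      rw [map_sum]
      simp only [map_smul]
    have h2 : ∀ D : Sp d →L[ℝ] ℝ, D (S y) = ∑ k, ⟪y, hf k⟫_ℝ * D (S (hf k)) := by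
      intro D
      rw [h1, map_sum]
      simp only [map_smul, smul_eq_mul]
    exact h2 _
  simp_rw [e0]
  rw [integral_finsetSum]
  · simp_rw [hstep, QQ_apply, Finset.mul_sum]
    rw [integral_finsetSum, Finset.mul_sum]
    intro k _
    exact hint ((dd (S (hf k)) (dd (S (hf k)) g)).cont.comp hline)
  · intro k _
    apply Continuous.integrable_of_hasCompactSupport
    · exact hR.smooth.continuous.mul ((continuous_id.inner continuous_const).mul
        ((dd (S (hf k)) g).cont.comp hline))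
    · exact (cs_of_supp hR.supp).mul_right

/-- THE IDENTITY -/
theorem EE_sub_one (hR : Rdl φ B) (S : H →L[ℝ] Sp d) (hf : Fin d → H)
    (hfr : ∀ y, ∑ k, ⟪y, hf k⟫_ℝ • hf k = y) (T : ℝ) (hT : 0 ≤ T) :
    EE hR S T - 1 = KK hR S T * QQ S hf := by
  apply LinearMap.ext
  intro g
  apply Cs.ext
  intro x
  change (EE hR S T g).f x - g.f x = (KK hR S T (QQ S hf g)).f x
  rw [KK_apply hR S T hT, EE_apply]
  have h1 : ∀ s : ℝ, HasDerivAt (fun s => ∫ y, φ y * g.f (x + s • S y))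
      (s * ∫ y, B y * (QQ S hf g).f (x + s • S y)) s := by
    intro s
    rw [← ibp hR S hf hfr g x s]
    exact hasDeriv_scale hR.smooth.continuous hR.supp S g x s
  have h2 : Continuous (fun s : ℝ => s * ∫ y, B y * (QQ S hf g).f (x + s • S y)) := by
    apply continuous_id.mul
    rw [continuous_iff_continuousAt]
    intro s
    exact (hasDeriv_scale hR.smoothB.continuous hR.suppB S (QQ S hf g) x s).continuousAt
  rw [intervalIntegral.integral_eq_sub_of_hasDerivAt (fun s _ => h1 s) (h2.intervalIntegrable _ _)]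
  congr 1
  simp only [zero_smul, add_zero]
  rw [integral_mul_const, hR.int, one_mul]

end Ker

end

end ST
end TG


end

section

/-!
# Structure theorem: estimates for the averages
-/

open MeasureTheory Metric Set TrI
open scoped InnerProductSpace ContDiff

namespace TG
namespace ST

noncomputable section

variable {d : ℕ}

/-- the operator maps functions bounded by N and supported in the ball of radius R0 to functions
bounded by η N -/
def SmO (R0 η : ℝ) (A : Op d) : Prop :=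
  ∀ (g : Cs d) (N : ℝ), (∀ y, R0 ≤ ‖y‖ → g.f y = 0) → (∀ y, |g.f y| ≤ N) →
    ∀ x, |(A g).f x| ≤ η * N

section Ker

variable {H : Type} [NormedAddCommGroup H] [InnerProductSpace ℝ H] [FiniteDimensional ℝ H]
  [MeasurableSpace H] [BorelSpace H] {φ B : H → ℝ}

lemma EE_sm (hR : Rdl φ B) (S : H →L[ℝ] Sp d) {c : ℝ} (hc : 0 ≤ c) (hS : ∀ y, ‖y‖ ≤ c * ‖S y‖)
    (R0 : ℝ) (hR0 : 0 ≤ R0) : ∃ C : ℝ, 0 ≤ C ∧ ∀ T : ℝ, 0 < T →
      SmO R0 (C / T ^ (Module.finrank ℝ H)) (EE hR S T) := by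
  obtain ⟨Φ, hΦ⟩ := hR.smooth.continuous.bounded_above_of_compact_support (cs_of_supp hR.supp)
  have hΦ0 : 0 ≤ Φ := (norm_nonneg _).trans (hΦ 0)
  set v : ℝ := (volume (ball (0 : H) 1)).toReal with hv
  have hv0 : 0 ≤ v := ENNReal.toReal_nonneg
  set p := Module.finrank ℝ H with hp
  refine ⟨Φ * ((2 * c * R0) ^ p * v), by positivity, fun T hT g N hg hN x => ?_⟩
  have hN0 : 0 ≤ N := (abs_nonneg _).trans (hN 0)
  have hprod : 0 ≤ Φ * ((2 * c * R0) ^ p * v) / T ^ p * N := by positivity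
  rw [EE_apply]
  by_cases hne : ∃ y0 : H, ‖x + T • S y0‖ < R0
  · obtain ⟨y0, hy0⟩ := hne
    set r : ℝ := 2 * c * R0 / T with hr
    have hr0 : 0 ≤ r := by positivity
    have hz : ∀ y, y ∉ closedBall y0 r → φ y * g.f (x + T • S y) = 0 := by
      intro y hy
      rw [hg, mul_zero]
      by_contra hcon
      rw [not_le] at hcon
      apply hy
      rw [mem_closedBall, dist_eq_norm]
      have h1 : T • S (y - y0) = (x + T • S y) - (x + T • S y0) := by
        rw [map_sub, smul_sub]; abel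
      have h2 : T * ‖S (y - y0)‖ ≤ 2 * R0 := by
        calc T * ‖S (y - y0)‖ = ‖T • S (y - y0)‖ := by
              rw [norm_smul, Real.norm_eq_abs, abs_of_pos hT]
          _ ≤ ‖x + T • S y‖ + ‖x + T • S y0‖ := by rw [h1]; exact norm_sub_le _ _
          _ ≤ 2 * R0 := by linarith
      have h3 : ‖S (y - y0)‖ ≤ 2 * R0 / T := by
        rw [le_div_iff₀ hT]; linarith
      calc ‖y - y0‖ ≤ c * ‖S (y - y0)‖ := hS _
        _ ≤ c * (2 * R0 / T) := mul_le_mul_of_nonneg_left h3 hc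
        _ = r := by rw [hr]; ring
    have h4 : ∫ y, φ y * g.f (x + T • S y) = ∫ y in closedBall y0 r, φ y * g.f (x + T • S y) :=
      (setIntegral_eq_integral_of_forall_compl_eq_zero hz).symm
    rw [h4, ← Real.norm_eq_abs]
    have hvol : volume (closedBall y0 r) < ⊤ := measure_closedBall_lt_top
    refine (norm_setIntegral_le_of_norm_le_const (C := Φ * N) hvol (fun y _ => ?_)).trans ?_
    · rw [norm_mul]
      exact mul_le_mul (hΦ y) (hN _) (norm_nonneg _) hΦ0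
    · have h5 : volume.real (closedBall y0 r) = r ^ p * v := by
        rw [measureReal_def, Measure.addHaar_closedBall _ _ hr0, ENNReal.toReal_mul,
          ENNReal.toReal_ofReal (pow_nonneg hr0 _)]
      rw [h5, hr, div_pow]
      apply le_of_eq
      ring
  · push Not at hne
    have h0 : ∀ y, φ y * g.f (x + T • S y) = 0 := fun y => by rw [hg _ (hne y), mul_zero]
    simp_rw [h0]
    rw [integral_zero, abs_zero]
    exact hprod

lemma EE_slab (hR : Rdl φ B) (S : H →L[ℝ] Sp d) (ν' : Sp d) (w : H) (hw : ⟪S w, ν'⟫_ℝ = 1)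
    (R0 : ℝ) (hR0 : 0 < R0) : ∃ C : ℝ, 0 ≤ C ∧ ∀ T : ℝ, 0 < T → ∀ (g : Cs d) (N : ℝ),
      (∀ x, R0 ≤ |⟪x, ν'⟫_ℝ| → g.f x = 0) → (∀ x, |g.f x| ≤ N) →
      ∀ x, |(EE hR S T g).f x| ≤ C / T * N := by
  set C0 : ℝ := ∫ y, |fderiv ℝ φ y w| with hC0
  have hC00 : 0 ≤ C0 := integral_nonneg (fun _ => abs_nonneg _)
  refine ⟨4 * R0 * C0, by positivity, fun T hT g N hg hN x => ?_⟩
  have hN0 : 0 ≤ N := (abs_nonneg _).trans (hN 0)
  set X : ℝ → ℝ := fun s => 2 * R0 * Real.arctan (s / R0) with hX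
  set X' : ℝ → ℝ := fun s => 2 / (1 + (s / R0) ^ 2) with hX'
  have hXd : ∀ s, HasDerivAt X (X' s) s := by
    intro s
    have h1 : HasDerivAt (fun s : ℝ => s / R0) (1 / R0) s := (hasDerivAt_id s).div_const R0
    have h2 := (h1.arctan).const_mul (2 * R0)
    have h3 : 2 * R0 * (1 / (1 + (s / R0) ^ 2) * (1 / R0)) = X' s := by
      change _ = 2 / (1 + (s / R0) ^ 2)
      field_simp
    rw [← h3]
    exact h2
  have hXb : ∀ s, |X s| ≤ 4 * R0 := by
    intro s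
    change |2 * R0 * Real.arctan (s / R0)| ≤ 4 * R0
    rw [abs_mul, abs_of_pos (by positivity : 0 < 2 * R0)]
    have h1 : |Real.arctan (s / R0)| ≤ 2 := by
      rw [abs_le]
      have := Real.arctan_lt_pi_div_two (s / R0)
      have := Real.neg_pi_div_two_lt_arctan (s / R0)
      have := Real.pi_le_four
      constructor <;> linarith
    calc 2 * R0 * |Real.arctan (s / R0)| ≤ 2 * R0 * 2 := mul_le_mul_of_nonneg_left h1 (by positivity)
      _ = 4 * R0 := by ring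
  have hX'0 : ∀ s, 0 ≤ X' s := fun s => by
    change 0 ≤ 2 / (1 + (s / R0) ^ 2)
    positivity
  have hX'1 : ∀ s, |s| < R0 → 1 ≤ X' s := by
    intro s hs
    change 1 ≤ 2 / (1 + (s / R0) ^ 2)
    rw [le_div_iff₀ (by positivity)]
    have h1 : |s / R0| ≤ 1 := by
      rw [abs_div, abs_of_pos hR0, div_le_one hR0]
      exact hs.le
    have h2 : (s / R0) ^ 2 ≤ 1 := by
      rw [← sq_abs]
      have := abs_nonneg (s / R0)
      nlinarith
    linarith
  set a : ℝ := ⟪x, ν'⟫_ℝ with ha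
  -- the linear functional
  set l : H →L[ℝ] ℝ := (innerSL ℝ ν').comp S with hl
  have hlapp : ∀ y, l y = ⟪S y, ν'⟫_ℝ := fun y => by
    rw [hl, ContinuousLinearMap.comp_apply, innerSL_apply_apply, real_inner_comm]
  set u : H → ℝ := fun y => X (a + T * l y) with hu
  have hud : ∀ y, HasFDerivAt u (X' (a + T * l y) • (T • l)) y := by
    intro y
    have h1 : HasFDerivAt (fun y => a + T * l y) (T • l) y := by
      have := (l.hasFDerivAt (x := y)).const_mul T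
      exact this.const_add a
    exact (hXd _).comp_hasFDerivAt y h1
  have hudiff : Differentiable ℝ u := fun y => (hud y).differentiableAt
  have hfu : ∀ y, fderiv ℝ u y w = T * X' (a + T * l y) := by
    intro y
    rw [(hud y).fderiv]
    simp only [smul_apply, smul_eq_mul]
    rw [hlapp w, hw]
    ring
  have hX'c : Continuous X' := by
    change Continuous (fun s : ℝ => 2 / (1 + (s / R0) ^ 2))
    apply Continuous.div continuous_const (by fun_prop)
    intro s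
    positivity
  have hlc : Continuous (fun y : H => a + T * l y) := continuous_const.add (continuous_const.mul l.continuous)
  have hφc := hR.smooth.continuous
  have hφcs : HasCompactSupport φ := cs_of_supp hR.supp
  have hgc : Continuous (fun y : H => g.f (x + T • S y)) := g.cont.comp (by fun_prop)
  have hint1 : Integrable (fun y => φ y * (N * X' (a + T * l y))) :=
    (hφc.mul (continuous_const.mul (hX'c.comp hlc))).integrable_of_hasCompactSupport hφcs.mul_right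
  rw [EE_apply]
  have h1 : |∫ y, φ y * g.f (x + T • S y)| ≤ ∫ y, φ y * (N * X' (a + T * l y)) := by
    rw [← Real.norm_eq_abs]
    refine (norm_integral_le_integral_norm _).trans ?_
    apply integral_mono_of_nonneg (Filter.Eventually.of_forall (fun _ => norm_nonneg _)) hint1
    refine Filter.Eventually.of_forall (fun y => ?_)
    change ‖φ y * g.f (x + T • S y)‖ ≤ φ y * (N * X' (a + T * l y))
    rw [norm_mul, Real.norm_eq_abs, Real.norm_eq_abs, abs_of_nonneg (hR.nonneg y)]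
    apply mul_le_mul_of_nonneg_left _ (hR.nonneg y)
    have e1 : ⟪x + T • S y, ν'⟫_ℝ = a + T * l y := by
      rw [inner_add_left, real_inner_smul_left, hlapp]
    by_cases hcase : R0 ≤ |a + T * l y|
    · rw [hg _ (by rw [e1]; exact hcase), abs_zero]
      exact mul_nonneg hN0 (hX'0 _)
    · push Not at hcase
      have h2 := hX'1 _ hcase
      calc |g.f (x + T • S y)| ≤ N * 1 := by rw [mul_one]; exact hN _
        _ ≤ N * X' (a + T * l y) := mul_le_mul_of_nonneg_left h2 hN0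
  refine h1.trans ?_
  have hφd : Continuous (fun y => fderiv ℝ φ y w) :=
    (hR.smooth.continuous_fderiv (by simp)).clm_apply continuous_const
  have hφdcs : HasCompactSupport (fun y => fderiv ℝ φ y w) := by
    have := hφcs.fderiv_apply (𝕜 := ℝ) (v := w)
    exact this
  have huc : Continuous u := hudiff.continuous
  have key := integral_mul_fderiv_eq_neg_fderiv_mul_of_integrable (μ := (volume : Measure H))
      (f := φ) (g := u) (v := w) ?_ ?_ ?_
      (fun y _ => hR.smooth.differentiable (by simp) y) (fun y _ => hudiff y)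
  · have h2 : ∫ y, φ y * (N * X' (a + T * l y)) = N / T * ∫ y, φ y * fderiv ℝ u y w := by
      rw [← integral_const_mul]
      congr 1
      funext y
      rw [hfu]
      field_simp
    rw [h2, key]
    have h3 : |∫ y, fderiv ℝ φ y w * u y| ≤ 4 * R0 * C0 := by
      rw [← Real.norm_eq_abs]
      refine (norm_integral_le_integral_norm _).trans ?_
      rw [hC0, ← integral_const_mul]
      apply integral_mono_of_nonneg (Filter.Eventually.of_forall (fun _ => norm_nonneg _))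
      · exact ((hφd.abs).integrable_of_hasCompactSupport hφdcs.abs).const_mul _
      · refine Filter.Eventually.of_forall (fun y => ?_)
        change ‖fderiv ℝ φ y w * u y‖ ≤ 4 * R0 * |fderiv ℝ φ y w|
        rw [norm_mul, Real.norm_eq_abs, Real.norm_eq_abs, mul_comm]
        exact mul_le_mul_of_nonneg_right (hXb _) (abs_nonneg _)
    have h4 : -∫ y, fderiv ℝ φ y w * u y ≤ 4 * R0 * C0 := (neg_le_abs _).trans h3
    calc N / T * -∫ y, fderiv ℝ φ y w * u y ≤ N / T * (4 * R0 * C0) :=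
          mul_le_mul_of_nonneg_left h4 (by positivity)
      _ = 4 * R0 * C0 / T * N := by ring
  · exact (hφd.mul huc).integrable_of_hasCompactSupport hφdcs.mul_right
  · simp_rw [hfu]
    exact (hφc.mul (continuous_const.mul (hX'c.comp hlc))).integrable_of_hasCompactSupport hφcs.mul_right
  · exact (hφc.mul huc).integrable_of_hasCompactSupport hφcs.mul_right

end Ker

end

end ST
end TG


end

section

/-!
# Structure theorem: averages in hyperplanes
-/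

open MeasureTheory Metric Set TrI
open scoped InnerProductSpace ContDiff

namespace TG
namespace ST

noncomputable section

variable {d : ℕ}

/-- the hyperplane orthogonal to ν -/
abbrev Hn (ν : Sp d) : Submodule ℝ (Sp d) := (Submodule.span ℝ {ν})ᗮ

/-- its inclusion -/
def Sn (ν : Sp d) : Hn ν →L[ℝ] Sp d := (Hn ν).subtypeL

lemma Sn_apply (ν : Sp d) (y : Hn ν) : Sn ν y = (y : Sp d) := rfl

lemma Hn_inner (ν : Sp d) (y : Hn ν) : ⟪(y : Sp d), ν⟫_ℝ = 0 :=
  Submodule.mem_orthogonal_singleton_iff_inner_left.mp y.2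

lemma Hn_inner' (ν : Sp d) (y : Hn ν) : ⟪ν, (y : Sp d)⟫_ℝ = 0 := by
  rw [real_inner_comm]; exact Hn_inner ν y

lemma Hn_fin (ν : Sp d) (hν : ‖ν‖ = 1) : Module.finrank ℝ (Hn ν) = d - 1 := by
  have h1 := Submodule.finrank_add_finrank_orthogonal (Submodule.span ℝ {ν})
  have h0 : ν ≠ 0 := by
    intro h
    rw [h, norm_zero] at hν
    exact zero_ne_one hν
  rw [finrank_span_singleton h0, finrank_euclideanSpace_fin] at h1
  have : Module.finrank ℝ (Hn ν) = Module.finrank ℝ ((Submodule.span ℝ {ν})ᗮ : Submodule ℝ (Sp d)) := rfl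
  omega

lemma Hn_nontrivial (hd : 2 ≤ d) (ν : Sp d) (hν : ‖ν‖ = 1) : Nontrivial (Hn ν) := by
  apply Module.nontrivial_of_finrank_pos (R := ℝ)
  rw [Hn_fin ν hν]
  omega

/-- orthogonal projection to the hyperplane -/
def Pn (ν : Sp d) (hν : ‖ν‖ = 1) : Sp d →L[ℝ] Hn ν :=
  (ContinuousLinearMap.id ℝ (Sp d) - (innerSL ℝ ν).smulRight ν).codRestrict (Hn ν) (by
    intro x
    rw [Submodule.mem_orthogonal_singleton_iff_inner_left]
    simp only [sub_apply, ContinuousLinearMap.id_apply, ContinuousLinearMap.smulRight_apply,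
      innerSL_apply_apply]
    rw [inner_sub_left, real_inner_smul_left, real_inner_self_eq_norm_sq, hν, real_inner_comm]
    ring)

lemma Pn_coe (ν : Sp d) (hν : ‖ν‖ = 1) (x : Sp d) : ((Pn ν hν x : Hn ν) : Sp d) = x - ⟪ν, x⟫_ℝ • ν := rfl

lemma Pn_tang (ν : Sp d) (hν : ‖ν‖ = 1) (x : Sp d) : ((Pn ν hν x : Hn ν) : Sp d) = tang ν x := rfl

lemma Pn_of_mem (ν : Sp d) (hν : ‖ν‖ = 1) (y : Hn ν) : Pn ν hν (y : Sp d) = y := by
  apply Subtype.ext
  rw [Pn_coe, Hn_inner', zero_smul, sub_zero]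

lemma Pn_self (ν : Sp d) (hν : ‖ν‖ = 1) : Pn ν hν ν = 0 := by
  apply Subtype.ext
  rw [Pn_coe, real_inner_self_eq_norm_sq, hν]
  simp

lemma Pn_tang' (ν : Sp d) (hν : ‖ν‖ = 1) (x : Sp d) : Pn ν hν (tang ν x) = Pn ν hν x := by
  rw [← Pn_tang ν hν x, Pn_of_mem]

/-- the frame of the hyperplane -/
def fr (ν : Sp d) (hν : ‖ν‖ = 1) (k : Fin d) : Hn ν := Pn ν hν (EuclideanSpace.single k (1 : ℝ))

lemma sum_single (x : Sp d) : ∑ k, x k • (EuclideanSpace.single k (1 : ℝ) : Sp d) = x := by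
  ext j
  simp [Finset.sum_apply, Pi.single_apply]

lemma fr_frame (ν : Sp d) (hν : ‖ν‖ = 1) (y : Hn ν) : ∑ k, ⟪y, fr ν hν k⟫_ℝ • fr ν hν k = y := by
  have h1 : ∀ k, ⟪y, fr ν hν k⟫_ℝ = (y : Sp d) k := by
    intro k
    rw [Submodule.coe_inner]
    unfold fr
    rw [Pn_coe, inner_sub_right, real_inner_smul_right, Hn_inner, mul_zero, sub_zero]
    simp [PiLp.inner_apply]
  simp_rw [h1]
  have h2 : ∑ k, (y : Sp d) k • fr ν hν k = Pn ν hν (∑ k, (y : Sp d) k • (EuclideanSpace.single k (1 : ℝ) : Sp d)) := by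
    rw [map_sum]
    simp only [map_smul]
    rfl
  rw [h2, sum_single, Pn_of_mem]

lemma dd_dd (u : Sp d) (g : Cs d) (x : Sp d) :
    (dd u (dd u g)).f x = fderiv ℝ (fderiv ℝ g.f) x u u := by
  have h1 := itD_apply (fun _ : Fin 2 => u) g x
  rw [iteratedFDeriv_two_apply] at h1
  rw [← h1]
  unfold itD
  simp [List.ofFn_succ]

lemma QQ_plane (ν : Sp d) (hν : ‖ν‖ = 1) (g : Cs d) :
    (QQ (Sn ν) (fr ν hν) g).f = opNu ν g.f := by
  funext x
  rw [QQ_apply]
  unfold opNu lap d2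
  simp_rw [dd_dd, iteratedFDeriv_two_apply]
  set D := fderiv ℝ (fderiv ℝ g.f) x with hD
  have h1 : ∀ k, D (Sn ν (fr ν hν k)) (Sn ν (fr ν hν k)) =
      D (EuclideanSpace.single k (1 : ℝ)) (EuclideanSpace.single k (1 : ℝ))
      - ν k * D (EuclideanSpace.single k (1 : ℝ)) ν - ν k * D ν (EuclideanSpace.single k (1 : ℝ))
      + ν k * ν k * D ν ν := by
    intro k
    have e1 : Sn ν (fr ν hν k) = EuclideanSpace.single k (1 : ℝ) - ν k • ν := by
      rw [Sn_apply]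
      unfold fr
      rw [Pn_coe]
      simp [PiLp.inner_apply]
    rw [e1]
    simp only [map_sub, map_smul, sub_apply, smul_apply, smul_eq_mul]
    ring
  simp_rw [h1]
  rw [Finset.sum_add_distrib, Finset.sum_sub_distrib, Finset.sum_sub_distrib]
  have h2 : ∑ k, ν k * D (EuclideanSpace.single k (1 : ℝ)) ν = D ν ν := by
    have : D ν ν = D (∑ k, ν k • (EuclideanSpace.single k (1 : ℝ) : Sp d)) ν := by rw [sum_single]
    rw [this, map_sum]
    simp only [map_smul, sum_apply, smul_apply, smul_eq_mul]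
  have h3 : ∑ k, ν k * D ν (EuclideanSpace.single k (1 : ℝ)) = D ν ν := by
    have : D ν ν = D ν (∑ k, ν k • (EuclideanSpace.single k (1 : ℝ) : Sp d)) := by rw [sum_single]
    rw [this, map_sum]
    simp only [map_smul, smul_eq_mul]
  have h4 : ∑ k, ν k * ν k * D ν ν = D ν ν := by
    rw [← Finset.sum_mul]
    have : ∑ k, ν k * ν k = 1 := by
      have h5 : ‖ν‖ ^ 2 = 1 := by rw [hν]; norm_num
      rw [EuclideanSpace.norm_sq_eq] at h5
      rw [← h5]
      apply Finset.sum_congr rfl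
      intro k _
      rw [Real.norm_eq_abs, sq_abs]; ring
    rw [this, one_mul]
  rw [h2, h3, h4]
  ring

/-! ### the plane formula -/

section PF

variable {ν : Sp d} {φ B : Hn ν → ℝ}

lemma norm_ge (hν : ‖ν‖ = 1) (c : ℝ) (z : Hn ν) : ‖z‖ ≤ ‖c • ν + (z : Sp d)‖ := by
  have h1 : Pn ν hν (c • ν + (z : Sp d)) = z := by
    rw [map_add, map_smul, Pn_self, smul_zero, zero_add, Pn_of_mem]
  have h2 : ‖c • ν + (z : Sp d)‖ ^ 2 = ‖c • ν‖ ^ 2 + ‖(z : Sp d)‖ ^ 2 := by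
    rw [@norm_add_sq_real, real_inner_smul_left, Hn_inner']
    ring
  have h3 : ‖z‖ = ‖(z : Sp d)‖ := rfl
  rw [h3]
  apply le_of_sq_le_sq _ (norm_nonneg _)
  rw [h2]
  have := sq_nonneg ‖c • ν‖
  linarith

lemma EE_plane (hν : ‖ν‖ = 1) (hR : Rdl φ B) (T : ℝ) (hT : 0 < T) (g : Cs d) (x : Sp d) :
    (EE hR (Sn ν) T g).f x = 1 / T ^ (Module.finrank ℝ (Hn ν)) *
      ∫ z : Hn ν, φ ((1 / T) • (z - Pn ν hν x)) * g.f (⟪ν, x⟫_ℝ • ν + (z : Sp d)) := by
  rw [EE_apply]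
  set G : Hn ν → ℝ := fun z => φ ((1 / T) • (z - Pn ν hν x)) * g.f (⟪ν, x⟫_ℝ • ν + (z : Sp d)) with hG
  have h1 : ∀ y : Hn ν, φ y * g.f (x + T • Sn ν y) = (fun z => G (Pn ν hν x + z)) (T • y) := by
    intro y
    change _ = φ ((1 / T) • (Pn ν hν x + T • y - Pn ν hν x)) *
      g.f (⟪ν, x⟫_ℝ • ν + ((Pn ν hν x + T • y : Hn ν) : Sp d))
    rw [add_sub_cancel_left, smul_smul, one_div, inv_mul_cancel₀ hT.ne', one_smul]
    congr 2
    rw [Submodule.coe_add, Pn_coe, Submodule.coe_smul, Sn_apply]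
    abel
  simp_rw [h1]
  have h2 := Measure.integral_comp_smul (volume : Measure (Hn ν)) (fun z => G (Pn ν hν x + z)) T
  rw [integral_add_left_eq_self G] at h2
  refine h2.trans ?_
  rw [abs_of_nonneg (by positivity), smul_eq_mul, one_div]

lemma plane_bound (hν : ‖ν‖ = 1) (R0 : ℝ) {W : Hn ν → ℝ} {M : ℝ} (hM : 0 ≤ M)
    (hW : ∀ z, ‖z‖ < R0 → |W z| ≤ M)
    {g : Sp d → ℝ} {N : ℝ} (hg : ∀ y, R0 ≤ ‖y‖ → g y = 0) (hN : ∀ y, |g y| ≤ N) (c : ℝ) :
    |∫ z : Hn ν, W z * g (c • ν + (z : Sp d))| ≤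
      M * N * (volume (closedBall (0 : Hn ν) R0)).toReal := by
  have hz : ∀ z : Hn ν, z ∉ closedBall (0 : Hn ν) R0 → W z * g (c • ν + (z : Sp d)) = 0 := by
    intro z hz
    rw [mem_closedBall, dist_zero_right, not_le] at hz
    rw [hg _ (hz.le.trans (norm_ge hν c z)), mul_zero]
  rw [← setIntegral_eq_integral_of_forall_compl_eq_zero hz, ← Real.norm_eq_abs]
  refine norm_setIntegral_le_of_norm_le_const (C := M * N) measure_closedBall_lt_top (fun z _ => ?_)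
  rw [norm_mul, Real.norm_eq_abs, Real.norm_eq_abs]
  by_cases h1 : ‖z‖ < R0
  · exact mul_le_mul (hW z h1) (hN _) (abs_nonneg _) hM
  · rw [not_lt] at h1
    rw [hg _ (h1.trans (norm_ge hν c z)), abs_zero, mul_zero]
    exact mul_nonneg hM ((abs_nonneg _).trans (hN 0))

lemma plane_int (hν : ‖ν‖ = 1) (R0 : ℝ) {W : Hn ν → ℝ} (hW : Continuous W)
    {g : Sp d → ℝ} (hgc : Continuous g) (hg : ∀ y, R0 ≤ ‖y‖ → g y = 0) (c : ℝ) :
    Integrable (fun z : Hn ν => W z * g (c • ν + (z : Sp d))) := by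
  apply Continuous.integrable_of_hasCompactSupport
  · exact hW.mul (hgc.comp (by fun_prop))
  · apply HasCompactSupport.intro (isCompact_closedBall (0 : Hn ν) R0)
    intro z hz
    rw [mem_closedBall, dist_zero_right, not_le] at hz
    rw [hg _ (hz.le.trans (norm_ge hν c z)), mul_zero]

lemma Rdl.lip (hR : Rdl φ B) : ∃ Λ : ℝ, 0 ≤ Λ ∧ ∀ a b, |φ a - φ b| ≤ Λ * ‖a - b‖ := by
  obtain ⟨C, hC⟩ := hR.smooth.lipschitzWith_of_hasCompactSupport (cs_of_supp hR.supp) (by simp)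
  refine ⟨C, C.2, fun a b => ?_⟩
  have := hC.dist_le_mul a b
  rw [Real.dist_eq, dist_eq_norm] at this
  exact this

/-- Lipschitz bound along the hyperplane -/
lemma EE_lip (hν : ‖ν‖ = 1) (hR : Rdl φ B) (R0 : ℝ) : ∃ C : ℝ, 0 ≤ C ∧ ∀ T : ℝ, 0 < T →
    ∀ (g : Cs d) (N : ℝ), (∀ y, R0 ≤ ‖y‖ → g.f y = 0) → (∀ y, |g.f y| ≤ N) →
    ∀ (x : Sp d) (h : Hn ν), |(EE hR (Sn ν) T g).f (x + h) - (EE hR (Sn ν) T g).f x| ≤
      C / T ^ (Module.finrank ℝ (Hn ν) + 1) * ‖h‖ * N := by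
  obtain ⟨Λ, hΛ0, hΛ⟩ := hR.lip
  refine ⟨Λ * (volume (closedBall (0 : Hn ν) R0)).toReal,
    mul_nonneg hΛ0 ENNReal.toReal_nonneg, fun T hT g N hg hN x h => ?_⟩
  set p := Module.finrank ℝ (Hn ν) with hp
  have e1 : ⟪ν, x + (h : Sp d)⟫_ℝ = ⟪ν, x⟫_ℝ := by rw [inner_add_right, Hn_inner', add_zero]
  have e2 : Pn ν hν (x + (h : Sp d)) = Pn ν hν x + h := by rw [map_add, Pn_of_mem]
  have hc1 : Continuous (fun z : Hn ν => φ ((1 / T) • (z - (Pn ν hν x + h)))) :=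
    hR.smooth.continuous.comp (by fun_prop)
  have hc2 : Continuous (fun z : Hn ν => φ ((1 / T) • (z - Pn ν hν x))) :=
    hR.smooth.continuous.comp (by fun_prop)
  rw [EE_plane hν hR T hT, EE_plane hν hR T hT, e1, e2, ← mul_sub,
    ← integral_sub (plane_int hν R0 hc1 g.cont hg _) (plane_int hν R0 hc2 g.cont hg _)]
  have h1 : ∀ z : Hn ν, φ ((1 / T) • (z - (Pn ν hν x + h))) * g.f (⟪ν, x⟫_ℝ • ν + (z : Sp d)) -
      φ ((1 / T) • (z - Pn ν hν x)) * g.f (⟪ν, x⟫_ℝ • ν + (z : Sp d)) =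
      (φ ((1 / T) • (z - (Pn ν hν x + h))) - φ ((1 / T) • (z - Pn ν hν x))) *
        g.f (⟪ν, x⟫_ℝ • ν + (z : Sp d)) := fun z => by ring
  simp_rw [h1]
  have h2 := plane_bound hν R0 (W := fun z => φ ((1 / T) • (z - (Pn ν hν x + h))) -
    φ ((1 / T) • (z - Pn ν hν x))) (M := Λ * (‖h‖ / T)) (by positivity) (fun z _ => by
      refine (hΛ _ _).trans ?_
      apply mul_le_mul_of_nonneg_left _ hΛ0
      rw [← smul_sub]
      have : z - (Pn ν hν x + h) - (z - Pn ν hν x) = -h := by abel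
      rw [this, norm_smul, norm_neg, Real.norm_eq_abs, abs_of_pos (by positivity)]
      apply le_of_eq
      ring) hg hN ⟪ν, x⟫_ℝ
  rw [abs_mul, abs_of_nonneg (by positivity : 0 ≤ 1 / T ^ p)]
  refine (mul_le_mul_of_nonneg_left h2 (by positivity)).trans (le_of_eq ?_)
  rw [pow_succ]
  field_simp

/-- E(T) E(T') - E(T') is small for T much smaller than T' -/
lemma EE_self (hν : ‖ν‖ = 1) (hR : Rdl φ B) (R0 : ℝ) : ∃ C : ℝ, 0 ≤ C ∧ ∀ T T' : ℝ, 0 < T → 0 < T' →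
    SmO R0 (C * T / T' ^ (Module.finrank ℝ (Hn ν) + 1))
      (EE hR (Sn ν) T * EE hR (Sn ν) T' - EE hR (Sn ν) T') := by
  obtain ⟨C, hC0, hC⟩ := EE_lip hν hR R0
  refine ⟨C, hC0, fun T T' hT hT' g N hg hN x => ?_⟩
  have hN0 : 0 ≤ N := (abs_nonneg _).trans (hN 0)
  set F := EE hR (Sn ν) T' g with hF
  have h0 : ((EE hR (Sn ν) T * EE hR (Sn ν) T' - EE hR (Sn ν) T') g).f x =
      (EE hR (Sn ν) T F).f x - F.f x := rfl
  have hφc := hR.smooth.continuous
  have hφcs : HasCompactSupport φ := cs_of_supp hR.supp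
  have hi1 : Integrable (fun y : Hn ν => φ y * F.f (x + T • Sn ν y)) :=
    (hφc.mul (F.cont.comp (by fun_prop))).integrable_of_hasCompactSupport hφcs.mul_right
  have hi0 : Integrable φ := hφc.integrable_of_hasCompactSupport hφcs
  have hi2 : Integrable (fun y : Hn ν => φ y * F.f x) := hi0.mul_const _
  have h1 : F.f x = ∫ y : Hn ν, φ y * F.f x := by rw [integral_mul_const, hR.int, one_mul]
  rw [h0, EE_apply]
  conv_lhs => rw [h1]
  rw [← integral_sub hi1 hi2, ← Real.norm_eq_abs]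
  refine (norm_integral_le_integral_norm _).trans ?_
  have h2 : C * T / T' ^ (Module.finrank ℝ (Hn ν) + 1) * N =
      ∫ y : Hn ν, φ y * (C * T / T' ^ (Module.finrank ℝ (Hn ν) + 1) * N) := by
    rw [integral_mul_const, hR.int, one_mul]
  rw [h2]
  apply integral_mono_of_nonneg (Filter.Eventually.of_forall (fun _ => norm_nonneg _))
    (hi0.mul_const _)
  refine Filter.Eventually.of_forall (fun y => ?_)
  change ‖φ y * F.f (x + T • Sn ν y) - φ y * F.f x‖ ≤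
    φ y * (C * T / T' ^ (Module.finrank ℝ (Hn ν) + 1) * N)
  rw [← mul_sub, norm_mul, Real.norm_eq_abs, abs_of_nonneg (hR.nonneg y), Real.norm_eq_abs]
  by_cases hy : 1 ≤ ‖y‖
  · rw [hR.supp y hy]; simp
  · push Not at hy
    apply mul_le_mul_of_nonneg_left _ (hR.nonneg y)
    have h3 := hC T' hT' g N hg hN x (T • y)
    have h4 : T • Sn ν y = ((T • y : Hn ν) : Sp d) := rfl
    rw [h4]
    refine h3.trans ?_
    have h5 : ‖T • y‖ ≤ T := by
      rw [norm_smul, Real.norm_eq_abs, abs_of_pos hT]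
      nlinarith only [hT, hy]
    calc C / T' ^ (Module.finrank ℝ (Hn ν) + 1) * ‖T • y‖ * N
        ≤ C / T' ^ (Module.finrank ℝ (Hn ν) + 1) * T * N := by
          apply mul_le_mul_of_nonneg_right _ hN0
          exact mul_le_mul_of_nonneg_left h5 (by positivity)
      _ = C * T / T' ^ (Module.finrank ℝ (Hn ν) + 1) * N := by ring

/-- E(T) of functions supported in a ball lives in a slab -/
lemma EE_slab_supp (hR : Rdl φ B) (hν : ‖ν‖ = 1) (R0 T : ℝ) (g : Cs d)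
    (hg : ∀ y, R0 ≤ ‖y‖ → g.f y = 0) (x : Sp d) (hx : R0 ≤ |⟪x, ν⟫_ℝ|) :
    (EE hR (Sn ν) T g).f x = 0 := by
  rw [EE_apply]
  have h0 : ∀ y : Hn ν, φ y * g.f (x + T • Sn ν y) = 0 := by
    intro y
    rw [hg, mul_zero]
    have h1 : ⟪x + T • Sn ν y, ν⟫_ℝ = ⟪x, ν⟫_ℝ := by
      rw [inner_add_left, real_inner_smul_left, Sn_apply, Hn_inner, mul_zero, add_zero]
    have h2 := abs_real_inner_le_norm (x + T • Sn ν y) ν
    rw [h1, hν, mul_one] at h2
    exact hx.trans h2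
  simp_rw [h0, integral_zero]

end PF

end

end ST
end TG


end

section

/-!
# Structure theorem: comparison of E(T) with plane integrals
-/

open MeasureTheory Metric Set TrI
open scoped InnerProductSpace ContDiff

namespace TG
namespace ST

noncomputable section

variable {d : ℕ}

lemma itD_le {j : ℕ} (m : Fin j → Sp d) (g : Cs d) (x : Sp d) :
    |(itD m g).f x| ≤ ‖iteratedFDeriv ℝ j g.f x‖ * ∏ i, ‖m i‖ := by
  rw [itD_apply, ← Real.norm_eq_abs]
  exact ContinuousMultilinearMap.le_opNorm _ _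

lemma itD_one (h : Sp d) : itD (fun _ : Fin 1 => h) = dd h := by
  unfold itD
  simp [List.ofFn_succ]

lemma itD_two (h h' : Sp d) : itD ![h, h'] = dd h * dd h' := by
  unfold itD
  simp [List.ofFn_succ]

lemma dd_le (h : Sp d) (g : Cs d) (x : Sp d) {N : ℝ} (hN : ‖iteratedFDeriv ℝ 1 g.f x‖ ≤ N) :
    |(dd h g).f x| ≤ N * ‖h‖ := by
  have h1 := itD_le (fun _ : Fin 1 => h) g x
  rw [itD_one] at h1
  simp only [Finset.univ_unique, Finset.prod_const, Finset.card_singleton, pow_one] at h1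
  exact h1.trans (mul_le_mul_of_nonneg_right hN (norm_nonneg _))

lemma dd_dd_le (h h' : Sp d) (g : Cs d) (x : Sp d) {N : ℝ} (hN : ‖iteratedFDeriv ℝ 2 g.f x‖ ≤ N) :
    |(dd h (dd h' g)).f x| ≤ N * ‖h‖ * ‖h'‖ := by
  have h1 := itD_le ![h, h'] g x
  rw [itD_two, Fin.prod_univ_two] at h1
  simp only [Matrix.cons_val_zero, Matrix.cons_val_one] at h1
  have h2 : 0 ≤ ‖h‖ * ‖h'‖ := by positivity
  calc |(dd h (dd h' g)).f x| ≤ ‖iteratedFDeriv ℝ 2 g.f x‖ * (‖h‖ * ‖h'‖) := h1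
    _ ≤ N * (‖h‖ * ‖h'‖) := mul_le_mul_of_nonneg_right hN h2
    _ = _ := by ring

/-- bound of the second derivative by directional derivatives -/
lemma iter2_le (g : Cs d) (x : Sp d) {N : ℝ} (hN : 0 ≤ N)
    (h : ∀ u v : Sp d, |(dd u (dd v g)).f x| ≤ N * ‖u‖ * ‖v‖) : ‖iteratedFDeriv ℝ 2 g.f x‖ ≤ N := by
  apply ContinuousMultilinearMap.opNorm_le_bound hN
  intro m
  have h1 : m = ![m 0, m 1] := by
    funext i
    fin_cases i <;> rfl
  rw [← itD_apply, h1, itD_two, Fin.prod_univ_two]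
  simp only [Matrix.cons_val_zero, Matrix.cons_val_one, Real.norm_eq_abs]
  calc |((dd (m 0) * dd (m 1)) g).f x| ≤ N * ‖m 0‖ * ‖m 1‖ := h _ _
    _ = _ := by ring

/-- multiplication operator -/
def mulC (a : Cs d) : Op d where
  toFun g := ⟨fun x => a.f x * g.f x, a.cd.mul g.cd⟩
  map_add' g g' := by
    apply Cs.ext
    intro x
    change a.f x * (g.f x + g'.f x) = a.f x * g.f x + a.f x * g'.f x
    ring
  map_smul' c g := by
    apply Cs.ext
    intro x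
    change a.f x * (c * g.f x) = c * (a.f x * g.f x)
    ring

lemma mulC_apply (a g : Cs d) (x : Sp d) : (mulC a g).f x = a.f x * g.f x := rfl

lemma dd_mulC (a g : Cs d) (h : Sp d) :
    dd h (mulC a g) = mulC (dd h a) g + mulC a (dd h g) := by
  apply Cs.ext
  intro x
  change fderiv ℝ (fun x => a.f x * g.f x) x h = fderiv ℝ a.f x h * g.f x + a.f x * fderiv ℝ g.f x h
  rw [fderiv_fun_mul (a.diff x) (g.diff x)]
  simp only [add_apply, smul_apply, smul_eq_mul]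
  ring

lemma dd_add_dir (h h' : Sp d) : (dd (h + h') : Op d) = dd h + dd h' := by
  apply LinearMap.ext
  intro g
  apply Cs.ext
  intro x
  change fderiv ℝ g.f x (h + h') = fderiv ℝ g.f x h + fderiv ℝ g.f x h'
  rw [map_add]

lemma dd_supp {R : ℝ} {g : Cs d} (hg : ∀ y, R ≤ ‖y‖ → g.f y = 0) (h : Sp d) (y : Sp d) (hy : R ≤ ‖y‖) :
    (dd h g).f y = 0 := by
  -- g vanishes on the complement of the open ball; by continuity of the derivative it suffices
  -- to look at points of the exterior; at boundary points use a limit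
  by_contra hne
  have hcont := (dd h g).cont
  have h1 : ∀ z, R < ‖z‖ → (dd h g).f z = 0 := by
    intro z hz
    have h2 : g.f =ᶠ[nhds z] fun _ => (0 : ℝ) := by
      have h3 : {y : Sp d | R < ‖y‖} ∈ nhds z := (isOpen_lt continuous_const continuous_norm).mem_nhds hz
      filter_upwards [h3] with y hy
      exact hg y (le_of_lt hy)
    rw [dd_apply, h2.fderiv_eq]
    simp
  rcases hy.lt_or_eq with h2 | h2
  · exact hne (h1 y h2)
  · -- boundary point: if R > 0 approach radially, otherwise y = 0 or everything vanishes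
    by_cases hR : 0 < R
    · have h3 : Filter.Tendsto (fun t : ℝ => (1 + t) • y) (nhdsWithin 0 (Ioi 0)) (nhds y) := by
        have : Filter.Tendsto (fun t : ℝ => (1 + t) • y) (nhds 0) (nhds ((1 + 0 : ℝ) • y)) :=
          (Continuous.tendsto (by fun_prop) 0)
        rw [add_zero, one_smul] at this
        exact this.mono_left nhdsWithin_le_nhds
      have h4 := (hcont.tendsto y).comp h3
      have h5 : Filter.Tendsto (fun _ : ℝ => (0 : ℝ)) (nhdsWithin 0 (Ioi 0)) (nhds ((dd h g).f y)) := by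
        apply h4.congr'
        filter_upwards [self_mem_nhdsWithin] with t ht
        change (dd h g).f ((1 + t) • y) = 0
        apply h1
        rw [norm_smul, Real.norm_eq_abs, ← h2, abs_of_pos (by
          have : (0 : ℝ) < t := ht
          linarith)]
        have : (0 : ℝ) < t := ht
        nlinarith
      exact hne (tendsto_nhds_unique h5 tendsto_const_nhds).symm.symm
    · have hz : ∀ z, g.f z = 0 := fun z => hg z ((not_lt.mp hR).trans (norm_nonneg z))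
      apply hne
      rw [dd_apply]
      have : g.f = fun _ => (0 : ℝ) := funext hz
      rw [this]; simp

section PF

variable {ν : Sp d} {φ B : Hn ν → ℝ}

lemma gdP (ν : Sp d) (R0 : ℝ) (hR0 : 0 ≤ R0) : GD (volume : Measure (Hn ν))
    ((closedBall (0 : Hn ν) R0).indicator (fun _ => (1 : ℝ))) (fun y => (y : Sp d)) R0 where
  ρ0 := hR0
  int := by
    rw [integrable_indicator_iff measurableSet_closedBall]
    exact integrableOn_const (ne_of_lt measure_closedBall_lt_top)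
  meas := measurable_subtype_coe
  bd y hy := by
    by_contra hcon
    apply hy
    rw [indicator_of_notMem]
    rw [mem_closedBall, dist_zero_right]
    exact hcon

/-- the plane integral as an operator -/
def PLo (ν : Sp d) (R0 : ℝ) (hR0 : 0 ≤ R0) : Op d where
  toFun g := ⟨fun x => (goOp (gdP ν R0 hR0) g).f (⟪ν, x⟫_ℝ • ν),
    (goOp (gdP ν R0 hR0) g).cd.comp ((contDiff_const.inner ℝ contDiff_id).smul contDiff_const)⟩
  map_add' g g' := by
    apply Cs.ext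
    intro x
    change (goOp (gdP ν R0 hR0) (g + g')).f (⟪ν, x⟫_ℝ • ν) = _
    rw [map_add]
    rfl
  map_smul' c g := by
    apply Cs.ext
    intro x
    change (goOp (gdP ν R0 hR0) (c • g)).f (⟪ν, x⟫_ℝ • ν) = _
    rw [map_smul]
    rfl

lemma PLo_apply (hν : ‖ν‖ = 1) (R0 : ℝ) (hR0 : 0 ≤ R0) {g : Cs d} (hg : ∀ y, R0 ≤ ‖y‖ → g.f y = 0)
    (x : Sp d) : (PLo ν R0 hR0 g).f x = plInt ν ⟪ν, x⟫_ℝ g.f := by
  change ∫ y : Hn ν, (closedBall (0 : Hn ν) R0).indicator (fun _ => (1 : ℝ)) y *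
    g.f (⟪ν, x⟫_ℝ • ν + (y : Sp d)) = ∫ y : Hn ν, g.f (⟪ν, x⟫_ℝ • ν + (y : Sp d))
  congr 1
  funext y
  by_cases hy : y ∈ closedBall (0 : Hn ν) R0
  · rw [indicator_of_mem hy, one_mul]
  · rw [indicator_of_notMem hy, zero_mul]
    rw [mem_closedBall, dist_zero_right, not_le] at hy
    exact (hg _ (hy.le.trans (norm_ge hν _ y))).symm

lemma PLo_dd (R0 : ℝ) (hR0 : 0 ≤ R0) (g : Cs d) (h : Sp d) :
    dd h (PLo ν R0 hR0 g) = PLo ν R0 hR0 (dd (⟪ν, h⟫_ℝ • ν) g) := by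
  apply Cs.ext
  intro x
  have hD := gdP ν R0 hR0
  have h1 : goOp hD (dd (⟪ν, h⟫_ℝ • ν) g) = dd (⟪ν, h⟫_ℝ • ν) (goOp hD g) := by
    have h2 := (goOp_AO hD).comm (⟪ν, h⟫_ℝ • ν)
    have h3 : (goOp hD * dd (⟪ν, h⟫_ℝ • ν)) g = (dd (⟪ν, h⟫_ℝ • ν) * goOp hD) g := by rw [h2.eq]
    exact h3
  change fderiv ℝ (fun x => (goOp hD g).f (⟪ν, x⟫_ℝ • ν)) x h =
    (goOp hD (dd (⟪ν, h⟫_ℝ • ν) g)).f (⟪ν, x⟫_ℝ • ν)
  rw [h1, dd_apply]
  have h2 : HasFDerivAt (fun x : Sp d => ⟪ν, x⟫_ℝ • ν) ((innerSL ℝ ν).smulRight ν) x :=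
    ((innerSL ℝ ν).smulRight ν).hasFDerivAt
  have h3 : HasFDerivAt (goOp hD g).f (fderiv ℝ (goOp hD g).f (⟪ν, x⟫_ℝ • ν)) (⟪ν, x⟫_ℝ • ν) :=
    ((goOp hD g).diff _).hasFDerivAt
  have h4 := (h3.comp x h2).fderiv
  have h5 : (fun x => (goOp hD g).f (⟪ν, x⟫_ℝ • ν)) = (goOp hD g).f ∘ (fun x : Sp d => ⟪ν, x⟫_ℝ • ν) := rfl
  rw [h5, h4]
  rfl

lemma plInt_tang (hν : ‖ν‖ = 1) {R0 : ℝ} {g : Cs d} (hg : ∀ y, R0 ≤ ‖y‖ → g.f y = 0)
    (k : Hn ν) (c : ℝ) : plInt ν c (dd (k : Sp d) g).f = 0 := by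
  set G : Hn ν → ℝ := fun z => g.f (c • ν + (z : Sp d)) with hG
  have hGc : ContDiff ℝ ∞ G := g.cd.comp (contDiff_const.add (Sn ν).contDiff)
  have hGd : ∀ z, fderiv ℝ G z k = (dd (k : Sp d) g).f (c • ν + (z : Sp d)) := by
    intro z
    have h1 : HasFDerivAt (fun z : Hn ν => c • ν + (z : Sp d)) (Sn ν) z :=
      ((Sn ν).hasFDerivAt (x := z)).const_add (c • ν)
    have h3 : HasFDerivAt g.f (fderiv ℝ g.f (c • ν + (z : Sp d))) (c • ν + (z : Sp d)) :=
      (g.diff _).hasFDerivAt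
    have h4 := (h3.comp z h1).fderiv
    have h5 : G = g.f ∘ (fun z : Hn ν => c • ν + (z : Sp d)) := rfl
    rw [h5, h4]
    rfl
  have hcs : ∀ {g' : Cs d}, (∀ y, R0 ≤ ‖y‖ → g'.f y = 0) →
      Integrable (fun z : Hn ν => (1 : ℝ) * g'.f (c • ν + (z : Sp d))) := fun hg' =>
    plane_int hν R0 continuous_const (Cs.cont _) hg' c
  have key := integral_mul_fderiv_eq_neg_fderiv_mul_of_integrable (μ := (volume : Measure (Hn ν)))
      (f := fun _ => (1 : ℝ)) (g := G) (v := k) ?_ ?_ ?_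
      (fun y _ => differentiableAt_const _) (fun y _ => hGc.differentiable (by simp) y)
  · simp only [hGd, one_mul, fderiv_fun_const, Pi.zero_apply, zero_apply, zero_mul,
      integral_zero, neg_zero] at key
    exact key
  · simp
  · simp_rw [hGd]
    exact hcs (fun y hy => dd_supp hg k y hy)
  · exact hcs hg

lemma PLo_dd' (hν : ‖ν‖ = 1) (R0 : ℝ) (hR0 : 0 ≤ R0) {g : Cs d} (hg : ∀ y, R0 ≤ ‖y‖ → g.f y = 0)
    (h : Sp d) : dd h (PLo ν R0 hR0 g) = PLo ν R0 hR0 (dd h g) := by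
  rw [PLo_dd]
  have h1 : h = ((Pn ν hν h : Hn ν) : Sp d) + ⟪ν, h⟫_ℝ • ν := by rw [Pn_coe]; abel
  conv_rhs => rw [h1, dd_add_dir]
  rw [LinearMap.add_apply, map_add]
  have h2 : PLo ν R0 hR0 (dd ((Pn ν hν h : Hn ν) : Sp d) g) = 0 := by
    apply Cs.ext
    intro x
    rw [PLo_apply hν R0 hR0 (fun y hy => dd_supp hg _ y hy), plInt_tang hν hg]
    rfl
  rw [h2, zero_add]

lemma PLo_bound (hν : ‖ν‖ = 1) (R0 : ℝ) (hR0 : 0 ≤ R0) {g : Cs d} (hg : ∀ y, R0 ≤ ‖y‖ → g.f y = 0)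
    {N : ℝ} (hN : ∀ y, |g.f y| ≤ N) (x : Sp d) :
    |(PLo ν R0 hR0 g).f x| ≤ N * (volume (closedBall (0 : Hn ν) R0)).toReal := by
  rw [PLo_apply hν R0 hR0 hg]
  have := plane_bound hν R0 (W := fun _ => 1) (M := 1) zero_le_one (fun z _ => by simp) hg hN ⟪ν, x⟫_ℝ
  simp only [one_mul] at this
  exact this

/-- the plane kernel -/
def kap (hR : Rdl φ B) (hν : ‖ν‖ = 1) (T : ℝ) : Cs d :=
  ⟨fun x => 1 / T ^ (Module.finrank ℝ (Hn ν)) * φ (((1 / T) • Pn ν hν) x),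
    contDiff_const.mul (hR.smooth.comp ((1 / T) • Pn ν hν).contDiff)⟩

lemma kap_apply (hR : Rdl φ B) (hν : ‖ν‖ = 1) (T : ℝ) (x : Sp d) :
    (kap hR hν T).f x = 1 / T ^ (Module.finrank ℝ (Hn ν)) * φ ((1 / T) • Pn ν hν x) := rfl

lemma kap_nonneg (hR : Rdl φ B) (hν : ‖ν‖ = 1) {T : ℝ} (hT : 0 < T) (x : Sp d) :
    0 ≤ (kap hR hν T).f x := by
  rw [kap_apply]
  exact mul_nonneg (by positivity) (hR.nonneg _)

lemma kap_supp (hR : Rdl φ B) (hν : ‖ν‖ = 1) {T : ℝ} (hT : 0 < T) (x : Sp d)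
    (hx : (kap hR hν T).f x ≠ 0) : ‖tang ν x‖ ≤ T := by
  by_contra hcon
  rw [not_le] at hcon
  apply hx
  rw [kap_apply, hR.supp, mul_zero]
  rw [norm_smul, Real.norm_eq_abs, abs_of_pos (by positivity)]
  have h1 : ‖Pn ν hν x‖ = ‖tang ν x‖ := rfl
  rw [h1, one_div, le_inv_mul_iff₀ hT, mul_one]
  exact hcon.le

lemma kap_tang (hR : Rdl φ B) (hν : ‖ν‖ = 1) (T : ℝ) (x : Sp d) :
    (kap hR hν T).f x = (kap hR hν T).f (tang ν x) := by
  rw [kap_apply, kap_apply, Pn_tang']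

lemma kap_bounds (hR : Rdl φ B) (hν : ‖ν‖ = 1) : ∃ C : ℝ, 0 ≤ C ∧ ∀ T : ℝ, 1 ≤ T →
    (∀ x, |(kap hR hν T).f x| ≤ C / T ^ (Module.finrank ℝ (Hn ν))) ∧
    (∀ x, ‖iteratedFDeriv ℝ 1 (kap hR hν T).f x‖ ≤ C / T ^ (Module.finrank ℝ (Hn ν) + 1)) ∧
    (∀ x, ‖iteratedFDeriv ℝ 2 (kap hR hν T).f x‖ ≤ C / T ^ (Module.finrank ℝ (Hn ν) + 1)) ∧
    (∀ j ≤ 2, ∀ x, ‖iteratedFDeriv ℝ j (kap hR hν T).f x‖ ≤ C / T ^ (Module.finrank ℝ (Hn ν))) := by
  set p := Module.finrank ℝ (Hn ν) with hp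
  have hb : ∀ j : ℕ, ∃ M : ℝ, ∀ y, ‖iteratedFDeriv ℝ j φ y‖ ≤ M := by
    intro j
    apply (hR.smooth.continuous_iteratedFDeriv (m := j) (by
      exact_mod_cast le_top)).bounded_above_of_compact_support
    exact (cs_of_supp hR.supp).iteratedFDeriv j
  choose M hM using hb
  have hM0 : ∀ j, 0 ≤ M j := fun j => (norm_nonneg _).trans (hM j 0)
  set P1 : ℝ := max 1 ‖Pn ν hν‖ with hP1
  have hP11 : 1 ≤ P1 := le_max_left _ _
  have hP12 : ‖Pn ν hν‖ ≤ P1 := le_max_right _ _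
  have hgen : ∀ T : ℝ, 1 ≤ T → ∀ j x, ‖iteratedFDeriv ℝ j (kap hR hν T).f x‖ ≤
      M j * P1 ^ j / T ^ (p + j) := by
    intro T hT j x
    have hT0 : 0 < T := lt_of_lt_of_le one_pos hT
    set L : Sp d →L[ℝ] Hn ν := (1 / T) • Pn ν hν with hL
    have hLn : ‖L‖ ≤ P1 / T := by
      apply L.opNorm_le_bound (by positivity)
      intro y
      have e1 : L y = (1 / T) • Pn ν hν y := rfl
      rw [e1, norm_smul, Real.norm_eq_abs, abs_of_pos (by positivity)]
      have e2 := (Pn ν hν).le_opNorm y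
      have e3 : ‖Pn ν hν‖ * ‖y‖ ≤ P1 * ‖y‖ := mul_le_mul_of_nonneg_right hP12 (norm_nonneg _)
      calc 1 / T * ‖Pn ν hν y‖ ≤ 1 / T * (P1 * ‖y‖) :=
            mul_le_mul_of_nonneg_left (e2.trans e3) (by positivity)
        _ = P1 / T * ‖y‖ := by ring
    have h1 : (kap hR hν T).f = fun x => (1 / T ^ p) • (φ ∘ L) x := rfl
    rw [h1, iteratedFDeriv_const_smul_apply' (((hR.smooth.comp L.contDiff).of_le (by
      exact_mod_cast le_top)).contDiffAt), norm_smul,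
      L.iteratedFDeriv_comp_right hR.smooth x (by exact_mod_cast le_top)]
    have h2 := (iteratedFDeriv ℝ j φ (L x)).norm_compContinuousLinearMap_le (fun _ => L)
    rw [Finset.prod_const, Finset.card_univ, Fintype.card_fin] at h2
    rw [Real.norm_eq_abs, abs_of_pos (by positivity)]
    calc 1 / T ^ p * ‖(iteratedFDeriv ℝ j φ (L x)).compContinuousLinearMap fun _ => L‖
        ≤ 1 / T ^ p * (M j * (P1 / T) ^ j) := by
          apply mul_le_mul_of_nonneg_left _ (by positivity)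
          refine h2.trans ?_
          apply mul_le_mul (hM j _) _ (by positivity) (hM0 j)
          exact pow_le_pow_left₀ (norm_nonneg _) hLn j
      _ = M j * P1 ^ j / T ^ (p + j) := by
          rw [div_pow, pow_add]
          field_simp
  refine ⟨M 0 + M 1 * P1 + M 2 * P1 ^ 2, by
    have := hM0 0; have := hM0 1; have := hM0 2; positivity, fun T hT => ?_⟩
  have hT0 : 0 < T := lt_of_lt_of_le one_pos hT
  have hm0 := hM0 0
  have hm1 : 0 ≤ M 1 * P1 := mul_nonneg (hM0 1) (by positivity)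
  have hm2 : 0 ≤ M 2 * P1 ^ 2 := mul_nonneg (hM0 2) (by positivity)
  have e0 : ∀ x, ‖iteratedFDeriv ℝ 0 (kap hR hν T).f x‖ ≤ (M 0 + M 1 * P1 + M 2 * P1 ^ 2) / T ^ p := by
    intro x
    have := hgen T hT 0 x
    rw [pow_zero, mul_one, add_zero] at this
    refine this.trans ?_
    gcongr
    linarith
  have e1 : ∀ x, ‖iteratedFDeriv ℝ 1 (kap hR hν T).f x‖ ≤ (M 0 + M 1 * P1 + M 2 * P1 ^ 2) / T ^ (p + 1) := by
    intro x
    have := hgen T hT 1 x
    rw [pow_one] at this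
    refine this.trans ?_
    gcongr
    linarith
  have e2 : ∀ x, ‖iteratedFDeriv ℝ 2 (kap hR hν T).f x‖ ≤ (M 0 + M 1 * P1 + M 2 * P1 ^ 2) / T ^ (p + 1) := by
    intro x
    have := hgen T hT 2 x
    refine this.trans ?_
    apply div_le_div₀ (by positivity) (by linarith) (by positivity)
    exact pow_le_pow_right₀ hT (by omega)
  have hle : (M 0 + M 1 * P1 + M 2 * P1 ^ 2) / T ^ (p + 1) ≤ (M 0 + M 1 * P1 + M 2 * P1 ^ 2) / T ^ p := by
    apply div_le_div_of_nonneg_left (by positivity) (by positivity)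
    exact pow_le_pow_right₀ hT (by omega)
  refine ⟨fun x => ?_, e1, e2, fun j hj x => ?_⟩
  · have := e0 x
    rw [norm_iteratedFDeriv_zero, Real.norm_eq_abs] at this
    exact this
  · interval_cases j
    · exact e0 x
    · exact (e1 x).trans hle
    · exact (e2 x).trans hle

/-- the difference of E(T) and the plane integral -/
def GG0 (hR : Rdl φ B) (hν : ‖ν‖ = 1) (R0 : ℝ) (hR0 : 0 ≤ R0) (T : ℝ) : Op d :=
  EE hR (Sn ν) T - mulC (kap hR hν T) * PLo ν R0 hR0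

lemma GG0_bound (hR : Rdl φ B) (hν : ‖ν‖ = 1) (R0 : ℝ) (hR0 : 0 ≤ R0) : ∃ C : ℝ, 0 ≤ C ∧
    ∀ T : ℝ, 0 < T → SmO R0 (C / T ^ (Module.finrank ℝ (Hn ν) + 1)) (GG0 hR hν R0 hR0 T) := by
  obtain ⟨Λ, hΛ0, hΛ⟩ := hR.lip
  refine ⟨Λ * R0 * (volume (closedBall (0 : Hn ν) R0)).toReal,
    mul_nonneg (mul_nonneg hΛ0 hR0) ENNReal.toReal_nonneg, fun T hT g N hg hN x => ?_⟩
  have h0 : (GG0 hR hν R0 hR0 T g).f x = (EE hR (Sn ν) T g).f x -
      (kap hR hν T).f x * (PLo ν R0 hR0 g).f x := rfl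
  set p := Module.finrank ℝ (Hn ν) with hp
  rw [h0, EE_plane hν hR T hT, PLo_apply hν R0 hR0 hg, kap_apply]
  have hc1 : Continuous (fun z : Hn ν => φ ((1 / T) • (z - Pn ν hν x))) :=
    hR.smooth.continuous.comp (by fun_prop)
  have h1 : 1 / T ^ p * φ ((1 / T) • Pn ν hν x) * plInt ν ⟪ν, x⟫_ℝ g.f =
      1 / T ^ p * ∫ z : Hn ν, φ ((1 / T) • Pn ν hν x) * g.f (⟪ν, x⟫_ℝ • ν + (z : Sp d)) := by
    rw [integral_const_mul]
    unfold plInt
    ring
  rw [h1, ← mul_sub, ← integral_sub (plane_int hν R0 hc1 g.cont hg _)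
    (plane_int hν R0 continuous_const g.cont hg _)]
  have h2 : ∀ z : Hn ν, φ ((1 / T) • (z - Pn ν hν x)) * g.f (⟪ν, x⟫_ℝ • ν + (z : Sp d)) -
      φ ((1 / T) • Pn ν hν x) * g.f (⟪ν, x⟫_ℝ • ν + (z : Sp d)) =
      (φ ((1 / T) • (z - Pn ν hν x)) - φ ((1 / T) • Pn ν hν x)) *
        g.f (⟪ν, x⟫_ℝ • ν + (z : Sp d)) := fun z => by ring
  simp_rw [h2]
  have h3 := plane_bound hν R0 (W := fun z => φ ((1 / T) • (z - Pn ν hν x)) -
    φ ((1 / T) • Pn ν hν x)) (M := Λ * (R0 / T)) (by positivity) (fun z hz => by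
      rw [← hR.even ((1 / T) • Pn ν hν x)]
      refine (hΛ _ _).trans ?_
      apply mul_le_mul_of_nonneg_left _ hΛ0
      have : (1 / T) • (z - Pn ν hν x) - -((1 / T) • Pn ν hν x) = (1 / T) • z := by
        rw [smul_sub]; abel
      rw [this, norm_smul, Real.norm_eq_abs, abs_of_pos (by positivity), div_mul_eq_mul_div, one_mul]
      gcongr) hg hN ⟪ν, x⟫_ℝ
  rw [abs_mul, abs_of_nonneg (by positivity : 0 ≤ 1 / T ^ p)]
  refine (mul_le_mul_of_nonneg_left h3 (by positivity)).trans (le_of_eq ?_)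
  rw [pow_succ]
  field_simp

lemma GG0_supp (hR : Rdl φ B) (hν : ‖ν‖ = 1) (R0 : ℝ) (hR0 : 0 ≤ R0) {T : ℝ} (hT : 0 < T) {g : Cs d}
    (hg : ∀ y, R0 ≤ ‖y‖ → g.f y = 0) (x : Sp d) (hx : R0 + T ≤ ‖x‖) :
    (GG0 hR hν R0 hR0 T g).f x = 0 := by
  have h0 : (GG0 hR hν R0 hR0 T g).f x = (EE hR (Sn ν) T g).f x -
      (kap hR hν T).f x * (PLo ν R0 hR0 g).f x := rfl
  have h1 : (EE hR (Sn ν) T g).f x = 0 := by
    apply (EE_AO hR (Sn ν) T).supp hg
    have h2 : ‖Sn ν‖ ≤ 1 := Submodule.norm_subtypeL_le _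
    have h3 : |T| * ‖Sn ν‖ ≤ T := by
      rw [abs_of_pos hT]
      nlinarith only [hT, h2]
    linarith
  have h2 : (kap hR hν T).f x * (PLo ν R0 hR0 g).f x = 0 := by
    by_cases hk : (kap hR hν T).f x = 0
    · rw [hk, zero_mul]
    · have h3 := kap_supp hR hν hT x hk
      have h4 : R0 ≤ |⟪ν, x⟫_ℝ| := by
        have h5 : x = tang ν x + ⟪ν, x⟫_ℝ • ν := by unfold tang; abel
        have h6 : ‖x‖ ≤ ‖tang ν x‖ + |⟪ν, x⟫_ℝ| := by
          calc ‖x‖ = ‖tang ν x + ⟪ν, x⟫_ℝ • ν‖ := by rw [← h5]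
            _ ≤ ‖tang ν x‖ + ‖⟪ν, x⟫_ℝ • ν‖ := norm_add_le _ _
            _ = ‖tang ν x‖ + |⟪ν, x⟫_ℝ| := by rw [norm_smul, hν, mul_one, Real.norm_eq_abs]
        linarith
      have h5 : (PLo ν R0 hR0 g).f x = 0 := by
        rw [PLo_apply hν R0 hR0 hg]
        unfold plInt
        have h6 : ∀ y : Hn ν, g.f (⟪ν, x⟫_ℝ • ν + (y : Sp d)) = 0 := by
          intro y
          apply hg
          have h7 := abs_real_inner_le_norm ν (⟪ν, x⟫_ℝ • ν + (y : Sp d))
          rw [inner_add_right, real_inner_smul_right, real_inner_self_eq_norm_sq, hν, Hn_inner'] at h7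
          simp only [one_pow, mul_one, add_zero, one_mul] at h7
          linarith
        simp_rw [h6, integral_zero]
      rw [h5, mul_zero]
  rw [h0, h1, h2, sub_zero]

/-- C² bounds for the difference -/
lemma GG0_C2 (hR : Rdl φ B) (hν : ‖ν‖ = 1) (R0 : ℝ) (hR0 : 0 ≤ R0) : ∃ C : ℝ, 0 ≤ C ∧
    ∀ T : ℝ, 1 ≤ T → ∀ (g : Cs d) (N : ℝ), (∀ y, R0 ≤ ‖y‖ → g.f y = 0) →
      (∀ j ≤ 2, ∀ y, ‖iteratedFDeriv ℝ j g.f y‖ ≤ N) →
      (∀ x, |(GG0 hR hν R0 hR0 T g).f x| ≤ C / T ^ (Module.finrank ℝ (Hn ν) + 1) * N) ∧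
      ∀ x, ‖iteratedFDeriv ℝ 2 (GG0 hR hν R0 hR0 T g).f x‖ ≤
        C / T ^ (Module.finrank ℝ (Hn ν) + 1) * N := by
  obtain ⟨C1, hC10, hC1⟩ := GG0_bound hR hν R0 hR0
  obtain ⟨C2, hC20, hC2⟩ := kap_bounds hR hν
  set V : ℝ := (volume (closedBall (0 : Hn ν) R0)).toReal with hV
  have hV0 : 0 ≤ V := ENNReal.toReal_nonneg
  refine ⟨C1 + 3 * (C2 * V), by positivity, fun T hT g N hg hN => ?_⟩
  have hT0 : 0 < T := lt_of_lt_of_le one_pos hT
  set p := Module.finrank ℝ (Hn ν) with hp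
  have hN0 : 0 ≤ N := (norm_nonneg _).trans (hN 0 (by norm_num) 0)
  have hgN : ∀ y, |g.f y| ≤ N := fun y => by
    have := hN 0 (by norm_num) y
    rwa [norm_iteratedFDeriv_zero, Real.norm_eq_abs] at this
  obtain ⟨_, hk1, hk2, _⟩ := hC2 T hT
  have hcs : 0 ≤ C2 * V := by positivity
  refine ⟨fun x => ?_, fun x => ?_⟩
  · refine (hC1 T hT0 g N hg hgN x).trans ?_
    gcongr
    linarith
  · apply iter2_le _ _ (by positivity)
    intro u v
    have hGf : GG0 hR hν R0 hR0 T g = EE hR (Sn ν) T g - mulC (kap hR hν T) (PLo ν R0 hR0 g) := rfl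
    have hEcomm : ∀ (w : Sp d) (g' : Cs d), dd w (EE hR (Sn ν) T g') = EE hR (Sn ν) T (dd w g') := by
      intro w g'
      have h2 := (EE_AO hR (Sn ν) T).comm w
      have h3 : (dd w * EE hR (Sn ν) T) g' = (EE hR (Sn ν) T * dd w) g' := by rw [h2.eq]
      exact h3
    have hstep : ∀ (w : Sp d) (g' : Cs d), (∀ y, R0 ≤ ‖y‖ → g'.f y = 0) →
        dd w (GG0 hR hν R0 hR0 T g') = GG0 hR hν R0 hR0 T (dd w g') -
          mulC (dd w (kap hR hν T)) (PLo ν R0 hR0 g') := by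
      intro w g' hg'
      have e1 : GG0 hR hν R0 hR0 T g' = EE hR (Sn ν) T g' - mulC (kap hR hν T) (PLo ν R0 hR0 g') := rfl
      have e2 : GG0 hR hν R0 hR0 T (dd w g') =
        EE hR (Sn ν) T (dd w g') - mulC (kap hR hν T) (PLo ν R0 hR0 (dd w g')) := rfl
      rw [e1, e2, map_sub, hEcomm, dd_mulC, PLo_dd' hν R0 hR0 hg']
      abel
    have hv := fun y hy => dd_supp hg v y hy
    rw [hstep v g hg, map_sub, hstep u _ hv, dd_mulC, PLo_dd' hν R0 hR0 hg]
    rw [Cs.sub_apply', Cs.sub_apply', Cs.add_apply', mulC_apply, mulC_apply, mulC_apply]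
    have b1 : |(GG0 hR hν R0 hR0 T (dd u (dd v g))).f x| ≤ C1 / T ^ (p + 1) * (N * ‖u‖ * ‖v‖) := by
      apply hC1 T hT0 _ _ (fun y hy => dd_supp hv u y hy)
      intro y
      exact dd_dd_le u v g y (hN 2 le_rfl y)
    have b2 : |(dd u (kap hR hν T)).f x * (PLo ν R0 hR0 (dd v g)).f x| ≤
        (C2 / T ^ (p + 1) * ‖u‖) * (N * ‖v‖ * V) := by
      rw [abs_mul]
      apply mul_le_mul (dd_le u _ x (hk1 x)) _ (abs_nonneg _) (by positivity)
      apply PLo_bound hν R0 hR0 hv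
      intro y
      exact dd_le v g y (hN 1 (by norm_num) y)
    have b3 : |(dd u (dd v (kap hR hν T))).f x * (PLo ν R0 hR0 g).f x| ≤
        (C2 / T ^ (p + 1) * ‖u‖ * ‖v‖) * (N * V) := by
      rw [abs_mul]
      apply mul_le_mul (dd_dd_le u v _ x (hk2 x)) _ (abs_nonneg _) (by positivity)
      exact PLo_bound hν R0 hR0 hg hgN x
    have b4 : |(dd v (kap hR hν T)).f x * (PLo ν R0 hR0 (dd u g)).f x| ≤
        (C2 / T ^ (p + 1) * ‖v‖) * (N * ‖u‖ * V) := by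
      rw [abs_mul]
      apply mul_le_mul (dd_le v _ x (hk1 x)) _ (abs_nonneg _) (by positivity)
      apply PLo_bound hν R0 hR0 (fun y hy => dd_supp hg u y hy)
      intro y
      exact dd_le u g y (hN 1 (by norm_num) y)
    have habs : ∀ a b c e : ℝ, |a - b - (c + e)| ≤ |a| + |b| + |c| + |e| := by
      intro a b c e
      rw [abs_le]
      constructor
      · have := neg_abs_le a; have := le_abs_self b; have := le_abs_self c; have := le_abs_self e
        linarith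
      · have := le_abs_self a; have := neg_abs_le b; have := neg_abs_le c; have := neg_abs_le e
        linarith
    refine (habs _ _ _ _).trans ?_
    refine (add_le_add (add_le_add (add_le_add b1 b2) b3) b4).trans (le_of_eq ?_)
    ring

end PF

end

end ST
end TG


end

section

/-!
# Structure theorem: the calculus of states and errors
-/

open MeasureTheory Metric Set TrI
open scoped InnerProductSpace ContDiff

namespace TG
namespace ST

noncomputable section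

variable {d : ℕ}

lemma SmO.neg {R0 η : ℝ} {A : Op d} (h : SmO R0 η A) : SmO R0 η (-A) := by
  intro g N hg hN x
  have h1 := h g N hg hN x
  have h2 : ((-A) g).f x = -((A g).f x) := rfl
  rw [h2, abs_neg]
  exact h1

lemma SmO.left {R0 η ρ : ℝ} {A E : Op d} (h : SmO R0 η A) (hE : AO ρ 1 E) : SmO R0 η (E * A) := by
  intro g N hg hN x
  have h1 := hE.bd (A g) x (η * N) (fun y _ => h g N hg hN y)
  rw [one_mul] at h1
  exact h1

/-- sums of localised small operators, measured against the growth ρ^P -/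
inductive Er (R0 P T : ℝ) : ℝ → Op d → Prop
  | zero : Er R0 P T 0 0
  | mk {ρ C η : ℝ} {A : Op d} : 1 ≤ ρ → T ≤ ρ → AO ρ C A → SmO R0 η A → 0 ≤ η →
      Er R0 P T (η * ρ ^ P) A
  | add {κ κ' : ℝ} {A A' : Op d} : Er R0 P T κ A → Er R0 P T κ' A' → Er R0 P T (κ + κ') (A + A')
  | le {κ κ' : ℝ} {A : Op d} : Er R0 P T κ A → κ ≤ κ' → Er R0 P T κ' A

lemma Er.neg {R0 P T κ : ℝ} {A : Op d} (h : Er R0 P T κ A) : Er R0 P T κ (-A) := by
  induction h with
  | zero =>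
    rw [neg_zero]
    exact Er.zero
  | mk h1 h2 h3 h4 h5 => exact Er.mk h1 h2 h3.neg h4.neg h5
  | add _ _ ih1 ih2 =>
    rw [neg_add]
    exact ih1.add ih2
  | le _ h ih => exact ih.le h

lemma Er.sub {R0 P T κ κ' : ℝ} {A A' : Op d} (h : Er R0 P T κ A) (h' : Er R0 P T κ' A') :
    Er R0 P T (κ + κ') (A - A') := by
  rw [sub_eq_add_neg]
  exact h.add h'.neg

lemma Er.anti {R0 P T T' κ : ℝ} {A : Op d} (h : Er R0 P T κ A) (hT : T' ≤ T) : Er R0 P T' κ A := by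
  induction h with
  | zero => exact Er.zero
  | mk h1 h2 h3 h4 h5 => exact Er.mk h1 (hT.trans h2) h3 h4 h5
  | add _ _ ih1 ih2 => exact ih1.add ih2
  | le _ h ih => exact ih.le h

lemma Er.left {R0 P T κ c : ℝ} {A E : Op d} (h : Er R0 P T κ A) (hP : 0 ≤ P) (hc : 0 ≤ c)
    (hE : AO (c * T) 1 E) : Er R0 P T ((1 + c) ^ P * κ) (E * A) := by
  induction h with
  | zero =>
    rw [mul_zero, mul_zero]
    exact Er.zero
  | @mk ρ C η A h1 h2 h3 h4 h5 =>
    have h6 : AO ((1 + c) * ρ) (1 * C) (E * A) := by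
      apply (hE.mul h3).mono _ le_rfl
      nlinarith
    have h7 : 1 ≤ (1 + c) * ρ := by nlinarith
    have h8 : T ≤ (1 + c) * ρ := by nlinarith
    have h9 := Er.mk (P := P) h7 h8 h6 (h4.left hE) h5
    apply h9.le (le_of_eq _)
    rw [Real.mul_rpow (by positivity) (by linarith)]
    ring
  | add _ _ ih1 ih2 =>
    rw [mul_add, mul_add]
    exact ih1.add ih2
  | le _ h ih =>
    apply ih.le
    exact mul_le_mul_of_nonneg_left h (by positivity)

lemma Er.sum {R0 P T : ℝ} {ι : Type} [DecidableEq ι] (S : Finset ι) (κ : ι → ℝ) (A : ι → Op d)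
    (h : ∀ i ∈ S, Er R0 P T (κ i) (A i)) : Er R0 P T (∑ i ∈ S, κ i) (∑ i ∈ S, A i) := by
  induction S using Finset.induction_on with
  | empty => simpa using (Er.zero : Er R0 P T 0 (0 : Op d))
  | insert a S ha ih =>
    rw [Finset.sum_insert ha, Finset.sum_insert ha]
    exact (h a (Finset.mem_insert_self _ _)).add (ih (fun i hi => h i (Finset.mem_insert_of_mem hi)))

/-- evaluation of errors by functionals -/
lemma Er.psi {R0 P T κ : ℝ} {A : Op d} (h : Er R0 P T κ A) : ∃ ρm : ℝ, ∀ (ψ : Cs d →ₗ[ℝ] ℝ)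
    (ζ : Cs d) (Q : ℝ), 0 ≤ Q → (∀ (ρ C η : ℝ) (A' : Op d), 1 ≤ ρ → ρ ≤ ρm → AO ρ C A' →
      SmO R0 η A' → 0 ≤ η → |ψ (A' ζ)| ≤ Q * (η * ρ ^ P)) → |ψ (A ζ)| ≤ Q * κ := by
  induction h with
  | zero =>
    refine ⟨0, fun ψ ζ Q hQ _ => ?_⟩
    simp
  | @mk ρ C η A h1 h2 h3 h4 h5 =>
    exact ⟨ρ, fun ψ ζ Q hQ h => h ρ C η A h1 le_rfl h3 h4 h5⟩
  | @add κ κ' A A' _ _ ih1 ih2 =>
    obtain ⟨ρ1, h1⟩ := ih1
    obtain ⟨ρ2, h2⟩ := ih2
    refine ⟨max ρ1 ρ2, fun ψ ζ Q hQ h => ?_⟩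
    have e1 := h1 ψ ζ Q hQ (fun ρ C η A' a b => h ρ C η A' a (b.trans (le_max_left _ _)))
    have e2 := h2 ψ ζ Q hQ (fun ρ C η A' a b => h ρ C η A' a (b.trans (le_max_right _ _)))
    have e3 : ψ ((A + A') ζ) = ψ (A ζ) + ψ (A' ζ) := by rw [LinearMap.add_apply, map_add]
    rw [e3, mul_add]
    exact (abs_add_le _ _).trans (add_le_add e1 e2)
  | le _ h ih =>
    obtain ⟨ρ1, h1⟩ := ih
    exact ⟨ρ1, fun ψ ζ Q hQ hh => (h1 ψ ζ Q hQ hh).trans (mul_le_mul_of_nonneg_left h hQ)⟩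

/-! ### factors -/

/-- the properties of the averages used in the calculus -/
structure Fam (R0 c C : ℝ) {r q : ℕ} (E : Fin r → ℝ → Op d) (F : Fin q → ℝ → Op d) : Prop where
  c1 : 1 ≤ c
  C0 : 0 ≤ C
  aoE : ∀ i T, 1 ≤ T → AO (c * T) 1 (E i T)
  aoF : ∀ k T, 1 ≤ T → AO (c * T) 1 (F k T)
  smF : ∀ k T, 1 ≤ T → SmO R0 (C / T ^ d) (F k T)
  crE : ∀ i l, i ≠ l → ∀ T T', 1 ≤ T → 1 ≤ T' → SmO R0 (C / (T * T' ^ (d - 1))) (E i T * E l T')
  crF : ∀ k l T T', 1 ≤ T → 1 ≤ T' → SmO R0 (C / (T * T' ^ (d - 1))) (F k T * E l T')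
  self : ∀ i T T', 1 ≤ T → 1 ≤ T' → SmO R0 (C * T / T' ^ d) (E i T * E i T' - E i T')

section Calc

variable {R0 c C γ : ℝ} {r q : ℕ} {E : Fin r → ℝ → Op d} {F : Fin q → ℝ → Op d}

lemma pow1 (hγ : γ ≤ 1 / 16) {T : ℝ} (hT : 1 ≤ T) :
    T ^ ((d : ℝ) - 1 + γ) / T ^ d ≤ T ^ (-(1 / 2) : ℝ) := by
  have hT0 : 0 < T := by linarith
  rw [← Real.rpow_natCast T d, ← Real.rpow_sub hT0]
  apply Real.rpow_le_rpow_of_exponent_le hT
  linarith

lemma pow2 (hd : 1 ≤ d) (hγ0 : 0 < γ) (hγ : γ ≤ 1 / 16) {T T' : ℝ} (hT : 1 ≤ T) (h : T' = T ∨ T' = T ^ 2) :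
    T' ^ ((d : ℝ) - 1 + γ) / (T * T' ^ (d - 1)) ≤ T ^ (-(1 / 2) : ℝ) := by
  have hT0 : 0 < T := by linarith
  have hT'0 : 0 < T' := by rcases h with rfl | rfl <;> positivity
  have h1 : T' ^ (d - 1) = T' ^ ((d : ℝ) - 1) := by
    rw [← Real.rpow_natCast, Nat.cast_sub hd, Nat.cast_one]
  have h2 : T' ^ ((d : ℝ) - 1 + γ) / (T * T' ^ (d - 1)) = T' ^ γ / T := by
    rw [h1, Real.rpow_add hT'0]
    have : T' ^ ((d : ℝ) - 1) ≠ 0 := (Real.rpow_pos_of_pos hT'0 _).ne'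
    field_simp
  have h3 : T' ^ γ ≤ T ^ (2 * γ) := by
    rcases h with rfl | rfl
    · apply Real.rpow_le_rpow_of_exponent_le hT
      linarith
    · rw [← Real.rpow_natCast, ← Real.rpow_mul hT0.le]
      push_cast
      exact le_rfl
  rw [h2]
  calc T' ^ γ / T ≤ T ^ (2 * γ) / T := by gcongr
    _ = T ^ (2 * γ - 1) := by rw [Real.rpow_sub_one hT0.ne']
    _ ≤ T ^ (-(1 / 2) : ℝ) := by
      apply Real.rpow_le_rpow_of_exponent_le hT
      linarith only [hγ]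

lemma pow3 (hγ0 : 0 < γ) (hγ : γ ≤ 1 / 16) {T : ℝ} (hT : 1 ≤ T) :
    T * ((T ^ 2) ^ ((d : ℝ) - 1 + γ) / (T ^ 2) ^ d) ≤ T ^ (-(1 / 2) : ℝ) := by
  have hT0 : 0 < T := by linarith
  have h2 : (T ^ 2) ^ ((d : ℝ) - 1 + γ) / (T ^ 2) ^ d = T ^ (2 * (γ - 1)) := by
    rw [← Real.rpow_natCast (T ^ 2) d, ← Real.rpow_sub (by positivity), ← Real.rpow_natCast T 2,
      ← Real.rpow_mul hT0.le]
    congr 1
    push_cast
    ring
  rw [h2]
  calc T * T ^ (2 * (γ - 1)) = T ^ (1 + 2 * (γ - 1)) := by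
        rw [Real.rpow_add hT0, Real.rpow_one]
    _ ≤ T ^ (-(1 / 2) : ℝ) := by
      apply Real.rpow_le_rpow_of_exponent_le hT
      linarith

lemma P_nonneg (hd : 1 ≤ d) (hγ0 : 0 < γ) : 0 ≤ (d : ℝ) - 1 + γ := by
  have : (1 : ℝ) ≤ d := by exact_mod_cast hd
  linarith

lemma Fam.erF (hF : Fam R0 c C E F) (hd : 1 ≤ d) (hγ0 : 0 < γ) (hγ : γ ≤ 1 / 16) (k : Fin q) {T : ℝ}
    (hT : 1 ≤ T) : Er R0 ((d : ℝ) - 1 + γ) T (C * (2 * c) ^ ((d : ℝ) - 1 + γ) * T ^ (-(1 / 2) : ℝ))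
      (F k T) := by
  have hc := hF.c1
  have hC := hF.C0
  have h1 : 1 ≤ c * T := by nlinarith only [hT, hc]
  have h2 : T ≤ c * T := by nlinarith
  have h3 := Er.mk (P := (d : ℝ) - 1 + γ) h1 h2 (hF.aoF k T hT) (hF.smF k T hT) (by positivity)
  apply h3.le
  have h4 : (c * T) ^ ((d : ℝ) - 1 + γ) = c ^ ((d : ℝ) - 1 + γ) * T ^ ((d : ℝ) - 1 + γ) :=
    Real.mul_rpow (by linarith) (by linarith)
  have h5 : c ^ ((d : ℝ) - 1 + γ) ≤ (2 * c) ^ ((d : ℝ) - 1 + γ) :=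
    Real.rpow_le_rpow (by linarith) (by linarith) (P_nonneg hd hγ0)
  calc C / T ^ d * (c * T) ^ ((d : ℝ) - 1 + γ)
      = C * c ^ ((d : ℝ) - 1 + γ) * (T ^ ((d : ℝ) - 1 + γ) / T ^ d) := by rw [h4]; ring
    _ ≤ C * (2 * c) ^ ((d : ℝ) - 1 + γ) * T ^ (-(1 / 2) : ℝ) := by
      apply mul_le_mul _ (pow1 hγ hT) (by positivity) (by positivity)
      exact mul_le_mul_of_nonneg_left h5 hC

lemma ao_two (hc : 1 ≤ c) {T T' : ℝ} (hT : 1 ≤ T) (h : T' = T ∨ T' = T ^ 2) :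
    1 ≤ 2 * c * T' ∧ T ≤ 2 * c * T' ∧ c * T + c * T' ≤ 2 * c * T' ∧ 1 ≤ T' := by
  have h1 : T ≤ T' := by
    rcases h with rfl | rfl
    · exact le_rfl
    · nlinarith
  refine ⟨by nlinarith, by nlinarith, by nlinarith, by linarith⟩

lemma cross_le (hd : 1 ≤ d) (hγ0 : 0 < γ) (hγ : γ ≤ 1 / 16) (hc : 1 ≤ c) (hC : 0 ≤ C) {T T' : ℝ}
    (hT : 1 ≤ T) (h : T' = T ∨ T' = T ^ 2) :
    C / (T * T' ^ (d - 1)) * (2 * c * T') ^ ((d : ℝ) - 1 + γ) ≤
      C * (2 * c) ^ ((d : ℝ) - 1 + γ) * T ^ (-(1 / 2) : ℝ) := by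
  obtain ⟨_, _, _, hT'⟩ := ao_two hc hT h
  have h4 : (2 * c * T') ^ ((d : ℝ) - 1 + γ) = (2 * c) ^ ((d : ℝ) - 1 + γ) * T' ^ ((d : ℝ) - 1 + γ) :=
    Real.mul_rpow (by linarith) (by linarith)
  calc C / (T * T' ^ (d - 1)) * (2 * c * T') ^ ((d : ℝ) - 1 + γ)
      = C * (2 * c) ^ ((d : ℝ) - 1 + γ) * (T' ^ ((d : ℝ) - 1 + γ) / (T * T' ^ (d - 1))) := by
        rw [h4]; ring
    _ ≤ C * (2 * c) ^ ((d : ℝ) - 1 + γ) * T ^ (-(1 / 2) : ℝ) :=
      mul_le_mul_of_nonneg_left (pow2 hd hγ0 hγ hT h) (by positivity)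

lemma Fam.erCrE (hF : Fam R0 c C E F) (hd : 1 ≤ d) (hγ0 : 0 < γ) (hγ : γ ≤ 1 / 16) {i l : Fin r}
    (hil : i ≠ l) {T T' : ℝ} (hT : 1 ≤ T) (h : T' = T ∨ T' = T ^ 2) :
    Er R0 ((d : ℝ) - 1 + γ) T (C * (2 * c) ^ ((d : ℝ) - 1 + γ) * T ^ (-(1 / 2) : ℝ))
      (E i T * E l T') := by
  have hc := hF.c1
  have hC := hF.C0
  obtain ⟨h1, h2, h3, hT'⟩ := ao_two hc hT h
  have h4 := Er.mk (P := (d : ℝ) - 1 + γ) h1 h2
    (((hF.aoE i T hT).mul (hF.aoE l T' hT')).mono h3 le_rfl) (hF.crE i l hil T T' hT hT') (by positivity)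
  exact h4.le (cross_le hd hγ0 hγ hc hC hT h)

lemma Fam.erCrF (hF : Fam R0 c C E F) (hd : 1 ≤ d) (hγ0 : 0 < γ) (hγ : γ ≤ 1 / 16) (k : Fin q)
    (l : Fin r) {T T' : ℝ} (hT : 1 ≤ T) (h : T' = T ∨ T' = T ^ 2) :
    Er R0 ((d : ℝ) - 1 + γ) T (C * (2 * c) ^ ((d : ℝ) - 1 + γ) * T ^ (-(1 / 2) : ℝ))
      (F k T * E l T') := by
  have hc := hF.c1
  have hC := hF.C0
  obtain ⟨h1, h2, h3, hT'⟩ := ao_two hc hT h
  have h4 := Er.mk (P := (d : ℝ) - 1 + γ) h1 h2
    (((hF.aoF k T hT).mul (hF.aoE l T' hT')).mono h3 le_rfl) (hF.crF k l T T' hT hT') (by positivity)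
  exact h4.le (cross_le hd hγ0 hγ hc hC hT h)

lemma Fam.erSelf (hF : Fam R0 c C E F) (hγ0 : 0 < γ) (hγ : γ ≤ 1 / 16) (i : Fin r)
    {T : ℝ} (hT : 1 ≤ T) :
    Er R0 ((d : ℝ) - 1 + γ) T (C * (2 * c) ^ ((d : ℝ) - 1 + γ) * T ^ (-(1 / 2) : ℝ))
      (E i T * E i (T ^ 2) - E i (T ^ 2)) := by
  have hc := hF.c1
  have hC := hF.C0
  obtain ⟨h1, h2, h3, hT'⟩ := ao_two hc hT (Or.inr rfl : T ^ 2 = T ∨ T ^ 2 = T ^ 2)
  have h30 : c * T ^ 2 ≤ 2 * c * T ^ 2 := by linarith only [h1]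
  have h5 : AO (2 * c * T ^ 2) (1 * 1 + 1) (E i T * E i (T ^ 2) - E i (T ^ 2)) :=
    (((hF.aoE i T hT).mul (hF.aoE i _ hT')).mono h3 le_rfl).sub ((hF.aoE i _ hT').mono h30 le_rfl)
  have h4 := Er.mk (P := (d : ℝ) - 1 + γ) h1 h2 h5 (hF.self i T _ hT hT') (by positivity)
  apply h4.le
  have h6 : (2 * c * T ^ 2) ^ ((d : ℝ) - 1 + γ) =
      (2 * c) ^ ((d : ℝ) - 1 + γ) * (T ^ 2) ^ ((d : ℝ) - 1 + γ) :=
    Real.mul_rpow (by linarith) (by positivity)
  calc C * T / (T ^ 2) ^ d * (2 * c * T ^ 2) ^ ((d : ℝ) - 1 + γ)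
      = C * (2 * c) ^ ((d : ℝ) - 1 + γ) * (T * ((T ^ 2) ^ ((d : ℝ) - 1 + γ) / (T ^ 2) ^ d)) := by
        rw [h6]; ring
    _ ≤ C * (2 * c) ^ ((d : ℝ) - 1 + γ) * T ^ (-(1 / 2) : ℝ) :=
      mul_le_mul_of_nonneg_left (pow3 hγ0 hγ hT) (by positivity)

/-- one non-real factor -/
lemma Fam.stepF (hF : Fam R0 c C E F) (hd : 1 ≤ d) (hγ0 : 0 < γ) (hγ : γ ≤ 1 / 16) :
    ∃ a b : ℝ, 0 ≤ a ∧ 0 ≤ b ∧ ∀ (k : Fin q) (T : ℝ), 1 ≤ T → ∀ s : Fin r → Op d,
      (∀ l, s l = 0 ∨ s l = E l T ∨ s l = E l (T ^ 2)) → ∀ (κ : ℝ) (R : Op d),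
      Er R0 ((d : ℝ) - 1 + γ) T κ R → ∃ R' : Op d,
        Er R0 ((d : ℝ) - 1 + γ) T (a * κ + b * T ^ (-(1 / 2) : ℝ)) R' ∧
        (1 - F k T) * (1 - ∑ l, s l + R) = 1 - ∑ l, s l + R' := by
  have hc := hF.c1
  have hC := hF.C0
  set P := (d : ℝ) - 1 + γ with hP
  have hP0 : 0 ≤ P := P_nonneg hd hγ0
  set b0 : ℝ := C * (2 * c) ^ P with hb0
  have hb00 : 0 ≤ b0 := by positivity
  refine ⟨1 + (1 + c) ^ P, b0 + r * b0, by positivity, by positivity, ?_⟩
  intro k T hT s hs κ R hR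
  have hθ : 0 ≤ T ^ (-(1 / 2) : ℝ) := Real.rpow_nonneg (by linarith) _
  have h1 : ∀ l, Er R0 P T (b0 * T ^ (-(1 / 2) : ℝ)) (F k T * s l) := by
    intro l
    rcases hs l with h | h | h
    · rw [h, mul_zero]
      exact Er.zero.le (by positivity)
    · rw [h]; exact hF.erCrF hd hγ0 hγ k l hT (Or.inl rfl)
    · rw [h]; exact hF.erCrF hd hγ0 hγ k l hT (Or.inr rfl)
  have h2 := Er.sum Finset.univ _ _ (fun l _ => h1 l)
  have h3 := (hR.sub (hR.left hP0 (by linarith) (hF.aoF k T hT))).sub (hF.erF hd hγ0 hγ k hT)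
  refine ⟨R - F k T * R - F k T + ∑ l, F k T * s l, (h3.add h2).le (le_of_eq ?_), ?_⟩
  · rw [Finset.sum_const, Finset.card_univ, Fintype.card_fin, nsmul_eq_mul]
    ring
  · rw [← Finset.mul_sum]
    noncomm_ring

lemma Fam.listF (hF : Fam R0 c C E F) (hd : 1 ≤ d) (hγ0 : 0 < γ) (hγ : γ ≤ 1 / 16)
    (L : List (Fin q)) :
    ∃ a b : ℝ, 0 ≤ a ∧ 0 ≤ b ∧ ∀ (T : ℝ), 1 ≤ T → ∀ s : Fin r → Op d,
      (∀ l, s l = 0 ∨ s l = E l T ∨ s l = E l (T ^ 2)) → ∀ (κ : ℝ) (R : Op d),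
      Er R0 ((d : ℝ) - 1 + γ) T κ R → ∃ R' : Op d,
        Er R0 ((d : ℝ) - 1 + γ) T (a * κ + b * T ^ (-(1 / 2) : ℝ)) R' ∧
        (L.map (fun k => 1 - F k T)).prod * (1 - ∑ l, s l + R) = 1 - ∑ l, s l + R' := by
  induction L with
  | nil =>
    refine ⟨1, 0, zero_le_one, le_rfl, fun T hT s hs κ R hR => ⟨R, hR.le (by simp), by simp⟩⟩
  | cons k L ih =>
    obtain ⟨a, b, ha, hb, h⟩ := ih
    obtain ⟨a1, b1, ha1, hb1, h1⟩ := hF.stepF hd hγ0 hγ
    refine ⟨a1 * a, a1 * b + b1, by positivity, by positivity, fun T hT s hs κ R hR => ?_⟩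
    obtain ⟨R1, hR1, e1⟩ := h T hT s hs κ R hR
    obtain ⟨R2, hR2, e2⟩ := h1 k T hT s hs _ R1 hR1
    refine ⟨R2, hR2.le (le_of_eq (by ring)), ?_⟩
    rw [List.map_cons, List.prod_cons, mul_assoc, e1, e2]

/-- one real factor -/
lemma Fam.stepE (hF : Fam R0 c C E F) (hd : 1 ≤ d) (hγ0 : 0 < γ) (hγ : γ ≤ 1 / 16) :
    ∃ a b : ℝ, 0 ≤ a ∧ 0 ≤ b ∧ ∀ (i : Fin r) (T : ℝ), 1 ≤ T → ∀ s : Fin r → Op d,
      (∀ l, s l = 0 ∨ s l = E l T ∨ s l = E l (T ^ 2)) → (s i = 0 ∨ s i = E i (T ^ 2)) →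
      ∀ (κ : ℝ) (R : Op d),
      Er R0 ((d : ℝ) - 1 + γ) T κ R → ∃ R' : Op d,
        Er R0 ((d : ℝ) - 1 + γ) T (a * κ + b * T ^ (-(1 / 2) : ℝ)) R' ∧
        (1 - E i T) * (1 - ∑ l, s l + R) = 1 - ∑ l, Function.update s i (E i T) l + R' := by
  have hc := hF.c1
  have hC := hF.C0
  set P := (d : ℝ) - 1 + γ with hP
  have hP0 : 0 ≤ P := P_nonneg hd hγ0
  set b0 : ℝ := C * (2 * c) ^ P with hb0
  have hb00 : 0 ≤ b0 := by positivity
  refine ⟨1 + (1 + c) ^ P, b0 + r * b0, by positivity, by positivity, ?_⟩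
  intro i T hT s hs hi κ R hR
  have hθ : 0 ≤ T ^ (-(1 / 2) : ℝ) := Real.rpow_nonneg (by linarith) _
  have h1 : ∀ l ∈ Finset.univ.erase i, Er R0 P T (b0 * T ^ (-(1 / 2) : ℝ)) (E i T * s l) := by
    intro l hl
    have hil : i ≠ l := (Finset.ne_of_mem_erase hl).symm
    rcases hs l with h | h | h
    · rw [h, mul_zero]
      exact Er.zero.le (by positivity)
    · rw [h]; exact hF.erCrE hd hγ0 hγ hil hT (Or.inl rfl)
    · rw [h]; exact hF.erCrE hd hγ0 hγ hil hT (Or.inr rfl)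
  have h2 := Er.sum _ _ _ h1
  have h4 : Er R0 P T (b0 * T ^ (-(1 / 2) : ℝ)) (E i T * s i - s i) := by
    rcases hi with h | h
    · rw [h, mul_zero, sub_zero]
      exact Er.zero.le (by positivity)
    · rw [h]; exact hF.erSelf hγ0 hγ i hT
  have h3 := (hR.sub (hR.left hP0 (by linarith only [hc]) (hF.aoE i T hT)))
  refine ⟨R - E i T * R + (∑ l ∈ Finset.univ.erase i, E i T * s l) + (E i T * s i - s i),
    ((h3.add h2).add h4).le ?_, ?_⟩
  · rw [Finset.sum_const, nsmul_eq_mul]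
    have h5 : ((Finset.univ.erase i).card : ℝ) ≤ r := by
      have := Finset.card_erase_le (s := (Finset.univ : Finset (Fin r))) (a := i)
      rw [Finset.card_univ, Fintype.card_fin] at this
      exact_mod_cast this
    have h6 : ((Finset.univ.erase i).card : ℝ) * (b0 * T ^ (-(1 / 2) : ℝ)) ≤
        r * (b0 * T ^ (-(1 / 2) : ℝ)) := mul_le_mul_of_nonneg_right h5 (by positivity)
    linarith only [h6]
  · have h5 : ∑ l, s l = s i + ∑ l ∈ Finset.univ.erase i, s l :=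
      (Finset.add_sum_erase _ _ (Finset.mem_univ i)).symm
    have h6 : ∑ l, Function.update s i (E i T) l = E i T + ∑ l ∈ Finset.univ.erase i, s l := by
      rw [← Finset.add_sum_erase _ _ (Finset.mem_univ i), Function.update_self]
      congr 1
      apply Finset.sum_congr rfl
      intro l hl
      rw [Function.update_of_ne (Finset.ne_of_mem_erase hl)]
    rw [h5, h6, ← Finset.mul_sum]
    noncomm_ring

lemma Fam.listE (hF : Fam R0 c C E F) (hd : 1 ≤ d) (hγ0 : 0 < γ) (hγ : γ ≤ 1 / 16)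
    (L : List (Fin r)) (hL : L.Nodup) :
    ∃ a b : ℝ, 0 ≤ a ∧ 0 ≤ b ∧ ∀ (T : ℝ), 1 ≤ T → ∀ s : Fin r → Op d,
      (∀ l, s l = 0 ∨ s l = E l (T ^ 2)) → ∀ (κ : ℝ) (R : Op d),
      Er R0 ((d : ℝ) - 1 + γ) T κ R → ∃ R' : Op d,
        Er R0 ((d : ℝ) - 1 + γ) T (a * κ + b * T ^ (-(1 / 2) : ℝ)) R' ∧
        (L.map (fun i => 1 - E i T)).prod * (1 - ∑ l, s l + R) =
          1 - ∑ l, (if l ∈ L then E l T else s l) + R' := by
  induction L with
  | nil =>
    refine ⟨1, 0, zero_le_one, le_rfl, fun T hT s hs κ R hR => ⟨R, hR.le (by simp), by simp⟩⟩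
  | cons i L ih =>
    obtain ⟨hiL, hL'⟩ := List.nodup_cons.mp hL
    obtain ⟨a, b, ha, hb, h⟩ := ih hL'
    obtain ⟨a1, b1, ha1, hb1, h1⟩ := hF.stepE hd hγ0 hγ
    refine ⟨a1 * a, a1 * b + b1, by positivity, by positivity, fun T hT s hs κ R hR => ?_⟩
    obtain ⟨R1, hR1, e1⟩ := h T hT s hs κ R hR
    obtain ⟨R2, hR2, e2⟩ := h1 i T hT (fun l => if l ∈ L then E l T else s l) (fun l => by
      beta_reduce
      by_cases hl : l ∈ L
      · rw [if_pos hl]; exact Or.inr (Or.inl rfl)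
      · rw [if_neg hl]
        rcases hs l with h | h
        · exact Or.inl h
        · exact Or.inr (Or.inr h)) (by
      beta_reduce
      rw [if_neg hiL]
      exact hs i) _ R1 hR1
    refine ⟨R2, hR2.le (le_of_eq (by ring)), ?_⟩
    rw [List.map_cons, List.prod_cons, mul_assoc, e1, e2]
    congr 2
    apply Finset.sum_congr rfl
    intro l _
    by_cases hl : l = i
    · subst hl
      rw [Function.update_self, if_pos List.mem_cons_self]
    · rw [Function.update_of_ne hl]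
      by_cases hl2 : l ∈ L
      · rw [if_pos hl2, if_pos (List.mem_cons_of_mem _ hl2)]
      · rw [if_neg hl2, if_neg (fun hc => by
          rcases List.mem_cons.mp hc with h | h
          · exact hl h
          · exact hl2 h)]

variable (E F) in
/-- one round -/
def XR (T : ℝ) : Op d :=
  ((List.finRange r).map (fun i => 1 - E i T)).prod * ((List.finRange q).map (fun k => 1 - F k T)).prod

variable (E F) in
/-- several rounds -/
def UU (τ : ℝ) : ℕ → ℕ → Op d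
  | _, 0 => 1
  | k, m + 1 => XR E F (τ ^ (2 ^ k)) * UU τ (k + 1) m

lemma Fam.round (hF : Fam R0 c C E F) (hd : 1 ≤ d) (hγ0 : 0 < γ) (hγ : γ ≤ 1 / 16) :
    ∃ a b : ℝ, 0 ≤ a ∧ 0 ≤ b ∧ ∀ (T : ℝ), 1 ≤ T → ∀ s : Fin r → Op d,
      (∀ l, s l = 0 ∨ s l = E l (T ^ 2)) → ∀ (κ : ℝ) (R : Op d),
      Er R0 ((d : ℝ) - 1 + γ) T κ R → ∃ R' : Op d,
        Er R0 ((d : ℝ) - 1 + γ) T (a * κ + b * T ^ (-(1 / 2) : ℝ)) R' ∧
        XR E F T * (1 - ∑ l, s l + R) = 1 - ∑ l, E l T + R' := by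
  obtain ⟨a, b, ha, hb, h⟩ := hF.listF hd hγ0 hγ (List.finRange q)
  obtain ⟨a1, b1, ha1, hb1, h1⟩ := hF.listE hd hγ0 hγ (List.finRange r) (List.nodup_finRange r)
  refine ⟨a1 * a, a1 * b + b1, by positivity, by positivity, fun T hT s hs κ R hR => ?_⟩
  obtain ⟨R1, hR1, e1⟩ := h T hT s (fun l => by
    rcases hs l with h | h
    · exact Or.inl h
    · exact Or.inr (Or.inr h)) κ R hR
  obtain ⟨R2, hR2, e2⟩ := h1 T hT s hs _ R1 hR1
  refine ⟨R2, hR2.le (le_of_eq (by ring)), ?_⟩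
  unfold XR
  rw [mul_assoc, e1, e2]
  congr 2
  apply Finset.sum_congr rfl
  intro l _
  rw [if_pos (List.mem_finRange l)]

theorem Fam.main (hF : Fam R0 c C E F) (hd : 1 ≤ d) (hγ0 : 0 < γ) (hγ : γ ≤ 1 / 16) (m : ℕ) :
    ∀ k : ℕ, ∃ a : ℝ, 0 ≤ a ∧ ∀ τ : ℝ, 1 ≤ τ → ∃ R : Op d,
      Er R0 ((d : ℝ) - 1 + γ) (τ ^ (2 ^ k)) (a * (τ ^ (2 ^ k)) ^ (-(1 / 2) : ℝ)) R ∧
      UU E F τ k (m + 1) = 1 - ∑ l, E l (τ ^ (2 ^ k)) + R := by
  obtain ⟨a1, b1, ha1, hb1, h1⟩ := hF.round hd hγ0 hγ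
  induction m with
  | zero =>
    intro k
    refine ⟨b1, hb1, fun τ hτ => ?_⟩
    have hT : 1 ≤ τ ^ (2 ^ k) := one_le_pow₀ hτ
    obtain ⟨R, hR, e⟩ := h1 (τ ^ (2 ^ k)) hT (fun _ => 0) (fun _ => Or.inl rfl) 0 0 Er.zero
    refine ⟨R, hR.le (by simp), ?_⟩
    have e2 : UU E F τ k (0 + 1) = XR E F (τ ^ (2 ^ k)) * 1 := rfl
    rw [e2, ← e]
    simp
  | succ m ih =>
    intro k
    obtain ⟨a, ha, h⟩ := ih (k + 1)
    refine ⟨a1 * a + b1, by positivity, fun τ hτ => ?_⟩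
    have hT : 1 ≤ τ ^ (2 ^ k) := one_le_pow₀ hτ
    have hT2 : τ ^ (2 ^ (k + 1)) = (τ ^ (2 ^ k)) ^ 2 := by rw [← pow_mul, pow_succ]
    have hle : τ ^ (2 ^ k) ≤ τ ^ (2 ^ (k + 1)) := by rw [hT2]; nlinarith only [hT]
    obtain ⟨R, hR, e⟩ := h τ hτ
    have hθ : (τ ^ (2 ^ (k + 1))) ^ (-(1 / 2) : ℝ) ≤ (τ ^ (2 ^ k)) ^ (-(1 / 2) : ℝ) :=
      Real.rpow_le_rpow_of_nonpos (by positivity) hle (by norm_num)
    have hR' : Er R0 ((d : ℝ) - 1 + γ) (τ ^ (2 ^ k)) (a * (τ ^ (2 ^ k)) ^ (-(1 / 2) : ℝ)) R :=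
      (hR.anti hle).le (mul_le_mul_of_nonneg_left hθ ha)
    obtain ⟨R', hR1, e1⟩ := h1 (τ ^ (2 ^ k)) hT (fun l => E l ((τ ^ (2 ^ k)) ^ 2)) (fun _ => Or.inr rfl) _ R hR'
    refine ⟨R', hR1.le (le_of_eq (by ring)), ?_⟩
    have e2 : UU E F τ k (m + 1 + 1) = XR E F (τ ^ (2 ^ k)) * UU E F τ (k + 1) (m + 1) := rfl
    rw [e2, e, hT2, e1]

end Calc

/-! ### the factorisation -/

lemma AO.comm_QQ {H : Type} [NormedAddCommGroup H] [InnerProductSpace ℝ H] {ρ C : ℝ} {A : Op d}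
    (hA : AO ρ C A) (S : H →L[ℝ] Sp d) (hf : Fin d → H) : Commute A (QQ S hf) := by
  unfold QQ
  apply Commute.sum_right
  intro k _
  exact (hA.comm _).mul_right (hA.comm _)

/-- operators which commute with all averages -/
def DP (B : Op d) : Prop := ∀ (ρ C : ℝ) (A : Op d), AO ρ C A → Commute A B

lemma DP.one : DP (1 : Op d) := fun _ _ _ _ => Commute.one_right _

lemma DP.mul {B B' : Op d} (h : DP B) (h' : DP B') : DP (B * B') :=
  fun ρ C A hA => (h ρ C A hA).mul_right (h' ρ C A hA)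

lemma DP.pow {B : Op d} (h : DP B) (n : ℕ) : DP (B ^ n) :=
  fun ρ C A hA => (h ρ C A hA).pow_right n

lemma list_factor {ι : Type} (Q K : ι → Op d) (hQ : ∀ i, DP (Q i)) (hK : ∀ i, ∃ ρ C, AO ρ C (K i))
    (L : List ι) : DP (L.map Q).prod ∧ ∃ (ρ C : ℝ) (K' : Op d), AO ρ C K' ∧
      (L.map (fun i => Q i * K i)).prod = (L.map Q).prod * K' := by
  induction L with
  | nil => exact ⟨DP.one, 0, 1, 1, AO.one, by simp⟩
  | cons i L ih =>
    obtain ⟨hD, ρ, C, K', hK', e⟩ := ih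
    obtain ⟨ρ1, C1, hK1⟩ := hK i
    refine ⟨?_, ρ1 + ρ, C1 * C, K i * K', hK1.mul hK', ?_⟩
    · rw [List.map_cons, List.prod_cons]
      exact (hQ i).mul hD
    · rw [List.map_cons, List.prod_cons, List.map_cons, List.prod_cons, e]
      have h1 : K i * (L.map Q).prod = (L.map Q).prod * K i := (hD ρ1 C1 _ hK1).eq
      calc Q i * K i * ((L.map Q).prod * K') = Q i * (K i * (L.map Q).prod) * K' := by
            simp only [mul_assoc]
        _ = Q i * ((L.map Q).prod * K i) * K' := by rw [h1]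
        _ = Q i * (L.map Q).prod * (K i * K') := by simp only [mul_assoc]

theorem UU_factor {r q : ℕ} {E : Fin r → ℝ → Op d} {F : Fin q → ℝ → Op d} (QE : Fin r → Op d)
    (QF : Fin q → Op d) (hQE : ∀ i, DP (QE i)) (hQF : ∀ i, DP (QF i))
    (hE : ∀ i T, 1 ≤ T → ∃ (ρ C : ℝ) (K : Op d), AO ρ C K ∧ 1 - E i T = QE i * K)
    (hF : ∀ i T, 1 ≤ T → ∃ (ρ C : ℝ) (K : Op d), AO ρ C K ∧ 1 - F i T = QF i * K)
    (τ : ℝ) (hτ : 1 ≤ τ) (m : ℕ) : ∀ k, ∃ (ρ C : ℝ) (K : Op d), AO ρ C K ∧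
      UU E F τ k m = (((List.finRange r).map QE).prod * ((List.finRange q).map QF).prod) ^ m * K := by
  set Pt := ((List.finRange r).map QE).prod * ((List.finRange q).map QF).prod with hPt
  have hX : ∀ T, 1 ≤ T → DP Pt ∧ ∃ (ρ C : ℝ) (K : Op d), AO ρ C K ∧ XR E F T = Pt * K := by
    intro T hT
    choose ρ1 C1 K1 hK1 e1 using fun i => hE i T hT
    choose ρ2 C2 K2 hK2 e2 using fun i => hF i T hT
    obtain ⟨hD1, r1, c1, k1, hk1, f1⟩ := list_factor QE K1 hQE (fun i => ⟨_, _, hK1 i⟩) (List.finRange r)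
    obtain ⟨hD2, r2, c2, k2, hk2, f2⟩ := list_factor QF K2 hQF (fun i => ⟨_, _, hK2 i⟩) (List.finRange q)
    refine ⟨hD1.mul hD2, r1 + r2, c1 * c2, k1 * k2, hk1.mul hk2, ?_⟩
    unfold XR
    have g1 : (fun i => 1 - E i T) = fun i => QE i * K1 i := funext e1
    have g2 : (fun i => 1 - F i T) = fun i => QF i * K2 i := funext e2
    rw [g1, g2, f1, f2, hPt]
    have h1 := (hD2 _ _ _ hk1).eq
    calc ((List.finRange r).map QE).prod * k1 * (((List.finRange q).map QF).prod * k2)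
        = ((List.finRange r).map QE).prod * (k1 * ((List.finRange q).map QF).prod) * k2 := by
          simp only [mul_assoc]
      _ = ((List.finRange r).map QE).prod * (((List.finRange q).map QF).prod * k1) * k2 := by rw [h1]
      _ = _ := by simp only [mul_assoc]
  induction m with
  | zero => exact fun k => ⟨0, 1, 1, AO.one, by simp [UU]⟩
  | succ m ih =>
    intro k
    obtain ⟨ρ, C, K, hK, e⟩ := ih (k + 1)
    obtain ⟨hD, ρ1, C1, K1, hK1, e1⟩ := hX (τ ^ (2 ^ k)) (one_le_pow₀ hτ)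
    refine ⟨ρ1 + ρ, C1 * C, K1 * K, hK1.mul hK, ?_⟩
    have e2 : UU E F τ k (m + 1) = XR E F (τ ^ (2 ^ k)) * UU E F τ (k + 1) m := rfl
    have h1 := ((hD.pow m) _ _ _ hK1).eq
    rw [e2, e, e1]
    calc Pt * K1 * (Pt ^ m * K) = Pt * (K1 * Pt ^ m) * K := by simp only [mul_assoc]
      _ = Pt * (Pt ^ m * K1) * K := by rw [h1]
      _ = Pt ^ (m + 1) * (K1 * K) := by rw [pow_succ']; simp only [mul_assoc]

end

end ST
end TG


end

section

/-!
# Structure theorem: the factors of a chart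
-/

open MeasureTheory Metric Set TrI
open scoped InnerProductSpace ContDiff

namespace TG
namespace ST

noncomputable section

variable {d : ℕ}

lemma SmO.mono {R0 η η' : ℝ} {A : Op d} (h : SmO R0 η A) (hη : η ≤ η') : SmO R0 η' A := by
  intro g N hg hN x
  have hN0 : 0 ≤ N := (abs_nonneg _).trans (hN 0)
  exact (h g N hg hN x).trans (mul_le_mul_of_nonneg_right hη hN0)

/-- an antilipschitz constant for bijective maps -/
lemma exists_anti (S : Sp d →L[ℝ] Sp d) (hS : Function.Bijective S) :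
    ∃ c : ℝ, 0 ≤ c ∧ ∀ y, ‖y‖ ≤ c * ‖S y‖ := by
  let e : Sp d ≃L[ℝ] Sp d := ContinuousLinearEquiv.ofBijective S
    (LinearMap.ker_eq_bot.mpr hS.1) (LinearMap.range_eq_top.mpr hS.2)
  refine ⟨‖(e.symm : Sp d →L[ℝ] Sp d)‖, norm_nonneg _, fun y => ?_⟩
  have h1 : e.symm (S y) = y := e.symm_apply_apply y
  calc ‖y‖ = ‖(e.symm : Sp d →L[ℝ] Sp d) (S y)‖ := by
        rw [ContinuousLinearEquiv.coe_coe, h1]
    _ ≤ _ := ContinuousLinearMap.le_opNorm _ _

lemma Sn_norm (ν : Sp d) : ‖Sn ν‖ ≤ 1 := Submodule.norm_subtypeL_le _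

section Cross

variable {H : Type} [NormedAddCommGroup H] [InnerProductSpace ℝ H] [FiniteDimensional ℝ H]
  [MeasurableSpace H] [BorelSpace H] {φ B : H → ℝ}

/-- crossing estimate -/
lemma cross {ν : Sp d} (hν : ‖ν‖ = 1) {φ' B' : Hn ν → ℝ} (hR' : Rdl φ' B') (hR : Rdl φ B)
    (S : H →L[ℝ] Sp d) (w : H) (hw : ⟪S w, ν⟫_ℝ = 1) (R0 : ℝ) (hR0 : 0 < R0) :
    ∃ C : ℝ, 0 ≤ C ∧ ∀ T T' : ℝ, 1 ≤ T → 1 ≤ T' →
      SmO R0 (C / (T * T' ^ (d - 1))) (EE hR S T * EE hR' (Sn ν) T') := by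
  obtain ⟨C1, hC10, hC1⟩ := EE_sm (d := d) hR' (Sn ν) (c := 1) zero_le_one
    (fun y => by rw [one_mul]; exact le_rfl) R0 hR0.le
  obtain ⟨C2, hC20, hC2⟩ := EE_slab hR S ν w hw R0 hR0
  refine ⟨C2 * C1, by positivity, fun T T' hT hT' g N hg hN x => ?_⟩
  have hT0 : 0 < T := by linarith
  have hT'0 : 0 < T' := by linarith
  have h1 := hC1 T' hT'0 g N hg hN
  rw [Hn_fin ν hν] at h1
  have h2 := hC2 T hT0 (EE hR' (Sn ν) T' g) _
    (fun x hx => EE_slab_supp hR' hν R0 T' g hg x hx) h1 x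
  refine h2.trans (le_of_eq ?_)
  field_simp

end Cross

/-- direction crossing two different hyperplanes -/
lemma exists_cross {ν ν' : Sp d} (hν : ‖ν‖ = 1) (hν' : ‖ν'‖ = 1) (h1 : ν ≠ ν') (h2 : ν ≠ -ν') :
    ∃ w : Hn ν, ⟪Sn ν w, ν'⟫_ℝ = 1 := by
  set p : Hn ν := Pn ν hν ν' with hp
  have h3 : ⟪(p : Sp d), ν'⟫_ℝ = ‖p‖ ^ 2 := by
    have h4 : ν' = (p : Sp d) + ⟪ν, ν'⟫_ℝ • ν := by rw [hp, Pn_coe]; abel
    have h5 : ‖p‖ ^ 2 = ⟪(p : Sp d), (p : Sp d)⟫_ℝ := by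
      rw [real_inner_self_eq_norm_sq]; rfl
    rw [h5]
    conv_lhs => rw [h4]
    rw [inner_add_right, real_inner_smul_right, Hn_inner, mul_zero, add_zero]
  have hp0 : ‖p‖ ≠ 0 := by
    intro h
    have h4 : (p : Sp d) = 0 := by
      have : p = 0 := norm_eq_zero.mp h
      rw [this]; rfl
    have h5 : ν' = ⟪ν, ν'⟫_ℝ • ν := by
      rw [hp, Pn_coe, sub_eq_zero] at h4
      exact h4
    have h6 : |⟪ν, ν'⟫_ℝ| = 1 := by
      have := congrArg norm h5
      rw [norm_smul, hν, hν', mul_one, Real.norm_eq_abs] at this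
      exact this.symm
    rcases abs_eq (zero_le_one) |>.mp h6 with h | h
    · rw [h, one_smul] at h5
      exact h1 h5.symm
    · rw [h, neg_smul, one_smul] at h5
      apply h2
      rw [h5, neg_neg]
  refine ⟨(1 / ‖p‖ ^ 2) • p, ?_⟩
  rw [map_smul, real_inner_smul_left, Sn_apply, h3]
  field_simp

/-- the frame of the whole space -/
def fr1 (k : Fin d) : Sp d := EuclideanSpace.single k (1 : ℝ)

lemma fr1_frame (y : Sp d) : ∑ k, ⟪y, fr1 k⟫_ℝ • fr1 k = y := by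
  have h1 : ∀ k, ⟪y, fr1 k⟫_ℝ = y k := by
    intro k
    unfold fr1
    simp [PiLp.inner_apply]
  simp_rw [h1]
  exact sum_single y

lemma QQ_full (S : Sp d →L[ℝ] Sp d) (g : Cs d) : (QQ S fr1 g).f = qD S g.f := by
  funext x
  rw [QQ_apply]
  unfold qD fr1
  simp_rw [dd_dd, iteratedFDeriv_two_apply]

lemma KK_ao {H : Type} [NormedAddCommGroup H] [InnerProductSpace ℝ H] [FiniteDimensional ℝ H]
    [MeasurableSpace H] [BorelSpace H] {φ B : H → ℝ} (hR : Rdl φ B) (S : H →L[ℝ] Sp d)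
    (hf : Fin d → H) (hfr : ∀ y, ∑ k, ⟪y, hf k⟫_ℝ • hf k = y) (T : ℝ) (hT : 1 ≤ T) :
    ∃ (ρ C : ℝ) (K : Op d), AO ρ C K ∧ 1 - EE hR S T = QQ S hf * K := by
  have h1 := goOp_AO (gdK hR S T)
  have h2 := EE_sub_one hR S hf hfr T (by linarith)
  refine ⟨_, _, -KK hR S T, AO.neg h1, ?_⟩
  have h3 : KK hR S T * QQ S hf = QQ S hf * KK hR S T := (AO.comm_QQ h1 S hf).eq
  rw [mul_neg, ← h3, ← h2]
  abel

/-- the family of averages of a chart -/
theorem exists_fam (hd : 2 ≤ d) {r q : ℕ} (ν : Fin r → Sp d) (S : Fin q → (Sp d →L[ℝ] Sp d))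
    (hν : ∀ i, ‖ν i‖ = 1) (hνd : ∀ i j, i ≠ j → ν i ≠ ν j ∧ ν i ≠ - ν j)
    (hS : ∀ k, Function.Bijective (S k)) (R0 : ℝ) (hR0 : 0 < R0)
    (φ B : ∀ i, Hn (ν i) → ℝ) (hφ : ∀ i, Rdl (φ i) (B i)) :
    ∃ (F : Fin q → ℝ → Op d) (c C : ℝ), Fam R0 c C (fun i => EE (hφ i) (Sn (ν i))) F ∧
      ∀ k T, 1 ≤ T → ∃ (ρ C : ℝ) (K : Op d), AO ρ C K ∧ 1 - F k T = QQ (S k) fr1 * K := by
  have hnt : Nontrivial (Sp d) := by
    apply Module.nontrivial_of_finrank_pos (R := ℝ)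
    rw [finrank_euclideanSpace_fin]
    omega
  obtain ⟨φ0, B0, hR⟩ := exists_Rdl (H := Sp d)
  -- constants
  choose cS hcS0 hcS using fun k => exists_anti (S k) (hS k)
  choose C1 hC10 hC1 using fun k => EE_sm hR (S k) (hcS0 k) (hcS k) R0 hR0.le
  have hcr : ∀ i l, ∃ C : ℝ, 0 ≤ C ∧ (i ≠ l → ∀ T T' : ℝ, 1 ≤ T → 1 ≤ T' →
      SmO R0 (C / (T * T' ^ (d - 1))) (EE (hφ i) (Sn (ν i)) T * EE (hφ l) (Sn (ν l)) T')) := by
    intro i l
    by_cases hil : i = l
    · exact ⟨0, le_rfl, fun h => absurd hil h⟩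
    · obtain ⟨w, hw⟩ := exists_cross (hν i) (hν l) (hνd i l hil).1 (hνd i l hil).2
      obtain ⟨C, h0, h⟩ := cross (hν l) (hφ l) (hφ i) (Sn (ν i)) w hw R0 hR0
      exact ⟨C, h0, fun _ => h⟩
  choose C2 hC20 hC2 using hcr
  have hcf : ∀ k l, ∃ C : ℝ, 0 ≤ C ∧ ∀ T T' : ℝ, 1 ≤ T → 1 ≤ T' →
      SmO R0 (C / (T * T' ^ (d - 1))) (EE hR (S k) T * EE (hφ l) (Sn (ν l)) T') := by
    intro k l
    obtain ⟨w, hw⟩ := (hS k).2 (ν l)
    apply cross (hν l) (hφ l) hR (S k) w _ R0 hR0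
    rw [hw, real_inner_self_eq_norm_sq, hν]
    norm_num
  choose C3 hC30 hC3 using hcf
  choose C4 hC40 hC4 using fun i => EE_self (hν i) (hφ i) R0
  set C : ℝ := (∑ k, C1 k) + (∑ i, ∑ l, C2 i l) + (∑ k, ∑ l, C3 k l) + ∑ i, C4 i with hC
  have s1 : 0 ≤ ∑ k, C1 k := Finset.sum_nonneg (fun k _ => hC10 k)
  have s2 : 0 ≤ ∑ i, ∑ l, C2 i l := Finset.sum_nonneg (fun k _ => Finset.sum_nonneg (fun l _ => hC20 k l))
  have s3 : 0 ≤ ∑ k, ∑ l, C3 k l := Finset.sum_nonneg (fun k _ => Finset.sum_nonneg (fun l _ => hC30 k l))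
  have s4 : 0 ≤ ∑ i, C4 i := Finset.sum_nonneg (fun k _ => hC40 k)
  have b1 : ∀ k, C1 k ≤ C := fun k => by
    have := Finset.single_le_sum (fun k _ => hC10 k) (Finset.mem_univ k)
    rw [hC]; linarith
  have b2 : ∀ i l, C2 i l ≤ C := fun i l => by
    have h1 := Finset.single_le_sum (fun l _ => hC20 i l) (Finset.mem_univ l)
    have h2 := Finset.single_le_sum (f := fun i => ∑ l, C2 i l)
      (fun i _ => Finset.sum_nonneg (fun l _ => hC20 i l)) (Finset.mem_univ i)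
    rw [hC]; linarith
  have b3 : ∀ i l, C3 i l ≤ C := fun i l => by
    have h1 := Finset.single_le_sum (fun l _ => hC30 i l) (Finset.mem_univ l)
    have h2 := Finset.single_le_sum (f := fun i => ∑ l, C3 i l)
      (fun i _ => Finset.sum_nonneg (fun l _ => hC30 i l)) (Finset.mem_univ i)
    rw [hC]; linarith
  have b4 : ∀ k, C4 k ≤ C := fun k => by
    have := Finset.single_le_sum (fun k _ => hC40 k) (Finset.mem_univ k)
    rw [hC]; linarith
  set c : ℝ := 1 + ∑ k, ‖S k‖ with hc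
  have hc1 : 1 ≤ c := by
    have : 0 ≤ ∑ k, ‖S k‖ := Finset.sum_nonneg (fun k _ => norm_nonneg _)
    linarith
  have hcS' : ∀ k, ‖S k‖ ≤ c := fun k => by
    have := Finset.single_le_sum (fun k _ => norm_nonneg (S k)) (Finset.mem_univ k)
    rw [hc]; linarith
  refine ⟨fun k => EE hR (S k), c, C, ?_, ?_⟩
  · refine ⟨hc1, by (clear * - s1 s2 s3 s4; positivity), ?_, ?_, ?_, ?_, ?_, ?_⟩
    · intro i T hT
      apply (EE_AO (hφ i) (Sn (ν i)) T).mono _ le_rfl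
      rw [abs_of_pos (by linarith)]
      have := Sn_norm (ν i)
      nlinarith only [hc1, this, hT]
    · intro k T hT
      apply (EE_AO hR (S k) T).mono _ le_rfl
      rw [abs_of_pos (by linarith), mul_comm]
      exact mul_le_mul_of_nonneg_right (hcS' k) (by linarith)
    · intro k T hT
      have h1 := hC1 k T (by linarith)
      rw [finrank_euclideanSpace_fin] at h1
      apply h1.mono
      exact div_le_div_of_nonneg_right (b1 k) (by positivity)
    · intro i l hil T T' hT hT'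
      apply (hC2 i l hil T T' hT hT').mono
      exact div_le_div_of_nonneg_right (b2 i l) (by positivity)
    · intro k l T T' hT hT'
      apply (hC3 k l T T' hT hT').mono
      exact div_le_div_of_nonneg_right (b3 k l) (by positivity)
    · intro i T T' hT hT'
      have h1 := hC4 i T T' (by linarith) (by linarith)
      rw [Hn_fin (ν i) (hν i)] at h1
      have h2 : d - 1 + 1 = d := by omega
      rw [h2] at h1
      apply h1.mono
      apply div_le_div_of_nonneg_right _ (by positivity)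
      exact mul_le_mul_of_nonneg_right (b4 i) (by linarith)
  · intro k T hT
    exact KK_ao hR (S k) fr1 fr1_frame T hT

/-! ### the composed operator -/

lemma foldr_nu {r : ℕ} (ν : Fin r → Sp d) (hν : ∀ i, ‖ν i‖ = 1) (L : List (Fin r)) (g : Cs d) :
    L.foldr (fun i g => opNu (ν i) g) g.f =
      ((L.map (fun i => QQ (Sn (ν i)) (fr (ν i) (hν i)))).prod g).f := by
  induction L with
  | nil => rfl
  | cons i L ih =>
    rw [List.foldr_cons, ih, List.map_cons, List.prod_cons, ← QQ_plane (ν i) (hν i)]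
    rfl

lemma foldr_S {q : ℕ} (S : Fin q → (Sp d →L[ℝ] Sp d)) (L : List (Fin q)) (g : Cs d) :
    L.foldr (fun i g => qD (S i) g) g.f = ((L.map (fun i => QQ (S i) fr1)).prod g).f := by
  induction L with
  | nil => rfl
  | cons i L ih =>
    rw [List.foldr_cons, ih, List.map_cons, List.prod_cons, ← QQ_full (S i)]
    rfl

/-- the operator P as an element of the algebra -/
def Pt {r q : ℕ} (ν : Fin r → Sp d) (hν : ∀ i, ‖ν i‖ = 1) (S : Fin q → (Sp d →L[ℝ] Sp d)) : Op d :=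
  ((List.finRange r).map (fun i => QQ (Sn (ν i)) (fr (ν i) (hν i)))).prod *
    ((List.finRange q).map (fun i => QQ (S i) fr1)).prod

lemma allOp_eq {r q : ℕ} (ν : Fin r → Sp d) (hν : ∀ i, ‖ν i‖ = 1) (S : Fin q → (Sp d →L[ℝ] Sp d))
    (g : Cs d) : allOp ν S g.f = (Pt ν hν S g).f := by
  unfold allOp Pt
  rw [List.ofFn_eq_map, List.ofFn_eq_map, List.foldr_map, List.foldr_map, foldr_S, foldr_nu ν hν]
  rfl

lemma allOp_iter {r q : ℕ} (ν : Fin r → Sp d) (hν : ∀ i, ‖ν i‖ = 1) (S : Fin q → (Sp d →L[ℝ] Sp d))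
    (m : ℕ) (g : Cs d) : (allOp ν S)^[m] g.f = (((Pt ν hν S) ^ m) g).f := by
  induction m generalizing g with
  | zero => rfl
  | succ m ih =>
    rw [Function.iterate_succ, Function.comp_apply, allOp_eq ν hν, ih, pow_succ]
    rfl

end

end ST
end TG


end

section

/-!
# Structure theorem: functionals and charts
-/

open MeasureTheory Metric Set TrI
open scoped InnerProductSpace ContDiff

namespace TG
namespace ST

noncomputable section

variable {d : ℕ}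

/-! ### derivatives -/

lemma itD_supp {R : ℝ} {g : Cs d} (hg : ∀ y, R ≤ ‖y‖ → g.f y = 0) {j : ℕ} (m : Fin j → Sp d) :
    ∀ y, R ≤ ‖y‖ → (itD m g).f y = 0 := by
  induction j with
  | zero =>
    have h1 : itD m g = g := by simp [itD]
    rw [h1]; exact hg
  | succ n ih =>
    have h1 : itD m g = dd (m 0) (itD (fun i : Fin n => m i.succ) g) := by
      unfold itD
      rw [List.ofFn_succ, List.map_cons, List.prod_cons]
      rfl
    rw [h1]
    exact dd_supp (ih _) _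

lemma iter_supp {R : ℝ} {g : Cs d} (hg : ∀ y, R ≤ ‖y‖ → g.f y = 0) (j : ℕ) (y : Sp d)
    (hy : R ≤ ‖y‖) : iteratedFDeriv ℝ j g.f y = 0 := by
  ext m
  rw [← itD_apply, itD_supp hg m y hy]
  rfl

lemma AO.iter_le {ρ C N : ℝ} {A : Op d} (hA : AO ρ C A) {j : ℕ} {g : Cs d}
    (hN : ∀ y, ‖iteratedFDeriv ℝ j g.f y‖ ≤ N) (x : Sp d) :
    ‖iteratedFDeriv ℝ j (A g).f x‖ ≤ C * N := by
  have hN0 : 0 ≤ N := (norm_nonneg _).trans (hN 0)
  apply ContinuousMultilinearMap.opNorm_le_bound (mul_nonneg hA.C0 hN0)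
  intro m
  rw [hA.itD_eq m g x, Real.norm_eq_abs, mul_assoc]
  apply hA.bd
  intro y _
  exact (itD_le m g y).trans (mul_le_mul_of_nonneg_right (hN y) (Finset.prod_nonneg (fun _ _ => norm_nonneg _)))

lemma SmO.iter_le {R0 η ρ C N : ℝ} {A : Op d} (hs : SmO R0 η A) (hη : 0 ≤ η) (hA : AO ρ C A) {j : ℕ}
    {g : Cs d} (hg : ∀ y, R0 ≤ ‖y‖ → g.f y = 0)
    (hN : ∀ y, ‖iteratedFDeriv ℝ j g.f y‖ ≤ N) (x : Sp d) :
    ‖iteratedFDeriv ℝ j (A g).f x‖ ≤ η * N := by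
  have hN0 : 0 ≤ N := (norm_nonneg _).trans (hN 0)
  apply ContinuousMultilinearMap.opNorm_le_bound (mul_nonneg hη hN0)
  intro m
  rw [hA.itD_eq m g x, Real.norm_eq_abs, mul_assoc]
  apply hs _ _ (itD_supp hg m)
  intro y
  exact (itD_le m g y).trans (mul_le_mul_of_nonneg_right (hN y) (Finset.prod_nonneg (fun _ _ => norm_nonneg _)))

lemma iter2_iter (G : Cs d) (m : ℕ) (x : Sp d) :
    ‖iteratedFDeriv ℝ 2 (iteratedFDeriv ℝ m G.f) x‖ ≤ ‖iteratedFDeriv ℝ (m + 2) G.f x‖ := by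
  have hiter : ContDiff ℝ 2 (iteratedFDeriv ℝ m G.f) :=
    G.cd.iteratedFDeriv_right (by norm_cast; exact WithTop.coe_le_coe.mpr le_top)
  apply ContinuousMultilinearMap.opNorm_le_bound (norm_nonneg _)
  intro m'
  apply ContinuousMultilinearMap.opNorm_le_bound
    (mul_nonneg (norm_nonneg _) (Finset.prod_nonneg (fun _ _ => norm_nonneg _)))
  intro w
  set ev := ContinuousMultilinearMap.apply ℝ (fun _ : Fin m => Sp d) ℝ w with hev
  have e1 : iteratedFDeriv ℝ 2 (ev ∘ iteratedFDeriv ℝ m G.f) x =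
      ev.compContinuousMultilinearMap (iteratedFDeriv ℝ 2 (iteratedFDeriv ℝ m G.f) x) :=
    ev.iteratedFDeriv_comp_left hiter.contDiffAt (by norm_num)
  have e2 : (ev ∘ iteratedFDeriv ℝ m G.f) = (itD w G).f := by
    funext y
    rw [itD_apply]
    rfl
  have e3 : (iteratedFDeriv ℝ 2 (iteratedFDeriv ℝ m G.f) x m') w =
      iteratedFDeriv ℝ 2 (itD w G).f x m' := by
    rw [← e2, e1]
    rfl
  rw [e3, ← itD_apply]
  have e4 : itD m' (itD w G) = itD (Fin.cons (m' 0) (Fin.cons (m' 1) w) : Fin (m + 2) → Sp d) G := by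
    unfold itD
    simp [List.ofFn_succ]
  rw [e4, Real.norm_eq_abs]
  refine (itD_le _ _ _).trans (le_of_eq ?_)
  rw [Fin.prod_univ_succ, Fin.prod_univ_succ, Fin.prod_univ_two]
  simp only [Fin.cons_zero, Fin.cons_succ]
  ring

section Func

variable {E : Type} [NormedAddCommGroup E] [InnerProductSpace ℝ E]

/-- the functional g ↦ ∫ ⟪f, e⟫ g -/
def psi (f : Sp d → E) (hf : Continuous f) (hc : HasCompactSupport f) (e : E) : Cs d →ₗ[ℝ] ℝ where
  toFun g := ∫ y, ⟪f y, e⟫_ℝ * g.f y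
  map_add' g g' := by
    have hi : ∀ g : Cs d, Integrable (fun y => ⟪f y, e⟫_ℝ * g.f y) := fun g => by
      apply Continuous.integrable_of_hasCompactSupport
      · exact (hf.inner continuous_const).mul g.cont
      · apply HasCompactSupport.mul_right
        exact hc.comp_left (g := fun v : E => ⟪v, e⟫_ℝ) (inner_zero_left _)
    rw [← integral_add (hi g) (hi g')]
    congr 1
    funext y
    rw [Cs.add_apply']
    ring
  map_smul' c g := by
    rw [RingHom.id_apply, smul_eq_mul, ← integral_const_mul]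
    congr 1
    funext y
    have : (c • g).f y = c * g.f y := rfl
    rw [this]
    ring

lemma psi_apply (f : Sp d → E) (hf : Continuous f) (hc : HasCompactSupport f) (e : E) (g : Cs d) :
    psi f hf hc e g = ∫ y, ⟪f y, e⟫_ℝ * g.f y := rfl

end Func

/-- consequence of MA -/
lemma F1 (hMA : StmtMA) (hd : 1 ≤ d) (M c ε : ℝ) (hε : 0 < ε) (hε1 : ε ≤ 1) (b : Sp d → ℝ)
    (hb : BaseKer 2 M c b) : ∃ CM : ℝ, 0 < CM ∧
    ∀ (E : Type) [NormedAddCommGroup E] [InnerProductSpace ℝ E] [FiniteDimensional ℝ E]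
    (f : Sp d → E), Continuous f → HasCompactSupport f → ∀ (R' : ℝ), 5 ≤ R' → ∀ (n : ℕ) (e : E),
    ‖e‖ = 1 → ∀ (ρ m1 δ' : ℝ), ρ + 2 ≤ R' →
      (∫ y in ball (0 : Sp d) (ρ + 1), ‖fl b ε ((1 / 2) ^ n) f (n - 1) y‖) ≤ m1 →
      DD b ε R' ((1 / 2) ^ n) f n 0 e ≤ δ' →
      ∀ (g : Sp d → ℝ) (N : ℝ), ContDiff ℝ 2 g → (∀ y, |g y| ≤ N) →
        (∀ y, ‖iteratedFDeriv ℝ 2 g y‖ ≤ N) → (∀ y, ρ ≤ ‖y‖ → g y = 0) →
        |∫ y, ⟪f y, e⟫_ℝ * g y| ≤ CM * (m1 + δ') * N := by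
  obtain ⟨CM, hCM, h⟩ := hMA d hd M c ε hε hε1 b hb
  refine ⟨CM, hCM, ?_⟩
  intro E _ _ _ f hf hc R' hR' n e he ρ m1 δ' hρ hm1 hδ' g N hg hN hN2 hsupp
  have hN0 : 0 ≤ N := (abs_nonneg _).trans (hN 0)
  rcases hN0.eq_or_lt with h0 | hNpos
  · have hz : ∀ y, g y = 0 := fun y => by
      have := hN y
      rw [← h0] at this
      exact abs_nonpos_iff.mp this
    simp_rw [hz, mul_zero, integral_zero, abs_zero]
    rw [← h0, mul_zero]
  · have hi : 0 < 1 / N := by positivity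
    have h1 := (h E f hf hc R' hR' n e he 0 (ball (0 : Sp d) (ρ + 1)) measurableSet_ball).1
      (fun y => (1 / N) • g y) (hg.const_smul (1 / N)) (fun y => by
        rw [smul_eq_mul, abs_mul, abs_of_pos hi, one_div, inv_mul_le_iff₀ hNpos, mul_one]
        exact hN y) (fun y => by
        rw [iteratedFDeriv_const_smul_apply' (hg.contDiffAt), norm_smul, Real.norm_eq_abs, abs_of_pos hi,
          one_div, inv_mul_le_iff₀ hNpos, mul_one]
        exact hN2 y) (fun y hy => by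
        rw [sub_zero] at hy
        rw [hsupp y (by linarith), smul_zero]) (fun y z hy hz => by
        have h2 : ‖y‖ < ρ := by
          by_contra hcon
          apply hy
          rw [hsupp y (not_lt.mp hcon), smul_zero]
        rw [mem_ball, dist_zero_right]
        calc ‖z‖ = ‖y + (z - y)‖ := by congr 1; abel
          _ ≤ ‖y‖ + ‖z - y‖ := norm_add_le _ _
          _ < ρ + 1 := by linarith)
    have h2 : ∫ y, ⟪f y, e⟫_ℝ * (1 / N) • g y = 1 / N * ∫ y, ⟪f y, e⟫_ℝ * g y := by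
      rw [← integral_const_mul]
      congr 1
      funext y
      rw [smul_eq_mul]
      ring
    rw [h2, abs_mul, abs_of_pos hi, one_div, inv_mul_le_iff₀ hNpos] at h1
    refine h1.trans ?_
    rw [mul_comm N]
    apply mul_le_mul_of_nonneg_right _ hN0
    exact mul_le_mul_of_nonneg_left (add_le_add hm1 hδ') hCM.le

/-- consequence of PE -/
lemma F2 (hPE : StmtPE) (hd : 1 ≤ d) (M c ε : ℝ) (hε : 0 < ε) (hε1 : ε ≤ 1) (b : Sp d → ℝ)
    (hb : BaseKer 2 M c b) : ∃ CM : ℝ, 0 < CM ∧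
    ∀ (E : Type) [NormedAddCommGroup E] [InnerProductSpace ℝ E] [FiniteDimensional ℝ E]
    (f : Sp d → E), Continuous f → HasCompactSupport f → ∀ (R' : ℝ), 5 ≤ R' → ∀ (n : ℕ) (e : E),
    ‖e‖ = 1 → ∀ (ρ m1 δ' : ℝ), ρ + 2 ≤ R' → 0 ≤ δ' →
      (∫ y in ball (0 : Sp d) (ρ + 1), ‖fl b ε ((1 / 2) ^ n) f (n - 1) y‖) ≤ m1 →
      DD b ε R' ((1 / 2) ^ n) f n 0 e ≤ δ' →
      ∀ (g : Sp d → E) (N : ℝ), ContDiff ℝ 2 g → (∀ y, ‖g y‖ ≤ N) →
        (∀ y, ‖iteratedFDeriv ℝ 2 g y‖ ≤ N) → (∀ y, ρ ≤ ‖y‖ → g y = 0) →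
        |∫ y, ⟪f y - ⟪f y, e⟫_ℝ • e, g y⟫_ℝ| ≤ CM * (Real.sqrt (m1 * δ') + δ') * N := by
  obtain ⟨CM, hCM, h⟩ := hPE d hd M c ε hε hε1 b hb
  refine ⟨CM, hCM, ?_⟩
  intro E _ _ _ f hf hc R' hR' n e he ρ m1 δ' hρ hδ0 hm1 hδ' g N hg hN hN2 hsupp
  have hN0 : 0 ≤ N := (norm_nonneg _).trans (hN 0)
  rcases hN0.eq_or_lt with h0 | hNpos
  · have hz : ∀ y, g y = 0 := fun y => by
      have := hN y
      rw [← h0] at this
      exact norm_le_zero_iff.mp this
    simp_rw [hz, inner_zero_right, integral_zero, abs_zero]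
    rw [← h0, mul_zero]
  · have hi : 0 < 1 / N := by positivity
    have h1 := h E f hf hc R' (by linarith only [hR']) n e he 0 (fun y => (1 / N) • g y) (ball (0 : Sp d) (ρ + 1))
      measurableSet_ball (hg.const_smul (1 / N)) (fun y => by
        rw [norm_smul, Real.norm_eq_abs, abs_of_pos hi, one_div, inv_mul_le_iff₀ hNpos, mul_one]
        exact hN y) (fun y => by
        rw [iteratedFDeriv_const_smul_apply' (hg.contDiffAt), norm_smul, Real.norm_eq_abs, abs_of_pos hi,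
          one_div, inv_mul_le_iff₀ hNpos, mul_one]
        exact hN2 y) (fun y hy => by
        rw [sub_zero] at hy
        rw [hsupp y (by linarith), smul_zero]) (fun y z hy hz => by
        have h2 : ‖y‖ < ρ := by
          by_contra hcon
          apply hy
          rw [hsupp y (not_lt.mp hcon), smul_zero]
        rw [mem_ball, dist_zero_right]
        calc ‖z‖ = ‖y + (z - y)‖ := by congr 1; abel
          _ ≤ ‖y‖ + ‖z - y‖ := norm_add_le _ _
          _ < ρ + 1 := by linarith)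
    have h2 : ∫ y, ⟪f y - ⟪f y, e⟫_ℝ • e, (1 / N) • g y⟫_ℝ =
        1 / N * ∫ y, ⟪f y - ⟪f y, e⟫_ℝ • e, g y⟫_ℝ := by
      rw [← integral_const_mul]
      congr 1
      funext y
      rw [real_inner_smul_right]
    rw [h2, abs_mul, abs_of_pos hi, one_div, inv_mul_le_iff₀ hNpos] at h1
    refine h1.trans ?_
    rw [mul_comm N]
    apply mul_le_mul_of_nonneg_right _ hN0
    apply mul_le_mul_of_nonneg_left _ hCM.le
    apply add_le_add _ hδ'
    apply Real.sqrt_le_sqrt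
    have hI : 0 ≤ ∫ y in ball (0 : Sp d) (ρ + 1), ‖fl b ε ((1 / 2) ^ n) f (n - 1) y‖ :=
      integral_nonneg (fun _ => norm_nonneg _)
    calc (∫ y in ball (0 : Sp d) (ρ + 1), ‖fl b ε ((1 / 2) ^ n) f (n - 1) y‖) *
          DD b ε R' ((1 / 2) ^ n) f n 0 e
        ≤ (∫ y in ball (0 : Sp d) (ρ + 1), ‖fl b ε ((1 / 2) ^ n) f (n - 1) y‖) * δ' :=
          mul_le_mul_of_nonneg_left hδ' hI
      _ ≤ m1 * δ' := mul_le_mul_of_nonneg_right hm1 hδ0

/-- the form of the operator P tested against f -/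
lemma F3 {E : Type} [NormedAddCommGroup E] [InnerProductSpace ℝ E] [FiniteDimensional ℝ E]
    {m : ℕ} (TY : (ContinuousMultilinearMap ℝ (fun _ : Fin m => Sp d) ℝ) →L[ℝ] E) (e0 e : E)
    (f : Sp d → E) (hf : Continuous f) (hc : HasCompactSupport f)
    (G PG : Cs d) (hPG : ∀ x, PG.f x = ⟪e0, TY (iteratedFDeriv ℝ m G.f x)⟫_ℝ)
    (hz : ∫ x, ⟪f x, TY (iteratedFDeriv ℝ m G.f x)⟫_ℝ = 0) (ρ N m1 δ' δ1 CM CP : ℝ)
    (hG : ∀ y, ρ ≤ ‖y‖ → G.f y = 0) (hNm : ∀ y, ‖iteratedFDeriv ℝ m G.f y‖ ≤ N)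
    (hNm2 : ∀ y, ‖iteratedFDeriv ℝ (m + 2) G.f y‖ ≤ N) (hδ1 : ‖e - e0‖ ≤ δ1)
    (h1 : ∀ (g : Sp d → ℝ) (N : ℝ), ContDiff ℝ 2 g → (∀ y, |g y| ≤ N) →
        (∀ y, ‖iteratedFDeriv ℝ 2 g y‖ ≤ N) → (∀ y, ρ ≤ ‖y‖ → g y = 0) →
        |∫ y, ⟪f y, e⟫_ℝ * g y| ≤ CM * (m1 + δ') * N)
    (h2 : ∀ (g : Sp d → E) (N : ℝ), ContDiff ℝ 2 g → (∀ y, ‖g y‖ ≤ N) →
        (∀ y, ‖iteratedFDeriv ℝ 2 g y‖ ≤ N) → (∀ y, ρ ≤ ‖y‖ → g y = 0) →
        |∫ y, ⟪f y - ⟪f y, e⟫_ℝ • e, g y⟫_ℝ| ≤ CP * (Real.sqrt (m1 * δ') + δ') * N) :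
    |psi f hf hc e PG| ≤ CP * (Real.sqrt (m1 * δ') + δ') * (‖TY‖ * N) +
      CM * (m1 + δ') * (δ1 * (‖TY‖ * N)) := by
  set Y : Sp d → E := fun x => TY (iteratedFDeriv ℝ m G.f x) with hY
  have hN0 : 0 ≤ N := (norm_nonneg _).trans (hNm 0)
  have hδ10 : 0 ≤ δ1 := (norm_nonneg _).trans hδ1
  have hiter : ContDiff ℝ 2 (iteratedFDeriv ℝ m G.f) :=
    G.cd.iteratedFDeriv_right (by norm_cast; exact WithTop.coe_le_coe.mpr le_top)
  have hYc : ContDiff ℝ 2 Y := TY.contDiff.comp hiter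
  have hYb : ∀ y, ‖Y y‖ ≤ ‖TY‖ * N := fun y =>
    (TY.le_opNorm _).trans (mul_le_mul_of_nonneg_left (hNm y) (norm_nonneg _))
  have hYb2 : ∀ y, ‖iteratedFDeriv ℝ 2 Y y‖ ≤ ‖TY‖ * N := by
    intro y
    have e1 : iteratedFDeriv ℝ 2 Y y =
        TY.compContinuousMultilinearMap (iteratedFDeriv ℝ 2 (iteratedFDeriv ℝ m G.f) y) :=
      TY.iteratedFDeriv_comp_left hiter.contDiffAt (by norm_num)
    rw [e1]
    refine (ContinuousLinearMap.norm_compContinuousMultilinearMap_le _ _).trans ?_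
    exact mul_le_mul_of_nonneg_left ((iter2_iter G m y).trans (hNm2 y)) (norm_nonneg _)
  have hYs : ∀ y, ρ ≤ ‖y‖ → Y y = 0 := by
    intro y hy
    change TY (iteratedFDeriv ℝ m G.f y) = 0
    rw [iter_supp hG m y hy, map_zero]
  have g2 := h2 Y _ hYc hYb hYb2 hYs
  set z : Sp d → ℝ := fun y => ⟪e0 - e, Y y⟫_ℝ with hzdef
  have hzc : ContDiff ℝ 2 z := contDiff_const.inner ℝ hYc
  have hne : ‖e0 - e‖ ≤ δ1 := by rw [norm_sub_rev]; exact hδ1
  have hzb : ∀ y, |z y| ≤ δ1 * (‖TY‖ * N) := fun y =>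
    (abs_real_inner_le_norm _ _).trans (mul_le_mul hne (hYb y) (norm_nonneg _) hδ10)
  have hzb2 : ∀ y, ‖iteratedFDeriv ℝ 2 z y‖ ≤ δ1 * (‖TY‖ * N) := by
    intro y
    have e1 : iteratedFDeriv ℝ 2 z y =
        (innerSL ℝ (e0 - e)).compContinuousMultilinearMap (iteratedFDeriv ℝ 2 Y y) :=
      (innerSL ℝ (e0 - e)).iteratedFDeriv_comp_left hYc.contDiffAt (by norm_num)
    rw [e1]
    refine (ContinuousLinearMap.norm_compContinuousMultilinearMap_le _ _).trans ?_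
    apply mul_le_mul _ (hYb2 y) (norm_nonneg _) hδ10
    rw [innerSL_apply_norm]
    exact hne
  have hzs : ∀ y, ρ ≤ ‖y‖ → z y = 0 := fun y hy => by
    change ⟪e0 - e, Y y⟫_ℝ = 0
    rw [hYs y hy, inner_zero_right]
  have g1 := h1 z _ hzc hzb hzb2 hzs
  -- integrability
  have hcomp : ∀ {w : Sp d → E}, Continuous w → Integrable (fun y => ⟪f y, w y⟫_ℝ) := by
    intro w hw
    apply Continuous.integrable_of_hasCompactSupport (hf.inner hw)
    exact hc.mono (fun y hy => by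
      rw [Function.mem_support] at hy ⊢
      intro h0
      exact hy (by rw [h0, inner_zero_left]))
  have hcomp2 : ∀ {w : Sp d → ℝ}, Continuous w → Integrable (fun y => ⟪f y, e⟫_ℝ * w y) := by
    intro w hw
    apply Continuous.integrable_of_hasCompactSupport ((hf.inner continuous_const).mul hw)
    exact hc.mono (fun y hy => by
      rw [Function.mem_support] at hy ⊢
      intro h0
      apply hy
      change ⟪f y, e⟫_ℝ * w y = 0
      rw [h0, inner_zero_left, zero_mul])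
  have hYcont := hYc.continuous
  have k1 : ∫ y, ⟪f y - ⟪f y, e⟫_ℝ • e, Y y⟫_ℝ = -∫ y, ⟪f y, e⟫_ℝ * ⟪e, Y y⟫_ℝ := by
    have e1 : ∀ y, ⟪f y - ⟪f y, e⟫_ℝ • e, Y y⟫_ℝ = ⟪f y, Y y⟫_ℝ - ⟪f y, e⟫_ℝ * ⟪e, Y y⟫_ℝ := by
      intro y
      rw [inner_sub_left, real_inner_smul_left]
    simp_rw [e1]
    rw [integral_sub (hcomp hYcont) (hcomp2 (continuous_const.inner hYcont)), hz, zero_sub]
  have k2 : psi f hf hc e PG = (∫ y, ⟪f y, e⟫_ℝ * ⟪e, Y y⟫_ℝ) + ∫ y, ⟪f y, e⟫_ℝ * z y := by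
    rw [psi_apply, ← integral_add (hcomp2 (continuous_const.inner hYcont)) (hcomp2 hzc.continuous)]
    congr 1
    funext y
    rw [hPG y, hzdef]
    change ⟪f y, e⟫_ℝ * ⟪e0, Y y⟫_ℝ = ⟪f y, e⟫_ℝ * ⟪e, Y y⟫_ℝ + ⟪f y, e⟫_ℝ * ⟪e0 - e, Y y⟫_ℝ
    rw [inner_sub_left]
    ring
  rw [k2]
  refine (abs_add_le _ _).trans (add_le_add ?_ g1)
  rw [k1, abs_neg] at g2
  exact g2

end

end ST
end TG


end

section

/-!
# Structure theorem: one chart, smooth test functions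
-/

open MeasureTheory Metric Set TrI
open scoped InnerProductSpace ContDiff

namespace TG
namespace ST

noncomputable section

variable {d : ℕ}

section Concl

variable {V E : Type} [NormedAddCommGroup V] [InnerProductSpace ℝ V] [FiniteDimensional ℝ V]
  [NormedAddCommGroup E] [InnerProductSpace ℝ E] [FiniteDimensional ℝ E]

/-- the conclusion for one direction e, smooth test functions -/
def Concl (L : (Sp d →L[ℝ] V) →L[ℝ] E) (b : Sp d → ℝ) (ε K γ Rs ε' : ℝ) (J rm : ℕ) (R1 δ : ℝ)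
    (e : E) : Prop :=
  ∀ R' : ℝ, R1 ≤ R' → ∀ (n : ℕ) (u : Sp d → V), TF u → ∀ a : ℝ, 0 ≤ a →
    (∀ ρ : ℝ, 1 ≤ ρ → ρ ≤ R1 →
      (∫ y in ball (0 : Sp d) ρ, ‖fl b ε ((1 / 2) ^ n) (fo L u) (n - 1) y‖) ≤
        K * ρ ^ ((d : ℝ) - 1 + γ) * a) →
    DD b ε R' ((1 / 2) ^ n) (fo L u) n 0 e ≤ δ * a →
    ∃ (r : ℕ) (ν : Fin r → Sp d) (κ : Fin r → Sp d → ℝ),
      r ≤ rm ∧ (∀ i, ‖ν i‖ = 1) ∧ (∀ i y, 0 ≤ κ i y) ∧ (∀ i, TFn 2 1 (κ i)) ∧
      (∀ i y, κ i y ≠ 0 → ‖tang (ν i) y‖ ≤ R1 - Rs - 3) ∧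
      (∀ i y, κ i y = κ i (tang (ν i) y)) ∧
      ∀ (ζ : Cs d) (N : ℝ), (∀ j ≤ J, ∀ x, ‖iteratedFDeriv ℝ j ζ.f x‖ ≤ N) →
        (∀ y, Rs + 1 ≤ ‖y‖ → ζ.f y = 0) →
        |(∫ y, ⟪fo L u y, e⟫_ℝ * ζ.f y)
          - ∑ i, ∫ y, ⟪fo L u y, e⟫_ℝ * (κ i y * plInt (ν i) ⟪ν i, y⟫_ℝ ζ.f)| ≤ ε' * a * N

omit [FiniteDimensional ℝ V] [FiniteDimensional ℝ E] in
lemma fo_cont (L : (Sp d →L[ℝ] V) →L[ℝ] E) {u : Sp d → V} (hu : TF u) : Continuous (fo L u) :=
  L.continuous.comp (hu.smooth.continuous_fderiv (by simp))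

omit [FiniteDimensional ℝ V] [FiniteDimensional ℝ E] in
lemma fo_cs (L : (Sp d →L[ℝ] V) →L[ℝ] E) {u : Sp d → V} (hu : TF u) : HasCompactSupport (fo L u) :=
  (hu.supp.fderiv (𝕜 := ℝ)).comp_left (g := fun D => L D) (map_zero L)

/-- choice of the small parameters -/
lemma choose_small {A s : ℝ} (_hA : 0 ≤ A) (hs : 0 < s) : ∃ τ : ℝ, 1 ≤ τ ∧ A * τ ^ (-(1 / 2) : ℝ) ≤ s := by
  have h1 : Filter.Tendsto (fun τ : ℝ => A * τ ^ (-(1 / 2) : ℝ)) Filter.atTop (nhds (A * 0)) :=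
    (tendsto_rpow_neg_atTop (by norm_num : (0 : ℝ) < 1 / 2)).const_mul A
  rw [mul_zero] at h1
  have h2 := h1.eventually (gt_mem_nhds hs)
  obtain ⟨τ, h3, h4⟩ := (h2.and (Filter.eventually_ge_atTop (1 : ℝ))).exists
  exact ⟨τ, h4, h3.le⟩

lemma choose_delta {m2 A B s : ℝ} (hm2 : 0 ≤ m2) (_hA : 0 ≤ A) (hB : 0 ≤ B) (hs : 0 < s) :
    ∃ δ δ1 : ℝ, 0 < δ ∧ δ ≤ 1 ∧ 0 < δ1 ∧
      A * (Real.sqrt (m2 * δ) + δ) + B * (m2 + δ) * δ1 ≤ s := by
  have h1 : Filter.Tendsto (fun δ : ℝ => A * (Real.sqrt (m2 * δ) + δ)) (nhdsWithin 0 (Ioi 0))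
      (nhds (A * (Real.sqrt (m2 * 0) + 0))) := by
    apply Filter.Tendsto.mono_left _ nhdsWithin_le_nhds
    exact Continuous.tendsto (by fun_prop) 0
  rw [mul_zero, Real.sqrt_zero, add_zero, mul_zero] at h1
  have h2 := h1.eventually (gt_mem_nhds (half_pos hs))
  have h3 : ∀ᶠ δ : ℝ in nhdsWithin 0 (Ioi 0), δ ∈ Ioc (0 : ℝ) 1 := Ioc_mem_nhdsGT one_pos
  obtain ⟨δ, h4, h5⟩ := (h2.and h3).exists
  have h6 : 0 < B * (m2 + 1) + 1 := by positivity
  refine ⟨δ, s / 2 / (B * (m2 + 1) + 1), h5.1, h5.2, by positivity, ?_⟩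
  have h7 : B * (m2 + δ) * (s / 2 / (B * (m2 + 1) + 1)) ≤ s / 2 := by
    have h8 : B * (m2 + δ) ≤ B * (m2 + 1) + 1 := by
      have : B * (m2 + δ) ≤ B * (m2 + 1) := mul_le_mul_of_nonneg_left (by linarith [h5.2]) hB
      linarith
    calc B * (m2 + δ) * (s / 2 / (B * (m2 + 1) + 1))
        ≤ (B * (m2 + 1) + 1) * (s / 2 / (B * (m2 + 1) + 1)) :=
          mul_le_mul_of_nonneg_right h8 (by positivity)
      _ = s / 2 := by field_simp
  linarith

set_option maxHeartbeats 1000000 in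
theorem chart (hAL : StmtAL) (hMA : StmtMA) (hPE : StmtPE) (L : (Sp d →L[ℝ] V) →L[ℝ] E)
    (hd : 2 ≤ d) (hL : CEll L) (M c ε : ℝ) (hε : 0 < ε) (hε1 : ε ≤ 1) (b : Sp d → ℝ)
    (hb : BaseKer 2 M c b) (γ K Rs : ℝ) (hγ0 : 0 < γ) (hγ : γ ≤ 1 / (8 * d)) (hK : 0 < K)
    (hRs : 1 ≤ Rs) (e0 : E) (he0 : ‖e0‖ = 1) :
    ∃ J rm : ℕ, ∀ ε' : ℝ, 0 < ε' → ∃ (R1 δ δ1 : ℝ), Rs + 3 ≤ R1 ∧ 0 < δ ∧ 0 < δ1 ∧
      ∀ e : E, ‖e‖ = 1 → ‖e - e0‖ ≤ δ1 → Concl L b ε K γ Rs ε' J rm R1 δ e := by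
  have hd1 : 1 ≤ d := by omega
  have hγ16 : γ ≤ 1 / 16 := by
    refine hγ.trans ?_
    have : (2 : ℝ) ≤ d := by exact_mod_cast hd
    apply one_div_le_one_div_of_le (by norm_num)
    linarith
  set P : ℝ := (d : ℝ) - 1 + γ with hP
  have hP0 : 0 ≤ P := P_nonneg hd1 hγ0
  obtain ⟨CM, hCM, hF1⟩ := F1 hMA hd1 M c ε hε hε1 b hb
  obtain ⟨CP, hCP, hF2⟩ := F2 hPE hd1 M c ε hε hε1 b hb
  have he00 : e0 ≠ 0 := by
    intro h
    rw [h, norm_zero] at he0
    exact zero_ne_one he0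
  obtain ⟨r, q, Mx, m, ν, S, TY, hq, hMx, hν, hνd, hS, hTY1, hTY2⟩ := hAL d V E L hd hL e0 he00
  set R0 : ℝ := Rs + 1 with hR0def
  have hR0 : 0 < R0 := by linarith
  have hex : ∀ i, ∃ φ B : Hn (ν i) → ℝ, Rdl φ B := fun i => by
    have := Hn_nontrivial hd (ν i) (hν i)
    exact exists_Rdl
  choose φ B hφ using hex
  obtain ⟨F, c0, C0, hFam, hFK⟩ := exists_fam hd ν S hν hνd hS R0 hR0 φ B hφ
  obtain ⟨a0, ha0, hmain⟩ := hFam.main hd1 hγ0 hγ16 (Mx - 1) 0
  choose C5 hC50 hC5 using fun i => kap_bounds (hφ i) (hν i)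
  choose C6 hC60 hC6 using fun i => GG0_C2 (hφ i) (hν i) R0 hR0.le
  set Q1 : ℝ := CM * (K * 2 ^ P + 1) with hQ1
  have hQ10 : 0 ≤ Q1 := by positivity
  set Q2 : ℝ := Q1 * (1 + R0) ^ P with hQ2
  have hQ20 : 0 ≤ Q2 := by positivity
  have hS6 : 0 ≤ ∑ i, C6 i := Finset.sum_nonneg (fun i _ => hC60 i)
  have hS5 : 0 ≤ ∑ i, C5 i := Finset.sum_nonneg (fun i _ => hC50 i)
  set A0 : ℝ := Q2 * a0 + Q2 * ∑ i, C6 i + ∑ i, C5 i with hA0
  have hA00 : 0 ≤ A0 := by (clear * - hCM hK hRs ha0 hS6 hS5; positivity)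
  refine ⟨m + 2, r, fun ε' hε' => ?_⟩
  obtain ⟨τ, hτ1, hτ⟩ := choose_small hA00 (lt_min (by positivity : 0 < ε' / 4) one_pos)
  have hτ0 : 0 < τ := by linarith
  have hθ0 : 0 ≤ τ ^ (-(1 / 2) : ℝ) := Real.rpow_nonneg hτ0.le _
  obtain ⟨R, hR, hU⟩ := hmain τ hτ1
  rw [pow_zero, pow_one] at hR hU
  have hMx1 : Mx - 1 + 1 = Mx := by omega
  rw [hMx1] at hU
  obtain ⟨ρm, hρm⟩ := hR.psi
  obtain ⟨ρK, CK, KK', hKK, hUK⟩ := UU_factor (fun i => QQ (Sn (ν i)) (fr (ν i) (hν i)))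
    (fun i => QQ (S i) fr1) (fun i ρ C A hA => hA.comm_QQ _ _) (fun i ρ C A hA => hA.comm_QQ _ _)
    (fun i T hT => KK_ao (hφ i) (Sn (ν i)) (fr (ν i) (hν i)) (fr_frame (ν i) (hν i)) T hT)
    hFK τ hτ1 Mx 0
  have hρK0 : 0 ≤ ρK := hKK.ρ0
  have hCK0 : 0 ≤ CK := hKK.C0
  set m2 : ℝ := K * (R0 + ρK + 1) ^ P with hm2
  have hm20 : 0 ≤ m2 := by positivity
  set N0 : ℝ := ‖TY‖ * CK with hN0
  have hN00 : 0 ≤ N0 := by positivity
  obtain ⟨δ, δ1, hδ0, hδle, hδ10, hδδ⟩ := choose_delta hm20 (A := N0 * CP) (B := N0 * CM)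
    (by positivity) (by positivity) (by positivity : 0 < ε' / 4)
  set R1 : ℝ := Rs + 5 + R0 + τ + |ρm| + ρK with hR1
  have hρmabs : 0 ≤ |ρm| := abs_nonneg _
  have hρmle : ρm ≤ |ρm| := le_abs_self _
  refine ⟨R1, δ, δ1, by linarith only [hRs, hτ1, hρK0, hρmabs], hδ0, hδ10, ?_⟩
  intro e he hee R' hR' n u hu a ha hgrow hDD
  set f := fo L u with hfdef
  have hf : Continuous f := fo_cont L hu
  have hc : HasCompactSupport f := fo_cs L hu
  -- the basic bound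
  have hF1a : ∀ ρ' : ℝ, 1 ≤ ρ' → ρ' + 2 ≤ R1 → ∀ (g : Sp d → ℝ) (N : ℝ), ContDiff ℝ 2 g →
      (∀ y, |g y| ≤ N) → (∀ y, ‖iteratedFDeriv ℝ 2 g y‖ ≤ N) → (∀ y, ρ' ≤ ‖y‖ → g y = 0) →
      |∫ y, ⟪f y, e⟫_ℝ * g y| ≤ Q1 * ρ' ^ P * a * N := by
    intro ρ' h1 h2 g N hg hN hN2 hs
    have hN0' : 0 ≤ N := (abs_nonneg _).trans (hN 0)
    refine (hF1 E f hf hc R' (by linarith only [hRs, hτ1, hρK0, hρmabs, hR']) n e he ρ' (K * (ρ' + 1) ^ P * a) (δ * a) (by linarith only [hR', h2])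
      (hgrow (ρ' + 1) (by linarith only [h1]) (by linarith only [h2])) hDD g N hg hN hN2 hs).trans ?_
    apply mul_le_mul_of_nonneg_right _ hN0'
    have h3 : (ρ' + 1) ^ P ≤ 2 ^ P * ρ' ^ P := by
      rw [← Real.mul_rpow (by norm_num) (by linarith only [h1])]
      exact Real.rpow_le_rpow (by linarith only [h1]) (by linarith only [h1]) hP0
    have h4 : 1 ≤ ρ' ^ P := Real.one_le_rpow h1 hP0
    have h5 : K * (ρ' + 1) ^ P * a + δ * a ≤ (K * 2 ^ P + 1) * ρ' ^ P * a := by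
      have h6 : K * (ρ' + 1) ^ P ≤ K * (2 ^ P * ρ' ^ P) := mul_le_mul_of_nonneg_left h3 hK.le
      have h7 : K * (ρ' + 1) ^ P + δ ≤ (K * 2 ^ P + 1) * ρ' ^ P := by linarith only [hδle, h4, h6]
      calc K * (ρ' + 1) ^ P * a + δ * a = (K * (ρ' + 1) ^ P + δ) * a := by ring
        _ ≤ _ := mul_le_mul_of_nonneg_right h7 ha
    calc CM * (K * (ρ' + 1) ^ P * a + δ * a) ≤ CM * ((K * 2 ^ P + 1) * ρ' ^ P * a) :=
          mul_le_mul_of_nonneg_left h5 hCM.le
      _ = Q1 * ρ' ^ P * a := by rw [hQ1]; ring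
  refine ⟨r, ν, fun i => (kap (hφ i) (hν i) τ).f, le_rfl, hν, fun i y => kap_nonneg (hφ i) (hν i) hτ0 y,
    fun i => ?_, fun i y hy => ?_, fun i y => kap_tang (hφ i) (hν i) τ y, ?_⟩
  · refine ⟨(kap (hφ i) (hν i) τ).cd.of_le (by norm_cast), fun j hj x => ?_⟩
    refine ((hC5 i τ hτ1).2.2.2 j hj x).trans ?_
    rw [Hn_fin (ν i) (hν i)]
    have h1 : τ ≤ τ ^ (d - 1) := by
      calc τ = τ ^ 1 := (pow_one τ).symm
        _ ≤ τ ^ (d - 1) := pow_le_pow_right₀ hτ1 (by omega)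
    have h2 : C5 i / τ ^ (d - 1) ≤ C5 i / τ := div_le_div_of_nonneg_left (hC50 i) hτ0 h1
    have h3 : C5 i / τ ≤ C5 i * τ ^ (-(1 / 2) : ℝ) := by
      rw [div_eq_mul_inv, ← Real.rpow_neg_one]
      apply mul_le_mul_of_nonneg_left _ (hC50 i)
      exact Real.rpow_le_rpow_of_exponent_le hτ1 (by norm_num)
    have h4 : C5 i ≤ A0 := by
      have := Finset.single_le_sum (fun i _ => hC50 i) (Finset.mem_univ i)
      have h5 : 0 ≤ Q2 * a0 + Q2 * ∑ i, C6 i := by (clear * - hCM hK hRs ha0 hS6; positivity)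
      rw [hA0]; linarith only [this, h5]
    calc C5 i / τ ^ (d - 1) ≤ C5 i * τ ^ (-(1 / 2) : ℝ) := h2.trans h3
      _ ≤ A0 * τ ^ (-(1 / 2) : ℝ) := mul_le_mul_of_nonneg_right h4 hθ0
      _ ≤ 1 := hτ.trans (min_le_right _ _)
  · have := kap_supp (hφ i) (hν i) hτ0 y hy
    rw [hR1]
    linarith only [hRs, hρK0, hρmabs, this]
  · intro ζ N hN hζ
    have hN0' : 0 ≤ N := (norm_nonneg _).trans (hN 0 (by omega) 0)
    have hζN : ∀ y, |ζ.f y| ≤ N := fun y => by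
      have := hN 0 (by omega) y
      rwa [norm_iteratedFDeriv_zero, Real.norm_eq_abs] at this
    -- (1)
    have b1 : |psi f hf hc e (UU (fun i => EE (hφ i) (Sn (ν i))) F τ 0 Mx ζ)| ≤ ε' / 4 * a * N := by
      rw [hUK]
      have hG : ∀ y, R0 + ρK ≤ ‖y‖ → (KK' ζ).f y = 0 := fun y hy => hKK.supp hζ y hy
      have hPG : ∀ x, (((Pt ν hν S) ^ Mx) (KK' ζ)).f x = ⟪e0, TY (iteratedFDeriv ℝ m (KK' ζ).f x)⟫_ℝ := by
        intro x
        rw [hTY1 (KK' ζ).f (KK' ζ).cd x, allOp_iter ν hν]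
      have hz : ∫ x, ⟪f x, TY (iteratedFDeriv ℝ m (KK' ζ).f x)⟫_ℝ = 0 := by
        apply hTY2 u (KK' ζ).f hu.smooth (KK' ζ).cd
        apply HasCompactSupport.intro (isCompact_closedBall (0 : Sp d) (R0 + ρK))
        intro y hy
        apply hG
        rw [mem_closedBall, dist_zero_right, not_le] at hy
        exact hy.le
      have h3 := F3 TY e0 e f hf hc (KK' ζ) (((Pt ν hν S) ^ Mx) (KK' ζ)) hPG hz (R0 + ρK) (CK * N)
        (m2 * a) (δ * a) δ1 CM CP hG (fun y => hKK.iter_le (hN m (by omega)) y)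
        (fun y => hKK.iter_le (hN (m + 2) le_rfl) y) hee
        (hF1 E f hf hc R' (by linarith only [hRs, hτ1, hρK0, hρmabs, hR']) n e he (R0 + ρK) (m2 * a) (δ * a) (by linarith only [hRs, hτ1, hρmabs, hR'])
          (hgrow (R0 + ρK + 1) (by linarith only [hRs, hρK0]) (by linarith only [hRs, hτ1, hρmabs])) hDD)
        (hF2 E f hf hc R' (by linarith only [hRs, hτ1, hρK0, hρmabs, hR']) n e he (R0 + ρK) (m2 * a) (δ * a) (by linarith only [hRs, hτ1, hρmabs, hR']) (by positivity)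
          (hgrow (R0 + ρK + 1) (by linarith only [hRs, hρK0]) (by linarith only [hRs, hτ1, hρmabs])) hDD)
      refine h3.trans ?_
      have h4 : Real.sqrt (m2 * a * (δ * a)) = Real.sqrt (m2 * δ) * a := by
        have : m2 * a * (δ * a) = m2 * δ * a ^ 2 := by ring
        rw [this, Real.sqrt_mul (by positivity), Real.sqrt_sq ha]
      rw [h4]
      calc CP * (Real.sqrt (m2 * δ) * a + δ * a) * (‖TY‖ * (CK * N)) +
            CM * (m2 * a + δ * a) * (δ1 * (‖TY‖ * (CK * N)))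
          = (N0 * CP * (Real.sqrt (m2 * δ) + δ) + N0 * CM * (m2 + δ) * δ1) * (a * N) := by
            rw [hN0]; ring
        _ ≤ ε' / 4 * (a * N) := mul_le_mul_of_nonneg_right hδδ (by positivity)
        _ = ε' / 4 * a * N := by ring
    -- bound for localised small operators
    have hloc : ∀ (ρ C η : ℝ) (A' : Op d), 1 ≤ ρ → R0 + ρ + 2 ≤ R1 → AO ρ C A' → SmO R0 η A' → 0 ≤ η →
        |psi f hf hc e (A' ζ)| ≤ Q2 * N * a * (η * ρ ^ P) := by
      intro ρ C η A' h1 h2 h3 h4 h5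
      rw [psi_apply]
      refine (hF1a (R0 + ρ) (by linarith only [hRs, h1]) (by linarith only [h2]) (A' ζ).f (η * N)
        ((A' ζ).cd.of_le (by norm_cast)) (h4 ζ N hζ hζN)
        (h4.iter_le h5 h3 hζ (hN 2 (by omega))) (fun y hy => h3.supp hζ y hy)).trans ?_
      have h6 : (R0 + ρ) ^ P ≤ (1 + R0) ^ P * ρ ^ P := by
        rw [← Real.mul_rpow (by linarith only [hRs]) (by linarith only [h1])]
        apply Real.rpow_le_rpow (by linarith only [hRs, h1]) _ hP0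
        nlinarith only [h1, hRs]
      calc Q1 * (R0 + ρ) ^ P * a * (η * N) ≤ Q1 * ((1 + R0) ^ P * ρ ^ P) * a * (η * N) := by
            apply mul_le_mul_of_nonneg_right _ (by positivity)
            apply mul_le_mul_of_nonneg_right _ ha
            exact mul_le_mul_of_nonneg_left h6 hQ10
        _ = Q2 * N * a * (η * ρ ^ P) := by rw [hQ2]; ring
    -- (2)
    have b2 : |psi f hf hc e (R ζ)| ≤ Q2 * N * a * (a0 * τ ^ (-(1 / 2) : ℝ)) := by
      apply hρm (psi f hf hc e) ζ (Q2 * N * a) (by (clear * - hCM hK hRs hN0' ha; positivity))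
      intro ρ C η A' h1 h2 h3 h4 h5
      exact hloc ρ C η A' h1 (by linarith only [hRs, hτ1, hρK0, hρmle, h2]) h3 h4 h5
    -- (3)
    have b3 : ∀ i, |psi f hf hc e (GG0 (hφ i) (hν i) R0 hR0.le τ ζ)| ≤
        Q2 * C6 i * τ ^ (-(1 / 2) : ℝ) * (a * N) := by
      intro i
      obtain ⟨g1, g2⟩ := hC6 i τ hτ1 ζ N hζ (fun j hj => hN j (by omega))
      rw [psi_apply]
      refine (hF1a (R0 + τ) (by linarith only [hRs, hτ1]) (by linarith only [hRs, hρK0, hρmabs]) _ _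
        ((GG0 (hφ i) (hν i) R0 hR0.le τ ζ).cd.of_le (by norm_cast))
        g1 g2 (GG0_supp (hφ i) (hν i) R0 hR0.le hτ0 hζ)).trans ?_
      rw [Hn_fin (ν i) (hν i)]
      have h0 : d - 1 + 1 = d := by omega
      rw [h0]
      have h6 : (R0 + τ) ^ P ≤ (1 + R0) ^ P * τ ^ P := by
        rw [← Real.mul_rpow (by linarith only [hRs]) (by linarith only [hτ1])]
        apply Real.rpow_le_rpow (by linarith only [hRs, hτ1]) _ hP0
        nlinarith only [hτ1, hRs]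
      have h7 : τ ^ P / τ ^ d ≤ τ ^ (-(1 / 2) : ℝ) := pow1 hγ16 hτ1
      have h8 : Q1 * (R0 + τ) ^ P ≤ Q2 * τ ^ P := by
        calc Q1 * (R0 + τ) ^ P ≤ Q1 * ((1 + R0) ^ P * τ ^ P) := mul_le_mul_of_nonneg_left h6 hQ10
          _ = Q2 * τ ^ P := by rw [hQ2]; ring
      have h9 : 0 ≤ C6 i := hC60 i
      calc Q1 * (R0 + τ) ^ P * a * (C6 i / τ ^ d * N)
          ≤ Q2 * τ ^ P * a * (C6 i / τ ^ d * N) := by
            apply mul_le_mul_of_nonneg_right _ (by (clear * - h9 hτ1 hN0'; positivity))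
            exact mul_le_mul_of_nonneg_right h8 ha
        _ = Q2 * C6 i * (τ ^ P / τ ^ d) * (a * N) := by ring
        _ ≤ Q2 * C6 i * τ ^ (-(1 / 2) : ℝ) * (a * N) := by
            apply mul_le_mul_of_nonneg_right _ (by positivity)
            exact mul_le_mul_of_nonneg_left h7 (by positivity)
    -- the identity
    have hid : (∫ y, ⟪f y, e⟫_ℝ * ζ.f y)
          - ∑ i, ∫ y, ⟪f y, e⟫_ℝ * ((kap (hφ i) (hν i) τ).f y * plInt (ν i) ⟪ν i, y⟫_ℝ ζ.f) =
        psi f hf hc e (UU (fun i => EE (hφ i) (Sn (ν i))) F τ 0 Mx ζ) - psi f hf hc e (R ζ) +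
          ∑ i, psi f hf hc e (GG0 (hφ i) (hν i) R0 hR0.le τ ζ) := by
      have h1 : ∀ i, psi f hf hc e (GG0 (hφ i) (hν i) R0 hR0.le τ ζ) =
          psi f hf hc e (EE (hφ i) (Sn (ν i)) τ ζ) -
          ∫ y, ⟪f y, e⟫_ℝ * ((kap (hφ i) (hν i) τ).f y * plInt (ν i) ⟪ν i, y⟫_ℝ ζ.f) := by
        intro i
        have e1 : GG0 (hφ i) (hν i) R0 hR0.le τ ζ = EE (hφ i) (Sn (ν i)) τ ζ -
          mulC (kap (hφ i) (hν i) τ) (PLo (ν i) R0 hR0.le ζ) := rfl
        rw [e1, map_sub, psi_apply f hf hc e (mulC _ _)]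
        congr 2
        funext y
        rw [mulC_apply, PLo_apply (hν i) R0 hR0.le hζ]
      have h2 : ∀ s : Finset (Fin r), (∑ i ∈ s, EE (hφ i) (Sn (ν i)) τ) ζ =
          ∑ i ∈ s, EE (hφ i) (Sn (ν i)) τ ζ := fun s => LinearMap.sum_apply s _ ζ
      have h3 : UU (fun i => EE (hφ i) (Sn (ν i))) F τ 0 Mx ζ =
          ζ - ∑ i, EE (hφ i) (Sn (ν i)) τ ζ + R ζ := by
        rw [hU, LinearMap.add_apply, LinearMap.sub_apply, h2, Module.End.one_apply]
      simp_rw [h1]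
      rw [h3, map_add, map_sub, map_sum, Finset.sum_sub_distrib, psi_apply f hf hc e ζ]
      ring
    rw [hid]
    have hsum : |∑ i, psi f hf hc e (GG0 (hφ i) (hν i) R0 hR0.le τ ζ)| ≤
        Q2 * (∑ i, C6 i) * τ ^ (-(1 / 2) : ℝ) * (a * N) := by
      refine (Finset.abs_sum_le_sum_abs _ _).trans ?_
      refine (Finset.sum_le_sum (fun i _ => b3 i)).trans (le_of_eq ?_)
      rw [Finset.mul_sum, Finset.sum_mul, Finset.sum_mul]
    have haN : 0 ≤ a * N := by positivity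
    have hlast : A0 * τ ^ (-(1 / 2) : ℝ) * (a * N) ≤ ε' / 4 * (a * N) :=
      mul_le_mul_of_nonneg_right (hτ.trans (min_le_left _ _)) haN
    have hsplit : A0 * τ ^ (-(1 / 2) : ℝ) * (a * N) = Q2 * N * a * (a0 * τ ^ (-(1 / 2) : ℝ)) +
        Q2 * (∑ i, C6 i) * τ ^ (-(1 / 2) : ℝ) * (a * N) + (∑ i, C5 i) * τ ^ (-(1 / 2) : ℝ) * (a * N) := by
      rw [hA0]; ring
    have h5 : 0 ≤ (∑ i, C5 i) * τ ^ (-(1 / 2) : ℝ) * (a * N) := by (clear * - hS5 hτ1 ha hN0'; positivity)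
    have htri : ∀ x y z : ℝ, |x - y + z| ≤ |x| + |y| + |z| := by
      intro x y z
      refine (abs_add_le _ _).trans ?_
      have := abs_sub x y
      linarith only [this]
    refine (htri _ _ _).trans ?_
    have hfin : ε' / 4 * a * N + ε' / 4 * (a * N) ≤ ε' * a * N := by
      have : 0 ≤ ε' * (a * N) := by (clear * - hε' ha hN0'; positivity)
      linarith only [this]
    linarith only [b1, b2, hsum, hlast, h5, hfin]

end Concl

end

end ST
end TG


end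

section

/-!
# Module ST: the structure theorem (helper55)
-/

open MeasureTheory Metric Set TrI
open scoped InnerProductSpace ContDiff

namespace TG
namespace ST

noncomputable section

variable {d : ℕ}

section Approx

variable {Ω : Type} [MeasurableSpace Ω] {μ : Measure Ω} {w : Ω → ℝ} {h : Ω → Sp d} {ρ : ℝ}

/-- derivatives of averages of functions of finite smoothness -/
lemma GD.itD_go (hD : GD μ w h ρ) {g : Sp d → ℝ} (G : Cs d) (hG : G.f = go μ w h g) (j : ℕ) :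
    ContDiff ℝ j g → ∀ (m : Fin j → Sp d) (x : Sp d),
      (itD m G).f x = go μ w h (fun y => iteratedFDeriv ℝ j g y m) x := by
  induction j with
  | zero =>
    intro _ m x
    have h1 : itD m G = G := by simp [itD]
    rw [h1, hG]
    simp
  | succ n ih =>
    intro hg m x
    have hgn : ContDiff ℝ n g := hg.of_le (by norm_cast; omega)
    have h1 : itD m G = dd (m 0) (itD (fun i : Fin n => m i.succ) G) := by
      unfold itD
      rw [List.ofFn_succ, List.map_cons, List.prod_cons]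
      rfl
    have h2 : (itD (fun i : Fin n => m i.succ) G).f =
        go μ w h (fun y => iteratedFDeriv ℝ n g y (fun i : Fin n => m i.succ)) :=
      funext (ih hgn _)
    have hc1 : ContDiff ℝ 1 (iteratedFDeriv ℝ n g) := hg.iteratedFDeriv_right (by
      norm_cast
      omega)
    set ev := ContinuousMultilinearMap.apply ℝ (fun _ : Fin n => Sp d) ℝ (fun i : Fin n => m i.succ) with hev
    have hc2 : ContDiff ℝ 1 (fun y => iteratedFDeriv ℝ n g y (fun i : Fin n => m i.succ)) :=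
      ev.contDiff.comp hc1
    rw [h1, dd_apply, h2, (hD.fderiv hc2 x).fderiv]
    unfold go
    rw [ContinuousLinearMap.integral_apply (hD.integrable (hc2.continuous_fderiv (by simp)) x)]
    congr 1
    funext o
    change w o • (_root_.fderiv ℝ (fun y => iteratedFDeriv ℝ n g y (fun i : Fin n => m i.succ)) (x + h o)) (m 0) =
      w o • iteratedFDeriv ℝ (n + 1) g (x + h o) m
    rw [iteratedFDeriv_succ_apply_left]
    congr 1
    have hd : DifferentiableAt ℝ (iteratedFDeriv ℝ n g) (x + h o) := hc1.differentiable (by simp) _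
    have h3 : (fun y => iteratedFDeriv ℝ n g y (fun i : Fin n => m i.succ)) =
        fun y => ev (iteratedFDeriv ℝ n g y) := rfl
    rw [h3, fderiv_fun_comp (x + h o) ev.differentiableAt hd]
    simp
    rfl

/-- smooth approximation -/
lemma approx {J : ℕ} (hJ : 1 ≤ J) {N Rs : ℝ} {ζ : Sp d → ℝ} (hζ : TFn J N ζ)
    (hs : ∀ y, Rs ≤ ‖y‖ → ζ y = 0) {s : ℝ} (hs0 : 0 < s) (hs1 : s ≤ 1) :
    ∃ G : Cs d, (∀ j ≤ J, ∀ x, ‖iteratedFDeriv ℝ j G.f x‖ ≤ N) ∧ (∀ y, Rs + 1 ≤ ‖y‖ → G.f y = 0) ∧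
      ∀ x, |G.f x - ζ x| ≤ N * s := by
  let bp : ContDiffBump (0 : Sp d) := ⟨s / 2, s, by positivity, by linarith⟩
  set w : Sp d → ℝ := bp.normed volume with hw
  have hwc : ContDiff ℝ ∞ w := bp.contDiff_normed
  have hwcs : HasCompactSupport w := bp.hasCompactSupport_normed
  have hwi : ∫ y, w y = 1 := bp.integral_normed
  have hw0 : ∀ y, 0 ≤ w y := fun y => bp.nonneg_normed y
  have hws : ∀ y, w y ≠ 0 → ‖y‖ ≤ s := by
    intro y hy
    have h1 : y ∈ Function.support w := hy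
    rw [hw, bp.support_normed_eq, mem_ball, dist_zero_right] at h1
    exact h1.le
  have hD : GD (volume : Measure (Sp d)) w (fun t => -t) s :=
    ⟨hs0.le, hwc.continuous.integrable_of_hasCompactSupport hwcs, measurable_neg, fun y hy => by
      rw [norm_neg]; exact hws y hy⟩
  have hζc : Continuous ζ := hζ.smooth.continuous
  have hN0 : 0 ≤ N := (norm_nonneg _).trans (hζ.bd 0 (by omega) 0)
  have hcd : ContDiff ℝ ∞ (go volume w (fun t => -t) ζ) := by
    have h1 := HasCompactSupport.contDiff_convolution_left (𝕜 := ℝ) (n := ⊤) (ContinuousLinearMap.lsmul ℝ ℝ)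
      hwcs hwc (hζc.locallyIntegrable (μ := (volume : Measure (Sp d))))
    have h2 : (convolution w ζ (ContinuousLinearMap.lsmul ℝ ℝ) volume) = go volume w (fun t => -t) ζ := by
      funext x
      unfold convolution go
      congr 1
    rw [← h2]
    exact h1
  set G : Cs d := ⟨go volume w (fun t => -t) ζ, hcd⟩ with hG
  have habs : ∫ y, |w y| = 1 := by
    rw [← hwi]
    congr 1
    funext y
    exact abs_of_nonneg (hw0 y)
  have hint : Integrable w := hwc.continuous.integrable_of_hasCompactSupport hwcs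
  have hgo : ∀ (g : Sp d → ℝ) (x : Sp d) (K : ℝ), (∀ y, ‖y - x‖ ≤ s → |g y| ≤ K) →
      |go volume w (fun t => -t) g x| ≤ K := by
    intro g x K hK
    unfold go
    rw [← Real.norm_eq_abs]
    refine (norm_integral_le_integral_norm _).trans ?_
    have e1 : K = ∫ y, w y * K := by rw [integral_mul_const, hwi, one_mul]
    rw [e1]
    apply integral_mono_of_nonneg (Filter.Eventually.of_forall (fun _ => norm_nonneg _))
      (hint.mul_const K)
    refine Filter.Eventually.of_forall (fun y => ?_)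
    change ‖w y • g (x + -y)‖ ≤ w y * K
    rw [norm_smul, Real.norm_eq_abs, abs_of_nonneg (hw0 y), Real.norm_eq_abs]
    by_cases h0 : w y = 0
    · rw [h0]; simp
    · apply mul_le_mul_of_nonneg_left _ (hw0 y)
      apply hK
      rw [add_sub_cancel_left, norm_neg]
      exact hws y h0
  refine ⟨G, ?_, ?_, ?_⟩
  · intro j hj x
    apply ContinuousMultilinearMap.opNorm_le_bound hN0
    intro m
    rw [← itD_apply, GD.itD_go hD G rfl j (hζ.smooth.of_le (by exact_mod_cast hj)) m x, Real.norm_eq_abs]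
    apply hgo
    intro y _
    rw [← Real.norm_eq_abs]
    refine (ContinuousMultilinearMap.le_opNorm _ _).trans ?_
    exact mul_le_mul_of_nonneg_right (hζ.bd j hj y) (Finset.prod_nonneg (fun _ _ => norm_nonneg _))
  · intro y hy
    have h1 : |go volume w (fun t => -t) ζ y| ≤ 0 := by
      apply hgo
      intro z hz
      rw [hs z, abs_zero]
      have h2 : ‖y‖ ≤ ‖z‖ + ‖z - y‖ := by
        calc ‖y‖ = ‖z - (z - y)‖ := by congr 1; abel
          _ ≤ _ := norm_sub_le _ _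
      linarith
    exact abs_nonpos_iff.mp h1
  · intro x
    have h1 : G.f x - ζ x = go volume w (fun t => -t) (fun y => ζ y - ζ x) x := by
      change (∫ t, w t • ζ (x + -t)) - ζ x = ∫ t, w t • (ζ (x + -t) - ζ x)
      simp_rw [smul_sub]
      rw [integral_sub (hD.integrable hζc x)]
      · simp only [smul_eq_mul]
        rw [integral_mul_const, hwi, one_mul]
      · simp only [smul_eq_mul]
        exact hint.mul_const _
    rw [h1]
    apply hgo
    intro y hy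
    have h2 : ‖ζ y - ζ x‖ ≤ N * ‖y - x‖ := by
      apply Convex.norm_image_sub_le_of_norm_fderiv_le (s := univ) (𝕜 := ℝ)
        (fun z _ => hζ.smooth.differentiable (by
          have : (J : WithTop ℕ∞) ≠ 0 := by
            norm_cast
            omega
          exact this) z) _ convex_univ (mem_univ _) (mem_univ _)
      intro z _
      rw [← norm_iteratedFDeriv_one]
      exact hζ.bd 1 hJ z
    rw [← Real.norm_eq_abs]
    refine h2.trans ?_
    exact mul_le_mul_of_nonneg_left hy hN0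

end Approx

lemma plInt_go {ν : Sp d} (hν : ‖ν‖ = 1) (R0 : ℝ) {g : Sp d → ℝ}
    (hg : ∀ y, R0 ≤ ‖y‖ → g y = 0) (c : ℝ) :
    plInt ν c g = go (volume : Measure (Hn ν)) ((closedBall (0 : Hn ν) R0).indicator (fun _ => (1 : ℝ)))
      (fun y => (y : Sp d)) g (c • ν) := by
  change ∫ y : Hn ν, g (c • ν + (y : Sp d)) =
    ∫ y : Hn ν, (closedBall (0 : Hn ν) R0).indicator (fun _ => (1 : ℝ)) y • g (c • ν + (y : Sp d))
  congr 1
  funext y
  by_cases hy : y ∈ closedBall (0 : Hn ν) R0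
  · rw [indicator_of_mem hy, one_smul]
  · rw [indicator_of_notMem hy, zero_smul]
    rw [mem_closedBall, dist_zero_right, not_le] at hy
    exact hg _ (hy.le.trans (norm_ge hν _ y))

lemma plInt_cont {ν : Sp d} (hν : ‖ν‖ = 1) (R0 : ℝ) (hR0 : 0 ≤ R0) {g : Sp d → ℝ} (hgc : Continuous g)
    (hg : ∀ y, R0 ≤ ‖y‖ → g y = 0) : Continuous (fun y => plInt ν ⟪ν, y⟫_ℝ g) := by
  simp_rw [plInt_go hν R0 hg]
  exact ((gdP ν R0 hR0).cont hgc).comp (by fun_prop)

lemma plInt_diff {ν : Sp d} (hν : ‖ν‖ = 1) (R0 : ℝ) {g g' : Sp d → ℝ} (hgc : Continuous g)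
    (hgc' : Continuous g') (hg : ∀ y, R0 ≤ ‖y‖ → g y = 0) (hg' : ∀ y, R0 ≤ ‖y‖ → g' y = 0) {N : ℝ}
    (hN : ∀ y, |g y - g' y| ≤ N) (c : ℝ) :
    |plInt ν c g - plInt ν c g'| ≤ N * (volume (closedBall (0 : Hn ν) R0)).toReal := by
  have h1 : plInt ν c g - plInt ν c g' =
      ∫ z : Hn ν, (1 : ℝ) * (fun y => g y - g' y) (c • ν + (z : Sp d)) := by
    have i1 := plane_int hν R0 (W := fun _ => (1 : ℝ)) continuous_const hgc hg c
    have i2 := plane_int hν R0 (W := fun _ => (1 : ℝ)) continuous_const hgc' hg' c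
    simp only [one_mul] at i1 i2 ⊢
    exact (integral_sub i1 i2).symm
  rw [h1]
  have h2 := plane_bound hν R0 (W := fun _ => (1 : ℝ)) (M := 1) zero_le_one (fun _ _ => by simp)
    (g := fun y => g y - g' y) (fun y hy => by rw [hg y hy, hg' y hy, sub_zero]) hN c
  rw [one_mul] at h2
  exact h2

section Fin

variable {V E : Type} [NormedAddCommGroup V] [InnerProductSpace ℝ V] [FiniteDimensional ℝ V]
  [NormedAddCommGroup E] [InnerProductSpace ℝ E] [FiniteDimensional ℝ E]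

omit [FiniteDimensional ℝ V] [FiniteDimensional ℝ E] in
lemma Concl.mono {L : (Sp d →L[ℝ] V) →L[ℝ] E} {b : Sp d → ℝ} {ε K γ Rs ε' : ℝ} {J J' rm rm' : ℕ}
    {R1 R1' δ δ' : ℝ} {e : E} (h : Concl L b ε K γ Rs ε' J rm R1 δ e) (hJ : J ≤ J') (hrm : rm ≤ rm')
    (hR : R1 ≤ R1') (hδ : δ' ≤ δ) : Concl L b ε K γ Rs ε' J' rm' R1' δ' e := by
  intro R' hR' n u hu a ha hgrow hDD
  obtain ⟨r, ν, κ, h0, h1, h2, h3, h4, h5, h6⟩ := h R' (hR.trans hR') n u hu a ha
    (fun ρ a1 a2 => hgrow ρ a1 (a2.trans hR)) (hDD.trans (mul_le_mul_of_nonneg_right hδ ha))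
  exact ⟨r, ν, κ, h0.trans hrm, h1, h2, h3, fun i y hy => (h4 i y hy).trans (by linarith), h5,
    fun ζ N hN hζ => h6 ζ N (fun j hj => hN j (hj.trans hJ)) hζ⟩

/-- all directions, with tolerance function -/
theorem all_charts (hAL : StmtAL) (hMA : StmtMA) (hPE : StmtPE) (L : (Sp d →L[ℝ] V) →L[ℝ] E)
    (hd : 2 ≤ d) (hL : CEll L) (M c ε : ℝ) (hε : 0 < ε) (hε1 : ε ≤ 1) (b : Sp d → ℝ)
    (hb : BaseKer 2 M c b) (γ K Rs : ℝ) (tol : ℕ → ℝ) (hγ0 : 0 < γ) (hγ : γ ≤ 1 / (8 * d))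
    (hK : 0 < K) (hRs : 1 ≤ Rs) (htol : ∀ J, 0 < tol J) :
    ∃ (rm : ℕ) (R1 δ : ℝ), Rs + 3 ≤ R1 ∧ 0 < δ ∧
      ∀ e ∈ sphere (0 : E) 1, ∃ J, Concl L b ε K γ Rs (tol J) J rm R1 δ e := by
  apply IsCompact.induction_on (isCompact_sphere (0 : E) 1)
    (p := fun A => ∃ (rm : ℕ) (R1 δ : ℝ), Rs + 3 ≤ R1 ∧ 0 < δ ∧
      ∀ e ∈ A, ∃ J, Concl L b ε K γ Rs (tol J) J rm R1 δ e)
  · exact ⟨0, Rs + 3, 1, le_rfl, one_pos, fun e he => absurd he (notMem_empty e)⟩
  · rintro s t hst ⟨rm, R1, δ, h1, h2, h3⟩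
    exact ⟨rm, R1, δ, h1, h2, fun e he => h3 e (hst he)⟩
  · rintro s t ⟨rm, R1, δ, h1, h2, h3⟩ ⟨rm', R1', δ', h1', h2', h3'⟩
    refine ⟨max rm rm', max R1 R1', min δ δ', h1.trans (le_max_left _ _), lt_min h2 h2', ?_⟩
    rintro e (he | he)
    · obtain ⟨J, hJ⟩ := h3 e he
      exact ⟨J, hJ.mono le_rfl (le_max_left _ _) (le_max_left _ _) (min_le_left _ _)⟩
    · obtain ⟨J, hJ⟩ := h3' e he
      exact ⟨J, hJ.mono le_rfl (le_max_right _ _) (le_max_right _ _) (min_le_right _ _)⟩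
  · intro e0 he0
    rw [mem_sphere, dist_zero_right] at he0
    obtain ⟨J, rm, hJ⟩ := chart hAL hMA hPE L hd hL M c ε hε hε1 b hb γ K Rs hγ0 hγ hK hRs e0 he0
    obtain ⟨R1, δ, δ1, h1, h2, h3, h4⟩ := hJ (tol J) (htol J)
    refine ⟨closedBall e0 δ1 ∩ sphere (0 : E) 1, ?_, rm, R1, δ, h1, h2, ?_⟩
    · exact Filter.inter_mem (mem_nhdsWithin_of_mem_nhds (closedBall_mem_nhds e0 h3)) self_mem_nhdsWithin
    · rintro e ⟨he1, he2⟩
      rw [mem_sphere, dist_zero_right] at he2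
      rw [mem_closedBall, dist_eq_norm] at he1
      exact ⟨J, h4 e he2 he1⟩

omit [FiniteDimensional ℝ V] [FiniteDimensional ℝ E] in
/-- from smooth test functions to test functions of finite smoothness -/
theorem Concl.str {L : (Sp d →L[ℝ] V) →L[ℝ] E} {b : Sp d → ℝ} {ε K γ Rs ε' : ℝ} {J rm : ℕ}
    {R1 δ : ℝ} {e : E} (hC : Concl L b ε K γ Rs ε' J rm R1 δ e) (hRs : 1 ≤ Rs)
    (n : ℕ) (u : Sp d → V) (hu : TF u) (a : ℝ) (ha : 0 ≤ a)
    (hgrow : ∀ ρ : ℝ, 1 ≤ ρ → ρ ≤ R1 →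
      (∫ y in ball (0 : Sp d) ρ, ‖fl b ε ((1 / 2) ^ n) (fo L u) (n - 1) y‖) ≤
        K * ρ ^ ((d : ℝ) - 1 + γ) * a)
    (hDD : DD b ε R1 ((1 / 2) ^ n) (fo L u) n 0 e ≤ δ * a) :
    ∃ (r : ℕ) (ν : Fin r → Sp d) (κ : Fin r → Sp d → ℝ),
      r ≤ rm ∧ (∀ i, ‖ν i‖ = 1) ∧ (∀ i y, 0 ≤ κ i y) ∧ (∀ i, TFn 2 1 (κ i)) ∧
      (∀ i y, κ i y ≠ 0 → ‖tang (ν i) y‖ ≤ R1 - Rs - 3) ∧
      (∀ i y, κ i y = κ i (tang (ν i) y)) ∧
      ∀ (ζ : Sp d → ℝ) (N : ℝ), TFn (J + 1) N ζ → (∀ y, Rs ≤ ‖y‖ → ζ y = 0) →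
        |(∫ y, ⟪fo L u y, e⟫_ℝ * ζ y)
          - ∑ i, ∫ y, ⟪fo L u y, e⟫_ℝ * (κ i y * plInt (ν i) ⟪ν i, y⟫_ℝ ζ)| ≤ ε' * a * N := by
  obtain ⟨r, ν, κ, k0, k1, k2, k3, k4, k5, k6⟩ := hC R1 le_rfl n u hu a ha hgrow hDD
  refine ⟨r, ν, κ, k0, k1, k2, k3, k4, k5, ?_⟩
  intro ζ N hζ hζs
  set f := fo L u with hf
  have hfc : Continuous f := fo_cont L hu
  have hfs : HasCompactSupport f := fo_cs L hu
  have hζc : Continuous ζ := hζ.smooth.continuous
  have hN0 : 0 ≤ N := (norm_nonneg _).trans (hζ.bd 0 (by omega) 0)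
  have hκ1 : ∀ i y, |κ i y| ≤ 1 := fun i y => by
    have := (k3 i).bd 0 (by norm_num) y
    rwa [norm_iteratedFDeriv_zero, Real.norm_eq_abs] at this
  have hκc : ∀ i, Continuous (κ i) := fun i => (k3 i).smooth.continuous
  have hmc : Continuous (fun y => ⟪f y, e⟫_ℝ) := hfc.inner continuous_const
  have hmcs : HasCompactSupport (fun y => ⟪f y, e⟫_ℝ) :=
    hfs.comp_left (g := fun v : E => ⟪v, e⟫_ℝ) (inner_zero_left _)
  set F1 : ℝ := ∫ y, |⟪f y, e⟫_ℝ| with hF1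
  have hF10 : 0 ≤ F1 := integral_nonneg (fun _ => abs_nonneg _)
  set Vi : Fin r → ℝ := fun i => (volume (closedBall (0 : Hn (ν i)) (Rs + 1))).toReal with hVi
  have hVi0 : ∀ i, 0 ≤ Vi i := fun i => ENNReal.toReal_nonneg
  have hm1 : Integrable (fun y => |⟪f y, e⟫_ℝ|) := hmc.abs.integrable_of_hasCompactSupport hmcs.abs
  -- integrals against bounded functions
  have hbd : ∀ (w : Sp d → ℝ) (K' : ℝ), Continuous w → (∀ y, |w y| ≤ K') →
      |∫ y, ⟪f y, e⟫_ℝ * w y| ≤ F1 * K' := by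
    intro w K' hw hK'
    rw [← Real.norm_eq_abs]
    refine (norm_integral_le_integral_norm _).trans ?_
    rw [hF1, ← integral_mul_const]
    apply integral_mono_of_nonneg (Filter.Eventually.of_forall (fun _ => norm_nonneg _))
      (hm1.mul_const K')
    refine Filter.Eventually.of_forall (fun y => ?_)
    change ‖⟪f y, e⟫_ℝ * w y‖ ≤ |⟪f y, e⟫_ℝ| * K'
    rw [norm_mul, Real.norm_eq_abs, Real.norm_eq_abs]
    exact mul_le_mul_of_nonneg_left (hK' y) (abs_nonneg _)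
  have hint : ∀ {w : Sp d → ℝ}, Continuous w → Integrable (fun y => ⟪f y, e⟫_ℝ * w y) := by
    intro w hw
    exact (hmc.mul hw).integrable_of_hasCompactSupport hmcs.mul_right
  have hζs' : ∀ y, Rs + 1 ≤ ‖y‖ → ζ y = 0 := fun y hy => hζs y (by linarith)
  have key : ∀ s : ℝ, 0 < s → s ≤ 1 →
      |(∫ y, ⟪f y, e⟫_ℝ * ζ y) - ∑ i, ∫ y, ⟪f y, e⟫_ℝ * (κ i y * plInt (ν i) ⟪ν i, y⟫_ℝ ζ)| ≤
        ε' * a * N + (F1 * N + ∑ i, F1 * (N * Vi i)) * s := by
    intro s hs0 hs1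
    obtain ⟨G, hG1, hG2, hG3⟩ := approx (by omega) hζ hζs hs0 hs1
    have e1 := k6 G N (fun j hj => hG1 j (by omega)) hG2
    have e2 : |(∫ y, ⟪f y, e⟫_ℝ * ζ y) - ∫ y, ⟪f y, e⟫_ℝ * G.f y| ≤ F1 * (N * s) := by
      rw [← integral_sub (hint hζc) (hint G.cont)]
      simp_rw [← mul_sub]
      apply hbd _ _ (hζc.sub G.cont)
      intro y
      change |ζ y - G.f y| ≤ N * s
      rw [abs_sub_comm]
      exact hG3 y
    have e3 : ∀ i, |(∫ y, ⟪f y, e⟫_ℝ * (κ i y * plInt (ν i) ⟪ν i, y⟫_ℝ ζ)) -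
        ∫ y, ⟪f y, e⟫_ℝ * (κ i y * plInt (ν i) ⟪ν i, y⟫_ℝ G.f)| ≤ F1 * (N * s * Vi i) := by
      intro i
      have c1 := plInt_cont (k1 i) (Rs + 1) (by linarith) hζc hζs'
      have c2 := plInt_cont (k1 i) (Rs + 1) (by linarith) G.cont hG2
      have m1 : Continuous (fun y => κ i y * plInt (ν i) ⟪ν i, y⟫_ℝ ζ) := (hκc i).mul c1
      have m2 : Continuous (fun y => κ i y * plInt (ν i) ⟪ν i, y⟫_ℝ G.f) := (hκc i).mul c2
      rw [← integral_sub (hint m1) (hint m2)]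
      simp_rw [← mul_sub]
      apply hbd _ _ ((hκc i).mul (c1.sub c2))
      intro y
      change |κ i y * (plInt (ν i) ⟪ν i, y⟫_ℝ ζ - plInt (ν i) ⟪ν i, y⟫_ℝ G.f)| ≤ N * s * Vi i
      rw [abs_mul]
      have h4 := plInt_diff (k1 i) (Rs + 1) hζc G.cont hζs' hG2 (N := N * s)
        (fun y => by rw [abs_sub_comm]; exact hG3 y) ⟪ν i, y⟫_ℝ
      calc |κ i y| * |plInt (ν i) ⟪ν i, y⟫_ℝ ζ - plInt (ν i) ⟪ν i, y⟫_ℝ G.f|
          ≤ 1 * (N * s * Vi i) := mul_le_mul (hκ1 i y) h4 (abs_nonneg _) zero_le_one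
        _ = N * s * Vi i := one_mul _
    have e4 : |(∑ i, ∫ y, ⟪f y, e⟫_ℝ * (κ i y * plInt (ν i) ⟪ν i, y⟫_ℝ ζ)) -
        ∑ i, ∫ y, ⟪f y, e⟫_ℝ * (κ i y * plInt (ν i) ⟪ν i, y⟫_ℝ G.f)| ≤ ∑ i, F1 * (N * s * Vi i) := by
      rw [← Finset.sum_sub_distrib]
      exact (Finset.abs_sum_le_sum_abs _ _).trans (Finset.sum_le_sum (fun i _ => e3 i))
    have e5 : (F1 * N + ∑ i, F1 * (N * Vi i)) * s = F1 * (N * s) + ∑ i, F1 * (N * s * Vi i) := by
      rw [add_mul, Finset.sum_mul]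
      congr 1
      · ring
      · apply Finset.sum_congr rfl
        intro i _
        ring
    rw [e5]
    have tri : ∀ x y x' y' : ℝ, |x - y| ≤ |x' - y'| + (|x - x'| + |y - y'|) := by
      intro x y x' y'
      have h1 : x - y = (x' - y') + ((x - x') - (y - y')) := by ring
      calc |x - y| = |(x' - y') + ((x - x') - (y - y'))| := by rw [← h1]
        _ ≤ |x' - y'| + |(x - x') - (y - y')| := abs_add_le _ _
        _ ≤ _ := by
          have := abs_sub (x - x') (y - y')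
          linarith
    refine (tri _ _ _ _).trans (add_le_add e1 (add_le_add e2 e4))
  -- let s tend to zero
  set X := |(∫ y, ⟪f y, e⟫_ℝ * ζ y) - ∑ i, ∫ y, ⟪f y, e⟫_ℝ * (κ i y * plInt (ν i) ⟪ν i, y⟫_ℝ ζ)| with hX
  set W := F1 * N + ∑ i, F1 * (N * Vi i) with hW
  have hW0 : 0 ≤ W := by
    apply add_nonneg (by positivity)
    apply Finset.sum_nonneg
    intro i _
    have := hVi0 i
    positivity
  apply le_of_forall_pos_le_add
  intro η hη
  have hs0 : 0 < min 1 (η / (W + 1)) := lt_min one_pos (by (clear * - hη hN0; positivity))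
  have h5 := key _ hs0 (min_le_left _ _)
  have h6 : W * min 1 (η / (W + 1)) ≤ η := by
    calc W * min 1 (η / (W + 1)) ≤ W * (η / (W + 1)) := mul_le_mul_of_nonneg_left (min_le_right _ _) hW0
      _ ≤ (W + 1) * (η / (W + 1)) := mul_le_mul_of_nonneg_right (by linarith) (by (clear * - hη hN0; positivity))
      _ = η := by field_simp
  linarith

end Fin

end

end ST

open TG.ST in
/-- the structure theorem with a tolerance function (used in ST2.lean) -/
theorem st_main (h : StmtAL) (h2 : StmtMA) (h3 : StmtPE) :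
    ∀ (d : ℕ) (V E : Type) [NormedAddCommGroup V] [InnerProductSpace ℝ V] [FiniteDimensional ℝ V]
    [NormedAddCommGroup E] [InnerProductSpace ℝ E] [FiniteDimensional ℝ E]
    (L : (Sp d →L[ℝ] V) →L[ℝ] E), 2 ≤ d → CEll L →
    ∀ (M c ε : ℝ), 0 < ε → ε ≤ 1 → ∀ (b : Sp d → ℝ), BaseKer 2 M c b →
    ∀ (γ K Rs : ℝ) (tol : ℕ → ℝ), 0 < γ → γ ≤ 1 / (8 * d) → 0 < K → 1 ≤ Rs → (∀ J, 0 < tol J) →
    ∃ (rm : ℕ) (R1 δ : ℝ), Rs + 3 ≤ R1 ∧ 0 < δ ∧
      ∀ (n : ℕ) (u : Sp d → V), TF u → ∀ (e : E), ‖e‖ = 1 → ∀ a : ℝ, 0 ≤ a →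
        (∀ ρ : ℝ, 1 ≤ ρ → ρ ≤ R1 →
          (∫ y in ball (0 : Sp d) ρ, ‖fl b ε ((1 / 2) ^ n) (fo L u) (n - 1) y‖) ≤
            K * ρ ^ ((d : ℝ) - 1 + γ) * a) →
        DD b ε R1 ((1 / 2) ^ n) (fo L u) n 0 e ≤ δ * a →
        ∃ (J r : ℕ) (ν : Fin r → Sp d) (κ : Fin r → Sp d → ℝ),
          r ≤ rm ∧ (∀ i, ‖ν i‖ = 1) ∧ (∀ i y, 0 ≤ κ i y) ∧ (∀ i, TFn 2 1 (κ i)) ∧
          (∀ i y, κ i y ≠ 0 → ‖tang (ν i) y‖ ≤ R1 - Rs - 3) ∧
          (∀ i y, κ i y = κ i (tang (ν i) y)) ∧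
          ∀ (ζ : Sp d → ℝ) (N : ℝ), TFn J N ζ → (∀ y, Rs ≤ ‖y‖ → ζ y = 0) →
            |(∫ y, ⟪fo L u y, e⟫_ℝ * ζ y)
              - ∑ i, ∫ y, ⟪fo L u y, e⟫_ℝ * (κ i y * plInt (ν i) ⟪ν i, y⟫_ℝ ζ)| ≤
                tol J * a * N := by
  intro d V E _ _ _ _ _ _ L hd hL M c ε hε hε1 b hb γ K Rs tol hγ0 hγ hK hRs htol
  obtain ⟨rm, R1, δ, hR1, hδ, hC⟩ := all_charts h h2 h3 L hd hL M c ε hε hε1 b hb γ K Rs
    (fun J => tol (J + 1)) hγ0 hγ hK hRs (fun J => htol (J + 1))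
  refine ⟨rm, R1, δ, hR1, hδ, ?_⟩
  intro n u hu e he a ha hgrow hDD
  obtain ⟨J, hJ⟩ := hC e (by rw [mem_sphere, dist_zero_right]; exact he)
  obtain ⟨r, ν, κ, k⟩ := hJ.str hRs n u hu a ha hgrow hDD
  exact ⟨J + 1, r, ν, κ, k⟩

end TG


end

section

/-!
# Module ST2: the structure theorem with a tolerance function (helper55)
-/

open MeasureTheory Metric Set TrI
open scoped InnerProductSpace ContDiff

namespace TG

/-- MODULE ST2 -/
theorem stmtST2 (h : StmtAL) (h2 : StmtMA) (h3 : StmtPE) : StmtST2 := by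
  intro d V E _ _ _ _ _ _ L hd hL M c ε hε hε1 b hb γ K Rs tol hγ0 hγ hK hRs htol
  obtain ⟨rm, R1, δ, hR1, hδ, hC⟩ := st_main h h2 h3 d V E L hd hL M c ε hε hε1 b hb γ K Rs tol
    hγ0 hγ hK hRs htol
  refine ⟨rm, R1, δ, hR1, hδ, ?_⟩
  intro n u hu e he a ha hgrow hDD
  obtain ⟨J, r, ν, κ, k0, k1, k2, k3, k4, k5, k6⟩ := hC n u hu e he a ha hgrow hDD
  exact ⟨J, r, ν, κ, ⟨k0, k1, k2, k3, k4, k5, k6⟩⟩

end TG


end

section

set_option autoImplicit false

/-!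
# Module W1: cells which are not near (helper76)

If the cell Q is not near then Ups vanishes near every point where chi does not vanish.
-/

open MeasureTheory Metric Set TrI Filter
open scoped InnerProductSpace ContDiff Topology

namespace TG

noncomputable section

namespace W1m

variable {d : ℕ}

lemma Ups_ev {A p0 : ℝ} {μ : Measure (Sp d)} (hp : 0 < p0) (hq : Continuous (qq A μ 1)) {y : Sp d}
    (hy : qq A μ 1 y < p0 / 2) : Ups p0 A μ 1 =ᶠ[𝓝 y] fun _ => 0 := by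
  have h1 : ∀ᶠ z in 𝓝 y, qq A μ 1 z < p0 / 2 := hq.continuousAt.eventually_lt_const hy
  filter_upwards [h1] with z hz
  unfold Ups
  refine Real.smoothTransition.zero_of_nonpos ?_
  have h2 : 2 * qq A μ 1 z / p0 ≤ 1 := by
    rw [div_le_one hp]
    linarith
  linarith

lemma chi_fd {y : Sp d} (h : chi y = 0) : fderiv ℝ (chi : Sp d → ℝ) y = 0 := by
  have h1 : IsLocalMin (chi : Sp d → ℝ) y :=
    Eventually.of_forall fun z => by rw [h]; exact PTm.chi_nonneg z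
  exact h1.fderiv_eq_zero

lemma grad0 {g : Sp d → ℝ} {y : Sp d} (h : fderiv ℝ g y = 0) : gradient g y = 0 := by
  unfold gradient
  rw [h, map_zero]

lemma tang0 (n : Sp d) : tang n 0 = 0 := by
  unfold tang
  simp

lemma avk0 (b : Sp d → ℝ) (R : ℝ) {g : Sp d → ℝ} (hg : ∀ y, g y = 0) (y : Sp d) :
    avk b R g y = 0 := by
  unfold avk
  simp [hg]

lemma nt0 (b : Sp d → ℝ) (R : ℝ) {F : Fin d → Fin d → Sp d → ℝ} (hF : ∀ i j y, F i j y = 0)
    (y : Sp d) : nt b R F y = 0 := by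
  have h1 : ∀ x, dd2 F x = 0 := by
    intro x
    unfold dd2
    refine Finset.sum_eq_zero fun i _ => Finset.sum_eq_zero fun j _ => ?_
    have h2 : F i j = fun _ => 0 := funext (hF i j)
    unfold pd2
    rw [h2, iteratedFDeriv_fun_zero]
    rfl
  unfold nt NNp
  simp [avk0 _ _ h1]

/-- the vanishing condition for the flux densities -/
lemma fxA0 {χ' β : Sp d → ℝ} {ε p0 A : ℝ} {μ : Measure (Sp d)}
    (h : ∀ y, χ' y * Ups p0 A μ 1 y = 0 ∨ fderiv ℝ (chi : Sp d → ℝ) y = 0) (n y : Sp d) :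
    fxA chi χ' β ε p0 A μ n y = 0 := by
  unfold fxA
  rcases h y with h1 | h1
  · rw [h1, zero_mul]
  · rw [grad0 h1, tang0, inner_zero_left, mul_zero]

lemma fxB0 {b : Sp d → ℝ} {RN : ℝ} {χ' β : Sp d → ℝ} {ε p0 A : ℝ} {μ : Measure (Sp d)}
    (h : ∀ y, χ' y * Ups p0 A μ 1 y = 0 ∨ fderiv ℝ (chi : Sp d → ℝ) y = 0) (y : Sp d) :
    fxB b RN chi χ' β ε p0 A μ y = 0 := by
  have h1 : ∀ y, χ' y * Ups p0 A μ 1 y * ⟪gradient chi y, gradient (WW β ε μ 1) y⟫_ℝ = 0 := by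
    intro y
    rcases h y with h1 | h1
    · rw [h1, zero_mul]
    · rw [grad0 h1, inner_zero_left, mul_zero]
  unfold fxB
  rw [h1 y, avk0 b RN h1 y, nt0 b RN _ y]
  · simp
  · intro i j x
    rcases h x with h1 | h1
    · rw [h1, zero_mul]
    · rw [h1]
      simp

lemma flx0 {X : Prm d} (k : ℕ) {χ' β : Sp d → ℝ} {μ : Measure (Sp d)}
    (h : ∀ y, χ' y * Ups X.p0 X.A μ 1 y = 0 ∨ fderiv ℝ (chi : Sp d → ℝ) y = 0)
    (m : Sp d → ℝ) (n : Sp d) : flx X k chi χ' β μ m n = 0 := by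
  unfold flx
  split_ifs
  · simp [fxA0 h]
  · simp [fxB0 h]
  · rfl

section Loc

variable {β : Sp d → ℝ} {ε p0 A : ℝ} {μ : Measure (Sp d)}

/-- away from the near part nothing of Ups is seen -/
def Nn (p0 A : ℝ) (μ : Measure (Sp d)) : Prop :=
  ∀ y : Sp d, chi y ≠ 0 → Ups p0 A μ 1 =ᶠ[𝓝 y] fun _ => 0

lemma Nn.u0 (h : Nn p0 A μ) {y : Sp d} (hy : chi y ≠ 0) : Ups p0 A μ 1 y = 0 := (h y hy).eq_of_nhds

lemma Nn.f0 (h : Nn p0 A μ) {y : Sp d} (hy : chi y ≠ 0) : fderiv ℝ (Ups p0 A μ 1) y = 0 := by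
  rw [(h y hy).fderiv_eq]
  simp

lemma Nn.cu (h : Nn p0 A μ) (y : Sp d) : chi y * Ups p0 A μ 1 y = 0 := by
  by_cases hy : chi y = 0
  · rw [hy, zero_mul]
  · rw [h.u0 hy, mul_zero]

lemma Nn.al (h : Nn p0 A μ) (χ' : Sp d → ℝ) (y : Sp d) :
    χ' y * Ups p0 A μ 1 y = 0 ∨ fderiv ℝ (chi : Sp d → ℝ) y = 0 := by
  by_cases hy : chi y = 0
  · exact Or.inr (chi_fd hy)
  · exact Or.inl (by rw [h.u0 hy, mul_zero])

lemma Nn.hn (h : Nn p0 A μ) (n y : Sp d) :
    chi y * Hn β ε p0 A μ n 1 y = chi y * GG β ε μ 1 y := by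
  by_cases hy : chi y = 0
  · rw [hy, zero_mul, zero_mul]
  · unfold Hn
    rw [h.u0 hy, grad0 (h.f0 hy), tang0, inner_zero_left]
    ring

lemma Nn.hh (h : Nn p0 A μ) (i j : Fin d) (y : Sp d) :
    chi y * HHm β ε p0 A μ i j y = if i = j then chi y * GG β ε μ 1 y else 0 := by
  by_cases hy : chi y = 0
  · rw [hy]
    simp
  · unfold HHm
    rw [h.u0 hy, grad0 (h.f0 hy), h.f0 hy, inner_zero_left]
    split_ifs <;> simp

lemma Nn.dv (h : Nn p0 A μ) (n y : Sp d) : dvT chi β ε p0 A μ n y = 0 := by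
  unfold dvT
  refine Finset.sum_eq_zero fun j _ => ?_
  have h1 : (fun y => chi y * Ups p0 A μ 1 y * (tang n (gradient (WW β ε μ 1) y)) j) =
      fun _ => (0 : ℝ) := by
    ext z
    rw [h.cu z, zero_mul]
  rw [h1]
  simp

end Loc

section Main

variable {E : Type} [NormedAddCommGroup E] [InnerProductSpace ℝ E]

lemma mQ_cont {f : Sp d → E} (hf : Continuous f) (s0 : ℝ) (e : E) (Q : Cell d) :
    Continuous (mQ s0 f e Q) := by
  unfold mQ rs
  fun_prop

/-- the main contribution of a cell which is not near -/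
lemma gam_eq (hNN : StmtNN) (hd : 2 ≤ d) {M c0 : ℝ} {X : Prm d} (hb : BaseKer 2 M c0 X.b)
    (hRN : 0 < X.RN) {s0 : ℝ} {μ : Measure (Sp d)} {f : Sp d → E} (hf : Continuous f)
    {e : Cell d → E} {kd : Cell d → ℕ} {nv : Cell d → Sp d} {Q : Cell d}
    (hN : Nn X.p0 X.A (muQ s0 μ Q)) (hG : ContDiff ℝ ∞ (GG (bQ X.b Q) X.ε (muQ s0 μ Q) 1)) :
    Gam X s0 μ f e kd nv Q =
      ∫ y, mQ s0 f (e Q) Q y * (chi y * GG (bQ X.b Q) X.ε (muQ s0 μ Q) 1 y) := by
  unfold Gam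
  split_ifs with h1 h2
  · simp only [hN.hn]
  · set φ : Sp d → ℝ := fun y => chi y * GG (bQ X.b Q) X.ε (muQ s0 μ Q) 1 y with hφ
    have hφs : ContDiff ℝ ∞ φ := TDc.chi_smooth.mul hG
    have hφc : HasCompactSupport φ := (TDc.chi_cs (by omega)).mul_right
    have h3 := (hNN d hd M c0 X.b hb X.RN hRN).2.1 φ hφs hφc
    have h4 : (fun (i j : Fin d) (x : Sp d) => chi x *
        HHm (bQ X.b Q) X.ε X.p0 X.A (muQ s0 μ Q) i j x) =
        fun (i j : Fin d) (x : Sp d) => if i = j then φ x else 0 := by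
      ext i j x
      exact hN.hh i j x
    rw [h4]
    simp only [h3]
    have hK : PTm.Ker X.b := PTm.base_ker hb
    have hm : Continuous (mQ s0 f (e Q) Q) := mQ_cont hf s0 _ Q
    have hac : Continuous (avk X.b X.RN φ) := PTm.avk_cont hK hφs.continuous _
    have has : HasCompactSupport (avk X.b X.RN φ) := by
      obtain ⟨ρ, hρ0, hρ⟩ := PTm.cs_bd hφc
      refine HasCompactSupport.intro (isCompact_closedBall (0 : Sp d) (ρ + X.RN)) fun x hx => ?_
      rw [mem_closedBall, dist_zero_right, not_le] at hx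
      refine PTm.avk_zero_of hK hRN.le fun z hz => hρ z ?_
      have h5 : ‖x‖ ≤ ‖z‖ + ‖z - x‖ := by
        have := norm_sub_norm_le x z
        rw [norm_sub_rev x z] at this
        linarith
      linarith
    have hi1 : Integrable fun y => mQ s0 f (e Q) Q y * avk X.b X.RN φ y :=
      (hm.mul hac).integrable_of_hasCompactSupport has.mul_left
    have hi2 : Integrable fun y => mQ s0 f (e Q) Q y * φ y :=
      (hm.mul hφs.continuous).integrable_of_hasCompactSupport hφc.mul_left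
    simp only [mul_sub]
    rw [integral_sub hi2 hi1]
    ring
  · rfl

/-- displacement and position in the frame agree for cells of the same level -/
lemma tw_eq {s0 : ℝ} (h0 : 0 < s0) {Q Q' : Cell d} (h : Q'.1 = Q.1) : tw s0 Q Q' = dsp Q Q' := by
  have h1 : 0 < lev s0 Q.1 := by unfold lev; positivity
  unfold tw xC cen dsp
  rw [h, ← smul_sub, smul_smul, one_div, inv_mul_cancel₀ h1.ne', one_smul]
  ext j
  simp [lat]

lemma dsp_neg (Q Q' : Cell d) : dsp Q' Q = -dsp Q Q' := by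
  ext j
  simp [dsp, lat]

/-- fluxes of a cell which is not near -/
lemma fct_eq (hFM : StmtFM) (hd : 2 ≤ d) {M C' : ℝ} (hC' : 0 < C') {X : Prm d}
    (hε : 0 < X.ε) (hε1 : X.ε ≤ 1) (hp : 0 < X.p0) (hA : 0 < X.A) {s0 : ℝ} (h0 : 0 < s0)
    {μ : Measure (Sp d)} (hμ : Gro C' μ) {f : Sp d → E}
    {e : Cell d → E} {kd : Cell d → ℕ} {nv : Cell d → Sp d} {Q Q' : Cell d} (hQ : Q'.1 = Q.1)
    (hK : Kit 2 M (bQ X.b Q))
    (hN : Nn X.p0 X.A (muQ s0 μ Q)) :
    Fct X s0 μ f e kd nv Q Q' = 0 ∧ Fct X s0 μ f e kd nv Q' Q = 0 := by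
  constructor
  · unfold Fct
    rw [flx0 _ (hN.al _), flx0 _ (hN.al _), sub_zero]
  · obtain ⟨-, -, -, h1⟩ := hFM d hd C' hC' s0 h0 0 Q Q' (by rw [hQ, add_zero]) _ rfl
    obtain ⟨-, -, -, -, h2⟩ := h1 μ hμ
    have h3 : ∀ y, Ups X.p0 X.A (muQ s0 μ Q') 1 y = Ups X.p0 X.A (muQ s0 μ Q) 1 (tw s0 Q Q' + y) := by
      intro y
      obtain ⟨-, -, -, h4⟩ := h2 M _ hK X.ε hε hε1 0 y
      obtain ⟨-, h5, -⟩ := h4 X.p0 X.A hp hA
      exact h5 rfl
    have h4 : ∀ y, (fun x => chi (x - dsp Q' Q)) y * Ups X.p0 X.A (muQ s0 μ Q') 1 y = 0 ∨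
        fderiv ℝ (chi : Sp d → ℝ) y = 0 := by
      intro y
      left
      rw [h3 y, dsp_neg, tw_eq h0 hQ]
      simp only [sub_neg_eq_add]
      rw [add_comm y]
      exact hN.cu _
    unfold Fct
    rw [flx0 _ h4, flx0 _ h4, sub_zero]

end Main

end W1m

open Classical in
theorem stmtW1 (hNN : StmtNN) (hUB : StmtUB) (hNF : StmtNF) (hFM : StmtFM) : StmtW1 := by
  intro d J JA hd M c0 C' c R0 X hX
  have hp0 := hX.prm.p0_pos
  have hp1 := hX.prm.p0_le
  have hε := hX.prm.ε_pos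
  have hε4 := hX.prm.ε_le
  have hA := hX.prm.A_ge
  obtain ⟨cN, C1, hcN, hC1, hN⟩ := hNF d (J + 10) hd (by omega) M C' X.ε X.p0 X.A c hX.C'_pos hε
    hε4 hX.far
  obtain ⟨N', hN', hT⟩ := PTm.chi_TFn (d := d) (by omega)
  obtain ⟨C2, -, hU⟩ := hUB d 0 hd M C' X.ε X.p0 X.A hX.C'_pos hε (by linarith) hp0 hp1 hA
  refine ⟨1 + cN * N' + C1 + 1 / cN + C1 / cN, d + 2, by positivity, ?_⟩
  intro E _ _ _ W hW Q hnear
  have hWX := hW.X_eq
  subst hWX
  have h0 := hW.s0_pos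
  -- frame facts
  obtain ⟨-, -, -, hF⟩ := hFM d hd C' hX.C'_pos W.s0 h0 0 Q Q (by rw [add_zero]) _ rfl
  obtain ⟨hgro, hv, -⟩ := hF W.μ hW.gro
  have hkit : Kit (J + 10) M (bQ W.X.b Q) := hX.ker.kit _
  obtain ⟨-, hGs, -, -, hq01, hqs, -⟩ := hU (bQ W.X.b Q) (hkit.mono_order (by omega))
    (muQ W.s0 W.μ Q) hgro
  have hnq : ∀ y : Sp d, chi y ≠ 0 → qq W.X.A (muQ W.s0 W.μ Q) 1 y < W.X.p0 / 2 := by
    intro y hy
    by_contra h1
    exact hnear ⟨y, hy, not_lt.mp h1⟩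
  have hNn : W1m.Nn W.X.p0 W.X.A (muQ W.s0 W.μ Q) := fun y hy =>
    W1m.Ups_ev hp0 hqs.continuous (hnq y hy)
  -- the three identities
  have hgam : W.gam Q = ∫ y, W.m Q y * (chi y * GG (W.be Q) W.X.ε (W.mu Q) 1 y) :=
    W1m.gam_eq hNN hd (hX.ker.mono_order (by omega)) (by linarith [hX.prm.RN_ge]) hW.fc hNn hGs
  have hfct : ∀ Q' ∈ adj Q, Fct W.X W.s0 W.μ W.f W.e W.kd W.nv Q Q' = 0 ∧
      Fct W.X W.s0 W.μ W.f W.e W.kd W.nv Q' Q = 0 := by
    intro Q' hQ'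
    have h1 : Q'.1 = Q.1 := by
      unfold adj at hQ'
      rw [Finset.mem_product] at hQ'
      exact Finset.mem_singleton.mp hQ'.1
    exact W1m.fct_eq hFM hd hX.C'_pos hε (by linarith) hp0 (by linarith) h0 hW.gro h1
      (hkit.mono_order (by omega)) hNn
  have hnt : W.nt1 Q = W.w Q * W.gam Q := by
    have h1 : Vct W.X W.s0 W.μ W.f W.e W.kd W.nv Q = 0 := by
      unfold Vct
      split_ifs
      · simp [hNn.dv]
      · rfl
    have h2 : ∑ Q' ∈ adj Q, Fct W.X W.s0 W.μ W.f W.e W.kd W.nv Q Q' = 0 :=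
      Finset.sum_eq_zero fun Q' hQ' => (hfct Q' hQ').1
    unfold Wld.nt1 net
    rw [h1, h2, add_zero, sub_zero]
    rfl
  -- the inequalities
  have hm : Continuous (W.m Q) := W1m.mQ_cont hW.fc _ _ _
  have hD := hW.D0 Q
  have hv0 : 0 ≤ W.v Q := by
    have h1 : W.v Q = vv (muQ W.s0 W.μ Q) 1 0 := hv.symm
    rw [h1]
    exact Real.sqrt_nonneg _
  have hw0 : 0 ≤ W.w Q := by
    have h1 : 0 < lev W.s0 Q.1 := by unfold lev; positivity
    unfold Wld.w cw
    positivity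
  have hval : W.val Q = max 0 (W.gam Q) := by
    unfold Wld.val
    rw [if_neg (fun h => hnear h.1), if_neg (fun h => hnear h.1)]
  have h5 := hN (bQ W.X.b Q) hkit (muQ W.s0 W.μ Q) hgro (W.m Q) (W.D Q) hm hD (hW.zp Q)
    (fun y hy => by linarith [hnq y hy])
  have h6 : vv (muQ W.s0 W.μ Q) 1 0 = W.v Q := hv
  rw [h6] at h5
  have h7 : (∫ y, W.m Q y * (chi y * GG (bQ W.X.b Q) W.X.ε (muQ W.s0 W.μ Q) 1 y)) = W.gam Q :=
    hgam.symm
  rw [h7] at h5
  have h8 : -(N' * W.D Q) ≤ ∫ y, W.m Q y * chi y := by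
    have h9 := hW.zp Q (fun y => N'⁻¹ * chi y) (contDiff_const.mul PTm.chi_contDiff)
      (fun y => mul_nonneg (by positivity) (PTm.chi_nonneg y)) ?_ ?_ ?_
    · have h10 : (∫ y, W.m Q y * (N'⁻¹ * chi y)) = N'⁻¹ * ∫ y, W.m Q y * chi y := by
        rw [← integral_const_mul]
        congr 1
        ext y
        ring
      rw [h10] at h9
      have h11 := mul_le_mul_of_nonneg_left h9 hN'.le
      rw [← mul_assoc, mul_inv_cancel₀ hN'.ne', one_mul] at h11
      linarith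
    · intro y
      have h10 := hT.bd 0 (by omega) y
      rw [norm_iteratedFDeriv_zero, Real.norm_of_nonneg (PTm.chi_nonneg y)] at h10
      rw [inv_mul_le_one₀ hN']
      exact h10
    · intro y
      have h10 := (PTm.TFn.const_mul hT N'⁻¹).bd 2 le_rfl y
      rwa [abs_of_pos (inv_pos.mpr hN'), inv_mul_cancel₀ hN'.ne'] at h10
    · intro y hy
      rw [PTm.chi_supp (by linarith) (by omega), mul_zero]
  set I := ∫ y, W.m Q y * chi y with hI
  set g := W.gam Q with hg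
  set v := W.v Q with hv'
  set D := W.D Q with hD'
  have h9 : -((cN * N' + C1) * v * D) ≤ g := by
    have : cN * v * (-(N' * D)) ≤ cN * v * I := mul_le_mul_of_nonneg_left h8 (by positivity)
    linarith only [h5, this]
  have hvD : 0 ≤ v * D := mul_nonneg hv0 hD
  have hmx : g ≤ max 0 g := le_max_right _ _
  have hmx0 : 0 ≤ max 0 g := le_max_left _ _
  have hc1 : 0 ≤ 1 / cN := by positivity
  have hc2 : 0 ≤ C1 / cN := by positivity
  refine ⟨hgam, hnt, hfct, ?_, ?_⟩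
  · rw [hval, hnt]
    have h10 : max 0 g ≤ g + (1 + cN * N' + C1 + 1 / cN + C1 / cN) * (v * D) := by
      have h11 : (cN * N' + C1) * (v * D) ≤ (1 + cN * N' + C1 + 1 / cN + C1 / cN) * (v * D) :=
        mul_le_mul_of_nonneg_right (by linarith) hvD
      have h12 : 0 ≤ (cN * N' + C1) * (v * D) := by positivity
      refine max_le ?_ ?_
      · linarith only [h9, h11]
      · linarith
    have h11 := mul_le_mul_of_nonneg_left h10 hw0
    linarith
  · rw [hval]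
    have h10 : cN * (v * I) ≤ max 0 g + C1 * (v * D) := by linarith only [h5, hmx]
    have h11 : v * I ≤ 1 / cN * max 0 g + C1 / cN * (v * D) := by
      have h12 : v * I = 1 / cN * (cN * (v * I)) := by field_simp
      rw [h12]
      have h13 := mul_le_mul_of_nonneg_left h10 hc1
      have h14 : 1 / cN * (max 0 g + C1 * (v * D)) = 1 / cN * max 0 g + C1 / cN * (v * D) := by
        ring
      linarith
    have h12 : 1 / cN * max 0 g ≤ (1 + cN * N' + C1 + 1 / cN + C1 / cN) * max 0 g :=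
      mul_le_mul_of_nonneg_right (by linarith only [hC1, hc2, mul_pos hcN hN']) hmx0
    have h13 : C1 / cN * (v * D) ≤ (1 + cN * N' + C1 + 1 / cN + C1 / cN) * (v * D) :=
      mul_le_mul_of_nonneg_right (by linarith only [hC1, hc1, mul_pos hcN hN']) hvD
    linarith only [h11, h12, h13]

end

end TG


end
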