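import Mathlib
import Pool.Agent.TRM.C02
import Pool.Agent.TRM.C08
import Pool.Agent.TRM.C10
import Pool.Agent.TRM.C13
import Pool.Agent.TRM.C19

/-! Parts: TG.ABk, TG.ABs, TG.ABp, TG.TreeMJ, TG.FinA, TG.StmtsFH, TG.FinDef, TG.TreePQc, TG.TreePQd, TG.TreePQ, TG.WA7a, TG.WA7 -/

section

/-!
# Module AB, part 1: bounds for the truncated Newton potential (helper72)

The derivatives are moved to the kernel.
-/

open MeasureTheory Metric Set TrI Filter
open scoped InnerProductSpace ContDiff Topology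

namespace TG

noncomputable section

namespace AB

variable {d : ℕ}

lemma ts_out {ψ : Sp d → ℝ} (hs : tsupport ψ ⊆ closedBall 0 1) {z : Sp d} (hz : 1 < ‖z‖) :
    ψ z = 0 := by
  by_contra h
  have h1 := hs (subset_tsupport ψ (Function.mem_support.2 h))
  rw [mem_closedBall, dist_zero_right] at h1
  linarith

lemma ts_cs {ψ : Sp d → ℝ} (hs : tsupport ψ ⊆ closedBall 0 1) : HasCompactSupport ψ :=
  (isCompact_closedBall (0 : Sp d) 1).of_isClosed_subset (isClosed_tsupport ψ) hs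

lemma ts_of {ψ : Sp d → ℝ} (hs : ∀ x, 1 ≤ ‖x‖ → ψ x = 0) : tsupport ψ ⊆ closedBall 0 1 := by
  refine closure_minimal (fun z hz => ?_) isClosed_closedBall
  rw [mem_closedBall, dist_zero_right]
  by_contra h
  push Not at h
  exact hz (hs z h.le)

/-- one integration by parts -/
lemma ibp {ψ G : Sp d → ℝ} (hψ : ContDiff ℝ 1 ψ) (hc : HasCompactSupport ψ)
    (hG : ContDiff ℝ 1 G) {s : ℝ} (hs : 0 < s) (x v : Sp d) :
    avk ψ s (fun z => fderiv ℝ G z v) x = -(1 / s) * avk (fun z => fderiv ℝ ψ z v) s G x := by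
  have hcG : Continuous (fderiv ℝ G) := hG.continuous_fderiv one_ne_zero
  have hcψ : Continuous (fderiv ℝ ψ) := hψ.continuous_fderiv one_ne_zero
  set H : Sp d → ℝ := fun z => G (x + s • z) with hH
  have hHc : ContDiff ℝ 1 H := hG.comp (by fun_prop : ContDiff ℝ 1 fun z : Sp d => x + s • z)
  have hfH : ∀ z, fderiv ℝ H z v = s * fderiv ℝ G (x + s • z) v := by
    intro z
    have h1 : HasFDerivAt G (fderiv ℝ G (x + s • z)) (x + s • z) :=
      (hG.differentiable one_ne_zero _).hasFDerivAt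
    have h2 : HasFDerivAt (fun z : Sp d => x + s • z) (s • ContinuousLinearMap.id ℝ (Sp d)) z :=
      ((hasFDerivAt_id z).const_smul s).const_add x
    have h3 : fderiv ℝ H z = (fderiv ℝ G (x + s • z)).comp (s • ContinuousLinearMap.id ℝ (Sp d)) :=
      (h1.comp z h2).fderiv
    rw [h3]
    simp
  have h1 : ∫ z, ψ z * fderiv ℝ H z v = - ∫ z, fderiv ℝ ψ z v * H z := by
    refine integral_mul_fderiv_eq_neg_fderiv_mul_of_integrable ?_ ?_ ?_ ?_ ?_
    · exact Continuous.integrable_of_hasCompactSupport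
        ((hcψ.clm_apply continuous_const).mul hHc.continuous)
        (HasCompactSupport.mul_right (hc.fderiv_apply ℝ v))
    · exact Continuous.integrable_of_hasCompactSupport
        (hψ.continuous.mul ((hHc.continuous_fderiv one_ne_zero).clm_apply continuous_const))
        hc.mul_right
    · exact Continuous.integrable_of_hasCompactSupport (hψ.continuous.mul hHc.continuous)
        hc.mul_right
    · exact fun z _ => hψ.differentiable one_ne_zero z
    · exact fun z _ => hHc.differentiable one_ne_zero z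
  have h2 : ∫ z, ψ z * fderiv ℝ H z v = s * avk ψ s (fun z => fderiv ℝ G z v) x := by
    unfold avk
    rw [← integral_const_mul]
    refine integral_congr_ae (Eventually.of_forall fun z => ?_)
    simp only [hfH, smul_eq_mul]
    ring
  have h3 : ∫ z, fderiv ℝ ψ z v * H z = avk (fun z => fderiv ℝ ψ z v) s G x := rfl
  rw [h2, h3] at h1
  field_simp
  linarith

/-- derivatives of directional derivatives -/
lemma iter_fd {k : ℕ} {g : Sp d → ℝ} (hg : ContDiff ℝ (k + 1 : ℕ) g) (v : Sp d) (x : Sp d)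
    (h : Fin k → Sp d) :
    iteratedFDeriv ℝ k (fun z => fderiv ℝ g z v) x h =
      iteratedFDeriv ℝ (k + 1) g x (Fin.snoc h v) := by
  have h1 : ContDiff ℝ k (fderiv ℝ g) := hg.fderiv_right (by norm_cast)
  rw [iteratedFDeriv_succ_apply_right, iteratedFDeriv_clm_apply_const_apply h1 le_rfl]
  simp

lemma iter_fd_left {k : ℕ} {g : Sp d → ℝ} (hg : ContDiff ℝ (k + 1 : ℕ) g) (x : Sp d)
    (h : Fin (k + 1) → Sp d) :
    iteratedFDeriv ℝ (k + 1) g x h =
      fderiv ℝ (fun z => iteratedFDeriv ℝ k g z (Fin.tail h)) x (h 0) := by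
  have h1 : DifferentiableAt ℝ (iteratedFDeriv ℝ k g) x :=
    (hg.iteratedFDeriv_right (m := 1) (i := k) (by exact_mod_cast (by omega : 1 + k ≤ k + 1))).differentiable
      one_ne_zero x
  rw [iteratedFDeriv_succ_apply_left]
  have h2 : HasFDerivAt (fun z => iteratedFDeriv ℝ k g z (Fin.tail h))
      ((ContinuousMultilinearMap.apply ℝ (fun _ : Fin k => Sp d) ℝ (Fin.tail h)).comp
        (fderiv ℝ (iteratedFDeriv ℝ k g) x)) x :=
    (ContinuousMultilinearMap.apply ℝ (fun _ : Fin k => Sp d) ℝ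
      (Fin.tail h)).hasFDerivAt.comp x h1.hasFDerivAt
  rw [h2.fderiv]
  rfl

/-- derivatives of g are moved to the kernel -/
lemma key (k : ℕ) : ∀ (ψ : Sp d → ℝ), ContDiff ℝ k ψ → tsupport ψ ⊆ closedBall 0 1 →
    ∀ B : ℝ, (∀ z, ‖iteratedFDeriv ℝ k ψ z‖ ≤ B) → ∀ g : Sp d → ℝ, ContDiff ℝ ∞ g →
    ∀ s : ℝ, 0 < s → ∀ (x : Sp d) (h : Fin k → Sp d),
      |avk ψ s (fun z => iteratedFDeriv ℝ k g z h) x| ≤
        (1 / s) ^ k * B * (∏ i, ‖h i‖) * ∫ z in closedBall (0 : Sp d) 1, |g (x + s • z)| := by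
  induction k with
  | zero =>
    intro ψ hψ hs B hB g hg s hs0 x h
    have hgc : Continuous (fun z : Sp d => |g (x + s • z)|) :=
      (hg.continuous.comp (by fun_prop : Continuous fun z : Sp d => x + s • z)).abs
    simp only [pow_zero, one_mul, Finset.univ_eq_empty, Finset.prod_empty, mul_one,
      iteratedFDeriv_zero_apply]
    unfold avk
    have h1 : ∫ z, ψ z • g (x + s • z) = ∫ z in closedBall (0 : Sp d) 1, ψ z • g (x + s • z) := by
      rw [setIntegral_eq_integral_of_forall_compl_eq_zero]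
      intro z hz
      rw [mem_closedBall, dist_zero_right, not_le] at hz
      rw [ts_out hs hz, zero_smul]
    rw [h1, ← Real.norm_eq_abs, ← integral_const_mul]
    refine norm_integral_le_of_norm_le ?_ (Eventually.of_forall fun z => ?_)
    · exact (continuous_const.mul hgc).continuousOn.integrableOn_compact
        (isCompact_closedBall _ _)
    · rw [norm_smul, Real.norm_eq_abs, Real.norm_eq_abs]
      have h2 := hB z
      rw [norm_iteratedFDeriv_zero, Real.norm_eq_abs] at h2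
      exact mul_le_mul_of_nonneg_right h2 (abs_nonneg _)
  | succ k ih =>
    intro ψ hψ hs B hB g hg s hs0 x h
    have hψ1 : ContDiff ℝ 1 ψ := hψ.of_le (by exact_mod_cast (by omega : 1 ≤ k + 1))
    have hB0 : 0 ≤ B := (norm_nonneg _).trans (hB 0)
    set G : Sp d → ℝ := fun z => iteratedFDeriv ℝ k g z (Fin.tail h) with hG
    have hGs : ContDiff ℝ 1 G := by
      have h1 : ContDiff ℝ 1 (iteratedFDeriv ℝ k g) :=
        hg.iteratedFDeriv_right (m := 1) (i := k) (by exact_mod_cast le_top)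
      exact (ContinuousMultilinearMap.apply ℝ (fun _ : Fin k => Sp d) ℝ
        (Fin.tail h)).contDiff.comp h1
    have h1 : (fun z => iteratedFDeriv ℝ (k + 1) g z h) = fun z => fderiv ℝ G z (h 0) :=
      funext fun z => iter_fd_left (hg.of_le (by exact_mod_cast le_top)) z h
    rw [h1, ibp hψ1 (ts_cs hs) hGs hs0, abs_mul, abs_neg, abs_of_pos (by positivity : 0 < 1 / s)]
    have hψ' : ContDiff ℝ k (fun z => fderiv ℝ ψ z (h 0)) :=
      (hψ.fderiv_right (m := k) (by norm_cast)).clm_apply contDiff_const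
    have hs' : tsupport (fun z => fderiv ℝ ψ z (h 0)) ⊆ closedBall 0 1 :=
      (tsupport_fderiv_apply_subset ℝ (h 0)).trans hs
    have hB' : ∀ z, ‖iteratedFDeriv ℝ k (fun z => fderiv ℝ ψ z (h 0)) z‖ ≤ B * ‖h 0‖ := by
      intro z
      refine ContinuousMultilinearMap.opNorm_le_bound (by positivity) fun w => ?_
      rw [iter_fd hψ]
      refine (ContinuousMultilinearMap.le_opNorm _ _).trans ?_
      rw [Fin.prod_univ_castSucc]
      simp only [Fin.snoc_castSucc, Fin.snoc_last]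
      calc ‖iteratedFDeriv ℝ (k + 1) ψ z‖ * ((∏ i, ‖w i‖) * ‖h 0‖) ≤
          B * ((∏ i, ‖w i‖) * ‖h 0‖) := mul_le_mul_of_nonneg_right (hB z) (by positivity)
        _ = B * ‖h 0‖ * ∏ i, ‖w i‖ := by ring
    have h2 := ih _ hψ' hs' _ hB' g hg s hs0 x (Fin.tail h)
    have h3 : ∏ i, ‖h i‖ = ‖h 0‖ * ∏ i, ‖Fin.tail h i‖ := by
      rw [Fin.prod_univ_succ]
      rfl
    calc 1 / s * |avk (fun z => fderiv ℝ ψ z (h 0)) s G x| ≤
        1 / s * ((1 / s) ^ k * (B * ‖h 0‖) * (∏ i, ‖Fin.tail h i‖) *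
          ∫ z in closedBall (0 : Sp d) 1, |g (x + s • z)|) :=
          mul_le_mul_of_nonneg_left h2 (by positivity)
      _ = _ := by rw [h3]; ring

/-- the integral over the support of the kernel -/
lemma int_le {g : Sp d → ℝ} (hg : Continuous g) {N ρ : ℝ} (hN : ∀ y, |g y| ≤ N)
    (hsupp : ∀ y, ρ ≤ ‖y‖ → g y = 0) {s : ℝ} (hs : 0 < s) (x : Sp d) :
    ∫ z in closedBall (0 : Sp d) 1, |g (x + s • z)| ≤
      (1 / s) ^ d * (volume.real (closedBall (0 : Sp d) ρ) * N) := by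
  have hc : HasCompactSupport g := by
    refine HasCompactSupport.intro (isCompact_closedBall (0 : Sp d) ρ) fun y hy => ?_
    rw [mem_closedBall, dist_zero_right, not_le] at hy
    exact hsupp y hy.le
  have hi : Integrable (fun z : Sp d => |g z|) :=
    hg.abs.integrable_of_hasCompactSupport (hc.comp_left abs_zero)
  have h1 : Integrable (fun z : Sp d => |g (x + s • z)|) := by
    have h2 : Integrable (fun z : Sp d => |g (x + z)|) := hi.comp_add_left x
    exact h2.comp_smul hs.ne'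
  have h2 : ∫ z, |g (x + s • z)| = (1 / s) ^ d * ∫ z, |g z| := by
    rw [Measure.integral_comp_smul_of_nonneg volume (fun z : Sp d => |g (x + z)|) s (hR := hs.le),
      finrank_euclideanSpace_fin, integral_add_left_eq_self (fun z : Sp d => |g z|) x, smul_eq_mul]
    rw [one_div, inv_pow]
  have h3 : ∫ z, |g z| ≤ volume.real (closedBall (0 : Sp d) ρ) * N := by
    have h4 : ∫ z, |g z| = ∫ z in closedBall (0 : Sp d) ρ, |g z| := by
      rw [setIntegral_eq_integral_of_forall_compl_eq_zero]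
      intro z hz
      rw [mem_closedBall, dist_zero_right, not_le] at hz
      rw [hsupp z hz.le, abs_zero]
    rw [h4]
    calc ∫ z in closedBall (0 : Sp d) ρ, |g z| ≤ ∫ z in closedBall (0 : Sp d) ρ, N := by
          refine setIntegral_mono hi.integrableOn ?_ hN
          exact integrableOn_const (isCompact_closedBall _ _).measure_lt_top.ne
      _ = _ := by
          rw [setIntegral_const, smul_eq_mul]
  calc ∫ z in closedBall (0 : Sp d) 1, |g (x + s • z)| ≤ ∫ z, |g (x + s • z)| :=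
        setIntegral_le_integral h1 (Eventually.of_forall fun z => abs_nonneg _)
    _ ≤ _ := by
        rw [h2]
        exact mul_le_mul_of_nonneg_left h3 (by positivity)

/-- bound of averages of derivatives -/
lemma key' {k : ℕ} {ψ : Sp d → ℝ} (hψ : ContDiff ℝ k ψ) (hs : tsupport ψ ⊆ closedBall 0 1)
    {B : ℝ} (hB : ∀ z, ‖iteratedFDeriv ℝ k ψ z‖ ≤ B) {g : Sp d → ℝ} (hg : ContDiff ℝ ∞ g)
    {N ρ : ℝ} (hN : ∀ y, |g y| ≤ N) (hsupp : ∀ y, ρ ≤ ‖y‖ → g y = 0)
    {s : ℝ} (hs0 : 0 < s) (x : Sp d) (h : Fin k → Sp d) :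
      |avk ψ s (fun z => iteratedFDeriv ℝ k g z h) x| ≤
        (1 / s) ^ (k + d) * (B * (volume.real (closedBall (0 : Sp d) ρ) * N)) * ∏ i, ‖h i‖ := by
  have hB0 : 0 ≤ B := (norm_nonneg _).trans (hB 0)
  refine (key k ψ hψ hs B hB g hg s hs0 x h).trans ?_
  have h1 := int_le hg.continuous hN hsupp hs0 x
  calc (1 / s) ^ k * B * (∏ i, ‖h i‖) * ∫ z in closedBall (0 : Sp d) 1, |g (x + s • z)| ≤
      (1 / s) ^ k * B * (∏ i, ‖h i‖) *
        ((1 / s) ^ d * (volume.real (closedBall (0 : Sp d) ρ) * N)) :=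
        mul_le_mul_of_nonneg_left h1 (by positivity)
    _ = _ := by rw [pow_add]; ring

end AB

end

end TG


end

section

/-!
# Module AB, part 2: shells of the truncated Newton potential (helper72)
-/

open MeasureTheory Metric Set TrI Filter
open scoped InnerProductSpace ContDiff Topology Interval

namespace TG

noncomputable section

namespace AB

variable {d : ℕ}

/-! ## double divergence -/

lemma iter_pd2 {k : ℕ} {g : Sp d → ℝ} (hg : ContDiff ℝ ∞ g) (i j : Fin d) (x : Sp d)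
    (h : Fin k → Sp d) :
    iteratedFDeriv ℝ k (pd2 i j g) x h =
      iteratedFDeriv ℝ (k + 2) g x (Fin.snoc (Fin.snoc h (bv i)) (bv j)) := by
  have h1 : pd2 i j g = fun y => fderiv ℝ (fun z => fderiv ℝ g z (bv j)) y (bv i) := by
    ext y
    unfold pd2
    rw [iteratedFDeriv_two_apply, NN.iter2 hg]
    simp
  rw [h1, iter_fd (g := fun z => fderiv ℝ g z (bv j))
    ((NN.smooth_fd hg (bv j)).of_le (by exact_mod_cast le_top)),
    iter_fd (k := k + 1) (hg.of_le (by exact_mod_cast le_top))]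

lemma pd2_smooth {g : Sp d → ℝ} (hg : ContDiff ℝ ∞ g) (i j : Fin d) :
    ContDiff ℝ ∞ (pd2 i j g) := by
  have h1 : pd2 i j g = fun y => fderiv ℝ (fun z => fderiv ℝ g z (bv j)) y (bv i) := by
    ext y
    unfold pd2
    rw [iteratedFDeriv_two_apply, NN.iter2 hg]
    simp
  rw [h1]
  exact NN.smooth_fd (NN.smooth_fd hg _) _

lemma iter_dd2 {k : ℕ} {F : Fin d → Fin d → Sp d → ℝ} (hF : ∀ i j, ContDiff ℝ ∞ (F i j))
    (x : Sp d) (h : Fin k → Sp d) :
    iteratedFDeriv ℝ k (dd2 F) x h = ∑ i, ∑ j,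
      iteratedFDeriv ℝ (k + 2) (F i j) x (Fin.snoc (Fin.snoc h (bv i)) (bv j)) := by
  have h0 : ∀ i j, ContDiffAt ℝ k (pd2 i j (F i j)) x := fun i j =>
    ((pd2_smooth (hF i j) i j).of_le (by exact_mod_cast le_top)).contDiffAt
  have h1 : iteratedFDeriv ℝ k (dd2 F) x = ∑ i, ∑ j, iteratedFDeriv ℝ k (pd2 i j (F i j)) x := by
    unfold dd2
    rw [iteratedFDeriv_fun_sum_apply (fun i _ => ContDiffAt.sum fun j _ => h0 i j)]
    refine Finset.sum_congr rfl fun i _ => ?_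
    rw [iteratedFDeriv_fun_sum_apply (fun j _ => h0 i j)]
  rw [h1]
  simp only [ContinuousMultilinearMap.sum_apply]
  refine Finset.sum_congr rfl fun i _ => Finset.sum_congr rfl fun j _ => iter_pd2 (hF i j) i j x h

lemma bv_norm1 (i : Fin d) : ‖(bv i : Sp d)‖ = 1 := by
  simp [bv]

lemma prod_snoc {k : ℕ} (h : Fin k → Sp d) (i j : Fin d) :
    ∏ l, ‖(Fin.snoc (Fin.snoc h (bv i) : Fin (k + 1) → Sp d) (bv j) : Fin (k + 2) → Sp d) l‖ =
      ∏ l, ‖h l‖ := by
  rw [Fin.prod_univ_castSucc]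
  simp only [Fin.snoc_castSucc, Fin.snoc_last]
  rw [Fin.prod_univ_castSucc]
  simp only [Fin.snoc_castSucc, Fin.snoc_last, bv_norm1, mul_one]

/-- bound of the derivatives of the double divergence -/
lemma dd2_bd {k : ℕ} {F : Fin d → Fin d → Sp d → ℝ} (hF : ∀ i j, ContDiff ℝ ∞ (F i j)) {N : ℝ}
    (hN : ∀ i j x, ‖iteratedFDeriv ℝ (k + 2) (F i j) x‖ ≤ N) (x : Sp d) :
    ‖iteratedFDeriv ℝ k (dd2 F) x‖ ≤ d ^ 2 * N := by
  by_cases hd : d = 0
  · subst hd
    have h1 : iteratedFDeriv ℝ k (dd2 F) x = 0 := by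
      ext h
      rw [iter_dd2 hF]
      simp
    rw [h1]
    simp
  · have hd' : 0 < d := Nat.pos_of_ne_zero hd
    have hN0 : 0 ≤ N := (norm_nonneg _).trans (hN ⟨0, hd'⟩ ⟨0, hd'⟩ x)
    refine ContinuousMultilinearMap.opNorm_le_bound (by positivity) fun h => ?_
    rw [iter_dd2 hF]
    calc ‖∑ i, ∑ j, iteratedFDeriv ℝ (k + 2) (F i j) x (Fin.snoc (Fin.snoc h (bv i)) (bv j))‖ ≤
        ∑ _i : Fin d, ∑ _j : Fin d, N * ∏ l, ‖h l‖ := by
          refine (norm_sum_le _ _).trans (Finset.sum_le_sum fun i _ => ?_)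
          refine (norm_sum_le _ _).trans (Finset.sum_le_sum fun j _ => ?_)
          refine (ContinuousMultilinearMap.le_opNorm _ _).trans ?_
          rw [prod_snoc]
          exact mul_le_mul_of_nonneg_right (hN i j x) (by positivity)
      _ = _ := by
          simp only [Finset.sum_const, Finset.card_univ, Fintype.card_fin, nsmul_eq_mul]
          ring

/-! ## averages of the double divergence -/

lemma avk_fsum {ψ : Sp d → ℝ} (hψ : Continuous ψ) (hc : HasCompactSupport ψ) {ι : Type*}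
    (I : Finset ι) {g : ι → Sp d → ℝ} (hg : ∀ i, Continuous (g i)) (s : ℝ) (x : Sp d) :
    avk ψ s (fun z => ∑ i ∈ I, g i z) x = ∑ i ∈ I, avk ψ s (g i) x := by
  unfold avk
  simp only [smul_eq_mul, Finset.mul_sum]
  refine integral_finsetSum _ fun i _ => ?_
  exact Continuous.integrable_of_hasCompactSupport
    (hψ.mul ((hg i).comp (by fun_prop : Continuous fun z : Sp d => x + s • z))) hc.mul_right

lemma app_cont {k : ℕ} {g : Sp d → ℝ} (hg : ContDiff ℝ ∞ g) (h : Fin k → Sp d) :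
    Continuous (fun z => iteratedFDeriv ℝ k g z h) :=
  (ContinuousMultilinearMap.apply ℝ (fun _ : Fin k => Sp d) ℝ h).continuous.comp
    (hg.continuous_iteratedFDeriv (by exact_mod_cast le_top))

lemma app_smooth {k : ℕ} {g : Sp d → ℝ} (hg : ContDiff ℝ ∞ g) (h : Fin k → Sp d) :
    ContDiff ℝ ∞ (fun z => iteratedFDeriv ℝ k g z h) :=
  (ContinuousMultilinearMap.apply ℝ (fun _ : Fin k => Sp d) ℝ h).contDiff.comp
    (hg.iteratedFDeriv_right (m := ∞) (i := k) (by exact_mod_cast le_top))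

/-- the pointwise bound of one scale -/
lemma scale_bd {k : ℕ} {ψ : Sp d → ℝ} (hψ : ContDiff ℝ (k + 2 : ℕ) ψ)
    (hs : tsupport ψ ⊆ closedBall 0 1) {B : ℝ} (hB : ∀ z, ‖iteratedFDeriv ℝ (k + 2) ψ z‖ ≤ B)
    {F : Fin d → Fin d → Sp d → ℝ} (hF : ∀ i j, ContDiff ℝ ∞ (F i j)) {N ρ : ℝ}
    (hN : ∀ i j y, |F i j y| ≤ N) (hsupp : ∀ i j y, ρ ≤ ‖y‖ → F i j y = 0) {s : ℝ} (hs0 : 0 < s)
    (x : Sp d) (h : Fin k → Sp d) :
    |avk ψ s (fun z => iteratedFDeriv ℝ k (dd2 F) z h) x| ≤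
      (1 / s) ^ (k + 2 + d) * (d ^ 2 * (B * (volume.real (closedBall (0 : Sp d) ρ) * N))) *
        ∏ i, ‖h i‖ := by
  have h1 : (fun z => iteratedFDeriv ℝ k (dd2 F) z h) = fun z => ∑ i, ∑ j,
      iteratedFDeriv ℝ (k + 2) (F i j) z (Fin.snoc (Fin.snoc h (bv i)) (bv j)) :=
    funext fun z => iter_dd2 hF z h
  have hc := ts_cs hs
  rw [h1, avk_fsum hψ.continuous hc _ (fun i => continuous_finsetSum _ fun j _ =>
    app_cont (hF i j) _)]
  calc |∑ i, avk ψ s (fun z => ∑ j,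
        iteratedFDeriv ℝ (k + 2) (F i j) z (Fin.snoc (Fin.snoc h (bv i)) (bv j))) x| ≤
      ∑ _i : Fin d, ∑ _j : Fin d,
        (1 / s) ^ (k + 2 + d) * (B * (volume.real (closedBall (0 : Sp d) ρ) * N)) *
          ∏ l, ‖h l‖ := by
        refine (Finset.abs_sum_le_sum_abs _ _).trans (Finset.sum_le_sum fun i _ => ?_)
        rw [avk_fsum hψ.continuous hc _ (fun j => app_cont (hF i j) _)]
        refine (Finset.abs_sum_le_sum_abs _ _).trans (Finset.sum_le_sum fun j _ => ?_)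
        have h2 := key' hψ hs hB (hF i j) (hN i j) (hsupp i j) hs0 x
          (Fin.snoc (Fin.snoc h (bv i)) (bv j))
        rwa [prod_snoc] at h2
    _ = _ := by
        simp only [Finset.sum_const, Finset.card_univ, Fintype.card_fin, nsmul_eq_mul]
        ring

/-! ## shells -/

/-- part of the Newton test function which belongs to the scales between r and s -/
def sh (b : Sp d → ℝ) (r s : ℝ) (F : Fin d → Fin d → Sp d → ℝ) (x : Sp d) : ℝ :=
  nt b s F x - nt b r F x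

lemma nt_smooth {M c0 : ℝ} {b : Sp d → ℝ} (hb : BaseKer 2 M c0 b) {R : ℝ} (hR : 0 ≤ R)
    {F : Fin d → Fin d → Sp d → ℝ} (hF : ∀ i j, ContDiff ℝ ∞ (F i j)) :
    ContDiff ℝ ∞ (nt b R F) :=
  (NN.NNp_smooth (hb.kit 0).smooth1.continuous (hb.kit 0).supp1 hR (NN.dd2_smooth hF)).1.neg

lemma nt_iter {M c0 : ℝ} {b : Sp d → ℝ} (hb : BaseKer 2 M c0 b) {R : ℝ} (hR : 0 ≤ R)
    {F : Fin d → Fin d → Sp d → ℝ} (hF : ∀ i j, ContDiff ℝ ∞ (F i j)) (k : ℕ) (x : Sp d)
    (h : Fin k → Sp d) :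
    iteratedFDeriv ℝ k (nt b R F) x h =
      -NNp b R (fun z => iteratedFDeriv ℝ k (dd2 F) z h) x := by
  have h1 : nt b R F = -(NNp b R (dd2 F)) := rfl
  rw [h1, iteratedFDeriv_neg_apply]
  simp only [ContinuousMultilinearMap.neg_apply]
  rw [NN.NNp_apply (b := b) (hb.kit 0).smooth1.continuous (hb.kit 0).supp1 hR (NN.dd2_smooth hF)]

lemma sh_smooth {M c0 : ℝ} {b : Sp d → ℝ} (hb : BaseKer 2 M c0 b) {r s : ℝ} (hr : 0 ≤ r)
    (hs : 0 ≤ s) {F : Fin d → Fin d → Sp d → ℝ} (hF : ∀ i j, ContDiff ℝ ∞ (F i j)) :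
    ContDiff ℝ ∞ (sh b r s F) := (nt_smooth hb hs hF).sub (nt_smooth hb hr hF)

lemma avk_scale_cont {M c0 : ℝ} {b : Sp d → ℝ} (hb : BaseKer 2 M c0 b) {g : Sp d → ℝ}
    (hg : ContDiff ℝ ∞ g) (x : Sp d) : Continuous fun s => avk (Bp b) s g x := by
  rw [continuous_iff_continuousAt]
  intro s
  exact (NN.avk_deriv (hb.kit 0).smooth1.continuous (hb.kit 0).supp1 hg x s).continuousAt

lemma NNp_diff {M c0 : ℝ} {b : Sp d → ℝ} (hb : BaseKer 2 M c0 b) {g : Sp d → ℝ}
    (hg : ContDiff ℝ ∞ g) (r s : ℝ) (x : Sp d) :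
    NNp b s g x - NNp b r g x = ∫ t in r..s, t * avk (Bp b) t g x := by
  have h1 : Continuous fun t => t * avk (Bp b) t g x :=
    continuous_id.mul (avk_scale_cont hb hg x)
  unfold NNp
  rw [intervalIntegral.integral_interval_sub_left (h1.intervalIntegrable _ _)
    (h1.intervalIntegrable _ _)]

/-- bounds of the shells -/
lemma sh_bd {M c0 : ℝ} {b : Sp d → ℝ} (hb : BaseKer 2 M c0 b) {k : ℕ}
    (hβ : ContDiff ℝ (k + 2 : ℕ) (Bp b)) {B : ℝ}
    (hB : ∀ z, ‖iteratedFDeriv ℝ (k + 2) (Bp b) z‖ ≤ B)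
    {F : Fin d → Fin d → Sp d → ℝ} (hF : ∀ i j, ContDiff ℝ ∞ (F i j)) {N ρ : ℝ} (hN0 : 0 ≤ N)
    (hN : ∀ i j y, |F i j y| ≤ N) (hsupp : ∀ i j y, ρ ≤ ‖y‖ → F i j y = 0) {r s : ℝ}
    (hr : 0 < r) (hrs : r ≤ s) (hs : s ≤ 2 * r) (x : Sp d) :
    ‖iteratedFDeriv ℝ k (sh b r s F) x‖ ≤
      (1 / r) ^ (k + d) * (d ^ 2 * (B * (volume.real (closedBall (0 : Sp d) ρ) * N))) := by
  have hB0 : 0 ≤ B := (norm_nonneg _).trans (hB 0)
  set A : ℝ := d ^ 2 * (B * (volume.real (closedBall (0 : Sp d) ρ) * N)) with hA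
  have hA0 : 0 ≤ A := by positivity
  refine ContinuousMultilinearMap.opNorm_le_bound (by positivity) fun h => ?_
  have h1 : iteratedFDeriv ℝ k (sh b r s F) x h =
      -∫ t in r..s, t * avk (Bp b) t (fun z => iteratedFDeriv ℝ k (dd2 F) z h) x := by
    have h2 : sh b r s F = nt b s F - nt b r F := rfl
    rw [h2, iteratedFDeriv_sub_apply
      ((nt_smooth hb (hr.le.trans hrs) hF).of_le (by exact_mod_cast le_top)).contDiffAt
      ((nt_smooth hb hr.le hF).of_le (by exact_mod_cast le_top)).contDiffAt,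
      ContinuousMultilinearMap.sub_apply, nt_iter hb (hr.le.trans hrs) hF, nt_iter hb hr.le hF,
      ← NNp_diff hb (app_smooth (NN.dd2_smooth hF) h)]
    ring
  rw [h1, norm_neg]
  have h3 : ∀ t ∈ Ι r s, ‖t * avk (Bp b) t (fun z => iteratedFDeriv ℝ k (dd2 F) z h) x‖ ≤
      (1 / r) ^ (k + 1 + d) * A * ∏ i, ‖h i‖ := by
    intro t ht
    rw [uIoc_of_le hrs] at ht
    have ht0 : 0 < t := hr.trans ht.1
    rw [norm_mul, Real.norm_eq_abs, Real.norm_eq_abs, abs_of_pos ht0]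
    have h4 := scale_bd hβ (ts_of (hb.kit 0).supp1) hB hF hN hsupp ht0 x h
    have h5 : (1 / t) ^ (k + 1 + d) ≤ (1 / r) ^ (k + 1 + d) := by
      refine pow_le_pow_left₀ (by positivity) ?_ _
      exact one_div_le_one_div_of_le hr ht.1.le
    calc t * |avk (Bp b) t (fun z => iteratedFDeriv ℝ k (dd2 F) z h) x| ≤
        t * ((1 / t) ^ (k + 2 + d) * A * ∏ i, ‖h i‖) := mul_le_mul_of_nonneg_left h4 ht0.le
      _ = (1 / t) ^ (k + 1 + d) * (A * ∏ i, ‖h i‖) := by
          rw [show k + 2 + d = (k + 1 + d) + 1 by ring, pow_succ]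
          field_simp
      _ ≤ (1 / r) ^ (k + 1 + d) * (A * ∏ i, ‖h i‖) :=
          mul_le_mul_of_nonneg_right h5 (by positivity)
      _ = _ := by ring
  refine (intervalIntegral.norm_integral_le_of_norm_le_const h3).trans ?_
  rw [abs_of_nonneg (by linarith)]
  calc (1 / r) ^ (k + 1 + d) * A * (∏ i, ‖h i‖) * (s - r) ≤
      (1 / r) ^ (k + 1 + d) * A * (∏ i, ‖h i‖) * r :=
        mul_le_mul_of_nonneg_left (by linarith) (by positivity)
    _ = _ := by
        rw [show k + 1 + d = (k + d) + 1 by ring, pow_succ]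
        field_simp

/-- bound of the innermost part -/
lemma nt_bd {M c0 : ℝ} {b : Sp d → ℝ} (hb : BaseKer 2 M c0 b) {R : ℝ} (hR : 0 ≤ R) {k : ℕ}
    {F : Fin d → Fin d → Sp d → ℝ} (hF : ∀ i j, ContDiff ℝ ∞ (F i j)) {N : ℝ}
    (hN : ∀ i j x, ‖iteratedFDeriv ℝ (k + 2) (F i j) x‖ ≤ N) (x : Sp d) :
    ‖iteratedFDeriv ℝ k (nt b R F) x‖ ≤ R ^ 2 * (d ^ 2 * N) := by
  have h1 : nt b R F = -(NNp b R (dd2 F)) := rfl
  rw [h1, iteratedFDeriv_neg_apply, norm_neg]
  exact NN.NNp_norm hb hR (NN.dd2_smooth hF) k _ (dd2_bd hF hN) x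

/-- support of the Newton test function -/
lemma nt_supp {M c0 : ℝ} {b : Sp d → ℝ} (hb : BaseKer 2 M c0 b) {R : ℝ} (hR : 0 ≤ R)
    {F : Fin d → Fin d → Sp d → ℝ} {ρ : ℝ} (hsupp : ∀ i j y, ρ ≤ ‖y‖ → F i j y = 0) {y : Sp d}
    (hy : ρ + R / 2 < ‖y‖) : nt b R F y = 0 := by
  set δ : ℝ := ‖y‖ - (ρ + R / 2) with hδ
  have hδ0 : 0 < δ := by rw [hδ]; linarith
  have h1 : ∀ y : Sp d, ρ + δ ≤ ‖y - 0‖ → dd2 F y = 0 := by
    intro y hy
    rw [sub_zero] at hy
    unfold dd2 pd2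
    refine Finset.sum_eq_zero fun i _ => Finset.sum_eq_zero fun j _ => ?_
    have h2 : F i j =ᶠ[𝓝 y] fun _ => 0 := by
      filter_upwards [ball_mem_nhds y hδ0] with z hz
      refine hsupp i j z ?_
      rw [mem_ball, dist_eq_norm] at hz
      have h3 := norm_sub_norm_le y z
      have h4 : ‖y - z‖ = ‖z - y‖ := norm_sub_rev _ _
      linarith
    have h3 := h2.iteratedFDeriv ℝ 2
    rw [h3.eq_of_nhds]
    simp
  unfold nt
  rw [NN.NNp_supp hb hR 0 (ρ + δ) h1 y (by rw [sub_zero, hδ]; linarith), neg_zero]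

lemma sh_supp {M c0 : ℝ} {b : Sp d → ℝ} (hb : BaseKer 2 M c0 b) {r s : ℝ} (hr : 0 ≤ r)
    (hrs : r ≤ s) {F : Fin d → Fin d → Sp d → ℝ} {ρ : ℝ}
    (hsupp : ∀ i j y, ρ ≤ ‖y‖ → F i j y = 0) {y : Sp d}
    (hy : ρ + s / 2 < ‖y‖) : sh b r s F y = 0 := by
  unfold sh
  rw [nt_supp hb (hr.trans hrs) hsupp hy, nt_supp hb hr hsupp (by linarith), sub_zero]

end AB

end

end TG


end

section

/-!
# Module AB, part 3: planes, levels, far part (helper72)
-/

open MeasureTheory Metric Set TrI Filter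
open scoped InnerProductSpace ContDiff Topology Interval

namespace TG

noncomputable section

namespace AB

variable {d : ℕ}

/-! ## plane integrals -/

lemma cs_of {g : Sp d → ℝ} {ρ : ℝ} (h : ∀ y, ρ ≤ ‖y‖ → g y = 0) : HasCompactSupport g := by
  refine HasCompactSupport.intro (isCompact_closedBall (0 : Sp d) ρ) fun y hy => ?_
  rw [mem_closedBall, dist_zero_right, not_le] at hy
  exact h y hy.le

lemma pl_inner {n : Sp d} (hn : ‖n‖ = 1) (t : ℝ) (y : (Submodule.span ℝ {n})ᗮ) :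
    ⟪n, t • n + (y : Sp d)⟫_ℝ = t := by
  have h1 : ⟪n, (y : Sp d)⟫_ℝ = 0 := Submodule.mem_orthogonal_singleton_iff_inner_right.1 y.2
  rw [inner_add_right, inner_smul_right, real_inner_self_eq_norm_sq, hn, h1]
  ring

lemma pl_zero_out {n : Sp d} (hn : ‖n‖ = 1) {Q : Sp d → ℝ} {ρ : ℝ}
    (hQ : ∀ y, ρ ≤ ‖y‖ → Q y = 0) {t : ℝ} (ht : ρ ≤ |t|) : plInt n t Q = 0 := by
  unfold plInt
  refine integral_eq_zero_of_ae (Eventually.of_forall fun y => ?_)
  simp only [Pi.zero_apply]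
  refine hQ _ (ht.trans ?_)
  have h1 := abs_real_inner_le_norm n (t • n + (y : Sp d))
  rwa [pl_inner hn, hn, one_mul] at h1

lemma plane_bound (hPF : StmtPF) (hd : 1 ≤ d) {b : Sp d → ℝ} {Mb cb : ℝ}
    (hb : BaseKer 2 Mb cb b) (ρ : ℝ) (hρ : 0 < ρ) : ∃ C : ℝ, 0 < C ∧
    ∀ (n : Sp d), ‖n‖ = 1 → ∀ (Q : Sp d → ℝ) (q : ℝ), Continuous Q → (∀ y, |Q y| ≤ q) →
      (∀ y, ρ ≤ ‖y‖ → Q y = 0) → ∀ (c r : ℝ), 0 < r →
      |∫ x, b x * plInt n (c + r * ⟪n, x⟫_ℝ) Q| ≤ C * q / r := by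
  obtain ⟨C1, hC1, h1⟩ := (hPF d hd).1 ρ
  obtain ⟨C2, hC2, h2⟩ := (hPF d hd).1 1
  have hb1 : ∀ x, 1 ≤ ‖x‖ → b x = 0 := fun x hx => hb.supp x (by linarith)
  have hbc : HasCompactSupport b := cs_of hb1
  obtain ⟨Bb, hBb0, hBb⟩ := SMm.BF.of_compact (J := 0) (hb.smooth.of_le (by norm_num)) hbc
  refine ⟨2 * ρ * (C1 * (C2 * Bb)), by positivity, fun n hn Q q hQ hq hs c r hr => ?_⟩
  have hq0 : 0 ≤ q := (abs_nonneg _).trans (hq 0)
  have hQc : HasCompactSupport Q := cs_of hs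
  obtain ⟨f1, f2, -, -, -, -⟩ := (hPF d hd).2 n hn
  have hP1 : ∀ t, |plInt n t Q| ≤ C1 * q := by
    intro t
    refine h1 n hn Q q hQ hq (fun y hy => ?_) t
    refine (SMm.tang_le hn y).trans ?_
    by_contra hlt
    push Not at hlt
    exact hy (hs y hlt.le)
  have hP2 : ∀ t, |plInt n t b| ≤ C2 * Bb := by
    intro t
    refine h2 n hn b Bb hb.smooth.continuous (fun y => ?_) (fun y hy => ?_) t
    · have := hBb.norm_le y
      rwa [Real.norm_eq_abs] at this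
    · refine (SMm.tang_le hn y).trans ?_
      by_contra hlt
      push Not at hlt
      exact hy (hb1 y hlt.le)
  set F : Sp d → ℝ := fun x => b x * plInt n (c + r * ⟪n, x⟫_ℝ) Q with hF
  have hFc : Continuous F :=
    hb.smooth.continuous.mul ((f2 Q hQ hQc).comp (by fun_prop : Continuous fun x : Sp d =>
      c + r * ⟪n, x⟫_ℝ))
  have hFi : Integrable F := hFc.integrable_of_hasCompactSupport hbc.mul_right
  rw [f1 F hFi]
  have h3 : ∀ t, plInt n t F = plInt n t b * plInt n (c + r * t) Q := by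
    intro t
    unfold plInt
    rw [← integral_mul_const]
    refine integral_congr_ae (Eventually.of_forall fun y => ?_)
    simp only [hF]
    rw [pl_inner hn]
    rfl
  have h4 : ∀ t, ‖plInt n t F‖ ≤
      (Icc ((-ρ - c) / r) ((ρ - c) / r)).indicator (fun _ => C1 * q * (C2 * Bb)) t := by
    intro t
    rw [h3, norm_mul, Real.norm_eq_abs, Real.norm_eq_abs]
    by_cases ht : t ∈ Icc ((-ρ - c) / r) ((ρ - c) / r)
    · rw [indicator_of_mem ht, mul_comm]
      exact mul_le_mul (hP1 _) (hP2 _) (abs_nonneg _) (by positivity)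
    · rw [indicator_of_notMem ht, pl_zero_out hn hs, abs_zero, mul_zero]
      by_contra hlt
      push Not at hlt
      apply ht
      rw [abs_lt] at hlt
      constructor
      · rw [div_le_iff₀ hr]
        linarith [hlt.1]
      · rw [le_div_iff₀ hr]
        linarith [hlt.2]
  rw [← Real.norm_eq_abs]
  refine (norm_integral_le_of_norm_le ?_ (Eventually.of_forall h4)).trans ?_
  · rw [integrable_indicator_iff measurableSet_Icc]
    exact integrableOn_const (by rw [Real.volume_Icc]; exact ENNReal.ofReal_ne_top)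
  · rw [integral_indicator measurableSet_Icc, setIntegral_const, smul_eq_mul]
    have h5 : volume.real (Icc ((-ρ - c) / r) ((ρ - c) / r)) = 2 * ρ / r := by
      rw [Real.volume_real_Icc_of_le]
      · field_simp
        ring
      · exact div_le_div_of_nonneg_right (by linarith) hr.le
    rw [h5]
    apply le_of_eq
    ring

/-! ## the growth hypothesis -/

lemma MG_use {K γ R a D : ℝ} {m : Sp d → ℝ} (h : MG K γ R a D m) {ρ A : ℝ} (h1 : 1 ≤ ρ)
    (h2 : ρ ≤ R) {H : Sp d → ℝ} (hH : ContDiff ℝ 2 H) (hA : 0 ≤ A) (hb0 : ∀ y, |H y| ≤ A)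
    (hb2 : ∀ y, ‖iteratedFDeriv ℝ 2 H y‖ ≤ A) (hs : ∀ y, ρ ≤ ‖y‖ → H y = 0) :
    |∫ y, m y * H y| ≤ A * (K * ρ ^ ((d : ℝ) - 1 + γ) * a + D) := by
  rcases hA.eq_or_lt with hA | hA
  · have h3 : ∀ y, H y = 0 := fun y => by
      have := hb0 y
      rw [← hA] at this
      exact abs_eq_zero.1 (le_antisymm this (abs_nonneg _))
    simp [h3, ← hA]
  · have h3 := h ρ h1 h2 (fun y => A⁻¹ * H y) (contDiff_const.mul hH) (fun y => ?_) (fun y => ?_)
      (fun y hy => by rw [hs y hy, mul_zero])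
    · have h4 : ∫ y, m y * (A⁻¹ * H y) = A⁻¹ * ∫ y, m y * H y := by
        rw [← integral_const_mul]
        refine integral_congr_ae (Eventually.of_forall fun y => ?_)
        simp only
        ring
      rw [h4, abs_mul, abs_of_pos (inv_pos.2 hA), inv_mul_le_iff₀ hA] at h3
      exact h3
    · rw [abs_mul, abs_of_pos (inv_pos.2 hA), inv_mul_le_iff₀ hA, mul_one]
      exact hb0 y
    · have h5 : iteratedFDeriv ℝ 2 (fun y => A⁻¹ * H y) y = A⁻¹ • iteratedFDeriv ℝ 2 H y :=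
        iteratedFDeriv_const_smul_apply' (a := A⁻¹) hH.contDiffAt
      rw [h5, norm_smul, Real.norm_eq_abs, abs_of_pos (inv_pos.2 hA), inv_mul_le_iff₀ hA, mul_one]
      exact hb2 y

/-! ## one level -/

lemma level {J : ℕ} {R0 ab ep D : ℝ} {m : Sp d → ℝ} {n : Sp d} {s t : ℝ} {x : Sp d}
    (hd : 1 ≤ d) (ht : 1 ≤ t)
    (hx : ‖x‖ ≤ d * t) (hS : Sheet J R0 ab ep D (fun y => t * m (x + t • y)) n s)
    (hR0 : 6 * d + 20 ≤ R0) {G : Sp d → ℝ} (hG : ContDiff ℝ ∞ G) {A P : ℝ} (hA0 : 0 ≤ A)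
    (hA : ∀ k ≤ J + 2, ∀ y, ‖iteratedFDeriv ℝ k G y‖ ≤ A * (1 / t) ^ (k + d))
    (hsupp : ∀ y, (d : ℝ) + 1 + t ≤ ‖y‖ → G y = 0) (hP : ∀ c, |plInt n c G| ≤ P) :
    |∫ y, m y * G y| ≤
      A / t * (ep + blc n s (fun y => t * m (x + t • y)) (4 * d + 8) + 2 * D) + ab * P := by
  have ht0 : 0 < t := by linarith
  set g : Sp d → ℝ := fun y => G (x + t • y) with hg
  have hgs : ContDiff ℝ ∞ g := hG.comp (by fun_prop)
  have hgb : ∀ k ≤ J + 2, ∀ y, ‖iteratedFDeriv ℝ k g y‖ ≤ A * (1 / t) ^ d := by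
    intro k hk y
    have e1 : g = (fun z => G (x + z)) ∘ (t • ContinuousLinearMap.id ℝ (Sp d)) := by
      ext y
      simp [hg]
    have hs : ContDiff ℝ k (fun z => G (x + z)) :=
      (hG.of_le (by exact_mod_cast le_top)).comp (by fun_prop)
    rw [e1, ContinuousLinearMap.iteratedFDeriv_comp_right _ hs y le_rfl]
    refine (ContinuousMultilinearMap.norm_compContinuousLinearMap_le _ _).trans ?_
    rw [Finset.prod_const, iteratedFDeriv_comp_add_left, Finset.card_univ, Fintype.card_fin]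
    have h1 : ‖t • ContinuousLinearMap.id ℝ (Sp d)‖ ≤ t := by
      rw [norm_smul, Real.norm_of_nonneg ht0.le]
      calc t * ‖ContinuousLinearMap.id ℝ (Sp d)‖ ≤ t * 1 :=
            mul_le_mul_of_nonneg_left ContinuousLinearMap.norm_id_le ht0.le
        _ = t := mul_one t
    calc ‖iteratedFDeriv ℝ k G (x + (t • ContinuousLinearMap.id ℝ (Sp d)) y)‖ *
          ‖t • ContinuousLinearMap.id ℝ (Sp d)‖ ^ k ≤ (A * (1 / t) ^ (k + d)) * t ^ k :=
          mul_le_mul (hA k hk _) (pow_le_pow_left₀ (norm_nonneg _) h1 k) (by positivity)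
            (by positivity)
      _ = A * (1 / t) ^ d := by
          rw [pow_add, one_div, inv_pow, inv_pow]
          field_simp
  have hTFn : TFn (J + 2) (A * (1 / t) ^ d) g :=
    ⟨contDiff_infty.1 hgs (J + 2), hgb⟩
  have hgsupp : ∀ y, (4 * d + 7 : ℝ) ≤ ‖y‖ → g y = 0 := by
    intro y hy
    refine hsupp _ ?_
    have h1 : ‖t • y‖ ≤ ‖x + t • y‖ + ‖x‖ := by
      have := norm_sub_le (x + t • y) x
      rwa [add_sub_cancel_left] at this
    rw [norm_smul, Real.norm_of_nonneg ht0.le] at h1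
    have h2 : (4 * d + 7) * t ≤ t * ‖y‖ := by
      rw [mul_comm]
      exact mul_le_mul_of_nonneg_left hy ht0.le
    have hd0 : (1 : ℝ) ≤ d := by exact_mod_cast hd
    nlinarith only [ht, hx, h1, h2]
  have hTB := GSAux.TB_of_TFn hTFn hS.n1 s
  have hest := hS.est g (4 * d + 7) (A * (1 / t) ^ d) (A * (1 / t) ^ d)
    (contDiff_infty.1 hgs (J + 2)) (by positivity) (by
      have hd0 : (1 : ℝ) ≤ d := by exact_mod_cast hd
      linarith) hgsupp hTB
    (fun y => hgb 2 (by omega) y)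
  have hpl : plInt n s g = 1 / t ^ (d - 1) * plInt n (⟪n, x⟫_ℝ + t * s) G :=
    GSAux.plInt_scale hS.n1 x ht0 s G
  have hint : ∫ y, m y * G y = t ^ (d - 1) * ∫ y, t * m (x + t • y) * g y := by
    have h1 := Measure.integral_comp_smul_of_nonneg (volume : Measure (Sp d))
      (fun y => m (x + y) * G (x + y)) t (hR := ht0.le)
    rw [finrank_euclideanSpace_fin, integral_add_left_eq_self (fun y => m y * G y) x,
      smul_eq_mul] at h1
    have h2 : ∫ y, t * m (x + t • y) * g y = t * ∫ y, m (x + t • y) * G (x + t • y) := by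
      rw [← integral_const_mul]
      refine integral_congr_ae (Eventually.of_forall fun y => ?_)
      simp only [hg]
      ring
    rw [h2, h1]
    have h3 : t ^ d = t ^ (d - 1) * t := by
      rw [← pow_succ]
      congr 1
      omega
    rw [h3]
    field_simp
  rw [hpl, show (4 * (d : ℝ) + 7 + 1) = 4 * d + 8 by ring] at hest
  rw [hint, abs_mul, abs_of_nonneg (by positivity : 0 ≤ t ^ (d - 1))]
  set S := ∫ y, t * m (x + t • y) * g y with hSdef
  set pl := plInt n (⟪n, x⟫_ℝ + t * s) G with hpldef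
  set bl := blc n s (fun y => t * m (x + t • y)) (4 * d + 8) with hbldef
  have h5 : |S| ≤ A * (1 / t) ^ d * (ep + bl + 2 * D) + ab * (1 / t ^ (d - 1) * |pl|) := by
    have h6 : |S| ≤ |S - ab * (1 / t ^ (d - 1) * pl)| + |ab * (1 / t ^ (d - 1) * pl)| := by
      have := abs_add_le (S - ab * (1 / t ^ (d - 1) * pl)) (ab * (1 / t ^ (d - 1) * pl))
      rwa [sub_add_cancel] at this
    have h7 : |ab * (1 / t ^ (d - 1) * pl)| = ab * (1 / t ^ (d - 1) * |pl|) := by
      rw [abs_mul, abs_mul, abs_of_pos hS.ab0, abs_of_pos (by positivity : 0 < 1 / t ^ (d - 1))]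
    rw [h7] at h6
    refine h6.trans (add_le_add_left (hest.trans (le_of_eq ?_)) _)
    ring
  have h8 : t ^ (d - 1) * (A * (1 / t) ^ d) = A / t := by
    have h3 : (1 / t) ^ d = 1 / t ^ (d - 1) * (1 / t) := by
      rw [one_div, inv_pow, one_div, ← mul_inv, ← pow_succ]
      congr 2
      omega
    rw [h3]
    field_simp
  calc t ^ (d - 1) * |S| ≤
      t ^ (d - 1) * (A * (1 / t) ^ d * (ep + bl + 2 * D) + ab * (1 / t ^ (d - 1) * |pl|)) :=
        mul_le_mul_of_nonneg_left h5 (by positivity)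
    _ = (t ^ (d - 1) * (A * (1 / t) ^ d)) * (ep + bl + 2 * D) + ab * |pl| := by
        field_simp
    _ ≤ A / t * (ep + bl + 2 * D) + ab * P := by
        rw [h8]
        exact add_le_add_right (mul_le_mul_of_nonneg_left (hP _) hS.ab0.le) _

end AB

end

end TG


end

section

/-! summation of the local inequalities -/

open Set TrI
open scoped ENNReal Classical

namespace TG

noncomputable section

variable {d : ℕ}

/-- cells whose box neighbourhood contains Q' -/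
def rbox (J ρ : ℕ) (Q' : Cell d) : Finset (Cell d) :=
  (Finset.range (J + 1)).biUnion fun i => ({Q'.1 - i} : Finset ℕ) ×ˢ
    Fintype.piFinset fun j => Finset.Ico (2 ^ i * (Q'.2 j - ρ)) (2 ^ i * (Q'.2 j + ρ + 1))

theorem mem_rbox {J ρ : ℕ} {Q Q' : Cell d} (h : Q' ∈ box J ρ Q) : Q ∈ rbox J ρ Q' := by
  simp only [box, Finset.mem_biUnion, Finset.mem_range, Finset.mem_product, Finset.mem_singleton,
    Fintype.mem_piFinset, Finset.mem_Icc] at h
  obtain ⟨i, hi, h1, h2⟩ := h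
  simp only [rbox, Finset.mem_biUnion, Finset.mem_range, Finset.mem_product, Finset.mem_singleton,
    Fintype.mem_piFinset, Finset.mem_Ico]
  refine ⟨i, hi, by omega, ?_⟩
  intro j
  have h3 := h2 j
  have hp : (0 : ℤ) < 2 ^ i := by positivity
  have h6 := Int.mul_ediv_add_emod (Q.2 j) (2 ^ i)
  have h7 := Int.emod_nonneg (Q.2 j) hp.ne'
  have h8 := Int.emod_lt_of_pos (Q.2 j) hp
  constructor
  · nlinarith only [h3, h6, h7, hp]
  · nlinarith only [h3, h6, h8, hp]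

theorem card_rbox (J ρ : ℕ) (Q' : Cell d) :
    (rbox J ρ Q').card ≤ (J + 1) * (2 ^ J * (2 * ρ + 1)) ^ d := by
  unfold rbox
  refine Finset.card_biUnion_le.trans ?_
  calc ∑ i ∈ Finset.range (J + 1), (({Q'.1 - i} : Finset ℕ) ×ˢ
        Fintype.piFinset fun j => Finset.Ico (2 ^ i * (Q'.2 j - ρ))
          (2 ^ i * (Q'.2 j + ρ + 1))).card
      ≤ ∑ _i ∈ Finset.range (J + 1), (2 ^ J * (2 * ρ + 1)) ^ d := by
        apply Finset.sum_le_sum
        intro i hi
        have hi' : i ≤ J := by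
          have := Finset.mem_range.1 hi; omega
        rw [Finset.card_product, Finset.card_singleton, one_mul, Fintype.card_piFinset]
        have e : ∀ j : Fin d, (Finset.Ico (2 ^ i * (Q'.2 j - ρ)) (2 ^ i * (Q'.2 j + ρ + 1))).card
            = 2 ^ i * (2 * ρ + 1) := by
          intro j
          rw [Int.card_Ico]
          have : (2 : ℤ) ^ i * (Q'.2 j + ρ + 1) - 2 ^ i * (Q'.2 j - ρ) =
              ((2 ^ i * (2 * ρ + 1) : ℕ) : ℤ) := by push_cast; ring
          rw [this, Int.toNat_natCast]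
        rw [Finset.prod_congr rfl (fun j _ => e j), Finset.prod_const, Finset.card_univ,
          Fintype.card_fin]
        apply Nat.pow_le_pow_left
        apply Nat.mul_le_mul_right
        exact Nat.pow_le_pow_right (by norm_num) hi'
    _ = _ := by rw [Finset.sum_const, Finset.card_range, smul_eq_mul]

theorem cw_mono {s0 : ℝ} (h : 0 < s0) {Q Q' : Cell d} (hQ : Q.1 ≤ Q'.1) : cw s0 Q ≤ cw s0 Q' := by
  unfold cw lev
  apply pow_le_pow_left₀ (by positivity)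
  apply mul_le_mul_of_nonneg_left _ h.le
  exact pow_le_pow_right₀ (by norm_num) hQ

theorem box_lev {J ρ : ℕ} {Q Q' : Cell d} (h : Q' ∈ box J ρ Q) : Q.1 ≤ Q'.1 := by
  simp only [box, Finset.mem_biUnion, Finset.mem_range, Finset.mem_product,
    Finset.mem_singleton] at h
  obtain ⟨i, hi, h1, h2⟩ := h
  omega

/-- sums over neighbourhoods -/
theorem nb_sum {s0 : ℝ} (hs0 : 0 < s0) {J ρ : ℕ} {nb : Cell d → Finset (Cell d)}
    (hnb : ∀ Q, nb Q ⊆ box J ρ Q) {g : Cell d → ℝ} (hg : ∀ Q, 0 ≤ g Q) :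
    cs univ (fun Q => cw s0 Q * ∑ Q' ∈ nb Q, g Q') ≤
      (((J + 1) * (2 ^ J * (2 * ρ + 1)) ^ d : ℕ) : ℝ≥0∞) * cs univ (fun Q => cw s0 Q * g Q) := by
  rw [cs_univ, cs_univ]
  calc ∑' Q, ENNReal.ofReal (cw s0 Q * ∑ Q' ∈ nb Q, g Q')
      ≤ ∑' Q, ∑' Q' : Cell d, if Q ∈ rbox J ρ Q' then ENNReal.ofReal (cw s0 Q' * g Q') else 0 := by
        apply ENNReal.tsum_le_tsum
        intro Q
        rw [Finset.mul_sum, ENNReal.ofReal_sum_of_nonneg
          (fun Q' _ => mul_nonneg (cw_nonneg hs0 Q) (hg Q'))]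
        refine le_trans ?_ (ENNReal.sum_le_tsum (nb Q))
        apply Finset.sum_le_sum
        intro Q' hQ'
        have h1 := hnb Q hQ'
        rw [if_pos (mem_rbox h1)]
        apply ENNReal.ofReal_le_ofReal
        exact mul_le_mul_of_nonneg_right (cw_mono hs0 (box_lev h1)) (hg Q')
    _ = ∑' Q' : Cell d, ∑' Q, if Q ∈ rbox J ρ Q' then ENNReal.ofReal (cw s0 Q' * g Q') else 0 :=
        ENNReal.tsum_comm
    _ ≤ ∑' Q' : Cell d, (((J + 1) * (2 ^ J * (2 * ρ + 1)) ^ d : ℕ) : ℝ≥0∞) *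
          ENNReal.ofReal (cw s0 Q' * g Q') := by
        apply ENNReal.tsum_le_tsum
        intro Q'
        rw [tsum_eq_sum (s := rbox J ρ Q') (fun Q hQ => if_neg hQ)]
        rw [Finset.sum_congr rfl (fun Q hQ => if_pos hQ), Finset.sum_const, nsmul_eq_mul]
        refine mul_le_mul_left ?_ _
        exact_mod_cast card_rbox J ρ Q'
    _ = _ := ENNReal.tsum_mul_left

/-- summation of one sided bounds -/
theorem ca_sum {N g err : Cell d → ℝ} {T : ℝ} (hN : Summable N) (hT : ∑' Q, N Q ≤ T)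
    (hg : ∀ Q, 0 ≤ g Q) (herr : ∀ Q, 0 ≤ err Q) (h : ∀ Q, g Q ≤ N Q + err Q) (hT0 : 0 ≤ T) :
    cs univ g ≤ ENNReal.ofReal T + cs univ err := by
  rw [cs_univ, cs_univ]
  by_cases he : Summable err
  · have hs : Summable (fun Q => N Q + err Q) := hN.add he
    have hgs : Summable g := Summable.of_nonneg_of_le hg h hs
    rw [← ENNReal.ofReal_tsum_of_nonneg hg hgs, ← ENNReal.ofReal_tsum_of_nonneg herr he,
      ← ENNReal.ofReal_add hT0 (tsum_nonneg herr)]
    apply ENNReal.ofReal_le_ofReal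
    calc ∑' Q, g Q ≤ ∑' Q, (N Q + err Q) := Summable.tsum_le_tsum h hgs hs
      _ = ∑' Q, N Q + ∑' Q, err Q := Summable.tsum_add hN he
      _ ≤ _ := by linarith
  · have : ∑' Q, ENNReal.ofReal (err Q) = ∞ := by
      by_contra hcon
      apply he
      have h1 := ENNReal.summable_toReal hcon
      refine h1.congr ?_
      intro Q
      rw [ENNReal.toReal_ofReal (herr Q)]
    rw [this]
    simp

theorem stmtMJ : StmtMJ := by
  intro d J ρ C1 c0 hd hC1 hc0
  set Mn : ℕ := (J + 1) * (2 ^ J * (2 * ρ + 1)) ^ d with hMn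
  have hMn1 : 1 ≤ Mn := by
    rw [hMn]
    exact Nat.one_le_iff_ne_zero.2 (by positivity)
  set M : ℝ := (Mn : ℝ) with hM
  have hM1 : 1 ≤ M := by rw [hM]; exact_mod_cast hMn1
  have hM0 : 0 < M := by linarith
  have hMe : ((Mn : ℕ) : ℝ≥0∞) = ENNReal.ofReal M := by rw [hM, ENNReal.ofReal_natCast]
  refine ⟨c0 / (2 * M), (4 * M ^ 2 * C1 / c0 + 2 * M) * (1 + C1), by positivity, by positivity, ?_⟩
  intro η2 CK Cs hη2 hCK hCs
  refine ⟨2 * M * C1 * (2 / c0) * (Cs + M * Cs * Cs) + 2 * M * Cs * Cs + 1, by positivity, ?_⟩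
  intro s0 tot nb Nt val cost sB pay iF fx fb S3 S4 hs0 htot hnb hval hcost hsB hpay hiF hP hNs
    hNt hQ1 hQ2 hpays hfin
  set V := cs univ (fun Q => cw s0 Q * val Q) with hV
  set Co := cs univ (fun Q => cw s0 Q * cost Q) with hCo
  set SB := cs univ (fun Q => cw s0 Q * sB Q) with hSB
  set IFs := cs univ (fun Q => cw s0 Q * iF Q) with hIF
  set Py := cs univ (fun Q => cw s0 Q * pay Q) with hPy
  have hsplit : ∀ c : ℝ, 0 ≤ c → cs univ (fun Q => cw s0 Q * (c * val Q + C1 * cost Q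
      + η2 * sB Q + CK * iF Q + Cs * pay Q)) = ENNReal.ofReal c * V + ENNReal.ofReal C1 * Co
        + ENNReal.ofReal η2 * SB + ENNReal.ofReal CK * IFs + ENNReal.ofReal Cs * Py := by
    intro c hc
    have e : (fun Q : Cell d => cw s0 Q * (c * val Q + C1 * cost Q
        + η2 * sB Q + CK * iF Q + Cs * pay Q)) = fun Q => c * (cw s0 Q * val Q)
        + C1 * (cw s0 Q * cost Q) + η2 * (cw s0 Q * sB Q) + CK * (cw s0 Q * iF Q)
        + Cs * (cw s0 Q * pay Q) := by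
      funext Q; ring
    have n1 : ∀ Q : Cell d, 0 ≤ c * (cw s0 Q * val Q) := fun Q => by
      have := cw_nonneg hs0 Q; have := hval Q; positivity
    have n2 : ∀ Q : Cell d, 0 ≤ C1 * (cw s0 Q * cost Q) := fun Q => by
      have := cw_nonneg hs0 Q; have := hcost Q; positivity
    have n3 : ∀ Q : Cell d, 0 ≤ η2 * (cw s0 Q * sB Q) := fun Q => by
      have := cw_nonneg hs0 Q; have := hsB Q; positivity
    have n4 : ∀ Q : Cell d, 0 ≤ CK * (cw s0 Q * iF Q) := fun Q => by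
      have := cw_nonneg hs0 Q; have := hiF Q; positivity
    have n5 : ∀ Q : Cell d, 0 ≤ Cs * (cw s0 Q * pay Q) := fun Q => by
      have := cw_nonneg hs0 Q; have := hpay Q; positivity
    rw [e, cs_add (fun Q _ => add_nonneg (add_nonneg (add_nonneg (n1 Q) (n2 Q)) (n3 Q)) (n4 Q))
      (fun Q _ => n5 Q), cs_add (fun Q _ => add_nonneg (add_nonneg (n1 Q) (n2 Q)) (n3 Q))
      (fun Q _ => n4 Q), cs_add (fun Q _ => add_nonneg (n1 Q) (n2 Q)) (fun Q _ => n3 Q),
      cs_add (fun Q _ => n1 Q) (fun Q _ => n2 Q), cs_mul hc, cs_mul hC1.le, cs_mul hη2,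
      cs_mul hCK, cs_mul hCs]
  have hgn : ∀ c : ℝ, 0 ≤ c → ∀ Q : Cell d, 0 ≤ c * val Q + C1 * cost Q
      + η2 * sB Q + CK * iF Q + Cs * pay Q := by
    intro c hc Q
    have := hval Q; have := hcost Q; have := hsB Q; have := hiF Q; have := hpay Q
    positivity
  set X : ℝ≥0∞ := ENNReal.ofReal C1 * Co + ENNReal.ofReal η2 * SB + ENNReal.ofReal CK * IFs
    with hX
  have hXc : ∀ c : ℝ, 0 ≤ c → cs univ (fun Q => cw s0 Q * ∑ Q' ∈ nb Q, (c * val Q' + C1 * cost Q'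
      + η2 * sB Q' + CK * iF Q' + Cs * pay Q')) ≤
      ENNReal.ofReal M * (ENNReal.ofReal c * V + X + ENNReal.ofReal (Cs * Cs * tot)) := by
    intro c hc
    refine (nb_sum hs0 hnb (hgn c hc)).trans ?_
    rw [hsplit c hc, ← hMn, hMe]
    refine mul_le_mul_right ?_ _
    rw [hX]
    have : ENNReal.ofReal Cs * Py ≤ ENNReal.ofReal (Cs * Cs * tot) := by
      calc ENNReal.ofReal Cs * Py ≤ ENNReal.ofReal Cs * ENNReal.ofReal (Cs * tot) :=
            mul_le_mul_right hpays _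
        _ = _ := by rw [← ENNReal.ofReal_mul hCs, mul_assoc]
    calc _ ≤ ENNReal.ofReal c * V + ENNReal.ofReal C1 * Co + ENNReal.ofReal η2 * SB +
          ENNReal.ofReal CK * IFs + ENNReal.ofReal (Cs * Cs * tot) := add_le_add le_rfl this
      _ = _ := by ring
  -- the main inequality
  have hmain : ENNReal.ofReal c0 * V ≤ ENNReal.ofReal (Cs * tot) +
      ENNReal.ofReal M * (ENNReal.ofReal (c0 / (2 * M)) * V + X +
        ENNReal.ofReal (Cs * Cs * tot)) := by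
    refine le_trans ?_ (add_le_add le_rfl (hXc (c0 / (2 * M)) (by positivity)))
    rw [hV, ← cs_mul hc0.le]
    exact ca_sum hNs (hNt.trans le_rfl) (fun Q => by
      have := cw_nonneg hs0 Q; have := hval Q; positivity)
      (fun Q => mul_nonneg (cw_nonneg hs0 Q) (Finset.sum_nonneg (fun Q' _ =>
        hgn _ (by positivity) Q'))) hP (by positivity)
  -- absorb
  have hVbound : V ≤ ENNReal.ofReal (2 / c0) * (ENNReal.ofReal (Cs * tot) +
      ENNReal.ofReal M * (X + ENNReal.ofReal (Cs * Cs * tot))) := by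
    have e1 : ENNReal.ofReal M * (ENNReal.ofReal (c0 / (2 * M)) * V + X +
        ENNReal.ofReal (Cs * Cs * tot)) = ENNReal.ofReal (c0 / 2) * V +
        ENNReal.ofReal M * (X + ENNReal.ofReal (Cs * Cs * tot)) := by
      have : ENNReal.ofReal M * (ENNReal.ofReal (c0 / (2 * M)) * V) =
          ENNReal.ofReal (c0 / 2) * V := by
        rw [← mul_assoc, ← ENNReal.ofReal_mul hM0.le]
        congr 2; field_simp
      rw [add_assoc, mul_add, this]
    rw [e1] at hmain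
    have e2 : ENNReal.ofReal c0 * V = ENNReal.ofReal (c0 / 2) * V + ENNReal.ofReal (c0 / 2) * V := by
      rw [← add_mul, ← ENNReal.ofReal_add (by positivity) (by positivity)]
      congr 2; ring
    have hVt : ENNReal.ofReal (c0 / 2) * V ≠ ∞ := ENNReal.mul_ne_top ENNReal.ofReal_ne_top hfin.ne
    have h5 : ENNReal.ofReal (c0 / 2) * V ≤ ENNReal.ofReal (Cs * tot) +
        ENNReal.ofReal M * (X + ENNReal.ofReal (Cs * Cs * tot)) := by
      have h6 : ENNReal.ofReal (c0 / 2) * V + ENNReal.ofReal (c0 / 2) * V ≤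
          (ENNReal.ofReal (Cs * tot) + ENNReal.ofReal M * (X + ENNReal.ofReal (Cs * Cs * tot)))
            + ENNReal.ofReal (c0 / 2) * V := by
        rw [← e2]
        refine hmain.trans (le_of_eq ?_)
        ring
      exact (ENNReal.add_le_add_iff_right hVt).1 h6
    calc V = ENNReal.ofReal (2 / c0) * (ENNReal.ofReal (c0 / 2) * V) := by
          rw [← mul_assoc, ← ENNReal.ofReal_mul (by positivity)]
          have : 2 / c0 * (c0 / 2) = 1 := by field_simp
          rw [this, ENNReal.ofReal_one, one_mul]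
      _ ≤ _ := mul_le_mul_right h5 _
  -- conclusion
  have hS : ∀ (S : Set (Cell d)) (f : Cell d → ℝ), (∀ Q ∈ S, f Q ≤ ∑ Q' ∈ nb Q,
      (C1 * val Q' + C1 * cost Q' + η2 * sB Q' + CK * iF Q' + Cs * pay Q')) →
      cs S (fun Q => cw s0 Q * f Q) ≤
        ENNReal.ofReal M * (ENNReal.ofReal C1 * V + X + ENNReal.ofReal (Cs * Cs * tot)) := by
    intro S f hf
    refine le_trans ?_ (hXc C1 hC1.le)
    refine (cs_mono (fun Q hQ => mul_le_mul_of_nonneg_left (hf Q hQ) (cw_nonneg hs0 Q))).trans ?_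
    exact cs_le_univ S _
  have hr0 : 0 ≤ Cs * tot := by positivity
  have hr1 : 0 ≤ Cs * Cs * tot := by positivity
  calc cs S3 (fun Q => cw s0 Q * fx Q) + cs S4 (fun Q => cw s0 Q * fb Q)
      ≤ ENNReal.ofReal M * (ENNReal.ofReal C1 * V + X + ENNReal.ofReal (Cs * Cs * tot))
        + ENNReal.ofReal M * (ENNReal.ofReal C1 * V + X + ENNReal.ofReal (Cs * Cs * tot)) :=
        add_le_add (hS S3 fx hQ1) (hS S4 fb hQ2)
    _ = ENNReal.ofReal (2 * M) * (ENNReal.ofReal C1 * V + X + ENNReal.ofReal (Cs * Cs * tot)) := by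
        have e2M : ENNReal.ofReal (2 * M) = 2 * ENNReal.ofReal M := by
          rw [ENNReal.ofReal_mul (by norm_num)]
          simp
        rw [e2M]; ring
    _ ≤ ENNReal.ofReal (2 * M) * (ENNReal.ofReal C1 * (ENNReal.ofReal (2 / c0) *
        (ENNReal.ofReal (Cs * tot) + ENNReal.ofReal M * (X + ENNReal.ofReal (Cs * Cs * tot))))
        + X + ENNReal.ofReal (Cs * Cs * tot)) := by (clear * - hVbound; gcongr)
    _ = (ENNReal.ofReal (2 * M * C1 * (2 / c0) * M) + ENNReal.ofReal (2 * M)) * X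
        + ENNReal.ofReal (2 * M * C1 * (2 / c0) * (Cs * tot + M * (Cs * Cs * tot))
          + 2 * M * (Cs * Cs * tot)) := by
        have q1 : ENNReal.ofReal (2 * M * C1 * (2 / c0) * M) = ENNReal.ofReal (2 * M) *
            ENNReal.ofReal C1 * ENNReal.ofReal (2 / c0) * ENNReal.ofReal M := by
          rw [← ENNReal.ofReal_mul (by positivity), ← ENNReal.ofReal_mul (by positivity),
            ← ENNReal.ofReal_mul (by positivity)]
        have q2 : ENNReal.ofReal (2 * M * C1 * (2 / c0) * (Cs * tot + M * (Cs * Cs * tot))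
            + 2 * M * (Cs * Cs * tot)) = ENNReal.ofReal (2 * M) * ENNReal.ofReal C1 *
            ENNReal.ofReal (2 / c0) * (ENNReal.ofReal (Cs * tot) +
              ENNReal.ofReal M * ENNReal.ofReal (Cs * Cs * tot)) +
            ENNReal.ofReal (2 * M) * ENNReal.ofReal (Cs * Cs * tot) := by
          rw [← ENNReal.ofReal_mul (by positivity), ← ENNReal.ofReal_mul (by positivity),
            ← ENNReal.ofReal_mul (by positivity), ← ENNReal.ofReal_add (by positivity)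
            (by positivity), ← ENNReal.ofReal_mul (by positivity), ← ENNReal.ofReal_mul
            (by positivity), ← ENNReal.ofReal_add (by (clear * - hC1 hc0 hCs htot; positivity)) (by positivity)]
        rw [q1, q2]
        ring
    _ ≤ ENNReal.ofReal ((4 * M ^ 2 * C1 / c0 + 2 * M) * (1 + C1)) *
          (ENNReal.ofReal η2 * SB + ENNReal.ofReal CK * IFs + Co)
        + ENNReal.ofReal ((2 * M * C1 * (2 / c0) * (Cs + M * Cs * Cs) + 2 * M * Cs * Cs + 1)
          * tot) := by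
        refine add_le_add ?_ ?_
        · rw [← ENNReal.ofReal_add (by positivity) (by positivity)]
          have e5 : 2 * M * C1 * (2 / c0) * M + 2 * M = 4 * M ^ 2 * C1 / c0 + 2 * M := by
            field_simp; ring
          rw [e5]
          have hone : (1 : ℝ≥0∞) ≤ ENNReal.ofReal (1 + C1) := by
            rw [← ENNReal.ofReal_one]
            exact ENNReal.ofReal_le_ofReal (by linarith)
          have k1 : ∀ Z : ℝ≥0∞, Z ≤ ENNReal.ofReal (1 + C1) * Z := by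
            intro Z
            calc Z = 1 * Z := (one_mul Z).symm
              _ ≤ ENNReal.ofReal (1 + C1) * Z := by gcongr
          have k2 : ENNReal.ofReal C1 * Co ≤ ENNReal.ofReal (1 + C1) * Co := by
            gcongr
            linarith
          have k3 : X ≤ ENNReal.ofReal (1 + C1) *
              (ENNReal.ofReal η2 * SB + ENNReal.ofReal CK * IFs + Co) := by
            rw [hX]
            calc ENNReal.ofReal C1 * Co + ENNReal.ofReal η2 * SB + ENNReal.ofReal CK * IFs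
                ≤ ENNReal.ofReal (1 + C1) * Co + ENNReal.ofReal (1 + C1) * (ENNReal.ofReal η2 * SB)
                  + ENNReal.ofReal (1 + C1) * (ENNReal.ofReal CK * IFs) :=
                  add_le_add (add_le_add k2 (k1 _)) (k1 _)
              _ = _ := by ring
          calc ENNReal.ofReal (4 * M ^ 2 * C1 / c0 + 2 * M) * X
              ≤ ENNReal.ofReal (4 * M ^ 2 * C1 / c0 + 2 * M) * (ENNReal.ofReal (1 + C1) *
              (ENNReal.ofReal η2 * SB + ENNReal.ofReal CK * IFs + Co)) := by gcongr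
            _ = _ := by
              rw [← mul_assoc, ← ENNReal.ofReal_mul (by positivity)]
        · apply ENNReal.ofReal_le_ofReal
          linarith only [htot]
    _ = _ := by
        rw [ENNReal.ofReal_mul (p := (4 * M ^ 2 * C1 / c0 + 2 * M) * (1 + C1)) (q := η2)
          (by positivity), ENNReal.ofReal_mul (p := (4 * M ^ 2 * C1 / c0 + 2 * M) * (1 + C1))
          (q := CK) (by positivity)]
        ring

end

end TG


end

section

set_option autoImplicit false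
set_option linter.unusedSectionVars false
set_option linter.unusedVariables false

/-!
# Final assembly, abstract part: basic estimates   (helper47)
-/

open MeasureTheory Metric Set TrI
open scoped InnerProductSpace ContDiff ENNReal

namespace TG

noncomputable section

variable {d : ℕ}

/-- levels at least two -/
def L2 (d : ℕ) : Set (Cell d) := {Q | 2 ≤ Q.1}

/-- all facts on the numbers which do not depend on the thresholds -/
structure FinH (C0 C1R C9 : ℝ) (J e ρb Nb : ℕ) (Cu γ s0 tot : ℝ)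
    (ns nb : Cell d → Finset (Cell d)) (Nr : Set (Cell d))
    (a al ah at' D b oml omp v TG Y : Cell d → ℝ) (G : ℕ → Cell d → ℝ) : Prop where
  T : TreeH C0 s0 tot a at' D oml omp G
  W : WtH s0 Cu Nb ns nb Nr v oml
  R : Rob C1R J e nb a ah at' D b
  box : ∀ Q, nb Q ⊆ box J ρb Q
  al0 : ∀ Q, 0 ≤ al Q
  al_ah : ∀ Q, al Q ≤ ah Q
  b_al : ∀ Q, b Q ≤ C0 * (al Q + D Q)
  b_at : ∀ Q, b Q ≤ C0 * (at' Q + D Q)
  oml_le : ∀ Q, oml Q ≤ C0
  oml_omp : ∀ Q, oml Q ≤ omp Q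
  v_le : ∀ Q, v Q ≤ C0
  omp_v : ∀ Q, omp Q ≤ C0 * v Q
  omp9 : ∀ Q, omp Q ≤ C0 * oml (up 9 Q)
  b9 : ∀ Q, b Q ≤ C0 * (b (up 9 Q) + D Q + D (up 9 Q))
  TG0 : ∀ Q, 0 ≤ TG Q
  TGs : cs univ (fun P => cw s0 P * TG P) ≤ ENNReal.ofReal (C0 * tot)
  flat : ∀ P, (∀ l : ℕ, at' (up l P) ≤ (2 : ℝ) ^ (γ * l) * at' P) → at' P ≤ C0 * (ah P + TG P)
  ah9 : ∀ Q, ah Q ≤ C9 * (ah (up 9 Q) + D (up 9 Q))
  Y0 : ∀ Q, 0 ≤ Y Q
  LS : ∀ i : ℕ, cs {Q : Cell d | Q.1 = i} (fun Q => cw s0 Q * a Q) ≤ ENNReal.ofReal (C0 * tot)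
  fin1 : cs univ (fun Q => cw s0 Q * (b Q * oml Q)) < ⊤

/-- b oml on the levels at least two, weight included -/
def fXF (s0 : ℝ) (b oml : Cell d → ℝ) : Cell d → ℝ :=
  (L2 d).indicator fun Q => cw s0 Q * (b Q * oml Q)

/-- Y + b v on the levels at least two, weight included -/
def fBF (s0 : ℝ) (Y b v : Cell d → ℝ) : Cell d → ℝ :=
  (L2 d).indicator fun Q => cw s0 Q * (Y Q + b (up 9 Q) * v Q)

/-- the interface sum, weight included -/
def fSF (s0 : ℝ) (D b oml : Cell d → ℝ) (Q : Cell d) : ℝ :=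
  cw s0 Q * ((sh b Q + sh D Q) * oml Q)

namespace Fin

lemma cs_ind (S : Set (Cell d)) (F : Cell d → ℝ) : cs univ (S.indicator F) = cs S F := by
  unfold cs
  apply tsum_congr
  intro Q
  by_cases h : Q ∈ S <;> simp [h]

lemma cs_ind_mul (S : Set (Cell d)) (w F : Cell d → ℝ) :
    cs univ (fun Q => w Q * S.indicator F Q) = cs S (fun Q => w Q * F Q) := by
  unfold cs
  apply tsum_congr
  intro Q
  by_cases h : Q ∈ S <;> simp [h]

lemma cs_inter_ind (S T : Set (Cell d)) (F : Cell d → ℝ) :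
    cs S (T.indicator F) = cs (S ∩ T) F := by
  unfold cs
  apply tsum_congr
  intro Q
  by_cases h : Q ∈ S <;> by_cases h' : Q ∈ T <;> simp [h, h']

lemma cs_split (S T : Set (Cell d)) (F : Cell d → ℝ) :
    cs S F ≤ cs (S ∩ T) F + cs (S ∩ Tᶜ) F := by
  refine le_trans (cs_subset ?_ F) (cs_union _ _ F)
  intro Q hQ
  by_cases h : Q ∈ T
  · exact Or.inl ⟨hQ, h⟩
  · exact Or.inr ⟨hQ, h⟩

lemma ofR {x y : ℝ} (h : x ≤ y) : ENNReal.ofReal x ≤ ENNReal.ofReal y := ENNReal.ofReal_le_ofReal h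

section
variable {C0 C1R C9 Cu γ s0 tot : ℝ} {J e ρb Nb : ℕ}
  {ns nb : Cell d → Finset (Cell d)} {Nr : Set (Cell d)}
  {a al ah at' D b oml omp v TG Y : Cell d → ℝ} {G : ℕ → Cell d → ℝ}

lemma C0_pos (H : FinH C0 C1R C9 J e ρb Nb Cu γ s0 tot ns nb Nr a al ah at' D b oml omp v TG Y G) :
    0 < C0 := lt_of_lt_of_le one_pos H.T.C0_one

lemma cwp (H : FinH C0 C1R C9 J e ρb Nb Cu γ s0 tot ns nb Nr a al ah at' D b oml omp v TG Y G)
    (Q : Cell d) : 0 < cw s0 Q := cw_pos H.T.s0_pos Q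

/-- the two bottom levels: masses -/
lemma low_a (H : FinH C0 C1R C9 J e ρb Nb Cu γ s0 tot ns nb Nr a al ah at' D b oml omp v TG Y G) :
    cs (L2 d)ᶜ (fun Q => cw s0 Q * a Q) ≤ ENNReal.ofReal (2 * C0 * tot) := by
  have h1 : (L2 d)ᶜ ⊆ {Q : Cell d | Q.1 = 0} ∪ {Q : Cell d | Q.1 = 1} := by
    intro Q hQ
    simp only [L2, mem_compl_iff, mem_ofPred_eq, not_le] at hQ
    have : Q.1 = 0 ∨ Q.1 = 1 := by omega
    exact this
  refine (cs_subset h1 _).trans ((cs_union _ _ _).trans ?_)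
  have h0 := C0_pos H
  have ht := H.T.tot_nonneg
  calc _ ≤ ENNReal.ofReal (C0 * tot) + ENNReal.ofReal (C0 * tot) := add_le_add (H.LS 0) (H.LS 1)
    _ = ENNReal.ofReal (2 * C0 * tot) := by
        rw [← ENNReal.ofReal_add (by positivity) (by positivity)]; ring_nf

/-- the sum of all b oml -/
lemma sum_b (H : FinH C0 C1R C9 J e ρb Nb Cu γ s0 tot ns nb Nr a al ah at' D b oml omp v TG Y G) :
    cs univ (fun Q => cw s0 Q * b Q * oml Q) ≤ cs univ (fXF s0 b oml) +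
      ENNReal.ofReal (3 * C0 ^ 3 * tot) := by
  have h0 := C0_pos H
  have ht := H.T.tot_nonneg
  have h1 := cs_split (d := d) univ (L2 d) (fun Q => cw s0 Q * b Q * oml Q)
  rw [univ_inter, univ_inter] at h1
  refine h1.trans (add_le_add ?_ ?_)
  · unfold fXF
    rw [cs_ind]
    exact le_of_eq (congrArg _ (funext fun Q => by ring))
  · calc cs (L2 d)ᶜ (fun Q => cw s0 Q * b Q * oml Q)
        ≤ cs (L2 d)ᶜ (fun Q => C0 ^ 2 * (cw s0 Q * a Q) + C0 ^ 2 * (cw s0 Q * D Q)) := by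
          refine cs_mono fun Q _ => ?_
          have hw := cwp H Q
          have hb := H.b_al Q
          have hb0 := H.R.b_nonneg Q
          have ho := H.oml_le Q
          have ho0 := H.T.oml_nonneg Q
          have hal : al Q ≤ a Q := (H.al_ah Q).trans (H.R.ah_le Q)
          have hD := H.T.D_nonneg Q
          have h2 : b Q ≤ C0 * (a Q + D Q) := hb.trans (mul_le_mul_of_nonneg_left (by linarith) h0.le)
          have ha := H.T.a_nonneg Q
          calc cw s0 Q * b Q * oml Q ≤ cw s0 Q * (C0 * (a Q + D Q)) * C0 :=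
                mul_le_mul (mul_le_mul_of_nonneg_left h2 hw.le) ho ho0 (by positivity)
            _ = _ := by ring
      _ ≤ ENNReal.ofReal (C0 ^ 2) * cs (L2 d)ᶜ (fun Q => cw s0 Q * a Q) +
          ENNReal.ofReal (C0 ^ 2) * cs univ (fun Q => cw s0 Q * D Q) := by
          rw [cs_add (fun Q _ => mul_nonneg (by positivity) (mul_nonneg (cwp H Q).le
            (H.T.a_nonneg Q))) (fun Q _ => mul_nonneg (by positivity) (mul_nonneg (cwp H Q).le
            (H.T.D_nonneg Q))), cs_mul (by positivity), cs_mul (by positivity)]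
          exact add_le_add le_rfl (mul_le_mul_right (cs_le_univ _ _) _)
      _ ≤ ENNReal.ofReal (C0 ^ 2) * ENNReal.ofReal (2 * C0 * tot) +
          ENNReal.ofReal (C0 ^ 2) * ENNReal.ofReal (C0 * tot) :=
          add_le_add (mul_le_mul_right (low_a H) _) (mul_le_mul_right H.T.D_sum _)
      _ = _ := by
          rw [← ENNReal.ofReal_mul (by positivity), ← ENNReal.ofReal_mul (by positivity),
            ← ENNReal.ofReal_add (by positivity) (by positivity)]
          ring_nf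

/-- the sums of D over structured cells -/
lemma ts_D {CA K d0 : ℝ} (hCA : 0 < CA) (hK : 1 ≤ K) (hd0 : 0 < d0) (hd01 : d0 ≤ 1)
    (H : FinH C0 C1R C9 J e ρb Nb Cu γ s0 tot ns nb Nr a al ah at' D b oml omp v TG Y G)
    (h1 : ∀ (s0 tot K : ℝ) (a at' D oml omp b : Cell d → ℝ) (G : ℕ → Cell d → ℝ)
      (NL : Set (Cell d)), 1 ≤ K → TreeH C0 s0 tot a at' D oml omp G →
      (∀ Q, 0 ≤ b Q) → (∀ Q, b Q ≤ C0 * (at' Q + D Q)) →
      (∃ B, ∀ Q, D Q ≤ B) → (∃ B, ∀ Q, b Q ≤ B) →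
      (∀ Q ∈ NL, ∀ i : ℕ, at' (up i Q) ≤ K * (2 : ℝ) ^ (γ * i) * a Q) →
      (∀ Q ∈ NL, ∀ i : ℕ, D (up i Q) ≤ (2 : ℝ) ^ ((i : ℝ) / 4) * a Q) →
      cs NL (fun Q => cw s0 Q * oml Q * sh D Q) ≤ ENNReal.ofReal (CA * K * tot) ∧
      cs NL (fun Q => cw s0 Q * oml Q * sh b Q) ≤
        ENNReal.ofReal (CA * Real.sqrt K) * cs univ (fun P => cw s0 P * b P * omp P)
          + ENNReal.ofReal (CA * K * tot)) :
    cs (Strc γ K d0 a at' D) (fun Q => cw s0 Q * (sh D Q * oml Q)) ≤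
      ENNReal.ofReal (CA * K * tot) ∧
    cs (Strc γ K d0 a at' D) (fun Q => cw s0 Q * (sh b Q * oml Q)) ≤
      ENNReal.ofReal (CA * Real.sqrt K) * cs univ (fun P => cw s0 P * b P * omp P)
          + ENNReal.ofReal (CA * K * tot) := by
  obtain ⟨h2, h3⟩ := h1 s0 tot K a at' D oml omp b G (Strc γ K d0 a at' D) hK H.T H.R.b_nonneg
    H.b_at H.R.D_bd H.R.b_bd (fun Q hQ i => hQ.2.1 i) (fun Q hQ i => by
      refine (hQ.2.2 i).trans (mul_le_mul_of_nonneg_right ?_ (H.T.a_nonneg Q))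
      calc d0 * (2 : ℝ) ^ ((i : ℝ) / 8) ≤ 1 * (2 : ℝ) ^ ((i : ℝ) / 4) := by
            refine mul_le_mul hd01 ?_ (by positivity) (by norm_num)
            refine Real.rpow_le_rpow_of_exponent_le (by norm_num) ?_
            have : (0 : ℝ) ≤ i := Nat.cast_nonneg i
            linarith
        _ = _ := one_mul _)
  refine ⟨le_trans (le_of_eq (congrArg _ (funext fun Q => ?_))) h2,
    le_trans (le_of_eq (congrArg _ (funext fun Q => ?_))) h3⟩ <;> ring

/-- the sums of b over structured cells -/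
lemma ts_b {CA CB K d0 : ℝ} (hCA : 0 < CA) (hCB : 0 < CB) (hK : 1 ≤ K)
    (H : FinH C0 C1R C9 J e ρb Nb Cu γ s0 tot ns nb Nr a al ah at' D b oml omp v TG Y G)
    (h3 : cs (Strc γ K d0 a at' D) (fun Q => cw s0 Q * (sh b Q * oml Q)) ≤
      ENNReal.ofReal (CA * Real.sqrt K) * cs univ (fun P => cw s0 P * b P * omp P)
          + ENNReal.ofReal (CA * K * tot))
    (h4 : cs univ (fun P => cw s0 P * b P * omp P) ≤
        ENNReal.ofReal CB * cs univ (fun P => cw s0 P * b P * oml P) + ENNReal.ofReal (CB * tot)) :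
    cs (Strc γ K d0 a at' D) (fun Q => cw s0 Q * (sh b Q * oml Q)) ≤
      ENNReal.ofReal (CA * Real.sqrt K * CB) * cs univ (fXF s0 b oml) +
        ENNReal.ofReal ((CA * Real.sqrt K * CB * (3 * C0 ^ 3 + 1) + CA * K) * tot) := by
  have h0 := C0_pos H
  have ht := H.T.tot_nonneg
  have hA : 0 ≤ CA * Real.sqrt K := by positivity
  refine h3.trans ?_
  calc ENNReal.ofReal (CA * Real.sqrt K) * cs univ (fun P => cw s0 P * b P * omp P)
          + ENNReal.ofReal (CA * K * tot)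
      ≤ ENNReal.ofReal (CA * Real.sqrt K) * (ENNReal.ofReal CB * (cs univ (fXF s0 b oml) +
          ENNReal.ofReal (3 * C0 ^ 3 * tot)) + ENNReal.ofReal (CB * tot))
          + ENNReal.ofReal (CA * K * tot) := by
        refine add_le_add (mul_le_mul_right (h4.trans (add_le_add (mul_le_mul_right (sum_b H) _)
          le_rfl)) _) le_rfl
    _ = _ := by
        rw [mul_add, mul_add, mul_add, ← mul_assoc, ← ENNReal.ofReal_mul hA,
          ← ENNReal.ofReal_mul hCB.le, ← ENNReal.ofReal_mul hA, ← ENNReal.ofReal_mul hA,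
          add_assoc, add_assoc, ← ENNReal.ofReal_add (by positivity) (by positivity),
          ← ENNReal.ofReal_add (by positivity) (by positivity)]
        ring_nf

/-- incoherent cells -/
lemma inc_sum {CT2s θ d1 : ℝ} (hC : 0 < CT2s) (hθ : 0 < θ) (hθ1 : θ ≤ 1) (hd1 : 0 < d1)
    (hd11 : d1 ≤ 1)
    (H : FinH C0 C1R C9 J e ρb Nb Cu γ s0 tot ns nb Nr a al ah at' D b oml omp v TG Y G)
    (h1 : ∀ (s0 tot K δ : ℝ) (a at' D oml omp o : Cell d → ℝ) (G : ℕ → Cell d → ℝ)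
      (S : Set (Cell d)), 1 ≤ K → 0 < δ → δ ≤ 1 → TreeH C0 s0 tot a at' D oml omp G →
      (∀ Q, 0 ≤ o Q) →
      (∀ (i : ℕ) (P : Cell d), i ≤ P.1 → ∑ Q ∈ dn i P, cw s0 Q * o Q ^ 2 ≤ C0 * cw s0 P) →
      (∀ Q ∈ S, ∀ i : ℕ, at' (up i Q) ≤ K * (2 : ℝ) ^ (γ * i) * a Q) →
      (∀ Q ∈ S, ∃ i : ℕ, δ * (2 : ℝ) ^ ((i : ℝ) / 8) * a Q ≤ D (up i Q)) →
      cs S (fun Q => cw s0 Q * a Q * o Q) ≤ ENNReal.ofReal (CT2s * K / δ * tot))
    (h2 : ∀ Q, Q ∉ WL γ θ ah at' → 0 < ah Q ∧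
        ∀ l : ℕ, θ * at' (up l Q) ≤ (2 : ℝ) ^ (γ * l) * ah Q) :
    cs (Inc γ θ d1 a ah at' D) (fun Q => cw s0 Q * (a Q * oml Q)) ≤
      ENNReal.ofReal (CT2s * (1 / θ) / d1 * tot) := by
  have h3 := h1 s0 tot (1 / θ) d1 a at' D oml omp oml G (Inc γ θ d1 a ah at' D)
    (by rw [le_div_iff₀ hθ]; linarith) hd1 hd11 H.T H.T.oml_nonneg (fun i P hi => by
      refine le_trans (Finset.sum_le_sum fun Q _ => ?_) (H.T.T3 i P hi)
      exact mul_le_mul_of_nonneg_left (pow_le_pow_left₀ (H.T.oml_nonneg Q) (H.oml_omp Q) 2)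
        (cwp H Q).le) (fun Q hQ i => by
      have h4 := (h2 Q hQ.1).2 i
      have h5 := mul_le_mul_of_nonneg_left (H.R.ah_le Q)
        (by positivity : (0 : ℝ) ≤ (2 : ℝ) ^ (γ * i))
      have h6 : θ * at' (up i Q) ≤ (2 : ℝ) ^ (γ * i) * a Q := h4.trans h5
      rw [one_div, mul_assoc, ← div_eq_inv_mul, le_div_iff₀ hθ]
      linarith) (fun Q hQ => by
      obtain ⟨l, hl⟩ := hQ.2
      exact ⟨l, hl.le⟩)
  refine le_trans (le_of_eq (congrArg _ (funext fun Q => ?_))) h3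
  ring

/-- the costs -/
lemma cost_sum {θ d1 CI : ℝ} (hCI : 0 ≤ CI)
    (H : FinH C0 C1R C9 J e ρb Nb Cu γ s0 tot ns nb Nr a al ah at' D b oml omp v TG Y G)
    (h1 : cs (Inc γ θ d1 a ah at' D) (fun Q => cw s0 Q * (a Q * oml Q)) ≤
      ENNReal.ofReal (CI * tot)) :
    cs univ (fun Q => cw s0 Q * costF (Solid γ θ d1 a ah at' D) al D oml Q) ≤
      cs (WL γ θ ah at') (fun Q => cw s0 Q * al Q * oml Q) +
        ENNReal.ofReal ((CI + C0 ^ 2) * tot) := by
  have h0 := C0_pos H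
  have ht := H.T.tot_nonneg
  unfold costF
  rw [cs_ind_mul]
  have h2 : (Solid γ θ d1 a ah at' D)ᶜ ⊆ WL γ θ ah at' ∪ Inc γ θ d1 a ah at' D := by
    intro Q hQ
    by_cases hW : Q ∈ WL γ θ ah at'
    · exact Or.inl hW
    · refine Or.inr ⟨hW, ?_⟩
      by_contra hneg
      refine hQ ⟨hW, fun l => ?_⟩
      by_contra h'
      exact hneg ⟨l, not_le.1 h'⟩
  have hD : cs univ (fun Q => cw s0 Q * (D Q * oml Q)) ≤ ENNReal.ofReal (C0 ^ 2 * tot) := by
    calc cs univ (fun Q => cw s0 Q * (D Q * oml Q)) ≤ cs univ (fun Q => C0 * (cw s0 Q * D Q)) := by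
          refine cs_mono fun Q _ => ?_
          have h3 := mul_le_mul_of_nonneg_left (H.oml_le Q)
            (mul_nonneg (cwp H Q).le (H.T.D_nonneg Q))
          linarith
      _ = ENNReal.ofReal C0 * cs univ (fun Q => cw s0 Q * D Q) := cs_mul h0.le _
      _ ≤ ENNReal.ofReal C0 * ENNReal.ofReal (C0 * tot) := mul_le_mul_right H.T.D_sum _
      _ = _ := by rw [← ENNReal.ofReal_mul h0.le]; ring_nf
  calc cs (Solid γ θ d1 a ah at' D)ᶜ (fun Q => cw s0 Q * ((al Q + D Q) * oml Q))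
      ≤ cs (Solid γ θ d1 a ah at' D)ᶜ (fun Q => cw s0 Q * al Q * oml Q) +
          cs (Solid γ θ d1 a ah at' D)ᶜ (fun Q => cw s0 Q * (D Q * oml Q)) := by
        rw [← cs_add (fun Q _ => mul_nonneg (mul_nonneg (cwp H Q).le (H.al0 Q))
          (H.T.oml_nonneg Q)) (fun Q _ => mul_nonneg (cwp H Q).le (mul_nonneg (H.T.D_nonneg Q)
          (H.T.oml_nonneg Q)))]
        exact le_of_eq (congrArg _ (funext fun Q => by ring))
    _ ≤ (cs (WL γ θ ah at') (fun Q => cw s0 Q * al Q * oml Q) +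
          cs (Inc γ θ d1 a ah at' D) (fun Q => cw s0 Q * al Q * oml Q)) +
          ENNReal.ofReal (C0 ^ 2 * tot) :=
        add_le_add ((cs_subset h2 _).trans (cs_union _ _ _)) ((cs_le_univ _ _).trans hD)
    _ ≤ (cs (WL γ θ ah at') (fun Q => cw s0 Q * al Q * oml Q) + ENNReal.ofReal (CI * tot)) +
          ENNReal.ofReal (C0 ^ 2 * tot) := by
        refine add_le_add (add_le_add le_rfl (le_trans (cs_mono fun Q _ => ?_) h1)) le_rfl
        have hal : al Q ≤ a Q := (H.al_ah Q).trans (H.R.ah_le Q)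
        have h3 := mul_le_mul_of_nonneg_right hal (H.T.oml_nonneg Q)
        have h4 := mul_le_mul_of_nonneg_left h3 (cwp H Q).le
        linarith
    _ = _ := by
        rw [add_assoc, ← ENNReal.ofReal_add (by positivity) (by positivity)]
        ring_nf

/-- all b oml against the solid cells and the costs -/
lemma lemf {θ d1 CC : ℝ} (hCC : 0 ≤ CC) {LW : ℝ≥0∞}
    (H : FinH C0 C1R C9 J e ρb Nb Cu γ s0 tot ns nb Nr a al ah at' D b oml omp v TG Y G)
    (h1 : cs univ (fun Q => cw s0 Q * costF (Solid γ θ d1 a ah at' D) al D oml Q) ≤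
      LW + ENNReal.ofReal (CC * tot)) :
    cs univ (fXF s0 b oml) ≤ cs (L2 d ∩ Solid γ θ d1 a ah at' D) (fXF s0 b oml) +
      ENNReal.ofReal C0 * LW + ENNReal.ofReal (C0 * CC * tot) := by
  have h0 := C0_pos H
  have ht := H.T.tot_nonneg
  have h2 := cs_split (d := d) univ (Solid γ θ d1 a ah at' D) (fXF s0 b oml)
  rw [univ_inter, univ_inter] at h2
  refine h2.trans ?_
  rw [add_assoc]
  refine add_le_add ?_ ?_
  · -- fXF vanishes off L2
    unfold cs
    refine ENNReal.tsum_le_tsum fun Q => ?_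
    by_cases hQ : Q ∈ Solid γ θ d1 a ah at' D
    · by_cases hL : Q ∈ L2 d
      · rw [indicator_of_mem hQ, indicator_of_mem (mem_inter hL hQ)]
      · rw [indicator_of_mem hQ]
        have : fXF s0 b oml Q = 0 := by unfold fXF; rw [indicator_of_notMem hL]
        rw [this, ENNReal.ofReal_zero]
        exact zero_le
    · rw [indicator_of_notMem hQ]
      exact zero_le
  · calc cs (Solid γ θ d1 a ah at' D)ᶜ (fXF s0 b oml)
        ≤ cs (Solid γ θ d1 a ah at' D)ᶜ (fun Q => C0 * (cw s0 Q * ((al Q + D Q) * oml Q))) := by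
          refine cs_mono fun Q _ => ?_
          have hpos : 0 ≤ C0 * (cw s0 Q * ((al Q + D Q) * oml Q)) :=
            mul_nonneg h0.le (mul_nonneg (cwp H Q).le (mul_nonneg (add_nonneg (H.al0 Q)
              (H.T.D_nonneg Q)) (H.T.oml_nonneg Q)))
          unfold fXF
          by_cases hL : Q ∈ L2 d
          · rw [indicator_of_mem hL]
            have h3 := mul_le_mul_of_nonneg_right (H.b_al Q) (H.T.oml_nonneg Q)
            have h4 := mul_le_mul_of_nonneg_left h3 (cwp H Q).le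
            linarith
          · rw [indicator_of_notMem hL]; exact hpos
      _ = ENNReal.ofReal C0 * cs univ (fun Q => cw s0 Q *
            costF (Solid γ θ d1 a ah at' D) al D oml Q) := by
          rw [cs_mul h0.le]
          unfold costF
          rw [cs_ind_mul]
      _ ≤ ENNReal.ofReal C0 * (LW + ENNReal.ofReal (CC * tot)) := mul_le_mul_right h1 _
      _ = _ := by
          rw [mul_add, ← ENNReal.ofReal_mul h0.le]
          ring_nf

/-- payable terms -/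
lemma pay_sum {CP K d0 CDs : ℝ} {r0 : ℕ} (hCDs : 0 ≤ CDs) (hCP : 0 ≤ CP)
    (H : FinH C0 C1R C9 J e ρb Nb Cu γ s0 tot ns nb Nr a al ah at' D b oml omp v TG Y G)
    (h1 : cs univ (fun Q => cw s0 Q * dsm r0 D Q) ≤ ENNReal.ofReal (CP * tot))
    (h2 : cs (Strc γ K d0 a at' D) (fun Q => cw s0 Q * (sh D Q * oml Q)) ≤
      ENNReal.ofReal (CDs * tot)) :
    cs univ (fun Q => cw s0 Q * payF r0 (Strc γ K d0 a at' D) D oml TG Q) ≤
      ENNReal.ofReal ((CP + CDs + C0) * tot) := by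
  have h0 := C0_pos H
  have ht := H.T.tot_nonneg
  have hshD : ∀ Q, 0 ≤ sh D Q := fun Q => tsum_nonneg fun _ =>
    mul_nonneg (by positivity) (H.T.D_nonneg _)
  have hds : ∀ Q, 0 ≤ dsm r0 D Q := fun Q => Finset.sum_nonneg fun _ _ => H.T.D_nonneg _
  have hi : ∀ Q, 0 ≤ (Strc γ K d0 a at' D).indicator (fun Q => sh D Q * oml Q) Q := fun Q =>
    indicator_nonneg (fun Q _ => mul_nonneg (hshD Q) (H.T.oml_nonneg Q)) Q
  unfold payF
  calc cs univ (fun Q => cw s0 Q * (dsm r0 D Q +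
        (Strc γ K d0 a at' D).indicator (fun Q => sh D Q * oml Q) Q + TG Q))
      = cs univ (fun Q => cw s0 Q * dsm r0 D Q) + cs univ (fun Q => cw s0 Q *
          (Strc γ K d0 a at' D).indicator (fun Q => sh D Q * oml Q) Q) +
          cs univ (fun Q => cw s0 Q * TG Q) := by
        rw [← cs_add (fun Q _ => mul_nonneg (cwp H Q).le (hds Q)) (fun Q _ =>
          mul_nonneg (cwp H Q).le (hi Q)), ← cs_add (fun Q _ => add_nonneg
          (mul_nonneg (cwp H Q).le (hds Q)) (mul_nonneg (cwp H Q).le (hi Q)))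
          (fun Q _ => mul_nonneg (cwp H Q).le (H.TG0 Q))]
        exact congrArg _ (funext fun Q => by ring)
    _ ≤ ENNReal.ofReal (CP * tot) + ENNReal.ofReal (CDs * tot) + ENNReal.ofReal (C0 * tot) := by
        rw [cs_ind_mul]
        exact add_le_add (add_le_add h1 h2) H.TGs
    _ = _ := by
        rw [← ENNReal.ofReal_add (by positivity) (by positivity),
          ← ENNReal.ofReal_add (by positivity) (by positivity)]
        ring_nf

end

end Fin

end

end TG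


end

section

/-!
# Trace inequality, general operators: the facts FinH for the concrete functions   (helper47)

No double quotes.
-/

open MeasureTheory Metric Set TrI
open scoped InnerProductSpace ContDiff ENNReal

namespace TG

noncomputable section

/-- MODULE FH: all facts of FinH for the concrete functions, from CT1 (R = 64 R0, m = 9), CT2
(the constant of the packing of the defects goes into Λ), CT3, CT4, CT5 (m = 0, 9), CT7, RB
(J = JA + 9), WH, LS (r = 64 R0), FF -/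
def StmtFH : Prop :=
  ∀ (d : ℕ), 2 ≤ d → ∃ Rt : ℝ, 1 ≤ Rt ∧
    ∀ (M c0 ε : ℝ), 0 < ε → ε ≤ 1 → ∀ (b : Sp d → ℝ), BaseKer 2 M c0 b →
    ∀ (C' p0 A R0 ρ : ℝ) (JA : ℕ), 0 < C' → 0 < p0 → p0 ≤ 1 → 1 ≤ A →
      4 * A + 8 * d + 400 ≤ R0 → 8 * Rt ≤ R0 → A + 3 * d ≤ ρ →
    ∃ (C0 Cu C1R C9 : ℝ) (Nb ρb : ℕ), 1 ≤ C0 ∧ 1 ≤ Cu ∧ 1 ≤ C1R ∧ 1 ≤ C9 ∧
    ∀ R : ℝ, 200 * R0 ≤ R → ∃ Λ : ℝ, 1 ≤ Λ ∧
    ∀ (E : Type) [NormedAddCommGroup E] [InnerProductSpace ℝ E] [FiniteDimensional ℝ E]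
      [Nontrivial E] (f : Sp d → E), Continuous f → HasCompactSupport f →
    ∀ μ : Measure (Sp d), Gro C' μ → ∀ s0 : ℝ, 0 < s0 →
    ∀ e : Cell d → E, Dirs b ε R s0 f e → ∀ (ν : Cell d → Sp d) (c : Cell d → ℝ),
      Plns R0 s0 f e ν c → ∀ γ : ℝ, 0 < γ → γ ≤ 1 →
      FinH C0 C1R C9 (JA + 9) 3 ρb Nb Cu γ s0 (Λ * ∫ y, ‖f y‖)
        (nst s0 (3 * R0) JA) (nst s0 (3 * R0 + d) (JA + 9)) (NrC p0 A s0 μ)
        (mC b ε (64 * R0) s0 f) (mC b ε (R0 + 3) s0 f) (mC b ε (32 * R0) s0 f) (mT b ε s0 f)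
        (dC b ε R s0 f e) (bC R0 s0 f e ν c) (oC μ ρ s0) (oC μ (ρ + Real.sqrt d) s0)
        (omC μ s0) (tG b ε s0 f) (YC b ε s0 f μ ν c) (gC b ε (128 * R0) s0 f)

end

end TG


end

section

set_option autoImplicit false
set_option linter.unusedSectionVars false
set_option linter.unusedVariables false

/-!
# Final assembly, abstract part: the chain of constants   (helper47)
-/

open MeasureTheory Metric Set TrI
open scoped InnerProductSpace ContDiff ENNReal

namespace TG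

noncomputable section

variable {d : ℕ}

/-- MODULE FIN: the abstract assembly -/
def StmtFin : Prop :=
  ∀ (d J ρb Nb e : ℕ) (C0 Cu c1 C1R C9 C1I γ κI θI δI : ℝ), 1 ≤ d → 0 < γ → γ ≤ 1 / 8 →
    1 ≤ C0 → 1 ≤ Cu → 0 < c1 → c1 ≤ 1 → 1 ≤ C1R → 1 ≤ C9 → 0 ≤ C1I → 0 < κI → κI ≤ 1 →
    0 < θI → θI ≤ 1 → 0 < δI →
  ∃ (η K Cr θ : ℝ), 0 < η ∧ 1 ≤ K ∧ 1 ≤ Cr ∧ 0 < θ ∧ θ ≤ θI ∧
  ∀ (CK κ0 : ℝ), 0 < CK → 0 < κ0 → ∃ (n : ℕ) (κ1 δ : ℝ), 0 < κ1 ∧ κ1 ≤ κ0 ∧ 0 < δ ∧
  ∀ (d0 Cs CN : ℝ) (r0 : ℕ), 0 < d0 → d0 ≤ 1 → 0 < Cs → 0 ≤ CN →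
  ∃ (δ' C' : ℝ), 0 < δ' ∧ δ' ≤ δI ∧ 2 * C0 * δ' ≤ 1 ∧ 0 < C' ∧
  ∀ (s0 tot : ℝ) (ns nb : Cell d → Finset (Cell d)) (Nr : Set (Cell d))
    (a al ah at' D b oml omp v TG Y : Cell d → ℝ) (G : ℕ → Cell d → ℝ)
    (N val E1 E2 : ℕ → Cell d → ℝ),
    FinH C0 C1R C9 J e ρb Nb Cu γ s0 tot ns nb Nr a al ah at' D b oml omp v TG Y G →
    (∀ P ∈ CIII γ κI δ' 9 at' D b TG, ∀ (i : ℕ) (S : Finset (Cell d)), i ≤ P.1 →
      S ⊆ dn i P → (∀ Q ∈ S, Top γ θ ah at' i Q) →
        ∑ Q ∈ S, cw s0 Q * al Q ≤ C1I * (cw s0 P * (b (up 9 P) + D (up 9 P)) + G i P) ∧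
        at' P * ∑ Q ∈ S, cw s0 Q * oml Q ^ 2 ≤ C1I * (cw s0 P * v P * Y P)) →
    cs (CIII γ κI δ' 9 at' D b TG) (fun P => cw s0 P * (Y P + b (up 9 P) * v P)) < ⊤ →
    (∀ j < n, LocW s0 γ Cu c1 η (Cr ^ 2) CK (κ1 * (1 / 2) ^ j) δ Cs r0 ns Nr
        (Strc γ K d0 a at' D) (TyA (κ1 * (1 / 2) ^ j) a D b) (N j) (val j) v a al ah D b at' TG Y
        (E1 j) (E2 j) ∧
      Summable (N j) ∧ ∑' Q, N j Q ≤ CN * tot ∧ (∀ Q : Cell d, ¬ 2 ≤ Q.1 → N j Q = 0) ∧
      cs univ (fun Q => cw s0 Q * val j Q) < ⊤) →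
    cs univ (fXF s0 b oml) ≤ ENNReal.ofReal (C' * tot)

end

end TG


end

section

set_option autoImplicit false
set_option linter.unusedSectionVars false

/-!
# From the local inequalities LocW to (P), (Q1), (Q2) of StmtMJ   (helper47)
-/

open MeasureTheory Metric Set TrI
open scoped InnerProductSpace ContDiff ENNReal

namespace TG

noncomputable section

variable {d : ℕ}

namespace PQ

section
variable {Cu Cr CK κ δ Cs η c1 γ s0 : ℝ} {Nb r0 : ℕ} {ns nb : Cell d → Finset (Cell d)}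
  {Nr St Sol : Set (Cell d)} {N val v oml a al ah D b at' TG Y E1 E2 : Cell d → ℝ}

/-- the Y-inequality -/
lemma lemY (hCu : 1 ≤ Cu) (hCr : 1 ≤ Cr) (hCK : 0 < CK) (hκ : 0 < κ) (hκ1 : κ ≤ 1)
    (hδ : 0 < δ) (hδκ : δ ≤ κ) (hCs : 0 < Cs)
    (W : WtH s0 Cu Nb ns nb Nr v oml) (B : RbH Cr nb St Sol a ah D b)
    (al0 : ∀ Q, 0 ≤ al Q) (TG0 : ∀ Q, 0 ≤ TG Q)
    (L : LocW s0 γ Cu c1 η (Cr ^ 2) CK κ δ Cs r0 ns Nr St (TyA κ a D b) N val v a al ah D b at' TG
      Y E1 E2) {Q : Cell d}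
    (hQ : Q ∈ Sol) (hI : Q ∈ Intr κ a D b nb) (h2 : 2 ≤ Q.1)
    (hfl : ∀ l : ℕ, at' (up l Q) ≤ (2 : ℝ) ^ (γ * l) * at' Q) :
    Y Q ≤ Cu ^ 2 * (∑ Q' ∈ nb Q, val2 val Q') + Cu * (v Q * b (up 9 Q)) +
      (Nb * (CK ^ 2 + 1) * Cr ^ 2 * Cu ^ 2) * (κ + δ / κ) * (∑ Q' ∈ nb Q, sBF St b oml Q') +
      (2 * (Nb * (CK ^ 2 + 1) * Cr ^ 2 * Cu ^ 2) + 2 * (Cs * Cu)) *
        ∑ Q' ∈ nb Q, payF r0 St D oml TG Q' := by
  have hns : ns Q ⊆ nb Q := W.ns_nb Q
  have h0 : Q ∈ nb Q := hns (W.self Q)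
  have hh := (B.half Q hQ).1
  obtain ⟨hSV, -, hSB, -, hSP⟩ := sums_nonneg (r0 := r0) W B al0 TG0 L.val0 univ Q
  have hTG : v Q * TG Q ≤ Cu * ∑ Q' ∈ nb Q, payF r0 St D oml TG Q' := by
    have h1 : TG Q ≤ payF r0 St D oml TG Q := by
      unfold payF
      linarith [ind_nonneg W B Q, dsm_nonneg (r0 := r0) B Q]
    have h3 := h1.trans
      (Finset.single_le_sum (f := payF r0 St D oml TG) (fun i _ => pay_nonneg W B TG0 i) h0)
    exact mul_le_mul (W.v1 Q) h3 (TG0 Q) (by linarith)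
  set SV := ∑ Q' ∈ nb Q, val2 val Q'
  set SB := ∑ Q' ∈ nb Q, sBF St b oml Q'
  set SP := ∑ Q' ∈ nb Q, payF r0 St D oml TG Q'
  have hw := cw_pos W.s0_pos Q
  have hV := lemV (Q := Q) W L.val0 hCu h2 hns
  have hD := lemD (r0 := r0) (Q := Q) (Q0 := Q) W B hCu TG0 hns
  have hdk : 0 ≤ δ / κ := by positivity
  have hdk1 : δ / κ ≤ 1 := by rw [div_le_one hκ]; exact hδκ
  rcases hI with hA | hA
  · have h6 := L.wA7 Q h2 hfl (allA hCr B hQ hns h0 hh hA)
    have hE := lemE (r0 := r0) hCu hCr hCK hκ hκ1 W B TG0 L.E2_le hQ hns hA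
    have h7 : Y Q ≤ Cu * (Cu * SV) + Cu * (v Q * b (up 9 Q)) +
        CK * (Nb * CK * Cr ^ 2 * Cu ^ 2 * (κ * SB + 2 * SP)) + Cs * (Cu * SP + Cu * SP) := by
      refine divw hw ?_
      calc cw s0 Q * Y Q ≤ _ := h6
        _ ≤ Cu * (cw s0 Q * (Cu * SV)) + Cu * (cw s0 Q * v Q) * b (up 9 Q) +
            CK * cw s0 Q * (v Q * sEs ns Nr E2 Q) +
            Cs * cw s0 Q * (v Q * (∑ Q' ∈ ns Q, dsm r0 D Q') + v Q * TG Q) := by
            have := mul_le_mul_of_nonneg_left hV (by linarith : (0 : ℝ) ≤ Cu)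
            linarith
        _ ≤ Cu * (cw s0 Q * (Cu * SV)) + Cu * (cw s0 Q * v Q) * b (up 9 Q) +
            CK * cw s0 Q * (Nb * CK * Cr ^ 2 * Cu ^ 2 * (κ * SB + 2 * SP)) +
            Cs * cw s0 Q * (Cu * SP + Cu * SP) := by
            have i1 := mul_le_mul_of_nonneg_left hE (by positivity : 0 ≤ CK * cw s0 Q)
            have i2 := mul_le_mul_of_nonneg_left (add_le_add hD hTG)
              (by positivity : 0 ≤ Cs * cw s0 Q)
            linarith
        _ = _ := by ring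
    refine h7.trans ?_
    have e1 : (Nb * (CK ^ 2 + 1) * Cr ^ 2 * Cu ^ 2) * (κ + δ / κ) * SB ≥
        (Nb * CK ^ 2 * Cr ^ 2 * Cu ^ 2) * κ * SB := by
      refine mul_le_mul_of_nonneg_right ?_ hSB
      refine mul_le_mul ?_ (by linarith) hκ.le (by positivity)
      refine mul_le_mul_of_nonneg_right (mul_le_mul_of_nonneg_right ?_ (by positivity))
        (by positivity)
      exact mul_le_mul_of_nonneg_left (by linarith) (by positivity)
    have e2 : 2 * (Nb * (CK ^ 2 + 1) * Cr ^ 2 * Cu ^ 2) * SP ≥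
        2 * (Nb * CK ^ 2 * Cr ^ 2 * Cu ^ 2) * SP := by
      refine mul_le_mul_of_nonneg_right ?_ hSP
      refine mul_le_mul_of_nonneg_left ?_ (by norm_num)
      refine mul_le_mul_of_nonneg_right (mul_le_mul_of_nonneg_right ?_ (by positivity))
        (by positivity)
      exact mul_le_mul_of_nonneg_left (by linarith) (by positivity)
    linarith
  · have h6 := L.wB7 Q h2 hfl (allB B hQ hns hA)
    have hM := lemM (r0 := r0) hCu hCr hκ W B TG0 hQ hns hA
    have h7 : Y Q ≤ Cu * (Cu * SV) + Cu * (v Q * b (up 9 Q)) +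
        δ * (1 / κ * (Nb * Cr ^ 2 * Cu ^ 2) * (SB + SP)) + Cs * (Cu * SP + Cu * SP) := by
      refine divw hw ?_
      calc cw s0 Q * Y Q ≤ _ := h6
        _ ≤ Cu * (cw s0 Q * (Cu * SV)) + Cu * (cw s0 Q * v Q) * b (up 9 Q) +
            δ * cw s0 Q * (v Q * sMs ns Nr a Q) +
            Cs * cw s0 Q * (v Q * (∑ Q' ∈ ns Q, dsm r0 D Q') + v Q * TG Q) := by
            have := mul_le_mul_of_nonneg_left hV (by linarith : (0 : ℝ) ≤ Cu)
            linarith
        _ ≤ Cu * (cw s0 Q * (Cu * SV)) + Cu * (cw s0 Q * v Q) * b (up 9 Q) +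
            δ * cw s0 Q * (1 / κ * (Nb * Cr ^ 2 * Cu ^ 2) * (SB + SP)) +
            Cs * cw s0 Q * (Cu * SP + Cu * SP) := by
            have i1 := mul_le_mul_of_nonneg_left hM (by positivity : 0 ≤ δ * cw s0 Q)
            have i2 := mul_le_mul_of_nonneg_left (add_le_add hD hTG)
              (by positivity : 0 ≤ Cs * cw s0 Q)
            linarith
        _ = _ := by ring
    refine h7.trans ?_
    have e0 : δ * (1 / κ * (Nb * Cr ^ 2 * Cu ^ 2) * (SB + SP)) =
        (Nb * Cr ^ 2 * Cu ^ 2) * (δ / κ) * SB + (Nb * Cr ^ 2 * Cu ^ 2) * (δ / κ) * SP := by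
      ring
    have e1 : (Nb * (CK ^ 2 + 1) * Cr ^ 2 * Cu ^ 2) * (κ + δ / κ) * SB ≥
        (Nb * 1 * Cr ^ 2 * Cu ^ 2) * (δ / κ) * SB := by
      refine mul_le_mul_of_nonneg_right ?_ hSB
      refine mul_le_mul ?_ (by linarith) hdk (by positivity)
      refine mul_le_mul_of_nonneg_right (mul_le_mul_of_nonneg_right ?_ (by positivity))
        (by positivity)
      exact mul_le_mul_of_nonneg_left (by linarith [sq_nonneg CK]) (by positivity)
    have e2 : 2 * (Nb * (CK ^ 2 + 1) * Cr ^ 2 * Cu ^ 2) * SP ≥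
        (Nb * 1 * Cr ^ 2 * Cu ^ 2) * (δ / κ) * SP := by
      refine mul_le_mul_of_nonneg_right ?_ hSP
      have i1 : (Nb * 1 * Cr ^ 2 * Cu ^ 2 : ℝ) ≤ Nb * (CK ^ 2 + 1) * Cr ^ 2 * Cu ^ 2 := by
        refine mul_le_mul_of_nonneg_right (mul_le_mul_of_nonneg_right ?_ (by positivity))
          (by positivity)
        exact mul_le_mul_of_nonneg_left (by linarith [sq_nonneg CK]) (by positivity)
      have i2 : (Nb * 1 * Cr ^ 2 * Cu ^ 2 : ℝ) * (δ / κ) ≤ (Nb * 1 * Cr ^ 2 * Cu ^ 2) * 1 :=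
        mul_le_mul_of_nonneg_left hdk1 (by positivity)
      have i3 : (0 : ℝ) ≤ Nb * 1 * Cr ^ 2 * Cu ^ 2 := by positivity
      linarith
    rw [e0]
    linarith

end

end PQ

end

end TG


end

section

set_option autoImplicit false
set_option linter.unusedSectionVars false

/-!
# From the local inequalities LocW to (P), (Q1), (Q2) of StmtMJ   (helper47)
-/

open MeasureTheory Metric Set TrI
open scoped InnerProductSpace ContDiff ENNReal

namespace TG

noncomputable section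

variable {d : ℕ}

namespace PQ

section
variable {Cu Cr CK κ δ Cs η c1 γ s0 : ℝ} {Nb r0 : ℕ} {ns nb : Cell d → Finset (Cell d)}
  {Nr St Sol : Set (Cell d)} {N val v oml a al ah D b at' TG Y E1 E2 : Cell d → ℝ}

/-- (P) for cells which are not solid -/
lemma P2 (hCu : 1 ≤ Cu) (hκ : 0 < κ) (hδ : 0 < δ) (hCs : 0 < Cs)
    (W : WtH s0 Cu Nb ns nb Nr v oml) (B : RbH Cr nb St Sol a ah D b)
    (al0 : ∀ Q, 0 ≤ al Q) (TG0 : ∀ Q, 0 ≤ TG Q)
    (L : LocW s0 γ Cu c1 η (Cr ^ 2) CK κ δ Cs r0 ns Nr St (TyA κ a D b) N val v a al ah D b at' TG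
      Y E1 E2) {Q : Cell d} (h2 : 2 ≤ Q.1) (hN : Q ∈ Nr) (hQ : Q ∉ Sol) :
    cw s0 Q * val Q ≤ N Q + cw s0 Q * (Cu ^ 2 * (∑ Q' ∈ nb Q, costF Sol al D oml Q') +
      δ / κ * Cu * (∑ Q' ∈ nb Q, sBF St b oml Q') +
      (δ / κ * Cu + Cs * Cu) * ∑ Q' ∈ nb Q, payF r0 St D oml TG Q') := by
  have hns : ns Q ⊆ nb Q := W.ns_nb Q
  have h0 : Q ∈ nb Q := hns (W.self Q)
  have hadj : adj Q ⊆ nb Q := (W.adj_ns Q).trans hns
  have hw := cw_pos W.s0_pos Q
  have h5 := L.w5 Q hN h2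
  have hD := lemD (r0 := r0) (Q := Q) (Q0 := Q) W B hCu TG0 hadj
  have hc : v Q * (al Q + D Q) ≤ Cu * ∑ Q' ∈ nb Q, costF Sol al D oml Q' := by
    have e1 : costF Sol al D oml Q = (al Q + D Q) * oml Q := by
      unfold costF; rw [indicator_of_mem (by exact hQ)]
    have e2 := Finset.single_le_sum (f := costF Sol al D oml)
      (fun i _ => cost_nonneg W B al0 i) h0
    calc v Q * (al Q + D Q) ≤ (Cu * oml Q) * (al Q + D Q) :=
          mul_le_mul_of_nonneg_right (W.vN Q hN) (add_nonneg (al0 Q) (B.Dn Q))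
      _ = Cu * costF Sol al D oml Q := by rw [e1]; ring
      _ ≤ _ := mul_le_mul_of_nonneg_left e2 (by linarith)
  have hm : v Q * (∑ Q' ∈ adj Q, (St \ TyA κ a D b).indicator a Q') ≤
      1 / κ * Cu * ((∑ Q' ∈ nb Q, sBF St b oml Q') + ∑ Q' ∈ nb Q, payF r0 St D oml TG Q') := by
    rw [← Finset.sum_add_distrib, Finset.mul_sum, Finset.mul_sum]
    refine le_trans (Finset.sum_le_sum (g := fun Q' => 1 / κ * Cu * (sBF St b oml Q' +
      payF r0 St D oml TG Q')) fun Q' hQ' => ?_)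
      (Finset.sum_le_sum_of_subset_of_nonneg hadj fun i _ _ => mul_nonneg (by positivity)
        (add_nonneg (sB_nonneg W B i) (pay_nonneg W B TG0 i)))
    by_cases hS : Q' ∈ St \ TyA κ a D b
    · rw [indicator_of_mem hS]
      have hv := W.vA Q hN Q' hQ'
      have ha : a Q' ≤ 1 / κ * (sh b Q' + sh D Q') := by
        have h1 := hS.2
        simp only [TyA, mem_ofPred_eq, not_le] at h1
        rw [one_div, ← div_eq_inv_mul, le_div_iff₀ hκ]
        linarith
      have e1 : sBF St b oml Q' = sh b Q' * oml Q' := by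
        unfold sBF; rw [indicator_of_mem hS.1]
      have e2 := pay_sh (r0 := r0) (oml := oml) B TG0 hS.1
      have ho := W.oml0 Q'
      calc v Q * a Q' ≤ (Cu * oml Q') * (1 / κ * (sh b Q' + sh D Q')) :=
            mul_le_mul hv ha (B.an _) (by positivity)
        _ = 1 / κ * Cu * (sh b Q' * oml Q' + sh D Q' * oml Q') := by ring
        _ ≤ _ := mul_le_mul_of_nonneg_left (by rw [e1]; linarith) (by positivity)
    · rw [indicator_of_notMem hS, mul_zero]
      exact mul_nonneg (by positivity) (add_nonneg (sB_nonneg W B Q') (pay_nonneg W B TG0 Q'))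
  set SC := ∑ Q' ∈ nb Q, costF Sol al D oml Q'
  set SB := ∑ Q' ∈ nb Q, sBF St b oml Q'
  set SP := ∑ Q' ∈ nb Q, payF r0 St D oml TG Q'
  have i1 := mul_le_mul_of_nonneg_left hc (by positivity : 0 ≤ Cu * cw s0 Q)
  have i2 := mul_le_mul_of_nonneg_left hm (by positivity : 0 ≤ δ * cw s0 Q)
  have i3 := mul_le_mul_of_nonneg_left hD (by positivity : 0 ≤ Cs * cw s0 Q)
  have e3 : δ * cw s0 Q * (1 / κ * Cu * (SB + SP)) = cw s0 Q * (δ / κ * Cu * SB +
    δ / κ * Cu * SP) := by ring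
  linarith

end

end PQ

end

end TG


end

section

set_option autoImplicit false
set_option linter.unusedSectionVars false

/-!
# From the local inequalities LocW to (P), (Q1), (Q2) of StmtMJ   (helper47)
-/

open MeasureTheory Metric Set TrI
open scoped InnerProductSpace ContDiff ENNReal

namespace TG

noncomputable section

variable {d : ℕ}
open PQ in
theorem stmtPQ : StmtPQ := by
  intro Cu Nb hCu
  have hCu0 : 0 < Cu := by linarith
  refine ⟨Cu ^ 2 + Cu ^ 3 + Cu ^ 4, by positivity, ?_⟩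
  intro Cr CK hCr hCK
  have hCr0 : 0 < Cr := by linarith
  set K2 : ℝ := Nb * (CK ^ 2 + 1) * Cr ^ 2 * Cu ^ 2 with hK2
  have hK20 : 0 ≤ K2 := by positivity
  set CI : ℝ := 2 * (Nb * CK ^ 2 * Cu * Cr ^ 3) + Nb * Cr ^ 3 * Cu with hCI
  have hCI0 : 0 ≤ CI := by positivity
  refine ⟨Cu + (1 + 2 * Cu + Cu ^ 2) * K2 + CI, by positivity, ?_⟩
  intro Cs hCs
  set CP : ℝ := Nb * CK * Cs * Cr * Cu + Cs * Cu with hCP
  have hCP0 : 0 < CP := by positivity
  refine ⟨Cu + CP + (2 + 2 * Cu + Cu ^ 2) * (2 * K2 + 2 * (Cs * Cu)), by positivity, ?_⟩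
  intro κ δ hκ hκ1 hδ hδκ d r0 s0 γ c1 η ns nb Nr St Sol N val v oml a al ah D b at' TG Y E1 E2
    hc1 hc11 hη W B al0 TG0 hN0 L
  have hdk : 0 ≤ δ / κ := by positivity
  have hdk1 : δ / κ ≤ 1 := by rw [div_le_one hκ]; exact hδκ
  have hCsCu : 0 ≤ Cs * Cu := by positivity
  set C1 : ℝ := Cu ^ 2 + Cu ^ 3 + Cu ^ 4 with hC1
  set C2 : ℝ := Cu + (1 + 2 * Cu + Cu ^ 2) * K2 + CI with hC2
  set C3 : ℝ := Cu + CP + (2 + 2 * Cu + Cu ^ 2) * (2 * K2 + 2 * (Cs * Cu)) with hC3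
  have hq : 0 ≤ (2 * Cu + Cu ^ 2) * K2 := by positivity
  have hq1 : 0 ≤ (1 + 2 * Cu + Cu ^ 2) * K2 := by positivity
  have hq2 : 0 ≤ (2 + 2 * Cu + Cu ^ 2) * (2 * K2 + 2 * (Cs * Cu)) := by positivity
  have hC1a : Cu ^ 2 ≤ C1 := by rw [hC1]; linarith [pow_pos hCu0 3, pow_pos hCu0 4]
  have hC10 : 0 ≤ C1 := le_trans (by positivity) hC1a
  have hC20 : 0 ≤ C2 := by rw [hC2]; (clear * - hCu hCK hCr; positivity)
  have hC30 : 0 ≤ C3 := by rw [hC3]; (clear * - hCu hCK hCs hCr; positivity)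
  have hkk : 0 ≤ κ + δ / κ := by positivity
  refine ⟨fun Q => ?_, fun Q hQ => ?_, fun P hP hfl => ?_⟩
  · rw [rhs_eq]
    obtain ⟨hSV, hSC, hSB, hSI, hSP⟩ := sums_nonneg (r0 := r0) W B al0 TG0 L.val0
      (Intr κ a D b nb) Q
    have hw := cw_pos W.s0_pos Q
    by_cases h2 : 2 ≤ Q.1
    · have hv2 : val2 val Q = val Q := by unfold val2; rw [if_pos h2]
      rw [hv2]
      have hval : 0 ≤ cw s0 Q * val Q := mul_nonneg hw.le (L.val0 Q)
      have hc1v : c1 * (cw s0 Q * val Q) ≤ cw s0 Q * val Q := by nlinarith only [hc11, hval]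
      have t1 : 0 ≤ (Cu * η) * (∑ Q' ∈ nb Q, val2 val Q') := by positivity
      have t2 : 0 ≤ C1 * (∑ Q' ∈ nb Q, costF Sol al D oml Q') := by positivity
      have t3 : 0 ≤ C2 * (κ + δ / κ) * (∑ Q' ∈ nb Q, sBF St b oml Q') := by (clear * - hCu hCK hCr hκ hδ hSB; positivity)
      have t4 : 0 ≤ C2 * (∑ Q' ∈ nb Q, iFF Sol (Intr κ a D b nb) D b oml Q') := by (clear * - hCu hCK hCr hSI; positivity)
      have t5 : 0 ≤ C3 * (∑ Q' ∈ nb Q, payF r0 St D oml TG Q') := by (clear * - hCu hCK hCs hCr hSP; positivity)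
      by_cases hN : Q ∈ Nr
      · by_cases hQ : Q ∈ Sol
        · by_cases hI : Q ∈ Intr κ a D b nb
          · have h := P34 (r0 := r0) hCu hCr hCK hκ hκ1 hδ hδκ hCs hη hc11 W B al0 TG0 L h2 hN hQ hI
            refine h.trans (add_le_add le_rfl (mul_le_mul_of_nonneg_left ?_ hw.le))
            have u1 : K2 * (κ + δ / κ) * (∑ Q' ∈ nb Q, sBF St b oml Q') ≤
                C2 * (κ + δ / κ) * (∑ Q' ∈ nb Q, sBF St b oml Q') := by
              refine mul_le_mul_of_nonneg_right (mul_le_mul_of_nonneg_right ?_ hkk) hSB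
              rw [hC2]; linarith only [hCu, hCI0, hq]
            have u2 : (2 * K2 + Cs * Cu) * (∑ Q' ∈ nb Q, payF r0 St D oml TG Q') ≤
                C3 * (∑ Q' ∈ nb Q, payF r0 St D oml TG Q') := by
              refine mul_le_mul_of_nonneg_right ?_ hSP
              rw [hC3]
              have : 0 ≤ (1 + 2 * Cu + Cu ^ 2) * (2 * K2 + 2 * (Cs * Cu)) := by (clear * - hCu hCK hCr hCs; positivity)
              linarith only [hCu, hCP0, hCsCu, this]
            linarith only [t2, t4, u1, u2]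
          · have h := P5 (r0 := r0) hCu hCr hCK hκ hδ hδκ hCs W B al0 TG0 L h2 hN hQ hI
            refine h.trans (add_le_add le_rfl (mul_le_mul_of_nonneg_left ?_ hw.le))
            have u1 : CI * (∑ Q' ∈ nb Q, iFF Sol (Intr κ a D b nb) D b oml Q') ≤
                C2 * (∑ Q' ∈ nb Q, iFF Sol (Intr κ a D b nb) D b oml Q') := by
              refine mul_le_mul_of_nonneg_right ?_ hSI
              rw [hC2]; linarith only [hCu, hK20, hq]
            have u2 : CP * (∑ Q' ∈ nb Q, payF r0 St D oml TG Q') ≤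
                C3 * (∑ Q' ∈ nb Q, payF r0 St D oml TG Q') := by
              refine mul_le_mul_of_nonneg_right ?_ hSP
              rw [hC3]; linarith only [hCu, hq2]
            linarith
        · have h := P2 (r0 := r0) hCu hκ hδ hCs W B al0 TG0 L h2 hN hQ
          refine hc1v.trans (h.trans (add_le_add le_rfl (mul_le_mul_of_nonneg_left ?_ hw.le)))
          have u0 : Cu ^ 2 * (∑ Q' ∈ nb Q, costF Sol al D oml Q') ≤
              C1 * (∑ Q' ∈ nb Q, costF Sol al D oml Q') := mul_le_mul_of_nonneg_right hC1a hSC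
          have u1 : δ / κ * Cu * (∑ Q' ∈ nb Q, sBF St b oml Q') ≤
              C2 * (κ + δ / κ) * (∑ Q' ∈ nb Q, sBF St b oml Q') := by
            refine mul_le_mul_of_nonneg_right ?_ hSB
            rw [mul_comm (δ / κ) Cu]
            exact mul_le_mul (by rw [hC2]; linarith) (by linarith) hdk hC20
          have u2 : (δ / κ * Cu + Cs * Cu) * (∑ Q' ∈ nb Q, payF r0 St D oml TG Q') ≤
              C3 * (∑ Q' ∈ nb Q, payF r0 St D oml TG Q') := by
            refine mul_le_mul_of_nonneg_right ?_ hSP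
            have : δ / κ * Cu ≤ Cu := by nlinarith only [hdk1, hCu]
            have h3 : 0 ≤ Nb * CK * Cs * Cr * Cu := by positivity
            rw [hC3, hCP]; linarith only [hq2, this, h3]
          linarith only [t1, t4, u0, u1, u2]
      · have h := L.w1 Q h2 hN
        have h0 : Q ∈ nb Q := W.ns_nb Q (W.self Q)
        have e2 : dsm r0 D Q ≤ ∑ Q' ∈ nb Q, payF r0 St D oml TG Q' :=
          (pay_dsm W B TG0 Q).trans
            (Finset.single_le_sum (f := payF r0 St D oml TG) (fun i _ => pay_nonneg W B TG0 i) h0)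
        have hd : v Q * dsm r0 D Q ≤ Cu * ∑ Q' ∈ nb Q, payF r0 St D oml TG Q' :=
          mul_le_mul (W.v1 Q) e2 (dsm_nonneg B Q) (by linarith)
        have i2 := mul_le_mul_of_nonneg_left hd (by positivity : 0 ≤ Cs * cw s0 Q)
        have u2 : Cs * Cu * (∑ Q' ∈ nb Q, payF r0 St D oml TG Q') ≤
              C3 * (∑ Q' ∈ nb Q, payF r0 St D oml TG Q') := by
          refine mul_le_mul_of_nonneg_right ?_ hSP
          have h3 : 0 ≤ Nb * CK * Cs * Cr * Cu := by (clear * - hCK hCs hCr hCu; positivity)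
          rw [hC3, hCP]; linarith
        have i3 := mul_le_mul_of_nonneg_left (add_le_add (add_le_add (add_le_add (add_le_add
          t1 t2) t3) t4) u2) hw.le
        linarith only [hc1v, h, i2, i3]
    · have hv2 : val2 val Q = 0 := by unfold val2; rw [if_neg h2]
      rw [hv2, hN0 Q h2, mul_zero, mul_zero, zero_add]
      (clear * - hw hCu hη hSV hSC hCK hCr hκ hδ hSB hSI hCs hSP; positivity)
  · rw [rhs_eq]
    obtain ⟨⟨h2, hS⟩, hI⟩ := hQ
    obtain ⟨hSV, hSC, hSB, hSI, hSP⟩ := sums_nonneg (r0 := r0) W B al0 TG0 L.val0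
      (Intr κ a D b nb) Q
    have h := lemb (r0 := r0) hCu hCr hCK hκ hκ1 hδ hδκ hCs W B al0 TG0 L hS hI (W.ns_nb Q)
      (W.ns_nb Q (W.self Q)) (B.half Q hS).1 h2
    have h1 : b Q * oml Q ≤ Cu * (v Q * b Q) := by
      have := mul_le_mul_of_nonneg_left (W.ov Q) (B.bn Q)
      linarith
    have h3 := mul_le_mul_of_nonneg_left h hCu0.le
    have t2 : 0 ≤ C1 * (∑ Q' ∈ nb Q, costF Sol al D oml Q') := by positivity
    have t4 : 0 ≤ C2 * (∑ Q' ∈ nb Q, iFF Sol (Intr κ a D b nb) D b oml Q') := by (clear * - hCu hCK hCr hSI; positivity)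
    have u0 : Cu ^ 3 * (∑ Q' ∈ nb Q, val2 val Q') ≤ C1 * (∑ Q' ∈ nb Q, val2 val Q') :=
      mul_le_mul_of_nonneg_right (by rw [hC1]; linarith only [pow_pos hCu0 2, pow_pos hCu0 4]) hSV
    have u1 : (Cu * K2) * (κ + δ / κ) * (∑ Q' ∈ nb Q, sBF St b oml Q') ≤
        C2 * (κ + δ / κ) * (∑ Q' ∈ nb Q, sBF St b oml Q') := by
      refine mul_le_mul_of_nonneg_right (mul_le_mul_of_nonneg_right ?_ hkk) hSB
      rw [hC2]
      have : 0 ≤ (1 + Cu + Cu ^ 2) * K2 := by positivity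
      linarith only [hCu, hCI0, this]
    have u2 : Cu * (2 * K2 + Cs * Cu) * (∑ Q' ∈ nb Q, payF r0 St D oml TG Q') ≤
        C3 * (∑ Q' ∈ nb Q, payF r0 St D oml TG Q') := by
      refine mul_le_mul_of_nonneg_right ?_ hSP
      rw [hC3]
      have : 0 ≤ (2 + Cu + Cu ^ 2) * (2 * K2 + 2 * (Cs * Cu)) := by (clear * - hCu hCK hCr hCs; positivity)
      have h6 : 0 ≤ Cu * (Cs * Cu) := by positivity
      linarith only [hCu, hCP0, this, h6]
    linarith only [h1, h3, t2, t4, u0, u1, u2]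
  · rw [rhs_eq]
    obtain ⟨⟨h2, hS⟩, hI⟩ := hP
    obtain ⟨hSV, hSC, hSB, hSI, hSP⟩ := sums_nonneg (r0 := r0) W B al0 TG0 L.val0
      (Intr κ a D b nb) P
    have h9 : up 9 P ∈ nb P := W.ns9 P (W.self (up 9 P))
    have h := lemb (r0 := r0) hCu hCr hCK hκ hκ1 hδ hδκ hCs W B al0 TG0 L hS hI (W.ns9 P)
      h9 (B.half P hS).2 (by show 2 ≤ P.1 + 9; omega)
    have hY := lemY (r0 := r0) hCu hCr hCK hκ hκ1 hδ hδκ hCs W B al0 TG0 L hS hI h2 hfl
    have hv9 : v P * b (up 9 P) ≤ Cu * (v (up 9 P) * b (up 9 P)) := by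
      have := mul_le_mul_of_nonneg_right (W.vnb P (up 9 P) h9) (B.bn (up 9 P))
      linarith only [this]
    have t2 : 0 ≤ C1 * (∑ Q' ∈ nb P, costF Sol al D oml Q') := by (clear * - hCu hSC; positivity)
    have t4 : 0 ≤ C2 * (∑ Q' ∈ nb P, iFF Sol (Intr κ a D b nb) D b oml Q') := by (clear * - hCu hCK hCr hSI; positivity)
    set SV := ∑ Q' ∈ nb P, val2 val Q'
    set SB := ∑ Q' ∈ nb P, sBF St b oml Q'
    set SP := ∑ Q' ∈ nb P, payF r0 St D oml TG Q'
    set X : ℝ := v P * b (up 9 P)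
    have hX : X ≤ Cu * (Cu ^ 2 * SV + K2 * (κ + δ / κ) * SB + (2 * K2 + Cs * Cu) * SP) :=
      hv9.trans (mul_le_mul_of_nonneg_left h hCu0.le)
    have hX2 : (Cu + 1) * X ≤ (Cu + 1) *
      (Cu * (Cu ^ 2 * SV + K2 * (κ + δ / κ) * SB + (2 * K2 + Cs * Cu) * SP)) :=
      mul_le_mul_of_nonneg_left hX (by positivity)
    have e1 : b (up 9 P) * v P = X := mul_comm _ _
    rw [e1]
    have u0 : (Cu ^ 2 + (Cu + 1) * (Cu * Cu ^ 2)) * SV = C1 * SV := by rw [hC1]; ring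
    have u1 : (K2 + (Cu + 1) * (Cu * K2)) * (κ + δ / κ) * SB ≤ C2 * (κ + δ / κ) * SB := by
      refine mul_le_mul_of_nonneg_right (mul_le_mul_of_nonneg_right ?_ hkk) hSB
      rw [hC2]
      have : 0 ≤ Cu * K2 := by (clear * - hCu hCK hCr; positivity)
      linarith only [hCu, hCI0, this]
    have u2 : ((2 * K2 + 2 * (Cs * Cu)) + (Cu + 1) * (Cu * (2 * K2 + Cs * Cu))) * SP ≤
        C3 * SP := by
      refine mul_le_mul_of_nonneg_right ?_ hSP
      rw [hC3]
      have j1 : 0 ≤ Cu * (2 * K2 + 2 * (Cs * Cu)) := by (clear * - hCu hCK hCr hCs; positivity)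
      have j2 : 0 ≤ (Cu + 1) * (Cu * (Cs * Cu)) := by positivity
      linarith only [hCu, hK20, hCP0, hCsCu, j1, j2]
    linarith only [t2, t4, hY, hX2, u1, u2]

end

end TG


end

section

/-!
# Tools for WA7 and B4: moments of the height over two planes, distance of two planes   (helper15)
-/

open MeasureTheory Metric Set TrI Filter
open scoped InnerProductSpace ContDiff Topology

set_option linter.unusedSectionVars false

namespace TG

namespace WA7m

noncomputable section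

variable {d : ℕ}

/-! ## Moments -/

lemma Mo2_eq (μ : Measure (Sp d)) (n : Sp d) (s : ℝ) :
    Mo μ n s 2 1 0 = UUm.EE μ (fun η => MO.ht n s η ^ 2) 0 / vv μ 1 0 := by
  unfold Mo UUm.EE MO.K MO.ht
  congr 1
  congr 1
  funext η
  ring

lemma K_mul_le (η : Sp d) : (1 + ‖η‖ ^ 2) * MO.K 1 (0 - η) ≤ kk 1 (0 - η) := by
  have h0 : 0 ≤ kk 1 (0 - η) := by unfold kk; positivity
  have h1 : 1 ≤ 1 + ‖η‖ ^ 2 := by nlinarith [sq_nonneg ‖η‖]
  have h2 : (1 : ℝ) ^ 2 + ‖(0 : Sp d) - η‖ ^ 2 = 1 + ‖η‖ ^ 2 := by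
    rw [zero_sub, norm_neg]; ring
  unfold MO.K
  rw [h2, ← mul_div_assoc, div_le_iff₀ (by positivity)]
  linarith only [mul_nonneg h0 (by nlinarith : (0 : ℝ) ≤ (1 + ‖η‖ ^ 2) * ‖η‖ ^ 2)]

section main

variable (h : StmtTH) (hd : 2 ≤ d) {C' : ℝ} (hC' : 0 < C') {μ : Measure (Sp d)} (hμ : Gro C' μ)

include h hd hC' hμ

lemma EE_upper {F : Sp d → ℝ} (hF0 : ∀ η, 0 ≤ F η) {n : Sp d} (hn : ‖n‖ = 1) {s a b : ℝ}
    (_ha : 0 ≤ a) (hb : 0 ≤ b) (hF : ∀ η, F η ≤ a * MO.ht n s η ^ 2 + b * (1 + ‖η‖ ^ 2)) :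
    UUm.EE μ F 0 ≤ a * UUm.EE μ (fun η => MO.ht n s η ^ 2) 0 + b * vv μ 1 0 ^ 2 := by
  have i1 := UUm.int_h2 h hd hC' hμ hn s 0
  have i2 := MO.kk_int h hd hC' hμ (r := 1) one_pos (0 : Sp d)
  have e1 : vv μ 1 0 ^ 2 = ∫ η, kk 1 (0 - η) ∂μ := by
    unfold vv
    rw [Real.sq_sqrt]
    · rfl
    · unfold th
      exact integral_nonneg fun η => by simp only [kk, Pi.zero_apply]; positivity
  rw [e1]
  unfold UUm.EE
  rw [← integral_const_mul, ← integral_const_mul, ← integral_add (i1.const_mul _) (i2.const_mul _)]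
  refine integral_mono_of_nonneg (Eventually.of_forall fun η =>
    mul_nonneg (hF0 η) (MO.K_pos one_pos _).le) ((i1.const_mul _).add (i2.const_mul _))
    (Eventually.of_forall fun η => ?_)
  have hK := (MO.K_pos one_pos (0 - η)).le
  have h1 := mul_le_mul_of_nonneg_right (hF η) hK
  have h2 := mul_le_mul_of_nonneg_left (K_mul_le η) hb
  linarith only [h1, h2]

/-- the second moment is bounded by the potential -/
lemma Mo_le {n : Sp d} (hn : ‖n‖ = 1) (s : ℝ) :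
    Mo μ n s 2 1 0 ≤ 2 * (1 + s ^ 2) * vv μ 1 0 := by
  obtain ⟨C, hC, hTH⟩ := MO.getTH h d 0 hd C' hC'
  have hv := (hTH μ hμ).vpos one_pos (0 : Sp d)
  have h1 := EE_upper h hd hC' hμ (F := fun η => MO.ht n s η ^ 2) (fun η => sq_nonneg _) hn
    (s := s) (a := 0) (b := 2 * (1 + s ^ 2)) le_rfl (by positivity) (fun η => by
      unfold MO.ht
      have e1 := abs_real_inner_le_norm η n
      rw [hn, mul_one] at e1
      have e2 : ⟪η, n⟫_ℝ ^ 2 ≤ ‖η‖ ^ 2 := by
        rw [← sq_abs]; exact pow_le_pow_left₀ (abs_nonneg _) e1 2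
      linarith only [e2, sq_nonneg (⟪η, n⟫_ℝ + s), mul_nonneg (sq_nonneg s) (sq_nonneg ‖η‖)])
  rw [Mo2_eq, div_le_iff₀ hv]
  linarith only [h1]

/-- second moments over two planes -/
lemma Mo_two {n n' : Sp d} (hn' : ‖n'‖ = 1) (s s' : ℝ) {σ : ℝ} (hσ : σ = 1 ∨ σ = -1) :
    Mo μ n s 2 1 0 ≤ 2 * Mo μ n' s' 2 1 0 +
      4 * (‖n - σ • n'‖ ^ 2 + (s - σ * s') ^ 2) * vv μ 1 0 := by
  obtain ⟨C, hC, hTH⟩ := MO.getTH h d 0 hd C' hC'
  have hv := (hTH μ hμ).vpos one_pos (0 : Sp d)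
  have hσ2 : σ ^ 2 = 1 := by rcases hσ with rfl | rfl <;> norm_num
  have h1 := EE_upper h hd hC' hμ (F := fun η => MO.ht n s η ^ 2) (fun η => sq_nonneg _) hn'
    (s := s') (a := 2) (b := 4 * (‖n - σ • n'‖ ^ 2 + (s - σ * s') ^ 2)) (by norm_num)
    (by positivity) (fun η => by
      have e0 : MO.ht n s η = σ * MO.ht n' s' η + (⟪η, n - σ • n'⟫_ℝ - (s - σ * s')) := by
        unfold MO.ht
        rw [inner_sub_right, inner_smul_right]
        ring
      have e1 := abs_real_inner_le_norm η (n - σ • n')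
      have e2 : ⟪η, n - σ • n'⟫_ℝ ^ 2 ≤ (‖η‖ * ‖n - σ • n'‖) ^ 2 := by
        rw [← sq_abs]; exact pow_le_pow_left₀ (abs_nonneg _) e1 2
      rw [e0]
      have e3 : (σ * MO.ht n' s' η) ^ 2 = MO.ht n' s' η ^ 2 := by rw [mul_pow, hσ2, one_mul]
      have e4 : (σ * MO.ht n' s' η + (⟪η, n - σ • n'⟫_ℝ - (s - σ * s'))) ^ 2 ≤
          2 * (σ * MO.ht n' s' η) ^ 2 + 2 * (⟪η, n - σ • n'⟫_ℝ - (s - σ * s')) ^ 2 := by
        linarith only [sq_nonneg (σ * MO.ht n' s' η - (⟪η, n - σ • n'⟫_ℝ - (s - σ * s')))]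
      have e5 : (⟪η, n - σ • n'⟫_ℝ - (s - σ * s')) ^ 2 ≤
          2 * ⟪η, n - σ • n'⟫_ℝ ^ 2 + 2 * (s - σ * s') ^ 2 := by
        linarith only [sq_nonneg (⟪η, n - σ • n'⟫_ℝ + (s - σ * s'))]
      rw [e3] at e4
      have e6 : 0 ≤ ‖n - σ • n'‖ ^ 2 := sq_nonneg _
      have e7 : 0 ≤ (s - σ * s') ^ 2 * ‖η‖ ^ 2 := by positivity
      nlinarith only [e2, e4, e7])
  have h2 : UUm.EE μ (fun η => MO.ht n' s' η ^ 2) 0 = Mo μ n' s' 2 1 0 * vv μ 1 0 := by
    rw [Mo2_eq]; field_simp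
  rw [h2] at h1
  rw [Mo2_eq μ n s, div_le_iff₀ hv]
  linarith only [h1]

end main

/-- on its plane, the second moment is bounded by the gain -/
lemma Mo_plane (h : StmtTH) (hWA : StmtWA) (hd : 2 ≤ d) {M C' ε R0 : ℝ} (hC' : 0 < C')
    (hε : 0 < ε) (hε1 : ε ≤ 1) (hR0 : 63 ≤ R0) : ∃ C : ℝ, 0 < C ∧ ∀ β : Sp d → ℝ, Kit 10 M β →
    ∀ μ : Measure (Sp d), Gro C' μ → ∀ (n : Sp d) (s : ℝ), ‖n‖ = 1 → |s| ≤ R0 / 2 →
      Mo μ n s 2 1 0 ≤ C * plInt n s (fun x => zR R0 x * XX β ε μ n 1 x) := by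
  obtain ⟨k, rfl⟩ : ∃ k, d = k + 1 := ⟨d - 1, by omega⟩
  obtain ⟨C, hC, hTH⟩ := MO.getTH h (k + 1) 0 hd C' hC'
  obtain ⟨C1, hC1, hW⟩ := hWA (k + 1) 0 hd M C' ε hC' hε hε1
  refine ⟨UUm.Ca k C ((R0 + 1) / 2) 1, ?_, ?_⟩
  · have hT0 := UUm.T0_pos
    have hsC := Real.sqrt_pos.2 hC
    have hCv : 0 < UUm.Cv (k + 1) C ((R0 + 1) / 2) := by unfold UUm.Cv; positivity
    have hvb := UUm.vb_pos k one_pos
    unfold UUm.Ca
    positivity
  intro β hβ μ hμ n s hn hs
  have hT := hTH μ hμ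
  have hv := hT.vpos one_pos (0 : Sp (k + 1))
  obtain ⟨-, -, -, -, hX⟩ := hW β (UUm.kit_mono (by omega) hβ) μ hμ
  obtain ⟨hXs, hX0, -⟩ := hX n hn
  have h1 := UUm.L_E h hd hC' hμ hC hT (R0 := (R0 + 1) / 2) (c := 1) (by linarith) one_pos hβ
    (ε := ε) hn (s := s) (by linarith) (H := XX β ε μ n 1) hXs.continuous
    hX0 (fun y => by rw [one_mul]) (y := 0)
    (by rw [norm_zero]; linarith)
  rw [show 2 * ((R0 + 1) / 2) - 1 = R0 by ring] at h1
  rw [Mo2_eq, div_le_iff₀ hv]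
  nlinarith

/-! ## Two planes -/

/-- squared distance of the plane (n, s) from the plane (n', s'), tangential part and height -/
def gg (n : Sp d) (s : ℝ) (n' : Sp d) (s' : ℝ) : ℝ := ‖tang n' n‖ ^ 2 + (s' * ⟪n', n⟫_ℝ - s) ^ 2

lemma gg_nonneg (n : Sp d) (s : ℝ) (n' : Sp d) (s' : ℝ) : 0 ≤ gg n s n' s' := by
  unfold gg; positivity

lemma inner_bd {n n' : Sp d} (hn : ‖n‖ = 1) (hn' : ‖n'‖ = 1) : |⟪n', n⟫_ℝ| ≤ 1 := by
  have := abs_real_inner_le_norm n' n
  rwa [hn, hn', mul_one] at this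

lemma tang_sq {n n' : Sp d} (hn : ‖n‖ = 1) (hn' : ‖n'‖ = 1) :
    ‖tang n' n‖ ^ 2 = 1 - ⟪n', n⟫_ℝ ^ 2 := by
  unfold tang
  rw [norm_sub_sq_real, hn, inner_smul_right, norm_smul, hn', mul_one, Real.norm_eq_abs, sq_abs,
    real_inner_comm n' n]
  ring

lemma gg_le {n n' : Sp d} (hn : ‖n‖ = 1) (hn' : ‖n'‖ = 1) {s s' S S' : ℝ} (hs : |s| ≤ S)
    (hs' : |s'| ≤ S') : gg n s n' s' ≤ 1 + (S + S') ^ 2 := by
  unfold gg
  have h1 : ‖tang n' n‖ ^ 2 ≤ 1 := by rw [tang_sq hn hn']; nlinarith [sq_nonneg ⟪n', n⟫_ℝ]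
  have h2 : |s' * ⟪n', n⟫_ℝ - s| ≤ S + S' := by
    refine (abs_sub _ _).trans ?_
    rw [abs_mul]
    have := inner_bd hn hn'
    nlinarith only [hs, hs', this, abs_nonneg s']
  have h3 : (s' * ⟪n', n⟫_ℝ - s) ^ 2 ≤ (S + S') ^ 2 := by
    rw [← sq_abs]; exact pow_le_pow_left₀ (abs_nonneg _) h2 2
  linarith

/-- the distance of the planes, up to a sign -/
lemma dist_le {n n' : Sp d} (hn : ‖n‖ = 1) (hn' : ‖n'‖ = 1) {s s' S' : ℝ} (hs' : |s'| ≤ S') :
    ∃ σ : ℝ, (σ = 1 ∨ σ = -1) ∧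
      ‖n - σ • n'‖ ^ 2 + (s - σ * s') ^ 2 ≤ (2 + 2 * S' ^ 2) * gg n s n' s' := by
  have hS' : 0 ≤ S' := (abs_nonneg _).trans hs'
  obtain ⟨σ, hσ, hσ0⟩ : ∃ σ : ℝ, (σ = 1 ∨ σ = -1) ∧ 0 ≤ σ * ⟪n', n⟫_ℝ := by
    rcases le_total 0 ⟪n', n⟫_ℝ with h1 | h1
    · exact ⟨1, Or.inl rfl, by linarith⟩
    · exact ⟨-1, Or.inr rfl, by linarith⟩
  have hσ2 : σ ^ 2 = 1 := by rcases hσ with rfl | rfl <;> norm_num
  have hσa : |σ| = 1 := by rcases hσ with rfl | rfl <;> simp
  refine ⟨σ, hσ, ?_⟩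
  obtain ⟨g, hg⟩ : ∃ g : ℝ, g = σ * ⟪n', n⟫_ℝ := ⟨_, rfl⟩
  rw [← hg] at hσ0
  have hg1 : g ≤ 1 := by
    refine (le_abs_self g).trans ?_
    rw [hg, abs_mul, hσa, one_mul]
    exact inner_bd hn hn'
  have hgi : ⟪n', n⟫_ℝ = σ * g := by rw [hg, ← mul_assoc, ← sq, hσ2, one_mul]
  have h1 : ‖n - σ • n'‖ ^ 2 = 2 - 2 * g := by
    rw [norm_sub_sq_real, hn, inner_smul_right, norm_smul, hn', mul_one, Real.norm_eq_abs, hσa,
      real_inner_comm n' n, hg]
    ring
  have h2 : ‖tang n' n‖ ^ 2 = 1 - g ^ 2 := by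
    rw [tang_sq hn hn', hgi, mul_pow, hσ2, one_mul]
  have h3 : (s - σ * s') ^ 2 ≤ 2 * (s' * ⟪n', n⟫_ℝ - s) ^ 2 + 2 * (S' ^ 2 * (1 - g ^ 2)) := by
    have e1 : s - σ * s' = -(s' * ⟪n', n⟫_ℝ - s) + σ * s' * (g - 1) := by rw [hgi]; ring
    have e2 : (σ * s' * (g - 1)) ^ 2 ≤ S' ^ 2 * (1 - g ^ 2) := by
      have e3 : s' ^ 2 ≤ S' ^ 2 := by
        rw [← sq_abs]; exact pow_le_pow_left₀ (abs_nonneg _) hs' 2
      have e4 : (σ * s' * (g - 1)) ^ 2 = s' ^ 2 * (1 - g) ^ 2 := by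
        rw [mul_pow, mul_pow, hσ2]; ring
      rw [e4]
      exact mul_le_mul e3 (by nlinarith) (sq_nonneg _) (sq_nonneg _)
    rw [e1]
    linarith only [e2, sq_nonneg ((s' * ⟪n', n⟫_ℝ - s) + σ * s' * (g - 1))]
  unfold gg
  rw [h1, h2]
  have h4 : 0 ≤ S' ^ 2 * (s' * ⟪n', n⟫_ℝ - s) ^ 2 := by positivity
  nlinarith only [h3, hσ0, hg1]

/-- the height over the second plane, on the first plane -/
lemma hgt_plane {n n' : Sp d} (s : ℝ) {s' : ℝ} {y : Sp d} (hy : ⟪n', y⟫_ℝ = s') :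
    hgt n s y = (s' * ⟪n', n⟫_ℝ - s) + ⟪tang n' n, y⟫_ℝ := by
  unfold hgt tang
  rw [inner_sub_left, inner_smul_left, hy]
  simp only [conj_trivial]
  ring

/-- lower bound of the height over the second plane -/
lemma plane_low {R0 : ℝ} (hR0 : 12 ≤ R0) (hd : 1 ≤ d) : ∃ c : ℝ, 0 < c ∧
    ∀ (n n' : Sp d) (s s' : ℝ), ‖n'‖ = 1 → |s'| ≤ R0 / 2 →
      c * gg n s n' s' ≤ plInt n' s' (fun y => zR R0 y * hgt n s y ^ 2) := by
  obtain ⟨k, rfl⟩ : ∃ k, d = k + 1 := ⟨d - 1, by omega⟩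
  refine ⟨UUm.vb k 2, UUm.vb_pos k (by norm_num), fun n n' s s' hn' hs' => ?_⟩
  set w := tang n' n with hw
  set h0 := s' * ⟪n', n⟫_ℝ - s with hh0
  have hwn : ⟪n', w⟫_ℝ = 0 := by
    rw [hw]; unfold tang
    rw [inner_sub_right, inner_smul_right, real_inner_self_eq_norm_sq, hn']; ring
  obtain ⟨σ, hσ, hσ0⟩ : ∃ σ : ℝ, |σ| = 1 ∧ σ * h0 = |h0| := by
    rcases le_total 0 h0 with h1 | h1
    · exact ⟨1, abs_one, by rw [abs_of_nonneg h1, one_mul]⟩
    · exact ⟨-1, by simp, by rw [abs_of_nonpos h1]; ring⟩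
  have hσ2 : σ ^ 2 = 1 := by rw [← sq_abs, hσ, one_pow]
  set u : Sp (k + 1) := (‖w‖⁻¹) • w with hu
  have hun : ‖u‖ ≤ 1 := by
    rw [hu, norm_smul, norm_inv, norm_norm]
    exact inv_mul_le_one
  have hwu : ⟪w, u⟫_ℝ = ‖w‖ := by
    rw [hu, inner_smul_right, real_inner_self_eq_norm_sq]
    rcases eq_or_ne ‖w‖ 0 with h1 | h1
    · rw [h1]; simp
    · field_simp
  have hx : ⟪n', s' • n' + (4 * σ) • u⟫_ℝ = s' := by
    rw [inner_add_right, inner_smul_right, inner_smul_right, hu, inner_smul_right, hwn,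
      real_inner_self_eq_norm_sq, hn']
    ring
  have hcont : Continuous (fun y : Sp (k + 1) => zR R0 y * hgt n s y ^ 2) := by
    refine (UUm.zR_cont R0).mul ?_
    unfold hgt
    fun_prop
  have := UUm.pl_lower k hn' (s := s') (F := fun y => zR R0 y * hgt n s y ^ 2) hcont
    ((UUm.zR_cs _).mul_right) (fun y => mul_nonneg (UUm.zR_nonneg _ _) (sq_nonneg _))
    (x := s' • n' + (4 * σ) • u) hx (r := 2) (κ := gg n s n' s') (fun y hy hyx => by
      have e1 : ‖s' • n' + (4 * σ) • u‖ ≤ R0 / 2 + 4 := by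
        refine (norm_add_le _ _).trans ?_
        rw [norm_smul, norm_smul, hn', mul_one, Real.norm_eq_abs, Real.norm_eq_abs, abs_mul, hσ,
          mul_one, abs_of_pos (by norm_num : (0 : ℝ) < 4)]
        linarith
      have e2 : ‖y‖ ≤ R0 := by
        have h1 := norm_add_le (y - (s' • n' + (4 * σ) • u)) (s' • n' + (4 * σ) • u)
        rw [sub_add_cancel] at h1
        linarith
      rw [UUm.zR_one e2, one_mul, hgt_plane s hy, ← hw, ← hh0]
      have e3 : ⟪w, y⟫_ℝ = ⟪w, y - (s' • n' + (4 * σ) • u)⟫_ℝ + 4 * σ * ‖w‖ := by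
        rw [inner_sub_right, inner_add_right, inner_smul_right, inner_smul_right, hwu,
          real_inner_comm n' w, hwn]
        ring
      have e4 : |⟪w, y - (s' • n' + (4 * σ) • u)⟫_ℝ| ≤ 2 * ‖w‖ := by
        refine (abs_real_inner_le_norm _ _).trans ?_
        nlinarith only [hyx, norm_nonneg w]
      set q := ⟪w, y - (s' • n' + (4 * σ) • u)⟫_ℝ with hq
      have e5 : |h0| + 2 * ‖w‖ ≤ σ * (h0 + ⟪w, y⟫_ℝ) := by
        have e6 : σ * (h0 + ⟪w, y⟫_ℝ) = |h0| + σ * q + 4 * σ ^ 2 * ‖w‖ := by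
          rw [e3, mul_add, hσ0]; ring
        have e7 : -(2 * ‖w‖) ≤ σ * q := by
          have e8 : |σ * q| ≤ 2 * ‖w‖ := by rw [abs_mul, hσ, one_mul]; exact e4
          linarith only [e8, neg_abs_le (σ * q)]
        rw [e6, hσ2]
        linarith only [e7]
      have e9 : (|h0| + 2 * ‖w‖) ^ 2 ≤ (h0 + ⟪w, y⟫_ℝ) ^ 2 := by
        have := pow_le_pow_left₀ (by (clear * -; positivity)) e5 2
        rwa [mul_pow, hσ2, one_mul] at this
      refine le_trans ?_ e9
      unfold gg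
      rw [← hw, ← hh0]
      linarith only [sq_abs h0, mul_nonneg (abs_nonneg h0) (norm_nonneg w), sq_nonneg ‖w‖])
  rw [mul_comm]
  exact this

/-! ## Test functions -/

lemma fderiv_hgt (n : Sp d) (s : ℝ) : fderiv ℝ (hgt n s) = fun _ => innerSL ℝ n := by
  funext z
  have h2 : HasFDerivAt (hgt n s) (innerSL ℝ n) z := by
    unfold hgt
    exact ((innerSL ℝ n).hasFDerivAt (x := z)).sub_const s
  exact h2.fderiv

lemma hgt_smooth (n : Sp d) (s : ℝ) {k : WithTop ℕ∞} : ContDiff ℝ k (hgt n s) :=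
  TU.ht_smooth n s

/-- tangential derivatives of the height -/
lemma TDb_hgt {J : ℕ} {n n' : Sp d} {s s' ρ : ℝ} {y : Sp d}
    (hy : ⟪n', y⟫_ℝ = s') (hyρ : ‖y‖ ≤ ρ) :
    TA1m.TDb J n' ((ρ + 1) * Real.sqrt (gg n s n' s')) (hgt n s) y := by
  have hρ : 0 ≤ ρ := (norm_nonneg _).trans hyρ
  have hg := gg_nonneg n s n' s'
  set G := Real.sqrt (gg n s n' s') with hG
  have hG0 : 0 ≤ G := Real.sqrt_nonneg _
  have hw : ‖tang n' n‖ ≤ G := by
    rw [hG]
    refine Real.le_sqrt_of_sq_le ?_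
    unfold gg
    linarith [sq_nonneg (s' * ⟪n', n⟫_ℝ - s)]
  have hh : |s' * ⟪n', n⟫_ℝ - s| ≤ G := by
    rw [hG]
    refine Real.le_sqrt_of_sq_le ?_
    unfold gg
    rw [sq_abs]
    linarith [sq_nonneg ‖tang n' n‖]
  intro j _ h h0 h1
  rcases j with _ | _ | j
  · rw [iteratedFDeriv_zero_apply, hgt_plane s hy]
    refine (abs_add_le _ _).trans ?_
    have e1 := abs_real_inner_le_norm (tang n' n) y
    nlinarith only [hh, e1, hyρ, hρ, hw, norm_nonneg (tang n' n)]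
  · have e0 : iteratedFDeriv ℝ (0 + 1) (hgt n s) y h = fderiv ℝ (hgt n s) y (h 0) :=
      iteratedFDeriv_one_apply h
    rw [e0, fderiv_hgt]
    have e1 : (innerSL ℝ n) (h 0) = ⟪tang n' n, h 0⟫_ℝ := by
      unfold tang
      rw [inner_sub_left, inner_smul_left, h0 0, mul_zero, sub_zero]
      rfl
    rw [e1]
    refine (abs_real_inner_le_norm _ _).trans ?_
    have := h1 0
    nlinarith [norm_nonneg (h 0), norm_nonneg (tang n' n)]
  · have e1 : iteratedFDeriv ℝ (j + 2) (hgt n s) y = 0 := by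
      rw [← norm_eq_zero, show j + 2 = (j + 1) + 1 from rfl, ← norm_iteratedFDeriv_fderiv,
        fderiv_hgt, iteratedFDeriv_const_of_ne (Nat.succ_ne_zero j)]
      simp
    have e2 : iteratedFDeriv ℝ (j + 1 + 1) (hgt n s) y h = 0 := by
      have e3 : iteratedFDeriv ℝ (j + 1 + 1) (hgt n s) y = 0 := e1
      rw [e3]; rfl
    rw [e2, abs_zero]
    positivity

/-- tangential bounds of the cut-off times the squared height -/
lemma TB_h2 (d J : ℕ) {R0 : ℝ} (hR0 : 0 < R0) (G : ℝ) : ∃ CN : ℝ, 0 < CN ∧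
    ∀ (n n' : Sp d) (s s' : ℝ), ‖n‖ = 1 → ‖n'‖ = 1 → gg n s n' s' ≤ G →
      TB J n' s' (CN * Real.sqrt (gg n s n' s')) (fun y => zR R0 y * hgt n s y ^ 2) := by
  obtain ⟨N0, hN0, hφ⟩ := TC.zR_cb d (J + 1) hR0
  set a : ℝ := R0 + 3 with ha
  have ha0 : 0 < a := by linarith
  refine ⟨2 ^ J * (N0 * (2 * a)) + 2 ^ J * (N0 * (2 ^ J * (a ^ 2 * Real.sqrt |G|))) + 1, by positivity, ?_⟩
  intro n n' s s' hn hn' hG
  set g := gg n s n' s' with hg
  have hg0 : 0 ≤ g := gg_nonneg n s n' s'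
  set q := Real.sqrt g with hq
  have hq0 : 0 ≤ q := Real.sqrt_nonneg _
  have hqG : q ≤ Real.sqrt |G| := Real.sqrt_le_sqrt (hG.trans (le_abs_self G))
  have hγ : |⟪n, n'⟫_ℝ| ≤ 1 := inner_bd hn' hn
  set A : ℝ := 2 ^ J * (N0 * (2 * a)) with hA
  set B : ℝ := 2 ^ J * (N0 * (2 ^ J * (a ^ 2 * Real.sqrt |G|))) with hB
  have hA0 : 0 ≤ A := by positivity
  have hB0 : 0 ≤ B := by positivity
  have sφ : ContDiff ℝ ((J + 1 : ℕ) : WithTop ℕ∞) (zR R0 : Sp d → ℝ) := hφ.smooth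
  have sℓ : ∀ k : WithTop ℕ∞, ContDiff ℝ k (hgt n s) := fun k => hgt_smooth n s
  have hder : (fun x => fderiv ℝ (fun y => zR R0 y * hgt n s y ^ 2) x n') =
      fun x => zR R0 x * ((2 * ⟪n, n'⟫_ℝ) * hgt n s x) +
        (fderiv ℝ (zR R0) x n') * (hgt n s x * hgt n s x) := by
    funext x
    have e1 : HasFDerivAt (zR R0 : Sp d → ℝ) (fderiv ℝ (zR R0) x) x :=
      (sφ.differentiable (by norm_num)).differentiableAt.hasFDerivAt
    have e2 : HasFDerivAt (hgt n s) (innerSL ℝ n) x := by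
      have := ((sℓ 1).differentiable (by norm_num)).differentiableAt.hasFDerivAt (x := x)
      rwa [fderiv_hgt] at this
    have e3 : HasFDerivAt (fun y => zR R0 y * hgt n s y ^ 2)
        (zR R0 x • (2 • hgt n s x ^ (2 - 1)) • (innerSL ℝ) n + hgt n s x ^ 2 •
          fderiv ℝ (zR R0) x) x := e1.mul (e2.pow 2)
    rw [e3.fderiv]
    simp only [_root_.add_apply, _root_.smul_apply, smul_eq_mul, innerSL_apply_apply]
    ring
  refine TA1m.TB_of_TDb fun y hy => ?_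
  rw [hder]
  by_cases hyR : ‖y‖ ≤ R0 + 2
  · have hℓ : TA1m.TDb J n' (a * q) (hgt n s) y := by
      have := TDb_hgt (J := J) (n := n) (s := s) hy hyR
      rwa [show R0 + 2 + 1 = a by rw [ha]; ring] at this
    have hφ1 : TA1m.TDb J n' N0 (zR R0) y :=
      TA1m.TDb.of_full fun j hj => hφ.bd j (by omega) y
    have hφ2 : TA1m.TDb J n' N0 (fun x => fderiv ℝ (zR R0) x n') y :=
      TA1m.TDb.of_full fun j hj => by
        have := (hφ.fderiv_apply n').bd j hj y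
        rwa [hn', one_mul] at this
    have sJ : ContDiff ℝ (J : WithTop ℕ∞) (zR R0 : Sp d → ℝ) :=
      sφ.of_le (by exact_mod_cast Nat.le_succ J)
    have hℓ2 := hℓ.mul (sℓ J) (sℓ J) hℓ
    have haa : 2 ^ J * (a * q * (a * q)) ≤ 2 ^ J * (a ^ 2 * Real.sqrt |G|) * q := by
      have : a * q * (a * q) ≤ a ^ 2 * Real.sqrt |G| * q := by
        have e1 : q * q ≤ Real.sqrt |G| * q := mul_le_mul_of_nonneg_right hqG hq0
        nlinarith only [e1]
      nlinarith only [this, pow_pos (by norm_num : (0 : ℝ) < 2) J]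
    have sℓ2 : ContDiff ℝ (J : WithTop ℕ∞) (fun x => hgt n s x * hgt n s x) := (sℓ J).mul (sℓ J)
    have hℓ2' := hℓ2.mono haa
    have sφ2 : ContDiff ℝ (J : WithTop ℕ∞) (fun x => fderiv ℝ (zR R0) x n') :=
      (hφ.fderiv_apply n').smooth
    constructor
    · have h1 := hφ1.mul sJ sℓ2 hℓ2'
      have h2 : (fun y => zR R0 y * hgt n s y ^ 2) = fun x => zR R0 x * (hgt n s x * hgt n s x) := by
        funext x; ring
      rw [h2]
      refine h1.mono ?_
      have : 2 ^ J * (N0 * (2 ^ J * (a ^ 2 * Real.sqrt |G|) * q)) = B * q := by rw [hB]; ring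
      rw [this]
      nlinarith only [hq0, hA0]
    · have h1 := hφ1.mul sJ (contDiff_const.mul (sℓ J)) (hℓ.const_mul (sℓ J) (2 * ⟪n, n'⟫_ℝ))
      have h2 := hφ2.mul sφ2 sℓ2 hℓ2'
      have h3 := TA1m.TDb.add (sJ.mul (contDiff_const.mul (sℓ J))) (sφ2.mul sℓ2) h1 h2
      refine h3.mono ?_
      have e1 : 2 ^ J * (N0 * (2 ^ J * (a ^ 2 * Real.sqrt |G|) * q)) = B * q := by rw [hB]; ring
      have e2 : 2 ^ J * (N0 * (|2 * ⟪n, n'⟫_ℝ| * (a * q))) ≤ A * q := by
        have e3 : |2 * ⟪n, n'⟫_ℝ| ≤ 2 := by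
          rw [abs_mul, abs_of_pos (by norm_num : (0 : ℝ) < 2)]; linarith
        have e4 : |2 * ⟪n, n'⟫_ℝ| * (a * q) ≤ 2 * (a * q) :=
          mul_le_mul_of_nonneg_right e3 (by positivity)
        calc 2 ^ J * (N0 * (|2 * ⟪n, n'⟫_ℝ| * (a * q))) ≤ 2 ^ J * (N0 * (2 * (a * q))) := by (clear * - e4 hN0; gcongr)
          _ = A * q := by rw [hA]; ring
      rw [e1]
      linarith only [hq0, e2]
  · have hC : 0 ≤ (A + B + 1) * q := by (clear * - hN0 hR0; positivity)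
    have hev : ∀ᶠ z in 𝓝 y, zR R0 z = 0 := by
      have : ∀ᶠ z in 𝓝 y, R0 + 1 < ‖z‖ :=
        continuous_norm.continuousAt.eventually_const_lt (by linarith)
      filter_upwards [this] with z hz using TC.zR_zero hz.le
    constructor
    · refine TA1m.TDb.of_ev ?_ hC
      filter_upwards [hev] with z hz
      rw [hz, zero_mul]
    · refine TA1m.TDb.of_ev ?_ hC
      filter_upwards [hev.eventually_nhds] with z hz
      have h1 : (zR R0 : Sp d → ℝ) =ᶠ[𝓝 z] fun _ => 0 := hz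
      rw [h1.fderiv_eq, hz.self_of_nhds]
      simp

/-! ## Positivity -/

/-- integrability of the off-sheet integrand -/
lemma int_blc {m : Sp d → ℝ} (hm : Continuous m) (n : Sp d) (s : ℝ) {r : ℝ} (hr : 0 < r) :
    Integrable (fun y => m y * (zR r y * hgt n s y ^ 2)) := by
  have hc : Continuous (fun y => m y * (zR r y * hgt n s y ^ 2)) := by
    have := (TU.zR_smooth (d := d) hr).continuous
    unfold hgt
    fun_prop
  refine hc.integrable_of_hasCompactSupport ?_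
  exact ((TU.zR_cs r).mul_right).mul_left

lemma int_zR {m : Sp d → ℝ} (hm : Continuous m) {r : ℝ} (hr : 0 < r) :
    Integrable (fun y => m y * zR r y) := by
  have hc : Continuous (fun y => m y * zR r y) :=
    hm.mul (TU.zR_smooth (d := d) hr).continuous
  exact hc.integrable_of_hasCompactSupport (TU.zR_cs r).mul_left

/-- the off-sheet mass is monotone in the radius up to the defect -/
lemma blc_le (d : ℕ) {r r' : ℝ} (hr : 0 < r) (hrr : r ≤ r') (S : ℝ) : ∃ K : ℝ, 0 < K ∧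
    ∀ (m : Sp d → ℝ) (n : Sp d) (s Rz D : ℝ), Continuous m → ‖n‖ = 1 → |s| ≤ S →
      r' + 1 ≤ Rz → ZP Rz D m → blc n s m r ≤ blc n s m r' + K * D := by
  obtain ⟨N1, hN1, h1⟩ := TC.ht2z_cb d 2 hr S
  obtain ⟨N2, hN2, h2⟩ := TC.ht2z_cb d 2 (hr.trans_le hrr) S
  refine ⟨N2 + N1, by positivity, fun m n s Rz D hm hn hs hR hZ => ?_⟩
  have h3 := (h2 n s hn.le hs).sub (h1 n s hn.le hs)
  have h4 := GSAux.ZP' hZ h3.tfn (fun y => by
    have e1 : zR r y ≤ zR r' y := Real.smoothTransition.monotone (by linarith)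
    have e2 : (0 : ℝ) ≤ ht n s y ^ 2 := sq_nonneg _
    nlinarith) (fun y hy => by
    rw [TU.zR_zero (by linarith : r' + 1 ≤ ‖y‖), TU.zR_zero (by linarith : r + 1 ≤ ‖y‖)]
    ring)
  have h5 : ∫ y, m y * (zR r' y * ht n s y ^ 2 - zR r y * ht n s y ^ 2) =
      blc n s m r' - blc n s m r := by
    unfold blc
    rw [← integral_sub (int_blc hm n s (hr.trans_le hrr)) (int_blc hm n s hr)]
    congr 1
    ext y
    simp only [ht, hgt]
    ring
  rw [h5] at h4
  linarith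

/-- if the plane is far then the mass is off-sheet -/
lemma mass_far (d : ℕ) {r R' : ℝ} (hr : 0 < r) (S : ℝ) (hR' : r + 1 ≤ R') :
    ∃ K : ℝ, 0 < K ∧ ∀ (m : Sp d → ℝ) (n : Sp d) (s Rz D : ℝ), Continuous m → ‖n‖ = 1 → |s| ≤ S →
      r + 2 ≤ |s| → R' + 1 ≤ Rz → ZP Rz D m → ∫ y, m y * zR r y ≤ blc n s m R' + K * D := by
  obtain ⟨N1, hN1, h1⟩ := TC.zR_cb d 2 hr
  obtain ⟨N2, hN2, h2⟩ := TC.ht2z_cb d 2 (R := R') (by linarith) S
  refine ⟨N2 + N1, by positivity, fun m n s Rz D hm hn hs hsr hR hZ => ?_⟩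
  have h3 := (h2 n s hn.le hs).sub h1
  have h4 := GSAux.ZP' hZ h3.tfn (fun y => by
    by_cases hy : r + 1 ≤ ‖y‖
    · rw [TU.zR_zero hy]
      have := TU.zR_nonneg R' y
      have e2 : (0 : ℝ) ≤ ht n s y ^ 2 := sq_nonneg _
      nlinarith only [this]
    · rw [not_le] at hy
      rw [TU.zR_one (by linarith : ‖y‖ ≤ R')]
      have e1 := TU.zR_le_one r y
      have e3 : 1 ≤ |ht n s y| := by
        unfold ht
        have e4 := abs_real_inner_le_norm n y
        rw [hn, one_mul] at e4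
        have e5 := abs_sub_abs_le_abs_sub s ⟪n, y⟫_ℝ
        rw [abs_sub_comm] at e5
        linarith
      have e6 : 1 ≤ ht n s y ^ 2 := by
        rw [← sq_abs]; nlinarith only [e3]
      linarith) (fun y hy => by
    rw [TU.zR_zero (by linarith : R' + 1 ≤ ‖y‖), TU.zR_zero (by linarith : r + 1 ≤ ‖y‖)]
    ring)
  have h5 : ∫ y, m y * (zR R' y * ht n s y ^ 2 - zR r y) =
      blc n s m R' - ∫ y, m y * zR r y := by
    unfold blc
    rw [← integral_sub (int_blc hm n s (by linarith)) (int_zR hm hr)]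
    congr 1
    ext y
    simp only [ht, hgt]
    ring
  rw [h5] at h4
  linarith

/-! ## The sheet -/

/-- the mass in the ball r is bounded by the density of the sheet -/
lemma mass_sheet (hPF : StmtPF) (d J : ℕ) (hd : 1 ≤ d) {r R S : ℝ} (hr : 0 < r) (hrR : r + 2 ≤ R) :
    ∃ K : ℝ, 0 < K ∧ ∀ (m : Sp d → ℝ) (n : Sp d) (s Rz D ab er dl κ : ℝ), Continuous m →
      |s| ≤ S → R + 1 ≤ Rz → 0 ≤ D → ZP Rz D m → 0 ≤ dl → κ ≤ 1 →
      Sheet J R ab er dl m n s → blc n s m R ≤ er → er ≤ κ * ab → dl ≤ κ * ab →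
      ∫ y, m y * zR r y ≤ K * ab + K * D := by
  obtain ⟨N1, hN1, h1⟩ := TC.zR_cb d (J + 2) hr
  obtain ⟨CP, hCP, hP⟩ := (hPF d hd).1 (r + 1)
  obtain ⟨K1, hK1, hb⟩ := blc_le d (r := r + 2) (r' := R) (by linarith) hrR S
  refine ⟨CP + 4 * N1 + N1 * K1, by positivity, ?_⟩
  intro m n s Rz D ab er dl κ hm hs hR hD hZ hdl hκ hS hbl her hdle
  have h2 := hS.est (zR r) (r + 1) N1 N1 (by exact_mod_cast h1.smooth) (by linarith)
    (by linarith) (fun y hy => TU.zR_zero hy) (GSAux.TB_of_TFn h1.tfn hS.n1 s)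
    (fun y => h1.bd 2 (by omega) y)
  rw [show r + 1 + 1 = r + 2 by ring] at h2
  have h3 := hb m n s Rz D hm hS.n1 hs hR hZ
  have h4 := hP n hS.n1 (zR r) 1 (TU.zR_smooth hr).continuous (fun y => by
    rw [abs_of_nonneg (TU.zR_nonneg _ _)]; exact TU.zR_le_one _ _) (fun y hy => by
      have e1 : ‖y‖ < r + 1 := by
        by_contra h1
        exact hy (TU.zR_zero (not_lt.1 h1))
      exact (PF.norm_tang_le hS.n1 y).trans e1.le) s
  have h5 := (abs_le.1 h2).2
  have h6 := le_trans (le_abs_self _) h4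
  have hab := hS.ab0
  have h7 : ab * plInt n s (zR r) ≤ CP * ab := by nlinarith only [h6, hab]
  have h8 : κ * ab ≤ ab := by nlinarith only [hκ, hab]
  have h9 : N1 * blc n s m (r + 2) ≤ N1 * (ab + K1 * D) := by
    refine mul_le_mul_of_nonneg_left ?_ hN1.le
    linarith
  have h10 : er * N1 ≤ ab * N1 := mul_le_mul_of_nonneg_right (by linarith) hN1.le
  have h11 : (N1 + N1) * dl ≤ (N1 + N1) * ab := mul_le_mul_of_nonneg_left (by linarith) (by linarith)
  have h12 : 0 ≤ (CP + 4 * N1) * D := by positivity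
  have h13 : 0 ≤ N1 * K1 * ab := by positivity
  linarith only [h5, h7, h9, h10, h11, h12, h13]

/-- the sheet is close to every plane with small off-sheet mass -/
lemma sheet_gg (d J : ℕ) (hd : 1 ≤ d) {R0 R S : ℝ} (hR0 : 12 ≤ R0) (hR : R0 + 2 ≤ R) :
    ∃ K : ℝ, 0 < K ∧ ∀ (m : Sp d → ℝ) (n n' : Sp d) (s s' ab er dl : ℝ),
      ‖n‖ = 1 → |s| ≤ S → |s'| ≤ R0 / 2 → 0 ≤ dl → Sheet J R ab er dl m n' s' →
      ab * gg n s n' s' ≤ K * (max 0 (blc n s m R0) + er ^ 2 / ab +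
        max 0 (blc n' s' m (R0 + 2)) + dl) := by
  obtain ⟨c, hc, hlow⟩ := plane_low (d := d) hR0 hd
  obtain ⟨CN, hCN, hTB⟩ := TB_h2 d J (R0 := R0) (by linarith) (1 + (S + R0 / 2) ^ 2)
  obtain ⟨N2, hN2, h2⟩ := TC.ht2z_cb d (J + 2) (R := R0) (by linarith) S
  set G : ℝ := 1 + (S + R0 / 2) ^ 2 with hG
  have hG1 : 1 ≤ G := by rw [hG]; linarith only [sq_nonneg (S + R0 / 2)]
  refine ⟨2 / c * (1 + CN ^ 2 / (2 * c) + N2 + (CN * Real.sqrt G + N2)), by positivity, ?_⟩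
  intro m n n' s s' ab er dl hn hs hs' hdl hS
  have hn' := hS.n1
  have hab := hS.ab0
  have her := hS.ep0
  have hg := gg_nonneg n s n' s'
  have hgG := gg_le hn hn' hs hs'
  rw [← hG] at hgG
  have h3 := hlow n n' s s' hn' hs'
  have h4 := hS.est (fun y => zR R0 y * hgt n s y ^ 2) (R0 + 1)
    (CN * Real.sqrt (gg n s n' s')) N2 (by exact_mod_cast (h2 n s hn.le hs).smooth) (by linarith)
    (by linarith) (fun y hy => by simp only [TU.zR_zero hy, zero_mul]) (hTB n n' s s' hn hn' hgG)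
    (fun y => (h2 n s hn.le hs).bd 2 (by omega) y)
  rw [show R0 + 1 + 1 = R0 + 2 by ring] at h4
  have h5 := (abs_le.1 h4).1
  have e0 : (∫ y, m y * (zR R0 y * hgt n s y ^ 2)) = blc n s m R0 := rfl
  rw [e0] at h5
  set g := gg n s n' s' with hgd
  set q := Real.sqrt g with hq
  have hq0 : 0 ≤ q := Real.sqrt_nonneg _
  have hqq : q ^ 2 = g := Real.sq_sqrt hg
  have hqG : q ≤ Real.sqrt G := Real.sqrt_le_sqrt hgG
  have h6 : ab * (c * g) ≤ ab * plInt n' s' (fun y => zR R0 y * hgt n s y ^ 2) :=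
    mul_le_mul_of_nonneg_left h3 hab.le
  have h7 : N2 * blc n' s' m (R0 + 2) ≤ N2 * max 0 (blc n' s' m (R0 + 2)) :=
    mul_le_mul_of_nonneg_left (le_max_right _ _) hN2.le
  have h8 : (CN * q + N2) * dl ≤ (CN * Real.sqrt G + N2) * dl := by
    refine mul_le_mul_of_nonneg_right ?_ hdl
    nlinarith
  have h9 : er * (CN * q) ≤ c / 2 * (ab * g) + CN ^ 2 / (2 * c) * (er ^ 2 / ab) := by
    have e1 : c / 2 * (ab * g) + CN ^ 2 / (2 * c) * (er ^ 2 / ab) - er * (CN * q) =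
        c * ab / 2 * (q - CN * er / (c * ab)) ^ 2 := by
      rw [← hqq]; field_simp; ring
    have e2 : 0 ≤ c * ab / 2 * (q - CN * er / (c * ab)) ^ 2 := by positivity
    linarith only [e1, e2]
  have h10 : blc n s m R0 ≤ max 0 (blc n s m R0) := le_max_right _ _
  set B1 := max 0 (blc n s m R0) with hB1
  set B2 := max 0 (blc n' s' m (R0 + 2)) with hB2
  have hB1n : 0 ≤ B1 := le_max_left _ _
  have hB2n : 0 ≤ B2 := le_max_left _ _
  set E := er ^ 2 / ab with hE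
  have hEn : 0 ≤ E := by positivity
  have hsG : 0 ≤ Real.sqrt G := Real.sqrt_nonneg _
  have h11 : c / 2 * (ab * g) ≤ B1 + CN ^ 2 / (2 * c) * E + N2 * B2 +
      (CN * Real.sqrt G + N2) * dl := by linarith
  have hT : c / 2 * (ab * g) ≤ (1 + CN ^ 2 / (2 * c) + N2 + (CN * Real.sqrt G + N2)) *
      (B1 + E + B2 + dl) := by
    have t1 : 0 ≤ CN ^ 2 / (2 * c) := by positivity
    have t2 : 0 ≤ CN * Real.sqrt G := by positivity
    have p1 : 0 ≤ (CN ^ 2 / (2 * c) + N2 + (CN * Real.sqrt G + N2)) * B1 := by positivity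
    have p2 : 0 ≤ (1 + N2 + (CN * Real.sqrt G + N2)) * E := by positivity
    have p3 : 0 ≤ (1 + CN ^ 2 / (2 * c) + (CN * Real.sqrt G + N2)) * B2 := by positivity
    have p4 : 0 ≤ (1 + CN ^ 2 / (2 * c) + N2) * dl := by positivity
    linarith only [h5, h6, h8, h10, h7, h9, p1, p2, p3, p4]
  have hF : ab * g = 2 / c * (c / 2 * (ab * g)) := by field_simp
  rw [hF, mul_assoc]
  exact mul_le_mul_of_nonneg_left hT (by positivity)

end

end WA7m

end TG


end

section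

/-!
# MODULE WA7: the functional Y, type A   (helper15)
-/

open MeasureTheory Metric Set TrI Filter
open scoped InnerProductSpace ContDiff Topology

set_option linter.unusedSectionVars false

namespace TG

namespace WA7m

noncomputable section

variable {d : ℕ}

/-- a pointwise lower bound of the gain gives a lower bound of the plane integral -/
lemma gain_low (h : StmtTH) (hWA : StmtWA) (hd : 2 ≤ d) {M C' ε R0 c : ℝ} (hC' : 0 < C')
    (hε : 0 < ε) (hε1 : ε ≤ 1) (hR0 : 63 ≤ R0) (hc : 0 < c) : ∃ i2 : ℝ, 0 < i2 ∧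
    ∀ β : Sp d → ℝ, Kit 10 M β → ∀ μ : Measure (Sp d), Gro C' μ → ∀ (n : Sp d) (s : ℝ), ‖n‖ = 1 →
      |s| ≤ R0 / 2 → c * vv μ 1 (s • n) ≤ XX β ε μ n 1 (s • n) →
      i2 * vv μ 1 0 < plInt n s (fun x => zR (2 * R0 - 1) x * XX β ε μ n 1 x) := by
  obtain ⟨k, rfl⟩ : ∃ k, d = k + 1 := ⟨d - 1, by omega⟩
  obtain ⟨C, hC, hTH⟩ := MO.getTH h (k + 1) 0 hd C' hC'
  obtain ⟨C1, hC1, hW⟩ := hWA (k + 1) 1 hd M C' ε hC' hε hε1
  have hCv : 0 < UUm.Cv (k + 1) C R0 := by
    have := Real.sqrt_pos.2 hC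
    unfold UUm.Cv; positivity
  set H := UUm.Cv (k + 1) C R0 with hH
  set L : ℝ := C1 * H with hL
  have hL0 : 0 < L := by positivity
  set r1 : ℝ := min 1 (c / (2 * H * L)) with hr1
  have hr10 : 0 < r1 := lt_min one_pos (by positivity)
  have hr11 : r1 ≤ 1 := min_le_left _ _
  have hr12 : r1 ≤ c / (2 * H * L) := min_le_right _ _
  have hvb := UUm.vb_pos k hr10
  refine ⟨c / (2 * H) * UUm.vb k r1 / 2, by positivity, ?_⟩
  intro β hβ μ hμ n s hn hs hX
  have hT := hTH μ hμ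
  have hv := hT.vpos one_pos (0 : Sp (k + 1))
  obtain ⟨-, -, -, -, hXX⟩ := hW β (UUm.kit_mono (by omega) hβ) μ hμ
  obtain ⟨hXs, hX0, hXb, -⟩ := hXX n hn
  have hsn : ‖s • n‖ = |s| := by rw [norm_smul, hn, mul_one, Real.norm_eq_abs]
  have hLip : ∀ x y : Sp (k + 1), ‖x‖ ≤ 2 * R0 → ‖y‖ ≤ 2 * R0 →
      |XX β ε μ n 1 y - XX β ε μ n 1 x| ≤ L * vv μ 1 0 * ‖y - x‖ := by
    intro x y hx hy
    have h1 : ∀ z ∈ closedBall (0 : Sp (k + 1)) (2 * R0), DifferentiableAt ℝ (XX β ε μ n 1) z :=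
      fun z _ => (hXs.differentiable (by norm_num)).differentiableAt
    have h2 : ∀ z ∈ closedBall (0 : Sp (k + 1)) (2 * R0),
        ‖fderiv ℝ (XX β ε μ n 1) z‖ ≤ L * vv μ 1 0 := fun z hz => by
      rw [← norm_iteratedFDeriv_one]
      refine (hXb 1 le_rfl z).trans ?_
      have e1 := (UUm.v_cmp (μ := μ) hC hT (R0 := R0) (by linarith) (r := 1) (by norm_num)
        (by norm_num) (y := z) (by simpa using hz)).1
      rw [hL, mul_assoc]
      exact mul_le_mul_of_nonneg_left e1 hC1.le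
    have h3 := (convex_closedBall (0 : Sp (k + 1)) (2 * R0)).norm_image_sub_le_of_norm_fderiv_le
      h1 h2 (show x ∈ closedBall (0 : Sp (k + 1)) (2 * R0) by simpa using hx)
      (show y ∈ closedBall (0 : Sp (k + 1)) (2 * R0) by simpa using hy)
    rwa [Real.norm_eq_abs] at h3
  have hv1 := (UUm.v_cmp (μ := μ) hC hT (R0 := R0) (by linarith) (r := 1) (by norm_num)
        (by norm_num) (y := s • n) (by rw [hsn]; linarith)).2
  rw [← hH] at hv1
  have hx0 : ⟪n, s • n⟫_ℝ = s := by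
    rw [inner_smul_right, real_inner_self_eq_norm_sq, hn]; ring
  have hlow := UUm.pl_lower k hn (s := s) (F := fun x => zR (2 * R0 - 1) x * XX β ε μ n 1 x)
    ((UUm.zR_cont _).mul hXs.continuous) ((UUm.zR_cs _).mul_right)
    (fun x => mul_nonneg (UUm.zR_nonneg _ _) (hX0 x))
    (x := s • n) hx0 (r := r1) (κ := c / (2 * H) * vv μ 1 0) (fun z hz hzx => by
      have hzn : ‖z‖ ≤ R0 / 2 + 1 := by
        have h2 := norm_add_le (z - s • n) (s • n)
        rw [sub_add_cancel, hsn] at h2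
        linarith
      rw [UUm.zR_one (by linarith), one_mul]
      have h1 := hLip (s • n) z (by rw [hsn]; linarith) (by linarith)
      have h2 := (abs_le.1 h1).1
      have h3 : L * vv μ 1 0 * ‖z - s • n‖ ≤ L * vv μ 1 0 * (c / (2 * H * L)) :=
        mul_le_mul_of_nonneg_left (hzx.trans hr12) (by positivity)
      have h4 : L * vv μ 1 0 * (c / (2 * H * L)) = c / (2 * H) * vv μ 1 0 := by
        field_simp
      have h5 : c / H * vv μ 1 0 ≤ c * vv μ 1 (s • n) := by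
        rw [div_mul_eq_mul_div, div_le_iff₀ hCv]
        nlinarith only [hc, hv1]
      have h6 : c / H * vv μ 1 0 = c / (2 * H) * vv μ 1 0 + c / (2 * H) * vv μ 1 0 := by
        field_simp; ring
      linarith)
  have : 0 < c / (2 * H) * vv μ 1 0 * UUm.vb k r1 := by positivity
  linarith only [hlow, this]

section cells

variable {E : Type} [NormedAddCommGroup E] [InnerProductSpace ℝ E]

lemma WSh_mono {J : ℕ} {R0 κ κ' : ℝ} {W : Wld d E} {Q : Cell d} (h : WSh J R0 κ W Q)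
    (hκ : κ ≤ κ') : WSh J R0 κ' W Q where
  sh := h.sh
  bl := h.bl
  loc := h.loc
  dl0 := h.dl0
  small := h.small.trans (mul_le_mul_of_nonneg_right hκ h.sh.ab0.le)
  smalld := h.smalld.trans (mul_le_mul_of_nonneg_right hκ h.sh.ab0.le)

lemma Ash_mono {J JA : ℕ} {R0 κ κ' Kc : ℝ} {W : Wld d E} {Q : Cell d} (h : Ash J JA R0 κ Kc W Q)
    (hκ : κ ≤ κ') : Ash J JA R0 κ' Kc W Q :=
  ⟨h.1, WSh_mono h.2.1 hκ, fun Q' hQ' =>
    ⟨(h.2.2 Q' hQ').1, WSh_mono (h.2.2 Q' hQ').2.1 hκ, (h.2.2 Q' hQ').2.2⟩⟩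

lemma ZP_mono {R R' D : ℝ} {m : Sp d → ℝ} (h : ZP R D m) (hR : R' ≤ R) : ZP R' D m :=
  fun H h1 h2 h3 h4 h5 => h H h1 h2 h3 h4 (fun y hy => h5 y (hR.trans hy))

lemma WOK_mono {JA : ℕ} {C' R0 Rz Rz' : ℝ} {X : Prm d} {W : Wld d E} (h : WOK JA C' R0 Rz X W)
    (hR : Rz' ≤ Rz) : WOK JA C' R0 Rz' X W where
  X_eq := h.X_eq
  s0_pos := h.s0_pos
  gro := h.gro
  fc := h.fc
  fs := h.fs
  eu := h.eu
  nu := h.nu
  ab0 := h.ab0
  D0 := h.D0
  zp := fun Q => ZP_mono (h.zp Q) hR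
  dir := fun Q Q' hQ' ζ N h1 h2 => h.dir Q Q' hQ' ζ N h1 (fun y hy => h2 y (hR.trans hy))

lemma cw_nonneg {s0 : ℝ} (h : 0 < s0) (Q : Cell d) : 0 ≤ cw s0 Q := by
  unfold cw lev; positivity

lemma v_eq (hSC : StmtSC) (hd : 2 ≤ d) {C' : ℝ} (hC' : 0 < C') {W : Wld d E}
    (hs0 : 0 < W.s0) (hμ : Gro C' W.μ) (Q : Cell d) : W.v Q = vv (W.mu Q) 1 0 := by
  unfold Wld.v Wld.mu omC
  rw [WT.vv_frame hSC hd hC' hμ hs0 Q one_pos, smul_zero, add_zero, mul_one]

/-- a sheet which meets the ball meets a near cell, or the posterior is far there -/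
lemma near_ex (hSE : StmtSE) (hNS : StmtNS) (hd : 2 ≤ d) {J JA : ℕ} {M c0 C' c R0 Rz : ℝ}
    {X : Prm d} (hX : XOK J JA M c0 C' c R0 X) {W : Wld d E} (hW : WOK JA C' R0 Rz X W)
    (P : Cell d) (hs : |W.sv P| ≤ R0 / 2) :
    (∃ Q' ∈ W.ns R0 JA P, W.Near Q') ∨
      qq X.A (W.mu P) 1 (W.sv P • W.nv P) ≤ X.p0 := by
  have hs0 := hW.s0_pos
  have hA := hX.prm.A_ge
  have hp0 := hX.prm.p0_pos
  have hd' : (2 : ℝ) ≤ d := by exact_mod_cast hd
  have hR0 : 400 + 8 * (d : ℝ) ≤ R0 := by linarith [hX.R0_ge]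
  obtain ⟨-, -, h3, -, h5, -⟩ := hNS d (by omega) W.s0 (3 * R0) hs0 (by linarith) JA P
  have hsn : ‖W.sv P • W.nv P‖ = |W.sv P| := by
    rw [norm_smul, hW.nu, mul_one, Real.norm_eq_abs]
  have h6 := h3 0 (Nat.zero_le _) (W.sv P • W.nv P) (by rw [hsn, pow_zero, mul_one]; linarith)
  obtain ⟨Q', hQ', hne⟩ := Finset.exists_ne_zero_of_sum_ne_zero (by rw [h6]; exact one_ne_zero)
  rw [Finset.mem_filter, add_zero] at hQ'
  rw [pow_zero, one_smul] at hne
  by_cases hN : W.Near Q'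
  · exact Or.inl ⟨Q', hQ'.1, hN⟩
  · right
    unfold Wld.Near at hN
    push Not at hN
    have h7 := hN _ hne
    have h8 := (WT.SE_shift hSE hd hX.C'_pos hW.gro hs0 (β := KN X.b 0) (M := M)
      (UUm.kit_mono (by omega) (hX.ker.kit 0)) hX.prm.ε_pos (by linarith [hX.prm.ε_le]) hp0
      (A := X.A) (by linarith) P Q' hQ'.2 (W.sv P • W.nv P - tw W.s0 P Q')).1
    rw [h5 Q' hQ'.2, add_sub_cancel] at h8
    rw [hW.X_eq, h5 Q' hQ'.2] at h7
    unfold Wld.mu at h7 ⊢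
    rw [h8] at h7
    linarith

/-- the values are nonnegative -/
lemma val_nonneg (hWA : StmtWA) (hSC : StmtSC) (hd : 2 ≤ d) {J JA : ℕ} {M c0 C' c R0 Rz : ℝ}
    {X : Prm d} (hX : XOK J JA M c0 C' c R0 X) {W : Wld d E} (hW : WOK JA C' R0 Rz X W)
    (Q : Cell d) : 0 ≤ W.val Q := by
  unfold Wld.val
  split_ifs with h1 h2
  · refine add_nonneg ?_ (le_max_left _ _)
    unfold Wld.sg
    refine mul_nonneg (hW.ab0 Q) ?_
    obtain ⟨C1, hC1, hB⟩ := hWA d 0 hd M C' X.ε hX.C'_pos hX.prm.ε_pos (by linarith [hX.prm.ε_le])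
    have hX0 := ((hB (W.be Q) (by
      unfold Wld.be bQ
      rw [hW.X_eq]
      exact UUm.kit_mono (by omega) (hX.ker.kit _)) (W.mu Q)
      (WT.gro_muQ hSC hd hX.C'_pos hW.gro hW.s0_pos Q)).2.2.2.2 (W.nv Q) (hW.nu Q)).2.1
    unfold plInt
    refine integral_nonneg fun y => mul_nonneg (PTm.chi_nonneg _) ?_
    rw [hW.X_eq]
    exact hX0 _
  · exact le_rfl
  · exact le_max_left _ _

/-- increase of the constants -/
lemma wrap {x a b c C CK sV B T : ℝ} (h : x ≤ a * sV + b * B + c * T) (ha : a ≤ C) (hb : b ≤ C)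
    (hc : c ≤ CK) (hV : 0 ≤ sV) (hB : 0 ≤ B) (hT : 0 ≤ T) : x ≤ C * sV + C * B + CK * T := by
  have h1 := mul_le_mul_of_nonneg_right ha hV
  have h2 := mul_le_mul_of_nonneg_right hb hB
  have h3 := mul_le_mul_of_nonneg_right hc hT
  linarith

end cells

end

end WA7m

open _root_.TG.WA7m in
/-- MODULE WA7 -/
theorem stmtWA7 (hTH : StmtTH) (hWA : StmtWA) (hPF : StmtPF) (hSC : StmtSC) (hSE : StmtSE)
    (hNS : StmtNS) (hP3 : StmtP3) (hP4 : StmtP4) : StmtWA7 := by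
  intro d J JA hd M c0 C' c R0 X hX C3 Ct R2 hC3 hCt hCtR hR2
  have hd' : (2 : ℝ) ≤ d := by exact_mod_cast hd
  have hA := hX.prm.A_ge
  have hR0 : 400 + 8 * (d : ℝ) ≤ R0 := by linarith [hX.R0_ge]
  have hC' := hX.C'_pos
  have hε := hX.prm.ε_pos
  have hε1 := hX.prm.ε_le
  have hcp := hX.far.c_pos
  obtain ⟨C3p, hC3p, hP3'⟩ := hP3 d J JA hd M c0 C' c R0 X hX
  obtain ⟨C4, i4, hC4, hi4, hP4'⟩ := hP4 d J JA hd M c0 C' c R0 X hX
  obtain ⟨K5, hK5, hMo⟩ := Mo_plane hTH hWA hd (M := M) (R0 := R0) hC' hε (by linarith)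
    (by linarith)
  obtain ⟨i2, hi2, hgain⟩ := gain_low hTH hWA hd (M := M) (R0 := R0) hC' hε (by linarith)
    (by linarith) hcp
  obtain ⟨K2, hK2, hfar⟩ := mass_far d (r := Ct) (R' := R0 + 4) (by linarith) (32 * R0 + 4)
    (by linarith)
  obtain ⟨K3, hK3, hsh⟩ := mass_sheet hPF d J (by omega) (r := Ct) (R := 64 * R0)
    (S := 32 * R0 + 4) (by linarith) (by linarith)
  obtain ⟨K6, hK6, hgg⟩ := sheet_gg d J (by omega) (R0 := R0) (R := 64 * R0) (S := R2)
    (by linarith) (by linarith)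
  obtain ⟨K7, hK7, hbl⟩ := blc_le d (r := R0 + 2) (r' := R0 + 4) (by linarith) (by linarith)
    (32 * R0 + 4)
  set K1 : ℝ := 2 * (1 + R2 ^ 2) with hK1
  set i0 : ℝ := min i4 i2 with hi0
  have hi00 : 0 < i0 := lt_min hi4 hi2
  set CG : ℝ := 2 + 2 * (R0 / 2) ^ 2 with hCG
  have hK10 : 0 < K1 := by positivity
  have hCG0 : 0 < CG := by positivity
  set a1 : ℝ := K1 * C3 * C4 with ha1
  set a2 : ℝ := K1 * (C3 * K3) * (C3p / i0) with ha2
  set a3 : ℝ := C3 * K3 * (2 * K5 * C4 + 4 * (CG * K6 * C4)) with ha3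
  set b3 : ℝ := C3 * K3 * (4 * (CG * K6)) with hb3
  have ha10 : 0 ≤ a1 := by positivity
  have ha20 : 0 ≤ a2 := by positivity
  have ha30 : 0 ≤ a3 := by positivity
  have hb30 : 0 ≤ b3 := by positivity
  refine ⟨a1 + a2 + a3 + b3 + 1, by (clear * - hR2 hC3 hC4 hK3 hC3p hi4 hi2 hK5 hK6; positivity), fun Kc hKc => ?_⟩
  obtain ⟨κ3, CK3, Rz3, hκ3, hCK3, hP3''⟩ := hP3' i0 Kc hi00 hKc
  obtain ⟨κ4, CK4, Rz4, hκ4, hCK4, hP4''⟩ := hP4' Kc hKc
  set c1 : ℝ := K1 * C3 * CK4 + K1 * (C3 * K2 + 1) with hc1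
  set c2 : ℝ := K1 * (C3 * K3) * CK3 + K1 * (C3 * K3 + 1) with hc2
  set c3 : ℝ := C3 * K3 * (2 * K5 * CK4 + 4 * (CG * K6 * (CK4 + K7 + 1))) +
    K1 * (C3 * K3 + 1) with hc3
  have hc10 : 0 ≤ c1 := by positivity
  have hc20 : 0 ≤ c2 := by positivity
  have hc30 : 0 ≤ c3 := by (clear * - hC3 hK3 hK5 hCK4 hK6 hK7 hR2; positivity)
  clear_value a1 a2 a3 b3 c1 c2 c3 K1 CG
  refine ⟨min 1 (min κ3 κ4), c1 + c2 + c3 + 1, max (max Rz3 Rz4) (64 * R0 + 1),
    lt_min one_pos (lt_min hκ3 hκ4), by positivity, ?_⟩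
  intro E _ _ _ W hW P hP hAsh at1 DT n s hat hDT hn hs hatI
  have hs0 := hW.s0_pos
  have hW3 : WOK JA C' R0 Rz3 X W := WOK_mono hW ((le_max_left _ _).trans (le_max_left _ _))
  have hW4 : WOK JA C' R0 Rz4 X W := WOK_mono hW ((le_max_right _ _).trans (le_max_left _ _))
  have hRz : 64 * R0 + 1 ≤ max (max Rz3 Rz4) (64 * R0 + 1) := le_max_right _ _
  set κ := min 1 (min κ3 κ4) with hκ
  have hκ1 : κ ≤ 1 := min_le_left _ _
  have hA3 := Ash_mono hAsh ((min_le_right _ _).trans (min_le_left _ _) : κ ≤ κ3)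
  have hA4 := Ash_mono hAsh ((min_le_right _ _).trans (min_le_right _ _) : κ ≤ κ4)
  obtain ⟨hsv, hWS, hnb⟩ := hAsh
  have hμ : Gro C' (W.mu P) := WT.gro_muQ hSC hd hC' hW.gro hs0 P
  have hve := v_eq hSC hd hC' hs0 hW.gro P
  have hv : 0 < W.v P := by
    rw [hve]
    obtain ⟨C, hC, hT⟩ := MO.getTH hTH d 0 hd C' hC'
    exact (hT _ hμ).vpos one_pos 0
  have hw : 0 ≤ W.w P := cw_nonneg hs0 P
  have hmc : Continuous (W.m P) := FR.mQ_cont hW.fc W.s0 (W.e P) P
  have hD := hW.D0 P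
  have hZ := hW.zp P
  have hkit : Kit 10 M (W.be P) := by
    unfold Wld.be bQ
    rw [hW.X_eq]
    exact UUm.kit_mono (by omega) (hX.ker.kit _)
  -- the cell itself is in its neighbourhood
  have hPns : P ∈ W.ns R0 JA P := by
    unfold Wld.ns
    rw [(hNS d (by omega) W.s0 (3 * R0) hs0 (by linarith) JA P).1 P]
    refine ⟨0, Nat.zero_le _, rfl, ?_⟩
    rw [sub_self, norm_zero]
    have := FR.lev_pos hs0 P.1
    have : 0 < 3 * R0 := by linarith
    positivity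
  have hsD : W.D P ≤ W.sD R0 JA P := by
    unfold Wld.sD
    exact Finset.single_le_sum (f := fun Q' => W.D Q') (fun Q' _ => hW.D0 Q') hPns
  have hsD0 : 0 ≤ W.sD R0 JA P := hD.trans hsD
  have hEn : ∀ Q' ∈ W.ns R0 JA P, 0 ≤ W.er Q' ^ 2 / W.ab Q' + W.dl Q' := fun Q' hQ' => by
    have h1 := (hnb Q' hQ').2.1
    have := h1.sh.ab0
    have := h1.dl0
    positivity
  have hsE0 : 0 ≤ W.sE R0 JA P := by
    unfold Wld.sE
    split_ifs
    · exact Finset.sum_nonneg hEn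
    · exact le_rfl
  have hsV0 : 0 ≤ W.sV R0 JA P := by
    unfold Wld.sV
    exact Finset.sum_nonneg fun Q' _ => mul_nonneg (cw_nonneg hs0 Q')
      (val_nonneg hWA hSC hd hX hW Q')
  have hwv : 0 ≤ W.w P * W.v P := mul_nonneg hw hv.le
  -- the moment
  obtain ⟨Mh, hMh⟩ : ∃ Mh : ℝ, Mh = Mo (W.mu P) n s 2 1 0 := ⟨_, rfl⟩
  have hM0 : 0 ≤ Mh := by
    rw [hMh, Mo2_eq, ← hve]
    exact div_nonneg (UUm.EE_nonneg _ (fun η => sq_nonneg _) _) hv.le
  have hM1 : Mh ≤ K1 * W.v P := by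
    rw [hMh]
    refine (Mo_le hTH hd hC' hμ hn s).trans ?_
    rw [← hve]
    refine mul_le_mul_of_nonneg_right ?_ hv.le
    have : s ^ 2 ≤ R2 ^ 2 := by rw [← sq_abs]; exact pow_le_pow_left₀ (abs_nonneg _) hs 2
    rw [hK1]; linarith
  rw [← hMh]
  have h4 := hP4'' E W hW4 P hA4
  obtain ⟨h41, h42⟩ := h4
  set B4 := max 0 (blc (W.nv P) (W.sv P) (W.m P) (R0 + 4)) with hB4
  have hB40 : 0 ≤ B4 := le_max_left _ _
  have hB4l : blc (W.nv P) (W.sv P) (W.m P) (R0 + 4) ≤ B4 := le_max_right _ _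
  set B1 := max 0 (blc n s (W.m P) R0) with hB1
  have hB10 : 0 ≤ B1 := le_max_left _ _
  have e1 : W.w P * W.v P * max 0 (blc n s (W.m P) R0) = (W.w P * W.v P) * B1 := rfl
  set T := W.sE R0 JA P + W.sD R0 JA P + DT with hT
  have hT0 : 0 ≤ T := add_nonneg (add_nonneg hsE0 hsD0) hDT
  have eC : (a1 + a2 + a3 + b3 + 1) * (W.w P * W.v P) * B1 =
      (a1 + a2 + a3 + b3 + 1) * ((W.w P * W.v P) * B1) := by ring
  have eK : (c1 + c2 + c3 + 1) * (W.w P * W.v P) * T =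
      (c1 + c2 + c3 + 1) * ((W.w P * W.v P) * T) := by ring
  rw [eC, eK]
  have hBw : 0 ≤ (W.w P * W.v P) * B1 := mul_nonneg hwv hB10
  have hTw : 0 ≤ (W.w P * W.v P) * T := mul_nonneg hwv hT0
  set wv := W.w P * W.v P with hwvd
  set sV := W.sV R0 JA P with hsV
  set sE := W.sE R0 JA P with hsE
  set sD := W.sD R0 JA P with hsDd
  clear_value T B1 B4 wv sV sE sD κ
  have hwvM : W.w P * Mh ≤ K1 * wv := by
    have := mul_le_mul_of_nonneg_left hM1 hw
    rw [hwvd]; linarith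
  rcases lt_or_ge (R0 / 2) |W.sv P| with hfs | hfs
  · -- the plane is far
    have hI := hfar (W.m P) (W.nv P) (W.sv P) _ (W.D P) hmc (hW.nu P) hsv (by linarith only [hCtR, hR0, hfs])
      (by linarith) hZ
    have hat' : at1 ≤ C3 * B4 + (C3 * K2 * sD + DT) := by
      refine hatI.trans ?_
      have h1 : (∫ y, W.m P y * zR Ct y) ≤ B4 + K2 * sD := by
        have := mul_le_mul_of_nonneg_left hsD hK2.le
        linarith only [hB4l, hI, this]
      have := mul_le_mul_of_nonneg_left h1 hC3.le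
      linarith
    have hr0 : 0 ≤ C3 * B4 + (C3 * K2 * sD + DT) := by (clear * - hC3 hB40 hK2 hsD0 hDT; positivity)
    have h1 : W.w P * (at1 * Mh) ≤ (C3 * B4 + (C3 * K2 * sD + DT)) * (K1 * wv) := by
      have e : W.w P * (at1 * Mh) = at1 * (W.w P * Mh) := by ring
      rw [e]
      exact mul_le_mul hat' hwvM (mul_nonneg hw hM0) hr0
    have h2 : (C3 * B4 + (C3 * K2 * sD + DT)) * (K1 * wv) ≤
        a1 * sV + 0 * (wv * B1) + c1 * (wv * T) := by
      have f1 : K1 * C3 * (wv * B4) ≤ K1 * C3 * (C4 * sV + CK4 * wv * (sE + sD)) :=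
        mul_le_mul_of_nonneg_left h41 (by positivity)
      have f2 : 0 ≤ K1 * C3 * CK4 * (wv * DT) := by (clear * - hK10 hC3 hCK4 hwv hDT; positivity)
      have f3 : 0 ≤ K1 * (C3 * K2) * (wv * (sE + DT)) := by (clear * - hK10 hC3 hK2 hwv hsE0 hDT; positivity)
      have f4 : 0 ≤ K1 * (wv * (sE + sD)) := by (clear * - hK10 hwv hsE0 hsD0; positivity)
      have e : a1 * sV + 0 * (wv * B1) + c1 * (wv * T) -
          (C3 * B4 + (C3 * K2 * sD + DT)) * (K1 * wv) =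
          (K1 * C3 * (C4 * sV + CK4 * wv * (sE + sD)) - K1 * C3 * (wv * B4)) +
          K1 * C3 * CK4 * (wv * DT) + K1 * (C3 * K2) * (wv * (sE + DT)) +
          K1 * (wv * (sE + sD)) := by
        rw [ha1, hc1, hT]; ring
      linarith only [f1, f2, f3, f4, e]
    exact wrap (h1.trans h2) (by linarith) (by linarith) (by linarith) hsV0 hBw hTw
  · -- the plane meets the ball
    have hI := hsh (W.m P) (W.nv P) (W.sv P) _ (W.D P) (W.ab P) (W.er P) (W.dl P) κ hmc hsv hRz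
      hD hZ hWS.dl0 hκ1 hWS.sh hWS.bl hWS.small hWS.smalld
    have hab := hWS.sh.ab0
    have hat' : at1 ≤ C3 * K3 * W.ab P + (C3 * K3 * sD + DT) := by
      refine hatI.trans ?_
      have h1 : (∫ y, W.m P y * zR Ct y) ≤ K3 * W.ab P + K3 * sD := by
        have := mul_le_mul_of_nonneg_left hsD hK3.le
        linarith
      have := mul_le_mul_of_nonneg_left h1 hC3.le
      linarith only [this]
    have h1 : W.w P * (at1 * Mh) ≤ C3 * K3 * (W.w P * (W.ab P * Mh)) +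
        (C3 * K3 * sD + DT) * (K1 * wv) := by
      have e : W.w P * (at1 * Mh) = at1 * (W.w P * Mh) := by ring
      rw [e]
      have hwM := mul_nonneg hw hM0
      have g1 := mul_le_mul_of_nonneg_right hat' hwM
      have g2 : (C3 * K3 * sD + DT) * (W.w P * Mh) ≤ (C3 * K3 * sD + DT) * (K1 * wv) :=
        mul_le_mul_of_nonneg_left hwvM (by (clear * - hC3 hK3 hsD0 hDT; positivity))
      have e2 : (C3 * K3 * W.ab P + (C3 * K3 * sD + DT)) * (W.w P * Mh) =
          C3 * K3 * (W.w P * (W.ab P * Mh)) + (C3 * K3 * sD + DT) * (W.w P * Mh) := by ring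
      linarith only [g1, g2]
    have hrem : (C3 * K3 * sD + DT) * (K1 * wv) ≤ K1 * (C3 * K3 + 1) * (wv * T) := by
      have f1 : 0 ≤ K1 * (C3 * K3) * (wv * (sE + DT)) := by (clear * - hK10 hC3 hK3 hwv hsE0 hDT; positivity)
      have f2 : 0 ≤ K1 * (wv * (sE + sD)) := by (clear * - hK10 hwv hsE0 hsD0; positivity)
      have e : K1 * (C3 * K3 + 1) * (wv * T) - (C3 * K3 * sD + DT) * (K1 * wv) =
          K1 * (C3 * K3) * (wv * (sE + DT)) + K1 * (wv * (sE + sD)) := by rw [hT]; ring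
      linarith only [f1, f2, e]
    rcases le_or_gt (plInt (W.nv P) (W.sv P)
        (fun x => zR (2 * R0 - 1) x * XX (W.be P) W.X.ε (W.mu P) (W.nv P) 1 x))
        (i0 * W.v P) with hg | hg
    · -- small gain
      have hnear : ∃ Q' ∈ W.ns R0 JA P, W.Near Q' := by
        rcases near_ex hSE hNS hd hX hW P hfs with h5 | h5
        · exact h5
        · exfalso
          have h6 := hX.far.farX (W.be P) (by
            unfold Wld.be bQ
            rw [hW.X_eq]
            exact hX.ker.kit _) (W.mu P) hμ (W.nv P) (hW.nu P) _ h5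
          have h7 := hgain (W.be P) hkit (W.mu P) hμ (W.nv P) (W.sv P) (hW.nu P) hfs h6
          rw [← hve] at h7
          rw [hW.X_eq] at hg
          have h8 : i0 * W.v P ≤ i2 * W.v P :=
            mul_le_mul_of_nonneg_right (min_le_right _ _) hv.le
          linarith
      have hsEP : W.er P ^ 2 / W.ab P + W.dl P ≤ sE := by
        rw [hsE]
        unfold Wld.sE
        rw [if_pos hnear]
        exact Finset.single_le_sum (f := fun Q' => W.er Q' ^ 2 / W.ab Q' + W.dl Q') hEn hPns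
      have h5 := h42 (hg.trans (mul_le_mul_of_nonneg_right (min_le_left _ _) hv.le))
      have h6 := hMo (W.be P) hkit (W.mu P) hμ (W.nv P) (W.sv P) (hW.nu P) hfs
      rw [hW.X_eq] at h5
      set PI := plInt (W.nv P) (W.sv P)
        (fun x => zR R0 x * XX (W.be P) X.ε (W.mu P) (W.nv P) 1 x) with hPI
      clear_value PI
      obtain ⟨σ, hσ, hdist⟩ := dist_le hn (hW.nu P) (s := s) hfs
      have h7 := Mo_two hTH hd hC' hμ (n := n) (hW.nu P) s (W.sv P) hσ
      rw [← hMh, ← hve] at h7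
      set Dl := ‖n - σ • W.nv P‖ ^ 2 + (s - σ * W.sv P) ^ 2 with hDl
      have h8 := hgg (W.m P) n (W.nv P) s (W.sv P) (W.ab P) (W.er P) (W.dl P) hn hs hfs hWS.dl0
        hWS.sh
      have h9 := hbl (W.m P) (W.nv P) (W.sv P) _ (W.D P) hmc (hW.nu P) hsv (by linarith only [hR0, hRz]) hZ
      have h10 : max 0 (blc (W.nv P) (W.sv P) (W.m P) (R0 + 2)) ≤ B4 + K7 * sD := by
        refine max_le (by (clear * - hB40 hK7 hsD0; positivity)) ?_
        have := mul_le_mul_of_nonneg_left hsD hK7.le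
        linarith only [hB4l, h9, this]
      rw [← hB1] at h8
      set g := gg n s (W.nv P) (W.sv P) with hgd
      -- ab Mh
      have h11 : W.ab P * Dl ≤ CG * K6 * (B1 + sE + B4 + K7 * sD) := by
        have j1 : W.ab P * Dl ≤ CG * (W.ab P * g) := by
          have := mul_le_mul_of_nonneg_left hdist hab.le
          rw [hCG]; linarith only [this]
        have j2 : W.ab P * g ≤ K6 * (B1 + sE + B4 + K7 * sD) := by
          refine h8.trans (mul_le_mul_of_nonneg_left ?_ hK6.le)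
          linarith only [hsEP, h10]
        have := mul_le_mul_of_nonneg_left j2 hCG0.le
        linarith only [j1, this]
      have h12 : W.ab P * Mh ≤ 2 * K5 * (W.ab P * PI) + 4 * (W.ab P * Dl) * W.v P := by
        have j1 := mul_le_mul_of_nonneg_left h7 hab.le
        have j2 : Mo (W.mu P) (W.nv P) (W.sv P) 2 1 0 ≤ K5 * PI := h6
        have j3 := mul_le_mul_of_nonneg_left j2 (by (clear * - hab; positivity) : 0 ≤ 2 * W.ab P)
        linarith only [j1, j3]
      have h13 : W.w P * (W.ab P * Mh) ≤ 2 * K5 * (W.w P * (W.ab P * PI)) +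
          4 * (CG * K6 * (wv * (B1 + sE + B4 + K7 * sD))) := by
        have j1 := mul_le_mul_of_nonneg_left h12 hw
        have j2 := mul_le_mul_of_nonneg_left h11 hwv
        have e : W.w P * (2 * K5 * (W.ab P * PI) + 4 * (W.ab P * Dl) * W.v P) =
            2 * K5 * (W.w P * (W.ab P * PI)) + 4 * (wv * (W.ab P * Dl)) := by rw [hwvd]; ring
        rw [e] at j1
        linarith only [j1, j2]
      have h14 : C3 * K3 * (W.w P * (W.ab P * Mh)) ≤ a3 * sV + b3 * (wv * B1) +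
          (c3 - K1 * (C3 * K3 + 1)) * (wv * T) := by
        have j0 : 0 ≤ C3 * K3 := by positivity
        have j1 := mul_le_mul_of_nonneg_left h13 j0
        have j2 : C3 * K3 * (2 * K5) * (W.w P * (W.ab P * PI)) ≤
            C3 * K3 * (2 * K5) * (C4 * sV + CK4 * wv * (sE + sD)) :=
          mul_le_mul_of_nonneg_left h5 (by positivity)
        have j3 : C3 * K3 * (4 * (CG * K6)) * (wv * B4) ≤
            C3 * K3 * (4 * (CG * K6)) * (C4 * sV + CK4 * wv * (sE + sD)) :=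
          mul_le_mul_of_nonneg_left h41 (by positivity)
        have p1 : 0 ≤ C3 * K3 * (2 * K5) * CK4 * (wv * DT) := by (clear * - hC3 hK3 hK5 hCK4 hwv hDT; positivity)
        have p2 : 0 ≤ C3 * K3 * (4 * (CG * K6)) * CK4 * (wv * DT) := by (clear * - hC3 hK3 hCG0 hK6 hCK4 hwv hDT; positivity)
        have p3 : 0 ≤ C3 * K3 * (4 * (CG * K6)) * K7 * (wv * (sE + DT)) := by (clear * - hC3 hK3 hCG0 hK6 hK7 hwv hsE0 hDT; positivity)
        have p4 : 0 ≤ C3 * K3 * (4 * (CG * K6)) * (wv * (sD + DT)) := by (clear * - hC3 hK3 hCG0 hK6 hwv hsD0 hDT; positivity)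
        have e : a3 * sV + b3 * (wv * B1) + (c3 - K1 * (C3 * K3 + 1)) * (wv * T) -
            C3 * K3 * (2 * K5 * (W.w P * (W.ab P * PI)) +
              4 * (CG * K6 * (wv * (B1 + sE + B4 + K7 * sD)))) =
            (C3 * K3 * (2 * K5) * (C4 * sV + CK4 * wv * (sE + sD)) -
              C3 * K3 * (2 * K5) * (W.w P * (W.ab P * PI))) +
            (C3 * K3 * (4 * (CG * K6)) * (C4 * sV + CK4 * wv * (sE + sD)) -
              C3 * K3 * (4 * (CG * K6)) * (wv * B4)) +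
            C3 * K3 * (2 * K5) * CK4 * (wv * DT) + C3 * K3 * (4 * (CG * K6)) * CK4 * (wv * DT) +
            C3 * K3 * (4 * (CG * K6)) * K7 * (wv * (sE + DT)) +
            C3 * K3 * (4 * (CG * K6)) * (wv * (sD + DT)) := by
          rw [ha3, hb3, hc3, hT]; ring
        linarith only [j1, j2, j3, p1, p2, p3, p4, e]
      have h15 : W.w P * (at1 * Mh) ≤ a3 * sV + b3 * (wv * B1) + c3 * (wv * T) := by
        have e : c3 * (wv * T) = (c3 - K1 * (C3 * K3 + 1)) * (wv * T) +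
            K1 * (C3 * K3 + 1) * (wv * T) := by ring
        linarith only [h1, hrem, h14]
      exact wrap h15 (by linarith only [ha10, ha20, hb30]) (by linarith only [ha10, ha20, ha30]) (by linarith only [hc10, hc20]) hsV0 hBw hTw
    · -- large gain
      have h5 := hP3'' E W hW3 P hA3 0 (2 * R0 - 1) (Nat.zero_le _) (by linarith)
        (by rw [pow_zero]; linarith only [hR0]) (by
          rw [pow_zero]
          exact hg.le)
      rw [← hsV, ← hsDd, ← hwvd] at h5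
      have h6 : W.w P * (W.ab P * Mh) ≤ K1 * (W.w P * W.v P * W.ab P) := by
        have := mul_le_mul_of_nonneg_left hwvM hab.le
        rw [hwvd] at this
        linarith only [this]
      rw [← hwvd] at h6
      have h7 : C3 * K3 * (W.w P * (W.ab P * Mh)) ≤ a2 * sV +
          K1 * (C3 * K3) * CK3 * (wv * T) := by
        have j0 : 0 ≤ C3 * K3 := by positivity
        have j1 := mul_le_mul_of_nonneg_left h6 j0
        have j2 : K1 * (C3 * K3) * (wv * W.ab P) ≤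
            K1 * (C3 * K3) * (C3p / i0 * sV + CK3 * wv * sD) :=
          mul_le_mul_of_nonneg_left h5 (by positivity)
        have p1 : 0 ≤ K1 * (C3 * K3) * CK3 * (wv * (sE + DT)) := by (clear * - hK10 hC3 hK3 hCK3 hwv hsE0 hDT; positivity)
        have e : a2 * sV + K1 * (C3 * K3) * CK3 * (wv * T) =
            K1 * (C3 * K3) * (C3p / i0 * sV + CK3 * wv * sD) +
            K1 * (C3 * K3) * CK3 * (wv * (sE + DT)) := by rw [ha2, hT]; ring
        linarith only [j1, j2, p1, e]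
      have h15 : W.w P * (at1 * Mh) ≤ a2 * sV + 0 * (wv * B1) + c2 * (wv * T) := by
        have e : c2 * (wv * T) = K1 * (C3 * K3) * CK3 * (wv * T) +
            K1 * (C3 * K3 + 1) * (wv * T) := by rw [hc2]; ring
        linarith only [h1, hrem, h7, e]
      exact wrap h15 (by linarith only [ha10, ha30, hb30]) (by linarith only [ha10, ha20, ha30, hb30]) (by linarith only [hc10, hc30]) hsV0 hBw hTw

end TG


end
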