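import Mathlib
import Pool.Agent.TRM.C02
import Pool.Agent.TRM.C04
import Pool.Agent.TRM.C08
import Pool.Agent.TRM.C14
import Pool.Agent.TRM.C15
import Pool.Agent.TRM.C17
import Pool.Agent.TRM.C18
import Pool.Agent.TRM.C19
import Pool.Agent.TRM.C20
import Pool.Agent.TRM.C21

/-! Parts: TG.ABq, TG.ABr, TG.AB, TG.WF -/

section

/-!
# Module AB, part 4: the far part (helper72)
-/

open MeasureTheory Metric Set TrI Filter
open scoped InnerProductSpace ContDiff Topology Interval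

namespace TG

noncomputable section

namespace AB

variable {d : ℕ}

/-! ## numbers -/

lemma num1 (hd : 1 ≤ d) {γ : ℝ} (hγ0 : 0 < γ) (hγ1 : γ < 1) {r : ℝ} (hr : 1 ≤ r) {ρ c : ℝ}
    (hρ0 : 1 ≤ ρ) (hc : 1 ≤ c) (hρ : ρ ≤ c * r) {K a D : ℝ} (hK : 0 ≤ K) (ha : 0 ≤ a)
    (hD : 0 ≤ D) :
    (1 / r) ^ d * (K * ρ ^ ((d : ℝ) - 1 + γ) * a + D) ≤
      c ^ d * r ^ (-(1 - γ)) * (K * a + D) := by
  have hd0 : (1 : ℝ) ≤ d := by exact_mod_cast hd
  have hr0 : 0 < r := by linarith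
  have hc0 : 0 < c := by linarith
  have e0 : 0 ≤ (d : ℝ) - 1 + γ := by linarith
  have h1 : (1 / r) ^ d = r ^ (-(d : ℝ)) := by
    rw [one_div, inv_pow, Real.rpow_neg hr0.le, Real.rpow_natCast]
  have h2 : ρ ^ ((d : ℝ) - 1 + γ) ≤ c ^ d * r ^ ((d : ℝ) - 1 + γ) := by
    calc ρ ^ ((d : ℝ) - 1 + γ) ≤ (c * r) ^ ((d : ℝ) - 1 + γ) :=
          Real.rpow_le_rpow (by linarith) hρ e0
      _ = c ^ ((d : ℝ) - 1 + γ) * r ^ ((d : ℝ) - 1 + γ) := Real.mul_rpow hc0.le hr0.le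
      _ ≤ c ^ (d : ℝ) * r ^ ((d : ℝ) - 1 + γ) := by
          refine mul_le_mul_of_nonneg_right ?_ (by positivity)
          exact Real.rpow_le_rpow_of_exponent_le hc (by linarith)
      _ = _ := by rw [Real.rpow_natCast]
  have h3 : r ^ (-(d : ℝ)) * r ^ ((d : ℝ) - 1 + γ) = r ^ (-(1 - γ)) := by
    rw [← Real.rpow_add hr0]
    congr 1
    ring
  have h4 : r ^ (-(d : ℝ)) ≤ r ^ (-(1 - γ)) :=
    Real.rpow_le_rpow_of_exponent_le hr (by linarith)
  have h5 : 1 ≤ c ^ d := one_le_pow₀ hc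
  have h6 : 0 ≤ r ^ (-(1 - γ)) := by positivity
  rw [h1]
  have h7 : r ^ (-(d : ℝ)) * (K * ρ ^ ((d : ℝ) - 1 + γ) * a) ≤
      c ^ d * r ^ (-(1 - γ)) * (K * a) := by
    calc r ^ (-(d : ℝ)) * (K * ρ ^ ((d : ℝ) - 1 + γ) * a) ≤
        r ^ (-(d : ℝ)) * (K * (c ^ d * r ^ ((d : ℝ) - 1 + γ)) * a) := by gcongr
      _ = c ^ d * (r ^ (-(d : ℝ)) * r ^ ((d : ℝ) - 1 + γ)) * (K * a) := by ring
      _ = _ := by rw [h3]
  have h8 : r ^ (-(d : ℝ)) * D ≤ c ^ d * r ^ (-(1 - γ)) * D := by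
    calc r ^ (-(d : ℝ)) * D ≤ r ^ (-(1 - γ)) * D := mul_le_mul_of_nonneg_right h4 hD
      _ = 1 * r ^ (-(1 - γ)) * D := by ring
      _ ≤ _ := by gcongr
  calc r ^ (-(d : ℝ)) * (K * ρ ^ ((d : ℝ) - 1 + γ) * a + D) =
      r ^ (-(d : ℝ)) * (K * ρ ^ ((d : ℝ) - 1 + γ) * a) + r ^ (-(d : ℝ)) * D := by ring
    _ ≤ c ^ d * r ^ (-(1 - γ)) * (K * a) + c ^ d * r ^ (-(1 - γ)) * D := add_le_add h7 h8
    _ = _ := by ring

lemma geo (n : ℕ) : ∑ j ∈ Finset.range n, (3 / 4 : ℝ) ^ j = 4 - 4 * (3 / 4) ^ n := by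
  induction n with
  | zero => simp
  | succ n ih =>
    rw [Finset.sum_range_succ, ih, pow_succ]
    ring

lemma num2 {γ : ℝ} (hγ : γ ≤ 1 / 8) (i j : ℕ) :
    ((2 : ℝ) ^ (i + j)) ^ (-(1 - γ)) ≤ (2 : ℝ) ^ (-(i : ℝ) * (1 - γ)) * (3 / 4) ^ j := by
  have h1 : ((2 : ℝ) ^ (i + j)) ^ (-(1 - γ)) =
      (2 : ℝ) ^ (-(i : ℝ) * (1 - γ)) * ((2 : ℝ) ^ (-(1 - γ))) ^ j := by
    rw [← Real.rpow_natCast, ← Real.rpow_natCast, ← Real.rpow_mul (by norm_num),
      ← Real.rpow_mul (by norm_num), ← Real.rpow_add (by norm_num)]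
    congr 1
    push_cast
    ring
  rw [h1]
  refine mul_le_mul_of_nonneg_left ?_ (by positivity)
  refine pow_le_pow_left₀ (by positivity) ?_ j
  have h2 : (2 : ℝ) ^ (-(1 - γ)) ≤ (2 : ℝ) ^ (-(1 / 2) : ℝ) :=
    Real.rpow_le_rpow_of_exponent_le (by norm_num) (by linarith)
  refine h2.trans ?_
  rw [Real.rpow_neg (by norm_num), ← Real.sqrt_eq_rpow, inv_le_comm₀ (by positivity) (by norm_num)]
  refine Real.le_sqrt_of_sq_le ?_
  norm_num

lemma num3 {γ : ℝ} (i : ℕ) : ((2 : ℝ) ^ i) ^ (-(1 - γ)) = (2 : ℝ) ^ (-(i : ℝ) * (1 - γ)) := by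
  rw [← Real.rpow_natCast, ← Real.rpow_mul (by norm_num)]
  congr 1
  ring

/-! ## far shells -/

lemma far_shell (hd : 1 ≤ d) {M c0 : ℝ} {b : Sp d → ℝ} (hb : BaseKer 2 M c0 b) {B : ℝ}
    (hβ : SMm.BF 4 B (Bp b)) {F : Fin d → Fin d → Sp d → ℝ} (hF : ∀ i j, ContDiff ℝ ∞ (F i j))
    {N : ℝ} (hN0 : 0 ≤ N) (hN : ∀ i j y, |F i j y| ≤ N)
    (hsupp : ∀ i j y, (d : ℝ) + 1 ≤ ‖y‖ → F i j y = 0) {r s : ℝ}
    (hr : 1 ≤ r) (hrs : r ≤ s) (hs : s ≤ 2 * r) {K γ R a D : ℝ} {m : Sp d → ℝ}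
    (hMG : MG K γ (2 * R + d) a D m) (hsR : s ≤ R) (hK : 0 ≤ K) (ha : 0 ≤ a) (hD : 0 ≤ D)
    (hγ0 : 0 < γ) (hγ1 : γ < 1) :
    |∫ y, m y * sh b r s F y| ≤
      d ^ 2 * (B * (volume.real (closedBall (0 : Sp d) (d + 1)) * N)) *
        ((d + 3) ^ d * r ^ (-(1 - γ)) * (K * a + D)) := by
  have hr0 : 0 < r := by linarith
  have hB0 : 0 ≤ B := hβ.nonneg
  have hd0 : (1 : ℝ) ≤ d := by exact_mod_cast hd
  set A : ℝ := d ^ 2 * (B * (volume.real (closedBall (0 : Sp d) (d + 1)) * N)) with hA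
  have hA0 : 0 ≤ A := by positivity
  have hk : ∀ k ≤ 2, ∀ y, ‖iteratedFDeriv ℝ k (sh b r s F) y‖ ≤ A * (1 / r) ^ d := by
    intro k hk y
    refine (sh_bd hb (k := k) (hβ.smooth.of_le (by exact_mod_cast (by omega : k + 2 ≤ 4)))
      (hβ.bd (k + 2) (by omega)) hF hN0 hN hsupp hr0 hrs hs y).trans ?_
    rw [mul_comm]
    refine mul_le_mul_of_nonneg_left ?_ hA0
    refine pow_le_pow_of_le_one (by positivity) ?_ (by omega)
    rw [div_le_one hr0]
    exact hr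
  have h1 := MG_use hMG (ρ := d + 1 + s) (A := A * (1 / r) ^ d) (by linarith) (by linarith)
    (H := sh b r s F) (contDiff_infty.1 (sh_smooth hb hr0.le (by linarith) hF) 2)
    (by positivity) (fun y => by
      have := hk 0 (by omega) y
      rwa [norm_iteratedFDeriv_zero, Real.norm_eq_abs] at this) (hk 2 le_rfl)
    (fun y hy => sh_supp hb hr0.le hrs hsupp (by linarith))
  refine h1.trans ?_
  rw [mul_assoc]
  refine mul_le_mul_of_nonneg_left ?_ hA0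
  refine num1 hd hγ0 hγ1 hr (by linarith) (by linarith) ?_ hK ha hD
  nlinarith only [hr, hs]

lemma sh_cs {M c0 : ℝ} {b : Sp d → ℝ} (hb : BaseKer 2 M c0 b) {r s : ℝ} (hr : 0 ≤ r)
    (hrs : r ≤ s) {F : Fin d → Fin d → Sp d → ℝ} {ρ : ℝ}
    (hsupp : ∀ i j y, ρ ≤ ‖y‖ → F i j y = 0) : HasCompactSupport (sh b r s F) :=
  cs_of (ρ := ρ + s / 2 + 1) fun y hy => sh_supp hb hr hrs hsupp (by linarith)

lemma far_sum (hd : 1 ≤ d) {M c0 : ℝ} {b : Sp d → ℝ} (hb : BaseKer 2 M c0 b) {B : ℝ}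
    (hβ : SMm.BF 4 B (Bp b)) {F : Fin d → Fin d → Sp d → ℝ} (hF : ∀ i j, ContDiff ℝ ∞ (F i j))
    {N : ℝ} (hN0 : 0 ≤ N) (hN : ∀ i j y, |F i j y| ≤ N)
    (hsupp : ∀ i j y, (d : ℝ) + 1 ≤ ‖y‖ → F i j y = 0)
    {K γ Rm a D : ℝ} {m : Sp d → ℝ} (hm : Continuous m)
    (hMG : MG K γ (2 * Rm + d) a D m) (hK : 0 ≤ K) (ha : 0 ≤ a) (hD : 0 ≤ D)
    (hγ0 : 0 < γ) (hγ : γ ≤ 1 / 8) (I n : ℕ) : ∀ R : ℝ, R ≤ Rm → 2 ^ I ≤ R → R ≤ 2 ^ (I + n) →
    |∫ y, m y * sh b (2 ^ I) R F y| ≤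
      d ^ 2 * (B * (volume.real (closedBall (0 : Sp d) (d + 1)) * N)) *
        ((d + 3) ^ d * (K * a + D)) * (2 : ℝ) ^ (-(I : ℝ) * (1 - γ)) *
        ∑ j ∈ Finset.range n, (3 / 4 : ℝ) ^ j := by
  have hB0 : 0 ≤ B := hβ.nonneg
  set A : ℝ := d ^ 2 * (B * (volume.real (closedBall (0 : Sp d) (d + 1)) * N)) with hA
  have hA0 : 0 ≤ A := by positivity
  induction n with
  | zero =>
    intro R _ h1 h2
    have h3 : R = 2 ^ I := le_antisymm h2 h1
    have h4 : ∀ y, sh b (2 ^ I) R F y = 0 := fun y => by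
      unfold sh
      rw [h3, sub_self]
    simp [h4]
  | succ n ih =>
    intro R hR1 hR2 hR3
    rw [Finset.sum_range_succ, mul_add]
    rcases le_or_gt R (2 ^ (I + n)) with hle | hlt
    · refine (ih R hR1 hR2 hle).trans (le_add_of_nonneg_right (by positivity))
    · have hp : (1 : ℝ) ≤ 2 ^ (I + n) := one_le_pow₀ (by norm_num)
      have hp' : (1 : ℝ) ≤ 2 ^ I := one_le_pow₀ (by norm_num)
      have hpp : (2 : ℝ) ^ I ≤ 2 ^ (I + n) := pow_le_pow_right₀ (by norm_num) (by omega)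
      have h1 := ih (2 ^ (I + n)) (hlt.le.trans hR1) hpp le_rfl
      have h2 := far_shell hd hb hβ hF hN0 hN hsupp hp hlt.le (by
        rw [show I + (n + 1) = (I + n) + 1 by ring, pow_succ] at hR3
        linarith) hMG hR1 hK ha hD hγ0 (by linarith)
      have h3 : ∫ y, m y * sh b (2 ^ I) R F y =
          (∫ y, m y * sh b (2 ^ I) (2 ^ (I + n)) F y) + ∫ y, m y * sh b (2 ^ (I + n)) R F y := by
        rw [← integral_add]
        · refine integral_congr_ae (Eventually.of_forall fun y => ?_)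
          simp only [sh]
          ring
        · exact (hm.mul (sh_smooth hb (by positivity) (by positivity) hF).continuous).integrable_of_hasCompactSupport
            (sh_cs hb (by positivity) hpp hsupp).mul_left
        · exact (hm.mul (sh_smooth hb (by positivity) (by linarith) hF).continuous).integrable_of_hasCompactSupport
            (sh_cs hb (by positivity) hlt.le hsupp).mul_left
      rw [h3]
      refine (abs_add_le _ _).trans (add_le_add h1 (h2.trans ?_))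
      have h4 := num2 hγ I n
      have h5 : 0 ≤ A * ((d + 3) ^ d * (K * a + D)) := by (clear * - hd hB0 hN0 hK ha hD; positivity)
      calc A * ((d + 3) ^ d * ((2 : ℝ) ^ (I + n)) ^ (-(1 - γ)) * (K * a + D)) =
          A * ((d + 3) ^ d * (K * a + D)) * ((2 : ℝ) ^ (I + n)) ^ (-(1 - γ)) := by ring
        _ ≤ A * ((d + 3) ^ d * (K * a + D)) * ((2 : ℝ) ^ (-(I : ℝ) * (1 - γ)) * (3 / 4) ^ n) :=
            mul_le_mul_of_nonneg_left h4 h5
        _ = _ := by ring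

lemma far_all (hd : 1 ≤ d) {M c0 : ℝ} {b : Sp d → ℝ} (hb : BaseKer 2 M c0 b) {B : ℝ}
    (hβ : SMm.BF 4 B (Bp b)) {F : Fin d → Fin d → Sp d → ℝ} (hF : ∀ i j, ContDiff ℝ ∞ (F i j))
    {N : ℝ} (hN0 : 0 ≤ N) (hN : ∀ i j y, |F i j y| ≤ N)
    (hsupp : ∀ i j y, (d : ℝ) + 1 ≤ ‖y‖ → F i j y = 0)
    {K γ R a D : ℝ} {m : Sp d → ℝ} (hm : Continuous m)
    (hMG : MG K γ (2 * R + d) a D m) (hK : 0 ≤ K) (ha : 0 ≤ a) (hD : 0 ≤ D)
    (hγ0 : 0 < γ) (hγ : γ ≤ 1 / 8) (I : ℕ) (hI : 2 ^ I ≤ R) :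
    |∫ y, m y * sh b (2 ^ I) R F y| ≤
      d ^ 2 * (B * (volume.real (closedBall (0 : Sp d) (d + 1)) * N)) *
        ((d + 3) ^ d * (K * a + D)) * (2 : ℝ) ^ (-(I : ℝ) * (1 - γ)) * 4 := by
  have hB0 : 0 ≤ B := hβ.nonneg
  obtain ⟨n, hn⟩ := pow_unbounded_of_one_lt R (by norm_num : (1 : ℝ) < 2)
  have h1 := far_sum hd hb hβ hF hN0 hN hsupp hm hMG hK ha hD hγ0 hγ I n R le_rfl hI
    (hn.le.trans (pow_le_pow_right₀ (by norm_num) (by omega)))
  refine h1.trans (mul_le_mul_of_nonneg_left ?_ (by positivity))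
  rw [geo]
  have : (0 : ℝ) ≤ (3 / 4) ^ n := by positivity
  linarith

/-! ## the average -/

lemma avk_bd {M c0 : ℝ} {b : Sp d → ℝ} (hb : BaseKer 2 M c0 b) {k : ℕ} (hk : k ≤ 2) {B : ℝ}
    (hB : SMm.BF 2 B b) {φ : Sp d → ℝ} (hφ : ContDiff ℝ ∞ φ) {N ρ : ℝ} (hN : ∀ y, |φ y| ≤ N)
    (hsupp : ∀ y, ρ ≤ ‖y‖ → φ y = 0) {R : ℝ} (hR : 0 < R) (x : Sp d) :
    ‖iteratedFDeriv ℝ k (avk b R φ) x‖ ≤
      (1 / R) ^ (k + d) * (B * (volume.real (closedBall (0 : Sp d) ρ) * N)) := by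
  have hN0 : 0 ≤ N := (abs_nonneg _).trans (hN 0)
  have hB0 : 0 ≤ B := hB.nonneg
  have hb1 : ∀ x, 1 ≤ ‖x‖ → b x = 0 := fun x hx => hb.supp x (by linarith)
  refine ContinuousMultilinearMap.opNorm_le_bound (by positivity) fun h => ?_
  have hφk : ContDiff ℝ k φ := hφ.of_le (by exact_mod_cast le_top)
  rw [hb.ak.iteratedFDeriv_avk hφk R le_rfl x, Real.norm_eq_abs]
  have h1 := hb.ak.avk_clm (ContinuousMultilinearMap.apply ℝ (fun _ : Fin k => Sp d) ℝ h)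
    (g := iteratedFDeriv ℝ k φ) (hφ.continuous_iteratedFDeriv (by exact_mod_cast le_top)) R x
  have h2 : avk b R (iteratedFDeriv ℝ k φ) x h =
      avk b R (fun z => iteratedFDeriv ℝ k φ z h) x := h1.symm
  rw [h2]
  exact key' (hB.smooth.of_le (by exact_mod_cast hk)) (ts_of hb1) (hB.bd k hk) hφ hN hsupp hR x h

lemma avk_supp {M c0 : ℝ} {b : Sp d → ℝ} (hb : BaseKer 2 M c0 b) {φ : Sp d → ℝ} {ρ : ℝ}
    (hsupp : ∀ y, ρ ≤ ‖y‖ → φ y = 0) {R : ℝ} (hR : 0 < R) {y : Sp d} (hy : ρ + R ≤ ‖y‖) :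
    avk b R φ y = 0 := by
  unfold avk
  refine integral_eq_zero_of_ae (Eventually.of_forall fun z => ?_)
  simp only [smul_eq_mul, Pi.zero_apply]
  by_cases hz : 1 / 2 ≤ ‖z‖
  · rw [hb.supp z hz, zero_mul]
  · push Not at hz
    rw [hsupp, mul_zero]
    have h1 : ‖y‖ ≤ ‖y + R • z‖ + ‖R • z‖ := by
      have := norm_sub_le (y + R • z) (R • z)
      rwa [add_sub_cancel_right] at this
    have h2 : ‖R • z‖ ≤ R := by
      rw [norm_smul, Real.norm_of_nonneg hR.le]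
      nlinarith [norm_nonneg z]
    linarith

lemma far_avk (hd : 1 ≤ d) {M c0 : ℝ} {b : Sp d → ℝ} (hb : BaseKer 2 M c0 b) {B : ℝ}
    (hB : SMm.BF 2 B b) {φ : Sp d → ℝ} (hφ : ContDiff ℝ ∞ φ) {N : ℝ} (hN : ∀ y, |φ y| ≤ N)
    (hsupp : ∀ y, (d : ℝ) + 1 ≤ ‖y‖ → φ y = 0)
    {K γ R a D : ℝ} {m : Sp d → ℝ}
    (hMG : MG K γ (2 * R + d) a D m) (hK : 0 ≤ K) (ha : 0 ≤ a) (hD : 0 ≤ D)
    (hγ0 : 0 < γ) (hγ : γ ≤ 1 / 8) (I : ℕ) (hI : 2 ^ I ≤ R) :
    |∫ y, m y * avk b R φ y| ≤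
      B * (volume.real (closedBall (0 : Sp d) (d + 1)) * N) *
        ((d + 2) ^ d * (K * a + D)) * (2 : ℝ) ^ (-(I : ℝ) * (1 - γ)) := by
  have hp' : (1 : ℝ) ≤ 2 ^ I := one_le_pow₀ (by norm_num)
  have hR : 1 ≤ R := hp'.trans hI
  have hR0 : 0 < R := by linarith
  have hN0 : 0 ≤ N := (abs_nonneg _).trans (hN 0)
  have hB0 : 0 ≤ B := hB.nonneg
  have hd0 : (1 : ℝ) ≤ d := by exact_mod_cast hd
  set A : ℝ := B * (volume.real (closedBall (0 : Sp d) (d + 1)) * N) with hA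
  have hA0 : 0 ≤ A := by positivity
  have hk : ∀ k ≤ 2, ∀ y, ‖iteratedFDeriv ℝ k (avk b R φ) y‖ ≤ A * (1 / R) ^ d := by
    intro k hk y
    refine (avk_bd hb hk hB hφ hN hsupp hR0 y).trans ?_
    rw [mul_comm]
    refine mul_le_mul_of_nonneg_left ?_ hA0
    refine pow_le_pow_of_le_one (by positivity) ?_ (by omega)
    rw [div_le_one hR0]
    exact hR
  have h1 := MG_use hMG (ρ := d + 1 + R) (A := A * (1 / R) ^ d) (by linarith) (by linarith)
    (H := avk b R φ) (hb.ak.avk_contDiff (n := 2) (contDiff_infty.1 hφ 2) R)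
    (by positivity) (fun y => by
      have := hk 0 (by omega) y
      rwa [norm_iteratedFDeriv_zero, Real.norm_eq_abs] at this) (hk 2 le_rfl)
    (fun y hy => avk_supp hb hsupp hR0 hy)
  refine h1.trans ?_
  have h2 := num1 hd hγ0 (by linarith) hR (ρ := d + 1 + R) (c := d + 2) (by linarith)
    (by linarith) (by nlinarith only [hI, hp']) hK ha hD
  have h3 : R ^ (-(1 - γ)) ≤ (2 : ℝ) ^ (-(I : ℝ) * (1 - γ)) := by
    rw [← num3]
    exact Real.rpow_le_rpow_of_nonpos (by positivity) hI (by linarith)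
  calc A * (1 / R) ^ d * (K * (d + 1 + R) ^ ((d : ℝ) - 1 + γ) * a + D) =
      A * ((1 / R) ^ d * (K * (d + 1 + R) ^ ((d : ℝ) - 1 + γ) * a + D)) := by ring
    _ ≤ A * ((d + 2) ^ d * R ^ (-(1 - γ)) * (K * a + D)) := mul_le_mul_of_nonneg_left h2 hA0
    _ = A * ((d + 2) ^ d * (K * a + D)) * R ^ (-(1 - γ)) := by ring
    _ ≤ _ := mul_le_mul_of_nonneg_left h3 (by positivity)

end AB

end

end TG


end

section

/-!
# Module AB, part 5: assembly for smooth matrix fields (helper72)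
-/

open MeasureTheory Metric Set TrI Filter
open scoped InnerProductSpace ContDiff Topology Interval

namespace TG

noncomputable section

namespace AB

variable {d : ℕ}

/-! ## the matrix field F = φ I - Y -/

/-- the quadratic form of a matrix field in direction n, as in the statement -/
def qs (n : Sp d) (Y : Fin d → Fin d → Sp d → ℝ) (y : Sp d) : ℝ := ∑ i, ∑ j, n i * n j * Y i j y

/-- F = φ I - Y -/
def FF (n : Sp d) (Y : Fin d → Fin d → Sp d → ℝ) (i j : Fin d) (y : Sp d) : ℝ :=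
  (if i = j then qs n Y y else 0) - Y i j y

lemma coord_le {n : Sp d} (hn : ‖n‖ = 1) (i : Fin d) : |n i| ≤ 1 := by
  have h1 := PiLp.norm_apply_le n i
  rwa [hn, Real.norm_eq_abs] at h1

lemma sum_sq {n : Sp d} (hn : ‖n‖ = 1) : ∑ i : Fin d, n i * n i = 1 := by
  have := EuclideanSpace.real_norm_sq_eq n
  rw [hn] at this
  simp only [one_pow] at this
  rw [this]
  exact Finset.sum_congr rfl fun i _ => (sq _).symm

lemma qs_smooth (n : Sp d) {Y : Fin d → Fin d → Sp d → ℝ} (hY : ∀ i j, ContDiff ℝ ∞ (Y i j)) :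
    ContDiff ℝ ∞ (qs n Y) :=
  ContDiff.sum fun i _ => ContDiff.sum fun j _ => contDiff_const.mul (hY i j)

lemma FF_smooth (n : Sp d) {Y : Fin d → Fin d → Sp d → ℝ} (hY : ∀ i j, ContDiff ℝ ∞ (Y i j))
    (i j : Fin d) : ContDiff ℝ ∞ (FF n Y i j) := by
  refine ContDiff.sub ?_ (hY i j)
  by_cases hij : i = j
  · simp only [hij, if_true]
    exact qs_smooth n hY
  · simp only [hij, if_false]
    exact contDiff_const

lemma qs_iter {n : Sp d} (hn : ‖n‖ = 1) {Y : Fin d → Fin d → Sp d → ℝ}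
    (hY : ∀ i j, ContDiff ℝ ∞ (Y i j)) {k : ℕ} {N : ℝ}
    (hN : ∀ i j y, ‖iteratedFDeriv ℝ k (Y i j) y‖ ≤ N) (y : Sp d) :
    ‖iteratedFDeriv ℝ k (qs n Y) y‖ ≤ d ^ 2 * N := by
  have h0 : ∀ i j, ContDiffAt ℝ k (fun y => n i * n j * Y i j y) y := fun i j =>
    ((contDiff_const.mul (hY i j)).of_le (by exact_mod_cast le_top)).contDiffAt
  have h1 : iteratedFDeriv ℝ k (qs n Y) y =
      ∑ i, ∑ j, (n i * n j) • iteratedFDeriv ℝ k (Y i j) y := by
    unfold qs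
    rw [iteratedFDeriv_fun_sum_apply (fun i _ => ContDiffAt.sum fun j _ => h0 i j)]
    refine Finset.sum_congr rfl fun i _ => ?_
    rw [iteratedFDeriv_fun_sum_apply (fun j _ => h0 i j)]
    refine Finset.sum_congr rfl fun j _ => ?_
    exact iteratedFDeriv_const_smul_apply' (a := n i * n j)
      ((hY i j).of_le (by exact_mod_cast le_top)).contDiffAt
  rw [h1]
  calc ‖∑ i, ∑ j, (n i * n j) • iteratedFDeriv ℝ k (Y i j) y‖ ≤
      ∑ _i : Fin d, ∑ _j : Fin d, N := by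
        refine (norm_sum_le _ _).trans (Finset.sum_le_sum fun i _ => ?_)
        refine (norm_sum_le _ _).trans (Finset.sum_le_sum fun j _ => ?_)
        rw [norm_smul, Real.norm_eq_abs, abs_mul]
        have h2 := hN i j y
        have h3 : |n i| * |n j| ≤ 1 := mul_le_one₀ (coord_le hn i) (abs_nonneg _) (coord_le hn j)
        calc |n i| * |n j| * ‖iteratedFDeriv ℝ k (Y i j) y‖ ≤ 1 * N :=
              mul_le_mul h3 h2 (norm_nonneg _) zero_le_one
          _ = N := one_mul N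
    _ = _ := by
        simp only [Finset.sum_const, Finset.card_univ, Fintype.card_fin, nsmul_eq_mul]
        ring

lemma FF_iter (hd : 1 ≤ d) {n : Sp d} (hn : ‖n‖ = 1) {Y : Fin d → Fin d → Sp d → ℝ}
    (hY : ∀ i j, ContDiff ℝ ∞ (Y i j)) {k : ℕ} {N : ℝ}
    (hN : ∀ i j y, ‖iteratedFDeriv ℝ k (Y i j) y‖ ≤ N) (i j : Fin d) (y : Sp d) :
    ‖iteratedFDeriv ℝ k (FF n Y i j) y‖ ≤ 2 * d ^ 2 * N := by
  have hN0 : 0 ≤ N := (norm_nonneg _).trans (hN i j y)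
  have hd0 : (1 : ℝ) ≤ d := by exact_mod_cast hd
  have hd1 : (1 : ℝ) ≤ (d : ℝ) ^ 2 := one_le_pow₀ hd0
  have h1 : FF n Y i j = (fun y => if i = j then qs n Y y else 0) - Y i j := rfl
  have h2 : ContDiff ℝ ∞ (fun y => if i = j then qs n Y y else 0) := by
    by_cases hij : i = j
    · simp only [hij, if_true]
      exact qs_smooth n hY
    · simp only [hij, if_false]
      exact contDiff_const
  rw [h1, iteratedFDeriv_sub_apply (h2.of_le (by exact_mod_cast le_top)).contDiffAt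
    ((hY i j).of_le (by exact_mod_cast le_top)).contDiffAt]
  refine (norm_sub_le _ _).trans ?_
  have h3 : ‖iteratedFDeriv ℝ k (fun y => if i = j then qs n Y y else 0) y‖ ≤ d ^ 2 * N := by
    by_cases hij : i = j
    · simp only [hij, if_true]
      exact qs_iter hn hY hN y
    · simp only [hij, if_false]
      have : iteratedFDeriv ℝ k (fun _ : Sp d => (0 : ℝ)) y = 0 := by
        have h := iteratedFDeriv_zero_fun (𝕜 := ℝ) (E := Sp d) (F := ℝ) (n := k)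
        exact congrFun h y
      rw [this, norm_zero]
      positivity
  have h4 := hN i j y
  nlinarith

lemma FF_supp {n : Sp d} {Y : Fin d → Fin d → Sp d → ℝ} {ρ : ℝ}
    (hs : ∀ i j y, ρ ≤ ‖y‖ → Y i j y = 0) (i j : Fin d) (y : Sp d) (hy : ρ ≤ ‖y‖) :
    FF n Y i j y = 0 := by
  unfold FF qs
  simp [hs _ _ y hy]

lemma qs_supp {n : Sp d} {Y : Fin d → Fin d → Sp d → ℝ} {ρ : ℝ}
    (hs : ∀ i j y, ρ ≤ ‖y‖ → Y i j y = 0) (y : Sp d) (hy : ρ ≤ ‖y‖) : qs n Y y = 0 := by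
  unfold qs
  simp [hs _ _ y hy]

/-- the quadratic form of F in direction ν is small if ν is close to n -/
lemma qs_FF {n ν : Sp d} (hν : ‖ν‖ = 1) (Y : Fin d → Fin d → Sp d → ℝ) (y : Sp d) :
    qs ν (FF n Y) y = qs n Y y - qs ν Y y := by
  have h1 : qs ν (FF n Y) y = ∑ i, ∑ j, (ν i * ν j * (if i = j then qs n Y y else 0) -
      ν i * ν j * Y i j y) := by
    unfold qs FF
    refine Finset.sum_congr rfl fun i _ => Finset.sum_congr rfl fun j _ => ?_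
    unfold qs
    ring
  rw [h1]
  simp only [Finset.sum_sub_distrib]
  have h2 : ∑ i, ∑ j, ν i * ν j * (if i = j then qs n Y y else 0) = qs n Y y := by
    have h3 : ∀ i : Fin d, ∑ j, ν i * ν j * (if i = j then qs n Y y else 0) =
        ν i * ν i * qs n Y y := by
      intro i
      rw [Finset.sum_eq_single i]
      · simp
      · intro j _ hj
        rw [if_neg (Ne.symm hj), mul_zero]
      · intro h
        exact absurd (Finset.mem_univ i) h
    simp only [h3]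
    rw [← Finset.sum_mul, sum_sq hν, one_mul]
  rw [h2]
  rfl

lemma qs_FF_bd {n ν : Sp d} (hn : ‖n‖ = 1) (hν : ‖ν‖ = 1) {Y : Fin d → Fin d → Sp d → ℝ} {N : ℝ}
    (hN : ∀ i j y, |Y i j y| ≤ N) (y : Sp d) :
    |qs ν (FF n Y) y| ≤ 2 * d ^ 2 * N * ‖ν - n‖ := by
  rw [qs_FF hν]
  have h1 : qs n Y y - qs ν Y y = ∑ i, ∑ j, (n i * n j - ν i * ν j) * Y i j y := by
    unfold qs
    rw [← Finset.sum_sub_distrib]
    refine Finset.sum_congr rfl fun i _ => ?_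
    rw [← Finset.sum_sub_distrib]
    refine Finset.sum_congr rfl fun j _ => ?_
    ring
  have h2 : ∀ i : Fin d, |n i - ν i| ≤ ‖ν - n‖ := by
    intro i
    have h3 := PiLp.norm_apply_le (ν - n) i
    rw [Real.norm_eq_abs] at h3
    rw [abs_sub_comm]
    exact h3
  rw [h1]
  calc |∑ i, ∑ j, (n i * n j - ν i * ν j) * Y i j y| ≤
      ∑ _i : Fin d, ∑ _j : Fin d, 2 * ‖ν - n‖ * N := by
        refine (Finset.abs_sum_le_sum_abs _ _).trans (Finset.sum_le_sum fun i _ => ?_)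
        refine (Finset.abs_sum_le_sum_abs _ _).trans (Finset.sum_le_sum fun j _ => ?_)
        rw [abs_mul]
        have h3 : |n i * n j - ν i * ν j| ≤ 2 * ‖ν - n‖ := by
          have h4 : n i * n j - ν i * ν j = n i * (n j - ν j) + (n i - ν i) * ν j := by ring
          rw [h4]
          refine (abs_add_le _ _).trans ?_
          rw [abs_mul, abs_mul]
          have h5 : |n i| * |n j - ν j| ≤ 1 * ‖ν - n‖ :=
            mul_le_mul (coord_le hn i) (h2 j) (abs_nonneg _) zero_le_one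
          have h6 : |n i - ν i| * |ν j| ≤ ‖ν - n‖ * 1 :=
            mul_le_mul (h2 i) (coord_le hν j) (abs_nonneg _) (norm_nonneg _)
          linarith
        exact mul_le_mul h3 (hN i j y) (abs_nonneg _) (by positivity)
    _ = _ := by
        simp only [Finset.sum_const, Finset.card_univ, Fintype.card_fin, nsmul_eq_mul]
        ring

lemma qs_FF_self {n : Sp d} (hn : ‖n‖ = 1) (Y : Fin d → Fin d → Sp d → ℝ) :
    qs n (FF n Y) = fun _ => 0 := by
  ext y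
  rw [qs_FF hn, sub_self]

/-! ## the decomposition -/

lemma dd2_sub {A B : Fin d → Fin d → Sp d → ℝ} (hA : ∀ i j, ContDiff ℝ ∞ (A i j))
    (hB : ∀ i j, ContDiff ℝ ∞ (B i j)) :
    dd2 (fun i j y => A i j y - B i j y) = fun y => dd2 A y - dd2 B y := by
  ext y
  unfold dd2 pd2
  rw [← Finset.sum_sub_distrib]
  refine Finset.sum_congr rfl fun i _ => ?_
  rw [← Finset.sum_sub_distrib]
  refine Finset.sum_congr rfl fun j _ => ?_
  change iteratedFDeriv ℝ 2 (A i j - B i j) y _ = _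
  rw [iteratedFDeriv_sub_apply (contDiff_infty.1 (hA i j) 2).contDiffAt
    (contDiff_infty.1 (hB i j) 2).contDiffAt]
  rfl

lemma decomp (hPF : StmtPF) (hd : 2 ≤ d) {M c0 : ℝ} {b : Sp d → ℝ} (hb : BaseKer 2 M c0 b)
    (n : Sp d) {Y : Fin d → Fin d → Sp d → ℝ} (hY : ∀ i j, ContDiff ℝ ∞ (Y i j))
    {ρ : ℝ} (hs : ∀ i j y, ρ ≤ ‖y‖ → Y i j y = 0) {R : ℝ} (hR : 0 < R) (y : Sp d) :
    qs n Y y - nt b R Y y = nt b R (FF n Y) y + avk b R (qs n Y) y := by
  have hk := hb.kit 0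
  have hq : ContDiff ℝ ∞ (qs n Y) := qs_smooth n hY
  obtain ⟨-, h2, -⟩ := stmtNN hPF d hd M c0 b hb R hR
  have h3 := h2 (qs n Y) hq (cs_of (qs_supp hs)) y
  set Q : Fin d → Fin d → Sp d → ℝ := fun i j z => if i = j then qs n Y z else 0 with hQ
  have hQs : ∀ i j, ContDiff ℝ ∞ (Q i j) := by
    intro i j
    by_cases hij : i = j
    · simp only [hQ, hij, if_true]
      exact hq
    · simp only [hQ, hij, if_false]
      exact contDiff_const
  have h4 : nt b R (FF n Y) y = nt b R Q y - nt b R Y y := by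
    have h5 : FF n Y = fun i j y => Q i j y - Y i j y := rfl
    unfold nt
    rw [h5, dd2_sub hQs hY]
    have hβ : Continuous (Bp b) := hk.smooth1.continuous
    have c1 : Continuous (dd2 Q) := (NN.dd2_smooth hQs).continuous
    have c2 : Continuous (dd2 Y) := (NN.dd2_smooth hY).continuous
    have h6 : NNp b R (fun y => dd2 Q y - dd2 Y y) y = NNp b R (dd2 Q) y - NNp b R (dd2 Y) y := by
      rw [NN.NNp_eq (φ := fun y => dd2 Q y - dd2 Y y) hβ hk.supp1 hR.le (c1.sub c2), NN.NNp_eq hβ hk.supp1 hR.le c1,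
        NN.NNp_eq hβ hk.supp1 hR.le c2, ← integral_sub]
      · refine integral_congr_ae (Eventually.of_forall fun p => ?_)
        simp only
        ring
      · exact NN.int_SS hβ c1 R y
      · exact NN.int_SS hβ c2 R y
    rw [h6]
    ring
  rw [h4, h3]
  ring

/-- the levels -/
def Lvl (b : Sp d → ℝ) (F : Fin d → Fin d → Sp d → ℝ) : ℕ → Sp d → ℝ
  | 0 => nt b 1 F
  | l + 1 => sh b (2 ^ l) (2 ^ (l + 1)) F

lemma Lvl_sum (b : Sp d → ℝ) (F : Fin d → Fin d → Sp d → ℝ) (I : ℕ) (y : Sp d) :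
    ∑ l ∈ Finset.range (I + 1), Lvl b F l y = nt b (2 ^ I) F y := by
  induction I with
  | zero => simp [Lvl]
  | succ I ih =>
    rw [Finset.sum_range_succ, ih]
    simp only [Lvl, sh]
    ring

lemma Lvl_smooth {M c0 : ℝ} {b : Sp d → ℝ} (hb : BaseKer 2 M c0 b)
    {F : Fin d → Fin d → Sp d → ℝ} (hF : ∀ i j, ContDiff ℝ ∞ (F i j)) (l : ℕ) :
    ContDiff ℝ ∞ (Lvl b F l) := by
  cases l with
  | zero => exact nt_smooth hb zero_le_one hF
  | succ l => exact sh_smooth hb (by positivity) (by positivity) hF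

lemma Lvl_supp (hd : 1 ≤ d) {M c0 : ℝ} {b : Sp d → ℝ} (hb : BaseKer 2 M c0 b)
    {F : Fin d → Fin d → Sp d → ℝ} (hsupp : ∀ i j y, (d : ℝ) + 1 ≤ ‖y‖ → F i j y = 0) (l : ℕ)
    (y : Sp d) (hy : (d : ℝ) + 1 + 2 ^ l ≤ ‖y‖) : Lvl b F l y = 0 := by
  cases l with
  | zero =>
    refine nt_supp hb zero_le_one hsupp ?_
    simp only [pow_zero] at hy
    linarith
  | succ l =>
    have hp : (0 : ℝ) < 2 ^ (l + 1) := by positivity
    refine sh_supp hb (by positivity) (pow_le_pow_right₀ (by norm_num) (by omega)) hsupp ?_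
    linarith

/-- bounds of the levels -/
lemma Lvl_bd (hd : 1 ≤ d) {M c0 : ℝ} {b : Sp d → ℝ} (hb : BaseKer 2 M c0 b) {J : ℕ} {B : ℝ}
    (hβ : SMm.BF (J + 4) B (Bp b)) {F : Fin d → Fin d → Sp d → ℝ}
    (hF : ∀ i j, ContDiff ℝ ∞ (F i j)) {N : ℝ} (hN0 : 0 ≤ N)
    (hN : ∀ k ≤ J + 4, ∀ i j y, ‖iteratedFDeriv ℝ k (F i j) y‖ ≤ N)
    (hsupp : ∀ i j y, (d : ℝ) + 1 ≤ ‖y‖ → F i j y = 0) (l : ℕ) :
    ∀ k ≤ J + 2, ∀ y, ‖iteratedFDeriv ℝ k (Lvl b F l) y‖ ≤
      ((2 ^ (J + 2 + d) * (B * volume.real (closedBall (0 : Sp d) (d + 1))) + 1) * d ^ 2 * N) *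
        (1 / 2 ^ l) ^ (k + d) := by
  intro k hk y
  have hB0 : 0 ≤ B := hβ.nonneg
  set v : ℝ := volume.real (closedBall (0 : Sp d) (d + 1)) with hv
  have hv0 : 0 ≤ v := measureReal_nonneg
  cases l with
  | zero =>
    have h1 := nt_bd hb zero_le_one hF (k := k) (N := N) (fun i j x => hN (k + 2) (by omega) i j x) y
    have h2 : Lvl b F 0 = nt b 1 F := rfl
    rw [h2]
    refine h1.trans ?_
    simp only [pow_zero, div_one, one_pow, mul_one, one_mul]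
    have h3 : 0 ≤ 2 ^ (J + 2 + d) * (B * v) * (d ^ 2 * N) := by positivity
    nlinarith
  | succ l =>
    have hN' : ∀ i j y, |F i j y| ≤ N := by
      intro i j y
      have := hN 0 (by omega) i j y
      rwa [norm_iteratedFDeriv_zero, Real.norm_eq_abs] at this
    have h1 := sh_bd hb (k := k) (hβ.smooth.of_le (by exact_mod_cast (by omega : k + 2 ≤ J + 4)))
      (hβ.bd (k + 2) (by omega)) hF hN0 hN' hsupp (r := 2 ^ l) (s := 2 ^ (l + 1)) (by positivity)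
      (pow_le_pow_right₀ (by norm_num) (by omega)) (by rw [pow_succ]; linarith) y
    have h2 : Lvl b F (l + 1) = sh b (2 ^ l) (2 ^ (l + 1)) F := rfl
    rw [h2]
    refine h1.trans ?_
    have h3 : (1 / (2 : ℝ) ^ l) ^ (k + d) = 2 ^ (k + d) * (1 / 2 ^ (l + 1)) ^ (k + d) := by
      rw [← mul_pow]
      congr 1
      rw [pow_succ]
      field_simp
    have h4 : (2 : ℝ) ^ (k + d) ≤ 2 ^ (J + 2 + d) := pow_le_pow_right₀ (by norm_num) (by omega)
    rw [h3]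
    calc 2 ^ (k + d) * (1 / 2 ^ (l + 1)) ^ (k + d) * (d ^ 2 * (B * (v * N))) ≤
        2 ^ (J + 2 + d) * (1 / 2 ^ (l + 1)) ^ (k + d) * (d ^ 2 * (B * (v * N))) := by (clear * - h4 hd hB0 hN0; gcongr)
      _ = ((2 ^ (J + 2 + d) * (B * v)) * d ^ 2 * N) * (1 / 2 ^ (l + 1)) ^ (k + d) := by ring
      _ ≤ _ := by
          refine mul_le_mul_of_nonneg_right ?_ (by positivity)
          refine mul_le_mul_of_nonneg_right ?_ hN0
          refine mul_le_mul_of_nonneg_right ?_ (by positivity)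
          linarith

/-- plane integrals of the levels -/
lemma Lvl_plane (hPF : StmtPF) (hd : 2 ≤ d) {M c0 : ℝ} {b : Sp d → ℝ} (hb : BaseKer 2 M c0 b) :
    ∃ C : ℝ, 0 < C ∧ ∀ (Y : Fin d → Fin d → Sp d → ℝ) (N : ℝ), (∀ i j, ContDiff ℝ ∞ (Y i j)) →
      (∀ i j y, |Y i j y| ≤ N) → (∀ i j y, (d : ℝ) + 1 ≤ ‖y‖ → Y i j y = 0) →
      ∀ n ν : Sp d, ‖n‖ = 1 → ‖ν‖ = 1 → ∀ (l : ℕ), (l = 0 → ν = n) → ∀ c : ℝ,
      |plInt ν c (Lvl b (FF n Y) l)| ≤ C * N * ‖ν - n‖ * (1 / 2) ^ l := by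
  obtain ⟨C, hC, hpb⟩ := plane_bound hPF (by omega) hb ((d : ℝ) + 1) (by positivity)
  refine ⟨6 * d ^ 2 * C + 1, by positivity, fun Y N hY hN hs n ν hn hν l hl c => ?_⟩
  have hd' : 0 < d := by omega
  have hN0 : 0 ≤ N := (abs_nonneg _).trans (hN ⟨0, hd'⟩ ⟨0, hd'⟩ 0)
  have hFs := FF_smooth n hY
  have hFc : ∀ i j, HasCompactSupport (FF n Y i j) := fun i j =>
    cs_of (fun y hy => FF_supp hs i j y hy)
  have hpl : ∀ R : ℝ, 0 < R → plInt ν c (nt b R (FF n Y)) = plInt ν c (qs ν (FF n Y)) -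
      ∫ x, b x * plInt ν (c + R * ⟪ν, x⟫_ℝ) (qs ν (FF n Y)) := by
    intro R hR
    obtain ⟨-, -, h3⟩ := stmtNN hPF d hd M c0 b hb R hR
    exact (h3 (FF n Y) hFs hFc).2.2 ν c hν
  have hbd : ∀ R : ℝ, 0 < R → |∫ x, b x * plInt ν (c + R * ⟪ν, x⟫_ℝ) (qs ν (FF n Y))| ≤
      C * (2 * d ^ 2 * N * ‖ν - n‖) / R := by
    intro R hR
    refine hpb ν hν _ _ (qs_smooth ν hFs).continuous (qs_FF_bd hn hν hN) (fun y hy => ?_) c R hR
    exact qs_supp (fun i j y hy => FF_supp hs i j y hy) y hy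
  cases l with
  | zero =>
    have h1 : ν = n := hl rfl
    have h2 : Lvl b (FF n Y) 0 = nt b 1 (FF n Y) := rfl
    rw [h2, hpl 1 one_pos, h1, qs_FF_self hn]
    simp [plInt]
  | succ l =>
    have h2 : plInt ν c (Lvl b (FF n Y) (l + 1)) =
        plInt ν c (nt b (2 ^ (l + 1)) (FF n Y)) - plInt ν c (nt b (2 ^ l) (FF n Y)) := by
      have h3 : ∀ R : ℝ, 0 < R → Integrable (fun y : (Submodule.span ℝ {ν})ᗮ =>
          nt b R (FF n Y) (c • ν + (y : Sp d))) := fun R hR =>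
        NN.pl_int (nt_smooth hb hR.le hFs).continuous
          (cs_of (ρ := d + 1 + R / 2 + 1) fun y hy => nt_supp hb hR.le
            (fun i j y hy => FF_supp hs i j y hy) (by linarith))
      have h4 : Lvl b (FF n Y) (l + 1) = fun y =>
        nt b (2 ^ (l + 1)) (FF n Y) y - nt b (2 ^ l) (FF n Y) y := rfl
      rw [h4]
      exact integral_sub (h3 _ (by positivity)) (h3 _ (by positivity))
    rw [h2, hpl _ (by positivity), hpl _ (by positivity)]
    have h5 := hbd (2 ^ (l + 1)) (by positivity)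
    have h6 := hbd (2 ^ l) (by positivity)
    have h7 : (1 / 2 : ℝ) ^ (l + 1) = 1 / 2 ^ (l + 1) := by rw [div_pow, one_pow]
    have h8 : (1 : ℝ) / 2 ^ l = 2 * (1 / 2 ^ (l + 1)) := by
      rw [pow_succ]
      field_simp
    set q := C * (2 * d ^ 2 * N * ‖ν - n‖) with hq
    have hq0 : 0 ≤ q := by (clear * - hC hd hN0; positivity)
    set w : ℝ := 1 / 2 ^ (l + 1) with hw
    have hw0 : 0 ≤ w := by positivity
    have h5' : q / 2 ^ (l + 1) = q * w := by rw [hw]; ring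
    have h6' : q / 2 ^ l = q * (2 * w) := by
      rw [hw, ← h8]
      ring
    rw [h5'] at h5
    rw [h6'] at h6
    rw [h7]
    set P := plInt ν c (qs ν (FF n Y))
    set I1 := ∫ x, b x * plInt ν (c + 2 ^ (l + 1) * ⟪ν, x⟫_ℝ) (qs ν (FF n Y))
    set I2 := ∫ x, b x * plInt ν (c + 2 ^ l * ⟪ν, x⟫_ℝ) (qs ν (FF n Y))
    have h9 : |P - I1 - (P - I2)| ≤ |I1| + |I2| := by
      have : P - I1 - (P - I2) = -I1 + I2 := by ring
      rw [this]
      refine (abs_add_le _ _).trans ?_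
      rw [abs_neg]
    refine h9.trans ((add_le_add h5 h6).trans ?_)
    have h10 : q * w + q * (2 * w) = 6 * d ^ 2 * C * N * ‖ν - n‖ * w := by
      rw [hq]
      ring
    rw [h10]
    have h11 : 0 ≤ N * ‖ν - n‖ * w := by positivity
    linarith only [h11]

/-! ## assembly -/

lemma half_sum (n : ℕ) : ∑ j ∈ Finset.range n, (1 / 2 : ℝ) ^ j ≤ 2 := by
  have h1 : ∑ j ∈ Finset.range n, (1 / 2 : ℝ) ^ j = 2 - 2 * (1 / 2) ^ n := by
    induction n with
    | zero => simp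
    | succ n ih =>
      rw [Finset.sum_range_succ, ih, pow_succ]
      ring
  rw [h1]
  have : (0 : ℝ) ≤ (1 / 2) ^ n := by positivity
  linarith

/-- the estimate for smooth matrix fields -/
theorem smooth_case (hPF : StmtPF) (d J : ℕ) (hd : 2 ≤ d) (Mb cb K γ R0 : ℝ) (b : Sp d → ℝ)
    (hb : BaseKer (J + 10) Mb cb b) (hK : 0 < K) (hγ0 : 0 < γ) (hγ : γ ≤ 1 / (8 * d))
    (hR0 : 6 * d + 20 ≤ R0) : ∃ C : ℝ, 0 < C ∧
    ∀ (I : ℕ) (R : ℝ), 2 ^ I ≤ R →
    ∀ (m : Sp d → ℝ) (a D : ℝ) (x : ℕ → Sp d) (n : ℕ → Sp d) (s ab ep : ℕ → ℝ),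
      Continuous m → 0 ≤ a → 0 ≤ D → MG K γ (2 * R + d) a D m →
      (∀ l ≤ I, ‖x l‖ ≤ d * 2 ^ l ∧
        Sheet J R0 (ab l) (ep l) D (fun y => 2 ^ l * m (x l + (2 : ℝ) ^ l • y)) (n l) (s l)) →
    ∀ (Y : Fin d → Fin d → Sp d → ℝ) (N : ℝ), (∀ i j, ContDiff ℝ ∞ (Y i j)) →
      (∀ i j, TFn (J + 6) N (Y i j)) →
      (∀ i j y, (d : ℝ) + 1 ≤ ‖y‖ → Y i j y = 0) →
      |∫ y, m y * ((∑ i, ∑ j, n 0 i * n 0 j * Y i j y) - nt b R Y y)| ≤
        C * N * ∑ l ∈ Finset.range (I + 1), (1 / 2 : ℝ) ^ l *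
            (ab l * ‖n l - n 0‖ + ep l
              + blc (n l) (s l) (fun y => 2 ^ l * m (x l + (2 : ℝ) ^ l • y)) (4 * d + 8))
          + C * N * K * (2 : ℝ) ^ (-(I : ℝ) * (1 - γ)) * a + 5 * C * N * D := by
  have hb2 : BaseKer 2 Mb cb b := hb.mono_order (by omega)
  have hd1 : 1 ≤ d := by omega
  have hdr : (2 : ℝ) ≤ d := by exact_mod_cast hd
  have hγ8 : γ ≤ 1 / 8 := by
    refine hγ.trans (one_div_le_one_div_of_le (by norm_num) ?_)
    linarith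
  have hb1 : ∀ x, 1 ≤ ‖x‖ → b x = 0 := fun x hx => hb.supp x (by linarith)
  obtain ⟨B, hB0, hβ⟩ := SMm.BF.of_compact (J := J + 10) (hb.kit 0).smooth1
    (NN.kernel_cs (hb.kit 0).supp1)
  obtain ⟨B', hB0', hbb⟩ := SMm.BF.of_compact (J := J + 10) hb.smooth (NN.kernel_cs hb1)
  obtain ⟨CP, hCP, hpl⟩ := Lvl_plane hPF hd hb2
  set v : ℝ := volume.real (closedBall (0 : Sp d) (d + 1)) with hv
  have hv0 : 0 ≤ v := measureReal_nonneg
  -- constants
  set A1 : ℝ := (2 ^ (J + 2 + d) * (B * v) + 1) * d ^ 2 * (2 * d ^ 2) with hA1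
  set A2 : ℝ := d ^ 2 * (B * (v * (2 * d ^ 2))) * (d + 3) ^ d * 4 with hA2
  set A3 : ℝ := B' * (v * d ^ 2) * (d + 2) ^ d with hA3
  have hA10 : 0 ≤ A1 := by positivity
  have hA20 : 0 ≤ A2 := by positivity
  have hA30 : 0 ≤ A3 := by positivity
  refine ⟨A1 + CP + A2 + A3, by (clear * - hB0 hd hCP hB0'; positivity), ?_⟩
  intro I R hIR m a D x n s ab ep hm ha hD hMG hS Y N hY hTY hsY
  have hN0 : 0 ≤ N := (norm_nonneg _).trans ((hTY ⟨0, by omega⟩ ⟨0, by omega⟩).bd 0 (by omega) 0)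
  have hn0 : ‖n 0‖ = 1 := (hS 0 (by omega)).2.n1
  have hp : (1 : ℝ) ≤ 2 ^ I := one_le_pow₀ (by norm_num)
  have hR : 0 < R := by linarith
  have hYb : ∀ i j y, |Y i j y| ≤ N := by
    intro i j y
    have := (hTY i j).bd 0 (by omega) y
    rwa [norm_iteratedFDeriv_zero, Real.norm_eq_abs] at this
  set F := FF (n 0) Y with hF
  have hFs : ∀ i j, ContDiff ℝ ∞ (F i j) := FF_smooth (n 0) hY
  have hFb : ∀ k ≤ J + 4, ∀ i j y, ‖iteratedFDeriv ℝ k (F i j) y‖ ≤ 2 * d ^ 2 * N := by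
    intro k hk i j y
    exact FF_iter hd1 hn0 hY (fun i j y => (hTY i j).bd k (by omega) y) i j y
  have hFb0 : ∀ i j y, |F i j y| ≤ 2 * d ^ 2 * N := by
    intro i j y
    have := hFb 0 (by omega) i j y
    rwa [norm_iteratedFDeriv_zero, Real.norm_eq_abs] at this
  have hFsupp : ∀ i j y, (d : ℝ) + 1 ≤ ‖y‖ → F i j y = 0 := fun i j y hy => FF_supp hsY i j y hy
  have hqb : ∀ y, |qs (n 0) Y y| ≤ d ^ 2 * N := by
    intro y
    have := qs_iter hn0 hY (k := 0) (fun i j y => (hTY i j).bd 0 (by omega) y) y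
    rwa [norm_iteratedFDeriv_zero, Real.norm_eq_abs] at this
  -- the three parts
  have hdec : ∀ y, m y * ((∑ i, ∑ j, n 0 i * n 0 j * Y i j y) - nt b R Y y) =
      (∑ l ∈ Finset.range (I + 1), m y * Lvl b F l y) + m y * sh b (2 ^ I) R F y +
        m y * avk b R (qs (n 0) Y) y := by
    intro y
    have h1 := decomp hPF hd hb2 (n 0) hY hsY hR y
    have h2 := Lvl_sum b F I y
    have h3 : (∑ i, ∑ j, n 0 i * n 0 j * Y i j y) = qs (n 0) Y y := rfl
    rw [h3, h1, ← Finset.mul_sum, h2]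
    unfold sh
    ring
  have i1 : ∀ l, Integrable (fun y => m y * Lvl b F l y) := fun l =>
    (hm.mul (Lvl_smooth hb2 hFs l).continuous).integrable_of_hasCompactSupport
      (cs_of (fun y hy => Lvl_supp hd1 hb2 hFsupp l y hy)).mul_left
  have i2 : Integrable (fun y => m y * sh b (2 ^ I) R F y) :=
    (hm.mul (sh_smooth hb2 (by positivity) hR.le hFs).continuous).integrable_of_hasCompactSupport
      (sh_cs hb2 (by positivity) hIR hFsupp).mul_left
  have i3 : Integrable (fun y => m y * avk b R (qs (n 0) Y) y) :=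
    (hm.mul (hb2.ak.avk_cont (qs_smooth (n 0) hY).continuous R)).integrable_of_hasCompactSupport
      (cs_of (fun y hy => avk_supp hb2 (qs_supp hsY) hR hy)).mul_left
  have hsplit : ∫ y, m y * ((∑ i, ∑ j, n 0 i * n 0 j * Y i j y) - nt b R Y y) =
      (∑ l ∈ Finset.range (I + 1), ∫ y, m y * Lvl b F l y) + (∫ y, m y * sh b (2 ^ I) R F y) +
        ∫ y, m y * avk b R (qs (n 0) Y) y := by
    have iS : Integrable (fun y => ∑ l ∈ Finset.range (I + 1), m y * Lvl b F l y) :=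
      integrable_finsetSum _ fun l _ => i1 l
    have iA : Integrable (fun y => (∑ l ∈ Finset.range (I + 1), m y * Lvl b F l y) +
        m y * sh b (2 ^ I) R F y) := iS.add i2
    simp only [hdec]
    rw [integral_add iA i3, integral_add iS i2, integral_finsetSum _ fun l _ => i1 l]
  -- levels
  set C : ℝ := A1 + CP + A2 + A3 with hC
  have hC0 : 0 ≤ C := by (clear * - hB0 hd hCP hB0'; positivity)
  have hlev : ∀ l ∈ Finset.range (I + 1), |∫ y, m y * Lvl b F l y| ≤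
      C * N * ((1 / 2 : ℝ) ^ l * (ab l * ‖n l - n 0‖ + ep l
        + blc (n l) (s l) (fun y => 2 ^ l * m (x l + (2 : ℝ) ^ l • y)) (4 * d + 8))) +
      2 * C * N * D * (1 / 2) ^ l := by
    intro l hl
    have hlI : l ≤ I := by
      rw [Finset.mem_range] at hl
      omega
    obtain ⟨hx, hSl⟩ := hS l hlI
    have ht : (1 : ℝ) ≤ 2 ^ l := one_le_pow₀ (by norm_num)
    have h1 := level hd1 ht hx hSl hR0 (Lvl_smooth hb2 hFs l) (A := C * N)
      (P := CP * N * ‖n l - n 0‖ * (1 / 2) ^ l) (by (clear * - hB0 hd hCP hB0' hN0; positivity)) (fun k hk y => ?_)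
      (fun y hy => Lvl_supp hd1 hb2 hFsupp l y hy)
      (fun c => hpl Y N hY hYb hsY (n 0) (n l) hn0 hSl.n1 l (fun h => by rw [h]) c)
    · have h2 : C * N / 2 ^ l = C * N * (1 / 2) ^ l := by
        rw [div_pow, one_pow]
        ring
      rw [h2] at h1
      refine h1.trans ?_
      have h3 : ab l * (CP * N * ‖n l - n 0‖ * (1 / 2) ^ l) ≤
          C * N * ((1 / 2) ^ l * (ab l * ‖n l - n 0‖)) := by
        have h4 : 0 ≤ N * ((1 / 2) ^ l * (ab l * ‖n l - n 0‖)) := by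
          have := hSl.ab0
          (clear * - hN0 this; positivity)
        calc ab l * (CP * N * ‖n l - n 0‖ * (1 / 2) ^ l) =
            CP * (N * ((1 / 2) ^ l * (ab l * ‖n l - n 0‖))) := by ring
          _ ≤ C * (N * ((1 / 2) ^ l * (ab l * ‖n l - n 0‖))) :=
              mul_le_mul_of_nonneg_right (by rw [hC]; linarith only [hA10, hA20, hA30]) h4
          _ = _ := by ring
      have h5 : ∀ bl : ℝ, C * N * (1 / 2) ^ l * (ep l + bl + 2 * D) +
          C * N * ((1 / 2) ^ l * (ab l * ‖n l - n 0‖)) =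
          C * N * ((1 / 2 : ℝ) ^ l * (ab l * ‖n l - n 0‖ + ep l + bl)) +
            2 * C * N * D * (1 / 2) ^ l := by
        intro bl
        ring
      rw [← h5]
      exact add_le_add_right h3 _
    · refine (Lvl_bd hd1 hb2 (J := J) (hβ.le (by omega)) hFs (N := 2 * d ^ 2 * N) (by positivity)
        hFb hFsupp l k hk y).trans ?_
      refine mul_le_mul_of_nonneg_right ?_ (by positivity)
      calc (2 ^ (J + 2 + d) * (B * v) + 1) * d ^ 2 * (2 * d ^ 2 * N) = A1 * N := by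
            rw [hA1]
            ring
        _ ≤ C * N := mul_le_mul_of_nonneg_right (by rw [hC]; linarith) hN0
  have hfar := far_all hd1 hb2 (hβ.le (by omega : 4 ≤ J + 10)) hFs (N := 2 * d ^ 2 * N)
    (by positivity) hFb0 hFsupp hm hMG hK.le ha hD hγ0 hγ8 I hIR
  have havk := far_avk hd1 hb2 (hbb.le (by omega : 2 ≤ J + 10)) (qs_smooth (n 0) hY) hqb
    (qs_supp hsY) hMG hK.le ha hD hγ0 hγ8 I hIR
  set w : ℝ := (2 : ℝ) ^ (-(I : ℝ) * (1 - γ)) with hw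
  have hw0 : 0 ≤ w := by positivity
  have hw1 : w ≤ 1 := by
    refine Real.rpow_le_one_of_one_le_of_nonpos (by norm_num) ?_
    have : (0 : ℝ) ≤ I := Nat.cast_nonneg I
    nlinarith only [hγ8]
  have hfar' : |∫ y, m y * sh b (2 ^ I) R F y| ≤ A2 * N * K * w * a + A2 * N * D := by
    refine hfar.trans ?_
    have h1 : d ^ 2 * (B * (v * (2 * d ^ 2 * N))) * ((d + 3) ^ d * (K * a + D)) * w * 4 =
        A2 * N * K * w * a + A2 * N * D * w := by
      rw [hA2]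
      ring
    rw [h1]
    have h2 : A2 * N * D * w ≤ A2 * N * D * 1 := mul_le_mul_of_nonneg_left hw1 (by (clear * - hd hB0 hN0 hD; positivity))
    linarith
  have havk' : |∫ y, m y * avk b R (qs (n 0) Y) y| ≤ A3 * N * K * w * a + A3 * N * D := by
    refine havk.trans ?_
    have h1 : B' * (v * (d ^ 2 * N)) * ((d + 2) ^ d * (K * a + D)) * w =
        A3 * N * K * w * a + A3 * N * D * w := by
      rw [hA3]
      ring
    rw [h1]
    have h2 : A3 * N * D * w ≤ A3 * N * D * 1 := mul_le_mul_of_nonneg_left hw1 (by (clear * - hB0' hd hN0 hD; positivity))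
    linarith
  have hsum : |∑ l ∈ Finset.range (I + 1), ∫ y, m y * Lvl b F l y| ≤
      C * N * (∑ l ∈ Finset.range (I + 1), (1 / 2 : ℝ) ^ l * (ab l * ‖n l - n 0‖ + ep l
        + blc (n l) (s l) (fun y => 2 ^ l * m (x l + (2 : ℝ) ^ l • y)) (4 * d + 8))) +
      4 * C * N * D := by
    refine (Finset.abs_sum_le_sum_abs _ _).trans ((Finset.sum_le_sum hlev).trans ?_)
    rw [Finset.sum_add_distrib, ← Finset.mul_sum, ← Finset.mul_sum]
    refine add_le_add_right ?_ _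
    have h1 := half_sum (I + 1)
    calc 2 * C * N * D * ∑ i ∈ Finset.range (I + 1), (1 / 2 : ℝ) ^ i ≤ 2 * C * N * D * 2 :=
          mul_le_mul_of_nonneg_left h1 (by (clear * - hB0 hd hCP hB0' hN0 hD; positivity))
      _ = _ := by ring
  rw [hsplit]
  refine (abs_add_le _ _).trans ?_
  refine (add_le_add ((abs_add_le _ _).trans (add_le_add hsum hfar')) havk').trans ?_
  have h1 : A2 * N * K * w * a + A3 * N * K * w * a ≤ C * N * K * w * a := by
    have h2 : 0 ≤ N * K * w * a := by (clear * - hN0 hK ha; positivity)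
    calc A2 * N * K * w * a + A3 * N * K * w * a = (A2 + A3) * (N * K * w * a) := by ring
      _ ≤ C * (N * K * w * a) := mul_le_mul_of_nonneg_right (by rw [hC]; linarith only [hCP, hA10]) h2
      _ = _ := by ring
  have h2 : A2 * N * D + A3 * N * D ≤ C * N * D := by
    have h3 : 0 ≤ N * D := by positivity
    calc A2 * N * D + A3 * N * D = (A2 + A3) * (N * D) := by ring
      _ ≤ C * (N * D) := mul_le_mul_of_nonneg_right (by rw [hC]; linarith only [hCP, hA10]) h3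
      _ = _ := by ring
  linarith only [h1, h2]

end AB

end

end TG


end

section

/-!
# MODULE AB: comparison of the sheet field and the Newton field (helper72, with helper70)
-/

open MeasureTheory Metric Set TrI
open scoped InnerProductSpace ContDiff

namespace TG

/-- MODULE AB -/
theorem stmtAB (hPF : StmtPF) : StmtAB := by
  intro d J hd Mb cb K γ R0 b hb hK hγ0 hγ hR0
  obtain ⟨C, hC, hmain⟩ := AB.smooth_case hPF d J hd Mb cb K γ R0 b hb hK hγ0 hγ hR0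
  refine ⟨C, hC, fun I R hIR => ⟨5 * C, by positivity, ?_⟩⟩
  intro m a D x n s ab ep hm ha hD _ hMG hS Y N hY hsY
  refine le_of_forall_pos_le_add fun η hη => ?_
  have hp : (1 : ℝ) ≤ 2 ^ I := one_le_pow₀ (by norm_num)
  have hR : 0 < R := by linarith
  obtain ⟨Y', h1, h2, h3, h4⟩ := AB.moll d J hd Mb cb b (hb.mono_order (by omega)) m hm Y N hY
    hsY R hR (n 0) η hη
  have h5 := hmain I R hIR m a D x n s ab ep hm ha hD hMG hS Y' N h1 h2 h3
  have h6 := abs_sub_abs_le_abs_sub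
    (∫ y, m y * ((∑ i, ∑ j, n 0 i * n 0 j * Y i j y) - nt b R Y y))
    (∫ y, m y * ((∑ i, ∑ j, n 0 i * n 0 j * Y' i j y) - nt b R Y' y))
  linarith

end TG


end

section

/-!
# MODULE WF: the sum of the values of the cells is finite   (helper7)
-/

open MeasureTheory Metric Set TrI Filter
open scoped InnerProductSpace ContDiff Topology ENNReal

set_option linter.unusedSectionVars false

namespace TG

noncomputable section

namespace WFm

variable {d : ℕ} {E : Type} [NormedAddCommGroup E] [InnerProductSpace ℝ E]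
  [FiniteDimensional ℝ E]

/-! ## localisation of the masses -/

lemma lev_succ' (s0 : ℝ) (i : ℕ) : lev s0 (i + 1) = 2 * lev s0 i := by
  unfold lev
  rw [pow_succ]
  ring

lemma fl_far {M c0 : ℝ} {b : Sp d → ℝ} (hb : BaseKer 2 M c0 b) {ε s0 : ℝ} (hε0 : 0 < ε)
    (hε : ε ≤ 1) (hs : 0 < s0) {f : Sp d → E} {B : ℝ} (hB : ∀ y, B ≤ ‖y‖ → f y = 0) (i : ℕ) :
    ∀ y, B + 2 * lev s0 i ≤ ‖y‖ → fl b ε s0 f i y = 0 := by
  induction i with
  | zero =>
    intro y hy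
    refine hB y ?_
    have := CS2.lev_pos hs 0
    linarith
  | succ i ih =>
    intro y hy
    have hl := CS2.lev_pos hs (i + 1)
    have hl' := CS2.lev_pos hs i
    have h2 := lev_succ' s0 i
    have hz : ∀ z : Sp d, ‖z - y‖ ≤ lev s0 (i + 1) → fl b ε s0 f i z = 0 := by
      intro z hz
      refine ih z ?_
      have h3 : ‖y‖ ≤ ‖z‖ + ‖z - y‖ := by
        have := norm_sub_norm_le y z
        rw [norm_sub_rev] at this
        linarith
      linarith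
    show avk b (ε * lev s0 (i + 1)) (fl b ε s0 f i) y = 0
    unfold avk
    have h1 : (fun z => b z • fl b ε s0 f i (y + (ε * lev s0 (i + 1)) • z)) = fun _ => 0 := by
      funext z
      by_cases h : 1 / 2 ≤ ‖z‖
      · rw [hb.supp z h, zero_smul]
      · push Not at h
        rw [hz, smul_zero]
        rw [add_sub_cancel_left, norm_smul, Real.norm_eq_abs, abs_of_pos (by positivity)]
        nlinarith only [hε, hl, h, mul_pos hε0 hl]
    rw [h1, integral_zero]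

lemma mC_far {M c0 : ℝ} {b : Sp d → ℝ} (hb : BaseKer 2 M c0 b) {ε s0 : ℝ} (hε0 : 0 < ε)
    (hε : ε ≤ 1) (hs : 0 < s0) {f : Sp d → E} {B : ℝ} (hB : ∀ y, B ≤ ‖y‖ → f y = 0) {R : ℝ}
    (Q : Cell d) (hQ : B + (R + 2) * lev s0 Q.1 ≤ ‖xC s0 Q‖) : mC b ε R s0 f Q = 0 := by
  have hl := CS2.lev_pos hs Q.1
  have hle : lev s0 (Q.1 - 1) ≤ lev s0 Q.1 := by
    unfold lev
    refine mul_le_mul_of_nonneg_left ?_ hs.le
    exact pow_le_pow_right₀ (by norm_num) (by omega)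
  unfold mC ma
  have h1 : ∫ y in ball (xC s0 Q) (R * lev s0 Q.1), ‖fl b ε s0 f (Q.1 - 1) y‖ = 0 := by
    rw [setIntegral_congr_fun (g := fun _ => (0 : ℝ)) measurableSet_ball]
    · simp
    · intro y hy
      rw [mem_ball, dist_eq_norm] at hy
      have h3 : ‖xC s0 Q‖ ≤ ‖y‖ + ‖y - xC s0 Q‖ := by
        have := norm_sub_norm_le (xC s0 Q) y
        rw [norm_sub_rev] at this
        linarith
      show ‖fl b ε s0 f (Q.1 - 1) y‖ = 0
      rw [fl_far hb hε0 hε hs hB (Q.1 - 1) y (by linarith), norm_zero]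
  rw [h1, mul_zero]

/-! ## the main contribution -/

open CS2 in
/-- the main contribution of a cell: bound and localisation -/
lemma gam_bd (hd : 2 ≤ d) {M c0 C' : ℝ} (hC' : 0 < C') {X : Prm d} (hX : PrmOK M c0 X) :
    ∃ K : ℝ, 0 ≤ K ∧ ∀ (E : Type) [NormedAddCommGroup E] [InnerProductSpace ℝ E]
      [FiniteDimensional ℝ E] (f : Sp d → E), Continuous f → HasCompactSupport f →
      ∀ μ : Measure (Sp d), Gro C' μ → ∀ s0 : ℝ, 0 < s0 → ∀ (e : Cell d → E) (kd : Cell d → ℕ)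
      (nv : Cell d → Sp d) (Q : Cell d), ‖e Q‖ = 1 → ‖nv Q‖ = 1 →
      |Gam X s0 μ f e kd nv Q| ≤ K * (nw s0 Q * (∫ y, ‖f y‖)) * omC μ s0 Q ∧
      ∀ B : ℝ, (∀ y, B ≤ ‖y‖ → f y = 0) → B + (d + X.RN) * lev s0 Q.1 < ‖xC s0 Q‖ →
        Gam X s0 μ f e kd nv Q = 0 := by
  have hε0 := hX.ε_pos
  have hε : X.ε ≤ 1 := by linarith [hX.ε_le]
  have hA : 0 < X.A := by linarith [hX.A_ge]
  have hR : 0 ≤ X.RN := by linarith [hX.RN_ge]
  have hb : BaseKer 2 M c0 X.b := PTm.base_mono (by omega) hX.ker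
  have G1 := (good1 (M := M) (p0 := X.p0) hd hC' hε0 hε hA).mono (ρ' := d + X.RN) (by linarith)
  have G2 := good2 (M := M) (p0 := X.p0) hd hC' hε0 hε hA hb hR
  have G4 := (good4 (M := M) hd hC' hε0 hε hA).mono (ρ' := d + X.RN) (by linarith)
  have G3 := good_av hb hR (good4 (M := M) hd hC' hε0 hε hA)
  obtain ⟨K1, hK1, G1⟩ := G1
  obtain ⟨K2, hK2, G2⟩ := G2
  obtain ⟨K3, hK3, G3⟩ := G3
  obtain ⟨K4, hK4, G4⟩ := G4
  set K : ℝ := K1 + K2 + K3 + K4 with hK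
  have hK0 : 0 ≤ K := by positivity
  refine ⟨2 * K, by positivity, ?_⟩
  intro E _ _ _ f hf hc μ hμ s0 hs e kd nv Q he hn
  have ht := lev_pos hs Q.1
  have hSC := (stmtSC d hd C' hC' (xC s0 Q) (lev s0 Q.1) ht).1 μ hμ
  have hμQ : Gro C' (muQ s0 μ Q) := hSC.1
  have hvv : vv (muQ s0 μ Q) 1 0 = omC μ s0 Q := by
    have h1 := hSC.2.2.1 1 0 one_pos
    unfold muQ omC
    rw [h1, mul_one, smul_zero, add_zero]
  have hβ : Kit 4 M (bQ X.b Q) := PTm.kit_mono (by omega) (hX.ker.kit (Q.1 - 2))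
  have hv0 : 0 ≤ omC μ s0 Q := Real.sqrt_nonneg _
  have hI0 : 0 ≤ ∫ y, ‖f y‖ := integral_nonneg fun _ => norm_nonneg _
  have hnw : 0 ≤ nw s0 Q := by unfold nw; positivity
  let ix : Ix d M C' := (⟨bQ X.b Q, muQ s0 μ Q, nv Q, hβ, hμQ, hn⟩, 0)
  set T : ℝ := nw s0 Q * (∫ y, ‖f y‖) * (K * omC μ s0 Q) with hT
  have hT0 : 0 ≤ T := by positivity
  set Z : Prop := ∃ B : ℝ, (∀ y, B ≤ ‖y‖ → f y = 0) ∧
    B + (d + X.RN) * lev s0 Q.1 < ‖xC s0 Q‖ with hZ
  have pr : ∀ (ζ : Sp d → ℝ) (K' : ℝ), K' ≤ K →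
      ((∀ y, |ζ y| ≤ K' * vv (muQ s0 μ Q) 1 0) ∧ ∀ y, d + X.RN ≤ ‖y‖ → ζ y = 0) →
      Pz T Z 1 (∫ y, mQ s0 f (e Q) Q y * ζ y) := by
    intro ζ K' hK' hζ
    refine ⟨?_, ?_⟩
    · rw [one_mul]
      refine pair_le hs hf hc he Q fun y => (hζ.1 y).trans ?_
      rw [hvv]
      exact mul_le_mul_of_nonneg_right hK' hv0
    · rintro ⟨B, hB, hx⟩
      exact pair_zero hs (e Q) Q hB hx hζ.2
  have k1 : K1 ≤ K := by rw [hK]; linarith
  have k2 : K2 ≤ K := by rw [hK]; linarith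
  have k3 : K3 ≤ K := by rw [hK]; linarith
  have k4 : K4 ≤ K := by rw [hK]; linarith
  have pG : Pz T Z (1 + 1) (Gam X s0 μ f e kd nv Q) := by
    unfold Gam
    split_ifs with h0 h1
    · exact (pr _ K1 k1 (G1 ix)).mono hT0 (by norm_num)
    · exact (pr _ K2 k2 (G2 ix)).add (pr _ K3 k3 (G3 ix))
    · exact (pr _ K4 k4 (G4 ix)).mono hT0 (by norm_num)
  refine ⟨?_, fun B hB hx => pG.2 ⟨B, hB, hx⟩⟩
  refine pG.1.trans (le_of_eq ?_)
  rw [hT]
  ring

/-! ## the sheet gain -/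

lemma sg_bd (hd : 2 ≤ d) {M c0 C' : ℝ} (hC' : 0 < C') {X : Prm d} (hX : PrmOK M c0 X) :
    ∃ K : ℝ, 0 ≤ K ∧ ∀ μ : Measure (Sp d), Gro C' μ → ∀ s0 : ℝ, 0 < s0 →
      ∀ (Q : Cell d) (n : Sp d) (s : ℝ), ‖n‖ = 1 →
      0 ≤ plInt n s (fun x => chi x * XX (bQ X.b Q) X.ε (muQ s0 μ Q) n 1 x) ∧
      plInt n s (fun x => chi x * XX (bQ X.b Q) X.ε (muQ s0 μ Q) n 1 x) ≤ K * omC μ s0 Q := by
  have hε0 := hX.ε_pos
  have hε : X.ε ≤ 1 := by linarith [hX.ε_le]
  obtain ⟨C1, hC1, h1⟩ := stmtWA stmtTH d 0 hd M C' X.ε hC' hε0 hε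
  obtain ⟨C2, hC2, h2⟩ := SAm.plInt_bound (d := d) (by omega) (d : ℝ)
  refine ⟨C2 * (C1 * (1 + d) ^ d), by positivity, ?_⟩
  intro μ hμ s0 hs Q n s hn
  have ht := CS2.lev_pos hs Q.1
  have hSC := (stmtSC d hd C' hC' (xC s0 Q) (lev s0 Q.1) ht).1 μ hμ
  have hμQ : Gro C' (muQ s0 μ Q) := hSC.1
  have hvv : vv (muQ s0 μ Q) 1 0 = omC μ s0 Q := by
    have h1 := hSC.2.2.1 1 0 one_pos
    unfold muQ omC
    rw [h1, mul_one, smul_zero, add_zero]
  have hv0 : 0 ≤ omC μ s0 Q := Real.sqrt_nonneg _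
  have hβ : Kit (0 + 4) M (bQ X.b Q) := PTm.kit_mono (by omega) (hX.ker.kit (Q.1 - 2))
  obtain ⟨-, -, -, -, h3⟩ := h1 (bQ X.b Q) hβ (muQ s0 μ Q) hμQ
  obtain ⟨-, h4, h5, -⟩ := h3 n hn
  refine ⟨SAm.plInt_nonneg n s fun y => mul_nonneg (PTm.chi_nonneg _) (h4 y), ?_⟩
  have h6 := h2 n hn (fun x => chi x * XX (bQ X.b Q) X.ε (muQ s0 μ Q) n 1 x) s
    (C1 * (1 + d) ^ d * omC μ s0 Q) (by positivity) (fun y _ => ?_) (fun y _ hy => ?_)
  · refine (le_abs_self _).trans (h6.trans (le_of_eq (by ring)))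
  · by_cases hy : (d : ℝ) ≤ ‖y‖
    · rw [PTm.chi_supp hy (by omega), zero_mul, abs_zero]
      positivity
    · push Not at hy
      rw [abs_mul, abs_of_nonneg (PTm.chi_nonneg y), abs_of_nonneg (h4 y)]
      have h7 : XX (bQ X.b Q) X.ε (muQ s0 μ Q) n 1 y ≤ C1 * vv (muQ s0 μ Q) 1 y := by
        have := h5 0 le_rfl y
        rw [norm_iteratedFDeriv_zero, Real.norm_eq_abs, abs_of_nonneg (h4 y)] at this
        exact this
      have h8 := CS2.vv_grow hd hC' hμQ y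
      have h9 : (1 + ‖y‖) ^ d ≤ (1 + (d : ℝ)) ^ d :=
        pow_le_pow_left₀ (by positivity) (by linarith) d
      have h10 : vv (muQ s0 μ Q) 1 y ≤ (1 + (d : ℝ)) ^ d * omC μ s0 Q := by
        rw [← hvv]
        refine h8.trans (mul_le_mul_of_nonneg_right h9 (Real.sqrt_nonneg _))
      have h11 : chi y * XX (bQ X.b Q) X.ε (muQ s0 μ Q) n 1 y ≤
          1 * XX (bQ X.b Q) X.ε (muQ s0 μ Q) n 1 y :=
        mul_le_mul_of_nonneg_right (PTm.chi_le_one y) (h4 y)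
      calc chi y * XX (bQ X.b Q) X.ε (muQ s0 μ Q) n 1 y
          ≤ 1 * XX (bQ X.b Q) X.ε (muQ s0 μ Q) n 1 y := h11
        _ ≤ C1 * vv (muQ s0 μ Q) 1 y := by rw [one_mul]; exact h7
        _ ≤ C1 * ((1 + (d : ℝ)) ^ d * omC μ s0 Q) := mul_le_mul_of_nonneg_left h10 hC1.le
        _ = _ := by ring
  · have hy' : ‖y‖ < d := by
      by_contra hcon
      push Not at hcon
      exact hy (by rw [PTm.chi_supp hcon (by omega), zero_mul])
    exact (PF.norm_tang_le hn y).trans hy'.le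

end WFm

open _root_.TG.WFm in
theorem stmtWF : StmtWF := by
  intro d hd M c0 C' R B hC' hR X hX E _ _ _ W hWX hs hμ hf hc he hn hab hkd
  obtain ⟨K1, hK1, g1⟩ := gam_bd (M := M) (c0 := c0) hd hC' hX
  obtain ⟨K2, hK2, g2⟩ := sg_bd (M := M) (c0 := c0) hd hC' hX
  obtain ⟨B0, hB0, hfB⟩ : ∃ B0 : ℝ, 0 ≤ B0 ∧ ∀ y, B0 ≤ ‖y‖ → W.f y = 0 := by
    obtain ⟨r, hr⟩ := hc.isCompact.isBounded.exists_norm_le
    refine ⟨max r 0 + 1, by positivity, fun y hy => ?_⟩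
    by_contra hne
    have h1 := hr y (subset_tsupport _ hne)
    linarith [le_max_left r 0]
  have hb : BaseKer 2 M c0 X.b := PTm.base_mono (by omega) hX.ker
  have hε0 := hX.ε_pos
  have hε : X.ε ≤ 1 := by linarith [hX.ε_le]
  have hRN : 0 ≤ X.RN := by linarith [hX.RN_ge]
  set I : ℝ := ∫ y, ‖W.f y‖ with hI
  have hI0 : 0 ≤ I := integral_nonneg fun _ => norm_nonneg _
  have hv0 : ∀ Q : Cell d, 0 ≤ omC W.μ W.s0 Q := fun Q => Real.sqrt_nonneg _
  have hnw : ∀ Q : Cell d, 0 ≤ nw W.s0 Q := fun Q => by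
    have := CS2.lev_pos hs Q.1
    unfold nw
    positivity
  -- the gain
  have hsg0 : ∀ Q, 0 ≤ W.sg Q := by
    intro Q
    unfold Wld.sg Wld.be Wld.mu
    rw [hWX]
    exact mul_nonneg (hab Q) (g2 W.μ hμ W.s0 hs Q (W.nv Q) (W.sv Q) (hn Q)).1
  have hsg : ∀ Q, W.kd Q = 0 → W.sg Q ≤
      (B * ((1 + R) ^ (d + 2) * (nw W.s0 Q * I))) * (K2 * omC W.μ W.s0 Q) := by
    intro Q h0
    obtain ⟨h1, h2, h3⟩ := hkd Q h0
    have hB : 0 ≤ B := (abs_nonneg _).trans h3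
    have h4 := CT1.mC_le_mT hb.ak (ε := X.ε) (R := R) (by linarith) hs hf hc Q
    have h5 := CT4.mT_le_nw hb.ak X.ε hs hf hc Q
    have h6 : W.ab Q ≤ B * ((1 + R) ^ (d + 2) * (nw W.s0 Q * I)) := by
      refine h2.trans (mul_le_mul_of_nonneg_left (h4.trans ?_) hB)
      exact mul_le_mul_of_nonneg_left h5 (by positivity)
    have h7 := (g2 W.μ hμ W.s0 hs Q (W.nv Q) (W.sv Q) (hn Q))
    unfold Wld.sg Wld.be Wld.mu
    rw [hWX]
    exact mul_le_mul h6 h7.2 h7.1 ((hab Q).trans h6)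
  have hbl : ∀ Q, W.kd Q = 0 → max 0 (W.bl Q) ≤
      omC W.μ W.s0 Q * (nw W.s0 Q * I * (d + B) ^ 2) := by
    intro Q h0
    obtain ⟨-, -, h3⟩ := hkd Q h0
    have hB : 0 ≤ B := (abs_nonneg _).trans h3
    have h4 : |∫ y, mQ W.s0 W.f (W.e Q) Q y * (chi y * hgt (W.nv Q) (W.sv Q) y ^ 2)| ≤
        nw W.s0 Q * I * (d + B) ^ 2 := by
      refine CS2.pair_le hs hf hc (he Q) Q fun y => ?_
      by_cases hy : (d : ℝ) ≤ ‖y‖
      · rw [PTm.chi_supp hy (by omega), zero_mul, abs_zero]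
        positivity
      · push Not at hy
        have h5 : |hgt (W.nv Q) (W.sv Q) y| ≤ d + B := by
          unfold hgt
          refine (abs_sub _ _).trans ?_
          have h6 : |⟪W.nv Q, y⟫_ℝ| ≤ ‖y‖ := by
            refine (abs_real_inner_le_norm _ _).trans ?_
            rw [hn, one_mul]
          linarith
        rw [abs_mul, abs_of_nonneg (PTm.chi_nonneg y), abs_pow]
        have h7 := PTm.chi_le_one y
        have h8 : |hgt (W.nv Q) (W.sv Q) y| ^ 2 ≤ (d + B) ^ 2 :=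
          pow_le_pow_left₀ (abs_nonneg _) h5 2
        have h9 : 0 ≤ |hgt (W.nv Q) (W.sv Q) y| ^ 2 := by positivity
        nlinarith [PTm.chi_nonneg y]
    refine max_le (mul_nonneg (hv0 Q) (by have := hnw Q; positivity)) ?_
    unfold Wld.bl Wld.v Wld.m
    exact mul_le_mul_of_nonneg_left ((le_abs_self _).trans h4) (hv0 Q)
  have hgam : ∀ Q, max 0 (W.gam Q) ≤ K1 * (nw W.s0 Q * I) * omC W.μ W.s0 Q := by
    intro Q
    have h1 := (g1 E W.f hf hc W.μ hμ W.s0 hs W.e W.kd W.nv Q (he Q) (hn Q)).1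
    refine max_le ?_ ?_
    · exact (abs_nonneg _).trans h1
    · unfold Wld.gam
      rw [hWX]
      exact (le_abs_self _).trans h1
  have hval0 : ∀ Q, 0 ≤ W.val Q := by
    intro Q
    unfold Wld.val
    split_ifs
    · exact add_nonneg (hsg0 Q) (le_max_left _ _)
    · exact le_rfl
    · exact le_max_left _ _
  set B1 : ℝ := |B| * (1 + R) ^ (d + 2) * I * K2 + I * (d + |B|) ^ 2 + K1 * I with hB1
  have hB10 : 0 ≤ B1 := by (clear * - hR hK2 hd hK1; positivity)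
  have hval : ∀ Q, W.val Q ≤ B1 * nw W.s0 Q * omC W.μ W.s0 Q := by
    intro Q
    have p1 := hnw Q
    have p2 := hv0 Q
    have q1 : 0 ≤ |B| * (1 + R) ^ (d + 2) * I * K2 * (nw W.s0 Q * omC W.μ W.s0 Q) := by (clear * - hR hK2 p1 p2; positivity)
    have q2 : 0 ≤ I * (d + |B|) ^ 2 * (nw W.s0 Q * omC W.μ W.s0 Q) := by positivity
    have q3 : 0 ≤ K1 * I * (nw W.s0 Q * omC W.μ W.s0 Q) := by positivity
    have hexp : B1 * nw W.s0 Q * omC W.μ W.s0 Q =
        |B| * (1 + R) ^ (d + 2) * I * K2 * (nw W.s0 Q * omC W.μ W.s0 Q) +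
          I * (d + |B|) ^ 2 * (nw W.s0 Q * omC W.μ W.s0 Q) +
            K1 * I * (nw W.s0 Q * omC W.μ W.s0 Q) := by
      rw [hB1]
      ring
    rw [hexp]
    unfold Wld.val
    split_ifs with h1 h2
    · have hB : 0 ≤ B := (abs_nonneg _).trans (hkd Q h1.2).2.2
      have e1 := hsg Q h1.2
      have e2 := hbl Q h1.2
      have e3 : |B| = B := abs_of_nonneg hB
      have e4 : (B * ((1 + R) ^ (d + 2) * (nw W.s0 Q * I))) * (K2 * omC W.μ W.s0 Q) =
          |B| * (1 + R) ^ (d + 2) * I * K2 * (nw W.s0 Q * omC W.μ W.s0 Q) := by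
        rw [e3]
        ring
      have e5 : omC W.μ W.s0 Q * (nw W.s0 Q * I * (d + B) ^ 2) =
          I * (d + |B|) ^ 2 * (nw W.s0 Q * omC W.μ W.s0 Q) := by
        rw [e3]
        ring
      rw [e4] at e1
      rw [e5] at e2
      linarith
    · linarith
    · have e1 := hgam Q
      have e2 : K1 * (nw W.s0 Q * I) * omC W.μ W.s0 Q =
          K1 * I * (nw W.s0 Q * omC W.μ W.s0 Q) := by ring
      rw [e2] at e1
      linarith
  have hloc : ∀ Q, W.val Q ≠ 0 → ‖xC W.s0 Q‖ ≤ (B0 + (R + 2) + (d + X.RN)) * (1 + lev W.s0 Q.1) := by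
    intro Q hQ
    have hl := CS2.lev_pos hs Q.1
    have hd0 : (0 : ℝ) ≤ d := Nat.cast_nonneg d
    have e1 : 0 ≤ B0 * lev W.s0 Q.1 := by positivity
    have e2 : 0 ≤ (d + X.RN) * lev W.s0 Q.1 := by positivity
    have e3 : 0 ≤ (R + 2) * lev W.s0 Q.1 := by positivity
    by_contra hcon
    push Not at hcon
    have hgz : W.gam Q = 0 := by
      unfold Wld.gam
      rw [hWX]
      refine (g1 E W.f hf hc W.μ hμ W.s0 hs W.e W.kd W.nv Q (he Q) (hn Q)).2 B0 hfB ?_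
      linarith
    refine hQ ?_
    unfold Wld.val
    split_ifs with h1 h2
    · exfalso
      have h2 := (hkd Q h1.2).1
      rw [mC_far hb hε0 hε hs hfB Q (by linarith)] at h2
      exact lt_irrefl _ h2
    · rfl
    · rw [hgz, max_self]
  have h6 := (stmtCT6 d hd C' 1 hC' le_rfl W.μ hμ W.s0 hs
    (fun Q => W.val Q / omC W.μ W.s0 Q) B1 (B0 + (R + 2) + (d + X.RN)) hB10 (by positivity)
    (fun Q => div_nonneg (hval0 Q) (hv0 Q)) (fun Q => ?_) (fun Q hQ => ?_)).2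
  · refine lt_of_le_of_lt (le_of_eq ?_) h6
    unfold cs
    refine tsum_congr fun Q => ?_
    congr 1
    funext Q'
    show ENNReal.ofReal (cw W.s0 Q' * W.val Q') =
      ENNReal.ofReal (cw W.s0 Q' * (W.val Q' / omC W.μ W.s0 Q') * omC W.μ W.s0 Q')
    rcases (hv0 Q').eq_or_lt with h0 | h0
    · have h1 : W.val Q' = 0 := le_antisymm (by
        have := hval Q'
        rw [← h0, mul_zero] at this
        exact this) (hval0 Q')
      rw [h1]
      simp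
    · rw [mul_assoc, div_mul_cancel₀ _ h0.ne']
  · rcases (hv0 Q).eq_or_lt with h0 | h0
    · show W.val Q / omC W.μ W.s0 Q ≤ _
      rw [← h0, div_zero]
      exact mul_nonneg hB10 (hnw Q)
    · show W.val Q / omC W.μ W.s0 Q ≤ _
      rw [div_le_iff₀ h0]
      exact hval Q
  · refine hloc Q fun h0 => hQ ?_
    show W.val Q / omC W.μ W.s0 Q = 0
    rw [h0, zero_div]

end

end TG


end
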