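import Mathlib
import Pool.Agent.TRM.C01

/-! Parts: TG.GI1, TG.GI2, TG.GI3, TG.GI, TG.TT1 -/

section

/-!
# Trace inequality, general operators: module GI, part 1 (calculus on space time)
-/

open MeasureTheory Metric Set TrI
open scoped InnerProductSpace ContDiff

namespace TG

noncomputable section

variable {d : ℕ}

section Gen

variable {G : Type*} [NormedAddCommGroup G] [NormedSpace ℝ G]

/-- directional derivative on space time -/
def giD (a : ℝ × Sp d) (F : ℝ × Sp d → G) : ℝ × Sp d → G := fun p => fderiv ℝ F p a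

lemma giD_smooth (a : ℝ × Sp d) {F : ℝ × Sp d → G} (hF : ContDiff ℝ ∞ F) :
    ContDiff ℝ ∞ (giD a F) :=
  (hF.fderiv_right (m := ∞) (by simp)).clm_apply contDiff_const

lemma giD_comm (a b : ℝ × Sp d) {F : ℝ × Sp d → G} (hF : ContDiff ℝ ∞ F) :
    giD a (giD b F) = giD b (giD a F) := by
  funext p
  have h1 : DifferentiableAt ℝ (fderiv ℝ F) p :=
    ((hF.fderiv_right (m := ∞) (by simp)).differentiable (by simp)).differentiableAt
  have h2 : ∀ c : ℝ × Sp d, giD a (giD b F) p = fderiv ℝ (fderiv ℝ F) p a b := by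
    intro c
    show fderiv ℝ (fun q => fderiv ℝ F q b) p a = _
    rw [fderiv_clm_apply h1 (differentiableAt_const b)]
    simp
  have h3 : giD b (giD a F) p = fderiv ℝ (fderiv ℝ F) p b a := by
    show fderiv ℝ (fun q => fderiv ℝ F q a) p b = _
    rw [fderiv_clm_apply h1 (differentiableAt_const a)]
    simp
  rw [h2 0, h3]
  have hs : IsSymmSndFDerivAt ℝ F p := by
    apply ContDiffAt.isSymmSndFDerivAt (n := 2) (hF.contDiffAt.of_le
      (WithTop.coe_le_coe.2 le_top))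
    simp
  exact hs a b

lemma gi_it2 {E : Type*} [NormedAddCommGroup E] [NormedSpace ℝ E] {F : E → G} {p : E}
    (h1 : DifferentiableAt ℝ (fderiv ℝ F) p) (a : E) :
    iteratedFDeriv ℝ 2 F p (fun _ => a) = fderiv ℝ (fun q => fderiv ℝ F q a) p a := by
  rw [iteratedFDeriv_two_apply, fderiv_clm_apply h1 (differentiableAt_const a)]
  simp

lemma giD_it2 (a : ℝ × Sp d) {F : ℝ × Sp d → G} (hF : ContDiff ℝ ∞ F) (p : ℝ × Sp d) :
    iteratedFDeriv ℝ 2 F p (fun _ => a) = giD a (giD a F) p := by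
  rw [gi_it2]
  · rfl
  · exact ((hF.fderiv_right (m := ∞) (by simp)).differentiable (by simp)).differentiableAt

lemma gi_slice (t : ℝ) (h : Sp d) {F : ℝ × Sp d → G} (hF : ContDiff ℝ ∞ F) (x : Sp d) :
    fderiv ℝ (fun x => F (t, x)) x h = giD (0, h) F (t, x) := by
  have h1 : HasFDerivAt (fun x : Sp d => (t, x)) (ContinuousLinearMap.inr ℝ ℝ (Sp d)) x :=
    hasFDerivAt_prodMk_right t x
  have h2 : HasFDerivAt F (fderiv ℝ F (t, x)) (t, x) :=
    ((hF.differentiable (by simp)) (t, x)).hasFDerivAt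
  have := (h2.comp x h1).fderiv
  rw [show (fun x => F (t, x)) = F ∘ (fun x : Sp d => (t, x)) from rfl, this]
  simp [giD]

lemma gi_slice2 (t : ℝ) (h : Sp d) {F : ℝ × Sp d → G} (hF : ContDiff ℝ ∞ F) (x : Sp d) :
    iteratedFDeriv ℝ 2 (fun x => F (t, x)) x (fun _ => h) = giD (0, h) (giD (0, h) F) (t, x) := by
  have h0 : ContDiff ℝ ∞ (fun x : Sp d => F (t, x)) :=
    hF.comp (contDiff_const.prodMk contDiff_id)
  rw [gi_it2 ((h0.fderiv_right (m := ∞) (by simp)).differentiable (by simp)).differentiableAt]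
  have : (fun q => fderiv ℝ (fun x => F (t, x)) q h) = fun q => giD (0, h) F (t, q) := by
    funext q
    exact gi_slice t h hF q
  rw [this, gi_slice t h (giD_smooth _ hF)]

end Gen

/-- Laplacian in the space variables -/
def giL (F : ℝ × Sp d → ℝ) : ℝ × Sp d → ℝ := fun p =>
  ∑ j : Fin d, giD (0, EuclideanSpace.single j (1 : ℝ)) (giD (0, EuclideanSpace.single j (1 : ℝ)) F) p

/-- second derivative in direction n -/
def giN (n : Sp d) (F : ℝ × Sp d → ℝ) : ℝ × Sp d → ℝ := giD (0, n) (giD (0, n) F)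

/-- time derivative -/
def giT (F : ℝ × Sp d → ℝ) : ℝ × Sp d → ℝ := giD (1, 0) F

lemma giL_smooth {F : ℝ × Sp d → ℝ} (hF : ContDiff ℝ ∞ F) : ContDiff ℝ ∞ (giL F) := by
  unfold giL
  exact ContDiff.sum fun j _ => giD_smooth _ (giD_smooth _ hF)

lemma giN_smooth (n : Sp d) {F : ℝ × Sp d → ℝ} (hF : ContDiff ℝ ∞ F) :
    ContDiff ℝ ∞ (giN n F) := giD_smooth _ (giD_smooth _ hF)

lemma giT_smooth {F : ℝ × Sp d → ℝ} (hF : ContDiff ℝ ∞ F) : ContDiff ℝ ∞ (giT F) :=
  giD_smooth _ hF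

lemma lap_slice (t : ℝ) {F : ℝ × Sp d → ℝ} (hF : ContDiff ℝ ∞ F) (x : Sp d) :
    lap (fun x => F (t, x)) x = giL F (t, x) := by
  unfold lap giL
  exact Finset.sum_congr rfl fun j _ => gi_slice2 t _ hF x

lemma d2_slice (n : Sp d) (t : ℝ) {F : ℝ × Sp d → ℝ} (hF : ContDiff ℝ ∞ F) (x : Sp d) :
    d2 n (fun x => F (t, x)) x = giN n F (t, x) := gi_slice2 t _ hF x

/-! ### parametric integrals -/

section Par

variable {G : Type*} [NormedAddCommGroup G] [NormedSpace ℝ G]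

lemma gi_param {S : Set (ℝ × Sp d)} (hS : IsCompact S) {K : ℝ × Sp d → ℝ} (hK : Continuous K)
    {Ψ : ℝ × Sp d → ℝ × Sp d} (hΨ : Continuous Ψ) {F : ℝ × Sp d → G} (hF : ContDiff ℝ 1 F)
    (y0 : Sp d) :
    HasFDerivAt (fun y => ∫ x in S, K x • F (Ψ x + (0, y)))
      (∫ x in S, K x • (fderiv ℝ F (Ψ x + (0, y0))).comp (ContinuousLinearMap.inr ℝ ℝ (Sp d)))
      y0 := by
  have hdF : Continuous (fderiv ℝ F) := hF.continuous_fderiv (by simp)
  have hc1 : Continuous fun q : Sp d × (ℝ × Sp d) => K q.2 • F (Ψ q.2 + (0, q.1)) := by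
    have := hF.continuous
    fun_prop
  have hc2 : Continuous fun q : Sp d × (ℝ × Sp d) =>
      K q.2 • (fderiv ℝ F (Ψ q.2 + (0, q.1))).comp (ContinuousLinearMap.inr ℝ ℝ (Sp d)) := by
    exact (hK.comp continuous_snd).smul
      (Continuous.clm_comp (hdF.comp (by fun_prop)) continuous_const)
  have hcomp : IsCompact (closedBall y0 1 ×ˢ S) := (isCompact_closedBall y0 1).prod hS
  obtain ⟨C, hC⟩ := hcomp.exists_bound_of_continuousOn hc2.continuousOn
  have hfin : IsFiniteMeasure ((volume : Measure (ℝ × Sp d)).restrict S) :=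
    ⟨by simpa using hS.measure_lt_top⟩
  refine hasFDerivAt_integral_of_dominated_of_fderiv_le (bound := fun _ => C)
    (F' := fun y x => K x • (fderiv ℝ F (Ψ x + (0, y))).comp (ContinuousLinearMap.inr ℝ ℝ (Sp d)))
    (ball_mem_nhds y0 one_pos) ?_ ?_ ?_ ?_ ?_ ?_
  · refine Filter.Eventually.of_forall fun y => ?_
    exact (hc1.comp (continuous_const.prodMk continuous_id : Continuous fun x => (y, x))).aestronglyMeasurable
  · exact (hc1.comp (continuous_const.prodMk continuous_id :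
      Continuous fun x => (y0, x))).continuousOn.integrableOn_compact hS
  · exact (hc2.comp (continuous_const.prodMk continuous_id : Continuous fun x => (y0, x))).aestronglyMeasurable
  · rw [ae_restrict_iff' hS.measurableSet]
    refine Filter.Eventually.of_forall fun x hx y hy => ?_
    exact hC (y, x) ⟨ball_subset_closedBall hy, hx⟩
  · exact integrable_const C
  · refine Filter.Eventually.of_forall fun x y _ => ?_
    have h1 : HasFDerivAt (fun y : Sp d => Ψ x + (0, y)) (ContinuousLinearMap.inr ℝ ℝ (Sp d)) y := by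
      exact (hasFDerivAt_prodMk_right (0 : ℝ) y).const_add (Ψ x)
    have h2 : HasFDerivAt F (fderiv ℝ F (Ψ x + (0, y))) (Ψ x + (0, y)) :=
      (hF.differentiable (by simp) _).hasFDerivAt
    exact (h2.comp y h1).const_smul (K x)

end Par

/-- functions with two derivatives and known second directional derivatives -/
def GiGood (g : Sp d → ℝ) (D : Sp d → Sp d → ℝ) : Prop :=
  Differentiable ℝ g ∧ Differentiable ℝ (fderiv ℝ g) ∧
    ∀ h y, iteratedFDeriv ℝ 2 g y (fun _ => h) = D h y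

lemma GiGood.add {g1 g2 : Sp d → ℝ} {D1 D2 : Sp d → Sp d → ℝ} (h1 : GiGood g1 D1)
    (h2 : GiGood g2 D2) : GiGood (fun y => g1 y + g2 y) (fun h y => D1 h y + D2 h y) := by
  obtain ⟨a1, b1, c1⟩ := h1
  obtain ⟨a2, b2, c2⟩ := h2
  have hf : fderiv ℝ (fun y => g1 y + g2 y) = fun y => fderiv ℝ g1 y + fderiv ℝ g2 y := by
    funext y
    exact fderiv_fun_add (a1 y) (a2 y)
  refine ⟨a1.add a2, ?_, ?_⟩
  · rw [hf]; exact b1.add b2
  · intro h y
    show _ = D1 h y + D2 h y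
    rw [← c1, ← c2, iteratedFDeriv_two_apply, iteratedFDeriv_two_apply, iteratedFDeriv_two_apply,
      hf, fderiv_fun_add (b1 y) (b2 y)]
    simp

section Par2

variable {S : Set (ℝ × Sp d)} {K : ℝ × Sp d → ℝ} {Ψ : ℝ × Sp d → ℝ × Sp d} {F : ℝ × Sp d → ℝ}

lemma giI_hasFDerivAt (hS : IsCompact S) (hK : Continuous K) (hΨ : Continuous Ψ)
    (hF : ContDiff ℝ ∞ F) (y : Sp d) :
    HasFDerivAt (fun y => ∫ x in S, K x * F (Ψ x + (0, y)))
      (∫ x in S, K x • (fderiv ℝ F (Ψ x + (0, y))).comp (ContinuousLinearMap.inr ℝ ℝ (Sp d)))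
      y := by
  have := gi_param hS hK hΨ (F := F) (hF.of_le (WithTop.coe_le_coe.2 le_top)) y
  simpa only [smul_eq_mul] using this

lemma giI_int (hS : IsCompact S) (hK : Continuous K) (hΨ : Continuous Ψ)
    (hF : ContDiff ℝ ∞ F) (y : Sp d) :
    Integrable (fun x => K x • (fderiv ℝ F (Ψ x + (0, y))).comp
      (ContinuousLinearMap.inr ℝ ℝ (Sp d))) (volume.restrict S) := by
  have hdF : Continuous (fderiv ℝ F) := hF.continuous_fderiv (by simp)
  have : Continuous fun x => K x • (fderiv ℝ F (Ψ x + (0, y))).comp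
      (ContinuousLinearMap.inr ℝ ℝ (Sp d)) :=
    hK.smul (Continuous.clm_comp (hdF.comp (by fun_prop)) continuous_const)
  exact this.continuousOn.integrableOn_compact hS

lemma giI_fderiv (hS : IsCompact S) (hK : Continuous K) (hΨ : Continuous Ψ)
    (hF : ContDiff ℝ ∞ F) (y h : Sp d) :
    fderiv ℝ (fun y => ∫ x in S, K x * F (Ψ x + (0, y))) y h =
      ∫ x in S, K x * giD (0, h) F (Ψ x + (0, y)) := by
  rw [(giI_hasFDerivAt hS hK hΨ hF y).fderiv,
    ContinuousLinearMap.integral_apply (giI_int hS hK hΨ hF y)]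
  simp [giD]

lemma giI_good (hS : IsCompact S) (hK : Continuous K) (hΨ : Continuous Ψ)
    (hF : ContDiff ℝ ∞ F) :
    GiGood (fun y => ∫ x in S, K x * F (Ψ x + (0, y)))
      (fun h y => ∫ x in S, K x * giD (0, h) (giD (0, h) F) (Ψ x + (0, y))) := by
  have hfd : fderiv ℝ (fun y => ∫ x in S, K x * F (Ψ x + (0, y))) = fun y =>
      ∫ x in S, K x • (fderiv ℝ F (Ψ x + (0, y))).comp (ContinuousLinearMap.inr ℝ ℝ (Sp d)) := by
    funext y
    exact (giI_hasFDerivAt hS hK hΨ hF y).fderiv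
  have hF' : ContDiff ℝ ∞ (fun p => (fderiv ℝ F p).comp (ContinuousLinearMap.inr ℝ ℝ (Sp d))) :=
    (hF.fderiv_right (m := ∞) (by simp)).clm_comp contDiff_const
  have hd2 : Differentiable ℝ (fderiv ℝ (fun y => ∫ x in S, K x * F (Ψ x + (0, y)))) := by
    rw [hfd]
    intro y
    exact (gi_param hS hK hΨ (hF'.of_le (WithTop.coe_le_coe.2 le_top)) y).differentiableAt
  refine ⟨fun y => (giI_hasFDerivAt hS hK hΨ hF y).differentiableAt, hd2, ?_⟩
  intro h y
  rw [gi_it2 (hd2 y)]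
  have : (fun q => fderiv ℝ (fun y => ∫ x in S, K x * F (Ψ x + (0, y))) q h) = fun q =>
      ∫ x in S, K x * giD (0, h) F (Ψ x + (0, q)) := by
    funext q
    exact giI_fderiv hS hK hΨ hF q h
  rw [this, giI_fderiv hS hK hΨ (giD_smooth _ hF)]

end Par2

lemma GiGood.lap_eq {g : Sp d → ℝ} {D : Sp d → Sp d → ℝ} (h : GiGood g D) (y : Sp d) :
    lap g y = ∑ j : Fin d, D (EuclideanSpace.single j (1 : ℝ)) y := by
  unfold lap
  exact Finset.sum_congr rfl fun j _ => h.2.2 _ y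

lemma GiGood.d2_eq {g : Sp d → ℝ} {D : Sp d → Sp d → ℝ} (h : GiGood g D) (n y : Sp d) :
    d2 n g y = D n y := h.2.2 n y

/-! ### the tent -/

lemma tau_left {r : ℝ} (h1 : 1 / 2 ≤ r) (h2 : r ≤ 1) : tau 1 r = 2 / 3 * (r - 1 / 2) := by
  unfold tau
  rw [min_eq_left (by linarith only [h2]), max_eq_right (by linarith)]

lemma tau_right {r : ℝ} (h1 : 1 ≤ r) (h2 : r ≤ 2) : tau 1 r = 1 / 3 * (2 - r) := by
  unfold tau
  rw [min_eq_right (by linarith), max_eq_right (by linarith)]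
  ring

lemma tau_cont : Continuous (tau 1) := by
  unfold tau
  fun_prop

lemma tent_ibp {φ φ1 φ2 : ℝ → ℝ} (h1 : ∀ r, HasDerivAt φ (φ1 r) r)
    (h2 : ∀ r, HasDerivAt φ1 (φ2 r) r) (h3 : Continuous φ2) :
    φ 1 - 2 / 3 * φ (1 / 2) - 1 / 3 * φ 2 = -∫ r in (1 / 2 : ℝ)..2, tau 1 r * φ2 r := by
  have hi : ∀ a b : ℝ, IntervalIntegrable (fun r => tau 1 r * φ2 r) volume a b := fun a b =>
    (tau_cont.mul h3).intervalIntegrable a b
  have hφ1 : Continuous φ1 := continuous_iff_continuousAt.2 fun r => (h2 r).continuousAt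
  rw [← intervalIntegral.integral_add_adjacent_intervals (hi (1 / 2) 1) (hi 1 2)]
  have e1 : ∫ r in (1 / 2 : ℝ)..1, tau 1 r * φ2 r = ∫ r in (1 / 2 : ℝ)..1,
      2 / 3 * (r - 1 / 2) * φ2 r := by
    apply intervalIntegral.integral_congr
    intro r hr
    rw [uIcc_of_le (by norm_num)] at hr
    show tau 1 r * φ2 r = _
    rw [tau_left hr.1 hr.2]
  have e2 : ∫ r in (1 : ℝ)..2, tau 1 r * φ2 r = ∫ r in (1 : ℝ)..2,
      1 / 3 * (2 - r) * φ2 r := by
    apply intervalIntegral.integral_congr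
    intro r hr
    rw [uIcc_of_le (by norm_num)] at hr
    show tau 1 r * φ2 r = _
    rw [tau_right hr.1 hr.2]
  rw [e1, e2]
  have f1 : ∫ r in (1 / 2 : ℝ)..1, 2 / 3 * (r - 1 / 2) * φ2 r =
      (2 / 3 * (1 - 1 / 2) * φ1 1 - 2 / 3 * φ 1) -
      (2 / 3 * (1 / 2 - 1 / 2) * φ1 (1 / 2) - 2 / 3 * φ (1 / 2)) := by
    apply intervalIntegral.integral_eq_sub_of_hasDerivAt
      (f := fun r => 2 / 3 * (r - 1 / 2) * φ1 r - 2 / 3 * φ r)
    · intro r _
      have := ((((hasDerivAt_id r).sub_const (1 / 2)).const_mul (2 / 3 : ℝ)).mul (h2 r)).sub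
        ((h1 r).const_mul (2 / 3))
      refine this.congr_deriv ?_
      simp
    · exact (by fun_prop : Continuous fun r => 2 / 3 * (r - 1 / 2) * φ2 r).intervalIntegrable _ _
  have f2 : ∫ r in (1 : ℝ)..2, 1 / 3 * (2 - r) * φ2 r =
      (1 / 3 * (2 - 2) * φ1 2 + 1 / 3 * φ 2) -
      (1 / 3 * (2 - 1) * φ1 1 + 1 / 3 * φ 1) := by
    apply intervalIntegral.integral_eq_sub_of_hasDerivAt
      (f := fun r => 1 / 3 * (2 - r) * φ1 r + 1 / 3 * φ r)
    · intro r _
      have := ((((hasDerivAt_id r).const_sub 2).const_mul (1 / 3 : ℝ)).mul (h2 r)).add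
        ((h1 r).const_mul (1 / 3))
      refine this.congr_deriv ?_
      simp
    · exact (by fun_prop : Continuous fun r => 1 / 3 * (2 - r) * φ2 r).intervalIntegrable _ _
  rw [f1, f2]
  ring

end

end TG


end

section

/-!
# Trace inequality, general operators: module GI, part 2 (integration by parts)
-/

open MeasureTheory Metric Set TrI
open scoped InnerProductSpace ContDiff

namespace TG

noncomputable section

variable {d : ℕ}

/-- continuous kernels supported in the unit ball -/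
def GiK (κ : Sp d → ℝ) : Prop := Continuous κ ∧ ∀ x, 1 ≤ ‖x‖ → κ x = 0

lemma GiK.cs {κ : Sp d → ℝ} (h : GiK κ) : HasCompactSupport κ := by
  apply HasCompactSupport.intro (isCompact_closedBall (0 : Sp d) 1)
  intro x hx
  apply h.2
  simp at hx
  exact hx.le

lemma GiK.int {κ : Sp d → ℝ} (h : GiK κ) {g : Sp d → ℝ} (hg : Continuous g) :
    Integrable (fun z => κ z * g z) :=
  (h.1.mul hg).integrable_of_hasCompactSupport h.cs.mul_right

/-- averages -/
def giA (ε : ℝ) (κ : Sp d → ℝ) (F : ℝ × Sp d → ℝ) (r : ℝ) (y : Sp d) : ℝ :=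
  ∫ z, κ z * F (r, y + (ε * r) • z)

lemma gi_ibp {κ κ' : Sp d → ℝ} (hκ : GiK κ) (hκ' : GiK κ')
    (hg : ∀ x, HasGradientAt κ' (-(κ x) • x) x) {G : Sp d → ℝ} (hG : ContDiff ℝ ∞ G) (h : Sp d) :
    ∫ z, κ z * (⟪z, h⟫_ℝ * G z) = ∫ z, κ' z * fderiv ℝ G z h := by
  have hf : ∀ z, fderiv ℝ κ' z h = -(κ z * ⟪z, h⟫_ℝ) := by
    intro z
    rw [(hg z).hasFDerivAt.fderiv]
    simp
  have hdG : Continuous fun z => fderiv ℝ G z h :=
    ((hG.continuous_fderiv (by simp)).clm_apply continuous_const)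
  have := integral_mul_fderiv_eq_neg_fderiv_mul_of_integrable (μ := (volume : Measure (Sp d)))
    (f := κ') (g := G) (v := h) ?_ ?_ ?_ ?_ (fun x _ => (hG.differentiable (by simp)) x)
  · rw [this, ← integral_neg]
    congr 1
    funext z
    rw [hf z]
    ring
  · have e : (fun z => fderiv ℝ κ' z h * G z) = fun z => κ z * (-(⟪z, h⟫_ℝ) * G z) := by
      funext z
      rw [hf z]; ring
    rw [e]
    exact hκ.int (by have := hG.continuous; fun_prop)
  · exact hκ'.int hdG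
  · exact hκ'.int hG.continuous
  · exact fun z _ => (hg z).hasFDerivAt.differentiableAt

lemma gi_ray_fderiv {F : ℝ × Sp d → ℝ} (hF : ContDiff ℝ ∞ F) (r s : ℝ) (y z h : Sp d) :
    fderiv ℝ (fun z => F (r, y + s • z)) z h = s * giD (0, h) F (r, y + s • z) := by
  have h1 : HasFDerivAt (fun z : Sp d => (r, y + s • z))
      ((ContinuousLinearMap.inr ℝ ℝ (Sp d)).comp (s • ContinuousLinearMap.id ℝ (Sp d))) z := by
    have a := ((hasFDerivAt_id (𝕜 := ℝ) z).const_smul s).const_add y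
    exact (hasFDerivAt_prodMk_right r (y + s • z)).comp z a
  have h2 : HasFDerivAt F (fderiv ℝ F (r, y + s • z)) (r, y + s • z) :=
    ((hF.differentiable (by simp)) _).hasFDerivAt
  have := (h2.comp z h1).fderiv
  rw [show (fun z => F (r, y + s • z)) = F ∘ (fun z : Sp d => (r, y + s • z)) from rfl, this]
  simp only [giD, ContinuousLinearMap.comp_apply, smul_apply,
    ContinuousLinearMap.id_apply, ContinuousLinearMap.inr_apply]
  rw [show ((0 : ℝ), s • h) = s • ((0 : ℝ), h) by simp, map_smul, smul_eq_mul]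

lemma gi_ray_smooth {F : ℝ × Sp d → ℝ} (hF : ContDiff ℝ ∞ F) (r s : ℝ) (y : Sp d) :
    ContDiff ℝ ∞ (fun z => F (r, y + s • z)) :=
  hF.comp (contDiff_const.prodMk (contDiff_const.add (contDiff_id.const_smul s)))

lemma gi_i1 {κ κ' : Sp d → ℝ} (hκ : GiK κ) (hκ' : GiK κ')
    (hg : ∀ x, HasGradientAt κ' (-(κ x) • x) x) {F : ℝ × Sp d → ℝ} (hF : ContDiff ℝ ∞ F)
    (ε r : ℝ) (y h : Sp d) :
    ∫ z, κ z * (⟪z, h⟫_ℝ * F (r, y + (ε * r) • z)) =
      ε * r * giA ε κ' (giD (0, h) F) r y := by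
  rw [gi_ibp hκ hκ' hg (gi_ray_smooth hF r (ε * r) y) h]
  unfold giA
  rw [← integral_const_mul]
  congr 1
  funext z
  rw [gi_ray_fderiv hF]
  ring

lemma gi_i3 {κ κ' κ'' : Sp d → ℝ} (hκ : GiK κ) (hκ' : GiK κ') (hκ'' : GiK κ'')
    (hg : ∀ x, HasGradientAt κ' (-(κ x) • x) x) (hg' : ∀ x, HasGradientAt κ'' (-(κ' x) • x) x)
    {F : ℝ × Sp d → ℝ} (hF : ContDiff ℝ ∞ F)
    (ε r : ℝ) (y h k : Sp d) :
    ∫ z, κ z * (⟪z, h⟫_ℝ * (⟪z, k⟫_ℝ * F (r, y + (ε * r) • z))) =
      ⟪h, k⟫_ℝ * giA ε κ' F r y +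
        (ε * r) ^ 2 * giA ε κ'' (giD (0, k) (giD (0, h) F)) r y := by
  have hs : ContDiff ℝ ∞ (fun z : Sp d => ⟪z, k⟫_ℝ * F (r, y + (ε * r) • z)) :=
    (contDiff_id.inner ℝ contDiff_const).mul (gi_ray_smooth hF r (ε * r) y)
  rw [gi_ibp hκ hκ' hg hs h]
  have hd : ∀ z : Sp d, fderiv ℝ (fun z : Sp d => ⟪z, k⟫_ℝ * F (r, y + (ε * r) • z)) z h =
      ⟪h, k⟫_ℝ * F (r, y + (ε * r) • z) +
        ε * r * (⟪z, k⟫_ℝ * giD (0, h) F (r, y + (ε * r) • z)) := by
    intro z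
    have a0 : (fun z : Sp d => ⟪z, k⟫_ℝ) = fun z => (innerSL ℝ k) z := by
      funext z; rw [innerSL_apply_apply, real_inner_comm]
    have a1' : HasFDerivAt (fun z : Sp d => ⟪z, k⟫_ℝ) (innerSL ℝ k) z := by
      rw [a0]; exact (innerSL ℝ k).hasFDerivAt
    have a1 : DifferentiableAt ℝ (fun z : Sp d => ⟪z, k⟫_ℝ) z := a1'.differentiableAt
    have a2 : DifferentiableAt ℝ (fun z => F (r, y + (ε * r) • z)) z :=
      ((gi_ray_smooth hF r (ε * r) y).differentiable (by simp)) z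
    rw [fderiv_fun_mul a1 a2]
    have a3 : fderiv ℝ (fun z : Sp d => ⟪z, k⟫_ℝ) z h = ⟪h, k⟫_ℝ := by
      rw [a1'.fderiv, innerSL_apply_apply, real_inner_comm]
    simp only [add_apply, smul_apply, smul_eq_mul, a3,
      gi_ray_fderiv hF]
    ring
  have e : ∀ z : Sp d, κ' z * fderiv ℝ (fun z : Sp d => ⟪z, k⟫_ℝ * F (r, y + (ε * r) • z)) z h =
      ⟪h, k⟫_ℝ * (κ' z * F (r, y + (ε * r) • z)) +
        ε * r * (κ' z * (⟪z, k⟫_ℝ * giD (0, h) F (r, y + (ε * r) • z))) := by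
    intro z
    rw [hd z]; ring
  have c1 : Continuous (fun z : Sp d => F (r, y + (ε * r) • z)) :=
    (gi_ray_smooth hF r (ε * r) y).continuous
  have c2 : Continuous (fun z : Sp d => ⟪z, k⟫_ℝ * giD (0, h) F (r, y + (ε * r) • z)) := by
    have := (gi_ray_smooth (giD_smooth (0, h) hF) r (ε * r) y).continuous
    fun_prop
  rw [integral_congr_ae (Filter.Eventually.of_forall e), integral_add
    ((hκ'.int c1).const_mul _) ((hκ'.int c2).const_mul _), integral_const_mul, integral_const_mul,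
    gi_i1 hκ' hκ'' hg' (giD_smooth (0, h) hF)]
  unfold giA
  ring

end

end TG


end

section

/-!
# Trace inequality, general operators: module GI, part 3 (the pointwise identity)
-/

open MeasureTheory Metric Set TrI
open scoped InnerProductSpace ContDiff

namespace TG

noncomputable section

variable {d : ℕ}

/-- basis vector -/
abbrev giE (j : Fin d) : Sp d := EuclideanSpace.single j (1 : ℝ)

lemma giD_two {f : ℝ × Sp d → ℝ} (hf : ContDiff ℝ ∞ f) (a b p : ℝ × Sp d) :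
    giD a (giD b f) p = fderiv ℝ (fderiv ℝ f) p a b := by
  have h1 : DifferentiableAt ℝ (fderiv ℝ f) p :=
    ((hf.fderiv_right (m := ∞) (by simp)).differentiable (by simp)).differentiableAt
  show fderiv ℝ (fun q => fderiv ℝ f q b) p a = _
  rw [fderiv_clm_apply h1 (differentiableAt_const b)]
  simp

lemma giD_sum {ι : Type*} (s : Finset ι) (a : ℝ × Sp d) {F : ι → ℝ × Sp d → ℝ}
    (hF : ∀ i ∈ s, ContDiff ℝ ∞ (F i)) :
    giD a (fun p => ∑ i ∈ s, F i p) = fun p => ∑ i ∈ s, giD a (F i) p := by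
  funext p
  unfold giD
  rw [fderiv_fun_sum fun i hi => ((hF i hi).differentiable (by simp)) p]
  simp

lemma giA_sum {ι : Type*} (s : Finset ι) {ε : ℝ} {κ : Sp d → ℝ} (hκ : GiK κ)
    {F : ι → ℝ × Sp d → ℝ} (hF : ∀ i ∈ s, ContDiff ℝ ∞ (F i)) (r : ℝ) (y : Sp d) :
    giA ε κ (fun p => ∑ i ∈ s, F i p) r y = ∑ i ∈ s, giA ε κ (F i) r y := by
  unfold giA
  rw [← integral_finsetSum]
  · congr 1
    funext z
    rw [Finset.mul_sum]
  · intro i hi
    exact hκ.int (gi_ray_smooth (hF i hi) r (ε * r) y).continuous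

lemma gi_dec (ε : ℝ) (z : Sp d) :
    ((1 : ℝ), ε • z) = ((1 : ℝ), (0 : Sp d)) + ∑ j : Fin d, (ε * ⟪z, giE j⟫_ℝ) • ((0 : ℝ), giE j) := by
  have h : z = ∑ j : Fin d, ⟪z, giE j⟫_ℝ • giE j := by
    have := (EuclideanSpace.basisFun (Fin d) ℝ).sum_repr' z
    conv_lhs => rw [← this]
    apply Finset.sum_congr rfl
    intro j _
    simp [giE, real_inner_comm]
  have e : ∑ j : Fin d, (ε * ⟪z, giE j⟫_ℝ) • ((0 : ℝ), giE j) = ((0 : ℝ), ε • z) := by
    apply Prod.ext
    · simp [Prod.fst_sum]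
    · rw [Prod.snd_sum]
      conv_rhs => rw [h]
      rw [Finset.smul_sum]
      apply Finset.sum_congr rfl
      intro j _
      simp [mul_smul]
  rw [e]
  simp

lemma gi_exp1 {f : ℝ × Sp d → ℝ} (hf : ContDiff ℝ ∞ f) (ε : ℝ) (z : Sp d) (p : ℝ × Sp d) :
    iteratedFDeriv ℝ 2 f p (fun _ => ((1 : ℝ), ε • z)) =
      giT (giT f) p + ∑ j : Fin d, 2 * ε * (⟪z, giE j⟫_ℝ * giD (0, giE j) (giT f) p) +
      ∑ i : Fin d, ∑ j : Fin d, ε ^ 2 * (⟪z, giE i⟫_ℝ * (⟪z, giE j⟫_ℝ *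
        giD (0, giE i) (giD (0, giE j) f) p)) := by
  have h1 : ∀ j : Fin d, giD (0, giE j) (giT f) p = fderiv ℝ (fderiv ℝ f) p (0, giE j) (1, 0) :=
    fun j => giD_two hf _ _ _
  have h2 : ∀ j : Fin d, fderiv ℝ (fderiv ℝ f) p (1, 0) (0, giE j) =
      fderiv ℝ (fderiv ℝ f) p (0, giE j) (1, 0) := by
    intro j
    rw [← giD_two hf, ← giD_two hf, giD_comm _ _ hf]
  have h3 : ∀ i j : Fin d, giD (0, giE i) (giD (0, giE j) f) p =
      fderiv ℝ (fderiv ℝ f) p (0, giE i) (0, giE j) := fun i j => giD_two hf _ _ _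
  have h4 : giT (giT f) p = fderiv ℝ (fderiv ℝ f) p (1, 0) (1, 0) := giD_two hf _ _ _
  rw [giD_it2 _ hf, giD_two hf, gi_dec, h4]
  simp only [h1, h3, map_add, map_sum, map_smul, add_apply, sum_apply, smul_apply, smul_eq_mul,
    h2, mul_add, Finset.sum_add_distrib, Finset.mul_sum]
  have e1 : ∑ j : Fin d, ε * ⟪z, giE j⟫_ℝ * (fderiv ℝ (fderiv ℝ f) p (0, giE j)) (1, 0) +
      ∑ j : Fin d, ε * ⟪z, giE j⟫_ℝ * (fderiv ℝ (fderiv ℝ f) p (0, giE j)) (1, 0) =
      ∑ j : Fin d, 2 * ε * (⟪z, giE j⟫_ℝ * (fderiv ℝ (fderiv ℝ f) p (0, giE j)) (1, 0)) := by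
    rw [← Finset.sum_add_distrib]
    exact Finset.sum_congr rfl fun j _ => by ring
  have e2 : ∑ i : Fin d, ∑ j : Fin d, ε * ⟪z, giE i⟫_ℝ * (ε * ⟪z, giE j⟫_ℝ *
      (fderiv ℝ (fderiv ℝ f) p (0, giE j)) (0, giE i)) =
      ∑ i : Fin d, ∑ j : Fin d, ε ^ 2 * (⟪z, giE i⟫_ℝ * (⟪z, giE j⟫_ℝ *
        (fderiv ℝ (fderiv ℝ f) p (0, giE i)) (0, giE j))) := by
    rw [Finset.sum_comm]
    exact Finset.sum_congr rfl fun i _ => Finset.sum_congr rfl fun j _ => by ring
  rw [← e1]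
  rw [← e2]
  ring

lemma gi_exp2 {f : ℝ × Sp d → ℝ} (hf : ContDiff ℝ ∞ f) (c : ℝ) (n : Sp d) (p : ℝ × Sp d) :
    iteratedFDeriv ℝ 2 f p (fun _ => ((1 : ℝ), c • n)) =
      giT (giT f) p + 2 * c * giD (0, n) (giT f) p + c ^ 2 * giN n f p := by
  have h1 : giD (0, n) (giT f) p = fderiv ℝ (fderiv ℝ f) p (0, n) (1, 0) := giD_two hf _ _ _
  have h2 : fderiv ℝ (fderiv ℝ f) p (1, 0) (0, n) =
      fderiv ℝ (fderiv ℝ f) p (0, n) (1, 0) := by
    rw [← giD_two hf, ← giD_two hf, giD_comm _ _ hf]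
  have h3 : giN n f p = fderiv ℝ (fderiv ℝ f) p (0, n) (0, n) := giD_two hf _ _ _
  have h4 : giT (giT f) p = fderiv ℝ (fderiv ℝ f) p (1, 0) (1, 0) := giD_two hf _ _ _
  rw [giD_it2 _ hf, giD_two hf, show ((1 : ℝ), c • n) = ((1 : ℝ), (0 : Sp d)) + c • ((0 : ℝ), n) by
    simp, h4, h1, h3]
  simp only [map_add, map_smul, add_apply, smul_apply, smul_eq_mul, h2]
  ring

lemma gi_W {β B B2 : Sp d → ℝ} (hβ : GiK β) (hB : GiK B) (hB2 : GiK B2)
    (hg : ∀ x, HasGradientAt B (-(β x) • x) x) (hg' : ∀ x, HasGradientAt B2 (-(B x) • x) x)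
    {f : ℝ × Sp d → ℝ} (hf : ContDiff ℝ ∞ f) (ε r : ℝ) (y : Sp d) :
    ∫ z, β z * iteratedFDeriv ℝ 2 f (r, y + (ε * r) • z) (fun _ => ((1 : ℝ), ε • z)) =
      giA ε β (giT (giT f)) r y + 2 * ε ^ 2 * r * giA ε B (giL (giT f)) r y +
      ε ^ 2 * giA ε B (giL f) r y + ε ^ 4 * r ^ 2 * giA ε B2 (giL (giL f)) r y := by
  have hT := giT_smooth hf
  have hTT := giT_smooth hT
  have c0 : Continuous fun z : Sp d => giT (giT f) (r, y + (ε * r) • z) :=
    (gi_ray_smooth hTT r (ε * r) y).continuous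
  have c1 : ∀ j : Fin d, Continuous fun z : Sp d =>
      ⟪z, giE j⟫_ℝ * giD (0, giE j) (giT f) (r, y + (ε * r) • z) := by
    intro j
    have := (gi_ray_smooth (giD_smooth (0, giE j) hT) r (ε * r) y).continuous
    fun_prop
  have c2 : ∀ i j : Fin d, Continuous fun z : Sp d => (⟪z, giE i⟫_ℝ * (⟪z, giE j⟫_ℝ *
        giD (0, giE i) (giD (0, giE j) f) (r, y + (ε * r) • z))) := by
    intro i j
    have := (gi_ray_smooth (giD_smooth (0, giE i) (giD_smooth (0, giE j) hf)) r (ε * r) y).continuous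
    fun_prop
  have e : ∀ z : Sp d, β z * iteratedFDeriv ℝ 2 f (r, y + (ε * r) • z) (fun _ => ((1 : ℝ), ε • z)) =
      β z * giT (giT f) (r, y + (ε * r) • z) +
      ∑ j : Fin d, 2 * ε * (β z * (⟪z, giE j⟫_ℝ * giD (0, giE j) (giT f) (r, y + (ε * r) • z))) +
      ∑ i : Fin d, ∑ j : Fin d, ε ^ 2 * (β z * (⟪z, giE i⟫_ℝ * (⟪z, giE j⟫_ℝ *
        giD (0, giE i) (giD (0, giE j) f) (r, y + (ε * r) • z)))) := by
    intro z
    rw [gi_exp1 hf, mul_add, mul_add, Finset.mul_sum, Finset.mul_sum]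
    congr 1
    · congr 1
      exact Finset.sum_congr rfl fun j _ => by ring
    · refine Finset.sum_congr rfl fun i _ => ?_
      rw [Finset.mul_sum]
      exact Finset.sum_congr rfl fun j _ => by ring
  have i0 := hβ.int c0
  have i1 : ∀ j ∈ (Finset.univ : Finset (Fin d)), Integrable (fun z => 2 * ε * (β z *
      (⟪z, giE j⟫_ℝ * giD (0, giE j) (giT f) (r, y + (ε * r) • z)))) :=
    fun j _ => (hβ.int (c1 j)).const_mul _
  have i2 : ∀ i ∈ (Finset.univ : Finset (Fin d)), ∀ j ∈ (Finset.univ : Finset (Fin d)),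
      Integrable (fun z => ε ^ 2 * (β z * (⟪z, giE i⟫_ℝ * (⟪z, giE j⟫_ℝ *
        giD (0, giE i) (giD (0, giE j) f) (r, y + (ε * r) • z))))) :=
    fun i _ j _ => (hβ.int (c2 i j)).const_mul _
  have i1' : Integrable (fun z => ∑ j : Fin d, 2 * ε * (β z *
      (⟪z, giE j⟫_ℝ * giD (0, giE j) (giT f) (r, y + (ε * r) • z)))) :=
    integrable_finsetSum _ i1
  have i2' : Integrable (fun z => ∑ i : Fin d, ∑ j : Fin d, ε ^ 2 * (β z * (⟪z, giE i⟫_ℝ *
      (⟪z, giE j⟫_ℝ * giD (0, giE i) (giD (0, giE j) f) (r, y + (ε * r) • z))))) :=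
    integrable_finsetSum _ fun i hi => integrable_finsetSum _ (i2 i hi)
  have i01 : Integrable (fun z => β z * giT (giT f) (r, y + (ε * r) • z) +
      ∑ j : Fin d, 2 * ε * (β z *
      (⟪z, giE j⟫_ℝ * giD (0, giE j) (giT f) (r, y + (ε * r) • z)))) := i0.add i1'
  rw [integral_congr_ae (Filter.Eventually.of_forall e), integral_add i01 i2',
    integral_add i0 i1', integral_finsetSum _ i1,
    integral_finsetSum _ fun i hi => integrable_finsetSum _ (i2 i hi)]
  have s1 : ∑ j : Fin d, ∫ z, 2 * ε * (β z *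
      (⟪z, giE j⟫_ℝ * giD (0, giE j) (giT f) (r, y + (ε * r) • z))) =
      2 * ε ^ 2 * r * giA ε B (giL (giT f)) r y := by
    have : giA ε B (giL (giT f)) r y =
        ∑ j : Fin d, giA ε B (giD (0, giE j) (giD (0, giE j) (giT f))) r y := by
      unfold giL
      exact giA_sum _ hB (fun j _ => giD_smooth _ (giD_smooth _ hT)) r y
    rw [this, Finset.mul_sum]
    refine Finset.sum_congr rfl fun j _ => ?_
    rw [integral_const_mul, gi_i1 hβ hB hg (giD_smooth _ hT)]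
    ring
  have s2 : ∑ i : Fin d, ∫ z, ∑ j : Fin d, ε ^ 2 * (β z * (⟪z, giE i⟫_ℝ * (⟪z, giE j⟫_ℝ *
        giD (0, giE i) (giD (0, giE j) f) (r, y + (ε * r) • z)))) =
      ε ^ 2 * giA ε B (giL f) r y + ε ^ 4 * r ^ 2 * giA ε B2 (giL (giL f)) r y := by
    have t1 : giA ε B (giL f) r y =
        ∑ i : Fin d, giA ε B (giD (0, giE i) (giD (0, giE i) f)) r y := by
      unfold giL
      exact giA_sum _ hB (fun j _ => giD_smooth _ (giD_smooth _ hf)) r y
    have t2 : giL (giL f) = fun p => ∑ i : Fin d, ∑ j : Fin d,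
        giD (0, giE j) (giD (0, giE i) (giD (0, giE i) (giD (0, giE j) f))) p := by
      funext p
      show ∑ j : Fin d, giD (0, giE j) (giD (0, giE j) (giL f)) p = _
      rw [Finset.sum_comm]
      refine Finset.sum_congr rfl fun j _ => ?_
      have u : giL f = fun p => ∑ i : Fin d, giD (0, giE i) (giD (0, giE i) f) p := rfl
      rw [u, giD_sum _ _ (fun i _ => giD_smooth _ (giD_smooth _ hf)),
        giD_sum _ _ (fun i _ => giD_smooth _ (giD_smooth _ (giD_smooth _ hf)))]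
      refine Finset.sum_congr rfl fun i _ => ?_
      rw [giD_comm (0, giE i) (0, giE j) hf,
        giD_comm (0, giE i) (0, giE j) (giD_smooth (0, giE i) hf)]
    have t3 : giA ε B2 (giL (giL f)) r y = ∑ i : Fin d, ∑ j : Fin d,
        giA ε B2 (giD (0, giE j) (giD (0, giE i) (giD (0, giE i) (giD (0, giE j) f)))) r y := by
      rw [t2, giA_sum _ hB2 (F := fun i p => ∑ j : Fin d,
        giD (0, giE j) (giD (0, giE i) (giD (0, giE i) (giD (0, giE j) f))) p)]
      · refine Finset.sum_congr rfl fun i _ => ?_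
        exact giA_sum _ hB2 (fun j _ =>
          giD_smooth _ (giD_smooth _ (giD_smooth _ (giD_smooth _ hf)))) r y
      · intro i _
        exact ContDiff.sum fun j _ => giD_smooth _ (giD_smooth _ (giD_smooth _ (giD_smooth _ hf)))
    rw [t1, t3, Finset.mul_sum, Finset.mul_sum, ← Finset.sum_add_distrib]
    refine Finset.sum_congr rfl fun i hi => ?_
    rw [integral_finsetSum _ (i2 i hi)]
    have v : ∀ j : Fin d, ∫ z, ε ^ 2 * (β z * (⟪z, giE i⟫_ℝ * (⟪z, giE j⟫_ℝ *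
        giD (0, giE i) (giD (0, giE j) f) (r, y + (ε * r) • z)))) =
        (if i = j then ε ^ 2 * giA ε B (giD (0, giE i) (giD (0, giE i) f)) r y else 0) +
        ε ^ 4 * r ^ 2 *
          giA ε B2 (giD (0, giE j) (giD (0, giE i) (giD (0, giE i) (giD (0, giE j) f)))) r y := by
      intro j
      rw [integral_const_mul, gi_i3 hβ hB hB2 hg hg' (giD_smooth _ (giD_smooth _ hf))]
      by_cases hij : i = j
      · subst hij
        simp only [giE, if_true]
        rw [show ⟪(EuclideanSpace.single i (1 : ℝ) : Sp d), EuclideanSpace.single i (1 : ℝ)⟫_ℝ = 1 by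
          simp]
        ring
      · rw [if_neg hij, show ⟪(giE i : Sp d), giE j⟫_ℝ = 0 by
          simp [giE, EuclideanSpace.inner_single_left, hij]]
        ring
    rw [Finset.sum_congr rfl fun j _ => v j, Finset.sum_add_distrib]
    simp [Finset.mul_sum]
  rw [s1, s2]
  unfold giA
  ring

lemma gi_G {β B B2 : Sp d → ℝ} (hβ : GiK β) (hB : GiK B) (hB2 : GiK B2)
    (hg : ∀ x, HasGradientAt B (-(β x) • x) x) (hg' : ∀ x, HasGradientAt B2 (-(B x) • x) x)
    {f : ℝ × Sp d → ℝ} (hf : ContDiff ℝ ∞ f) {n : Sp d} (hn : ‖n‖ = 1) (ε r : ℝ) (y : Sp d) :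
    ∫ z, β z * (iteratedFDeriv ℝ 2 f (r, y + (ε * r) • z)
        (fun _ => ((1 : ℝ), (ε * ⟪z, n⟫_ℝ) • n)) +
        (1 + (ε * ⟪z, n⟫_ℝ) ^ 2) * (giL f (r, y + (ε * r) • z) - giN n f (r, y + (ε * r) • z))) =
      giA ε β (giT (giT f)) r y + (giA ε β (giL f) r y - giA ε β (giN n f) r y) +
      2 * ε ^ 2 * r * giA ε B (giN n (giT f)) r y +
      ε ^ 2 * giA ε B (giL f) r y + ε ^ 4 * r ^ 2 * giA ε B2 (giN n (giL f)) r y := by
  have hT := giT_smooth hf
  have hTT := giT_smooth hT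
  have hL := giL_smooth hf
  have hN := giN_smooth n hf
  have c0 : Continuous fun z : Sp d => giT (giT f) (r, y + (ε * r) • z) :=
    (gi_ray_smooth hTT r (ε * r) y).continuous
  have c1 : Continuous fun z : Sp d => giL f (r, y + (ε * r) • z) :=
    (gi_ray_smooth hL r (ε * r) y).continuous
  have c2 : Continuous fun z : Sp d => giN n f (r, y + (ε * r) • z) :=
    (gi_ray_smooth hN r (ε * r) y).continuous
  have c3 : Continuous fun z : Sp d =>
      ⟪z, n⟫_ℝ * giD (0, n) (giT f) (r, y + (ε * r) • z) := by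
    have := (gi_ray_smooth (giD_smooth (0, n) hT) r (ε * r) y).continuous
    fun_prop
  have c4 : Continuous fun z : Sp d => (⟪z, n⟫_ℝ * (⟪z, n⟫_ℝ *
        giL f (r, y + (ε * r) • z))) := by
    fun_prop
  have e : ∀ z : Sp d, β z * (iteratedFDeriv ℝ 2 f (r, y + (ε * r) • z)
        (fun _ => ((1 : ℝ), (ε * ⟪z, n⟫_ℝ) • n)) +
        (1 + (ε * ⟪z, n⟫_ℝ) ^ 2) * (giL f (r, y + (ε * r) • z) - giN n f (r, y + (ε * r) • z))) =
      β z * giT (giT f) (r, y + (ε * r) • z) + (β z * giL f (r, y + (ε * r) • z) -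
        β z * giN n f (r, y + (ε * r) • z)) +
      2 * ε * (β z * (⟪z, n⟫_ℝ * giD (0, n) (giT f) (r, y + (ε * r) • z))) +
      ε ^ 2 * (β z * (⟪z, n⟫_ℝ * (⟪z, n⟫_ℝ * giL f (r, y + (ε * r) • z)))) := by
    intro z
    rw [gi_exp2 hf]
    ring
  have i0 := hβ.int c0
  have i1 := hβ.int c1
  have i2 := hβ.int c2
  have i3 := (hβ.int c3).const_mul (2 * ε)
  have i4 := (hβ.int c4).const_mul (ε ^ 2)
  have j1 : Integrable (fun z => β z * giL f (r, y + (ε * r) • z) -
      β z * giN n f (r, y + (ε * r) • z)) := i1.sub i2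
  have j2 : Integrable (fun z => β z * giT (giT f) (r, y + (ε * r) • z) +
      (β z * giL f (r, y + (ε * r) • z) - β z * giN n f (r, y + (ε * r) • z))) := i0.add j1
  have j3 : Integrable (fun z => β z * giT (giT f) (r, y + (ε * r) • z) +
      (β z * giL f (r, y + (ε * r) • z) - β z * giN n f (r, y + (ε * r) • z)) +
      2 * ε * (β z * (⟪z, n⟫_ℝ * giD (0, n) (giT f) (r, y + (ε * r) • z)))) := j2.add i3
  rw [integral_congr_ae (Filter.Eventually.of_forall e),
    integral_add j3 i4, integral_add j2 i3,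
    integral_add i0 j1, integral_sub i1 i2, integral_const_mul, integral_const_mul,
    gi_i1 hβ hB hg (giD_smooth _ hT), gi_i3 hβ hB hB2 hg hg' hL,
    real_inner_self_eq_norm_sq, hn]
  unfold giN giA
  ring

end

end TG


end

section

/-!
# Trace inequality, general operators: module GI
-/

open MeasureTheory Metric Set TrI
open scoped InnerProductSpace ContDiff

namespace TG

noncomputable section

variable {d : ℕ}

/-- the compact set of integration -/
def giS (d : ℕ) : Set (ℝ × Sp d) := Icc (1 / 2 : ℝ) 2 ×ˢ closedBall (0 : Sp d) 1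

lemma giS_compact : IsCompact (giS d) := isCompact_Icc.prod (isCompact_closedBall 0 1)

lemma gi_conv {c : ℝ → ℝ} (hc : Continuous c) {κ : Sp d → ℝ} (hκ : GiK κ)
    {H : ℝ × Sp d → ℝ} (hH : Continuous H) :
    ∫ r in (1 / 2 : ℝ)..2, c r * ∫ z, κ z * H (r, z) =
      ∫ x in giS d, (c x.1 * κ x.2) * H x := by
  have hi : IntegrableOn (fun x : ℝ × Sp d => (c x.1 * κ x.2) * H x) (giS d) := by
    have := hκ.1
    exact (by fun_prop : Continuous fun x : ℝ × Sp d =>
      (c x.1 * κ x.2) * H x).continuousOn.integrableOn_compact giS_compact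
  unfold giS at hi ⊢
  rw [Measure.volume_eq_prod] at hi ⊢
  rw [setIntegral_prod _ hi, intervalIntegral.integral_of_le (by norm_num),
    ← integral_Icc_eq_integral_Ioc]
  congr 1
  funext r
  have : ∫ z, κ z * H (r, z) = ∫ z in closedBall (0 : Sp d) 1, κ z * H (r, z) := by
    rw [setIntegral_eq_integral_of_forall_compl_eq_zero]
    intro z hz
    rw [mem_closedBall, dist_zero_right, not_le] at hz
    rw [hκ.2 z hz.le, zero_mul]
  rw [this, ← integral_const_mul]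
  congr 1
  funext z
  ring

lemma gi_conv' {c : ℝ → ℝ} (hc : Continuous c) {κ : Sp d → ℝ} (hκ : GiK κ)
    {H : ℝ × Sp d → ℝ} (hH : Continuous H) :
    ∫ z, κ z * ∫ r in (1 / 2 : ℝ)..2, c r * H (r, z) =
      ∫ r in (1 / 2 : ℝ)..2, c r * ∫ z, κ z * H (r, z) := by
  have hi : Integrable (fun x : Sp d × ℝ => (κ x.1 * c x.2) * H (x.2, x.1))
      ((volume.restrict (closedBall (0 : Sp d) 1)).prod
        (volume.restrict (Icc (1 / 2 : ℝ) 2))) := by
    rw [Measure.prod_restrict]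
    have := hκ.1
    exact (by fun_prop : Continuous fun x : Sp d × ℝ =>
      (κ x.1 * c x.2) * H (x.2, x.1)).continuousOn.integrableOn_compact
      ((isCompact_closedBall 0 1).prod isCompact_Icc)
  have h0 : ∀ g : Sp d → ℝ, ∫ z, κ z * g z = ∫ z in closedBall (0 : Sp d) 1, κ z * g z := by
    intro g
    rw [setIntegral_eq_integral_of_forall_compl_eq_zero]
    intro z hz
    rw [mem_closedBall, dist_zero_right, not_le] at hz
    rw [hκ.2 z hz.le, zero_mul]
  have h1 : ∀ g : ℝ → ℝ, ∫ r in (1 / 2 : ℝ)..2, g r = ∫ r in Icc (1 / 2 : ℝ) 2, g r := by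
    intro g
    rw [intervalIntegral.integral_of_le (by norm_num), ← integral_Icc_eq_integral_Ioc]
  simp only [h1]
  rw [h0]
  have e1 : ∀ z : Sp d, κ z * ∫ r in Icc (1 / 2 : ℝ) 2, c r * H (r, z) =
      ∫ r in Icc (1 / 2 : ℝ) 2, (κ z * c r) * H (r, z) := by
    intro z
    rw [← integral_const_mul]
    congr 1
    funext r
    ring
  have e2 : ∀ r : ℝ, c r * ∫ z, κ z * H (r, z) =
      ∫ z in closedBall (0 : Sp d) 1, (κ z * c r) * H (r, z) := by
    intro r
    rw [h0, ← integral_const_mul]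
    congr 1
    funext z
    ring
  simp only [e1, e2]
  exact integral_integral_swap hi

lemma giA_cont {ε : ℝ} {κ : Sp d → ℝ} (hκ : GiK κ) {F : ℝ × Sp d → ℝ} (hF : Continuous F)
    (y : Sp d) : Continuous fun r => giA ε κ F r y := by
  have h0 : ∀ r, giA ε κ F r y =
      ∫ z in closedBall (0 : Sp d) 1, κ z * F (r, y + (ε * r) • z) := by
    intro r
    unfold giA
    rw [setIntegral_eq_integral_of_forall_compl_eq_zero]
    intro z hz
    rw [mem_closedBall, dist_zero_right, not_le] at hz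
    rw [hκ.2 z hz.le, zero_mul]
  simp only [h0]
  apply continuous_parametric_integral_of_continuous _ (isCompact_closedBall _ _)
  have := hκ.1
  show Continuous fun q : ℝ × Sp d => κ q.2 * F (q.1, y + (ε * q.1) • q.2)
  fun_prop

lemma gi_curve {F : ℝ × Sp d → ℝ} (hF : ContDiff ℝ ∞ F) (ε : ℝ) (y z : Sp d) (r : ℝ) :
    HasDerivAt (fun r => F (r, y + (ε * r) • z))
      (giD (1, ε • z) F (r, y + (ε * r) • z)) r := by
  have h1 : HasDerivAt (fun r : ℝ => (r, y + (ε * r) • z)) ((1 : ℝ), ε • z) r := by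
    apply (hasDerivAt_id r).prodMk
    have := (((hasDerivAt_id r).const_mul ε).smul_const z).const_add y
    simpa using this
  have h2 : HasFDerivAt F (fderiv ℝ F (r, y + (ε * r) • z)) (r, y + (ε * r) • z) :=
    ((hF.differentiable (by simp)) _).hasFDerivAt
  exact h2.comp_hasDerivAt r h1

/-- the smooth part: identity for G -/
lemma gi_GG {β : Sp d → ℝ} (hβ : GiK β) {f : ℝ × Sp d → ℝ} (hf : ContDiff ℝ ∞ f) (ε : ℝ)
    (y : Sp d) :
    giA ε β f 1 y - 2 / 3 * giA ε β f (1 / 2) y - 1 / 3 * giA ε β f 2 y =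
      -∫ r in (1 / 2 : ℝ)..2, tau 1 r *
        ∫ z, β z * iteratedFDeriv ℝ 2 f (r, y + (ε * r) • z) (fun _ => ((1 : ℝ), ε • z)) := by
  have hc : ∀ r : ℝ, Continuous fun z : Sp d => f (r, y + (ε * r) • z) := fun r =>
    (gi_ray_smooth hf r (ε * r) y).continuous
  have hc2 : Continuous (iteratedFDeriv ℝ 2 f) :=
    hf.continuous_iteratedFDeriv (WithTop.coe_le_coe.2 le_top)
  have hH : Continuous fun q : ℝ × Sp d =>
      iteratedFDeriv ℝ 2 f (q.1, y + (ε * q.1) • q.2) (fun _ => ((1 : ℝ), ε • q.2)) := by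
    simp only [gi_exp1 hf]
    have a1 := (giT_smooth (giT_smooth hf)).continuous
    have a2 : ∀ j : Fin d, Continuous (giD (0, giE j) (giT f)) := fun j =>
      (giD_smooth _ (giT_smooth hf)).continuous
    have a3 : ∀ i j : Fin d, Continuous (giD (0, giE i) (giD (0, giE j) f)) := fun i j =>
      (giD_smooth _ (giD_smooth _ hf)).continuous
    fun_prop
  have key : ∀ z : Sp d, f (1, y + (ε * 1) • z) - 2 / 3 * f (1 / 2, y + (ε * (1 / 2)) • z) -
      1 / 3 * f (2, y + (ε * 2) • z) = -∫ r in (1 / 2 : ℝ)..2, tau 1 r *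
        iteratedFDeriv ℝ 2 f (r, y + (ε * r) • z) (fun _ => ((1 : ℝ), ε • z)) := by
    intro z
    apply tent_ibp (φ := fun r => f (r, y + (ε * r) • z))
      (φ1 := fun r => giD (1, ε • z) f (r, y + (ε * r) • z))
      (φ2 := fun r => iteratedFDeriv ℝ 2 f (r, y + (ε * r) • z) (fun _ => ((1 : ℝ), ε • z)))
    · exact fun r => gi_curve hf ε y z r
    · intro r
      rw [giD_it2 _ hf]
      exact gi_curve (giD_smooth _ hf) ε y z r
    · exact hH.comp (continuous_id.prodMk continuous_const : Continuous fun r : ℝ => (r, z))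
  rw [← gi_conv' tau_cont hβ (H := fun q => iteratedFDeriv ℝ 2 f (q.1, y + (ε * q.1) • q.2)
    (fun _ => ((1 : ℝ), ε • q.2))) hH, ← integral_neg]
  have e : ∀ z : Sp d, -(β z * ∫ r in (1 / 2 : ℝ)..2, tau 1 r *
        iteratedFDeriv ℝ 2 f (r, y + (ε * r) • z) (fun _ => ((1 : ℝ), ε • z))) =
      β z * f (1, y + (ε * 1) • z) - 2 / 3 * (β z * f (1 / 2, y + (ε * (1 / 2)) • z)) -
      1 / 3 * (β z * f (2, y + (ε * 2) • z)) := by
    intro z
    have := key z
    linear_combination (-β z) * this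
  rw [integral_congr_ae (Filter.Eventually.of_forall e)]
  have j1 := hβ.int (hc 1)
  have j2 := (hβ.int (hc (1 / 2))).const_mul (2 / 3)
  have j3 := (hβ.int (hc 2)).const_mul (1 / 3)
  have j12 : Integrable fun z => β z * f (1, y + (ε * 1) • z) -
      2 / 3 * (β z * f (1 / 2, y + (ε * (1 / 2)) • z)) := j1.sub j2
  rw [integral_sub j12 j3, integral_sub j1 j2, integral_const_mul, integral_const_mul]
  rfl

/-- one term of W -/
lemma gi_term (ε : ℝ) {c : ℝ → ℝ} (hc : Continuous c) {κ : Sp d → ℝ} (hκ : GiK κ)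
    {F : ℝ × Sp d → ℝ} (hF : ContDiff ℝ ∞ F) :
    ∃ D : Sp d → Sp d → ℝ, GiGood (fun y => ∫ r in (1 / 2 : ℝ)..2, c r * giA ε κ F r y) D ∧
      (∀ y, ∑ j : Fin d, D (giE j) y = ∫ r in (1 / 2 : ℝ)..2, c r * giA ε κ (giL F) r y) ∧
      ∀ n y, D n y = ∫ r in (1 / 2 : ℝ)..2, c r * giA ε κ (giN n F) r y := by
  have hκ1 := hκ.1
  have hK : Continuous fun x : ℝ × Sp d => c x.1 * κ x.2 := by fun_prop
  have hΨ : Continuous fun x : ℝ × Sp d => (x.1, (ε * x.1) • x.2) := by fun_prop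
  have conv : ∀ {F : ℝ × Sp d → ℝ}, ContDiff ℝ ∞ F → ∀ y,
      ∫ r in (1 / 2 : ℝ)..2, c r * giA ε κ F r y =
      ∫ x in giS d, (c x.1 * κ x.2) * F ((x.1, (ε * x.1) • x.2) + (0, y)) := by
    intro F hF y
    have hH : Continuous fun x : ℝ × Sp d => F (x.1, y + (ε * x.1) • x.2) := by
      have := hF.continuous
      fun_prop
    have := gi_conv hc hκ hH
    unfold giA
    rw [this]
    congr 1
    funext x
    rw [Prod.mk_add_mk, add_zero, add_comm y]
  refine ⟨fun h y => ∫ x in giS d, (c x.1 * κ x.2) *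
      giD (0, h) (giD (0, h) F) ((x.1, (ε * x.1) • x.2) + (0, y)), ?_, ?_, ?_⟩
  · have := giI_good giS_compact hK hΨ hF
    have e : (fun y => ∫ r in (1 / 2 : ℝ)..2, c r * giA ε κ F r y) = fun y =>
        ∫ x in giS d, (c x.1 * κ x.2) * F ((x.1, (ε * x.1) • x.2) + (0, y)) := by
      funext y
      exact conv hF y
    rw [e]
    exact this
  · intro y
    rw [conv (giL_smooth hF) y, ← integral_finsetSum]
    · congr 1
      funext x
      unfold giL
      rw [Finset.mul_sum]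
    · intro j _
      have := (giD_smooth (0, giE j) (giD_smooth (0, giE j) hF)).continuous
      exact (by fun_prop : Continuous fun x : ℝ × Sp d => (c x.1 * κ x.2) *
        giD (0, giE j) (giD (0, giE j) F) ((x.1, (ε * x.1) • x.2) +
        (0, y))).continuousOn.integrableOn_compact giS_compact
  · intro n y
    rw [conv (giN_smooth n hF) y]
    rfl

lemma gi_lin {P a b c a' b' c' Q : ℝ → ℝ} (hP : IntervalIntegrable P volume (1 / 2) 2)
    (ha : IntervalIntegrable a volume (1 / 2) 2) (hb : IntervalIntegrable b volume (1 / 2) 2)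
    (hc : IntervalIntegrable c volume (1 / 2) 2) (ha' : IntervalIntegrable a' volume (1 / 2) 2)
    (hb' : IntervalIntegrable b' volume (1 / 2) 2) (hc' : IntervalIntegrable c' volume (1 / 2) 2)
    (h : ∀ r, Q r = -P r - (a r + b r + c r) + (a' r + b' r + c' r)) :
    (-∫ r in (1 / 2 : ℝ)..2, P r) - ((∫ r in (1 / 2 : ℝ)..2, a r) +
      (∫ r in (1 / 2 : ℝ)..2, b r) + ∫ r in (1 / 2 : ℝ)..2, c r) +
      ((∫ r in (1 / 2 : ℝ)..2, a' r) +
      (∫ r in (1 / 2 : ℝ)..2, b' r) + ∫ r in (1 / 2 : ℝ)..2, c' r) =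
      ∫ r in (1 / 2 : ℝ)..2, Q r := by
  have e1 := intervalIntegral.integral_add (hP.neg.sub ((ha.add hb).add hc))
    ((ha'.add hb').add hc')
  have e2 := intervalIntegral.integral_sub hP.neg ((ha.add hb).add hc)
  have e3 := intervalIntegral.integral_add (ha.add hb) hc
  have e4 := intervalIntegral.integral_add ha hb
  have e5 := intervalIntegral.integral_add (ha'.add hb') hc'
  have e6 := intervalIntegral.integral_add ha' hb'
  have e7 : ∫ r in (1 / 2 : ℝ)..2, -P r = -∫ r in (1 / 2 : ℝ)..2, P r :=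
    intervalIntegral.integral_neg
  simp only [Pi.add_apply, Pi.sub_apply, Pi.neg_apply] at e1 e2 e3 e4 e5 e6
  simp only [h]
  linarith

/-- the identity for a globally smooth function -/
lemma gi_smooth {β B B2 : Sp d → ℝ} (hβ : GiK β) (hB : GiK B) (hB2 : GiK B2)
    (hg : ∀ x, HasGradientAt B (-(β x) • x) x) (hg' : ∀ x, HasGradientAt B2 (-(B x) • x) x)
    {f : ℝ × Sp d → ℝ} (hf : ContDiff ℝ ∞ f) {n : Sp d} (hn : ‖n‖ = 1) (ε : ℝ) (y : Sp d)
    (W : Sp d → ℝ) (hW : ∀ y, W y = ∫ r in (1 / 2 : ℝ)..2, tau 1 r *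
      (giA ε β f r y - 2 * ε ^ 2 * r * giA ε B (giT f) r y -
        ε ^ 4 * r ^ 2 * giA ε B2 (giL f) r y)) :
    giA ε β f 1 y - 2 / 3 * giA ε β f (1 / 2) y - 1 / 3 * giA ε β f 2 y
      - lap W y + d2 n W y =
    ∫ r in (1 / 2 : ℝ)..2, tau 1 r * -(∫ z, β z * (iteratedFDeriv ℝ 2 f (r, y + (ε * r) • z)
        (fun _ => ((1 : ℝ), (ε * ⟪z, n⟫_ℝ) • n)) +
        (1 + (ε * ⟪z, n⟫_ℝ) ^ 2) *
          (giL f (r, y + (ε * r) • z) - giN n f (r, y + (ε * r) • z)))) := by
  have hT := giT_smooth hf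
  have hL := giL_smooth hf
  have tc := tau_cont
  have cc1 : Continuous (tau 1) := tc
  have cc2 : Continuous fun r => -(2 * ε ^ 2 * r * tau 1 r) := by fun_prop
  have cc3 : Continuous fun r => -(ε ^ 4 * r ^ 2 * tau 1 r) := by fun_prop
  obtain ⟨D1, g1, l1, m1⟩ := gi_term ε cc1 hβ hf
  obtain ⟨D2, g2, l2, m2⟩ := gi_term ε cc2 hB hT
  obtain ⟨D3, g3, l3, m3⟩ := gi_term ε cc3 hB2 hL
  have cA : ∀ {κ : Sp d → ℝ} {F : ℝ × Sp d → ℝ}, GiK κ → ContDiff ℝ ∞ F → ∀ y,
      Continuous fun r => giA ε κ F r y := fun hκ hF y => giA_cont hκ hF.continuous y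
  have hWe : W = fun y => (∫ r in (1 / 2 : ℝ)..2, tau 1 r * giA ε β f r y) +
      (∫ r in (1 / 2 : ℝ)..2, -(2 * ε ^ 2 * r * tau 1 r) * giA ε B (giT f) r y) +
      ∫ r in (1 / 2 : ℝ)..2, -(ε ^ 4 * r ^ 2 * tau 1 r) * giA ε B2 (giL f) r y := by
    funext y
    have i1 : IntervalIntegrable (fun r => tau 1 r * giA ε β f r y) volume (1 / 2) 2 :=
      (cc1.mul (cA hβ hf y)).intervalIntegrable _ _
    have i2 : IntervalIntegrable (fun r => -(2 * ε ^ 2 * r * tau 1 r) * giA ε B (giT f) r y)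
        volume (1 / 2) 2 := (cc2.mul (cA hB hT y)).intervalIntegrable _ _
    have i3 : IntervalIntegrable (fun r => -(ε ^ 4 * r ^ 2 * tau 1 r) * giA ε B2 (giL f) r y)
        volume (1 / 2) 2 := (cc3.mul (cA hB2 hL y)).intervalIntegrable _ _
    have i12 : IntervalIntegrable (fun r => tau 1 r * giA ε β f r y +
        -(2 * ε ^ 2 * r * tau 1 r) * giA ε B (giT f) r y) volume (1 / 2) 2 := i1.add i2
    rw [hW y, ← intervalIntegral.integral_add i1 i2, ← intervalIntegral.integral_add i12 i3]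
    congr 1
    funext r
    ring
  have good := (g1.add g2).add g3
  rw [← hWe] at good
  have hlap : lap W y = (∫ r in (1 / 2 : ℝ)..2, tau 1 r * giA ε β (giL f) r y) +
      (∫ r in (1 / 2 : ℝ)..2, -(2 * ε ^ 2 * r * tau 1 r) * giA ε B (giL (giT f)) r y) +
      ∫ r in (1 / 2 : ℝ)..2, -(ε ^ 4 * r ^ 2 * tau 1 r) * giA ε B2 (giL (giL f)) r y := by
    rw [good.lap_eq, ← l1, ← l2, ← l3, Finset.sum_add_distrib, Finset.sum_add_distrib]
  have hd2 : d2 n W y = (∫ r in (1 / 2 : ℝ)..2, tau 1 r * giA ε β (giN n f) r y) +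
      (∫ r in (1 / 2 : ℝ)..2, -(2 * ε ^ 2 * r * tau 1 r) * giA ε B (giN n (giT f)) r y) +
      ∫ r in (1 / 2 : ℝ)..2, -(ε ^ 4 * r ^ 2 * tau 1 r) * giA ε B2 (giN n (giL f)) r y := by
    rw [good.d2_eq, ← m1, ← m2, ← m3]
  rw [gi_GG hβ hf, hlap, hd2]
  simp only [gi_W hβ hB hB2 hg hg' hf, gi_G hβ hB hB2 hg hg' hf hn]
  have q1 := cA hβ (giT_smooth hT) y
  have q2 := cA hB (giL_smooth hT) y
  have q3 := cA hB (giL_smooth hf) y
  have q4 := cA hB2 (giL_smooth hL) y
  have q5 := cA hβ (giL_smooth hf) y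
  have q6 := cA hβ (giN_smooth n hf) y
  have q7 := cA hB (giN_smooth n hT) y
  have q8 := cA hB2 (giN_smooth n hL) y
  have r1 : IntervalIntegrable (fun r => tau 1 r * (giA ε β (giT (giT f)) r y +
      2 * ε ^ 2 * r * giA ε B (giL (giT f)) r y +
      ε ^ 2 * giA ε B (giL f) r y + ε ^ 4 * r ^ 2 * giA ε B2 (giL (giL f)) r y))
      volume (1 / 2) 2 := (by fun_prop : Continuous _).intervalIntegrable _ _
  have r2 : IntervalIntegrable (fun r => tau 1 r * giA ε β (giL f) r y) volume (1 / 2) 2 :=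
    (by fun_prop : Continuous _).intervalIntegrable _ _
  have r3 : IntervalIntegrable (fun r => -(2 * ε ^ 2 * r * tau 1 r) * giA ε B (giL (giT f)) r y)
      volume (1 / 2) 2 := (by fun_prop : Continuous _).intervalIntegrable _ _
  have r4 : IntervalIntegrable (fun r => -(ε ^ 4 * r ^ 2 * tau 1 r) * giA ε B2 (giL (giL f)) r y)
      volume (1 / 2) 2 := (by fun_prop : Continuous _).intervalIntegrable _ _
  have r5 : IntervalIntegrable (fun r => tau 1 r * giA ε β (giN n f) r y) volume (1 / 2) 2 :=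
    (by fun_prop : Continuous _).intervalIntegrable _ _
  have r6 : IntervalIntegrable (fun r => -(2 * ε ^ 2 * r * tau 1 r) * giA ε B (giN n (giT f)) r y)
      volume (1 / 2) 2 := (by fun_prop : Continuous _).intervalIntegrable _ _
  have r7 : IntervalIntegrable (fun r => -(ε ^ 4 * r ^ 2 * tau 1 r) * giA ε B2 (giN n (giL f)) r y)
      volume (1 / 2) 2 := (by fun_prop : Continuous _).intervalIntegrable _ _
  refine gi_lin r1 r2 r3 r4 r5 r6 r7 ?_
  intro r
  ring

/-- cutoff in time -/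
def giRho (t : ℝ) : ℝ := Real.smoothTransition (8 * t - 1)

lemma giRho_one {t : ℝ} (h : 1 / 4 ≤ t) : giRho t = 1 :=
  Real.smoothTransition.one_of_one_le (by linarith)

lemma giRho_zero {t : ℝ} (h : t ≤ 1 / 8) : giRho t = 0 :=
  Real.smoothTransition.zero_of_nonpos (by linarith)

lemma gi_ext {v : ℝ × Sp d → ℝ} (hv : ContDiffOn ℝ ∞ v {p | 0 < p.1}) :
    ContDiff ℝ ∞ (fun p => giRho p.1 * v p) := by
  rw [contDiff_iff_contDiffAt]
  intro p
  have hr : ContDiff ℝ ∞ (fun p : ℝ × Sp d => giRho p.1) := by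
    unfold giRho
    exact Real.smoothTransition.contDiff.comp ((contDiff_const.mul contDiff_fst).sub contDiff_const)
  by_cases hp : 0 < p.1
  · exact hr.contDiffAt.mul (hv.contDiffAt
      ((isOpen_lt continuous_const continuous_fst).mem_nhds hp))
  · have : (fun p : ℝ × Sp d => giRho p.1 * v p) =ᶠ[nhds p] fun _ => 0 := by
      have ho : {q : ℝ × Sp d | q.1 < 1 / 8} ∈ nhds p :=
        (isOpen_lt continuous_fst continuous_const).mem_nhds
          (show p.1 < 1 / 8 by push Not at hp; linarith)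
      filter_upwards [ho] with q hq
      rw [giRho_zero (le_of_lt hq), zero_mul]
    exact contDiffAt_const.congr_of_eventuallyEq this

theorem stmtGI (hTH : StmtTH) : StmtGI := by
  intro d J hd hJ M ε hε hε1 β hK C' μ hC' hμ n hn y
  obtain ⟨_, _, hC⟩ := hTH d 0 hd C' hC'
  obtain ⟨_, hv, _⟩ := hC μ hμ
  have hf := gi_ext hv
  set f : ℝ × Sp d → ℝ := fun p => giRho p.1 * vv μ p.1 p.2 with hfdef
  have hβ : GiK β := ⟨hK.prof.smooth.continuous, hK.prof.supp⟩
  have hB : GiK (Bp β) := ⟨hK.smooth1.continuous, hK.supp1⟩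
  have hB2 : GiK (Bp (Bp β)) := ⟨hK.smooth2.continuous, hK.supp2⟩
  have v1 : ∀ t : ℝ, 1 / 4 ≤ t → ∀ x, vv μ t x = f (t, x) := by
    intro t ht x
    simp only [hfdef, giRho_one ht, one_mul]
  have v1' : ∀ t : ℝ, 1 / 4 ≤ t → vv μ t = fun x => f (t, x) := by
    intro t ht
    funext x
    exact v1 t ht x
  have v2 : ∀ t : ℝ, 1 / 4 < t → ∀ x, dtv μ t x = giT f (t, x) := by
    intro t ht x
    unfold dtv
    have : (fun s => vv μ s x) =ᶠ[nhds t] fun s => f (s, x) := by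
      filter_upwards [lt_mem_nhds ht] with s hs
      exact v1 s hs.le x
    rw [this.deriv_eq]
    have h1 : HasDerivAt (fun s : ℝ => (s, x)) ((1 : ℝ), (0 : Sp d)) t :=
      (hasDerivAt_id t).prodMk (hasDerivAt_const t x)
    have h2 : HasFDerivAt f (fderiv ℝ f (t, x)) (t, x) :=
      ((hf.differentiable (by simp)) _).hasFDerivAt
    exact (h2.comp_hasDerivAt t h1).deriv
  have v3 : ∀ t : ℝ, 1 / 4 ≤ t → ∀ x, lap (vv μ t) x = giL f (t, x) := by
    intro t ht x
    rw [v1' t ht, lap_slice t hf]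
  have v4 : ∀ t : ℝ, 1 / 4 ≤ t → ∀ x, d2 n (vv μ t) x = giN n f (t, x) := by
    intro t ht x
    rw [v1' t ht, d2_slice n t hf]
  have v5 : ∀ t : ℝ, 1 / 4 < t → ∀ x,
      iteratedFDeriv ℝ 2 (fun p : ℝ × Sp d => vv μ p.1 p.2) (t, x) =
        iteratedFDeriv ℝ 2 f (t, x) := by
    intro t ht x
    have : (fun p : ℝ × Sp d => vv μ p.1 p.2) =ᶠ[nhds (t, x)] f := by
      have ho : {q : ℝ × Sp d | 1 / 4 < q.1} ∈ nhds (t, x) :=
        (isOpen_lt continuous_const continuous_fst).mem_nhds ht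
      filter_upwards [ho] with q hq
      exact v1 q.1 (le_of_lt hq) q.2
    exact (Filter.EventuallyEq.iteratedFDeriv ℝ this 2).eq_of_nhds
  have w1 : ∀ t : ℝ, 1 / 4 ≤ t → ∀ y, wv β ε μ t y = giA ε β f t y := by
    intro t ht y
    unfold wv giA
    simp only [v1 t ht]
  have w2 : ∀ t : ℝ, 1 / 4 < t → ∀ y, wt β ε μ t y = giA ε β f t y -
      2 * ε ^ 2 * t * giA ε (Bp β) (giT f) t y -
        ε ^ 4 * t ^ 2 * giA ε (Bp (Bp β)) (giL f) t y := by
    intro t ht y
    unfold wt giA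
    simp only [v1 t ht.le, v2 t ht, v3 t ht.le]
    have k1 := hβ.int (gi_ray_smooth hf t (ε * t) y).continuous
    have k2 := (hB.int (gi_ray_smooth (giT_smooth hf) t (ε * t) y).continuous).const_mul
      (2 * ε ^ 2 * t)
    have k3 := (hB2.int (gi_ray_smooth (giL_smooth hf) t (ε * t) y).continuous).const_mul
      (ε ^ 4 * t ^ 2)
    have k12 : Integrable fun z => β z * f (t, y + (ε * t) • z) -
        2 * ε ^ 2 * t * (Bp β z * giT f (t, y + (ε * t) • z)) := k1.sub k2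
    rw [integral_sub k12 k3, integral_sub k1 k2, integral_const_mul, integral_const_mul]
  have hW : ∀ y, WW β ε μ 1 y = ∫ r in (1 / 2 : ℝ)..2, tau 1 r *
      (giA ε β f r y - 2 * ε ^ 2 * r * giA ε (Bp β) (giT f) r y -
        ε ^ 4 * r ^ 2 * giA ε (Bp (Bp β)) (giL f) r y) := by
    intro y
    unfold WW
    rw [show (2 : ℝ) * 1 = 2 by norm_num]
    apply intervalIntegral.integral_congr
    intro r hr
    rw [uIcc_of_le (by norm_num)] at hr
    show tau 1 r * wt β ε μ r y = _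
    rw [w2 r (by linarith [hr.1])]
  have hmain := gi_smooth hβ hB hB2 hK.grad1 hK.grad2 hf hn ε y (WW β ε μ 1) hW
  have hGG : GG β ε μ 1 y = giA ε β f 1 y - 2 / 3 * giA ε β f (1 / 2) y -
      1 / 3 * giA ε β f 2 y := by
    unfold GG
    rw [show (2 : ℝ) * 1 = 2 by norm_num, w1 1 (by norm_num), w1 (1 / 2) (by norm_num),
      w1 2 (by norm_num)]
  unfold gn
  rw [hGG, hmain]
  apply intervalIntegral.integral_congr
  intro r hr
  rw [uIcc_of_le (by norm_num)] at hr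
  have hr' : (1 : ℝ) / 4 < r := by linarith [hr.1]
  show _ = tau 1 r * gr β ε μ n r y
  unfold gr
  simp only [v5 r hr', v3 r hr'.le, v4 r hr'.le]

end

end TG


end

section

/-!
# MODULE TT, part 1: interpolation in the slab (helper37)
-/

open MeasureTheory Metric Set Filter Topology TrI
open scoped InnerProductSpace ContDiff

set_option linter.unusedSectionVars false

namespace TG

noncomputable section

variable {d : ℕ} {G : Type*} [NormedAddCommGroup G] [NormedSpace ℝ G]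

/-- the region 1/2 ≤ t ≤ 2, |x - y| ≤ ρ -/
def ttK (y : Sp d) (ρ : ℝ) : Set (ℝ × Sp d) := Icc (1 / 2 : ℝ) 2 ×ˢ closedBall y ρ

lemma ttK_convex (y : Sp d) (ρ : ℝ) : Convex ℝ (ttK y ρ) :=
  (convex_Icc _ _).prod (convex_closedBall _ _)

lemma ttK_mono (y : Sp d) {ρ ρ' : ℝ} (h : ρ' ≤ ρ) : ttK y ρ' ⊆ ttK y ρ :=
  prod_mono_right (closedBall_subset_closedBall h)

lemma tt_lip {f : ℝ × Sp d → G} (hf : ContDiff ℝ ∞ f) (l : ℕ) (y : Sp d) {ρ A : ℝ}
    (h2 : ∀ p ∈ ttK y ρ, ‖iteratedFDeriv ℝ (l + 2) f p‖ ≤ A) {p q : ℝ × Sp d}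
    (hp : p ∈ ttK y ρ) (hq : q ∈ ttK y ρ) :
    ‖fderiv ℝ (iteratedFDeriv ℝ l f) p - fderiv ℝ (iteratedFDeriv ℝ l f) q‖ ≤ A * ‖p - q‖ := by
  have h3 : ∀ x, DifferentiableAt ℝ (iteratedFDeriv ℝ (l + 1) f) x := fun x =>
    (hf.differentiable_iteratedFDeriv (m := l + 1) (by exact_mod_cast WithTop.coe_lt_top _)) x
  have h4 := (ttK_convex y ρ).norm_image_sub_le_of_norm_fderiv_le (𝕜 := ℝ)
    (f := iteratedFDeriv ℝ (l + 1) f) (fun x _ => h3 x) (C := A)
    (fun x hx => by rw [norm_fderiv_iteratedFDeriv]; exact h2 x hx) hq hp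
  rw [fderiv_iteratedFDeriv]
  simp only [Function.comp_apply]
  refine le_trans (le_of_eq ?_) h4
  refine Eq.trans ?_ (LinearIsometryEquiv.norm_map (continuousMultilinearCurryLeftEquiv ℝ
    (fun _ : Fin (l + 1) => ℝ × Sp d) G) _)
  rw [LinearIsometryEquiv.map_sub]

/-- one step of interpolation -/
lemma tt_step {f : ℝ × Sp d → G} (hf : Differentiable ℝ f) (y : Sp d) {ρ ρ' s m A : ℝ}
    (hs : 0 < s) (hs1 : s ≤ 1 / 2) (hρ : ρ' + s ≤ ρ) (hA : 0 ≤ A)
    (h0 : ∀ p ∈ ttK y ρ, ‖f p‖ ≤ m)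
    (h2 : ∀ p ∈ ttK y ρ, ∀ q ∈ ttK y ρ, ‖fderiv ℝ f p - fderiv ℝ f q‖ ≤ A * ‖p - q‖)
    {p : ℝ × Sp d} (hp : p ∈ ttK y ρ') : ‖fderiv ℝ f p‖ ≤ 2 * m / s + A * s := by
  have hp' : p ∈ ttK y ρ := ttK_mono y (by linarith) hp
  have hm : 0 ≤ m := (norm_nonneg _).trans (h0 p hp')
  refine ContinuousLinearMap.opNorm_le_bound _ (by positivity) fun h => ?_
  by_cases hh : h = 0
  · simp [hh]
  have hn : 0 < ‖h‖ := norm_pos_iff.mpr hh
  -- a sign
  obtain ⟨σ, hσ, hσ1, hσ2⟩ : ∃ σ : ℝ, |σ| = 1 ∧ 1 / 2 ≤ p.1 + σ * (s / ‖h‖) * h.1 ∧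
      p.1 + σ * (s / ‖h‖) * h.1 ≤ 2 := by
    have h1 : |(s / ‖h‖) * h.1| ≤ 1 / 2 := by
      have h3 : |h.1| ≤ ‖h‖ := norm_fst_le h
      rw [abs_mul, abs_of_pos (by positivity : 0 < s / ‖h‖), div_mul_eq_mul_div,
        div_le_iff₀ hn]
      nlinarith only [hs, h3, hs1, hn]
    have hp1 : 1 / 2 ≤ p.1 ∧ p.1 ≤ 2 := hp.1
    rw [abs_le] at h1
    by_cases ha : p.1 ≤ 1
    · by_cases hb : 0 ≤ (s / ‖h‖) * h.1
      · exact ⟨1, by simp, by linarith only [hp1, hb], by linarith only [h1, ha]⟩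
      · exact ⟨-1, by simp, by linarith only [hp1, hb], by linarith only [h1, ha]⟩
    · by_cases hb : 0 ≤ (s / ‖h‖) * h.1
      · exact ⟨-1, by simp, by linarith only [h1, ha], by linarith only [hp1, hb]⟩
      · exact ⟨1, by simp, by linarith only [h1, ha], by linarith only [hp1, hb]⟩
  set u : ℝ × Sp d := (σ * (s / ‖h‖)) • h with hu
  have hun : ‖u‖ = s := by
    rw [hu, norm_smul, norm_mul, Real.norm_eq_abs, hσ, one_mul, Real.norm_eq_abs,
      abs_of_pos (by positivity : 0 < s / ‖h‖)]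
    field_simp
  have hq : p + u ∈ ttK y ρ := by
    refine ⟨⟨by simpa [hu] using hσ1, by simpa [hu] using hσ2⟩, ?_⟩
    have h3 : ‖u.2‖ ≤ s := (norm_snd_le u).trans hun.le
    have h4 : dist p.2 y ≤ ρ' := hp.2
    rw [mem_closedBall]
    calc dist (p + u).2 y ≤ dist (p + u).2 p.2 + dist p.2 y := dist_triangle _ _ _
      _ = ‖u.2‖ + dist p.2 y := by simp [dist_eq_norm]
      _ ≤ ρ := by linarith
  have hT : Convex ℝ (ttK y ρ ∩ closedBall p s) := (ttK_convex y ρ).inter (convex_closedBall _ _)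
  have h5 := hT.norm_image_sub_le_of_norm_fderiv_le' (𝕜 := ℝ) (f := f) (φ := fderiv ℝ f p)
    (C := A * s) (fun x _ => hf x) (fun x hx => (h2 x hx.1 p hp').trans (by
      have h6 : ‖x - p‖ ≤ s := by
        have := hx.2
        rwa [mem_closedBall, dist_eq_norm] at this
      exact mul_le_mul_of_nonneg_left h6 hA)) (x := p) (y := p + u)
    ⟨hp', mem_closedBall_self hs.le⟩ ⟨hq, by
      rw [mem_closedBall, dist_eq_norm, add_sub_cancel_left]; exact hun.le⟩
  rw [add_sub_cancel_left, hun] at h5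
  have h6 : ‖fderiv ℝ f p u‖ ≤ 2 * m + A * s * s := by
    have e : fderiv ℝ f p u = (f (p + u) - f p) - (f (p + u) - f p - fderiv ℝ f p u) := by abel
    rw [e]
    refine (norm_sub_le _ _).trans ?_
    have h7 : ‖f (p + u) - f p‖ ≤ m + m := (norm_sub_le _ _).trans
      (add_le_add (h0 _ hq) (h0 _ hp'))
    linarith
  have h8 : ‖fderiv ℝ f p u‖ = s / ‖h‖ * ‖fderiv ℝ f p h‖ := by
    rw [hu, map_smul, norm_smul, norm_mul, Real.norm_eq_abs, hσ, one_mul, Real.norm_eq_abs,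
      abs_of_pos (by positivity : 0 < s / ‖h‖)]
  rw [h8] at h6
  have h9 : ‖fderiv ℝ f p h‖ = (s / ‖h‖ * ‖fderiv ℝ f p h‖) * (‖h‖ / s) := by
    field_simp
  rw [h9]
  calc (s / ‖h‖ * ‖fderiv ℝ f p h‖) * (‖h‖ / s) ≤ (2 * m + A * s * s) * (‖h‖ / s) :=
        mul_le_mul_of_nonneg_right h6 (by positivity)
    _ = _ := by field_simp

/-- interpolation: all derivatives are small -/
lemma tt_interp (j : ℕ) : ∀ A η : ℝ, 0 < A → 0 < η → ∃ i0 : ℝ, 0 < i0 ∧
    ∀ (f : ℝ × Sp d → G) (y : Sp d) (S : ℝ), ContDiff ℝ ∞ f → 0 ≤ S →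
      (∀ l ≤ j + 1, ∀ p ∈ ttK y 1, ‖iteratedFDeriv ℝ l f p‖ ≤ A * S) →
      (∀ p ∈ ttK y 1, ‖f p‖ ≤ i0 * S) →
      ∀ l ≤ j, ∀ p ∈ ttK y (1 / 2 + (1 / 2) ^ (j + 1)), ‖iteratedFDeriv ℝ l f p‖ ≤ η * S := by
  induction j with
  | zero =>
    intro A η hA hη
    refine ⟨η, hη, fun f y S hf hS h1 h2 l hl p hp => ?_⟩
    obtain rfl : l = 0 := by omega
    rw [norm_iteratedFDeriv_zero]
    refine h2 p ?_
    have : (1 / 2 + (1 / 2) ^ (0 + 1) : ℝ) = 1 := by norm_num
    rwa [this] at hp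
  | succ j ih =>
    intro A η hA hη
    set s : ℝ := min ((1 / 2) ^ (j + 2)) (η / (2 * A)) with hs
    have hs0 : 0 < s := lt_min (by positivity) (by positivity)
    have hs1 : s ≤ (1 / 2) ^ (j + 2) := min_le_left _ _
    have hs2 : A * s ≤ η / 2 := by
      have : s ≤ η / (2 * A) := min_le_right _ _
      calc A * s ≤ A * (η / (2 * A)) := mul_le_mul_of_nonneg_left this hA.le
        _ = η / 2 := by field_simp
    have hpow : ((1 / 2 : ℝ)) ^ (j + 2) ≤ 1 / 2 := by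
      calc ((1 / 2 : ℝ)) ^ (j + 2) ≤ (1 / 2) ^ 1 :=
            pow_le_pow_of_le_one (by norm_num) (by norm_num) (by omega)
        _ = 1 / 2 := by norm_num
    obtain ⟨i0, hi0, h0⟩ := ih A (min η (η * s / 4)) hA (lt_min hη (by positivity))
    refine ⟨i0, hi0, fun f y S hf hS h1 h2 l hl p hp => ?_⟩
    have h3 := h0 f y S hf hS (fun l hl => h1 l (by omega)) h2
    have hρ : (1 / 2 + (1 / 2) ^ (j + 1 + 1) : ℝ) + s ≤ 1 / 2 + (1 / 2) ^ (j + 1) := by
      have : ((1 / 2 : ℝ)) ^ (j + 1) = (1 / 2) ^ (j + 2) + (1 / 2) ^ (j + 2) := by ring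
      rw [this, show j + 1 + 1 = j + 2 by ring]
      linarith
    have hρ1 : (1 / 2 + (1 / 2) ^ (j + 1) : ℝ) ≤ 1 := by
      have : ((1 / 2 : ℝ)) ^ (j + 1) ≤ (1 / 2) ^ 1 :=
        pow_le_pow_of_le_one (by norm_num) (by norm_num) (by omega)
      linarith
    by_cases hlj : l ≤ j
    · refine (h3 l hlj p (ttK_mono y (by linarith) hp)).trans ?_
      exact mul_le_mul_of_nonneg_right (min_le_left _ _) hS
    · obtain rfl : l = j + 1 := by omega
      rw [← norm_fderiv_iteratedFDeriv]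
      have hAS : 0 ≤ A * S := by positivity
      have h4 := tt_step (f := iteratedFDeriv ℝ j f)
        (hf.differentiable_iteratedFDeriv (m := j) (by exact_mod_cast WithTop.coe_lt_top _)) y
        (ρ := 1 / 2 + (1 / 2) ^ (j + 1)) (ρ' := 1 / 2 + (1 / 2) ^ (j + 1 + 1)) (s := s)
        (m := η * s / 4 * S) (A := A * S) hs0 (hs1.trans hpow) hρ hAS
        (fun q hq => (h3 j le_rfl q hq).trans
          (mul_le_mul_of_nonneg_right (min_le_right _ _) hS))
        (fun q hq q' hq' => tt_lip hf j y (ρ := 1) (fun x hx => h1 (j + 2) (by omega) x hx)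
          (ttK_mono y hρ1 hq) (ttK_mono y hρ1 hq')) hp
      refine h4.trans ?_
      have e : 2 * (η * s / 4 * S) / s + A * S * s = (η / 2 + A * s) * S := by
        field_simp
        ring
      rw [e]
      exact mul_le_mul_of_nonneg_right (by linarith only [hs2]) hS

end

end TG


end
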