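import Mathlib
import Pool.Agent.TRM.C01
import Pool.Agent.TRM.C02
import Pool.Agent.TRM.C03
import Pool.Agent.TRM.C07
import Pool.Agent.TRM.C23

/-! Parts: TG.FA2, TG.TT, TG.WBTools, TG.WBTools2, TG.WBE, TG.FA3, TG.FA, TG.WBK -/

section

/-!
# MODULE FA, part 2: the functions q and Υ (MP_287c87_an, helper51)
-/

open MeasureTheory Metric Set Filter Topology TrI
open scoped InnerProductSpace ContDiff

namespace TG

noncomputable section

namespace FAm

open THm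

variable {d : ℕ}

/-- the difference of kernels at height one -/
lemma kk_diff1 (hd1 : 1 ≤ d) {x y : Sp d} (hxy : ‖x - y‖ ≤ 1) (η : Sp d) :
    |kk 1 (x - η) - kk 1 (y - η)| ≤ Kc d * ‖x - y‖ * kk 1 (y - η) := by
  have h := kk_diff hd1 (t := 1) (by norm_num) (by norm_num) (hxy.trans (by norm_num)) η
  rw [one_mul, sub_self, abs_zero, zero_add] at h
  refine h.trans ?_
  have h1 : ‖x - y‖ / rt 1 (x - η) ≤ ‖x - y‖ := div_le_self (norm_nonneg _) (rt_ge_t 1 _)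
  have h2 := THm.kk_nonneg one_pos (y - η)
  have h3 := Kc_nonneg (d := d)
  gcongr

/-- pointwise Lipschitz estimate of the integrand of the numerator -/
lemma num_diff (hd1 : 1 ≤ d) {L : ℝ} (hL0 : 1 ≤ L) (hL : ∀ a b : ℝ,
    |Real.smoothTransition a - Real.smoothTransition b| ≤ L * |a - b|) {A : ℝ}
    (hA : 0 < A) {x y : Sp d} (hxy : ‖x - y‖ ≤ 1) (η : Sp d) :
    |st A (x - η) ^ 2 * kk 1 (x - η) - st A (y - η) ^ 2 * kk 1 (y - η)| ≤
      ‖x - y‖ * (2 * L + 4 * L ^ 2 + 1) * (1 + Kc d) *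
        (st A (y - η) ^ 2 * kk 1 (y - η) + (1 / A ^ 2) * kk 1 (y - η)) := by
  have hK := Kc_nonneg (d := d)
  have hk := kk_diff1 hd1 hxy η
  have hs := st_lip hL hL0 hA x y η
  have hy := THm.kk_nonneg one_pos (y - η)
  have hx := THm.kk_nonneg one_pos (x - η)
  set δ := ‖x - y‖ with hδ
  have hδ0 : 0 ≤ δ := norm_nonneg _
  set a := kk 1 (x - η)
  set b := kk 1 (y - η)
  set u := st A (x - η)
  set w := st A (y - η)
  have hw0 : 0 ≤ w := st_nonneg A _
  have hu0 : 0 ≤ u := st_nonneg A _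
  have hab : a ≤ (1 + Kc d) * b := by
    have := (abs_le.1 hk).2
    have h1 : Kc d * δ * b ≤ Kc d * 1 * b := by gcongr
    linarith
  have h1 : |u ^ 2 - w ^ 2| ≤ δ * (2 * L + 4 * L ^ 2) * (w ^ 2 + 1 / A ^ 2) := by
    have e1 : u ^ 2 - w ^ 2 = (u - w) * (u + w) := by ring
    have e2 : |u + w| ≤ 2 * w + 2 * L / A * δ := by
      rw [abs_of_nonneg (by linarith)]
      have := (abs_le.1 hs).2
      linarith
    rw [e1, abs_mul]
    have e3 : |u - w| * |u + w| ≤ (2 * L / A * δ) * (2 * w + 2 * L / A * δ) :=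
      mul_le_mul hs e2 (abs_nonneg _) (by positivity)
    refine e3.trans ?_
    have e4 : 2 * w * (1 / A) ≤ w ^ 2 + 1 / A ^ 2 := by
      have : 0 ≤ (w - 1 / A) ^ 2 := sq_nonneg _
      have h5 : (1 / A) ^ 2 = 1 / A ^ 2 := by rw [div_pow, one_pow]
      linarith only [this, h5]
    have e5 : δ * δ ≤ δ := by nlinarith only [hxy, hδ0]
    have hA2 : 0 ≤ 1 / A ^ 2 := by positivity
    calc (2 * L / A * δ) * (2 * w + 2 * L / A * δ)
        = 2 * L * δ * (2 * w * (1 / A)) + 4 * L ^ 2 * (δ * δ) * (1 / A ^ 2) := by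
          field_simp
          ring
      _ ≤ 2 * L * δ * (w ^ 2 + 1 / A ^ 2) + 4 * L ^ 2 * δ * (w ^ 2 + 1 / A ^ 2) := by
          gcongr
          linarith only [sq_nonneg w]
      _ = _ := by ring
  have e1 : u ^ 2 * a - w ^ 2 * b = (u ^ 2 - w ^ 2) * a + w ^ 2 * (a - b) := by ring
  rw [e1]
  refine (abs_add_le _ _).trans ?_
  rw [abs_mul, abs_mul, abs_of_nonneg hx, abs_of_nonneg (sq_nonneg w)]
  have hA2 : 0 ≤ 1 / A ^ 2 := by positivity
  have hL2 : 0 ≤ 2 * L + 4 * L ^ 2 := by positivity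
  calc |u ^ 2 - w ^ 2| * a + w ^ 2 * |a - b|
      ≤ (δ * (2 * L + 4 * L ^ 2) * (w ^ 2 + 1 / A ^ 2)) * ((1 + Kc d) * b) +
        w ^ 2 * (Kc d * δ * b) := by (clear * - h1 hab hx hL0 hA hk; gcongr)
    _ ≤ (δ * (2 * L + 4 * L ^ 2) * (w ^ 2 + 1 / A ^ 2)) * ((1 + Kc d) * b) +
        (w ^ 2 + 1 / A ^ 2) * ((1 + Kc d) * δ * b) := by
        gcongr <;> linarith
    _ = _ := by ring

/-- the constant -/
def Kq (d : ℕ) (L : ℝ) : ℝ := 2 * (2 * L + 4 * L ^ 2 + 1) * (1 + Kc d) ^ 2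

lemma th_diff1 (hd : 1 ≤ d) (μ : Measure (Sp d)) [IsFiniteMeasure μ] {x y : Sp d}
    (hxy : ‖x - y‖ ≤ 1) : |th μ 1 x - th μ 1 y| ≤ Kc d * ‖x - y‖ * th μ 1 y := by
  have i1 := THm.kk_int hd μ one_pos x
  have i2 := THm.kk_int hd μ one_pos y
  have e1 : th μ 1 x - th μ 1 y = ∫ η, (kk 1 (x - η) - kk 1 (y - η)) ∂μ := by
    rw [integral_sub i1 i2]
    rfl
  have e2 : Kc d * ‖x - y‖ * th μ 1 y = ∫ η, Kc d * ‖x - y‖ * kk 1 (y - η) ∂μ := by
    rw [integral_const_mul]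
    rfl
  rw [e1, e2]
  exact (abs_integral_le_integral_abs).trans (integral_mono (i1.sub i2).abs (i2.const_mul _)
    fun η => kk_diff1 hd hxy η)

/-- q is Lipschitz with a small constant where it is small -/
lemma qq_diff (hd : 1 ≤ d) {L : ℝ} (hL0 : 1 ≤ L) (hL : ∀ a b : ℝ,
    |Real.smoothTransition a - Real.smoothTransition b| ≤ L * |a - b|)
    (μ : Measure (Sp d)) [IsFiniteMeasure μ] (hμ : μ ≠ 0) {A : ℝ} (hA : 0 < A) {x y : Sp d}
    (hxy : ‖x - y‖ ≤ 1) :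
    |qq A μ 1 x - qq A μ 1 y| ≤ Kq d L * (qq A μ 1 y + 1 / A ^ 2) * ‖x - y‖ := by
  have hK := Kc_nonneg (d := d)
  have hx := th_pos hd μ hμ one_pos x
  have hy := th_pos hd μ hμ one_pos y
  have hd1 := th_diff1 hd μ hxy
  have hd2 := th_diff1 hd μ (x := y) (y := x) (by rwa [norm_sub_rev])
  have hq := qq_nonneg A μ y
  have i1 := NN_int hd A μ x
  have i2 := NN_int hd A μ y
  have i3 := THm.kk_int hd μ one_pos y
  set δ := ‖x - y‖ with hδ
  have hδ0 : 0 ≤ δ := norm_nonneg _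
  have hA2 : 0 ≤ 1 / A ^ 2 := by positivity
  -- the numerator
  have hN : |NN A μ x - NN A μ y| ≤ δ * (2 * L + 4 * L ^ 2 + 1) * (1 + Kc d) *
      ((qq A μ 1 y + 1 / A ^ 2) * th μ 1 y) := by
    have e1 : NN A μ x - NN A μ y =
        ∫ η, (st A (x - η) ^ 2 * kk 1 (x - η) - st A (y - η) ^ 2 * kk 1 (y - η)) ∂μ := by
      rw [integral_sub i1 i2]
      rfl
    have e2 : δ * (2 * L + 4 * L ^ 2 + 1) * (1 + Kc d) *
        ((qq A μ 1 y + 1 / A ^ 2) * th μ 1 y) =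
        ∫ η, δ * (2 * L + 4 * L ^ 2 + 1) * (1 + Kc d) *
        (st A (y - η) ^ 2 * kk 1 (y - η) + (1 / A ^ 2) * kk 1 (y - η)) ∂μ := by
      rw [integral_const_mul, integral_add i2 (i3.const_mul _), integral_const_mul, qq_eq]
      have e3 : ∫ η, kk 1 (y - η) ∂μ = th μ 1 y := rfl
      have e4 : ∫ η, st A (y - η) ^ 2 * kk 1 (y - η) ∂μ = NN A μ y := rfl
      rw [e3, e4, add_mul, div_mul_cancel₀ _ hy.ne']
    rw [e1, e2]
    exact (abs_integral_le_integral_abs).trans (integral_mono (i1.sub i2).abs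
      ((i2.add (i3.const_mul _)).const_mul _) fun η => num_diff hd hL0 hL hA hxy η)
  have hyx : th μ 1 y ≤ (1 + Kc d) * th μ 1 x := by
    have h1 := (abs_le.1 hd2).2
    rw [norm_sub_rev y x] at h1
    have h2 : Kc d * δ * th μ 1 x ≤ Kc d * 1 * th μ 1 x := by gcongr
    linarith
  have e1 : qq A μ 1 x - qq A μ 1 y =
      ((NN A μ x - NN A μ y) - qq A μ 1 y * (th μ 1 x - th μ 1 y)) / th μ 1 x := by
    rw [qq_eq, qq_eq]
    field_simp
    ring
  rw [e1, abs_div, abs_of_pos hx, div_le_iff₀ hx]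
  set S := 2 * L + 4 * L ^ 2 + 1 with hS
  have hS1 : 1 ≤ S := by rw [hS]; nlinarith only [hL0]
  set Q := qq A μ 1 y + 1 / A ^ 2 with hQ
  have hQ0 : 0 ≤ Q := by rw [hQ]; linarith
  calc |(NN A μ x - NN A μ y) - qq A μ 1 y * (th μ 1 x - th μ 1 y)|
      ≤ |NN A μ x - NN A μ y| + |qq A μ 1 y * (th μ 1 x - th μ 1 y)| := abs_sub _ _
    _ = |NN A μ x - NN A μ y| + qq A μ 1 y * |th μ 1 x - th μ 1 y| := by
        rw [abs_mul, abs_of_nonneg hq]
    _ ≤ δ * S * (1 + Kc d) * (Q * th μ 1 y) + Q * (Kc d * δ * th μ 1 y) := by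
        gcongr
        rw [hQ]
        linarith
    _ ≤ δ * S * (1 + Kc d) * (Q * th μ 1 y) + δ * S * (1 + Kc d) * (Q * th μ 1 y) := by
        have h1 : Kc d ≤ S * (1 + Kc d) := by nlinarith
        have h2 : 0 ≤ Q * δ * th μ 1 y := by positivity
        nlinarith only [h1, h2]
    _ = 2 * S * (1 + Kc d) * δ * Q * th μ 1 y := by ring
    _ ≤ 2 * S * (1 + Kc d) * δ * Q * ((1 + Kc d) * th μ 1 x) := by
        have : 0 ≤ 2 * S * (1 + Kc d) * δ * Q := by positivity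
        (clear * - hyx hL0 hK hq hA; gcongr)
    _ = _ := by
        rw [Kq, ← hS]
        ring

lemma ups_nonneg (p0 A : ℝ) (μ : Measure (Sp d)) (x : Sp d) : 0 ≤ Ups p0 A μ 1 x :=
  Real.smoothTransition.nonneg _

lemma ups_le (p0 A : ℝ) (μ : Measure (Sp d)) (x : Sp d) : Ups p0 A μ 1 x ≤ 1 :=
  Real.smoothTransition.le_one _

lemma norm_grad (f : Sp d → ℝ) (x : Sp d) : ‖gradient f x‖ = ‖fderiv ℝ f x‖ := by
  unfold gradient
  exact LinearIsometryEquiv.norm_map _ _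

/-- the gradient of Υ in the far region -/
lemma ups_grad (hd : 1 ≤ d) {L : ℝ} (hL0 : 1 ≤ L) (hL : ∀ a b : ℝ,
    |Real.smoothTransition a - Real.smoothTransition b| ≤ L * |a - b|)
    (μ : Measure (Sp d)) [IsFiniteMeasure μ] (hμ : μ ≠ 0) {A p0 : ℝ} (hA : 0 < A) (hp : 0 < p0)
    (hAp : 1 / A ^ 2 ≤ p0) {y : Sp d} (hy : qq A μ 1 y ≤ p0) :
    ‖gradient (Ups p0 A μ 1) y‖ ≤ 4 * L * Kq d L := by
  have hK := Kc_nonneg (d := d)
  have hKq : 0 ≤ Kq d L := by
    unfold Kq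
    positivity
  rw [norm_grad]
  refine norm_fderiv_le_of_lip' ℝ (by positivity) ?_
  filter_upwards [closedBall_mem_nhds y one_pos] with x hx
  rw [mem_closedBall, dist_eq_norm] at hx
  have h1 := qq_diff hd hL0 hL μ hμ hA hx
  have h2 : qq A μ 1 y + 1 / A ^ 2 ≤ 2 * p0 := by linarith
  rw [Real.norm_eq_abs]
  unfold Ups
  refine (hL _ _).trans ?_
  have e1 : 2 * qq A μ 1 x / p0 - 1 - (2 * qq A μ 1 y / p0 - 1) =
      2 / p0 * (qq A μ 1 x - qq A μ 1 y) := by ring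
  rw [e1, abs_mul, abs_of_pos (by positivity : 0 < 2 / p0)]
  calc L * (2 / p0 * |qq A μ 1 x - qq A μ 1 y|)
      ≤ L * (2 / p0 * (Kq d L * (2 * p0) * ‖x - y‖)) := by
        have h3 : Kq d L * (qq A μ 1 y + 1 / A ^ 2) * ‖x - y‖ ≤ Kq d L * (2 * p0) * ‖x - y‖ := by
          gcongr
        gcongr
        exact h1.trans h3
    _ = _ := by
        field_simp
        ring

/-- Υ is one where q is larger than p0 -/
lemma ups_near (hd : 1 ≤ d) (μ : Measure (Sp d)) [IsFiniteMeasure μ] (hμ : μ ≠ 0) {A p0 : ℝ}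
    (hA : 0 < A) (hp : 0 < p0) {y : Sp d} (hy : p0 < qq A μ 1 y) :
    Ups p0 A μ 1 y = 1 ∧ gradient (Ups p0 A μ 1) y = 0 := by
  obtain ⟨L, hL0, hL⟩ := trans_lip
  have h1 : ∀ x, p0 ≤ qq A μ 1 x → Ups p0 A μ 1 x = 1 := by
    intro x hx
    refine Real.smoothTransition.one_of_one_le ?_
    have : 2 ≤ 2 * qq A μ 1 x / p0 := by
      rw [le_div_iff₀ hp]
      linarith
    linarith
  have hc : ContinuousAt (qq A μ 1) y := by
    rw [Metric.continuousAt_iff]
    intro e he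
    set B := Kq d L * (qq A μ 1 y + 1 / A ^ 2) with hB
    have hB0 : 0 ≤ B := by
      have hK := Kc_nonneg (d := d)
      have := qq_nonneg A μ y
      rw [hB, Kq]
      positivity
    refine ⟨min 1 (e / (B + 1)), by positivity, fun x hx => ?_⟩
    rw [dist_eq_norm] at hx
    have hx1 : ‖x - y‖ ≤ 1 := hx.le.trans (min_le_left _ _)
    have hx2 : ‖x - y‖ < e / (B + 1) := lt_of_lt_of_le hx (min_le_right _ _)
    have h2 := qq_diff hd hL0 hL μ hμ hA hx1
    rw [Real.dist_eq]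
    refine lt_of_le_of_lt h2 ?_
    rw [← hB]
    rw [lt_div_iff₀ (by linarith)] at hx2
    linarith only [hx2, norm_nonneg (x - y)]
  refine ⟨h1 y hy.le, ?_⟩
  have h3 : Ups p0 A μ 1 =ᶠ[𝓝 y] fun _ => 1 := by
    filter_upwards [hc (Ioi_mem_nhds hy)] with x hx
    exact h1 x (le_of_lt hx)
  unfold gradient
  rw [h3.fderiv_eq]
  simp

end FAm

end

end TG


end

section

/-!
# MODULE TT: small tangential gradients of v give small tangential gradients of W (helper37)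
-/

open MeasureTheory Metric Set Filter Topology TrI
open scoped InnerProductSpace ContDiff

set_option linter.unusedSectionVars false

namespace TG

noncomputable section

variable {d : ℕ}

/-! ## bounds of directional derivatives -/

lemma tt_giD (a : ℝ × Sp d) {F : ℝ × Sp d → ℝ} (hF : ContDiff ℝ ∞ F) (j : ℕ) (p : ℝ × Sp d) :
    ‖iteratedFDeriv ℝ j (giD a F) p‖ ≤ ‖a‖ * ‖iteratedFDeriv ℝ (j + 1) F p‖ := by
  have h1 : ContDiff ℝ ∞ (fderiv ℝ F) := hF.fderiv_right (m := ∞) (by simp)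
  have h2 := norm_iteratedFDeriv_clm_apply_const (𝕜 := ℝ) (c := a) (h1.contDiffAt (x := p))
    (n := j) (by exact_mod_cast le_top)
  rw [norm_iteratedFDeriv_fderiv] at h2
  exact h2

lemma tt_norm_e (i : Fin d) : ‖((0 : ℝ), (EuclideanSpace.single i (1 : ℝ) : Sp d))‖ ≤ 1 := by
  simp [Prod.norm_def]

lemma tt_giL {F : ℝ × Sp d → ℝ} (hF : ContDiff ℝ ∞ F) (j : ℕ) (p : ℝ × Sp d) :
    ‖iteratedFDeriv ℝ j (giL F) p‖ ≤ d * ‖iteratedFDeriv ℝ (j + 2) F p‖ := by
  unfold giL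
  rw [iteratedFDeriv_fun_sum_apply (fun i _ =>
    ((giD_smooth _ (giD_smooth _ hF)).contDiffAt).of_le (by exact_mod_cast le_top))]
  refine (norm_sum_le _ _).trans ?_
  refine (Finset.sum_le_card_nsmul _ _ ‖iteratedFDeriv ℝ (j + 2) F p‖ fun i _ => ?_).trans ?_
  · have h1 := tt_giD (0, EuclideanSpace.single i (1 : ℝ)) (giD_smooth
      (0, EuclideanSpace.single i (1 : ℝ)) hF) j p
    have h2 := tt_giD (0, EuclideanSpace.single i (1 : ℝ)) hF (j + 1) p
    have h3 := tt_norm_e i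
    have h4 := norm_nonneg (iteratedFDeriv ℝ (j + 1 + 1) F p)
    have h5 := norm_nonneg (iteratedFDeriv ℝ (j + 1)
      (giD (0, EuclideanSpace.single i (1 : ℝ)) F) p)
    calc _ ≤ _ := h1
      _ ≤ 1 * ‖iteratedFDeriv ℝ (j + 1) (giD (0, EuclideanSpace.single i (1 : ℝ)) F) p‖ :=
          mul_le_mul_of_nonneg_right h3 h5
      _ ≤ 1 * (1 * ‖iteratedFDeriv ℝ (j + 1 + 1) F p‖) :=
          mul_le_mul_of_nonneg_left (h2.trans (mul_le_mul_of_nonneg_right h3 h4)) zero_le_one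
      _ = _ := by rw [one_mul, one_mul]
  · simp

/-! ## integrals over the compact set -/

/-- the ray map -/
def ttΨ (ε : ℝ) (x : ℝ × Sp d) : ℝ × Sp d := (x.1, (ε * x.1) • x.2)

lemma ttΨ_cont (ε : ℝ) : Continuous (ttΨ (d := d) ε) := by
  unfold ttΨ
  fun_prop

/-- the integrals -/
def ttI (ε : ℝ) (K F : ℝ × Sp d → ℝ) (y : Sp d) : ℝ :=
  ∫ x in giS d, K x * F (ttΨ ε x + (0, y))

lemma tt_shift {F : ℝ × Sp d → ℝ} (hF : ContDiff ℝ ∞ F) (c : ℝ × Sp d) (y : Sp d) (j : ℕ) :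
    ‖iteratedFDeriv ℝ j (fun y => F (c + (0, y))) y‖ ≤ ‖iteratedFDeriv ℝ j F (c + (0, y))‖ := by
  have h1 : ContDiff ℝ ∞ (fun q : ℝ × Sp d => F (c + q)) :=
    hF.comp (contDiff_const.add contDiff_id)
  have h2 : (fun y => F (c + (0, y))) = (fun q : ℝ × Sp d => F (c + q)) ∘
      (ContinuousLinearMap.inr ℝ ℝ (Sp d)) := by
    funext y
    simp
  rw [h2, ContinuousLinearMap.iteratedFDeriv_comp_right _ h1 _ (by exact_mod_cast le_top)]
  refine (ContinuousMultilinearMap.norm_compContinuousLinearMap_le _ _).trans ?_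
  rw [iteratedFDeriv_comp_add_left]
  have h3 : ∏ _i : Fin j, ‖ContinuousLinearMap.inr ℝ ℝ (Sp d)‖ ≤ 1 := by
    rw [Finset.prod_const]
    exact pow_le_one₀ (norm_nonneg _) (ContinuousLinearMap.norm_inr_le_one ℝ ℝ (Sp d))
  simp only [ContinuousLinearMap.inr_apply]
  nlinarith [norm_nonneg (iteratedFDeriv ℝ j F (c + (0, y)))]

lemma ttI_bd {ε : ℝ} {K F : ℝ × Sp d → ℝ} (hK : Continuous K) (hF : ContDiff ℝ ∞ F) :
    ContDiff ℝ ∞ (ttI ε K F) ∧ ∀ (j : ℕ) (y : Sp d) (B : ℝ),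
      (∀ x ∈ giS d, ‖iteratedFDeriv ℝ j F (ttΨ ε x + (0, y))‖ ≤ B) →
      ‖iteratedFDeriv ℝ j (ttI ε K F) y‖ ≤ (∫ x in giS d, |K x|) * B := by
  have hS : MeasurableSet (giS d) := giS_compact.measurableSet
  have hK1 : Integrable ((giS d).indicator K) := by
    rw [integrable_indicator_iff hS]
    exact hK.continuousOn.integrableOn_compact giS_compact
  have hG : ContDiffOn ℝ ∞ (fun q : Sp d × (ℝ × Sp d) => F (ttΨ ε q.2 + (0, q.1))) univ := by
    refine ContDiff.contDiffOn (hF.comp ?_)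
    unfold ttΨ
    fun_prop
  have hP := pintC (ν := volume) (U := (univ : Set (Sp d))) (W := univ) (k := giS d) isOpen_univ
    isOpen_univ giS_compact (fun _ _ _ _ => mem_univ _) hK1
    (fun z hz => indicator_of_notMem hz K) hG
  have e1 : (fun p : Sp d => ∫ z, (giS d).indicator K z • F (ttΨ ε z + (0, p))) =
      ttI ε K F := by
    funext y
    unfold ttI
    rw [← integral_indicator hS]
    refine integral_congr_ae (Eventually.of_forall fun x => ?_)
    by_cases hx : x ∈ giS d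
    · simp [hx]
    · simp [hx]
  have e2 : ∫ z, |(giS d).indicator K z| = ∫ x in giS d, |K x| := by
    rw [← integral_indicator hS]
    refine integral_congr_ae (Eventually.of_forall fun x => ?_)
    by_cases hx : x ∈ giS d
    · simp [hx]
    · simp [hx]
  simp only at hP
  rw [e1, e2] at hP
  refine ⟨contDiffOn_univ.mp hP.1, fun j y B hB => ?_⟩
  refine hP.2.2.2 j y (mem_univ _) B fun x hx => ?_
  exact (tt_shift hF _ y j).trans (hB x hx)

lemma ttI_fderiv {ε : ℝ} {K F : ℝ × Sp d → ℝ} (hK : Continuous K) (hF : ContDiff ℝ ∞ F)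
    (y h : Sp d) : fderiv ℝ (ttI ε K F) y h = ttI ε K (giD (0, h) F) y :=
  giI_fderiv giS_compact hK (ttΨ_cont ε) hF y h

/-- size of the kernels -/
lemma ttI_K {β κ : Sp d → ℝ} (hβ : Continuous β) (hβ0 : ∀ z, 1 ≤ ‖z‖ → β z = 0)
    (hβi : ∫ z, β z = 1) (hκ : Continuous κ) (hκβ : ∀ z, |κ z| ≤ β z)
    {c : ℝ → ℝ} (hc : Continuous c) (hc4 : ∀ r ∈ Icc (1 / 2 : ℝ) 2, |c r| ≤ 4) :
    ∫ x in giS d, |c x.1 * κ x.2| ≤ 6 := by
  have h1 : ∫ x in giS d, (4 * β x.2) * 1 = 6 := by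
    have := gi_conv (d := d) (c := fun _ => 4) continuous_const (κ := β) ⟨hβ, hβ0⟩
      (H := fun _ => 1) continuous_const
    rw [← this]
    simp only [mul_one, hβi]
    rw [intervalIntegral.integral_const]
    norm_num
  rw [← h1]
  refine setIntegral_mono_on ?_ ?_ giS_compact.measurableSet fun x hx => ?_
  · exact (by fun_prop : Continuous fun x : ℝ × Sp d =>
      |c x.1 * κ x.2|).continuousOn.integrableOn_compact giS_compact
  · exact (by fun_prop : Continuous fun x : ℝ × Sp d =>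
      (4 * β x.2) * 1).continuousOn.integrableOn_compact giS_compact
  · rw [abs_mul, mul_one]
    exact mul_le_mul (hc4 _ hx.1) (hκβ _) (abs_nonneg _) (by norm_num)

/-! ## the tangential part -/

lemma tang_inner {n : Sp d} (a b : Sp d) : ⟪tang n a, b⟫_ℝ = ⟪a, tang n b⟫_ℝ := by
  unfold tang
  rw [inner_sub_left, inner_sub_right, inner_smul_left, inner_smul_right]
  simp only [conj_trivial]
  rw [real_inner_comm a n]
  ring

lemma tang_tang {n : Sp d} (hn : ‖n‖ = 1) (b : Sp d) : tang n (tang n b) = tang n b := by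
  have h1 : ⟪n, tang n b⟫_ℝ = 0 := by
    unfold tang
    rw [inner_sub_right, inner_smul_right, real_inner_self_eq_norm_sq, hn]
    ring
  conv_lhs => unfold tang
  rw [show b - ⟪n, b⟫_ℝ • n = tang n b from rfl, h1, zero_smul, sub_zero]

lemma tang_norm {n : Sp d} (hn : ‖n‖ = 1) (b : Sp d) : ‖tang n b‖ ≤ ‖b‖ := by
  have h1 : ‖tang n b‖ ^ 2 = ‖b‖ ^ 2 - ⟪n, b⟫_ℝ ^ 2 := by
    unfold tang
    rw [norm_sub_sq_real, norm_smul, inner_smul_right, real_inner_comm n b, mul_pow, hn,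
      Real.norm_eq_abs, sq_abs]
    ring
  have h2 : ‖tang n b‖ ^ 2 ≤ ‖b‖ ^ 2 := by rw [h1]; nlinarith [sq_nonneg ⟪n, b⟫_ℝ]
  exact (pow_le_pow_iff_left₀ (norm_nonneg _) (norm_nonneg _) two_ne_zero).1 h2

/-- vector valued bound from the scalar products -/
lemma tt_vec {g : Sp d → Sp d} (hg : ContDiff ℝ ∞ g) (j : ℕ) (y : Sp d) {B : ℝ} (hB : 0 ≤ B)
    (h : ∀ e : Sp d, ‖e‖ ≤ 1 → ‖iteratedFDeriv ℝ j (fun x => ⟪e, g x⟫_ℝ) y‖ ≤ B) :
    ‖iteratedFDeriv ℝ j g y‖ ≤ B := by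
  refine ContinuousMultilinearMap.opNorm_le_bound hB fun m => ?_
  set u := iteratedFDeriv ℝ j g y m with hu
  by_cases hu0 : u = 0
  · rw [hu0, norm_zero]
    exact mul_nonneg hB (Finset.prod_nonneg fun _ _ => norm_nonneg _)
  have hn : 0 < ‖u‖ := norm_pos_iff.mpr hu0
  have h1 := h ((1 / ‖u‖) • u) (by rw [norm_smul]; simp [hn.ne'])
  have h2 : (fun x => ⟪(1 / ‖u‖) • u, g x⟫_ℝ) = (innerSL ℝ ((1 / ‖u‖) • u)) ∘ g := rfl
  rw [h2, ContinuousLinearMap.iteratedFDeriv_comp_left _ (hg.contDiffAt (x := y))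
    (by exact_mod_cast le_top)] at h1
  have h3 := ((ContinuousLinearMap.compContinuousMultilinearMap (innerSL ℝ ((1 / ‖u‖) • u))
    (iteratedFDeriv ℝ j g y)).le_opNorm m).trans (mul_le_mul_of_nonneg_right h1
      (Finset.prod_nonneg fun _ _ => norm_nonneg _))
  rw [ContinuousLinearMap.compContinuousMultilinearMap_coe, Function.comp_apply, ← hu,
    innerSL_apply_apply, inner_smul_left, real_inner_self_eq_norm_sq] at h3
  have h4 : ‖(starRingEnd ℝ) (1 / ‖u‖) * ‖u‖ ^ 2‖ = ‖u‖ := by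
    simp only [conj_trivial, norm_mul, norm_div, norm_one, norm_norm, norm_pow]
    field_simp
  rw [h4] at h3
  exact h3

/-! ## conclusion -/

/-- the three integrals -/
def ttW (ε : ℝ) (β : Sp d → ℝ) (f : ℝ × Sp d → ℝ) (y : Sp d) : ℝ :=
  ttI ε (fun x => tau 1 x.1 * β x.2) f y +
    ttI ε (fun x => -(2 * ε ^ 2 * x.1 * tau 1 x.1) * Bp β x.2) (giT f) y +
    ttI ε (fun x => -(ε ^ 4 * x.1 ^ 2 * tau 1 x.1) * Bp (Bp β) x.2) (giL f) y

lemma tt_tau {r : ℝ} (hr : r ∈ Icc (1 / 2 : ℝ) 2) : 0 ≤ tau 1 r ∧ tau 1 r ≤ 1 := by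
  refine ⟨le_max_left _ _, ?_⟩
  rcases le_total r 1 with h | h
  · rw [tau_left hr.1 h]; linarith
  · rw [tau_right h hr.2]; linarith [hr.1]

section W

variable {J : ℕ} {M ε : ℝ} {β : Sp d → ℝ} (hK : Kit J M β)

include hK

lemma ttW_parts {f : ℝ × Sp d → ℝ} (hf : ContDiff ℝ ∞ f) :
    ContDiff ℝ ∞ (ttW ε β f) ∧ ∀ y h, fderiv ℝ (ttW ε β f) y h = ttW ε β (giD (0, h) f) y := by
  have c0 : Continuous β := hK.prof.smooth.continuous
  have c1 : Continuous (Bp β) := hK.smooth1.continuous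
  have c2 : Continuous (Bp (Bp β)) := hK.smooth2.continuous
  have ct := tau_cont
  have k0 : Continuous (fun x : ℝ × Sp d => tau 1 x.1 * β x.2) := by fun_prop
  have k1 : Continuous (fun x : ℝ × Sp d => -(2 * ε ^ 2 * x.1 * tau 1 x.1) * Bp β x.2) := by
    fun_prop
  have k2 : Continuous (fun x : ℝ × Sp d =>
      -(ε ^ 4 * x.1 ^ 2 * tau 1 x.1) * Bp (Bp β) x.2) := by fun_prop
  have s0 := (ttI_bd (ε := ε) k0 hf).1
  have s1 := (ttI_bd (ε := ε) k1 (giT_smooth hf)).1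
  have s2 := (ttI_bd (ε := ε) k2 (giL_smooth hf)).1
  refine ⟨(s0.add s1).add s2, fun y h => ?_⟩
  have d0 := (s0.differentiable (by simp)) y
  have d1 := (s1.differentiable (by simp)) y
  have d2 := (s2.differentiable (by simp)) y
  have e : ttW ε β f = (ttI ε (fun x => tau 1 x.1 * β x.2) f +
    ttI ε (fun x => -(2 * ε ^ 2 * x.1 * tau 1 x.1) * Bp β x.2) (giT f)) +
    ttI ε (fun x => -(ε ^ 4 * x.1 ^ 2 * tau 1 x.1) * Bp (Bp β) x.2) (giL f) := rfl
  rw [e, fderiv_add (d0.add d1) d2, fderiv_add d0 d1]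
  simp only [add_apply]
  rw [ttI_fderiv k0 hf, ttI_fderiv k1 (giT_smooth hf), ttI_fderiv k2 (giL_smooth hf)]
  have e1 : giD (0, h) (giT f) = giT (giD (0, h) f) := giD_comm _ _ hf
  have e2 : giD (0, h) (giL f) = giL (giD (0, h) f) := by
    have := giD_sum (Finset.univ : Finset (Fin d)) (0, h)
      (F := fun j => giD (0, EuclideanSpace.single j (1 : ℝ))
        (giD (0, EuclideanSpace.single j (1 : ℝ)) f))
      (fun j _ => giD_smooth _ (giD_smooth _ hf))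
    have e3 : giL f = fun p => ∑ j : Fin d, giD (0, EuclideanSpace.single j (1 : ℝ))
        (giD (0, EuclideanSpace.single j (1 : ℝ)) f) p := rfl
    rw [e3, this]
    funext p
    unfold giL
    refine Finset.sum_congr rfl fun j _ => ?_
    rw [giD_comm (0, h) _ (giD_smooth _ hf), giD_comm (0, h) _ hf]
  rw [e1, e2]
  rfl

lemma ttW_bd (hε0 : 0 < ε) (hε : ε ≤ 1 / 4) {g : ℝ × Sp d → ℝ} (hg : ContDiff ℝ ∞ g) {N : ℕ}
    {y : Sp d} {B : ℝ} (hB : ∀ l ≤ N + 2, ∀ p ∈ ttK y (1 / 2), ‖iteratedFDeriv ℝ l g p‖ ≤ B)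
    {j : ℕ} (hj : j ≤ N) : ‖iteratedFDeriv ℝ j (ttW ε β g) y‖ ≤ (12 + 6 * d) * B := by
  have c0 : Continuous β := hK.prof.smooth.continuous
  have c1 : Continuous (Bp β) := hK.smooth1.continuous
  have c2 : Continuous (Bp (Bp β)) := hK.smooth2.continuous
  have ct := tau_cont
  have k0 : Continuous (fun x : ℝ × Sp d => tau 1 x.1 * β x.2) := by fun_prop
  have k1 : Continuous (fun x : ℝ × Sp d => -(2 * ε ^ 2 * x.1 * tau 1 x.1) * Bp β x.2) := by
    fun_prop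
  have k2 : Continuous (fun x : ℝ × Sp d =>
      -(ε ^ 4 * x.1 ^ 2 * tau 1 x.1) * Bp (Bp β) x.2) := by fun_prop
  have s0 := ttI_bd (ε := ε) k0 hg
  have s1 := ttI_bd (ε := ε) k1 (giT_smooth hg)
  have s2 := ttI_bd (ε := ε) k2 (giL_smooth hg)
  have b0 := hK.prof.nonneg
  have hmem : ∀ x ∈ giS d, ttΨ ε x + (0, y) ∈ ttK y (1 / 2) := by
    rintro x ⟨h1, h2⟩
    have h1' : 1 / 2 ≤ x.1 ∧ x.1 ≤ 2 := h1
    refine ⟨by simpa [ttΨ] using h1', ?_⟩
    rw [mem_closedBall, dist_zero_right] at h2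
    rw [mem_closedBall, dist_eq_norm]
    simp only [ttΨ, Prod.mk_add_mk, add_sub_cancel_right]
    rw [norm_smul, Real.norm_eq_abs, abs_of_pos (mul_pos hε0 (by linarith))]
    nlinarith only [hε, h1', h2, mul_pos hε0 (show (0 : ℝ) < x.1 by linarith)]
  have hB0 : 0 ≤ B := (norm_nonneg _).trans
    (hB 0 (Nat.zero_le _) (1, y) ⟨⟨by norm_num, by norm_num⟩, by simp⟩)
  have hd0 : (0 : ℝ) ≤ d := Nat.cast_nonneg d
  have i0 := s0.2 j y B fun x hx => hB j (by omega) _ (hmem x hx)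
  have i1 := s1.2 j y B fun x hx => by
    refine (tt_giD _ hg j _).trans ?_
    have h3 : ‖((1 : ℝ), (0 : Sp d))‖ = 1 := by simp [Prod.norm_def]
    rw [h3, one_mul]
    exact hB (j + 1) (by omega) _ (hmem x hx)
  have i2 := s2.2 j y (d * B) fun x hx => by
    refine (tt_giL hg j _).trans ?_
    exact mul_le_mul_of_nonneg_left (hB (j + 2) (by omega) _ (hmem x hx)) hd0
  have hε2 : ε ^ 2 ≤ 1 / 16 := by nlinarith only [hε, hε0]
  have hε4 : ε ^ 4 ≤ 1 / 256 := by nlinarith only [hε2]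
  have j0 := ttI_K c0 hK.prof.supp hK.prof.int c0
    (fun z => by rw [abs_of_nonneg (b0 z)]) ct (fun r hr => by
      rw [abs_of_nonneg (tt_tau hr).1]; linarith [(tt_tau hr).2])
  have j1 := ttI_K c0 hK.prof.supp hK.prof.int c1
    (fun z => by rw [abs_of_nonneg (hK.nonneg1 z)]; exact hK.le1 z)
    (c := fun r => -(2 * ε ^ 2 * r * tau 1 r)) (by fun_prop) (fun r hr => by
      obtain ⟨t0, t1⟩ := tt_tau hr
      have r0 : 0 ≤ r := by linarith [hr.1]
      rw [abs_neg, abs_of_nonneg (by positivity)]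
      have h4 : 2 * ε ^ 2 * r ≤ 2 * (1 / 16) * 2 :=
        mul_le_mul (by linarith) hr.2 r0 (by norm_num)
      have h5 : 2 * ε ^ 2 * r * tau 1 r ≤ (2 * (1 / 16) * 2) * 1 :=
        mul_le_mul h4 t1 t0 (by norm_num)
      linarith)
  have j2 := ttI_K c0 hK.prof.supp hK.prof.int c2
    (fun z => by rw [abs_of_nonneg (hK.nonneg2 z)]; exact (hK.le2 z).trans (hK.le1 z))
    (c := fun r => -(ε ^ 4 * r ^ 2 * tau 1 r)) (by fun_prop) (fun r hr => by
      obtain ⟨t0, t1⟩ := tt_tau hr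
      have r0 : 0 ≤ r := by linarith [hr.1]
      rw [abs_neg, abs_of_nonneg (by positivity)]
      have h4 : ε ^ 4 * r ^ 2 ≤ 1 / 256 * 2 ^ 2 :=
        mul_le_mul hε4 (pow_le_pow_left₀ r0 hr.2 2) (by positivity) (by norm_num)
      have h5 : ε ^ 4 * r ^ 2 * tau 1 r ≤ (1 / 256 * 2 ^ 2) * 1 :=
        mul_le_mul h4 t1 t0 (by norm_num)
      linarith)
  have e : ttW ε β g = (ttI ε (fun x => tau 1 x.1 * β x.2) g +
    ttI ε (fun x => -(2 * ε ^ 2 * x.1 * tau 1 x.1) * Bp β x.2) (giT g)) +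
    ttI ε (fun x => -(ε ^ 4 * x.1 ^ 2 * tau 1 x.1) * Bp (Bp β) x.2) (giL g) := rfl
  have hj' : (j : WithTop ℕ∞) ≤ ∞ := by exact_mod_cast le_top
  have q0 := (s0.1.of_le hj').contDiffAt (x := y)
  have q1 := (s1.1.of_le hj').contDiffAt (x := y)
  have q2 := (s2.1.of_le hj').contDiffAt (x := y)
  have q01 : ContDiffAt ℝ (j : WithTop ℕ∞) (ttI ε (fun x => tau 1 x.1 * β x.2) g +
    ttI ε (fun x => -(2 * ε ^ 2 * x.1 * tau 1 x.1) * Bp β x.2) (giT g)) y := q0.add q1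
  rw [e, iteratedFDeriv_add_apply q01 q2, iteratedFDeriv_add_apply q0 q1]
  refine (norm_add_le _ _).trans ((add_le_add (norm_add_le _ _) le_rfl).trans ?_)
  have m0 := i0.trans (mul_le_mul_of_nonneg_right j0 hB0)
  have m1 := i1.trans (mul_le_mul_of_nonneg_right j1 hB0)
  have m2 := i2.trans (mul_le_mul_of_nonneg_right j2 (mul_nonneg hd0 hB0))
  linarith

end W

/-- W is given by the three integrals -/
lemma ttW_eq {J : ℕ} {M ε : ℝ} {β : Sp d → ℝ} (hK : Kit J M β) {μ : Measure (Sp d)} {f : ℝ × Sp d → ℝ} (hf : ContDiff ℝ ∞ f)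
    (v1 : ∀ t : ℝ, 1 / 4 ≤ t → ∀ x, vv μ t x = f (t, x)) : WW β ε μ 1 = ttW ε β f := by
  have hβ : GiK β := ⟨hK.prof.smooth.continuous, hK.prof.supp⟩
  have hB : GiK (Bp β) := ⟨hK.smooth1.continuous, hK.supp1⟩
  have hB2 : GiK (Bp (Bp β)) := ⟨hK.smooth2.continuous, hK.supp2⟩
  have v1' : ∀ t : ℝ, 1 / 4 ≤ t → vv μ t = fun x => f (t, x) := by
    intro t ht
    funext x
    exact v1 t ht x
  have v2 : ∀ t : ℝ, 1 / 4 < t → ∀ x, dtv μ t x = giT f (t, x) := by
    intro t ht x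
    unfold dtv
    have : (fun s => vv μ s x) =ᶠ[nhds t] fun s => f (s, x) := by
      filter_upwards [lt_mem_nhds ht] with s hs
      exact v1 s hs.le x
    rw [this.deriv_eq]
    have h1 : HasDerivAt (fun s : ℝ => (s, x)) ((1 : ℝ), (0 : Sp d)) t :=
      (hasDerivAt_id t).prodMk (hasDerivAt_const t x)
    have h2 : HasFDerivAt f (fderiv ℝ f (t, x)) (t, x) :=
      ((hf.differentiable (by simp)) _).hasFDerivAt
    exact (h2.comp_hasDerivAt t h1).deriv
  have v3 : ∀ t : ℝ, 1 / 4 ≤ t → ∀ x, lap (vv μ t) x = giL f (t, x) := by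
    intro t ht x
    rw [v1' t ht, lap_slice t hf]
  have w2 : ∀ t : ℝ, 1 / 4 < t → ∀ y, wt β ε μ t y = giA ε β f t y -
      2 * ε ^ 2 * t * giA ε (Bp β) (giT f) t y -
        ε ^ 4 * t ^ 2 * giA ε (Bp (Bp β)) (giL f) t y := by
    intro t ht y
    unfold wt giA
    simp only [v1 t ht.le, v2 t ht, v3 t ht.le]
    have k1 := hβ.int (gi_ray_smooth hf t (ε * t) y).continuous
    have k2 := (hB.int (gi_ray_smooth (giT_smooth hf) t (ε * t) y).continuous).const_mul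
      (2 * ε ^ 2 * t)
    have k3 := (hB2.int (gi_ray_smooth (giL_smooth hf) t (ε * t) y).continuous).const_mul
      (ε ^ 4 * t ^ 2)
    have k12 : Integrable fun z => β z * f (t, y + (ε * t) • z) -
        2 * ε ^ 2 * t * (Bp β z * giT f (t, y + (ε * t) • z)) := k1.sub k2
    rw [integral_sub k12 k3, integral_sub k1 k2, integral_const_mul, integral_const_mul]
  have hW : ∀ y, WW β ε μ 1 y = ∫ r in (1 / 2 : ℝ)..2, tau 1 r *
      (giA ε β f r y - 2 * ε ^ 2 * r * giA ε (Bp β) (giT f) r y -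
        ε ^ 4 * r ^ 2 * giA ε (Bp (Bp β)) (giL f) r y) := by
    intro y
    unfold WW
    rw [show (2 : ℝ) * 1 = 2 by norm_num]
    apply intervalIntegral.integral_congr
    intro r hr
    rw [uIcc_of_le (by norm_num)] at hr
    show tau 1 r * wt β ε μ r y = _
    rw [w2 r (by linarith [hr.1])]
  have tc := tau_cont
  have cc1 : Continuous (tau 1) := tc
  have cc2 : Continuous fun r => -(2 * ε ^ 2 * r * tau 1 r) := by fun_prop
  have cc3 : Continuous fun r => -(ε ^ 4 * r ^ 2 * tau 1 r) := by fun_prop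
  have cA : ∀ {κ : Sp d → ℝ} {F : ℝ × Sp d → ℝ}, GiK κ → ContDiff ℝ ∞ F → ∀ y,
      Continuous fun r => giA ε κ F r y := fun hκ hF y => giA_cont hκ hF.continuous y
  have conv : ∀ {c : ℝ → ℝ} {κ : Sp d → ℝ} {F : ℝ × Sp d → ℝ}, Continuous c → GiK κ →
      ContDiff ℝ ∞ F → ∀ y, ∫ r in (1 / 2 : ℝ)..2, c r * giA ε κ F r y =
      ttI ε (fun x => c x.1 * κ x.2) F y := by
    intro c κ F hc hκ hF y
    have hH : Continuous fun x : ℝ × Sp d => F (x.1, y + (ε * x.1) • x.2) := by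
      have := hF.continuous
      fun_prop
    have := gi_conv hc hκ hH
    unfold giA
    rw [this]
    unfold ttI ttΨ
    congr 1
    funext x
    rw [Prod.mk_add_mk, add_zero, add_comm y]
  funext y
  have hT := giT_smooth hf
  have hL := giL_smooth hf
  have i1 : IntervalIntegrable (fun r => tau 1 r * giA ε β f r y) volume (1 / 2) 2 :=
    (cc1.mul (cA hβ hf y)).intervalIntegrable _ _
  have i2 : IntervalIntegrable (fun r => -(2 * ε ^ 2 * r * tau 1 r) * giA ε (Bp β) (giT f) r y)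
      volume (1 / 2) 2 := (cc2.mul (cA hB hT y)).intervalIntegrable _ _
  have i3 : IntervalIntegrable (fun r =>
      -(ε ^ 4 * r ^ 2 * tau 1 r) * giA ε (Bp (Bp β)) (giL f) r y)
      volume (1 / 2) 2 := (cc3.mul (cA hB2 hL y)).intervalIntegrable _ _
  have i12 : IntervalIntegrable (fun r => tau 1 r * giA ε β f r y +
      -(2 * ε ^ 2 * r * tau 1 r) * giA ε (Bp β) (giT f) r y) volume (1 / 2) 2 := i1.add i2
  unfold ttW
  rw [← conv cc1 hβ hf, ← conv cc2 hB hT, ← conv cc3 hB2 hL, hW y,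
    ← intervalIntegral.integral_add i1 i2, ← intervalIntegral.integral_add i12 i3]
  congr 1
  funext r
  ring

theorem stmtTT (h : StmtTH) : StmtTT := by
  intro d J hd M C' ε i1 hC' hε0 hε hi1
  obtain ⟨C, hC, hTH⟩ := h d (J + 4) hd C' hC'
  set A : ℝ := C * 2 ^ (J + 4) * Real.sqrt (3 ^ d * C) with hA
  have hA0 : 0 < A := by positivity
  set η : ℝ := i1 / (12 + 6 * d) with hη
  have hη0 : 0 < η := by positivity
  obtain ⟨i0, hi0, hint⟩ := tt_interp (d := d) (G := ℝ) (J + 2) A η hA0 hη0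
  refine ⟨i0, hi0, fun β hK μ hμ n y hn hsm j hj => ?_⟩
  obtain ⟨hpos, hv, hbd, hharn, htime⟩ := hTH μ hμ
  have hf := gi_ext hv
  set f : ℝ × Sp d → ℝ := fun p => giRho p.1 * vv μ p.1 p.2 with hfdef
  have v1 : ∀ t : ℝ, 1 / 4 ≤ t → ∀ x, vv μ t x = f (t, x) := by
    intro t ht x
    simp only [hfdef, giRho_one ht, one_mul]
  have hS : 0 ≤ vv μ 1 y := Real.sqrt_nonneg _
  -- size of v
  have vle : ∀ p ∈ ttK y 1, vv μ p.1 p.2 ≤ Real.sqrt (3 ^ d * C) * vv μ 1 y := by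
    intro p hp
    obtain ⟨⟨h1, h2⟩, h3⟩ := hp
    rw [mem_closedBall, dist_eq_norm] at h3
    have hp0 : 0 < p.1 := by linarith
    have h4 := hharn p.1 y p.2 hp0
    have h5 : (1 + ‖y - p.2‖ / p.1) ^ d ≤ 3 ^ d := by
      refine pow_le_pow_left₀ (by positivity) ?_ d
      have h6 : ‖y - p.2‖ / p.1 ≤ 2 := by
        rw [div_le_iff₀ hp0, norm_sub_rev]
        linarith only [h3, h1]
      linarith
    have h7 := htime p.1 1 y one_pos (by linarith) (by linarith only [h2])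
    have h8 := (hpos p.1 y hp0).1.le
    have h9 : th μ p.1 p.2 ≤ 3 ^ d * C * th μ 1 y := by
      calc th μ p.1 p.2 ≤ (1 + ‖y - p.2‖ / p.1) ^ d * th μ p.1 y := h4
        _ ≤ 3 ^ d * th μ p.1 y := mul_le_mul_of_nonneg_right h5 h8
        _ ≤ 3 ^ d * (C * th μ 1 y) := mul_le_mul_of_nonneg_left h7 (by positivity)
        _ = _ := by ring
    unfold vv
    rw [← Real.sqrt_mul (by positivity)]
    exact Real.sqrt_le_sqrt h9
  -- derivatives of f
  have fbd : ∀ l ≤ J + 4, ∀ p ∈ ttK y 1, ‖iteratedFDeriv ℝ l f p‖ ≤ A * vv μ 1 y := by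
    intro l hl p hp
    have hp0 := vle p hp
    obtain ⟨⟨h1, h2⟩, h3⟩ := hp
    have e : (fun p : ℝ × Sp d => vv μ p.1 p.2) =ᶠ[nhds p] f := by
      have ho : {q : ℝ × Sp d | 1 / 4 < q.1} ∈ nhds p :=
        (isOpen_lt continuous_const continuous_fst).mem_nhds (show 1 / 4 < p.1 by linarith)
      filter_upwards [ho] with q hq
      exact v1 q.1 (le_of_lt hq) q.2
    have e2 : iteratedFDeriv ℝ l f p = iteratedFDeriv ℝ l
        (fun p : ℝ × Sp d => vv μ p.1 p.2) (p.1, p.2) :=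
      (Filter.EventuallyEq.iteratedFDeriv ℝ e l).eq_of_nhds.symm
    rw [e2]
    refine (hbd p.1 p.2 l (by linarith) hl).trans ?_
    have hv0 : 0 ≤ vv μ p.1 p.2 := Real.sqrt_nonneg _
    have h4 : C * vv μ p.1 p.2 / p.1 ^ l ≤ C * vv μ p.1 p.2 * 2 ^ (J + 4) := by
      rw [div_eq_mul_inv]
      refine mul_le_mul_of_nonneg_left ?_ (by positivity)
      rw [← inv_pow]
      have h5 : p.1⁻¹ ≤ 2 := by
        have := inv_anti₀ (show (0 : ℝ) < 1 / 2 by norm_num) h1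
        simpa using this
      exact (pow_le_pow_left₀ (inv_nonneg.mpr (by linarith)) h5 l).trans
        (pow_le_pow_right₀ (by norm_num) hl)
    calc _ ≤ C * vv μ p.1 p.2 * 2 ^ (J + 4) := h4
      _ ≤ C * (Real.sqrt (3 ^ d * C) * vv μ 1 y) * 2 ^ (J + 4) := by gcongr
      _ = A * vv μ 1 y := by rw [hA]; ring
  -- W
  have hWeq := ttW_eq (ε := ε) hK hf v1
  obtain ⟨hWs, hWd⟩ := ttW_parts (ε := ε) hK hf
  have hgs : ContDiff ℝ ∞ (fun x => tang n (gradient (WW β ε μ 1) x)) := by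
    rw [hWeq]
    have h1 : ContDiff ℝ ∞ (gradient (ttW ε β f)) := by
      have h2 : ContDiff ℝ ∞ (fderiv ℝ (ttW ε β f)) := hWs.fderiv_right (m := ∞) (by simp)
      exact (InnerProductSpace.toDual ℝ (Sp d)).symm.contDiff.comp h2
    unfold tang
    exact h1.sub ((contDiff_const.inner ℝ h1).smul contDiff_const)
  refine tt_vec hgs j y (by positivity) fun e0 he0 => ?_
  set e : Sp d := tang n e0 with he
  have hee : ‖e‖ ≤ 1 := (tang_norm hn e0).trans he0
  have e1 : (fun x => ⟪e0, tang n (gradient (WW β ε μ 1) x)⟫_ℝ) = ttW ε β (giD (0, e) f) := by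
    funext x
    rw [← tang_inner, real_inner_comm, inner_gradient_left, hWeq]
    exact hWd x e
  rw [e1]
  have hgS := giD_smooth (0, e) hf
  have hne : ‖((0 : ℝ), e)‖ ≤ 1 := by
    rw [Prod.norm_def]
    simpa using hee
  have hk := hint (giD (0, e) f) y (vv μ 1 y) hgS hS (fun l hl p hp => by
      refine (tt_giD _ hf l p).trans ?_
      have h1 := fbd (l + 1) (by omega) p hp
      calc ‖((0 : ℝ), e)‖ * ‖iteratedFDeriv ℝ (l + 1) f p‖
          ≤ 1 * (A * vv μ 1 y) := mul_le_mul hne h1 (norm_nonneg _) zero_le_one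
        _ = _ := one_mul _)
    (fun p hp => by
      obtain ⟨⟨h1, h2⟩, h3⟩ := hp
      rw [mem_closedBall, dist_eq_norm] at h3
      have h4 := hsm p.1 p.2 h1 h2 h3
      have h5 : giD (0, e) f p = ⟪tang n (gradient (vv μ p.1) p.2), e⟫_ℝ := by
        rw [tang_inner, he, tang_tang hn, ← he, inner_gradient_left]
        have h6 : vv μ p.1 = fun x => f (p.1, x) := by
          funext x
          exact v1 p.1 (by linarith) x
        rw [h6, gi_slice p.1 e hf p.2]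
      rw [h5]
      refine (norm_inner_le_norm _ _).trans ?_
      calc ‖tang n (gradient (vv μ p.1) p.2)‖ * ‖e‖ ≤ (i0 * vv μ 1 y) * 1 :=
            mul_le_mul h4 hee (norm_nonneg _) (by positivity)
        _ = _ := mul_one _)
  have hfin := ttW_bd (N := J) hK hε0 hε hgS (y := y) (B := η * vv μ 1 y)
    (fun l hl p hp => hk l hl p (ttK_mono y (by
      have : (0 : ℝ) < (1 / 2) ^ (J + 2 + 1) := by positivity
      linarith) hp)) hj
  refine hfin.trans (le_of_eq ?_)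
  rw [hη]
  field_simp

end

end TG


end

section

/-!
# Averages over scales and profiles: tools (MP_287c87_an, module WB)

`II ε Ψ y = ∫ tau 1 r • ∫ Ψ r z (y + ε r z) dz dr`.  Rules: differentiation in `y`, integration by
parts, the Cauchy-Schwarz inequality with disc averages.
-/

open MeasureTheory Metric Set TrI Filter Topology
open scoped InnerProductSpace ContDiff

namespace TG

noncomputable section

namespace WBT

variable {d : ℕ} {G : Type*} [NormedAddCommGroup G] [NormedSpace ℝ G]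

/-- the domain of the integrands -/
def Om (d : ℕ) : Set (ℝ × Sp d × Sp d) := {p | 0 < p.1}

lemma isOpen_Om : IsOpen (Om d) := isOpen_lt continuous_const continuous_fst

/-- integrands of class `C^m` -/
structure Reg (m : ℕ) (Ψ : ℝ → Sp d → Sp d → G) : Prop where
  smooth : ContDiffOn ℝ m (fun p : ℝ × Sp d × Sp d => Ψ p.1 p.2.1 p.2.2) (Om d)
  supp : ∀ r z x, 1 < ‖z‖ → Ψ r z x = 0

/-- the derivative in `z` -/
def dZ (Ψ : ℝ → Sp d → Sp d → G) (r : ℝ) (z x : Sp d) : Sp d →L[ℝ] G :=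
  fderiv ℝ (fun z' => Ψ r z' x) z

/-- the derivative in `x` -/
def dX (Ψ : ℝ → Sp d → Sp d → G) (r : ℝ) (z x : Sp d) : Sp d →L[ℝ] G :=
  fderiv ℝ (fun x' => Ψ r z x') x

/-- inclusion of the variable `z` -/
def iz (d : ℕ) : Sp d →L[ℝ] ℝ × Sp d × Sp d :=
  (ContinuousLinearMap.inr ℝ ℝ (Sp d × Sp d)).comp (ContinuousLinearMap.inl ℝ (Sp d) (Sp d))

/-- inclusion of the variable `x` -/
def ix (d : ℕ) : Sp d →L[ℝ] ℝ × Sp d × Sp d :=
  (ContinuousLinearMap.inr ℝ ℝ (Sp d × Sp d)).comp (ContinuousLinearMap.inr ℝ (Sp d) (Sp d))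

lemma Reg.mono {m n : ℕ} {Ψ : ℝ → Sp d → Sp d → G} (h : Reg n Ψ) (hmn : m ≤ n) : Reg m Ψ :=
  ⟨h.smooth.of_le (by exact_mod_cast hmn), h.supp⟩

lemma Reg.diff {m : ℕ} {Ψ : ℝ → Sp d → Sp d → G} (h : Reg (m + 1) Ψ) {p : ℝ × Sp d × Sp d}
    (hp : 0 < p.1) :
    DifferentiableAt ℝ (fun p : ℝ × Sp d × Sp d => Ψ p.1 p.2.1 p.2.2) p :=
  (h.smooth.differentiableOn (by simp)).differentiableAt (isOpen_Om.mem_nhds hp)

lemma Reg.hasZ {m : ℕ} {Ψ : ℝ → Sp d → Sp d → G} (h : Reg (m + 1) Ψ) {r : ℝ} (hr : 0 < r)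
    (z x : Sp d) : HasFDerivAt (fun z' => Ψ r z' x)
      ((fderiv ℝ (fun p : ℝ × Sp d × Sp d => Ψ p.1 p.2.1 p.2.2) (r, z, x)).comp (iz d)) z := by
  have h1 := (h.diff (p := (r, z, x)) hr).hasFDerivAt
  have h2 : HasFDerivAt (fun z' : Sp d => ((r, z', x) : ℝ × Sp d × Sp d)) (iz d) z :=
    (hasFDerivAt_prodMk_right r (z, x)).comp z (hasFDerivAt_prodMk_left z x)
  exact h1.comp z h2

lemma Reg.hasX {m : ℕ} {Ψ : ℝ → Sp d → Sp d → G} (h : Reg (m + 1) Ψ) {r : ℝ} (hr : 0 < r)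
    (z x : Sp d) : HasFDerivAt (fun x' => Ψ r z x')
      ((fderiv ℝ (fun p : ℝ × Sp d × Sp d => Ψ p.1 p.2.1 p.2.2) (r, z, x)).comp (ix d)) x := by
  have h1 := (h.diff (p := (r, z, x)) hr).hasFDerivAt
  have h2 : HasFDerivAt (fun x' : Sp d => ((r, z, x') : ℝ × Sp d × Sp d)) (ix d) x :=
    (hasFDerivAt_prodMk_right r (z, x)).comp x (hasFDerivAt_prodMk_right z x)
  exact h1.comp x h2

lemma Reg.dZ_eq {m : ℕ} {Ψ : ℝ → Sp d → Sp d → G} (h : Reg (m + 1) Ψ) {r : ℝ} (hr : 0 < r)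
    (z x : Sp d) : dZ Ψ r z x =
      (fderiv ℝ (fun p : ℝ × Sp d × Sp d => Ψ p.1 p.2.1 p.2.2) (r, z, x)).comp (iz d) :=
  (h.hasZ hr z x).fderiv

lemma Reg.dX_eq {m : ℕ} {Ψ : ℝ → Sp d → Sp d → G} (h : Reg (m + 1) Ψ) {r : ℝ} (hr : 0 < r)
    (z x : Sp d) : dX Ψ r z x =
      (fderiv ℝ (fun p : ℝ × Sp d × Sp d => Ψ p.1 p.2.1 p.2.2) (r, z, x)).comp (ix d) :=
  (h.hasX hr z x).fderiv

lemma Reg.dZ {m : ℕ} {Ψ : ℝ → Sp d → Sp d → G} (h : Reg (m + 1) Ψ) : Reg m (dZ Ψ) := by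
  constructor
  · have h1 : ContDiffOn ℝ m (fun p : ℝ × Sp d × Sp d =>
        (fderiv ℝ (fun p : ℝ × Sp d × Sp d => Ψ p.1 p.2.1 p.2.2) p).comp (iz d)) (Om d) :=
      (h.smooth.fderiv_of_isOpen isOpen_Om (by push_cast; exact le_rfl)).clm_comp contDiffOn_const
    exact h1.congr fun p hp => h.dZ_eq hp p.2.1 p.2.2
  · intro r z x hz
    have h1 : (fun z' => Ψ r z' x) =ᶠ[𝓝 z] fun _ => 0 := by
      filter_upwards [(isOpen_lt continuous_const continuous_norm).mem_nhds hz] with z' hz'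
      exact h.supp r z' x hz'
    unfold WBT.dZ
    rw [h1.fderiv_eq]
    simp

lemma Reg.dX {m : ℕ} {Ψ : ℝ → Sp d → Sp d → G} (h : Reg (m + 1) Ψ) : Reg m (dX Ψ) := by
  constructor
  · have h1 : ContDiffOn ℝ m (fun p : ℝ × Sp d × Sp d =>
        (fderiv ℝ (fun p : ℝ × Sp d × Sp d => Ψ p.1 p.2.1 p.2.2) p).comp (ix d)) (Om d) :=
      (h.smooth.fderiv_of_isOpen isOpen_Om (by push_cast; exact le_rfl)).clm_comp contDiffOn_const
    exact h1.congr fun p hp => h.dX_eq hp p.2.1 p.2.2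
  · intro r z x hz
    unfold WBT.dX
    have : (fun x' => Ψ r z x') = fun _ => 0 := by
      ext x'
      exact h.supp r z x' hz
    rw [this]
    simp

/-! ### The averages -/

/-- the domain of integration -/
def Q2 (d : ℕ) : Set (ℝ × Sp d) := Icc (1 / 2 : ℝ) 2 ×ˢ closedBall 0 2

lemma isCompact_Q2 : IsCompact (Q2 d) := isCompact_Icc.prod (isCompact_closedBall _ _)

lemma measurableSet_Q2 : MeasurableSet (Q2 d) := isCompact_Q2.measurableSet

/-- the average -/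
def II (ε : ℝ) (Ψ : ℝ → Sp d → Sp d → G) (y : Sp d) : G :=
  ∫ p in Q2 d, tau 1 p.1 • Ψ p.1 p.2 (y + (ε * p.1) • p.2)

lemma continuous_tau : Continuous (tau 1) := by
  unfold tau
  fun_prop

lemma tau_nonneg (r : ℝ) : 0 ≤ tau 1 r := le_max_left _ _

lemma tau_le (r : ℝ) : tau 1 r ≤ 1 := by
  unfold tau
  refine max_le zero_le_one ?_
  rcases le_total r 1 with h | h
  · exact (min_le_left _ _).trans (by linarith)
  · exact (min_le_right _ _).trans (by linarith)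

lemma Reg.contOn {Ψ : ℝ → Sp d → Sp d → G} {m : ℕ} (h : Reg m Ψ) (ε : ℝ) :
    ContinuousOn (fun q : Sp d × (ℝ × Sp d) =>
      tau 1 q.2.1 • Ψ q.2.1 q.2.2 (q.1 + (ε * q.2.1) • q.2.2)) {q | 0 < q.2.1} := by
  refine (continuous_tau.comp (continuous_fst.comp continuous_snd)).continuousOn.smul ?_
  have h1 : Continuous fun q : Sp d × (ℝ × Sp d) =>
      ((q.2.1, q.2.2, q.1 + (ε * q.2.1) • q.2.2) : ℝ × Sp d × Sp d) := by fun_prop
  exact h.smooth.continuousOn.comp h1.continuousOn fun q hq => hq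

lemma Reg.contOn' {Ψ : ℝ → Sp d → Sp d → G} {m : ℕ} (h : Reg m Ψ) (ε : ℝ) (y : Sp d) :
    ContinuousOn (fun q : ℝ × Sp d =>
      tau 1 q.1 • Ψ q.1 q.2 (y + (ε * q.1) • q.2)) (Q2 d) := by
  have h1 : Continuous fun q : ℝ × Sp d => ((y, q) : Sp d × (ℝ × Sp d)) := by fun_prop
  refine (h.contOn ε).comp h1.continuousOn fun q hq => ?_
  have : (1 / 2 : ℝ) ≤ q.1 := hq.1.1
  show 0 < q.1
  linarith

lemma Reg.integrableOn {Ψ : ℝ → Sp d → Sp d → G} {m : ℕ} (h : Reg m Ψ) (ε : ℝ) (y : Sp d) :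
    IntegrableOn (fun q : ℝ × Sp d => tau 1 q.1 • Ψ q.1 q.2 (y + (ε * q.1) • q.2)) (Q2 d) :=
  (h.contOn' ε y).integrableOn_compact isCompact_Q2

lemma II_iter {Ψ : ℝ → Sp d → Sp d → G} {m : ℕ} (h : Reg m Ψ) (ε : ℝ) (y : Sp d) :
    II ε Ψ y = ∫ r in (1 / 2 : ℝ)..2, tau 1 r • ∫ z, Ψ r z (y + (ε * r) • z) := by
  unfold II Q2
  rw [Measure.volume_eq_prod, setIntegral_prod _ (by
    have := h.integrableOn ε y
    rwa [Q2, Measure.volume_eq_prod] at this),
    intervalIntegral.integral_of_le (by norm_num), integral_Icc_eq_integral_Ioc]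
  refine setIntegral_congr_fun measurableSet_Ioc fun r _ => ?_
  simp only
  rw [integral_smul]
  congr 1
  refine setIntegral_eq_integral_of_forall_compl_eq_zero fun z hz => ?_
  refine h.supp r z _ ?_
  rw [mem_closedBall_zero_iff, not_le] at hz
  linarith

/-- differentiation under the integral sign -/
lemma II_hasFDerivAt {Ψ : ℝ → Sp d → Sp d → G} {m : ℕ} (h : Reg (m + 1) Ψ) (ε : ℝ) (y : Sp d) :
    HasFDerivAt (II ε Ψ) (II ε (dX Ψ) y) y := by
  have hK : IsCompact (closedBall y 1 ×ˢ Q2 d) := (isCompact_closedBall _ _).prod isCompact_Q2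
  have hc := h.dX.contOn ε
  obtain ⟨B, hB⟩ := hK.exists_bound_of_continuousOn (hc.mono fun q hq => by
    have : (1 / 2 : ℝ) ≤ q.2.1 := hq.2.1.1
    show 0 < q.2.1
    linarith)
  have hfin : IsFiniteMeasure ((volume : Measure (ℝ × Sp d)).restrict (Q2 d)) :=
    ⟨by rw [Measure.restrict_apply_univ]; exact isCompact_Q2.measure_lt_top⟩
  refine hasFDerivAt_integral_of_dominated_of_fderiv_le (𝕜 := ℝ)
    (μ := (volume : Measure (ℝ × Sp d)).restrict (Q2 d))
    (F := fun (y : Sp d) (q : ℝ × Sp d) => tau 1 q.1 • Ψ q.1 q.2 (y + (ε * q.1) • q.2))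
    (F' := fun (y : Sp d) (q : ℝ × Sp d) => tau 1 q.1 • WBT.dX Ψ q.1 q.2 (y + (ε * q.1) • q.2))
    (bound := fun _ => B) (s := ball y 1) (ball_mem_nhds y one_pos) ?_ (h.integrableOn ε y) ?_ ?_
    (integrable_const B) ?_
  · exact Eventually.of_forall fun y' =>
      (h.contOn' ε y').aestronglyMeasurable measurableSet_Q2
  · exact (h.dX.contOn' ε y).aestronglyMeasurable measurableSet_Q2
  · refine (ae_restrict_iff' measurableSet_Q2).2 (Eventually.of_forall fun p hp y' hy' => ?_)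
    exact hB (y', p) ⟨ball_subset_closedBall hy', hp⟩
  · refine (ae_restrict_iff' measurableSet_Q2).2 (Eventually.of_forall fun p hp y' hy' => ?_)
    have hp0 : 0 < p.1 := by
      have : (1 / 2 : ℝ) ≤ p.1 := hp.1.1
      linarith
    have h1 : HasFDerivAt (fun y' : Sp d => y' + (ε * p.1) • p.2) (ContinuousLinearMap.id ℝ _) y' :=
      (hasFDerivAt_id y').add_const _
    have h2 := ((h.hasX hp0 p.2 (y' + (ε * p.1) • p.2)).comp y' h1).const_smul (tau 1 p.1)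
    rw [h.dX_eq hp0]
    exact h2

/-! ### Integration by parts -/

lemma Reg.cont_z {Ψ : ℝ → Sp d → Sp d → G} {m : ℕ} (h : Reg m Ψ) (s : ℝ) {r : ℝ} (hr : 0 < r)
    (y : Sp d) : Continuous fun z => Ψ r z (y + s • z) := by
  have h1 : Continuous fun z : Sp d => ((r, z, y + s • z) : ℝ × Sp d × Sp d) := by fun_prop
  exact h.smooth.continuousOn.comp_continuous h1 fun z => hr

lemma Reg.cs_z {Ψ : ℝ → Sp d → Sp d → G} {m : ℕ} (h : Reg m Ψ) (s r : ℝ) (y : Sp d) :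
    HasCompactSupport fun z => Ψ r z (y + s • z) := by
  refine HasCompactSupport.intro (isCompact_closedBall 0 1) fun z hz => ?_
  rw [mem_closedBall_zero_iff, not_le] at hz
  exact h.supp r z _ hz

lemma Reg.int_z {Ψ : ℝ → Sp d → Sp d → G} {m : ℕ} (h : Reg m Ψ) (s : ℝ) {r : ℝ} (hr : 0 < r)
    (y : Sp d) : Integrable fun z => Ψ r z (y + s • z) :=
  (h.cont_z s hr y).integrable_of_hasCompactSupport (h.cs_z s r y)

lemma integral_fderiv_zero {g : Sp d → G} {g' : Sp d → (Sp d →L[ℝ] G)}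
    (hg : ∀ z, HasFDerivAt g (g' z) z) (hi : Integrable g) (hi' : Integrable g') (v : Sp d) :
    ∫ z, g' z v = 0 := by
  have h1 : ∀ z, fderiv ℝ g z = g' z := fun z => (hg z).fderiv
  have h2 := integral_smul_fderiv_eq_neg_fderiv_smul_of_integrable (μ := (volume : Measure (Sp d)))
    (f := fun _ : Sp d => (1 : ℝ)) (g := g) (v := v) (by simp) (by
      simp only [one_smul, h1]
      exact (ContinuousLinearMap.apply ℝ G v).integrable_comp hi') (by simpa using hi)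
    (fun z _ => differentiableAt_const _) (fun z _ => (hg z).differentiableAt)
  simpa [h1] using h2

lemma ibp_z [CompleteSpace G] {Ψ : ℝ → Sp d → Sp d → G} {m : ℕ} (h : Reg (m + 1) Ψ) (s : ℝ)
    {r : ℝ} (hr : 0 < r) (y : Sp d) :
    s • ∫ z, dX Ψ r z (y + s • z) = - ∫ z, dZ Ψ r z (y + s • z) := by
  have hX := h.dX.int_z s hr y
  have hZ := h.dZ.int_z s hr y
  have hg : ∀ z, HasFDerivAt (fun z => Ψ r z (y + s • z))
      (dZ Ψ r z (y + s • z) + s • dX Ψ r z (y + s • z)) z := by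
    intro z
    have h1 := (h.diff (p := (r, z, y + s • z)) hr).hasFDerivAt
    have h2 : HasFDerivAt (fun z' : Sp d => ((r, z', y + s • z') : ℝ × Sp d × Sp d))
        (iz d + s • ix d) z := by
      have h3 : HasFDerivAt (fun z' : Sp d => y + s • z') (s • ContinuousLinearMap.id ℝ (Sp d)) z :=
        ((hasFDerivAt_id z).const_smul s).const_add y
      have h4 := (hasFDerivAt_const r z).prodMk ((hasFDerivAt_id (𝕜 := ℝ) z).prodMk h3)
      refine h4.congr_fderiv ?_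
      ext v <;> simp [iz, ix]
    have h3 := h1.comp z h2
    rw [h.dZ_eq hr, h.dX_eq hr]
    refine h3.congr_fderiv ?_
    ext v
    simp
  have hi : Integrable fun z => dZ Ψ r z (y + s • z) + s • dX Ψ r z (y + s • z) :=
    hZ.add (hX.smul s)
  have h0 : ∫ z, (dZ Ψ r z (y + s • z) + s • dX Ψ r z (y + s • z)) = 0 := by
    ext v
    rw [ContinuousLinearMap.integral_apply hi]
    exact integral_fderiv_zero hg (h.int_z s hr y) hi v
  have e : ∫ z, (dZ Ψ r z (y + s • z) + s • dX Ψ r z (y + s • z))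
      = (∫ z, dZ Ψ r z (y + s • z)) + ∫ z, s • dX Ψ r z (y + s • z) :=
    integral_add hZ (hX.smul s)
  rw [e, integral_smul] at h0
  rw [eq_neg_iff_add_eq_zero, add_comm]
  exact h0

/-- the integrand of the derivative -/
def zd (ε : ℝ) (Ψ : ℝ → Sp d → Sp d → G) (r : ℝ) (z x : Sp d) : Sp d →L[ℝ] G :=
  (-(1 / (ε * r))) • dZ Ψ r z x

lemma Reg.zd {Ψ : ℝ → Sp d → Sp d → G} {m : ℕ} (h : Reg (m + 1) Ψ) {ε : ℝ} (hε : 0 < ε) :
    Reg m (zd ε Ψ) := by
  refine ⟨?_, fun r z x hz => ?_⟩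
  · have h1 : ContDiffOn ℝ m (fun p : ℝ × Sp d × Sp d => -(1 / (ε * p.1))) (Om d) := by
      refine (ContDiffOn.div contDiffOn_const (contDiffOn_const.mul contDiffOn_fst) ?_).neg
      intro p hp
      have : 0 < p.1 := hp
      positivity
    exact h1.smul h.dZ.smooth
  · unfold WBT.zd
    rw [h.dZ.supp r z x hz, smul_zero]

lemma II_dX [CompleteSpace G] {Ψ : ℝ → Sp d → Sp d → G} {m : ℕ} (h : Reg (m + 1) Ψ) {ε : ℝ}
    (hε : 0 < ε) (y : Sp d) : II ε (dX Ψ) y = II ε (zd ε Ψ) y := by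
  rw [II_iter h.dX, II_iter (h.zd hε), intervalIntegral.integral_of_le (by norm_num),
    intervalIntegral.integral_of_le (by norm_num)]
  refine setIntegral_congr_fun measurableSet_Ioc fun r hr => ?_
  have hr0 : (0 : ℝ) < r := by
    have : (1 / 2 : ℝ) < r := hr.1
    linarith
  have hs : 0 < ε * r := by positivity
  have h1 := ibp_z h (ε * r) hr0 y
  have h2 : ∫ z, zd ε Ψ r z (y + (ε * r) • z)
      = (-(1 / (ε * r))) • ∫ z, dZ Ψ r z (y + (ε * r) • z) := by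
    unfold zd
    rw [integral_smul]
  show tau 1 r • ∫ z, dX Ψ r z (y + (ε * r) • z) = tau 1 r • ∫ z, zd ε Ψ r z (y + (ε * r) • z)
  have h3 : (-(1 / (ε * r))) • ∫ z, dZ Ψ r z (y + (ε * r) • z)
      = ∫ z, dX Ψ r z (y + (ε * r) • z) := by
    rw [neg_eq_iff_eq_neg.1 h1.symm, smul_neg, neg_smul, neg_neg, smul_smul,
      one_div_mul_cancel hs.ne', one_smul]
  rw [h2, h3]

lemma II_hasFDerivAt' [CompleteSpace G] {Ψ : ℝ → Sp d → Sp d → G} {m : ℕ} (h : Reg (m + 1) Ψ)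
    {ε : ℝ} (hε : 0 < ε) (y : Sp d) : HasFDerivAt (II ε Ψ) (II ε (zd ε Ψ) y) y := by
  rw [← II_dX h hε]
  exact II_hasFDerivAt h ε y

lemma II_fderiv [CompleteSpace G] {Ψ : ℝ → Sp d → Sp d → G} {m : ℕ} (h : Reg (m + 1) Ψ)
    {ε : ℝ} (hε : 0 < ε) : fderiv ℝ (II ε Ψ) = II ε (zd ε Ψ) :=
  funext fun y => (II_hasFDerivAt' h hε y).fderiv

lemma II_continuous {Ψ : ℝ → Sp d → Sp d → G} {m : ℕ} (h : Reg m Ψ) (ε : ℝ) :
    Continuous (II ε Ψ) := by
  rw [continuous_iff_continuousAt]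
  intro y
  have hK : IsCompact (closedBall y 1 ×ˢ Q2 d) := (isCompact_closedBall _ _).prod isCompact_Q2
  have hc := h.contOn ε
  obtain ⟨B, hB⟩ := hK.exists_bound_of_continuousOn (hc.mono fun q hq => by
    have : (1 / 2 : ℝ) ≤ q.2.1 := hq.2.1.1
    show 0 < q.2.1
    linarith)
  have hfin : IsFiniteMeasure ((volume : Measure (ℝ × Sp d)).restrict (Q2 d)) :=
    ⟨by rw [Measure.restrict_apply_univ]; exact isCompact_Q2.measure_lt_top⟩
  refine continuousAt_of_dominated (bound := fun _ => B) ?_ ?_ (integrable_const B) ?_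
  · exact Eventually.of_forall fun y' =>
      (h.contOn' ε y').aestronglyMeasurable measurableSet_Q2
  · filter_upwards [closedBall_mem_nhds y one_pos] with y' hy'
    exact (ae_restrict_iff' measurableSet_Q2).2 (Eventually.of_forall fun p hp =>
      hB (y', p) ⟨hy', hp⟩)
  · refine (ae_restrict_iff' measurableSet_Q2).2 (Eventually.of_forall fun p hp => ?_)
    have hp0 : 0 < p.1 := by
      have : (1 / 2 : ℝ) ≤ p.1 := hp.1.1
      linarith
    have h2 : ContinuousAt (fun q : Sp d × (ℝ × Sp d) =>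
        tau 1 q.2.1 • Ψ q.2.1 q.2.2 (q.1 + (ε * q.2.1) • q.2.2)) (y, p) :=
      hc.continuousAt ((isOpen_lt continuous_const
        (continuous_fst.comp continuous_snd)).mem_nhds hp0)
    exact h2.comp (f := fun y' : Sp d => ((y', p) : Sp d × (ℝ × Sp d))) (by fun_prop)

lemma II_contDiff {m : ℕ} : ∀ {G : Type} [NormedAddCommGroup G] [NormedSpace ℝ G]
    [CompleteSpace G] {Ψ : ℝ → Sp d → Sp d → G}, Reg m Ψ → ∀ {ε : ℝ}, 0 < ε →
    ContDiff ℝ m (II ε Ψ) := by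
  induction m with
  | zero =>
    intro G _ _ _ Ψ h ε hε
    rw [Nat.cast_zero, contDiff_zero]
    exact II_continuous h ε
  | succ m ih =>
    intro G _ _ _ Ψ h ε hε
    rw [Nat.cast_succ, contDiff_succ_iff_fderiv]
    refine ⟨fun y => (II_hasFDerivAt' h hε y).differentiableAt, by simp, ?_⟩
    rw [II_fderiv h hε]
    exact ih (h.zd hε) hε

/-! ### Linearity -/

lemma II_congr {Ψ Ψ' : ℝ → Sp d → Sp d → G} (ε : ℝ) (h : ∀ r z x, 0 < r → Ψ r z x = Ψ' r z x)
    (y : Sp d) : II ε Ψ y = II ε Ψ' y := by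
  unfold II
  refine setIntegral_congr_fun measurableSet_Q2 fun p hp => ?_
  have hp0 : 0 < p.1 := by
    have : (1 / 2 : ℝ) ≤ p.1 := hp.1.1
    linarith
  rw [h _ _ _ hp0]

lemma II_add {Ψ Ψ' : ℝ → Sp d → Sp d → G} {m m' : ℕ} (h : Reg m Ψ) (h' : Reg m' Ψ') (ε : ℝ)
    (y : Sp d) : II ε (fun r z x => Ψ r z x + Ψ' r z x) y = II ε Ψ y + II ε Ψ' y := by
  unfold II
  rw [← integral_add (h.integrableOn ε y) (h'.integrableOn ε y)]
  exact integral_congr_ae (Eventually.of_forall fun p => smul_add _ _ _)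

lemma II_smul {Ψ : ℝ → Sp d → Sp d → G} (c : ℝ) (ε : ℝ) (y : Sp d) :
    II ε (fun r z x => c • Ψ r z x) y = c • II ε Ψ y := by
  unfold II
  rw [← integral_smul]
  exact integral_congr_ae (Eventually.of_forall fun p => smul_comm _ _ _)

lemma II_clm {G' : Type*} [NormedAddCommGroup G'] [NormedSpace ℝ G'] [CompleteSpace G]
    [CompleteSpace G'] (L : G →L[ℝ] G') {Ψ : ℝ → Sp d → Sp d → G} {m : ℕ} (h : Reg m Ψ) (ε : ℝ)
    (y : Sp d) : II ε (fun r z x => L (Ψ r z x)) y = L (II ε Ψ y) := by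
  unfold II
  rw [← L.integral_comp_comm (h.integrableOn ε y)]
  simp only [map_smul]

lemma II_apply [CompleteSpace G] {Φ : ℝ → Sp d → Sp d → (Sp d →L[ℝ] G)} {m : ℕ} (h : Reg m Φ)
    (ε : ℝ) (y e : Sp d) : (II ε Φ y) e = II ε (fun r z x => Φ r z x e) y :=
  (II_clm (ContinuousLinearMap.apply ℝ G e) h ε y).symm

lemma Reg.add {Ψ Ψ' : ℝ → Sp d → Sp d → G} {m : ℕ} (h : Reg m Ψ) (h' : Reg m Ψ') :
    Reg m (fun r z x => Ψ r z x + Ψ' r z x) :=
  ⟨h.smooth.add h'.smooth, fun r z x hz => by rw [h.supp r z x hz, h'.supp r z x hz, add_zero]⟩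

lemma Reg.csmul {Ψ : ℝ → Sp d → Sp d → G} {m : ℕ} (h : Reg m Ψ) (c : ℝ) :
    Reg m (fun r z x => c • Ψ r z x) :=
  ⟨h.smooth.const_smul c, fun r z x hz => by rw [h.supp r z x hz, smul_zero]⟩

lemma Reg.clm {G' : Type*} [NormedAddCommGroup G'] [NormedSpace ℝ G'] (L : G →L[ℝ] G')
    {Ψ : ℝ → Sp d → Sp d → G} {m : ℕ} (h : Reg m Ψ) : Reg m (fun r z x => L (Ψ r z x)) :=
  ⟨L.contDiff.comp_contDiffOn h.smooth, fun r z x hz => by rw [h.supp r z x hz, map_zero]⟩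

lemma Reg.congr {Ψ Ψ' : ℝ → Sp d → Sp d → G} {m : ℕ} (h : Reg m Ψ)
    (he : ∀ r z x, 0 < r → Ψ' r z x = Ψ r z x) (hs : ∀ r z x, 1 < ‖z‖ → Ψ' r z x = 0) :
    Reg m Ψ' :=
  ⟨h.smooth.congr fun p hp => he p.1 p.2.1 p.2.2 hp, hs⟩

/-! ### Smooth functions of `(r, x)` -/

/-- the domain -/
def Oh (d : ℕ) : Set (ℝ × Sp d) := {p | 0 < p.1}

lemma isOpen_Oh : IsOpen (Oh d) := isOpen_lt continuous_const continuous_fst

/-- smooth functions of `r > 0` and `x` -/
def SF (F : ℝ → Sp d → ℝ) : Prop := ContDiffOn ℝ ∞ (fun p : ℝ × Sp d => F p.1 p.2) (Oh d)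

lemma SF.add {F F' : ℝ → Sp d → ℝ} (h : SF F) (h' : SF F') : SF fun r x => F r x + F' r x :=
  ContDiffOn.add h h'

lemma SF.mul {F F' : ℝ → Sp d → ℝ} (h : SF F) (h' : SF F') : SF fun r x => F r x * F' r x :=
  ContDiffOn.mul h h'

lemma SF.neg {F : ℝ → Sp d → ℝ} (h : SF F) : SF fun r x => - F r x := ContDiffOn.neg h

lemma SF.div {F F' : ℝ → Sp d → ℝ} (h : SF F) (h' : SF F') (h0 : ∀ r x, 0 < r → F' r x ≠ 0) :
    SF fun r x => F r x / F' r x :=
  ContDiffOn.div h h' fun p hp => h0 p.1 p.2 hp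

lemma SF.pow {F : ℝ → Sp d → ℝ} (h : SF F) (k : ℕ) : SF fun r x => F r x ^ k :=
  ContDiffOn.pow h k

lemma SF.const (c : ℝ) : SF fun (_ : ℝ) (_ : Sp d) => c := contDiffOn_const

lemma SF.r : SF fun (r : ℝ) (_ : Sp d) => r := contDiffOn_fst

lemma SF.inv_r {ε : ℝ} (hε : 0 < ε) : SF fun (r : ℝ) (_ : Sp d) => -(1 / (ε * r)) :=
  ((SF.const 1).div ((SF.const ε).mul SF.r) fun r _ hr => by positivity).neg

lemma SF.congr {F F' : ℝ → Sp d → ℝ} (h : SF F) (he : ∀ r x, 0 < r → F' r x = F r x) : SF F' :=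
  ContDiffOn.congr h fun p hp => he p.1 p.2 hp

lemma SF.contDiff {F : ℝ → Sp d → ℝ} (h : SF F) {r : ℝ} (hr : 0 < r) : ContDiff ℝ ∞ (F r) := by
  have h1 : ContDiff ℝ ∞ fun x : Sp d => ((r, x) : ℝ × Sp d) := contDiff_const.prodMk contDiff_id
  have h2 : ContDiffOn ℝ ∞ (fun p : ℝ × Sp d => F p.1 p.2) (Oh d) := h
  exact h2.comp_contDiff h1 fun x => hr

lemma SF.diffAt {F : ℝ → Sp d → ℝ} (h : SF F) {p : ℝ × Sp d} (hp : 0 < p.1) :
    DifferentiableAt ℝ (fun p : ℝ × Sp d => F p.1 p.2) p :=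
  (ContDiffOn.differentiableOn h (by simp)).differentiableAt (isOpen_Oh.mem_nhds hp)

/-- the directional derivative in `x` -/
def pX (F : ℝ → Sp d → ℝ) (e : Sp d) (r : ℝ) (x : Sp d) : ℝ := fderiv ℝ (F r) x e

/-- the derivative in `r` -/
def pT (F : ℝ → Sp d → ℝ) (r : ℝ) (x : Sp d) : ℝ := deriv (fun s => F s x) r

lemma SF.hasX {F : ℝ → Sp d → ℝ} (h : SF F) {r : ℝ} (hr : 0 < r) (x : Sp d) :
    HasFDerivAt (F r) ((fderiv ℝ (fun p : ℝ × Sp d => F p.1 p.2) (r, x)).comp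
      (ContinuousLinearMap.inr ℝ ℝ (Sp d))) x :=
  (h.diffAt (p := (r, x)) hr).hasFDerivAt.comp x (hasFDerivAt_prodMk_right r x)

lemma SF.pX_eq {F : ℝ → Sp d → ℝ} (h : SF F) (e : Sp d) {r : ℝ} (hr : 0 < r) (x : Sp d) :
    pX F e r x = fderiv ℝ (fun p : ℝ × Sp d => F p.1 p.2) (r, x) (0, e) := by
  unfold pX
  rw [(h.hasX hr x).fderiv]
  simp

lemma SF.pT_eq {F : ℝ → Sp d → ℝ} (h : SF F) {r : ℝ} (hr : 0 < r) (x : Sp d) :
    pT F r x = fderiv ℝ (fun p : ℝ × Sp d => F p.1 p.2) (r, x) (1, 0) := by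
  have h0 : HasFDerivAt (fun s : ℝ => ((s, x) : ℝ × Sp d)) (ContinuousLinearMap.inl ℝ ℝ (Sp d)) r :=
    hasFDerivAt_prodMk_left r x
  have h2 := (h.diffAt (p := (r, x)) hr).hasFDerivAt
  have h1 : HasFDerivAt (fun s => F s x) ((fderiv ℝ (fun p : ℝ × Sp d => F p.1 p.2) (r, x)).comp
      (ContinuousLinearMap.inl ℝ ℝ (Sp d))) r :=
    HasFDerivAt.comp (g := fun p : ℝ × Sp d => F p.1 p.2) r h2 h0
  unfold pT
  rw [h1.hasDerivAt.deriv]
  simp

lemma SF.fder {F : ℝ → Sp d → ℝ} (h : SF F) (w : ℝ × Sp d) :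
    ContDiffOn ℝ ∞ (fun p => fderiv ℝ (fun p : ℝ × Sp d => F p.1 p.2) p w) (Oh d) :=
  (ContDiffOn.fderiv_of_isOpen h isOpen_Oh (by simp)).clm_apply contDiffOn_const

lemma SF.pX {F : ℝ → Sp d → ℝ} (h : SF F) (e : Sp d) : SF (pX F e) :=
  (h.fder (0, e)).congr fun p hp => h.pX_eq e hp p.2

lemma SF.pT {F : ℝ → Sp d → ℝ} (h : SF F) : SF (pT F) :=
  (h.fder (1, 0)).congr fun p hp => h.pT_eq hp p.2

lemma pX_comm {F : ℝ → Sp d → ℝ} (h : SF F) (e n : Sp d) {r : ℝ} (hr : 0 < r) (x : Sp d) :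
    pX (pX F e) n r x = pX (pX F n) e r x := by
  have h1 := h.contDiff hr
  have h2 : DifferentiableAt ℝ (fderiv ℝ (F r)) x :=
    ((h1.fderiv_right (m := 1) (by norm_cast)).differentiable (by simp)).differentiableAt
  have h3 : ∀ a b : Sp d, pX (pX F a) b r x = fderiv ℝ (fderiv ℝ (F r)) x b a := by
    intro a b
    have : HasFDerivAt (fun x' => fderiv ℝ (F r) x' a)
        ((ContinuousLinearMap.apply ℝ ℝ a).comp (fderiv ℝ (fderiv ℝ (F r)) x)) x :=
      (ContinuousLinearMap.apply ℝ ℝ a).hasFDerivAt.comp x h2.hasFDerivAt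
    unfold pX
    rw [this.fderiv]
    rfl
  rw [h3, h3]
  exact (h1.contDiffAt.isSymmSndFDerivAt (by
    rw [minSmoothness_of_isRCLikeNormedField]
    exact WithTop.coe_le_coe.2 le_top)) n e

end WBT

end

end TG


end

section

/-!
# Averages over scales and profiles: products and integration by parts (module WB)
-/

open MeasureTheory Metric Set TrI Filter Topology
open scoped InnerProductSpace ContDiff

namespace TG

noncomputable section

namespace WBT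

variable {d : ℕ} {G : Type*} [NormedAddCommGroup G] [NormedSpace ℝ G]

/-- kernels -/
structure KC (m : ℕ) (K : Sp d → G) : Prop where
  smooth : ContDiff ℝ m K
  supp : ∀ z, 1 < ‖z‖ → K z = 0

lemma KC.mono {m n : ℕ} {K : Sp d → G} (h : KC n K) (hmn : m ≤ n) : KC m K :=
  ⟨h.smooth.of_le (by exact_mod_cast hmn), h.supp⟩

lemma KC.diff {m : ℕ} {K : Sp d → G} (h : KC (m + 1) K) (z : Sp d) : DifferentiableAt ℝ K z :=
  (h.smooth.differentiable (by simp)).differentiableAt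

lemma fderiv_supp {K : Sp d → G} (h : ∀ z, 1 < ‖z‖ → K z = 0) (z : Sp d) (hz : 1 < ‖z‖) :
    fderiv ℝ K z = 0 := by
  have h1 : K =ᶠ[𝓝 z] fun _ => 0 := by
    filter_upwards [(isOpen_lt continuous_const continuous_norm).mem_nhds hz] with z' hz'
    exact h z' hz'
  rw [h1.fderiv_eq]
  simp

lemma KC.fderiv {m : ℕ} {K : Sp d → G} (h : KC (m + 1) K) : KC m (fderiv ℝ K) :=
  ⟨h.smooth.fderiv_right (by push_cast; exact le_rfl), fderiv_supp h.supp⟩

lemma KC.clm {G' : Type*} [NormedAddCommGroup G'] [NormedSpace ℝ G'] (L : G →L[ℝ] G') {m : ℕ}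
    {K : Sp d → G} (h : KC m K) : KC m (fun z => L (K z)) :=
  ⟨L.contDiff.comp h.smooth, fun z hz => by rw [h.supp z hz, map_zero]⟩

lemma KC.dir {m : ℕ} {K : Sp d → G} (h : KC (m + 1) K) (e : Sp d) :
    KC m (fun z => _root_.fderiv ℝ K z e) :=
  h.fderiv.clm (ContinuousLinearMap.apply ℝ G e)

lemma KC.smul {m : ℕ} {K : Sp d → G} (h : KC m K) {f : Sp d → ℝ} (hf : ContDiff ℝ m f) :
    KC m (fun z => f z • K z) :=
  ⟨hf.smul h.smooth, fun z hz => by rw [h.supp z hz, smul_zero]⟩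

lemma KC.add {m : ℕ} {K K' : Sp d → G} (h : KC m K) (h' : KC m K') :
    KC m (fun z => K z + K' z) :=
  ⟨h.smooth.add h'.smooth, fun z hz => by rw [h.supp z hz, h'.supp z hz, add_zero]⟩

lemma KC.csmul {m : ℕ} {K : Sp d → G} (h : KC m K) (c : ℝ) : KC m (fun z => c • K z) :=
  ⟨h.smooth.const_smul c, fun z hz => by rw [h.supp z hz, smul_zero]⟩

/-- products -/
def pr (F : ℝ → Sp d → ℝ) (K : Sp d → G) (r : ℝ) (z x : Sp d) : G := F r x • K z

lemma SF.lift {F : ℝ → Sp d → ℝ} (h : SF F) (m : ℕ) :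
    ContDiffOn ℝ m (fun p : ℝ × Sp d × Sp d => F p.1 p.2.2) (Om d) := by
  have h1 : ContDiffOn ℝ ∞ (fun p : ℝ × Sp d => F p.1 p.2) (Oh d) := h
  have h2 : ContDiff ℝ m fun p : ℝ × Sp d × Sp d => ((p.1, p.2.2) : ℝ × Sp d) := by fun_prop
  exact (h1.of_le (by exact_mod_cast le_top)).comp h2.contDiffOn fun p hp => hp

lemma KC.lift {m : ℕ} {K : Sp d → G} (h : KC m K) :
    ContDiffOn ℝ m (fun p : ℝ × Sp d × Sp d => K p.2.1) (Om d) := by
  have h2 : ContDiff ℝ m fun p : ℝ × Sp d × Sp d => p.2.1 := by fun_prop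
  exact (h.smooth.comp h2).contDiffOn

lemma Reg.pr {F : ℝ → Sp d → ℝ} {K : Sp d → G} {m : ℕ} (hF : SF F) (hK : KC m K) :
    Reg m (pr F K) :=
  ⟨(hF.lift m).smul hK.lift, fun r z x hz => by rw [WBT.pr, hK.supp z hz, smul_zero]⟩

lemma zd_pr {F : ℝ → Sp d → ℝ} {K : Sp d → G} {m : ℕ} (hK : KC (m + 1) K) (ε : ℝ) :
    zd ε (pr F K) = pr (fun r x => -(1 / (ε * r)) * F r x) (_root_.fderiv ℝ K) := by
  funext r z x
  have h1 : dZ (WBT.pr F K) r z x = F r x • _root_.fderiv ℝ K z := by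
    unfold dZ
    exact ((hK.diff z).hasFDerivAt.const_smul (F r x)).fderiv
  rw [zd, h1, pr, smul_smul]

/-- fderiv of the average of a product -/
lemma II_pr_fderiv [CompleteSpace G] {F : ℝ → Sp d → ℝ} {K : Sp d → G} {m : ℕ} (hF : SF F)
    (hK : KC (m + 1) K) {ε : ℝ} (hε : 0 < ε) : fderiv ℝ (II ε (pr F K))
      = II ε (pr (fun r x => -(1 / (ε * r)) * F r x) (_root_.fderiv ℝ K)) := by
  rw [II_fderiv (Reg.pr hF hK) hε, zd_pr hK]

lemma dX_pr {F : ℝ → Sp d → ℝ} {K : Sp d → G} (hF : SF F) {r : ℝ} (hr : 0 < r) (z x e : Sp d) :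
    dX (pr F K) r z x e = pX F e r x • K z := by
  have h1 : HasFDerivAt (fun x' => F r x' • K z) ((_root_.fderiv ℝ (F r) x).smulRight (K z)) x :=
    ((hF.contDiff hr).differentiable (by simp)).differentiableAt.hasFDerivAt.smul_const (K z)
  unfold dX
  have h2 : (fun x' => WBT.pr F K r z x') = fun x' => F r x' • K z := rfl
  rw [h2, h1.fderiv]
  rfl

/-- integration by parts -/
lemma II_ibp [CompleteSpace G] {F : ℝ → Sp d → ℝ} {K : Sp d → G} {m : ℕ} (hF : SF F)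
    (hK : KC (m + 1) K) {ε : ℝ} (hε : 0 < ε) (e y : Sp d) :
    II ε (pr (pX F e) K) y
      = II ε (pr (fun r x => -(1 / (ε * r)) * F r x) (fun z => _root_.fderiv ℝ K z e)) y := by
  have hR := Reg.pr hF hK
  have h1 : (II ε (dX (pr F K)) y) e = (II ε (zd ε (pr F K)) y) e := by rw [II_dX hR hε]
  rw [II_apply hR.dX, II_apply (hR.zd hε), zd_pr hK] at h1
  have h2 : II ε (pr (pX F e) K) y = II ε (fun r z x => (dX (pr F K) r z x) e) y :=
    II_congr ε (fun r z x hr => (dX_pr hF hr z x e).symm) y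
  rw [h2]
  exact h1

/-- exchange of two directions -/
lemma II_swap [CompleteSpace G] {F : ℝ → Sp d → ℝ} {ρ : ℝ → Sp d → ℝ} {K : Sp d → G} {m : ℕ}
    (hF : SF F) (hρ : SF ρ) (hρx : ∀ r x x', ρ r x = ρ r x') (hK : KC (m + 1) K) {ε : ℝ}
    (hε : 0 < ε) (e n y : Sp d) :
    II ε (pr (fun r x => ρ r x * pX F n r x) (fun z => _root_.fderiv ℝ K z e)) y
      = II ε (pr (fun r x => ρ r x * pX F e r x) (fun z => _root_.fderiv ℝ K z n)) y := by
  set W : ℝ → Sp d → ℝ := fun r x => -(ε * r) * ρ r x with hW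
  have hWs : SF W := (((SF.const ε).mul SF.r).neg).mul hρ
  have key : ∀ a b : Sp d, II ε (pr (fun r x => ρ r x * pX F b r x)
      (fun z => _root_.fderiv ℝ K z a)) y
      = II ε (pr (fun r x => W r x * pX (pX F b) a r x) K) y := by
    intro a b
    have h1 := II_ibp (hWs.mul (hF.pX b)) hK hε a y
    have e1 : II ε (pr (pX (fun r x => W r x * pX F b r x) a) K) y
        = II ε (pr (fun r x => W r x * pX (pX F b) a r x) K) y := by
      refine II_congr ε (fun r z x hr => ?_) y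
      unfold pr
      congr 1
      have h2 : (fun x' => W r x' * pX F b r x') = fun x' => W r x * pX F b r x' := by
        funext x'
        rw [hW]
        simp only
        rw [hρx r x' x]
      have h3 : HasFDerivAt (fun x' => W r x * pX F b r x')
          (W r x • _root_.fderiv ℝ (pX F b r) x) x :=
        (((hF.pX b).contDiff hr).differentiable (by simp)).differentiableAt.hasFDerivAt.const_mul _
      show _root_.fderiv ℝ (fun x' => W r x' * pX F b r x') x a = _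
      rw [h2, h3.fderiv]
      rfl
    rw [← e1, h1]
    refine II_congr ε (fun r z x hr => ?_) y
    unfold pr
    congr 1
    rw [hW]
    field_simp
  rw [key e n, key n e]
  refine II_congr ε (fun r z x hr => ?_) y
  show (W r x * pX (pX F n) e r x) • K z = (W r x * pX (pX F e) n r x) • K z
  rw [pX_comm hF n e hr]

/-! ### Averages with the ray derivative -/

/-- `(A + ε z_n B) K` -/
def dp (A B : ℝ → Sp d → ℝ) (n : Sp d) (ε : ℝ) (K : Sp d → G) (r : ℝ) (z x : Sp d) : G :=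
  (A r x + ε * ⟪n, z⟫_ℝ * B r x) • K z

/-- `K ⊗ n` -/
def tens (n : Sp d) (K : Sp d → G) (z : Sp d) : Sp d →L[ℝ] G :=
  (innerSL ℝ n).smulRight (K z)

lemma Reg.dp {A B : ℝ → Sp d → ℝ} {K : Sp d → G} {m : ℕ} (hA : SF A) (hB : SF B)
    (hK : KC m K) (n : Sp d) (ε : ℝ) : Reg m (dp A B n ε K) := by
  refine ⟨?_, fun r z x hz => by rw [WBT.dp, hK.supp z hz, smul_zero]⟩
  have h1 : ContDiffOn ℝ m (fun p : ℝ × Sp d × Sp d => ε * ⟪n, p.2.1⟫_ℝ) (Om d) := by
    have : ContDiff ℝ m fun p : ℝ × Sp d × Sp d => ε * ⟪n, p.2.1⟫_ℝ :=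
      contDiff_const.mul (((innerSL ℝ n).contDiff).comp (contDiff_fst.comp contDiff_snd))
    exact this.contDiffOn
  exact ((hA.lift m).add (h1.mul (hB.lift m))).smul hK.lift

lemma KC.tens {m : ℕ} {K : Sp d → G} (h : KC m K) (n : Sp d) : KC m (tens n K) :=
  h.clm ((ContinuousLinearMap.smulRightL ℝ (Sp d) G) (innerSL ℝ n))

lemma zd_dp {A B : ℝ → Sp d → ℝ} {K : Sp d → G} {m : ℕ} (hK : KC (m + 1) K) (n : Sp d)
    {ε : ℝ} (hε : 0 < ε) {r : ℝ} (hr : 0 < r) (z x : Sp d) :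
    zd ε (dp A B n ε K) r z x = dp (fun r x => -(1 / (ε * r)) * A r x)
      (fun r x => -(1 / (ε * r)) * B r x) n ε (_root_.fderiv ℝ K) r z x
      + pr (fun r x => -(1 / r) * B r x) (tens n K) r z x := by
  have h1 : HasFDerivAt (fun z' : Sp d => A r x + ε * ⟪n, z'⟫_ℝ * B r x)
      ((ε * B r x) • innerSL ℝ n) z := by
    have h2 : HasFDerivAt (fun z' : Sp d => ⟪n, z'⟫_ℝ) (innerSL ℝ n) z :=
      (innerSL ℝ n).hasFDerivAt
    have h3 := ((h2.const_mul ε).mul_const (B r x)).const_add (A r x)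
    refine h3.congr_fderiv ?_
    ext v
    simp
    ring
  have h4 : dZ (WBT.dp A B n ε K) r z x = (A r x + ε * ⟪n, z⟫_ℝ * B r x) • _root_.fderiv ℝ K z
      + ((ε * B r x) • innerSL ℝ n).smulRight (K z) := by
    unfold dZ
    exact (h1.smul (hK.diff z).hasFDerivAt).fderiv
  rw [zd, h4]
  unfold dp pr tens
  ext v
  simp only [smul_apply, add_apply,
    ContinuousLinearMap.smulRight_apply, innerSL_apply_apply, smul_add, smul_smul, smul_eq_mul]
  congr 2
  · ring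
  · field_simp

end WBT

end

end TG


end

section

/-!
# The Cauchy-Schwarz inequality with disc averages (module WB)
-/

open MeasureTheory Metric Set TrI Filter Topology
open scoped InnerProductSpace ContDiff Pointwise

namespace TG

noncomputable section

namespace WBT

variable {d : ℕ} {G : Type*} [NormedAddCommGroup G] [NormedSpace ℝ G]

/-- the properties of the potential -/
structure VOK (C : ℝ) (V : ℝ → Sp d → ℝ) : Prop where
  sf : SF V
  pos : ∀ r x, 0 < r → 0 < V r x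
  dx : ∀ r x e, 1 / 2 ≤ r → r ≤ 2 → ‖e‖ ≤ 1 → |pX V e r x| ≤ C * V r x
  dt : ∀ r x, 1 / 2 ≤ r → r ≤ 2 → |pT V r x| ≤ C * V r x
  comp : ∀ r x y, 1 / 2 ≤ r → r ≤ 2 → ‖x - y‖ ≤ 4 → V r x ≤ C * V 1 y

lemma vok (h : StmtTH) (hd : 2 ≤ d) {C' : ℝ} (hC' : 0 < C') : ∃ C : ℝ, 1 ≤ C ∧
    ∀ μ : Measure (Sp d), Gro C' μ → VOK C (vv μ) := by
  obtain ⟨C, hC, h1⟩ := h d 1 hd C' hC'
  have h0 : 0 ≤ Real.sqrt (C * 5 ^ d) := Real.sqrt_nonneg _
  refine ⟨1 + 2 * C + Real.sqrt (C * 5 ^ d), by linarith, fun μ hμ => ?_⟩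
  obtain ⟨t1, t2, t3, t4, t5⟩ := h1 μ hμ
  have hsf : SF (vv μ) := t2
  have hp : ∀ r x, 0 < r → 0 < vv μ r x := fun r x hr => Real.sqrt_pos.2 (t1 r x hr).1
  have key : ∀ (r : ℝ) (x : Sp d) (w : ℝ × Sp d), 1 / 2 ≤ r → ‖w‖ ≤ 1 →
      |fderiv ℝ (fun p : ℝ × Sp d => vv μ p.1 p.2) (r, x) w|
        ≤ (1 + 2 * C + Real.sqrt (C * 5 ^ d)) * vv μ r x := by
    intro r x w hr hw
    have hr0 : 0 < r := by linarith
    have h2 := t3 r x 1 hr0 le_rfl
    rw [norm_iteratedFDeriv_one, pow_one] at h2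
    have h3 := (fderiv ℝ (fun p : ℝ × Sp d => vv μ p.1 p.2) (r, x)).le_opNorm w
    rw [Real.norm_eq_abs] at h3
    have h4 : C * vv μ r x / r ≤ 2 * C * vv μ r x := by
      rw [div_le_iff₀ hr0]
      have := mul_pos hC (hp r x hr0)
      nlinarith only [hr, this]
    have h5 := mul_le_mul_of_nonneg_left hw
      (norm_nonneg (fderiv ℝ (fun p : ℝ × Sp d => vv μ p.1 p.2) (r, x)))
    have h6 := mul_nonneg h0 (hp r x hr0).le
    have h7 := (hp r x hr0).le
    linarith only [h2, h3, h4, h5, h6, h7]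
  refine ⟨hsf, hp, fun r x e hr _ he => ?_, fun r x hr _ => ?_, fun r x y hr hr2 hxy => ?_⟩
  · rw [hsf.pX_eq e (by linarith) x]
    refine key r x _ hr ?_
    rw [Prod.norm_def]
    simpa using he
  · rw [hsf.pT_eq (by linarith) x]
    refine key r x _ hr ?_
    rw [Prod.norm_def]
    simp
  · have h2 := t5 r 1 x one_pos (by linarith) (by linarith)
    have h3 := t4 1 y x one_pos
    have h4 : (1 + ‖y - x‖ / 1) ^ d ≤ 5 ^ d := by
      refine pow_le_pow_left₀ (by positivity) ?_ d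
      rw [div_one, norm_sub_rev]
      linarith
    have h5 : 0 < th μ 1 y := (t1 1 y one_pos).1
    have h6 : th μ r x ≤ (C * 5 ^ d) * th μ 1 y := by
      calc th μ r x ≤ C * th μ 1 x := h2
        _ ≤ C * (5 ^ d * th μ 1 y) := by
            refine mul_le_mul_of_nonneg_left (h3.trans ?_) hC.le
            exact mul_le_mul_of_nonneg_right h4 h5.le
        _ = _ := by ring
    have h7 : vv μ r x ≤ Real.sqrt (C * 5 ^ d) * vv μ 1 y := by
      unfold vv
      rw [← Real.sqrt_mul (by positivity)]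
      exact Real.sqrt_le_sqrt h6
    have h8 : 0 < vv μ 1 y := hp 1 y one_pos
    linarith only [h7, h8, mul_pos hC h8]

/-! ### The energy densities -/

/-- tangential gradient squared -/
def TT (V : ℝ → Sp d → ℝ) (n : Sp d) (r : ℝ) (x : Sp d) : ℝ := ‖tang n (gradient (V r) x)‖ ^ 2

/-- the quadratic form -/
def QH (V : ℝ → Sp d → ℝ) (n : Sp d) (ε r : ℝ) (z x : Sp d) : ℝ :=
  TT V n r x + (pT V r x + ε * ⟪n, z⟫_ℝ * pX V n r x) ^ 2

/-- the energy density -/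
def HH (V : ℝ → Sp d → ℝ) (n : Sp d) (ε r : ℝ) (z x : Sp d) : ℝ := QH V n ε r z x / V r x

lemma norm_tang_sq {n : Sp d} (hn : ‖n‖ = 1) (w : Sp d) :
    ‖tang n w‖ ^ 2 = ‖w‖ ^ 2 - ⟪n, w⟫_ℝ ^ 2 := by
  unfold tang
  rw [norm_sub_sq_real, norm_smul, hn, real_inner_smul_right, real_inner_comm, Real.norm_eq_abs,
    mul_one, sq_abs]
  ring

lemma inner_tang {n e : Sp d} (he : ⟪n, e⟫_ℝ = 0) (w : Sp d) : ⟪tang n w, e⟫_ℝ = ⟪w, e⟫_ℝ := by
  unfold tang
  rw [inner_sub_left, real_inner_smul_left, he, mul_zero, sub_zero]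

lemma inner_n_tang {n : Sp d} (hn : ‖n‖ = 1) (w : Sp d) : ⟪n, tang n w⟫_ℝ = 0 := by
  unfold tang
  rw [inner_sub_right, real_inner_smul_right, real_inner_self_eq_norm_sq, hn]
  ring

lemma inner_grad (f : Sp d → ℝ) (x e : Sp d) : ⟪gradient f x, e⟫_ℝ = fderiv ℝ f x e :=
  inner_gradient_left

lemma TT_eq (V : ℝ → Sp d → ℝ) {n : Sp d} (hn : ‖n‖ = 1) (r : ℝ) (x : Sp d) :
    TT V n r x = ∑ j : Fin d, pX V (EuclideanSpace.single j (1 : ℝ)) r x ^ 2
      - pX V n r x ^ 2 := by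
  unfold TT
  rw [norm_tang_sq hn, EuclideanSpace.norm_sq_eq, real_inner_comm, inner_grad]
  congr 1
  refine Finset.sum_congr rfl fun j _ => ?_
  unfold pX
  rw [← inner_grad, EuclideanSpace.inner_single_right]
  simp

lemma SF.sum {ι : Type*} {F : ι → ℝ → Sp d → ℝ} {s : Finset ι} (h : ∀ i ∈ s, SF (F i)) :
    SF fun r x => ∑ i ∈ s, F i r x :=
  ContDiffOn.sum h

lemma SF.TT {V : ℝ → Sp d → ℝ} (h : SF V) {n : Sp d} (hn : ‖n‖ = 1) : SF (TT V n) := by
  have h1 : SF fun r x => (∑ j : Fin d, WBT.pX V (EuclideanSpace.single j (1 : ℝ)) r x ^ 2)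
      + -(WBT.pX V n r x ^ 2) :=
    (SF.sum fun j _ => (h.pX _).pow 2).add ((h.pX n).pow 2).neg
  exact h1.congr fun r x _ => by rw [TT_eq V hn, sub_eq_add_neg]

lemma QH_nonneg (V : ℝ → Sp d → ℝ) (n : Sp d) (ε r : ℝ) (z x : Sp d) : 0 ≤ QH V n ε r z x := by
  unfold QH TT
  positivity

lemma HH_nonneg {C : ℝ} {V : ℝ → Sp d → ℝ} (hV : VOK C V) (n : Sp d) (ε : ℝ) {r : ℝ} (hr : 0 < r)
    (z x : Sp d) : 0 ≤ HH V n ε r z x :=
  div_nonneg (QH_nonneg V n ε r z x) (hV.pos r x hr).le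

lemma HH_smooth {C : ℝ} {V : ℝ → Sp d → ℝ} (hV : VOK C V) {n : Sp d} (hn : ‖n‖ = 1) (ε : ℝ)
    (m : ℕ) : ContDiffOn ℝ m (fun p : ℝ × Sp d × Sp d => HH V n ε p.1 p.2.1 p.2.2) (Om d) := by
  have h1 : ContDiffOn ℝ m (fun p : ℝ × Sp d × Sp d => ε * ⟪n, p.2.1⟫_ℝ) (Om d) :=
    (contDiff_const.mul (((innerSL ℝ n).contDiff).comp
      (contDiff_fst.comp contDiff_snd))).contDiffOn
  have h2 := ((hV.sf.TT hn).lift m).add (((hV.sf.pT.lift m).add (h1.mul ((hV.sf.pX n).lift m))).pow 2)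
  exact h2.div (hV.sf.lift m) fun p hp => (hV.pos p.1 p.2.2 hp).ne'

lemma SF.comp_cont {F : ℝ → Sp d → ℝ} (h : SF F) {X : Type*} [TopologicalSpace X] {a : X → ℝ}
    {b : X → Sp d} {s : Set X} (ha : ContinuousOn a s) (hb : ContinuousOn b s)
    (hs : ∀ x ∈ s, 0 < a x) : ContinuousOn (fun x => F (a x) (b x)) s := by
  have h1 : ContinuousOn (fun p : ℝ × Sp d => F p.1 p.2) (Oh d) := ContDiffOn.continuousOn h
  exact ContinuousOn.comp (g := fun p : ℝ × Sp d => F p.1 p.2) (f := fun x => (a x, b x)) h1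
    (ha.prodMk hb) fun x hx => hs x hx

lemma HH_comp {C : ℝ} {V : ℝ → Sp d → ℝ} (hV : VOK C V) {n : Sp d} (hn : ‖n‖ = 1) (ε : ℝ)
    {X : Type*} [TopologicalSpace X] {a : X → ℝ} {b c : X → Sp d} {s : Set X}
    (ha : ContinuousOn a s) (hb : ContinuousOn b s) (hc : ContinuousOn c s)
    (hs : ∀ x ∈ s, 0 < a x) : ContinuousOn (fun x => HH V n ε (a x) (b x) (c x)) s := by
  have h1 := (HH_smooth hV hn ε 0).continuousOn
  exact ContinuousOn.comp (g := fun p : ℝ × Sp d × Sp d => HH V n ε p.1 p.2.1 p.2.2)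
    (f := fun x => (a x, b x, c x)) h1 (ha.prodMk (hb.prodMk hc)) fun x hx => hs x hx

lemma HH_shift (V : ℝ → Sp d → ℝ) {n u : Sp d} (hu : ⟪n, u⟫_ℝ = 0) (ε r : ℝ) (z x : Sp d) :
    HH V n ε r (z + u) x = HH V n ε r z x := by
  unfold HH QH
  rw [inner_add_right, hu, add_zero]

lemma Reg.bH {C : ℝ} {V : ℝ → Sp d → ℝ} (hV : VOK C V) {n : Sp d} (hn : ‖n‖ = 1) (ε : ℝ)
    {m : ℕ} {β : Sp d → ℝ} (hβ : KC m β) : Reg m (fun r z x => β z * HH V n ε r z x) :=
  ⟨hβ.lift.mul (HH_smooth hV hn ε m), fun r z x hz => by rw [hβ.supp z hz, zero_mul]⟩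

/-- the average in z -/
def gg (V : ℝ → Sp d → ℝ) (β : Sp d → ℝ) (n : Sp d) (ε r : ℝ) (y : Sp d) : ℝ :=
  ∫ z, β z * HH V n ε r z (y + (ε * r) • z)

/-- the average in z and r -/
def XT (V : ℝ → Sp d → ℝ) (β : Sp d → ℝ) (n : Sp d) (ε : ℝ) (y : Sp d) : ℝ :=
  ∫ r in (1 / 2 : ℝ)..2, tau 1 r * gg V β n ε r y

lemma cont_gg {C : ℝ} {V : ℝ → Sp d → ℝ} (hV : VOK C V) {n : Sp d} (hn : ‖n‖ = 1) (ε : ℝ)
    {β : Sp d → ℝ} (hβ : KC 0 β) :
    ContinuousOn (fun q : ℝ × Sp d => gg V β n ε q.1 q.2) (Oh d) := by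
  have hR := Reg.bH hV hn ε hβ
  refine continuousOn_integral_of_compact_support (k := closedBall (0 : Sp d) 1)
    (isCompact_closedBall _ _) ?_ ?_
  · have h1 : Continuous fun q : (ℝ × Sp d) × Sp d =>
        ((q.1.1, q.2, q.1.2 + (ε * q.1.1) • q.2) : ℝ × Sp d × Sp d) := by fun_prop
    exact hR.smooth.continuousOn.comp h1.continuousOn fun q hq => hq.1
  · intro q z _ hz
    rw [mem_closedBall_zero_iff, not_le] at hz
    exact hR.supp q.1 z _ hz

lemma gg_comp {C : ℝ} {V : ℝ → Sp d → ℝ} (hV : VOK C V) {n : Sp d} (hn : ‖n‖ = 1) (ε : ℝ)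
    {β : Sp d → ℝ} (hβ : KC 0 β) {X : Type*} [TopologicalSpace X] {a : X → ℝ} {b : X → Sp d}
    {s : Set X} (ha : ContinuousOn a s) (hb : ContinuousOn b s)
    (hs : ∀ x ∈ s, 0 < a x) : ContinuousOn (fun x => gg V β n ε (a x) (b x)) s :=
  ContinuousOn.comp (g := fun q : ℝ × Sp d => gg V β n ε q.1 q.2) (f := fun x => (a x, b x))
    (cont_gg hV hn ε hβ) (ha.prodMk hb) fun x hx => hs x hx

lemma gg_nonneg {C : ℝ} {V : ℝ → Sp d → ℝ} (hV : VOK C V) (n : Sp d) (ε : ℝ)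
    {β : Sp d → ℝ} (hβ : ∀ z, 0 ≤ β z) {r : ℝ} (hr : 0 < r) (y : Sp d) : 0 ≤ gg V β n ε r y :=
  integral_nonneg fun z => mul_nonneg (hβ z) (HH_nonneg hV n ε hr _ _)

/-! ### Discs -/

/-- the orthogonal complement -/
abbrev Pn (n : Sp d) : Type := (Submodule.span ℝ {n})ᗮ

lemma inner_Pn (n : Sp d) (u : Pn n) : ⟪n, (u : Sp d)⟫_ℝ = 0 :=
  (Submodule.mem_orthogonal_singleton_iff_inner_right).1 u.2

lemma disc_cont (n : Sp d) {β : Sp d → ℝ} (hβ : Continuous β) : Continuous (disc n β) := by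
  unfold disc
  refine continuous_parametric_integral_of_continuous (f := fun (x : Sp d) (y : Pn n) =>
    β (x - (y : Sp d))) ?_ (isCompact_closedBall _ _)
  have : Continuous fun q : Sp d × Pn n => q.1 - (q.2 : Sp d) := by fun_prop
  exact hβ.comp this

lemma disc_nonneg (n : Sp d) {β : Sp d → ℝ} (hβ : ∀ z, 0 ≤ β z) (z : Sp d) : 0 ≤ disc n β z :=
  integral_nonneg fun _ => hβ _

lemma disc_supp (n : Sp d) {β : Sp d → ℝ} (hβ : ∀ z, 1 < ‖z‖ → β z = 0) {z : Sp d}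
    (hz : 2 < ‖z‖) : disc n β z = 0 := by
  unfold disc
  refine setIntegral_eq_zero_of_forall_eq_zero fun u hu => hβ _ ?_
  rw [mem_closedBall_zero_iff] at hu
  have h1 : ‖(u : Sp d)‖ ≤ 1 := hu
  have h2 := norm_sub_norm_le z (u : Sp d)
  linarith

lemma disc_gg {C : ℝ} {V : ℝ → Sp d → ℝ} (hV : VOK C V) {n : Sp d} (hn : ‖n‖ = 1) (ε : ℝ)
    {β : Sp d → ℝ} (hβ : KC 0 β) {r : ℝ} (hr : 0 < r) (y : Sp d) :
    ∫ z, disc n β z * HH V n ε r z (y + (ε * r) • z)
      = ∫ u in closedBall (0 : Pn n) 1, gg V β n ε r (y + (ε * r) • (u : Sp d)) := by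
  have hc : Continuous β := hβ.smooth.continuous
  have hF : Continuous fun z : Sp d => HH V n ε r z (y + (ε * r) • z) := by
    rw [← continuousOn_univ]
    exact HH_comp hV hn ε continuousOn_const continuousOn_id (by fun_prop) fun z _ => hr
  have e1 : ∀ z, disc n β z * HH V n ε r z (y + (ε * r) • z)
      = ∫ u in closedBall (0 : Pn n) 1, β (z - (u : Sp d)) * HH V n ε r z (y + (ε * r) • z) := by
    intro z
    unfold disc
    rw [integral_mul_const]
  simp_rw [e1]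
  have hi : Integrable (Function.uncurry fun (z : Sp d) (u : Pn n) =>
      β (z - (u : Sp d)) * HH V n ε r z (y + (ε * r) • z))
      ((volume : Measure (Sp d)).prod (volume.restrict (closedBall (0 : Pn n) 1))) := by
    have h2 : Continuous (Function.uncurry fun (z : Sp d) (u : Pn n) =>
      β (z - (u : Sp d)) * HH V n ε r z (y + (ε * r) • z)) := by
      have h3 : Continuous fun q : Sp d × Pn n => q.1 - (q.2 : Sp d) := by fun_prop
      exact (hc.comp h3).mul (hF.comp continuous_fst)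
    have h4 : IntegrableOn (Function.uncurry fun (z : Sp d) (u : Pn n) =>
      β (z - (u : Sp d)) * HH V n ε r z (y + (ε * r) • z))
      (closedBall (0 : Sp d) 2 ×ˢ closedBall (0 : Pn n) 1)
      ((volume : Measure (Sp d)).prod volume) :=
      h2.continuousOn.integrableOn_compact
        ((isCompact_closedBall _ _).prod (isCompact_closedBall _ _))
    have h5 := IntegrableOn.of_forall_sdiff_eq_zero h4
      (t := univ ×ˢ closedBall (0 : Pn n) 1) (MeasurableSet.univ.prod measurableSet_closedBall)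
      (fun q hq => by
        have h6 : ‖(q.2 : Sp d)‖ ≤ 1 := by
          have := hq.1.2
          rwa [mem_closedBall_zero_iff] at this
        have h7 : 2 < ‖q.1‖ := by
          by_contra h8
          exact hq.2 ⟨by rw [mem_closedBall_zero_iff]; linarith, hq.1.2⟩
        have h9 := norm_sub_norm_le q.1 (q.2 : Sp d)
        show β (q.1 - (q.2 : Sp d)) * _ = 0
        rw [hβ.supp _ (by linarith), zero_mul])
    rw [IntegrableOn, ← Measure.prod_restrict, Measure.restrict_univ] at h5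
    exact h5
  rw [integral_integral_swap hi]
  refine integral_congr_ae (Eventually.of_forall fun u => ?_)
  simp only
  unfold gg
  have h3 := integral_sub_right_eq_self (μ := (volume : Measure (Sp d)))
    (fun z => β z * HH V n ε r (z + (u : Sp d)) (y + (ε * r) • (z + (u : Sp d)))) (u : Sp d)
  simp only [sub_add_cancel] at h3
  rw [h3]
  refine integral_congr_ae (Eventually.of_forall fun z => ?_)
  simp only
  rw [HH_shift V (inner_Pn n u), smul_add, add_assoc y, add_comm ((ε * r) • (u : Sp d))]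

lemma disc_scale {ε r : ℝ} (hε : 0 < ε) (hε1 : ε ≤ 1) (hr : 1 / 2 ≤ r) (hr2 : r ≤ 2) {n : Sp d}
    {g : Sp d → ℝ} (hg : Continuous g) (hg0 : ∀ x, 0 ≤ g x) (y : Sp d) :
    ∫ u in closedBall (0 : Pn n) 1, g (y + (ε * r) • (u : Sp d))
      ≤ (2 / ε) ^ d * ∫ u in closedBall (0 : Pn n) (2 * ε), g (y + (u : Sp d)) := by
  have hs : 0 < ε * r := by positivity
  have hk : Module.finrank ℝ (Pn n) ≤ d := by
    have := Submodule.finrank_le (Submodule.span ℝ {n})ᗮ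
    rwa [finrank_euclideanSpace_fin] at this
  have h1 := Measure.setIntegral_comp_smul_of_pos (μ := (volume : Measure (Pn n)))
    (fun u : Pn n => g (y + (u : Sp d))) (closedBall (0 : Pn n) 1) hs
  simp only [Submodule.coe_smul] at h1
  rw [h1, smul_unitClosedBall_of_nonneg hs.le, smul_eq_mul]
  have hi : 0 ≤ ∫ u in closedBall (0 : Pn n) (ε * r), g (y + (u : Sp d)) :=
    integral_nonneg fun _ => hg0 _
  have h2 : ((ε * r) ^ Module.finrank ℝ (Pn n))⁻¹ ≤ (2 / ε) ^ d := by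
    rw [← inv_pow]
    have h3 : (ε * r)⁻¹ ≤ 2 / ε := by
      rw [inv_eq_one_div, div_le_div_iff₀ hs hε]
      nlinarith only [hε, hr]
    have h4 : 1 ≤ 2 / ε := by
      rw [le_div_iff₀ hε]
      linarith only [hε1]
    calc ((ε * r)⁻¹) ^ Module.finrank ℝ (Pn n) ≤ (2 / ε) ^ Module.finrank ℝ (Pn n) :=
          pow_le_pow_left₀ (by positivity) h3 _
      _ ≤ (2 / ε) ^ d := pow_le_pow_right₀ h4 hk
  have h3 : ∫ u in closedBall (0 : Pn n) (ε * r), g (y + (u : Sp d))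
      ≤ ∫ u in closedBall (0 : Pn n) (2 * ε), g (y + (u : Sp d)) := by
    refine setIntegral_mono_set ?_ ?_ ?_
    · have : Continuous fun u : Pn n => g (y + (u : Sp d)) := by fun_prop
      exact this.continuousOn.integrableOn_compact (isCompact_closedBall _ _)
    · exact Eventually.of_forall fun _ => hg0 _
    · exact (closedBall_subset_closedBall (by nlinarith only [hε, hr2])).eventuallyLE
  calc _ ≤ (2 / ε) ^ d * ∫ u in closedBall (0 : Pn n) (ε * r), g (y + (u : Sp d)) :=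
        mul_le_mul_of_nonneg_right h2 hi
    _ ≤ _ := mul_le_mul_of_nonneg_left h3 (by positivity)

lemma pos_of_Icc {r : ℝ} (hr : r ∈ Icc (1 / 2 : ℝ) 2) : 0 < r := by
  have := hr.1
  linarith

/-- the energy is controlled by the disc average -/
lemma energy_le {C : ℝ} {V : ℝ → Sp d → ℝ} (hV : VOK C V) {n : Sp d} (hn : ‖n‖ = 1) {ε : ℝ}
    (hε : 0 < ε) (hε1 : ε ≤ 1) {β : Sp d → ℝ} (hβ : KC 0 β) (hβ0 : ∀ z, 0 ≤ β z) (y : Sp d) :
    ∫ p in Q2 d, tau 1 p.1 * (disc n β p.2 * HH V n ε p.1 p.2 (y + (ε * p.1) • p.2))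
      ≤ (2 / ε) ^ d * discR n (2 * ε) (XT V β n ε) y := by
  have hc : Continuous β := hβ.smooth.continuous
  have hκ := disc_cont n hc
  have hcont : ContinuousOn (fun p : ℝ × Sp d =>
      tau 1 p.1 * (disc n β p.2 * HH V n ε p.1 p.2 (y + (ε * p.1) • p.2))) (Q2 d) := by
    have h2 : ContinuousOn (fun q : ℝ × Sp d => HH V n ε q.1 q.2 (y + (ε * q.1) • q.2)) (Q2 d) :=
      HH_comp hV hn ε (by fun_prop) (by fun_prop) (by fun_prop) fun q hq => pos_of_Icc hq.1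
    exact (continuous_tau.comp continuous_fst).continuousOn.mul
      ((hκ.comp continuous_snd).continuousOn.mul h2)
  have hint : IntegrableOn (fun p : ℝ × Sp d =>
      tau 1 p.1 * (disc n β p.2 * HH V n ε p.1 p.2 (y + (ε * p.1) • p.2)))
      (Icc (1 / 2 : ℝ) 2 ×ˢ closedBall 0 2) ((volume : Measure ℝ).prod volume) :=
    hcont.integrableOn_compact isCompact_Q2
  have hcont2 : ContinuousOn (fun p : ℝ × Pn n => tau 1 p.1 * gg V β n ε p.1 (y + (p.2 : Sp d)))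
      (Icc (1 / 2 : ℝ) 2 ×ˢ closedBall (0 : Pn n) (2 * ε)) := by
    have h2 : ContinuousOn (fun p : ℝ × Pn n => gg V β n ε p.1 (y + (p.2 : Sp d)))
        (Icc (1 / 2 : ℝ) 2 ×ˢ closedBall (0 : Pn n) (2 * ε)) :=
      gg_comp hV hn ε hβ (by fun_prop) (by fun_prop) fun q hq => pos_of_Icc hq.1
    exact (continuous_tau.comp continuous_fst).continuousOn.mul h2
  have hint2 : IntegrableOn (fun p : ℝ × Pn n => tau 1 p.1 * gg V β n ε p.1 (y + (p.2 : Sp d)))
      (Icc (1 / 2 : ℝ) 2 ×ˢ closedBall (0 : Pn n) (2 * ε)) ((volume : Measure ℝ).prod volume) :=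
    hcont2.integrableOn_compact (isCompact_Icc.prod (isCompact_closedBall _ _))
  have e1 : ∫ p in Q2 d, tau 1 p.1 * (disc n β p.2 * HH V n ε p.1 p.2 (y + (ε * p.1) • p.2))
      = ∫ r in Icc (1 / 2 : ℝ) 2, ∫ z in closedBall (0 : Sp d) 2,
        tau 1 r * (disc n β z * HH V n ε r z (y + (ε * r) • z)) := by
    unfold Q2
    rw [Measure.volume_eq_prod, setIntegral_prod _ hint]
  have e2 : discR n (2 * ε) (XT V β n ε) y
      = ∫ r in Icc (1 / 2 : ℝ) 2, ∫ u in closedBall (0 : Pn n) (2 * ε),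
        tau 1 r * gg V β n ε r (y + (u : Sp d)) := by
    have h3 : Integrable (Function.uncurry fun (r : ℝ) (u : Pn n) =>
        tau 1 r * gg V β n ε r (y + (u : Sp d))) ((volume.restrict (Icc (1 / 2 : ℝ) 2)).prod
        (volume.restrict (closedBall (0 : Pn n) (2 * ε)))) := by
      rw [Measure.prod_restrict]
      exact hint2
    rw [integral_integral_swap h3]
    unfold discR XT
    refine integral_congr_ae (Eventually.of_forall fun u => ?_)
    simp only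
    rw [intervalIntegral.integral_of_le (by norm_num), integral_Icc_eq_integral_Ioc]
  rw [e1, e2, ← integral_const_mul]
  have i1 : Integrable (fun r => ∫ z in closedBall (0 : Sp d) 2,
        tau 1 r * (disc n β z * HH V n ε r z (y + (ε * r) • z)))
        (volume.restrict (Icc (1 / 2 : ℝ) 2)) := by
    rw [IntegrableOn, ← Measure.prod_restrict] at hint
    exact hint.integral_prod_left
  have i2 : Integrable (fun r => ∫ u in closedBall (0 : Pn n) (2 * ε),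
        tau 1 r * gg V β n ε r (y + (u : Sp d)))
        (volume.restrict (Icc (1 / 2 : ℝ) 2)) := by
    rw [IntegrableOn, ← Measure.prod_restrict] at hint2
    exact hint2.integral_prod_left
  refine integral_mono_ae i1 (i2.const_mul _) ?_
  refine (ae_restrict_iff' measurableSet_Icc).2 (Eventually.of_forall fun r hr => ?_)
  have hr0 := pos_of_Icc hr
  show ∫ z in closedBall (0 : Sp d) 2, tau 1 r * (disc n β z * HH V n ε r z (y + (ε * r) • z))
    ≤ (2 / ε) ^ d * ∫ u in closedBall (0 : Pn n) (2 * ε), tau 1 r * gg V β n ε r (y + (u : Sp d))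
  rw [integral_const_mul, integral_const_mul]
  have e3 : ∫ z in closedBall (0 : Sp d) 2, disc n β z * HH V n ε r z (y + (ε * r) • z)
      = ∫ z, disc n β z * HH V n ε r z (y + (ε * r) • z) := by
    refine setIntegral_eq_integral_of_forall_compl_eq_zero fun z hz => ?_
    rw [mem_closedBall_zero_iff, not_le] at hz
    rw [disc_supp n hβ.supp hz, zero_mul]
  have hg : Continuous fun x => gg V β n ε r x := by
    rw [← continuousOn_univ]
    exact gg_comp hV hn ε hβ continuousOn_const continuousOn_id fun x _ => hr0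
  rw [e3, disc_gg hV hn ε hβ hr0 y]
  have h4 := disc_scale (n := n) hε hε1 hr.1 hr.2 hg (fun x => gg_nonneg hV n ε hβ0 hr0 x) y
  have h5 := mul_le_mul_of_nonneg_left h4 (tau_nonneg r)
  linarith

lemma sq_le_of_forall {X A B : ℝ} (hX : 0 ≤ X) (hA : 0 ≤ A) (hB : 0 ≤ B)
    (h : ∀ l : ℝ, 0 < l → 2 * X ≤ l * A + B / l) : X ^ 2 ≤ A * B := by
  rcases hX.eq_or_lt with h0 | h0
  · rw [← h0]
    simpa using mul_nonneg hA hB
  rcases hA.eq_or_lt with h1 | h1
  · exfalso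
    have h2 := h ((B + 1) / X) (by positivity)
    rw [← h1, mul_zero, zero_add, div_div_eq_mul_div] at h2
    rw [le_div_iff₀ (by positivity)] at h2
    nlinarith
  · have h2 := h (X / A) (by positivity)
    rw [div_mul_cancel₀ X h1.ne', div_div_eq_mul_div] at h2
    have h3 : X ≤ B * A / X := by linarith
    rw [le_div_iff₀ h0] at h3
    nlinarith

/-- the volume of the domain of integration -/
def vQ (d : ℕ) : ℝ := ∫ _ in Q2 d, (1 : ℝ)

lemma vQ_nonneg : 0 ≤ vQ d := integral_nonneg fun _ => zero_le_one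

/-- the Cauchy-Schwarz inequality with disc averages -/
lemma e1 {C : ℝ} {V : ℝ → Sp d → ℝ} (hV : VOK C V) {n : Sp d} (hn : ‖n‖ = 1) {ε : ℝ}
    (hε : 0 < ε) (hε1 : ε ≤ 1) {β : Sp d → ℝ} (hβ : KC 0 β) (hβ0 : ∀ z, 0 ≤ β z)
    {Ψ : ℝ → Sp d → Sp d → G} {m : ℕ} (hΨ : Reg m Ψ) {P : ℝ} (hP : 0 ≤ P) (y : Sp d)
    (hb : ∀ r z, 1 / 2 ≤ r → r ≤ 2 → ‖z‖ ≤ 1 → ‖Ψ r z (y + (ε * r) • z)‖
      ≤ P * Real.sqrt (disc n β z * QH V n ε r z (y + (ε * r) • z))) :
    ‖II ε Ψ y‖ ^ 2 ≤ P ^ 2 * ((C * vQ d * (2 / ε) ^ d) * V 1 y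
      * discR n (2 * ε) (XT V β n ε) y) := by
  have hc : Continuous β := hβ.smooth.continuous
  have hκ := disc_cont n hc
  have hV1 : 0 < V 1 y := hV.pos 1 y one_pos
  have hC0 : 0 ≤ C := by
    have h1 := hV.comp 1 y y (by norm_num) (by norm_num) (by simp)
    nlinarith
  have hcontH : ContinuousOn (fun p : ℝ × Sp d =>
      tau 1 p.1 * (disc n β p.2 * HH V n ε p.1 p.2 (y + (ε * p.1) • p.2))) (Q2 d) := by
    have h2 : ContinuousOn (fun q : ℝ × Sp d => HH V n ε q.1 q.2 (y + (ε * q.1) • q.2)) (Q2 d) :=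
      HH_comp hV hn ε (by fun_prop) (by fun_prop) (by fun_prop) fun q hq => pos_of_Icc hq.1
    exact (continuous_tau.comp continuous_fst).continuousOn.mul
      ((hκ.comp continuous_snd).continuousOn.mul h2)
  have hcontV : ContinuousOn (fun p : ℝ × Sp d =>
      tau 1 p.1 * V p.1 (y + (ε * p.1) • p.2)) (Q2 d) := by
    have h2 : ContinuousOn (fun q : ℝ × Sp d => V q.1 (y + (ε * q.1) • q.2)) (Q2 d) :=
      hV.sf.comp_cont (by fun_prop) (by fun_prop) fun q hq => pos_of_Icc hq.1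
    exact (continuous_tau.comp continuous_fst).continuousOn.mul h2
  have iH := hcontH.integrableOn_compact (μ := volume) isCompact_Q2
  have iV := hcontV.integrableOn_compact (μ := volume) isCompact_Q2
  set A := ∫ p in Q2 d, tau 1 p.1 * V p.1 (y + (ε * p.1) • p.2) with hA
  set B := ∫ p in Q2 d, tau 1 p.1 * (disc n β p.2 * HH V n ε p.1 p.2 (y + (ε * p.1) • p.2))
    with hB
  have hA1 : A ≤ C * V 1 y * vQ d := by
    rw [hA, vQ, ← integral_const_mul]
    refine setIntegral_mono_on iV ?_ measurableSet_Q2 fun p hp => ?_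
    · exact (continuous_const.continuousOn).integrableOn_compact isCompact_Q2
    · have hp0 := pos_of_Icc hp.1
      have h3 : ‖(ε * p.1) • p.2‖ ≤ 4 := by
        rw [norm_smul, Real.norm_eq_abs, abs_of_pos (by positivity)]
        have h4 : ‖p.2‖ ≤ 2 := by
          have := hp.2
          rwa [mem_closedBall_zero_iff] at this
        have h5 : ε * p.1 ≤ 2 := by
          have := hp.1.2
          nlinarith only [hε1, hε, this]
        have h6 : 0 ≤ ε * p.1 := by positivity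
        nlinarith only [h5, h4, h6]
      have h4 := hV.comp p.1 (y + (ε * p.1) • p.2) y hp.1.1 hp.1.2 (by
        rw [add_sub_cancel_left]
        exact h3)
      have h5 := hV.pos p.1 (y + (ε * p.1) • p.2) hp0
      have h6 := tau_le p.1
      have h7 := tau_nonneg p.1
      rw [mul_one]
      nlinarith
  have hA0 : 0 ≤ A := setIntegral_nonneg measurableSet_Q2 fun p hp =>
    mul_nonneg (tau_nonneg _) (hV.pos _ _ (pos_of_Icc hp.1)).le
  have hB0 : 0 ≤ B := setIntegral_nonneg measurableSet_Q2 fun p hp =>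
    mul_nonneg (tau_nonneg _) (mul_nonneg (disc_nonneg n hβ0 _)
      (HH_nonneg hV n ε (pos_of_Icc hp.1) _ _))
  have hB1 := energy_le hV hn hε hε1 hβ hβ0 y
  rw [← hB] at hB1
  have key : ∀ l : ℝ, 0 < l → 2 * ‖II ε Ψ y‖ ≤ l * (P * A) + P * B / l := by
    intro l hl
    have h1 : ‖II ε Ψ y‖ ≤ ∫ p in Q2 d, ‖tau 1 p.1 • Ψ p.1 p.2 (y + (ε * p.1) • p.2)‖ :=
      norm_integral_le_integral_norm _
    have h2 : (∫ p in Q2 d, ‖tau 1 p.1 • Ψ p.1 p.2 (y + (ε * p.1) • p.2)‖)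
        ≤ ∫ p in Q2 d, ((l * P / 2) * (tau 1 p.1 * V p.1 (y + (ε * p.1) • p.2))
          + (P / l / 2) * (tau 1 p.1 *
            (disc n β p.2 * HH V n ε p.1 p.2 (y + (ε * p.1) • p.2)))) := by
      refine setIntegral_mono_on (hΨ.integrableOn ε y).norm
        ((iV.const_mul _).add (iH.const_mul _)) measurableSet_Q2 fun p hp => ?_
      have hp0 := pos_of_Icc hp.1
      have hv := hV.pos p.1 (y + (ε * p.1) • p.2) hp0
      have hh := HH_nonneg hV n ε hp0 p.2 (y + (ε * p.1) • p.2)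
      have hk := disc_nonneg n hβ0 p.2
      have ht := tau_nonneg p.1
      have hrhs : 0 ≤ (l * P / 2) * (tau 1 p.1 * V p.1 (y + (ε * p.1) • p.2))
          + (P / l / 2) * (tau 1 p.1 *
            (disc n β p.2 * HH V n ε p.1 p.2 (y + (ε * p.1) • p.2))) := by (clear * - hl hP ht hv hk hh; positivity)
      by_cases hz : 1 < ‖p.2‖
      · rw [hΨ.supp _ _ _ hz, smul_zero, norm_zero]
        exact hrhs
      · rw [not_lt] at hz
        have h3 := hb p.1 p.2 hp.1.1 hp.1.2 hz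
        rw [norm_smul, Real.norm_eq_abs, abs_of_nonneg ht]
        have hq := QH_nonneg V n ε p.1 p.2 (y + (ε * p.1) • p.2)
        have e3 : disc n β p.2 * QH V n ε p.1 p.2 (y + (ε * p.1) • p.2)
            = V p.1 (y + (ε * p.1) • p.2)
              * (disc n β p.2 * HH V n ε p.1 p.2 (y + (ε * p.1) • p.2)) := by
          unfold HH
          field_simp
        rw [e3] at h3
        set a := V p.1 (y + (ε * p.1) • p.2) with ha
        set b := disc n β p.2 * HH V n ε p.1 p.2 (y + (ε * p.1) • p.2) with hb'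
        have hb0 : 0 ≤ b := mul_nonneg hk hh
        have h4 : Real.sqrt (a * b) ≤ (l * a + b / l) / 2 := by
          rw [Real.sqrt_le_left (by positivity)]
          have : (l * a - b / l) ^ 2 = ((l * a + b / l)) ^ 2 - 4 * (a * b) := by
            field_simp
            ring
          linarith only [this, sq_nonneg (l * a - b / l)]
        calc tau 1 p.1 * ‖Ψ p.1 p.2 (y + (ε * p.1) • p.2)‖
            ≤ tau 1 p.1 * (P * ((l * a + b / l) / 2)) :=
              mul_le_mul_of_nonneg_left (h3.trans (mul_le_mul_of_nonneg_left h4 hP)) ht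
          _ = _ := by ring
    rw [integral_add (iV.const_mul _) (iH.const_mul _), integral_const_mul, integral_const_mul,
      ← hA, ← hB] at h2
    have h3 : (l * P / 2) * A + (P / l / 2) * B = (l * (P * A) + P * B / l) / 2 := by ring
    rw [h3] at h2
    linarith
  have h1 := sq_le_of_forall (norm_nonneg _) (mul_nonneg hP hA0) (mul_nonneg hP hB0) key
  have h2 : A * B ≤ (C * V 1 y * vQ d) * ((2 / ε) ^ d * discR n (2 * ε) (XT V β n ε) y) :=
    mul_le_mul hA1 hB1 hB0 (hA0.trans hA1)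
  calc ‖II ε Ψ y‖ ^ 2 ≤ P * A * (P * B) := h1
    _ = P ^ 2 * (A * B) := by ring
    _ ≤ P ^ 2 * ((C * V 1 y * vQ d) * ((2 / ε) ^ d * discR n (2 * ε) (XT V β n ε) y)) :=
        mul_le_mul_of_nonneg_left h2 (sq_nonneg P)
    _ = _ := by ring

/-! ### The relation to X1 + X3 -/

lemma tav_eq_II {ε : ℝ} {Ψ : ℝ → Sp d → Sp d → ℝ} {m : ℕ} (h : Reg m Ψ) (y : Sp d) :
    tav (fun r y => ∫ z, Ψ r z (y + (ε * r) • z)) 1 y = II ε Ψ y := by
  rw [II_iter h]
  unfold tav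
  rw [mul_one]
  rfl

lemma Reg.h1 {C : ℝ} {V : ℝ → Sp d → ℝ} (hV : VOK C V) {β : Sp d → ℝ} {m : ℕ}
    (hβ : KC m β) {n : Sp d} (hn : ‖n‖ = 1) :
    Reg m (fun r z x => β z * (TT V n r x / V r x)) :=
  ⟨hβ.lift.mul (((hV.sf.TT hn).lift m).div (hV.sf.lift m) fun p hp => (hV.pos p.1 p.2.2 hp).ne'),
    fun r z x hz => by rw [hβ.supp z hz, zero_mul]⟩

lemma Reg.h3 {C : ℝ} {V : ℝ → Sp d → ℝ} (hV : VOK C V) {β : Sp d → ℝ} {m : ℕ}
    (hβ : KC m β) (n : Sp d) (ε : ℝ) :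
    Reg m (fun r z x => β z * ((pT V r x + ε * ⟪n, z⟫_ℝ * pX V n r x) ^ 2 / V r x)) := by
  have h1 : ContDiffOn ℝ m (fun p : ℝ × Sp d × Sp d => ε * ⟪n, p.2.1⟫_ℝ) (Om d) :=
    (contDiff_const.mul (((innerSL ℝ n).contDiff).comp
      (contDiff_fst.comp contDiff_snd))).contDiffOn
  exact ⟨hβ.lift.mul ((((hV.sf.pT.lift m).add (h1.mul ((hV.sf.pX n).lift m))).pow 2).div
    (hV.sf.lift m) fun p hp => (hV.pos p.1 p.2.2 hp).ne'),
    fun r z x hz => by rw [hβ.supp z hz, zero_mul]⟩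

lemma XT_eq_II {C ε : ℝ} {V : ℝ → Sp d → ℝ} (hV : VOK C V) {β : Sp d → ℝ} (hβ : KC 0 β)
    {n : Sp d} (hn : ‖n‖ = 1) : XT V β n ε = II ε (fun r z x => β z * HH V n ε r z x) := by
  funext y
  rw [II_iter (Reg.bH hV hn ε hβ)]
  rfl

lemma X13_eq {C ε : ℝ} {μ : Measure (Sp d)} (hV : VOK C (vv μ)) {β : Sp d → ℝ} (hβ : KC 0 β)
    {n : Sp d} (hn : ‖n‖ = 1) : X13 β ε μ n 1 = XT (vv μ) β n ε := by
  rw [XT_eq_II hV hβ hn]
  funext y
  have h1 := Reg.h1 hV hβ hn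
  have h3 := Reg.h3 hV hβ n ε
  have e1 : tav (X1 β ε μ n) 1 y
      = II ε (fun r z x => β z * (TT (vv μ) n r x / vv μ r x)) y := by
    rw [← tav_eq_II h1]
    rfl
  have e3 : tav (X3 β ε μ n) 1 y
      = II ε (fun r z x => β z * ((pT (vv μ) r x + ε * ⟪n, z⟫_ℝ * pX (vv μ) n r x) ^ 2
        / vv μ r x)) y := by
    rw [← tav_eq_II h3]
    unfold tav X3
    simp only [inner_grad]
    simp only [real_inner_comm n]
    rfl
  unfold X13
  rw [e1, e3, ← II_add h1 h3]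
  refine II_congr ε (fun r z x _ => ?_) y
  unfold HH QH
  ring

end WBT

end

end TG


end

section

/-!
# MODULE FA, part 3: derivatives of v in the far region (MP_287c87_an, helper51)
-/

open MeasureTheory Metric Set Filter Topology TrI
open scoped InnerProductSpace ContDiff

namespace TG

noncomputable section

namespace FAm

open THm WBT

variable {d : ℕ}

/-- the square root of the height, extended smoothly -/
def sq0 (d : ℕ) (p : ℝ × Sp d) : ℝ := giRho p.1 * Real.sqrt p.1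

lemma sq0_smooth : ContDiff ℝ ∞ (sq0 d) := by
  refine gi_ext (v := fun p : ℝ × Sp d => Real.sqrt p.1) ?_
  intro p hp
  have hp' : 0 < p.1 := hp
  exact ((contDiffAt_fst (𝕜 := ℝ) (n := ∞)).sqrt hp'.ne').contDiffWithinAt

lemma sq0_bd (d j : ℕ) : ∃ B : ℝ, 0 ≤ B ∧ ∀ l ≤ j, ∀ p : ℝ × Sp d, 1 / 2 ≤ p.1 → p.1 ≤ 2 →
    ‖iteratedFDeriv ℝ l (sq0 d) p‖ ≤ B := by
  have h0 : ∀ (c : Sp d) (p : ℝ × Sp d), sq0 d (p + (0, c)) = sq0 d p := by
    intro c p
    simp [sq0]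
  have h1 : ∀ l : ℕ, ∀ p : ℝ × Sp d, iteratedFDeriv ℝ l (sq0 d) p =
      iteratedFDeriv ℝ l (sq0 d) (p.1, 0) := by
    intro l p
    have h2 := iteratedFDeriv_comp_add_right (𝕜 := ℝ) (f := sq0 d) l (0, p.2) (p.1, 0)
    have h3 : (fun z => sq0 d (z + (0, p.2))) = sq0 d := funext fun z => h0 p.2 z
    rw [h3] at h2
    rw [h2]
    simp
  have h2 : ∀ l : ℕ, ∃ B : ℝ, 0 ≤ B ∧ ∀ p : ℝ × Sp d, 1 / 2 ≤ p.1 → p.1 ≤ 2 →
      ‖iteratedFDeriv ℝ l (sq0 d) p‖ ≤ B := by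
    intro l
    have hc : Continuous fun t : ℝ => iteratedFDeriv ℝ l (sq0 d) (t, 0) :=
      (sq0_smooth.continuous_iteratedFDeriv (by exact_mod_cast le_top)).comp (by fun_prop)
    obtain ⟨B, hB⟩ := isCompact_Icc.exists_bound_of_continuousOn (s := Icc (1 / 2 : ℝ) 2)
      hc.continuousOn
    refine ⟨max B 0, le_max_right _ _, fun p hp1 hp2 => ?_⟩
    rw [h1]
    exact (hB p.1 ⟨hp1, hp2⟩).trans (le_max_left _ _)
  choose B hB0 hB using h2
  refine ⟨∑ l ∈ Finset.range (j + 1), B l, Finset.sum_nonneg fun l _ => hB0 l,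
    fun l hl p hp1 hp2 => (hB l p hp1 hp2).trans ?_⟩
  exact Finset.single_le_sum (fun l _ => hB0 l) (Finset.mem_range.2 (by omega))

/-- the size of v nearby -/
lemma vv_size {C : ℝ} (hC : 0 < C) {μ : Measure (Sp d)}
    (hpos : ∀ (t : ℝ) (x : Sp d), 0 < t → 0 < th μ t x ∧ th μ t x ≤ C)
    (hharn : ∀ (t : ℝ) (x x' : Sp d), 0 < t → th μ t x' ≤ (1 + ‖x - x'‖ / t) ^ d * th μ t x)
    (htime : ∀ (s t : ℝ) (x : Sp d), 0 < t → t / 8 ≤ s → s ≤ 8 * t → th μ s x ≤ C * th μ t x)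
    {t : ℝ} (h1 : 1 / 2 ≤ t) (h2 : t ≤ 2) {x y : Sp d} (h3 : ‖x - y‖ ≤ 2) :
    vv μ t x ≤ Real.sqrt (5 ^ d * C) * vv μ 1 y := by
  have hp0 : 0 < t := by linarith
  have h4 := hharn t y x hp0
  have h5 : (1 + ‖y - x‖ / t) ^ d ≤ 5 ^ d := by
    refine pow_le_pow_left₀ (by positivity) ?_ d
    have h6 : ‖y - x‖ / t ≤ 4 := by
      rw [div_le_iff₀ hp0, norm_sub_rev]
      linarith
    linarith
  have h7 := htime t 1 y one_pos (by linarith) (by linarith)
  have h8 := (hpos t y hp0).1.le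
  have h9 : th μ t x ≤ 5 ^ d * C * th μ 1 y := by
    calc th μ t x ≤ (1 + ‖y - x‖ / t) ^ d * th μ t y := h4
      _ ≤ 5 ^ d * th μ t y := mul_le_mul_of_nonneg_right h5 h8
      _ ≤ 5 ^ d * (C * th μ 1 y) := mul_le_mul_of_nonneg_left h7 (by positivity)
      _ = _ := by ring
  unfold vv
  rw [← Real.sqrt_mul (by positivity)]
  exact Real.sqrt_le_sqrt h9

/-- small deviations from the far profile give small derivatives of the deviation -/
lemma far_deriv (h : StmtTH) (hd : 2 ≤ d) {C' : ℝ} (hC' : 0 < C') {η : ℝ} (hη : 0 < η) :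
    ∃ δ : ℝ, 0 < δ ∧ ∀ μ : Measure (Sp d), Gro C' μ → ∀ y : Sp d,
      (∀ (t : ℝ) (x : Sp d), 1 / 2 ≤ t → t ≤ 2 → ‖x - y‖ ≤ 2 →
        |vv μ t x - Real.sqrt t * vv μ 1 y| ≤ δ * vv μ 1 y) →
      ∀ (t : ℝ) (x : Sp d), 1 / 2 ≤ t → t ≤ 2 → ‖x - y‖ ≤ 1 →
        ‖gradient (vv μ t) x‖ ≤ η * vv μ 1 y ∧
        |pT (vv μ) t x - 1 / (2 * Real.sqrt t) * vv μ 1 y| ≤ η * vv μ 1 y := by
  obtain ⟨C, hC, hTH⟩ := h d 2 hd C' hC'
  obtain ⟨B, hB0, hB⟩ := sq0_bd d 2
  set A : ℝ := C * 2 ^ 2 * Real.sqrt (5 ^ d * C) + B + 1 with hA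
  have hA0 : 0 < A := by positivity
  obtain ⟨i0, hi0, hint⟩ := tt_interp (d := d) (G := ℝ) 1 A η hA0 hη
  refine ⟨i0, hi0, fun μ hμ y hsm t x ht ht2 hxy => ?_⟩
  obtain ⟨hpos, hv, hbd, hharn, htime⟩ := hTH μ hμ
  have hf := gi_ext hv
  set S := vv μ 1 y with hSd
  have hS : 0 ≤ S := Real.sqrt_nonneg _
  set f : ℝ × Sp d → ℝ := fun p => giRho p.1 * vv μ p.1 p.2 with hfdef
  set g : ℝ × Sp d → ℝ := fun p => f p - S * sq0 d p with hgdef
  have hS0 : ContDiff ℝ ∞ (fun p => S * sq0 d p) := contDiff_const.mul sq0_smooth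
  have hg : ContDiff ℝ ∞ g := hf.sub hS0
  have v1 : ∀ t : ℝ, 1 / 4 ≤ t → ∀ x, vv μ t x = f (t, x) := by
    intro t ht x
    simp only [hfdef, giRho_one ht, one_mul]
  have s1 : ∀ t : ℝ, 1 / 4 ≤ t → ∀ x, Real.sqrt t = sq0 d (t, x) := by
    intro t ht x
    simp only [sq0, giRho_one ht, one_mul]
  have evf : ∀ p : ℝ × Sp d, 1 / 2 ≤ p.1 → (fun p : ℝ × Sp d => vv μ p.1 p.2) =ᶠ[𝓝 p] f := by
    intro p hp
    have ho : {q : ℝ × Sp d | 1 / 4 < q.1} ∈ 𝓝 p :=
      (isOpen_lt continuous_const continuous_fst).mem_nhds (show 1 / 4 < p.1 by linarith)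
    filter_upwards [ho] with q hq
    exact v1 q.1 (le_of_lt hq) q.2
  have evs : ∀ p : ℝ × Sp d, 1 / 2 ≤ p.1 → (fun p : ℝ × Sp d => Real.sqrt p.1) =ᶠ[𝓝 p] sq0 d := by
    intro p hp
    have ho : {q : ℝ × Sp d | 1 / 4 < q.1} ∈ 𝓝 p :=
      (isOpen_lt continuous_const continuous_fst).mem_nhds (show 1 / 4 < p.1 by linarith)
    filter_upwards [ho] with q hq
    exact s1 q.1 (le_of_lt hq) q.2
  -- bounds of the derivatives
  have gbd : ∀ l ≤ 2, ∀ p : ℝ × Sp d, 1 / 2 ≤ p.1 → p.1 ≤ 2 → ‖p.2 - y‖ ≤ 2 →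
      ‖iteratedFDeriv ℝ l g p‖ ≤ A * S := by
    intro l hl p h1 h2 h3
    have hp0 := vv_size hC hpos hharn htime h1 h2 h3
    rw [← hSd] at hp0
    have e1 : iteratedFDeriv ℝ l f p = iteratedFDeriv ℝ l
        (fun p : ℝ × Sp d => vv μ p.1 p.2) (p.1, p.2) :=
      (Filter.EventuallyEq.iteratedFDeriv ℝ (evf p h1) l).eq_of_nhds.symm
    have e2 : iteratedFDeriv ℝ l g p =
        iteratedFDeriv ℝ l f p - iteratedFDeriv ℝ l (fun p => S * sq0 d p) p :=
      fun_iteratedFDeriv_sub_apply (hf.contDiffAt.of_le (by exact_mod_cast le_top))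
        (hS0.contDiffAt.of_le (by exact_mod_cast le_top))
    have e3 : ‖iteratedFDeriv ℝ l (fun p => S * sq0 d p) p‖ ≤ S * B := by
      have h5 : (fun p => S * sq0 d p) = fun p => S • sq0 d p := rfl
      rw [h5, iteratedFDeriv_const_smul_apply'
        (sq0_smooth.contDiffAt.of_le (by exact_mod_cast le_top)), norm_smul, Real.norm_eq_abs,
        abs_of_nonneg hS]
      exact mul_le_mul_of_nonneg_left (hB l hl p h1 h2) hS
    have e4 : ‖iteratedFDeriv ℝ l f p‖ ≤ C * 2 ^ 2 * Real.sqrt (5 ^ d * C) * S := by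
      rw [e1]
      refine (hbd p.1 p.2 l (by linarith) hl).trans ?_
      have hv0 : 0 ≤ vv μ p.1 p.2 := Real.sqrt_nonneg _
      have h4 : C * vv μ p.1 p.2 / p.1 ^ l ≤ C * vv μ p.1 p.2 * 2 ^ 2 := by
        rw [div_eq_mul_inv]
        refine mul_le_mul_of_nonneg_left ?_ (by positivity)
        rw [← inv_pow]
        have h5 : p.1⁻¹ ≤ 2 := by
          have := inv_anti₀ (show (0 : ℝ) < 1 / 2 by norm_num) h1
          simpa using this
        exact (pow_le_pow_left₀ (inv_nonneg.mpr (by linarith)) h5 l).trans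
          (pow_le_pow_right₀ (by norm_num) hl)
      calc _ ≤ C * vv μ p.1 p.2 * 2 ^ 2 := h4
        _ ≤ C * (Real.sqrt (5 ^ d * C) * S) * 2 ^ 2 := by gcongr
        _ = _ := by ring
    rw [e2]
    refine (norm_sub_le _ _).trans ?_
    rw [hA]
    linarith only [hS, e3, e4]
  -- the interpolation, centre x
  have hk := hint g x S hg hS (fun l hl p hp => by
      obtain ⟨⟨h1, h2⟩, h3⟩ := hp
      rw [mem_closedBall, dist_eq_norm] at h3
      refine gbd l hl p h1 h2 ?_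
      have := norm_add_le (p.2 - x) (x - y)
      rw [sub_add_sub_cancel] at this
      linarith)
    (fun p hp => by
      obtain ⟨⟨h1, h2⟩, h3⟩ := hp
      rw [mem_closedBall, dist_eq_norm] at h3
      have h4 : ‖p.2 - y‖ ≤ 2 := by
        have := norm_add_le (p.2 - x) (x - y)
        rw [sub_add_sub_cancel] at this
        linarith
      have h5 := hsm p.1 p.2 h1 h2 h4
      have e1 : g p = vv μ p.1 p.2 - Real.sqrt p.1 * S := by
        simp only [hgdef]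
        rw [show f p = f (p.1, p.2) from rfl, ← v1 p.1 (by linarith) p.2,
          show sq0 d p = sq0 d (p.1, p.2) from rfl, ← s1 p.1 (by linarith) p.2]
        ring
      rw [e1, Real.norm_eq_abs]
      exact h5) 1 le_rfl (t, x) ⟨⟨ht, ht2⟩, by
        rw [mem_closedBall, dist_self]
        positivity⟩
  rw [norm_iteratedFDeriv_one] at hk
  have hsf : SF (vv μ) := hv
  have ht0 : 0 < t := by linarith
  -- the derivative of g
  have hgd : fderiv ℝ g (t, x) = fderiv ℝ (fun p : ℝ × Sp d => vv μ p.1 p.2) (t, x) -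
      S • fderiv ℝ (fun p : ℝ × Sp d => Real.sqrt p.1) (t, x) := by
    rw [(evf (t, x) ht).fderiv_eq, (evs (t, x) ht).fderiv_eq]
    have h1 : DifferentiableAt ℝ f (t, x) := (hf.differentiable (by simp)) _
    have h2 : DifferentiableAt ℝ (sq0 d) (t, x) := (sq0_smooth.differentiable (by simp)) _
    have h3 : fderiv ℝ (fun p => S * sq0 d p) (t, x) = S • fderiv ℝ (sq0 d) (t, x) :=
      fderiv_const_mul h2 S
    rw [← h3]
    exact fderiv_fun_sub h1 (h2.const_mul S)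
  have hsq : HasFDerivAt (fun p : ℝ × Sp d => Real.sqrt p.1)
      ((1 / (2 * Real.sqrt t)) • ContinuousLinearMap.fst ℝ ℝ (Sp d)) (t, x) :=
    (hasFDerivAt_fst (𝕜 := ℝ) (p := (t, x))).sqrt ht0.ne'
  rw [hsq.fderiv] at hgd
  have hle : ∀ w : ℝ × Sp d, |fderiv ℝ g (t, x) w| ≤ η * S * ‖w‖ := by
    intro w
    have := (fderiv ℝ g (t, x)).le_opNorm w
    rw [Real.norm_eq_abs] at this
    exact this.trans (mul_le_mul_of_nonneg_right hk (norm_nonneg _))
  constructor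
  · have h1 : ∀ e : Sp d, |⟪gradient (vv μ t) x, e⟫_ℝ| ≤ η * S * ‖e‖ := by
      intro e
      rw [WBT.inner_grad]
      have h2 := hle (0, e)
      have h3 : fderiv ℝ g (t, x) (0, e) = fderiv ℝ (vv μ t) x e := by
        rw [hgd]
        have := hsf.pX_eq e ht0 x
        unfold pX at this
        rw [this]
        simp
      rw [h3] at h2
      have h4 : ‖((0 : ℝ), e)‖ = ‖e‖ := by
        rw [Prod.norm_def]
        simp
      rwa [h4] at h2
    have h2 := h1 (gradient (vv μ t) x)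
    rw [real_inner_self_eq_norm_sq, abs_of_nonneg (sq_nonneg _)] at h2
    by_cases h0 : ‖gradient (vv μ t) x‖ = 0
    · rw [h0]
      positivity
    · have h3 : 0 < ‖gradient (vv μ t) x‖ := lt_of_le_of_ne (norm_nonneg _) (Ne.symm h0)
      rw [pow_two] at h2
      exact le_of_mul_le_mul_right h2 h3
  · have h2 := hle (1, 0)
    have h3 : fderiv ℝ g (t, x) (1, 0) = pT (vv μ) t x - 1 / (2 * Real.sqrt t) * S := by
      rw [hgd, hsf.pT_eq ht0 x]
      simp
      ring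
    rw [h3] at h2
    have h4 : ‖((1 : ℝ), (0 : Sp d))‖ = 1 := by
      rw [Prod.norm_def]
      simp
    rwa [h4, mul_one] at h2

end FAm

end

end TG


end

section

/-!
# MODULE FA: the far region (MP_287c87_an, (10.1); helper51)

If the near fraction `q` is small then `v_t(x)` is close to `√t v_1(y)` for `t ∈ [1/2, 2]` and
`|x - y| ≤ 2`, with small derivatives of the deviation.  So `G ≥ v/25`, `X ≥ v/128` and the tangential
gradient of `W` is small, while the gradient of `Υ` is bounded independently of `p0` and `A`.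
-/

open MeasureTheory Metric Set Filter Topology TrI
open scoped InnerProductSpace ContDiff

namespace TG

noncomputable section

namespace FAm

open THm WBT

variable {d : ℕ}

lemma kit_mono {J m : ℕ} {M : ℝ} {β : Sp d → ℝ} (h : Kit J M β) (hm : m ≤ J) : Kit m M β :=
  { h with
    prof := { h.prof with
      smooth := h.prof.smooth.of_le (by exact_mod_cast hm)
      der := fun j hj => h.prof.der j (hj.trans hm) }
    smooth1 := h.smooth1.of_le (by exact_mod_cast hm)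
    smooth2 := h.smooth2.of_le (by exact_mod_cast hm)
    der1 := fun j hj => h.der1 j (hj.trans hm)
    der2 := fun j hj => h.der2 j (hj.trans hm) }

lemma tau_int : ∫ r in (1 / 2 : ℝ)..2, tau 1 r = 1 / 4 := by
  have hc : Continuous (tau 1) := tau_cont
  rw [← intervalIntegral.integral_add_adjacent_intervals (b := 1) (hc.intervalIntegrable _ _)
    (hc.intervalIntegrable _ _)]
  have e1 : ∫ r in (1 / 2 : ℝ)..1, tau 1 r = ∫ r in (1 / 2 : ℝ)..1, (2 / 3 * r - 1 / 3) := by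
    refine intervalIntegral.integral_congr fun r hr => ?_
    rw [uIcc_of_le (by norm_num)] at hr
    show tau 1 r = 2 / 3 * r - 1 / 3
    rw [tau_left hr.1 hr.2]
    ring
  have e2 : ∫ r in (1 : ℝ)..2, tau 1 r = ∫ r in (1 : ℝ)..2, (2 / 3 - 1 / 3 * r) := by
    refine intervalIntegral.integral_congr fun r hr => ?_
    rw [uIcc_of_le (by norm_num)] at hr
    show tau 1 r = 2 / 3 - 1 / 3 * r
    rw [tau_right hr.1 hr.2]
    ring
  have e3 : ∫ r in (1 / 2 : ℝ)..1, (2 / 3 * r - 1 / 3) = 1 / 12 := by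
    rw [intervalIntegral.integral_sub (Continuous.intervalIntegrable (by fun_prop) _ _)
      (Continuous.intervalIntegrable (by fun_prop) _ _), intervalIntegral.integral_const_mul,
      integral_id, intervalIntegral.integral_const]
    norm_num
  have e4 : ∫ r in (1 : ℝ)..2, (2 / 3 - 1 / 3 * r) = 1 / 6 := by
    rw [intervalIntegral.integral_sub (Continuous.intervalIntegrable (by fun_prop) _ _)
      (Continuous.intervalIntegrable (by fun_prop) _ _), intervalIntegral.integral_const_mul,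
      integral_id, intervalIntegral.integral_const]
    norm_num
  rw [e1, e2, e3, e4]
  norm_num

/-- data of the far region -/
structure Far (μ : Measure (Sp d)) (y : Sp d) (δ η : ℝ) : Prop where
  val : ∀ (t : ℝ) (x : Sp d), 1 / 2 ≤ t → t ≤ 2 → ‖x - y‖ ≤ 2 →
    |vv μ t x - Real.sqrt t * vv μ 1 y| ≤ δ * vv μ 1 y
  der : ∀ (t : ℝ) (x : Sp d), 1 / 2 ≤ t → t ≤ 2 → ‖x - y‖ ≤ 1 →
    ‖gradient (vv μ t) x‖ ≤ η * vv μ 1 y ∧
    |pT (vv μ) t x - 1 / (2 * Real.sqrt t) * vv μ 1 y| ≤ η * vv μ 1 y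

lemma dist_far {ε t : ℝ} (hε : 0 < ε) (hε1 : ε ≤ 1 / 4) (ht : 1 / 2 ≤ t) (ht2 : t ≤ 2)
    {z : Sp d} (hz : ‖z‖ ≤ 1) (y : Sp d) : ‖y + (ε * t) • z - y‖ ≤ 1 := by
  rw [add_sub_cancel_left, norm_smul, Real.norm_eq_abs, abs_of_pos (by positivity)]
  have h1 : ε * t ≤ 1 := by nlinarith only [hε1, hε, ht2]
  have h2 : 0 ≤ ε * t := by positivity
  nlinarith only [hε1, ht2, ht, hz, h2]

lemma wv_far {C : ℝ} {μ : Measure (Sp d)} (hV : VOK C (vv μ)) {y : Sp d} {δ η : ℝ}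
    (hF : Far μ y δ η) {J : ℕ} {M : ℝ} {β : Sp d → ℝ} (hK : Kit J M β) {ε : ℝ} (hε : 0 < ε)
    (hε1 : ε ≤ 1 / 4) {t : ℝ} (ht : 1 / 2 ≤ t) (ht2 : t ≤ 2) :
    |wv β ε μ t y - Real.sqrt t * vv μ 1 y| ≤ δ * vv μ 1 y := by
  have ht0 : 0 < t := by linarith
  have hβc : Continuous β := hK.prof.smooth.continuous
  have hβs : HasCompactSupport β := by
    refine HasCompactSupport.intro (isCompact_closedBall 0 1) fun z hz => ?_
    rw [mem_closedBall_zero_iff, not_le] at hz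
    exact hK.prof.supp z hz.le
  have hvc : Continuous fun z : Sp d => vv μ t (y + (ε * t) • z) :=
    (hV.sf.contDiff ht0).continuous.comp (by fun_prop)
  have i0 : Integrable β := hβc.integrable_of_hasCompactSupport hβs
  have i1 : Integrable fun z => β z * vv μ t (y + (ε * t) • z) :=
    (hβc.mul hvc).integrable_of_hasCompactSupport hβs.mul_right
  have e1 : wv β ε μ t y - Real.sqrt t * vv μ 1 y =
      ∫ z, (β z * vv μ t (y + (ε * t) • z) - β z * (Real.sqrt t * vv μ 1 y)) := by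
    rw [integral_sub i1 (i0.mul_const _), integral_mul_const, hK.prof.int, one_mul]
    rfl
  have e2 : δ * vv μ 1 y = ∫ z, β z * (δ * vv μ 1 y) := by
    rw [integral_mul_const, hK.prof.int, one_mul]
  rw [e1, e2]
  refine (abs_integral_le_integral_abs).trans (integral_mono (i1.sub (i0.mul_const _)).abs
    (i0.mul_const _) fun z => ?_)
  have h0 := hK.prof.nonneg z
  show |β z * vv μ t (y + (ε * t) • z) - β z * (Real.sqrt t * vv μ 1 y)| ≤ β z * (δ * vv μ 1 y)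
  rw [← mul_sub, abs_mul, abs_of_nonneg h0]
  by_cases hz : ‖z‖ ≤ 1
  · exact mul_le_mul_of_nonneg_left (hF.val t _ ht ht2
      ((dist_far hε hε1 ht ht2 hz y).trans (by norm_num))) h0
  · rw [not_le] at hz
    rw [hK.prof.supp z hz.le, zero_mul, zero_mul]

lemma sqrt_two_le : Real.sqrt 2 ≤ 1.4143 :=
  Real.sqrt_le_iff.2 ⟨by norm_num, by norm_num⟩

lemma sqrt_half_le : Real.sqrt (1 / 2) ≤ 0.70715 :=
  Real.sqrt_le_iff.2 ⟨by norm_num, by norm_num⟩

lemma GG_far {C : ℝ} {μ : Measure (Sp d)} (hV : VOK C (vv μ)) {y : Sp d} {δ η : ℝ}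
    (hF : Far μ y δ η) (hδ : δ ≤ 1 / 200) {J : ℕ} {M : ℝ} {β : Sp d → ℝ} (hK : Kit J M β) {ε : ℝ}
    (hε : 0 < ε) (hε1 : ε ≤ 1 / 4) : 1 / 25 * vv μ 1 y ≤ GG β ε μ 1 y := by
  have hv := hV.pos 1 y one_pos
  have w1 := wv_far hV hF hK hε hε1 (t := 1) (by norm_num) (by norm_num)
  have w2 := wv_far hV hF hK hε hε1 (t := 1 / 2) (by norm_num) (by norm_num)
  have w3 := wv_far hV hF hK hε hε1 (t := 2) (by norm_num) (by norm_num)
  rw [Real.sqrt_one, one_mul] at w1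
  have h1 := (abs_le.1 w1).1
  have h2 := (abs_le.1 w2).2
  have h3 := (abs_le.1 w3).2
  unfold GG
  rw [mul_one]
  have s1 := mul_le_mul_of_nonneg_right sqrt_two_le hv.le
  have s2 := mul_le_mul_of_nonneg_right sqrt_half_le hv.le
  have s3 := mul_le_mul_of_nonneg_right hδ hv.le
  linarith only [hv, h1, h2, h3, s1, s2, s3]

/-- lower bound of the energy density -/
lemma HH_far {C : ℝ} {μ : Measure (Sp d)} (hV : VOK C (vv μ)) {y : Sp d} {δ η : ℝ}
    (hF : Far μ y δ η) (hδ : δ ≤ 1 / 200) (hη : η ≤ 1 / 20) {ε : ℝ}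
    (hε : 0 < ε) (hε1 : ε ≤ 1 / 4) {n : Sp d} (hn : ‖n‖ = 1) {r : ℝ} (h1 : 1 / 2 ≤ r)
    (h2 : r ≤ 2) {z : Sp d} (hz : ‖z‖ ≤ 1) :
    1 / 32 * vv μ 1 y ≤ HH (vv μ) n ε r z (y + (ε * r) • z) := by
  have hr0 : 0 < r := by linarith
  have hv := hV.pos 1 y one_pos
  set x := y + (ε * r) • z with hx
  have hxy : ‖x - y‖ ≤ 1 := dist_far hε hε1 h1 h2 hz y
  have hvx := hV.pos r x hr0
  have hval := hF.val r x h1 h2 (hxy.trans (by norm_num))
  obtain ⟨hg, ht⟩ := hF.der r x h1 h2 hxy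
  set V := vv μ 1 y with hVd
  have hsr : Real.sqrt r ≤ 1.4143 := (Real.sqrt_le_sqrt h2).trans sqrt_two_le
  have hsr0 : 0 < Real.sqrt r := Real.sqrt_pos.2 hr0
  have hinv : 0.35 ≤ 1 / (2 * Real.sqrt r) := by
    rw [le_div_iff₀ (by positivity)]
    nlinarith
  have hηV : η * V ≤ 1 / 20 * V := mul_le_mul_of_nonneg_right hη hv.le
  have hpT : 0.3 * V ≤ pT (vv μ) r x := by
    have := (abs_le.1 ht).1
    have h3 : 0.35 * V ≤ 1 / (2 * Real.sqrt r) * V := mul_le_mul_of_nonneg_right hinv hv.le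
    linarith
  have hpX : |pX (vv μ) n r x| ≤ 1 / 20 * V := by
    unfold pX
    rw [← WBT.inner_grad]
    refine (abs_real_inner_le_norm _ _).trans ?_
    rw [hn, mul_one]
    exact hg.trans hηV
  have hi : |ε * ⟪n, z⟫_ℝ| ≤ 1 := by
    rw [abs_mul, abs_of_pos hε]
    have := abs_real_inner_le_norm n z
    rw [hn, one_mul] at this
    have h3 := abs_nonneg ⟪n, z⟫_ℝ
    nlinarith
  have hsum : 1 / 4 * V ≤ pT (vv μ) r x + ε * ⟪n, z⟫_ℝ * pX (vv μ) n r x := by
    have h3 : |ε * ⟪n, z⟫_ℝ * pX (vv μ) n r x| ≤ 1 / 20 * V := by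
      rw [abs_mul]
      calc |ε * ⟪n, z⟫_ℝ| * |pX (vv μ) n r x| ≤ 1 * (1 / 20 * V) :=
            mul_le_mul hi hpX (abs_nonneg _) zero_le_one
        _ = _ := one_mul _
    have h4 := (abs_le.1 h3).1
    linarith only [hpT, h4]
  have hvx2 : vv μ r x ≤ 2 * V := by
    have h3 := (abs_le.1 hval).2
    have h4 : Real.sqrt r * V ≤ 1.4143 * V := mul_le_mul_of_nonneg_right hsr hv.le
    have h5 := mul_le_mul_of_nonneg_right hδ hv.le
    linarith only [hv, h3, h4, h5]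
  unfold HH
  rw [le_div_iff₀ hvx]
  have h3 : (1 / 4 * V) ^ 2 ≤ (pT (vv μ) r x + ε * ⟪n, z⟫_ℝ * pX (vv μ) n r x) ^ 2 :=
    pow_le_pow_left₀ (by positivity) hsum 2
  have h4 : 0 ≤ TT (vv μ) n r x := sq_nonneg _
  unfold QH
  have h5 : 1 / 32 * V * vv μ r x ≤ 1 / 32 * V * (2 * V) :=
    mul_le_mul_of_nonneg_left hvx2 (by positivity)
  linarith only [h3, h4, h5]

lemma X13_far {C : ℝ} {μ : Measure (Sp d)} (hV : VOK C (vv μ)) {y : Sp d} {δ η : ℝ}
    (hF : Far μ y δ η) (hδ : δ ≤ 1 / 200) (hη : η ≤ 1 / 20) {J : ℕ} {M : ℝ} {β : Sp d → ℝ}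
    (hK : Kit J M β) {ε : ℝ} (hε : 0 < ε) (hε1 : ε ≤ 1 / 4) {n : Sp d} (hn : ‖n‖ = 1) :
    1 / 128 * vv μ 1 y ≤ X13 β ε μ n 1 y := by
  have hβ : KC 0 β := ⟨(kit_mono hK (Nat.zero_le J)).prof.smooth,
    fun z hz => hK.prof.supp z hz.le⟩
  rw [X13_eq hV hβ hn, XT_eq_II hV hβ hn]
  set V := vv μ 1 y with hVd
  have hR1 := Reg.bH hV hn ε hβ
  have hR2 : Reg 0 (pr (fun (_ : ℝ) (_ : Sp d) => 1 / 32 * V) β) := Reg.pr (SF.const _) hβ
  have e1 : II ε (pr (fun (_ : ℝ) (_ : Sp d) => 1 / 32 * V) β) y = 1 / 128 * V := by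
    rw [II_iter hR2]
    have e2 : ∀ r : ℝ, ∫ z, pr (fun (_ : ℝ) (_ : Sp d) => 1 / 32 * V) β r z (y + (ε * r) • z) =
        1 / 32 * V := by
      intro r
      unfold pr
      simp only [smul_eq_mul]
      rw [integral_const_mul, hK.prof.int, mul_one]
    simp only [e2, smul_eq_mul]
    rw [intervalIntegral.integral_mul_const, tau_int]
    ring
  rw [← e1]
  unfold II
  refine setIntegral_mono_on (hR2.integrableOn ε y) (hR1.integrableOn ε y) measurableSet_Q2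
    fun p hp => ?_
  have ht := WBT.tau_nonneg p.1
  have hb := hK.prof.nonneg p.2
  simp only [pr, smul_eq_mul]
  refine mul_le_mul_of_nonneg_left ?_ ht
  rw [mul_comm]
  by_cases hz : ‖p.2‖ ≤ 1
  · exact mul_le_mul_of_nonneg_left (HH_far hV hF hδ hη hε hε1 hn hp.1.1 hp.1.2 hz) hb
  · rw [not_le] at hz
    rw [hK.prof.supp p.2 hz.le, zero_mul, zero_mul]

lemma tav_X2_nonneg (μ : Measure (Sp d)) (n y : Sp d) : 0 ≤ tav (X2 μ n) 1 y := by
  unfold tav
  refine intervalIntegral.integral_nonneg (by norm_num) fun r hr => ?_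
  have hr0 : 0 < r := by
    have := hr.1
    linarith
  refine mul_nonneg (WBT.tau_nonneg r) (div_nonneg (integral_nonneg fun η => ?_)
    (Real.sqrt_nonneg _))
  exact mul_nonneg (by positivity) (THm.kk_nonneg hr0 _)

lemma XX_far {C : ℝ} {μ : Measure (Sp d)} (hV : VOK C (vv μ)) {y : Sp d} {δ η : ℝ}
    (hF : Far μ y δ η) (hδ : δ ≤ 1 / 200) (hη : η ≤ 1 / 20) {J : ℕ} {M : ℝ} {β : Sp d → ℝ}
    (hK : Kit J M β) {ε : ℝ} (hε : 0 < ε) (hε1 : ε ≤ 1 / 4) {n : Sp d} (hn : ‖n‖ = 1) :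
    1 / 128 * vv μ 1 y ≤ XX β ε μ n 1 y := by
  have h1 := X13_far hV hF hδ hη hK hε hε1 hn
  have h2 := tav_X2_nonneg μ n y
  have h3 : XX β ε μ n 1 y = X13 β ε μ n 1 y + tav (X2 μ n) 1 y := by
    unfold XX X13
    ring
  linarith

end FAm

open _root_.TG.FAm WBT THm in
/-- MODULE FA: existence of the far constants -/
theorem stmtFA (hTH : StmtTH) (hGN : StmtGN) (hWA : StmtWA) (hTT : StmtTT) : StmtFA := by
  intro d J hd hJ M
  obtain ⟨ε0, hε0, hG⟩ := hGN d J hd (by omega) M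
  refine ⟨min ε0 (1 / 4), by positivity, fun ε hε hεle C' hC' => ?_⟩
  have hε4 : ε ≤ 1 / 4 := hεle.trans (min_le_right _ _)
  have hd1 : 1 ≤ d := by omega
  obtain ⟨c1, hc1, hgain⟩ := hG ε hε (hεle.trans (min_le_left _ _))
  obtain ⟨L, hL0, hL⟩ := trans_lip
  have hKc := Kc_nonneg (d := d)
  obtain ⟨CU, hCU⟩ : ∃ CU, CU = 4 * L * Kq d L := ⟨_, rfl⟩
  have hCU0 : 0 ≤ CU := by
    rw [hCU]
    unfold Kq
    positivity
  obtain ⟨CW, hCW, hW⟩ := hWA d 2 hd M C' ε hC' hε (by linarith)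
  obtain ⟨c3, hc3⟩ : ∃ c3, c3 = min (c1 / 128) (1 / 25) := ⟨_, rfl⟩
  have hc30 : 0 < c3 := by
    rw [hc3]
    positivity
  have hc3a : c3 ≤ c1 / 128 := by rw [hc3]; exact min_le_left _ _
  have hc3b : c3 ≤ 1 / 25 := by rw [hc3]; exact min_le_right _ _
  obtain ⟨i1, hi1⟩ : ∃ i1, i1 = c3 / (2 * (CU + 1)) := ⟨_, rfl⟩
  have hi10 : 0 < i1 := by
    rw [hi1]
    positivity
  have hi1C : CU * i1 ≤ c3 / 2 := by
    rw [hi1, ← mul_div_assoc, div_le_div_iff₀ (by positivity) (by norm_num)]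
    nlinarith
  obtain ⟨i0, hi0, hT⟩ := hTT d 0 hd M C' ε i1 hC' hε hε4 hi10
  obtain ⟨η, hη⟩ : ∃ η, η = min i0 (1 / 20) := ⟨_, rfl⟩
  have hη0 : 0 < η := by
    rw [hη]
    positivity
  have hηi : η ≤ i0 := by rw [hη]; exact min_le_left _ _
  have hη20 : η ≤ 1 / 20 := by rw [hη]; exact min_le_right _ _
  obtain ⟨δ, hδ, hF⟩ := far_deriv hTH hd hC' hη0
  obtain ⟨δ', hδ'⟩ : ∃ δ', δ' = min δ (1 / 200) := ⟨_, rfl⟩
  have hδ'0 : 0 < δ' := by
    rw [hδ']
    positivity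
  have hδ'a : δ' ≤ δ := by rw [hδ']; exact min_le_left _ _
  have hδ'b : δ' ≤ 1 / 200 := by rw [hδ']; exact min_le_right _ _
  obtain ⟨K, hK⟩ : ∃ K, K = 24 * Kc d + 1 := ⟨_, rfl⟩
  have hK0 : 0 < K := by rw [hK]; linarith only [hKc]
  obtain ⟨p0, hp0⟩ : ∃ p0, p0 = min 1 (δ' / (2 * K)) := ⟨_, rfl⟩
  have hp00 : 0 < p0 := by
    rw [hp0]
    positivity
  have hp0a : p0 ≤ 1 := by rw [hp0]; exact min_le_left _ _
  have hp0b : K * p0 ≤ δ' / 2 := by
    have h1 : p0 ≤ δ' / (2 * K) := by rw [hp0]; exact min_le_right _ _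
    rw [le_div_iff₀ (by positivity)] at h1
    linarith only [h1]
  obtain ⟨A, hA⟩ : ∃ A, A = max 8 (max (1 / Real.sqrt p0) (2 * K / δ')) := ⟨_, rfl⟩
  have hA8 : 8 ≤ A := by rw [hA]; exact le_max_left _ _
  have hA0 : 0 < A := by linarith only [hA8]
  have hAp : 1 / A ^ 2 ≤ p0 := by
    have h1 : 1 / Real.sqrt p0 ≤ A := by
      rw [hA]
      exact (le_max_left _ _).trans (le_max_right _ _)
    have h2 : 0 < Real.sqrt p0 := Real.sqrt_pos.2 hp00
    rw [div_le_iff₀ h2] at h1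
    rw [div_le_iff₀ (by positivity)]
    have h3 : 1 ^ 2 ≤ (A * Real.sqrt p0) ^ 2 := pow_le_pow_left₀ zero_le_one h1 2
    rw [mul_pow, Real.sq_sqrt hp00.le] at h3
    linarith only [h3]
  have hAK : K * (1 / A) ≤ δ' / 2 := by
    have h1 : 2 * K / δ' ≤ A := by
      rw [hA]
      exact (le_max_right _ _).trans (le_max_right _ _)
    rw [div_le_iff₀ hδ'0] at h1
    rw [mul_one_div, div_le_iff₀ hA0]
    linarith only [h1]
  obtain ⟨CV, hCV, hvok⟩ := vok hTH hd hC'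
  -- the far region
  have hfar : ∀ μ : Measure (Sp d), Gro C' μ → ∀ y : Sp d, qq A μ 1 y ≤ p0 →
      Far μ y δ' η := by
    intro μ hμ y hy
    have hfin : IsFiniteMeasure μ := hμ.fin
    have hv : ∀ (t : ℝ) (x : Sp d), 1 / 2 ≤ t → t ≤ 2 → ‖x - y‖ ≤ 2 →
        |vv μ t x - Real.sqrt t * vv μ 1 y| ≤ δ' * vv μ 1 y := by
      intro t x ht ht2 hxy
      refine (vv_diff hd1 μ hμ.ne hA8 ht ht2 hxy).trans ?_
      refine mul_le_mul_of_nonneg_right ?_ (Real.sqrt_nonneg _)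
      have hq := qq_nonneg A μ y
      have hA1 : 0 ≤ 1 / A := by positivity
      have h1 : 24 * Kc d * (qq A μ 1 y + 1 / A) ≤ K * (p0 + 1 / A) := by
        refine mul_le_mul (by linarith) (by linarith) (by positivity) hK0.le
      linarith only [hp0b, hAK, h1]
    exact ⟨hv, hF μ hμ y fun t x ht ht2 hxy => (hv t x ht ht2 hxy).trans
      (mul_le_mul_of_nonneg_right hδ'a (Real.sqrt_nonneg _))⟩
  -- lower bound of H in the far region
  have hH : ∀ β : Sp d → ℝ, Kit J M β → ∀ μ : Measure (Sp d), Gro C' μ → ∀ n : Sp d, ‖n‖ = 1 →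
      ∀ y : Sp d, qq A μ 1 y ≤ p0 → c3 / 2 * vv μ 1 y ≤ Hn β ε p0 A μ n 1 y := by
    intro β hβ μ hμ n hn y hy
    have hfin : IsFiniteMeasure μ := hμ.fin
    have hV := hvok μ hμ
    have hv := hV.pos 1 y one_pos
    have hFar := hfar μ hμ y hy
    have hX := XX_far hV hFar hδ'b hη20 hβ hε hε4 hn
    have hGG := GG_far hV hFar hδ'b hβ hε hε4
    have hgn := hgain β hβ C' μ hC' hμ n hn y
    have h1 : c3 * vv μ 1 y ≤ gn β ε μ n 1 y := by
      refine le_trans ?_ hgn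
      have h2 := mul_le_mul_of_nonneg_left hX hc1.le
      have h3 := mul_le_mul_of_nonneg_right hc3a hv.le
      linarith only [h2, h3]
    have h2 : c3 * vv μ 1 y ≤ GG β ε μ 1 y :=
      (mul_le_mul_of_nonneg_right hc3b hv.le).trans hGG
    have h3 : ‖tang n (gradient (WW β ε μ 1) y)‖ ≤ i1 * vv μ 1 y := by
      have := hT β (kit_mono hβ (by omega)) μ hμ n y hn (fun t x ht ht2 hxy =>
        ((tang_norm hn _).trans (hFar.der t x ht ht2 hxy).1).trans
          (mul_le_mul_of_nonneg_right hηi hv.le)) 0 le_rfl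
      rwa [norm_iteratedFDeriv_zero] at this
    have h4 : ‖tang n (gradient (Ups p0 A μ 1) y)‖ ≤ CU := by
      rw [hCU]
      exact (tang_norm hn _).trans (ups_grad hd1 hL0 hL μ hμ.ne hA0 hp00 hAp hy)
    have h5 : ⟪tang n (gradient (Ups p0 A μ 1) y), tang n (gradient (WW β ε μ 1) y)⟫_ℝ ≤
        c3 / 2 * vv μ 1 y := by
      refine (real_inner_le_norm _ _).trans ?_
      calc ‖tang n (gradient (Ups p0 A μ 1) y)‖ * ‖tang n (gradient (WW β ε μ 1) y)‖
          ≤ CU * (i1 * vv μ 1 y) := mul_le_mul h4 h3 (norm_nonneg _) hCU0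
        _ = CU * i1 * vv μ 1 y := by ring
        _ ≤ _ := mul_le_mul_of_nonneg_right hi1C hv.le
    have hU0 := ups_nonneg p0 A μ y
    have hU1 := ups_le p0 A μ y
    unfold Hn
    have h6 := mul_le_mul_of_nonneg_left h1 hU0
    have h7 := mul_le_mul_of_nonneg_left h2 (sub_nonneg.2 hU1)
    linarith only [h5, h6, h7]
  obtain ⟨c, hc⟩ : ∃ c, c = min (min c1 (1 / 128)) (min (c3 / 2) (c3 / (2 * CW))) := ⟨_, rfl⟩
  have hc0 : 0 < c := by
    rw [hc]
    positivity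
  have hca : c ≤ c1 := by
    rw [hc]
    exact (min_le_left _ _).trans (min_le_left _ _)
  have hcb : c ≤ 1 / 128 := by
    rw [hc]
    exact (min_le_left _ _).trans (min_le_right _ _)
  have hcc : c ≤ c3 / 2 := by
    rw [hc]
    exact (min_le_right _ _).trans (min_le_left _ _)
  have hcd : c * CW ≤ c3 / 2 := by
    have h1 : c ≤ c3 / (2 * CW) := by
      rw [hc]
      exact (min_le_right _ _).trans (min_le_right _ _)
    rw [le_div_iff₀ (by positivity)] at h1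
    linarith only [h1]
  refine ⟨p0, A, c, hp00, hp0a, by linarith only [hA8], hc0, ?_, ?_, ?_⟩
  · intro β hβ μ hμ n hn y
    have hfin : IsFiniteMeasure μ := hμ.fin
    have hv := (hvok μ hμ).pos 1 y one_pos
    obtain ⟨_, _, _, _, hWn⟩ := hW β (kit_mono hβ (by omega)) μ hμ
    obtain ⟨_, hX0, hX1, _⟩ := hWn n hn
    rcases le_or_gt (qq A μ 1 y) p0 with hy | hy
    · refine le_trans ?_ (hH β hβ μ hμ n hn y hy)
      have h1 := hX1 0 (Nat.zero_le _) y
      rw [norm_iteratedFDeriv_zero, Real.norm_eq_abs, abs_of_nonneg (hX0 y)] at h1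
      have h2 := mul_le_mul_of_nonneg_left h1 hc0.le
      have h3 := mul_le_mul_of_nonneg_right hcd hv.le
      linarith only [h2, h3]
    · obtain ⟨hu1, hu2⟩ := ups_near hd1 μ hμ.ne hA0 hp00 hy
      have e1 : Hn β ε p0 A μ n 1 y = gn β ε μ n 1 y := by
        unfold Hn
        rw [hu1, hu2]
        have : tang n (0 : Sp d) = 0 := by simp [tang]
        rw [this, inner_zero_left]
        ring
      rw [e1]
      refine le_trans ?_ (hgain β hβ C' μ hC' hμ n hn y)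
      exact mul_le_mul_of_nonneg_right hca (hX0 y)
  · intro β hβ μ hμ n hn y hy
    have hv := (hvok μ hμ).pos 1 y one_pos
    refine ⟨(mul_le_mul_of_nonneg_right hcc hv.le).trans (hH β hβ μ hμ n hn y hy), ?_⟩
    refine le_trans (mul_le_mul_of_nonneg_right ?_ hv.le)
      (GG_far (hvok μ hμ) (hfar μ hμ y hy) hδ'b hβ hε hε4)
    linarith only [hcb]
  · intro β hβ μ hμ n hn y hy
    have hv := (hvok μ hμ).pos 1 y one_pos
    exact (mul_le_mul_of_nonneg_right hcb hv.le).trans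
      (XX_far (hvok μ hμ) (hfar μ hμ y hy) hδ'b hη20 hβ hε hε4 hn)

end

end TG


end

section

/-!
# Kernels controlled by disc averages (module WB)
-/

open MeasureTheory Metric Set TrI Filter Topology
open scoped InnerProductSpace ContDiff

namespace TG

noncomputable section

namespace WBT

variable {d : ℕ} {G : Type*} [NormedAddCommGroup G] [NormedSpace ℝ G]

/-- kernels whose derivatives are controlled by the weight κ -/
structure KB (m : ℕ) (P : ℝ) (κ : Sp d → ℝ) (K : Sp d → G) : Prop where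
  kc : KC m K
  bd : ∀ i ≤ m, ∀ z, ‖iteratedFDeriv ℝ i K z‖ ≤ P * Real.sqrt (κ z)

lemma KB.mono {m m' : ℕ} {P : ℝ} {κ : Sp d → ℝ} {K : Sp d → G} (h : KB m P κ K) (hm : m' ≤ m) :
    KB m' P κ K :=
  ⟨h.kc.mono hm, fun i hi z => h.bd i (hi.trans hm) z⟩

lemma KB.norm_le {m : ℕ} {P : ℝ} {κ : Sp d → ℝ} {K : Sp d → G} (h : KB m P κ K) (z : Sp d) :
    ‖K z‖ ≤ P * Real.sqrt (κ z) := by
  have := h.bd 0 (Nat.zero_le _) z
  rwa [norm_iteratedFDeriv_zero] at this

lemma KB.fderiv {m : ℕ} {P : ℝ} {κ : Sp d → ℝ} {K : Sp d → G} (h : KB (m + 1) P κ K) :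
    KB m P κ (fderiv ℝ K) :=
  ⟨h.kc.fderiv, fun i hi z => by
    rw [norm_iteratedFDeriv_fderiv]
    exact h.bd (i + 1) (by omega) z⟩

lemma KB.clm {G' : Type*} [NormedAddCommGroup G'] [NormedSpace ℝ G'] {m : ℕ} {P : ℝ}
    {κ : Sp d → ℝ} {K : Sp d → G} (h : KB m P κ K) (L : G →L[ℝ] G') (hL : ‖L‖ ≤ 1) :
    KB m P κ (fun z => L (K z)) := by
  refine ⟨h.kc.clm L, fun i hi z => ?_⟩
  have h1 : ‖iteratedFDeriv ℝ i (fun z => L (K z)) z‖ ≤ ‖L‖ * ‖iteratedFDeriv ℝ i K z‖ :=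
    L.norm_iteratedFDeriv_comp_left (f := K) (x := z) (N := m) h.kc.smooth.contDiffAt
      (by exact_mod_cast hi)
  have h2 := h.bd i hi z
  have h3 := mul_le_mul_of_nonneg_right hL (norm_nonneg (iteratedFDeriv ℝ i K z))
  calc _ ≤ ‖L‖ * ‖iteratedFDeriv ℝ i K z‖ := h1
    _ ≤ _ := by linarith

lemma KB.dir {m : ℕ} {P : ℝ} {κ : Sp d → ℝ} {K : Sp d → G} (h : KB (m + 1) P κ K) {e : Sp d}
    (he : ‖e‖ ≤ 1) : KB m P κ (fun z => _root_.fderiv ℝ K z e) :=
  h.fderiv.clm (ContinuousLinearMap.apply ℝ G e) (by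
    refine ContinuousLinearMap.opNorm_le_bound _ zero_le_one fun φ => ?_
    rw [ContinuousLinearMap.apply_apply, one_mul]
    exact (φ.le_opNorm e).trans (by nlinarith [norm_nonneg φ]))

lemma KB.add {m : ℕ} {P P' : ℝ} {κ : Sp d → ℝ} {K K' : Sp d → G} (h : KB m P κ K)
    (h' : KB m P' κ K') : KB m (P + P') κ (fun z => K z + K' z) := by
  refine ⟨h.kc.add h'.kc, fun i hi z => ?_⟩
  have hi' : ((i : ℕ) : WithTop ℕ∞) ≤ (m : WithTop ℕ∞) := by exact_mod_cast hi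
  have h1 : iteratedFDeriv ℝ i (fun z => K z + K' z) z
      = iteratedFDeriv ℝ i K z + iteratedFDeriv ℝ i K' z :=
    iteratedFDeriv_add_apply (h.kc.smooth.contDiffAt.of_le hi')
      (h'.kc.smooth.contDiffAt.of_le hi')
  rw [h1, add_mul]
  exact (norm_add_le _ _).trans (add_le_add (h.bd i hi z) (h'.bd i hi z))

lemma KB.csmul {m : ℕ} {P : ℝ} {κ : Sp d → ℝ} {K : Sp d → G} (h : KB m P κ K) (c : ℝ) :
    KB m (|c| * P) κ (fun z => c • K z) := by
  refine ⟨h.kc.csmul c, fun i hi z => ?_⟩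
  have hi' : ((i : ℕ) : WithTop ℕ∞) ≤ (m : WithTop ℕ∞) := by exact_mod_cast hi
  have h1 : iteratedFDeriv ℝ i (fun z => c • K z) z = c • iteratedFDeriv ℝ i K z :=
    iteratedFDeriv_const_smul_apply (h.kc.smooth.contDiffAt.of_le hi')
  rw [h1, norm_smul, Real.norm_eq_abs, mul_assoc]
  exact mul_le_mul_of_nonneg_left (h.bd i hi z) (abs_nonneg c)

lemma KB.sum {ι : Type*} {m : ℕ} {P : ℝ} {κ : Sp d → ℝ} {K : ι → Sp d → G} {s : Finset ι}
    (h : ∀ i ∈ s, KB m P κ (K i)) : KB m (s.card * P) κ (fun z => ∑ i ∈ s, K i z) := by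
  classical
  induction s using Finset.induction_on with
  | empty =>
    simp only [Finset.sum_empty, Finset.card_empty, Nat.cast_zero, zero_mul]
    refine ⟨⟨contDiff_const, fun z _ => rfl⟩, fun i hi z => ?_⟩
    rw [iteratedFDeriv_fun_zero]
    simp
  | insert a s ha ih =>
    have h1 := (h a (Finset.mem_insert_self a s)).add
      (ih fun i hi => h i (Finset.mem_insert_of_mem hi))
    have h2 : (P + s.card * P) = ((insert a s).card : ℝ) * P := by
      rw [Finset.card_insert_of_notMem ha]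
      push_cast
      ring
    rw [h2] at h1
    simp only [Finset.sum_insert ha]
    exact h1

lemma KB.tens {m : ℕ} {P : ℝ} {κ : Sp d → ℝ} {K : Sp d → G} (h : KB m P κ K) {n : Sp d}
    (hn : ‖n‖ ≤ 1) : KB m P κ (tens n K) :=
  h.clm ((ContinuousLinearMap.smulRightL ℝ (Sp d) G) (innerSL ℝ n)) (by
    refine ContinuousLinearMap.opNorm_le_bound _ zero_le_one fun v => ?_
    show ‖(innerSL ℝ n).smulRight v‖ ≤ 1 * ‖v‖
    rw [ContinuousLinearMap.norm_smulRight_apply, innerSL_apply_norm]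
    exact mul_le_mul_of_nonneg_right hn (norm_nonneg v))

/-- the kernels of a kit -/
lemma Kit.kb {J : ℕ} {M : ℝ} {β : Sp d → ℝ} (h : Kit J M β) {n : Sp d} (hn : ‖n‖ = 1) :
    KB J (Real.sqrt (max M 1)) (disc n β) β ∧ KB J (Real.sqrt (max M 1)) (disc n β) (Bp β) ∧
      KB J (Real.sqrt (max M 1)) (disc n β) (Bp (Bp β)) := by
  have hd : ∀ z, 0 ≤ disc n β z := disc_nonneg n h.prof.nonneg
  have key : ∀ (x : ℝ) (z : Sp d), 0 ≤ x → x ^ 2 ≤ M * disc n β z →
      x ≤ Real.sqrt (max M 1) * Real.sqrt (disc n β z) := by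
    intro x z hx h1
    rw [← Real.sqrt_mul (by positivity)]
    refine Real.le_sqrt_of_sq_le (h1.trans ?_)
    exact mul_le_mul_of_nonneg_right (le_max_left _ _) (hd z)
  exact ⟨⟨⟨h.prof.smooth, fun z hz => h.prof.supp z hz.le⟩,
      fun i hi z => key _ z (norm_nonneg _) (h.prof.der i hi n hn z)⟩,
    ⟨⟨h.smooth1, fun z hz => h.supp1 z hz.le⟩,
      fun i hi z => key _ z (norm_nonneg _) (h.der1 i hi n hn z)⟩,
    ⟨⟨h.smooth2, fun z hz => h.supp2 z hz.le⟩,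
      fun i hi z => key _ z (norm_nonneg _) (h.der2 i hi n hn z)⟩⟩

/-- the right hand side of the sharp bounds -/
def EE (C : ℝ) (V : ℝ → Sp d → ℝ) (β : Sp d → ℝ) (n : Sp d) (ε : ℝ) (y : Sp d) : ℝ :=
  (C * vQ d * (2 / ε) ^ d) * V 1 y * discR n (2 * ε) (XT V β n ε) y

/-- e1 without squares -/
lemma e1' {C : ℝ} {V : ℝ → Sp d → ℝ} (hV : VOK C V) {n : Sp d} (hn : ‖n‖ = 1) {ε : ℝ}
    (hε : 0 < ε) (hε1 : ε ≤ 1) {β : Sp d → ℝ} (hβ : KC 0 β) (hβ0 : ∀ z, 0 ≤ β z)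
    {Ψ : ℝ → Sp d → Sp d → G} {m : ℕ} (hΨ : Reg m Ψ) {P : ℝ} (hP : 0 ≤ P) (y : Sp d)
    (hb : ∀ r z, 1 / 2 ≤ r → r ≤ 2 → ‖z‖ ≤ 1 → ‖Ψ r z (y + (ε * r) • z)‖
      ≤ P * Real.sqrt (disc n β z * QH V n ε r z (y + (ε * r) • z))) :
    ‖II ε Ψ y‖ ≤ P * Real.sqrt (EE C V β n ε y) := by
  have h1 := e1 hV hn hε hε1 hβ hβ0 hΨ hP y hb
  rw [← Real.sqrt_sq hP, ← Real.sqrt_mul (sq_nonneg P)]
  exact Real.le_sqrt_of_sq_le h1

/-- the derivative in an orthogonal direction is controlled by the quadratic form -/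
lemma pX_le_QH (V : ℝ → Sp d → ℝ) {n e : Sp d} (he : ‖e‖ ≤ 1) (hne : ⟪n, e⟫_ℝ = 0)
    (ε r : ℝ) (z x : Sp d) : |pX V e r x| ≤ Real.sqrt (QH V n ε r z x) := by
  have h1 : pX V e r x = ⟪tang n (gradient (V r) x), e⟫_ℝ := by
    rw [inner_tang hne, inner_grad]
    rfl
  have h2 : |pX V e r x| ≤ ‖tang n (gradient (V r) x)‖ := by
    rw [h1]
    have h3 := abs_real_inner_le_norm (tang n (gradient (V r) x)) e
    nlinarith [norm_nonneg (tang n (gradient (V r) x))]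
  refine Real.le_sqrt_of_sq_le ?_
  have h4 : |pX V e r x| ^ 2 ≤ TT V n r x := by
    unfold TT
    exact pow_le_pow_left₀ (abs_nonneg _) h2 2
  unfold QH
  have h5 := sq_nonneg (pT V r x + ε * ⟪n, z⟫_ℝ * pX V n r x)
  linarith

/-- the ray derivative is controlled by the quadratic form -/
lemma ray_le_QH (V : ℝ → Sp d → ℝ) (n : Sp d) (ε r : ℝ) (z x : Sp d) :
    |pT V r x + ε * ⟪n, z⟫_ℝ * pX V n r x| ≤ Real.sqrt (QH V n ε r z x) := by
  refine Real.le_sqrt_of_sq_le ?_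
  rw [sq_abs]
  unfold QH TT
  have h5 := sq_nonneg ‖tang n (gradient (V r) x)‖
  linarith

/-- directional form of the iterated derivative -/
lemma iter_last {j : ℕ} {f : Sp d → ℝ} (hf : ContDiff ℝ (j + 1 : ℕ) f) (y : Sp d)
    (h : Fin (j + 1) → Sp d) : iteratedFDeriv ℝ (j + 1) f y h
      = iteratedFDeriv ℝ j (fun x => fderiv ℝ f x (h (Fin.last j))) y (Fin.init h) := by
  rw [iteratedFDeriv_succ_apply_right]
  have h1 : ContDiff ℝ j (fun x => fderiv ℝ f x) := hf.fderiv_right (by push_cast; exact le_rfl)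
  have h2 := (ContinuousLinearMap.apply ℝ ℝ (h (Fin.last j))).iteratedFDeriv_comp_left
    (f := fun x => fderiv ℝ f x) (x := y) (n := j) h1.contDiffAt (i := j) le_rfl
  have h3 : (⇑(ContinuousLinearMap.apply ℝ ℝ (h (Fin.last j))) ∘ fun x => fderiv ℝ f x)
      = fun x => fderiv ℝ f x (h (Fin.last j)) := rfl
  rw [h3] at h2
  rw [h2]
  rfl

end WBT

end

end TG


end
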