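import Mathlib
import Pool.Agent.TRM.C04
import Pool.Agent.TRM.C06
import Pool.Agent.TRM.C08
import Pool.Agent.TRM.C10
import Pool.Agent.TRM.C13
import Pool.Agent.TRM.C15
import Pool.Agent.TRM.C24

/-! Parts: TG.FRS, TG.FR4, TG.FR2, TG.UU, TG.IN1, TG.IN2, TG.IN3, TG.IN, TG.PO -/

section

/-!
# The partial sums of the budgets, common to the modules FR2 and FR4  (helper89)
-/

open MeasureTheory Metric Set TrI
open scoped InnerProductSpace ContDiff ENNReal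

namespace TG

namespace FR4

open FR

noncomputable section

variable {d : ℕ}

lemma wq_eq (r : ℕ) : wq (1 / 4) r = (2 : ℝ) ^ (-((r : ℝ) / 4)) := by
  unfold wq
  congr 1
  ring

lemma sh_summable {F : Cell d → ℝ} (h0 : ∀ Q, 0 ≤ F Q) {B : ℝ} (hB : ∀ Q, F Q ≤ B)
    (Q : Cell d) : Summable (fun i : ℕ => (2 : ℝ) ^ (-((i : ℝ) / 4)) * F (up i Q)) := by
  have h1 : ∀ i : ℕ, (2 : ℝ) ^ (-((i : ℝ) / 4)) = ((2 : ℝ) ^ (-(1 / 4 : ℝ))) ^ i := by
    intro i
    rw [← Real.rpow_natCast, ← Real.rpow_mul (by norm_num)]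
    congr 1
    ring
  have h2 : (2 : ℝ) ^ (-(1 / 4 : ℝ)) < 1 := Real.rpow_lt_one_of_one_lt_of_neg (by norm_num)
    (by norm_num)
  have h3 : Summable (fun i : ℕ => ((2 : ℝ) ^ (-(1 / 4 : ℝ))) ^ i * B) :=
    (summable_geometric_of_lt_one (by positivity) h2).mul_right B
  refine Summable.of_nonneg_of_le (fun i => mul_nonneg (by positivity) (h0 _)) (fun i => ?_) h3
  rw [h1]
  exact mul_le_mul_of_nonneg_left (hB _) (by positivity)

lemma sum_le_sh {F : Cell d → ℝ} (h0 : ∀ Q, 0 ≤ F Q) {B : ℝ} (hB : ∀ Q, F Q ≤ B)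
    (Q : Cell d) (k I : ℕ) :
    ∑ r ∈ Finset.range I, wq (1 / 4) r * F (up (r + k) Q) ≤ (2 : ℝ) ^ ((k : ℝ) / 4) * sh F Q := by
  have h1 : ∀ r : ℕ, wq (1 / 4) r * F (up (r + k) Q) =
      (2 : ℝ) ^ ((k : ℝ) / 4) * ((2 : ℝ) ^ (-(((k + r : ℕ) : ℝ) / 4)) * F (up (k + r) Q)) := by
    intro r
    rw [wq_eq, ← mul_assoc, ← Real.rpow_add (by norm_num), add_comm k r]
    congr 2
    push_cast
    ring
  simp_rw [h1]
  rw [← Finset.mul_sum]
  refine mul_le_mul_of_nonneg_left ?_ (by positivity)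
  have h2 := Finset.sum_range_add
    (fun i : ℕ => (2 : ℝ) ^ (-((i : ℝ) / 4)) * F (up i Q)) k I
  have h3 : 0 ≤ ∑ i ∈ Finset.range k, (2 : ℝ) ^ (-((i : ℝ) / 4)) * F (up i Q) :=
    Finset.sum_nonneg fun i _ => mul_nonneg (by positivity) (h0 _)
  have h4 := (sh_summable h0 hB Q).sum_le_tsum (Finset.range (k + I))
    (fun i _ => mul_nonneg (by positivity) (h0 _))
  unfold sh
  linarith only [h2, h3, h4]

lemma le_sh {F : Cell d → ℝ} (h0 : ∀ Q, 0 ≤ F Q) {B : ℝ} (hB : ∀ Q, F Q ≤ B)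
    (Q : Cell d) (k : ℕ) : F (up k Q) ≤ (2 : ℝ) ^ ((k : ℝ) / 4) * sh F Q := by
  have h1 := sum_le_sh h0 hB Q k 1
  simp only [Finset.range_one, Finset.sum_singleton, zero_add] at h1
  have h2 : wq (1 / 4) 0 = 1 := by simp [wq]
  rwa [h2, one_mul] at h1

lemma sh_nonneg {F : Cell d → ℝ} (h0 : ∀ Q, 0 ≤ F Q) (Q : Cell d) : 0 ≤ sh F Q :=
  tsum_nonneg fun _ => mul_nonneg (by positivity) (h0 _)

lemma sh_mono {F G : Cell d → ℝ} (h0 : ∀ Q, 0 ≤ F Q) (hFG : ∀ Q, F Q ≤ G Q) {B : ℝ}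
    (hB : ∀ Q, G Q ≤ B) (Q : Cell d) : sh F Q ≤ sh G Q := by
  unfold sh
  exact (sh_summable h0 (fun Q => (hFG Q).trans (hB Q)) Q).tsum_le_tsum
    (fun i => mul_le_mul_of_nonneg_left (hFG _) (by positivity))
    (sh_summable (fun Q => (h0 Q).trans (hFG Q)) hB Q)

lemma nw_le {s0 : ℝ} (h : 0 < s0) (hd : 1 ≤ d) (Q : Cell d) : nw s0 Q ≤ (s0 ^ (d - 1))⁻¹ := by
  have hl := lev_pos h Q.1
  have h1 : s0 ≤ lev s0 Q.1 := by
    unfold lev
    exact le_mul_of_one_le_right h.le (one_le_pow₀ (by norm_num))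
  have h2 : nw s0 Q = (lev s0 Q.1 ^ (d - 1))⁻¹ := by
    unfold nw
    have h3 : lev s0 Q.1 ^ d = lev s0 Q.1 ^ (d - 1) * lev s0 Q.1 := by
      rw [← pow_succ]
      congr 1
      omega
    rw [h3]
    field_simp
  rw [h2]
  exact inv_anti₀ (by positivity) (pow_le_pow_left₀ h.le h1 _)

/-- the plane functionals are bounded -/
lemma bC_bdd (h4 : StmtCT4) (hd : 1 ≤ d) {M c0 ε : ℝ} (hε : 0 < ε)
    (hε1 : ε ≤ 1) {b : Sp d → ℝ} (hb : BaseKer 2 M c0 b) {R0 : ℝ} (hR0 : 0 ≤ R0)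
    {E : Type} [NormedAddCommGroup E] [InnerProductSpace ℝ E] [FiniteDimensional ℝ E]
    {f : Sp d → E} (hf : Continuous f) (hc : HasCompactSupport f) {s0 : ℝ} (h : 0 < s0)
    {F G : Cell d → ℝ} {C B : ℝ} (hC : 0 ≤ C) (hG : ∀ Q, G Q ≤ B)
    (hF : ∀ Q, F Q ≤ C * (mC b ε (R0 + 3) s0 f Q + G Q)) : ∃ B', ∀ Q, F Q ≤ B' := by
  obtain ⟨C4, hC4, g4⟩ := h4 d hd 0 le_rfl
  obtain ⟨g41, g42, -, -⟩ := g4 M c0 ε hε hε1 b hb E f hf hc s0 h
  refine ⟨C * ((1 + (R0 + 3)) ^ (d + 2) * ((s0 ^ (d - 1))⁻¹ * ∫ y, ‖f y‖) + B), fun Q => ?_⟩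
  refine (hF Q).trans (mul_le_mul_of_nonneg_left (add_le_add ?_ (hG Q)) hC)
  refine (g41 (R0 + 3) (by linarith) Q).trans (mul_le_mul_of_nonneg_left ?_ (by positivity))
  refine (g42 Q).trans (mul_le_mul_of_nonneg_right (nw_le h hd Q) ?_)
  exact integral_nonneg fun y => norm_nonneg _

/-- the budgets in the frame of Q -/
theorem sums (h2 : StmtCT2) (h4 : StmtCT4) (h5 : StmtCT5) (h8 : StmtCT8) (hSC : StmtSC)
    (hSD : StmtSD) (hd : 2 ≤ d) {M c0 ε : ℝ} (hε : 0 < ε) (hε1 : ε ≤ 1) {b : Sp d → ℝ}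
    (hb : BaseKer 2 M c0 b) {R0 : ℝ} (hR0 : 400 + 8 * d ≤ R0) : ∃ C : ℝ, 0 < C ∧
    ∀ (E : Type) [NormedAddCommGroup E] [InnerProductSpace ℝ E] [FiniteDimensional ℝ E]
      [Nontrivial E] (R : ℝ), 300 * R0 ≤ R → ∀ f : Sp d → E, Continuous f →
      HasCompactSupport f → ∀ s0 : ℝ, 0 < s0 → ∀ e : Cell d → E, Dirs b ε R s0 f e →
    ∀ (ν : Cell d → Sp d) (c : Cell d → ℝ), Plns R0 s0 f e ν c → ∀ Q : Cell d,
      (∀ I : ℕ, ∑ r ∈ Finset.range I, wq (1 / 4) r *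
        bD b ε (64 * R0) R ((1 / 2) ^ Q.1) (rs (xC s0 Q) (lev s0 Q.1) f) (Q.1 + r)
          (tw s0 Q (up r Q)) (e (up r Q)) (ν (up (r + 7) Q))
          (cfr s0 Q (ν (up (r + 7) Q)) (c (up (r + 7) Q))) ≤
          C * bsh b ε R0 R s0 f e ν c Q) ∧
      (∀ I : ℕ, ∑ r ∈ Finset.range I, wq (1 / 4) r *
        DD b ε R ((1 / 2) ^ Q.1) (rs (xC s0 Q) (lev s0 Q.1) f) (Q.1 + r)
          (tw s0 Q (up r Q)) (e (up r Q)) ≤ dsh b ε R s0 f e Q) ∧
      (∀ r : ℕ, |ht (ν (up (r + 7) Q)) (cfr s0 Q (ν (up (r + 7) Q)) (c (up (r + 7) Q)))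
        (tw s0 Q (up r Q))| ≤ 4 * (64 * R0) * 2 ^ r) ∧
      0 ≤ dsh b ε R s0 f e Q ∧ dsh b ε R s0 f e Q ≤ bsh b ε R0 R s0 f e ν c Q ∧
      (∀ k : ℕ, 0 ≤ dC b ε R s0 f e (up k Q) ∧
        dC b ε R s0 f e (up k Q) ≤ (2 : ℝ) ^ ((k : ℝ) / 4) * dsh b ε R s0 f e Q) := by
  have hd1 : 1 ≤ d := by omega
  have hdR : (1 : ℝ) ≤ d := by exact_mod_cast hd1
  have hsd : Real.sqrt d ≤ d := by
    rw [Real.sqrt_le_left (by linarith)]
    nlinarith
  have hsd0 := Real.sqrt_nonneg (d : ℝ)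
  obtain ⟨C5, hC5, g5⟩ := h5 d hd1 M c0 ε hε hε1 b hb R0 0 (by linarith)
  obtain ⟨CP, hCP, gP⟩ := plane_le h8 h5 hd hε hε1 hb hR0
  refine ⟨CP * (2 : ℝ) ^ ((7 : ℝ) / 4) * 2 + CP + 1, by positivity, ?_⟩
  intro E _ _ _ _ R hR f hf hc s0 h e he ν c hν Q
  obtain ⟨C2, hC2, g2⟩ := h2 d hd1 M c0 ε R hε hε1 (by linarith) b hb
  obtain ⟨hD0, ⟨B1, hB1⟩, -⟩ := g2 E f hf hc s0 h e he
  obtain ⟨g51, -, -, -, -⟩ := g5 E R (by linarith) f hf hc s0 h e he ν c hν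
  have hb0 : ∀ Q, 0 ≤ bC R0 s0 f e ν c Q := fun Q => (g51 Q).2.1
  obtain ⟨B2, hB2⟩ := bC_bdd h4 hd1 hε hε1 hb (R0 := R0) (by linarith) hf hc h
    (F := bC R0 s0 f e ν c) hC5.le hB1 (fun Q => (g51 Q).2.2)
  have hl := lev_pos h Q.1
  have hdsh0 : 0 ≤ dsh b ε R s0 f e Q := sh_nonneg hD0 Q
  have hle : dsh b ε R s0 f e Q ≤ bsh b ε R0 R s0 f e ν c Q :=
    sh_mono hD0 (fun Q => le_add_of_nonneg_left (hb0 Q)) (B := B2 + B1)
      (fun Q => add_le_add (hB2 Q) (hB1 Q)) Q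
  have hle2 : sh (bC R0 s0 f e ν c) Q ≤ bsh b ε R0 R s0 f e ν c Q :=
    sh_mono hb0 (fun Q => le_add_of_nonneg_right (hD0 Q)) (B := B2 + B1)
      (fun Q => add_le_add (hB2 Q) (hB1 Q)) Q
  refine ⟨?_, ?_, ?_, hdsh0, hle, fun k => ⟨hD0 _, le_sh hD0 hB1 Q k⟩⟩
  · intro I
    have h1 : ∀ r : ℕ, wq (1 / 4) r *
        bD b ε (64 * R0) R ((1 / 2) ^ Q.1) (rs (xC s0 Q) (lev s0 Q.1) f) (Q.1 + r)
          (tw s0 Q (up r Q)) (e (up r Q)) (ν (up (r + 7) Q))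
          (cfr s0 Q (ν (up (r + 7) Q)) (c (up (r + 7) Q))) ≤
        CP * (wq (1 / 4) r * bC R0 s0 f e ν c (up (r + 7) Q)) +
        CP * (wq (1 / 4) r * dC b ε R s0 f e (up (r + 7) Q)) +
        (CP + 1) * (wq (1 / 4) r * dC b ε R s0 f e (up (r + 0) Q)) := by
      intro r
      have h2 := gP E R hR f hf hc s0 h e he ν c hν (up r Q)
      rw [up_up] at h2
      unfold bD
      rw [bb_frame hSD hd1 hf hc h, DD_frame hSC hd hε hε1 hb hf hc h]
      have h3 : 0 ≤ wq (1 / 4) r := by unfold wq; positivity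
      have h4 : DD b ε R s0 f (up r Q).1 (xC s0 (up r Q)) (e (up r Q)) =
        dC b ε R s0 f e (up r Q) := rfl
      rw [h4, add_zero]
      have h5 := mul_le_mul_of_nonneg_left h2 h3
      linarith only [h5]
    refine (Finset.sum_le_sum fun r _ => h1 r).trans ?_
    rw [Finset.sum_add_distrib, Finset.sum_add_distrib, ← Finset.mul_sum, ← Finset.mul_sum,
      ← Finset.mul_sum]
    have s1 := sum_le_sh hb0 hB2 Q 7 I
    have s2 := sum_le_sh hD0 hB1 Q 7 I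
    have s3 := sum_le_sh hD0 hB1 Q 0 I
    have t1 : sh (fun P => dC b ε R s0 f e P) Q = dsh b ε R s0 f e Q := rfl
    have e0 : (2 : ℝ) ^ (((0 : ℕ) : ℝ) / 4) = 1 := by simp
    have e7 : (((7 : ℕ) : ℝ) / 4) = 7 / 4 := by norm_num
    rw [e0, one_mul] at s3
    rw [e7] at s1 s2
    have hp : (0 : ℝ) < (2 : ℝ) ^ ((7 : ℝ) / 4) := by positivity
    have s1' := s1.trans (mul_le_mul_of_nonneg_left hle2 hp.le)
    have s2' := s2.trans (mul_le_mul_of_nonneg_left (t1.le.trans hle) hp.le)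
    have s3' := s3.trans (t1.le.trans hle)
    have q1 := mul_le_mul_of_nonneg_left s1' hCP.le
    have q2 := mul_le_mul_of_nonneg_left s2' hCP.le
    have q3 := mul_le_mul_of_nonneg_left s3' (by linarith only [hCP] : 0 ≤ CP + 1)
    linarith only [q1, q2, q3]
  · intro I
    have h1 : ∀ r : ℕ, wq (1 / 4) r *
        DD b ε R ((1 / 2) ^ Q.1) (rs (xC s0 Q) (lev s0 Q.1) f) (Q.1 + r)
          (tw s0 Q (up r Q)) (e (up r Q)) =
        wq (1 / 4) r * dC b ε R s0 f e (up (r + 0) Q) := by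
      intro r
      rw [DD_frame hSC hd hε hε1 hb hf hc h]
      rfl
    simp_rw [h1]
    have s3 := sum_le_sh hD0 hB1 Q 0 I
    have e0 : (2 : ℝ) ^ (((0 : ℕ) : ℝ) / 4) = 1 := by simp
    rw [e0, one_mul] at s3
    exact s3
  · intro r
    set P := up (r + 7) Q with hP
    rw [ht_frame_tw h, abs_div, abs_of_pos hl, div_le_iff₀ hl]
    have h1 := ht_two (hν.unit P) (c P) (xC s0 (up r Q)) (xC s0 P)
    have h2 := hν.loc P
    have h3 := xC_up h 7 (up r Q)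
    rw [up_up, up_fst, ← hP, norm_sub_rev] at h3
    have h4 : lev s0 P.1 = 2 ^ 7 * (2 ^ r * lev s0 Q.1) := by
      rw [hP, up_fst, lev_add, pow_add]
      ring
    have h5 : lev s0 (Q.1 + r + 7) = 2 ^ 7 * (2 ^ r * lev s0 Q.1) := by
      rw [lev_add, lev_add]
    rw [h4] at h2
    rw [h5] at h3
    have h6 : 0 < 2 ^ r * lev s0 Q.1 := by positivity
    have h7 : (R0 + 1 + Real.sqrt d) * 2 ^ 7 * (2 ^ r * lev s0 Q.1) ≤
        4 * (64 * R0) * (2 ^ r * lev s0 Q.1) := by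
      apply mul_le_mul_of_nonneg_right _ h6.le
      norm_num
      linarith
    linarith only [h1, h2, h3, h7]

end

end FR4

end TG


end

section

/-!
# MODULE FR4: the A/B interface in the frame of a cell  (helper89)
-/

open MeasureTheory Metric Set TrI
open scoped InnerProductSpace ContDiff ENNReal

namespace TG

namespace FR4

open FR

noncomputable section

variable {d : ℕ}

/-! ## Monotonicity -/

lemma sheet_mono {J J' : ℕ} {R ab ep D D' : ℝ} {m : Sp d → ℝ} {n : Sp d} {s : ℝ}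
    (h : Sheet J R ab ep D m n s) (hJ : J ≤ J') (hD : D ≤ D') : Sheet J' R ab ep D' m n s where
  n1 := h.n1
  ab0 := h.ab0
  ep0 := h.ep0
  loc := h.loc
  est := by
    intro ζ ρ N N2 hζ hρ hρR hs hT hN2
    have hT' : TB J n s N ζ := fun j hj => hT j (hj.trans hJ)
    have hN : 0 ≤ N := by
      have h1 := (hT 0 (Nat.zero_le _) Fin.elim0 (fun i => i.elim0) (fun i => i.elim0) (s • n)
        (by rw [inner_smul_right, real_inner_self_eq_norm_sq, h.n1]; ring)).1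
      exact (abs_nonneg _).trans h1
    have hN2' : 0 ≤ N2 := (norm_nonneg _).trans (hN2 0)
    have h1 := h.est ζ ρ N N2 (hζ.of_le (by exact_mod_cast (by omega : J + 2 ≤ J' + 2)))
      hρ hρR hs hT' hN2
    have h2 : (N + N2) * D ≤ (N + N2) * D' := mul_le_mul_of_nonneg_left hD (by linarith)
    linarith

lemma ZP_mono {R R' D D' : ℝ} {m : Sp d → ℝ} (h : ZP R D m) (hR : R' ≤ R) (hD : D ≤ D') :
    ZP R' D' m := by
  intro H h1 h2 h3 h4 h5
  have := h H h1 h2 h3 h4 (fun y hy => h5 y (hR.trans hy))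
  linarith

lemma MG_mono {K γ R R' a D D' : ℝ} {m : Sp d → ℝ} (h : MG K γ R a D m) (hR : R' ≤ R)
    (hD : D ≤ D') : MG K γ R' a D' m := by
  intro ρ h1 h2 ζ h3 h4 h5 h6
  have := h ρ h1 (h2.trans hR) ζ h3 h4 h5 h6
  linarith

/-- near positivity in a larger frame -/
lemma ZP_scale (hd : 1 ≤ d) {R R' D : ℝ} {m : Sp d → ℝ} (h : ZP R D m) (hD : 0 ≤ D) (x : Sp d)
    (l : ℕ) (hx : ‖x‖ + 2 ^ l * R' ≤ R) : ZP R' D (fun y => 2 ^ l * m (x + (2 : ℝ) ^ l • y)) := by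
  intro H h1 h2 h3 h4 h5
  set t : ℝ := (2 : ℝ) ^ l with ht
  have ht1 : 1 ≤ t := one_le_pow₀ (by norm_num)
  have ht0 : 0 < t := by linarith
  have hti : t⁻¹ ≠ 0 := by positivity
  set G : Sp d → ℝ := fun z => H (-(t⁻¹ • x) + t⁻¹ • z) with hG
  have e1 : ∀ y, G (x + t • y) = H y := by
    intro y
    simp only [hG]
    congr 1
    rw [smul_add, smul_smul, inv_mul_cancel₀ ht0.ne', one_smul]
    abel
  have e2 : ∫ y, t * m (x + t • y) * H y = t * (1 / t ^ d * ∫ z, m z * G z) := by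
    rw [← SD.int_scale x ht0 (fun z => m z * G z), ← integral_const_mul]
    congr 1
    funext y
    rw [e1]
    ring
  have e3 : -D ≤ ∫ z, m z * G z := by
    refine h G ?_ (fun y => h2 _) (fun y => h3 _) (fun y => ?_) (fun y hy => ?_)
    · exact h1.comp (by fun_prop)
    · rw [hG, TU.itF_aff_norm 2 H (-(t⁻¹ • x)) t⁻¹ hti y]
      have h6 : |t⁻¹| ^ 2 ≤ 1 := by
        rw [abs_of_pos (by positivity)]
        exact pow_le_one₀ (by positivity) (inv_le_one_of_one_le₀ ht1)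
      exact mul_le_one₀ h6 (norm_nonneg _) (h4 _)
    · refine h5 _ ?_
      have h6 : -(t⁻¹ • x) + t⁻¹ • y = t⁻¹ • (y - x) := by
        rw [smul_sub]
        abel
      rw [h6, norm_smul, Real.norm_of_nonneg (by positivity), le_inv_mul_iff₀ ht0]
      have := norm_sub_norm_le y x
      linarith
  rw [e2, ← mul_assoc]
  have e4 : t * (1 / t ^ d) ≤ 1 := by
    rw [mul_one_div, div_le_one (by positivity)]
    exact le_self_pow₀ ht1 (by omega)
  have e5 : 0 ≤ t * (1 / t ^ d) := by positivity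
  nlinarith

/-- off-sheet masses of two radii -/
lemma blc_le {r R : ℝ} (hr : 0 < r) (hrR : r ≤ R) : ∃ K : ℝ, 0 < K ∧
    ∀ (m : Sp d → ℝ) (n : Sp d) (s D : ℝ),
    Continuous m → ‖n‖ = 1 → |s| ≤ 3 / 2 * R → ZP (R + 1) D m →
      blc n s m r ≤ blc n s m R + K * D := by
  have hR : 0 < R := by linarith
  have hφs : ContDiff ℝ ∞ (fun y : Sp d => zR R y - zR r y) :=
    (TU.zR_smooth hR).sub (TU.zR_smooth hr)
  have hφc : HasCompactSupport (fun y : Sp d => zR R y - zR r y) :=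
    (TU.zR_cs R).sub (TU.zR_cs r)
  obtain ⟨N, hN, hφ⟩ := TU.TFn_of_cs (J := 2) (contDiff_infty.1 hφs 2) hφc
  refine ⟨4 ^ 2 * N * max 1 (R + 1 + 3 / 2 * R) ^ 2, by positivity, ?_⟩
  intro m n s D hm hn hs hZ
  have h1 : ∀ y : Sp d, R + 1 < ‖y‖ → zR R y - zR r y = 0 := fun y hy => by
    rw [TU.zR_zero hy.le, TU.zR_zero (by linarith), sub_zero]
  have h2 := TU.TFn_ht_sq hφ h1 hn hs
  have h3 := GSAux.ZP' hZ h2 (fun y => by
    refine mul_nonneg ?_ (sq_nonneg _)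
    have : zR r y ≤ zR R y := Real.smoothTransition.monotone (by linarith)
    linarith) (fun y hy => by
      rw [TU.zR_zero hy, TU.zR_zero (by linarith), sub_zero, zero_mul])
  have hi : ∀ r : ℝ, 0 < r → Integrable (fun y => m y * (zR r y * hgt n s y ^ 2)) := by
    intro r hr
    have hc : Continuous (fun y => m y * (zR r y * hgt n s y ^ 2)) := by
      have := (TU.zR_smooth (d := d) hr).continuous
      unfold hgt
      fun_prop
    refine hc.integrable_of_hasCompactSupport ?_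
    exact ((TU.zR_cs r).mul_right).mul_left
  have h4 : ∫ y, m y * ((zR R y - zR r y) * ht n s y ^ 2) =
      blc n s m R - blc n s m r := by
    unfold blc
    rw [← integral_sub (hi R hR) (hi r hr)]
    congr 1
    ext y
    simp only [ht, hgt]
    ring
  rw [h4] at h3
  linarith only [h3]

/-! ## Matrix test functions -/

lemma TFn_fsum {ι : Type*} (S : Finset ι) {J : ℕ} {N : ℝ} {f : ι → Sp d → ℝ}
    (h : ∀ i ∈ S, TFn J N (f i)) : TFn J (S.card * N) (fun y => ∑ i ∈ S, f i y) := by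
  classical
  induction S using Finset.induction_on with
  | empty =>
    simp only [Finset.sum_empty, Finset.card_empty, Nat.cast_zero, zero_mul]
    refine ⟨contDiff_const, fun j _ x => ?_⟩
    have : iteratedFDeriv ℝ j (fun _ : Sp d => (0 : ℝ)) x = 0 := by
      rw [show (fun _ : Sp d => (0 : ℝ)) = 0 from rfl]
      simp
    rw [this, norm_zero]
  | insert i S hi ih =>
    have h1 := TU.TFn_add (h i (Finset.mem_insert_self i S))
      (ih fun j hj => h j (Finset.mem_insert_of_mem hj))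
    refine TU.TFn_mono (ζ := fun y => ∑ i ∈ insert i S, f i y) ?_ le_rfl (le_of_eq ?_)
      (N := N + S.card * N) (J := J)
    · simpa only [Finset.sum_insert hi] using h1
    · rw [Finset.card_insert_of_notMem hi]
      push_cast
      ring

/-- the scalar test function of two directions -/
def zt (n n' : Sp d) (Y : Fin d → Fin d → Sp d → ℝ) (y : Sp d) : ℝ :=
  ∑ i, ∑ j, (n i * n j - n' i * n' j) * Y i j y

lemma coef_bd {n n' : Sp d} (hn : ‖n‖ = 1) (hn' : ‖n'‖ = 1) (i j : Fin d) :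
    |n i * n j - n' i * n' j| ≤ 2 * ‖n - n'‖ := by
  have h1 : ∀ (v : Sp d) (i : Fin d), |v i| ≤ ‖v‖ := fun v i => PiLp.norm_apply_le v i
  have h2 : n i * n j - n' i * n' j = n i * (n - n') j + (n - n') i * n' j := by
    rw [PiLp.sub_apply, PiLp.sub_apply]
    ring
  rw [h2]
  refine (abs_add_le _ _).trans ?_
  rw [abs_mul, abs_mul]
  have a1 := h1 n i
  have a2 := h1 n' j
  have a3 := h1 (n - n') i
  have a4 := h1 (n - n') j
  rw [hn] at a1
  rw [hn'] at a2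
  have a5 := abs_nonneg ((n - n') i)
  have a6 := abs_nonneg ((n - n') j)
  have a7 := abs_nonneg (n i)
  have a8 := abs_nonneg (n' j)
  nlinarith only [a3, a4, a1, a6, a2, a5]

lemma zt_TFn {n n' : Sp d} (hn : ‖n‖ = 1) (hn' : ‖n'‖ = 1) {J : ℕ} {N : ℝ}
    {Y : Fin d → Fin d → Sp d → ℝ} (hN : 0 ≤ N) (hY : ∀ i j, TFn J N (Y i j)) :
    TFn J ((d : ℝ) * (d * (2 * ‖n - n'‖ * N))) (zt n n' Y) := by
  have h1 : ∀ i : Fin d, TFn J ((d : ℝ) * (2 * ‖n - n'‖ * N))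
      (fun y => ∑ j, (n i * n j - n' i * n' j) * Y i j y) := by
    intro i
    have h2 := TFn_fsum (Finset.univ : Finset (Fin d))
      (f := fun j y => (n i * n j - n' i * n' j) * Y i j y) (J := J)
      (N := 2 * ‖n - n'‖ * N) (fun j _ => by
        refine TU.TFn_mono (TU.TFn_const_mul (hY i j) _) le_rfl ?_
        exact mul_le_mul_of_nonneg_right (coef_bd hn hn' i j) hN)
    simpa using h2
  have h3 := TFn_fsum (Finset.univ : Finset (Fin d))
    (f := fun i y => ∑ j, (n i * n j - n' i * n' j) * Y i j y) (fun i _ => h1 i)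
  have h4 : zt n n' Y = fun y => ∑ i, ∑ j, (n i * n j - n' i * n' j) * Y i j y := rfl
  rw [h4]
  simpa using h3

lemma zt_supp {n n' : Sp d} {Y : Fin d → Fin d → Sp d → ℝ}
    (hY : ∀ i j y, (d : ℝ) ≤ ‖y‖ → Y i j y = 0) {y : Sp d} (hy : (d : ℝ) ≤ ‖y‖) :
    zt n n' Y y = 0 := by
  unfold zt
  exact Finset.sum_eq_zero fun i _ => Finset.sum_eq_zero fun j _ => by rw [hY i j y hy, mul_zero]

/-- a sheet whose plane misses the ball -/
lemma far_sheet {J : ℕ} {R ab ep D : ℝ} {m : Sp d → ℝ} {n : Sp d} {s : ℝ}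
    (h : Sheet J R ab ep D m n s) {ρ N : ℝ} (hρ : 0 ≤ ρ) (hρR : ρ ≤ R) (hs : ρ < |s|)
    {ζ : Sp d → ℝ} (hζ : TFn (J + 6) N ζ) (hz : ∀ y, ρ ≤ ‖y‖ → ζ y = 0) :
    |∫ y, m y * ζ y| ≤ N * blc n s m (ρ + 1) + N * D := by
  have hfar : ∀ y : Sp d, ⟪n, y⟫_ℝ = s → ρ < ‖y‖ := by
    intro y hy
    have h1 := abs_real_inner_le_norm n y
    rw [hy, h.n1, one_mul] at h1
    linarith
  have hev : ∀ y : Sp d, ρ < ‖y‖ → ζ =ᶠ[nhds y] fun _ => (0 : ℝ) := by
    intro y hy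
    have : {z : Sp d | ρ < ‖z‖} ∈ nhds y := (isOpen_lt continuous_const continuous_norm).mem_nhds hy
    filter_upwards [this] with z hz'
    exact hz z hz'.le
  have hT : TB J n s 0 ζ := by
    intro j hj v hv hv1 y hy
    have h1 := hev y (hfar y hy)
    have z0 : ∀ j, iteratedFDeriv ℝ j (fun _ : Sp d => (0 : ℝ)) y = 0 := fun j => by
      rw [show (fun _ : Sp d => (0 : ℝ)) = 0 from rfl]
      simp
    have h2 : iteratedFDeriv ℝ j ζ y = 0 := by
      rw [(h1.iteratedFDeriv ℝ j).eq_of_nhds, z0]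
    have h3 : (fun x => fderiv ℝ ζ x n) =ᶠ[nhds y] fun _ => (0 : ℝ) := by
      filter_upwards [h1.fderiv (𝕜 := ℝ)] with z hz'
      rw [hz']
      simp
    have h4 : iteratedFDeriv ℝ j (fun x => fderiv ℝ ζ x n) y = 0 := by
      rw [(h3.iteratedFDeriv ℝ j).eq_of_nhds, z0]
    rw [h2, h4]
    simp
  have h5 : plInt n s ζ = 0 := by
    unfold plInt
    have : ∀ y : (Submodule.span ℝ {n})ᗮ, ζ (s • n + (y : Sp d)) = 0 := by
      intro y
      apply hz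
      refine (hfar _ ?_).le
      have h6 := Submodule.mem_orthogonal_singleton_iff_inner_right.1 y.2
      rw [inner_add_right, inner_smul_right, real_inner_self_eq_norm_sq, h.n1, h6]
      ring
    simp [this]
  have h6 := h.est ζ ρ 0 N (hζ.smooth.of_le (by exact_mod_cast (by omega : J + 2 ≤ J + 6)))
    hρ hρR hz hT (fun y => hζ.bd 2 (by omega) y)
  rw [h5, mul_zero, sub_zero, mul_zero, zero_add, zero_add] at h6
  exact h6

/-- replacing the direction of one sheet by that of another sheet of the same density -/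
theorem two_sheets (hGS : StmtGS) (J : ℕ) (hd : 2 ≤ d) {R K : ℝ} (hR : 400 + 8 * d ≤ R)
    (hK : 1 ≤ K) : ∃ C : ℝ, 0 < C ∧
    ∀ (m : Sp d → ℝ) (n n' : Sp d) (s s' ab ab' ep ep' D : ℝ), Continuous m → 0 ≤ D →
      Sheet J R ab ep D m n s → Sheet J R ab' ep' D m n' s' → ZP (R + 1) D m →
      (∀ (ζ : Sp d → ℝ) (N : ℝ), TFn 2 N ζ → (∀ y, (d : ℝ) ≤ ‖y‖ → ζ y = 0) →
        |∫ y, m y * ζ y| ≤ K * N * (ab + D)) →
    ∀ (Y : Fin d → Fin d → Sp d → ℝ) (N : ℝ), (∀ i j, TFn (J + 6) N (Y i j)) →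
      (∀ i j y, (d : ℝ) ≤ ‖y‖ → Y i j y = 0) →
      |∫ y, m y * zt n n' Y y| ≤
        C * N * (ep + ep' + max 0 (blc n s m R) + max 0 (blc n' s' m R) + D) := by
  have hdR : (2 : ℝ) ≤ d := by exact_mod_cast hd
  obtain ⟨c0, CG, hc0, hCG, gGS⟩ := hGS d J hd R 0 (by linarith)
  obtain ⟨K1, hK1, hb1⟩ := blc_le (d := d) (r := (d : ℝ) + 1) (R := R) (by linarith) (by linarith)
  obtain ⟨K2, hK2, hb2⟩ := GSAux.blc_mono (d := d) R (by linarith)
  obtain ⟨CP, hCP, gP⟩ := (stmtPF d (by omega)).1 (d : ℝ)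
  refine ⟨4 * d ^ 2 * (K1 + 1) + 4 * d ^ 2 * (K2 + 2) + 2 * d ^ 2 * CP * CG +
    4 * d ^ 2 * K * (1 / c0 + 1), by positivity, ?_⟩
  intro m n n' s s' ab ab' ep ep' D hm hD hS hS' hZ hmass Y N hY hYs
  have hN : 0 ≤ N := TU.TFn_nonneg (hY ⟨0, by omega⟩ ⟨0, by omega⟩)
  set Er := ep + ep' + max 0 (blc n s m R) + max 0 (blc n' s' m R) + D with hEr
  have m1 : 0 ≤ max 0 (blc n s m R) := le_max_left _ _
  have m2 : 0 ≤ max 0 (blc n' s' m R) := le_max_left _ _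
  have m3 : blc n s m R ≤ max 0 (blc n s m R) := le_max_right _ _
  have hep := hS.ep0
  have hep' := hS'.ep0
  have hEr0 : 0 ≤ Er := by linarith
  have hnn : ∀ v : Sp d, ‖v‖ = 1 → ‖n - v‖ ≤ 2 := by
    intro v hv
    have := norm_sub_le n v
    rw [hS.n1, hv] at this
    linarith
  have hNE : 0 ≤ N * Er := by (clear * - hN hep hep' hD; positivity)
  have hztn : TFn (J + 6) (4 * d ^ 2 * N) (zt n n' Y) := by
    refine TU.TFn_mono (zt_TFn hS.n1 hS'.n1 hN hY) le_rfl ?_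
    have h1 := hnn n' hS'.n1
    have h2 : (d : ℝ) * (d * (2 * ‖n - n'‖ * N)) ≤ d * (d * (2 * 2 * N)) := by gcongr
    refine h2.trans (le_of_eq ?_)
    ring
  -- all parts of the constant are nonnegative
  have p1 : 0 ≤ 4 * (d : ℝ) ^ 2 * (K1 + 1) * (N * Er) := by (clear * - hd hK1 hN hep hep' hD; positivity)
  have p2 : 0 ≤ 4 * (d : ℝ) ^ 2 * (K2 + 2) * (N * Er) := by (clear * - hd hK2 hN hep hep' hD; positivity)
  have p3 : 0 ≤ 2 * (d : ℝ) ^ 2 * CP * CG * (N * Er) := by (clear * - hd hCP hCG hN hep hep' hD; positivity)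
  have p4 : 0 ≤ 4 * (d : ℝ) ^ 2 * K * (1 / c0 + 1) * (N * Er) := by (clear * - hd hK hc0 hN hep hep' hD; positivity)
  have hsplit : (4 * (d : ℝ) ^ 2 * (K1 + 1) + 4 * d ^ 2 * (K2 + 2) + 2 * d ^ 2 * CP * CG +
      4 * d ^ 2 * K * (1 / c0 + 1)) * N * Er = 4 * (d : ℝ) ^ 2 * (K1 + 1) * (N * Er) +
      4 * (d : ℝ) ^ 2 * (K2 + 2) * (N * Er) + 2 * (d : ℝ) ^ 2 * CP * CG * (N * Er) +
      4 * (d : ℝ) ^ 2 * K * (1 / c0 + 1) * (N * Er) := by ring
  rw [hsplit]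
  rcases le_or_gt |s| (R - 3) with hs | hs
  · rcases le_or_gt Er (c0 * ab) with hE | hE
    · -- the planes are close
      have hid : (fun y : Sp d => (2 : ℝ) ^ 0 * m (0 + (2 : ℝ) ^ 0 • y)) = m := by
        funext y
        simp
      have h1 := gGS m m n n' s s' ab ab' ep ep' D Er 0 (s • n) hm hm hD hS
        (by rw [hid]; exact hS') hZ (by rw [hid]; exact hZ)
        (fun Y _ _ _ _ => by simpa using hD)
        (by rw [norm_smul, hS.n1, mul_one]; exact hs)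
        (by
          unfold hgt
          rw [inner_smul_right, real_inner_self_eq_norm_sq, hS.n1]
          norm_num)
        (by rw [sub_zero, norm_smul, hS.n1, mul_one, pow_zero, mul_one]; exact hs)
        (by rw [hid]) hE
      obtain ⟨-, σ, hσ, h2⟩ := h1
      have hσn : ‖σ • n'‖ = 1 := by
        rcases hσ with rfl | rfl <;> simp [hS'.n1]
      have hzz : zt n n' Y = zt n (σ • n') Y := by
        funext y
        unfold zt
        refine Finset.sum_congr rfl fun i _ => Finset.sum_congr rfl fun j _ => ?_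
        rw [PiLp.smul_apply, PiLp.smul_apply, smul_eq_mul, smul_eq_mul]
        rcases hσ with rfl | rfl <;> ring
      rw [hzz]
      set δ := ‖n - σ • n'‖ with hδ
      have hδ0 : 0 ≤ δ := norm_nonneg _
      have hδ2 : δ ≤ 2 := hnn _ hσn
      have habδ : ab * δ ≤ CG * Er := by
        refine le_trans ?_ h2
        refine mul_le_mul_of_nonneg_left ?_ hS.ab0.le
        linarith only [abs_nonneg (s - σ * (⟪n', (0 : Sp d)⟫_ℝ + 2 ^ 0 * s'))]
      have hzT : TFn (J + 6) (2 * d ^ 2 * (δ * N)) (zt n (σ • n') Y) := by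
        refine TU.TFn_mono (zt_TFn hS.n1 hσn hN hY) le_rfl (le_of_eq ?_)
        ring
      have h3 := GSAux.est1 (by linarith only [hR] : 8 ≤ R) hD hK2 hS (hb2 m n s D hm hS.n1 hS.loc hZ)
        (TU.TFn_mono hzT (by omega : J + 2 ≤ J + 6) le_rfl)
        (fun y hy => zt_supp hYs (by linarith only [hR, hy])) (Er := Er) (by linarith)
      have h4 := gP n hS.n1 (zt n (σ • n') Y) (2 * d ^ 2 * (δ * N)) hzT.smooth.continuous
        (fun y => TU.TFn_norm hzT y) (fun y hy => by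
          refine (PF.norm_tang_le hS.n1 y).trans ?_
          by_contra hcon
          exact hy (zt_supp hYs (le_of_lt (not_le.1 hcon)))) s
      have h5 : |ab * plInt n s (zt n (σ • n') Y)| ≤ 2 * d ^ 2 * CP * CG * (N * Er) := by
        rw [abs_mul, abs_of_pos hS.ab0]
        calc ab * |plInt n s (zt n (σ • n') Y)| ≤ ab * (CP * (2 * d ^ 2 * (δ * N))) :=
              mul_le_mul_of_nonneg_left h4 hS.ab0.le
          _ = 2 * d ^ 2 * CP * N * (ab * δ) := by ring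
          _ ≤ 2 * d ^ 2 * CP * N * (CG * Er) := by (clear * - habδ hd hCP hN; gcongr)
          _ = _ := by ring
      have h6 : 2 * (d : ℝ) ^ 2 * (δ * N) * ((K2 + 2) * Er) ≤
          4 * (d : ℝ) ^ 2 * (K2 + 2) * (N * Er) := by
        calc 2 * (d : ℝ) ^ 2 * (δ * N) * ((K2 + 2) * Er) ≤
              2 * (d : ℝ) ^ 2 * (2 * N) * ((K2 + 2) * Er) := by gcongr
          _ = _ := by ring
      have h7 : |∫ y, m y * zt n (σ • n') Y y| ≤
          |(∫ y, m y * zt n (σ • n') Y y) - ab * plInt n s (zt n (σ • n') Y)| +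
            |ab * plInt n s (zt n (σ • n') Y)| := by
        have := abs_add_le ((∫ y, m y * zt n (σ • n') Y y) - ab * plInt n s (zt n (σ • n') Y))
          (ab * plInt n s (zt n (σ • n') Y))
        rwa [sub_add_cancel] at this
      linarith only [p1, p4, h3, h5, h6, h7]
    · -- trivial bound
      have h1 := hmass (zt n n' Y) (4 * d ^ 2 * N) (TU.TFn_mono hztn (by omega) le_rfl)
        (fun y hy => zt_supp hYs hy)
      have h2 : ab ≤ 1 / c0 * Er := by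
        rw [one_div, le_inv_mul_iff₀ hc0]
        exact hE.le
      have h3 : D ≤ Er := by linarith only [m1, m2, hep, hep']
      have h4 : K * (4 * (d : ℝ) ^ 2 * N) * (ab + D) ≤
          4 * (d : ℝ) ^ 2 * K * (1 / c0 + 1) * (N * Er) := by
        calc K * (4 * (d : ℝ) ^ 2 * N) * (ab + D) ≤
              K * (4 * (d : ℝ) ^ 2 * N) * (1 / c0 * Er + Er) := by gcongr
          _ = _ := by ring
      linarith only [p1, p2, p3, h1, h4]
  · -- the plane is far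
    have h1 := far_sheet hS (ρ := d) (by positivity) (by linarith) (by linarith only [hR, hs]) hztn
      (fun y hy => zt_supp hYs hy)
    have h2 := hb1 m n s D hm hS.n1 hS.loc hZ
    have h3 : 4 * (d : ℝ) ^ 2 * N * blc n s m (d + 1) + 4 * d ^ 2 * N * D ≤
        4 * (d : ℝ) ^ 2 * (K1 + 1) * (N * Er) := by
      have h4 : blc n s m (d + 1) + D ≤ (K1 + 1) * Er := by
        have : D ≤ Er := by linarith only [m1, m2, hep, hep']
        have h5 : K1 * D ≤ K1 * Er := by gcongr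
        linarith only [m2, m3, hep, hep', h2, h5]
      calc 4 * (d : ℝ) ^ 2 * N * blc n s m (d + 1) + 4 * d ^ 2 * N * D =
            4 * (d : ℝ) ^ 2 * N * (blc n s m (d + 1) + D) := by ring
        _ ≤ 4 * (d : ℝ) ^ 2 * N * ((K1 + 1) * Er) := by gcongr
        _ = _ := by ring
    linarith only [p2, p3, p4, h1, h3]

/-! ## The sum over the levels -/

/-- the mass functional is monotone in the radius -/
lemma mC_mono {E : Type} [NormedAddCommGroup E] [InnerProductSpace ℝ E] [FiniteDimensional ℝ E]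
    {J : ℕ} {M c0 : ℝ} {b : Sp d → ℝ} (hb : BaseKer J M c0 b) (ε : ℝ) {f : Sp d → E}
    (hf : Continuous f) (hc : HasCompactSupport f) {s0 : ℝ} (h : 0 < s0) {r R : ℝ} (hr : r ≤ R)
    (Q : Cell d) : mC b ε r s0 f Q ≤ mC b ε R s0 f Q := by
  have hl := lev_pos h Q.1
  unfold mC ma
  refine mul_le_mul_of_nonneg_left ?_ (by positivity)
  have h1 := TW.fl_ok hb ε s0 hf hc (Q.1 - 1)
  exact setIntegral_mono_set (h1.1.norm.integrable_of_hasCompactSupport h1.2.norm).integrableOn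
    (Filter.Eventually.of_forall fun y => norm_nonneg _)
    (Filter.Eventually.of_forall (ball_subset_ball (mul_le_mul_of_nonneg_right hr hl.le)))

lemma level_sum {I : ℕ} {a η d0 CM C1 KD : ℝ} {ab dn ep bl : ℕ → ℝ} (hη : 0 ≤ η)
    (hd0 : 0 ≤ d0) (hCM : 0 ≤ CM) (hC1 : 0 ≤ C1) (hKD : 0 ≤ KD) (hdn : ∀ l, 0 ≤ dn l)
    (h1 : ∀ l ≤ I, ab l ≤ CM * (2 : ℝ) ^ ((1 / 8 : ℝ) * l) * a)
    (h2 : ∀ l ≤ I, a * dn l ≤ CM * (2 : ℝ) ^ ((3 / 4 : ℝ) * l) * η + C1 * d0)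
    (h3 : ∀ l ≤ I, ep l ≤ CM * (2 : ℝ) ^ ((3 / 4 : ℝ) * l) * η)
    (h4 : ∀ l ≤ I, bl l ≤ CM * (2 : ℝ) ^ ((3 / 4 : ℝ) * l) * η + KD) :
    ∑ l ∈ Finset.range (I + 1), (1 / 2 : ℝ) ^ l * (ab l * dn l + ep l + bl l) ≤
      (CM ^ 2 + 2 * CM) * (1 - (2 : ℝ) ^ (-(1 / 8 : ℝ)))⁻¹ * η +
        (I + 1) * (CM * C1 * d0 + KD) := by
  set θ : ℝ := (2 : ℝ) ^ (-(1 / 8 : ℝ)) with hθ
  have hθ0 : 0 < θ := by positivity
  have hθ1 : θ < 1 := Real.rpow_lt_one_of_one_lt_of_neg (by norm_num) (by norm_num)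
  have key : ∀ l ∈ Finset.range (I + 1), (1 / 2 : ℝ) ^ l * (ab l * dn l + ep l + bl l) ≤
      (CM ^ 2 + 2 * CM) * η * θ ^ l + (CM * C1 * d0 + KD) := by
    intro l hl
    have hl' : l ≤ I := by
      rw [Finset.mem_range] at hl
      omega
    set p : ℝ := (2 : ℝ) ^ ((1 / 8 : ℝ) * l) with hp
    have hp0 : 0 < p := by positivity
    have hp1 : 1 ≤ p := Real.one_le_rpow (by norm_num) (by positivity)
    have e6 : (2 : ℝ) ^ ((3 / 4 : ℝ) * l) = p ^ 6 := by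
      rw [hp, ← Real.rpow_natCast, ← Real.rpow_mul (by norm_num)]
      congr 1
      push_cast
      ring
    have e8 : (1 / 2 : ℝ) ^ l = (p ^ 8)⁻¹ := by
      rw [hp, ← Real.rpow_natCast _ 8, ← Real.rpow_mul (by norm_num), one_div, inv_pow,
        ← Real.rpow_natCast 2 l]
      congr 2
      push_cast
      ring
    have eθ : θ ^ l = p⁻¹ := by
      rw [hθ, ← Real.rpow_natCast, ← Real.rpow_mul (by norm_num), hp, ← Real.rpow_neg (by norm_num)]
      congr 1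
      ring
    have a1 := h1 l hl'
    have a2 := h2 l hl'
    have a3 := h3 l hl'
    have a4 := h4 l hl'
    rw [e6] at a2 a3 a4
    have b1 : ab l * dn l ≤ CM * p * (CM * p ^ 6 * η + C1 * d0) := by
      calc ab l * dn l ≤ CM * p * a * dn l := mul_le_mul_of_nonneg_right a1 (hdn l)
        _ = CM * p * (a * dn l) := by ring
        _ ≤ _ := mul_le_mul_of_nonneg_left a2 (by positivity)
    have b2 : ab l * dn l + ep l + bl l ≤ CM * p * (CM * p ^ 6 * η + C1 * d0) +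
        CM * p ^ 6 * η + (CM * p ^ 6 * η + KD) := by linarith only [a3, a4, b1]
    rw [e8, eθ]
    refine (mul_le_mul_of_nonneg_left b2 (by positivity)).trans ?_
    rw [inv_mul_le_iff₀ (by positivity)]
    have q1 : p ≤ p ^ 8 := le_self_pow₀ hp1 (by norm_num)
    have q6 : p ^ 6 ≤ p ^ 7 := pow_le_pow_right₀ hp1 (by norm_num)
    have q0 : 1 ≤ p ^ 8 := one_le_pow₀ hp1
    have r1 : p ^ 8 * ((CM ^ 2 + 2 * CM) * η * p⁻¹ + (CM * C1 * d0 + KD)) =
        (CM ^ 2 + 2 * CM) * η * p ^ 7 + p ^ 8 * (CM * C1 * d0) + p ^ 8 * KD := by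
      field_simp
      ring
    rw [r1]
    have t1 : CM * C1 * d0 * p ≤ CM * C1 * d0 * p ^ 8 :=
      mul_le_mul_of_nonneg_left q1 (by (clear * - hCM hC1 hd0; positivity))
    have t2 : 2 * CM * η * p ^ 6 ≤ 2 * CM * η * p ^ 7 :=
      mul_le_mul_of_nonneg_left q6 (by (clear * - hCM hη; positivity))
    have t3 : KD * 1 ≤ KD * p ^ 8 := mul_le_mul_of_nonneg_left q0 hKD
    linarith only [t1, t2, t3]
  refine (Finset.sum_le_sum key).trans ?_
  rw [Finset.sum_add_distrib, ← Finset.mul_sum, Finset.sum_const, Finset.card_range,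
    nsmul_eq_mul]
  have h5 : ∑ l ∈ Finset.range (I + 1), θ ^ l ≤ (1 - θ)⁻¹ := by
    rw [← tsum_geometric_of_lt_one hθ0.le hθ1]
    exact (summable_geometric_of_lt_one hθ0.le hθ1).sum_le_tsum _ (fun _ _ => by positivity)
  have h6 := mul_le_mul_of_nonneg_left h5 (by positivity : 0 ≤ (CM ^ 2 + 2 * CM) * η)
  push_cast
  linarith only [h6]

lemma foc {V E : Type} [NormedAddCommGroup V] [InnerProductSpace ℝ V] [FiniteDimensional ℝ V]
    [NormedAddCommGroup E] [InnerProductSpace ℝ E] [FiniteDimensional ℝ E]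
    (L : (Sp d →L[ℝ] V) →L[ℝ] E) {u : Sp d → V} (hu : TF u) : Continuous (fo L u) :=
  L.continuous.comp (hu.smooth.continuous_fderiv (by simp))

lemma fos {V E : Type} [NormedAddCommGroup V] [InnerProductSpace ℝ V] [FiniteDimensional ℝ V]
    [NormedAddCommGroup E] [InnerProductSpace ℝ E] [FiniteDimensional ℝ E]
    (L : (Sp d →L[ℝ] V) →L[ℝ] E) {u : Sp d → V} (hu : TF u) : HasCompactSupport (fo L u) :=
  (hu.supp.fderiv (𝕜 := ℝ)).comp_left (g := L) (map_zero L)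

lemma assembly {A1 A2 A3 B1 B2 B3 N T X a ds W1 W2 W3 W4 : ℝ} (hA2 : 0 ≤ A2) (hA1 : 0 ≤ A1)
    (hA3 : 0 ≤ A3) (hN : 0 ≤ N) (hT : 0 ≤ T) (hX : 0 ≤ X * a)
    (h1 : W1 ≤ A1 * N * T + B1 * N * ds) (h2 : W2 ≤ A2 * N * X * a) (h3 : W3 ≤ B2 * N * ds)
    (h4 : W4 ≤ A3 * N * T + B3 * N * ds) :
    W1 + W2 + W3 + W4 ≤ (A1 + A2 + A3) * N * T + (A1 + A2 + A3) * N * X * a +
      (B1 + B2 + B3) * N * ds := by
  have p1 : 0 ≤ A2 * N * T := by positivity
  have p2 : 0 ≤ (A1 + A3) * N * (X * a) := by positivity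
  linarith only [h1, h2, h3, h4, p1, p2]

lemma int_add_le {F G : Sp d → ℝ} (hG : Integrable G) {A B : ℝ} (hA : |∫ y, F y| ≤ A)
    (hB : |∫ y, G y| ≤ B) : |∫ y, (F y + G y)| ≤ A + B := by
  by_cases hF : Integrable F
  · rw [integral_add hF hG]
    exact (abs_add_le _ _).trans (add_le_add hA hB)
  · have h1 : ¬ Integrable (fun y => F y + G y) := by
      intro h2
      apply hF
      have h3 := h2.sub hG
      have h4 : (fun y => F y + G y) - G = F := by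
        funext y
        simp
      rwa [h4] at h3
    rw [integral_undef h1, abs_zero]
    have := abs_nonneg (∫ y, F y)
    have := abs_nonneg (∫ y, G y)
    linarith

end

end FR4

open FR _root_.TG.FR4 in
theorem stmtFR4 (hML : StmtML) (hAB : StmtAB) (hGS : StmtGS) (h2 : StmtCT2) (h4 : StmtCT4)
    (h5 : StmtCT5) (h8 : StmtCT8) (hSC : StmtSC) (hSD : StmtSD) : StmtFR4 := by
  intro d V E _ _ _ _ _ _ _ L hd hL
  obtain ⟨J0, gML⟩ := hML d V E L hd hL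
  refine ⟨J0, ?_⟩
  intro J hJ M c0 ε hε hε1 b hb R0 γ K hR0 hγ hγ1 hK
  have hd1 : 1 ≤ d := by omega
  have hdR : (2 : ℝ) ≤ d := by exact_mod_cast hd
  have hsd : Real.sqrt d ≤ d := by
    rw [Real.sqrt_le_left (by linarith)]
    nlinarith
  have hb2 : BaseKer 2 M c0 b := hb.mono_order (by omega)
  have hγ8 : γ ≤ 1 / (8 * d) := hγ1.trans (one_div_le_one_div_of_le (by positivity)
    (by linarith only []))
  have hγ1' : γ ≤ 1 := hγ8.trans (by
    rw [div_le_one (by positivity)]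
    linarith)
  set K' : ℝ := (1 + 64 * R0) ^ (d + 2) * K with hK'
  have hK'1 : 1 ≤ K' := one_le_mul_of_one_le_of_one_le (one_le_pow₀ (by linarith)) hK
  obtain ⟨CM, κM, hCM, hκM, gML⟩ :=
    gML M c0 ε hε hε1 b hb2 (64 * R0) γ K' (by linarith) hγ hγ1 hK'1
  obtain ⟨CS, hCS, gS⟩ := sums h2 h4 h5 h8 hSC hSD hd hε hε1 hb2 hR0
  obtain ⟨C8, hC8, g8⟩ := h8 d hd1 M c0 ε hε hε1 b hb2
  obtain ⟨CA, hCA, gA⟩ := hAB d J hd M c0 (C8 * K) γ (64 * R0) b hb (by positivity) hγ hγ8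
    (by linarith)
  obtain ⟨C2, hC2, g2⟩ := two_sheets hGS J hd (R := 64 * R0) (K := max 1 (C8 * K)) (by linarith)
    (le_max_left _ _)
  obtain ⟨Kb, hKb, gb⟩ := blc_le (d := d) (r := 4 * d + 8) (R := 64 * R0) (by positivity)
    (by linarith)
  obtain ⟨C4, hC4, g4⟩ := h4 d hd1 0 le_rfl
  set S : ℝ := (1 - (2 : ℝ) ^ (-(1 / 8 : ℝ)))⁻¹ with hS
  have hS0 : 0 < S := inv_pos.2 (sub_pos.2
    (Real.rpow_lt_one_of_one_lt_of_neg (by norm_num) (by norm_num)))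
  refine ⟨CA * ((CM ^ 2 + 2 * CM) * S) * (CS + 1) + CA * (C8 * K) +
    C2 * (1 + 2 * CM * (CS + 1)), κM / CS, by (clear * - hCA hCM hS0 hCS hC8 hK hC2; positivity), by positivity, ?_⟩
  intro I RN hIR
  obtain ⟨C1M, hC1M, gML⟩ := gML I
  obtain ⟨C1A, hC1A, gA⟩ := gA I RN hIR
  obtain ⟨l, hl⟩ : ∃ l : ℕ, 2 * RN + d < 2 ^ l := pow_unbounded_of_one_lt _ (by norm_num)
  obtain ⟨C81, hC81, g8⟩ := g8 l
  set CD : ℝ := C1M + C8 + C81 * ((l + 2) * 2 ^ (l + 2)) with hCD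
  have hCD0 : 0 < CD := by (clear * - hC1M hC8 hC81; positivity)
  refine ⟨300 * R0 + 2 ^ (I + 2) * (64 * R0) + 2 ^ l + 2 * d + 100,
    CA * ((I + 1) * (CM * C1M + C1M + Kb * CD)) + C1A * CD + C2 * (C1M + CD), by (clear * - hCA hCM hC1M hKb hC8 hC81 hC1A hC2; positivity), ?_⟩
  intro R hR u hu s0 h e he ν c hν Q a ha haQ hgr hbs n s ab ep D hD haab haba hs hSh Y N hY hYs
  have hN : 0 ≤ N := TU.TFn_nonneg (hY ⟨0, by omega⟩ ⟨0, by omega⟩)
  set f := fo L u with hfdef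
  have hf : Continuous f := foc L hu
  have hc : HasCompactSupport f := fos L hu
  have hR0p : 0 < R0 := by linarith
  have hp1 : (0 : ℝ) < 2 ^ (I + 2) * (64 * R0) := by positivity
  have hp2 : (0 : ℝ) < 2 ^ l := by positivity
  have hIp : (2 : ℝ) ^ I * (64 * R0) ≤ 2 ^ (I + 2) * (64 * R0) :=
    mul_le_mul_of_nonneg_right (pow_le_pow_right₀ (by norm_num) (by omega)) (by positivity)
  have hI1 : 64 * R0 ≤ (2 : ℝ) ^ I * (64 * R0) :=
    le_mul_of_one_le_left (by positivity) (one_le_pow₀ (by norm_num))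
  have hR300 : 300 * R0 ≤ R := by linarith only [hR0, hR, hp2, hIp, hI1]
  have hu1 := he.unit
  -- the budgets
  obtain ⟨s1, s2, s3, hd0, hdb, s4⟩ := gS E R hR300 f hf hc s0 h e he ν c hν Q
  set bs := bsh b ε R0 R s0 f e ν c Q with hbsdef
  set ds := dsh b ε R s0 f e Q with hdsdef
  have hbs0 : 0 ≤ bs := hd0.trans hdb
  have hdC : dC b ε R s0 f e Q ≤ ds := by
    have := (s4 0).2
    rw [up_zero] at this
    simpa using this
  have hdC0 : 0 ≤ dC b ε R s0 f e Q := by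
    have := (s4 0).1
    rwa [up_zero] at this
  -- the density
  set m := mQ s0 f (e Q) Q with hm
  have hmc : Continuous m := mQ_cont hf s0 (e Q) Q
  obtain ⟨g81, g82, g83, g84⟩ := g8 E R (by linarith only [hR0, hR, hp2, hIp, hI1]) (by linarith) f hf hc s0 h e he
  have hZ : ZP (R - 2) (C8 * dC b ε R s0 f e Q) m := (g81 Q).2
  have hsumd : ∑ r ∈ Finset.range (l + 2), dC b ε R s0 f e (up r Q) ≤
      ((l + 2) * 2 ^ (l + 2)) * ds := by
    have h1 : ∀ r ∈ Finset.range (l + 2), dC b ε R s0 f e (up r Q) ≤ 2 ^ (l + 2) * ds := by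
      intro r hr
      rw [Finset.mem_range] at hr
      refine (s4 r).2.trans (mul_le_mul_of_nonneg_right ?_ hd0)
      rw [← Real.rpow_natCast]
      refine Real.rpow_le_rpow_of_exponent_le (by norm_num) ?_
      have : (r : ℝ) ≤ ((l + 2 : ℕ) : ℝ) := by exact_mod_cast hr.le
      have h0 : (0 : ℝ) ≤ r := Nat.cast_nonneg r
      linarith only [this]
    refine (Finset.sum_le_card_nsmul _ _ _ h1).trans (le_of_eq ?_)
    rw [Finset.card_range, nsmul_eq_mul]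
    push_cast
    ring
  have hMG : MG (C8 * K) γ (2 * RN + d) a (CD * ds) m := by
    have h1 := g83 Q K γ a (by linarith only [hK]) hγ.le hγ1' ha.le (fun i _ => hgr i)
    refine MG_mono h1 hl.le ?_
    have h3 := mul_le_mul_of_nonneg_left hsumd hC81.le
    have h4 : 0 ≤ C1M * ds := mul_nonneg hC1M.le hd0
    have h5 : 0 ≤ C8 * ds := mul_nonneg hC8.le hd0
    rw [hCD]
    linarith only [h3, h4, h5]
  have hC8CD : C8 * dC b ε R s0 f e Q ≤ CD * ds := by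
    have h3 : 0 ≤ C81 * ((l + 2) * 2 ^ (l + 2)) := by positivity
    have h4 : C8 ≤ CD := by linarith only [hC1M, h3]
    exact mul_le_mul h4 hdC hdC0 hCD0.le
  have hC1CD : C1M * ds ≤ CD * ds := by
    refine mul_le_mul_of_nonneg_right ?_ hd0
    have h3 : 0 ≤ C81 * ((l + 2) * 2 ^ (l + 2)) := by positivity
    linarith
  have hCDds : 0 ≤ CD * ds := mul_nonneg hCD0.le hd0
  have hZI : ZP (2 ^ I * (64 * R0) + 1 + 2 ^ I * (d + 1)) (CD * ds) m := by
    refine ZP_mono hZ ?_ hC8CD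
    have h3 : (2 : ℝ) ^ (I + 2) * (64 * R0) = 4 * (2 ^ I * (64 * R0)) := by
      rw [pow_add]
      ring
    have h4 : (2 : ℝ) ^ I * (d + 1) ≤ 2 ^ I * (64 * R0) :=
      mul_le_mul_of_nonneg_left (by linarith only [hR0]) (by positivity)
    linarith only [hR0, hR, hp2, hI1, h3, h4]
  -- ML in the frame of Q
  have hfo := fo_uQ hSC hd L hu h Q
  rw [← hfdef] at hfo
  have hma : ∀ r : ℕ, ma b ε (64 * R0) ((1 / 2) ^ Q.1) (rs (xC s0 Q) (lev s0 Q.1) f) (Q.1 + r)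
      (tw s0 Q (up r Q)) = mC b ε (64 * R0) s0 f (up r Q) := fun r =>
    ma_frame hSC hd hε hε1 hb2 hf hc h (64 * R0) r Q
  have hma0 : a = ma b ε (64 * R0) ((1 / 2) ^ Q.1) (fo L (uQ s0 u Q)) Q.1 0 := by
    have h1 := hma 0
    rw [tw_up_zero, add_zero, up_zero] at h1
    rw [hfo, h1]
    exact haQ
  obtain ⟨g41, -, -, -⟩ := g4 M c0 ε hε hε1 b hb2 E f hf hc s0 h
  have hBpos : 0 ≤ CS * bs := mul_nonneg hCS.le hbs0
  obtain ⟨nl, cl, abl, hnl, -, hlev⟩ := gML R (by linarith only [hR0, hR, hp2]) Q.1 (uQ s0 u Q)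
    (uQ_TF hSC hd L hu h Q) (fun r => tw s0 Q (up r Q)) (fun r => e (up r Q))
    (tower h e hu1 Q) a ha hma0 (fun r => by
      rw [hfo, hma r]
      refine (g41 (64 * R0) (by positivity) (up r Q)).trans ?_
      refine (mul_le_mul_of_nonneg_left (hgr r) (by positivity)).trans (le_of_eq ?_)
      rw [hK']
      ring)
    (fun r => ν (up (r + 7) Q)) (fun r => cfr s0 Q (ν (up (r + 7) Q)) (c (up (r + 7) Q)))
    (CS * bs) ds (fun r => hν.unit _) (fun r => s3 r) (by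
      have h1 := mul_le_mul_of_nonneg_left hbs hCS.le
      have h3 : CS * (κM / CS * a) = κM * a := by field_simp
      rw [h3] at h1
      refine le_trans (le_of_eq ?_) h1
      ring) (fun I => by rw [hfo]; exact s1 I) (fun I => by rw [hfo]; exact s2 I)
  simp only [hfo, up_zero] at hlev
  set η : ℝ := CS * bs + Real.sqrt (a * ds) with hη
  have hη0 : 0 ≤ η := add_nonneg hBpos (Real.sqrt_nonneg _)
  have hsq0 : 0 ≤ Real.sqrt (a * ds) := Real.sqrt_nonneg _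
  have hml : ∀ l : ℕ, (fun y => (2 : ℝ) ^ l * ⟪rs (xC s0 Q) (lev s0 Q.1) f
      (tw s0 Q (up l Q) + (2 : ℝ) ^ l • y), e Q⟫_ℝ) =
      fun y => (2 : ℝ) ^ l * m (tw s0 Q (up l Q) + (2 : ℝ) ^ l • y) := fun l => rfl
  simp only [hml] at hlev
  have hShl : ∀ l ≤ I, Sheet J (64 * R0) (abl l) (CM * (2 : ℝ) ^ ((3 / 4 : ℝ) * l) * η) (CD * ds)
      (fun y => (2 : ℝ) ^ l * m (tw s0 Q (up l Q) + (2 : ℝ) ^ l • y)) (nl l) (cl l) := fun l hl =>
    sheet_mono (hlev l hl).2.2.2.2 hJ hC1CD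
  have htwn : ∀ l : ℕ, ‖tw s0 Q (up l Q)‖ ≤ d * 2 ^ l := fun l =>
    (norm_tw_up h l Q).trans (mul_le_mul_of_nonneg_right hsd (by positivity))
  -- part 1
  have P1 := gA m a (CD * ds) (fun l => tw s0 Q (up l Q)) nl cl abl
    (fun l => CM * (2 : ℝ) ^ ((3 / 4 : ℝ) * l) * η) hmc ha.le hCDds
    (ZP_mono hZI (by
      have : (0 : ℝ) ≤ 2 ^ I * (d + 1) := by positivity
      linarith only [this]) le_rfl) hMG (fun l hl => ⟨htwn l, hShl l hl⟩) Y N hY hYs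
  have hblc : ∀ l ≤ I, blc (nl l) (cl l)
      (fun y => (2 : ℝ) ^ l * m (tw s0 Q (up l Q) + (2 : ℝ) ^ l • y)) (4 * d + 8) ≤
      CM * (2 : ℝ) ^ ((3 / 4 : ℝ) * l) * η + (C1M * ds + Kb * (CD * ds)) := by
    intro l hl
    have hmlc : Continuous (fun y => (2 : ℝ) ^ l * m (tw s0 Q (up l Q) + (2 : ℝ) ^ l • y)) := by
      fun_prop
    have hZl : ZP (64 * R0 + 1) (CD * ds)
        (fun y => (2 : ℝ) ^ l * m (tw s0 Q (up l Q) + (2 : ℝ) ^ l • y)) := by
      refine ZP_scale hd1 hZI hCDds _ l ?_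
      have h1 := htwn l
      have h3 : (2 : ℝ) ^ l ≤ 2 ^ I := pow_le_pow_right₀ (by norm_num) hl
      have h4 : (d : ℝ) * 2 ^ l + 2 ^ l * (64 * R0 + 1) = 2 ^ l * (64 * R0) + 2 ^ l * (d + 1) := by
        ring
      have h5 : (2 : ℝ) ^ l * (64 * R0) ≤ 2 ^ I * (64 * R0) :=
        mul_le_mul_of_nonneg_right h3 (by positivity)
      have h6 : (2 : ℝ) ^ l * (d + 1) ≤ 2 ^ I * (d + 1) :=
        mul_le_mul_of_nonneg_right h3 (by positivity)
      linarith only [h1, h5, h6]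
    have h1 := gb _ (nl l) (cl l) (CD * ds) hmlc (hnl l) (hShl l hl).loc hZl
    have h3 := (hlev l hl).2.2.2.1
    have h4 := le_max_right 0 (blc (nl l) (cl l)
      (fun y => (2 : ℝ) ^ l * m (tw s0 Q (up l Q) + (2 : ℝ) ^ l • y)) (64 * R0))
    have h5 : CM * (2 : ℝ) ^ ((3 / 4 : ℝ) * l) * (CS * bs) ≤
        CM * (2 : ℝ) ^ ((3 / 4 : ℝ) * l) * η :=
      mul_le_mul_of_nonneg_left (by linarith only [hsq0]) (by positivity)
    linarith only [h1, h3, h4, h5]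
  have hsum := level_sum (I := I) (a := a) (η := η) (d0 := ds) (CM := CM) (C1 := C1M)
    (KD := C1M * ds + Kb * (CD * ds)) (ab := abl) (dn := fun l => ‖nl l - nl 0‖)
    (ep := fun l => CM * (2 : ℝ) ^ ((3 / 4 : ℝ) * l) * η)
    (bl := fun l => blc (nl l) (cl l)
      (fun y => (2 : ℝ) ^ l * m (tw s0 Q (up l Q) + (2 : ℝ) ^ l • y)) (4 * d + 8))
    hη0 hd0 hCM.le hC1M.le (by (clear * - hC1M hd0 hKb hC8 hC81; positivity)) (fun l => norm_nonneg _)
    (fun l hl => (hlev l hl).2.1) (fun l hl => (hlev l hl).2.2.1) (fun l _ => le_rfl) hblc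
  -- part 2
  have hid : (fun y : Sp d => (2 : ℝ) ^ 0 * m (tw s0 Q (up 0 Q) + (2 : ℝ) ^ 0 • y)) = m := by
    funext y
    rw [tw_up_zero]
    simp
  have hSh0 := hShl 0 (Nat.zero_le _)
  rw [hid] at hSh0
  have hmax0 := (hlev 0 (Nat.zero_le _)).2.2.2.1
  rw [hid] at hmax0
  have hz0 : (2 : ℝ) ^ ((3 / 4 : ℝ) * ((0 : ℕ) : ℝ)) = 1 := by simp
  rw [hz0, mul_one] at hSh0 hmax0
  have hZ64 : ZP (64 * R0 + 1) (D + CD * ds) m := by
    refine ZP_mono hZI ?_ (by linarith only [hD])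
    have : (0 : ℝ) ≤ 2 ^ I * (d + 1) := by positivity
    linarith only [hI1, this]
  have P2 := g2 m n (nl 0) s (cl 0) ab (abl 0) ep (CM * η) (D + CD * ds) hmc (by linarith only [hD, hCDds])
    (sheet_mono hSh le_rfl (by linarith only [hCDds])) (sheet_mono hSh0 le_rfl (by linarith only [hD])) hZ64 (by
      intro ζ N hζ hζs
      have h1 := g84 Q d ζ N (by positivity) (by linarith only [hR0, hR, hp2, hIp, hI1]) hζ hζs
      refine h1.trans ?_
      have hN' := TU.TFn_nonneg hζ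
      have h3 : mC b ε (d + 2) s0 f Q ≤ a := by
        rw [haQ]
        exact mC_mono hb2 ε hf hc h (by linarith only [hR0]) Q
      have h4 : C8 * N * (mC b ε (d + 2) s0 f Q + dC b ε R s0 f e Q) ≤
          C8 * N * (K * ab + dC b ε R s0 f e Q) :=
        mul_le_mul_of_nonneg_left (by linarith only [haab, h3]) (by positivity)
      have h5 : C8 * N * (K * ab) = (C8 * K) * N * ab := by ring
      have h6 : C8 * dC b ε R s0 f e Q ≤ D + CD * ds := by linarith only [hD, hC8CD]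
      have h7 : (C8 * K) * N * ab ≤ max 1 (C8 * K) * N * ab :=
        mul_le_mul_of_nonneg_right (mul_le_mul_of_nonneg_right (le_max_right _ _) hN') hSh.ab0.le
      have h8 : N * (C8 * dC b ε R s0 f e Q) ≤ N * (D + CD * ds) :=
        mul_le_mul_of_nonneg_left h6 hN'
      have h9 : 1 * (N * (D + CD * ds)) ≤ max 1 (C8 * K) * (N * (D + CD * ds)) :=
        mul_le_mul_of_nonneg_right (le_max_left _ _) (mul_nonneg hN' (by linarith only [hD, hCDds]))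
      linarith only [h4, h7, h8, h9]) Y N hY hYs
  -- assembly
  have hztn : TFn (J + 6) ((d : ℝ) * (d * (2 * ‖n - nl 0‖ * N))) (zt n (nl 0) Y) :=
    zt_TFn hSh.n1 (hnl 0) hN hY
  have hzi : Integrable (fun y => m y * zt n (nl 0) Y y) := by
    refine (hmc.mul hztn.smooth.continuous).integrable_of_hasCompactSupport
      (HasCompactSupport.mul_left ?_)
    refine HasCompactSupport.intro (isCompact_closedBall (0 : Sp d) d) fun y hy => ?_
    rw [mem_closedBall, dist_zero_right, not_le] at hy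
    exact zt_supp hYs hy.le
  have hdec : (fun y => m y * ((∑ i, ∑ j, n i * n j * Y i j y) - nt b RN Y y)) =
      fun y => m y * ((∑ i, ∑ j, nl 0 i * nl 0 j * Y i j y) - nt b RN Y y) +
        m y * zt n (nl 0) Y y := by
    funext y
    have h1 : zt n (nl 0) Y y = (∑ i, ∑ j, n i * n j * Y i j y) -
        ∑ i, ∑ j, nl 0 i * nl 0 j * Y i j y := by
      unfold zt
      rw [← Finset.sum_sub_distrib]
      refine Finset.sum_congr rfl fun i _ => ?_
      rw [← Finset.sum_sub_distrib]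
      refine Finset.sum_congr rfl fun j _ => ?_
      ring
    rw [h1]
    ring
  rw [hdec]
  refine (int_add_le hzi P1 P2).trans ?_
  have m1 : 0 ≤ max 0 (blc n s m (64 * R0)) := le_max_left _ _
  have hep := hSh.ep0
  set T : ℝ := bs + Real.sqrt (a * ds) + ep + max 0 (blc n s m (64 * R0)) + D with hT
  have hηT : η ≤ (CS + 1) * (bs + Real.sqrt (a * ds)) := by
    have : 0 ≤ CS * Real.sqrt (a * ds) := mul_nonneg hCS.le hsq0
    linarith only [hd0, hdb, this]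
  have hηT' : η ≤ (CS + 1) * T := hηT.trans
    (mul_le_mul_of_nonneg_left (by linarith only [hD, m1, hep]) (by linarith only [hCS]))
  have q1 : CA * N * (∑ l ∈ Finset.range (I + 1), (1 / 2 : ℝ) ^ l *
      (abl l * ‖nl l - nl 0‖ + CM * (2 : ℝ) ^ ((3 / 4 : ℝ) * l) * η +
      blc (nl l) (cl l)
      (fun y => (2 : ℝ) ^ l * m (tw s0 Q (up l Q) + (2 : ℝ) ^ l • y)) (4 * d + 8))) ≤
      CA * ((CM ^ 2 + 2 * CM) * S) * (CS + 1) * N * T +
        CA * ((I + 1) * (CM * C1M + C1M + Kb * CD)) * N * ds := by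
    refine (mul_le_mul_of_nonneg_left hsum (by positivity)).trans ?_
    have h1 : (CM ^ 2 + 2 * CM) * S * η ≤ (CM ^ 2 + 2 * CM) * S * ((CS + 1) * T) :=
      mul_le_mul_of_nonneg_left hηT' (by (clear * - hCM hS0; positivity))
    refine (mul_le_mul_of_nonneg_left (add_le_add h1 le_rfl) (by positivity)).trans
      (le_of_eq ?_)
    ring
  have q2 : C2 * N * (ep + CM * η + max 0 (blc n s m (64 * R0)) +
      max 0 (blc (nl 0) (cl 0) m (64 * R0)) + (D + CD * ds)) ≤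
      C2 * (1 + 2 * CM * (CS + 1)) * N * T + C2 * (C1M + CD) * N * ds := by
    have h1 : CM * η ≤ CM * ((CS + 1) * T) := mul_le_mul_of_nonneg_left hηT' hCM.le
    have h3 : CM * (CS * bs) ≤ CM * ((CS + 1) * T) := by
      refine mul_le_mul_of_nonneg_left ((?_ : CS * bs ≤ η).trans hηT') hCM.le
      linarith only [hsq0]
    have h4 : ep + max 0 (blc n s m (64 * R0)) + D ≤ T := by linarith only [hd0, hdb, hsq0]
    have h5 : ep + CM * η + max 0 (blc n s m (64 * R0)) +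
      max 0 (blc (nl 0) (cl 0) m (64 * R0)) + (D + CD * ds) ≤
      (1 + 2 * CM * (CS + 1)) * T + (C1M + CD) * ds := by linarith only [hd0, hdb, hsq0, hmax0, h1, h3]
    refine (mul_le_mul_of_nonneg_left h5 (by positivity)).trans (le_of_eq ?_)
    ring
  have hT0 : 0 ≤ T := by (clear * - hbs0 hep hD; positivity)
  have q3 : 0 ≤ (2 : ℝ) ^ (-(I : ℝ) * (1 - γ)) * a := by positivity
  refine assembly (by positivity) (by (clear * - hCA hCM hS0 hCS; positivity)) (by positivity) hN hT0 q3 q1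
    (le_of_eq ?_) (le_of_eq ?_) q2
  · ring
  · ring

end TG


end

section

/-!
# MODULE FR2: cells of type A carry a sheet of radius 64 R0 (helper34)
-/

set_option autoImplicit false

open MeasureTheory Metric Set TrI
open scoped InnerProductSpace ContDiff ENNReal

namespace TG

namespace FR2

open FR

noncomputable section

theorem main (hFS : StmtFS) (h2 : StmtCT2) (h4 : StmtCT4) (h5 : StmtCT5) (h8 : StmtCT8)
    (hSC : StmtSC) (hSD : StmtSD) : StmtFR2 := by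
  intro d V E _ _ _ _ _ _ _ L hd hL
  obtain ⟨J, HJ⟩ := hFS d V E L hd hL
  refine ⟨J, ?_⟩
  intro M c0 ε hε hε1 b hb R0 γ K hR0 hγ hγ1 hK
  have hd1 : 1 ≤ d := by omega
  have hdR : (2 : ℝ) ≤ d := by exact_mod_cast hd
  have hK' : 1 ≤ (1 + 64 * R0) ^ (d + 2) * K :=
    one_le_mul_of_one_le_of_one_le (one_le_pow₀ (by linarith)) hK
  obtain ⟨Cf, κf, hCf, hκf, F⟩ := HJ M c0 ε hε hε1 b hb (64 * R0) γ
    ((1 + 64 * R0) ^ (d + 2) * K) (by linarith) hγ hγ1 hK'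
  obtain ⟨Cs, hCs, S⟩ := FR4.sums h2 h4 h5 h8 hSC hSD hd hε hε1 hb hR0
  obtain ⟨C4, hC4, g4⟩ := h4 d hd1 0 le_rfl
  refine ⟨Cf + Cf * Cs + Cf * (Cf + 1), κf / Cs, by positivity, by positivity, ?_⟩
  intro R hR u hu s0 hs e he ν c hν Q a ha haeq hgr hsmall
  have hf : Continuous (fo L u) := CM.fo_cont hu
  have hfc : HasCompactSupport (fo L u) := CM.fo_cs hu
  obtain ⟨g41, -, -, -⟩ := g4 M c0 ε hε hε1 b hb E (fo L u) hf hfc s0 hs
  obtain ⟨S1, S2, S3, S4, S5, -⟩ := S E R hR (fo L u) hf hfc s0 hs e he ν c hν Q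
  have hfo := fo_uQ hSC hd L hu hs Q
  have key := F R (by linarith) Q.1 (uQ s0 u Q) (uQ_TF hSC hd L hu hs Q)
    (fun r => tw s0 Q (up r Q)) (fun r => e (up r Q)) (tower hs e he.unit Q) a ha
  rw [hfo] at key
  have ha' : a = ma b ε (64 * R0) ((1 / 2) ^ Q.1) (rs (xC s0 Q) (lev s0 Q.1) (fo L u)) Q.1 0 := by
    have h1 := ma_frame hSC hd hε hε1 hb hf hfc hs (64 * R0) 0 Q
    rw [tw_up_zero, up_zero, add_zero] at h1
    rw [h1, haeq]
  have hgr' : ∀ r : ℕ, ma b ε (64 * R0) ((1 / 2) ^ Q.1)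
      (rs (xC s0 Q) (lev s0 Q.1) (fo L u)) (Q.1 + r) (tw s0 Q (up r Q)) ≤
      (1 + 64 * R0) ^ (d + 2) * K * (2 : ℝ) ^ (γ * r) * a := by
    intro r
    rw [ma_frame hSC hd hε hε1 hb hf hfc hs]
    refine (g41 (64 * R0) (by linarith) (up r Q)).trans ?_
    have hR1 : (0 : ℝ) ≤ 1 + 64 * R0 := by linarith
    have h1 := mul_le_mul_of_nonneg_left (hgr r) (pow_nonneg hR1 (d + 2))
    refine h1.trans (le_of_eq ?_)
    ring
  have hB : Cs * bsh b ε R0 R s0 (fo L u) e ν c Q ≤ κf * a := by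
    have h1 := mul_le_mul_of_nonneg_left hsmall hCs.le
    refine h1.trans (le_of_eq ?_)
    field_simp
  obtain ⟨n, s, ab, hn, hsl, hab1, hab2, hsum, hSh⟩ := key ha' hgr'
    (fun r => ν (up (r + 7) Q))
    (fun r => cfr s0 Q (ν (up (r + 7) Q)) (c (up (r + 7) Q)))
    (Cs * bsh b ε R0 R s0 (fo L u) e ν c Q) (dsh b ε R s0 (fo L u) e Q)
    (fun r => hν.unit _) S3 hB S1 S2
  have hm : (fun y => ⟪rs (xC s0 Q) (lev s0 Q.1) (fo L u) y, e (up 0 Q)⟫_ℝ) =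
      mQ s0 (fo L u) (e Q) Q := by
    rw [up_zero, mQ_eq]
  rw [hm] at hSh
  have hbs0 : 0 ≤ bsh b ε R0 R s0 (fo L u) e ν c Q := S4.trans S5
  refine ⟨n, s, ab, hn, hsl, ?_, ?_, ?_, ?_⟩
  · have h0 : 0 ≤ ab := by
      by_contra hneg
      push Not at hneg
      nlinarith only [ha, hab1, hCf, hneg]
    have h1 : 0 ≤ Cf * Cs * ab := by positivity
    have h2 : 0 ≤ Cf * (Cf + 1) * ab := by positivity
    linarith only [hab1, h1, h2]
  · have h1 : 0 ≤ Cf * Cs * a := by positivity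
    have h2 : 0 ≤ Cf * (Cf + 1) * a := by positivity
    linarith only [hab2, h1, h2]
  · have h1 := hsum 1
    simp only [Finset.range_one, Finset.sum_singleton] at h1
    have h2 : wq (1 / 2) 0 = 1 := by simp [wq]
    rw [h2, one_mul, add_zero, tw_up_zero, up_zero] at h1
    unfold bD at h1
    rw [bb_unit] at h1
    have h3 : 0 ≤ DD b ε R ((1 / 2) ^ Q.1) (rs (xC s0 Q) (lev s0 Q.1) (fo L u)) Q.1 0 (e Q) :=
      FS_DD_nonneg b ε R (by positivity) _ _ _ (he.unit Q)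
    have h4 : 0 ≤ Cf * bsh b ε R0 R s0 (fo L u) e ν c Q := by positivity
    have h5 : 0 ≤ Cf * (Cf + 1) * bsh b ε R0 R s0 (fo L u) e ν c Q := by positivity
    rw [mQ_eq]
    linarith only [h1, h3, h4, h5]
  · refine FS_sheet_mono hSh ?_ ?_
    · have h1 : Real.sqrt (ab * dsh b ε R s0 (fo L u) e Q) ≤
          (Cf + 1) * Real.sqrt (a * dsh b ε R s0 (fo L u) e Q) := by
        have e1 : (Cf + 1) * Real.sqrt (a * dsh b ε R s0 (fo L u) e Q) =
            Real.sqrt ((Cf + 1) ^ 2 * (a * dsh b ε R s0 (fo L u) e Q)) := by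
          rw [Real.sqrt_mul (sq_nonneg (Cf + 1)), Real.sqrt_sq (by positivity)]
        rw [e1]
        refine Real.sqrt_le_sqrt ?_
        have e2 := mul_le_mul_of_nonneg_right hab2 S4
        have e3 : 0 ≤ a * dsh b ε R s0 (fo L u) e Q := by positivity
        have e4 : Cf * (a * dsh b ε R s0 (fo L u) e Q) ≤
            (Cf + 1) ^ 2 * (a * dsh b ε R s0 (fo L u) e Q) :=
          mul_le_mul_of_nonneg_right (by nlinarith only []) e3
        linarith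
      have h2 := Real.sqrt_nonneg (a * dsh b ε R s0 (fo L u) e Q)
      have h3 := mul_le_mul_of_nonneg_left h1 hCf.le
      have h4 : 0 ≤ Cf * bsh b ε R0 R s0 (fo L u) e ν c Q := by positivity
      have h5 : 0 ≤ Cf * (Cf + 1) * bsh b ε R0 R s0 (fo L u) e ν c Q := by positivity
      have h6 : 0 ≤ Cf * Real.sqrt (a * dsh b ε R s0 (fo L u) e Q) := by positivity
      have h7 : 0 ≤ Cf * Cs * Real.sqrt (a * dsh b ε R s0 (fo L u) e Q) := by positivity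
      linarith only [h3, h4, h5, h6, h7]
    · have h1 : 0 ≤ Cf * Cs * dsh b ε R s0 (fo L u) e Q := by positivity
      have h2 : 0 ≤ Cf * (Cf + 1) * dsh b ε R s0 (fo L u) e Q := by positivity
      linarith only [h1, h2]

end

end FR2

theorem stmtFR2 (hFS : StmtFS) (h2 : StmtCT2) (h4 : StmtCT4) (h5 : StmtCT5) (h8 : StmtCT8)
    (_ : StmtZ) (_ : StmtDI) (hSC : StmtSC) (hSD : StmtSD) : StmtFR2 :=
  FR2.main hFS h2 h4 h5 h8 hSC hSD

end TG


end

section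

/-!
# Module UU (10.2): two planes with small gains are close to each other
-/

open MeasureTheory Metric Set TrI Filter
open scoped InnerProductSpace ContDiff Topology

set_option linter.unusedSectionVars false

namespace TG

noncomputable section

namespace UUm

variable {d : ℕ}

lemma XX_nonneg {J : ℕ} {M : ℝ} {β : Sp d → ℝ} (hβ : Kit J M β) (ε : ℝ) (μ : Measure (Sp d))
    (n : Sp d) (y : Sp d) : 0 ≤ XX β ε μ n 1 y := by
  have h1 : 0 ≤ tav (X1 β ε μ n) 1 y := tav_nonneg (fun t y _ => X1_nonneg hβ ε μ n t y) y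
  have h2 : 0 ≤ tav (X2 μ n) 1 y := tav_nonneg (fun t y ht => X2_nonneg μ n ht y) y
  have h3 : 0 ≤ tav (X3 β ε μ n) 1 y := tav_nonneg (fun t y _ => X3_nonneg hβ ε μ n t y) y
  unfold XX; linarith

/-- Lipschitz bound from a gradient bound -/
lemma lip_of {H : Sp d → ℝ} (hH : ContDiff ℝ ∞ H) {R L : ℝ}
    (hb : ∀ y : Sp d, ‖y‖ ≤ R → ‖iteratedFDeriv ℝ 1 H y‖ ≤ L) (x y : Sp d) (hx : ‖x‖ ≤ R)
    (hy : ‖y‖ ≤ R) : |H y - H x| ≤ L * ‖y - x‖ := by
  have h1 : ∀ z ∈ closedBall (0 : Sp d) R, DifferentiableAt ℝ H z := fun z _ =>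
    (hH.differentiable (by simp)).differentiableAt
  have h2 : ∀ z ∈ closedBall (0 : Sp d) R, ‖fderiv ℝ H z‖ ≤ L := fun z hz => by
    rw [← norm_iteratedFDeriv_one]
    exact hb z (by simpa using hz)
  have h3 := (convex_closedBall (0 : Sp d) R).norm_image_sub_le_of_norm_fderiv_le h1 h2
    (show x ∈ closedBall (0 : Sp d) R by simpa using hx)
    (show y ∈ closedBall (0 : Sp d) R by simpa using hy)
  rwa [Real.norm_eq_abs] at h3

end UUm

open _root_.TG.UUm in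
/-- MODULE UU -/
theorem stmtUU (h : StmtTH) (hUB : StmtUB) : StmtUU := by
  intro d J hd hJ M C' ε p0 A c R0 hC' hε hε1 hF hR0
  obtain ⟨k, rfl⟩ : ∃ k, d = k + 1 := ⟨d - 1, by omega⟩
  obtain ⟨C, hC, hTH⟩ := MO.getTH h (k + 1) 0 hd C' hC'
  obtain ⟨CB, hCB, hB⟩ := hUB (k + 1) 1 hd M C' ε p0 A hC' hε (by linarith) hF.p0_pos hF.p0_le hF.A_ge
  obtain ⟨Cp, hCp, hpl⟩ := PF.bound k (R0 + 1)
  have hA := hF.A_ge
  have hc := hF.c_pos
  have hk : (1 : ℝ) ≤ k := by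
    have : 1 ≤ k := by omega
    exact_mod_cast this
  have hR32 : 32 ≤ R0 := by push_cast at hR0; linarith
  have hsC := Real.sqrt_pos.2 hC
  have hV : 0 < Cv (k + 1) C R0 := by unfold Cv; positivity
  set LH : ℝ := CB * Cv (k + 1) C R0 with hLHe
  have hLH : 0 < LH := by positivity
  set K : ℝ := CP k C R0 c CB LH A with hK
  refine ⟨Cp * (2 + 2 * (2 * R0 + 2) ^ 2) * |K| + 1, by positivity, ?_⟩
  intro β hβ μ hμ n n' s s' hn hn' hs hs'
  have hT := hTH μ hμ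
  have hv0 := hT.vpos one_pos (0 : Sp (k + 1))
  obtain ⟨-, -, -, -, hq, -, -, -, -, hHn, hmu, -⟩ := hB β (kit_mono (by omega) hβ) μ hμ
  obtain ⟨hH, hHb⟩ := hHn n hn
  obtain ⟨hH', hHb'⟩ := hHn n' hn'
  have hH0 : ∀ y, 0 ≤ Hn β ε p0 A μ n 1 y := fun y =>
    (mul_nonneg hc.le (XX_nonneg hβ ε μ n y)).trans (hF.gain β hβ μ hμ n hn y)
  have hH0' : ∀ y, 0 ≤ Hn β ε p0 A μ n' 1 y := fun y =>
    (mul_nonneg hc.le (XX_nonneg hβ ε μ n' y)).trans (hF.gain β hβ μ hμ n' hn' y)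
  have hLip : ∀ x y : Sp (k + 1), ‖x‖ ≤ 2 * R0 → ‖y‖ ≤ 2 * R0 →
      |Hn β ε p0 A μ n 1 y - Hn β ε p0 A μ n 1 x| ≤ LH * vv μ 1 0 * ‖y - x‖ := by
    intro x y hx hy
    refine lip_of hH (R := 2 * R0) (fun z hz => ?_) x y hx hy
    refine (hHb 1 le_rfl z).trans ?_
    have e1 := (v_cmp (μ := μ) hC hT (R0 := R0) (by linarith) (r := 1) (by norm_num) (by norm_num) hz).1
    rw [hLHe, mul_assoc]
    exact mul_le_mul_of_nonneg_left e1 hCB.le
  have hdich : ∀ x, c * vv μ 1 x ≤ Hn β ε p0 A μ n 1 x ∨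
      vv μ 1 x ^ 2 ≤ CB * (μ (ball x A)).toReal := by
    intro x
    rcases le_or_gt (qq A μ 1 x) p0 with h1 | h1
    · exact Or.inl (hF.far β hβ μ hμ n hn x h1).1
    · exact Or.inr (hmu x (by linarith [hF.p0_pos]))
  obtain ⟨σ, hσ, hσ0⟩ : ∃ σ : ℝ, σ ^ 2 = 1 ∧ 0 ≤ σ * ⟪n, n'⟫_ℝ := by
    rcases le_total 0 ⟪n, n'⟫_ℝ with h1 | h1
    · exact ⟨1, by norm_num, by linarith⟩
    · exact ⟨-1, by norm_num, by linarith⟩
  obtain ⟨g, hg⟩ : ∃ g : ℝ, g = σ * ⟪n, n'⟫_ℝ := ⟨_, rfl⟩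
  have hg0 : 0 ≤ g := hg ▸ hσ0
  have hg1 : g ≤ 1 := by
    have e1 : g ^ 2 ≤ 1 := by
      have e2 := abs_real_inner_le_norm n n'
      rw [hn, hn', mul_one] at e2
      have e3 : ⟪n, n'⟫_ℝ ^ 2 ≤ 1 := by rw [← sq_abs]; nlinarith only [e2, abs_nonneg ⟪n, n'⟫_ℝ]
      rw [hg, mul_pow, hσ, one_mul]; exact e3
    nlinarith only [e1]
  have hcore := L_core h hd hC' hμ hC hT hR32 hc hA hCB hLH hβ hε hε1 hn hn' hs hs' hg0 hg1 hσ hg
    hH.continuous hH0 (hF.gain β hβ μ hμ n hn) hH'.continuous hH0' (hF.gain β hβ μ hμ n' hn') hLip hdich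
  rw [← hK] at hcore
  set P1 := plInt n s (fun x => zR (2 * R0 - 1) x * Hn β ε p0 A μ n 1 x) with hP1
  set P2 := plInt n' s' (fun x => zR (2 * R0 - 1) x * Hn β ε p0 A μ n' 1 x) with hP2
  have hP1n : 0 ≤ P1 := pl_nonneg fun x => mul_nonneg (zR_nonneg _ _) (hH0 x)
  have hP2n : 0 ≤ P2 := pl_nonneg fun x => mul_nonneg (zR_nonneg _ _) (hH0' x)
  set w : Sp (k + 1) := g • n - σ • n' with hw
  set l0 := mm n n' s s' g σ (s • n) with hl0
  -- the left side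
  have hsn : ⟪n, s • n⟫_ℝ = s := by
    rw [inner_smul_right, real_inner_self_eq_norm_sq, hn]; ring
  have hxn : ‖s • n‖ ≤ R0 + 1 := by rw [norm_smul, hn, mul_one, Real.norm_eq_abs]; exact hs
  have hL1 : plInt n s (fun x => zR R0 x * (⟪n', x⟫_ℝ - s') ^ 2) =
      plInt n s (fun x => zR R0 x * (l0 + ⟪x - s • n, w⟫_ℝ) ^ 2) := by
    refine pl_congr hn fun x hx => ?_
    have e1 := mm_diff n n' s s' g σ x (s • n)
    rw [← hw, ← hl0] at e1
    have e2 : l0 + ⟪x - s • n, w⟫_ℝ = mm n n' s s' g σ x := by rw [e1]; ring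
    rw [e2]
    unfold mm MO.ht
    rw [real_inner_comm n x, hx, real_inner_comm n' x]
    have e3 : (g * (s - s) - σ * (⟪n', x⟫_ℝ - s')) ^ 2 = σ ^ 2 * (⟪n', x⟫_ℝ - s') ^ 2 := by ring
    rw [e3, hσ, one_mul]
  have hL2 : |plInt n s (fun x => zR R0 x * (l0 + ⟪x - s • n, w⟫_ℝ) ^ 2)| ≤
      Cp * ((2 + 2 * (2 * R0 + 2) ^ 2) * (‖w‖ ^ 2 + l0 ^ 2)) := by
    refine hpl n hn _ _ ?_ ?_ ?_ s
    · exact (zR_cont R0).mul (by fun_prop)
    · intro y
      rw [abs_mul, abs_of_nonneg (zR_nonneg _ _), abs_of_nonneg (sq_nonneg _)]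
      rcases le_or_gt (R0 + 1) ‖y‖ with hy | hy
      · rw [zR_zero hy, zero_mul]; (clear * - hR32; positivity)
      · have e1 : |⟪y - s • n, w⟫_ℝ| ≤ (2 * R0 + 2) * ‖w‖ := by
          refine (abs_real_inner_le_norm _ _).trans ?_
          refine mul_le_mul_of_nonneg_right ?_ (norm_nonneg _)
          refine (norm_sub_le _ _).trans ?_
          linarith
        have e2 : ⟪y - s • n, w⟫_ℝ ^ 2 ≤ (2 * R0 + 2) ^ 2 * ‖w‖ ^ 2 := by
          rw [← sq_abs, ← mul_pow]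
          exact pow_le_pow_left₀ (abs_nonneg _) e1 2
        have e3 : (l0 + ⟪y - s • n, w⟫_ℝ) ^ 2 ≤ 2 * l0 ^ 2 + 2 * ⟪y - s • n, w⟫_ℝ ^ 2 := by
          linarith only [sq_nonneg (l0 - ⟪y - s • n, w⟫_ℝ)]
        have e4 : zR R0 y * (l0 + ⟪y - s • n, w⟫_ℝ) ^ 2 ≤ 1 * (l0 + ⟪y - s • n, w⟫_ℝ) ^ 2 :=
          mul_le_mul_of_nonneg_right (zR_le_one _ _) (sq_nonneg _)
        have e5 : 0 ≤ (2 * R0 + 2) ^ 2 * l0 ^ 2 := by positivity
        have e6 : 0 ≤ ‖w‖ ^ 2 := by positivity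
        nlinarith only [e2, e4, e5]
    · intro y hy
      have e1 : ‖y‖ < R0 + 1 := by
        by_contra h1
        exact hy (by simp only [zR_zero (not_lt.1 h1), zero_mul])
      exact (PF.norm_tang_le hn y).trans e1.le
  rw [hL1]
  have hKP : K * (P1 + P2) ≤ |K| * (P1 + P2) := mul_le_mul_of_nonneg_right (le_abs_self K) (by linarith)
  calc vv μ 1 0 * plInt n s (fun x => zR R0 x * (l0 + ⟪x - s • n, w⟫_ℝ) ^ 2) ≤
        vv μ 1 0 * (Cp * ((2 + 2 * (2 * R0 + 2) ^ 2) * (‖w‖ ^ 2 + l0 ^ 2))) :=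
        mul_le_mul_of_nonneg_left ((le_abs_self _).trans hL2) hv0.le
    _ = Cp * (2 + 2 * (2 * R0 + 2) ^ 2) * (vv μ 1 0 * (‖w‖ ^ 2 + l0 ^ 2)) := by ring
    _ ≤ Cp * (2 + 2 * (2 * R0 + 2) ^ 2) * (|K| * (P1 + P2)) :=
        mul_le_mul_of_nonneg_left (hcore.trans hKP) (by positivity)
    _ ≤ (Cp * (2 + 2 * (2 * R0 + 2) ^ 2) * |K| + 1) * (P1 + P2) := by linarith only [hP1n, hP2n]

end

end TG


end

section

/-!
# Module IN (10.3), (10.4), part 1: lower bound of the gain by the tangential gradient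
-/

open MeasureTheory Metric Set TrI Filter
open scoped InnerProductSpace ContDiff Topology

set_option linter.unusedSectionVars false

namespace TG

noncomputable section

namespace INm

variable {d : ℕ}

lemma tang_inner (n g u : Sp d) : ⟪tang n g, u⟫_ℝ = ⟪g, u⟫_ℝ - ⟪n, g⟫_ℝ * ⟪n, u⟫_ℝ := by
  unfold tang
  rw [inner_sub_left, inner_smul_left]
  simp

lemma tang_sub (n a b : Sp d) : tang n (a - b) = tang n a - tang n b := by
  unfold tang
  rw [inner_sub_right, sub_smul]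
  abel

lemma tang_smul (n a : Sp d) (c : ℝ) : tang n (c • a) = c • tang n a := by
  unfold tang
  rw [inner_smul_right, smul_sub, smul_smul]

/-- bound of the tangential part by testing -/
lemma tang_le_of {n : Sp d} (hn : ‖n‖ = 1) {g : Sp d} {B : ℝ} (hB : 0 ≤ B)
    (h : ∀ w : Sp d, ⟪n, w⟫_ℝ = 0 → ‖w‖ ≤ 1 → |⟪g, w⟫_ℝ| ≤ B) : ‖tang n g‖ ≤ B := by
  by_cases h0 : ‖tang n g‖ = 0
  · rw [h0]; exact hB
  have hp : 0 < ‖tang n g‖ := lt_of_le_of_ne (norm_nonneg _) (Ne.symm h0)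
  have hn1 : ⟪n, tang n g⟫_ℝ = 0 := by
    unfold tang
    rw [inner_sub_right, inner_smul_right, real_inner_self_eq_norm_sq, hn]; ring
  have h1 : ⟪n, (‖tang n g‖)⁻¹ • tang n g⟫_ℝ = 0 := by rw [inner_smul_right, hn1, mul_zero]
  have h2 : ‖(‖tang n g‖)⁻¹ • tang n g‖ ≤ 1 := by
    rw [norm_smul, norm_inv, norm_norm, inv_mul_cancel₀ h0]
  have h3 := h _ h1 h2
  have h4 : ⟪g, (‖tang n g‖)⁻¹ • tang n g⟫_ℝ = ‖tang n g‖ := by
    have e1 : ⟪g, tang n g⟫_ℝ = ‖tang n g‖ ^ 2 := by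
      have e2 := tang_inner n g (tang n g)
      rw [hn1, mul_zero, sub_zero, real_inner_self_eq_norm_sq] at e2
      exact e2.symm
    rw [inner_smul_right, e1]
    field_simp
  rw [h4, abs_of_pos hp] at h3
  exact h3

variable {μ : Measure (Sp d)}

lemma thd_mono {J J' : ℕ} {C : ℝ} (hT : MO.THd J C μ) (h : J' ≤ J) : MO.THd J' C μ :=
  ⟨hT.pos, hT.smooth, fun t x j ht hj => hT.der t x j ht (hj.trans h), hT.har, hT.tim⟩

lemma pot_of {J : ℕ} {C : ℝ} (hT : MO.THd J C μ) (hμ : IsFiniteMeasure μ) : GPx.Pot μ :=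
  ⟨hμ, hT.pos, hT.smooth, hT.har⟩

lemma grad_fd (hP : GPx.Pot μ) {t : ℝ} (ht : 0 < t) (x w : Sp d) :
    ⟪gradient (vv μ t) x, w⟫_ℝ = fderiv ℝ (fun p : ℝ × Sp d => vv μ p.1 p.2) (t, x) (0, w) := by
  rw [GPx.grad_inner]
  have h1 : HasFDerivAt (fun x : Sp d => ((t, x) : ℝ × Sp d))
      (ContinuousLinearMap.inr ℝ ℝ (Sp d)) x := hasFDerivAt_prodMk_right t x
  have hd := (hP.diffV ht x).hasFDerivAt
  have h2 : HasFDerivAt (vv μ t)
      ((fderiv ℝ (fun p : ℝ × Sp d => vv μ p.1 p.2) (t, x)).comp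
        (ContinuousLinearMap.inr ℝ ℝ (Sp d))) x := by
    have := hd.comp x h1
    exact this
  rw [h2.fderiv]
  simp

/-- comparison of v in the unit ball -/
lemma v_unit {J : ℕ} {C : ℝ} (hT : MO.THd J C μ) (hC : 0 < C) {r : ℝ} (h1 : 1 / 2 ≤ r) (h2 : r ≤ 2)
    {x y : Sp d} (hx : ‖x - y‖ ≤ 1) : vv μ r x ≤ 3 ^ d * Real.sqrt C * vv μ 1 y := by
  have e1 := MO.v_harnack hT h1 x y
  have e2 := MO.v_time hT hC (r := r) (s := 1) one_pos (by linarith) (by linarith) y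
  have hv := (hT.vpos (r := r) (by linarith) y).le
  have e3 : (1 + 2 * ‖x - y‖) ^ d ≤ 3 ^ d := pow_le_pow_left₀ (by positivity) (by linarith) d
  calc vv μ r x ≤ (1 + 2 * ‖x - y‖) ^ d * vv μ r y := e1
    _ ≤ 3 ^ d * (Real.sqrt C * vv μ 1 y) := mul_le_mul e3 e2 hv (by positivity)
    _ = _ := by ring

/-- Lipschitz constant -/
def LL (d : ℕ) (C : ℝ) : ℝ := 4 * C * (3 ^ d * Real.sqrt C)

/-- the gradient of v is Lipschitz in space and time -/
lemma grad_lip {J : ℕ} {C : ℝ} (hT : MO.THd J C μ) (hC : 0 < C) (hJ : 2 ≤ J)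
    (hμ : IsFiniteMeasure μ) {n : Sp d} (hn : ‖n‖ = 1) (y : Sp d) {r r' : ℝ} {x x' : Sp d}
    (h1 : 1 / 2 ≤ r) (h2 : r ≤ 2) (h1' : 1 / 2 ≤ r') (h2' : r' ≤ 2) (hx : ‖x - y‖ ≤ 1)
    (hx' : ‖x' - y‖ ≤ 1) {ρ : ℝ} (hρ : 0 ≤ ρ) (hr : |r' - r| ≤ ρ) (hxx : ‖x' - x‖ ≤ ρ) :
    ‖tang n (gradient (vv μ r) x)‖ ≤
      ‖tang n (gradient (vv μ r') x')‖ + LL d C * vv μ 1 y * ρ := by
  have hP := pot_of hT hμ
  have hv0 := hT.vpos one_pos y
  have hsC := Real.sqrt_pos.2 hC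
  set V : ℝ × Sp d → ℝ := fun p => vv μ p.1 p.2 with hV
  set s : Set (ℝ × Sp d) := Icc (1 / 2) 2 ×ˢ closedBall y 1 with hs
  have hcs : Convex ℝ s := (convex_Icc _ _).prod (convex_closedBall _ _)
  have hopen : IsOpen {p : ℝ × Sp d | 0 < p.1} := GPx.isOpen_half
  have hpos : ∀ p ∈ s, p ∈ {p : ℝ × Sp d | 0 < p.1} := fun p hp => by
    have : (1 : ℝ) / 2 ≤ p.1 := hp.1.1
    show 0 < p.1
    linarith only [this]
  have h2i : ((1 : WithTop ℕ∞) + 1) ≤ ∞ := by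
    have h3 : ∀ j : ℕ, ((j : ℕ) : WithTop ℕ∞) ≤ ∞ := fun j => by exact_mod_cast le_top
    have h4 := h3 2
    rw [one_add_one_eq_two]
    exact h4
  have hsm : ContDiffOn ℝ 1 (fderiv ℝ V) {p : ℝ × Sp d | 0 < p.1} :=
    ((contDiffOn_succ_iff_fderiv_of_isOpen (n := 1) hopen).1 (hT.smooth.of_le h2i)).2.2
  have hd : ∀ p ∈ s, DifferentiableAt ℝ (fderiv ℝ V) p := fun p hp =>
    ((hsm.contDiffAt (hopen.mem_nhds (hpos p hp))).differentiableAt (by norm_num))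
  have hb : ∀ p ∈ s, ‖fderiv ℝ (fderiv ℝ V) p‖ ≤ LL d C * vv μ 1 y := by
    intro p hp
    have hp0 : 0 < p.1 := hpos p hp
    have e1 : ‖fderiv ℝ (fderiv ℝ V) p‖ = ‖iteratedFDeriv ℝ 2 V p‖ := by
      rw [← norm_iteratedFDeriv_one, norm_iteratedFDeriv_fderiv]
    rw [e1]
    have e2 := hT.der p.1 p.2 2 hp0 hJ
    have e3 := v_unit hT hC hp.1.1 hp.1.2 (x := p.2) (y := y) (by
      rw [← dist_eq_norm]; exact hp.2)
    have e4 : C * vv μ p.1 p.2 / p.1 ^ 2 ≤ 4 * C * vv μ p.1 p.2 := by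
      have hvp := (hT.vpos hp0 p.2).le
      rw [div_le_iff₀ (by positivity)]
      have e5 : (1 : ℝ) ≤ 4 * p.1 ^ 2 := by nlinarith [hp.1.1]
      have e6 : 0 ≤ C * vv μ p.1 p.2 := by positivity
      nlinarith
    refine e2.trans (e4.trans ?_)
    calc 4 * C * vv μ p.1 p.2 ≤ 4 * C * (3 ^ d * Real.sqrt C * vv μ 1 y) :=
          mul_le_mul_of_nonneg_left e3 (by positivity)
      _ = _ := by unfold LL; ring
  have hp1 : ((r, x) : ℝ × Sp d) ∈ s :=
    ⟨⟨h1, h2⟩, by show dist x y ≤ 1; rw [dist_eq_norm]; exact hx⟩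
  have hp2 : ((r', x') : ℝ × Sp d) ∈ s :=
    ⟨⟨h1', h2'⟩, by show dist x' y ≤ 1; rw [dist_eq_norm]; exact hx'⟩
  have hmv := hcs.norm_image_sub_le_of_norm_fderiv_le hd hb hp2 hp1
  have hdist : ‖((r, x) : ℝ × Sp d) - (r', x')‖ ≤ ρ := by
    rw [Prod.mk_sub_mk, Prod.norm_mk]
    refine max_le ?_ ?_
    · rw [Real.norm_eq_abs, abs_sub_comm]; exact hr
    · rw [norm_sub_rev]; exact hxx
  have hLL : 0 ≤ LL d C * vv μ 1 y := by unfold LL; positivity
  have hmv2 : ‖fderiv ℝ V (r, x) - fderiv ℝ V (r', x')‖ ≤ LL d C * vv μ 1 y * ρ :=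
    hmv.trans (mul_le_mul_of_nonneg_left hdist hLL)
  have hr0 : 0 < r := by linarith
  have hr0' : 0 < r' := by linarith
  have key : ‖tang n (gradient (vv μ r) x - gradient (vv μ r') x')‖ ≤ LL d C * vv μ 1 y * ρ := by
    refine tang_le_of hn (by positivity) fun w _ hw => ?_
    rw [inner_sub_left, grad_fd hP hr0, grad_fd hP hr0', ← sub_apply,
      ← Real.norm_eq_abs]
    refine (ContinuousLinearMap.le_opNorm _ _).trans ?_
    have hw' : ‖((0 : ℝ), w)‖ ≤ 1 := by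
      rw [Prod.norm_mk, norm_zero]
      exact max_le zero_le_one hw
    calc ‖fderiv ℝ V (r, x) - fderiv ℝ V (r', x')‖ * ‖((0 : ℝ), w)‖ ≤
          (LL d C * vv μ 1 y * ρ) * 1 := mul_le_mul hmv2 hw' (norm_nonneg _) (by positivity)
      _ = _ := mul_one _
  rw [tang_sub] at key
  have := norm_sub_norm_le (tang n (gradient (vv μ r) x)) (tang n (gradient (vv μ r') x'))
  linarith

/-- lower bound of X1, localized -/
lemma X1_low' (hP : GPx.Pot μ) {J : ℕ} {M : ℝ} {β : Sp d → ℝ} (hβ : Kit J M β)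
    {ε : ℝ} {n : Sp d} {r : ℝ} (hr : 0 < r) {y : Sp d} {κ ρ : ℝ} (hρ : 0 < ρ) (hρ1 : ρ ≤ 1)
    (hκ0 : 0 ≤ κ)
    (hκ : ∀ z : Sp d, ‖z‖ ≤ ρ → κ ≤ ‖tang n (gradient (vv μ r) (y + (ε * r) • z))‖ ^ 2
      / vv μ r (y + (ε * r) • z)) : ρ ^ d * κ ≤ X1 β ε μ n r y := by
  have hc1 : Continuous (fun z : Sp d => ‖tang n (gradient (vv μ r) (y + (ε * r) • z))‖ ^ 2
      / vv μ r (y + (ε * r) • z)) := by
    refine Continuous.div ?_ (hP.cont_v hr ε y) (fun z => (hP.vpos hr _).ne')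
    exact ((UUm.cont_tang n).comp (hP.cont_grad hr ε y)).norm.pow 2
  have hbc : Continuous β := hβ.prof.smooth.continuous
  have hcs : HasCompactSupport β := by
    refine HasCompactSupport.intro (isCompact_closedBall (0 : Sp d) 1) fun z hz => ?_
    refine hβ.prof.supp z ?_
    simp only [mem_closedBall, dist_zero_right, not_le] at hz
    exact hz.le
  have i1 : Integrable (fun z => β z * (‖tang n (gradient (vv μ r) (y + (ε * r) • z))‖ ^ 2
      / vv μ r (y + (ε * r) • z))) :=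
    (hbc.mul hc1).integrable_of_hasCompactSupport hcs.mul_right
  have i2 : Integrable β := hbc.integrable_of_hasCompactSupport hcs
  have i3 : Integrable (fun z : Sp d => β (ρ⁻¹ • z)) :=
    (integrable_comp_smul_iff volume β (inv_ne_zero hρ.ne')).2 i2
  have h1 : ρ ^ d * κ = ∫ z, β (ρ⁻¹ • z) * κ := by
    rw [integral_mul_const, Measure.integral_comp_inv_smul_of_nonneg _ _ hρ.le, hβ.prof.int]
    simp
  rw [h1]
  unfold X1
  refine integral_mono (i3.mul_const κ) i1 fun z => ?_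
  by_cases hz : ‖z‖ ≤ ρ
  · refine mul_le_mul ?_ (hκ z hz) hκ0 (hβ.prof.nonneg z)
    refine hβ.prof.mono _ _ ?_
    rw [norm_smul, norm_inv, Real.norm_of_nonneg hρ.le]
    have : 1 ≤ ρ⁻¹ := (one_le_inv₀ hρ).2 hρ1
    nlinarith [norm_nonneg z]
  · have : β (ρ⁻¹ • z) = 0 := by
      refine hβ.prof.supp _ ?_
      rw [norm_smul, norm_inv, Real.norm_of_nonneg hρ.le]
      rw [← div_eq_inv_mul, le_div_iff₀ hρ, one_mul]
      exact (not_le.1 hz).le
    simp only [this, zero_mul]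
    exact mul_nonneg (hβ.prof.nonneg z) (div_nonneg (sq_nonneg _) (hP.vpos hr _).le)

section main

variable (h : StmtTH) (hd : 2 ≤ d) {C' : ℝ} (hC' : 0 < C') (hμ : Gro C' μ)

include h hd hC' hμ

/-- localization in time -/
lemma tavX1_low' {J : ℕ} {M : ℝ} {β : Sp d → ℝ} (hβ : Kit J M β) {ε : ℝ} (hε : 0 < ε)
    (hε1 : ε ≤ 1) {n : Sp d} (hn : ‖n‖ = 1) {y : Sp d} {κ : ℝ} (hκ0 : 0 ≤ κ) {r ρ : ℝ}
    (h1 : 1 / 2 ≤ r) (h2 : r ≤ 2) (hρ : 0 < ρ) (hρ1 : ρ ≤ 1 / 4)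
    (hκ : ∀ r' : ℝ, 1 / 2 ≤ r' → r' ≤ 2 → |r' - r| ≤ ρ → κ ≤ X1 β ε μ n r' y) :
    ρ ^ 2 / 12 * κ ≤ tav (X1 β ε μ n) 1 y := by
  have hs := (X1_bd (ι := Unit) h hd hC' (μ := fun _ => μ) (fun _ => hμ) 0 hε hε1
    (β := fun _ => β) (fun _ => hβ) (n := fun _ => n) (fun _ => hn)).smooth ()
  have hc : ContinuousOn (fun r : ℝ => X1 β ε μ n r y) (Icc (1 / 2) 2) := by
    have h1 : ContinuousOn (fun p : ℝ × Sp d => X1 β ε μ n p.1 p.2) (SL d) := hs.continuousOn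
    exact h1.comp (f := fun r : ℝ => ((r, y) : ℝ × Sp d)) (by fun_prop)
      (fun r hr => mem_SL_of hr.1 hr.2 y)
  have hI : IntegrableOn (fun r => tau 1 r * X1 β ε μ n r y) (Ioc (1 / 2) 2) :=
    ((MO.tau_cont.continuousOn.mul hc).integrableOn_Icc).mono_set Ioc_subset_Icc_self
  obtain ⟨a, ha1, ha2, ha3⟩ : ∃ a : ℝ, 1 / 2 ≤ a ∧ a + ρ / 2 ≤ 2 ∧ ∀ r' : ℝ, a ≤ r' →
      r' ≤ a + ρ / 2 → |r' - r| ≤ ρ ∧ ρ / 6 ≤ tau 1 r' := by
    rcases le_or_gt r 1 with hr | hr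
    · refine ⟨r + ρ / 2, by linarith, by linarith, fun r' h3 h4 => ⟨?_, ?_⟩⟩
      · rw [abs_le]; constructor <;> linarith
      · unfold tau
        refine le_max_of_le_right (le_min ?_ ?_) <;> linarith
    · refine ⟨r - ρ, by linarith, by linarith, fun r' h3 h4 => ⟨?_, ?_⟩⟩
      · rw [abs_le]; constructor <;> linarith
      · unfold tau
        refine le_max_of_le_right (le_min ?_ ?_) <;> linarith
  have hsub : Ioc a (a + ρ / 2) ⊆ Ioc (1 / 2) 2 := Ioc_subset_Ioc ha1 ha2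
  have hX0 : ∀ r', 0 ≤ tau 1 r' * X1 β ε μ n r' y := fun r' =>
    mul_nonneg (MO.tau_nonneg r') (X1_nonneg hβ ε μ n r' y)
  have e1 : (∫ r' in Ioc a (a + ρ / 2), tau 1 r' * X1 β ε μ n r' y) ≤
      ∫ r' in Ioc (1 / 2) 2, tau 1 r' * X1 β ε μ n r' y :=
    setIntegral_mono_set hI (Eventually.of_forall hX0) (Eventually.of_forall hsub)
  have e2 : (∫ _r' in Ioc a (a + ρ / 2), ρ / 6 * κ) ≤
      ∫ r' in Ioc a (a + ρ / 2), tau 1 r' * X1 β ε μ n r' y := by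
    refine setIntegral_mono_on (integrableOn_const (by simp)) (hI.mono_set hsub)
      measurableSet_Ioc fun r' hr' => ?_
    obtain ⟨e3, e4⟩ := ha3 r' hr'.1.le hr'.2
    have e5 := hsub hr'
    exact mul_le_mul e4 (hκ r' e5.1.le e5.2 e3) hκ0 (MO.tau_nonneg r')
  have e3 : (∫ _r' in Ioc a (a + ρ / 2), ρ / 6 * κ) = ρ ^ 2 / 12 * κ := by
    rw [setIntegral_const, smul_eq_mul, Real.volume_real_Ioc]
    rw [show a + ρ / 2 - a = ρ / 2 by ring, max_eq_left (by linarith)]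
    ring
  rw [e3] at e2
  refine e2.trans (e1.trans (le_of_eq ?_))
  unfold tav
  rw [mul_one, intervalIntegral.integral_of_le (by norm_num)]

/-- the radius -/
def rX (d : ℕ) (C κ : ℝ) : ℝ := min (1 / 4) (κ / (4 * LL d C))

omit h hd hC' hμ in
lemma rX_pos {C κ : ℝ} (hC : 0 < C) (hκ : 0 < κ) : 0 < rX d C κ := by
  have := Real.sqrt_pos.2 hC
  unfold rX LL
  refine lt_min (by norm_num) (by positivity)

/-- the constant -/
def cX (d : ℕ) (C κ : ℝ) : ℝ :=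
  rX d C κ ^ 2 / 12 * (rX d C κ ^ d * (κ ^ 2 / (4 * (3 ^ d * Real.sqrt C))))

omit h hd hC' hμ in
lemma cX_pos {C κ : ℝ} (hC : 0 < C) (hκ : 0 < κ) : 0 < cX d C κ := by
  have := Real.sqrt_pos.2 hC
  have := rX_pos (d := d) hC hκ
  unfold cX
  positivity

/-- a large tangential gradient at one point gives a large gain nearby -/
lemma XX_low {J : ℕ} {C : ℝ} (hC : 0 < C) (hT : MO.THd J C μ) (hJ : 2 ≤ J) {J' : ℕ} {M : ℝ}
    {β : Sp d → ℝ} (hβ : Kit J' M β) {ε : ℝ} (hε : 0 < ε) (hε1 : ε ≤ 1 / 4) {n : Sp d}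
    (hn : ‖n‖ = 1) {r : ℝ} (h1 : 1 / 2 ≤ r) (h2 : r ≤ 2) {y y' : Sp d} {κ : ℝ} (hκ : 0 < κ)
    (hg : κ * vv μ 1 y ≤ ‖tang n (gradient (vv μ r) y)‖) (hy : ‖y' - y‖ ≤ rX d C κ) :
    cX d C κ * vv μ 1 y ≤ XX β ε μ n 1 y' := by
  have hP := pot_of hT hμ.fin
  have hv0 := hT.vpos one_pos y
  have hsC := Real.sqrt_pos.2 hC
  have hρ := rX_pos (d := d) hC hκ
  have hL : 0 < LL d C := by unfold LL; positivity
  have hρ1 : rX d C κ ≤ 1 / 4 := min_le_left _ _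
  have hρ2 : rX d C κ ≤ κ / (4 * LL d C) := min_le_right _ _
  rw [le_div_iff₀ (by positivity)] at hρ2
  set ρ := rX d C κ with hρe
  have key := tavX1_low' h hd hC' hμ hβ hε (by linarith) hn (y := y')
    (κ := ρ ^ d * (κ ^ 2 / (4 * (3 ^ d * Real.sqrt C)) * vv μ 1 y)) (by positivity) h1 h2 hρ hρ1
    (fun r' h1' h2' hrr => by
      refine X1_low' hP hβ (by linarith) hρ (by linarith) (by positivity) fun z hz => ?_
      have hz1 : ‖(ε * r') • z‖ ≤ ρ := by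
        rw [norm_smul, Real.norm_of_nonneg (by positivity)]
        have e1 : ε * r' ≤ 1 / 2 := by nlinarith only [hε1, hε, h2']
        have e2 : 0 ≤ ε * r' := by positivity
        nlinarith only [hρ, e1, hz, e2]
      have hz2 : ‖y' + (ε * r') • z - y‖ ≤ 2 * ρ := by
        have e : y' + (ε * r') • z - y = (y' - y) + (ε * r') • z := by abel
        rw [e]
        refine (norm_add_le _ _).trans ?_
        linarith
      have e1 := grad_lip hT hC hJ hμ.fin hn y h1 h2 h1' h2' (x := y) (x' := y' + (ε * r') • z)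
        (by simp) (by linarith) (ρ := 2 * ρ) (by linarith) (by linarith) hz2
      have e2 := v_unit hT hC h1' h2' (x := y' + (ε * r') • z) (y := y) (by linarith)
      have hvp := hT.vpos (r := r') (by linarith) (y' + (ε * r') • z)
      have e3 : κ / 2 * vv μ 1 y ≤ ‖tang n (gradient (vv μ r') (y' + (ε * r') • z))‖ := by
        have e4 : LL d C * vv μ 1 y * (2 * ρ) ≤ κ / 2 * vv μ 1 y := by nlinarith only [hv0, hρ2]
        linarith
      rw [le_div_iff₀ hvp]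
      calc κ ^ 2 / (4 * (3 ^ d * Real.sqrt C)) * vv μ 1 y * vv μ r' (y' + (ε * r') • z) ≤
            κ ^ 2 / (4 * (3 ^ d * Real.sqrt C)) * vv μ 1 y * (3 ^ d * Real.sqrt C * vv μ 1 y) :=
            mul_le_mul_of_nonneg_left e2 (by positivity)
        _ = (κ / 2 * vv μ 1 y) ^ 2 := by field_simp; ring
        _ ≤ _ := pow_le_pow_left₀ (by positivity) e3 2)
  have h3 : 0 ≤ tav (X2 μ n) 1 y' := tav_nonneg (fun t y ht => X2_nonneg μ n ht y) y'
  have h4 : 0 ≤ tav (X3 β ε μ n) 1 y' := tav_nonneg (fun t y _ => X3_nonneg hβ ε μ n t y) y'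
  have h5 : cX d C κ * vv μ 1 y =
      ρ ^ 2 / 12 * (ρ ^ d * (κ ^ 2 / (4 * (3 ^ d * Real.sqrt C)) * vv μ 1 y)) := by
    unfold cX; rw [← hρe]; ring
  rw [h5]
  unfold XX
  linarith

end main

end INm

end

end TG


end

section

/-!
# Module IN (10.3), (10.4), part 2: scales, moments, the inversion
-/

open MeasureTheory Metric Set TrI Filter
open scoped InnerProductSpace ContDiff Topology

set_option linter.unusedSectionVars false

namespace TG

noncomputable section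

namespace INm

variable {d : ℕ}

/-! ## comparison of the potentials at the times 1 and t -/

lemma kk_le_t {t : ℝ} (ht : 1 ≤ t) (x : Sp d) : kk t x ≤ t * kk 1 x := by
  unfold kk
  have h1 : 0 < Real.sqrt (1 ^ 2 + ‖x‖ ^ 2) := Real.sqrt_pos.2 (by positivity)
  have h2 : Real.sqrt (1 ^ 2 + ‖x‖ ^ 2) ≤ Real.sqrt (t ^ 2 + ‖x‖ ^ 2) :=
    Real.sqrt_le_sqrt (by nlinarith)
  rw [mul_one_div]
  exact div_le_div_of_nonneg_left (by linarith) (by positivity)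
    (pow_le_pow_left₀ (Real.sqrt_nonneg _) h2 d)

lemma kk_one_le {t : ℝ} (ht : 1 ≤ t) (x : Sp d) : kk 1 x ≤ t ^ d * kk t x := by
  unfold kk
  have h1 : 0 < Real.sqrt (1 ^ 2 + ‖x‖ ^ 2) := Real.sqrt_pos.2 (by positivity)
  have h0 : 0 < Real.sqrt (t ^ 2 + ‖x‖ ^ 2) := Real.sqrt_pos.2 (by positivity)
  have h2 : Real.sqrt (t ^ 2 + ‖x‖ ^ 2) ≤ t * Real.sqrt (1 ^ 2 + ‖x‖ ^ 2) := by
    rw [Real.sqrt_le_left (by positivity), mul_pow, Real.sq_sqrt (by positivity)]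
    have : (1 : ℝ) ≤ t ^ 2 := by nlinarith
    nlinarith [sq_nonneg ‖x‖]
  rw [mul_div_assoc', div_le_div_iff₀ (by positivity) (by positivity), one_mul]
  calc Real.sqrt (t ^ 2 + ‖x‖ ^ 2) ^ d ≤ (t * Real.sqrt (1 ^ 2 + ‖x‖ ^ 2)) ^ d :=
        pow_le_pow_left₀ h0.le h2 d
    _ = t ^ d * 1 * Real.sqrt (1 ^ 2 + ‖x‖ ^ 2) ^ d := by rw [mul_pow]; ring
    _ ≤ t ^ d * t * Real.sqrt (1 ^ 2 + ‖x‖ ^ 2) ^ d := by gcongr

section cmp

variable (h : StmtTH) (hd : 2 ≤ d) {C' : ℝ} (hC' : 0 < C') {μ : Measure (Sp d)} (hμ : Gro C' μ)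

include h hd hC' hμ

lemma v_le_t {t : ℝ} (ht : 1 ≤ t) (y : Sp d) : vv μ t y ≤ Real.sqrt t * vv μ 1 y := by
  unfold vv
  rw [← Real.sqrt_mul (by linarith)]
  refine Real.sqrt_le_sqrt ?_
  unfold th
  rw [← integral_const_mul]
  exact integral_mono (MO.kk_int h hd hC' hμ (by linarith) y)
    ((MO.kk_int h hd hC' hμ one_pos y).const_mul t) fun η => kk_le_t ht _

lemma v_one_le {t : ℝ} (ht : 1 ≤ t) (y : Sp d) :
    vv μ 1 y ≤ Real.sqrt (t ^ d) * vv μ t y := by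
  unfold vv
  rw [← Real.sqrt_mul (by positivity)]
  refine Real.sqrt_le_sqrt ?_
  unfold th
  rw [← integral_const_mul]
  exact integral_mono (MO.kk_int h hd hC' hμ one_pos y)
    ((MO.kk_int h hd hC' hμ (by linarith) y).const_mul (t ^ d)) fun η => kk_one_le ht _

end cmp

lemma grad_scale {f g : Sp d → ℝ} {t : ℝ} {y : Sp d} (hf : DifferentiableAt ℝ f (t • y))
    (hg : ∀ x, g x = f (t • x)) : gradient g y = t • gradient f (t • y) := by
  have e : g = f ∘ fun x => t • x := funext hg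
  refine ext_inner_right ℝ fun w => ?_
  rw [GPx.grad_inner, inner_smul_left, GPx.grad_inner, e]
  have h1 : HasFDerivAt (fun x : Sp d => t • x) (t • ContinuousLinearMap.id ℝ (Sp d)) y :=
    (hasFDerivAt_id y).const_smul t
  have h2 := hf.hasFDerivAt.comp y h1
  rw [h2.fderiv]
  simp

section plane

variable (h : StmtTH) {k : ℕ} (hd : 2 ≤ k + 1) {C' : ℝ} (hC' : 0 < C')
  {μ : Measure (Sp (k + 1))} (hμ : Gro C' μ)

include h hd hC' hμ

/-- a large tangential gradient at a point of the plane gives a large plane integral -/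
lemma plane_grad {C : ℝ} (hC : 0 < C)
    (hTa : ∀ ν : Measure (Sp (k + 1)), Gro C' ν → MO.THd 2 C ν) {M : ℝ} {β : Sp (k + 1) → ℝ}
    (hβ : Kit 4 M β) {ε : ℝ} (hε : 0 < ε) (hε1 : ε ≤ 1 / 4) {n : Sp (k + 1)} (hn : ‖n‖ = 1)
    {s t : ℝ} (ht : 1 ≤ t) {R0 κ : ℝ} (hκ : 0 < κ) {y : Sp (k + 1)}
    (hy : ⟪n, y⟫_ℝ = s) (hyR : ‖y‖ ≤ 2 * R0 - 2) {r : ℝ} (h1 : t / 2 ≤ r) (h2 : r ≤ 2 * t)
    (hg : κ * vv μ t y ≤ t * ‖tang n (gradient (vv μ r) y)‖) :
    cX (k + 1) C κ * vv μ t y * UUm.vb k (rX (k + 1) C κ) ≤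
      plInt n s (fun x => zR (2 * R0 - 1) x * XX β ε μ n t x) := by
  have ht0 : 0 < t := by linarith
  have hr0 : 0 < r := by linarith
  have hT := hTa μ hμ
  have hP := pot_of hT hμ.fin
  obtain ⟨hG, -, hvv, -, hX⟩ := (stmtSC (k + 1) hd C' hC' 0 t ht0).1 μ hμ
  have hXX : ∀ y' : Sp (k + 1), XX β ε (rsm 0 t μ) n 1 y' = XX β ε μ n t (t • y') := by
    intro y'
    have := (hX 4 M β hβ (by norm_num) ε hε (by linarith) 1 y' one_pos).2.2.1 n
    rw [this, mul_one, zero_add]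
  have hv : ∀ (r' : ℝ) (y' : Sp (k + 1)), 0 < r' → vv (rsm 0 t μ) r' y' = vv μ (t * r') (t • y') := by
    intro r' y' hr'
    rw [hvv r' y' hr', zero_add]
  have hT' := hTa _ hG
  have hty : t • t⁻¹ • y = y := by rw [smul_smul, mul_inv_cancel₀ ht0.ne', one_smul]
  have hv1 : vv (rsm 0 t μ) 1 (t⁻¹ • y) = vv μ t y := by
    rw [hv 1 _ one_pos, mul_one, hty]
  have hgr : gradient (vv (rsm 0 t μ) (r / t)) (t⁻¹ • y) = t • gradient (vv μ r) y := by
    have e1 : ∀ x, vv (rsm 0 t μ) (r / t) x = vv μ r (t • x) := by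
      intro x
      rw [hv _ _ (by positivity)]
      congr 1
      field_simp
    have e2 := grad_scale (f := vv μ r) (g := vv (rsm 0 t μ) (r / t)) (t := t) (y := t⁻¹ • y)
      (((hP.smoothx hr0).differentiable (by simp)).differentiableAt) e1
    rw [hty] at e2
    exact e2
  have hgr2 : κ * vv (rsm 0 t μ) 1 (t⁻¹ • y) ≤
      ‖tang n (gradient (vv (rsm 0 t μ) (r / t)) (t⁻¹ • y))‖ := by
    rw [hv1, hgr, tang_smul, norm_smul, Real.norm_of_nonneg ht0.le]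
    exact hg
  have key : ∀ x : Sp (k + 1), ‖x - y‖ ≤ rX (k + 1) C κ →
      cX (k + 1) C κ * vv μ t y ≤ XX β ε μ n t x := by
    intro x hx
    have e1 := XX_low h hd hC' hG hC hT' le_rfl hβ hε hε1 hn (r := r / t)
      (by rw [le_div_iff₀ ht0]; linarith) (by rw [div_le_iff₀ ht0]; linarith only [h2])
      (y := t⁻¹ • y) (y' := t⁻¹ • x) hκ hgr2 (by
        rw [← smul_sub, norm_smul, norm_inv, Real.norm_of_nonneg ht0.le]
        have : t⁻¹ ≤ 1 := inv_le_one_of_one_le₀ ht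
        have h0 : 0 ≤ t⁻¹ := by positivity
        nlinarith only [hx, this, norm_nonneg (x - y)])
    rw [hv1, hXX, smul_smul, mul_inv_cancel₀ ht0.ne', one_smul] at e1
    exact e1
  obtain ⟨CW, -, hW⟩ := stmtWA h (k + 1) 0 hd M C' ε hC' hε (by linarith)
  have hcont : Continuous (XX β ε μ n t) := by
    have e1 := ((hW β hβ _ hG).2.2.2.2 n hn).1.continuous
    have e2 : XX β ε μ n t = fun x => XX β ε (rsm 0 t μ) n 1 (t⁻¹ • x) := by
      funext x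
      rw [hXX, smul_smul, mul_inv_cancel₀ ht0.ne', one_smul]
    rw [e2]
    exact e1.comp (by fun_prop)
  have hnn : ∀ x, 0 ≤ XX β ε μ n t x := by
    intro x
    have e1 := ((hW β hβ _ hG).2.2.2.2 n hn).2.1 (t⁻¹ • x)
    rw [hXX, smul_smul, mul_inv_cancel₀ ht0.ne', one_smul] at e1
    exact e1
  refine UUm.pl_lower k hn (F := fun x => zR (2 * R0 - 1) x * XX β ε μ n t x)
    ((UUm.zR_cont _).mul hcont) ((UUm.zR_cs _).mul_right)
    (fun x => mul_nonneg (UUm.zR_nonneg _ _) (hnn x)) hy fun x _ hxy => ?_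
  have hr14 : rX (k + 1) C κ ≤ 1 / 4 := min_le_left _ _
  have hx : ‖x‖ ≤ 2 * R0 - 1 := by
    have := norm_add_le (x - y) y
    rw [sub_add_cancel] at this
    linarith only [hyR, hxy, hr14, this]
  rw [UUm.zR_one hx, one_mul]
  exact key x hxy

/-- the constant of the smallness of the plane integrals -/
def cP (k : ℕ) (C R0 T κ : ℝ) : ℝ :=
  cX (k + 1) C κ * UUm.vb k (rX (k + 1) C κ) / (2 * (UUm.Cv (k + 1) C R0 * Real.sqrt (T ^ (k + 1))))

omit h hd hC' hμ in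
lemma Cv_pos {C R0 : ℝ} (hC : 0 < C) (hR0 : 0 < R0) : 0 < UUm.Cv (k + 1) C R0 := by
  unfold UUm.Cv
  have := Real.sqrt_pos.2 hC
  positivity

omit h hd hC' hμ in
lemma cP_pos {C R0 T κ : ℝ} (hC : 0 < C) (hR0 : 0 < R0) (hT : 1 ≤ T) (hκ : 0 < κ) :
    0 < cP k C R0 T κ := by
  unfold cP
  have h1 := cX_pos (d := k + 1) hC hκ
  have h2 := UUm.vb_pos k (rX_pos (d := k + 1) hC hκ)
  have h3 := Cv_pos (k := k) hC hR0
  have h4 : 0 < Real.sqrt (T ^ (k + 1)) := Real.sqrt_pos.2 (by positivity)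
  positivity

/-- small plane integrals give small tangential gradients on the plane -/
lemma plane_small {C : ℝ} (hC : 0 < C)
    (hTa : ∀ ν : Measure (Sp (k + 1)), Gro C' ν → MO.THd 2 C ν) {M : ℝ} {β : Sp (k + 1) → ℝ}
    (hβ : Kit 4 M β) {ε : ℝ} (hε : 0 < ε) (hε1 : ε ≤ 1 / 4) {n : Sp (k + 1)} (hn : ‖n‖ = 1)
    {s t T : ℝ} (ht : 1 ≤ t) (htT : t ≤ T) {R0 κ : ℝ} (hR0 : 32 ≤ R0) (hκ : 0 < κ)
    (hpl : plInt n s (fun x => zR (2 * R0 - 1) x * XX β ε μ n t x) ≤ cP k C R0 T κ * vv μ 1 0)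
    {y : Sp (k + 1)} (hy : ⟪n, y⟫_ℝ = s) (hyR : ‖y‖ ≤ 2 * R0 - 2) {r : ℝ} (h1 : t / 2 ≤ r)
    (h2 : r ≤ 2 * t) :
    ‖tang n (gradient (vv μ r) y)‖ ≤ κ * (Real.sqrt T * UUm.Cv (k + 1) C R0) * vv μ 1 0 := by
  by_contra hc
  push Not at hc
  have ht0 : 0 < t := by linarith
  have hT := hTa μ hμ
  have hv0 := hT.vpos one_pos (0 : Sp (k + 1))
  have hCv := Cv_pos (k := k) hC (by linarith only [hR0] : 0 < R0)
  have e1 := v_le_t h hd hC' hμ ht y
  have e2 := v_one_le h hd hC' hμ ht y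
  have e3 := UUm.v_cmp (μ := μ) hC (thd_mono hT (by norm_num)) (R0 := R0) (by linarith) (r := 1)
    (by norm_num) (by norm_num) (y := y) (by linarith)
  have e4 : Real.sqrt t ≤ Real.sqrt T := Real.sqrt_le_sqrt htT
  have e5 : Real.sqrt (t ^ (k + 1)) ≤ Real.sqrt (T ^ (k + 1)) :=
    Real.sqrt_le_sqrt (pow_le_pow_left₀ ht0.le htT _)
  have hvt := hT.vpos ht0 y
  have hv1 := hT.vpos one_pos y
  have e6 : vv μ t y ≤ Real.sqrt T * UUm.Cv (k + 1) C R0 * vv μ 1 0 := by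
    calc vv μ t y ≤ Real.sqrt t * vv μ 1 y := e1
      _ ≤ Real.sqrt T * (UUm.Cv (k + 1) C R0 * vv μ 1 0) :=
          mul_le_mul e4 e3.1 hv1.le (Real.sqrt_nonneg _)
      _ = _ := by ring
  have e7 : κ * vv μ t y ≤ t * ‖tang n (gradient (vv μ r) y)‖ := by
    have a1 : κ * vv μ t y ≤ κ * (Real.sqrt T * UUm.Cv (k + 1) C R0 * vv μ 1 0) :=
      mul_le_mul_of_nonneg_left e6 hκ.le
    have a2 : ‖tang n (gradient (vv μ r) y)‖ ≤ t * ‖tang n (gradient (vv μ r) y)‖ := by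
      nlinarith only [ht, norm_nonneg (tang n (gradient (vv μ r) y))]
    linarith
  have e8 := plane_grad h hd hC' hμ hC hTa hβ hε hε1 hn ht hκ hy hyR h1 h2 e7
  have e9 : vv μ 1 0 ≤ UUm.Cv (k + 1) C R0 * Real.sqrt (T ^ (k + 1)) * vv μ t y := by
    calc vv μ 1 0 ≤ UUm.Cv (k + 1) C R0 * vv μ 1 y := e3.2
      _ ≤ UUm.Cv (k + 1) C R0 * (Real.sqrt (T ^ (k + 1)) * vv μ t y) :=
          mul_le_mul_of_nonneg_left (e2.trans (mul_le_mul_of_nonneg_right e5 hvt.le)) hCv.le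
      _ = _ := by ring
  have hcX := cX_pos (d := k + 1) hC hκ
  have hvb := UUm.vb_pos k (rX_pos (d := k + 1) hC hκ)
  have hTs : 0 < Real.sqrt (T ^ (k + 1)) := Real.sqrt_pos.2 (pow_pos (by linarith) _)
  have e10 : cP k C R0 T κ * vv μ 1 0 ≤
      cX (k + 1) C κ * vv μ t y * UUm.vb k (rX (k + 1) C κ) / 2 := by
    unfold cP
    rw [div_mul_eq_mul_div, div_le_div_iff₀ (by positivity) (by norm_num)]
    have a1 := mul_le_mul_of_nonneg_left e9
      (by positivity : 0 ≤ cX (k + 1) C κ * UUm.vb k (rX (k + 1) C κ) * 2)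
    nlinarith
  have e11 : 0 < cX (k + 1) C κ * vv μ t y * UUm.vb k (rX (k + 1) C κ) := by positivity
  linarith

/-- the second moment is small in the ball -/
lemma mo2_small {M : ℝ} {β : Sp (k + 1) → ℝ}
    (hβ : Kit 4 M β) {ε : ℝ} (hε : 0 < ε) (hε1 : ε ≤ 1 / 4) {n : Sp (k + 1)} (hn : ‖n‖ = 1)
    {s : ℝ} {R0 : ℝ} (hR0 : 32 ≤ R0) (hs : |s| ≤ 3 / 2 * R0) {CM : ℝ} (hCM : 0 < CM)
    (hMO : ∀ y y', tav (Mo μ n s 2) 1 y' ≤
      CM * (1 + ‖y - y'‖) ^ (2 * (k + 1) + 4) * tav (Mo μ n s 2) 1 y) {i0 : ℝ}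
    (hpl : plInt n s (fun x => zR (2 * R0 - 1) x * XX β ε μ n 1 x) ≤ i0 * vv μ 1 0)
    {x : Sp (k + 1)} (hx : ‖x‖ ≤ 2 * R0) :
    tav (Mo μ n s 2) 1 x ≤
      CM * (1 + 4 * R0) ^ (2 * (k + 1) + 4) / UUm.vb k 1 * (i0 * vv μ 1 0) := by
  have hx0 : ⟪n, s • n⟫_ℝ = s := by
    rw [inner_smul_right, real_inner_self_eq_norm_sq, hn]; ring
  obtain ⟨CW, -, hW⟩ := stmtWA h (k + 1) 0 hd M C' ε hC' hε (by linarith)
  have hcont := ((hW β hβ μ hμ).2.2.2.2 n hn).1.continuous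
  have hnn := ((hW β hβ μ hμ).2.2.2.2 n hn).2.1
  set B : ℝ := CM * (1 + 4 * R0) ^ (2 * (k + 1) + 4) with hB
  have hB0 : 0 < B := by positivity
  have hlow := UUm.pl_lower k hn (s := s) (F := fun x => zR (2 * R0 - 1) x * XX β ε μ n 1 x)
    ((UUm.zR_cont _).mul hcont) ((UUm.zR_cs _).mul_right)
    (fun x => mul_nonneg (UUm.zR_nonneg _ _) (hnn x))
    (x := s • n) hx0 (r := 1) (κ := tav (Mo μ n s 2) 1 x / B)
    (fun z hz hzx => by
      have hzn : ‖z‖ ≤ 3 / 2 * R0 + 1 := by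
        have h1 : ‖s • n‖ = |s| := by rw [norm_smul, hn, mul_one, Real.norm_eq_abs]
        have h2 := norm_add_le (z - s • n) (s • n)
        rw [sub_add_cancel, h1] at h2
        linarith
      rw [UUm.zR_one (by linarith), one_mul, div_le_iff₀ hB0]
      have h1 := MO.tavX2 h hd hC' hμ n hn s z
      rw [real_inner_comm n z, hz, sub_self] at h1
      have h2 : tav (Mo μ n s 2) 1 z = tav (X2 μ n) 1 z := by rw [h1]; ring
      have h3 : 0 ≤ tav (X1 β ε μ n) 1 z := tav_nonneg (fun t y _ => X1_nonneg hβ ε μ n t y) z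
      have h4 : 0 ≤ tav (X3 β ε μ n) 1 z := tav_nonneg (fun t y _ => X3_nonneg hβ ε μ n t y) z
      have h5 : tav (Mo μ n s 2) 1 z ≤ XX β ε μ n 1 z := by rw [h2]; unfold XX; linarith
      have h6 : 0 ≤ tav (Mo μ n s 2) 1 z := by
        rw [h2]; exact tav_nonneg (fun t y ht => X2_nonneg μ n ht y) z
      have h7 : (1 + ‖z - x‖) ^ (2 * (k + 1) + 4) ≤ (1 + 4 * R0) ^ (2 * (k + 1) + 4) := by
        refine pow_le_pow_left₀ (by positivity) ?_ _
        have := norm_sub_le z x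
        linarith only [hR0, hx, hzn, this]
      calc tav (Mo μ n s 2) 1 x ≤ CM * (1 + ‖z - x‖) ^ (2 * (k + 1) + 4) * tav (Mo μ n s 2) 1 z :=
            hMO z x
        _ ≤ B * tav (Mo μ n s 2) 1 z := by
            refine mul_le_mul_of_nonneg_right ?_ h6
            exact mul_le_mul_of_nonneg_left h7 hCM.le
        _ ≤ B * XX β ε μ n 1 z := mul_le_mul_of_nonneg_left h5 hB0.le
        _ = _ := mul_comm _ _)
  have hvb := UUm.vb_pos k one_pos
  have h8 := hlow.trans hpl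
  rw [div_mul_eq_mul_div, div_le_iff₀ hB0] at h8
  rw [div_mul_eq_mul_div, le_div_iff₀ hvb]
  linarith

/-- the near part of the measure is near the plane -/
lemma height_le {C : ℝ} (hC : 0 < C) (hT : MO.THd 2 C μ) {n : Sp (k + 1)} (hn : ‖n‖ = 1)
    {s : ℝ} {x : Sp (k + 1)} {A CB : ℝ} (hA : 0 < A) (hCB : 0 < CB)
    (hnear : vv μ 1 x ^ 2 ≤ CB * (μ (ball x A)).toReal)
    (hsm : 4 ^ (k + 1 + 5) * Real.sqrt C * tav (Mo μ n s 2) 1 x <
      UUm.T0 / (1 + A) ^ (k + 1 + 4) / CB * vv μ 1 x) :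
    |⟪n, x⟫_ℝ - s| ≤ A + 1 := by
  by_contra hc
  push Not at hc
  have := hμ.fin
  have hT0 := UUm.T0_pos
  have hvx := hT.vpos one_pos x
  have im := UUm.int_h2 h hd hC' hμ hn s x
  have e1 : (∫ η in ball x A, MO.ht n s η ^ 2 * MO.K 1 (x - η) ∂μ) ≤
      UUm.EE μ (fun η => MO.ht n s η ^ 2) x := by
    unfold UUm.EE
    exact setIntegral_le_integral im
      (Eventually.of_forall fun η => mul_nonneg (sq_nonneg _) (MO.K_pos one_pos _).le)
  have e2 : (∫ _η in ball x A, 1 / (1 + A) ^ (k + 1 + 4) ∂μ) =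
      1 / (1 + A) ^ (k + 1 + 4) * (μ (ball x A)).toReal := by
    rw [setIntegral_const, smul_eq_mul, Measure.real, mul_comm]
  have e3 : (∫ _η in ball x A, 1 / (1 + A) ^ (k + 1 + 4) ∂μ) ≤
      ∫ η in ball x A, MO.ht n s η ^ 2 * MO.K 1 (x - η) ∂μ := by
    refine setIntegral_mono_on (integrable_const _).integrableOn im.integrableOn
      measurableSet_ball fun η hη => ?_
    have hη' : ‖η - x‖ < A := by rw [← dist_eq_norm]; exact hη
    have h2 : 1 ≤ MO.ht n s η ^ 2 := by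
      have a1 : MO.ht n s η = (⟪n, x⟫_ℝ - s) - ⟪n, x - η⟫_ℝ := by
        unfold MO.ht
        rw [inner_sub_right, real_inner_comm η n]; ring
      have a2 : |⟪n, x - η⟫_ℝ| ≤ A := by
        refine (abs_real_inner_le_norm _ _).trans ?_
        rw [hn, one_mul, norm_sub_rev]
        exact hη'.le
      have a3 : 1 ≤ |MO.ht n s η| := by
        rw [a1]
        have := abs_sub_abs_le_abs_sub (⟪n, x⟫_ℝ - s) ⟪n, x - η⟫_ℝ
        linarith
      rw [← sq_abs]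
      nlinarith only [a3]
    have h3 : 1 / (1 + A) ^ (k + 1 + 4) ≤ MO.K 1 (x - η) := by
      rw [MO.K_eq]
      have hR := MO.R_pos one_pos (x - η)
      have hR2 : MO.R 1 (x - η) ≤ 1 + A := by
        unfold MO.R
        rw [Real.sqrt_le_left (by linarith)]
        have : ‖x - η‖ < A := by rw [norm_sub_rev]; exact hη'
        nlinarith only [this, norm_nonneg (x - η)]
      gcongr
    calc 1 / (1 + A) ^ (k + 1 + 4) = 1 * (1 / (1 + A) ^ (k + 1 + 4)) := by ring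
      _ ≤ MO.ht n s η ^ 2 * MO.K 1 (x - η) := mul_le_mul h2 h3 (by positivity) (sq_nonneg _)
  have e4 := UUm.EE_le_tav h hd hC' hμ hC hT hn s x
  have e5 : 1 / (1 + A) ^ (k + 1 + 4) * (μ (ball x A)).toReal ≤
      UUm.EE μ (fun η => MO.ht n s η ^ 2) x := by rw [← e2]; exact e3.trans e1
  have hA4 : 0 < (1 + A) ^ (k + 1 + 4) := by positivity
  have e6 : UUm.T0 / (1 + A) ^ (k + 1 + 4) / CB * vv μ 1 x * vv μ 1 x ≤
      4 ^ (k + 1 + 5) * Real.sqrt C * tav (Mo μ n s 2) 1 x * vv μ 1 x := by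
    calc UUm.T0 / (1 + A) ^ (k + 1 + 4) / CB * vv μ 1 x * vv μ 1 x =
          UUm.T0 / (1 + A) ^ (k + 1 + 4) / CB * vv μ 1 x ^ 2 := by ring
      _ ≤ UUm.T0 / (1 + A) ^ (k + 1 + 4) / CB * (CB * (μ (ball x A)).toReal) :=
          mul_le_mul_of_nonneg_left hnear (by positivity)
      _ = UUm.T0 * (1 / (1 + A) ^ (k + 1 + 4) * (μ (ball x A)).toReal) := by field_simp
      _ ≤ UUm.T0 * UUm.EE μ (fun η => MO.ht n s η ^ 2) x :=
          mul_le_mul_of_nonneg_left e5 hT0.le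
      _ ≤ 4 ^ (k + 1 + 5) * Real.sqrt C * vv μ 1 x * tav (Mo μ n s 2) 1 x := e4
      _ = _ := by ring
  have e7 := mul_lt_mul_of_pos_right hsm hvx
  linarith

end plane

end INm

end

end TG


end

section

/-!
# Module IN (10.3), (10.4), part 3: the inversion
-/

open MeasureTheory Metric Set TrI Filter
open scoped InnerProductSpace ContDiff Topology

set_option linter.unusedSectionVars false

namespace TG

noncomputable section

namespace INm

variable {d : ℕ}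

/-- the squared distances -/
lemma inv_sq {n : Sp d} (hn : ‖n‖ = 1) (x : Sp d) {s z : ℝ} (hz : z = ⟪n, x⟫_ℝ - s) (t : ℝ)
    (η : Sp d) : (t ^ 2 + z ^ 2) + ‖(x - z • n) - η‖ ^ 2 =
      t ^ 2 + ‖x - η‖ ^ 2 + 2 * z * MO.ht n s η := by
  have e1 : (x - z • n) - η = (x - η) - z • n := by abel
  rw [e1, norm_sub_sq_real, norm_smul, hn, mul_one, Real.norm_eq_abs, sq_abs, inner_smul_right,
    inner_sub_left]
  unfold MO.ht
  rw [real_inner_comm n x]
  have e2 : ⟪n, x⟫_ℝ = z + s := by rw [hz]; ring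
  rw [e2]
  ring

lemma inv_sqrt {n : Sp d} (hn : ‖n‖ = 1) (x : Sp d) (z t : ℝ) (η : Sp d) :
    Real.sqrt (t ^ 2 + ‖x - η‖ ^ 2) / 3 ≤
      Real.sqrt ((t ^ 2 + z ^ 2) + ‖(x - z • n) - η‖ ^ 2) := by
  have e1 : ‖x - η‖ ≤ ‖(x - z • n) - η‖ + |z| := by
    have e2 : x - η = ((x - z • n) - η) + z • n := by abel
    calc ‖x - η‖ = ‖((x - z • n) - η) + z • n‖ := by rw [← e2]
      _ ≤ ‖(x - z • n) - η‖ + ‖z • n‖ := norm_add_le _ _
      _ = _ := by rw [norm_smul, hn, mul_one, Real.norm_eq_abs]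
  have e3 : ‖x - η‖ ^ 2 ≤ (‖(x - z • n) - η‖ + |z|) ^ 2 := pow_le_pow_left₀ (norm_nonneg _) e1 2
  rw [div_le_iff₀ (by norm_num)]
  rw [Real.sqrt_le_left (by positivity), mul_pow, Real.sq_sqrt (by positivity)]
  have e4 := sq_abs z
  nlinarith [sq_nonneg (‖(x - z • n) - η‖ - |z|), sq_nonneg t, sq_nonneg ‖(x - z • n) - η‖]

lemma int_lin {μ : Measure (Sp d)} (hP : GPx.Pot μ) {q : ℝ} (hq : 0 < q) (x w : Sp d) :
    Integrable (fun η => ⟪x - η, w⟫_ℝ * GPx.ip (d + 2) (q + ‖x - η‖ ^ 2)) μ := by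
  have := hP.fin
  have hq0 : 0 < Real.sqrt q := Real.sqrt_pos.2 hq
  have i1 := hP.int_ip hq0 (d + 1) x
  rw [Real.sq_sqrt hq.le] at i1
  have hc : Continuous (fun η : Sp d => ⟪x - η, w⟫_ℝ * GPx.ip (d + 2) (q + ‖x - η‖ ^ 2)) := by
    have h1 := GPx.continuous_ipx hq0 (d + 2) x
    rw [Real.sq_sqrt hq.le] at h1
    exact (by fun_prop : Continuous (fun η : Sp d => ⟪x - η, w⟫_ℝ)).mul h1
  refine Integrable.mono' (i1.const_mul ‖w‖) hc.aestronglyMeasurable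
    (Eventually.of_forall fun η => ?_)
  have hpos : 0 < q + ‖x - η‖ ^ 2 := by positivity
  rw [norm_mul, Real.norm_eq_abs, Real.norm_of_nonneg (GPx.ip_nonneg _ _)]
  have e1 := abs_real_inner_le_norm (x - η) w
  have e2 : ‖x - η‖ ≤ Real.sqrt (q + ‖x - η‖ ^ 2) := Real.le_sqrt_of_sq_le (by linarith)
  have e3 := GPx.ip_succ (d + 1) hpos
  have e4 := GPx.ip_nonneg (d + 2) (q + ‖x - η‖ ^ 2)
  calc |⟪x - η, w⟫_ℝ| * GPx.ip (d + 2) (q + ‖x - η‖ ^ 2) ≤
        (Real.sqrt (q + ‖x - η‖ ^ 2) * ‖w‖) * GPx.ip (d + 2) (q + ‖x - η‖ ^ 2) := by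
        refine mul_le_mul_of_nonneg_right (e1.trans ?_) e4
        exact mul_le_mul_of_nonneg_right e2 (norm_nonneg _)
    _ = ‖w‖ * (Real.sqrt (q + ‖x - η‖ ^ 2) * GPx.ip (d + 2) (q + ‖x - η‖ ^ 2)) := by ring
    _ = _ := by rw [show d + 2 = d + 1 + 1 from rfl, e3]

/-- the constant of the inversion -/
def KI (d : ℕ) : ℝ := (d + 2) * 4 * 3 ^ (d + 4)

lemma KI_pos : 0 < KI d := by unfold KI; positivity

section main

variable (h : StmtTH) (hd : 2 ≤ d) {C' : ℝ} (hC' : 0 < C') {μ : Measure (Sp d)} (hμ : Gro C' μ)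

include h hd hC' hμ

lemma inv_diff (hP : GPx.Pot μ) {n x : Sp d} (hn : ‖n‖ = 1) {s t : ℝ} (h1 : 1 / 2 ≤ t)
    (h2 : t ≤ 2) {w : Sp d} (hw : ⟪n, w⟫_ℝ = 0) (hw1 : ‖w‖ ≤ 1) {z : ℝ} (hz : z = ⟪n, x⟫_ℝ - s)
    {θ : ℝ} (hθ : 0 < θ) :
    |(∫ η, ⟪x - η, w⟫_ℝ * GPx.ip (d + 2) (t ^ 2 + ‖x - η‖ ^ 2) ∂μ) -
      ∫ η, ⟪(x - z • n) - η, w⟫_ℝ *
        GPx.ip (d + 2) ((t ^ 2 + z ^ 2) + ‖(x - z • n) - η‖ ^ 2) ∂μ| ≤
      KI d * |z| * (θ * vv μ t x ^ 2 +
        4 ^ (d + 5) / θ * UUm.EE μ (fun η => MO.ht n s η ^ 2) x) := by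
  have ht : 0 < t := by linarith
  have := hP.fin
  have iA := int_lin hP (q := t ^ 2) (by positivity) x w
  have iB := int_lin hP (q := t ^ 2 + z ^ 2) (by positivity) (x - z • n) w
  have i0 := hP.int_ip ht d x
  have ih := UUm.int_h2 h hd hC' hμ hn s x
  have hm4c : Continuous (fun η => MO.ht n s η ^ 2 * GPx.ip (d + 4) (t ^ 2 + ‖x - η‖ ^ 2)) :=
    ((MO.ht_cont n s).pow 2).mul (GPx.continuous_ipx ht _ x)
  have i4 : Integrable (fun η => MO.ht n s η ^ 2 * GPx.ip (d + 4) (t ^ 2 + ‖x - η‖ ^ 2)) μ := by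
    refine Integrable.mono' (ih.const_mul (2 * 4 ^ (d + 5))) hm4c.aestronglyMeasurable
      (Eventually.of_forall fun η => ?_)
    rw [Real.norm_of_nonneg (mul_nonneg (sq_nonneg _) (GPx.ip_nonneg _ _))]
    have := UUm.ip4_le h1 h2 (x - η)
    nlinarith only [this]
  rw [← integral_sub iA iB]
  have hpt : ∀ η, ‖⟪x - η, w⟫_ℝ * GPx.ip (d + 2) (t ^ 2 + ‖x - η‖ ^ 2) -
      ⟪(x - z • n) - η, w⟫_ℝ * GPx.ip (d + 2) ((t ^ 2 + z ^ 2) + ‖(x - z • n) - η‖ ^ 2)‖ ≤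
      KI d * |z| * (θ / 2 * GPx.ip d (t ^ 2 + ‖x - η‖ ^ 2) +
        1 / (2 * θ) * (MO.ht n s η ^ 2 * GPx.ip (d + 4) (t ^ 2 + ‖x - η‖ ^ 2))) := by
    intro η
    have e0 : ⟪(x - z • n) - η, w⟫_ℝ = ⟪x - η, w⟫_ℝ := by
      have : (x - z • n) - η = (x - η) - z • n := by abel
      rw [this, inner_sub_left, inner_smul_left, hw, mul_zero, sub_zero]
    have ha : 0 < t ^ 2 + ‖x - η‖ ^ 2 := by positivity
    have hsa : 0 < Real.sqrt (t ^ 2 + ‖x - η‖ ^ 2) := Real.sqrt_pos.2 ha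
    have e1 := GPx.ip_diff (q := Real.sqrt (t ^ 2 + ‖x - η‖ ^ 2) / 3) (by positivity)
      (A := t ^ 2 + ‖x - η‖ ^ 2) (B := (t ^ 2 + z ^ 2) + ‖(x - z • n) - η‖ ^ 2)
      (by linarith) (inv_sqrt hn x z t η) (d + 2)
    have e2 : |t ^ 2 + ‖x - η‖ ^ 2 - ((t ^ 2 + z ^ 2) + ‖(x - z • n) - η‖ ^ 2)| =
        2 * |z| * |MO.ht n s η| := by
      rw [inv_sq hn x hz t η]
      rw [show t ^ 2 + ‖x - η‖ ^ 2 - (t ^ 2 + ‖x - η‖ ^ 2 + 2 * z * MO.ht n s η) =
        -(2 * z * MO.ht n s η) by ring, abs_neg, abs_mul, abs_mul]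
      norm_num
    have e3 : ((Real.sqrt (t ^ 2 + ‖x - η‖ ^ 2) / 3) ^ (d + 2 + 2))⁻¹ =
        3 ^ (d + 4) * GPx.ip (d + 4) (t ^ 2 + ‖x - η‖ ^ 2) := by
      unfold GPx.ip
      rw [div_pow, inv_div, div_eq_mul_inv]
    rw [e2, e3] at e1
    have e4 : |⟪x - η, w⟫_ℝ| ≤ Real.sqrt (t ^ 2 + ‖x - η‖ ^ 2) := by
      refine (abs_real_inner_le_norm _ _).trans ?_
      have a1 : ‖x - η‖ ≤ Real.sqrt (t ^ 2 + ‖x - η‖ ^ 2) :=
        Real.le_sqrt_of_sq_le (by linarith only [sq_nonneg t])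
      nlinarith only [a1, hw1, norm_nonneg (x - η)]
    have e5 := GPx.ip_succ (d + 3) ha
    have e6 := GPx.ip_succ (d + 2) ha
    have e7 : t ≤ Real.sqrt (t ^ 2 + ‖x - η‖ ^ 2) := GPx.sqrt_ge _
    have n3 := GPx.ip_nonneg (d + 3) (t ^ 2 + ‖x - η‖ ^ 2)
    have n4 := GPx.ip_nonneg (d + 4) (t ^ 2 + ‖x - η‖ ^ 2)
    have e8 : GPx.ip (d + 3) (t ^ 2 + ‖x - η‖ ^ 2) ≤ 2 * GPx.ip (d + 2) (t ^ 2 + ‖x - η‖ ^ 2) := by
      have a1 : d + 2 + 1 = d + 3 := rfl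
      rw [a1] at e6
      nlinarith only [e6, h1, n3, e7]
    have e9 := UUm.amgm (k := d) (m := MO.ht n s η) ha hθ
    have hz0 := abs_nonneg z
    have hh0 := abs_nonneg (MO.ht n s η)
    rw [e0, ← mul_sub, norm_mul, Real.norm_eq_abs, Real.norm_eq_abs]
    calc |⟪x - η, w⟫_ℝ| * |GPx.ip (d + 2) (t ^ 2 + ‖x - η‖ ^ 2) -
          GPx.ip (d + 2) ((t ^ 2 + z ^ 2) + ‖(x - z • n) - η‖ ^ 2)| ≤
          Real.sqrt (t ^ 2 + ‖x - η‖ ^ 2) * (((d + 2 : ℕ) : ℝ) * (2 * |z| * |MO.ht n s η|) *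
            (3 ^ (d + 4) * GPx.ip (d + 4) (t ^ 2 + ‖x - η‖ ^ 2))) :=
          mul_le_mul e4 e1 (abs_nonneg _) hsa.le
      _ = (d + 2) * 2 * 3 ^ (d + 4) * |z| * |MO.ht n s η| *
            (Real.sqrt (t ^ 2 + ‖x - η‖ ^ 2) * GPx.ip (d + 3 + 1) (t ^ 2 + ‖x - η‖ ^ 2)) := by
          push_cast; ring
      _ = (d + 2) * 2 * 3 ^ (d + 4) * |z| * |MO.ht n s η| *
            GPx.ip (d + 3) (t ^ 2 + ‖x - η‖ ^ 2) := by rw [e5]
      _ ≤ (d + 2) * 2 * 3 ^ (d + 4) * |z| * |MO.ht n s η| *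
            (2 * GPx.ip (d + 2) (t ^ 2 + ‖x - η‖ ^ 2)) :=
          mul_le_mul_of_nonneg_left e8 (by (clear * - hd; positivity))
      _ = KI d * |z| * (|MO.ht n s η| * GPx.ip (d + 2) (t ^ 2 + ‖x - η‖ ^ 2)) := by
          unfold KI; ring
      _ ≤ _ := mul_le_mul_of_nonneg_left e9 (mul_nonneg KI_pos.le hz0)
  rw [← Real.norm_eq_abs]
  refine (norm_integral_le_integral_norm _).trans ?_
  have iR : Integrable (fun η => KI d * |z| * (θ / 2 * GPx.ip d (t ^ 2 + ‖x - η‖ ^ 2) +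
        1 / (2 * θ) * (MO.ht n s η ^ 2 * GPx.ip (d + 4) (t ^ 2 + ‖x - η‖ ^ 2)))) μ :=
    ((i0.const_mul _).add (i4.const_mul _)).const_mul _
  refine (integral_mono (iA.sub iB).norm iR hpt).trans ?_
  rw [integral_const_mul, integral_add (i0.const_mul _) (i4.const_mul _), integral_const_mul,
    integral_const_mul]
  refine mul_le_mul_of_nonneg_left ?_ (mul_nonneg KI_pos.le (abs_nonneg z))
  have f1 : (∫ η, GPx.ip d (t ^ 2 + ‖x - η‖ ^ 2) ∂μ) ≤ 2 * vv μ t x ^ 2 := by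
    have e1 := GPx.th_eq (μ := μ) (t := t) x
    rw [hP.vsq ht, e1]
    have e2 : 0 ≤ ∫ η, GPx.ip d (t ^ 2 + ‖x - η‖ ^ 2) ∂μ :=
      integral_nonneg fun η => GPx.ip_nonneg _ _
    nlinarith only [h1, e2]
  have f2 : (∫ η, MO.ht n s η ^ 2 * GPx.ip (d + 4) (t ^ 2 + ‖x - η‖ ^ 2) ∂μ) ≤
      2 * 4 ^ (d + 5) * UUm.EE μ (fun η => MO.ht n s η ^ 2) x := by
    unfold UUm.EE
    rw [← integral_const_mul]
    refine integral_mono i4 (ih.const_mul _) fun η => ?_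
    have := UUm.ip4_le h1 h2 (x - η)
    calc MO.ht n s η ^ 2 * GPx.ip (d + 4) (t ^ 2 + ‖x - η‖ ^ 2) ≤
          MO.ht n s η ^ 2 * (2 * 4 ^ (d + 5) * MO.K 1 (x - η)) :=
          mul_le_mul_of_nonneg_left this (sq_nonneg _)
      _ = _ := by ring
  have g1 : θ / 2 * (∫ η, GPx.ip d (t ^ 2 + ‖x - η‖ ^ 2) ∂μ) ≤ θ * vv μ t x ^ 2 := by
    calc _ ≤ θ / 2 * (2 * vv μ t x ^ 2) := mul_le_mul_of_nonneg_left f1 (by positivity)
      _ = _ := by ring
  have g2 : 1 / (2 * θ) * (∫ η, MO.ht n s η ^ 2 * GPx.ip (d + 4) (t ^ 2 + ‖x - η‖ ^ 2) ∂μ) ≤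
      4 ^ (d + 5) / θ * UUm.EE μ (fun η => MO.ht n s η ^ 2) x := by
    calc _ ≤ 1 / (2 * θ) * (2 * 4 ^ (d + 5) * UUm.EE μ (fun η => MO.ht n s η ^ 2) x) :=
          mul_le_mul_of_nonneg_left f2 (by positivity)
      _ = _ := by field_simp
  exact add_le_add g1 g2

/-- the inversion -/
lemma inv_step (hP : GPx.Pot μ) {n x : Sp d} (hn : ‖n‖ = 1) {s t : ℝ} (h1 : 1 / 2 ≤ t)
    (h2 : t ≤ 2) {w : Sp d} (hw : ⟪n, w⟫_ℝ = 0) (hw1 : ‖w‖ ≤ 1) {z : ℝ} (hz : z = ⟪n, x⟫_ℝ - s)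
    {θ : ℝ} (hθ : 0 < θ) :
    vv μ t x * |fderiv ℝ (vv μ t) x w| ≤
      vv μ (Real.sqrt (t ^ 2 + z ^ 2)) (x - z • n) *
        |fderiv ℝ (vv μ (Real.sqrt (t ^ 2 + z ^ 2))) (x - z • n) w| +
      d * (KI d * |z| * (θ * vv μ t x ^ 2 +
        4 ^ (d + 5) / θ * UUm.EE μ (fun η => MO.ht n s η ^ 2) x)) := by
  have ht : 0 < t := by linarith
  have hs0 : 0 < Real.sqrt (t ^ 2 + z ^ 2) := Real.sqrt_pos.2 (by positivity)
  have hts : t ≤ Real.sqrt (t ^ 2 + z ^ 2) := Real.le_sqrt_of_sq_le (by linarith only [sq_nonneg z])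
  have k1 := UUm.deriv_th hP ht x w
  have k2 := UUm.deriv_th hP hs0 (x - z • n) w
  rw [Real.sq_sqrt (by positivity)] at k2
  have k3 := inv_diff h hd hC' hμ hP hn h1 h2 hw hw1 hz hθ
  set D1 := ∫ η, ⟪x - η, w⟫_ℝ * GPx.ip (d + 2) (t ^ 2 + ‖x - η‖ ^ 2) ∂μ with hD1
  set D2 := ∫ η, ⟪(x - z • n) - η, w⟫_ℝ *
        GPx.ip (d + 2) ((t ^ 2 + z ^ 2) + ‖(x - z • n) - η‖ ^ 2) ∂μ with hD2
  set sg := Real.sqrt (t ^ 2 + z ^ 2) with hsg
  set E := KI d * |z| * (θ * vv μ t x ^ 2 +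
        4 ^ (d + 5) / θ * UUm.EE μ (fun η => MO.ht n s η ^ 2) x) with hE
  have hv1 := (hP.vpos ht x).le
  have hv2 := (hP.vpos hs0 (x - z • n)).le
  have hd0 : (0 : ℝ) ≤ d := Nat.cast_nonneg d
  have a1 : 2 * (vv μ t x * |fderiv ℝ (vv μ t) x w|) = d * t * |D1| := by
    have : |2 * vv μ t x * fderiv ℝ (vv μ t) x w| = d * t * |D1| := by
      rw [k1, abs_neg, abs_mul, abs_of_nonneg (by positivity)]
    rw [← this, abs_mul, abs_of_nonneg (show 0 ≤ 2 * vv μ t x by positivity)]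
    ring
  have a2 : 2 * (vv μ sg (x - z • n) * |fderiv ℝ (vv μ sg) (x - z • n) w|) = d * sg * |D2| := by
    have : |2 * vv μ sg (x - z • n) * fderiv ℝ (vv μ sg) (x - z • n) w| = d * sg * |D2| := by
      rw [k2, abs_neg, abs_mul, abs_of_nonneg (by positivity)]
    rw [← this, abs_mul, abs_of_nonneg (show 0 ≤ 2 * vv μ sg (x - z • n) by positivity)]
    ring
  have a3 : |D1| ≤ |D2| + E := by
    have := abs_sub_abs_le_abs_sub D1 D2
    linarith
  have hE0 : 0 ≤ E := (abs_nonneg _).trans k3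
  have a4 : d * t * |D1| ≤ d * sg * |D2| + 2 * (d * E) := by
    calc d * t * |D1| ≤ d * t * (|D2| + E) := mul_le_mul_of_nonneg_left a3 (by positivity)
      _ = d * t * |D2| + d * t * E := by ring
      _ ≤ d * sg * |D2| + 2 * (d * E) := by
          refine add_le_add ?_ ?_
          · exact mul_le_mul_of_nonneg_right (mul_le_mul_of_nonneg_left hts hd0) (abs_nonneg _)
          · have : 0 ≤ d * E := mul_nonneg hd0 hE0
            nlinarith only [h2, this]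
  linarith

end main

end INm

end

end TG


end

section

/-!
# Module IN (10.3), (10.4): small gains on the plane at the scales 1, ..., 2^I force small
tangential gradients near the plane
-/

open MeasureTheory Metric Set TrI Filter
open scoped InnerProductSpace ContDiff Topology

set_option linter.unusedSectionVars false

namespace TG

noncomputable section

namespace INm

lemma find_scale {r : ℝ} (h1 : 1 / 2 ≤ r) : ∀ I : ℕ, r ≤ 2 * 2 ^ I →
    ∃ i ≤ I, (2 : ℝ) ^ i / 2 ≤ r ∧ r ≤ 2 * 2 ^ i := by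
  intro I
  induction I with
  | zero => intro h2; exact ⟨0, le_rfl, by simpa using h1, h2⟩
  | succ I ih =>
    intro h2
    rcases le_or_gt r (2 * 2 ^ I) with h3 | h3
    · obtain ⟨i, hi, h4, h5⟩ := ih h3
      exact ⟨i, by omega, h4, h5⟩
    · refine ⟨I + 1, le_rfl, ?_, h2⟩
      rw [pow_succ]
      have : (0 : ℝ) < 2 ^ I := by positivity
      linarith

section main

variable (h : StmtTH) {k : ℕ} (hd : 2 ≤ k + 1) {C' : ℝ} (hC' : 0 < C')
  {μ : Measure (Sp (k + 1))} (hμ : Gro C' μ)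

include h hd hC' hμ

/-- small tangential gradients at all points near x -/
lemma grad_near {C : ℝ} (hC : 0 < C)
    (hTa : ∀ ν : Measure (Sp (k + 1)), Gro C' ν → MO.THd 2 C ν) {M : ℝ}
    {β : ℕ → Sp (k + 1) → ℝ} (hβ : ∀ i, Kit 4 M (β i)) {ε : ℝ} (hε : 0 < ε) (hε1 : ε ≤ 1 / 4)
    {n : Sp (k + 1)} (hn : ‖n‖ = 1) {s A R0 : ℝ} (hA : 1 ≤ A) (hR32 : 32 ≤ R0)
    (hRA : A + 5 ≤ R0) {I : ℕ} (hI : 8 * A ≤ 2 ^ I) {iT κ θ i0 E1 K2 : ℝ} (hκ : 0 < κ) (hθ : 0 < θ)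
    (hE1 : 0 < E1)
    (hK2 : K2 = ((k + 1 : ℕ) : ℝ) * KI (k + 1) * (A + 2))
    (hpl : ∀ i ≤ I, plInt n s (fun x => zR (2 * R0 - 1) x * XX (β i) ε μ n (2 ^ i) x) ≤
      cP k C R0 (2 ^ I) κ * vv μ 1 0)
    (hEE : ∀ x : Sp (k + 1), ‖x‖ ≤ 2 * R0 →
      UUm.EE μ (fun η => MO.ht n s η ^ 2) x ≤ E1 * (i0 * vv μ 1 0 ^ 2))
    (hi0 : 0 < i0)
    (q1 : UUm.Cv (k + 1) C R0 ^ 4 * (Real.sqrt C * 2 ^ I) * κ ≤ iT / 3)
    (q2 : UUm.Cv (k + 1) C R0 ^ 4 * K2 * θ ≤ iT / 3)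
    (q3 : UUm.Cv (k + 1) C R0 ^ 2 * (K2 * (4 ^ (k + 1 + 5) / θ * (E1 * i0))) ≤ iT / 3)
    {x : Sp (k + 1)} (hx : ‖x‖ ≤ R0) (hz : |⟪n, x⟫_ℝ - s| ≤ A + 1) {t : ℝ} {x' : Sp (k + 1)}
    (h1 : 1 / 2 ≤ t) (h2 : t ≤ 2) (hxx : ‖x' - x‖ ≤ 1) :
    ‖tang n (gradient (vv μ t) x')‖ ≤ iT * vv μ 1 x := by
  have hT := hTa μ hμ
  have hT0 := thd_mono hT (Nat.zero_le 2)
  have hP := pot_of hT hμ.fin
  have hR00 : 0 < R0 := by linarith
  have hV := Cv_pos (k := k) hC hR00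
  set V := UUm.Cv (k + 1) C R0 with hVe
  have hv0 := hT.vpos one_pos (0 : Sp (k + 1))
  have hsC := Real.sqrt_pos.2 hC
  have ht : 0 < t := by linarith
  set v0 := vv μ 1 0 with hv0e
  -- geometry
  set z : ℝ := ⟪n, x'⟫_ℝ - s with hze
  have hzA : |z| ≤ A + 2 := by
    have e1 : z = (⟪n, x⟫_ℝ - s) + ⟪n, x' - x⟫_ℝ := by rw [hze, inner_sub_right]; ring
    have e2 : |⟪n, x' - x⟫_ℝ| ≤ 1 := by
      refine (abs_real_inner_le_norm _ _).trans ?_
      rw [hn, one_mul]; exact hxx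
    rw [e1]
    refine (abs_add_le _ _).trans ?_
    linarith
  have hx'R : ‖x'‖ ≤ R0 + 1 := by
    have := norm_add_le (x' - x) x
    rw [sub_add_cancel] at this
    linarith
  have hyS : ⟪n, x' - z • n⟫_ℝ = s := by
    rw [inner_sub_right, inner_smul_right, real_inner_self_eq_norm_sq, hn, hze]; ring
  have hyR : ‖x' - z • n‖ ≤ 2 * R0 - 2 := by
    refine (norm_sub_le _ _).trans ?_
    rw [norm_smul, hn, mul_one, Real.norm_eq_abs]
    linarith
  set sg := Real.sqrt (t ^ 2 + z ^ 2) with hsg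
  have hsg1 : t ≤ sg := Real.le_sqrt_of_sq_le (by linarith only [sq_nonneg z])
  have hsg2 : sg ≤ A + 4 := by
    have e1 : sg ≤ t + |z| := by
      rw [hsg, Real.sqrt_le_left (by positivity)]
      have := sq_abs z
      nlinarith only [this, h1, abs_nonneg z]
    linarith
  obtain ⟨i, hiI, hi1, hi2⟩ := find_scale (r := sg) (by linarith only [h1, hsg1]) I (by
    have : (0 : ℝ) < 2 ^ I := by positivity
    linarith)
  have hti : (1 : ℝ) ≤ 2 ^ i := one_le_pow₀ (by norm_num)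
  have htI : (2 : ℝ) ^ i ≤ 2 ^ I := pow_le_pow_right₀ (by norm_num) hiI
  have hti0 : (0 : ℝ) < 2 ^ i := by positivity
  have hTI0 : (0 : ℝ) < 2 ^ I := by positivity
  have hsT : Real.sqrt (2 ^ I) * Real.sqrt (2 ^ I) = (2 : ℝ) ^ I := Real.mul_self_sqrt hTI0.le
  have hsTp := Real.sqrt_nonneg ((2 : ℝ) ^ I)
  -- the gradient on the plane
  have g1 := plane_small h hd hC' hμ hC hTa (hβ i) hε hε1 hn hti htI hR32 hκ (hpl i hiI) hyS hyR
    hi1 hi2
  rw [← hVe, ← hv0e] at g1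
  -- v at the plane
  have g2 : vv μ sg (x' - z • n) ≤ Real.sqrt C * Real.sqrt (2 ^ I) * V * v0 := by
    have e1 := MO.v_time hT hC (r := sg) (s := 2 ^ i) hti0 (by linarith only [h1, hsg1, hi1]) (by linarith) (x' - z • n)
    have e2 := v_le_t h hd hC' hμ hti (x' - z • n)
    have e3 := (UUm.v_cmp (μ := μ) hC hT0 (R0 := R0) hR00 (r := 1)
      (by norm_num) (by norm_num) (y := x' - z • n) (by linarith)).1
    have e4 : Real.sqrt (2 ^ i) ≤ Real.sqrt (2 ^ I) := Real.sqrt_le_sqrt htI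
    have e5 := (hT.vpos one_pos (x' - z • n)).le
    calc vv μ sg (x' - z • n) ≤ Real.sqrt C * vv μ (2 ^ i) (x' - z • n) := e1
      _ ≤ Real.sqrt C * (Real.sqrt (2 ^ I) * (V * v0)) := by
          refine mul_le_mul_of_nonneg_left (e2.trans ?_) hsC.le
          exact mul_le_mul e4 e3 e5 hsTp
      _ = _ := by ring
  have c1 := UUm.v_cmp (μ := μ) hC hT0 (R0 := R0) hR00 h1 h2 (y := x') (by linarith only [hR32, hx'R])
  have c2 := UUm.v_cmp (μ := μ) hC hT0 (R0 := R0) hR00 (r := 1) (by norm_num) (by norm_num)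
    (y := x) (by linarith)
  rw [← hVe, ← hv0e] at c1 c2
  have hvt := hT.vpos ht x'
  have hvx := hT.vpos one_pos x
  have hEx := hEE x' (by linarith only [hR32, hx'R])
  have hKI := KI_pos (d := k + 1)
  have hK20 : 0 < K2 := by
    rw [hK2]
    have : (0 : ℝ) < ((k + 1 : ℕ) : ℝ) := by positivity
    positivity
  have hEn : 0 ≤ UUm.EE μ (fun η => MO.ht n s η ^ 2) x' :=
    UUm.EE_nonneg μ (fun η => sq_nonneg _) x'
  refine tang_le_of hn (by
    have : 0 < V ^ 4 * K2 * θ := by positivity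
    have : 0 < iT := by linarith only [q2, this]
    positivity) fun w hw hw1 => ?_
  rw [GPx.grad_inner]
  have k1 := inv_step h hd hC' hμ hP hn h1 h2 hw hw1 hze hθ
  rw [← hsg] at k1
  have k2 : |fderiv ℝ (vv μ sg) (x' - z • n) w| ≤ κ * (Real.sqrt (2 ^ I) * V) * v0 := by
    refine le_trans ?_ g1
    rw [← GPx.grad_inner]
    have e1 := tang_inner n (gradient (vv μ sg) (x' - z • n)) w
    rw [hw, mul_zero, sub_zero] at e1
    rw [← e1]
    refine (abs_real_inner_le_norm _ _).trans ?_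
    have := norm_nonneg (tang n (gradient (vv μ sg) (x' - z • n)))
    nlinarith only [hw1, this]
  have k3 : vv μ sg (x' - z • n) * |fderiv ℝ (vv μ sg) (x' - z • n) w| ≤
      (Real.sqrt C * Real.sqrt (2 ^ I) * V * v0) * (κ * (Real.sqrt (2 ^ I) * V) * v0) :=
    mul_le_mul g2 k2 (abs_nonneg _) (by positivity)
  have k4 : (Real.sqrt C * Real.sqrt (2 ^ I) * V * v0) * (κ * (Real.sqrt (2 ^ I) * V) * v0) =
      V ^ 2 * (Real.sqrt C * 2 ^ I) * κ * v0 ^ 2 := by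
    calc _ = V ^ 2 * (Real.sqrt C * (Real.sqrt (2 ^ I) * Real.sqrt (2 ^ I))) * κ * v0 ^ 2 := by ring
      _ = _ := by rw [hsT]
  have k5 : ((k + 1 : ℕ) : ℝ) * (KI (k + 1) * |z| * (θ * vv μ t x' ^ 2 +
        4 ^ (k + 1 + 5) / θ * UUm.EE μ (fun η => MO.ht n s η ^ 2) x')) ≤
      K2 * (θ * (V * v0) ^ 2 + 4 ^ (k + 1 + 5) / θ * (E1 * (i0 * v0 ^ 2))) := by
    rw [hK2]
    have a1 : vv μ t x' ^ 2 ≤ (V * v0) ^ 2 := pow_le_pow_left₀ hvt.le c1.1 2
    have a2 : (0 : ℝ) ≤ ((k + 1 : ℕ) : ℝ) := Nat.cast_nonneg _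
    have a3 : θ * vv μ t x' ^ 2 + 4 ^ (k + 1 + 5) / θ *
        UUm.EE μ (fun η => MO.ht n s η ^ 2) x' ≤
        θ * (V * v0) ^ 2 + 4 ^ (k + 1 + 5) / θ * (E1 * (i0 * v0 ^ 2)) := by
      refine add_le_add (mul_le_mul_of_nonneg_left a1 hθ.le) ?_
      exact mul_le_mul_of_nonneg_left hEx (by positivity)
    have a4 : 0 ≤ θ * vv μ t x' ^ 2 + 4 ^ (k + 1 + 5) / θ *
        UUm.EE μ (fun η => MO.ht n s η ^ 2) x' := by positivity
    rw [mul_assoc (((k + 1 : ℕ) : ℝ)) (KI (k + 1)) (A + 2), mul_assoc (((k + 1 : ℕ) : ℝ))]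
    refine mul_le_mul_of_nonneg_left ?_ a2
    exact mul_le_mul (mul_le_mul_of_nonneg_left hzA hKI.le) a3 a4 (by positivity)
  have k6 : vv μ t x' * |fderiv ℝ (vv μ t) x' w| ≤
      (V ^ 2 * (Real.sqrt C * 2 ^ I) * κ + K2 * (θ * V ^ 2 +
        4 ^ (k + 1 + 5) / θ * (E1 * i0))) * v0 ^ 2 := by
    refine k1.trans ?_
    rw [k4] at k3
    calc _ ≤ V ^ 2 * (Real.sqrt C * 2 ^ I) * κ * v0 ^ 2 +
          K2 * (θ * (V * v0) ^ 2 + 4 ^ (k + 1 + 5) / θ * (E1 * (i0 * v0 ^ 2))) :=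
          add_le_add k3 k5
      _ = _ := by ring
  set Q : ℝ := V ^ 2 * (Real.sqrt C * 2 ^ I) * κ + K2 * (θ * V ^ 2 +
        4 ^ (k + 1 + 5) / θ * (E1 * i0)) with hQ
  have hQ0 : 0 < Q := by positivity
  have hQV : V ^ 2 * Q ≤ iT := by
    have : V ^ 2 * Q = V ^ 4 * (Real.sqrt C * 2 ^ I) * κ + V ^ 4 * K2 * θ +
        V ^ 2 * (K2 * (4 ^ (k + 1 + 5) / θ * (E1 * i0))) := by rw [hQ]; ring
    rw [this]
    linarith only [q1, q2, q3]
  -- conclusion
  have k7 : |fderiv ℝ (vv μ t) x' w| * v0 ≤ V * Q * v0 ^ 2 := by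
    calc |fderiv ℝ (vv μ t) x' w| * v0 ≤ |fderiv ℝ (vv μ t) x' w| * (V * vv μ t x') :=
          mul_le_mul_of_nonneg_left c1.2 (abs_nonneg _)
      _ = V * (vv μ t x' * |fderiv ℝ (vv μ t) x' w|) := by ring
      _ ≤ V * (Q * v0 ^ 2) := mul_le_mul_of_nonneg_left k6 hV.le
      _ = _ := by ring
  have k8 : |fderiv ℝ (vv μ t) x' w| ≤ V * Q * v0 := by
    have : V * Q * v0 ^ 2 = (V * Q * v0) * v0 := by ring
    rw [this] at k7
    exact le_of_mul_le_mul_right k7 hv0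
  calc |fderiv ℝ (vv μ t) x' w| ≤ V * Q * v0 := k8
    _ ≤ V * Q * (V * vv μ 1 x) := mul_le_mul_of_nonneg_left c2.2 (by positivity)
    _ = V ^ 2 * Q * vv μ 1 x := by ring
    _ ≤ iT * vv μ 1 x := mul_le_mul_of_nonneg_right hQV hvx.le

end main

end INm

open _root_.TG.INm in
/-- MODULE IN -/
theorem stmtIN (h : StmtTH) (hMO : StmtMO) (hUB : StmtUB) (hTT : StmtTT) : StmtIN := by
  intro d hd M C' ε p0 A R0 i1 hC' hε hε1 hp0 hp01 hA hR0 hi1
  obtain ⟨k, rfl⟩ : ∃ k, d = k + 1 := ⟨d - 1, by omega⟩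
  obtain ⟨m, hm1, hm2⟩ := exists_nat_pow_near (x := 8 * A) (y := 2) (by linarith) (by norm_num)
  obtain ⟨I, rfl⟩ : ∃ I : ℕ, I = m + 1 := ⟨_, rfl⟩
  have hI1 : 8 * A ≤ 2 ^ (m + 1) := hm2.le
  have hI2 : (2 : ℝ) ^ (m + 1) ≤ 32 * A := by rw [pow_succ]; linarith
  have hk : (0 : ℝ) ≤ k := Nat.cast_nonneg k
  have hk1 : (1 : ℝ) ≤ k := by
    have : 1 ≤ k := by omega
    exact_mod_cast this
  have hR32 : 32 ≤ R0 := by push_cast at hR0; linarith
  have hRA : A + 5 ≤ R0 := by push_cast at hR0; linarith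
  have hR00 : 0 < R0 := by linarith
  obtain ⟨C, hC, hTa⟩ := MO.getTH h (k + 1) 2 hd C' hC'
  obtain ⟨CB, hCB, hB⟩ := hUB (k + 1) 0 hd M C' ε p0 A hC' hε (by linarith) hp0 hp01 hA
  obtain ⟨CM, hCM, hM⟩ := hMO (k + 1) 0 hd C' hC'
  have hV := Cv_pos (k := k) hC hR00
  obtain ⟨V, hVe⟩ : ∃ V : ℝ, V = UUm.Cv (k + 1) C R0 := ⟨_, rfl⟩
  rw [← hVe] at hV
  obtain ⟨iT, hiT, hTTm⟩ := hTT (k + 1) 3 hd M C' ε (i1 / V) hC' hε hε1 (by positivity)
  have hsC := Real.sqrt_pos.2 hC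
  have hvb := UUm.vb_pos k one_pos
  have hT0 := UUm.T0_pos
  have hKI := KI_pos (d := k + 1)
  obtain ⟨BM, hBM⟩ : ∃ B : ℝ, B = CM * (1 + 4 * R0) ^ (2 * (k + 1) + 4) / UUm.vb k 1 := ⟨_, rfl⟩
  have hBM0 : 0 < BM := by rw [hBM]; positivity
  obtain ⟨E1, hE1⟩ : ∃ B : ℝ, B = 4 ^ (k + 1 + 5) * Real.sqrt C * V * BM / UUm.T0 := ⟨_, rfl⟩
  have hE10 : 0 < E1 := by rw [hE1]; positivity
  obtain ⟨K2, hK2⟩ : ∃ B : ℝ, B = ((k + 1 : ℕ) : ℝ) * KI (k + 1) * (A + 2) := ⟨_, rfl⟩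
  have hK20 : 0 < K2 := by
    rw [hK2]
    have : (0 : ℝ) < ((k + 1 : ℕ) : ℝ) := by positivity
    positivity
  obtain ⟨T, hTe⟩ : ∃ T : ℝ, T = 2 ^ (m + 1) := ⟨_, rfl⟩
  have hTp : 1 ≤ T := by rw [hTe]; exact one_le_pow₀ (by norm_num)
  have hT00 : 0 < T := by linarith
  obtain ⟨κ, hκ⟩ : ∃ κ : ℝ, κ = iT / (3 * (V ^ 4 * (Real.sqrt C * T))) := ⟨_, rfl⟩
  have hκ0 : 0 < κ := by rw [hκ]; positivity
  obtain ⟨θ, hθ⟩ : ∃ θ : ℝ, θ = iT / (3 * (V ^ 4 * K2)) := ⟨_, rfl⟩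
  have hθ0 : 0 < θ := by rw [hθ]; positivity
  have hcP := cP_pos (k := k) hC hR00 hTp hκ0
  obtain ⟨i0, hi0, hb1, hb2, hb3, hb4⟩ : ∃ i0 : ℝ, 0 < i0 ∧ i0 ≤ cP k C R0 T κ ∧ i0 ≤ i1 / BM ∧
      i0 ≤ UUm.T0 / (1 + A) ^ (k + 1 + 4) / CB / V /
        (2 * (4 ^ (k + 1 + 5) * Real.sqrt C * BM)) ∧
      i0 ≤ iT * θ / (3 * (V ^ 2 * K2 * 4 ^ (k + 1 + 5) * E1)) := by
    refine ⟨min (cP k C R0 T κ) (min (i1 / BM) (min (UUm.T0 / (1 + A) ^ (k + 1 + 4) / CB / V /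
        (2 * (4 ^ (k + 1 + 5) * Real.sqrt C * BM)))
        (iT * θ / (3 * (V ^ 2 * K2 * 4 ^ (k + 1 + 5) * E1))))), ?_, min_le_left _ _, ?_, ?_, ?_⟩
    · exact lt_min hcP (lt_min (by positivity) (lt_min (by positivity) (by positivity)))
    · exact (min_le_right _ _).trans (min_le_left _ _)
    · exact (min_le_right _ _).trans ((min_le_right _ _).trans (min_le_left _ _))
    · exact (min_le_right _ _).trans ((min_le_right _ _).trans (min_le_right _ _))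
  refine ⟨m + 1, i0, hI1, hI2, hi0, ?_⟩
  intro β hβ μ hμ n s hn hs hpl x hx hq
  have hT := hTa μ hμ
  have hv0 := hT.vpos one_pos (0 : Sp (k + 1))
  have hβ4 : ∀ i, Kit 4 M (β i) := fun i => UUm.kit_mono (by norm_num) (hβ i)
  have hpl0 : plInt n s (fun x => zR (2 * R0 - 1) x * XX (β 0) ε μ n 1 x) ≤ i0 * vv μ 1 0 := by
    have := hpl 0 (Nat.zero_le _)
    rwa [pow_zero] at this
  have hmo : ∀ x : Sp (k + 1), ‖x‖ ≤ 2 * R0 →
      tav (Mo μ n s 2) 1 x ≤ BM * (i0 * vv μ 1 0) := by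
    intro x hx
    rw [hBM]
    exact mo2_small h hd hC' hμ (hβ4 0) hε hε1 hn hR32 hs hCM
      (hM μ hμ n hn s).2.2.2.2.2.2.1 hpl0 hx
  have c2 := UUm.v_cmp (μ := μ) hC (thd_mono hT (Nat.zero_le 2)) (R0 := R0) hR00 (r := 1)
    (by norm_num) (by norm_num) (y := x) (by linarith)
  rw [← hVe] at c2
  have hnear := (hB (β 0) (hβ4 0) μ hμ).2.2.2.2.2.2.2.2.2.2.1 x hq
  have hheight : |⟪n, x⟫_ℝ - s| ≤ A + 1 := by
    refine height_le h hd hC' hμ hC hT hn (by linarith) hCB hnear ?_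
    rw [le_div_iff₀ (by positivity)] at hb3
    have e1 := hmo x (by linarith)
    have e2 : 4 ^ (k + 1 + 5) * Real.sqrt C * tav (Mo μ n s 2) 1 x ≤
        (UUm.T0 / (1 + A) ^ (k + 1 + 4) / CB / V / 2) * vv μ 1 0 := by
      calc 4 ^ (k + 1 + 5) * Real.sqrt C * tav (Mo μ n s 2) 1 x ≤
            4 ^ (k + 1 + 5) * Real.sqrt C * (BM * (i0 * vv μ 1 0)) :=
            mul_le_mul_of_nonneg_left e1 (by positivity)
        _ = (i0 * (2 * (4 ^ (k + 1 + 5) * Real.sqrt C * BM))) / 2 * vv μ 1 0 := by ring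
        _ ≤ _ := by
            refine mul_le_mul_of_nonneg_right ?_ hv0.le
            linarith only [hb3]
    have e3 : (UUm.T0 / (1 + A) ^ (k + 1 + 4) / CB / V / 2) * vv μ 1 0 <
        UUm.T0 / (1 + A) ^ (k + 1 + 4) / CB * vv μ 1 x := by
      have a0 : 0 < UUm.T0 / (1 + A) ^ (k + 1 + 4) / CB := by positivity
      have hvx := hT.vpos one_pos x
      have a1 : UUm.T0 / (1 + A) ^ (k + 1 + 4) / CB / V / 2 * vv μ 1 0 =
          UUm.T0 / (1 + A) ^ (k + 1 + 4) / CB * (vv μ 1 0 / V / 2) := by ring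
      rw [a1]
      refine mul_lt_mul_of_pos_left ?_ a0
      rw [div_div, div_lt_iff₀ (by positivity)]
      linarith only [hv0, c2]
    linarith only [e2, e3]
  refine ⟨hheight, ?_, ?_⟩
  · have e1 := hmo x (by linarith)
    rw [le_div_iff₀ hBM0] at hb2
    calc tav (Mo μ n s 2) 1 x ≤ BM * (i0 * vv μ 1 0) := e1
      _ = i0 * BM * vv μ 1 0 := by ring
      _ ≤ i1 * vv μ 1 0 := mul_le_mul_of_nonneg_right hb2 hv0.le
  · have hEE : ∀ x : Sp (k + 1), ‖x‖ ≤ 2 * R0 →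
        UUm.EE μ (fun η => MO.ht n s η ^ 2) x ≤ E1 * (i0 * vv μ 1 0 ^ 2) := by
      intro x hx
      have e1 := UUm.EE_le_tav h hd hC' hμ hC hT hn s x
      have e2 := hmo x hx
      have e3 := (UUm.v_cmp (μ := μ) hC (thd_mono hT (Nat.zero_le 2)) (R0 := R0) hR00 (r := 1)
        (by norm_num) (by norm_num) (y := x) hx).1
      rw [← hVe] at e3
      have hvx := (hT.vpos one_pos x).le
      have hm0 : 0 ≤ BM * (i0 * vv μ 1 0) := by positivity
      rw [hE1, div_mul_eq_mul_div, le_div_iff₀ hT0, mul_comm _ UUm.T0]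
      calc UUm.T0 * UUm.EE μ (fun η => MO.ht n s η ^ 2) x ≤
            4 ^ (k + 1 + 5) * Real.sqrt C * vv μ 1 x * tav (Mo μ n s 2) 1 x := e1
        _ ≤ 4 ^ (k + 1 + 5) * Real.sqrt C * vv μ 1 x * (BM * (i0 * vv μ 1 0)) :=
            mul_le_mul_of_nonneg_left e2 (by positivity)
        _ ≤ 4 ^ (k + 1 + 5) * Real.sqrt C * (V * vv μ 1 0) * (BM * (i0 * vv μ 1 0)) := by
            (clear * - e3 hC hBM0 hi0 hv0; gcongr)
        _ = _ := by ring
    have hgrad := fun (t : ℝ) (x' : Sp (k + 1)) (h1 : 1 / 2 ≤ t) (h2 : t ≤ 2)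
        (h3 : ‖x' - x‖ ≤ 1) =>
      grad_near h hd hC' hμ hC hTa hβ4 hε hε1 hn hA hR32 hRA (I := m + 1) hI1 (iT := iT)
        hκ0 hθ0 hE10 hK2 (fun i hi => (hpl i hi).trans (by
          rw [← hTe]; exact mul_le_mul_of_nonneg_right hb1 hv0.le)) hEE hi0
        (by rw [← hVe, ← hTe, hκ]; field_simp; exact le_rfl)
        (by rw [← hVe, hθ]; field_simp; exact le_rfl)
        (by
          rw [← hVe]
          rw [le_div_iff₀ (by positivity)] at hb4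
          have e1 : V ^ 2 * (K2 * (4 ^ (k + 1 + 5) / θ * (E1 * i0))) =
              (i0 * (3 * (V ^ 2 * K2 * 4 ^ (k + 1 + 5) * E1))) / (3 * θ) := by
            field_simp
          rw [e1, div_le_iff₀ (by positivity)]
          linarith only [hb4])
        hx hheight h1 h2 h3
    intro j hj
    have e1 := hTTm (β 0) (UUm.kit_mono (by norm_num) (hβ 0)) μ hμ n x hn hgrad j hj
    refine e1.trans ?_
    calc i1 / V * vv μ 1 x ≤ i1 / V * (V * vv μ 1 0) :=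
          mul_le_mul_of_nonneg_left c2.1 (by positivity)
      _ = i1 * vv μ 1 0 := by field_simp

end

end TG


end

section

/-!
# Module PO: potential inequality (3.1)
-/

open MeasureTheory Metric Set TrI
open scoped InnerProductSpace ContDiff

namespace TG

noncomputable section

variable {d : ℕ}

/-! ## facts on v -/

/-- the facts on v which are used here -/
structure VF (C : ℝ) (μ : Measure (Sp d)) : Prop where
  C1 : 1 ≤ C
  pos : ∀ (t : ℝ) (x : Sp d), 0 < t → 0 < vv μ t x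
  le : ∀ (t : ℝ) (x : Sp d), 0 < t → vv μ t x ≤ C
  harn : ∀ (t : ℝ) (x x' : Sp d), 0 < t → ‖x' - x‖ ≤ t → vv μ t x' ≤ C * vv μ t x
  scale : ∀ (s t : ℝ) (x : Sp d), 0 < t → t / 8 ≤ s → s ≤ 8 * t → vv μ s x ≤ C * vv μ t x
  cont : ∀ t : ℝ, 0 < t → Continuous (vv μ t)
  second : ∀ (t : ℝ) (x h : Sp d), 0 < t → ‖h‖ ≤ t →
    |vv μ t (x + h) + vv μ t (x - h) - 2 * vv μ t x| ≤ C * (‖h‖ / t) ^ 2 * vv μ t x

/-- second differences -/
lemma second_diff {V : ℝ × Sp d → ℝ} (hV : ContDiffOn ℝ ∞ V {p | 0 < p.1}) {t K : ℝ} (ht : 0 < t)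
    {x h : Sp d}
    (hK : ∀ z, ‖z - x‖ ≤ ‖h‖ → ‖iteratedFDeriv ℝ 2 V (t, z)‖ ≤ K) :
    |V (t, x + h) + V (t, x - h) - 2 * V (t, x)| ≤ 2 * K * ‖h‖ ^ 2 := by
  have hU : IsOpen {p : ℝ × Sp d | 0 < p.1} := isOpen_lt continuous_const continuous_fst
  have hat : ∀ z : Sp d, ContDiffAt ℝ ∞ V (t, z) := fun z =>
    hV.contDiffAt (hU.mem_nhds ht)
  have hd1 : ∀ z : Sp d, HasFDerivAt V (fderiv ℝ V (t, z)) (t, z) := fun z =>
    ((hat z).differentiableAt (by simp)).hasFDerivAt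
  have hd2 : ∀ z : Sp d, HasFDerivAt (fderiv ℝ V) (fderiv ℝ (fderiv ℝ V) (t, z)) (t, z) := by
    intro z
    have h1 : ContDiffAt ℝ 1 (fderiv ℝ V) (t, z) := (hat z).fderiv_right (m := 1) (by
      have : (1 : WithTop ℕ∞) + 1 = ((2 : ℕ∞) : WithTop ℕ∞) := by norm_num
      rw [this]
      exact_mod_cast le_top)
    exact (h1.differentiableAt (by simp)).hasFDerivAt
  have hn2 : ∀ z : Sp d, ‖z - x‖ ≤ ‖h‖ → ‖fderiv ℝ (fderiv ℝ V) (t, z)‖ ≤ K := by
    intro z hz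
    have h1 := hK z hz
    rw [← norm_iteratedFDeriv_fderiv, norm_iteratedFDeriv_one] at h1
    exact h1
  have hK0 : 0 ≤ K := (norm_nonneg _).trans (hK x (by simp))
  set G : Sp d → (ℝ × Sp d →L[ℝ] ℝ) := fun z => fderiv ℝ V (t, z) with hG
  have hGl : ∀ a b : Sp d, ‖a - x‖ ≤ ‖h‖ → ‖b - x‖ ≤ ‖h‖ → ‖G a - G b‖ ≤ K * ‖a - b‖ := by
    intro a b ha hb
    refine Convex.norm_image_sub_le_of_norm_hasFDerivWithin_le (s := closedBall x ‖h‖)
      (f' := fun z => (fderiv ℝ (fderiv ℝ V) (t, z)).comp (ContinuousLinearMap.inr ℝ ℝ (Sp d)))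
      ?_ ?_ (convex_closedBall _ _) ?_ ?_
    · intro z _
      have h1 : HasFDerivAt (fun z : Sp d => ((t, z) : ℝ × Sp d))
          (ContinuousLinearMap.inr ℝ ℝ (Sp d)) z := hasFDerivAt_prodMk_right t z
      exact ((hd2 z).comp z h1).hasFDerivWithinAt
    · intro z hz
      rw [mem_closedBall, dist_eq_norm] at hz
      refine (ContinuousLinearMap.opNorm_comp_le _ _).trans ?_
      have h1 := ContinuousLinearMap.norm_inr_le_one ℝ ℝ (Sp d)
      calc _ ≤ K * 1 := mul_le_mul (hn2 z hz) h1 (norm_nonneg _) hK0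
        _ = K := mul_one K
    · rw [mem_closedBall, dist_eq_norm]; exact hb
    · rw [mem_closedBall, dist_eq_norm]; exact ha
  -- the function of one variable
  set φ : ℝ → ℝ := fun τ => V (t, x + τ • h) + V (t, x - τ • h) with hφ
  have hφ' : ∀ τ : ℝ, HasDerivAt φ (G (x + τ • h) (0, h) - G (x - τ • h) (0, h)) τ := by
    intro τ
    have h1 : HasDerivAt (fun τ : ℝ => ((t, x + τ • h) : ℝ × Sp d)) (0, h) τ := by
      refine (hasDerivAt_const τ t).prodMk ?_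
      have := ((hasDerivAt_id τ).smul_const h).const_add x
      simpa using this
    have h2 : HasDerivAt (fun τ : ℝ => ((t, x - τ • h) : ℝ × Sp d)) (0, -h) τ := by
      refine (hasDerivAt_const τ t).prodMk ?_
      have := ((hasDerivAt_id τ).smul_const h).const_sub x
      simpa using this
    have h3 := (hd1 (x + τ • h)).comp_hasDerivAt τ h1
    have h4 := (hd1 (x - τ • h)).comp_hasDerivAt τ h2
    have h5 := h3.add h4
    have h6 : (fderiv ℝ V (t, x - τ • h)) ((0 : ℝ), -h) = - (fderiv ℝ V (t, x - τ • h)) (0, h) := by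
      rw [← map_neg]; simp
    rw [h6, ← sub_eq_add_neg] at h5
    exact h5
  have hb : ∀ τ ∈ Icc (0 : ℝ) 1, ‖G (x + τ • h) (0, h) - G (x - τ • h) (0, h)‖ ≤
      2 * K * ‖h‖ ^ 2 := by
    intro τ hτ
    have hτh : ‖τ • h‖ ≤ ‖h‖ := by
      rw [norm_smul, Real.norm_eq_abs, abs_of_nonneg hτ.1]
      nlinarith only [hτ.2, norm_nonneg h]
    have h1 := hGl (x + τ • h) (x - τ • h) (by simpa using hτh) (by simpa using hτh)
    have h2 : ‖(x + τ • h) - (x - τ • h)‖ ≤ 2 * ‖h‖ := by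
      have : (x + τ • h) - (x - τ • h) = τ • h + τ • h := by abel
      rw [this]
      refine (norm_add_le _ _).trans ?_
      linarith
    rw [← sub_apply]
    refine (ContinuousLinearMap.le_opNorm _ _).trans ?_
    have h3 : ‖((0 : ℝ), h)‖ = ‖h‖ := by
      rw [Prod.norm_def]; simp
    rw [h3]
    calc _ ≤ (K * (2 * ‖h‖)) * ‖h‖ := by
          refine mul_le_mul_of_nonneg_right (h1.trans ?_) (norm_nonneg _)
          exact mul_le_mul_of_nonneg_left h2 hK0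
      _ = _ := by ring
  have h7 := Convex.norm_image_sub_le_of_norm_hasDerivWithin_le (s := Icc (0 : ℝ) 1) (f := φ)
    (fun τ _ => (hφ' τ).hasDerivWithinAt) hb (convex_Icc 0 1)
    (left_mem_Icc.2 zero_le_one) (right_mem_Icc.2 zero_le_one)
  have h8 : φ 1 - φ 0 = V (t, x + h) + V (t, x - h) - 2 * V (t, x) := by
    simp only [hφ, one_smul, zero_smul, add_zero, sub_zero]
    ring
  rw [h8] at h7
  simpa using h7

lemma sqrt_le_of_mul {a b K : ℝ} (hK : 1 ≤ K) (h : a ≤ K * b) (hb : 0 ≤ b) :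
    Real.sqrt a ≤ K * Real.sqrt b := by
  have h1 : Real.sqrt a ≤ Real.sqrt (K ^ 2 * b) := by
    refine Real.sqrt_le_sqrt (h.trans ?_)
    have : K ≤ K ^ 2 := by nlinarith only [hK]
    exact mul_le_mul_of_nonneg_right this hb
  rwa [Real.sqrt_mul (by positivity), Real.sqrt_sq (by linarith)] at h1

lemma vf_of_th (h : StmtTH) (hd : 2 ≤ d) {C' : ℝ} (hC' : 0 < C') :
    ∃ C : ℝ, ∀ μ : Measure (Sp d), Gro C' μ → VF C μ := by
  obtain ⟨C0, hC0, H⟩ := h d 2 hd C' hC'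
  have h2d : (1 : ℝ) ≤ 2 ^ d := one_le_pow₀ (by norm_num)
  have hA : C0 + 1 ≤ 2 * (C0 + 1) * 2 ^ d := by nlinarith
  have hB : (2 : ℝ) ^ d ≤ 2 * (C0 + 1) * 2 ^ d := by nlinarith
  refine ⟨2 * (C0 + 1) * 2 ^ d, fun μ hμ => ?_⟩
  obtain ⟨h1, h2, h3, h4, h5⟩ := H μ hμ
  have hpos : ∀ (t : ℝ) (x : Sp d), 0 < t → 0 < vv μ t x := fun t x ht =>
    Real.sqrt_pos.2 (h1 t x ht).1
  have harn : ∀ (t : ℝ) (x x' : Sp d), 0 < t → ‖x' - x‖ ≤ t → vv μ t x' ≤ 2 ^ d * vv μ t x := by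
    intro t x x' ht hx
    refine sqrt_le_of_mul h2d ?_ (h1 t x ht).1.le
    refine (h4 t x x' ht).trans ?_
    refine mul_le_mul_of_nonneg_right ?_ (h1 t x ht).1.le
    refine pow_le_pow_left₀ (by positivity) ?_ d
    have : ‖x - x'‖ / t ≤ 1 := by
      rw [div_le_one ht, norm_sub_rev]; exact hx
    linarith
  refine ⟨by linarith, hpos, ?_, ?_, ?_, ?_, ?_⟩
  · intro t x ht
    refine le_trans ?_ hA
    unfold vv
    rw [Real.sqrt_le_left (by linarith)]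
    nlinarith [(h1 t x ht).2]
  · intro t x x' ht hx
    refine (harn t x x' ht hx).trans ?_
    exact mul_le_mul_of_nonneg_right hB (hpos t x ht).le
  · intro s t x ht hs1 hs2
    have h6 : vv μ s x ≤ (C0 + 1) * vv μ t x := by
      refine sqrt_le_of_mul (by linarith) ((h5 s t x ht hs1 hs2).trans ?_) (h1 t x ht).1.le
      exact mul_le_mul_of_nonneg_right (by linarith) (h1 t x ht).1.le
    exact h6.trans (mul_le_mul_of_nonneg_right hA (hpos t x ht).le)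
  · intro t ht
    have h6 : ContinuousOn (fun p : ℝ × Sp d => vv μ p.1 p.2) {p | 0 < p.1} := h2.continuousOn
    exact h6.comp_continuous (f := fun x : Sp d => (t, x)) (by fun_prop) (fun _ => ht)
  · intro t x k ht hk
    have h6 := second_diff (x := x) (h := k) h2 ht (K := C0 * (2 ^ d * vv μ t x) / t ^ 2) (by
      intro z hz
      refine (h3 t z 2 ht le_rfl).trans ?_
      have := harn t x z ht (hz.trans hk)
      gcongr)
    refine h6.trans ?_
    have hv := (hpos t x ht).le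
    calc 2 * (C0 * (2 ^ d * vv μ t x) / t ^ 2) * ‖k‖ ^ 2
        = (2 * C0 * 2 ^ d) * (‖k‖ / t) ^ 2 * vv μ t x := by ring
      _ ≤ (2 * (C0 + 1) * 2 ^ d) * (‖k‖ / t) ^ 2 * vv μ t x := by gcongr; linarith

section VFfacts

variable {C : ℝ} {μ : Measure (Sp d)} {ψ : Sp d → ℝ}

lemma VF.LBv (hv : VF C μ) {t : ℝ} (ht : 0 < t) : LB (vv μ t) := LB.of_cont (hv.cont t ht)

lemma VF.C0 (hv : VF C μ) : 0 ≤ C := zero_le_one.trans hv.C1

/-- averages of functions which are small compared to v -/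
lemma VF.avk_bound (hv : VF C μ) (hψ : GK ψ) {g : Sp d → ℝ} {t A σ : ℝ} (ht : 0 < t)
    (hσ : |σ| ≤ t) (hA : 0 ≤ A) (hg : ∀ z, |g z| ≤ A * vv μ t z) (x : Sp d) :
    |avk ψ σ g x| ≤ A * C * vv μ t x := by
  refine hψ.norm_avk_le_of_bound (F := ℝ) fun z hz => ?_
  rw [Real.norm_eq_abs]
  refine (hg z).trans ?_
  rw [mul_assoc]
  exact mul_le_mul_of_nonneg_left (hv.harn t x z ht (hz.trans hσ)) hA

/-- averages of v at small scales -/
lemma VF.avk_sub_le (hv : VF C μ) (hψ : GK ψ) {t σ : ℝ} (ht : 0 < t) (hσ : |σ| ≤ t) (x : Sp d) :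
    |avk ψ σ (vv μ t) x - vv μ t x| ≤ C * (σ / t) ^ 2 * vv μ t x := by
  have hL := hv.LBv ht
  have hi1 := hψ.avk_integrable' hL σ x
  have hi2 : Integrable (fun y => ψ y • vv μ t (x - σ • y)) := by
    have := hi1.comp_neg
    refine this.congr (Filter.Eventually.of_forall fun y => ?_)
    simp only [hψ.even, smul_neg, sub_eq_add_neg]
  have e1 : avk ψ σ (vv μ t) x = ∫ y, ψ y • vv μ t (x - σ • y) := by
    rw [avkA_def, ← integral_neg_eq_self]
    congr 1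
    ext y
    rw [hψ.even, smul_neg, sub_eq_add_neg]
  have e2 : avk ψ σ (vv μ t) x - vv μ t x =
      1 / 2 * ∫ y, ψ y * (vv μ t (x + σ • y) + vv μ t (x - σ • y) - 2 * vv μ t x) := by
    have e3 : (fun y => ψ y * (vv μ t (x + σ • y) + vv μ t (x - σ • y) - 2 * vv μ t x)) =
        fun y => ψ y • vv μ t (x + σ • y) + ψ y • vv μ t (x - σ • y)
          - ψ y * (2 * vv μ t x) := by
      ext y
      simp only [smul_eq_mul]
      ring
    have hi3 : Integrable (fun y => ψ y * (2 * vv μ t x)) := hψ.integrable.mul_const _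
    have i1 : ∫ y, (ψ y • vv μ t (x + σ • y) + ψ y • vv μ t (x - σ • y)) =
        (∫ y, ψ y • vv μ t (x + σ • y)) + ∫ y, ψ y • vv μ t (x - σ • y) := integral_add hi1 hi2
    have i2 : ∫ y, (ψ y • vv μ t (x + σ • y) + ψ y • vv μ t (x - σ • y)
          - ψ y * (2 * vv μ t x)) =
        (∫ y, (ψ y • vv μ t (x + σ • y) + ψ y • vv μ t (x - σ • y)))
          - ∫ y, ψ y * (2 * vv μ t x) := integral_sub (hi1.add hi2) hi3
    rw [e3, i2, i1, ← e1, integral_mul_const, hψ.int, ← avkA_def]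
    ring
  have h3 : |∫ y, ψ y * (vv μ t (x + σ • y) + vv μ t (x - σ • y) - 2 * vv μ t x)| ≤
      ∫ y, ψ y * (C * (σ / t) ^ 2 * vv μ t x) := by
    rw [← Real.norm_eq_abs]
    refine norm_integral_le_of_norm_le (hψ.integrable.mul_const _) ?_
    refine Filter.Eventually.of_forall fun y => ?_
    rw [norm_mul, Real.norm_eq_abs, Real.norm_eq_abs, abs_of_nonneg (hψ.nonneg y)]
    by_cases hy : 1 ≤ ‖y‖
    · rw [hψ.supp y hy]; simp
    push Not at hy
    have hσy : ‖σ • y‖ ≤ |σ| := by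
      rw [norm_smul, Real.norm_eq_abs]
      nlinarith [abs_nonneg σ, norm_nonneg y]
    refine mul_le_mul_of_nonneg_left ?_ (hψ.nonneg y)
    refine (hv.second t x (σ • y) ht (hσy.trans hσ)).trans ?_
    have h4 : (‖σ • y‖ / t) ^ 2 ≤ (σ / t) ^ 2 := by
      rw [← sq_abs (σ / t), abs_div, abs_of_pos ht]
      gcongr
    have := hv.C0
    have := (hv.pos t x ht).le
    gcongr
  rw [integral_mul_const, hψ.int, one_mul] at h3
  rw [e2, abs_mul]
  have : (0 : ℝ) ≤ C * (σ / t) ^ 2 * vv μ t x := (abs_nonneg _).trans h3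
  rw [abs_of_pos (by norm_num : (0 : ℝ) < 1 / 2)]
  linarith

end VFfacts

/-! ## the function gk -/

section gkFacts

variable {C ε s0 : ℝ} {μ : Measure (Sp d)} {J : ℕ} {M c : ℝ} {b : Sp d → ℝ}

lemma eps_small {ε t : ℝ} (h0 : 0 < ε) (h1 : ε ≤ 1 / 4) (ht : 0 < t) (n : ℕ) :
    (ε * t / 2 ^ n / t) ^ 2 ≤ (1 / 4) ^ (n + 1) := by
  have e1 : ε * t / 2 ^ n / t = ε / 2 ^ n := by field_simp
  have e2 : (ε / 2 ^ n) ^ 2 = ε ^ 2 * (1 / 4) ^ n := by
    rw [div_pow, ← pow_mul, mul_comm n 2, pow_mul, div_eq_mul_inv, ← inv_pow]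
    norm_num
  rw [e1, e2, pow_succ, mul_comm]
  refine mul_le_mul_of_nonneg_left ?_ (by positivity)
  nlinarith only [h0, h1]

lemma eps_abs' {ε t : ℝ} (h0 : 0 < ε) (h1 : ε ≤ 1 / 4) (ht : 0 < t) (n : ℕ) :
    |ε * t / 2 ^ n| ≤ t := by
  rw [abs_of_pos (by positivity), div_le_iff₀ (by positivity)]
  have : (1 : ℝ) ≤ 2 ^ n := one_le_pow₀ (by norm_num)
  nlinarith

lemma eps_abs {ε t : ℝ} (h0 : 0 < ε) (h1 : ε ≤ 1 / 4) (ht : 0 < t) : |ε * t| ≤ t := by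
  rw [abs_of_pos (mul_pos h0 ht)]
  nlinarith

lemma gk_inner_bound (hv : VF C μ) (hb : BaseKer J M c b) (h0 : 0 < ε) (h1 : ε ≤ 1 / 4)
    (hs0 : 0 < s0) (i : ℕ) (z : Sp d) :
    |vv μ (lev s0 i) z - 1 / 3 * avk b (ε * lev s0 (i + 1)) (vv μ (lev s0 (i + 1))) z| ≤
      (1 + C ^ 2) * vv μ (lev s0 i) z := by
  have hi := levA_pos hs0 i
  have hi1 := levA_pos hs0 (i + 1)
  have h2 := hv.avk_bound hb.gk (g := vv μ (lev s0 (i + 1))) (A := 1) hi1
    (eps_abs h0 h1 hi1) zero_le_one (fun z => by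
      rw [one_mul, abs_of_pos (hv.pos _ z hi1)]) z
  have h3 := hv.scale (lev s0 (i + 1)) (lev s0 i) z hi (by rw [levA_succ]; linarith)
    (by rw [levA_succ]; linarith)
  have h4 := hv.pos _ z hi
  have h5 := hv.C0
  refine (abs_sub _ _).trans ?_
  rw [abs_of_pos h4, abs_mul, abs_of_pos (by norm_num : (0 : ℝ) < 1 / 3)]
  have h6 : |avk b (ε * lev s0 (i + 1)) (vv μ (lev s0 (i + 1))) z| ≤
      C * (C * vv μ (lev s0 i) z) := by
    refine h2.trans ?_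
    rw [one_mul]
    exact mul_le_mul_of_nonneg_left h3 h5
  have h7 : 0 ≤ |avk b (ε * lev s0 (i + 1)) (vv μ (lev s0 (i + 1))) z| := abs_nonneg _
  nlinarith

lemma gk_bound (hv : VF C μ) (hb : BaseKer J M c b) (h0 : 0 < ε) (h1 : ε ≤ 1 / 4)
    (hs0 : 0 < s0) (i : ℕ) (hi1 : 1 ≤ i) (y : Sp d) :
    |gk b ε μ s0 i y| ≤ ((1 + C ^ 2) * C + C) * vv μ (lev s0 i) y := by
  have hi := levA_pos hs0 i
  have h2 := hv.avk_bound hb.gk (A := 1 + C ^ 2) hi (eps_abs h0 h1 hi) (by positivity)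
    (gk_inner_bound hv hb h0 h1 hs0 i) y
  have h3 : lev s0 i = 2 * lev s0 (i - 1) := by
    rw [← levA_succ, Nat.sub_add_cancel hi1]
  have hi' := levA_pos hs0 (i - 1)
  have h4 := hv.scale (lev s0 (i - 1)) (lev s0 i) y hi (by linarith) (by linarith)
  have h5 := hv.pos _ y hi'
  unfold gk
  refine (abs_sub _ _).trans ?_
  rw [abs_of_pos (by positivity : 0 < 2 / 3 * vv μ (lev s0 (i - 1)) y)]
  linarith only [h2, h4, h5]

/-- the comparison of gk with GG -/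
lemma gk_GG (hv : VF C μ) (hb : BaseKer J M c b) (h0 : 0 < ε) (h1 : ε ≤ 1 / 4)
    (hs0 : 0 < s0) (k : ℕ) (y : Sp d) :
    |avk (KN b k) (ε * lev s0 (k + 1)) (gk b ε μ s0 (k + 2)) y
      - GG (KN b k) ε μ (lev s0 (k + 2)) y| ≤
      (C ^ 2 + 2 * C ^ 4) * (1 / 4) ^ (k + 2) * vv μ (lev s0 (k + 2)) y := by
  have ht1 := levA_pos hs0 (k + 1)
  have ht2 := levA_pos hs0 (k + 2)
  have ht3 := levA_pos hs0 (k + 3)
  have l2 : lev s0 (k + 2) = 2 * lev s0 (k + 1) := levA_succ s0 (k + 1)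
  have l3 : lev s0 (k + 3) = 2 * lev s0 (k + 2) := levA_succ s0 (k + 2)
  have hβ := hb.gkN k
  have hB := hb.gk
  set s : ℝ := ε * lev s0 (k + 1) with hs
  set t : ℝ := lev s0 (k + 2) with ht
  set T : ℝ := lev s0 (k + 3) with hT
  have e2 : ε * t = 2 * s := by rw [l2, hs]; ring
  have e3 : ε * T = 4 * s := by rw [l3, l2, hs]; ring
  have hsp : 0 < s := mul_pos h0 ht1
  have hvt := hv.LBv ht2
  have hvT := hv.LBv ht3
  have hv1 := hv.LBv ht1
  have hC := hv.C0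
  -- expansion of the average of gk
  have x1 : avk (KN b k) s (gk b ε μ s0 (k + 2)) y =
      avk (KN b k) s (avk b (2 * s) (vv μ t)) y
      - 1 / 3 * avk (KN b k) s (avk b (2 * s) (avk b (4 * s) (vv μ T))) y
      - 2 / 3 * avk (KN b k) s (vv μ (lev s0 (k + 1))) y := by
    have y1 : gk b ε μ s0 (k + 2) = fun z =>
        avk b (2 * s) (fun x => vv μ t x - 1 / 3 * avk b (4 * s) (vv μ T) x) z
        - 2 / 3 * vv μ (lev s0 (k + 1)) z := by
      ext z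
      unfold gk
      simp only [show k + 2 - 1 = k + 1 from rfl, show k + 2 + 1 = k + 3 from rfl]
      rw [← ht, ← hT, e2, e3]
    have hl1 : LB (avk b (4 * s) (vv μ T)) := hB.LBavk hvT _
    have hl2 : LB (fun x => 1 / 3 * avk b (4 * s) (vv μ T) x) := hl1.const_mul _
    rw [y1, hβ.avk_sub (hB.LBavk (hvt.sub hl2) _) (hv1.const_mul _), avk_mul]
    congr 1
    have y2 : avk b (2 * s) (fun x => vv μ t x - 1 / 3 * avk b (4 * s) (vv μ T) x) =
        fun z => avk b (2 * s) (vv μ t) z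
          - 1 / 3 * avk b (2 * s) (avk b (4 * s) (vv μ T)) z := by
      ext z
      rw [hB.avk_sub hvt hl2, avk_mul]
    rw [y2, hβ.avk_sub (hB.LBavk hvt _) ((hB.LBavk hl1 _).const_mul _), avk_mul]
  have x2 : GG (KN b k) ε μ t y = avk (KN b k) (2 * s) (vv μ t) y
      - 1 / 3 * avk (KN b k) (4 * s) (vv μ T) y
      - 2 / 3 * avk (KN b k) s (vv μ (lev s0 (k + 1))) y := by
    unfold GG
    have z1 : wv (KN b k) ε μ t y = avk (KN b k) (2 * s) (vv μ t) y := by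
      rw [← e2]; rfl
    have z2 : wv (KN b k) ε μ (t / 2) y = avk (KN b k) s (vv μ (lev s0 (k + 1))) y := by
      have : t / 2 = lev s0 (k + 1) := by rw [l2]; ring
      rw [this, hs]; rfl
    have z3 : wv (KN b k) ε μ (2 * t) y = avk (KN b k) (4 * s) (vv μ T) y := by
      rw [← e3, l3]; rfl
    rw [z1, z2, z3]
    ring
  -- first bracket
  have b1 : |avk (KN b k) s (avk b (2 * s) (vv μ t)) y - avk (KN b k) (2 * s) (vv μ t) y| ≤
      C ^ 2 * (1 / 4) ^ (k + 2) * vv μ t y := by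
    have w1 : avk (KN b k) s (avk b (2 * s) (vv μ t)) =
        avk (KN b k) (2 * s) (avk b (2 * s / 2 ^ (k + 1)) (vv μ t)) := by
      rw [← hb.avk_KN_succ' k hvt, hb.avk_KN_succ k hvt, hb.avk_KN_comm k hvt]
      congr 2
      ring
    rw [w1, ← hβ.avk_sub (hB.LBavk hvt _) hvt]
    have w2 : ∀ z, |avk b (2 * s / 2 ^ (k + 1)) (vv μ t) z - vv μ t z| ≤
        C * (1 / 4) ^ (k + 2) * vv μ t z := by
      intro z
      rw [← e2]
      refine (hv.avk_sub_le hB ht2 (eps_abs' h0 h1 ht2 _) z).trans ?_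
      refine mul_le_mul_of_nonneg_right ?_ (hv.pos _ _ ht2).le
      exact mul_le_mul_of_nonneg_left (eps_small h0 h1 ht2 (k + 1)) hC
    refine (hv.avk_bound hβ ht2 (by rw [← e2]; exact eps_abs h0 h1 ht2) (by positivity) w2
      y).trans (le_of_eq ?_)
    ring
  -- second bracket
  have b2 : |avk (KN b k) s (avk b (2 * s) (avk b (4 * s) (vv μ T))) y
      - avk (KN b k) (4 * s) (vv μ T) y| ≤
      2 * C ^ 4 * (1 / 4) ^ (k + 2) * vv μ t y := by
    have hl1 : LB (avk b (4 * s) (vv μ T)) := hB.LBavk hvT _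
    have hl2 : LB (avk b (4 * s / 2 ^ (k + 2)) (vv μ T)) := hB.LBavk hvT _
    have w1 : avk (KN b k) s (avk b (2 * s) (avk b (4 * s) (vv μ T))) =
        avk (KN b k) (4 * s) (avk b (4 * s / 2 ^ (k + 1))
          (avk b (4 * s / 2 ^ (k + 2)) (vv μ T))) := by
      rw [← hb.avk_KN_succ' k hl2, ← hb.avk_KN_succ' (k + 1) hvT, hb.avk_KN_succ (k + 1) hvT,
        hb.avk_KN_comm k hl1]
      have q1 : avk b (2 * s) (avk (KN b k) s (avk b (4 * s) (vv μ T))) =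
          avk (KN b (k + 1)) (2 * s) (avk b (4 * s) (vv μ T)) := by
        rw [hb.avk_KN_succ k hl1]
        congr 2
        ring
      rw [q1, hb.avk_KN_comm (k + 1) hvT]
      congr 2
      ring
    rw [w1, ← hβ.avk_sub (hB.LBavk hl2 _) hvT]
    have w2 : ∀ z, |avk b (4 * s / 2 ^ (k + 2)) (vv μ T) z - vv μ T z| ≤
        C * (1 / 4) ^ (k + 2) * vv μ T z := by
      intro z
      rw [← e3]
      refine (hv.avk_sub_le hB ht3 (eps_abs' h0 h1 ht3 _) z).trans ?_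
      refine mul_le_mul_of_nonneg_right ?_ (hv.pos _ _ ht3).le
      refine mul_le_mul_of_nonneg_left ((eps_small h0 h1 ht3 (k + 2)).trans ?_) hC
      exact pow_le_pow_of_le_one (by norm_num) (by norm_num) (by omega)
    have w3 : ∀ z, |avk b (4 * s / 2 ^ (k + 1)) (vv μ T) z - vv μ T z| ≤
        C * (1 / 4) ^ (k + 2) * vv μ T z := by
      intro z
      rw [← e3]
      refine (hv.avk_sub_le hB ht3 (eps_abs' h0 h1 ht3 _) z).trans ?_
      refine mul_le_mul_of_nonneg_right ?_ (hv.pos _ _ ht3).le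
      exact mul_le_mul_of_nonneg_left (eps_small h0 h1 ht3 (k + 1)) hC
    have w4 : ∀ z, |avk b (4 * s / 2 ^ (k + 1)) (avk b (4 * s / 2 ^ (k + 2)) (vv μ T)) z
        - vv μ T z| ≤ (2 * C ^ 2 * (1 / 4) ^ (k + 2)) * vv μ T z := by
      intro z
      have q2 := hv.avk_bound hB (σ := 4 * s / 2 ^ (k + 1)) ht3
        (by rw [← e3]; exact eps_abs' h0 h1 ht3 _) (by positivity) w2 z
      rw [hB.avk_sub hl2 hvT] at q2
      have q3 := w3 z
      have q4 : C * (1 / 4) ^ (k + 2) * vv μ T z ≤ C * (1 / 4) ^ (k + 2) * C * vv μ T z := by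
        refine mul_le_mul_of_nonneg_right ?_ (hv.pos _ _ ht3).le
        exact le_mul_of_one_le_right (by positivity) hv.C1
      have q5 : (2 * C ^ 2 * (1 / 4) ^ (k + 2)) * vv μ T z =
          C * (1 / 4) ^ (k + 2) * C * vv μ T z + C * (1 / 4) ^ (k + 2) * C * vv μ T z := by ring
      rw [q5]
      rw [abs_le] at q2 q3 ⊢
      constructor <;> linarith [q2.1, q2.2, q3.1, q3.2]
    have w5 := hv.avk_bound hβ (σ := 4 * s) ht3 (by rw [← e3]; exact eps_abs h0 h1 ht3)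
      (by positivity) w4 y
    refine w5.trans ?_
    have w6 := hv.scale T t y ht2 (by rw [l3]; linarith only [ht1, l2]) (by rw [l3]; linarith only [ht1, l2])
    calc 2 * C ^ 2 * (1 / 4) ^ (k + 2) * C * vv μ T y
        ≤ 2 * C ^ 2 * (1 / 4) ^ (k + 2) * C * (C * vv μ t y) := by (clear * - w6 hC; gcongr)
      _ = _ := by ring
  rw [x1, x2]
  have hpos := hv.pos t y ht2
  rw [abs_le] at b1 b2 ⊢
  constructor <;> (first | linarith only [b1, b2] | linarith [b1.1, b1.2, b2.1, b2.2])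

end gkFacts

/-! ## the sum -/

section Sum

variable {C ε s0 : ℝ} {μ : Measure (Sp d)} {J : ℕ} {M c : ℝ} {b : Sp d → ℝ}
  {E : Type} [NormedAddCommGroup E] [InnerProductSpace ℝ E] [FiniteDimensional ℝ E]
  {f : Sp d → E}

/-- the integral of the field of level i -/
def Nf (b : Sp d → ℝ) (ε s0 : ℝ) (f : Sp d → E) (i : ℕ) : ℝ := ∫ y, ‖fl b ε s0 f i y‖

/-- the integral of the field of level i against v -/
def Pf (b : Sp d → ℝ) (ε s0 : ℝ) (μ : Measure (Sp d)) (f : Sp d → E) (i : ℕ) : ℝ :=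
  ∫ y, ‖fl b ε s0 f i y‖ * vv μ (lev s0 i) y

lemma int_cc {g h : Sp d → ℝ} (hg : Continuous g) (hh : Continuous h)
    (hc : HasCompactSupport g) : Integrable (fun y => g y * h y) :=
  (hg.mul hh).integrable_of_hasCompactSupport hc.mul_right

lemma Nf_step (hb : BaseKer J M c b) (hf : Continuous f) (hc : HasCompactSupport f) (i : ℕ) :
    Nf b ε s0 f (i + 1) ≤ Nf b ε s0 f i := by
  have hF := (flA_cont hb ε s0 hf i).norm
  have hFc := (flA_cs hb ε s0 hc i).norm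
  have hF1 := (flA_cont hb ε s0 hf (i + 1)).norm
  have hF1c := (flA_cs hb ε s0 hc (i + 1)).norm
  unfold Nf
  rw [← hb.gk.avk_int (hF.integrable_of_hasCompactSupport hFc) (LB.of_cont hF)
    (ε * lev s0 (i + 1))]
  refine integral_mono (hF1.integrable_of_hasCompactSupport hF1c)
    ((hb.gk.avk_cont hF _).integrable_of_hasCompactSupport (hb.gk.avk_cs hFc _)) ?_
  intro y
  exact hb.gk.norm_avk_le _ _ y

lemma Nf_le (hb : BaseKer J M c b) (hf : Continuous f) (hc : HasCompactSupport f) (i : ℕ) :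
    Nf b ε s0 f i ≤ ∫ y, ‖f y‖ := by
  induction i with
  | zero => exact le_rfl
  | succ i ih => exact (Nf_step hb hf hc i).trans ih

lemma Nf_nonneg (i : ℕ) : 0 ≤ Nf b ε s0 f i := integral_nonneg fun _ => norm_nonneg _

lemma Pf_nonneg (hv : VF C μ) (hs0 : 0 < s0) (i : ℕ) : 0 ≤ Pf b ε s0 μ f i :=
  integral_nonneg fun y => mul_nonneg (norm_nonneg _) (hv.pos _ y (levA_pos hs0 i)).le

lemma Pf_le (hv : VF C μ) (hb : BaseKer J M c b) (hs0 : 0 < s0) (hf : Continuous f)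
    (hc : HasCompactSupport f) (i : ℕ) : Pf b ε s0 μ f i ≤ C * ∫ y, ‖f y‖ := by
  have hF := (flA_cont hb ε s0 hf i).norm
  have hFc := (flA_cs hb ε s0 hc i).norm
  have hl := levA_pos hs0 i
  have h1 : Pf b ε s0 μ f i ≤ C * Nf b ε s0 f i := by
    unfold Pf Nf
    rw [← integral_const_mul]
    refine integral_mono (int_cc hF (hv.cont _ hl) hFc)
      ((hF.integrable_of_hasCompactSupport hFc).const_mul C) ?_
    intro y
    simp only
    rw [mul_comm]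
    exact mul_le_mul_of_nonneg_right (hv.le _ y hl) (norm_nonneg _)
  exact h1.trans (mul_le_mul_of_nonneg_left (Nf_le hb hf hc i) hv.C0)

lemma gk_step (hv : VF C μ) (hb : BaseKer J M c b) (hs0 : 0 < s0) (hf : Continuous f)
    (hc : HasCompactSupport f) (k : ℕ) :
    ∫ y, ‖fl b ε s0 f k y‖ * gk b ε μ s0 (k + 1) y ≤
      Pf b ε s0 μ f (k + 1) - 1 / 3 * Pf b ε s0 μ f (k + 2) - 2 / 3 * Pf b ε s0 μ f k
        + C * (Nf b ε s0 f k - Nf b ε s0 f (k + 1)) := by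
  have hB := hb.gk
  have hF0 := (flA_cont hb ε s0 hf k).norm
  have hF0c := (flA_cs hb ε s0 hc k).norm
  have hF1 := (flA_cont hb ε s0 hf (k + 1)).norm
  have hF1c := (flA_cs hb ε s0 hc (k + 1)).norm
  have hF2 := (flA_cont hb ε s0 hf (k + 2)).norm
  have hF2c := (flA_cs hb ε s0 hc (k + 2)).norm
  have hl0 := levA_pos hs0 k
  have hl1 := levA_pos hs0 (k + 1)
  have hl2 := levA_pos hs0 (k + 2)
  have hv0 := hv.cont _ hl0
  have hv1 := hv.cont _ hl1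
  have hv2 := hv.cont _ hl2
  set F0 : Sp d → ℝ := fun y => ‖fl b ε s0 f k y‖ with hF0d
  set F1 : Sp d → ℝ := fun y => ‖fl b ε s0 f (k + 1) y‖ with hF1d
  set F2 : Sp d → ℝ := fun y => ‖fl b ε s0 f (k + 2) y‖ with hF2d
  set H : Sp d → ℝ := fun x => vv μ (lev s0 (k + 1)) x
    - 1 / 3 * avk b (ε * lev s0 (k + 2)) (vv μ (lev s0 (k + 2))) x with hH
  have hAv : Continuous (avk b (ε * lev s0 (k + 2)) (vv μ (lev s0 (k + 2)))) :=
    hB.avk_cont hv2 _
  have hHc : Continuous H := hv1.sub (continuous_const.mul hAv)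
  have hAH : Continuous (avk b (ε * lev s0 (k + 1)) H) := hB.avk_cont hHc _
  have hAF : Continuous (avk b (ε * lev s0 (k + 1)) F0) := hB.avk_cont hF0 _
  have hAFc : HasCompactSupport (avk b (ε * lev s0 (k + 1)) F0) := hB.avk_cs hF0c _
  have hAF1 : Continuous (avk b (ε * lev s0 (k + 2)) F1) := hB.avk_cont hF1 _
  have hAF1c : HasCompactSupport (avk b (ε * lev s0 (k + 2)) F1) := hB.avk_cs hF1c _
  -- the integral
  have i1 : ∫ y, F0 y * gk b ε μ s0 (k + 1) y =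
      (∫ y, F0 y * avk b (ε * lev s0 (k + 1)) H y) - 2 / 3 * Pf b ε s0 μ f k := by
    have e : (fun y => F0 y * gk b ε μ s0 (k + 1) y) = fun y =>
        F0 y * avk b (ε * lev s0 (k + 1)) H y - 2 / 3 * (F0 y * vv μ (lev s0 k) y) := by
      ext y
      unfold gk
      simp only [Nat.add_sub_cancel]
      ring
    rw [e, integral_sub (int_cc hF0 hAH hF0c) ((int_cc hF0 hv0 hF0c).const_mul _),
      integral_const_mul]
    rfl
  have i2 : ∫ y, F0 y * avk b (ε * lev s0 (k + 1)) H y =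
      ∫ y, avk b (ε * lev s0 (k + 1)) F0 y * H y := by
    have := hB.avk_adj (LB.of_cont hHc) (LB.of_cont hF0) hF0c (ε * lev s0 (k + 1))
    rw [← integral_congr_ae (Filter.Eventually.of_forall fun y =>
      mul_comm (avk b (ε * lev s0 (k + 1)) H y) (F0 y)), this]
    exact integral_congr_ae (Filter.Eventually.of_forall fun y => mul_comm _ _)
  have hgap : ∀ y, 0 ≤ avk b (ε * lev s0 (k + 1)) F0 y - F1 y := fun y =>
    sub_nonneg.2 (hB.norm_avk_le _ _ y)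
  have hHle : ∀ y, H y ≤ C := by
    intro y
    have h1 := hB.avk_nonneg (fun z => (hv.pos _ z hl2).le) (ε * lev s0 (k + 2)) y
    have h2 := hv.le _ y hl1
    simp only [hH]
    linarith
  have i3 : ∫ y, avk b (ε * lev s0 (k + 1)) F0 y * H y ≤
      (∫ y, F1 y * H y) + C * (Nf b ε s0 f k - Nf b ε s0 f (k + 1)) := by
    have e1 : C * (Nf b ε s0 f k - Nf b ε s0 f (k + 1)) =
        ∫ y, C * (avk b (ε * lev s0 (k + 1)) F0 y - F1 y) := by
      rw [integral_const_mul, integral_sub (hAF.integrable_of_hasCompactSupport hAFc)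
        (hF1.integrable_of_hasCompactSupport hF1c),
        hB.avk_int (hF0.integrable_of_hasCompactSupport hF0c) (LB.of_cont hF0)]
      rfl
    have hI1 : Integrable (fun y => C * (avk b (ε * lev s0 (k + 1)) F0 y - F1 y)) :=
      ((hAF.integrable_of_hasCompactSupport hAFc).sub
        (hF1.integrable_of_hasCompactSupport hF1c)).const_mul C
    rw [e1, ← integral_add (int_cc hF1 hHc hF1c) hI1]
    refine integral_mono (int_cc hAF hHc hAFc) ((int_cc hF1 hHc hF1c).add hI1) ?_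
    intro y
    simp only
    have := mul_le_mul_of_nonneg_left (hHle y) (hgap y)
    linarith
  have i4 : ∫ y, F1 y * H y = Pf b ε s0 μ f (k + 1)
      - 1 / 3 * ∫ y, F1 y * avk b (ε * lev s0 (k + 2)) (vv μ (lev s0 (k + 2))) y := by
    have e : (fun y => F1 y * H y) = fun y => F1 y * vv μ (lev s0 (k + 1)) y
        - 1 / 3 * (F1 y * avk b (ε * lev s0 (k + 2)) (vv μ (lev s0 (k + 2))) y) := by
      ext y
      simp only [hH]
      ring
    rw [e, integral_sub (int_cc hF1 hv1 hF1c) ((int_cc hF1 hAv hF1c).const_mul _),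
      integral_const_mul]
    rfl
  have i5 : Pf b ε s0 μ f (k + 2) ≤
      ∫ y, F1 y * avk b (ε * lev s0 (k + 2)) (vv μ (lev s0 (k + 2))) y := by
    have := hB.avk_adj (LB.of_cont hv2) (LB.of_cont hF1) hF1c (ε * lev s0 (k + 2))
    rw [← integral_congr_ae (Filter.Eventually.of_forall fun y =>
      mul_comm (avk b (ε * lev s0 (k + 2)) (vv μ (lev s0 (k + 2))) y) (F1 y)), this]
    unfold Pf
    rw [← integral_congr_ae (Filter.Eventually.of_forall fun y =>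
      mul_comm (avk b (ε * lev s0 (k + 2)) F1 y) (vv μ (lev s0 (k + 2)) y))]
    refine integral_mono (int_cc hF2 hv2 hF2c) (int_cc hAF1 hv2 hAF1c) ?_
    intro y
    exact mul_le_mul_of_nonneg_right (hB.norm_avk_le _ _ y) (hv.pos _ y hl2).le
  rw [i1, i2]
  linarith only [i3, i4, i5]

lemma sum_tel (P N : ℕ → ℝ) (C : ℝ) (m : ℕ) :
    ∑ i ∈ Finset.Ico 2 (m + 2), (P i - 1 / 3 * P (i + 1) - 2 / 3 * P (i - 1)
      + C * (N (i - 1) - N i)) =
    2 / 3 * (P (m + 1) - P 1) - 1 / 3 * (P (m + 2) - P 2) + C * (N 1 - N (m + 1)) := by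
  induction m with
  | zero => simp
  | succ m ih =>
    rw [Finset.sum_Ico_succ_top (by omega), ih]
    simp only [show m + 2 - 1 = m + 1 from rfl]
    ring_nf

lemma sum_gk (hv : VF C μ) (hb : BaseKer J M c b) (hs0 : 0 < s0) (hf : Continuous f)
    (hc : HasCompactSupport f) (I : ℕ) :
    ∑ i ∈ Finset.Ico 2 I, ∫ y, ‖fl b ε s0 f (i - 1) y‖ * gk b ε μ s0 i y ≤
      (2 * C) * ∫ y, ‖f y‖ := by
  have hfn : 0 ≤ ∫ y, ‖f y‖ := integral_nonneg fun _ => norm_nonneg _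
  have hC := hv.C0
  rcases Nat.lt_or_ge I 2 with hI | hI
  · rw [Finset.Ico_eq_empty (by omega), Finset.sum_empty]
    positivity
  obtain ⟨m, rfl⟩ := Nat.exists_eq_add_of_le' hI
  have h1 : ∀ i ∈ Finset.Ico 2 (m + 2),
      ∫ y, ‖fl b ε s0 f (i - 1) y‖ * gk b ε μ s0 i y ≤
        Pf b ε s0 μ f i - 1 / 3 * Pf b ε s0 μ f (i + 1) - 2 / 3 * Pf b ε s0 μ f (i - 1)
          + C * (Nf b ε s0 f (i - 1) - Nf b ε s0 f i) := by
    intro i hi
    obtain ⟨k, rfl⟩ := Nat.exists_eq_add_of_le' ((Finset.mem_Ico.1 hi).1.trans' one_le_two)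
    exact gk_step hv hb hs0 hf hc k
  refine (Finset.sum_le_sum h1).trans ?_
  rw [sum_tel]
  have p1 := Pf_le (ε := ε) hv hb hs0 hf hc (m + 1)
  have p2 := Pf_le (ε := ε) hv hb hs0 hf hc 2
  have p3 : 0 ≤ Pf b ε s0 μ f 1 := Pf_nonneg hv hs0 1
  have p4 : 0 ≤ Pf b ε s0 μ f (m + 2) := Pf_nonneg hv hs0 (m + 2)
  have p5 : C * Nf b ε s0 f 1 ≤ C * ∫ y, ‖f y‖ :=
    mul_le_mul_of_nonneg_left (Nf_le hb hf hc 1) hC
  have p6 : 0 ≤ C * Nf b ε s0 f (m + 1) := mul_nonneg hC (Nf_nonneg _)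
  linarith

end Sum

theorem stmtPO (h : StmtTH) : StmtPO := by
  intro d hd M c C' ε hC' h0 h1 b hb
  obtain ⟨C, hC⟩ := vf_of_th h hd hC'
  refine ⟨(1 + C ^ 2) * |C| + |C| + (C ^ 2 + 2 * C ^ 4) + 2 * |C| + 1, by positivity, ?_⟩
  intro μ hμ s0 hs0
  have hv := hC μ hμ
  have hC0 := hv.C0
  rw [abs_of_nonneg hC0]
  refine ⟨?_, ?_, ?_⟩
  · intro i y hi
    refine (gk_bound hv hb h0 h1 hs0 i hi y).trans ?_
    refine mul_le_mul_of_nonneg_right ?_ (hv.pos _ _ (levA_pos hs0 i)).le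
    have : 0 ≤ C ^ 2 + 2 * C ^ 4 := by positivity
    linarith only [hC0, this]
  · intro i y hi
    obtain ⟨k, rfl⟩ := Nat.exists_eq_add_of_le' hi
    refine (gk_GG hv hb h0 h1 hs0 k y).trans ?_
    refine mul_le_mul_of_nonneg_right ?_ (hv.pos _ _ (levA_pos hs0 _)).le
    refine mul_le_mul_of_nonneg_right ?_ (by positivity)
    have : 0 ≤ (1 + C ^ 2) * C := by positivity
    linarith only [hC0, this]
  · intro E _ _ _ f hf hc I
    refine (sum_gk hv hb hs0 hf hc I).trans ?_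
    refine mul_le_mul_of_nonneg_right ?_ (integral_nonneg fun _ => norm_nonneg _)
    have : 0 ≤ (1 + C ^ 2) * C := by positivity
    have : 0 ≤ C ^ 2 + 2 * C ^ 4 := by positivity
    linarith

end

end TG


end
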