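import Mathlib
import Pool.Agent.TRM.C02
import Pool.Agent.TRM.C04
import Pool.Agent.TRM.C08
import Pool.Agent.TRM.C10
import Pool.Agent.TRM.C15

/-! Parts: TG.CT8, TG.RB, TG.LWb, TG.SHA1, TG.SHA2, TG.SHA3, TG.SHA4, TG.WA6 -/

section

/-!
# MODULE CT8: Lemma Z and the growth of the mass in the frame of a cell
-/

open MeasureTheory Metric Set TrI
open scoped InnerProductSpace ContDiff ENNReal

namespace TG

noncomputable section

namespace CT8

variable {d : ℕ} {E : Type} [NormedAddCommGroup E] [InnerProductSpace ℝ E]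

/-! ## scaling (any dimension) -/

lemma ma_rs (b : Sp d → ℝ) (ε : ℝ) (f : Sp d → E) (s0 : ℝ) (x : Sp d) {t : ℝ} (ht : 0 < t)
    (R : ℝ) (i : ℕ) (y : Sp d) :
    ma b ε R (s0 / t) (rs x t f) i y = ma b ε R s0 f i (x + t • y) := by
  unfold ma
  simp_rw [SC.fl_rs b ε s0 x ht f, norm_smul, Real.norm_of_nonneg ht.le]
  rw [integral_const_mul, SC.lev_div, ← mul_div_assoc,
    SC.ball_scale x ht (fun z => ‖fl b ε s0 f (i - 1) z‖), div_pow]
  field_simp

lemma DD_rs (b : Sp d → ℝ) (ε : ℝ) (f : Sp d → E) (s0 : ℝ) (x : Sp d) {t : ℝ} (ht : 0 < t)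
    (R : ℝ) (i : ℕ) (y : Sp d) (e : E) :
    DD b ε R (s0 / t) (rs x t f) i y e = DD b ε R s0 f i (x + t • y) e := by
  have hfl := fun i y => SC.fl_rs b ε s0 x ht f i y
  unfold DD
  have h1 : ∀ l, ∫ z in ball y (R * lev (s0 / t) i), (‖fl b ε (s0 / t) (rs x t f) l z‖
      - ⟪fl b ε (s0 / t) (rs x t f) l z, e⟫_ℝ) = t / t ^ d *
      ∫ z in ball (x + t • y) (R * lev s0 i), (‖fl b ε s0 f l z‖ - ⟪fl b ε s0 f l z, e⟫_ℝ) := by
    intro l
    simp_rw [hfl, norm_smul, real_inner_smul_left, Real.norm_of_nonneg ht.le, ← mul_sub]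
    rw [integral_const_mul, SC.lev_div, ← mul_div_assoc,
      SC.ball_scale x ht (fun z => ‖fl b ε s0 f l z‖ - ⟪fl b ε s0 f l z, e⟫_ℝ)]
    ring
  have h2 : ∫ z in ball y (R * lev (s0 / t) i), ‖rs x t f z‖ = t / t ^ d *
      ∫ z in ball (x + t • y) (R * lev s0 i), ‖f z‖ := by
    unfold rs
    simp_rw [norm_smul, Real.norm_of_nonneg ht.le]
    rw [integral_const_mul, SC.lev_div, ← mul_div_assoc, SC.ball_scale x ht (fun z => ‖f z‖)]
    ring
  simp_rw [h1]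
  rw [h2, SC.lev_div]
  have h3 : ∀ l, (1 / 4 : ℝ) ^ (i - l) * (t / t ^ d *
      ∫ z in ball (x + t • y) (R * lev s0 i), (‖fl b ε s0 f l z‖ - ⟪fl b ε s0 f l z, e⟫_ℝ)) =
      t / t ^ d * ((1 / 4 : ℝ) ^ (i - l) *
      ∫ z in ball (x + t • y) (R * lev s0 i), (‖fl b ε s0 f l z‖ - ⟪fl b ε s0 f l z, e⟫_ℝ)) := by
    intro l
    ring
  simp_rw [h3]
  rw [← Finset.mul_sum, mul_left_comm _ (t / t ^ d), ← mul_add, ← mul_assoc, div_pow]
  congr 1
  field_simp

lemma rs_cont {f : Sp d → E} (hf : Continuous f) (x : Sp d) (t : ℝ) : Continuous (rs x t f) := by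
  unfold rs
  exact continuous_const.smul (hf.comp (by fun_prop))

lemma rs_cs {f : Sp d → E} (hf : HasCompactSupport f) (x : Sp d) {t : ℝ} (ht : 0 < t) :
    HasCompactSupport (rs x t f) := by
  have h1 : HasCompactSupport (fun y => f (x + t • y)) :=
    hf.comp_homeomorph ((Homeomorph.smulOfNeZero t ht.ne').trans (Homeomorph.addLeft x))
  exact h1.smul_left (f := fun _ => t)

/-! ## frames of cells -/

lemma lev_pos {s0 : ℝ} (h : 0 < s0) (i : ℕ) : 0 < lev s0 i := by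
  unfold lev
  positivity

/-- the field in the frame of a cell -/
def fQ (s0 : ℝ) (f : Sp d → E) (Q : Cell d) : Sp d → E := rs (xC s0 Q) (lev s0 Q.1) f

lemma s0_div {s0 : ℝ} (h : 0 < s0) (i : ℕ) : s0 / lev s0 i = (1 / 2) ^ i := by
  unfold lev
  rw [one_div, inv_pow]
  field_simp

lemma ma_fQ (b : Sp d → ℝ) (ε : ℝ) (f : Sp d → E) {s0 : ℝ} (h : 0 < s0) (R : ℝ) (Q : Cell d) :
    ma b ε R ((1 / 2) ^ Q.1) (fQ s0 f Q) Q.1 0 = mC b ε R s0 f Q := by
  have h1 := ma_rs b ε f s0 (xC s0 Q) (lev_pos h Q.1) R Q.1 0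
  rw [s0_div h, smul_zero, add_zero] at h1
  exact h1

lemma DD_fQ (b : Sp d → ℝ) (ε : ℝ) (f : Sp d → E) {s0 : ℝ} (h : 0 < s0) (R : ℝ) (Q : Cell d)
    (e : E) :
    DD b ε R ((1 / 2) ^ Q.1) (fQ s0 f Q) Q.1 0 e = DD b ε R s0 f Q.1 (xC s0 Q) e := by
  have h1 := DD_rs b ε f s0 (xC s0 Q) (lev_pos h Q.1) R Q.1 0 e
  rw [s0_div h, smul_zero, add_zero] at h1
  exact h1

lemma ma_unit (b : Sp d → ℝ) (ε R : ℝ) (f : Sp d → E) (n : ℕ) (x : Sp d) :
    ma b ε R ((1 / 2) ^ n) f n x = ∫ y in ball x R, ‖fl b ε ((1 / 2) ^ n) f (n - 1) y‖ := by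
  unfold ma
  have h1 : lev ((1 / 2 : ℝ) ^ n) n = 1 := by
    unfold lev
    rw [← mul_pow]
    norm_num
  rw [h1]
  simp

lemma up_dist {s0 : ℝ} (h : 0 < s0) (l : ℕ) (Q : Cell d) :
    ‖xC s0 (up l Q) - xC s0 Q‖ ≤ Real.sqrt d * lev s0 (Q.1 + l) := by
  have h1 : ∀ j : Fin d, |(xC s0 (up l Q) - xC s0 Q) j| ≤ lev s0 (Q.1 + l) := by
    intro j
    have e1 : (xC s0 (up l Q) - xC s0 Q) j =
        lev s0 (Q.1 + l) * ((Q.2 j / 2 ^ l : ℤ) : ℝ) - lev s0 Q.1 * (Q.2 j : ℝ) := rfl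
    have e2 : lev s0 (Q.1 + l) = lev s0 Q.1 * 2 ^ l := by
      unfold lev
      rw [pow_add]
      ring
    have e3 := Int.emod_add_mul_ediv (Q.2 j) (2 ^ l)
    have e4 := Int.emod_nonneg (Q.2 j) (b := 2 ^ l) (by positivity)
    have e5 := Int.emod_lt_of_pos (Q.2 j) (b := 2 ^ l) (by positivity)
    have e6 : (Q.2 j : ℝ) = ((Q.2 j % 2 ^ l : ℤ) : ℝ) + 2 ^ l * ((Q.2 j / 2 ^ l : ℤ) : ℝ) := by
      exact_mod_cast e3.symm
    have e7 : (0 : ℝ) ≤ ((Q.2 j % 2 ^ l : ℤ) : ℝ) := by exact_mod_cast e4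
    have e8 : ((Q.2 j % 2 ^ l : ℤ) : ℝ) < 2 ^ l := by exact_mod_cast e5
    have e9 := lev_pos h Q.1
    rw [e1, e2]
    have e10 : lev s0 Q.1 * 2 ^ l * ((Q.2 j / 2 ^ l : ℤ) : ℝ) - lev s0 Q.1 * (Q.2 j : ℝ) =
        -(lev s0 Q.1 * ((Q.2 j % 2 ^ l : ℤ) : ℝ)) := by
      rw [e6]
      ring
    rw [e10, abs_neg, abs_of_nonneg (by positivity)]
    exact mul_le_mul_of_nonneg_left e8.le e9.le
  have hl := lev_pos h (Q.1 + l)
  have h2 : ‖xC s0 (up l Q) - xC s0 Q‖ ^ 2 ≤ (Real.sqrt d * lev s0 (Q.1 + l)) ^ 2 := by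
    rw [EuclideanSpace.norm_sq_eq, mul_pow, Real.sq_sqrt (by positivity)]
    calc ∑ j : Fin d, ‖(xC s0 (up l Q) - xC s0 Q) j‖ ^ 2
        ≤ ∑ j : Fin d, lev s0 (Q.1 + l) ^ 2 := by
          refine Finset.sum_le_sum fun j _ => ?_
          rw [Real.norm_eq_abs]
          exact pow_le_pow_left₀ (abs_nonneg _) (h1 j) 2
      _ = _ := by simp
  exact (sq_le_sq₀ (norm_nonneg _) (by positivity)).1 h2

variable [FiniteDimensional ℝ E]

omit [FiniteDimensional ℝ E] in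
lemma aux {p A : ℝ} (hp : 0 < p) (hA : 0 < A) (k : ℕ) :
    p / p ^ (k + 1) = A ^ k * (A * p * (1 / (A * p) ^ (k + 1))) := by
  rw [mul_pow, pow_succ, pow_succ]
  field_simp

omit [FiniteDimensional ℝ E] in
/-- mass of a ball against the tailed mass -/
lemma mC_le_mT {b : Sp d → ℝ} (hb : AK b) (ε : ℝ) {f : Sp d → E} (hf : Continuous f)
    (hc : HasCompactSupport f) {s0 : ℝ} (h : 0 < s0) {R : ℝ} (hR : 0 ≤ R) (Q : Cell d) :
    mC b ε R s0 f Q ≤ (1 + R) ^ (d + 2) * mT b ε s0 f Q := by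
  have hl := lev_pos h Q.1
  have hnw : 0 ≤ nw s0 Q := by unfold nw; positivity
  unfold mC ma mT
  change nw s0 Q * _ ≤ _
  rw [mul_left_comm]
  refine mul_le_mul_of_nonneg_left ?_ hnw
  rw [← integral_const_mul, ← integral_indicator measurableSet_ball]
  have hfc : Continuous (fl b ε s0 f (Q.1 - 1)) := fl_cont hb ε s0 hf _
  have hfs : HasCompactSupport (fl b ε s0 f (Q.1 - 1)) := fl_cs hb ε s0 hc _
  have hw : Continuous (fun y => ‖fl b ε s0 f (Q.1 - 1) y‖ /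
      (1 + ‖y - xC s0 Q‖ / lev s0 Q.1) ^ (d + 2)) :=
    hfc.norm.div (by fun_prop) (fun y => by positivity)
  have hws : HasCompactSupport (fun y => ‖fl b ε s0 f (Q.1 - 1) y‖ /
      (1 + ‖y - xC s0 Q‖ / lev s0 Q.1) ^ (d + 2)) := by
    simp_rw [div_eq_mul_inv]
    exact hfs.norm.mul_right
  refine integral_mono
    ((hfc.norm.integrable_of_hasCompactSupport hfs.norm).indicator measurableSet_ball)
    ((hw.integrable_of_hasCompactSupport hws).const_mul _) fun y => ?_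
  by_cases hy : y ∈ ball (xC s0 Q) (R * lev s0 Q.1)
  · rw [indicator_of_mem hy]
    rw [mem_ball, dist_eq_norm] at hy
    have h1 : 1 + ‖y - xC s0 Q‖ / lev s0 Q.1 ≤ 1 + R := by
      have : ‖y - xC s0 Q‖ / lev s0 Q.1 ≤ R := by
        rw [div_le_iff₀ hl]
        exact hy.le
      linarith
    have h2 : (1 + ‖y - xC s0 Q‖ / lev s0 Q.1) ^ (d + 2) ≤ (1 + R) ^ (d + 2) :=
      pow_le_pow_left₀ (by positivity) h1 _
    simp only
    rw [← mul_div_assoc, le_div_iff₀ (by positivity), mul_comm]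
    exact mul_le_mul_of_nonneg_right h2 (norm_nonneg _)
  · rw [indicator_of_notMem hy]
    (clear * - hR hl; positivity)

/-- transfer of the mass of a cell to an ancestor -/
lemma mass_up (hd : 1 ≤ d) {b : Sp d → ℝ} (hb : AK b) (hev : ∀ x, b (-x) = b x)
    (hρ : ∀ x, 1 / 2 ≤ ‖x‖ → b x = 0) {ε : ℝ} (hε : 0 < ε) (hε1 : ε ≤ 1) {R : ℝ}
    (hR : 2 * (d : ℝ) + 10 ≤ R) {f : Sp d → E} (hf : Continuous f)
    (hc : HasCompactSupport f) {s0 : ℝ} (h : 0 < s0) (l : ℕ) (Q : Cell d) {e : E}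
    (he : ‖e‖ = 1) :
    mC b ε (2 ^ l) s0 f Q ≤ (3 + Real.sqrt d) ^ (d + 2) * 2 ^ (l * (d - 1)) *
      mT b ε s0 f (up l Q) + 2 ^ (l * (d - 1)) * 4 ^ (l + 1) *
        DD b ε R s0 f (up l Q).1 (xC s0 (up l Q)) e := by
  set P := up l Q with hP
  have hP1 : P.1 = Q.1 + l := rfl
  set t := lev s0 P.1 with ht
  have htp : 0 < t := lev_pos h _
  set f' := fQ s0 f P with hf'
  have hfc' : Continuous f' := rs_cont hf _ _
  have hfs' : HasCompactSupport f' := rs_cs hc _ htp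
  set s1 : ℝ := (1 / 2) ^ P.1 with hs1
  have hs1p : 0 < s1 := by positivity
  set y0 : Sp d := (1 / t) • (xC s0 Q - xC s0 P) with hy0
  have hy0n : ‖y0‖ ≤ Real.sqrt d := by
    rw [hy0, norm_smul, Real.norm_of_nonneg (by positivity), norm_sub_rev, one_div,
      inv_mul_le_iff₀ htp, mul_comm]
    exact up_dist h l Q
  have hsd : Real.sqrt d ≤ d := by
    rw [Real.sqrt_le_left (by positivity)]
    have : (1 : ℝ) ≤ d := by exact_mod_cast hd
    nlinarith only [this]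
  have hd1 : (1 : ℝ) ≤ d := by exact_mod_cast hd
  have hxq : xC s0 P + t • y0 = xC s0 Q := by
    rw [hy0, smul_smul, mul_one_div_cancel htp.ne', one_smul]
    abel
  have hlevN : lev s1 (P.1 - 1) - lev s1 (Q.1 - 1) ≤ 1 / 2 := by
    have h2 := MA.lev_unit P.1
    have h3 := lev_pos hs1p (Q.1 - 1)
    by_cases hP0 : P.1 = 0
    · have hQ0 : Q.1 = 0 := by omega
      rw [hP0, hQ0]
      simp
    · have h4 : lev s1 P.1 = 2 * lev s1 (P.1 - 1) := by
        unfold lev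
        conv_lhs => rw [show P.1 = (P.1 - 1) + 1 by omega, pow_succ]
        ring
      rw [h2] at h4
      linarith
  have hlevN1 : lev s1 (P.1 - 1) ≤ 1 := by
    have h2 := MA.lev_unit P.1
    rw [← h2]
    exact MA.lev_le_lev hs1p (Nat.sub_le _ _)
  -- transfer in the frame of P
  have htr := MA.transfer hb hev hρ hε hε1 hs1p hfc' hfs' he (x := 0) (R := R)
    (U := ball y0 1) (fun y hy => by
      rw [mem_ball, dist_eq_norm] at hy
      have h2 : ‖y‖ ≤ ‖y - y0‖ + ‖y0‖ := by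
        have := norm_add_le (y - y0) y0
        rwa [sub_add_cancel] at this
      rw [sub_zero]
      linarith) (N := P.1 - 1) hlevN1 (P.1 - 1 - (Q.1 - 1)) (Q.1 - 1) (1 / 4) (by omega)
    (by norm_num) (by linarith)
  have hint : ∀ i, Integrable (fun y => ‖fl b ε s1 f' i y‖) := fun i =>
    (fl_cont hb ε s1 hfc' i).norm.integrable_of_hasCompactSupport (fl_cs hb ε s1 hfs' i).norm
  have a1 : ∫ y in ball y0 1, ‖fl b ε s1 f' (Q.1 - 1) y‖ ≤
      ∫ y in thickening (1 / 4) (ball y0 1), ‖fl b ε s1 f' (Q.1 - 1) y‖ :=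
    setIntegral_mono_set (hint _).integrableOn
      (Filter.Eventually.of_forall fun y => norm_nonneg _)
      (self_subset_thickening (by norm_num) _).eventuallyLE
  have a2 : ∫ y in thickening (1 / 4 + (lev s1 (P.1 - 1) - lev s1 (Q.1 - 1))) (ball y0 1),
      ‖fl b ε s1 f' (P.1 - 1) y‖ ≤ ∫ y in ball 0 (2 + Real.sqrt d), ‖fl b ε s1 f' (P.1 - 1) y‖ := by
    have hsub : thickening (1 / 4 + (lev s1 (P.1 - 1) - lev s1 (Q.1 - 1))) (ball y0 1) ⊆
        ball 0 (2 + Real.sqrt d) := ?_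
    · exact setIntegral_mono_set (hint _).integrableOn
        (Filter.Eventually.of_forall fun y => norm_nonneg _) hsub.eventuallyLE
    intro y hy
    rw [mem_thickening_iff] at hy
    obtain ⟨w, hw, hyw⟩ := hy
    rw [mem_ball, dist_zero_right]
    rw [mem_ball, dist_eq_norm] at hw
    rw [dist_eq_norm] at hyw
    have h2 : ‖y‖ ≤ ‖y - w‖ + ‖w - y0‖ + ‖y0‖ := by
      have e1 : y = (y - w) + (w - y0) + y0 := by abel
      calc ‖y‖ = ‖(y - w) + (w - y0) + y0‖ := by rw [← e1]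
        _ ≤ ‖(y - w) + (w - y0)‖ + ‖y0‖ := norm_add_le _ _
        _ ≤ _ := by linarith [norm_add_le (y - w) (w - y0)]
    linarith only [hy0n, hlevN, hw, hyw, h2]
  have a3 : ∑ j ∈ Finset.Ico (Q.1 - 1) (P.1 - 1), ∫ y in ball 0 R,
      MA.dfn (fl b ε s1 f' j) e y ≤ 4 ^ (l + 1) * DD b ε R s1 f' P.1 0 e := by
    have h2 := MA.DD_ge b ε R f' 0 he (n := P.1) (N := P.1 + 1) le_rfl
    have h3 : ∀ j, 0 ≤ ∫ y in ball (0 : Sp d) R, MA.dfn (fl b ε s1 f' j) e y := fun j =>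
      integral_nonneg fun _ => MA.dfn_nonneg he _ _
    calc ∑ j ∈ Finset.Ico (Q.1 - 1) (P.1 - 1), ∫ y in ball 0 R, MA.dfn (fl b ε s1 f' j) e y
        ≤ ∑ j ∈ Finset.Ico (Q.1 - 1) (P.1 - 1), 4 ^ (l + 1) * ((1 / 4 : ℝ) ^ (P.1 - j) *
            ∫ y in ball 0 R, MA.dfn (fl b ε s1 f' j) e y) := by
          refine Finset.sum_le_sum fun j hj => ?_
          have hj' := Finset.mem_Ico.1 hj
          have h4 : P.1 - j ≤ l + 1 := by omega
          have h5 : (1 : ℝ) ≤ 4 ^ (l + 1) * (1 / 4 : ℝ) ^ (P.1 - j) := by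
            have h6 : (1 / 4 : ℝ) ^ (l + 1) ≤ (1 / 4 : ℝ) ^ (P.1 - j) :=
              pow_le_pow_of_le_one (by norm_num) (by norm_num) h4
            calc (1 : ℝ) = 4 ^ (l + 1) * (1 / 4 : ℝ) ^ (l + 1) := by
                  rw [← mul_pow]; norm_num
              _ ≤ _ := mul_le_mul_of_nonneg_left h6 (by positivity)
          rw [← mul_assoc]
          exact le_mul_of_one_le_left (h3 j) h5
      _ ≤ ∑ j ∈ Finset.range (P.1 + 1), 4 ^ (l + 1) * ((1 / 4 : ℝ) ^ (P.1 - j) *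
            ∫ y in ball 0 R, MA.dfn (fl b ε s1 f' j) e y) := by
          refine Finset.sum_le_sum_of_subset_of_nonneg (fun j hj => ?_) (fun j _ _ => ?_)
          · have hj' := Finset.mem_Ico.1 hj
            exact Finset.mem_range.2 (by omega)
          · have := h3 j
            positivity
      _ ≤ _ := by
          rw [← Finset.mul_sum]
          exact mul_le_mul_of_nonneg_left h2 (by positivity)
  have a4 : ∫ y in ball 0 (2 + Real.sqrt d), ‖fl b ε s1 f' (P.1 - 1) y‖ ≤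
      (3 + Real.sqrt d) ^ (d + 2) * mT b ε s0 f P := by
    rw [← ma_unit, ma_fQ b ε f h]
    have h2 := mC_le_mT hb ε hf hc h (R := 2 + Real.sqrt d) (by positivity) P
    have h3 : 1 + (2 + Real.sqrt d) = 3 + Real.sqrt d := by ring
    rwa [h3] at h2
  have a5 : mC b ε (2 ^ l) s0 f Q = 2 ^ (l * (d - 1)) *
      ∫ y in ball y0 1, ‖fl b ε s1 f' (Q.1 - 1) y‖ := by
    have hs : s1 = s0 / t := (s0_div h _).symm
    have h2 : ∀ z, ‖fl b ε s1 f' (Q.1 - 1) z‖ =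
        t * ‖fl b ε s0 f (Q.1 - 1) (xC s0 P + t • z)‖ := fun z => by
      rw [hs, hf']
      unfold fQ
      rw [← ht, SC.fl_rs b ε s0 (xC s0 P) htp f, norm_smul, Real.norm_of_nonneg htp.le]
    simp_rw [h2]
    have h3 := SC.ball_scale (xC s0 P) htp (fun z => ‖fl b ε s0 f (Q.1 - 1) z‖) y0 t
    rw [div_self htp.ne', hxq] at h3
    rw [integral_const_mul, h3]
    unfold mC ma
    have h4 : (2 : ℝ) ^ l * lev s0 Q.1 = t := by
      rw [ht, hP1]
      unfold lev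
      rw [pow_add]
      ring
    rw [h4]
    have hq := lev_pos h Q.1
    have h5 : lev s0 Q.1 / lev s0 Q.1 ^ d = 2 ^ (l * (d - 1)) * (t * (1 / t ^ d)) := by
      rw [← h4]
      have h6 := aux hq (show (0 : ℝ) < 2 ^ l by positivity) (d - 1)
      rw [Nat.sub_add_cancel hd, ← pow_mul] at h6
      exact h6
    rw [h5]
    ring
  have hDD : DD b ε R s1 f' P.1 0 e = DD b ε R s0 f P.1 (xC s0 P) e := DD_fQ b ε f h R P e
  rw [hDD] at a3
  rw [a5]
  have a6 : ∫ y in ball y0 1, ‖fl b ε s1 f' (Q.1 - 1) y‖ ≤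
      (3 + Real.sqrt d) ^ (d + 2) * mT b ε s0 f P +
        4 ^ (l + 1) * DD b ε R s0 f P.1 (xC s0 P) e := by
    linarith
  refine (mul_le_mul_of_nonneg_left a6 (by positivity)).trans (le_of_eq ?_)
  ring

end CT8

theorem stmtCT8 (hZ : StmtZ) (hMA : StmtMA) : StmtCT8 := by
  intro d hd M c0 ε hε hε1 b hb
  obtain ⟨CZ, hCZ, hz⟩ := hZ d hd M c0 ε hε hε1 b hb
  obtain ⟨CM, hCM, hm⟩ := hMA d hd M c0 ε hε hε1 b hb
  obtain ⟨CN, hCN, hn⟩ := TU.MA' hMA hd hε hε1 hb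
  have hak := hb.ak
  have hev : ∀ x, b (-x) = b x := fun x =>
    le_antisymm (hb.mono _ _ (by rw [norm_neg])) (hb.mono _ _ (by rw [norm_neg]))
  set S : ℝ := (3 + Real.sqrt d) ^ (d + 2) with hS
  have hSp : 0 < S := by positivity
  have hd1 : (1 : ℝ) ≤ d := by exact_mod_cast hd
  refine ⟨CZ + S + CM * S * 4 ^ d + CN, by positivity, fun l => ?_⟩
  set T : ℕ → ℝ := fun i => 2 ^ (i * (d - 1)) * 4 ^ (i + 1) with hT
  have hTp : ∀ i, 0 < T i := fun i => by rw [hT]; positivity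
  have hTm : ∀ i, i ≤ l + 1 → T i ≤ T (l + 1) := fun i hi => by
    rw [hT]
    simp only
    gcongr
    · norm_num
    · norm_num
  refine ⟨T (l + 1) + CM * (T (l + 1) + 1), by
    have := hTp (l + 1)
    positivity, ?_⟩
  have hTl := hTp (l + 1)
  intro E _ _ _ R hR1 hR2 f hf hc s0 hs0 e he
  have hu := he.unit
  have hcont : ∀ Q : Cell d, Continuous (CT8.fQ s0 f Q) := fun Q => CT8.rs_cont hf _ _
  have hcs : ∀ Q : Cell d, HasCompactSupport (CT8.fQ s0 f Q) := fun Q =>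
    CT8.rs_cs hc _ (CT8.lev_pos hs0 _)
  have hDD : ∀ Q : Cell d, DD b ε R ((1 / 2) ^ Q.1) (CT8.fQ s0 f Q) Q.1 0 (e Q) =
      dC b ε R s0 f e Q := fun Q => CT8.DD_fQ b ε f hs0 R Q (e Q)
  have hDn : ∀ Q : Cell d, 0 ≤ dC b ε R s0 f e Q := fun Q => by
    rw [← hDD]
    exact TU.DD_nonneg b ε R (by positivity) _ _ _ (hu Q)
  have hmT : ∀ Q : Cell d, 0 ≤ mT b ε s0 f Q := fun Q => by
    unfold mT nw
    have := CT8.lev_pos hs0 Q.1
    exact mul_nonneg (by positivity) (integral_nonneg fun y => by positivity)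
  have hup : ∀ (i : ℕ) (Q : Cell d), mC b ε (2 ^ i) s0 f Q ≤
      S * 2 ^ (i * (d - 1)) * mT b ε s0 f (up i Q) + T i * dC b ε R s0 f e (up i Q) :=
    fun i Q => CT8.mass_up hd hak hev hb.supp hε hε1 hR1 hf hc hs0 i Q (hu (up i Q))
  refine ⟨fun Q => ⟨(hcont Q).inner continuous_const, ?_⟩, fun Q => ?_, ?_, ?_⟩
  · intro H h1 h2 h3 h4 h5
    have h6 := hz E (CT8.fQ s0 f Q) (hcont Q) (hcs Q) R (by linarith) Q.1 (e Q) (hu Q) 0 H h1 h2
      h3 h4 (fun y hy => h5 y (by rwa [sub_zero] at hy))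
    rw [hDD] at h6
    have h7 : CZ * dC b ε R s0 f e Q ≤ (CZ + S + CM * S * 4 ^ d + CN) * dC b ε R s0 f e Q :=
      mul_le_mul_of_nonneg_right (by
        have : 0 < CM * S * 4 ^ d := by positivity
        linarith) (hDn Q)
    have h8 : ∫ y, mQ s0 f (e Q) Q y * H y = ∫ y, ⟪CT8.fQ s0 f Q y, e Q⟫_ℝ * H y := rfl
    rw [h8]
    linarith
  · refine (hup l Q).trans (add_le_add ?_ ?_)
    · refine mul_le_mul_of_nonneg_right (mul_le_mul_of_nonneg_right ?_ (by positivity)) (hmT _)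
      have : 0 < CM * S * 4 ^ d := by positivity
      linarith
    · refine mul_le_mul_of_nonneg_right ?_ (hDn _)
      have h1 := hTm l (by omega)
      have : 0 < CM * (T (l + 1) + 1) := by positivity
      linarith
  · intro Q K γ a hK hγ hγ1 ha hg ρ hρ1 hρl ζ hζ hζ1 hζ2 hζs
    -- the exponent
    have hex : ∃ i : ℕ, ρ + 1 ≤ 2 ^ i := ⟨l + 1, by
      rw [pow_succ]
      linarith⟩
    classical
    set i := Nat.find hex with hi
    have hi1 : ρ + 1 ≤ 2 ^ i := Nat.find_spec hex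
    have hil : i ≤ l + 1 := Nat.find_min' hex (by rw [pow_succ]; linarith)
    have hi0 : i ≠ 0 := by
      intro h0
      rw [h0, pow_zero] at hi1
      linarith
    have hi2 : (2 : ℝ) ^ i ≤ 4 * ρ := by
      have h1 := Nat.find_min hex (show i - 1 < Nat.find hex by omega)
      push Not at h1
      have h2 : (2 : ℝ) ^ i = 2 ^ (i - 1) * 2 := by
        conv_lhs => rw [show i = (i - 1) + 1 by omega, pow_succ]
      rw [h2]
      linarith
    have h1 := (hm E (CT8.fQ s0 f Q) (hcont Q) (hcs Q) R (by linarith) Q.1 (e Q) (hu Q) 0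
      (ball 0 (ρ + 1)) measurableSet_ball).1 ζ hζ hζ1 hζ2
      (fun y hy => hζs y (by rw [sub_zero] at hy; linarith)) (fun y z hy hz => by
        have h2 : ‖y‖ < ρ := by
          by_contra hh
          exact hy (hζs y (not_lt.1 hh))
        rw [mem_ball, dist_zero_right]
        have h3 : ‖z‖ ≤ ‖z - y‖ + ‖y‖ := by
          have := norm_add_le (z - y) y
          rwa [sub_add_cancel] at this
        linarith)
    rw [hDD] at h1
    have h2 : ∫ y in ball 0 (ρ + 1), ‖fl b ε ((1 / 2) ^ Q.1) (CT8.fQ s0 f Q) (Q.1 - 1) y‖ ≤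
        mC b ε (2 ^ i) s0 f Q := by
      rw [← CT8.ma_fQ b ε f hs0, CT8.ma_unit]
      refine setIntegral_mono_set ?_ (Filter.Eventually.of_forall fun y => norm_nonneg _)
        (ball_subset_ball hi1).eventuallyLE
      exact ((fl_cont hak ε _ (hcont Q) _).norm.integrable_of_hasCompactSupport
        (fl_cs hak ε _ (hcs Q) _).norm).integrableOn
    have h3 := hup i Q
    have h4 : (2 : ℝ) ^ (i * (d - 1)) * (2 : ℝ) ^ (γ * i) ≤ 4 ^ d * ρ ^ ((d : ℝ) - 1 + γ) := by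
      have e1 : (2 : ℝ) ^ (i * (d - 1)) * (2 : ℝ) ^ (γ * i) = ((2 : ℝ) ^ i) ^ ((d : ℝ) - 1 + γ) := by
        rw [Real.rpow_add (by positivity), pow_mul]
        congr 1
        · rw [← Real.rpow_natCast ((2 : ℝ) ^ i) (d - 1), Nat.cast_sub hd]
          simp
        · rw [← Real.rpow_natCast 2 i, ← Real.rpow_mul (by norm_num), mul_comm]
      rw [e1]
      calc ((2 : ℝ) ^ i) ^ ((d : ℝ) - 1 + γ) ≤ (4 * ρ) ^ ((d : ℝ) - 1 + γ) :=
            Real.rpow_le_rpow (by positivity) hi2 (by linarith)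
        _ = 4 ^ ((d : ℝ) - 1 + γ) * ρ ^ ((d : ℝ) - 1 + γ) :=
            Real.mul_rpow (by norm_num) (by linarith)
        _ ≤ 4 ^ d * ρ ^ ((d : ℝ) - 1 + γ) := by
            refine mul_le_mul_of_nonneg_right ?_ (Real.rpow_nonneg (by linarith) _)
            rw [← Real.rpow_natCast 4 d]
            exact Real.rpow_le_rpow_of_exponent_le (by norm_num) (by linarith)
    have h5 : S * 2 ^ (i * (d - 1)) * mT b ε s0 f (up i Q) ≤
        S * 4 ^ d * K * ρ ^ ((d : ℝ) - 1 + γ) * a := by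
      calc S * 2 ^ (i * (d - 1)) * mT b ε s0 f (up i Q)
          ≤ S * 2 ^ (i * (d - 1)) * (K * (2 : ℝ) ^ (γ * i) * a) :=
            mul_le_mul_of_nonneg_left (hg i hil) (by positivity)
        _ = S * K * a * (2 ^ (i * (d - 1)) * (2 : ℝ) ^ (γ * i)) := by ring
        _ ≤ S * K * a * (4 ^ d * ρ ^ ((d : ℝ) - 1 + γ)) :=
            mul_le_mul_of_nonneg_left h4 (by positivity)
        _ = _ := by ring
    set Sg := ∑ r ∈ Finset.range (l + 2), dC b ε R s0 f e (up r Q) with hSg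
    have h6 : ∀ r, r ≤ l + 1 → dC b ε R s0 f e (up r Q) ≤ Sg := fun r hr =>
      Finset.single_le_sum (f := fun r => dC b ε R s0 f e (up r Q)) (fun r _ => hDn _)
        (Finset.mem_range.2 (by omega))
    have h7 := h6 0 (by omega)
    have h8 := h6 i hil
    have hup0 : up 0 Q = Q := by
      unfold up
      simp
    rw [hup0] at h7
    have hSg0 : 0 ≤ Sg := (hDn Q).trans h7
    have h9 : T i * dC b ε R s0 f e (up i Q) ≤ T (l + 1) * Sg :=
      mul_le_mul (hTm i hil) h8 (hDn _) hTl.le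
    have hρp : 0 ≤ ρ ^ ((d : ℝ) - 1 + γ) := Real.rpow_nonneg (by linarith) _
    have h10 : |∫ y, mQ s0 f (e Q) Q y * ζ y| ≤ CM * ((S * 4 ^ d * K * ρ ^ ((d : ℝ) - 1 + γ) * a +
        T (l + 1) * Sg) + Sg) := by
      refine h1.trans (mul_le_mul_of_nonneg_left ?_ hCM.le)
      linarith only [h2, h3, h5, h7, h9]
    refine h10.trans ?_
    have e1 : 0 ≤ (CZ + S + CN) * (K * ρ ^ ((d : ℝ) - 1 + γ) * a) := by (clear * - hCZ hd hCN hK hρ1 ha; positivity)
    have e2 : 0 ≤ T (l + 1) * Sg := by (clear * - hSg0; positivity)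
    linarith only [e1, e2]
  · intro Q r ζ N hr hrR hζ hζs
    have h1 := (hn E (CT8.fQ s0 f Q) (hcont Q) (hcs Q) R (by linarith) Q.1 (e Q) (hu Q) 0
      (ball 0 (r + 2)) measurableSet_ball).1 ζ N hζ
      (fun y hy => hζs y (by rw [sub_zero] at hy; linarith)) (fun y z hy hz => by
        have h2 : ‖y‖ < r := by
          by_contra hh
          exact hy (hζs y (not_lt.1 hh))
        rw [mem_ball, dist_zero_right]
        have h3 : ‖z‖ ≤ ‖z - y‖ + ‖y‖ := by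
          have := norm_add_le (z - y) y
          rwa [sub_add_cancel] at this
        linarith)
    rw [hDD, ← CT8.ma_unit, CT8.ma_fQ b ε f hs0] at h1
    have hN : 0 ≤ N := TU.TFn_nonneg hζ
    have hmC : 0 ≤ mC b ε (r + 2) s0 f Q := TU.ma_nonneg b ε _ hs0 f _ _
    refine h1.trans ?_
    rw [mul_assoc, mul_assoc]
    refine mul_le_mul_of_nonneg_right ?_ (mul_nonneg hN (add_nonneg hmC (hDn Q)))
    have : 0 < CM * S * 4 ^ d := by positivity
    linarith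

end

end TG


end

section

set_option autoImplicit false
set_option linter.unusedSectionVars false

/-!
# Module RB: robustness of the cell functions (the structure Rob for the concrete functions)
-/

open MeasureTheory Metric Set TrI
open scoped InnerProductSpace ContDiff ENNReal

namespace TG

noncomputable section

/-- MODULE RB: the structure Rob for the concrete cell functions; radii 64 R0, 32 R0, shift 3 -/
def StmtRB : Prop :=
  ∀ (d : ℕ), 2 ≤ d → ∀ (M c0 ε : ℝ), 0 < ε → ε ≤ 1 → ∀ (b : Sp d → ℝ), BaseKer 2 M c0 b →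
  ∀ (R0 : ℝ) (J : ℕ), 400 + 8 * d ≤ R0 → ∃ C1 : ℝ, 1 ≤ C1 ∧
    ∀ (E : Type) [NormedAddCommGroup E] [InnerProductSpace ℝ E] [FiniteDimensional ℝ E]
      [Nontrivial E] (f : Sp d → E), Continuous f → HasCompactSupport f →
    ∀ R : ℝ, 128 * R0 ≤ R → ∀ s0 : ℝ, 0 < s0 → ∀ e : Cell d → E, Dirs b ε R s0 f e →
    ∀ (ν : Cell d → Sp d) (c : Cell d → ℝ), Plns R0 s0 f e ν c →
    ∀ nb : Cell d → Finset (Cell d), (∀ Q, Q ∈ nb Q) →
      (∀ Q, ∀ Q' ∈ nb Q, Q.1 ≤ Q'.1 ∧ Q'.1 ≤ Q.1 + J ∧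
        ‖xC s0 Q' - xC s0 Q‖ ≤ 4 * R0 * lev s0 Q'.1) →
      Rob C1 J 3 nb (mC b ε (64 * R0) s0 f) (mC b ε (32 * R0) s0 f) (mT b ε s0 f)
        (dC b ε R s0 f e) (bC R0 s0 f e ν c)

namespace RB

variable {d : ℕ}

lemma lev_add' (s0 : ℝ) (i m : ℕ) : lev s0 (i + m) = 2 ^ m * lev s0 i := by
  unfold lev; rw [pow_add]; ring

lemma sqrt_le {d : ℕ} : Real.sqrt (d : ℝ) ≤ d := by
  rcases Nat.eq_zero_or_pos d with h | h
  · simp [h]
  · have h1 : (1 : ℝ) ≤ d := by exact_mod_cast h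
    rw [Real.sqrt_le_left (by linarith)]
    nlinarith

/-- distance between the ancestor of Q' and a higher ancestor of Q -/
lemma geo1 {s0 R0 : ℝ} (hs : 0 < s0) {Q Q' : Cell d} (hle : Q.1 ≤ Q'.1)
    (hR : 0 ≤ R0) (hdist : ‖xC s0 Q' - xC s0 Q‖ ≤ 4 * R0 * lev s0 Q'.1) (l : ℕ) :
    ‖xC s0 (up (Q'.1 - Q.1 + l + 3) Q) - xC s0 (up l Q')‖ ≤
      (4 * R0 + 9 * d) * lev s0 (Q'.1 + l) := by
  have h1 := CT8.up_dist hs l Q'
  have h2 := CT8.up_dist hs (Q'.1 - Q.1 + l + 3) Q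
  have e1 : Q.1 + (Q'.1 - Q.1 + l + 3) = (Q'.1 + l) + 3 := by omega
  rw [e1, lev_add' s0 (Q'.1 + l) 3] at h2
  have hL := CT8.lev_pos hs (Q'.1 + l)
  have h3 : lev s0 Q'.1 ≤ lev s0 (Q'.1 + l) := by
    rw [lev_add']
    have h4 := CT8.lev_pos hs Q'.1
    have h5 : (1 : ℝ) ≤ 2 ^ l := one_le_pow₀ (by norm_num)
    nlinarith only [h4, h5]
  have h6 : ‖xC s0 (up (Q'.1 - Q.1 + l + 3) Q) - xC s0 (up l Q')‖ ≤
      ‖xC s0 (up (Q'.1 - Q.1 + l + 3) Q) - xC s0 Q‖ + ‖xC s0 Q' - xC s0 Q‖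
        + ‖xC s0 (up l Q') - xC s0 Q'‖ := by
    have e2 : xC s0 (up (Q'.1 - Q.1 + l + 3) Q) - xC s0 (up l Q') =
      (xC s0 (up (Q'.1 - Q.1 + l + 3) Q) - xC s0 Q) - (xC s0 Q' - xC s0 Q)
        - (xC s0 (up l Q') - xC s0 Q') := by abel
    rw [e2]
    exact (norm_sub_le _ _).trans (add_le_add (norm_sub_le _ _) le_rfl)
  have hsq := @sqrt_le d
  have h7 : 4 * R0 * lev s0 Q'.1 ≤ 4 * R0 * lev s0 (Q'.1 + l) :=
    mul_le_mul_of_nonneg_left h3 (by linarith)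
  have h8 : Real.sqrt d * (2 ^ 3 * lev s0 (Q'.1 + l)) ≤ d * (2 ^ 3 * lev s0 (Q'.1 + l)) :=
    mul_le_mul_of_nonneg_right hsq (by positivity)
  have h9 : Real.sqrt d * lev s0 (Q'.1 + l) ≤ d * lev s0 (Q'.1 + l) :=
    mul_le_mul_of_nonneg_right hsq hL.le
  linarith only [hdist, h1, h2, h6, h7, h8]

/-- distance between the ancestor of Q and a higher ancestor of Q' -/
lemma geo2 {s0 R0 : ℝ} (hs : 0 < s0) {Q Q' : Cell d} (hle : Q.1 ≤ Q'.1)
    (hR : 0 ≤ R0) (hdist : ‖xC s0 Q' - xC s0 Q‖ ≤ 4 * R0 * lev s0 Q'.1) (l : ℕ) :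
    ‖xC s0 (up (l + 3) Q') - xC s0 (up l Q)‖ ≤
      (4 * R0 + 9 * d) * (2 ^ (Q'.1 - Q.1) * lev s0 (Q.1 + l)) := by
  have h1 := CT8.up_dist hs l Q
  have h2 := CT8.up_dist hs (l + 3) Q'
  have e1 : Q'.1 + (l + 3) = ((Q.1 + l) + (Q'.1 - Q.1)) + 3 := by omega
  rw [e1, lev_add' s0 _ 3, lev_add' s0 (Q.1 + l)] at h2
  have hL := CT8.lev_pos hs (Q.1 + l)
  have h5 : (1 : ℝ) ≤ 2 ^ (Q'.1 - Q.1) := one_le_pow₀ (by norm_num)
  have h3 : lev s0 Q'.1 ≤ 2 ^ (Q'.1 - Q.1) * lev s0 (Q.1 + l) := by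
    have e2 : Q'.1 = Q.1 + (Q'.1 - Q.1) := by omega
    have e3 : lev s0 Q'.1 = 2 ^ (Q'.1 - Q.1) * lev s0 Q.1 := by
      conv_lhs => rw [e2, lev_add']
    rw [e3]
    refine mul_le_mul_of_nonneg_left ?_ (by positivity)
    rw [lev_add']
    have h4 := CT8.lev_pos hs Q.1
    have h6 : (1 : ℝ) ≤ 2 ^ l := one_le_pow₀ (by norm_num)
    nlinarith only [h4, h6]
  have h6 : ‖xC s0 (up (l + 3) Q') - xC s0 (up l Q)‖ ≤
      ‖xC s0 (up (l + 3) Q') - xC s0 Q'‖ + ‖xC s0 Q' - xC s0 Q‖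
        + ‖xC s0 (up l Q) - xC s0 Q‖ := by
    have e2 : xC s0 (up (l + 3) Q') - xC s0 (up l Q) =
      (xC s0 (up (l + 3) Q') - xC s0 Q') + (xC s0 Q' - xC s0 Q)
        - (xC s0 (up l Q) - xC s0 Q) := by abel
    rw [e2]
    exact (norm_sub_le _ _).trans (add_le_add (norm_add_le _ _) le_rfl)
  have hsq := @sqrt_le d
  set W : ℝ := 2 ^ (Q'.1 - Q.1) * lev s0 (Q.1 + l) with hW
  have hWL : lev s0 (Q.1 + l) ≤ W := by rw [hW]; nlinarith only [hL, h5]
  have hW0 : 0 < W := by positivity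
  have h7 : 4 * R0 * lev s0 Q'.1 ≤ 4 * R0 * W := mul_le_mul_of_nonneg_left h3 (by linarith)
  have h8 : Real.sqrt d * (2 ^ 3 * W) ≤ d * (2 ^ 3 * W) :=
    mul_le_mul_of_nonneg_right hsq (by positivity)
  have h9 : Real.sqrt d * lev s0 (Q.1 + l) ≤ d * W :=
    mul_le_mul hsq hWL hL.le (Nat.cast_nonneg d)
  linarith only [hdist, h1, h6, h2, h7, h8, h9]

end RB

open _root_.TG.RB in
theorem stmtRB (h2 : StmtCT2) (h4 : StmtCT4) (h5 : StmtCT5) : StmtRB := by
  intro d hd M c0 ε hε hε1 b hb R0 J hR0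
  have hd1 : 1 ≤ d := by omega
  have hdr : (2 : ℝ) ≤ d := by exact_mod_cast hd
  have hR00 : 0 ≤ R0 := by nlinarith
  obtain ⟨C4, hC4, H4⟩ := h4 d hd1 (4 * R0) (by linarith)
  choose F hF0 HF using fun m : ℕ => h5 d hd1 M c0 ε hε hε1 b hb R0 m (by linarith)
  set S : ℝ := ∑ m ∈ Finset.range (J + 4), F m with hS
  have hFS : ∀ m ≤ J + 3, F m ≤ S := fun m hm =>
    Finset.single_le_sum (f := F) (fun i _ => (hF0 i).le) (Finset.mem_range.2 (by omega))
  have hS0 : 0 < S := (hF0 0).trans_le (hFS 0 (by omega))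
  set T : ℝ := (1 + 64 * R0) ^ (d + 2) with hT
  have hT0 : 0 ≤ T := by positivity
  refine ⟨C4 + S + S * S + T, by nlinarith [mul_nonneg hS0.le hS0.le], ?_⟩
  intro E _ _ _ _ f hf hcs R hR s0 hs e he ν c hpl nb hself hnb
  set C1 : ℝ := C4 + S + S * S + T with hC1
  have hSS : 0 ≤ S * S := mul_nonneg hS0.le hS0.le
  have hC1S : S ≤ C1 := by rw [hC1]; linarith
  have hC14 : C4 ≤ C1 := by rw [hC1]; linarith
  have hC1T : T ≤ C1 := by rw [hC1]; linarith
  have hC1SS : S * S ≤ C1 := by rw [hC1]; linarith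
  obtain ⟨C2, hC2, H2⟩ := h2 d hd1 M c0 ε R hε hε1 (by linarith) b hb
  obtain ⟨G1, G2, -⟩ := H2 E f hf hcs s0 hs e he
  obtain ⟨K1, K2, K3, -⟩ := H4 M c0 ε hε hε1 b hb E f hf hcs s0 hs
  have hRR : 2 * R0 + 10 ≤ R := by linarith
  have A1 := fun m => (HF m E R hRR f hf hcs s0 hs e he ν c hpl).1
  have A2 := fun m => (HF m E R hRR f hf hcs s0 hs e he ν c hpl).2.1
  have A3 := fun m => (HF m E R hRR f hf hcs s0 hs e he ν c hpl).2.2.1
  have A4 := fun m => (HF m E R hRR f hf hcs s0 hs e he ν c hpl).2.2.2.1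
  have hm0 : ∀ (r : ℝ) (Q : Cell d), 0 ≤ mC b ε r s0 f Q := by
    intro r Q
    have h1 : 0 < lev s0 Q.1 := CT8.lev_pos hs _
    unfold mC ma
    exact mul_nonneg (by positivity) (setIntegral_nonneg measurableSet_ball
      fun y _ => norm_nonneg _)
  have hT0' : ∀ Q : Cell d, 0 ≤ mT b ε s0 f Q := by
    intro Q
    have h1 : 0 < lev s0 Q.1 := CT8.lev_pos hs _
    unfold mT nw
    refine mul_nonneg (by positivity) (integral_nonneg fun y => ?_)
    positivity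
  have hnw : ∀ Q : Cell d, nw s0 Q ≤ s0 / s0 ^ d := by
    intro Q
    have h1 : 0 < lev s0 Q.1 := CT8.lev_pos hs _
    have e0 : lev s0 0 = s0 := by simp [lev]
    have h6 : s0 ≤ lev s0 Q.1 := by
      have : lev s0 Q.1 = 2 ^ Q.1 * lev s0 0 := by
        have := lev_add' s0 0 Q.1
        rwa [zero_add] at this
      rw [this, e0]
      have h7 : (1 : ℝ) ≤ 2 ^ Q.1 := one_le_pow₀ (by norm_num)
      nlinarith only [hs, h7]
    obtain ⟨k, rfl⟩ : ∃ k, d = k + 1 := ⟨d - 1, by omega⟩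
    have e1 : ∀ t : ℝ, 0 < t → t / t ^ (k + 1) = 1 / t ^ k := by
      intro t ht
      rw [pow_succ]
      field_simp
    unfold nw
    rw [e1 _ h1, e1 _ hs]
    exact one_div_le_one_div_of_le (by positivity) (pow_le_pow_left₀ hs.le h6 k)
  have hint : 0 ≤ ∫ y, ‖f y‖ := integral_nonneg fun y => norm_nonneg _
  have hatb : ∀ Q : Cell d, mT b ε s0 f Q ≤ s0 / s0 ^ d * ∫ y, ‖f y‖ := fun Q =>
    (K2 Q).trans (mul_le_mul_of_nonneg_right (hnw Q) hint)
  have hDm : ∀ m ≤ J + 3, ∀ Q P : Cell d, P.1 = Q.1 + m →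
      ‖xC s0 P - xC s0 Q‖ ≤ R * (lev s0 P.1 - lev s0 Q.1) →
      dC b ε R s0 f e Q ≤ S * dC b ε R s0 f e P := by
    intro m hm Q P hQP hdist
    exact (A2 m Q P hQP hdist).trans (mul_le_mul_of_nonneg_right (hFS m hm) (G1 P))
  have hbm : ∀ m ≤ J + 3, ∀ Q P : Cell d, P.1 = Q.1 + m →
      ‖xC s0 P - xC s0 Q‖ ≤ R0 * lev s0 P.1 - (R0 + 1) * lev s0 Q.1 →
      bC R0 s0 f e ν c Q ≤ S * (bC R0 s0 f e ν c P + dC b ε R s0 f e Q +
          dC b ε R s0 f e P) := by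
    intro m hm Q P hQP hdist
    refine (A3 m Q P hQP hdist).trans (mul_le_mul_of_nonneg_right (hFS m hm) ?_)
    have g1 := (A1 0 P).2.1
    have g2 := G1 P
    have g3 := G1 Q
    linarith
  have hbn : ∀ Q, 0 ≤ bC R0 s0 f e ν c Q := fun Q => (A1 0 Q).2.1
  -- the four distances
  have hd1' : ∀ Q, ∀ Q' ∈ nb Q, ∀ l : ℕ,
      ‖xC s0 (up (Q'.1 - Q.1 + l + 3) Q) - xC s0 (up l Q')‖ ≤
        R0 * lev s0 (up (Q'.1 - Q.1 + l + 3) Q).1 - (R0 + 1) * lev s0 (up l Q').1 := by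
    intro Q Q' hQ' l
    obtain ⟨g1, g2, g3⟩ := hnb Q Q' hQ'
    refine (geo1 hs g1 hR00 g3 l).trans ?_
    have e1 : (up (Q'.1 - Q.1 + l + 3) Q).1 = (Q'.1 + l) + 3 := by
      show Q.1 + (Q'.1 - Q.1 + l + 3) = (Q'.1 + l) + 3
      omega
    have e2 : (up l Q').1 = Q'.1 + l := rfl
    rw [e1, e2, lev_add' s0 (Q'.1 + l) 3]
    have hL := CT8.lev_pos hs (Q'.1 + l)
    nlinarith only [hL, hR0]
  have hd2' : ∀ Q, ∀ Q' ∈ nb Q, ∀ l : ℕ,
      ‖xC s0 (up (l + 3) Q') - xC s0 (up l Q)‖ ≤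
        R0 * lev s0 (up (l + 3) Q').1 - (R0 + 1) * lev s0 (up l Q).1 := by
    intro Q Q' hQ' l
    obtain ⟨g1, g2, g3⟩ := hnb Q Q' hQ'
    refine (geo2 hs g1 hR00 g3 l).trans ?_
    have e1 : (up (l + 3) Q').1 = ((Q.1 + l) + (Q'.1 - Q.1)) + 3 := by
      show Q'.1 + (l + 3) = ((Q.1 + l) + (Q'.1 - Q.1)) + 3
      omega
    have e2 : (up l Q).1 = Q.1 + l := rfl
    rw [e1, e2, lev_add' s0 _ 3, lev_add' s0 (Q.1 + l)]
    have hL := CT8.lev_pos hs (Q.1 + l)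
    have h5 : (1 : ℝ) ≤ 2 ^ (Q'.1 - Q.1) := one_le_pow₀ (by norm_num)
    set W : ℝ := 2 ^ (Q'.1 - Q.1) * lev s0 (Q.1 + l) with hW
    have hWL : lev s0 (Q.1 + l) ≤ W := by rw [hW]; nlinarith only [hL, h5]
    nlinarith only [hL, hWL, hR0]
  have hconv : ∀ Q P : Cell d,
      ‖xC s0 P - xC s0 Q‖ ≤ R0 * lev s0 P.1 - (R0 + 1) * lev s0 Q.1 → 
      ‖xC s0 P - xC s0 Q‖ ≤ R * (lev s0 P.1 - lev s0 Q.1) := by
    intro Q P h
    have h1 := norm_nonneg (xC s0 P - xC s0 Q)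
    have h3 := CT8.lev_pos hs P.1
    have h4 := CT8.lev_pos hs Q.1
    have h6 : 0 ≤ lev s0 P.1 - lev s0 Q.1 := by
      by_contra hneg
      rw [not_le] at hneg
      nlinarith only [h, h1, h3, hneg, hR0]
    nlinarith only [h, h1, hR0, hR, h3]
  refine ⟨by rw [hC1]; nlinarith only [hC4, hS0, hT0], hself, fun Q Q' h => ⟨(hnb Q Q' h).1, (hnb Q Q' h).2.1⟩,
    fun Q => hm0 _ Q, G1, hbn, hT0', ⟨_, hatb⟩, G2, ?_, ?_, ?_, ?_, ?_, ?_, ?_, ?_, ?_⟩
  · -- b bounded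
    obtain ⟨B, hB⟩ := G2
    refine ⟨F 0 * ((1 + (R0 + 3)) ^ (d + 2) * (s0 / s0 ^ d * ∫ y, ‖f y‖) + B), fun Q => ?_⟩
    refine (A1 0 Q).2.2.trans (mul_le_mul_of_nonneg_left (add_le_add ?_ (hB Q)) (hF0 0).le)
    exact (K1 (R0 + 3) (by linarith) Q).trans
      (mul_le_mul_of_nonneg_left (hatb Q) (by positivity))
  · -- ah ≤ a
    intro Q
    have h1 : 0 < lev s0 Q.1 := CT8.lev_pos hs _
    unfold mC ma
    refine mul_le_mul_of_nonneg_left ?_ (by positivity)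
    have hfc : Continuous (fl b ε s0 f (Q.1 - 1)) := fl_cont hb.ak ε s0 hf _
    have hfs : HasCompactSupport (fl b ε s0 f (Q.1 - 1)) := fl_cs hb.ak ε s0 hcs _
    have hint2 : Integrable fun y => ‖fl b ε s0 f (Q.1 - 1) y‖ :=
      hfc.norm.integrable_of_hasCompactSupport hfs.norm
    exact setIntegral_mono_set hint2.integrableOn
      (Filter.Eventually.of_forall fun y => norm_nonneg _)
      (ball_subset_ball (by nlinarith only [h1, hR0])).eventuallyLE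
  · -- a ≤ C1 at
    intro Q
    exact (K1 (64 * R0) (by linarith) Q).trans (mul_le_mul_of_nonneg_right hC1T (hT0' Q))
  · -- at1
    intro Q Q' hQ' l
    obtain ⟨g1, g2, g3⟩ := hnb Q Q' hQ'
    have h := (K3 (Q'.1 - Q.1) Q Q' (by omega) g3 l).1
    rw [add_comm l] at h
    exact h.trans (mul_le_mul_of_nonneg_right hC14 (hT0' _))
  · -- D1
    intro Q Q' hQ' l
    obtain ⟨g1, g2, g3⟩ := hnb Q Q' hQ'
    have h := hDm 3 (by omega) (up l Q') (up (Q'.1 - Q.1 + l + 3) Q)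
      (by show Q.1 + (Q'.1 - Q.1 + l + 3) = Q'.1 + l + 3; omega) (hconv _ _ (hd1' Q Q' hQ' l))
    exact h.trans (mul_le_mul_of_nonneg_right hC1S (G1 _))
  · -- D2
    intro Q Q' hQ' l
    obtain ⟨g1, g2, g3⟩ := hnb Q Q' hQ'
    have h := hDm (Q'.1 - Q.1 + 3) (by omega) (up l Q) (up (l + 3) Q')
      (by show Q'.1 + (l + 3) = Q.1 + l + (Q'.1 - Q.1 + 3); omega)
      (hconv _ _ (hd2' Q Q' hQ' l))
    exact h.trans (mul_le_mul_of_nonneg_right hC1S (G1 _))
  · -- m1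
    intro Q Q' hQ'
    obtain ⟨g1, g2, g3⟩ := hnb Q Q' hQ'
    have e0 : Q'.1 = Q.1 + (Q'.1 - Q.1) := by omega
    have hL := CT8.lev_pos hs Q.1
    have hL' := CT8.lev_pos hs Q'.1
    have hLL : lev s0 Q.1 ≤ lev s0 Q'.1 := by
      rw [e0, lev_add']
      have h5 : (1 : ℝ) ≤ 2 ^ (Q'.1 - Q.1) := one_le_pow₀ (by norm_num)
      nlinarith only [hL, h5]
    have h1 := A4 (Q'.1 - Q.1) Q Q' e0 (32 * R0) (64 * R0) (by linarith) (by linarith)
      (by nlinarith only [g3, hL', hLL, hR0])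
    have h6 := hDm (J + 3 - (Q'.1 - Q.1)) (by omega) Q' (up (J + 3) Q)
      (by show Q.1 + (J + 3) = Q'.1 + (J + 3 - (Q'.1 - Q.1)); omega) (by
        refine hconv _ _ ?_
        have h7 := CT8.up_dist hs (J + 3) Q
        have e3 : (up (J + 3) Q).1 = Q.1 + (J + 3) := rfl
        rw [e3]
        have h8 : 8 * lev s0 Q'.1 ≤ lev s0 (Q.1 + (J + 3)) := by
          have e4 : Q.1 + (J + 3) = (Q'.1 + 3) + (J - (Q'.1 - Q.1)) := by omega
          rw [e4, lev_add' s0 (Q'.1 + 3), lev_add' s0 Q'.1 3]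
          have h9 : (1 : ℝ) ≤ 2 ^ (J - (Q'.1 - Q.1)) := one_le_pow₀ (by norm_num)
          nlinarith only [hL', h9]
        have h10 : ‖xC s0 (up (J + 3) Q) - xC s0 Q'‖ ≤
            ‖xC s0 (up (J + 3) Q) - xC s0 Q‖ + ‖xC s0 Q' - xC s0 Q‖ := by
          have e5 : xC s0 (up (J + 3) Q) - xC s0 Q' =
            (xC s0 (up (J + 3) Q) - xC s0 Q) - (xC s0 Q' - xC s0 Q) := by abel
          rw [e5]; exact norm_sub_le _ _
        have hsq := @RB.sqrt_le d
        have h11 : Real.sqrt d * lev s0 (Q.1 + (J + 3)) ≤ d * lev s0 (Q.1 + (J + 3)) :=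
          mul_le_mul_of_nonneg_right hsq (CT8.lev_pos hs _).le
        nlinarith only [g3, hL', h7, h8, h10, h11, hR0])
    have h12 : F (Q'.1 - Q.1) ≤ S := hFS _ (by omega)
    have h13 : mC b ε (64 * R0) s0 f Q' + dC b ε R s0 f e Q' ≤
        mC b ε (64 * R0) s0 f Q' + S * dC b ε R s0 f e (up (J + 3) Q) := by linarith
    have h14 := hm0 (64 * R0) Q'
    have h15 := G1 Q'
    have h16 := G1 (up (J + 3) Q)
    calc mC b ε (32 * R0) s0 f Q ≤ F (Q'.1 - Q.1) *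
          (mC b ε (64 * R0) s0 f Q' + dC b ε R s0 f e Q') := h1
      _ ≤ S * (mC b ε (64 * R0) s0 f Q' + S * dC b ε R s0 f e (up (J + 3) Q)) :=
          mul_le_mul h12 h13 (by linarith) hS0.le
      _ = S * mC b ε (64 * R0) s0 f Q' + S * S * dC b ε R s0 f e (up (J + 3) Q) := by ring
      _ ≤ C1 * mC b ε (64 * R0) s0 f Q' + C1 * dC b ε R s0 f e (up (J + 3) Q) :=
          add_le_add (mul_le_mul_of_nonneg_right hC1S h14)
            (mul_le_mul_of_nonneg_right hC1SS h16)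
      _ = C1 * (mC b ε (64 * R0) s0 f Q' + dC b ε R s0 f e (up (J + 3) Q)) := by ring
  · -- b1
    intro Q Q' hQ' l
    obtain ⟨g1, g2, g3⟩ := hnb Q Q' hQ'
    have h := hbm 3 (by omega) (up l Q') (up (Q'.1 - Q.1 + l + 3) Q)
      (by show Q.1 + (Q'.1 - Q.1 + l + 3) = Q'.1 + l + 3; omega) (hd1' Q Q' hQ' l)
    have k1 := hbn (up (Q'.1 - Q.1 + l + 3) Q)
    have k2 := G1 (up (Q'.1 - Q.1 + l + 3) Q)
    have k3 := G1 (up l Q')
    have h' : S * (bC R0 s0 f e ν c (up (Q'.1 - Q.1 + l + 3) Q) + dC b ε R s0 f e (up l Q') +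
        dC b ε R s0 f e (up (Q'.1 - Q.1 + l + 3) Q)) ≤
        C1 * (bC R0 s0 f e ν c (up (Q'.1 - Q.1 + l + 3) Q) + dC b ε R s0 f e (up l Q') +
        dC b ε R s0 f e (up (Q'.1 - Q.1 + l + 3) Q)) :=
      mul_le_mul_of_nonneg_right hC1S (by linarith)
    linarith
  · -- b2
    intro Q Q' hQ' l
    obtain ⟨g1, g2, g3⟩ := hnb Q Q' hQ'
    have h := hbm (Q'.1 - Q.1 + 3) (by omega) (up l Q) (up (l + 3) Q')
      (by show Q'.1 + (l + 3) = Q.1 + l + (Q'.1 - Q.1 + 3); omega) (hd2' Q Q' hQ' l)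
    have k1 := hbn (up (l + 3) Q')
    have k2 := G1 (up (l + 3) Q')
    have k3 := G1 (up l Q)
    have h' : S * (bC R0 s0 f e ν c (up (l + 3) Q') + dC b ε R s0 f e (up l Q) +
        dC b ε R s0 f e (up (l + 3) Q')) ≤
        C1 * (bC R0 s0 f e ν c (up (l + 3) Q') + dC b ε R s0 f e (up l Q) +
        dC b ε R s0 f e (up (l + 3) Q')) :=
      mul_le_mul_of_nonneg_right hC1S (by linarith)
    linarith

end

end TG


end

section

/-!
# Module LW, part b: all local inequalities with common constants   (helper46)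
-/

open MeasureTheory Metric Set TrI
open scoped InnerProductSpace ContDiff ENNReal

namespace TG

namespace LW

noncomputable section

variable {d : ℕ} {E : Type} [NormedAddCommGroup E] [InnerProductSpace ℝ E]

lemma ash_mono {J JA : ℕ} {R0 κ κ' Kc : ℝ} {W : Wld d E} {Q : Cell d}
    (h : Ash J JA R0 κ Kc W Q) (hκ : κ ≤ κ') : Ash J JA R0 κ' Kc W Q :=
  ⟨h.1, wsh_mono h.2.1 hκ, fun Q' hQ' => ⟨(h.2.2 Q' hQ').1, wsh_mono (h.2.2 Q' hQ').2.1 hκ,
    (h.2.2 Q' hQ').2.2⟩⟩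

/-- the local inequalities with common constants -/
structure CW (J JA rm : ℕ) (R0 κ Kc Cu c1 η CK δ Cb K γ R1 Rs RM C3 Ct R2 : ℝ) (tol : ℕ → ℝ)
    (W : Wld d E) : Prop where
  w1 : ∀ Q : Cell d, ¬ W.Near Q →
    W.w Q * W.val Q ≤ W.nt1 Q + Cb * (W.w Q * W.v Q) * W.D Q
  w2 : ∀ Q : Cell d, 2 ≤ Q.1 → W.Near Q → Ash J JA R0 κ Kc W Q →
    c1 * (W.w Q * W.val Q) ≤ W.nt1 Q + η * W.sV R0 JA Q +
      CK * (W.w Q * W.v Q) * (W.sE R0 JA Q + W.sD R0 JA Q)
  w3 : ∀ Q : Cell d, W.Near Q → W.kd Q = 1 → WNw K γ R1 Rs RM rm tol W Q →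
    (∀ Q' ∈ adj Q, W.Near Q' → W.kd Q' = 1) →
    W.w Q * W.val Q ≤ W.nt1 Q + δ * (W.w Q * W.v Q) * W.a Q + Cb * (W.w Q * W.v Q) * W.D Q
  w4 : ∀ Q : Cell d, W.Near Q → (W.kd Q = 0 → |W.sv Q| ≤ 32 * R0 + 4) →
    (∀ Q' ∈ adj Q, W.kd Q' = 0 ∨ W.kd Q' = 1) →
    (∀ Q' ∈ adj Q, 0 ≤ W.a Q') →
    (∀ Q' ∈ adj Q, W.kd Q' = 1 → WNw K γ R1 Rs RM rm tol W Q') →
    ∀ EI : Cell d → ℝ, (∀ Q' ∈ adj Q, W.kd Q' = 0 → 0 ≤ EI Q' ∧ WSh J R0 κ W Q' ∧
      WIf J W Q' (EI Q') ∧ 0 ≤ W.a Q' ∧ MG K γ RM (W.a Q') (W.D Q') (W.m Q') ∧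
      (W.kd Q = 0 → W.ab Q' ≤ Kc * W.ab Q)) →
    c1 * (W.w Q * W.val Q) ≤ W.nt1 Q +
      CK * (W.w Q * W.v Q) * (∑ Q' ∈ (adj Q).filter (fun Q' => W.kd Q' = 0),
        (W.er Q' + W.dl Q' + EI Q')) +
      δ * (W.w Q * W.v Q) * (∑ Q' ∈ adj Q, W.a Q') +
      Cb * (W.w Q * W.v Q) * ∑ Q' ∈ adj Q, W.D Q'
  w5 : ∀ Q : Cell d, W.Near Q → (W.kd Q = 0 → WSh J R0 κ W Q) →
    (∀ Q' ∈ adj Q, W.kd Q' = 1 → WNw K γ R1 Rs RM rm tol W Q') →
    ∀ al : ℝ, 0 ≤ al → (∀ (ζ : Sp d → ℝ) (N : ℝ), TFn 2 N ζ →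
      (∀ y, (d : ℝ) + 3 ≤ ‖y‖ → ζ y = 0) → |∫ y, W.m Q y * ζ y| ≤ N * al) →
    W.w Q * W.val Q ≤ W.nt1 Q + Cu * (W.w Q * W.v Q) * al +
      δ * (W.w Q * W.v Q) * (∑ Q' ∈ (adj Q).filter (fun Q' => W.kd Q' = 1), W.a Q') +
      Cb * (W.w Q * W.v Q) * ∑ Q' ∈ adj Q, W.D Q'
  wA6 : ∀ Q : Cell d, Ash J JA R0 κ Kc W Q →
    W.w Q * W.v Q * bq R0 (W.m Q) ≤
      Cu * W.sV R0 JA Q + CK * (W.w Q * W.v Q) * (W.sE R0 JA Q + W.sD R0 JA Q)
  wA7 : ∀ P : Cell d, 2 ≤ P.1 → Ash J JA R0 κ Kc W P →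
    ∀ (at1 DT : ℝ) (n : Sp d) (s : ℝ), 0 ≤ at1 → 0 ≤ DT → ‖n‖ = 1 → |s| ≤ R2 →
    at1 ≤ C3 * (∫ y, W.m P y * zR Ct y) + DT →
    W.w P * (at1 * Mo (W.mu P) n s 2 1 0) ≤ Cu * W.sV R0 JA P +
      Cu * (W.w P * W.v P) * max 0 (blc n s (W.m P) R0) +
      CK * (W.w P * W.v P) * (W.sE R0 JA P + W.sD R0 JA P + DT)
  wB6 : ∀ Q : Cell d,
    (∀ Q' ∈ W.ns R0 JA Q, Q'.1 = Q.1 → W.kd Q' = 1 ∧ WNw K γ R1 Rs RM rm tol W Q') →
    ∀ mass : ℝ, 0 ≤ mass → ((∃ Q' ∈ W.ns R0 JA Q, Q'.1 = Q.1 ∧ W.Near Q') →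
      (∑ Q' ∈ (W.ns R0 JA Q).filter (fun Q' => Q'.1 = Q.1), W.a Q') ≤ mass) →
    W.w Q * W.v Q * bq R0 (W.m Q) ≤ Cu * W.sV R0 JA Q +
      δ * (W.w Q * W.v Q) * mass + Cb * (W.w Q * W.v Q) * W.sD R0 JA Q ∧
    ∀ (at1 DT : ℝ) (n : Sp d) (s : ℝ), 0 ≤ at1 → 0 ≤ DT → ‖n‖ = 1 → |s| ≤ R2 →
    at1 ≤ C3 * (∫ y, W.m Q y * zR Ct y) + DT →
    W.w Q * (at1 * Mo (W.mu Q) n s 2 1 0) ≤ Cu * W.sV R0 JA Q +
      Cu * (W.w Q * W.v Q) * max 0 (blc n s (W.m Q) R0) +
      δ * (W.w Q * W.v Q) * mass + Cb * (W.w Q * W.v Q) * (W.sD R0 JA Q + DT)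

lemma m3 {C C' x y : ℝ} (h : C ≤ C') (h' : 0 ≤ x * y) : C * x * y ≤ C' * x * y := by
  rw [mul_assoc C, mul_assoc C']
  exact mul_le_mul_of_nonneg_right h h'

omit [NormedAddCommGroup E] [InnerProductSpace ℝ E] in
lemma cRN_Near (W : Wld d E) (RN : ℝ) (Q : Cell d) : (cRN W RN).Near Q ↔ W.Near Q := Iff.rfl

omit [NormedAddCommGroup E] [InnerProductSpace ℝ E] in
lemma cRN_sE (W : Wld d E) (RN R0 : ℝ) (JA : ℕ) (Q : Cell d) :
    (cRN W RN).sE R0 JA Q = W.sE R0 JA Q := rfl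

omit [NormedAddCommGroup E] [InnerProductSpace ℝ E] in
lemma w_nn (W : Wld d E) (hs : 0 < W.s0) (Q : Cell d) : 0 ≤ W.w Q := by
  unfold Wld.w cw
  exact pow_nonneg (FR.lev_pos hs _).le _

lemma self_ns (hNS : StmtNS) (hd : 1 ≤ d) {s0 r : ℝ} (hs : 0 < s0) (hr : 0 ≤ r) (JA : ℕ)
    (Q : Cell d) : Q ∈ nst s0 r JA Q := by
  refine ((hNS d hd s0 r hs hr JA Q).1 Q).2 ⟨0, Nat.zero_le _, rfl, ?_⟩
  rw [sub_self, norm_zero]
  exact mul_nonneg hr (FR.lev_pos hs _).le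

lemma adj_ns (hNS : StmtNS) (hd : 1 ≤ d) {s0 r : ℝ} (hs : 0 < s0) (hr : Real.sqrt d ≤ r)
    (JA : ℕ) (Q : Cell d) : adj Q ⊆ nst s0 r JA Q :=
  (hNS d hd s0 r hs ((Real.sqrt_nonneg _).trans hr) JA Q).2.2.2.2.2.2.2 hr

theorem comb (hW1 : StmtW1) (hW2 : StmtW2) (hW3 : StmtW3) (hW4 : StmtW4) (hW5 : StmtW5)
    (hWA6 : StmtWA6) (hWA7 : StmtWA7) (hWB6 : StmtWB6) (hNS : StmtNS) {d J JA : ℕ} (hd : 2 ≤ d)
    {M c0 C' c R0 : ℝ} {X0 : Prm d} (hX : XOK J JA M c0 C' c R0 X0) (hRN1 : X0.RN = 1)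
    {C3 Ct R2 : ℝ} (hC3 : 0 < C3) (hCt : 1 ≤ Ct) (hCt8 : 8 * Ct ≤ R0) (hR2 : 0 < R2) :
    ∃ (Cu c1 : ℝ), 1 ≤ Cu ∧ 0 < c1 ∧ ∀ (η Kc : ℝ), 0 < η → 1 ≤ Kc →
    ∃ (κ CK : ℝ), 0 < κ ∧ κ ≤ 1 ∧ 0 < CK ∧
    ∀ (K γ δ : ℝ), 0 < K → 0 < γ → γ ≤ 1 / (8 * d) → 0 < δ → ∃ RN0 : ℝ, 1 ≤ RN0 ∧
    ∀ RN : ℝ, RN0 ≤ RN → ∃ (Rs RM : ℝ) (tol : ℕ → ℝ), (∀ J, 0 < tol J) ∧ 1 ≤ Rs ∧
    ∀ (R1 : ℝ) (rm : ℕ), ∃ (Cb Rz : ℝ), 0 < Cb ∧
    ∀ (E : Type) [NormedAddCommGroup E] [InnerProductSpace ℝ E] [FiniteDimensional ℝ E]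
      (W : Wld d E), WOK JA C' R0 Rz { X0 with RN := RN } W → (∀ Q, 0 ≤ W.val Q) →
      (∀ Q, 0 ≤ W.v Q) →
      CW J JA rm R0 κ Kc Cu c1 η CK δ Cb K γ R1 Rs RM C3 Ct R2 tol W := by
  have hd1 : 1 ≤ d := by omega
  have hdR : (1 : ℝ) ≤ d := by exact_mod_cast hd1
  have hR0 : 0 < R0 := by
    have := hX.R0_ge
    have := hX.prm.A_ge
    linarith
  obtain ⟨c2, hc2, g2⟩ := hW2 d J JA hd M c0 C' c R0 X0 hX
  obtain ⟨c4, hc4, g4⟩ := hW4 d J JA hd M c0 C' c R0 X0 hX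
  obtain ⟨κ5, C5, hκ5, hC5, g5⟩ := hW5 d J JA hd M c0 C' c R0 X0 hX
  obtain ⟨C6, hC6, g6⟩ := hWA6 d J JA hd M c0 C' c R0 X0 hX
  obtain ⟨C7, hC7, g7⟩ := hWA7 d J JA hd M c0 C' c R0 X0 hX C3 Ct R2 hC3 hCt hCt8 hR2
  obtain ⟨C8, hC8, g8⟩ := hWB6 d J JA hd M c0 C' c R0 X0 hX C3 Ct R2 hC3 hCt hCt8 hR2
  refine ⟨1 + C5 + C6 + C7 + C8, min c2 c4, by linarith, lt_min hc2 hc4, ?_⟩
  intro η Kc hη hKc
  obtain ⟨κ2, CK2, Rz2, hκ2, hCK2, g2⟩ := g2 η Kc hη hKc
  obtain ⟨κ4, C4, hκ4, hC4, g4⟩ := g4 Kc hKc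
  obtain ⟨κ6, CK6, Rz6, hκ6, hCK6, g6⟩ := g6 Kc hKc
  obtain ⟨κ7, CK7, Rz7, hκ7, hCK7, g7⟩ := g7 Kc hKc
  refine ⟨min 1 (min (min κ2 κ4) (min κ5 (min κ6 κ7))), CK2 + C4 + CK6 + CK7, ?_,
    min_le_left _ _, by linarith, ?_⟩
  · exact lt_min one_pos (lt_min (lt_min hκ2 hκ4) (lt_min hκ5 (lt_min hκ6 hκ7)))
  intro K γ δ hK hγ hγ1 hδ
  obtain ⟨RN3, hRN3, g3⟩ := hW3 d J JA hd M c0 C' c R0 X0 hX K γ δ hK hγ hγ1 hδ
  obtain ⟨RN4, hRN4, g4⟩ := g4 K γ δ hK hγ hγ1 hδ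
  obtain ⟨RN5, hRN5, g5⟩ := g5 K γ δ hK hγ hγ1 hδ
  obtain ⟨RN8, hRN8, g8⟩ := g8 K γ δ hK hγ hγ1 hδ
  refine ⟨max (max RN3 RN4) (max RN5 RN8), hRN3.trans ((le_max_left _ _).trans
    (le_max_left _ _)), ?_⟩
  intro RN hRN
  obtain ⟨Rs3, RM3, tol3, ht3, hRs3, g3⟩ := g3 RN
    (((le_max_left _ _).trans (le_max_left _ _)).trans hRN)
  obtain ⟨Rs4, RM4, tol4, ht4, hRs4, g4⟩ := g4 RN
    (((le_max_right _ _).trans (le_max_left _ _)).trans hRN)
  obtain ⟨Rs5, RM5, tol5, ht5, hRs5, g5⟩ := g5 RN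
    (((le_max_left _ _).trans (le_max_right _ _)).trans hRN)
  obtain ⟨Rs8, RM8, tol8, ht8, hRs8, g8⟩ := g8 RN
    (((le_max_right _ _).trans (le_max_right _ _)).trans hRN)
  refine ⟨max (max Rs3 Rs4) (max Rs5 Rs8), max (max RM3 RM4) (max RM5 RM8),
    fun J => min (min (tol3 J) (tol4 J)) (min (tol5 J) (tol8 J)),
    fun J => lt_min (lt_min (ht3 J) (ht4 J)) (lt_min (ht5 J) (ht8 J)),
    hRs3.trans ((le_max_left _ _).trans (le_max_left _ _)), ?_⟩
  intro R1 rm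
  have hX' : XOK J JA M c0 C' c R0 { X0 with RN := RN } :=
    ⟨hX.J_ge, hX.C'_pos, ⟨hX.prm.ker, hRN3.trans (((le_max_left _ _).trans
      (le_max_left _ _)).trans hRN), hX.prm.ε_pos, hX.prm.ε_le, hX.prm.p0_pos, hX.prm.p0_le,
      hX.prm.A_ge⟩, hX.ker, hX.far, hX.R0_ge, hX.JA_ge, hX.JA_7⟩
  obtain ⟨Cb1, Rz1, hCb1, g1⟩ := hW1 d J JA hd M c0 C' c R0 _ hX'
  obtain ⟨Cb3, Rz3, hCb3, g3⟩ := g3 R1 rm
  obtain ⟨Cb4, Rz4, hCb4, g4⟩ := g4 R1 rm
  obtain ⟨Cb5, Rz5, hCb5, g5⟩ := g5 R1 rm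
  obtain ⟨Cb8, Rz8, hCb8, g8⟩ := g8 R1 rm
  refine ⟨Cb1 + Cb3 + Cb4 + Cb5 + Cb8,
    max (max (max Rz1 Rz2) (max Rz3 Rz4)) (max (max Rz5 Rz6) (max Rz7 Rz8)), by linarith, ?_⟩
  intro E _ _ _ W hW hval hv
  have hz1 := wok_mono hW (Rz' := Rz1) (by simp)
  have hz2 := wok_mono hW (Rz' := Rz2) (by simp)
  have hz3 := wok_mono hW (Rz' := Rz3) (by simp)
  have hz4 := wok_mono hW (Rz' := Rz4) (by simp)
  have hz5 := wok_mono hW (Rz' := Rz5) (by simp)
  have hz6 := wok_mono hW (Rz' := Rz6) (by simp)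
  have hz7 := wok_mono hW (Rz' := Rz7) (by simp)
  have hz8 := wok_mono hW (Rz' := Rz8) (by simp)
  have hw : ∀ Q, 0 ≤ W.w Q := w_nn W hW.s0_pos
  have hwv : ∀ Q, 0 ≤ W.w Q * W.v Q := fun Q => mul_nonneg (hw Q) (hv Q)
  have hD := hW.D0
  have hsV : ∀ Q, 0 ≤ W.sV R0 JA Q := fun Q =>
    Finset.sum_nonneg fun Q' _ => mul_nonneg (hw Q') (hval Q')
  have hsD : ∀ Q, 0 ≤ W.sD R0 JA Q := fun Q => Finset.sum_nonneg fun Q' _ => hD Q'
  have hwval : ∀ Q, 0 ≤ W.w Q * W.val Q := fun Q => mul_nonneg (hw Q) (hval Q)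
  set κ := min 1 (min (min κ2 κ4) (min κ5 (min κ6 κ7))) with hκ
  have hκ2' : κ ≤ κ2 := by simp [hκ]
  have hκ4' : κ ≤ κ4 := by simp [hκ]
  have hκ5' : κ ≤ κ5 := by simp [hκ]
  have hκ6' : κ ≤ κ6 := by simp [hκ]
  have hκ7' : κ ≤ κ7 := by simp [hκ]
  have hself : ∀ Q, Q ∈ W.ns R0 JA Q := fun Q =>
    self_ns hNS hd1 hW.s0_pos (by linarith) JA Q
  have hsd : Real.sqrt d ≤ 3 * R0 := by
    have h1 : Real.sqrt d ≤ d := by
      rw [Real.sqrt_le_left (by linarith)]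
      nlinarith only [hdR]
    have := hX.R0_ge
    have := hX.prm.A_ge
    linarith
  have hadj : ∀ Q, adj Q ⊆ W.ns R0 JA Q := fun Q =>
    adj_ns hNS hd1 hW.s0_pos hsd JA Q
  have hsE : ∀ Q, Ash J JA R0 κ Kc W Q → 0 ≤ W.sE R0 JA Q := by
    intro Q hQ
    unfold Wld.sE
    split_ifs with h
    · refine Finset.sum_nonneg fun Q' hQ' => ?_
      have h1 := (hQ.2.2 Q' hQ').2.1
      exact add_nonneg (div_nonneg (sq_nonneg _) h1.sh.ab0.le) h1.dl0
    · exact le_rfl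
  -- worlds with RN = 1
  have hkd : ∀ Q, Ash J JA R0 κ Kc W Q → ∀ Q' ∈ W.ns R0 JA Q, W.kd Q' = 0 :=
    fun Q hQ Q' hQ' => (hQ.2.2 Q' hQ').1
  refine ⟨?_, ?_, ?_, ?_, ?_, ?_, ?_, ?_⟩
  · -- w1
    intro Q hQ
    have h1 := (g1 E W hz1 Q hQ).2.2.2.1
    have h2 := mul_nonneg (hwv Q) (hD Q)
    have h3 : Cb1 * (W.w Q * W.v Q) * W.D Q ≤
        (Cb1 + Cb3 + Cb4 + Cb5 + Cb8) * (W.w Q * W.v Q) * W.D Q := 
      m3 (by linarith) h2
    linarith
  · -- w2
    intro Q hQ2 hN hA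
    have hk := hkd Q hA
    have h1 := g2 E (cRN W X0.RN) (cRN_wok hz2) Q hQ2 hN (cRN_ash (ash_mono hA hκ2') _)
    rw [cRN_val W _ (hk Q (hself Q)), cRN_nt1 W _ (hk Q (hself Q))
      (fun Q' hQ' => hk Q' (hadj Q hQ')), cRN_sV W _ R0 JA hk] at h1
    have h1' : c2 * (W.w Q * W.val Q) ≤ W.nt1 Q + η * W.sV R0 JA Q +
        CK2 * (W.w Q * W.v Q) * (W.sE R0 JA Q + W.sD R0 JA Q) := h1
    have h2 : min c2 c4 * (W.w Q * W.val Q) ≤ c2 * (W.w Q * W.val Q) :=
      mul_le_mul_of_nonneg_right (min_le_left _ _) (hwval Q)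
    have h3 : CK2 * (W.w Q * W.v Q) * (W.sE R0 JA Q + W.sD R0 JA Q) ≤
        (CK2 + C4 + CK6 + CK7) * (W.w Q * W.v Q) * (W.sE R0 JA Q + W.sD R0 JA Q) := 
      m3 (by linarith) (mul_nonneg (hwv Q) (add_nonneg (hsE Q hA) (hsD Q)))
    linarith
  · -- w3
    intro Q hN hk hNw ha
    have h1 := g3 E W hz3 Q hN hk (wnw_mono hNw (by simp) (by simp) (fun J => by simp)) ha
    have h2 := mul_nonneg (hwv Q) (hD Q)
    have h3 : Cb3 * (W.w Q * W.v Q) * W.D Q ≤
        (Cb1 + Cb3 + Cb4 + Cb5 + Cb8) * (W.w Q * W.v Q) * W.D Q := 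
      m3 (by linarith) h2
    linarith
  · -- w4
    intro Q hN hs hk ha0 hNw EI hEI
    have h1 := g4 E W hz4 Q hN hs hk
      (fun Q' hQ' hk' => wnw_mono (hNw Q' hQ' hk') (by simp) (by simp) (fun J => by simp)) EI
      (fun Q' hQ' hk' => by
        obtain ⟨e1, e2, e3, e4, e5, e6⟩ := hEI Q' hQ' hk'
        exact ⟨e1, wsh_mono e2 hκ4', e3, e4, mg_mono e5 le_rfl (by simp) e4 le_rfl, e6⟩)
    have h2 : min c2 c4 * (W.w Q * W.val Q) ≤ c4 * (W.w Q * W.val Q) :=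
      mul_le_mul_of_nonneg_right (min_le_right _ _) (hwval Q)
    have h4 : 0 ≤ ∑ Q' ∈ (adj Q).filter (fun Q' => W.kd Q' = 0),
        (W.er Q' + W.dl Q' + EI Q') := by
      refine Finset.sum_nonneg fun Q' hQ' => ?_
      obtain ⟨hQ1, hQ2⟩ := Finset.mem_filter.1 hQ'
      obtain ⟨e1, e2, _⟩ := hEI Q' hQ1 hQ2
      exact add_nonneg (add_nonneg e2.sh.ep0 e2.dl0) e1
    have h3 : C4 * (W.w Q * W.v Q) * (∑ Q' ∈ (adj Q).filter (fun Q' => W.kd Q' = 0),
        (W.er Q' + W.dl Q' + EI Q')) ≤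
        (CK2 + C4 + CK6 + CK7) * (W.w Q * W.v Q) *
          (∑ Q' ∈ (adj Q).filter (fun Q' => W.kd Q' = 0), (W.er Q' + W.dl Q' + EI Q')) := 
      m3 (by linarith) (mul_nonneg (hwv Q) h4)
    have h5 : Cb4 * (W.w Q * W.v Q) * ∑ Q' ∈ adj Q, W.D Q' ≤
        (Cb1 + Cb3 + Cb4 + Cb5 + Cb8) * (W.w Q * W.v Q) * ∑ Q' ∈ adj Q, W.D Q' := 
      m3 (by linarith) (mul_nonneg (hwv Q) (Finset.sum_nonneg fun Q' _ => hD Q'))
    linarith
  · -- w5
    intro Q hN hS hNw al hal hal2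
    have h1 := g5 E W hz5 Q hN (fun h => wsh_mono (hS h) hκ5')
      (fun Q' hQ' hk' => wnw_mono (hNw Q' hQ' hk') (by simp) (by simp) (fun J => by simp))
      al hal hal2
    have h3 : C5 * (W.w Q * W.v Q) * al ≤ (1 + C5 + C6 + C7 + C8) * (W.w Q * W.v Q) * al := 
      m3 (by linarith) (mul_nonneg (hwv Q) hal)
    have h5 : Cb5 * (W.w Q * W.v Q) * ∑ Q' ∈ adj Q, W.D Q' ≤
        (Cb1 + Cb3 + Cb4 + Cb5 + Cb8) * (W.w Q * W.v Q) * ∑ Q' ∈ adj Q, W.D Q' := 
      m3 (by linarith) (mul_nonneg (hwv Q) (Finset.sum_nonneg fun Q' _ => hD Q'))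
    linarith
  · -- wA6
    intro Q hA
    have hk := hkd Q hA
    have h1 := g6 E (cRN W X0.RN) (cRN_wok hz6) Q (cRN_ash (ash_mono hA hκ6') _)
    rw [cRN_sV W _ R0 JA hk] at h1
    have h1' : W.w Q * W.v Q * bq R0 (W.m Q) ≤
        C6 * W.sV R0 JA Q + CK6 * (W.w Q * W.v Q) * (W.sE R0 JA Q + W.sD R0 JA Q) := h1
    have h2 : C6 * W.sV R0 JA Q ≤ (1 + C5 + C6 + C7 + C8) * W.sV R0 JA Q :=
      mul_le_mul_of_nonneg_right (by linarith) (hsV Q)
    have h3 : CK6 * (W.w Q * W.v Q) * (W.sE R0 JA Q + W.sD R0 JA Q) ≤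
        (CK2 + C4 + CK6 + CK7) * (W.w Q * W.v Q) * (W.sE R0 JA Q + W.sD R0 JA Q) := 
      m3 (by linarith) (mul_nonneg (hwv Q) (add_nonneg (hsE Q hA) (hsD Q)))
    linarith
  · -- wA7
    intro P hP2 hA at1 DT n s h1 h2 h3 h4 h5
    have hk := hkd P hA
    have h6 := g7 E (cRN W X0.RN) (cRN_wok hz7) P hP2 (cRN_ash (ash_mono hA hκ7') _)
      at1 DT n s h1 h2 h3 h4 h5
    rw [cRN_sV W _ R0 JA hk] at h6
    have h6' : W.w P * (at1 * Mo (W.mu P) n s 2 1 0) ≤ C7 * W.sV R0 JA P +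
        C7 * (W.w P * W.v P) * max 0 (blc n s (W.m P) R0) +
        CK7 * (W.w P * W.v P) * (W.sE R0 JA P + W.sD R0 JA P + DT) := h6
    have h7 : C7 * W.sV R0 JA P ≤ (1 + C5 + C6 + C7 + C8) * W.sV R0 JA P :=
      mul_le_mul_of_nonneg_right (by linarith) (hsV P)
    have h8 : C7 * (W.w P * W.v P) * max 0 (blc n s (W.m P) R0) ≤
        (1 + C5 + C6 + C7 + C8) * (W.w P * W.v P) * max 0 (blc n s (W.m P) R0) := 
      m3 (by linarith) (mul_nonneg (hwv P) (le_max_left _ _))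
    have h9 : CK7 * (W.w P * W.v P) * (W.sE R0 JA P + W.sD R0 JA P + DT) ≤
        (CK2 + C4 + CK6 + CK7) * (W.w P * W.v P) * (W.sE R0 JA P + W.sD R0 JA P + DT) := 
      m3 (by linarith) (mul_nonneg (hwv P) (add_nonneg (add_nonneg (hsE P hA) (hsD P)) h2))
    linarith
  · -- wB6
    intro Q hQ mass hm hm2
    have h1 := g8 E W hz8 Q (fun Q' hQ' hl => ⟨(hQ Q' hQ' hl).1,
      wnw_mono (hQ Q' hQ' hl).2 (by simp) (by simp) (fun J => by simp)⟩) mass hm hm2
    have h7 : C8 * W.sV R0 JA Q ≤ (1 + C5 + C6 + C7 + C8) * W.sV R0 JA Q :=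
      mul_le_mul_of_nonneg_right (by linarith) (hsV Q)
    constructor
    · have h9 : Cb8 * (W.w Q * W.v Q) * W.sD R0 JA Q ≤
          (Cb1 + Cb3 + Cb4 + Cb5 + Cb8) * (W.w Q * W.v Q) * W.sD R0 JA Q := 
        m3 (by linarith) (mul_nonneg (hwv Q) (hsD Q))
      linarith [h1.1]
    · intro at1 DT n s e1 e2 e3 e4 e5
      have h6 := h1.2 at1 DT n s e1 e2 e3 e4 e5
      have h8 : C8 * (W.w Q * W.v Q) * max 0 (blc n s (W.m Q) R0) ≤
          (1 + C5 + C6 + C7 + C8) * (W.w Q * W.v Q) * max 0 (blc n s (W.m Q) R0) := 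
        m3 (by linarith) (mul_nonneg (hwv Q) (le_max_left _ _))
      have h9 : Cb8 * (W.w Q * W.v Q) * (W.sD R0 JA Q + DT) ≤
          (Cb1 + Cb3 + Cb4 + Cb5 + Cb8) * (W.w Q * W.v Q) * (W.sD R0 JA Q + DT) := 
        m3 (by linarith) (mul_nonneg (hwv Q) (add_nonneg (hsD Q) e2))
      linarith

end

end LW

end TG


end

section

/-!
# Module SHA, part 1: the adjoint operator, explicit integration by parts (MP_287c87_an; helper22)
-/

set_option linter.unusedSectionVars false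

open MeasureTheory Metric Set TrI
open scoped InnerProductSpace ContDiff

namespace TG
namespace SH

variable {d : ℕ} {V E : Type} [NormedAddCommGroup V] [InnerProductSpace ℝ V]
  [FiniteDimensional ℝ V] [NormedAddCommGroup E] [InnerProductSpace ℝ E] [FiniteDimensional ℝ E]

section Adjoint

/-- the symbol A(ξ) -/
noncomputable def AL (L : (Sp d →L[ℝ] V) →L[ℝ] E) (ξ : Sp d) : V →L[ℝ] E :=
  L.comp (ContinuousLinearMap.smulRightL ℝ (Sp d) V (innerSL ℝ ξ))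

theorem AL_apply (L : (Sp d →L[ℝ] V) →L[ℝ] E) (ξ : Sp d) (v : V) : AL L ξ v = L (rk1 ξ v) := rfl

theorem norm_rk1_le (ξ : Sp d) (v : V) : ‖rk1 ξ v‖ ≤ ‖ξ‖ * ‖v‖ := by
  unfold rk1
  rw [ContinuousLinearMap.norm_smulRight_apply, innerSL_apply_norm]

theorem norm_AL_le (L : (Sp d →L[ℝ] V) →L[ℝ] E) (ξ : Sp d) : ‖AL L ξ‖ ≤ ‖L‖ * ‖ξ‖ := by
  refine ContinuousLinearMap.opNorm_le_bound _ (by positivity) fun v => ?_
  rw [AL_apply, mul_assoc]
  exact (L.le_opNorm _).trans (by gcongr; exact norm_rk1_le ξ v)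

/-- the transposed symbol -/
noncomputable def AT (L : (Sp d →L[ℝ] V) →L[ℝ] E) (ξ : Sp d) : E →L[ℝ] V :=
  haveI : CompleteSpace V := FiniteDimensional.complete ℝ V
  haveI : CompleteSpace E := FiniteDimensional.complete ℝ E
  ContinuousLinearMap.adjoint (AL L ξ)

theorem inner_AT (L : (Sp d →L[ℝ] V) →L[ℝ] E) (ξ : Sp d) (v : V) (w : E) :
    ⟪v, AT L ξ w⟫_ℝ = ⟪L (rk1 ξ v), w⟫_ℝ := by
  have : CompleteSpace V := FiniteDimensional.complete ℝ V
  have : CompleteSpace E := FiniteDimensional.complete ℝ E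
  exact ContinuousLinearMap.adjoint_inner_right (AL L ξ) v w

theorem inner_AT' (L : (Sp d →L[ℝ] V) →L[ℝ] E) (ξ : Sp d) (v : V) (w : E) :
    ⟪AT L ξ w, v⟫_ℝ = ⟪w, L (rk1 ξ v)⟫_ℝ := by
  rw [real_inner_comm, inner_AT, real_inner_comm]

theorem norm_AT_le (L : (Sp d →L[ℝ] V) →L[ℝ] E) (ξ : Sp d) : ‖AT L ξ‖ ≤ ‖L‖ * ‖ξ‖ := by
  have : CompleteSpace V := FiniteDimensional.complete ℝ V
  have : CompleteSpace E := FiniteDimensional.complete ℝ E
  have : ‖AT L ξ‖ = ‖AL L ξ‖ := LinearIsometryEquiv.norm_map ContinuousLinearMap.adjoint (AL L ξ)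
  rw [this]
  exact norm_AL_le L ξ

/-- the adjoint operator, as a linear map on derivatives -/
noncomputable def DL (L : (Sp d →L[ℝ] V) →L[ℝ] E) : (Sp d →L[ℝ] E) →L[ℝ] V :=
  ∑ j : Fin d, (AT L (EuclideanSpace.single j (1 : ℝ))).comp
    (ContinuousLinearMap.apply ℝ E (EuclideanSpace.single j (1 : ℝ) : Sp d))

theorem DL_apply (L : (Sp d →L[ℝ] V) →L[ℝ] E) (M : Sp d →L[ℝ] E) :
    DL L M = ∑ j : Fin d, AT L (EuclideanSpace.single j (1 : ℝ))
      (M (EuclideanSpace.single j (1 : ℝ))) := by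
  unfold DL
  rw [sum_apply]
  rfl

/-- the adjoint operator -/
noncomputable def dV (L : (Sp d →L[ℝ] V) →L[ℝ] E) (Φ : Sp d → E) (y : Sp d) : V :=
  DL L (fderiv ℝ Φ y)

theorem inner_dV (L : (Sp d →L[ℝ] V) →L[ℝ] E) (Φ : Sp d → E) (v : V) (y : Sp d) :
    ⟪v, dV L Φ y⟫_ℝ = dvE L Φ v y := by
  unfold dV dvE
  rw [DL_apply, inner_sum]
  exact Finset.sum_congr rfl fun j _ => inner_AT _ _ _ _

theorem rk1_add (ξ η : Sp d) (v : V) : rk1 (ξ + η) v = rk1 ξ v + rk1 η v := by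
  ext y
  simp [rk1, add_smul]

theorem rk1_smul (a : ℝ) (ξ : Sp d) (v : V) : rk1 (a • ξ) v = a • rk1 ξ v := by
  ext y
  simp [rk1, mul_smul]

theorem expand_sp (x : Sp d) : x = ∑ j : Fin d, x j • (EuclideanSpace.single j (1 : ℝ) : Sp d) := by
  conv_lhs => rw [← (EuclideanSpace.basisFun (Fin d) ℝ).sum_repr x]
  refine Finset.sum_congr rfl fun j _ => ?_
  simp

theorem expand_clm (M : Sp d →L[ℝ] V) :
    M = ∑ j : Fin d, rk1 (EuclideanSpace.single j (1 : ℝ)) (M (EuclideanSpace.single j (1 : ℝ))) := by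
  ext y
  rw [sum_apply]
  conv_lhs => rw [expand_sp y, map_sum]
  refine Finset.sum_congr rfl fun j _ => ?_
  simp [rk1, EuclideanSpace.inner_single_left]

theorem fo_eq (L : (Sp d →L[ℝ] V) →L[ℝ] E) (u : Sp d → V) (y : Sp d) :
    fo L u y = ∑ j : Fin d, L (rk1 (EuclideanSpace.single j (1 : ℝ))
      (fderiv ℝ u y (EuclideanSpace.single j (1 : ℝ)))) := by
  unfold fo
  conv_lhs => rw [expand_clm (fderiv ℝ u y), map_sum]

/-- the symbol as a sum -/
theorem L_rk1 (L : (Sp d →L[ℝ] V) →L[ℝ] E) (ξ : Sp d) (v : V) :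
    L (rk1 ξ v) = ∑ j : Fin d, ξ j • L (rk1 (EuclideanSpace.single j (1 : ℝ)) v) := by
  have h : rk1 ξ v = ∑ j : Fin d, ξ j • rk1 (EuclideanSpace.single j (1 : ℝ)) v := by
    ext y
    rw [sum_apply]
    simp only [rk1, ContinuousLinearMap.smulRight_apply, innerSL_apply_apply,
      smul_apply]
    have h1 : ⟪ξ, y⟫_ℝ = ∑ j : Fin d, ξ j * ⟪(EuclideanSpace.single j (1 : ℝ) : Sp d), y⟫_ℝ := by
      conv_lhs => rw [expand_sp ξ, sum_inner]
      refine Finset.sum_congr rfl fun j _ => ?_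
      rw [inner_smul_left]
      simp
    rw [h1, Finset.sum_smul]
    refine Finset.sum_congr rfl fun j _ => ?_
    rw [mul_smul]
  rw [h, map_sum]
  simp

end Adjoint

section IBP

/-- integration by parts against the operator -/
theorem ibp_L (L : (Sp d →L[ℝ] V) →L[ℝ] E) {u : Sp d → V} (hu : ContDiff ℝ 1 u) {Φ : Sp d → E}
    (hΦ : ContDiff ℝ 1 Φ) (hs : HasCompactSupport Φ) :
    ∫ y, ⟪fo L u y, Φ y⟫_ℝ = -∫ y, ⟪u y, dV L Φ y⟫_ℝ := by
  have huc : Continuous u := hu.continuous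
  have hud : Continuous (fderiv ℝ u) := (hu.fderiv_right (m := 0) (by simp)).continuous
  have hΦc : Continuous Φ := hΦ.continuous
  have hΦd : Continuous (fderiv ℝ Φ) := (hΦ.fderiv_right (m := 0) (by simp)).continuous
  have h1 : ∀ j : Fin d, ∫ y, ⟪AT L (EuclideanSpace.single j (1 : ℝ)) (Φ y),
      fderiv ℝ u y (EuclideanSpace.single j (1 : ℝ))⟫_ℝ =
      -∫ y, ⟪AT L (EuclideanSpace.single j (1 : ℝ))
        (fderiv ℝ Φ y (EuclideanSpace.single j (1 : ℝ))), u y⟫_ℝ := by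
    intro j
    have h := TP.ibp_one (TP.ip V) (Psi := fun y => AT L (EuclideanSpace.single j (1 : ℝ)) (Φ y))
      ((AT L _).contDiff.comp hΦ) (hs.comp_left (map_zero _)) hu (EuclideanSpace.single j (1 : ℝ))
    simp only [TP.ip_apply] at h
    rw [h, ← integral_neg]
    refine integral_congr_ae (Filter.Eventually.of_forall fun y => ?_)
    have e : fderiv ℝ (fun y => AT L (EuclideanSpace.single j (1 : ℝ)) (Φ y)) y =
        (AT L (EuclideanSpace.single j (1 : ℝ))).comp (fderiv ℝ Φ y) :=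
      ((AT L (EuclideanSpace.single j (1 : ℝ))).hasFDerivAt.comp y
        (hΦ.differentiable (by simp) y).hasFDerivAt).fderiv
    simp only [e, ContinuousLinearMap.comp_apply, map_neg, inner_neg_left]
  have h2 : ∀ y, ⟪fo L u y, Φ y⟫_ℝ = ∑ j : Fin d, ⟪AT L (EuclideanSpace.single j (1 : ℝ)) (Φ y),
      fderiv ℝ u y (EuclideanSpace.single j (1 : ℝ))⟫_ℝ := by
    intro y
    rw [fo_eq, sum_inner]
    refine Finset.sum_congr rfl fun j _ => ?_
    rw [inner_AT', real_inner_comm]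
  have h3 : ∀ y, ⟪u y, dV L Φ y⟫_ℝ = ∑ j : Fin d, ⟪AT L (EuclideanSpace.single j (1 : ℝ))
        (fderiv ℝ Φ y (EuclideanSpace.single j (1 : ℝ))), u y⟫_ℝ := by
    intro y
    unfold dV
    rw [DL_apply, inner_sum]
    refine Finset.sum_congr rfl fun j _ => ?_
    rw [real_inner_comm]
  simp_rw [h2, h3]
  rw [integral_finsetSum, integral_finsetSum, ← Finset.sum_neg_distrib]
  · exact Finset.sum_congr rfl fun j _ => h1 j
  · intro j _
    refine Continuous.integrable_of_hasCompactSupport (by fun_prop) ?_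
    refine (hs.fderiv ℝ).mono' fun y hy => subset_closure ?_
    rw [Function.mem_support] at hy ⊢
    intro h0
    exact hy (by rw [h0, zero_apply, map_zero, inner_zero_left])
  · intro j _
    refine Continuous.integrable_of_hasCompactSupport (by fun_prop) ?_
    refine hs.mono' fun y hy => subset_closure ?_
    rw [Function.mem_support] at hy ⊢
    intro h0
    exact hy (by rw [h0, map_zero, inner_zero_left])

/-- integration by parts of order `m` with a pointwise bound -/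
theorem ibp_pt {F G : Type} [NormedAddCommGroup F] [NormedSpace ℝ F] [NormedAddCommGroup G]
    [NormedSpace ℝ G] (B : G →L[ℝ] F →L[ℝ] ℝ) (m : ℕ) :
    ∀ (al : Fin m → Sp d), (∀ i, ‖al i‖ ≤ 1) → ∀ (J : ℕ) (Lam : Sp d → G) (N : ℝ),
      ContDiff ℝ (J + m : ℕ) Lam → HasCompactSupport Lam →
      (∀ j ≤ J + m, ∀ p, ‖iteratedFDeriv ℝ j Lam p‖ ≤ N) →
      ∃ Psi : Sp d → G, ContDiff ℝ J Psi ∧
        (∀ j ≤ J, ∀ p, ‖iteratedFDeriv ℝ j Psi p‖ ≤ N) ∧ tsupport Psi ⊆ tsupport Lam ∧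
        (∀ p, ‖Psi p‖ ≤ ‖iteratedFDeriv ℝ m Lam p‖) ∧
        ∀ f : Sp d → F, ContDiff ℝ ∞ f →
          ∫ p, B (Lam p) (iteratedFDeriv ℝ m f p al) = ∫ p, B (Psi p) (f p) := by
  induction m with
  | zero =>
    intro al _ J Lam N hL hs hN
    exact ⟨Lam, hL, hN, Subset.rfl, fun p => by rw [norm_iteratedFDeriv_zero], fun f hf => rfl⟩
  | succ m ih =>
    intro al hal J Lam N hL hs hN
    let D : (Sp d →L[ℝ] G) →L[ℝ] G := ContinuousLinearMap.apply ℝ G (-(al 0))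
    have hD : ∀ S, D S = S (-(al 0)) := fun S => rfl
    have hD1 : ‖D‖ ≤ 1 := by
      refine ContinuousLinearMap.opNorm_le_bound _ zero_le_one fun S => ?_
      rw [hD, one_mul]
      calc ‖S (-(al 0))‖ ≤ ‖S‖ * ‖-(al 0)‖ := S.le_opNorm _
        _ ≤ ‖S‖ * 1 := by
            gcongr
            rw [norm_neg]; exact hal 0
        _ = ‖S‖ := mul_one _
    have hLd : ContDiff ℝ (J + m : ℕ) (fderiv ℝ Lam) := hL.fderiv_right (by norm_cast)
    have hL1 : ContDiff ℝ (J + m : ℕ) (fun p => D (fderiv ℝ Lam p)) := D.contDiff.comp hLd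
    have hsub : tsupport (fun p => D (fderiv ℝ Lam p)) ⊆ tsupport Lam :=
      (TP.post_supp D (fderiv ℝ Lam)).trans (tsupport_fderiv_subset ℝ)
    have hs1 : HasCompactSupport (fun p => D (fderiv ℝ Lam p)) :=
      hs.of_isClosed_subset (isClosed_tsupport _) hsub
    have hle : ∀ j ≤ J + m, ∀ p, ‖iteratedFDeriv ℝ j (fun p => D (fderiv ℝ Lam p)) p‖ ≤
        ‖iteratedFDeriv ℝ (j + 1) Lam p‖ := by
      intro j hj p
      have h1 := D.norm_iteratedFDeriv_comp_left (hLd.contDiffAt (x := p)) (n := j)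
        (by exact_mod_cast hj)
      calc ‖iteratedFDeriv ℝ j (fun p => D (fderiv ℝ Lam p)) p‖ ≤
          ‖D‖ * ‖iteratedFDeriv ℝ j (fderiv ℝ Lam) p‖ := h1
        _ ≤ 1 * ‖iteratedFDeriv ℝ j (fderiv ℝ Lam) p‖ := by (clear * - hD1; gcongr)
        _ = ‖iteratedFDeriv ℝ (j + 1) Lam p‖ := by rw [one_mul, norm_iteratedFDeriv_fderiv]
    have hN1 : ∀ j ≤ J + m, ∀ p, ‖iteratedFDeriv ℝ j (fun p => D (fderiv ℝ Lam p)) p‖ ≤ N :=
      fun j hj p => (hle j hj p).trans (hN (j + 1) (by omega) p)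
    obtain ⟨Psi, hP1, hP2, hP3, hP5, hP4⟩ := ih (Fin.tail al) (fun i => hal _) J _ N hL1 hs1 hN1
    refine ⟨Psi, hP1, hP2, hP3.trans hsub, fun p => (hP5 p).trans (hle m (by omega) p), ?_⟩
    intro f hf
    rw [← hP4 f hf]
    have hg : ContDiff ℝ 1 (iteratedFDeriv ℝ m f) :=
      hf.iteratedFDeriv_right (by norm_cast; exact le_top)
    have hg1 : ContDiff ℝ 1 (fun p => iteratedFDeriv ℝ m f p (Fin.tail al)) :=
      (ContinuousMultilinearMap.apply ℝ (fun _ : Fin m => Sp d) F (Fin.tail al)).contDiff.comp hg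
    have h1 := TP.ibp_one B (hL.of_le (by norm_cast; omega)) hs hg1 (al 0)
    have h2 : ∀ p, fderiv ℝ (fun p => iteratedFDeriv ℝ m f p (Fin.tail al)) p (al 0) =
        iteratedFDeriv ℝ (m + 1) f p al := by
      intro p
      rw [iteratedFDeriv_succ_apply_left, fderiv_continuousMultilinear_apply_const_apply]
      exact hg.differentiable (by simp) p
    simp_rw [h2] at h1
    exact h1

end IBP

section Cyl

/-- constant in the direction ν -/
def CN {F : Type*} (ν : Sp d) (K : Sp d → F) : Prop := ∀ (y : Sp d) (t : ℝ), K (y + t • ν) = K y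

theorem tang_add {ν : Sp d} (hν : ‖ν‖ = 1) (y : Sp d) (t : ℝ) : tang ν (y + t • ν) = tang ν y := by
  unfold tang
  rw [inner_add_right, inner_smul_right, real_inner_self_eq_norm_sq, hν]
  simp only [one_pow, mul_one, add_smul]
  abel

theorem CN.of_tang {F : Type*} {ν : Sp d} (hν : ‖ν‖ = 1) {K : Sp d → F}
    (h : ∀ y, K y = K (tang ν y)) : CN ν K := by
  intro y t
  rw [h (y + t • ν), tang_add hν, ← h]

theorem CN.fderiv {F : Type*} [NormedAddCommGroup F] [NormedSpace ℝ F] {ν : Sp d} {K : Sp d → F}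
    (h : CN ν K) : CN ν (fderiv ℝ K) := by
  intro y t
  have h1 : (fun x => K (x + t • ν)) = K := funext fun x => h x t
  have h2 := fderiv_comp_add_right (𝕜 := ℝ) (f := K) (x := y) (t • ν)
  rw [h1] at h2
  exact h2.symm

theorem CN.comp {F F' : Type*} {ν : Sp d} {K : Sp d → F} (h : CN ν K) (G : F → F') :
    CN ν (fun y => G (K y)) := fun y t => congrArg G (h y t)

theorem CN.fderiv_apply {F : Type*} [NormedAddCommGroup F] [NormedSpace ℝ F] {ν : Sp d}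
    {K : Sp d → F} (hK : Differentiable ℝ K) (h : CN ν K) (y : Sp d) : _root_.fderiv ℝ K y ν = 0 := by
  have h1 : HasDerivAt (fun t : ℝ => y + t • ν) ν 0 := by
    simpa using ((hasDerivAt_id (0 : ℝ)).smul_const ν).const_add y
  have h2 := (hK (y + (0 : ℝ) • ν)).hasFDerivAt.comp_hasDerivAt 0 h1
  have h3 : (K ∘ fun t : ℝ => y + t • ν) = fun _ => K y := funext fun t => h y t
  rw [h3] at h2
  have h4 := h2.unique (hasDerivAt_const (0 : ℝ) (K y))
  simpa using h4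

/-- derivative of a product with a function of the height -/
theorem fderiv_ht_smul {F : Type*} [NormedAddCommGroup F] [NormedSpace ℝ F] {a : ℝ → ℝ}
    (ha : Differentiable ℝ a) {K : Sp d → F} (hK : Differentiable ℝ K) (ν : Sp d) (c : ℝ)
    (y h : Sp d) :
    _root_.fderiv ℝ (fun y => a (ht ν c y) • K y) y h =
      a (ht ν c y) • _root_.fderiv ℝ K y h + (deriv a (ht ν c y) * ⟪ν, h⟫_ℝ) • K y := by
  have h1 : HasFDerivAt (ht ν c) (innerSL ℝ ν) y := (innerSL ℝ ν).hasFDerivAt.sub_const c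
  have h2 : HasFDerivAt (fun y => a (ht ν c y)) (deriv a (ht ν c y) • (innerSL ℝ ν)) y :=
    (ha (ht ν c y)).hasDerivAt.comp_hasFDerivAt y h1
  have h3 := h2.smul (hK y).hasFDerivAt
  have h4 : _root_.fderiv ℝ (fun y => a (ht ν c y) • K y) y = _ := h3.fderiv
  rw [h4]
  simp

/-- the adjoint operator of a product with a function of the height -/
theorem dV_ht_smul (L : (Sp d →L[ℝ] V) →L[ℝ] E) {a : ℝ → ℝ}
    (ha : Differentiable ℝ a) {K : Sp d → E} (hK : Differentiable ℝ K) (ν : Sp d) (c : ℝ)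
    (y : Sp d) :
    dV L (fun y => a (ht ν c y) • K y) y =
      a (ht ν c y) • dV L K y + deriv a (ht ν c y) • AT L ν (K y) := by
  refine ext_inner_left ℝ fun v => ?_
  rw [inner_add_right, inner_smul_right, inner_smul_right, inner_dV, inner_dV, inner_AT, L_rk1,
    sum_inner]
  unfold dvE
  rw [Finset.mul_sum, Finset.mul_sum, ← Finset.sum_add_distrib]
  refine Finset.sum_congr rfl fun j _ => ?_
  rw [fderiv_ht_smul ha hK, inner_add_right, inner_smul_right, inner_smul_right, inner_smul_left]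
  have : ⟪ν, (EuclideanSpace.single j (1 : ℝ) : Sp d)⟫_ℝ = ν j := by
    rw [real_inner_comm]
    simp [EuclideanSpace.inner_single_left]
  rw [this]
  simp only [conj_trivial]
  ring

end Cyl

end SH
end TG


end

section

/-!
# Module SHA, part 2: the corrected field (MP_287c87_an; helper22)
-/

set_option linter.unusedSectionVars false

open MeasureTheory Metric Set TrI
open scoped InnerProductSpace ContDiff Nat

namespace TG
namespace SH

theorem nat_le_inf (k : ℕ) : ((k : ℕ) : WithTop ℕ∞) ≤ ∞ := by exact_mod_cast le_top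

section Line

theorem cu1_one {ρ t : ℝ} (h : |t| ≤ ρ) : cu1 ρ t = 1 :=
  Real.smoothTransition.one_of_one_le (by linarith)

theorem cu1_zero {ρ t : ℝ} (h : ρ + 1 ≤ |t|) : cu1 ρ t = 0 :=
  Real.smoothTransition.zero_of_nonpos (by linarith)

theorem cu1_contDiff {k : WithTop ℕ∞} (hk : k ≤ ∞) {ρ : ℝ} (hρ : 0 < ρ) : ContDiff ℝ k (cu1 ρ) := by
  refine ContDiff.of_le ?_ hk
  rw [contDiff_iff_contDiffAt]
  intro x
  by_cases hx : x = 0
  · subst hx
    have h : (fun _ : ℝ => (1 : ℝ)) =ᶠ[nhds (0 : ℝ)] cu1 ρ := by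
      filter_upwards [Metric.ball_mem_nhds (0 : ℝ) hρ] with y hy
      rw [mem_ball_zero_iff, Real.norm_eq_abs] at hy
      exact (cu1_one hy.le).symm
    exact contDiffAt_const.congr_of_eventuallyEq h.symm
  · unfold cu1
    exact Real.smoothTransition.contDiff.contDiffAt.comp x
      (contDiffAt_const.sub (contDiffAt_abs hx))

theorem cu1_cs (ρ : ℝ) : HasCompactSupport (cu1 ρ) := by
  refine HasCompactSupport.intro (isCompact_closedBall (0 : ℝ) (ρ + 1)) fun y hy => ?_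
  rw [mem_closedBall_zero_iff, not_le, Real.norm_eq_abs] at hy
  exact cu1_zero hy.le

/-- bounds of all derivatives of a smooth function with compact support -/
theorem line_bd {a : ℝ → ℝ} (ha : ContDiff ℝ ∞ a) (hc : HasCompactSupport a) (J : ℕ) :
    ∃ A : ℝ, 0 < A ∧ ∀ j ≤ J, ∀ t, |iteratedDeriv j a t| ≤ A := by
  have h1 : ∀ j : ℕ, ∃ N : ℝ, ∀ x, ‖iteratedFDeriv ℝ j a x‖ ≤ N := fun j =>
    (hc.iteratedFDeriv (𝕜 := ℝ) j).exists_bound_of_continuous
        (ha.continuous_iteratedFDeriv (by exact_mod_cast le_top))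
  choose N hN using h1
  refine ⟨∑ j ∈ Finset.range (J + 1), |N j| + 1, by positivity, fun j hj x => ?_⟩
  have h2 := Finset.single_le_sum (f := fun j => |N j|) (fun i _ => abs_nonneg (N i))
    (Finset.mem_range.2 (Nat.lt_succ_of_le hj))
  have h3 := hN j x
  rw [norm_iteratedFDeriv_eq_norm_iteratedDeriv, Real.norm_eq_abs] at h3
  have h4 := le_abs_self (N j)
  linarith

/-- the function ρ -/
noncomputable def rho (m : ℕ) (t : ℝ) : ℝ := ((m + 2)! : ℝ)⁻¹ * t ^ (m + 2) * cu1 4 t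

theorem rho_contDiff (m : ℕ) : ContDiff ℝ ∞ (rho m) := by
  unfold rho
  exact (contDiff_const.mul (contDiff_id.pow _)).mul (cu1_contDiff le_rfl (by norm_num))

theorem rho_cs (m : ℕ) : HasCompactSupport (rho m) := (cu1_cs 4).mul_left

theorem rho_iter (m j : ℕ) {t : ℝ} (ht : |t| < 4) : iteratedDeriv j (rho m) t =
    ((m + 2)! : ℝ)⁻¹ * (((m + 2).descFactorial j : ℝ) * t ^ (m + 2 - j)) := by
  have h : rho m =ᶠ[nhds t] fun t => ((m + 2)! : ℝ)⁻¹ * t ^ (m + 2) := by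
    filter_upwards [(isOpen_lt continuous_abs continuous_const).mem_nhds ht] with y hy
    unfold rho
    rw [cu1_one (le_of_lt hy), mul_one]
  rw [Filter.EventuallyEq.iteratedDeriv_eq j h, iteratedDeriv_const_mul_field]
  congr 1
  exact iteratedDeriv_pow (𝕜 := ℝ) (m + 2) j

theorem rho_zero (m j : ℕ) {t : ℝ} (ht : 5 < |t|) : iteratedDeriv j (rho m) t = 0 := by
  have h : rho m =ᶠ[nhds t] fun _ => (0 : ℝ) := by
    filter_upwards [(isOpen_lt continuous_const continuous_abs).mem_nhds ht] with y hy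
    unfold rho
    rw [cu1_zero (by have : (5 : ℝ) < |y| := hy
                     linarith), mul_zero]
  rw [Filter.EventuallyEq.iteratedDeriv_eq j h]
  simp

/-- low derivatives vanish quadratically -/
theorem rho_quad (m : ℕ) : ∃ A : ℝ, 0 < A ∧ ∀ j ≤ m, ∀ t, |iteratedDeriv j (rho m) t| ≤ A * t ^ 2 := by
  obtain ⟨A, hA, hb⟩ := line_bd (rho_contDiff m) (rho_cs m) m
  refine ⟨A + 4 ^ m * (m + 2)! + 1, by positivity, fun j hj t => ?_⟩
  rcases lt_or_ge |t| 4 with h | h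
  · rw [rho_iter m j h, abs_mul, abs_mul, abs_inv, Nat.abs_cast, Nat.abs_cast, abs_pow]
    have e1 : m + 2 - j = (m - j) + 2 := by omega
    rw [e1, pow_add, sq_abs]
    have h1 : ((m + 2)! : ℝ)⁻¹ ≤ 1 :=
      inv_le_one_of_one_le₀ (by exact_mod_cast Nat.one_le_iff_ne_zero.mpr (Nat.factorial_ne_zero _))
    have h2 : |t| ^ (m - j) ≤ 4 ^ m := by
      calc |t| ^ (m - j) ≤ 4 ^ (m - j) := pow_le_pow_left₀ (abs_nonneg t) h.le _
        _ ≤ 4 ^ m := pow_le_pow_right₀ (by norm_num) (by omega)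
    have h3 : ((m + 2).descFactorial j : ℝ) ≤ (m + 2)! := by
      have h5 := Nat.factorial_mul_descFactorial (show j ≤ m + 2 by omega)
      have h6 : 1 ≤ (m + 2 - j)! := Nat.one_le_iff_ne_zero.mpr (Nat.factorial_ne_zero _)
      exact_mod_cast (show (m + 2).descFactorial j ≤ (m + 2)! by
        rw [← h5]
        exact Nat.le_mul_of_pos_left _ h6)
    calc ((m + 2)! : ℝ)⁻¹ * (((m + 2).descFactorial j : ℝ) * (|t| ^ (m - j) * t ^ 2))
        ≤ 1 * (((m + 2)! : ℝ) * (4 ^ m * t ^ 2)) := by (clear * - h1 h3 h2; gcongr)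
      _ ≤ _ := by nlinarith only [hA]
  · have h1 : (1 : ℝ) ≤ t ^ 2 := by
      rw [← sq_abs]
      nlinarith
    have h2 : (0 : ℝ) ≤ 4 ^ m * (m + 2)! := by positivity
    calc _ ≤ A := hb j hj t
      _ ≤ (A + 4 ^ m * (m + 2)! + 1) * t ^ 2 := by nlinarith

/-- the remainder -/
noncomputable def rr (m : ℕ) (t : ℝ) : ℝ := iteratedDeriv (m + 1) (rho m) t - t * cu1 4 t

theorem rr_contDiff (m : ℕ) : ContDiff ℝ ∞ (rr m) := by
  unfold rr
  refine ContDiff.sub ?_ (contDiff_id.mul (cu1_contDiff le_rfl (by norm_num)))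
  rw [iteratedDeriv_eq_iterate]
  exact (rho_contDiff m).iterate_deriv (m + 1)

theorem rr_zero (m : ℕ) {t : ℝ} (h : |t| < 4 ∨ 5 < |t|) : rr m t = 0 := by
  unfold rr
  rcases h with h | h
  · rw [rho_iter m _ h, cu1_one h.le]
    have e1 : m + 2 - (m + 1) = 1 := by omega
    have e2 : (m + 2).descFactorial (m + 1) = (m + 2)! := by
      have := Nat.factorial_mul_descFactorial (show m + 1 ≤ m + 2 by omega)
      rw [e1] at this
      simpa using this
    rw [e1, e2, pow_one, mul_one, ← mul_assoc, inv_mul_cancel₀ (by positivity), one_mul, sub_self]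
  · rw [rho_zero m _ h, cu1_zero (by linarith), mul_zero, sub_zero]

end Line

section Supports

variable {d : ℕ}

theorem tang_continuous (ν : Sp d) : Continuous (tang ν) := by
  unfold tang
  fun_prop

theorem norm_le_tang {ν : Sp d} (hν : ‖ν‖ = 1) (c : ℝ) (y : Sp d) :
    ‖y‖ ≤ ‖tang ν y‖ + |ht ν c y| + |c| := by
  have h1 : y = tang ν y + ⟪ν, y⟫_ℝ • ν := by
    unfold tang
    abel
  have h2 : |⟪ν, y⟫_ℝ| ≤ |ht ν c y| + |c| := by
    have : ⟪ν, y⟫_ℝ = ht ν c y + c := by unfold ht; ring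
    rw [this]
    exact abs_add_le _ _
  calc ‖y‖ = ‖tang ν y + ⟪ν, y⟫_ℝ • ν‖ := by rw [← h1]
    _ ≤ ‖tang ν y‖ + ‖⟪ν, y⟫_ℝ • ν‖ := norm_add_le _ _
    _ = ‖tang ν y‖ + |⟪ν, y⟫_ℝ| := by rw [norm_smul, hν, mul_one, Real.norm_eq_abs]
    _ ≤ _ := by linarith

/-- the cylinder -/
def cyl (ν : Sp d) (c A ρ : ℝ) : Set (Sp d) := {y | |ht ν c y| ≤ A ∧ ‖tang ν y‖ ≤ ρ}

theorem cyl_closed (ν : Sp d) (c A ρ : ℝ) : IsClosed (cyl ν c A ρ) :=
  (isClosed_le (ht_continuous ν c).abs continuous_const).inter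
    (isClosed_le (tang_continuous ν).norm continuous_const)

theorem cyl_compact {ν : Sp d} (hν : ‖ν‖ = 1) (c A ρ : ℝ) : IsCompact (cyl ν c A ρ) := by
  refine (isCompact_closedBall (0 : Sp d) (ρ + A + |c|)).of_isClosed_subset (cyl_closed ν c A ρ)
    fun y hy => ?_
  rw [mem_closedBall_zero_iff]
  have := norm_le_tang hν c y
  linarith [hy.1, hy.2]

theorem cyl_tsupport {F : Type*} [Zero F] {ν : Sp d} {c A ρ : ℝ} {K : Sp d → F}
    (h : ∀ y, K y ≠ 0 → y ∈ cyl ν c A ρ) : tsupport K ⊆ cyl ν c A ρ :=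
  closure_minimal (fun y hy => h y hy) (cyl_closed ν c A ρ)

theorem cyl_cs {F : Type*} [Zero F] {ν : Sp d} (hν : ‖ν‖ = 1) {c A ρ : ℝ} {K : Sp d → F}
    (h : ∀ y, K y ≠ 0 → y ∈ cyl ν c A ρ) : HasCompactSupport K :=
  (cyl_compact hν c A ρ).of_isClosed_subset (isClosed_tsupport _) (cyl_tsupport h)

theorem prod_supp {F : Type*} [NormedAddCommGroup F] [NormedSpace ℝ F] {ν : Sp d} {c A ρ : ℝ}
    {a : ℝ → ℝ} (ha : ∀ t, A < |t| → a t = 0) {K : Sp d → F} (hK : ∀ y, K y ≠ 0 → ‖tang ν y‖ ≤ ρ)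
    (y : Sp d) (hy : a (ht ν c y) • K y ≠ 0) : y ∈ cyl ν c A ρ := by
  constructor
  · by_contra h
    push Not at h
    exact hy (by rw [ha _ h, zero_smul])
  · exact hK y (fun h => hy (by rw [h, smul_zero]))

theorem deriv_supp {A : ℝ} {a : ℝ → ℝ} (ha : ∀ t, A < |t| → a t = 0) (t : ℝ) (h : A < |t|) :
    deriv a t = 0 := by
  have h1 : a =ᶠ[nhds t] fun _ => (0 : ℝ) := by
    filter_upwards [(isOpen_lt continuous_const continuous_abs).mem_nhds h] with y hy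
    exact ha y hy
  rw [h1.deriv_eq]
  simp

theorem fderiv_tang_supp {F : Type*} [NormedAddCommGroup F] [NormedSpace ℝ F] {ν : Sp d} {ρ : ℝ}
    {K : Sp d → F} (hK : ∀ y, K y ≠ 0 → ‖tang ν y‖ ≤ ρ) (y : Sp d) (hy : fderiv ℝ K y ≠ 0) :
    ‖tang ν y‖ ≤ ρ := by
  have h1 : y ∈ tsupport K := support_fderiv_subset ℝ hy
  have h2 : tsupport K ⊆ {y | ‖tang ν y‖ ≤ ρ} :=
    closure_minimal (fun y hy => hK y hy) (isClosed_le (tang_continuous ν).norm continuous_const)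
  exact h2 h1

end Supports

section Iter

variable {d : ℕ} {V E : Type} [NormedAddCommGroup V] [InnerProductSpace ℝ V]
  [FiniteDimensional ℝ V] [NormedAddCommGroup E] [InnerProductSpace ℝ E] [FiniteDimensional ℝ E]

/-- iterated normal derivatives -/
theorem iter_id {u : Sp d → V} (hu : ContDiff ℝ ∞ u) {ν : Sp d} (hν : ‖ν‖ = 1) (c : ℝ) {A ρ : ℝ}
    {K : Sp d → V} (hK : ContDiff ℝ 1 K) (hKc : CN ν K) (hKs : ∀ y, K y ≠ 0 → ‖tang ν y‖ ≤ ρ)
    (m : ℕ) : ∀ a : ℝ → ℝ, ContDiff ℝ ∞ a → (∀ t, A < |t| → a t = 0) →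
      ∫ y, ⟪a (ht ν c y) • K y, iteratedFDeriv ℝ m u y (fun _ => ν)⟫_ℝ =
        (-1) ^ m * ∫ y, ⟪iteratedDeriv m a (ht ν c y) • K y, u y⟫_ℝ := by
  induction m with
  | zero =>
    intro a _ _
    simp
  | succ m ih =>
    intro a ha hA
    have h1 := ih (deriv a) (by
      have := ha.iterate_deriv 1
      simpa using this) (deriv_supp hA)
    have hg : ContDiff ℝ 1 (fun y => iteratedFDeriv ℝ m u y (fun _ => ν)) :=
      (ContinuousMultilinearMap.apply ℝ (fun _ : Fin m => Sp d) V (fun _ => ν)).contDiff.comp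
        (hu.iteratedFDeriv_right (by norm_cast; exact le_top))
    have hP : ContDiff ℝ 1 (fun y => a (ht ν c y) • K y) :=
      (comp_ht_contDiff (ha.of_le (by exact_mod_cast le_top)) ν c).smul hK
    have h2 := TP.ibp_one (TP.ip V) hP (cyl_cs hν (prod_supp (c := c) hA hKs)) hg ν
    simp only [TP.ip_apply] at h2
    have h3 : ∀ y, fderiv ℝ (fun y => iteratedFDeriv ℝ m u y (fun _ => ν)) y ν =
        iteratedFDeriv ℝ (m + 1) u y (fun _ => ν) := by
      intro y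
      rw [iteratedFDeriv_succ_apply_left, fderiv_continuousMultilinear_apply_const_apply]
      · rfl
      · exact (hu.differentiable_iteratedFDeriv (by exact_mod_cast ENat.natCast_lt_top m)) y
    have h4 : ∀ y, fderiv ℝ (fun y => a (ht ν c y) • K y) y (-ν) =
        -(deriv a (ht ν c y) • K y) := by
      intro y
      rw [map_neg, fderiv_ht_smul (ha.differentiable (by simp)) (hK.differentiable (by simp)),
        hKc.fderiv_apply (hK.differentiable (by simp)), smul_zero, zero_add,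
        real_inner_self_eq_norm_sq, hν]
      simp
    simp_rw [h3, h4] at h2
    rw [h2]
    simp only [inner_neg_left]
    rw [integral_neg, h1, iteratedDeriv_succ', pow_succ]
    ring

/-- the corrected field -/
theorem corr (L : (Sp d →L[ℝ] V) →L[ℝ] E) (m : ℕ)
    (T : (ContinuousMultilinearMap ℝ (fun _ : Fin m => Sp d) E) →L[ℝ]
      (ContinuousMultilinearMap ℝ (fun _ : Fin (m + 1) => Sp d) V)) (hNS : NSProp L m T) :
    ∃ C : ℝ, 0 < C ∧ ∀ (ν : Sp d), ‖ν‖ = 1 → ∀ (c ρ : ℝ) (k : Sp d → V) (N : ℝ),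
      TFn (2 + m) N k → CN ν k → (∀ y, k y ≠ 0 → ‖tang ν y‖ ≤ ρ) →
      ∃ X : Sp d → E, TFn 2 (C * N) X ∧ (∀ y, ‖X y‖ ≤ C * N * ht ν c y ^ 2) ∧
        (∀ y, X y ≠ 0 → y ∈ cyl ν c 5 ρ) ∧
        ∀ u : Sp d → V, ContDiff ℝ ∞ u →
          ∫ y, ⟪iteratedDeriv (m + 1) (rho m) (ht ν c y) • k y, u y⟫_ℝ =
            ∫ y, ⟪X y, fo L u y⟫_ℝ := by
  have hVc : CompleteSpace V := FiniteDimensional.complete ℝ V
  have hEc : CompleteSpace E := FiniteDimensional.complete ℝ E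
  obtain ⟨A1, hA1, hb1⟩ := line_bd (rho_contDiff m) (rho_cs m) (2 + m)
  obtain ⟨A2, hA2, hb2⟩ := rho_quad m
  set Q : ℝ := ∑ al : Fin m → Fin d, ‖TP.Sc T al‖ with hQ
  have hQ0 : 0 ≤ Q := Finset.sum_nonneg fun al _ => (TP.Sc T al).opNorm_nonneg
  refine ⟨2 ^ (2 + m) * A1 * Q + 2 ^ m * A2 * Q + 1, by positivity, ?_⟩
  intro ν hν c ρ k N hk hkc hks
  have hN := tfn_nonneg hk
  -- the transposed components
  set P : (Fin m → Fin d) → (V →L[ℝ] E) := fun al =>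
    ContinuousLinearMap.adjoint (TP.Dg (TP.Sc T al) ν) with hP
  have hPn : ∀ al, ‖P al‖ ≤ ‖TP.Sc T al‖ := by
    intro al
    have e1 : ‖P al‖ = ‖TP.Dg (TP.Sc T al) ν‖ :=
      LinearIsometryEquiv.norm_map ContinuousLinearMap.adjoint _
    rw [e1]
    refine ContinuousLinearMap.opNorm_le_bound _ (TP.Sc T al).opNorm_nonneg fun e => ?_
    rw [TP.Dg_apply]
    refine ((TP.Sc T al e).le_opNorm _).trans ?_
    rw [Finset.prod_const, hν, one_pow, mul_one]
    exact (TP.Sc T al).le_opNorm e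
  set Lam : (Fin m → Fin d) → Sp d → E := fun al y => rho m (ht ν c y) • P al (k y) with hLam
  have hLt : ∀ al, TFn (2 + m) (2 ^ (2 + m) * A1 * (‖TP.Sc T al‖ * N)) (Lam al) := by
    intro al
    have hr2 : ContDiff ℝ (2 + m : ℕ) (rho m) := (rho_contDiff m).of_le (nat_le_inf _)
    refine tfn_htmul hr2 hb1 hν c
      (tfn_le (tfn_clm (P al) hk) le_rfl ?_)
    gcongr
    exact hPn al
  have hrs : ∀ t : ℝ, 5 < |t| → rho m t = 0 := fun t ht => rho_zero m 0 ht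
  have hLs : ∀ al y, Lam al y ≠ 0 → y ∈ cyl ν c 5 ρ := fun al y hy =>
    prod_supp hrs (K := fun y => P al (k y)) (fun y hy => hks y (fun h => hy (by
      show P al (k y) = 0
      rw [h, map_zero]))) y hy
  have hLq : ∀ al p, ‖iteratedFDeriv ℝ m (Lam al) p‖ ≤
      2 ^ m * A2 * ‖TP.Sc T al‖ * N * ht ν c p ^ 2 := by
    intro al p
    have hPk : TFn (2 + m) (‖TP.Sc T al‖ * N) (fun y => P al (k y)) :=
      tfn_le (tfn_clm (P al) hk) le_rfl (by gcongr; exact hPn al)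
    have hPk' : TFn m (‖TP.Sc T al‖ * N) (fun y => P al (k y)) := tfn_le hPk (by omega) le_rfl
    have hr : ContDiff ℝ m (rho m) := (rho_contDiff m).of_le (by exact_mod_cast le_top)
    have h := TP.leib (ContinuousLinearMap.lsmul ℝ ℝ : ℝ →L[ℝ] E →L[ℝ] E)
      (comp_ht_contDiff hr ν c) hPk'.smooth p (N1 := A2 * ht ν c p ^ 2) (N2 := ‖TP.Sc T al‖ * N)
      (fun j hj => (comp_ht hr hν c p hj).trans (hb2 j hj _)) (fun j hj => hPk'.bd j hj p) m le_rfl
    refine h.trans ?_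
    have h2 : ‖(ContinuousLinearMap.lsmul ℝ ℝ : ℝ →L[ℝ] E →L[ℝ] E)‖ ≤ 1 :=
      ContinuousLinearMap.opNorm_lsmul_le
    calc 2 ^ m * ‖(ContinuousLinearMap.lsmul ℝ ℝ : ℝ →L[ℝ] E →L[ℝ] E)‖ * (A2 * ht ν c p ^ 2) *
          (‖TP.Sc T al‖ * N)
        ≤ 2 ^ m * 1 * (A2 * ht ν c p ^ 2) * (‖TP.Sc T al‖ * N) := by gcongr
      _ = _ := by ring
  choose Psi hP1 hP2 hP3 hP5 hP4 using fun al => ibp_pt (TP.ip E) m
    (fun i => (TP.ei (al i) : Sp d)) (fun i => by simp [TP.ei]) 2 (Lam al) _ (hLt al).smooth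
    (cyl_cs hν (hLs al)) (hLt al).bd
  have hPt : ∀ al, TFn 2 (2 ^ (2 + m) * A1 * (‖TP.Sc T al‖ * N)) (Psi al) := fun al =>
    ⟨hP1 al, hP2 al⟩
  have hsum : ContDiff ℝ 2 (fun p => ∑ al, Psi al p) := ContDiff.sum fun al _ => hP1 al
  have hsumt : TFn 2 (2 ^ (2 + m) * A1 * Q * N) (fun p => ∑ al, Psi al p) := by
    refine ⟨hsum, fun j hj p => ?_⟩
    have e1 := iteratedFDeriv_sum (𝕜 := ℝ) (u := (Finset.univ : Finset (Fin m → Fin d)))
      (f := Psi) (i := j) (fun al _ => (hP1 al).of_le (by exact_mod_cast hj))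
    rw [e1, Finset.sum_apply]
    refine (norm_sum_le _ _).trans ((Finset.sum_le_sum fun al _ => hP2 al j hj p).trans ?_)
    rw [← Finset.mul_sum, ← Finset.sum_mul, ← hQ]
    exact le_of_eq (by ring)
  refine ⟨fun p => (-1 : ℝ) ^ (m + 1) • ∑ al, Psi al p, ?_, ?_, ?_, ?_⟩
  · have := tfn_smul hsumt ((-1 : ℝ) ^ (m + 1))
    refine tfn_le this le_rfl ?_
    rw [abs_pow, abs_neg, abs_one, one_pow, one_mul]
    have : 0 ≤ 2 ^ m * A2 * Q := by positivity
    nlinarith only [hN, this]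
  · intro y
    rw [norm_smul, norm_pow, norm_neg, norm_one, one_pow, one_mul]
    refine (norm_sum_le _ _).trans ((Finset.sum_le_sum fun al _ => (hP5 al y).trans (hLq al y)).trans ?_)
    have e1 : ∑ al : Fin m → Fin d, 2 ^ m * A2 * ‖TP.Sc T al‖ * N * ht ν c y ^ 2 =
        2 ^ m * A2 * Q * N * ht ν c y ^ 2 := by
      rw [hQ, Finset.mul_sum, Finset.sum_mul, Finset.sum_mul]
    rw [e1]
    have h1 : 0 ≤ N * ht ν c y ^ 2 := by positivity
    have h2 : 0 ≤ 2 ^ (2 + m) * A1 * Q + 1 := by positivity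
    linarith only [mul_nonneg h1 h2]
  · intro y hy
    by_contra h
    apply hy
    have : ∀ al, Psi al y = 0 := fun al => by
      by_contra h2
      exact h (cyl_tsupport (hLs al) (hP3 al (subset_closure h2)))
    simp only [this, Finset.sum_const_zero, smul_zero]
  · intro u hu
    have hf : ContDiff ℝ ∞ (fo L u) := by
      have : ContDiff ℝ ∞ (fderiv ℝ u) := hu.fderiv_right (m := ∞) le_rfl
      exact L.contDiff.comp this
    have hfc : Continuous (fo L u) := hf.continuous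
    have h1 := iter_id hu hν c (hk.smooth.of_le (by norm_cast; omega)) hkc hks (m + 1) (rho m)
      (rho_contDiff m) hrs
    have h2 : ∀ y, ⟪rho m (ht ν c y) • k y, iteratedFDeriv ℝ (m + 1) u y (fun _ => ν)⟫_ℝ =
        ∑ al, TP.ip E (Lam al y) (iteratedFDeriv ℝ m (fo L u) y (fun i => TP.ei (al i))) := by
      intro y
      rw [hNS u hu, TP.sum_Sc T, sum_apply, inner_sum]
      refine Finset.sum_congr rfl fun al _ => ?_
      rw [TP.ip_apply]
      have e1 : Lam al y = P al (rho m (ht ν c y) • k y) := by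
        simp only [hLam]
        rw [map_smul]
      rw [e1, hP]
      simp only
      rw [ContinuousLinearMap.adjoint_inner_left]
      rfl
    have hci : ∀ al, Integrable (fun y => TP.ip E (Lam al y)
        (iteratedFDeriv ℝ m (fo L u) y (fun i => TP.ei (al i)))) := by
      intro al
      have e1 : Continuous (Lam al) := (hLt al).smooth.continuous
      have e2 : Continuous (iteratedFDeriv ℝ m (fo L u)) :=
        hf.continuous_iteratedFDeriv (by exact_mod_cast le_top)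
      have e3 : Continuous (fun y => TP.ip E (Lam al y)
        (iteratedFDeriv ℝ m (fo L u) y (fun i => (TP.ei (al i) : Sp d)))) := by fun_prop
      refine e3.integrable_of_hasCompactSupport ((cyl_cs hν (hLs al)).mono' fun y hy => ?_)
      rw [Function.mem_support] at hy
      refine subset_closure fun h0 => hy ?_
      rw [h0, map_zero, zero_apply]
    have hci' : ∀ al, Integrable (fun y => TP.ip E (Psi al y) (fo L u y)) := by
      intro al
      have e1 : Continuous (Psi al) := (hP1 al).continuous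
      have e2 : HasCompactSupport (Psi al) :=
        (cyl_cs hν (hLs al)).of_isClosed_subset (isClosed_tsupport _) (hP3 al)
      refine Continuous.integrable_of_hasCompactSupport (by fun_prop) (e2.mono' fun y hy => ?_)
      rw [Function.mem_support] at hy
      refine subset_closure fun h0 => hy ?_
      rw [h0, map_zero, zero_apply]
    simp_rw [h2] at h1
    rw [integral_finsetSum _ fun al _ => hci al] at h1
    have h3 : ∑ al, ∫ y, TP.ip E (Lam al y)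
        (iteratedFDeriv ℝ m (fo L u) y (fun i => TP.ei (al i))) =
        ∫ y, ⟪∑ al, Psi al y, fo L u y⟫_ℝ := by
      rw [Finset.sum_congr rfl fun al _ => hP4 al (fo L u) hf, ← integral_finsetSum _
        fun al _ => hci' al]
      refine integral_congr_ae (Filter.Eventually.of_forall fun y => ?_)
      simp only [TP.ip_apply, sum_inner]
    rw [h3] at h1
    have h4 : ∫ y, ⟪(-1 : ℝ) ^ (m + 1) • ∑ al, Psi al y, fo L u y⟫_ℝ =
        (-1 : ℝ) ^ (m + 1) * ∫ y, ⟪∑ al, Psi al y, fo L u y⟫_ℝ := by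
      rw [← integral_const_mul]
      refine integral_congr_ae (Filter.Eventually.of_forall fun y => ?_)
      simp only [inner_smul_left, conj_trivial]
    rw [h4, h1, ← mul_assoc, ← mul_pow]
    norm_num

end Iter

end SH
end TG


end

section

/-!
# Module SHA, part 3: the field and its image under the adjoint operator (MP_287c87_an; helper22)
-/

set_option linter.unusedSectionVars false

open MeasureTheory Metric Set TrI
open scoped InnerProductSpace ContDiff Nat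

namespace TG
namespace SH

variable {d : ℕ} {V E : Type} [NormedAddCommGroup V] [InnerProductSpace ℝ V]
  [FiniteDimensional ℝ V] [NormedAddCommGroup E] [InnerProductSpace ℝ E] [FiniteDimensional ℝ E]

section Symbol

/-- uniform injectivity of the symbol -/
theorem lower (L : (Sp d →L[ℝ] V) →L[ℝ] E) (hC : CEll L) : ∃ κ : ℝ, 0 < κ ∧
    ∀ ν : Sp d, ‖ν‖ = 1 → ∀ v : V, κ * ‖v‖ ≤ ‖L (rk1 ν v)‖ := by
  have hcont : Continuous fun p : Sp d × V => ‖L (rk1 p.1 p.2)‖ := by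
    have h1 : Continuous fun p : Sp d × V => rk1 p.1 p.2 := by
      have h2 := (ContinuousLinearMap.smulRightL ℝ (Sp d) V).continuous₂.comp
        (((innerSL ℝ).continuous.comp continuous_fst).prodMk (continuous_snd (X := Sp d) (Y := V)))
      exact h2
    exact (L.continuous.comp h1).norm
  have hK : IsCompact (sphere (0 : Sp d) 1 ×ˢ sphere (0 : V) 1) :=
    (isCompact_sphere _ _).prod (isCompact_sphere _ _)
  by_cases hne : (sphere (0 : Sp d) 1 ×ˢ sphere (0 : V) 1).Nonempty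
  · obtain ⟨p, hp, hmin⟩ := hK.exists_isMinOn hne hcont.continuousOn
    have hp1 : ‖p.1‖ = 1 := by simpa using hp.1
    have hp2 : ‖p.2‖ = 1 := by simpa using hp.2
    have hpos : 0 < ‖L (rk1 p.1 p.2)‖ := by
      rw [norm_pos_iff]
      intro h0
      have h1 := hC p.1 0 (Or.inl (fun h => by rw [h, norm_zero] at hp1; exact zero_ne_one hp1))
        p.2 0
      have e0 : rk1 (0 : Sp d) (0 : V) = 0 := by ext y; simp [rk1]
      have e1 : rk1 p.1 (0 : V) = 0 := by ext y; simp [rk1]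
      have e2 : rk1 (0 : Sp d) p.2 = 0 := by ext y; simp [rk1]
      rw [h0, e0, e1, e2, map_zero] at h1
      have h2 := (h1 (by simp) (by simp)).1
      rw [h2, norm_zero] at hp2
      exact zero_ne_one hp2
    refine ⟨‖L (rk1 p.1 p.2)‖, hpos, fun ν hν v => ?_⟩
    by_cases hv : v = 0
    · rw [hv, norm_zero, mul_zero]; exact norm_nonneg _
    · have hvn : 0 < ‖v‖ := norm_pos_iff.2 hv
      have h3 := hmin (show (ν, ‖v‖⁻¹ • v) ∈ sphere (0 : Sp d) 1 ×ˢ sphere (0 : V) 1 by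
        refine ⟨by simpa using hν, ?_⟩
        rw [mem_sphere_zero_iff_norm, norm_smul, norm_inv, norm_norm, inv_mul_cancel₀ hvn.ne'])
      simp only [mem_ofPred_eq] at h3
      have e3 : rk1 ν (‖v‖⁻¹ • v) = ‖v‖⁻¹ • rk1 ν v := by
        ext y
        show ⟪ν, y⟫_ℝ • (‖v‖⁻¹ • v) = ‖v‖⁻¹ • (⟪ν, y⟫_ℝ • v)
        exact smul_comm _ _ _
      rw [e3, map_smul, norm_smul, norm_inv, norm_norm, inv_mul_eq_div, le_div_iff₀ hvn] at h3
      exact h3
  · refine ⟨1, one_pos, fun ν hν v => ?_⟩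
    by_cases hv : v = 0
    · rw [hv, norm_zero, mul_zero]; exact norm_nonneg _
    · exfalso
      have hvn : 0 < ‖v‖ := norm_pos_iff.2 hv
      refine hne ⟨(ν, ‖v‖⁻¹ • v), by simpa using hν, ?_⟩
      rw [mem_sphere_zero_iff_norm, norm_smul, norm_inv, norm_norm, inv_mul_cancel₀ hvn.ne']

/-- a right inverse of the transposed symbol with values in the range of the symbol -/
theorem exists_S (L : (Sp d →L[ℝ] V) →L[ℝ] E) (hC : CEll L) : ∃ C : ℝ, 0 < C ∧
    ∀ ν : Sp d, ‖ν‖ = 1 → ∃ S : V →L[ℝ] E, ‖S‖ ≤ C ∧ (∀ v w, ⟪L (rk1 ν v), S w⟫_ℝ = ⟪v, w⟫_ℝ) ∧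
      ∀ w, ∃ v, S w = L (rk1 ν v) := by
  obtain ⟨κ, hκ, hl⟩ := lower L hC
  refine ⟨‖L‖ * (κ ^ 2)⁻¹ + 1, by positivity, fun ν hν => ?_⟩
  set G : V →L[ℝ] V := (AT L ν).comp (AL L ν) with hG
  have hGv : ∀ v w : V, ⟪v, G w⟫_ℝ = ⟪L (rk1 ν v), L (rk1 ν w)⟫_ℝ := by
    intro v w
    rw [hG, ContinuousLinearMap.comp_apply, inner_AT, AL_apply]
  have hGl : ∀ v : V, κ ^ 2 * ‖v‖ ≤ ‖G v‖ := by
    intro v
    by_cases hv : v = 0
    · rw [hv, norm_zero, mul_zero]; exact norm_nonneg _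
    · have hvn : 0 < ‖v‖ := norm_pos_iff.2 hv
      have h1 : κ ^ 2 * ‖v‖ * ‖v‖ ≤ ‖v‖ * ‖G v‖ := by
        have h2 := real_inner_le_norm v (G v)
        rw [hGv, real_inner_self_eq_norm_sq] at h2
        have h3 := hl ν hν v
        nlinarith only [h2, h3, mul_nonneg hκ.le (norm_nonneg v)]
      nlinarith
  have hinj : Function.Injective (G : V →ₗ[ℝ] V) := by
    rw [← LinearMap.ker_eq_bot, LinearMap.ker_eq_bot']
    intro v hv
    have h1 := hGl v
    have h2 : G v = 0 := hv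
    rw [h2, norm_zero] at h1
    have h3 : ‖v‖ ≤ 0 := by
      by_contra h4
      push Not at h4
      have : 0 < κ ^ 2 * ‖v‖ := by positivity
      linarith
    exact norm_le_zero_iff.1 h3
  let Ge : V ≃ₗ[ℝ] V := LinearEquiv.ofInjectiveEndo (G : V →ₗ[ℝ] V) hinj
  have hGe : ∀ w, G (Ge.symm w) = w := by
    intro w
    have := Ge.apply_symm_apply w
    exact this
  let Gi : V →L[ℝ] V := LinearMap.toContinuousLinearMap (Ge.symm : V →ₗ[ℝ] V)
  have hGi : ∀ w, G (Gi w) = w := hGe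
  have hGin : ∀ w, ‖Gi w‖ ≤ (κ ^ 2)⁻¹ * ‖w‖ := by
    intro w
    have h1 := hGl (Gi w)
    rw [hGi] at h1
    rw [inv_mul_eq_div, le_div_iff₀ (by positivity)]
    linarith
  refine ⟨(AL L ν).comp Gi, ?_, ?_, ?_⟩
  · refine ContinuousLinearMap.opNorm_le_bound _ (by positivity) fun w => ?_
    rw [ContinuousLinearMap.comp_apply]
    have h1 := norm_AL_le L ν
    rw [hν, mul_one] at h1
    calc ‖AL L ν (Gi w)‖ ≤ ‖AL L ν‖ * ‖Gi w‖ := (AL L ν).le_opNorm _
      _ ≤ ‖L‖ * ((κ ^ 2)⁻¹ * ‖w‖) := by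
          gcongr
          exact hGin w
      _ ≤ (‖L‖ * (κ ^ 2)⁻¹ + 1) * ‖w‖ := by nlinarith [norm_nonneg w]
  · intro v w
    rw [ContinuousLinearMap.comp_apply, AL_apply, ← hGv, hGi]
  · intro w
    exact ⟨Gi w, rfl⟩

end Symbol

section Weak

theorem zero_of_tests {D : Sp d → V} (hD : Continuous D)
    (h : ∀ u : Sp d → V, TF u → ∫ y, ⟪u y, D y⟫_ℝ = 0) (y : Sp d) : D y = 0 := by
  refine ext_inner_left ℝ fun v => ?_
  rw [inner_zero_right]
  have hf : Continuous fun y => ⟪v, D y⟫_ℝ := continuous_const.inner hD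
  have h1 := ae_eq_zero_of_integral_contDiff_smul_eq_zero (μ := (volume : Measure (Sp d)))
    hf.locallyIntegrable (fun g hg hgc => by
      have h2 := h (fun y => g y • v) ⟨hg.smul contDiff_const, hgc.smul_right⟩
      rw [← h2]
      refine integral_congr_ae (Filter.Eventually.of_forall fun y => ?_)
      simp only [inner_smul_left, conj_trivial, smul_eq_mul])
  have h3 : (fun y => ⟪v, D y⟫_ℝ) = fun _ => 0 :=
    (hf.ae_eq_iff_eq volume continuous_const).1 h1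
  exact congrFun h3 y

end Weak

section Field

/-- properties of the field -/
structure Fld (L : (Sp d →L[ℝ] V) →L[ℝ] E) (m : ℕ) (ν : Sp d) (c ρ N : ℝ) (Φ Φh X : Sp d → E)
    (g : Sp d → V) : Prop where
  tf : TFn 2 N Φh
  tx : TFn 2 N X
  xq : ∀ y, ‖X y‖ ≤ N * ht ν c y ^ 2
  xs : ∀ y, X y ≠ 0 → y ∈ cyl ν c 5 ρ
  fs : ∀ y, Φh y ≠ 0 → y ∈ cyl ν c 5 ρ
  on : ∀ y, ht ν c y = 0 → Φh y = Φ y
  pair : ∀ (e : E) (ve : V), (∀ w : V, ⟪e - L (rk1 ν ve), L (rk1 ν w)⟫_ℝ = 0) → ∀ y,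
    ⟪e, Φh y⟫_ℝ = cu1 4 (ht ν c y) * (⟪e, Φ y⟫_ℝ - ht ν c y * dvE L Φ ve y) + ⟪e, X y⟫_ℝ
  tg : TFn (m + 3) N g
  gs : ∀ y, g y ≠ 0 → y ∈ cyl ν c 5 ρ ∧ 4 ≤ |ht ν c y|
  eq : ∀ y, dV L Φh y = g y

theorem a1_bd (J : ℕ) : ∃ A : ℝ, 0 < A ∧ (∀ j ≤ J, ∀ t, |iteratedDeriv j (cu1 4) t| ≤ A) ∧
    (∀ j ≤ J, ∀ t, |iteratedDeriv j (fun t => t * cu1 4 t) t| ≤ A) ∧
    (∀ j ≤ J, ∀ t, |iteratedDeriv j (deriv (cu1 4)) t| ≤ A) ∧
    (∀ j ≤ J, ∀ t, |iteratedDeriv j (fun t => t * deriv (cu1 4) t) t| ≤ A) ∧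
    ∀ m, ∃ B : ℝ, 0 < B ∧ ∀ j ≤ J, ∀ t, |iteratedDeriv j (rr m) t| ≤ B := by
  have h0 : ContDiff ℝ ∞ (cu1 4) := cu1_contDiff le_rfl (by norm_num)
  have h0d : ContDiff ℝ ∞ (deriv (cu1 4)) := by
    have := h0.iterate_deriv 1
    simpa using this
  have hc0 := cu1_cs 4
  obtain ⟨A1, q1, p1⟩ := line_bd h0 hc0 J
  obtain ⟨A2, q2, p2⟩ := line_bd (contDiff_id.mul h0) hc0.mul_left J
  obtain ⟨A3, q3, p3⟩ := line_bd h0d hc0.deriv J
  obtain ⟨A4, q4, p4⟩ := line_bd (contDiff_id.mul h0d) hc0.deriv.mul_left J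
  refine ⟨A1 + A2 + A3 + A4, by positivity, fun j hj t => ?_, fun j hj t => ?_, fun j hj t => ?_,
    fun j hj t => ?_, fun m => ?_⟩
  · have := p1 j hj t
    linarith
  · have := p2 j hj t
    simp only [id] at this
    linarith
  · have := p3 j hj t
    linarith
  · have := p4 j hj t
    simp only [id] at this
    linarith
  · refine line_bd (rr_contDiff m) ?_ J
    refine HasCompactSupport.intro (isCompact_closedBall (0 : ℝ) 5) fun t ht => ?_
    rw [mem_closedBall_zero_iff, not_le, Real.norm_eq_abs] at ht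
    exact rr_zero m (Or.inr ht)

theorem dcu_zero {t : ℝ} (h : |t| < 4 ∨ 5 < |t|) : deriv (cu1 4) t = 0 := by
  rcases h with h | h
  · have h1 : cu1 4 =ᶠ[nhds t] fun _ => (1 : ℝ) := by
      filter_upwards [(isOpen_lt continuous_abs continuous_const).mem_nhds h] with y hy
      exact cu1_one (le_of_lt hy)
    rw [h1.deriv_eq]
    simp
  · have h1 : cu1 4 =ᶠ[nhds t] fun _ => (0 : ℝ) := by
      filter_upwards [(isOpen_lt continuous_const continuous_abs).mem_nhds h] with y hy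
      exact cu1_zero (by have : (5 : ℝ) < |y| := hy
                         linarith)
    rw [h1.deriv_eq]
    simp

theorem field (L : (Sp d →L[ℝ] V) →L[ℝ] E) (hC : CEll L) (m : ℕ)
    (T : (ContinuousMultilinearMap ℝ (fun _ : Fin m => Sp d) E) →L[ℝ]
      (ContinuousMultilinearMap ℝ (fun _ : Fin (m + 1) => Sp d) V)) (hNS : NSProp L m T) :
    ∃ C : ℝ, 0 < C ∧ ∀ (ν : Sp d), ‖ν‖ = 1 → ∀ (c ρ : ℝ) (Φ : Sp d → E) (N : ℝ),
      TFn (m + 5) N Φ → (∀ y, Φ y = Φ (tang ν y)) → (∀ y, Φ y ≠ 0 → ‖tang ν y‖ ≤ ρ) →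
      ∃ (Φh X : Sp d → E) (g : Sp d → V), Fld L m ν c ρ (C * N) Φ Φh X g := by
  obtain ⟨CS, hCS, hS⟩ := exists_S L hC
  obtain ⟨C1, hC1, hcorr⟩ := corr L m T hNS
  obtain ⟨A, hA, b1, b2, b3, b4, b5⟩ := a1_bd (m + 3)
  obtain ⟨B, hB, b6⟩ := b5 m
  set D : ℝ := ‖DL L‖ with hD
  have hD0 : 0 ≤ D := (DL L).opNorm_nonneg
  have hL0 : 0 ≤ ‖L‖ := L.opNorm_nonneg
  refine ⟨2 ^ (m + 3) * A * (1 + CS * D) + C1 * (D * CS * D) +
    2 ^ (m + 3) * (A * ‖L‖ + A * D + B * (D * CS * D)) + 1, by positivity, ?_⟩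
  intro ν hν c ρ Φ N hΦ hcy hsp
  have hN := tfn_nonneg hΦ
  obtain ⟨S, hSn, hS1, hS2⟩ := hS ν hν
  have h0 : ContDiff ℝ ∞ (cu1 4) := cu1_contDiff le_rfl (by norm_num)
  have h0d : ContDiff ℝ ∞ (deriv (cu1 4)) := by
    have := h0.iterate_deriv 1
    simpa using this
  have hΦC : CN ν Φ := CN.of_tang hν hcy
  -- dV Φ
  set W : Sp d → V := fun y => DL L (fderiv ℝ Φ y) with hW
  have hWt : TFn (m + 4) (D * N) W := tfn_clm (DL L) (tfn_fderiv (J := m + 4) hΦ)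
  have hWC : CN ν W := hΦC.fderiv.comp _
  have hWs : ∀ y, W y ≠ 0 → ‖tang ν y‖ ≤ ρ := fun y hy =>
    fderiv_tang_supp hsp y (fun h => hy (by simp only [hW]; rw [h, map_zero]))
  -- Φ1
  set Φ1 : Sp d → E := fun y => (-S) (W y) with hΦ1
  have hΦ1t : TFn (m + 4) (CS * (D * N)) Φ1 := by
    refine tfn_le (tfn_clm (-S) hWt) le_rfl ?_
    rw [norm_neg]
    gcongr
  have hΦ1C : CN ν Φ1 := hWC.comp _
  have hΦ1s : ∀ y, Φ1 y ≠ 0 → ‖tang ν y‖ ≤ ρ := fun y hy =>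
    hWs y (fun h => hy (by simp only [hΦ1]; rw [h, map_zero]))
  -- k
  set k : Sp d → V := fun y => DL L (fderiv ℝ Φ1 y) with hk
  have hkt : TFn (m + 3) (D * (CS * (D * N))) k := tfn_clm (DL L) (tfn_fderiv (J := m + 3) hΦ1t)
  have hkC : CN ν k := hΦ1C.fderiv.comp _
  have hks : ∀ y, k y ≠ 0 → ‖tang ν y‖ ≤ ρ := fun y hy =>
    fderiv_tang_supp hΦ1s y (fun h => hy (by simp only [hk]; rw [h, map_zero]))
  obtain ⟨X, hXt, hXq, hXs, hXi⟩ := hcorr ν hν c ρ k (D * (CS * (D * N)))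
    (tfn_le hkt (by omega) le_rfl) hkC hks
  -- supports of the functions of the height
  have s0 : ∀ t : ℝ, 5 < |t| → cu1 4 t = 0 := fun t ht => cu1_zero (by linarith)
  have s1 : ∀ t : ℝ, 5 < |t| → t * cu1 4 t = 0 := fun t ht => by rw [s0 t ht, mul_zero]
  have s3 : ∀ t : ℝ, 5 < |t| → deriv (cu1 4) t = 0 := fun t ht => dcu_zero (Or.inr ht)
  have s4 : ∀ t : ℝ, 5 < |t| → t * deriv (cu1 4) t = 0 := fun t ht => by rw [s3 t ht, mul_zero]
  have s6 : ∀ t : ℝ, 5 < |t| → rr m t = 0 := fun t ht => rr_zero m (Or.inr ht)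
  set a1 : ℝ → ℝ := fun t => t * cu1 4 t with ha1
  have ha1s : ContDiff ℝ ∞ a1 := contDiff_id.mul h0
  set a4 : ℝ → ℝ := fun t => t * deriv (cu1 4) t with ha4
  have ha4s : ContDiff ℝ ∞ a4 := contDiff_id.mul h0d
  set F0 : Sp d → E := fun y => cu1 4 (ht ν c y) • Φ y with hF0
  set F1 : Sp d → E := fun y => a1 (ht ν c y) • Φ1 y with hF1
  have hF0t : TFn (m + 3) (2 ^ (m + 3) * A * N) F0 :=
    tfn_htmul (h0.of_le (nat_le_inf _)) b1 hν c (tfn_le hΦ (by omega) le_rfl)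
  have hF1t : TFn (m + 3) (2 ^ (m + 3) * A * (CS * (D * N))) F1 :=
    tfn_htmul (ha1s.of_le (nat_le_inf _)) b2 hν c (tfn_le hΦ1t (by omega) le_rfl)
  have hF0s : ∀ y, F0 y ≠ 0 → y ∈ cyl ν c 5 ρ := fun y hy => prod_supp s0 hsp y hy
  have hF1s : ∀ y, F1 y ≠ 0 → y ∈ cyl ν c 5 ρ := fun y hy => prod_supp s1 hΦ1s y hy
  -- the image
  set g1 : Sp d → V := fun y => deriv (cu1 4) (ht ν c y) • AT L ν (Φ y) with hg1
  set g2 : Sp d → V := fun y => a4 (ht ν c y) • ((-1 : ℝ) • W y) with hg2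
  set g3 : Sp d → V := fun y => rr m (ht ν c y) • ((-1 : ℝ) • k y) with hg3
  have hATn : ‖AT L ν‖ ≤ ‖L‖ := by
    have := norm_AT_le L ν
    rwa [hν, mul_one] at this
  have hg1t : TFn (m + 3) (2 ^ (m + 3) * A * (‖L‖ * N)) g1 :=
    tfn_htmul (h0d.of_le (nat_le_inf _)) b3 hν c (tfn_le (tfn_clm (AT L ν) hΦ) (by omega)
      (by gcongr))
  have hg2t : TFn (m + 3) (2 ^ (m + 3) * A * (D * N)) g2 := by
    refine tfn_htmul (ha4s.of_le (nat_le_inf _)) b4 hν c (tfn_le (tfn_smul hWt (-1)) (by omega) ?_)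
    rw [abs_neg, abs_one, one_mul]
  have hg3t : TFn (m + 3) (2 ^ (m + 3) * B * (D * (CS * (D * N)))) g3 := by
    refine tfn_htmul ((rr_contDiff m).of_le (nat_le_inf _)) b6 hν c
      (tfn_le (tfn_smul hkt (-1)) le_rfl ?_)
    rw [abs_neg, abs_one, one_mul]
  set g : Sp d → V := fun y => g1 y + g2 y + g3 y with hg
  set Φh : Sp d → E := fun y => F0 y + F1 y + X y with hΦh
  have hgs : ∀ y, g y ≠ 0 → y ∈ cyl ν c 5 ρ ∧ 4 ≤ |ht ν c y| := by
    intro y hy
    have h3 : |ht ν c y| < 4 ∨ 5 < |ht ν c y| → g y = 0 := by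
      intro h
      simp only [hg, hg1, hg2, hg3, ha4]
      rw [dcu_zero h, rr_zero m h]
      simp
    have h4 : ‖tang ν y‖ ≤ ρ := by
      by_contra h5
      apply hy
      have e1 : Φ y = 0 := by
        by_contra h6
        exact h5 (hsp y h6)
      have e2 : W y = 0 := by
        by_contra h6
        exact h5 (hWs y h6)
      have e3 : k y = 0 := by
        by_contra h6
        exact h5 (hks y h6)
      simp only [hg, hg1, hg2, hg3, e1, e2, e3]
      simp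
    refine ⟨⟨?_, h4⟩, ?_⟩
    · by_contra h5
      push Not at h5
      exact hy (h3 (Or.inr h5))
    · by_contra h5
      push Not at h5
      exact hy (h3 (Or.inl h5))
  have hΦhs : ∀ y, Φh y ≠ 0 → y ∈ cyl ν c 5 ρ := by
    intro y hy
    by_contra h
    apply hy
    have e1 : F0 y = 0 := by
      by_contra h6
      exact h (hF0s y h6)
    have e2 : F1 y = 0 := by
      by_contra h6
      exact h (hF1s y h6)
    have e3 : X y = 0 := by
      by_contra h6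
      exact h (hXs y h6)
    simp only [hΦh, e1, e2, e3, add_zero]
  have hΦht : TFn 2 (2 ^ (m + 3) * A * N + 2 ^ (m + 3) * A * (CS * (D * N)) +
      C1 * (D * (CS * (D * N)))) Φh :=
    tfn_add (tfn_add (tfn_le hF0t (by omega) le_rfl) (tfn_le hF1t (by omega) le_rfl)) hXt
  have hgt : TFn (m + 3) (2 ^ (m + 3) * A * (‖L‖ * N) + 2 ^ (m + 3) * A * (D * N) +
      2 ^ (m + 3) * B * (D * (CS * (D * N)))) g := tfn_add (tfn_add hg1t hg2t) hg3t
  -- the adjoint operator on the explicit part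
  have hdiff0 : Differentiable ℝ Φ := hΦ.smooth.differentiable (by simp)
  have hdiff1 : Differentiable ℝ Φ1 := hΦ1t.smooth.differentiable (by simp)
  have hAS : ∀ w, AT L ν (S w) = w := by
    intro w
    refine ext_inner_left ℝ fun v => ?_
    rw [inner_AT, hS1]
  have hd0 : ∀ y, dV L F0 y = cu1 4 (ht ν c y) • W y + g1 y := fun y =>
    dV_ht_smul L (h0.differentiable (by simp)) hdiff0 ν c y
  have hder1 : ∀ t, deriv a1 t = cu1 4 t + t * deriv (cu1 4) t := by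
    intro t
    have e1 := ((hasDerivAt_id t).mul (h0.differentiable (by simp) t).hasDerivAt).deriv
    simp only [id, one_mul] at e1
    exact e1
  have hd1 : ∀ y, dV L F1 y = a1 (ht ν c y) • k y - (cu1 4 (ht ν c y) +
      ht ν c y * deriv (cu1 4) (ht ν c y)) • W y := by
    intro y
    have e1 := dV_ht_smul L (ha1s.differentiable (by simp)) hdiff1 ν c y
    rw [hder1] at e1
    have e2 : AT L ν (Φ1 y) = -W y := by
      simp only [hΦ1]
      rw [neg_apply, map_neg, hAS]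
    rw [e2, smul_neg, ← sub_eq_add_neg] at e1
    exact e1
  have hF01 : ContDiff ℝ 1 (fun y => F0 y + F1 y) :=
    (hF0t.smooth.of_le (by norm_cast; omega)).add (hF1t.smooth.of_le (by norm_cast; omega))
  have hd01 : ∀ y, dV L (fun y => F0 y + F1 y) y = dV L F0 y + dV L F1 y := by
    intro y
    unfold dV
    have e1 : fderiv ℝ (fun y => F0 y + F1 y) y = fderiv ℝ F0 y + fderiv ℝ F1 y :=
      fderiv_fun_add ((hF0t.smooth.differentiable (by simp)) y)
        ((hF1t.smooth.differentiable (by simp)) y)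
    rw [e1, map_add]
  have hsum : ∀ y, dV L (fun y => F0 y + F1 y) y = g y +
      iteratedDeriv (m + 1) (rho m) (ht ν c y) • k y := by
    intro y
    rw [hd01, hd0, hd1]
    simp only [hg, hg1, hg2, hg3, ha1, ha4, rr]
    module
  have hF01s : ∀ y, F0 y + F1 y ≠ 0 → y ∈ cyl ν c 5 ρ := by
    intro y hy
    by_contra h
    apply hy
    have e1 : F0 y = 0 := by
      by_contra h6
      exact h (hF0s y h6)
    have e2 : F1 y = 0 := by
      by_contra h6
      exact h (hF1s y h6)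
    rw [e1, e2, add_zero]
  -- the weak identity
  have hweak : ∀ u : Sp d → V, TF u → ∫ y, ⟪fo L u y, Φh y⟫_ℝ = -∫ y, ⟪u y, g y⟫_ℝ := by
    intro u hu
    have huc : Continuous u := hu.smooth.continuous
    have hf : ContDiff ℝ ∞ (fo L u) := by
      have : ContDiff ℝ ∞ (fderiv ℝ u) := hu.smooth.fderiv_right (m := ∞) le_rfl
      exact L.contDiff.comp this
    have hfc : Continuous (fo L u) := hf.continuous
    have e1 := ibp_L L (hu.smooth.of_le (by exact_mod_cast le_top)) hF01 (cyl_cs hν hF01s)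
    have e2 := hXi u hu.smooth
    have hF01c : Continuous fun y => F0 y + F1 y := hF01.continuous
    have hXc : Continuous X := hXt.smooth.continuous
    have hgc : Continuous g := hgt.smooth.continuous
    have hkc : Continuous k := hkt.smooth.continuous
    have hrc : Continuous fun y => iteratedDeriv (m + 1) (rho m) (ht ν c y) := by
      have : Continuous (iteratedDeriv (m + 1) (rho m)) :=
        (rho_contDiff m).continuous_iteratedDeriv _ (by exact_mod_cast le_top)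
      exact this.comp (ht_continuous ν c)
    have hucs := hu.supp
    have i1 : Integrable fun y => ⟪fo L u y, F0 y + F1 y⟫_ℝ :=
      Continuous.integrable_of_hasCompactSupport (hfc.inner hF01c)
        ((cyl_cs hν hF01s).mono' fun y hy => subset_closure fun h0 => hy (by
          show ⟪fo L u y, F0 y + F1 y⟫_ℝ = 0
          have h0' : F0 y + F1 y = 0 := h0
          rw [h0', inner_zero_right]))
    have i2 : Integrable fun y => ⟪fo L u y, X y⟫_ℝ :=
      Continuous.integrable_of_hasCompactSupport (hfc.inner hXc)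
        ((cyl_cs hν hXs).mono' fun y hy => subset_closure fun h0 => hy (by
          show ⟪fo L u y, X y⟫_ℝ = 0
          have h0' : X y = 0 := h0
          rw [h0', inner_zero_right]))
    have i3 : Integrable fun y => ⟪u y, g y⟫_ℝ :=
      Continuous.integrable_of_hasCompactSupport (huc.inner hgc)
        (hucs.mono' fun y hy => subset_closure fun h0 => hy (by
          show ⟪u y, g y⟫_ℝ = 0
          have h0' : u y = 0 := h0
          rw [h0', inner_zero_left]))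
    have i4 : Integrable fun y => ⟪u y, iteratedDeriv (m + 1) (rho m) (ht ν c y) • k y⟫_ℝ :=
      Continuous.integrable_of_hasCompactSupport (huc.inner (hrc.smul hkc))
        (hucs.mono' fun y hy => subset_closure fun h0 => hy (by
          show ⟪u y, iteratedDeriv (m + 1) (rho m) (ht ν c y) • k y⟫_ℝ = 0
          have h0' : u y = 0 := h0
          rw [h0', inner_zero_left]))
    have e3 : ∫ y, ⟪fo L u y, Φh y⟫_ℝ = (∫ y, ⟪fo L u y, F0 y + F1 y⟫_ℝ) +
        ∫ y, ⟪fo L u y, X y⟫_ℝ := by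
      rw [← integral_add i1 i2]
      refine integral_congr_ae (Filter.Eventually.of_forall fun y => ?_)
      simp only [hΦh, inner_add_right]
    have e4 : ∫ y, ⟪u y, dV L (fun y => F0 y + F1 y) y⟫_ℝ = (∫ y, ⟪u y, g y⟫_ℝ) +
        ∫ y, ⟪u y, iteratedDeriv (m + 1) (rho m) (ht ν c y) • k y⟫_ℝ := by
      rw [← integral_add i3 i4]
      refine integral_congr_ae (Filter.Eventually.of_forall fun y => ?_)
      simp only [hsum, inner_add_right]
    have e5 : ∫ y, ⟪fo L u y, X y⟫_ℝ =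
        ∫ y, ⟪u y, iteratedDeriv (m + 1) (rho m) (ht ν c y) • k y⟫_ℝ := by
      have e6 : ∫ y, ⟪fo L u y, X y⟫_ℝ = ∫ y, ⟪X y, fo L u y⟫_ℝ :=
        integral_congr_ae (Filter.Eventually.of_forall fun y => real_inner_comm _ _)
      rw [e6, ← e2]
      exact integral_congr_ae (Filter.Eventually.of_forall fun y => real_inner_comm _ _)
    rw [e3, e1, e4, e5]
    ring
  have hΦhc : ContDiff ℝ 1 Φh := hΦht.smooth.of_le (by norm_cast)
  have heq : ∀ y, dV L Φh y = g y := by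
    intro y
    have hdc : Continuous (dV L Φh) :=
      (DL L).continuous.comp (hΦhc.continuous_fderiv (by simp))
    have hgc : Continuous g := hgt.smooth.continuous
    have := zero_of_tests (D := fun y => dV L Φh y - g y) (hdc.sub hgc) (fun u hu => by
      have huc : Continuous u := hu.smooth.continuous
      have e1 := ibp_L L (hu.smooth.of_le (by exact_mod_cast le_top)) hΦhc (cyl_cs hν hΦhs)
      rw [hweak u hu] at e1
      have i3 : Integrable fun y => ⟪u y, g y⟫_ℝ :=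
        Continuous.integrable_of_hasCompactSupport (huc.inner hgc)
          (hu.supp.mono' fun y hy => subset_closure fun h0 => hy (by
            show ⟪u y, g y⟫_ℝ = 0
            have h0' : u y = 0 := h0
            rw [h0', inner_zero_left]))
      have i4 : Integrable fun y => ⟪u y, dV L Φh y⟫_ℝ :=
        Continuous.integrable_of_hasCompactSupport (huc.inner hdc)
          (hu.supp.mono' fun y hy => subset_closure fun h0 => hy (by
            show ⟪u y, dV L Φh y⟫_ℝ = 0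
            have h0' : u y = 0 := h0
            rw [h0', inner_zero_left]))
      have e2 : ∫ y, ⟪u y, dV L Φh y - g y⟫_ℝ = (∫ y, ⟪u y, dV L Φh y⟫_ℝ) -
          ∫ y, ⟪u y, g y⟫_ℝ := by
        rw [← integral_sub i4 i3]
        refine integral_congr_ae (Filter.Eventually.of_forall fun y => ?_)
        simp only [inner_sub_right]
      rw [e2]
      linarith) y
    exact sub_eq_zero.1 this
  have hp : (0 : ℝ) < 2 ^ (m + 3) := by positivity
  have hle1 : 2 ^ (m + 3) * A * N + 2 ^ (m + 3) * A * (CS * (D * N)) +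
      C1 * (D * (CS * (D * N))) ≤ (2 ^ (m + 3) * A * (1 + CS * D) + C1 * (D * CS * D) +
    2 ^ (m + 3) * (A * ‖L‖ + A * D + B * (D * CS * D)) + 1) * N := by
    have h1 : 0 ≤ (2 ^ (m + 3) * (A * ‖L‖ + A * D + B * (D * CS * D)) + 1) * N := by (clear * - hA hB hCS hN; positivity)
    linarith
  have hle2 : C1 * (D * (CS * (D * N))) ≤ (2 ^ (m + 3) * A * (1 + CS * D) + C1 * (D * CS * D) +
    2 ^ (m + 3) * (A * ‖L‖ + A * D + B * (D * CS * D)) + 1) * N := by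
    have h1 : 0 ≤ (2 ^ (m + 3) * A * (1 + CS * D) +
      2 ^ (m + 3) * (A * ‖L‖ + A * D + B * (D * CS * D)) + 1) * N := by (clear * - hA hCS hB hN; positivity)
    linarith
  have hle3 : 2 ^ (m + 3) * A * (‖L‖ * N) + 2 ^ (m + 3) * A * (D * N) +
      2 ^ (m + 3) * B * (D * (CS * (D * N))) ≤ (2 ^ (m + 3) * A * (1 + CS * D) +
      C1 * (D * CS * D) + 2 ^ (m + 3) * (A * ‖L‖ + A * D + B * (D * CS * D)) + 1) * N := by
    have h1 : 0 ≤ (2 ^ (m + 3) * A * (1 + CS * D) + C1 * (D * CS * D) + 1) * N := by (clear * - hA hCS hC1 hN; positivity)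
    linarith
  refine ⟨Φh, X, g, tfn_le hΦht le_rfl hle1, tfn_le hXt le_rfl hle2, fun y => (hXq y).trans ?_,
    hXs, hΦhs, ?_, ?_, tfn_le hgt le_rfl hle3, hgs, heq⟩
  · have := sq_nonneg (ht ν c y)
    exact mul_le_mul_of_nonneg_right hle2 this
  · intro y hy
    have hX0 : X y = 0 := by
      have := hXq y
      rw [hy] at this
      simpa using this
    simp only [hΦh, hF0, hF1, ha1, hy, hX0]
    rw [cu1_one (by simp)]
    simp
  · intro e ve hve y
    have h1 : ⟪e, Φ1 y⟫_ℝ = - dvE L Φ ve y := by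
      obtain ⟨w, hw⟩ := hS2 (W y)
      have h2 := hve w
      rw [inner_sub_left, sub_eq_zero, ← hw, hS1] at h2
      simp only [hΦ1]
      rw [neg_apply, inner_neg_right, h2, ← inner_dV]
      rfl
    simp only [hΦh, hF0, hF1, ha1, inner_add_right, inner_smul_right, h1]
    ring

end Field

end SH
end TG


end

section

/-!
# Module SHA, part 4: integration over half spaces (MP_287c87_an; helper22)
-/

set_option linter.unusedSectionVars false

open MeasureTheory Metric Set TrI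
open scoped InnerProductSpace ContDiff

namespace TG
namespace SH

variable {d : ℕ} {V E : Type} [NormedAddCommGroup V] [InnerProductSpace ℝ V]
  [FiniteDimensional ℝ V] [NormedAddCommGroup E] [InnerProductSpace ℝ E] [FiniteDimensional ℝ E]

section Plane

theorem perp_inner {ν : Sp d} (y : (Submodule.span ℝ {ν})ᗮ) : ⟪ν, (y : Sp d)⟫_ℝ = 0 :=
  (Submodule.mem_orthogonal_singleton_iff_inner_right).1 y.2

theorem ht_plane {ν : Sp d} (hν : ‖ν‖ = 1) (c s : ℝ) (y : (Submodule.span ℝ {ν})ᗮ) :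
    ht ν c (s • ν + (y : Sp d)) = s - c := by
  unfold ht
  rw [inner_add_right, inner_smul_right, real_inner_self_eq_norm_sq, hν, perp_inner]
  ring

theorem pl_congr {F G : Sp d → ℝ} {ν : Sp d} (hν : ‖ν‖ = 1) (c s : ℝ)
    (h : ∀ y, ht ν c y = s - c → F y = G y) : plInt ν s F = plInt ν s G := by
  unfold plInt
  refine integral_congr_ae (Filter.Eventually.of_forall fun y => ?_)
  exact h _ (ht_plane hν c s y)

theorem pl_int {F : Sp d → ℝ} (hF : Continuous F) (hc : HasCompactSupport F) (ν : Sp d) (s : ℝ) :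
    Integrable (fun y : (Submodule.span ℝ {ν})ᗮ => F (s • ν + (y : Sp d))) := by
  have hi : Isometry (fun y : (Submodule.span ℝ {ν})ᗮ => s • ν + (y : Sp d)) := by
    intro y z
    rw [edist_add_left]
    rfl
  have he : Topology.IsClosedEmbedding
      (fun y : (Submodule.span ℝ {ν})ᗮ => s • ν + (y : Sp d)) := hi.isClosedEmbedding
  exact (hF.comp he.continuous).integrable_of_hasCompactSupport (hc.comp_isClosedEmbedding he)

theorem pl_add {F G : Sp d → ℝ} (hF : Continuous F) (hFc : HasCompactSupport F)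
    (hG : Continuous G) (hGc : HasCompactSupport G) (ν : Sp d) (s : ℝ) :
    plInt ν s (fun y => F y + G y) = plInt ν s F + plInt ν s G :=
  integral_add (pl_int hF hFc ν s) (pl_int hG hGc ν s)

theorem pl_sub {F G : Sp d → ℝ} (hF : Continuous F) (hFc : HasCompactSupport F)
    (hG : Continuous G) (hGc : HasCompactSupport G) (ν : Sp d) (s : ℝ) :
    plInt ν s (fun y => F y - G y) = plInt ν s F - plInt ν s G :=
  integral_sub (pl_int hF hFc ν s) (pl_int hG hGc ν s)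

theorem pl_sum {ι : Type*} (S : Finset ι) {F : ι → Sp d → ℝ} (hF : ∀ i, Continuous (F i))
    (hFc : ∀ i, HasCompactSupport (F i)) (ν : Sp d) (s : ℝ) :
    plInt ν s (fun y => ∑ i ∈ S, F i y) = ∑ i ∈ S, plInt ν s (F i) :=
  integral_finsetSum S fun i _ => pl_int (hF i) (hFc i) ν s

end Plane

section Half

/-- the pairing of a symbol with the field -/
theorem fderiv_pair (L : (Sp d →L[ℝ] V) →L[ℝ] E) (ξ : Sp d) {P : Sp d → V} {Φ : Sp d → E}
    (hP : Differentiable ℝ P) (hΦ : Differentiable ℝ Φ) (y h : Sp d) :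
    fderiv ℝ (fun y => ⟪L (rk1 ξ (P y)), Φ y⟫_ℝ) y h =
      ⟪L (rk1 ξ (fderiv ℝ P y h)), Φ y⟫_ℝ + ⟪L (rk1 ξ (P y)), fderiv ℝ Φ y h⟫_ℝ := by
  have h1 : HasFDerivAt (fun y => L (rk1 ξ (P y))) ((AL L ξ).comp (fderiv ℝ P y)) y :=
    (AL L ξ).hasFDerivAt.comp y (hP y).hasFDerivAt
  have h2 := h1.inner ℝ (hΦ y).hasFDerivAt
  rw [h2.fderiv]
  simp only [ContinuousLinearMap.comp_apply, ContinuousLinearMap.prod_apply, fderivInnerCLM_apply]
  rw [add_comm]
  congr 1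

theorem pair_supp (L : (Sp d →L[ℝ] V) →L[ℝ] E) (ξ : Sp d) {P : Sp d → V} {Φ : Sp d → E}
    (hΦ : HasCompactSupport Φ) : HasCompactSupport (fun y => ⟪L (rk1 ξ (P y)), Φ y⟫_ℝ) := by
  refine hΦ.mono' fun y hy => subset_closure fun h0 => hy ?_
  show ⟪L (rk1 ξ (P y)), Φ y⟫_ℝ = 0
  rw [h0, inner_zero_right]

theorem pair_contDiff (L : (Sp d →L[ℝ] V) →L[ℝ] E) (ξ : Sp d) {P : Sp d → V} {Φ : Sp d → E}
    (hP : ContDiff ℝ 1 P) (hΦ : ContDiff ℝ 1 Φ) :
    ContDiff ℝ 1 (fun y => ⟪L (rk1 ξ (P y)), Φ y⟫_ℝ) :=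
  ((AL L ξ).contDiff.comp hP).inner ℝ hΦ

/-- the derivative of the plane integrals -/
theorem half_deriv (hPF : StmtPF) (hd : 1 ≤ d) (L : (Sp d →L[ℝ] V) →L[ℝ] E) {ν : Sp d}
    (hν : ‖ν‖ = 1) {P : Sp d → V} (hP : ContDiff ℝ 1 P) {Φ : Sp d → E} (hΦ : ContDiff ℝ 1 Φ)
    (hs : HasCompactSupport Φ) (s : ℝ) :
    HasDerivAt (fun s => plInt ν s (fun y => ⟪L (rk1 ν (P y)), Φ y⟫_ℝ))
      (plInt ν s (fun y => ⟪fo L P y, Φ y⟫_ℝ + ⟪P y, dV L Φ y⟫_ℝ)) s := by
  obtain ⟨-, h2⟩ := hPF d hd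
  obtain ⟨-, -, hder, -, htan, -⟩ := h2 ν hν
  have hPd : Differentiable ℝ P := hP.differentiable (by simp)
  have hΦd : Differentiable ℝ Φ := hΦ.differentiable (by simp)
  have h3 := hder _ (pair_contDiff L ν hP hΦ) (pair_supp L ν hs) s
  set e : Fin d → Sp d := fun j => EuclideanSpace.single j (1 : ℝ) with he
  set F : Fin d → Sp d → ℝ := fun j y => ⟪L (rk1 (e j) (P y)), Φ y⟫_ℝ with hF
  set τ : Fin d → Sp d := fun j => e j - ν j • ν with hτ
  have hνe : ∀ j, ⟪ν, e j⟫_ℝ = ν j := by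
    intro j
    rw [real_inner_comm]
    simp [he, EuclideanSpace.inner_single_left]
  have hτν : ∀ j, ⟪ν, τ j⟫_ℝ = 0 := by
    intro j
    simp only [hτ]
    rw [inner_sub_right, inner_smul_right, real_inner_self_eq_norm_sq, hν, hνe]
    ring
  have hFc1 : ∀ j, ContDiff ℝ 1 (F j) := fun j => pair_contDiff L (e j) hP hΦ
  have hFs : ∀ j, HasCompactSupport (F j) := fun j => pair_supp L (e j) hs
  have hpt : ∀ y, ⟪fo L P y, Φ y⟫_ℝ + ⟪P y, dV L Φ y⟫_ℝ =
      fderiv ℝ (fun y => ⟪L (rk1 ν (P y)), Φ y⟫_ℝ) y ν + ∑ j, fderiv ℝ (F j) y (τ j) := by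
    intro y
    rw [fo_eq, inner_dV, sum_inner]
    unfold dvE
    rw [← Finset.sum_add_distrib]
    have e1 : fderiv ℝ (fun y => ⟪L (rk1 ν (P y)), Φ y⟫_ℝ) y ν =
        ∑ j, ν j * fderiv ℝ (F j) y ν := by
      rw [fderiv_pair L ν hPd hΦd, L_rk1, L_rk1, sum_inner, sum_inner, ← Finset.sum_add_distrib]
      refine Finset.sum_congr rfl fun j _ => ?_
      simp only [hF]
      rw [fderiv_pair L (e j) hPd hΦd, inner_smul_left, inner_smul_left]
      simp only [conj_trivial, he]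
      ring
    rw [e1, ← Finset.sum_add_distrib]
    refine Finset.sum_congr rfl fun j _ => ?_
    simp only [hτ]
    rw [map_sub, map_smul, smul_eq_mul, add_sub_cancel]
    simp only [hF]
    rw [fderiv_pair L (e j) hPd hΦd]
  have e2 : plInt ν s (fun y => ⟪fo L P y, Φ y⟫_ℝ + ⟪P y, dV L Φ y⟫_ℝ) =
      plInt ν s (fun y => fderiv ℝ (fun y => ⟪L (rk1 ν (P y)), Φ y⟫_ℝ) y ν) := by
    have e3 : (fun y => ⟪fo L P y, Φ y⟫_ℝ + ⟪P y, dV L Φ y⟫_ℝ) = fun y =>
      fderiv ℝ (fun y => ⟪L (rk1 ν (P y)), Φ y⟫_ℝ) y ν + ∑ j, fderiv ℝ (F j) y (τ j) :=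
      funext hpt
    have c1 : Continuous fun y => fderiv ℝ (fun y => ⟪L (rk1 ν (P y)), Φ y⟫_ℝ) y ν :=
      ((pair_contDiff L ν hP hΦ).continuous_fderiv (by simp)).clm_apply continuous_const
    have c2 : ∀ j, Continuous fun y => fderiv ℝ (F j) y (τ j) := fun j =>
      ((hFc1 j).continuous_fderiv (by simp)).clm_apply continuous_const
    have s1 : HasCompactSupport fun y => fderiv ℝ (fun y => ⟪L (rk1 ν (P y)), Φ y⟫_ℝ) y ν :=
      (pair_supp L ν hs).fderiv_apply (𝕜 := ℝ) ν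
    have s2 : ∀ j, HasCompactSupport fun y => fderiv ℝ (F j) y (τ j) := fun j =>
      (hFs j).fderiv_apply (𝕜 := ℝ) (τ j)
    have s3 : HasCompactSupport fun y => ∑ j, fderiv ℝ (F j) y (τ j) := by
      refine hs.mono' fun y hy => ?_
      by_contra h4
      apply hy
      show ∑ j, fderiv ℝ (F j) y (τ j) = 0
      refine Finset.sum_eq_zero fun j _ => ?_
      have h5 : fderiv ℝ (F j) y = 0 := by
        have h6 : y ∉ tsupport (F j) := fun h7 => h4 (by
          refine closure_mono (fun z hz => ?_) h7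
          intro h8
          exact hz (by simp only [hF]; rw [h8, inner_zero_right]))
        have h9 := (support_fderiv_subset (𝕜 := ℝ) (f := F j))
        by_contra h10
        exact h6 (h9 h10)
      rw [h5, zero_apply]
    rw [e3, pl_add c1 s1 (continuous_finsetSum _ fun j _ => c2 j) s3,
      pl_sum Finset.univ c2 s2]
    rw [Finset.sum_eq_zero fun j _ => htan (F j) (hFc1 j) (hFs j) s (τ j) (hτν j), add_zero]
  rw [e2]
  exact h3

theorem inner_cs_right {f : Sp d → V} {g : Sp d → V} (hg : HasCompactSupport g) :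
    HasCompactSupport (fun y => ⟪f y, g y⟫_ℝ) := by
  refine hg.mono' fun y hy => subset_closure fun h0 => hy ?_
  show ⟪f y, g y⟫_ℝ = 0
  rw [h0, inner_zero_right]

theorem th_contDiff (σ : ℝ) : ContDiff ℝ ∞ (fun t : ℝ => Real.smoothTransition (σ * t)) :=
  Real.smoothTransition.contDiff.comp (contDiff_const.mul contDiff_id)

/-- the upper half space -/
theorem upper (hPF : StmtPF) (hd : 1 ≤ d) (L : (Sp d →L[ℝ] V) →L[ℝ] E) {m : ℕ} {ν : Sp d}
    (hν : ‖ν‖ = 1) {c ρ N : ℝ} {Φ Φh X : Sp d → E} {g : Sp d → V}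
    (hF : Fld L m ν c ρ N Φ Φh X g) {P : Sp d → V} (hP : ContDiff ℝ ∞ P) :
    (∫ y, ⟪P y, Real.smoothTransition (1 * ht ν c y) • g y⟫_ℝ) =
      -plInt ν c (fun y => ⟪L (rk1 ν (P y)), Φ y⟫_ℝ) -
        ∫ s in c..(c + 6), plInt ν s (fun y => ⟪fo L P y, Φh y⟫_ℝ) := by
  obtain ⟨-, h2⟩ := hPF d hd
  obtain ⟨hfub, hcont, -, -, -, -⟩ := h2 ν hν
  have hP1 : ContDiff ℝ 1 P := hP.of_le (by exact_mod_cast le_top)
  have hPc : Continuous P := hP.continuous
  have hΦh1 : ContDiff ℝ 1 Φh := hF.tf.smooth.of_le (by norm_cast)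
  have hΦhs : HasCompactSupport Φh := cyl_cs hν hF.fs
  have hΦhc : Continuous Φh := hΦh1.continuous
  have hgc : Continuous g := hF.tg.smooth.continuous
  have hgs : HasCompactSupport g := cyl_cs hν (fun y hy => (hF.gs y hy).1)
  have hfoc : Continuous (fo L P) :=
    L.continuous.comp (hP1.continuous_fderiv (by simp))
  have hthc : Continuous fun y => Real.smoothTransition (1 * ht ν c y) :=
    (th_contDiff 1).continuous.comp (ht_continuous ν c)
  -- the derivative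
  set pz : ℝ → ℝ := fun s => plInt ν s (fun y => ⟪L (rk1 ν (P y)), Φh y⟫_ℝ) with hpz
  have hdv : ∀ s, HasDerivAt pz (plInt ν s (fun y => ⟪fo L P y, Φh y⟫_ℝ) +
      plInt ν s (fun y => ⟪P y, g y⟫_ℝ)) s := by
    intro s
    have h3 := half_deriv hPF hd L hν hP1 hΦh1 hΦhs s
    have e1 : (fun y => ⟪fo L P y, Φh y⟫_ℝ + ⟪P y, dV L Φh y⟫_ℝ) =
        fun y => ⟪fo L P y, Φh y⟫_ℝ + ⟪P y, g y⟫_ℝ := by
      funext y
      rw [hF.eq]
    rw [e1, pl_add (hfoc.inner hΦhc) (inner_cs_right (V := E) hΦhs) (hPc.inner hgc)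
      (inner_cs_right hgs)] at h3
    exact h3
  have hc1 : Continuous fun s => plInt ν s (fun y => ⟪fo L P y, Φh y⟫_ℝ) :=
    hcont _ (hfoc.inner hΦhc) (inner_cs_right (V := E) hΦhs)
  have hc2 : Continuous fun s => plInt ν s (fun y => ⟪P y, g y⟫_ℝ) :=
    hcont _ (hPc.inner hgc) (inner_cs_right hgs)
  have hftc := intervalIntegral.integral_eq_sub_of_hasDerivAt (a := c) (b := c + 6)
    (fun s _ => hdv s) ((hc1.add hc2).intervalIntegrable _ _)
  rw [intervalIntegral.integral_add (hc1.intervalIntegrable _ _) (hc2.intervalIntegrable _ _)] at hftc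
  -- the boundary values
  have hb1 : pz (c + 6) = 0 := by
    have e1 : pz (c + 6) = plInt ν (c + 6) (fun _ => (0 : ℝ)) := by
      refine pl_congr hν c (c + 6) fun y hy => ?_
      have h4 : Φh y = 0 := by
        by_contra h5
        have := (hF.fs y h5).1
        rw [hy, add_sub_cancel_left, abs_of_pos (by norm_num)] at this
        norm_num at this
      rw [h4, inner_zero_right]
    rw [e1]
    unfold plInt
    simp
  have hb2 : pz c = plInt ν c (fun y => ⟪L (rk1 ν (P y)), Φ y⟫_ℝ) := by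
    refine pl_congr hν c c fun y hy => ?_
    rw [hF.on y (by rw [hy, sub_self])]
  -- the upper part of g
  have hgpos : ∀ y, 0 ≤ ht ν c y → Real.smoothTransition (1 * ht ν c y) • g y = g y := by
    intro y hy
    by_cases h5 : g y = 0
    · rw [h5, smul_zero]
    · have h6 := (hF.gs y h5).2
      rw [abs_of_nonneg hy] at h6
      rw [Real.smoothTransition.one_of_one_le (by linarith), one_smul]
  have hgneg : ∀ y, ht ν c y ≤ 0 → Real.smoothTransition (1 * ht ν c y) • g y = 0 := by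
    intro y hy
    rw [Real.smoothTransition.zero_of_nonpos (by linarith), zero_smul]
  have hgpc : Continuous fun y => Real.smoothTransition (1 * ht ν c y) • g y := hthc.smul hgc
  have hgps : HasCompactSupport fun y => Real.smoothTransition (1 * ht ν c y) • g y := hgs.smul_left
  have h6 : (∫ y, ⟪P y, Real.smoothTransition (1 * ht ν c y) • g y⟫_ℝ) =
      ∫ s in c..(c + 6), plInt ν s (fun y => ⟪P y, g y⟫_ℝ) := by
    rw [hfub _ ((hPc.inner hgpc).integrable_of_hasCompactSupport (inner_cs_right hgps))]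
    rw [← intervalIntegral.integral_eq_integral_of_support_subset (a := c) (b := c + 6)]
    · refine intervalIntegral.integral_congr fun s hs => ?_
      rw [uIcc_of_le (by linarith)] at hs
      refine pl_congr hν c s fun y hy => ?_
      rw [hgpos y (by rw [hy]; linarith [hs.1])]
    · intro s hs
      by_contra h7
      apply hs
      have e1 : plInt ν s (fun y => ⟪P y, Real.smoothTransition (1 * ht ν c y) • g y⟫_ℝ) =
          plInt ν s (fun _ => (0 : ℝ)) := by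
        refine pl_congr hν c s fun y hy => ?_
        rw [mem_Ioc, not_and_or, not_lt, not_le] at h7
        rcases h7 with h7 | h7
        · rw [hgneg y (by rw [hy]; linarith), inner_zero_right]
        · have h8 : g y = 0 := by
            by_contra h5
            have := (hF.gs y h5).1.1
            rw [hy, abs_of_pos (by linarith)] at this
            linarith
          rw [h8, smul_zero, inner_zero_right]
      show plInt ν s (fun y => ⟪P y, Real.smoothTransition (1 * ht ν c y) • g y⟫_ℝ) = 0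
      rw [e1]
      unfold plInt
      simp
  rw [h6]
  rw [hb1, hb2] at hftc
  linarith

/-- the lower half space -/
theorem lower_half (hPF : StmtPF) (hd : 1 ≤ d) (L : (Sp d →L[ℝ] V) →L[ℝ] E) {m : ℕ} {ν : Sp d}
    (hν : ‖ν‖ = 1) {c ρ N : ℝ} {Φ Φh X : Sp d → E} {g : Sp d → V}
    (hF : Fld L m ν c ρ N Φ Φh X g) {P : Sp d → V} (hP : ContDiff ℝ ∞ P) :
    (∫ y, ⟪P y, Real.smoothTransition (-1 * ht ν c y) • g y⟫_ℝ) =
      plInt ν c (fun y => ⟪L (rk1 ν (P y)), Φ y⟫_ℝ) -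
        ∫ s in (c - 6)..c, plInt ν s (fun y => ⟪fo L P y, Φh y⟫_ℝ) := by
  obtain ⟨-, h2⟩ := hPF d hd
  obtain ⟨hfub, hcont, -, -, -, -⟩ := h2 ν hν
  have hP1 : ContDiff ℝ 1 P := hP.of_le (by exact_mod_cast le_top)
  have hPc : Continuous P := hP.continuous
  have hΦh1 : ContDiff ℝ 1 Φh := hF.tf.smooth.of_le (by norm_cast)
  have hΦhs : HasCompactSupport Φh := cyl_cs hν hF.fs
  have hΦhc : Continuous Φh := hΦh1.continuous
  have hgc : Continuous g := hF.tg.smooth.continuous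
  have hgs : HasCompactSupport g := cyl_cs hν (fun y hy => (hF.gs y hy).1)
  have hfoc : Continuous (fo L P) :=
    L.continuous.comp (hP1.continuous_fderiv (by simp))
  have hthc : Continuous fun y => Real.smoothTransition (-1 * ht ν c y) :=
    (th_contDiff (-1)).continuous.comp (ht_continuous ν c)
  -- the derivative
  set pz : ℝ → ℝ := fun s => plInt ν s (fun y => ⟪L (rk1 ν (P y)), Φh y⟫_ℝ) with hpz
  have hdv : ∀ s, HasDerivAt pz (plInt ν s (fun y => ⟪fo L P y, Φh y⟫_ℝ) +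
      plInt ν s (fun y => ⟪P y, g y⟫_ℝ)) s := by
    intro s
    have h3 := half_deriv hPF hd L hν hP1 hΦh1 hΦhs s
    have e1 : (fun y => ⟪fo L P y, Φh y⟫_ℝ + ⟪P y, dV L Φh y⟫_ℝ) =
        fun y => ⟪fo L P y, Φh y⟫_ℝ + ⟪P y, g y⟫_ℝ := by
      funext y
      rw [hF.eq]
    rw [e1, pl_add (hfoc.inner hΦhc) (inner_cs_right (V := E) hΦhs) (hPc.inner hgc)
      (inner_cs_right hgs)] at h3
    exact h3
  have hc1 : Continuous fun s => plInt ν s (fun y => ⟪fo L P y, Φh y⟫_ℝ) :=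
    hcont _ (hfoc.inner hΦhc) (inner_cs_right (V := E) hΦhs)
  have hc2 : Continuous fun s => plInt ν s (fun y => ⟪P y, g y⟫_ℝ) :=
    hcont _ (hPc.inner hgc) (inner_cs_right hgs)
  have hftc := intervalIntegral.integral_eq_sub_of_hasDerivAt (a := c - 6) (b := c)
    (fun s _ => hdv s) ((hc1.add hc2).intervalIntegrable _ _)
  rw [intervalIntegral.integral_add (hc1.intervalIntegrable _ _) (hc2.intervalIntegrable _ _)] at hftc
  -- the boundary values
  have hb1 : pz (c - 6) = 0 := by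
    have e1 : pz (c - 6) = plInt ν (c - 6) (fun _ => (0 : ℝ)) := by
      refine pl_congr hν c (c - 6) fun y hy => ?_
      have h4 : Φh y = 0 := by
        by_contra h5
        have h6 := (hF.fs y h5).1
        have h7 : c - 6 - c = (-6 : ℝ) := by ring
        rw [hy, h7, abs_neg, abs_of_pos (by norm_num)] at h6
        norm_num at h6
      rw [h4, inner_zero_right]
    rw [e1]
    unfold plInt
    simp
  have hb2 : pz c = plInt ν c (fun y => ⟪L (rk1 ν (P y)), Φ y⟫_ℝ) := by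
    refine pl_congr hν c c fun y hy => ?_
    rw [hF.on y (by rw [hy, sub_self])]
  -- the lower part of g
  have hgpos : ∀ y, ht ν c y ≤ 0 → Real.smoothTransition (-1 * ht ν c y) • g y = g y := by
    intro y hy
    by_cases h5 : g y = 0
    · rw [h5, smul_zero]
    · have h6 := (hF.gs y h5).2
      rw [abs_of_nonpos hy] at h6
      rw [Real.smoothTransition.one_of_one_le (by linarith), one_smul]
  have hgneg : ∀ y, 0 ≤ ht ν c y → Real.smoothTransition (-1 * ht ν c y) • g y = 0 := by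
    intro y hy
    rw [Real.smoothTransition.zero_of_nonpos (by linarith), zero_smul]
  have hgpc : Continuous fun y => Real.smoothTransition (-1 * ht ν c y) • g y := hthc.smul hgc
  have hgps : HasCompactSupport fun y => Real.smoothTransition (-1 * ht ν c y) • g y := hgs.smul_left
  have h6 : (∫ y, ⟪P y, Real.smoothTransition (-1 * ht ν c y) • g y⟫_ℝ) =
      ∫ s in (c - 6)..c, plInt ν s (fun y => ⟪P y, g y⟫_ℝ) := by
    rw [hfub _ ((hPc.inner hgpc).integrable_of_hasCompactSupport (inner_cs_right hgps))]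
    rw [← intervalIntegral.integral_eq_integral_of_support_subset (a := c - 6) (b := c)]
    · refine intervalIntegral.integral_congr fun s hs => ?_
      rw [uIcc_of_le (by linarith)] at hs
      refine pl_congr hν c s fun y hy => ?_
      rw [hgpos y (by rw [hy]; linarith [hs.2])]
    · intro s hs
      by_contra h7
      apply hs
      have e1 : plInt ν s (fun y => ⟪P y, Real.smoothTransition (-1 * ht ν c y) • g y⟫_ℝ) =
          plInt ν s (fun _ => (0 : ℝ)) := by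
        refine pl_congr hν c s fun y hy => ?_
        rw [mem_Ioc, not_and_or, not_lt, not_le] at h7
        rcases h7 with h7 | h7
        · have h8 : g y = 0 := by
            by_contra h5
            have := (hF.gs y h5).1.1
            rw [hy, abs_of_nonpos (by linarith)] at this
            linarith
          rw [h8, smul_zero, inner_zero_right]
        · rw [hgneg y (by rw [hy]; linarith), inner_zero_right]
      show plInt ν s (fun y => ⟪P y, Real.smoothTransition (-1 * ht ν c y) • g y⟫_ℝ) = 0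
      rw [e1]
      unfold plInt
      simp
  rw [h6]
  rw [hb1, hb2] at hftc
  linarith

end Half

end SH
end TG


end

section

/-!
# Trace inequality: the plane functional, type A (WA6)   (helper74)

The infimum over the planes is at most the value at the plane of the sheet, moved (parallel) so
that it meets the ball R0 + 1.
-/

set_option autoImplicit false

open MeasureTheory Metric Set TrI
open scoped InnerProductSpace ContDiff

namespace TG

noncomputable section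

namespace WA6A

variable {d : ℕ}

/-- Lemma Z for functions of size N -/
lemma zp_app {m : Sp d → ℝ} {R D N : ℝ} (hZ : ZP R D m) {H : Sp d → ℝ} (hH : TC.CB 2 N H)
    (h0 : ∀ y, 0 ≤ H y) (hs : ∀ y, R ≤ ‖y‖ → H y = 0) (hN : 0 < N) :
    -(N * D) ≤ ∫ y, m y * H y := by
  have h1 := hZ (fun y => N⁻¹ * H y) (contDiff_const.mul hH.smooth)
    (fun y => mul_nonneg (by positivity) (h0 y)) (fun y => ?_) (fun y => ?_)
    (fun y hy => by rw [hs y hy, mul_zero])
  · have e1 : (∫ y, m y * (N⁻¹ * H y)) = N⁻¹ * ∫ y, m y * H y := by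
      rw [← integral_const_mul]
      congr 1; ext y; ring
    rw [e1] at h1
    have h2 := mul_le_mul_of_nonneg_left h1 hN.le
    rw [← mul_assoc N N⁻¹, mul_inv_cancel₀ hN.ne', one_mul] at h2
    linarith
  · have := hH.norm_le y
    rw [Real.norm_eq_abs] at this
    have h3 := le_abs_self (H y)
    rw [inv_mul_le_iff₀ hN]; linarith
  · have h3 := (hH.const_mul N⁻¹).bd 2 le_rfl y
    rw [abs_of_pos (by positivity), inv_mul_cancel₀ hN.ne'] at h3
    exact h3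

/-- moving the plane parallel to itself so that it meets the ball of radius R + 1 -/
def clp (R s : ℝ) : ℝ := max (-(R + 1)) (min s (R + 1))

lemma clp_abs {R : ℝ} (hR : 0 < R) (s : ℝ) : |clp R s| ≤ R + 1 := by
  unfold clp
  rw [abs_le]
  constructor
  · exact le_max_left _ _
  · exact max_le (by linarith) (min_le_right _ _)

lemma clp_dist {R : ℝ} (s a : ℝ) (ha : |a| ≤ R + 1) : (a - clp R s) ^ 2 ≤ (a - s) ^ 2 := by
  obtain ⟨h1, h2⟩ := abs_le.1 ha
  unfold clp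
  rcases le_total s (R + 1) with h3 | h3
  · rw [min_eq_left h3]
    rcases le_total s (-(R + 1)) with h4 | h4
    · rw [max_eq_left h4]
      nlinarith
    · rw [max_eq_right h4]
  · rw [min_eq_right h3, max_eq_right (by linarith)]
    nlinarith

lemma main_fn (d : ℕ) {R0 : ℝ} (hR : 0 < R0) (K : ℝ) : ∃ N : ℝ, 0 < N ∧
    ∀ (n : Sp d) (s : ℝ), ‖n‖ = 1 → |s| ≤ K →
      TC.CB 2 N (fun y => zR (R0 + 4) y * hgt n s y ^ 2 - zR R0 y * hgt n (clp R0 s) y ^ 2) ∧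
      (∀ y, 0 ≤ zR (R0 + 4) y * hgt n s y ^ 2 - zR R0 y * hgt n (clp R0 s) y ^ 2) ∧
      (∀ y, R0 + 5 ≤ ‖y‖ →
        zR (R0 + 4) y * hgt n s y ^ 2 - zR R0 y * hgt n (clp R0 s) y ^ 2 = 0) := by
  obtain ⟨N1, hN1, h1⟩ := TC.ht2z_cb d 2 (R := R0 + 4) (by linarith) K
  obtain ⟨N2, hN2, h2⟩ := TC.ht2z_cb d 2 hR (R0 + 1)
  refine ⟨N1 + N2, by positivity, fun n s hn hs => ⟨?_, ?_, ?_⟩⟩
  · exact (h1 n s hn.le hs).sub (h2 n (clp R0 s) hn.le (clp_abs hR s))
  · intro y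
    rw [sub_nonneg]
    by_cases hy : R0 + 1 ≤ ‖y‖
    · rw [TC.zR_zero hy, zero_mul]
      exact mul_nonneg (TC.zR_nonneg _ _) (sq_nonneg _)
    · push_neg at hy
      rw [TC.zR_one (R := R0 + 4) (x := y) (by linarith), one_mul]
      have h3 : |⟪n, y⟫_ℝ| ≤ R0 + 1 := by
        have := abs_real_inner_le_norm n y
        rw [hn, one_mul] at this
        linarith
      have h4 := clp_dist (R := R0) s ⟪n, y⟫_ℝ h3
      calc zR R0 y * hgt n (clp R0 s) y ^ 2 ≤ 1 * hgt n (clp R0 s) y ^ 2 :=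
            mul_le_mul_of_nonneg_right (TC.zR_le_one _ _) (sq_nonneg _)
        _ ≤ hgt n s y ^ 2 := by rw [one_mul]; exact h4
  · intro y hy
    rw [TC.zR_zero (R := R0 + 4) (x := y) (by linarith),
      TC.zR_zero (R := R0) (x := y) (by linarith)]
    ring

lemma int_blc {m : Sp d → ℝ} (hm : Continuous m) (n : Sp d) (s : ℝ) {R : ℝ} (hR : 0 < R) :
    Integrable (fun y => m y * (zR R y * hgt n s y ^ 2)) := by
  have hz : Continuous (zR R : Sp d → ℝ) :=
    (TC.zR_contDiff hR (n := 0) (by simp)).continuous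
  have hh : Continuous (hgt n s) := by unfold hgt; fun_prop
  refine Continuous.integrable_of_hasCompactSupport (hm.mul (hz.mul (hh.pow 2))) ?_
  exact ((TC.zR_cs R).mul_right (f' := fun y => hgt n s y ^ 2)).mul_left

/-- the plane functional is at most the off-sheet mass of every plane -/
lemma bq_le (d : ℕ) {R0 : ℝ} (hR : 0 < R0) (K : ℝ) : ∃ N : ℝ, 0 < N ∧
    ∀ (m : Sp d → ℝ) (D Rz : ℝ), Continuous m → 0 ≤ D → R0 + 5 ≤ Rz → ZP Rz D m →
    ∀ (n : Sp d) (s : ℝ), ‖n‖ = 1 → |s| ≤ K →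
      bq R0 m ≤ max 0 (blc n s m (R0 + 4)) + N * D := by
  obtain ⟨N, hN, h⟩ := main_fn d hR K
  refine ⟨N, hN, fun m D Rz hm hD hRz hZ n s hn hs => ?_⟩
  obtain ⟨h1, h2, h3⟩ := h n s hn hs
  have h4 := zp_app hZ h1 h2 (fun y hy => h3 y (by linarith)) hN
  have e1 : (∫ y, m y * (zR (R0 + 4) y * hgt n s y ^ 2 - zR R0 y * hgt n (clp R0 s) y ^ 2)) =
      blc n s m (R0 + 4) - blc n (clp R0 s) m R0 := by
    unfold blc
    rw [← integral_sub (int_blc hm n s (by linarith)) (int_blc hm n _ hR)]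
    congr 1; ext y; ring
  rw [e1] at h4
  have hND : 0 ≤ N * D := mul_nonneg hN.le hD
  have h5 : blc n (clp R0 s) m R0 ≤ max 0 (blc n s m (R0 + 4)) + N * D := by
    have := le_max_right 0 (blc n s m (R0 + 4))
    linarith
  have h6 : 0 ≤ max 0 (blc n s m (R0 + 4)) + N * D := by
    have := le_max_left 0 (blc n s m (R0 + 4))
    linarith
  unfold bq
  refine max_le h6 ?_
  by_cases hb : BddBelow {v : ℝ | ∃ (n : Sp d) (s : ℝ), ‖n‖ = 1 ∧ |s| ≤ R0 + 1 ∧
      v = blc n s m R0}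
  · exact (csInf_le hb ⟨n, clp R0 s, hn, clp_abs hR s, rfl⟩).trans h5
  · rw [Real.sInf_of_not_bddBelow hb]
    exact h6

end WA6A

open _root_.TG.WA6A in
theorem stmtWA6 (hP4 : StmtP4) : StmtWA6 := by
  intro d J JA hd M c0 C' c R0 X hX
  have hR0 : 0 < R0 := by
    have h1 := hX.R0_ge
    have h2 := hX.far.A_ge
    have h3 : (0 : ℝ) ≤ (d : ℝ) := Nat.cast_nonneg d
    linarith
  obtain ⟨C, i0, hC, hi0, h4⟩ := hP4 d J JA hd M c0 C' c R0 X hX
  refine ⟨C, hC, fun Kc hKc => ?_⟩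
  obtain ⟨κ, CK, Rz, hκ, hCK, h5⟩ := h4 Kc hKc
  obtain ⟨N, hN, h6⟩ := bq_le d hR0 (32 * R0 + 4)
  refine ⟨κ, CK + N, max Rz (R0 + 5), hκ, by positivity, ?_⟩
  intro E _ _ _ W hW Q hA
  have hW' : WOK JA C' R0 Rz X W := by
    refine { hW with zp := ?_, dir := ?_ }
    · intro Q H g1 g2 g3 g4 g5
      exact hW.zp Q H g1 g2 g3 g4 (fun y hy => g5 y ((le_max_left _ _).trans hy))
    · intro Q Q' hQ' ζ N' g1 g2
      exact hW.dir Q Q' hQ' ζ N' g1 (fun y hy => g2 y ((le_max_left _ _).trans hy))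
  obtain ⟨h7, -⟩ := h5 E W hW' Q hA
  have hm : Continuous (W.m Q) := by
    unfold Wld.m mQ rs
    exact (continuous_const.smul (hW.fc.comp (by fun_prop))).inner continuous_const
  have h8 := h6 (W.m Q) (W.D Q) (max Rz (R0 + 5)) hm (hW.D0 Q) (le_max_right _ _) (hW.zp Q)
    (W.nv Q) (W.sv Q) (hW.nu Q) hA.1
  have hw : 0 ≤ W.w Q * W.v Q := by
    unfold Wld.w Wld.v cw omC lev
    exact mul_nonneg (pow_nonneg (mul_nonneg hW.s0_pos.le (by positivity)) _) (Real.sqrt_nonneg _)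
  have hQ : Q ∈ W.ns R0 JA Q := by
    unfold Wld.ns nst
    simp only [Finset.mem_filter, Finset.mem_biUnion, Finset.mem_range, Finset.mem_product,
      Finset.mem_singleton, Fintype.mem_piFinset, Finset.mem_Icc]
    have hc : 0 ≤ ⌈3 * R0⌉ := Int.ceil_nonneg (by positivity)
    refine ⟨⟨0, by omega, by simp, fun j => ?_⟩, ?_⟩
    · constructor <;> simp <;> omega
    · rw [sub_self, norm_zero]
      unfold lev
      have := hW.s0_pos
      positivity
  have hD : W.D Q ≤ W.sD R0 JA Q := by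
    unfold Wld.sD
    exact Finset.single_le_sum (f := fun Q' => W.D Q') (fun Q' _ => hW.D0 Q') hQ
  have hE : 0 ≤ W.sE R0 JA Q := by
    unfold Wld.sE
    split_ifs
    · refine Finset.sum_nonneg fun Q' hQ' => ?_
      have h9 := (hA.2.2 Q' hQ').2.1
      exact add_nonneg (div_nonneg (sq_nonneg _) (hW.ab0 Q')) h9.dl0
    · exact le_rfl
  have hD0 : 0 ≤ W.sD R0 JA Q := (hW.D0 Q).trans hD
  calc W.w Q * W.v Q * bq R0 (W.m Q)
      ≤ W.w Q * W.v Q * (max 0 (blc (W.nv Q) (W.sv Q) (W.m Q) (R0 + 4)) + N * W.D Q) :=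
        mul_le_mul_of_nonneg_left h8 hw
    _ = W.w Q * W.v Q * max 0 (blc (W.nv Q) (W.sv Q) (W.m Q) (R0 + 4)) +
          N * (W.w Q * W.v Q) * W.D Q := by ring
    _ ≤ (C * W.sV R0 JA Q + CK * (W.w Q * W.v Q) * (W.sE R0 JA Q + W.sD R0 JA Q)) +
          N * (W.w Q * W.v Q) * (W.sE R0 JA Q + W.sD R0 JA Q) := by
        refine add_le_add h7 (mul_le_mul_of_nonneg_left (by linarith) (mul_nonneg hN.le hw))
    _ = _ := by ring

end

end TG


end
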