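import Mathlib
import Pool.Agent.TRM.C02
import Pool.Agent.TRM.C08
import Pool.Agent.TRM.C10
import Pool.Agent.TRM.C11
import Pool.Agent.TRM.C13

/-! Parts: TG.CM2, TG.CM3, TG.CM4, TG.CM5, TG.NF -/

section

/-!
# Trace inequality, module CM, part 2: estimates in one frame and for two consecutive frames
-/

set_option autoImplicit false
set_option linter.unusedSectionVars false

open MeasureTheory Metric Set TrI
open scoped InnerProductSpace ContDiff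

namespace TG

noncomputable section

namespace CM

variable {d : ℕ} {V E : Type} [NormedAddCommGroup V] [InnerProductSpace ℝ V]
  [FiniteDimensional ℝ V] [NormedAddCommGroup E] [InnerProductSpace ℝ E] [FiniteDimensional ℝ E]

variable {L : (Sp d →L[ℝ] V) →L[ℝ] E} {b : Sp d → ℝ}

lemma cD_nonneg (b : Sp d → ℝ) (ε R : ℝ) (L : (Sp d →L[ℝ] V) →L[ℝ] E) (N : ℕ) (u : Sp d → V)
    {e : E} (he : ‖e‖ = 1) : 0 ≤ cD b ε R L N u e := by
  unfold cD DD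
  rw [lev_self]
  have h1 : ∀ v : E, 0 ≤ ‖v‖ - ⟪v, e⟫_ℝ := fun v => by
    have := real_inner_le_norm v e
    rw [he, mul_one] at this
    linarith
  refine mul_nonneg (by simp) (add_nonneg (Finset.sum_nonneg fun l _ =>
    mul_nonneg (by positivity) (integral_nonneg fun y => h1 _)) ?_)
  exact mul_nonneg (by positivity) (integral_nonneg fun y => norm_nonneg _)

lemma bb_unit (ρ : ℝ) (L : (Sp d →L[ℝ] V) →L[ℝ] E) (N : ℕ) (u : Sp d → V) (e : E) (ν : Sp d)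
    (c : ℝ) : bb ρ ((1 / 2) ^ N) (fo L u) N 0 e ν c =
      cI L u e (fun y => zR ρ y * ht ν c y ^ 2) := by
  unfold bb cI
  rw [lev_self]
  simp

lemma cB_eq (b : Sp d → ℝ) (ε R0 R : ℝ) (L : (Sp d →L[ℝ] V) →L[ℝ] E) (N : ℕ) (u : Sp d → V)
    (e : E) (ν : Sp d) (c : ℝ) : cB b ε R0 R L N u e ν c =
      max 0 (cI L u e (fun y => zR R0 y * ht ν c y ^ 2)) + cD b ε R L N u e := by
  unfold cB bD cD
  rw [bb_unit]

lemma cB_ge (b : Sp d → ℝ) (ε R0 R : ℝ) (L : (Sp d →L[ℝ] V) →L[ℝ] E) (N : ℕ) (u : Sp d → V)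
    (e : E) (ν : Sp d) (c : ℝ) :
    cI L u e (fun y => zR R0 y * ht ν c y ^ 2) + cD b ε R L N u e ≤ cB b ε R0 R L N u e ν c := by
  rw [cB_eq]
  linarith [le_max_right 0 (cI L u e (fun y => zR R0 y * ht ν c y ^ 2))]

lemma cD_le_cB (b : Sp d → ℝ) (ε R0 R : ℝ) (L : (Sp d →L[ℝ] V) →L[ℝ] E) (N : ℕ) (u : Sp d → V)
    (e : E) (ν : Sp d) (c : ℝ) : cD b ε R L N u e ≤ cB b ε R0 R L N u e ν c := by
  rw [cB_eq]
  linarith [le_max_left 0 (cI L u e (fun y => zR R0 y * ht ν c y ^ 2))]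

lemma cB_nonneg (b : Sp d → ℝ) (ε R0 R : ℝ) (L : (Sp d →L[ℝ] V) →L[ℝ] E) (N : ℕ) (u : Sp d → V)
    {e : E} (he : ‖e‖ = 1) (ν : Sp d) (c : ℝ) : 0 ≤ cB b ε R0 R L N u e ν c :=
  (cD_nonneg b ε R L N u he).trans (cD_le_cB b ε R0 R L N u e ν c)

/-- comparison of test functions at the unit scale -/
lemma Zc (hZ : StmtZ) (hd : 1 ≤ d) {M c ε : ℝ} (hε : 0 < ε) (hε1 : ε ≤ 1)
    (hb : BaseKer 2 M c b) (L : (Sp d →L[ℝ] V) →L[ℝ] E) : ∃ C : ℝ, 0 < C ∧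
    ∀ (R : ℝ), 3 ≤ R → ∀ (N : ℕ) (u : Sp d → V), TF u → ∀ e : E, ‖e‖ = 1 →
    ∀ (ζ₁ ζ₂ : Sp d → ℝ) (K : ℝ), TFn 2 K ζ₁ → TFn 2 K ζ₂ → (∀ y, ζ₁ y ≤ ζ₂ y) →
      (∀ y, R - 2 ≤ ‖y‖ → ζ₁ y = 0) → (∀ y, R - 2 ≤ ‖y‖ → ζ₂ y = 0) →
      cI L u e ζ₁ ≤ cI L u e ζ₂ + C * K * cD b ε R L N u e := by
  obtain ⟨C, hC, h⟩ := exists_Zc hZ hd hε hε1 hb
  refine ⟨C, hC, fun R hR N u hu e he ζ₁ ζ₂ K h1 h2 h12 hs1 hs2 => ?_⟩
  exact h E (fo L u) (fo_cont hu) (fo_cs hu) R hR N e he 0 ζ₁ ζ₂ K h1 h2 h12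
    (fun y hy => hs1 y (by simpa using hy)) (fun y hy => hs2 y (by simpa using hy))

lemma abs_ht_le {ν : Sp d} (hν : ‖ν‖ = 1) (c : ℝ) (y : Sp d) : |ht ν c y| ≤ ‖y‖ + |c| := by
  unfold ht
  have h1 := abs_real_inner_le_norm ν y
  rw [hν, one_mul] at h1
  calc |⟪ν, y⟫_ℝ - c| ≤ |⟪ν, y⟫_ℝ| + |c| := abs_sub _ _
    _ ≤ _ := by linarith

lemma abs_ht_ge {ν : Sp d} (hν : ‖ν‖ = 1) (c : ℝ) (y : Sp d) : |c| - ‖y‖ ≤ |ht ν c y| := by
  unfold ht
  have h1 := abs_real_inner_le_norm ν y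
  rw [hν, one_mul] at h1
  have h2 : |c| ≤ |⟪ν, y⟫_ℝ - c| + |⟪ν, y⟫_ℝ| := by
    have := abs_sub_abs_le_abs_sub c ⟪ν, y⟫_ℝ
    rw [abs_sub_comm] at this
    linarith
  linarith

/-- (L2) a plane with small functional passes near the mass -/
lemma center (hZ : StmtZ) (hd : 1 ≤ d) {M c0 ε : ℝ} (hε : 0 < ε) (hε1 : ε ≤ 1)
    (hb : BaseKer 2 M c0 b) (L : (Sp d →L[ℝ] V) →L[ℝ] E) {R0 : ℝ} (hR0 : 100 ≤ R0) :
    ∃ κ : ℝ, 0 < κ ∧ ∀ (R : ℝ), 4 * R0 + 10 ≤ R → ∀ (N : ℕ) (u : Sp d → V), TF u →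
      ∀ e : E, ‖e‖ = 1 → ∀ (ν : Sp d) (c : ℝ), ‖ν‖ = 1 → |c| ≤ 4 * R0 → ∀ ρ : ℝ, 1 ≤ ρ →
      ρ + 1 ≤ R0 → ∀ a : ℝ, 0 < a → a ≤ cI L u e (zR ρ) → cB b ε R0 R L N u e ν c ≤ κ * a →
      |c| ≤ ρ + 2 := by
  obtain ⟨C, hC, hZc⟩ := Zc hZ hd hε hε1 hb L
  obtain ⟨C1, hC1, h1⟩ := exists_TFn_zR d 2
  obtain ⟨C2, hC2, h2⟩ := exists_TFn_ht2 d 2 R0 (4 * R0) (by linarith)
  set K := max C1 C2 with hK
  have hKp : 0 < K := lt_max_of_lt_left hC1
  refine ⟨1 / (2 * (1 + C * K)), by positivity, ?_⟩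
  intro R hR N u hu e he ν c hν hc ρ hρ hρR a ha hmass hsmall
  by_contra hcon
  push Not at hcon
  have h3 : cI L u e (zR ρ) ≤ cI L u e (fun y => zR R0 y * ht ν c y ^ 2) +
      C * K * cD b ε R L N u e := by
    refine hZc R (by linarith) N u hu e he _ _ K ((h1 ρ hρ).mono (le_max_left _ _))
      ((h2 ν c hν hc).mono (le_max_right _ _)) (fun y => ?_) (fun y hy => ?_) (fun y hy => ?_)
    · by_cases hy : ‖y‖ ≤ ρ + 1
      · rw [zR_eq_one (ρ := R0) (by linarith), one_mul]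
        have h4 := abs_ht_ge hν c y
        have h5 : 1 ≤ |ht ν c y| := by linarith
        have h6 : 1 ≤ ht ν c y ^ 2 := by
          rw [← sq_abs]; nlinarith only [hcon, hy, h4]
        exact (zR_le_one _ _).trans h6
      · push Not at hy
        rw [zR_eq_zero hy.le]
        exact mul_nonneg (zR_nonneg _ _) (sq_nonneg _)
    · exact zR_eq_zero (by linarith)
    · rw [zR_eq_zero (by linarith), zero_mul]
  have h4 := cB_ge b ε R0 R L N u e ν c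
  have h5 := cD_le_cB b ε R0 R L N u e ν c
  have h6 := cD_nonneg b ε R L N u he
  have h7 : a ≤ (1 + C * K) * cB b ε R0 R L N u e ν c := by
    have h8 : C * K * cD b ε R L N u e ≤ C * K * cB b ε R0 R L N u e ν c :=
      mul_le_mul_of_nonneg_left h5 (by positivity)
    linarith
  have h9 : (1 + C * K) * cB b ε R0 R L N u e ν c ≤ (1 + C * K) * (1 / (2 * (1 + C * K)) * a) :=
    mul_le_mul_of_nonneg_left hsmall (by positivity)
  have h10 : (1 + C * K) * (1 / (2 * (1 + C * K)) * a) = a / 2 := by field_simp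
  linarith

/-- (L3) comparison of the functionals of two planes -/
lemma planes (hZ : StmtZ) (hd : 1 ≤ d) {M c0 ε : ℝ} (hε : 0 < ε) (hε1 : ε ≤ 1)
    (hb : BaseKer 2 M c0 b) (L : (Sp d →L[ℝ] V) →L[ℝ] E) {R0 : ℝ} (hR0 : 100 ≤ R0) :
    ∃ C : ℝ, 0 < C ∧ ∀ (R : ℝ), 4 * R0 + 10 ≤ R → ∀ (N : ℕ) (u : Sp d → V), TF u →
      ∀ e : E, ‖e‖ = 1 → ∀ (ν ν' : Sp d) (c c' σ θ : ℝ), ‖ν‖ = 1 → ‖ν'‖ = 1 → |c| ≤ 4 * R0 →
      |c'| ≤ 4 * R0 → σ ^ 2 = 1 → 0 ≤ θ → θ ≤ 1 →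
      (∀ y, |ht ν c y - σ * ht ν' c' y| ≤ θ * (Real.sqrt d + ‖y‖)) →
      cB b ε R0 R L N u e ν c ≤ C * (cB b ε R0 R L N u e ν' c' +
        θ ^ 2 * max 0 (cI L u e (zR R0))) := by
  obtain ⟨C, hC, hZc⟩ := Zc hZ hd hε hε1 hb L
  obtain ⟨C1, hC1, h1⟩ := exists_TFn_zR d 2
  obtain ⟨C2, hC2, h2⟩ := exists_TFn_ht2 d 2 R0 (4 * R0) (by linarith)
  set A : ℝ := 2 * (Real.sqrt d + (R0 + 1)) ^ 2 with hA
  have hA0 : 0 ≤ A := by positivity
  set K := 2 * C2 + A * C1 with hK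
  have hKp : 0 < K := by positivity
  refine ⟨2 + A + C * K + 1, by positivity, ?_⟩
  intro R hR N u hu e he ν ν' c c' σ θ hν hν' hc hc' hσ hθ hθ1 hdist
  have hθ2 : θ ^ 2 ≤ 1 := by nlinarith only [hθ1, hθ]
  have h3 : cI L u e (fun y => zR R0 y * ht ν c y ^ 2) ≤
      cI L u e (fun y => 2 * (zR R0 y * ht ν' c' y ^ 2) + (A * θ ^ 2) * zR R0 y) +
      C * K * cD b ε R L N u e := by
    refine hZc R (by linarith) N u hu e he _ _ K ((h2 ν c hν hc).mono ?_) ?_ (fun y => ?_)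
      (fun y hy => ?_) (fun y hy => ?_)
    · rw [hK]; linarith only [hKp, mul_nonneg hA0 hC1.le]
    · have h4 := ((h2 ν' c' hν' hc').const_mul 2).add
        (((h1 R0 (by linarith)).const_mul (A * θ ^ 2)))
      refine h4.mono ?_
      rw [abs_of_nonneg (by norm_num : (0 : ℝ) ≤ 2), abs_of_nonneg (by positivity), hK]
      have : A * θ ^ 2 * C1 ≤ A * 1 * C1 := by gcongr
      linarith
    · by_cases hy : ‖y‖ ≤ R0 + 1
      · have h5 := hdist y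
        have h6 : |ht ν c y - σ * ht ν' c' y| ≤ θ * (Real.sqrt d + (R0 + 1)) :=
          h5.trans (mul_le_mul_of_nonneg_left (by linarith) hθ)
        have h7 : (ht ν c y - σ * ht ν' c' y) ^ 2 ≤ (θ * (Real.sqrt d + (R0 + 1))) ^ 2 := by
          rw [← sq_abs]
          exact pow_le_pow_left₀ (abs_nonneg _) h6 2
        have h8 : ht ν c y ^ 2 ≤ 2 * ht ν' c' y ^ 2 + A * θ ^ 2 := by
          have e1 : (σ * ht ν' c' y) ^ 2 = ht ν' c' y ^ 2 := by rw [mul_pow, hσ, one_mul]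
          have e2 : A * θ ^ 2 = 2 * (θ * (Real.sqrt d + (R0 + 1))) ^ 2 := by rw [hA]; ring
          linarith only [h7, e1, sq_nonneg (ht ν c y - 2 * (σ * ht ν' c' y))]
        have h9 := mul_le_mul_of_nonneg_left h8 (zR_nonneg R0 y)
        linarith
      · push Not at hy
        rw [zR_eq_zero hy.le]
        simp
    · rw [zR_eq_zero (by linarith), zero_mul]
    · rw [zR_eq_zero (by linarith)]
      simp
  have h4 : cI L u e (fun y => 2 * (zR R0 y * ht ν' c' y ^ 2) + (A * θ ^ 2) * zR R0 y) =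
      2 * cI L u e (fun y => zR R0 y * ht ν' c' y ^ 2) + (A * θ ^ 2) * cI L u e (zR R0) := by
    unfold cI
    have hc1 : Continuous (fun y => ⟪fo L u y, e⟫_ℝ) := (fo_cont hu).inner continuous_const
    have hcs : HasCompactSupport (fun y => ⟪fo L u y, e⟫_ℝ) :=
      (fo_cs hu).comp_left (g := fun v => ⟪v, e⟫_ℝ) (inner_zero_left _)
    have hi1 : Integrable (fun y => ⟪fo L u y, e⟫_ℝ * (zR R0 y * ht ν' c' y ^ 2)) :=
      (hc1.mul (h2 ν' c' hν' hc').smooth.continuous).integrable_of_hasCompactSupport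
        hcs.mul_right
    have hi2 : Integrable (fun y => ⟪fo L u y, e⟫_ℝ * zR R0 y) :=
      (hc1.mul (h1 R0 (by linarith)).smooth.continuous).integrable_of_hasCompactSupport
        hcs.mul_right
    rw [← integral_const_mul, ← integral_const_mul, ← integral_add (hi1.const_mul _)
      (hi2.const_mul _)]
    refine integral_congr_ae (Filter.Eventually.of_forall fun y => ?_)
    simp only
    ring
  rw [h4] at h3
  have h5 := cD_nonneg b ε R L N u he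
  have h6 := cD_le_cB b ε R0 R L N u e ν' c'
  have h7 := cB_ge b ε R0 R L N u e ν' c'
  have h8 : cI L u e (zR R0) ≤ max 0 (cI L u e (zR R0)) := le_max_right _ _
  have h9 : 0 ≤ max 0 (cI L u e (zR R0)) := le_max_left _ _
  have hB := cB_nonneg b ε R0 R L N u he ν' c'
  have h10 : max 0 (cI L u e (fun y => zR R0 y * ht ν c y ^ 2)) ≤
      2 * cB b ε R0 R L N u e ν' c' + A * θ ^ 2 * max 0 (cI L u e (zR R0)) +
        C * K * cD b ε R L N u e := by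
    refine max_le (by (clear * - hB hd hR0 hC hC2 hC1 h5; positivity)) ?_
    have h11 : A * θ ^ 2 * cI L u e (zR R0) ≤ A * θ ^ 2 * max 0 (cI L u e (zR R0)) :=
      mul_le_mul_of_nonneg_left h8 (by positivity)
    linarith
  rw [cB_eq b ε R0 R L N u e ν c]
  have h12 : C * K * cD b ε R L N u e ≤ C * K * cB b ε R0 R L N u e ν' c' :=
    mul_le_mul_of_nonneg_left h6 (by positivity)
  have h13 : 0 ≤ θ ^ 2 * max 0 (cI L u e (zR R0)) := by positivity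
  have h14 : 0 ≤ (2 + C * K + 1) * (θ ^ 2 * max 0 (cI L u e (zR R0))) := by positivity
  have h15 : 0 ≤ A * cB b ε R0 R L N u e ν' c' := by positivity
  linarith

/-- (T2)-(T5): two consecutive frames -/
structure Step (b : Sp d → ℝ) (ε R0 R C : ℝ) (L : (Sp d →L[ℝ] V) →L[ℝ] E) (N : ℕ)
    (u : Sp d → V) (ξ : Sp d) (e e' : E) : Prop where
  dir : ∀ (ζ : Sp d → ℝ) (K : ℝ), TFn 2 K ζ → (∀ y, R - 1 ≤ ‖y‖ → ζ y = 0) →
    |cI L u e ζ - cI L u e' ζ| ≤ C * K * (cD b ε R L N u e + cD b ε R L (N + 1) (zm ξ u) e')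
  bstep : ∀ (ν : Sp d) (c : ℝ), ‖ν‖ = 1 → |c| ≤ 4 * R0 →
    cB b ε R0 R L N u e ν c ≤ C * (cB b ε R0 R L (N + 1) (zm ξ u) e' ν ((c - ⟪ν, ξ⟫_ℝ) / 2) +
      cD b ε R L N u e)
  far : ∀ (ν : Sp d) (c : ℝ), ‖ν‖ = 1 → |c| ≤ 4 * R0 →
    max 0 (cI L u e (fun y => zR R0 y * ht ν c y ^ 2)) ≤
      C * (cA b ε R0 L (N + 1) (zm ξ u) + cD b ε R L N u e + cD b ε R L (N + 1) (zm ξ u) e')

lemma cI_sub (L : (Sp d →L[ℝ] V) →L[ℝ] E) {u : Sp d → V} (hu : TF u) (e e' : E)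
    {ζ : Sp d → ℝ} (hζ : Continuous ζ) :
    cI L u e ζ - cI L u e' ζ = ∫ y, ⟪fo L u y, e - e'⟫_ℝ * ζ y := by
  unfold cI
  have hi : ∀ e : E, Integrable (fun y => ⟪fo L u y, e⟫_ℝ * ζ y) := fun e => by
    have hc1 : Continuous (fun y => ⟪fo L u y, e⟫_ℝ) := (fo_cont hu).inner continuous_const
    have hcs : HasCompactSupport (fun y => ⟪fo L u y, e⟫_ℝ) :=
      (fo_cs hu).comp_left (g := fun v => ⟪v, e⟫_ℝ) (inner_zero_left _)
    exact (hc1.mul hζ).integrable_of_hasCompactSupport hcs.mul_right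
  rw [← integral_sub (hi e) (hi e')]
  refine integral_congr_ae (Filter.Eventually.of_forall fun y => ?_)
  beta_reduce
  rw [inner_sub_right]
  ring

lemma exists_step (hTW : StmtTW) (hSC : StmtSC) (hSD : StmtSD) (hd : 2 ≤ d) {M c0 ε : ℝ}
    (hε : 0 < ε) (hε1 : ε ≤ 1) (hb : BaseKer 2 M c0 b) (L : (Sp d →L[ℝ] V) →L[ℝ] E) {R0 : ℝ}
    (hR0 : 100 + 8 * d ≤ R0) : ∃ C : ℝ, 0 < C ∧ ∀ (R : ℝ), 4 * R0 + 10 ≤ R → ∀ (N : ℕ)
      (u : Sp d → V), TF u → ∀ (ξ : Sp d) (e e' : E), ‖ξ‖ ≤ Real.sqrt d → ‖e‖ = 1 → ‖e'‖ = 1 →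
      Step b ε R0 R C L N u ξ e e' := by
  obtain ⟨C, hC, h⟩ := hTW d (by omega) M c0 ε hε hε1 b hb R0 hR0
  refine ⟨C, hC, fun R hR N u hu ξ e e' hξ he he' => ?_⟩
  obtain ⟨-, h2, -, h4⟩ := h E R hR (fo L u) (fo_cont hu) (fo_cs hu) N ξ e e' hξ he he'
  refine ⟨fun ζ K hζ hs => ?_, fun ν c hν hc => ?_, fun ν c hν hc => ?_⟩
  · rw [cI_sub L hu e e' hζ.smooth.continuous]
    have := h2 ζ K hζ hs
    rw [zm_D hSC hd hb hε hε1 R N hu ξ e'] at this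
    exact this
  · have := (h4 ν c hν hc).1
    rw [zm_B hSC hSD hd hb hε hε1 R0 R N hu ξ e' ν c] at this
    exact this
  · have := (h4 ν c hν hc).2
    rw [zm_D hSC hd hb hε hε1 R N hu ξ e', zm_A hSC hd hb hε hε1 R0 N hu ξ, bb_unit] at this
    exact this

lemma exists_unit (hd : 1 ≤ d) : ∃ ν : Sp d, ‖ν‖ = 1 :=
  ⟨EuclideanSpace.single ⟨0, by omega⟩ 1, by simp⟩

/-- (L1) bound of the mass -/
lemma massle (hZ : StmtZ) (hd : 1 ≤ d) {M c0 ε : ℝ} (hε : 0 < ε) (hε1 : ε ≤ 1)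
    (hb : BaseKer 2 M c0 b) (L : (Sp d →L[ℝ] V) →L[ℝ] E) {R0 : ℝ} (hR0 : 100 ≤ R0) {CS : ℝ}
    (hCS : 0 < CS) :
    ∃ C : ℝ, 0 < C ∧ ∀ (R : ℝ), 4 * R0 + 10 ≤ R → ∀ (N : ℕ) (u : Sp d → V), TF u →
      ∀ (ξ : Sp d) (e e' : E), ‖e‖ = 1 → ‖e'‖ = 1 → Step b ε R0 R CS L N u ξ e e' →
      max 0 (cI L u e (zR R0)) ≤ C * (max 0 (cA b ε R0 L (N + 1) (zm ξ u)) + cD b ε R L N u e +
        cD b ε R L (N + 1) (zm ξ u) e') := by
  obtain ⟨C, hC, hZc⟩ := Zc hZ hd hε hε1 hb L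
  obtain ⟨C1, hC1, h1⟩ := exists_TFn_zR d 2
  obtain ⟨C2, hC2, h2⟩ := exists_TFn_ht2 d 2 R0 (4 * R0) (by linarith)
  obtain ⟨ν, hν⟩ := exists_unit (d := d) hd
  set K := max C1 C2 with hK
  have hKp : 0 < K := lt_max_of_lt_left hC1
  refine ⟨CS + C * K, by positivity, ?_⟩
  intro R hR N u hu ξ e e' he he' hS
  have hc : |R0 + 3| ≤ 4 * R0 := by rw [abs_of_nonneg (by linarith)]; linarith
  have h3 : cI L u e (zR R0) ≤ cI L u e (fun y => zR R0 y * ht ν (R0 + 3) y ^ 2) +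
      C * K * cD b ε R L N u e := by
    refine hZc R (by linarith) N u hu e he _ _ K ((h1 R0 (by linarith)).mono (le_max_left _ _))
      ((h2 ν (R0 + 3) hν hc).mono (le_max_right _ _)) (fun y => ?_) (fun y hy => ?_)
      (fun y hy => ?_)
    · by_cases hy : ‖y‖ ≤ R0 + 1
      · have h4 := abs_ht_ge hν (R0 + 3) y
        rw [abs_of_nonneg (by linarith : (0 : ℝ) ≤ R0 + 3)] at h4
        have h5 : 1 ≤ |ht ν (R0 + 3) y| := by linarith
        have h6 : 1 ≤ ht ν (R0 + 3) y ^ 2 := by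
          rw [← sq_abs]; nlinarith only [hy, h4]
        exact le_mul_of_one_le_right (zR_nonneg _ _) h6
      · push Not at hy
        rw [zR_eq_zero hy.le, zero_mul]
    · exact zR_eq_zero (by linarith)
    · rw [zR_eq_zero (by linarith), zero_mul]
  have h4 := hS.far ν (R0 + 3) hν hc
  have h5 := cD_nonneg b ε R L N u he
  have h6 := cD_nonneg b ε R L (N + 1) (zm ξ u) he'
  have h7 : cA b ε R0 L (N + 1) (zm ξ u) ≤ max 0 (cA b ε R0 L (N + 1) (zm ξ u)) :=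
    le_max_right _ _
  have h8 : 0 ≤ max 0 (cA b ε R0 L (N + 1) (zm ξ u)) := le_max_left _ _
  refine max_le (by (clear * - hCS hC hC1 h5 h6; positivity)) ?_
  have h9 := le_max_right 0 (cI L u e (fun y => zR R0 y * ht ν (R0 + 3) y ^ 2))
  have h10 : CS * (cA b ε R0 L (N + 1) (zm ξ u) + cD b ε R L N u e +
      cD b ε R L (N + 1) (zm ξ u) e') ≤ CS * (max 0 (cA b ε R0 L (N + 1) (zm ξ u)) +
      cD b ε R L N u e + cD b ε R L (N + 1) (zm ξ u) e') :=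
    mul_le_mul_of_nonneg_left (by linarith) hCS.le
  have h11 : 0 ≤ C * K * (max 0 (cA b ε R0 L (N + 1) (zm ξ u)) +
      cD b ε R L (N + 1) (zm ξ u) e') := by positivity
  linarith

/-- (L5) transfer of the mass near p to the next frame -/
lemma transfer (hZ : StmtZ) (hSC : StmtSC) (hd : 2 ≤ d) {M c0 ε : ℝ} (hε : 0 < ε) (hε1 : ε ≤ 1)
    (hb : BaseKer 2 M c0 b) (L : (Sp d →L[ℝ] V) →L[ℝ] E) {R0 : ℝ} (hR0 : 100 + 8 * d ≤ R0)
    {CS : ℝ} (hCS : 0 < CS) :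
    ∃ C : ℝ, 0 < C ∧ ∀ (R : ℝ), 4 * R0 + 10 ≤ R → ∀ (N : ℕ) (u : Sp d → V), TF u →
      ∀ (ξ : Sp d) (e e' : E), ‖ξ‖ ≤ Real.sqrt d → ‖e‖ = 1 → ‖e'‖ = 1 →
      Step b ε R0 R CS L N u ξ e e' →
      ∀ (p : Sp d) (ρ ρ' : ℝ), 1 ≤ ρ → 1 ≤ ρ' → ρ' ≤ R0 → ‖p‖ + ρ + 1 ≤ 4 * R0 →
      (ρ + 1 + ‖p‖ + Real.sqrt d) / 2 ≤ ρ' →
      cI L u e (fun y => zR ρ (y - p)) ≤ C * (max 0 (cI L (zm ξ u) e' (zR ρ')) +
        cD b ε R L N u e + cD b ε R L (N + 1) (zm ξ u) e') := by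
  obtain ⟨C, hC, hZc⟩ := Zc hZ (by omega : 1 ≤ d) hε hε1 hb L
  obtain ⟨C1, hC1, h1⟩ := exists_TFn_zR d 2
  refine ⟨CS * C1 + 2 ^ (d - 1) + 2 ^ (d - 1) * (C * (4 * C1)), by positivity, ?_⟩
  intro R hR N u hu ξ e e' hξ he he' hS p ρ ρ' hρ hρ' hρR hp hρρ
  have hu' : TF (zm ξ u) := TF_zm hSC hd hu ξ
  have ht1 : TFn 2 C1 (fun y : Sp d => zR ρ (y - p)) := by
    have h2 := (h1 ρ hρ).comp_aff (-p) 1 (T := 1) le_rfl (by simp)
    simp only [one_pow, one_mul, one_smul] at h2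
    have h3 : (fun y : Sp d => zR ρ (-p + y)) = fun y => zR ρ (y - p) := by
      funext y; congr 1; abel
    rwa [h3] at h2
  have h2 := hS.dir _ C1 ht1 (fun y hy => by
    refine zR_eq_zero ?_
    have h3 : ‖y‖ ≤ ‖y - p‖ + ‖p‖ := by
      calc ‖y‖ = ‖(y - p) + p‖ := by congr 1; abel
        _ ≤ _ := norm_add_le _ _
    linarith)
  have h3 := (abs_le.mp h2).2
  have h4 : cI L u e' (fun y => zR ρ (y - p)) =
      2 ^ (d - 1) * cI L (zm ξ u) e' (fun z => zR ρ (ξ + (2 : ℝ) • z - p)) :=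
    cI_zm hSC hd hu ξ e' _
  have h5 : cI L (zm ξ u) e' (fun z => zR ρ (ξ + (2 : ℝ) • z - p)) ≤
      cI L (zm ξ u) e' (zR ρ') + C * (4 * C1) * cD b ε R L (N + 1) (zm ξ u) e' := by
    have ht2 : TFn 2 (4 * C1) (fun z : Sp d => zR ρ (ξ + (2 : ℝ) • z - p)) := by
      have h6 := ht1.comp_aff ξ 2 (T := 2) (by norm_num) (by norm_num)
      norm_num at h6
      exact h6
    have hz : ∀ z : Sp d, zR ρ (ξ + (2 : ℝ) • z - p) ≠ 0 → ‖z‖ ≤ ρ' := by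
      intro z hz
      by_contra hcon
      push Not at hcon
      refine hz (zR_eq_zero ?_)
      have h7 : 2 * ‖z‖ ≤ ‖ξ + (2 : ℝ) • z - p‖ + ‖ξ‖ + ‖p‖ := by
        have h8 : (2 : ℝ) • z = (ξ + (2 : ℝ) • z - p) + (-ξ) + p := by abel
        have h9 : ‖(2 : ℝ) • z‖ = 2 * ‖z‖ := by rw [norm_smul]; norm_num
        rw [← h9]
        nth_rewrite 1 [h8]
        refine (norm_add₃_le).trans (le_of_eq ?_)
        rw [norm_neg]
      linarith
    refine hZc R (by linarith) (N + 1) (zm ξ u) hu' e' he' _ _ (4 * C1) ht2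
      ((h1 ρ' hρ').mono (by linarith)) (fun z => ?_) (fun z hz' => ?_) (fun z hz' => ?_)
    · by_cases h : zR ρ (ξ + (2 : ℝ) • z - p) = 0
      · rw [h]; exact zR_nonneg _ _
      · rw [zR_eq_one (hz z h)]; exact zR_le_one _ _
    · by_contra h
      have := hz z h
      linarith
    · exact zR_eq_zero (by linarith)
  have h6 := cD_nonneg b ε R L N u he
  have h7 := cD_nonneg b ε R L (N + 1) (zm ξ u) he'
  have h8 : cI L (zm ξ u) e' (zR ρ') ≤ max 0 (cI L (zm ξ u) e' (zR ρ')) := le_max_right _ _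
  have h9 : 0 ≤ max 0 (cI L (zm ξ u) e' (zR ρ')) := le_max_left _ _
  have h2d : (0 : ℝ) < 2 ^ (d - 1) := by positivity
  have h10 : (2 : ℝ) ^ (d - 1) * cI L (zm ξ u) e' (fun z => zR ρ (ξ + (2 : ℝ) • z - p)) ≤
      2 ^ (d - 1) * (max 0 (cI L (zm ξ u) e' (zR ρ')) +
        C * (4 * C1) * cD b ε R L (N + 1) (zm ξ u) e') :=
    mul_le_mul_of_nonneg_left (by linarith) h2d.le
  have h11 : 0 ≤ (CS * C1 + 2 ^ (d - 1) * (C * (4 * C1))) *
    max 0 (cI L (zm ξ u) e' (zR ρ')) := by positivity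
  have h12 : 0 ≤ (2 ^ (d - 1) + 2 ^ (d - 1) * (C * (4 * C1))) * cD b ε R L N u e := by positivity
  have h13 : 0 ≤ (2 : ℝ) ^ (d - 1) * cD b ε R L (N + 1) (zm ξ u) e' := by positivity
  linarith

/-- (L4) the flatness hypothesis -/
lemma flat (hZ : StmtZ) (hd : 1 ≤ d) {M c0 ε : ℝ} (hε : 0 < ε) (hε1 : ε ≤ 1)
    (hb : BaseKer 2 M c0 b) (L : (Sp d →L[ℝ] V) →L[ℝ] E) {R0 : ℝ} (hR0 : 100 ≤ R0) {κ : ℝ}
    (hκ : 0 < κ) :
    ∃ κ' : ℝ, 0 < κ' ∧ ∀ (R : ℝ), 4 * R0 + 10 ≤ R → ∀ (N : ℕ) (u : Sp d → V), TF u →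
      ∀ e : E, ‖e‖ = 1 → ∀ (ν : Sp d) (c : ℝ), ∀ ρ : ℝ, 1 ≤ ρ → ρ + 1 ≤ R0 / 3 →
      ∀ a : ℝ, 0 < a → a ≤ cI L u e (zR ρ) → cB b ε R0 R L N u e ν c ≤ κ' * a →
      cA b ε R0 L N u * cB b ε R0 R L N u e ν c ≤ κ' * a ^ 2 →
      Flat b ε R0 R κ (fo L u) N e ν c ∧ a / 2 ≤ ∫ y, ⟪fo L u y, e⟫_ℝ * zR (R0 / 3) y := by
  obtain ⟨C, hC, hZc⟩ := Zc hZ hd hε hε1 hb L
  obtain ⟨C1, hC1, h1⟩ := exists_TFn_zR d 2
  refine ⟨min (κ / 4) (1 / (2 * (C * C1))), by positivity, ?_⟩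
  intro R hR N u hu e he ν c ρ hρ hρR a ha hmass hsmall hsmall2
  have hk1 : min (κ / 4) (1 / (2 * (C * C1))) ≤ κ / 4 := min_le_left _ _
  have hk2 : min (κ / 4) (1 / (2 * (C * C1))) ≤ 1 / (2 * (C * C1)) := min_le_right _ _
  have h3 : cI L u e (zR ρ) ≤ cI L u e (zR (R0 / 3)) + C * C1 * cD b ε R L N u e := by
    refine hZc R (by linarith) N u hu e he _ _ C1 (h1 ρ hρ) (h1 (R0 / 3) (by linarith))
      (fun y => ?_) (fun y hy => zR_eq_zero (by linarith)) (fun y hy => zR_eq_zero (by linarith))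
    by_cases hy : ‖y‖ ≤ ρ + 1
    · rw [zR_eq_one (ρ := R0 / 3) (by linarith)]
      exact zR_le_one _ _
    · push Not at hy
      rw [zR_eq_zero hy.le]
      exact zR_nonneg _ _
  have h4 := cD_le_cB b ε R0 R L N u e ν c
  have h5 : C * C1 * cD b ε R L N u e ≤ a / 2 := by
    have h6 : cD b ε R L N u e ≤ 1 / (2 * (C * C1)) * a :=
      (h4.trans hsmall).trans (mul_le_mul_of_nonneg_right hk2 ha.le)
    have h7 := mul_le_mul_of_nonneg_left h6 (by positivity : 0 ≤ C * C1)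
    have h8 : C * C1 * (1 / (2 * (C * C1)) * a) = a / 2 := by field_simp
    linarith only [h7, h8]
  have h6 : a / 2 ≤ cI L u e (zR (R0 / 3)) := by linarith
  have h6' : a / 2 ≤ ∫ y, ⟪fo L u y, e⟫_ℝ * zR (R0 / 3) y := h6
  refine ⟨⟨by linarith, ?_, ?_⟩, h6'⟩
  · change cB b ε R0 R L N u e ν c ≤ _
    refine hsmall.trans ?_
    have h7 : min (κ / 4) (1 / (2 * (C * C1))) * a ≤ κ / 4 * a :=
      mul_le_mul_of_nonneg_right hk1 ha.le
    have h8 := mul_le_mul_of_nonneg_left h6' hκ.le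
    have h9 : 0 < κ * a := by positivity
    linarith
  · change cA b ε R0 L N u * cB b ε R0 R L N u e ν c ≤ _
    refine hsmall2.trans ?_
    have h7 : min (κ / 4) (1 / (2 * (C * C1))) * a ^ 2 ≤ κ / 4 * a ^ 2 :=
      mul_le_mul_of_nonneg_right hk1 (by positivity)
    have h8 : (a / 2) ^ 2 ≤ (∫ y, ⟪fo L u y, e⟫_ℝ * zR (R0 / 3) y) ^ 2 :=
      pow_le_pow_left₀ (by positivity) h6' 2
    have h9 := mul_le_mul_of_nonneg_left h8 hκ.le
    linarith only [h7, h9]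

lemma cA_nonneg (b : Sp d → ℝ) (ε R0 : ℝ) (L : (Sp d →L[ℝ] V) →L[ℝ] E) (N : ℕ) (u : Sp d → V) :
    0 ≤ cA b ε R0 L N u := by
  unfold cA ma
  rw [lev_self]
  exact mul_nonneg (by simp) (integral_nonneg fun y => norm_nonneg _)

lemma tang_orth {ν : Sp d} (hν : ‖ν‖ = 1) (y : Sp d) : ⟪ν, tang ν y⟫_ℝ = 0 := by
  unfold tang
  rw [inner_sub_right, inner_smul_right, real_inner_self_eq_norm_sq, hν]
  ring

lemma tang_norm_le {ν : Sp d} (hν : ‖ν‖ = 1) (y : Sp d) : ‖tang ν y‖ ≤ ‖y‖ := by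
  have h1 := tang_orth hν y
  have h2 : y = tang ν y + ⟪ν, y⟫_ℝ • ν := by unfold tang; abel
  have h3 : ‖y‖ ^ 2 = ‖tang ν y‖ ^ 2 + ⟪ν, y⟫_ℝ ^ 2 := by
    have h1' : ⟪tang ν y, ν⟫_ℝ = 0 := by rw [real_inner_comm]; exact h1
    nth_rewrite 1 [h2]
    rw [norm_add_sq_real, inner_smul_right, h1', norm_smul, hν]
    rw [mul_one, Real.norm_eq_abs, sq_abs]
    ring
  nlinarith only [h3, norm_nonneg y]

lemma norm_le_tang {ν : Sp d} (hν : ‖ν‖ = 1) (y : Sp d) : ‖y‖ ≤ ‖tang ν y‖ + |⟪ν, y⟫_ℝ| := by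
  have h2 : y = tang ν y + ⟪ν, y⟫_ℝ • ν := by unfold tang; abel
  nth_rewrite 1 [h2]
  refine (norm_add_le _ _).trans (le_of_eq ?_)
  rw [norm_smul, hν, mul_one, Real.norm_eq_abs]

lemma tang_cont (ν : Sp d) : Continuous (fun y : Sp d => tang ν y) := by
  unfold tang
  fun_prop

lemma JJ_cont (m : ℕ) (hd : 1 ≤ d) {u : Sp d → V} (hu : TF u) (ν q : Sp d) {r : ℝ} (hr : 0 < r) :
    Continuous (fun y => JJ m ν q r u y) := by
  unfold JJ
  have h1 := fun c => (stmtTQ d V m u hd hu.smooth c r hr).1.continuous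
  exact (h1 _).sub (h1 _)

/-- (L6) a point of the plane where the jump is large -/
lemma base (hSHB : StmtSHB) (hZ : StmtZ) (hd : 2 ≤ d) {M c0 ε : ℝ} (hε : 0 < ε) (hε1 : ε ≤ 1)
    (hb : BaseKer 2 M c0 b) {L : (Sp d →L[ℝ] V) →L[ℝ] E} (hL : CEll L) {n0 : ℕ}
    {T : (ContinuousMultilinearMap ℝ (fun _ : Fin n0 => Sp d) E) →L[ℝ]
      (ContinuousMultilinearMap ℝ (fun _ : Fin (n0 + 1) => Sp d) V)} (hn0 : 1 ≤ n0)
    (hNS : NSProp L n0 T) {R0 : ℝ} (hR0 : 200 ≤ R0) :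
    ∃ c2 κ' : ℝ, 0 < c2 ∧ 0 < κ' ∧ ∀ (R : ℝ), 4 * R0 + 10 ≤ R → ∀ (N : ℕ) (u : Sp d → V), TF u →
      ∀ e : E, ‖e‖ = 1 → ∀ (ν : Sp d) (c : ℝ), ‖ν‖ = 1 → |c| ≤ R0 / 7 + 2 →
      ∀ a : ℝ, 0 < a → a ≤ cI L u e (zR (R0 / 7)) → cB b ε R0 R L N u e ν c ≤ κ' * a →
      cA b ε R0 L N u * cB b ε R0 R L N u e ν c ≤ κ' * a ^ 2 →
      ∃ p : Sp d, ⟪ν, p⟫_ℝ = c ∧ ‖p‖ ≤ R0 / 3 ∧ c2 * a ≤ ‖JJ n0 ν (c • ν) 1 u p‖ := by
  obtain ⟨J, h1⟩ := hSHB d V E L n0 T hd hn0 hL hNS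
  obtain ⟨C, κ, hC, hκ, h2⟩ := h1 M c0 ε hε hε1 b hb R0 (by linarith)
  obtain ⟨CZ, hCZ, hZc⟩ := Zc hZ (by omega : 1 ≤ d) hε hε1 hb L
  obtain ⟨κf, hκf, hflat⟩ := flat hZ (by omega : 1 ≤ d) hε hε1 hb L (R0 := R0) (by linarith) hκ
  obtain ⟨Cy, hCy, hcyl⟩ := exists_TFn_cyl d J
  obtain ⟨Cy2, hCy2, hcyl2⟩ := exists_TFn_cyl d 2
  obtain ⟨C1, hC1, hz1⟩ := exists_TFn_zR d 2
  obtain ⟨C2, hC2, hh2⟩ := exists_TFn_ht2 d 2 R0 (4 * R0) (by linarith)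
  obtain ⟨C3, hC3, hcu⟩ := exists_TFn_cu1 d 2
  obtain ⟨CP, hCP, hpl⟩ := (stmtPF d (by omega)).1 (R0 / 7 + 2)
  set K : ℝ := C1 + (2 ^ 2 * C3 * Cy2 + C2) with hK
  have hK0 : 0 < K := by positivity
  set Λ : ℝ := C * Cy + 1 + CZ * K with hΛ
  have hΛ0 : 0 < Λ := by positivity
  set κ1 : ℝ := min 1 (1 / (8 * Λ)) with hκ1
  have hκ10 : 0 < κ1 := by positivity
  refine ⟨1 / (4 * (CP * C)), min κf (κ1 ^ 2), by positivity, by positivity, ?_⟩
  intro R hR N u hu e he ν c hν hc a ha hmass hsm1 hsm2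
  by_contra hcon
  push Not at hcon
  have hB0 := cB_nonneg b ε R0 R L N u he ν c
  have hD0 := cD_nonneg b ε R L N u he
  have hA0 := cA_nonneg b ε R0 L N u
  have hDB := cD_le_cB b ε R0 R L N u e ν c
  have hsm1' : cB b ε R0 R L N u e ν c ≤ κ1 ^ 2 * a :=
    hsm1.trans (mul_le_mul_of_nonneg_right (min_le_right _ _) ha.le)
  have hsm2' : cA b ε R0 L N u * cB b ε R0 R L N u e ν c ≤ κ1 ^ 2 * a ^ 2 :=
    hsm2.trans (mul_le_mul_of_nonneg_right (min_le_right _ _) (by positivity))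
  have hF := (hflat R hR N u hu e he ν c (R0 / 7) (by linarith only [hR0]) (by linarith) a ha hmass
    (hsm1.trans (mul_le_mul_of_nonneg_right (min_le_left _ _) ha.le))
    (hsm2.trans (mul_le_mul_of_nonneg_right (min_le_left _ _) (by positivity)))).1
  obtain ⟨l0, l1, hl0, -, -, h3, -⟩ := h2 R (by linarith) N u hu e he ν c hν (by linarith) hF _ rfl
  set ψ : Sp d → ℝ := fun y => zR (R0 / 7 + 1) (tang ν y) with hψ
  have hψT := (hcyl (R0 / 7 + 1) (by linarith) ν hν).1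
  have hψC := (hcyl (R0 / 7 + 1) (by linarith) ν hν).2
  have hψT2 := (hcyl2 (R0 / 7 + 1) (by linarith) ν hν).1
  have hψC' : Cyl ν (R0 / 2) ψ := ⟨hψC.const, fun y hy => (hψC.supp y hy).trans (by linarith)⟩
  have h4 := h3 ψ (fun _ => 0) Cy hψT
    ⟨contDiff_const, fun j _ x => by
      rcases Nat.eq_zero_or_pos j with hj | hj
      · subst hj; simp [hCy.le]
      · rw [iteratedFDeriv_const_of_ne (by omega)]; simp [hCy.le]⟩
    hψC' ⟨fun _ => rfl, fun y hy => absurd rfl hy⟩ (fun y => by simp)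
  have hdv : ∀ y : Sp d, dv (fun _ : Sp d => (0 : Sp d)) y = 0 := by
    intro y
    unfold dv
    simp
  simp only [hdv, mul_zero, sub_zero, inner_zero_right, add_zero] at h4
  -- the plane integral
  set F : Sp d → ℝ := fun y => l0 (JJ n0 ν (c • ν) 1 u (c • ν + tang ν y)) * ψ y with hFd
  have hFc : Continuous F := by
    refine Continuous.mul (l0.continuous.comp ?_) hψT.smooth.continuous
    exact (JJ_cont n0 (by omega) hu ν (c • ν) one_pos).comp (continuous_const.add (tang_cont ν))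
  have hFb : ∀ y, |F y| ≤ C * (1 / (4 * (CP * C)) * a) := by
    intro y
    simp only [hFd]
    rw [abs_mul]
    by_cases hy : ψ y = 0
    · rw [hy, abs_zero, mul_zero]; positivity
    · have h5 := hψC.supp y hy
      have h6 : ‖c • ν + tang ν y‖ ≤ R0 / 3 := by
        have h7 : ‖c • ν‖ = |c| := by rw [norm_smul, hν, mul_one, Real.norm_eq_abs]
        have h8 := norm_add_le (c • ν) (tang ν y)
        linarith
      have h7 : ⟪ν, c • ν + tang ν y⟫_ℝ = c := by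
        rw [inner_add_right, tang_orth hν, inner_smul_right, real_inner_self_eq_norm_sq, hν]
        ring
      have h8 := hcon _ h7 h6
      have h9 : |l0 (JJ n0 ν (c • ν) 1 u (c • ν + tang ν y))| ≤
          C * (1 / (4 * (CP * C)) * a) := by
        have h10 := l0.le_opNorm (JJ n0 ν (c • ν) 1 u (c • ν + tang ν y))
        rw [Real.norm_eq_abs] at h10
        exact h10.trans (mul_le_mul hl0 h8.le (norm_nonneg _) hC.le)
      have h10 : |ψ y| ≤ 1 := by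
        rw [abs_of_nonneg (zR_nonneg _ _)]
        exact zR_le_one _ _
      have h11 : (0 : ℝ) ≤ C * (1 / (4 * (CP * C)) * a) := by positivity
      calc _ ≤ C * (1 / (4 * (CP * C)) * a) * 1 := mul_le_mul h9 h10 (abs_nonneg _) h11
        _ = _ := mul_one _
  have hFs : ∀ y, F y ≠ 0 → ‖tang ν y‖ ≤ R0 / 7 + 2 := by
    intro y hy
    have h5 : ψ y ≠ 0 := fun h => hy (by simp only [hFd]; rw [h, mul_zero])
    have := hψC.supp y h5
    linarith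
  have h5 := hpl ν hν F _ hFc hFb hFs c
  have h6 : plInt ν c F = plInt ν c (fun y => l0 (JJ n0 ν (c • ν) 1 u y) * ψ y) := by
    unfold plInt
    refine integral_congr_ae (Filter.Eventually.of_forall fun y => ?_)
    simp only [hFd]
    have hy : ⟪ν, (y : Sp d)⟫_ℝ = 0 := by
      have := y.2
      rw [Submodule.mem_orthogonal_singleton_iff_inner_right] at this
      exact this
    have h7 : c • ν + tang ν (c • ν + (y : Sp d)) = c • ν + (y : Sp d) := by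
      unfold tang
      rw [inner_add_right, hy, inner_smul_right, real_inner_self_eq_norm_sq, hν]
      module
    rw [h7]
  rw [h6] at h5
  have h7 : CP * (C * (1 / (4 * (CP * C)) * a)) = a / 4 := by field_simp
  rw [h7] at h5
  -- comparison
  have hcuT := hcu 4 (by norm_num) ν c hν
  have hsupp : ∀ y, R - 2 ≤ ‖y‖ → cu1 4 (ht ν c y) * ψ y = 0 := by
    intro y hy
    by_contra h
    have ha1 : cu1 4 (ht ν c y) ≠ 0 := fun h0 => h (by rw [h0, zero_mul])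
    have ha2 : ψ y ≠ 0 := fun h0 => h (by rw [h0, mul_zero])
    have ha3 : |ht ν c y| < 5 := by
      by_contra h0
      push Not at h0
      exact ha1 (cu1_eq_zero (by linarith))
    have ha4 := hψC.supp y ha2
    have ha5 := norm_le_tang hν y
    have ha6 : |⟪ν, y⟫_ℝ| ≤ |ht ν c y| + |c| := by
      have : ⟪ν, y⟫_ℝ = ht ν c y + c := by unfold ht; ring
      rw [this]
      exact abs_add_le _ _
    linarith
  have h8 : cI L u e (zR (R0 / 7)) ≤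
      cI L u e (fun y => cu1 4 (ht ν c y) * ψ y + zR R0 y * ht ν c y ^ 2) +
      CZ * K * cD b ε R L N u e := by
    refine hZc R (by linarith) N u hu e he _ _ K ((hz1 (R0 / 7) (by linarith)).mono ?_)
      (((hcuT.mul hψT2).add (hh2 ν c hν (by linarith))).mono ?_) (fun y => ?_)
      (fun y hy => zR_eq_zero (by linarith)) (fun y hy => ?_)
    · rw [hK]
      have : 0 < 2 ^ 2 * C3 * Cy2 + C2 := by positivity
      linarith
    · rw [hK]; linarith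
    · by_cases hy : ‖y‖ ≤ R0 / 7 + 1
      · have e1 : ψ y = 1 := zR_eq_one ((tang_norm_le hν y).trans hy)
        rw [e1, mul_one, zR_eq_one (ρ := R0) (by linarith), one_mul]
        refine (zR_le_one _ _).trans ?_
        by_cases hy2 : |ht ν c y| ≤ 4
        · rw [cu1_eq_one hy2]
          linarith [sq_nonneg (ht ν c y)]
        · push Not at hy2
          have e2 : 1 ≤ ht ν c y ^ 2 := by
            rw [← sq_abs]; nlinarith only [hy2]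
          linarith [cu1_nonneg 4 (ht ν c y)]
      · push Not at hy
        rw [zR_eq_zero hy.le]
        exact add_nonneg (mul_nonneg (cu1_nonneg _ _) (zR_nonneg _ _))
          (mul_nonneg (zR_nonneg _ _) (sq_nonneg _))
    · rw [hsupp y hy, zR_eq_zero (by linarith)]
      simp
  have hc1 : Continuous (fun y => ⟪fo L u y, e⟫_ℝ) := (fo_cont hu).inner continuous_const
  have hcs : HasCompactSupport (fun y => ⟪fo L u y, e⟫_ℝ) :=
    (fo_cs hu).comp_left (g := fun v => ⟪v, e⟫_ℝ) (inner_zero_left _)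
  have h9 : cI L u e (fun y => cu1 4 (ht ν c y) * ψ y + zR R0 y * ht ν c y ^ 2) =
      (∫ y, ⟪fo L u y, e⟫_ℝ * (cu1 4 (ht ν c y) * ψ y)) +
        cI L u e (fun y => zR R0 y * ht ν c y ^ 2) := by
    unfold cI
    have hi1 : Integrable (fun y => ⟪fo L u y, e⟫_ℝ * (cu1 4 (ht ν c y) * ψ y)) :=
      (hc1.mul (hcuT.smooth.continuous.mul hψT2.smooth.continuous)).integrable_of_hasCompactSupport
        hcs.mul_right
    have hi2 : Integrable (fun y => ⟪fo L u y, e⟫_ℝ * (zR R0 y * ht ν c y ^ 2)) :=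
      (hc1.mul (hh2 ν c hν (by linarith)).smooth.continuous).integrable_of_hasCompactSupport
        hcs.mul_right
    rw [← integral_add hi1 hi2]
    refine integral_congr_ae (Filter.Eventually.of_forall fun y => ?_)
    beta_reduce
    ring
  have h10 := cB_ge b ε R0 R L N u e ν c
  -- bound of eta
  have h11 : Real.sqrt (cA b ε R0 L N u * cD b ε R L N u e) ≤ κ1 * a := by
    rw [← Real.sqrt_sq (by positivity : 0 ≤ κ1 * a)]
    refine Real.sqrt_le_sqrt ?_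
    have := mul_le_mul_of_nonneg_left hDB hA0
    rw [mul_pow]
    linarith
  have h12 : κ1 ≤ 1 := min_le_left _ _
  have h13 : κ1 ≤ 1 / (8 * Λ) := min_le_right _ _
  have h14 : κ1 ^ 2 ≤ κ1 := by nlinarith only [hκ10, h12]
  have h15 := (abs_le.mp h4).2
  have h16 := (abs_le.mp h5).2
  have h17 : bD b ε R0 R ((1 / 2) ^ N) (fo L u) N 0 e ν c +
      Real.sqrt (ma b ε R0 ((1 / 2) ^ N) (fo L u) N 0 * DD b ε R ((1 / 2) ^ N) (fo L u) N 0 e) ≤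
      2 * κ1 * a := by
    change cB b ε R0 R L N u e ν c + Real.sqrt (cA b ε R0 L N u * cD b ε R L N u e) ≤ _
    have : κ1 ^ 2 * a ≤ κ1 * a := mul_le_mul_of_nonneg_right h14 ha.le
    linarith only [hsm1', h11, this]
  have h18 := mul_le_mul_of_nonneg_left h17 (by positivity : 0 ≤ C * Cy)
  have h19 : cD b ε R L N u e ≤ κ1 * a := by
    have : κ1 ^ 2 * a ≤ κ1 * a := mul_le_mul_of_nonneg_right h14 ha.le
    linarith only [hDB, hsm1', this]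
  have h20 : CZ * K * cD b ε R L N u e ≤ CZ * K * (κ1 * a) :=
    mul_le_mul_of_nonneg_left h19 (by positivity)
  have h21 : cB b ε R0 R L N u e ν c ≤ κ1 * a := by
    have : κ1 ^ 2 * a ≤ κ1 * a := mul_le_mul_of_nonneg_right h14 ha.le
    linarith only [hsm1', this]
  have h22 : 2 * Λ * (κ1 * a) ≤ a / 4 := by
    have h23 : κ1 * a ≤ 1 / (8 * Λ) * a := mul_le_mul_of_nonneg_right h13 ha.le
    have h24 := mul_le_mul_of_nonneg_left h23 (by positivity : 0 ≤ 2 * Λ)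
    have h25 : 2 * Λ * (1 / (8 * Λ) * a) = a / 4 := by field_simp; norm_num
    linarith only [h24, h25]
  have h23 : a ≤ a / 4 + 2 * Λ * (κ1 * a) := by
    have e1 : 2 * Λ * (κ1 * a) = C * Cy * (2 * κ1 * a) + 2 * (κ1 * a) + 2 * (CZ * K * (κ1 * a)) := by
      rw [hΛ]; ring
    have e2 : 0 ≤ κ1 * a := by positivity
    have e3 : 0 ≤ CZ * K * (κ1 * a) := by positivity
    linarith only [hmass, hD0, h8, h9, h10, h15, h16, h18, h19, h20, h21, e3]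
  linarith only [ha, h22, h23]

lemma cA_eq (b : Sp d → ℝ) (ε R0 : ℝ) (L : (Sp d →L[ℝ] V) →L[ℝ] E) (N : ℕ) (u : Sp d → V) :
    cA b ε R0 L N u = ∫ y in ball (0 : Sp d) R0, ‖fl b ε ((1 / 2) ^ N) (fo L u) (N - 1) y‖ := by
  unfold cA ma
  rw [lev_self]
  simp

/-- mass against a test function which is bounded below near the ball -/
lemma mass_test (hMA : StmtMA) (hd : 1 ≤ d) {M c0 ε : ℝ} (hε : 0 < ε) (hε1 : ε ≤ 1)
    (hb : BaseKer 2 M c0 b) (L : (Sp d →L[ℝ] V) →L[ℝ] E) {R0 : ℝ} (hR0 : 100 ≤ R0) {K : ℝ}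
    (hK : 1 ≤ K) :
    ∃ C : ℝ, 0 < C ∧ ∀ (R : ℝ), 4 * R0 + 10 ≤ R → ∀ (N : ℕ) (u : Sp d → V), TF u →
      ∀ e : E, ‖e‖ = 1 → ∀ H : Sp d → ℝ, TFn 2 K H → (∀ y, 0 ≤ H y) →
      (∀ y, R - 2 ≤ ‖y‖ → H y = 0) → (∀ y, ‖y‖ ≤ R0 + 2 → 1 ≤ H y) →
      cA b ε R0 L N u ≤ cI L u e H + C * cD b ε R L N u e := by
  obtain ⟨C, hC, h⟩ := hMA d hd M c0 ε hε hε1 b hb
  refine ⟨C * K, by positivity, ?_⟩
  intro R hR N u hu e he H hH hH0 hHs hH1
  have hK0 : 0 < K := by linarith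
  have hH' : TFn 2 1 (fun y => 1 / K * H y) := by
    have := hH.const_mul (1 / K)
    rw [abs_of_nonneg (by positivity)] at this
    have e1 : 1 / K * K = 1 := by field_simp
    rwa [e1] at this
  have h1 := (h E (fo L u) (fo_cont hu) (fo_cs hu) R (by linarith) N e he 0 (ball 0 R0)
    measurableSet_ball).2 (fun y => 1 / K * H y) (1 / K) (by positivity)
    (by rw [div_le_one hK0]; exact hK) hH'.smooth (fun y => mul_nonneg (by positivity) (hH0 y))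
    (fun y => by
      have h2 := hH'.bd 0 (by norm_num) y
      rw [norm_iteratedFDeriv_zero, Real.norm_eq_abs] at h2
      exact (le_abs_self _).trans h2)
    (fun y => hH'.bd 2 le_rfl y)
    (fun y hy => by rw [hHs y (by simpa using hy), mul_zero])
    (fun y z hy hz => by
      have h3 : ‖z‖ ≤ R0 + 2 := by
        have h4 : ‖y‖ < R0 := by simpa using hy
        have h5 : ‖z‖ ≤ ‖z - y‖ + ‖y‖ := by
          calc ‖z‖ = ‖(z - y) + y‖ := by congr 1; abel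
            _ ≤ _ := norm_add_le _ _
        linarith
      have := hH1 z h3
      have h6 := mul_le_mul_of_nonneg_left this (by positivity : 0 ≤ 1 / K)
      linarith)
  rw [cA_eq]
  refine h1.trans (le_of_eq ?_)
  have h7 : (∫ y, ⟪fo L u y, e⟫_ℝ * (1 / K * H y)) = 1 / K * cI L u e H := by
    unfold cI
    rw [← integral_const_mul]
    refine integral_congr_ae (Filter.Eventually.of_forall fun y => ?_)
    beta_reduce
    ring
  rw [h7]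
  unfold cD
  field_simp

/-- (L7) first part -/
lemma mass0 (hMA : StmtMA) (hd : 1 ≤ d) {M c0 ε : ℝ} (hε : 0 < ε) (hε1 : ε ≤ 1)
    (hb : BaseKer 2 M c0 b) (L : (Sp d →L[ℝ] V) →L[ℝ] E) {R0 : ℝ} (hR0 : 100 ≤ R0) :
    ∃ C : ℝ, 0 < C ∧ ∀ (R : ℝ), 4 * R0 + 10 ≤ R → ∀ (N : ℕ) (u : Sp d → V), TF u →
      ∀ e : E, ‖e‖ = 1 →
      cA b ε R0 L N u ≤ cI L u e (zR (R0 + 2)) + C * cD b ε R L N u e := by
  obtain ⟨C1, hC1, h1⟩ := exists_TFn_zR d 2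
  obtain ⟨C, hC, h⟩ := mass_test hMA hd hε hε1 hb L hR0 (K := max 1 C1) (le_max_left _ _)
  refine ⟨C, hC, fun R hR N u hu e he => ?_⟩
  exact h R hR N u hu e he _ ((h1 (R0 + 2) (by linarith)).mono (le_max_right _ _))
    (fun y => zR_nonneg _ _) (fun y hy => zR_eq_zero (by linarith))
    (fun y hy => (zR_eq_one hy).ge)

/-- (L8) a plane far from the ball has a large functional -/
lemma far0 (hMA : StmtMA) (hZ : StmtZ) (hSC : StmtSC) (hd : 2 ≤ d) {M c0 ε : ℝ} (hε : 0 < ε)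
    (hε1 : ε ≤ 1) (hb : BaseKer 2 M c0 b) (L : (Sp d →L[ℝ] V) →L[ℝ] E) {R0 : ℝ}
    (hR0 : 100 + 8 * d ≤ R0) {CS : ℝ} (hCS : 0 < CS) :
    ∃ C : ℝ, 0 < C ∧ ∀ (R : ℝ), 4 * R0 + 10 ≤ R → ∀ (N : ℕ) (u : Sp d → V), TF u →
      ∀ (ξ : Sp d) (e e' : E), ‖ξ‖ ≤ Real.sqrt d → ‖e‖ = 1 → ‖e'‖ = 1 →
      Step b ε R0 R CS L N u ξ e e' → ∀ (ν : Sp d) (c : ℝ), ‖ν‖ = 1 → R0 + 3 < |c| →
      |c| ≤ 4 * R0 →
      cA b ε R0 L N u ≤ C * (cB b ε R0 R L (N + 1) (zm ξ u) e' ν ((c - ⟪ν, ξ⟫_ℝ) / 2) +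
        cD b ε R L N u e) := by
  have hd1 : 1 ≤ d := by omega
  have hdR : (2 : ℝ) ≤ d := by exact_mod_cast hd
  obtain ⟨CZ, hCZ, hZc⟩ := Zc hZ hd1 hε hε1 hb L
  obtain ⟨C1, hC1, h1⟩ := exists_TFn_ht2 d 2 (R0 + 2) (4 * R0) (by linarith)
  obtain ⟨C2, hC2, h2⟩ := exists_TFn_ht2 d 2 R0 (4 * R0) (by linarith)
  obtain ⟨C, hC, h⟩ := mass_test hMA hd1 hε hε1 hb L (by linarith : 100 ≤ R0) (K := max 1 C1)
    (le_max_left _ _)
  set K : ℝ := 4 * C1 + 4 * C2 with hK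
  have hK0 : 0 < K := by positivity
  set D2 : ℝ := 2 ^ (d - 1) with hD2
  have hD20 : 0 < D2 := by positivity
  refine ⟨C + CS * C1 + D2 * (4 + CZ * K), by positivity, ?_⟩
  intro R hR N u hu ξ e e' hξ he he' hS ν c hν hc1 hc2
  have hu' : TF (zm ξ u) := TF_zm hSC hd hu ξ
  have hsq : Real.sqrt d ≤ d := by
    rw [Real.sqrt_le_left (by linarith)]
    nlinarith
  have h3 := h R hR N u hu e he (fun y => zR (R0 + 2) y * ht ν c y ^ 2)
    ((h1 ν c hν hc2).mono (le_max_right _ _))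
    (fun y => mul_nonneg (zR_nonneg _ _) (sq_nonneg _))
    (fun y hy => by rw [zR_eq_zero (by linarith), zero_mul])
    (fun y hy => by
      rw [zR_eq_one hy, one_mul]
      have h4 := abs_ht_ge hν c y
      have h5 : 1 ≤ |ht ν c y| := by linarith
      rw [← sq_abs]; nlinarith only [hc1, hy, h4])
  have h4 := (abs_le.mp (hS.dir _ C1 (h1 ν c hν hc2)
    (fun y hy => by rw [zR_eq_zero (by linarith), zero_mul]))).2
  have h5 := cI_zm (L := L) hSC hd hu ξ e' (fun y => zR (R0 + 2) y * ht ν c y ^ 2)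
  set c' : ℝ := (c - ⟪ν, ξ⟫_ℝ) / 2 with hc'
  have hc'b : |c'| ≤ 4 * R0 := by
    rw [hc', abs_div, abs_of_pos (by norm_num : (0 : ℝ) < 2)]
    have h6 := abs_real_inner_le_norm ν ξ
    rw [hν, one_mul] at h6
    have h7 := abs_sub c ⟪ν, ξ⟫_ℝ
    linarith
  have h6 : cI L (zm ξ u) e' (fun z => zR (R0 + 2) (ξ + (2 : ℝ) • z) *
      ht ν c (ξ + (2 : ℝ) • z) ^ 2) ≤
      cI L (zm ξ u) e' (fun z => 4 * (zR R0 z * ht ν c' z ^ 2)) +
        CZ * K * cD b ε R L (N + 1) (zm ξ u) e' := by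
    have hz : ∀ z : Sp d, zR (R0 + 2) (ξ + (2 : ℝ) • z) ≠ 0 → ‖z‖ ≤ R0 := by
      intro z hz
      by_contra hcon
      push Not at hcon
      refine hz (zR_eq_zero ?_)
      have h7 : 2 * ‖z‖ ≤ ‖ξ + (2 : ℝ) • z‖ + ‖ξ‖ := by
        have h8 : (2 : ℝ) • z = (ξ + (2 : ℝ) • z) + (-ξ) := by abel
        have h9 : ‖(2 : ℝ) • z‖ = 2 * ‖z‖ := by rw [norm_smul]; norm_num
        rw [← h9]
        nth_rewrite 1 [h8]
        refine (norm_add_le _ _).trans (le_of_eq ?_)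
        rw [norm_neg]
      linarith
    have ht1 := (h1 ν c hν hc2).comp_aff ξ 2 (T := 2) (by norm_num) (by norm_num)
    have ht2 := (h2 ν c' hν hc'b).const_mul 4
    rw [abs_of_nonneg (by norm_num : (0 : ℝ) ≤ 4)] at ht2
    refine hZc R (by linarith) (N + 1) (zm ξ u) hu' e' he' _ _ K (ht1.mono ?_) (ht2.mono ?_)
      (fun z => ?_) (fun z hz' => ?_) (fun z hz' => ?_)
    · rw [hK]; linarith
    · rw [hK]; linarith
    · by_cases hzz : zR (R0 + 2) (ξ + (2 : ℝ) • z) = 0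
      · rw [hzz, zero_mul]
        exact mul_nonneg (by norm_num) (mul_nonneg (zR_nonneg _ _) (sq_nonneg _))
      · rw [zR_eq_one (hz z hzz), one_mul, hc', ht_zm]
        have := mul_le_mul_of_nonneg_right (zR_le_one (R0 + 2) (ξ + (2 : ℝ) • z))
          (sq_nonneg (ht ν c (ξ + (2 : ℝ) • z)))
        linarith
    · by_cases hzz : zR (R0 + 2) (ξ + (2 : ℝ) • z) = 0
      · rw [hzz, zero_mul]
      · have := hz z hzz
        linarith
    · rw [zR_eq_zero (by linarith), zero_mul, mul_zero]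
  have h7 : cI L (zm ξ u) e' (fun z => 4 * (zR R0 z * ht ν c' z ^ 2)) =
      4 * cI L (zm ξ u) e' (fun z => zR R0 z * ht ν c' z ^ 2) := by
    unfold cI
    rw [← integral_const_mul]
    refine integral_congr_ae (Filter.Eventually.of_forall fun y => ?_)
    beta_reduce
    ring
  have h8 := cB_ge b ε R0 R L (N + 1) (zm ξ u) e' ν c'
  have h9 := cD_le_cB b ε R0 R L (N + 1) (zm ξ u) e' ν c'
  have h10 := cD_nonneg b ε R L (N + 1) (zm ξ u) he'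
  have h11 := cD_nonneg b ε R L N u he
  have hB := cB_nonneg b ε R0 R L (N + 1) (zm ξ u) he' ν c'
  rw [h7] at h6
  have h12 : cI L u e' (fun y => zR (R0 + 2) y * ht ν c y ^ 2) ≤
      D2 * ((4 + CZ * K) * cB b ε R0 R L (N + 1) (zm ξ u) e' ν c') := by
    rw [h5]
    refine mul_le_mul_of_nonneg_left ?_ hD20.le
    have h13 : CZ * K * cD b ε R L (N + 1) (zm ξ u) e' ≤
        CZ * K * cB b ε R0 R L (N + 1) (zm ξ u) e' ν c' :=
      mul_le_mul_of_nonneg_left h9 (by positivity)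
    linarith
  have h13 : CS * C1 * cD b ε R L (N + 1) (zm ξ u) e' ≤
      CS * C1 * cB b ε R0 R L (N + 1) (zm ξ u) e' ν c' :=
    mul_le_mul_of_nonneg_left h9 (by positivity)
  have h14 : 0 ≤ C * cB b ε R0 R L (N + 1) (zm ξ u) e' ν c' := by positivity
  have h15 : 0 ≤ D2 * (4 + CZ * K) * cD b ε R L N u e := by positivity
  linarith

end CM

end

end TG


end

section

/-!
# Trace inequality, module CM, part 3: the induction over the levels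
-/

set_option autoImplicit false
set_option linter.unusedSectionVars false

open MeasureTheory Metric Set TrI
open scoped InnerProductSpace ContDiff

namespace TG

noncomputable section

namespace CM

/-! ### powers of two and small constants -/

lemma exists_small (l : List (ℝ × ℝ)) (h : ∀ p ∈ l, 0 < p.2) :
    ∃ κ : ℝ, 0 < κ ∧ ∀ p ∈ l, p.1 * κ ≤ p.2 := by
  induction l with
  | nil => exact ⟨1, one_pos, by simp⟩
  | cons p l ih =>
    obtain ⟨κ, hκ, hl⟩ := ih fun q hq => h q (List.mem_cons_of_mem _ hq)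
    have hp : 0 < p.2 := h p List.mem_cons_self
    have hq : 0 < p.2 / (|p.1| + 1) := by positivity
    refine ⟨min κ (p.2 / (|p.1| + 1)), lt_min hκ hq, fun q hq => ?_⟩
    have hm : 0 < min κ (p.2 / (|p.1| + 1)) := lt_min hκ (by positivity)
    rcases List.mem_cons.mp hq with h1 | h1
    · subst h1
      have h2 : q.1 * min κ (q.2 / (|q.1| + 1)) ≤ |q.1| * (q.2 / (|q.1| + 1)) :=
        mul_le_mul (le_abs_self _) (min_le_right _ _) hm.le (abs_nonneg _)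
      refine h2.trans ?_
      rw [mul_div_assoc', div_le_iff₀ (by positivity)]
      linarith only [hp]
    · by_cases hq1 : 0 ≤ q.1
      · exact (mul_le_mul_of_nonneg_left (min_le_left _ _) hq1).trans (hl q h1)
      · push Not at hq1
        have h2 := h q hq
        nlinarith

/-- 2 ^ (s r) -/
def P (s : ℝ) (r : ℕ) : ℝ := (2 : ℝ) ^ (s * (r : ℝ))

lemma P_pos (s : ℝ) (r : ℕ) : 0 < P s r := Real.rpow_pos_of_pos two_pos _

lemma P_zero (s : ℝ) : P s 0 = 1 := by unfold P; simp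

lemma one_le_P {s : ℝ} (hs : 0 ≤ s) (r : ℕ) : 1 ≤ P s r :=
  Real.one_le_rpow (by norm_num) (by positivity)

lemma P_mul (s t : ℝ) (r : ℕ) : P s r * P t r = P (s + t) r := by
  unfold P
  rw [← Real.rpow_add two_pos]
  congr 1
  ring

lemma P_le {s t : ℝ} (h : s ≤ t) (r : ℕ) : P s r ≤ P t r := by
  unfold P
  exact Real.rpow_le_rpow_of_exponent_le (by norm_num)
    (mul_le_mul_of_nonneg_right h (Nat.cast_nonneg _))

lemma P_succ (s : ℝ) (r : ℕ) : P s (r + 1) = 2 ^ s * P s r := by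
  unfold P
  rw [← Real.rpow_add two_pos]
  congr 1
  push_cast
  ring

lemma P_succ_le {s : ℝ} (hs : s ≤ 1) (r : ℕ) : P s (r + 1) ≤ 2 * P s r := by
  rw [P_succ]
  refine mul_le_mul_of_nonneg_right ?_ (P_pos _ _).le
  calc (2 : ℝ) ^ s ≤ 2 ^ (1 : ℝ) := Real.rpow_le_rpow_of_exponent_le (by norm_num) hs
    _ = 2 := Real.rpow_one 2

lemma P_mono {s : ℝ} (hs : 0 ≤ s) {r r' : ℕ} (h : r ≤ r') : P s r ≤ P s r' := by
  unfold P
  refine Real.rpow_le_rpow_of_exponent_le (by norm_num) (mul_le_mul_of_nonneg_left ?_ hs)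
  exact_mod_cast h

lemma two_rpow_eighth : (13 / 12 : ℝ) ≤ 2 ^ (1 / 8 : ℝ) := by
  have h1 : ((13 / 12 : ℝ) ^ (8 : ℕ)) ≤ 2 := by norm_num
  have h2 : (13 / 12 : ℝ) = ((13 / 12 : ℝ) ^ (8 : ℕ)) ^ (1 / 8 : ℝ) := by
    rw [← Real.rpow_natCast, ← Real.rpow_mul (by norm_num)]
    norm_num
  rw [h2]
  exact Real.rpow_le_rpow (by positivity) h1 (by norm_num)

lemma P_eighth_succ (r : ℕ) : 13 * P (1 / 8) r ≤ 12 * P (1 / 8) (r + 1) := by
  rw [P_succ]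
  have := mul_le_mul_of_nonneg_right two_rpow_eighth (P_pos (1 / 8) r).le
  linarith

lemma P_quarter_succ {s : ℝ} (hs : 1 / 8 ≤ s) (r : ℕ) : 13 * P s r ≤ 12 * P s (r + 1) := by
  rw [P_succ]
  have h1 : (2 : ℝ) ^ (1 / 8 : ℝ) ≤ 2 ^ s := Real.rpow_le_rpow_of_exponent_le (by norm_num) hs
  have := mul_le_mul_of_nonneg_right (two_rpow_eighth.trans h1) (P_pos s r).le
  linarith

/-! ### the context: all estimates in one frame -/

variable {d : ℕ} {V E : Type} [NormedAddCommGroup V] [InnerProductSpace ℝ V]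
  [FiniteDimensional ℝ V] [NormedAddCommGroup E] [InnerProductSpace ℝ E] [FiniteDimensional ℝ E]

/-- the estimates of part 2 with constants κ (small), c2 (small) and C (large) -/
structure Ctx (b : Sp d → ℝ) (ε R0 R : ℝ) (L : (Sp d →L[ℝ] V) →L[ℝ] E) (n0 : ℕ)
    (κ c2 CS Cp Cm Ct CM CL CJ C0 Cf : ℝ) : Prop where
  center : ∀ (N : ℕ) (u : Sp d → V), TF u → ∀ e : E, ‖e‖ = 1 → ∀ (ν : Sp d) (c : ℝ), ‖ν‖ = 1 →
    |c| ≤ 4 * R0 → ∀ ρ : ℝ, 1 ≤ ρ → ρ + 1 ≤ R0 → ∀ a : ℝ, 0 < a → a ≤ cI L u e (zR ρ) →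
    cB b ε R0 R L N u e ν c ≤ κ * a → |c| ≤ ρ + 2
  planes : ∀ (N : ℕ) (u : Sp d → V), TF u → ∀ e : E, ‖e‖ = 1 →
    ∀ (ν ν' : Sp d) (c c' σ θ : ℝ), ‖ν‖ = 1 → ‖ν'‖ = 1 → |c| ≤ 4 * R0 →
    |c'| ≤ 4 * R0 → σ ^ 2 = 1 → 0 ≤ θ → θ ≤ 1 →
    (∀ y, |ht ν c y - σ * ht ν' c' y| ≤ θ * (Real.sqrt d + ‖y‖)) →
    cB b ε R0 R L N u e ν c ≤ Cp * (cB b ε R0 R L N u e ν' c' +
      θ ^ 2 * max 0 (cI L u e (zR R0)))
  massle : ∀ (N : ℕ) (u : Sp d → V), TF u → ∀ (ξ : Sp d) (e e' : E), ‖e‖ = 1 → ‖e'‖ = 1 →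
    Step b ε R0 R CS L N u ξ e e' →
    max 0 (cI L u e (zR R0)) ≤ Cm * (max 0 (cA b ε R0 L (N + 1) (zm ξ u)) + cD b ε R L N u e +
      cD b ε R L (N + 1) (zm ξ u) e')
  transfer : ∀ (N : ℕ) (u : Sp d → V), TF u →
    ∀ (ξ : Sp d) (e e' : E), ‖ξ‖ ≤ Real.sqrt d → ‖e‖ = 1 → ‖e'‖ = 1 →
    Step b ε R0 R CS L N u ξ e e' →
    ∀ (p : Sp d) (ρ ρ' : ℝ), 1 ≤ ρ → 1 ≤ ρ' → ρ' ≤ R0 → ‖p‖ + ρ + 1 ≤ 4 * R0 →
    (ρ + 1 + ‖p‖ + Real.sqrt d) / 2 ≤ ρ' →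
    cI L u e (fun y => zR ρ (y - p)) ≤ Ct * (max 0 (cI L (zm ξ u) e' (zR ρ')) +
      cD b ε R L N u e + cD b ε R L (N + 1) (zm ξ u) e')
  sm : ∀ (N : ℕ) (u : Sp d → V), TF u → ∀ e : E, ‖e‖ = 1 →
    ∀ (ν : Sp d) (c : ℝ), ‖ν‖ = 1 → |c| ≤ R0 / 3 → ∀ a1 : ℝ, 0 < a1 →
    a1 ≤ cI L u e (zR (R0 / 4)) → cB b ε R0 R L N u e ν c ≤ κ * a1 →
    cA b ε R0 L N u * cB b ε R0 R L N u e ν c ≤ κ * a1 ^ 2 →
    ∀ (x : Sp d) (a : ℝ), ⟪ν, x⟫_ℝ = c → ‖x‖ ≤ R0 / 3 → 0 < a →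
    a ≤ ‖JJ n0 ν (c • ν) 1 u x‖ → cB b ε R0 R L N u e ν c ≤ κ * a →
    cA b ε R0 L N u * cB b ε R0 R L N u e ν c ≤ κ * a ^ 2 →
    a ≤ CM * cI L u e (fun y => zR 1 (y - x))
  pl : ∀ (N : ℕ) (u : Sp d → V), TF u → ∀ e : E, ‖e‖ = 1 →
    ∀ (ν ν' : Sp d) (c c' : ℝ), ‖ν‖ = 1 → ‖ν'‖ = 1 → |c| ≤ R0 / 3 → |c'| ≤ 3 * R0 →
    ∀ a1 : ℝ, 0 < a1 →
    a1 ≤ cI L u e (zR (R0 / 4)) → cB b ε R0 R L N u e ν c ≤ κ * a1 →
    cA b ε R0 L N u * cB b ε R0 R L N u e ν c ≤ κ * a1 ^ 2 →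
    ∃ σ : ℝ, σ ^ 2 = 1 ∧ a1 * (‖ν - σ • ν'‖ ^ 2 + (c - σ * c') ^ 2) ≤
      CL * (cB b ε R0 R L N u e ν c + cB b ε R0 R L N u e ν' c')
  jc : ∀ (N : ℕ) (u : Sp d → V), TF u → ∀ e : E, ‖e‖ = 1 → ∀ (ν q q' : Sp d), ‖ν‖ = 1 →
    ⟪ν, q⟫_ℝ = ⟪ν, q'⟫_ℝ → ‖q‖ ≤ R0 / 2 → ‖q'‖ ≤ R0 / 2 → ∀ x, ‖x‖ ≤ R0 →
    ‖JJ n0 ν q' 2 u x - JJ n0 ν q 1 u x‖ ≤ CJ * cB b ε R0 R L N u e ν ⟪ν, q⟫_ℝ
  base : ∀ (N : ℕ) (u : Sp d → V), TF u →
    ∀ e : E, ‖e‖ = 1 → ∀ (ν : Sp d) (c : ℝ), ‖ν‖ = 1 → |c| ≤ R0 / 7 + 2 →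
    ∀ a : ℝ, 0 < a → a ≤ cI L u e (zR (R0 / 7)) → cB b ε R0 R L N u e ν c ≤ κ * a →
    cA b ε R0 L N u * cB b ε R0 R L N u e ν c ≤ κ * a ^ 2 →
    ∃ p : Sp d, ⟪ν, p⟫_ℝ = c ∧ ‖p‖ ≤ R0 / 3 ∧ c2 * a ≤ ‖JJ n0 ν (c • ν) 1 u p‖
  mass0 : ∀ (N : ℕ) (u : Sp d → V), TF u → ∀ e : E, ‖e‖ = 1 →
    cA b ε R0 L N u ≤ cI L u e (zR (R0 + 2)) + C0 * cD b ε R L N u e
  far0 : ∀ (N : ℕ) (u : Sp d → V), TF u →
    ∀ (ξ : Sp d) (e e' : E), ‖ξ‖ ≤ Real.sqrt d → ‖e‖ = 1 → ‖e'‖ = 1 →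
    Step b ε R0 R CS L N u ξ e e' → ∀ (ν : Sp d) (c : ℝ), ‖ν‖ = 1 → R0 + 3 < |c| →
    |c| ≤ 4 * R0 →
    cA b ε R0 L N u ≤ Cf * (cB b ε R0 R L (N + 1) (zm ξ u) e' ν ((c - ⟪ν, ξ⟫_ℝ) / 2) +
      cD b ε R L N u e)

lemma exists_ctx (hSHB : StmtSHB) (hPL : StmtPL) (hSM : StmtSM) (hJC : StmtJC) (hZ : StmtZ)
    (hMA : StmtMA) (hTW : StmtTW) (hSC : StmtSC) (hSD : StmtSD) (hd : 2 ≤ d) {M c0 ε : ℝ}
    (hε : 0 < ε) (hε1 : ε ≤ 1) {b : Sp d → ℝ}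
    (hb : BaseKer 2 M c0 b) {L : (Sp d →L[ℝ] V) →L[ℝ] E} (hL : CEll L) {n0 : ℕ}
    {T : (ContinuousMultilinearMap ℝ (fun _ : Fin n0 => Sp d) E) →L[ℝ]
      (ContinuousMultilinearMap ℝ (fun _ : Fin (n0 + 1) => Sp d) V)} (hn0 : 1 ≤ n0)
    (hNS : NSProp L n0 T) {R0 : ℝ} (hR0 : 200 + 8 * d ≤ R0) :
    ∃ κ c2 CS Cp Cm Ct CM CL CJ C0 Cf : ℝ, 0 < κ ∧ 0 < c2 ∧ 0 < CS ∧ 0 < Cp ∧ 0 < Cm ∧ 0 < Ct ∧
      0 < CM ∧ 0 < CL ∧ 0 < CJ ∧ 0 < C0 ∧ 0 < Cf ∧ ∀ (R : ℝ), 4 * R0 + 10 ≤ R →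
      Ctx b ε R0 R L n0 κ c2 CS Cp Cm Ct CM CL CJ C0 Cf ∧
      ∀ (N : ℕ) (u : Sp d → V), TF u → ∀ (ξ : Sp d) (e e' : E), ‖ξ‖ ≤ Real.sqrt d → ‖e‖ = 1 →
        ‖e'‖ = 1 → Step b ε R0 R CS L N u ξ e e' := by
  have hd1 : 1 ≤ d := by omega
  have hdR : (2 : ℝ) ≤ d := by exact_mod_cast hd
  obtain ⟨CS, hCS, hstep⟩ := exists_step hTW hSC hSD hd hε hε1 hb L (R0 := R0) (by linarith)
  obtain ⟨κc, hκc, hcen⟩ := center hZ hd1 hε hε1 hb L (R0 := R0) (by linarith)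
  obtain ⟨Cp, hCp, hpla⟩ := planes hZ hd1 hε hε1 hb L (R0 := R0) (by linarith)
  obtain ⟨Cm, hCm, hmas⟩ := massle hZ hd1 hε hε1 hb L (R0 := R0) (by linarith) hCS
  obtain ⟨Ct, hCt, htra⟩ := transfer hZ hSC hd hε hε1 hb L (R0 := R0) (by linarith) hCS
  obtain ⟨CM, κM, hCM, hκM, hsm⟩ := hSM d V E L n0 T hd hn0 hL hNS M c0 ε hε hε1 b hb R0
    (by linarith)
  obtain ⟨κM', hκM', hflM⟩ := flat hZ hd1 hε hε1 hb L (R0 := R0) (by linarith) hκM
  obtain ⟨CL, κL, hCL, hκL, hpl⟩ := hPL d V E L n0 T hd hn0 hL hNS M c0 ε hε hε1 b hb R0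
    (by linarith)
  obtain ⟨κL', hκL', hflL⟩ := flat hZ hd1 hε hε1 hb L (R0 := R0) (by linarith) hκL
  obtain ⟨CJ, hCJ, hjc⟩ := hJC d V E L n0 T hd1 hn0 hNS M c0 ε hε hε1 b hb R0 (by linarith)
  obtain ⟨c2, κb, hc2, hκb, hbas⟩ := base hSHB hZ hd hε hε1 hb hL hn0 hNS (R0 := R0) (by linarith)
  obtain ⟨C0, hC0, hm0⟩ := mass0 hMA hd1 hε hε1 hb L (R0 := R0) (by linarith)
  obtain ⟨Cf, hCf, hfar⟩ := far0 hMA hZ hSC hd hε hε1 hb L (R0 := R0) (by linarith) hCS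
  set κ := min κc (min (min κM κM') (min κL' κb)) with hκ
  have k1 : κ ≤ κc := min_le_left _ _
  have k2 : κ ≤ κM := (min_le_right _ _).trans ((min_le_left _ _).trans (min_le_left _ _))
  have k3 : κ ≤ κM' := (min_le_right _ _).trans ((min_le_left _ _).trans (min_le_right _ _))
  have k4 : κ ≤ κL' := (min_le_right _ _).trans ((min_le_right _ _).trans (min_le_left _ _))
  have k5 : κ ≤ κb := (min_le_right _ _).trans ((min_le_right _ _).trans (min_le_right _ _))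
  have hκ0 : 0 < κ := by positivity
  refine ⟨κ, c2, CS, Cp, Cm, Ct, CM, 2 * CL, CJ, C0, Cf, hκ0, hc2, hCS, hCp, hCm, hCt, hCM,
    by positivity, hCJ, hC0, hCf, fun R hR => ⟨⟨?_, ?_, ?_, ?_, ?_, ?_, ?_, ?_, ?_, ?_⟩, ?_⟩⟩
  · intro N u hu e he ν c hν hc ρ hρ hρR a ha h1 h2
    exact hcen R hR N u hu e he ν c hν hc ρ hρ hρR a ha h1
      (h2.trans (mul_le_mul_of_nonneg_right k1 ha.le))
  · exact hpla R hR
  · exact hmas R hR
  · exact htra R hR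
  · intro N u hu e he ν c hν hc a1 ha1 h1 h2 h3 x a hx hxR ha h4 h5 h6
    have hfl := (hflM R hR N u hu e he ν c (R0 / 4) (by linarith) (by linarith) a1 ha1 h1
      (h2.trans (mul_le_mul_of_nonneg_right k3 ha1.le))
      (h3.trans (mul_le_mul_of_nonneg_right k3 (by positivity)))).1
    exact hsm R (by linarith) N u hu e he ν c hν hc hfl x a hx hxR ha h4
      (h5.trans (mul_le_mul_of_nonneg_right k2 ha.le))
      (h6.trans (mul_le_mul_of_nonneg_right k2 (by positivity)))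
  · intro N u hu e he ν ν' c c' hν hν' hc hc' a1 ha1 h1 h2 h3
    have hfl := hflL R hR N u hu e he ν c (R0 / 4) (by linarith) (by linarith) a1 ha1 h1
      (h2.trans (mul_le_mul_of_nonneg_right k4 ha1.le))
      (h3.trans (mul_le_mul_of_nonneg_right k4 (by positivity)))
    obtain ⟨σ, hσ, h4⟩ := hpl R (by linarith) N u hu e he ν ν' c c' hν hν' hc hc' hfl.1
    refine ⟨σ, by rcases hσ with h | h <;> rw [h] <;> norm_num, ?_⟩
    have h5 : 0 ≤ ‖ν - σ • ν'‖ ^ 2 + (c - σ * c') ^ 2 := by (clear * -; positivity)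
    have h6 := mul_le_mul_of_nonneg_right hfl.2 h5
    have h7 : (∫ y, ⟪fo L u y, e⟫_ℝ * zR (R0 / 3) y) * (‖ν - σ • ν'‖ ^ 2 + (c - σ * c') ^ 2) ≤
      CL * (cB b ε R0 R L N u e ν c + cB b ε R0 R L N u e ν' c') := h4
    linarith only [h6, h7]
  · intro N u hu e he ν q q' hν hqq hq hq' x hx
    exact (hjc R (by linarith) N u hu e he ν q q' hν hqq hq hq' x hx).2.2
  · intro N u hu e he ν c hν hc a ha h1 h2 h3
    exact hbas R hR N u hu e he ν c hν hc a ha h1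
      (h2.trans (mul_le_mul_of_nonneg_right k5 ha.le))
      (h3.trans (mul_le_mul_of_nonneg_right k5 (by positivity)))
  · exact hm0 R hR
  · exact hfar R hR
  · exact hstep R hR

/-- frames of a tower -/
structure Chain (b : Sp d → ℝ) (ε R0 R CS : ℝ) (L : (Sp d →L[ℝ] V) →L[ℝ] E) (n : ℕ)
    (uu : ℕ → Sp d → V) (ξ : ℕ → Sp d) (e : ℕ → E) : Prop where
  tf : ∀ r, TF (uu r)
  zoom : ∀ r, uu (r + 1) = zm (ξ r) (uu r)
  xi : ∀ r, ‖ξ r‖ ≤ Real.sqrt d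
  unit : ∀ r, ‖e r‖ = 1
  step : ∀ r, Step b ε R0 R CS L (n + r) (uu r) (ξ r) (e r) (e (r + 1))

/-- module CM in the frames -/
def FrameCM (b : Sp d → ℝ) (ε R0 K γ : ℝ) (L : (Sp d →L[ℝ] V) →L[ℝ] E) : Prop :=
  ∃ C : ℝ, 0 < C ∧ ∀ R : ℝ, 4 * R0 + 10 ≤ R → ∀ (n : ℕ) (uu : ℕ → Sp d → V) (ξ : ℕ → Sp d)
    (e : ℕ → E), (∀ r, TF (uu r)) → (∀ r, uu (r + 1) = zm (ξ r) (uu r)) →
    (∀ r, ‖ξ r‖ ≤ Real.sqrt d) → (∀ r, ‖e r‖ = 1) → ∀ a : ℝ, 0 < a →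
    a = cA b ε R0 L n (uu 0) → (∀ r, cA b ε R0 L (n + r) (uu r) ≤ K * P γ r * a) →
    ∀ (νs : ℕ → Sp d) (cs : ℕ → ℝ) (B : ℝ), (∀ r, ‖νs r‖ = 1) → (∀ r, |cs r| ≤ 4 * R0) →
    0 ≤ B → (∀ r, cB b ε R0 R L (n + r) (uu r) (e r) (νs r) (cs r) ≤ P (1 / 4) r * B) →
    ∃ (ν : Sp d) (g : ℕ → ℝ), ‖ν‖ = 1 ∧ |g 0| ≤ R0 + 3 ∧
      (∀ r, g (r + 1) = (g r - ⟪ν, ξ r⟫_ℝ) / 2) ∧
      ∀ r, cB b ε R0 R L (n + r) (uu r) (e r) ν (g r) ≤ C * (P (3 / 8 + γ) r * B)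

/-- the hypotheses of module CM in the frames -/
structure Data (b : Sp d → ℝ) (ε R0 R CS : ℝ) (L : (Sp d →L[ℝ] V) →L[ℝ] E) (n : ℕ)
    (uu : ℕ → Sp d → V) (ξ : ℕ → Sp d) (e : ℕ → E) (K γ a B : ℝ) (νs : ℕ → Sp d)
    (cs : ℕ → ℝ) : Prop where
  chain : Chain b ε R0 R CS L n uu ξ e
  apos : 0 < a
  aeq : a = cA b ε R0 L n (uu 0)
  growth : ∀ r, cA b ε R0 L (n + r) (uu r) ≤ K * P γ r * a
  nu : ∀ r, ‖νs r‖ = 1
  off : ∀ r, |cs r| ≤ 4 * R0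
  small : ∀ r, cB b ε R0 R L (n + r) (uu r) (e r) (νs r) (cs r) ≤ P (1 / 4) r * B

lemma sqrt_le_eighth (d : ℕ) : Real.sqrt d ≤ d / 8 + 2 := by
  have h1 := Real.sq_sqrt (Nat.cast_nonneg (α := ℝ) d)
  linarith only [h1, sq_nonneg (Real.sqrt d - 4)]

lemma one_le_sqrt {d : ℕ} (hd : 2 ≤ d) : 1 ≤ Real.sqrt d := by
  have hdR : (2 : ℝ) ≤ d := by exact_mod_cast hd
  rw [Real.le_sqrt (by norm_num) (by positivity)]
  linarith

/-- distance of two planes in terms of normals and offsets -/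
lemma ht_dist {ν ν' : Sp d} {c c' σ δ : ℝ} (hδ : 0 ≤ δ)
    (h : ‖ν - σ • ν'‖ ^ 2 + (c - σ * c') ^ 2 ≤ δ ^ 2) (y : Sp d) :
    |ht ν c y - σ * ht ν' c' y| ≤ δ * (1 + ‖y‖) := by
  have h1 : ‖ν - σ • ν'‖ ≤ δ := by
    refine abs_le_of_sq_le_sq' ?_ hδ |>.2
    nlinarith [sq_nonneg (c - σ * c')]
  have h2 : |c - σ * c'| ≤ δ := by
    refine abs_le_of_sq_le_sq ?_ hδ
    nlinarith [sq_nonneg ‖ν - σ • ν'‖]
  have h3 : ht ν c y - σ * ht ν' c' y = ⟪ν - σ • ν', y⟫_ℝ - (c - σ * c') := by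
    unfold ht
    rw [inner_sub_left, real_inner_smul_left]
    ring
  rw [h3]
  calc |⟪ν - σ • ν', y⟫_ℝ - (c - σ * c')| ≤ |⟪ν - σ • ν', y⟫_ℝ| + |c - σ * c'| := abs_sub _ _
    _ ≤ ‖ν - σ • ν'‖ * ‖y‖ + δ := add_le_add (abs_real_inner_le_norm _ _) h2
    _ ≤ δ * ‖y‖ + δ := by gcongr
    _ = _ := by ring

/-- relations between the constants of the induction -/
structure Par (d : ℕ) (R0 κ CS Cp Cm Ct CM CL CJ K γ c1 c20 C4 C5 C6 C7 κ' : ℝ) : Prop where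
  hd : 2 ≤ d
  hR0 : 200 + 8 * d ≤ R0
  hκ : 0 < κ
  hCS : 0 < CS
  hCp : 0 < Cp
  hCm : 0 < Cm
  hCt : 0 < Ct
  hCM : 0 < CM
  hCL : 0 < CL
  hCJ : 0 < CJ
  hK : 1 ≤ K
  hγ : 0 < γ
  hγ1 : γ ≤ 1 / 32
  hc1 : 0 < c1
  hc20 : 0 < c20
  hC5 : 0 < C5
  hC6 : 0 < C6
  hc1b : c1 ≤ c20 / (4 * (CM * Ct))
  hC5a : CL * (1 + 3 * CS) ≤ c1 * C5 ^ 2
  hC4e : C4 = 12 * C5
  hC6e : C6 = Cp * (1 + Cm * (2 * K * C4 ^ 2 + 3))
  hC7e : C7 = 12 * (CJ * C6)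
  hκ' : 0 < κ'
  t1 : C4 ^ 2 * κ' ≤ 1
  t2 : 1 * κ' ≤ κ * c1
  t3 : K * κ' ≤ κ * c1 ^ 2
  t4 : C6 * κ' ≤ κ * c1
  t5 : K * C6 * κ' ≤ κ * c1 ^ 2
  t6 : C6 * κ' ≤ κ * (c20 / 2)
  t7 : K * C6 * κ' ≤ κ * (c20 / 2) ^ 2
  t8 : C7 * κ' ≤ c20 / 2
  t9 : CM * Ct * 3 * κ' ≤ c20 / 4

lemma exists_par (hd : 2 ≤ d) {R0 : ℝ} (hR0 : 200 + 8 * d ≤ R0)
    {κ CS Cp Cm Ct CM CL CJ : ℝ} (hκ : 0 < κ) (hCS : 0 < CS) (hCp : 0 < Cp)
    (hCm : 0 < Cm) (hCt : 0 < Ct) (hCM : 0 < CM) (hCL : 0 < CL) (hCJ : 0 < CJ)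
    {K γ : ℝ} (hK : 1 ≤ K) (hγ : 0 < γ) (hγ1 : γ ≤ 1 / 32) {c10 c20 : ℝ} (hc10 : 0 < c10)
    (hc20 : 0 < c20) : ∃ c1 C4 C5 C6 C7 κ' : ℝ, c1 ≤ c10 ∧
      Par d R0 κ CS Cp Cm Ct CM CL CJ K γ c1 c20 C4 C5 C6 C7 κ' := by
  obtain ⟨c1, hc1, hc1a, hc1b⟩ : ∃ c1 : ℝ, 0 < c1 ∧ c1 ≤ c10 ∧ c1 ≤ c20 / (4 * (CM * Ct)) :=
    ⟨min c10 (c20 / (4 * (CM * Ct))), by positivity, min_le_left _ _, min_le_right _ _⟩
  obtain ⟨C5, hC5, hC5a⟩ : ∃ C5 : ℝ, 0 < C5 ∧ CL * (1 + 3 * CS) ≤ c1 * C5 ^ 2 := by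
    refine ⟨1 + CL * (1 + 3 * CS) / c1, by positivity, ?_⟩
    have h1 : 0 ≤ CL * (1 + 3 * CS) / c1 := by positivity
    have h2 : CL * (1 + 3 * CS) = c1 * (CL * (1 + 3 * CS) / c1) := by field_simp
    rw [h2]
    refine mul_le_mul_of_nonneg_left ?_ hc1.le
    have h3 : c1 * (CL * (1 + 3 * CS) / c1) / c1 = CL * (1 + 3 * CS) / c1 := by
      field_simp
    rw [h3]
    nlinarith only []
  obtain ⟨C4, hC4⟩ : ∃ C4 : ℝ, C4 = 12 * C5 := ⟨_, rfl⟩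
  have hC40 : 0 < C4 := by rw [hC4]; positivity
  have hK0 : 0 < K := by linarith
  obtain ⟨C6, hC6⟩ : ∃ C6 : ℝ, C6 = Cp * (1 + Cm * (2 * K * C4 ^ 2 + 3)) := ⟨_, rfl⟩
  have hC60 : 0 < C6 := by rw [hC6]; positivity
  obtain ⟨C7, hC7⟩ : ∃ C7 : ℝ, C7 = 12 * (CJ * C6) := ⟨_, rfl⟩
  obtain ⟨κ', hκ', hk⟩ := exists_small [(C4 ^ 2, 1), (1, κ * c1), (K, κ * c1 ^ 2),
    (C6, κ * c1), (K * C6, κ * c1 ^ 2), (C6, κ * (c20 / 2)), (K * C6, κ * (c20 / 2) ^ 2),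
    (C7, c20 / 2), (CM * Ct * 3, c20 / 4)] (by
      intro q hq
      simp only [List.mem_cons, List.not_mem_nil, or_false] at hq
      rcases hq with h | h | h | h | h | h | h | h | h <;> (subst h; simp only; positivity))
  exact ⟨c1, C4, C5, C6, C7, κ', hc1a, hd, hR0, hκ, hCS, hCp, hCm, hCt, hCM, hCL, hCJ, hK, hγ, hγ1,
    hc1, hc20, hC5, hC60, hc1b, hC5a, hC4, hC6, hC7, hκ', hk (C4 ^ 2, 1) (by simp),
    hk (1, κ * c1) (by simp), hk (K, κ * c1 ^ 2) (by simp), hk (C6, κ * c1) (by simp),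
    hk (K * C6, κ * c1 ^ 2) (by simp), hk (C6, κ * (c20 / 2)) (by simp),
    hk (K * C6, κ * (c20 / 2) ^ 2) (by simp), hk (C7, c20 / 2) (by simp),
    hk (CM * Ct * 3, c20 / 4) (by simp)⟩

section Ind

variable {b : Sp d → ℝ} {ε R0 R : ℝ} {L : (Sp d →L[ℝ] V) →L[ℝ] E} {n0 n : ℕ}
  {κ c2 CS Cp Cm Ct CM CL CJ C0 Cf K γ c1 c20 C4 C5 C6 C7 κ' a B : ℝ}
  {uu : ℕ → Sp d → V} {ξ : ℕ → Sp d} {e : ℕ → E} {νs : ℕ → Sp d} {cs : ℕ → ℝ}

lemma Data.D_le (D : Data b ε R0 R CS L n uu ξ e K γ a B νs cs) (r : ℕ) :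
    cD b ε R L (n + r) (uu r) (e r) ≤ P (1 / 4) r * B :=
  (cD_le_cB b ε R0 R L (n + r) (uu r) (e r) (νs r) (cs r)).trans (D.small r)

lemma Data.Ds_le (D : Data b ε R0 R CS L n uu ξ e K γ a B νs cs) (hB : 0 ≤ B) (r : ℕ) :
    cD b ε R L (n + r) (uu r) (e r) + cD b ε R L (n + (r + 1)) (uu (r + 1))
      (e (r + 1)) ≤ 3 * (P (1 / 4) r * B) := by
  have h1 := D.D_le r
  have h2 := D.D_le (r + 1)
  have h3 := mul_le_mul_of_nonneg_right (P_succ_le (by norm_num : (1 / 4 : ℝ) ≤ 1) r) hB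
  linarith

lemma Data.AB (D : Data b ε R0 R CS L n uu ξ e K γ a B νs cs) (hB : 0 ≤ B) (hK : 1 ≤ K)
    (hγ1 : γ ≤ 1 / 32) (r : ℕ) {X Y : ℝ} (hX : 0 ≤ X) (hXY : X ≤ Y * (P (1 / 4 + γ) r * B))
    (hY : 0 ≤ Y) (hG : P (3 / 8) r * B ≤ κ' * a) :
    cA b ε R0 L (n + r) (uu r) * X ≤ K * Y * κ' * a ^ 2 := by
  have ha := D.apos
  have hK0 : 0 < K := by linarith
  have h1 := D.growth r
  have h2 : cA b ε R0 L (n + r) (uu r) * X ≤ (K * P γ r * a) * (Y * (P (1 / 4 + γ) r * B)) :=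
    mul_le_mul h1 hXY hX (by have := P_pos γ r; positivity)
  refine h2.trans ?_
  have h3 : P γ r * P (1 / 4 + γ) r ≤ P (3 / 8) r := by
    rw [P_mul]
    exact P_le (by linarith) r
  have h4 : P γ r * P (1 / 4 + γ) r * B ≤ κ' * a := (mul_le_mul_of_nonneg_right h3 hB).trans hG
  have h5 := mul_le_mul_of_nonneg_left h4 (by positivity : 0 ≤ K * Y * a)
  calc _ = K * Y * a * (P γ r * P (1 / 4 + γ) r * B) := by ring
    _ ≤ _ := h5
    _ = _ := by ring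

/-- the invariant of the induction -/
structure Inv (b : Sp d → ℝ) (ε R0 R : ℝ) (L : (Sp d →L[ℝ] V) →L[ℝ] E) (n0 n : ℕ)
    (uu : ℕ → Sp d → V) (e : ℕ → E) (νs : ℕ → Sp d) (cs : ℕ → ℝ) (γ c1 c20 C4 C7 a B τ : ℝ)
    (ν : Sp d) (gg : ℕ → ℝ) (r : ℕ) (pt : Sp d) : Prop where
  mass : c1 * a ≤ cI L (uu r) (e r) (zR (R0 / 4))
  plane : ∃ σ : ℝ, σ ^ 2 = 1 ∧ ∀ y, |ht ν (gg r) y - σ * ht (νs r) (cs r) y| ≤
    (C4 * τ * P (1 / 8) r) * (Real.sqrt d + ‖y‖)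
  jump : c20 * a - C7 * (P (1 / 4 + γ) r * B) ≤ ‖JJ n0 ν (gg r • ν) 1 (uu r) pt‖

lemma abs_one_of_sq {σ : ℝ} (hσ : σ ^ 2 = 1) : |σ| = 1 := by
  have := sq_abs σ
  rw [hσ] at this
  nlinarith only [this, abs_nonneg σ]

lemma theta_sq {τ : ℝ} (hτ2 : τ ^ 2 * a = B) (C : ℝ) (r : ℕ) :
    (C * τ * P (1 / 8) r) ^ 2 * a = C ^ 2 * (P (1 / 4) r * B) := by
  have h1 : P (1 / 8) r ^ 2 = P (1 / 4) r := by
    rw [sq, P_mul]; norm_num
  calc _ = C ^ 2 * (P (1 / 8) r ^ 2 * (τ ^ 2 * a)) := by ring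
    _ = _ := by rw [h1, hτ2]

lemma theta_le (par : Par d R0 κ CS Cp Cm Ct CM CL CJ K γ c1 c20 C4 C5 C6 C7 κ') (ha : 0 < a)
    (hB : 0 ≤ B) {τ : ℝ} (hτ0 : 0 ≤ τ) (hτ2 : τ ^ 2 * a = B) {r : ℕ}
    (hG : P (3 / 8) r * B ≤ κ' * a) : 0 ≤ C4 * τ * P (1 / 8) r ∧ C4 * τ * P (1 / 8) r ≤ 1 := by
  have hC4 : 0 < C4 := by rw [par.hC4e]; have := par.hC5; positivity
  have hθ0 : 0 ≤ C4 * τ * P (1 / 8) r := by have := P_pos (1 / 8) r; positivity
  refine ⟨hθ0, ?_⟩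
  have h1 : (C4 * τ * P (1 / 8) r) ^ 2 * a ≤ 1 * a := by
    rw [theta_sq hτ2]
    have h0 : P (1 / 4) r * B ≤ κ' * a :=
      (mul_le_mul_of_nonneg_right (P_le (by norm_num) r) hB).trans hG
    have h2 := mul_le_mul_of_nonneg_left h0 (by positivity : 0 ≤ C4 ^ 2)
    have h3 := mul_le_mul_of_nonneg_right par.t1 ha.le
    linarith
  have h2 := le_of_mul_le_mul_right h1 ha
  nlinarith

/-- consequences of the invariant -/
lemma cons (par : Par d R0 κ CS Cp Cm Ct CM CL CJ K γ c1 c20 C4 C5 C6 C7 κ')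
    (ctx : Ctx b ε R0 R L n0 κ c2 CS Cp Cm Ct CM CL CJ C0 Cf)
    (D : Data b ε R0 R CS L n uu ξ e K γ a B νs cs) (hB : 0 ≤ B) {τ : ℝ} (hτ0 : 0 ≤ τ)
    (hτ2 : τ ^ 2 * a = B) {ν : Sp d} (hν : ‖ν‖ = 1) {gg : ℕ → ℝ} {r : ℕ} {pt : Sp d}
    (inv : Inv b ε R0 R L n0 n uu e νs cs γ c1 c20 C4 C7 a B τ ν gg r pt)
    (hG : P (3 / 8) r * B ≤ κ' * a) :
    |cs r| ≤ R0 / 4 + 2 ∧ |gg r| ≤ R0 / 3 ∧
      cB b ε R0 R L (n + r) (uu r) (e r) ν (gg r) ≤ C6 * (P (1 / 4 + γ) r * B) := by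
  have hR0 := par.hR0
  have ha := D.apos
  have ch := D.chain
  have hsq := sqrt_le_eighth d
  have hd0 : (0 : ℝ) ≤ d := Nat.cast_nonneg _
  obtain ⟨σ, hσ, hq2⟩ := inv.plane
  have h0 : P (1 / 4) r * B ≤ κ' * a :=
    (mul_le_mul_of_nonneg_right (P_le (by norm_num) r) hB).trans hG
  have hc : |cs r| ≤ R0 / 4 + 2 := by
    refine ctx.center (n + r) (uu r) (ch.tf r) (e r) (ch.unit r) (νs r) (cs r) (D.nu r)
      (D.off r) (R0 / 4) (by linarith) (by linarith) (c1 * a) (mul_pos par.hc1 ha) inv.mass ?_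
    refine (D.small r).trans (h0.trans ?_)
    have := mul_le_mul_of_nonneg_right par.t2 ha.le
    linarith
  obtain ⟨hθ0, hθ1⟩ := theta_le par ha hB hτ0 hτ2 hG
  have hθ2 := theta_sq hτ2 C4 r
  set θ : ℝ := C4 * τ * P (1 / 8) r with hθ
  have hg : |gg r| ≤ R0 / 3 := by
    have h1 := hq2 0
    unfold ht at h1
    rw [inner_zero_right, inner_zero_right, norm_zero, add_zero] at h1
    have h2 : |σ| = 1 := abs_one_of_sq hσ
    have h3 : |gg r| ≤ |0 - gg r - σ * (0 - cs r)| + |σ * cs r| := by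
      have h4 : -gg r = (0 - gg r - σ * (0 - cs r)) - σ * cs r := by ring
      rw [← abs_neg, h4]
      exact abs_sub _ _
    rw [abs_mul, h2, one_mul] at h3
    have h5 : θ * Real.sqrt d ≤ 1 * Real.sqrt d :=
      mul_le_mul_of_nonneg_right hθ1 (by positivity)
    linarith
  refine ⟨hc, hg, ?_⟩
  have h1 := ctx.planes (n + r) (uu r) (ch.tf r) (e r) (ch.unit r) ν (νs r) (gg r) (cs r) σ
    θ hν (D.nu r) (by linarith) (D.off r) hσ hθ0 hθ1 hq2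
  have h2 := ctx.massle (n + r) (uu r) (ch.tf r) (ξ r) (e r) (e (r + 1)) (ch.unit r)
    (ch.unit (r + 1)) (ch.step r)
  rw [← ch.zoom r] at h2
  have hK0 : 0 < K := by linarith [par.hK]
  have hCm := par.hCm
  have h3 : max 0 (cA b ε R0 L (n + r + 1) (uu (r + 1))) ≤ 2 * K * P γ r * a := by
    refine max_le (by have := P_pos γ r; positivity) ?_
    refine (D.growth (r + 1)).trans ?_
    have h4 := P_succ_le (by linarith [par.hγ1] : γ ≤ 1) r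
    have h5 := mul_le_mul_of_nonneg_left h4 (by positivity : 0 ≤ K * a)
    linarith
  have h4 := D.Ds_le hB r
  have h5 : max 0 (cI L (uu r) (e r) (zR R0)) ≤ Cm * (2 * K * P γ r * a +
      3 * (P (1 / 4) r * B)) := by
    refine h2.trans (mul_le_mul_of_nonneg_left ?_ hCm.le)
    have e1 : cD b ε R L (n + r + 1) (uu (r + 1)) (e (r + 1)) =
      cD b ε R L (n + (r + 1)) (uu (r + 1)) (e (r + 1)) := rfl
    rw [e1]
    linarith only [h3, h4]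
  have hPB : 0 ≤ P (1 / 4) r * B := mul_nonneg (P_pos _ _).le hB
  have hPle : P (1 / 4) r * B ≤ P (1 / 4 + γ) r * B :=
    mul_le_mul_of_nonneg_right (P_le (by linarith only [par.hγ]) r) hB
  have h6 : θ ^ 2 * max 0 (cI L (uu r) (e r) (zR R0)) ≤
      Cm * (2 * K * C4 ^ 2 + 3) * (P (1 / 4 + γ) r * B) := by
    have h7 := mul_le_mul_of_nonneg_left h5 (sq_nonneg θ)
    refine h7.trans ?_
    have h8 : θ ^ 2 * (2 * K * P γ r * a) = 2 * K * C4 ^ 2 * (P (1 / 4 + γ) r * B) := by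
      calc _ = 2 * K * P γ r * (θ ^ 2 * a) := by ring
        _ = 2 * K * P γ r * (C4 ^ 2 * (P (1 / 4) r * B)) := by rw [hθ2]
        _ = 2 * K * C4 ^ 2 * ((P (1 / 4) r * P γ r) * B) := by ring
        _ = _ := by rw [P_mul]
    have h9 : θ ^ 2 * (3 * (P (1 / 4) r * B)) ≤ 3 * (P (1 / 4 + γ) r * B) := by
      have h10 : θ ^ 2 ≤ 1 := by nlinarith only [hθ0, hθ1]
      have h11 := mul_le_mul_of_nonneg_right h10 (by positivity : 0 ≤ 3 * (P (1 / 4) r * B))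
      linarith only [h11, hPle]
    have h10 : θ ^ 2 * (Cm * (2 * K * P γ r * a + 3 * (P (1 / 4) r * B))) =
      Cm * (θ ^ 2 * (2 * K * P γ r * a) + θ ^ 2 * (3 * (P (1 / 4) r * B))) := by ring
    rw [h10, h8]
    have h11 := mul_le_mul_of_nonneg_left h9 hCm.le
    linarith only [h11]
  have h7 : cB b ε R0 R L (n + r) (uu r) (e r) (νs r) (cs r) +
      θ ^ 2 * max 0 (cI L (uu r) (e r) (zR R0)) ≤
      (1 + Cm * (2 * K * C4 ^ 2 + 3)) * (P (1 / 4 + γ) r * B) := by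
    have := D.small r
    linarith only [this, hPle, h6]
  calc _ ≤ _ := h1
    _ ≤ Cp * ((1 + Cm * (2 * K * C4 ^ 2 + 3)) * (P (1 / 4 + γ) r * B)) :=
      mul_le_mul_of_nonneg_left h7 par.hCp.le
    _ = _ := by rw [par.hC6e]; ring

lemma next_mass (par : Par d R0 κ CS Cp Cm Ct CM CL CJ K γ c1 c20 C4 C5 C6 C7 κ')
    (ctx : Ctx b ε R0 R L n0 κ c2 CS Cp Cm Ct CM CL CJ C0 Cf)
    (D : Data b ε R0 R CS L n uu ξ e K γ a B νs cs) (hB : 0 ≤ B) {τ : ℝ} (hτ0 : 0 ≤ τ)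
    (hτ2 : τ ^ 2 * a = B) {ν : Sp d} (hν : ‖ν‖ = 1) {gg : ℕ → ℝ} {r : ℕ} {pt : Sp d}
    (inv : Inv b ε R0 R L n0 n uu e νs cs γ c1 c20 C4 C7 a B τ ν gg r pt)
    (hG : P (3 / 8) r * B ≤ κ' * a) (hpt : ⟪ν, pt⟫_ℝ = gg r) (hptR : ‖pt‖ ≤ R0 / 3) :
    c1 * a ≤ cI L (uu (r + 1)) (e (r + 1)) (zR (R0 / 4)) := by
  have hR0 := par.hR0
  have ha := D.apos
  have ch := D.chain
  have hc1 := par.hc1
  have hc20 := par.hc20
  have hsq := sqrt_le_eighth d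
  have hd0 : (0 : ℝ) ≤ d := Nat.cast_nonneg _
  obtain ⟨-, hgr, hBS⟩ := cons par ctx D hB hτ0 hτ2 hν inv hG
  have hur := ch.tf r
  have her := ch.unit r
  have her1 := ch.unit (r + 1)
  have hstep := ch.step r
  have hξ := ch.xi r
  have hPγ : P (1 / 4 + γ) r * B ≤ κ' * a :=
    (mul_le_mul_of_nonneg_right (P_le (by linarith [par.hγ1]) r) hB).trans hG
  have hPγ0 : 0 ≤ P (1 / 4 + γ) r * B := mul_nonneg (P_pos _ _).le hB
  have hC70 : 0 < C7 := by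
    rw [par.hC7e]; have := par.hCJ; have := par.hC6; positivity
  have hJr : c20 / 2 * a ≤ ‖JJ n0 ν (gg r • ν) 1 (uu r) pt‖ := by
    have h1 := mul_le_mul_of_nonneg_left hPγ hC70.le
    have h2 := mul_le_mul_of_nonneg_right par.t8 ha.le
    have h3 := inv.jump
    linarith only [h1, h2, h3]
  have hBSn := cB_nonneg b ε R0 R L (n + r) (uu r) her ν (gg r)
  have hBSk : cB b ε R0 R L (n + r) (uu r) (e r) ν (gg r) ≤ C6 * κ' * a := by
    have := mul_le_mul_of_nonneg_left hPγ par.hC6.le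
    linarith only [this, hBS]
  have hABS := D.AB hB par.hK par.hγ1 r hBSn hBS par.hC6.le hG
  have hSM := ctx.sm (n + r) (uu r) hur (e r) her ν (gg r) hν hgr (c1 * a) (by positivity)
    inv.mass (by
      refine hBSk.trans ?_
      have := mul_le_mul_of_nonneg_right par.t4 ha.le
      linarith only [this])
    (by
      refine hABS.trans ?_
      have := mul_le_mul_of_nonneg_right par.t5 (by positivity : 0 ≤ a ^ 2)
      linarith only [this]) pt (c20 / 2 * a) hpt hptR (by positivity) hJr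
    (by
      refine hBSk.trans ?_
      have := mul_le_mul_of_nonneg_right par.t6 ha.le
      linarith only [this])
    (by
      refine hABS.trans ?_
      have := mul_le_mul_of_nonneg_right par.t7 (by positivity : 0 ≤ a ^ 2)
      linarith only [this])
  have htr := ctx.transfer (n + r) (uu r) hur (ξ r) (e r) (e (r + 1)) hξ her her1 hstep
    pt 1 (R0 / 4) le_rfl (by linarith only [hR0]) (by linarith) (by linarith) (by linarith)
  rw [← ch.zoom r] at htr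
  have hCM := par.hCM
  have hCt := par.hCt
  have h1 := mul_le_mul_of_nonneg_left htr hCM.le
  have h2 := D.Ds_le hB r
  have h3 : P (1 / 4) r * B ≤ κ' * a :=
    (mul_le_mul_of_nonneg_right (P_le (by norm_num) r) hB).trans hG
  have e1 : cD b ε R L (n + r + 1) (uu (r + 1)) (e (r + 1)) =
    cD b ε R L (n + (r + 1)) (uu (r + 1)) (e (r + 1)) := rfl
  rw [e1] at h1
  set I1 := cI L (uu (r + 1)) (e (r + 1)) (zR (R0 / 4)) with hI1
  have h4 : CM * Ct * (cD b ε R L (n + r) (uu r) (e r) +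
      cD b ε R L (n + (r + 1)) (uu (r + 1)) (e (r + 1))) ≤ CM * Ct * (3 * (κ' * a)) :=
    mul_le_mul_of_nonneg_left (by linarith only [h2, h3]) (by positivity)
  have h5 := mul_le_mul_of_nonneg_right par.t9 ha.le
  have h6 : c20 / 4 * a ≤ CM * Ct * max 0 I1 := by linarith only [h1, h4, h5, hSM]
  have h7 : c1 * a ≤ max 0 I1 := by
    have h8 : c1 * a ≤ c20 / (4 * (CM * Ct)) * a :=
      mul_le_mul_of_nonneg_right par.hc1b ha.le
    have h9 : CM * Ct * (c20 / (4 * (CM * Ct)) * a) = c20 / 4 * a := by field_simp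
    have h10 : CM * Ct * (c1 * a) ≤ CM * Ct * max 0 I1 :=
      (mul_le_mul_of_nonneg_left h8 (by positivity)).trans (by linarith only [h9, h6])
    exact le_of_mul_le_mul_left h10 (by positivity)
  rcases max_choice 0 I1 with h8 | h8
  · rw [h8] at h7
    have : 0 < c1 * a := by positivity
    linarith only [h7, this]
  · rwa [h8] at h7

lemma next_plane (par : Par d R0 κ CS Cp Cm Ct CM CL CJ K γ c1 c20 C4 C5 C6 C7 κ')
    (ctx : Ctx b ε R0 R L n0 κ c2 CS Cp Cm Ct CM CL CJ C0 Cf)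
    (D : Data b ε R0 R CS L n uu ξ e K γ a B νs cs) (hB : 0 ≤ B) {τ : ℝ} (hτ0 : 0 ≤ τ)
    (hτ2 : τ ^ 2 * a = B) {ν : Sp d} (hν : ‖ν‖ = 1) {gg : ℕ → ℝ} {r : ℕ} {pt : Sp d}
    (hgg : gg (r + 1) = (gg r - ⟪ν, ξ r⟫_ℝ) / 2)
    (inv : Inv b ε R0 R L n0 n uu e νs cs γ c1 c20 C4 C7 a B τ ν gg r pt)
    (hG : P (3 / 8) r * B ≤ κ' * a) (hG1 : P (3 / 8) (r + 1) * B ≤ κ' * a)
    (hn1 : c1 * a ≤ cI L (uu (r + 1)) (e (r + 1)) (zR (R0 / 4))) :
    ∃ σ : ℝ, σ ^ 2 = 1 ∧ ∀ y, |ht ν (gg (r + 1)) y - σ * ht (νs (r + 1)) (cs (r + 1)) y| ≤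
      (C4 * τ * P (1 / 8) (r + 1)) * (Real.sqrt d + ‖y‖) := by
  have hR0 := par.hR0
  have ha := D.apos
  have ch := D.chain
  have hc1 := par.hc1
  have hsq := sqrt_le_eighth d
  have hsq1 := one_le_sqrt par.hd
  have hd0 : (0 : ℝ) ≤ d := Nat.cast_nonneg _
  have hCS := par.hCS
  have hCL := par.hCL
  have hC5 := par.hC5
  obtain ⟨hcr, -, -⟩ := cons par ctx D hB hτ0 hτ2 hν inv hG
  obtain ⟨σ, hσ, hq2⟩ := inv.plane
  have her := ch.unit r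
  have her1 := ch.unit (r + 1)
  have hstep := ch.step r
  have hξ := ch.xi r
  have hPB : P (1 / 4) r * B ≤ κ' * a :=
    (mul_le_mul_of_nonneg_right (P_le (by norm_num) r) hB).trans hG
  have hPB1 : P (1 / 4) (r + 1) * B ≤ κ' * a :=
    (mul_le_mul_of_nonneg_right (P_le (by norm_num) (r + 1)) hB).trans hG1
  have hPB0 : 0 ≤ P (1 / 4) r * B := mul_nonneg (P_pos _ _).le hB
  have hPle : P (1 / 4) r * B ≤ P (1 / 4 + γ) r * B :=
    mul_le_mul_of_nonneg_right (P_le (by linarith only [par.hγ]) r) hB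
  have t2a := mul_le_mul_of_nonneg_right par.t2 ha.le
  have hc1' : |cs (r + 1)| ≤ R0 / 4 + 2 := by
    refine ctx.center (n + (r + 1)) (uu (r + 1)) (ch.tf (r + 1)) (e (r + 1)) her1
      (νs (r + 1)) (cs (r + 1)) (D.nu (r + 1)) (D.off (r + 1)) (R0 / 4) (by linarith only [hR0])
      (by linarith only [hR0]) (c1 * a) (by positivity) hn1 ?_
    refine (D.small (r + 1)).trans (hPB1.trans ?_)
    linarith only [t2a]
  set c'' : ℝ := 2 * cs (r + 1) + ⟪νs (r + 1), ξ r⟫_ℝ with hc''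
  have hc''e : (c'' - ⟪νs (r + 1), ξ r⟫_ℝ) / 2 = cs (r + 1) := by rw [hc'']; ring
  have hc''b : |c''| ≤ 3 * R0 := by
    have h1 := abs_real_inner_le_norm (νs (r + 1)) (ξ r)
    rw [D.nu (r + 1), one_mul] at h1
    have h2 : |c''| ≤ |2 * cs (r + 1)| + |⟪νs (r + 1), ξ r⟫_ℝ| := abs_add_le _ _
    rw [abs_mul, abs_of_pos (by norm_num : (0 : ℝ) < 2)] at h2
    linarith
  have hABr := D.AB (X := cB b ε R0 R L (n + r) (uu r) (e r) (νs r) (cs r)) (Y := 1) hB par.hK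
    par.hγ1 r (cB_nonneg _ _ _ _ _ _ _ her _ _)
    (by rw [one_mul]; exact (D.small r).trans hPle) one_pos.le hG
  obtain ⟨σ', hσ', hPLr⟩ := ctx.pl (n + r) (uu r) (ch.tf r) (e r) her (νs r) (νs (r + 1)) (cs r) c''
    (D.nu r) (D.nu (r + 1)) (by linarith only [hR0, hcr]) hc''b (c1 * a) (by positivity) inv.mass
    (by
      refine (D.small r).trans (hPB.trans ?_)
      linarith only [t2a])
    (by
      refine hABr.trans ?_
      have := mul_le_mul_of_nonneg_right par.t3 (by positivity : 0 ≤ a ^ 2)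
      linarith only [this])
  have hbst := hstep.bstep (νs (r + 1)) c'' (D.nu (r + 1)) (by linarith)
  rw [← ch.zoom r, hc''e] at hbst
  have hδ : ‖νs r - σ' • νs (r + 1)‖ ^ 2 + (cs r - σ' * c'') ^ 2 ≤
      (C5 * τ * P (1 / 8) r) ^ 2 := by
    have h1 : cB b ε R0 R L (n + r) (uu r) (e r) (νs (r + 1)) c'' ≤
        CS * (3 * (P (1 / 4) r * B)) := by
      refine hbst.trans (mul_le_mul_of_nonneg_left ?_ hCS.le)
      have h2 : cB b ε R0 R L (n + r + 1) (uu (r + 1)) (e (r + 1)) (νs (r + 1))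
        (cs (r + 1)) ≤ P (1 / 4) (r + 1) * B := D.small (r + 1)
      have h3 := mul_le_mul_of_nonneg_right (P_succ_le (by norm_num : (1 / 4 : ℝ) ≤ 1) r) hB
      have h4 := D.D_le r
      linarith only [h2, h3, h4]
    have h2 : c1 * a * (‖νs r - σ' • νs (r + 1)‖ ^ 2 + (cs r - σ' * c'') ^ 2) ≤
        CL * (1 + 3 * CS) * (P (1 / 4) r * B) := by
      refine hPLr.trans ?_
      have h3 := D.small r
      have h4 := mul_le_mul_of_nonneg_left (add_le_add h3 h1) hCL.le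
      linarith only [h4]
    have h3 := mul_le_mul_of_nonneg_right par.hC5a hPB0
    have h4 : c1 * C5 ^ 2 * (P (1 / 4) r * B) = c1 * a * (C5 * τ * P (1 / 8) r) ^ 2 := by
      have h5 := theta_sq hτ2 C5 r
      linear_combination (-c1) * h5
    exact le_of_mul_le_mul_left ((h2.trans h3).trans h4.le) (by positivity : 0 < c1 * a)
  have hδ0 : 0 ≤ C5 * τ * P (1 / 8) r := by have := P_pos (1 / 8) r; positivity
  have hσabs : |σ| = 1 := abs_one_of_sq hσ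
  refine ⟨σ * σ', by rw [mul_pow, hσ, hσ', one_mul], fun z => ?_⟩
  have h1 : ht ν (gg (r + 1)) z = ht ν (gg r) (ξ r + (2 : ℝ) • z) / 2 := by
    rw [hgg]
    exact ht_zm _ _ _ _
  have h2 : ht (νs (r + 1)) (cs (r + 1)) z =
      ht (νs (r + 1)) c'' (ξ r + (2 : ℝ) • z) / 2 := by
    rw [← hc''e]
    exact ht_zm _ _ _ _
  set y : Sp d := ξ r + (2 : ℝ) • z with hy
  rw [h1, h2]
  have h3 := hq2 y
  have h4 := ht_dist hδ0 hδ y
  have h5 : ht ν (gg r) y / 2 - σ * σ' * (ht (νs (r + 1)) c'' y / 2) =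
      ((ht ν (gg r) y - σ * ht (νs r) (cs r) y) +
        σ * (ht (νs r) (cs r) y - σ' * ht (νs (r + 1)) c'' y)) / 2 := by ring
  rw [h5, abs_div, abs_of_pos (by norm_num : (0 : ℝ) < 2)]
  have h6 := abs_add_le (ht ν (gg r) y - σ * ht (νs r) (cs r) y)
    (σ * (ht (νs r) (cs r) y - σ' * ht (νs (r + 1)) c'' y))
  rw [abs_mul σ, hσabs, one_mul] at h6
  have h7 : ‖y‖ ≤ Real.sqrt d + 2 * ‖z‖ := by
    have h8 := norm_add_le (ξ r) ((2 : ℝ) • z)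
    rw [norm_smul] at h8
    norm_num at h8
    linarith only [h8, hξ]
  have h8 : C5 * τ * P (1 / 8) r * (1 + ‖y‖) ≤ C5 * τ * P (1 / 8) r *
      (Real.sqrt d + ‖y‖) := mul_le_mul_of_nonneg_left (by linarith only [hsq1]) hδ0
  have hθ0 := (theta_le par ha hB hτ0 hτ2 hG).1
  have h9 : (C4 * τ * P (1 / 8) r + C5 * τ * P (1 / 8) r) * (Real.sqrt d + ‖y‖) ≤
      (C4 * τ * P (1 / 8) r + C5 * τ * P (1 / 8) r) * (2 * (Real.sqrt d + ‖z‖)) :=
    mul_le_mul_of_nonneg_left (by linarith only [h7]) (by linarith only [hθ0, hδ0])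
  have h10 : C4 * τ * P (1 / 8) r + C5 * τ * P (1 / 8) r ≤ C4 * τ * P (1 / 8) (r + 1) := by
    have h11 := mul_le_mul_of_nonneg_left (P_eighth_succ r)
      (by positivity : 0 ≤ C5 * τ)
    rw [par.hC4e]
    linarith only [h11]
  have h11 := mul_le_mul_of_nonneg_right h10
    (by positivity : 0 ≤ Real.sqrt d + ‖z‖)
  linarith only [h3, h4, h6, h8, h9, h11]

lemma next_jump (hSD : StmtSD)
    (par : Par d R0 κ CS Cp Cm Ct CM CL CJ K γ c1 c20 C4 C5 C6 C7 κ')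
    (ctx : Ctx b ε R0 R L n0 κ c2 CS Cp Cm Ct CM CL CJ C0 Cf)
    (D : Data b ε R0 R CS L n uu ξ e K γ a B νs cs) (hB : 0 ≤ B) {τ : ℝ} (hτ0 : 0 ≤ τ)
    (hτ2 : τ ^ 2 * a = B) {ν : Sp d} (hν : ‖ν‖ = 1) {gg : ℕ → ℝ} {r : ℕ} {pt : Sp d}
    (hgg : gg (r + 1) = (gg r - ⟪ν, ξ r⟫_ℝ) / 2)
    (inv : Inv b ε R0 R L n0 n uu e νs cs γ c1 c20 C4 C7 a B τ ν gg r pt)
    (hG : P (3 / 8) r * B ≤ κ' * a) (hptR : ‖pt‖ ≤ R0 / 3) :
    c20 * a - C7 * (P (1 / 4 + γ) (r + 1) * B) ≤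
      ‖JJ n0 ν (gg (r + 1) • ν) 1 (uu (r + 1)) ((1 / 2 : ℝ) • (pt - ξ r))‖ := by
  have hR0 := par.hR0
  have ha := D.apos
  have ch := D.chain
  have hsq := sqrt_le_eighth d
  have hd0 : (0 : ℝ) ≤ d := Nat.cast_nonneg _
  obtain ⟨-, hgr, hBS⟩ := cons par ctx D hB hτ0 hτ2 hν inv hG
  have hξ := ch.xi r
  have hνν : ⟪ν, ν⟫_ℝ = 1 := by rw [real_inner_self_eq_norm_sq, hν]; norm_num
  have hi := abs_real_inner_le_norm ν (ξ r)
  rw [hν, one_mul] at hi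
  have e1 : ⟪ν, gg r • ν⟫_ℝ = gg r := by rw [inner_smul_right, hνν, mul_one]
  have h1 := ctx.jc (n + r) (uu r) (ch.tf r) (e r) (ch.unit r) ν (gg r • ν)
    (ξ r - (⟪ν, ξ r⟫_ℝ - gg r) • ν) hν
    (by rw [e1, inner_sub_right, inner_smul_right, hνν]; ring)
    (by rw [norm_smul, hν, mul_one, Real.norm_eq_abs]; linarith)
    (by
      have h2 := norm_sub_le (ξ r) ((⟪ν, ξ r⟫_ℝ - gg r) • ν)
      rw [norm_smul, hν, mul_one, Real.norm_eq_abs] at h2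
      have h3 := abs_sub ⟪ν, ξ r⟫_ℝ (gg r)
      linarith) pt (by linarith)
  rw [e1] at h1
  have h2 := JJ_zm hSD n0 (ch.tf r) (ξ r) ν (gg r) ((1 / 2 : ℝ) • (pt - ξ r))
  rw [← hgg, ← ch.zoom r] at h2
  have e2 : ξ r + (2 : ℝ) • ((1 / 2 : ℝ) • (pt - ξ r)) = pt := by
    rw [smul_smul]
    norm_num
  rw [e2] at h2
  rw [h2]
  have h3 := norm_sub_norm_le (JJ n0 ν (gg r • ν) 1 (uu r) pt)
    (JJ n0 ν (ξ r - (⟪ν, ξ r⟫_ℝ - gg r) • ν) 2 (uu r) pt)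
  rw [norm_sub_rev] at h3
  have h4 := inv.jump
  have hCJ := par.hCJ
  have hC6 := par.hC6
  have h5 := mul_le_mul_of_nonneg_left hBS hCJ.le
  have h6 := mul_le_mul_of_nonneg_right (P_quarter_succ (s := 1 / 4 + γ)
    (by linarith only [par.hγ]) r) hB
  have h7 := mul_le_mul_of_nonneg_left h6 (by positivity : 0 ≤ CJ * C6)
  rw [par.hC7e] at h4 ⊢
  linarith only [h1, h3, h4, h5, h7]

lemma next (hSD : StmtSD)
    (par : Par d R0 κ CS Cp Cm Ct CM CL CJ K γ c1 c20 C4 C5 C6 C7 κ')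
    (ctx : Ctx b ε R0 R L n0 κ c2 CS Cp Cm Ct CM CL CJ C0 Cf)
    (D : Data b ε R0 R CS L n uu ξ e K γ a B νs cs) (hB : 0 ≤ B) {τ : ℝ} (hτ0 : 0 ≤ τ)
    (hτ2 : τ ^ 2 * a = B) {ν : Sp d} (hν : ‖ν‖ = 1) {gg : ℕ → ℝ} {r : ℕ} {pt : Sp d}
    (hgg : gg (r + 1) = (gg r - ⟪ν, ξ r⟫_ℝ) / 2)
    (inv : Inv b ε R0 R L n0 n uu e νs cs γ c1 c20 C4 C7 a B τ ν gg r pt)
    (hG1 : P (3 / 8) (r + 1) * B ≤ κ' * a) (hpt : ⟪ν, pt⟫_ℝ = gg r) (hptR : ‖pt‖ ≤ R0 / 3) :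
    Inv b ε R0 R L n0 n uu e νs cs γ c1 c20 C4 C7 a B τ ν gg (r + 1)
      ((1 / 2 : ℝ) • (pt - ξ r)) := by
  have hG : P (3 / 8) r * B ≤ κ' * a :=
    (mul_le_mul_of_nonneg_right (P_mono (by norm_num) (by omega)) hB).trans hG1
  have hm := next_mass par ctx D hB hτ0 hτ2 hν inv hG hpt hptR
  exact ⟨hm, next_plane par ctx D hB hτ0 hτ2 hν hgg inv hG hG1 hm,
    next_jump hSD par ctx D hB hτ0 hτ2 hν hgg inv hG hptR⟩

/-- the induction -/
lemma induct (hSD : StmtSD)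
    (par : Par d R0 κ CS Cp Cm Ct CM CL CJ K γ c1 c20 C4 C5 C6 C7 κ')
    (ctx : Ctx b ε R0 R L n0 κ c2 CS Cp Cm Ct CM CL CJ C0 Cf)
    (D : Data b ε R0 R CS L n uu ξ e K γ a B νs cs) (hB : 0 ≤ B)
    (hm3 : c1 * a ≤ cI L (uu 3) (e 3) (zR (R0 / 4))) {gg : ℕ → ℝ}
    (hgg : ∀ r, gg (r + 1) = (gg r - ⟪νs 3, ξ r⟫_ℝ) / 2) (hgg3 : gg 3 = cs 3)
    {p : Sp d} (hp : ⟪νs 3, p⟫_ℝ = cs 3) (hpR : ‖p‖ ≤ R0 / 3)
    (hJ : c20 * a ≤ ‖JJ n0 (νs 3) (cs 3 • νs 3) 1 (uu 3) p‖) (k : ℕ)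
    (hG : P (3 / 8) (3 + k) * B ≤ κ' * a) :
    cB b ε R0 R L (n + (3 + k)) (uu (3 + k)) (e (3 + k)) (νs 3) (gg (3 + k)) ≤
      C6 * (P (1 / 4 + γ) (3 + k) * B) := by
  have ha := D.apos
  have hR0 := par.hR0
  have hsq := sqrt_le_eighth d
  have hd0 : (0 : ℝ) ≤ d := Nat.cast_nonneg _
  obtain ⟨τ, hτ0, hτ2⟩ : ∃ τ : ℝ, 0 ≤ τ ∧ τ ^ 2 * a = B := by
    refine ⟨Real.sqrt (B / a), Real.sqrt_nonneg _, ?_⟩
    rw [Real.sq_sqrt (by positivity)]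
    field_simp
  have hall : ∀ k, P (3 / 8) (3 + k) * B ≤ κ' * a → ∃ pt : Sp d, ⟪νs 3, pt⟫_ℝ = gg (3 + k) ∧
      ‖pt‖ ≤ R0 / 3 ∧
      Inv b ε R0 R L n0 n uu e νs cs γ c1 c20 C4 C7 a B τ (νs 3) gg (3 + k) pt := by
    intro k
    induction k with
    | zero =>
      intro _
      refine ⟨p, by rw [hp]; exact hgg3.symm, hpR, hm3, ⟨1, by norm_num, fun y => ?_⟩, ?_⟩
      · have e1 : ht (νs 3) (gg (3 + 0)) y - 1 * ht (νs (3 + 0)) (cs (3 + 0)) y = 0 := by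
          have : gg (3 + 0) = cs 3 := hgg3
          rw [this]
          simp
        rw [e1, abs_zero]
        have h1 := P_pos (1 / 8) (3 + 0)
        have h2 : 0 ≤ C4 := by rw [par.hC4e]; have := par.hC5; positivity
        positivity
      · have e1 : gg (3 + 0) = cs 3 := hgg3
        have hC70 : 0 < C7 := by
          rw [par.hC7e]; have := par.hCJ; have := par.hC6; positivity
        rw [e1]
        have h1 : 0 ≤ C7 * (P (1 / 4 + γ) (3 + 0) * B) := by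
          have := P_pos (1 / 4 + γ) (3 + 0)
          positivity
        have e2 : uu (3 + 0) = uu 3 := rfl
        rw [e2]
        linarith only [h1, hJ]
    | succ k ih =>
      intro hG1
      have hG : P (3 / 8) (3 + k) * B ≤ κ' * a :=
        (mul_le_mul_of_nonneg_right (P_mono (by norm_num) (by omega)) hB).trans hG1
      obtain ⟨pt, hpt, hptR, inv⟩ := ih hG
      refine ⟨(1 / 2 : ℝ) • (pt - ξ (3 + k)), ?_, ?_, ?_⟩
      · rw [inner_smul_right, inner_sub_right, hpt]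
        have := hgg (3 + k)
        have e1 : 3 + (k + 1) = 3 + k + 1 := rfl
        rw [e1, this]
        ring
      · rw [norm_smul]
        have h1 := norm_sub_le pt (ξ (3 + k))
        have h2 := D.chain.xi (3 + k)
        norm_num
        linarith
      · exact next hSD par ctx D hB hτ0 hτ2 (D.nu 3) (hgg (3 + k)) inv hG1 hpt hptR
  obtain ⟨pt, -, -, inv⟩ := hall k hG
  exact (cons par ctx D hB hτ0 hτ2 (D.nu 3) inv hG).2.2

end Ind

end CM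

end

end TG


end

section

/-!
# Trace inequality, module CM, part 4: the statement in the frames
-/

set_option autoImplicit false
set_option linter.unusedSectionVars false

open MeasureTheory Metric Set TrI
open scoped InnerProductSpace ContDiff

namespace TG

noncomputable section

namespace CM

variable {d : ℕ} {V E : Type} [NormedAddCommGroup V] [InnerProductSpace ℝ V]
  [FiniteDimensional ℝ V] [NormedAddCommGroup E] [InnerProductSpace ℝ E] [FiniteDimensional ℝ E]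

variable {b : Sp d → ℝ} {ε R0 R : ℝ} {L : (Sp d →L[ℝ] V) →L[ℝ] E} {n0 n : ℕ}
  {κ c2 CS Cp Cm Ct CM CL CJ C0 Cf K γ a B : ℝ}
  {uu : ℕ → Sp d → V} {ξ : ℕ → Sp d} {e : ℕ → E} {νs : ℕ → Sp d} {cs : ℕ → ℝ}

lemma P_le_two {s : ℝ} {r : ℕ} (h : s * r ≤ 1) : P s r ≤ 2 := by
  unfold P
  calc (2 : ℝ) ^ (s * (r : ℝ)) ≤ 2 ^ (1 : ℝ) :=
        Real.rpow_le_rpow_of_exponent_le (by norm_num) h
    _ = 2 := Real.rpow_one 2

lemma P_le_four {s : ℝ} {r : ℕ} (h : s * r ≤ 2) : P s r ≤ 4 := by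
  unfold P
  calc (2 : ℝ) ^ (s * (r : ℝ)) ≤ 2 ^ (2 : ℝ) :=
        Real.rpow_le_rpow_of_exponent_le (by norm_num) h
    _ = 4 := by norm_num

/-- the far bound -/
lemma farb (D : Data b ε R0 R CS L n uu ξ e K γ a B νs cs) (hB : 0 ≤ B) (hK : 1 ≤ K)
    (hγ : 0 < γ) (hγ1 : γ ≤ 1 / 32) (hCS : 0 < CS) {κ1 : ℝ} (hκ1 : 0 < κ1) {ν : Sp d}
    (hν : ‖ν‖ = 1) {g : ℝ} (hg : |g| ≤ 4 * R0) {r : ℕ} (hG : κ1 * a ≤ P (3 / 8) r * B) :
    cB b ε R0 R L (n + r) (uu r) (e r) ν g ≤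
      (2 * CS * K / κ1 + 3 * CS + 1) * (P (3 / 8 + γ) r * B) := by
  have hK0 : 0 < K := by linarith
  have ha := D.apos
  have ch := D.chain
  rw [cB_eq]
  have h1 := (ch.step r).far ν g hν hg
  rw [← ch.zoom r] at h1
  have h2 := D.growth (r + 1)
  have h3 := D.Ds_le hB r
  have h4 := D.D_le r
  have e1 : cD b ε R L (n + r + 1) (uu (r + 1)) (e (r + 1)) =
    cD b ε R L (n + (r + 1)) (uu (r + 1)) (e (r + 1)) := rfl
  have e2 : cA b ε R0 L (n + r + 1) (uu (r + 1)) = cA b ε R0 L (n + (r + 1)) (uu (r + 1)) := rfl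
  rw [e1, e2] at h1
  have h5 : K * P γ (r + 1) * a ≤ 2 * K * P γ r * a := by
    have h6 := mul_le_mul_of_nonneg_left (P_succ_le (by linarith : γ ≤ 1) r)
      (by positivity : 0 ≤ K * a)
    linarith only [h6]
  have h6 : a ≤ P (3 / 8) r * B / κ1 := by
    rw [le_div_iff₀ hκ1]
    linarith only [hG]
  have hPγ := P_pos γ r
  have h7 : 2 * K * P γ r * a ≤ 2 * K / κ1 * (P (3 / 8 + γ) r * B) := by
    have h8 := mul_le_mul_of_nonneg_left h6 (by positivity : 0 ≤ 2 * K * P γ r)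
    refine h8.trans (le_of_eq ?_)
    rw [← P_mul]
    field_simp
  have h8 : P (1 / 4) r * B ≤ P (3 / 8 + γ) r * B :=
    mul_le_mul_of_nonneg_right (P_le (by linarith) r) hB
  have h9 : cA b ε R0 L (n + (r + 1)) (uu (r + 1)) + cD b ε R L (n + r) (uu r) (e r) +
      cD b ε R L (n + (r + 1)) (uu (r + 1)) (e (r + 1)) ≤
      2 * K / κ1 * (P (3 / 8 + γ) r * B) + 3 * (P (3 / 8 + γ) r * B) := by
    linarith only [h2, h3, h5, h7, h8]
  have h10 := mul_le_mul_of_nonneg_left h9 hCS.le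
  have h11 : CS * (2 * K / κ1 * (P (3 / 8 + γ) r * B) + 3 * (P (3 / 8 + γ) r * B)) =
      (2 * CS * K / κ1 + 3 * CS) * (P (3 / 8 + γ) r * B) := by ring
  linarith only [h1, h10, h11, h4, h8]

/-- the mass at level 3 -/
lemma level3 (ctx : Ctx b ε R0 R L n0 κ c2 CS Cp Cm Ct CM CL CJ C0 Cf)
    (D : Data b ε R0 R CS L n uu ξ e K γ a B νs cs) (hB : 0 ≤ B) (hCt : 0 < Ct) (hC0 : 0 < C0)
    (hR0 : 200 + 8 * d ≤ R0) {ρ : ℝ} (hρ : R0 / 7 ≤ ρ) (hρ2 : ρ ≤ R0) :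
    a ≤ Ct ^ 3 * max 0 (cI L (uu 3) (e 3) (zR ρ)) +
      (2 * C0 + 4 * Ct + 4 * Ct ^ 2 + 4 * Ct ^ 3) * B := by
  have ch := D.chain
  have hsq := sqrt_le_eighth d
  have hsq0 : 0 ≤ Real.sqrt d := Real.sqrt_nonneg _
  have hd0 : (0 : ℝ) ≤ d := Nat.cast_nonneg _
  have hD : ∀ r, r ≤ 3 → cD b ε R L (n + r) (uu r) (e r) ≤ 2 * B := by
    intro r hr
    refine (D.D_le r).trans (mul_le_mul_of_nonneg_right (P_le_two ?_) hB)
    have : (r : ℝ) ≤ 3 := by exact_mod_cast hr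
    linarith only [this]
  have htr : ∀ (r : ℕ), r ≤ 2 → ∀ (ρ ρ' : ℝ), 1 ≤ ρ → 1 ≤ ρ' → ρ' ≤ R0 → ρ + 1 ≤ 4 * R0 →
      (ρ + 1 + Real.sqrt d) / 2 ≤ ρ' →
      max 0 (cI L (uu r) (e r) (zR ρ)) ≤
        Ct * (max 0 (cI L (uu (r + 1)) (e (r + 1)) (zR ρ')) + 4 * B) := by
    intro r hr ρ ρ' h1 h2 h3 h4 h5
    have h6 := ctx.transfer (n + r) (uu r) (ch.tf r) (ξ r) (e r) (e (r + 1)) (ch.xi r)
      (ch.unit r) (ch.unit (r + 1)) (ch.step r) 0 ρ ρ' h1 h2 h3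
      (by rw [norm_zero]; linarith) (by rw [norm_zero]; linarith only [h5])
    simp only [sub_zero] at h6
    rw [← ch.zoom r] at h6
    have h7 := hD r (by omega)
    have h8 := hD (r + 1) (by omega)
    have e1 : cD b ε R L (n + r + 1) (uu (r + 1)) (e (r + 1)) =
      cD b ε R L (n + (r + 1)) (uu (r + 1)) (e (r + 1)) := rfl
    rw [e1] at h6
    have h9 : 0 ≤ max 0 (cI L (uu (r + 1)) (e (r + 1)) (zR ρ')) := le_max_left _ _
    refine max_le (by positivity) (h6.trans (mul_le_mul_of_nonneg_left ?_ hCt.le))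
    linarith
  have h0 := ctx.mass0 n (uu 0) (ch.tf 0) (e 0) (ch.unit 0)
  rw [← D.aeq] at h0
  have h0D : cD b ε R L n (uu 0) (e 0) ≤ 2 * B := hD 0 (by norm_num)
  have h1 := htr 0 (by norm_num) (R0 + 2) ((R0 + 3 + Real.sqrt d) / 2) (by linarith)
    (by linarith) (by linarith) (by linarith) (by linarith)
  have h2 := htr 1 (by norm_num) ((R0 + 3 + Real.sqrt d) / 2)
    (((R0 + 3 + Real.sqrt d) / 2 + 1 + Real.sqrt d) / 2) (by linarith)
    (by linarith) (by linarith) (by linarith) le_rfl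
  have h3 := htr 2 (by norm_num) (((R0 + 3 + Real.sqrt d) / 2 + 1 + Real.sqrt d) / 2) ρ
    (by linarith) (by linarith) hρ2 (by linarith) (by linarith)
  norm_num only at h1 h2 h3
  have h4 := mul_le_mul_of_nonneg_left h3 hCt.le
  have h5 : Ct * (max 0 (cI L (uu 2) (e 2)
      (zR (((R0 + 3 + Real.sqrt d) / 2 + 1 + Real.sqrt d) / 2))) + 4 * B) ≤
      Ct * (Ct * (max 0 (cI L (uu 3) (e 3) (zR ρ)) + 4 * B) + 4 * B) :=
    mul_le_mul_of_nonneg_left (by linarith only [h3]) hCt.le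
  have h6 : Ct * (max 0 (cI L (uu 1) (e 1) (zR ((R0 + 3 + Real.sqrt d) / 2))) + 4 * B) ≤
      Ct * (Ct * (Ct * (max 0 (cI L (uu 3) (e 3) (zR ρ)) + 4 * B) + 4 * B) + 4 * B) :=
    mul_le_mul_of_nonneg_left (by linarith only [h2, h5]) hCt.le
  have h7 := le_max_right 0 (cI L (uu 0) (e 0) (zR (R0 + 2)))
  have h8 := mul_le_mul_of_nonneg_left h0D hC0.le
  have h9 : Ct * (Ct * (Ct * (max 0 (cI L (uu 3) (e 3) (zR ρ)) + 4 * B) + 4 * B) + 4 * B) =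
    Ct ^ 3 * max 0 (cI L (uu 3) (e 3) (zR ρ)) + (4 * Ct + 4 * Ct ^ 2 + 4 * Ct ^ 3) * B := by ring
  linarith only [h0, h1, h6, h7, h8, h9]

/-- the offset sequence of a plane -/
def offs (ν : Sp d) (ξ : ℕ → Sp d) (g0 : ℝ) : ℕ → ℝ
  | 0 => g0
  | r + 1 => (offs ν ξ g0 r - ⟪ν, ξ r⟫_ℝ) / 2

lemma offs_le {ν : Sp d} (hν : ‖ν‖ = 1) {ξ : ℕ → Sp d} (hξ : ∀ r, ‖ξ r‖ ≤ Real.sqrt d) {A : ℝ}
    (hA : Real.sqrt d ≤ A) {g0 : ℝ} (h0 : |g0| ≤ A) (r : ℕ) : |offs ν ξ g0 r| ≤ A := by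
  induction r with
  | zero => exact h0
  | succ r ih =>
    unfold offs
    rw [abs_div, abs_of_pos (by norm_num : (0 : ℝ) < 2)]
    have h1 := abs_real_inner_le_norm ν (ξ r)
    rw [hν, one_mul] at h1
    have h2 := abs_sub (offs ν ξ g0 r) ⟪ν, ξ r⟫_ℝ
    have h3 := hξ r
    linarith

/-- the constant in the bound of the low levels -/
lemma low_levels (D : Data b ε R0 R CS L n uu ξ e K γ a B νs cs) (hB : 0 ≤ B) (hCS : 0 < CS)
    {ν : Sp d} (hν : ‖ν‖ = 1) {g : ℕ → ℝ} (hg : ∀ r, g (r + 1) = (g r - ⟪ν, ξ r⟫_ℝ) / 2)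
    (hgb : ∀ r, |g r| ≤ 4 * R0) {Z : ℝ}
    (h3 : cB b ε R0 R L (n + 3) (uu 3) (e 3) ν (g 3) ≤ Z * B) :
    cB b ε R0 R L (n + 2) (uu 2) (e 2) ν (g 2) ≤ CS * (Z + 2) * B ∧
    cB b ε R0 R L (n + 1) (uu 1) (e 1) ν (g 1) ≤ CS * (CS * (Z + 2) + 2) * B ∧
    cB b ε R0 R L n (uu 0) (e 0) ν (g 0) ≤ CS * (CS * (CS * (Z + 2) + 2) + 2) * B := by
  have ch := D.chain
  have hD : ∀ r, r ≤ 3 → cD b ε R L (n + r) (uu r) (e r) ≤ 2 * B := by
    intro r hr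
    refine (D.D_le r).trans (mul_le_mul_of_nonneg_right (P_le_two ?_) hB)
    have : (r : ℝ) ≤ 3 := by exact_mod_cast hr
    linarith
  have hst : ∀ (r : ℕ) (Z : ℝ), r ≤ 3 →
      cB b ε R0 R L (n + (r + 1)) (uu (r + 1)) (e (r + 1)) ν (g (r + 1)) ≤ Z * B →
      cB b ε R0 R L (n + r) (uu r) (e r) ν (g r) ≤ CS * (Z + 2) * B := by
    intro r Z hr h
    have h1 := (ch.step r).bstep ν (g r) hν (hgb r)
    rw [← ch.zoom r, ← hg r] at h1
    have e1 : cB b ε R0 R L (n + r + 1) (uu (r + 1)) (e (r + 1)) ν (g (r + 1)) =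
      cB b ε R0 R L (n + (r + 1)) (uu (r + 1)) (e (r + 1)) ν (g (r + 1)) := rfl
    rw [e1] at h1
    have h2 := mul_le_mul_of_nonneg_left (add_le_add h (hD r hr)) hCS.le
    linarith only [h1, h2]
  have h2 := hst 2 _ (by norm_num) h3
  have h1 := hst 1 _ (by norm_num) h2
  have h0 := hst 0 _ (by norm_num) h1
  exact ⟨h2, h1, h0⟩

theorem frameCM (hNS' : TrI.StmtNS) (hSHB : StmtSHB) (hPL : StmtPL) (hSM : StmtSM)
    (hJC : StmtJC) (hZ : StmtZ) (hMA : StmtMA) (hTW : StmtTW) (hSC : StmtSC) (hSD : StmtSD)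
    (hd : 2 ≤ d) (hL : CEll L) {M c0 : ℝ} (hε : 0 < ε) (hε1 : ε ≤ 1) (hb : BaseKer 2 M c0 b)
    (hR0 : 200 + 8 * d ≤ R0) (hγ : 0 < γ) (hγ1 : γ ≤ 1 / 32) (hK : 1 ≤ K) :
    FrameCM b ε R0 K γ L := by
  obtain ⟨n0, T, hn0, hNS⟩ := hNS' d V E L hL
  obtain ⟨κ, c2, CS, Cp, Cm, Ct, CM, CL, CJ, C0, Cf, hκ, hc2, hCS, hCp, hCm, hCt, hCM, hCL, hCJ,
    hC0, hCf, hctx⟩ := exists_ctx hSHB hPL hSM hJC hZ hMA hTW hSC hSD hd hε hε1 hb hL hn0 hNS hR0
  have hK0 : 0 < K := by linarith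
  have hsq := sqrt_le_eighth d
  have hd0 : (0 : ℝ) ≤ d := Nat.cast_nonneg _
  obtain ⟨c10, hc10⟩ : ∃ c : ℝ, c = 1 / (2 * Ct ^ 3) := ⟨_, rfl⟩
  have hc100 : 0 < c10 := by rw [hc10]; positivity
  obtain ⟨c20, hc20⟩ : ∃ c : ℝ, c = c2 * c10 := ⟨_, rfl⟩
  have hc200 : 0 < c20 := by rw [hc20]; positivity
  obtain ⟨c1, C4, C5, C6, C7, κ', hc1, par⟩ := exists_par hd hR0 hκ hCS hCp hCm hCt hCM hCL hCJ
    hK hγ hγ1 hc100 hc200
  have hC6 := par.hC6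
  obtain ⟨Z, hZe⟩ : ∃ Z : ℝ, Z = 2 * C6 := ⟨_, rfl⟩
  have hZ0 : 0 < Z := by rw [hZe]; positivity
  obtain ⟨CC, hCC⟩ : ∃ CC : ℝ, CC = 2 * C0 + 4 * Ct + 4 * Ct ^ 2 + 4 * Ct ^ 3 := ⟨_, rfl⟩
  obtain ⟨κF, hκF, hk⟩ := exists_small [(1, κ'), (CC, 1 / 2), (1, κ * c10), (K, κ * c10 ^ 2),
    (Cf * (CS * (CS * (Z + 2) + 2) + 2), 1 / 2)] (by
      intro q hq
      simp only [List.mem_cons, List.not_mem_nil, or_false] at hq
      rcases hq with h | h | h | h | h <;> (subst h; simp only)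
      · exact par.hκ'
      · norm_num
      · positivity
      · positivity
      · norm_num)
  have s0 := hk (1, κ') (by simp)
  have s1 := hk (CC, 1 / 2) (by simp)
  have s2 := hk (1, κ * c10) (by simp)
  have s3 := hk (K, κ * c10 ^ 2) (by simp)
  have s4 := hk (Cf * (CS * (CS * (Z + 2) + 2) + 2), 1 / 2) (by simp)
  simp only at s0 s1 s2 s3 s4
  clear hk
  obtain ⟨X1, hX1⟩ : ∃ X : ℝ, X = 2 * CS * K / (κF / 4) + 3 * CS + 1 := ⟨_, rfl⟩
  obtain ⟨X2, hX2⟩ : ∃ X : ℝ, X = CS * (Z + 2) := ⟨_, rfl⟩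
  obtain ⟨X3, hX3⟩ : ∃ X : ℝ, X = CS * (CS * (Z + 2) + 2) := ⟨_, rfl⟩
  obtain ⟨X4, hX4⟩ : ∃ X : ℝ, X = CS * (CS * (CS * (Z + 2) + 2) + 2) := ⟨_, rfl⟩
  have hX10 : 0 < X1 := by rw [hX1]; positivity
  have hX20 : 0 < X2 := by rw [hX2]; positivity
  have hX30 : 0 < X3 := by rw [hX3]; positivity
  have hX40 : 0 < X4 := by rw [hX4]; positivity
  refine ⟨C6 + X1 + X2 + X3 + X4, by positivity, ?_⟩
  intro R hR n uu ξ e htf hzoom hxi hunit a ha haeq hgrow νs cs B hνs hcs hB hsmall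
  obtain ⟨ctx, hstep⟩ := hctx R hR
  have ch : Chain b ε R0 R CS L n uu ξ e :=
    ⟨htf, hzoom, hxi, hunit, fun r => hstep (n + r) (uu r) (htf r) (ξ r) (e r) (e (r + 1)) (hxi r)
      (hunit r) (hunit (r + 1))⟩
  have D : Data b ε R0 R CS L n uu ξ e K γ a B νs cs :=
    ⟨ch, ha, haeq, hgrow, hνs, hcs, hsmall⟩
  have hPB : ∀ r, 0 ≤ P (3 / 8 + γ) r * B := fun r => mul_nonneg (P_pos _ _).le hB
  have hBle : ∀ r, B ≤ P (3 / 8 + γ) r * B := fun r =>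
    le_mul_of_one_le_left hB (one_le_P (by linarith only [hγ]) r)
  by_cases hG3 : P (3 / 8) 3 * B ≤ κF * a
  swap
  · -- case 1
    push Not at hG3
    refine ⟨νs 0, offs (νs 0) ξ 0, hνs 0, ?_, fun r => rfl, fun r => ?_⟩
    · change |(0 : ℝ)| ≤ R0 + 3
      rw [abs_zero]
      linarith
    · have h4 : P (3 / 8) 3 ≤ 4 := P_le_four (by norm_num)
      have h5 : κF / 4 * a ≤ P (3 / 8) r * B := by
        have h6 := mul_le_mul_of_nonneg_right h4 hB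
        have h7 : B ≤ P (3 / 8) r * B := le_mul_of_one_le_left hB (one_le_P (by norm_num) r)
        linarith only [hG3, h6, h7]
      have h6 := farb D hB hK hγ hγ1 hCS (by positivity : 0 < κF / 4) (hνs 0)
        (g := offs (νs 0) ξ 0 r)
        (offs_le (hνs 0) hxi (by linarith) (by rw [abs_zero]; linarith only [hR0]) r) h5
      rw [← hX1] at h6
      refine h6.trans (mul_le_mul_of_nonneg_right ?_ (hPB r))
      linarith only [hC6, hX10, hX20, hX30, hX40]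
  -- case 2
  have hP3 : 1 ≤ P (3 / 8) 3 := one_le_P (by norm_num) 3
  have hBa : B ≤ κF * a := (le_mul_of_one_le_left hB hP3).trans hG3
  have hm : ∀ ρ, R0 / 7 ≤ ρ → ρ ≤ R0 → c10 * a ≤ cI L (uu 3) (e 3) (zR ρ) := by
    intro ρ h1 h2
    have h3 := level3 ctx D hB hCt hC0 hR0 h1 h2
    rw [← hCC] at h3
    have hCC0 : 0 < CC := by rw [hCC]; positivity
    have h4 : CC * B ≤ a / 2 := by
      have h5 := mul_le_mul_of_nonneg_left hBa hCC0.le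
      have h6 := mul_le_mul_of_nonneg_right s1 ha.le
      linarith only [h5, h6]
    have h5 : a / 2 ≤ Ct ^ 3 * max 0 (cI L (uu 3) (e 3) (zR ρ)) := by linarith only [h3, h4]
    have h6 : c10 * a ≤ max 0 (cI L (uu 3) (e 3) (zR ρ)) := by
      have h7 : Ct ^ 3 * (c10 * a) = a / 2 := by rw [hc10]; field_simp
      rw [← h7] at h5
      exact le_of_mul_le_mul_left h5 (by positivity)
    rcases max_choice 0 (cI L (uu 3) (e 3) (zR ρ)) with h8 | h8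
    · rw [h8] at h6
      have : 0 < c10 * a := by positivity
      linarith only [h6, this]
    · rwa [h8] at h6
  have hP14 : P (1 / 4) 3 * B ≤ κF * a :=
    (mul_le_mul_of_nonneg_right (P_le (by norm_num) 3) hB).trans hG3
  have hs2a := mul_le_mul_of_nonneg_right s2 ha.le
  have hB3 : cB b ε R0 R L (n + 3) (uu 3) (e 3) (νs 3) (cs 3) ≤ κ * (c10 * a) := by
    refine (hsmall 3).trans (hP14.trans ?_)
    linarith only [hs2a]
  have hcs3 : |cs 3| ≤ R0 / 7 + 2 := by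
    refine ctx.center (n + 3) (uu 3) (htf 3) (e 3) (hunit 3) (νs 3) (cs 3) (hνs 3) (hcs 3)
      (R0 / 7) (by linarith) (by linarith) (c10 * a) (by positivity)
      (hm (R0 / 7) le_rfl (by linarith)) hB3
  have hAB3 : cA b ε R0 L (n + 3) (uu 3) * cB b ε R0 R L (n + 3) (uu 3) (e 3) (νs 3) (cs 3) ≤
      κ * (c10 * a) ^ 2 := by
    have h1 := D.AB (κ' := κF) (X := cB b ε R0 R L (n + 3) (uu 3) (e 3) (νs 3) (cs 3)) (Y := 1)
      hB hK hγ1 3 (cB_nonneg _ _ _ _ _ _ _ (hunit 3) _ _)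
      (by
        rw [one_mul]
        exact (hsmall 3).trans (mul_le_mul_of_nonneg_right (P_le (by linarith only [hγ]) 3) hB))
      one_pos.le hG3
    refine h1.trans ?_
    have := mul_le_mul_of_nonneg_right s3 (by positivity : 0 ≤ a ^ 2)
    linarith only [this]
  obtain ⟨p, hp, hpR, hpJ⟩ := ctx.base (n + 3) (uu 3) (htf 3) (e 3) (hunit 3) (νs 3) (cs 3)
    (hνs 3) hcs3 (c10 * a) (by positivity) (hm (R0 / 7) le_rfl (by linarith only [hR0])) hB3 hAB3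
  -- the offsets
  have hi : ∀ r, |⟪νs 3, ξ r⟫_ℝ| ≤ Real.sqrt d := by
    intro r
    have h1 := abs_real_inner_le_norm (νs 3) (ξ r)
    rw [hνs 3, one_mul] at h1
    exact h1.trans (hxi r)
  obtain ⟨g0, hg0⟩ : ∃ g0 : ℝ, g0 = 8 * cs 3 + 4 * ⟪νs 3, ξ 2⟫_ℝ + 2 * ⟪νs 3, ξ 1⟫_ℝ +
    ⟪νs 3, ξ 0⟫_ℝ := ⟨_, rfl⟩
  have hg0b : |g0| ≤ 4 * R0 := by
    have h1 := abs_le.mp (hi 0)
    have h2 := abs_le.mp (hi 1)
    have h3 := abs_le.mp (hi 2)
    have h4 := abs_le.mp hcs3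
    rw [hg0, abs_le]
    constructor <;> (first | linarith only [hR0, hsq, h1, h2, h3, h4] | linarith [h1.1, h1.2, h2.1, h2.2, h3.1, h3.2, h4.1, h4.2])
  set g := offs (νs 3) ξ g0 with hg
  have hgg : ∀ r, g (r + 1) = (g r - ⟪νs 3, ξ r⟫_ℝ) / 2 := fun r => rfl
  have hg3 : g 3 = cs 3 := by
    have e0 : g 0 = g0 := rfl
    rw [hgg 2, hgg 1, hgg 0, e0, hg0]
    ring
  have hgb : ∀ r, |g r| ≤ 4 * R0 := fun r => offs_le (hνs 3) hxi (by linarith only [hR0, hsq]) hg0b r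
  have hind : ∀ k, P (3 / 8) (3 + k) * B ≤ κ' * a →
      cB b ε R0 R L (n + (3 + k)) (uu (3 + k)) (e (3 + k)) (νs 3) (g (3 + k)) ≤
      C6 * (P (1 / 4 + γ) (3 + k) * B) := by
    intro k hk
    refine induct hSD par ctx D hB ?_ hgg hg3 hp hpR ?_ k hk
    · exact (mul_le_mul_of_nonneg_right hc1 ha.le).trans (hm (R0 / 4) (by linarith only [hR0]) (by linarith only [hR0]))
    · rw [hc20]
      linarith only [hpJ]
  have hκFκ' : κF * a ≤ κ' * a := by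
    have := mul_le_mul_of_nonneg_right s0 ha.le
    linarith only [this]
  have h3Z : cB b ε R0 R L (n + 3) (uu 3) (e 3) (νs 3) (g 3) ≤ Z * B := by
    have h1 := hind 0 (hG3.trans hκFκ')
    have h2 : P (1 / 4 + γ) (3 + 0) ≤ 2 := P_le_two (by push_cast; linarith only [hγ1])
    have h3 := mul_le_mul_of_nonneg_right h2 hB
    have h4 := mul_le_mul_of_nonneg_left h3 hC6.le
    rw [hZe]
    refine h1.trans ?_
    linarith only [h4]
  obtain ⟨hl2, hl1, hl0⟩ := low_levels D hB hCS (hνs 3) hgg hgb h3Z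
  rw [← hX2] at hl2
  rw [← hX3] at hl1
  rw [← hX4] at hl0
  refine ⟨νs 3, g, hνs 3, ?_, hgg, ?_⟩
  · -- the offset at level 0
    by_contra hcon
    push Not at hcon
    have h1 := ctx.far0 n (uu 0) (htf 0) (ξ 0) (e 0) (e 1) (hxi 0) (hunit 0) (hunit 1)
      (ch.step 0) (νs 3) (g 0) (hνs 3) hcon (hgb 0)
    rw [← haeq, ← hgg 0, ← hzoom 0] at h1
    have h2 : cD b ε R L n (uu 0) (e 0) ≤ 2 * B := by
      have h3 := D.D_le 0
      have h4 := mul_le_mul_of_nonneg_right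
        (P_le_two (s := 1 / 4) (r := 0) (by norm_num)) hB
      exact h3.trans h4
    have h3 : cB b ε R0 R L (n + 1) (uu 1) (e 1) (νs 3) (g 1) + cD b ε R L n (uu 0) (e 0) ≤
        (X3 + 2) * B := by linarith only [hl1, h2]
    have h4 := mul_le_mul_of_nonneg_left h3 hCf.le
    have h5 := mul_le_mul_of_nonneg_left hBa (by positivity : 0 ≤ Cf * (X3 + 2))
    rw [← hX3] at s4
    have h6 := mul_le_mul_of_nonneg_right s4 ha.le
    have h7 : a ≤ Cf * (cB b ε R0 R L (n + 1) (uu 1) (e 1) (νs 3) (g 1) +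
      cD b ε R L n (uu 0) (e 0)) := h1
    linarith only [h4, h5, h6, h7, ha]
  · intro r
    have hsum : ∀ X : ℝ, X ≤ C6 + X1 + X2 + X3 + X4 → ∀ r,
        X * (P (3 / 8 + γ) r * B) ≤ (C6 + X1 + X2 + X3 + X4) * (P (3 / 8 + γ) r * B) :=
      fun X hX r => mul_le_mul_of_nonneg_right hX (hPB r)
    rcases Nat.lt_or_ge r 3 with hr | hr
    · have hr' : r = 0 ∨ r = 1 ∨ r = 2 := by omega
      rcases hr' with h | h | h
      · subst h
        have h1 := mul_le_mul_of_nonneg_left (hBle 0) hX40.le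
        exact (hl0.trans h1).trans (hsum X4 (by linarith only [hC6, hX10, hX20, hX30, hX40]) 0)
      · subst h
        have h1 := mul_le_mul_of_nonneg_left (hBle 1) hX30.le
        exact (hl1.trans h1).trans (hsum X3 (by linarith only [hC6, hX10, hX20, hX30, hX40]) 1)
      · subst h
        have h1 := mul_le_mul_of_nonneg_left (hBle 2) hX20.le
        exact (hl2.trans h1).trans (hsum X2 (by linarith only [hC6, hX10, hX20, hX30, hX40]) 2)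
    · obtain ⟨k, rfl⟩ := Nat.exists_eq_add_of_le hr
      by_cases hG : P (3 / 8) (3 + k) * B ≤ κF * a
      · have h1 := hind k (hG.trans hκFκ')
        have h2 : C6 * (P (1 / 4 + γ) (3 + k) * B) ≤ C6 * (P (3 / 8 + γ) (3 + k) * B) :=
          mul_le_mul_of_nonneg_left (mul_le_mul_of_nonneg_right (P_le (by linarith only []) _) hB) hC6.le
        exact (h1.trans h2).trans (hsum C6 (by linarith only [hC6, hX10, hX20, hX30, hX40]) _)
      · push Not at hG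
        have h5 : κF / 4 * a ≤ P (3 / 8) (3 + k) * B := by
          have : 0 < κF * a := by positivity
          linarith only [hG, this]
        have h6 := farb D hB hK hγ hγ1 hCS (by positivity : 0 < κF / 4) (hνs 3)
          (hgb (3 + k)) h5
        rw [← hX1] at h6
        exact h6.trans (hsum X1 (by linarith only [hC6, hX10, hX20, hX30, hX40]) _)

end CM

end

end TG


end

section

/-!
# Trace inequality, module CM, part 5: from the frames to the statement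

Mathematics: helper42 (module CM).
-/

set_option autoImplicit false
set_option linter.unusedSectionVars false

open MeasureTheory Metric Set TrI
open scoped InnerProductSpace ContDiff

namespace TG

noncomputable section

namespace CM

variable {d : ℕ} {V E : Type} [NormedAddCommGroup V] [InnerProductSpace ℝ V]
  [FiniteDimensional ℝ V] [NormedAddCommGroup E] [InnerProductSpace ℝ E] [FiniteDimensional ℝ E]

/-- the function in the frame of the cell with centre x and scale 2^r -/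
def fr (x : Sp d) (r : ℕ) (u : Sp d → V) : Sp d → V := fun y => u (x + ((2 : ℝ) ^ r) • y)

variable {L : (Sp d →L[ℝ] V) →L[ℝ] E} {b : Sp d → ℝ}

lemma half_div_pow (n r : ℕ) : ((1 / 2 : ℝ) ^ n) / 2 ^ r = (1 / 2) ^ (n + r) := by
  rw [pow_add, div_eq_mul_inv, ← inv_pow]
  norm_num

lemma TF_fr (hSC : StmtSC) (hd : 2 ≤ d) {u : Sp d → V} (hu : TF u) (x : Sp d) (r : ℕ) :
    TF (fr x r u) :=
  ((hSC d hd 1 one_pos x (2 ^ r) (by positivity)).2.2 V V (L := 0) u hu).1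

lemma fr_D (hSC : StmtSC) (hd : 2 ≤ d) {M c0 ε : ℝ} (hb : BaseKer 2 M c0 b) (hε : 0 < ε)
    (hε1 : ε ≤ 1) (R : ℝ) (n r : ℕ) {u : Sp d → V} (hu : TF u) (x : Sp d) (e : E) :
    DD b ε R ((1 / 2) ^ n) (fo L u) (n + r) x e = cD b ε R L (n + r) (fr x r u) e := by
  obtain ⟨-, h1, h2⟩ := hSC d hd 1 one_pos x (2 ^ r) (by positivity)
  have h3 := (h2 V E L u hu).2
  have h4 := (h1 E M c0 b hb ε hε hε1 (fo L u) (fo_cont hu) (fo_cs hu) ((1 / 2) ^ n)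
    (by positivity)).2.1 R (n + r) 0 e
  rw [half_div_pow, ← h3, smul_zero, add_zero] at h4
  exact h4.symm

lemma fr_A (hSC : StmtSC) (hd : 2 ≤ d) {M c0 ε : ℝ} (hb : BaseKer 2 M c0 b) (hε : 0 < ε)
    (hε1 : ε ≤ 1) (R : ℝ) (n r : ℕ) {u : Sp d → V} (hu : TF u) (x : Sp d) :
    ma b ε R ((1 / 2) ^ n) (fo L u) (n + r) x = cA b ε R L (n + r) (fr x r u) := by
  obtain ⟨-, h1, h2⟩ := hSC d hd 1 one_pos x (2 ^ r) (by positivity)
  have h3 := (h2 V E L u hu).2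
  have h4 := (h1 E M c0 b hb ε hε hε1 (fo L u) (fo_cont hu) (fo_cs hu) ((1 / 2) ^ n)
    (by positivity)).2.2 R (n + r) 0
  rw [half_div_pow, ← h3, smul_zero, add_zero] at h4
  exact h4.symm

lemma fr_B (hSC : StmtSC) (hSD : StmtSD) (hd : 2 ≤ d) {M c0 ε : ℝ} (hb : BaseKer 2 M c0 b)
    (hε : 0 < ε) (hε1 : ε ≤ 1) (R0 R : ℝ) (n r : ℕ) {u : Sp d → V} (hu : TF u) (x : Sp d) (e : E)
    (ν : Sp d) (c : ℝ) :
    bD b ε R0 R ((1 / 2) ^ n) (fo L u) (n + r) x e ν c =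
      cB b ε R0 R L (n + r) (fr x r u) e ν ((c - ⟪ν, x⟫_ℝ) / 2 ^ r) := by
  unfold cB bD
  have h1 := fr_D (L := L) hSC hd hb hε hε1 R n r hu x e
  unfold cD at h1
  rw [h1]
  congr 2
  have h3 := ((hSC d hd 1 one_pos x (2 ^ r) (by positivity)).2.2 V E L u hu).2
  have h4 := hSD.2 d E (fo L u) (by omega) (fo_cont hu) (fo_cs hu) x (2 ^ r) (by positivity) R0
    ((1 / 2) ^ n) (n + r) 0 e ν ((c - ⟪ν, x⟫_ℝ) / 2 ^ r) (by positivity)
  rw [half_div_pow, ← h3, smul_zero, add_zero] at h4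
  have h5 : 2 ^ r * ((c - ⟪ν, x⟫_ℝ) / 2 ^ r) + ⟪ν, x⟫_ℝ = c := by
    field_simp
    ring
  rw [h5] at h4
  exact h4.symm

lemma fr_succ (x : ℕ → Sp d) (u : Sp d → V) (r : ℕ) :
    fr (x (r + 1)) (r + 1) u = zm (((2 : ℝ) ^ r)⁻¹ • (x (r + 1) - x r)) (fr (x r) r u) := by
  funext y
  unfold zm fr
  congr 1
  rw [smul_add, smul_smul, mul_inv_cancel₀ (by positivity), one_smul, smul_smul, ← pow_succ]
  abel

lemma wq_eq (q : ℝ) (r : ℕ) : wq q r = P (-q) r := by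
  unfold wq P
  rw [neg_mul]

lemma P_nat (s : ℝ) (r : ℕ) : P s r = P s 1 ^ r := by
  unfold P
  rw [← Real.rpow_natCast, ← Real.rpow_mul (by norm_num)]
  simp

/-- the geometric sum -/
lemma sum_P_le {s : ℝ} (hs : s < 0) (I : ℕ) :
    ∑ r ∈ Finset.range I, P s r ≤ (1 - P s 1)⁻¹ := by
  have h0 : 0 ≤ P s 1 := (P_pos s 1).le
  have h1 : P s 1 < 1 := by
    unfold P
    exact Real.rpow_lt_one_of_one_lt_of_neg (by norm_num) (by simpa using hs)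
  calc ∑ r ∈ Finset.range I, P s r = ∑ r ∈ Finset.range I, P s 1 ^ r :=
        Finset.sum_congr rfl fun r _ => P_nat s r
    _ ≤ ∑' r : ℕ, P s 1 ^ r := (summable_geometric_of_lt_one h0 h1).sum_le_tsum _
        (fun r _ => by positivity)
    _ = _ := tsum_geometric_of_lt_one h0 h1

/-- StmtCM follows from its version in the frames. -/
theorem stmtCM_of_frames (hSC : StmtSC) (hSD : StmtSD)
    (h : ∀ (d : ℕ) (V E : Type) [NormedAddCommGroup V] [InnerProductSpace ℝ V]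
      [FiniteDimensional ℝ V] [NormedAddCommGroup E] [InnerProductSpace ℝ E]
      [FiniteDimensional ℝ E] (L : (Sp d →L[ℝ] V) →L[ℝ] E), 2 ≤ d → CEll L →
      ∀ (M c0 ε : ℝ), 0 < ε → ε ≤ 1 → ∀ (b : Sp d → ℝ), BaseKer 2 M c0 b →
      ∀ (R0 γ K : ℝ), 200 + 8 * d ≤ R0 → 0 < γ → γ ≤ 1 / 32 → 1 ≤ K → FrameCM b ε R0 K γ L) :
    StmtCM := by
  intro d V E _ _ _ _ _ _ L hd hL M c0 ε hε hε1 b hb R0 γ K hR0 hγ hγ1 hK
  have hdR : (2 : ℝ) ≤ d := by exact_mod_cast hd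
  have hγ2 : γ ≤ 1 / 32 := by
    refine hγ1.trans ?_
    rw [div_le_div_iff₀ (by positivity) (by norm_num)]
    linarith
  obtain ⟨C0, hC0, hC⟩ := h d V E L hd hL M c0 ε hε hε1 b hb R0 γ K hR0 hγ hγ2 hK
  have hs : (-(3 / 32) : ℝ) < 0 := by norm_num
  have hPs : P (-(3 / 32)) 1 < 1 := by
    unfold P
    exact Real.rpow_lt_one_of_one_lt_of_neg (by norm_num) (by norm_num)
  refine ⟨C0 * (1 - P (-(3 / 32)) 1)⁻¹, mul_pos hC0 (inv_pos.2 (by linarith)), ?_⟩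
  intro R hR n u hu x e hT a ha haeq hgr νs cs B hνs hcs hsum
  have hB0 : 0 ≤ B := by simpa using hsum 0
  have hterm0 : ∀ r, 0 ≤ bD b ε R0 R ((1 / 2) ^ n) (fo L u) (n + r) (x r) (e r) (νs r) (cs r) := by
    intro r
    rw [fr_B hSC hSD hd hb hε hε1 R0 R n r hu]
    exact cB_nonneg b ε R0 R L (n + r) _ (hT.unit r) _ _
  obtain ⟨ν, g, hν, hg0, hg1, hg2⟩ := hC R hR n (fun r => fr (x r) r u)
    (fun r => ((2 : ℝ) ^ r)⁻¹ • (x (r + 1) - x r)) e (fun r => TF_fr hSC hd hu (x r) r)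
    (fun r => fr_succ x u r)
    (fun r => by
      rw [norm_smul, norm_inv, norm_pow, Real.norm_eq_abs, abs_two]
      have h1 := hT.step r
      rw [inv_mul_le_iff₀ (by positivity)]
      linarith) hT.unit a ha
    (by
      rw [haeq, hT.zero]
      have := fr_A (L := L) hSC hd hb hε hε1 R0 n 0 hu (0 : Sp d)
      simpa using this)
    (fun r => by
      have h1 := hgr r
      rw [fr_A (L := L) hSC hd hb hε hε1 R0 n r hu (x r)] at h1
      exact h1)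
    νs (fun r => (cs r - ⟪νs r, x r⟫_ℝ) / 2 ^ r) B hνs
    (fun r => by
      have h1 := hcs r
      unfold ht at h1
      rw [abs_div, abs_of_pos (by positivity : (0 : ℝ) < 2 ^ r), div_le_iff₀ (by positivity),
        abs_sub_comm]
      exact h1) hB0
    (fun r => by
      have h1 : wq (1 / 4) r *
          bD b ε R0 R ((1 / 2) ^ n) (fo L u) (n + r) (x r) (e r) (νs r) (cs r) ≤ B := by
        refine le_trans ?_ (hsum (r + 1))
        refine Finset.single_le_sum (f := fun r => wq (1 / 4) r *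
          bD b ε R0 R ((1 / 2) ^ n) (fo L u) (n + r) (x r) (e r) (νs r) (cs r))
          (fun i _ => mul_nonneg ?_ (hterm0 i)) (Finset.self_mem_range_succ r)
        rw [wq_eq]
        exact (P_pos _ _).le
      rw [fr_B hSC hSD hd hb hε hε1 R0 R n r hu, wq_eq] at h1
      have h2 := mul_le_mul_of_nonneg_left h1 (P_pos (1 / 4) r).le
      rw [← mul_assoc, P_mul] at h2
      have h3 : P ((1 : ℝ) / 4 + -(1 / 4)) r = 1 := by
        unfold P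
        norm_num
      rw [h3, one_mul] at h2
      exact h2)
  have hgr' : ∀ r, g r = (g 0 - ⟪ν, x r⟫_ℝ) / 2 ^ r := by
    intro r
    induction r with
    | zero => rw [hT.zero]; simp
    | succ r ih =>
      rw [hg1, ih, inner_smul_right, inner_sub_right, pow_succ]
      field_simp
      ring
  refine ⟨ν, g 0, hν, hg0, fun I => ?_⟩
  have hexp : -(1 / 2) + (3 / 8 + γ) ≤ -(3 / 32) := by linarith
  calc ∑ r ∈ Finset.range I, wq (1 / 2) r *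
        bD b ε R0 R ((1 / 2) ^ n) (fo L u) (n + r) (x r) (e r) ν (g 0)
      ≤ ∑ r ∈ Finset.range I, C0 * B * P (-(3 / 32)) r := by
        refine Finset.sum_le_sum fun r _ => ?_
        rw [fr_B hSC hSD hd hb hε hε1 R0 R n r hu, wq_eq, ← hgr' r]
        have h1 := mul_le_mul_of_nonneg_left (hg2 r) (P_pos (-(1 / 2)) r).le
        refine h1.trans ?_
        have h2 : P (-(1 / 2)) r * (C0 * (P (3 / 8 + γ) r * B)) =
            C0 * B * P (-(1 / 2) + (3 / 8 + γ)) r := by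
          rw [← P_mul (-(1 / 2)) (3 / 8 + γ)]
          ring
        rw [h2]
        exact mul_le_mul_of_nonneg_left (P_le hexp r) (by positivity)
    _ = C0 * B * ∑ r ∈ Finset.range I, P (-(3 / 32)) r := by rw [Finset.mul_sum]
    _ ≤ C0 * B * (1 - P (-(3 / 32)) 1)⁻¹ :=
        mul_le_mul_of_nonneg_left (sum_P_le hs I) (by positivity)
    _ = _ := by ring

end CM

end

end TG


end

section

set_option autoImplicit false

/-!
# MODULE NF (6.3): cells which are not near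
-/

open MeasureTheory Metric Set TrI Filter
open scoped InnerProductSpace ContDiff Topology

namespace TG

noncomputable section

namespace NF

variable {d : ℕ}

/-- comparison of v at y and at 0 -/
lemma vv_le {μ : Measure (Sp d)} {Q : ℝ} (hQ : 1 ≤ Q)
    (hH : ∀ (t : ℝ) (x x' : Sp d), 0 < t → th μ t x' ≤ (1 + ‖x - x'‖ / t) ^ d * th μ t x)
    (hpos : ∀ (t : ℝ) (x : Sp d), 0 < t → 0 < th μ t x) {x y : Sp d}
    (hxy : (1 + ‖x - y‖) ^ d ≤ Q) : vv μ 1 y ≤ Q * vv μ 1 x := by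
  have h1 := hH 1 x y one_pos
  rw [div_one] at h1
  have h2 : th μ 1 y ≤ Q ^ 2 * th μ 1 x := by
    refine h1.trans (mul_le_mul_of_nonneg_right ?_ (hpos 1 x one_pos).le)
    nlinarith only [hQ, hxy]
  unfold vv
  calc Real.sqrt (th μ 1 y) ≤ Real.sqrt (Q ^ 2 * th μ 1 x) := Real.sqrt_le_sqrt h2
    _ = Q * Real.sqrt (th μ 1 x) := by
        rw [Real.sqrt_mul (sq_nonneg Q), Real.sqrt_sq (by linarith)]

lemma norm_iteratedFDeriv_const_le (a : ℝ) (j : ℕ) (y : Sp d) :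
    ‖iteratedFDeriv ℝ j (fun _ : Sp d => a) y‖ ≤ |a| := by
  rcases Nat.eq_zero_or_pos j with h | h
  · subst h
    rw [norm_iteratedFDeriv_zero, Real.norm_eq_abs]
  · rw [iteratedFDeriv_const_of_ne h.ne']
    simp

/-- derivatives of chi times a function which is only bounded on the support of chi -/
lemma chi_mul_bd (hd : 1 ≤ d) {N : ℝ} (hN : TFn 2 N (chi : Sp d → ℝ)) {g : Sp d → ℝ} {B : ℝ}
    (hg : ContDiff ℝ 2 g) (hB0 : 0 ≤ B)
    (hB : ∀ j ≤ 2, ∀ y : Sp d, ‖y‖ ≤ d → ‖iteratedFDeriv ℝ j g y‖ ≤ B) (y : Sp d) :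
    ‖iteratedFDeriv ℝ 2 (fun y => chi y * g y) y‖ ≤ 4 * N * B := by
  have hN0 : 0 ≤ N := PTm.TFn.nonneg hN
  by_cases hy : ‖y‖ ≤ d
  · refine (norm_iteratedFDeriv_mul_le hN.smooth hg y (n := 2) le_rfl).trans ?_
    have h1 : ∀ i ∈ Finset.range 3, ((2 : ℕ).choose i : ℝ) * ‖iteratedFDeriv ℝ i chi y‖ *
        ‖iteratedFDeriv ℝ (2 - i) g y‖ ≤ ((2 : ℕ).choose i : ℝ) * (N * B) := by
      intro i hi
      rw [Finset.mem_range] at hi
      rw [mul_assoc]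
      refine mul_le_mul_of_nonneg_left ?_ (Nat.cast_nonneg _)
      exact mul_le_mul (hN.bd i (by omega) y) (hB (2 - i) (by omega) y hy) (norm_nonneg _) hN0
    refine (Finset.sum_le_sum h1).trans (le_of_eq ?_)
    rw [← Finset.sum_mul]
    norm_num [Finset.sum_range_succ]
    ring
  · push Not at hy
    have hop : IsOpen {z : Sp d | (d : ℝ) < ‖z‖} := isOpen_lt continuous_const continuous_norm
    have hev : (fun y => chi y * g y) =ᶠ[𝓝 y] fun _ => (0 : ℝ) := by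
      filter_upwards [hop.mem_nhds hy] with z hz
      rw [PTm.chi_supp (le_of_lt hz) hd, zero_mul]
    rw [(hev.iteratedFDeriv ℝ 2).eq_of_nhds]
    refine (norm_iteratedFDeriv_const_le 0 2 y).trans ?_
    rw [abs_zero]
    positivity

end NF

/-- MODULE NF -/
theorem stmtNF (hTH : StmtTH) (hUB : StmtUB) : StmtNF := by
  intro d J hd hJ M C' ε p0 A c hC' hε hε4 hF
  have hd1 : 1 ≤ d := by omega
  obtain ⟨C1, hC1, hub⟩ := hUB d 2 hd M C' ε p0 A hC' hε (by linarith) hF.p0_pos hF.p0_le hF.A_ge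
  obtain ⟨CT, hCT, hth⟩ := hTH d 2 hd C' hC'
  obtain ⟨N, hN, hNT⟩ := PTm.chi_TFn (d := d) hd1
  have hcp := hF.c_pos
  set Q : ℝ := (1 + d) ^ d with hQ
  have hQ1 : 1 ≤ Q := by
    rw [hQ]
    exact one_le_pow₀ (by linarith [Nat.cast_nonneg (α := ℝ) d])
  have hQ0 : 0 < Q := by linarith
  set K : ℝ := 4 * (N + 1) * (C1 * Q + c / Q) with hK
  have hK0 : 0 < K := by positivity
  refine ⟨c / Q, K, by positivity, hK0, ?_⟩
  intro β hβ μ hμ m D hm hD hZ hq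
  obtain ⟨hpos, -, -, hHar, -⟩ := hth μ hμ
  obtain ⟨-, hGs, -, hGb, -⟩ := hub β (PTm.kit_mono (by omega) hβ) μ hμ
  have hpos' : ∀ (t : ℝ) (x : Sp d), 0 < t → 0 < th μ t x := fun t x ht => (hpos t x ht).1
  set v0 : ℝ := vv μ 1 0 with hv0
  have hv0p : 0 < v0 := Real.sqrt_pos.mpr (hpos' 1 0 one_pos)
  have hvy : ∀ y : Sp d, ‖y‖ ≤ d → vv μ 1 y ≤ Q * v0 := by
    intro y hy
    refine NF.vv_le hQ1 hHar hpos' ?_
    rw [zero_sub, norm_neg, hQ]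
    exact pow_le_pow_left₀ (by positivity) (by linarith) d
  have hv0y : ∀ y : Sp d, ‖y‖ ≤ d → v0 ≤ Q * vv μ 1 y := by
    intro y hy
    refine NF.vv_le hQ1 hHar hpos' ?_
    rw [sub_zero, hQ]
    exact pow_le_pow_left₀ (by positivity) (by linarith) d
  set g : Sp d → ℝ := fun y => GG β ε μ 1 y - c / Q * v0 with hg
  have hg2 : ContDiff ℝ 2 (GG β ε μ 1) := by exact_mod_cast contDiff_infty.mp hGs 2
  have hgs : ContDiff ℝ 2 g := hg2.sub contDiff_const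
  have hgb : ∀ j ≤ 2, ∀ y : Sp d, ‖y‖ ≤ d →
      ‖iteratedFDeriv ℝ j g y‖ ≤ (C1 * Q + c / Q) * v0 := by
    intro j hj y hy
    have e1 : g = GG β ε μ 1 + fun _ => -(c / Q * v0) := by
      funext z
      simp only [hg, Pi.add_apply]
      ring
    have c1 : ContDiff ℝ j (GG β ε μ 1) := hg2.of_le (by exact_mod_cast hj)
    rw [e1, iteratedFDeriv_add_apply c1.contDiffAt contDiff_const.contDiffAt]
    refine (norm_add_le _ _).trans ?_
    have h1 := hGb j hj y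
    have h2 := NF.norm_iteratedFDeriv_const_le (d := d) (-(c / Q * v0)) j y
    rw [abs_neg, abs_of_nonneg (by positivity)] at h2
    have h3 : C1 * vv μ 1 y ≤ C1 * (Q * v0) := mul_le_mul_of_nonneg_left (hvy y hy) hC1.le
    linarith
  have hKv : 0 < K * v0 := by positivity
  have hHb := fun y => NF.chi_mul_bd hd1 hNT hgs (B := (C1 * Q + c / Q) * v0) (by positivity) hgb y
  have hg0 : ∀ y, chi y ≠ 0 → 0 ≤ g y := by
    intro y hy
    have hyd : ‖y‖ ≤ d := by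
      by_contra hcon
      push Not at hcon
      exact hy (PTm.chi_supp hcon.le hd1)
    obtain ⟨n, hn⟩ : ∃ n : Sp d, ‖n‖ = 1 :=
      ⟨EuclideanSpace.single ⟨0, hd1⟩ (1 : ℝ), by simp⟩
    have h1 := (hF.far β hβ μ hμ n hn y (hq y hy)).2
    have h2 : c / Q * v0 ≤ c * vv μ 1 y := by
      rw [div_mul_eq_mul_div, div_le_iff₀ hQ0]
      have := mul_le_mul_of_nonneg_left (hv0y y hyd) hcp.le
      linarith
    simp only [hg]
    linarith
  have hH := hZ (fun y => (1 / (K * v0)) * (chi y * g y)) ?_ ?_ ?_ ?_ ?_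
  · have hchc : Continuous (chi : Sp d → ℝ) := PTm.chi_contDiff.continuous
    have hchs : HasCompactSupport (chi : Sp d → ℝ) :=
      HasCompactSupport.intro (isCompact_closedBall (0 : Sp d) d) fun x hx => PTm.chi_supp (by
        rw [mem_closedBall, dist_zero_right, not_le] at hx
        exact hx.le) hd1
    have i1 : Integrable fun y => m y * (chi y * GG β ε μ 1 y) :=
      (hm.mul (hchc.mul hg2.continuous)).integrable_of_hasCompactSupport hchs.mul_right.mul_left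
    have i2 : Integrable fun y => c / Q * v0 * (m y * chi y) :=
      ((hm.mul hchc).integrable_of_hasCompactSupport hchs.mul_left).const_mul _
    have e1 : ∫ y, m y * (1 / (K * v0) * (chi y * g y)) =
        1 / (K * v0) * ((∫ y, m y * (chi y * GG β ε μ 1 y)) - c / Q * v0 * ∫ y, m y * chi y) := by
      rw [← integral_const_mul (c / Q * v0), ← integral_sub i1 i2, ← integral_const_mul]
      congr 1
      ext y
      simp only [hg]
      ring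
    rw [e1] at hH
    have h3 := mul_le_mul_of_nonneg_left hH hKv.le
    rw [← mul_assoc (K * v0) (1 / (K * v0)), mul_one_div_cancel hKv.ne', one_mul] at h3
    linarith only [h3]
  · exact contDiff_const.mul (PTm.chi_contDiff.mul hgs)
  · intro y
    by_cases hy : chi y = 0
    · simp [hy]
    · exact mul_nonneg (by positivity) (mul_nonneg (PTm.chi_nonneg y) (hg0 y hy))
  · intro y
    by_cases hy : chi y = 0
    · simp [hy]
    · have hyd : ‖y‖ ≤ d := by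
        by_contra hcon
        push Not at hcon
        exact hy (PTm.chi_supp hcon.le hd1)
      have h1 := hgb 0 (by norm_num) y hyd
      rw [norm_iteratedFDeriv_zero, Real.norm_eq_abs] at h1
      have h2 := le_abs_self (g y)
      have h3 := PTm.chi_le_one y
      have h4 := hg0 y hy
      have h5 := PTm.chi_nonneg y
      have h6 : chi y * g y ≤ g y := mul_le_of_le_one_left h4 h3
      have h7 : (C1 * Q + c / Q) * v0 ≤ K * v0 := by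
        refine mul_le_mul_of_nonneg_right ?_ hv0p.le
        rw [hK]
        have h8 : 0 < C1 * Q + c / Q := by positivity
        nlinarith only [h8, hN]
      rw [one_div, inv_mul_le_iff₀ hKv, mul_one]
      linarith
  · intro y
    have e1 : (fun y => 1 / (K * v0) * (chi y * g y)) = (1 / (K * v0)) • fun y => chi y * g y := rfl
    have c1 : ContDiff ℝ 2 fun y => chi y * g y := PTm.chi_contDiff.mul hgs
    rw [e1, iteratedFDeriv_const_smul_apply c1.contDiffAt, norm_smul,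
      Real.norm_of_nonneg (by positivity)]
    rw [one_div, inv_mul_le_iff₀ hKv, mul_one]
    refine (hHb y).trans ?_
    rw [hK]
    have h8 : 0 < (C1 * Q + c / Q) * v0 := by positivity
    linarith only [h8]
  · intro y hy
    rw [PTm.chi_supp (by linarith) hd1, zero_mul, mul_zero]

end

end TG


end
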