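import Mathlib
import Pool.Agent.TRM.C02
import Pool.Agent.TRM.C10
import Pool.Agent.TRM.C13

/-! Parts: TG.FR1, TG.TF, TG.P4 -/

section

/-!
# Module FR1: growth and coherence give the structure theorem in the frame of a cell  (helper79)
-/

set_option linter.unusedSectionVars false

open MeasureTheory Metric Set TrI
open scoped InnerProductSpace ContDiff ENNReal

namespace TG

noncomputable section

namespace FR1

variable {d : ℕ}

section A

variable {E : Type} [NormedAddCommGroup E] [InnerProductSpace ℝ E] [FiniteDimensional ℝ E]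

lemma int_ball {g : Sp d → ℝ} (hg : Continuous g) (x : Sp d) (ρ : ℝ) :
    IntegrableOn g (ball x ρ) :=
  (hg.continuousOn.integrableOn_compact (isCompact_closedBall x ρ)).mono_set ball_subset_closedBall

lemma ball_mono_int {g : Sp d → ℝ} (hg : Continuous g) (h0 : ∀ y, 0 ≤ g y) (x : Sp d) {r s : ℝ}
    (hrs : r ≤ s) : ∫ y in ball x r, g y ≤ ∫ y in ball x s, g y :=
  setIntegral_mono_set (int_ball hg x s) (Filter.Eventually.of_forall h0)
    (Filter.Eventually.of_forall (ball_subset_ball hrs))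

lemma defi {e : E} (he : ‖e‖ = 1) (v : E) : 0 ≤ ‖v‖ - ⟪v, e⟫_ℝ := by
  have := real_inner_le_norm v e
  rw [he, mul_one] at this
  linarith

/-- the defect functional is monotone in the radius -/
lemma DD_rad {b : Sp d → ℝ} {J : ℕ} {M c0 : ℝ} (hb : BaseKer J M c0 b) (ε : ℝ) {s0 : ℝ}
    (hs : 0 < s0) {f : Sp d → E} (hf : Continuous f) (i : ℕ) (x : Sp d) {e : E} (he : ‖e‖ = 1)
    {r s : ℝ} (hrs : r ≤ s) : DD b ε r s0 f i x e ≤ DD b ε s s0 f i x e := by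
  have hl : 0 < lev s0 i := levA_pos hs i
  have hrs' : r * lev s0 i ≤ s * lev s0 i := mul_le_mul_of_nonneg_right hrs hl.le
  have hg : ∀ l, Continuous (fun y => ‖fl b ε s0 f l y‖ - ⟪fl b ε s0 f l y, e⟫_ℝ) := by
    intro l
    have := flA_cont hb ε s0 hf l
    fun_prop
  unfold DD
  refine mul_le_mul_of_nonneg_left (add_le_add (Finset.sum_le_sum fun l _ => ?_) ?_)
    (by positivity)
  · exact mul_le_mul_of_nonneg_left (ball_mono_int (hg l) (fun y => defi he _) x hrs')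
      (by positivity)
  · exact mul_le_mul_of_nonneg_left (ball_mono_int hf.norm (fun y => norm_nonneg _) x hrs')
      (by positivity)

/-- a dyadic number between rho and 2 rho -/
lemma dyad {ρ : ℝ} (h : 1 ≤ ρ) : ∃ l : ℕ, ρ ≤ 2 ^ l ∧ (2 : ℝ) ^ l ≤ 2 * ρ := by
  obtain ⟨n, hn1, hn2⟩ := exists_nat_pow_near h (by norm_num : (1 : ℝ) < 2)
  refine ⟨n + 1, hn2.le, ?_⟩
  rw [pow_succ]
  linarith

end A

end FR1

open FR _root_.TG.FR1

theorem stmtFR1 (hST : StmtST2) (hC8 : StmtCT8) (hSC : StmtSC) : StmtFR1 := by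
  intro d V E _ _ _ _ _ _ _ L hd hL M c0 ε hε hε1 b hb γ K Rs tol hγ hγ1 hK hRs htol
  have hd0 : (2 : ℝ) ≤ (d : ℝ) := by exact_mod_cast hd
  obtain ⟨C, hC, hC8'⟩ := hC8 d (by omega) M c0 ε hε hε1 b hb
  choose C1 hC1 hl using hC8'
  have hγ2 : γ ≤ 1 := hγ1.trans (by
    rw [div_le_one (by positivity)]
    linarith)
  obtain ⟨rm, R1, δ0, hR1, hδ0, H⟩ := hST d V E L hd hL M c0 ε hε hε1 b hb γ
    (C * K * 2 ^ d + 1) Rs tol hγ hγ1 (by positivity) hRs htol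
  -- the constant delta
  set lm : ℕ := ⌈2 * R1⌉₊ with hlm
  set S : ℝ := ∑ l ∈ Finset.range (lm + 1), C1 l * (2 : ℝ) ^ ((l : ℝ) / 8) with hS
  have hSn : 0 ≤ S := Finset.sum_nonneg fun l _ => by
    have := hC1 l
    positivity
  refine ⟨rm, R1, min δ0 (1 / (S + 1)), hR1, lt_min hδ0 (by positivity), ?_⟩
  intro R hR u hu s0 hs0 e he Q a ha hmT hdC
  have hR1p : 0 < R1 := by linarith
  have hfc : Continuous (fo L u) := by
    have h := hu.smooth.continuous_fderiv (by simp)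
    exact L.continuous.comp h
  have hfs : HasCompactSupport (fo L u) := (hu.supp.fderiv ℝ).comp_left (g := L) (map_zero L)
  have huQ := uQ_TF hSC hd L hu hs0 Q
  have hfo := fo_uQ hSC hd L hu hs0 Q
  have hδ1 : ∀ l : ℕ, (2 : ℝ) ^ l ≤ 2 * R1 → C1 l * (min δ0 (1 / (S + 1)) *
      (2 : ℝ) ^ ((l : ℝ) / 8)) ≤ 1 := by
    intro l hl1
    have h1 : l ∈ Finset.range (lm + 1) := by
      rw [Finset.mem_range, Nat.lt_succ_iff]
      have h2 : (l : ℝ) ≤ 2 ^ l := by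
        exact_mod_cast (Nat.lt_two_pow_self (n := l)).le
      have h3 : (l : ℝ) ≤ lm := (h2.trans hl1).trans (Nat.le_ceil _)
      exact_mod_cast h3
    have h4 : C1 l * (2 : ℝ) ^ ((l : ℝ) / 8) ≤ S :=
      Finset.single_le_sum (f := fun l : ℕ => C1 l * (2 : ℝ) ^ ((l : ℝ) / 8))
        (fun l _ => by have := hC1 l; positivity) h1
    have h5 : C1 l * (min δ0 (1 / (S + 1)) * (2 : ℝ) ^ ((l : ℝ) / 8)) =
        min δ0 (1 / (S + 1)) * (C1 l * (2 : ℝ) ^ ((l : ℝ) / 8)) := by ring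
    rw [h5]
    calc min δ0 (1 / (S + 1)) * (C1 l * (2 : ℝ) ^ ((l : ℝ) / 8)) ≤ 1 / (S + 1) * S :=
          mul_le_mul (min_le_right _ _) h4 (by have := hC1 l; positivity) (by positivity)
      _ ≤ 1 := by
          rw [one_div, inv_mul_le_iff₀ (by positivity)]
          linarith
  have key := H Q.1 (uQ s0 u Q) huQ (e Q) (he.unit Q) a ha ?_ ?_
  · obtain ⟨J, r, ν, κ, h⟩ := key
    refine ⟨J, r, ν, κ, ?_⟩
    rw [hfo] at h
    exact h
  · intro ρ hρ1 hρ2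
    obtain ⟨l, hl1, hl2⟩ := dyad hρ1
    have hl3 : (2 : ℝ) ^ l ≤ 2 * R1 := hl2.trans (by linarith)
    have hρ0 : 0 < ρ := by linarith
    have hfQ : Continuous (fo L (uQ s0 u Q)) := by
      have h := huQ.smooth.continuous_fderiv (by simp)
      exact L.continuous.comp h
    have h1 : (∫ y in ball (0 : Sp d) ρ,
        ‖fl b ε ((1 / 2) ^ Q.1) (fo L (uQ s0 u Q)) (Q.1 - 1) y‖) ≤
        mC b ε (2 ^ l) s0 (fo L u) Q := by
      refine (ball_mono_int (flA_cont hb ε _ hfQ _).norm (fun y => norm_nonneg _) 0 hl1).trans ?_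
      have h2 := ma_frame hSC hd hε hε1 hb hfc hfs hs0 (2 ^ l) 0 Q
      rw [tw_up_zero, up_zero] at h2
      rw [← h2, hfo]
      unfold ma
      have h3 : lev ((1 / 2 : ℝ) ^ Q.1) (Q.1 + 0) = 1 := by
        have := lev_half Q.1 0
        simpa using this
      rw [h3]
      simp
    refine h1.trans ?_
    have h2 := ((hl l E R (by linarith) (by linarith) (fo L u) hfc hfs s0 hs0 e he).2.1 Q)
    refine h2.trans ?_
    have h3 : C * 2 ^ (l * (d - 1)) * mT b ε s0 (fo L u) (up l Q) ≤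
        C * 2 ^ (l * (d - 1)) * (K * (2 : ℝ) ^ (γ * l) * a) :=
      mul_le_mul_of_nonneg_left (hmT l) (by positivity)
    have h4 : C1 l * dC b ε R s0 (fo L u) e (up l Q) ≤ a := by
      have h5 := mul_le_mul_of_nonneg_left (hdC l) (hC1 l).le
      refine h5.trans ?_
      calc C1 l * (min δ0 (1 / (S + 1)) * (2 : ℝ) ^ ((l : ℝ) / 8) * a)
          = (C1 l * (min δ0 (1 / (S + 1)) * (2 : ℝ) ^ ((l : ℝ) / 8))) * a := by ring
        _ ≤ 1 * a := mul_le_mul_of_nonneg_right (hδ1 l hl3) ha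
        _ = a := one_mul a
    have hex : 0 ≤ (d : ℝ) - 1 + γ := by linarith
    have h6 : (2 : ℝ) ^ (l * (d - 1)) * (2 : ℝ) ^ (γ * l) = ((2 : ℝ) ^ l) ^ ((d : ℝ) - 1 + γ) := by
      rw [← Real.rpow_natCast 2 (l * (d - 1)), ← Real.rpow_add two_pos, ← Real.rpow_natCast 2 l,
        ← Real.rpow_mul two_pos.le]
      congr 1
      rw [Nat.cast_mul, Nat.cast_sub (by omega)]
      push_cast
      ring
    have h7 : ((2 : ℝ) ^ l) ^ ((d : ℝ) - 1 + γ) ≤ 2 ^ d * ρ ^ ((d : ℝ) - 1 + γ) := by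
      calc ((2 : ℝ) ^ l) ^ ((d : ℝ) - 1 + γ) ≤ (2 * ρ) ^ ((d : ℝ) - 1 + γ) :=
            Real.rpow_le_rpow (by positivity) hl2 hex
        _ = 2 ^ ((d : ℝ) - 1 + γ) * ρ ^ ((d : ℝ) - 1 + γ) :=
            Real.mul_rpow two_pos.le hρ0.le
        _ ≤ 2 ^ d * ρ ^ ((d : ℝ) - 1 + γ) := by
            refine mul_le_mul_of_nonneg_right ?_ (by positivity)
            rw [← Real.rpow_natCast 2 d]
            exact Real.rpow_le_rpow_of_exponent_le (by norm_num) (by linarith)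
    have h8 : 1 ≤ ρ ^ ((d : ℝ) - 1 + γ) := Real.one_le_rpow hρ1 hex
    calc C * 2 ^ (l * (d - 1)) * mT b ε s0 (fo L u) (up l Q) +
          C1 l * dC b ε R s0 (fo L u) e (up l Q)
        ≤ C * 2 ^ (l * (d - 1)) * (K * (2 : ℝ) ^ (γ * l) * a) + a := add_le_add h3 h4
      _ = C * K * a * (2 ^ (l * (d - 1)) * (2 : ℝ) ^ (γ * l)) + a * 1 := by ring
      _ ≤ C * K * a * (2 ^ d * ρ ^ ((d : ℝ) - 1 + γ)) + a * ρ ^ ((d : ℝ) - 1 + γ) := by
          rw [h6]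
          exact add_le_add (mul_le_mul_of_nonneg_left h7 (by positivity))
            (mul_le_mul_of_nonneg_left h8 ha)
      _ = (C * K * 2 ^ d + 1) * ρ ^ ((d : ℝ) - 1 + γ) * a := by ring
  · have hs : (0 : ℝ) < (1 / 2) ^ Q.1 := by positivity
    have h1 := DD_frame hSC hd hε hε1 hb hfc hfs hs0 R1 0 Q (e Q)
    rw [tw_up_zero, up_zero] at h1
    rw [hfo]
    rw [Nat.add_zero] at h1
    rw [h1]
    refine (DD_rad hb ε hs0 hfc Q.1 _ (he.unit Q) (by linarith : R1 ≤ R)).trans ?_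
    have h2 := hdC 0
    rw [up_zero] at h2
    simp only [Nat.cast_zero, zero_div, Real.rpow_zero, mul_one] at h2
    exact h2.trans (mul_le_mul_of_nonneg_right (min_le_left _ _) ha)

end

end TG


end

section

/-!
# Module TF (11.3): flux between two sheet cells (helper27)
-/

open MeasureTheory Metric Set TrI
open scoped InnerProductSpace ContDiff

namespace TG

noncomputable section

namespace TFx

variable {d : ℕ}

lemma inner_grad (f : Sp d → ℝ) (y w : Sp d) : ⟪gradient f y, w⟫_ℝ = fderiv ℝ f y w := by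
  rw [inner_gradient_left]

/-- the building block -/
def Tt (p : Sp d) (β : Sp d → ℝ) (ε p0 A : ℝ) (μ : Measure (Sp d)) (a b y : Sp d) : ℝ :=
  (chi (y - p) * Ups p0 A μ 1 y * fderiv ℝ chi y a) * fderiv ℝ (WW β ε μ 1) y b

lemma inner_tang_tang {n : Sp d} (hn : ‖n‖ = 1) (a b : Sp d) :
    ⟪tang n a, tang n b⟫_ℝ = ⟪a, b⟫_ℝ - ⟪a, n⟫_ℝ * ⟪b, n⟫_ℝ := by
  unfold tang
  simp only [inner_sub_left, inner_sub_right, inner_smul_left, inner_smul_right, conj_trivial,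
    real_inner_self_eq_norm_sq, hn]
  rw [real_inner_comm a n, real_inner_comm b n]
  ring

lemma fxA_eq {n : Sp d} (hn : ‖n‖ = 1) (p : Sp d) (β : Sp d → ℝ) (ε p0 A : ℝ)
    (μ : Measure (Sp d)) (y : Sp d) :
    fxA chi (fun x => chi (x - p)) β ε p0 A μ n y =
      (∑ j, Tt p β ε p0 A μ (bv j) (bv j) y) - Tt p β ε p0 A μ n n y := by
  have h1 : ⟪gradient chi y, gradient (WW β ε μ 1) y⟫_ℝ =
      ∑ j, fderiv ℝ chi y (bv j) * fderiv ℝ (WW β ε μ 1) y (bv j) := by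
    rw [PiLp.inner_apply]
    refine Finset.sum_congr rfl fun j _ => ?_
    rw [← inner_grad, ← inner_grad]
    simp only [bv, EuclideanSpace.inner_single_right, conj_trivial, one_mul]
    simp [mul_comm]
  unfold fxA Tt
  rw [inner_tang_tang hn, h1, inner_grad, inner_grad, mul_sub, Finset.mul_sum]
  congr 1
  · exact Finset.sum_congr rfl fun j _ => by ring
  · ring

lemma fxA_sub {n n' : Sp d} (hn : ‖n‖ = 1) (hn' : ‖n'‖ = 1) (p : Sp d) (β : Sp d → ℝ)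
    (ε p0 A : ℝ) (μ : Measure (Sp d)) (y : Sp d) :
    fxA chi (fun x => chi (x - p)) β ε p0 A μ n y
        - fxA chi (fun x => chi (x - p)) β ε p0 A μ n' y =
      Tt p β ε p0 A μ (n' - n) n y + Tt p β ε p0 A μ n (n' - n) y
        + Tt p β ε p0 A μ (n' - n) (n' - n) y := by
  rw [fxA_eq hn, fxA_eq hn']
  unfold Tt
  simp only [map_sub]
  ring

/-! ### bounds of the building block -/

lemma fd_apply_smooth {g : Sp d → ℝ} (hg : ContDiff ℝ ∞ g) (b : Sp d) :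
    ContDiff ℝ ∞ (fun y => fderiv ℝ g y b) :=
  (hg.fderiv_right (m := ∞) (by norm_cast)).clm_apply contDiff_const

lemma fd_apply_bd {g : Sp d → ℝ} (hg : ContDiff ℝ ∞ g) (b : Sp d) (j : ℕ) (y : Sp d) :
    ‖iteratedFDeriv ℝ j (fun y => fderiv ℝ g y b) y‖ ≤
      ‖b‖ * ‖iteratedFDeriv ℝ (j + 1) g y‖ := by
  have h3 : ContDiff ℝ j (fderiv ℝ g) :=
    (hg.fderiv_right (m := ∞) (by norm_cast)).of_le (by exact_mod_cast le_top)
  have h4 := (ContinuousLinearMap.apply ℝ ℝ b).norm_iteratedFDeriv_comp_left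
    (f := fderiv ℝ g) (x := y) (n := j) h3.contDiffAt le_rfl
  have h5 : ‖ContinuousLinearMap.apply ℝ ℝ b‖ ≤ ‖b‖ := by
    refine ContinuousLinearMap.opNorm_le_bound _ (norm_nonneg _) fun f => ?_
    rw [ContinuousLinearMap.apply_apply, mul_comm]
    exact f.le_opNorm b
  rw [norm_iteratedFDeriv_fderiv] at h4
  exact h4.trans (mul_le_mul_of_nonneg_right h5 (norm_nonneg _))

lemma chi_TFn (hd : 1 ≤ d) (K : ℕ) : ∃ N : ℝ, 0 < N ∧ TFn K N (chi : Sp d → ℝ) :=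
  TU.TFn_of_cs (TDc.chi_smooth.of_le (by exact_mod_cast le_top)) (TDc.chi_cs hd)

lemma TFn_trans {K : ℕ} {N : ℝ} {g : Sp d → ℝ} (h : TFn K N g) (p : Sp d) :
    TFn K N (fun y => g (y - p)) where
  smooth := h.smooth.comp (contDiff_id.sub contDiff_const)
  bd := fun j hj y => by
    rw [iteratedFDeriv_comp_sub]
    exact h.bd j hj _

lemma fdchi_TFn {K : ℕ} {N : ℝ} (h : TFn (K + 1) N (chi : Sp d → ℝ)) (a : Sp d) :
    TFn K (‖a‖ * N) (fun y => fderiv ℝ chi y a) where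
  smooth := (fd_apply_smooth TDc.chi_smooth a).of_le (by exact_mod_cast le_top)
  bd := fun j hj y => (fd_apply_bd TDc.chi_smooth a j y).trans
    (mul_le_mul_of_nonneg_left (h.bd (j + 1) (by omega) y) (norm_nonneg _))

lemma fdchi_zero (hd : 2 ≤ d) (a : Sp d) {y : Sp d} (hy : (d : ℝ) ≤ ‖y‖) :
    fderiv ℝ chi y a = 0 := by
  have h : (chi : Sp d → ℝ) =ᶠ[nhds y] fun _ => 0 := TDc.chi_ev hd hy
  rw [h.fderiv_eq]
  simp

lemma Tt_zero (hd : 2 ≤ d) (p : Sp d) (β : Sp d → ℝ) (ε p0 A : ℝ) (μ : Measure (Sp d))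
    (a b : Sp d) {y : Sp d} (hy : (d : ℝ) ≤ ‖y‖) : Tt p β ε p0 A μ a b y = 0 := by
  unfold Tt
  rw [fdchi_zero hd a hy]
  ring

lemma Tt_TFn (hTH : StmtTH) (hUB : StmtUB) (hd : 2 ≤ d) (K : ℕ) {M C' ε p0 A : ℝ} (hC' : 0 < C')
    (hε : 0 < ε) (hε1 : ε ≤ 1) (hp0 : 0 < p0) (hp1 : p0 ≤ 1) (hA : 1 ≤ A) :
    ∃ C : ℝ, 0 < C ∧ ∀ β : Sp d → ℝ, Kit 4 M β → ∀ μ : Measure (Sp d), Gro C' μ →
      ∀ p a b : Sp d, TFn K (C * (‖a‖ * ‖b‖) * vv μ 1 0) (Tt p β ε p0 A μ a b) := by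
  obtain ⟨C, hC, h⟩ := hUB d (K + 1) hd M C' ε p0 A hC' hε hε1 hp0 hp1 hA
  obtain ⟨N, hN, hχ⟩ := chi_TFn (by omega : 1 ≤ d) (K + 1)
  set H : ℝ := (1 + (d : ℝ)) ^ d with hH
  have hH0 : 0 < H := by positivity
  refine ⟨2 ^ K * (2 ^ K * (2 ^ K * (N * C) * N) * (C * H)), by positivity, ?_⟩
  intro β hβ μ hμ p a b
  obtain ⟨hWs, -, hWb, -, -, -, -, hUs, hUb, -⟩ := h β hβ μ hμ
  have hv0 : 0 ≤ vv μ 1 0 := Real.sqrt_nonneg _
  have h1 : TFn K N (fun y => chi (y - p)) :=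
    TU.TFn_mono (TFn_trans hχ p) (by omega) le_rfl
  have h2 : TFn K C (Ups p0 A μ 1) :=
    ⟨hUs.of_le (by exact_mod_cast le_top), fun j hj y => hUb j (by omega) y⟩
  have h3 := TU.TFn_mul (TU.TFn_mul h1 h2) (fdchi_TFn hχ a)
  have h4 := TU.TFn_mul_ball (x₀ := 0) (ρ := d) (g := fun y => fderiv ℝ (WW β ε μ 1) y b)
    (M := ‖b‖ * (C * (H * vv μ 1 0))) h3
    (fun z hz => by
      rw [sub_zero] at hz
      simp only [fdchi_zero hd a hz.le, mul_zero])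
    ((fd_apply_smooth hWs b).of_le (by exact_mod_cast le_top))
    (fun j hj y hy => by
      rw [sub_zero] at hy
      refine (fd_apply_bd hWs b j y).trans (mul_le_mul_of_nonneg_left ?_ (norm_nonneg _))
      exact (hWb (j + 1) (by omega) y).trans
        (mul_le_mul_of_nonneg_left (TDc.vv_le hTH hd hC' hμ hy) hC.le)) (by positivity)
  refine TU.TFn_mono h4 le_rfl (le_of_eq ?_)
  ring

/-! ### plane integrals -/

lemma pl_norm {n : Sp d} (hn : ‖n‖ = 1) (s : ℝ) (y : PF.Pl n) :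
    ‖(y : Sp d)‖ ≤ ‖s • n + (y : Sp d)‖ := by
  have := PF.norm_tang_le hn (s • n + (y : Sp d))
  rwa [PF.tang_pl hn] at this

lemma pl_inner {n : Sp d} (hn : ‖n‖ = 1) (s : ℝ) (y : PF.Pl n) :
    ⟪n, s • n + (y : Sp d)⟫_ℝ = s := by
  rw [inner_add_right, inner_smul_right, real_inner_self_eq_norm_sq, hn, PF.inner_pl]
  simp

/-- upper bound of a plane integral by the maximum on the plane -/
lemma pl_le (hd : 1 ≤ d) (ρ : ℝ) : ∃ C : ℝ, 0 < C ∧ ∀ (n : Sp d), ‖n‖ = 1 → ∀ (s : ℝ)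
    (F : Sp d → ℝ) (N : ℝ), 0 ≤ N → (∀ y, ρ < ‖y‖ → F y = 0) →
      (∀ y, ⟪n, y⟫_ℝ = s → ‖y‖ ≤ ρ → |F y| ≤ N) → |plInt n s F| ≤ C * N := by
  obtain ⟨k, rfl⟩ : ∃ k, d = k + 1 := ⟨d - 1, by omega⟩
  refine ⟨(volume (closedBall (0 : Sp k) ρ)).toReal + 1, by positivity, ?_⟩
  intro n hn s F N hN0 hs hN
  have hi : plInt n s F = ∫ y in closedBall (0 : PF.Pl n) ρ, F (s • n + (y : Sp (k + 1))) := by
    unfold plInt
    rw [setIntegral_eq_integral_of_forall_compl_eq_zero]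
    intro y hy
    refine hs _ ?_
    rw [mem_closedBall, dist_zero_right, not_le] at hy
    exact lt_of_lt_of_le hy (pl_norm hn s y)
  rw [hi]
  have h1 := norm_setIntegral_le_of_norm_le_const (μ := (volume : Measure (PF.Pl n)))
    (s := closedBall (0 : PF.Pl n) ρ) (f := fun y : PF.Pl n => F (s • n + (y : Sp (k + 1)))) (C := N)
    measure_closedBall_lt_top (fun y _ => by
      rw [Real.norm_eq_abs]
      by_cases hy : ρ < ‖s • n + (y : Sp (k + 1))‖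
      · rw [hs _ hy, abs_zero]; exact hN0
      · exact hN _ (pl_inner hn s y) (not_lt.1 hy))
  rw [Real.norm_eq_abs] at h1
  have h2 : volume.real (closedBall (0 : PF.Pl n) ρ) = (volume (closedBall (0 : Sp k) ρ)).toReal := by
    rw [Measure.real, PF.vol k n hn ρ]
  rw [h2] at h1
  nlinarith

/-- lower bound of a plane integral by an integral over a disc -/
lemma disc_le {n : Sp d} (hn : ‖n‖ = 1) {s ρ R : ℝ} (hR : 0 < R) {Y : Sp d → ℝ}
    (hY : Continuous Y) (hY0 : ∀ y, 0 ≤ Y y) {y : Sp d} (hy : ⟪n, y⟫_ℝ = s) (hyR : ‖y‖ + ρ ≤ R)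
    (X' : PF.Pl n → ℝ) (hX' : Continuous X')
    (h : ∀ z : PF.Pl n, ‖z‖ ≤ ρ → X' z ≤ Y (y + (z : Sp d))) :
    ∫ z in closedBall (0 : PF.Pl n) ρ, X' z ≤ plInt n s (fun x => zR R x * Y x) := by
  set y0 : PF.Pl n := ⟨y - s • n, Submodule.mem_orthogonal_singleton_iff_inner_right.2 (by
    rw [inner_sub_right, inner_smul_right, real_inner_self_eq_norm_sq, hn, hy]; simp)⟩ with hy0
  set f : PF.Pl n → ℝ := fun z => zR R (s • n + (z : Sp d)) * Y (s • n + (z : Sp d)) with hf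
  have hzc : Continuous (zR R : Sp d → ℝ) := (TU.zR_smooth hR).continuous
  have hfc : Continuous f := by
    have h1 : Continuous (fun z : PF.Pl n => s • n + (z : Sp d)) := by fun_prop
    exact (hzc.comp h1).mul (hY.comp h1)
  have hfs : HasCompactSupport f := by
    refine HasCompactSupport.intro (isCompact_closedBall (0 : PF.Pl n) (R + 1)) fun z hz => ?_
    rw [mem_closedBall, dist_zero_right, not_le] at hz
    simp only [hf]
    rw [TU.zR_zero (hz.le.trans (pl_norm hn s z)), zero_mul]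
  have hfi : Integrable f := hfc.integrable_of_hasCompactSupport hfs
  have hf0 : ∀ z, 0 ≤ f z := fun z => mul_nonneg (TU.zR_nonneg _ _) (hY0 _)
  have e1 : plInt n s (fun x => zR R x * Y x) = ∫ z, f (y0 + z) := by
    rw [integral_add_left_eq_self f y0]
    rfl
  have hfi' : Integrable (fun z => f (y0 + z)) := hfi.comp_add_left y0
  rw [e1]
  refine le_trans ?_ (setIntegral_le_integral (s := closedBall (0 : PF.Pl n) ρ) hfi'
    (Filter.Eventually.of_forall fun z => hf0 _))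
  refine setIntegral_mono_on (hX'.continuousOn.integrableOn_compact (isCompact_closedBall _ _))
    hfi'.integrableOn measurableSet_closedBall fun z hz => ?_
  rw [mem_closedBall, dist_zero_right] at hz
  have e2 : s • n + ((y0 + z : PF.Pl n) : Sp d) = y + (z : Sp d) := by
    simp only [hy0, Submodule.coe_add]
    abel
  have h3 : ‖y + (z : Sp d)‖ ≤ R := (norm_add_le _ _).trans (by
    have : ‖(z : Sp d)‖ ≤ ρ := hz
    linarith)
  simp only [hf]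
  rw [e2, TU.zR_one h3, one_mul]
  exact h z hz

lemma disc_vol (hd : 1 ≤ d) : ∃ c : ℝ, 0 < c ∧ ∀ n : Sp d, ‖n‖ = 1 →
    volume.real (closedBall (0 : PF.Pl n) 1) = c := by
  obtain ⟨k, rfl⟩ : ∃ k, d = k + 1 := ⟨d - 1, by omega⟩
  refine ⟨(volume (closedBall (0 : Sp k) 1)).toReal, ?_, fun n hn => ?_⟩
  · exact ENNReal.toReal_pos (measure_closedBall_pos volume _ one_pos).ne'
      measure_closedBall_lt_top.ne
  · rw [Measure.real, PF.vol k n hn 1]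

/-! ### the gain functional on the plane -/

lemma tavX2_nonneg (μ : Measure (Sp d)) (n : Sp d) (y : Sp d) : 0 ≤ tav (X2 μ n) 1 y := by
  unfold tav
  refine intervalIntegral.integral_nonneg (by norm_num) fun r hr => ?_
  have hr0 : 0 ≤ r := by
    have := hr.1
    linarith
  refine mul_nonneg (le_max_left _ _) (div_nonneg (integral_nonneg fun η => ?_)
    (Real.sqrt_nonneg _))
  have : 0 ≤ kk r (y - η) := div_nonneg hr0 (by positivity)
  simp only [Pi.zero_apply]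
  positivity

lemma XX_eq (β : Sp d → ℝ) (ε : ℝ) (μ : Measure (Sp d)) (n : Sp d) (t : ℝ) (y : Sp d) :
    XX β ε μ n t y = X13 β ε μ n t y + tav (X2 μ n) t y := by
  unfold XX X13
  ring

lemma gain_pl (hWA : StmtWA) (hMO : StmtMO) (hd : 2 ≤ d) {M C' ε : ℝ} (hC' : 0 < C')
    (hε : 0 < ε) (hε4 : ε ≤ 1 / 4) : ∃ C : ℝ, 0 < C ∧ ∀ β : Sp d → ℝ, Kit 4 M β →
    ∀ μ : Measure (Sp d), Gro C' μ → ∀ n : Sp d, ‖n‖ = 1 → ∀ (s : ℝ) (y : Sp d), ⟪n, y⟫_ℝ = s →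
      ‖y‖ ≤ d →
      tav (X2 μ n) 1 y ≤ C * plInt n s (fun x => zR (d + 2) x * XX β ε μ n 1 x) ∧
      discR n (2 * ε) (X13 β ε μ n 1) y ≤ plInt n s (fun x => zR (d + 2) x * XX β ε μ n 1 x) := by
  obtain ⟨_, _, hA⟩ := hWA d 0 hd M C' ε hC' hε (by linarith)
  obtain ⟨Cm, hCm, hm⟩ := hMO d 0 hd C' hC'
  obtain ⟨c, hc, hvol⟩ := disc_vol (by omega : 1 ≤ d)
  set K : ℝ := Cm * 2 ^ (2 * d + 4) with hK
  have hK0 : 0 < K := by positivity
  refine ⟨K / c, by positivity, ?_⟩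
  intro β hβ μ hμ n hn s y hy hyd
  obtain ⟨-, -, -, -, hA'⟩ := hA β hβ μ hμ
  obtain ⟨hXc, hX0, -, hX13c, hX130, -⟩ := hA' n hn
  have hXc' : Continuous (XX β ε μ n 1) := hXc.continuous
  have hX13c' : Continuous (X13 β ε μ n 1) := hX13c.continuous
  obtain ⟨h1, -, -, -, -, -, h7, -⟩ := hm μ hμ n hn s
  have hd0 : (0 : ℝ) < d + 2 := by positivity
  constructor
  · have hb : ∀ z : PF.Pl n, ‖z‖ ≤ 1 → tav (X2 μ n) 1 y / K ≤ XX β ε μ n 1 (y + (z : Sp d)) := by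
      intro z hz
      have e1 : tav (X2 μ n) 1 y = tav (Mo μ n s 2) 1 y := by
        rw [h1 y, real_inner_comm, hy]
        ring
      have e2 : tav (X2 μ n) 1 (y + (z : Sp d)) = tav (Mo μ n s 2) 1 (y + (z : Sp d)) := by
        rw [h1 (y + (z : Sp d)), real_inner_comm, inner_add_right, hy, PF.inner_pl]
        ring
      have h3 := h7 (y + (z : Sp d)) y
      rw [← e1, ← e2] at h3
      have h4 : (1 + ‖y + (z : Sp d) - y‖) ^ (2 * d + 4) ≤ 2 ^ (2 * d + 4) := by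
        refine pow_le_pow_left₀ (by positivity) ?_ _
        rw [add_sub_cancel_left]
        have : ‖(z : Sp d)‖ ≤ 1 := hz
        linarith
      have h5 := tavX2_nonneg μ n (y + (z : Sp d))
      have h6 : tav (X2 μ n) 1 y ≤ K * tav (X2 μ n) 1 (y + (z : Sp d)) :=
        h3.trans (mul_le_mul_of_nonneg_right (mul_le_mul_of_nonneg_left h4 hCm.le) h5)
      rw [div_le_iff₀' hK0]
      refine h6.trans (mul_le_mul_of_nonneg_left ?_ hK0.le)
      rw [XX_eq]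
      linarith [hX130 (y + (z : Sp d))]
    have h8 := disc_le hn hd0 hXc' hX0 hy (by linarith : ‖y‖ + 1 ≤ (d : ℝ) + 2)
      (fun _ => tav (X2 μ n) 1 y / K) continuous_const hb
    rw [setIntegral_const, hvol n hn, smul_eq_mul] at h8
    rw [div_mul_eq_mul_div, le_div_iff₀ hc]
    calc tav (X2 μ n) 1 y * c = K * (c * (tav (X2 μ n) 1 y / K)) := by
          field_simp
      _ ≤ _ := mul_le_mul_of_nonneg_left h8 hK0.le
  · refine disc_le hn hd0 hXc' hX0 hy (by linarith : ‖y‖ + 2 * ε ≤ (d : ℝ) + 2)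
      (fun z => X13 β ε μ n 1 (y + (z : Sp d))) (by fun_prop) fun z _ => ?_
    rw [XX_eq]
    linarith [tavX2_nonneg μ n (y + (z : Sp d))]

/-- the plane integral of the difference -/
lemma plane_bd (hTH : StmtTH) (hWA : StmtWA) (hWB : StmtWB) (hMO : StmtMO) (hUB : StmtUB)
    (hd : 2 ≤ d) {M C' ε p0 A : ℝ} (hC' : 0 < C')
    (hε : 0 < ε) (hε4 : ε ≤ 1 / 4) (hp0 : 0 < p0) (hp1 : p0 ≤ 1) (hA : 1 ≤ A) :
    ∃ C : ℝ, 0 < C ∧ ∀ β : Sp d → ℝ, Kit 4 M β →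
    ∀ μ : Measure (Sp d), Gro C' μ → ∀ n n' p : Sp d, ‖n‖ = 1 → ‖n'‖ = 1 → ∀ (s δ : ℝ),
      ‖n' - n‖ ≤ δ → δ ≤ 1 →
      |plInt n s (fun y => Tt p β ε p0 A μ (n' - n) n y + Tt p β ε p0 A μ n (n' - n) y
        + Tt p β ε p0 A μ (n' - n) (n' - n) y)| ≤
      C * δ * Real.sqrt (vv μ 1 0 * plInt n s (fun x => zR (d + 2) x * XX β ε μ n 1 x))
        + C * δ ^ 2 * vv μ 1 0 := by
  obtain ⟨C1, hC1, hg⟩ := gain_pl hWA hMO hd (M := M) hC' hε hε4
  obtain ⟨C2, hC2, hb⟩ := hWB d 0 hd M C' ε hC' hε (by linarith)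
  obtain ⟨C3, hC3, hu⟩ := hUB d 1 hd M C' ε p0 A hC' hε (by linarith) hp0 hp1 hA
  obtain ⟨C4, hC4, hpl⟩ := pl_le (by omega : 1 ≤ d) (d : ℝ)
  obtain ⟨N, hN, hχ⟩ := chi_TFn (by omega : 1 ≤ d) 1
  set H : ℝ := (1 + (d : ℝ)) ^ d with hH
  have hH0 : 0 < H := by positivity
  set K : ℝ := C2 * H * (C1 + 1) + 1 + C3 * H with hK
  have hK1 : 1 ≤ K := by
    have : 0 ≤ C2 * H * (C1 + 1) := by positivity
    have : 0 ≤ C3 * H := by positivity
    linarith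
  refine ⟨C4 * (N * K * 3), by positivity, ?_⟩
  intro β hβ μ hμ n n' p hn hn' s δ hδ hδ1
  obtain ⟨hWs, -, hWb, -⟩ := hu β hβ μ hμ
  obtain ⟨_, _, hA⟩ := hWA d 0 hd M C' ε hC' hε (by linarith)
  obtain ⟨-, -, -, -, hA'⟩ := hA β hβ μ hμ
  obtain ⟨-, hX0, -⟩ := hA' n hn
  obtain ⟨hb1, hb2, -⟩ := hb β hβ μ hμ n hn
  set v : ℝ := vv μ 1 0 with hv
  set P : ℝ := plInt n s (fun x => zR (d + 2) x * XX β ε μ n 1 x) with hP
  set Q : ℝ := Real.sqrt (v * P) with hQ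
  set w : Sp d := n' - n with hw
  have hv0 : 0 ≤ v := Real.sqrt_nonneg _
  have hP0 : 0 ≤ P := integral_nonneg fun y => mul_nonneg (TU.zR_nonneg _ _) (hX0 _)
  have hQ0 : 0 ≤ Q := Real.sqrt_nonneg _
  have hQ2 : Q ^ 2 = v * P := Real.sq_sqrt (mul_nonneg hv0 hP0)
  have hδ0 : 0 ≤ δ := (norm_nonneg _).trans hδ
  have hnw : |⟪n, w⟫_ℝ| ≤ δ ^ 2 := by
    have h1 : ‖n + w‖ ^ 2 = 1 := by rw [hw, add_sub_cancel, hn']; norm_num
    rw [norm_add_sq_real, hn] at h1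
    have h2 : ⟪n, w⟫_ℝ = -(‖w‖ ^ 2 / 2) := by linarith only [h1]
    rw [h2, abs_neg, abs_of_nonneg (by (clear * -; positivity))]
    have h3 : ‖w‖ ^ 2 ≤ δ ^ 2 := pow_le_pow_left₀ (norm_nonneg _) hδ 2
    linarith only [h3, sq_nonneg ‖w‖]
  have hKK : K ≤ K ^ 2 := by nlinarith only [hK1]
  have hT : ∀ a b y : Sp d, |Tt p β ε p0 A μ a b y| ≤
      ‖a‖ * N * |fderiv ℝ (WW β ε μ 1) y b| := by
    intro a b y
    unfold Tt
    rw [abs_mul, abs_mul, abs_mul]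
    refine mul_le_mul_of_nonneg_right ?_ (abs_nonneg _)
    have h1 : |chi (y - p)| ≤ 1 := by
      rw [abs_of_nonneg (PTm.chi_nonneg _)]
      exact PTm.chi_le_one _
    have h2 : |Ups p0 A μ 1 y| ≤ 1 := by
      unfold Ups
      rw [abs_of_nonneg (Real.smoothTransition.nonneg _)]
      exact Real.smoothTransition.le_one _
    have h3 : |fderiv ℝ chi y a| ≤ ‖a‖ * N :=
      TU.TFn_norm (fdchi_TFn (K := 0) hχ a) y
    calc |chi (y - p)| * |Ups p0 A μ 1 y| * |fderiv ℝ chi y a|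
        ≤ 1 * 1 * (‖a‖ * N) := by (clear * - h1 h2 h3; gcongr)
      _ = ‖a‖ * N := by ring
  have key : ∀ y, ⟪n, y⟫_ℝ = s → ‖y‖ ≤ d →
      |Tt p β ε p0 A μ w n y + Tt p β ε p0 A μ n w y + Tt p β ε p0 A μ w w y| ≤
        N * K * 3 * (δ * Q + δ ^ 2 * v) := by
    intro y hy hyd
    obtain ⟨g1, g2⟩ := hg β hβ μ hμ n hn s y hy hyd
    have hvy : vv μ 1 y ≤ H * v := TDc.vv_le hTH hd hC' hμ hyd
    have hvy0 : 0 ≤ vv μ 1 y := Real.sqrt_nonneg _
    have hX2 := tavX2_nonneg μ n y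
    have a1 : |fderiv ℝ (WW β ε μ 1) y n| ≤ K * Q := by
      have h1 := hb2 0 le_rfl (fun _ => 0) (by simp) (by simp) y
      simp only [iteratedFDeriv_zero_apply, inner_grad] at h1
      refine abs_le_of_sq_le_sq ?_ (by (clear * - hC2 hd hC1 hC3; positivity))
      calc _ ≤ C2 * vv μ 1 y * tav (X2 μ n) 1 y := h1
        _ ≤ C2 * (H * v) * (C1 * P) := by (clear * - hvy hC2 g1 hX2 hd hv0; gcongr)
        _ = (C2 * H * C1) * (v * P) := by ring
        _ ≤ K ^ 2 * (v * P) := by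
            refine mul_le_mul_of_nonneg_right (le_trans ?_ hKK) (mul_nonneg hv0 hP0)
            have : 0 ≤ C2 * H := by positivity
            have : 0 ≤ C3 * H := by positivity
            rw [hK]
            linarith
        _ = (K * Q) ^ 2 := by rw [mul_pow, hQ2]
    have a2 : ‖tang n (gradient (WW β ε μ 1) y)‖ ≤ K * Q := by
      have h1 := hb1 0 le_rfl y
      rw [norm_iteratedFDeriv_zero] at h1
      refine (abs_le_of_sq_le_sq' ?_ (by (clear * - hC2 hd hC1 hC3; positivity))).2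
      have hd0 : 0 ≤ P := hP0
      calc _ ≤ C2 * vv μ 1 y * discR n (2 * ε) (X13 β ε μ n 1) y := h1
        _ ≤ C2 * vv μ 1 y * P := by (clear * - g2 hC2 hvy0; gcongr)
        _ ≤ C2 * (H * v) * P := by (clear * - hvy hC2 hP0; gcongr)
        _ = (C2 * H) * (v * P) := by ring
        _ ≤ K ^ 2 * (v * P) := by
            refine mul_le_mul_of_nonneg_right (le_trans ?_ hKK) (mul_nonneg hv0 hP0)
            have : 0 ≤ C2 * H := by positivity
            have : 0 ≤ C2 * H * C1 := by positivity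
            have : 0 ≤ C3 * H := by positivity
            rw [hK]
            linarith
        _ = (K * Q) ^ 2 := by rw [mul_pow, hQ2]
    have a3 : |fderiv ℝ (WW β ε μ 1) y n| ≤ K * v := by
      have h1 := (fderiv ℝ (WW β ε μ 1) y).le_opNorm n
      rw [hn, mul_one, ← norm_iteratedFDeriv_one] at h1
      rw [← Real.norm_eq_abs]
      refine h1.trans ((hWb 1 le_rfl y).trans ?_)
      calc C3 * vv μ 1 y ≤ C3 * (H * v) := by gcongr
        _ = C3 * H * v := by ring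
        _ ≤ K * v := by
            refine mul_le_mul_of_nonneg_right ?_ hv0
            have : 0 ≤ C2 * H * (C1 + 1) := by positivity
            rw [hK]
            linarith
    have a4 : |fderiv ℝ (WW β ε μ 1) y w| ≤ K * Q * δ + K * v * δ ^ 2 := by
      have h1 : fderiv ℝ (WW β ε μ 1) y w =
          ⟪tang n (gradient (WW β ε μ 1) y), w⟫_ℝ
            + fderiv ℝ (WW β ε μ 1) y n * ⟪n, w⟫_ℝ := by
        rw [← inner_grad, ← inner_grad]
        unfold tang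
        rw [inner_sub_left, inner_smul_left, conj_trivial,
          real_inner_comm (gradient (WW β ε μ 1) y) n]
        ring
      rw [h1]
      refine (abs_add_le _ _).trans (add_le_add ?_ ?_)
      · refine (abs_real_inner_le_norm _ _).trans ?_
        exact mul_le_mul a2 hδ (norm_nonneg _) (by (clear * - hC2 hd hC1 hC3; positivity))
      · rw [abs_mul]
        exact mul_le_mul a3 hnw (abs_nonneg _) (by positivity)
    have a5 : 0 ≤ K * Q * δ + K * v * δ ^ 2 := by (clear * - hC2 hd hC1 hC3 hδ0 hv0; positivity)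
    have b1 : |Tt p β ε p0 A μ w n y| ≤ δ * N * (K * Q) :=
      (hT w n y).trans (by (clear * - hδ hN a1 hδ0; gcongr))
    have b2 : |Tt p β ε p0 A μ n w y| ≤ 1 * N * (K * Q * δ + K * v * δ ^ 2) :=
      (hT n w y).trans (by rw [hn]; gcongr)
    have b3 : |Tt p β ε p0 A μ w w y| ≤ 1 * N * (K * Q * δ + K * v * δ ^ 2) :=
      (hT w w y).trans (by
        have : ‖w‖ ≤ 1 := hδ.trans hδ1
        (clear * - this hN a4; gcongr))
    refine (abs_add_le _ _).trans ((add_le_add ((abs_add_le _ _).trans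
      (add_le_add b1 b2)) b3).trans ?_)
    have e : 0 ≤ N * K * (δ ^ 2 * v) := by (clear * - hN hC2 hd hC1 hC3 hv0; positivity)
    linarith only [e]
  have h1 := hpl n hn s _ _ (by (clear * - hN hC2 hd hC1 hC3 hδ0 hv0; positivity)) (fun y hy => by
    rw [Tt_zero hd p β ε p0 A μ _ _ hy.le, Tt_zero hd p β ε p0 A μ _ _ hy.le,
      Tt_zero hd p β ε p0 A μ _ _ hy.le]; norm_num) key
  refine h1.trans (le_of_eq ?_)
  ring

lemma TFn_sum {ι : Type*} (S : Finset ι) {K : ℕ} {N : ℝ} {f : ι → Sp d → ℝ}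
    (h : ∀ i ∈ S, TFn K N (f i)) : TFn K (S.card * N) (fun y => ∑ i ∈ S, f i y) := by
  classical
  induction S using Finset.induction with
  | empty =>
    refine ⟨by simp only [Finset.sum_empty]; exact contDiff_const, fun j _ y => ?_⟩
    simp only [Finset.sum_empty, Finset.card_empty, Nat.cast_zero, zero_mul]
    rw [iteratedFDeriv_fun_zero]
    simp
  | insert i s hi IH =>
    simp only [Finset.sum_insert hi]
    refine TU.TFn_mono (TU.TFn_add (h i (Finset.mem_insert_self _ _))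
      (IH fun j hj => h j (Finset.mem_insert_of_mem hj))) le_rfl (le_of_eq ?_)
    rw [Finset.card_insert_of_notMem hi]
    push_cast
    ring

lemma bv_norm (j : Fin d) : ‖bv j‖ = 1 := by simp [bv]

/-- bounds from TFn for the sheet estimate -/
lemma TB_of {J : ℕ} {n : Sp d} (hn : ‖n‖ = 1) (s : ℝ) {N : ℝ} {ζ : Sp d → ℝ}
    (h : TFn (J + 2) N ζ) (hs : ContDiff ℝ ∞ ζ) : TB J n s N ζ := by
  have aux : ∀ (j : ℕ) (g : Sp d → ℝ) (y : Sp d) (v : Fin j → Sp d), (∀ i, ‖v i‖ ≤ 1) →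
      |iteratedFDeriv ℝ j g y v| ≤ ‖iteratedFDeriv ℝ j g y‖ := by
    intro j g y v hv
    refine ((iteratedFDeriv ℝ j g y).le_opNorm v).trans ?_
    refine mul_le_of_le_one_right (norm_nonneg _) ?_
    exact Finset.prod_le_one (fun i _ => norm_nonneg _) fun i _ => hv i
  intro j hj v _ hv y _
  refine ⟨(aux j ζ y v hv).trans (h.bd j (by omega) y), (aux j _ y v hv).trans ?_⟩
  refine (fd_apply_bd hs n j y).trans ?_
  rw [hn, one_mul]
  exact h.bd (j + 1) (by omega) y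

lemma Tt_smooth {p0 A : ℝ} {μ : Measure (Sp d)} {β : Sp d → ℝ} {ε : ℝ}
    (hW : ContDiff ℝ ∞ (WW β ε μ 1)) (hU : ContDiff ℝ ∞ (Ups p0 A μ 1)) (p a b : Sp d) :
    ContDiff ℝ ∞ (Tt p β ε p0 A μ a b) :=
  (((TDc.chi_smooth.comp (contDiff_id.sub contDiff_const)).mul hU).mul
    (fd_apply_smooth TDc.chi_smooth a)).mul (fd_apply_smooth hW b)

end TFx

/-- MODULE TF (11.3) -/
theorem stmtTF (hTH : StmtTH) (hWA : StmtWA) (hWB : StmtWB) (hMO : StmtMO) (hUB : StmtUB) :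
    StmtTF := by
  intro d J hd M C' ε p0 A R0 hC' hε hε4 hp0 hp1 hA hR
  obtain ⟨C1, hC1, hT⟩ := TFx.Tt_TFn hTH hUB hd (J + 2) (M := M) hC' hε (by linarith) hp0 hp1 hA
  obtain ⟨C2, hC2, hpl⟩ := TFx.plane_bd hTH hWA hWB hMO hUB hd (M := M) hC' hε hε4 hp0 hp1 hA
  refine ⟨3 * C1 + C2, 2 * (3 * C1 + C2) + C1 * (d + 1), by positivity, by positivity, ?_⟩
  intro β hβ μ hμ m m' n n' s ab ep D δ p hm hm' hD _ hS hn' hδ' hδ1 hmm
  have hβ4 : Kit 4 M β := PTm.kit_mono (by omega) hβ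
  have hn := hS.n1
  have hδ : ‖n' - n‖ ≤ δ := by rwa [norm_sub_rev]
  have hδ0 : 0 ≤ δ := (norm_nonneg _).trans hδ
  have hd' : (2 : ℝ) ≤ d := by exact_mod_cast hd
  set v : ℝ := vv μ 1 0 with hv
  set Q : ℝ := Real.sqrt (v * plInt n s (fun x => zR (d + 2) x * XX β ε μ n 1 x)) with hQ
  set w : Sp d := n' - n with hw
  set bl : ℝ := blc n s m (d + 1) with hbl
  have hv0 : 0 ≤ v := Real.sqrt_nonneg _
  have hvp : 0 < v := by
    obtain ⟨C, _, h⟩ := hTH d 0 hd C' hC'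
    exact Real.sqrt_pos.2 ((h μ hμ).1 1 0 one_pos).1
  have hQ0 : 0 ≤ Q := Real.sqrt_nonneg _
  have hep := hS.ep0
  have hab := hS.ab0
  obtain ⟨_, _, hU⟩ := hUB d 0 hd M C' ε p0 A hC' hε (by linarith) hp0 hp1 hA
  obtain ⟨hWs, -, -, -, -, -, -, hUs, -⟩ := hU β hβ4 μ hμ
  have hTc := hT β hβ4 μ hμ p
  have hw1 : ‖w‖ ≤ 1 := hδ.trans hδ1
  have hTs : ∀ a b, ContDiff ℝ ∞ (TFx.Tt p β ε p0 A μ a b) := TFx.Tt_smooth hWs hUs p
  -- the difference of the two densities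
  set ζ : Sp d → ℝ := fun y => TFx.Tt p β ε p0 A μ w n y + TFx.Tt p β ε p0 A μ n w y
    + TFx.Tt p β ε p0 A μ w w y with hζ
  have hζs : ContDiff ℝ ∞ ζ := ((hTs w n).add (hTs n w)).add (hTs w w)
  have hζT : TFn (J + 2) (3 * C1 * δ * v) ζ := by
    refine TU.TFn_mono (TU.TFn_add (TU.TFn_add (hTc w n) (hTc n w)) (hTc w w)) le_rfl ?_
    rw [hn]
    have h1 : ‖w‖ * ‖w‖ ≤ δ * 1 := mul_le_mul hδ hw1 (norm_nonneg _) hδ0
    have h2 : C1 * (‖w‖ * 1) * v ≤ C1 * δ * v := by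
      rw [mul_one]
      gcongr
    have h3 : C1 * (1 * ‖w‖) * v ≤ C1 * δ * v := by
      rw [one_mul]
      (clear * - hδ hC1 hvp; gcongr)
    have h4 : C1 * (‖w‖ * ‖w‖) * v ≤ C1 * δ * v := by
      refine mul_le_mul_of_nonneg_right (mul_le_mul_of_nonneg_left ?_ hC1.le) hv0
      linarith
    linarith
  have hζ0 : ∀ y, (d : ℝ) ≤ ‖y‖ → ζ y = 0 := fun y hy => by
    simp only [hζ]
    rw [TFx.Tt_zero hd p β ε p0 A μ _ _ hy, TFx.Tt_zero hd p β ε p0 A μ _ _ hy,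
      TFx.Tt_zero hd p β ε p0 A μ _ _ hy]
    norm_num
  have hdR : (d : ℝ) ≤ R0 := by linarith
  have hest := hS.est ζ d (3 * C1 * δ * v) ((3 * C1 + C2) * δ * v)
    (hζs.of_le (WithTop.coe_le_coe.2 le_top)) (by positivity) hdR hζ0 (TFx.TB_of hn s hζT hζs)
    (fun y => (hζT.bd 2 (by omega) y).trans (by
      have : 0 ≤ C2 * δ * v := by positivity
      linarith only [this]))
  have hplane := hpl β hβ4 μ hμ n n' p hn hn' s δ hδ hδ1
  -- the second cell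
  set F : Sp d → ℝ := fxA chi (fun x => chi (x - p)) β ε p0 A μ n with hF
  set F' : Sp d → ℝ := fxA chi (fun x => chi (x - p)) β ε p0 A μ n' with hF'
  have hFeq : ∀ (ν : Sp d), ‖ν‖ = 1 → fxA chi (fun x => chi (x - p)) β ε p0 A μ ν =
      fun y => (∑ j, TFx.Tt p β ε p0 A μ (bv j) (bv j) y) - TFx.Tt p β ε p0 A μ ν ν y :=
    fun ν hν => funext fun y => TFx.fxA_eq hν p β ε p0 A μ y
  have hFs : ∀ (ν : Sp d), ‖ν‖ = 1 → TFn (J + 2) (C1 * (d + 1) * v)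
      (fxA chi (fun x => chi (x - p)) β ε p0 A μ ν) := by
    intro ν hν
    rw [hFeq ν hν]
    refine TU.TFn_mono (TU.TFn_sub (TFx.TFn_sum Finset.univ (N := C1 * v)
      (f := fun j => TFx.Tt p β ε p0 A μ (bv j) (bv j)) fun j _ => ?_) (hTc ν ν)) le_rfl ?_
    · have h1 := hTc (bv j) (bv j)
      rw [TFx.bv_norm] at h1
      simpa using h1
    · rw [hν, Finset.card_univ, Fintype.card_fin]
      linarith
  have hFz : ∀ (ν : Sp d), ‖ν‖ = 1 → ∀ y, (d : ℝ) ≤ ‖y‖ →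
      fxA chi (fun x => chi (x - p)) β ε p0 A μ ν y = 0 := by
    intro ν hν y hy
    rw [hFeq ν hν]
    simp only
    rw [TFx.Tt_zero hd p β ε p0 A μ _ _ hy, sub_zero]
    exact Finset.sum_eq_zero fun j _ => TFx.Tt_zero hd p β ε p0 A μ _ _ hy
  have hcs : ∀ (ν : Sp d), ‖ν‖ = 1 →
      HasCompactSupport (fxA chi (fun x => chi (x - p)) β ε p0 A μ ν) := fun ν hν =>
    HasCompactSupport.intro (isCompact_closedBall (0 : Sp d) d) fun y hy => by
      rw [mem_closedBall, dist_zero_right, not_le] at hy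
      exact hFz ν hν y hy.le
  have hint : ∀ (g : Sp d → ℝ), Continuous g → ∀ (ν : Sp d), ‖ν‖ = 1 →
      Integrable (fun y => g y * fxA chi (fun x => chi (x - p)) β ε p0 A μ ν y) := fun g hg ν hν =>
    (hg.mul (hFs ν hν).smooth.continuous).integrable_of_hasCompactSupport
      (hcs ν hν).mul_left
  have hsecond : |∫ y, (m y - m' y) * F' y| ≤ C1 * (d + 1) * v * D := by
    set N : ℝ := C1 * (d + 1) * v with hN
    have hN0 : 0 < N := by positivity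
    have h1 := TU.TFn_const_mul (hFs n' hn') N⁻¹
    rw [abs_of_pos (by positivity), inv_mul_cancel₀ hN0.ne'] at h1
    have h2 := hmm (fun y => N⁻¹ * F' y) (h1.smooth.of_le (by norm_cast; omega))
      (fun y => TU.TFn_norm h1 y) (fun y => h1.bd 2 (by omega) y)
      (fun y hy => by rw [hF', hFz n' hn' y (hdR.trans hy), mul_zero])
    have h3 : ∫ y, (m y - m' y) * (N⁻¹ * F' y) = N⁻¹ * ∫ y, (m y - m' y) * F' y := by
      rw [← integral_const_mul]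
      congr 1
      ext y
      ring
    rw [h3, abs_mul, abs_of_pos (by positivity : (0 : ℝ) < N⁻¹), inv_mul_le_iff₀ hN0] at h2
    exact h2
  have hsplit : (∫ y, m y * F y) - ∫ y, m' y * F' y =
      (∫ y, m y * ζ y) + ∫ y, (m y - m' y) * F' y := by
    have e1 : (fun y => m y * ζ y) = fun y => m y * F y - m y * F' y := by
      funext y
      rw [← mul_sub, hF, hF', TFx.fxA_sub hn hn']
    have e2 : (fun y => (m y - m' y) * F' y) = fun y => m y * F' y - m' y * F' y := by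
      funext y
      ring
    rw [e1, e2, integral_sub (hint m hm n hn) (hint m hm n' hn'),
      integral_sub (hint m hm n' hn') (hint m' hm' n' hn')]
    ring
  rw [hsplit]
  refine (abs_add_le _ _).trans ?_
  have h1 : |∫ y, m y * ζ y| ≤ ab * |plInt n s ζ| + (ep * (3 * C1 * δ * v)
      + (3 * C1 + C2) * δ * v * bl + (3 * C1 * δ * v + (3 * C1 + C2) * δ * v) * D) := by
    have h2 := abs_add_le ((∫ y, m y * ζ y) - ab * plInt n s ζ) (ab * plInt n s ζ)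
    rw [sub_add_cancel, abs_mul, abs_of_pos hab] at h2
    linarith
  have h3 : ab * |plInt n s ζ| ≤ ab * (C2 * δ * Q + C2 * δ ^ 2 * v) :=
    mul_le_mul_of_nonneg_left hplane hab.le
  have h4 : (3 * C1 * δ * v + (3 * C1 + C2) * δ * v) * D ≤ 2 * (3 * C1 + C2) * v * D := by
    refine mul_le_mul_of_nonneg_right ?_ hD
    have h5 : δ * v ≤ v := mul_le_of_le_one_left hv0 hδ1
    have h6 : 0 ≤ C2 * v := by positivity
    nlinarith only [hC1, h5, hC2, hvp]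
  have h5 : 0 ≤ ab * (C1 * δ * Q) := by (clear * - hab hC1 hδ0; positivity)
  have h6 : 0 ≤ ab * (C1 * δ ^ 2 * v) := by (clear * - hab hC1 hvp; positivity)
  have h7 : 0 ≤ (3 * C1 + C2) * ep * Q := by (clear * - hC1 hC2 hep; positivity)
  have h8 : 0 ≤ C2 * (ep * δ) * v := by (clear * - hC2 hep hδ0 hvp; positivity)
  linarith only [hsecond, h1, h3, h4, h5, h6, h7, h8]

end

end TG


end

section

/-!
# Module P4: off-sheet mass and small gains (helper27)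
-/

open MeasureTheory Metric Set TrI
open scoped InnerProductSpace ContDiff ENNReal

namespace TG

noncomputable section

namespace P4x

variable {d : ℕ}

/-- near positivity for arbitrary C^2 norm -/
lemma zp_scale {R D N : ℝ} {m : Sp d → ℝ} (h : ZP R D m) {H : Sp d → ℝ} (hH : TFn 2 N H)
    (h0 : ∀ y, 0 ≤ H y) (hs : ∀ y, R ≤ ‖y‖ → H y = 0) : -(N * D) ≤ ∫ y, m y * H y := by
  rcases (TU.TFn_nonneg hH).eq_or_lt with hN | hN
  · have h2 : ∀ y, H y = 0 := fun y => by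
      have := TU.TFn_norm hH y
      rw [← hN] at this
      simpa using this
    simp [h2, ← hN]
  · have h2 := TU.TFn_const_mul hH (1 / N)
    have h3 : |1 / N| * N = 1 := by
      rw [abs_of_pos (by positivity)]
      field_simp
    rw [h3] at h2
    have h4 := h (fun y => 1 / N * H y) h2.smooth
      (fun y => mul_nonneg (by positivity) (h0 y))
      (fun y => (le_abs_self _).trans (TU.TFn_norm h2 y)) (fun y => h2.bd 2 le_rfl y)
      (fun y hy => by rw [hs y hy, mul_zero])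
    have h5 : ∫ y, m y * (1 / N * H y) = 1 / N * ∫ y, m y * H y := by
      rw [← integral_const_mul]
      congr 1
      ext y
      ring
    rw [h5] at h4
    have h6 := mul_le_mul_of_nonneg_left h4 hN.le
    have h7 : N * (1 / N * ∫ y, m y * H y) = ∫ y, m y * H y := by
      field_simp
    rw [h7] at h6
    linarith

lemma zp_mono {R R' D : ℝ} {m : Sp d → ℝ} (h : ZP R D m) (hR : R' ≤ R) : ZP R' D m :=
  fun H h1 h2 h3 h4 h5 => h H h1 h2 h3 h4 fun y hy => h5 y (hR.trans hy)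

lemma wok_mono {E : Type} [NormedAddCommGroup E] [InnerProductSpace ℝ E] {JA : ℕ}
    {C' R0 Rz Rz' : ℝ} {X : Prm d} {W : Wld d E} (h : WOK JA C' R0 Rz X W) (hR : Rz' ≤ Rz) :
    WOK JA C' R0 Rz' X W where
  X_eq := h.X_eq
  s0_pos := h.s0_pos
  gro := h.gro
  fc := h.fc
  fs := h.fs
  eu := h.eu
  nu := h.nu
  ab0 := h.ab0
  D0 := h.D0
  zp := fun Q => zp_mono (h.zp Q) hR
  dir := fun Q Q' hQ' ζ N h1 h2 => h.dir Q Q' hQ' ζ N h1 fun y hy => h2 y (hR.trans hy)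

/-- Harnack -/
lemma vv_har (hTH : StmtTH) (hd : 2 ≤ d) {C' : ℝ} (hC' : 0 < C') {μ : Measure (Sp d)}
    (hμ : Gro C' μ) (x x' : Sp d) : vv μ 1 x' ≤ (1 + ‖x - x'‖) ^ d * vv μ 1 x := by
  obtain ⟨C, _, hC⟩ := hTH d 0 hd C' hC'
  obtain ⟨h0, -, -, h4, -⟩ := hC μ hμ
  have h5 := h4 1 x x' one_pos
  rw [div_one] at h5
  have h7 : 0 ≤ th μ 1 x := (h0 1 x one_pos).1.le
  have h8 : (1 : ℝ) ≤ (1 + ‖x - x'‖) ^ d := one_le_pow₀ (by linarith [norm_nonneg (x - x')])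
  unfold vv
  rw [Real.sqrt_le_left (by positivity), mul_pow, Real.sq_sqrt h7]
  refine h5.trans (mul_le_mul_of_nonneg_right ?_ h7)
  nlinarith only [h8]

lemma vv_pos (hTH : StmtTH) (hd : 2 ≤ d) {C' : ℝ} (hC' : 0 < C') {μ : Measure (Sp d)}
    (hμ : Gro C' μ) (x : Sp d) : 0 < vv μ 1 x := by
  obtain ⟨C, _, hC⟩ := hTH d 0 hd C' hC'
  exact Real.sqrt_pos.2 ((hC μ hμ).1 1 x one_pos).1

lemma disc_vol (hd : 1 ≤ d) (r : ℝ) (hr : 0 < r) : ∃ c : ℝ, 0 < c ∧ ∀ n : Sp d, ‖n‖ = 1 →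
    volume.real (closedBall (0 : PF.Pl n) r) = c := by
  obtain ⟨k, rfl⟩ : ∃ k, d = k + 1 := ⟨d - 1, by omega⟩
  refine ⟨(volume (closedBall (0 : Sp k) r)).toReal, ?_, fun n hn => ?_⟩
  · exact ENNReal.toReal_pos (measure_closedBall_pos volume _ hr).ne'
      measure_closedBall_lt_top.ne
  · rw [Measure.real, PF.vol k n hn r]

/-- the cells of the level of Q in the neighbourhood -/
def lv (s0 r : ℝ) (JA : ℕ) (Q : Cell d) : Finset (Cell d) :=
  (nst s0 r JA Q).filter fun Q' => Q'.1 = Q.1 + 0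

lemma lv_card (s0 r : ℝ) (JA : ℕ) (Q : Cell d) :
    ((lv s0 r JA Q).card : ℝ) ≤ ((2 * (⌈r⌉ + 1) + 1).toNat : ℝ) ^ d := by
  classical
  have h1 : lv s0 r JA Q ⊆ ({Q.1 + 0} : Finset ℕ) ×ˢ
      Fintype.piFinset fun j => Finset.Icc (Q.2 j / 2 ^ 0 - (⌈r⌉ + 1)) (Q.2 j / 2 ^ 0 + (⌈r⌉ + 1)) := by
    intro Q' hQ'
    unfold lv nst at hQ'
    rw [Finset.mem_filter, Finset.mem_filter, Finset.mem_biUnion] at hQ'
    obtain ⟨⟨⟨i, _, hi⟩, _⟩, h2⟩ := hQ'
    rw [Finset.mem_product, Finset.mem_singleton] at hi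
    have h3 : i = 0 := by
      have := hi.1
      omega
    subst h3
    rw [Finset.mem_product, Finset.mem_singleton]
    exact hi
  have h2 := Finset.card_le_card h1
  rw [Finset.card_product, Finset.card_singleton, one_mul, Fintype.card_piFinset] at h2
  have h3 : ∀ j : Fin d, (Finset.Icc (Q.2 j / 2 ^ 0 - (⌈r⌉ + 1)) (Q.2 j / 2 ^ 0 + (⌈r⌉ + 1))).card =
      (2 * (⌈r⌉ + 1) + 1).toNat := by
    intro j
    rw [Int.card_Icc]
    congr 1
    ring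
  simp only [h3, Finset.prod_const, Finset.card_univ, Fintype.card_fin] at h2
  exact_mod_cast h2

lemma chi_ne {y : Sp d} (hd : 1 ≤ d) (h : chi y ≠ 0) : ‖y‖ < d := by
  by_contra h1
  exact h (PTm.chi_supp (not_lt.1 h1) hd)

section Cells

variable {E : Type} [NormedAddCommGroup E] [InnerProductSpace ℝ E]

lemma m_cont {JA : ℕ} {C' R0 Rz : ℝ} {X : Prm d} {W : Wld d E} (h : WOK JA C' R0 Rz X W)
    (Q : Cell d) (e : E) : Continuous (mQ W.s0 W.f e Q) := by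
  unfold mQ rs
  have := h.fc
  fun_prop

lemma m_int {m ζ : Sp d → ℝ} (hm : Continuous m) (hζ : Continuous ζ) (hc : HasCompactSupport ζ) :
    Integrable (fun y => m y * ζ y) :=
  (hm.mul hζ).integrable_of_hasCompactSupport hc.mul_left

lemma cs_of {ζ : Sp d → ℝ} {ρ : ℝ} (h : ∀ y, ρ < ‖y‖ → ζ y = 0) : HasCompactSupport ζ :=
  HasCompactSupport.intro (isCompact_closedBall (0 : Sp d) ρ) fun y hy => by
    rw [mem_closedBall, dist_zero_right, not_le] at hy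
    exact h y hy

lemma w_nonneg {JA : ℕ} {C' R0 Rz : ℝ} {X : Prm d} {W : Wld d E} (h : WOK JA C' R0 Rz X W)
    (Q : Cell d) : 0 ≤ W.w Q := by
  unfold Wld.w cw lev
  have := h.s0_pos
  positivity

lemma v_nonneg (W : Wld d E) (Q : Cell d) : 0 ≤ W.v Q := Real.sqrt_nonneg _

/-- the potential of neighbouring cells of the same level -/
lemma v_nb (hTH : StmtTH) (hFM : StmtFM) (hd : 2 ≤ d) {JA : ℕ} {C' R0 Rz : ℝ} {X : Prm d}
    (hC' : 0 < C') {W : Wld d E} (h : WOK JA C' R0 Rz X W) {Q Q' : Cell d}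
    (hQ : Q'.1 = Q.1 + 0) {r : ℝ} (ht : ‖tw W.s0 Q Q'‖ ≤ r) :
    W.v Q ≤ (1 + r) ^ d * W.v Q' ∧ W.v Q' ≤ (1 + r) ^ d * W.v Q := by
  obtain ⟨hG, h1, h2, -, -⟩ :=
    (hFM d hd C' hC' W.s0 h.s0_pos 0 Q Q' hQ _ rfl).2.2.2 W.μ h.gro
  rw [pow_zero] at h2
  unfold Wld.v
  rw [← h1, h2]
  have h3 : (1 + ‖tw W.s0 Q Q'‖) ^ d ≤ (1 + r) ^ d :=
    pow_le_pow_left₀ (by positivity) (by linarith) d
  constructor
  · refine (vv_har hTH hd hC' hG (tw W.s0 Q Q') 0).trans ?_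
    rw [sub_zero]
    exact mul_le_mul_of_nonneg_right h3 (Real.sqrt_nonneg _)
  · refine (vv_har hTH hd hC' hG 0 (tw W.s0 Q Q')).trans ?_
    rw [zero_sub, norm_neg]
    exact mul_le_mul_of_nonneg_right h3 (Real.sqrt_nonneg _)

lemma chi_tr {r : ℝ} (hd : 1 ≤ d) {x y : Sp d} (hx : ‖x‖ ≤ r) (hy : r + d < ‖y‖) :
    chi (y - x) = 0 := by
  by_contra h
  have h1 := chi_ne hd h
  have h2 : ‖y‖ ≤ ‖y - x‖ + ‖x‖ := by
    have := norm_add_le (y - x) x
    rwa [sub_add_cancel] at this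
  linarith

/-- cells which are not near: the mass in the cell -/
lemma far_mass (hTH : StmtTH) (hFM : StmtFM) (hd : 2 ≤ d) {r CW : ℝ} (hr : 0 ≤ r) (hCW : 0 < CW) :
    ∃ C3 : ℝ, 0 < C3 ∧ ∀ (JA : ℕ) (C' R0 Rz : ℝ) (X : Prm d), 0 < C' → r = 3 * R0 →
    r + d + 1 ≤ Rz → ∀ (F : Type) [NormedAddCommGroup F] [InnerProductSpace ℝ F]
    (W : Wld d F), WOK JA C' R0 Rz X W → ∀ Q Q' : Cell d, Q' ∈ W.ns R0 JA Q →
    Q'.1 = Q.1 + 0 → ‖tw W.s0 Q Q'‖ ≤ r → 0 ≤ W.val Q' →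
    W.v Q' * (∫ y, W.m Q' y * chi y) ≤ CW * W.val Q' + CW * W.v Q' * W.D Q' →
    W.v Q * (∫ y, W.m Q y * chi (y - tw W.s0 Q Q')) ≤
      (1 + r) ^ d * CW * W.val Q' + C3 * W.v Q * (W.D Q + W.D Q') := by
  obtain ⟨N, hN, hχ⟩ := TFx.chi_TFn (by omega : 1 ≤ d) 2
  refine ⟨(1 + r) ^ d * CW * (1 + r) ^ d + N, by positivity, ?_⟩
  intro JA C' R0 Rz X hC' hr0 hRz F _ _ W hW Q Q' hns hQ ht hval h1
  have hd1 : 1 ≤ d := by omega
  obtain ⟨v1, v2⟩ := v_nb hTH hFM hd hC' hW hQ ht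
  have hvQ := v_nonneg W Q
  have hvQ' := v_nonneg W Q'
  have hDQ := hW.D0 Q
  have hDQ' := hW.D0 Q'
  set x := tw W.s0 Q Q' with hx
  have hχx : TFn 2 N (fun y => chi (y - x)) := TFx.TFn_trans hχ x
  have hcs : HasCompactSupport (fun y : Sp d => chi (y - x)) :=
    cs_of fun y hy => chi_tr hd1 ht hy
  have hdir := hW.dir Q Q' hns (fun y => chi (y - x)) N hχx (fun y hy => chi_tr hd1 ht (by linarith))
  have hfm := (hFM d hd C' hC' W.s0 hW.s0_pos 0 Q Q' hQ x rfl).2.1 F W.f (W.e Q')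
    (fun y => chi (y - x)) hW.fc hW.fs hχx.smooth.continuous
  simp only [zero_mul, pow_zero, one_mul, one_smul, add_sub_cancel_left] at hfm
  have hsplit : ∫ y, (mQ W.s0 W.f (W.e Q') Q y - mQ W.s0 W.f (W.e Q) Q y) * chi (y - x) =
      (∫ y, W.m Q' y * chi y) - ∫ y, W.m Q y * chi (y - x) := by
    unfold Wld.m
    rw [← hfm, ← integral_sub (m_int (m_cont hW Q _) hχx.smooth.continuous hcs)
      (m_int (m_cont hW Q _) hχx.smooth.continuous hcs)]
    congr 1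
    ext y
    ring
  rw [hsplit] at hdir
  have h2 := (abs_le.1 hdir).1
  set I := ∫ y, W.m Q y * chi (y - x)
  set I' := ∫ y, W.m Q' y * chi y
  have h3 : W.v Q * I ≤ W.v Q * I' + W.v Q * (N * W.D Q) := by
    rw [← mul_add]
    exact mul_le_mul_of_nonneg_left (by linarith) hvQ
  have h4 : W.v Q * I' ≤ (1 + r) ^ d * (CW * W.val Q' + CW * W.v Q' * W.D Q') := by
    have h5 : 0 ≤ CW * W.val Q' + CW * W.v Q' * W.D Q' := by (clear * - hCW hval hvQ' hDQ'; positivity)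
    rcases le_or_gt I' 0 with h6 | h6
    · refine le_trans (mul_nonpos_of_nonneg_of_nonpos hvQ h6) (by positivity)
    · calc W.v Q * I' ≤ (1 + r) ^ d * W.v Q' * I' := mul_le_mul_of_nonneg_right v1 h6.le
        _ = (1 + r) ^ d * (W.v Q' * I') := by ring
        _ ≤ _ := mul_le_mul_of_nonneg_left h1 (by positivity)
  have h5 : (1 + r) ^ d * (CW * W.v Q' * W.D Q') ≤
      (1 + r) ^ d * (CW * ((1 + r) ^ d * W.v Q) * W.D Q') := by (clear * - v2 hCW hDQ' hr; gcongr)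
  have h6 : 0 ≤ (1 + r) ^ d * CW * (1 + r) ^ d * W.v Q * W.D Q := by positivity
  have h7 : 0 ≤ N * W.v Q * W.D Q' := by positivity
  linarith only [h3, h4, h5, h6, h7]

/-- cells which are not near: the off-sheet mass -/
lemma far_off (hd : 2 ≤ d) {r c' : ℝ} (hr : 0 ≤ r) (hc : 0 ≤ c') :
    ∃ N : ℝ, 0 < N ∧ ∀ (JA : ℕ) (C' R0 Rz : ℝ) (X : Prm d), r + d + 1 ≤ Rz →
    ∀ (F : Type) [NormedAddCommGroup F] [InnerProductSpace ℝ F] (W : Wld d F),
    WOK JA C' R0 Rz X W → ∀ (Q : Cell d) (x : Sp d), ‖x‖ ≤ r → |W.sv Q| ≤ c' →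
    ∫ y, W.m Q y * (chi (y - x) * hgt (W.nv Q) (W.sv Q) y ^ 2) ≤
      (r + d + c') ^ 2 * (∫ y, W.m Q y * chi (y - x)) + N * W.D Q := by
  obtain ⟨N, hN, hχ⟩ := TFx.chi_TFn (by omega : 1 ≤ d) 2
  set Cz : ℝ := (r + d + c') ^ 2 with hCz
  have hd1 : 1 ≤ d := by omega
  have hCz0 : 0 ≤ Cz := by positivity
  refine ⟨|Cz| * N + 4 ^ 2 * N * max 1 (r + d + c') ^ 2, by positivity, ?_⟩
  intro JA C' R0 Rz X hRz F _ _ W hW Q x hx hs
  have hχx : TFn 2 N (fun y => chi (y - x)) := TFx.TFn_trans hχ x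
  have hsup : ∀ y : Sp d, r + d < ‖y‖ → chi (y - x) = 0 := fun y hy => chi_tr hd1 hx hy
  have h1 := TU.TFn_const_mul hχx Cz
  have h2 : TFn 2 (4 ^ 2 * N * max 1 (r + d + c') ^ 2)
      (fun y => chi (y - x) * hgt (W.nv Q) (W.sv Q) y ^ 2) :=
    TU.TFn_ht_sq hχx hsup (hW.nu Q) hs
  have h3 := TU.TFn_sub h1 h2
  have h4 := zp_scale (hW.zp Q) h3 (fun y => ?_) (fun y hy => ?_)
  · have i1 : Integrable (fun y => W.m Q y * (Cz * chi (y - x))) :=
      m_int (m_cont hW Q _) h1.smooth.continuous (cs_of (ρ := r + d) fun y hy => by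
        rw [hsup y hy, mul_zero])
    have i2 : Integrable (fun y => W.m Q y * (chi (y - x) * hgt (W.nv Q) (W.sv Q) y ^ 2)) :=
      m_int (m_cont hW Q _) h2.smooth.continuous (cs_of (ρ := r + d) fun y hy => by
        rw [hsup y hy, zero_mul])
    have e1 : ∫ y, W.m Q y * (Cz * chi (y - x) - chi (y - x) * hgt (W.nv Q) (W.sv Q) y ^ 2) =
        Cz * (∫ y, W.m Q y * chi (y - x)) -
          ∫ y, W.m Q y * (chi (y - x) * hgt (W.nv Q) (W.sv Q) y ^ 2) := by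
      rw [← integral_const_mul, ← integral_sub (by
        refine i1.congr (Filter.Eventually.of_forall fun y => ?_)
        simp only
        ring) i2]
      congr 1
      ext y
      ring
    rw [e1] at h4
    linarith
  · by_cases hy : r + d < ‖y‖
    · rw [hsup y hy]
      simp
    · push Not at hy
      have h5 : |hgt (W.nv Q) (W.sv Q) y| ≤ r + d + c' :=
        (TU.ht_le (hW.nu Q) (W.sv Q) y).trans (by linarith)
      have h6 : hgt (W.nv Q) (W.sv Q) y ^ 2 ≤ Cz := by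
        rw [← sq_abs]
        exact pow_le_pow_left₀ (abs_nonneg _) h5 2
      have h7 := PTm.chi_nonneg (y - x)
      nlinarith only [h6, h7]
  · rw [hsup y (by linarith)]
    ring

/-- properties of the gain functional -/
lemma XX_facts (hWA : StmtWA) (hd : 2 ≤ d) {J JA : ℕ} {M c0 C' c R0 : ℝ} {X : Prm d}
    (hX : XOK J JA M c0 C' c R0 X) : ∃ CA : ℝ, 0 < CA ∧ ∀ i : ℕ, ∀ μ : Measure (Sp d),
    Gro C' μ → ∀ n : Sp d, ‖n‖ = 1 → ContDiff ℝ 1 (XX (KN X.b i) X.ε μ n 1) ∧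
      (∀ y, 0 ≤ XX (KN X.b i) X.ε μ n 1 y) ∧
      (∀ y, ‖fderiv ℝ (XX (KN X.b i) X.ε μ n 1) y‖ ≤ CA * vv μ 1 y) := by
  obtain ⟨CA, hCA, h⟩ := hWA d 1 hd M C' X.ε hX.C'_pos hX.prm.ε_pos (by linarith [hX.prm.ε_le])
  refine ⟨CA, hCA, fun i μ hμ n hn => ?_⟩
  obtain ⟨-, -, -, -, h5⟩ := h (KN X.b i) (PTm.kit_mono (by omega) (hX.ker.kit i)) μ hμ
  obtain ⟨h6, h7, h8, -⟩ := h5 n hn
  refine ⟨h6, h7, fun y => ?_⟩
  rw [← norm_iteratedFDeriv_one]
  exact h8 1 le_rfl y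

lemma mu_gro (hFM : StmtFM) (hd : 2 ≤ d) {JA : ℕ} {C' R0 Rz : ℝ} {X : Prm d}
    (hC' : 0 < C') {W : Wld d E} (h : WOK JA C' R0 Rz X W) (Q : Cell d) : Gro C' (W.mu Q) :=
  ((hFM d hd C' hC' W.s0 h.s0_pos 0 Q Q rfl _ rfl).2.2.2 W.μ h.gro).1

lemma sg_nonneg (hWA : StmtWA) (hFM : StmtFM) (hd : 2 ≤ d) {J JA : ℕ} {M c0 C' c R0 Rz : ℝ}
    {X : Prm d} (hX : XOK J JA M c0 C' c R0 X) {W : Wld d E} (h : WOK JA C' R0 Rz X W)
    (Q : Cell d) : 0 ≤ W.sg Q := by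
  obtain ⟨CA, hCA, hA⟩ := XX_facts hWA hd hX
  obtain ⟨-, h1, -⟩ := hA (Q.1 - 2) (W.mu Q) (mu_gro hFM hd hX.C'_pos h Q) (W.nv Q) (h.nu Q)
  refine mul_nonneg (h.ab0 Q) (integral_nonneg fun y => mul_nonneg (PTm.chi_nonneg _) ?_)
  have := h1 (W.sv Q • W.nv Q + (y : Sp d))
  unfold Wld.be bQ
  rwa [h.X_eq]

lemma val_nonneg {W : Wld d E} {Q : Cell d} (h : 0 ≤ W.sg Q) : 0 ≤ W.val Q := by
  unfold Wld.val
  split_ifs
  · exact add_nonneg h (le_max_left _ _)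
  · exact le_rfl
  · exact le_max_left _ _

lemma sE_nonneg {R0 : ℝ} {JA : ℕ} {W : Wld d E} {Q : Cell d}
    (h : ∀ Q' ∈ W.ns R0 JA Q, 0 ≤ W.er Q' ^ 2 / W.ab Q' + W.dl Q') : 0 ≤ W.sE R0 JA Q := by
  unfold Wld.sE
  split_ifs
  · exact Finset.sum_nonneg h
  · exact le_rfl

lemma le_sE {R0 : ℝ} {JA : ℕ} {W : Wld d E} {Q Q' Q1 : Cell d}
    (h : ∀ Q' ∈ W.ns R0 JA Q, 0 ≤ W.er Q' ^ 2 / W.ab Q' + W.dl Q')
    (hQ1 : Q1 ∈ W.ns R0 JA Q) (hn : W.Near Q1) (hQ' : Q' ∈ W.ns R0 JA Q) :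
    W.er Q' ^ 2 / W.ab Q' + W.dl Q' ≤ W.sE R0 JA Q := by
  unfold Wld.sE
  rw [if_pos ⟨Q1, hQ1, hn⟩]
  exact Finset.single_le_sum (f := fun Q' => W.er Q' ^ 2 / W.ab Q' + W.dl Q') h hQ'

/-- if the gain is small, then the sheet meets only near cells -/
lemma near_pt (hTH : StmtTH) (hFM : StmtFM) (hWA : StmtWA) (hd : 2 ≤ d) {J JA : ℕ}
    {M c0 C' c R0 : ℝ} {X : Prm d} (hX : XOK J JA M c0 C' c R0 X) :
    ∃ i0 : ℝ, 0 < i0 ∧ ∀ (Rz : ℝ) (E : Type) [NormedAddCommGroup E] [InnerProductSpace ℝ E]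
      (W : Wld d E), WOK JA C' R0 Rz X W → ∀ Q : Cell d,
      plInt (W.nv Q) (W.sv Q)
          (fun x => zR (2 * R0 - 1) x * XX (W.be Q) W.X.ε (W.mu Q) (W.nv Q) 1 x) ≤
          i0 * W.v Q →
      ∀ Q' : Cell d, Q'.1 = Q.1 + 0 → ∀ x0 : Sp d, ⟪W.nv Q, x0⟫_ℝ = W.sv Q → ‖x0‖ ≤ R0 + 1 →
        chi (x0 - tw W.s0 Q Q') ≠ 0 → W.Near Q' := by
  obtain ⟨CA, hCA, hA⟩ := XX_facts hWA hd hX
  have hC' := hX.C'_pos
  have hc : 0 < c := hX.far.c_pos
  have hA1 := hX.prm.A_ge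
  have hR0 := hX.R0_ge
  have hd0 : (0 : ℝ) ≤ d := Nat.cast_nonneg d
  have hR : 400 ≤ R0 := by linarith
  set H1 : ℝ := (1 + (R0 + 1)) ^ d with hH1
  set H2 : ℝ := (1 + (R0 + 2)) ^ d with hH2
  have hH1p : 0 < H1 := by positivity
  have hH2p : 0 < H2 := by positivity
  set r0 : ℝ := min 1 (c / (2 * H1 * (CA * H2))) with hr0
  have hr0p : 0 < r0 := lt_min one_pos (by positivity)
  have hr01 : r0 ≤ 1 := min_le_left _ _
  have hr02 : CA * H2 * r0 ≤ c / (2 * H1) := by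
    have h1 : r0 ≤ c / (2 * H1 * (CA * H2)) := min_le_right _ _
    calc CA * H2 * r0 ≤ CA * H2 * (c / (2 * H1 * (CA * H2))) :=
          mul_le_mul_of_nonneg_left h1 (by positivity)
      _ = c / (2 * H1) := by field_simp
  obtain ⟨V, hV, hvol⟩ := disc_vol (by omega : 1 ≤ d) r0 hr0p
  refine ⟨V * (c / (2 * H1)) / 2, by positivity, ?_⟩
  intro Rz E _ _ W hW Q hsm Q' hQ' x0 hx0 hx0R hchi
  by_contra hnear
  have hn := hW.nu Q
  have hG := mu_gro hFM hd hC' hW Q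
  have hXeq : W.X = X := hW.X_eq
  obtain ⟨hXs, hX0, hXf⟩ := hA (Q.1 - 2) (W.mu Q) hG (W.nv Q) hn
  have hβ : W.be Q = KN X.b (Q.1 - 2) := by
    unfold Wld.be bQ
    rw [hXeq]
  rw [hβ, hXeq] at hsm
  set Y : Sp d → ℝ := XX (KN X.b (Q.1 - 2)) X.ε (W.mu Q) (W.nv Q) 1 with hY
  -- the point is not near
  have hq : qq X.A (W.mu Q) 1 x0 < X.p0 / 2 := by
    have h1 : ¬ (W.X.p0 / 2 ≤ qq W.X.A (W.mu Q') 1 (x0 - tw W.s0 Q Q')) := fun h =>
      hnear ⟨_, hchi, h⟩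
    rw [not_le, hXeq] at h1
    have h2 := ((hFM d hd C' hC' W.s0 hW.s0_pos 0 Q Q' hQ' _ rfl).2.2.2 W.μ hW.gro).2.2.2.2
      M (KN X.b 0) (PTm.kit_mono (by omega) (hX.ker.kit 0)) X.ε hX.prm.ε_pos
      (by linarith only [hX.prm.ε_le]) (W.nv Q) (x0 - tw W.s0 Q Q')
    have h3 := (h2.2.2.2 X.p0 X.A hX.prm.p0_pos (by linarith)).1
    simp only [pow_zero, one_smul, add_sub_cancel] at h3
    unfold Wld.mu at h1 ⊢
    rwa [h3] at h1
  have hp0 := hX.prm.p0_pos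
  have hfar := hX.far.farX (KN X.b (Q.1 - 2)) (hX.ker.kit _) (W.mu Q) hG (W.nv Q) hn x0
    (by linarith)
  have hvv : vv (W.mu Q) 1 0 = W.v Q :=
    ((hFM d hd C' hC' W.s0 hW.s0_pos 0 Q Q rfl _ rfl).2.2.2 W.μ hW.gro).2.1
  have hvp : 0 < W.v Q := by
    rw [← hvv]
    exact vv_pos hTH hd hC' hG 0
  have h1 : W.v Q ≤ H1 * vv (W.mu Q) 1 x0 := by
    have h2 := vv_har hTH hd hC' hG x0 0
    rw [sub_zero, hvv] at h2
    refine h2.trans (mul_le_mul_of_nonneg_right ?_ (Real.sqrt_nonneg _))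
    exact pow_le_pow_left₀ (by positivity) (by linarith) d
  have h2 : c / H1 * W.v Q ≤ Y x0 := by
    refine le_trans ?_ hfar
    rw [div_mul_eq_mul_div, div_le_iff₀ hH1p]
    calc c * W.v Q ≤ c * (H1 * vv (W.mu Q) 1 x0) := mul_le_mul_of_nonneg_left h1 hc.le
      _ = _ := by ring
  have h3 : ∀ z : PF.Pl (W.nv Q), ‖z‖ ≤ r0 → c / (2 * H1) * W.v Q ≤ Y (x0 + (z : Sp d)) := by
    intro z hz
    have hz' : ‖(z : Sp d)‖ ≤ r0 := hz
    have h4 : ‖Y (x0 + (z : Sp d)) - Y x0‖ ≤ CA * (H2 * W.v Q) * ‖x0 + (z : Sp d) - x0‖ := by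
      refine (convex_closedBall (0 : Sp d) (R0 + 2)).norm_image_sub_le_of_norm_fderiv_le (𝕜 := ℝ)
        (f := Y) (fun y _ => (hXs.differentiable (by norm_num)).differentiableAt) (fun y hy => ?_) ?_ ?_
      · rw [mem_closedBall, dist_zero_right] at hy
        refine (hXf y).trans (mul_le_mul_of_nonneg_left ?_ hCA.le)
        have h5 := vv_har hTH hd hC' hG 0 y
        rw [zero_sub, norm_neg, hvv] at h5
        refine h5.trans (mul_le_mul_of_nonneg_right ?_ hvp.le)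
        exact pow_le_pow_left₀ (by positivity) (by linarith) d
      · rw [mem_closedBall, dist_zero_right]
        linarith
      · rw [mem_closedBall, dist_zero_right]
        exact (norm_add_le _ _).trans (by linarith)
    rw [add_sub_cancel_left, Real.norm_eq_abs] at h4
    have h5 := (abs_le.1 h4).1
    have h6 : CA * (H2 * W.v Q) * ‖(z : Sp d)‖ ≤ c / (2 * H1) * W.v Q := by
      calc CA * (H2 * W.v Q) * ‖(z : Sp d)‖ ≤ CA * (H2 * W.v Q) * r0 :=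
            mul_le_mul_of_nonneg_left hz' (by positivity)
        _ = CA * H2 * r0 * W.v Q := by ring
        _ ≤ _ := mul_le_mul_of_nonneg_right hr02 hvp.le
    have h7 : c / H1 * W.v Q = c / (2 * H1) * W.v Q + c / (2 * H1) * W.v Q := by
      field_simp
      ring
    linarith only [h2, h5, h6, h7]
  have h4 := TFx.disc_le hn (by linarith : 0 < 2 * R0 - 1) hXs.continuous hX0 hx0
    (by linarith : ‖x0‖ + r0 ≤ 2 * R0 - 1) (fun _ => c / (2 * H1) * W.v Q) continuous_const h3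
  rw [setIntegral_const, hvol _ hn, smul_eq_mul] at h4
  have h5 : 0 < V * (c / (2 * H1)) * W.v Q := by positivity
  linarith

lemma mem_lv (hNS : StmtNS) (hd : 1 ≤ d) {s0 r : ℝ} (hs : 0 < s0) (hr : 0 ≤ r) {JA : ℕ}
    {Q Q' : Cell d} (h : Q' ∈ lv s0 r JA Q) : Q' ∈ nst s0 r JA Q ∧ Q'.1 = Q.1 + 0 ∧
      ‖tw s0 Q Q'‖ ≤ r := by
  unfold lv at h
  rw [Finset.mem_filter] at h
  obtain ⟨-, h2, -⟩ := hNS d hd s0 r hs hr JA Q
  have h3 := (h2 0 (Nat.zero_le _) Q' h.2).2.2.1 h.1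
  rw [pow_zero, mul_one] at h3
  exact ⟨h.1, h.2, h3⟩

lemma lv_one (hNS : StmtNS) (hd : 1 ≤ d) {s0 r : ℝ} (hs : 0 < s0) (hr : 0 ≤ r) (JA : ℕ)
    (Q : Cell d) {y : Sp d} (hy : ‖y‖ ≤ r - d) :
    ∑ Q' ∈ lv s0 r JA Q, chi (y - tw s0 Q Q') = 1 := by
  obtain ⟨-, -, h3, -⟩ := hNS d hd s0 r hs hr JA Q
  have h4 := h3 0 (Nat.zero_le _) y (by rwa [pow_zero, mul_one])
  simp only [pow_zero, one_smul] at h4
  unfold lv
  exact h4

/-- the off-sheet mass in the ball is at most the sum over the cells of the level -/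
lemma blc_sum (hNS : StmtNS) (hd : 2 ≤ d) {JA : ℕ} {C' R0 : ℝ} {X : Prm d}
    (hR0 : 400 + 8 * (d : ℝ) ≤ R0) : ∃ N : ℝ, 0 < N ∧ ∀ (Rz : ℝ), 3 * R0 + d + 1 ≤ Rz →
    ∀ (E : Type) [NormedAddCommGroup E] [InnerProductSpace ℝ E] (W : Wld d E),
    WOK JA C' R0 Rz X W → ∀ Q : Cell d, |W.sv Q| ≤ 32 * R0 + 4 →
    blc (W.nv Q) (W.sv Q) (W.m Q) (R0 + 4) ≤
      (∑ Q' ∈ lv W.s0 (3 * R0) JA Q, ∫ y, W.m Q y * (chi (y - tw W.s0 Q Q') *
        hgt (W.nv Q) (W.sv Q) y ^ 2)) + N * W.D Q := by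
  have hd1 : 1 ≤ d := by omega
  have hd0 : (0 : ℝ) ≤ d := Nat.cast_nonneg d
  obtain ⟨Nχ, hNχ, hχ⟩ := TFx.chi_TFn hd1 2
  obtain ⟨Nz, hNz, hz⟩ := TU.TFn_of_cs (J := 2) (ζ := (zR (R0 + 4) : Sp d → ℝ))
    ((TU.zR_smooth (by linarith)).of_le (WithTop.coe_le_coe.2 le_top)) (TU.zR_cs _)
  set Ln : ℝ := ((2 * (⌈3 * R0⌉ + 1) + 1).toNat : ℝ) ^ d with hLn
  have hLn0 : 0 ≤ Ln := by positivity
  refine ⟨4 ^ 2 * (Ln * Nχ + Nz) * max 1 (3 * R0 + d + (32 * R0 + 4)) ^ 2, by positivity, ?_⟩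
  intro Rz hRz E _ _ W hW Q hs
  set L := lv W.s0 (3 * R0) JA Q with hL
  have hr : 0 ≤ 3 * R0 := by linarith
  have hmem : ∀ Q' ∈ L, Q' ∈ nst W.s0 (3 * R0) JA Q ∧ Q'.1 = Q.1 + 0 ∧
      ‖tw W.s0 Q Q'‖ ≤ 3 * R0 := fun Q' h => mem_lv hNS hd1 hW.s0_pos hr h
  have h1 : TFn 2 (L.card * Nχ) (fun y => ∑ Q' ∈ L, chi (y - tw W.s0 Q Q')) :=
    TFx.TFn_sum L fun Q' _ => TFx.TFn_trans hχ _
  have h2 := TU.TFn_mono (TU.TFn_sub h1 hz) (le_refl 2) (N' := Ln * Nχ + Nz) (by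
    have := lv_card W.s0 (3 * R0) JA Q
    have h3 := mul_le_mul_of_nonneg_right this hNχ.le
    linarith)
  have hsup : ∀ y : Sp d, 3 * R0 + d < ‖y‖ →
      (∑ Q' ∈ L, chi (y - tw W.s0 Q Q')) - zR (R0 + 4) y = 0 := by
    intro y hy
    rw [TU.zR_zero (by linarith), sub_zero]
    exact Finset.sum_eq_zero fun Q' hQ' => chi_tr hd1 (hmem Q' hQ').2.2 hy
  have h3 := TU.TFn_ht_sq h2 hsup (hW.nu Q) hs
  have h4 := zp_scale (hW.zp Q) h3 (fun y => mul_nonneg ?_ (sq_nonneg _)) (fun y hy => ?_)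
  · have hc : ∀ Q' ∈ L, HasCompactSupport (fun y : Sp d => chi (y - tw W.s0 Q Q') *
        hgt (W.nv Q) (W.sv Q) y ^ 2) := fun Q' hQ' => cs_of (ρ := 3 * R0 + d) fun y hy => by
      rw [chi_tr hd1 (hmem Q' hQ').2.2 hy, zero_mul]
    have hhc : Continuous (hgt (W.nv Q) (W.sv Q)) := by
      unfold hgt
      fun_prop
    have hχc : Continuous (chi : Sp d → ℝ) := hχ.smooth.continuous
    have i1 : ∀ Q' ∈ L, Integrable (fun y => W.m Q y * (chi (y - tw W.s0 Q Q') *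
        hgt (W.nv Q) (W.sv Q) y ^ 2)) := fun Q' hQ' =>
      m_int (m_cont hW Q _) (by fun_prop) (hc Q' hQ')
    have i2 : Integrable (fun y => W.m Q y * (zR (R0 + 4) y *
        hgt (W.nv Q) (W.sv Q) y ^ 2)) :=
      m_int (m_cont hW Q _) (hz.smooth.continuous.mul (hhc.pow 2))
        (cs_of (ρ := R0 + 5) fun y hy => by rw [TU.zR_zero (by linarith), zero_mul])
    have e1 : ∫ y, W.m Q y * (((∑ Q' ∈ L, chi (y - tw W.s0 Q Q')) - zR (R0 + 4) y) *
        ht (W.nv Q) (W.sv Q) y ^ 2) = (∑ Q' ∈ L, ∫ y, W.m Q y * (chi (y - tw W.s0 Q Q') *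
        hgt (W.nv Q) (W.sv Q) y ^ 2)) - ∫ y, W.m Q y * (zR (R0 + 4) y *
        hgt (W.nv Q) (W.sv Q) y ^ 2) := by
      rw [← integral_finset_sum L i1, ← integral_sub (integrable_finset_sum L i1) i2]
      congr 1
      ext y
      rw [← Finset.mul_sum, ← Finset.sum_mul]
      unfold ht hgt
      ring
    rw [e1] at h4
    unfold blc
    linarith
  · by_cases hy : ‖y‖ ≤ 3 * R0 - d
    · rw [lv_one hNS hd1 hW.s0_pos hr JA Q hy]
      linarith [TU.zR_le_one (R0 + 4) y]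
    · rw [not_le] at hy
      rw [TU.zR_zero (by linarith), sub_zero]
      exact Finset.sum_nonneg fun Q' _ => PTm.chi_nonneg _
  · rw [hsup y (by linarith), zero_mul]

lemma pl_int {n : Sp d} (hn : ‖n‖ = 1) (s : ℝ) {F : Sp d → ℝ} (hF : Continuous F) {ρ : ℝ}
    (h : ∀ y, ρ < ‖y‖ → F y = 0) : Integrable (fun z : PF.Pl n => F (s • n + (z : Sp d))) := by
  have h1 : Continuous (fun z : PF.Pl n => s • n + (z : Sp d)) := by fun_prop
  refine (hF.comp h1).integrable_of_hasCompactSupport ?_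
  refine HasCompactSupport.intro (isCompact_closedBall (0 : PF.Pl n) ρ) fun z hz => ?_
  rw [mem_closedBall, dist_zero_right, not_le] at hz
  exact h _ (lt_of_lt_of_le hz (TFx.pl_norm hn s z))

open Classical in
/-- the gain in the ball is at most the sum over the near cells -/
lemma pl_sum (hNS : StmtNS) (hd : 2 ≤ d) {JA : ℕ} {C' R0 Rz : ℝ} {X : Prm d}
    (hR0 : 400 + 8 * (d : ℝ) ≤ R0) {W : Wld d E} (hW : WOK JA C' R0 Rz X W) (Q : Cell d)
    {Y : Sp d → ℝ} (hY : Continuous Y) (hY0 : ∀ y, 0 ≤ Y y)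
    (hnear : ∀ Q' : Cell d, Q'.1 = Q.1 + 0 → ∀ x0 : Sp d, ⟪W.nv Q, x0⟫_ℝ = W.sv Q →
      ‖x0‖ ≤ R0 + 1 → chi (x0 - tw W.s0 Q Q') ≠ 0 → W.Near Q') :
    plInt (W.nv Q) (W.sv Q) (fun x => zR R0 x * Y x) ≤
      ∑ Q' ∈ (lv W.s0 (3 * R0) JA Q).filter (fun Q' => W.Near Q'),
        plInt (W.nv Q) (W.sv Q) (fun x => chi (x - tw W.s0 Q Q') * Y x) := by
  have hd1 : 1 ≤ d := by omega
  have hd0 : (0 : ℝ) ≤ d := Nat.cast_nonneg d
  have hr : 0 ≤ 3 * R0 := by linarith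
  have hn := hW.nu Q
  set L := lv W.s0 (3 * R0) JA Q with hL
  have hmem : ∀ Q' ∈ L, Q' ∈ nst W.s0 (3 * R0) JA Q ∧ Q'.1 = Q.1 + 0 ∧
      ‖tw W.s0 Q Q'‖ ≤ 3 * R0 := fun Q' h => mem_lv hNS hd1 hW.s0_pos hr h
  have hχc : Continuous (chi : Sp d → ℝ) := TDc.chi_smooth.continuous
  have hzc : Continuous (zR R0 : Sp d → ℝ) := (TU.zR_smooth (by linarith)).continuous
  have i1 : ∀ Q' ∈ L.filter (fun Q' => W.Near Q'), Integrable (fun z : PF.Pl (W.nv Q) =>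
      (fun x => chi (x - tw W.s0 Q Q') * Y x) (W.sv Q • W.nv Q + (z : Sp d))) := fun Q' hQ' =>
    pl_int hn (W.sv Q) (F := fun x => chi (x - tw W.s0 Q Q') * Y x) (by fun_prop)
      (ρ := 3 * R0 + d) fun y hy => by
        rw [chi_tr hd1 (hmem Q' (Finset.mem_filter.1 hQ').1).2.2 hy, zero_mul]
  have i2 : Integrable (fun z : PF.Pl (W.nv Q) =>
      (fun x => zR R0 x * Y x) (W.sv Q • W.nv Q + (z : Sp d))) :=
    pl_int hn (W.sv Q) (F := fun x => zR R0 x * Y x) (hzc.mul hY) (ρ := R0 + 1) fun y hy => by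
      rw [TU.zR_zero hy.le, zero_mul]
  unfold plInt
  rw [← integral_finset_sum _ i1]
  refine integral_mono i2 (integrable_finset_sum _ i1) fun z => ?_
  simp only
  set x : Sp d := W.sv Q • W.nv Q + (z : Sp d) with hx
  have hxs : ⟪W.nv Q, x⟫_ℝ = W.sv Q := TFx.pl_inner hn _ z
  rw [← Finset.sum_mul]
  refine mul_le_mul_of_nonneg_right ?_ (hY0 x)
  by_cases hxR : ‖x‖ ≤ R0 + 1
  · have h1 : ∑ Q' ∈ L.filter (fun Q' => W.Near Q'), chi (x - tw W.s0 Q Q') =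
        ∑ Q' ∈ L, chi (x - tw W.s0 Q Q') := by
      refine Finset.sum_subset (Finset.filter_subset _ _) fun Q' hQ' hn' => ?_
      by_contra h2
      exact hn' (Finset.mem_filter.2 ⟨hQ', hnear Q' (hmem Q' hQ').2.1 x hxs hxR h2⟩)
    rw [h1, lv_one hNS hd1 hW.s0_pos hr JA Q (by linarith)]
    exact TU.zR_le_one _ _
  · rw [TU.zR_zero (by linarith)]
    exact Finset.sum_nonneg fun Q' _ => PTm.chi_nonneg _

end Cells

end P4x

open Classical in
/-- MODULE P4 -/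
theorem stmtP4 (hP1 : StmtP1) (hW1 : StmtW1) (hNS : StmtNS) (hFM : StmtFM) (hWA : StmtWA)
    (hTH : StmtTH) : StmtP4 := by
  intro d J JA hd M c0 C' c R0 X hX
  have hd1 : 1 ≤ d := by omega
  have hd0 : (0 : ℝ) ≤ d := Nat.cast_nonneg d
  have hC' := hX.C'_pos
  have hR0 : 400 + 8 * (d : ℝ) ≤ R0 := by linarith [hX.R0_ge, hX.prm.A_ge]
  obtain ⟨CP, hCP, hP⟩ := hP1 d J JA hd M c0 C' c R0 X hX
  obtain ⟨CW, RzW, hCW, hW1'⟩ := hW1 d J JA hd M c0 C' c R0 X hX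
  obtain ⟨C3, hC3, hfm⟩ := P4x.far_mass hTH hFM hd (r := 3 * R0) (by linarith) hCW
  obtain ⟨Nf, hNf, hfo⟩ := P4x.far_off hd (r := 3 * R0) (c' := 32 * R0 + 4) (by linarith)
    (by linarith)
  obtain ⟨CA, hCA, hA⟩ := P4x.XX_facts hWA hd hX
  obtain ⟨i0, hi0, hnp⟩ := P4x.near_pt hTH hFM hWA hd hX
  obtain ⟨NT, hNT, hbs⟩ := P4x.blc_sum hNS hd (JA := JA) (C' := C') (X := X) hR0
  set Cz : ℝ := (3 * R0 + d + (32 * R0 + 4)) ^ 2 with hCz
  set H3 : ℝ := (1 + 3 * R0) ^ d with hH3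
  have hR0p : 0 < R0 := by linarith
  have hH3p : 0 < H3 := by positivity
  have hCzp : 0 < Cz := by positivity
  refine ⟨CP + Cz * (H3 * CW), i0, by positivity, hi0, ?_⟩
  intro Kc hKc
  obtain ⟨κ, CK1, RzP, hκ, hCK1, hP⟩ := hP Kc hKc
  set Ln : ℝ := ((2 * (⌈3 * R0⌉ + 1) + 1).toNat : ℝ) ^ d with hLn
  have hLn0 : 0 ≤ Ln := by positivity
  set Ka : ℝ := 2 * CK1 + Cz * C3 * 2 + Nf with hKa
  have hKap : 0 < Ka := by positivity
  refine ⟨κ, Ln * Ka + NT, max (max RzP RzW) (3 * R0 + d + 1), hκ, by positivity, ?_⟩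
  intro E _ _ _ W hW Q hAsh
  obtain ⟨hs, hSh, hall⟩ := hAsh
  have hWP : WOK JA C' R0 RzP X W :=
    P4x.wok_mono hW ((le_max_left _ _).trans (le_max_left _ _))
  have hWW : WOK JA C' R0 RzW X W :=
    P4x.wok_mono hW ((le_max_right _ _).trans (le_max_left _ _))
  have hRz : 3 * R0 + d + 1 ≤ max (max RzP RzW) (3 * R0 + d + 1) := le_max_right _ _
  have hs0 := hW.s0_pos
  have hr : 0 ≤ 3 * R0 := by linarith
  set L := P4x.lv W.s0 (3 * R0) JA Q with hL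
  have hmem : ∀ Q' ∈ L, Q' ∈ W.ns R0 JA Q ∧ Q'.1 = Q.1 + 0 ∧
      ‖tw W.s0 Q Q'‖ ≤ 3 * R0 := fun Q' h => P4x.mem_lv hNS hd1 hs0 hr h
  have hLcard : (L.card : ℝ) ≤ Ln := P4x.lv_card W.s0 (3 * R0) JA Q
  have hw : ∀ Q', 0 ≤ W.w Q' := P4x.w_nonneg hW
  have hv : 0 ≤ W.v Q := P4x.v_nonneg W Q
  have hsg : ∀ Q', 0 ≤ W.sg Q' := P4x.sg_nonneg hWA hFM hd hX hW
  have hval : ∀ Q', 0 ≤ W.val Q' := fun Q' => P4x.val_nonneg (hsg Q')
  have hwQ : ∀ Q' ∈ L, W.w Q' = W.w Q := by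
    intro Q' hQ'
    obtain ⟨-, h2, -⟩ := hNS d hd1 W.s0 (3 * R0) hs0 hr JA Q
    have h3 := (h2 0 (Nat.zero_le _) Q' (hmem Q' hQ').2.1).1
    rw [zero_mul, pow_zero, one_mul] at h3
    exact h3
  have hQns : Q ∈ W.ns R0 JA Q := by
    obtain ⟨h1, -⟩ := hNS d hd1 W.s0 (3 * R0) hs0 hr JA Q
    refine (h1 Q).2 ⟨0, Nat.zero_le _, rfl, ?_⟩
    rw [sub_self, norm_zero]
    unfold lev
    positivity
  have herr : ∀ Q' ∈ W.ns R0 JA Q, 0 ≤ W.er Q' ^ 2 / W.ab Q' + W.dl Q' := fun Q' hQ' =>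
    add_nonneg (div_nonneg (sq_nonneg _) (hW.ab0 Q')) (hall Q' hQ').2.1.dl0
  have hsE : 0 ≤ W.sE R0 JA Q := P4x.sE_nonneg herr
  have hsD1 : ∀ Q' ∈ W.ns R0 JA Q, W.D Q' ≤ W.sD R0 JA Q := fun Q' hQ' =>
    Finset.single_le_sum (f := fun Q' => W.D Q') (fun Q1 _ => hW.D0 Q1) hQ'
  have hsD : 0 ≤ W.sD R0 JA Q := (hW.D0 Q).trans (hsD1 Q hQns)
  have hwv : 0 ≤ W.w Q * W.v Q := mul_nonneg (hw Q) hv
  have hsV1 : ∀ S : Finset (Cell d), S ⊆ L → ∑ Q' ∈ S, W.w Q' * W.val Q' ≤ W.sV R0 JA Q :=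
    fun S hS => Finset.sum_le_sum_of_subset_of_nonneg
      (fun Q' hQ' => (hmem Q' (hS hQ')).1) fun Q' _ _ => mul_nonneg (hw Q') (hval Q')
  have hsV : 0 ≤ W.sV R0 JA Q := Finset.sum_nonneg fun Q' _ => mul_nonneg (hw Q') (hval Q')
  -- the sheet errors of near cells
  have hnE : ∀ Q' ∈ L, W.Near Q' → W.er Q ^ 2 / W.ab Q + W.er Q' ^ 2 / W.ab Q' + W.dl Q +
      W.dl Q' + W.D Q + W.D Q' ≤ 2 * (W.sE R0 JA Q + W.sD R0 JA Q) := by
    intro Q' hQ' hn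
    have h1 := P4x.le_sE herr (hmem Q' hQ').1 hn hQns
    have h2 := P4x.le_sE herr (hmem Q' hQ').1 hn (hmem Q' hQ').1
    have h3 := hsD1 Q hQns
    have h4 := hsD1 Q' (hmem Q' hQ').1
    linarith only [h1, h2, h3, h4]
  have hvn : ∀ Q' ∈ L, W.Near Q' → W.val Q' = W.sg Q' + max 0 (W.bl Q') := by
    intro Q' hQ' hn
    unfold Wld.val
    rw [if_pos ⟨hn, (hall Q' (hmem Q' hQ').1).1⟩]
  have hED : 0 ≤ W.sE R0 JA Q + W.sD R0 JA Q := add_nonneg hsE hsD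
  refine ⟨?_, fun hsm => ?_⟩
  · -- part 1
    have hcell : ∀ Q' ∈ L, W.w Q * (W.v Q * ∫ y, W.m Q y * (chi (y - tw W.s0 Q Q') *
        hgt (W.nv Q) (W.sv Q) y ^ 2)) ≤ (CP + Cz * (H3 * CW)) * (W.w Q' * W.val Q') +
          Ka * (W.w Q * W.v Q) * (W.sE R0 JA Q + W.sD R0 JA Q) := by
      intro Q' hQ'
      obtain ⟨m1, m2, m3⟩ := hmem Q' hQ'
      by_cases hn : W.Near Q'
      · obtain ⟨-, h2, h3⟩ := hall Q' m1
        have h4 := (hP E W hWP Q hs hSh Q' m1 h2 h3 0 m2).2.2.1 rfl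
        have h5 : W.w Q' * max 0 (W.bl Q') ≤ W.w Q' * W.val Q' := by
          rw [hvn Q' hQ' hn]
          exact mul_le_mul_of_nonneg_left (by linarith [hsg Q']) (hw Q')
        have h6 := mul_le_mul_of_nonneg_left (hnE Q' hQ' hn)
          (mul_nonneg hCK1.le hwv)
        have h7 : 0 ≤ Cz * (H3 * CW) * (W.w Q' * W.val Q') :=
          mul_nonneg (by positivity) (mul_nonneg (hw Q') (hval Q'))
        have h8 : 0 ≤ (Cz * C3 * 2 + Nf) * (W.w Q * W.v Q) * (W.sE R0 JA Q + W.sD R0 JA Q) :=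
          mul_nonneg (mul_nonneg (by positivity) hwv) hED
        have h9 := mul_le_mul_of_nonneg_left h5 hCP.le
        rw [hKa]
        linarith only [h4, h6, h7, h8, h9]
      · obtain ⟨-, -, -, -, h1⟩ := hW1' E W hWW Q' hn
        have h2 := hfm JA C' R0 _ X hC' rfl hRz E W hW Q Q' m1 m2 m3 (hval Q') h1
        have h3 := hfo JA C' R0 _ X hRz E W hW Q (tw W.s0 Q Q') m3 hs
        have h4 := mul_le_mul_of_nonneg_left h3 hv
        have h5 := mul_le_mul_of_nonneg_left h2 hCzp.le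
        have h6 : W.v Q * ∫ y, W.m Q y * (chi (y - tw W.s0 Q Q') *
            hgt (W.nv Q) (W.sv Q) y ^ 2) ≤ Cz * (H3 * CW) * W.val Q' +
              W.v Q * (Cz * C3 * (W.D Q + W.D Q') + Nf * W.D Q) := by
          rw [hCz, hH3] at *
          linarith
        have h7 := mul_le_mul_of_nonneg_left h6 (hw Q)
        have h8 : Cz * C3 * (W.D Q + W.D Q') + Nf * W.D Q ≤
            Ka * (W.sE R0 JA Q + W.sD R0 JA Q) := by
          have g1 : Cz * C3 * (W.D Q + W.D Q') ≤ Cz * C3 * (2 * W.sD R0 JA Q) :=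
            mul_le_mul_of_nonneg_left (by linarith [hsD1 Q hQns, hsD1 Q' m1]) (by positivity)
          have g2 : Nf * W.D Q ≤ Nf * W.sD R0 JA Q :=
            mul_le_mul_of_nonneg_left (hsD1 Q hQns) hNf.le
          have g3 : 0 ≤ Ka * W.sE R0 JA Q := mul_nonneg hKap.le hsE
          have g4 : 0 ≤ 2 * CK1 * W.sD R0 JA Q := mul_nonneg (by positivity) hsD
          rw [hKa] at *
          linarith only [g1, g2, g3, g4]
        have h9 := mul_le_mul_of_nonneg_left h8 hwv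
        have h10 : 0 ≤ CP * (W.w Q' * W.val Q') := mul_nonneg hCP.le (mul_nonneg (hw Q') (hval Q'))
        rw [hwQ Q' hQ'] at *
        linarith only [h7, h9, h10]
    have hsum := Finset.sum_le_sum hcell
    rw [Finset.sum_add_distrib, Finset.sum_const, nsmul_eq_mul, ← Finset.mul_sum,
      ← Finset.mul_sum, ← Finset.mul_sum] at hsum
    have h1 := hbs _ hRz E W hW Q hs
    have h2 : 0 ≤ (CP + Cz * (H3 * CW)) := by positivity
    have h3 := mul_le_mul_of_nonneg_left (hsV1 L subset_rfl) h2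
    have h4 : 0 ≤ Ka * (W.w Q * W.v Q) * (W.sE R0 JA Q + W.sD R0 JA Q) :=
      mul_nonneg (mul_nonneg hKap.le hwv) hED
    have h5 := mul_le_mul_of_nonneg_right hLcard h4
    have h6 : NT * W.D Q ≤ NT * (W.sE R0 JA Q + W.sD R0 JA Q) :=
      mul_le_mul_of_nonneg_left (by linarith [hsD1 Q hQns]) hNT.le
    have h7 := mul_le_mul_of_nonneg_left h6 hwv
    rcases le_total (blc (W.nv Q) (W.sv Q) (W.m Q) (R0 + 4)) 0 with h8 | h8
    · rw [max_eq_left h8, mul_zero]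
      refine add_nonneg (mul_nonneg h2 hsV) (mul_nonneg (mul_nonneg ?_ hwv) hED)
      (clear * - hCK1 hR0p hd hC3 hNf hNT; positivity)
    · rw [max_eq_right h8]
      have h9 := mul_le_mul_of_nonneg_left h1 hwv
      linarith only [hsum, h3, h5, h7, h9]
  · -- part 2
    have hn := hW.nu Q
    have hXeq : W.X = X := hW.X_eq
    have hβ : W.be Q = KN X.b (Q.1 - 2) := by
      unfold Wld.be bQ
      rw [hXeq]
    obtain ⟨hXs, hX0, -⟩ := hA (Q.1 - 2) (W.mu Q) (P4x.mu_gro hFM hd hC' hW Q) (W.nv Q) hn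
    have h1 := P4x.pl_sum hNS hd hR0 hW Q (Y := XX (W.be Q) W.X.ε (W.mu Q) (W.nv Q) 1)
      (by rw [hβ, hXeq]; exact hXs.continuous) (by rw [hβ, hXeq]; exact hX0)
      (hnp _ E W hW Q hsm)
    have hcell : ∀ Q' ∈ L.filter (fun Q' => W.Near Q'), W.w Q * (W.ab Q *
        plInt (W.nv Q) (W.sv Q) (fun x => chi (x - tw W.s0 Q Q') *
          XX (W.be Q) W.X.ε (W.mu Q) (W.nv Q) 1 x)) ≤ CP * (W.w Q' * W.val Q') +
          2 * CK1 * (W.w Q * W.v Q) * (W.sE R0 JA Q + W.sD R0 JA Q) := by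
      intro Q' hQ''
      obtain ⟨hQ', hn⟩ := Finset.mem_filter.1 hQ''
      obtain ⟨m1, m2, m3⟩ := hmem Q' hQ'
      obtain ⟨-, h2, h3⟩ := hall Q' m1
      have h4 := (hP E W hWP Q hs hSh Q' m1 h2 h3 0 m2).1
      have hbe : W.be Q' = W.be Q := by
        unfold Wld.be bQ
        rw [m2, add_zero]
      simp only [pow_zero, one_smul] at h4
      rw [hbe] at h4
      have h5 : W.w Q' * W.sg Q' ≤ W.w Q' * W.val Q' := by
        rw [hvn Q' hQ' hn]
        exact mul_le_mul_of_nonneg_left (by linarith [le_max_left 0 (W.bl Q')]) (hw Q')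
      have h6 := mul_le_mul_of_nonneg_left (hnE Q' hQ' hn) (mul_nonneg hCK1.le hwv)
      have h9 := mul_le_mul_of_nonneg_left h5 hCP.le
      linarith only [h4, h6, h9]
    have hsum := Finset.sum_le_sum hcell
    rw [Finset.sum_add_distrib, Finset.sum_const, nsmul_eq_mul, ← Finset.mul_sum,
      ← Finset.mul_sum, ← Finset.mul_sum] at hsum
    have h3 := mul_le_mul_of_nonneg_left (hsV1 _ (Finset.filter_subset (fun Q' => W.Near Q') L))
      hCP.le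
    have h4 : 0 ≤ 2 * CK1 * (W.w Q * W.v Q) * (W.sE R0 JA Q + W.sD R0 JA Q) :=
      mul_nonneg (mul_nonneg (by positivity) hwv) hED
    have h5 : ((L.filter (fun Q' => W.Near Q')).card : ℝ) ≤ Ln :=
      le_trans (by exact_mod_cast Finset.card_filter_le _ _) hLcard
    have h6 := mul_le_mul_of_nonneg_right h5 h4
    have h7 := mul_le_mul_of_nonneg_left (mul_le_mul_of_nonneg_left h1 (hW.ab0 Q)) (hw Q)
    have h8 : 0 ≤ Cz * (H3 * CW) * W.sV R0 JA Q := mul_nonneg (by positivity) hsV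
    have h9 : 0 ≤ (Ln * (Cz * C3 * 2 + Nf) + NT) * (W.w Q * W.v Q) *
        (W.sE R0 JA Q + W.sD R0 JA Q) := mul_nonneg (mul_nonneg (by (clear * - hR0p hd hC3 hNf hNT; positivity)) hwv) hED
    rw [hKa]
    linarith only [hsum, h3, h6, h7, h8, h9]

end

end TG


end
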