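import Mathlib
import Pool.Agent.TRM.C02
import Pool.Agent.TRM.C04
import Pool.Agent.TRM.C06
import Pool.Agent.TRM.C08
import Pool.Agent.TRM.C10
import Pool.Agent.TRM.C11
import Pool.Agent.TRM.C13
import Pool.Agent.TRM.C17
import Pool.Agent.TRM.C28

/-! Parts: TG.W2a, TG.W2b, TG.W2c, TG.W2d, TG.SHBp, TG.SHBa, TG.TD1, TG.W2e, TG.W2 -/

section

/-!
# Module W2, tools (helper60)
-/

open MeasureTheory Metric Set TrI
open scoped InnerProductSpace ContDiff ENNReal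

set_option linter.unusedSectionVars false

namespace TG

noncomputable section

namespace W2m

variable {d : ℕ}

/-! ## Test functions -/

/-- first derivatives from the function and second derivatives -/
lemma TFn_of_zero_two {g : Sp d → ℝ} (hg : ContDiff ℝ 2 g) (h0 : ∀ y, |g y| ≤ 1)
    (h2 : ∀ y, ‖iteratedFDeriv ℝ 2 g y‖ ≤ 1) : TFn 2 3 g := by
  refine ⟨hg, fun j hj y => ?_⟩
  interval_cases j
  · rw [norm_iteratedFDeriv_zero, Real.norm_eq_abs]
    exact (h0 y).trans (by norm_num)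
  · rw [norm_iteratedFDeriv_one]
    refine ContinuousLinearMap.opNorm_le_bound _ (by norm_num) fun h => ?_
    by_cases hh : h = 0
    · simp [hh]
    have hn : 0 < ‖h‖ := norm_pos_iff.mpr hh
    set u : Sp d := (1 / ‖h‖) • h with hu
    have hun : ‖u‖ = 1 := by
      rw [hu, norm_smul, Real.norm_eq_abs, abs_of_pos (by positivity)]
      field_simp
    have h5 := (convex_closedBall y 1).norm_image_sub_le_of_norm_fderiv_le' (𝕜 := ℝ) (f := g)
      (φ := fderiv ℝ g y) (C := 1) (fun z _ => (hg.differentiable (by norm_num)) z)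
      (fun z hz => by
        have h6 := fderiv_lip hg h2 y z
        rw [mem_closedBall, dist_eq_norm] at hz
        linarith) (x := y) (y := y + u)
      (mem_closedBall_self zero_le_one) (by
        rw [mem_closedBall, dist_eq_norm, add_sub_cancel_left, hun])
    rw [add_sub_cancel_left, hun] at h5
    have h6 : ‖fderiv ℝ g y u‖ ≤ 3 := by
      have e : fderiv ℝ g y u = (g (y + u) - g y) - (g (y + u) - g y - fderiv ℝ g y u) := by ring
      rw [e]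
      refine (norm_sub_le _ _).trans ?_
      have h7 : ‖g (y + u) - g y‖ ≤ 1 + 1 := (norm_sub_le _ _).trans
        (add_le_add (by rw [Real.norm_eq_abs]; exact h0 _) (by rw [Real.norm_eq_abs]; exact h0 _))
      linarith
    have h8 : fderiv ℝ g y u = 1 / ‖h‖ * fderiv ℝ g y h := by
      rw [hu, map_smul, smul_eq_mul]
    rw [h8, norm_mul, Real.norm_of_nonneg (by positivity : (0 : ℝ) ≤ 1 / ‖h‖), one_div,
      inv_mul_le_iff₀ hn] at h6
    linarith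
  · exact (h2 y).trans (by norm_num)

/-! ## Lemma Z with heights -/

lemma ZP_mono {R R' D D' : ℝ} {m : Sp d → ℝ} (h : ZP R D m) (hR : R' ≤ R) (hD : D ≤ D') :
    ZP R' D' m := fun H h1 h2 h3 h4 h5 => by
  have := h H h1 h2 h3 h4 (fun y hy => h5 y (hR.trans hy))
  linarith

/-- test functions of the form φ z², φ ≥ 0 -/
lemma zp_hgt {φ : Sp d → ℝ} (hφ : ContDiff ℝ 2 φ) (hcs : HasCompactSupport φ)
    (h0 : ∀ y, 0 ≤ φ y) {r : ℝ} (hr : ∀ y, r ≤ ‖y‖ → φ y = 0) (S : ℝ) :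
    ∃ K : ℝ, 0 < K ∧ ∀ (m : Sp d → ℝ) (n : Sp d) (s D : ℝ), ‖n‖ = 1 → |s| ≤ S → ZP r D m →
      -(K * D) ≤ ∫ y, m y * (φ y * hgt n s y ^ 2) := by
  obtain ⟨N, hN, hφ'⟩ := TU.TFn_of_cs (J := 2) hφ hcs
  refine ⟨4 ^ 2 * N * max 1 (r + S) ^ 2, by positivity, ?_⟩
  intro m n s D hn hs hZ
  have h2 := TU.TFn_ht_sq hφ' (fun y hy => hr y hy.le) hn hs
  exact GSAux.ZP' hZ h2 (fun y => mul_nonneg (h0 y) (sq_nonneg _)) (fun y hy => by
    rw [hr y hy, zero_mul])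

lemma zR_le {r r' : ℝ} (h : r ≤ r') (y : Sp d) : zR r y ≤ zR r' y :=
  Real.smoothTransition.monotone (by linarith)

lemma int_hgt {m φ : Sp d → ℝ} (hm : Continuous m) (hφ : Continuous φ) (hcs : HasCompactSupport φ)
    (n : Sp d) (s : ℝ) : Integrable (fun y => m y * (φ y * hgt n s y ^ 2)) := by
  have hc : Continuous (fun y => m y * (φ y * hgt n s y ^ 2)) := by
    unfold hgt
    fun_prop
  exact hc.integrable_of_hasCompactSupport (hcs.mul_right.mul_left)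

/-- monotonicity of the off-sheet mass -/
lemma blc_le {r r' : ℝ} (h0 : 0 < r) (h : r ≤ r') (S : ℝ) : ∃ K : ℝ, 0 < K ∧
    ∀ (m : Sp d → ℝ) (n : Sp d) (s D : ℝ), Continuous m → ‖n‖ = 1 → |s| ≤ S → ZP (r' + 1) D m →
      blc n s m r ≤ blc n s m r' + K * D := by
  have hc := (TU.zR_smooth (d := d) (h0.trans_le h))
  have hc' := (TU.zR_smooth (d := d) h0)
  obtain ⟨K, hK, hk⟩ := zp_hgt (φ := fun y : Sp d => zR r' y - zR r y) (r := r' + 1)
    (contDiff_infty.1 (hc.sub hc') 2) ((TU.zR_cs r').sub (TU.zR_cs r))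
    (fun y => by have := zR_le h y; linarith)
    (fun y hy => by rw [TU.zR_zero hy, TU.zR_zero (by linarith), sub_zero]) S
  refine ⟨K, hK, fun m n s D hm hn hs hZ => ?_⟩
  have h1 := hk m n s D hn hs hZ
  have h2 : ∫ y, m y * ((zR r' y - zR r y) * hgt n s y ^ 2) =
      blc n s m r' - blc n s m r := by
    unfold blc
    rw [← integral_sub (int_hgt hm hc.continuous (TU.zR_cs _) n s)
      (int_hgt hm hc'.continuous (TU.zR_cs _) n s)]
    congr 1
    ext y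
    ring
  linarith

/-- the off-sheet mass is almost nonnegative -/
lemma blc_ge {r : ℝ} (h0 : 0 < r) (S : ℝ) : ∃ K : ℝ, 0 < K ∧
    ∀ (m : Sp d → ℝ) (n : Sp d) (s D : ℝ), ‖n‖ = 1 → |s| ≤ S → ZP (r + 1) D m →
      -(K * D) ≤ blc n s m r :=
  zp_hgt (contDiff_infty.1 (TU.zR_smooth (d := d) h0) 2) (TU.zR_cs r) (TU.zR_nonneg r)
    (fun _ hy => TU.zR_zero hy) S

lemma chi_cs (hd : 1 ≤ d) : HasCompactSupport (chi : Sp d → ℝ) :=
  HasCompactSupport.intro (isCompact_closedBall (0 : Sp d) d) fun x hx => PTm.chi_supp (by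
      rw [mem_closedBall, dist_zero_right, not_le] at hx
      exact hx.le) hd

/-- the local off-sheet mass is almost nonnegative -/
lemma chi_ge (hd : 1 ≤ d) (S : ℝ) : ∃ K : ℝ, 0 < K ∧
    ∀ (m : Sp d → ℝ) (n : Sp d) (s D : ℝ), ‖n‖ = 1 → |s| ≤ S → ZP d D m →
      -(K * D) ≤ ∫ y, m y * (chi y * hgt n s y ^ 2) :=
  zp_hgt PTm.chi_contDiff (chi_cs hd) PTm.chi_nonneg (fun _ hy => PTm.chi_supp hy hd) S

/-- the local off-sheet mass is at most the off-sheet mass -/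
lemma chi_le (hd : 1 ≤ d) {r : ℝ} (hr : (d : ℝ) ≤ r) (S : ℝ) : ∃ K : ℝ, 0 < K ∧
    ∀ (m : Sp d → ℝ) (n : Sp d) (s D : ℝ), Continuous m → ‖n‖ = 1 → |s| ≤ S → ZP (r + 1) D m →
      ∫ y, m y * (chi y * hgt n s y ^ 2) ≤ blc n s m r + K * D := by
  have hr0 : 0 < r := by
    have : (1 : ℝ) ≤ d := by exact_mod_cast hd
    linarith
  have hc := (TU.zR_smooth (d := d) hr0)
  obtain ⟨K, hK, hk⟩ := zp_hgt (φ := fun y : Sp d => zR r y - chi y) (r := r + 1)
    ((contDiff_infty.1 hc 2).sub PTm.chi_contDiff) ((TU.zR_cs r).sub (chi_cs hd))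
    (fun y => by
      rcases le_total (d : ℝ) ‖y‖ with h1 | h1
      · rw [PTm.chi_supp h1 hd, sub_zero]
        exact TU.zR_nonneg r y
      · rw [TU.zR_one (h1.trans hr)]
        linarith [PTm.chi_le_one y])
    (fun y hy => by rw [TU.zR_zero hy, PTm.chi_supp (by linarith) hd, sub_zero]) S
  refine ⟨K, hK, fun m n s D hm hn hs hZ => ?_⟩
  have h1 := hk m n s D hn hs hZ
  have h2 : ∫ y, m y * ((zR r y - chi y) * hgt n s y ^ 2) =
      blc n s m r - ∫ y, m y * (chi y * hgt n s y ^ 2) := by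
    unfold blc
    rw [← integral_sub (int_hgt hm hc.continuous (TU.zR_cs _) n s)
      (int_hgt hm PTm.chi_contDiff.continuous (chi_cs hd) n s)]
    congr 1
    ext y
    ring
  linarith

/-! ## Monotonicity of the hypotheses -/

section Wd

variable {E : Type} [NormedAddCommGroup E] [InnerProductSpace ℝ E]

lemma WOK_mono {JA : ℕ} {C' R0 Rz Rz' : ℝ} {X : Prm d} {W : Wld d E} (h : WOK JA C' R0 Rz X W)
    (hR : Rz' ≤ Rz) : WOK JA C' R0 Rz' X W where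
  X_eq := h.X_eq
  s0_pos := h.s0_pos
  gro := h.gro
  fc := h.fc
  fs := h.fs
  eu := h.eu
  nu := h.nu
  ab0 := h.ab0
  D0 := h.D0
  zp := fun Q => ZP_mono (h.zp Q) hR le_rfl
  dir := fun Q Q' hQ ζ N h1 h2 => h.dir Q Q' hQ ζ N h1 fun y hy => h2 y (hR.trans hy)

lemma WSh_mono {J : ℕ} {R0 κ κ' : ℝ} {W : Wld d E} {Q : Cell d} (h : WSh J R0 κ W Q)
    (hκ : κ ≤ κ') : WSh J R0 κ' W Q where
  sh := h.sh
  bl := h.bl
  loc := h.loc
  dl0 := h.dl0
  small := h.small.trans (mul_le_mul_of_nonneg_right hκ h.sh.ab0.le)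
  smalld := h.smalld.trans (mul_le_mul_of_nonneg_right hκ h.sh.ab0.le)

lemma Ash_mono {J JA : ℕ} {R0 κ κ' Kc : ℝ} {W : Wld d E} {Q : Cell d}
    (h : Ash J JA R0 κ Kc W Q) (hκ : κ ≤ κ') : Ash J JA R0 κ' Kc W Q :=
  ⟨h.1, WSh_mono h.2.1 hκ, fun Q' hQ' => ⟨(h.2.2 Q' hQ').1, WSh_mono (h.2.2 Q' hQ').2.1 hκ,
    (h.2.2 Q' hQ').2.2⟩⟩

end Wd

/-! ## The flux density as a function of the normal -/

lemma inner_tang {n : Sp d} (hn : ‖n‖ = 1) (a b : Sp d) :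
    ⟪tang n a, tang n b⟫_ℝ = ⟪a, b⟫_ℝ - ⟪n, a⟫_ℝ * ⟪n, b⟫_ℝ := by
  unfold tang
  have hnn : ⟪n, n⟫_ℝ = 1 := by rw [real_inner_self_eq_norm_sq, hn, one_pow]
  rw [inner_sub_left, inner_sub_right, inner_sub_right, inner_smul_left, inner_smul_right,
    inner_smul_left, inner_smul_right, hnn, real_inner_comm n a]
  simp only [conj_trivial]
  ring

/-- for any two unit vectors the flux density of the second is a combination of flux densities of
vectors at distance at most one from the first -/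
lemma fxA_comb {n n' : Sp d} (hn : ‖n‖ = 1) (hn' : ‖n'‖ = 1) :
    ∃ (n1 n2 : Sp d) (c0 c1 c2 : ℝ), ‖n1‖ = 1 ∧ ‖n2‖ = 1 ∧ ‖n - n1‖ ≤ 1 ∧ ‖n - n2‖ ≤ 1 ∧
      |c0| ≤ 2 ∧ |c1| ≤ 2 ∧ |c2| ≤ 2 ∧ c0 + c1 + c2 = 1 ∧
      ∀ (χ χ' β : Sp d → ℝ) (ε p0 A : ℝ) (μ : Measure (Sp d)) (y : Sp d),
        fxA χ χ' β ε p0 A μ n' y = c0 * fxA χ χ' β ε p0 A μ n y + c1 * fxA χ χ' β ε p0 A μ n1 y +
          c2 * fxA χ χ' β ε p0 A μ n2 y := by
  have hnn : ⟪n, n⟫_ℝ = 1 := by rw [real_inner_self_eq_norm_sq, hn, one_pow]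
  have hnn' : ⟪n', n'⟫_ℝ = 1 := by rw [real_inner_self_eq_norm_sq, hn', one_pow]
  set a : ℝ := ⟪n, n'⟫_ℝ with ha
  set u : Sp d := n' - a • n with hu
  have hnu : ⟪n, u⟫_ℝ = 0 := by
    rw [hu, inner_sub_right, inner_smul_right, hnn, ← ha]; ring
  have hn'e : n' = a • n + u := by rw [hu]; abel
  have huu : ‖u‖ ^ 2 = 1 - a ^ 2 := by
    rw [← real_inner_self_eq_norm_sq, hu, inner_sub_left, inner_sub_right, inner_sub_right,
      inner_smul_left, inner_smul_left, inner_smul_right, inner_smul_right, hnn, hnn',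
      real_inner_comm n n', ← ha]
    simp only [conj_trivial]
    ring
  by_cases hu0 : u = 0
  · have ha2 : a ^ 2 = 1 := by
      rw [hu0, norm_zero] at huu
      linarith
    refine ⟨n, n, 1, 0, 0, hn, hn, by simp, by simp, by norm_num, by norm_num, by norm_num,
      by norm_num, fun χ χ' β ε p0 A μ y => ?_⟩
    have h1 : n' = a • n := by rw [hn'e, hu0, add_zero]
    simp only [one_mul, zero_mul, add_zero]
    unfold fxA
    rw [inner_tang hn', inner_tang hn, h1, inner_smul_left, inner_smul_left]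
    simp only [conj_trivial]
    linear_combination (-(χ' y * Ups p0 A μ 1 y * (⟪n, gradient χ y⟫_ℝ *
      ⟪n, gradient (WW β ε μ 1) y⟫_ℝ))) * ha2
  · have hun : 0 < ‖u‖ := norm_pos_iff.2 hu0
    obtain ⟨t, b, htn, hnt, hbt, hb⟩ : ∃ (t : Sp d) (b : ℝ), ‖t‖ = 1 ∧ ⟪n, t⟫_ℝ = 0 ∧
        u = b • t ∧ b = ‖u‖ := by
      refine ⟨(1 / ‖u‖) • u, ‖u‖, ?_, ?_, ?_, rfl⟩
      · rw [norm_smul, Real.norm_eq_abs, abs_of_pos (by positivity)]
        field_simp
      · rw [inner_smul_right, hnu, mul_zero]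
      · rw [smul_smul]
        have : ‖u‖ * (1 / ‖u‖) = 1 := by field_simp
        rw [this, one_smul]
    rw [← hb] at huu
    have hn'2 : n' = a • n + b • t := by rw [hn'e, ← hbt]
    have hab : a ^ 2 + b ^ 2 = 1 := by linarith
    have htt : ⟪t, t⟫_ℝ = 1 := by rw [real_inner_self_eq_norm_sq, htn, one_pow]
    have hunit : ∀ σ : ℝ, σ ^ 2 = 1 → ‖(4 / 5 : ℝ) • n + (σ * (3 / 5)) • t‖ = 1 := by
      intro σ hσ
      have h1 : ‖(4 / 5 : ℝ) • n + (σ * (3 / 5)) • t‖ ^ 2 = 1 := by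
        rw [← real_inner_self_eq_norm_sq, inner_add_left, inner_add_right, inner_add_right,
          inner_smul_left, inner_smul_left, inner_smul_left, inner_smul_left, inner_smul_right,
          inner_smul_right, inner_smul_right, inner_smul_right, hnn, htt, real_inner_comm n t, hnt]
        simp only [conj_trivial]
        linear_combination (9 / 25) * hσ
      have h2 := norm_nonneg ((4 / 5 : ℝ) • n + (σ * (3 / 5)) • t)
      nlinarith only [h1, h2]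
    have hdist : ∀ σ : ℝ, σ ^ 2 = 1 → ‖n - ((4 / 5 : ℝ) • n + (σ * (3 / 5)) • t)‖ ≤ 1 := by
      intro σ hσ
      have h1 : n - ((4 / 5 : ℝ) • n + (σ * (3 / 5)) • t) =
          (1 / 5 : ℝ) • n - (σ * (3 / 5)) • t := by module
      rw [h1]
      refine (norm_sub_le _ _).trans ?_
      rw [norm_smul, norm_smul, hn, htn, Real.norm_eq_abs, Real.norm_eq_abs, abs_mul]
      have h2 : |σ| = 1 := by
        rw [← abs_one]
        exact (sq_eq_sq_iff_abs_eq_abs _ _).1 (by rw [hσ]; norm_num)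
      rw [h2]
      norm_num
    have ha1 : a ^ 2 ≤ 1 := by linarith only [huu, sq_nonneg b]
    have hb1 : b ^ 2 ≤ 1 := by linarith only [huu, sq_nonneg a]
    have hab1 : |a * b| ≤ 1 / 2 := by
      rw [abs_le]
      constructor <;> (first | linarith only [huu, sq_nonneg (a + b)] | linarith only [huu, sq_nonneg (a - b)] | nlinarith [sq_nonneg (a + b), sq_nonneg (a - b)])
    obtain ⟨hab2, hab3⟩ := abs_le.1 hab1
    refine ⟨(4 / 5 : ℝ) • n + ((1 : ℝ) * (3 / 5)) • t, (4 / 5 : ℝ) • n + ((-1 : ℝ) * (3 / 5)) • t,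
      a ^ 2 - 16 / 9 * b ^ 2, 25 / 18 * b ^ 2 + 25 / 24 * (a * b),
      25 / 18 * b ^ 2 - 25 / 24 * (a * b), hunit 1 (by norm_num), hunit (-1) (by norm_num),
      hdist 1 (by norm_num), hdist (-1) (by norm_num), ?_, ?_, ?_, ?_, ?_⟩
    · rw [abs_le]; constructor <;> (first | linarith only [huu, sq_nonneg a] | linarith only [huu, sq_nonneg b] | nlinarith [sq_nonneg a, sq_nonneg b])
    · rw [abs_le]; constructor <;> (first | linarith only [hab2, sq_nonneg b] | linarith only [huu, hab3, sq_nonneg a] | nlinarith [sq_nonneg a, sq_nonneg b])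
    · rw [abs_le]; constructor <;> (first | linarith only [hab3, sq_nonneg b] | linarith only [huu, hab2, sq_nonneg a] | nlinarith [sq_nonneg a, sq_nonneg b])
    · linear_combination hab
    · intro χ χ' β ε p0 A μ y
      unfold fxA
      rw [inner_tang hn', inner_tang hn, inner_tang (hunit 1 (by norm_num)),
        inner_tang (hunit (-1) (by norm_num)), hn'2]
      simp only [inner_add_left, inner_smul_left, conj_trivial]
      linear_combination (-(χ' y * Ups p0 A μ 1 y * ⟪gradient χ y, gradient (WW β ε μ 1) y⟫_ℝ)) * hab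

end W2m

end

end TG


end

section

/-!
# Module W2, tools, part 2: the flux between sheets, numerical lemmas (helper60)
-/

open MeasureTheory Metric Set TrI
open scoped InnerProductSpace ContDiff ENNReal

set_option linter.unusedSectionVars false

namespace TG

noncomputable section

namespace W2m

variable {d : ℕ}

lemma fxA_int (hd : 2 ≤ d) {m : Sp d → ℝ} (hm : Continuous m) {n : Sp d} (hn : ‖n‖ = 1)
    {p0 A : ℝ} {μ : Measure (Sp d)} {β : Sp d → ℝ} {ε : ℝ}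
    (hW : ContDiff ℝ ∞ (WW β ε μ 1)) (hU : ContDiff ℝ ∞ (Ups p0 A μ 1)) (p : Sp d) :
    Integrable (fun y => m y * fxA chi (fun x => chi (x - p)) β ε p0 A μ n y) := by
  have h1 : (fun y => m y * fxA chi (fun x => chi (x - p)) β ε p0 A μ n y) =
      fun y => m y * ((∑ j, TFx.Tt p β ε p0 A μ (bv j) (bv j) y) - TFx.Tt p β ε p0 A μ n n y) := by
    funext y
    rw [TFx.fxA_eq hn]
  rw [h1]
  have hc : Continuous fun y => m y *
      ((∑ j, TFx.Tt p β ε p0 A μ (bv j) (bv j) y) - TFx.Tt p β ε p0 A μ n n y) :=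
    hm.mul ((continuous_finsetSum _ fun j _ => (TFx.Tt_smooth hW hU p _ _).continuous).sub
      (TFx.Tt_smooth hW hU p _ _).continuous)
  refine hc.integrable_of_hasCompactSupport ?_
  refine HasCompactSupport.intro (isCompact_closedBall (0 : Sp d) d) fun y hy => ?_
  rw [mem_closedBall, dist_zero_right, not_le] at hy
  rw [TFx.Tt_zero hd p β ε p0 A μ n n hy.le, Finset.sum_eq_zero fun j _ =>
    TFx.Tt_zero hd p β ε p0 A μ (bv j) (bv j) hy.le]
  ring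

/-- the flux between two sheet cells, arbitrary tilt -/
lemma flux (hTF : StmtTF) (hUB : StmtUB) {J : ℕ} (hd : 2 ≤ d) {M C' ε p0 A R0 : ℝ}
    (hC' : 0 < C') (hε : 0 < ε) (hε1 : ε ≤ 1 / 4) (hp0 : 0 < p0) (hp1 : p0 ≤ 1) (hA : 1 ≤ A)
    (hR0 : 4 * A + 4 * d + 20 ≤ R0) : ∃ C C1 : ℝ, 0 < C ∧ 0 < C1 ∧
    ∀ β : Sp d → ℝ, Kit (J + 10) M β → ∀ μ : Measure (Sp d), Gro C' μ →
    ∀ (m m' : Sp d → ℝ) (n n' : Sp d) (s ab ep D δ : ℝ) (p : Sp d), Continuous m →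
      Continuous m' → 0 ≤ D → ZP R0 D m → Sheet J R0 ab ep D m n s →
      ‖n'‖ = 1 → 0 ≤ δ → δ ≤ 1 → (‖n - n'‖ ≤ δ ∨ δ = 1) →
      (∀ Y : Sp d → ℝ, TFn 2 3 Y → (∀ y, R0 ≤ ‖y‖ → Y y = 0) → |∫ y, (m y - m' y) * Y y| ≤ D) →
      |(∫ y, m y * fxA chi (fun x => chi (x - p)) β ε p0 A μ n y)
          - ∫ y, m' y * fxA chi (fun x => chi (x - p)) β ε p0 A μ n' y| ≤
        C * (ep + ab * δ) * Real.sqrt (vv μ 1 0 *
            plInt n s (fun x => zR (d + 2) x * XX β ε μ n 1 x))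
          + C * (ep * δ + ab * δ ^ 2) * vv μ 1 0
          + C * δ * vv μ 1 0 * |blc n s m (d + 1)| + C1 * vv μ 1 0 * D := by
  obtain ⟨C, C1, hC, hC1, hT⟩ := hTF d J hd M C' ε p0 A R0 hC' hε hε1 hp0 hp1 hA hR0
  obtain ⟨CU, hCU, hU⟩ := hUB d 0 hd M C' ε p0 A hC' hε (by linarith) hp0 hp1 hA
  refine ⟨6 * C, 6 * C1, by positivity, by positivity, ?_⟩
  intro β hβ μ hμ m m' n n' s ab ep D δ p hm hm' hD hZ hS hn' hδ0 hδ1 hcase hdir
  obtain ⟨hWs, -, -, -, -, -, -, hUs, -⟩ := hU β (PTm.kit_mono (by omega) hβ) μ hμ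
  have hn := hS.n1
  have hep := hS.ep0
  have hab := hS.ab0
  have hv : 0 ≤ vv μ 1 0 := Real.sqrt_nonneg _
  have hdir' : ∀ Y : Sp d → ℝ, ContDiff ℝ 2 Y → (∀ y, |Y y| ≤ 1) →
      (∀ y, ‖iteratedFDeriv ℝ 2 Y y‖ ≤ 1) → (∀ y, R0 ≤ ‖y‖ → Y y = 0) →
      |∫ y, (m y - m' y) * Y y| ≤ D := fun Y h1 h2 h3 h4 =>
    hdir Y (TFn_of_zero_two h1 h2 h3) h4
  set S := Real.sqrt (vv μ 1 0 * plInt n s (fun x => zR (d + 2) x * XX β ε μ n 1 x)) with hS'
  have hS0 : 0 ≤ S := Real.sqrt_nonneg _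
  -- the bound of TF with |blc|
  have base : ∀ (k : Sp d) (δ : ℝ), ‖k‖ = 1 → ‖n - k‖ ≤ δ → δ ≤ 1 →
      |(∫ y, m y * fxA chi (fun x => chi (x - p)) β ε p0 A μ n y)
          - ∫ y, m' y * fxA chi (fun x => chi (x - p)) β ε p0 A μ k y| ≤
        C * (ep + ab * δ) * S + C * (ep * δ + ab * δ ^ 2) * vv μ 1 0
          + C * δ * vv μ 1 0 * |blc n s m (d + 1)| + C1 * vv μ 1 0 * D := by
    intro k δ hk h1 h2
    have h0 : 0 ≤ δ := (norm_nonneg _).trans h1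
    refine (hT β hβ μ hμ m m' n k s ab ep D δ p hm hm' hD hZ hS hk h1 h2 hdir').trans ?_
    have h3 : C * δ * vv μ 1 0 * blc n s m (d + 1) ≤ C * δ * vv μ 1 0 * |blc n s m (d + 1)| :=
      mul_le_mul_of_nonneg_left (le_abs_self _) (by positivity)
    linarith
  rcases hcase with h1 | h1
  · refine (base n' δ hn' h1 hδ1).trans ?_
    have h3 : 0 ≤ C * (ep + ab * δ) * S + C * (ep * δ + ab * δ ^ 2) * vv μ 1 0
          + C * δ * vv μ 1 0 * |blc n s m (d + 1)| + C1 * vv μ 1 0 * D := by (clear * - hC hep hab hδ0 hv hC1 hD; positivity)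
    linarith
  · subst h1
    obtain ⟨n1, n2, c0, c1, c2, hn1, hn2, hd1, hd2, hc0, hc1, hc2, hsum, hcomb⟩ :=
      fxA_comb hn hn'
    have e0 := base n 1 hn (by simp) le_rfl
    have e1 := base n1 1 hn1 hd1 le_rfl
    have e2 := base n2 1 hn2 hd2 le_rfl
    set B := C * (ep + ab * 1) * S + C * (ep * 1 + ab * 1 ^ 2) * vv μ 1 0
          + C * 1 * vv μ 1 0 * |blc n s m (d + 1)| + C1 * vv μ 1 0 * D with hB
    have hB0 : 0 ≤ B := (abs_nonneg _).trans e0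
    set Φ := ∫ y, m y * fxA chi (fun x => chi (x - p)) β ε p0 A μ n y with hΦ
    have i0 := fxA_int hd hm' hn hWs hUs (ε := ε) p
    have i1 := fxA_int hd hm' hn1 hWs hUs (ε := ε) p
    have i2 := fxA_int hd hm' hn2 hWs hUs (ε := ε) p
    have hI : ∫ y, m' y * fxA chi (fun x => chi (x - p)) β ε p0 A μ n' y =
        c0 * (∫ y, m' y * fxA chi (fun x => chi (x - p)) β ε p0 A μ n y) +
        c1 * (∫ y, m' y * fxA chi (fun x => chi (x - p)) β ε p0 A μ n1 y) +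
        c2 * (∫ y, m' y * fxA chi (fun x => chi (x - p)) β ε p0 A μ n2 y) := by
      have i01 : Integrable (fun y => c0 * (m' y * fxA chi (fun x => chi (x - p)) β ε p0 A μ n y) +
          c1 * (m' y * fxA chi (fun x => chi (x - p)) β ε p0 A μ n1 y)) :=
        (i0.const_mul _).add (i1.const_mul _)
      rw [← integral_const_mul, ← integral_const_mul, ← integral_const_mul,
        ← integral_add (i0.const_mul _) (i1.const_mul _),
        ← integral_add i01 (i2.const_mul _)]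
      congr 1
      funext y
      rw [hcomb]
      ring
    have hk : ∀ (x y : ℝ), |x| ≤ 2 → |y| ≤ B → |x * y| ≤ 2 * B := fun x y hx hy => by
      rw [abs_mul]
      exact mul_le_mul hx hy (abs_nonneg _) (by norm_num)
    have e3 : Φ - ∫ y, m' y * fxA chi (fun x => chi (x - p)) β ε p0 A μ n' y =
        c0 * (Φ - ∫ y, m' y * fxA chi (fun x => chi (x - p)) β ε p0 A μ n y) +
        c1 * (Φ - ∫ y, m' y * fxA chi (fun x => chi (x - p)) β ε p0 A μ n1 y) +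
        c2 * (Φ - ∫ y, m' y * fxA chi (fun x => chi (x - p)) β ε p0 A μ n2 y) := by
      rw [hI]
      linear_combination (-Φ) * hsum
    rw [e3]
    refine (abs_add_three _ _ _).trans ?_
    have f0 := hk c0 _ hc0 e0
    have f1 := hk c1 _ hc1 e1
    have f2 := hk c2 _ hc2 e2
    have : 6 * C * (ep + ab * 1) * S + 6 * C * (ep * 1 + ab * 1 ^ 2) * vv μ 1 0
          + 6 * C * 1 * vv μ 1 0 * |blc n s m (d + 1)| + 6 * C1 * vv μ 1 0 * D = 6 * B := by
      rw [hB]; ring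
    linarith

/-! ## Numbers -/

/-- Young -/
lemma young {C e X v ab θ : ℝ} (_hC : 0 ≤ C) (_he : 0 ≤ e) (hX : 0 ≤ X) (hv : 0 ≤ v) (hab : 0 < ab)
    (hθ : 0 < θ) : C * e * Real.sqrt (v * X) ≤ θ * (ab * X) + C ^ 2 / θ * (v * (e ^ 2 / ab)) := by
  have h1 : Real.sqrt (v * X) = Real.sqrt v * Real.sqrt X := Real.sqrt_mul hv X
  have hx := Real.sq_sqrt hX
  have hw := Real.sq_sqrt hv
  rw [h1]
  have h2 : C * e * (Real.sqrt v * Real.sqrt X) ≤
      θ * (ab * Real.sqrt X ^ 2) + C ^ 2 / θ * (Real.sqrt v ^ 2 * (e ^ 2 / ab)) := by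
    have h3 : C ^ 2 / θ * (Real.sqrt v ^ 2 * (e ^ 2 / ab)) =
        (C * e * Real.sqrt v) ^ 2 / (θ * ab) := by field_simp
    rw [h3, ← sub_nonneg]
    have h4 : θ * (ab * Real.sqrt X ^ 2) + (C * e * Real.sqrt v) ^ 2 / (θ * ab) -
        C * e * (Real.sqrt v * Real.sqrt X) =
        ((θ * ab * Real.sqrt X - C * e * Real.sqrt v) ^ 2 +
          θ * ab * Real.sqrt X * (C * e * Real.sqrt v)) / (θ * ab) := by
      field_simp
      ring
    rw [h4]
    positivity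
  rwa [hx, hw] at h2

/-- the square of the tilt -/
lemma tilt_sq {ab ab' er er' dl dl' D D' κ Kc K1 δ : ℝ} (hab : 0 < ab) (hab' : 0 < ab')
    (hdl : 0 ≤ dl) (hdl' : 0 ≤ dl') (hD : 0 ≤ D) (hD' : 0 ≤ D') (hκ1 : κ ≤ 1) (hKc : 1 ≤ Kc) (hK1 : 0 < K1) (sdl : dl ≤ κ * ab)
    (sdl' : dl' ≤ κ * ab') (hK : ab' ≤ Kc * ab) (hδ0 : 0 ≤ δ) (hδ1 : δ ≤ 1)
    (ht : ab * δ ≤ K1 * (er + er' + dl + dl' + D + D')) :
    ab * δ ^ 2 ≤ (1 + 6 * K1 ^ 2 * Kc) * (er ^ 2 / ab + er' ^ 2 / ab' + dl + dl' + D + D') := by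
  have q1 : 0 ≤ er ^ 2 / ab := by positivity
  have q2 : 0 ≤ er' ^ 2 / ab' := by positivity
  set T := er ^ 2 / ab + er' ^ 2 / ab' + dl + dl' + D + D' with hT
  have hT0 : 0 ≤ T := by positivity
  have hKK : 0 ≤ 6 * K1 ^ 2 * Kc := by positivity
  have hδ2 : δ ^ 2 ≤ 1 := by nlinarith
  rcases le_total ab (D + D') with h1 | h1
  · have h2 : ab * δ ^ 2 ≤ ab * 1 := mul_le_mul_of_nonneg_left hδ2 hab.le
    have h3 : D + D' ≤ T := by rw [hT]; linarith
    linarith only [hdl, hdl', q1, q2, h1, h2, mul_nonneg hKK hT0]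
  · have h2 : (ab * δ) ^ 2 ≤ (K1 * (er + er' + dl + dl' + D + D')) ^ 2 :=
      pow_le_pow_left₀ (by positivity) ht 2
    have h3 : (er + er' + dl + dl' + D + D') ^ 2 ≤
        6 * (er ^ 2 + er' ^ 2 + dl ^ 2 + dl' ^ 2 + D ^ 2 + D' ^ 2) := by
      linarith only [sq_nonneg (er - er'), sq_nonneg (er - dl), sq_nonneg (er - dl'), sq_nonneg (er - D), sq_nonneg (er - D'), sq_nonneg (er' - dl), sq_nonneg (er' - dl'), sq_nonneg (er' - D), sq_nonneg (er' - D'), sq_nonneg (dl - dl'), sq_nonneg (dl - D), sq_nonneg (dl - D'), sq_nonneg (dl' - D), sq_nonneg (dl' - D'), sq_nonneg (D - D')]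
    have g1 : er ^ 2 ≤ ab * (Kc * (er ^ 2 / ab)) := by
      have : ab * (Kc * (er ^ 2 / ab)) = Kc * er ^ 2 := by field_simp
      rw [this]
      nlinarith only [hKc]
    have g2 : er' ^ 2 ≤ ab * (Kc * (er' ^ 2 / ab')) := by
      have e : er' ^ 2 = ab' * (er' ^ 2 / ab') := by field_simp
      calc er' ^ 2 = ab' * (er' ^ 2 / ab') := e
        _ ≤ (Kc * ab) * (er' ^ 2 / ab') := mul_le_mul_of_nonneg_right hK q2
        _ = _ := by ring
    have g3 : dl ^ 2 ≤ ab * (Kc * dl) := by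
      have h5 : dl ≤ ab := by nlinarith only [sdl, hab, hκ1]
      have h6 : dl * dl ≤ ab * dl := mul_le_mul_of_nonneg_right h5 hdl
      have h7 : ab * dl ≤ ab * (Kc * dl) := mul_le_mul_of_nonneg_left (by nlinarith only [hdl, hKc]) hab.le
      linarith only [h6, h7]
    have g4 : dl' ^ 2 ≤ ab * (Kc * dl') := by
      have h5 : dl' ≤ Kc * ab := by nlinarith only [sdl', hK, hab', hκ1]
      have h6 : dl' * dl' ≤ (Kc * ab) * dl' := mul_le_mul_of_nonneg_right h5 hdl'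
      linarith only [h6]
    have g5 : D ^ 2 ≤ ab * (Kc * D) := by
      have h5 : D ≤ ab := by linarith
      have h6 : D * D ≤ ab * D := mul_le_mul_of_nonneg_right h5 hD
      have h7 : ab * D ≤ ab * (Kc * D) := mul_le_mul_of_nonneg_left (by nlinarith only [hD, hKc]) hab.le
      linarith only [h6, h7]
    have g6 : D' ^ 2 ≤ ab * (Kc * D') := by
      have h5 : D' ≤ ab := by linarith
      have h6 : D' * D' ≤ ab * D' := mul_le_mul_of_nonneg_right h5 hD'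
      have h7 : ab * D' ≤ ab * (Kc * D') := mul_le_mul_of_nonneg_left (by nlinarith only [hD', hKc]) hab.le
      linarith only [h6, h7]
    have h4 : (ab * δ) ^ 2 ≤ ab * (6 * K1 ^ 2 * Kc * T) := by
      calc (ab * δ) ^ 2 ≤ (K1 * (er + er' + dl + dl' + D + D')) ^ 2 := h2
        _ = K1 ^ 2 * (er + er' + dl + dl' + D + D') ^ 2 := by ring
        _ ≤ K1 ^ 2 * (6 * (er ^ 2 + er' ^ 2 + dl ^ 2 + dl' ^ 2 + D ^ 2 + D' ^ 2)) :=
            mul_le_mul_of_nonneg_left h3 (by positivity)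
        _ ≤ K1 ^ 2 * (6 * (ab * (Kc * (er ^ 2 / ab)) + ab * (Kc * (er' ^ 2 / ab')) +
              ab * (Kc * dl) + ab * (Kc * dl') + ab * (Kc * D) + ab * (Kc * D'))) :=
            mul_le_mul_of_nonneg_left (by linarith only [g1, g2, g3, g4, g5, g6]) (by positivity)
        _ = _ := by rw [hT]; ring
    have h5 : ab * (ab * δ ^ 2) ≤ ab * (6 * K1 ^ 2 * Kc * T) := by
      calc ab * (ab * δ ^ 2) = (ab * δ) ^ 2 := by ring
        _ ≤ _ := h4
    have h6 := le_of_mul_le_mul_left h5 hab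
    linarith

/-- the tilt is small or the density is controlled by the defects -/
lemma tilt_small {ab ab' er er' dl dl' D D' κ Kc K1 θ δ b K : ℝ} (hab : 0 < ab)
    (hD : 0 ≤ D) (hD' : 0 ≤ D')
    (hκ : 0 ≤ κ) (hK1 : 0 < K1) (hθ : 0 < θ)
    (hκθ : K1 * (κ * (2 + 2 * Kc)) ≤ θ / 2) (ser : er ≤ κ * ab) (ser' : er' ≤ κ * ab')
    (sdl : dl ≤ κ * ab) (sdl' : dl' ≤ κ * ab') (hK : ab' ≤ Kc * ab) (hδ1 : δ ≤ 1)
    (ht : ab * δ ≤ K1 * (er + er' + dl + dl' + D + D')) (hb : 0 ≤ b) (hKK : 0 ≤ K)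
    (hb1 : b ≤ er + K * D) :
    δ * b ≤ θ * b + (K + 2 * K1 * κ / θ) * (D + D') := by
  have hq : 0 ≤ (K + 2 * K1 * κ / θ) * (D + D') := by positivity
  rcases le_total δ θ with h1 | h1
  · have := mul_le_mul_of_nonneg_right h1 hb
    linarith only [hq, this]
  · have h2 : θ * ab ≤ ab * δ := by nlinarith only [hab, h1]
    have h3 : er + er' + dl + dl' ≤ κ * (2 + 2 * Kc) * ab := by
      have : κ * ab' ≤ κ * (Kc * ab) := mul_le_mul_of_nonneg_left hK hκ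
      linarith only [ser, ser', sdl, sdl', this]
    have h4 : θ * ab ≤ θ / 2 * ab + K1 * (D + D') := by
      calc θ * ab ≤ K1 * (er + er' + dl + dl' + D + D') := h2.trans ht
        _ ≤ K1 * (κ * (2 + 2 * Kc) * ab + D + D') :=
            mul_le_mul_of_nonneg_left (by linarith) hK1.le
        _ = K1 * (κ * (2 + 2 * Kc)) * ab + K1 * (D + D') := by ring
        _ ≤ θ / 2 * ab + K1 * (D + D') := by
            have := mul_le_mul_of_nonneg_right hκθ hab.le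
            linarith
    have h5 : ab ≤ 2 * K1 / θ * (D + D') := by
      rw [div_mul_eq_mul_div, le_div_iff₀ hθ]
      linarith
    have h6 : b ≤ (K + 2 * K1 * κ / θ) * (D + D') := by
      calc b ≤ κ * ab + K * D := by linarith
        _ ≤ κ * (2 * K1 / θ * (D + D')) + K * (D + D') := by
            have e1 := mul_le_mul_of_nonneg_left h5 hκ
            have e2 : K * D ≤ K * (D + D') := mul_le_mul_of_nonneg_left (by linarith) hKK
            linarith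
        _ = _ := by ring
    have h7 : δ * b ≤ 1 * b := mul_le_mul_of_nonneg_right hδ1 hb
    have h8 : 0 ≤ θ * b := by positivity
    linarith

/-- crude bound of the tilt -/
lemma tilt_crude {ab ab' er er' dl dl' D D' κ Kc K1 δ : ℝ}
    (hκ : 0 ≤ κ) (hK1 : 0 < K1) (ser : er ≤ κ * ab) (ser' : er' ≤ κ * ab')
    (sdl : dl ≤ κ * ab) (sdl' : dl' ≤ κ * ab') (hK : ab' ≤ Kc * ab)
    (ht : ab * δ ≤ K1 * (er + er' + dl + dl' + D + D')) :
    ab * δ ≤ K1 * (κ * (2 + 2 * Kc)) * ab + K1 * (D + D') := by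
  have h3 : er + er' + dl + dl' ≤ κ * (2 + 2 * Kc) * ab := by
    have : κ * ab' ≤ κ * (Kc * ab) := mul_le_mul_of_nonneg_left hK hκ
    nlinarith
  calc ab * δ ≤ K1 * (er + er' + dl + dl' + D + D') := ht
    _ ≤ K1 * (κ * (2 + 2 * Kc) * ab + D + D') := mul_le_mul_of_nonneg_left (by linarith) hK1.le
    _ = _ := by ring

end W2m

end

end TG


end

section

/-!
# Module W2, tools, part 3: frames, fluxes of a cell of type A (helper60)
-/

open MeasureTheory Metric Set TrI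
open scoped InnerProductSpace ContDiff ENNReal

set_option linter.unusedSectionVars false

namespace TG

noncomputable section

namespace W2m

variable {d : ℕ}

/-! ## Adjacent cells -/

lemma mem_adj {Q Q' : Cell d} : Q' ∈ adj Q ↔ Q'.1 = Q.1 ∧
    ∀ j, Q.2 j - 1 ≤ Q'.2 j ∧ Q'.2 j ≤ Q.2 j + 1 := by
  unfold adj
  rw [Finset.mem_product, Finset.mem_singleton, Fintype.mem_piFinset]
  simp only [Finset.mem_Icc]

lemma self_adj (Q : Cell d) : Q ∈ adj Q := mem_adj.2 ⟨rfl, fun j => ⟨by omega, by omega⟩⟩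

lemma adj_symm {Q Q' : Cell d} (h : Q' ∈ adj Q) : Q ∈ adj Q' := by
  rw [mem_adj] at h ⊢
  exact ⟨h.1.symm, fun j => ⟨by linarith [(h.2 j).2], by linarith [(h.2 j).1]⟩⟩

lemma adj_card (Q : Cell d) : (adj Q).card = 3 ^ d := by
  unfold adj
  rw [Finset.card_product, Finset.card_singleton, one_mul, Fintype.card_piFinset]
  have h : ∀ j : Fin d, (Finset.Icc (Q.2 j - 1) (Q.2 j + 1)).card = 3 := fun j => by
    rw [Int.card_Icc]
    omega
  simp only [h]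
  simp

section Wd

variable {E : Type} [NormedAddCommGroup E] [InnerProductSpace ℝ E]

lemma mQ_cont (s0 : ℝ) {f : Sp d → E} (hf : Continuous f) (e : E) (Q : Cell d) :
    Continuous (mQ s0 f e Q) := by
  unfold mQ rs
  fun_prop

/-- the gain on the plane in the ball d + 2 -/
def gX (W : Wld d E) (Q : Cell d) : ℝ :=
  plInt (W.nv Q) (W.sv Q)
    (fun x => zR (d + 2) x * XX (W.be Q) W.X.ε (W.mu Q) (W.nv Q) 1 x)

/-- the flux -/
def Fl (W : Wld d E) (Q Q' : Cell d) : ℝ := Fct W.X W.s0 W.μ W.f W.e W.kd W.nv Q Q'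

/-- the tilt and error bracket -/
def Er (W : Wld d E) (Q Q' : Cell d) : ℝ :=
  W.er Q + W.er Q' + W.dl Q + W.dl Q' + W.D Q + W.D Q'

end Wd

/-- frames -/
lemma frame (hFM : StmtFM) (hd : 2 ≤ d) {C' : ℝ} (hC' : 0 < C') {s0 : ℝ} (hs0 : 0 < s0)
    {μ : Measure (Sp d)} (hμ : Gro C' μ) (Q : Cell d) :
    Gro C' (muQ s0 μ Q) ∧ vv (muQ s0 μ Q) 1 0 = omC μ s0 Q := by
  obtain ⟨-, -, -, h⟩ := hFM d hd C' hC' s0 hs0 0 Q Q (by simp) (tw s0 Q Q) rfl
  exact ⟨(h μ hμ).1, (h μ hμ).2.1⟩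

lemma fluxes (hTF : StmtTF) (hUB : StmtUB) (hP1 : StmtP1) (hW1 : StmtW1) (hNS : StmtNS)
    (hFM : StmtFM) {J JA : ℕ} (hd : 2 ≤ d) {M c0 C' c R0 : ℝ} {X : Prm d}
    (hX : XOK J JA M c0 C' c R0 X) {Rr : ℝ} (hRr : 4 * X.A + 4 * d + 20 ≤ Rr)
    (hRr' : Rr ≤ 64 * R0) :
    ∃ C C1 : ℝ, 0 < C ∧ 0 < C1 ∧ ∀ Kc : ℝ, 1 ≤ Kc → ∃ (κ K1 Rz : ℝ), 0 < κ ∧ 0 < K1 ∧
    ∀ (E : Type) [NormedAddCommGroup E] [InnerProductSpace ℝ E] [FiniteDimensional ℝ E]
      (W : Wld d E), WOK JA C' R0 Rz X W → ∀ Q : Cell d,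
      Ash J JA R0 κ Kc W Q → |W.sv Q| ≤ 3 / 2 * Rr → ∀ Q' ∈ adj Q, ∃ δ : ℝ, 0 ≤ δ ∧ δ ≤ 1 ∧
      W.ab Q * δ ≤ K1 * Er W Q Q' ∧
      |Fl W Q Q'| ≤ C * (W.er Q + W.ab Q * δ) * Real.sqrt (W.v Q * gX W Q)
        + C * (W.er Q * δ + W.ab Q * δ ^ 2) * W.v Q
        + C * δ * W.v Q * |blc (W.nv Q) (W.sv Q) (W.m Q) (d + 1)|
        + C1 * W.v Q * (W.dl Q + 3 * W.D Q) := by
  have hp := hX.prm
  obtain ⟨C, C1, hC, hC1, hfl⟩ := flux hTF hUB (J := J) hd (M := M) hX.C'_pos hp.ε_pos hp.ε_le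
    hp.p0_pos hp.p0_le hp.A_ge hRr
  obtain ⟨_, _, hP⟩ := hP1 d J JA hd M c0 C' c R0 X hX
  obtain ⟨_, Rz2, _, hW1'⟩ := hW1 d J JA hd M c0 C' c R0 X hX
  refine ⟨C, C1, hC, hC1, fun Kc hKc => ?_⟩
  obtain ⟨κ, K1, Rz1, hκ, hK1, hP'⟩ := hP Kc hKc
  refine ⟨κ, K1, max (64 * R0) (max Rz1 Rz2), hκ, hK1, ?_⟩
  intro E _ _ _ W hW Q hA hs Q' hQ'
  have hXe := hW.X_eq
  subst hXe
  have hd1 : 1 ≤ d := by omega
  have hR0 := hX.R0_ge
  have hAg := hp.A_ge
  have hd' : (2 : ℝ) ≤ d := by exact_mod_cast hd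
  have hsq : Real.sqrt d ≤ 3 * R0 := by
    have h1 : Real.sqrt d ≤ d := by
      rw [Real.sqrt_le_left (by positivity)]
      nlinarith
    linarith
  have hsub : adj Q ⊆ W.ns R0 JA Q := (hNS d hd1 W.s0 (3 * R0) hW.s0_pos (by linarith) JA Q).2.2.2.2.2.2.2 hsq
  have hlev : Q'.1 = Q.1 := (mem_adj.1 hQ').1
  obtain ⟨hsv, hSh, hAll⟩ := hA
  obtain ⟨hkd', hSh', hab'⟩ := hAll Q' (hsub hQ')
  obtain ⟨hkd, -, -⟩ := hAll Q (hsub (self_adj Q))
  have hWa := WOK_mono hW ((le_max_left Rz1 Rz2).trans (le_max_right _ _))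
  have hWb := WOK_mono hW ((le_max_right Rz1 Rz2).trans (le_max_right _ _))
  have hWc := WOK_mono hW (le_max_left (64 * R0) (max Rz1 Rz2))
  obtain ⟨-, -, -, σ, hσ, ht⟩ := hP' E W hWa Q hsv hSh Q' (hsub hQ') hSh' hab' 0 (by simpa using hlev)
  obtain ⟨hgro, hv⟩ := frame hFM hd hX.C'_pos hW.s0_pos hW.gro Q
  have hvQ : W.v Q = vv (W.mu Q) 1 0 := hv.symm
  have hv0 : 0 ≤ W.v Q := by rw [hvQ]; exact Real.sqrt_nonneg _
  have hab := hSh.sh.ab0
  have her := hSh.sh.ep0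
  have hD0 := hW.D0 Q
  have hdl0 := hSh.dl0
  by_cases hN : W.Near Q'
  · refine ⟨min 1 ‖W.nv Q - σ • W.nv Q'‖, le_min zero_le_one (norm_nonneg _), min_le_left _ _, ?_, ?_⟩
    · exact (mul_le_mul_of_nonneg_left (min_le_right _ _) hab.le).trans ht
    · have hn' : ‖σ • W.nv Q'‖ = 1 := by
        rw [norm_smul, hW.nu Q', mul_one]
        rcases hσ with rfl | rfl <;> simp
      have hmain := hfl (W.be Q) (PTm.kit_mono (by omega) (hX.ker.kit _)) (W.mu Q) hgro (W.m Q)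
        (mQ W.s0 W.f (W.e Q') Q) (W.nv Q) (σ • W.nv Q') (W.sv Q) (W.ab Q) (W.er Q)
        (W.dl Q + 3 * W.D Q) (min 1 ‖W.nv Q - σ • W.nv Q'‖) (dsp Q Q')
        (mQ_cont _ hW.fc _ _) (mQ_cont _ hW.fc _ _) (by positivity)
        (ZP_mono (hWc.zp Q) hRr' (by linarith))
        (WT.sheet_mono hSh.sh le_rfl hRr' hs le_rfl (by linarith)) hn'
        (le_min zero_le_one (norm_nonneg _)) (min_le_left _ _) (by
          rcases le_total 1 ‖W.nv Q - σ • W.nv Q'‖ with h1 | h1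
          · exact Or.inr (min_eq_left h1)
          · exact Or.inl (by rw [min_eq_right h1])) (fun Y hY hY0 => by
          have h1 := hWc.dir Q Q' (hsub hQ') Y 3 hY (fun y hy => hY0 y (hRr'.trans hy))
          have h2 : ∫ y, (W.m Q y - mQ W.s0 W.f (W.e Q') Q y) * Y y =
              -∫ y, (mQ W.s0 W.f (W.e Q') Q y - mQ W.s0 W.f (W.e Q) Q y) * Y y := by
            rw [← integral_neg]
            congr 1
            funext y
            unfold Wld.m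
            ring
          rw [h2, abs_neg]
          exact h1.trans (by linarith))
      rw [← hvQ] at hmain
      have hF : Fl W Q Q' = (∫ y, W.m Q y * fxA chi (fun x => chi (x - dsp Q Q')) (W.be Q) W.X.ε
          W.X.p0 W.X.A (W.mu Q) (W.nv Q) y) - ∫ y, mQ W.s0 W.f (W.e Q') Q y *
          fxA chi (fun x => chi (x - dsp Q Q')) (W.be Q) W.X.ε W.X.p0 W.X.A (W.mu Q)
            (σ • W.nv Q') y := by
        unfold Fl Fct flx
        rw [if_pos hkd, if_pos hkd']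
        simp only [WT.fxA_sign _ _ _ _ _ _ _ _ _ hσ]
        rfl
      rw [hF]
      exact hmain
  · obtain ⟨-, -, h3, -, -⟩ := hW1' E W hWb Q' hN
    have h4 := (h3 Q (adj_symm hQ')).2
    refine ⟨0, le_rfl, zero_le_one, ?_, ?_⟩
    · rw [mul_zero]
      have h5 := hSh'.sh.ep0
      have h6 := hSh'.dl0
      have h7 := hW.D0 Q'
      unfold Er
      positivity
    · have h5 : Fl W Q Q' = 0 := h4
      rw [h5, abs_zero]
      positivity

end W2m

end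

end TG


end

section

/-!
# Module W2, tools, part 4: the cases A1 and A2 (helper60)
-/

open MeasureTheory Metric Set TrI
open scoped InnerProductSpace ContDiff ENNReal

set_option linter.unusedSectionVars false

namespace TG

noncomputable section

namespace W2m

variable {d : ℕ}

/-! ## Numbers -/

/-- the refined bound of a flux -/
lemma fl_small {C C1 K1 Kc κ θ Kb ab ab' er er' dl dl' D D' v X b δ : ℝ}
    (hC : 0 < C) (hC1 : 0 < C1) (hK1 : 0 < K1) (hKc : 1 ≤ Kc) (hκ : 0 ≤ κ) (hκ1 : κ ≤ 1)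
    (hθ : 0 < θ) (hKb : 0 ≤ Kb) (hab : 0 < ab) (hab' : 0 < ab')
    (her : 0 ≤ er) (hdl : 0 ≤ dl) (hdl' : 0 ≤ dl') (hD : 0 ≤ D)
    (hD' : 0 ≤ D') (hv : 0 ≤ v) (hX : 0 ≤ X) (hb : 0 ≤ b) (hδ0 : 0 ≤ δ) (hδ1 : δ ≤ 1)
    (ser : er ≤ κ * ab) (ser' : er' ≤ κ * ab') (sdl : dl ≤ κ * ab) (sdl' : dl' ≤ κ * ab')
    (hK : ab' ≤ Kc * ab) (hκθ : K1 * (κ * (2 + 2 * Kc)) ≤ θ / C / 2)
    (ht : ab * δ ≤ K1 * (er + er' + dl + dl' + D + D')) (hb1 : b ≤ er + Kb * D) :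
    C * (er + ab * δ) * Real.sqrt (v * X) + C * (er * δ + ab * δ ^ 2) * v
        + C * δ * v * b + C1 * v * (dl + 3 * D) ≤
      θ * (ab * X) + θ * (v * b) +
        (2 * C ^ 2 / θ * (1 + (1 + 6 * K1 ^ 2 * Kc)) + C * (1 + 2 * (1 + 6 * K1 ^ 2 * Kc)) +
          C * (Kb + 2 * K1 / (θ / C)) + 3 * C1) *
        (v * (er ^ 2 / ab + er' ^ 2 / ab' + dl + dl' + D + D')) := by
  have q1 : 0 ≤ er ^ 2 / ab := by positivity
  have q2 : 0 ≤ er' ^ 2 / ab' := by positivity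
  set T := er ^ 2 / ab + er' ^ 2 / ab' + dl + dl' + D + D' with hT
  have hT0 : 0 ≤ T := by (clear * - hab hab' hdl hdl' hD hD'; positivity)
  set K2 := 1 + 6 * K1 ^ 2 * Kc with hK2
  have hK20 : 0 ≤ K2 := by positivity
  have hts : ab * δ ^ 2 ≤ K2 * T := tilt_sq hab hab' hdl hdl' hD hD' hκ1 hKc hK1 sdl sdl' hK hδ0
    hδ1 ht
  have hsm := tilt_small (K := Kb) hab hD hD' hκ hK1 (div_pos hθ hC) hκθ ser ser' sdl sdl' hK hδ1
    ht hb hKb hb1
  have y1 := young hC.le her hX hv hab (half_pos hθ)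
  have y2 := young (e := ab * δ) hC.le (by positivity) hX hv hab (half_pos hθ)
  have e1 : (ab * δ) ^ 2 / ab = ab * δ ^ 2 := by field_simp
  rw [e1] at y2
  have e2 : C ^ 2 / (θ / 2) = 2 * C ^ 2 / θ := by field_simp
  rw [e2] at y1 y2
  have f1 : er ^ 2 / ab ≤ T := by rw [hT]; linarith only [hdl, hdl', hD, hD', q2]
  have f2 : D + D' ≤ T := by rw [hT]; linarith only [hdl, hdl', q1, q2]
  have f3 : dl + 3 * D ≤ 3 * T := by rw [hT]; linarith only [hdl, hdl', hD', q1, q2]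
  have g1 : 2 * C ^ 2 / θ * (v * (er ^ 2 / ab)) ≤ 2 * C ^ 2 / θ * (v * T) := by gcongr
  have g2 : 2 * C ^ 2 / θ * (v * (ab * δ ^ 2)) ≤ 2 * C ^ 2 / θ * (v * (K2 * T)) := by gcongr
  have g3 : er * δ ≤ er ^ 2 / ab + ab * δ ^ 2 := by
    have : er ^ 2 / ab + ab * δ ^ 2 - er * δ = ((er - ab * δ) ^ 2 + er * (ab * δ)) / ab := by
      field_simp
      ring
    rw [← sub_nonneg, this]
    positivity
  have g4 : C * (er * δ + ab * δ ^ 2) * v ≤ C * (1 + 2 * K2) * (v * T) := by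
    have : er * δ + ab * δ ^ 2 ≤ (1 + 2 * K2) * T := by linarith only [hdl, hdl', hD, hD', q2, hts, g3]
    calc C * (er * δ + ab * δ ^ 2) * v ≤ C * ((1 + 2 * K2) * T) * v := by gcongr
      _ = _ := by ring
  have g5 : C * δ * v * b ≤ θ * (v * b) + C * (Kb + 2 * K1 / (θ / C)) * (v * T) := by
    have h1 : δ * b ≤ θ / C * b + (Kb + 2 * K1 / (θ / C)) * T := by
      refine hsm.trans ?_
      have h2 : (Kb + 2 * K1 * κ / (θ / C)) * (D + D') ≤ (Kb + 2 * K1 / (θ / C)) * T := by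
        have h3 : 2 * K1 * κ / (θ / C) ≤ 2 * K1 / (θ / C) := by
          refine div_le_div_of_nonneg_right ?_ (by positivity)
          nlinarith only [hK1, hκ1]
        have h4 : 0 ≤ 2 * K1 / (θ / C) := by positivity
        calc (Kb + 2 * K1 * κ / (θ / C)) * (D + D') ≤ (Kb + 2 * K1 / (θ / C)) * (D + D') := by
              refine mul_le_mul_of_nonneg_right (by linarith only [h3]) (by linarith only [hD, hD'])
          _ ≤ _ := mul_le_mul_of_nonneg_left f2 (by linarith only [hKb, h4])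
      linarith only [h2]
    calc C * δ * v * b = C * v * (δ * b) := by ring
      _ ≤ C * v * (θ / C * b + (Kb + 2 * K1 / (θ / C)) * T) :=
          mul_le_mul_of_nonneg_left h1 (by positivity)
      _ = _ := by field_simp
  have g6 : C1 * v * (dl + 3 * D) ≤ 3 * C1 * (v * T) := by
    calc C1 * v * (dl + 3 * D) ≤ C1 * v * (3 * T) := mul_le_mul_of_nonneg_left f3 (by positivity)
      _ = _ := by ring
  have g7 : C * (er + ab * δ) * Real.sqrt (v * X) =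
      C * er * Real.sqrt (v * X) + C * (ab * δ) * Real.sqrt (v * X) := by ring
  rw [g7]
  have : (2 * C ^ 2 / θ * (1 + K2) + C * (1 + 2 * K2) + C * (Kb + 2 * K1 / (θ / C)) + 3 * C1) *
      (v * T) = 2 * C ^ 2 / θ * (v * T) + 2 * C ^ 2 / θ * (v * (K2 * T)) + C * (1 + 2 * K2) * (v * T)
        + C * (Kb + 2 * K1 / (θ / C)) * (v * T) + 3 * C1 * (v * T) := by ring
  rw [this]
  linarith only [y1, y2, g1, g2, g4, g5, g6]

/-- the crude bound of a flux -/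
lemma fl_crude {C C1 K1 Kc κ S Kb ab ab' er er' dl dl' D D' v X b δ : ℝ}
    (hC : 0 < C) (hC1 : 0 < C1) (hK1 : 0 < K1) (hκ : 0 ≤ κ)
    (hKb : 0 ≤ Kb) (hab : 0 < ab) (hS : 0 ≤ S) (her : 0 ≤ er) (hD' : 0 ≤ D') (hv : 0 ≤ v) (hX : X ≤ S ^ 2 * v) (hb : 0 ≤ b) (hδ0 : 0 ≤ δ) (hδ1 : δ ≤ 1)
    (ser : er ≤ κ * ab) (ser' : er' ≤ κ * ab') (sdl : dl ≤ κ * ab) (sdl' : dl' ≤ κ * ab')
    (hK : ab' ≤ Kc * ab)
    (ht : ab * δ ≤ K1 * (er + er' + dl + dl' + D + D')) (hb1 : b ≤ er + Kb * D) :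
    C * (er + ab * δ) * Real.sqrt (v * X) + C * (er * δ + ab * δ ^ 2) * v
        + C * δ * v * b + C1 * v * (dl + 3 * D) ≤
      v * (κ * (C * (S + 1) * (1 + K1 * (2 + 2 * Kc)) + C + C1) * ab) +
        v * ((C * (S + 1) * K1 + C * Kb + 3 * C1) * (D + D')) := by
  have h1 : Real.sqrt (v * X) ≤ S * v := by
    rw [Real.sqrt_le_left (by positivity)]
    nlinarith only [hv, hX]
  have htc := tilt_crude hκ hK1 ser ser' sdl sdl' hK ht
  have h2 : er + ab * δ ≤ κ * (1 + K1 * (2 + 2 * Kc)) * ab + K1 * (D + D') := by linarith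
  have hab0 : 0 ≤ ab * δ := by positivity
  have h3 : C * (er + ab * δ) * Real.sqrt (v * X) ≤ C * (er + ab * δ) * (S * v) :=
    mul_le_mul_of_nonneg_left h1 (by positivity)
  have h4 : C * (er * δ + ab * δ ^ 2) * v ≤ C * (er + ab * δ) * v := by
    have : er * δ + ab * δ ^ 2 ≤ er + ab * δ := by nlinarith only [her, hδ1, hab0]
    gcongr
  have h5 : C * δ * v * b ≤ C * v * (κ * ab + Kb * (D + D')) := by
    have : δ * b ≤ κ * ab + Kb * (D + D') := by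
      have e1 : δ * b ≤ 1 * b := mul_le_mul_of_nonneg_right hδ1 hb
      have e2 : Kb * D ≤ Kb * (D + D') := mul_le_mul_of_nonneg_left (by linarith) hKb
      linarith
    calc C * δ * v * b = C * v * (δ * b) := by ring
      _ ≤ _ := mul_le_mul_of_nonneg_left this (by positivity)
  have h6 : C1 * v * (dl + 3 * D) ≤ C1 * v * (κ * ab + 3 * (D + D')) :=
    mul_le_mul_of_nonneg_left (by linarith) (by positivity)
  have h7 : C * (S + 1) * v * (er + ab * δ) ≤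
      C * (S + 1) * v * (κ * (1 + K1 * (2 + 2 * Kc)) * ab + K1 * (D + D')) :=
    mul_le_mul_of_nonneg_left h2 (by positivity)
  calc _ ≤ C * (er + ab * δ) * (S * v) + C * (er + ab * δ) * v + C * v * (κ * ab + Kb * (D + D')) +
        C1 * v * (κ * ab + 3 * (D + D')) := by linarith
    _ = C * (S + 1) * v * (er + ab * δ) + C * v * (κ * ab + Kb * (D + D')) +
        C1 * v * (κ * ab + 3 * (D + D')) := by ring
    _ ≤ C * (S + 1) * v * (κ * (1 + K1 * (2 + 2 * Kc)) * ab + K1 * (D + D')) +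
        C * v * (κ * ab + Kb * (D + D')) + C1 * v * (κ * ab + 3 * (D + D')) := by linarith
    _ = _ := by ring

/-! ## Sums over the neighbourhood -/

section Wd

variable {E : Type} [NormedAddCommGroup E] [InnerProductSpace ℝ E]

lemma adj_ns (hNS : StmtNS) (hd : 2 ≤ d) {R0 : ℝ} (hR : (d : ℝ) ≤ 3 * R0) (JA : ℕ)
    (W : Wld d E) (hs : 0 < W.s0) (Q : Cell d) : adj Q ⊆ W.ns R0 JA Q := by
  have hd1 : 1 ≤ d := by omega
  have hd' : (2 : ℝ) ≤ d := by exact_mod_cast hd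
  refine (hNS d hd1 W.s0 (3 * R0) hs (by linarith) JA Q).2.2.2.2.2.2.2 ?_
  have h1 : Real.sqrt d ≤ d := by
    rw [Real.sqrt_le_left (by positivity)]
    nlinarith only [hd']
  linarith

lemma sE_ge {J JA : ℕ} {R0 κ Kc : ℝ} {W : Wld d E} {Q Q' : Cell d}
    (hA : Ash J JA R0 κ Kc W Q) (hQ : Q ∈ W.ns R0 JA Q) (hN : W.Near Q)
    (hQ' : Q' ∈ W.ns R0 JA Q) : W.er Q' ^ 2 / W.ab Q' + W.dl Q' ≤ W.sE R0 JA Q := by
  unfold Wld.sE
  rw [if_pos ⟨Q, hQ, hN⟩]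
  refine Finset.single_le_sum (f := fun P => W.er P ^ 2 / W.ab P + W.dl P) (fun P hP => ?_) hQ'
  have h1 := (hA.2.2 P hP).2.1
  have h2 := h1.sh.ab0
  have h3 := h1.dl0
  positivity

lemma sD_ge {JA : ℕ} {C' R0 Rz : ℝ} {X : Prm d} {W : Wld d E} (hW : WOK JA C' R0 Rz X W)
    {Q Q' : Cell d} (hQ' : Q' ∈ W.ns R0 JA Q) : W.D Q' ≤ W.sD R0 JA Q :=
  Finset.single_le_sum (f := W.D) (fun P _ => hW.D0 P) hQ'

/-- the net contribution without weight -/
def nt0 (W : Wld d E) (Q : Cell d) : ℝ :=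
  (∫ y, W.m Q y * (chi y * Hn (W.be Q) W.X.ε W.X.p0 W.X.A (W.mu Q) (W.nv Q) 1 y)) +
    (∫ y, W.m Q y * dvT chi (W.be Q) W.X.ε W.X.p0 W.X.A (W.mu Q) (W.nv Q) y) -
    ∑ Q' ∈ adj Q, Fl W Q Q'

lemma nt1_eq {W : Wld d E} {Q : Cell d} (hk : W.kd Q = 0) : W.nt1 Q = W.w Q * nt0 W Q := by
  unfold Wld.nt1 net nt0 Gam Vct
  rw [if_pos hk, if_pos hk]
  rfl

lemma XX_nonneg {J : ℕ} {M : ℝ} {β : Sp d → ℝ} (hβ : Kit J M β) (ε : ℝ) (μ : Measure (Sp d))
    (n : Sp d) (y : Sp d) : 0 ≤ XX β ε μ n 1 y := by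
  have h1 : 0 ≤ tav (X1 β ε μ n) 1 y := tav_nonneg (fun t y _ => X1_nonneg hβ ε μ n t y) y
  have h2 : 0 ≤ tav (X2 μ n) 1 y := tav_nonneg (fun t y ht => X2_nonneg μ n ht y) y
  have h3 : 0 ≤ tav (X3 β ε μ n) 1 y := tav_nonneg (fun t y _ => X3_nonneg hβ ε μ n t y) y
  unfold XX; linarith

lemma pl_nonneg {n : Sp d} {s : ℝ} {F : Sp d → ℝ} (hF : ∀ y, 0 ≤ F y) : 0 ≤ plInt n s F :=
  integral_nonneg fun _ => hF _

lemma sg_nonneg {J JA : ℕ} {M c0 C' c R0 Rz : ℝ} {X : Prm d} (hX : XOK J JA M c0 C' c R0 X)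
    {W : Wld d E} (hW : WOK JA C' R0 Rz X W) (Q : Cell d) : 0 ≤ W.sg Q := by
  have hXe := hW.X_eq
  subst hXe
  exact mul_nonneg (hW.ab0 Q) (pl_nonneg fun y => mul_nonneg (PTm.chi_nonneg y)
    (XX_nonneg (hX.ker.kit _) _ _ _ _))

lemma gX_nonneg {J JA : ℕ} {M c0 C' c R0 Rz : ℝ} {X : Prm d} (hX : XOK J JA M c0 C' c R0 X)
    {W : Wld d E} (hW : WOK JA C' R0 Rz X W) (Q : Cell d) : 0 ≤ gX W Q := by
  have hXe := hW.X_eq
  subst hXe
  exact pl_nonneg fun y => mul_nonneg (TU.zR_nonneg _ y) (XX_nonneg (hX.ker.kit _) _ _ _ _)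

lemma val_nonneg {J JA : ℕ} {M c0 C' c R0 Rz : ℝ} {X : Prm d} (hX : XOK J JA M c0 C' c R0 X)
    {W : Wld d E} (hW : WOK JA C' R0 Rz X W) (Q : Cell d) : 0 ≤ W.val Q := by
  unfold Wld.val
  split_ifs
  · exact add_nonneg (sg_nonneg hX hW Q) (le_max_left _ _)
  · exact le_rfl
  · exact le_max_left _ _

lemma w_pos {JA : ℕ} {C' R0 Rz : ℝ} {X : Prm d} {W : Wld d E} (hW : WOK JA C' R0 Rz X W)
    (Q : Cell d) : 0 < W.w Q := by
  unfold Wld.w cw
  exact pow_pos (FR.lev_pos hW.s0_pos _) _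

lemma v_nonneg (W : Wld d E) (Q : Cell d) : 0 ≤ W.v Q := Real.sqrt_nonneg _

lemma sV_nonneg {J JA : ℕ} {M c0 C' c R0 Rz : ℝ} {X : Prm d} (hX : XOK J JA M c0 C' c R0 X)
    {W : Wld d E} (hW : WOK JA C' R0 Rz X W) (Q : Cell d) : 0 ≤ W.sV R0 JA Q :=
  Finset.sum_nonneg fun Q' _ => mul_nonneg (w_pos hW Q').le (val_nonneg hX hW Q')

end Wd

end W2m

end

end TG


end

section

/-!
# Module SHB, part 1: polynomials on a plane are bounded by their tests (helper74)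
-/

open MeasureTheory Metric Set TrI
open scoped InnerProductSpace ContDiff

namespace TG

namespace SHB

open TC

noncomputable section

variable {d : ℕ}

/-- the orthogonal complement of the line spanned by ν -/
abbrev Pl (ν : Sp d) : Submodule ℝ (Sp d) := (Submodule.span ℝ {ν})ᗮ

lemma inner_pl (ν : Sp d) (y : Pl ν) : ⟪ν, (y : Sp d)⟫_ℝ = 0 :=
  Submodule.mem_orthogonal_singleton_iff_inner_right.1 y.2

lemma tang_pl {ν : Sp d} (hν : ‖ν‖ = 1) (c : ℝ) (y : Pl ν) : tang ν (c • ν + (y : Sp d)) = y := by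
  unfold tang
  rw [inner_add_right, inner_smul_right, real_inner_self_eq_norm_sq, hν, inner_pl]
  simp

lemma proj_pl {ν : Sp d} (hν : ‖ν‖ = 1) (y : Sp d) :
    ((Pl ν).orthogonalProjectionOnto y : Sp d) = tang ν y := by
  have hm : tang ν y ∈ Pl ν :=
    Submodule.mem_orthogonal_singleton_iff_inner_right.2 (tang_inner hν y)
  have := Submodule.eq_starProjection_of_mem_of_inner_eq_zero (K := Pl ν) (u := y)
    (v := tang ν y) hm (fun w hw => by
      have h1 : y - tang ν y = ⟪ν, y⟫_ℝ • ν := by unfold tang; abel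
      rw [h1, inner_smul_left]
      have h2 : ⟪ν, w⟫_ℝ = 0 := Submodule.mem_orthogonal_singleton_iff_inner_right.1 hw
      rw [h2, mul_zero])
  exact this

/-- value of a polynomial at a point of the plane by a test -/
lemma test_point {n : ℕ} {m : ℕ} {ψ : Sp n → ℝ} (hψ : VKer m ψ) {ν : Sp (n + 1)}
    (e : Pl ν ≃ₗᵢ[ℝ] Sp n) (c : ℝ) {p : Sp (n + 1) → ℝ} (hp : ContDiff ℝ ∞ p)
    (hp0 : ∀ x, iteratedFDeriv ℝ (m + 1) p x = 0) (a : Pl ν) :
    ∫ y : Pl ν, p (c • ν + (y : Sp (n + 1))) * ψ (e y - e a) = p (c • ν + (a : Sp (n + 1))) := by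
  have h1 : ∫ y : Pl ν, p (c • ν + (y : Sp (n + 1))) * ψ (e y - e a) =
      ∫ w : Sp n, p (c • ν + ((e.symm w : Pl ν) : Sp (n + 1))) * ψ (w - e a) := by
    rw [← e.measurePreserving.integral_comp e.toHomeomorph.measurableEmbedding]
    simp
  rw [h1, ← integral_add_right_eq_self (fun w : Sp n =>
    p (c • ν + ((e.symm w : Pl ν) : Sp (n + 1))) * ψ (w - e a)) (e a)]
  have hcs : HasCompactSupport ψ := HasCompactSupport.intro (isCompact_closedBall (0 : Sp n) 1)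
    fun x hx => by
      rw [mem_closedBall, dist_zero_right, not_le] at hx
      exact hψ.supp x hx.le
  set S : Sp n →L[ℝ] Sp (n + 1) := (Pl ν).subtypeL ∘L (e.symm.toContinuousLinearEquiv : Sp n →L[ℝ] Pl ν)
    with hS
  have hSa : ∀ w, S w = ((e.symm w : Pl ν) : Sp (n + 1)) := fun w => rfl
  set x0 : Sp (n + 1) := c • ν + (a : Sp (n + 1)) with hx0
  have h2 : ∀ w : Sp n, p (c • ν + ((e.symm (w + e a) : Pl ν) : Sp (n + 1))) * ψ (w + e a - e a) =
      ∑ k ∈ Finset.range (m + 1), (Nat.factorial k : ℝ)⁻¹ *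
        (ψ w * ((iteratedFDeriv ℝ k p x0).compContinuousLinearMap (fun _ => S)) (fun _ => w)) := by
    intro w
    have h3 := eq_taylor hp hp0 (x0 + S w) x0
    have h4 : c • ν + ((e.symm (w + e a) : Pl ν) : Sp (n + 1)) = x0 + S w := by
      rw [map_add, LinearIsometryEquiv.symm_apply_apply, hSa, hx0]
      push_cast
      abel
    rw [h4, ← h3, add_sub_cancel_right, Finset.sum_mul]
    refine Finset.sum_congr rfl fun k _ => ?_
    rw [add_sub_cancel_left, smul_eq_mul, ContinuousMultilinearMap.compContinuousLinearMap_apply]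
    ring
  simp_rw [h2]
  have hint : ∀ k, Integrable (fun w : Sp n => (Nat.factorial k : ℝ)⁻¹ *
        (ψ w * ((iteratedFDeriv ℝ k p x0).compContinuousLinearMap (fun _ => S)) (fun _ => w))) := by
    intro k
    refine Integrable.const_mul ?_ _
    refine Continuous.integrable_of_hasCompactSupport ?_ hcs.mul_right
    refine hψ.smooth.continuous.mul ?_
    exact (ContinuousMultilinearMap.cont _).comp (continuous_pi fun _ => continuous_id)
  rw [integral_finsetSum _ (fun k _ => hint k), Finset.sum_range_succ', Finset.sum_eq_zero]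
  · rw [zero_add, integral_const_mul]
    simp only [Nat.factorial_zero, Nat.cast_one, inv_one, one_mul]
    have h5 : ∀ w : Sp n, ψ w * ((iteratedFDeriv ℝ 0 p x0).compContinuousLinearMap (fun _ => S))
        (fun _ => w) = ψ w * p x0 := fun w => by
      rw [ContinuousMultilinearMap.compContinuousLinearMap_apply, iteratedFDeriv_zero_apply]
    simp_rw [h5]
    rw [integral_mul_const, hψ.int, one_mul]
  · intro k hk
    rw [Finset.mem_range] at hk
    rw [integral_const_mul, hψ.mom (k + 1) (by omega) (by omega), mul_zero]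

/-- extrapolation of polynomials of one variable -/
lemma extrap (m : ℕ) (h : ℝ) (hh : 0 < h) : ∃ C : ℝ, 0 < C ∧ ∀ (a : ℕ → ℝ) (B : ℝ),
    (∀ i ≤ m, |∑ k ∈ Finset.range (m + 1), a k * (i * h) ^ k| ≤ B) →
    |∑ k ∈ Finset.range (m + 1), a k| ≤ C * B := by
  classical
  set s : Finset ℕ := Finset.range (m + 1) with hs
  set v : ℕ → ℝ := fun i => i * h with hv
  have hinj : Set.InjOn v s := by
    intro i _ j _ hij
    have : (i : ℝ) * h = j * h := hij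
    have h2 := mul_right_cancel₀ hh.ne' this
    exact_mod_cast h2
  refine ⟨∑ i ∈ s, |(Lagrange.basis s v i).eval 1| + 1, by positivity, fun a B hB => ?_⟩
  set Q : Polynomial ℝ := ∑ k ∈ s, Polynomial.C (a k) * Polynomial.X ^ k with hQ
  have hev : ∀ t : ℝ, Q.eval t = ∑ k ∈ s, a k * t ^ k := fun t => by
    rw [hQ, Polynomial.eval_finsetSum]
    simp
  have hdeg : Q.degree < s.card := by
    rw [hs, Finset.card_range]
    refine lt_of_le_of_lt (Polynomial.degree_sum_le _ _) ?_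
    rw [Finset.sup_lt_iff (by exact WithBot.bot_lt_coe _)]
    intro k hk
    rw [Finset.mem_range] at hk
    refine lt_of_le_of_lt (Polynomial.degree_C_mul_X_pow_le _ _) ?_
    exact_mod_cast hk
  have h1 := Lagrange.eq_interpolate hinj hdeg
  have h2 : Q.eval 1 = ∑ i ∈ s, Q.eval (v i) * (Lagrange.basis s v i).eval 1 := by
    conv_lhs => rw [h1]
    rw [Lagrange.interpolate_apply, Polynomial.eval_finsetSum]
    simp
  have h3 : ∑ k ∈ Finset.range (m + 1), a k = Q.eval 1 := by rw [hev]; simp [hs]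
  have hB0 : 0 ≤ B := (abs_nonneg _).trans (hB 0 (Nat.zero_le _))
  rw [h3, h2]
  calc |∑ i ∈ s, Q.eval (v i) * (Lagrange.basis s v i).eval 1|
      ≤ ∑ i ∈ s, |Q.eval (v i) * (Lagrange.basis s v i).eval 1| := Finset.abs_sum_le_sum_abs _ _
    _ ≤ ∑ i ∈ s, B * |(Lagrange.basis s v i).eval 1| := by
        refine Finset.sum_le_sum fun i hi => ?_
        rw [abs_mul]
        refine mul_le_mul_of_nonneg_right ?_ (abs_nonneg _)
        rw [hev]
        rw [hs, Finset.mem_range] at hi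
        exact hB i (by omega)
    _ = (∑ i ∈ s, |(Lagrange.basis s v i).eval 1|) * B := by rw [← Finset.mul_sum, mul_comm]
    _ ≤ (∑ i ∈ s, |(Lagrange.basis s v i).eval 1| + 1) * B := by nlinarith

theorem polyPlane (d : ℕ) (hd : 1 ≤ d) (m J : ℕ) (ρ K : ℝ) (hρ : 1 < ρ) : ∃ C : ℝ, 0 < C ∧
    ∀ ν : Sp d, ‖ν‖ = 1 → ∀ (c : ℝ) (p : Sp d → ℝ), ContDiff ℝ ∞ p →
      (∀ x, iteratedFDeriv ℝ (m + 1) p x = 0) → ∀ τ : ℝ,
      (∀ (φ : Sp d → ℝ) (N : ℝ), TFn J N φ → Cyl ν ρ φ →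
        |plInt ν c (fun y => p y * φ y)| ≤ τ * N) →
      ∀ x, ⟪ν, x⟫_ℝ = c → ‖x‖ ≤ K → |p x| ≤ C * τ := by
  obtain ⟨n, rfl⟩ : ∃ n, d = n + 1 := ⟨d - 1, by omega⟩
  obtain ⟨ψ, hψ⟩ := VK.main n m
  have hcs : HasCompactSupport ψ := HasCompactSupport.intro (isCompact_closedBall (0 : Sp n) 1)
    fun x hx => by
      rw [mem_closedBall, dist_zero_right, not_le] at hx
      exact hψ.supp x hx.le
  obtain ⟨N0, hN0, hN⟩ := CB.of_compactSupport (J := J)
    (hψ.smooth.of_le (by exact_mod_cast le_top)) hcs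
  set K' : ℝ := max K 1 with hK'
  have hK1 : 1 ≤ K' := le_max_right _ _
  set h : ℝ := (ρ - 1) / ((m + 1) * K') with hh
  have hhpos : 0 < h := by
    rw [hh]
    have : 0 < ρ - 1 := by linarith
    positivity
  obtain ⟨C, hC, hex⟩ := extrap m h hhpos
  refine ⟨C * N0, by positivity, ?_⟩
  intro ν hν c p hp hp0 τ hτ x hxc hxK
  have h0 : ν ≠ 0 := by intro h; simp [h] at hν
  have : Fact (Module.finrank ℝ (Sp (n + 1)) = n + 1) := ⟨by simp⟩
  set e := (OrthonormalBasis.fromOrthogonalSpanSingleton (𝕜 := ℝ) n h0).repr with he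
  -- values at the points of the disc of radius ρ - 1
  have hval : ∀ a : Pl ν, ‖a‖ ≤ ρ - 1 → |p (c • ν + (a : Sp (n + 1)))| ≤ τ * N0 := by
    intro a ha
    set A : Sp (n + 1) →L[ℝ] Sp n :=
      (e.toContinuousLinearEquiv : Pl ν →L[ℝ] Sp n) ∘L (Pl ν).orthogonalProjectionOnto with hA
    have hAa : ∀ y, A y = e ((Pl ν).orthogonalProjectionOnto y) := fun y => rfl
    have hA1 : ‖A‖ ≤ 1 := by
      refine ContinuousLinearMap.opNorm_le_bound _ zero_le_one fun y => ?_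
      rw [hAa, e.norm_map, one_mul]
      have := (Pl ν).orthogonalProjectionOnto.le_of_opNorm_le
        ((Pl ν).orthogonalProjectionOnto_norm_le) y
      simpa using this
    have hAt : ∀ y, ‖A y‖ = ‖tang ν y‖ := fun y => by
      rw [hAa, e.norm_map, ← proj_pl hν y]
      rfl
    set φ : Sp (n + 1) → ℝ := fun y => ψ (A y + -(e a)) with hφ
    have hφN : TFn J N0 φ := (hN.comp_aff A hA1 (-(e a))).tfn
    have hφC : Cyl ν ρ φ := by
      refine ⟨fun y => ?_, fun y hy => ?_⟩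
      · have : A y = A (tang ν y) := by
          rw [hAa, hAa]
          congr 1
          refine Subtype.ext ?_
          rw [proj_pl hν, proj_pl hν, tang_tang hν]
        simp only [hφ]
        rw [this]
      · have h1 : ‖A y + -(e a)‖ < 1 := by
          by_contra hcon
          exact hy (hψ.supp _ (not_lt.1 hcon))
        have h2 : ‖A y‖ ≤ ‖A y + -(e a)‖ + ‖e a‖ := by
          calc ‖A y‖ = ‖(A y + -(e a)) + e a‖ := by congr 1; abel
            _ ≤ _ := norm_add_le _ _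
        rw [e.norm_map] at h2
        rw [← hAt]
        linarith
    have h3 := hτ φ N0 hφN hφC
    have h4 : plInt ν c (fun y => p y * φ y) = p (c • ν + (a : Sp (n + 1))) := by
      rw [← test_point hψ e c hp hp0 a]
      unfold plInt
      refine integral_congr_ae (Filter.Eventually.of_forall fun y => ?_)
      simp only [hφ]
      have h5 : A (c • ν + (y : Sp (n + 1))) = e y := by
        rw [hAa]
        congr 1
        refine Subtype.ext ?_
        rw [proj_pl hν, tang_pl hν]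
      rw [h5, sub_eq_add_neg]
    rwa [h4] at h3
  -- extrapolation
  have hx : x = c • ν + tang ν x := by
    unfold tang
    rw [hxc]
    abel
  set v := tang ν x with hv
  have hvK : ‖v‖ ≤ K' := (norm_tang_le hν x).trans (hxK.trans (le_max_left _ _))
  set a : ℕ → ℝ := fun k => (Nat.factorial k : ℝ)⁻¹ * iteratedFDeriv ℝ k p (c • ν) (fun _ => v)
    with ha
  have hpt : ∀ t : ℝ, p (c • ν + t • v) = ∑ k ∈ Finset.range (m + 1), a k * t ^ k := by
    intro t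
    rw [← eq_taylor hp hp0 (c • ν + t • v) (c • ν), add_sub_cancel_left]
    refine Finset.sum_congr rfl fun k _ => ?_
    have := (iteratedFDeriv ℝ k p (c • ν)).map_smul_univ (fun _ => t) (fun _ => v)
    rw [this, ha]
    simp only [Finset.prod_const, Finset.card_univ, Fintype.card_fin, smul_eq_mul]
    ring
  have h6 := hex a (τ * N0) (fun i hi => by
    rw [← hpt]
    have hm : v ∈ Pl ν := Submodule.mem_orthogonal_singleton_iff_inner_right.2 (tang_inner hν x)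
    have h7 := hval (((i : ℝ) * h) • ⟨v, hm⟩) (by
      rw [norm_smul, Real.norm_eq_abs, abs_of_nonneg (by positivity)]
      have h8 : ‖(⟨v, hm⟩ : Pl ν)‖ = ‖v‖ := rfl
      rw [h8]
      have h9 : (i : ℝ) ≤ m + 1 := by
        have : (i : ℝ) ≤ m := by exact_mod_cast hi
        linarith
      calc (i : ℝ) * h * ‖v‖ ≤ (m + 1) * h * K' := by (clear * - h9 hρ hvK; gcongr)
        _ = ρ - 1 := by rw [hh]; field_simp)
    simpa using h7)
  have h10 : p x = ∑ k ∈ Finset.range (m + 1), a k := by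
    have := hpt 1
    rw [one_smul] at this
    rw [hx, this]
    simp
  rw [h10]
  calc _ ≤ C * (τ * N0) := h6
    _ = _ := by ring

end

end SHB

end TG


end

section

/-!
# Module SHB, part 2: algebra of the symbol, mixed terms (helper74)
-/

open MeasureTheory Metric Set TrI
open scoped InnerProductSpace ContDiff

namespace TG

namespace SHB

open TC

noncomputable section

variable {d : ℕ}

section Alg

variable {V E : Type} [NormedAddCommGroup V] [InnerProductSpace ℝ V] [FiniteDimensional ℝ V]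
  [NormedAddCommGroup E] [InnerProductSpace ℝ E] [FiniteDimensional ℝ E]

/-- the symbol as a bilinear map -/
def AA (L : (Sp d →L[ℝ] V) →L[ℝ] E) : Sp d →L[ℝ] V →L[ℝ] E :=
  (ContinuousLinearMap.compL ℝ V (Sp d →L[ℝ] V) E L) ∘L
    ((ContinuousLinearMap.smulRightL ℝ (Sp d) V) ∘L (innerSL ℝ : Sp d →L[ℝ] Sp d →L[ℝ] ℝ))

lemma AA_apply (L : (Sp d →L[ℝ] V) →L[ℝ] E) (ξ : Sp d) (v : V) : AA L ξ v = L (rk1 ξ v) := rfl

lemma norm_rk1 (ξ : Sp d) (v : V) : ‖rk1 ξ v‖ = ‖ξ‖ * ‖v‖ := by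
  unfold rk1
  rw [ContinuousLinearMap.norm_smulRight_apply, innerSL_apply_norm]

lemma AA_le (L : (Sp d →L[ℝ] V) →L[ℝ] E) (ξ : Sp d) (v : V) :
    ‖AA L ξ v‖ ≤ ‖L‖ * (‖ξ‖ * ‖v‖) := by
  rw [AA_apply, ← norm_rk1]
  exact L.le_opNorm _

lemma norm_AA_le (L : (Sp d →L[ℝ] V) →L[ℝ] E) {ξ : Sp d} (hξ : ‖ξ‖ = 1) :
    ‖AA L ξ‖ ≤ ‖L‖ :=
  ContinuousLinearMap.opNorm_le_bound _ (ContinuousLinearMap.opNorm_nonneg L) fun v => by
    have := AA_le L ξ v
    rwa [hξ, one_mul] at this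

/-- lower bound of the symbol -/
lemma lower (L : (Sp d →L[ℝ] V) →L[ℝ] E) (hL : CEll L) :
    ∃ c : ℝ, 0 < c ∧ ∀ (ξ : Sp d) (v : V), c * (‖ξ‖ * ‖v‖) ≤ ‖AA L ξ v‖ := by
  have hproper : ProperSpace V := FiniteDimensional.proper ℝ V
  set K : Set (Sp d × V) := sphere 0 1 ×ˢ sphere 0 1 with hK
  have hKc : IsCompact K := (isCompact_sphere _ _).prod (isCompact_sphere _ _)
  have hf : Continuous (fun p : Sp d × V => ‖AA L p.1 p.2‖) := by fun_prop
  have hz : ∀ (ξ : Sp d) (v : V), ξ ≠ 0 → AA L ξ v = 0 → v = 0 := by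
    intro ξ v hξ h
    refine (hL ξ 0 (Or.inl hξ) v 0 ?_ ?_).1
    · rw [← AA_apply, ← AA_apply, h]; simp
    · rw [← AA_apply, ← AA_apply]; simp
  have hom : ∀ c : ℝ, 0 < c → (∀ p ∈ K, c ≤ ‖AA L p.1 p.2‖) →
      ∀ (ξ : Sp d) (v : V), c * (‖ξ‖ * ‖v‖) ≤ ‖AA L ξ v‖ := by
    intro c hc h ξ v
    rcases eq_or_ne ξ 0 with rfl | hξ
    · simp
    rcases eq_or_ne v 0 with rfl | hv
    · simp
    have hξ' := norm_pos_iff.2 hξ
    have hv' := norm_pos_iff.2 hv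
    have h1 := h (‖ξ‖⁻¹ • ξ, ‖v‖⁻¹ • v) ⟨by
      rw [mem_sphere_zero_iff_norm, norm_smul, norm_inv, norm_norm, inv_mul_cancel₀ hξ'.ne'], by
      rw [mem_sphere_zero_iff_norm, norm_smul, norm_inv, norm_norm, inv_mul_cancel₀ hv'.ne']⟩
    simp only [map_smul, smul_apply, norm_smul, norm_inv, norm_norm] at h1
    rw [← div_eq_inv_mul, ← div_eq_inv_mul, le_div_iff₀ (by positivity), le_div_iff₀ (by positivity)] at h1
    calc _ = c * ‖v‖ * ‖ξ‖ := by ring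
      _ ≤ _ := by nlinarith
  rcases K.eq_empty_or_nonempty with hKe | hKn
  · refine ⟨1, one_pos, hom 1 one_pos ?_⟩
    rw [hKe]
    simp
  · obtain ⟨p, hp, hmin⟩ := hKc.exists_isMinOn hKn hf.continuousOn
    have hp1 : ‖p.1‖ = 1 := by simpa using hp.1
    have hp2 : ‖p.2‖ = 1 := by simpa using hp.2
    have hpos : 0 < ‖AA L p.1 p.2‖ := by
      refine norm_pos_iff.2 fun h => ?_
      have h1 := hz p.1 p.2 (by intro h0; rw [h0] at hp1; simp at hp1) h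
      rw [h1] at hp2
      simp at hp2
    exact ⟨_, hpos, hom _ hpos fun q hq => hmin hq⟩

/-- the best vector ve -/
lemma exists_ve (L : (Sp d →L[ℝ] V) →L[ℝ] E) {c : ℝ} (hc : 0 < c)
    (hL : ∀ (ξ : Sp d) (v : V), c * (‖ξ‖ * ‖v‖) ≤ ‖AA L ξ v‖) {ν : Sp d} (hν : ‖ν‖ = 1) {e : E}
    (he : ‖e‖ = 1) : ∃ ve : V, ‖ve‖ ≤ 1 / c ∧ ∀ w : V, ⟪e - AA L ν ve, AA L ν w⟫_ℝ = 0 := by
  set K : Submodule ℝ E := LinearMap.range (AA L ν : V →ₗ[ℝ] E) with hK
  obtain ⟨ve, hve⟩ : K.starProjection e ∈ K := Submodule.starProjection_apply_mem K e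
  have hve' : AA L ν ve = K.starProjection e := hve
  refine ⟨ve, ?_, fun w => ?_⟩
  · have h1 := hL ν ve
    rw [hν, one_mul, hve'] at h1
    have h2 : ‖K.starProjection e‖ ≤ 1 := by
      have := K.starProjection.le_of_opNorm_le (K.starProjection_norm_le) e
      rwa [he, one_mul] at this
    rw [le_div_iff₀ hc]
    linarith
  · rw [hve']
    exact Submodule.starProjection_inner_eq_zero e _ ⟨w, rfl⟩

/-- the map Λ -/
def Lam (L : (Sp d →L[ℝ] V) →L[ℝ] E) (ν : Sp d) (e : E) (ve : V) : Sp d →L[ℝ] E :=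
  (AA L).flip ve + (innerSL ℝ ν).smulRight (e - AA L ν ve)

lemma Lam_apply (L : (Sp d →L[ℝ] V) →L[ℝ] E) (ν : Sp d) (e : E) (ve : V) (x : Sp d) :
    Lam L ν e ve x = AA L x ve + ⟪ν, x⟫_ℝ • (e - AA L ν ve) := by
  simp [Lam]

lemma Lam_nu (L : (Sp d →L[ℝ] V) →L[ℝ] E) {ν : Sp d} (hν : ‖ν‖ = 1) (e : E) (ve : V) :
    Lam L ν e ve ν = e := by
  rw [Lam_apply, real_inner_self_eq_norm_sq, hν]
  simp

lemma Lam_tang (L : (Sp d →L[ℝ] V) →L[ℝ] E) {ν : Sp d} (e : E) (ve : V) {x : Sp d}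
    (hx : ⟪ν, x⟫_ℝ = 0) : Lam L ν e ve x = AA L x ve := by
  rw [Lam_apply, hx, zero_smul, add_zero]

lemma Lam_le (L : (Sp d →L[ℝ] V) →L[ℝ] E) {ν : Sp d} (hν : ‖ν‖ = 1) (e : E) (ve : V) {B : ℝ}
    (hB : ‖e - AA L ν ve‖ ≤ 1) (hv : ‖ve‖ ≤ B) (x : Sp d) :
    ‖Lam L ν e ve x‖ ≤ (‖L‖ * B + 1) * ‖x‖ := by
  rw [Lam_apply]
  refine (norm_add_le _ _).trans ?_
  have h1 := AA_le L x ve
  have h2 : ‖⟪ν, x⟫_ℝ • (e - AA L ν ve)‖ ≤ ‖x‖ * 1 := by
    rw [norm_smul]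
    refine mul_le_mul ?_ hB (norm_nonneg _) (norm_nonneg _)
    have := norm_inner_le_norm (𝕜 := ℝ) ν x
    rwa [hν, one_mul] at this
  have h3 : ‖L‖ * (‖x‖ * ‖ve‖) ≤ ‖L‖ * (‖x‖ * B) := by gcongr
  linarith only [h1, h2, h3]

lemma Lam_ge (L : (Sp d →L[ℝ] V) →L[ℝ] E) {c : ℝ} (hc : 0 < c)
    (hL : ∀ (ξ : Sp d) (v : V), c * (‖ξ‖ * ‖v‖) ≤ ‖AA L ξ v‖) {ν : Sp d} (hν : ‖ν‖ = 1) {e : E}
    (he : ‖e‖ = 1) {ve : V} (h1 : ‖e - AA L ν ve‖ ≤ 1 / 2)
    (h2 : ‖e - AA L ν ve‖ ≤ c / (4 * (‖L‖ + 1))) (x : Sp d) :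
    c / (4 * (‖L‖ + 1)) * ‖x‖ ≤ ‖Lam L ν e ve x‖ := by
  set K := ‖L‖ + 1 with hK
  have hK0 : 0 < K := by positivity
  have h3 : 1 / 2 ≤ ‖AA L ν ve‖ := by
    have : ‖e‖ ≤ ‖e - AA L ν ve‖ + ‖AA L ν ve‖ := by
      calc ‖e‖ = ‖(e - AA L ν ve) + AA L ν ve‖ := by congr 1; abel
        _ ≤ _ := norm_add_le _ _
    linarith
  have h4 : 1 / (2 * K) ≤ ‖ve‖ := by
    have h5 := AA_le L ν ve
    rw [hν, one_mul] at h5
    have h6 : ‖L‖ * ‖ve‖ ≤ K * ‖ve‖ := by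
      rw [hK]; nlinarith [norm_nonneg ve]
    rw [div_le_iff₀ (by positivity)]
    linarith only [h3, h5, h6]
  have h7 : c * (‖x‖ * (1 / (2 * K))) ≤ ‖AA L x ve‖ := by
    refine le_trans ?_ (hL x ve)
    gcongr
  have h8 : ‖⟪ν, x⟫_ℝ • (e - AA L ν ve)‖ ≤ ‖x‖ * (c / (4 * K)) := by
    rw [norm_smul]
    refine mul_le_mul ?_ h2 (norm_nonneg _) (norm_nonneg _)
    have := norm_inner_le_norm (𝕜 := ℝ) ν x
    rwa [hν, one_mul] at this
  rw [Lam_apply]
  have h9 : ‖AA L x ve‖ ≤ ‖AA L x ve + ⟪ν, x⟫_ℝ • (e - AA L ν ve)‖ +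
      ‖⟪ν, x⟫_ℝ • (e - AA L ν ve)‖ := by
    calc ‖AA L x ve‖ = ‖(AA L x ve + ⟪ν, x⟫_ℝ • (e - AA L ν ve)) -
        ⟪ν, x⟫_ℝ • (e - AA L ν ve)‖ := by congr 1; abel
      _ ≤ _ := norm_sub_le _ _
  have h10 : c * (‖x‖ * (1 / (2 * K))) = 2 * (c / (4 * K) * ‖x‖) := by field_simp; ring
  linarith only [h7, h8, h9, h10]

/-- left inverse with the orthogonality property -/
lemma exists_left (Λ : Sp d →L[ℝ] E) {c : ℝ} (hc : 0 < c) (h : ∀ x, c * ‖x‖ ≤ ‖Λ x‖) :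
    ∃ P : E →L[ℝ] Sp d, ‖P‖ ≤ 1 / c ∧ (∀ x, P (Λ x) = x) ∧
      ∀ y x, ⟪Λ x, y - Λ (P y)⟫_ℝ = 0 := by
  have hinj : Function.Injective (Λ : Sp d →ₗ[ℝ] E) := by
    rw [injective_iff_map_eq_zero]
    intro x hx
    have := h x
    have h0 : Λ x = 0 := hx
    rw [h0, norm_zero] at this
    have h2 : ‖x‖ ≤ 0 := by nlinarith only [this, hc]
    exact norm_le_zero_iff.1 h2
  set K : Submodule ℝ E := LinearMap.range (Λ : Sp d →ₗ[ℝ] E) with hK
  set eq := LinearEquiv.ofInjective (Λ : Sp d →ₗ[ℝ] E) hinj with heq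
  have heq1 : ∀ x, ((eq x : K) : E) = Λ x := fun x => rfl
  set P0 : E →ₗ[ℝ] Sp d := (eq.symm : K →ₗ[ℝ] Sp d) ∘ₗ (K.orthogonalProjectionOnto : E →ₗ[ℝ] K)
    with hP0
  have hP : ∀ y, Λ (P0 y) = K.starProjection y := by
    intro y
    have : ((eq (P0 y) : K) : E) = K.starProjection y := by
      change ((eq (eq.symm (K.orthogonalProjectionOnto y)) : K) : E) = _
      rw [eq.apply_symm_apply]
      rfl
    rw [← this, heq1]
  have hPn : ∀ y, ‖P0 y‖ ≤ 1 / c * ‖y‖ := by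
    intro y
    have h1 := h (P0 y)
    rw [hP y] at h1
    have h2 : ‖K.starProjection y‖ ≤ ‖y‖ := by
      have := K.starProjection.le_of_opNorm_le (K.starProjection_norm_le) y
      rwa [one_mul] at this
    rw [div_mul_eq_mul_div, one_mul, le_div_iff₀ hc]
    linarith
  refine ⟨P0.mkContinuous (1 / c) hPn, P0.mkContinuous_norm_le (by positivity) hPn,
    fun x => ?_, fun y x => ?_⟩
  · rw [LinearMap.mkContinuous_apply]
    have h1 : Λ (P0 (Λ x)) = Λ x := by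
      rw [hP]
      exact Submodule.starProjection_eq_self_iff.2 ⟨x, rfl⟩
    exact hinj h1
  · rw [LinearMap.mkContinuous_apply, hP]
    rw [real_inner_comm]
    exact Submodule.starProjection_inner_eq_zero y _ ⟨x, rfl⟩

end Alg

/-! ## unit scale -/

section Unit

variable {E : Type} [NormedAddCommGroup E] [InnerProductSpace ℝ E]

lemma lev_one (n : ℕ) : lev ((1 / 2 : ℝ) ^ n) n = 1 := by
  unfold lev
  rw [← mul_pow]
  norm_num

lemma bb_unit (ρ : ℝ) (f : Sp d → E) (n : ℕ) (e : E) (ν : Sp d) (c : ℝ) :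
    bb ρ ((1 / 2) ^ n) f n 0 e ν c = ∫ y, ⟪f y, e⟫_ℝ * (zR ρ y * ht ν c y ^ 2) := by
  unfold bb
  rw [lev_one]
  simp

lemma ma_unit (b : Sp d → ℝ) (ε R0 : ℝ) (f : Sp d → E) (n : ℕ) :
    ma b ε R0 ((1 / 2) ^ n) f n 0 = ∫ y in ball (0 : Sp d) R0, ‖fl b ε ((1 / 2) ^ n) f (n - 1) y‖ := by
  unfold ma
  rw [lev_one]
  simp

lemma ma_nonneg (b : Sp d → ℝ) (ε R0 : ℝ) (f : Sp d → E) (n : ℕ) :
    0 ≤ ma b ε R0 ((1 / 2) ^ n) f n 0 := by
  rw [ma_unit]
  exact setIntegral_nonneg measurableSet_ball fun y _ => norm_nonneg _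

end Unit

/-- nonnegativity of the defect -/
lemma DD_nonneg {d : ℕ} (hd : 1 ≤ d) {M c ε : ℝ} (hε : 0 < ε) (hε1 : ε ≤ 1) {b : Sp d → ℝ}
    (hb : BaseKer 2 M c b) {E : Type} [NormedAddCommGroup E] [InnerProductSpace ℝ E]
    [FiniteDimensional ℝ E] {f : Sp d → E} (hf : Continuous f) (hfs : HasCompactSupport f)
    {R : ℝ} (hR : 3 ≤ R) (n : ℕ) {e : E} (he : ‖e‖ = 1) (x : Sp d) :
    0 ≤ DD b ε R ((1 / 2) ^ n) f n x e := by
  obtain ⟨C, hC, h⟩ := stmtZ d hd M c ε hε hε1 b hb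
  have := h E f hf hfs R hR n e he x (fun _ => 0) contDiff_const (fun _ => le_rfl)
    (fun _ => zero_le_one) (fun y => by
      rw [iteratedFDeriv_const_of_ne (by norm_num)]; simp) (fun _ _ => rfl)
  simp only [mul_zero, integral_zero] at this
  nlinarith

/-! ## mixed terms -/

/-- the mixed term -/
theorem mixed (d : ℕ) (hd : 1 ≤ d) (M c0 ε : ℝ) (hε : 0 < ε) (hε1 : ε ≤ 1) (b : Sp d → ℝ)
    (hb : BaseKer 2 M c0 b) (R0 : ℝ) (hR0 : 100 ≤ R0) : ∃ C : ℝ, 0 < C ∧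
    ∀ (E : Type) [NormedAddCommGroup E] [InnerProductSpace ℝ E] [FiniteDimensional ℝ E],
    ∀ f : Sp d → E, Continuous f → HasCompactSupport f → ∀ (R : ℝ), R0 + 10 ≤ R →
    ∀ (n : ℕ) (e : E), ‖e‖ = 1 → ∀ (ν : Sp d) (c : ℝ), ‖ν‖ = 1 → |c| ≤ R0 / 3 →
    ∀ (g : Sp d → ℝ) (N : ℝ), CB 2 N g → (∀ y, g y ≠ 0 → ‖tang ν y‖ ≤ R0 / 2) →
      |∫ y, ⟪f y, e⟫_ℝ * (cu1 4 (ht ν c y) * ht ν c y * g y)| ≤
        C * N * Real.sqrt ((ma b ε R0 ((1 / 2) ^ n) f n 0 + DD b ε R ((1 / 2) ^ n) f n 0 e) *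
          bD b ε R0 R ((1 / 2) ^ n) f n 0 e ν c) := by
  obtain ⟨CZ, hCZ, hZ⟩ := stmtZs d hd M c0 ε hε hε1 b hb
  obtain ⟨CM, hCM, hM⟩ := stmtMAs d hd M c0 ε hε hε1 b hb
  obtain ⟨N1, hN1, h1⟩ := zR_cb d 2 (R := R0 - 2) (by linarith)
  obtain ⟨N2, hN2, h2⟩ := ht2z_cb d 2 (R := R0) (by linarith) (R0 / 3)
  obtain ⟨N3, hN3, h3⟩ : ∃ N : ℝ, 0 < N ∧ CB 2 N (fun z : ℝ => cu1 4 z * z) := by
    obtain ⟨N, _, hc⟩ := cu1_cb 2
    refine CB.of_compactSupport (((hc 4 (by norm_num)).smooth).mul contDiff_id) ?_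
    refine HasCompactSupport.intro (isCompact_closedBall (0 : ℝ) 5) fun x hx => ?_
    rw [mem_closedBall, dist_zero_right, not_le, Real.norm_eq_abs] at hx
    rw [cu1_zero (by linarith), zero_mul]
  -- constants
  set C1 : ℝ := CM * N1 + CZ * (N1 + N2 + 8 * N3) with hC1
  have hC1p : 0 < C1 := by positivity
  set C2 : ℝ := 1 + CZ * (N1 + N2 + 8 * N3) with hC2
  have hC2p : 0 < C2 := by positivity
  refine ⟨Real.sqrt (C1 * C2), Real.sqrt_pos.2 (by positivity), ?_⟩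
  intro E _ _ _ f hf hfs R hR n e he ν c hν hc g N hN hg
  set X := ∫ y, ⟪f y, e⟫_ℝ * (cu1 4 (ht ν c y) * ht ν c y * g y) with hX
  set mm := ma b ε R0 ((1 / 2) ^ n) f n 0 with hmm
  set D := DD b ε R ((1 / 2) ^ n) f n 0 e with hD
  set BD := bD b ε R0 R ((1 / 2) ^ n) f n 0 e ν c with hBD
  have hD0 : 0 ≤ D := DD_nonneg hd hε hε1 hb hf hfs (by linarith) n he 0
  have hm0 : 0 ≤ mm := ma_nonneg b ε R0 f n
  have hBD' : BD = max 0 (bb R0 ((1 / 2) ^ n) f n 0 e ν c) + D := rfl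
  have hbb : bb R0 ((1 / 2) ^ n) f n 0 e ν c ≤ BD - D := by
    rw [hBD']; linarith [le_max_right 0 (bb R0 ((1 / 2) ^ n) f n 0 e ν c)]
  have hBD0 : D ≤ BD := by
    rw [hBD']; linarith [le_max_left 0 (bb R0 ((1 / 2) ^ n) f n 0 e ν c)]
  have hBDn : 0 ≤ BD := hD0.trans hBD0
  have hN0 := hN.nonneg
  rcases eq_or_lt_of_le hN0 with hNz | hNp
  · have : ∀ y, g y = 0 := fun y => by
      have := hN.norm_le y
      rw [← hNz] at this
      exact norm_le_zero_iff.1 this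
    have hX0 : X = 0 := by rw [hX]; simp [this]
    rw [hX0, ← hNz]
    simp
  -- the test functions
  have hcuht : CB 2 N3 (fun y : Sp d => cu1 4 (ht ν c y) * ht ν c y) :=
    h3.comp_ht (g := fun z : ℝ => cu1 4 z * z) hν.le c
  have hmix : CB 2 (2 ^ 2 * N3 * N) (fun y => cu1 4 (ht ν c y) * ht ν c y * g y) := hcuht.mul hN
  have hz2 := h2 ν c hν.le hc
  have i1 : Integrable (fun y => ⟪f y, e⟫_ℝ * zR (R0 - 2) y) := int_test hf hfs e h1.smooth.continuous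
  have i2 : Integrable (fun y => ⟪f y, e⟫_ℝ * (zR R0 y * ht ν c y ^ 2)) :=
    int_test hf hfs e hz2.smooth.continuous
  have i3 : Integrable (fun y => ⟪f y, e⟫_ℝ * (cu1 4 (ht ν c y) * ht ν c y * g y)) :=
    int_test hf hfs e hmix.smooth.continuous
  have hmass : (∫ y, ⟪f y, e⟫_ℝ * zR (R0 - 2) y) ≤ CM * N1 * (mm + D) := by
    have := hM E f hf hfs R (by linarith) n e he 0 (ball 0 R0) measurableSet_ball (zR (R0 - 2)) N1
      h1 (fun y hy => zR_zero (by rw [sub_zero] at hy; linarith)) (fun y z hy hz => by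
        have h4 : ‖y‖ < R0 - 2 + 1 := by
          by_contra hcon
          exact hy (zR_zero (not_lt.1 hcon))
        rw [mem_ball_zero_iff]
        calc ‖z‖ = ‖(z - y) + y‖ := by congr 1; abel
          _ ≤ ‖z - y‖ + ‖y‖ := norm_add_le _ _
          _ < R0 := by linarith)
    rw [hmm, ma_unit]
    exact (le_abs_self _).trans this
  -- pointwise inequality
  have key : ∀ s : ℝ, 0 < s → ∀ σ : ℝ, (σ = 1 ∨ σ = -1) →
      -(CZ * (s ^ 2 * N1 + N2 + s * (8 * N3)) * D) ≤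
        s ^ 2 * (∫ y, ⟪f y, e⟫_ℝ * zR (R0 - 2) y) +
          (∫ y, ⟪f y, e⟫_ℝ * (zR R0 y * ht ν c y ^ 2)) + σ * (2 * s / N) * X := by
    intro s hs σ hσ
    set H : Sp d → ℝ := fun y => s ^ 2 * zR (R0 - 2) y + zR R0 y * ht ν c y ^ 2 +
      σ * (2 * s / N) * (cu1 4 (ht ν c y) * ht ν c y * g y) with hH
    have hσa : |σ * (2 * s / N)| = 2 * s / N := by
      rw [abs_mul, abs_of_pos (by positivity : 0 < 2 * s / N)]
      rcases hσ with h | h <;> rw [h] <;> simp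
    have hHN : CB 2 (s ^ 2 * N1 + N2 + s * (8 * N3)) H := by
      have := ((h1.const_mul (s ^ 2)).add hz2).add (hmix.const_mul (σ * (2 * s / N)))
      refine CB.mono (N := |s ^ 2| * N1 + N2 + |σ * (2 * s / N)| * (2 ^ 2 * N3 * N)) this ?_
      rw [hσa, abs_of_nonneg (by positivity : (0 : ℝ) ≤ s ^ 2)]
      have : 2 * s / N * (2 ^ 2 * N3 * N) = s * (8 * N3) := by field_simp; ring
      rw [this]
    have hH0 : ∀ y, 0 ≤ H y := by
      intro y
      have hz0 := zR_nonneg (R0 - 2) y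
      have hz0' := zR_nonneg R0 y
      by_cases hgy : g y = 0 ∨ cu1 4 (ht ν c y) = 0
      · have : cu1 4 (ht ν c y) * ht ν c y * g y = 0 := by
          rcases hgy with h | h <;> rw [h] <;> ring
        simp only [hH]
        rw [this, mul_zero, add_zero]
        (clear * - hs hz0 hz0'; positivity)
      · push Not at hgy
        have h4 : |ht ν c y| < 5 := by
          by_contra hcon
          exact hgy.2 (cu1_zero (by linarith [not_lt.1 hcon]))
        have h5 := hg y hgy.1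
        have h6 : ‖y‖ ≤ R0 - 2 := by
          have h7 := norm_le_tang hν y
          have h8 : |⟪ν, y⟫_ℝ| ≤ |ht ν c y| + |c| := by
            have : ⟪ν, y⟫_ℝ = ht ν c y + c := by unfold ht; ring
            rw [this]
            exact abs_add_le _ _
          linarith
        have e1 : zR (R0 - 2) y = 1 := zR_one h6
        have e2 : zR R0 y = 1 := zR_one (by linarith)
        have h9 : |g y| ≤ N := hN.abs_le y
        have h10 : |cu1 4 (ht ν c y)| ≤ 1 := by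
          rw [abs_of_nonneg (cu1_nonneg _ _)]; exact cu1_le_one _ _
        have h11 : |σ * (2 * s / N) * (cu1 4 (ht ν c y) * ht ν c y * g y)| ≤
            2 * s * |ht ν c y| := by
          rw [abs_mul, hσa, abs_mul, abs_mul]
          calc 2 * s / N * (|cu1 4 (ht ν c y)| * |ht ν c y| * |g y|)
              ≤ 2 * s / N * (1 * |ht ν c y| * N) := by gcongr
            _ = 2 * s * |ht ν c y| := by field_simp
        have h12 := neg_abs_le (σ * (2 * s / N) * (cu1 4 (ht ν c y) * ht ν c y * g y))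
        simp only [hH]
        rw [e1, e2]
        have h13 : ht ν c y ^ 2 = |ht ν c y| ^ 2 := (sq_abs _).symm
        rw [h13]
        linarith only [h11, h12, sq_nonneg (s - |ht ν c y|)]
    have hHs : ∀ y, R - 2 ≤ ‖y - 0‖ → H y = 0 := by
      intro y hy
      rw [sub_zero] at hy
      have e1 : zR (R0 - 2) y = 0 := zR_zero (by linarith)
      have e2 : zR R0 y = 0 := zR_zero (by linarith)
      have e3 : cu1 4 (ht ν c y) * ht ν c y * g y = 0 := by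
        by_contra hcon
        have hgy : g y ≠ 0 := right_ne_zero_of_mul hcon
        have hcu : cu1 4 (ht ν c y) ≠ 0 := left_ne_zero_of_mul (left_ne_zero_of_mul hcon)
        have h4 : |ht ν c y| < 5 := by
          by_contra hcon
          exact hcu (cu1_zero (by linarith [not_lt.1 hcon]))
        have h5 := hg y hgy
        have h7 := norm_le_tang hν y
        have h8 : |⟪ν, y⟫_ℝ| ≤ |ht ν c y| + |c| := by
          have : ⟪ν, y⟫_ℝ = ht ν c y + c := by unfold ht; ring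
          rw [this]
          exact abs_add_le _ _
        linarith
      simp only [hH]
      rw [e1, e2, e3]
      ring
    have h14 := hZ E f hf hfs R (by linarith) n e he 0 H _ hHN hH0 hHs
    have h15 : ∫ y, ⟪f y, e⟫_ℝ * H y = s ^ 2 * (∫ y, ⟪f y, e⟫_ℝ * zR (R0 - 2) y) +
          (∫ y, ⟪f y, e⟫_ℝ * (zR R0 y * ht ν c y ^ 2)) + σ * (2 * s / N) * X := by
      have e4 : ∀ y, ⟪f y, e⟫_ℝ * H y = s ^ 2 * (⟪f y, e⟫_ℝ * zR (R0 - 2) y) +
          ⟪f y, e⟫_ℝ * (zR R0 y * ht ν c y ^ 2) +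
          σ * (2 * s / N) * (⟪f y, e⟫_ℝ * (cu1 4 (ht ν c y) * ht ν c y * g y)) := by
        intro y
        simp only [hH]
        ring
      have j1 : Integrable (fun y => s ^ 2 * (⟪f y, e⟫_ℝ * zR (R0 - 2) y)) := i1.const_mul _
      have j2 : Integrable (fun y => s ^ 2 * (⟪f y, e⟫_ℝ * zR (R0 - 2) y) +
          ⟪f y, e⟫_ℝ * (zR R0 y * ht ν c y ^ 2)) := j1.add i2
      have j3 : Integrable (fun y => σ * (2 * s / N) *
          (⟪f y, e⟫_ℝ * (cu1 4 (ht ν c y) * ht ν c y * g y))) := i3.const_mul _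
      rw [integral_congr_ae (Filter.Eventually.of_forall e4), integral_add j2 j3,
        integral_add j1 i2, integral_const_mul, integral_const_mul]
    rw [h15] at h14
    exact h14
  -- the optimisation
  have hopt : |X| ≤ 2 * Real.sqrt ((N / 2 * (C1 * (mm + D))) * (N / 2 * (C2 * BD))) := by
    refine PE.opt (by (clear * - hNp hCM hN1 hCZ hN2 hN3 hm0 hD0; positivity)) (by positivity) fun s hs => ?_
    have hp := key s hs 1 (Or.inl rfl)
    have hq := key s hs (-1) (Or.inr rfl)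
    rw [← bb_unit R0 f n e ν c] at hp hq
    have hs2 : s ≤ 1 + s ^ 2 := by linarith only [hs, sq_nonneg (s - 1)]
    have hub : s ^ 2 * (∫ y, ⟪f y, e⟫_ℝ * zR (R0 - 2) y) +
        bb R0 ((1 / 2) ^ n) f n 0 e ν c + CZ * (s ^ 2 * N1 + N2 + s * (8 * N3)) * D ≤
        s ^ 2 * (C1 * (mm + D)) + C2 * BD := by
      have h16 : s ^ 2 * (∫ y, ⟪f y, e⟫_ℝ * zR (R0 - 2) y) ≤ s ^ 2 * (CM * N1 * (mm + D)) :=
        mul_le_mul_of_nonneg_left hmass (by positivity)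
      have h17 : CZ * (s ^ 2 * N1 + N2 + s * (8 * N3)) * D ≤
          (1 + s ^ 2) * (CZ * (N1 + N2 + 8 * N3)) * D := by
        refine mul_le_mul_of_nonneg_right ?_ hD0
        have h18 : s ^ 2 * N1 + N2 + s * (8 * N3) ≤ (1 + s ^ 2) * (N1 + N2 + 8 * N3) := by
          have h18a : s * (8 * N3) ≤ (1 + s ^ 2) * (8 * N3) := by gcongr
          have h18b : 0 ≤ s ^ 2 * N2 := by positivity
          linarith only [hN1, h18a, h18b]
        calc CZ * (s ^ 2 * N1 + N2 + s * (8 * N3)) ≤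
            CZ * ((1 + s ^ 2) * (N1 + N2 + 8 * N3)) := by gcongr
          _ = _ := by ring
      have h19 : (1 + s ^ 2) * (CZ * (N1 + N2 + 8 * N3)) * D ≤
          s ^ 2 * (CZ * (N1 + N2 + 8 * N3) * (mm + D)) + CZ * (N1 + N2 + 8 * N3) * BD := by
        have h20 : CZ * (N1 + N2 + 8 * N3) * D ≤ CZ * (N1 + N2 + 8 * N3) * BD := by gcongr
        have h21 : s ^ 2 * (CZ * (N1 + N2 + 8 * N3) * D) ≤
            s ^ 2 * (CZ * (N1 + N2 + 8 * N3) * (mm + D)) := by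
          gcongr
          linarith only [hm0]
        linarith only [h20, h21]
      rw [hC1, hC2]
      linarith only [hD0, hbb, h16, h17, h19]
    have hfin : 2 * s / N * |X| ≤ s ^ 2 * (C1 * (mm + D)) + C2 * BD := by
      rcases abs_cases X with ⟨h, _⟩ | ⟨h, _⟩ <;> rw [h] <;> (first | linarith only [hq, hub] | linarith only [hp, hub] | linarith)
    have h22 : |X| = (2 * s / N * |X|) * (N / (2 * s)) := by field_simp
    rw [h22]
    calc (2 * s / N * |X|) * (N / (2 * s)) ≤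
        (s ^ 2 * (C1 * (mm + D)) + C2 * BD) * (N / (2 * s)) := by (clear * - hfin hNp hs; gcongr)
      _ = s * (N / 2 * (C1 * (mm + D))) + N / 2 * (C2 * BD) / s := by
        field_simp
  refine hopt.trans (le_of_eq ?_)
  have e5 : N / 2 * (C1 * (mm + D)) * (N / 2 * (C2 * BD)) =
      (N / 2) ^ 2 * ((C1 * C2) * ((mm + D) * BD)) := by ring
  rw [e5, Real.sqrt_mul (by positivity), Real.sqrt_sq (by positivity),
    Real.sqrt_mul (by positivity)]
  ring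

end

end SHB

end TG


end

section

set_option autoImplicit false

/-!
# Module TD1: divergence term of a sheet cell, small gain case
-/

open MeasureTheory Metric Set TrI Filter
open scoped InnerProductSpace ContDiff Topology

namespace TG

noncomputable section

namespace TDc

variable {d : ℕ}

lemma zR_nn (R : ℝ) (x : Sp d) : 0 ≤ zR R x := Real.smoothTransition.nonneg _

lemma zR_l1 (R : ℝ) (x : Sp d) : zR R x ≤ 1 := Real.smoothTransition.le_one _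

lemma zR_one {R : ℝ} {x : Sp d} (h : ‖x‖ ≤ R) : zR R x = 1 :=
  Real.smoothTransition.one_of_one_le (by linarith)

lemma zR_zero {R : ℝ} {x : Sp d} (h : R + 1 ≤ ‖x‖) : zR R x = 0 :=
  Real.smoothTransition.zero_of_nonpos (by linarith)

lemma zR_cont (R : ℝ) : Continuous (zR R : Sp d → ℝ) :=
  Real.smoothTransition.continuous.comp (by fun_prop)

lemma zR_cs (R : ℝ) : HasCompactSupport (zR R : Sp d → ℝ) :=
  HasCompactSupport.intro (isCompact_closedBall (0 : Sp d) (R + 1)) fun x hx => zR_zero (by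
    rw [mem_closedBall, dist_zero_right, not_le] at hx
    exact hx.le)

lemma zR_le {R R' : ℝ} (h : R + 1 ≤ R') (x : Sp d) : zR R x ≤ zR R' x := by
  rcases le_or_gt ‖x‖ R' with h1 | h1
  · rw [zR_one h1]
    exact zR_l1 _ _
  · rw [zR_zero (by linarith)]
    exact zR_nn _ _

lemma mem_perp {n w : Sp d} (h : ⟪n, w⟫_ℝ = 0) : w ∈ (Submodule.span ℝ {n})ᗮ := by
  rw [Submodule.mem_orthogonal_singleton_iff_inner_right]
  exact h

/-- disc integrals are bounded by plane integrals -/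
lemma disc_le {n : Sp d} (hn : ‖n‖ = 1) {s ρ R : ℝ} {F X : Sp d → ℝ} (hF : Continuous F)
    (hX : Continuous X) (hFX : ∀ x, F x ≤ X x) (hX0 : ∀ x, 0 ≤ X x) {y : Sp d}
    (hy : ⟪n, y⟫_ℝ = s) (hyR : ‖y‖ + ρ ≤ R) :
    discR n ρ F y ≤ plInt n s (fun x => zR R x * X x) := by
  have hw : y - s • n ∈ (Submodule.span ℝ {n})ᗮ := mem_perp (by
    rw [inner_sub_right, inner_smul_right, real_inner_self_eq_norm_sq, hn, hy]
    ring)
  set w : (Submodule.span ℝ {n})ᗮ := ⟨y - s • n, hw⟩ with hwdef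
  set G : Sp d → ℝ := fun x => zR R x * X x with hG
  have hGc : Continuous G := (zR_cont R).mul hX
  have hGs : HasCompactSupport G := (zR_cs R).mul_right
  have hG0 : ∀ x, 0 ≤ G x := fun x => mul_nonneg (zR_nn R x) (hX0 x)
  have hi : Integrable (fun y' : (Submodule.span ℝ {n})ᗮ => G (s • n + (y' : Sp d))) :=
    NN.pl_int hGc hGs
  have hi2 : Integrable (fun y' : (Submodule.span ℝ {n})ᗮ => G (y + (y' : Sp d))) := by
    have h1 := hi.comp_add_left w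
    refine h1.congr (Eventually.of_forall fun y' => ?_)
    simp only [hwdef, Submodule.coe_add]
    congr 1
    abel
  have hint : plInt n s G = ∫ y' : (Submodule.span ℝ {n})ᗮ, G (y + (y' : Sp d)) := by
    unfold plInt
    rw [← integral_add_left_eq_self (μ := volume)
      (fun y' : (Submodule.span ℝ {n})ᗮ => G (s • n + (y' : Sp d))) w]
    refine integral_congr_ae (Eventually.of_forall fun y' => ?_)
    simp only [hwdef, Submodule.coe_add]
    congr 1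
    abel
  rw [hint]
  unfold discR
  have h2 : ∫ y' in closedBall (0 : (Submodule.span ℝ {n})ᗮ) ρ, F (y + (y' : Sp d)) ≤
      ∫ y' in closedBall (0 : (Submodule.span ℝ {n})ᗮ) ρ, G (y + (y' : Sp d)) := by
    refine setIntegral_mono_on ?_ hi2.integrableOn isClosed_closedBall.measurableSet ?_
    · exact (hF.comp (by fun_prop)).continuousOn.integrableOn_compact (isCompact_closedBall _ _)
    · intro y' hy'
      rw [mem_closedBall, dist_zero_right] at hy'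
      have h3 : ‖y + (y' : Sp d)‖ ≤ R := by
        have h4 := norm_add_le y (y' : Sp d)
        have h5 : ‖(y' : Sp d)‖ = ‖y'‖ := rfl
        linarith
      simp only [hG]
      rw [zR_one h3, one_mul]
      exact hFX _
  exact h2.trans (setIntegral_le_integral hi2 (Eventually.of_forall fun y' => hG0 _))

lemma tang_perp {n : Sp d} (hn : ‖n‖ = 1) (w : Sp d) : ⟪n, tang n w⟫_ℝ = 0 := by
  unfold tang
  rw [inner_sub_right, inner_smul_right, real_inner_self_eq_norm_sq, hn]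
  ring

lemma grad_smooth {f : Sp d → ℝ} (hf : ContDiff ℝ ∞ f) (n : Sp d) :
    ContDiff ℝ ∞ (fun x => tang n (gradient f x)) := by
  have h1 : ContDiff ℝ ∞ (gradient f) :=
    (InnerProductSpace.toDual ℝ (Sp d)).symm.contDiff.comp
      (hf.fderiv_right (m := ∞) (by norm_cast))
  unfold tang
  exact h1.sub ((contDiff_const.inner ℝ h1).smul contDiff_const)

/-- the function Υ vanishes near points where q < p0 / 2 -/
lemma Ups_ev {p0 A : ℝ} (hp0 : 0 < p0) {μ : Measure (Sp d)} (hq : Continuous (qq A μ 1)) {y : Sp d}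
    (hy : qq A μ 1 y < p0 / 2) : ∀ᶠ z in 𝓝 y, Ups p0 A μ 1 z = 0 := by
  filter_upwards [hq.continuousAt.eventually_lt_const hy] with z hz
  unfold Ups
  refine Real.smoothTransition.zero_of_nonpos ?_
  have h1 : 2 * qq A μ 1 z / p0 ≤ 1 := by
    rw [div_le_one hp0]
    linarith
  linarith

end TDc

open _root_.TG.TDc

theorem stmtTD1 (hTH : StmtTH) (hWB : StmtWB) (hWA : StmtWA) (hIN : StmtIN) (hUB : StmtUB)
    (hPF : StmtPF) : StmtTD1 := by
  intro d J hd M C' ε p0 A R0 δ hC' hε hε4 hp0 hp1 hA hR0 hδ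
  obtain ⟨CU, hCU, hU⟩ := hUB d (J + 3) hd M C' ε p0 A hC' hε (by linarith) hp0 hp1 hA
  obtain ⟨CB, hCB, hB⟩ := hWB d (J + 2) hd M C' ε hC' hε (by linarith)
  obtain ⟨CA, hCA, hAw⟩ := hWA d 0 hd M C' ε hC' hε (by linarith)
  obtain ⟨L1, hL1, hl1⟩ := dvg_bd hd (J + 1) CU hCU.le
  obtain ⟨L2, hL2, hl2⟩ := dvg_bd hd 2 CU hCU.le
  obtain ⟨I, i0, hI1, hI2, hi0, hin⟩ := hIN d hd M C' ε p0 A R0 (δ / (4 * L2)) hC' hε hε4 hp0 hp1 hA
    hR0 (by positivity)
  have hd2 : (2 : ℝ) ≤ d := by exact_mod_cast hd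
  set C1 : ℝ := L1 * ((J + 3 : ℕ) * Real.sqrt (CB * (1 + d) ^ d)) with hC1
  have hC1n : 0 ≤ C1 := by positivity
  refine ⟨I, i0, C1 + C1 * Real.sqrt i0 + δ, hI1, hI2, hi0, by positivity, ?_⟩
  intro β hβ μ hμ m n s ab ep D hm hD _hZ hS hsm
  have hn := hS.n1
  have hβ0 := hβ 0
  set v := vv μ 1 0 with hv
  have hv0 : 0 ≤ v := Real.sqrt_nonneg _
  obtain ⟨hWs, -, -, -, -, hqs, -, hUs, hUb, -, -, -⟩ :=
    hU (β 0) (PTm.kit_mono (by omega) hβ0) μ hμ
  set g : Sp d → Sp d := fun y => tang n (gradient (WW (β 0) ε μ 1) y) with hg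
  have hgs : ContDiff ℝ ∞ g := grad_smooth hWs n
  set u : Sp d → ℝ := Ups p0 A μ 1 with hu
  have hgt : ∀ y, ⟪n, g y⟫_ℝ = 0 := fun y => tang_perp hn _
  -- the gain functional
  obtain ⟨-, -, -, -, hAn⟩ := hAw (β 0) (PTm.kit_mono (by omega) hβ0) μ hμ
  obtain ⟨hXs, hX0, -, hX13s, hX130, -⟩ := hAn n hn
  have hXc : Continuous (XX (β 0) ε μ n 1) := hXs.continuous
  have hX13c : Continuous (X13 (β 0) ε μ n 1) := hX13s.continuous
  have hle : ∀ x, X13 (β 0) ε μ n 1 x ≤ XX (β 0) ε μ n 1 x := by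
    intro x
    have h1 : 0 ≤ tav (X2 μ n) 1 x := by
      unfold tav
      refine intervalIntegral.integral_nonneg (by norm_num) fun r hr => ?_
      refine mul_nonneg (le_max_left _ _) ?_
      refine div_nonneg (integral_nonneg fun η => mul_nonneg (by (clear * -; positivity)) ?_) (Real.sqrt_nonneg _)
      have : 0 ≤ r := by linarith [hr.1]
      unfold kk
      (clear * - this; positivity)
    unfold X13 XX
    linarith
  set P := plInt n s (fun x => zR (d + 2) x * XX (β 0) ε μ n 1 x) with hP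
  have hP0 : 0 ≤ P := integral_nonneg fun y => mul_nonneg (zR_nn _ _) (hX0 _)
  have hPi : P ≤ i0 * v := by
    refine le_trans ?_ (hsm 0 (Nat.zero_le _))
    simp only [pow_zero]
    unfold plInt at hP ⊢
    rw [hP]
    refine integral_mono (NN.pl_int ((zR_cont _).mul hXc) (zR_cs _).mul_right)
      (NN.pl_int ((zR_cont _).mul hXc) (zR_cs _).mul_right) fun y => ?_
    exact mul_le_mul_of_nonneg_right (zR_le (by linarith) _) (hX0 _)
  -- bounds on the plane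
  set N : ℝ := C1 * Real.sqrt (v * P) with hNdef
  have hN0 : 0 ≤ N := by (clear * - hL1 hCB hd; positivity)
  have hgb : ∀ i < J + 3, ∀ y, ‖y‖ ≤ d → ⟪n, y⟫_ℝ = s →
      ‖iteratedFDeriv ℝ i g y‖ ≤ Real.sqrt (CB * (1 + d) ^ d) * Real.sqrt (v * P) := by
    intro i hi y hy hys
    obtain ⟨hB1, -, -, -⟩ := hB (β 0) (PTm.kit_mono (by omega) hβ0) μ hμ n hn
    have h1 := hB1 i (by omega) y
    have h2 : discR n (2 * ε) (X13 (β 0) ε μ n 1) y ≤ P :=
      disc_le hn hX13c hXc hle hX0 hys (by linarith)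
    have h3 : vv μ 1 y ≤ (1 + d) ^ d * v := vv_le hTH hd hC' hμ hy
    rw [← Real.sqrt_mul (by positivity)]
    refine Real.le_sqrt_of_sq_le ?_
    have h4 : 0 ≤ discR n (2 * ε) (X13 (β 0) ε μ n 1) y :=
      setIntegral_nonneg isClosed_closedBall.measurableSet fun _ _ => hX130 _
    calc ‖iteratedFDeriv ℝ i g y‖ ^ 2 ≤
        CB * vv μ 1 y * discR n (2 * ε) (X13 (β 0) ε μ n 1) y := h1
      _ ≤ CB * ((1 + d) ^ d * v) * P := by
          refine mul_le_mul (mul_le_mul_of_nonneg_left h3 hCB.le) h2 h4 (by positivity)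
      _ = CB * (1 + d) ^ d * (v * P) := by ring
  have hTB : TB J n s N (dvg u g) := by
    refine dvg_TB hd hn hN0 hUs hgs fun k hk y hy hys => ?_
    have h1 := hl1 u g hUs hgs (fun j hj x => hUb j (by omega) x) k hk y
    refine h1.trans ?_
    have h2 : ∑ i ∈ Finset.range (J + 1 + 2), ‖iteratedFDeriv ℝ i g y‖ ≤
        ∑ _i ∈ Finset.range (J + 1 + 2), Real.sqrt (CB * (1 + d) ^ d) * Real.sqrt (v * P) :=
      Finset.sum_le_sum fun i hi => hgb i (by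
        have := Finset.mem_range.1 hi
        omega) y hy hys
    rw [Finset.sum_const, Finset.card_range, nsmul_eq_mul] at h2
    have h3 := mul_le_mul_of_nonneg_left h2 hL1.le
    refine h3.trans_eq ?_
    rw [hNdef, hC1]
    push_cast
    ring
  -- second derivatives
  have hN2 : ∀ y, ‖iteratedFDeriv ℝ 2 (dvg u g) y‖ ≤ δ * v := by
    intro y
    have hδv : 0 ≤ δ * v := by positivity
    rcases le_or_gt (d : ℝ) ‖y‖ with h1 | h1
    · rw [iter_zero (dvg_ev_far hd h1), norm_zero]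
      exact hδv
    · rcases lt_or_ge (qq A μ 1 y) (p0 / 2) with h2 | h2
      · have h3 : dvg u g =ᶠ[𝓝 y] fun _ => 0 := by
          refine dvg_ev ?_
          filter_upwards [Ups_ev hp0 hqs.continuous h2] with z hz
          show chi z * Ups p0 A μ 1 z = 0
          rw [hz, mul_zero]
        rw [iter_zero h3, norm_zero]
        exact hδv
      · obtain ⟨-, -, h3⟩ := hin β (fun i => PTm.kit_mono (by omega) (hβ i)) μ hμ n s hn hS.loc hsm
          y (by linarith) h2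
        have h4 := hl2 u g hUs hgs (fun j hj x => hUb j (by omega) x) 2 le_rfl y
        refine h4.trans ?_
        have h5 : ∑ i ∈ Finset.range (2 + 2), ‖iteratedFDeriv ℝ i g y‖ ≤
            ∑ _i ∈ Finset.range (2 + 2), δ / (4 * L2) * v :=
          Finset.sum_le_sum fun i hi => h3 i (by
            have := Finset.mem_range.1 hi
            omega)
        rw [Finset.sum_const, Finset.card_range, nsmul_eq_mul] at h5
        refine (mul_le_mul_of_nonneg_left h5 hL2.le).trans_eq ?_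
        push_cast
        field_simp
  have hest := hS.est (dvg u g) d N (δ * v) (contDiff_infty.1 (dvg_smooth hUs hgs) (J + 2))
    (Nat.cast_nonneg d) (by linarith) (fun y hy => (dvg_ev_far hd hy).eq_of_nhds) hTB hN2
  rw [dvg_pl hPF hd hn hUs hgs hgt, mul_zero, sub_zero] at hest
  rw [dvT_eq]
  refine hest.trans ?_
  have hNv : N ≤ C1 * Real.sqrt i0 * v := by
    have h1 : v * P ≤ i0 * v ^ 2 := by nlinarith only [hv0, hPi]
    have h2 : Real.sqrt (v * P) ≤ Real.sqrt i0 * v := by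
      calc Real.sqrt (v * P) ≤ Real.sqrt (i0 * v ^ 2) := Real.sqrt_le_sqrt h1
        _ = Real.sqrt i0 * v := by rw [Real.sqrt_mul hi0.le, Real.sqrt_sq hv0]
    calc N = C1 * Real.sqrt (v * P) := hNdef
      _ ≤ C1 * (Real.sqrt i0 * v) := mul_le_mul_of_nonneg_left h2 hC1n
      _ = C1 * Real.sqrt i0 * v := by ring
  have hs0 := Real.sqrt_nonneg (v * P)
  have hsi := Real.sqrt_nonneg i0
  have hep := hS.ep0
  have e1 : ep * N ≤ (C1 + C1 * Real.sqrt i0 + δ) * ep * Real.sqrt (v * P) := by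
    rw [hNdef]
    have : 0 ≤ (C1 * Real.sqrt i0 + δ) * (ep * Real.sqrt (v * P)) := by (clear * - hL1 hCB hd hi0 hδ hep; positivity)
    linarith only [this]
  have e2 : (N + δ * v) * D ≤ (C1 + C1 * Real.sqrt i0 + δ) * v * D := by
    refine mul_le_mul_of_nonneg_right ?_ hD
    have : 0 ≤ C1 * v := by positivity
    linarith only [hNv, this]
  linarith

end

end TG


end

section

/-!
# Module W2, tools, part 5: the cases A1 and A2 (helper60)
-/

open MeasureTheory Metric Set TrI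
open scoped InnerProductSpace ContDiff ENNReal

set_option linter.unusedSectionVars false

namespace TG

noncomputable section

namespace W2m

variable {d : ℕ}

/-- bounds of the off-sheet masses -/
lemma bnds (hd : 2 ≤ d) {J JA : ℕ} {M c0 C' c R0 : ℝ} {X : Prm d}
    (hX : XOK J JA M c0 C' c R0 X) : ∃ Kb : ℝ, 0 < Kb ∧
    ∀ (E : Type) [NormedAddCommGroup E] [InnerProductSpace ℝ E] [FiniteDimensional ℝ E]
      (W : Wld d E) (Rz κ : ℝ), 64 * R0 + 1 ≤ Rz → WOK JA C' R0 Rz X W → ∀ Q : Cell d,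
      WSh J R0 κ W Q → |W.sv Q| ≤ 32 * R0 + 4 →
      |blc (W.nv Q) (W.sv Q) (W.m Q) (d + 1)| ≤ W.er Q + Kb * W.D Q ∧
      |blc (W.nv Q) (W.sv Q) (W.m Q) (d + 1)| ≤
        max 0 (blc (W.nv Q) (W.sv Q) (W.m Q) (R0 + 4)) + Kb * W.D Q ∧
      -(Kb * W.D Q) ≤ ∫ y, W.m Q y * (chi y * hgt (W.nv Q) (W.sv Q) y ^ 2) ∧
      ∫ y, W.m Q y * (chi y * hgt (W.nv Q) (W.sv Q) y ^ 2) ≤ W.er Q + Kb * W.D Q := by
  have hd1 : 1 ≤ d := by omega
  have hd' : (2 : ℝ) ≤ d := by exact_mod_cast hd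
  have hR := hX.R0_ge
  have hA := hX.prm.A_ge
  obtain ⟨K1, hK1, h1⟩ := blc_le (d := d) (r := d + 1) (r' := 64 * R0) (by positivity)
    (by linarith) (32 * R0 + 4)
  obtain ⟨K2, hK2, h2⟩ := blc_le (d := d) (r := d + 1) (r' := R0 + 4) (by positivity)
    (by linarith) (32 * R0 + 4)
  obtain ⟨K3, hK3, h3⟩ := blc_ge (d := d) (r := d + 1) (by positivity) (32 * R0 + 4)
  obtain ⟨K4, hK4, h4⟩ := chi_ge (d := d) hd1 (32 * R0 + 4)
  obtain ⟨K5, hK5, h5⟩ := chi_le (d := d) hd1 (r := 64 * R0) (by linarith) (32 * R0 + 4)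
  refine ⟨K1 + K2 + K3 + K4 + K5, by positivity, ?_⟩
  intro E _ _ _ W Rz κ hRz hW Q hS hs
  have hm : Continuous (W.m Q) := mQ_cont _ hW.fc _ _
  have hn := hW.nu Q
  have hD := hW.D0 Q
  have hZ := fun r (hr : r ≤ 64 * R0 + 1) => ZP_mono (hW.zp Q) (hr.trans hRz) le_rfl
  have e1 := h1 (W.m Q) (W.nv Q) (W.sv Q) (W.D Q) hm hn hs (hZ _ le_rfl)
  have e2 := h2 (W.m Q) (W.nv Q) (W.sv Q) (W.D Q) hm hn hs (hZ _ (by linarith))
  have e3 := h3 (W.m Q) (W.nv Q) (W.sv Q) (W.D Q) hn hs (hZ _ (by linarith))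
  have e4 := h4 (W.m Q) (W.nv Q) (W.sv Q) (W.D Q) hn hs (hZ _ (by linarith))
  have e5 := h5 (W.m Q) (W.nv Q) (W.sv Q) (W.D Q) hm hn hs (hZ _ le_rfl)
  have e6 := hS.bl
  have e7 := hS.sh.ep0
  have p1 := mul_nonneg hK1.le hD
  have p2 := mul_nonneg hK2.le hD
  have p3 := mul_nonneg hK3.le hD
  have p4 := mul_nonneg hK4.le hD
  have p5 := mul_nonneg hK5.le hD
  have hs1 : (K1 + K2 + K3 + K4 + K5) * W.D Q =
    K1 * W.D Q + K2 * W.D Q + K3 * W.D Q + K4 * W.D Q + K5 * W.D Q := by ring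
  rw [hs1]
  refine ⟨?_, ?_, ?_, ?_⟩
  · rw [abs_le]; constructor <;> linarith
  · have e8 := le_max_left 0 (blc (W.nv Q) (W.sv Q) (W.m Q) (R0 + 4))
    have e9 := le_max_right 0 (blc (W.nv Q) (W.sv Q) (W.m Q) (R0 + 4))
    rw [abs_le]; constructor <;> linarith
  · linarith
  · linarith

/-- the gain on the plane is at most the value of the potential -/
lemma gX_le (hWA : StmtWA) (hFM : StmtFM) (hd : 2 ≤ d) {J JA : ℕ} {M c0 C' c R0 : ℝ} {X : Prm d}
    (hX : XOK J JA M c0 C' c R0 X) : ∃ S : ℝ, 0 ≤ S ∧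
    ∀ (E : Type) [NormedAddCommGroup E] [InnerProductSpace ℝ E] [FiniteDimensional ℝ E]
      (W : Wld d E) (Rz : ℝ), WOK JA C' R0 Rz X W → ∀ Q : Cell d,
      gX W Q ≤ S ^ 2 * W.v Q := by
  have hp := hX.prm
  obtain ⟨C, hC, h⟩ := hWA d 0 hd M C' X.ε hX.C'_pos hp.ε_pos (by linarith [hp.ε_le])
  obtain ⟨C2, hC2, h2⟩ := TFx.pl_le (d := d) (by omega) ((d : ℝ) + 3)
  set H : ℝ := Real.sqrt ((1 + ((d : ℝ) + 3)) ^ d) with hH
  have hH0 : 0 ≤ H := Real.sqrt_nonneg _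
  refine ⟨Real.sqrt (C2 * (C * H)), Real.sqrt_nonneg _, ?_⟩
  intro E _ _ _ W Rz hW Q
  have hXe := hW.X_eq
  subst hXe
  obtain ⟨hgro, hv⟩ := frame hFM hd hX.C'_pos hW.s0_pos hW.gro Q
  have hvQ : W.v Q = vv (W.mu Q) 1 0 := hv.symm
  obtain ⟨-, -, -, -, h3⟩ := h (W.be Q) (PTm.kit_mono (by omega) (hX.ker.kit _)) (W.mu Q) hgro
  obtain ⟨-, h4, h5, -⟩ := h3 (W.nv Q) (hW.nu Q)
  rw [Real.sq_sqrt (by positivity), hvQ]
  have hv0 : 0 ≤ vv (W.mu Q) 1 0 := Real.sqrt_nonneg _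
  refine (le_abs_self _).trans ?_
  rw [mul_assoc]
  refine h2 (W.nv Q) (hW.nu Q) (W.sv Q) _ _ (by positivity) (fun y hy => ?_) (fun y _ hy => ?_)
  · rw [TU.zR_zero (by linarith), zero_mul]
  · have h6 := h5 0 le_rfl y
    rw [norm_iteratedFDeriv_zero, Real.norm_eq_abs] at h6
    rw [abs_mul, abs_of_nonneg (TU.zR_nonneg _ _)]
    have h7 := TA2Aux.vv_harnack hd hX.C'_pos hgro hy
    calc zR (↑d + 2) y * |XX (W.be Q) W.X.ε (W.mu Q) (W.nv Q) 1 y| ≤
          1 * |XX (W.be Q) W.X.ε (W.mu Q) (W.nv Q) 1 y| :=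
          mul_le_mul_of_nonneg_right (TU.zR_le_one _ _) (abs_nonneg _)
      _ ≤ C * vv (W.mu Q) 1 y := by rw [one_mul]; exact h6
      _ ≤ C * (H * vv (W.mu Q) 1 0) := mul_le_mul_of_nonneg_left h7 hC.le
      _ = C * H * vv (W.mu Q) 1 0 := by ring

/-- case A1 -/
lemma caseA1 (hTA1 : StmtTA1) (hTD1 : StmtTD1) (hTF : StmtTF) (hUB : StmtUB) (hP1 : StmtP1)
    (hW1 : StmtW1) (hNS : StmtNS) (hFM : StmtFM) (hd : 2 ≤ d) {J JA : ℕ} {M c0 C' c R0 : ℝ}
    {X : Prm d} (hX : XOK J JA M c0 C' c R0 X) :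
    ∃ cA : ℝ, 0 < cA ∧ ∀ (θ Kc : ℝ), 0 < θ → 1 ≤ Kc → ∃ (I : ℕ) (i1 κ K Rz : ℝ), I ≤ JA ∧
      0 < i1 ∧ 0 < κ ∧ 0 < K ∧
    ∀ (E : Type) [NormedAddCommGroup E] [InnerProductSpace ℝ E] [FiniteDimensional ℝ E]
      (W : Wld d E), WOK JA C' R0 Rz X W → ∀ Q : Cell d, W.Near Q → Ash J JA R0 κ Kc W Q →
      |W.sv Q| ≤ 3 / 2 * R0 →
      (∀ i ≤ I, plInt (W.nv Q) (W.sv Q)
        (fun x => zR (2 * R0 - 1) x * XX (W.bi Q i) W.X.ε (W.mu Q) (W.nv Q) (2 ^ i) x) ≤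
          i1 * W.v Q) →
      cA * (W.sg Q + W.bl Q) ≤ nt0 W Q + θ * (W.ab Q * gX W Q) +
        θ * (W.v Q * |blc (W.nv Q) (W.sv Q) (W.m Q) (d + 1)|) +
        K * (W.v Q * (W.sE R0 JA Q + W.sD R0 JA Q)) := by
  have hp := hX.prm
  have hd' : (2 : ℝ) ≤ d := by exact_mod_cast hd
  have hR := hX.R0_ge
  have hAg := hp.A_ge
  have hRr : 4 * X.A + 4 * d + 20 ≤ R0 := by linarith
  obtain ⟨cA, hcA, hTA⟩ := hTA1 d J hd M C' X.ε X.p0 X.A c R0 hX.C'_pos hp.ε_pos hp.ε_le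
    hX.far hRr
  refine ⟨cA, hcA, fun θ Kc hθ hKc => ?_⟩
  set N3 : ℝ := 3 ^ d with hN3
  have hN30 : 0 < N3 := by positivity
  set θ2 : ℝ := θ / (2 * (N3 + 1)) with hθ2
  have hθ20 : 0 < θ2 := by positivity
  obtain ⟨ia, Ca, hia, hCa, hTA'⟩ := hTA (θ / 4) (by positivity)
  obtain ⟨I, ie, Cd, hI8, hI32, hie, hCd, hTD'⟩ := hTD1 d J hd M C' X.ε X.p0 X.A R0 (θ / 4)
    hX.C'_pos hp.ε_pos hp.ε_le hp.p0_pos hp.p0_le hp.A_ge hRr (by positivity)
  obtain ⟨C, C1, hC, hC1, hfl⟩ := fluxes hTF hUB hP1 hW1 hNS hFM hd hX hRr (by linarith)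
  obtain ⟨κ1, K1, Rz1, hκ1, hK1, hfl'⟩ := hfl Kc hKc
  obtain ⟨Kb, hKb, hb⟩ := bnds hd hX
  set κ2 : ℝ := θ2 / C / 2 / (K1 * (2 + 2 * Kc)) with hκ2
  have hκ20 : 0 < κ2 := by positivity
  set Kf : ℝ := 2 * C ^ 2 / θ2 * (1 + (1 + 6 * K1 ^ 2 * Kc)) + C * (1 + 2 * (1 + 6 * K1 ^ 2 * Kc)) +
          C * (Kb + 2 * K1 / (θ2 / C)) + 3 * C1 with hKf
  have hKf0 : 0 < Kf := by positivity
  have hIJ : I ≤ JA := by
    have h1 : (2 : ℝ) ^ I ≤ 2 ^ JA := hI32.trans hX.JA_ge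
    exact (pow_le_pow_iff_right₀ (by norm_num)).1 h1
  refine ⟨I, min ia ie, min (min κ1 1) κ2, (Ca + Cd) ^ 2 / θ2 + (Ca + Cd) + N3 * (2 * Kf),
    max (64 * R0 + 1) Rz1, hIJ, lt_min hia hie, lt_min (lt_min hκ1 one_pos) hκ20, by positivity, ?_⟩
  intro E _ _ _ W hW Q hN hA hs hgain
  have hXe := hW.X_eq
  subst hXe
  set κ := min (min κ1 1) κ2 with hκ
  have hκ0 : 0 < κ := lt_min (lt_min hκ1 one_pos) hκ20
  have hκle1 : κ ≤ κ1 := (min_le_left _ _).trans (min_le_left _ _)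
  have hκle2 : κ ≤ 1 := (min_le_left _ _).trans (min_le_right _ _)
  have hκle3 : κ ≤ κ2 := min_le_right _ _
  have hκθ : K1 * (κ * (2 + 2 * Kc)) ≤ θ2 / C / 2 := by
    calc K1 * (κ * (2 + 2 * Kc)) ≤ K1 * (κ2 * (2 + 2 * Kc)) := by gcongr
      _ = θ2 / C / 2 := by rw [hκ2]; field_simp
  have hWa := WOK_mono hW (le_max_left (64 * R0 + 1) Rz1)
  have hWb := WOK_mono hW (le_max_right (64 * R0 + 1) Rz1)
  have hflQ := hfl' E W hWb Q (Ash_mono hA hκle1) hs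
  obtain ⟨hsv, hSh, hAll⟩ := hA
  have hsub := adj_ns hNS hd (R0 := R0) (by linarith) JA W hW.s0_pos Q
  have hQns : Q ∈ W.ns R0 JA Q := hsub (self_adj Q)
  obtain ⟨hb1, -, -, -⟩ := hb E W _ κ le_rfl hWa Q hSh hsv
  obtain ⟨hgro, hv⟩ := frame hFM hd hX.C'_pos hW.s0_pos hW.gro Q
  have hvQ : W.v Q = vv (W.mu Q) 1 0 := hv.symm
  have hv0 : 0 ≤ W.v Q := v_nonneg W Q
  have hab := hSh.sh.ab0
  have her := hSh.sh.ep0
  have hD0 := hW.D0 Q
  have hdl0 := hSh.dl0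
  have hX0 := gX_nonneg hX hWa Q
  set b := |blc (W.nv Q) (W.sv Q) (W.m Q) (d + 1)| with hbd
  have hb0 : 0 ≤ b := abs_nonneg _
  have hm : Continuous (W.m Q) := mQ_cont _ hW.fc _ _
  have hZ : ZP R0 (W.dl Q + W.D Q) (W.m Q) := ZP_mono (hWa.zp Q) (by linarith) (by linarith)
  have hSt := WT.sheet_mono hSh.sh (le_refl J) (by linarith : R0 ≤ 64 * R0) hs le_rfl
    (by linarith : W.dl Q ≤ W.dl Q + W.D Q)
  -- the sums
  set SE := W.sE R0 JA Q with hSE
  set SD := W.sD R0 JA Q with hSD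
  have hEg : ∀ Q' ∈ W.ns R0 JA Q, W.er Q' ^ 2 / W.ab Q' + W.dl Q' ≤ SE := fun Q' hQ' =>
    sE_ge ⟨hsv, hSh, hAll⟩ hQns hN hQ'
  have hDg : ∀ Q' ∈ W.ns R0 JA Q, W.D Q' ≤ SD := fun Q' hQ' => sD_ge hW hQ'
  have hq0 : 0 ≤ W.er Q ^ 2 / W.ab Q := by positivity
  -- the gain
  have hg0 := hgain 0 (Nat.zero_le _)
  have hTAQ := hTA' (W.be Q) (hX.ker.kit _) (W.mu Q) hgro (W.m Q) (W.nv Q) (W.sv Q) (W.ab Q)
    (W.er Q) (W.dl Q + W.D Q) hm (by positivity) hZ hSt (by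
      rw [← hvQ]
      have h1 : plInt (W.nv Q) (W.sv Q) (fun x => zR (2 * R0 - 1) x *
          XX (W.be Q) W.X.ε (W.mu Q) (W.nv Q) 1 x) ≤ min ia ie * W.v Q := by
        have h2 := hg0
        rw [pow_zero, show W.bi Q 0 = W.be Q from rfl] at h2
        exact h2
      exact h1.trans (mul_le_mul_of_nonneg_right (min_le_left _ _) hv0))
  have hTDQ := hTD' (fun i => W.bi Q i) (fun i => hX.ker.kit _) (W.mu Q) hgro (W.m Q) (W.nv Q)
    (W.sv Q) (W.ab Q) (W.er Q) (W.dl Q + W.D Q) hm (by positivity) hZ hSt (fun i hi => by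
      rw [← hvQ]
      exact (hgain i hi).trans (mul_le_mul_of_nonneg_right (min_le_right _ _) hv0))
  rw [← hvQ] at hTAQ hTDQ
  -- the fluxes
  have hF : ∀ Q' ∈ adj Q, |Fl W Q Q'| ≤ θ2 * (W.ab Q * gX W Q) + θ2 * (W.v Q * b) +
      2 * Kf * (W.v Q * (SE + SD)) := by
    intro Q' hQ'
    obtain ⟨δ, hδ0, hδ1, ht, hFl⟩ := hflQ Q' hQ'
    obtain ⟨-, hSh', hab'⟩ := hAll Q' (hsub hQ')
    refine hFl.trans ((fl_small (Kb := Kb) hC hC1 hK1 hKc hκ0.le hκle2 hθ20 hKb.le hab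
      hSh'.sh.ab0 her hdl0 hSh'.dl0 hD0 (hW.D0 Q') hv0 hX0 hb0 hδ0 hδ1 hSh.small hSh'.small
      hSh.smalld hSh'.smalld hab' hκθ ht hb1).trans ?_)
    rw [← hKf]
    have h1 := hEg Q hQns
    have h2 := hEg Q' (hsub hQ')
    have h3 := hDg Q hQns
    have h4 := hDg Q' (hsub hQ')
    have h5 : W.er Q ^ 2 / W.ab Q + W.er Q' ^ 2 / W.ab Q' + W.dl Q + W.dl Q' + W.D Q + W.D Q' ≤
        2 * (SE + SD) := by linarith
    have h6 : Kf * (W.v Q * (W.er Q ^ 2 / W.ab Q + W.er Q' ^ 2 / W.ab Q' + W.dl Q + W.dl Q' +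
        W.D Q + W.D Q')) ≤ Kf * (W.v Q * (2 * (SE + SD))) := by gcongr
    linarith
  have hSum : ∑ Q' ∈ adj Q, Fl W Q Q' ≤ N3 * (θ2 * (W.ab Q * gX W Q) + θ2 * (W.v Q * b) +
      2 * Kf * (W.v Q * (SE + SD))) := by
    have h1 := Finset.sum_le_card_nsmul (adj Q) (fun Q' => Fl W Q Q') _
      (fun Q' hQ' => (le_abs_self _).trans (hF Q' hQ'))
    rw [adj_card, nsmul_eq_mul] at h1
    push_cast at h1
    exact h1
  -- Young for the gain and the divergence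
  have hy := young (C := Ca + Cd) (by positivity) her hX0 hv0 hab hθ20
  have hTA2 : cA * (W.sg Q + W.bl Q) - Ca * W.er Q * Real.sqrt (W.v Q * gX W Q) -
      θ / 4 * W.v Q * blc (W.nv Q) (W.sv Q) (W.m Q) (d + 1) - Ca * W.v Q * (W.dl Q + W.D Q) ≤
      ∫ y, W.m Q y * (chi y * Hn (W.be Q) W.X.ε W.X.p0 W.X.A (W.mu Q) (W.nv Q) 1 y) := hTAQ
  have hTD2 : |∫ y, W.m Q y * dvT chi (W.be Q) W.X.ε W.X.p0 W.X.A (W.mu Q) (W.nv Q) y| ≤
      Cd * W.er Q * Real.sqrt (W.v Q * gX W Q) +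
      θ / 4 * W.v Q * blc (W.nv Q) (W.sv Q) (W.m Q) (d + 1) + Cd * W.v Q * (W.dl Q + W.D Q) := hTDQ
  have hTD3 := neg_le_of_abs_le hTD2
  have hbl : θ / 4 * W.v Q * blc (W.nv Q) (W.sv Q) (W.m Q) (d + 1) ≤ θ / 4 * (W.v Q * b) := by
    rw [mul_assoc]
    exact mul_le_mul_of_nonneg_left (mul_le_mul_of_nonneg_left (le_abs_self _) hv0) (by positivity)
  have hDs : (Ca + Cd) * W.v Q * (W.dl Q + W.D Q) ≤ (Ca + Cd) * (W.v Q * (SE + SD)) := by
    have h1 := hEg Q hQns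
    have h2 := hDg Q hQns
    have h3 : W.dl Q + W.D Q ≤ SE + SD := by linarith
    calc (Ca + Cd) * W.v Q * (W.dl Q + W.D Q) ≤ (Ca + Cd) * W.v Q * (SE + SD) := by gcongr
      _ = _ := by ring
  have hEs : (Ca + Cd) ^ 2 / θ2 * (W.v Q * (W.er Q ^ 2 / W.ab Q)) ≤
      (Ca + Cd) ^ 2 / θ2 * (W.v Q * (SE + SD)) := by
    have h1 := hEg Q hQns
    have h2 := hDg Q hQns
    have h3 : W.er Q ^ 2 / W.ab Q ≤ SE + SD := by linarith
    gcongr
  have hth1 : θ2 * (W.ab Q * gX W Q) + N3 * (θ2 * (W.ab Q * gX W Q)) ≤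
      θ * (W.ab Q * gX W Q) := by
    have h1 : θ2 * (W.ab Q * gX W Q) + N3 * (θ2 * (W.ab Q * gX W Q)) =
        θ / 2 * (W.ab Q * gX W Q) := by
      rw [hθ2]; field_simp; ring
    rw [h1]
    have : 0 ≤ θ * (W.ab Q * gX W Q) := by positivity
    linarith
  have hth2 : N3 * (θ2 * (W.v Q * b)) ≤ θ / 2 * (W.v Q * b) := by
    have h1 : N3 * θ2 ≤ θ / 2 := by
      rw [hθ2, ← mul_div_assoc, div_le_iff₀ (by positivity)]
      nlinarith
    calc N3 * (θ2 * (W.v Q * b)) = N3 * θ2 * (W.v Q * b) := by ring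
      _ ≤ _ := mul_le_mul_of_nonneg_right h1 (by positivity)
  have hexp : ((Ca + Cd) ^ 2 / θ2 + (Ca + Cd) + N3 * (2 * Kf)) * (W.v Q * (SE + SD)) =
      (Ca + Cd) ^ 2 / θ2 * (W.v Q * (SE + SD)) + (Ca + Cd) * (W.v Q * (SE + SD)) +
        N3 * (2 * Kf * (W.v Q * (SE + SD))) := by ring
  rw [hexp]
  unfold nt0
  have hy2 : (Ca + Cd) * W.er Q * Real.sqrt (W.v Q * gX W Q) =
      Ca * W.er Q * Real.sqrt (W.v Q * gX W Q) + Cd * W.er Q * Real.sqrt (W.v Q * gX W Q) := by ring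
  have hD2 : (Ca + Cd) * W.v Q * (W.dl Q + W.D Q) =
      Ca * W.v Q * (W.dl Q + W.D Q) + Cd * W.v Q * (W.dl Q + W.D Q) := by ring
  rw [hy2] at hy
  rw [hD2] at hDs
  linarith

/-- case A2 -/
lemma caseA2 (hTA2 : StmtTA2) (hTD2 : StmtTD2) (hTF : StmtTF) (hUB : StmtUB) (hP1 : StmtP1)
    (hW1 : StmtW1) (hNS : StmtNS) (hFM : StmtFM) (hWA : StmtWA) (hd : 2 ≤ d) {J JA : ℕ}
    {M c0 C' c R0 : ℝ} {X : Prm d} (hX : XOK J JA M c0 C' c R0 X) :
    ∃ cB : ℝ, 0 < cB ∧ ∀ Kc : ℝ, 1 ≤ Kc → ∃ (κ0 K4 K5 Rz : ℝ), 0 < κ0 ∧ 0 < K4 ∧ 0 < K5 ∧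
    ∀ κ : ℝ, 0 < κ → κ ≤ κ0 →
    ∀ (E : Type) [NormedAddCommGroup E] [InnerProductSpace ℝ E] [FiniteDimensional ℝ E]
      (W : Wld d E), WOK JA C' R0 Rz X W → ∀ Q : Cell d, Ash J JA R0 κ Kc W Q →
      cB * W.sg Q ≤ nt0 W Q + W.v Q * (κ * K4 * W.ab Q) + W.v Q * (K5 * W.sD R0 JA Q) := by
  have hp := hX.prm
  have hd' : (2 : ℝ) ≤ d := by exact_mod_cast hd
  have hR := hX.R0_ge
  have hAg := hp.A_ge
  have hRr : 4 * X.A + 4 * d + 20 ≤ 64 * R0 := by linarith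
  obtain ⟨cA, Ca, hcA, hCa, hTA⟩ := hTA2 d J hd M C' X.ε X.p0 X.A c (64 * R0) hX.C'_pos hp.ε_pos
    hp.ε_le hX.far hRr
  refine ⟨cA, hcA, fun Kc hKc => ?_⟩
  set N3 : ℝ := 3 ^ d with hN3
  have hN30 : 0 < N3 := by positivity
  obtain ⟨Cd, hCd, hTD⟩ := hTD2 d J hd M C' X.ε X.p0 X.A (64 * R0)
    hX.C'_pos hp.ε_pos hp.ε_le hp.p0_pos hp.p0_le hp.A_ge hRr
  obtain ⟨C, C1, hC, hC1, hfl⟩ := fluxes hTF hUB hP1 hW1 hNS hFM hd hX hRr le_rfl
  obtain ⟨κ1, K1, Rz1, hκ1, hK1, hfl'⟩ := hfl Kc hKc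
  obtain ⟨Kb, hKb, hb⟩ := bnds hd hX
  obtain ⟨S, hS, hgX⟩ := gX_le hWA hFM hd hX
  set K4' : ℝ := C * (S + 1) * (1 + K1 * (2 + 2 * Kc)) + C + C1 with hK4'
  set K5' : ℝ := C * (S + 1) * K1 + C * Kb + 3 * C1 with hK5'
  have hK40 : 0 < K4' := by positivity
  have hK50 : 0 < K5' := by positivity
  refine ⟨κ1, 4 * (Ca + Cd) + N3 * K4', (Ca + Cd) * (Kb + 2) + N3 * (2 * K5'),
    max (64 * R0 + 1) Rz1, hκ1, by positivity, by positivity, ?_⟩
  intro κ hκ0 hκ1' E _ _ _ W hW Q hA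
  have hXe := hW.X_eq
  subst hXe
  have hWa := WOK_mono hW (le_max_left (64 * R0 + 1) Rz1)
  have hWb := WOK_mono hW (le_max_right (64 * R0 + 1) Rz1)
  have hs : |W.sv Q| ≤ 3 / 2 * (64 * R0) := hA.1.trans (by linarith)
  have hflQ := hfl' E W hWb Q (Ash_mono hA hκ1') hs
  obtain ⟨hsv, hSh, hAll⟩ := hA
  have hsub := adj_ns hNS hd (R0 := R0) (by linarith) JA W hW.s0_pos Q
  have hQns : Q ∈ W.ns R0 JA Q := hsub (self_adj Q)
  obtain ⟨hb1, -, -, -⟩ := hb E W _ κ le_rfl hWa Q hSh hsv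
  obtain ⟨hgro, hv⟩ := frame hFM hd hX.C'_pos hW.s0_pos hW.gro Q
  have hvQ : W.v Q = vv (W.mu Q) 1 0 := hv.symm
  have hv0 : 0 ≤ W.v Q := v_nonneg W Q
  have hab := hSh.sh.ab0
  have her := hSh.sh.ep0
  have hD0 := hW.D0 Q
  have hdl0 := hSh.dl0
  have hsm := hSh.small
  have hsmd := hSh.smalld
  set b := |blc (W.nv Q) (W.sv Q) (W.m Q) (d + 1)| with hbd
  have hb0 : 0 ≤ b := abs_nonneg _
  have hm : Continuous (W.m Q) := mQ_cont _ hW.fc _ _
  have hZ : ZP (64 * R0) (W.dl Q + W.D Q) (W.m Q) := ZP_mono (hWa.zp Q) (by linarith) (by linarith)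
  have hSt := WT.sheet_mono hSh.sh (le_refl J) (le_refl (64 * R0)) hs le_rfl
    (by linarith : W.dl Q ≤ W.dl Q + W.D Q)
  set SD := W.sD R0 JA Q with hSD
  have hDg : ∀ Q' ∈ W.ns R0 JA Q, W.D Q' ≤ SD := fun Q' hQ' => sD_ge hW hQ'
  have hTAQ := hTA (W.be Q) (hX.ker.kit _) (W.mu Q) hgro (W.m Q) (W.nv Q) (W.sv Q) (W.ab Q)
    (W.er Q) (W.dl Q + W.D Q) hm (by positivity) hZ hSt
  have hTDQ := hTD (W.be Q) (hX.ker.kit _) (W.mu Q) hgro (W.m Q) (W.nv Q) (W.sv Q) (W.ab Q)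
    (W.er Q) (W.dl Q + W.D Q) hm (by positivity) hZ hSt
  rw [← hvQ] at hTAQ hTDQ
  -- the errors
  have hE : W.er Q + blc (W.nv Q) (W.sv Q) (W.m Q) (d + 1) + 2 * (W.dl Q + W.D Q) ≤
      4 * (κ * W.ab Q) + (Kb + 2) * SD := by
    have h1 : blc (W.nv Q) (W.sv Q) (W.m Q) (d + 1) ≤ b := le_abs_self _
    have h2 := hDg Q hQns
    have h3 : Kb * W.D Q ≤ Kb * SD := mul_le_mul_of_nonneg_left h2 hKb.le
    linarith
  have hF : ∀ Q' ∈ adj Q, Fl W Q Q' ≤ W.v Q * (κ * K4' * W.ab Q) + W.v Q * (K5' * (2 * SD)) := by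
    intro Q' hQ'
    obtain ⟨δ, hδ0, hδ1, ht, hFl⟩ := hflQ Q' hQ'
    obtain ⟨-, hSh', hab'⟩ := hAll Q' (hsub hQ')
    refine (le_abs_self _).trans (hFl.trans ((fl_crude (S := S) (Kb := Kb) hC hC1 hK1 hκ0.le hKb.le
      hab hS her (hW.D0 Q') hv0 (hgX E W _ hW Q) hb0 hδ0 hδ1 hsm hSh'.small
      hsmd hSh'.smalld hab' ht hb1).trans ?_))
    rw [← hK4', ← hK5']
    have h3 := hDg Q hQns
    have h4 := hDg Q' (hsub hQ')
    have h5 : W.v Q * (K5' * (W.D Q + W.D Q')) ≤ W.v Q * (K5' * (2 * SD)) := by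
      gcongr
      linarith
    linarith
  have hSum : ∑ Q' ∈ adj Q, Fl W Q Q' ≤
      N3 * (W.v Q * (κ * K4' * W.ab Q) + W.v Q * (K5' * (2 * SD))) := by
    have h1 := Finset.sum_le_card_nsmul (adj Q) (fun Q' => Fl W Q Q') _ hF
    rw [adj_card, nsmul_eq_mul] at h1
    push_cast at h1
    exact h1
  have hTA3 : cA * W.sg Q - Ca * W.v Q * (4 * (κ * W.ab Q) + (Kb + 2) * SD) ≤
      ∫ y, W.m Q y * (chi y * Hn (W.be Q) W.X.ε W.X.p0 W.X.A (W.mu Q) (W.nv Q) 1 y) := by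
    refine le_trans ?_ hTAQ
    have h1 : cA * W.sg Q = cA * W.ab Q * plInt (W.nv Q) (W.sv Q) (fun x => chi x *
        XX (W.be Q) W.X.ε (W.mu Q) (W.nv Q) 1 x) := by
      unfold Wld.sg
      ring
    rw [h1]
    have h2 := mul_le_mul_of_nonneg_left hE (by positivity : 0 ≤ Ca * W.v Q)
    linarith
  have hTD3 : -(Cd * W.v Q * (4 * (κ * W.ab Q) + (Kb + 2) * SD)) ≤
      ∫ y, W.m Q y * dvT chi (W.be Q) W.X.ε W.X.p0 W.X.A (W.mu Q) (W.nv Q) y := by
    refine le_trans (neg_le_neg ?_) (neg_le_of_abs_le hTDQ)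
    exact mul_le_mul_of_nonneg_left hE (by positivity)
  unfold nt0
  have e1 : W.v Q * (κ * (4 * (Ca + Cd) + N3 * K4') * W.ab Q) =
      Ca * W.v Q * (4 * (κ * W.ab Q)) + Cd * W.v Q * (4 * (κ * W.ab Q)) +
        N3 * (W.v Q * (κ * K4' * W.ab Q)) := by ring
  have e2 : W.v Q * (((Ca + Cd) * (Kb + 2) + N3 * (2 * K5')) * SD) =
      Ca * W.v Q * ((Kb + 2) * SD) + Cd * W.v Q * ((Kb + 2) * SD) +
        N3 * (W.v Q * (K5' * (2 * SD))) := by ring
  rw [e1, e2]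
  linarith only [hSum, hTA3, hTD3]

end W2m

end

end TG


end

section

/-!
# Module W2: near cells of type A, the main local inequality (helper60)
-/

open MeasureTheory Metric Set TrI
open scoped InnerProductSpace ContDiff ENNReal

namespace TG

noncomputable section

namespace W2m

variable {d : ℕ}

/-- the gain in the ball d + 2 is at most the gain in the ball R0 -/
lemma gX_mono (hWA : StmtWA) (hFM : StmtFM) (hd : 2 ≤ d) {J JA : ℕ} {M c0 C' c R0 Rz : ℝ}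
    {X : Prm d} (hX : XOK J JA M c0 C' c R0 X) {E : Type} [NormedAddCommGroup E]
    [InnerProductSpace ℝ E] {W : Wld d E} (hW : WOK JA C' R0 Rz X W)
    (Q : Cell d) : gX W Q ≤ plInt (W.nv Q) (W.sv Q)
      (fun x => zR R0 x * XX (W.be Q) W.X.ε (W.mu Q) (W.nv Q) 1 x) := by
  have hp := hX.prm
  have hR := hX.R0_ge
  have hA := hp.A_ge
  have hd0 : (0 : ℝ) ≤ d := Nat.cast_nonneg _
  obtain ⟨C, hC, h⟩ := hWA d 0 hd M C' X.ε hX.C'_pos hp.ε_pos (by linarith only [hp.ε_le])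
  have hXe := hW.X_eq
  subst hXe
  obtain ⟨hgro, -⟩ := frame hFM hd hX.C'_pos hW.s0_pos hW.gro Q
  obtain ⟨-, -, -, -, h3⟩ := h (W.be Q) (PTm.kit_mono (by omega) (hX.ker.kit _)) (W.mu Q) hgro
  obtain ⟨h5, h4, -⟩ := h3 (W.nv Q) (hW.nu Q)
  have hc : Continuous (XX (W.be Q) W.X.ε (W.mu Q) (W.nv Q) 1) := h5.continuous
  have hi : ∀ r : ℝ, 0 < r → Integrable (fun y : PF.Pl (W.nv Q) =>
      (fun x => zR r x * XX (W.be Q) W.X.ε (W.mu Q) (W.nv Q) 1 x)
        (W.sv Q • W.nv Q + (y : Sp d))) := by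
    intro r hr
    have hcs : HasCompactSupport
        (fun x => zR r x * XX (W.be Q) W.X.ε (W.mu Q) (W.nv Q) 1 x) := (TU.zR_cs r).mul_right
    obtain ⟨ρ, hρ⟩ := PF.cs_tang (hW.nu Q) hcs
    exact PF.integrable_pl (hW.nu Q) ((TU.zR_smooth hr).continuous.mul hc) hρ _
  unfold gX plInt
  exact integral_mono (hi _ (by positivity)) (hi _ (by linarith)) fun y =>
    mul_le_mul_of_nonneg_right (zR_le (by linarith) _) (h4 _)

end W2m

open _root_.TG.W2m in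
/-- MODULE W2 -/
theorem stmtW2 (hTA1 : StmtTA1) (hTA2 : StmtTA2) (hTD1 : StmtTD1) (hTD2 : StmtTD2)
    (hTF : StmtTF) (hFG : StmtFG) (hP1 : StmtP1) (hP3 : StmtP3) (hP4 : StmtP4) (hW1 : StmtW1)
    (hNS : StmtNS) (hFM : StmtFM) (hUB : StmtUB) (hWA : StmtWA) : StmtW2 := by
  intro d J JA hd M c0 C' c R0 X hX
  have hp := hX.prm
  have hd' : (2 : ℝ) ≤ d := by exact_mod_cast hd
  have hR := hX.R0_ge
  have hAg := hp.A_ge
  obtain ⟨cA, hcA, hA1⟩ := caseA1 hTA1 hTD1 hTF hUB hP1 hW1 hNS hFM hd hX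
  obtain ⟨cB, hcB, hA2⟩ := caseA2 hTA2 hTD2 hTF hUB hP1 hW1 hNS hFM hWA hd hX
  obtain ⟨C4, i4, hC4, hi4, hP4'⟩ := hP4 d J JA hd M c0 C' c R0 X hX
  obtain ⟨C3, hC3, hP3'⟩ := hP3 d J JA hd M c0 C' c R0 X hX
  obtain ⟨iF, hiF, hFG'⟩ := hFG d hd M C' X.ε X.p0 X.A (32 * R0 + 4) hX.C'_pos hp.ε_pos hp.ε_le
    hp.p0_pos hp.p0_le hp.A_ge (by linarith only [hR, hAg])
  obtain ⟨Kb, hKb, hbn⟩ := bnds hd hX
  refine ⟨min cA cB, lt_min hcA hcB, fun η Kc hη hKc => ?_⟩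
  set θ : ℝ := η / (2 * C4) with hθ
  have hθ0 : 0 < θ := by positivity
  obtain ⟨I, i1', κ1, K1, Rz1, hIJ, hi1', hκ1, hK1, hA1'⟩ := hA1 θ Kc hθ0 hKc
  obtain ⟨κ0, K4, K5, Rz2, hκ0, hK4, hK5, hA2'⟩ := hA2 Kc hKc
  obtain ⟨κ4, CK4, Rz4, hκ4, hCK4, hP4''⟩ := hP4' Kc hKc
  set i1 : ℝ := min (min i1' i4) iF with hi1
  have hi10 : 0 < i1 := lt_min (lt_min hi1' hi4) hiF
  obtain ⟨κ3, CK3, Rz3, hκ3, hCK3, hP3''⟩ := hP3' i1 Kc hi10 hKc
  -- the constant κ
  set cm : ℝ := min cA cB with hcm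
  have hcm0 : 0 < cm := lt_min hcA hcB
  set κ5 : ℝ := η / ((K4 + cm) * (C3 / i1)) with hκ5
  have hκ50 : 0 < κ5 := by (clear * - hη hK4 hcA hcB hC3 hi1' hi4 hiF; positivity)
  set κ : ℝ := min (min (min κ1 κ0) (min κ4 κ3)) κ5 with hκ
  have hκpos : 0 < κ := lt_min (lt_min (lt_min hκ1 hκ0) (lt_min hκ4 hκ3)) hκ50
  have hk1 : κ ≤ κ1 := (min_le_left _ _).trans ((min_le_left _ _).trans (min_le_left _ _))
  have hk0 : κ ≤ κ0 := (min_le_left _ _).trans ((min_le_left _ _).trans (min_le_right _ _))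
  have hk4 : κ ≤ κ4 := (min_le_left _ _).trans ((min_le_right _ _).trans (min_le_left _ _))
  have hk3 : κ ≤ κ3 := (min_le_left _ _).trans ((min_le_right _ _).trans (min_le_right _ _))
  have hk5 : κ ≤ κ5 := min_le_right _ _
  refine ⟨κ, (2 * θ * CK4 + θ * Kb + K1 + cA * Kb) + ((K4 + cm) * κ * CK3 + K5 + cm * Kb),
    max (max (64 * R0 + 1) (max Rz1 Rz2)) (max Rz3 Rz4), hκpos, by (clear * - hη hC4 hCK4 hKb hK1 hcA hK4 hcB hκ1 hκ0 hκ4 hκ3 hC3 hi1' hi4 hiF hCK3 hK5; positivity), ?_⟩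
  intro E _ _ _ W hW Q _ hN hA
  have hWa := WOK_mono hW ((le_max_left (64 * R0 + 1) (max Rz1 Rz2)).trans (le_max_left _ _))
  have hWz1 := WOK_mono hW (((le_max_left Rz1 Rz2).trans (le_max_right (64 * R0 + 1) _)).trans
    (le_max_left _ _))
  have hWz2 := WOK_mono hW (((le_max_right Rz1 Rz2).trans (le_max_right (64 * R0 + 1) _)).trans
    (le_max_left _ _))
  have hWz3 := WOK_mono hW ((le_max_left Rz3 Rz4).trans (le_max_right _ _))
  have hWz4 := WOK_mono hW ((le_max_right Rz3 Rz4).trans (le_max_right _ _))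
  have hsv := hA.1
  have hSh := hA.2.1
  have hsub := adj_ns hNS hd (R0 := R0) (by linarith) JA W hW.s0_pos Q
  have hQns : Q ∈ W.ns R0 JA Q := hsub (self_adj Q)
  have hkd : W.kd Q = 0 := (hA.2.2 Q hQns).1
  obtain ⟨hb1, hb2, hb3, hb4⟩ := hbn E W _ κ le_rfl hWa Q hSh hsv
  have hv0 : 0 ≤ W.v Q := v_nonneg W Q
  have hw := w_pos hW Q
  have hwv : 0 ≤ W.w Q * W.v Q := mul_nonneg hw.le hv0
  have hab := hSh.sh.ab0
  have her := hSh.sh.ep0
  have hD0 := hW.D0 Q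
  have hdl0 := hSh.dl0
  have hsm := hSh.small
  have hSV := sV_nonneg hX hWa Q
  have hsg := sg_nonneg hX hWa Q
  set SV := W.sV R0 JA Q with hSVd
  set SE := W.sE R0 JA Q with hSEd
  set SD := W.sD R0 JA Q with hSDd
  have hSD : W.D Q ≤ SD := sD_ge hW hQns
  have hSE : W.er Q ^ 2 / W.ab Q + W.dl Q ≤ SE := sE_ge hA hQns hN hQns
  have hSE0 : 0 ≤ SE := by
    have : 0 ≤ W.er Q ^ 2 / W.ab Q + W.dl Q := by (clear * - hab hdl0; positivity)
    linarith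
  have hSD0 : 0 ≤ SD := hD0.trans hSD
  set mz := ∫ y, W.m Q y * (chi y * hgt (W.nv Q) (W.sv Q) y ^ 2) with hmz
  have hblmz : W.bl Q = W.v Q * mz := rfl
  have hval : W.val Q = W.sg Q + max 0 (W.bl Q) := by
    unfold Wld.val
    rw [if_pos ⟨hN, hkd⟩]
  rw [hval, nt1_eq hkd]
  have hcmA : cm ≤ cA := min_le_left _ _
  have hcmB : cm ≤ cB := min_le_right _ _
  -- a common form of the error
  have hwvD : W.w Q * W.v Q * W.D Q ≤ W.w Q * W.v Q * (SE + SD) :=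
    mul_le_mul_of_nonneg_left (by linarith) hwv
  have hwvSD : W.w Q * W.v Q * SD ≤ W.w Q * W.v Q * (SE + SD) :=
    mul_le_mul_of_nonneg_left (by linarith only [hSE0]) hwv
  have hT0 : 0 ≤ W.w Q * W.v Q * (SE + SD) := mul_nonneg hwv (by linarith only [hD0, hSD, hSE0])
  by_cases hcase : |W.sv Q| ≤ 3 / 2 * R0 ∧ ∀ i ≤ I, plInt (W.nv Q) (W.sv Q)
        (fun x => zR (2 * R0 - 1) x * XX (W.bi Q i) W.X.ε (W.mu Q) (W.nv Q) (2 ^ i) x) ≤
          i1 * W.v Q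
  · -- case A1
    obtain ⟨hs, hgain⟩ := hcase
    have h1 := hA1' E W hWz1 Q hN (Ash_mono hA hk1) hs (fun i hi => (hgain i hi).trans
      (mul_le_mul_of_nonneg_right ((min_le_left _ _).trans (min_le_left _ _)) hv0))
    obtain ⟨h2, h3⟩ := hP4'' E W hWz4 Q (Ash_mono hA hk4)
    have h3' := h3 (by
      have h4 := hgain 0 (Nat.zero_le _)
      rw [pow_zero, show W.bi Q 0 = W.be Q from rfl] at h4
      exact h4.trans (mul_le_mul_of_nonneg_right ((min_le_left _ _).trans (min_le_right _ _)) hv0))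
    have h5 := gX_mono hWA hFM hd hX hW Q
    have h6 : W.w Q * (W.ab Q * gX W Q) ≤ C4 * SV + CK4 * (W.w Q * W.v Q) * (SE + SD) := by
      refine le_trans ?_ h3'
      gcongr
    have h7 : W.w Q * (W.v Q * |blc (W.nv Q) (W.sv Q) (W.m Q) (d + 1)|) ≤
        C4 * SV + CK4 * (W.w Q * W.v Q) * (SE + SD) + Kb * (W.w Q * W.v Q * (SE + SD)) := by
      have e1 : W.w Q * (W.v Q * |blc (W.nv Q) (W.sv Q) (W.m Q) (d + 1)|) ≤
          W.w Q * (W.v Q * (max 0 (blc (W.nv Q) (W.sv Q) (W.m Q) (R0 + 4)) + Kb * W.D Q)) := by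
        gcongr
      have e2 : Kb * (W.w Q * W.v Q * W.D Q) ≤ Kb * (W.w Q * W.v Q * (SE + SD)) :=
        mul_le_mul_of_nonneg_left hwvD hKb.le
      linarith only [h2, e1, e2]
    have h8 : cm * (W.sg Q + max 0 (W.bl Q)) ≤ cA * (W.sg Q + W.bl Q) +
        cA * (Kb * (W.v Q * W.D Q)) := by
      have e1 : max 0 (W.bl Q) ≤ W.bl Q + Kb * (W.v Q * W.D Q) := by
        have e2 : -(Kb * W.D Q) * W.v Q ≤ mz * W.v Q := mul_le_mul_of_nonneg_right hb3 hv0
        have e3 : 0 ≤ Kb * (W.v Q * W.D Q) := by (clear * - hKb hv0 hD0; positivity)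
        refine max_le ?_ ?_
        · rw [hblmz]; linarith only [e2]
        · linarith only [e3]
      have e4 : 0 ≤ W.sg Q + max 0 (W.bl Q) := add_nonneg hsg (le_max_left _ _)
      calc cm * (W.sg Q + max 0 (W.bl Q)) ≤ cA * (W.sg Q + max 0 (W.bl Q)) :=
            mul_le_mul_of_nonneg_right hcmA e4
        _ ≤ cA * (W.sg Q + (W.bl Q + Kb * (W.v Q * W.D Q))) :=
            mul_le_mul_of_nonneg_left (by linarith only [e1]) hcA.le
        _ = _ := by ring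
    have h9 : W.w Q * (cm * (W.sg Q + max 0 (W.bl Q))) ≤
        W.w Q * (nt0 W Q + θ * (W.ab Q * gX W Q) +
        θ * (W.v Q * |blc (W.nv Q) (W.sv Q) (W.m Q) (d + 1)|) +
        K1 * (W.v Q * (SE + SD)) + cA * (Kb * (W.v Q * W.D Q))) :=
      mul_le_mul_of_nonneg_left (by linarith only [h1, h8]) hw.le
    have t1 := mul_le_mul_of_nonneg_left h6 hθ0.le
    have t2 := mul_le_mul_of_nonneg_left h7 hθ0.le
    have t3 : cA * Kb * (W.w Q * W.v Q * W.D Q) ≤ cA * Kb * (W.w Q * W.v Q * (SE + SD)) :=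
      mul_le_mul_of_nonneg_left hwvD (by positivity)
    have t4 : θ * (C4 * SV) + θ * (C4 * SV) = η * SV := by rw [hθ]; field_simp; ring
    have t5 : 0 ≤ ((K4 + cm) * κ * CK3 + K5 + cm * Kb) * (W.w Q * W.v Q * (SE + SD)) := by
      (clear * - hK4 hcA hcB hκ1 hκ0 hκ4 hκ3 hη hC3 hi1' hi4 hiF hCK3 hK5 hKb hw hv0 hSE0 hSD0; positivity)
    have t6 : ((2 * θ * CK4 + θ * Kb + K1 + cA * Kb) + ((K4 + cm) * κ * CK3 + K5 + cm * Kb)) *
        (W.w Q * W.v Q) * (SE + SD) = 2 * (θ * (CK4 * (W.w Q * W.v Q) * (SE + SD))) +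
        θ * (Kb * (W.w Q * W.v Q * (SE + SD))) + K1 * (W.w Q * W.v Q * (SE + SD)) +
        cA * Kb * (W.w Q * W.v Q * (SE + SD)) +
        ((K4 + cm) * κ * CK3 + K5 + cm * Kb) * (W.w Q * W.v Q * (SE + SD)) := by ring
    rw [t6]
    linarith only [h9, t1, t2, t3, t4, t5]
  · -- case A2: a large gain at some scale
    have hbig : W.w Q * W.v Q * W.ab Q ≤ C3 / i1 * SV + CK3 * (W.w Q * W.v Q) * SD := by
      by_cases hs : |W.sv Q| ≤ 3 / 2 * R0
      · have h1 : ∃ i ≤ I, i1 * W.v Q < plInt (W.nv Q) (W.sv Q)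
            (fun x => zR (2 * R0 - 1) x * XX (W.bi Q i) W.X.ε (W.mu Q) (W.nv Q) (2 ^ i) x) := by
          by_contra h2
          push Not at h2
          exact hcase ⟨hs, h2⟩
        obtain ⟨i, hi, h2⟩ := h1
        refine hP3'' E W hWz3 Q (Ash_mono hA hk3) i (2 * R0 - 1) (hi.trans hIJ) (by linarith only [hR, hAg]) ?_
          h2.le
        have h3 : (1 : ℝ) ≤ 2 ^ i := one_le_pow₀ (by norm_num)
        nlinarith only [hR, hAg, h3]
      · have hXe := hW.X_eq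
        push Not at hs
        obtain ⟨y, hy1, hy2⟩ := hN
        obtain ⟨hgro, hv⟩ := frame hFM hd hX.C'_pos hW.s0_pos hW.gro Q
        have hvQ : W.v Q = vv (W.mu Q) 1 0 := hv.symm
        have h1 := hFG' (W.bi Q 7) (by
          unfold Wld.bi
          rw [hXe]
          exact PTm.kit_mono (by omega) (hX.ker.kit _)) (W.mu Q) hgro (W.nv Q) (W.sv Q) (hW.nu Q)
          (by linarith only [hR, hAg, hs]) hsv ⟨y, by
            by_contra h2
            push Not at h2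
            exact hy1 (PTm.chi_supp h2.le (by omega)), by rw [← hXe]; exact hy2⟩
        refine hP3'' E W hWz3 Q (Ash_mono hA hk3) 7 (32 * R0 + 4 + 1) hX.JA_7 (by linarith only [hR, hAg]) ?_ ?_
        · norm_num
          linarith only [hR, hAg]
        · rw [← hvQ, ← hXe] at h1
          exact (mul_le_mul_of_nonneg_right (min_le_right _ _) hv0).trans h1
    have h1 := hA2' κ hκpos hk0 E W hWz2 Q hA
    have h2 : cm * (W.sg Q + max 0 (W.bl Q)) ≤ cB * W.sg Q + cm * κ * (W.v Q * W.ab Q) +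
        cm * Kb * (W.v Q * W.D Q) := by
      have e1 : max 0 (W.bl Q) ≤ W.v Q * (κ * W.ab Q + Kb * W.D Q) := by
        refine max_le (by (clear * - hv0 hκ1 hκ0 hκ4 hκ3 hη hK4 hcA hcB hC3 hi1' hi4 hiF hab hKb hD0; positivity)) ?_
        rw [hblmz]
        exact mul_le_mul_of_nonneg_left (by linarith) hv0
      calc cm * (W.sg Q + max 0 (W.bl Q)) = cm * W.sg Q + cm * max 0 (W.bl Q) := by ring
        _ ≤ cB * W.sg Q + cm * (W.v Q * (κ * W.ab Q + Kb * W.D Q)) :=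
            add_le_add (mul_le_mul_of_nonneg_right hcmB hsg)
              (mul_le_mul_of_nonneg_left e1 hcm0.le)
        _ = _ := by ring
    have h3 : W.w Q * (cm * (W.sg Q + max 0 (W.bl Q))) ≤
        W.w Q * (nt0 W Q + W.v Q * (κ * K4 * W.ab Q) + W.v Q * (K5 * SD) +
          cm * κ * (W.v Q * W.ab Q) + cm * Kb * (W.v Q * W.D Q)) :=
      mul_le_mul_of_nonneg_left (by linarith) hw.le
    have h4 : (K4 + cm) * κ * (W.w Q * W.v Q * W.ab Q) ≤
        (K4 + cm) * κ * (C3 / i1 * SV + CK3 * (W.w Q * W.v Q) * SD) :=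
      mul_le_mul_of_nonneg_left hbig (by (clear * - hK4 hcA hcB hκ1 hκ0 hκ4 hκ3 hη hC3 hi1' hi4 hiF; positivity))
    have h5 : (K4 + cm) * κ * (C3 / i1 * SV) ≤ η * SV := by
      have e1 : (K4 + cm) * κ * (C3 / i1) ≤ η := by
        calc (K4 + cm) * κ * (C3 / i1) ≤ (K4 + cm) * κ5 * (C3 / i1) := by (clear * - hk5 hK4 hcA hcB hC3 hi1' hi4 hiF; gcongr)
          _ = η := by rw [hκ5]; field_simp
      calc (K4 + cm) * κ * (C3 / i1 * SV) = (K4 + cm) * κ * (C3 / i1) * SV := by ring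
        _ ≤ _ := mul_le_mul_of_nonneg_right e1 hSV
    have h6 : (K4 + cm) * κ * (CK3 * (W.w Q * W.v Q * SD)) ≤
        (K4 + cm) * κ * (CK3 * (W.w Q * W.v Q * (SE + SD))) := by gcongr
    have h7 : K5 * (W.w Q * W.v Q * SD) ≤ K5 * (W.w Q * W.v Q * (SE + SD)) :=
      mul_le_mul_of_nonneg_left hwvSD hK5.le
    have h8 : cm * Kb * (W.w Q * W.v Q * W.D Q) ≤ cm * Kb * (W.w Q * W.v Q * (SE + SD)) :=
      mul_le_mul_of_nonneg_left hwvD (by positivity)
    have t5 : 0 ≤ (2 * θ * CK4 + θ * Kb + K1 + cA * Kb) * (W.w Q * W.v Q * (SE + SD)) := by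
      (clear * - hη hC4 hCK4 hKb hK1 hcA hw hv0 hSE0 hSD0; positivity)
    have t6 : ((2 * θ * CK4 + θ * Kb + K1 + cA * Kb) + ((K4 + cm) * κ * CK3 + K5 + cm * Kb)) *
        (W.w Q * W.v Q) * (SE + SD) =
        (2 * θ * CK4 + θ * Kb + K1 + cA * Kb) * (W.w Q * W.v Q * (SE + SD)) +
        (K4 + cm) * κ * (CK3 * (W.w Q * W.v Q * (SE + SD))) + K5 * (W.w Q * W.v Q * (SE + SD)) +
        cm * Kb * (W.w Q * W.v Q * (SE + SD)) := by ring
    rw [t6]
    linarith only [h3, h4, h5, h6, h7, h8, t5]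

end

end TG


end
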