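import Mathlib
import Pool.Agent.TRM.C02
import Pool.Agent.TRM.C10
import Pool.Agent.TRM.C15
import Pool.Agent.TRM.C17
import Pool.Agent.TRM.C20
import Pool.Agent.TRM.C25
import Pool.Agent.TRM.C26
import Pool.Agent.TRM.C27
import Pool.Agent.TRM.C29

/-! Parts: TG.CM, TG.FHa, TG.FHb, TG.FH, TG.LW, TG.LWc, TG.SHB, TG.WDa, TG.MonoW, TG.WD -/

section

/-!
# Trace inequality, module CM: separately minimised planes against a common plane
-/

set_option autoImplicit false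

open MeasureTheory Metric Set TrI
open scoped InnerProductSpace ContDiff

namespace TG

theorem stmtCM (hNS : TrI.StmtNS) (hSHB : StmtSHB) (hPL : StmtPL) (hSM : StmtSM)
    (hJC : StmtJC) (hZ : StmtZ) (hMA : StmtMA) (hTW : StmtTW) (hSC : StmtSC) (hSD : StmtSD) :
    StmtCM :=
  CM.stmtCM_of_frames hSC hSD fun _ _ _ _ _ _ _ _ _ _ hd hL _ _ _ hε hε1 _ hb _ _ _ hR0 hγ hγ1
    hK => CM.frameCM hNS hSHB hPL hSM hJC hZ hMA hTW hSC hSD hd hL hε hε1 hb hR0 hγ hγ1 hK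

end TG


end

section

/-!
# Module FH, first part: the fields T, oml, omp, v, TG of FinH  (helper98)
-/

open MeasureTheory Metric Set TrI
open scoped InnerProductSpace ContDiff ENNReal

namespace TG

namespace FHam

noncomputable section

variable {d : ℕ}

theorem partA (h1 : StmtCT1) (h2 : StmtCT2) (h3 : StmtCT3) (h7 : StmtCT7) (hd : 2 ≤ d) :
    ∃ Rt : ℝ, 1 ≤ Rt ∧ ∀ (M c0 ε : ℝ), 0 < ε → ε ≤ 1 → ∀ (b : Sp d → ℝ), BaseKer 2 M c0 b →
    ∀ (C' R0 ρ : ℝ), 0 < C' → 400 + 8 * d ≤ R0 → 8 * Rt ≤ R0 → 3 * d ≤ ρ →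
    ∃ C0 : ℝ, 1 ≤ C0 ∧ ∀ R : ℝ, 200 * R0 ≤ R → ∃ Λ : ℝ, 1 ≤ Λ ∧
    ∀ (E : Type) [NormedAddCommGroup E] [InnerProductSpace ℝ E] [FiniteDimensional ℝ E]
      [Nontrivial E] (f : Sp d → E), Continuous f → HasCompactSupport f →
    ∀ μ : Measure (Sp d), Gro C' μ → ∀ s0 : ℝ, 0 < s0 →
    ∀ e : Cell d → E, Dirs b ε R s0 f e → ∀ Cb : ℝ, C0 ≤ Cb →
      TreeH Cb s0 (Λ * ∫ y, ‖f y‖) (mC b ε (64 * R0) s0 f) (mT b ε s0 f) (dC b ε R s0 f e)
        (oC μ ρ s0) (oC μ (ρ + Real.sqrt d) s0) (gC b ε (128 * R0) s0 f) ∧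
      (∀ Q, oC μ ρ s0 Q ≤ Cb) ∧
      (∀ Q, oC μ ρ s0 Q ≤ oC μ (ρ + Real.sqrt d) s0 Q) ∧
      (∀ Q, omC μ s0 Q ≤ Cb) ∧
      (∀ Q, oC μ (ρ + Real.sqrt d) s0 Q ≤ Cb * omC μ s0 Q) ∧
      (∀ Q, oC μ (ρ + Real.sqrt d) s0 Q ≤ Cb * oC μ ρ s0 (up 9 Q)) ∧
      (∀ Q, 0 ≤ tG b ε s0 f Q) ∧
      cs univ (fun P => cw s0 P * tG b ε s0 f P) ≤ ENNReal.ofReal (Cb * (Λ * ∫ y, ‖f y‖)) ∧
      ∀ γ : ℝ, γ ≤ 1 → ∀ P,
        (∀ l : ℕ, mT b ε s0 f (up l P) ≤ (2 : ℝ) ^ (γ * l) * mT b ε s0 f P) →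
        mT b ε s0 f P ≤ Cb * (mC b ε (32 * R0) s0 f P + tG b ε s0 f P) := by
  have hd1 : 1 ≤ d := by omega
  have hdR : (2 : ℝ) ≤ d := by exact_mod_cast hd
  obtain ⟨Rt, hRt, g3⟩ := h3 d hd1
  refine ⟨Rt, hRt, ?_⟩
  intro M c0 ε hε hε1 b hb C' R0 ρ hC' hR0 hRt0 hρ
  obtain ⟨C3, hC3, g3⟩ := g3 M c0 ε hε hε1 b hb
  obtain ⟨C1, hC1, g1⟩ := h1 d hd1 M c0 ε C' (64 * R0) ρ hε hε1 hC' (by linarith) hρ b hb 9
    (by norm_num)
  obtain ⟨C7, hC7, g7⟩ := h7 d hd C' 1 1 0 hC' one_pos le_rfl le_rfl le_rfl 0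
  set S := Real.sqrt (C7 * (ρ + Real.sqrt d) ^ (d + 1)) with hS
  have hS0 : 0 ≤ S := Real.sqrt_nonneg _
  have hsd := Real.sqrt_nonneg (d : ℝ)
  refine ⟨C1 + C3 + C7 + S + 2, by linarith, ?_⟩
  intro R hR
  obtain ⟨C2, hC2, g2⟩ := h2 d hd1 M c0 ε R hε hε1 (by linarith) b hb
  refine ⟨max 1 C2, le_max_left _ _, ?_⟩
  intro E _ _ _ _ f hf hc μ hμ s0 h e he Cb hCb
  obtain ⟨a1, a2, a3, a4, a5, a6, a7⟩ := g1 E f hf hc μ hμ s0 h
  obtain ⟨b1, -, b3⟩ := g2 E f hf hc s0 h e he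
  obtain ⟨c1, c2, c3⟩ := g3 E f hf hc s0 h
  obtain ⟨e1, e2, -, -⟩ := g7 μ hμ s0 h
  have hI : 0 ≤ ∫ y, ‖f y‖ := integral_nonneg fun y => norm_nonneg _
  have hΛ : 1 ≤ max 1 C2 := le_max_left _ _
  have hIΛ : ∫ y, ‖f y‖ ≤ max 1 C2 * ∫ y, ‖f y‖ := le_mul_of_one_le_left hI hΛ
  have hI2 : C2 * ∫ y, ‖f y‖ ≤ max 1 C2 * ∫ y, ‖f y‖ :=
    mul_le_mul_of_nonneg_right (le_max_right _ _) hI
  have hb1 : C1 ≤ Cb := by linarith
  have hb3 : C3 ≤ Cb := by linarith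
  have hb7 : C7 ≤ Cb := by linarith
  have hbS : S ≤ Cb := by linarith
  have hb0 : 1 ≤ Cb := by linarith
  have h128 : 2 * (64 * R0) = 128 * R0 := by ring
  rw [h128] at a2 a4 a7
  have hcw : ∀ Q : Cell d, 0 ≤ cw s0 Q := fun Q => (cw_pos h Q).le
  have hmC : ∀ Q, 0 ≤ mC b ε (32 * R0) s0 f Q := fun Q => by
    simp only [mC, ma]
    have := FR.lev_pos h Q.1
    exact mul_nonneg (by positivity) (integral_nonneg fun y => norm_nonneg _)
  refine ⟨?_, fun Q => (a3 Q).2.1.trans ((a3 Q).2.2.1.trans hb1), fun Q => (a3 Q).2.1,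
    fun Q => (e1 Q).2.1.trans hb7, ?_, ?_, c1, ?_, ?_⟩
  · constructor
    case C0_one => exact hb0
    case s0_pos => exact h
    case tot_nonneg => positivity
    case a_nonneg => exact fun Q => (a1 Q).1
    case at_nonneg => exact fun Q => (a1 Q).2.1
    case D_nonneg => exact b1
    case oml_nonneg => exact fun Q => (a3 Q).1
    case omp_nonneg => exact fun Q => (a3 Q).1.trans (a3 Q).2.1
    case G_nonneg => exact a2
    case omp_le => exact fun Q => (a3 Q).2.2.1.trans hb1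
    case a_le => exact fun Q => (a1 Q).2.2.trans (mul_le_mul_of_nonneg_right hb1 (a1 Q).2.1)
    case T1 =>
      intro i P hi
      refine (a4 i P hi).trans (mul_le_mul_of_nonneg_right hb1 ?_)
      exact add_nonneg (mul_nonneg (hcw P) (a1 P).2.1) (a2 i P)
    case T2 =>
      intro i P hi
      refine (a5 i P hi).trans (mul_le_mul_of_nonneg_right hb1 ?_)
      exact mul_nonneg (hcw P) (sq_nonneg _)
    case T3 =>
      intro i P hi
      exact (a6 i P hi).trans (mul_le_mul_of_nonneg_right hb1 (hcw P))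
    case G_sum =>
      intro i
      refine (a7 i).trans (ENNReal.ofReal_le_ofReal ?_)
      have hi : (0 : ℝ) ≤ (i : ℝ) + 1 := by positivity
      exact mul_le_mul (mul_le_mul_of_nonneg_right hb1 hi) hIΛ hI (by positivity)
    case D_sum =>
      refine b3.trans (ENNReal.ofReal_le_ofReal (hI2.trans ?_))
      exact le_mul_of_one_le_left (by positivity) hb0
  · intro Q
    have h5 := e2 Q (ρ + Real.sqrt d) (by linarith)
    have h6 : oC μ (ρ + Real.sqrt d) s0 Q ≤ S * omC μ s0 Q := by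
      refine Real.le_sqrt_of_sq_le h5 |>.trans ?_
      rw [Real.sqrt_mul' _ (sq_nonneg _), Real.sqrt_sq (e1 Q).1.le]
    exact h6.trans (mul_le_mul_of_nonneg_right hbS (e1 Q).1.le)
  · intro Q
    exact (a3 Q).2.2.2.trans (mul_le_mul_of_nonneg_right hb1 (a3 _).1)
  · refine c2.trans (ENNReal.ofReal_le_ofReal ?_)
    exact mul_le_mul hb3 hIΛ hI (by linarith)
  · intro γ hγ P hP
    have h5 := c3 γ hγ P hP
    have h6 := FR4.mC_mono hb ε hf hc h (by linarith : Rt ≤ 32 * R0) P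
    have h7 := hmC P
    have h8 := c1 P
    linarith only [h5, h6, mul_nonneg (by linarith : 0 ≤ Cb - 2) h7, mul_nonneg (by linarith : 0 ≤ Cb - C3) h8]

end

end FHam

end TG


end

section

/-!
# Module FH, second part: the fields al, ah, b of FinH  (helper98)
-/

open MeasureTheory Metric Set TrI
open scoped InnerProductSpace ContDiff ENNReal

namespace TG

namespace FHbm

noncomputable section

variable {d : ℕ}

theorem partB (h4 : StmtCT4) (h5 : StmtCT5) (hd : 2 ≤ d) :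
    ∀ (M c0 ε : ℝ), 0 < ε → ε ≤ 1 → ∀ (b : Sp d → ℝ), BaseKer 2 M c0 b →
    ∀ R0 : ℝ, 400 + 8 * d ≤ R0 →
    ∃ C0 : ℝ, 1 ≤ C0 ∧ ∀ R : ℝ, 200 * R0 ≤ R →
    ∀ (E : Type) [NormedAddCommGroup E] [InnerProductSpace ℝ E] [FiniteDimensional ℝ E]
      [Nontrivial E] (f : Sp d → E), Continuous f → HasCompactSupport f →
    ∀ μ : Measure (Sp d), ∀ s0 : ℝ, 0 < s0 →
    ∀ e : Cell d → E, Dirs b ε R s0 f e → ∀ (ν : Cell d → Sp d) (c : Cell d → ℝ),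
      Plns R0 s0 f e ν c → ∀ Cb : ℝ, C0 ≤ Cb →
      (∀ Q, 0 ≤ mC b ε (R0 + 3) s0 f Q) ∧
      (∀ Q, mC b ε (R0 + 3) s0 f Q ≤ mC b ε (32 * R0) s0 f Q) ∧
      (∀ Q, bC R0 s0 f e ν c Q ≤ Cb * (mC b ε (R0 + 3) s0 f Q + dC b ε R s0 f e Q)) ∧
      (∀ Q, bC R0 s0 f e ν c Q ≤ Cb * (mT b ε s0 f Q + dC b ε R s0 f e Q)) ∧
      (∀ Q, bC R0 s0 f e ν c Q ≤ Cb * (bC R0 s0 f e ν c (up 9 Q) + dC b ε R s0 f e Q +
        dC b ε R s0 f e (up 9 Q))) ∧
      (∀ Q, mC b ε (32 * R0) s0 f Q ≤ Cb * (mC b ε (32 * R0) s0 f (up 9 Q) +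
        dC b ε R s0 f e (up 9 Q))) ∧
      (∀ Q, 0 ≤ YC b ε s0 f μ ν c Q) := by
  intro M c0 ε hε hε1 b hb R0 hR0
  have hd1 : 1 ≤ d := by omega
  have hdR : (2 : ℝ) ≤ d := by exact_mod_cast hd
  have hsd : Real.sqrt d ≤ d := by
    rw [Real.sqrt_le_left (by linarith)]
    nlinarith
  have hsd0 := Real.sqrt_nonneg (d : ℝ)
  obtain ⟨C4, hC4, g4⟩ := h4 d hd1 0 le_rfl
  obtain ⟨C5, hC5, g5⟩ := h5 d hd1 M c0 ε hε hε1 b hb R0 9 (by linarith)
  set C6 := (1 + (R0 + 3)) ^ (d + 2) with hC6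
  have hC61 : 1 ≤ C6 := one_le_pow₀ (by linarith)
  refine ⟨C5 * C6 + 1, by nlinarith, ?_⟩
  intro R hR E _ _ _ _ f hf hc μ s0 h e he ν c hν Cb hCb
  obtain ⟨a1, a2, -, -⟩ := g4 M c0 ε hε hε1 b hb E f hf hc s0 h
  obtain ⟨b1, -, b3, b4, -⟩ := g5 E R (by linarith) f hf hc s0 h e he ν c hν
  have hC56 : C5 ≤ C5 * C6 := by nlinarith
  have hCb5 : C5 ≤ Cb := by linarith
  have hCb0 : 0 ≤ Cb := by linarith
  have hmC : ∀ (ρ : ℝ) Q, 0 ≤ mC b ε ρ s0 f Q := fun ρ Q => by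
    simp only [mC, ma]
    have := FR.lev_pos h Q.1
    exact mul_nonneg (by positivity) (integral_nonneg fun y => norm_nonneg _)
  have hmT : ∀ Q, 0 ≤ mT b ε s0 f Q := fun Q => by
    have h1 := a1 0 le_rfl Q
    have h2 := hmC 0 Q
    simp only [add_zero, one_pow, one_mul] at h1
    linarith
  have hx : ∀ Q : Cell d, ‖xC s0 (up 9 Q) - xC s0 Q‖ ≤
      Real.sqrt d * ((2 ^ 9 - 1) * lev s0 Q.1) := fun Q => FR.xC_up' h 9 Q
  have hlev : ∀ Q : Cell d, lev s0 (up 9 Q).1 = 2 ^ 9 * lev s0 Q.1 := fun Q => by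
    rw [FR.up_fst, FR.lev_add]
  refine ⟨hmC _, fun Q => FR4.mC_mono hb ε hf hc h (by linarith) Q, ?_, ?_, ?_, ?_, ?_⟩
  · intro Q
    obtain ⟨h1, h2, h3⟩ := b1 Q
    exact h3.trans (mul_le_mul_of_nonneg_right hCb5 (add_nonneg (hmC _ Q) h1))
  · intro Q
    obtain ⟨h1, h2, h3⟩ := b1 Q
    have h4 := a1 (R0 + 3) (by linarith) Q
    have h5 : mC b ε (R0 + 3) s0 f Q + dC b ε R s0 f e Q ≤
        C6 * (mT b ε s0 f Q + dC b ε R s0 f e Q) := by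
      have : dC b ε R s0 f e Q ≤ C6 * dC b ε R s0 f e Q := le_mul_of_one_le_left h1 hC61
      rw [mul_add]
      exact add_le_add h4 this
    have h6 := mul_le_mul_of_nonneg_left h5 hC5.le
    refine h3.trans (h6.trans ?_)
    rw [← mul_assoc]
    exact mul_le_mul_of_nonneg_right (by linarith) (add_nonneg (hmT Q) h1)
  · intro Q
    have hl := FR.lev_pos h Q.1
    have h1 := b3 Q (up 9 Q) rfl (by
      refine (hx Q).trans ?_
      rw [hlev]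
      have h2 : Real.sqrt d * (2 ^ 9 - 1) ≤ R0 * 2 ^ 9 - (R0 + 1) := by
        norm_num
        nlinarith
      have h3 := mul_le_mul_of_nonneg_right h2 hl.le
      linarith)
    have h2 := (b1 Q).1
    have h3 := (b1 (up 9 Q)).1
    have h4 := (b1 (up 9 Q)).2.1
    exact h1.trans (mul_le_mul_of_nonneg_right hCb5 (by linarith))
  · intro Q
    have hl := FR.lev_pos h Q.1
    have h1 := b4 Q (up 9 Q) rfl (32 * R0) (32 * R0) (by linarith) (by linarith) (by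
      have h2 := hx Q
      rw [hlev]
      have h3 : 32 * R0 + Real.sqrt d * (2 ^ 9 - 1) + 2 ^ 9 ≤ 32 * R0 * 2 ^ 9 := by
        norm_num
        nlinarith
      have h4 := mul_le_mul_of_nonneg_right h3 hl.le
      linarith)
    exact h1.trans (mul_le_mul_of_nonneg_right hCb5
      (add_nonneg (hmC _ _) (b1 (up 9 Q)).1))
  · intro Q
    unfold YC Mo
    refine mul_nonneg (hmT Q) (div_nonneg (integral_nonneg fun η => ?_) (Real.sqrt_nonneg _))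
    have hk : 0 ≤ kk 1 (0 - η) := by unfold kk; positivity
    exact mul_nonneg (div_nonneg (by positivity) (by positivity)) hk

end

end FHbm

end TG


end

section

/-!
# MODULE FH: the facts FinH for the concrete functions  (helper98)
-/

open MeasureTheory Metric Set TrI
open scoped InnerProductSpace ContDiff ENNReal

namespace TG

noncomputable section

theorem stmtFH (h1 : StmtCT1) (h2 : StmtCT2) (h3 : StmtCT3) (h4 : StmtCT4) (h5 : StmtCT5)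
    (h7 : StmtCT7) (hRB : StmtRB) (hWH : StmtWH) (hLS : StmtLS) (hFF : StmtFF) : StmtFH := by
  intro d hd
  have hd1 : 1 ≤ d := by omega
  have hdR : (2 : ℝ) ≤ d := by exact_mod_cast hd
  obtain ⟨Rt, hRt, gA⟩ := FHam.partA h1 h2 h3 h7 hd
  refine ⟨Rt, hRt, ?_⟩
  intro M c0 ε hε hε1 b hb C' p0 A R0 ρ JA hC' hp0 hp1 hA hR0 hRt0 hρ
  have hR0' : 400 + 8 * (d : ℝ) ≤ R0 := by linarith
  obtain ⟨CA, hCA, gA⟩ := gA M c0 ε hε hε1 b hb C' R0 ρ hC' hR0' hRt0 (by linarith)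
  obtain ⟨CB, hCB, gB⟩ := FHbm.partB h4 h5 hd M c0 ε hε hε1 b hb R0 hR0'
  obtain ⟨CL, hCL, gL⟩ := hLS d hd1 M c0 ε (64 * R0) hε hε1 (by linarith) b hb
  obtain ⟨C1R, hC1R, gR⟩ := hRB d hd M c0 ε hε hε1 b hb R0 (JA + 9) hR0'
  obtain ⟨Cu, Nb, ρb, hCu, gW⟩ := hWH d hd C' p0 A R0 ρ JA hC' hp0 hp1 hA (by linarith)
    (by linarith)
  refine ⟨CA + CB + CL, Cu, C1R, CA + CB + CL, Nb, ρb, by linarith, hCu, hC1R, by linarith, ?_⟩
  intro R hR
  obtain ⟨Λ, hΛ, gA⟩ := gA R hR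
  refine ⟨Λ, hΛ, ?_⟩
  intro E _ _ _ _ f hf hc μ hμ s0 h e he ν c hν γ hγ hγ1
  set Cb := CA + CB + CL with hCb
  obtain ⟨a1, a2, a3, a4, a5, a6, a7, a8, a9⟩ := gA E f hf hc μ hμ s0 h e he Cb (by linarith)
  obtain ⟨b1, b2, b3, b4, b5, b6, b7⟩ := gB R hR E f hf hc μ s0 h e he ν c hν Cb (by linarith)
  obtain ⟨w1, w2, w3⟩ := gW μ hμ s0 h
  obtain ⟨f1, -⟩ := hFF d hd C' hC' μ hμ M c0 ε hε hε1 b hb R0 R ρ hR0' (by linarith)
    (by linarith) E f hf hc s0 h e he ν c hν ∅ 0 0 (fun P hP => hP.elim)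
  have hI : 0 ≤ ∫ y, ‖f y‖ := integral_nonneg fun y => norm_nonneg _
  constructor
  case T => exact a1
  case W => exact w1
  case R =>
    exact gR E f hf hc R (by linarith) s0 h e he ν c hν (nst s0 (3 * R0 + d) (JA + 9))
      (fun Q => w1.ns_nb Q (w1.self Q)) w3
  case box => exact w2
  case al0 => exact b1
  case al_ah => exact b2
  case b_al => exact b3
  case b_at => exact b4
  case oml_le => exact a2
  case oml_omp => exact a3
  case v_le => exact a4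
  case omp_v => exact a5
  case omp9 => exact a6
  case b9 => exact b5
  case TG0 => exact a7
  case TGs => exact a8
  case flat => exact fun P hP => a9 γ hγ1 P hP
  case ah9 => exact b6
  case Y0 => exact b7
  case LS =>
    intro i
    refine (gL E f hf hc s0 h i).trans (ENNReal.ofReal_le_ofReal ?_)
    exact mul_le_mul (by linarith) (le_mul_of_one_le_left hI hΛ) hI (by linarith)
  case fin1 =>
    have h8 : (fun Q : Cell d => cw s0 Q * (bC R0 s0 f e ν c Q * oC μ ρ s0 Q)) =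
        fun Q => cw s0 Q * bC R0 s0 f e ν c Q * oC μ ρ s0 Q := funext fun Q => by ring
    rw [h8]
    exact f1

end

end TG


end

section

/-!
# Module LW: the world satisfies the local inequalities   (helper46)
-/

open MeasureTheory Metric Set TrI
open scoped InnerProductSpace ContDiff ENNReal

namespace TG

namespace LW

noncomputable section

variable {d : ℕ}

lemma net2_eq {E : Type} [NormedAddCommGroup E] [InnerProductSpace ℝ E] (W : Wld d E)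
    {X : Prm d} {s0 : ℝ} {μ : Measure (Sp d)} {f : Sp d → E} {e : Cell d → E} (hX : W.X = X)
    (hs : W.s0 = s0) (hμ : W.μ = μ) (hf : W.f = f) (he : W.e = e) {Q : Cell d} (hQ : 2 ≤ Q.1) :
    net2 X s0 μ f e W.kd W.nv Q = W.nt1 Q := by
  subst hX hs hμ hf he
  unfold net2
  rw [if_pos hQ]
  rfl

/-- the case analysis for one good world -/
theorem cases {E : Type} [NormedAddCommGroup E] [InnerProductSpace ℝ E] [FiniteDimensional ℝ E]
    (hNS : StmtNS) (hd : 2 ≤ d) {J JA rm r0 : ℕ}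
    {C' R0 Rz K' γ κW Kc Cu c1 η Cr CK CKc κ δ Cb CD Csw CP Ca R1 Rs RM C3 Ct R2 R : ℝ}
    {tol : ℕ → ℝ} {X : Prm d} {St TA : Set (Cell d)} {a al ah D b at' TGf : Cell d → ℝ}
    {EI : Cell d → ℝ} {W : Wld d E} {ν : Cell d → Sp d} {c : Cell d → ℝ}
    (hG : GoodW J JA C' R0 Rz X Cr Kc K' γ κW CK κ Csw R1 Rs RM rm tol St TA ah (sh b) (sh D)
      EI W)
    (hC : CW J JA rm R0 κW Kc Cu c1 η CKc δ Cb K' γ R1 Rs RM C3 Ct R2 tol W)
    (hval : ∀ Q, 0 ≤ W.val Q) (hR0 : 1 ≤ R0) (hsd : Real.sqrt d ≤ 3 * R0)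
    (hr0 : 10 ≤ r0) (hCu : 1 ≤ Cu) (hCD : 0 < CD) (hCP : 0 < CP) (hCa : 0 < Ca) (hCKc : 0 < CKc)
    (hCK : 0 < CK) (hCsw : 0 < Csw) (hCb : 0 < Cb) (hCr : 1 ≤ Cr) (hκ : 0 < κ)
    (ha : W.a = a) (hD0 : ∀ Q, 0 ≤ D Q) (hb0 : ∀ Q, 0 ≤ b Q) (hat0 : ∀ Q, 0 ≤ at' Q)
    (hal0 : ∀ Q, 0 ≤ al Q)
    (hshD : ∀ Q, 0 ≤ sh D Q) (hshb : ∀ Q, 0 ≤ sh b Q)
    (hTG0 : ∀ Q, 0 ≤ TGf Q)
    (hWD : ∀ Q, W.D Q = CD * dsm r0 D Q)
    (hal : ∀ Q, ∀ (ζ : Sp d → ℝ) (N : ℝ), TFn 2 N ζ → (∀ y, (d : ℝ) + 3 ≤ ‖y‖ → ζ y = 0) →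
      |∫ y, W.m Q y * ζ y| ≤ N * (Ca * (al Q + D Q)))
    (hbq : ∀ Q, b Q ≤ bq R0 (W.m Q))
    (hLP : ∀ P : Cell d, (∀ l : ℕ, at' (up l P) ≤ (2 : ℝ) ^ (γ * l) * at' P) →
      at' P ≤ C3 * (∫ y, W.m P y * zR Ct y) + CP * (D P + TGf P) ∧
      ‖ν (up 9 P)‖ = 1 ∧
      |(c (up 9 P) - ⟪ν (up 9 P), xC W.s0 P⟫_ℝ) / lev W.s0 P.1| ≤ R2 ∧
      blc (ν (up 9 P)) ((c (up 9 P) - ⟪ν (up 9 P), xC W.s0 P⟫_ℝ) / lev W.s0 P.1)
        (W.m P) R0 ≤ CP * (b (up 9 P) + D P + D (up 9 P)))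
    {Cu' CK' Cs' : ℝ} (hCu' : Cu * (1 + Ca + CP) ≤ Cu') (hCK' : CK + CKc ≤ CK')
    (hCs' : Csw + (Cb + CKc) * (CD + CP) + 2 * Cu * CP ≤ Cs') :
    LocW W.s0 γ Cu' c1 η Cr CK' κ δ Cs' r0 (nst W.s0 (3 * R0) JA) {Q | W.Near Q} St TA
      (fun Q => if 2 ≤ Q.1 then W.nt1 Q else 0) W.val W.v a al ah D b at' TGf
      (fun P => at' P * Mo (W.mu P) (ν (up 9 P))
        ((c (up 9 P) - ⟪ν (up 9 P), xC W.s0 P⟫_ℝ) / lev W.s0 P.1) 2 1 0)
      (fun Q => W.er Q + W.dl Q + EI Q) (fun Q => W.er Q ^ 2 / W.ab Q + W.dl Q) := by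
  subst ha
  have hd1 : 1 ≤ d := by omega
  have hs0 := hG.ok.s0_pos
  have hw : ∀ Q, 0 ≤ W.w Q := w_nn W hs0
  have hv : ∀ Q, 0 ≤ W.v Q := fun Q => Real.sqrt_nonneg _
  have hwv : ∀ Q, 0 ≤ cw W.s0 Q * W.v Q := fun Q => mul_nonneg (hw Q) (hv Q)
  have hself : ∀ Q, Q ∈ nst W.s0 (3 * R0) JA Q := fun Q =>
    self_ns hNS hd1 hs0 (by linarith) JA Q
  have hadj : ∀ Q, adj Q ⊆ nst W.s0 (3 * R0) JA Q := fun Q => adj_ns hNS hd1 hs0 hsd JA Q
  have hdsm : ∀ Q, 0 ≤ dsm r0 D Q := fun Q => FN.dsm_nonneg hD0 Q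
  have hsV0 : ∀ Q, 0 ≤ ∑ Q' ∈ nst W.s0 (3 * R0) JA Q, cw W.s0 Q' * W.val Q' := fun Q =>
    Finset.sum_nonneg fun Q' _ => mul_nonneg (hw Q') (hval Q')
  have hsD : ∀ Q, W.sD R0 JA Q = CD * ∑ Q' ∈ nst W.s0 (3 * R0) JA Q, dsm r0 D Q' := by
    intro Q
    unfold Wld.sD
    rw [Finset.mul_sum]
    exact Finset.sum_congr rfl fun Q' _ => hWD Q'
  have hsD0 : ∀ Q, 0 ≤ ∑ Q' ∈ nst W.s0 (3 * R0) JA Q, dsm r0 D Q' := fun Q =>
    Finset.sum_nonneg fun Q' _ => hdsm Q'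
  have hsaD : ∀ Q, ∑ Q' ∈ adj Q, W.D Q' = CD * ∑ Q' ∈ adj Q, dsm r0 D Q' := by
    intro Q
    rw [Finset.mul_sum]
    exact Finset.sum_congr rfl fun Q' _ => hWD Q'
  have hsaD0 : ∀ Q, 0 ≤ ∑ Q' ∈ adj Q, dsm r0 D Q' := fun Q =>
    Finset.sum_nonneg fun Q' _ => hdsm Q'
  have hself_le : ∀ Q, dsm r0 D Q ≤ ∑ Q' ∈ nst W.s0 (3 * R0) JA Q, dsm r0 D Q' := fun Q =>
    Finset.single_le_sum (f := fun Q' => dsm r0 D Q') (fun Q' _ => hdsm Q') (hself Q)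
  have hDle : ∀ Q, D Q ≤ dsm r0 D Q := by
    intro Q
    have := FN.le_dsm hD0 Q (r0 := r0) (r := 0) (by omega)
    rwa [FR.up_zero] at this
  have hD9 : ∀ Q, D (up 9 Q) ≤ dsm r0 D Q := fun Q => FN.le_dsm hD0 Q (by omega)
  -- type A neighbourhoods
  have hAsh : ∀ Q, AllA Cr (nst W.s0 (3 * R0) JA) St TA W.a ah Q → Ash J JA R0 κW Kc W Q := by
    intro Q hQ
    have hQQ := hQ.1 Q (hself Q)
    refine ⟨hG.sv_le Q hQQ.1 hQQ.2.1 hQ.2, hG.she Q hQQ.1 hQQ.2.1, ?_⟩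
    intro Q' hQ'
    obtain ⟨h1, h2, h3⟩ := hQ.1 Q' hQ'
    exact ⟨(hG.kd0 Q').2 ⟨h1, h2⟩, hG.she Q' h1 h2, hG.ab_cmp Q hQQ.1 hQQ.2.1 Q' h1 h2 h3⟩
  have hsE : ∀ Q, W.sE R0 JA Q = sEs (nst W.s0 (3 * R0) JA) {Q | W.Near Q}
      (fun Q => W.er Q ^ 2 / W.ab Q + W.dl Q) Q := fun Q => rfl
  have hsE0 : ∀ Q, AllA Cr (nst W.s0 (3 * R0) JA) St TA W.a ah Q → 0 ≤
      sEs (nst W.s0 (3 * R0) JA) {Q | W.Near Q} (fun Q => W.er Q ^ 2 / W.ab Q + W.dl Q) Q := by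
    intro Q hQ
    unfold sEs
    split_ifs with h
    · refine Finset.sum_nonneg fun Q' hQ' => ?_
      have h1 := hG.she Q' (hQ.1 Q' hQ').1 (hQ.1 Q' hQ').2.1
      exact add_nonneg (div_nonneg (sq_nonneg _) h1.sh.ab0.le) h1.dl0
    · exact le_rfl
  have hCs0 : 0 ≤ 2 * Cu * CP := by positivity
  have hCs1 : Cb * CD ≤ Cs' := by linarith only [hCsw, hCs', hCs0, mul_pos hCb hCP, mul_pos hCKc hCD, mul_pos hCKc hCP]
  have hCs2 : CKc * CD ≤ Cs' := by linarith only [hCsw, hCs', hCs0, mul_pos hCb hCP, mul_pos hCb hCD, mul_pos hCKc hCP]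
  have hCs3 : Csw ≤ Cs' := by
    linarith only [hCs', hCs0, mul_pos hCb hCP, mul_pos hCb hCD, mul_pos hCKc hCP, mul_pos hCKc hCD]
  have hCu0 : 0 < Cu := by linarith
  have hCu1 : Cu ≤ Cu' := by linarith only [hCu', mul_pos hCu0 hCP, mul_pos hCu0 hCa]
  have hCu2 : Cu * Ca ≤ Cu' := by linarith only [hCu, hCu', hCs0]
  have hCu3 : Cu * CP ≤ Cu' := by linarith only [hCu', hCu0, mul_pos hCu0 hCa]
  have hCK1 : CK ≤ CK' := by linarith
  have hCK2 : CKc ≤ CK' := by linarith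
  refine ⟨hval, ?_, ?_, ?_, ?_, ?_, ?_, ?_, ?_, ?_, ?_, ?_⟩
  · -- E1
    intro Q h1 h2
    refine (hG.E1_le Q h1 h2).trans ?_
    have h3 : 0 ≤ sh b Q + κ * W.a Q := add_nonneg (hshb Q) (mul_nonneg hκ.le (hG.a0 Q))
    have h4 := mul_le_mul_of_nonneg_right hCK1 h3
    have h5 := mul_le_mul_of_nonneg_right hCs3 (hshD Q)
    linarith
  · -- E2
    intro Q h1 h2
    refine (hG.E2_le Q h1 h2).trans ?_
    exact mul_le_mul_of_nonneg_right hCK1 (add_nonneg (mul_nonneg hκ.le (hshb Q)) (hshD Q))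
  · -- w1
    intro Q hQ2 hN
    have h1 := hC.w1 Q hN
    rw [hWD Q] at h1
    simp only [hQ2, if_true]
    have h2 : Cb * (W.w Q * W.v Q) * (CD * dsm r0 D Q) ≤
        Cs' * (cw W.s0 Q * W.v Q) * dsm r0 D Q := by
      rw [show Cb * (W.w Q * W.v Q) * (CD * dsm r0 D Q) =
        (Cb * CD) * (W.w Q * W.v Q) * dsm r0 D Q by ring]
      exact m3 hCs1 (mul_nonneg (hwv Q) (hdsm Q))
    exact h1.trans (by linarith)
  · -- w2
    intro Q hN hQ2 hA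
    have h1 := hC.w2 Q hQ2 hN (hAsh Q hA)
    rw [hsE Q, hsD Q] at h1
    simp only [hQ2, if_true]
    have h3 := hsE0 Q hA
    set SE := sEs (nst W.s0 (3 * R0) JA) {Q | W.Near Q}
      (fun Q => W.er Q ^ 2 / W.ab Q + W.dl Q) Q with hSE
    set SD := ∑ Q' ∈ nst W.s0 (3 * R0) JA Q, dsm r0 D Q' with hSD
    have h2 : CKc * (W.w Q * W.v Q) * (SE + CD * SD) ≤
        CK' * (cw W.s0 Q * W.v Q) * SE + Cs' * (cw W.s0 Q * W.v Q) * SD := by
      have e1 : CKc * (W.w Q * W.v Q) * (SE + CD * SD) =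
        CKc * (W.w Q * W.v Q) * SE + (CKc * CD) * (W.w Q * W.v Q) * SD := by ring
      rw [e1]
      exact add_le_add (m3 hCK2 (mul_nonneg (hwv Q) h3)) (m3 hCs2 (mul_nonneg (hwv Q) (hsD0 Q)))
    have h4 : c1 * (cw W.s0 Q * W.val Q) ≤ W.nt1 Q +
        η * (∑ Q' ∈ nst W.s0 (3 * R0) JA Q, cw W.s0 Q' * W.val Q') +
        CKc * (W.w Q * W.v Q) * (SE + CD * SD) := h1
    linarith
  · -- w3
    intro Q hN hQ2 hB
    have hk : ∀ Q' ∈ nst W.s0 (3 * R0) JA Q, W.kd Q' = 1 := fun Q' hQ' =>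
      (hG.kd1 Q').2 (hB Q' hQ')
    have h1 := hC.w3 Q hN (hk Q (hself Q)) (hG.str Q (hB Q (hself Q)).1)
      (fun Q' hQ' _ => hk Q' (hadj Q hQ'))
    rw [hWD Q] at h1
    simp only [hQ2, if_true]
    have h2 : Cb * (W.w Q * W.v Q) * (CD * dsm r0 D Q) ≤
        Cs' * (cw W.s0 Q * W.v Q) * dsm r0 D Q := by
      rw [show Cb * (W.w Q * W.v Q) * (CD * dsm r0 D Q) =
        (Cb * CD) * (W.w Q * W.v Q) * dsm r0 D Q by ring]
      exact m3 hCs1 (mul_nonneg (hwv Q) (hdsm Q))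
    exact h1.trans (by
      have e1 : δ * (W.w Q * W.v Q) * W.a Q = δ * (cw W.s0 Q * W.v Q) * W.a Q := rfl
      linarith)
  · -- w4
    intro Q hN hQ2 hS hah
    have hst : ∀ Q' ∈ adj Q, Q' ∈ St := fun Q' hQ' => (hS Q' (hadj Q hQ')).1
    have hQS := (hS Q (hself Q)).1
    have h1 := hC.w4 Q hN (fun hk => by
        obtain ⟨e1, e2⟩ := (hG.kd0 Q).1 hk
        exact hG.sv_le Q e1 e2 hah)
      (fun Q' hQ' => by
        by_cases h : Q' ∈ TA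
        · exact Or.inl ((hG.kd0 Q').2 ⟨hst Q' hQ', h⟩)
        · exact Or.inr ((hG.kd1 Q').2 ⟨hst Q' hQ', h⟩))
      (fun Q' _ => hG.a0 Q')
      (fun Q' hQ' _ => hG.str Q' (hst Q' hQ'))
      EI
      (fun Q' hQ' hk => by
        obtain ⟨e1, e2⟩ := (hG.kd0 Q').1 hk
        refine ⟨hG.EI0 Q', hG.she Q' e1 e2, hG.ifc Q' e1 e2, hG.a0 Q', (hG.str Q' e1).mg, ?_⟩
        intro hk'
        obtain ⟨e3, e4⟩ := (hG.kd0 Q).1 hk'
        exact hG.ab_cmp Q e3 e4 Q' e1 e2 (hS Q' (hadj Q hQ')).2.1)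
    rw [hsaD Q] at h1
    simp only [hQ2, if_true]
    have h5 : ∑ Q' ∈ (adj Q).filter (fun Q' => W.kd Q' = 0), (W.er Q' + W.dl Q' + EI Q') =
        ∑ Q' ∈ adj Q, TA.indicator (fun Q => W.er Q + W.dl Q + EI Q) Q' := by
      rw [Finset.sum_filter]
      refine Finset.sum_congr rfl fun Q' hQ' => ?_
      by_cases h : Q' ∈ TA
      · rw [if_pos ((hG.kd0 Q').2 ⟨hst Q' hQ', h⟩), Set.indicator_of_mem h]
      · rw [if_neg (fun hk => h ((hG.kd0 Q').1 hk).2), Set.indicator_of_notMem h]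
    have h6 : 0 ≤ ∑ Q' ∈ adj Q, TA.indicator (fun Q => W.er Q + W.dl Q + EI Q) Q' := by
      refine Finset.sum_nonneg fun Q' hQ' => ?_
      by_cases h : Q' ∈ TA
      · rw [Set.indicator_of_mem h]
        have e2 := hG.she Q' (hst Q' hQ') h
        exact add_nonneg (add_nonneg e2.sh.ep0 e2.dl0) (hG.EI0 Q')
      · rw [Set.indicator_of_notMem h]
    rw [h5] at h1
    set S1 := ∑ Q' ∈ adj Q, TA.indicator (fun Q => W.er Q + W.dl Q + EI Q) Q' with hS1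
    set S2 := ∑ Q' ∈ adj Q, dsm r0 D Q' with hS2
    have h2 : Cb * (W.w Q * W.v Q) * (CD * S2) ≤ Cs' * (cw W.s0 Q * W.v Q) * S2 := by
      rw [show Cb * (W.w Q * W.v Q) * (CD * S2) = (Cb * CD) * (W.w Q * W.v Q) * S2 by ring]
      exact m3 hCs1 (mul_nonneg (hwv Q) (hsaD0 Q))
    have h3 : CKc * (W.w Q * W.v Q) * S1 ≤ CK' * (cw W.s0 Q * W.v Q) * S1 :=
      m3 hCK2 (mul_nonneg (hwv Q) h6)
    have h4 : c1 * (cw W.s0 Q * W.val Q) ≤ W.nt1 Q + CKc * (W.w Q * W.v Q) * S1 +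
        δ * (cw W.s0 Q * W.v Q) * (∑ Q' ∈ adj Q, W.a Q') +
        Cb * (W.w Q * W.v Q) * (CD * S2) := h1
    linarith
  · -- w5
    intro Q hN hQ2
    have h1 := hC.w5 Q hN (fun hk => by
        obtain ⟨e1, e2⟩ := (hG.kd0 Q).1 hk
        exact hG.she Q e1 e2)
      (fun Q' _ hk => hG.str Q' ((hG.kd1 Q').1 hk).1)
      (Ca * (al Q + D Q)) (mul_nonneg hCa.le (add_nonneg (hal0 Q) (hD0 Q))) (hal Q)
    rw [hsaD Q] at h1
    simp only [hQ2, if_true]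
    have h5 : ∑ Q' ∈ (adj Q).filter (fun Q' => W.kd Q' = 1), W.a Q' =
        ∑ Q' ∈ adj Q, (St \ TA).indicator W.a Q' := by
      rw [Finset.sum_filter]
      refine Finset.sum_congr rfl fun Q' hQ' => ?_
      by_cases h : Q' ∈ St \ TA
      · rw [if_pos ((hG.kd1 Q').2 h), Set.indicator_of_mem h]
      · rw [if_neg (fun hk => h ((hG.kd1 Q').1 hk)), Set.indicator_of_notMem h]
    rw [h5] at h1
    set S2 := ∑ Q' ∈ adj Q, dsm r0 D Q' with hS2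
    have h2 : Cb * (W.w Q * W.v Q) * (CD * S2) ≤ Cs' * (cw W.s0 Q * W.v Q) * S2 := by
      rw [show Cb * (W.w Q * W.v Q) * (CD * S2) = (Cb * CD) * (W.w Q * W.v Q) * S2 by ring]
      exact m3 hCs1 (mul_nonneg (hwv Q) (hsaD0 Q))
    have h3 : Cu * (W.w Q * W.v Q) * (Ca * (al Q + D Q)) ≤
        Cu' * (cw W.s0 Q * W.v Q) * (al Q + D Q) := by
      rw [show Cu * (W.w Q * W.v Q) * (Ca * (al Q + D Q)) =
        (Cu * Ca) * (W.w Q * W.v Q) * (al Q + D Q) by ring]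
      exact m3 hCu2 (mul_nonneg (hwv Q) (add_nonneg (hal0 Q) (hD0 Q)))
    have h4 : cw W.s0 Q * W.val Q ≤ W.nt1 Q + Cu * (W.w Q * W.v Q) * (Ca * (al Q + D Q)) +
        δ * (cw W.s0 Q * W.v Q) * (∑ Q' ∈ adj Q, (St \ TA).indicator W.a Q') +
        Cb * (W.w Q * W.v Q) * (CD * S2) := h1
    linarith
  · -- wA6
    intro Q hQ2 hA
    have h1 := hC.wA6 Q (hAsh Q hA)
    rw [hsE Q, hsD Q] at h1
    have h3 := hsE0 Q hA
    set SE := sEs (nst W.s0 (3 * R0) JA) {Q | W.Near Q}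
      (fun Q => W.er Q ^ 2 / W.ab Q + W.dl Q) Q with hSE
    set SD := ∑ Q' ∈ nst W.s0 (3 * R0) JA Q, dsm r0 D Q' with hSD
    set SV := ∑ Q' ∈ nst W.s0 (3 * R0) JA Q, cw W.s0 Q' * W.val Q' with hSV
    have h2 : CKc * (W.w Q * W.v Q) * (SE + CD * SD) ≤
        CK' * (cw W.s0 Q * W.v Q) * SE + Cs' * (cw W.s0 Q * W.v Q) * SD := by
      have e1 : CKc * (W.w Q * W.v Q) * (SE + CD * SD) =
        CKc * (W.w Q * W.v Q) * SE + (CKc * CD) * (W.w Q * W.v Q) * SD := by ring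
      rw [e1]
      exact add_le_add (m3 hCK2 (mul_nonneg (hwv Q) h3)) (m3 hCs2 (mul_nonneg (hwv Q) (hsD0 Q)))
    have h4 : cw W.s0 Q * W.v Q * bq R0 (W.m Q) ≤ Cu * SV +
        CKc * (W.w Q * W.v Q) * (SE + CD * SD) := h1
    have h5 : cw W.s0 Q * W.v Q * b Q ≤ cw W.s0 Q * W.v Q * bq R0 (W.m Q) :=
      mul_le_mul_of_nonneg_left (hbq Q) (hwv Q)
    have h6 : Cu * SV ≤ Cu' * SV := mul_le_mul_of_nonneg_right hCu1 (hsV0 Q)
    linarith
  · -- wB6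
    intro Q hQ2 hB
    have hk : ∀ Q' ∈ W.ns R0 JA Q, Q'.1 = Q.1 → W.kd Q' = 1 ∧
        WNw K' γ R1 Rs RM rm tol W Q' := fun Q' hQ' _ =>
      ⟨(hG.kd1 Q').2 (hB Q' hQ'), hG.str Q' (hB Q' hQ').1⟩
    have hms : 0 ≤ sMs (nst W.s0 (3 * R0) JA) {Q | W.Near Q} W.a Q := by
      unfold sMs
      split_ifs with h
      · exact Finset.sum_nonneg fun Q' _ => hG.a0 Q'
      · exact le_rfl
    have h1 := (hC.wB6 Q hk (sMs (nst W.s0 (3 * R0) JA) {Q | W.Near Q} W.a Q) hms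
      (fun h => by
        have h' : ∃ Q' ∈ nst W.s0 (3 * R0) JA Q, Q'.1 = Q.1 ∧ Q' ∈ {Q | W.Near Q} := h
        unfold sMs
        rw [if_pos h']
        exact le_of_eq (Finset.sum_congr (by ext; simp [Wld.ns]) fun _ _ => rfl))).1
    rw [hsD Q] at h1
    set SD := ∑ Q' ∈ nst W.s0 (3 * R0) JA Q, dsm r0 D Q' with hSD
    set SV := ∑ Q' ∈ nst W.s0 (3 * R0) JA Q, cw W.s0 Q' * W.val Q' with hSV
    set SM := sMs (nst W.s0 (3 * R0) JA) {Q | W.Near Q} W.a Q with hSM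
    have h2 : Cb * (W.w Q * W.v Q) * (CD * SD) ≤ Cs' * (cw W.s0 Q * W.v Q) * SD := by
      rw [show Cb * (W.w Q * W.v Q) * (CD * SD) = (Cb * CD) * (W.w Q * W.v Q) * SD by ring]
      exact m3 hCs1 (mul_nonneg (hwv Q) (hsD0 Q))
    have h4 : cw W.s0 Q * W.v Q * bq R0 (W.m Q) ≤ Cu * SV +
        δ * (cw W.s0 Q * W.v Q) * SM + Cb * (W.w Q * W.v Q) * (CD * SD) := h1
    have h5 : cw W.s0 Q * W.v Q * b Q ≤ cw W.s0 Q * W.v Q * bq R0 (W.m Q) :=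
      mul_le_mul_of_nonneg_left (hbq Q) (hwv Q)
    have h6 : Cu * SV ≤ Cu' * SV := mul_le_mul_of_nonneg_right hCu1 (hsV0 Q)
    linarith
  · -- wA7
    intro P hP2 hT hA
    obtain ⟨hp1, hp2, hp3, hp4⟩ := hLP P hT
    have hDT : 0 ≤ CP * (D P + TGf P) := mul_nonneg hCP.le (add_nonneg (hD0 P) (hTG0 P))
    have h1 := hC.wA7 P hP2 (hAsh P hA) (at' P) (CP * (D P + TGf P)) _ _ (hat0 P) hDT hp2 hp3 hp1
    rw [hsE P, hsD P] at h1
    have h3 := hsE0 P hA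
    have hself' := hself_le P
    have hDle' := hDle P
    have hD9' := hD9 P
    have hTG' := hTG0 P
    have hSD0 := hsD0 P
    have hSV0' := hsV0 P
    set SE := sEs (nst W.s0 (3 * R0) JA) {Q | W.Near Q}
      (fun Q => W.er Q ^ 2 / W.ab Q + W.dl Q) P with hSE
    set SD := ∑ Q' ∈ nst W.s0 (3 * R0) JA P, dsm r0 D Q' with hSD
    set SV := ∑ Q' ∈ nst W.s0 (3 * R0) JA P, cw W.s0 Q' * W.val Q' with hSV
    set wv := cw W.s0 P * W.v P with hwvP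
    have hwvP0 : 0 ≤ wv := hwv P
    set bl := blc (ν (up 9 P)) ((c (up 9 P) - ⟪ν (up 9 P), xC W.s0 P⟫_ℝ) / lev W.s0 P.1)
        (W.m P) R0 with hbl
    have h4 : cw W.s0 P * (at' P * Mo (W.mu P) (ν (up 9 P))
        ((c (up 9 P) - ⟪ν (up 9 P), xC W.s0 P⟫_ℝ) / lev W.s0 P.1) 2 1 0) ≤
        Cu * SV + Cu * wv * max 0 bl + CKc * wv * (SE + CD * SD + CP * (D P + TGf P)) := h1
    refine h4.trans ?_
    have h5 : max 0 bl ≤ CP * (b (up 9 P) + 2 * SD) := by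
      refine max_le (mul_nonneg hCP.le (by linarith only [hSD0, hb0 (up 9 P)])) (hp4.trans ?_)
      exact mul_le_mul_of_nonneg_left (by linarith only [hDle', hD9', hself']) hCP.le
    have h6 : Cu * wv * max 0 bl ≤ Cu * wv * (CP * (b (up 9 P) + 2 * SD)) :=
      mul_le_mul_of_nonneg_left h5 (mul_nonneg (by linarith only [hCu]) hwvP0)
    have h7 : CKc * wv * (SE + CD * SD + CP * (D P + TGf P)) ≤
        CKc * wv * SE + (CKc * (CD + CP)) * wv * (SD + TGf P) := by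
      have e1 : D P ≤ SD := by linarith only [hDle', hself']
      have e2 : CD * SD + CP * (D P + TGf P) ≤ (CD + CP) * (SD + TGf P) := by
        linarith only [mul_nonneg hCD.le hTG', mul_nonneg hCP.le (sub_nonneg.2 e1)]
      have e3 := mul_le_mul_of_nonneg_left e2 (mul_nonneg hCKc.le hwvP0)
      linarith only [e3]
    have h8 : Cu * SV ≤ Cu' * SV := mul_le_mul_of_nonneg_right hCu1 hSV0'
    have h9 : Cu * CP * wv * b (up 9 P) ≤ Cu' * wv * b (up 9 P) :=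
      m3 hCu3 (mul_nonneg hwvP0 (hb0 _))
    have h10 : CKc * wv * SE ≤ CK' * wv * SE := m3 hCK2 (mul_nonneg hwvP0 h3)
    have h11 : (2 * Cu * CP + CKc * (CD + CP)) * wv * (SD + TGf P) ≤
        Cs' * wv * (SD + TGf P) := by
      refine m3 ?_ (mul_nonneg hwvP0 (by linarith only [hTG', hSD0]))
      linarith only [hCsw, hCs', mul_pos hCb hCP, mul_pos hCb hCD]
    have h12 : 0 ≤ 2 * Cu * CP * (wv * TGf P) := mul_nonneg hCs0 (mul_nonneg hwvP0 hTG')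
    linarith only [h6, h7, h8, h9, h10, h11, h12]
  · -- wB7
    intro P hP2 hT hB
    obtain ⟨hp1, hp2, hp3, hp4⟩ := hLP P hT
    have hDT : 0 ≤ CP * (D P + TGf P) := mul_nonneg hCP.le (add_nonneg (hD0 P) (hTG0 P))
    have hk : ∀ Q' ∈ W.ns R0 JA P, Q'.1 = P.1 → W.kd Q' = 1 ∧
        WNw K' γ R1 Rs RM rm tol W Q' := fun Q' hQ' _ =>
      ⟨(hG.kd1 Q').2 (hB Q' hQ'), hG.str Q' (hB Q' hQ').1⟩
    have hms : 0 ≤ sMs (nst W.s0 (3 * R0) JA) {Q | W.Near Q} W.a P := by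
      unfold sMs
      split_ifs with h
      · exact Finset.sum_nonneg fun Q' _ => hG.a0 Q'
      · exact le_rfl
    have h1 := (hC.wB6 P hk (sMs (nst W.s0 (3 * R0) JA) {Q | W.Near Q} W.a P) hms
      (fun h => by
        have h' : ∃ Q' ∈ nst W.s0 (3 * R0) JA P, Q'.1 = P.1 ∧ Q' ∈ {Q | W.Near Q} := h
        unfold sMs
        rw [if_pos h']
        exact le_of_eq (Finset.sum_congr (by ext; simp [Wld.ns]) fun _ _ => rfl))).2
      (at' P) (CP * (D P + TGf P)) _ _ (hat0 P) hDT hp2 hp3 hp1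
    rw [hsD P] at h1
    have hself' := hself_le P
    have hDle' := hDle P
    have hD9' := hD9 P
    have hTG' := hTG0 P
    have hSD0 := hsD0 P
    have hSV0' := hsV0 P
    set SM := sMs (nst W.s0 (3 * R0) JA) {Q | W.Near Q} W.a P with hSM
    set SD := ∑ Q' ∈ nst W.s0 (3 * R0) JA P, dsm r0 D Q' with hSD
    set SV := ∑ Q' ∈ nst W.s0 (3 * R0) JA P, cw W.s0 Q' * W.val Q' with hSV
    set wv := cw W.s0 P * W.v P with hwvP
    have hwvP0 : 0 ≤ wv := hwv P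
    set bl := blc (ν (up 9 P)) ((c (up 9 P) - ⟪ν (up 9 P), xC W.s0 P⟫_ℝ) / lev W.s0 P.1)
        (W.m P) R0 with hbl
    have h4 : cw W.s0 P * (at' P * Mo (W.mu P) (ν (up 9 P))
        ((c (up 9 P) - ⟪ν (up 9 P), xC W.s0 P⟫_ℝ) / lev W.s0 P.1) 2 1 0) ≤
        Cu * SV + Cu * wv * max 0 bl + δ * wv * SM +
          Cb * wv * (CD * SD + CP * (D P + TGf P)) := h1
    refine h4.trans ?_
    have h5 : max 0 bl ≤ CP * (b (up 9 P) + 2 * SD) := by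
      refine max_le (mul_nonneg hCP.le (by linarith only [hSD0, hb0 (up 9 P)])) (hp4.trans ?_)
      exact mul_le_mul_of_nonneg_left (by linarith only [hDle', hD9', hself']) hCP.le
    have h6 : Cu * wv * max 0 bl ≤ Cu * wv * (CP * (b (up 9 P) + 2 * SD)) :=
      mul_le_mul_of_nonneg_left h5 (mul_nonneg (by linarith only [hCu]) hwvP0)
    have h7 : Cb * wv * (CD * SD + CP * (D P + TGf P)) ≤
        (Cb * (CD + CP)) * wv * (SD + TGf P) := by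
      have e1 : D P ≤ SD := by linarith only [hDle', hself']
      have e2 : CD * SD + CP * (D P + TGf P) ≤ (CD + CP) * (SD + TGf P) := by
        linarith only [mul_nonneg hCD.le hTG', mul_nonneg hCP.le (sub_nonneg.2 e1)]
      have e3 := mul_le_mul_of_nonneg_left e2 (mul_nonneg hCb.le hwvP0)
      linarith only [e3]
    have h8 : Cu * SV ≤ Cu' * SV := mul_le_mul_of_nonneg_right hCu1 hSV0'
    have h9 : Cu * CP * wv * b (up 9 P) ≤ Cu' * wv * b (up 9 P) :=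
      m3 hCu3 (mul_nonneg hwvP0 (hb0 _))
    have h11 : (2 * Cu * CP + Cb * (CD + CP)) * wv * (SD + TGf P) ≤
        Cs' * wv * (SD + TGf P) := by
      refine m3 ?_ (mul_nonneg hwvP0 (by linarith only [hTG', hSD0]))
      linarith only [hCsw, hCs', mul_pos hCKc hCP, mul_pos hCKc hCD]
    have h12 : 0 ≤ 2 * Cu * CP * (wv * TGf P) := mul_nonneg hCs0 (mul_nonneg hwvP0 hTG')
    linarith only [h6, h7, h8, h9, h11, h12]

end

end LW

end TG


end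

section

/-!
# Module LW: theorem stmtLW   (helper46)
-/

open MeasureTheory Metric Set TrI
open scoped InnerProductSpace ContDiff ENNReal

namespace TG

noncomputable section

theorem stmtLW (hWD : StmtWD) (hWF : StmtWF) (hLP : StmtLP) (hNS : StmtNS) (hCT8 : StmtCT8)
    (hCT3 : StmtCT3) (hW1 : StmtW1) (hW2 : StmtW2) (hW3 : StmtW3) (hW4 : StmtW4)
    (hW5 : StmtW5) (hWA6 : StmtWA6) (hWA7 : StmtWA7) (hWB6 : StmtWB6) : StmtLW := by
  intro d V E _ _ _ _ _ _ _ L hd hL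
  obtain ⟨J, hJ4, gD⟩ := hWD d V E L hd hL
  obtain ⟨Rt, hRt, gP⟩ := hLP d hd
  refine ⟨J, Rt, hRt, ?_⟩
  intro M c0 b hb C' ε p0 A c hC' hε hε4 hfar JA γ R0 hJA hJA7 hγ hγ1 hR0 hRt8
  have hd1 : 1 ≤ d := by omega
  have hdR : (2 : ℝ) ≤ d := by exact_mod_cast hd
  have hε1 : ε ≤ 1 := by linarith
  have hb2 : BaseKer 2 M c0 b := hb.mono_order (by omega)
  have hA1 : 1 ≤ A := hfar.A_ge
  have hR400 : 400 + 8 * (d : ℝ) ≤ R0 := by linarith
  have hγ8 : γ ≤ 1 / (8 * d) := hγ1.trans (one_div_le_one_div_of_le (by positivity)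
    (by linarith))
  have hγ1' : γ ≤ 1 := by
    refine hγ8.trans ?_
    rw [div_le_one (by positivity)]
    linarith
  have hX : XOK J JA M c0 C' c R0 (⟨b, 1, ε, p0, A⟩ : Prm d) :=
    ⟨hJ4, hC', ⟨hb.mono_order (by omega), le_rfl, hε, hε4, hfar.p0_pos, hfar.p0_le, hA1⟩,
      hb.mono_order (by omega), hfar, hR0, hJA, hJA7⟩
  obtain ⟨C3, R2, CP, RmP, hC3, hR2, hCP, gP⟩ := gP M c0 ε hε hε1 b hb2 R0 hR400
  obtain ⟨Cu, c1, hCu, hc1, gW⟩ := LW.comb hW1 hW2 hW3 hW4 hW5 hWA6 hWA7 hWB6 hNS hd hX rfl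
    hC3 hRt hRt8 hR2
  obtain ⟨Ca, hCa, g8⟩ := hCT8 d hd1 M c0 ε hε hε1 b hb2
  obtain ⟨_, _, g8⟩ := g8 0
  obtain ⟨_, _, g3⟩ := hCT3 d hd1
  obtain ⟨_, _, g3⟩ := g3 M c0 ε hε hε1 b hb2
  have hCu1 : 1 ≤ Cu * (1 + Ca + CP) := by linarith only [hCu, mul_pos (by linarith : 0 < Cu) hCa, mul_pos (by linarith : 0 < Cu) hCP]
  refine ⟨Cu * (1 + Ca + CP), c1, hCu1, hc1, ?_⟩
  intro η hη K Cr hK hCr
  obtain ⟨Kc, K', hKc, hK', gD⟩ := gD M c0 b hb C' ε p0 A hC' hε hε4 JA γ R0 hγ hγ1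
    (by linarith) K Cr hK hCr
  obtain ⟨κW, CKc, hκW, hκW1, hCKc, gW⟩ := gW η Kc hη hKc
  obtain ⟨CK, κ0, hCK, hκ0, gD⟩ := gD κW hκW
  refine ⟨CK + CKc, κ0, by linarith, hκ0, ?_⟩
  intro κm δ hκm hδ
  obtain ⟨RN0, hRN0, gW⟩ := gW K' γ δ (by linarith) hγ hγ8 hδ
  obtain ⟨RN1, hRN1, gD⟩ := gD κm hκm
  obtain ⟨Rs, RM, tol, ht, hRs, gW⟩ := gW (max RN0 RN1) (le_max_left _ _)
  obtain ⟨R1, rm, gD⟩ := gD (max RN0 RN1) (le_max_right _ _) Rs RM tol hRs ht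
  obtain ⟨Cb, Rz, hCb, gW⟩ := gW R1 rm
  obtain ⟨Rm, d0, CD, Csw, r0, hd0, hd01, hCD, hCsw, hr0, gD⟩ := gD Rz
  have hCs : 0 < Csw + (Cb + CKc) * (CD + CP) + 2 * Cu * CP := by
    have hCu0 : 0 < Cu := by linarith
    (clear * - hCsw hCb hCKc hCD hCP hCu; positivity)
  refine ⟨max RN0 RN1, max (max Rm RmP) (2 * d + 20), d0,
    Csw + (Cb + CKc) * (CD + CP) + 2 * Cu * CP, r0, hRN0.trans (le_max_left _ _), hd0, hd01,
    hCs, hr0, ?_⟩
  intro R hR u hu μ hμ s0 hs0 e he ν cc hν κ hκm' hκ0'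
  have hRm : Rm ≤ R := (le_max_left _ _).trans ((le_max_left _ _).trans hR)
  have hRmP : RmP ≤ R := (le_max_right _ _).trans ((le_max_left _ _).trans hR)
  have hRd : 2 * (d : ℝ) + 20 ≤ R := (le_max_right _ _).trans hR
  obtain ⟨W, EI, hWX, hWs, hWμ, hWf, hWe, hWa, hWDD, hG⟩ :=
    gD R hRm u hu μ hμ s0 hs0 e he ν cc hν κ hκm' hκ0'
  have hf : Continuous (fo L u) := FR4.foc L hu
  have hcs : HasCompactSupport (fo L u) := FR4.fos L hu
  subst hWs hWμ hWe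
  have hX' : XOK J JA M c0 C' c R0 (⟨b, max RN0 RN1, ε, p0, A⟩ : Prm d) :=
    ⟨hJ4, hC', ⟨hX.prm.ker, hRN0.trans (le_max_left _ _), hε, hε4, hfar.p0_pos, hfar.p0_le,
      hA1⟩, hX.ker, hfar, hR0, hJA, hJA7⟩
  have hval : ∀ Q, 0 ≤ W.val Q := fun Q => W2m.val_nonneg hX' hG.ok Q
  have hC := gW E W hG.ok hval (fun Q => Real.sqrt_nonneg _)
  have hD0 : ∀ Q, 0 ≤ dC b ε R W.s0 (fo L u) W.e Q :=
    FN.dC_nonneg b ε R hs0 _ he.unit
  have hmC0 : ∀ (r : ℝ) (Q : Cell d), 0 ≤ mC b ε r W.s0 (fo L u) Q := by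
    intro r Q
    simp only [mC, ma]
    have := FR.lev_pos hs0 Q.1
    exact mul_nonneg (by positivity) (integral_nonneg fun y => norm_nonneg _)
  have hmT0 : ∀ Q : Cell d, 0 ≤ mT b ε W.s0 (fo L u) Q := by
    intro Q
    have h1 := FR.lev_pos hs0 Q.1
    unfold mT nw
    exact mul_nonneg (by positivity) (integral_nonneg fun y => by (clear * - h1; positivity))
  have hloc := LW.cases (d := d) (R := R) (J := J) (JA := JA) (ν := ν) (c := cc)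
    (al := mC b ε (R0 + 3) W.s0 (fo L u)) (TGf := tG b ε W.s0 (fo L u))
    (at' := mT b ε W.s0 (fo L u)) (CP := CP) (Ca := Ca)
    (Cu' := Cu * (1 + Ca + CP)) (CK' := CK + CKc)
    (Cs' := Csw + (Cb + CKc) * (CD + CP) + 2 * Cu * CP)
    hNS hd hG hC hval (by linarith) (by
      have h1 : Real.sqrt d ≤ d := by
        rw [Real.sqrt_le_left (by linarith)]
        nlinarith only [hdR]
      linarith) hr0 hCu hCD hCP hCa hCKc hCK hCsw hCb hCr (hκm.trans_le hκm') hWa hD0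
    (fun Q => le_max_left _ _) hmT0 (hmC0 _) (FR4.sh_nonneg hD0)
    (FR4.sh_nonneg fun Q => le_max_left _ _)
    ((g3 E (fo L u) hf hcs W.s0 hs0).1) hWDD
    (by
      intro Q ζ N hζ hs
      have h1 := (g8 E R (by linarith) (by norm_num; linarith) (fo L u) hf hcs W.s0 hs0 W.e
        he).2.2.2 Q ((d : ℝ) + 3) ζ N (by positivity) (by linarith) hζ hs
      have hN : 0 ≤ N := LW.TFn0 hζ
      have h2 : W.m Q = mQ W.s0 (fo L u) (W.e Q) Q := by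
        unfold Wld.m
        rw [hWf]
      rw [h2]
      refine h1.trans ?_
      have h3 := FR4.mC_mono hb2 ε hf hcs hs0 (r := (d : ℝ) + 3 + 2) (R := R0 + 3)
        (by linarith) Q
      have h4 : Ca * N * (mC b ε ((d : ℝ) + 3 + 2) W.s0 (fo L u) Q +
          dC b ε R W.s0 (fo L u) W.e Q) ≤ Ca * N * (mC b ε (R0 + 3) W.s0 (fo L u) Q +
          dC b ε R W.s0 (fo L u) W.e Q) :=
        mul_le_mul_of_nonneg_left (by linarith) (mul_nonneg hCa.le hN)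
      refine h4.trans (le_of_eq (by ring)))
    (by
      intro Q
      have h2 : W.m Q = mQ W.s0 (fo L u) (W.e Q) Q := by
        unfold Wld.m
        rw [hWf]
      rw [h2]
      exact FN.bC_le_bq hd1 hs0 (by linarith) hν Q)
    (by
      intro P hT
      have h2 : W.m P = mQ W.s0 (fo L u) (W.e P) P := by
        unfold Wld.m
        rw [hWf]
      rw [h2]
      obtain ⟨_, _, p1, p2, p3, p4⟩ := gP E R hRmP (fo L u) hf hcs W.s0 hs0 W.e he ν cc hν γ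
        hγ1' P hT
      exact ⟨p1, p2, p3, p4⟩)
    le_rfl le_rfl le_rfl
  refine ⟨W.kd, W.nv, W.val, fun Q => W.er Q + W.dl Q + EI Q,
    fun Q => W.er Q ^ 2 / W.ab Q + W.dl Q, fun Q _ => hG.ok.nu Q, ?_, ?_⟩
  · refine hWF d hd M c0 C' (64 * R0) (Kc + (64 * R0 + 4)) hC' (by linarith) _ hX'.prm E W hWX hs0
      hμ hG.ok.fc hG.ok.fs hG.ok.eu hG.ok.nu hG.ok.ab0 ?_
    intro Q hk
    obtain ⟨e1, e2⟩ := (hG.kd0 Q).1 hk
    have h1 := hG.a_pos Q e1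
    have h2 := hG.ab_le Q e1 e2
    have h3 := (hG.she Q e1 e2).loc
    rw [hWa] at h1 h2
    rw [hWf]
    refine ⟨h1, h2.trans ?_, h3.trans (by linarith)⟩
    exact mul_le_mul_of_nonneg_right (by linarith) h1.le
  · have e1 : net2 (⟨b, max RN0 RN1, ε, p0, A⟩ : Prm d) W.s0 W.μ (fo L u) W.e W.kd W.nv =
        fun Q => if 2 ≤ Q.1 then W.nt1 Q else 0 := by
      funext Q
      unfold net2 Wld.nt1
      rw [hWX, hWf]
    have e2 : NrC p0 A W.s0 W.μ = {Q | W.Near Q} := by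
      ext Q
      unfold NrC Wld.Near
      rw [hWX]
      rfl
    rw [e1, e2]
    exact hloc

end

end TG


end

section

/-!
# Module SHB: the sheet lemma on one level (helper74)
-/

open MeasureTheory Metric Set TrI
open scoped InnerProductSpace ContDiff

namespace TG

namespace SHB

open TC

noncomputable section

variable {d : ℕ}

section Op

variable {V E : Type} [NormedAddCommGroup V] [InnerProductSpace ℝ V] [FiniteDimensional ℝ V]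
  [NormedAddCommGroup E] [InnerProductSpace ℝ E] [FiniteDimensional ℝ E]

/-- standard basis vectors -/
def bs (j : Fin d) : Sp d := EuclideanSpace.single j (1 : ℝ)

lemma sum_bs (x : Sp d) : ∑ j, x j • bs j = x := by
  ext i
  simp [bs, Finset.sum_apply, Pi.single_apply]

lemma inner_bs (x : Sp d) (j : Fin d) : ⟪x, bs j⟫_ℝ = x j := by
  rw [bs, EuclideanSpace.inner_single_right]
  simp

lemma dvE_eq (L : (Sp d →L[ℝ] V) →L[ℝ] E) (Φ : Sp d → E) (v : V) (y : Sp d) :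
    dvE L Φ v y = ∑ j : Fin d, ⟪AA L (bs j) v, fderiv ℝ Φ y (bs j)⟫_ℝ := rfl

/-- cylinder functions have no derivative in the direction ν -/
lemma fderiv_nu {F : Type*} [NormedAddCommGroup F] [NormedSpace ℝ F] {ν : Sp d} (hν : ‖ν‖ = 1)
    {Φ : Sp d → F} (hΦ : Differentiable ℝ Φ) (hc : ∀ y, Φ y = Φ (tang ν y)) (y : Sp d) :
    fderiv ℝ Φ y ν = 0 := by
  have h1 : HasDerivAt (fun t : ℝ => Φ (y + t • ν)) (fderiv ℝ Φ y ν) 0 := by
    have h2 : HasDerivAt (fun t : ℝ => y + t • ν) ν 0 := by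
      simpa using ((hasDerivAt_id (0 : ℝ)).smul_const ν).const_add y
    have h3 : HasFDerivAt Φ (fderiv ℝ Φ y) (y + (0 : ℝ) • ν) := by
      rw [zero_smul, add_zero]
      exact (hΦ y).hasFDerivAt
    exact h3.comp_hasDerivAt (0 : ℝ) h2
  have h4 : (fun t : ℝ => Φ (y + t • ν)) = fun _ => Φ y := by
    funext t
    rw [hc (y + t • ν), hc y, tang_add, tang_smul', tang_self hν, smul_zero, add_zero]
  rw [h4] at h1
  exact h1.unique (hasDerivAt_const _ _)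

/-- for cylinder functions only tangential derivatives enter -/
lemma dvE_cyl (L : (Sp d →L[ℝ] V) →L[ℝ] E) {ν : Sp d} (hν : ‖ν‖ = 1) {Φ : Sp d → E}
    (hΦ : Differentiable ℝ Φ) (hc : ∀ y, Φ y = Φ (tang ν y)) (e : E) (ve : V) (y : Sp d) :
    dvE L Φ ve y = ∑ j : Fin d, ⟪Lam L ν e ve (tang ν (bs j)), fderiv ℝ Φ y (bs j)⟫_ℝ := by
  rw [dvE_eq]
  have h1 : ∀ j : Fin d, ⟪AA L (bs j) ve, fderiv ℝ Φ y (bs j)⟫_ℝ =
      ⟪Lam L ν e ve (tang ν (bs j)), fderiv ℝ Φ y (bs j)⟫_ℝ +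
        ⟪AA L ν ve, fderiv ℝ Φ y (ν j • bs j)⟫_ℝ := by
    intro j
    rw [Lam_tang L e ve (TC.tang_inner hν _)]
    have h2 : bs j = tang ν (bs j) + ν j • ν := by
      unfold tang
      rw [inner_bs]
      abel
    have h3 : AA L (bs j) ve = AA L (tang ν (bs j)) ve + ν j • AA L ν ve := by
      conv_lhs => rw [h2]
      rw [map_add, map_smul]
      rfl
    rw [h3, inner_add_left, map_smul, inner_smul_left, inner_smul_right]
    simp
  rw [Finset.sum_congr rfl fun j _ => h1 j, Finset.sum_add_distrib]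
  have h4 : ∑ j : Fin d, ⟪AA L ν ve, fderiv ℝ Φ y (ν j • bs j)⟫_ℝ = 0 := by
    rw [← inner_sum, ← map_sum, sum_bs, fderiv_nu hν hΦ hc, inner_zero_right]
  rw [h4, add_zero]

/-- the jump polynomial is a polynomial -/
lemma JJ_poly (hd : 1 ≤ d) (m : ℕ) (ν q : Sp d) {u : Sp d → V} (hu : TF u) :
    ContDiff ℝ ∞ (JJ m ν q 1 u) ∧ ∀ x, iteratedFDeriv ℝ (m + 1) (JJ m ν q 1 u) x = 0 := by
  have h1 := stmtTQ d V m u hd hu.smooth (q + (6 * 1 : ℝ) • ν) 1 one_pos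
  have h2 := stmtTQ d V m u hd hu.smooth (q - (6 * 1 : ℝ) • ν) 1 one_pos
  have e : JJ m ν q 1 u = ATP m (q + (6 * 1 : ℝ) • ν) 1 u - ATP m (q - (6 * 1 : ℝ) • ν) 1 u := rfl
  refine ⟨?_, fun x => ?_⟩
  · rw [e]
    exact h1.1.sub h2.1
  · rw [e, iteratedFDeriv_sub_apply]
    · rw [h1.2.1, h2.2.1, sub_zero]
    · exact (h1.1.of_le (by exact_mod_cast le_top)).contDiffAt
    · exact (h2.1.of_le (by exact_mod_cast le_top)).contDiffAt

lemma clm_poly {F G : Type*} [NormedAddCommGroup F] [NormedSpace ℝ F] [NormedAddCommGroup G]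
    [NormedSpace ℝ G] (A : F →L[ℝ] G) {m : ℕ} {p : Sp d → F} (hp : ContDiff ℝ ∞ p)
    (h0 : ∀ x, iteratedFDeriv ℝ (m + 1) p x = 0) :
    ContDiff ℝ ∞ (fun y => A (p y)) ∧ ∀ x, iteratedFDeriv ℝ (m + 1) (fun y => A (p y)) x = 0 := by
  refine ⟨A.contDiff.comp hp, fun x => ?_⟩
  have := A.iteratedFDeriv_comp_left (f := p) (x := x) hp.contDiffAt (i := m + 1)
    (by exact_mod_cast le_top)
  have e : (fun y => A (p y)) = A ∘ p := rfl
  rw [e, this, h0]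
  ext
  simp

end Op

/-- the plane functional dominates the defect and the moment -/
lemma bD_facts (b : Sp d → ℝ) (ε R0 R s0 : ℝ) {E : Type} [NormedAddCommGroup E]
    [InnerProductSpace ℝ E] (f : Sp d → E) (i : ℕ) (x : Sp d) (e : E) (ν : Sp d) (c : ℝ) :
    DD b ε R s0 f i x e ≤ bD b ε R0 R s0 f i x e ν c ∧
      bb R0 s0 f i x e ν c + DD b ε R s0 f i x e ≤ bD b ε R0 R s0 f i x e ν c := by
  unfold bD
  constructor
  · linarith [le_max_left 0 (bb R0 s0 f i x e ν c)]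
  · linarith [le_max_right 0 (bb R0 s0 f i x e ν c)]

/-- lower bound of the mass in the cylinder -/
theorem massLow (d : ℕ) (hd : 1 ≤ d) (M c0 ε : ℝ) (hε : 0 < ε) (hε1 : ε ≤ 1) (b : Sp d → ℝ)
    (hb : BaseKer 2 M c0 b) (R0 : ℝ) (hR0 : 100 ≤ R0) : ∃ C : ℝ, 0 < C ∧
    ∀ (E : Type) [NormedAddCommGroup E] [InnerProductSpace ℝ E] [FiniteDimensional ℝ E],
    ∀ f : Sp d → E, Continuous f → HasCompactSupport f → ∀ (R : ℝ), R0 + 10 ≤ R →
    ∀ (n : ℕ) (e : E), ‖e‖ = 1 → ∀ (ν : Sp d) (c : ℝ), ‖ν‖ = 1 → |c| ≤ R0 / 3 →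
      (∫ y, ⟪f y, e⟫_ℝ * zR (R0 / 3) y) ≤
        (∫ y, ⟪f y, e⟫_ℝ * (cu1 4 (ht ν c y) * zR (R0 / 2 - 1) (tang ν y))) +
          C * bD b ε R0 R ((1 / 2) ^ n) f n 0 e ν c := by
  obtain ⟨CZ, hCZ, hZ⟩ := stmtZs d hd M c0 ε hε hε1 b hb
  obtain ⟨N1, hN1, h1⟩ := zR_cb d 2 (R := R0 / 3) (by linarith only [hR0])
  obtain ⟨N2, hN2, h2⟩ := ht2z_cb d 2 (R := R0) (by linarith) (R0 / 3)
  obtain ⟨N3, hN3, h3⟩ := zR_cb d 2 (R := R0 / 2 - 1) (by linarith only [hR0])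
  obtain ⟨N4, hN4, h4⟩ := cu1_cb 2
  refine ⟨1 + CZ * (2 ^ 2 * N4 * N3 + N2 + N1), by positivity, ?_⟩
  intro E _ _ _ f hf hfs R hR n e he ν c hν hc
  set D := DD b ε R ((1 / 2) ^ n) f n 0 e with hD
  have hD0 : 0 ≤ D := DD_nonneg hd hε hε1 hb hf hfs (by linarith) n he 0
  obtain ⟨hB1, hB2⟩ := bD_facts b ε R0 R ((1 / 2) ^ n) f n 0 e ν c
  set BD := bD b ε R0 R ((1 / 2) ^ n) f n 0 e ν c with hBD
  have hcu : CB 2 (2 ^ 2 * N4 * N3)
      (fun y : Sp d => cu1 4 (ht ν c y) * zR (R0 / 2 - 1) (tang ν y)) :=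
    ((h4 4 (by norm_num)).comp_ht hν.le c).mul (h3.comp_tang hν)
  have hz2 := h2 ν c hν.le hc
  set H : Sp d → ℝ := fun y => cu1 4 (ht ν c y) * zR (R0 / 2 - 1) (tang ν y) +
    zR R0 y * ht ν c y ^ 2 - zR (R0 / 3) y with hH
  have hHN : CB 2 (2 ^ 2 * N4 * N3 + N2 + N1) H := (hcu.add hz2).sub h1
  have hH0 : ∀ y, 0 ≤ H y := by
    intro y
    have e1 := cu1_nonneg 4 (ht ν c y)
    have e2 := zR_nonneg (R0 / 2 - 1) (tang ν y)
    have e3 := zR_nonneg R0 y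
    simp only [hH]
    by_cases hy : ‖y‖ < R0 / 3 + 1
    · have e4 := zR_le_one (R0 / 3) y
      have e5 : zR R0 y = 1 := zR_one (by linarith)
      by_cases hz : |ht ν c y| ≤ 4
      · rw [cu1_one hz, zR_one (by have := norm_tang_le hν y; linarith only [hR0, hy, this]), e5]
        linarith only [e4, sq_nonneg (ht ν c y)]
      · push Not at hz
        have e6 : 1 ≤ ht ν c y ^ 2 := by
          rw [← sq_abs]; nlinarith only [hz]
        rw [e5]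
        linarith only [e4, e6, mul_nonneg e1 e2]
    · push Not at hy
      rw [zR_zero hy, sub_zero]
      (clear * - e1 e2 e3; positivity)
  have hHs : ∀ y, R - 2 ≤ ‖y - 0‖ → H y = 0 := by
    intro y hy
    rw [sub_zero] at hy
    have e1 : zR R0 y = 0 := zR_zero (by linarith only [hR, hy])
    have e2 : zR (R0 / 3) y = 0 := zR_zero (by linarith only [hR0, hR, hy])
    have e3 : cu1 4 (ht ν c y) * zR (R0 / 2 - 1) (tang ν y) = 0 := by
      by_contra hcon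
      have h5 : |ht ν c y| < 5 := by
        by_contra hcon'
        exact left_ne_zero_of_mul hcon (cu1_zero (by linarith only [hcon']))
      have h6 : ‖tang ν y‖ < R0 / 2 := by
        by_contra hcon'
        exact right_ne_zero_of_mul hcon (zR_zero (by linarith only [hcon']))
      have h7 := norm_le_tang hν y
      have h8 : |⟪ν, y⟫_ℝ| ≤ |ht ν c y| + |c| := by
        have : ⟪ν, y⟫_ℝ = ht ν c y + c := by unfold ht; ring
        rw [this]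
        exact abs_add_le _ _
      linarith only [hR0, hR, hc, hy, h5, h6, h7, h8]
    simp only [hH]
    rw [e1, e2, e3]
    ring
  have i1 : Integrable (fun y => ⟪f y, e⟫_ℝ * zR (R0 / 3) y) := int_test hf hfs e h1.smooth.continuous
  have i2 : Integrable (fun y => ⟪f y, e⟫_ℝ * (zR R0 y * ht ν c y ^ 2)) :=
    int_test hf hfs e hz2.smooth.continuous
  have i3 : Integrable (fun y => ⟪f y, e⟫_ℝ * (cu1 4 (ht ν c y) * zR (R0 / 2 - 1) (tang ν y))) :=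
    int_test hf hfs e hcu.smooth.continuous
  have h9 := hZ E f hf hfs R (by linarith only [hR0, hR]) n e he 0 H _ hHN hH0 hHs
  have h10 : ∫ y, ⟪f y, e⟫_ℝ * H y =
      (∫ y, ⟪f y, e⟫_ℝ * (cu1 4 (ht ν c y) * zR (R0 / 2 - 1) (tang ν y))) +
      (∫ y, ⟪f y, e⟫_ℝ * (zR R0 y * ht ν c y ^ 2)) - ∫ y, ⟪f y, e⟫_ℝ * zR (R0 / 3) y := by
    have e4 : ∀ y, ⟪f y, e⟫_ℝ * H y =
        ⟪f y, e⟫_ℝ * (cu1 4 (ht ν c y) * zR (R0 / 2 - 1) (tang ν y)) +
        ⟪f y, e⟫_ℝ * (zR R0 y * ht ν c y ^ 2) - ⟪f y, e⟫_ℝ * zR (R0 / 3) y := by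
      intro y
      simp only [hH]
      ring
    have j2 : Integrable (fun y =>
        ⟪f y, e⟫_ℝ * (cu1 4 (ht ν c y) * zR (R0 / 2 - 1) (tang ν y)) +
        ⟪f y, e⟫_ℝ * (zR R0 y * ht ν c y ^ 2)) := i3.add i2
    rw [integral_congr_ae (Filter.Eventually.of_forall e4), integral_sub j2 i1,
      integral_add i3 i2]
  rw [h10, ← bb_unit R0 f n e ν c] at h9
  have h11 : CZ * (2 ^ 2 * N4 * N3 + N2 + N1) * D ≤ CZ * (2 ^ 2 * N4 * N3 + N2 + N1) * BD := by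
    (clear * - hB1 hCZ hN4 hN3 hN2 hN1; gcongr)
  have h12 : (1 + CZ * (2 ^ 2 * N4 * N3 + N2 + N1)) * BD =
      BD + CZ * (2 ^ 2 * N4 * N3 + N2 + N1) * BD := by ring
  rw [h12]
  linarith only [hD0, hB2, h9, h11]

/-- the part of e orthogonal to the range of A(ν) is small -/
theorem small (hSHA : StmtSHA) (d : ℕ) (V E : Type) [NormedAddCommGroup V]
    [InnerProductSpace ℝ V] [FiniteDimensional ℝ V] [NormedAddCommGroup E] [InnerProductSpace ℝ E]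
    [FiniteDimensional ℝ E] (L : (Sp d →L[ℝ] V) →L[ℝ] E) (n0 : ℕ)
    (T : (ContinuousMultilinearMap ℝ (fun _ : Fin n0 => Sp d) E) →L[ℝ]
      (ContinuousMultilinearMap ℝ (fun _ : Fin (n0 + 1) => Sp d) V)) (hd : 2 ≤ d) (hn0 : 1 ≤ n0)
    (hL : CEll L) (hT : NSProp L n0 T) (M c0 ε : ℝ) (hε : 0 < ε) (hε1 : ε ≤ 1) (b : Sp d → ℝ)
    (hb : BaseKer 2 M c0 b) (R0 : ℝ) (hR0 : 100 ≤ R0) (Bv : ℝ) (hBv : 0 < Bv) (δ : ℝ)
    (hδ : 0 < δ) : ∃ κ : ℝ, 0 < κ ∧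
    ∀ (R : ℝ), R0 + 10 ≤ R → ∀ (n : ℕ) (u : Sp d → V), TF u → ∀ e : E, ‖e‖ = 1 →
      ∀ (ν : Sp d) (c : ℝ), ‖ν‖ = 1 → |c| ≤ R0 / 3 → Flat b ε R0 R κ (fo L u) n e ν c →
      ∀ ve : V, ‖ve‖ ≤ Bv → (∀ w : V, ⟪e - AA L ν ve, AA L ν w⟫_ℝ = 0) →
      ‖e - AA L ν ve‖ ≤ δ := by
  obtain ⟨J, hSH⟩ := hSHA d V E L n0 T hd hn0 hL hT
  obtain ⟨CA, hCA, hA⟩ := hSH M c0 ε hε hε1 b hb R0 hR0
  obtain ⟨CX, hCX, hX⟩ := mixed d (by omega) M c0 ε hε hε1 b hb R0 hR0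
  obtain ⟨CL, hCL, hLow⟩ := massLow d (by omega) M c0 ε hε hε1 b hb R0 hR0
  obtain ⟨Nφ, hNφ, hφ⟩ := zR_cb d (J + 3) (R := R0 / 2 - 1) (by linarith)
  -- constants
  set K1 : ℝ := 2 * (CA * Nφ) + 2 * (CX * (d * (‖L‖ * Bv) * Nφ)) with hK1
  have hK1n : 0 < K1 := by positivity
  set κ : ℝ := min (min 1 (1 / (2 * CL))) ((δ / (2 * K1)) ^ 2) with hκ
  have hκ0 : 0 < κ := by
    rw [hκ]
    exact lt_min (lt_min one_pos (by positivity)) (by positivity)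
  have hκ1 : κ ≤ 1 := (min_le_left _ _).trans (min_le_left _ _)
  have hκ2 : κ ≤ 1 / (2 * CL) := (min_le_left _ _).trans (min_le_right _ _)
  have hκ3 : Real.sqrt κ ≤ δ / (2 * K1) := by
    rw [show δ / (2 * K1) = Real.sqrt ((δ / (2 * K1)) ^ 2) from
      (Real.sqrt_sq (by positivity)).symm]
    exact Real.sqrt_le_sqrt (min_le_right _ _)
  refine ⟨κ, hκ0, ?_⟩
  intro R hR n u hu e he ν c hν hc hFlat ve hve hort
  obtain ⟨hMi0, hF1, hF2⟩ := hFlat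
  set f := fo L u with hf
  have hfc : Continuous f := fo_cont L hu
  have hfs : HasCompactSupport f := fo_cs L hu
  set Mi := ∫ y, ⟪f y, e⟫_ℝ * zR (R0 / 3) y with hMi
  obtain ⟨hB1, hB2⟩ := bD_facts b ε R0 R ((1 / 2) ^ n) f n 0 e ν c
  set BD := bD b ε R0 R ((1 / 2) ^ n) f n 0 e ν c with hBD
  set D := DD b ε R ((1 / 2) ^ n) f n 0 e with hD
  set mm := ma b ε R0 ((1 / 2) ^ n) f n 0 with hmm
  have hD0 : 0 ≤ D := DD_nonneg (by omega) hε hε1 hb hfc hfs (by linarith) n he 0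
  have hm0 : 0 ≤ mm := ma_nonneg b ε R0 f n
  have hBD0 : 0 ≤ BD := hD0.trans hB1
  set e' := e - AA L ν ve with he'
  rcases eq_or_ne e' 0 with h0 | hne
  · rw [h0, norm_zero]; exact hδ.le
  have hnp : 0 < ‖e'‖ := norm_pos_iff.2 hne
  -- the test function
  set φ : Sp d → ℝ := fun y => zR (R0 / 2 - 1) (tang ν y) with hφd
  have hφN : CB (J + 3) Nφ φ := hφ.comp_tang hν
  have hφdiff : Differentiable ℝ φ := hφN.smooth.differentiable (by
    have : ((J + 3 : ℕ) : ℕ∞ω) ≠ 0 := by exact_mod_cast (by omega : J + 3 ≠ 0)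
    exact this)
  have hφC : Cyl ν (R0 / 2) φ := by
    refine ⟨fun y => ?_, fun y hy => ?_⟩
    · simp only [hφd]; rw [tang_tang hν]
    · by_contra hcon
      exact hy (zR_zero (by linarith [not_le.1 hcon]))
  set Φ : Sp d → E := fun y => φ y • e' with hΦ
  have hΦN : TFn J (Nφ * ‖e'‖) Φ := ((hφN.le (by omega)).smul_vec e').tfn
  have hΦC : Cyl ν (R0 / 2) Φ := by
    refine ⟨fun y => ?_, fun y hy => hφC.supp y fun h => hy ?_⟩
    · simp only [hΦ]; rw [hφC.const y]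
    · simp only [hΦ]; rw [h, zero_smul]
  have hort' : ∀ w : V, ⟪e - L (rk1 ν ve), L (rk1 ν w)⟫_ℝ = 0 := hort
  have hSA := hA R hR n u hu e he ν c hν hc ve hort' Φ _ hΦN hΦC
  -- identities
  have hee : ⟪e, e'⟫_ℝ = ‖e'‖ ^ 2 := by
    have h1 : ⟪e' + AA L ν ve, e'⟫_ℝ = ⟪e, e'⟫_ℝ := by rw [he']; congr 1; abel
    rw [← h1, inner_add_left, real_inner_self_eq_norm_sq, real_inner_comm, hort, add_zero]
  set w : Sp d := ∑ j : Fin d, ⟪AA L (bs j) ve, e'⟫_ℝ • bs j with hw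
  have hwn : ‖w‖ ≤ d * (‖L‖ * Bv) * ‖e'‖ := by
    rw [hw]
    refine (norm_sum_le _ _).trans ?_
    have h1 : ∀ j ∈ (Finset.univ : Finset (Fin d)), ‖⟪AA L (bs j) ve, e'⟫_ℝ • bs j‖ ≤
        ‖L‖ * Bv * ‖e'‖ := by
      intro j _
      have hbj : ‖(bs j : Sp d)‖ = 1 := by simp [bs]
      rw [norm_smul, hbj, mul_one]
      refine (norm_inner_le_norm _ _).trans ?_
      refine mul_le_mul_of_nonneg_right ?_ (norm_nonneg _)
      have h2 := AA_le L (bs j) ve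
      rw [hbj, one_mul] at h2
      refine h2.trans ?_
      (clear * - hve; gcongr)
    refine (Finset.sum_le_sum h1).trans (le_of_eq ?_)
    rw [Finset.sum_const, Finset.card_univ, Fintype.card_fin, nsmul_eq_mul]
    ring
  set g : Sp d → ℝ := fun y => fderiv ℝ φ y w with hg
  have hgN : CB 2 (‖w‖ * Nφ) g := (hφN.le (by omega : 2 + 1 ≤ J + 3)).fderiv_apply w
  have hgs : ∀ y, g y ≠ 0 → ‖tang ν y‖ ≤ R0 / 2 := by
    intro y hy
    by_contra hcon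
    push Not at hcon
    apply hy
    have hop : ∀ᶠ z in nhds y, φ z = 0 := by
      have hcont : Continuous (fun z : Sp d => ‖tang ν z‖) := by
        have : (fun z : Sp d => ‖tang ν z‖) = fun z => ‖tangL ν z‖ := by
          funext z; rw [tangL_apply]
        rw [this]
        exact (tangL ν).continuous.norm
      filter_upwards [(isOpen_lt continuous_const hcont).mem_nhds hcon] with z hz
      exact zR_zero (by
        have : R0 / 2 < ‖tang ν z‖ := hz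
        linarith)
    have h1 : fderiv ℝ φ y = fderiv ℝ (fun _ : Sp d => (0 : ℝ)) y :=
      Filter.EventuallyEq.fderiv_eq hop
    simp only [hg]
    rw [h1]
    simp
  have hdv : ∀ y, dvE L Φ ve y = g y := by
    intro y
    rw [dvE_eq]
    have h1 : ∀ j : Fin d, fderiv ℝ Φ y (bs j) = fderiv ℝ φ y (bs j) • e' := by
      intro j
      have h2 : HasFDerivAt Φ ((fderiv ℝ φ y).smulRight e') y :=
        (hφdiff y).hasFDerivAt.smul_const e'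
      rw [h2.fderiv]
      rfl
    simp only [hg, hw]
    rw [map_sum]
    refine Finset.sum_congr rfl fun j _ => ?_
    rw [h1, inner_smul_right, map_smul, smul_eq_mul]
    ring
  have hpl : plInt ν c (fun y => ⟪L (rk1 ν (JJ n0 ν (c • ν) 1 u y)), Φ y⟫_ℝ) = 0 := by
    unfold plInt
    have : ∀ y : (Submodule.span ℝ {ν})ᗮ,
        (fun y => ⟪L (rk1 ν (JJ n0 ν (c • ν) 1 u y)), Φ y⟫_ℝ) (c • ν + (y : Sp d)) = 0 := by
      intro y
      simp only [hΦ]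
      rw [inner_smul_right, real_inner_comm]
      have := hort (JJ n0 ν (c • ν) 1 u (c • ν + (y : Sp d)))
      rw [AA_apply L ν (JJ n0 ν (c • ν) 1 u (c • ν + (y : Sp d)))] at this
      rw [this, mul_zero]
    simp_rw [this]
    simp
  have hint : (∫ y, ⟪f y, e⟫_ℝ * (cu1 4 (ht ν c y) * (⟪e, Φ y⟫_ℝ - ht ν c y * dvE L Φ ve y))) =
      ‖e'‖ ^ 2 * (∫ y, ⟪f y, e⟫_ℝ * (cu1 4 (ht ν c y) * φ y)) -
        ∫ y, ⟪f y, e⟫_ℝ * (cu1 4 (ht ν c y) * ht ν c y * g y) := by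
    obtain ⟨N4, hN4, h4⟩ := cu1_cb 2
    have hcuc : Continuous (fun y : Sp d => cu1 4 (ht ν c y)) :=
      ((h4 4 (by norm_num)).comp_ht hν.le c).smooth.continuous
    have hhtc : Continuous (fun y : Sp d => ht ν c y) := by unfold ht; fun_prop
    have i1 : Integrable (fun y => ⟪f y, e⟫_ℝ * (cu1 4 (ht ν c y) * φ y)) :=
      int_test hfc hfs e (hcuc.mul hφdiff.continuous)
    have i2 : Integrable (fun y => ⟪f y, e⟫_ℝ * (cu1 4 (ht ν c y) * ht ν c y * g y)) :=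
      int_test hfc hfs e ((hcuc.mul hhtc).mul hgN.smooth.continuous)
    have e1 : ∀ y, ⟪f y, e⟫_ℝ * (cu1 4 (ht ν c y) * (⟪e, Φ y⟫_ℝ - ht ν c y * dvE L Φ ve y)) =
        ‖e'‖ ^ 2 * (⟪f y, e⟫_ℝ * (cu1 4 (ht ν c y) * φ y)) -
          ⟪f y, e⟫_ℝ * (cu1 4 (ht ν c y) * ht ν c y * g y) := by
      intro y
      rw [hdv]
      simp only [hΦ]
      rw [inner_smul_right, hee]
      ring
    rw [integral_congr_ae (Filter.Eventually.of_forall e1), integral_sub (i1.const_mul _) i2,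
      integral_const_mul]
  rw [hpl, hint, sub_zero] at hSA
  have hXb := hX E f hfc hfs R hR n e he ν c hν hc g _ hgN hgs
  have hLo := hLow E f hfc hfs R hR n e he ν c hν hc
  rw [← hMi, ← hBD] at hLo
  rw [← hmm, ← hD, ← hBD] at hXb
  rw [← hBD, ← hmm, ← hD] at hSA
  set M' := ∫ y, ⟪f y, e⟫_ℝ * (cu1 4 (ht ν c y) * φ y) with hM'
  set X := ∫ y, ⟪f y, e⟫_ℝ * (cu1 4 (ht ν c y) * ht ν c y * g y) with hXd
  -- M' ≥ Mi / 2
  have hM2 : Mi / 2 ≤ M' := by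
    have h1 : CL * BD ≤ Mi / 2 := by
      calc CL * BD ≤ CL * (κ * Mi) := by gcongr
        _ ≤ CL * (1 / (2 * CL) * Mi) := by gcongr
        _ = Mi / 2 := by field_simp
    have h2 : Mi ≤ M' + CL * BD := hLo
    linarith only [hLo, h1]
  -- the size of the errors
  have hsκ : 0 ≤ Real.sqrt κ := Real.sqrt_nonneg _
  have hκs : κ ≤ Real.sqrt κ := by
    have h1 : κ * κ ≤ κ := by nlinarith only [hκ0, hκ1]
    exact Real.le_sqrt_of_sq_le (by linarith only [h1])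
  have hη : BD + Real.sqrt (mm * D) ≤ 2 * (Real.sqrt κ * Mi) := by
    have h1 : Real.sqrt (mm * D) ≤ Real.sqrt κ * Mi := by
      have h2 : mm * D ≤ κ * Mi ^ 2 := le_trans (by gcongr) hF2
      calc Real.sqrt (mm * D) ≤ Real.sqrt (κ * Mi ^ 2) := Real.sqrt_le_sqrt h2
        _ = Real.sqrt κ * Mi := by rw [Real.sqrt_mul hκ0.le, Real.sqrt_sq hMi0.le]
    have h3 : BD ≤ Real.sqrt κ * Mi := hF1.trans (by gcongr)
    linarith only [h1, h3]
  have hmx : Real.sqrt ((mm + D) * BD) ≤ 2 * (Real.sqrt κ * Mi) := by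
    have h2 : (mm + D) * BD ≤ 4 * (κ * Mi ^ 2) := by
      have h3 : D * BD ≤ κ * Mi ^ 2 := by
        calc D * BD ≤ BD * BD := by gcongr
          _ ≤ (κ * Mi) * (κ * Mi) := by gcongr
          _ = κ * (κ * Mi ^ 2) := by ring
          _ ≤ 1 * (κ * Mi ^ 2) := by gcongr
          _ = _ := one_mul _
      have h4 : 0 ≤ κ * Mi ^ 2 := by positivity
      nlinarith
    calc Real.sqrt ((mm + D) * BD) ≤ Real.sqrt (4 * (κ * Mi ^ 2)) := Real.sqrt_le_sqrt h2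
      _ = 2 * (Real.sqrt κ * Mi) := by
        rw [Real.sqrt_mul (by norm_num), Real.sqrt_mul hκ0.le, Real.sqrt_sq hMi0.le,
          show (4 : ℝ) = 2 ^ 2 by norm_num, Real.sqrt_sq (by norm_num)]
  have hfin : ‖e'‖ ^ 2 * (Mi / 2) ≤ ‖e'‖ * (K1 * (Real.sqrt κ * Mi)) := by
    have h1 : ‖e'‖ ^ 2 * M' ≤ CA * (Nφ * ‖e'‖) * (BD + Real.sqrt (mm * D)) + |X| := by
      have h2 := le_abs_self (‖e'‖ ^ 2 * M' - X)
      have h3 := le_abs_self X
      linarith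
    have h2 : |X| ≤ CX * (d * (‖L‖ * Bv) * ‖e'‖ * Nφ) * (2 * (Real.sqrt κ * Mi)) := by
      refine hXb.trans ?_
      gcongr
    have h3 : CA * (Nφ * ‖e'‖) * (BD + Real.sqrt (mm * D)) ≤
        CA * (Nφ * ‖e'‖) * (2 * (Real.sqrt κ * Mi)) := by (clear * - hη hCA hNφ hne; gcongr)
    have h4 : ‖e'‖ ^ 2 * (Mi / 2) ≤ ‖e'‖ ^ 2 * M' := by (clear * - hM2 hne; gcongr)
    calc ‖e'‖ ^ 2 * (Mi / 2) ≤ _ := h4
      _ ≤ _ := h1
      _ ≤ CA * (Nφ * ‖e'‖) * (2 * (Real.sqrt κ * Mi)) +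
          CX * (d * (‖L‖ * Bv) * ‖e'‖ * Nφ) * (2 * (Real.sqrt κ * Mi)) := add_le_add h3 h2
      _ = _ := by rw [hK1]; ring
  have hfin2 : ‖e'‖ ≤ 2 * K1 * Real.sqrt κ := by
    have h1 : (‖e'‖ * Mi / 2) * ‖e'‖ ≤ (K1 * (Real.sqrt κ * Mi)) * ‖e'‖ := by linarith only [hfin]
    have h2 := le_of_mul_le_mul_right h1 hnp
    have h3 : ‖e'‖ * Mi ≤ (2 * K1 * Real.sqrt κ) * Mi := by linarith only [h2]
    exact le_of_mul_le_mul_right h3 hMi0
  calc ‖e'‖ ≤ 2 * K1 * Real.sqrt κ := hfin2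
    _ ≤ 2 * K1 * (δ / (2 * K1)) := by gcongr
    _ = δ := by field_simp

lemma differentiable_of_TFn {F : Type*} [NormedAddCommGroup F] [NormedSpace ℝ F] {J : ℕ} {N : ℝ}
    {g : Sp d → F} (h : TFn (J + 1) N g) : Differentiable ℝ g :=
  h.smooth.differentiable (by
    have : ((J + 1 : ℕ) : ℕ∞ω) ≠ 0 := by exact_mod_cast (by omega : J + 1 ≠ 0)
    exact this)

lemma fderiv_inner_zero {ν : Sp d} {Y : Sp d → Sp d} (hY : Differentiable ℝ Y)
    (h0 : ∀ y, ⟪ν, Y y⟫_ℝ = 0) (y w : Sp d) : ⟪ν, fderiv ℝ Y y w⟫_ℝ = 0 := by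
  have h1 : HasFDerivAt (fun z => innerSL ℝ ν (Y z)) ((innerSL ℝ ν) ∘L (fderiv ℝ Y y)) y :=
    (innerSL ℝ ν).hasFDerivAt.comp y (hY y).hasFDerivAt
  have h2 : (fun z => innerSL ℝ ν (Y z)) = fun _ => (0 : ℝ) := by
    funext z
    exact h0 z
  rw [h2] at h1
  have h3 := h1.unique (hasFDerivAt_const (0 : ℝ) y)
  have h4 := congrArg (fun A : Sp d →L[ℝ] ℝ => A w) h3
  exact h4

end

end SHB

open _root_.TG.SHB TC in
theorem stmtSHB (hSHA : StmtSHA) : StmtSHB := by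
  intro d V E _ _ _ _ _ _ L n0 T hd hn0 hL hT
  have : CompleteSpace E := FiniteDimensional.complete ℝ E
  obtain ⟨cA, hcA, hlow⟩ := lower L hL
  obtain ⟨J, hSH⟩ := hSHA d V E L n0 T hd hn0 hL hT
  refine ⟨J + 1, ?_⟩
  intro M c0 ε hε hε1 b hb R0 hR0
  obtain ⟨CA, hCA, hA⟩ := hSH M c0 ε hε hε1 b hb R0 hR0
  set K : ℝ := ‖L‖ + 1 with hK
  have hK0 : 0 < K := by positivity
  set c1 : ℝ := cA / (4 * K) with hc1
  have hc1p : 0 < c1 := by positivity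
  have hδ : 0 < min (1 / 2) c1 := lt_min (by norm_num) hc1p
  obtain ⟨κ, hκ, hsm⟩ := small hSHA d V E L n0 T hd hn0 hL hT M c0 ε hε hε1 b hb R0 hR0
    (1 / cA) (by positivity) (min (1 / 2) c1) hδ
  obtain ⟨CP, hCP, hpoly⟩ := polyPlane d (by omega) n0 (J + 1) (R0 / 2) R0 (by linarith)
  set B : ℝ := ‖L‖ * (1 / cA) + 1 with hB
  have hBp : 0 < B := by positivity
  refine ⟨K / c1 + CA * (2 / c1) + (B + CP * CA) / cA, κ, by positivity, hκ, ?_⟩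
  intro R hR n u hu e he ν c hν hc hFlat η hη
  obtain ⟨ve, hve, hort⟩ := exists_ve L hcA hlow hν he
  have hsmall := hsm R hR n u hu e he ν c hν hc hFlat ve hve hort
  have hs1 : ‖e - AA L ν ve‖ ≤ 1 / 2 := hsmall.trans (min_le_left _ _)
  have hs2 : ‖e - AA L ν ve‖ ≤ cA / (4 * (‖L‖ + 1)) := hsmall.trans (min_le_right _ _)
  have hge := Lam_ge L hcA hlow hν he hs1 hs2
  set Λ := Lam L ν e ve with hΛ
  obtain ⟨P, hPn, hPΛ, hPo⟩ := exists_left Λ hc1p hge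
  have hort' : ∀ w : V, ⟪e - L (rk1 ν ve), L (rk1 ν w)⟫_ℝ = 0 := hort
  have hSA := hA R hR n u hu e he ν c hν hc ve hort'
  set f := fo L u with hf
  have hfc : Continuous f := fo_cont L hu
  have hfs : HasCompactSupport f := fo_cs L hu
  have hη0 : 0 ≤ η := by
    rw [hη]
    have h1 := (bD_facts b ε R0 R ((1 / 2) ^ n) f n 0 e ν c).1
    have h2 := DD_nonneg (by omega) hε hε1 hb hfc hfs (by linarith : (3 : ℝ) ≤ R) n he 0
    have h3 := Real.sqrt_nonneg (ma b ε R0 ((1 / 2) ^ n) f n 0 * DD b ε R ((1 / 2) ^ n) f n 0 e)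
    linarith
  rw [← hη] at hSA
  set A : V →L[ℝ] Sp d := P ∘L AA L ν with hAdef
  have hAn : ‖A‖ ≤ K / c1 := by
    refine (ContinuousLinearMap.opNorm_comp_le _ _).trans ?_
    have h1 := norm_AA_le L hν
    calc ‖P‖ * ‖AA L ν‖ ≤ (1 / c1) * K := by
          refine mul_le_mul hPn (h1.trans (by linarith)) (norm_nonneg _) (by positivity)
      _ = K / c1 := by ring
  have hKc : 0 < K / c1 := by positivity
  have hPe : P e = ν := by
    have := hPΛ ν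
    rwa [hΛ, Lam_nu L hν] at this
  have hCC : K / c1 ≤ K / c1 + CA * (2 / c1) + (B + CP * CA) / cA := by
    have h1 : 0 ≤ CA * (2 / c1) := by positivity
    have h2 : 0 ≤ (B + CP * CA) / cA := by positivity
    linarith
  refine ⟨(innerSL ℝ ν) ∘L A, (tangL ν) ∘L A, ?_, ?_, ?_, ?_, ?_⟩
  · refine (ContinuousLinearMap.opNorm_comp_le _ _).trans ?_
    rw [innerSL_apply_norm, hν, one_mul]
    exact hAn.trans hCC
  · refine (ContinuousLinearMap.opNorm_comp_le _ _).trans ?_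
    have h1 := norm_tangL_le hν
    calc ‖tangL ν‖ * ‖A‖ ≤ 1 * (K / c1) := mul_le_mul h1 hAn (norm_nonneg _) (by norm_num)
      _ = K / c1 := one_mul _
      _ ≤ _ := hCC
  · intro v
    have : ((tangL ν) ∘L A) v = tang ν (A v) := tangL_apply ν (A v)
    rw [this]
    exact TC.tang_inner hν _
  · -- the jump identity
    intro ψ Y N hψ hY hψC hYC hYν
    set Q := ContinuousLinearMap.adjoint P with hQ
    have hQn : ‖Q‖ ≤ 1 / c1 := by
      rw [hQ, LinearIsometryEquiv.norm_map]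
      exact hPn
    have hQi : ∀ (a : E) (w : Sp d), ⟪a, Q w⟫_ℝ = ⟪P a, w⟫_ℝ := fun a w => by
      rw [hQ, ContinuousLinearMap.adjoint_inner_right]
    set Φ : Sp d → E := fun y => Q (ψ y • ν + Y y) with hΦ
    have hψd := differentiable_of_TFn hψ
    have hYd := differentiable_of_TFn hY
    have hψn : 0 ≤ N := hψ.cb.nonneg
    have hΦN : TFn J ((1 / c1) * (N * ‖ν‖ + N)) Φ :=
      (((((hψ.cb).le (Nat.le_succ J)).smul_vec ν).add ((hY.cb).le (Nat.le_succ J))).clm_le hQn).tfn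
    have hΦC : Cyl ν (R0 / 2) Φ := by
      refine ⟨fun y => ?_, fun y hy => ?_⟩
      · simp only [hΦ]; rw [hψC.const y, hYC.const y]
      · by_cases h1 : ψ y = 0
        · refine hYC.supp y fun h2 => hy ?_
          simp only [hΦ]; rw [h1, h2]; simp
        · exact hψC.supp y h1
    have hΦd : Differentiable ℝ Φ := Q.differentiable.comp ((hψd.smul_const ν).add hYd)
    have h1 := hSA Φ _ hΦN hΦC
    have e1 : ∀ y, ⟪e, Φ y⟫_ℝ = ψ y := by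
      intro y
      simp only [hΦ]
      rw [hQi, hPe, inner_add_right, inner_smul_right, real_inner_self_eq_norm_sq, hν, hYν]
      ring
    have e2 : ∀ y, dvE L Φ ve y = dv Y y := by
      intro y
      rw [dvE_cyl L hν hΦd hΦC.const e ve y]
      unfold dv
      refine Finset.sum_congr rfl fun j _ => ?_
      have h2 : fderiv ℝ Φ y (bs j) = Q (fderiv ℝ ψ y (bs j) • ν + fderiv ℝ Y y (bs j)) := by
        have h3 : HasFDerivAt (fun y => ψ y • ν + Y y)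
            ((fderiv ℝ ψ y).smulRight ν + fderiv ℝ Y y) y :=
          ((hψd y).hasFDerivAt.smul_const ν).add (hYd y).hasFDerivAt
        have h4 := Q.hasFDerivAt.comp y h3
        have h5 : HasFDerivAt Φ (Q ∘L ((fderiv ℝ ψ y).smulRight ν + fderiv ℝ Y y)) y := h4
        rw [h5.fderiv]
        rfl
      rw [h2, hQi, ← hΛ, hPΛ, inner_add_right, inner_smul_right]
      have h6 : ⟪tang ν (bs j), ν⟫_ℝ = 0 := by
        rw [real_inner_comm]; exact TC.tang_inner hν _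
      have h7 : ⟪tang ν (bs j), fderiv ℝ Y y (bs j)⟫_ℝ = ⟪bs j, fderiv ℝ Y y (bs j)⟫_ℝ := by
        unfold tang
        rw [inner_sub_left, inner_smul_left, fderiv_inner_zero hYd hYν]
        simp
      rw [h6, h7, mul_zero, zero_add, real_inner_comm, inner_bs]
      rfl
    have e3 : ∀ y, ⟪L (rk1 ν (JJ n0 ν (c • ν) 1 u y)), Φ y⟫_ℝ =
        ((innerSL ℝ ν) ∘L A) (JJ n0 ν (c • ν) 1 u y) * ψ y +
          ⟪((tangL ν) ∘L A) (JJ n0 ν (c • ν) 1 u y), Y y⟫_ℝ := by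
      intro y
      simp only [hΦ]
      rw [hQi, ← AA_apply]
      have h2 : P (AA L ν (JJ n0 ν (c • ν) 1 u y)) = A (JJ n0 ν (c • ν) 1 u y) := rfl
      rw [h2, inner_add_right, inner_smul_right]
      have h3 : ((innerSL ℝ ν) ∘L A) (JJ n0 ν (c • ν) 1 u y) =
        ⟪ν, A (JJ n0 ν (c • ν) 1 u y)⟫_ℝ := rfl
      have h4 : ((tangL ν) ∘L A) (JJ n0 ν (c • ν) 1 u y) = tang ν (A (JJ n0 ν (c • ν) 1 u y)) :=
        tangL_apply _ _
      rw [h3, h4, real_inner_comm]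
      have h5 : ⟪tang ν (A (JJ n0 ν (c • ν) 1 u y)), Y y⟫_ℝ =
          ⟪A (JJ n0 ν (c • ν) 1 u y), Y y⟫_ℝ := by
        unfold tang
        rw [inner_sub_left, inner_smul_left, hYν]
        simp
      rw [h5]
      ring
    simp_rw [e1, e2, e3] at h1
    refine h1.trans ?_
    rw [hν, mul_one]
    have h8 : CA * (1 / c1 * (N + N)) * η = (CA * (2 / c1)) * N * η := by ring
    rw [h8]
    have h9 : CA * (2 / c1) ≤ K / c1 + CA * (2 / c1) + (B + CP * CA) / cA := by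
      have h2 : 0 ≤ (B + CP * CA) / cA := by positivity
      linarith
    gcongr
  · -- the size of the jump
    intro x hxc hxR
    set AJ := AA L ν (JJ n0 ν (c • ν) 1 u x) with hAJ
    set h := AJ - Λ (P AJ) with hh
    have hho : ∀ z, ⟪Λ z, h⟫_ℝ = 0 := fun z => hPo AJ z
    obtain ⟨hJc, hJ0⟩ := JJ_poly (by omega) n0 ν (c • ν) hu
    obtain ⟨hpc, hp0⟩ := clm_poly ((innerSL ℝ h) ∘L AA L ν) hJc hJ0
    have htest : ∀ (φ : Sp d → ℝ) (N : ℝ), TFn (J + 1) N φ → Cyl ν (R0 / 2) φ →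
        |plInt ν c (fun y => ((innerSL ℝ h) ∘L AA L ν) (JJ n0 ν (c • ν) 1 u y) * φ y)| ≤
          (CA * ‖h‖ * η) * N := by
      intro φ N hφ hφC
      set Φ : Sp d → E := fun y => φ y • h with hΦ
      have hφd := differentiable_of_TFn hφ
      have hΦN : TFn J (N * ‖h‖) Φ := (((hφ.cb).le (Nat.le_succ J)).smul_vec h).tfn
      have hΦC : Cyl ν (R0 / 2) Φ := by
        refine ⟨fun y => ?_, fun y hy => hφC.supp y fun h1 => hy ?_⟩
        · simp only [hΦ]; rw [hφC.const y]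
        · simp only [hΦ]; rw [h1, zero_smul]
      have hΦd : Differentiable ℝ Φ := hφd.smul_const h
      have h1 := hSA Φ _ hΦN hΦC
      have e1 : ∀ y, ⟪e, Φ y⟫_ℝ = 0 := by
        intro y
        simp only [hΦ]
        have h2 := hho ν
        rw [hΛ, Lam_nu L hν] at h2
        rw [inner_smul_right, h2, mul_zero]
      have e2 : ∀ y, dvE L Φ ve y = 0 := by
        intro y
        rw [dvE_cyl L hν hΦd hΦC.const e ve y]
        refine Finset.sum_eq_zero fun j _ => ?_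
        have h2 : fderiv ℝ Φ y (bs j) = fderiv ℝ φ y (bs j) • h := by
          have h3 : HasFDerivAt Φ ((fderiv ℝ φ y).smulRight h) y :=
            (hφd y).hasFDerivAt.smul_const h
          rw [h3.fderiv]
          rfl
        rw [h2, inner_smul_right, ← hΛ, hho, mul_zero]
      have e3 : ∀ y, ⟪L (rk1 ν (JJ n0 ν (c • ν) 1 u y)), Φ y⟫_ℝ =
          ((innerSL ℝ h) ∘L AA L ν) (JJ n0 ν (c • ν) 1 u y) * φ y := by
        intro y
        simp only [hΦ]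
        rw [inner_smul_right, real_inner_comm, mul_comm]
        rfl
      simp_rw [e1, e2, e3] at h1
      simp only [mul_zero, sub_zero, integral_zero, zero_sub, abs_neg] at h1
      refine h1.trans (le_of_eq ?_)
      ring
    have h1 := hpoly ν hν c _ hpc hp0 _ htest x hxc hxR
    have h2 : ((innerSL ℝ h) ∘L AA L ν) (JJ n0 ν (c • ν) 1 u x) = ‖h‖ ^ 2 := by
      have h3 : ((innerSL ℝ h) ∘L AA L ν) (JJ n0 ν (c • ν) 1 u x) = ⟪h, AJ⟫_ℝ := rfl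
      have h4 : AJ = h + Λ (P AJ) := by rw [hh]; abel
      rw [h3]
      conv_lhs => rw [h4]
      rw [inner_add_right, real_inner_comm (Λ (P AJ)) h, hho, add_zero,
        real_inner_self_eq_norm_sq]
    rw [h2, abs_of_nonneg (by positivity)] at h1
    have h5 : ‖h‖ ≤ CP * CA * η := by
      rcases eq_or_lt_of_le (norm_nonneg h) with h0 | h0
      · rw [← h0]; positivity
      · have : ‖h‖ * ‖h‖ ≤ (CP * CA * η) * ‖h‖ := by nlinarith
        exact le_of_mul_le_mul_right this h0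
    have h6 : ‖Λ (P AJ)‖ ≤ B * ‖P AJ‖ :=
      Lam_le L hν e ve (hs1.trans (by norm_num)) hve _
    have h7 : ‖P AJ‖ ≤ |((innerSL ℝ ν) ∘L A) (JJ n0 ν (c • ν) 1 u x)| +
        ‖((tangL ν) ∘L A) (JJ n0 ν (c • ν) 1 u x)‖ := by
      have h8 := norm_le_tang hν (P AJ)
      have h9 : ((tangL ν) ∘L A) (JJ n0 ν (c • ν) 1 u x) = tang ν (P AJ) := tangL_apply _ _
      have h10 : ((innerSL ℝ ν) ∘L A) (JJ n0 ν (c • ν) 1 u x) = ⟪ν, P AJ⟫_ℝ := rfl
      rw [h9, h10]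
      linarith
    have h11 : ‖AJ‖ ≤ ‖h‖ + ‖Λ (P AJ)‖ := by
      calc ‖AJ‖ = ‖h + Λ (P AJ)‖ := by congr 1; rw [hh]; abel
        _ ≤ _ := norm_add_le _ _
    have h12 := hlow ν (JJ n0 ν (c • ν) 1 u x)
    rw [hν, one_mul, ← hAJ] at h12
    set a0 := |((innerSL ℝ ν) ∘L A) (JJ n0 ν (c • ν) 1 u x)| with ha0
    set a1 := ‖((tangL ν) ∘L A) (JJ n0 ν (c • ν) 1 u x)‖ with ha1
    have ha00 : 0 ≤ a0 := abs_nonneg _
    have ha10 : 0 ≤ a1 := norm_nonneg _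
    have h13 : cA * ‖JJ n0 ν (c • ν) 1 u x‖ ≤ (B + CP * CA) * (a0 + a1 + η) := by
      have h14 : B * ‖P AJ‖ ≤ B * (a0 + a1) := by gcongr
      have h15 : 0 ≤ B * η := by positivity
      have h16 : 0 ≤ CP * CA * (a0 + a1) := by positivity
      nlinarith
    have h17 : ‖JJ n0 ν (c • ν) 1 u x‖ ≤ (B + CP * CA) / cA * (a0 + a1 + η) := by
      rw [div_mul_eq_mul_div, le_div_iff₀ hcA]
      linarith
    refine h17.trans ?_
    have h18 : (B + CP * CA) / cA ≤ K / c1 + CA * (2 / c1) + (B + CP * CA) / cA := by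
      have h19 : 0 ≤ CA * (2 / c1) := by positivity
      linarith
    gcongr

end TG


end

section

/-!
# The construction of the world: numbers and one cell  (helper98)
-/

open MeasureTheory Metric Set TrI
open scoped InnerProductSpace ContDiff ENNReal

namespace TG

namespace WDm

open FR FR4 FN

noncomputable section

variable {d : ℕ}

/-! ## Numbers -/

/-- choice of the number of scales -/
lemma scales {κ4 κm : ℝ} (h4 : 0 < κ4) (hm : 0 < κm) : ∃ Im : ℕ, ∀ κ : ℝ, κm ≤ κ → κ ≤ κ4 →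
    ∀ γ : ℝ, γ ≤ 2 / 5 → ∃ I ≤ Im, (2 : ℝ) ^ ((3 / 5 : ℝ) * I) * κ ≤ κ4 ∧
      (2 : ℝ) ^ (-(I : ℝ) * (1 - γ)) ≤ 2 / κ4 * κ := by
  obtain ⟨Im, hIm⟩ := pow_unbounded_of_one_lt (κ4 / κm)
    (Real.one_lt_rpow (by norm_num) (by norm_num) : (1 : ℝ) < (2 : ℝ) ^ (3 / 5 : ℝ))
  have hp : ∀ n : ℕ, (2 : ℝ) ^ ((3 / 5 : ℝ) * (n : ℝ)) = ((2 : ℝ) ^ (3 / 5 : ℝ)) ^ n := by
    intro n
    rw [Real.rpow_mul (by norm_num), Real.rpow_natCast]
  have h1 : (1 : ℝ) ≤ (2 : ℝ) ^ (3 / 5 : ℝ) := Real.one_le_rpow (by norm_num) (by norm_num)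
  refine ⟨Im, ?_⟩
  intro κ hκm hκ4 γ hγ
  have hκ : 0 < κ := hm.trans_le hκm
  have hex : ∃ I : ℕ, κ4 < (2 : ℝ) ^ ((3 / 5 : ℝ) * ((I + 1 : ℕ) : ℝ)) * κ := by
    refine ⟨Im, ?_⟩
    rw [hp, pow_succ]
    rw [div_lt_iff₀ hm] at hIm
    have h2 : ((2 : ℝ) ^ (3 / 5 : ℝ)) ^ Im * κm ≤ ((2 : ℝ) ^ (3 / 5 : ℝ)) ^ Im * κ :=
      mul_le_mul_of_nonneg_left hκm (by positivity)
    have h3 : 0 < ((2 : ℝ) ^ (3 / 5 : ℝ)) ^ Im * κ := by positivity
    nlinarith only [hIm, h2, h4, h1]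
  classical
  refine ⟨Nat.find hex, ?_, ?_, ?_⟩
  · refine Nat.find_min' hex ?_
    rw [hp, pow_succ]
    rw [div_lt_iff₀ hm] at hIm
    have h2 : ((2 : ℝ) ^ (3 / 5 : ℝ)) ^ Im * κm ≤ ((2 : ℝ) ^ (3 / 5 : ℝ)) ^ Im * κ :=
      mul_le_mul_of_nonneg_left hκm (by positivity)
    have h3 : 0 < ((2 : ℝ) ^ (3 / 5 : ℝ)) ^ Im * κ := by positivity
    nlinarith
  · rcases Nat.eq_zero_or_pos (Nat.find hex) with h0 | h0
    · rw [h0]
      simpa using hκ4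
    · have h2 := Nat.find_min hex (Nat.sub_lt h0 one_pos)
      rw [show Nat.find hex - 1 + 1 = Nat.find hex by omega] at h2
      exact not_lt.1 h2
  · have h2 := Nat.find_spec hex
    set I := Nat.find hex
    have h3 : (2 : ℝ) ^ (-(I : ℝ) * (1 - γ)) ≤ (2 : ℝ) ^ (-((3 / 5 : ℝ) * (I : ℝ))) := by
      apply Real.rpow_le_rpow_of_exponent_le (by norm_num)
      have : (0 : ℝ) ≤ I := Nat.cast_nonneg I
      nlinarith only [hγ]
    refine h3.trans ?_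
    have h4' : (2 : ℝ) ^ ((3 / 5 : ℝ) * ((I + 1 : ℕ) : ℝ)) =
        (2 : ℝ) ^ ((3 / 5 : ℝ) * (I : ℝ)) * (2 : ℝ) ^ (3 / 5 : ℝ) := by
      rw [← Real.rpow_add (by norm_num)]
      congr 1
      push_cast
      ring
    rw [h4'] at h2
    have h5 : (2 : ℝ) ^ (3 / 5 : ℝ) ≤ 2 := by
      calc (2 : ℝ) ^ (3 / 5 : ℝ) ≤ (2 : ℝ) ^ (1 : ℝ) :=
            Real.rpow_le_rpow_of_exponent_le (by norm_num) (by norm_num)
        _ = 2 := Real.rpow_one 2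
    rw [Real.rpow_neg (by norm_num)]
    have h6 : 0 < (2 : ℝ) ^ ((3 / 5 : ℝ) * (I : ℝ)) := by positivity
    rw [inv_le_iff_one_le_mul₀ h6]
    have h7 : κ4 ≤ (2 : ℝ) ^ ((3 / 5 : ℝ) * (I : ℝ)) * (2 * κ) := by
      refine h2.le.trans ?_
      rw [mul_assoc]
      exact mul_le_mul_of_nonneg_left (mul_le_mul_of_nonneg_right h5 hκ.le) h6.le
    rw [div_mul_eq_mul_div, div_mul_eq_mul_div, le_div_iff₀ h4]
    linarith only [h7]

/-- the geometric mean -/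
lemma sqrt_le_add {a x κ : ℝ} (ha : 0 ≤ a) (hx : 0 ≤ x) (hκ : 0 < κ) :
    Real.sqrt (a * x) ≤ κ * a + x / κ := by
  rw [Real.sqrt_le_left (by positivity)]
  have h1 : κ * a * (x / κ) = a * x := by field_simp
  linarith only [h1, mul_nonneg ha hx, sq_nonneg (κ * a), sq_nonneg (x / κ)]

/-- the smallness of the errors and the bound E2 -/
lemma num1 {Cf κ κ0 κW a ab B S D : ℝ} (hCf : 0 < Cf) (hκ : 0 < κ) (hκκ : κ ≤ κ0) (hκ1 : κ0 ≤ 1)
    (hκW : 2 * Cf ^ 2 * Real.sqrt κ0 ≤ κW) (ha : 0 < a) (hab : 0 < ab) (h1 : a ≤ Cf * ab)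
    (hS : 0 ≤ S) (hD : 0 ≤ D) (hB : B = S + D) (hBa : B ≤ κ * a) :
    Cf * (B + Real.sqrt (a * D)) ≤ κW * ab ∧ Cf * D ≤ κW * ab ∧
    (Cf * (B + Real.sqrt (a * D))) ^ 2 / ab + Cf * D ≤ (4 * Cf ^ 3 + Cf) * (κ * S + D) := by
  have hB0 : 0 ≤ B := by linarith
  have hDκ : D ≤ κ * a := by linarith
  have hκ0 : 0 < κ0 := by linarith
  have hs0 : 0 ≤ Real.sqrt κ0 := Real.sqrt_nonneg _
  have hκs : κ ≤ Real.sqrt κ0 := hκκ.trans (by
    rw [Real.le_sqrt' hκ0]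
    nlinarith only [hκ, hκ1, hκκ])
  have hsq : Real.sqrt (a * D) ≤ Real.sqrt κ0 * a := by
    rw [Real.sqrt_le_left (by positivity), mul_pow, Real.sq_sqrt hκ0.le]
    nlinarith only [hDκ, ha, hκκ]
  have hs := Real.sqrt_nonneg (a * D)
  have hBs : B ≤ Real.sqrt κ0 * a := hBa.trans (mul_le_mul_of_nonneg_right hκs ha.le)
  have hCf2 : 2 * Cf ^ 2 * Real.sqrt κ0 * ab ≤ κW * ab := mul_le_mul_of_nonneg_right hκW hab.le
  have hk : Real.sqrt κ0 * a ≤ Real.sqrt κ0 * (Cf * ab) := mul_le_mul_of_nonneg_left h1 hs0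
  refine ⟨?_, ?_, ?_⟩
  · refine le_trans ?_ hCf2
    have h2 : B + Real.sqrt (a * D) ≤ 2 * (Real.sqrt κ0 * (Cf * ab)) := by linarith
    have h3 := mul_le_mul_of_nonneg_left h2 hCf.le
    linarith [h3, show Cf * (2 * (Real.sqrt κ0 * (Cf * ab))) = 2 * Cf ^ 2 * Real.sqrt κ0 * ab by ring]
  · refine le_trans ?_ hCf2
    have h2 : D ≤ Real.sqrt κ0 * (Cf * ab) := by linarith
    have h3 := mul_le_mul_of_nonneg_left h2 hCf.le
    have h4 : 0 ≤ Cf ^ 2 * Real.sqrt κ0 * ab := by positivity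
    linarith [h3, show Cf * (Real.sqrt κ0 * (Cf * ab)) = Cf ^ 2 * Real.sqrt κ0 * ab by ring]
  · have h2 : (B + Real.sqrt (a * D)) ^ 2 ≤ 2 * (B ^ 2 + a * D) := by
      have h3 : Real.sqrt (a * D) ^ 2 = a * D := Real.sq_sqrt (by positivity)
      linarith only [h3, sq_nonneg (B - Real.sqrt (a * D))]
    have h3 : B ^ 2 + a * D ≤ a * (κ * B + D) := by nlinarith only [hS, hBa, hD, hB]
    have h4 : (Cf * (B + Real.sqrt (a * D))) ^ 2 / ab ≤ 2 * Cf ^ 3 * (κ * B + D) := by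
      rw [div_le_iff₀ hab, mul_pow]
      have h5 : Cf ^ 2 * (B + Real.sqrt (a * D)) ^ 2 ≤ Cf ^ 2 * (2 * (a * (κ * B + D))) :=
        mul_le_mul_of_nonneg_left (by linarith) (by positivity)
      have h6 : 0 ≤ 2 * Cf ^ 2 * (κ * B + D) := by positivity
      have h7 := mul_le_mul_of_nonneg_left h1 h6
      linarith [h7, show 2 * Cf ^ 2 * (κ * B + D) * (Cf * ab) = 2 * Cf ^ 3 * (κ * B + D) * ab by ring,
        show Cf ^ 2 * (2 * (a * (κ * B + D))) = 2 * Cf ^ 2 * (κ * B + D) * a by ring]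
    have h5 : κ * B + D ≤ 2 * (κ * S + D) := by
      have h6 : κ * D ≤ D := by nlinarith
      have h7 : 0 ≤ κ * S := by positivity
      rw [hB]
      linarith
    have h6 : 0 ≤ κ * S := by positivity
    have h7 := mul_le_mul_of_nonneg_left h5 (by positivity : 0 ≤ 2 * Cf ^ 3)
    linarith only [h4, h7, mul_nonneg hCf.le h6]

/-- the bound of the total error -/
lemma num2 {Cf C4 κ4 κ κm C1 Cm a B S D er dl bl q : ℝ} (hCf : 0 < Cf) (hC4 : 0 < C4)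
    (hκ4 : 0 < κ4) (hκm : 0 < κm) (hκκ : κm ≤ κ) (hCm : C1 ≤ Cm) (ha : 0 < a)
    (hS : 0 ≤ S) (hD : 0 ≤ D) (hB : B = S + D) (her : er = Cf * (B + Real.sqrt (a * D)))
    (hdl : dl = Cf * D) (hbl : bl ≤ Cf * B) (hq : q ≤ 2 / κ4 * κ) :
    er + dl + (C4 * (B + Real.sqrt (a * D) + er + bl + dl) + C4 * q * a + C1 * D) ≤
      (Cf + C4 * (1 + 2 * Cf) + 2 * C4 / κ4) * (S + κ * a) +
      ((Cf + C4 * (1 + Cf)) * (1 + 1 / κm) + Cf + 2 * C4 * Cf + Cm) * D := by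
  have hκ : 0 < κ := by linarith
  have h1 := sqrt_le_add ha.le hD hκ
  have h2 : D / κ ≤ 1 / κm * D := by
    rw [div_eq_inv_mul, one_div]
    exact mul_le_mul_of_nonneg_right (inv_anti₀ hκm hκκ) hD
  have h3 : Real.sqrt (a * D) ≤ κ * a + 1 / κm * D := h1.trans (by linarith)
  set x := Real.sqrt (a * D) with hx
  have h4 : er ≤ Cf * (S + κ * a + (1 + 1 / κm) * D) := by
    rw [her, hB]
    refine mul_le_mul_of_nonneg_left ?_ hCf.le
    linarith only [h2, h1]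
  have h5 : C4 * (B + x + er + bl + dl) ≤ C4 * ((S + κ * a + (1 + 1 / κm) * D) +
      Cf * (S + κ * a + (1 + 1 / κm) * D) + Cf * (S + D) + Cf * D) := by
    refine mul_le_mul_of_nonneg_left ?_ hC4.le
    rw [hB] at hbl ⊢
    linarith
  have h6 : C4 * q * a ≤ 2 * C4 / κ4 * (κ * a) := by
    have := mul_le_mul_of_nonneg_right (mul_le_mul_of_nonneg_left hq hC4.le) ha.le
    refine this.trans (le_of_eq ?_)
    ring
  have h7 : C1 * D ≤ Cm * D := mul_le_mul_of_nonneg_right hCm hD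
  have h8 : 0 ≤ C4 * Cf * (κ * a) := by positivity
  have h9 : 0 ≤ 2 * C4 / κ4 * S := by positivity
  rw [hdl] at *
  nlinarith

/-! ## One cell -/

theorem cell_sheet (hFR2 : StmtFR2) (hFR4 : StmtFR4) (hMA : StmtMA) (hSC : StmtSC)
    (h2 : StmtCT2) (h4 : StmtCT4) (h5 : StmtCT5) {d : ℕ} (V E : Type) [NormedAddCommGroup V]
    [InnerProductSpace ℝ V] [FiniteDimensional ℝ V]
    [NormedAddCommGroup E] [InnerProductSpace ℝ E] [FiniteDimensional ℝ E] [Nontrivial E]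
    (L : (Sp d →L[ℝ] V) →L[ℝ] E) (hd : 2 ≤ d) (hL : CEll L) : ∃ J : ℕ, 4 ≤ J ∧
    ∀ (M c0 : ℝ) (b : Sp d → ℝ), BaseKer (J + 14) M c0 b →
    ∀ ε : ℝ, 0 < ε → ε ≤ 1 / 4 →
    ∀ (γ R0 : ℝ), 0 < γ → γ ≤ 1 / (32 * d) → 8 * d + 400 ≤ R0 →
    ∀ (K Cr : ℝ), 1 ≤ K → 1 ≤ Cr →
    ∃ C2 : ℝ, 1 ≤ C2 ∧ ∀ κW : ℝ, 0 < κW →
    ∃ (CK κ0 : ℝ), 0 < CK ∧ 0 < κ0 ∧ ∀ κm : ℝ, 0 < κm →
    ∃ RN1 : ℝ, 1 ≤ RN1 ∧ ∀ RN : ℝ, RN1 ≤ RN → ∃ (Rm Cs : ℝ), 0 < Cs ∧
    ∀ R : ℝ, Rm ≤ R → ∀ u : Sp d → V, TF u →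
    ∀ s0 : ℝ, 0 < s0 → ∀ e : Cell d → E, Dirs b ε R s0 (fo L u) e →
    ∀ (ν : Cell d → Sp d) (c : Cell d → ℝ), Plns R0 s0 (fo L u) e ν c →
    ∀ κ : ℝ, κm ≤ κ → κ ≤ κ0 → ∀ (Q : Cell d) (a : ℝ), 0 < a →
      a = mC b ε (64 * R0) s0 (fo L u) Q →
      (∀ i : ℕ, mT b ε s0 (fo L u) (up i Q) ≤ K * (2 : ℝ) ^ (γ * i) * a) →
      sh (bC R0 s0 (fo L u) e ν c) Q + sh (dC b ε R s0 (fo L u) e) Q ≤ κ * a →
    ∃ (n : Sp d) (s ab er dl EI : ℝ), ‖n‖ = 1 ∧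
      Sheet J (64 * R0) ab er dl (mQ s0 (fo L u) (e Q) Q) n s ∧
      blc n s (mQ s0 (fo L u) (e Q) Q) (64 * R0) ≤ er ∧ |s| ≤ 64 * R0 + 4 ∧ 0 ≤ dl ∧
      er ≤ κW * ab ∧ dl ≤ κW * ab ∧ a ≤ C2 * ab ∧ ab ≤ C2 * a ∧
      (a ≤ Cr * mC b ε (32 * R0) s0 (fo L u) Q → |s| ≤ 32 * R0 + 4) ∧ 0 ≤ EI ∧
      (∀ (Y : Fin d → Fin d → Sp d → ℝ) (N : ℝ), (∀ i j, TFn (J + 6) N (Y i j)) →
        (∀ i j y, (d : ℝ) ≤ ‖y‖ → Y i j y = 0) →
        |∫ y, mQ s0 (fo L u) (e Q) Q y * ((∑ i, ∑ j, n i * n j * Y i j y) - nt b RN Y y)| ≤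
          N * EI) ∧
      er + dl + EI ≤ CK * (sh (bC R0 s0 (fo L u) e ν c) Q + κ * a) +
        Cs * sh (dC b ε R s0 (fo L u) e) Q ∧
      er ^ 2 / ab + dl ≤ CK * (κ * sh (bC R0 s0 (fo L u) e ν c) Q +
        sh (dC b ε R s0 (fo L u) e) Q) := by
  obtain ⟨J2, g2⟩ := hFR2 d V E L hd hL
  obtain ⟨J4, g4⟩ := hFR4 d V E L hd hL
  refine ⟨max 4 (max J2 J4), le_max_left _ _, ?_⟩
  set J := max 4 (max J2 J4) with hJ
  have hJ2 : J2 ≤ J := (le_max_left _ _).trans (le_max_right _ _)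
  have hJ4 : J4 ≤ J := (le_max_right _ _).trans (le_max_right _ _)
  intro M c0 b hb ε hε hε4 γ R0 hγ hγ1 hR0 K Cr hK hCr
  have hd1 : 1 ≤ d := by omega
  have hdR : (2 : ℝ) ≤ d := by exact_mod_cast hd
  have hε1 : ε ≤ 1 := by linarith only [hε4]
  have hb2 : BaseKer 2 M c0 b := hb.mono_order (by omega)
  have hb10 : BaseKer (J + 10) M c0 b := hb.mono_order (by omega)
  have hR0' : 400 + 8 * (d : ℝ) ≤ R0 := by linarith only [hR0]
  have hR00 : 1 ≤ R0 := by linarith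
  have hγ16 : γ ≤ 1 / (16 * d) := hγ1.trans (one_div_le_one_div_of_le (by positivity)
    (by linarith only []))
  have hγ25 : γ ≤ 2 / 5 := hγ1.trans (by
    rw [div_le_iff₀ (by positivity)]
    linarith only [hdR])
  obtain ⟨Cf, κf, hCf, hκf, g2⟩ := g2 M c0 ε hε hε1 b hb2 R0 γ K hR0' hγ hγ16 hK
  obtain ⟨CF, hCF, gF⟩ := far_mass hMA hSC hd hε hε1 hb2 hR00
  set C2 : ℝ := max 1 Cf with hC2
  set K4 : ℝ := max K C2 with hK4
  have hK41 : 1 ≤ K4 := hK.trans (le_max_left _ _)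
  obtain ⟨C4, κ4, hC4, hκ4, g4⟩ := g4 J hJ4 M c0 ε hε hε1 b hb10 R0 γ K4 hR0' hγ hγ1 hK41
  refine ⟨C2, le_max_left _ _, ?_⟩
  intro κW hκW
  set κ0 : ℝ := min (min 1 κf) (min κ4 (min ((κW / (2 * Cf ^ 2)) ^ 2)
    (1 / (2 * (Cr * (Cf + CF)))))) with hκ0
  have hκ0p : 0 < κ0 := by
    refine lt_min (lt_min one_pos hκf) (lt_min hκ4 (lt_min (by positivity) (by positivity)))
  have hκ01 : κ0 ≤ 1 := (min_le_left _ _).trans (min_le_left _ _)
  have hκ0f : κ0 ≤ κf := (min_le_left _ _).trans (min_le_right _ _)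
  have hκ04 : κ0 ≤ κ4 := (min_le_right _ _).trans (min_le_left _ _)
  have hκ0W : κ0 ≤ (κW / (2 * Cf ^ 2)) ^ 2 :=
    (min_le_right _ _).trans ((min_le_right _ _).trans (min_le_left _ _))
  have hκ0r : κ0 ≤ 1 / (2 * (Cr * (Cf + CF))) :=
    (min_le_right _ _).trans ((min_le_right _ _).trans (min_le_right _ _))
  have hsW : 2 * Cf ^ 2 * Real.sqrt κ0 ≤ κW := by
    have h3 : Real.sqrt κ0 ≤ κW / (2 * Cf ^ 2) := by
      rw [Real.sqrt_le_left (by positivity)]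
      exact hκ0W
    have h4 := mul_le_mul_of_nonneg_left h3 (by positivity : 0 ≤ 2 * Cf ^ 2)
    refine h4.trans (le_of_eq ?_)
    field_simp
  refine ⟨(Cf + C4 * (1 + 2 * Cf) + 2 * C4 / κ4) + (4 * Cf ^ 3 + Cf), κ0, by positivity, hκ0p, ?_⟩
  intro κm hκm
  obtain ⟨Im, gI⟩ := scales hκ4 hκm
  refine ⟨2 ^ Im, one_le_pow₀ (by norm_num), ?_⟩
  intro RN hRN
  have hex : ∀ I : ℕ, ∃ (Rm C1 : ℝ), 0 < C1 ∧ (I ≤ Im → 
      ∀ R : ℝ, Rm ≤ R → ∀ u : Sp d → V, TF u → ∀ s0 : ℝ, 0 < s0 →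
      ∀ e : Cell d → E, Dirs b ε R s0 (fo L u) e →
      ∀ (ν : Cell d → Sp d) (c : Cell d → ℝ), Plns R0 s0 (fo L u) e ν c →
      ∀ (Q : Cell d) (a : ℝ), 0 < a → a = mC b ε (64 * R0) s0 (fo L u) Q →
        (∀ i : ℕ, mT b ε s0 (fo L u) (up i Q) ≤ K4 * (2 : ℝ) ^ (γ * i) * a) →
        (2 : ℝ) ^ ((3 / 5 : ℝ) * I) * bsh b ε R0 R s0 (fo L u) e ν c Q ≤ κ4 * a →
      ∀ (n : Sp d) (s ab ep D : ℝ), 0 ≤ D → a ≤ K4 * ab → ab ≤ K4 * a → |s| ≤ 64 * R0 + 4 →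
        Sheet J (64 * R0) ab ep D (mQ s0 (fo L u) (e Q) Q) n s →
      ∀ (Y : Fin d → Fin d → Sp d → ℝ) (N : ℝ), (∀ i j, TFn (J + 6) N (Y i j)) →
        (∀ i j y, (d : ℝ) ≤ ‖y‖ → Y i j y = 0) →
        |∫ y, mQ s0 (fo L u) (e Q) Q y * ((∑ i, ∑ j, n i * n j * Y i j y) - nt b RN Y y)| ≤
          C4 * N * (bsh b ε R0 R s0 (fo L u) e ν c Q +
              Real.sqrt (a * dsh b ε R s0 (fo L u) e Q) + ep +
              max 0 (blc n s (mQ s0 (fo L u) (e Q) Q) (64 * R0)) + D)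
            + C4 * N * (2 : ℝ) ^ (-(I : ℝ) * (1 - γ)) * a
            + C1 * N * dsh b ε R s0 (fo L u) e Q) := by
    intro I
    by_cases hI : I ≤ Im
    · obtain ⟨Rm, C1, hC1, g⟩ := g4 I RN ((pow_le_pow_right₀ (by norm_num) hI).trans hRN)
      exact ⟨Rm, C1, hC1, fun _ => g⟩
    · exact ⟨0, 1, one_pos, fun h => absurd h hI⟩
  choose Rm C1 hC1 g4' using hex
  set Cm : ℝ := ∑ I ∈ Finset.range (Im + 1), C1 I with hCm
  set RM : ℝ := ∑ I ∈ Finset.range (Im + 1), |Rm I| with hRM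
  have hCm' : ∀ I ≤ Im, C1 I ≤ Cm := fun I hI =>
    Finset.single_le_sum (f := C1) (fun i _ => (hC1 i).le) (Finset.mem_range.2 (by omega))
  have hRM' : ∀ I ≤ Im, Rm I ≤ RM := fun I hI => (le_abs_self _).trans
    (Finset.single_le_sum (f := fun I => |Rm I|) (fun i _ => abs_nonneg _)
      (Finset.mem_range.2 (by omega)))
  have hCm0 : 0 ≤ Cm := Finset.sum_nonneg fun i _ => (hC1 i).le
  refine ⟨max RM (300 * R0), (Cf + C4 * (1 + Cf)) * (1 + 1 / κm) + Cf + 2 * C4 * Cf + Cm,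
    by (clear * - hCf hC4 hκm hCm0; positivity), ?_⟩
  intro R hR u hu s0 h e he ν c hν κ hκ1 hκ2 Q a ha haQ hgr hty
  have hR1 : RM ≤ R := (le_max_left _ _).trans hR
  have hR2 : 300 * R0 ≤ R := (le_max_right _ _).trans hR
  have hκ : 0 < κ := hκm.trans_le hκ1
  have hf := foc L hu
  have hc := fos L hu
  -- the budgets
  obtain ⟨C02, hC02, g02⟩ := h2 d hd1 M c0 ε R hε hε1 (by linarith only [hR0, hR2]) b hb2
  obtain ⟨hD0, ⟨B1, hB1⟩, -⟩ := g02 E (fo L u) hf hc s0 h e he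
  obtain ⟨C5, hC5, g5⟩ := h5 d hd1 M c0 ε hε hε1 b hb2 R0 0 (by linarith only [hR0])
  obtain ⟨g51, -, -, -, -⟩ := g5 E R (by linarith) (fo L u) hf hc s0 h e he ν c hν
  have hb0 : ∀ Q, 0 ≤ bC R0 s0 (fo L u) e ν c Q := fun Q => (g51 Q).2.1
  obtain ⟨B2, hB2⟩ := bC_bdd h4 hd1 hε hε1 hb2 (R0 := R0) (by linarith) hf hc h
    (F := bC R0 s0 (fo L u) e ν c) hC5.le hB1 (fun Q => (g51 Q).2.2)
  set S := sh (bC R0 s0 (fo L u) e ν c) Q with hS
  set D := sh (dC b ε R s0 (fo L u) e) Q with hD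
  have hS0 : 0 ≤ S := sh_nonneg hb0 Q
  have hDD0 : 0 ≤ D := sh_nonneg hD0 Q
  have hBe : bsh b ε R0 R s0 (fo L u) e ν c Q = S + D := by
    have h3 : bsh b ε R0 R s0 (fo L u) e ν c Q =
      ∑' i : ℕ, ((2 : ℝ) ^ (-((i : ℝ) / 4)) * bC R0 s0 (fo L u) e ν c (up i Q) +
        (2 : ℝ) ^ (-((i : ℝ) / 4)) * dC b ε R s0 (fo L u) e (up i Q)) := by
      unfold bsh sh
      congr 1
      funext i
      ring
    rw [h3, (sh_summable hb0 hB2 Q).tsum_add (sh_summable hD0 hB1 Q)]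
    rfl
  have hDe : dsh b ε R s0 (fo L u) e Q = D := rfl
  have hDQ : dC b ε R s0 (fo L u) e Q ≤ D := by
    have h3 := le_sh hD0 hB1 Q 0
    rw [up_zero] at h3
    simpa using h3
  have hBκ : bsh b ε R0 R s0 (fo L u) e ν c Q ≤ κ * a := by rw [hBe]; exact hty
  obtain ⟨n, s, ab, hn, hs, hab1, hab2, hbl, hSh⟩ := g2 R hR2 u hu s0 h e he ν c hν Q a ha haQ
    hgr (hBκ.trans (mul_le_mul_of_nonneg_right (hκ2.trans hκ0f) ha.le))
  have hab0 := hSh.ab0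
  rw [hBe, hDe] at hSh
  rw [hBe] at hbl hBκ
  have hSh' := sheet_mono hSh hJ2 le_rfl
  obtain ⟨n1, n2, n3⟩ := num1 hCf hκ hκ2 hκ01 hsW ha hab0 hab1 hS0 hDD0 rfl hBκ
  obtain ⟨I, hI, hI1, hI2⟩ := gI κ hκ1 (hκ2.trans hκ04) γ hγ25
  set er := Cf * (S + D + Real.sqrt (a * D)) with her
  set dl := Cf * D with hdl
  set bl := max 0 (blc n s (mQ s0 (fo L u) (e Q) Q) (64 * R0)) with hbl'
  have hbl0 : 0 ≤ bl := le_max_left _ _
  have hsq := Real.sqrt_nonneg (a * D)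
  have her0 : 0 ≤ er := by (clear * - hCf hS0 hDD0; positivity)
  have hble : blc n s (mQ s0 (fo L u) (e Q) Q) (64 * R0) ≤ er := by
    refine (le_max_right _ _).trans (hbl.trans ?_)
    exact mul_le_mul_of_nonneg_left (by linarith only [hsq]) hCf.le
  have hgr4 : ∀ i : ℕ, mT b ε s0 (fo L u) (up i Q) ≤ K4 * (2 : ℝ) ^ (γ * i) * a := fun i =>
    (hgr i).trans (mul_le_mul_of_nonneg_right (mul_le_mul_of_nonneg_right (le_max_left _ _)
      (by positivity)) ha.le)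
  have hC2K : C2 ≤ K4 := le_max_right _ _
  have hfC : Cf ≤ C2 := le_max_right _ _
  refine ⟨n, s, ab, er, dl, C4 * (S + D + Real.sqrt (a * D) + er + bl + dl) +
    C4 * (2 : ℝ) ^ (-(I : ℝ) * (1 - γ)) * a + C1 I * D, hn, hSh', hble, hs, by positivity,
    n1, n2, hab1.trans (mul_le_mul_of_nonneg_right hfC hab0.le),
    hab2.trans (mul_le_mul_of_nonneg_right hfC ha.le), ?_, ?_, ?_, ?_, ?_⟩
  · intro hah
    by_contra hcon
    have h3 := gF E R (by linarith only [hR0, hR2]) (fo L u) hf hc s0 h e he.unit Q n s hn (not_le.1 hcon) hs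
    have h4 : mC b ε (32 * R0) s0 (fo L u) Q ≤ (Cf + CF) * (κ * a) := by
      have h5 := (le_max_right 0 _).trans hbl
      have h6 := mul_le_mul_of_nonneg_left hBκ hCf.le
      have h7 : D ≤ κ * a := by linarith only [hty, hS0]
      have h8 := mul_le_mul_of_nonneg_left (hDQ.trans h7) hCF.le
      linarith only [h3, h5, h6, h8]
    have h5 := hah.trans (mul_le_mul_of_nonneg_left h4 (by linarith only [hCr] : 0 ≤ Cr))
    have h6 : Cr * ((Cf + CF) * (κ * a)) ≤ 1 / 2 * a := by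
      have h7 := mul_le_mul_of_nonneg_left (hκ2.trans hκ0r)
        (by positivity : 0 ≤ Cr * (Cf + CF))
      have h8 : Cr * (Cf + CF) * (1 / (2 * (Cr * (Cf + CF)))) = 1 / 2 := by
        have : Cr * (Cf + CF) ≠ 0 := by positivity
        field_simp
      rw [h8] at h7
      have h9 := mul_le_mul_of_nonneg_right h7 ha.le
      linarith only [h9]
    linarith only [ha, h5, h6]
  · have := hC1 I
    (clear * - hC4 hS0 hDD0 hCf ha this; positivity)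
  · intro Y N hY hYs
    have h3 := g4' I hI R ((hRM' I hI).trans hR1) u hu s0 h e he ν c hν Q a ha haQ hgr4
      (by
        rw [hBe]
        have h5 := mul_le_mul_of_nonneg_left hBκ
          (by positivity : 0 ≤ (2 : ℝ) ^ ((3 / 5 : ℝ) * (I : ℝ)))
        have h6 := mul_le_mul_of_nonneg_right hI1 ha.le
        linarith only [h5, h6]) n s ab er dl (by positivity)
      (hab1.trans (mul_le_mul_of_nonneg_right (hfC.trans hC2K) hab0.le))
      (hab2.trans (mul_le_mul_of_nonneg_right (hfC.trans hC2K) ha.le)) hs hSh' Y N hY hYs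
    rw [hBe, hDe] at h3
    refine h3.trans (le_of_eq ?_)
    ring
  · have h3 := num2 (C1 := C1 I) (Cm := Cm) (bl := bl) hCf hC4 hκ4 hκm hκ1 (hCm' I hI) ha hS0
      hDD0 rfl her hdl hbl hI2
    have h4 : 0 ≤ (4 * Cf ^ 3 + Cf) * (S + κ * a) := by (clear * - hCf hS0 hκ ha; positivity)
    linarith only [h3, h4]
  · have h4 : 0 ≤ (Cf + C4 * (1 + 2 * Cf) + 2 * C4 / κ4) * (κ * S + D) := by (clear * - hCf hC4 hκ4 hκ hS0 hDD0; positivity)
    linarith only [n3, h4]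

end

end WDm

end TG


end

section

/-!
# Trace inequality, general operators: monotonicity of the standing hypotheses   (helper32)

No double quotes.
-/

open MeasureTheory Metric Set TrI
open scoped InnerProductSpace ContDiff ENNReal

namespace TG

noncomputable section

variable {d : ℕ}

namespace MonoW

lemma tfn_nonneg {J : ℕ} {N : ℝ} {ζ : Sp d → ℝ} (h : TFn J N ζ) : 0 ≤ N := by
  have := h.2 0 (Nat.zero_le _) 0
  exact (norm_nonneg _).trans this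

lemma zp_mono {R R' D D' : ℝ} {m : Sp d → ℝ} (h : ZP R D m) (hR : R' ≤ R) (hD : D ≤ D') :
    ZP R' D' m := fun H h1 h2 h3 h4 h5 =>
  (neg_le_neg hD).trans (h H h1 h2 h3 h4 fun y hy => h5 y (hR.trans hy))

lemma str_mono {J rm r : ℕ} {R1 Rs Rs' e' e'' a : ℝ} {m : Sp d → ℝ} {ν : Fin r → Sp d}
    {κ : Fin r → Sp d → ℝ} (h : Str J rm R1 Rs e' a m r ν κ) (ha : 0 ≤ a) (hR : Rs' ≤ Rs)
    (he : e' ≤ e'') : Str J rm R1 Rs' e'' a m r ν κ where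
  rle := h.rle
  n1 := h.n1
  k0 := h.k0
  kb := h.kb
  ks := fun i y hy => (h.ks i y hy).trans (by linarith)
  kt := h.kt
  est := fun ζ N h1 h2 => (h.est ζ N h1 fun y hy => h2 y (hR.trans hy)).trans
    (mul_le_mul_of_nonneg_right (mul_le_mul_of_nonneg_right he ha) (tfn_nonneg h1))

lemma mg_mono {K K' γ R R' a D D' : ℝ} {m : Sp d → ℝ} (h : MG K γ R a D m) (ha : 0 ≤ a)
    (hK : K ≤ K') (hR : R' ≤ R) (hD : D ≤ D') : MG K' γ R' a D' m := by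
  intro ρ h1 h2 ζ h3 h4 h5 h6
  refine (h ρ h1 (h2.trans hR) ζ h3 h4 h5 h6).trans (add_le_add ?_ hD)
  exact mul_le_mul_of_nonneg_right (mul_le_mul_of_nonneg_right hK
    (Real.rpow_nonneg (by linarith) _)) ha

section

variable {E : Type} [NormedAddCommGroup E] [InnerProductSpace ℝ E]

lemma wok_mono {JA : ℕ} {C' R0 Rz Rz' : ℝ} {X : Prm d} {W : Wld d E}
    (h : WOK JA C' R0 Rz X W) (hR : Rz' ≤ Rz) : WOK JA C' R0 Rz' X W where
  X_eq := h.X_eq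
  s0_pos := h.s0_pos
  gro := h.gro
  fc := h.fc
  fs := h.fs
  eu := h.eu
  nu := h.nu
  ab0 := h.ab0
  D0 := h.D0
  zp := fun Q => zp_mono (h.zp Q) hR le_rfl
  dir := fun Q Q' hQ' ζ N h1 h2 => h.dir Q Q' hQ' ζ N h1 fun y hy => h2 y (hR.trans hy)

lemma wsh_mono {J : ℕ} {R0 κ κ' : ℝ} {W : Wld d E} {Q : Cell d} (h : WSh J R0 κ W Q)
    (hκ : κ ≤ κ') : WSh J R0 κ' W Q where
  sh := h.sh
  bl := h.bl
  loc := h.loc
  dl0 := h.dl0
  small := h.small.trans (mul_le_mul_of_nonneg_right hκ h.sh.ab0.le)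
  smalld := h.smalld.trans (mul_le_mul_of_nonneg_right hκ h.sh.ab0.le)

lemma wnw_mono {K K' γ R1 Rs Rs' RM RM' : ℝ} {rm : ℕ} {tol tol' : ℕ → ℝ} {W : Wld d E}
    {Q : Cell d} (h : WNw K γ R1 Rs RM rm tol W Q) (hK : K ≤ K') (hs : Rs' ≤ Rs)
    (hM : RM' ≤ RM) (ht : ∀ J, tol J ≤ tol' J) : WNw K' γ R1 Rs' RM' rm tol' W Q where
  a0 := h.a0
  str := by
    obtain ⟨J, r, ν, κ, h1⟩ := h.str
    exact ⟨J, r, ν, κ, str_mono h1 h.a0 hs (ht J)⟩
  mg := mg_mono h.mg h.a0 hK hM le_rfl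

lemma ash_mono {J JA : ℕ} {R0 κ κ' Kc : ℝ} {W : Wld d E} {Q : Cell d}
    (h : Ash J JA R0 κ Kc W Q) (hκ : κ ≤ κ') : Ash J JA R0 κ' Kc W Q :=
  ⟨h.1, wsh_mono h.2.1 hκ, fun Q' hQ' =>
    ⟨(h.2.2 Q' hQ').1, wsh_mono (h.2.2 Q' hQ').2.1 hκ, (h.2.2 Q' hQ').2.2⟩⟩

end

end MonoW

end

end TG


end

section

/-!
# MODULE WD: the world exists  (helper98)
-/

open MeasureTheory Metric Set TrI
open scoped InnerProductSpace ContDiff ENNReal

namespace TG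

noncomputable section

open FR FR4 FN WDm in
theorem stmtWD (hLN : StmtLN) (hFR2 : StmtFR2) (hFR4 : StmtFR4) (hMA : StmtMA) (hSC : StmtSC)
    (h2 : StmtCT2) (h4 : StmtCT4) (h5 : StmtCT5) (h8 : StmtCT8) (h9 : StmtCT9) (hNS : StmtNS) :
    StmtWD := by
  intro d V E _ _ _ _ _ _ _ L hd hL
  obtain ⟨J, hJ, gc⟩ := cell_sheet hFR2 hFR4 hMA hSC h2 h4 h5 V E L hd hL
  refine ⟨J, hJ, ?_⟩
  intro M c0 b hb C' ε p0 A hC' hε hε4 JA γ R0 hγ hγ1 hR0 K Cr hK hCr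
  have hd1 : 1 ≤ d := by omega
  have hdR : (2 : ℝ) ≤ d := by exact_mod_cast hd
  have hε1 : ε ≤ 1 := by linarith only [hε4]
  have hb2 : BaseKer 2 M c0 b := hb.mono_order (by omega)
  have hR0' : 400 + 8 * (d : ℝ) ≤ R0 := by linarith
  have hγ8 : γ ≤ 1 / (8 * d) := hγ1.trans (one_div_le_one_div_of_le (by positivity)
    (by linarith))
  obtain ⟨C8, hC8, gN⟩ := hLN d V E L hd hL M c0 ε hε hε1 b hb2
  obtain ⟨C2, hC2, gc⟩ := gc M c0 b hb ε hε hε4 γ R0 hγ hγ1 hR0 K Cr hK hCr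
  obtain ⟨CZ, hCZ, gZ⟩ := zp_dir h8 h9 hNS hd1 hε hε1 hb2 (R0 := R0) (by linarith) JA
  have hC2C : C2 ≤ C2 ^ 2 * Cr := by nlinarith only [hC2, hCr]
  refine ⟨C2 ^ 2 * Cr, C8 * K, by linarith only [hC2, hC2C], by nlinarith only [hK, hC8], ?_⟩
  intro κW hκW
  obtain ⟨CK, κ0, hCK, hκ0, gc⟩ := gc κW hκW
  refine ⟨CK, κ0, hCK, hκ0, ?_⟩
  intro κm hκm
  obtain ⟨RN1, hRN1, gc⟩ := gc κm hκm
  refine ⟨RN1, hRN1, ?_⟩
  intro RN hRN Rs RM tol hRs htol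
  obtain ⟨Rm1, Cs, hCs, gc⟩ := gc RN hRN
  obtain ⟨rm, r0, R1, d0, CD, hd0, hd01, hCD, Rm2, gN⟩ :=
    gN R0 γ K hR0' hγ hγ8 hK Rs RM tol hRs htol
  refine ⟨R1, rm, ?_⟩
  intro Rz
  obtain ⟨Rm3, gZ⟩ := gZ Rz
  refine ⟨max Rm1 (max Rm2 (max Rm3 (2 * d + 12))), d0, CD + CZ, Cs, max r0 (max (JA + 2) 10),
    hd0, hd01, by linarith, hCs, (le_max_right _ _).trans (le_max_right _ _), ?_⟩
  intro R hR u hu μ hμ s0 h e he ν c hν κ hκ1 hκ2
  have hR1 : Rm1 ≤ R := (le_max_left _ _).trans hR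
  have hR2 : Rm2 ≤ R := (le_max_left _ _).trans ((le_max_right _ _).trans hR)
  have hR3 : Rm3 ≤ R := (le_max_left _ _).trans ((le_max_right _ _).trans
    ((le_max_right _ _).trans hR))
  have hf := foc L hu
  have hc := fos L hu
  have hD0 : ∀ Q, 0 ≤ dC b ε R s0 (fo L u) e Q := dC_nonneg b ε R h _ he.unit
  set r1 := max r0 (max (JA + 2) 10) with hr1
  have hr0 : r0 ≤ r1 := le_max_left _ _
  have hrJ : JA + 2 ≤ r1 := (le_max_left _ _).trans (le_max_right _ _)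
  set a := mC b ε (64 * R0) s0 (fo L u) with ha
  set St := Strc γ K d0 a (mT b ε s0 (fo L u)) (dC b ε R s0 (fo L u) e) with hSt
  set TA := TyA κ a (dC b ε R s0 (fo L u) e) (bC R0 s0 (fo L u) e ν c) with hTA
  set ah := mC b ε (32 * R0) s0 (fo L u) with hah
  set bf := sh (bC R0 s0 (fo L u) e ν c) with hbf
  set df := sh (dC b ε R s0 (fo L u) e) with hdf
  have ha0 : ∀ Q, 0 ≤ a Q := by
    intro Q
    simp only [ha, mC, ma]
    have := lev_pos h Q.1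
    exact mul_nonneg (by positivity) (integral_nonneg fun y => norm_nonneg _)
  -- the data of the cells
  have hex : ∀ Q : Cell d, ∃ (n : Sp d) (s ab er dl EI : ℝ), ‖n‖ = 1 ∧ 0 ≤ ab ∧ 0 ≤ EI ∧
      (Q ∈ St → Q ∈ TA →
      Sheet J (64 * R0) ab er dl (mQ s0 (fo L u) (e Q) Q) n s ∧
      blc n s (mQ s0 (fo L u) (e Q) Q) (64 * R0) ≤ er ∧ |s| ≤ 64 * R0 + 4 ∧ 0 ≤ dl ∧
      er ≤ κW * ab ∧ dl ≤ κW * ab ∧ a Q ≤ C2 * ab ∧ ab ≤ C2 * a Q ∧
      (a Q ≤ Cr * ah Q → |s| ≤ 32 * R0 + 4) ∧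
      (∀ (Y : Fin d → Fin d → Sp d → ℝ) (N : ℝ), (∀ i j, TFn (J + 6) N (Y i j)) →
        (∀ i j y, (d : ℝ) ≤ ‖y‖ → Y i j y = 0) →
        |∫ y, mQ s0 (fo L u) (e Q) Q y * ((∑ i, ∑ j, n i * n j * Y i j y) - nt b RN Y y)| ≤
          N * EI) ∧
      er + dl + EI ≤ CK * (bf Q + κ * a Q) + Cs * df Q ∧
      er ^ 2 / ab + dl ≤ CK * (κ * bf Q + df Q)) := by
    intro Q
    by_cases hQ : Q ∈ St ∧ Q ∈ TA
    · obtain ⟨n, s, ab, er, dl, EI, g1, g2, g3, g4, g5, g6, g7, g8, g9, g10, g11, g12, g13,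
        g14⟩ := gc R hR1 u hu s0 h e he ν c hν κ hκ1 hκ2 Q (a Q) hQ.1.1 rfl hQ.1.2.1 hQ.2
      exact ⟨n, s, ab, er, dl, EI, g1, g2.ab0.le, g11, fun _ _ =>
        ⟨g2, g3, g4, g5, g6, g7, g8, g9, g10, g12, g13, g14⟩⟩
    · refine ⟨EuclideanSpace.single (⟨0, hd1⟩ : Fin d) (1 : ℝ), 0, 0, 0, 0, 0, by simp, le_rfl,
        le_rfl, fun h1 h2 => absurd ⟨h1, h2⟩ hQ⟩
  choose nv sv ab er dl EI hn hab hEI hX using hex
  classical
  set W : Wld d E :=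
    { X := ⟨b, RN, ε, p0, A⟩, s0 := s0, μ := μ, f := fo L u, e := e,
      kd := fun Q => if Q ∈ St then (if Q ∈ TA then 0 else 1) else 2,
      nv := nv, sv := sv, ab := ab, er := er, dl := dl,
      D := fun Q => (CD + CZ) * dsm r1 (dC b ε R s0 (fo L u) e) Q, a := a } with hW
  have hWm : ∀ Q, W.m Q = mQ s0 (fo L u) (e Q) Q := fun Q => rfl
  have hdm : ∀ Q, 0 ≤ dsm r1 (dC b ε R s0 (fo L u) e) Q := fun Q => dsm_nonneg hD0 Q
  refine ⟨W, EI, rfl, rfl, rfl, rfl, rfl, rfl, fun Q => rfl, ?_⟩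
  constructor
  case ok =>
    refine ⟨rfl, h, hμ, hf, hc, he.unit, hn, hab,
      fun Q => mul_nonneg (by linarith) (hdm Q), ?_, ?_⟩
    · intro Q
      have h1 := (gZ E R hR3 (fo L u) hf hc s0 h e he Q).1
      refine MonoW.zp_mono h1 le_rfl ?_
      exact mul_le_mul (by linarith) (dsm_mono hrJ hD0 Q) (dsm_nonneg hD0 Q) (by linarith)
    · intro Q Q' hQ' ζ N hζ hζs
      have h1 := (gZ E R hR3 (fo L u) hf hc s0 h e he Q).2 Q' hQ' ζ N hζ hζs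
      refine h1.trans (mul_le_mul_of_nonneg_left ?_ (MonoW.tfn_nonneg hζ))
      exact mul_le_mul (by linarith) (dsm_mono hrJ hD0 Q) (dsm_nonneg hD0 Q) (by linarith)
  case kd0 =>
    intro Q
    show (if Q ∈ St then (if Q ∈ TA then 0 else 1) else 2) = 0 ↔ _
    by_cases h1 : Q ∈ St <;> by_cases h2 : Q ∈ TA <;> simp [h1, h2]
  case kd1 =>
    intro Q
    show (if Q ∈ St then (if Q ∈ TA then 0 else 1) else 2) = 1 ↔ _
    by_cases h1 : Q ∈ St <;> by_cases h2 : Q ∈ TA <;> simp [h1, h2]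
  case a_pos => exact fun Q hQ => hQ.1
  case a0 => exact ha0
  case str =>
    intro Q hQ
    obtain ⟨g1, g2⟩ := gN R hR2 u hu s0 h e he Q hQ
    refine ⟨ha0 Q, g1, MonoW.mg_mono g2 (ha0 Q) le_rfl le_rfl ?_⟩
    exact mul_le_mul (by linarith) (dsm_mono hr0 hD0 Q) (dsm_nonneg hD0 Q) (by linarith)
  case she =>
    intro Q hQ hQ'
    obtain ⟨g2, g3, g4, g5, g6, g7, g8, g9, g10, g12, g13, g14⟩ := hX Q hQ hQ'
    exact ⟨g2, g3, g4, g5, g6, g7⟩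
  case EI0 => exact hEI
  case ifc =>
    intro Q hQ hQ'
    obtain ⟨g2, g3, g4, g5, g6, g7, g8, g9, g10, g12, g13, g14⟩ := hX Q hQ hQ'
    exact g12
  case ab_le =>
    intro Q hQ hQ'
    obtain ⟨g2, g3, g4, g5, g6, g7, g8, g9, g10, g12, g13, g14⟩ := hX Q hQ hQ'
    exact g9.trans (mul_le_mul_of_nonneg_right hC2C (ha0 Q))
  case ab_cmp =>
    intro Q hQ hQ' Q1 hQ1 hQ1' hle
    obtain ⟨g2, g3, g4, g5, g6, g7, g8, g9, g10, g12, g13, g14⟩ := hX Q hQ hQ'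
    obtain ⟨k2, k3, k4, k5, k6, k7, k8, k9, k10, k12, k13, k14⟩ := hX Q1 hQ1 hQ1'
    have h1 : ab Q1 ≤ C2 * (Cr * (C2 * ab Q)) := k9.trans (mul_le_mul_of_nonneg_left
      (hle.trans (mul_le_mul_of_nonneg_left g8 (by linarith))) (by linarith))
    refine h1.trans (le_of_eq ?_)
    show _ = C2 ^ 2 * Cr * ab Q
    ring
  case sv_le =>
    intro Q hQ hQ' hle
    obtain ⟨g2, g3, g4, g5, g6, g7, g8, g9, g10, g12, g13, g14⟩ := hX Q hQ hQ'
    exact g10 hle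
  case E1_le =>
    intro Q hQ hQ'
    obtain ⟨g2, g3, g4, g5, g6, g7, g8, g9, g10, g12, g13, g14⟩ := hX Q hQ hQ'
    exact g13
  case E2_le =>
    intro Q hQ hQ'
    obtain ⟨g2, g3, g4, g5, g6, g7, g8, g9, g10, g12, g13, g14⟩ := hX Q hQ hQ'
    exact g14

end

end TG


end
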