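import Mathlib
import Pool.Agent.TRM.C02
import Pool.Agent.TRM.C07
import Pool.Agent.TRM.C08
import Pool.Agent.TRM.C10
import Pool.Agent.TRM.C13
import Pool.Agent.TRM.C15
import Pool.Agent.TRM.C17
import Pool.Agent.TRM.C19
import Pool.Agent.TRM.C28

/-! Parts: TG.B1, TG.CS1, TG.WTb, TG.W5a, TG.W5b, TG.W4a, TG.W4b, TG.W5 -/

section

/-!
# Module B1 (12.1): the Newton field against the structure theorem
-/

open MeasureTheory Metric Set TrI Filter
open scoped InnerProductSpace ContDiff Topology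

set_option autoImplicit false

namespace TG

noncomputable section

namespace B1m

open SMm

variable {d : ℕ}

/-! ## scaling of the hypotheses -/

lemma itF_const_mul {n : ℕ} {H : Sp d → ℝ} (hH : ContDiff ℝ n H) (a : ℝ) (y : Sp d) :
    ‖iteratedFDeriv ℝ n (fun x => a * H x) y‖ = |a| * ‖iteratedFDeriv ℝ n H y‖ := by
  have e : iteratedFDeriv ℝ n (fun x => a * H x) y = a • iteratedFDeriv ℝ n H y :=
    iteratedFDeriv_const_smul_apply' (a := a) hH.contDiffAt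
  rw [e, norm_smul, Real.norm_eq_abs]

lemma ZP_scale {R D M : ℝ} {m : Sp d → ℝ} (hZ : ZP R D m) {H : Sp d → ℝ} (hH : ContDiff ℝ 2 H)
    (h0 : ∀ y, 0 ≤ H y) (h1 : ∀ y, H y ≤ M) (h2 : ∀ y, ‖iteratedFDeriv ℝ 2 H y‖ ≤ M)
    (hs : ∀ y, R ≤ ‖y‖ → H y = 0) : -(M * D) ≤ ∫ y, m y * H y := by
  have hM0 : 0 ≤ M := (h0 0).trans (h1 0)
  rcases hM0.eq_or_lt with hM | hM
  · have hz : ∀ y, H y = 0 := fun y => le_antisymm (by rw [hM]; exact h1 y) (h0 y)
    simp [hz, ← hM]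
  · have h := hZ (fun y => M⁻¹ * H y) (contDiff_const.mul hH)
      (fun y => mul_nonneg (inv_nonneg.2 hM.le) (h0 y))
      (fun y => by
        calc M⁻¹ * H y ≤ M⁻¹ * M := mul_le_mul_of_nonneg_left (h1 y) (inv_nonneg.2 hM.le)
          _ = 1 := inv_mul_cancel₀ hM.ne')
      (fun y => by
        rw [itF_const_mul (n := 2) hH, abs_of_nonneg (inv_nonneg.2 hM.le)]
        calc M⁻¹ * ‖iteratedFDeriv ℝ 2 H y‖ ≤ M⁻¹ * M :=
              mul_le_mul_of_nonneg_left (h2 y) (inv_nonneg.2 hM.le)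
          _ = 1 := inv_mul_cancel₀ hM.ne')
      (fun y hy => by rw [hs y hy, mul_zero])
    have e : (fun y => m y * (M⁻¹ * H y)) = fun y => M⁻¹ * (m y * H y) := by
      funext y; ring
    rw [e, integral_const_mul] at h
    have h3 := mul_le_mul_of_nonneg_left h hM.le
    rw [← mul_assoc, mul_inv_cancel₀ hM.ne', one_mul] at h3
    linarith

lemma MG_scale {K γ R a D M ρ : ℝ} {m : Sp d → ℝ} (h : MG K γ R a D m) (h1 : 1 ≤ ρ) (hR : ρ ≤ R)
    {ζ : Sp d → ℝ} (hζ : ContDiff ℝ 2 ζ) (hb : ∀ y, |ζ y| ≤ M)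
    (hb2 : ∀ y, ‖iteratedFDeriv ℝ 2 ζ y‖ ≤ M) (hs : ∀ y, ρ ≤ ‖y‖ → ζ y = 0) :
    |∫ y, m y * ζ y| ≤ M * (K * ρ ^ ((d : ℝ) - 1 + γ) * a + D) := by
  have hM0 : 0 ≤ M := (abs_nonneg _).trans (hb 0)
  rcases hM0.eq_or_lt with hM | hM
  · have hz : ∀ y, ζ y = 0 := fun y => abs_nonpos_iff.1 (by rw [hM]; exact hb y)
    simp [hz, ← hM]
  · have h := h ρ h1 hR (fun y => M⁻¹ * ζ y) (contDiff_const.mul hζ)
      (fun y => by
        rw [abs_mul, abs_of_nonneg (inv_nonneg.2 hM.le)]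
        calc M⁻¹ * |ζ y| ≤ M⁻¹ * M := mul_le_mul_of_nonneg_left (hb y) (inv_nonneg.2 hM.le)
          _ = 1 := inv_mul_cancel₀ hM.ne')
      (fun y => by
        rw [itF_const_mul (n := 2) hζ, abs_of_nonneg (inv_nonneg.2 hM.le)]
        calc M⁻¹ * ‖iteratedFDeriv ℝ 2 ζ y‖ ≤ M⁻¹ * M :=
              mul_le_mul_of_nonneg_left (hb2 y) (inv_nonneg.2 hM.le)
          _ = 1 := inv_mul_cancel₀ hM.ne')
      (fun y hy => by rw [hs y hy, mul_zero])
    have e : (fun y => m y * (M⁻¹ * ζ y)) = fun y => M⁻¹ * (m y * ζ y) := by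
      funext y; ring
    rw [e, integral_const_mul, abs_mul, abs_of_nonneg (inv_nonneg.2 hM.le)] at h
    have h3 := mul_le_mul_of_nonneg_left h hM.le
    rwa [← mul_assoc, mul_inv_cancel₀ hM.ne', one_mul] at h3

/-! ## supports -/

lemma cs_of {F : Type*} [NormedAddCommGroup F] {g : Sp d → F} {ρ : ℝ}
    (hs : ∀ y, ρ < ‖y‖ → g y = 0) : HasCompactSupport g := by
  refine HasCompactSupport.intro (isCompact_closedBall (0 : Sp d) ρ) fun y hy => hs y ?_
  rw [mem_closedBall, dist_zero_right, not_le] at hy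
  exact hy

lemma ev_zero {F : Type*} [NormedAddCommGroup F] {g : Sp d → F} {ρ : ℝ}
    (hs : ∀ y, ρ < ‖y‖ → g y = 0) {y : Sp d} (hy : ρ < ‖y‖) : g =ᶠ[𝓝 y] fun _ => 0 := by
  filter_upwards [(isOpen_lt continuous_const continuous_norm).mem_nhds hy] with z hz
  exact hs z hz

lemma it_vs {F : Type*} [NormedAddCommGroup F] [NormedSpace ℝ F] {g : Sp d → F} {ρ : ℝ}
    (hs : ∀ y, ρ < ‖y‖ → g y = 0) (j : ℕ) (y : Sp d) (hy : ρ < ‖y‖) :
    iteratedFDeriv ℝ j g y = 0 := by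
  have h := ((ev_zero hs hy).iteratedFDeriv ℝ j).self_of_nhds
  rw [h]
  exact congrFun (iteratedFDeriv_zero_fun (𝕜 := ℝ) (E := Sp d) (F := F) (n := j)) y

lemma fd_vs {g : Sp d → ℝ} {ρ : ℝ} (hs : ∀ y, ρ < ‖y‖ → g y = 0) (w : Sp d) (y : Sp d)
    (hy : ρ < ‖y‖) : fderiv ℝ g y w = 0 := by
  rw [(ev_zero hs hy).fderiv_eq]
  simp

/-! ## decay of averages -/

lemma avk_decay {J : ℕ} {Mb cb : ℝ} {b : Sp d → ℝ} (hb : BaseKer J Mb cb b) {F : Type*}
    [NormedAddCommGroup F] [NormedSpace ℝ F] {ρ M R : ℝ} (hR : 0 < R) {g : Sp d → F}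
    (hg : Continuous g) (hM : ∀ y, ‖g y‖ ≤ M) (hs : ∀ y, ρ < ‖y‖ → g y = 0) (y : Sp d) :
    ‖avk b R g y‖ ≤ b 0 * volume.real (closedBall (0 : Sp d) ρ) * (R ^ d)⁻¹ * M := by
  have hb0 : 0 ≤ b 0 := hb.nonneg 0
  have hgc : HasCompactSupport g := cs_of hs
  have h1 : ‖avk b R g y‖ ≤ ∫ x, b 0 * ‖g (y + R • x)‖ := by
    refine norm_integral_le_of_norm_le ?_ (Eventually.of_forall fun x => ?_)
    · refine Integrable.const_mul ?_ _
      have h2 : Integrable (fun z => ‖g (y + z)‖) :=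
        ((hg.integrable_of_hasCompactSupport hgc).norm).comp_add_left y
      exact h2.comp_smul hR.ne'
    · rw [norm_smul, Real.norm_of_nonneg (hb.nonneg x)]
      exact mul_le_mul_of_nonneg_right (hb.mono 0 x (by simp)) (norm_nonneg _)
  refine h1.trans ?_
  rw [integral_const_mul]
  have h2 : ∫ x, ‖g (y + R • x)‖ = |(R ^ d)⁻¹| * ∫ x, ‖g x‖ := by
    have h3 := Measure.integral_comp_smul (volume : Measure (Sp d)) (fun z => ‖g (y + z)‖) R
    rw [integral_add_left_eq_self (fun z => ‖g z‖) y] at h3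
    rw [h3]
    simp
  rw [h2, abs_of_nonneg (by positivity)]
  have h4 : ∫ x, ‖g x‖ ≤ M * volume.real (closedBall (0 : Sp d) ρ) := by
    rw [← setIntegral_eq_integral_of_forall_compl_eq_zero (s := closedBall (0 : Sp d) ρ)]
    · have h5 := norm_setIntegral_le_of_norm_le_const (μ := volume) (f := fun x => ‖g x‖)
        (s := closedBall (0 : Sp d) ρ) (C := M) measure_closedBall_lt_top
        (fun x _ => by rw [norm_norm]; exact hM x)
      exact (le_abs_self _).trans h5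
    · intro x hx
      rw [mem_closedBall, dist_zero_right, not_le] at hx
      rw [hs x hx, norm_zero]
  calc b 0 * ((R ^ d)⁻¹ * ∫ x, ‖g x‖) ≤
        b 0 * ((R ^ d)⁻¹ * (M * volume.real (closedBall (0 : Sp d) ρ))) := by gcongr
    _ = b 0 * volume.real (closedBall (0 : Sp d) ρ) * (R ^ d)⁻¹ * M := by ring

/-! ## admissible functions -/

/-- smooth functions in the ball of radius ρ with derivatives up to order two bounded by M -/
structure Ad (ρ M : ℝ) (g : Sp d → ℝ) : Prop where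
  sm : ContDiff ℝ ∞ g
  bf : BF 2 M g
  vs : ∀ y, ρ < ‖y‖ → g y = 0

lemma Ad.cs {ρ M : ℝ} {g : Sp d → ℝ} (h : Ad ρ M g) : HasCompactSupport g := cs_of h.vs

lemma Ad.mono {ρ M ρ' M' : ℝ} {g : Sp d → ℝ} (h : Ad ρ M g) (hρ : ρ ≤ ρ') (hM : M ≤ M') :
    Ad ρ' M' g := ⟨h.sm, h.bf.mono hM, fun y hy => h.vs y (by linarith)⟩

lemma Ad.add {ρ M M' : ℝ} {g g' : Sp d → ℝ} (h : Ad ρ M g) (h' : Ad ρ M' g') :
    Ad ρ (M + M') (fun y => g y + g' y) :=
  ⟨h.sm.add h'.sm, h.bf.add h'.bf, fun y hy => by rw [h.vs y hy, h'.vs y hy, add_zero]⟩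

lemma Ad.cmul {ρ M : ℝ} {g : Sp d → ℝ} (h : Ad ρ M g) (a : ℝ) :
    Ad ρ (|a| * M) (fun y => a * g y) :=
  ⟨contDiff_const.mul h.sm, h.bf.const_mul a, fun y hy => by rw [h.vs y hy, mul_zero]⟩

lemma Ad.avk {J : ℕ} {Mb cb : ℝ} {b : Sp d → ℝ} (hb : BaseKer J Mb cb b) {ρ M R : ℝ}
    (hR : 0 ≤ R) {g : Sp d → ℝ} (h : Ad ρ M g) : Ad (ρ + R) M (avk b R g) where
  sm := contDiff_infty.2 fun n => hb.ak.avk_contDiff (h.sm.of_le (by exact_mod_cast le_top)) R
  bf := ⟨hb.ak.avk_contDiff h.bf.smooth R, fun j hj y =>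
    hb.ak.norm_iteratedFDeriv_avk_le h.bf.smooth R hj (h.bf.bd j hj) y⟩
  vs := by
    intro y hy
    unfold TrI.avk
    refine integral_eq_zero_of_ae (Eventually.of_forall fun x => ?_)
    simp only [smul_eq_mul, Pi.zero_apply]
    by_cases hx : 1 ≤ ‖x‖
    · rw [hb.ak.supp x hx, zero_mul]
    · push Not at hx
      rw [h.vs, mul_zero]
      have h4 : ‖y‖ ≤ ‖y + R • x‖ + ‖R • x‖ := by
        have := norm_sub_le (y + R • x) (R • x)
        rwa [add_sub_cancel_right] at this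
      have h5 : ‖R • x‖ ≤ R := by
        rw [norm_smul, Real.norm_of_nonneg hR]
        nlinarith
      linarith

lemma BF_sum {ι : Type*} {J : ℕ} {N : ι → ℝ} {g : ι → Sp d → ℝ} (I : Finset ι)
    (h : ∀ i, BF J (N i) (g i)) : BF J (∑ i ∈ I, N i) (fun x => ∑ i ∈ I, g i x) := by
  classical
  induction I using Finset.induction_on with
  | empty =>
    simp only [Finset.sum_empty]
    have := BF.const (G := Sp d) (J := J) 0
    simpa using this
  | insert i I hi ih =>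
    have h1 := (h i).add ih
    rw [Finset.sum_insert hi]
    refine ⟨?_, ?_⟩
    · have := h1.smooth
      simpa only [Finset.sum_insert hi] using this
    · have := h1.bd
      simpa only [Finset.sum_insert hi] using this

/-! ## plane integrals -/

lemma pl_BF (hPF : StmtPF) (hd : 1 ≤ d) (ρ : ℝ) : ∃ C : ℝ, 0 < C ∧ ∀ ν : Sp d, ‖ν‖ = 1 →
    ∀ (g : Sp d → ℝ) (M : ℝ), Ad ρ M g → BF 2 (C * M) (fun c => plInt ν c g) := by
  obtain ⟨C, hC, hb⟩ := (hPF d hd).1 ρ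
  refine ⟨C, hC, fun ν hν g M hg => ?_⟩
  obtain ⟨-, -, h3, h4, -, -⟩ := (hPF d hd).2 ν hν
  have hcs : HasCompactSupport g := hg.cs
  have hsm1 : ContDiff ℝ ∞ (NN.dn ν g) := NN.dn_smooth hg.sm
  have hsm2 : ContDiff ℝ ∞ (NN.dn ν (NN.dn ν g)) := NN.dn_smooth hsm1
  have hB1 : BF 1 M (NN.dn ν g) := BF.fderiv_apply hg.bf ν hν.le
  have hB2 : BF 0 M (NN.dn ν (NN.dn ν g)) := BF.fderiv_apply hB1 ν hν.le
  have hs1 : ∀ y, ρ < ‖y‖ → NN.dn ν g y = 0 := fd_vs hg.vs ν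
  have hs2 : ∀ y, ρ < ‖y‖ → NN.dn ν (NN.dn ν g) y = 0 := fd_vs hs1 ν
  have ht : ∀ {f : Sp d → ℝ}, (∀ y, ρ < ‖y‖ → f y = 0) → ∀ y, f y ≠ 0 → ‖tang ν y‖ ≤ ρ := by
    intro f hf y hy
    refine (PF.norm_tang_le hν y).trans ?_
    by_contra hcon
    push Not at hcon
    exact hy (hf y hcon)
  have b0 : ∀ c, |plInt ν c g| ≤ C * M :=
    hb ν hν g M hg.sm.continuous (fun y => hg.bf.norm_le y) (ht hg.vs)
  have b1 : ∀ c, |plInt ν c (NN.dn ν g)| ≤ C * M :=
    hb ν hν _ M hsm1.continuous (fun y => hB1.norm_le y) (ht hs1)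
  have b2 : ∀ c, |plInt ν c (NN.dn ν (NN.dn ν g))| ≤ C * M :=
    hb ν hν _ M hsm2.continuous (fun y => hB2.norm_le y) (ht hs2)
  have d0 : deriv (fun c => plInt ν c g) = fun c => plInt ν c (NN.dn ν g) :=
    funext fun c => (h3 g (hg.sm.of_le (by exact_mod_cast le_top)) hcs c).deriv
  have d1 : deriv (fun c => plInt ν c (NN.dn ν g)) = fun c => plInt ν c (NN.dn ν (NN.dn ν g)) :=
    funext fun c => (h3 _ (hsm1.of_le (by exact_mod_cast le_top)) (cs_of hs1) c).deriv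
  refine ⟨h4 2 g (contDiff_infty.1 hg.sm 2) hcs, fun j hj c => ?_⟩
  rw [norm_iteratedFDeriv_eq_norm_iteratedDeriv, Real.norm_eq_abs]
  interval_cases j
  · rw [iteratedDeriv_zero]; exact b0 c
  · rw [iteratedDeriv_one, d0]; exact b1 c
  · rw [iteratedDeriv_succ, iteratedDeriv_one, d0, d1]; exact b2 c

lemma pl_zero {ν : Sp d} (hν : ‖ν‖ = 1) {g : Sp d → ℝ} {ρ : ℝ} (hs : ∀ y, ρ < ‖y‖ → g y = 0)
    {c : ℝ} (hc : ρ < |c|) : plInt ν c g = 0 := by
  unfold plInt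
  refine integral_eq_zero_of_ae (Eventually.of_forall fun y => ?_)
  refine hs _ (hc.trans_le ?_)
  have h1 : ⟪ν, c • ν + (y : Sp d)⟫_ℝ = c := by
    rw [inner_add_right, inner_smul_right, real_inner_self_eq_norm_sq, hν, PF.inner_pl]
    ring
  have h2 := abs_real_inner_le_norm ν (c • ν + (y : Sp d))
  rw [h1, hν, one_mul] at h2
  exact h2

/-- averages and plane integrals -/
lemma pl_avk (hNN : StmtNN) (hd : 2 ≤ d) {Mb cb : ℝ} {b : Sp d → ℝ}
    (hb : BaseKer 2 Mb cb b) {R : ℝ} (hR : 0 < R) {g : Sp d → ℝ} (hg : ContDiff ℝ ∞ g)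
    (hgc : HasCompactSupport g) {ν : Sp d} (hν : ‖ν‖ = 1) (c : ℝ) :
    ∫ x, b x * plInt ν (c + R * ⟪ν, x⟫_ℝ) g = plInt ν c (avk b R g) := by
  obtain ⟨-, h2, h3⟩ := hNN d hd Mb cb b hb R hR
  have hn := h2 g hg hgc
  have h4 := (h3 (fun i j z => if i = j then g z else 0)
    (fun i j => by
      by_cases hij : i = j
      · simpa [hij] using hg
      · simpa [hij] using contDiff_const)
    (fun i j => by
      by_cases hij : i = j
      · simpa [hij] using hgc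
      · simp only [hij, if_false]; exact HasCompactSupport.zero)).2.2 ν c hν
  have h5 : (fun y => ∑ i, ∑ j, ν i * ν j * (if i = j then g y else 0)) = g := by
    funext y
    have h6 : ∀ i : Fin d, ∑ j, ν i * ν j * (if i = j then g y else 0) = ν i ^ 2 * g y := by
      intro i
      rw [Finset.sum_eq_single i]
      · rw [if_pos rfl]; ring
      · intro j _ hj
        have : ¬ i = j := fun h => hj h.symm
        simp [this]
      · intro h; exact absurd (Finset.mem_univ i) h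
    simp only [h6]
    rw [← Finset.sum_mul]
    have h7 : ∑ i, ν i ^ 2 = 1 := by
      have := EuclideanSpace.real_norm_sq_eq ν
      rw [hν] at this
      rw [← this]; norm_num
    rw [h7, one_mul]
  have h8 : nt b R (fun i j z => if i = j then g z else 0) = fun y => g y + (-1) * avk b R g y := by
    funext y
    rw [hn y]; ring
  have hac : Continuous (avk b R g) := hb.ak.avk_cont hg.continuous R
  have hacs : HasCompactSupport (avk b R g) := hb.ak.avk_cs hgc R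
  have h9 : Continuous (fun y => (-1 : ℝ) * avk b R g y) := continuous_const.mul hac
  have h10 : HasCompactSupport (fun y => (-1 : ℝ) * avk b R g y) := HasCompactSupport.mul_left hacs
  rw [h5, h8, NN.pl_add hg.continuous hgc h9 h10, NN.pl_mul] at h4
  linarith

/-! ## the pieces -/

/-- one piece of the structure theorem -/
structure Pc (R1 Rs : ℝ) (ν : Sp d) (κ : Sp d → ℝ) : Prop where
  n1 : ‖ν‖ = 1
  k0 : ∀ y, 0 ≤ κ y
  kb : TFn 2 1 κ
  ks : ∀ y, κ y ≠ 0 → ‖tang ν y‖ ≤ R1 - Rs - 3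

/-- the density of a piece -/
def Hp (ν : Sp d) (κ g : Sp d → ℝ) (y : Sp d) : ℝ := κ y * plInt ν ⟪ν, y⟫_ℝ g

/-- the integral against a piece -/
def Lm (m : Sp d → ℝ) (ν : Sp d) (κ g : Sp d → ℝ) : ℝ := ∫ y, m y * Hp ν κ g y

lemma Hp_main (hPF : StmtPF) (hd : 1 ≤ d) (ρ : ℝ) : ∃ C : ℝ, 0 < C ∧
    ∀ (R1 Rs : ℝ) (ν : Sp d) (κ : Sp d → ℝ), ρ ≤ Rs + 2 → Pc R1 Rs ν κ →
    ∀ (g : Sp d → ℝ) (M : ℝ), Ad ρ M g →
      BF 2 (C * M) (Hp ν κ g) ∧ ∀ y, R1 ≤ ‖y‖ → Hp ν κ g y = 0 := by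
  obtain ⟨C, hC, h⟩ := pl_BF hPF hd ρ
  refine ⟨4 * C, by positivity, fun R1 Rs ν κ hρ hP g M hg => ⟨?_, fun y hy => ?_⟩⟩
  · have h1 := h ν hP.n1 g M hg
    have hA : ‖innerSL ℝ ν‖ ≤ 1 := by rw [innerSL_apply_norm, hP.n1]
    have h2 : BF 2 (C * M) (fun y : Sp d => plInt ν ⟪ν, y⟫_ℝ g) := by
      have h3 := h1.comp_aff (innerSL ℝ ν) hA 0
      simpa using h3
    have h4 : BF 2 1 κ := ⟨hP.kb.smooth, hP.kb.bd⟩
    refine (h4.mul h2).mono (le_of_eq ?_)
    ring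
  · unfold Hp
    by_contra hne
    have h1 : κ y ≠ 0 := left_ne_zero_of_mul hne
    have h2 : plInt ν ⟪ν, y⟫_ℝ g ≠ 0 := right_ne_zero_of_mul hne
    have h3 := hP.ks y h1
    have h4 : |⟪ν, y⟫_ℝ| ≤ ρ := by
      by_contra hcon
      push Not at hcon
      exact h2 (pl_zero hP.n1 hg.vs hcon)
    have h5 : ‖y‖ ≤ ‖tang ν y‖ + |⟪ν, y⟫_ℝ| := by
      have h6 : y = tang ν y + ⟪ν, y⟫_ℝ • ν := by unfold tang; abel
      calc ‖y‖ = ‖tang ν y + ⟪ν, y⟫_ℝ • ν‖ := by rw [← h6]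
        _ ≤ ‖tang ν y‖ + ‖⟪ν, y⟫_ℝ • ν‖ := norm_add_le _ _
        _ = ‖tang ν y‖ + |⟪ν, y⟫_ℝ| := by rw [norm_smul, hP.n1, mul_one, Real.norm_eq_abs]
    linarith

lemma Hp_int (hPF : StmtPF) (hd : 1 ≤ d) {ρ R1 Rs : ℝ} {ν : Sp d} {κ : Sp d → ℝ}
    (hρ : ρ ≤ Rs + 2) (hP : Pc R1 Rs ν κ) {m : Sp d → ℝ} (hm : Continuous m) {g : Sp d → ℝ}
    {M : ℝ} (hg : Ad ρ M g) : Integrable (fun y => m y * Hp ν κ g y) := by
  obtain ⟨C, -, h⟩ := Hp_main (d := d) hPF hd ρ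
  obtain ⟨h1, h2⟩ := h R1 Rs ν κ hρ hP g M hg
  refine (hm.mul h1.smooth.continuous).integrable_of_hasCompactSupport ?_
  refine HasCompactSupport.intro (isCompact_closedBall (0 : Sp d) R1) fun y hy => ?_
  rw [mem_closedBall, dist_zero_right, not_le] at hy
  rw [Pi.mul_apply, h2 y hy.le, mul_zero]

lemma Hp_add {ρ : ℝ} {ν : Sp d} {κ : Sp d → ℝ} {g g' : Sp d → ℝ} {M M' : ℝ} (hg : Ad ρ M g)
    (hg' : Ad ρ M' g') (y : Sp d) :
    Hp ν κ (fun y => g y + g' y) y = Hp ν κ g y + Hp ν κ g' y := by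
  unfold Hp
  rw [NN.pl_add hg.sm.continuous hg.cs hg'.sm.continuous hg'.cs, mul_add]

lemma Hp_cmul {ν : Sp d} {κ : Sp d → ℝ} {g : Sp d → ℝ} (a : ℝ) (y : Sp d) :
    Hp ν κ (fun y => a * g y) y = a * Hp ν κ g y := by
  unfold Hp
  rw [NN.pl_mul]
  ring

lemma Lm_cmul {m : Sp d → ℝ} {ν : Sp d} {κ : Sp d → ℝ} {g : Sp d → ℝ} (a : ℝ) :
    Lm m ν κ (fun y => a * g y) = a * Lm m ν κ g := by
  unfold Lm
  rw [← integral_const_mul]
  refine integral_congr_ae (Eventually.of_forall fun y => ?_)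
  simp only [Hp_cmul]
  ring

lemma Lm_add (hPF : StmtPF) (hd : 1 ≤ d) {ρ R1 Rs : ℝ} {ν : Sp d} {κ : Sp d → ℝ}
    (hρ : ρ ≤ Rs + 2) (hP : Pc R1 Rs ν κ) {m : Sp d → ℝ} (hm : Continuous m) {g g' : Sp d → ℝ}
    {M M' : ℝ} (hg : Ad ρ M g) (hg' : Ad ρ M' g') :
    Lm m ν κ (fun y => g y + g' y) = Lm m ν κ g + Lm m ν κ g' := by
  unfold Lm
  rw [← integral_add (Hp_int hPF hd hρ hP hm hg) (Hp_int hPF hd hρ hP hm hg')]
  refine integral_congr_ae (Eventually.of_forall fun y => ?_)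
  simp only [Hp_add hg hg']
  ring

/-! ## bounds -/

/-- sum of the bounds of the derivatives up to order n -/
def SB (B : ℕ → ℝ) (n : ℕ) : ℝ := ∑ k ∈ Finset.range (n + 1), |B k|

lemma SB_nonneg (B : ℕ → ℝ) (n : ℕ) : 0 ≤ SB B n := Finset.sum_nonneg fun _ _ => abs_nonneg _

lemma le_SB (B : ℕ → ℝ) {n k : ℕ} (h : k ≤ n) : |B k| ≤ SB B n :=
  Finset.single_le_sum (f := fun k => |B k|) (fun _ _ => abs_nonneg _)
    (Finset.mem_range.2 (by omega))

lemma BF_of {N : ℝ} (hN : 0 ≤ N) {B : ℕ → ℝ} {g : Sp d → ℝ} (hg : ContDiff ℝ ∞ g)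
    (hb : ∀ k y, ‖iteratedFDeriv ℝ k g y‖ ≤ N * B k) (n : ℕ) : BF n (N * SB B n) g :=
  ⟨contDiff_infty.1 hg n, fun j hj y => (hb j y).trans
    (mul_le_mul_of_nonneg_left ((le_abs_self _).trans (le_SB B hj)) hN)⟩

lemma comp_le {n : Sp d} (hn : ‖n‖ = 1) (i : Fin d) : |n i| ≤ 1 := by
  have := PiLp.norm_apply_le n i
  rwa [hn, Real.norm_eq_abs] at this

lemma sum2_const (N : ℝ) : ∑ _i : Fin d, ∑ _j : Fin d, N = d * (d * N) := by
  simp

lemma qf_Ad {ρ N : ℝ} {F : Fin d → Fin d → Sp d → ℝ} (hF : ∀ i j, ContDiff ℝ ∞ (F i j))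
    (hb : ∀ i j, BF 2 N (F i j)) (hs : ∀ i j y, ρ ≤ ‖y‖ → F i j y = 0) {n : Sp d}
    (hn : ‖n‖ = 1) : Ad ρ (d * (d * N)) (qf F n) where
  sm := ContDiff.sum fun i _ => ContDiff.sum fun j _ => contDiff_const.mul (hF i j)
  bf := by
    have h1 := BF_sum (J := 2) Finset.univ fun i : Fin d =>
      BF_sum Finset.univ fun j : Fin d => (hb i j).const_mul (n i * n j)
    refine h1.mono ?_
    rw [← sum2_const]
    refine Finset.sum_le_sum fun i _ => Finset.sum_le_sum fun j _ => ?_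
    have h2 : |n i * n j| ≤ 1 := by
      rw [abs_mul]
      have := comp_le hn i
      have := comp_le hn j
      have := abs_nonneg (n i)
      have := abs_nonneg (n j)
      nlinarith
    have := (hb i j).nonneg
    nlinarith
  vs := by
    intro y hy
    unfold qf
    refine Finset.sum_eq_zero fun i _ => Finset.sum_eq_zero fun j _ => ?_
    rw [hs i j y hy.le, mul_zero]

lemma dd2_BF {J : ℕ} {N : ℝ} {F : Fin d → Fin d → Sp d → ℝ}
    (hF : ∀ i j, ContDiff ℝ ∞ (F i j)) (hb : ∀ i j, BF (J + 2) N (F i j)) :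
    BF J (d * (d * N)) (dd2 F) := by
  have hbv : ∀ i : Fin d, ‖(bv i : Sp d)‖ ≤ 1 := by
    intro i
    unfold bv
    rw [EuclideanSpace.norm_single]
    simp
  have h1 : ∀ i j : Fin d, BF J N (pd2 i j (F i j)) := by
    intro i j
    have h2 : pd2 i j (F i j) =
        fun y => fderiv ℝ (fun z => fderiv ℝ (F i j) z (bv j)) y (bv i) := by
      ext y
      unfold pd2
      rw [iteratedFDeriv_two_apply, NN.iter2 (hF i j)]
      simp
    rw [h2]
    have h3 : BF (J + 1) N (fun z => fderiv ℝ (F i j) z (bv j)) :=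
      BF.fderiv_apply (hb i j) (bv j) (hbv j)
    exact BF.fderiv_apply h3 (bv i) (hbv i)
  have h4 := BF_sum (J := J) Finset.univ fun i : Fin d =>
    BF_sum Finset.univ fun j : Fin d => h1 i j
  rw [sum2_const] at h4
  exact h4

lemma nt_BF (hNN : StmtNN) (hd : 2 ≤ d) {Mb cb : ℝ} {b : Sp d → ℝ} (hb : BaseKer 2 Mb cb b)
    {R : ℝ} (hR : 0 < R) {J : ℕ} {N ρ : ℝ} {F : Fin d → Fin d → Sp d → ℝ}
    (hF : ∀ i j, ContDiff ℝ ∞ (F i j)) (hN : ∀ i j, BF (J + 2) N (F i j))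
    (hs : ∀ i j y, ρ ≤ ‖y‖ → F i j y = 0) :
    BF J (R ^ 2 * (d * (d * N))) (nt b R F) ∧ ∀ y, ρ + 1 + R / 2 ≤ ‖y‖ → nt b R F y = 0 := by
  obtain ⟨h1, -, h3⟩ := hNN d hd Mb cb b hb R hR
  have hcs : ∀ i j, HasCompactSupport (F i j) := fun i j =>
    cs_of (ρ := ρ) fun y hy => hs i j y hy.le
  have hsm : ContDiff ℝ ∞ (dd2 F) := NN.dd2_smooth hF
  have hdc : HasCompactSupport (dd2 F) :=
    NN.cs_sum _ fun i => NN.cs_sum _ fun j => NN.pd2_cs (hF i j) (hcs i j) i j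
  obtain ⟨h11, -, -, -, h15, h16⟩ := h1 (dd2 F) hsm hdc
  have hB := dd2_BF hF hN
  have he : nt b R F = -(NNp b R (dd2 F)) := rfl
  constructor
  · refine ⟨contDiff_infty.1 (h3 F hF hcs).1 J, fun j hj y => ?_⟩
    rw [he, iteratedFDeriv_neg_apply, norm_neg]
    exact h15 j _ (hB.bd j hj) y
  · intro y hy
    rw [he, Pi.neg_apply, h16 0 (ρ + 1) ?_ y (by rwa [sub_zero]), neg_zero]
    intro z hz
    rw [sub_zero] at hz
    unfold dd2
    refine Finset.sum_eq_zero fun i _ => Finset.sum_eq_zero fun j _ => ?_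
    unfold pd2
    rw [it_vs (ρ := ρ) (fun y hy => hs i j y hy.le) 2 z (by linarith)]
    simp

/-- plane integrals of the Newton field -/
lemma Hp_nt (hNN : StmtNN) (hd : 2 ≤ d) {Mb cb : ℝ} {b : Sp d → ℝ} (hb : BaseKer 2 Mb cb b)
    {R : ℝ} (hR : 0 < R) {F : Fin d → Fin d → Sp d → ℝ} (hF : ∀ i j, ContDiff ℝ ∞ (F i j))
    (hcs : ∀ i j, HasCompactSupport (F i j)) {ν : Sp d} (hν : ‖ν‖ = 1) (κ : Sp d → ℝ)
    (hq : ContDiff ℝ ∞ (qf F ν)) (hqc : HasCompactSupport (qf F ν)) (y : Sp d) :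
    Hp ν κ (nt b R F) y = Hp ν κ (qf F ν) y - Hp ν κ (avk b R (qf F ν)) y := by
  obtain ⟨-, -, h3⟩ := hNN d hd Mb cb b hb R hR
  have h4 := (h3 F hF hcs).2.2 ν ⟪ν, y⟫_ℝ hν
  have h5 := pl_avk hNN hd hb hR hq hqc hν ⟪ν, y⟫_ℝ
  unfold Hp
  rw [h4, ← h5, ← mul_sub]
  rfl

/-- the decay of the averages at scale R -/
lemma avk_small {J : ℕ} {Mb cb : ℝ} {b : Sp d → ℝ} (hb : BaseKer J Mb cb b)
    {ρ M R K γ a D : ℝ} (hρ : 1 ≤ ρ) (hR : 0 < R) {m : Sp d → ℝ}
    (hG : MG K γ (R + ρ + 4) a D m) {g : Sp d → ℝ} (hg : Ad (ρ + 1) M g) :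
    |∫ y, m y * avk b R g y| ≤ b 0 * volume.real (closedBall (0 : Sp d) (ρ + 1)) * (R ^ d)⁻¹ * M *
      (K * (R + ρ + 4) ^ ((d : ℝ) - 1 + γ) * a + D) := by
  have hA := hg.avk hb hR.le
  refine MG_scale hG (by linarith) le_rfl (hA.bf.smooth) (fun y => ?_) (fun y => ?_)
    (fun y hy => hA.vs y (by linarith))
  · have := avk_decay hb hR hg.sm.continuous (fun y => hg.bf.norm_le y) hg.vs y
    rwa [Real.norm_eq_abs] at this
  · rw [hb.ak.iteratedFDeriv_avk hg.bf.smooth R le_rfl]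
    exact avk_decay hb hR (hg.bf.smooth.continuous_iteratedFDeriv (by norm_num))
      (fun y => hg.bf.bd 2 le_rfl y) (fun y hy => it_vs hg.vs 2 y hy) y

/-- smallness for large R -/
lemma small_R {γ c ρ δ : ℝ} (hd : 2 ≤ d) (hγ0 : 0 < γ) (hγ : γ ≤ 1 / (8 * d)) (hc : 0 ≤ c) (hρ : 1 ≤ ρ)
    (hδ : 0 < δ) : ∃ R0 : ℝ, 1 ≤ R0 ∧ ∀ R : ℝ, R0 ≤ R →
      c * ((R ^ d)⁻¹ * (R + ρ + 4) ^ ((d : ℝ) - 1 + γ)) ≤ δ := by
  set X : ℝ := c * 2 ^ d / δ with hX
  have hX0 : 0 ≤ X := by positivity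
  refine ⟨max (ρ + 4) (X ^ 2), le_max_of_le_left (by linarith), fun R hR => ?_⟩
  have h1 : ρ + 4 ≤ R := (le_max_left _ _).trans hR
  have h2 : X ^ 2 ≤ R := (le_max_right _ _).trans hR
  have hR1 : 1 ≤ R := by linarith
  have hR0 : 0 < R := by linarith
  have hγ2 : γ ≤ 1 / 16 := by
    refine hγ.trans ?_
    have : (2 : ℝ) ≤ d := by exact_mod_cast hd
    rw [div_le_div_iff₀ (by positivity) (by norm_num)]
    linarith
  have hdR : (2 : ℝ) ≤ d := by exact_mod_cast hd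
  have h3 : (R + ρ + 4) ^ ((d : ℝ) - 1 + γ) ≤ (2 * R) ^ ((d : ℝ) - 1 + γ) :=
    Real.rpow_le_rpow (by linarith) (by linarith) (by linarith)
  have h4 : (2 * R) ^ ((d : ℝ) - 1 + γ) ≤ (2 * R) ^ ((d : ℝ) + -(1 / 2)) :=
    Real.rpow_le_rpow_of_exponent_le (by linarith) (by linarith)
  have h5 : (2 * R) ^ ((d : ℝ) + -(1 / 2)) = (2 * R) ^ d * (2 * R) ^ (-(1 / 2) : ℝ) := by
    rw [Real.rpow_add (by linarith), Real.rpow_natCast]
  have h6 : (2 * R) ^ (-(1 / 2) : ℝ) ≤ (Real.sqrt R)⁻¹ := by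
    rw [Real.rpow_neg (by linarith), ← Real.sqrt_eq_rpow]
    exact inv_anti₀ (Real.sqrt_pos.2 hR0) (Real.sqrt_le_sqrt (by linarith))
  have h7 : X ≤ Real.sqrt R := Real.le_sqrt_of_sq_le h2
  have hs : 0 < Real.sqrt R := Real.sqrt_pos.2 hR0
  have h8 : (R ^ d)⁻¹ * (R + ρ + 4) ^ ((d : ℝ) - 1 + γ) ≤ 2 ^ d * (Real.sqrt R)⁻¹ := by
    calc (R ^ d)⁻¹ * (R + ρ + 4) ^ ((d : ℝ) - 1 + γ) ≤
          (R ^ d)⁻¹ * ((2 * R) ^ d * (2 * R) ^ (-(1 / 2) : ℝ)) := by
            refine mul_le_mul_of_nonneg_left ?_ (by positivity)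
            rw [← h5]; exact h3.trans h4
      _ ≤ (R ^ d)⁻¹ * ((2 * R) ^ d * (Real.sqrt R)⁻¹) := by gcongr
      _ = 2 ^ d * (Real.sqrt R)⁻¹ := by
        rw [mul_pow]
        have : (R ^ d) ≠ 0 := by positivity
        field_simp
  calc c * ((R ^ d)⁻¹ * (R + ρ + 4) ^ ((d : ℝ) - 1 + γ)) ≤ c * (2 ^ d * (Real.sqrt R)⁻¹) :=
        mul_le_mul_of_nonneg_left h8 hc
    _ = X * δ * (Real.sqrt R)⁻¹ := by
        rw [hX]; field_simp
    _ ≤ Real.sqrt R * δ * (Real.sqrt R)⁻¹ := by gcongr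
    _ = δ := by field_simp

/-- the pieces are almost positive -/
lemma Lm_pos {C4 ρ R1 Rs M D : ℝ} {m : Sp d → ℝ} {ν : Sp d} {κ g : Sp d → ℝ}
    (hH : BF 2 (C4 * M) (Hp ν κ g) ∧ ∀ y, R1 ≤ ‖y‖ → Hp ν κ g y = 0)
    (hP : Pc R1 Rs ν κ) (hZ : ZP R1 D m) (hg : ∀ y, 0 ≤ g y) (_hA : Ad ρ M g) :
    -(C4 * M * D) ≤ Lm m ν κ g := by
  refine ZP_scale hZ hH.1.smooth (fun y => ?_) (fun y => ?_) (fun y => hH.1.bd 2 le_rfl y) hH.2
  · exact mul_nonneg (hP.k0 y) (integral_nonneg fun z => hg _)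
  · exact (le_abs_self _).trans (hH.1.norm_le y)

/-- comparison of two densities -/
lemma Lm_cmp (hPF : StmtPF) (hd : 1 ≤ d) {C4 ρ R1 Rs D : ℝ}
    (hH : ∀ (R1 Rs : ℝ) (ν : Sp d) (κ : Sp d → ℝ), ρ ≤ Rs + 2 → Pc R1 Rs ν κ →
      ∀ (g : Sp d → ℝ) (M : ℝ), Ad ρ M g →
        BF 2 (C4 * M) (Hp ν κ g) ∧ ∀ y, R1 ≤ ‖y‖ → Hp ν κ g y = 0)
    {m : Sp d → ℝ} (hm : Continuous m) {ν : Sp d} {κ : Sp d → ℝ} (hρ : ρ ≤ Rs + 2)
    (hP : Pc R1 Rs ν κ) (hZ : ZP R1 D m) {g G : Sp d → ℝ} {M M' : ℝ} (hg : Ad ρ M g)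
    (hG : Ad ρ M' G) (h : ∀ y, |g y| ≤ G y) :
    |Lm m ν κ g| ≤ Lm m ν κ G + C4 * (M' + M) * D := by
  have h1 : Ad ρ (M' + M) (fun y => G y + g y) := hG.add hg
  have h2 : Ad ρ (M' + M) (fun y => G y + (-1) * g y) := by
    have := hG.add (hg.cmul (-1))
    simpa using this
  have h3 := Lm_pos (hH R1 Rs ν κ hρ hP _ _ h1) hP hZ
    (fun y => by linarith [neg_abs_le (g y), h y]) h1
  have h4 := Lm_pos (hH R1 Rs ν κ hρ hP _ _ h2) hP hZ
    (fun y => by linarith [le_abs_self (g y), h y]) h2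
  have h5 := Lm_add hPF hd hρ hP hm hG hg
  have h6 := Lm_add hPF hd hρ hP hm hG (hg.cmul (-1))
  rw [Lm_cmul] at h6
  rw [h5] at h3
  rw [h6] at h4
  rw [abs_le]
  constructor <;> linarith

end B1m

open _root_.TG.B1m SMm in
/-- MODULE B1 -/
theorem stmtB1 (hNN : StmtNN) (hPF : StmtPF) : StmtB1 := by
  intro d hd Mb cb K γ ρ δ B b hb hK hγ0 hγ hρ hδ
  have hd1 : 1 ≤ d := by omega
  have hρ0 : 0 < ρ := by linarith
  set φ0 : Sp d → ℝ := sT ρ with hφ0
  have hn2 : ∀ J : ℕ, ∃ N : ℝ, 0 < N ∧ BF J N φ0 := fun J => sT_BF J hρ0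
  choose n2 hn2p hn2b using hn2
  set m0 : ℝ := d * (d * |B 0|) with hm0
  have hm00 : 0 ≤ m0 := by positivity
  have hS2 : 0 ≤ SB B 2 := SB_nonneg B 2
  set q2 : ℝ := d * (d * SB B 2) with hq2
  have hq20 : 0 ≤ q2 := by positivity
  set c3 : ℝ := b 0 * volume.real (closedBall (0 : Sp d) (ρ + 1)) with hc3
  have hc30 : 0 ≤ c3 := mul_nonneg (hb.nonneg 0) measureReal_nonneg
  have hn22 : 0 < n2 2 := hn2p 2
  obtain ⟨R0, hR01, hR0⟩ := small_R (γ := γ) (c := c3 * (m0 * n2 2 + SB B 2) * K) (ρ := ρ)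
    (δ := δ / 4) hd hγ0 hγ (by positivity) hρ (by positivity)
  refine ⟨R0, hR01, fun R hR => ?_⟩
  have hR1 : 1 ≤ R := hR01.trans hR
  have hRp : 0 < R := by linarith
  have hsm := hR0 R hR
  set Rd : ℝ := (R ^ d)⁻¹ with hRd
  have hRd0 : 0 < Rd := by positivity
  set Rg : ℝ := (R + ρ + 4) ^ ((d : ℝ) - 1 + γ) with hRg
  have hRg0 : 0 ≤ Rg := Real.rpow_nonneg (by linarith) _
  set n1 : ℕ → ℝ := fun J => R ^ 2 * (d * (d * SB B (J + 2))) with hn1
  have hn10 : ∀ J, 0 ≤ n1 J := fun J => by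
    have := SB_nonneg B (J + 2)
    simp only [hn1]; (clear * - hR1 hd this; positivity)
  set E : ℕ → ℝ := fun J => δ / (4 * (1 + n1 J + SB B J + m0 * n2 J)) with hE
  have hden : ∀ J, 0 < 1 + n1 J + SB B J + m0 * n2 J := fun J => by
    have h1 := hn10 J
    have h2 := SB_nonneg B J
    have h3 := mul_nonneg hm00 (hn2p J).le
    linarith
  have hEp : ∀ J, 0 < E J := fun J => by
    have := hden J
    simp only [hE]; (clear * - hδ this; positivity)
  have hEx : ∀ J (x : ℝ), x ≤ 1 + n1 J + SB B J + m0 * n2 J → E J * x ≤ δ / 4 := by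
    intro J x hx
    have h1 := hden J
    simp only [hE]
    rw [div_mul_eq_mul_div, div_le_div_iff₀ (by (clear * - h1; positivity)) (by norm_num)]
    nlinarith only [hδ, hx]
  have hE1 : ∀ J, E J * n1 J ≤ δ / 4 := fun J => hEx J _ (by
    have h2 := SB_nonneg B J
    have h3 := mul_nonneg hm00 (hn2p J).le
    linarith)
  have hE2 : ∀ J, E J * SB B J ≤ δ / 4 := fun J => hEx J _ (by
    have h1 := hn10 J
    have h3 := mul_nonneg hm00 (hn2p J).le
    linarith)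
  have hE3 : ∀ J, E J * (m0 * n2 J) ≤ δ / 4 := fun J => hEx J _ (by
    have h1 := hn10 J
    have h2 := SB_nonneg B J
    linarith)
  obtain ⟨C4, hC4, hH⟩ := Hp_main (d := d) hPF hd1 (R + ρ + 5)
  refine ⟨E, hEp, fun R1 rm => ⟨rm * C4 * (m0 * n2 2 + q2) + m0 * c3 * Rd * n2 2 +
    rm * C4 * (SB B 2 + q2) + c3 * Rd * SB B 2 + 1, by (clear * - hC4 hd hn22 hS2 hc30 hR1; positivity), ?_⟩⟩
  intro m a D J r ν κ hm ha hD hZ hS hG
  have hP : ∀ i, Pc R1 (R + ρ + 3) (ν i) (κ i) :=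
    fun i => ⟨hS.n1 i, hS.k0 i, hS.kb i, hS.ks i⟩
  have hest : ∀ (ζ : Sp d → ℝ) (N : ℝ), TFn J N ζ → (∀ y, R + ρ + 3 ≤ ‖y‖ → ζ y = 0) →
      |(∫ y, m y * ζ y) - ∑ i, Lm m (ν i) (κ i) ζ| ≤ E J * a * N := fun ζ N h1 h2 =>
    hS.est ζ N h1 h2
  have hrm : (r : ℝ) ≤ rm := by exact_mod_cast hS.rle
  have hρR : R + ρ + 5 ≤ (R + ρ + 3) + 2 := by linarith
  -- the average of the cut-off
  have hφA : Ad (ρ + 1) (n2 2) φ0 := ⟨sT_smooth hρ0, hn2b 2, fun y hy => sT_zero hy.le⟩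
  have hΦA : Ad (ρ + 1 + R) (n2 2) (avk b R φ0) := hφA.avk hb hRp.le
  have hΦest : ∑ i, Lm m (ν i) (κ i) (avk b R φ0) ≤
      |∫ y, m y * avk b R φ0 y| + E J * a * n2 J := by
    have h1 := hest (avk b R φ0) (n2 J) ⟨hb.ak.avk_contDiff (hn2b J).smooth R, fun j hj y =>
      hb.ak.norm_iteratedFDeriv_avk_le (hn2b J).smooth R hj ((hn2b J).bd j hj) y⟩
      (fun y hy => hΦA.vs y (by linarith))
    have h2 := neg_abs_le ((∫ y, m y * avk b R φ0 y) - ∑ i, Lm m (ν i) (κ i) (avk b R φ0))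
    linarith [le_abs_self (∫ y, m y * avk b R φ0 y)]
  have hΦs := avk_small hb hρ hRp hG hφA
  rw [← hc3, ← hRd, ← hRg] at hΦs
  -- G2
  have hG2 : ∀ (F : Fin d → Fin d → Sp d → ℝ) (N : ℝ), 0 ≤ N →
      (∀ i j, ContDiff ℝ ∞ (F i j)) → (∀ i j k y, ‖iteratedFDeriv ℝ k (F i j) y‖ ≤ N * B k) →
      (∀ i j y, ρ ≤ ‖y‖ → F i j y = 0) →
      |∑ i, Lm m (ν i) (κ i) (avk b R (qf F (ν i)))| ≤
        N * m0 * (c3 * Rd * n2 2 * (K * Rg * a + D) + E J * a * n2 J) +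
          N * (rm * C4 * (m0 * n2 2 + q2)) * D := by
    intro F N hN hF hFb hFs
    have hq : ∀ i, Ad ρ (N * q2) (qf F (ν i)) := fun i =>
      (qf_Ad hF (fun i j => BF_of hN (hF i j) (hFb i j) 2) hFs (hS.n1 i)).mono le_rfl
        (le_of_eq (by rw [hq2]; ring))
    have hqa : ∀ i y, |qf F (ν i) y| ≤ N * m0 * φ0 y := by
      intro i y
      by_cases hy : ρ ≤ ‖y‖
      · have : qf F (ν i) y = 0 := by
          unfold qf
          exact Finset.sum_eq_zero fun k _ => Finset.sum_eq_zero fun l _ => by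
            rw [hFs k l y hy, mul_zero]
        rw [this, abs_zero]
        exact mul_nonneg (mul_nonneg hN hm00) (sT_nonneg _ _)
      · push Not at hy
        rw [hφ0, sT_one hy.le, mul_one]
        have h1 : |qf F (ν i) y| ≤ ∑ k : Fin d, ∑ l : Fin d, N * |B 0| := by
          unfold qf
          refine (Finset.abs_sum_le_sum_abs _ _).trans (Finset.sum_le_sum fun k _ => ?_)
          refine (Finset.abs_sum_le_sum_abs _ _).trans (Finset.sum_le_sum fun l _ => ?_)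
          rw [abs_mul, abs_mul]
          have a1 := comp_le (hS.n1 i) k
          have a2 := comp_le (hS.n1 i) l
          have a3 := hFb k l 0 y
          rw [norm_iteratedFDeriv_zero, Real.norm_eq_abs] at a3
          have a4 : N * B 0 ≤ N * |B 0| := mul_le_mul_of_nonneg_left (le_abs_self _) hN
          have a5 : |ν i k| * |ν i l| ≤ 1 := by
            nlinarith only [a2, a1, abs_nonneg (ν i l)]
          calc |ν i k| * |ν i l| * |F k l y| ≤ 1 * (N * |B 0|) :=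
                mul_le_mul a5 (a3.trans a4) (abs_nonneg _) zero_le_one
            _ = N * |B 0| := one_mul _
        rw [sum2_const] at h1
        refine h1.trans (le_of_eq ?_)
        rw [hm0]; ring
    have hqc : ∀ i, Continuous (qf F (ν i)) := fun i => (hq i).sm.continuous
    have hA : ∀ i, Ad (R + ρ + 5) (N * q2) (avk b R (qf F (ν i))) := fun i =>
      ((hq i).avk hb hRp.le).mono (by linarith) le_rfl
    have hΦ' : Ad (R + ρ + 5) (N * m0 * n2 2) (fun y => N * m0 * avk b R φ0 y) := by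
      have h1 := (hΦA.mono (ρ' := R + ρ + 5) (by linarith) le_rfl).cmul (N * m0)
      rwa [abs_of_nonneg (mul_nonneg hN hm00)] at h1
    have hab : ∀ i y, |avk b R (qf F (ν i)) y| ≤ N * m0 * avk b R φ0 y := by
      intro i y
      have h1 : ∀ s : ℝ, avk b R (fun z => s * φ0 z) y = s * avk b R φ0 y := by
        intro s
        unfold avk
        rw [← integral_const_mul]
        refine integral_congr_ae (Eventually.of_forall fun z => ?_)
        simp only [smul_eq_mul]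
        ring
      have hφc : Continuous φ0 := hφA.sm.continuous
      rw [abs_le]
      constructor
      · have h2 := hb.ak.avk_mono (g := fun z => -(N * m0) * φ0 z) (g' := qf F (ν i))
          (continuous_const.mul hφc) (hqc i)
          (fun z => by linarith [neg_abs_le (qf F (ν i) z), hqa i z]) R y
        rw [h1] at h2
        linarith
      · have h2 := hb.ak.avk_mono (g := qf F (ν i)) (g' := fun z => (N * m0) * φ0 z)
          (hqc i) (continuous_const.mul hφc)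
          (fun z => by linarith [le_abs_self (qf F (ν i) z), hqa i z]) R y
        rwa [h1] at h2
    have h3 : ∀ i, |Lm m (ν i) (κ i) (avk b R (qf F (ν i)))| ≤
        N * m0 * Lm m (ν i) (κ i) (avk b R φ0) + C4 * (N * m0 * n2 2 + N * q2) * D := by
      intro i
      have h4 := Lm_cmp hPF hd1 hH hm hρR (hP i) hZ (hA i) hΦ' (hab i)
      rwa [Lm_cmul] at h4
    have h5 : |∑ i, Lm m (ν i) (κ i) (avk b R (qf F (ν i)))| ≤
        N * m0 * (∑ i, Lm m (ν i) (κ i) (avk b R φ0)) +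
          r * (C4 * (N * m0 * n2 2 + N * q2) * D) := by
      refine (Finset.abs_sum_le_sum_abs _ _).trans ?_
      refine (Finset.sum_le_sum fun i _ => h3 i).trans (le_of_eq ?_)
      rw [Finset.sum_add_distrib, ← Finset.mul_sum]
      simp
    refine h5.trans ?_
    have h6 : N * m0 * (∑ i, Lm m (ν i) (κ i) (avk b R φ0)) ≤
        N * m0 * (c3 * Rd * n2 2 * (K * Rg * a + D) + E J * a * n2 J) :=
      mul_le_mul_of_nonneg_left (by linarith) (mul_nonneg hN hm00)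
    have h7 : (r : ℝ) * (C4 * (N * m0 * n2 2 + N * q2) * D) ≤
        N * (rm * C4 * (m0 * n2 2 + q2)) * D := by
      have h8 : 0 ≤ C4 * (N * m0 * n2 2 + N * q2) * D := by (clear * - hC4 hN hd hn22 hS2 hD; positivity)
      calc (r : ℝ) * (C4 * (N * m0 * n2 2 + N * q2) * D) ≤
            rm * (C4 * (N * m0 * n2 2 + N * q2) * D) := mul_le_mul_of_nonneg_right hrm h8
        _ = N * (rm * C4 * (m0 * n2 2 + q2)) * D := by ring
    linarith only [h6, h7]
  -- numbers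
  have hsm1 : c3 * Rd * (m0 * n2 2) * (K * Rg) ≤ δ / 4 := by
    refine le_trans ?_ hsm
    have : c3 * (m0 * n2 2 + SB B 2) * K * (Rd * Rg) =
      c3 * Rd * (m0 * n2 2) * (K * Rg) + c3 * SB B 2 * K * (Rd * Rg) := by ring
    rw [this]
    have : 0 ≤ c3 * SB B 2 * K * (Rd * Rg) := by (clear * - hc30 hS2 hK hR1 hρ; positivity)
    linarith
  have hsm2 : c3 * Rd * SB B 2 * (K * Rg) ≤ δ / 4 := by
    refine le_trans ?_ hsm
    have : c3 * (m0 * n2 2 + SB B 2) * K * (Rd * Rg) =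
      c3 * Rd * (m0 * n2 2) * (K * Rg) + c3 * Rd * SB B 2 * (K * Rg) := by ring
    rw [this]
    have : 0 ≤ c3 * Rd * (m0 * n2 2) * (K * Rg) := by (clear * - hc30 hR1 hd hn22 hK hρ; positivity)
    linarith
  have hG2' : ∀ (F : Fin d → Fin d → Sp d → ℝ) (N : ℝ), 0 ≤ N →
      (∀ i j, ContDiff ℝ ∞ (F i j)) → (∀ i j k y, ‖iteratedFDeriv ℝ k (F i j) y‖ ≤ N * B k) →
      (∀ i j y, ρ ≤ ‖y‖ → F i j y = 0) →
      |∑ i, Lm m (ν i) (κ i) (avk b R (qf F (ν i)))| ≤ δ / 2 * a * N +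
        N * (m0 * c3 * Rd * n2 2 + rm * C4 * (m0 * n2 2 + q2)) * D := by
    intro F N hN hF hFb hFs
    refine (hG2 F N hN hF hFb hFs).trans ?_
    have haN : 0 ≤ N * a := mul_nonneg hN ha
    have h1 := mul_le_mul_of_nonneg_left hsm1 haN
    have h2 := mul_le_mul_of_nonneg_left (hE3 J) haN
    have h3 : N * m0 * (c3 * Rd * n2 2 * (K * Rg * a + D) + E J * a * n2 J) +
          N * (rm * C4 * (m0 * n2 2 + q2)) * D =
        N * a * (c3 * Rd * (m0 * n2 2) * (K * Rg)) + N * a * (E J * (m0 * n2 J)) +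
        N * (m0 * c3 * Rd * n2 2 + rm * C4 * (m0 * n2 2 + q2)) * D := by ring
    rw [h3]
    linarith only [h1, h2]
  -- G1
  have hG1 : ∀ (F : Fin d → Fin d → Sp d → ℝ) (N : ℝ), 0 ≤ N →
      (∀ i j, ContDiff ℝ ∞ (F i j)) → (∀ i j k y, ‖iteratedFDeriv ℝ k (F i j) y‖ ≤ N * B k) →
      (∀ i j y, ρ ≤ ‖y‖ → F i j y = 0) →
      |(∫ y, m y * nt b R F y) - (∑ i, Lm m (ν i) (κ i) (qf F (ν i)) -
        ∑ i, Lm m (ν i) (κ i) (avk b R (qf F (ν i))))| ≤ δ / 4 * a * N := by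
    intro F N hN hF hFb hFs
    obtain ⟨h1, h2⟩ := nt_BF (J := J) hNN hd hb hRp hF
      (fun i j => BF_of hN (hF i j) (hFb i j) (J + 2)) hFs
    have h3 := hest (nt b R F) _ ⟨h1.smooth, h1.bd⟩ (fun y hy => h2 y (by linarith))
    have hq : ∀ i, Ad ρ (N * q2) (qf F (ν i)) := fun i =>
      (qf_Ad hF (fun i j => BF_of hN (hF i j) (hFb i j) 2) hFs (hS.n1 i)).mono le_rfl
        (le_of_eq (by rw [hq2]; ring))
    have hcs : ∀ i j, HasCompactSupport (F i j) := fun i j =>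
      cs_of (ρ := ρ) fun y hy => hFs i j y hy.le
    have h4 : ∀ i, Lm m (ν i) (κ i) (nt b R F) = Lm m (ν i) (κ i) (qf F (ν i)) -
        Lm m (ν i) (κ i) (avk b R (qf F (ν i))) := by
      intro i
      unfold Lm
      rw [← integral_sub (Hp_int hPF hd1 hρR (hP i) hm
        ((hq i).mono (ρ' := R + ρ + 5) (by linarith) le_rfl))
        (Hp_int hPF hd1 hρR (hP i) hm (((hq i).avk hb hRp.le).mono
          (ρ' := R + ρ + 5) (by linarith) le_rfl))]
      refine integral_congr_ae (Eventually.of_forall fun y => ?_)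
      simp only
      rw [Hp_nt hNN hd hb hRp hF hcs (hS.n1 i) (κ i) (hq i).sm (hq i).cs]
      ring
    have h5 : ∑ i, Lm m (ν i) (κ i) (nt b R F) = ∑ i, Lm m (ν i) (κ i) (qf F (ν i)) -
        ∑ i, Lm m (ν i) (κ i) (avk b R (qf F (ν i))) := by
      rw [← Finset.sum_sub_distrib]
      exact Finset.sum_congr rfl fun i _ => h4 i
    rw [h5] at h3
    refine h3.trans ?_
    have haN : 0 ≤ N * a := mul_nonneg hN ha
    have h6 := mul_le_mul_of_nonneg_left (hE1 J) haN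
    have h7 : E J * a * (R ^ 2 * (d * (d * (N * SB B (J + 2))))) = N * a * (E J * n1 J) := by
      simp only [hn1]; ring
    rw [h7]
    linarith only [h6]
  have hND : ∀ N : ℝ, 0 ≤ N → 0 ≤ N * D := fun N hN => mul_nonneg hN hD
  refine ⟨?_, ?_, ?_⟩
  · intro F N hN hF hFb hFs hpos
    have h1 := hG1 F N hN hF hFb hFs
    have h2 := hG2' F N hN hF hFb hFs
    have hq : ∀ i, Ad (R + ρ + 5) (N * q2) (qf F (ν i)) := fun i =>
      (qf_Ad hF (fun i j => BF_of hN (hF i j) (hFb i j) 2) hFs (hS.n1 i)).mono (by linarith only [hR01, hR])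
        (le_of_eq (by rw [hq2]; ring))
    have h3 : pieces m ν κ (qf F) = ∑ i, Lm m (ν i) (κ i) (qf F (ν i)) := rfl
    have h4 : ∀ i, -(C4 * (N * q2) * D) ≤ Lm m (ν i) (κ i) (qf F (ν i)) := fun i =>
      Lm_pos (hH R1 _ (ν i) (κ i) hρR (hP i) _ _ (hq i)) (hP i) hZ (hpos (ν i) (hS.n1 i)) (hq i)
    have h5 : -((r : ℝ) * (C4 * (N * q2) * D)) ≤ ∑ i, Lm m (ν i) (κ i) (qf F (ν i)) := by
      have := Finset.sum_le_sum fun (i : Fin r) (_ : i ∈ Finset.univ) => h4 i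
      simpa using this
    have h6 : (r : ℝ) * (C4 * (N * q2) * D) ≤ rm * (C4 * (N * q2) * D) :=
      mul_le_mul_of_nonneg_right hrm (by (clear * - hC4 hN hd hS2 hD; positivity))
    rw [h3]
    have e1 := abs_le.1 h1
    have e2 := abs_le.1 h2
    have p1 : 0 ≤ δ * a * N := by positivity
    have p2 : 0 ≤ rm * C4 * (SB B 2 + q2) * (N * D) := by (clear * - hC4 hS2 hd hN hD; positivity)
    have p3 : 0 ≤ c3 * Rd * SB B 2 * (N * D) := by (clear * - hc30 hR1 hS2 hN hD; positivity)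
    have p4 : 0 ≤ N * D := hND N hN
    have p5 : 0 ≤ rm * C4 * (m0 * n2 2) * (N * D) := by (clear * - hC4 hd hn22 hN hD; positivity)
    have p6 : 0 ≤ m0 * c3 * Rd * n2 2 * (N * D) := by (clear * - hd hc30 hR1 hn22 hN hD; positivity)
    have p7 : 0 ≤ rm * C4 * SB B 2 * (N * D) := by (clear * - hC4 hS2 hN hD; positivity)
    have p8 : 0 ≤ rm * C4 * q2 * (N * D) := by (clear * - hC4 hd hS2 hN hD; positivity)
    constructor
    · linarith only [e1, e2, p2, p3, p4]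
    · linarith only [h5, h6, p2, p3, p4, p5, p6]
  · intro Y φ N hN hY hYb hYs hφ hφb hφs hYφ
    have h1 := hG1 Y N hN hY hYb hYs
    have h2 := hG2' Y N hN hY hYb hYs
    have hq : ∀ i, Ad (R + ρ + 5) (N * q2) (qf Y (ν i)) := fun i =>
      (qf_Ad hY (fun i j => BF_of hN (hY i j) (hYb i j) 2) hYs (hS.n1 i)).mono (by linarith only [hR01, hR])
        (le_of_eq (by rw [hq2]; ring))
    have hφB : ∀ n, BF n (SB B n) φ := fun n => by
      have := BF_of (N := 1) zero_le_one hφ (fun k y => by rw [one_mul]; exact hφb k y) n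
      rwa [one_mul] at this
    have hφA' : Ad (R + ρ + 5) (N * SB B 2) (fun y => N * φ y) := by
      have h3 : Ad (R + ρ + 5) (SB B 2) φ := ⟨hφ, hφB 2, fun y hy => hφs y (by linarith only [hR01, hR, hy])⟩
      have h4 := h3.cmul N
      rwa [abs_of_nonneg hN] at h4
    have h3 : ∀ i, |Lm m (ν i) (κ i) (qf Y (ν i))| ≤
        N * Lm m (ν i) (κ i) φ + C4 * (N * SB B 2 + N * q2) * D := by
      intro i
      have h4 := Lm_cmp hPF hd1 hH hm hρR (hP i) hZ (hq i) hφA' (hYφ (ν i) (hS.n1 i))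
      rwa [Lm_cmul] at h4
    have h5 : |∑ i, Lm m (ν i) (κ i) (qf Y (ν i))| ≤
        N * (∑ i, Lm m (ν i) (κ i) φ) + r * (C4 * (N * SB B 2 + N * q2) * D) := by
      refine (Finset.abs_sum_le_sum_abs _ _).trans ?_
      refine (Finset.sum_le_sum fun i _ => h3 i).trans (le_of_eq ?_)
      rw [Finset.sum_add_distrib, ← Finset.mul_sum]
      simp
    have h6 := hest φ (SB B J) ⟨(hφB J).smooth, (hφB J).bd⟩ (fun y hy => hφs y (by linarith only [hR01, hR, hy]))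
    have h7 : (r : ℝ) * (C4 * (N * SB B 2 + N * q2) * D) ≤
        rm * (C4 * (N * SB B 2 + N * q2) * D) :=
      mul_le_mul_of_nonneg_right hrm (by (clear * - hC4 hN hS2 hd hD; positivity))
    have h8 : N * (∑ i, Lm m (ν i) (κ i) φ) ≤ N * ((∫ y, m y * φ y) + E J * a * SB B J) :=
      mul_le_mul_of_nonneg_left (by linarith only [(abs_le.1 h6).1]) hN
    have haN : 0 ≤ N * a := mul_nonneg hN ha
    have h9 := mul_le_mul_of_nonneg_left (hE2 J) haN
    have e1 := abs_le.1 h1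
    have e2 := abs_le.1 h2
    have e5 := abs_le.1 h5
    have p3 : 0 ≤ c3 * Rd * SB B 2 * (N * D) := by (clear * - hc30 hR1 hS2 hN hD; positivity)
    have p4 : 0 ≤ N * D := hND N hN
    rw [abs_le]
    constructor
    · linarith only [h7, h8, h9, e1, e2, e5, p3, p4]
    · linarith only [h7, h8, h9, e1, e2, e5, p3, p4]
  · intro φ N hN hφ hφb hφs
    have hA : Ad (ρ + 1) (N * SB B 2) φ :=
      ⟨hφ, BF_of hN hφ hφb 2, fun y hy => hφs y (by linarith)⟩
    have h1 := avk_small hb hρ hRp hG hA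
    rw [← hc3, ← hRd, ← hRg] at h1
    refine h1.trans ?_
    have haN : 0 ≤ N * a := mul_nonneg hN ha
    have h2 := mul_le_mul_of_nonneg_left hsm2 haN
    have h3 : c3 * Rd * (N * SB B 2) * (K * Rg * a + D) =
        N * a * (c3 * Rd * SB B 2 * (K * Rg)) + c3 * Rd * SB B 2 * (N * D) := by ring
    rw [h3]
    have p1 : 0 ≤ rm * C4 * (m0 * n2 2 + q2) * (N * D) := by (clear * - hC4 hd hn22 hS2 hN hD; positivity)
    have p2 : 0 ≤ rm * C4 * (SB B 2 + q2) * (N * D) := by (clear * - hC4 hS2 hd hN hD; positivity)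
    have p4 : 0 ≤ N * D := hND N hN
    have p6 : 0 ≤ m0 * c3 * Rd * n2 2 * (N * D) := by (clear * - hd hc30 hR1 hn22 hN hD; positivity)
    have p7 : 0 ≤ δ * a * N := by positivity
    linarith only [h2, p1, p2, p4, p6, p7]

end

end TG


end

section

/-!
# Trace inequality, general operators: module CS1, the sum identity (6.1) on one level

All cells of one level are put in a common frame (centre 0): the flux of the density of the cell q
in the field ch q times grad (ch p) is a linear functional Ph q of the field, so that the outgoing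
fluxes of p add up to Ph p (grad ch p) and the incoming fluxes of q add up to Ph q (0) = 0.
-/

open MeasureTheory Metric Set TrI Filter
open scoped InnerProductSpace ContDiff

set_option linter.unusedSectionVars false
set_option linter.unusedVariables false

namespace TG

noncomputable section

namespace CS1m

variable {d : ℕ}

/-! ## Gradients -/

lemma inner_grad (g : Sp d → ℝ) (x v : Sp d) : ⟪v, gradient g x⟫_ℝ = fderiv ℝ g x v := by
  rw [real_inner_comm]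
  unfold gradient
  rw [InnerProductSpace.toDual_symm_apply]

lemma grad_apply (g : Sp d → ℝ) (x : Sp d) (i : Fin d) : (gradient g x) i = fderiv ℝ g x (bv i) := by
  rw [← inner_grad g x (bv i)]
  unfold bv
  rw [EuclideanSpace.inner_single_left]
  simp

lemma smooth_fderiv {g : Sp d → ℝ} (hg : ContDiff ℝ ∞ g) : ContDiff ℝ ∞ (fderiv ℝ g) :=
  hg.fderiv_right (m := ∞) (by norm_cast)

lemma smooth_grad {g : Sp d → ℝ} (hg : ContDiff ℝ ∞ g) : ContDiff ℝ ∞ (gradient g) := by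
  unfold gradient
  exact ((InnerProductSpace.toDual ℝ (Sp d)).symm.toContinuousLinearEquiv.contDiff).comp
    (smooth_fderiv hg)

/-! ## The flux densities as linear functionals of a vector field -/

/-- smooth compactly supported fields -/
structure SV (v : Sp d → Sp d) : Prop where
  smooth : ContDiff ℝ ∞ v
  cs : HasCompactSupport v

lemma SV.zero : SV (fun _ : Sp d => (0 : Sp d)) := ⟨contDiff_const, HasCompactSupport.zero⟩

lemma SV.add {v w : Sp d → Sp d} (hv : SV v) (hw : SV w) : SV (fun x => v x + w x) :=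
  ⟨hv.smooth.add hw.smooth, hv.cs.add hw.cs⟩

lemma SV.comp_i {v : Sp d → Sp d} (hv : SV v) (i : Fin d) : ContDiff ℝ ∞ (fun x => (v x) i) := by
  have := hv.smooth
  fun_prop

def Sv (U W : Sp d → ℝ) (v : Sp d → Sp d) (x : Sp d) : ℝ := U x * fderiv ℝ W x (v x)

def Yv (U W : Sp d → ℝ) (v : Sp d → Sp d) (i j : Fin d) (x : Sp d) : ℝ :=
  U x * (1 / 2 * ((v x) i * fderiv ℝ W x (bv j) + (v x) j * fderiv ℝ W x (bv i)))

def Av (U W : Sp d → ℝ) (n : Sp d) (v : Sp d → Sp d) (x : Sp d) : ℝ :=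
  U x * (fderiv ℝ W x (v x) - (2 - ‖n‖ ^ 2) * (⟪n, v x⟫_ℝ * fderiv ℝ W x n))

def Nv (b : Sp d → ℝ) (R : ℝ) (U W : Sp d → ℝ) (v : Sp d → Sp d) (y : Sp d) : ℝ :=
  Sv U W v y - avk b R (Sv U W v) y - nt b R (Yv U W v) y

/-- density of kind k -/
def Dn (b : Sp d → ℝ) (R : ℝ) (k : ℕ) (U W : Sp d → ℝ) (n : Sp d) (v : Sp d → Sp d)
    (y : Sp d) : ℝ :=
  if k = 0 then Av U W n v y else if k = 1 then Nv b R U W v y else 0

/-- flux of kind k -/
def Fl (b : Sp d → ℝ) (R : ℝ) (k : ℕ) (U W m : Sp d → ℝ) (n : Sp d) (v : Sp d → Sp d) : ℝ :=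
  ∫ y, m y * Dn b R k U W n v y

section Lin

variable {b U W : Sp d → ℝ} {R M c0 : ℝ} {n : Sp d}

lemma Sv_smooth (hU : ContDiff ℝ ∞ U) (hW : ContDiff ℝ ∞ W) {v : Sp d → Sp d} (hv : SV v) :
    ContDiff ℝ ∞ (Sv U W v) :=
  hU.mul ((smooth_fderiv hW).clm_apply hv.smooth)

lemma Sv_cs (U W : Sp d → ℝ) {v : Sp d → Sp d} (hv : SV v) : HasCompactSupport (Sv U W v) := by
  refine hv.cs.mono ?_
  intro x hx hx0
  exact hx (by unfold Sv; rw [hx0]; simp)

lemma Yv_smooth (hU : ContDiff ℝ ∞ U) (hW : ContDiff ℝ ∞ W) {v : Sp d → Sp d} (hv : SV v)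
    (i j : Fin d) : ContDiff ℝ ∞ (Yv U W v i j) :=
  hU.mul (contDiff_const.mul (((hv.comp_i i).mul ((smooth_fderiv hW).clm_apply contDiff_const)).add
    ((hv.comp_i j).mul ((smooth_fderiv hW).clm_apply contDiff_const))))

lemma Yv_cs (U W : Sp d → ℝ) {v : Sp d → Sp d} (hv : SV v) (i j : Fin d) :
    HasCompactSupport (Yv U W v i j) := by
  refine hv.cs.mono ?_
  intro x hx hx0
  exact hx (by unfold Yv; rw [hx0]; simp)

lemma Av_smooth (hU : ContDiff ℝ ∞ U) (hW : ContDiff ℝ ∞ W) {v : Sp d → Sp d} (hv : SV v)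
    (n : Sp d) : ContDiff ℝ ∞ (Av U W n v) := by
  have h1 : ContDiff ℝ ∞ (fun x => ⟪n, v x⟫_ℝ) := contDiff_const.inner ℝ hv.smooth
  exact hU.mul (((smooth_fderiv hW).clm_apply hv.smooth).sub
    (contDiff_const.mul (h1.mul ((smooth_fderiv hW).clm_apply contDiff_const))))

lemma Av_cs (U W : Sp d → ℝ) {v : Sp d → Sp d} (hv : SV v) (n : Sp d) :
    HasCompactSupport (Av U W n v) := by
  refine hv.cs.mono ?_
  intro x hx hx0
  exact hx (by unfold Av; rw [hx0]; simp)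

lemma dd2_cs {F : Fin d → Fin d → Sp d → ℝ} (hF : ∀ i j, ContDiff ℝ ∞ (F i j))
    (hc : ∀ i j, HasCompactSupport (F i j)) : HasCompactSupport (dd2 F) := by
  unfold dd2
  exact NN.cs_sum _ fun i => NN.cs_sum _ fun j => NN.pd2_cs (hF i j) (hc i j) i j

lemma nt_smooth (hb : BaseKer 2 M c0 b) (hR : 0 ≤ R) {F : Fin d → Fin d → Sp d → ℝ}
    (hF : ∀ i j, ContDiff ℝ ∞ (F i j)) : ContDiff ℝ ∞ (nt b R F) := by
  have hk := hb.kit 0
  exact (NN.NNp_smooth (hk.smooth1.continuous) hk.supp1 hR (NN.dd2_smooth hF)).1.neg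

lemma nt_cs (hb : BaseKer 2 M c0 b) (hR : 0 ≤ R) {F : Fin d → Fin d → Sp d → ℝ}
    (hF : ∀ i j, ContDiff ℝ ∞ (F i j)) (hc : ∀ i j, HasCompactSupport (F i j)) :
    HasCompactSupport (nt b R F) := by
  have h1 := NN.NNp_cs hb hR (dd2_cs hF hc)
  exact h1.neg

lemma Nv_cont (hb : BaseKer 2 M c0 b) (hR : 0 ≤ R) (hU : ContDiff ℝ ∞ U) (hW : ContDiff ℝ ∞ W)
    {v : Sp d → Sp d} (hv : SV v) : Continuous (Nv b R U W v) :=
  ((Sv_smooth hU hW hv).continuous.sub (hb.ak.avk_cont (Sv_smooth hU hW hv).continuous R)).sub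
    (nt_smooth hb hR (fun i j => Yv_smooth hU hW hv i j)).continuous

lemma Nv_cs (hb : BaseKer 2 M c0 b) (hR : 0 ≤ R) (hU : ContDiff ℝ ∞ U) (hW : ContDiff ℝ ∞ W)
    {v : Sp d → Sp d} (hv : SV v) : HasCompactSupport (Nv b R U W v) :=
  ((Sv_cs U W hv).sub (hb.ak.avk_cs (Sv_cs U W hv) R)).sub
    (nt_cs hb hR (fun i j => Yv_smooth hU hW hv i j) (fun i j => Yv_cs U W hv i j))


/-! additivity -/

lemma Sv_add (U W : Sp d → ℝ) (v w : Sp d → Sp d) (x : Sp d) :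
    Sv U W (fun x => v x + w x) x = Sv U W v x + Sv U W w x := by
  unfold Sv
  rw [map_add, mul_add]

lemma Yv_add (U W : Sp d → ℝ) (v w : Sp d → Sp d) (i j : Fin d) (x : Sp d) :
    Yv U W (fun x => v x + w x) i j x = Yv U W v i j x + Yv U W w i j x := by
  unfold Yv
  rw [PiLp.add_apply, PiLp.add_apply]
  ring

lemma Av_add (U W : Sp d → ℝ) (n : Sp d) (v w : Sp d → Sp d) (x : Sp d) :
    Av U W n (fun x => v x + w x) x = Av U W n v x + Av U W n w x := by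
  unfold Av
  rw [map_add, inner_add_right]
  ring

lemma pd2_add {g h : Sp d → ℝ} (hg : ContDiff ℝ ∞ g) (hh : ContDiff ℝ ∞ h) (i j : Fin d)
    (x : Sp d) : pd2 i j (fun y => g y + h y) x = pd2 i j g x + pd2 i j h x := by
  unfold pd2
  have h1 : (fun y => g y + h y) = g + h := rfl
  rw [h1, iteratedFDeriv_add_apply (hg.contDiffAt.of_le (by norm_cast))
    (hh.contDiffAt.of_le (by norm_cast))]
  rfl

lemma nt_add (hb : BaseKer 2 M c0 b) (hR : 0 ≤ R) {F G : Fin d → Fin d → Sp d → ℝ}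
    (hF : ∀ i j, ContDiff ℝ ∞ (F i j)) (hG : ∀ i j, ContDiff ℝ ∞ (G i j)) (y : Sp d) :
    nt b R (fun i j x => F i j x + G i j x) y = nt b R F y + nt b R G y := by
  have hk := hb.kit 0
  have h1 : dd2 (fun i j x => F i j x + G i j x) = fun x => dd2 F x + dd2 G x := by
    ext x
    unfold dd2
    rw [← Finset.sum_add_distrib]
    refine Finset.sum_congr rfl fun i _ => ?_
    rw [← Finset.sum_add_distrib]
    refine Finset.sum_congr rfl fun j _ => ?_
    exact pd2_add (hF i j) (hG i j) i j x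
  have h2 := NN.NNp_sum (b := b) hk.smooth1.continuous hk.supp1 hR (Finset.univ : Finset (Fin 2))
    (g := ![dd2 F, dd2 G]) (by
      intro i
      fin_cases i
      · exact (NN.dd2_smooth hF).continuous
      · exact (NN.dd2_smooth hG).continuous) y
  simp only [Fin.sum_univ_two, Matrix.cons_val_zero, Matrix.cons_val_one] at h2
  unfold nt
  rw [h1, h2]
  ring

lemma Nv_add (hb : BaseKer 2 M c0 b) (hR : 0 ≤ R) (hU : ContDiff ℝ ∞ U) (hW : ContDiff ℝ ∞ W)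
    {v w : Sp d → Sp d} (hv : SV v) (hw : SV w) (x : Sp d) :
    Nv b R U W (fun x => v x + w x) x = Nv b R U W v x + Nv b R U W w x := by
  unfold Nv
  have h1 : Sv U W (fun x => v x + w x) = fun x => Sv U W v x + Sv U W w x :=
    funext fun x => Sv_add U W v w x
  have h2 : Yv U W (fun x => v x + w x) = fun i j x => Yv U W v i j x + Yv U W w i j x :=
    funext fun i => funext fun j => funext fun x => Yv_add U W v w i j x
  rw [h1, h2, nt_add hb hR (fun i j => Yv_smooth hU hW hv i j) (fun i j => Yv_smooth hU hW hw i j),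
    hb.ak.avk_add (Sv_smooth hU hW hv).continuous (Sv_smooth hU hW hw).continuous]
  ring

lemma Dn_add (hb : BaseKer 2 M c0 b) (hR : 0 ≤ R) (hU : ContDiff ℝ ∞ U) (hW : ContDiff ℝ ∞ W)
    (k : ℕ) {v w : Sp d → Sp d} (hv : SV v) (hw : SV w) (x : Sp d) :
    Dn b R k U W n (fun x => v x + w x) x = Dn b R k U W n v x + Dn b R k U W n w x := by
  unfold Dn
  split_ifs
  · exact Av_add U W n v w x
  · exact Nv_add hb hR hU hW hv hw x
  · simp

lemma Dn_cont (hb : BaseKer 2 M c0 b) (hR : 0 ≤ R) (hU : ContDiff ℝ ∞ U) (hW : ContDiff ℝ ∞ W)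
    (k : ℕ) {v : Sp d → Sp d} (hv : SV v) : Continuous (Dn b R k U W n v) := by
  unfold Dn
  split_ifs
  · exact (Av_smooth hU hW hv n).continuous
  · exact Nv_cont hb hR hU hW hv
  · exact continuous_const

lemma Dn_cs (hb : BaseKer 2 M c0 b) (hR : 0 ≤ R) (hU : ContDiff ℝ ∞ U) (hW : ContDiff ℝ ∞ W)
    (k : ℕ) {v : Sp d → Sp d} (hv : SV v) : HasCompactSupport (Dn b R k U W n v) := by
  unfold Dn
  split_ifs
  · exact Av_cs U W hv n
  · exact Nv_cs hb hR hU hW hv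
  · exact HasCompactSupport.zero

lemma Dn_zero (b : Sp d → ℝ) (R : ℝ) (k : ℕ) (U W : Sp d → ℝ) (n x : Sp d) :
    Dn b R k U W n (fun _ => 0) x = 0 := by
  have h1 : Sv U W (fun _ => 0) = fun _ => 0 := by
    ext x; unfold Sv; simp
  have h2 : Yv U W (fun _ => 0) = fun _ _ _ => 0 := by
    ext i j x; unfold Yv; simp
  have h3 : dd2 (fun (_ _ : Fin d) (_ : Sp d) => (0 : ℝ)) = fun _ => 0 := by
    ext x
    unfold dd2 pd2
    refine Finset.sum_eq_zero fun i _ => Finset.sum_eq_zero fun j _ => ?_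
    rw [show (fun _ : Sp d => (0 : ℝ)) = 0 from rfl]
    simp
  unfold Dn
  split_ifs
  · unfold Av; simp
  · unfold Nv
    rw [h1, h2]
    unfold nt NNp avk
    rw [h3]
    simp
  · rfl

lemma Fl_zero (b : Sp d → ℝ) (R : ℝ) (k : ℕ) (U W m : Sp d → ℝ) (n : Sp d) :
    Fl b R k U W m n (fun _ => 0) = 0 := by
  unfold Fl
  simp [Dn_zero]

lemma Fl_add (hb : BaseKer 2 M c0 b) (hR : 0 ≤ R) (hU : ContDiff ℝ ∞ U) (hW : ContDiff ℝ ∞ W)
    (k : ℕ) {m : Sp d → ℝ} (hm : Continuous m) {v w : Sp d → Sp d} (hv : SV v) (hw : SV w) :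
    Fl b R k U W m n (fun x => v x + w x) = Fl b R k U W m n v + Fl b R k U W m n w := by
  unfold Fl
  have hI : ∀ u : Sp d → Sp d, SV u → Integrable (fun y => m y * Dn b R k U W n u y) := fun u hu =>
    (hm.mul (Dn_cont hb hR hU hW k hu)).integrable_of_hasCompactSupport
      (Dn_cs hb hR hU hW k hu).mul_left
  rw [← integral_add (hI v hv) (hI w hw)]
  refine integral_congr_ae (Eventually.of_forall fun y => ?_)
  beta_reduce
  rw [Dn_add hb hR hU hW k hv hw]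
  ring

lemma SV.sum {ι : Type*} (S : Finset ι) {v : ι → Sp d → Sp d} (hv : ∀ i ∈ S, SV (v i)) :
    SV (fun x => ∑ i ∈ S, v i x) := by
  classical
  induction S using Finset.induction_on with
  | empty => simpa using SV.zero
  | insert i S hi ih =>
    have h1 : (fun x => ∑ k ∈ insert i S, v k x) = fun x => v i x + ∑ k ∈ S, v k x := by
      ext1 x
      rw [Finset.sum_insert hi]
    rw [h1]
    exact (hv i (Finset.mem_insert_self _ _)).add
      (ih fun k hk => hv k (Finset.mem_insert_of_mem hk))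

lemma Fl_sum (hb : BaseKer 2 M c0 b) (hR : 0 ≤ R) (hU : ContDiff ℝ ∞ U) (hW : ContDiff ℝ ∞ W)
    (k : ℕ) {m : Sp d → ℝ} (hm : Continuous m) {ι : Type*} (S : Finset ι) {v : ι → Sp d → Sp d}
    (hv : ∀ i ∈ S, SV (v i)) :
    Fl b R k U W m n (fun x => ∑ i ∈ S, v i x) = ∑ i ∈ S, Fl b R k U W m n (v i) := by
  classical
  induction S using Finset.induction_on with
  | empty => simpa using Fl_zero b R k U W m n
  | insert i S hi ih =>
    have h1 : (fun x => ∑ k ∈ insert i S, v k x) = fun x => v i x + ∑ k ∈ S, v k x := by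
      ext1 x
      rw [Finset.sum_insert hi]
    rw [h1, Finset.sum_insert hi, Fl_add hb hR hU hW k hm (hv i (Finset.mem_insert_self _ _))
      (SV.sum S fun k hk => hv k (Finset.mem_insert_of_mem hk)),
      ih fun k hk => hv k (Finset.mem_insert_of_mem hk)]

/-! support -/

lemma pd2_zero_open {g : Sp d → ℝ} {S : Set (Sp d)} (hS : IsOpen S) (hg : ∀ y ∈ S, g y = 0)
    (i j : Fin d) {x : Sp d} (hx : x ∈ S) : pd2 i j g x = 0 := by
  have h1 : g =ᶠ[nhds x] fun _ => 0 := by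
    filter_upwards [hS.mem_nhds hx] with y hy using hg y hy
  unfold pd2
  rw [(h1.iteratedFDeriv ℝ 2).eq_of_nhds]
  rw [show (fun _ : Sp d => (0 : ℝ)) = 0 from rfl]
  simp

lemma Dn_supp (hb : BaseKer 2 M c0 b) (hR : 0 ≤ R) (k : ℕ) {v : Sp d → Sp d} {x0 : Sp d} {ρ : ℝ}
    (hv : ∀ y, ρ ≤ ‖y - x0‖ → v y = 0) {y : Sp d} (hy : ρ + 1 + R ≤ ‖y - x0‖) :
    Dn b R k U W n v y = 0 := by
  have hv0 : v y = 0 := hv y (by linarith)
  unfold Dn
  split_ifs
  · unfold Av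
    rw [hv0]
    simp
  · unfold Nv
    have h1 : Sv U W v y = 0 := by
      unfold Sv; rw [hv0]; simp
    have h2 : avk b R (Sv U W v) y = 0 := by
      rw [hb.ak.avk_congr (g' := fun _ => 0) R y]
      · unfold avk; simp
      · intro z hz
        rw [abs_of_nonneg hR] at hz
        have h3 : v z = 0 := by
          refine hv z ?_
          have h4 : ‖y - x0‖ ≤ ‖z - x0‖ + ‖z - y‖ := by
            have h5 := norm_sub_le (z - x0) (z - y)
            rwa [show z - x0 - (z - y) = y - x0 by abel] at h5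
          linarith
        unfold Sv; rw [h3]; simp
    have h3 : nt b R (Yv U W v) y = 0 := by
      unfold nt
      rw [neg_eq_zero]
      refine NN.NNp_supp hb hR x0 (ρ + 1) ?_ y (by linarith)
      intro z hz
      unfold dd2
      refine Finset.sum_eq_zero fun i _ => Finset.sum_eq_zero fun j _ => ?_
      refine pd2_zero_open (S := {z | ρ < ‖z - x0‖})
        (isOpen_lt continuous_const (by fun_prop)) ?_ i j (by
          show ρ < ‖z - x0‖
          linarith)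
      intro w hw
      have h4 : v w = 0 := hv w (le_of_lt hw)
      unfold Yv; rw [h4]; simp
    rw [h1, h2, h3]
    simp
  · rfl

/-! translations -/

lemma fderiv_shift {F : Type*} [NormedAddCommGroup F] [NormedSpace ℝ F] (g : Sp d → F)
    (a y : Sp d) : fderiv ℝ (fun z => g (a + z)) y = fderiv ℝ g (a + y) :=
  fderiv_comp_add_left a

lemma avk_shift (ψ : Sp d → ℝ) (s : ℝ) (g : Sp d → ℝ) (a y : Sp d) :
    avk ψ s (fun z => g (a + z)) y = avk ψ s g (a + y) := by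
  unfold avk
  simp only [add_assoc]

lemma nt_shift (b : Sp d → ℝ) (R : ℝ) (F : Fin d → Fin d → Sp d → ℝ) (a y : Sp d) :
    nt b R (fun i j z => F i j (a + z)) y = nt b R F (a + y) := by
  unfold nt NNp
  have h1 : dd2 (fun i j z => F i j (a + z)) = fun z => dd2 F (a + z) := by
    ext z
    unfold dd2 pd2
    simp only [iteratedFDeriv_comp_add_left]
  rw [h1]
  simp only [avk_shift]

lemma Dn_shift (b : Sp d → ℝ) (R : ℝ) (k : ℕ) (U W : Sp d → ℝ) (n : Sp d) (v : Sp d → Sp d)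
    (a y : Sp d) :
    Dn b R k (fun z => U (a + z)) (fun z => W (a + z)) n (fun z => v (a + z)) y =
      Dn b R k U W n v (a + y) := by
  have h1 : Sv (fun z => U (a + z)) (fun z => W (a + z)) (fun z => v (a + z)) =
      fun z => Sv U W v (a + z) := by
    ext z
    unfold Sv
    rw [fderiv_shift]
  have h2 : Yv (fun z => U (a + z)) (fun z => W (a + z)) (fun z => v (a + z)) =
      fun i j z => Yv U W v i j (a + z) := by
    ext i j z
    unfold Yv
    rw [fderiv_shift]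
  unfold Dn
  split_ifs
  · unfold Av
    rw [fderiv_shift]
  · unfold Nv
    rw [h1, h2, avk_shift, nt_shift]
  · rfl

lemma Fl_shift (b : Sp d → ℝ) (R : ℝ) (k : ℕ) (U W m : Sp d → ℝ) (n : Sp d) (v : Sp d → Sp d)
    (a : Sp d) :
    Fl b R k (fun z => U (a + z)) (fun z => W (a + z)) (fun z => m (a + z)) n
      (fun z => v (a + z)) = Fl b R k U W m n v := by
  unfold Fl
  simp only [Dn_shift]
  exact integral_add_left_eq_self (fun y => m y * Dn b R k U W n v y) a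

/-- a field supported away from the density -/
lemma Fl_far (hb : BaseKer 2 M c0 b) (hR : 0 ≤ R) (k : ℕ) {m : Sp d → ℝ} {v : Sp d → Sp d}
    {x0 : Sp d} {ρ : ℝ} (hv : ∀ y, ρ ≤ ‖y - x0‖ → v y = 0)
    (hm : ∀ y, ‖y - x0‖ < ρ + 1 + R → m y = 0) : Fl b R k U W m n v = 0 := by
  unfold Fl
  refine integral_eq_zero_of_ae (Eventually.of_forall fun y => ?_)
  by_cases hy : ‖y - x0‖ < ρ + 1 + R
  · simp [hm y hy]
  · simp only [Pi.zero_apply]
    rw [Dn_supp hb hR k hv (not_lt.mp hy), mul_zero]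

end Lin

/-! ## The partition of unity -/

lemma chi_smooth : ContDiff ℝ ∞ (chi : Sp d → ℝ) := by
  unfold chi chi1
  refine contDiff_prod fun j _ => ?_
  have h1 : ContDiff ℝ ∞ Real.smoothTransition := Real.smoothTransition.contDiff
  have h2 : ContDiff ℝ ∞ fun y : Sp d => y j := by fun_prop
  exact (h1.comp (h2.add contDiff_const)).sub (h1.comp h2)

/-- translate of chi -/
def ch (p : Fin d → ℤ) (x : Sp d) : ℝ := chi (x - lat p)

lemma ch_smooth (p : Fin d → ℤ) : ContDiff ℝ ∞ (ch p) :=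
  chi_smooth.comp (contDiff_id.sub contDiff_const)

lemma lat_add (p r : Fin d → ℤ) : lat (p + r) = lat p + lat r := by
  ext j
  simp [lat]

lemma lat_sub (p r : Fin d → ℤ) : lat (p - r) = lat p - lat r := by
  ext j
  simp [lat]

lemma ch_zero (hd : 1 ≤ d) {p : Fin d → ℤ} {x : Sp d} (h : (d : ℝ) ≤ ‖x - lat p‖) : ch p x = 0 :=
  PTm.chi_supp h hd

lemma ch_grad_zero {p : Fin d → ℤ} {x : Sp d} (h : ch p x = 0) : gradient (ch p) x = 0 := by
  have h1 : IsLocalMin (ch p) x := Eventually.of_forall fun y => by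
    rw [h]; exact PTm.chi_nonneg _
  unfold gradient
  rw [h1.fderiv_eq_zero, map_zero]

lemma ch_pos {p : Fin d → ℤ} {x : Sp d} (h : ch p x ≠ 0) (j : Fin d) : |x j - p j| < 1 := by
  by_contra h1
  exact h (PTm.chi_zero (j := j) (not_lt.mp h1))

lemma SV_grad (hd : 1 ≤ d) (p : Fin d → ℤ) : SV (gradient (ch p)) where
  smooth := smooth_grad (ch_smooth p)
  cs := by
    refine HasCompactSupport.intro (isCompact_closedBall (lat p) d) fun x hx => ?_
    rw [mem_closedBall, dist_eq_norm, not_le] at hx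
    exact ch_grad_zero (ch_zero hd hx.le)

lemma SV_mul (hd : 1 ≤ d) (q p : Fin d → ℤ) : SV (fun x => ch q x • gradient (ch p) x) where
  smooth := (ch_smooth q).smul (SV_grad hd p).smooth
  cs := by
    refine (SV_grad hd p).cs.mono ?_
    intro x hx hx0
    exact hx (by
      show ch q x • gradient (ch p) x = 0
      rw [hx0, smul_zero])

lemma part1 (p : Fin d → ℤ) (x : Sp d) :
    ∑ r ∈ PTm.box d 1, ch (p + r) x • gradient (ch p) x = gradient (ch p) x := by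
  by_cases h : ch p x = 0
  · rw [ch_grad_zero h]
    simp
  · rw [← Finset.sum_smul]
    have h1 : ∑ r ∈ PTm.box d 1, ch (p + r) x = 1 := by
      have h2 := PTm.chi_sum (d := d) 1 (y := x - lat p) (fun j => by
        have := ch_pos h j
        rw [Nat.cast_one]
        exact this.le)
      rw [← h2]
      refine Finset.sum_congr rfl fun r _ => ?_
      unfold ch
      rw [lat_add, sub_sub]
    rw [h1, one_smul]

lemma box_neg (g : (Fin d → ℤ) → ℝ) : ∑ r ∈ PTm.box d 1, g (-r) = ∑ r ∈ PTm.box d 1, g r := by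
  refine Finset.sum_nbij' (fun r => -r) (fun r => -r) ?_ ?_ ?_ ?_ ?_
  · intro r hr
    simp only [PTm.box, Fintype.mem_piFinset, Finset.mem_Icc, Pi.neg_apply] at hr ⊢
    intro j
    have := hr j
    omega
  · intro r hr
    simp only [PTm.box, Fintype.mem_piFinset, Finset.mem_Icc, Pi.neg_apply] at hr ⊢
    intro j
    have := hr j
    omega
  · intro r _
    simp
  · intro r _
    simp
  · intro r _
    rfl

lemma part2 (q : Fin d → ℤ) (x : Sp d) :
    ∑ r ∈ PTm.box d 1, ch q x • gradient (ch (q - r)) x = 0 := by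
  by_cases h : ch q x = 0
  · simp [h]
  · rw [← Finset.smul_sum]
    have h1 : ∑ r ∈ PTm.box d 1, gradient (ch (q - r)) x =
        gradient (fun z => ∑ r ∈ PTm.box d 1, ch (q - r) z) x := by
      unfold gradient
      rw [fderiv_fun_sum fun r _ => ((ch_smooth (q - r)).differentiable (by simp)) x]
      rw [map_sum]
    have h2 : (fun z => ∑ r ∈ PTm.box d 1, ch (q - r) z) =ᶠ[nhds x] fun _ => 1 := by
      have h3 : IsOpen {z : Sp d | ∀ j, |z j - q j| < 1} := by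
        have : {z : Sp d | ∀ j, |z j - q j| < 1} = ⋂ j, {z : Sp d | |z j - q j| < 1} := by
          ext z; simp
        rw [this]
        exact isOpen_iInter_of_finite fun j => isOpen_lt (by fun_prop) continuous_const
      filter_upwards [h3.mem_nhds (ch_pos h)] with z hz
      have h4 := PTm.chi_sum (d := d) 1 (y := z - lat q) (fun j => by
        rw [Nat.cast_one]
        exact (hz j).le)
      rw [← h4, ← box_neg]
      refine Finset.sum_congr rfl fun r _ => ?_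
      unfold ch
      rw [lat_sub]
      congr 1
      have : lat (-r) = - lat r := by
        ext j
        simp [lat]
      rw [this]
      abel
    rw [h1]
    have h5 : gradient (fun z => ∑ r ∈ PTm.box d 1, ch (q - r) z) x = 0 := by
      unfold gradient
      rw [h2.fderiv_eq]
      simp
    rw [h5, smul_zero]

/-! ## The flux in the common frame -/

lemma flx_eq (X : Prm d) (k : ℕ) (χ χ' β : Sp d → ℝ) (μ : Measure (Sp d)) (m : Sp d → ℝ)
    (n : Sp d) :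
    flx X k χ χ' β μ m n = Fl X.b X.RN k (Ups X.p0 X.A μ 1) (WW β X.ε μ 1) m n
      (fun x => χ' x • gradient χ x) := by
  unfold flx Fl Dn
  split_ifs with h0 h1
  · refine integral_congr_ae (Eventually.of_forall fun y => ?_)
    beta_reduce
    congr 1
    unfold fxA Av tang
    rw [map_smul, ← inner_grad (WW β X.ε μ 1) y (gradient χ y), ← inner_grad (WW β X.ε μ 1) y n]
    simp only [inner_sub_left, inner_sub_right, inner_smul_left, inner_smul_right, smul_eq_mul,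
      real_inner_self_eq_norm_sq, conj_trivial]
    rw [real_inner_comm n (gradient χ y)]
    ring
  · refine integral_congr_ae (Eventually.of_forall fun y => ?_)
    beta_reduce
    congr 1
    have e1 : Sv (Ups X.p0 X.A μ 1) (WW β X.ε μ 1) (fun x => χ' x • gradient χ x) =
        fun x => χ' x * Ups X.p0 X.A μ 1 x * ⟪gradient χ x, gradient (WW β X.ε μ 1) x⟫_ℝ := by
      ext x
      unfold Sv
      rw [map_smul, inner_grad, smul_eq_mul]
      ring
    have e2 : Yv (Ups X.p0 X.A μ 1) (WW β X.ε μ 1) (fun x => χ' x • gradient χ x) =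
        fun i j x => χ' x * Ups X.p0 X.A μ 1 x * (1 / 2 *
        (fderiv ℝ χ x (bv i) * fderiv ℝ (WW β X.ε μ 1) x (bv j)
        + fderiv ℝ χ x (bv j) * fderiv ℝ (WW β X.ε μ 1) x (bv i))) := by
      ext i j x
      unfold Yv
      rw [PiLp.smul_apply, PiLp.smul_apply, grad_apply, grad_apply, smul_eq_mul, smul_eq_mul]
      ring
    unfold fxB Nv
    rw [e1, e2]
  · simp

/-! ## Frames -/

lemma U_eq (p0 A s0 : ℝ) (hs : 0 < s0) (μ : Measure (Sp d)) (i : ℕ) (p : Fin d → ℤ) :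
    Ups p0 A (muQ s0 μ (i, p)) 1 = fun y => Ups p0 A (rsm 0 (lev s0 i) μ) 1 (lat p + y) := by
  ext y
  have ht : 0 < lev s0 i := by unfold lev; positivity
  unfold muQ xC cen
  rw [SE.Ups_rsm _ _ _ ht, SE.Ups_rsm _ _ _ ht, zero_add, smul_add]

lemma W_eq (β : Sp d → ℝ) (ε s0 : ℝ) (hs : 0 < s0) (μ : Measure (Sp d)) (i : ℕ)
    (p : Fin d → ℤ) :
    WW β ε (muQ s0 μ (i, p)) 1 = fun y => WW β ε (rsm 0 (lev s0 i) μ) 1 (lat p + y) := by
  ext y
  have ht : 0 < lev s0 i := by unfold lev; positivity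
  unfold muQ xC cen
  rw [SC.WW_rsm _ _ _ ht, SC.WW_rsm _ _ _ ht, zero_add, smul_add]

lemma G_eq (β : Sp d → ℝ) (ε s0 : ℝ) (hs : 0 < s0) (μ : Measure (Sp d)) (i : ℕ)
    (p : Fin d → ℤ) (y : Sp d) :
    GG β ε (muQ s0 μ (i, p)) 1 y = GG β ε μ (lev s0 i) (cen s0 i p + lev s0 i • y) := by
  have ht : 0 < lev s0 i := by unfold lev; positivity
  unfold muQ xC
  rw [SC.GG_rsm _ _ _ ht, mul_one]

section Frame

variable {E : Type} [NormedAddCommGroup E] [InnerProductSpace ℝ E]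

/-- the density in the common frame -/
def m0 (s0 : ℝ) (f : Sp d → E) (i : ℕ) (e : E) (y : Sp d) : ℝ := ⟪rs 0 (lev s0 i) f y, e⟫_ℝ

lemma m_eq (s0 : ℝ) (f : Sp d → E) (i : ℕ) (e : E) (p : Fin d → ℤ) :
    mQ s0 f e (i, p) = fun y => m0 s0 f i e (lat p + y) := by
  ext y
  unfold mQ m0 rs xC cen
  rw [zero_add, smul_add]

lemma m0_cont (s0 : ℝ) {f : Sp d → E} (hf : Continuous f) (i : ℕ) (e : E) :
    Continuous (m0 s0 f i e) := by
  unfold m0 rs
  exact (continuous_const.smul (hf.comp (by fun_prop))).inner continuous_const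

lemma frame (X : Prm d) (s0 : ℝ) (hs : 0 < s0) (μ : Measure (Sp d)) (f : Sp d → E) (i k : ℕ)
    (n : Sp d) (e : E) (β : Sp d → ℝ) (p : Fin d → ℤ) (χ' : Sp d → ℝ) :
    flx X k chi (fun x => χ' (lat p + x)) β (muQ s0 μ (i, p)) (mQ s0 f e (i, p)) n =
      Fl X.b X.RN k (Ups X.p0 X.A (rsm 0 (lev s0 i) μ) 1) (WW β X.ε (rsm 0 (lev s0 i) μ) 1)
        (m0 s0 f i e) n (fun x => χ' x • gradient (ch p) x) := by
  rw [flx_eq, U_eq _ _ _ hs, W_eq _ _ _ hs, m_eq, ← Fl_shift X.b X.RN k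
    (Ups X.p0 X.A (rsm 0 (lev s0 i) μ) 1) (WW β X.ε (rsm 0 (lev s0 i) μ) 1)
        (m0 s0 f i e) n (fun x => χ' x • gradient (ch p) x) (lat p)]
  congr 1
  ext1 x
  congr 1
  have h1 : gradient (ch p) (lat p + x) = gradient (chi : Sp d → ℝ) x := by
    unfold gradient
    congr 1
    have h2 : (ch p : Sp d → ℝ) = fun z => chi (z - lat p) := rfl
    rw [h2, fderiv_comp_sub, add_sub_cancel_left]
  exact h1.symm

/-- the functional of the cell p in the common frame -/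
def Ph (X : Prm d) (s0 : ℝ) (μ : Measure (Sp d)) (f : Sp d → E) (e : Cell d → E)
    (kd : Cell d → ℕ) (nv : Cell d → Sp d) (i : ℕ) (p : Fin d → ℤ) (v : Sp d → Sp d) : ℝ :=
  Fl X.b X.RN (kd (i, p)) (Ups X.p0 X.A (rsm 0 (lev s0 i) μ) 1)
    (WW (KN X.b (i - 2)) X.ε (rsm 0 (lev s0 i) μ) 1) (m0 s0 f i (e (i, p))) (nv (i, p)) v

lemma Fct_eq (X : Prm d) (s0 : ℝ) (hs : 0 < s0) (μ : Measure (Sp d)) (f : Sp d → E)
    (e : Cell d → E) (kd : Cell d → ℕ) (nv : Cell d → Sp d) (i : ℕ) (p q : Fin d → ℤ) :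
    Fct X s0 μ f e kd nv (i, p) (i, q) =
      Ph X s0 μ f e kd nv i p (fun x => ch q x • gradient (ch p) x)
        - Ph X s0 μ f e kd nv i q (fun x => ch q x • gradient (ch p) x) := by
  have h1 : (fun x : Sp d => chi (x - dsp (i, p) (i, q))) = fun x => ch q (lat p + x) := by
    ext x
    unfold ch dsp
    congr 1
    have h2 : lat (fun j => q j - p j) = lat q - lat p := lat_sub q p
    show x - lat (fun j => q j - p j) = _
    rw [h2]
    abel
  unfold Fct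
  rw [h1]
  show flx X (kd (i, p)) chi (fun x => ch q (lat p + x)) (KN X.b (i - 2)) (muQ s0 μ (i, p))
      (mQ s0 f (e (i, p)) (i, p)) (nv (i, p))
    - flx X (kd (i, q)) chi (fun x => ch q (lat p + x)) (KN X.b (i - 2)) (muQ s0 μ (i, p))
      (mQ s0 f (e (i, q)) (i, p)) (nv (i, q)) = _
  rw [frame X s0 hs, frame X s0 hs]
  rfl

lemma sum_adj (i : ℕ) (p : Fin d → ℤ) (g : Cell d → ℝ) :
    ∑ Q ∈ adj (i, p), g Q = ∑ r ∈ PTm.box d 1, g (i, p + r) := by
  unfold adj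
  rw [Finset.sum_product]
  simp only [Finset.sum_singleton]
  symm
  refine Finset.sum_nbij' (fun r => p + r) (fun q => q - p) ?_ ?_ ?_ ?_ ?_
  · intro r hr
    simp only [PTm.box, Fintype.mem_piFinset, Finset.mem_Icc, Pi.add_apply] at hr ⊢
    intro j
    have := hr j
    omega
  · intro r hr
    simp only [PTm.box, Fintype.mem_piFinset, Finset.mem_Icc, Pi.sub_apply] at hr ⊢
    intro j
    have := hr j
    omega
  · intro r _
    simp
  · intro r _
    simp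
  · intro r _
    rfl

end Frame

/-! ## The identity of a single cell -/

section Cell1

variable {E : Type} [NormedAddCommGroup E] [InnerProductSpace ℝ E]

lemma chi_cs (hd : 1 ≤ d) : HasCompactSupport (chi : Sp d → ℝ) :=
  HasCompactSupport.intro (isCompact_closedBall (0 : Sp d) d) fun x hx => PTm.chi_supp (by
    rw [mem_closedBall, dist_zero_right, not_le] at hx
    exact hx.le) hd

lemma SV_chi (hd : 1 ≤ d) : SV (fun x : Sp d => (1 : ℝ) • gradient (chi : Sp d → ℝ) x) where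
  smooth := by
    simp only [one_smul]
    exact smooth_grad chi_smooth
  cs := by
    refine HasCompactSupport.intro (isCompact_closedBall (0 : Sp d) d) fun x hx => ?_
    rw [mem_closedBall, dist_zero_right, not_le] at hx
    have h1 : ch (0 : Fin d → ℤ) x = 0 := ch_zero hd (by
      have : lat (0 : Fin d → ℤ) = 0 := by ext j; simp [lat]
      rw [this, sub_zero]; exact hx.le)
    have h2 := ch_grad_zero h1
    have h3 : (ch (0 : Fin d → ℤ) : Sp d → ℝ) = chi := by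
      ext z
      unfold ch
      have : lat (0 : Fin d → ℤ) = 0 := by ext j; simp [lat]
      rw [this, sub_zero]
    rw [h3] at h2
    rw [h2, smul_zero]

lemma int3 {m F G H K : Sp d → ℝ} (hG : Integrable (fun y => m y * G y))
    (hH : Integrable (fun y => m y * H y)) (hK : Integrable (fun y => m y * K y))
    (h : ∀ y, F y = (G y - H y) + K y) :
    ∫ y, m y * F y = ((∫ y, m y * G y) - ∫ y, m y * H y) + ∫ y, m y * K y := by
  have h1 : Integrable (fun y => m y * G y - m y * H y) := hG.sub hH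
  simp only [h, mul_add, mul_sub]
  rw [integral_add h1 hK, integral_sub hG hH]

/-- the smoothness facts of one frame -/
structure SmF (X : Prm d) (β : Sp d → ℝ) (μ : Measure (Sp d)) : Prop where
  U : ContDiff ℝ ∞ (Ups X.p0 X.A μ 1)
  W : ContDiff ℝ ∞ (WW β X.ε μ 1)
  G : ContDiff ℝ ∞ (GG β X.ε μ 1)
  H : ∀ n : Sp d, ‖n‖ = 1 → ContDiff ℝ ∞ (Hn β X.ε X.p0 X.A μ n 1)

lemma smF (hUB : StmtUB) (hd : 2 ≤ d) {M c0 C' : ℝ} (hC : 0 < C') {X : Prm d}
    (hX : PrmOK M c0 X) {β : Sp d → ℝ} (hβ : Kit 4 M β) {μ : Measure (Sp d)} (hμ : Gro C' μ) :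
    SmF X β μ := by
  have hε := hX.ε_le
  obtain ⟨C, -, h⟩ := hUB d 0 hd M C' X.ε X.p0 X.A hC hX.ε_pos (by linarith) hX.p0_pos hX.p0_le
    hX.A_ge
  obtain ⟨h1, h2, -, -, -, -, -, h3, -, h4, -, -⟩ := h β hβ μ hμ
  exact ⟨h3, h1, h2, fun n hn => (h4 n hn).1⟩

lemma own_total (hHH : StmtHH) (hUB : StmtUB) (hd : 2 ≤ d) {M c0 C' : ℝ} (hC : 0 < C')
    {X : Prm d} (hX : PrmOK M c0 X) {f : Sp d → E} (hf : Continuous f) {μ : Measure (Sp d)}
    (hμ : Gro C' μ) {s0 : ℝ} (hs : 0 < s0) (e : Cell d → E) (kd : Cell d → ℕ)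
    (nv : Cell d → Sp d) (Q : Cell d) (hn : kd Q = 0 → ‖nv Q‖ = 1) :
    Gam X s0 μ f e kd nv Q + Vct X s0 μ f e kd nv Q
      - flx X (kd Q) chi (fun _ => 1) (bQ X.b Q) (muQ s0 μ Q) (mQ s0 f (e Q) Q) (nv Q)
      = ∫ y, mQ s0 f (e Q) Q y * (chi y * GG (bQ X.b Q) X.ε (muQ s0 μ Q) 1 y) := by
  have hd1 : 1 ≤ d := by omega
  have ht : 0 < lev s0 Q.1 := by unfold lev; positivity
  have hε := hX.ε_le
  have hR : 0 ≤ X.RN := by linarith [hX.RN_ge]
  have hb2 := PTm.base_mono (J' := 2) (by norm_num) hX.ker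
  have hb10 := PTm.base_mono (J' := 10) (by norm_num) hX.ker
  have hk : Kit 14 M (bQ X.b Q) := hX.ker.kit _
  have hk4 := PTm.kit_mono (J' := 4) (by norm_num) hk
  have hk10 := PTm.kit_mono (J' := 10) (by norm_num) hk
  have hμQ : Gro C' (muQ s0 μ Q) := SC.gro_rsm hd1 hμ _ ht
  have hS := smF hUB hd hC hX hk4 hμQ
  obtain ⟨-, hH2, hH3⟩ := hHH d hd M C' X.ε X.p0 X.A hC hX.ε_pos (by linarith) hX.p0_pos hX.p0_le
    hX.A_ge (bQ X.b Q) hk10 (muQ s0 μ Q) hμQ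
  have hm : Continuous (mQ s0 f (e Q) Q) := by
    unfold mQ rs
    exact (continuous_const.smul (hf.comp (by fun_prop))).inner continuous_const
  have hcG : Continuous fun y => chi y * GG (bQ X.b Q) X.ε (muQ s0 μ Q) 1 y :=
    chi_smooth.continuous.mul hS.G.continuous
  have hcGc : HasCompactSupport fun y => chi y * GG (bQ X.b Q) X.ε (muQ s0 μ Q) 1 y :=
    (chi_cs hd1).mul_right
  have hint : ∀ g : Sp d → ℝ, Continuous g → HasCompactSupport g →
      Integrable (fun y => mQ s0 f (e Q) Q y * g y) := fun g hg hgc =>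
    (hm.mul hg).integrable_of_hasCompactSupport hgc.mul_left
  have hDc := fun k => Dn_cont (n := nv Q) hb2 hR hS.U hS.W k (SV_chi hd1)
  have hDs := fun k => Dn_cs (n := nv Q) hb2 hR hS.U hS.W k (SV_chi hd1)
  rw [flx_eq]
  unfold Fl
  rcases Nat.lt_trichotomy (kd Q) 1 with h | h | h
  · have hk0 : kd Q = 0 := by omega
    have hn1 := hn hk0
    have hD : ∀ y, Dn X.b X.RN 0 (Ups X.p0 X.A (muQ s0 μ Q) 1)
        (WW (bQ X.b Q) X.ε (muQ s0 μ Q) 1) (nv Q)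
        (fun x => (1 : ℝ) • gradient (chi : Sp d → ℝ) x) y =
          fxA chi (fun _ => 1) (bQ X.b Q) X.ε X.p0 X.A (muQ s0 μ Q) (nv Q) y := by
      intro y
      unfold Dn fxA Av tang
      rw [if_pos rfl, map_smul, ← inner_grad (WW (bQ X.b Q) X.ε (muQ s0 μ Q) 1) y (gradient chi y),
        ← inner_grad (WW (bQ X.b Q) X.ε (muQ s0 μ Q) 1) y (nv Q)]
      simp only [inner_sub_left, inner_sub_right, inner_smul_left, inner_smul_right, smul_eq_mul,
        real_inner_self_eq_norm_sq, conj_trivial]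
      rw [real_inner_comm (nv Q) (gradient chi y)]
      ring
    have hV : ∀ y, dvT chi (bQ X.b Q) X.ε X.p0 X.A (muQ s0 μ Q) (nv Q) y =
        (chi y * GG (bQ X.b Q) X.ε (muQ s0 μ Q) 1 y
          - chi y * Hn (bQ X.b Q) X.ε X.p0 X.A (muQ s0 μ Q) (nv Q) 1 y)
          + Dn X.b X.RN 0 (Ups X.p0 X.A (muQ s0 μ Q) 1)
            (WW (bQ X.b Q) X.ε (muQ s0 μ Q) 1) (nv Q)
            (fun x => (1 : ℝ) • gradient (chi : Sp d → ℝ) x) y := by
      intro y
      rw [hD, hH2 (nv Q) hn1 chi chi_smooth y]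
      ring
    have hI1 := hint _ hcG hcGc
    have hI2 := hint (fun y => chi y * Hn (bQ X.b Q) X.ε X.p0 X.A (muQ s0 μ Q) (nv Q) 1 y)
      (chi_smooth.continuous.mul (hS.H _ hn1).continuous) (chi_cs hd1).mul_right
    have hI3 := hint _ (hDc 0) (hDs 0)
    unfold Gam Vct
    rw [hk0]
    simp only [if_true]
    have e1 : ∫ y, mQ s0 f (e Q) Q y * dvT chi (bQ X.b Q) X.ε X.p0 X.A (muQ s0 μ Q) (nv Q) y =
        ((∫ y, mQ s0 f (e Q) Q y * (chi y * GG (bQ X.b Q) X.ε (muQ s0 μ Q) 1 y))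
          - ∫ y, mQ s0 f (e Q) Q y *
            (chi y * Hn (bQ X.b Q) X.ε X.p0 X.A (muQ s0 μ Q) (nv Q) 1 y))
        + ∫ y, mQ s0 f (e Q) Q y * Dn X.b X.RN 0 (Ups X.p0 X.A (muQ s0 μ Q) 1)
            (WW (bQ X.b Q) X.ε (muQ s0 μ Q) 1) (nv Q)
            (fun x => (1 : ℝ) • gradient (chi : Sp d → ℝ) x) y := by
      exact int3 hI1 hI2 hI3 hV
    rw [e1]
    ring
  · have hcc := hb2.ak.avk_cont hcG X.RN
    have hccs := hb2.ak.avk_cs hcGc X.RN
    have hD : ∀ y, Dn X.b X.RN 1 (Ups X.p0 X.A (muQ s0 μ Q) 1)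
        (WW (bQ X.b Q) X.ε (muQ s0 μ Q) 1) (nv Q)
        (fun x => (1 : ℝ) • gradient (chi : Sp d → ℝ) x) y =
          (Ups X.p0 X.A (muQ s0 μ Q) 1 y *
              ⟪gradient chi y, gradient (WW (bQ X.b Q) X.ε (muQ s0 μ Q) 1) y⟫_ℝ
            - avk X.b X.RN (fun x => Ups X.p0 X.A (muQ s0 μ Q) 1 x *
                ⟪gradient chi x, gradient (WW (bQ X.b Q) X.ε (muQ s0 μ Q) 1) x⟫_ℝ) y
            - nt X.b X.RN (fun i j x => Ups X.p0 X.A (muQ s0 μ Q) 1 x * (1 / 2 *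
                (fderiv ℝ chi x (bv i) * fderiv ℝ (WW (bQ X.b Q) X.ε (muQ s0 μ Q) 1) x (bv j)
                + fderiv ℝ chi x (bv j) *
                  fderiv ℝ (WW (bQ X.b Q) X.ε (muQ s0 μ Q) 1) x (bv i)))) y) := by
      intro y
      unfold Dn
      rw [if_neg one_ne_zero, if_pos rfl]
      unfold Nv
      have e1 : Sv (Ups X.p0 X.A (muQ s0 μ Q) 1) (WW (bQ X.b Q) X.ε (muQ s0 μ Q) 1)
          (fun x => (1 : ℝ) • gradient (chi : Sp d → ℝ) x) =
          fun x => Ups X.p0 X.A (muQ s0 μ Q) 1 x *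
            ⟪gradient chi x, gradient (WW (bQ X.b Q) X.ε (muQ s0 μ Q) 1) x⟫_ℝ := by
        ext x
        unfold Sv
        simp only [one_smul]
        rw [inner_grad]
      have e2 : Yv (Ups X.p0 X.A (muQ s0 μ Q) 1) (WW (bQ X.b Q) X.ε (muQ s0 μ Q) 1)
          (fun x => (1 : ℝ) • gradient (chi : Sp d → ℝ) x) =
          fun i j x => Ups X.p0 X.A (muQ s0 μ Q) 1 x * (1 / 2 *
            (fderiv ℝ chi x (bv i) * fderiv ℝ (WW (bQ X.b Q) X.ε (muQ s0 μ Q) 1) x (bv j)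
            + fderiv ℝ chi x (bv j) *
              fderiv ℝ (WW (bQ X.b Q) X.ε (muQ s0 μ Q) 1) x (bv i))) := by
        ext i j x
        unfold Yv
        simp only [one_smul]
        rw [grad_apply, grad_apply]
      rw [e1, e2]
    have hN : ∀ y, nt X.b X.RN (fun i j x => chi x *
        HHm (bQ X.b Q) X.ε X.p0 X.A (muQ s0 μ Q) i j x) y =
        (chi y * GG (bQ X.b Q) X.ε (muQ s0 μ Q) 1 y
          - avk X.b X.RN (fun x => chi x * GG (bQ X.b Q) X.ε (muQ s0 μ Q) 1 x) y)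
          + Dn X.b X.RN 1 (Ups X.p0 X.A (muQ s0 μ Q) 1)
            (WW (bQ X.b Q) X.ε (muQ s0 μ Q) 1) (nv Q)
            (fun x => (1 : ℝ) • gradient (chi : Sp d → ℝ) x) y := by
      intro y
      have h3 := hH3 X.b M c0 hb10 X.RN (by linarith [hX.RN_ge]) chi chi_smooth (chi_cs hd1) y
      rw [hD]
      linarith
    have hI1 := hint _ hcG hcGc
    have hI2 := hint _ hcc hccs
    have hI3 := hint _ (hDc 1) (hDs 1)
    unfold Gam Vct
    rw [h]
    simp only [one_ne_zero, if_false, if_true]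
    have e1 : ∫ y, mQ s0 f (e Q) Q y *
        nt X.b X.RN (fun i j x => chi x *
          HHm (bQ X.b Q) X.ε X.p0 X.A (muQ s0 μ Q) i j x) y =
        ((∫ y, mQ s0 f (e Q) Q y * (chi y * GG (bQ X.b Q) X.ε (muQ s0 μ Q) 1 y))
          - ∫ y, mQ s0 f (e Q) Q y *
            avk X.b X.RN (fun x => chi x * GG (bQ X.b Q) X.ε (muQ s0 μ Q) 1 x) y)
        + ∫ y, mQ s0 f (e Q) Q y * Dn X.b X.RN 1 (Ups X.p0 X.A (muQ s0 μ Q) 1)
            (WW (bQ X.b Q) X.ε (muQ s0 μ Q) 1) (nv Q)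
            (fun x => (1 : ℝ) • gradient (chi : Sp d → ℝ) x) y := by
      exact int3 hI1 hI2 hI3 hN
    rw [e1]
    ring
  · have h0 : kd Q ≠ 0 := by omega
    have h1 : kd Q ≠ 1 := by omega
    unfold Gam Vct Dn
    simp [h0, h1]

end Cell1

/-! ## The sum over one level -/

lemma lat_fin (ρ : ℝ) : {p : Fin d → ℤ | ‖(lat p : Sp d)‖ < ρ}.Finite := by
  obtain ⟨L, hL⟩ := exists_nat_ge ρ
  refine (PTm.box d L).finite_toSet.subset ?_
  intro p hp
  have hp' : ‖(lat p : Sp d)‖ < ρ := hp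
  simp only [PTm.box, Finset.mem_coe, Fintype.mem_piFinset, Finset.mem_Icc]
  intro j
  have h1 : |((p j : ℤ) : ℝ)| ≤ ‖(lat p : Sp d)‖ := by
    have := PiLp.norm_apply_le (lat p : Sp d) j
    rwa [Real.norm_eq_abs] at this
  have h2 : |((p j : ℤ) : ℝ)| ≤ L := by linarith
  have h3 := abs_le.mp h2
  constructor
  · have : ((-(L : ℤ) : ℤ) : ℝ) ≤ (p j : ℝ) := by push_cast; linarith
    exact_mod_cast this
  · exact_mod_cast h3.2

section Level

variable {E : Type} [NormedAddCommGroup E] [InnerProductSpace ℝ E]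

lemma cell_int (hd : 1 ≤ d) {s0 : ℝ} (hs : 0 < s0) (f : Sp d → E) (e : E) (β : Sp d → ℝ)
    (ε : ℝ) (μ : Measure (Sp d)) (i : ℕ) (p : Fin d → ℤ) :
    cw s0 (i, p) * ∫ y, mQ s0 f e (i, p) y * (chi y * GG β ε (muQ s0 μ (i, p)) 1 y) =
      ∫ y, chiQ (cen s0 i p) (lev s0 i) y * ⟪f y, e⟫_ℝ * GG β ε μ (lev s0 i) y := by
  have ht : 0 < lev s0 i := by unfold lev; positivity
  set t := lev s0 i with htd
  obtain ⟨g, hg⟩ : ∃ g : Sp d → ℝ, ∀ z, g z =
      t * (chiQ (cen s0 i p) t z * ⟪f z, e⟫_ℝ * GG β ε μ t z) := ⟨_, fun _ => rfl⟩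
  have h1 : ∀ y, mQ s0 f e (i, p) y * (chi y * GG β ε (muQ s0 μ (i, p)) 1 y) =
      g (cen s0 i p + t • y) := by
    intro y
    rw [G_eq β ε s0 hs, hg]
    unfold mQ rs xC chiQ
    rw [real_inner_smul_left]
    have h2 : (1 / t) • (cen s0 i p + t • y - cen s0 i p) = y := by
      rw [add_sub_cancel_left, smul_smul]
      have : 1 / t * t = 1 := by field_simp
      rw [this, one_smul]
    show t * ⟪f (cen s0 i p + t • y), e⟫_ℝ * (chi y * GG β ε μ t (cen s0 i p + t • y)) = _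
    rw [h2]
    ring
  simp only [h1]
  rw [SD.int_scale (cen s0 i p) ht g]
  simp only [hg]
  rw [integral_const_mul]
  unfold cw
  show t ^ (d - 1) * _ = _
  have h3 : t ^ d = t ^ (d - 1) * t := by
    rw [← pow_succ]
    congr 1
    omega
  rw [h3]
  have h4 : t ^ (d - 1) ≠ 0 := by positivity
  field_simp

lemma level (hHH : StmtHH) (hUB : StmtUB) (hd : 2 ≤ d) {M c0 C' : ℝ} (hC : 0 < C')
    {X : Prm d} (hX : PrmOK M c0 X) {f : Sp d → E} (hf : Continuous f) (hfc : HasCompactSupport f)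
    {μ : Measure (Sp d)} (hμ : Gro C' μ) {s0 : ℝ} (hs : 0 < s0) (e : Cell d → E)
    (kd : Cell d → ℕ) (nv : Cell d → Sp d) (hn : ∀ Q, kd Q = 0 → ‖nv Q‖ = 1) (i : ℕ) :
    {p : Fin d → ℤ | net X s0 μ f e kd nv (i, p) ≠ 0}.Finite ∧
      ∑' p : Fin d → ℤ, net X s0 μ f e kd nv (i, p) =
        ∑' p : Fin d → ℤ, ∫ y, chiQ (cen s0 i p) (lev s0 i) y * ⟪f y, e (i, p)⟫_ℝ *
          GG (KN X.b (i - 2)) X.ε μ (lev s0 i) y := by
  have hd1 : 1 ≤ d := by omega
  have ht : 0 < lev s0 i := by unfold lev; positivity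
  have hR : 0 ≤ X.RN := by linarith [hX.RN_ge]
  have hb2 := PTm.base_mono (J' := 2) (by norm_num) hX.ker
  have hk : Kit 4 M (KN X.b (i - 2)) := PTm.kit_mono (J' := 4) (by norm_num) (hX.ker.kit _)
  have hμ0 : Gro C' (rsm 0 (lev s0 i) μ) := SC.gro_rsm hd1 hμ _ ht
  have hS := smF hUB hd hC hX hk hμ0
  -- support of the density
  obtain ⟨B, hB0, hB⟩ := PTm.cs_bd hfc
  obtain ⟨B', hB'⟩ : ∃ B' : ℝ, B' = B / lev s0 i + 1 := ⟨_, rfl⟩
  have hm0 : ∀ (e' : E) (y : Sp d), B' ≤ ‖y‖ → m0 s0 f i e' y = 0 := by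
    intro e' y hy
    unfold m0 rs
    have h1 : B < ‖(0 : Sp d) + lev s0 i • y‖ := by
      rw [zero_add, norm_smul, Real.norm_of_nonneg ht.le]
      have h2 : B / lev s0 i < ‖y‖ := by linarith
      rwa [div_lt_iff₀' ht] at h2
    rw [hB _ h1, smul_zero, inner_zero_left]
  -- notation
  obtain ⟨Ψ, hΨ⟩ : ∃ Ψ : (Fin d → ℤ) → (Fin d → ℤ) → ℝ, ∀ q p, Ψ q p =
      Ph X s0 μ f e kd nv i q (fun x => ch q x • gradient (ch p) x) :=
    ⟨fun q p => Ph X s0 μ f e kd nv i q (fun x => ch q x • gradient (ch p) x), fun _ _ => rfl⟩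
  obtain ⟨I, hI⟩ : ∃ I : (Fin d → ℤ) → ℝ, ∀ p, I p =
      ∫ y, mQ s0 f (e (i, p)) (i, p) y * (chi y * GG (KN X.b (i - 2)) X.ε (muQ s0 μ (i, p)) 1 y) :=
    ⟨fun p => _, fun _ => rfl⟩
  have hcw : ∀ p : Fin d → ℤ, cw s0 (i, p) = lev s0 i ^ (d - 1) := fun _ => rfl
  -- linearity
  have hlin : ∀ (q : Fin d → ℤ) (v : (Fin d → ℤ) → Sp d → Sp d), (∀ r, SV (v r)) →
      Ph X s0 μ f e kd nv i q (fun x => ∑ r ∈ PTm.box d 1, v r x) =
        ∑ r ∈ PTm.box d 1, Ph X s0 μ f e kd nv i q (v r) := by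
    intro q v hv
    exact Fl_sum hb2 hR hS.U hS.W _ (m0_cont s0 hf i _) _ fun r _ => hv r
  -- the sum of the incoming fluxes
  have hin : ∀ q, ∑ r ∈ PTm.box d 1, Ψ q (q - r) = 0 := by
    intro q
    simp only [hΨ]
    rw [← hlin q (fun r x => ch q x • gradient (ch (q - r)) x) fun r => SV_mul hd1 _ _]
    simp only [part2]
    exact Fl_zero _ _ _ _ _ _ _
  -- the net contribution
  have hnet : ∀ p, net X s0 μ f e kd nv (i, p) =
      lev s0 i ^ (d - 1) * I p + lev s0 i ^ (d - 1) * ∑ r ∈ PTm.box d 1, Ψ (p + r) p := by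
    intro p
    have h1 := own_total hHH hUB hd hC hX hf hμ hs e kd nv (i, p) (hn (i, p))
    have h2 : flx X (kd (i, p)) chi (fun _ => 1) (bQ X.b (i, p)) (muQ s0 μ (i, p))
        (mQ s0 f (e (i, p)) (i, p)) (nv (i, p)) =
        Ph X s0 μ f e kd nv i p (fun x => gradient (ch p) x) := by
      have h3 := frame X s0 hs μ f i (kd (i, p)) (nv (i, p)) (e (i, p)) (KN X.b (i - 2)) p
        (fun _ => 1)
      simp only [one_smul] at h3
      exact h3
    have h4 : Ph X s0 μ f e kd nv i p (fun x => gradient (ch p) x) =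
        ∑ r ∈ PTm.box d 1, Ph X s0 μ f e kd nv i p
          (fun x => ch (p + r) x • gradient (ch p) x) := by
      rw [← hlin p (fun r x => ch (p + r) x • gradient (ch p) x) fun r => SV_mul hd1 _ _]
      simp only [part1]
    have h5 : ∑ Q' ∈ adj (i, p), Fct X s0 μ f e kd nv (i, p) Q' =
        Ph X s0 μ f e kd nv i p (fun x => gradient (ch p) x)
          - ∑ r ∈ PTm.box d 1, Ψ (p + r) p := by
      rw [sum_adj, h4, ← Finset.sum_sub_distrib]
      refine Finset.sum_congr rfl fun r _ => ?_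
      rw [Fct_eq X s0 hs, hΨ]
    unfold net
    rw [h5, hcw, ← mul_add, hI]
    congr 1
    rw [h2] at h1
    show _ = (∫ y, mQ s0 f (e (i, p)) (i, p) y *
      (chi y * GG (bQ X.b (i, p)) X.ε (muQ s0 μ (i, p)) 1 y)) + _
    rw [← h1]
    ring
  -- supports
  have hIz : ∀ p, B' + d ≤ ‖(lat p : Sp d)‖ → I p = 0 := by
    intro p hp
    rw [hI]
    refine integral_eq_zero_of_ae (Eventually.of_forall fun y => ?_)
    simp only [Pi.zero_apply]
    by_cases hy : (d : ℝ) ≤ ‖y‖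
    · rw [PTm.chi_supp hy hd1]; ring
    · rw [m_eq]
      beta_reduce
      rw [hm0, zero_mul]
      have h1 : ‖(lat p : Sp d)‖ ≤ ‖(lat p : Sp d) + y‖ + ‖y‖ := by
        have h2 := norm_sub_le ((lat p : Sp d) + y) y
        rwa [add_sub_cancel_right] at h2
      push Not at hy
      linarith
  have hΨz : ∀ q p, B' + d + 1 + X.RN ≤ ‖(lat q : Sp d)‖ → Ψ q p = 0 := by
    intro q p hq
    rw [hΨ]
    unfold Ph
    refine Fl_far (x0 := lat q) (ρ := d) hb2 hR _ ?_ ?_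
    · intro y hy
      rw [ch_zero hd1 hy, zero_smul]
    · intro y hy
      refine hm0 _ _ ?_
      have h1 : ‖(lat q : Sp d)‖ ≤ ‖y‖ + ‖y - lat q‖ := by
        have h2 := norm_sub_le y (y - (lat q : Sp d))
        rwa [show y - (y - (lat q : Sp d)) = lat q by abel] at h2
      linarith
  obtain ⟨A1, hA1⟩ : ∃ A1 : Set (Fin d → ℤ), A1 = {p | ‖(lat p : Sp d)‖ < B' + d} := ⟨_, rfl⟩
  obtain ⟨A2, hA2⟩ : ∃ A2 : Set (Fin d → ℤ), A2 = {p | ‖(lat p : Sp d)‖ < B' + d + 1 + X.RN} :=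
    ⟨_, rfl⟩
  have hA1f : A1.Finite := hA1 ▸ lat_fin _
  have hA2f : A2.Finite := hA2 ▸ lat_fin _
  have hI0 : ∀ p, p ∉ A1 → I p = 0 := fun p hp => hIz p (by
    rw [hA1] at hp
    exact not_lt.mp hp)
  have hΨ0 : ∀ q p, q ∉ A2 → Ψ q p = 0 := fun q p hq => hΨz q p (by
    rw [hA2] at hq
    exact not_lt.mp hq)
  obtain ⟨A3, hA3⟩ : ∃ A3 : Set (Fin d → ℤ), A3 =
      ⋃ r ∈ PTm.box d 1, (fun p : Fin d → ℤ => p + r) ⁻¹' A2 := ⟨_, rfl⟩
  have hA3f : A3.Finite := by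
    rw [hA3]
    exact Set.Finite.biUnion (Finset.finite_toSet _) fun r _ =>
      hA2f.preimage ((add_left_injective r).injOn)
  have hnz : ∀ p, p ∉ A3 → ∀ r ∈ PTm.box d 1, Ψ (p + r) p = 0 := by
    intro p hp r hr
    refine hΨ0 _ _ fun h => hp ?_
    rw [hA3]
    exact Set.mem_biUnion (show r ∈ (PTm.box d 1 : Set (Fin d → ℤ)) from hr) h
  have hfs : {p : Fin d → ℤ | net X s0 μ f e kd nv (i, p) ≠ 0}.Finite := by
    refine (hA1f.union hA3f).subset fun p hp => ?_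
    by_contra h
    rw [Set.mem_union, not_or] at h
    refine hp ?_
    rw [hnet, hI0 p h.1, Finset.sum_eq_zero (hnz p h.2)]
    ring
  refine ⟨hfs, ?_⟩
  have hsum1 : Summable fun p => lev s0 i ^ (d - 1) * I p := by
    refine summable_of_hasFiniteSupport (hA1f.subset fun p hp => ?_)
    by_contra h
    exact hp (by beta_reduce; rw [hI0 p h, mul_zero])
  have hsum2 : ∀ r ∈ PTm.box d 1, Summable fun p => Ψ (p + r) p := by
    intro r hr
    refine summable_of_hasFiniteSupport (hA3f.subset fun p hp => ?_)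
    by_contra h
    exact hp (hnz p h r hr)
  have hsum3 : Summable fun p => lev s0 i ^ (d - 1) * ∑ r ∈ PTm.box d 1, Ψ (p + r) p := by
    refine summable_of_hasFiniteSupport (hA3f.subset fun p hp => ?_)
    by_contra h
    exact hp (by beta_reduce; rw [Finset.sum_eq_zero (hnz p h), mul_zero])
  have hsum4 : ∀ r ∈ PTm.box d 1, Summable fun q => Ψ q (q - r) := by
    intro r _
    refine summable_of_hasFiniteSupport (hA2f.subset fun q hq => ?_)
    by_contra h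
    exact hq (hΨ0 q _ h)
  have hzero : ∑' p, ∑ r ∈ PTm.box d 1, Ψ (p + r) p = 0 := by
    rw [Summable.tsum_finsetSum hsum2]
    have h1 : ∀ r ∈ PTm.box d 1, ∑' p, Ψ (p + r) p = ∑' q, Ψ q (q - r) := by
      intro r _
      have h2 := (Equiv.addRight r).tsum_eq (fun q => Ψ q (q - r))
      rw [← h2]
      refine tsum_congr fun p => ?_
      simp
    rw [Finset.sum_congr rfl h1, ← Summable.tsum_finsetSum hsum4]
    simp only [hin, tsum_zero]
  simp only [hnet]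
  rw [hsum1.tsum_add hsum3, tsum_mul_left (a := lev s0 i ^ (d - 1))
    (f := fun p => ∑ r ∈ PTm.box d 1, Ψ (p + r) p), hzero, mul_zero, add_zero]
  refine tsum_congr fun p => ?_
  rw [hI]
  exact cell_int hd1 hs f (e (i, p)) _ _ μ i p

end Level

end CS1m

/-- MODULE CS1 -/
theorem stmtCS1 (hHH : StmtHH) (hUB : StmtUB) : StmtCS1 := by
  intro d hd M c0 C' hC X hX E _ _ _ f hf hfc μ hμ s0 hs e kd nv hn i
  exact CS1m.level hHH hUB hd hC hX hf hfc hμ hs e kd nv hn i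

end

end TG


end

section

/-!
# Tools for the modules W3, W4, W5, WB6: the Newton field and the fluxes   (helper38)

(1) the flux matrix mY and its trace tY, fxA = tY - qf mY n, fxB = tY - avk tY - nt mY;
(2) bounds of all orders, with constants B k times vv μ 1 0; (3) averages of radius RN under the
growth MG; (4) lower bound of the main contribution of a Newton cell; (5) sheet cells.
-/

open MeasureTheory Metric Set TrI Filter
open scoped InnerProductSpace ContDiff Topology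

set_option linter.unusedSectionVars false

namespace TG

noncomputable section

namespace WTb

variable {d : ℕ}

/-! ## The flux matrix -/

/-- trace of the flux matrix; p is the position of the neighbour -/
def tY (p : Sp d) (β : Sp d → ℝ) (ε p0 A : ℝ) (μ : Measure (Sp d)) (x : Sp d) : ℝ :=
  chi (x - p) * Ups p0 A μ 1 x * ⟪gradient (chi : Sp d → ℝ) x, gradient (WW β ε μ 1) x⟫_ℝ

/-- the flux matrix -/
def mY (p : Sp d) (β : Sp d → ℝ) (ε p0 A : ℝ) (μ : Measure (Sp d)) (i j : Fin d) (x : Sp d) : ℝ :=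
  chi (x - p) * Ups p0 A μ 1 x * (1 / 2 *
    (fderiv ℝ (chi : Sp d → ℝ) x (bv i) * fderiv ℝ (WW β ε μ 1) x (bv j)
      + fderiv ℝ (chi : Sp d → ℝ) x (bv j) * fderiv ℝ (WW β ε μ 1) x (bv i)))

lemma fxB_eq (b : Sp d → ℝ) (RN : ℝ) (p : Sp d) (β : Sp d → ℝ) (ε p0 A : ℝ)
    (μ : Measure (Sp d)) (y : Sp d) :
    fxB b RN chi (fun x => chi (x - p)) β ε p0 A μ y =
      tY p β ε p0 A μ y - avk b RN (tY p β ε p0 A μ) y - nt b RN (mY p β ε p0 A μ) y := rfl

lemma lin_exp (T : Sp d →L[ℝ] ℝ) (n : Sp d) : T n = ∑ i, n i * T (bv i) := by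
  have h : n = ∑ i, n i • (bv i : Sp d) := by
    unfold bv
    ext j
    simp [Pi.single_apply]
  conv_lhs => rw [h]
  rw [map_sum]
  simp only [map_smul, smul_eq_mul]

lemma qf_prod (c : ℝ) (n : Sp d) (a b : Fin d → ℝ) :
    ∑ i, ∑ j, n i * n j * (c * (1 / 2 * (a i * b j + a j * b i))) =
      c * ((∑ i, n i * a i) * ∑ j, n j * b j) := by
  have h1 : (∑ i, n i * a i) * (∑ j, n j * b j) = ∑ i, ∑ j, n i * a i * (n j * b j) :=
    Finset.sum_mul_sum _ _ _ _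
  have h2 : (∑ i, n i * a i) * (∑ j, n j * b j) = ∑ i, ∑ j, n j * a j * (n i * b i) := by
    rw [h1, Finset.sum_comm]
  have h3 : (∑ i, n i * a i) * (∑ j, n j * b j) =
      1 / 2 * (∑ i, ∑ j, n i * a i * (n j * b j)) +
        1 / 2 * ∑ i, ∑ j, n j * a j * (n i * b i) := by
    rw [← h1, ← h2]
    ring
  rw [h3, Finset.mul_sum, Finset.mul_sum, ← Finset.sum_add_distrib, Finset.mul_sum]
  refine Finset.sum_congr rfl fun i _ => ?_
  rw [Finset.mul_sum, Finset.mul_sum, ← Finset.sum_add_distrib, Finset.mul_sum]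
  exact Finset.sum_congr rfl fun j _ => by ring

/-- fxA is the trace minus the quadratic form -/
lemma fxA_eq (p : Sp d) (β : Sp d → ℝ) (ε p0 A : ℝ) (μ : Measure (Sp d)) {n : Sp d}
    (hn : ‖n‖ = 1) (y : Sp d) :
    fxA chi (fun x => chi (x - p)) β ε p0 A μ n y =
      tY p β ε p0 A μ y - qf (mY p β ε p0 A μ) n y := by
  have h1 : qf (mY p β ε p0 A μ) n y = chi (y - p) * Ups p0 A μ 1 y *
      (fderiv ℝ (chi : Sp d → ℝ) y n * fderiv ℝ (WW β ε μ 1) y n) := by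
    unfold qf mY
    rw [qf_prod, ← lin_exp, ← lin_exp]
  rw [h1]
  unfold fxA tY tang
  rw [← CS1m.inner_grad (WW β ε μ 1) y n, ← CS1m.inner_grad (chi : Sp d → ℝ) y n]
  have h2 : ⟪gradient (chi : Sp d → ℝ) y - ⟪n, gradient (chi : Sp d → ℝ) y⟫_ℝ • n,
      gradient (WW β ε μ 1) y - ⟪n, gradient (WW β ε μ 1) y⟫_ℝ • n⟫_ℝ =
      ⟪gradient (chi : Sp d → ℝ) y, gradient (WW β ε μ 1) y⟫_ℝ -
        ⟪n, gradient (chi : Sp d → ℝ) y⟫_ℝ * ⟪n, gradient (WW β ε μ 1) y⟫_ℝ := by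
    simp only [inner_sub_left, inner_sub_right, inner_smul_left, inner_smul_right,
      real_inner_self_eq_norm_sq, hn, conj_trivial]
    rw [real_inner_comm n (gradient (chi : Sp d → ℝ) y)]
    ring
  rw [h2]
  ring

/-- the difference of the sheet flux and the Newton flux -/
lemma fxA_sub_fxB (b : Sp d → ℝ) (RN : ℝ) (p : Sp d) (β : Sp d → ℝ) (ε p0 A : ℝ)
    (μ : Measure (Sp d)) {n : Sp d} (hn : ‖n‖ = 1) (y : Sp d) :
    fxA chi (fun x => chi (x - p)) β ε p0 A μ n y -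
        fxB b RN chi (fun x => chi (x - p)) β ε p0 A μ y =
      avk b RN (tY p β ε p0 A μ) y -
        ((∑ i, ∑ j, n i * n j * mY p β ε p0 A μ i j y) - nt b RN (mY p β ε p0 A μ) y) := by
  rw [fxA_eq p β ε p0 A μ hn, fxB_eq]
  unfold qf
  ring

/-! ## Bounds of all orders -/

/-- smooth functions supported in the ball of radius ρ with bounds of all orders -/
structure Sm (B : ℕ → ℝ) (v ρ : ℝ) (g : Sp d → ℝ) : Prop where
  sm : ContDiff ℝ ∞ g
  bd : ∀ k y, ‖iteratedFDeriv ℝ k g y‖ ≤ v * B k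
  vs : ∀ y, ρ ≤ ‖y‖ → g y = 0

lemma Sm.mono {B B' : ℕ → ℝ} {v ρ : ℝ} {g : Sp d → ℝ} (h : Sm B v ρ g) (hv : 0 ≤ v)
    (hB : ∀ k, B k ≤ B' k) : Sm B' v ρ g :=
  ⟨h.sm, fun k y => (h.bd k y).trans (mul_le_mul_of_nonneg_left (hB k) hv), h.vs⟩

lemma Sm.mono_v {B : ℕ → ℝ} {v v' ρ : ℝ} {g : Sp d → ℝ} (h : Sm B v ρ g) (hv : v ≤ v')
    (hB : ∀ k, 0 ≤ B k) : Sm B v' ρ g :=
  ⟨h.sm, fun k y => (h.bd k y).trans (mul_le_mul_of_nonneg_right hv (hB k)), h.vs⟩

lemma Sm.tfn {B : ℕ → ℝ} {v ρ : ℝ} {g : Sp d → ℝ} (h : Sm B v ρ g) (hv : 0 ≤ v) (n : ℕ) :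
    TFn n (v * B1m.SB B n) g := by
  have h1 := B1m.BF_of hv h.sm h.bd n
  exact ⟨h1.smooth, h1.bd⟩

lemma Sm.ad {B : ℕ → ℝ} {v ρ : ℝ} {g : Sp d → ℝ} (h : Sm B v ρ g) (hv : 0 ≤ v) :
    B1m.Ad ρ (v * B1m.SB B 2) g :=
  ⟨h.sm, B1m.BF_of hv h.sm h.bd 2, fun y hy => h.vs y hy.le⟩

lemma all_bd (hd : 2 ≤ d) {M C' : ℝ} (hC' : 0 < C') {f : CS2.Ix d M C' → Sp d → ℝ}
    (h : ∀ N, BdN N univ CS2.wI f) {ρ : ℝ} (hρ : 0 ≤ ρ) (h0 : ∀ i y, ρ ≤ ‖y‖ → f i y = 0) :
    ∃ B : ℕ → ℝ, (∀ k, 0 ≤ B k) ∧ ∀ i, Sm B (vv i.1.μ 1 0) ρ (f i) := by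
  choose c hc0 hc using fun N => (h N).bd
  refine ⟨fun k => c k * (1 + ρ) ^ d, fun k => mul_nonneg (hc0 k) (by positivity),
    fun i => ⟨contDiffOn_univ.1 ((h 0).smooth i), fun k y => ?_, h0 i⟩⟩
  have hv0 : 0 ≤ vv i.1.μ 1 0 := Real.sqrt_nonneg _
  by_cases hy : ρ < ‖y‖
  · rw [B1m.it_vs (fun z hz => h0 i z hz.le) k y hy, norm_zero]
    exact mul_nonneg hv0 (mul_nonneg (hc0 k) (by positivity))
  · have h1 := hc k i y (mem_univ _) k le_rfl
    have h2 := CS2.vv_grow hd hC' i.1.hμ y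
    have h3 : (1 + ‖y‖) ^ d ≤ (1 + ρ) ^ d := by
      gcongr
      exact not_lt.1 hy
    calc ‖iteratedFDeriv ℝ k (f i) y‖ ≤ c k * vv i.1.μ 1 y := h1
      _ ≤ c k * ((1 + ρ) ^ d * vv i.1.μ 1 0) := by
          refine mul_le_mul_of_nonneg_left (h2.trans ?_) (hc0 k)
          exact mul_le_mul_of_nonneg_right h3 hv0
      _ = _ := by ring

section fam

variable {M C' : ℝ}

variable (hd : 2 ≤ d) (hC' : 0 < C') {ε p0 A : ℝ} (hε0 : 0 < ε) (hε : ε ≤ 1) (hA : 0 < A)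

include hd hC' hε0 hε hA

lemma mY_bd (N : ℕ) (a c : Fin d) :
    BdN N univ CS2.wI (fun i : CS2.Ix d M C' => mY i.2 i.1.β ε p0 A i.1.μ a c) := by
  have bU := CS2.U_bd (M := M) (p0 := p0) hd hC' hε0 hε hA N
  have bW := CS2.W_bd (M := M) hd hC' hε0 hε hA (N + 1)
  have bc := CS2.chi_bd (ι := CS2.Ix d M C') (d := d) (N + 1) (by omega)
  exact CS2.mul1 (CS2.mul1 (CS2.chi'_bd N (by omega) (fun i : CS2.Ix d M C' => i.2)) bU)
    (((CS2.mul1 (CS2.d1_bd bc a) (CS2.d1_bd bW c)).add isOpen_univ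
      (CS2.mul1 (CS2.d1_bd bc c) (CS2.d1_bd bW a))).const_mul isOpen_univ
        (fun _ => (1 / 2 : ℝ)) (B := 1) (fun i => by norm_num))

lemma tY_bd (N : ℕ) :
    BdN N univ CS2.wI (fun i : CS2.Ix d M C' => tY i.2 i.1.β ε p0 A i.1.μ) := by
  have hw : ∀ (i : CS2.Ix d M C') (y : Sp d), 0 ≤ CS2.wI i y := fun i y => Real.sqrt_nonneg _
  have bU := CS2.U_bd (M := M) (p0 := p0) hd hC' hε0 hε hA N
  have bW := CS2.W_bd (M := M) hd hC' hε0 hε hA (N + 1)
  have bc := CS2.chi_bd (ι := CS2.Ix d M C') (d := d) (N + 1) (by omega)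
  exact CS2.mul1 (CS2.mul1 (CS2.chi'_bd N (by omega) (fun i : CS2.Ix d M C' => i.2)) bU)
    (CS2.grad_bd bc bW hw)

omit hC' hε0 hε hA in
lemma mY_vs (p : Sp d) (β : Sp d → ℝ) (μ : Measure (Sp d)) (a c : Fin d) (y : Sp d)
    (hy : (d : ℝ) ≤ ‖y‖) : mY p β ε p0 A μ a c y = 0 := by
  unfold mY
  rw [CS2.chi_fd hd hy]
  simp

omit hC' hε0 hε hA in
lemma tY_vs (p : Sp d) (β : Sp d → ℝ) (μ : Measure (Sp d)) (y : Sp d)
    (hy : (d : ℝ) ≤ ‖y‖) : tY p β ε p0 A μ y = 0 := by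
  unfold tY
  rw [CS2.chi_grad hd hy]
  simp

/-- all bounds with one sequence -/
theorem fam (M : ℝ) : ∃ B : ℕ → ℝ, (∀ k, 0 ≤ B k) ∧ ∀ (β : Sp d → ℝ), Kit 4 M β →
    ∀ μ : Measure (Sp d), Gro C' μ →
      (∀ a c, Sm B (vv μ 1 0) d (fun x => chi x * HHm β ε p0 A μ a c x)) ∧
      Sm B (vv μ 1 0) d (fun x => chi x * GG β ε μ 1 x) ∧
      (∀ p a c, Sm B (vv μ 1 0) d (mY p β ε p0 A μ a c)) ∧
      (∀ p, Sm B (vv μ 1 0) d (tY p β ε p0 A μ)) ∧
      (∀ n : Sp d, ‖n‖ = 1 → Sm B (vv μ 1 0) d (fun x => chi x * Hn β ε p0 A μ n 1 x)) := by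
  have hρ : (0 : ℝ) ≤ d := Nat.cast_nonneg d
  have hchi : ∀ {g : Sp d → ℝ} (y : Sp d), (d : ℝ) ≤ ‖y‖ → chi y * g y = 0 := fun y hy => by
    rw [PTm.chi_supp hy (by omega), zero_mul]
  have k1 := fun a c => all_bd (M := M) hd hC'
    (f := fun (i : CS2.Ix d M C') x => chi x * HHm i.1.β ε p0 A i.1.μ a c x)
    (fun N => CS2.mul1 (CS2.chi_bd N (by omega)) (CS2.HH_bd hd hC' hε0 hε hA N a c)) hρ
    (fun i y hy => hchi y hy)
  choose B1 hB1 k1 using k1
  obtain ⟨B2, hB2, k2⟩ := all_bd (M := M) hd hC'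
    (f := fun (i : CS2.Ix d M C') x => chi x * GG i.1.β ε i.1.μ 1 x)
    (fun N => CS2.mul1 (CS2.chi_bd N (by omega)) (CS2.G_bd hd hC' hε0 hε hA N)) hρ
    (fun i y hy => hchi y hy)
  have k3 := fun a c => all_bd (M := M) hd hC'
    (f := fun (i : CS2.Ix d M C') => mY i.2 i.1.β ε p0 A i.1.μ a c)
    (fun N => mY_bd hd hC' hε0 hε hA N a c) hρ
    (fun i y hy => mY_vs hd _ _ _ a c y hy)
  choose B3 hB3 k3 using k3
  obtain ⟨B4, hB4, k4⟩ := all_bd (M := M) hd hC'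
    (f := fun (i : CS2.Ix d M C') => tY i.2 i.1.β ε p0 A i.1.μ)
    (fun N => tY_bd hd hC' hε0 hε hA N) hρ
    (fun i y hy => tY_vs hd _ _ _ y hy)
  obtain ⟨B5, hB5, k5⟩ := all_bd (M := M) hd hC'
    (f := fun (i : CS2.Ix d M C') x => chi x * Hn i.1.β ε p0 A i.1.μ i.1.n 1 x)
    (fun N => CS2.mul1 (CS2.chi_bd N (by omega)) (CS2.H_bd hd hC' hε0 hε hA N)) hρ
    (fun i y hy => hchi y hy)
  have s1 : ∀ k, 0 ≤ ∑ a, ∑ c, B1 a c k := fun k =>
    Finset.sum_nonneg fun a _ => Finset.sum_nonneg fun c _ => hB1 a c k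
  have s3 : ∀ k, 0 ≤ ∑ a, ∑ c, B3 a c k := fun k =>
    Finset.sum_nonneg fun a _ => Finset.sum_nonneg fun c _ => hB3 a c k
  have l1 : ∀ a c k, B1 a c k ≤ ∑ a, ∑ c, B1 a c k := fun a c k =>
    (Finset.single_le_sum (f := fun c => B1 a c k) (fun c _ => hB1 a c k)
      (Finset.mem_univ c)).trans
    (Finset.single_le_sum (f := fun a => ∑ c, B1 a c k)
      (fun a _ => Finset.sum_nonneg fun c _ => hB1 a c k) (Finset.mem_univ a))
  have l3 : ∀ a c k, B3 a c k ≤ ∑ a, ∑ c, B3 a c k := fun a c k =>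
    (Finset.single_le_sum (f := fun c => B3 a c k) (fun c _ => hB3 a c k)
      (Finset.mem_univ c)).trans
    (Finset.single_le_sum (f := fun a => ∑ c, B3 a c k)
      (fun a _ => Finset.sum_nonneg fun c _ => hB3 a c k) (Finset.mem_univ a))
  refine ⟨fun k => (∑ a, ∑ c, B1 a c k) + B2 k + (∑ a, ∑ c, B3 a c k) + B4 k + B5 k,
    fun k => by linarith [s1 k, hB2 k, s3 k, hB4 k, hB5 k], fun β hβ μ hμ => ?_⟩
  have hv : 0 ≤ vv μ 1 0 := Real.sqrt_nonneg _
  have hn0 : ‖(bv ⟨0, by omega⟩ : Sp d)‖ = 1 := by simp [bv]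
  refine ⟨fun a c => ?_, ?_, fun p a c => ?_, fun p => ?_, fun n hn => ?_⟩
  · refine (k1 a c (⟨β, μ, bv ⟨0, by omega⟩, hβ, hμ, hn0⟩, 0)).mono hv fun k => ?_
    linarith [l1 a c k, hB2 k, s3 k, hB4 k, hB5 k]
  · refine (k2 (⟨β, μ, bv ⟨0, by omega⟩, hβ, hμ, hn0⟩, 0)).mono hv fun k => ?_
    linarith [s1 k, s3 k, hB4 k, hB5 k]
  · refine (k3 a c (⟨β, μ, bv ⟨0, by omega⟩, hβ, hμ, hn0⟩, p)).mono hv fun k => ?_
    linarith [s1 k, hB2 k, l3 a c k, hB4 k, hB5 k]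
  · refine (k4 (⟨β, μ, bv ⟨0, by omega⟩, hβ, hμ, hn0⟩, p)).mono hv fun k => ?_
    linarith [s1 k, hB2 k, s3 k, hB5 k]
  · refine (k5 (⟨β, μ, n, hβ, hμ, hn⟩, 0)).mono hv fun k => ?_
    linarith [s1 k, hB2 k, s3 k, hB4 k]

end fam

/-- fxA as a test function -/
lemma fxA_tfn {B : ℕ → ℝ} {v : ℝ} (hv : 0 ≤ v) {p : Sp d} {β : Sp d → ℝ} {ε p0 A : ℝ}
    {μ : Measure (Sp d)} (h1 : ∀ a c, Sm B v d (mY p β ε p0 A μ a c))
    (h2 : Sm B v d (tY p β ε p0 A μ)) (n : ℕ) {e : Sp d} (he : ‖e‖ = 1) :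
    TFn n ((1 + d * d) * (v * B1m.SB B n)) (fxA chi (fun x => chi (x - p)) β ε p0 A μ e) := by
  have e1 : fxA chi (fun x => chi (x - p)) β ε p0 A μ e =
      fun y => tY p β ε p0 A μ y - qf (mY p β ε p0 A μ) e y :=
    funext fun y => fxA_eq p β ε p0 A μ he y
  have h3 : SMm.BF n (∑ i : Fin d, ∑ j : Fin d, |e i * e j| * (v * B1m.SB B n))
      (qf (mY p β ε p0 A μ) e) :=
    B1m.BF_sum Finset.univ fun i : Fin d => B1m.BF_sum Finset.univ fun j : Fin d =>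
      (B1m.BF_of hv (h1 i j).sm (h1 i j).bd n).const_mul (e i * e j)
  have h4 : ∑ i : Fin d, ∑ j : Fin d, |e i * e j| * (v * B1m.SB B n) ≤
      d * (d * (v * B1m.SB B n)) := by
    rw [← B1m.sum2_const]
    refine Finset.sum_le_sum fun i _ => Finset.sum_le_sum fun j _ => ?_
    have h5 : |e i * e j| ≤ 1 := by
      rw [abs_mul]
      have := B1m.comp_le he i
      have := B1m.comp_le he j
      have := abs_nonneg (e i)
      have := abs_nonneg (e j)
      nlinarith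
    have h6 : 0 ≤ v * B1m.SB B n := mul_nonneg hv (B1m.SB_nonneg B n)
    nlinarith
  have h7 := h3.mono h4
  rw [e1]
  have h8 := TU.TFn_sub (h2.tfn hv n) (⟨h7.smooth, h7.bd⟩ : TFn n _ (qf (mY p β ε p0 A μ) e))
  refine TU.TFn_mono h8 le_rfl (le_of_eq ?_)
  ring

lemma fxA_vs (hd : 2 ≤ d) (p : Sp d) (β : Sp d → ℝ) (ε p0 A : ℝ) (μ : Measure (Sp d)) {n : Sp d}
    (hn : ‖n‖ = 1) (y : Sp d) (hy : (d : ℝ) ≤ ‖y‖) :
    fxA chi (fun x => chi (x - p)) β ε p0 A μ n y = 0 := by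
  rw [fxA_eq p β ε p0 A μ hn, tY_vs hd p β μ y hy]
  unfold qf
  simp [mY_vs hd p β μ _ _ y hy]

/-! ## Newton potentials and averages as test functions -/

/-- the Newton field of a matrix function -/
lemma nt_tfn (hd : 2 ≤ d) {Mb cb : ℝ} {b : Sp d → ℝ} (hb : BaseKer 2 Mb cb b) {R : ℝ}
    (hR : 0 < R) (J : ℕ) {B : ℕ → ℝ} {v ρ : ℝ} (hv : 0 ≤ v) {F : Fin d → Fin d → Sp d → ℝ}
    (hF : ∀ i j, Sm B v ρ (F i j)) :
    TFn J (R ^ 2 * (d * (d * (v * B1m.SB B (J + 2))))) (nt b R F) ∧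
      ∀ y, ρ + 1 + R / 2 ≤ ‖y‖ → nt b R F y = 0 := by
  have h := B1m.nt_BF (stmtNN stmtPF) hd hb hR (J := J) (fun i j => (hF i j).sm)
    (fun i j => B1m.BF_of hv (hF i j).sm (hF i j).bd (J + 2)) (fun i j y hy => (hF i j).vs y hy)
  exact ⟨⟨h.1.smooth, h.1.bd⟩, h.2⟩

/-- averages -/
lemma avk_tfn {Mb cb : ℝ} {b : Sp d → ℝ} (hb : BaseKer 2 Mb cb b) {R : ℝ}
    (hR : 0 ≤ R) {B : ℕ → ℝ} {v ρ : ℝ} (hv : 0 ≤ v) {g : Sp d → ℝ} (hg : Sm B v ρ g) :
    TFn 2 (v * B1m.SB B 2) (avk b R g) ∧ ∀ y, ρ + R < ‖y‖ → avk b R g y = 0 := by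
  have h := (hg.ad hv).avk hb hR
  exact ⟨⟨h.bf.smooth, h.bf.bd⟩, h.vs⟩

/-- fxB as a test function -/
lemma fxB_tfn (hd : 2 ≤ d) {Mb cb : ℝ} {b : Sp d → ℝ} (hb : BaseKer 2 Mb cb b) {R : ℝ}
    (hR : 0 < R) {B : ℕ → ℝ} {v : ℝ} (hv : 0 ≤ v) {p : Sp d} {β : Sp d → ℝ} {ε p0 A : ℝ}
    {μ : Measure (Sp d)} (h1 : ∀ a c, Sm B v d (mY p β ε p0 A μ a c))
    (h2 : Sm B v d (tY p β ε p0 A μ)) :
    TFn 2 (v * (2 * B1m.SB B 2 + R ^ 2 * (d * (d * B1m.SB B 4))))
        (fxB b R chi (fun x => chi (x - p)) β ε p0 A μ) ∧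
      ∀ y, d + 1 + R ≤ ‖y‖ → fxB b R chi (fun x => chi (x - p)) β ε p0 A μ y = 0 := by
  obtain ⟨h3, h4⟩ := avk_tfn hb hR.le hv h2
  obtain ⟨h5, h6⟩ := nt_tfn hd hb hR 2 hv h1
  have h7 := TU.TFn_sub (TU.TFn_sub (h2.tfn hv 2) h3) h5
  refine ⟨TU.TFn_mono h7 le_rfl (le_of_eq ?_), fun y hy => ?_⟩
  · ring
  · rw [fxB_eq, h2.vs y (by linarith), h4 y (by linarith), h6 y (by linarith)]
    ring

/-! ## Averages of radius RN under the growth of the mass -/

/-- averages of large radius are small on densities with growth -/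
theorem avk_mg (hd : 2 ≤ d) {Mb cb : ℝ} {b : Sp d → ℝ} (hb : BaseKer 2 Mb cb b)
    {K γ δ : ℝ} (hK : 0 < K) (hγ0 : 0 < γ) (hγ : γ ≤ 1 / (8 * d)) (hδ : 0 < δ) :
    ∃ RN0 : ℝ, 1 ≤ RN0 ∧ ∀ RN : ℝ, RN0 ≤ RN → ∃ C : ℝ, 0 < C ∧
      ∀ (m : Sp d → ℝ) (a D : ℝ), 0 ≤ a → 0 ≤ D → MG K γ (RN + d + 4) a D m →
      ∀ (B : ℕ → ℝ) (v : ℝ) (g : Sp d → ℝ), 0 ≤ v → Sm B v d g →
        |∫ y, m y * avk b RN g y| ≤ v * B1m.SB B 2 * (δ * a + C * D) := by
  have hd1 : (1 : ℝ) ≤ d := by exact_mod_cast (by omega : 1 ≤ d)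
  have hb0 : 0 ≤ b 0 := hb.nonneg 0
  set V : ℝ := volume.real (closedBall (0 : Sp d) ((d : ℝ) + 1)) with hV
  have hV0 : 0 ≤ V := measureReal_nonneg
  obtain ⟨R0, hR0, h⟩ := B1m.small_R (d := d) (c := b 0 * V * K) hd hγ0 hγ (by positivity) hd1 hδ
  refine ⟨R0, hR0, fun RN hRN => ⟨b 0 * V * (RN ^ d)⁻¹ + 1, ?_, ?_⟩⟩
  · have : 0 < RN := by linarith
    positivity
  · intro m a D ha hD hG B v g hv hg
    have hRN0 : 0 < RN := by linarith
    have h1 := B1m.avk_small hb hd1 hRN0 hG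
      (⟨hg.sm, (hg.ad hv).bf, fun y hy => hg.vs y (by linarith)⟩ :
        B1m.Ad ((d : ℝ) + 1) (v * B1m.SB B 2) g)
    have h2 := h RN hRN
    have hS : 0 ≤ v * B1m.SB B 2 := mul_nonneg hv (B1m.SB_nonneg B 2)
    refine h1.trans ?_
    rw [← hV]
    have h3 : b 0 * V * (RN ^ d)⁻¹ * (v * B1m.SB B 2) *
        (K * (RN + d + 4) ^ ((d : ℝ) - 1 + γ) * a + D) =
        v * B1m.SB B 2 * ((b 0 * V * K * ((RN ^ d)⁻¹ * (RN + d + 4) ^ ((d : ℝ) - 1 + γ))) * a +
          b 0 * V * (RN ^ d)⁻¹ * D) := by ring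
    rw [h3]
    refine mul_le_mul_of_nonneg_left ?_ hS
    have h4 := mul_le_mul_of_nonneg_right h2 ha
    linarith only [hD, h4]

end WTb

end

end TG


end

section

/-!
# MODULE W5, first part: the test functions and their bounds   (helper41)
-/

open MeasureTheory Metric Set TrI Filter
open scoped InnerProductSpace ContDiff Topology

set_option linter.unusedSectionVars false

namespace TG

noncomputable section

namespace W5m

open CS2

variable {d : ℕ}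

section fam

variable {M C' : ℝ}

/-- bounds by v(0), for families which vanish off the ball d -/
lemma bd_at (hd : 2 ≤ d) (hC' : 0 < C') {N : ℕ} {f : Ix d M C' → Sp d → ℝ}
    (h : BdN N univ wI f) (h0 : ∀ i y, (d : ℝ) ≤ ‖y‖ → f i =ᶠ[𝓝 y] fun _ => 0) :
    ∃ C : ℝ, 0 ≤ C ∧ ∀ i, ∀ j ≤ N, ∀ y, ‖iteratedFDeriv ℝ j (f i) y‖ ≤ vv i.1.μ 1 0 * C := by
  obtain ⟨C, hC, h1⟩ := h.bd
  refine ⟨C * (1 + d) ^ d, by positivity, fun i j hj y => ?_⟩
  have hv0 : 0 ≤ vv i.1.μ 1 0 := Real.sqrt_nonneg _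
  by_cases hy : (d : ℝ) ≤ ‖y‖
  · rw [TDc.iter_zero (h0 i y hy) j, norm_zero]
    positivity
  · push Not at hy
    have h2 := h1 i y (mem_univ _) j hj
    have h3 := vv_grow hd hC' i.1.hμ y
    have h4 : (1 + ‖y‖) ^ d ≤ (1 + (d : ℝ)) ^ d := by gcongr
    calc _ ≤ C * vv i.1.μ 1 y := h2
      _ ≤ C * ((1 + (d : ℝ)) ^ d * vv i.1.μ 1 0) := by
          refine mul_le_mul_of_nonneg_left (h3.trans ?_) hC
          exact mul_le_mul_of_nonneg_right h4 hv0
      _ = _ := by ring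

/-- test functions of order N -/
lemma tfn_at (hd : 2 ≤ d) (hC' : 0 < C') {N : ℕ} {f : Ix d M C' → Sp d → ℝ}
    (h : BdN N univ wI f) (h0 : ∀ i y, (d : ℝ) ≤ ‖y‖ → f i =ᶠ[𝓝 y] fun _ => 0) :
    ∃ C : ℝ, 0 ≤ C ∧ ∀ i, TFn N (vv i.1.μ 1 0 * C) (f i) := by
  obtain ⟨C, hC, h1⟩ := bd_at hd hC' h h0
  exact ⟨C, hC, fun i => ⟨(contDiffOn_univ.1 (h.smooth i)).of_le (by exact_mod_cast le_top),
    fun j hj y => h1 i j hj y⟩⟩

/-- bounds of all orders -/
lemma ord_at (hd : 2 ≤ d) (hC' : 0 < C') {f : Ix d M C' → Sp d → ℝ}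
    (h : ∀ N, BdN N univ wI f) (h0 : ∀ i y, (d : ℝ) ≤ ‖y‖ → f i =ᶠ[𝓝 y] fun _ => 0) :
    ∃ B : ℕ → ℝ, (∀ k, 0 ≤ B k) ∧ ∀ i k y, ‖iteratedFDeriv ℝ k (f i) y‖ ≤
      vv i.1.μ 1 0 * B k := by
  have h1 : ∀ k : ℕ, ∃ C : ℝ, 0 ≤ C ∧ ∀ i, ∀ j ≤ k, ∀ y, ‖iteratedFDeriv ℝ j (f i) y‖ ≤
      vv i.1.μ 1 0 * C := fun k => bd_at hd hC' (h k) h0
  choose B hB h2 using h1
  exact ⟨B, hB, fun i k y => h2 k i k le_rfl y⟩

variable (hd : 2 ≤ d) (hC' : 0 < C') {ε p0 A : ℝ} (hε0 : 0 < ε) (hε : ε ≤ 1) (hA : 0 < A)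

include hd hC' hε0 hε hA

/-! ### sheets -/

lemma bdH (N : ℕ) : BdN N univ wI
    (fun (i : Ix d M C') y => chi y * Hn i.1.β ε p0 A i.1.μ i.1.n 1 y) :=
  mul1 (chi_bd N (by omega)) (H_bd hd hC' hε0 hε hA N)

lemma bdG (N : ℕ) : BdN N univ wI
    (fun (i : Ix d M C') y => chi y * GG i.1.β ε i.1.μ 1 y) :=
  mul1 (chi_bd N (by omega)) (G_bd hd hC' hε0 hε hA N)

lemma bdV (N : ℕ) : BdN N univ wI
    (fun (i : Ix d M C') => dvT chi i.1.β ε p0 A i.1.μ i.1.n) := by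
  have hw : ∀ (i : Ix d M C') (y : Sp d), 0 ≤ wI i y := fun i y => Real.sqrt_nonneg _
  have bW := W_bd (M := M) hd hC' hε0 hε hA (N + 1 + 1)
  have bU := U_bd (M := M) (p0 := p0) hd hC' hε0 hε hA (N + 1)
  have bn : BdN (N + 1) univ wI
      (fun (i : Ix d M C') y => fderiv ℝ (WW i.1.β ε i.1.μ 1) y i.1.n) :=
    UB.clm1 bW (e := fun i => i.1.n) (fun i => i.1.hn.le)
  have hnj : ∀ (i : Ix d M C') (j : Fin d), ‖i.1.n j‖ ≤ 1 := fun i j => by
    have h1 := EuclideanSpace.norm_sq_eq i.1.n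
    have h2 : ‖i.1.n j‖ ^ 2 ≤ ‖i.1.n‖ ^ 2 := by
      rw [h1]
      exact Finset.single_le_sum (f := fun j => ‖i.1.n j‖ ^ 2) (fun _ _ => sq_nonneg _)
        (Finset.mem_univ j)
    rw [i.1.hn] at h2
    exact abs_le_of_sq_le_sq' (a := ‖i.1.n j‖) (b := 1) (by simpa using h2) zero_le_one |>.2
  have bT : ∀ j : Fin d, BdN (N + 1) univ wI (fun (i : Ix d M C') y =>
      (tang i.1.n (gradient (WW i.1.β ε i.1.μ 1) y)) j) := by
    intro j
    refine ((d1_bd bW j).sub isOpen_univ (bn.const_mul isOpen_univ (fun i => i.1.n j) (B := 1)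
      (fun i => hnj i j))).congr isOpen_univ (fun i y _ => ?_)
    unfold tang
    have e1 : (gradient (WW i.1.β ε i.1.μ 1) y) j = fderiv ℝ (WW i.1.β ε i.1.μ 1) y (bv j) := by
      rw [← UB.inner_gradient']
      unfold bv
      rw [EuclideanSpace.inner_single_right]
      simp
    have e2 : ⟪i.1.n, gradient (WW i.1.β ε i.1.μ 1) y⟫_ℝ =
        fderiv ℝ (WW i.1.β ε i.1.μ 1) y i.1.n := by
      rw [real_inner_comm, UB.inner_gradient']
    rw [e2, PiLp.sub_apply, PiLp.smul_apply, e1, smul_eq_mul, mul_comm]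
  refine (BdN.sum isOpen_univ (Finset.univ : Finset (Fin d)) (fun i y _ => hw i y)
    (fun j _ => d1_bd (mul1 (mul1 (chi_bd (N + 1) (by omega)) bU) (bT j)) j)).congr
      isOpen_univ (fun i y _ => ?_)
  rfl

lemma bdA (N : ℕ) : BdN N univ wI
    (fun (i : Ix d M C') => fxA chi (fun x => chi (x - i.2)) i.1.β ε p0 A i.1.μ i.1.n) := by
  have hw : ∀ (i : Ix d M C') (y : Sp d), 0 ≤ wI i y := fun i y => Real.sqrt_nonneg _
  have bW := W_bd (M := M) hd hC' hε0 hε hA (N + 1)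
  have bU := U_bd (M := M) (p0 := p0) hd hC' hε0 hε hA N
  have bn : BdN N univ wI (fun (i : Ix d M C') y => fderiv ℝ (WW i.1.β ε i.1.μ 1) y i.1.n) :=
    UB.clm1 bW (e := fun i => i.1.n) (fun i => i.1.hn.le)
  have bc := chi_bd (ι := Ix d M C') (d := d) (N + 1) (by omega)
  have bcn : BdN N univ (fun (_ : Ix d M C') _ => (1 : ℝ)) (fun (i : Ix d M C') y =>
      fderiv ℝ (fun y : Sp d => chi y) y i.1.n) :=
    UB.clm1 bc (e := fun i => i.1.n) (fun i => i.1.hn.le)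
  have h1 := mul1 (mul1 (chi'_bd N (by omega) (fun i : Ix d M C' => i.2)) bU)
    ((grad_bd bc bW hw).sub isOpen_univ (mul1 bcn bn))
  refine h1.congr isOpen_univ (fun i y _ => ?_)
  unfold fxA
  rw [UB.inner_tangs i.1.hn, CS2.inner_grad]
  simp only [UB.inner_gradient']
  rfl

/-! ### the Newton field -/

lemma bdS (N : ℕ) : BdN N univ wI (fun (i : Ix d M C') y =>
    chi (y - i.2) * Ups p0 A i.1.μ 1 y *
    ⟪gradient (fun x : Sp d => chi x) y, gradient (WW i.1.β ε i.1.μ 1) y⟫_ℝ) := by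
  have hw : ∀ (i : Ix d M C') (y : Sp d), 0 ≤ wI i y := fun i y => Real.sqrt_nonneg _
  have bW := W_bd (M := M) hd hC' hε0 hε hA (N + 1)
  have bU := U_bd (M := M) (p0 := p0) hd hC' hε0 hε hA N
  have bc := chi_bd (ι := Ix d M C') (d := d) (N + 1) (by omega)
  exact mul1 (mul1 (chi'_bd N (by omega) (fun i : Ix d M C' => i.2)) bU) (grad_bd bc bW hw)

lemma bdHH (N : ℕ) (a c : Fin d) : BdN N univ wI
    (fun (i : Ix d M C') x => chi x * HHm i.1.β ε p0 A i.1.μ a c x) :=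
  mul1 (chi_bd N (by omega)) (HH_bd hd hC' hε0 hε hA N a c)

lemma bdY (N : ℕ) (a c : Fin d) : BdN N univ wI
    (fun (i : Ix d M C') x => chi (x - i.2) * Ups p0 A i.1.μ 1 x * (1 / 2 *
        (fderiv ℝ chi x (bv a) * fderiv ℝ (WW i.1.β ε i.1.μ 1) x (bv c)
        + fderiv ℝ chi x (bv c) * fderiv ℝ (WW i.1.β ε i.1.μ 1) x (bv a)))) := by
  have bW := W_bd (M := M) hd hC' hε0 hε hA (N + 1)
  have bU := U_bd (M := M) (p0 := p0) hd hC' hε0 hε hA N
  have bc := chi_bd (ι := Ix d M C') (d := d) (N + 1) (by omega)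
  exact mul1 (mul1 (chi'_bd N (by omega) (fun i : Ix d M C' => i.2)) bU)
      (((mul1 (d1_bd bc a) (d1_bd bW c)).add isOpen_univ
        (mul1 (d1_bd bc c) (d1_bd bW a))).const_mul isOpen_univ (fun _ => (1 / 2 : ℝ)) (B := 1)
        (fun i => by norm_num))

end fam

/-! ### the supports -/

section sup

lemma evH (hd : 2 ≤ d) (g : Sp d → ℝ) {y : Sp d} (hy : (d : ℝ) ≤ ‖y‖) :
    (fun x => chi x * g x) =ᶠ[𝓝 y] fun _ => 0 := by
  filter_upwards [TDc.chi_ev hd hy] with z hz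
  rw [hz, zero_mul]

lemma evV (hd : 2 ≤ d) (β : Sp d → ℝ) (ε p0 A : ℝ) (μ : Measure (Sp d)) (n : Sp d) {y : Sp d}
    (hy : (d : ℝ) ≤ ‖y‖) : dvT chi β ε p0 A μ n =ᶠ[𝓝 y] fun _ => 0 := by
  rw [TDc.dvT_eq]
  exact TDc.dvg_ev_far hd hy

lemma grad_ev2 (hd : 2 ≤ d) {y : Sp d} (hy : (d : ℝ) ≤ ‖y‖) :
    ∀ᶠ z in 𝓝 y, gradient (chi : Sp d → ℝ) z = 0 := by
  filter_upwards [chi_fd_ev hd hy] with z hz
  unfold gradient
  rw [hz]
  simp

lemma evA (hd : 2 ≤ d) (χ' β : Sp d → ℝ) (ε p0 A : ℝ) (μ : Measure (Sp d)) (n : Sp d) {y : Sp d}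
    (hy : (d : ℝ) ≤ ‖y‖) : fxA chi χ' β ε p0 A μ n =ᶠ[𝓝 y] fun _ => 0 := by
  filter_upwards [grad_ev2 hd hy] with z hz
  unfold fxA
  rw [hz]
  unfold tang
  simp

lemma evS (hd : 2 ≤ d) (g : Sp d → ℝ) (G : Sp d → Sp d) {y : Sp d} (hy : (d : ℝ) ≤ ‖y‖) :
    (fun x => g x * ⟪gradient (fun z : Sp d => chi z) x, G x⟫_ℝ) =ᶠ[𝓝 y] fun _ => 0 := by
  filter_upwards [grad_ev2 hd hy] with z hz
  have hz' : gradient (fun x : Sp d => chi x) z = 0 := hz
  simp only [hz']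
  simp

lemma evY (hd : 2 ≤ d) (g : Sp d → ℝ) (W : Sp d → ℝ) (a c : Fin d) {y : Sp d}
    (hy : (d : ℝ) ≤ ‖y‖) :
    (fun x => g x * (1 / 2 * (fderiv ℝ (chi : Sp d → ℝ) x (bv a) * fderiv ℝ W x (bv c)
        + fderiv ℝ (chi : Sp d → ℝ) x (bv c) * fderiv ℝ W x (bv a)))) =ᶠ[𝓝 y] fun _ => 0 := by
  filter_upwards [chi_fd_ev hd hy] with z hz
  rw [hz]
  simp

end sup

end W5m

end

end TG


end

section

/-!
# MODULE W5, second part: the Newton functional in frames, the mass of a sheet   (helper41)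
-/

open MeasureTheory Metric Set TrI Filter
open scoped InnerProductSpace ContDiff Topology

set_option linter.unusedSectionVars false

namespace TG

noncomputable section

namespace W5m

open CS2

variable {d : ℕ}

/-! ### quadratic forms -/

lemma comp_le {n : Sp d} (hn : ‖n‖ = 1) (j : Fin d) : |n j| ≤ 1 := by
  have h := PiLp.norm_apply_le n j
  rwa [hn, Real.norm_eq_abs] at h

lemma qf_le {F : Fin d → Fin d → Sp d → ℝ} {n y : Sp d} (hn : ‖n‖ = 1) {B : Fin d → Fin d → ℝ}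
    (h : ∀ i j, |F i j y| ≤ B i j) : |qf F n y| ≤ ∑ i, ∑ j, B i j := by
  unfold qf
  refine (Finset.abs_sum_le_sum_abs _ _).trans (Finset.sum_le_sum fun i _ => ?_)
  refine (Finset.abs_sum_le_sum_abs _ _).trans (Finset.sum_le_sum fun j _ => ?_)
  rw [abs_mul, abs_mul]
  have h1 := comp_le hn i
  have h2 := comp_le hn j
  have h3 : |n i| * |n j| ≤ 1 := by
    calc |n i| * |n j| ≤ 1 * 1 := mul_le_mul h1 h2 (abs_nonneg _) zero_le_one
      _ = 1 := one_mul 1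
  calc |n i| * |n j| * |F i j y| ≤ 1 * |F i j y| := mul_le_mul_of_nonneg_right h3 (abs_nonneg _)
    _ = |F i j y| := one_mul _
    _ ≤ B i j := h i j

/-! ### frames -/

lemma pair_frame {s0 : ℝ} (h : 0 < s0) {E : Type} [NormedAddCommGroup E] [InnerProductSpace ℝ E]
    [FiniteDimensional ℝ E]
    (f : Sp d → E) (e : E) (Q P : Cell d) (hP : P.1 = Q.1) (ζ : Sp d → ℝ) :
    ∫ y, mQ s0 f e Q y * ζ y = ∫ y, mQ s0 f e P y * ζ (tw s0 Q P + y) := by
  rw [← integral_add_left_eq_self (fun y => mQ s0 f e Q y * ζ y) (tw s0 Q P)]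
  refine integral_congr_ae (Eventually.of_forall fun y => ?_)
  have h1 := FR.mQ_frame h f e Q P 0 (by simpa using hP) y
  simp only [pow_zero, one_mul, one_smul] at h1
  simp only [h1]

/-- second clause of B1 -/
def Cl2 (b : Sp d → ℝ) (R ρ δ C : ℝ) (B : ℕ → ℝ) (m : Sp d → ℝ) (a D : ℝ) : Prop :=
  ∀ (Y : Fin d → Fin d → Sp d → ℝ) (φ : Sp d → ℝ) (N : ℝ), 0 ≤ N →
    (∀ i j, ContDiff ℝ ∞ (Y i j)) → (∀ i j k y, ‖iteratedFDeriv ℝ k (Y i j) y‖ ≤ N * B k) →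
    (∀ i j y, ρ ≤ ‖y‖ → Y i j y = 0) → ContDiff ℝ ∞ φ →
    (∀ k y, ‖iteratedFDeriv ℝ k φ y‖ ≤ B k) → (∀ y, ρ ≤ ‖y‖ → φ y = 0) →
    (∀ n : Sp d, ‖n‖ = 1 → ∀ y, |qf Y n y| ≤ N * φ y) →
    |∫ y, m y * nt b R Y y| ≤ N * (∫ y, m y * φ y) + δ * a * N + C * N * D

/-- third clause of B1 -/
def Cl3 (b : Sp d → ℝ) (R ρ δ C : ℝ) (B : ℕ → ℝ) (m : Sp d → ℝ) (a D : ℝ) : Prop :=
  ∀ (φ : Sp d → ℝ) (N : ℝ), 0 ≤ N → ContDiff ℝ ∞ φ →
    (∀ k y, ‖iteratedFDeriv ℝ k φ y‖ ≤ N * B k) → (∀ y, ρ ≤ ‖y‖ → φ y = 0) →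
    |∫ y, m y * avk b R φ y| ≤ δ * a * N + C * N * D

lemma far_shift {x y : Sp d} (hx : ‖x‖ ≤ d) {r : ℝ} (hy : d + r ≤ ‖y‖) : r ≤ ‖x + y‖ := by
  have h1 : ‖y‖ ≤ ‖x + y‖ + ‖x‖ := by
    have := norm_sub_le (x + y) x
    rwa [add_sub_cancel_left] at this
  linarith

lemma nt_bound {b : Sp d → ℝ} {R δ C a D : ℝ} {B : ℕ → ℝ} {m : Sp d → ℝ}
    (h : Cl2 b R (2 * d + 1) δ C B m a D) {x : Sp d} (hx : ‖x‖ ≤ d) (hd : 1 ≤ d)
    (hz : ∀ k (y : Sp d), ‖iteratedFDeriv ℝ k (zR (d : ℝ) : Sp d → ℝ) y‖ ≤ B k)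
    {Y : Fin d → Fin d → Sp d → ℝ} {N : ℝ} (hN : 0 ≤ N) (hY : ∀ i j, ContDiff ℝ ∞ (Y i j))
    (hYb : ∀ i j k y, ‖iteratedFDeriv ℝ k (Y i j) y‖ ≤ N * B k)
    (hY0 : ∀ i j (y : Sp d), (d : ℝ) ≤ ‖y‖ → Y i j y = 0)
    (hq : ∀ n : Sp d, ‖n‖ = 1 → ∀ y, |qf Y n y| ≤ N) :
    |∫ y, m y * nt b R Y (x + y)| ≤ N * (∫ y, m y * zR (d : ℝ) (x + y)) + δ * a * N + C * N * D := by
  have hd0 : (1 : ℝ) ≤ d := by exact_mod_cast hd
  have hzs : ContDiff ℝ ∞ (zR (d : ℝ) : Sp d → ℝ) := TU.zR_smooth (by linarith)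
  have h1 := h (fun i j z => Y i j (x + z)) (fun z => zR (d : ℝ) (x + z)) N hN
    (fun i j => (hY i j).comp (contDiff_const.add contDiff_id))
    (fun i j k y => by
      rw [iteratedFDeriv_comp_add_left]
      exact hYb i j k _)
    (fun i j y hy => hY0 i j _ (far_shift hx (by linarith)))
    (hzs.comp (contDiff_const.add contDiff_id))
    (fun k y => by
      rw [iteratedFDeriv_comp_add_left]
      exact hz k _)
    (fun y hy => zR_eq_zero (far_shift hx (by linarith)))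
    (fun n hn y => by
      have e1 : qf (fun i j z => Y i j (x + z)) n y = qf Y n (x + y) := rfl
      rw [e1]
      by_cases hy : ‖x + y‖ ≤ d
      · rw [zR_eq_one hy, mul_one]
        exact hq n hn _
      · have e2 : qf Y n (x + y) = 0 := by
          unfold qf
          refine Finset.sum_eq_zero fun i _ => Finset.sum_eq_zero fun j _ => ?_
          rw [hY0 i j _ (not_le.1 hy).le, mul_zero]
        rw [e2, abs_zero]
        exact mul_nonneg hN (zR_nonneg _ _))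
  simp only [CS1m.nt_shift] at h1
  exact h1

lemma av_bound {b : Sp d → ℝ} {R δ C a D : ℝ} {B : ℕ → ℝ} {m : Sp d → ℝ}
    (h : Cl3 b R (2 * d + 1) δ C B m a D) {x : Sp d} (hx : ‖x‖ ≤ d)
    {φ : Sp d → ℝ} {N : ℝ} (hN : 0 ≤ N) (hφ : ContDiff ℝ ∞ φ)
    (hb : ∀ k y, ‖iteratedFDeriv ℝ k φ y‖ ≤ N * B k)
    (h0 : ∀ y : Sp d, (d : ℝ) ≤ ‖y‖ → φ y = 0) :
    |∫ y, m y * avk b R φ (x + y)| ≤ δ * a * N + C * N * D := by
  have h1 := h (fun z => φ (x + z)) N hN (hφ.comp (contDiff_const.add contDiff_id))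
    (fun k y => by
      rw [iteratedFDeriv_comp_add_left]
      exact hb k _)
    (fun y hy => h0 _ (far_shift hx (by linarith)))
  simp only [CS1m.avk_shift] at h1
  exact h1

/-! ### the mass of a sheet -/

lemma zp_scale {R D K : ℝ} {m ζ : Sp d → ℝ} (hZ : ZP R D m) (hK : 0 < K) (h : TFn 2 K ζ)
    (h0 : ∀ y, 0 ≤ ζ y) (hs : ∀ y, R ≤ ‖y‖ → ζ y = 0) : -(K * D) ≤ ∫ y, m y * ζ y := by
  have h1 := TU.TFn_const_mul h (1 / K)
  have e1 : |1 / K| * K = 1 := by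
    rw [abs_of_pos (by positivity)]
    field_simp
  rw [e1] at h1
  have h2 := hZ (fun y => 1 / K * ζ y) h1.smooth (fun y => mul_nonneg (by positivity) (h0 y))
    (fun y => (le_abs_self _).trans (PTm.TFn.abs_le h1 y)) (fun y => h1.bd 2 le_rfl y)
    (fun y hy => by rw [hs y hy, mul_zero])
  have e2 : ∫ y, m y * (1 / K * ζ y) = 1 / K * ∫ y, m y * ζ y := by
    rw [← integral_const_mul]
    refine integral_congr_ae (Eventually.of_forall fun y => ?_)
    simp only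
    ring
  rw [e2] at h2
  have h3 := mul_le_mul_of_nonneg_left h2 hK.le
  rw [← mul_assoc, mul_one_div_cancel hK.ne', one_mul] at h3
  linarith

lemma int_m {m ζ : Sp d → ℝ} (hm : Continuous m) (hζ : Continuous ζ) {ρ : ℝ}
    (h0 : ∀ y, ρ ≤ ‖y‖ → ζ y = 0) : Integrable (fun y => m y * ζ y) := by
  refine (hm.mul hζ).integrable_of_hasCompactSupport ?_
  refine HasCompactSupport.intro (isCompact_closedBall (0 : Sp d) ρ) fun y hy => ?_
  rw [mem_closedBall, dist_zero_right, not_le] at hy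
  rw [Pi.mul_apply, h0 y hy.le, mul_zero]

/-- blc is monotone in the radius up to the defect -/
lemma blc_mono (R R' S : ℝ) (hR : 1 ≤ R) (hRR : R ≤ R') :
    ∃ C : ℝ, 0 < C ∧ ∀ (m : Sp d → ℝ) (D : ℝ), Continuous m → ZP (R' + 1) D m →
      ∀ (n : Sp d) (s : ℝ), ‖n‖ = 1 → |s| ≤ S → blc n s m R ≤ blc n s m R' + C * D := by
  obtain ⟨C1, hC1, h1⟩ := exists_TFn_ht2 d 2 R' S (hR.trans hRR)
  obtain ⟨C2, hC2, h2⟩ := exists_TFn_ht2 d 2 R S hR
  refine ⟨C1 + C2, by positivity, fun m D hm hZ n s hn hs => ?_⟩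
  have e1 : ∀ y, ht n s y = hgt n s y := fun y => rfl
  have t1 := h1 n s hn hs
  have t2 := h2 n s hn hs
  simp only [e1] at t1 t2
  have h3 := zp_scale hZ (K := C1 + C2) (by positivity) (t1.sub t2)
    (fun y => by
      have h4 : zR R y ≤ zR R' y := Real.smoothTransition.monotone (by linarith)
      nlinarith only [h4])
    (fun y hy => by
      rw [zR_eq_zero hy, zR_eq_zero (ρ := R) (by linarith)]
      ring)
  have i1 : Integrable (fun y => m y * (zR R' y * hgt n s y ^ 2)) :=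
    int_m hm t1.smooth.continuous (ρ := R' + 1) (fun y hy => by rw [zR_eq_zero hy, zero_mul])
  have i2 : Integrable (fun y => m y * (zR R y * hgt n s y ^ 2)) :=
    int_m hm t2.smooth.continuous (ρ := R + 1) (fun y hy => by rw [zR_eq_zero hy, zero_mul])
  have e2 : ∫ y, m y * (zR R' y * hgt n s y ^ 2 - zR R y * hgt n s y ^ 2) =
      blc n s m R' - blc n s m R := by
    unfold blc
    rw [← integral_sub i1 i2]
    refine integral_congr_ae (Eventually.of_forall fun y => ?_)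
    simp only
    ring
  rw [e2] at h3
  linarith

/-- the density of a sheet is bounded by the local mass -/
lemma ab_le (hd : 2 ≤ d) (J : ℕ) {R0 : ℝ} (hR0 : (d : ℝ) + 10 ≤ R0) :
    ∃ κ C : ℝ, 0 < κ ∧ 0 < C ∧ ∀ (m : Sp d → ℝ) (n : Sp d) (s ab er dl D al : ℝ),
      Continuous m → 0 ≤ D → 0 ≤ al → ZP (64 * R0 + 1) D m →
      Sheet J (64 * R0) ab er dl m n s → blc n s m (64 * R0) ≤ er → |s| ≤ d →
      er ≤ κ * ab → dl ≤ κ * ab →
      (∀ (ζ : Sp d → ℝ) (N : ℝ), TFn 2 N ζ → (∀ y, (d : ℝ) + 3 ≤ ‖y‖ → ζ y = 0) →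
        |∫ y, m y * ζ y| ≤ N * al) → ab ≤ C * (al + D) := by
  have hd0 : (0 : ℝ) ≤ d := Nat.cast_nonneg d
  obtain ⟨N, hN, hz⟩ := exists_TFn_zR d (J + 2)
  have hz1 := hz ((d : ℝ) + 1) (by linarith)
  have hz2 : TFn 2 N (zR ((d : ℝ) + 1) : Sp d → ℝ) := TU.TFn_mono hz1 (by omega) le_rfl
  obtain ⟨CZ, hCZ, hb⟩ := blc_mono (d := d) ((d : ℝ) + 3) (64 * R0) d (by linarith) (by linarith)
  obtain ⟨c, hc, hv⟩ := TFx.disc_vol (d := d) (by omega)
  refine ⟨c / (8 * N), 2 * N * (1 + CZ) / c, by positivity, by positivity, ?_⟩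
  intro m n s ab er dl D al hm hD hal hZ hS hbl hs her hdl hA
  have hab := hS.ab0
  have h1 := hS.est (zR ((d : ℝ) + 1)) ((d : ℝ) + 2) N N hz1.smooth (by linarith) (by linarith)
    (fun y hy => zR_eq_zero (by linarith))
    (TFx.TB_of hS.n1 s hz1 (TU.zR_smooth (by linarith))) (fun y => hz1.bd 2 (by omega) y)
  have h2 := hb m D hm hZ n s hS.n1 hs
  have h3 : c ≤ plInt n s (zR ((d : ℝ) + 1)) := by
    have h4 := TFx.disc_le hS.n1 (s := s) (ρ := 1) (R := (d : ℝ) + 1) (by linarith)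
      (Y := fun _ => 1) continuous_const (fun _ => zero_le_one) (y := s • n)
      (by rw [inner_smul_right, real_inner_self_eq_norm_sq, hS.n1]; ring)
      (by rw [norm_smul, hS.n1, mul_one, Real.norm_eq_abs]; linarith)
      (fun _ => 1) continuous_const (fun _ _ => le_rfl)
    rw [setIntegral_const, hv n hS.n1, smul_eq_mul, mul_one] at h4
    simpa using h4
  have h5 := hA _ N hz2 (fun y hy => zR_eq_zero (by linarith))
  have h6 : (d : ℝ) + 2 + 1 = d + 3 := by ring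
  rw [h6] at h1
  have h7 := (abs_le.1 h1).1
  have h8 := (abs_le.1 h5).2
  have h9 : ab * c ≤ ab * plInt n s (zR ((d : ℝ) + 1)) := mul_le_mul_of_nonneg_left h3 hab.le
  have h10 : N * blc n s m (d + 3) ≤ N * (c / (8 * N) * ab + CZ * D) :=
    mul_le_mul_of_nonneg_left (by linarith) hN.le
  have h11 : er * N ≤ c / (8 * N) * ab * N := mul_le_mul_of_nonneg_right her hN.le
  have h12 : (N + N) * dl ≤ (N + N) * (c / (8 * N) * ab) :=
    mul_le_mul_of_nonneg_left hdl (by linarith)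
  have h13 : c / (8 * N) * ab * N = c * ab / 8 := by field_simp
  have h14 : N * (c / (8 * N) * ab + CZ * D) = c * ab / 8 + N * CZ * D := by
    field_simp
  have h15 : (N + N) * (c / (8 * N) * ab) = c * ab / 4 := by
    field_simp
    ring
  have h16 : ab * c / 2 ≤ N * al + N * CZ * D := by
    rw [h13] at h11
    rw [h14] at h10
    rw [h15] at h12
    linarith only [h7, h8, h9, h10, h11, h12]
  have h17 : N * al + N * CZ * D ≤ N * (1 + CZ) * (al + D) := by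
    have : 0 ≤ N * CZ * al := by positivity
    have : 0 ≤ N * D := by positivity
    linarith
  have h18 : 2 * N * (1 + CZ) / c * (al + D) = 2 * (N * (1 + CZ) * (al + D)) / c := by ring
  rw [h18, le_div_iff₀ hc]
  linarith only [h7, h8, h9, h10, h11, h12, h13, h17]

/-- the gain on the plane of a cell -/
lemma gain_le (hWA : StmtWA) (hd : 2 ≤ d) {M C' ε : ℝ} (hC' : 0 < C') (hε0 : 0 < ε)
    (hε : ε ≤ 1) : ∃ C : ℝ, 0 < C ∧ ∀ β : Sp d → ℝ, Kit 4 M β → ∀ μ : Measure (Sp d), Gro C' μ →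
      ∀ (n : Sp d) (s : ℝ), ‖n‖ = 1 →
        plInt n s (fun x => chi x * XX β ε μ n 1 x) ≤ C * vv μ 1 0 ∧
        ((d : ℝ) < |s| → plInt n s (fun x => chi x * XX β ε μ n 1 x) = 0) := by
  obtain ⟨CW, hCW, h⟩ := hWA d 0 hd M C' ε hC' hε0 hε
  obtain ⟨Cp, hCp, hp⟩ := TFx.pl_le (d := d) (by omega) d
  refine ⟨Cp * (CW * (1 + d) ^ d), by positivity, fun β hβ μ hμ n s hn => ?_⟩
  obtain ⟨-, -, -, -, h5⟩ := h β hβ μ hμ
  obtain ⟨-, -, h6, -⟩ := h5 n hn
  have hv0 : 0 ≤ vv μ 1 0 := Real.sqrt_nonneg _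
  have hsup : ∀ y : Sp d, (d : ℝ) < ‖y‖ → chi y * XX β ε μ n 1 y = 0 := fun y hy => by
    rw [PTm.chi_supp hy.le (by omega), zero_mul]
  refine ⟨?_, fun hs => ?_⟩
  · have h7 := hp n hn s (fun x => chi x * XX β ε μ n 1 x) (CW * (1 + d) ^ d * vv μ 1 0)
      (by positivity) hsup (fun y _ hy => by
        have h8 := h6 0 le_rfl y
        rw [norm_iteratedFDeriv_zero, Real.norm_eq_abs] at h8
        have h9 := vv_grow hd hC' hμ y
        have h10 : (1 + ‖y‖) ^ d ≤ (1 + (d : ℝ)) ^ d := by (clear * - hy; gcongr)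
        have h11 : vv μ 1 y ≤ (1 + (d : ℝ)) ^ d * vv μ 1 0 :=
          h9.trans (mul_le_mul_of_nonneg_right h10 hv0)
        rw [abs_mul, abs_of_nonneg (PTm.chi_nonneg y)]
        calc chi y * |XX β ε μ n 1 y| ≤ 1 * |XX β ε μ n 1 y| :=
              mul_le_mul_of_nonneg_right (PTm.chi_le_one y) (abs_nonneg _)
          _ = |XX β ε μ n 1 y| := one_mul _
          _ ≤ CW * vv μ 1 y := h8
          _ ≤ CW * ((1 + (d : ℝ)) ^ d * vv μ 1 0) := mul_le_mul_of_nonneg_left h11 hCW.le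
          _ = _ := by ring)
    calc _ ≤ |plInt n s (fun x => chi x * XX β ε μ n 1 x)| := le_abs_self _
      _ ≤ Cp * (CW * (1 + d) ^ d * vv μ 1 0) := h7
      _ = _ := by ring
  · have h7 := hp n hn s (fun x => chi x * XX β ε μ n 1 x) 0 le_rfl hsup (fun y h8 hy => by
      exfalso
      have h9 : |s| ≤ ‖y‖ := by
        rw [← h8]
        have := abs_real_inner_le_norm n y
        rwa [hn, one_mul] at this
      linarith)
    rw [mul_zero] at h7
    exact abs_nonpos_iff.1 h7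

/-- the off-sheet mass of a cell -/
lemma hgt_tfn (hd : 2 ≤ d) (S : ℝ) : ∃ K : ℝ, 0 < K ∧ ∀ (n : Sp d) (s : ℝ), ‖n‖ = 1 → |s| ≤ S →
    TFn 2 K (fun y => chi y * hgt n s y ^ 2) := by
  have hd0 : (2 : ℝ) ≤ d := by exact_mod_cast hd
  obtain ⟨K1, hK1, h1⟩ := exists_TFn_ht2 d 2 d S (by linarith)
  obtain ⟨K2, hK2, h2⟩ := TFx.chi_TFn (d := d) (by omega) 2
  refine ⟨2 ^ 2 * (K2 * K1), by positivity, fun n s hn hs => ?_⟩
  have h3 := TU.TFn_mul h2 (h1 n s hn hs)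
  have e1 : (fun y => chi y * hgt n s y ^ 2) = fun y => chi y * (zR (d : ℝ) y * ht n s y ^ 2) := by
    funext y
    have e2 : ht n s y = hgt n s y := rfl
    rw [e2]
    by_cases hy : ‖y‖ ≤ d
    · rw [zR_eq_one hy, one_mul]
    · rw [PTm.chi_supp (not_le.1 hy).le (by omega), zero_mul, zero_mul]
  rw [e1]
  exact h3

end W5m

end

end TG


end

section

/-!
# MODULE W4, first part: sheet cells in their frames   (helper38)
-/

open MeasureTheory Metric Set TrI Filter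
open scoped InnerProductSpace ContDiff Topology

set_option linter.unusedSectionVars false

namespace TG

noncomputable section

namespace W4m

variable {d : ℕ}

/-! ## Test functions from bounds of order 0 and 2 -/

lemma tfn_02 {H : Sp d → ℝ} (hH : ContDiff ℝ 2 H) (h0 : ∀ y, |H y| ≤ 1)
    (h2 : ∀ y, ‖iteratedFDeriv ℝ 2 H y‖ ≤ 1) : TFn 2 4 H := by
  have hd : Differentiable ℝ H := hH.differentiable (by norm_num)
  have hD : ContDiff ℝ 1 (fderiv ℝ H) := hH.fderiv_right (by norm_num)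
  have hDd : Differentiable ℝ (fderiv ℝ H) := hD.differentiable (by norm_num)
  have hbd : ∀ y, ‖fderiv ℝ (fderiv ℝ H) y‖ ≤ 1 := fun y => by
    have : ‖fderiv ℝ (fderiv ℝ H) y‖ = ‖iteratedFDeriv ℝ 2 H y‖ := by
      rw [show (2 : ℕ) = 1 + 1 from rfl, ← norm_iteratedFDeriv_fderiv,
        norm_iteratedFDeriv_one]
    rw [this]
    exact h2 y
  have key : ∀ x v : Sp d, |H (x + v) - H x - fderiv ℝ H x v| ≤ ‖v‖ * ‖v‖ := by
    intro x v
    have hlip : ∀ y, ‖fderiv ℝ H y - fderiv ℝ H x‖ ≤ ‖y - x‖ := fun y => by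
      have := Convex.norm_image_sub_le_of_norm_fderiv_le (𝕜 := ℝ) (f := fderiv ℝ H) (s := univ)
        (C := 1) (x := x) (y := y) (fun z _ => hDd z) (fun z _ => hbd z) convex_univ (mem_univ _)
        (mem_univ _)
      simpa using this
    have h3 := (convex_closedBall x ‖v‖).norm_image_sub_le_of_norm_fderiv_le' (𝕜 := ℝ) (f := H)
      (φ := fderiv ℝ H x) (C := ‖v‖) (x := x) (y := x + v) (fun z _ => hd z)
      (fun z hz => (hlip z).trans (by rwa [mem_closedBall, dist_eq_norm] at hz))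
      (mem_closedBall_self (norm_nonneg v)) (by simp [mem_closedBall, dist_eq_norm])
    rw [Real.norm_eq_abs, add_sub_cancel_left] at h3
    exact h3
  refine ⟨hH, fun j hj x => ?_⟩
  interval_cases j
  · rw [norm_iteratedFDeriv_zero, Real.norm_eq_abs]
    linarith [h0 x]
  · rw [norm_iteratedFDeriv_one]
    refine ContinuousLinearMap.opNorm_le_of_unit_norm (by norm_num) fun v hv => ?_
    have h3 := key x v
    rw [hv] at h3
    have h4 := h0 (x + v)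
    have h5 := h0 x
    rw [Real.norm_eq_abs]
    rw [abs_le] at *
    constructor <;> linarith [h3.1, h3.2, h4.1, h4.2, h5.1, h5.2]
  · linarith [h2 x]

lemma zp_mono {R R' D D' : ℝ} {m : Sp d → ℝ} (h : ZP R D m) (hR : R' ≤ R) (hD : D ≤ D') :
    ZP R' D' m := fun H h1 h2 h3 h4 h5 =>
  (neg_le_neg hD).trans (h H h1 h2 h3 h4 fun y hy => h5 y (hR.trans hy))

/-! ## Sheet cells -/

/-- a sheet cell in its frame -/
structure ShF (J : ℕ) (R ab er dl D : ℝ) (m : Sp d → ℝ) (n : Sp d) (s : ℝ) : Prop where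
  sh : Sheet J R ab er dl m n s
  bl : blc n s m R ≤ er
  loc : |s| ≤ R + 4
  dl0 : 0 ≤ dl
  D0 : 0 ≤ D
  mc : Continuous m
  zp : ZP (R + 1) D m

/-- the sheet and the near positivity with a common defect -/
lemma ShF.common {J : ℕ} {R ab er dl D : ℝ} {m : Sp d → ℝ} {n : Sp d} {s : ℝ}
    (h : ShF J R ab er dl D m n s) {D' : ℝ} (hD : dl + D ≤ D') :
    ZP R D' m ∧ Sheet J R ab er D' m n s := by
  have h1 := h.dl0
  have h2 := h.D0
  exact ⟨zp_mono h.zp (by linarith) (by linarith),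
    WT.sheet_mono h.sh le_rfl le_rfl h.sh.loc le_rfl (by linarith)⟩

/-- the off-sheet mass in small balls -/
lemma blc_le {R : ℝ} (hR : (d : ℝ) + 1 ≤ R) : ∃ K : ℝ, 0 < K ∧
    ∀ (J : ℕ) (ab er dl D : ℝ) (m : Sp d → ℝ) (n : Sp d) (s : ℝ), ShF J R ab er dl D m n s →
      blc n s m (d + 1) ≤ er + K * D := by
  have hd0 : (0 : ℝ) ≤ d := Nat.cast_nonneg d
  obtain ⟨K, hK, h⟩ := W5m.blc_mono (d := d) ((d : ℝ) + 1) R (R + 4) (by linarith) hR
  refine ⟨K, hK, fun J ab er dl D m n s hS => ?_⟩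
  have h1 := h m D hS.mc hS.zp n s hS.sh.n1 hS.loc
  linarith [hS.bl]

/-- crude bound of a test function supported in the cell -/
lemma crude (hd : 2 ≤ d) (J : ℕ) {R : ℝ} (hR : (d : ℝ) + 1 ≤ R) : ∃ C : ℝ, 0 < C ∧
    ∀ (ab er dl D : ℝ) (m : Sp d → ℝ) (n : Sp d) (s : ℝ), ShF J R ab er dl D m n s →
    ∀ (ζ : Sp d → ℝ) (N : ℝ), TFn (J + 2) N ζ → (∀ y, (d : ℝ) ≤ ‖y‖ → ζ y = 0) →
      |∫ y, m y * ζ y| ≤ N * (C * (ab + er + dl + D)) := by
  have hd0 : (0 : ℝ) ≤ d := Nat.cast_nonneg d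
  obtain ⟨K, hK, h⟩ := blc_le (d := d) hR
  obtain ⟨Cp, hCp, hp⟩ := TFx.pl_le (d := d) (by omega) d
  refine ⟨Cp + K + 2, by positivity, fun ab er dl D m n s hS ζ N hζ h0 => ?_⟩
  have hN := TU.TFn_nonneg hζ
  have h1 := h J ab er dl D m n s hS
  have h2 := hS.sh.est ζ d N N (by exact_mod_cast hζ.smooth) hd0 (by linarith) h0
    (GSAux.TB_of_TFn hζ hS.sh.n1 s) (fun y => hζ.bd 2 (by omega) y)
  have h3 := hp n hS.sh.n1 s ζ N hN (fun y hy => h0 y hy.le) (fun y _ _ => by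
    have := TU.TFn_norm hζ y
    rwa [Real.norm_eq_abs] at this)
  have hab := hS.sh.ab0
  have her := hS.sh.ep0
  have hdl := hS.dl0
  have hD := hS.D0
  have h4 : |ab * plInt n s ζ| ≤ ab * (Cp * N) := by
    rw [abs_mul, abs_of_pos hab]
    exact mul_le_mul_of_nonneg_left h3 hab.le
  have h5 : |∫ y, m y * ζ y| ≤ |(∫ y, m y * ζ y) - ab * plInt n s ζ| + |ab * plInt n s ζ| := by
    have := abs_add_le ((∫ y, m y * ζ y) - ab * plInt n s ζ) (ab * plInt n s ζ)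
    rwa [sub_add_cancel] at this
  have h6 : N * blc n s m (d + 1) ≤ N * (er + K * D) := mul_le_mul_of_nonneg_left h1 hN
  have e1 : N * ((Cp + K + 2) * (ab + er + dl + D)) =
      ab * (Cp * N) + (er * N + N * (er + K * D) + (N + N) * dl) +
      N * ((K + 2) * ab + (Cp + K) * er + (Cp + K) * dl + (Cp + 2) * D) := by ring
  have h7 : 0 ≤ N * ((K + 2) * ab + (Cp + K) * er + (Cp + K) * dl + (Cp + 2) * D) := by
    positivity
  rw [e1]
  linarith

/-- main contribution and divergence contribution of a sheet cell -/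
lemma main0 (hTA2 : StmtTA2) (hTD2 : StmtTD2) (hd : 2 ≤ d) (J : ℕ) {M C' ε p0 A c R : ℝ}
    (hC' : 0 < C') (hε0 : 0 < ε) (hε : ε ≤ 1 / 4) (hF : FarK d (J + 10) M C' ε p0 A c)
    (hR : 4 * A + 4 * d + 20 ≤ R) : ∃ cA C : ℝ, 0 < cA ∧ 0 < C ∧
    ∀ β : Sp d → ℝ, Kit (J + 10) M β → ∀ μ : Measure (Sp d), Gro C' μ →
    ∀ (ab er dl D : ℝ) (m : Sp d → ℝ) (n : Sp d) (s : ℝ), ShF J R ab er dl D m n s →
      cA * (ab * plInt n s (fun x => chi x * XX β ε μ n 1 x)) ≤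
        (∫ y, m y * (chi y * Hn β ε p0 A μ n 1 y)) + C * vv μ 1 0 * (er + dl + D) ∧
      |∫ y, m y * dvT chi β ε p0 A μ n y| ≤ C * vv μ 1 0 * (er + dl + D) := by
  have hA := hF.A_ge
  have hd0 : (0 : ℝ) ≤ d := Nat.cast_nonneg d
  obtain ⟨cA, C1, hcA, hC1, h1⟩ := hTA2 d J hd M C' ε p0 A c R hC' hε0 hε hF hR
  obtain ⟨C2, hC2, h2⟩ := hTD2 d J hd M C' ε p0 A R hC' hε0 hε hF.p0_pos hF.p0_le hA hR
  obtain ⟨K, hK, hb⟩ := blc_le (d := d) (R := R) (by linarith only [hR, hA])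
  refine ⟨cA, (C1 + C2) * (K + 2), hcA, by positivity,
    fun β hβ μ hμ ab er dl D m n s hS => ?_⟩
  have hv : 0 ≤ vv μ 1 0 := Real.sqrt_nonneg _
  have her := hS.sh.ep0
  have hdl := hS.dl0
  have hD := hS.D0
  obtain ⟨hz, hs⟩ := hS.common (D' := dl + D) le_rfl
  have h3 := h1 β hβ μ hμ m n s ab er (dl + D) hS.mc (by linarith) hz hs
  have h4 := h2 β hβ μ hμ m n s ab er (dl + D) hS.mc (by linarith) hz hs
  have h5 := hb J ab er dl D m n s hS
  have h6 : er + blc n s m (d + 1) + 2 * (dl + D) ≤ (K + 2) * (er + dl + D) := by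
    linarith only [h5, mul_nonneg hK.le her, mul_nonneg hK.le hdl]
  have h7 : vv μ 1 0 * (er + blc n s m (d + 1) + 2 * (dl + D)) ≤
      vv μ 1 0 * ((K + 2) * (er + dl + D)) := mul_le_mul_of_nonneg_left h6 hv
  have h8 : 0 ≤ vv μ 1 0 * ((K + 2) * (er + dl + D)) := by positivity
  constructor
  · have h9 := mul_le_mul_of_nonneg_left h7 hC1.le
    have h10 := mul_nonneg hC2.le h8
    have e1 : (C1 + C2) * (K + 2) * vv μ 1 0 * (er + dl + D) =
      C1 * (vv μ 1 0 * ((K + 2) * (er + dl + D))) +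
        C2 * (vv μ 1 0 * ((K + 2) * (er + dl + D))) := by ring
    rw [e1, ← mul_assoc]
    have e2 : C1 * vv μ 1 0 * (er + blc n s m (d + 1) + 2 * (dl + D)) =
      C1 * (vv μ 1 0 * (er + blc n s m (d + 1) + 2 * (dl + D))) := by ring
    linarith
  · refine h4.trans ?_
    have h9 := mul_le_mul_of_nonneg_left h7 hC2.le
    have h10 := mul_nonneg hC1.le h8
    have e1 : (C1 + C2) * (K + 2) * vv μ 1 0 * (er + dl + D) =
      C1 * (vv μ 1 0 * ((K + 2) * (er + dl + D))) +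
        C2 * (vv μ 1 0 * ((K + 2) * (er + dl + D))) := by ring
    rw [e1]
    have e2 : C2 * vv μ 1 0 * (er + blc n s m (d + 1) + 2 * (dl + D)) =
      C2 * (vv μ 1 0 * (er + blc n s m (d + 1) + 2 * (dl + D))) := by ring
    linarith

/-- the off-sheet mass of the cell -/
lemma bl_le (hd : 2 ≤ d) {R : ℝ} (hR : (d : ℝ) + 1 ≤ R) : ∃ K : ℝ, 0 < K ∧
    ∀ (J : ℕ) (ab er dl D : ℝ) (m : Sp d → ℝ) (n : Sp d) (s : ℝ), ShF J R ab er dl D m n s →
      max 0 (∫ y, m y * (chi y * hgt n s y ^ 2)) ≤ er + K * D := by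
  have hd0 : (0 : ℝ) ≤ d := Nat.cast_nonneg d
  obtain ⟨K1, hK1, h1⟩ := W5m.hgt_tfn hd (R + 4)
  obtain ⟨K2, hK2, h2⟩ := exists_TFn_ht2 d 2 R (R + 4) (by linarith)
  refine ⟨K2 + K1, by positivity, fun J ab er dl D m n s hS => ?_⟩
  have t1 := h1 n s hS.sh.n1 hS.loc
  have t2 := h2 n s hS.sh.n1 hS.loc
  have e1 : ∀ y, ht n s y = hgt n s y := fun y => rfl
  simp only [e1] at t2
  have h3 := W5m.zp_scale hS.zp (K := K2 + K1) (by positivity) (t2.sub t1)
    (fun y => by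
      have h4 : chi y ≤ zR R y := by
        by_cases hy : ‖y‖ ≤ R
        · rw [zR_eq_one hy]
          exact PTm.chi_le_one y
        · rw [PTm.chi_supp (by linarith [not_le.1 hy]) (by omega)]
          exact zR_nonneg _ _
      nlinarith [sq_nonneg (hgt n s y)])
    (fun y hy => by
      rw [zR_eq_zero hy, PTm.chi_supp (by linarith) (by omega)]
      ring)
  have i1 : Integrable (fun y => m y * (zR R y * hgt n s y ^ 2)) :=
    W5m.int_m hS.mc t2.smooth.continuous (ρ := R + 1) (fun y hy => by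
      rw [zR_eq_zero hy, zero_mul])
  have i2 : Integrable (fun y => m y * (chi y * hgt n s y ^ 2)) :=
    W5m.int_m hS.mc t1.smooth.continuous (ρ := d) (fun y hy => by
      rw [PTm.chi_supp hy (by omega), zero_mul])
  have e2 : ∫ y, m y * (zR R y * hgt n s y ^ 2 - chi y * hgt n s y ^ 2) =
      blc n s m R - ∫ y, m y * (chi y * hgt n s y ^ 2) := by
    unfold blc
    rw [← integral_sub i1 i2]
    refine integral_congr_ae (Eventually.of_forall fun y => ?_)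
    simp only
    ring
  rw [e2] at h3
  have her := hS.sh.ep0
  have hD := hS.D0
  refine max_le (by positivity) ?_
  linarith [hS.bl]

/-- the gain in a slightly larger ball -/
lemma gain2 (hWA : StmtWA) (hd : 2 ≤ d) {M C' ε : ℝ} (hC' : 0 < C') (hε0 : 0 < ε)
    (hε : ε ≤ 1) : ∃ C : ℝ, 0 < C ∧ ∀ β : Sp d → ℝ, Kit 4 M β → ∀ μ : Measure (Sp d), Gro C' μ →
      ∀ (n : Sp d) (s : ℝ), ‖n‖ = 1 →
        plInt n s (fun x => zR (d + 2) x * XX β ε μ n 1 x) ≤ C * vv μ 1 0 := by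
  obtain ⟨CW, hCW, h⟩ := hWA d 0 hd M C' ε hC' hε0 hε
  obtain ⟨Cp, hCp, hp⟩ := TFx.pl_le (d := d) (by omega) (d + 3)
  refine ⟨Cp * (CW * (1 + (d + 3)) ^ d), by positivity, fun β hβ μ hμ n s hn => ?_⟩
  obtain ⟨-, -, -, -, h5⟩ := h β hβ μ hμ
  obtain ⟨-, -, h6, -⟩ := h5 n hn
  have hv0 : 0 ≤ vv μ 1 0 := Real.sqrt_nonneg _
  have h7 := hp n hn s (fun x => zR (d + 2) x * XX β ε μ n 1 x)
    (CW * (1 + (d + 3)) ^ d * vv μ 1 0) (by positivity)
    (fun y hy => by rw [zR_eq_zero (by linarith), zero_mul])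
    (fun y _ hy => by
      have h8 := h6 0 le_rfl y
      rw [norm_iteratedFDeriv_zero, Real.norm_eq_abs] at h8
      have h9 := CS2.vv_grow hd hC' hμ y
      have h10 : (1 + ‖y‖) ^ d ≤ (1 + ((d : ℝ) + 3)) ^ d := by (clear * - hy; gcongr)
      have h11 : vv μ 1 y ≤ (1 + ((d : ℝ) + 3)) ^ d * vv μ 1 0 :=
        h9.trans (mul_le_mul_of_nonneg_right h10 hv0)
      rw [abs_mul, abs_of_nonneg (zR_nonneg _ y)]
      calc zR (d + 2) y * |XX β ε μ n 1 y| ≤ 1 * |XX β ε μ n 1 y| :=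
            mul_le_mul_of_nonneg_right (TU.zR_le_one _ y) (abs_nonneg _)
        _ = |XX β ε μ n 1 y| := one_mul _
        _ ≤ CW * vv μ 1 y := h8
        _ ≤ CW * ((1 + ((d : ℝ) + 3)) ^ d * vv μ 1 0) := mul_le_mul_of_nonneg_left h11 hCW.le
        _ = _ := by ring)
  calc _ ≤ |plInt n s (fun x => zR (d + 2) x * XX β ε μ n 1 x)| := le_abs_self _
    _ ≤ _ := h7
    _ = _ := by ring

/-- flux between two sheet cells; T bounds the tilt -/
lemma flux00 (hTF : StmtTF) (hWA : StmtWA) (hd : 2 ≤ d) (J : ℕ) {M C' ε p0 A R : ℝ}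
    (hC' : 0 < C') (hε0 : 0 < ε) (hε : ε ≤ 1 / 4) (hp0 : 0 < p0) (hp01 : p0 ≤ 1) (hA : 1 ≤ A)
    (hR : 4 * A + 4 * d + 20 ≤ R) : ∃ C : ℝ, 0 < C ∧
    ∀ β : Sp d → ℝ, Kit (J + 10) M β → ∀ μ : Measure (Sp d), Gro C' μ →
    ∀ (ab er dl D T : ℝ) (m m' : Sp d → ℝ) (n n' : Sp d) (s : ℝ) (p : Sp d),
      ShF J R ab er dl D m n s → Continuous m' → ‖n'‖ = 1 → 0 ≤ T → ab * ‖n - n'‖ ≤ T →
      (∀ (ζ : Sp d → ℝ) (N : ℝ), TFn 2 N ζ → (∀ y, R ≤ ‖y‖ → ζ y = 0) →
        |∫ y, (m' y - m y) * ζ y| ≤ N * D) →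
      |(∫ y, m y * fxA chi (fun x => chi (x - p)) β ε p0 A μ n y)
          - ∫ y, m' y * fxA chi (fun x => chi (x - p)) β ε p0 A μ n' y| ≤
        C * vv μ 1 0 * (er + dl + D + T) := by
  have hε1 : ε ≤ 1 := by linarith
  have hA0 : 0 < A := by linarith
  have hd0 : (2 : ℝ) ≤ d := by exact_mod_cast hd
  obtain ⟨C, C1, hC, hC1, h⟩ := hTF d J hd M C' ε p0 A R hC' hε0 hε hp0 hp01 hA hR
  obtain ⟨CX, hCX, hX⟩ := gain2 hWA hd (M := M) hC' hε0 hε1
  obtain ⟨K, hK, hb⟩ := blc_le (d := d) (R := R) (by linarith)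
  obtain ⟨Cc, hCc, hc⟩ := crude hd J (R := R) (by linarith)
  obtain ⟨B, hB, hfam⟩ := WTb.fam hd hC' (ε := ε) (p0 := p0) (A := A) hε0 hε1 hA0 M
  set S : ℝ := (1 + d * d) * (B1m.SB B (J + 2)) with hS
  have hS0 : 0 ≤ S := mul_nonneg (by positivity) (B1m.SB_nonneg B _)
  have hsq : 0 ≤ Real.sqrt CX := Real.sqrt_nonneg _
  refine ⟨C * Real.sqrt CX + C + C * (1 + K) + 4 * C1 + 2 * S * Cc + S + 1, by (clear * - hC hCX hK hC1 hS0 hCc; positivity), ?_⟩
  intro β hβ μ hμ ab er dl D T m m' n n' s p hSh hm' hn' hT hT2 hdir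
  have hv : 0 ≤ vv μ 1 0 := Real.sqrt_nonneg _
  set v := vv μ 1 0 with hvd
  have hab := hSh.sh.ab0
  have her := hSh.sh.ep0
  have hdl := hSh.dl0
  have hD := hSh.D0
  have hn := hSh.sh.n1
  have hβ4 : Kit 4 M β := hβ.mono_order (by omega)
  by_cases hδ : ‖n - n'‖ ≤ 1
  · -- small tilt
    obtain ⟨hz, hs⟩ := hSh.common (D' := dl + 4 * D) (by linarith)
    have h1 := h β hβ μ hμ m m' n n' s ab er (dl + 4 * D) ‖n - n'‖ p hSh.mc hm' (by positivity)
      hz hs hn' le_rfl hδ (fun Y hY hY1 hY2 hY0 => by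
        have h2 := hdir Y 4 (tfn_02 hY hY1 hY2) hY0
        have e1 : ∫ y, (m y - m' y) * Y y = -∫ y, (m' y - m y) * Y y := by
          rw [← integral_neg]
          congr 1
          funext y
          ring
        rw [e1, abs_neg]
        linarith)
    have h2 := hX β hβ4 μ hμ n s hn
    have h3 : Real.sqrt (v * plInt n s (fun x => zR (d + 2) x * XX β ε μ n 1 x)) ≤
        Real.sqrt CX * v := by
      calc Real.sqrt (v * plInt n s (fun x => zR (d + 2) x * XX β ε μ n 1 x))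
          ≤ Real.sqrt (CX * v ^ 2) := by
            refine Real.sqrt_le_sqrt ?_
            nlinarith only [hv, h2]
        _ = Real.sqrt CX * v := by rw [Real.sqrt_mul hCX.le, Real.sqrt_sq hv]
    have h4 := hb J ab er dl D m n s hSh
    have hδ0 := norm_nonneg (n - n')
    set δ := ‖n - n'‖ with hδd
    have h5 : 0 ≤ er + ab * δ := by positivity
    have h6 : C * (er + ab * δ) * Real.sqrt (v * plInt n s (fun x => zR (d + 2) x *
        XX β ε μ n 1 x)) ≤ C * (er + T) * (Real.sqrt CX * v) := by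
      refine mul_le_mul ?_ h3 (Real.sqrt_nonneg _) (by positivity)
      exact mul_le_mul_of_nonneg_left (by linarith) hC.le
    have h7 : er * δ + ab * δ ^ 2 ≤ er + T := by
      have h8 : er * δ ≤ er := by nlinarith only [her, hδ]
      have h9 : ab * δ ^ 2 ≤ ab * δ := by nlinarith only [hδ, mul_nonneg hab.le hδ0]
      linarith
    have h8 : C * (er * δ + ab * δ ^ 2) * v ≤ C * (er + T) * v :=
      mul_le_mul_of_nonneg_right (mul_le_mul_of_nonneg_left h7 hC.le) hv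
    have h9 : C * δ * v * blc n s m (d + 1) ≤ C * v * (er + K * D) := by
      have h10 : 0 ≤ C * δ * v := by positivity
      have h11 : C * δ * v * blc n s m (d + 1) ≤ C * δ * v * (er + K * D) :=
        mul_le_mul_of_nonneg_left h4 h10
      have h12 : C * δ * v * (er + K * D) ≤ C * 1 * v * (er + K * D) := by
        (clear * - hδ hC hv her hK hD; gcongr)
      linarith
    refine h1.trans ?_
    have e2 : C1 * v * (dl + 4 * D) = v * (C1 * dl + 4 * C1 * D) := by ring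
    have e3 : C * (er + T) * (Real.sqrt CX * v) = v * (C * Real.sqrt CX * er +
      C * Real.sqrt CX * T) := by ring
    have e4 : C * (er + T) * v = v * (C * er + C * T) := by ring
    have e5 : C * v * (er + K * D) = v * (C * er + C * K * D) := by ring
    have e6 : (C * Real.sqrt CX + C + C * (1 + K) + 4 * C1 + 2 * S * Cc + S + 1) * v *
        (er + dl + D + T) = v * (C * Real.sqrt CX * er + C * Real.sqrt CX * T) +
        v * (C * er + C * T) + v * (C * er + C * K * D) + v * (C1 * dl + 4 * C1 * D) +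
        v * (C * Real.sqrt CX * (dl + D) + C * (dl + D) + C * (dl + D + T) +
          C * K * (er + dl + T) + C1 * (4 * er + 3 * dl + 4 * T) +
          (2 * S * Cc + S + 1) * (er + dl + D + T)) := by ring
    have h13 : 0 ≤ v * (C * Real.sqrt CX * (dl + D) + C * (dl + D) + C * (dl + D + T) +
          C * K * (er + dl + T) + C1 * (4 * er + 3 * dl + 4 * T) +
          (2 * S * Cc + S + 1) * (er + dl + D + T)) := by (clear * - hv hC hCX hdl hD hT hK her hC1 hS0 hCc; positivity)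
    rw [e6]
    linarith only [h6, h8, h9, h13]
  · -- large tilt
    have hab2 : ab ≤ T := by
      have : ab * 1 ≤ ab * ‖n - n'‖ := mul_le_mul_of_nonneg_left (not_le.1 hδ).le hab.le
      linarith
    obtain ⟨-, -, f3, f4, -⟩ := hfam β hβ4 μ hμ
    have g1 := WTb.fxA_tfn hv (f3 p) (f4 p) (J + 2) hn
    have g2 := WTb.fxA_tfn hv (f3 p) (f4 p) (J + 2) hn'
    have g3 := hc ab er dl D m n s hSh _ _ g1 (WTb.fxA_vs hd p β ε p0 A μ hn)
    have g4 := hc ab er dl D m n s hSh _ _ g2 (WTb.fxA_vs hd p β ε p0 A μ hn')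
    have g5 := hdir _ _ (TU.TFn_mono g2 (by omega) le_rfl)
      (fun y hy => WTb.fxA_vs hd p β ε p0 A μ hn' y (by linarith))
    have e0 : (1 + (d : ℝ) * d) * (v * B1m.SB B (J + 2)) = v * S := by rw [hS]; ring
    rw [e0] at g3 g4 g5
    have i1 : Integrable (fun y => m y * fxA chi (fun x => chi (x - p)) β ε p0 A μ n' y) :=
      W5m.int_m hSh.mc g2.smooth.continuous (WTb.fxA_vs hd p β ε p0 A μ hn')
    have i2 : Integrable (fun y => m' y * fxA chi (fun x => chi (x - p)) β ε p0 A μ n' y) :=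
      W5m.int_m hm' g2.smooth.continuous (WTb.fxA_vs hd p β ε p0 A μ hn')
    have e1 : ∫ y, m' y * fxA chi (fun x => chi (x - p)) β ε p0 A μ n' y =
        (∫ y, (m' y - m y) * fxA chi (fun x => chi (x - p)) β ε p0 A μ n' y) +
          ∫ y, m y * fxA chi (fun x => chi (x - p)) β ε p0 A μ n' y := by
      have h1 : ∫ y, (m' y - m y) * fxA chi (fun x => chi (x - p)) β ε p0 A μ n' y =
          (∫ y, m' y * fxA chi (fun x => chi (x - p)) β ε p0 A μ n' y) -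
            ∫ y, m y * fxA chi (fun x => chi (x - p)) β ε p0 A μ n' y := by
        rw [← integral_sub i2 i1]
        congr 1
        funext y
        ring
      rw [h1]
      ring
    rw [e1]
    have h2 : v * S * (Cc * (ab + er + dl + D)) ≤ v * S * (Cc * (er + dl + D + T)) := by
      refine mul_le_mul_of_nonneg_left ?_ (by (clear * - hv hS0; positivity))
      exact mul_le_mul_of_nonneg_left (by linarith) hCc.le
    rw [abs_le] at g3 g4 g5 ⊢
    have e6 : (C * Real.sqrt CX + C + C * (1 + K) + 4 * C1 + 2 * S * Cc + S + 1) * v *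
        (er + dl + D + T) = 2 * (v * S * (Cc * (er + dl + D + T))) + v * S * D +
        v * ((C * Real.sqrt CX + C + C * (1 + K) + 4 * C1 + 1) * (er + dl + D + T) +
          S * (er + dl + T)) := by ring
    have h13 : 0 ≤ v * ((C * Real.sqrt CX + C + C * (1 + K) + 4 * C1 + 1) * (er + dl + D + T) +
          S * (er + dl + T)) := by (clear * - hv hC hCX hK hC1 her hdl hD hT hS0; positivity)
    rw [e6]
    constructor <;> (first | linarith only [g3, g4, g5, h2, h13] | linarith [g3.1, g3.2, g4.1, g4.2, g5.1, g5.2])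

end W4m

end

end TG


end

section

/-!
# MODULE W4, second part: fluxes between a sheet cell and a Newton cell   (helper38)
-/

open MeasureTheory Metric Set TrI Filter
open scoped InnerProductSpace ContDiff Topology

set_option linter.unusedSectionVars false

namespace TG

noncomputable section

namespace W4m

variable {d : ℕ}

lemma sm_shift {B : ℕ → ℝ} {v ρ ρ' : ℝ} {g : Sp d → ℝ} (h : WTb.Sm B v ρ g) (x : Sp d)
    (h0 : ∀ y, ρ' ≤ ‖y‖ → g (x + y) = 0) : WTb.Sm B v ρ' (fun y => g (x + y)) :=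
  ⟨h.sm.comp (contDiff_const.add contDiff_id), fun k y => by
    rw [iteratedFDeriv_comp_add_left]
    exact h.bd k _, h0⟩

lemma tfn_mono_ord {J J' : ℕ} {N : ℝ} {g : Sp d → ℝ} (h : TFn J N g) (hJ : J' ≤ J) : TFn J' N g :=
  TU.TFn_mono h hJ le_rfl

/-- the difference of the two fluxes, tested with the density of the sheet cell; x is the position
of the sheet cell in the frame of the flux -/
lemma AB_diff (hd : 2 ≤ d) (J : ℕ) {Mb cb : ℝ} {b : Sp d → ℝ} (hb : BaseKer 2 Mb cb b)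
    {RN : ℝ} (hRN : 0 < RN) {B : ℕ → ℝ} {v : ℝ} (hv : 0 ≤ v) {p x : Sp d} (hx : x = 0 ∨ x = p)
    {β : Sp d → ℝ} {ε p0 A : ℝ} {μ : Measure (Sp d)}
    (h1 : ∀ a c, WTb.Sm B v d (WTb.mY p β ε p0 A μ a c)) (h2 : WTb.Sm B v d (WTb.tY p β ε p0 A μ))
    {n : Sp d} (hn : ‖n‖ = 1) {mP : Sp d → ℝ} (hm : Continuous mP) {EI Ea : ℝ}
    (hIf : ∀ (Y : Fin d → Fin d → Sp d → ℝ) (N : ℝ), (∀ i j, TFn (J + 6) N (Y i j)) →
      (∀ i j y, (d : ℝ) ≤ ‖y‖ → Y i j y = 0) →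
      |∫ y, mP y * ((∑ i, ∑ j, n i * n j * Y i j y) - nt b RN Y y)| ≤ N * EI)
    (hav : ∀ g : Sp d → ℝ, WTb.Sm B v d g → |∫ y, mP y * avk b RN g y| ≤ v * B1m.SB B 2 * Ea) :
    |∫ y, mP y * (fxA chi (fun z => chi (z - p)) β ε p0 A μ n (x + y) -
        fxB b RN chi (fun z => chi (z - p)) β ε p0 A μ (x + y))| ≤
      v * (B1m.SB B (J + 6) * EI + B1m.SB B 2 * Ea) := by
  have hY0 : ∀ (i j : Fin d) (y : Sp d), (d : ℝ) ≤ ‖y‖ →
      WTb.mY p β ε p0 A μ i j (x + y) = 0 := by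
    intro i j y hy
    rcases hx with rfl | rfl
    · rw [zero_add]
      exact WTb.mY_vs hd p β μ i j y hy
    · unfold WTb.mY
      rw [add_sub_cancel_left, PTm.chi_supp hy (by omega)]
      simp
  have ht0 : ∀ (y : Sp d), (d : ℝ) ≤ ‖y‖ → WTb.tY p β ε p0 A μ (x + y) = 0 := by
    intro y hy
    rcases hx with rfl | rfl
    · rw [zero_add]
      exact WTb.tY_vs hd p β μ y hy
    · unfold WTb.tY
      rw [add_sub_cancel_left, PTm.chi_supp hy (by omega)]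
      simp
  have s1 : ∀ i j, WTb.Sm B v d (fun y => WTb.mY p β ε p0 A μ i j (x + y)) := fun i j =>
    sm_shift (h1 i j) x (hY0 i j)
  have s2 : WTb.Sm B v d (fun y => WTb.tY p β ε p0 A μ (x + y)) := sm_shift h2 x ht0
  have k1 := hIf (fun i j y => WTb.mY p β ε p0 A μ i j (x + y)) (v * B1m.SB B (J + 6))
    (fun i j => (s1 i j).tfn hv (J + 6)) hY0
  have k2 := hav _ s2
  -- the identity
  have e1 : ∀ y, fxA chi (fun z => chi (z - p)) β ε p0 A μ n (x + y) -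
        fxB b RN chi (fun z => chi (z - p)) β ε p0 A μ (x + y) =
      avk b RN (fun y => WTb.tY p β ε p0 A μ (x + y)) y -
        ((∑ i, ∑ j, n i * n j * WTb.mY p β ε p0 A μ i j (x + y)) -
          nt b RN (fun i j y => WTb.mY p β ε p0 A μ i j (x + y)) y) := by
    intro y
    rw [WTb.fxA_sub_fxB b RN p β ε p0 A μ hn, CS1m.avk_shift, CS1m.nt_shift]
  simp only [e1]
  obtain ⟨t1, t2⟩ := WTb.avk_tfn hb hRN.le hv s2
  obtain ⟨t3, t4⟩ := WTb.nt_tfn hd hb hRN 2 hv s1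
  have i1 : Integrable (fun y => mP y * avk b RN (fun y => WTb.tY p β ε p0 A μ (x + y)) y) :=
    W5m.int_m hm t1.smooth.continuous (ρ := d + RN + 1) (fun y hy => t2 y (by linarith))
  have c1 : Continuous (fun y => ∑ i, ∑ j, n i * n j * WTb.mY p β ε p0 A μ i j (x + y)) :=
    continuous_finsetSum _ fun i _ => continuous_finsetSum _ fun j _ =>
      continuous_const.mul (s1 i j).sm.continuous
  have i2 : Integrable (fun y => mP y *
      ((∑ i, ∑ j, n i * n j * WTb.mY p β ε p0 A μ i j (x + y)) -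
          nt b RN (fun i j y => WTb.mY p β ε p0 A μ i j (x + y)) y)) := by
    refine W5m.int_m hm (c1.sub t3.smooth.continuous) (ρ := d + 1 + RN) (fun y hy => ?_)
    rw [t4 y (by linarith), sub_zero]
    refine Finset.sum_eq_zero fun i _ => Finset.sum_eq_zero fun j _ => ?_
    rw [hY0 i j y (by linarith), mul_zero]
  have e2 : ∫ y, mP y * (avk b RN (fun y => WTb.tY p β ε p0 A μ (x + y)) y -
        ((∑ i, ∑ j, n i * n j * WTb.mY p β ε p0 A μ i j (x + y)) -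
          nt b RN (fun i j y => WTb.mY p β ε p0 A μ i j (x + y)) y)) =
      (∫ y, mP y * avk b RN (fun y => WTb.tY p β ε p0 A μ (x + y)) y) -
        ∫ y, mP y * ((∑ i, ∑ j, n i * n j * WTb.mY p β ε p0 A μ i j (x + y)) -
          nt b RN (fun i j y => WTb.mY p β ε p0 A μ i j (x + y)) y) := by
    rw [← integral_sub i1 i2]
    congr 1
    funext y
    ring
  rw [e2]
  have k3 := abs_sub (∫ y, mP y * avk b RN (fun y => WTb.tY p β ε p0 A μ (x + y)) y)
    (∫ y, mP y * ((∑ i, ∑ j, n i * n j * WTb.mY p β ε p0 A μ i j (x + y)) -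
          nt b RN (fun i j y => WTb.mY p β ε p0 A μ i j (x + y)) y))
  refine k3.trans ?_
  have e3 : v * (B1m.SB B (J + 6) * EI + B1m.SB B 2 * Ea) =
    v * B1m.SB B 2 * Ea + v * B1m.SB B (J + 6) * EI := by ring
  rw [e3]
  exact add_le_add k2 k1

/-- splitting of a difference of two fluxes -/
lemma split {ζ ξ m m' : Sp d → ℝ} (i1 : Integrable (fun y => m y * ζ y))
    (i2 : Integrable (fun y => m y * ξ y)) (i3 : Integrable (fun y => m' y * ξ y)) :
    (∫ y, m y * ζ y) - ∫ y, m' y * ξ y =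
      (∫ y, m y * (ζ y - ξ y)) - ∫ y, (m' y - m y) * ξ y := by
  have e1 : ∫ y, m y * (ζ y - ξ y) = (∫ y, m y * ζ y) - ∫ y, m y * ξ y := by
    rw [← integral_sub i1 i2]
    congr 1
    funext y
    ring
  have e2 : ∫ y, (m' y - m y) * ξ y = (∫ y, m' y * ξ y) - ∫ y, m y * ξ y := by
    rw [← integral_sub i3 i2]
    congr 1
    funext y
    ring
  rw [e1, e2]
  ring

end W4m

end

end TG


end

section

/-!
# MODULE W5: near cells, crude bound by the local mass   (helper41)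
-/

open MeasureTheory Metric Set TrI Filter
open scoped InnerProductSpace ContDiff Topology

set_option linter.unusedSectionVars false

namespace TG

noncomputable section

namespace W5m

open CS2

variable {d : ℕ}

lemma le_sum2 {B : Fin d → Fin d → ℝ} (h : ∀ i j, 0 ≤ B i j) (a c : Fin d) :
    B a c ≤ ∑ i, ∑ j, B i j := by
  have h1 : B a c ≤ ∑ j, B a j :=
    Finset.single_le_sum (f := fun j => B a j) (fun j _ => h a j) (Finset.mem_univ c)
  exact h1.trans (Finset.single_le_sum (f := fun i => ∑ j, B i j)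
    (fun i _ => Finset.sum_nonneg fun j _ => h i j) (Finset.mem_univ a))

lemma zp_mono {R R' D : ℝ} {m : Sp d → ℝ} (h : ZP R' D m) (hR : R ≤ R') : ZP R D m :=
  fun H h1 h2 h3 h4 h5 => h H h1 h2 h3 h4 fun y hy => h5 y (hR.trans hy)

lemma sqrt_le_self (hd : 1 ≤ d) : Real.sqrt d ≤ d := by
  have h : (1 : ℝ) ≤ d := by exact_mod_cast hd
  rw [Real.sqrt_le_left (by linarith)]
  nlinarith only [h]

lemma adj_level {Q P : Cell d} (h : P ∈ adj Q) : P.1 = Q.1 := by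
  unfold adj at h
  rw [Finset.mem_product, Finset.mem_singleton] at h
  exact h.1

lemma self_adj (Q : Cell d) : Q ∈ adj Q := by
  unfold adj
  rw [Finset.mem_product, Finset.mem_singleton, Fintype.mem_piFinset]
  refine ⟨rfl, fun j => ?_⟩
  rw [Finset.mem_Icc]
  omega

lemma mQ_cs {E : Type} [NormedAddCommGroup E] [InnerProductSpace ℝ E] [FiniteDimensional ℝ E]
    {f : Sp d → E} (hc : HasCompactSupport f) {s0 : ℝ} (hs : 0 < s0) (e : E) (Q : Cell d) :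
    HasCompactSupport (mQ s0 f e Q) :=
  (FR.rs_cs hc (xC s0 Q) (CS2.lev_pos hs Q.1)).comp_left (g := fun v => ⟪v, e⟫_ℝ) (by simp)

lemma int_split {m g1 g2 g3 : Sp d → ℝ} (hm : Continuous m) (hc : HasCompactSupport m)
    (c1 : Continuous g1) (c2 : Continuous g2) (c3 : Continuous g3) :
    ∫ y, m y * (g1 y - g2 y - g3 y) =
      (∫ y, m y * g1 y) - (∫ y, m y * g2 y) - ∫ y, m y * g3 y := by
  have i1 : Integrable (fun y => m y * g1 y) :=
    (hm.mul c1).integrable_of_hasCompactSupport hc.mul_right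
  have i2 : Integrable (fun y => m y * g2 y) :=
    (hm.mul c2).integrable_of_hasCompactSupport hc.mul_right
  have i3 : Integrable (fun y => m y * g3 y) :=
    (hm.mul c3).integrable_of_hasCompactSupport hc.mul_right
  have i4 : Integrable (fun y => m y * g1 y - m y * g2 y) := i1.sub i2
  rw [← integral_sub i1 i2, ← integral_sub i4 i3]
  refine integral_congr_ae (Eventually.of_forall fun y => ?_)
  simp only
  ring

/-! ### arithmetic -/

lemma ar_nt {v K0 Bz al DQ cn δ aP CB DP Kc Sa SD I J : ℝ} (hv : 0 ≤ v) (hK0 : 1 ≤ K0)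
    (hB : 0 ≤ Bz) (hal : 0 ≤ al) (hDQ0 : 0 ≤ DQ) (hDQ : DQ ≤ SD) (hDP : DP ≤ SD)
    (hcn : 0 < cn) (hδ : 0 < δ) (ha : aP ≤ Sa) (hCB : 0 ≤ CB) (hKc : K0 * Bz ≤ Kc)
    (hJ : J ≤ Bz * (al + DQ))
    (h : I ≤ v * K0 * J + δ / (cn * K0) * aP * (v * K0) + CB * (v * K0) * DP) :
    I ≤ v * (Kc * al + δ / cn * Sa + (Kc + CB * K0) * SD) := by
  have hK : 0 < K0 := by linarith
  have h1 : v * K0 * J ≤ v * K0 * (Bz * (al + DQ)) :=
    mul_le_mul_of_nonneg_left hJ (by positivity)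
  have e1 : δ / (cn * K0) * aP * (v * K0) = v * (δ / cn * aP) := by
    field_simp
  rw [e1] at h
  have h2 : δ / cn * aP ≤ δ / cn * Sa := mul_le_mul_of_nonneg_left ha (by positivity)
  have h3 : CB * K0 * DP ≤ CB * K0 * SD := mul_le_mul_of_nonneg_left hDP (by positivity)
  have h4 : K0 * Bz * al ≤ Kc * al := mul_le_mul_of_nonneg_right hKc hal
  have h5 : K0 * Bz * DQ ≤ Kc * SD :=
    mul_le_mul hKc hDQ hDQ0 (le_trans (by positivity) hKc)
  have h6 : K0 * Bz * al + K0 * Bz * DQ + δ / cn * aP + CB * K0 * DP ≤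
      Kc * al + δ / cn * Sa + (Kc + CB * K0) * SD := by
    rw [add_mul Kc]
    linarith only [h2, h3, h4, h5]
  calc I ≤ v * (K0 * Bz * al + K0 * Bz * DQ + δ / cn * aP + CB * K0 * DP) := by
        have e2 : v * (K0 * Bz * al + K0 * Bz * DQ + δ / cn * aP + CB * K0 * DP) =
          v * K0 * (Bz * (al + DQ)) + v * (δ / cn * aP) + CB * (v * K0) * DP := by ring
        rw [e2]
        linarith
    _ ≤ _ := mul_le_mul_of_nonneg_left h6 hv

lemma ar_av {v K0 al cn δ aP CB DP Kc Sa SD I : ℝ} (hv : 0 ≤ v) (hK0 : 1 ≤ K0)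
    (hal : 0 ≤ al) (hDP : DP ≤ SD) (hDP0 : 0 ≤ DP)
    (hcn : 0 < cn) (hδ : 0 < δ) (ha : aP ≤ Sa) (ha0 : 0 ≤ aP) (hCB : 0 ≤ CB) (hKc : 0 ≤ Kc)
    (h : I ≤ δ / (cn * K0) * aP * v + CB * v * DP) :
    I ≤ v * (Kc * al + δ / cn * Sa + (Kc + CB * K0) * SD) := by
  have hK : 0 < K0 := by linarith
  have hSD : 0 ≤ SD := hDP0.trans hDP
  have e1 : δ / (cn * K0) ≤ δ / cn :=
    div_le_div_of_nonneg_left hδ.le hcn (by nlinarith)
  have h2 : δ / (cn * K0) * aP ≤ δ / cn * Sa := mul_le_mul e1 ha ha0 (by positivity)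
  have h3 : CB * DP ≤ CB * K0 * SD := by
    refine mul_le_mul ?_ hDP hDP0 (by positivity)
    nlinarith
  have h4 : 0 ≤ Kc * al := by positivity
  have h5 : 0 ≤ Kc * SD := by positivity
  have h6 : δ / (cn * K0) * aP + CB * DP ≤ Kc * al + δ / cn * Sa + (Kc + CB * K0) * SD := by
    rw [add_mul Kc]
    linarith
  calc I ≤ v * (δ / (cn * K0) * aP + CB * DP) := by
        have e2 : v * (δ / (cn * K0) * aP + CB * DP) =
          δ / (cn * K0) * aP * v + CB * v * DP := by ring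
        rw [e2]
        exact h
    _ ≤ _ := mul_le_mul_of_nonneg_left h6 hv

lemma ar_pr {v K' al DQ r Kc K1 SD I : ℝ} (hv : 0 ≤ v) (hK' : 0 ≤ K') (hK : K' ≤ Kc)
    (hK1 : K' ≤ K1) (hal : 0 ≤ al) (hDQ0 : 0 ≤ DQ) (hDQ : DQ ≤ SD) (hr : 0 ≤ r)
    (h : I ≤ v * K' * (al + DQ)) : I ≤ v * (Kc * al + r + K1 * SD) := by
  have h1 : K' * al ≤ Kc * al := mul_le_mul_of_nonneg_right hK hal
  have h2 : K' * DQ ≤ K1 * SD := mul_le_mul hK1 hDQ hDQ0 (hK'.trans hK1)
  refine h.trans ?_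
  rw [mul_assoc]
  exact mul_le_mul_of_nonneg_left (by linarith) hv

lemma ar3 {T A1 A2 A3 : ℝ} (b1 : |A1| ≤ T) (b2 : |A2| ≤ T) (b3 : |A3| ≤ T) :
    |A1 - A2 - A3| ≤ 3 * T := by
  rw [abs_le] at b1 b2 b3 ⊢
  constructor <;> linarith [b1.1, b1.2, b2.1, b2.2, b3.1, b3.2]

end W5m

open CS2 _root_.TG.W5m in
/-- MODULE W5 -/
theorem stmtW5 (hWA : StmtWA) (hB1 : StmtB1) (hNS : StmtNS) : StmtW5 := by
  intro d J JA hd M c0 C' c R0 X0 hX
  have hC' := hX.C'_pos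
  have hε0 := hX.prm.ε_pos
  have hε : X0.ε ≤ 1 := by linarith [hX.prm.ε_le]
  have hA1 := hX.prm.A_ge
  have hA : 0 < X0.A := by linarith
  have hR0 := hX.R0_ge
  have hd1 : 1 ≤ d := by omega
  have hd0 : (2 : ℝ) ≤ d := by exact_mod_cast hd
  have hR0d : (d : ℝ) + 10 ≤ R0 := by linarith
  have hbase : BaseKer 2 M c0 X0.b := PTm.base_mono (by omega) hX.prm.ker
  -- test functions
  obtain ⟨KH, hKH, tH⟩ := tfn_at hd hC' (bdH (M := M) (p0 := X0.p0) hd hC' hε0 hε hA 2)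
    (fun i y hy => evH hd _ hy)
  obtain ⟨KG, hKG, tG⟩ := tfn_at hd hC' (bdG (M := M) hd hC' hε0 hε hA 2)
    (fun i y hy => evH hd _ hy)
  obtain ⟨KV, hKV, tV⟩ := tfn_at hd hC' (bdV (M := M) (p0 := X0.p0) hd hC' hε0 hε hA 2)
    (fun i y hy => evV hd _ _ _ _ _ _ hy)
  obtain ⟨KA, hKA, tA⟩ := tfn_at hd hC' (bdA (M := M) (p0 := X0.p0) hd hC' hε0 hε hA 2)
    (fun i y hy => evA hd _ _ _ _ _ _ _ hy)
  obtain ⟨KS, hKS, tS⟩ := tfn_at hd hC' (bdS (M := M) (p0 := X0.p0) hd hC' hε0 hε hA 2)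
    (fun i y hy => evS hd (fun y => chi (y - i.2) * Ups X0.p0 X0.A i.1.μ 1 y) _ hy)
  -- all orders
  obtain ⟨BG, hBG, oG⟩ := ord_at hd hC' (fun N => bdG (M := M) hd hC' hε0 hε hA N)
    (fun i y hy => evH hd _ hy)
  obtain ⟨BS, hBS, oS⟩ := ord_at hd hC'
    (fun N => bdS (M := M) (p0 := X0.p0) hd hC' hε0 hε hA N)
    (fun i y hy => evS hd (fun y => chi (y - i.2) * Ups X0.p0 X0.A i.1.μ 1 y) _ hy)
  have oHe := fun a c : Fin d => ord_at hd hC'
    (fun N => bdHH (M := M) (p0 := X0.p0) hd hC' hε0 hε hA N a c)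
    (fun i y hy => evH hd _ hy)
  choose BH hBH oH using oHe
  have oYe := fun a c : Fin d => ord_at hd hC'
    (fun N => bdY (M := M) (p0 := X0.p0) hd hC' hε0 hε hA N a c)
    (fun i y hy => evY hd (fun y => chi (y - i.2) * Ups X0.p0 X0.A i.1.μ 1 y) _ a c hy)
  choose BY hBY oY using oYe
  have oze : ∀ k : ℕ, ∃ C : ℝ, 0 < C ∧ TFn k C (zR (d : ℝ) : Sp d → ℝ) := fun k => by
    obtain ⟨C, hC, h⟩ := exists_TFn_zR d k
    exact ⟨C, hC, h d (by linarith)⟩
  choose Bz hBz oz using oze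
  obtain ⟨SH, hSH⟩ : ∃ S : ℕ → ℝ, ∀ k, S k = ∑ a, ∑ c, BH a c k := ⟨_, fun _ => rfl⟩
  obtain ⟨SY, hSY⟩ : ∃ S : ℕ → ℝ, ∀ k, S k = ∑ a, ∑ c, BY a c k := ⟨_, fun _ => rfl⟩
  have hSH0 : ∀ k, 0 ≤ SH k := fun k => by
    rw [hSH]
    exact Finset.sum_nonneg fun a _ => Finset.sum_nonneg fun c _ => hBH a c k
  have hSY0 : ∀ k, 0 ≤ SY k := fun k => by
    rw [hSY]
    exact Finset.sum_nonneg fun a _ => Finset.sum_nonneg fun c _ => hBY a c k
  obtain ⟨K0, hK0⟩ : ∃ x : ℝ, x = SH 0 + SY 0 + 1 := ⟨_, rfl⟩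
  have hK01 : 1 ≤ K0 := by linarith only [hSH0 0, hSY0 0, hK0]
  have hK0p : 0 < K0 := by linarith only [hK01]
  obtain ⟨Bt, hBt⟩ : ∃ S : ℕ → ℝ, ∀ k, S k = SH k + SY k + BG k + BS k + Bz k :=
    ⟨_, fun _ => rfl⟩
  have bt1 : ∀ k, SH k ≤ Bt k := fun k => by
    linarith only [hSY0 k, hBG k, hBS k, hBz k, hBt k]
  have bt2 : ∀ k, SY k ≤ Bt k := fun k => by
    linarith only [hSH0 k, hBG k, hBS k, hBz k, hBt k]
  have bt3 : ∀ k, BG k ≤ Bt k := fun k => by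
    linarith only [hSH0 k, hSY0 k, hBS k, hBz k, hBt k]
  have bt4 : ∀ k, BS k ≤ Bt k := fun k => by
    linarith only [hSH0 k, hSY0 k, hBG k, hBz k, hBt k]
  have bt5 : ∀ k, Bz k ≤ Bt k := fun k => by
    linarith only [hSH0 k, hSY0 k, hBG k, hBS k, hBt k]
  have bt0 : ∀ k, 0 ≤ Bt k := fun k => (hSH0 k).trans (bt1 k)
  have hzb : ∀ k (y : Sp d), ‖iteratedFDeriv ℝ k (zR (d : ℝ) : Sp d → ℝ) y‖ ≤ Bt k :=
    fun k y => ((oz k).bd k le_rfl y).trans (bt5 k)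
  obtain ⟨K7, hK7, t7⟩ := hgt_tfn hd (64 * R0 + 4)
  obtain ⟨κ, Ca, hκ, hCa, hab⟩ := ab_le hd J hR0d
  obtain ⟨Cg, hCg, hgain⟩ := gain_le hWA hd (M := M) hC' hε0 hε
  have hz2 := hBz 2
  have hCC : 0 ≤ Cg * Ca := mul_nonneg hCg.le hCa.le
  have hKB : 0 ≤ K0 * Bz 2 := mul_nonneg hK0p.le hz2.le
  obtain ⟨Kc, hKc⟩ : ∃ x : ℝ, x = KH + KG + KV + KA + KS + K0 * Bz 2 + K7 + Cg * Ca := ⟨_, rfl⟩
  have hKc0 : 0 < Kc := by linarith only [hKc, hKH, hKG, hKV, hKA, hKS, hKB, hK7, hCC]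
  have kH : KH ≤ Kc := by linarith only [hKc, hKH, hKG, hKV, hKA, hKS, hKB, hK7, hCC]
  have kG : KG ≤ Kc := by linarith only [hKc, hKH, hKG, hKV, hKA, hKS, hKB, hK7, hCC]
  have kV : KV ≤ Kc := by linarith only [hKc, hKH, hKG, hKV, hKA, hKS, hKB, hK7, hCC]
  have kA : KA ≤ Kc := by linarith only [hKc, hKH, hKG, hKV, hKA, hKS, hKB, hK7, hCC]
  have kS : KS ≤ Kc := by linarith only [hKc, hKH, hKG, hKV, hKA, hKS, hKB, hK7, hCC]
  have kB : K0 * Bz 2 ≤ Kc := by linarith only [hKc, hKH, hKG, hKV, hKA, hKS, hKB, hK7, hCC]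
  have k7 : K7 ≤ Kc := by linarith only [hKc, hKH, hKG, hKV, hKA, hKS, hKB, hK7, hCC]
  have kC : Cg * Ca ≤ Kc := by linarith only [hKc, hKH, hKG, hKV, hKA, hKS, hKB, hK7, hCC]
  obtain ⟨cn, hcn⟩ : ∃ x : ℝ, x = 5 + 6 * 3 ^ d := ⟨_, rfl⟩
  have hcn0 : 0 < cn := by
    rw [hcn]
    positivity
  refine ⟨κ, cn * Kc, hκ, by positivity, ?_⟩
  intro K γ δ hK hγ hγ' hδ
  obtain ⟨RN0, hRN0, hB⟩ := hB1 d hd M c0 K γ (2 * d + 1) (δ / (cn * K0)) Bt X0.b hbase hK hγ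
    hγ' (by linarith) (by positivity)
  refine ⟨RN0, hRN0, fun RN hRN => ?_⟩
  obtain ⟨tol, htol, hB⟩ := hB RN hRN
  refine ⟨RN + (2 * d + 1) + 3, RN + (2 * d + 1) + 4, tol, htol, by linarith, fun R1 rm => ?_⟩
  obtain ⟨CB, hCB, hB⟩ := hB R1 rm
  have hCK : 0 ≤ CB * K0 := mul_nonneg hCB.le hK0p.le
  obtain ⟨K1, hK1⟩ : ∃ x : ℝ, x = Kc + CB * K0 := ⟨_, rfl⟩
  have hK1c : Kc ≤ K1 := by linarith only [hK1, hCK]
  have hK10 : 0 < K1 := lt_of_lt_of_le hKc0 hK1c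
  refine ⟨cn * K1, max R1 (64 * R0 + 10), by positivity, ?_⟩
  intro E _ _ _ W hW Q hN hsh hnw al hal hAl
  have hXe := hW.X_eq
  have hs := hW.s0_pos
  have ebb : W.X.b = X0.b := by rw [hXe]
  have eRN : W.X.RN = RN := by rw [hXe]
  have eε : W.X.ε = X0.ε := by rw [hXe]
  have ep0 : W.X.p0 = X0.p0 := by rw [hXe]
  have eA : W.X.A = X0.A := by rw [hXe]
  have hRNp : 0 < RN := by linarith
  have ht := CS2.lev_pos hs Q.1
  have hSC := (stmtSC d hd C' hC' (xC W.s0 Q) (lev W.s0 Q.1) ht).1 W.μ hW.gro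
  have hμQ : Gro C' (muQ W.s0 W.μ Q) := hSC.1
  have hvv : vv (muQ W.s0 W.μ Q) 1 0 = W.v Q := by
    have h1 := hSC.2.2.1 1 0 one_pos
    unfold muQ Wld.v omC
    rw [h1, mul_one, smul_zero, add_zero]
  have hβ : Kit 4 M (bQ X0.b Q) := PTm.kit_mono (by omega) (hX.prm.ker.kit (Q.1 - 2))
  have hv0 : 0 ≤ W.v Q := Real.sqrt_nonneg _
  have hw0 : 0 ≤ W.w Q := by
    unfold Wld.w cw
    positivity
  let ix : ∀ n : Sp d, ‖n‖ = 1 → Sp d → Ix d M C' := fun n hn p =>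
    (⟨bQ X0.b Q, muQ W.s0 W.μ Q, n, hβ, hμQ, hn⟩, p)
  -- sums
  obtain ⟨Sa, hSa⟩ : ∃ x : ℝ, x = ∑ P ∈ (adj Q).filter (fun P => W.kd P = 1), W.a P := ⟨_, rfl⟩
  obtain ⟨SD, hSD⟩ : ∃ x : ℝ, x = ∑ P ∈ adj Q, W.D P := ⟨_, rfl⟩
  rw [← hSa, ← hSD]
  have hSa0 : 0 ≤ Sa := by
    rw [hSa]
    refine Finset.sum_nonneg fun P hP => ?_
    rw [Finset.mem_filter] at hP
    exact (hnw P hP.1 hP.2).a0
  have hSD0 : 0 ≤ SD := by
    rw [hSD]
    exact Finset.sum_nonneg fun P _ => hW.D0 P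
  have hDle : ∀ P ∈ adj Q, W.D P ≤ SD := fun P hP => by
    rw [hSD]
    exact Finset.single_le_sum (f := fun P => W.D P) (fun P _ => hW.D0 P) hP
  have hale : ∀ P ∈ adj Q, W.kd P = 1 → W.a P ≤ Sa := fun P hP hk => by
    rw [hSa]
    exact Finset.single_le_sum (f := fun P => W.a P) (fun P hP => by
      rw [Finset.mem_filter] at hP
      exact (hnw P hP.1 hP.2).a0) (Finset.mem_filter.2 ⟨hP, hk⟩)
  have hQQ := self_adj Q
  have hDQ := hDle Q hQQ
  have hDQ0 := hW.D0 Q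
  have hrr : 0 ≤ δ / cn * Sa := mul_nonneg (div_nonneg hδ.le hcn0.le) hSa0
  obtain ⟨T, hT⟩ : ∃ x : ℝ, x = W.v Q * (Kc * al + δ / cn * Sa + K1 * SD) := ⟨_, rfl⟩
  have hT0 : 0 ≤ T := by
    rw [hT]
    exact mul_nonneg hv0 (add_nonneg (add_nonneg (mul_nonneg hKc0.le hal) hrr)
      (mul_nonneg hK10.le hSD0))
  have hT3 : T ≤ 3 * T := by linarith only [hT0]
  -- neighbours
  obtain ⟨-, -, -, -, -, hns6, -, hns8⟩ := hNS d hd1 W.s0 (3 * R0) hs (by linarith) JA Q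
  have hnsub : ∀ P ∈ adj Q, P ∈ W.ns R0 JA Q := fun P hP =>
    hns8 ((sqrt_le_self hd1).trans (by linarith)) hP
  have htw : ∀ P ∈ adj Q, ‖tw W.s0 Q P‖ ≤ d := fun P hP => (hns6 P hP).trans (sqrt_le_self hd1)
  have hmc : ∀ (e : E) (P : Cell d), Continuous (mQ W.s0 W.f e P) := fun e P =>
    FR.mQ_cont hW.fc W.s0 e P
  -- pairings with test functions
  have pr : ∀ P ∈ adj Q, ∀ (ζ : Sp d → ℝ) (N : ℝ), TFn 2 N ζ →
      (∀ y, (d : ℝ) + 1 ≤ ‖y‖ → ζ y = 0) →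
      |∫ y, mQ W.s0 W.f (W.e P) Q y * ζ y| ≤ N * (al + W.D Q) := by
    intro P hP ζ N hζ h0
    have h1 := hAl ζ N hζ (fun y hy => h0 y (by linarith))
    have h2 := hW.dir Q P (hnsub P hP) ζ N hζ (fun y hy => h0 y (by
      have := le_max_right R1 (64 * R0 + 10)
      linarith))
    have i1 : Integrable (fun y => mQ W.s0 W.f (W.e P) Q y * ζ y) :=
      int_m (hmc _ _) hζ.smooth.continuous h0
    have i2 : Integrable (fun y => mQ W.s0 W.f (W.e Q) Q y * ζ y) :=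
      int_m (hmc _ _) hζ.smooth.continuous h0
    have e1 : ∫ y, (mQ W.s0 W.f (W.e P) Q y - mQ W.s0 W.f (W.e Q) Q y) * ζ y =
        (∫ y, mQ W.s0 W.f (W.e P) Q y * ζ y) - ∫ y, mQ W.s0 W.f (W.e Q) Q y * ζ y := by
      rw [← integral_sub i1 i2]
      refine integral_congr_ae (Eventually.of_forall fun y => ?_)
      simp only
      ring
    rw [e1] at h2
    have e2 : ∫ y, W.m Q y * ζ y = ∫ y, mQ W.s0 W.f (W.e Q) Q y * ζ y := rfl
    rw [e2] at h1
    rw [abs_le] at h1 h2 ⊢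
    constructor <;> linarith [h1.1, h1.2, h2.1, h2.2]
  have prT : ∀ P ∈ adj Q, ∀ (ζ : Sp d → ℝ) (K' : ℝ), 0 ≤ K' → K' ≤ Kc →
      TFn 2 (W.v Q * K') ζ → (∀ y, (d : ℝ) ≤ ‖y‖ → ζ y = 0) →
      |∫ y, mQ W.s0 W.f (W.e P) Q y * ζ y| ≤ T := by
    intro P hP ζ K' hK'0 hK' hζ h0
    have h1 := pr P hP ζ _ hζ fun y hy => h0 y (by linarith only [hy])
    rw [hT]
    exact ar_pr hv0 hK'0 hK' (hK'.trans hK1c) hal hDQ0 hDQ hrr h1
  -- Newton pieces
  have nwt : ∀ P ∈ adj Q, W.kd P = 1 →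
      (∀ Y : Fin d → Fin d → Sp d → ℝ, (∀ i j, ContDiff ℝ ∞ (Y i j)) →
        (∀ i j k y, ‖iteratedFDeriv ℝ k (Y i j) y‖ ≤ W.v Q * Bt k) →
        (∀ i j (y : Sp d), (d : ℝ) ≤ ‖y‖ → Y i j y = 0) →
        (∀ n : Sp d, ‖n‖ = 1 → ∀ y, |qf Y n y| ≤ W.v Q * K0) →
        |∫ y, mQ W.s0 W.f (W.e P) Q y * nt X0.b RN Y y| ≤ T) ∧
      (∀ φ : Sp d → ℝ, ContDiff ℝ ∞ φ → (∀ k y, ‖iteratedFDeriv ℝ k φ y‖ ≤ W.v Q * Bt k) →
        (∀ y : Sp d, (d : ℝ) ≤ ‖y‖ → φ y = 0) →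
        |∫ y, mQ W.s0 W.f (W.e P) Q y * avk X0.b RN φ y| ≤ T) := by
    intro P hP hk
    obtain ⟨ha0, ⟨Jp, r, ν, κ', hstr⟩, hmg⟩ := hnw P hP hk
    obtain ⟨-, h2, h3⟩ := hB (W.m P) (W.a P) (W.D P) Jp r ν κ' (hmc _ _) ha0 (hW.D0 P)
      (zp_mono (hW.zp P) (le_max_left _ _)) hstr hmg
    have h2' : Cl2 X0.b RN (2 * d + 1) (δ / (cn * K0)) CB Bt (W.m P) (W.a P) (W.D P) := h2
    have h3' : Cl3 X0.b RN (2 * d + 1) (δ / (cn * K0)) CB Bt (W.m P) (W.a P) (W.D P) := h3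
    have hPl := adj_level hP
    have hDP := hDle P hP
    have hDP0 := hW.D0 P
    have haP := hale P hP hk
    constructor
    · intro Y hY hYb hY0 hq
      have hN0 : 0 ≤ W.v Q * K0 := mul_nonneg hv0 hK0p.le
      have h4 := nt_bound h2' (htw P hP) hd1 hzb hN0 hY (fun i j k y => by
        refine (hYb i j k y).trans (mul_le_mul_of_nonneg_right ?_ (bt0 k))
        exact le_mul_of_one_le_right hv0 hK01) hY0 hq
      have h5 := pr P hP (zR (d : ℝ)) (Bz 2) (oz 2) (fun y hy => zR_eq_zero hy)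
      rw [pair_frame hs W.f (W.e P) Q P hPl] at h5 ⊢
      rw [hT, hK1]
      exact ar_nt hv0 hK01 hz2.le hal hDQ0 hDQ hDP hcn0 hδ haP hCB.le kB
        ((le_abs_self _).trans h5) h4
    · intro φ hφ hb h0
      have h4 := av_bound h3' (htw P hP) hv0 hφ hb h0
      rw [pair_frame hs W.f (W.e P) Q P hPl, hT, hK1]
      exact ar_av hv0 hK01 hal hDP hDP0 hcn0 hδ haP ha0 hCB.le hKc0.le h4
  -- the flux
  have hflx : ∀ P ∈ adj Q, ∀ p : Sp d,
      |flx W.X (W.kd P) chi (fun x => chi (x - p)) (bQ W.X.b Q) (muQ W.s0 W.μ Q)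
        (mQ W.s0 W.f (W.e P) Q) (W.nv P)| ≤ 3 * T := by
    intro P hP p
    unfold flx
    rw [ebb, eRN, eε, ep0, eA]
    split_ifs with h0 h1
    · have h2 := tA (ix (W.nv P) (hW.nu P) p)
      have e1 : vv (ix (W.nv P) (hW.nu P) p).1.μ 1 0 = W.v Q := hvv
      rw [e1] at h2
      have h3 := prT P hP _ KA hKA kA h2 (fun y hy =>
        (evA hd _ _ _ _ _ _ _ hy).eq_of_nhds)
      exact h3.trans hT3
    · have e1 : vv (ix (W.nv P) (hW.nu P) p).1.μ 1 0 = W.v Q := hvv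
      have h2 := tS (ix (W.nv P) (hW.nu P) p)
      rw [e1] at h2
      have h3 := prT P hP _ KS hKS kS h2 (fun y hy =>
        (evS hd (fun y => chi (y - p) * Ups X0.p0 X0.A (muQ W.s0 W.μ Q) 1 y) _ hy).eq_of_nhds)
      have sS : ContDiff ℝ ∞ (fun y => chi (y - p) * Ups X0.p0 X0.A (muQ W.s0 W.μ Q) 1 y *
          ⟪gradient (fun x : Sp d => chi x) y,
            gradient (WW (bQ X0.b Q) X0.ε (muQ W.s0 W.μ Q) 1) y⟫_ℝ) :=
        contDiffOn_univ.1 ((bdS (M := M) (p0 := X0.p0) hd hC' hε0 hε hA 0).smooth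
          (ix (W.nv P) (hW.nu P) p))
      have sY : ∀ a c : Fin d, ContDiff ℝ ∞ (fun x => chi (x - p) *
          Ups X0.p0 X0.A (muQ W.s0 W.μ Q) 1 x * (1 / 2 *
          (fderiv ℝ chi x (bv a) * fderiv ℝ (WW (bQ X0.b Q) X0.ε (muQ W.s0 W.μ Q) 1) x (bv c)
          + fderiv ℝ chi x (bv c) *
            fderiv ℝ (WW (bQ X0.b Q) X0.ε (muQ W.s0 W.μ Q) 1) x (bv a)))) := fun a c =>
        contDiffOn_univ.1 ((bdY (M := M) (p0 := X0.p0) hd hC' hε0 hε hA 0 a c).smooth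
          (ix (W.nv P) (hW.nu P) p))
      obtain ⟨n1, n2⟩ := nwt P hP h1
      have h4 := n2 _ sS (fun k y => by
        have h5 := oS (ix (W.nv P) (hW.nu P) p) k y
        rw [e1] at h5
        exact h5.trans (mul_le_mul_of_nonneg_left (bt4 k) hv0)) (fun y hy =>
        (evS hd (fun y => chi (y - p) * Ups X0.p0 X0.A (muQ W.s0 W.μ Q) 1 y) _ hy).eq_of_nhds)
      have hYB : ∀ a c k y, ‖iteratedFDeriv ℝ k (fun x => chi (x - p) *
          Ups X0.p0 X0.A (muQ W.s0 W.μ Q) 1 x * (1 / 2 *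
          (fderiv ℝ chi x (bv a) * fderiv ℝ (WW (bQ X0.b Q) X0.ε (muQ W.s0 W.μ Q) 1) x (bv c)
          + fderiv ℝ chi x (bv c) *
            fderiv ℝ (WW (bQ X0.b Q) X0.ε (muQ W.s0 W.μ Q) 1) x (bv a)))) y‖ ≤
          W.v Q * BY a c k := fun a c k y => by
        have h5 := oY a c (ix (W.nv P) (hW.nu P) p) k y
        rw [e1] at h5
        exact h5
      have h5 := n1 _ sY (fun a c k y => (hYB a c k y).trans (mul_le_mul_of_nonneg_left
          (((le_sum2 (B := fun a c => BY a c k) (fun a c => hBY a c k) a c).trans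
            (hSY k).ge).trans (bt2 k)) hv0))
        (fun a c y hy => (evY hd (fun y => chi (y - p) *
          Ups X0.p0 X0.A (muQ W.s0 W.μ Q) 1 y) _ a c hy).eq_of_nhds)
        (fun n hn y => by
          refine (qf_le hn (B := fun a c => W.v Q * BY a c 0) (fun a c => ?_)).trans ?_
          · have h6 := hYB a c 0 y
            rw [norm_iteratedFDeriv_zero, Real.norm_eq_abs] at h6
            exact h6
          · have e2 : ∑ a, ∑ c, W.v Q * BY a c 0 = W.v Q * SY 0 := by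
              simp only [hSY, Finset.mul_sum]
            rw [e2]
            exact mul_le_mul_of_nonneg_left (by linarith only [hSH0 0, hK0]) hv0)
      have e3 := int_split (m := mQ W.s0 W.f (W.e P) Q) (hmc _ _) (mQ_cs hW.fs hs _ _)
        sS.continuous (PTm.avk_cont (PTm.base_ker hbase) sS.continuous RN)
        (CS1m.nt_smooth hbase hRNp.le sY).continuous
      unfold fxB
      have h7 := ar3 h3 h4 h5
      rw [← e3] at h7
      exact h7
    · rw [abs_zero]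
      exact hT0.trans hT3
  have hT2 : T ≤ 2 * T := by linarith only [hT0]
  -- the divergence
  have hVct : |Vct W.X W.s0 W.μ W.f W.e W.kd W.nv Q| ≤ T := by
    unfold Vct
    rw [ebb, eε, ep0, eA]
    split_ifs with h0
    · have h2 := tV (ix (W.nv Q) (hW.nu Q) 0)
      have e1 : vv (ix (W.nv Q) (hW.nu Q) 0).1.μ 1 0 = W.v Q := hvv
      rw [e1] at h2
      exact prT Q hQQ _ KV hKV kV h2 (fun y hy => (evV hd _ _ _ _ _ _ hy).eq_of_nhds)
    · rw [abs_zero]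
      exact hT0
  -- the main contribution
  have hGam : |Gam W.X W.s0 W.μ W.f W.e W.kd W.nv Q| ≤ 2 * T := by
    unfold Gam
    rw [ebb, eRN, eε, ep0, eA]
    have e1 : vv (ix (W.nv Q) (hW.nu Q) 0).1.μ 1 0 = W.v Q := hvv
    split_ifs with h0 h1
    · have h2 := tH (ix (W.nv Q) (hW.nu Q) 0)
      rw [e1] at h2
      exact (prT Q hQQ _ KH hKH kH h2 (fun y hy => (evH hd _ hy).eq_of_nhds)).trans hT2
    · obtain ⟨n1, n2⟩ := nwt Q hQQ h1
      have sH : ∀ a c : Fin d, ContDiff ℝ ∞ (fun x => chi x *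
          HHm (bQ X0.b Q) X0.ε X0.p0 X0.A (muQ W.s0 W.μ Q) a c x) := fun a c =>
        contDiffOn_univ.1 ((bdHH (M := M) (p0 := X0.p0) hd hC' hε0 hε hA 0 a c).smooth
          (ix (W.nv Q) (hW.nu Q) 0))
      have sG : ContDiff ℝ ∞ (fun x => chi x * GG (bQ X0.b Q) X0.ε (muQ W.s0 W.μ Q) 1 x) :=
        contDiffOn_univ.1 ((bdG (M := M) hd hC' hε0 hε hA 0).smooth
          (ix (W.nv Q) (hW.nu Q) 0))
      have hHB : ∀ a c k y, ‖iteratedFDeriv ℝ k (fun x => chi x *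
          HHm (bQ X0.b Q) X0.ε X0.p0 X0.A (muQ W.s0 W.μ Q) a c x) y‖ ≤ W.v Q * BH a c k :=
        fun a c k y => by
          have h5 := oH a c (ix (W.nv Q) (hW.nu Q) 0) k y
          rw [e1] at h5
          exact h5
      have h4 := n1 _ sH (fun a c k y => (hHB a c k y).trans (mul_le_mul_of_nonneg_left
          (((le_sum2 (B := fun a c => BH a c k) (fun a c => hBH a c k) a c).trans
            (hSH k).ge).trans (bt1 k)) hv0))
        (fun a c y hy => (evH hd _ hy).eq_of_nhds)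
        (fun n hn y => by
          refine (qf_le hn (B := fun a c => W.v Q * BH a c 0) (fun a c => ?_)).trans ?_
          · have h6 := hHB a c 0 y
            rw [norm_iteratedFDeriv_zero, Real.norm_eq_abs] at h6
            exact h6
          · have e2 : ∑ a, ∑ c, W.v Q * BH a c 0 = W.v Q * SH 0 := by
              simp only [hSH, Finset.mul_sum]
            rw [e2]
            exact mul_le_mul_of_nonneg_left (by linarith only [hSY0 0, hK0]) hv0)
      have h5 := n2 _ sG (fun k y => by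
        have h5 := oG (ix (W.nv Q) (hW.nu Q) 0) k y
        rw [e1] at h5
        exact h5.trans (mul_le_mul_of_nonneg_left (bt3 k) hv0)) (fun y hy =>
        (evH hd _ hy).eq_of_nhds)
      exact (abs_add_le _ _).trans (by linarith only [h4, h5])
    · have h2 := tG (ix (W.nv Q) (hW.nu Q) 0)
      rw [e1] at h2
      exact (prT Q hQQ _ KG hKG kG h2 (fun y hy => (evH hd _ hy).eq_of_nhds)).trans hT2
  -- the value
  have hval : W.val Q ≤ 2 * T := by
    unfold Wld.val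
    split_ifs with h0 h1
    · have hS := hsh h0.2
      obtain ⟨hg1, hg2⟩ := hgain (bQ X0.b Q) hβ (muQ W.s0 W.μ Q) hμQ (W.nv Q) (W.sv Q) (hW.nu Q)
      rw [hvv] at hg1
      have hsg : W.sg Q ≤ T := by
        unfold Wld.sg Wld.be Wld.mu
        rw [ebb, eε]
        by_cases hd' : (d : ℝ) < |W.sv Q|
        · rw [hg2 hd', mul_zero]
          exact hT0
        · have h2 := hab (W.m Q) (W.nv Q) (W.sv Q) (W.ab Q) (W.er Q) (W.dl Q) (W.D Q) al
            (hmc _ _) hDQ0 hal (zp_mono (hW.zp Q) (by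
              have := le_max_right R1 (64 * R0 + 10)
              linarith only [this])) hS.sh hS.bl (not_lt.1 hd') hS.small hS.smalld hAl
          rw [hT]
          refine ar_pr hv0 hCC kC (kC.trans hK1c) hal hDQ0 hDQ hrr ?_
          refine (mul_le_mul_of_nonneg_left hg1 hS.sh.ab0.le).trans ?_
          refine (mul_le_mul_of_nonneg_right h2 (mul_nonneg hCg.le hv0)).trans (le_of_eq ?_)
          ring
      have hbl : max 0 (W.bl Q) ≤ T := by
        refine max_le hT0 ?_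
        have h2 := hAl _ K7 (t7 (W.nv Q) (W.sv Q) (hW.nu Q) hS.loc) (fun y hy => by
          rw [PTm.chi_supp (by linarith only [hy]) hd1, zero_mul])
        rw [hT]
        refine ar_pr (DQ := 0) hv0 hK7.le k7 (k7.trans hK1c) hal le_rfl hSD0 hrr ?_
        unfold Wld.bl
        rw [add_zero, mul_assoc]
        exact mul_le_mul_of_nonneg_left ((le_abs_self _).trans h2) hv0
      linarith only [hsg, hbl]
    · exact hT0.trans hT2
    · exact max_le (hT0.trans hT2) ((le_abs_self _).trans hGam)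
  -- the fluxes
  have hF : ∀ P ∈ adj Q, |Fct W.X W.s0 W.μ W.f W.e W.kd W.nv Q P| ≤ 6 * T := by
    intro P hP
    unfold Fct
    have h1 := hflx Q hQQ (dsp Q P)
    have h2 := hflx P hP (dsp Q P)
    exact (abs_sub _ _).trans (by linarith only [h1, h2])
  have hsum : |∑ P ∈ adj Q, Fct W.X W.s0 W.μ W.f W.e W.kd W.nv Q P| ≤ 3 ^ d * (6 * T) := by
    refine (Finset.abs_sum_le_sum_abs _ _).trans ((Finset.sum_le_sum hF).trans (le_of_eq ?_))
    rw [Finset.sum_const, nsmul_eq_mul, CS2.adj_card]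
  have hfin : W.val Q ≤ (Gam W.X W.s0 W.μ W.f W.e W.kd W.nv Q +
      Vct W.X W.s0 W.μ W.f W.e W.kd W.nv Q -
      ∑ P ∈ adj Q, Fct W.X W.s0 W.μ W.f W.e W.kd W.nv Q P) + cn * T := by
    rw [hcn]
    have h1 := neg_le_of_abs_le hGam
    have h2 := neg_le_of_abs_le hVct
    have h3 := le_of_abs_le hsum
    linarith only [h1, h2, h3, hval]
  have hTe : cn * T = W.v Q * (cn * Kc * al + δ * Sa + cn * K1 * SD) := by
    rw [hT]
    field_simp
  have h9 := mul_le_mul_of_nonneg_left hfin hw0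
  rw [hTe] at h9
  refine h9.trans (le_of_eq ?_)
  have e9 : W.nt1 Q = W.w Q * (Gam W.X W.s0 W.μ W.f W.e W.kd W.nv Q +
      Vct W.X W.s0 W.μ W.f W.e W.kd W.nv Q -
      ∑ P ∈ adj Q, Fct W.X W.s0 W.μ W.f W.e W.kd W.nv Q P) := rfl
  rw [e9]
  ring

end

end TG


end
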