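import Mathlib
import Pool.Agent.TRM.C02
import Pool.Agent.TRM.C07
import Pool.Agent.TRM.C08
import Pool.Agent.TRM.C10
import Pool.Agent.TRM.C13
import Pool.Agent.TRM.C15
import Pool.Agent.TRM.C19

/-! Parts: TG.B2, TG.B4, TG.CT2 -/

section

/-!
# Module B2: the plane functional is controlled by the pieces (MP_287c87_an)
-/

open MeasureTheory Metric Set TrI Filter
open scoped InnerProductSpace ContDiff Topology

namespace TG

noncomputable section

namespace B2m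

open SMm

variable {d : ℕ}

lemma itF_zero {g : Sp d → ℝ} {ρ : ℝ} (h : ∀ y, ρ ≤ ‖y‖ → g y = 0) (j : ℕ) {y : Sp d}
    (hy : ρ < ‖y‖) : iteratedFDeriv ℝ j g y = 0 := by
  have h1 : g =ᶠ[𝓝 y] fun _ => (0 : ℝ) := by
    filter_upwards [(isOpen_lt continuous_const continuous_norm).mem_nhds hy] with z hz
    exact h z (le_of_lt hz)
  rw [(h1.iteratedFDeriv ℝ j).eq_of_nhds, iteratedFDeriv_fun_zero]
  rfl

lemma bf_cut {J : ℕ} {ρ N B : ℝ} {z h : Sp d → ℝ} (hz : BF J N z) (hzs : ∀ y, ρ ≤ ‖y‖ → z y = 0)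
    (hh : ContDiff ℝ J h) (hB : 0 ≤ B)
    (hb : ∀ j ≤ J, ∀ y, ‖y‖ ≤ ρ → ‖iteratedFDeriv ℝ j h y‖ ≤ B) :
    BF J (2 ^ J * (N * B)) (fun y => z y * h y) where
  smooth := hz.smooth.mul hh
  bd := by
    intro j hj x
    have h0 := hz.nonneg
    rcases le_or_gt ‖x‖ ρ with hx | hx
    · refine (norm_iteratedFDeriv_mul_le hz.smooth hh x (n := j) (by exact_mod_cast hj)).trans ?_
      have h1 : ∑ i ∈ Finset.range (j + 1), (j.choose i : ℝ) * ‖iteratedFDeriv ℝ i z x‖ *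
          ‖iteratedFDeriv ℝ (j - i) h x‖ ≤
          ∑ i ∈ Finset.range (j + 1), (j.choose i : ℝ) * N * B := by
        refine Finset.sum_le_sum fun i hi => ?_
        have hi' : i ≤ j := Nat.lt_succ_iff.mp (Finset.mem_range.mp hi)
        have := hz.bd i (hi'.trans hj) x
        have := hb (j - i) ((Nat.sub_le _ _).trans hj) x hx
        gcongr
      refine h1.trans ?_
      rw [← Finset.sum_mul, ← Finset.sum_mul]
      have h2 : ∑ i ∈ Finset.range (j + 1), (j.choose i : ℝ) = 2 ^ j := by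
        exact_mod_cast Nat.sum_range_choose j
      rw [h2, mul_assoc]
      exact mul_le_mul_of_nonneg_right (pow_le_pow_right₀ (by norm_num) hj) (mul_nonneg h0 hB)
    · rw [itF_zero (ρ := ρ) (fun y hy => by rw [hzs y hy, zero_mul]) j hx, norm_zero]
      positivity

lemma vv_ball (hTH : StmtTH) (hd : 2 ≤ d) {C' : ℝ} (hC' : 0 < C') {μ : Measure (Sp d)}
    (hμ : Gro C' μ) {ρ : ℝ} (hρ : 0 ≤ ρ) {y : Sp d} (hy : ‖y‖ ≤ ρ) :
    vv μ 1 y ≤ (1 + ρ) ^ d * vv μ 1 0 := by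
  obtain ⟨C, hC, h1⟩ := hTH d 0 hd C' hC'
  have h2 := (h1 μ hμ).2.2.2.1 1 0 y one_pos
  have h5 : 0 ≤ th μ 1 0 := ((h1 μ hμ).1 1 0 one_pos).1.le
  have h3 : ‖(0 : Sp d) - y‖ / 1 ≤ ρ := by
    rw [zero_sub, norm_neg, div_one]
    exact hy
  have h4 : (1 + ‖(0 : Sp d) - y‖ / 1) ^ d ≤ (1 + ρ) ^ d :=
    pow_le_pow_left₀ (by positivity) (by linarith) d
  have h6 : th μ 1 y ≤ ((1 + ρ) ^ d) ^ 2 * th μ 1 0 := by
    refine h2.trans (mul_le_mul_of_nonneg_right (h4.trans ?_) h5)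
    have : (1 : ℝ) ≤ (1 + ρ) ^ d := one_le_pow₀ (by linarith)
    nlinarith only [this]
  unfold vv
  calc Real.sqrt (th μ 1 y) ≤ Real.sqrt (((1 + ρ) ^ d) ^ 2 * th μ 1 0) := Real.sqrt_le_sqrt h6
    _ = _ := by rw [Real.sqrt_mul (by positivity), Real.sqrt_sq (by positivity)]

lemma fd_zero {g : Sp d → ℝ} {ρ : ℝ} (h : ∀ y, ρ < ‖y‖ → g y = 0) (w : Sp d) :
    ∀ y, ρ < ‖y‖ → fderiv ℝ g y w = 0 := by
  intro y hy
  have h1 : g =ᶠ[𝓝 y] fun _ => (0 : ℝ) := by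
    filter_upwards [(isOpen_lt continuous_const continuous_norm).mem_nhds hy] with z hz
    exact h z hz
  rw [h1.fderiv_eq]
  simp

/-- plane integrals as functions of the position of the plane -/
lemma pl_bf (hPF : StmtPF) (hd : 1 ≤ d) (ρ : ℝ) : ∃ C : ℝ, 0 < C ∧ ∀ (ν : Sp d), ‖ν‖ = 1 →
    ∀ (F : Sp d → ℝ) (N : ℝ), BF 2 N F → (∀ y, ρ ≤ ‖y‖ → F y = 0) →
      BF 2 (C * N) (fun c => plInt ν c F) := by
  obtain ⟨hP1, hP2⟩ := hPF d hd
  obtain ⟨C, hC, hP⟩ := hP1 ρ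
  refine ⟨C, hC, fun ν hν F N hF hs => ?_⟩
  obtain ⟨-, -, hder, hcd, -, -⟩ := hP2 ν hν
  have hcs : HasCompactSupport F :=
    HasCompactSupport.intro (isCompact_closedBall (0 : Sp d) ρ) fun y hy => by
      rw [mem_closedBall_zero_iff, not_le] at hy
      exact hs y hy.le
  have hF1 : BF 1 N (fun y => fderiv ℝ F y ν) := hF.fderiv_apply ν hν.le
  have hF2 : BF 0 N (fun y => fderiv ℝ (fun z => fderiv ℝ F z ν) y ν) := hF1.fderiv_apply ν hν.le
  have hcs1 : HasCompactSupport (fun y => fderiv ℝ F y ν) := hcs.fderiv_apply (𝕜 := ℝ) ν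
  have hz0 : ∀ y, ρ < ‖y‖ → F y = 0 := fun y hy => hs y hy.le
  have hz1 := fd_zero hz0 ν
  have hz2 := fd_zero hz1 ν
  have key : ∀ G : Sp d → ℝ, Continuous G → (∀ y, ρ < ‖y‖ → G y = 0) → (∀ y, |G y| ≤ N) →
      ∀ c, |plInt ν c G| ≤ C * N := by
    intro G hG hG0 hGN c
    refine hP ν hν G N hG hGN (fun y hy => ?_) c
    by_contra h
    push Not at h
    exact hy (hG0 y (h.trans_le (tang_le hν y)))
  have hd1 : deriv (fun c => plInt ν c F) = fun c => plInt ν c (fun y => fderiv ℝ F y ν) := by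
    funext c
    exact (hder F (hF.smooth.of_le (by norm_num)) hcs c).deriv
  have hd2 : deriv (fun c => plInt ν c (fun y => fderiv ℝ F y ν)) =
      fun c => plInt ν c (fun y => fderiv ℝ (fun z => fderiv ℝ F z ν) y ν) := by
    funext c
    exact (hder _ (hF1.smooth.of_le (by norm_num)) hcs1 c).deriv
  refine ⟨hcd 2 F hF.smooth hcs, fun j hj c => ?_⟩
  rw [norm_iteratedFDeriv_eq_norm_iteratedDeriv]
  interval_cases j
  · rw [iteratedDeriv_zero]
    exact key F hF.smooth.continuous hz0 (fun y => hF.norm_le y) c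
  · rw [iteratedDeriv_one, hd1]
    exact key _ hF1.smooth.continuous hz1 (fun y => hF1.norm_le y) c
  · rw [iteratedDeriv_succ, iteratedDeriv_one, hd1, hd2]
    exact key _ hF2.smooth.continuous hz2 (fun y => hF2.norm_le y) c

lemma pl_zero {ν : Sp d} (hν : ‖ν‖ = 1) {ρ : ℝ} {F : Sp d → ℝ} (hs : ∀ y, ρ ≤ ‖y‖ → F y = 0)
    {c : ℝ} (hc : ρ ≤ |c|) : plInt ν c F = 0 := by
  unfold plInt
  have h : (fun y : (Submodule.span ℝ {ν})ᗮ => F (c • ν + (y : Sp d))) = fun _ => 0 := by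
    funext y
    apply hs
    refine hc.trans ?_
    have h1 : ⟪ν, c • ν + (y : Sp d)⟫_ℝ = c := by
      rw [inner_add_right, inner_smul_right, real_inner_self_eq_norm_sq, hν,
        Submodule.mem_orthogonal_singleton_iff_inner_right.1 y.2]
      ring
    have h2 := abs_real_inner_le_norm ν (c • ν + (y : Sp d))
    rwa [h1, hν, one_mul] at h2
  rw [h]
  simp

lemma zp_use {R D : ℝ} {m : Sp d → ℝ} (h : ZP R D m) {K : ℝ} (hK : 0 < K) {G : Sp d → ℝ}
    (hG : BF 2 K G) (h0 : ∀ y, 0 ≤ G y) (hs : ∀ y, R ≤ ‖y‖ → G y = 0) :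
    -(K * D) ≤ ∫ y, m y * G y := by
  have hK1 : |K⁻¹| * K = 1 := by
    rw [abs_of_pos (inv_pos.2 hK), inv_mul_cancel₀ hK.ne']
  have hG1 := hG.const_mul K⁻¹
  rw [hK1] at hG1
  have h1 := h (fun y => K⁻¹ * G y) hG1.smooth (fun y => mul_nonneg (inv_pos.2 hK).le (h0 y))
    (fun y => (le_abs_self _).trans (hG1.norm_le y)) (fun y => hG1.bd 2 le_rfl y)
    (fun y hy => by rw [hs y hy, mul_zero])
  have e : ∫ y, m y * (K⁻¹ * G y) = K⁻¹ * ∫ y, m y * G y := by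
    rw [← integral_const_mul]
    congr 1
    funext y
    ring
  rw [e] at h1
  have h2 := mul_le_mul_of_nonneg_left h1 hK.le
  rw [← mul_assoc, mul_inv_cancel₀ hK.ne', one_mul] at h2
  linarith

/-- the building blocks -/
lemma piece_zero {ν : Sp d} (hν : ‖ν‖ = 1) {R1 Rs : ℝ} {κ : Sp d → ℝ}
    (hk : ∀ y, κ y ≠ 0 → ‖tang ν y‖ ≤ R1 - Rs - 3) {g : ℝ → ℝ} (hg : ∀ c, Rs ≤ |c| → g c = 0) :
    ∀ y, R1 ≤ ‖y‖ → κ y * g ⟪ν, y⟫_ℝ = 0 := by
  intro y hy
  by_contra h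
  have h1 : κ y ≠ 0 := fun h0 => h (by rw [h0, zero_mul])
  have h2 : g ⟪ν, y⟫_ℝ ≠ 0 := fun h0 => h (by rw [h0, mul_zero])
  have h3 := hk y h1
  have h4 : |⟪ν, y⟫_ℝ| < Rs := by
    by_contra h5
    push Not at h5
    exact h2 (hg _ h5)
  have h5 := norm_le_ht hν 0 y
  rw [ht, sub_zero, abs_zero] at h5
  linarith

lemma piece_bf {ν : Sp d} (hν : ‖ν‖ = 1) {κ : Sp d → ℝ} (hκ : TFn 2 1 κ) {g : ℝ → ℝ} {K : ℝ}
    (hg : BF 2 K g) : BF 2 (4 * K) (fun y => κ y * g ⟪ν, y⟫_ℝ) := by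
  have h1 : BF 2 1 κ := ⟨hκ.smooth, hκ.bd⟩
  have h2 := h1.mul (hg.comp_ht hν 0)
  have e : (fun y : Sp d => κ y * g (ht ν 0 y)) = fun y => κ y * g ⟪ν, y⟫_ℝ := by
    funext y
    rw [ht, sub_zero]
  rw [e] at h2
  convert h2 using 1
  ring

lemma piece_integrable {ν : Sp d} (hν : ‖ν‖ = 1) {R1 Rs : ℝ} {κ m : Sp d → ℝ} (hm : Continuous m)
    (hκ : Continuous κ) (hk : ∀ y, κ y ≠ 0 → ‖tang ν y‖ ≤ R1 - Rs - 3) {g : ℝ → ℝ}
    (hgc : Continuous g) (hg : ∀ c, Rs ≤ |c| → g c = 0) :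
    Integrable (fun y => m y * (κ y * g ⟪ν, y⟫_ℝ)) := by
  refine Continuous.integrable_of_hasCompactSupport ?_ ?_
  · exact hm.mul (hκ.mul (hgc.comp (continuous_const.inner continuous_id)))
  · refine HasCompactSupport.intro (isCompact_closedBall (0 : Sp d) R1) fun y hy => ?_
    rw [mem_closedBall_zero_iff, not_le] at hy
    rw [piece_zero hν hk hg y hy.le, mul_zero]

lemma piece_lin {ν : Sp d} (hν : ‖ν‖ = 1) {R1 Rs : ℝ} {κ m : Sp d → ℝ} (hm : Continuous m)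
    (hκ : Continuous κ) (hk : ∀ y, κ y ≠ 0 → ‖tang ν y‖ ≤ R1 - Rs - 3) {g1 g2 g3 : ℝ → ℝ}
    (hc1 : Continuous g1) (hc2 : Continuous g2) (hc3 : Continuous g3)
    (hg1 : ∀ c, Rs ≤ |c| → g1 c = 0) (hg2 : ∀ c, Rs ≤ |c| → g2 c = 0)
    (hg3 : ∀ c, Rs ≤ |c| → g3 c = 0) (a1 a2 a3 : ℝ) :
    ∫ y, m y * (κ y * (a1 * g1 ⟪ν, y⟫_ℝ + (a2 * g2 ⟪ν, y⟫_ℝ + a3 * g3 ⟪ν, y⟫_ℝ))) =
      a1 * (∫ y, m y * (κ y * g1 ⟪ν, y⟫_ℝ)) + a2 * (∫ y, m y * (κ y * g2 ⟪ν, y⟫_ℝ)) +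
        a3 * (∫ y, m y * (κ y * g3 ⟪ν, y⟫_ℝ)) := by
  have i1 := (piece_integrable hν hm hκ hk hc1 hg1).const_mul a1
  have i2 := (piece_integrable hν hm hκ hk hc2 hg2).const_mul a2
  have i3 := (piece_integrable hν hm hκ hk hc3 hg3).const_mul a3
  have i12 : Integrable (fun y => a1 * (m y * (κ y * g1 ⟪ν, y⟫_ℝ)) +
      a2 * (m y * (κ y * g2 ⟪ν, y⟫_ℝ))) := i1.add i2
  rw [← integral_const_mul, ← integral_const_mul, ← integral_const_mul,
    ← integral_add i1 i2, ← integral_add i12 i3]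
  congr 1
  funext y
  ring

lemma gain_nonneg {J : ℕ} {M : ℝ} {β : Sp d → ℝ} (hβ : Kit J M β) (ε : ℝ) (μ : Measure (Sp d))
    (n y : Sp d) : 0 ≤ XX β ε μ n 1 y := by
  have h0 : ∀ t r : ℝ, 0 ≤ tau t r := fun t r => le_max_left _ _
  have h1 : ∀ t y, 0 ≤ X1 β ε μ n t y := fun t y =>
    integral_nonneg fun z => mul_nonneg (hβ.prof.nonneg z)
      (div_nonneg (sq_nonneg _) (Real.sqrt_nonneg _))
  have h3 : ∀ t y, 0 ≤ X3 β ε μ n t y := fun t y =>
    integral_nonneg fun z => mul_nonneg (hβ.prof.nonneg z)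
      (div_nonneg (sq_nonneg _) (Real.sqrt_nonneg _))
  have h2 : ∀ t y, 0 ≤ t → 0 ≤ X2 μ n t y := fun t y ht =>
    div_nonneg (integral_nonneg fun η => mul_nonneg (by positivity) (by
      unfold kk
      positivity)) (Real.sqrt_nonneg _)
  have h4 : ∀ F : ℝ → Sp d → ℝ, (∀ t y, 0 ≤ t → 0 ≤ F t y) → 0 ≤ tav F 1 y := by
    intro F hF
    unfold tav
    refine intervalIntegral.integral_nonneg (by norm_num) fun r hr => ?_
    exact mul_nonneg (h0 _ _) (hF r y (by linarith [hr.1]))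
  exact add_nonneg (add_nonneg (h4 _ fun t y _ => h1 t y) (h4 _ fun t y ht => h2 t y ht))
    (h4 _ fun t y _ => h3 t y)

lemma exists_unit (hd : 1 ≤ d) : ∃ n : Sp d, ‖n‖ = 1 :=
  ⟨EuclideanSpace.single ⟨0, hd⟩ 1, by simp⟩

end B2m

open SMm _root_.TG.B2m

theorem stmtB2 (hUU : StmtUU) (hUB : StmtUB) (hTH : StmtTH) (hPF : StmtPF) : StmtB2 := by
  intro d J0 hd hJ0 M C' ε p0 A c R0 hC' hε hε4 hF hR0
  have hd1 : 1 ≤ d := by omega
  have hA := hF.A_ge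
  have hR20 : (20 : ℝ) ≤ R0 := by
    have : (0 : ℝ) ≤ d := Nat.cast_nonneg d
    linarith only [hR0, hA]
  obtain ⟨CU, hCU, hUU'⟩ := hUU d J0 hd hJ0 M C' ε p0 A c R0 hC' hε hε4 hF hR0
  obtain ⟨C2, hC2, hUB'⟩ := hUB d 2 hd M C' ε p0 A hC' hε (by linarith) hF.p0_pos hF.p0_le hA
  obtain ⟨Cp, hCp, hpl⟩ := pl_bf hPF hd1 (2 * R0)
  obtain ⟨Nz, hNz, hz⟩ := sT_BF (G := Sp d) 2 (R := 2 * R0 - 1) (by linarith)
  obtain ⟨Nb, hNb, hb⟩ := sT_BF (G := ℝ) 2 (R := R0 + 1) (by linarith)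
  choose KQ hKQ1 hKQ using fun J : ℕ => SH.zq_tfn (d := d) (R := R0) (by linarith) J
  have hKQ0 : ∀ J, 0 < KQ J := fun J => lt_of_lt_of_le one_pos (hKQ1 J)
  set V1 : ℝ := (1 + 2 * R0) ^ d with hV1
  have hV1p : 0 < V1 := by positivity
  set K1 : ℝ := 4 * (Nz * (C2 * V1)) with hK1
  have hK1p : 0 < K1 := by positivity
  set K2 : ℝ := 2 * CU * (Cp * K1) + CU * Nb + Cp * KQ 2 with hK2
  have hK2p : 0 < K2 := by
    have := hKQ0 2
    positivity
  refine ⟨2 * CU, by positivity, fun δ Rs hδ hRs => ⟨fun J => δ / KQ J,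
    fun J => div_pos hδ (hKQ0 J), fun R1 rm => ?_⟩⟩
  refine ⟨rm * (4 * K2) + 2 * CU * (rm * (4 * (Cp * K1))) + 1, by (clear * - hK2p hCU hCp hNz hC2 hR20; positivity), ?_⟩
  intro β hβ μ hμ m a D J r ν κ hm ha hD hZP hStr
  obtain ⟨-, -, -, -, -, -, -, -, -, hHn, -, -⟩ := hUB' β (PTm.kit_mono (by omega) hβ) μ hμ
  have hv0 : 0 < vv μ 1 0 := by
    obtain ⟨C, hC, h1⟩ := hTH d 0 hd C' hC'
    exact Real.sqrt_pos.mpr ((h1 μ hμ).1 1 0 one_pos).1
  set v := vv μ 1 0 with hv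
  -- the gain density
  set F : Sp d → Sp d → ℝ := fun n x => zR (2 * R0 - 1) x * Hn β ε p0 A μ n 1 x with hFd
  have hF0 : ∀ n : Sp d, ‖n‖ = 1 → ∀ y, 0 ≤ F n y := by
    intro n hn y
    have h1 := hF.gain β hβ μ hμ n hn y
    have h2 : 0 ≤ XX β ε μ n 1 y := gain_nonneg hβ ε μ n y
    exact mul_nonneg (sT_nonneg _ _) ((mul_nonneg hF.c_pos.le h2).trans h1)
  have hFs : ∀ n y, 2 * R0 ≤ ‖y‖ → F n y = 0 := by
    intro n y hy
    have : zR (2 * R0 - 1) y = 0 := sT_zero (by linarith)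
    simp only [hFd, this, zero_mul]
  have hFb : ∀ n : Sp d, ‖n‖ = 1 → BF 2 (K1 * v) (F n) := by
    intro n hn
    have h1 := bf_cut (ρ := 2 * R0) hz (fun y hy => sT_zero (by linarith))
      ((hHn n hn).1.of_le (by norm_cast)) (B := C2 * (V1 * v)) (by positivity)
      (fun j hj y hy => ((hHn n hn).2 j hj y).trans
        (mul_le_mul_of_nonneg_left (vv_ball hTH hd hC' hμ (by linarith) hy) hC2.le))
    refine h1.mono (le_of_eq ?_)
    rw [hK1]
    ring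
  set ψ : Sp d → ℝ → ℝ := fun n s => plInt n s (F n) with hψ
  have hψ0 : ∀ n : Sp d, ‖n‖ = 1 → ∀ s, 0 ≤ ψ n s := fun n hn s =>
    integral_nonneg fun y => hF0 n hn _
  have hψb : ∀ n : Sp d, ‖n‖ = 1 → BF 2 (Cp * (K1 * v)) (ψ n) := fun n hn =>
    hpl n hn (F n) _ (hFb n hn) (hFs n)
  have hψs : ∀ n : Sp d, ‖n‖ = 1 → ∀ s, Rs ≤ |s| → ψ n s = 0 := fun n hn s hs =>
    pl_zero hn (hFs n) (hRs.trans hs)
  -- the pieces
  have hpc : pieces m ν κ F = ∑ i, ∫ y, m y * (κ i y * ψ (ν i) ⟪ν i, y⟫_ℝ) := rfl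
  have hrm : (r : ℝ) ≤ rm := by exact_mod_cast hStr.rle
  have hκc : ∀ i, Continuous (κ i) := fun i => (hStr.kb i).smooth.continuous
  have hplow : -(rm * (4 * (Cp * K1)) * (v * D)) ≤ pieces m ν κ F := by
    rw [hpc]
    have h1 : ∀ i : Fin r, -(4 * (Cp * (K1 * v)) * D) ≤
        ∫ y, m y * (κ i y * ψ (ν i) ⟪ν i, y⟫_ℝ) := fun i =>
      zp_use hZP (by positivity) (piece_bf (hStr.n1 i) (hStr.kb i) (hψb _ (hStr.n1 i)))
        (fun y => mul_nonneg (hStr.k0 i y) (hψ0 _ (hStr.n1 i) _))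
        (piece_zero (hStr.n1 i) (hStr.ks i) (hψs _ (hStr.n1 i)))
    have h2 := Finset.sum_le_sum fun (i : Fin r) (_ : i ∈ Finset.univ) => h1 i
    rw [Finset.sum_const, Finset.card_univ, Fintype.card_fin, nsmul_eq_mul] at h2
    refine le_trans ?_ h2
    have h3 : 0 ≤ 4 * (Cp * (K1 * v)) * D := by positivity
    have h4 := mul_le_mul_of_nonneg_right hrm h3
    linarith only [h4]
  -- the sum of the integrals of the bumps
  set bmp : ℝ → ℝ := fun s => sT (R0 + 1) s with hbmp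
  set S : ℝ := ∑ i, |∫ y, m y * (κ i y * bmp ⟪ν i, y⟫_ℝ)| with hS
  have hS0 : 0 ≤ S := Finset.sum_nonneg fun i _ => abs_nonneg _
  have hbs : ∀ s, Rs ≤ |s| → bmp s = 0 := fun s hs => sT_zero (by
    rw [Real.norm_eq_abs]
    linarith)
  -- main estimate with a small t
  have main : ∀ t : ℝ, 0 < t → t ≤ v → v * bq R0 m ≤
      2 * CU * pieces m ν κ F + δ * a * v +
        (rm * (4 * K2) + 2 * CU * (rm * (4 * (Cp * K1))) + 1) * v * D + CU * t * S := by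
    intro t ht0 htv
    -- almost minimal plane
    set Ψ : Set ℝ := {x | ∃ (n : Sp d) (s : ℝ), ‖n‖ = 1 ∧ |s| ≤ R0 + 1 ∧ x = ψ n s} with hΨ
    obtain ⟨n0, hn0⟩ := exists_unit hd1
    have hne : Ψ.Nonempty := ⟨ψ n0 0, n0, 0, hn0, by rw [abs_zero]; linarith, rfl⟩
    have hbd : BddBelow Ψ := ⟨0, by
      rintro x ⟨n, s, hn, -, rfl⟩
      exact hψ0 n hn s⟩
    obtain ⟨x, ⟨n', s', hn', hs', rfl⟩, hx⟩ := exists_lt_of_csInf_lt hne
      (show sInf Ψ < sInf Ψ + t by linarith)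
    have hmin : ∀ (n : Sp d) (s : ℝ), ‖n‖ = 1 → |s| ≤ R0 + 1 → ψ n' s' ≤ ψ n s + t := by
      intro n s hn hs
      have := csInf_le hbd (show ψ n s ∈ Ψ from ⟨n, s, hn, hs, rfl⟩)
      linarith
    set ζ : Sp d → ℝ := fun y => zR R0 y * ht n' s' y ^ 2 with hζ
    have hζT : ∀ J, TFn J (KQ J) ζ := fun J => hKQ J n' s' hn' (by linarith)
    have hζs : ∀ y, R0 + 1 ≤ ‖y‖ → ζ y = 0 := by
      intro y hy
      have : zR R0 y = 0 := sT_zero hy
      simp only [hζ, this, zero_mul]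
    have hζb : ∀ n : Sp d, ‖n‖ = 1 → BF 2 (Cp * KQ 2) (fun s => plInt n s ζ) := fun n hn =>
      hpl n hn ζ _ ⟨(hζT 2).smooth, (hζT 2).bd⟩ (fun y hy => hζs y (by linarith))
    have hζz : ∀ n : Sp d, ‖n‖ = 1 → ∀ s, R0 + 1 ≤ |s| → plInt n s ζ = 0 := fun n hn s hs =>
      pl_zero hn hζs hs
    -- comparison on planes
    have hcmp : ∀ (n : Sp d) (s : ℝ), ‖n‖ = 1 →
        0 ≤ 2 * CU * ψ n s + (CU * t * bmp s + (-v) * plInt n s ζ) := by
      intro n s hn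
      rcases le_total |s| (R0 + 1) with hs | hs
      · have h1 := hUU' β hβ μ hμ n n' s s' hn hn' hs hs'
        have h2 := hmin n s hn hs
        have h3 : bmp s = 1 := sT_one (by rw [Real.norm_eq_abs]; exact hs)
        have h4 : v * plInt n s ζ ≤ CU * (ψ n s + ψ n' s') := h1
        have h5 := mul_le_mul_of_nonneg_left h2 hCU.le
        rw [h3]
        linarith only [h4, h5]
      · rw [hζz n hn s hs, mul_zero, add_zero]
        have h1 := hψ0 n hn s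
        have h2 : 0 ≤ bmp s := sT_nonneg _ _
        (clear * - hCU h1 ht0 h2; positivity)
    -- Lemma Z for the pieces
    have hpi : ∀ i : Fin r, v * (∫ y, m y * (κ i y * plInt (ν i) ⟪ν i, y⟫_ℝ ζ)) ≤
        2 * CU * (∫ y, m y * (κ i y * ψ (ν i) ⟪ν i, y⟫_ℝ)) +
          CU * t * |∫ y, m y * (κ i y * bmp ⟪ν i, y⟫_ℝ)| + 4 * K2 * (v * D) := by
      intro i
      have hni := hStr.n1 i
      have hgb : BF 2 (K2 * v) (fun s => 2 * CU * ψ (ν i) s +
          (CU * t * bmp s + (-v) * plInt (ν i) s ζ)) := by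
        refine (((hψb _ hni).const_mul (2 * CU)).add
          ((hb.const_mul (CU * t)).add ((hζb _ hni).const_mul (-v)))).mono ?_
        rw [abs_of_pos (by positivity : 0 < 2 * CU), abs_of_pos (by positivity : 0 < CU * t),
          abs_neg, abs_of_pos hv0, hK2]
        have h1 : CU * t * Nb ≤ CU * v * Nb := by (clear * - htv hCU hNb; gcongr)
        linarith only [h1]
      have h1 := zp_use hZP (K := 4 * (K2 * v)) (by (clear * - hK2p hv0; positivity))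
        (piece_bf hni (hStr.kb i) hgb)
        (fun y => mul_nonneg (hStr.k0 i y) (hcmp _ _ hni))
        (piece_zero hni (hStr.ks i) (g := fun s => 2 * CU * ψ (ν i) s +
          (CU * t * bmp s + (-v) * plInt (ν i) s ζ)) (fun s hs => by
            rw [hψs _ hni s hs, hbs s hs, hζz _ hni s (by linarith)]
            ring))
      rw [piece_lin hni hm (hκc i) (hStr.ks i) (hψb _ hni).smooth.continuous
        hb.smooth.continuous (hζb _ hni).smooth.continuous (hψs _ hni) hbs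
        (fun s hs => hζz _ hni s (by linarith))] at h1
      have h2 : CU * t * (∫ y, m y * (κ i y * bmp ⟪ν i, y⟫_ℝ)) ≤
          CU * t * |∫ y, m y * (κ i y * bmp ⟪ν i, y⟫_ℝ)| :=
        mul_le_mul_of_nonneg_left (le_abs_self _) (by positivity)
      have h3 : 4 * (K2 * v) * D = 4 * K2 * (v * D) := by ring
      rw [h3] at h1
      linarith
    have hsum : v * (∑ i, ∫ y, m y * (κ i y * plInt (ν i) ⟪ν i, y⟫_ℝ ζ)) ≤
        2 * CU * pieces m ν κ F + CU * t * S + rm * (4 * K2) * (v * D) := by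
      rw [hpc, hS, Finset.mul_sum, Finset.mul_sum, Finset.mul_sum]
      refine (Finset.sum_le_sum fun i _ => hpi i).trans ?_
      rw [Finset.sum_add_distrib, Finset.sum_add_distrib, Finset.sum_const, Finset.card_univ,
        Fintype.card_fin, nsmul_eq_mul]
      have h3 : 0 ≤ 4 * K2 * (v * D) := by (clear * - hK2p hv0 hD; positivity)
      have h4 := mul_le_mul_of_nonneg_right hrm h3
      linarith
    -- the structure theorem
    have hest := hStr.est ζ (KQ J) (hζT J) (fun y hy => hζs y (by linarith))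
    have hE : δ / KQ J * a * KQ J = δ * a := by
      field_simp [(hKQ0 J).ne']
    rw [hE] at hest
    have hblc : v * blc n' s' m R0 ≤ 2 * CU * pieces m ν κ F + CU * t * S +
        rm * (4 * K2) * (v * D) + δ * a * v := by
      have h1 : blc n' s' m R0 ≤
          (∑ i, ∫ y, m y * (κ i y * plInt (ν i) ⟪ν i, y⟫_ℝ ζ)) + δ * a := by
        have := (abs_le.1 hest).2
        have e : blc n' s' m R0 = ∫ y, m y * ζ y := rfl
        rw [e]
        linarith only [this]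
      have h2 := mul_le_mul_of_nonneg_left h1 hv0.le
      linarith only [hsum, h2]
    -- conclusion
    have hbq : bq R0 m ≤ max 0 (blc n' s' m R0) := by
      unfold bq
      refine max_le (le_max_left _ _) ?_
      by_cases hB : BddBelow {v : ℝ | ∃ (n : Sp d) (s : ℝ), ‖n‖ = 1 ∧ |s| ≤ R0 + 1 ∧
          v = blc n s m R0}
      · exact (csInf_le hB ⟨n', s', hn', hs', rfl⟩).trans (le_max_right _ _)
      · rw [Real.sInf_of_not_bddBelow hB]
        exact le_max_left _ _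
    have hvD : 0 ≤ v * D := by positivity
    have h5 : v * bq R0 m ≤ v * max 0 (blc n' s' m R0) := mul_le_mul_of_nonneg_left hbq hv0.le
    refine h5.trans ?_
    rw [mul_max_of_nonneg _ _ hv0.le, mul_zero]
    have h6 : 0 ≤ CU * t * S := by (clear * - hCU ht0; positivity)
    have h7 : 0 ≤ δ * a * v := by (clear * - hδ ha hv0; positivity)
    have h8 : (rm * (4 * K2) + 2 * CU * (rm * (4 * (Cp * K1))) + 1) * v * D =
        rm * (4 * K2) * (v * D) + 2 * CU * (rm * (4 * (Cp * K1)) * (v * D)) + v * D := by ring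
    have h9 : 0 ≤ rm * (4 * K2) * (v * D) := by (clear * - hK2p hv0 hD; positivity)
    have h10 : 0 ≤ 2 * CU * (rm * (4 * (Cp * K1)) * (v * D)) := by (clear * - hCU hCp hNz hC2 hR20 hv0 hD; positivity)
    have h11 := mul_le_mul_of_nonneg_left hplow (by positivity : 0 ≤ 2 * CU)
    rw [h8]
    refine max_le ?_ ?_
    · rw [mul_neg] at h11
      linarith only [hvD, h6, h7, h9, h11]
    · linarith
  -- the limit t to 0
  refine le_of_forall_pos_le_add fun e he => ?_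
  have ht : 0 < min v (e / (CU * S + 1)) := lt_min hv0 (by (clear * - he hCU; positivity))
  have h1 := main _ ht (min_le_left _ _)
  refine h1.trans ?_
  have h2 : CU * min v (e / (CU * S + 1)) * S ≤ e := by
    have h3 : min v (e / (CU * S + 1)) ≤ e / (CU * S + 1) := min_le_right _ _
    have h4 : 0 < CU * S + 1 := by (clear * - hCU; positivity)
    calc CU * min v (e / (CU * S + 1)) * S ≤ CU * (e / (CU * S + 1)) * S := by gcongr
      _ = e * (CU * S / (CU * S + 1)) := by ring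
      _ ≤ e * 1 := by
          apply mul_le_mul_of_nonneg_left _ he.le
          rw [div_le_one h4]
          linarith
      _ = e := mul_one e
  have h5 : 2 * CU * pieces m ν κ (fun n x => zR (2 * R0 - 1) x * Hn β ε p0 A μ n 1 x) =
      2 * CU * pieces m ν κ F := rfl
  rw [h5]
  linarith only [h2]

end

end TG


end

section

/-!
# Module B4: the functional Y is controlled by the pieces (MP_287c87_an)
-/

open MeasureTheory Metric Set TrI Filter
open scoped InnerProductSpace ContDiff Topology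

namespace TG

noncomputable section

namespace B4m

open SMm B2m

variable {d : ℕ}

lemma kk_nonneg1 (x : Sp d) : 0 ≤ kk 1 x := by
  unfold kk
  positivity

lemma Mo_eq_EE {μ : Measure (Sp d)} (n : Sp d) (s : ℝ) (hv : 0 < vv μ 1 0) :
    Mo μ n s 2 1 0 * vv μ 1 0 = UUm.EE μ (fun η => MO.ht n s η ^ 2) 0 := by
  have e : Mo μ n s 2 1 0 = (∫ η, MO.ht n s η ^ 2 * MO.K 1 (0 - η) ∂μ) / vv μ 1 0 := by
    unfold Mo MO.K MO.ht
    congr 1
    congr 1
    funext η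
    ring
  rw [e]
  unfold UUm.EE
  field_simp

lemma K_le (η : Sp d) : (1 + ‖η‖ ^ 2) * MO.K 1 (0 - η) ≤ kk 1 (0 - η) := by
  have h0 : 0 ≤ kk 1 (0 - η) := kk_nonneg1 _
  unfold MO.K
  have e : ‖(0 : Sp d) - η‖ = ‖η‖ := by rw [zero_sub, norm_neg]
  rw [e, one_pow, mul_div_assoc', div_le_iff₀ (by positivity)]
  have ha : 0 ≤ ‖η‖ ^ 2 := sq_nonneg _
  have h1 : 0 ≤ (1 + ‖η‖ ^ 2) * kk 1 (0 - η) := by positivity
  nlinarith only [h1]

lemma ht_cmp {n ν : Sp d} (hn : ‖n‖ = 1) (hν : ‖ν‖ = 1) (s c : ℝ) (η : Sp d) :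
    MO.ht n s η ^ 2 ≤ 3 * MO.ht ν c η ^ 2 +
      3 * (((c * ⟪ν, n⟫_ℝ - s) ^ 2 + ‖tang ν n‖ ^ 2) * (1 + ‖η‖ ^ 2)) := by
  have e : MO.ht n s η = ⟪ν, n⟫_ℝ * MO.ht ν c η + (c * ⟪ν, n⟫_ℝ - s) + ⟪η, tang ν n⟫_ℝ := by
    unfold MO.ht tang
    rw [inner_sub_right, inner_smul_right]
    ring
  have h1 : ⟪ν, n⟫_ℝ ^ 2 ≤ 1 := by
    have := abs_real_inner_le_norm ν n
    rw [hn, hν, one_mul] at this
    rw [← sq_abs]
    have h0 := abs_nonneg ⟪ν, n⟫_ℝ
    nlinarith only [this, h0]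
  have h2 : ⟪η, tang ν n⟫_ℝ ^ 2 ≤ ‖η‖ ^ 2 * ‖tang ν n‖ ^ 2 := by
    have := abs_real_inner_le_norm η (tang ν n)
    rw [← sq_abs, ← mul_pow]
    exact pow_le_pow_left₀ (abs_nonneg _) this 2
  rw [e]
  generalize ⟪ν, n⟫_ℝ = p at *
  generalize ⟪η, tang ν n⟫_ℝ = z at *
  generalize MO.ht ν c η = x at *
  generalize c * p - s = b at *
  generalize ‖tang ν n‖ = w at *
  generalize ‖η‖ = t at *
  have h3 : (p * x + b + z) ^ 2 ≤ 3 * ((p * x) ^ 2 + b ^ 2 + z ^ 2) := by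
    linarith only [sq_nonneg (p * x - b), sq_nonneg (p * x - z), sq_nonneg (b - z)]
  have h4 : (p * x) ^ 2 ≤ x ^ 2 := by
    rw [mul_pow]
    nlinarith only [h1]
  have h5 : 0 ≤ b ^ 2 * t ^ 2 := by positivity
  have h6 : 0 ≤ w ^ 2 := by positivity
  nlinarith

lemma ht_crude {n : Sp d} (hn : ‖n‖ = 1) {s R2 : ℝ} (hs : |s| ≤ R2) (η : Sp d) :
    MO.ht n s η ^ 2 ≤ 2 * (1 + R2 ^ 2) * (1 + ‖η‖ ^ 2) := by
  have h1 : ⟪η, n⟫_ℝ ^ 2 ≤ ‖η‖ ^ 2 := by
    have := abs_real_inner_le_norm η n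
    rw [hn, mul_one] at this
    rw [← sq_abs]
    exact pow_le_pow_left₀ (abs_nonneg _) this 2
  have h2 : s ^ 2 ≤ R2 ^ 2 := by
    rw [← sq_abs]
    exact pow_le_pow_left₀ (abs_nonneg _) hs 2
  unfold MO.ht
  have h3 : 0 ≤ R2 ^ 2 * ‖η‖ ^ 2 := by positivity
  nlinarith [sq_nonneg (⟪η, n⟫_ℝ + s)]

section main

variable (h : StmtTH) (hd : 2 ≤ d) {C' : ℝ} (hC' : 0 < C') {μ : Measure (Sp d)} (hμ : Gro C' μ)

include h hd hC' hμ

/-- the moment of a plane through the one of another plane -/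
lemma EE_cmp {n ν : Sp d} (hn : ‖n‖ = 1) (hν : ‖ν‖ = 1) (s c : ℝ) :
    UUm.EE μ (fun η => MO.ht n s η ^ 2) 0 ≤ 3 * UUm.EE μ (fun η => MO.ht ν c η ^ 2) 0 +
      3 * ((c * ⟪ν, n⟫_ℝ - s) ^ 2 + ‖tang ν n‖ ^ 2) * th μ 1 0 := by
  unfold UUm.EE th
  rw [← integral_const_mul, ← integral_const_mul,
    ← integral_add ((UUm.int_h2 h hd hC' hμ hν c 0).const_mul 3)
      ((MO.kk_int h hd hC' hμ one_pos 0).const_mul _)]
  refine integral_mono (UUm.int_h2 h hd hC' hμ hn s 0)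
    (((UUm.int_h2 h hd hC' hμ hν c 0).const_mul 3).add
      ((MO.kk_int h hd hC' hμ one_pos 0).const_mul _)) fun η => ?_
  have h1 := ht_cmp hn hν s c η
  have h2 := K_le (d := d) η
  have h3 := (MO.K_pos (d := d) one_pos (0 - η)).le
  have h4 := mul_le_mul_of_nonneg_right h1 h3
  have h5 : 0 ≤ (c * ⟪ν, n⟫_ℝ - s) ^ 2 + ‖tang ν n‖ ^ 2 := by positivity
  have h6 := mul_le_mul_of_nonneg_left h2 h5
  simp only
  nlinarith

lemma EE_crude {n : Sp d} (hn : ‖n‖ = 1) {s R2 : ℝ} (hs : |s| ≤ R2) :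
    UUm.EE μ (fun η => MO.ht n s η ^ 2) 0 ≤ 2 * (1 + R2 ^ 2) * th μ 1 0 := by
  unfold UUm.EE th
  rw [← integral_const_mul]
  refine integral_mono (UUm.int_h2 h hd hC' hμ hn s 0)
    ((MO.kk_int h hd hC' hμ one_pos 0).const_mul _) fun η => ?_
  have h1 := ht_crude hn hs η
  have h2 := K_le (d := d) η
  have h3 := (MO.K_pos (d := d) one_pos (0 - η)).le
  have h4 := mul_le_mul_of_nonneg_right h1 h3
  have h5 : (0 : ℝ) ≤ 2 * (1 + R2 ^ 2) := by positivity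
  have h6 := mul_le_mul_of_nonneg_left h2 h5
  simp only
  linarith only [h4, h6]

end main

/-! ## planes -/

lemma pl_mono {n : Sp d} (hn : ‖n‖ = 1) {s : ℝ} {F G : Sp d → ℝ} (hF : Continuous F)
    (hFs : HasCompactSupport F) (hG : Continuous G) (hGs : HasCompactSupport G)
    (hFG : ∀ y, ⟪n, y⟫_ℝ = s → F y ≤ G y) : plInt n s F ≤ plInt n s G := by
  obtain ⟨ρ, hρ⟩ := PF.cs_tang hn hFs
  obtain ⟨ρ', hρ'⟩ := PF.cs_tang hn hGs
  unfold plInt
  refine integral_mono (PF.integrable_pl hn hF hρ s) (PF.integrable_pl hn hG hρ' s) fun y => ?_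
  refine hFG _ ?_
  rw [inner_add_right, inner_smul_right, real_inner_self_eq_norm_sq, hn, PF.inner_pl]
  simp

lemma pl_lin {n : Sp d} (hn : ‖n‖ = 1) {s : ℝ} {F G : Sp d → ℝ} (hF : Continuous F)
    (hFs : HasCompactSupport F) (hG : Continuous G) (hGs : HasCompactSupport G) (a b : ℝ) :
    plInt n s (fun y => a * F y + b * G y) = a * plInt n s F + b * plInt n s G := by
  obtain ⟨ρ, hρ⟩ := PF.cs_tang hn hFs
  obtain ⟨ρ', hρ'⟩ := PF.cs_tang hn hGs
  unfold plInt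
  rw [← integral_const_mul, ← integral_const_mul,
    ← integral_add ((PF.integrable_pl hn hF hρ s).const_mul a)
      ((PF.integrable_pl hn hG hρ' s).const_mul b)]

lemma pl_smul {n : Sp d} {s : ℝ} {F : Sp d → ℝ} (a : ℝ) :
    plInt n s (fun y => a * F y) = a * plInt n s F := by
  unfold plInt
  rw [← integral_const_mul]

lemma hgt_cont (n : Sp d) (s : ℝ) : Continuous (hgt n s) := by
  unfold hgt
  fun_prop

/-- lower bound of the quadratic weight on another plane -/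
lemma low {k : ℕ} {n ν : Sp (k + 1)} (hν : ‖ν‖ = 1) (s : ℝ) {c Ct R0 : ℝ}
    (hc : |c| ≤ Ct + 1) (hR : Ct + 4 ≤ R0) :
    ((c * ⟪ν, n⟫_ℝ - s) ^ 2 + ‖tang ν n‖ ^ 2) * UUm.vb k 1 ≤
      plInt ν c (fun y => zR R0 y * hgt n s y ^ 2) := by
  set w := tang ν n with hw
  set b := c * ⟪ν, n⟫_ℝ - s with hb
  have hνw : ⟪ν, w⟫_ℝ = 0 := by
    rw [hw]
    unfold tang
    rw [inner_sub_right, inner_smul_right, real_inner_self_eq_norm_sq, hν]
    simp
  obtain ⟨σ, hσ, hσb⟩ : ∃ σ : ℝ, |σ| = 1 ∧ σ * b = |b| := by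
    rcases le_total 0 b with h | h
    · exact ⟨1, abs_one, by rw [one_mul, abs_of_nonneg h]⟩
    · exact ⟨-1, by rw [abs_neg, abs_one], by rw [abs_of_nonpos h]; ring⟩
  have hσ2 : σ * σ = 1 := by
    have := congrArg (fun x => x * x) hσ
    simpa [abs_mul_abs_self] using this
  set x0 : Sp (k + 1) := c • ν + (σ * 2 * ‖w‖⁻¹) • w with hx0
  have h1 : ⟪ν, x0⟫_ℝ = c := by
    rw [hx0, inner_add_right, inner_smul_right, inner_smul_right, hνw, real_inner_self_eq_norm_sq,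
      hν]
    ring
  have hinv : ‖w‖⁻¹ * ‖w‖ ≤ 1 := by
    rcases eq_or_ne ‖w‖ 0 with h | h
    · rw [h]; simp
    · rw [inv_mul_cancel₀ h]
  have hinv2 : ‖w‖⁻¹ * ‖w‖ ^ 2 = ‖w‖ := by
    rcases eq_or_ne ‖w‖ 0 with h | h
    · rw [h]; simp
    · rw [pow_two, ← mul_assoc, inv_mul_cancel₀ h, one_mul]
  have hx0n : ‖x0‖ ≤ |c| + 2 := by
    rw [hx0]
    refine (norm_add_le _ _).trans ?_
    rw [norm_smul, norm_smul, hν, Real.norm_eq_abs, Real.norm_eq_abs, abs_mul, abs_mul, hσ,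
      abs_two, abs_of_nonneg (inv_nonneg.2 (norm_nonneg w))]
    linarith only [hinv]
  have h2 : ⟪w, x0⟫_ℝ = σ * 2 * ‖w‖ := by
    rw [hx0, inner_add_right, inner_smul_right, inner_smul_right, real_inner_comm, hνw,
      real_inner_self_eq_norm_sq, mul_zero, zero_add, mul_assoc, hinv2]
  refine UUm.pl_lower k hν ((UUm.zR_cont _).mul ((hgt_cont n s).pow 2))
    ((UUm.zR_cs _).mul_right) (fun y => mul_nonneg (UUm.zR_nonneg _ _) (sq_nonneg _)) h1
    fun y hy hyx => ?_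
  have hyn : ‖y‖ ≤ R0 := by
    have h3 := norm_add_le (y - x0) x0
    rw [sub_add_cancel] at h3
    linarith
  change b ^ 2 + ‖w‖ ^ 2 ≤ zR R0 y * hgt n s y ^ 2
  rw [UUm.zR_one hyn, one_mul]
  have h4 : hgt n s y = b + σ * 2 * ‖w‖ + ⟪w, y - x0⟫_ℝ := by
    have e : ⟪n, y⟫_ℝ = c * ⟪ν, n⟫_ℝ + ⟪w, y⟫_ℝ := by
      rw [hw]
      unfold tang
      rw [inner_sub_left, inner_smul_left, hy]
      simp only [conj_trivial]
      ring
    unfold hgt
    rw [e, inner_sub_right, h2, hb]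
    ring
  have h5 : |⟪w, y - x0⟫_ℝ| ≤ ‖w‖ := by
    refine (abs_real_inner_le_norm _ _).trans ?_
    nlinarith only [hyx, norm_nonneg w]
  have h6 : |b| + ‖w‖ ≤ σ * hgt n s y := by
    rw [h4]
    have h7 : |σ * ⟪w, y - x0⟫_ℝ| ≤ ‖w‖ := by
      rw [abs_mul, hσ, one_mul]
      exact h5
    have h8 := (abs_le.1 h7).1
    have h9 : σ * (b + σ * 2 * ‖w‖ + ⟪w, y - x0⟫_ℝ) =
        σ * b + (σ * σ) * 2 * ‖w‖ + σ * ⟪w, y - x0⟫_ℝ := by ring
    rw [h9, hσb, hσ2]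
    linarith
  have h7 : (|b| + ‖w‖) ^ 2 ≤ (σ * hgt n s y) ^ 2 :=
    pow_le_pow_left₀ (by positivity) h6 2
  have h8 : (σ * hgt n s y) ^ 2 = hgt n s y ^ 2 := by
    rw [mul_pow, pow_two σ, hσ2, one_mul]
  rw [h8] at h7
  refine le_trans ?_ h7
  have h9 : |b| ^ 2 = b ^ 2 := sq_abs b
  have := abs_nonneg b
  have := norm_nonneg w
  nlinarith

/-- bounds of the quadratic weight for far planes -/
lemma zq_bf {R : ℝ} (hR : 1 ≤ R) (J : ℕ) (R2 : ℝ) : ∃ K : ℝ, 1 ≤ K ∧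
    ∀ (n : Sp d) (s : ℝ), ‖n‖ = 1 → |s| ≤ R2 → BF J K (fun y => zR R y * hgt n s y ^ 2) := by
  obtain ⟨K, hK1, hK⟩ := SH.zq_tfn (d := d) (R := R) (by linarith) J
  obtain ⟨N, hN, hz⟩ := sT_BF (G := Sp d) J (R := R) (by linarith)
  refine ⟨(1 + |R2|) * K + (|R2| * K + (|R2| ^ 2 + |R2|) * N) + 1, ?_, fun n s hn hs => ?_⟩
  · have : 0 ≤ (1 + |R2|) * K + (|R2| * K + (|R2| ^ 2 + |R2|) * N) := by
      have := hz.nonneg
      have : 0 ≤ K := by linarith
      positivity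
    linarith
  have h0 := hK n 0 hn (by rw [abs_zero]; linarith)
  have h1 := hK n 1 hn (by rw [abs_one]; linarith)
  have b0 : BF J K (fun y => zR R y * ht n 0 y ^ 2) := ⟨h0.smooth, h0.bd⟩
  have b1 : BF J K (fun y => zR R y * ht n 1 y ^ 2) := ⟨h1.smooth, h1.bd⟩
  have b2 : BF J N (fun y : Sp d => zR R y) := hz
  have e : (fun y => zR R y * hgt n s y ^ 2) = fun y => (1 - s) * (zR R y * ht n 0 y ^ 2) +
      (s * (zR R y * ht n 1 y ^ 2) + (s ^ 2 - s) * zR R y) := by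
    funext y
    unfold hgt ht
    ring
  rw [e]
  refine ((b0.const_mul (1 - s)).add ((b1.const_mul s).add (b2.const_mul (s ^ 2 - s)))).mono ?_
  have hs2 : |s| ≤ |R2| := hs.trans (le_abs_self _)
  have hs0 := abs_nonneg s
  have e1 : |1 - s| ≤ 1 + |R2| := by
    have := abs_sub (1 : ℝ) s
    rw [abs_one] at this
    linarith
  have e2 : |s ^ 2 - s| ≤ |R2| ^ 2 + |R2| := by
    have h3 := abs_sub (s ^ 2) s
    rw [abs_pow] at h3
    have h4 : |s| ^ 2 ≤ |R2| ^ 2 := pow_le_pow_left₀ hs0 hs2 2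
    linarith
  have hN0 := hz.nonneg
  have hK0 : 0 ≤ K := by linarith
  have e3 : |1 - s| * K ≤ (1 + |R2|) * K := mul_le_mul_of_nonneg_right e1 hK0
  have e4 : |s| * K ≤ |R2| * K := mul_le_mul_of_nonneg_right hs2 hK0
  have e5 : |s ^ 2 - s| * N ≤ (|R2| ^ 2 + |R2|) * N := mul_le_mul_of_nonneg_right e2 hN0
  linarith

lemma zR_mono {r R : ℝ} (h : r ≤ R) (x : Sp d) : zR r x ≤ zR R x := by
  unfold zR
  exact Real.smoothTransition.monotone (by linarith)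

/-- the comparison on all planes -/
lemma cmp (hTH : StmtTH) {k : ℕ} (hd : 2 ≤ k + 1) {C' : ℝ} (hC' : 0 < C') {C : ℝ} (hC : 0 < C)
    {c0 Ct R0 Cz : ℝ} (hc0 : 0 < c0) (hCt : 0 ≤ Ct) (hR : Ct + 4 ≤ R0)
    (hCz : ∀ (ν : Sp (k + 1)) (c : ℝ), ‖ν‖ = 1 → plInt ν c (zR Ct : Sp (k + 1) → ℝ) ≤ Cz)
    {μ : Measure (Sp (k + 1))} (hμ : Gro C' μ) (hT : MO.THd 0 C μ)
    {J : ℕ} {M : ℝ} {β : Sp (k + 1) → ℝ} (hβ : Kit J M β) {ε : ℝ} {ν : Sp (k + 1)}
    (hν : ‖ν‖ = 1) {H : Sp (k + 1) → ℝ} (hHc : Continuous H) (hH0 : ∀ y, 0 ≤ H y)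
    (hHX : ∀ y, c0 * XX β ε μ ν 1 y ≤ H y) {n : Sp (k + 1)} (hn : ‖n‖ = 1) (s c : ℝ)
    (hc : |c| ≤ Ct + 1) :
    Mo μ n s 2 1 0 * plInt ν c (zR Ct : Sp (k + 1) → ℝ) ≤
      3 * ((Ct + 2) ^ (k + 1 + 4) * (4 ^ (k + 1 + 5) * Real.sqrt C * (Ct + 2) ^ (k + 1)) /
        (c0 * UUm.T0)) * plInt ν c (fun y => zR (2 * R0 - 1) y * H y) +
      3 * Cz / UUm.vb k 1 * (vv μ 1 0 * plInt ν c (fun y => zR R0 y * hgt n s y ^ 2)) := by
  have hT0 := UUm.T0_pos
  have hv0 : 0 < vv μ 1 0 := hT.vpos one_pos (0 : Sp (k + 1))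
  have hsC := Real.sqrt_pos.2 hC
  have hvb := UUm.vb_pos k one_pos
  set v := vv μ 1 0 with hv
  set KH : ℝ := (Ct + 2) ^ (k + 1 + 4) * (4 ^ (k + 1 + 5) * Real.sqrt C * (Ct + 2) ^ (k + 1)) /
        (c0 * UUm.T0) with hKH
  have hKH0 : 0 < KH := by positivity
  set κw := (c * ⟪ν, n⟫_ℝ - s) ^ 2 + ‖tang ν n‖ ^ 2 with hκw
  have hκ0 : 0 ≤ κw := by (clear * -; positivity)
  have hth : th μ 1 0 = v * v := by
    rw [hv]
    unfold vv
    rw [Real.mul_self_sqrt]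
    exact integral_nonneg fun η => kk_nonneg1 _
  have hMo := Mo_eq_EE n s hv0
  have hE := EE_cmp hTH hd hC' hμ hn hν s c
  rw [← hMo, hth] at hE
  -- the bound by the density
  have hH : ∀ y : Sp (k + 1), ⟪ν, y⟫_ℝ = c → ‖y‖ ≤ Ct + 1 →
      UUm.EE μ (fun η => MO.ht ν c η ^ 2) 0 ≤ KH * (v * H y) := by
    intro z hz hzn
    have h1 := UUm.EE_harnack (μ := μ) (F := fun η => MO.ht ν c η ^ 2) (fun η => sq_nonneg _)
      (y := z) (y' := 0) (UUm.int_h2 hTH hd hC' hμ hν c z) (UUm.int_h2 hTH hd hC' hμ hν c 0)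
    have h2 : (1 + ‖z - 0‖) ^ (k + 1 + 4) ≤ (Ct + 2) ^ (k + 1 + 4) := by
      refine pow_le_pow_left₀ (by positivity) ?_ _
      rw [sub_zero]
      linarith
    have h3 := UUm.EE_le_XX hTH hd hC' hμ hC hT hβ ε hν (s := c) (y := z)
      (by rw [real_inner_comm]; exact hz)
    have h4 := UUm.EE_nonneg μ (F := fun η => MO.ht ν c η ^ 2) (fun η => sq_nonneg _) z
    have h5 : vv μ 1 z ≤ (Ct + 2) ^ (k + 1) * v := by
      have := vv_ball hTH hd hC' hμ (ρ := Ct + 1) (by linarith) hzn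
      rwa [show 1 + (Ct + 1) = Ct + 2 by ring] at this
    have hXX : XX β ε μ ν 1 z ≤ H z / c0 := by
      rw [le_div_iff₀ hc0]; linarith [hHX z]
    have h6 : UUm.T0 * UUm.EE μ (fun η => MO.ht ν c η ^ 2) z ≤
        4 ^ (k + 1 + 5) * Real.sqrt C * ((Ct + 2) ^ (k + 1) * v) * (H z / c0) := by
      refine h3.trans ?_
      have hXX0 : 0 ≤ H z / c0 := div_nonneg (hH0 z) hc0.le
      have hvz := (hT.vpos one_pos z).le
      calc 4 ^ (k + 1 + 5) * Real.sqrt C * vv μ 1 z * XX β ε μ ν 1 z ≤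
          4 ^ (k + 1 + 5) * Real.sqrt C * vv μ 1 z * (H z / c0) :=
            mul_le_mul_of_nonneg_left hXX (by (clear * - hC hvz; positivity))
        _ ≤ 4 ^ (k + 1 + 5) * Real.sqrt C * ((Ct + 2) ^ (k + 1) * v) * (H z / c0) := by (clear * - h5 hC hXX0; gcongr)
    have h7 : UUm.EE μ (fun η => MO.ht ν c η ^ 2) z ≤
        (4 ^ (k + 1 + 5) * Real.sqrt C * (Ct + 2) ^ (k + 1) / (c0 * UUm.T0)) * (v * H z) := by
      have e : (4 ^ (k + 1 + 5) * Real.sqrt C * (Ct + 2) ^ (k + 1) / (c0 * UUm.T0)) * (v * H z) =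
          (4 ^ (k + 1 + 5) * Real.sqrt C * ((Ct + 2) ^ (k + 1) * v) * (H z / c0)) / UUm.T0 := by
        field_simp
      rw [e, le_div_iff₀ hT0]
      linarith
    calc UUm.EE μ (fun η => MO.ht ν c η ^ 2) 0 ≤
          (1 + ‖z - 0‖) ^ (k + 1 + 4) * UUm.EE μ (fun η => MO.ht ν c η ^ 2) z := h1
      _ ≤ (Ct + 2) ^ (k + 1 + 4) *
          ((4 ^ (k + 1 + 5) * Real.sqrt C * (Ct + 2) ^ (k + 1) / (c0 * UUm.T0)) * (v * H z)) :=
          mul_le_mul h2 h7 h4 (by positivity)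
      _ = KH * (v * H z) := by rw [hKH]; ring
  -- the density and the weight
  have hlow := low (k := k) (n := n) hν s hc hR
  -- pointwise bound
  have hpt : ∀ y : Sp (k + 1), ⟪ν, y⟫_ℝ = c →
      Mo μ n s 2 1 0 * zR Ct y ≤
        (3 * KH) * (zR (2 * R0 - 1) y * H y) + (3 * κw * v) * zR Ct y := by
    intro y hy
    by_cases hyn : ‖y‖ ≤ Ct + 1
    · have h1 := hH y hy hyn
      have h2 : Mo μ n s 2 1 0 * v ≤ (3 * KH * H y + 3 * κw * v) * v := by
        calc Mo μ n s 2 1 0 * v ≤ 3 * UUm.EE μ (fun η => MO.ht ν c η ^ 2) 0 + 3 * κw * (v * v) := hE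
          _ ≤ 3 * (KH * (v * H y)) + 3 * κw * (v * v) := by linarith
          _ = _ := by ring
      have h3 : Mo μ n s 2 1 0 ≤ 3 * KH * H y + 3 * κw * v := le_of_mul_le_mul_right h2 hv0
      have h4 := mul_le_mul_of_nonneg_right h3 (UUm.zR_nonneg Ct y)
      have h5 : zR Ct y * H y ≤ zR (2 * R0 - 1) y * H y :=
        mul_le_mul_of_nonneg_right (zR_mono (by linarith) y) (hH0 y)
      have h6 := mul_le_mul_of_nonneg_left h5 (by positivity : 0 ≤ 3 * KH)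
      linarith
    · push Not at hyn
      rw [UUm.zR_zero hyn.le, mul_zero, mul_zero, add_zero]
      have := UUm.zR_nonneg (2 * R0 - 1) y
      have := hH0 y
      positivity
  have hFc : Continuous (fun y : Sp (k + 1) => zR (2 * R0 - 1) y * H y) :=
    (UUm.zR_cont _).mul hHc
  have hFs : HasCompactSupport (fun y : Sp (k + 1) => zR (2 * R0 - 1) y * H y) :=
    (UUm.zR_cs _).mul_right
  have hint := pl_mono (n := ν) (s := c) hν (F := fun y => Mo μ n s 2 1 0 * zR Ct y)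
    (G := fun y => (3 * KH) * (zR (2 * R0 - 1) y * H y) + (3 * κw * v) * zR Ct y)
    (continuous_const.mul (UUm.zR_cont _)) ((UUm.zR_cs _).mul_left)
    ((continuous_const.mul hFc).add (continuous_const.mul (UUm.zR_cont _)))
    ((hFs.mul_left).add ((UUm.zR_cs _).mul_left)) hpt
  rw [pl_smul, pl_lin hν hFc hFs (UUm.zR_cont _) (UUm.zR_cs _)] at hint
  refine hint.trans ?_
  have h1 : 3 * κw * v * plInt ν c (zR Ct : Sp (k + 1) → ℝ) ≤
      3 * Cz / UUm.vb k 1 * (v * plInt ν c (fun y => zR R0 y * hgt n s y ^ 2)) := by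
    have hCz0 : 0 ≤ plInt ν c (zR Ct : Sp (k + 1) → ℝ) := by
      unfold plInt
      exact integral_nonneg fun y => UUm.zR_nonneg _ _
    have h2 := hCz ν c hν
    calc 3 * κw * v * plInt ν c (zR Ct : Sp (k + 1) → ℝ) ≤ 3 * κw * v * Cz := by gcongr
      _ = 3 * Cz / UUm.vb k 1 * (v * (κw * UUm.vb k 1)) := by
          field_simp
      _ ≤ _ := by
          have h3 : 0 ≤ Cz := hCz0.trans h2
          (clear * - hlow hv0 h3 hvb; gcongr)
  linarith only [h1]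

end B4m

open SMm B2m _root_.TG.B4m

theorem stmtB4 (hUB : StmtUB) (hTH : StmtTH) (hPF : StmtPF) : StmtB4 := by
  intro d J0 hd hJ0 M C' ε p0 A c R0 Ct R2 hC' hε hε4 hF hR0 hCt hCtR hR2
  obtain ⟨k, rfl⟩ : ∃ k, d = k + 1 := ⟨d - 1, by omega⟩
  have hd1 : 1 ≤ k + 1 := by omega
  have hA := hF.A_ge
  have hR20 : (20 : ℝ) ≤ R0 := by
    have : (0 : ℝ) ≤ ((k + 1 : ℕ) : ℝ) := Nat.cast_nonneg _
    linarith
  obtain ⟨CT, hCT, hTd⟩ := MO.getTH hTH (k + 1) 0 hd C' hC'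
  obtain ⟨C2, hC2, hUB'⟩ := hUB (k + 1) 2 hd M C' ε p0 A hC' hε (by linarith) hF.p0_pos hF.p0_le hA
  obtain ⟨Cp, hCp, hpl⟩ := pl_bf hPF hd1 (2 * R0)
  obtain ⟨Nz, hNz, hz⟩ := sT_BF (G := Sp (k + 1)) 2 (R := 2 * R0 - 1) (by linarith)
  choose NT hNT hzT using fun J : ℕ => sT_BF (G := Sp (k + 1)) J (R := Ct) (by linarith)
  choose KQ hKQ1 hKQ using fun J : ℕ => zq_bf (d := k + 1) (R := R0) (by linarith only [hR0, hA]) J R2
  have hKQ0 : ∀ J, 0 < KQ J := fun J => lt_of_lt_of_le one_pos (hKQ1 J)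
  set V1 : ℝ := (1 + 2 * R0) ^ (k + 1) with hV1
  have hV1p : 0 < V1 := by positivity
  set K1 : ℝ := 4 * (Nz * (C2 * V1)) with hK1
  have hK1p : 0 < K1 := by positivity
  have hzTs : ∀ y : Sp (k + 1), Ct + 1 ≤ ‖y‖ → zR Ct y = 0 := fun y hy => UUm.zR_zero hy
  have hzTb : ∀ n : Sp (k + 1), ‖n‖ = 1 → BF 2 (Cp * NT 2) (fun s => plInt n s (zR Ct)) :=
    fun n hn => hpl n hn (zR Ct) _ (hzT 2) (fun y hy => hzTs y (by linarith))
  have hCz : ∀ (ν : Sp (k + 1)) (c : ℝ), ‖ν‖ = 1 → plInt ν c (zR Ct : Sp (k + 1) → ℝ) ≤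
      Cp * NT 2 := fun ν c hν => (le_abs_self _).trans ((hzTb ν hν).norm_le c)
  set CX : ℝ := 3 * ((Ct + 2) ^ (k + 1 + 4) * (4 ^ (k + 1 + 5) * Real.sqrt CT *
    (Ct + 2) ^ (k + 1)) / (c * UUm.T0)) with hCX
  set CY : ℝ := 3 * (Cp * NT 2) / UUm.vb k 1 with hCY
  have hcp := hF.c_pos
  have hT0 := UUm.T0_pos
  have hvb := UUm.vb_pos k one_pos
  have hsCT := Real.sqrt_pos.2 hCT
  have hNT2 := hNT 2
  have hCXp : 0 < CX := by positivity
  have hCYp : 0 < CY := by positivity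
  set CB : ℝ := CX + CY with hCB
  have hCBp : 0 < CB := by positivity
  set KM : ℝ := 2 * (1 + R2 ^ 2) with hKM
  have hKMp : 0 < KM := by positivity
  refine ⟨CB, hCBp, fun δ Rs hδ hRs => ⟨fun J => δ / (CB * KQ J + KM * NT J), fun J => ?_,
    fun R1 rm => ?_⟩⟩
  · have := hKQ0 J
    have := hNT J
    positivity
  set K2 : ℝ := CB * (Cp * K1) + (CB * (Cp * KQ 2) + KM * (Cp * NT 2)) with hK2
  have hK2p : 0 < K2 := by
    have := hKQ0 2
    (clear * - hCt hCT hcp hT0 hCp hNT2 hvb hNz hC2 hR20 this hR2; positivity)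
  refine ⟨rm * (4 * K2) + 1, by (clear * - hK2p; positivity), ?_⟩
  intro β hβ μ hμ m a D J r ν κ hm ha hD hZP hStr n s hn hs
  obtain ⟨-, -, -, -, -, -, -, -, -, hHn, -, -⟩ := hUB' β (PTm.kit_mono (by omega) hβ) μ hμ
  have hT := hTd μ hμ
  have hv0 : 0 < vv μ 1 0 := hT.vpos one_pos 0
  set v := vv μ 1 0 with hv
  have hth : th μ 1 0 = v * v := by
    rw [hv]
    unfold vv
    rw [Real.mul_self_sqrt]
    exact integral_nonneg fun η => kk_nonneg1 _
  -- the moment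
  have hMo := Mo_eq_EE n s hv0
  set Mn := Mo μ n s 2 1 0 with hMn
  have hMn0 : 0 ≤ Mn := by
    have h1 := UUm.EE_nonneg μ (F := fun η => MO.ht n s η ^ 2) (fun η => sq_nonneg _) 0
    rw [← hMo] at h1
    exact nonneg_of_mul_nonneg_left h1 hv0
  have hMn1 : Mn ≤ KM * v := by
    have h1 := EE_crude hTH hd hC' hμ hn hs
    rw [← hMo, hth] at h1
    refine le_of_mul_le_mul_right ?_ hv0
    calc Mn * v ≤ 2 * (1 + R2 ^ 2) * (v * v) := h1
      _ = _ := by rw [hKM]; ring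
  -- the gain density
  set F : Sp (k + 1) → Sp (k + 1) → ℝ := fun n x => zR (2 * R0 - 1) x * Hn β ε p0 A μ n 1 x with hFd
  have hH0 : ∀ n : Sp (k + 1), ‖n‖ = 1 → ∀ y, 0 ≤ Hn β ε p0 A μ n 1 y := by
    intro n hn y
    have h1 := hF.gain β hβ μ hμ n hn y
    have h2 : 0 ≤ XX β ε μ n 1 y := gain_nonneg hβ ε μ n y
    exact (mul_nonneg hF.c_pos.le h2).trans h1
  have hF0 : ∀ n : Sp (k + 1), ‖n‖ = 1 → ∀ y, 0 ≤ F n y := fun n hn y =>
    mul_nonneg (sT_nonneg _ _) (hH0 n hn y)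
  have hFs : ∀ n y, 2 * R0 ≤ ‖y‖ → F n y = 0 := by
    intro n y hy
    have : zR (2 * R0 - 1) y = 0 := sT_zero (by linarith)
    simp only [hFd, this, zero_mul]
  have hFb : ∀ n : Sp (k + 1), ‖n‖ = 1 → BF 2 (K1 * v) (F n) := by
    intro n hn
    have h1 := bf_cut (ρ := 2 * R0) hz (fun y hy => sT_zero (by linarith))
      ((hHn n hn).1.of_le (by norm_cast)) (B := C2 * (V1 * v)) (by positivity)
      (fun j hj y hy => ((hHn n hn).2 j hj y).trans
        (mul_le_mul_of_nonneg_left (vv_ball hTH hd hC' hμ (by linarith only [hR0, hA]) hy) hC2.le))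
    refine h1.mono (le_of_eq ?_)
    rw [hK1]
    ring
  set ψ : Sp (k + 1) → ℝ → ℝ := fun n s => plInt n s (F n) with hψ
  have hψ0 : ∀ n : Sp (k + 1), ‖n‖ = 1 → ∀ s, 0 ≤ ψ n s := fun n hn s =>
    integral_nonneg fun y => hF0 n hn _
  have hψb : ∀ n : Sp (k + 1), ‖n‖ = 1 → BF 2 (Cp * (K1 * v)) (ψ n) := fun n hn =>
    hpl n hn (F n) _ (hFb n hn) (hFs n)
  have hψs : ∀ n : Sp (k + 1), ‖n‖ = 1 → ∀ s, Rs ≤ |s| → ψ n s = 0 := fun n hn s hs =>
    pl_zero hn (hFs n) (hRs.trans hs)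
  -- the weight
  set ζ : Sp (k + 1) → ℝ := fun y => zR R0 y * hgt n s y ^ 2 with hζ
  have hζT : ∀ J, BF J (KQ J) ζ := fun J => hKQ J n s hn hs
  have hζ0 : ∀ y, 0 ≤ ζ y := fun y => mul_nonneg (sT_nonneg _ _) (sq_nonneg _)
  have hζs : ∀ y, R0 + 1 ≤ ‖y‖ → ζ y = 0 := by
    intro y hy
    have : zR R0 y = 0 := sT_zero hy
    simp only [hζ, this, zero_mul]
  have hζb : ∀ n : Sp (k + 1), ‖n‖ = 1 → BF 2 (Cp * KQ 2) (fun s => plInt n s ζ) := fun n hn =>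
    hpl n hn ζ _ (hζT 2) (fun y hy => hζs y (by linarith))
  have hζz : ∀ n : Sp (k + 1), ‖n‖ = 1 → ∀ s, Rs ≤ |s| → plInt n s ζ = 0 := fun n hn s hs =>
    pl_zero hn hζs (by linarith)
  have hTz : ∀ n : Sp (k + 1), ‖n‖ = 1 → ∀ s, Ct + 1 ≤ |s| → plInt n s (zR Ct) = 0 :=
    fun n hn s hs => pl_zero hn hzTs hs
  -- comparison on planes
  have hcmp : ∀ (n' : Sp (k + 1)) (c' : ℝ), ‖n'‖ = 1 →
      0 ≤ CB * ψ n' c' + (CB * v * plInt n' c' ζ + (-Mn) * plInt n' c' (zR Ct)) := by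
    intro n' c' hn'
    have hz0 : 0 ≤ plInt n' c' ζ := integral_nonneg fun y => hζ0 _
    have hp0 := hψ0 n' hn' c'
    rcases le_total |c'| (Ct + 1) with hc | hc
    · have h1 := cmp hTH hd hC' hCT hcp (by linarith) (by linarith : Ct + 4 ≤ R0) hCz hμ hT hβ
        (ε := ε) hn' (H := Hn β ε p0 A μ n' 1) (hHn n' hn').1.continuous (hH0 n' hn')
        (fun y => hF.gain β hβ μ hμ n' hn' y) hn s c' hc
      have h2 : CX * ψ n' c' ≤ CB * ψ n' c' := mul_le_mul_of_nonneg_right (by linarith only [hCYp]) hp0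
      have h3 : CY * (v * plInt n' c' ζ) ≤ CB * (v * plInt n' c' ζ) :=
        mul_le_mul_of_nonneg_right (by linarith) (mul_nonneg hv0.le hz0)
      have h4 : Mn * plInt n' c' (zR Ct) ≤ CX * ψ n' c' + CY * (v * plInt n' c' ζ) := h1
      linarith only [h1, h2, h3]
    · rw [hTz n' hn' c' hc, mul_zero, add_zero]
      (clear * - hCt hCT hcp hT0 hCp hNT2 hvb hp0 hv0 hz0; positivity)
  -- the pieces
  have hpc : pieces m ν κ F = ∑ i, ∫ y, m y * (κ i y * ψ (ν i) ⟪ν i, y⟫_ℝ) := rfl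
  have hrm : (r : ℝ) ≤ rm := by exact_mod_cast hStr.rle
  have hκc : ∀ i, Continuous (κ i) := fun i => (hStr.kb i).smooth.continuous
  have hpi : ∀ i : Fin r, Mn * (∫ y, m y * (κ i y * plInt (ν i) ⟪ν i, y⟫_ℝ (zR Ct))) ≤
      CB * (∫ y, m y * (κ i y * ψ (ν i) ⟪ν i, y⟫_ℝ)) +
        CB * v * (∫ y, m y * (κ i y * plInt (ν i) ⟪ν i, y⟫_ℝ ζ)) + 4 * K2 * (v * D) := by
    intro i
    have hni := hStr.n1 i
    have hgb : BF 2 (K2 * v) (fun s => CB * ψ (ν i) s +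
        (CB * v * plInt (ν i) s ζ + (-Mn) * plInt (ν i) s (zR Ct))) := by
      refine (((hψb _ hni).const_mul CB).add
        (((hζb _ hni).const_mul (CB * v)).add ((hzTb _ hni).const_mul (-Mn)))).mono ?_
      rw [abs_of_pos hCBp, abs_of_pos (by positivity : 0 < CB * v), abs_neg, abs_of_nonneg hMn0,
        hK2]
      have h1 : Mn * (Cp * NT 2) ≤ KM * v * (Cp * NT 2) :=
        mul_le_mul_of_nonneg_right hMn1 (by positivity)
      linarith only [h1]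
    have h1 := zp_use hZP (K := 4 * (K2 * v)) (by (clear * - hK2p hv0; positivity))
      (piece_bf hni (hStr.kb i) hgb)
      (fun y => mul_nonneg (hStr.k0 i y) (hcmp _ _ hni))
      (piece_zero hni (hStr.ks i) (g := fun s => CB * ψ (ν i) s +
        (CB * v * plInt (ν i) s ζ + (-Mn) * plInt (ν i) s (zR Ct))) (fun s hs => by
          rw [hψs _ hni s hs, hζz _ hni s hs, hTz _ hni s (by linarith)]
          ring))
    rw [piece_lin hni hm (hκc i) (hStr.ks i) (hψb _ hni).smooth.continuous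
      (hζb _ hni).smooth.continuous (hzTb _ hni).smooth.continuous (hψs _ hni) (hζz _ hni)
      (fun s hs => hTz _ hni s (by linarith))] at h1
    have h3 : 4 * (K2 * v) * D = 4 * K2 * (v * D) := by ring
    rw [h3] at h1
    linarith only [h1]
  have hsum : Mn * (∑ i, ∫ y, m y * (κ i y * plInt (ν i) ⟪ν i, y⟫_ℝ (zR Ct))) ≤
      CB * pieces m ν κ F + CB * v * (∑ i, ∫ y, m y * (κ i y * plInt (ν i) ⟪ν i, y⟫_ℝ ζ)) +
        rm * (4 * K2) * (v * D) := by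
    rw [hpc, Finset.mul_sum, Finset.mul_sum, Finset.mul_sum]
    refine (Finset.sum_le_sum fun i _ => hpi i).trans ?_
    rw [Finset.sum_add_distrib, Finset.sum_add_distrib, Finset.sum_const, Finset.card_univ,
      Fintype.card_fin, nsmul_eq_mul]
    have h3 : 0 ≤ 4 * K2 * (v * D) := by (clear * - hK2p hv0 hD; positivity)
    have h4 := mul_le_mul_of_nonneg_right hrm h3
    linarith only [h4]
  -- the structure theorem
  have hKJ := hKQ0 J
  have hNJ := hNT J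
  set tol : ℝ := δ / (CB * KQ J + KM * NT J) with htol
  have htol0 : 0 < tol := by (clear * - hδ hCt hCT hcp hT0 hCp hNT2 hvb hKJ hR2 hNJ; positivity)
  have hestζ := hStr.est ζ (KQ J) ⟨(hζT J).smooth, (hζT J).bd⟩ (fun y hy => hζs y (by linarith))
  have hestT := hStr.est (zR Ct) (NT J) ⟨(hzT J).smooth, (hzT J).bd⟩
    (fun y hy => hzTs y (by linarith only [hCtR, hR0, hA, hRs, hy]))
  have e1 := (abs_le.1 hestT).2
  have e2 := (abs_le.1 hestζ).1
  have e3 : Mn * (∫ y, m y * zR Ct y) ≤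
      Mn * (∑ i, ∫ y, m y * (κ i y * plInt (ν i) ⟪ν i, y⟫_ℝ (zR Ct))) +
        KM * v * (tol * a * NT J) := by
    have h1 : (∫ y, m y * zR Ct y) ≤
        (∑ i, ∫ y, m y * (κ i y * plInt (ν i) ⟪ν i, y⟫_ℝ (zR Ct))) + tol * a * NT J := by
      linarith only [e1]
    have h2 := mul_le_mul_of_nonneg_left h1 hMn0
    have h3 : Mn * (tol * a * NT J) ≤ KM * v * (tol * a * NT J) :=
      mul_le_mul_of_nonneg_right hMn1 (by (clear * - hδ hCt hCT hcp hT0 hCp hNT2 hvb hKJ hR2 hNJ ha; positivity))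
    linarith only [h2, h3]
  have e4 : CB * v * (∑ i, ∫ y, m y * (κ i y * plInt (ν i) ⟪ν i, y⟫_ℝ ζ)) ≤
      CB * v * (∫ y, m y * ζ y) + CB * v * (tol * a * KQ J) := by
    have h1 : (∑ i, ∫ y, m y * (κ i y * plInt (ν i) ⟪ν i, y⟫_ℝ ζ)) ≤
        (∫ y, m y * ζ y) + tol * a * KQ J := by
      linarith only [e2]
    have h2 := mul_le_mul_of_nonneg_left h1 (by positivity : 0 ≤ CB * v)
    linarith only [h2]
  have e5 : KM * v * (tol * a * NT J) + CB * v * (tol * a * KQ J) = δ * a * v := by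
    have : tol * (CB * KQ J + KM * NT J) = δ := by
      rw [htol]
      field_simp
    rw [← this]
    ring
  have hvD : 0 ≤ v * D := by positivity
  have e6 : (rm * (4 * K2) + 1) * v * D = rm * (4 * K2) * (v * D) + v * D := by ring
  have e7 : pieces m ν κ (fun n x => zR (2 * R0 - 1) x * Hn β ε p0 A μ n 1 x) =
      pieces m ν κ F := rfl
  rw [e6, e7, mul_comm]
  linarith only [hsum, e3, e4, e5, hvD]

end

end TG


end

section

/-!
# MODULE CT2: packing for the minimising directions, in the form of cs; boundedness (helper3)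
-/

set_option autoImplicit false

open MeasureTheory Metric Set TrI
open scoped InnerProductSpace ContDiff ENNReal

namespace TG

noncomputable section

variable {d : ℕ} {E : Type} [NormedAddCommGroup E] [InnerProductSpace ℝ E]

namespace CT2

/-- majorant of the densities in DD -/
def gI (b : Sp d → ℝ) (ε s0 : ℝ) (f : Sp d → E) (i : ℕ) (y : Sp d) : ℝ :=
  ∑ l ∈ Finset.range (i + 1), (1 / 4 : ℝ) ^ (i - l) * (2 * ‖fl b ε s0 f l y‖) +
    (1 / 4 : ℝ) ^ i * ‖f y‖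

lemma gI_nonneg (b : Sp d → ℝ) (ε s0 : ℝ) (f : Sp d → E) (i : ℕ) (y : Sp d) :
    0 ≤ gI b ε s0 f i y := by
  unfold gI
  positivity

variable [FiniteDimensional ℝ E]

lemma fl_int {b : Sp d → ℝ} (hak : AK b) (ε s0 : ℝ) {f : Sp d → E} (hf : Continuous f)
    (hfc : HasCompactSupport f) (l : ℕ) : Integrable (fun y => ‖fl b ε s0 f l y‖) :=
  (fl_cont hak ε s0 hf l).norm.integrable_of_hasCompactSupport (fl_cs hak ε s0 hfc l).norm

lemma gI_int {b : Sp d → ℝ} (hak : AK b) (ε s0 : ℝ) {f : Sp d → E} (hf : Continuous f)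
    (hfc : HasCompactSupport f) (i : ℕ) : Integrable (gI b ε s0 f i) := by
  unfold gI
  refine (integrable_finsetSum _ fun l _ => ?_).add ?_
  · exact ((fl_int hak ε s0 hf hfc l).const_mul 2).const_mul _
  · exact (hf.norm.integrable_of_hasCompactSupport hfc.norm).const_mul _

lemma geo_le (i : ℕ) : ∑ l ∈ Finset.range (i + 1), (1 / 4 : ℝ) ^ (i - l) ≤ 4 / 3 := by
  induction i with
  | zero => norm_num
  | succ i ih =>
    rw [Finset.sum_range_succ]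
    have h1 : ∑ l ∈ Finset.range (i + 1), (1 / 4 : ℝ) ^ (i + 1 - l) =
        1 / 4 * ∑ l ∈ Finset.range (i + 1), (1 / 4 : ℝ) ^ (i - l) := by
      rw [Finset.mul_sum]
      refine Finset.sum_congr rfl fun l hl => ?_
      rw [Finset.mem_range] at hl
      rw [show i + 1 - l = (i - l) + 1 by omega, pow_succ]
      ring
    rw [h1, Nat.sub_self, pow_zero]
    linarith

lemma gI_int_le {b : Sp d → ℝ} (hak : AK b) (ε s0 : ℝ) {f : Sp d → E} (hf : Continuous f)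
    (hfc : HasCompactSupport f) (i : ℕ) : ∫ y, gI b ε s0 f i y ≤ 4 * ∫ y, ‖f y‖ := by
  have ha : ∀ l, ∫ y, ‖fl b ε s0 f l y‖ ≤ ∫ y, ‖f y‖ := by
    intro l
    have := fl_norm_int_le hak ε s0 hf hfc 0 l
    rw [zero_add] at this
    exact this
  have ha0 : 0 ≤ ∫ y, ‖f y‖ := integral_nonneg fun _ => norm_nonneg _
  unfold gI
  rw [integral_add (integrable_finsetSum _ fun l _ =>
      ((fl_int hak ε s0 hf hfc l).const_mul 2).const_mul _)
    ((hf.norm.integrable_of_hasCompactSupport hfc.norm).const_mul _),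
    integral_finsetSum _ fun l _ => ((fl_int hak ε s0 hf hfc l).const_mul 2).const_mul _]
  have h1 : ∑ l ∈ Finset.range (i + 1), ∫ y, (1 / 4 : ℝ) ^ (i - l) * (2 * ‖fl b ε s0 f l y‖) ≤
      ∑ l ∈ Finset.range (i + 1), (1 / 4 : ℝ) ^ (i - l) * (2 * ∫ y, ‖f y‖) := by
    refine Finset.sum_le_sum fun l _ => ?_
    rw [integral_const_mul, integral_const_mul]
    refine mul_le_mul_of_nonneg_left ?_ (by positivity)
    linarith [ha l]
  rw [← Finset.sum_mul] at h1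
  have h2 := mul_le_mul_of_nonneg_right (geo_le i) (show 0 ≤ 2 * ∫ y, ‖f y‖ by linarith)
  rw [integral_const_mul]
  have h3 : (1 / 4 : ℝ) ^ i ≤ 1 := pow_le_one₀ (by norm_num) (by norm_num)
  have h4 := mul_le_mul_of_nonneg_right h3 ha0
  linarith

lemma DD_nn {b : Sp d → ℝ} (ε R : ℝ) {s0 : ℝ} (hs0 : 0 < s0) (f : Sp d → E) (i : ℕ) (x : Sp d)
    {e : E} (he : ‖e‖ = 1) : 0 ≤ DD b ε R s0 f i x e := by
  unfold DD
  have hs := lev_pos hs0 i
  refine mul_nonneg (by positivity) (add_nonneg (Finset.sum_nonneg fun l _ => ?_) ?_)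
  · refine mul_nonneg (by positivity) (integral_nonneg fun y => ?_)
    have := MA.inner_le he (fl b ε s0 f l y)
    show 0 ≤ ‖fl b ε s0 f l y‖ - ⟪fl b ε s0 f l y, e⟫_ℝ
    linarith
  · exact mul_nonneg (by positivity) (integral_nonneg fun y => norm_nonneg _)

lemma DD_le {b : Sp d → ℝ} (hak : AK b) (ε R : ℝ) {s0 : ℝ} (hs0 : 0 < s0) {f : Sp d → E}
    (hf : Continuous f) (hfc : HasCompactSupport f) (i : ℕ) (x : Sp d)
    {e : E} (he : ‖e‖ = 1) : DD b ε R s0 f i x e ≤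
      lev s0 i / lev s0 i ^ d * ∫ y in ball x (R * lev s0 i), gI b ε s0 f i y := by
  unfold DD
  have hs := lev_pos hs0 i
  refine mul_le_mul_of_nonneg_left ?_ (by positivity)
  unfold gI
  rw [integral_add (integrable_finsetSum _ fun l _ =>
      (((fl_int hak ε s0 hf hfc l).const_mul 2).const_mul _).integrableOn)
    ((hf.norm.integrable_of_hasCompactSupport hfc.norm).const_mul _).integrableOn,
    integral_finsetSum _ fun l _ =>
      (((fl_int hak ε s0 hf hfc l).const_mul 2).const_mul _).integrableOn]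
  refine add_le_add (Finset.sum_le_sum fun l _ => ?_) (le_of_eq ?_)
  · rw [integral_const_mul]
    refine mul_le_mul_of_nonneg_left ?_ (by positivity)
    have hc := fl_cont hak ε s0 hf l
    have hcs := fl_cs hak ε s0 hfc l
    refine integral_mono ?_ ((fl_int hak ε s0 hf hfc l).const_mul 2).integrableOn fun y => ?_
    · exact ((MA.dfn_cont hc e).integrable_of_hasCompactSupport (MA.dfn_cs hcs e)).integrableOn
    · have := MA.abs_inner_le he (fl b ε s0 f l y)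
      have h2 := neg_abs_le ⟪fl b ε s0 f l y, e⟫_ℝ
      show ‖fl b ε s0 f l y‖ - ⟪fl b ε s0 f l y, e⟫_ℝ ≤ 2 * ‖fl b ε s0 f l y‖
      linarith
  · rw [integral_const_mul]

lemma summ {b : Sp d → ℝ} (hd : 1 ≤ d) (hak : AK b) (ε : ℝ) {R : ℝ} (hR : 1 ≤ R) {s0 : ℝ}
    (hs0 : 0 < s0) {f : Sp d → E} (hf : Continuous f) (hfc : HasCompactSupport f) (i : ℕ)
    {e : (Fin d → ℤ) → E} (he : ∀ p, ‖e p‖ = 1) :
    Summable fun p : Fin d → ℤ => lev s0 i ^ (d - 1) * DD b ε R s0 f i (cen s0 i p) (e p) := by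
  have hs := lev_pos hs0 i
  refine summable_of_sum_le (c := (2 * R + 1) ^ d * ∫ y, gI b ε s0 f i y)
    (fun p => mul_nonneg (by positivity) (DD_nn ε R hs0 f i _ (he p))) fun S => ?_
  refine le_trans (Finset.sum_le_sum fun p _ => ?_)
    (PK.overlap (lev s0 i) R hs (by linarith) S (gI_int hak ε s0 hf hfc i)
      (gI_nonneg b ε s0 f i))
  refine (mul_le_mul_of_nonneg_left (DD_le hak ε R hs0 hf hfc i _ (he p))
    (by positivity)).trans (le_of_eq ?_)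
  rw [← mul_assoc]
  have : lev s0 i ^ (d - 1) * (lev s0 i / lev s0 i ^ d) = 1 := by
    obtain ⟨k, rfl⟩ : ∃ k, d = k + 1 := ⟨d - 1, by omega⟩
    rw [Nat.add_sub_cancel, pow_succ]
    field_simp
  rw [this, one_mul]
  rfl

end CT2

theorem stmtCT2 (h : StmtPK) : StmtCT2 := by
  intro d hd M c0 ε R hε hε1 hR b hb
  obtain ⟨C, hC, hP⟩ := h d hd M c0 ε R hε hε1 hR b hb
  refine ⟨C, hC, fun E _ _ _ _ f hf hfc s0 hs0 e he => ⟨?_, ?_, ?_⟩⟩
  · intro Q
    exact CT2.DD_nn ε R hs0 f Q.1 _ (he.unit Q)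
  · refine ⟨1 / s0 ^ (d - 1) * (4 * ∫ y, ‖f y‖), fun Q => ?_⟩
    have hs := lev_pos hs0 Q.1
    have h0 : 0 ≤ ∫ y, ‖f y‖ := integral_nonneg fun _ => norm_nonneg _
    refine (CT2.DD_le hb.ak ε R hs0 hf hfc Q.1 _ (he.unit Q)).trans ?_
    have h1 : lev s0 Q.1 / lev s0 Q.1 ^ d ≤ 1 / s0 ^ (d - 1) := by
      obtain ⟨k, rfl⟩ : ∃ k, d = k + 1 := ⟨d - 1, by omega⟩
      rw [Nat.add_sub_cancel, pow_succ]
      have e1 : lev s0 Q.1 / (lev s0 Q.1 ^ k * lev s0 Q.1) = 1 / lev s0 Q.1 ^ k := by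
        field_simp
      rw [e1]
      have h2 : s0 ≤ lev s0 Q.1 := by
        unfold lev
        have : (1 : ℝ) ≤ 2 ^ Q.1 := one_le_pow₀ (by norm_num)
        nlinarith
      exact one_div_le_one_div_of_le (by positivity) (pow_le_pow_left₀ hs0.le h2 k)
    have h3 : ∫ y in ball (xC s0 Q) (R * lev s0 Q.1), CT2.gI b ε s0 f Q.1 y ≤
        4 * ∫ y, ‖f y‖ :=
      (setIntegral_le_integral (CT2.gI_int hb.ak ε s0 hf hfc Q.1)
        (Filter.Eventually.of_forall (CT2.gI_nonneg b ε s0 f Q.1))).trans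
        (CT2.gI_int_le hb.ak ε s0 hf hfc Q.1)
    have h4 : 0 ≤ ∫ y in ball (xC s0 Q) (R * lev s0 Q.1), CT2.gI b ε s0 f Q.1 y :=
      integral_nonneg (CT2.gI_nonneg b ε s0 f Q.1)
    exact mul_le_mul h1 h3 h4 (by positivity)
  · obtain ⟨e', he', hle⟩ := hP E f hf hfc s0 hs0
    have hcs : cs univ (fun Q : Cell d => cw s0 Q * dC b ε R s0 f e Q) =
        ∑' i : ℕ, ∑' p : Fin d → ℤ,
          ENNReal.ofReal (cw s0 (i, p) * dC b ε R s0 f e (i, p)) := by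
      unfold cs
      rw [← ENNReal.tsum_prod]
      refine tsum_congr fun Q => ?_
      rw [Set.indicator_univ]
    rw [hcs]
    have hlev : ∀ i : ℕ, ∑' p : Fin d → ℤ,
        ENNReal.ofReal (cw s0 (i, p) * dC b ε R s0 f e (i, p)) ≤
        ENNReal.ofReal (∑' p : Fin d → ℤ,
          lev s0 i ^ (d - 1) * DD b ε R s0 f i (cen s0 i p) (e' i p)) := by
      intro i
      have hs := lev_pos hs0 i
      have s1 := CT2.summ hd hb.ak ε hR hs0 hf hfc i (e := fun p => e (i, p))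
        (fun p => he.unit (i, p))
      have s2 := CT2.summ hd hb.ak ε hR hs0 hf hfc i (e := fun p => e' i p) (fun p => he' i p)
      have e1 : ∑' p : Fin d → ℤ, ENNReal.ofReal (cw s0 (i, p) * dC b ε R s0 f e (i, p)) =
          ENNReal.ofReal (∑' p : Fin d → ℤ,
            lev s0 i ^ (d - 1) * DD b ε R s0 f i (cen s0 i p) (e (i, p))) :=
        (ENNReal.ofReal_tsum_of_nonneg (fun p => mul_nonneg (by positivity)
          (CT2.DD_nn ε R hs0 f i _ (he.unit (i, p)))) s1).symm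
      rw [e1]
      refine ENNReal.ofReal_le_ofReal (s1.tsum_le_tsum (fun p => ?_) s2)
      exact mul_le_mul_of_nonneg_left (he.min (i, p) (e' i p) (he' i p)) (by positivity)
    refine (ENNReal.tsum_le_tsum hlev).trans ?_
    refine ENNReal.tsum_le_of_sum_range_le fun I => ?_
    rw [← ENNReal.ofReal_sum_of_nonneg]
    · exact ENNReal.ofReal_le_ofReal (hle I)
    · intro i _
      have hs := lev_pos hs0 i
      exact tsum_nonneg fun p => mul_nonneg (by positivity) (CT2.DD_nn ε R hs0 f i _ (he' i p))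

end

end TG


end
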