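import Mathlib
import Pool.Agent.TRM.C01
import Pool.Agent.TRM.C02
import Pool.Agent.TRM.C04
import Pool.Agent.TRM.C05
import Pool.Agent.TRM.C15
import Pool.Agent.TRM.C24

/-! Parts: TG.CF, TG.B0, TG.DI, TG.DV, TG.WBA, TG.WBb1, TG.WBb2 -/

section

/-!
# Trace inequality, general operators: module CF, from the main estimate to the theorem
-/

open MeasureTheory Metric Set TrI
open scoped InnerProductSpace ContDiff ENNReal

namespace TG

noncomputable section

namespace CF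

variable {d : ℕ}

/-- the cell of level i containing x -/
def cl (s0 : ℝ) (i : ℕ) (x : Sp d) : Fin d → ℤ := fun j => ⌊x j / lev s0 i⌋

lemma lev_pos {s0 : ℝ} (h : 0 < s0) (i : ℕ) : 0 < lev s0 i := by
  unfold lev
  positivity

lemma xC_apply (s0 : ℝ) (i : ℕ) (p : Fin d → ℤ) (j : Fin d) :
    xC s0 (i, p) j = lev s0 i * (p j : ℝ) := by
  simp [xC, cen, lat]

lemma near {s0 : ℝ} (h : 0 < s0) (i : ℕ) (x : Sp d) :
    ‖xC s0 (i, cl s0 i x) - x‖ ≤ Real.sqrt d * lev s0 i := by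
  have h1 := lev_pos h i
  have h2 : ∀ j : Fin d, |xC s0 (i, cl s0 i x) j - x j| ≤ lev s0 i := by
    intro j
    rw [xC_apply]
    have h3 : ((cl s0 i x j : ℤ) : ℝ) ≤ x j / lev s0 i := Int.floor_le _
    have h4 : x j / lev s0 i < ((cl s0 i x j : ℤ) : ℝ) + 1 := Int.lt_floor_add_one _
    rw [le_div_iff₀ h1] at h3
    rw [div_lt_iff₀ h1] at h4
    rw [abs_le]
    constructor <;> nlinarith
  rw [EuclideanSpace.norm_eq]
  rw [← Real.sqrt_sq h1.le, ← Real.sqrt_mul (by positivity)]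
  refine Real.sqrt_le_sqrt ?_
  calc ∑ j : Fin d, ‖(xC s0 (i, cl s0 i x) - x) j‖ ^ 2 ≤ ∑ _j : Fin d, lev s0 i ^ 2 := by
        refine Finset.sum_le_sum fun j _ => ?_
        have := h2 j
        rw [PiLp.sub_apply, Real.norm_eq_abs]
        exact pow_le_pow_left₀ (abs_nonneg _) this 2
    _ = d * lev s0 i ^ 2 := by simp

lemma cl_meas (s0 : ℝ) (i : ℕ) : Measurable (cl s0 i : Sp d → Fin d → ℤ) := by
  unfold cl
  refine measurable_pi_lambda _ fun j => ?_
  refine Int.measurable_floor.comp ?_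
  have : Measurable fun x : Sp d => x j := by fun_prop
  exact this.div_const _

lemma DDn {E : Type} [NormedAddCommGroup E] [InnerProductSpace ℝ E] (b : Sp d → ℝ) (ε R : ℝ)
    {s0 : ℝ} (hs : 0 < s0) (f : Sp d → E) (i : ℕ)
    (x : Sp d) {e : E} (he : ‖e‖ = 1) : 0 ≤ DD b ε R s0 f i x e := by
  unfold DD
  have h1 : 0 < lev s0 i := lev_pos hs i
  refine mul_nonneg (by positivity) (add_nonneg (Finset.sum_nonneg fun l _ => ?_) ?_)
  · refine mul_nonneg (by positivity) (integral_nonneg fun y => ?_)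
    have h2 := (abs_le.1 (abs_real_inner_le_norm (fl b ε s0 f l y) e)).2
    rw [he, mul_one] at h2
    simp only [Pi.zero_apply]
    linarith
  · exact mul_nonneg (by positivity) (integral_nonneg fun y => norm_nonneg _)

lemma oC_sq {μ : Measure (Sp d)} {ρ s0 : ℝ} (hs : 0 < s0) (Q : Cell d) (hd : 1 ≤ d) :
    cw s0 Q * oC μ ρ s0 Q ^ 2 = (μ (ball (xC s0 Q) (ρ * lev s0 Q.1))).toReal := by
  have h1 := lev_pos hs Q.1
  have h2 : 0 ≤ nw s0 Q := by
    unfold nw
    positivity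
  rw [oC, Real.sq_sqrt (mul_nonneg h2 ENNReal.toReal_nonneg), ← mul_assoc]
  have h3 : cw s0 Q * nw s0 Q = 1 := by
    unfold cw nw
    obtain ⟨k, rfl⟩ : ∃ k, d = k + 1 := ⟨d - 1, by omega⟩
    rw [Nat.add_sub_cancel, mul_div_assoc', ← pow_succ]
    exact div_self (by positivity)
  rw [h3, one_mul]

lemma oC_le {μ : Measure (Sp d)} {C' ρ s0 : ℝ} (hC' : 0 < C') (hμ : Gro C' μ) (hs : 0 < s0)
    (hρ : 0 < ρ) (Q : Cell d) (hd : 1 ≤ d) :
    oC μ ρ s0 Q ≤ Real.sqrt (C' * ρ ^ (d - 1)) := by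
  have h1 := lev_pos hs Q.1
  unfold oC
  refine Real.sqrt_le_sqrt ?_
  have h2 : (μ (ball (xC s0 Q) (ρ * lev s0 Q.1))).toReal ≤ C' * (ρ * lev s0 Q.1) ^ (d - 1) := by
    refine ENNReal.toReal_le_of_le_ofReal (by positivity) (hμ.gro _ _ (by positivity))
  have h3 : 0 ≤ nw s0 Q := by
    unfold nw
    positivity
  refine (mul_le_mul_of_nonneg_left h2 h3).trans (le_of_eq ?_)
  unfold nw
  obtain ⟨k, rfl⟩ : ∃ k, d = k + 1 := ⟨d - 1, by omega⟩
  rw [Nat.add_sub_cancel, mul_pow]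
  field_simp
  ring

/-- integration of a function of the cell -/
lemma int_cell (μ : Measure (Sp d)) (s0 : ℝ) (i : ℕ) (g : (Fin d → ℤ) → ℝ≥0∞) :
    ∫⁻ x, g (cl s0 i x) ∂μ = ∑' p, g p * μ (cl s0 i ⁻¹' {p}) := by
  have h1 : ∫⁻ x, g (cl s0 i x) ∂μ = ∫⁻ p, g p ∂(μ.map (cl s0 i)) :=
    (lintegral_map (measurable_of_countable g) (cl_meas s0 i)).symm
  rw [h1, lintegral_countable']
  refine tsum_congr fun p => ?_
  rw [Measure.map_apply (cl_meas s0 i) (measurableSet_singleton p)]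

lemma cube_le {μ : Measure (Sp d)} [IsFiniteMeasure μ] {ρ s0 : ℝ} (hs : 0 < s0)
    (hρ : (d : ℝ) + 1 ≤ ρ) (hd : 1 ≤ d) (i : ℕ) (p : Fin d → ℤ) :
    μ (cl s0 i ⁻¹' {p}) ≤ ENNReal.ofReal (cw s0 (i, p) * oC μ ρ s0 (i, p) ^ 2) := by
  rw [oC_sq hs (i, p) hd, ENNReal.ofReal_toReal (measure_ne_top _ _)]
  refine measure_mono fun x hx => ?_
  have hx' : cl s0 i x = p := hx
  have h1 := near hs i x
  rw [hx'] at h1
  have h2 := lev_pos hs i
  rw [mem_ball, dist_comm, dist_eq_norm]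
  refine h1.trans_lt ?_
  refine mul_lt_mul_of_pos_right (lt_of_lt_of_le ?_ hρ) h2
  have h3 : Real.sqrt d ≤ d := by
    have h4 : (1 : ℝ) ≤ d := by exact_mod_cast hd
    rw [Real.sqrt_le_left (by positivity)]
    nlinarith
  linarith

end CF

open _root_.TG.CF in
theorem stmtCF : StmtCF := by
  intro hCO hMain d V E _ _ _ _ _ _ L hd hL C' hC'
  have hd1 : 1 ≤ d := by omega
  rcases subsingleton_or_nontrivial E with hE | hE
  · -- V is trivial
    refine ⟨1, one_pos, fun μ _ u _ => ?_⟩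
    have hV : ∀ v : V, v = 0 := by
      intro v
      have hξ : (EuclideanSpace.single (⟨0, by omega⟩ : Fin d) (1 : ℝ)) ≠ 0 := by
        intro h
        have := congrArg norm h
        simp at this
      exact (hL _ 0 (Or.inl hξ) v 0 (Subsingleton.elim _ _) (Subsingleton.elim _ _)).1
    have : ∫⁻ x, ‖u x‖ₑ ∂μ = 0 := by
      simp [hV (u _)]
    rw [this]
    exact bot_le
  obtain ⟨M, c0, ε, R0, R, ρ, Cm, b, hb, hε, hε1, hR0, hR, hρ, hCm, hm⟩ :=
    hMain d V E L hd hL C' hC'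
  obtain ⟨C1, hC1, hco⟩ := hCO d V E L hd hL M c0 ε hε hε1 b hb R0 hR0
  have hρ0 : 0 < ρ := by
    have : (0 : ℝ) ≤ d := by positivity
    linarith
  set K : ℝ := Real.sqrt (C' * ρ ^ (d - 1)) with hK
  have hK0 : 0 < K := Real.sqrt_pos.2 (by positivity)
  refine ⟨C1 * (K * Cm), by positivity, fun μ hμ u hu => ?_⟩
  have := hμ.fin
  obtain ⟨Cu, hCu, hcu⟩ := hco R hR u hu
  set I : ℝ≥0∞ := ∫⁻ x, ‖fo L u x‖ₑ with hI
  -- integrability of fo L u
  have hfo : Integrable (fo L u) := by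
    refine Continuous.integrable_of_hasCompactSupport ?_ ?_
    · unfold fo
      exact L.continuous.comp (hu.smooth.continuous_fderiv (by simp))
    · unfold fo
      exact (hu.supp.fderiv (𝕜 := ℝ)).comp_left (g := fun T => L T) (map_zero L)
  have hI2 : ENNReal.ofReal (Cm * ∫ y, ‖fo L u y‖) = ENNReal.ofReal Cm * I := by
    rw [ENNReal.ofReal_mul hCm.le, hI, ofReal_integral_norm_eq_lintegral_enorm hfo]
  -- the estimate for fixed s0
  have key : ∀ s0 : ℝ, 0 < s0 → s0 ≤ 1 →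
      ∫⁻ x, ‖u x‖ₑ ∂μ ≤ ENNReal.ofReal (C1 * (K * Cm)) * I + ENNReal.ofReal (Cu * s0) * μ univ := by
    intro s0 hs0 hs1
    obtain ⟨e, ν, c, he, hν, hloc, hsum⟩ := hm u hu μ hμ s0 hs0 hs1
    rw [hI2] at hsum
    set F : Cell d → ℝ := fun Q =>
      bD b ε R0 R s0 (fo L u) Q.1 (xC s0 Q) (e Q) (ν Q) (c Q) with hF
    have hF0 : ∀ Q, 0 ≤ F Q := fun Q =>
      add_nonneg (le_max_left _ _) (DDn b ε R hs0 _ _ _ (he Q))
    set g : ℕ → (Fin d → ℤ) → ℝ≥0∞ := fun i p => if 2 ≤ i then ENNReal.ofReal (F (i, p)) else 0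
      with hg
    have hpt : ∀ x, ‖u x‖ₑ ≤
        ENNReal.ofReal C1 * ∑' i, g i (cl s0 i x) + ENNReal.ofReal (Cu * s0) := by
      intro x
      by_cases hS : ∑' i, g i (cl s0 i x) = (⊤ : ℝ≥0∞)
      · rw [hS, ENNReal.mul_top (ENNReal.ofReal_pos.2 hC1).ne', top_add]
        exact le_top
      · have h1 := hcu s0 hs0 hs1 x (fun i => xC s0 (i, cl s0 i x)) (fun i => e (i, cl s0 i x))
          (fun i => ν (i, cl s0 i x)) (fun i => c (i, cl s0 i x))
          (∑' i, g i (cl s0 i x)).toReal (fun i => near hs0 i x) (fun i => he _) (fun i => hν _)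
          (fun i => hloc _) ?_
        · rw [← ofReal_norm]
          refine (ENNReal.ofReal_le_ofReal h1).trans ?_
          refine ENNReal.ofReal_add_le.trans ?_
          rw [ENNReal.ofReal_mul hC1.le, ENNReal.ofReal_toReal hS]
        · intro I
          rw [← ENNReal.ofReal_le_iff_le_toReal hS,
            ENNReal.ofReal_sum_of_nonneg (fun i _ => hF0 (i, cl s0 i x))]
          refine le_trans (le_of_eq ?_) (ENNReal.sum_le_tsum (Finset.Ico 2 I))
          refine Finset.sum_congr rfl fun i hi => ?_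
          rw [hg]
          simp only
          rw [if_pos (Finset.mem_Ico.1 hi).1]
    have hgm : ∀ i, Measurable fun x : Sp d => g i (cl s0 i x) := fun i =>
      (measurable_of_countable (g i)).comp (cl_meas s0 i)
    have hint : ∫⁻ x, ∑' i, g i (cl s0 i x) ∂μ ≤ ENNReal.ofReal K * (ENNReal.ofReal Cm * I) := by
      rw [lintegral_tsum fun i => (hgm i).aemeasurable]
      calc ∑' i, ∫⁻ x, g i (cl s0 i x) ∂μ
          = ∑' i, ∑' p, g i p * μ (cl s0 i ⁻¹' {p}) := by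
            refine tsum_congr fun i => ?_
            rw [int_cell]
        _ ≤ ∑' i, ∑' p, ENNReal.ofReal K * ({Q : Cell d | 2 ≤ Q.1}.indicator
              (fun Q => ENNReal.ofReal (cw s0 Q * F Q * oC μ ρ s0 Q)) (i, p)) := by
            refine ENNReal.tsum_le_tsum fun i => ENNReal.tsum_le_tsum fun p => ?_
            by_cases hi : 2 ≤ i
            · rw [Set.indicator_of_mem (show ((i, p) : Cell d) ∈ {Q : Cell d | 2 ≤ Q.1} from hi),
                hg]
              simp only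
              rw [if_pos hi]
              refine (mul_le_mul_right (cube_le hs0 hρ hd1 i p) _).trans ?_
              rw [← ENNReal.ofReal_mul (hF0 _), ← ENNReal.ofReal_mul hK0.le]
              refine ENNReal.ofReal_le_ofReal ?_
              have h1 : oC μ ρ s0 (i, p) ≤ K := oC_le hC' hμ hs0 hρ0 (i, p) hd1
              have h2 : 0 ≤ oC μ ρ s0 (i, p) := Real.sqrt_nonneg _
              have h3 : 0 ≤ cw s0 ((i, p) : Cell d) := by
                unfold cw
                exact pow_nonneg (lev_pos hs0 _).le _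
              have h4 : 0 ≤ F (i, p) * cw s0 (i, p) * oC μ ρ s0 (i, p) :=
                mul_nonneg (mul_nonneg (hF0 _) h3) h2
              calc F (i, p) * (cw s0 (i, p) * oC μ ρ s0 (i, p) ^ 2)
                  = (F (i, p) * cw s0 (i, p) * oC μ ρ s0 (i, p)) * oC μ ρ s0 (i, p) := by ring
                _ ≤ (F (i, p) * cw s0 (i, p) * oC μ ρ s0 (i, p)) * K :=
                    mul_le_mul_of_nonneg_left h1 h4
                _ = K * (cw s0 (i, p) * F (i, p) * oC μ ρ s0 (i, p)) := by ring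
            · rw [hg]
              simp only
              rw [if_neg hi, zero_mul]
              exact bot_le
        _ = ENNReal.ofReal K * cs {Q : Cell d | 2 ≤ Q.1}
              (fun Q => cw s0 Q * F Q * oC μ ρ s0 Q) := by
            rw [cs, ENNReal.tsum_prod', ← ENNReal.tsum_mul_left]
            refine tsum_congr fun i => ?_
            rw [ENNReal.tsum_mul_left]
        _ ≤ ENNReal.ofReal K * (ENNReal.ofReal Cm * I) := mul_le_mul_right hsum _
    calc ∫⁻ x, ‖u x‖ₑ ∂μ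
        ≤ ∫⁻ x, (ENNReal.ofReal C1 * ∑' i, g i (cl s0 i x) + ENNReal.ofReal (Cu * s0)) ∂μ :=
          lintegral_mono hpt
      _ = ENNReal.ofReal C1 * ∫⁻ x, ∑' i, g i (cl s0 i x) ∂μ
            + ENNReal.ofReal (Cu * s0) * μ univ := by
          rw [lintegral_add_right _ measurable_const, lintegral_const,
            lintegral_const_mul _ (Measurable.ennreal_tsum hgm)]
      _ ≤ ENNReal.ofReal C1 * (ENNReal.ofReal K * (ENNReal.ofReal Cm * I))
            + ENNReal.ofReal (Cu * s0) * μ univ := by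
          gcongr
      _ = ENNReal.ofReal (C1 * (K * Cm)) * I + ENNReal.ofReal (Cu * s0) * μ univ := by
          rw [ENNReal.ofReal_mul hC1.le, ENNReal.ofReal_mul hK0.le]
          ring
  -- let s0 tend to 0
  refine ENNReal.le_of_forall_pos_le_add fun δ hδ _ => ?_
  set m : ℝ := (μ univ).toReal with hm'
  have hm0 : 0 ≤ m := ENNReal.toReal_nonneg
  have hδ' : (0 : ℝ) < δ := by exact_mod_cast hδ
  set s0 : ℝ := min 1 (δ / (Cu * m + 1)) with hs0
  have hp : 0 < Cu * m + 1 := by positivity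
  have hs0p : 0 < s0 := lt_min one_pos (by positivity)
  refine (key s0 hs0p (min_le_left _ _)).trans ?_
  gcongr
  have h1 : μ univ = ENNReal.ofReal m := (ENNReal.ofReal_toReal (measure_ne_top _ _)).symm
  rw [h1, ← ENNReal.ofReal_mul (by positivity)]
  refine (ENNReal.ofReal_le_ofReal (?_ : Cu * s0 * m ≤ (δ : ℝ))).trans ?_
  · have h2 : s0 ≤ δ / (Cu * m + 1) := min_le_right _ _
    calc Cu * s0 * m = s0 * (Cu * m) := by ring
      _ ≤ s0 * (Cu * m + 1) := by
          refine mul_le_mul_of_nonneg_left ?_ hs0p.le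
          linarith
      _ ≤ (δ / (Cu * m + 1)) * (Cu * m + 1) := mul_le_mul_of_nonneg_right h2 hp.le
      _ = δ := by field_simp
  · rw [ENNReal.ofReal_coe_nnreal]

end

end TG


end

section

/-!
# Basic facts on averages with a general even kernel, and on the fields fl

Kb ψ: ψ continuous, even, nonnegative, supported in the unit ball, integral one.
Instances: the base kernel b and all kernels KN b n of a BaseKer.
-/

open MeasureTheory Metric Set TrI
open scoped InnerProductSpace ContDiff Pointwise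

set_option linter.unusedSectionVars false

namespace TG

noncomputable section

variable {d : ℕ}

/-- even nonnegative continuous kernels with integral one, supported in the unit ball -/
structure Kb (ψ : Sp d → ℝ) : Prop where
  cont : Continuous ψ
  nonneg : ∀ y, 0 ≤ ψ y
  zero : ∀ {y}, 1 ≤ ‖y‖ → ψ y = 0
  int : ∫ y, ψ y = 1
  neg : ∀ y, ψ (-y) = ψ y

lemma BaseKer.kb {J : ℕ} {M c : ℝ} {b : Sp d → ℝ} (h : BaseKer J M c b) : Kb b where
  cont := h.smooth.continuous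
  nonneg := h.nonneg
  zero := fun {y} hy => h.supp y (by linarith)
  int := h.int
  neg := fun y => le_antisymm (h.mono _ _ (by rw [norm_neg])) (h.mono _ _ (by rw [norm_neg]))

lemma IsProf.kb {J : ℕ} {M : ℝ} {b : Sp d → ℝ} (h : IsProf J M b) : Kb b where
  cont := h.smooth.continuous
  nonneg := h.nonneg
  zero := fun {y} hy => h.supp y hy
  int := h.int
  neg := fun y => le_antisymm (h.mono _ _ (by rw [norm_neg])) (h.mono _ _ (by rw [norm_neg]))

lemma BaseKer.kbN {J : ℕ} {M c : ℝ} {b : Sp d → ℝ} (h : BaseKer J M c b) (n : ℕ) :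
    Kb (KN b n) := (h.kit n).prof.kb

section Av

variable {F : Type*} [NormedAddCommGroup F] [NormedSpace ℝ F] {g h : Sp d → F}
  {ψ φ : Sp d → ℝ}

lemma avkB_def (s : ℝ) (g : Sp d → F) (x : Sp d) : avk ψ s g x = ∫ y, ψ y • g (x + s • y) := rfl

variable (hψ : Kb ψ)
include hψ

lemma Kb.integrable : Integrable ψ := by
  refine hψ.cont.integrable_of_hasCompactSupport ?_
  refine HasCompactSupport.of_support_subset_isCompact (isCompact_closedBall (0 : Sp d) 1) ?_
  intro x hx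
  by_contra hx'
  apply hx
  refine hψ.zero ?_
  simp only [mem_closedBall, dist_zero_right, not_le] at hx'
  exact hx'.le

lemma Kb.integrable_pt (hg : LB g) (s : ℝ) (x : Sp d) :
    Integrable (fun y => ψ y • g (x + s • y)) :=
  (hg.comp_smul x s).integrable_smul hψ.cont (R := 1) fun _ hy => hψ.zero hy

/-! ## one average -/

lemma Kb.avk_zero_scale [CompleteSpace F] (g : Sp d → F) (x : Sp d) : avk ψ 0 g x = g x := by
  rw [avkB_def]
  simp only [zero_smul, add_zero]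
  rw [integral_smul_const, hψ.int, one_smul]

/-- bound of an average by a bound of g near x -/
lemma Kb.norm_avk_le_of_bound {g : Sp d → F} {s : ℝ} {x : Sp d} {M : ℝ}
    (hM : ∀ z, ‖z - x‖ ≤ |s| → ‖g z‖ ≤ M) : ‖avk ψ s g x‖ ≤ M := by
  have hM0 : 0 ≤ M := (norm_nonneg _).trans (hM x (by simp))
  have h1 : ‖avk ψ s g x‖ ≤ ∫ y, ψ y * M := by
    refine norm_integral_le_of_norm_le (hψ.integrable.mul_const M) ?_
    refine Filter.Eventually.of_forall fun y => ?_
    rw [norm_smul, Real.norm_eq_abs, abs_of_nonneg (hψ.nonneg y)]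
    by_cases hy : 1 ≤ ‖y‖
    · rw [hψ.zero hy]; simp
    · refine mul_le_mul_of_nonneg_left (hM _ ?_) (hψ.nonneg y)
      rw [add_sub_cancel_left, norm_smul, Real.norm_eq_abs]
      push Not at hy
      nlinarith [abs_nonneg s, norm_nonneg y]
  rwa [integral_mul_const, hψ.int, one_mul] at h1

lemma Kb.LB_avk (hg : LB g) (s : ℝ) : LB (avk ψ s g) where
  meas := by
    have h2 : StronglyMeasurable (Function.uncurry fun (x y : Sp d) => ψ y • g (x + s • y)) := by
      refine StronglyMeasurable.smul (f := fun p : Sp d × Sp d => ψ p.2) ?_ ?_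
      · exact (hψ.cont.comp continuous_snd).stronglyMeasurable
      · exact hg.meas.comp_measurable
          (show Measurable fun p : Sp d × Sp d => p.1 + s • p.2 by fun_prop)
    exact h2.integral_prod_right
  bd := by
    intro R
    obtain ⟨M, hM⟩ := hg.bd (R + |s|)
    refine ⟨M, fun x hx => hψ.norm_avk_le_of_bound fun z hz => hM z ?_⟩
    have : ‖z‖ ≤ ‖x‖ + ‖z - x‖ := by
      have := norm_add_le x (z - x)
      rwa [add_sub_cancel] at this
    linarith

lemma Kb.avk_cs (hg : HasCompactSupport g) (s : ℝ) : HasCompactSupport (avk ψ s g) := by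
  obtain ⟨R, hR⟩ := hg.isCompact.isBounded.subset_closedBall (0 : Sp d)
  refine HasCompactSupport.of_support_subset_isCompact (isCompact_closedBall (0 : Sp d) (R + |s|)) ?_
  intro x hx
  by_contra hx'
  apply hx
  have h1 : ‖avk ψ s g x‖ ≤ 0 := by
    refine hψ.norm_avk_le_of_bound fun z hz => ?_
    have : g z = 0 := by
      by_contra hz'
      have h2 : z ∈ closedBall (0 : Sp d) R := hR (subset_tsupport _ hz')
      rw [mem_closedBall, dist_zero_right] at h2 hx'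
      have : ‖x‖ ≤ ‖z‖ + ‖z - x‖ := by
        have := norm_sub_le z (z - x)
        rwa [sub_sub_cancel] at this
      linarith
    simp [this]
  simpa using h1

lemma Kb.avk_eq_setIntegral (s : ℝ) (g : Sp d → F) (x : Sp d) :
    avk ψ s g x = ∫ y in closedBall (0 : Sp d) 1, ψ y • g (x + s • y) := by
  rw [avkB_def, setIntegral_eq_integral_of_forall_compl_eq_zero]
  intro y hy
  rw [hψ.zero, zero_smul]
  simp only [mem_closedBall, dist_zero_right, not_le] at hy
  exact hy.le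

lemma Kb.avk_cont (hg : Continuous g) (s : ℝ) : Continuous (avk ψ s g) := by
  have h2 : Continuous (Function.uncurry fun (x y : Sp d) => ψ y • g (x + s • y)) := by
    refine Continuous.smul (hψ.cont.comp continuous_snd) (hg.comp ?_)
    fun_prop
  have h3 := continuous_parametric_integral_of_continuous (μ := volume) h2
    (isCompact_closedBall (0 : Sp d) 1)
  refine h3.congr fun x => ?_
  exact (hψ.avk_eq_setIntegral s g x).symm

lemma Kb.avk_add (hg : LB g) (hh : LB h) (s : ℝ) (x : Sp d) :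
    avk ψ s (fun z => g z + h z) x = avk ψ s g x + avk ψ s h x := by
  simp only [avkB_def, smul_add]
  exact integral_add (hψ.integrable_pt hg s x) (hψ.integrable_pt hh s x)

lemma Kb.avk_sub (hg : LB g) (hh : LB h) (s : ℝ) (x : Sp d) :
    avk ψ s (fun z => g z - h z) x = avk ψ s g x - avk ψ s h x := by
  simp only [avkB_def, smul_sub]
  exact integral_sub (hψ.integrable_pt hg s x) (hψ.integrable_pt hh s x)

lemma Kb.avk_smul (c : ℝ) (s : ℝ) (x : Sp d) : avk ψ s (fun z => c • g z) x = c • avk ψ s g x := by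
  simp only [avkB_def]
  rw [← integral_smul]
  congr 1
  ext y
  rw [smul_comm]

lemma Kb.avk_mul (c : ℝ) (g : Sp d → ℝ) (s : ℝ) (x : Sp d) :
    avk ψ s (fun z => c * g z) x = c * avk ψ s g x := hψ.avk_smul c s x

lemma Kb.avk_sum {ι : Type*} (S : Finset ι) {G : ι → Sp d → F} (hG : ∀ i ∈ S, LB (G i)) (s : ℝ)
    (x : Sp d) : avk ψ s (fun z => ∑ i ∈ S, G i z) x = ∑ i ∈ S, avk ψ s (G i) x := by
  simp only [avkB_def, Finset.smul_sum]
  exact integral_finsetSum S fun i hi => hψ.integrable_pt (hG i hi) s x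

lemma Kb.avk_const [CompleteSpace F] (c : F) (s : ℝ) (x : Sp d) : avk ψ s (fun _ => c) x = c := by
  rw [avkB_def, integral_smul_const, hψ.int, one_smul]

lemma Kb.avk_nonneg {g : Sp d → ℝ} (hg : ∀ z, 0 ≤ g z) (s : ℝ) (x : Sp d) : 0 ≤ avk ψ s g x :=
  integral_nonneg fun y => mul_nonneg (hψ.nonneg y) (hg _)

lemma Kb.avk_mono {g h : Sp d → ℝ} (hg : LB g) (hh : LB h) (hgh : ∀ z, g z ≤ h z) (s : ℝ)
    (x : Sp d) : avk ψ s g x ≤ avk ψ s h x :=
  integral_mono (hψ.integrable_pt hg s x) (hψ.integrable_pt hh s x)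
    fun y => mul_le_mul_of_nonneg_left (hgh _) (hψ.nonneg y)

lemma Kb.avk_le_of_le {g : Sp d → ℝ} (hg : LB g) {M : ℝ} (hM : ∀ z, g z ≤ M) (s : ℝ) (x : Sp d) :
    avk ψ s g x ≤ M :=
  (hψ.avk_mono hg (LB.of_cont continuous_const) hM s x).trans (hψ.avk_const M s x).le

lemma Kb.norm_avk_le (g : Sp d → F) (s : ℝ) (x : Sp d) : ‖avk ψ s g x‖ ≤ avk ψ s (fun z => ‖g z‖) x := by
  refine (norm_integral_le_integral_norm _).trans (le_of_eq ?_)
  rw [avkB_def]
  congr 1
  ext y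
  rw [norm_smul, Real.norm_eq_abs, abs_of_nonneg (hψ.nonneg y), smul_eq_mul]

lemma Kb.avk_inner {E : Type*} [NormedAddCommGroup E] [InnerProductSpace ℝ E] [CompleteSpace E]
    {g : Sp d → E} (hg : LB g) (e : E) (s : ℝ) (x : Sp d) :
    avk ψ s (fun z => ⟪g z, e⟫_ℝ) x = ⟪avk ψ s g x, e⟫_ℝ := by
  simp only [avkB_def]
  rw [real_inner_comm, ← integral_inner (hψ.integrable_pt hg s x) e]
  congr 1
  ext y
  rw [inner_smul_right, real_inner_comm, smul_eq_mul]



/-! ## two averages -/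

omit hψ in
lemma Kb.prod_integrable (hψ : Kb ψ) (hφ : Kb φ) (hg : LB g) (s t : ℝ) (x : Sp d) :
    Integrable (Function.uncurry fun (y z : Sp d) => ψ y • φ z • g (x + s • y + t • z))
      (volume.prod volume) := by
  obtain ⟨M, hM⟩ := hg.bd (‖x‖ + |s| + |t|)
  have hi : Integrable (fun p : Sp d × Sp d => ψ p.1 * φ p.2 * |M|)
      (volume.prod volume) := (hψ.integrable.mul_prod hφ.integrable).mul_const _
  refine hi.mono' ?_ ?_
  · refine StronglyMeasurable.aestronglyMeasurable ?_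
    refine StronglyMeasurable.smul (f := fun p : Sp d × Sp d => ψ p.1) ?_ ?_
    · exact (hψ.cont.comp continuous_fst).stronglyMeasurable
    · refine StronglyMeasurable.smul (f := fun p : Sp d × Sp d => φ p.2) ?_ ?_
      · exact (hφ.cont.comp continuous_snd).stronglyMeasurable
      · exact hg.meas.comp_measurable
          (show Measurable fun p : Sp d × Sp d => x + s • p.1 + t • p.2 by fun_prop)
  · refine Filter.Eventually.of_forall fun p => ?_
    obtain ⟨y, z⟩ := p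
    simp only [Function.uncurry_apply_pair]
    rw [norm_smul, norm_smul, Real.norm_eq_abs, Real.norm_eq_abs, abs_of_nonneg (hψ.nonneg y),
      abs_of_nonneg (hφ.nonneg z), ← mul_assoc]
    by_cases hy : 1 ≤ ‖y‖
    · simp [hψ.zero hy]
    by_cases hz : 1 ≤ ‖z‖
    · simp [hφ.zero hz]
    push Not at hy hz
    refine mul_le_mul_of_nonneg_left ((hM _ ?_).trans (le_abs_self M))
      (mul_nonneg (hψ.nonneg y) (hφ.nonneg z))
    refine (norm_add_le _ _).trans ?_
    have h1 : ‖x + s • y‖ ≤ ‖x‖ + |s| * ‖y‖ := (norm_add_le _ _).trans (by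
      rw [norm_smul, Real.norm_eq_abs])
    have h2 : ‖t • z‖ = |t| * ‖z‖ := by rw [norm_smul, Real.norm_eq_abs]
    nlinarith only [h1, h2, hy, hz, abs_nonneg s, abs_nonneg t]

omit hψ in
/-- averages with possibly different kernels commute -/
lemma Kb.avk_comm (hψ : Kb ψ) (hφ : Kb φ) (hg : LB g) (s t : ℝ) :
    avk ψ s (avk φ t g) = avk φ t (avk ψ s g) := by
  ext x
  simp only [avkB_def, ← integral_smul]
  rw [integral_integral_swap (hψ.prod_integrable hφ hg s t x)]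
  congr 1
  ext z
  congr 1
  ext y
  rw [smul_comm, add_right_comm]


lemma Kb.shear_integrable (hg : Integrable g) (hg' : LB g) (s : ℝ) :
    Integrable (Function.uncurry fun (x y : Sp d) => ψ y • g (x + s • y))
      (volume.prod volume) := by
  have hm : StronglyMeasurable (Function.uncurry fun (x y : Sp d) =>
      ψ y • g (x + s • y)) := by
    refine StronglyMeasurable.smul (f := fun p : Sp d × Sp d => ψ p.2) ?_ ?_
    · exact (hψ.cont.comp continuous_snd).stronglyMeasurable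
    · exact hg'.meas.comp_measurable
        (show Measurable fun p : Sp d × Sp d => p.1 + s • p.2 by fun_prop)
  rw [integrable_prod_iff' hm.aestronglyMeasurable]
  constructor
  · refine Filter.Eventually.of_forall fun y => ?_
    simp only [Function.uncurry_apply_pair]
    exact (hg.comp_add_right (s • y)).smul (ψ y)
  · simp only [Function.uncurry_apply_pair, norm_smul]
    have h3 : (fun y : Sp d => ∫ x, ‖ψ y‖ * ‖g (x + s • y)‖) =
        fun y => ‖ψ y‖ * ∫ x, ‖g x‖ := by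
      ext y
      rw [integral_const_mul]
      congr 1
      exact integral_add_right_eq_self (μ := volume) (fun x => ‖g x‖) (s • y)
    rw [h3]
    exact hψ.integrable.norm.mul_const _

/-- averages preserve integrals -/
lemma Kb.avk_int [CompleteSpace F] (hg : Integrable g) (hg' : LB g) (s : ℝ) :
    ∫ x, avk ψ s g x = ∫ x, g x := by
  simp only [avkB_def]
  rw [integral_integral_swap (hψ.shear_integrable hg hg' s)]
  simp only [integral_smul]
  have h3 : (fun y : Sp d => ψ y • ∫ x, g (x + s • y)) = fun y => ψ y • ∫ x, g x := by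
    ext y
    congr 1
    exact integral_add_right_eq_self (μ := volume) g (s • y)
  rw [h3, integral_smul_const, hψ.int, one_smul]

lemma Kb.avk_integrable (hg : Integrable g) (hg' : LB g) (s : ℝ) : Integrable (avk ψ s g) :=
  (hψ.shear_integrable hg hg' s).integral_prod_left

/-- averages are self adjoint -/
lemma Kb.avk_adj_inner {E : Type*} [NormedAddCommGroup E] [InnerProductSpace ℝ E] [CompleteSpace E]
    {g h : Sp d → E} (hg : LB g) (hh : LB h) (hi : HasCompactSupport h) (s : ℝ) :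
    ∫ x, ⟪avk ψ s g x, h x⟫_ℝ = ∫ x, ⟪g x, avk ψ s h x⟫_ℝ := by
  obtain ⟨R, hR⟩ := hi.isCompact.isBounded.subset_closedBall (0 : Sp d)
  have hR' : ∀ z, h z ≠ 0 → ‖z‖ ≤ R := fun z hz => by
    simpa using hR (subset_tsupport _ hz)
  obtain ⟨M, hM⟩ := hg.bd (R + |s|)
  have hhi : Integrable h := hh.integrable hi
  have hinner : Continuous (fun p : E × E => ⟪p.1, p.2⟫_ℝ) := by fun_prop
  have hb : ∀ (z y : Sp d), ‖y‖ < 1 → ‖s • y‖ ≤ |s| := by
    intro z y hy
    rw [norm_smul, Real.norm_eq_abs]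
    nlinarith [abs_nonneg s, norm_nonneg y]
  -- first product integrability
  have hI1 : Integrable (Function.uncurry fun (x y : Sp d) => ψ y * ⟪g (x + s • y), h x⟫_ℝ)
      (volume.prod volume) := by
    have hi0 : Integrable (fun p : Sp d × Sp d => ‖h p.1‖ * ψ p.2 * |M|)
        (volume.prod volume) := (hhi.norm.mul_prod hψ.integrable).mul_const _
    refine hi0.mono' ?_ ?_
    · refine StronglyMeasurable.aestronglyMeasurable ?_
      refine StronglyMeasurable.mul (f := fun p : Sp d × Sp d => ψ p.2) ?_ ?_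
      · exact (hψ.cont.comp continuous_snd).stronglyMeasurable
      · refine hinner.comp_stronglyMeasurable (StronglyMeasurable.prodMk ?_ ?_)
        · exact hg.meas.comp_measurable
            (show Measurable fun p : Sp d × Sp d => p.1 + s • p.2 by fun_prop)
        · exact hh.meas.comp_measurable measurable_fst
    · refine Filter.Eventually.of_forall fun p => ?_
      obtain ⟨x, y⟩ := p
      simp only [Function.uncurry_apply_pair]
      rw [norm_mul, Real.norm_eq_abs, abs_of_nonneg (hψ.nonneg y)]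
      by_cases hy : 1 ≤ ‖y‖
      · simp [hψ.zero hy]
      by_cases hx : h x = 0
      · simp [hx]
      push Not at hy
      have h1 : ‖g (x + s • y)‖ ≤ |M| := by
        refine (hM _ ?_).trans (le_abs_self M)
        exact (norm_add_le _ _).trans (add_le_add (hR' x hx) (hb x y hy))
      have h2 : ‖⟪g (x + s • y), h x⟫_ℝ‖ ≤ |M| * ‖h x‖ :=
        (norm_inner_le_norm _ _).trans (mul_le_mul_of_nonneg_right h1 (norm_nonneg _))
      calc ψ y * ‖⟪g (x + s • y), h x⟫_ℝ‖ ≤ ψ y * (|M| * ‖h x‖) :=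
            mul_le_mul_of_nonneg_left h2 (hψ.nonneg y)
        _ = ‖h x‖ * ψ y * |M| := by ring
  -- second product integrability
  have hI2 : Integrable (Function.uncurry fun (x y : Sp d) => ψ y * ⟪g x, h (x + s • y)⟫_ℝ)
      (volume.prod volume) := by
    have hi0 : Integrable (fun p : Sp d × Sp d => (ψ p.2 • ‖h (p.1 + s • p.2)‖) * |M|)
        (volume.prod volume) := (hψ.shear_integrable hhi.norm hh.norm s).mul_const _
    refine hi0.mono' ?_ ?_
    · refine StronglyMeasurable.aestronglyMeasurable ?_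
      refine StronglyMeasurable.mul (f := fun p : Sp d × Sp d => ψ p.2) ?_ ?_
      · exact (hψ.cont.comp continuous_snd).stronglyMeasurable
      · refine hinner.comp_stronglyMeasurable (StronglyMeasurable.prodMk ?_ ?_)
        · exact hg.meas.comp_measurable measurable_fst
        · exact hh.meas.comp_measurable
            (show Measurable fun p : Sp d × Sp d => p.1 + s • p.2 by fun_prop)
    · refine Filter.Eventually.of_forall fun p => ?_
      obtain ⟨x, y⟩ := p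
      simp only [Function.uncurry_apply_pair]
      rw [norm_mul, Real.norm_eq_abs, abs_of_nonneg (hψ.nonneg y)]
      by_cases hy : 1 ≤ ‖y‖
      · simp [hψ.zero hy]
      by_cases hx : h (x + s • y) = 0
      · simp [hx]
      push Not at hy
      have h1 : ‖g x‖ ≤ |M| := by
        refine (hM _ ?_).trans (le_abs_self M)
        have h3 : ‖x‖ ≤ ‖x + s • y‖ + ‖s • y‖ := by
          have := norm_sub_le (x + s • y) (s • y)
          rwa [add_sub_cancel_right] at this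
        exact h3.trans (add_le_add (hR' _ hx) (hb x y hy))
      have h2 : ‖⟪g x, h (x + s • y)⟫_ℝ‖ ≤ |M| * ‖h (x + s • y)‖ :=
        (norm_inner_le_norm _ _).trans (mul_le_mul_of_nonneg_right h1 (norm_nonneg _))
      calc ψ y * ‖⟪g x, h (x + s • y)⟫_ℝ‖ ≤ ψ y * (|M| * ‖h (x + s • y)‖) :=
            mul_le_mul_of_nonneg_left h2 (hψ.nonneg y)
        _ = ψ y • ‖h (x + s • y)‖ * |M| := by rw [smul_eq_mul]; ring
  have e1 : ∀ x, ⟪avk ψ s g x, h x⟫_ℝ = ∫ y, ψ y * ⟪g (x + s • y), h x⟫_ℝ := by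
    intro x
    rw [← hψ.avk_inner hg (h x) s x, avkB_def]
    simp only [smul_eq_mul]
  have e2 : ∀ x, ⟪g x, avk ψ s h x⟫_ℝ = ∫ y, ψ y * ⟪g x, h (x + s • y)⟫_ℝ := by
    intro x
    rw [real_inner_comm, ← hψ.avk_inner hh (g x) s x, avkB_def]
    simp only [smul_eq_mul]
    congr 1
    ext y
    rw [real_inner_comm]
  simp only [e1, e2]
  rw [integral_integral_swap hI1, integral_integral_swap hI2]
  have e3 : ∀ y : Sp d, ∫ x, ψ y * ⟪g (x + s • y), h x⟫_ℝ =
      ∫ x, ψ (-y) * ⟪g x, h (x + s • (-y))⟫_ℝ := by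
    intro y
    rw [integral_const_mul, integral_const_mul, hψ.neg]
    congr 1
    rw [← integral_add_right_eq_self (μ := volume) (fun x => ⟪g (x + s • y), h x⟫_ℝ) (-(s • y))]
    congr 1
    ext x
    rw [smul_neg, neg_add_cancel_right]
  simp only [e3]
  exact integral_neg_eq_self (fun y : Sp d => ∫ x, ψ y * ⟪g x, h (x + s • y)⟫_ℝ) volume

lemma Kb.avk_adj {g h : Sp d → ℝ} (hg : LB g) (hh : LB h) (hi : HasCompactSupport h) (s : ℝ) :
    ∫ x, avk ψ s g x * h x = ∫ x, g x * avk ψ s h x := by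
  have := hψ.avk_adj_inner hg hh hi s
  simp only [RCLike.inner_apply, conj_trivial] at this
  simpa only [mul_comm] using this

lemma Kb.shear_integrableOn (hg : LB g) (s : ℝ) (q : Sp d) (r : ℝ) :
    Integrable (Function.uncurry fun (x y : Sp d) => ψ y • g (x + s • y))
      ((volume.restrict (ball q r)).prod volume) := by
  obtain ⟨M, hM⟩ := hg.bd (‖q‖ + r + |s|)
  have : IsFiniteMeasure (volume.restrict (ball q r)) := ⟨by
    rw [Measure.restrict_apply_univ]; exact measure_ball_lt_top⟩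
  have hi : Integrable (fun p : Sp d × Sp d => (1 : ℝ) * ψ p.2 * |M|)
      ((volume.restrict (ball q r)).prod volume) :=
    ((integrable_const (1 : ℝ)).mul_prod hψ.integrable).mul_const _
  refine hi.mono' ?_ ?_
  · refine StronglyMeasurable.aestronglyMeasurable ?_
    refine StronglyMeasurable.smul (f := fun p : Sp d × Sp d => ψ p.2) ?_ ?_
    · exact (hψ.cont.comp continuous_snd).stronglyMeasurable
    · exact hg.meas.comp_measurable
        (show Measurable fun p : Sp d × Sp d => p.1 + s • p.2 by fun_prop)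
  · have h1 : ∀ᵐ p ∂((volume.restrict (ball q r)).prod (volume : Measure (Sp d))),
        p.1 ∈ ball q r := by
      have := (Measure.quasiMeasurePreserving_fst (μ := volume.restrict (ball q r))
        (ν := (volume : Measure (Sp d)))).ae (ae_restrict_mem measurableSet_ball)
      exact this
    filter_upwards [h1] with p hp
    obtain ⟨x, y⟩ := p
    simp only [Function.uncurry_apply_pair]
    rw [norm_smul, Real.norm_eq_abs, abs_of_nonneg (hψ.nonneg y), one_mul]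
    by_cases hy : 1 ≤ ‖y‖
    · simp [hψ.zero hy]
    push Not at hy
    refine mul_le_mul_of_nonneg_left ((hM _ ?_).trans (le_abs_self M)) (hψ.nonneg y)
    refine (norm_add_le _ _).trans ?_
    have h3 : ‖s • y‖ ≤ |s| := by
      rw [norm_smul, Real.norm_eq_abs]
      nlinarith [abs_nonneg s, norm_nonneg y]
    have h4 : ‖x‖ ≤ ‖q‖ + r := by
      have h5 : ‖x - q‖ < r := by simpa [dist_eq_norm] using hp
      have := norm_add_le q (x - q)
      rw [add_sub_cancel] at this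
      linarith
    linarith

lemma Kb.int_ball_avk_ge {g : Sp d → ℝ} (hg : LB g) (h0 : ∀ z, 0 ≤ g z) {s : ℝ} (hs : 0 ≤ s)
    (q : Sp d) (r : ℝ) : ∫ z in ball q r, g z ≤ ∫ z in ball q (r + s), avk ψ s g z := by
  simp only [avkB_def]
  have hI := hψ.shear_integrableOn hg s q (r + s)
  rw [integral_integral_swap hI]
  have h1 : ∀ y : Sp d, ψ y * ∫ z in ball q r, g z ≤
      ∫ x in ball q (r + s), ψ y • g (x + s • y) := by
    intro y
    rw [integral_smul, setIntegral_ball_add, smul_eq_mul]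
    by_cases hy : 1 ≤ ‖y‖
    · simp [hψ.zero hy]
    push Not at hy
    refine mul_le_mul_of_nonneg_left ?_ (hψ.nonneg y)
    refine setIntegral_mono_set (hg.integrableOn isBounded_ball)
      (Filter.Eventually.of_forall fun z => h0 z) (Filter.Eventually.of_forall ?_)
    intro z hz
    change z ∈ ball q r at hz
    change z ∈ ball (q + s • y) (r + s)
    rw [mem_ball, dist_eq_norm] at hz ⊢
    have h3 : ‖s • y‖ ≤ s := by
      rw [norm_smul, Real.norm_eq_abs, abs_of_nonneg hs]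
      nlinarith [norm_nonneg y]
    have h4 : ‖z - (q + s • y)‖ ≤ ‖z - q‖ + ‖s • y‖ := by
      rw [← sub_sub]; exact norm_sub_le _ _
    linarith
  calc ∫ z in ball q r, g z = ∫ y, ψ y * ∫ z in ball q r, g z := by
        rw [integral_mul_const, hψ.int, one_mul]
    _ ≤ _ := integral_mono (hψ.integrable.mul_const _) hI.integral_prod_right h1

lemma Kb.int_ball_avk_le {g : Sp d → ℝ} (hg : LB g) (h0 : ∀ z, 0 ≤ g z) {s : ℝ} (hs : 0 ≤ s)
    (q : Sp d) (r : ℝ) : ∫ z in ball q r, avk ψ s g z ≤ ∫ z in ball q (r + s), g z := by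
  simp only [avkB_def]
  have hI := hψ.shear_integrableOn hg s q r
  rw [integral_integral_swap hI]
  have h1 : ∀ y : Sp d, ∫ x in ball q r, ψ y • g (x + s • y) ≤
      ψ y * ∫ z in ball q (r + s), g z := by
    intro y
    rw [integral_smul, setIntegral_ball_add, smul_eq_mul]
    by_cases hy : 1 ≤ ‖y‖
    · simp [hψ.zero hy]
    push Not at hy
    refine mul_le_mul_of_nonneg_left ?_ (hψ.nonneg y)
    refine setIntegral_mono_set (hg.integrableOn isBounded_ball)
      (Filter.Eventually.of_forall fun z => h0 z) (Filter.Eventually.of_forall ?_)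
    intro z hz
    change z ∈ ball (q + s • y) r at hz
    change z ∈ ball q (r + s)
    rw [mem_ball, dist_eq_norm] at hz ⊢
    have h3 : ‖s • y‖ ≤ s := by
      rw [norm_smul, Real.norm_eq_abs, abs_of_nonneg hs]
      nlinarith [norm_nonneg y]
    have h4 : ‖z - q‖ ≤ ‖z - (q + s • y)‖ + ‖s • y‖ := by
      have := norm_add_le (z - (q + s • y)) (s • y)
      rwa [show z - (q + s • y) + s • y = z - q by abel] at this
    linarith
  calc _ ≤ ∫ y, ψ y * ∫ z in ball q (r + s), g z :=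
        integral_mono hI.integral_prod_right (hψ.integrable.mul_const _) h1
    _ = _ := by rw [integral_mul_const, hψ.int, one_mul]



/-! ## Taylor expansion of order two -/

omit hψ in
lemma taylor2 {Y : Sp d → F} (hY : ContDiff ℝ 2 Y) {N : ℝ}
    (hN : ∀ y, ‖iteratedFDeriv ℝ 2 Y y‖ ≤ N) (x h : Sp d) :
    ‖Y (x + h) - Y x - fderiv ℝ Y x h‖ ≤ N * ‖h‖ ^ 2 := by
  have hN0 : 0 ≤ N := (norm_nonneg _).trans (hN x)
  have hd : Differentiable ℝ Y := hY.differentiable (by norm_num)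
  have hd1 : ContDiff ℝ 1 (fderiv ℝ Y) := hY.fderiv_right (by norm_num)
  have h1 : ∀ y, ‖fderiv ℝ (fderiv ℝ Y) y‖ ≤ N := by
    intro y
    rw [← norm_iteratedFDeriv_one, norm_iteratedFDeriv_fderiv]
    exact hN y
  have h2 : ∀ y, ‖fderiv ℝ Y y - fderiv ℝ Y x‖ ≤ N * ‖y - x‖ := by
    intro y
    refine Convex.norm_image_sub_le_of_norm_fderiv_le (𝕜 := ℝ) (s := Set.univ)
      (fun z _ => (hd1.differentiable (by norm_num)) z) (fun z _ => h1 z) convex_univ
      (mem_univ _) (mem_univ _)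
  have h3 : ∀ z ∈ closedBall x ‖h‖,
      HasFDerivWithinAt (fun z => Y z - fderiv ℝ Y x z) (fderiv ℝ Y z - fderiv ℝ Y x)
        (closedBall x ‖h‖) z := by
    intro z _
    exact ((hd z).hasFDerivAt.sub (fderiv ℝ Y x).hasFDerivAt).hasFDerivWithinAt
  have h4 : ∀ z ∈ closedBall x ‖h‖, ‖fderiv ℝ Y z - fderiv ℝ Y x‖ ≤ N * ‖h‖ := by
    intro z hz
    rw [mem_closedBall, dist_eq_norm] at hz
    exact (h2 z).trans (mul_le_mul_of_nonneg_left hz hN0)
  have h5 := Convex.norm_image_sub_le_of_norm_hasFDerivWithin_le h3 h4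
    (convex_closedBall x ‖h‖) (mem_closedBall_self (norm_nonneg _))
    (show x + h ∈ closedBall x ‖h‖ by simp [mem_closedBall, dist_eq_norm])
  have h6 : Y (x + h) - fderiv ℝ Y x (x + h) - (Y x - fderiv ℝ Y x x) =
      Y (x + h) - Y x - fderiv ℝ Y x h := by
    rw [map_add]; abel
  rw [h6, add_sub_cancel_left] at h5
  calc _ ≤ N * ‖h‖ * ‖h‖ := h5
    _ = N * ‖h‖ ^ 2 := by ring

/-- an odd integrand integrates to zero -/
lemma Kb.int_linear [CompleteSpace F] (A : Sp d →L[ℝ] F) (s : ℝ) :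
    ∫ y, ψ y • A (s • y) = 0 := by
  have h1 : ∫ y, ψ y • A (s • y) = ∫ y, ψ (-y) • A (s • (-y)) :=
    (integral_neg_eq_self (fun y : Sp d => ψ y • A (s • y)) volume).symm
  have h2 : ∫ y, ψ (-y) • A (s • (-y)) = - ∫ y, ψ y • A (s • y) := by
    rw [← integral_neg]
    congr 1
    ext y
    rw [hψ.neg, smul_neg, map_neg, smul_neg]
  rw [h2] at h1
  have h3 : (2 : ℝ) • ∫ y, ψ y • A (s • y) = 0 := by
    rw [two_smul]
    nth_rewrite 1 [h1]
    simp
  exact (smul_eq_zero.mp h3).resolve_left (by norm_num)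

/-- error of an average, second order -/
lemma Kb.avk_sub_self [CompleteSpace F] {Y : Sp d → F} (hY : ContDiff ℝ 2 Y) {N : ℝ}
    (hN : ∀ y, ‖iteratedFDeriv ℝ 2 Y y‖ ≤ N) (s : ℝ) (x : Sp d) :
    ‖avk ψ s Y x - Y x‖ ≤ N * s ^ 2 := by
  have hN0 : 0 ≤ N := (norm_nonneg _).trans (hN x)
  have hYL : LB Y := LB.of_cont hY.continuous
  have i1 := hψ.integrable_pt hYL s x
  have i2 : Integrable (fun y => ψ y • Y x) := hψ.integrable.smul_const _
  have i3 : Integrable (fun y => ψ y • fderiv ℝ Y x (s • y)) := by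
    have := hψ.integrable_pt (g := fun z => fderiv ℝ Y x z)
      (LB.of_cont (fderiv ℝ Y x).continuous) s 0
    simpa using this
  have e1 : avk ψ s Y x - Y x = ∫ y, ψ y • (Y (x + s • y) - Y x - fderiv ℝ Y x (s • y)) := by
    simp only [smul_sub]
    rw [integral_sub (by exact i1.sub i2) i3, integral_sub i1 i2, hψ.int_linear,
      integral_smul_const, hψ.int, one_smul, sub_zero, avkB_def]
  rw [e1]
  have e2 : N * s ^ 2 = ∫ y, ψ y * (N * s ^ 2) := by
    rw [integral_mul_const, hψ.int, one_mul]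
  rw [e2]
  refine norm_integral_le_of_norm_le (hψ.integrable.mul_const _) ?_
  refine Filter.Eventually.of_forall fun y => ?_
  rw [norm_smul, Real.norm_eq_abs, abs_of_nonneg (hψ.nonneg y)]
  by_cases hy : 1 ≤ ‖y‖
  · simp [hψ.zero hy]
  push Not at hy
  refine mul_le_mul_of_nonneg_left ((taylor2 hY hN x (s • y)).trans ?_) (hψ.nonneg y)
  refine mul_le_mul_of_nonneg_left ?_ hN0
  rw [norm_smul, Real.norm_eq_abs, mul_pow, sq_abs]
  have : ‖y‖ ^ 2 ≤ 1 := by nlinarith [norm_nonneg y]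
  nlinarith [sq_nonneg s]

/-- an average vanishes where the function vanishes nearby -/
lemma Kb.avk_eq_zero {s : ℝ} {x : Sp d} (hz : ∀ z, ‖z - x‖ < |s| → g z = 0) (hx : g x = 0) :
    avk ψ s g x = 0 := by
  have h1 : (fun y => ψ y • g (x + s • y)) = fun _ => 0 := by
    ext y
    by_cases hy : 1 ≤ ‖y‖
    · rw [hψ.zero hy, zero_smul]
    push Not at hy
    by_cases hs : s = 0
    · rw [hs, zero_smul, add_zero, hx, smul_zero]
    rw [hz, smul_zero]
    rw [add_sub_cancel_left, norm_smul, Real.norm_eq_abs]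
    have : 0 < |s| := abs_pos.mpr hs
    nlinarith
  rw [avkB_def, h1, integral_zero]

end Av

/-! ## the fields -/

section Fl

variable {F : Type*} [NormedAddCommGroup F] [NormedSpace ℝ F] {f : Sp d → F}
  {b : Sp d → ℝ} (hb : Kb b)
include hb

omit hb in
lemma fl_zero (ε s0 : ℝ) (f : Sp d → F) : fl b ε s0 f 0 = f := rfl

omit hb in
lemma fl_succ (ε s0 : ℝ) (f : Sp d → F) (i : ℕ) :
    fl b ε s0 f (i + 1) = avk b (ε * lev s0 (i + 1)) (fl b ε s0 f i) := rfl

lemma flB_cont (hf : Continuous f) (ε s0 : ℝ) (i : ℕ) : Continuous (fl b ε s0 f i) := by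
  induction i with
  | zero => exact hf
  | succ i ih => exact hb.avk_cont ih _

lemma flB_cs (hf : HasCompactSupport f) (ε s0 : ℝ) (i : ℕ) :
    HasCompactSupport (fl b ε s0 f i) := by
  induction i with
  | zero => exact hf
  | succ i ih => exact hb.avk_cs ih _

lemma fl_LB (hf : Continuous f) (ε s0 : ℝ) (i : ℕ) : LB (fl b ε s0 f i) :=
  LB.of_cont (flB_cont hb hf ε s0 i)

lemma fl_integrable (hf : Continuous f) (hf' : HasCompactSupport f) (ε s0 : ℝ) (i : ℕ) :
    Integrable (fl b ε s0 f i) :=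
  (flB_cont hb hf ε s0 i).integrable_of_hasCompactSupport (flB_cs hb hf' ε s0 i)

lemma norm_fl_succ_le (ε s0 : ℝ) (i : ℕ) (x : Sp d) :
    ‖fl b ε s0 f (i + 1) x‖ ≤ avk b (ε * lev s0 (i + 1)) (fun z => ‖fl b ε s0 f i z‖) x :=
  hb.norm_avk_le _ _ _

end Fl

/-- a scale of the unit cell -/
lemma lev_unit (n i : ℕ) (h : i ≤ n) : lev ((1 / 2 : ℝ) ^ n) i = (1 / 2) ^ (n - i) := by
  unfold lev
  obtain ⟨k, rfl⟩ := Nat.exists_eq_add_of_le h
  rw [Nat.add_sub_cancel_left, pow_add, mul_comm ((1 / 2 : ℝ) ^ i), mul_assoc, ← mul_pow]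
  norm_num

lemma lev_unit_self (n : ℕ) : lev ((1 / 2 : ℝ) ^ n) n = 1 := by
  rw [lev_unit n n le_rfl, Nat.sub_self, pow_zero]

section Def3

variable {E : Type} [NormedAddCommGroup E] [InnerProductSpace ℝ E]

/-- DD at unit scale -/
lemma DD_unit (b : Sp d → ℝ) (ε R : ℝ) (f : Sp d → E) (n : ℕ) (x : Sp d) (e : E) :
    DD b ε R ((1 / 2) ^ n) f n x e =
      ∑ l ∈ Finset.range (n + 1), (1 / 4 : ℝ) ^ (n - l) *
        (∫ y in ball x R, (‖fl b ε ((1 / 2) ^ n) f l y‖ - ⟪fl b ε ((1 / 2) ^ n) f l y, e⟫_ℝ))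
      + (1 / 4 : ℝ) ^ n * ∫ y in ball x R, ‖f y‖ := by
  unfold DD
  rw [lev_unit_self, one_pow, div_one, one_mul, mul_one]

/-- the deficit is nonnegative -/
lemma defi_nonneg {e : E} (he : ‖e‖ = 1) (v : E) : 0 ≤ ‖v‖ - ⟪v, e⟫_ℝ := by
  have := real_inner_le_norm v e
  rw [he, mul_one] at this
  linarith

end Def3

end

end TG


end

section

/-!
# Module DI: change of direction, (4.3) of PAPER.md
-/

open MeasureTheory Metric Set TrI
open scoped InnerProductSpace ContDiff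

namespace TG

noncomputable section

variable {d : ℕ} {E : Type} [NormedAddCommGroup E] [InnerProductSpace ℝ E]

/-- a difference of two directions is controlled by the two deficits -/
lemma abs_inner_sub_le {e e' : E} (he : ‖e‖ = 1) (he' : ‖e'‖ = 1) (v : E) :
    |⟪v, e - e'⟫_ℝ| ≤ (‖v‖ - ⟪v, e⟫_ℝ) + (‖v‖ - ⟪v, e'⟫_ℝ) := by
  have h1 := defi_nonneg he v
  have h2 := defi_nonneg he' v
  rw [inner_sub_right, abs_le]
  constructor <;> linarith

/-- the deficit is integrable on balls -/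
lemma defi_LB {G : Sp d → E} (hG : Continuous G) (e : E) :
    LB (fun y => ‖G y‖ - ⟪G y, e⟫_ℝ) := by
  refine LB.of_cont ?_
  fun_prop

lemma dir_bound {G : Sp d → E} (hG : Continuous G) {Z : Sp d → ℝ} {N R : ℝ}
    {e e' : E} (he : ‖e‖ = 1) (he' : ‖e'‖ = 1) (x x' : Sp d) (hN : ∀ y, |Z y| ≤ N)
    (h1 : ∀ y, R ≤ ‖y - x‖ → Z y = 0) (h2 : ∀ y, R ≤ ‖y - x'‖ → Z y = 0) :
    |∫ y, ⟪G y, e - e'⟫_ℝ * Z y| ≤
      N * ((∫ y in ball x R, (‖G y‖ - ⟪G y, e⟫_ℝ)) +
        ∫ y in ball x' R, (‖G y‖ - ⟪G y, e'⟫_ℝ)) := by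
  have hN0 : 0 ≤ N := (abs_nonneg _).trans (hN x)
  have i1 : IntegrableOn (fun y => ‖G y‖ - ⟪G y, e⟫_ℝ) (ball x R) :=
    (defi_LB hG e).integrableOn isBounded_ball
  have i2 : IntegrableOn (fun y => ‖G y‖ - ⟪G y, e'⟫_ℝ) (ball x' R) :=
    (defi_LB hG e').integrableOn isBounded_ball
  rw [← integral_indicator measurableSet_ball, ← integral_indicator measurableSet_ball,
    ← integral_add (i1.integrable_indicator measurableSet_ball)
      (i2.integrable_indicator measurableSet_ball), ← integral_const_mul]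
  rw [← Real.norm_eq_abs]
  refine norm_integral_le_of_norm_le ?_ ?_
  · exact ((i1.integrable_indicator measurableSet_ball).add
      (i2.integrable_indicator measurableSet_ball)).const_mul N
  · refine Filter.Eventually.of_forall fun y => ?_
    have k1 : 0 ≤ (ball x R).indicator (fun y => ‖G y‖ - ⟪G y, e⟫_ℝ) y :=
      Set.indicator_nonneg (fun z _ => defi_nonneg he _) y
    have k2 : 0 ≤ (ball x' R).indicator (fun y => ‖G y‖ - ⟪G y, e'⟫_ℝ) y :=
      Set.indicator_nonneg (fun z _ => defi_nonneg he' _) y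
    by_cases hz : Z y = 0
    · rw [hz, mul_zero, norm_zero]
      exact mul_nonneg hN0 (add_nonneg k1 k2)
    have hy : y ∈ ball x R := by
      by_contra hy
      rw [mem_ball, dist_eq_norm, not_lt] at hy
      exact hz (h1 y hy)
    have hy' : y ∈ ball x' R := by
      by_contra hy
      rw [mem_ball, dist_eq_norm, not_lt] at hy
      exact hz (h2 y hy)
    rw [Set.indicator_of_mem hy, Set.indicator_of_mem hy', norm_mul, Real.norm_eq_abs,
      Real.norm_eq_abs, mul_comm]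
    exact mul_le_mul (hN y) (abs_inner_sub_le he he' _) (abs_nonneg _) hN0

lemma cs_of_vanish' {F : Type*} [NormedAddCommGroup F] {Y : Sp d → F} {x : Sp d} {R : ℝ}
    (h : ∀ y, R ≤ ‖y - x‖ → Y y = 0) : HasCompactSupport Y := by
  refine HasCompactSupport.of_support_subset_isCompact (isCompact_closedBall x R) ?_
  intro y hy
  by_contra hy'
  apply hy
  refine h y ?_
  rw [mem_closedBall, dist_eq_norm, not_le] at hy'
  exact hy'.le

/-- one step of the telescoping sum -/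
lemma dir_step {b : Sp d → ℝ} (hb : Kb b) {G : Sp d → E} [CompleteSpace E] (hG : Continuous G)
    (hGc : HasCompactSupport G) {Y : Sp d → ℝ} (hY : Continuous Y) (hYc : HasCompactSupport Y)
    (w : E) (s : ℝ) :
    ∫ y, ⟪G y, w⟫_ℝ * Y y =
      (∫ y, ⟪avk b s G y, w⟫_ℝ * Y y) + ∫ y, ⟪G y, w⟫_ℝ * (Y y - avk b s Y y) := by
  have hGw : Continuous (fun y => ⟪G y, w⟫_ℝ) := by fun_prop
  have hGwc : HasCompactSupport (fun y => ⟪G y, w⟫_ℝ) :=
    hGc.comp_left (g := fun v : E => ⟪v, w⟫_ℝ) (inner_zero_left _)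
  have h1 : (∫ y, ⟪avk b s G y, w⟫_ℝ * Y y) = ∫ y, ⟪G y, w⟫_ℝ * avk b s Y y := by
    rw [← hb.avk_adj (LB.of_cont hGw) (LB.of_cont hY) hYc s]
    congr 1
    ext y
    rw [hb.avk_inner (LB.of_cont hG) w s y]
  rw [h1, ← integral_add]
  · congr 1
    ext y
    ring
  · exact (hGw.mul (hb.avk_cont hY s)).integrable_of_hasCompactSupport hGwc.mul_right
  · exact (hGw.mul (hY.sub (hb.avk_cont hY s))).integrable_of_hasCompactSupport hGwc.mul_right

theorem stmtDI : StmtDI := by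
  intro d _ M c ε hε hε1 b hb0
  refine ⟨4, by norm_num, ?_⟩
  intro E _ _ _ f hf hfc R hR n e e' he he' x x' Y hY hY1 hY2 hYx hYx'
  have hb := hb0.kb
  have hYc : HasCompactSupport Y := cs_of_vanish' hYx
  set s0 : ℝ := (1 / 2) ^ n with hs0
  set Dx : ℕ → ℝ := fun l => ∫ y in ball x R, (‖fl b ε s0 f l y‖ - ⟪fl b ε s0 f l y, e⟫_ℝ)
    with hDx
  set Dx' : ℕ → ℝ := fun l => ∫ y in ball x' R, (‖fl b ε s0 f l y‖ - ⟪fl b ε s0 f l y, e'⟫_ℝ)
    with hDx'
  have hDx0 : ∀ l, 0 ≤ Dx l := fun l =>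
    setIntegral_nonneg measurableSet_ball fun y _ => defi_nonneg he _
  have hDx0' : ∀ l, 0 ≤ Dx' l := fun l =>
    setIntegral_nonneg measurableSet_ball fun y _ => defi_nonneg he' _
  have key : ∀ k, k ≤ n → |(∫ y, ⟪f y, e - e'⟫_ℝ * Y y)| ≤
      |∫ y, ⟪fl b ε s0 f k y, e - e'⟫_ℝ * Y y| +
        ∑ l ∈ Finset.range k, 4 * (1 / 4 : ℝ) ^ (n - l) * (Dx l + Dx' l) := by
    intro k
    induction k with
    | zero => intro _; simp [fl_zero]
    | succ k ih =>
      intro hk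
      refine (ih (by omega)).trans ?_
      rw [Finset.sum_range_succ, dir_step hb (flB_cont hb hf ε s0 k) (flB_cs hb hfc ε s0 k)
        hY.continuous hYc (e - e') (ε * lev s0 (k + 1)), ← fl_succ]
      have hlev : lev s0 (k + 1) = (1 / 2) ^ (n - (k + 1)) := lev_unit n (k + 1) hk
      have hl0 : 0 ≤ lev s0 (k + 1) := by rw [hlev]; positivity
      have hl1 : lev s0 (k + 1) ≤ 1 := by
        rw [hlev]; exact pow_le_one₀ (by norm_num) (by norm_num)
      have hs1 : ε * lev s0 (k + 1) ≤ lev s0 (k + 1) := by nlinarith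
      have hs0' : 0 ≤ ε * lev s0 (k + 1) := mul_nonneg hε.le hl0
      have hsq : (ε * lev s0 (k + 1)) ^ 2 ≤ 4 * (1 / 4 : ℝ) ^ (n - k) := by
        have h1 : (ε * lev s0 (k + 1)) ^ 2 ≤ (lev s0 (k + 1)) ^ 2 :=
          pow_le_pow_left₀ hs0' hs1 2
        refine h1.trans (le_of_eq ?_)
        rw [hlev, ← pow_mul, mul_comm, pow_mul]
        rw [show n - k = (n - (k + 1)) + 1 by omega, pow_succ]
        norm_num
        ring
      have hb1 := dir_bound (flB_cont hb hf ε s0 k) (N := 4 * (1 / 4 : ℝ) ^ (n - k)) (R := R)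
        (Z := fun y => Y y - avk b (ε * lev s0 (k + 1)) Y y) he he' x x' ?_ ?_ ?_
      · refine (add_le_add_left (abs_add_le _ _) _).trans ?_
        linarith
      · intro y
        have := hb.avk_sub_self hY (N := 1) hY2 (ε * lev s0 (k + 1)) y
        rw [Real.norm_eq_abs, abs_sub_comm, one_mul] at this
        exact this.trans hsq
      · intro y hy
        have h0 : Y y = 0 := hYx y (by linarith)
        rw [h0, hb.avk_eq_zero _ h0, sub_zero]
        intro z hz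
        refine hYx z ?_
        rw [abs_of_nonneg hs0'] at hz
        have : ‖y - x‖ ≤ ‖z - x‖ + ‖z - y‖ := by
          have := norm_sub_le (z - x) (z - y)
          rwa [sub_sub_sub_cancel_left] at this
        linarith
      · intro y hy
        have h0 : Y y = 0 := hYx' y (by linarith)
        rw [h0, hb.avk_eq_zero _ h0, sub_zero]
        intro z hz
        refine hYx' z ?_
        rw [abs_of_nonneg hs0'] at hz
        have : ‖y - x'‖ ≤ ‖z - x'‖ + ‖z - y‖ := by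
          have := norm_sub_le (z - x') (z - y)
          rwa [sub_sub_sub_cancel_left] at this
        linarith
  have hfin := key n le_rfl
  have hlast : |∫ y, ⟪fl b ε s0 f n y, e - e'⟫_ℝ * Y y| ≤ 1 * (Dx n + Dx' n) :=
    dir_bound (flB_cont hb hf ε s0 n) he he' x x' hY1 (fun y hy => hYx y (by linarith))
      (fun y hy => hYx' y (by linarith))
  have hf0 : 0 ≤ (1 / 4 : ℝ) ^ n * ∫ y in ball x R, ‖f y‖ :=
    mul_nonneg (by positivity) (setIntegral_nonneg measurableSet_ball fun y _ => norm_nonneg _)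
  have hf0' : 0 ≤ (1 / 4 : ℝ) ^ n * ∫ y in ball x' R, ‖f y‖ :=
    mul_nonneg (by positivity) (setIntegral_nonneg measurableSet_ball fun y _ => norm_nonneg _)
  have e1 : DD b ε R s0 f n x e = ∑ l ∈ Finset.range (n + 1), (1 / 4 : ℝ) ^ (n - l) * Dx l +
      (1 / 4 : ℝ) ^ n * ∫ y in ball x R, ‖f y‖ := DD_unit b ε R f n x e
  have e2 : DD b ε R s0 f n x' e' = ∑ l ∈ Finset.range (n + 1), (1 / 4 : ℝ) ^ (n - l) * Dx' l +
      (1 / 4 : ℝ) ^ n * ∫ y in ball x' R, ‖f y‖ := DD_unit b ε R f n x' e'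
  rw [e1, e2, Finset.sum_range_succ, Finset.sum_range_succ, Nat.sub_self, pow_zero, one_mul,
    one_mul]
  have e3 : ∑ l ∈ Finset.range n, 4 * (1 / 4 : ℝ) ^ (n - l) * (Dx l + Dx' l) =
      4 * (∑ l ∈ Finset.range n, (1 / 4 : ℝ) ^ (n - l) * Dx l) +
        4 * ∑ l ∈ Finset.range n, (1 / 4 : ℝ) ^ (n - l) * Dx' l := by
    rw [Finset.mul_sum, Finset.mul_sum, ← Finset.sum_add_distrib]
    refine Finset.sum_congr rfl fun l _ => ?_
    ring
  rw [e3] at hfin
  have := hDx0 n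
  have := hDx0' n
  linarith

end

end TG


end

section

/-!
# Module DV: solving the divergence equation on planes

The plane is identified with Sp (d-1); there module TP is applied to the gradient.
-/

set_option linter.unusedSectionVars false

open MeasureTheory Metric Set TrI
open scoped InnerProductSpace ContDiff

namespace TG
namespace DV

/-! ## The parametrisation of the plane -/

lemma frame {k : ℕ} (ν : Sp (k + 1)) (hν : ‖ν‖ = 1) :
    ∃ (I : Sp k →L[ℝ] Sp (k + 1)) (P : Sp (k + 1) →L[ℝ] Sp k), ‖I‖ ≤ 1 ∧ ‖P‖ ≤ 1 ∧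
      (∀ x, ‖I x‖ = ‖x‖) ∧ (∀ x, P (I x) = x) ∧ (∀ y, I (P y) = tang ν y) ∧
      (∀ x, ⟪ν, I x⟫_ℝ = 0) ∧ ∀ F : Sp (k + 1) → ℝ, plInt ν 0 F = ∫ x, F (I x) := by
  have : Fact (Module.finrank ℝ (Sp (k + 1)) = k + 1) := ⟨by simp⟩
  have hν0 : ν ≠ 0 := by
    intro h
    rw [h, norm_zero] at hν
    exact zero_ne_one hν
  let e : (Submodule.span ℝ {ν})ᗮ ≃ₗᵢ[ℝ] Sp k :=
    (OrthonormalBasis.fromOrthogonalSpanSingleton (𝕜 := ℝ) k hν0).repr
  let e1 : (Submodule.span ℝ {ν})ᗮ →L[ℝ] Sp k := e.toContinuousLinearEquiv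
  let e2 : Sp k →L[ℝ] (Submodule.span ℝ {ν})ᗮ := e.symm.toContinuousLinearEquiv
  have h1 : ∀ x, ‖((Submodule.span ℝ {ν})ᗮ.subtypeL.comp e2) x‖ = ‖x‖ := by
    intro x
    have : ‖((e.symm x : (Submodule.span ℝ {ν})ᗮ) : Sp (k + 1))‖ = ‖x‖ := by
      rw [Submodule.norm_coe, LinearIsometryEquiv.norm_map]
    exact this
  have h2 : ∀ y, ‖(e1.comp (Submodule.span ℝ {ν})ᗮ.orthogonalProjectionOnto) y‖ ≤ ‖y‖ := by
    intro y
    have : ‖e ((Submodule.span ℝ {ν})ᗮ.orthogonalProjectionOnto y)‖ ≤ ‖y‖ := by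
      rw [LinearIsometryEquiv.norm_map]
      exact Submodule.norm_orthogonalProjectionOnto_apply_le _ _
    exact this
  refine ⟨(Submodule.span ℝ {ν})ᗮ.subtypeL.comp e2,
    e1.comp (Submodule.span ℝ {ν})ᗮ.orthogonalProjectionOnto, ?_, ?_, h1, ?_, ?_, ?_, ?_⟩
  · refine ContinuousLinearMap.opNorm_le_bound _ zero_le_one fun x => ?_
    rw [h1, one_mul]
  · refine ContinuousLinearMap.opNorm_le_bound _ zero_le_one fun x => ?_
    rw [one_mul]
    exact h2 x
  · intro x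
    have : e ((Submodule.span ℝ {ν})ᗮ.orthogonalProjectionOnto
        ((e.symm x : (Submodule.span ℝ {ν})ᗮ) : Sp (k + 1))) = x := by
      rw [Submodule.orthogonalProjectionOnto_mem_subspace_eq_self, LinearIsometryEquiv.apply_symm_apply]
    exact this
  · intro y
    have : ((e.symm (e ((Submodule.span ℝ {ν})ᗮ.orthogonalProjectionOnto y)) :
        (Submodule.span ℝ {ν})ᗮ) : Sp (k + 1)) = tang ν y := by
      rw [LinearIsometryEquiv.symm_apply_apply]
      have h3 := Submodule.starProjection_orthogonal_val (K := Submodule.span ℝ {ν}) y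
      rw [Submodule.starProjection_unit_singleton ℝ hν] at h3
      exact h3
    exact this
  · intro x
    have := (e.symm x).2
    rw [Submodule.mem_orthogonal_singleton_iff_inner_right] at this
    exact this
  · intro F
    have h3 := e.symm.measurePreserving.integral_comp
      e.symm.toHomeomorph.measurableEmbedding (fun y => F ((0 : ℝ) • ν + (y : Sp (k + 1))))
    unfold plInt
    rw [← h3]
    refine integral_congr_ae (Filter.Eventually.of_forall fun x => ?_)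
    have : F ((0 : ℝ) • ν + ((e.symm x : (Submodule.span ℝ {ν})ᗮ) : Sp (k + 1))) =
      F ((e.symm x : (Submodule.span ℝ {ν})ᗮ) : Sp (k + 1)) := by rw [zero_smul, zero_add]
    exact this

/-- the map T of NSProp for the gradient -/
noncomputable def TT (k : ℕ) : (ContinuousMultilinearMap ℝ (fun _ : Fin 1 => Sp k) (Sp k)) →L[ℝ]
      (ContinuousMultilinearMap ℝ (fun _ : Fin (1 + 1) => Sp k) ℝ) :=
  ContinuousLinearMap.comp
    ((continuousMultilinearCurryRightEquiv' ℝ 1 (Sp k) ℝ).symm.toContinuousLinearEquiv :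
      (ContinuousMultilinearMap ℝ (fun _ : Fin 1 => Sp k) (Sp k →L[ℝ] ℝ)) →L[ℝ]
      (ContinuousMultilinearMap ℝ (fun _ : Fin (1 + 1) => Sp k) ℝ))
    (ContinuousLinearMap.compContinuousMultilinearMapL ℝ (fun _ : Fin 1 => Sp k) (Sp k)
      (Sp k →L[ℝ] ℝ) (TP.ip (Sp k)))

lemma rz_ip (k : ℕ) (S : Sp k →L[ℝ] ℝ) : TP.ip (Sp k) (TP.Rz (Sp k) S) = S := by
  ext w
  rw [TP.ip_apply, real_inner_comm, TP.inner_Rz]

lemma fo_cont {k : ℕ} {u : Sp k → ℝ} (hu : ContDiff ℝ ∞ u) :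
    ContDiff ℝ ∞ (fo (TP.Rz (Sp k)) u) :=
  (TP.Rz (Sp k)).contDiff.comp (hu.fderiv_right (m := ∞) (by simp))

lemma nsprop (k : ℕ) : NSProp (TP.Rz (Sp k)) 1 (TT k) := by
  intro u hu z
  rw [iteratedFDeriv_succ_eq_comp_right]
  have h1 : (fun y => fderiv ℝ u y) = (TP.ip (Sp k)) ∘ (fo (TP.Rz (Sp k)) u) := by
    funext y
    exact (rz_ip k (fderiv ℝ u y)).symm
  rw [h1]
  have h2 := (TP.ip (Sp k)).iteratedFDeriv_comp_left ((fo_cont hu).contDiffAt (x := z)) (i := 1)
    (by exact_mod_cast le_top)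
  rw [Function.comp_apply, h2]
  rfl

/-- the divergence in the form of an inner product sum -/
lemma weak {k : ℕ} {g : Sp k → ℝ} (hg : Continuous g) {Psi : Sp k → Sp k}
    (hP : ContDiff ℝ 1 Psi) (hs : HasCompactSupport Psi)
    (h : ∀ u : Sp k → ℝ, ContDiff ℝ ∞ u →
      ∫ x, u x * g x = ∫ x, ⟪fo (TP.Rz (Sp k)) u x, Psi x⟫_ℝ) :
    ∀ y, g y = -∑ i : Fin k, (fderiv ℝ Psi y (EuclideanSpace.single i (1 : ℝ))) i := by
  have hPd : Continuous (fderiv ℝ Psi) := (hP.fderiv_right (m := 0) (by simp)).continuous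
  have hdc : ∀ i : Fin k, Continuous
      (fun y => (fderiv ℝ Psi y (EuclideanSpace.single i (1 : ℝ))) i) := by
    intro i
    have : Continuous (fun y => fderiv ℝ Psi y (EuclideanSpace.single i (1 : ℝ))) :=
      hPd.clm_apply continuous_const
    exact (EuclideanSpace.proj (𝕜 := ℝ) i).continuous.comp this
  let G : Sp k → ℝ := fun y => g y +
    ∑ i : Fin k, (fderiv ℝ Psi y (EuclideanSpace.single i (1 : ℝ))) i
  have hGc : Continuous G := hg.add (continuous_finsetSum _ fun i _ => hdc i)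
  have hmain : ∀ u : Sp k → ℝ, ContDiff ℝ ∞ u → HasCompactSupport u → ∫ x, u x • G x = 0 := by
    intro u hu hus
    have huc : Continuous u := hu.continuous
    have hui : ∀ F : Sp k → ℝ, Continuous F → Integrable (fun x => u x * F x) := by
      intro F hF
      exact (huc.mul hF).integrable_of_hasCompactSupport hus.mul_right
    have e1 : ∀ i : Fin k, ∫ x, Psi x i * fderiv ℝ u x (EuclideanSpace.single i (1 : ℝ)) =
        -∫ x, u x * (fderiv ℝ Psi x (EuclideanSpace.single i (1 : ℝ))) i := by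
      intro i
      have hb := TP.ibp_one
        ((ContinuousLinearMap.mul ℝ ℝ).comp (EuclideanSpace.proj (𝕜 := ℝ) i)) hP hs
        (hu.of_le (by exact_mod_cast le_top)) (EuclideanSpace.single i (1 : ℝ))
      have e2 : ∀ p, (((ContinuousLinearMap.mul ℝ ℝ).comp (EuclideanSpace.proj (𝕜 := ℝ) i))
          (Psi p)) (fderiv ℝ u p (EuclideanSpace.single i (1 : ℝ))) =
          Psi p i * fderiv ℝ u p (EuclideanSpace.single i (1 : ℝ)) := fun p => rfl
      have e3 : ∀ p, (((ContinuousLinearMap.mul ℝ ℝ).comp (EuclideanSpace.proj (𝕜 := ℝ) i))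
          (fderiv ℝ Psi p (-(EuclideanSpace.single i (1 : ℝ))))) (u p) =
          -(u p * (fderiv ℝ Psi p (EuclideanSpace.single i (1 : ℝ))) i) := by
        intro p
        have : (((ContinuousLinearMap.mul ℝ ℝ).comp (EuclideanSpace.proj (𝕜 := ℝ) i))
          (fderiv ℝ Psi p (-(EuclideanSpace.single i (1 : ℝ))))) (u p) =
          (fderiv ℝ Psi p (-(EuclideanSpace.single i (1 : ℝ)))) i * u p := rfl
        rw [this, map_neg, PiLp.neg_apply]
        ring
      simp_rw [e2, e3] at hb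
      rw [hb, integral_neg]
    have e4 : ∫ x, ⟪fo (TP.Rz (Sp k)) u x, Psi x⟫_ℝ =
        ∑ i : Fin k, ∫ x, Psi x i * fderiv ℝ u x (EuclideanSpace.single i (1 : ℝ)) := by
      rw [← integral_finsetSum]
      · refine integral_congr_ae (Filter.Eventually.of_forall fun x => ?_)
        have h1 : ⟪fo (TP.Rz (Sp k)) u x, Psi x⟫_ℝ = fderiv ℝ u x (Psi x) := by
          rw [real_inner_comm]
          exact TP.inner_Rz _ _
        have h2 : Psi x = ∑ i, Psi x i • (EuclideanSpace.single i (1 : ℝ) : Sp k) := by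
          conv_lhs => rw [← (EuclideanSpace.basisFun (Fin k) ℝ).sum_repr (Psi x)]
          refine Finset.sum_congr rfl fun i _ => ?_
          simp
        simp only
        rw [h1]
        conv_lhs => rw [h2, map_sum]
        refine Finset.sum_congr rfl fun i _ => ?_
        rw [map_smul, smul_eq_mul]
      · intro i _
        have hc : Continuous (fun x => Psi x i * fderiv ℝ u x (EuclideanSpace.single i (1 : ℝ))) := by
          have h1 : Continuous (fun x => Psi x i) :=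
            (EuclideanSpace.proj (𝕜 := ℝ) i).continuous.comp hP.continuous
          have h2 : Continuous (fderiv ℝ u) := (hu.fderiv_right (m := 0) (by simp)).continuous
          exact h1.mul (h2.clm_apply continuous_const)
        refine TP.cs_int hc hs fun p hp => ?_
        rw [hp]
        simp
    have e5 : ∫ x, u x • G x = (∫ x, u x * g x) +
        ∑ i : Fin k, ∫ x, u x * (fderiv ℝ Psi x (EuclideanSpace.single i (1 : ℝ))) i := by
      rw [← integral_finsetSum _ fun i _ => hui _ (hdc i), ← integral_add (hui g hg)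
        (integrable_finsetSum _ fun i _ => hui _ (hdc i))]
      refine integral_congr_ae (Filter.Eventually.of_forall fun x => ?_)
      simp only [G, smul_eq_mul, mul_add, Finset.mul_sum]
    rw [e5, h u hu, e4]
    simp_rw [e1]
    rw [Finset.sum_neg_distrib]
    ring
  have h0 : ∀ᵐ x ∂(volume : Measure (Sp k)), G x = 0 :=
    ae_eq_zero_of_integral_contDiff_smul_eq_zero hGc.locallyIntegrable hmain
  have h1 : G = fun _ => 0 := by
    rw [← hGc.ae_eq_iff_eq (volume : Measure (Sp k)) continuous_const]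
    exact h0
  intro y
  have h2 := congrFun h1 y
  simp only [G] at h2
  linarith

/-! ## The solution in the plane -/

/-- the kernel of the correction -/
noncomputable def be (k : ℕ) (r : ℝ) (y : Sp k) : ℝ := r⁻¹ ^ k * bk k (r⁻¹ • y + 0)

lemma be_contDiff (k : ℕ) (r : ℝ) : ContDiff ℝ ∞ (be k r) := by
  unfold be
  have hb : ContDiff ℝ ∞ (bk k) := bk_contDiff
  fun_prop

lemma be_zero {k : ℕ} {r : ℝ} (hr : 0 < r) {y : Sp k} (hy : r ≤ ‖y‖) : be k r y = 0 := by
  unfold be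
  rw [bk_zero, mul_zero]
  rw [add_zero, norm_smul, norm_inv, Real.norm_eq_abs, abs_of_pos hr, inv_mul_eq_div,
    le_div_iff₀ hr, one_mul]
  exact hy

lemma be_bd (k J : ℕ) {r : ℝ} (hr : 0 < r) : ∃ M : ℝ, 0 < M ∧
    ∀ j ≤ J, ∀ y, ‖iteratedFDeriv ℝ j (be k r) y‖ ≤ M := by
  have h1 : ∀ j : ℕ, ∃ M : ℝ, ∀ y, ‖iteratedFDeriv ℝ j (be k r) y‖ ≤ M := by
    intro j
    have hc : Continuous (iteratedFDeriv ℝ j (be k r)) :=
      (be_contDiff k r).continuous_iteratedFDeriv (by exact_mod_cast le_top)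
    have hs : HasCompactSupport (be k r) := by
      refine HasCompactSupport.intro (isCompact_closedBall (0 : Sp k) r) fun y hy => ?_
      rw [mem_closedBall_zero_iff, not_le] at hy
      exact be_zero hr hy.le
    exact (hs.iteratedFDeriv j).exists_bound_of_continuous hc
  choose M hM using h1
  refine ⟨1 + ∑ j ∈ Finset.range (J + 1), |M j|, by positivity, ?_⟩
  intro j hj y
  have h2 : |M j| ≤ ∑ j ∈ Finset.range (J + 1), |M j| :=
    Finset.single_le_sum (f := fun j => |M j|) (fun _ _ => abs_nonneg _)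
      (Finset.mem_range.mpr (by omega))
  have h3 := hM j y
  have h4 := le_abs_self (M j)
  linarith

/-- the averaged Taylor polynomial of degree one integrates against g to a gradient integral -/
lemma atp_int {k : ℕ} {r : ℝ} (hr : 0 < r) {g : Sp k → ℝ} (hg : Continuous g)
    (hgs : HasCompactSupport g) (h0 : ∫ x, g x = 0) {u : Sp k → ℝ} (hu : ContDiff ℝ ∞ u) :
    Integrable (fun x => ATP 1 0 r u x * g x) ∧
    ∫ x, ATP 1 0 r u x * g x =
      ∫ x, ⟪fo (TP.Rz (Sp k)) u x, be k r x • ∫ y, g y • y⟫_ℝ := by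
  have huc : Continuous u := hu.continuous
  have hdc : Continuous (fderiv ℝ u) := (hu.fderiv_right (m := 0) (by simp)).continuous
  have hbc : Continuous (bk k) := bk_cont
  have hbs : HasCompactSupport (bk k) := (bmp k).hasCompactSupport_normed
  have hi1 : Integrable (fun z : Sp k => bk k z * (u (r • z) - fderiv ℝ u (r • z) (r • z))) := by
    have hc : Continuous (fun z : Sp k => (u (r • z) - fderiv ℝ u (r • z) (r • z))) := by fun_prop
    exact (hbc.mul hc).integrable_of_hasCompactSupport hbs.mul_right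
  have hi2 : Integrable (fun z : Sp k => bk k z • fderiv ℝ u (r • z)) := by
    have hc : Continuous (fun z : Sp k => fderiv ℝ u (r • z)) := by fun_prop
    exact (hbc.smul hc).integrable_of_hasCompactSupport hbs.smul_right
  have hA : ∀ x, ATP 1 0 r u x = (∫ z, bk k z * (u (r • z) - fderiv ℝ u (r • z) (r • z))) +
      (∫ z, bk k z • fderiv ℝ u (r • z)) x := by
    intro x
    rw [ContinuousLinearMap.integral_apply hi2, ← integral_add hi1
      (hi2.apply_continuousLinearMap x)]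
    unfold ATP
    refine integral_congr_ae (Filter.Eventually.of_forall fun z => ?_)
    simp only [Finset.sum_range_succ, Finset.sum_range_zero, zero_add, Nat.factorial,
      iteratedFDeriv_zero_apply, iteratedFDeriv_one_apply, smul_eq_mul,
      _root_.map_sub, Nat.cast_one, inv_one, one_mul,
      _root_.smul_apply]
    ring
  have hgx : Integrable (fun y : Sp k => g y • y) :=
    (hg.smul continuous_id).integrable_of_hasCompactSupport hgs.smul_right
  have hgi : Integrable g := hg.integrable_of_hasCompactSupport hgs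
  have hl := ContinuousLinearMap.integral_comp_comm (∫ z, bk k z • fderiv ℝ u (r • z)) hgx
  have hli : Integrable (fun y : Sp k => (∫ z, bk k z • fderiv ℝ u (r • z)) (g y • y)) :=
    ContinuousLinearMap.integrable_comp _ hgx
  have e0 : ∀ x, ATP 1 0 r u x * g x =
      (∫ z, bk k z * (u (r • z) - fderiv ℝ u (r • z) (r • z))) * g x +
      (∫ z, bk k z • fderiv ℝ u (r • z)) (g x • x) := by
    intro x
    rw [hA, map_smul, smul_eq_mul]
    ring
  refine ⟨?_, ?_⟩
  · simp_rw [e0]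
    exact (hgi.const_mul _).add hli
  simp_rw [e0]
  rw [integral_add (hgi.const_mul _) hli, integral_const_mul, h0, mul_zero, zero_add, hl,
    ContinuousLinearMap.integral_apply hi2]
  have e1 := TP.cov (f := fun z : Sp k => bk k z * fderiv ℝ u (r • z) (∫ y, g y • y))
    (inv_pos.mpr hr) 0
  have e2 : ∫ z, (bk k z • fderiv ℝ u (r • z)) (∫ y, g y • y) =
      ∫ z : Sp k, bk k z * fderiv ℝ u (r • z) (∫ y, g y • y) := rfl
  rw [e2, ← e1]
  refine integral_congr_ae (Filter.Eventually.of_forall fun x => ?_)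
  simp only
  rw [real_inner_comm]
  have e3 : ⟪be k r x • ∫ y, g y • y, fo (TP.Rz (Sp k)) u x⟫_ℝ =
      fderiv ℝ u x (be k r x • ∫ y, g y • y) := TP.inner_Rz _ _
  rw [e3, map_smul, smul_eq_mul]
  have e4 : r • (r⁻¹ • x + 0) = x := by
    rw [add_zero, smul_smul, mul_inv_cancel₀ hr.ne', one_smul]
  rw [e4]
  unfold be
  ring

lemma solve (h : StmtTP) (k : ℕ) (hk : 1 ≤ k) (J : ℕ) (ρ : ℝ) (hρ : 0 < ρ) :
    ∃ C : ℝ, 0 < C ∧ ∀ (g : Sp k → ℝ) (N : ℝ), TFn (J + 2) N g → (∀ y, ρ < ‖y‖ → g y = 0) →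
      ∫ x, g x = 0 → ∃ Psi : Sp k → Sp k, TFn J (C * N) Psi ∧ (∀ y, ρ < ‖y‖ → Psi y = 0) ∧
        ∀ u : Sp k → ℝ, ContDiff ℝ ∞ u →
          ∫ x, u x * g x = ∫ x, ⟪fo (TP.Rz (Sp k)) u x, Psi x⟫_ℝ := by
  obtain ⟨C1, hC1, h1⟩ := h k ℝ (Sp k) (TP.Rz (Sp k)) 1 (TT k) hk le_rfl (nsprop k) J (ρ / 2)
    (ρ + 1) (by linarith) (by linarith)
  obtain ⟨M, hM, hb⟩ := be_bd k J (r := ρ / 2) (by linarith)
  refine ⟨C1 + M * (ρ * (volume.real (closedBall (0 : Sp k) ρ))) + 1, by positivity, ?_⟩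
  intro g N hg hgs hg0
  have hN : 0 ≤ N := (norm_nonneg _).trans (hg.bd 0 (Nat.zero_le _) 0)
  have hgc : Continuous g := hg.smooth.continuous
  have hgcs : HasCompactSupport g := by
    refine HasCompactSupport.intro (isCompact_closedBall (0 : Sp k) ρ) fun y hy => ?_
    rw [mem_closedBall_zero_iff, not_le] at hy
    exact hgs y hy
  obtain ⟨Φ, hΦ1, hΦ2, hΦ3⟩ := h1 0 (ρ / 2) (by rw [norm_zero]; linarith) le_rfl (by linarith)
    g N hg (fun y hy => hgs y (by linarith))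
  have hsub : convexHull ℝ (tsupport g ∪ closedBall (0 : Sp k) (ρ / 2)) ⊆ closedBall 0 ρ := by
    refine convexHull_min (union_subset ?_ (closedBall_subset_closedBall (by linarith)))
      (convex_closedBall _ _)
    refine closure_minimal ?_ isClosed_closedBall
    intro y hy
    rw [mem_closedBall_zero_iff]
    by_contra hlt
    rw [not_le] at hlt
    exact hy (hgs y hlt)
  have hΦs : ∀ y, ρ < ‖y‖ → Φ y = 0 := by
    intro y hy
    by_contra hne
    have := hsub (hΦ2 y hne)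
    rw [mem_closedBall_zero_iff] at this
    linarith
  have hbes : ∀ y : Sp k, ρ < ‖y‖ → be k (ρ / 2) y = 0 :=
    fun y hy => be_zero (by linarith) (by linarith)
  have hΦcs : HasCompactSupport Φ := by
    refine HasCompactSupport.intro (isCompact_closedBall (0 : Sp k) ρ) fun y hy => ?_
    rw [mem_closedBall_zero_iff, not_le] at hy
    exact hΦs y hy
  have hbecs : HasCompactSupport (be k (ρ / 2)) := by
    refine HasCompactSupport.intro (isCompact_closedBall (0 : Sp k) ρ) fun y hy => ?_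
    rw [mem_closedBall_zero_iff, not_le] at hy
    exact hbes y hy
  have hbec : ContDiff ℝ J (be k (ρ / 2)) := (be_contDiff _ _).of_le (by exact_mod_cast le_top)
  obtain ⟨v0, hv0⟩ : ∃ v0 : Sp k, v0 = ∫ y, g y • y := ⟨_, rfl⟩
  have hv0n : ‖v0‖ ≤ N * ρ * (volume.real (closedBall (0 : Sp k) ρ)) := by
    have e1 : v0 = ∫ y in closedBall (0 : Sp k) ρ, g y • y := by
      rw [hv0, setIntegral_eq_integral_of_forall_compl_eq_zero]
      intro y hy
      rw [mem_closedBall_zero_iff, not_le] at hy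
      rw [hgs y hy, zero_smul]
    rw [e1]
    refine norm_setIntegral_le_of_norm_le_const measure_closedBall_lt_top fun y hy => ?_
    rw [mem_closedBall_zero_iff] at hy
    rw [norm_smul]
    have e2 : ‖g y‖ ≤ N := by
      have := hg.bd 0 (Nat.zero_le _) y
      rwa [norm_iteratedFDeriv_zero] at this
    (clear * - e2 hy hN; gcongr)
  let D : ℝ →L[ℝ] Sp k := (ContinuousLinearMap.id ℝ ℝ).smulRight v0
  have hD : ‖D‖ ≤ ‖v0‖ := by
    refine ContinuousLinearMap.opNorm_le_bound _ (norm_nonneg _) fun t => ?_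
    have : D t = t • v0 := rfl
    rw [this, norm_smul, mul_comm]
  have hDc : ContDiff ℝ J (D ∘ be k (ρ / 2)) := D.contDiff.comp hbec
  have hDb : ∀ j ≤ J, ∀ y, ‖iteratedFDeriv ℝ j (D ∘ be k (ρ / 2)) y‖ ≤ ‖v0‖ * M := by
    intro j hj y
    have e1 := D.norm_iteratedFDeriv_comp_left (hbec.contDiffAt (x := y)) (n := j)
      (by exact_mod_cast hj)
    calc _ ≤ _ := e1
      _ ≤ ‖v0‖ * M := by
        gcongr
        exact hb j hj y
  refine ⟨fun y => Φ y + (D ∘ be k (ρ / 2)) y, ⟨hΦ1.smooth.add hDc, ?_⟩, ?_, ?_⟩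
  · intro j hj y
    have e1 : iteratedFDeriv ℝ j (fun y => Φ y + (D ∘ be k (ρ / 2)) y) y =
        iteratedFDeriv ℝ j Φ y + iteratedFDeriv ℝ j (D ∘ be k (ρ / 2)) y := by
      have := iteratedFDeriv_add_apply
        ((hΦ1.smooth.contDiffAt (x := y)).of_le (m := (j : ℕ)) (by exact_mod_cast hj))
        ((hDc.contDiffAt (x := y)).of_le (m := (j : ℕ)) (by exact_mod_cast hj))
      exact this
    rw [e1]
    refine (norm_add_le _ _).trans ?_
    have e2 := hΦ1.bd j hj y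
    have e3 := hDb j hj y
    have e4 : ‖v0‖ * M ≤ N * ρ * (volume.real (closedBall (0 : Sp k) ρ)) * M := by gcongr
    linarith only [hN, e2, e3, e4]
  · intro y hy
    have e1 : Φ y + (D ∘ be k (ρ / 2)) y = 0 := by
      rw [hΦs y hy, Function.comp_apply, hbes y hy, map_zero, add_zero]
    exact e1
  · intro u hu
    have huc : Continuous u := hu.continuous
    obtain ⟨hi, he⟩ := atp_int (r := ρ / 2) (by linarith) hgc hgcs hg0 hu
    have hi2 : Integrable (fun x => u x * g x) :=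
      (huc.mul hgc).integrable_of_hasCompactSupport hgcs.mul_left
    have h3 := hΦ3 u hu
    have e1 : ∀ x, ⟪u x - ATP 1 0 (ρ / 2) u x, g x⟫_ℝ =
        u x * g x - ATP 1 0 (ρ / 2) u x * g x := by
      intro x
      rw [RCLike.inner_apply, conj_trivial]
      ring
    simp_rw [e1] at h3
    rw [integral_sub hi2 hi] at h3
    have hfc : Continuous (fo (TP.Rz (Sp k)) u) := (fo_cont hu).continuous
    have hi3 : Integrable (fun x => ⟪fo (TP.Rz (Sp k)) u x, Φ x⟫_ℝ) := by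
      refine TP.cs_int (hfc.inner hΦ1.smooth.continuous) hΦcs fun p hp => ?_
      rw [hp, inner_zero_right]
    have hi4 : Integrable (fun x => ⟪fo (TP.Rz (Sp k)) u x, be k (ρ / 2) x • v0⟫_ℝ) := by
      refine TP.cs_int (hfc.inner (hbec.continuous.smul continuous_const)) hbecs fun p hp => ?_
      rw [hp, zero_smul, inner_zero_right]
    have e5 : ∫ x, ⟪fo (TP.Rz (Sp k)) u x, Φ x + (D ∘ be k (ρ / 2)) x⟫_ℝ =
        (∫ x, ⟪fo (TP.Rz (Sp k)) u x, Φ x⟫_ℝ) +
        ∫ x, ⟪fo (TP.Rz (Sp k)) u x, be k (ρ / 2) x • v0⟫_ℝ := by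
      rw [← integral_add hi3 hi4]
      refine integral_congr_ae (Filter.Eventually.of_forall fun x => ?_)
      simp only [inner_add_right]
      rfl
    rw [e5, ← h3, hv0, ← he]
    ring

end DV

theorem stmtDV (h : StmtTP) : StmtDV := by
  intro d hd J
  obtain ⟨k, rfl⟩ : ∃ k, d = k + 1 := ⟨d - 1, by omega⟩
  have hk : 1 ≤ k := by omega
  refine ⟨J + 1 + 2, fun ρ hρ => ?_⟩
  obtain ⟨C, hC, hs⟩ := DV.solve h k hk (J + 1) ρ hρ
  refine ⟨C, hC, ?_⟩
  intro ν hν ζ N hζ hcyl hint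
  obtain ⟨I, P, hI, hP, hIn, hPI, hIP, hνI, hpl⟩ := DV.frame ν hν
  have hgT : TFn (J + 1 + 2) N (fun x => ζ (I x)) := by
    refine ⟨hζ.smooth.comp I.contDiff, ?_⟩
    intro j hj x
    have e1 := I.iteratedFDeriv_comp_right hζ.smooth x (i := j) (by exact_mod_cast hj)
    have e2 : (fun x => ζ (I x)) = ζ ∘ I := rfl
    rw [e2, e1]
    refine (ContinuousMultilinearMap.norm_compContinuousLinearMap_le _ _).trans ?_
    rw [Finset.prod_const, Finset.card_univ, Fintype.card_fin]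
    calc ‖iteratedFDeriv ℝ j ζ (I x)‖ * ‖I‖ ^ j ≤ N * 1 := by
          gcongr
          · exact (norm_nonneg _).trans (hζ.bd j hj (I x))
          · exact hζ.bd j hj (I x)
          · exact pow_le_one₀ (norm_nonneg _) hI
      _ = N := mul_one _
  have htI : ∀ x, tang ν (I x) = I x := by
    intro x
    unfold tang
    rw [hνI, zero_smul, sub_zero]
  have hgs : ∀ y, ρ < ‖y‖ → ζ (I y) = 0 := by
    intro y hy
    by_contra hne
    have := hcyl.supp _ hne
    rw [htI, hIn] at this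
    linarith
  obtain ⟨Psi, hPsi, hPs, hPw⟩ := hs (fun x => ζ (I x)) N hgT hgs (by rw [← hpl]; exact hint)
  have hPcs : HasCompactSupport Psi := by
    refine HasCompactSupport.intro (isCompact_closedBall (0 : Sp k) ρ) fun y hy => ?_
    rw [mem_closedBall_zero_iff, not_le] at hy
    exact hPs y hy
  have hdiv := DV.weak hgT.smooth.continuous (hPsi.smooth.of_le (by norm_cast; omega)) hPcs hPw
  have hPP : ContDiff ℝ (J + 1 : ℕ) (Psi ∘ P) := hPsi.smooth.comp P.contDiff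
  have hYc : ContDiff ℝ (J + 1 : ℕ) ((-I) ∘ (Psi ∘ P)) := (-I).contDiff.comp hPP
  have hCN : 0 ≤ C * N := (norm_nonneg _).trans (hPsi.bd 0 (Nat.zero_le _) 0)
  refine ⟨(-I) ∘ (Psi ∘ P), ⟨hYc.of_le (by norm_cast; omega), ?_⟩, ⟨?_, ?_⟩, ?_, ?_⟩
  · intro j hj y
    have e1 := (-I).norm_iteratedFDeriv_comp_left (hPP.contDiffAt (x := y)) (n := j)
      (by norm_cast; omega)
    have e2 := P.iteratedFDeriv_comp_right hPsi.smooth y (i := j) (by norm_cast; omega)
    have e3 : ‖iteratedFDeriv ℝ j (Psi ∘ P) y‖ ≤ C * N := by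
      rw [e2]
      refine (ContinuousMultilinearMap.norm_compContinuousLinearMap_le _ _).trans ?_
      rw [Finset.prod_const, Finset.card_univ, Fintype.card_fin]
      calc ‖iteratedFDeriv ℝ j Psi (P y)‖ * ‖P‖ ^ j ≤ (C * N) * 1 := by
            gcongr
            · exact hPsi.bd j (by omega) (P y)
            · exact pow_le_one₀ (norm_nonneg _) hP
        _ = C * N := mul_one _
    calc _ ≤ _ := e1
      _ ≤ 1 * (C * N) := by
        gcongr
        rw [norm_neg]
        exact hI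
      _ = C * N := one_mul _
  · intro y
    have e1 : P (tang ν y) = P y := by rw [← hIP, hPI]
    simp only [Function.comp_apply, e1]
  · intro y hy
    by_contra hlt
    rw [not_le, ← hIP, hIn] at hlt
    apply hy
    simp only [Function.comp_apply]
    rw [hPs _ hlt, map_zero]
  · intro y
    simp only [Function.comp_apply, _root_.neg_apply, inner_neg_right, hνI, neg_zero]
  · intro y
    have hPd : HasFDerivAt Psi (fderiv ℝ Psi (P y)) (P y) :=
      ((hPsi.smooth.differentiable (by norm_cast)) (P y)).hasFDerivAt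
    have hYd : HasFDerivAt ((-I) ∘ (Psi ∘ P)) ((-I).comp ((fderiv ℝ Psi (P y)).comp P)) y :=
      (-I).hasFDerivAt.comp y (hPd.comp y P.hasFDerivAt)
    unfold dv
    rw [hYd.fderiv]
    have e1 := LinearMap.trace_eq_sum_inner
      (((-I).comp ((fderiv ℝ Psi (P y)).comp P) : Sp (k + 1) →L[ℝ] Sp (k + 1)) :
        Sp (k + 1) →ₗ[ℝ] Sp (k + 1)) (EuclideanSpace.basisFun (Fin (k + 1)) ℝ)
    have e2 := LinearMap.trace_eq_sum_inner
      ((fderiv ℝ Psi (P y) : Sp k →L[ℝ] Sp k) : Sp k →ₗ[ℝ] Sp k)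
      (EuclideanSpace.basisFun (Fin k) ℝ)
    have e3 := LinearMap.trace_comp_comm' (R := ℝ)
      (((fderiv ℝ Psi (P y)).comp P : Sp (k + 1) →L[ℝ] Sp k) : Sp (k + 1) →ₗ[ℝ] Sp k)
      ((-I : Sp k →L[ℝ] Sp (k + 1)) : Sp k →ₗ[ℝ] Sp (k + 1))
    have e4 : ((((fderiv ℝ Psi (P y)).comp P : Sp (k + 1) →L[ℝ] Sp k) :
        Sp (k + 1) →ₗ[ℝ] Sp k)) ∘ₗ ((-I : Sp k →L[ℝ] Sp (k + 1)) : Sp k →ₗ[ℝ] Sp (k + 1)) =
        -((fderiv ℝ Psi (P y) : Sp k →L[ℝ] Sp k) : Sp k →ₗ[ℝ] Sp k) := by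
      ext1 x
      have : (fderiv ℝ Psi (P y)) (P (-(I x))) = -(fderiv ℝ Psi (P y) x) := by
        rw [map_neg, hPI, map_neg]
      exact this
    have e5 : ((-I : Sp k →L[ℝ] Sp (k + 1)) : Sp k →ₗ[ℝ] Sp (k + 1)) ∘ₗ
        (((fderiv ℝ Psi (P y)).comp P : Sp (k + 1) →L[ℝ] Sp k) : Sp (k + 1) →ₗ[ℝ] Sp k) =
        (((-I).comp ((fderiv ℝ Psi (P y)).comp P) : Sp (k + 1) →L[ℝ] Sp (k + 1)) :
        Sp (k + 1) →ₗ[ℝ] Sp (k + 1)) := rfl
    rw [e5, e4, map_neg, e1, e2] at e3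
    have e6 : ∀ i : Fin (k + 1), ⟪EuclideanSpace.basisFun (Fin (k + 1)) ℝ i,
        (((-I).comp ((fderiv ℝ Psi (P y)).comp P) : Sp (k + 1) →L[ℝ] Sp (k + 1)) :
        Sp (k + 1) →ₗ[ℝ] Sp (k + 1)) (EuclideanSpace.basisFun (Fin (k + 1)) ℝ i)⟫_ℝ =
        (((-I).comp ((fderiv ℝ Psi (P y)).comp P)) (EuclideanSpace.single i (1 : ℝ))) i := by
      intro i
      rw [EuclideanSpace.basisFun_apply, EuclideanSpace.inner_single_left]
      simp
    have e7 : ∀ i : Fin k, ⟪EuclideanSpace.basisFun (Fin k) ℝ i,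
        ((fderiv ℝ Psi (P y) : Sp k →L[ℝ] Sp k) : Sp k →ₗ[ℝ] Sp k)
        (EuclideanSpace.basisFun (Fin k) ℝ i)⟫_ℝ =
        (fderiv ℝ Psi (P y) (EuclideanSpace.single i (1 : ℝ))) i := by
      intro i
      rw [EuclideanSpace.basisFun_apply, EuclideanSpace.inner_single_left]
      simp
    simp_rw [e6, e7] at e3
    rw [e3, ← hdiv, hIP, ← hcyl.const]

end TG


end

section

/-!
# The tangential gradient of W (module WB, part (a))
-/

open MeasureTheory Metric Set TrI Filter Topology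
open scoped InnerProductSpace ContDiff

namespace TG

noncomputable section

namespace WBT

variable {d : ℕ}

lemma EE_nonneg {C : ℝ} {V : ℝ → Sp d → ℝ} (hV : VOK C V) (hC : 0 ≤ C) (n : Sp d) {ε : ℝ}
    (hε : 0 < ε) {β : Sp d → ℝ} (hβ0 : ∀ z, 0 ≤ β z) (y : Sp d) : 0 ≤ EE C V β n ε y := by
  unfold EE
  have h1 := (hV.pos 1 y one_pos).le
  have h2 : 0 ≤ discR n (2 * ε) (XT V β n ε) y := by
    refine integral_nonneg fun u => ?_
    unfold XT
    refine intervalIntegral.integral_nonneg (by norm_num) fun r hr => ?_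
    exact mul_nonneg (tau_nonneg r) (gg_nonneg hV n ε hβ0 (by
      have := hr.1
      linarith) _)
  have h3 := vQ_nonneg (d := d)
  positivity

/-- tangential kernels -/
lemma S_bd {C : ℝ} {V : ℝ → Sp d → ℝ} (hV : VOK C V) {n : Sp d} (hn : ‖n‖ = 1) {ε : ℝ}
    (hε : 0 < ε) (hε1 : ε ≤ 1) {β : Sp d → ℝ} (hβ : KC 0 β) (hβ0 : ∀ z, 0 ≤ β z) {e : Sp d}
    (he : ‖e‖ ≤ 1) (hne : ⟪n, e⟫_ℝ = 0) : ∀ (j : ℕ) (G : Type) [NormedAddCommGroup G]
    [NormedSpace ℝ G] [CompleteSpace G] (K : Sp d → G) (P R0 : ℝ) (ρ : ℝ → ℝ), 0 ≤ P → 0 ≤ R0 →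
    KB j P (disc n β) K → SF (fun r (_ : Sp d) => ρ r) →
    (∀ r, 1 / 2 ≤ r → r ≤ 2 → |ρ r| ≤ R0) → ∀ y,
    ‖iteratedFDeriv ℝ j (II ε (pr (fun r x => ρ r * pX V e r x) K)) y‖
      ≤ (2 / ε) ^ j * (P * R0) * Real.sqrt (EE C V β n ε y) := by
  intro j
  induction j with
  | zero =>
    intro G _ _ _ K P R0 ρ hP hR0 hK hρ hρb y
    rw [norm_iteratedFDeriv_zero, pow_zero, one_mul]
    refine e1' hV hn hε hε1 hβ hβ0 (Reg.pr (hρ.mul (hV.sf.pX e)) hK.kc) (by positivity) y ?_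
    intro r z hr hr2 _
    unfold pr
    rw [norm_smul, Real.norm_eq_abs, abs_mul, Real.sqrt_mul (disc_nonneg n hβ0 z)]
    have h1 := pX_le_QH V he hne ε r z (y + (ε * r) • z)
    have h2 := hK.norm_le z
    have h3 := hρb r hr hr2
    have h4 : |ρ r| * |pX V e r (y + (ε * r) • z)|
        ≤ R0 * Real.sqrt (QH V n ε r z (y + (ε * r) • z)) :=
      mul_le_mul h3 h1 (abs_nonneg _) hR0
    calc |ρ r| * |pX V e r (y + (ε * r) • z)| * ‖K z‖
        ≤ (R0 * Real.sqrt (QH V n ε r z (y + (ε * r) • z))) * (P * Real.sqrt (disc n β z)) :=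
          mul_le_mul h4 h2 (norm_nonneg _) (by positivity)
      _ = _ := by ring
  | succ j ih =>
    intro G _ _ _ K P R0 ρ hP hR0 hK hρ hρb y
    rw [← norm_iteratedFDeriv_fderiv, II_pr_fderiv (hρ.mul (hV.sf.pX e)) hK.kc hε]
    have hρ' : SF (fun r (_ : Sp d) => -(1 / (ε * r)) * ρ r) := (SF.inv_r hε).mul hρ
    have hb' : ∀ r, 1 / 2 ≤ r → r ≤ 2 → |(-(1 / (ε * r)) * ρ r)| ≤ (2 / ε) * R0 := by
      intro r hr hr2
      rw [abs_mul, abs_neg, abs_of_pos (by positivity)]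
      refine mul_le_mul ?_ (hρb r hr hr2) (abs_nonneg _) (by positivity)
      rw [div_le_div_iff₀ (by positivity) hε]
      nlinarith
    have h1 := ih (Sp d →L[ℝ] G) (fderiv ℝ K) P ((2 / ε) * R0) _ hP (by positivity) hK.fderiv
      hρ' hb' y
    have h2 : (fun (r : ℝ) (x : Sp d) => -(1 / (ε * r)) * (ρ r * pX V e r x))
        = fun r x => (-(1 / (ε * r)) * ρ r) * pX V e r x := by
      funext r x
      ring
    rw [h2]
    refine h1.trans (le_of_eq ?_)
    rw [pow_succ]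
    ring

lemma fderiv_tens {G : Type*} [NormedAddCommGroup G] [NormedSpace ℝ G] {m : ℕ} {K : Sp d → G}
    (hK : KC (m + 1) K) (n e : Sp d) :
    (fun z => fderiv ℝ (tens n K) z e) = tens n (fun z => fderiv ℝ K z e) := by
  funext z
  have h1 : HasFDerivAt (tens n K)
      (((ContinuousLinearMap.smulRightL ℝ (Sp d) G) (innerSL ℝ n)).comp (fderiv ℝ K z)) z :=
    ((ContinuousLinearMap.smulRightL ℝ (Sp d) G) (innerSL ℝ n)).hasFDerivAt.comp z
      (hK.diff z).hasFDerivAt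
  rw [h1.fderiv]
  rfl

lemma fderiv_dir {G : Type*} [NormedAddCommGroup G] [NormedSpace ℝ G] {m : ℕ} {K : Sp d → G}
    (hK : KC (m + 2) K) (e : Sp d) :
    fderiv ℝ (fun z => fderiv ℝ K z e) = fun z => fderiv ℝ (fderiv ℝ K) z e := by
  funext z
  have h2 : DifferentiableAt ℝ (fderiv ℝ K) z := (hK.fderiv (m := m + 1)).diff z
  have h3 : HasFDerivAt (fun x' => fderiv ℝ K x' e)
      ((ContinuousLinearMap.apply ℝ G e).comp (fderiv ℝ (fderiv ℝ K) z)) z :=
    (ContinuousLinearMap.apply ℝ G e).hasFDerivAt.comp z h2.hasFDerivAt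
  rw [h3.fderiv]
  ext v
  show fderiv ℝ (fderiv ℝ K) z v e = fderiv ℝ (fderiv ℝ K) z e v
  exact (hK.smooth.contDiffAt.isSymmSndFDerivAt (by
    rw [minSmoothness_of_isRCLikeNormedField]
    push_cast
    exact le_add_self)) v e

/-- ray kernels -/
lemma Q_bd {C : ℝ} {V : ℝ → Sp d → ℝ} (hV : VOK C V) {n : Sp d} (hn : ‖n‖ = 1)
    {ε : ℝ} (hε : 0 < ε) (hε1 : ε ≤ 1) {β : Sp d → ℝ} (hβ : KC 0 β) (hβ0 : ∀ z, 0 ≤ β z)
    {e : Sp d} (he : ‖e‖ ≤ 1) (hne : ⟪n, e⟫_ℝ = 0) : ∀ (j : ℕ) (G : Type) [NormedAddCommGroup G]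
    [NormedSpace ℝ G] [CompleteSpace G] (L : Sp d → G) (P R0 : ℝ) (ρ : ℝ → ℝ), 0 ≤ P → 0 ≤ R0 →
    KB (j + 1) P (disc n β) L → SF (fun r (_ : Sp d) => ρ r) →
    (∀ r, 1 / 2 ≤ r → r ≤ 2 → |ρ r| ≤ R0) → ∀ y,
    ‖iteratedFDeriv ℝ j (II ε (dp (fun r x => ρ r * pT V r x) (fun r x => ρ r * pX V n r x) n ε
      (fun z => fderiv ℝ L z e))) y‖
      ≤ (4 / ε) ^ j * (P * R0) * Real.sqrt (EE C V β n ε y) := by
  intro j
  induction j with
  | zero =>
    intro G _ _ _ L P R0 ρ hP hR0 hL hρ hρb y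
    rw [norm_iteratedFDeriv_zero, pow_zero, one_mul]
    refine e1' hV hn hε hε1 hβ hβ0 (Reg.dp (hρ.mul hV.sf.pT) (hρ.mul (hV.sf.pX n))
      (hL.dir he).kc n ε) (by positivity) y ?_
    intro r z hr hr2 _
    have e1 : dp (fun r x => ρ r * pT V r x) (fun r x => ρ r * pX V n r x) n ε
        (fun z => fderiv ℝ L z e) r z (y + (ε * r) • z)
        = (ρ r * (pT V r (y + (ε * r) • z) + ε * ⟪n, z⟫_ℝ * pX V n r (y + (ε * r) • z)))
          • fderiv ℝ L z e := by
      unfold dp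
      congr 1
      ring
    rw [e1, norm_smul, Real.norm_eq_abs, abs_mul, Real.sqrt_mul (disc_nonneg n hβ0 z)]
    have h1 := ray_le_QH V n ε r z (y + (ε * r) • z)
    have h2 := (hL.dir he).norm_le z
    have h3 := hρb r hr hr2
    have h4 := mul_le_mul h3 h1 (abs_nonneg _) hR0
    calc _ ≤ (R0 * Real.sqrt (QH V n ε r z (y + (ε * r) • z))) * (P * Real.sqrt (disc n β z)) :=
          mul_le_mul h4 h2 (norm_nonneg _) (by positivity)
      _ = _ := by ring
  | succ j ih =>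
    intro G _ _ _ L P R0 ρ hP hR0 hL hρ hρb y
    have hE := Real.sqrt_nonneg (EE C V β n ε y)
    have hA := hρ.mul hV.sf.pT
    have hB := hρ.mul (hV.sf.pX n)
    have hL' : KB (j + 1) P (disc n β) (fderiv ℝ L) := hL.fderiv
    have hLe : KB (j + 1) P (disc n β) (fun z => fderiv ℝ L z e) := hL.dir he
    have hρ' : SF (fun r (_ : Sp d) => -(1 / (ε * r)) * ρ r) := (SF.inv_r hε).mul hρ
    have hb' : ∀ r, 1 / 2 ≤ r → r ≤ 2 → |(-(1 / (ε * r)) * ρ r)| ≤ (2 / ε) * R0 := by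
      intro r hr hr2
      rw [abs_mul, abs_neg, abs_of_pos (by positivity)]
      refine mul_le_mul ?_ (hρb r hr hr2) (abs_nonneg _) (by positivity)
      rw [div_le_div_iff₀ (by positivity) hε]
      nlinarith only [hε, hr]
    have hρ2 : SF (fun r (_ : Sp d) => -(1 / r) * ρ r) := by
      refine (SF.mul (SF.neg ((SF.const 1).div SF.r fun r _ hr => hr.ne')) hρ)
    have hb2 : ∀ r, 1 / 2 ≤ r → r ≤ 2 → |(-(1 / r) * ρ r)| ≤ 2 * R0 := by
      intro r hr hr2
      rw [abs_mul, abs_neg, abs_of_pos (by positivity)]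
      refine mul_le_mul ?_ (hρb r hr hr2) (abs_nonneg _) (by positivity)
      rw [div_le_iff₀ (by positivity)]
      linarith
    -- the two terms
    set T1 := II ε (dp (fun r x => (-(1 / (ε * r)) * ρ r) * pT V r x)
      (fun r x => (-(1 / (ε * r)) * ρ r) * pX V n r x) n ε
      (fun z => fderiv ℝ (fderiv ℝ L) z e)) with hT1
    set T2 := II ε (pr (fun r x => (-(1 / r) * ρ r) * pX V e r x)
      (fun z => fderiv ℝ (tens n L) z n)) with hT2
    have e0 : fderiv ℝ (II ε (dp (fun r x => ρ r * pT V r x) (fun r x => ρ r * pX V n r x) n ε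
      (fun z => fderiv ℝ L z e))) = fun y => T1 y + T2 y := by
      rw [II_fderiv (Reg.dp hA hB hLe.kc n ε) hε]
      funext y
      have s1 : II ε (zd ε (dp (fun r x => ρ r * pT V r x) (fun r x => ρ r * pX V n r x) n ε
          (fun z => fderiv ℝ L z e))) y
          = II ε (fun r z x => dp (fun r x => (-(1 / (ε * r)) * ρ r) * pT V r x)
              (fun r x => (-(1 / (ε * r)) * ρ r) * pX V n r x) n ε
              (fun z => fderiv ℝ (fderiv ℝ L) z e) r z x
            + pr (fun r x => (-(1 / r) * ρ r) * pX V n r x)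
              (fun z => fderiv ℝ (tens n L) z e) r z x) y := by
        refine II_congr ε (fun r z x hr => ?_) y
        rw [zd_dp hLe.kc n hε hr, fderiv_dir (m := j) hL.kc e, fderiv_tens (m := j + 1) hL.kc n e]
        congr 1
        · unfold dp
          congr 1
          ring
        · unfold pr
          congr 1
          ring
      rw [s1, II_add (Reg.dp (hρ'.mul hV.sf.pT) (hρ'.mul (hV.sf.pX n)) (hL'.dir he).kc n ε)
        (Reg.pr (hρ2.mul (hV.sf.pX n)) ((hL.tens hn.le).dir he).kc)]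
      congr 1
      exact II_swap hV.sf hρ2 (fun _ _ _ => rfl) ((hL.tens hn.le).kc.mono (by omega : j + 1 ≤ j + 1 + 1))
        hε e n y
    have hn1 : ‖n‖ ≤ 1 := hn.le
    have c1 : ContDiff ℝ j T1 := II_contDiff (Reg.dp (hρ'.mul hV.sf.pT) (hρ'.mul (hV.sf.pX n))
      (hL'.dir he).kc n ε) hε
    have c2 : ContDiff ℝ j T2 := II_contDiff (Reg.pr (hρ2.mul (hV.sf.pX e))
      (((hL.tens hn1).dir hn1).kc.mono (by omega))) hε
    rw [← norm_iteratedFDeriv_fderiv, e0]
    have e2 : iteratedFDeriv ℝ j (fun y => T1 y + T2 y) y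
        = iteratedFDeriv ℝ j T1 y + iteratedFDeriv ℝ j T2 y :=
      iteratedFDeriv_add_apply c1.contDiffAt c2.contDiffAt
    rw [e2]
    have b1 := ih (Sp d →L[ℝ] G) (fderiv ℝ L) P ((2 / ε) * R0) _ hP (by positivity) hL' hρ' hb' y
    have b2 := S_bd hV hn hε hε1 hβ hβ0 he hne j (Sp d →L[ℝ] G)
      (fun z => fderiv ℝ (tens n L) z n) P (2 * R0) _ hP (by positivity)
      (((hL.tens hn1).dir hn1).mono (by omega)) hρ2 hb2 y
    refine (norm_add_le _ _).trans ((add_le_add b1 b2).trans ?_)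
    have h2 : (2 / ε) ^ j ≤ (4 / ε) ^ j :=
      pow_le_pow_left₀ (by positivity) (by
        rw [div_le_div_iff₀ hε hε]
        linarith only [hε]) j
    have h3 : 2 ≤ 2 / ε := by
      rw [le_div_iff₀ hε]
      linarith only [hε1]
    have h4 : 0 ≤ (4 / ε) ^ j := by positivity
    have h5 : 2 * (2 / ε) ^ j ≤ (2 / ε) * (4 / ε) ^ j := by
      linarith only [h2, mul_le_mul_of_nonneg_right h3 h4]
    have h6 : (4 / ε) ^ (j + 1) = (2 / ε) * (4 / ε) ^ j + (2 / ε) * (4 / ε) ^ j := by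
      rw [pow_succ]
      ring
    have h7 : 0 ≤ P * R0 * Real.sqrt (EE C V β n ε y) := by positivity
    calc (4 / ε) ^ j * (P * (2 / ε * R0)) * Real.sqrt (EE C V β n ε y)
          + (2 / ε) ^ j * (P * (2 * R0)) * Real.sqrt (EE C V β n ε y)
        = ((2 / ε) * (4 / ε) ^ j + 2 * (2 / ε) ^ j) * (P * R0 * Real.sqrt (EE C V β n ε y)) := by
          ring
      _ ≤ (4 / ε) ^ (j + 1) * (P * R0 * Real.sqrt (EE C V β n ε y)) := by
          refine mul_le_mul_of_nonneg_right ?_ h7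
          rw [h6]
          linarith only [h5]
      _ = _ := by ring

/-- vector valued functions orthogonal to n -/
lemma norm_iter_le {n : Sp d} {j : ℕ} {F : Sp d → Sp d} (hF : ContDiff ℝ j F)
    (hn : ∀ x, ⟪n, F x⟫_ℝ = 0) {B : ℝ} (hB : 0 ≤ B) {y : Sp d}
    (h : ∀ e : Sp d, ‖e‖ = 1 → ⟪n, e⟫_ℝ = 0 →
      ‖iteratedFDeriv ℝ j (fun x => ⟪e, F x⟫_ℝ) y‖ ≤ B) : ‖iteratedFDeriv ℝ j F y‖ ≤ B := by
  have key : ∀ (e : Sp d) (m : Fin j → Sp d), ⟪e, iteratedFDeriv ℝ j F y m⟫_ℝ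
      = iteratedFDeriv ℝ j (fun x => ⟪e, F x⟫_ℝ) y m := by
    intro e m
    have h2 := (innerSL ℝ e).iteratedFDeriv_comp_left (f := F) (x := y) (n := j)
      hF.contDiffAt (i := j) le_rfl
    have h3 : (⇑(innerSL ℝ e) ∘ F) = fun x => ⟪e, F x⟫_ℝ := rfl
    rw [h3] at h2
    rw [h2]
    rfl
  refine ContinuousMultilinearMap.opNorm_le_bound hB fun m => ?_
  set w := iteratedFDeriv ℝ j F y m with hw
  have hprod : 0 ≤ ∏ i, ‖m i‖ := Finset.prod_nonneg fun i _ => norm_nonneg _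
  rcases eq_or_ne w 0 with h0 | h0
  · rw [h0, norm_zero]
    exact mul_nonneg hB hprod
  · have hw0 : 0 < ‖w‖ := norm_pos_iff.2 h0
    set e := ‖w‖⁻¹ • w with he
    have h1 : ‖e‖ = 1 := by
      rw [he, norm_smul, norm_inv, norm_norm, inv_mul_cancel₀ hw0.ne']
    have h2 : ⟪n, w⟫_ℝ = 0 := by
      rw [hw, key n m]
      have h3 : (fun x => ⟪n, F x⟫_ℝ) = fun _ => (0 : ℝ) := funext hn
      rw [h3, iteratedFDeriv_fun_zero]
      rfl
    have h3 : ⟪n, e⟫_ℝ = 0 := by rw [he, real_inner_smul_right, h2, mul_zero]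
    have h4 : ‖w‖ = ⟪e, w⟫_ℝ := by
      rw [he, real_inner_smul_left, real_inner_self_eq_norm_sq]
      field_simp
    have h5 := h e h1 h3
    have h6 := (iteratedFDeriv ℝ j (fun x => ⟪e, F x⟫_ℝ) y).le_opNorm m
    rw [← key e m, ← hw, ← h4, norm_norm] at h6
    exact h6.trans (mul_le_mul_of_nonneg_right h5 hprod)

/-! ### The formula for W -/

lemma II_pr_dir {G : Type*} [NormedAddCommGroup G] [NormedSpace ℝ G] [CompleteSpace G]
    {F : ℝ → Sp d → ℝ} {K : Sp d → G} {m : ℕ} (hF : SF F) (hK : KC (m + 1) K) (ε : ℝ)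
    (y e : Sp d) : fderiv ℝ (II ε (pr F K)) y e = II ε (pr (pX F e) K) y := by
  rw [(II_hasFDerivAt (Reg.pr hF hK) ε y).fderiv, II_apply (Reg.pr hF hK).dX]
  exact II_congr ε (fun r z x hr => dX_pr hF hr z x e) y

lemma pXX {F : ℝ → Sp d → ℝ} (h : SF F) (a b : Sp d) {r : ℝ} (hr : 0 < r) (x : Sp d) :
    pX (pX F a) b r x = fderiv ℝ (fderiv ℝ (F r)) x b a := by
  have h1 := h.contDiff hr
  have h2 : DifferentiableAt ℝ (fderiv ℝ (F r)) x :=
    ((h1.fderiv_right (m := 1) (by norm_cast)).differentiable (by simp)).differentiableAt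
  have : HasFDerivAt (fun x' => fderiv ℝ (F r) x' a)
      ((ContinuousLinearMap.apply ℝ ℝ a).comp (fderiv ℝ (fderiv ℝ (F r)) x)) x :=
    (ContinuousLinearMap.apply ℝ ℝ a).hasFDerivAt.comp x h2.hasFDerivAt
  unfold pX
  rw [this.fderiv]
  rfl

lemma lap_pX {F : ℝ → Sp d → ℝ} (h : SF F) {r : ℝ} (hr : 0 < r) (x : Sp d) :
    lap (F r) x = ∑ j : Fin d, pX (pX F (EuclideanSpace.single j (1 : ℝ)))
      (EuclideanSpace.single j (1 : ℝ)) r x := by
  unfold lap
  refine Finset.sum_congr rfl fun j _ => ?_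
  rw [iteratedFDeriv_two_apply, pXX h _ _ hr]

lemma Reg.sum {G : Type*} [NormedAddCommGroup G] [NormedSpace ℝ G] {ι : Type*} {m : ℕ}
    {Ψ : ι → ℝ → Sp d → Sp d → G} {s : Finset ι} (h : ∀ i ∈ s, Reg m (Ψ i)) :
    Reg m (fun r z x => ∑ i ∈ s, Ψ i r z x) :=
  ⟨ContDiffOn.sum fun i hi => (h i hi).smooth,
    fun r z x hz => Finset.sum_eq_zero fun i hi => (h i hi).supp r z x hz⟩

lemma II_sum {G : Type*} [NormedAddCommGroup G] [NormedSpace ℝ G] {ι : Type*} {m : ℕ}
    {Ψ : ι → ℝ → Sp d → Sp d → G} {s : Finset ι} (h : ∀ i ∈ s, Reg m (Ψ i)) (ε : ℝ) (y : Sp d) :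
    II ε (fun r z x => ∑ i ∈ s, Ψ i r z x) y = ∑ i ∈ s, II ε (Ψ i) y := by
  unfold II
  rw [← integral_finsetSum s fun i hi => (h i hi).integrableOn ε y]
  simp only [Finset.smul_sum]

/-- the kernel K1 -/
def K1 (β : Sp d → ℝ) (ε : ℝ) (n : Sp d) (z : Sp d) : ℝ :=
  β z + ((2 * ε ^ 2) • fderiv ℝ (fun z => fderiv ℝ (Bp (Bp β)) z n) z n
    + (-(ε ^ 2)) • ∑ j : Fin d, fderiv ℝ (fun z => fderiv ℝ (Bp (Bp β)) z
      (EuclideanSpace.single j (1 : ℝ))) z (EuclideanSpace.single j (1 : ℝ)))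

lemma K1_kb {J : ℕ} {M : ℝ} {β : Sp d → ℝ} (h : Kit (J + 4) M β) {n : Sp d} (hn : ‖n‖ = 1)
    {ε : ℝ} (hε : 0 < ε) (hε1 : ε ≤ 1) :
    KB (J + 2) (((d : ℝ) + 3) * Real.sqrt (max M 1)) (disc n β) (K1 β ε n) := by
  obtain ⟨k0, _, k2⟩ := Kit.kb h hn
  have hs : ∀ j : Fin d, ‖(EuclideanSpace.single j (1 : ℝ) : Sp d)‖ ≤ 1 := by simp
  have h1 : KB (J + 2) (Real.sqrt (max M 1)) (disc n β)
      (fun z => fderiv ℝ (fun z => fderiv ℝ (Bp (Bp β)) z n) z n) :=
    KB.dir (m := J + 2) (KB.dir (m := J + 3) k2 hn.le) hn.le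
  have h2 : KB (J + 2) ((Finset.univ : Finset (Fin d)).card * Real.sqrt (max M 1)) (disc n β)
      (fun z => ∑ j : Fin d, fderiv ℝ (fun z => fderiv ℝ (Bp (Bp β)) z
      (EuclideanSpace.single j (1 : ℝ))) z (EuclideanSpace.single j (1 : ℝ))) :=
    KB.sum fun j _ => KB.dir (m := J + 2) (KB.dir (m := J + 3) k2 (hs j)) (hs j)
  have h3 := (k0.mono (by omega : J + 2 ≤ J + 4)).add ((h1.csmul (2 * ε ^ 2)).add
    (h2.csmul (-(ε ^ 2))))
  have hs0 := Real.sqrt_nonneg (max M 1)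
  have hε2 : ε ^ 2 ≤ 1 := by nlinarith
  refine ⟨h3.kc, fun i hi z => (h3.bd i hi z).trans ?_⟩
  refine mul_le_mul_of_nonneg_right ?_ (Real.sqrt_nonneg _)
  rw [Finset.card_univ, Fintype.card_fin, abs_neg, abs_of_nonneg (by positivity),
    abs_of_nonneg (by positivity)]
  have hd0 : (0 : ℝ) ≤ d := Nat.cast_nonneg d
  have h4 : 2 * ε ^ 2 * Real.sqrt (max M 1) ≤ 2 * Real.sqrt (max M 1) := by nlinarith only [hs0, hε2]
  have h5 : ε ^ 2 * (d * Real.sqrt (max M 1)) ≤ 1 * (d * Real.sqrt (max M 1)) :=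
    mul_le_mul_of_nonneg_right hε2 (by positivity)
  linarith

lemma pX_rmul {F : ℝ → Sp d → ℝ} (h : SF F) (ρ : ℝ → ℝ) (e : Sp d) {r : ℝ} (hr : 0 < r)
    (x : Sp d) : pX (fun r x => ρ r * F r x) e r x = ρ r * pX F e r x := by
  have h3 : HasFDerivAt (fun x' => ρ r * F r x') (ρ r • fderiv ℝ (F r) x) x :=
    ((h.contDiff hr).differentiable (by simp)).differentiableAt.hasFDerivAt.const_mul _
  show fderiv ℝ (fun x' => ρ r * F r x') x e = _
  rw [h3.fderiv]
  rfl

lemma ibp1 {F : ℝ → Sp d → ℝ} (h : SF F) {ρ : ℝ → ℝ} (hρ : SF (fun r (_ : Sp d) => ρ r))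
    {K : Sp d → ℝ} {m : ℕ} (hK : KC (m + 1) K) {ε : ℝ} (hε : 0 < ε) (a y : Sp d) :
    II ε (pr (fun r x => ρ r * pX F a r x) K) y
      = II ε (pr (fun r x => -(1 / (ε * r)) * (ρ r * F r x)) (fun z => fderiv ℝ K z a)) y := by
  rw [← II_ibp (hρ.mul h) hK hε a y]
  refine II_congr ε (fun r z x hr => ?_) y
  unfold pr
  rw [pX_rmul h ρ a hr]

lemma ibp2 {F : ℝ → Sp d → ℝ} (h : SF F) {ρ : ℝ → ℝ} (hρ : SF (fun r (_ : Sp d) => ρ r))
    {K : Sp d → ℝ} {m : ℕ} (hK : KC (m + 2) K) {ε : ℝ} (hε : 0 < ε) (a y : Sp d) :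
    II ε (pr (fun r x => ρ r * pX (pX F a) a r x) K) y
      = II ε (pr (fun r x => (ρ r / (ε * r) ^ 2) * F r x)
        (fun z => fderiv ℝ (fun z => fderiv ℝ K z a) z a)) y := by
  have hρ' : SF (fun r (_ : Sp d) => -(1 / (ε * r)) * ρ r) := (SF.inv_r hε).mul hρ
  rw [ibp1 (h.pX a) hρ (m := m + 1) hK hε a y]
  have e1 : II ε (pr (fun r x => -(1 / (ε * r)) * (ρ r * pX F a r x)) (fun z => fderiv ℝ K z a)) y
      = II ε (pr (fun r x => (-(1 / (ε * r)) * ρ r) * pX F a r x) (fun z => fderiv ℝ K z a)) y := by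
    refine II_congr ε (fun r z x hr => ?_) y
    unfold pr
    simp only [mul_assoc]
  rw [e1, ibp1 h hρ' (m := m) (hK.dir (m := m + 1) a) hε a y]
  refine II_congr ε (fun r z x hr => ?_) y
  unfold pr
  congr 1
  field_simp

/-- the kernel K2 -/
def K2 (β : Sp d → ℝ) (ε : ℝ) (z : Sp d) : ℝ :=
  β z + (-(ε ^ 2)) • ∑ j : Fin d, fderiv ℝ (fun z => fderiv ℝ (Bp (Bp β)) z
      (EuclideanSpace.single j (1 : ℝ))) z (EuclideanSpace.single j (1 : ℝ))

lemma K2_kc {J : ℕ} {M : ℝ} {β : Sp d → ℝ} (h : Kit (J + 4) M β) {n : Sp d} (hn : ‖n‖ = 1)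
    (ε : ℝ) : KB (J + 2) (Real.sqrt (max M 1) + |(-(ε ^ 2))| * (d * Real.sqrt (max M 1)))
      (disc n β) (K2 β ε) := by
  obtain ⟨k0, _, k2⟩ := Kit.kb h hn
  have hs : ∀ j : Fin d, ‖(EuclideanSpace.single j (1 : ℝ) : Sp d)‖ ≤ 1 := by simp
  have h2 : KB (J + 2) ((Finset.univ : Finset (Fin d)).card * Real.sqrt (max M 1)) (disc n β)
      (fun z => ∑ j : Fin d, fderiv ℝ (fun z => fderiv ℝ (Bp (Bp β)) z
      (EuclideanSpace.single j (1 : ℝ))) z (EuclideanSpace.single j (1 : ℝ))) :=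
    KB.sum fun j _ => KB.dir (m := J + 2) (KB.dir (m := J + 3) k2 (hs j)) (hs j)
  rw [Finset.card_univ, Fintype.card_fin] at h2
  exact (k0.mono (by omega : J + 2 ≤ J + 4)).add (h2.csmul (-(ε ^ 2)))

lemma WW_eq0 {C : ℝ} {μ : Measure (Sp d)} (hV : VOK C (vv μ)) {J : ℕ} {M : ℝ} {β : Sp d → ℝ}
    (h : Kit (J + 4) M β) {n : Sp d} (hn : ‖n‖ = 1) {ε : ℝ} (hε : 0 < ε)
    (y : Sp d) : WW β ε μ 1 y = II ε (pr (vv μ) (K2 β ε)) y
      + II ε (pr (fun r x => -(2 * ε ^ 2 * r) * pT (vv μ) r x) (Bp β)) y := by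
  obtain ⟨k0, k1, k2⟩ := Kit.kb h hn
  have hsf := hV.sf
  have hr0 : SF (fun (r : ℝ) (_ : Sp d) => r) := SF.r
  have s1 : SF (fun (r : ℝ) (_ : Sp d) => -(2 * ε ^ 2 * r)) := ((SF.const (2 * ε ^ 2)).mul hr0).neg
  have s2 : SF (fun (r : ℝ) (_ : Sp d) => -(ε ^ 4 * r ^ 2)) :=
    ((SF.const (ε ^ 4)).mul (hr0.pow 2)).neg
  have c0 : KC 0 β := k0.kc.mono (Nat.zero_le _)
  have c1 : KC 0 (Bp β) := k1.kc.mono (Nat.zero_le _)
  have c2 : KC 0 (Bp (Bp β)) := k2.kc.mono (Nat.zero_le _)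
  have r0 := Reg.pr hsf c0
  have r1 := Reg.pr (s1.mul hsf.pT) c1
  have r2 : ∀ j ∈ (Finset.univ : Finset (Fin d)), Reg 0 (pr (fun r x => -(ε ^ 4 * r ^ 2)
      * pX (pX (vv μ) (EuclideanSpace.single j (1 : ℝ))) (EuclideanSpace.single j (1 : ℝ)) r x)
      (Bp (Bp β))) :=
    fun j _ => Reg.pr (s2.mul ((hsf.pX _).pX _)) c2
  -- W as an average
  have e1 : WW β ε μ 1 y = II ε (fun r z x => pr (vv μ) β r z x
      + (pr (fun r x => -(2 * ε ^ 2 * r) * pT (vv μ) r x) (Bp β) r z x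
        + ∑ j : Fin d, pr (fun r x => -(ε ^ 4 * r ^ 2)
      * pX (pX (vv μ) (EuclideanSpace.single j (1 : ℝ))) (EuclideanSpace.single j (1 : ℝ)) r x)
      (Bp (Bp β)) r z x)) y := by
    rw [II_iter (r0.add (r1.add (Reg.sum r2)))]
    unfold WW
    rw [mul_one]
    refine intervalIntegral.integral_congr fun r hr => ?_
    rw [uIcc_of_le (by norm_num)] at hr
    have hrp := pos_of_Icc hr
    simp only [smul_eq_mul]
    congr 1
    unfold wt
    refine integral_congr_ae (Eventually.of_forall fun z => ?_)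
    simp only
    rw [lap_pX hsf hrp]
    unfold pr
    simp only [smul_eq_mul]
    rw [← Finset.sum_mul, ← Finset.mul_sum]
    show _ * _ - 2 * ε ^ 2 * r * (_ * pT (vv μ) r _) - _ = _
    ring
  -- the third term
  have e3 : ∀ j : Fin d, II ε (pr (fun r x => -(ε ^ 4 * r ^ 2)
      * pX (pX (vv μ) (EuclideanSpace.single j (1 : ℝ))) (EuclideanSpace.single j (1 : ℝ)) r x)
      (Bp (Bp β))) y = II ε (pr (fun r x => -(ε ^ 2) * vv μ r x)
        (fun z => fderiv ℝ (fun z => fderiv ℝ (Bp (Bp β)) z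
          (EuclideanSpace.single j (1 : ℝ))) z (EuclideanSpace.single j (1 : ℝ)))) y := by
    intro j
    rw [ibp2 hsf s2 (m := J + 2) k2.kc hε _ y]
    refine II_congr ε (fun r z x hr => ?_) y
    unfold pr
    congr 1
    field_simp
  have q2 : ∀ j ∈ (Finset.univ : Finset (Fin d)), Reg (J + 2) (pr (fun r x => -(ε ^ 2) * vv μ r x)
        (fun z => fderiv ℝ (fun z => fderiv ℝ (Bp (Bp β)) z
          (EuclideanSpace.single j (1 : ℝ))) z (EuclideanSpace.single j (1 : ℝ)))) :=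
    fun j _ => Reg.pr ((SF.const (d := d) (-(ε ^ 2))).mul hsf)
      (KC.dir (m := J + 2) (KC.dir (m := J + 3) k2.kc _) _)
  have e4 : II ε (pr (vv μ) (K2 β ε)) y = II ε (fun r z x => pr (vv μ) β r z x
      + ∑ j : Fin d, pr (fun r x => -(ε ^ 2) * vv μ r x)
        (fun z => fderiv ℝ (fun z => fderiv ℝ (Bp (Bp β)) z
          (EuclideanSpace.single j (1 : ℝ))) z (EuclideanSpace.single j (1 : ℝ))) r z x) y := by
    refine II_congr ε (fun r z x hr => ?_) y
    unfold pr K2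
    simp only [smul_eq_mul]
    rw [← Finset.mul_sum]
    ring
  rw [e1, II_add r0 (r1.add (Reg.sum r2)), II_add r1 (Reg.sum r2), II_sum r2,
    Finset.sum_congr rfl fun j _ => e3 j, e4, II_add r0 (Reg.sum q2), II_sum q2]
  ring

lemma WW_eq {C : ℝ} {μ : Measure (Sp d)} (hV : VOK C (vv μ)) {J : ℕ} {M : ℝ} {β : Sp d → ℝ}
    (h : Kit (J + 4) M β) {n : Sp d} (hn : ‖n‖ = 1) {ε : ℝ} (hε : 0 < ε)
    (y : Sp d) : WW β ε μ 1 y = II ε (pr (vv μ) (K1 β ε n)) y
      + II ε (dp (fun r x => (-(2 * ε ^ 2 * r)) * pT (vv μ) r x)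
        (fun r x => (-(2 * ε ^ 2 * r)) * pX (vv μ) n r x) n ε (Bp β)) y := by
  obtain ⟨k0, k1, k2⟩ := Kit.kb h hn
  have hsf := hV.sf
  have g2 : ∀ z, fderiv ℝ (Bp (Bp β)) z n = -(⟪n, z⟫_ℝ * Bp β z) := by
    intro z
    have h1 := (h.grad2 z).hasFDerivAt.fderiv
    rw [h1, InnerProductSpace.toDual_apply_apply, real_inner_smul_left, real_inner_comm]
    ring
  have hr0 : SF (fun (r : ℝ) (_ : Sp d) => r) := SF.r
  have s1 : SF (fun (r : ℝ) (_ : Sp d) => -(2 * ε ^ 2 * r)) := ((SF.const (2 * ε ^ 2)).mul hr0).neg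
  have s3 : SF (fun (r : ℝ) (_ : Sp d) => -(2 * ε ^ 3 * r)) := ((SF.const (2 * ε ^ 3)).mul hr0).neg
  have c1 : KC 0 (Bp β) := k1.kc.mono (Nat.zero_le _)
  have kk2 := (K2_kc h hn ε).kc
  -- the second term
  have e2 : II ε (pr (fun r x => -(2 * ε ^ 2 * r) * pT (vv μ) r x) (Bp β)) y
      = II ε (dp (fun r x => (-(2 * ε ^ 2 * r)) * pT (vv μ) r x)
        (fun r x => (-(2 * ε ^ 2 * r)) * pX (vv μ) n r x) n ε (Bp β)) y
        + II ε (pr (fun r x => (2 * ε ^ 2) * vv μ r x)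
          (fun z => fderiv ℝ (fun z => fderiv ℝ (Bp (Bp β)) z n) z n)) y := by
    have t1 : II ε (pr (fun r x => (2 * ε ^ 2) * vv μ r x)
          (fun z => fderiv ℝ (fun z => fderiv ℝ (Bp (Bp β)) z n) z n)) y
        = II ε (pr (fun r x => -(2 * ε ^ 3 * r) * pX (vv μ) n r x)
          (fun z => fderiv ℝ (Bp (Bp β)) z n)) y := by
      rw [ibp1 hsf s3 (m := J + 2) (KC.dir (m := J + 3) k2.kc n) hε n y]
      refine II_congr ε (fun r z x hr => ?_) y
      unfold pr
      congr 1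
      field_simp
    rw [t1, ← II_add (Reg.dp (s1.mul hsf.pT) (s1.mul (hsf.pX n)) c1 n ε)
      (Reg.pr (s3.mul (hsf.pX n)) (KC.dir (m := J + 3) k2.kc n))]
    refine II_congr ε (fun r z x hr => ?_) y
    unfold pr dp
    simp only [smul_eq_mul, g2]
    ring
  have q1 := Reg.pr ((SF.const (d := d) (2 * ε ^ 2)).mul hsf)
    (KC.dir (m := J + 2) (KC.dir (m := J + 3) k2.kc n) n)
  have e4 : II ε (pr (vv μ) (K1 β ε n)) y = II ε (fun r z x => pr (vv μ) (K2 β ε) r z x
      + pr (fun r x => (2 * ε ^ 2) * vv μ r x)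
          (fun z => fderiv ℝ (fun z => fderiv ℝ (Bp (Bp β)) z n) z n) r z x) y := by
    refine II_congr ε (fun r z x hr => ?_) y
    unfold pr K1 K2
    simp only [smul_eq_mul]
    ring
  rw [WW_eq0 hV h hn hε, e2, e4, II_add (Reg.pr hsf kk2) q1]
  ring

/-- the derivative of W in directions orthogonal to n -/
lemma WW_dir {C : ℝ} {μ : Measure (Sp d)} (hV : VOK C (vv μ)) {J : ℕ} {M : ℝ} {β : Sp d → ℝ}
    (h : Kit (J + 4) M β) {n : Sp d} (hn : ‖n‖ = 1) {ε : ℝ} (hε : 0 < ε) (hε1 : ε ≤ 1) {e : Sp d}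
    (hne : ⟪n, e⟫_ℝ = 0) (y : Sp d) : fderiv ℝ (WW β ε μ 1) y e
      = II ε (pr (fun r x => (1 : ℝ) * pX (vv μ) e r x) (K1 β ε n)) y
      + II ε (dp (fun r x => (2 * ε) * pT (vv μ) r x)
        (fun r x => (2 * ε) * pX (vv μ) n r x) n ε (fun z => fderiv ℝ (Bp β) z e)) y := by
  obtain ⟨_, k1, _⟩ := Kit.kb h hn
  have kk := (K1_kb h hn hε hε1).kc
  have hsf := hV.sf
  have s1 : SF (fun (r : ℝ) (_ : Sp d) => -(2 * ε ^ 2 * r)) :=
    ((SF.const (2 * ε ^ 2)).mul SF.r).neg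
  have rr := Reg.dp (s1.mul hsf.pT) (s1.mul (hsf.pX n)) (KC.mono k1.kc (by omega : J + 3 + 1 ≤ J + 4))
    n ε
  have e0 : WW β ε μ 1 = fun y => II ε (pr (vv μ) (K1 β ε n)) y
      + II ε (dp (fun r x => (-(2 * ε ^ 2 * r)) * pT (vv μ) r x)
        (fun r x => (-(2 * ε ^ 2 * r)) * pX (vv μ) n r x) n ε (Bp β)) y :=
    funext fun y => WW_eq hV h hn hε y
  have d1 := II_hasFDerivAt (m := J + 1) (Reg.pr hsf kk) ε y
  have d2 := II_hasFDerivAt' rr hε y
  rw [e0, (d1.fun_add d2).fderiv]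
  show (II ε (dX (pr (vv μ) (K1 β ε n))) y) e + (II ε (zd ε _) y) e = _
  rw [II_apply (Reg.pr hsf (m := J + 1 + 1) kk).dX, II_apply (rr.zd hε)]
  congr 1
  · refine II_congr ε (fun r z x hr => ?_) y
    rw [dX_pr hsf hr]
    unfold pr
    simp only [one_mul]
  · refine II_congr ε (fun r z x hr => ?_) y
    rw [zd_dp (KC.mono k1.kc (by omega : J + 3 + 1 ≤ J + 4)) n hε hr]
    unfold dp pr tens
    simp only [add_apply, smul_apply, ContinuousLinearMap.smulRight_apply, innerSL_apply_apply,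
      hne, smul_eq_mul]
    field_simp
    ring

lemma WW_contDiff {C : ℝ} {μ : Measure (Sp d)} (hV : VOK C (vv μ)) {J : ℕ} {M : ℝ}
    {β : Sp d → ℝ} (h : Kit (J + 4) M β) {n : Sp d} (hn : ‖n‖ = 1) {ε : ℝ} (hε : 0 < ε)
    (hε1 : ε ≤ 1) : ContDiff ℝ (J + 2 : ℕ) (WW β ε μ 1) := by
  obtain ⟨_, k1, _⟩ := Kit.kb h hn
  have kk := (K1_kb h hn hε hε1).kc
  have hsf := hV.sf
  have s1 : SF (fun (r : ℝ) (_ : Sp d) => -(2 * ε ^ 2 * r)) :=
    ((SF.const (2 * ε ^ 2)).mul SF.r).neg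
  have rr := Reg.dp (s1.mul hsf.pT) (s1.mul (hsf.pX n)) (KC.mono k1.kc (by omega : J + 2 ≤ J + 4))
    n ε
  have e0 : WW β ε μ 1 = fun y => II ε (pr (vv μ) (K1 β ε n)) y
      + II ε (dp (fun r x => (-(2 * ε ^ 2 * r)) * pT (vv μ) r x)
        (fun r x => (-(2 * ε ^ 2 * r)) * pX (vv μ) n r x) n ε (Bp β)) y :=
    funext fun y => WW_eq hV h hn hε y
  rw [e0]
  exact (II_contDiff (Reg.pr hsf kk) hε).add (II_contDiff rr hε)

theorem wb_a (h : StmtTH) : ∀ (d J : ℕ), 2 ≤ d → ∀ (M C' ε : ℝ), 0 < C' → 0 < ε → ε ≤ 1 →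
    ∃ C : ℝ, 0 < C ∧ ∀ β : Sp d → ℝ, Kit (J + 4) M β → ∀ μ : Measure (Sp d), Gro C' μ →
      ∀ n : Sp d, ‖n‖ = 1 →
        ∀ j ≤ J, ∀ y, ‖iteratedFDeriv ℝ j (fun x => tang n (gradient (WW β ε μ 1) x)) y‖ ^ 2 ≤
          C * vv μ 1 y * discR n (2 * ε) (X13 β ε μ n 1) y := by
  intro d J hd M C' ε hC' hε hε1
  obtain ⟨C0, hC0, hv⟩ := vok h hd hC'
  set P0 := Real.sqrt (max M 1) with hP0
  have hP00 : 0 ≤ P0 := Real.sqrt_nonneg _
  set c1 := (4 / ε) ^ J * ((((d : ℝ) + 3) * P0) * 1 + P0 * 2) with hc1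
  have hc10 : 0 ≤ c1 := by positivity
  have hvQ := vQ_nonneg (d := d)
  refine ⟨c1 ^ 2 * (C0 * vQ d * (2 / ε) ^ d) + 1, by positivity, ?_⟩
  intro β hβ μ hμ n hn j hj y
  have hV := hv μ hμ
  obtain ⟨k0, k1, _⟩ := Kit.kb hβ hn
  have kc0 : KC 0 β := k0.kc.mono (Nat.zero_le _)
  have hβ0 := hβ.prof.nonneg
  have kk := K1_kb hβ hn hε hε1
  have hE := EE_nonneg hV (by linarith) n hε hβ0 y
  set E := EE C0 (vv μ) β n ε y with hEd
  have hcd := WW_contDiff hV hβ hn hε hε1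
  have main : ‖iteratedFDeriv ℝ j (fun x => tang n (gradient (WW β ε μ 1) x)) y‖
      ≤ c1 * Real.sqrt E := by
    refine norm_iter_le (n := n) ?_ (fun x => inner_n_tang hn _) (by positivity) ?_
    · have g1 : ContDiff ℝ j (fun x => gradient (WW β ε μ 1) x) := by
        have : ContDiff ℝ j (fderiv ℝ (WW β ε μ 1)) :=
          hcd.fderiv_right (by exact_mod_cast (by omega : j + 1 ≤ J + 2))
        exact ((InnerProductSpace.toDual ℝ (Sp d)).symm.contDiff).comp this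
      unfold tang
      exact g1.sub ((contDiff_const.inner ℝ g1).smul contDiff_const)
    · intro e he hne
      have e0 : (fun x => ⟪e, tang n (gradient (WW β ε μ 1) x)⟫_ℝ)
          = fun x => II ε (pr (fun r x => (1 : ℝ) * pX (vv μ) e r x) (K1 β ε n)) x
      + II ε (dp (fun r x => (2 * ε) * pT (vv μ) r x)
        (fun r x => (2 * ε) * pX (vv μ) n r x) n ε (fun z => fderiv ℝ (Bp β) z e)) x := by
        funext x
        rw [real_inner_comm, inner_tang hne, inner_grad, WW_dir hV hβ hn hε hε1 hne x]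
      have a1 : SF (fun (_ : ℝ) (_ : Sp d) => (1 : ℝ)) := SF.const 1
      have a2 : SF (fun (_ : ℝ) (_ : Sp d) => 2 * ε) := SF.const (2 * ε)
      have q1 : ContDiff ℝ j (II ε (pr (fun r x => (1 : ℝ) * pX (vv μ) e r x) (K1 β ε n))) :=
        II_contDiff (Reg.pr (a1.mul (hV.sf.pX e)) (kk.kc.mono (by omega))) hε
      have q2 : ContDiff ℝ j (II ε (dp (fun r x => (2 * ε) * pT (vv μ) r x)
        (fun r x => (2 * ε) * pX (vv μ) n r x) n ε (fun z => fderiv ℝ (Bp β) z e))) :=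
        II_contDiff (Reg.dp (a2.mul hV.sf.pT) (a2.mul (hV.sf.pX n))
          (KC.mono (KC.dir (m := J + 3) k1.kc e) (by omega)) n ε) hε
      have e2 : iteratedFDeriv ℝ j (fun x =>
          II ε (pr (fun r x => (1 : ℝ) * pX (vv μ) e r x) (K1 β ε n)) x
      + II ε (dp (fun r x => (2 * ε) * pT (vv μ) r x)
        (fun r x => (2 * ε) * pX (vv μ) n r x) n ε (fun z => fderiv ℝ (Bp β) z e)) x) y
        = iteratedFDeriv ℝ j (II ε (pr (fun r x => (1 : ℝ) * pX (vv μ) e r x) (K1 β ε n))) y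
          + iteratedFDeriv ℝ j (II ε (dp (fun r x => (2 * ε) * pT (vv μ) r x)
        (fun r x => (2 * ε) * pX (vv μ) n r x) n ε (fun z => fderiv ℝ (Bp β) z e))) y :=
        iteratedFDeriv_add_apply q1.contDiffAt q2.contDiffAt
      rw [e0, e2]
      have b1 := S_bd hV hn hε hε1 kc0 hβ0 he.le hne j ℝ (K1 β ε n)
        (((d : ℝ) + 3) * P0) 1 (fun _ => 1) (by positivity) zero_le_one
        (kk.mono (by omega)) a1 (by simp) y
      have b2 := Q_bd hV hn hε hε1 kc0 hβ0 he.le hne j ℝ (Bp β) P0 2 (fun _ => 2 * ε)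
        hP00 zero_le_two (k1.mono (by omega)) a2 (fun r _ _ => by
          rw [abs_of_pos (by positivity)]
          linarith only [hε1]) y
      refine (norm_add_le _ _).trans ((add_le_add b1 b2).trans ?_)
      have h1 : 1 ≤ 4 / ε := by
        rw [le_div_iff₀ hε]
        linarith only [hε1]
      have h2 : (2 / ε) ^ j ≤ (4 / ε) ^ J := by
        refine (pow_le_pow_left₀ (by positivity) ?_ j).trans (pow_le_pow_right₀ h1 hj)
        rw [div_le_div_iff₀ hε hε]
        linarith only [hε]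
      have h3 : (4 / ε) ^ j ≤ (4 / ε) ^ J := pow_le_pow_right₀ h1 hj
      have hs := Real.sqrt_nonneg E
      rw [hc1]
      calc (2 / ε) ^ j * (((d : ℝ) + 3) * P0 * 1) * Real.sqrt E
            + (4 / ε) ^ j * (P0 * 2) * Real.sqrt E
          ≤ (4 / ε) ^ J * (((d : ℝ) + 3) * P0 * 1) * Real.sqrt E
            + (4 / ε) ^ J * (P0 * 2) * Real.sqrt E := by (clear * - h2 hd h3; gcongr)
        _ = _ := by ring
  have h4 : ‖iteratedFDeriv ℝ j (fun x => tang n (gradient (WW β ε μ 1) x)) y‖ ^ 2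
      ≤ c1 ^ 2 * E := by
    calc _ ≤ (c1 * Real.sqrt E) ^ 2 := pow_le_pow_left₀ (norm_nonneg _) main 2
      _ = c1 ^ 2 * E := by rw [mul_pow, Real.sq_sqrt hE]
  have h5 : 0 ≤ vv μ 1 y * discR n (2 * ε) (XT (vv μ) β n ε) y := by
    refine mul_nonneg (hV.pos 1 y one_pos).le (integral_nonneg fun u => ?_)
    unfold XT
    refine intervalIntegral.integral_nonneg (by norm_num) fun r hr => ?_
    exact mul_nonneg (tau_nonneg r) (gg_nonneg hV n ε hβ0 (by
      have := hr.1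
      linarith) _)
  rw [X13_eq hV kc0 hn]
  refine h4.trans ?_
  rw [hEd]
  unfold EE
  linarith only [h5]

end WBT

end

end TG


end

section

/-!
# Differences of the potential at reflected points (module WB, part (b))
-/

open MeasureTheory Metric Set TrI Filter Topology
open scoped InnerProductSpace ContDiff

namespace TG

noncomputable section

namespace WBT

variable {d : ℕ}

/-! ### kernel differences -/

lemma inv_pow_diff {s s' m : ℝ} (hm : 0 < m) (hs : m ≤ s) (hs' : m ≤ s') (k : ℕ) :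
    |1 / s ^ k - 1 / s' ^ k| ≤ k * |s ^ 2 - s' ^ 2| / m ^ (k + 2) := by
  have hs0 : 0 < s := hm.trans_le hs
  have hs0' : 0 < s' := hm.trans_le hs'
  rcases Nat.eq_zero_or_pos k with h0 | h0
  · subst h0
    simp
  obtain ⟨l, rfl⟩ : ∃ l, k = l + 1 := ⟨k - 1, by omega⟩
  have h1 := abs_pow_sub_pow_le (1 / s) (1 / s') (l + 1)
  rw [one_div_pow, one_div_pow] at h1
  have h2 : max |1 / s| |1 / s'| ≤ 1 / m := by
    rw [abs_of_pos (by positivity), abs_of_pos (by positivity)]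
    exact max_le (one_div_le_one_div_of_le hm hs) (one_div_le_one_div_of_le hm hs')
  have h3 : max |1 / s| |1 / s'| ^ (l + 1 - 1) ≤ (1 / m) ^ l := by
    rw [Nat.add_sub_cancel]
    exact pow_le_pow_left₀ (le_max_of_le_left (abs_nonneg _)) h2 l
  have h4 : |1 / s - 1 / s'| ≤ |s ^ 2 - s' ^ 2| / m ^ 3 := by
    have e1 : 1 / s - 1 / s' = -(s ^ 2 - s' ^ 2) / (s * s' * (s + s')) := by
      field_simp
      ring
    rw [e1, abs_div, abs_neg, abs_of_pos (a := s * s' * (s + s')) (by positivity)]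
    refine div_le_div_of_nonneg_left (abs_nonneg _) (by positivity) ?_
    have h5 : m * m ≤ s * s' := mul_le_mul hs hs' hm.le hs0.le
    have h6 : m ≤ s + s' := by linarith
    calc m ^ 3 = m * m * m := by ring
      _ ≤ s * s' * (s + s') := mul_le_mul h5 h6 hm.le (by positivity)
  calc |1 / s ^ (l + 1) - 1 / s' ^ (l + 1)|
      ≤ |1 / s - 1 / s'| * ((l + 1 : ℕ) : ℝ) * max |1 / s| |1 / s'| ^ (l + 1 - 1) := h1
    _ ≤ (|s ^ 2 - s' ^ 2| / m ^ 3) * ((l + 1 : ℕ) : ℝ) * (1 / m) ^ l := by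
        (clear * - h4 h3 hs0 hm; gcongr)
    _ = _ := by
        rw [one_div_pow]
        field_simp
        ring

/-- the time derivative of the kernel -/
def kt (t : ℝ) (a : Sp d) : ℝ :=
  1 / Real.sqrt (t ^ 2 + ‖a‖ ^ 2) ^ d - d * t ^ 2 * (1 / Real.sqrt (t ^ 2 + ‖a‖ ^ 2) ^ (d + 2))

lemma hasDerivAt_kk {t : ℝ} (ht : 0 < t) (a : Sp d) :
    HasDerivAt (fun t => kk t a) (kt t a) t := by
  have hp : 0 < t ^ 2 + ‖a‖ ^ 2 := by positivity
  have hs : 0 < Real.sqrt (t ^ 2 + ‖a‖ ^ 2) := Real.sqrt_pos.2 hp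
  have h1 : HasDerivAt (fun t : ℝ => t ^ 2 + ‖a‖ ^ 2) (2 * t) t := by
    simpa using ((hasDerivAt_id t).pow 2).add_const (‖a‖ ^ 2)
  have h2 := h1.sqrt hp.ne'
  have h3 := (hasDerivAt_id t).div (h2.pow d) (pow_ne_zero d hs.ne')
  refine h3.congr_deriv ?_
  unfold kt
  rcases Nat.eq_zero_or_pos d with h0 | h0
  · subst h0
    simp
  obtain ⟨l, rfl⟩ : ∃ l, d = l + 1 := ⟨d - 1, by omega⟩
  simp only [id, Pi.pow_apply, Nat.add_sub_cancel]
  field_simp
  ring

/-- the constant -/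
def cK (d : ℕ) : ℝ := 64 * 16 ^ (d + 2) * (d * (1 + 16384 * (d + 2)))

lemma cK_nonneg : 0 ≤ cK d := by
  unfold cK
  positivity

/-- the dominating function -/
def ZZ (n : Sp d) (r : ℝ) (w : Sp d) : ℝ := |⟪w, n⟫_ℝ| / (r ^ 2 + ‖w‖ ^ 2) * kk r w

lemma ZZ_nonneg (n : Sp d) {r : ℝ} (hr : 0 < r) (w : Sp d) : 0 ≤ ZZ n r w := by
  unfold ZZ
  have := kk_nonneg hr.le w
  positivity

lemma ker_bd {n : Sp d} {r t : ℝ} (hr : 1 / 2 ≤ r) (hr2 : r ≤ 2) (ht : 1 / 4 ≤ t) (ht2 : t ≤ 4)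
    {w a a' : Sp d} (ha : ‖a - w‖ ≤ 2) (ha' : ‖a' - w‖ ≤ 2)
    (haa : |‖a‖ ^ 2 - ‖a'‖ ^ 2| ≤ 8 * |⟪w, n⟫_ℝ|) :
    |kk t a - kk t a'| ≤ cK d * ZZ n r w ∧ |kt t a - kt t a'| ≤ cK d * ZZ n r w := by
  have hr0 : 0 < r := by linarith
  have ht0 : 0 < t := by linarith
  set R := Real.sqrt (r ^ 2 + ‖w‖ ^ 2) with hR
  have hRp : 0 < r ^ 2 + ‖w‖ ^ 2 := by positivity
  have hR0 : 0 < R := Real.sqrt_pos.2 hRp
  have hR2 : R ^ 2 = r ^ 2 + ‖w‖ ^ 2 := Real.sq_sqrt hRp.le
  have hRr : 1 / 2 ≤ R := Real.le_sqrt_of_sq_le (by nlinarith only [hr])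
  set H := |⟪w, n⟫_ℝ| with hH
  have hH0 : 0 ≤ H := abs_nonneg _
  have low : ∀ b : Sp d, ‖b - w‖ ≤ 2 → R / 16 ≤ Real.sqrt (t ^ 2 + ‖b‖ ^ 2) := by
    intro b hb
    refine Real.le_sqrt_of_sq_le ?_
    rw [div_pow, hR2]
    have h1 : ‖w‖ ≤ ‖b‖ + 2 := by
      have := norm_sub_norm_le w b
      rw [norm_sub_rev] at this
      linarith
    have h2 : ‖w‖ ^ 2 ≤ (‖b‖ + 2) ^ 2 := pow_le_pow_left₀ (norm_nonneg _) h1 2
    nlinarith only [hr2, ht, h2, hr, sq_nonneg (‖b‖ - 2)]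
  have l1 := low a ha
  have l2 := low a' ha'
  have hm : 0 < R / 16 := by positivity
  have sq1 : ∀ b : Sp d, Real.sqrt (t ^ 2 + ‖b‖ ^ 2) ^ 2 = t ^ 2 + ‖b‖ ^ 2 := fun b =>
    Real.sq_sqrt (by positivity)
  have hq : |Real.sqrt (t ^ 2 + ‖a‖ ^ 2) ^ 2 - Real.sqrt (t ^ 2 + ‖a'‖ ^ 2) ^ 2| ≤ 8 * H := by
    rw [sq1, sq1]
    simpa using haa
  have d1 := inv_pow_diff hm l1 l2 d
  have d2 := inv_pow_diff hm l1 l2 (d + 2)
  set p := 1 / Real.sqrt (t ^ 2 + ‖a‖ ^ 2) ^ d - 1 / Real.sqrt (t ^ 2 + ‖a'‖ ^ 2) ^ d with hp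
  set q := 1 / Real.sqrt (t ^ 2 + ‖a‖ ^ 2) ^ (d + 2) - 1 / Real.sqrt (t ^ 2 + ‖a'‖ ^ 2) ^ (d + 2)
    with hqd
  have hd0 : (0 : ℝ) ≤ d := Nat.cast_nonneg d
  -- the common factor
  set Y := H / R ^ (d + 2) with hY
  have hY0 : 0 ≤ Y := by positivity
  have b1 : |p| ≤ d * 8 * 16 ^ (d + 2) * Y := by
    refine d1.trans ?_
    rw [div_pow, hY]
    calc (d : ℝ) * |Real.sqrt (t ^ 2 + ‖a‖ ^ 2) ^ 2 - Real.sqrt (t ^ 2 + ‖a'‖ ^ 2) ^ 2|
          / (R ^ (d + 2) / 16 ^ (d + 2))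
        ≤ d * (8 * H) / (R ^ (d + 2) / 16 ^ (d + 2)) := by gcongr
      _ = _ := by
          field_simp
  have b2 : |q| ≤ (d + 2) * 8 * 1024 * 16 ^ (d + 2) * Y := by
    refine d2.trans ?_
    have e1 : (R / 16) ^ (d + 2 + 2) = (R / 16) ^ (d + 2) * (R / 16) ^ 2 := by rw [pow_add]
    have e2 : (1 : ℝ) / 1024 ≤ (R / 16) ^ 2 := by
      nlinarith only [hr, hR2]
    rw [e1, hY]
    push_cast
    calc ((d : ℝ) + 2) * |Real.sqrt (t ^ 2 + ‖a‖ ^ 2) ^ 2 - Real.sqrt (t ^ 2 + ‖a'‖ ^ 2) ^ 2|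
          / ((R / 16) ^ (d + 2) * (R / 16) ^ 2)
        ≤ (d + 2) * (8 * H) / ((R / 16) ^ (d + 2) * (1 / 1024)) := by (clear * - hq hr e2; gcongr)
      _ = _ := by
          rw [div_pow]
          field_simp
  -- the dominating function
  have eZ : Y ≤ 2 * ZZ n r w := by
    unfold ZZ kk
    rw [← hR, ← hR2, ← hH]
    have e3 : H / R ^ 2 * (r / R ^ d) = r * Y := by
      rw [hY, pow_add]
      field_simp
    rw [e3]
    nlinarith only [hr, hY0]
  have hZ0 : 0 ≤ ZZ n r w := ZZ_nonneg n hr0 w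
  have hc : (0 : ℝ) ≤ 16 ^ (d + 2) := by positivity
  have ek : ∀ b : Sp d, kk t b = t * (1 / Real.sqrt (t ^ 2 + ‖b‖ ^ 2) ^ d) := by
    intro b
    unfold kk
    ring
  constructor
  · have e4 : kk t a - kk t a' = t * p := by
      rw [ek, ek, hp]
      ring
    rw [e4, abs_mul, abs_of_pos ht0]
    calc t * |p| ≤ 4 * (d * 8 * 16 ^ (d + 2) * Y) := by gcongr
      _ ≤ 4 * (d * 8 * 16 ^ (d + 2) * (2 * ZZ n r w)) := by (clear * - eZ; gcongr)
      _ = 64 * 16 ^ (d + 2) * (d * 1) * ZZ n r w := by ring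
      _ ≤ cK d * ZZ n r w := by
          unfold cK
          have : (1 : ℝ) ≤ 1 + 16384 * (d + 2) := by linarith only []
          (clear * - this hZ0; gcongr)
  · have e4 : kt t a - kt t a' = p - d * t ^ 2 * q := by
      unfold kt
      rw [hp, hqd]
      ring
    rw [e4]
    have ht16 : t ^ 2 ≤ 16 := by nlinarith only [ht2, ht]
    calc |p - d * t ^ 2 * q| ≤ |p| + |d * t ^ 2 * q| := abs_sub _ _
      _ = |p| + d * t ^ 2 * |q| := by
          rw [abs_mul (d * t ^ 2) q, abs_of_nonneg (a := d * t ^ 2) (by positivity)]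
      _ ≤ d * 8 * 16 ^ (d + 2) * Y + d * 16 * ((d + 2) * 8 * 1024 * 16 ^ (d + 2) * Y) := by
          (clear * - b1 ht16 b2; gcongr)
      _ = 8 * 16 ^ (d + 2) * (d * (1 + 16384 * (d + 2))) * Y := by ring
      _ ≤ 8 * 16 ^ (d + 2) * (d * (1 + 16384 * (d + 2))) * (2 * ZZ n r w) := by (clear * - eZ; gcongr)
      _ ≤ cK d * ZZ n r w := by
          unfold cK
          have h9 : 0 ≤ 16 ^ (d + 2) * (d * (1 + 16384 * ((d : ℝ) + 2))) * ZZ n r w := by
            positivity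
          linarith only [h9]

/-- the time difference of the kernel differences -/
lemma ker_time {n : Sp d} {r t : ℝ} (hr : 1 / 2 ≤ r) (hr2 : r ≤ 2) (ht : 1 / 4 ≤ t) (ht2 : t ≤ 4)
    {w a a' : Sp d} (ha : ‖a - w‖ ≤ 2) (ha' : ‖a' - w‖ ≤ 2)
    (haa : |‖a‖ ^ 2 - ‖a'‖ ^ 2| ≤ 8 * |⟪w, n⟫_ℝ|) :
    |(kk t a - kk t a') - (kk r a - kk r a')| ≤ cK d * ZZ n r w * |t - r| := by
  have h1 := Convex.norm_image_sub_le_of_norm_hasDerivWithin_le
    (f := fun t => kk t a - kk t a') (f' := fun t => kt t a - kt t a')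
    (s := Icc (1 / 4 : ℝ) 4) (x := r) (y := t) (C := cK d * ZZ n r w)
    (fun s hs => ((hasDerivAt_kk (by have := hs.1; linarith) a).sub
      (hasDerivAt_kk (by have := hs.1; linarith) a')).hasDerivWithinAt)
    (fun s hs => (ker_bd hr hr2 hs.1 hs.2 ha ha' haa).2) (convex_Icc _ _)
    ⟨by linarith, by linarith⟩ ⟨ht, ht2⟩
  simpa using h1

/-! ### the potential -/

/-- the reflection -/
def Rf (n : Sp d) : Sp d ≃ₗᵢ[ℝ] Sp d := ((Submodule.span ℝ {n})ᗮ).reflection

lemma Rf_apply {n : Sp d} (hn : ‖n‖ = 1) (z : Sp d) : Rf n z = z - (2 * ⟪n, z⟫_ℝ) • n := by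
  unfold Rf
  rw [Submodule.reflection_orthogonal_apply, Submodule.reflection_singleton_apply, hn]
  simp only [two_smul, RCLike.ofReal_one, one_pow, div_one]
  module

lemma norm_diff {n : Sp d} (hn : ‖n‖ = 1) (w z : Sp d) (s : ℝ) :
    ‖w + s • z‖ ^ 2 - ‖w + s • Rf n z‖ ^ 2 = 4 * s * ⟪n, z⟫_ℝ * ⟪w, n⟫_ℝ := by
  rw [norm_add_sq_real, norm_add_sq_real, norm_smul, norm_smul, (Rf n).norm_map,
    real_inner_smul_right, real_inner_smul_right, Rf_apply hn, inner_sub_right,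
    real_inner_smul_right]
  ring

/-- X2 numerator integrand -/
def qq (n : Sp d) (r : ℝ) (w : Sp d) : ℝ := ⟪w, n⟫_ℝ ^ 2 / (r ^ 2 + ‖w‖ ^ 2) ^ 2 * kk r w

lemma qq_cont (n : Sp d) {r : ℝ} (hr : 0 < r) : Continuous (qq n r) := by
  unfold qq
  refine (Continuous.div (by fun_prop) (by fun_prop) fun w => ?_).mul (kk_cont hr)
  positivity

lemma ZZ_cont (n : Sp d) {r : ℝ} (hr : 0 < r) : Continuous (ZZ n r) := by
  unfold ZZ
  refine (Continuous.div (by fun_prop) (by fun_prop) fun w => ?_).mul (kk_cont hr)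
  positivity

/-- 2 Z ≤ l k + q / l -/
lemma ZZ_le {n : Sp d} {r l : ℝ} (hr : 0 < r) (hl : 0 < l) (w : Sp d) :
    2 * ZZ n r w ≤ l * kk r w + qq n r w / l := by
  unfold ZZ qq
  have hk := kk_nonneg hr.le w
  set u := |⟪w, n⟫_ℝ| / (r ^ 2 + ‖w‖ ^ 2) with hu
  have e1 : ⟪w, n⟫_ℝ ^ 2 / (r ^ 2 + ‖w‖ ^ 2) ^ 2 = u ^ 2 := by
    rw [hu, div_pow, sq_abs]
  rw [e1]
  have h1 : 2 * u ≤ l + u ^ 2 / l := by
    have : 0 ≤ (u - l) ^ 2 / l := by positivity
    have e2 : (u - l) ^ 2 / l = u ^ 2 / l - 2 * u + l := by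
      field_simp
      ring
    linarith only [this, e2]
  have h2 := mul_le_mul_of_nonneg_right h1 hk
  have e3 : (l + u ^ 2 / l) * kk r w = l * kk r w + u ^ 2 * kk r w / l := by
    field_simp
  rw [e3] at h2
  linarith

lemma qq_nonneg (n : Sp d) {r : ℝ} (hr : 0 < r) (w : Sp d) : 0 ≤ qq n r w := by
  unfold qq
  have := kk_nonneg hr.le w
  positivity

lemma qq_le {n : Sp d} (hn : ‖n‖ = 1) {r : ℝ} (hr : 1 / 2 ≤ r) (w : Sp d) :
    qq n r w ≤ 4 * kk r w := by
  unfold qq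
  have hr0 : 0 < r := by linarith
  have hk := kk_nonneg hr0.le w
  refine mul_le_mul_of_nonneg_right ?_ hk
  rw [div_le_iff₀ (by positivity)]
  have h1 : ⟪w, n⟫_ℝ ^ 2 ≤ ‖w‖ ^ 2 := by
    have := abs_real_inner_le_norm w n
    rw [hn, mul_one] at this
    rw [← sq_abs]
    exact pow_le_pow_left₀ (abs_nonneg _) this 2
  have h2 : (1 : ℝ) / 4 ≤ r ^ 2 := by nlinarith
  have h3 : 0 ≤ ‖w‖ ^ 2 := sq_nonneg _
  have h4 : 0 ≤ (r ^ 2 - 1 / 4) * ‖w‖ ^ 2 := mul_nonneg (by linarith) h3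
  nlinarith only [h1, h4]

end WBT

end

end TG


end

section

/-!
# Differences of the potential at reflected points, continued (module WB, part (b))
-/

open MeasureTheory Metric Set TrI Filter Topology
open scoped InnerProductSpace ContDiff

namespace TG

noncomputable section

namespace WBT

variable {d : ℕ}

lemma SF.hasT {F : ℝ → Sp d → ℝ} (h : SF F) {r : ℝ} (hr : 0 < r) (x : Sp d) :
    HasDerivAt (fun s => F s x) (WBT.pT F r x) r := by
  have h0 : HasFDerivAt (fun s : ℝ => ((s, x) : ℝ × Sp d)) (ContinuousLinearMap.inl ℝ ℝ (Sp d)) r :=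
    hasFDerivAt_prodMk_left r x
  have h2 := (h.diffAt (p := (r, x)) hr).hasFDerivAt
  have h1 : HasFDerivAt (fun s => F s x) ((fderiv ℝ (fun p : ℝ × Sp d => F p.1 p.2) (r, x)).comp
      (ContinuousLinearMap.inl ℝ ℝ (Sp d))) r :=
    HasFDerivAt.comp (g := fun p : ℝ × Sp d => F p.1 p.2) r h2 h0
  exact h1.differentiableAt.hasDerivAt

lemma int_kk {C' : ℝ} {μ : Measure (Sp d)} (hμ : Gro C' μ) {t : ℝ} (ht : 1 / 4 < t) (ht2 : t < 4)
    (x : Sp d) : Integrable (fun η => kk t (x - η)) μ := by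
  have := hμ.fin
  exact kk_int (p := (t, x)) ⟨ht, ht2⟩

lemma int_qq {C' : ℝ} {μ : Measure (Sp d)} (hμ : Gro C' μ) {n : Sp d} (hn : ‖n‖ = 1) {r : ℝ}
    (hr : 1 / 2 ≤ r) (hr2 : r ≤ 2) (y : Sp d) : Integrable (fun η => qq n r (y - η)) μ := by
  have hr0 : 0 < r := by linarith
  refine ((int_kk hμ (by linarith) (by linarith : r < 4) y).const_mul 4).mono'
    ((qq_cont n hr0).comp (by fun_prop : Continuous fun η : Sp d => y - η)).aestronglyMeasurable
    (Eventually.of_forall fun η => ?_)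
  rw [Real.norm_eq_abs, abs_of_nonneg (qq_nonneg n hr0 _)]
  exact qq_le hn hr _

lemma int_ZZ {C' : ℝ} {μ : Measure (Sp d)} (hμ : Gro C' μ) {n : Sp d} (hn : ‖n‖ = 1) {r : ℝ}
    (hr : 1 / 2 ≤ r) (hr2 : r ≤ 2) (y : Sp d) : Integrable (fun η => ZZ n r (y - η)) μ := by
  have hr0 : 0 < r := by linarith
  have h1 := int_kk hμ (by linarith) (by linarith : r < 4) y
  have h2 := int_qq hμ hn hr hr2 y
  refine (h1.add h2).mono'
    ((ZZ_cont n hr0).comp (by fun_prop : Continuous fun η : Sp d => y - η)).aestronglyMeasurable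
    (Eventually.of_forall fun η => ?_)
  rw [Real.norm_eq_abs, abs_of_nonneg (ZZ_nonneg n hr0 _)]
  have h3 := ZZ_le (n := n) hr0 one_pos (y - η)
  have h4 := ZZ_nonneg n hr0 (y - η)
  simp only [one_mul, div_one] at h3
  show ZZ n r (y - η) ≤ kk r (y - η) + qq n r (y - η)
  linarith

/-- the integral of the dominating function -/
def XX0 (μ : Measure (Sp d)) (n : Sp d) (r : ℝ) (y : Sp d) : ℝ := ∫ η, ZZ n r (y - η) ∂μ

lemma XX0_nonneg (μ : Measure (Sp d)) (n : Sp d) {r : ℝ} (hr : 0 < r) (y : Sp d) :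
    0 ≤ XX0 μ n r y := integral_nonneg fun _ => ZZ_nonneg n hr _

lemma XX0_sq {C C' : ℝ} {μ : Measure (Sp d)} (hV : VOK C (vv μ)) (hμ : Gro C' μ) {n : Sp d}
    (hn : ‖n‖ = 1) {r : ℝ} (hr : 1 / 2 ≤ r) (hr2 : r ≤ 2) (y : Sp d) :
    XX0 μ n r y ^ 2 ≤ vv μ r y ^ 3 * X2 μ n r y := by
  have hr0 : 0 < r := by linarith
  have i1 := int_kk hμ (by linarith) (by linarith : r < 4) y
  have i2 := int_qq hμ hn hr hr2 y
  have hv := hV.pos r y hr0
  have hth : (∫ η, kk r (y - η) ∂μ) = vv μ r y ^ 2 := by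
    unfold vv
    rw [Real.sq_sqrt]
    · rfl
    · exact integral_nonneg fun _ => kk_nonneg hr0.le _
  have hq : (∫ η, qq n r (y - η) ∂μ) = vv μ r y * X2 μ n r y := by
    unfold X2
    rw [mul_div_cancel₀ _ hv.ne']
    refine integral_congr_ae (Eventually.of_forall fun η => ?_)
    simp only
    unfold qq
    have e1 : ⟪y - η, n⟫_ℝ ^ 2 = ⟪η - y, n⟫_ℝ ^ 2 := by
      rw [← neg_sub η y, inner_neg_left, neg_sq]
    rw [e1]
  have h1 := sq_le_of_forall (X := XX0 μ n r y) (A := vv μ r y ^ 2)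
    (B := vv μ r y * X2 μ n r y) (XX0_nonneg μ n hr0 y) (sq_nonneg _)
    (mul_nonneg hv.le (X2_nonneg μ n hr0.le y)) (fun l hl => by
      rw [← hth, ← hq]
      unfold XX0
      rw [← integral_const_mul, ← integral_const_mul, ← integral_div, ← integral_add
        (i1.const_mul l) (i2.div_const l)]
      exact integral_mono ((int_ZZ hμ hn hr hr2 y).const_mul 2)
        ((i1.const_mul l).add (i2.div_const l)) fun η => ZZ_le hr0 hl _)
  calc _ ≤ _ := h1
    _ = _ := by ring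

/-- the geometry of reflected points -/
lemma refl_geo {n : Sp d} (hn : ‖n‖ = 1) {ε r : ℝ} (hε : 0 < ε) (hε1 : ε ≤ 1) (hr : 1 / 2 ≤ r)
    (hr2 : r ≤ 2) {z : Sp d} (hz : ‖z‖ ≤ 1) (y η : Sp d) :
    ‖(y + (ε * r) • z - η) - (y - η)‖ ≤ 2 ∧ ‖(y + (ε * r) • Rf n z - η) - (y - η)‖ ≤ 2 ∧
    |‖y + (ε * r) • z - η‖ ^ 2 - ‖y + (ε * r) • Rf n z - η‖ ^ 2| ≤ 8 * |⟪y - η, n⟫_ℝ| := by
  have hs : 0 < ε * r := by positivity
  have hs2 : ε * r ≤ 2 := by nlinarith only [hε1, hε, hr2]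
  have e1 : (y + (ε * r) • z - η) - (y - η) = (ε * r) • z := by abel
  have e2 : (y + (ε * r) • Rf n z - η) - (y - η) = (ε * r) • Rf n z := by abel
  rw [e1, e2, norm_smul, norm_smul, (Rf n).norm_map, Real.norm_eq_abs, abs_of_pos hs]
  have h1 : ε * r * ‖z‖ ≤ 2 := by nlinarith only [hε1, hr2, hr, hz, hs]
  refine ⟨h1, h1, ?_⟩
  have e3 : y + (ε * r) • z - η = (y - η) + (ε * r) • z := by abel
  have e4 : y + (ε * r) • Rf n z - η = (y - η) + (ε * r) • Rf n z := by abel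
  rw [e3, e4, norm_diff hn, abs_mul]
  refine mul_le_mul_of_nonneg_right ?_ (abs_nonneg _)
  rw [abs_mul, abs_of_pos (by positivity)]
  have h2 : |⟪n, z⟫_ℝ| ≤ 1 := by
    have := abs_real_inner_le_norm n z
    rw [hn, one_mul] at this
    linarith
  have h3 := abs_nonneg ⟪n, z⟫_ℝ
  nlinarith only [hε1, hr2, hr, hs, h2]

lemma th_diff {C' : ℝ} {μ : Measure (Sp d)} (hμ : Gro C' μ) {n : Sp d} (hn : ‖n‖ = 1) {ε r : ℝ}
    (hε : 0 < ε) (hε1 : ε ≤ 1) (hr : 1 / 2 ≤ r) (hr2 : r ≤ 2) {z : Sp d} (hz : ‖z‖ ≤ 1)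
    (y : Sp d) : |th μ r (y + (ε * r) • z) - th μ r (y + (ε * r) • Rf n z)|
      ≤ cK d * XX0 μ n r y := by
  unfold th XX0
  rw [← integral_sub (int_kk hμ (by linarith) (by linarith) _)
    (int_kk hμ (by linarith) (by linarith) _), ← integral_const_mul]
  refine (abs_integral_le_integral_abs).trans ?_
  refine integral_mono ((int_kk hμ (by linarith) (by linarith) _).sub
    (int_kk hμ (by linarith) (by linarith) _)).abs ((int_ZZ hμ hn hr hr2 y).const_mul _)
    fun η => ?_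
  obtain ⟨g1, g2, g3⟩ := refl_geo hn hε hε1 hr hr2 hz y η
  exact (ker_bd hr hr2 (by linarith) (by linarith) g1 g2 g3).1

lemma th_time {C' : ℝ} {μ : Measure (Sp d)} (hμ : Gro C' μ) {n : Sp d} (hn : ‖n‖ = 1) {ε r t : ℝ}
    (hε : 0 < ε) (hε1 : ε ≤ 1) (hr : 1 / 2 ≤ r) (hr2 : r ≤ 2) (ht : 1 / 4 < t) (ht2 : t < 4)
    {z : Sp d} (hz : ‖z‖ ≤ 1) (y : Sp d) :
    |(th μ t (y + (ε * r) • z) - th μ t (y + (ε * r) • Rf n z))
      - (th μ r (y + (ε * r) • z) - th μ r (y + (ε * r) • Rf n z))|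
      ≤ cK d * XX0 μ n r y * |t - r| := by
  unfold th XX0
  have a1 := int_kk hμ ht ht2 (y + (ε * r) • z)
  have a2 := int_kk hμ ht ht2 (y + (ε * r) • Rf n z)
  have a3 := int_kk hμ (by linarith : 1 / 4 < r) (by linarith) (y + (ε * r) • z)
  have a4 := int_kk hμ (by linarith : 1 / 4 < r) (by linarith) (y + (ε * r) • Rf n z)
  have e1 : ((∫ η, kk t (y + (ε * r) • z - η) ∂μ) - ∫ η, kk t (y + (ε * r) • Rf n z - η) ∂μ)
      - ((∫ η, kk r (y + (ε * r) • z - η) ∂μ) - ∫ η, kk r (y + (ε * r) • Rf n z - η) ∂μ)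
      = ∫ η, ((kk t (y + (ε * r) • z - η) - kk t (y + (ε * r) • Rf n z - η))
        - (kk r (y + (ε * r) • z - η) - kk r (y + (ε * r) • Rf n z - η))) ∂μ := by
    have b1 : Integrable (fun η => kk t (y + (ε * r) • z - η) - kk t (y + (ε * r) • Rf n z - η)) μ :=
      a1.sub a2
    have b2 : Integrable (fun η => kk r (y + (ε * r) • z - η) - kk r (y + (ε * r) • Rf n z - η)) μ :=
      a3.sub a4
    rw [integral_sub b1 b2, integral_sub a1 a2, integral_sub a3 a4]
  rw [e1, ← integral_const_mul, ← integral_mul_const]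
  refine (abs_integral_le_integral_abs).trans ?_
  refine integral_mono ((a1.sub a2).sub (a3.sub a4)).abs
    (((int_ZZ hμ hn hr hr2 y).const_mul _).mul_const _) fun η => ?_
  obtain ⟨g1, g2, g3⟩ := refl_geo hn hε hε1 hr hr2 hz y η
  exact ker_time hr hr2 ht.le ht2.le g1 g2 g3

lemma V_diff (h : StmtTH) (hd : 2 ≤ d) {C' : ℝ} (hC' : 0 < C') : ∃ Cd : ℝ, 0 ≤ Cd ∧
    ∀ μ : Measure (Sp d), Gro C' μ → ∀ n : Sp d, ‖n‖ = 1 → ∀ ε : ℝ, 0 < ε → ε ≤ 1 →
    ∀ (r : ℝ) (y z : Sp d), 1 / 2 ≤ r → r ≤ 2 → ‖z‖ ≤ 1 →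
    |vv μ r (y + (ε * r) • z) - vv μ r (y + (ε * r) • Rf n z)|
      ≤ Cd * Real.sqrt (vv μ r y * X2 μ n r y) ∧
    |pT (vv μ) r (y + (ε * r) • z) - pT (vv μ) r (y + (ε * r) • Rf n z)|
      ≤ Cd * Real.sqrt (vv μ r y * X2 μ n r y) := by
  obtain ⟨C, hC, hv⟩ := vok h hd hC'
  set H : ℝ := 2 ^ d with hH
  have hH0 : 0 < H := by positivity
  have hK0 := cK_nonneg (d := d)
  refine ⟨H * cK d * (1 + C * H ^ 2), by positivity, ?_⟩
  intro μ hμ n hn ε hε hε1 r y z hr hr2 hz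
  have hV := hv μ hμ
  have hr0 : 0 < r := by linarith
  set x := y + (ε * r) • z with hx
  set x' := y + (ε * r) • Rf n z with hx'
  have hz' : ‖Rf n z‖ ≤ 1 := by rw [(Rf n).norm_map]; exact hz
  have v0 := hV.pos r y hr0
  have a0 := hV.pos r x hr0
  have a0' := hV.pos r x' hr0
  -- Harnack
  have g1 : vv μ r y ≤ H * vv μ r x := by
    have h1 := vv_harnack h hd hC' hμ hr0 x hε hε1 (z := -z) (by rwa [norm_neg])
    have e1 : x + (ε * r) • -z = y := by
      rw [hx, smul_neg]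
      abel
    rwa [e1] at h1
  have g2 : vv μ r x' ≤ H * vv μ r y := vv_harnack h hd hC' hμ hr0 y hε hε1 hz'
  -- squares
  have sq : ∀ (t : ℝ) (u : Sp d), 0 < t → th μ t u = vv μ t u ^ 2 := by
    intro t u ht
    unfold vv
    rw [Real.sq_sqrt]
    exact integral_nonneg fun _ => kk_nonneg ht.le _
  set X := XX0 μ n r y with hX
  have hX0 : 0 ≤ X := XX0_nonneg μ n hr0 y
  have q1 : |vv μ r x ^ 2 - vv μ r x' ^ 2| ≤ cK d * X := by
    rw [← sq r x hr0, ← sq r x' hr0]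
    exact th_diff hμ hn hε hε1 hr hr2 hz y
  have q2 : |2 * vv μ r x * pT (vv μ) r x - 2 * vv μ r x' * pT (vv μ) r x'| ≤ cK d * X := by
    have d1 : HasDerivAt (fun t => vv μ t x ^ 2 - vv μ t x' ^ 2)
        (2 * vv μ r x * pT (vv μ) r x - 2 * vv μ r x' * pT (vv μ) r x') r := by
      have d3 := ((hV.sf.hasT hr0 x).fun_pow 2).fun_sub ((hV.sf.hasT hr0 x').fun_pow 2)
      refine d3.congr_deriv ?_
      norm_num
    have h2 := d1.le_of_lip' (C := cK d * X) (by positivity) (by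
      have hnh : Ioo (1 / 4 : ℝ) 4 ∈ 𝓝 r := Ioo_mem_nhds (by linarith) (by linarith)
      filter_upwards [hnh] with t ht
      have ht0 : 0 < t := by
        have := ht.1
        linarith
      rw [← sq t x ht0, ← sq t x' ht0, ← sq r x hr0, ← sq r x' hr0]
      exact th_time hμ hn hε hε1 hr hr2 ht.1 ht.2 hz y)
    exact h2
  have p' := hV.dt r x' hr hr2
  set v := vv μ r y with hvd
  set a := vv μ r x with had
  set a' := vv μ r x' with had'
  set p := pT (vv μ) r x with hpd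
  set pp := pT (vv μ) r x' with hppd
  -- X / v
  have hXv : X / v ≤ Real.sqrt (v * X2 μ n r y) := by
    refine Real.le_sqrt_of_sq_le ?_
    rw [div_pow, div_le_iff₀ (by positivity)]
    have := XX0_sq hV hμ hn hr hr2 y
    nlinarith
  have r1 : |a - a'| ≤ H * cK d * (X / v) := by
    have e1 : |a ^ 2 - a' ^ 2| = |a - a'| * (a + a') := by
      have e2 : a ^ 2 - a' ^ 2 = (a - a') * (a + a') := by ring
      rw [e2, abs_mul, abs_of_pos (a := a + a') (by (clear * - a0 a0'; positivity))]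
    rw [e1] at q1
    have h3 : |a - a'| * a ≤ cK d * X := by nlinarith only [a0', q1, abs_nonneg (a - a')]
    have h4 : |a - a'| * v ≤ H * (cK d * X) := by
      calc |a - a'| * v ≤ |a - a'| * (H * a) := mul_le_mul_of_nonneg_left g1 (abs_nonneg _)
        _ = H * (|a - a'| * a) := by ring
        _ ≤ _ := mul_le_mul_of_nonneg_left h3 hH0.le
    rw [mul_div_assoc', le_div_iff₀ v0]
    linarith
  have r2 : |p - pp| ≤ H * cK d * (1 + C * H ^ 2) * (X / v) := by
    have e1 : a * (p - pp) = (2 * a * p - 2 * a' * pp) / 2 - (a - a') * pp := by ring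
    have h5 : |pp| ≤ C * H * v := by
      calc |pp| ≤ C * a' := p'
        _ ≤ C * (H * v) := mul_le_mul_of_nonneg_left g2 (by linarith)
        _ = _ := by ring
    have h6 : a * |p - pp| ≤ cK d * X + |a - a'| * |pp| := by
      calc a * |p - pp| = |a * (p - pp)| := by rw [abs_mul, abs_of_pos a0]
        _ = |(2 * a * p - 2 * a' * pp) / 2 - (a - a') * pp| := by rw [e1]
        _ ≤ |(2 * a * p - 2 * a' * pp) / 2| + |(a - a') * pp| := abs_sub _ _
        _ ≤ cK d * X + |a - a'| * |pp| := by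
            rw [abs_mul (a - a'), abs_div, abs_of_pos (zero_lt_two (α := ℝ))]
            have : 0 ≤ cK d * X := by positivity
            linarith
    have h7 : |a - a'| * |pp| ≤ (H * cK d * (X / v)) * (C * H * v) :=
      mul_le_mul r1 h5 (abs_nonneg _) (by positivity)
    have h8 : (H * cK d * (X / v)) * (C * H * v) = C * H ^ 2 * cK d * X := by
      field_simp
    have h9 : v * |p - pp| ≤ H * (cK d * X + C * H ^ 2 * cK d * X) := by
      calc v * |p - pp| ≤ (H * a) * |p - pp| := mul_le_mul_of_nonneg_right g1 (abs_nonneg _)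
        _ = H * (a * |p - pp|) := by ring
        _ ≤ H * (cK d * X + C * H ^ 2 * cK d * X) := by
            refine mul_le_mul_of_nonneg_left ?_ hH0.le
            linarith
    rw [mul_div_assoc', le_div_iff₀ v0]
    linarith only [h9]
  have hc : 0 ≤ H * cK d * (1 + C * H ^ 2) := by positivity
  refine ⟨?_, r2.trans (mul_le_mul_of_nonneg_left hXv hc)⟩
  refine r1.trans ?_
  refine (mul_le_mul_of_nonneg_left hXv (by positivity)).trans ?_
  refine mul_le_mul_of_nonneg_right ?_ (Real.sqrt_nonneg _)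
  have : 0 ≤ H * cK d * (C * H ^ 2) := by positivity
  linarith only [this]

end WBT

end

end TG


end
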