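import Mathlib
import Pool.Agent.TRM.C02
import Pool.Agent.TRM.C10
import Pool.Agent.TRM.C13
import Pool.Agent.TRM.C16
import Pool.Agent.TRM.C17
import Pool.Agent.TRM.C19
import Pool.Agent.TRM.C24
import Pool.Agent.TRM.C34

/-! Parts: TG.TA1v, TG.TA1w, TG.TA1x, TG.TA1p, TG.TA1, TG.WBb, TG.WBC, TG.WB -/

section

/-!
# MODULE TA1: discs in the plane and the plane integral (helper88)
-/

open MeasureTheory Metric Set TrI
open scoped InnerProductSpace ContDiff

namespace TG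

namespace TA1m

noncomputable section

variable {d : ℕ}

/-- the integral over a disc is at most the plane integral -/
lemma disc_le {n : Sp d} (hn : ‖n‖ = 1) {s R ρ : ℝ} {F G : Sp d → ℝ} (hF : Continuous F)
    (hG : Continuous G) (h0 : ∀ x, 0 ≤ G x) {y : Sp d} (hy : ⟪n, y⟫_ℝ = s) (hR : ‖y‖ + ρ ≤ R)
    (hFG : ∀ x, ⟪n, x⟫_ℝ = s → ‖x - y‖ ≤ ρ → F x ≤ G x) :
    discR n ρ F y ≤ plInt n s (fun x => zR R x * G x) := by
  have hw0 : ⟪n, y - s • n⟫_ℝ = 0 := by
    rw [inner_sub_right, inner_smul_right, real_inner_self_eq_norm_sq, hn, hy]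
    ring
  set w0 : (Submodule.span ℝ {n})ᗮ :=
    ⟨y - s • n, Submodule.mem_orthogonal_singleton_iff_inner_right.2 hw0⟩ with hw0d
  have e0 : ∀ w : (Submodule.span ℝ {n})ᗮ, s • n + ((w0 + w : (Submodule.span ℝ {n})ᗮ) : Sp d) =
      y + (w : Sp d) := by
    intro w
    rw [Submodule.coe_add, hw0d]
    show s • n + ((y - s • n) + (w : Sp d)) = _
    abel
  have e1 : plInt n s (fun x => zR R x * G x) =
      ∫ w : (Submodule.span ℝ {n})ᗮ, zR R (y + (w : Sp d)) * G (y + (w : Sp d)) := by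
    unfold plInt
    rw [← integral_add_left_eq_self (μ := (volume : Measure (Submodule.span ℝ {n})ᗮ))
      (fun w : (Submodule.span ℝ {n})ᗮ => zR R (s • n + (w : Sp d)) * G (s • n + (w : Sp d))) w0]
    simp only [e0]
  have hiso : Topology.IsClosedEmbedding
      (fun w : (Submodule.span ℝ {n})ᗮ => y + (w : Sp d)) :=
    Isometry.isClosedEmbedding (Isometry.of_dist_eq fun a b => by
      rw [dist_add_left]
      rfl)
  have hint : Integrable (fun w : (Submodule.span ℝ {n})ᗮ =>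
      zR R (y + (w : Sp d)) * G (y + (w : Sp d))) := by
    refine Continuous.integrable_of_hasCompactSupport ?_ ?_
    · exact ((FGm.zR_cont R).mul hG).comp hiso.continuous
    · exact ((FGm.zR_compact (d := d) R).mul_right (f' := G)).comp_isClosedEmbedding hiso
  have hnn : ∀ w : (Submodule.span ℝ {n})ᗮ, 0 ≤ zR R (y + (w : Sp d)) * G (y + (w : Sp d)) :=
    fun w => mul_nonneg (FGm.zR_nonneg _ _) (h0 _)
  rw [e1]
  refine le_trans ?_ (setIntegral_le_integral (s := closedBall (0 : (Submodule.span ℝ {n})ᗮ) ρ)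
    hint (Filter.Eventually.of_forall hnn))
  unfold discR
  refine setIntegral_mono_on ?_ hint.integrableOn measurableSet_closedBall fun w hw => ?_
  · exact (hF.comp hiso.continuous).continuousOn.integrableOn_compact
      (isCompact_closedBall _ _)
  · have hw' : ‖(w : Sp d)‖ ≤ ρ := by
      have : ‖w‖ ≤ ρ := by simpa using hw
      exact this
    have h1 : ‖y + (w : Sp d)‖ ≤ R := (norm_add_le _ _).trans (by linarith)
    rw [FGm.zR_one h1, one_mul]
    refine hFG _ ?_ ?_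
    · rw [inner_add_right, mem_T, hy, add_zero]
    · rwa [add_sub_cancel_left]

/-- discs of a nonnegative function grow with the radius -/
lemma const_le {n : Sp d} (hd : 2 ≤ d) (hn : ‖n‖ = 1) {s R a : ℝ} {G : Sp d → ℝ}
    (hG : Continuous G) (h0 : ∀ x, 0 ≤ G x) {y : Sp d} (hy : ⟪n, y⟫_ℝ = s) (hR : ‖y‖ + 1 ≤ R)
    (ha : ∀ x, ⟪n, x⟫_ℝ = s → ‖x - y‖ ≤ 1 → a ≤ G x) :
    a * FGm.vb d ≤ plInt n s (fun x => zR R x * G x) := by
  have h1 := disc_le hn (F := fun _ => a) continuous_const hG h0 hy hR ha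
  have h2 : discR n 1 (fun _ : Sp d => a) y = a * FGm.vb d := by
    unfold discR
    rw [setIntegral_const, smul_eq_mul, Measure.real, FGm.vol_ball hd hn, mul_comm]
  rwa [h2] at h1

lemma plInt_nonneg {n : Sp d} {s : ℝ} {F : Sp d → ℝ} (h : ∀ x, 0 ≤ F x) : 0 ≤ plInt n s F :=
  integral_nonneg fun _ => h _

/-- upper bound of plane integrals -/
lemma plInt_up (hPF : StmtPF) (hd : 1 ≤ d) {R : ℝ} : ∃ C : ℝ, 0 < C ∧ ∀ (n : Sp d) (s : ℝ),
    ‖n‖ = 1 → ∀ (G : Sp d → ℝ) (N : ℝ), 0 ≤ N → Continuous G → (∀ x, ‖x‖ ≤ R + 1 → |G x| ≤ N) →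
      plInt n s (fun x => zR R x * G x) ≤ C * N := by
  obtain ⟨C, hC, h⟩ := (hPF d hd).1 (R + 1)
  refine ⟨C, hC, fun n s hn G N hN hG hb => ?_⟩
  refine (le_abs_self _).trans (h n hn (fun x => zR R x * G x) N ((FGm.zR_cont R).mul hG) ?_ ?_ s)
  · intro y
    by_cases hy : ‖y‖ ≤ R + 1
    · rw [abs_mul, abs_of_nonneg (FGm.zR_nonneg _ _)]
      have h1 : zR R y ≤ 1 := Real.smoothTransition.le_one _
      have h2 := hb y hy
      have h3 := FGm.zR_nonneg R y
      nlinarith [abs_nonneg (G y)]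
    · push Not at hy
      have : zR R y = 0 := Real.smoothTransition.zero_of_nonpos (by linarith)
      rw [this, zero_mul, abs_zero]
      exact hN
  · intro y hy
    have h1 : zR R y ≠ 0 := fun h0 => hy (by rw [h0, zero_mul])
    have h2 : ‖y‖ ≤ R + 1 := by
      by_contra h3
      push Not at h3
      exact h1 (Real.smoothTransition.zero_of_nonpos (by linarith))
    exact (tang_norm_le hn y).trans h2

end

end TA1m

end TG


end

section

/-!
# MODULE TA1: bounds for the test function ze (helper88)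
-/

open MeasureTheory Metric Set TrI
open scoped InnerProductSpace ContDiff

namespace TG

namespace TA1m

noncomputable section

variable {d : ℕ}

/-- all derivatives of f o yS at y are tangential derivatives of f at yS y -/
lemma comp_yS {J : ℕ} {f : Sp d → ℝ} (hf : ContDiff ℝ J f) {n : Sp d} (hn : ‖n‖ = 1) {s : ℝ}
    {y : Sp d} {T : ℝ} (h : TDb J n T f (yS n s y)) {j : ℕ} (hj : j ≤ J) :
    ‖iteratedFDeriv ℝ j (fun z => f (yS n s z)) y‖ ≤ T := by
  refine mul_norm_le _ h.nonneg fun v hv => ?_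
  have h1 : (fun z => f (yS n s z)) = (fun x => f (s • n + x)) ∘ (tgL n) := by
    rw [yS_eq]
    rfl
  have h2 : ContDiff ℝ J (fun x => f (s • n + x)) := hf.comp (contDiff_const.add contDiff_id)
  rw [h1, ContinuousLinearMap.iteratedFDeriv_comp_right _ h2 _ (by exact_mod_cast hj)]
  have h3 : iteratedFDeriv ℝ j (fun x => f (s • n + x)) (tgL n y) =
      iteratedFDeriv ℝ j f (yS n s y) := by
    rw [iteratedFDeriv_comp_add_left, yS_eq]
  rw [h3]
  refine h j hj (fun i => tgL n (v i)) (fun i => ?_) (fun i => ?_)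
  · rw [tgL_apply, tang_inner hn]
  · rw [tgL_apply]
    exact (tang_norm_le hn _).trans (hv i)

lemma D2_core {X M1 M2 : Sp d → ℝ} {n : Sp d} {s : ℝ}
    (hX : ContDiff ℝ 3 X) (hM1 : ContDiff ℝ 2 M1) (hM2 : ContDiff ℝ 2 M2) {y : Sp d} {T B : ℝ}
    (b1 : ∀ j ≤ 2, ‖iteratedFDeriv ℝ j (fun z => X (yS n s z)) y‖ ≤ T)
    (b2 : ∀ j ≤ 2, ‖iteratedFDeriv ℝ j (fun z => dN n X (yS n s z)) y‖ ≤ T)
    (b3 : ∀ j ≤ 2, ‖iteratedFDeriv ℝ j M2 y‖ ≤ T)
    (b4 : ∀ j ≤ 2, ‖iteratedFDeriv ℝ j M1 y‖ ≤ T)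
    (b5 : ∀ j ≤ 2, ‖iteratedFDeriv ℝ j (hgt n s) y‖ ≤ B) {j : ℕ} (hj : j ≤ 2) :
    ‖iteratedFDeriv ℝ j (zz X M1 M2 n s) y‖ ≤ (2 + 12 * B) * T := by
  have hT : 0 ≤ T := (norm_nonneg _).trans (b3 0 (by norm_num))
  have hB : 0 ≤ B := (norm_nonneg _).trans (b5 0 (by norm_num))
  have hh : ContDiff ℝ 2 (hgt n s) := hgt_smooth n s
  have e1 : ContDiff ℝ 2 (fun z => X (yS n s z)) :=
    (hX.of_le (by norm_num)).comp (yS_smooth n s)
  have e2 : ContDiff ℝ 2 (fun z => dN n X (yS n s z)) :=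
    (dN_smooth (J := 2) n (by exact_mod_cast hX)).comp (yS_smooth n s)
  have p1 : ∀ i ≤ 2, ‖iteratedFDeriv ℝ i (fun z => hgt n s z * dN n X (yS n s z)) y‖ ≤
      4 * (B * T) := fun i hi => by
    refine (TU.mul_core (J := 2) hh e2 b5 b2 hi).trans ?_
    have : (2 : ℝ) ^ i ≤ 2 ^ 2 := pow_le_pow_right₀ (by norm_num) hi
    nlinarith [mul_nonneg hB hT]
  have p2 : ∀ i ≤ 2, ‖iteratedFDeriv ℝ i (fun z => hgt n s z * M1 z) y‖ ≤
      4 * (B * T) := fun i hi => by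
    refine (TU.mul_core (J := 2) hh hM1 b5 b4 hi).trans ?_
    have : (2 : ℝ) ^ i ≤ 2 ^ 2 := pow_le_pow_right₀ (by norm_num) hi
    nlinarith [mul_nonneg hB hT]
  have s1 : ContDiff ℝ 2 (fun z => hgt n s z * dN n X (yS n s z)) := hh.mul e2
  have s2 : ContDiff ℝ 2 (fun z => hgt n s z * M1 z) := hh.mul hM1
  have hjj : (j : WithTop ℕ∞) ≤ (2 : ℕ) := by exact_mod_cast hj
  have c1 : ContDiffAt ℝ j (fun z => X (yS n s z)) y := (e1.of_le hjj).contDiffAt
  have c2 : ContDiffAt ℝ j (fun z => hgt n s z * dN n X (yS n s z)) y :=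
    (s1.of_le hjj).contDiffAt
  have c3 : ContDiffAt ℝ j M2 y := (hM2.of_le hjj).contDiffAt
  have c4 : ContDiffAt ℝ j (fun z => hgt n s z * M1 z) y := (s2.of_le hjj).contDiffAt
  have c5 : ContDiffAt ℝ j (fun z => (-2 : ℝ) • (hgt n s z * M1 z)) y := c4.const_smul (-2 : ℝ)
  have h0 : zz X M1 M2 n s = fun z => (X (yS n s z) + hgt n s z * dN n X (yS n s z)) +
      (M2 z + (-2 : ℝ) • (hgt n s z * M1 z)) := by
    funext z
    unfold zz
    rw [smul_eq_mul]
    ring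
  have h1 : iteratedFDeriv ℝ j (zz X M1 M2 n s) y =
      (iteratedFDeriv ℝ j (fun z => X (yS n s z)) y +
        iteratedFDeriv ℝ j (fun z => hgt n s z * dN n X (yS n s z)) y) +
      (iteratedFDeriv ℝ j M2 y + (-2 : ℝ) • iteratedFDeriv ℝ j (fun z => hgt n s z * M1 z) y) := by
    rw [h0, fun_iteratedFDeriv_add_apply (c1.add c2) (c3.add c5),
      fun_iteratedFDeriv_add_apply c1 c2, fun_iteratedFDeriv_add_apply c3 c5,
      iteratedFDeriv_const_smul_apply' c4]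
  rw [h1]
  have n1 := norm_add_le (iteratedFDeriv ℝ j (fun z => X (yS n s z)) y +
        iteratedFDeriv ℝ j (fun z => hgt n s z * dN n X (yS n s z)) y)
      (iteratedFDeriv ℝ j M2 y + (-2 : ℝ) • iteratedFDeriv ℝ j (fun z => hgt n s z * M1 z) y)
  have n2 := norm_add_le (iteratedFDeriv ℝ j (fun z => X (yS n s z)) y)
    (iteratedFDeriv ℝ j (fun z => hgt n s z * dN n X (yS n s z)) y)
  have n3 := norm_add_le (iteratedFDeriv ℝ j M2 y)
    ((-2 : ℝ) • iteratedFDeriv ℝ j (fun z => hgt n s z * M1 z) y)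
  have n4 : ‖(-2 : ℝ) • iteratedFDeriv ℝ j (fun z => hgt n s z * M1 z) y‖ =
      2 * ‖iteratedFDeriv ℝ j (fun z => hgt n s z * M1 z) y‖ := by
    rw [norm_smul, Real.norm_eq_abs, abs_neg, abs_two]
  have q1 := b1 j hj
  have q2 := p1 j hj
  have q3 := b3 j hj
  have q4 := p2 j hj
  nlinarith

/-- tangential bounds from squares -/
lemma TDb_of_sq {J : ℕ} {n : Sp d} {K : ℝ} {f : Sp d → ℝ} {y : Sp d}
    (h : ∀ j ≤ J, ∀ v : Fin j → Sp d, (∀ i, ⟪n, v i⟫_ℝ = 0) → (∀ i, ‖v i‖ ≤ 1) →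
      (iteratedFDeriv ℝ j f y v) ^ 2 ≤ K) : TDb J n (Real.sqrt K) f y :=
  fun j hj v h0 h1 => Real.abs_le_sqrt (h j hj v h0 h1)

/-- the normal derivative of a function with bounded derivatives -/
lemma dN_full {J : ℕ} {n : Sp d} (hn : ‖n‖ = 1) {f : Sp d → ℝ} (hf : ContDiff ℝ (J + 1 : ℕ) f)
    {y : Sp d} {K : ℝ} (h : ∀ j ≤ J + 1, ‖iteratedFDeriv ℝ j f y‖ ≤ K) {j : ℕ} (hj : j ≤ J) :
    ‖iteratedFDeriv ℝ j (dN n f) y‖ ≤ K := by
  set Lv : (Sp d →L[ℝ] ℝ) →L[ℝ] ℝ := ContinuousLinearMap.apply ℝ ℝ n with hL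
  have h4 : dN n f = Lv ∘ (fderiv ℝ f) := rfl
  have h5 : ContDiff ℝ j (fderiv ℝ f) :=
    hf.fderiv_right (by exact_mod_cast (by omega : j + 1 ≤ J + 1))
  have h6 : ‖Lv‖ ≤ 1 := by
    refine ContinuousLinearMap.opNorm_le_bound _ zero_le_one fun A => ?_
    have := A.le_opNorm n
    rw [hn, mul_one] at this
    rw [one_mul]
    exact this
  rw [h4]
  refine (Lv.norm_iteratedFDeriv_comp_left (f := fderiv ℝ f) (x := y)
    h5.contDiffAt le_rfl).trans ?_
  rw [norm_iteratedFDeriv_fderiv]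
  have h7 := h (j + 1) (by omega)
  nlinarith [norm_nonneg (iteratedFDeriv ℝ (j + 1) f y)]

end

end TA1m

end TG


end

section

/-!
# MODULE TA1: the facts used, with a single constant (helper88)
-/

open MeasureTheory Metric Set TrI
open scoped InnerProductSpace ContDiff

namespace TG

namespace TA1m

noncomputable section

variable {d : ℕ}

/-- averaged moments -/
def mM (μ : Measure (Sp d)) (n : Sp d) (s : ℝ) (i : ℕ) (y : Sp d) : ℝ := tav (Mo μ n s i) 1 y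

/-- the facts from WA, WB, MO, TH with a single constant -/
structure Fac (J : ℕ) (K ε Rb : ℝ) (β : Sp d → ℝ) (μ : Measure (Sp d)) (n : Sp d) (s : ℝ) :
    Prop where
  n1 : ‖n‖ = 1
  K1 : 1 ≤ K
  v0 : 0 ≤ vv μ 1 0
  vn : ∀ y : Sp d, 0 ≤ vv μ 1 y
  vle : ∀ y : Sp d, ‖y‖ ≤ Rb → vv μ 1 y ≤ K * vv μ 1 0
  Xs : ContDiff ℝ (J + 6 : ℕ) (X13 β ε μ n 1)
  XXs : ContDiff ℝ (J + 6 : ℕ) (XX β ε μ n 1)
  X0 : ∀ y, 0 ≤ X13 β ε μ n 1 y
  XX0 : ∀ y, 0 ≤ XX β ε μ n 1 y
  XXb : ∀ y, XX β ε μ n 1 y ≤ K * vv μ 1 y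
  tX : ∀ j ≤ J + 6, ∀ (h : Fin j → Sp d), (∀ i, ⟪n, h i⟫_ℝ = 0) → (∀ i, ‖h i‖ ≤ 1) → ∀ y,
    (iteratedFDeriv ℝ j (X13 β ε μ n 1) y h) ^ 2 ≤
      K * vv μ 1 y * discR n (2 * ε) (X13 β ε μ n 1) y ∧
    (iteratedFDeriv ℝ j (dN n (X13 β ε μ n 1)) y h) ^ 2 ≤
      K * vv μ 1 y * discR n (2 * ε) (X13 β ε μ n 1) y
  Ms : ∀ i, ContDiff ℝ ∞ (mM μ n s i)
  XXp : ∀ y, ⟪n, y⟫_ℝ = s → XX β ε μ n 1 y = X13 β ε μ n 1 y + mM μ n s 2 y
  M2d : ∀ j ≤ J + 2, ∀ y, ‖iteratedFDeriv ℝ j (mM μ n s 2) y‖ ≤ K * mM μ n s 2 y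
  M1d : ∀ j ≤ J + 2, ∀ y, ‖iteratedFDeriv ℝ j (mM μ n s 1) y‖ ^ 2 ≤
    K * vv μ 1 y * mM μ n s 2 y
  M2h : ∀ y y', mM μ n s 2 y' ≤ K * (1 + ‖y - y'‖) ^ (2 * d + 4) * mM μ n s 2 y

lemma exists_Fac (hWA : StmtWA) (hWB : StmtWB) (hMO : StmtMO) (hd : 2 ≤ d) (J : ℕ)
    (M C' ε Rb : ℝ) (hC' : 0 < C') (hε : 0 < ε) (hε1 : ε ≤ 1) : ∃ K : ℝ, 1 ≤ K ∧
    ∀ β : Sp d → ℝ, Kit (J + 10) M β → ∀ μ : Measure (Sp d), Gro C' μ → ∀ (n : Sp d) (s : ℝ),
      ‖n‖ = 1 → Fac J K ε Rb β μ n s := by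
  obtain ⟨C1, hC1, h1⟩ := hWA d (J + 6) hd M C' ε hC' hε hε1
  obtain ⟨C2, hC2, h2⟩ := hWB d (J + 6) hd M C' ε hC' hε hε1
  obtain ⟨C3, hC3, h3⟩ := hMO d (J + 2) hd C' hC'
  set H : ℝ := Real.sqrt ((1 + Rb) ^ d) with hH
  have hHn : 0 ≤ H := Real.sqrt_nonneg _
  set K : ℝ := 1 + C1 + C2 + C3 + C3 * C3 + H with hK
  have q1 : 0 ≤ C3 * C3 := by positivity
  have k0 : 1 ≤ K := by linarith
  have k1 : C1 ≤ K := by linarith
  have k2 : C2 ≤ K := by linarith
  have k3 : C3 ≤ K := by linarith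
  have k4 : C3 * C3 ≤ K := by linarith
  have k5 : H ≤ K := by linarith
  refine ⟨K, k0, ?_⟩
  intro β hβ μ hμ n s hn
  have hβ' : Kit (J + 6 + 4) M β := hβ
  obtain ⟨-, -, -, -, a⟩ := h1 β hβ' μ hμ
  obtain ⟨a1, a2, a3, a4, a5, a6⟩ := a n hn
  obtain ⟨-, -, b3, -⟩ := h2 β hβ' μ hμ n hn
  obtain ⟨m1, m2, m3, m4, m5, m6, m7, m8⟩ := h3 μ hμ n hn s
  have vn : ∀ y : Sp d, 0 ≤ vv μ 1 y := fun y => Real.sqrt_nonneg _
  have M2n : ∀ y, 0 ≤ mM μ n s 2 y := by
    intro y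
    have := (norm_nonneg _).trans (m3 0 (Nat.zero_le _) y)
    exact nonneg_of_mul_nonneg_right this hC3
  have M0n : ∀ y, 0 ≤ tav (Mo μ n s 0) 1 y := by
    intro y
    have := (norm_nonneg _).trans (m4 0 (Nat.zero_le _) y)
    exact nonneg_of_mul_nonneg_right this hC3
  refine ⟨hn, k0, vn 0, vn, ?_, a4, a1, a5, a2, ?_, ?_, m2, ?_, ?_, ?_, ?_⟩
  · intro y hy
    refine (TA2Aux.vv_harnack hd hC' hμ hy).trans ?_
    exact mul_le_mul_of_nonneg_right k5 (vn 0)
  · intro y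
    have := a3 0 (Nat.zero_le _) y
    rw [norm_iteratedFDeriv_zero, Real.norm_of_nonneg (a2 y)] at this
    exact this.trans (mul_le_mul_of_nonneg_right k1 (vn y))
  · intro j hj h hh0 hh1 y
    obtain ⟨c1, c2⟩ := b3 j hj h hh0 hh1 y
    have hdisc : 0 ≤ discR n (2 * ε) (X13 β ε μ n 1) y := by
      unfold discR
      exact integral_nonneg fun _ => a5 _
    have e : C2 * vv μ 1 y * discR n (2 * ε) (X13 β ε μ n 1) y ≤
        K * vv μ 1 y * discR n (2 * ε) (X13 β ε μ n 1) y :=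
      mul_le_mul_of_nonneg_right (mul_le_mul_of_nonneg_right k2 (vn y)) hdisc
    exact ⟨c1.trans e, c2.trans e⟩
  · intro y hy
    have e1 : XX β ε μ n 1 y = X13 β ε μ n 1 y + tav (X2 μ n) 1 y := by
      unfold XX X13
      ring
    have hy' : ⟪y, n⟫_ℝ = s := by
      rw [real_inner_comm]
      exact hy
    rw [e1, m1 y, hy']
    unfold mM
    ring
  · intro j hj y
    exact (m3 j hj y).trans (mul_le_mul_of_nonneg_right k3 (M2n y))
  · intro j hj y
    refine (m5 j hj y).trans ?_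
    have e1 : C3 * tav (Mo μ n s 0) 1 y ≤ C3 * (C3 * vv μ 1 y) :=
      mul_le_mul_of_nonneg_left (m6 y) hC3.le
    have e2 : C3 * (C3 * vv μ 1 y) ≤ K * vv μ 1 y := by
      rw [← mul_assoc]
      exact mul_le_mul_of_nonneg_right k4 (vn y)
    exact mul_le_mul_of_nonneg_right (e1.trans e2) (M2n y)
  · intro y y'
    refine (m7 y y').trans ?_
    refine mul_le_mul_of_nonneg_right (mul_le_mul_of_nonneg_right k3 (by positivity)) (M2n y)

section Bounds

variable {J : ℕ} {K ε Rb : ℝ} {β : Sp d → ℝ} {μ : Measure (Sp d)} {n : Sp d} {s : ℝ}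

/-- the plane integral with radius R -/
def PP (β : Sp d → ℝ) (ε : ℝ) (μ : Measure (Sp d)) (n : Sp d) (s R : ℝ) : ℝ :=
  plInt n s (fun x => zR R x * XX β ε μ n 1 x)

lemma Fac.M2n (h : Fac J K ε Rb β μ n s) (y : Sp d) : 0 ≤ mM μ n s 2 y := by
  have := (norm_nonneg _).trans (h.M2d 0 (Nat.zero_le _) y)
  exact nonneg_of_mul_nonneg_right this (by linarith [h.K1])

lemma Fac.PPn (h : Fac J K ε Rb β μ n s) (R : ℝ) : 0 ≤ PP β ε μ n s R :=
  plInt_nonneg fun x => mul_nonneg (FGm.zR_nonneg _ _) (h.XX0 x)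

lemma Fac.disc (h : Fac J K ε Rb β μ n s) (hε1 : ε ≤ 1 / 4) {R : ℝ} {y : Sp d}
    (hy : ⟪n, y⟫_ℝ = s) (hR : ‖y‖ + 1 ≤ R) :
    discR n (2 * ε) (X13 β ε μ n 1) y ≤ PP β ε μ n s R := by
  refine disc_le h.n1 h.Xs.continuous h.XXs.continuous h.XX0 hy (by linarith) fun x hx _ => ?_
  rw [h.XXp x hx]
  linarith [h.M2n x]

lemma Fac.M2le (h : Fac J K ε Rb β μ n s) (hd : 2 ≤ d) {R : ℝ} {y : Sp d}
    (hy : ⟪n, y⟫_ℝ = s) (hR : ‖y‖ + 1 ≤ R) :
    mM μ n s 2 y ≤ K * 2 ^ (2 * d + 4) / FGm.vb d * PP β ε μ n s R := by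
  have hK : 0 < K := by linarith [h.K1]
  have hv := FGm.vb_pos d
  have h1 := const_le (a := mM μ n s 2 y / (K * 2 ^ (2 * d + 4))) hd h.n1 h.XXs.continuous h.XX0
    hy hR (fun x hx hxy => by
      rw [div_le_iff₀ (by positivity)]
      refine (h.M2h x y).trans ?_
      have e1 : (1 + ‖x - y‖) ^ (2 * d + 4) ≤ 2 ^ (2 * d + 4) :=
        pow_le_pow_left₀ (by positivity) (by linarith) _
      have e2 : mM μ n s 2 x ≤ XX β ε μ n 1 x := by
        rw [h.XXp x hx]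
        linarith [h.X0 x]
      calc K * (1 + ‖x - y‖) ^ (2 * d + 4) * mM μ n s 2 x
          ≤ K * 2 ^ (2 * d + 4) * XX β ε μ n 1 x :=
            mul_le_mul (mul_le_mul_of_nonneg_left e1 hK.le) e2 (h.M2n x) (by positivity)
        _ = _ := by ring)
  unfold PP
  calc mM μ n s 2 y = K * 2 ^ (2 * d + 4) / FGm.vb d *
        (mM μ n s 2 y / (K * 2 ^ (2 * d + 4)) * FGm.vb d) := by
        field_simp
    _ ≤ _ := mul_le_mul_of_nonneg_left h1 (by positivity)

/-- the constant of the bounds on the plane -/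
def K6 (d : ℕ) (K : ℝ) : ℝ := K ^ 5 * (1 + 2 ^ (2 * d + 4) / FGm.vb d)

lemma K6_pos (d : ℕ) {K : ℝ} (hK : 1 ≤ K) : 0 < K6 d K := by
  have := FGm.vb_pos d
  unfold K6
  positivity

lemma K6_ge (d : ℕ) {K : ℝ} (hK : 1 ≤ K) : K ^ 5 ≤ K6 d K := by
  have := FGm.vb_pos d
  unfold K6
  have h1 : 0 ≤ 2 ^ (2 * d + 4) / FGm.vb d := by positivity
  have h2 : 0 < K ^ 5 := by positivity
  nlinarith

lemma K6_ge' (d : ℕ) {K : ℝ} (hK : 1 ≤ K) : K ^ 5 * (2 ^ (2 * d + 4) / FGm.vb d) ≤ K6 d K := by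
  have := FGm.vb_pos d
  unfold K6
  have h2 : 0 < K ^ 5 := by positivity
  nlinarith

/-- bounds of all pieces at a point of the plane -/
lemma Fac.plane (h : Fac J K ε Rb β μ n s) (hd : 2 ≤ d) (hε1 : ε ≤ 1 / 4) {R : ℝ}
    {y : Sp d} (hy : ⟪n, y⟫_ℝ = s) (hR : ‖y‖ + 1 ≤ R) (hyb : ‖y‖ ≤ Rb) :
    TDb (J + 6) n (Real.sqrt (K6 d K) * Real.sqrt (vv μ 1 0 * PP β ε μ n s R))
      (X13 β ε μ n 1) y ∧
    TDb (J + 6) n (Real.sqrt (K6 d K) * Real.sqrt (vv μ 1 0 * PP β ε μ n s R))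
      (dN n (X13 β ε μ n 1)) y ∧
    (∀ j ≤ J + 2, ‖iteratedFDeriv ℝ j (mM μ n s 2) y‖ ≤
      Real.sqrt (K6 d K) * Real.sqrt (vv μ 1 0 * PP β ε μ n s R)) ∧
    (∀ j ≤ J + 2, ‖iteratedFDeriv ℝ j (mM μ n s 1) y‖ ≤
      Real.sqrt (K6 d K) * Real.sqrt (vv μ 1 0 * PP β ε μ n s R)) := by
  have hK1 := h.K1
  have hK : 0 < K := by linarith
  have hv := FGm.vb_pos d
  have hP := h.PPn R
  have hv0 := h.v0
  have hvy := h.vle y hyb
  have hvn := h.vn y
  have hdisc := h.disc hε1 hy hR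
  have hdn : 0 ≤ discR n (2 * ε) (X13 β ε μ n 1) y := by
    unfold discR
    exact integral_nonneg fun _ => h.X0 _
  have hM2 := h.M2le hd hy hR
  have hM2n := h.M2n y
  set P := PP β ε μ n s R with hPd
  set v := vv μ 1 0 with hvd
  have hvP : 0 ≤ v * P := mul_nonneg hv0 hP
  have k1 : K ^ 2 ≤ K ^ 5 := pow_le_pow_right₀ hK1 (by norm_num)
  have k2 : K ^ 3 ≤ K ^ 5 := pow_le_pow_right₀ hK1 (by norm_num)
  have g1 := K6_ge d hK1
  have g2 := K6_ge' d hK1
  have hq : 0 ≤ 2 ^ (2 * d + 4) / FGm.vb d := by positivity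
  have hsq : Real.sqrt (K6 d K) * Real.sqrt (v * P) = Real.sqrt (K6 d K * (v * P)) :=
    (Real.sqrt_mul (K6_pos d hK1).le _).symm
  have t1 : K * vv μ 1 y * discR n (2 * ε) (X13 β ε μ n 1) y ≤ K6 d K * (v * P) := by
    calc K * vv μ 1 y * discR n (2 * ε) (X13 β ε μ n 1) y ≤ K * (K * v) * P :=
          mul_le_mul (mul_le_mul_of_nonneg_left hvy hK.le) hdisc hdn (by positivity)
      _ = K ^ 2 * (v * P) := by ring
      _ ≤ K6 d K * (v * P) := mul_le_mul_of_nonneg_right (k1.trans g1) hvP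
  -- the square of M2
  have t2 : (K * mM μ n s 2 y) ^ 2 ≤ K6 d K * (v * P) := by
    have e1 : mM μ n s 2 y ≤ K * (K * v) := by
      have a1 : mM μ n s 2 y ≤ XX β ε μ n 1 y := by
        rw [h.XXp y hy]
        linarith [h.X0 y]
      exact a1.trans ((h.XXb y).trans (mul_le_mul_of_nonneg_left hvy hK.le))
    calc (K * mM μ n s 2 y) ^ 2 = K ^ 2 * (mM μ n s 2 y * mM μ n s 2 y) := by ring
      _ ≤ K ^ 2 * ((K * (K * v)) * (K * 2 ^ (2 * d + 4) / FGm.vb d * P)) := by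
          refine mul_le_mul_of_nonneg_left (mul_le_mul e1 hM2 hM2n (by positivity)) (by positivity)
      _ = K ^ 5 * (2 ^ (2 * d + 4) / FGm.vb d) * (v * P) := by ring
      _ ≤ _ := mul_le_mul_of_nonneg_right g2 hvP
  have t3 : K * vv μ 1 y * mM μ n s 2 y ≤ K6 d K * (v * P) := by
    calc K * vv μ 1 y * mM μ n s 2 y ≤ K * (K * v) * (K * 2 ^ (2 * d + 4) / FGm.vb d * P) :=
          mul_le_mul (mul_le_mul_of_nonneg_left hvy hK.le) hM2 hM2n (by positivity)
      _ = K ^ 3 * (2 ^ (2 * d + 4) / FGm.vb d) * (v * P) := by ring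
      _ ≤ K6 d K * (v * P) := by
          refine mul_le_mul_of_nonneg_right (le_trans ?_ g2) hvP
          exact mul_le_mul_of_nonneg_right k2 hq
  rw [hsq]
  refine ⟨?_, ?_, ?_, ?_⟩
  · exact TDb_of_sq fun j hj w h0 h1 => ((h.tX j hj w h0 h1 y).1).trans t1
  · exact TDb_of_sq fun j hj w h0 h1 => ((h.tX j hj w h0 h1 y).2).trans t1
  · intro j hj
    refine (h.M2d j hj y).trans ?_
    exact (le_abs_self _).trans (Real.abs_le_sqrt t2)
  · intro j hj
    refine (le_abs_self _).trans (Real.abs_le_sqrt ((h.M1d j hj y).trans t3))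

end Bounds

end

end TA1m

end TG


end

section

/-!
# MODULE TA1 (11.1), case A1: the pointwise part (helper53)
-/

open MeasureTheory Metric Set TrI
open scoped InnerProductSpace ContDiff

namespace TG

namespace TA1p

noncomputable section

variable {d : ℕ}

/-- Harnack inequality for v, lower bound -/
lemma vv_low (hTH : StmtTH) (hd : 2 ≤ d) {C' : ℝ} (hC' : 0 < C') {μ : Measure (Sp d)}
    (hμ : Gro C' μ) {y : Sp d} {r : ℝ} (hy : ‖y‖ ≤ r) :
    vv μ 1 0 ≤ Real.sqrt ((1 + r) ^ d) * vv μ 1 y := by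
  obtain ⟨C, _, hT⟩ := hTH d 0 hd C' hC'
  obtain ⟨h1, _, _, h4, _⟩ := hT μ hμ
  have h5 := h4 1 y 0 one_pos
  have hr : 0 ≤ r := (norm_nonneg y).trans hy
  unfold vv
  rw [← Real.sqrt_mul (by positivity)]
  refine Real.sqrt_le_sqrt (h5.trans ?_)
  refine mul_le_mul_of_nonneg_right ?_ (h1 1 y one_pos).1.le
  rw [sub_zero, div_one]
  exact pow_le_pow_left₀ (by positivity) (by linarith) d

lemma tang_perp {n : Sp d} (hn : ‖n‖ = 1) (y : Sp d) :
    tang n y ∈ (Submodule.span ℝ {n})ᗮ := by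
  rw [Submodule.mem_orthogonal_singleton_iff_inner_right]
  unfold tang
  rw [inner_sub_right, inner_smul_right, real_inner_self_eq_norm_sq, hn]
  ring

lemma yS_inner {n : Sp d} (hn : ‖n‖ = 1) (s : ℝ) (y : Sp d) : ⟪n, TA1m.yS n s y⟫_ℝ = s := by
  have h := Submodule.mem_orthogonal_singleton_iff_inner_right.1 (tang_perp hn y)
  unfold TA1m.yS
  rw [inner_add_right, h, inner_smul_right, real_inner_self_eq_norm_sq, hn]
  ring

lemma yS_norm {n : Sp d} (hn : ‖n‖ = 1) (s : ℝ) (y : Sp d) : ‖TA1m.yS n s y‖ ≤ |s| + ‖y‖ := by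
  unfold TA1m.yS
  refine (norm_add_le _ _).trans ?_
  rw [norm_smul, hn, mul_one, Real.norm_eq_abs]
  have h1 : ‖tang n y‖ ^ 2 = ‖y‖ ^ 2 - ⟪n, y⟫_ℝ ^ 2 := by
    unfold tang
    rw [norm_sub_sq_real, norm_smul, hn, inner_smul_right, real_inner_comm]
    simp
    ring
  have h2 : ‖tang n y‖ ≤ ‖y‖ := by
    nlinarith [norm_nonneg (tang n y), norm_nonneg y, sq_nonneg ⟪n, y⟫_ℝ]
  linarith

lemma eq_yS (n : Sp d) (s : ℝ) (y : Sp d) : TA1m.yS n s y + hgt n s y • n = y := by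
  unfold TA1m.yS hgt tang
  rw [sub_smul]
  abel

/-- a disc integral is at most a plane integral -/
lemma disc_le_pl {n : Sp d} (hn : ‖n‖ = 1) (s : ℝ) (y : Sp d) (ρ : ℝ) {F G : Sp d → ℝ}
    (hF : Continuous F) (hG : Continuous G) (hGc : HasCompactSupport G) (h0 : ∀ x, 0 ≤ G x)
    (hle : ∀ x, ⟪n, x⟫_ℝ = s → ‖x‖ ≤ |s| + ‖y‖ + ρ → F x ≤ G x) :
    discR n ρ F (TA1m.yS n s y) ≤ plInt n s G := by
  set τ : (Submodule.span ℝ {n})ᗮ := ⟨tang n y, tang_perp hn y⟩ with hτ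
  have hiso : ∀ a : Sp d, Topology.IsClosedEmbedding
      (fun y' : (Submodule.span ℝ {n})ᗮ => a + (y' : Sp d)) := fun a =>
    Isometry.isClosedEmbedding (Isometry.of_dist_eq fun a b => by
      rw [dist_add_left]
      rfl)
  have hGi : Integrable (fun y' : (Submodule.span ℝ {n})ᗮ => G (TA1m.yS n s y + (y' : Sp d))) :=
    (hG.comp (hiso _).continuous).integrable_of_hasCompactSupport
      (hGc.comp_isClosedEmbedding (hiso _))
  unfold discR plInt
  calc ∫ y' in closedBall (0 : (Submodule.span ℝ {n})ᗮ) ρ, F (TA1m.yS n s y + (y' : Sp d))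
      ≤ ∫ y' in closedBall (0 : (Submodule.span ℝ {n})ᗮ) ρ, G (TA1m.yS n s y + (y' : Sp d)) := by
        refine setIntegral_mono_on ((hF.comp (hiso _).continuous).continuousOn.integrableOn_compact
          (isCompact_closedBall _ _)) hGi.integrableOn measurableSet_closedBall fun y' hy' => ?_
        refine hle _ ?_ ?_
        · have h1 : ⟪n, (y' : Sp d)⟫_ℝ = 0 :=
            Submodule.mem_orthogonal_singleton_iff_inner_right.1 y'.2
          rw [inner_add_right, h1, yS_inner hn, add_zero]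
        · refine (norm_add_le _ _).trans (add_le_add (yS_norm hn s y) ?_)
          have h2 : ‖(y' : Sp d)‖ = ‖y'‖ := rfl
          rw [h2]
          simpa using hy'
    _ ≤ ∫ y' : (Submodule.span ℝ {n})ᗮ, G (TA1m.yS n s y + (y' : Sp d)) :=
        setIntegral_le_integral hGi (Filter.Eventually.of_forall fun y' => h0 _)
    _ = ∫ y' : (Submodule.span ℝ {n})ᗮ, G (s • n + ((τ + y' : (Submodule.span ℝ {n})ᗮ) : Sp d)) := by
        congr 1
        funext y'
        rw [Submodule.coe_add, hτ]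
        unfold TA1m.yS
        rw [add_assoc]
    _ = ∫ y' : (Submodule.span ℝ {n})ᗮ, G (s • n + (y' : Sp d)) :=
        integral_add_left_eq_self (fun z : (Submodule.span ℝ {n})ᗮ => G (s • n + (z : Sp d))) τ

/-- one-sided Taylor inequality in direction n -/
lemma taylor_low {F : Sp d → ℝ} (hF : ContDiff ℝ 2 F) (n a : Sp d) (h B : ℝ)
    (hB : ∀ r : ℝ, |r| ≤ |h| → -B ≤ d2 n F (a + r • n)) :
    F a + h * fderiv ℝ F a n - B * h ^ 2 / 2 ≤ F (a + h • n) := by
  have hF1 : ContDiff ℝ 1 (fderiv ℝ F) := hF.fderiv_right (m := 1) (by norm_num)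
  have hp : ∀ u : ℝ, HasDerivAt (fun u : ℝ => a + (u * h) • n) (h • n) u := by
    intro u
    have h1 : HasDerivAt (fun u : ℝ => u * h) h u := by
      simpa using (hasDerivAt_id u).mul_const h
    exact (h1.smul_const n).const_add a
  have h1 : ∀ u : ℝ, HasDerivAt (fun u : ℝ => F (a + (u * h) • n))
      (h * fderiv ℝ F (a + (u * h) • n) n) u := by
    intro u
    have h2 := ((hF.differentiable (by norm_num)) (a + (u * h) • n)).hasFDerivAt.comp_hasDerivAt u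
      (hp u)
    rw [map_smul, smul_eq_mul] at h2
    exact h2
  have h3 : ∀ u : ℝ, HasDerivAt (fun u : ℝ => fderiv ℝ F (a + (u * h) • n) n)
      (h * d2 n F (a + (u * h) • n)) u := by
    intro u
    have h2 := ((hF1.differentiable (by norm_num)) (a + (u * h) • n)).hasFDerivAt.comp_hasDerivAt u
      (hp u)
    have h4 := h2.clm_apply (hasDerivAt_const u n)
    have e : d2 n F (a + (u * h) • n) = fderiv ℝ (fderiv ℝ F) (a + (u * h) • n) n n := by
      unfold d2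
      rw [iteratedFDeriv_two_apply]
    rw [e]
    simpa using h4
  set φ : ℝ → ℝ := fun u => F (a + (u * h) • n) + B * h ^ 2 * (u ^ 2 / 2) with hφ
  set ψ : ℝ → ℝ := fun u => h * fderiv ℝ F (a + (u * h) • n) n + B * h ^ 2 * u with hψ
  have hφ' : ∀ u, HasDerivAt φ (ψ u) u := by
    intro u
    refine (h1 u).add ?_
    have h5 : HasDerivAt (fun u : ℝ => u ^ 2 / 2) u u := by
      have := (hasDerivAt_pow 2 u).div_const 2
      simpa using this
    exact h5.const_mul _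
  have hψ' : ∀ u, HasDerivAt ψ (h * (h * d2 n F (a + (u * h) • n)) + B * h ^ 2) u := by
    intro u
    refine ((h3 u).const_mul h).add ?_
    simpa using (hasDerivAt_id u).const_mul (B * h ^ 2)
  have hmono : MonotoneOn ψ (Icc 0 1) := by
    refine monotoneOn_of_deriv_nonneg (convex_Icc 0 1)
      (fun u _ => (hψ' u).continuousAt.continuousWithinAt)
      (fun u _ => (hψ' u).differentiableAt.differentiableWithinAt) ?_
    intro u hu
    rw [interior_Icc] at hu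
    rw [(hψ' u).deriv]
    have h6 := hB (u * h) (by
      rw [abs_mul, abs_of_pos hu.1]
      exact mul_le_of_le_one_left (abs_nonneg h) hu.2.le)
    nlinarith [sq_nonneg h]
  have hmain : ψ 0 * (1 - 0) ≤ φ 1 - φ 0 := by
    refine Convex.mul_sub_le_image_sub_of_le_deriv (convex_Icc 0 1)
      (fun u _ => (hφ' u).continuousAt.continuousWithinAt)
      (fun u _ => (hφ' u).differentiableAt.differentiableWithinAt) ?_ 0 (by simp) 1 (by simp)
      zero_le_one
    intro u hu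
    rw [interior_Icc] at hu
    rw [(hφ' u).deriv]
    exact hmono (by simp) ⟨hu.1.le, hu.2.le⟩ hu.1.le
  simp only [hφ, hψ] at hmain
  simp only [one_mul, zero_mul, zero_smul, add_zero, mul_zero, sub_zero, mul_one] at hmain
  linarith

lemma Mo_nonneg (μ : Measure (Sp d)) (n : Sp d) (c : ℝ) {i : ℕ} (hi : Even i) (t : ℝ) (y : Sp d)
    (ht : 0 ≤ t) : 0 ≤ Mo μ n c i t y := by
  unfold Mo
  refine div_nonneg (integral_nonneg fun η => ?_) (Real.sqrt_nonneg _)
  have := kk_nonneg ht (y - η)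
  exact mul_nonneg (div_nonneg (hi.pow_nonneg _) (by positivity)) this

/-- lower bound of the zeroth moment near the measure -/
lemma Mo0_low (h : StmtTH) (hd : 2 ≤ d) {C' p0 A : ℝ} (hC' : 0 < C') (hp0 : 0 < p0)
    (hA : 1 ≤ A) : ∃ c : ℝ, 0 < c ∧ ∀ μ : Measure (Sp d), Gro C' μ →
      ∀ (n : Sp d) (s : ℝ), ‖n‖ = 1 → ∀ y : Sp d, ‖y‖ ≤ d → p0 ≤ qq A μ 1 y →
      c * vv μ 1 0 ≤ tav (Mo μ n s 0) 1 y := by
  obtain ⟨C, hC, hT⟩ := MO.getTH h d 0 hd C' hC'
  set Q : ℝ := 4 + A ^ 2 with hQ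
  have hQ0 : 0 < Q := by positivity
  set c1 : ℝ := 1 / Q ^ 2 * ((1 / 2) / Real.sqrt Q ^ d) with hc1
  have hc1p : 0 < c1 := by positivity
  set H : ℝ := Real.sqrt ((1 + (d : ℝ)) ^ d) with hH
  have hHp : 0 < H := Real.sqrt_pos.2 (by positivity)
  have hsC : 0 < Real.sqrt C := Real.sqrt_pos.2 hC
  have hct := FGm.ct_pos
  refine ⟨FGm.ct * (c1 * p0 / Real.sqrt C / H), by positivity, ?_⟩
  intro μ hμ n s hn y hy hq
  have hTμ := hT μ hμ
  have := hμ.fin
  have hth := hTμ.pos 1 y one_pos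
  have hv1 := hTμ.vpos one_pos y
  have hv0 := vv_low h hd hC' hμ hy
  have hq' : p0 * th μ 1 y ≤ ∫ η, cut (‖y - η‖ / (A * 1)) * kk 1 (y - η) ∂μ := by
    unfold qq at hq
    exact (le_div_iff₀ hth).1 hq
  have hpt : ∀ r ∈ Icc (1 / 2 : ℝ) 2, c1 * p0 / Real.sqrt C / H * vv μ 1 0 ≤ Mo μ n s 0 r y := by
    intro r hr
    have hr0 : 0 < r := by linarith only [hr.1]
    have hvr := hTμ.vpos hr0 y
    have hvt := MO.v_time hTμ hC (r := r) (s := 1) one_pos (by linarith only [hr.1])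
      (by linarith [hr.2]) y
    have hnum : c1 * (p0 * th μ 1 y) ≤
        ∫ η, (⟪η, n⟫_ℝ - s) ^ 0 / (r ^ 2 + ‖y - η‖ ^ 2) ^ 2 * kk r (y - η) ∂μ := by
      refine (mul_le_mul_of_nonneg_left hq' hc1p.le).trans ?_
      rw [← integral_const_mul]
      refine integral_mono_of_nonneg (Filter.Eventually.of_forall fun η => ?_) ?_
        (Filter.Eventually.of_forall fun η => ?_)
      · exact mul_nonneg hc1p.le (mul_nonneg (FGm.cut_nonneg _) (kk_nonneg zero_le_one _))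
      · have hi := MO.hK_int h hd hC' hμ n hn s 0 (by norm_num) hr.1 hr.2 y
        refine hi.congr (Filter.Eventually.of_forall fun η => ?_)
        unfold MO.K MO.ht
        ring
      · by_cases hη : ‖y - η‖ ≤ A
        · have e5 : r ^ 2 + ‖y - η‖ ^ 2 ≤ Q := by
            rw [hQ]
            have h1 : r ^ 2 ≤ 4 := by nlinarith only [hr0, hr.2]
            have h2 : ‖y - η‖ ^ 2 ≤ A ^ 2 := by (clear * - hη; gcongr)
            linarith
          have e6 : 1 / Q ^ 2 ≤ (⟪η, n⟫_ℝ - s) ^ 0 / (r ^ 2 + ‖y - η‖ ^ 2) ^ 2 := by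
            rw [pow_zero]
            have : 0 < r ^ 2 + ‖y - η‖ ^ 2 := by positivity
            (clear * - hr0 e5; gcongr)
          have e7 : (1 / 2) / Real.sqrt Q ^ d ≤ kk r (y - η) := by
            unfold kk
            have : 0 < Real.sqrt (r ^ 2 + ‖y - η‖ ^ 2) := Real.sqrt_pos.2 (by positivity)
            have h1 := hr.1
            (clear * - hr0 h1 e5; gcongr)
          have e8 : cut (‖y - η‖ / (A * 1)) * kk 1 (y - η) ≤ 1 := by
            have a1 : kk 1 (y - η) ≤ 1 := by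
              have := GNaux.kk_le 1 one_pos (y - η)
              simpa using this
            exact mul_le_one₀ (FGm.cut_le _) (kk_nonneg zero_le_one _) a1
          calc c1 * (cut (‖y - η‖ / (A * 1)) * kk 1 (y - η)) ≤ c1 * 1 := by gcongr
            _ = 1 / Q ^ 2 * ((1 / 2) / Real.sqrt Q ^ d) := by rw [mul_one]
            _ ≤ _ := mul_le_mul e6 e7 (by positivity) (by positivity)
        · have : cut (‖y - η‖ / (A * 1)) = 0 := by
            refine FGm.cut_zero ?_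
            rw [mul_one, le_div_iff₀ (by linarith), one_mul]
            linarith
          beta_reduce
          rw [this, zero_mul, mul_zero]
          exact mul_nonneg (by positivity) (kk_nonneg hr0.le _)
    unfold Mo
    rw [le_div_iff₀ hvr]
    have hsq : vv μ 1 y * vv μ 1 y = th μ 1 y := Real.mul_self_sqrt hth.le
    have h1 : vv μ 1 0 / H ≤ vv μ 1 y := by
      rw [div_le_iff₀ hHp]
      linarith
    calc c1 * p0 / Real.sqrt C / H * vv μ 1 0 * vv μ r y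
        ≤ c1 * p0 / Real.sqrt C / H * vv μ 1 0 * (Real.sqrt C * vv μ 1 y) := by
          refine mul_le_mul_of_nonneg_left hvt ?_
          have := (hTμ.vpos one_pos (0 : Sp d)).le
          positivity
      _ = c1 * p0 * ((vv μ 1 0 / H) * vv μ 1 y) := by field_simp
      _ ≤ c1 * p0 * (vv μ 1 y * vv μ 1 y) := by gcongr
      _ = c1 * (p0 * th μ 1 y) := by rw [hsq]; ring
      _ ≤ _ := hnum
  have hI : IntervalIntegrable (fun r => tau 1 r * Mo μ n s 0 r y) volume (1 / 2) 2 := by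
    have h1 := (MO.Fk_int hTμ hC n s 0 (MO.Bk_int μ n hn s 0 (by norm_num)) y)
    unfold MO.nu at h1
    have h2 := h1.integral_prod_left
    rw [intervalIntegrable_iff_integrableOn_Ioc_of_le (by norm_num)]
    refine h2.congr (Filter.Eventually.of_forall fun r => ?_)
    exact (MO.Mo_eq n s 0 r y).symm
  unfold tav
  rw [mul_one]
  have e3 : FGm.ct * (c1 * p0 / Real.sqrt C / H) * vv μ 1 0 =
      ∫ r in (1 / 2 : ℝ)..2, tau 1 r * (c1 * p0 / Real.sqrt C / H * vv μ 1 0) := by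
    rw [intervalIntegral.integral_mul_const]
    unfold FGm.ct
    ring
  rw [e3]
  refine intervalIntegral.integral_mono_on (by norm_num)
    (((GNaux.tau_cont 1).mul continuous_const).intervalIntegrable _ _) hI ?_
  intro r hr
  exact mul_le_mul_of_nonneg_left (hpt r hr) (GNaux.tau_nonneg _ _)

/-- disc integrals are Lipschitz in the normal direction -/
lemma disc_lip {n : Sp d} (hd : 2 ≤ d) (hn : ‖n‖ = 1) {F : Sp d → ℝ} (hF : ContDiff ℝ 1 F)
    {ρ L : ℝ} (hρ : ρ ≤ 1) (hL : 0 ≤ L) (a : Sp d) (r : ℝ)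
    (hb : ∀ x, ‖x - a‖ ≤ |r| + ρ → ‖fderiv ℝ F x‖ ≤ L) :
    discR n ρ F (a + r • n) ≤ discR n ρ F a + L * |r| * FGm.vb d := by
  have hc : ∀ b : Sp d, Continuous (fun y' : (Submodule.span ℝ {n})ᗮ => F (b + (y' : Sp d))) :=
    fun b => hF.continuous.comp (by fun_prop)
  have hi : ∀ b : Sp d, IntegrableOn (fun y' : (Submodule.span ℝ {n})ᗮ => F (b + (y' : Sp d)))
      (closedBall 0 ρ) := fun b =>
    (hc b).continuousOn.integrableOn_compact (isCompact_closedBall _ _)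
  have hconst : IntegrableOn (fun _ : (Submodule.span ℝ {n})ᗮ => L * |r|) (closedBall 0 ρ) :=
    integrableOn_const measure_closedBall_lt_top.ne
  unfold discR
  calc ∫ y' in closedBall (0 : (Submodule.span ℝ {n})ᗮ) ρ, F (a + r • n + (y' : Sp d))
      ≤ ∫ y' in closedBall (0 : (Submodule.span ℝ {n})ᗮ) ρ, (F (a + (y' : Sp d)) + L * |r|) := by
        refine setIntegral_mono_on (hi _) ((hi a).add hconst) measurableSet_closedBall
          fun y' hy' => ?_
        have hy2 : ‖(y' : Sp d)‖ ≤ ρ := by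
          have h2 : ‖(y' : Sp d)‖ = ‖y'‖ := rfl
          rw [h2]
          simpa using hy'
        have hseg : ∀ x ∈ segment ℝ (a + (y' : Sp d)) (a + r • n + (y' : Sp d)),
            ‖x - a‖ ≤ |r| + ρ := by
          intro x hx
          obtain ⟨t, ht, rfl⟩ := (segment_eq_image' ℝ (a + (y' : Sp d)) (a + r • n + y')) ▸ hx
          have e1 : a + (y' : Sp d) + t • (a + r • n + (y' : Sp d) - (a + (y' : Sp d))) - a =
              (t * r) • n + (y' : Sp d) := by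
            rw [show a + r • n + (y' : Sp d) - (a + (y' : Sp d)) = r • n by abel, smul_smul]
            abel
          rw [e1]
          refine (norm_add_le _ _).trans (add_le_add ?_ hy2)
          rw [norm_smul, hn, mul_one, Real.norm_eq_abs, abs_mul, abs_of_nonneg ht.1]
          exact mul_le_of_le_one_left (abs_nonneg r) ht.2
        have h3 := (convex_segment (a + (y' : Sp d)) (a + r • n + (y' : Sp d))).norm_image_sub_le_of_norm_fderiv_le
          (𝕜 := ℝ) (f := F) (C := L) (fun x _ => (hF.differentiable (by norm_num)) x)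
          (fun x hx => hb x (hseg x hx)) (left_mem_segment ℝ _ _) (right_mem_segment ℝ _ _)
        have e2 : a + r • n + (y' : Sp d) - (a + (y' : Sp d)) = r • n := by abel
        rw [e2, norm_smul, hn, mul_one, Real.norm_eq_abs, Real.norm_eq_abs] at h3
        have h4 := le_abs_self (F (a + r • n + (y' : Sp d)) - F (a + (y' : Sp d)))
        linarith
    _ = (∫ y' in closedBall (0 : (Submodule.span ℝ {n})ᗮ) ρ, F (a + (y' : Sp d))) +
        (volume (closedBall (0 : (Submodule.span ℝ {n})ᗮ) ρ)).toReal * (L * |r|) := by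
        rw [integral_add (hi a) hconst, setIntegral_const, smul_eq_mul]
        rfl
    _ ≤ (∫ y' in closedBall (0 : (Submodule.span ℝ {n})ᗮ) ρ, F (a + (y' : Sp d))) +
        L * |r| * FGm.vb d := by
        have h5 : (volume (closedBall (0 : (Submodule.span ℝ {n})ᗮ) ρ)).toReal ≤ FGm.vb d := by
          rw [← FGm.vol_ball hd hn]
          exact ENNReal.toReal_mono measure_closedBall_lt_top.ne
            (measure_mono (closedBall_subset_closedBall hρ))
        have h6 := mul_le_mul_of_nonneg_right h5 (mul_nonneg hL (abs_nonneg r))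
        linarith

lemma abs_le_of_sq {x K t : ℝ} (hK : 0 ≤ K) (ht : 0 ≤ t) (h : x ^ 2 ≤ K * t ^ 2) :
    |x| ≤ (K + 1) * t := by
  refine abs_le_of_sq_le_sq ?_ (by positivity)
  calc x ^ 2 ≤ K * t ^ 2 := h
    _ ≤ (K + 1) ^ 2 * t ^ 2 := by
        refine mul_le_mul_of_nonneg_right ?_ (sq_nonneg t)
        nlinarith
    _ = ((K + 1) * t) ^ 2 := by ring

end

end TA1p

open _root_.TG.TA1p TA1m in
/-- the pointwise inequality -/
theorem TA1m.stmtPtA (hTH : StmtTH) (hWA : StmtWA) (hWB : StmtWB) (hMO : StmtMO) : StmtPtA := by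
  intro d J hd M C' ε p0 A c R0 hC' hε hε4 hFK hR0
  have hε1 : ε ≤ 1 := by linarith
  have hA := hFK.A_ge
  have hc := hFK.c_pos
  have hd0 : (0 : ℝ) ≤ d := Nat.cast_nonneg d
  obtain ⟨CW, hCW, hW⟩ := hWA d 2 hd M C' ε hC' hε hε1
  obtain ⟨CB, hCB, hB⟩ := hWB d 0 hd M C' ε hC' hε hε1
  obtain ⟨CM, hCM, hM⟩ := hMO d 0 hd C' hC'
  obtain ⟨c2, hc2, hM0⟩ := Mo0_low hTH hd hC' hFK.p0_pos hA
  have hvb := FGm.vb_pos d
  set H : ℝ := Real.sqrt ((1 + 3 * R0) ^ d) with hH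
  have hR0p : 24 ≤ R0 := by linarith
  have hHp : 0 < H := Real.sqrt_pos.2 (by positivity)
  set K2 : ℝ := CM * (2 + 2 * R0) ^ (2 * d + 4) / FGm.vb d with hK2
  have hK2p : 0 < K2 := by positivity
  set KB : ℝ := CB * H + 1 with hKB
  set K1 : ℝ := CM * CM * H * K2 + 1 with hK1
  set KL : ℝ := KB * (1 + 2 * R0) with hKL
  set Kz : ℝ := KL + K2 + 4 * R0 * K1 with hKz
  have hKBp : 0 < KB := by positivity
  have hK1p : 0 < K1 := by positivity
  have hKLp : 0 < KL := by positivity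
  have hKzp : 0 < Kz := by positivity
  set g : ℝ := (c2 / CB) ^ 2 with hg
  have hgp : 0 < g := by positivity
  set z0 : ℝ := min 1 (g / (2 * (H * (CW * H * FGm.vb d)))) with hz0
  have hz0p : 0 < z0 := lt_min one_pos (by positivity)
  have hz01 : z0 ≤ 1 := min_le_left _ _
  have hz02 : H * (CW * H * FGm.vb d * z0) ≤ g / 2 := by
    have h1 : z0 ≤ g / (2 * (H * (CW * H * FGm.vb d))) := min_le_right _ _
    rw [le_div_iff₀ (by positivity)] at h1
    linarith
  set r0 : ℝ := min 1 (min (1 / (2 * H * Kz)) (min (c2 * z0 ^ 2 / (2 * KL)) (g / (2 * H)))) with hr0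
  have hr0p : 0 < r0 := lt_min one_pos (lt_min (by positivity) (lt_min (by positivity)
    (by positivity)))
  have hr01 : r0 ≤ 1 := min_le_left _ _
  have hr02 : Kz * r0 ≤ 1 / (2 * H) := by
    have h1 : r0 ≤ 1 / (2 * H * Kz) := (min_le_right _ _).trans (min_le_left _ _)
    rw [le_div_iff₀ (by (clear * - hR0p hCB hCM hvb; positivity))] at h1
    rw [le_div_iff₀ (by positivity)]
    linarith
  have hr03 : KL * r0 ≤ c2 / 2 * z0 ^ 2 := by
    have h1 : r0 ≤ c2 * z0 ^ 2 / (2 * KL) := (min_le_right _ _).trans ((min_le_right _ _).trans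
      (min_le_left _ _))
    rw [le_div_iff₀ (by positivity)] at h1
    linarith
  have hr04 : H * r0 ≤ g / 2 := by
    have h1 : r0 ≤ g / (2 * H) := (min_le_right _ _).trans ((min_le_right _ _).trans
      (min_le_right _ _))
    rw [le_div_iff₀ (by positivity)] at h1
    linarith
  have hr0sq : r0 ^ 2 ≤ r0 := by
    rw [sq]
    exact mul_le_of_le_one_left hr0p.le hr01
  set κ : ℝ := min c (min (c * c2 / 2) (c / (8 * H * R0 ^ 2))) with hκ
  have hκp : 0 < κ := lt_min hc (lt_min (by positivity) (by positivity))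
  have hκ2 : κ ≤ c * c2 / 2 := (min_le_right _ _).trans (min_le_left _ _)
  have hκ3 : κ * (4 * R0 ^ 2) ≤ c * (1 / (2 * H)) := by
    have h1 : κ ≤ c / (8 * H * R0 ^ 2) := (min_le_right _ _).trans (min_le_right _ _)
    calc κ * (4 * R0 ^ 2) ≤ c / (8 * H * R0 ^ 2) * (4 * R0 ^ 2) := by gcongr
      _ = c * (1 / (2 * H)) := by
        field_simp
        norm_num
  refine ⟨κ, r0 ^ 2, hκp, min_le_left _ _, by (clear * - hR0p hCB hCM hvb hc2 hCW; positivity), ?_⟩
  intro β hβ μ hμ n s hn hs hpl y hy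
  obtain ⟨_, _, _, _, hWn⟩ := hW β (PTm.kit_mono (by omega) hβ) μ hμ
  obtain ⟨hXs, hX0, _, hX13s, hX13n, hX13b⟩ := hWn n hn
  obtain ⟨_, _, hB3, hB4⟩ := hB β (PTm.kit_mono (by omega) hβ) μ hμ n hn
  obtain ⟨hM1, _, hMj2, hMj0, hMj1, hMv, hMh, _⟩ := hM μ hμ n hn s
  set v : ℝ := vv μ 1 0 with hv
  obtain ⟨CT, _, hTT⟩ := hTH d 0 hd C' hC'
  have hv0 : 0 < v := Real.sqrt_pos.2 ((hTT μ hμ).1 1 0 one_pos).1
  have hup : ∀ x : Sp d, ‖x‖ ≤ 3 * R0 → vv μ 1 x ≤ H * v := fun x hx =>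
    TA2Aux.vv_harnack hd hC' hμ hx
  have hlo : v ≤ H * vv μ 1 y := vv_low hTH hd hC' hμ (by linarith only [hR0, hA, hy])
  have hvn : ∀ x : Sp d, 0 ≤ vv μ 1 x := fun x => Real.sqrt_nonneg _
  set h : ℝ := hgt n s y with hh
  have hhin : ⟪y, n⟫_ℝ - s = h := by
    rw [hh, hgt, real_inner_comm]
  have hyi : |⟪n, y⟫_ℝ| ≤ d := by
    refine (abs_real_inner_le_norm _ _).trans ?_
    rw [hn, one_mul]
    exact hy
  have hhb : |h| ≤ 2 * R0 := by
    have h1 : |h| ≤ |⟪n, y⟫_ℝ| + |s| := by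
      rw [hh, hgt]
      exact abs_sub _ _
    linarith only [hR0, hA, hs, hyi, h1]
  have hh2 : h ^ 2 ≤ 4 * R0 ^ 2 := by
    rw [← sq_abs]
    calc |h| ^ 2 ≤ (2 * R0) ^ 2 := pow_le_pow_left₀ (abs_nonneg _) hhb 2
      _ = 4 * R0 ^ 2 := by ring
  set a : Sp d := yS n s y with ha
  have han : ‖a‖ ≤ 3 / 2 * R0 + d := (yS_norm hn s y).trans (by linarith only [hs, hy])
  have hay : a + h • n = y := eq_yS n s y
  have hXX : ∀ x, XX β ε μ n 1 x = X13 β ε μ n 1 x + tav (X2 μ n) 1 x := fun x => by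
    unfold XX X13
    ring
  have hMo2n : ∀ x, 0 ≤ tav (Mo μ n s 2) 1 x := fun x =>
    tav_nonneg (fun t y ht => Mo_nonneg μ n s even_two t y ht) x
  have hMo0n : ∀ x, 0 ≤ tav (Mo μ n s 0) 1 x := fun x =>
    tav_nonneg (fun t y ht => Mo_nonneg μ n s (by norm_num) t y ht) x
  have hXXpl : ∀ x, ⟪n, x⟫_ℝ = s → XX β ε μ n 1 x = X13 β ε μ n 1 x + tav (Mo μ n s 2) 1 x := by
    intro x hx
    rw [hXX, hM1 x, real_inner_comm, hx]
    ring
  -- the plane integral
  have hGc : Continuous (fun x => zR (2 * R0 - 1) x * XX β ε μ n 1 x) :=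
    (FGm.zR_cont _).mul hXs.continuous
  have hGs : HasCompactSupport (fun x => zR (2 * R0 - 1) x * XX β ε μ n 1 x) :=
    (FGm.zR_compact _).mul_right
  have hGn : ∀ x, 0 ≤ zR (2 * R0 - 1) x * XX β ε μ n 1 x := fun x =>
    mul_nonneg (FGm.zR_nonneg _ _) (hX0 x)
  have hdisc : discR n (2 * ε) (X13 β ε μ n 1) a ≤ r0 ^ 2 * v := by
    refine (disc_le_pl hn s y (2 * ε) hX13s.continuous hGc hGs hGn fun x hx hxn => ?_).trans hpl
    rw [FGm.zR_one (by linarith only [hε4, hR0, hA, hs, hy, hxn]), one_mul, hXXpl x hx]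
    have := hMo2n x
    linarith only [this]
  have hMo2 : tav (Mo μ n s 2) 1 y ≤ K2 * (r0 ^ 2 * v) := by
    set P : ℝ := CM * (2 + 2 * R0) ^ (2 * d + 4) with hP
    have hPp : 0 < P := by positivity
    have hcM : Continuous (fun _ : Sp d => tav (Mo μ n s 2) 1 y / P) := continuous_const
    have h1 := (disc_le_pl hn s y 1 hcM hGc hGs hGn (fun x hx hxn => by
      rw [FGm.zR_one (by linarith only [hR0, hA, hs, hy, hxn]), one_mul, hXXpl x hx]
      have h2 := hX13n x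
      have hxy : ‖x - y‖ ≤ 1 + 2 * R0 := by
        refine (norm_sub_le _ _).trans ?_
        linarith only [hR0, hA, hs, hy, hxn]
      have h3 := hMh x y
      have h4 : CM * (1 + ‖x - y‖) ^ (2 * d + 4) ≤ P := by
        rw [hP]
        have : 1 + ‖x - y‖ ≤ 2 + 2 * R0 := by linarith only [hxy]
        (clear * - this hCM; gcongr)
      have h5 := mul_le_mul_of_nonneg_right h4 (hMo2n x)
      have h6 : tav (Mo μ n s 2) 1 y / P ≤ tav (Mo μ n s 2) 1 x := by
        rw [div_le_iff₀ hPp]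
        linarith only [h3, h5]
      linarith only [h2, h6])).trans hpl
    unfold discR at h1
    rw [setIntegral_const, smul_eq_mul, Measure.real, FGm.vol_ball hd hn] at h1
    have h7 : tav (Mo μ n s 2) 1 y * FGm.vb d ≤ P * (r0 ^ 2 * v) := by
      have h8 := mul_le_mul_of_nonneg_left h1 hPp.le
      have h9 : P * (FGm.vb d * (tav (Mo μ n s 2) 1 y / P)) = tav (Mo μ n s 2) 1 y * FGm.vb d := by
        field_simp
      linarith only [h8, h9]
    calc tav (Mo μ n s 2) 1 y ≤ P * (r0 ^ 2 * v) / FGm.vb d := by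
          rw [le_div_iff₀ hvb]
          exact h7
      _ = K2 * (r0 ^ 2 * v) := by
          rw [hK2]
          ring
  have hr0v : 0 ≤ r0 * v := by (clear * - hR0p hCB hCM hvb hc2 hCW hv0; positivity)
  have hMo1 : |tav (Mo μ n s 1) 1 y| ≤ K1 * (r0 * v) := by
    refine abs_le_of_sq (by positivity) hr0v ?_
    have h1 := hMj1 0 le_rfl y
    rw [norm_iteratedFDeriv_zero, Real.norm_eq_abs, sq_abs] at h1
    have h2 : tav (Mo μ n s 0) 1 y ≤ CM * (H * v) :=
      (hMv y).trans (mul_le_mul_of_nonneg_left (hup y (by linarith only [hR0, hA, hy])) hCM.le)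
    calc tav (Mo μ n s 1) 1 y ^ 2 ≤ CM * tav (Mo μ n s 0) 1 y * tav (Mo μ n s 2) 1 y := h1
      _ ≤ CM * (CM * (H * v)) * (K2 * (r0 ^ 2 * v)) :=
          mul_le_mul (mul_le_mul_of_nonneg_left h2 hCM.le) hMo2 (hMo2n y) (by positivity)
      _ = CM * CM * H * K2 * (r0 * v) ^ 2 := by ring
  have hva : vv μ 1 a ≤ H * v := hup a (by linarith only [hR0, hA, han])
  have hdn : 0 ≤ discR n (2 * ε) (X13 β ε μ n 1) a := by
    unfold discR
    exact integral_nonneg fun y' => hX13n _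
  have hBb : CB * vv μ 1 a * discR n (2 * ε) (X13 β ε μ n 1) a ≤ CB * H * (r0 * v) ^ 2 := by
    calc CB * vv μ 1 a * discR n (2 * ε) (X13 β ε μ n 1) a ≤ CB * (H * v) * (r0 ^ 2 * v) :=
          mul_le_mul (mul_le_mul_of_nonneg_left hva hCB.le) hdisc hdn (by positivity)
      _ = CB * H * (r0 * v) ^ 2 := by ring
  have h30 := hB3 0 le_rfl (fun _ => 0) (fun i => i.elim0) (fun i => i.elim0) a
  have hXa : |X13 β ε μ n 1 a| ≤ KB * (r0 * v) := by
    refine abs_le_of_sq (by positivity) hr0v (le_trans ?_ hBb)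
    have := h30.1
    rwa [iteratedFDeriv_zero_apply] at this
  have hXa' : |fderiv ℝ (X13 β ε μ n 1) a n| ≤ KB * (r0 * v) := by
    refine abs_le_of_sq (by positivity) hr0v (le_trans ?_ hBb)
    have := h30.2
    rwa [iteratedFDeriv_zero_apply] at this
  have hLLe : LL β ε μ n s y = X13 β ε μ n 1 a + h * fderiv ℝ (X13 β ε μ n 1) a n := rfl
  have hLL : |LL β ε μ n s y| ≤ KL * (r0 * v) := by
    rw [hLLe]
    refine (abs_add_le _ _).trans ?_
    rw [abs_mul, hKL]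
    have h1 : |h| * |fderiv ℝ (X13 β ε μ n 1) a n| ≤ 2 * R0 * (KB * (r0 * v)) :=
      mul_le_mul hhb hXa' (abs_nonneg _) (by positivity)
    linarith only [hXa, h1]
  have hze : ze β ε μ n s y = LL β ε μ n s y + (tav (Mo μ n s 2) 1 y
      - 2 * (h * tav (Mo μ n s 1) 1 y)) := rfl
  by_cases hq : qq A μ 1 y ≤ p0
  · -- far case
    have hf := (hFK.far β hβ μ hμ n hn y hq).1
    have hzeb : ze β ε μ n s y ≤ Kz * (r0 * v) := by
      rw [hze, hKz]
      have h1 := le_abs_self (LL β ε μ n s y)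
      have h2 : -(2 * (h * tav (Mo μ n s 1) 1 y)) ≤ 4 * R0 * K1 * (r0 * v) := by
        have h3 : |h * tav (Mo μ n s 1) 1 y| ≤ 2 * R0 * (K1 * (r0 * v)) := by
          rw [abs_mul]
          exact mul_le_mul hhb hMo1 (abs_nonneg _) (by positivity)
        have h4 := neg_abs_le (h * tav (Mo μ n s 1) 1 y)
        linarith only [h3, h4]
      have h5 : K2 * (r0 ^ 2 * v) ≤ K2 * (r0 * v) := by (clear * - hr0sq hv0 hCM hR0p hvb; gcongr)
      linarith only [hMo2, hLL, h1, h2, h5]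
    have h6 : c * ze β ε μ n s y ≤ c * (1 / (2 * H)) * v := by
      calc c * ze β ε μ n s y ≤ c * (Kz * (r0 * v)) := by (clear * - hzeb hc; gcongr)
        _ = c * (Kz * r0) * v := by ring
        _ ≤ _ := by (clear * - hr02 hc hv0; gcongr)
    have h7 : κ * v * h ^ 2 ≤ c * (1 / (2 * H)) * v := by
      calc κ * v * h ^ 2 ≤ κ * v * (4 * R0 ^ 2) := by (clear * - hh2 hc hc2 hR0p hv0; gcongr)
        _ = κ * (4 * R0 ^ 2) * v := by ring
        _ ≤ _ := by (clear * - hκ3 hv0; gcongr)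
    have h8 : c * (1 / (2 * H)) * v + c * (1 / (2 * H)) * v ≤ c * vv μ 1 y := by
      have : c * (1 / (2 * H)) * v + c * (1 / (2 * H)) * v = c * (v / H) := by
        field_simp
        norm_num
      rw [this]
      have h9 : v / H ≤ vv μ 1 y := by
        rw [div_le_iff₀ hHp]
        linarith only [hlo]
      (clear * - h9 hc; gcongr)
    linarith only [hf, h6, h7, h8]
  · -- near case
    push Not at hq
    have hgain := hFK.gain β hβ μ hμ n hn y
    have hlow := hM0 μ hμ n s hn y hy hq.le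
    have hXXy : XX β ε μ n 1 y = X13 β ε μ n 1 y + (tav (Mo μ n s 2) 1 y
        - 2 * (h * tav (Mo μ n s 1) 1 y) + h ^ 2 * tav (Mo μ n s 0) 1 y) := by
      rw [hXX, hM1 y, hhin]
      ring
    have hkey : c2 / 2 * (v * h ^ 2) ≤
        X13 β ε μ n 1 y - LL β ε μ n s y + h ^ 2 * tav (Mo μ n s 0) 1 y := by
      have hM0' : h ^ 2 * (c2 * v) ≤ h ^ 2 * tav (Mo μ n s 0) 1 y := by gcongr
      by_cases hz : z0 ≤ |h|
      · have h1 := hX13n y
        have h2 := le_abs_self (LL β ε μ n s y)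
        have h3 : z0 ^ 2 ≤ h ^ 2 := by
          rw [← sq_abs h]
          (clear * - hc2 hCB hR0p hCW hvb hz; gcongr)
        have h4 : KL * (r0 * v) ≤ c2 / 2 * h ^ 2 * v := by
          calc KL * (r0 * v) = KL * r0 * v := by ring
            _ ≤ c2 / 2 * z0 ^ 2 * v := by (clear * - hr03 hv0; gcongr)
            _ ≤ _ := by (clear * - h3 hc2 hv0; gcongr)
        have h5 : h ^ 2 * (c2 * v) = c2 / 2 * (v * h ^ 2) + c2 / 2 * h ^ 2 * v := by ring
        linarith only [hLL, hM0', h1, h2, h4]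
      · push Not at hz
        -- Taylor
        have hTy := taylor_low (hX13s.of_le (by norm_num)) n a h (c2 * v) (fun r hr => by
          have hrz : |r| ≤ z0 := hr.trans hz.le
          have hxn : ‖a + r • n‖ ≤ 3 * R0 := by
            refine (norm_add_le _ _).trans ?_
            rw [norm_smul, hn, mul_one, Real.norm_eq_abs]
            linarith only [hR0, hA, hz01, han, hz, hr]
          have h1 := hB4 (a + r • n)
          have h2 : discR n (2 * ε) (X13 β ε μ n 1) (a + r • n) ≤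
              r0 ^ 2 * v + CW * (H * v) * |r| * FGm.vb d := by
            have h3 := disc_lip hd hn (hX13s.of_le (by norm_num)) (ρ := 2 * ε)
              (L := CW * (H * v)) (by linarith only [hε4]) (by positivity) a r (fun x hx => by
                have h4 := hX13b 1 (by norm_num) x
                rw [norm_iteratedFDeriv_one] at h4
                refine h4.trans (mul_le_mul_of_nonneg_left (hup x ?_) hCW.le)
                have h5 : ‖x‖ ≤ ‖x - a‖ + ‖a‖ := by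
                  have := norm_add_le (x - a) a
                  rwa [sub_add_cancel] at this
                linarith only [hε4, hR0, hA, hz01, han, hz, hr, hx, h5])
            linarith only [hdisc, h3]
          have h6 : vv μ 1 (a + r • n) * discR n (2 * ε) (X13 β ε μ n 1) (a + r • n) ≤
              g * v ^ 2 := by
            have h7 : 0 ≤ discR n (2 * ε) (X13 β ε μ n 1) (a + r • n) := by
              unfold discR
              exact integral_nonneg fun y' => hX13n _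
            calc vv μ 1 (a + r • n) * discR n (2 * ε) (X13 β ε μ n 1) (a + r • n)
                ≤ (H * v) * (r0 ^ 2 * v + CW * (H * v) * |r| * FGm.vb d) :=
                  mul_le_mul (hup _ hxn) h2 h7 (by positivity)
              _ ≤ (H * v) * (r0 * v + CW * (H * v) * z0 * FGm.vb d) := by (clear * - hr0sq hv0 hrz hCW hR0p hvb; gcongr)
              _ = (H * r0 + H * (CW * H * FGm.vb d * z0)) * v ^ 2 := by ring
              _ ≤ (g / 2 + g / 2) * v ^ 2 := by (clear * - hr04 hz02 hv0; gcongr)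
              _ = g * v ^ 2 := by ring
          have h8 : Real.sqrt (vv μ 1 (a + r • n) *
              discR n (2 * ε) (X13 β ε μ n 1) (a + r • n)) ≤ c2 / CB * v := by
            refine (Real.sqrt_le_sqrt h6).trans ?_
            rw [hg, ← mul_pow, Real.sqrt_sq (by positivity)]
          have h9 : CB * Real.sqrt (vv μ 1 (a + r • n) *
              discR n (2 * ε) (X13 β ε μ n 1) (a + r • n)) ≤ c2 * v := by
            calc _ ≤ CB * (c2 / CB * v) := by (clear * - h8 hCB; gcongr)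
              _ = c2 * v := by field_simp
          linarith only [h1, h9])
        rw [hay] at hTy
        rw [hLLe]
        have h5 : h ^ 2 * (c2 * v) = c2 / 2 * (v * h ^ 2) + c2 * v * h ^ 2 / 2 := by ring
        linarith only [hM0', hTy]
    have hfin : c * ze β ε μ n s y + c * (c2 / 2 * (v * h ^ 2)) ≤ Hn β ε p0 A μ n 1 y := by
      refine le_trans ?_ hgain
      rw [hXXy, hze]
      have := mul_le_mul_of_nonneg_left hkey hc.le
      linarith only [this]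
    have h10 : κ * v * h ^ 2 ≤ c * (c2 / 2 * (v * h ^ 2)) := by
      calc κ * v * h ^ 2 = κ * (v * h ^ 2) := by ring
        _ ≤ c * c2 / 2 * (v * h ^ 2) := by gcongr
        _ = _ := by ring
    linarith only [hfin, h10]

end TG


end

section

/-!
# MODULE TA1 (11.1): gain of a sheet cell, case A1 (helper88)
-/

open MeasureTheory Metric Set TrI
open scoped InnerProductSpace ContDiff

namespace TG

namespace TA1m

noncomputable section

variable {d : ℕ}

lemma ze_eq (β : Sp d → ℝ) (ε : ℝ) (μ : Measure (Sp d)) (n : Sp d) (s : ℝ) :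
    ze β ε μ n s = zz (X13 β ε μ n 1) (mM μ n s 1) (mM μ n s 2) n s := rfl

section Bounds

variable {J : ℕ} {K ε Rb : ℝ} {β : Sp d → ℝ} {μ : Measure (Sp d)} {n : Sp d} {s : ℝ}

/-- the constant of the bounds of ze -/
def K7 (d : ℕ) (K R0 : ℝ) : ℝ :=
  (2 + 12 * (2 * R0)) * (K ^ 2 * (1 + 2 * R0) ^ (2 * d + 4) * Real.sqrt (K6 d K))

lemma K7_pos (d : ℕ) {K R0 : ℝ} (hK : 1 ≤ K) (hR0 : 0 ≤ R0) : 0 < K7 d K R0 := by
  have := Real.sqrt_pos.2 (K6_pos d hK)
  unfold K7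
  positivity

lemma Fac.ze_bd {R0 : ℝ} (h : Fac J K ε (2 * R0) β μ n s) (hd : 2 ≤ d) (hε1 : ε ≤ 1 / 4)
    (hR0 : 4 * (d : ℝ) + 24 ≤ R0) (hs : |s| ≤ 3 / 2 * R0) {y : Sp d} (hy : ‖y‖ ≤ d) {j : ℕ}
    (hj : j ≤ 2) : ‖iteratedFDeriv ℝ j (ze β ε μ n s) y‖ ≤
      K7 d K R0 * Real.sqrt (vv μ 1 0 * PP β ε μ n s (2 * R0 - 1)) := by
  have hK1 := h.K1
  have hK : 0 < K := by linarith
  have hd0 : (0 : ℝ) ≤ d := Nat.cast_nonneg d
  have hn := h.n1
  have hz1 : ‖yS n s y‖ ≤ 3 / 2 * R0 + d := (yS_norm hn s y).trans (add_le_add hs hy)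
  have hz : ⟪n, yS n s y⟫_ℝ = s := yS_inner hn s y
  have hv0 := h.v0
  have hvb := FGm.vb_pos d
  have hQ := h.PPn (2 * R0 - 1)
  obtain ⟨a1, a2, a3, a4⟩ := h.plane hd hε1 (R := 2 * R0 - 1) hz (by linarith) (by linarith)
  have hM2 := h.M2le hd (R := 2 * R0 - 1) hz (by linarith)
  set Q := PP β ε μ n s (2 * R0 - 1) with hQd
  set v := vv μ 1 0 with hvd
  set T0 := Real.sqrt (K6 d K) * Real.sqrt (v * Q) with hT0
  have hT0n : 0 ≤ T0 := by positivity
  have hvQ : 0 ≤ v * Q := mul_nonneg hv0 hQ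
  have hW1 : (1 : ℝ) ≤ 1 + 2 * R0 := by linarith
  have hWp : (1 : ℝ) ≤ (1 + 2 * R0) ^ (2 * d + 4) := one_le_pow₀ hW1
  set W := (1 + 2 * R0) ^ (2 * d + 4) with hW
  have hW0 : 0 < W := by linarith
  set T := K ^ 2 * W * T0 with hT
  have hK2 : 1 ≤ K ^ 2 := one_le_pow₀ hK1
  have hT0T : T0 ≤ T := by
    have : 1 ≤ K ^ 2 * W := one_le_mul_of_one_le_of_one_le hK2 hWp
    nlinarith only [hT0n, this]
  have hdist : ‖yS n s y - y‖ ≤ 2 * R0 := by
    rw [norm_sub_rev, sub_yS, norm_smul, hn, mul_one, Real.norm_eq_abs]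
    exact (hgt_abs hn s y).trans (by linarith)
  have hM2n := h.M2n (yS n s y)
  have hM2y : mM μ n s 2 y ≤ K * W * mM μ n s 2 (yS n s y) := by
    refine (h.M2h (yS n s y) y).trans ?_
    refine mul_le_mul_of_nonneg_right (mul_le_mul_of_nonneg_left ?_ hK.le) hM2n
    exact pow_le_pow_left₀ (by positivity) (by linarith) _
  have hM2T : mM μ n s 2 (yS n s y) ≤ T0 := by
    have := a3 0 (Nat.zero_le _)
    rw [norm_iteratedFDeriv_zero, Real.norm_of_nonneg hM2n] at this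
    exact this
  have hvy := h.vle y (by linarith)
  have hvn := h.vn y
  have hXJ : ContDiff ℝ 3 (X13 β ε μ n 1) := h.Xs.of_le (by exact_mod_cast (by omega : 3 ≤ J + 6))
  have key := D2_core (X := X13 β ε μ n 1) (M1 := mM μ n s 1) (M2 := mM μ n s 2) (n := n)
    (s := s) (y := y) (T := T) (B := 2 * R0) hXJ
    (contDiff_infty.1 (h.Ms 1) 2) (contDiff_infty.1 (h.Ms 2) 2)
    (fun i hi => (comp_yS h.Xs hn a1 (by omega)).trans hT0T)
    (fun i hi => by
      refine (comp_yS (J := 2) (T := T0) (dN_smooth n (h.Xs.of_le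
        (by exact_mod_cast (by omega : 2 + 1 ≤ J + 6)))) hn
        (fun k hk w hw0 hw1 => a2 k (by omega) w hw0 hw1) hi).trans hT0T)
    (fun i hi => by
      refine (h.M2d i (by omega) y).trans ?_
      calc K * mM μ n s 2 y ≤ K * (K * W * T0) :=
            mul_le_mul_of_nonneg_left (hM2y.trans (mul_le_mul_of_nonneg_left hM2T
              (by positivity))) hK.le
        _ = T := by rw [hT]; ring)
    (fun i hi => by
      have e1 := h.M1d i (by omega) y
      have e2 : K * vv μ 1 y * mM μ n s 2 y ≤ W * (K6 d K * (v * Q)) := by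
        calc K * vv μ 1 y * mM μ n s 2 y
            ≤ K * (K * v) * (K * W * (K * 2 ^ (2 * d + 4) / FGm.vb d * Q)) := by
              refine mul_le_mul (mul_le_mul_of_nonneg_left hvy hK.le) (hM2y.trans
                (mul_le_mul_of_nonneg_left hM2 (by positivity))) (h.M2n y) (by positivity)
          _ = W * ((K ^ 4 * (2 ^ (2 * d + 4) / FGm.vb d)) * (v * Q)) := by ring
          _ ≤ W * (K6 d K * (v * Q)) := by
              refine mul_le_mul_of_nonneg_left (mul_le_mul_of_nonneg_right ?_ hvQ) hW0.le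
              refine le_trans ?_ (K6_ge' d hK1)
              refine mul_le_mul_of_nonneg_right (pow_le_pow_right₀ hK1 (by norm_num))
                (by positivity)
      have e3 : W * (K6 d K * (v * Q)) ≤ (W * T0) ^ 2 := by
        rw [hT0, mul_pow, mul_pow, Real.sq_sqrt (K6_pos d hK1).le, Real.sq_sqrt hvQ]
        refine mul_le_mul_of_nonneg_right ?_ (mul_nonneg (K6_pos d hK1).le hvQ)
        nlinarith only [hWp]
      have e4 : ‖iteratedFDeriv ℝ i (mM μ n s 1) y‖ ≤ W * T0 :=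
        (pow_le_pow_iff_left₀ (norm_nonneg _) (by (clear * - hW1; positivity)) two_ne_zero).1
          (e1.trans (e2.trans e3))
      refine e4.trans ?_
      rw [hT, mul_assoc]
      have : 0 ≤ W * T0 := by (clear * - hW1; positivity)
      nlinarith only [hK2, this])
    (fun i hi => by
      refine (TU.ht_bd hn s y i).trans (max_le (by linarith) ?_)
      exact (hgt_abs hn s y).trans (by linarith)) hj
  rw [ze_eq]
  refine key.trans (le_of_eq ?_)
  unfold K7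
  rw [hT, hT0]
  ring

end Bounds

lemma chi_far (hd : 2 ≤ d) {f : Sp d → ℝ} {y : Sp d} (hy : (d : ℝ) ≤ ‖y‖) :
    (fun x => chi x * f x) =ᶠ[nhds y] fun _ => 0 := by
  filter_upwards [TDc.chi_ev hd hy] with z hz
  rw [hz, zero_mul]

lemma chi_far' (hd : 2 ≤ d) {f : Sp d → ℝ} (n : Sp d) {y : Sp d} (hy : (d : ℝ) ≤ ‖y‖) :
    (fun x => fderiv ℝ (fun z => chi z * f z) x n) =ᶠ[nhds y] fun _ => 0 := by
  filter_upwards [(chi_far hd (f := f) hy).eventually_nhds] with z hz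
  have hz' : (fun x => chi x * f x) =ᶠ[nhds z] fun _ => 0 := hz
  rw [hz'.fderiv_eq]
  simp

lemma zR_one' {R : ℝ} {x : Sp d} (h : ‖x‖ ≤ R) : zR R x = 1 := FGm.zR_one h

end

end TA1m

open _root_.TG.TA1m in
/-- TA1 from the pointwise inequality -/
theorem stmtTA1_of (hPt : StmtPtA) (hWA : StmtWA) (hUB : StmtUB) (hWB : StmtWB)
    (hMO : StmtMO) (hPF : StmtPF) : StmtTA1 := by
  intro d J hd M C' ε p0 A c R0 hC' hε hε1 hFK hR0
  have hε2 : ε ≤ 1 := by linarith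
  have hA := hFK.A_ge
  have hc := hFK.c_pos
  have hd0 : (0 : ℝ) ≤ d := Nat.cast_nonneg d
  have hR : 4 * (d : ℝ) + 24 ≤ R0 := by linarith
  have hR00 : 0 ≤ R0 := by linarith
  obtain ⟨κ, i1, hκ, hκc, hi1, hpt⟩ := hPt d J hd M C' ε p0 A c R0 hC' hε hε1 hFK hR0
  obtain ⟨K, hK1, hFac⟩ := exists_Fac hWA hWB hMO hd J M C' ε (2 * R0) hC' hε hε2
  obtain ⟨C2, hC2, h2⟩ := hUB d 2 hd M C' ε p0 A hC' hε hε2 hFK.p0_pos hFK.p0_le hA
  obtain ⟨Nc, hNc, hchi⟩ := TA2Aux.chi_TFnJ (d := d) (by omega) (J + 2)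
  obtain ⟨Cp, hCp, hup⟩ := plInt_up (d := d) hPF (by omega) (R := (d : ℝ) + 2)
  have hK : 0 < K := by linarith
  have hK7 := K7_pos d hK1 hR00
  refine ⟨κ, hκ, fun δ hδ => ?_⟩
  set i2 : ℝ := (δ / (c * (4 * (Nc * K7 d K R0)))) ^ 2 with hi2
  have hi2p : 0 < i2 := by positivity
  set i0 : ℝ := min i1 (min 1 i2) with hi0
  have hi0p : 0 < i0 := lt_min hi1 (lt_min one_pos hi2p)
  set K8 : ℝ := 2 ^ J * (Nc * (6 * Real.sqrt (K6 d K))) with hK8
  have hK8n : 0 ≤ K8 := by positivity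
  set K9 : ℝ := 2 ^ 2 * (Nc * (C2 * K + c * K7 d K R0 + κ * (2 ^ 2 * (2 * R0) ^ 2))) with hK9
  have hK9n : 0 ≤ K9 := by positivity
  set K10 : ℝ := K8 * Real.sqrt (Cp * K ^ 2) with hK10
  have hK10n : 0 ≤ K10 := by positivity
  refine ⟨i0, c * K8 + c * K10 + δ + K9 + 1, hi0p, by (clear * - hc hNc hCp hK1 hδ hC2 hK7 hκ; positivity), ?_⟩
  intro β hβ μ hμ m n s ab ep D hm hD hZ hS hsmall
  have hn := hS.n1
  have hs := hS.loc
  have F := hFac β hβ μ hμ n s hn
  set v : ℝ := vv μ 1 0 with hv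
  have hv0 : 0 ≤ v := F.v0
  have hQ : PP β ε μ n s (2 * R0 - 1) ≤ i0 * v := hsmall
  have hPt' := hpt β hβ μ hμ n s hn hs (hsmall.trans (mul_le_mul_of_nonneg_right
    (min_le_left _ _) hv0))
  obtain ⟨_, _, _, _, _, _, _, _, _, h2n, _, _⟩ := h2 β (PTm.kit_mono (by omega) hβ) μ hμ
  obtain ⟨hHs, hHb⟩ := h2n n hn
  have hdR : (d : ℝ) ≤ R0 := by linarith
  have hsv : Real.sqrt (v * PP β ε μ n s (2 * R0 - 1)) ≤ Real.sqrt i0 * v := by
    calc Real.sqrt (v * PP β ε μ n s (2 * R0 - 1)) ≤ Real.sqrt (i0 * v ^ 2) := by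
          refine Real.sqrt_le_sqrt ?_
          nlinarith only [hv0, hQ]
      _ = Real.sqrt i0 * v := by rw [Real.sqrt_mul hi0p.le, Real.sqrt_sq hv0]
  have hze : ∀ j ≤ 2, ∀ y : Sp d, ‖y‖ ≤ d → ‖iteratedFDeriv ℝ j (ze β ε μ n s) y‖ ≤
      K7 d K R0 * (Real.sqrt i0 * v) := fun j hj y hy =>
    (F.ze_bd hd hε1 hR hs hy hj).trans (mul_le_mul_of_nonneg_left hsv hK7.le)
  have hzes : ContDiff ℝ (J + 2 : ℕ) (ze β ε μ n s) := by
    rw [ze_eq]
    exact zz_smooth n s (F.Xs.of_le (by exact_mod_cast (by omega : J + 2 + 1 ≤ J + 6)))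
      (contDiff_infty.1 (F.Ms 1) (J + 2)) (contDiff_infty.1 (F.Ms 2) (J + 2))
  have hzes2 : ContDiff ℝ 2 (ze β ε μ n s) :=
    hzes.of_le (by exact_mod_cast (by omega : 2 ≤ J + 2))
  have hchis : ∀ y : Sp d, (d : ℝ) < ‖y - 0‖ → chi y = 0 := fun y hy => by
    rw [sub_zero] at hy
    exact PTm.chi_supp hy.le (by omega)
  have hchi2 : TFn 2 Nc (chi : Sp d → ℝ) := TU.TFn_mono hchi (by omega) le_rfl
  have hi01 : Real.sqrt i0 ≤ 1 := by
    refine Real.sqrt_le_iff.2 ⟨zero_le_one, ?_⟩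
    rw [one_pow]
    exact (min_le_right _ _).trans (min_le_left _ _)
  have hi02 : Real.sqrt i0 ≤ δ / (c * (4 * (Nc * K7 d K R0))) := by
    refine Real.sqrt_le_iff.2 ⟨by positivity, ?_⟩
    exact (min_le_right _ _).trans (min_le_right _ _)
  -- second derivatives of the test function
  have hN2 : TFn 2 (δ / c * v) (fun y => chi y * ze β ε μ n s y) := by
    refine TU.TFn_mono (TU.TFn_mul_ball (x₀ := 0) (ρ := d)
      (M := K7 d K R0 * (Real.sqrt i0 * v)) hchi2 hchis hzes2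
      (fun j hj y hy => hze j hj y (by rwa [sub_zero] at hy)) (by positivity)) le_rfl ?_
    calc 2 ^ 2 * (Nc * (K7 d K R0 * (Real.sqrt i0 * v)))
        = (4 * (Nc * K7 d K R0)) * Real.sqrt i0 * v := by ring
      _ ≤ (4 * (Nc * K7 d K R0)) * (δ / (c * (4 * (Nc * K7 d K R0)))) * v := by gcongr
      _ = δ / c * v := by field_simp
  -- the bound on the plane
  set P := PP β ε μ n s ((d : ℝ) + 2) with hP
  have hPn : 0 ≤ P := F.PPn _
  have hTB : TB J n s (K8 * Real.sqrt (v * P)) (fun y => chi y * ze β ε μ n s y) := by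
    refine TB_of_TDb fun y hy => ?_
    by_cases hyd : (d : ℝ) ≤ ‖y‖
    · exact ⟨TDb.of_ev (chi_far hd hyd) (by (clear * - hNc; positivity)),
        TDb.of_ev (chi_far' hd n hyd) (by (clear * - hNc; positivity))⟩
    · push Not at hyd
      obtain ⟨a1, a2, a3, a4⟩ := F.plane hd hε1 (R := (d : ℝ) + 2) hy (by linarith) (by linarith)
      have hM2s : ContDiff ℝ (J + 1 : ℕ) (mM μ n s 2) := contDiff_infty.1 (F.Ms 2) (J + 1)
      have hM1s : ContDiff ℝ (J + 1 : ℕ) (mM μ n s 1) := contDiff_infty.1 (F.Ms 1) (J + 1)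
      have hchis1 : ContDiff ℝ (J + 1 : ℕ) (chi : Sp d → ℝ) :=
        hchi.smooth.of_le (by exact_mod_cast (by omega : J + 1 ≤ J + 2))
      obtain ⟨r1, r2⟩ := TB_core (J := J) (X := X13 β ε μ n 1) (M1 := mM μ n s 1)
        (M2 := mM μ n s 2) (φ := chi) hn (s := s)
        (F.Xs.of_le (by exact_mod_cast (by omega : J + 2 ≤ J + 6))) hM1s hM2s hchis1 hy
        (N := Real.sqrt (K6 d K) * Real.sqrt (v * P)) (B := Nc)
        (fun k hk w hw0 hw1 => a1 k (by omega) w hw0 hw1)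
        (fun k hk w hw0 hw1 => a2 k (by omega) w hw0 hw1)
        (TDb.of_full fun j hj => a3 j (by omega))
        (TDb.of_full fun j hj => dN_full hn hM2s (fun i hi => a3 i (by omega)) hj)
        (TDb.of_full fun j hj => a4 j (by omega))
        (TDb.of_full fun j hj => hchi.bd j (by omega) y)
        (TDb.of_full fun j hj => dN_full hn hchis1 (fun i hi => hchi.bd i (by omega) y) hj)
      have e : 2 ^ J * (Nc * (6 * (Real.sqrt (K6 d K) * Real.sqrt (v * P)))) =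
          K8 * Real.sqrt (v * P) := by
        rw [hK8]
        ring
      rw [e] at r1 r2
      exact ⟨r1, r2⟩
  -- bound of P
  have hPv : P ≤ Cp * (K * (K * v)) := by
    refine hup n s hn (XX β ε μ n 1) _ (by positivity) F.XXs.continuous (fun x hx => ?_)
    rw [abs_of_nonneg (F.XX0 x)]
    refine (F.XXb x).trans (mul_le_mul_of_nonneg_left (F.vle x ?_) hK.le)
    linarith only [hR0, hA, hx]
  have hNv : K8 * Real.sqrt (v * P) ≤ K10 * v := by
    have e1 : Real.sqrt (v * P) ≤ Real.sqrt (Cp * K ^ 2) * v := by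
      calc Real.sqrt (v * P) ≤ Real.sqrt (Cp * K ^ 2 * v ^ 2) := by
            refine Real.sqrt_le_sqrt ?_
            calc v * P ≤ v * (Cp * (K * (K * v))) := mul_le_mul_of_nonneg_left hPv hv0
              _ = _ := by ring
        _ = Real.sqrt (Cp * K ^ 2) * v := by
            rw [Real.sqrt_mul (by positivity), Real.sqrt_sq hv0]
    calc K8 * Real.sqrt (v * P) ≤ K8 * (Real.sqrt (Cp * K ^ 2) * v) :=
          mul_le_mul_of_nonneg_left e1 hK8n
      _ = K10 * v := by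
          rw [hK10]
          ring
  -- the sheet estimate
  have hest := hS.est (fun y => chi y * ze β ε μ n s y) d (K8 * Real.sqrt (v * P)) (δ / c * v)
    (hchi.smooth.mul hzes) hd0 hdR
    (fun y hy => by rw [PTm.chi_supp hy (by omega), zero_mul]) hTB (fun y => hN2.bd 2 le_rfl y)
  have hpl : plInt n s (fun y => chi y * ze β ε μ n s y) =
      plInt n s (fun y => chi y * XX β ε μ n 1 y) := by
    unfold plInt
    congr 1
    funext w
    have hw : ⟪n, s • n + (w : Sp d)⟫_ℝ = s := by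
      rw [inner_add_right, mem_T, inner_smul_right, real_inner_self_eq_norm_sq, hn]
      ring
    have e1 : ze β ε μ n s (s • n + (w : Sp d)) = XX β ε μ n 1 (s • n + (w : Sp d)) := by
      rw [ze_eq, zz_plane hw, F.XXp _ hw]
    show chi (s • n + (w : Sp d)) * ze β ε μ n s (s • n + (w : Sp d)) =
      chi (s • n + (w : Sp d)) * XX β ε μ n 1 (s • n + (w : Sp d))
    rw [e1]
  rw [hpl] at hest
  -- the positive function
  have hhs : ContDiff ℝ 2 (fun y => hgt n s y ^ 2) := (hgt_smooth n s).pow 2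
  have hg : ContDiff ℝ 2 (fun y => Hn β ε p0 A μ n 1 y + ((-c) • ze β ε μ n s y +
      (-(κ * v)) • hgt n s y ^ 2)) :=
    (contDiff_infty.1 hHs 2).add ((hzes2.const_smul (-c)).add (hhs.const_smul (-(κ * v))))
  have hF : TFn 2 (K9 * v) (fun y => chi y * (Hn β ε p0 A μ n 1 y +
      ((-c) • ze β ε μ n s y + (-(κ * v)) • hgt n s y ^ 2))) := by
    refine TU.TFn_mono (TU.TFn_mul_ball (x₀ := 0) (ρ := d)
      (M := C2 * (K * v) + (c * (K7 d K R0 * v) + κ * v * (2 ^ 2 * (2 * R0) ^ 2)))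
      hchi2 hchis hg ?_ (by (clear * - hC2 hK1 hv0 hc hK7 hκ; positivity))) le_rfl (le_of_eq ?_)
    · intro j hj y hy
      rw [sub_zero] at hy
      have hjj : (j : WithTop ℕ∞) ≤ (2 : ℕ) := by exact_mod_cast hj
      have e1 : ContDiffAt ℝ j (Hn β ε p0 A μ n 1) y := (contDiff_infty.1 hHs j).contDiffAt
      have e2 : ContDiffAt ℝ j (ze β ε μ n s) y := (hzes2.of_le hjj).contDiffAt
      have e3 : ContDiffAt ℝ j (fun y => hgt n s y ^ 2) y := (hhs.of_le hjj).contDiffAt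
      have e4 : ContDiffAt ℝ j (fun y => (-c) • ze β ε μ n s y) y := e2.const_smul (-c)
      have e5 : ContDiffAt ℝ j (fun y => (-(κ * v)) • hgt n s y ^ 2) y := e3.const_smul (-(κ * v))
      rw [fun_iteratedFDeriv_add_apply e1 (e4.add e5), fun_iteratedFDeriv_add_apply e4 e5,
        iteratedFDeriv_const_smul_apply' e2, iteratedFDeriv_const_smul_apply' e3]
      refine (norm_add_le _ _).trans (add_le_add ?_ ((norm_add_le _ _).trans (add_le_add ?_ ?_)))
      · exact (hHb j hj y).trans (mul_le_mul_of_nonneg_left (F.vle y (by linarith only [hR0, hA, hy])) hC2.le)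
      · rw [norm_smul, Real.norm_eq_abs, abs_neg, abs_of_pos hc]
        refine mul_le_mul_of_nonneg_left ((hze j hj y hy).trans ?_) hc.le
        refine mul_le_mul_of_nonneg_left ?_ hK7.le
        nlinarith only [hv0, hi01]
      · rw [norm_smul, Real.norm_eq_abs, abs_neg, abs_of_nonneg (mul_nonneg hκ.le hv0)]
        refine mul_le_mul_of_nonneg_left ?_ (mul_nonneg hκ.le hv0)
        refine (TU.ht_sq_bd hn s y j).trans ?_
        have q1 : (2 : ℝ) ^ j ≤ 2 ^ 2 := pow_le_pow_right₀ (by norm_num) hj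
        have q2 : max 1 |ht n s y| ≤ 2 * R0 := max_le (by linarith only [hR0, hA])
          ((hgt_abs hn s y).trans (by linarith))
        have q3 : 0 ≤ max 1 |ht n s y| := le_max_of_le_left zero_le_one
        exact mul_le_mul q1 (pow_le_pow_left₀ q3 q2 2) (by positivity) (by positivity)
    · rw [hK9]
      ring
  have hZF := GSAux.ZP' hZ hF (fun y => by
      by_cases hyd : ‖y‖ ≤ d
      · refine mul_nonneg (PTm.chi_nonneg y) ?_
        have := hPt' y hyd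
        simp only [smul_eq_mul]
        linarith
      · push Not at hyd
        rw [PTm.chi_supp hyd.le (by omega), zero_mul])
    (fun y hy => by rw [PTm.chi_supp (hdR.trans hy) (by omega), zero_mul])
  -- integrability
  have hcs : HasCompactSupport (chi : Sp d → ℝ) := TDc.chi_cs (by omega)
  have hchic : Continuous (chi : Sp d → ℝ) := hchi.smooth.continuous
  have hHc : Continuous (Hn β ε p0 A μ n 1) := hHs.continuous
  have hzc : Continuous (ze β ε μ n s) := hzes.continuous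
  have hhc : Continuous (fun y => hgt n s y ^ 2) := hhs.continuous
  have i1' : Integrable (fun y => m y * (chi y * Hn β ε p0 A μ n 1 y)) :=
    (hm.mul (hchic.mul hHc)).integrable_of_hasCompactSupport (hcs.mul_right).mul_left
  have i2' : Integrable (fun y => m y * (chi y * ze β ε μ n s y)) :=
    (hm.mul (hchic.mul hzc)).integrable_of_hasCompactSupport (hcs.mul_right).mul_left
  have i3' : Integrable (fun y => m y * (chi y * hgt n s y ^ 2)) :=
    (hm.mul (hchic.mul hhc)).integrable_of_hasCompactSupport (hcs.mul_right).mul_left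
  have hsum : ∫ y, m y * (chi y * (Hn β ε p0 A μ n 1 y +
      ((-c) • ze β ε μ n s y + (-(κ * v)) • hgt n s y ^ 2))) =
      ((∫ y, m y * (chi y * Hn β ε p0 A μ n 1 y)) -
        c * ∫ y, m y * (chi y * ze β ε μ n s y)) -
        κ * v * ∫ y, m y * (chi y * hgt n s y ^ 2) := by
    have i12 : Integrable (fun y => m y * (chi y * Hn β ε p0 A μ n 1 y) -
        c * (m y * (chi y * ze β ε μ n s y))) := i1'.sub (i2'.const_mul c)
    rw [← integral_const_mul, ← integral_const_mul, ← integral_sub i1' (i2'.const_mul c),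
      ← integral_sub i12 (i3'.const_mul (κ * v))]
    congr 1
    ext y
    simp only [smul_eq_mul]
    ring
  rw [hsum] at hZF
  -- conclusion
  have hP0 : 0 ≤ plInt n s (fun y => chi y * XX β ε μ n 1 y) :=
    plInt_nonneg fun x => mul_nonneg (PTm.chi_nonneg x) (F.XX0 x)
  have h5 := mul_le_mul_of_nonneg_left (abs_le.1 hest).1 hc.le
  have hab : κ * (ab * plInt n s (fun y => chi y * XX β ε μ n 1 y)) ≤
      c * (ab * plInt n s (fun y => chi y * XX β ε μ n 1 y)) :=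
    mul_le_mul_of_nonneg_right hκc (mul_nonneg hS.ab0.le hP0)
  have hep := hS.ep0
  set S := Real.sqrt (v * P) with hSd
  have hS0 : 0 ≤ S := Real.sqrt_nonneg _
  have hcc : c * (δ / c * v * blc n s m (d + 1)) = δ * v * blc n s m (d + 1) := by
    field_simp
  have hcD : c * ((K8 * S + δ / c * v) * D) ≤ (c * K10 + δ) * v * D := by
    have e1 : c * ((K8 * S + δ / c * v) * D) = (c * (K8 * S) + δ * v) * D := by
      field_simp
    rw [e1]
    refine mul_le_mul_of_nonneg_right ?_ hD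
    have := mul_le_mul_of_nonneg_left hNv hc.le
    linarith only [this]
  have q1 : 0 ≤ v * D := mul_nonneg hv0 hD
  have q2 : 0 ≤ ep * S := mul_nonneg hep hS0
  have goalP : Real.sqrt (v * plInt n s (fun x => zR (d + 2) x * XX β ε μ n 1 x)) = S := rfl
  rw [goalP]
  have q3 : 0 ≤ (c * K10 + δ + K9 + 1) * (ep * S) := by (clear * - hc hNc hCp hK1 hδ hC2 hK7 hκ hep; positivity)
  have q4 : 0 ≤ (c * K8 + 1) * (v * D) := by (clear * - hc hNc hv0 hD; positivity)
  linarith only [hZF, hab, h5, hcc, hcD, q3, q4]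

/-- MODULE TA1 -/
theorem stmtTA1 (hTH : StmtTH) (hWA : StmtWA) (hUB : StmtUB) (hWB : StmtWB) (hMO : StmtMO)
    (hPF : StmtPF) : StmtTA1 :=
  stmtTA1_of (TA1m.stmtPtA hTH hWA hWB hMO) hWA hUB hWB hMO hPF

end TG


end

section

/-!
# The normal derivative of W (module WB, part (b))
-/

open MeasureTheory Metric Set TrI Filter Topology
open scoped InnerProductSpace ContDiff

namespace TG

noncomputable section

namespace WBT

variable {d : ℕ}

/-! ### Bounds for disc averages -/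

/-- the volume of the unit ball of dimension d - 1 -/
def vb (d : ℕ) : ℝ := Real.sqrt Real.pi ^ (d - 1) / Real.Gamma (((d - 1 : ℕ) : ℝ) / 2 + 1)

lemma vb_nonneg : 0 ≤ vb d := by
  unfold vb
  have : 0 < Real.Gamma (((d - 1 : ℕ) : ℝ) / 2 + 1) := Real.Gamma_pos_of_pos (by positivity)
  positivity

lemma finrank_Pn {n : Sp d} (hn : ‖n‖ = 1) : Module.finrank ℝ (Pn n) = d - 1 := by
  have h1 := Submodule.finrank_add_finrank_orthogonal (Submodule.span ℝ {n})
  have h2 : n ≠ 0 := by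
    intro h
    rw [h, norm_zero] at hn
    exact zero_ne_one hn
  rw [finrank_span_singleton h2, finrank_euclideanSpace_fin] at h1
  show Module.finrank ℝ ((Submodule.span ℝ {n})ᗮ : Submodule ℝ (Sp d)) = d - 1
  omega

lemma vol_Pn (hd : 2 ≤ d) {n : Sp d} (hn : ‖n‖ = 1) :
    volume.real (closedBall (0 : Pn n) 1) = vb d := by
  have h1 := finrank_Pn hn
  have : Nontrivial (Pn n) := Module.nontrivial_of_finrank_pos (R := ℝ) (by rw [h1]; omega)
  have h2 := InnerProductSpace.volume_closedBall (0 : Pn n) 1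
  rw [h1, ENNReal.ofReal_one, one_pow, one_mul] at h2
  rw [measureReal_def, h2, ENNReal.toReal_ofReal]
  · rfl
  · exact vb_nonneg

lemma disc_le (hd : 2 ≤ d) {J : ℕ} {M : ℝ} {β : Sp d → ℝ} (h : Kit J M β) {n : Sp d}
    (hn : ‖n‖ = 1) (z : Sp d) : disc n β z ≤ max M 1 * vb d ^ 2 := by
  have hvb := vb_nonneg (d := d)
  have h0 : ∀ z, β z ≤ β 0 := fun z => h.prof.mono 0 z (by rw [norm_zero]; exact norm_nonneg z)
  have hb0 := h.prof.nonneg 0
  have h1 : ∀ z, disc n β z ≤ β 0 * vb d := by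
    intro z
    unfold disc
    have hi : IntegrableOn (fun u : Pn n => β (z - (u : Sp d))) (closedBall (0 : Pn n) 1) := by
      have : Continuous fun u : Pn n => β (z - (u : Sp d)) :=
        h.prof.smooth.continuous.comp (by fun_prop)
      exact this.continuousOn.integrableOn_compact (isCompact_closedBall _ _)
    have hc : IntegrableOn (fun _ : Pn n => β 0) (closedBall (0 : Pn n) 1) :=
      continuous_const.continuousOn.integrableOn_compact (isCompact_closedBall _ _)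
    refine (setIntegral_mono_on hi hc measurableSet_closedBall fun u _ => h0 _).trans ?_
    rw [setIntegral_const, vol_Pn hd hn, smul_eq_mul, mul_comm]
  have h2 : β 0 ≤ max M 1 * vb d := by
    rcases hb0.eq_or_lt with h3 | h3
    · rw [← h3]
      positivity
    · have h4 := h.prof.der 0 (Nat.zero_le _) n hn 0
      rw [norm_iteratedFDeriv_zero, Real.norm_eq_abs, sq_abs] at h4
      have h5 : β 0 ^ 2 ≤ max M 1 * (β 0 * vb d) := by
        refine h4.trans ?_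
        exact mul_le_mul (le_max_left _ _) (h1 0) (disc_nonneg n h.prof.nonneg 0) (by positivity)
      nlinarith
  calc disc n β z ≤ β 0 * vb d := h1 z
    _ ≤ (max M 1 * vb d) * vb d := mul_le_mul_of_nonneg_right h2 hvb
    _ = _ := by ring

/-! ### Odd and even kernels -/

lemma Rf_n {n : Sp d} (hn : ‖n‖ = 1) : Rf n n = -n := by
  rw [Rf_apply hn, real_inner_self_eq_norm_sq, hn]
  module

lemma Rf_orth {n h : Sp d} (hn : ‖n‖ = 1) (hh : ⟪n, h⟫_ℝ = 0) : Rf n h = h := by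
  rw [Rf_apply hn, hh]
  simp

lemma fderiv_Rf {K : Sp d → ℝ} {m : ℕ} (hK : KC (m + 1) K) (n z v : Sp d) :
    fderiv ℝ (fun z => K (Rf n z)) z v = fderiv ℝ K (Rf n z) (Rf n v) := by
  have h1 : HasFDerivAt (fun z => K (Rf n z)) ((fderiv ℝ K (Rf n z)).comp
      ((Rf n).toContinuousLinearEquiv : Sp d →L[ℝ] Sp d)) z :=
    (hK.diff (Rf n z)).hasFDerivAt.comp z (Rf n).toContinuousLinearEquiv.hasFDerivAt
  rw [h1.fderiv]
  rfl

/-- oddness -/
def Odd' (n : Sp d) (K : Sp d → ℝ) : Prop := ∀ z, K (Rf n z) = -K z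

/-- evenness -/
def Even' (n : Sp d) (K : Sp d → ℝ) : Prop := ∀ z, K (Rf n z) = K z

lemma Odd'.dir {n h : Sp d} (hn : ‖n‖ = 1) (hh : ⟪n, h⟫_ℝ = 0) {K : Sp d → ℝ} {m : ℕ}
    (hK : KC (m + 1) K) (ho : Odd' n K) : Odd' n (fun z => fderiv ℝ K z h) := by
  intro z
  have h1 := fderiv_Rf hK n z h
  have h2 : (fun z => K (Rf n z)) = fun z => -K z := funext ho
  rw [h2, fderiv_fun_neg, Rf_orth hn hh] at h1
  show fderiv ℝ K (Rf n z) h = -fderiv ℝ K z h
  rw [← h1]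
  rfl

lemma Even'.dir_n {n : Sp d} (hn : ‖n‖ = 1) {K : Sp d → ℝ} {m : ℕ}
    (hK : KC (m + 1) K) (he : Even' n K) : Odd' n (fun z => fderiv ℝ K z n) := by
  intro z
  have h1 := fderiv_Rf hK n z n
  have h2 : (fun z => K (Rf n z)) = fun z => K z := funext he
  rw [h2, Rf_n hn, map_neg] at h1
  show fderiv ℝ K (Rf n z) n = -fderiv ℝ K z n
  have h3 : fderiv ℝ (fun z => K z) z n = fderiv ℝ K z n := rfl
  rw [h3] at h1
  rw [h1, neg_neg]

lemma even_radial {n : Sp d} {K : Sp d → ℝ} (h : ∀ x y, ‖x‖ ≤ ‖y‖ → K y ≤ K x) : Even' n K :=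
  fun z => le_antisymm (h _ _ (by rw [(Rf n).norm_map])) (h _ _ (by rw [(Rf n).norm_map]))

/-- the Laplacian of the second potential -/
lemma lap_Bpp {J : ℕ} {M : ℝ} {β : Sp d → ℝ} (h : Kit J M β) (z : Sp d) :
    ∑ j : Fin d, fderiv ℝ (fun z => fderiv ℝ (Bp (Bp β)) z
      (EuclideanSpace.single j (1 : ℝ))) z (EuclideanSpace.single j (1 : ℝ))
      = ‖z‖ ^ 2 * β z - d * Bp β z := by
  have g2 : ∀ (e z : Sp d), fderiv ℝ (Bp (Bp β)) z e = -(⟪e, z⟫_ℝ * Bp β z) := by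
    intro e z
    have h1 := (h.grad2 z).hasFDerivAt.fderiv
    rw [h1, InnerProductSpace.toDual_apply_apply, real_inner_smul_left, real_inner_comm]
    ring
  have g1 : ∀ (e z : Sp d), fderiv ℝ (Bp β) z e = -(⟪e, z⟫_ℝ * β z) := by
    intro e z
    have h1 := (h.grad1 z).hasFDerivAt.fderiv
    rw [h1, InnerProductSpace.toDual_apply_apply, real_inner_smul_left, real_inner_comm]
    ring
  have e1 : ∀ e : Sp d, ‖e‖ = 1 → fderiv ℝ (fun z => fderiv ℝ (Bp (Bp β)) z e) z e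
      = ⟪e, z⟫_ℝ ^ 2 * β z - Bp β z := by
    intro e he
    have e2 : (fun z => fderiv ℝ (Bp (Bp β)) z e) = fun z => -(⟪e, z⟫_ℝ * Bp β z) :=
      funext fun z => g2 e z
    have e3 : HasFDerivAt (fun z : Sp d => ⟪e, z⟫_ℝ) (innerSL ℝ e) z := (innerSL ℝ e).hasFDerivAt
    have e4 := (e3.mul (h.grad1 z).hasFDerivAt.differentiableAt.hasFDerivAt).neg
    rw [e2]
    have e5 : HasFDerivAt (fun z : Sp d => -(⟪e, z⟫_ℝ * Bp β z))
      (-(⟪e, z⟫_ℝ • fderiv ℝ (Bp β) z + Bp β z • innerSL ℝ e)) z := e4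
    rw [e5.fderiv]
    simp only [neg_apply, add_apply, smul_apply, smul_eq_mul, innerSL_apply_apply, g1,
      real_inner_self_eq_norm_sq, he]
    ring
  have e6 : ∀ j : Fin d, fderiv ℝ (fun z => fderiv ℝ (Bp (Bp β)) z
      (EuclideanSpace.single j (1 : ℝ))) z (EuclideanSpace.single j (1 : ℝ))
      = z j ^ 2 * β z - Bp β z := by
    intro j
    rw [e1 _ (by simp), EuclideanSpace.inner_single_left]
    simp
  rw [Finset.sum_congr rfl fun j _ => e6 j, Finset.sum_sub_distrib, ← Finset.sum_mul,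
    EuclideanSpace.norm_sq_eq]
  simp

lemma K2_even {J : ℕ} {M : ℝ} {β : Sp d → ℝ} (h : Kit J M β) (n : Sp d) (ε : ℝ) :
    Even' n (K2 β ε) := by
  intro z
  have h1 : β (Rf n z) = β z := even_radial h.prof.mono z
  have h2 : Bp β (Rf n z) = Bp β z := even_radial h.mono1 z
  unfold K2
  rw [lap_Bpp h, lap_Bpp h, (Rf n).norm_map, h1, h2]

/-! ### Averages with odd kernels -/

/-- the right hand side -/
def FF (C : ℝ) (μ : Measure (Sp d)) (n : Sp d) (y : Sp d) : ℝ :=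
  (C * vQ d * volume.real (closedBall (0 : Sp d) 2)) * vv μ 1 y * tav (X2 μ n) 1 y

lemma II_reflect {G : Type*} [NormedAddCommGroup G] [NormedSpace ℝ G]
    (Ψ : ℝ → Sp d → Sp d → G) (n : Sp d) (ε : ℝ) (y : Sp d) : II ε Ψ y
      = ∫ p in Q2 d, tau 1 p.1 • Ψ p.1 (Rf n p.2) (y + (ε * p.1) • Rf n p.2) := by
  have h1 : MeasurePreserving (fun p : ℝ × Sp d => (p.1, Rf n p.2))
      ((volume : Measure ℝ).prod volume) ((volume : Measure ℝ).prod volume) :=
    (MeasurePreserving.id _).prod (Rf n).measurePreserving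
  have h2 : MeasurableEmbedding (fun p : ℝ × Sp d => (p.1, Rf n p.2)) :=
    ((Homeomorph.refl ℝ).prodCongr (Rf n).toHomeomorph).measurableEmbedding
  have h3 := h1.setIntegral_preimage_emb h2
    (fun p => tau 1 p.1 • Ψ p.1 p.2 (y + (ε * p.1) • p.2)) (Q2 d)
  have h4 : (fun p : ℝ × Sp d => (p.1, Rf n p.2)) ⁻¹' Q2 d = Q2 d := by
    ext p
    unfold Q2
    simp only [mem_preimage, mem_prod, mem_closedBall_zero_iff, (Rf n).norm_map]
  rw [h4] at h3
  unfold II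
  rw [Measure.volume_eq_prod, ← h3]

lemma cont_X2 (h : StmtTH) (hd : 2 ≤ d) {C' : ℝ} (hC' : 0 < C') {μ : Measure (Sp d)}
    (hμ : Gro C' μ) {n : Sp d} (hn : ‖n‖ = 1) (y : Sp d) :
    ContinuousOn (fun r => X2 μ n r y) (Icc (1 / 2 : ℝ) 2) := by
  have h1 := ((X2_bd (ι := Unit) h hd hC' (μ := fun _ => μ) (fun _ => hμ) 0
    (n := fun _ => n) (fun _ => hn)).smooth ()).continuousOn
  have h2 : ContinuousOn (fun r : ℝ => ((r, y) : ℝ × Sp d)) (Icc (1 / 2 : ℝ) 2) := by fun_prop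
  exact ContinuousOn.comp (g := fun p : ℝ × Sp d => X2 μ n p.1 p.2) (f := fun r => (r, y)) h1 h2
    fun r hr => mem_SL_of hr.1 hr.2 y

lemma B_bd0 (hTH : StmtTH) (hd : 2 ≤ d) {C' : ℝ} (hC' : 0 < C') {C : ℝ} {μ : Measure (Sp d)}
    (hμ : Gro C' μ) (hV : VOK C (vv μ)) {n : Sp d} (hn : ‖n‖ = 1) {ε : ℝ}
    {F : ℝ → Sp d → ℝ} {Cd : ℝ} (hCd : 0 ≤ Cd) (hF : SF F)
    (hdiff : ∀ (r : ℝ) (y z : Sp d), 1 / 2 ≤ r → r ≤ 2 → ‖z‖ ≤ 1 →
      |F r (y + (ε * r) • z) - F r (y + (ε * r) • Rf n z)|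
        ≤ Cd * Real.sqrt (vv μ r y * X2 μ n r y))
    {K : Sp d → ℝ} (hK : KC 0 K) {P : ℝ} (hP : 0 ≤ P) (hKb : ∀ z, |K z| ≤ P) (ho : Odd' n K)
    {ρ : ℝ → ℝ} (hρ : SF (fun r (_ : Sp d) => ρ r)) {R0 : ℝ} (hR0 : 0 ≤ R0)
    (hρb : ∀ r, 1 / 2 ≤ r → r ≤ 2 → |ρ r| ≤ R0) (y : Sp d) :
    |II ε (pr (fun r x => ρ r * F r x) K) y| ≤ R0 * P * Cd * Real.sqrt (FF C μ n y) := by
  have hReg := Reg.pr (hρ.mul hF) hK
  -- twice the average
  have hint1 := hReg.integrableOn ε y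
  have hcV : ContinuousOn (fun p : ℝ × Sp d => tau 1 p.1 * vv μ p.1 y) (Q2 d) :=
    (continuous_tau.comp continuous_fst).continuousOn.mul
      (hV.sf.comp_cont (by fun_prop) (by fun_prop) fun q hq => pos_of_Icc hq.1)
  have hcX : ContinuousOn (fun p : ℝ × Sp d => tau 1 p.1 * X2 μ n p.1 y) (Q2 d) :=
    (continuous_tau.comp continuous_fst).continuousOn.mul
      ((cont_X2 hTH hd hC' hμ hn y).comp continuousOn_fst fun q hq => hq.1)
  have iV := hcV.integrableOn_compact (μ := volume) isCompact_Q2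
  have iX := hcX.integrableOn_compact (μ := volume) isCompact_Q2
  set A := ∫ p in Q2 d, tau 1 p.1 * vv μ p.1 y with hA
  set B := ∫ p in Q2 d, tau 1 p.1 * X2 μ n p.1 y with hB
  have hA1 : A ≤ C * vv μ 1 y * vQ d := by
    rw [hA, vQ, ← integral_const_mul]
    refine setIntegral_mono_on iV ?_ measurableSet_Q2 fun p hp => ?_
    · exact (continuous_const.continuousOn).integrableOn_compact isCompact_Q2
    · have hp0 := pos_of_Icc hp.1
      have h4 := hV.comp p.1 y y hp.1.1 hp.1.2 (by simp)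
      have h5 := hV.pos p.1 y hp0
      have h6 := tau_le p.1
      have h7 := WBT.tau_nonneg p.1
      rw [mul_one]
      nlinarith only [h4, h5, h6]
  have hA0 : 0 ≤ A := setIntegral_nonneg measurableSet_Q2 fun p hp =>
    mul_nonneg (WBT.tau_nonneg _) (hV.pos _ _ (pos_of_Icc hp.1)).le
  have hB0 : 0 ≤ B := setIntegral_nonneg measurableSet_Q2 fun p hp =>
    mul_nonneg (WBT.tau_nonneg _) (X2_nonneg μ n (pos_of_Icc hp.1).le y)
  have hB1 : B = volume.real (closedBall (0 : Sp d) 2) * tav (X2 μ n) 1 y := by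
    rw [hB]
    unfold Q2
    have iX' : IntegrableOn (fun p : ℝ × Sp d => tau 1 p.1 * X2 μ n p.1 y)
      (Icc (1 / 2 : ℝ) 2 ×ˢ closedBall 0 2) ((volume : Measure ℝ).prod volume) := iX
    rw [Measure.volume_eq_prod, setIntegral_prod _ iX']
    unfold tav
    rw [mul_one, intervalIntegral.integral_of_le (by norm_num), ← integral_const_mul,
      integral_Icc_eq_integral_Ioc]
    refine integral_congr_ae (Eventually.of_forall fun r => ?_)
    simp only
    rw [setIntegral_const, smul_eq_mul]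
  have key : ∀ l : ℝ, 0 < l → 2 * |II ε (pr (fun r x => ρ r * F r x) K) y|
      ≤ l * ((R0 * P * Cd) * A) + (R0 * P * Cd) * B / l := by
    intro l hl
    have e1 : II ε (pr (fun r x => ρ r * F r x) K) y
        = ∫ p in Q2 d, -(tau 1 p.1 • pr (fun r x => ρ r * F r x) K p.1 p.2
          (y + (ε * p.1) • Rf n p.2)) := by
      rw [II_reflect _ n]
      refine integral_congr_ae (Eventually.of_forall fun p => ?_)
      simp only
      unfold pr
      rw [ho p.2, smul_neg, smul_neg]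
    have hint2 : IntegrableOn (fun p : ℝ × Sp d => tau 1 p.1 • pr (fun r x => ρ r * F r x) K p.1 p.2
          (y + (ε * p.1) • Rf n p.2)) (Q2 d) := by
      have h1 : ContinuousOn (fun p : ℝ × Sp d => (ρ p.1 * F p.1 (y + (ε * p.1) • Rf n p.2))
          * K p.2) (Q2 d) := by
        have hR : Continuous (Rf n) := (Rf n).continuous
        have h2 : ContinuousOn (fun p : ℝ × Sp d => ρ p.1 * F p.1 (y + (ε * p.1) • Rf n p.2))
            (Q2 d) :=
          (hρ.mul hF).comp_cont (b := fun p : ℝ × Sp d => y + (ε * p.1) • Rf n p.2)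
            (by fun_prop) (by fun_prop) fun q hq => pos_of_Icc hq.1
        exact h2.mul (hK.smooth.continuous.comp continuous_snd).continuousOn
      exact ((continuous_tau.comp continuous_fst).continuousOn.mul h1).integrableOn_compact
        isCompact_Q2
    have e2 : 2 * II ε (pr (fun r x => ρ r * F r x) K) y
        = ∫ p in Q2 d, tau 1 p.1 * (ρ p.1 * K p.2 * (F p.1 (y + (ε * p.1) • p.2)
          - F p.1 (y + (ε * p.1) • Rf n p.2))) := by
      rw [two_mul]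
      nth_rewrite 1 [II]
      have hint2' : IntegrableOn (fun p : ℝ × Sp d => -(tau 1 p.1 • pr (fun r x => ρ r * F r x) K
          p.1 p.2 (y + (ε * p.1) • Rf n p.2))) (Q2 d) := hint2.neg
      rw [e1, ← integral_add hint1 hint2']
      refine integral_congr_ae (Eventually.of_forall fun p => ?_)
      simp only
      unfold pr
      simp only [smul_eq_mul]
      ring
    have e3 : 2 * |II ε (pr (fun r x => ρ r * F r x) K) y|
        = |2 * II ε (pr (fun r x => ρ r * F r x) K) y| := by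
      rw [abs_mul, abs_two]
    rw [e3, e2]
    have hint3 : IntegrableOn (fun p : ℝ × Sp d => tau 1 p.1 * (ρ p.1 * K p.2
        * (F p.1 (y + (ε * p.1) • p.2) - F p.1 (y + (ε * p.1) • Rf n p.2)))) (Q2 d) := by
      refine (hint1.sub hint2).congr (Eventually.of_forall fun p => ?_)
      simp only [Pi.sub_apply]
      unfold pr
      simp only [smul_eq_mul]
      ring
    have h2 : |∫ p in Q2 d, tau 1 p.1 * (ρ p.1 * K p.2 * (F p.1 (y + (ε * p.1) • p.2)
          - F p.1 (y + (ε * p.1) • Rf n p.2)))|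
        ≤ ∫ p in Q2 d, ((R0 * P * Cd * l / 2) * (tau 1 p.1 * vv μ p.1 y)
          + (R0 * P * Cd / l / 2) * (tau 1 p.1 * X2 μ n p.1 y)) := by
      refine (abs_integral_le_integral_abs).trans ?_
      refine setIntegral_mono_on hint3.abs ((iV.const_mul _).add (iX.const_mul _))
        measurableSet_Q2 fun p hp => ?_
      have hp0 := pos_of_Icc hp.1
      have ht := WBT.tau_nonneg p.1
      have hv := hV.pos p.1 y hp0
      have hx := X2_nonneg μ n hp0.le y
      by_cases hz : ‖p.2‖ ≤ 1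
      · have h3 := hdiff p.1 y p.2 hp.1.1 hp.1.2 hz
        have h4 : Real.sqrt (vv μ p.1 y * X2 μ n p.1 y) ≤ (l * vv μ p.1 y + X2 μ n p.1 y / l) / 2 := by
          rw [Real.sqrt_le_left (by positivity)]
          have : (l * vv μ p.1 y - X2 μ n p.1 y / l) ^ 2
              = (l * vv μ p.1 y + X2 μ n p.1 y / l) ^ 2 - 4 * (vv μ p.1 y * X2 μ n p.1 y) := by
            field_simp
            ring
          linarith only [this, sq_nonneg (l * vv μ p.1 y - X2 μ n p.1 y / l)]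
        rw [abs_mul, abs_of_nonneg ht, abs_mul, abs_mul]
        calc tau 1 p.1 * (|ρ p.1| * |K p.2| * |F p.1 (y + (ε * p.1) • p.2)
              - F p.1 (y + (ε * p.1) • Rf n p.2)|)
            ≤ tau 1 p.1 * (R0 * P * (Cd * ((l * vv μ p.1 y + X2 μ n p.1 y / l) / 2))) := by
              refine mul_le_mul_of_nonneg_left ?_ ht
              refine mul_le_mul (mul_le_mul (hρb _ hp.1.1 hp.1.2) (hKb _) (abs_nonneg _) hR0)
                (h3.trans (mul_le_mul_of_nonneg_left h4 hCd)) (abs_nonneg _) (by positivity)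
          _ = _ := by ring
      · rw [hK.supp p.2 (not_le.1 hz), mul_zero, zero_mul, mul_zero, abs_zero]
        (clear * - hR0 hP hCd hl ht hv hx; positivity)
    rw [integral_add (iV.const_mul _) (iX.const_mul _), integral_const_mul, integral_const_mul,
      ← hA, ← hB] at h2
    have hz1 : 0 ≤ R0 * P * Cd * l * A := by (clear * - hR0 hP hCd hl hA0; positivity)
    have hz2 : 0 ≤ R0 * P * Cd / l * B := by (clear * - hR0 hP hCd hl hB0; positivity)
    have e4 : l * ((R0 * P * Cd) * A) + (R0 * P * Cd) * B / l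
        = R0 * P * Cd * l * A + R0 * P * Cd / l * B := by ring
    rw [e4]
    refine h2.trans ?_
    have e5 : R0 * P * Cd * l / 2 * A + R0 * P * Cd / l / 2 * B
        = (R0 * P * Cd * l * A + R0 * P * Cd / l * B) / 2 := by ring
    rw [e5]
    linarith only [hz1, hz2]
  have hc : 0 ≤ R0 * P * Cd := by positivity
  have h1 := sq_le_of_forall (abs_nonneg _) (mul_nonneg hc hA0) (mul_nonneg hc hB0) key
  have h2 : A * B ≤ FF C μ n y := by
    rw [hB1]
    have h3 : 0 ≤ volume.real (closedBall (0 : Sp d) 2) * tav (X2 μ n) 1 y := by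
      rw [← hB1]
      exact hB0
    calc A * (volume.real (closedBall (0 : Sp d) 2) * tav (X2 μ n) 1 y)
        ≤ (C * vv μ 1 y * vQ d) * (volume.real (closedBall (0 : Sp d) 2) * tav (X2 μ n) 1 y) :=
          mul_le_mul_of_nonneg_right hA1 h3
      _ = _ := by
          unfold FF
          ring
  rw [← Real.sqrt_sq hc, ← Real.sqrt_mul (sq_nonneg _)]
  refine Real.le_sqrt_of_sq_le (h1.trans ?_)
  calc R0 * P * Cd * A * (R0 * P * Cd * B) = (R0 * P * Cd) ^ 2 * (A * B) := by ring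
    _ ≤ _ := mul_le_mul_of_nonneg_left h2 (sq_nonneg _)

lemma B_bd (hTH : StmtTH) (hd : 2 ≤ d) {C' : ℝ} (hC' : 0 < C') {C : ℝ} {μ : Measure (Sp d)}
    (hμ : Gro C' μ) (hV : VOK C (vv μ)) {n : Sp d} (hn : ‖n‖ = 1) {ε : ℝ}
    (hε : 0 < ε) {J : ℕ} {M : ℝ} {β : Sp d → ℝ} (hβ : Kit J M β)
    {F : ℝ → Sp d → ℝ} {Cd : ℝ} (hCd : 0 ≤ Cd) (hF : SF F)
    (hdiff : ∀ (r : ℝ) (y z : Sp d), 1 / 2 ≤ r → r ≤ 2 → ‖z‖ ≤ 1 →
      |F r (y + (ε * r) • z) - F r (y + (ε * r) • Rf n z)|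
        ≤ Cd * Real.sqrt (vv μ r y * X2 μ n r y)) :
    ∀ (j : ℕ) (K : Sp d → ℝ) (P R0 : ℝ) (ρ : ℝ → ℝ), 0 ≤ P → 0 ≤ R0 →
    KB j P (disc n β) K → Odd' n K → SF (fun r (_ : Sp d) => ρ r) →
    (∀ r, 1 / 2 ≤ r → r ≤ 2 → |ρ r| ≤ R0) → ∀ (w : Fin j → Sp d), (∀ i, ⟪n, w i⟫_ℝ = 0) →
    (∀ i, ‖w i‖ ≤ 1) → ∀ y,
    |iteratedFDeriv ℝ j (II ε (pr (fun r x => ρ r * F r x) K)) y w|
      ≤ (2 / ε) ^ j * (R0 * (P * Real.sqrt (max M 1 * vb d ^ 2)) * Cd
        * Real.sqrt (FF C μ n y)) := by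
  intro j
  induction j with
  | zero =>
    intro K P R0 ρ hP hR0 hK ho hρ hρb w _ _ y
    rw [iteratedFDeriv_zero_apply, pow_zero, one_mul]
    refine B_bd0 hTH hd hC' hμ hV hn hCd hF hdiff hK.kc (by positivity) (fun z => ?_) ho hρ hR0
      hρb y
    refine (hK.norm_le z).trans ?_
    exact mul_le_mul_of_nonneg_left (Real.sqrt_le_sqrt (disc_le hd hβ hn z)) hP
  | succ j ih =>
    intro K P R0 ρ hP hR0 hK ho hρ hρb w hw1 hw2 y
    have hRg := Reg.pr (hρ.mul hF) hK.kc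
    rw [iter_last (II_contDiff hRg hε)]
    set e := w (Fin.last j) with he
    have hρ' : SF (fun r (_ : Sp d) => -(1 / (ε * r)) * ρ r) := (SF.inv_r hε).mul hρ
    have hb' : ∀ r, 1 / 2 ≤ r → r ≤ 2 → |(-(1 / (ε * r)) * ρ r)| ≤ (2 / ε) * R0 := by
      intro r hr hr2
      rw [abs_mul, abs_neg, abs_of_pos (by positivity)]
      refine mul_le_mul ?_ (hρb r hr hr2) (abs_nonneg _) (by positivity)
      rw [div_le_div_iff₀ (by positivity) hε]
      nlinarith only [hε, hr]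
    have e1 : (fun x => fderiv ℝ (II ε (pr (fun r x => ρ r * F r x) K)) x e)
        = II ε (pr (fun r x => (-(1 / (ε * r)) * ρ r) * F r x) (fun z => fderiv ℝ K z e)) := by
      funext x
      rw [II_pr_fderiv (hρ.mul hF) hK.kc hε, II_apply (Reg.pr ((SF.inv_r hε).mul (hρ.mul hF))
        hK.kc.fderiv)]
      refine II_congr ε (fun r z x' hr => ?_) x
      show (-(1 / (ε * r)) * (ρ r * F r x')) * fderiv ℝ K z e
        = ((-(1 / (ε * r)) * ρ r) * F r x') * fderiv ℝ K z e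
      ring
    rw [e1]
    have h1 := ih (fun z => fderiv ℝ K z e) P ((2 / ε) * R0) _ hP (by positivity)
      (hK.dir (hw2 _)) (Odd'.dir hn (hw1 _) hK.kc ho) hρ' hb' (Fin.init w)
      (fun i => hw1 _) (fun i => hw2 _) y
    refine h1.trans (le_of_eq ?_)
    rw [pow_succ]
    ring

end WBT

open _root_.TG.WBT in
theorem wb_b (hTH : StmtTH) (_ : StmtWA) : ∀ (d J : ℕ), 2 ≤ d → ∀ (M C' ε : ℝ), 0 < C' → 0 < ε →
    ε ≤ 1 → ∃ C : ℝ, 0 < C ∧ ∀ β : Sp d → ℝ, Kit (J + 4) M β → ∀ μ : Measure (Sp d), Gro C' μ →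
      ∀ n : Sp d, ‖n‖ = 1 →
        ∀ j ≤ J, ∀ (h : Fin j → Sp d), (∀ i, ⟪n, h i⟫_ℝ = 0) → (∀ i, ‖h i‖ ≤ 1) → ∀ y,
          (iteratedFDeriv ℝ j (fun x => ⟪gradient (WW β ε μ 1) x, n⟫_ℝ) y h) ^ 2 ≤
          C * vv μ 1 y * tav (X2 μ n) 1 y := by
  intro d J hd M C' ε hC' hε hε1
  obtain ⟨C0, hC0, hv⟩ := vok hTH hd hC'
  obtain ⟨Cd, hCd, hdf⟩ := V_diff hTH hd hC'
  set P0 := Real.sqrt (max M 1) with hP0
  have hP00 : 0 ≤ P0 := Real.sqrt_nonneg _
  set P2 := P0 + |(-(ε ^ 2))| * (d * P0) with hP2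
  have hP20 : 0 ≤ P2 := by positivity
  set kb := Real.sqrt (max M 1 * vb d ^ 2) with hkb
  have hkb0 : 0 ≤ kb := Real.sqrt_nonneg _
  set c1 := (2 / ε) ^ J * ((2 / ε) * (P2 * kb) * Cd) + (2 / ε) ^ J * (2 * (P0 * kb) * Cd) with hc1
  have hc10 : 0 ≤ c1 := by (clear * - hε hd hCd; positivity)
  have hvQ := vQ_nonneg (d := d)
  have hvol : 0 ≤ volume.real (closedBall (0 : Sp d) 2) := measureReal_nonneg
  refine ⟨c1 ^ 2 * (C0 * vQ d * volume.real (closedBall (0 : Sp d) 2)) + 1, by (clear * - hC0 hvQ; positivity), ?_⟩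
  intro β hβ μ hμ n hn j hj w hw1 hw2 y
  have hV := hv μ hμ
  have hsf := hV.sf
  obtain ⟨k0, k1, _⟩ := Kit.kb hβ hn
  have kk2 := K2_kc hβ hn ε
  have hn1 : ‖n‖ ≤ 1 := hn.le
  have o2 : Odd' n (fun z => fderiv ℝ (K2 β ε) z n) :=
    Even'.dir_n hn (m := J + 1) kk2.kc (K2_even hβ n ε)
  have o1 : Odd' n (fun z => fderiv ℝ (Bp β) z n) :=
    Even'.dir_n hn (m := J + 3) k1.kc (even_radial hβ.mono1)
  have d2' : KB (J + 1) P2 (disc n β) (fun z => fderiv ℝ (K2 β ε) z n) := kk2.dir hn1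
  have d1' : KB (J + 3) P0 (disc n β) (fun z => fderiv ℝ (Bp β) z n) := k1.dir hn1
  have s1 : SF (fun (r : ℝ) (_ : Sp d) => -(2 * ε ^ 2 * r)) :=
    ((SF.const (2 * ε ^ 2)).mul SF.r).neg
  have sa : SF (fun (r : ℝ) (_ : Sp d) => -(1 / (ε * r))) := SF.inv_r hε
  have sb : SF (fun (_ : ℝ) (_ : Sp d) => 2 * ε) := SF.const (2 * ε)
  set T1 := II ε (pr (fun r x => (-(1 / (ε * r))) * vv μ r x) (fun z => fderiv ℝ (K2 β ε) z n))
    with hT1
  set T2 := II ε (pr (fun r x => (2 * ε) * pT (vv μ) r x) (fun z => fderiv ℝ (Bp β) z n))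
    with hT2
  have e0 : (fun x => ⟪gradient (WW β ε μ 1) x, n⟫_ℝ) = fun x => T1 x + T2 x := by
    funext x
    rw [WBT.inner_grad]
    have e1 : WW β ε μ 1 = fun y => II ε (pr (vv μ) (K2 β ε)) y
      + II ε (pr (fun r x => -(2 * ε ^ 2 * r) * pT (vv μ) r x) (Bp β)) y :=
      funext fun y => WW_eq0 hV hβ hn hε y
    have q1 := II_hasFDerivAt' (m := J + 1) (Reg.pr hsf kk2.kc) hε x
    have q2 := II_hasFDerivAt' (m := J + 3) (Reg.pr (s1.mul hsf.pT) k1.kc) hε x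
    rw [e1, (q1.fun_add q2).fderiv]
    show (II ε (zd ε (pr (vv μ) (K2 β ε))) x) n
      + (II ε (zd ε (pr (fun r x => -(2 * ε ^ 2 * r) * pT (vv μ) r x) (Bp β))) x) n = _
    rw [II_apply ((Reg.pr hsf (m := J + 1 + 1) kk2.kc).zd hε),
      II_apply ((Reg.pr (s1.mul hsf.pT) (m := J + 3 + 1) k1.kc).zd hε),
      zd_pr (m := J + 1) kk2.kc, zd_pr (m := J + 3) k1.kc]
    congr 1
    refine II_congr ε (fun r z x' hr => ?_) x
    show (-(1 / (ε * r)) * (-(2 * ε ^ 2 * r) * pT (vv μ) r x')) * fderiv ℝ (Bp β) z n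
        = ((2 * ε) * pT (vv μ) r x') * fderiv ℝ (Bp β) z n
    field_simp
  have c1' : ContDiff ℝ j T1 := II_contDiff (Reg.pr (sa.mul hsf) (d2'.kc.mono (by omega))) hε
  have c2' : ContDiff ℝ j T2 := II_contDiff (Reg.pr (sb.mul hsf.pT) (d1'.kc.mono (by omega))) hε
  have e2 : iteratedFDeriv ℝ j (fun x => T1 x + T2 x) y
      = iteratedFDeriv ℝ j T1 y + iteratedFDeriv ℝ j T2 y :=
    iteratedFDeriv_add_apply c1'.contDiffAt c2'.contDiffAt
  rw [e0, e2]
  have b1 := B_bd hTH hd hC' hμ hV hn hε hβ hCd hsf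
    (fun r y z h1 h2 h3 => (hdf μ hμ n hn ε hε hε1 r y z h1 h2 h3).1) j
    (fun z => fderiv ℝ (K2 β ε) z n) P2 (2 / ε) _ hP20 (by positivity) (d2'.mono (by omega)) o2 sa
    (fun r h1 h2 => by
      have hr0 : 0 < r := by linarith
      rw [abs_neg, abs_of_pos (by positivity), div_le_div_iff₀ (by positivity) hε]
      nlinarith only [hε, h1]) w hw1 hw2 y
  have b2 := B_bd hTH hd hC' hμ hV hn hε hβ hCd hsf.pT
    (fun r y z h1 h2 h3 => (hdf μ hμ n hn ε hε hε1 r y z h1 h2 h3).2) j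
    (fun z => fderiv ℝ (Bp β) z n) P0 2 _ hP00 zero_le_two (d1'.mono (by omega)) o1 sb
    (fun r _ _ => by
      rw [abs_of_pos (by positivity)]
      linarith) w hw1 hw2 y
  have hT : 0 ≤ tav (X2 μ n) 1 y := by
    refine intervalIntegral.integral_nonneg (by norm_num) fun r hr => ?_
    have h0 : (0 : ℝ) ≤ r := by
      have := hr.1
      linarith
    exact mul_nonneg (le_max_left _ _) (X2_nonneg μ n h0 y)
  have hv1 : 0 ≤ vv μ 1 y := Real.sqrt_nonneg _
  have hF0 : 0 ≤ FF C0 μ n y := by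
    unfold FF
    (clear * - hC0 hvQ hv1 hT; positivity)
  have hs := Real.sqrt_nonneg (FF C0 μ n y)
  have h1 : 1 ≤ 2 / ε := by
    rw [le_div_iff₀ hε]
    linarith
  have h3 : (2 / ε) ^ j ≤ (2 / ε) ^ J := pow_le_pow_right₀ h1 hj
  have main : |(iteratedFDeriv ℝ j T1 y + iteratedFDeriv ℝ j T2 y) w|
      ≤ c1 * Real.sqrt (FF C0 μ n y) := by
    have e3 : (iteratedFDeriv ℝ j T1 y + iteratedFDeriv ℝ j T2 y) w
        = iteratedFDeriv ℝ j T1 y w + iteratedFDeriv ℝ j T2 y w := rfl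
    rw [e3]
    refine (abs_add_le _ _).trans ((add_le_add b1 b2).trans ?_)
    rw [← hkb]
    calc (2 / ε) ^ j * ((2 / ε) * (P2 * kb) * Cd * Real.sqrt (FF C0 μ n y))
          + (2 / ε) ^ j * (2 * (P0 * kb) * Cd * Real.sqrt (FF C0 μ n y))
        ≤ (2 / ε) ^ J * ((2 / ε) * (P2 * kb) * Cd * Real.sqrt (FF C0 μ n y))
          + (2 / ε) ^ J * (2 * (P0 * kb) * Cd * Real.sqrt (FF C0 μ n y)) := by gcongr
      _ = _ := by
          rw [hc1]
          ring
  rw [← sq_abs]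
  calc |(iteratedFDeriv ℝ j T1 y + iteratedFDeriv ℝ j T2 y) w| ^ 2
      ≤ (c1 * Real.sqrt (FF C0 μ n y)) ^ 2 := pow_le_pow_left₀ (abs_nonneg _) main 2
    _ = c1 ^ 2 * (C0 * vQ d * volume.real (closedBall (0 : Sp d) 2)) * vv μ 1 y
        * tav (X2 μ n) 1 y := by
        rw [mul_pow, Real.sq_sqrt hF0]
        unfold FF
        ring
    _ ≤ _ := by
        refine mul_le_mul_of_nonneg_right (mul_le_mul_of_nonneg_right (by linarith only []) hv1) hT

end

end TG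


end

section

/-!
# The sharp derivative bounds, parts (iii) and (iv) (MP_287c87_an, module WB)

`X13` is the average of `β(z) (a + b ⟪n,z⟫ + c ⟪n,z⟫²)`, so a derivative in a direction orthogonal
to `n` only changes the kernel.
-/

open MeasureTheory Metric Set TrI Filter Topology
open scoped InnerProductSpace ContDiff

namespace TG

noncomputable section

namespace WBT

namespace CD

variable {d : ℕ}

/-- polynomials of degree two in `⟪n,z⟫` times a kernel -/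
def qp (a b c : ℝ → Sp d → ℝ) (n : Sp d) (K : Sp d → ℝ) (r : ℝ) (z x : Sp d) : ℝ :=
  (a r x + b r x * ⟪n, z⟫_ℝ + c r x * ⟪n, z⟫_ℝ ^ 2) * K z

/-- multiplication with a power of `-1/(ε r)` -/
def sc (ε : ℝ) (k : ℕ) (a : ℝ → Sp d → ℝ) (r : ℝ) (x : Sp d) : ℝ :=
  (-(1 / (ε * r))) ^ k * a r x

lemma SF.sc {ε : ℝ} (hε : 0 < ε) (k : ℕ) {a : ℝ → Sp d → ℝ} (ha : SF a) : SF (sc ε k a) :=
  ((SF.inv_r hε).pow k).mul ha

lemma sc_zero (ε : ℝ) (a : ℝ → Sp d → ℝ) : sc ε 0 a = a := by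
  funext r x
  simp [sc]

lemma sc_sc (ε : ℝ) (k l : ℕ) (a : ℝ → Sp d → ℝ) : sc ε k (sc ε l a) = sc ε (k + l) a := by
  funext r x
  simp only [sc]
  rw [pow_add]
  ring

lemma cd_inner (n : Sp d) (m : ℕ) :
    ContDiffOn ℝ m (fun p : ℝ × Sp d × Sp d => ⟪n, p.2.1⟫_ℝ) (Om d) :=
  (((innerSL ℝ n).contDiff).comp (contDiff_fst.comp contDiff_snd)).contDiffOn

lemma Reg.qp {a b c : ℝ → Sp d → ℝ} (ha : SF a) (hb : SF b) (hc : SF c) (n : Sp d) {m : ℕ}
    {K : Sp d → ℝ} (hK : KC m K) : Reg m (qp a b c n K) := by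
  refine ⟨?_, fun r z x hz => by rw [CD.qp, hK.supp z hz, mul_zero]⟩
  have hi := cd_inner n m
  exact (((ha.lift m).add ((hb.lift m).mul hi)).add ((hc.lift m).mul (hi.pow 2))).mul hK.lift

/-- the derivative of the average in a direction `e` -/
lemma fd_qp {a b c : ℝ → Sp d → ℝ} (ha : SF a) (hb : SF b) (hc : SF c) (n : Sp d) {m : ℕ}
    {K : Sp d → ℝ} (hK : KC (m + 1) K) {ε : ℝ} (hε : 0 < ε) (y e : Sp d) :
    fderiv ℝ (II ε (qp a b c n K)) y e =
      II ε (qp (sc ε 1 a) (sc ε 1 b) (sc ε 1 c) n (fun z => fderiv ℝ K z e)) y +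
      ⟪n, e⟫_ℝ * II ε (qp (sc ε 1 b) (sc ε 1 fun r x => 2 * c r x) (fun _ _ => 0) n K) y := by
  have hR := Reg.qp ha hb hc n hK
  have h2c : SF fun r x => 2 * c r x := (SF.const 2).mul hc
  have hR1 := Reg.qp (SF.sc hε 1 ha) (SF.sc hε 1 hb) (SF.sc hε 1 hc) n (hK.dir e)
  have hR2 := Reg.qp (SF.sc hε 1 hb) (SF.sc hε 1 h2c) (SF.const 0) n hK
  rw [II_fderiv hR hε, II_apply (hR.zd hε)]
  have h1 := II_smul (Ψ := qp (sc ε 1 b) (sc ε 1 fun r x => 2 * c r x) (fun _ _ => 0) n K)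
    ⟪n, e⟫_ℝ ε y
  rw [smul_eq_mul] at h1
  rw [← h1, ← II_add hR1 (hR2.csmul _)]
  refine II_congr ε (fun r z x hr => ?_) y
  have h2 : HasFDerivAt (fun z' : Sp d => ⟪n, z'⟫_ℝ) (innerSL ℝ n) z := (innerSL ℝ n).hasFDerivAt
  have h3 : HasFDerivAt (fun z' : Sp d => a r x + b r x * ⟪n, z'⟫_ℝ + c r x * ⟪n, z'⟫_ℝ ^ 2)
      (b r x • innerSL ℝ n + c r x • ((2 : ℕ) • ⟪n, z⟫_ℝ ^ (2 - 1)) • innerSL ℝ n) z :=
    ((h2.const_mul (b r x)).const_add (a r x)).add ((h2.pow 2).const_mul (c r x))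
  have h4 : dZ (CD.qp a b c n K) r z x =
      (a r x + b r x * ⟪n, z⟫_ℝ + c r x * ⟪n, z⟫_ℝ ^ 2) • fderiv ℝ K z +
      K z • (b r x • innerSL ℝ n + c r x • ((2 : ℕ) • ⟪n, z⟫_ℝ ^ (2 - 1)) • innerSL ℝ n) := by
    unfold dZ
    exact (h3.mul (hK.diff z).hasFDerivAt).fderiv
  rw [zd, h4]
  simp only [CD.qp, sc, smul_apply, add_apply, innerSL_apply_apply, smul_eq_mul, pow_one,
    nsmul_eq_mul]
  push_cast
  ring

/-- a formula for iterated derivatives -/
lemma iter_last {f : Sp d → ℝ} {j : ℕ} (hf : ContDiff ℝ (j + 1 : ℕ) f) (y : Sp d)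
    (h : Fin (j + 1) → Sp d) : iteratedFDeriv ℝ (j + 1) f y h =
      iteratedFDeriv ℝ j (fun x => fderiv ℝ f x (h (Fin.last j))) y (Fin.init h) := by
  have h1 : ContDiff ℝ j (fderiv ℝ f) := hf.fderiv_right (by push_cast; exact le_rfl)
  rw [iteratedFDeriv_succ_apply_right]
  have h2 := (ContinuousLinearMap.apply ℝ ℝ (h (Fin.last j))).iteratedFDeriv_comp_left
    (h1.contDiffAt (x := y)) (i := j) le_rfl
  have h3 : (⇑(ContinuousLinearMap.apply ℝ ℝ (h (Fin.last j))) ∘ fderiv ℝ f) =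
      fun x => fderiv ℝ f x (h (Fin.last j)) := rfl
  rw [h3] at h2
  rw [h2]
  rfl

/-- tangential derivatives of the averages -/
lemma iter_qp (n : Sp d) {ε : ℝ} (hε : 0 < ε) (y : Sp d) (j : ℕ) :
    ∀ {a b c : ℝ → Sp d → ℝ}, SF a → SF b → SF c → ∀ {m : ℕ} {K : Sp d → ℝ}, KC (m + j) K →
      ∀ h : Fin j → Sp d, (∀ i, ⟪n, h i⟫_ℝ = 0) →
      iteratedFDeriv ℝ j (II ε (qp a b c n K)) y h =
        II ε (qp (sc ε j a) (sc ε j b) (sc ε j c) n (fun z => iteratedFDeriv ℝ j K z h)) y := by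
  induction j with
  | zero =>
    intro a b c _ _ _ m K _ h _
    simp only [iteratedFDeriv_zero_apply, sc_zero]
  | succ j ih =>
    intro a b c ha hb hc m K hK h hh
    have hK' : KC (m + j + 1) K := hK
    have hK1 : KC (m + j) (fun z => fderiv ℝ K z (h (Fin.last j))) := hK'.dir _
    have hR := Reg.qp ha hb hc n hK'
    have hcd : ContDiff ℝ (j + 1 : ℕ) (II ε (qp a b c n K)) :=
      (II_contDiff hR hε).of_le (by exact_mod_cast (by omega : j + 1 ≤ m + j + 1))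
    have hKd : ContDiff ℝ (j + 1 : ℕ) K :=
      hK'.smooth.of_le (by exact_mod_cast (by omega : j + 1 ≤ m + j + 1))
    rw [iter_last hcd]
    have h1 : (fun x => fderiv ℝ (II ε (qp a b c n K)) x (h (Fin.last j))) =
        II ε (qp (sc ε 1 a) (sc ε 1 b) (sc ε 1 c) n
          (fun z => fderiv ℝ K z (h (Fin.last j)))) := by
      funext x
      rw [fd_qp ha hb hc n hK' hε, hh, zero_mul, add_zero]
    rw [h1, ih (SF.sc hε 1 ha) (SF.sc hε 1 hb) (SF.sc hε 1 hc) hK1 (Fin.init h) fun i => hh _]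
    simp only [sc_sc]
    congr 2
    funext z
    exact (iter_last hKd z h).symm

/-! ### The coefficients -/

def aT (V : ℝ → Sp d → ℝ) (n : Sp d) (r : ℝ) (x : Sp d) : ℝ :=
  (TT V n r x + pT V r x ^ 2) / V r x

def bT (V : ℝ → Sp d → ℝ) (n : Sp d) (ε r : ℝ) (x : Sp d) : ℝ :=
  2 * ε * (pT V r x * pX V n r x) / V r x

def cT (V : ℝ → Sp d → ℝ) (n : Sp d) (ε r : ℝ) (x : Sp d) : ℝ :=
  ε ^ 2 * pX V n r x ^ 2 / V r x

lemma SF.aT {C : ℝ} {V : ℝ → Sp d → ℝ} (hV : VOK C V) {n : Sp d} (hn : ‖n‖ = 1) : SF (aT V n) :=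
  ((hV.sf.TT hn).add (hV.sf.pT.pow 2)).div hV.sf fun r x hr => (hV.pos r x hr).ne'

lemma SF.bT {C : ℝ} {V : ℝ → Sp d → ℝ} (hV : VOK C V) (n : Sp d) (ε : ℝ) : SF (bT V n ε) :=
  (((SF.const 2).mul (SF.const ε)).mul (hV.sf.pT.mul (hV.sf.pX n))).div hV.sf
    fun r x hr => (hV.pos r x hr).ne'

lemma SF.cT {C : ℝ} {V : ℝ → Sp d → ℝ} (hV : VOK C V) (n : Sp d) (ε : ℝ) : SF (cT V n ε) :=
  (((SF.const ε).pow 2).mul ((hV.sf.pX n).pow 2)).div hV.sf fun r x hr => (hV.pos r x hr).ne'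

lemma HH_eq {V : ℝ → Sp d → ℝ} (n : Sp d) (ε : ℝ) (r : ℝ) (z x : Sp d) :
    HH V n ε r z x = aT V n r x + bT V n ε r x * ⟪n, z⟫_ℝ + cT V n ε r x * ⟪n, z⟫_ℝ ^ 2 := by
  unfold HH QH aT bT cT
  ring

lemma grad_le {C : ℝ} {V : ℝ → Sp d → ℝ} (hV : VOK C V) {r : ℝ} (h1 : 1 / 2 ≤ r) (h2 : r ≤ 2)
    (x : Sp d) : ‖gradient (V r) x‖ ≤ C * V r x := by
  set g := gradient (V r) x with hg
  by_cases h0 : g = 0
  · rw [h0, norm_zero]
    exact (abs_nonneg _).trans (hV.dx r x 0 h1 h2 (by simp))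
  · have h3 := hV.dx r x (‖g‖⁻¹ • g) h1 h2 (by
      rw [norm_smul, norm_inv, norm_norm, inv_mul_cancel₀ (norm_ne_zero_iff.2 h0)])
    have h4 : pX V (‖g‖⁻¹ • g) r x = ‖g‖ := by
      unfold pX
      rw [← inner_grad, ← hg, real_inner_smul_right, real_inner_self_eq_norm_sq]
      have : ‖g‖ ≠ 0 := norm_ne_zero_iff.2 h0
      field_simp
    rw [h4] at h3
    exact (le_abs_self _).trans h3

lemma QH_le {C : ℝ} {V : ℝ → Sp d → ℝ} (hV : VOK C V) (hC : 0 ≤ C) {n : Sp d} (hn : ‖n‖ = 1)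
    {ε : ℝ} (hε : 0 < ε) (hε1 : ε ≤ 1) {r : ℝ} (h1 : 1 / 2 ≤ r) (h2 : r ≤ 2) {z : Sp d}
    (hz : ‖z‖ ≤ 1) (x : Sp d) : QH V n ε r z x ≤ (3 * C * V r x) ^ 2 := by
  have hg := grad_le hV h1 h2 x
  have ht := hV.dt r x h1 h2
  have hx := hV.dx r x n h1 h2 hn.le
  have hv := hV.pos r x (by linarith)
  have hCV : 0 ≤ C * V r x := mul_nonneg hC hv.le
  have hT : TT V n r x ≤ (C * V r x) ^ 2 := by
    unfold TT
    rw [norm_tang_sq hn]
    have := pow_le_pow_left₀ (norm_nonneg _) hg 2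
    linarith only [this, sq_nonneg ⟪n, gradient (V r) x⟫_ℝ]
  have hi : |⟪n, z⟫_ℝ| ≤ 1 := by
    have := abs_real_inner_le_norm n z
    rw [hn, one_mul] at this
    exact this.trans hz
  have h3 : |pT V r x + ε * ⟪n, z⟫_ℝ * pX V n r x| ≤ 2 * (C * V r x) := by
    refine (abs_add_le _ _).trans ?_
    rw [abs_mul, abs_mul, abs_of_pos hε]
    have h4 : ε * |⟪n, z⟫_ℝ| ≤ 1 := by
      have := abs_nonneg ⟪n, z⟫_ℝ
      nlinarith only [hε1, hε, hi]
    have h5 : ε * |⟪n, z⟫_ℝ| * |pX V n r x| ≤ 1 * (C * V r x) :=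
      mul_le_mul h4 hx (abs_nonneg _) zero_le_one
    linarith
  have h4 : (pT V r x + ε * ⟪n, z⟫_ℝ * pX V n r x) ^ 2 ≤ (2 * (C * V r x)) ^ 2 := by
    rw [← sq_abs]
    exact pow_le_pow_left₀ (abs_nonneg _) h3 2
  unfold QH
  linarith only [hT, h4, sq_nonneg (C * V r x)]

/-- pointwise bound for the energy density -/
lemma HH_abs {C : ℝ} {V : ℝ → Sp d → ℝ} (hV : VOK C V) (hC : 0 ≤ C) {n : Sp d} (hn : ‖n‖ = 1)
    {ε : ℝ} (hε : 0 < ε) (hε1 : ε ≤ 1) {r : ℝ} (h1 : 1 / 2 ≤ r) (h2 : r ≤ 2) {z : Sp d}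
    (hz : ‖z‖ ≤ 1) (x : Sp d) :
    |aT V n r x + bT V n ε r x * ⟪n, z⟫_ℝ + cT V n ε r x * ⟪n, z⟫_ℝ ^ 2| ≤
      3 * C * Real.sqrt (QH V n ε r z x) := by
  have hv := hV.pos r x (by linarith)
  have hq := QH_nonneg V n ε r z x
  have hs : Real.sqrt (QH V n ε r z x) ≤ 3 * C * V r x := by
    refine (Real.sqrt_le_sqrt (QH_le hV hC hn hε hε1 h1 h2 hz x)).trans ?_
    rw [Real.sqrt_sq (by positivity)]
  rw [← HH_eq, abs_of_nonneg (HH_nonneg hV n ε (by linarith) z x)]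
  unfold HH
  rw [div_le_iff₀ hv]
  have h3 := Real.mul_self_sqrt hq
  have h4 := Real.sqrt_nonneg (QH V n ε r z x)
  nlinarith only [h3, hs, h4]

/-- pointwise bound for the mixed density -/
lemma U_abs {C : ℝ} {V : ℝ → Sp d → ℝ} (hV : VOK C V) (hC : 0 ≤ C) {n : Sp d} (hn : ‖n‖ = 1)
    {ε : ℝ} (hε : 0 < ε) (hε1 : ε ≤ 1) {r : ℝ} (h1 : 1 / 2 ≤ r) (h2 : r ≤ 2) (z x : Sp d) :
    |bT V n ε r x + 2 * cT V n ε r x * ⟪n, z⟫_ℝ| ≤ 3 * C * Real.sqrt (QH V n ε r z x) := by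
  have hv := hV.pos r x (by linarith)
  have hx := hV.dx r x n h1 h2 hn.le
  have e1 : bT V n ε r x + 2 * cT V n ε r x * ⟪n, z⟫_ℝ =
      2 * ε * (pX V n r x / V r x) * (pT V r x + ε * ⟪n, z⟫_ℝ * pX V n r x) := by
    unfold bT cT
    ring
  have h3 : |pX V n r x / V r x| ≤ C := by
    rw [abs_div, abs_of_pos hv, div_le_iff₀ hv]
    exact hx
  have h4 : |pT V r x + ε * ⟪n, z⟫_ℝ * pX V n r x| ≤ Real.sqrt (QH V n ε r z x) := by
    rw [← Real.sqrt_sq_eq_abs]
    refine Real.sqrt_le_sqrt ?_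
    unfold QH TT
    have := sq_nonneg ‖tang n (gradient (V r) x)‖
    linarith
  rw [e1, abs_mul, abs_mul, abs_of_pos (by positivity : 0 < 2 * ε)]
  have h5 : 2 * ε * |pX V n r x / V r x| ≤ 3 * C := by
    have := abs_nonneg (pX V n r x / V r x)
    nlinarith only [hC, hε1, hε, h3]
  exact mul_le_mul h5 h4 (abs_nonneg _) (by positivity)

lemma pow_abs {ε : ℝ} (hε : 0 < ε) (hε1 : ε ≤ 1) {r : ℝ} (h1 : 1 / 2 ≤ r) {k L : ℕ}
    (hk : k ≤ L) : |(-(1 / (ε * r))) ^ k| ≤ (2 / ε) ^ L := by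
  have hr : 0 < r := by linarith
  rw [abs_pow, abs_neg, abs_of_pos (by positivity)]
  have h2 : 1 / (ε * r) ≤ 2 / ε := by
    rw [div_le_div_iff₀ (by positivity) hε]
    nlinarith
  have h3 : 1 ≤ 2 / ε := by
    rw [le_div_iff₀ hε]
    linarith
  exact (pow_le_pow_left₀ (by positivity) h2 k).trans (pow_le_pow_right₀ h3 hk)

/-- the bound for averages with the energy density -/
lemma bdT {C : ℝ} {V : ℝ → Sp d → ℝ} (hV : VOK C V) (hC : 0 ≤ C) {n : Sp d} (hn : ‖n‖ = 1)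
    {ε : ℝ} (hε : 0 < ε) (hε1 : ε ≤ 1) {β : Sp d → ℝ} (hβ : KC 0 β) (hβ0 : ∀ z, 0 ≤ β z)
    {K : Sp d → ℝ} {m : ℕ} (hK : KC m K) {κ : ℝ} (hκ : 0 ≤ κ)
    (hKb : ∀ z, |K z| ≤ κ * Real.sqrt (disc n β z)) {k L : ℕ} (hk : k ≤ L) (y : Sp d) :
    (II ε (qp (sc ε k (aT V n)) (sc ε k (bT V n ε)) (sc ε k (cT V n ε)) n K) y) ^ 2 ≤
      ((2 / ε) ^ L * (3 * C) * κ) ^ 2 * ((C * vQ d * (2 / ε) ^ d) * V 1 y
        * discR n (2 * ε) (XT V β n ε) y) := by
  have hR := Reg.qp (SF.sc hε k (SF.aT hV hn)) (SF.sc hε k (SF.bT hV n ε))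
    (SF.sc hε k (SF.cT hV n ε)) n hK
  have h := e1 hV hn hε hε1 hβ hβ0 hR (P := (2 / ε) ^ L * (3 * C) * κ) (by positivity) y ?_
  · rwa [Real.norm_eq_abs, sq_abs] at h
  · intro r z h1 h2 hz
    set x := y + (ε * r) • z with hx
    have e1 : qp (sc ε k (aT V n)) (sc ε k (bT V n ε)) (sc ε k (cT V n ε)) n K r z x =
        (-(1 / (ε * r))) ^ k * (aT V n r x + bT V n ε r x * ⟪n, z⟫_ℝ +
          cT V n ε r x * ⟪n, z⟫_ℝ ^ 2) * K z := by
      simp only [qp, sc]
      ring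
    rw [e1, Real.norm_eq_abs, abs_mul, abs_mul, Real.sqrt_mul (disc_nonneg n hβ0 z)]
    have h3 := pow_abs hε hε1 h1 hk
    have h4 := HH_abs hV hC hn hε hε1 h1 h2 hz x
    have h5 := hKb z
    calc _ ≤ (2 / ε) ^ L * (3 * C * Real.sqrt (QH V n ε r z x)) *
          (κ * Real.sqrt (disc n β z)) := by gcongr
      _ = _ := by ring

/-- the bound for averages with the mixed density -/
lemma bdU {C : ℝ} {V : ℝ → Sp d → ℝ} (hV : VOK C V) (hC : 0 ≤ C) {n : Sp d} (hn : ‖n‖ = 1)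
    {ε : ℝ} (hε : 0 < ε) (hε1 : ε ≤ 1) {β : Sp d → ℝ} (hβ : KC 0 β) (hβ0 : ∀ z, 0 ≤ β z)
    {K : Sp d → ℝ} {m : ℕ} (hK : KC m K) {κ : ℝ} (hκ : 0 ≤ κ)
    (hKb : ∀ z, |K z| ≤ κ * Real.sqrt (disc n β z)) {k L : ℕ} (hk : k ≤ L) (y : Sp d) :
    (II ε (qp (sc ε k (bT V n ε)) (sc ε k fun r x => 2 * cT V n ε r x) (fun _ _ => 0) n K) y) ^ 2
      ≤ ((2 / ε) ^ L * (3 * C) * κ) ^ 2 * ((C * vQ d * (2 / ε) ^ d) * V 1 y
        * discR n (2 * ε) (XT V β n ε) y) := by
  have h2c : SF fun r x => 2 * cT V n ε r x := (SF.const 2).mul (SF.cT hV n ε)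
  have hR := Reg.qp (SF.sc hε k (SF.bT hV n ε)) (SF.sc hε k h2c) (SF.const 0) n hK
  have h := e1 hV hn hε hε1 hβ hβ0 hR (P := (2 / ε) ^ L * (3 * C) * κ) (by positivity) y ?_
  · rwa [Real.norm_eq_abs, sq_abs] at h
  · intro r z h1 h2 hz
    set x := y + (ε * r) • z with hx
    have e1 : qp (sc ε k (bT V n ε)) (sc ε k fun r x => 2 * cT V n ε r x) (fun _ _ => 0) n K r z x
        = (-(1 / (ε * r))) ^ k * (bT V n ε r x + 2 * cT V n ε r x * ⟪n, z⟫_ℝ) * K z := by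
      simp only [qp, sc]
      ring
    rw [e1, Real.norm_eq_abs, abs_mul, abs_mul, Real.sqrt_mul (disc_nonneg n hβ0 z)]
    have h3 := pow_abs hε hε1 h1 hk
    have h4 := U_abs hV hC hn hε hε1 h1 h2 z x
    have h5 := hKb z
    calc _ ≤ (2 / ε) ^ L * (3 * C * Real.sqrt (QH V n ε r z x)) *
          (κ * Real.sqrt (disc n β z)) := by gcongr
      _ = _ := by ring

/-- kernels given by derivatives -/
lemma KC.iter {m j : ℕ} : ∀ {K : Sp d → ℝ}, KC (m + j) K → ∀ h : Fin j → Sp d,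
    KC m (fun z => iteratedFDeriv ℝ j K z h) := by
  induction j with
  | zero =>
    intro K hK h
    have hK' : KC m K := hK
    simpa only [iteratedFDeriv_zero_apply] using hK'
  | succ j ih =>
    intro K hK h
    have hK' : KC (m + j + 1) K := hK
    have hKd : ContDiff ℝ (j + 1 : ℕ) K :=
      hK'.smooth.of_le (by exact_mod_cast (by omega : j + 1 ≤ m + j + 1))
    have h1 : (fun z => iteratedFDeriv ℝ (j + 1) K z h) = fun z =>
        iteratedFDeriv ℝ j (fun x => fderiv ℝ K x (h (Fin.last j))) z (Fin.init h) := by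
      funext z
      exact iter_last hKd z h
    rw [h1]
    exact ih (hK'.dir _) _

lemma sc_z (ε : ℝ) (k : ℕ) : sc ε k (fun (_ : ℝ) (_ : Sp d) => (0 : ℝ)) = fun _ _ => 0 := by
  funext r x
  simp [sc]

lemma sc_two (ε : ℝ) (k : ℕ) (c : ℝ → Sp d → ℝ) :
    (fun r x => 2 * sc ε k c r x) = sc ε k fun r x => 2 * c r x := by
  funext r x
  simp only [sc]
  ring

lemma II_nonneg {ε : ℝ} {Ψ : ℝ → Sp d → Sp d → ℝ} (h : ∀ r z x, 0 < r → 0 ≤ Ψ r z x) (y : Sp d) :
    0 ≤ II ε Ψ y := by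
  unfold II
  refine setIntegral_nonneg measurableSet_Q2 fun p hp => ?_
  rw [smul_eq_mul]
  exact mul_nonneg (tau_nonneg _) (h _ _ _ (pos_of_Icc hp.1))

lemma abs_le_of_sq {X P D S : ℝ} (hP : 0 ≤ P) (hD : 0 ≤ D)
    (h : X ^ 2 ≤ P ^ 2 * (D * S)) : |X| ≤ P * Real.sqrt D * Real.sqrt S := by
  have h1 : |X| = Real.sqrt (X ^ 2) := (Real.sqrt_sq_eq_abs X).symm
  rw [h1]
  refine (Real.sqrt_le_sqrt h).trans (le_of_eq ?_)
  rw [Real.sqrt_mul (sq_nonneg P), Real.sqrt_sq hP, Real.sqrt_mul hD]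
  ring

end CD

end WBT

open _root_.TG.WBT WBT.CD in
/-- parts (iii) and (iv) of the sharp derivative bounds -/
theorem wb_cd (h : StmtTH) : ∀ (d J : ℕ), 2 ≤ d → ∀ (M C' ε : ℝ), 0 < C' → 0 < ε → ε ≤ 1 →
    ∃ C : ℝ, 0 < C ∧
    ∀ β : Sp d → ℝ, Kit (J + 4) M β → ∀ μ : Measure (Sp d), Gro C' μ →
      ∀ n : Sp d, ‖n‖ = 1 →
        (∀ j ≤ J, ∀ (h : Fin j → Sp d), (∀ i, ⟪n, h i⟫_ℝ = 0) → (∀ i, ‖h i‖ ≤ 1) → ∀ y,
          (iteratedFDeriv ℝ j (X13 β ε μ n 1) y h) ^ 2 ≤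
            C * vv μ 1 y * discR n (2 * ε) (X13 β ε μ n 1) y ∧
          (iteratedFDeriv ℝ j (fun x => fderiv ℝ (X13 β ε μ n 1) x n) y h) ^ 2 ≤
            C * vv μ 1 y * discR n (2 * ε) (X13 β ε μ n 1) y) ∧
        (∀ y, -C * Real.sqrt (vv μ 1 y * discR n (2 * ε) (X13 β ε μ n 1) y) ≤
          d2 n (X13 β ε μ n 1) y) := by
  intro d J hd M C' ε hC' hε hε1
  obtain ⟨C0, hC0, hvok⟩ := vok h hd hC'
  have hC : 0 ≤ C0 := by linarith
  obtain ⟨κ, hκ⟩ : ∃ κ, κ = Real.sqrt |M| := ⟨_, rfl⟩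
  have hκ0 : 0 ≤ κ := by rw [hκ]; exact Real.sqrt_nonneg _
  obtain ⟨D, hD⟩ : ∃ D, D = C0 * vQ d * (2 / ε) ^ d := ⟨_, rfl⟩
  have hD0 : 0 ≤ D := by
    have := vQ_nonneg (d := d)
    rw [hD]
    positivity
  obtain ⟨P, hP⟩ : ∃ P, P = (2 / ε) ^ (J + 2) * (3 * C0) * κ := ⟨_, rfl⟩
  have hP0 : 0 ≤ P := by
    rw [hP]
    positivity
  have hPD : 0 ≤ P * Real.sqrt D := by positivity
  refine ⟨1 + 4 * P ^ 2 * D + 3 * (P * Real.sqrt D), by positivity, fun β hβ μ hμ n hn => ?_⟩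
  have hV := hvok μ hμ
  have hβ0 := hβ.prof.nonneg
  have hK : KC (J + 4) β := ⟨hβ.prof.smooth, fun z hz => hβ.prof.supp z hz.le⟩
  have hK0 : KC 0 β := hK.mono (by omega)
  have hXT : X13 β ε μ n 1 = XT (vv μ) β n ε := X13_eq hV hK0 hn
  have ha := SF.aT hV hn
  have hb := SF.bT hV n ε
  have hc := SF.cT hV n ε
  have h2c : SF fun r x => 2 * cT (vv μ) n ε r x := (SF.const 2).mul hc
  have hXI : XT (vv μ) β n ε = II ε (qp (aT (vv μ) n) (bT (vv μ) n ε) (cT (vv μ) n ε) n β) := by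
    rw [XT_eq_II hV hK0 hn]
    funext y
    refine II_congr ε (fun r z x _ => ?_) y
    rw [HH_eq]
    unfold qp
    ring
  -- the kernel bounds
  have kb : ∀ j ≤ J + 4, ∀ h : Fin j → Sp d, (∀ i, ‖h i‖ ≤ 1) → ∀ z,
      |iteratedFDeriv ℝ j β z h| ≤ κ * Real.sqrt (disc n β z) := by
    intro j hj h hh z
    have h1 := hβ.prof.der j hj n hn z
    have h2 : |iteratedFDeriv ℝ j β z h| ≤ ‖iteratedFDeriv ℝ j β z‖ := by
      rw [← Real.norm_eq_abs]
      refine (ContinuousMultilinearMap.le_opNorm _ _).trans ?_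
      exact mul_le_of_le_one_right (norm_nonneg _)
        (Finset.prod_le_one (fun i _ => norm_nonneg _) fun i _ => hh i)
    refine h2.trans ?_
    rw [hκ, ← Real.sqrt_mul (abs_nonneg M)]
    refine Real.le_sqrt_of_sq_le (h1.trans ?_)
    exact mul_le_mul_of_nonneg_right (le_abs_self M) (disc_nonneg n hβ0 z)
  have kb0 : ∀ z, |β z| ≤ κ * Real.sqrt (disc n β z) := by
    intro z
    have := kb 0 (by omega) (fun i => i.elim0) (fun i => i.elim0) z
    simpa only [iteratedFDeriv_zero_apply] using this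
  have kbn : ∀ j ≤ J + 3, ∀ h : Fin j → Sp d, (∀ i, ‖h i‖ ≤ 1) → ∀ z,
      |iteratedFDeriv ℝ j (fun z => fderiv ℝ β z n) z h| ≤ κ * Real.sqrt (disc n β z) := by
    intro j hj h hh z
    have h1 := kb (j + 1) (by omega) (Fin.snoc h n : Fin (j + 1) → Sp d) (fun i => by
      refine Fin.lastCases ?_ (fun i => ?_) i
      · rw [Fin.snoc_last]
        exact hn.le
      · rw [Fin.snoc_castSucc]
        exact hh i) z
    have hKd : ContDiff ℝ (j + 1 : ℕ) β :=
      hK.smooth.of_le (by exact_mod_cast (by omega : j + 1 ≤ J + 4))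
    rw [CD.iter_last hKd] at h1
    simpa only [Fin.snoc_last, Fin.init_snoc] using h1
  have kbn0 : ∀ z, |fderiv ℝ β z n| ≤ κ * Real.sqrt (disc n β z) := by
    intro z
    have := kbn 0 (by omega) (fun i => i.elim0) (fun i => i.elim0) z
    simpa only [iteratedFDeriv_zero_apply] using this
  have kbnn : ∀ z, |fderiv ℝ (fun z => fderiv ℝ β z n) z n| ≤ κ * Real.sqrt (disc n β z) := by
    intro z
    have := kbn 1 (by omega) (fun _ => n) (fun _ => hn.le) z
    simpa only [iteratedFDeriv_one_apply] using this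
  -- the derivative in direction n
  have hK3 : KC (J + 3 + 1) β := hK
  have hβn : KC (J + 3) (fun z => fderiv ℝ β z n) := hK3.dir n
  have hdn : (fun x => fderiv ℝ (XT (vv μ) β n ε) x n) =
      II ε (qp (sc ε 1 (aT (vv μ) n)) (sc ε 1 (bT (vv μ) n ε)) (sc ε 1 (cT (vv μ) n ε)) n
        (fun z => fderiv ℝ β z n)) +
      II ε (qp (sc ε 1 (bT (vv μ) n ε)) (sc ε 1 fun r x => 2 * cT (vv μ) n ε r x)
        (fun _ _ => 0) n β) := by
    funext x
    rw [hXI, fd_qp ha hb hc n hK3 hε, real_inner_self_eq_norm_sq, hn, one_pow, one_mul]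
    rfl
  have hR1 := Reg.qp (SF.sc hε 1 ha) (SF.sc hε 1 hb) (SF.sc hε 1 hc) n hβn
  have hR2 := Reg.qp (SF.sc hε 1 hb) (SF.sc hε 1 h2c) (SF.const 0) n hK3
  have hc1 := II_contDiff hR1 hε
  have hc2 := II_contDiff hR2 hε
  rw [hXT]
  have hS0 : ∀ y, 0 ≤ vv μ 1 y * discR n (2 * ε) (XT (vv μ) β n ε) y := by
    intro y
    refine mul_nonneg (hV.pos 1 y one_pos).le (integral_nonneg fun u => ?_)
    refine intervalIntegral.integral_nonneg (by norm_num) fun r hr => ?_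
    exact mul_nonneg (WBT.tau_nonneg r) (gg_nonneg hV n ε hβ0 (by have := hr.1; linarith) _)
  refine ⟨fun j hj h hh hh1 y => ⟨?_, ?_⟩, fun y => ?_⟩
  · have hKj : KC (0 + j) β := hK.mono (by omega)
    have h1 := bdT hV hC hn hε hε1 hK0 hβ0 (KC.iter hKj h) hκ0 (kb j (by omega) h hh1)
      (k := j) (L := J + 2) (by omega) y
    rw [← hP, ← hD] at h1
    have h2 := iter_qp n hε y j ha hb hc hKj h hh
    rw [← hXI] at h2
    rw [h2]
    have h3 := hS0 y
    have h4 : 0 ≤ P ^ 2 * D := by positivity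
    nlinarith only [h1, h3, hPD]
  · rw [hdn]
    have e0 : iteratedFDeriv ℝ j
        (II ε (qp (sc ε 1 (aT (vv μ) n)) (sc ε 1 (bT (vv μ) n ε)) (sc ε 1 (cT (vv μ) n ε)) n
          (fun z => fderiv ℝ β z n)) +
        II ε (qp (sc ε 1 (bT (vv μ) n ε)) (sc ε 1 fun r x => 2 * cT (vv μ) n ε r x)
          (fun _ _ => 0) n β)) y h = _ :=
      congrArg (fun L => L h) (iteratedFDeriv_add_apply
        ((hc1.of_le (by exact_mod_cast (by omega : j ≤ J + 3))).contDiffAt (x := y))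
        ((hc2.of_le (by exact_mod_cast (by omega : j ≤ J + 3 + 1))).contDiffAt (x := y)))
    rw [e0]
    have hKn : KC (0 + j) (fun z => fderiv ℝ β z n) := hβn.mono (by omega)
    have hKj : KC (0 + j) β := hK.mono (by omega)
    have i1 := iter_qp n hε y j (SF.sc hε 1 ha) (SF.sc hε 1 hb) (SF.sc hε 1 hc) hKn h hh
    have i2 := iter_qp n hε y j (SF.sc hε 1 hb) (SF.sc hε 1 h2c) (SF.const 0) hKj h hh
    simp only [sc_sc, sc_z] at i1 i2
    have b1 := bdT hV hC hn hε hε1 hK0 hβ0 (KC.iter hKn h) hκ0 (kbn j (by omega) h hh1)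
      (k := j + 1) (L := J + 2) (by omega) y
    have b2 := bdU hV hC hn hε hε1 hK0 hβ0 (KC.iter hKj h) hκ0 (kb j (by omega) h hh1)
      (k := j + 1) (L := J + 2) (by omega) y
    rw [← hP, ← hD, ← i1] at b1
    rw [← hP, ← hD, ← i2] at b2
    have h3 := hS0 y
    have h4 : 0 ≤ P ^ 2 * D := by (clear * - hD0; positivity)
    rw [add_apply]
    obtain ⟨x1, hx1⟩ : ∃ x1, x1 = iteratedFDeriv ℝ j (II ε (qp (sc ε 1 (aT (vv μ) n))
      (sc ε 1 (bT (vv μ) n ε)) (sc ε 1 (cT (vv μ) n ε)) n (fun z => fderiv ℝ β z n))) y h :=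
      ⟨_, rfl⟩
    obtain ⟨x2, hx2⟩ : ∃ x2, x2 = iteratedFDeriv ℝ j (II ε (qp (sc ε 1 (bT (vv μ) n ε))
      (sc ε 1 fun r x => 2 * cT (vv μ) n ε r x) (fun _ _ => 0) n β)) y h := ⟨_, rfl⟩
    rw [← hx1] at b1 ⊢
    rw [← hx2] at b2 ⊢
    nlinarith only [h3, b1, b2, hPD, sq_nonneg (x1 - x2)]
  · have hXc : ContDiff ℝ (1 + 1 : ℕ) (XT (vv μ) β n ε) := by
      rw [hXI]
      exact (II_contDiff (Reg.qp ha hb hc n hK3) hε).of_le
        (by exact_mod_cast (by omega : 1 + 1 ≤ J + 3 + 1))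
    have e1 : d2 n (XT (vv μ) β n ε) y =
        fderiv ℝ (fun x => fderiv ℝ (XT (vv μ) β n ε) x n) y n := by
      unfold d2
      rw [CD.iter_last hXc, iteratedFDeriv_one_apply]
      rfl
    have hβn' : KC (J + 2 + 1) (fun z => fderiv ℝ β z n) := hβn
    have d1 : DifferentiableAt ℝ (II ε (qp (sc ε 1 (aT (vv μ) n)) (sc ε 1 (bT (vv μ) n ε))
        (sc ε 1 (cT (vv μ) n ε)) n (fun z => fderiv ℝ β z n))) y :=
      (hc1.differentiable (by simp)).differentiableAt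
    have d2' : DifferentiableAt ℝ (II ε (qp (sc ε 1 (bT (vv μ) n ε))
        (sc ε 1 fun r x => 2 * cT (vv μ) n ε r x) (fun _ _ => 0) n β)) y :=
      (hc2.differentiable (by simp)).differentiableAt
    have f1 := fd_qp (SF.sc hε 1 ha) (SF.sc hε 1 hb) (SF.sc hε 1 hc) n hβn' hε y n
    have f2 := fd_qp (SF.sc hε 1 hb) (SF.sc hε 1 h2c) (SF.const 0) n hK3 hε y n
    have hnn : ⟪n, n⟫_ℝ = 1 := by rw [real_inner_self_eq_norm_sq, hn, one_pow]
    simp only [sc_sc, sc_z, sc_two, mul_zero, hnn, one_mul, Nat.reduceAdd] at f1 f2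
    rw [e1, hdn, fderiv_add d1 d2', add_apply, f1, f2]
    have b1 := bdT hV hC hn hε hε1 hK0 hβ0 (hβn'.dir n) hκ0 kbnn
      (k := 2) (L := J + 2) (by omega) y
    have b2 := bdU hV hC hn hε hε1 hK0 hβ0 hβn hκ0 kbn0
      (k := 2) (L := J + 2) (by omega) y
    have b3 : 0 ≤ II ε (qp (sc ε 2 fun r x => 2 * cT (vv μ) n ε r x) (fun _ _ => 0)
        (fun _ _ => 0) n β) y := by
      refine II_nonneg (fun r z x hr => ?_) y
      have hv := hV.pos r x hr
      have hz := hβ0 z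
      unfold CD.qp CD.sc CD.cT
      rw [zero_mul, zero_mul, add_zero, add_zero]
      have : 0 ≤ (-(1 / (ε * r))) ^ 2 := sq_nonneg _
      (clear * - hε hv hz; positivity)
    rw [← hP, ← hD, mul_assoc D] at b1 b2
    have c1 := abs_le_of_sq hP0 hD0 b1
    have c2 := abs_le_of_sq hP0 hD0 b2
    have c1' := neg_le_of_abs_le c1
    have c2' := neg_le_of_abs_le c2
    have h5 := Real.sqrt_nonneg (vv μ 1 y * discR n (2 * ε) (XT (vv μ) β n ε) y)
    have h6 : 0 ≤ P ^ 2 * D := by positivity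
    linarith only [b3, c1', c2', h5, mul_nonneg h6 h5]

end

end TG


end

section

/-!
# Module WB: the sharp derivative bounds
-/

open MeasureTheory Metric Set TrI
open scoped InnerProductSpace ContDiff

namespace TG

theorem stmtWB (h : StmtTH) (h1 : StmtWA) : StmtWB := by
  intro d J hd M C' ε hC' hε hε1
  obtain ⟨Ca, hCa, ha⟩ := WBT.wb_a h d J hd M C' ε hC' hε hε1
  obtain ⟨Cb, hCb, hb⟩ := wb_b h h1 d J hd M C' ε hC' hε hε1
  obtain ⟨Cc, hCc, hc⟩ := wb_cd h d J hd M C' ε hC' hε hε1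
  obtain ⟨C1, _, hw⟩ := h1 d J hd M C' ε hC' hε hε1
  refine ⟨Ca + Cb + Cc, by positivity, fun β hβ μ hμ n hn => ?_⟩
  have hv : ∀ y, 0 ≤ vv μ 1 y := fun y => Real.sqrt_nonneg _
  have hX : ∀ y, 0 ≤ X13 β ε μ n 1 y := ((hw β hβ μ hμ).2.2.2.2 n hn).2.2.2.2.1
  have hD : ∀ y, 0 ≤ discR n (2 * ε) (X13 β ε μ n 1) y := fun y =>
    integral_nonneg fun _ => hX _
  have hT : ∀ y, 0 ≤ tav (X2 μ n) 1 y := by
    intro y
    refine intervalIntegral.integral_nonneg (by norm_num) fun r hr => ?_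
    have h0 : (0 : ℝ) ≤ r := by
      have := hr.1
      linarith
    exact mul_nonneg (le_max_left _ _) (X2_nonneg μ n h0 y)
  have m1 : ∀ (K : ℝ) (y : Sp d), K ≤ Ca + Cb + Cc →
      K * vv μ 1 y * discR n (2 * ε) (X13 β ε μ n 1) y
        ≤ (Ca + Cb + Cc) * vv μ 1 y * discR n (2 * ε) (X13 β ε μ n 1) y := fun K y hK =>
    mul_le_mul_of_nonneg_right (mul_le_mul_of_nonneg_right hK (hv y)) (hD y)
  refine ⟨fun j hj y => (ha β hβ μ hμ n hn j hj y).trans (m1 _ _ (by linarith)),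
    fun j hj w hw1 hw2 y => (hb β hβ μ hμ n hn j hj w hw1 hw2 y).trans ?_,
    fun j hj w hw1 hw2 y => ⟨((hc β hβ μ hμ n hn).1 j hj w hw1 hw2 y).1.trans
      (m1 _ _ (by linarith)), ((hc β hβ μ hμ n hn).1 j hj w hw1 hw2 y).2.trans
      (m1 _ _ (by linarith))⟩, fun y => ?_⟩
  · exact mul_le_mul_of_nonneg_right (mul_le_mul_of_nonneg_right (by linarith) (hv y)) (hT y)
  · refine le_trans ?_ ((hc β hβ μ hμ n hn).2 y)
    have h2 := Real.sqrt_nonneg (vv μ 1 y * discR n (2 * ε) (X13 β ε μ n 1) y)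
    nlinarith

end TG


end
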