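import Mathlib
import Pool.Agent.TRM.C02
import Pool.Agent.TRM.C06
import Pool.Agent.TRM.C10
import Pool.Agent.TRM.C19
import Pool.Agent.TRM.C21
import Pool.Agent.TRM.C25
import Pool.Agent.TRM.C27
import Pool.Agent.TRM.C31

/-! Parts: TG.HH, TG.SM, TG.WTc, TG.W3, TG.W4c, TG.W4 -/

section

set_option autoImplicit false

/-!
# Module HH: matrix field identities
-/

open MeasureTheory Metric Set TrI Filter
open scoped InnerProductSpace ContDiff Topology

namespace TG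

noncomputable section

namespace HH

variable {d : ℕ}

/-- partial derivative -/
def Dp (i : Fin d) (f : Sp d → ℝ) : Sp d → ℝ := fun y => fderiv ℝ f y (bv i)

lemma Dp_smooth {f : Sp d → ℝ} (hf : ContDiff ℝ ∞ f) (i : Fin d) : ContDiff ℝ ∞ (Dp i f) :=
  NN.smooth_fd hf _

lemma diffAt {f : Sp d → ℝ} (hf : ContDiff ℝ ∞ f) (y : Sp d) : DifferentiableAt ℝ f y :=
  (hf.differentiable (by simp)) y

lemma pd2_eq {g : Sp d → ℝ} (hg : ContDiff ℝ ∞ g) (i j : Fin d) (y : Sp d) :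
    pd2 i j g y = Dp i (Dp j g) y := by
  unfold pd2 Dp
  rw [iteratedFDeriv_two_apply, NN.iter2 hg]
  simp

lemma Dp_comm {g : Sp d → ℝ} (hg : ContDiff ℝ ∞ g) (i j : Fin d) :
    Dp i (Dp j g) = Dp j (Dp i g) := by
  funext y
  unfold Dp
  rw [NN.iter2 hg, NN.iter2 hg]
  have hsym : IsSymmSndFDerivAt ℝ g y := by
    refine ContDiffAt.isSymmSndFDerivAt (n := ∞) hg.contDiffAt ?_
    simp only [minSmoothness_of_isRCLikeNormedField]
    norm_cast
  exact hsym _ _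

lemma Dp_add {f g : Sp d → ℝ} (hf : ContDiff ℝ ∞ f) (hg : ContDiff ℝ ∞ g) (i : Fin d) :
    Dp i (fun y => f y + g y) = fun y => Dp i f y + Dp i g y := by
  funext y
  unfold Dp
  rw [fderiv_fun_add (diffAt hf y) (diffAt hg y)]
  rfl

lemma Dp_sub {f g : Sp d → ℝ} (hf : ContDiff ℝ ∞ f) (hg : ContDiff ℝ ∞ g) (i : Fin d) :
    Dp i (fun y => f y - g y) = fun y => Dp i f y - Dp i g y := by
  funext y
  unfold Dp
  rw [fderiv_fun_sub (diffAt hf y) (diffAt hg y)]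
  rfl

lemma Dp_mul {f g : Sp d → ℝ} (hf : ContDiff ℝ ∞ f) (hg : ContDiff ℝ ∞ g) (i : Fin d) :
    Dp i (fun y => f y * g y) = fun y => Dp i f y * g y + f y * Dp i g y := by
  funext y
  unfold Dp
  rw [fderiv_fun_mul (diffAt hf y) (diffAt hg y)]
  simp
  ring

lemma Dp_const_mul {f : Sp d → ℝ} (hf : ContDiff ℝ ∞ f) (c : ℝ) (i : Fin d) :
    Dp i (fun y => c * f y) = fun y => c * Dp i f y := by
  funext y
  unfold Dp
  rw [fderiv_const_mul (diffAt hf y)]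
  simp

lemma Dp_sum {ι : Type*} (I : Finset ι) {f : ι → Sp d → ℝ} (hf : ∀ k, ContDiff ℝ ∞ (f k))
    (i : Fin d) : Dp i (fun y => ∑ k ∈ I, f k y) = fun y => ∑ k ∈ I, Dp i (f k) y := by
  funext y
  unfold Dp
  rw [fderiv_fun_sum (fun k _ => diffAt (hf k) y)]
  simp

lemma Dp_zero (i : Fin d) : Dp i (fun _ : Sp d => (0 : ℝ)) = fun _ => 0 := by
  funext y
  unfold Dp
  simp

/-! ### gradients in coordinates -/

lemma grad_inner (f : Sp d → ℝ) (y w : Sp d) : ⟪gradient f y, w⟫_ℝ = fderiv ℝ f y w := by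
  unfold gradient
  rw [InnerProductSpace.toDual_symm_apply]

lemma coord (w : Sp d) (i : Fin d) : w i = ⟪w, bv i⟫_ℝ := by
  simp [bv, EuclideanSpace.inner_single_right]

lemma grad_coord (f : Sp d → ℝ) (y : Sp d) (i : Fin d) : (gradient f y) i = Dp i f y := by
  rw [coord, grad_inner]
  rfl

lemma inner_sum (v w : Sp d) : ⟪v, w⟫_ℝ = ∑ i, v i * w i := by
  rw [PiLp.inner_apply]
  refine Finset.sum_congr rfl fun i _ => ?_
  simp [mul_comm]

lemma grad_grad (f g : Sp d → ℝ) (y : Sp d) :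
    ⟪gradient f y, gradient g y⟫_ℝ = ∑ i, Dp i f y * Dp i g y := by
  rw [inner_sum]
  refine Finset.sum_congr rfl fun i _ => ?_
  rw [grad_coord, grad_coord]

lemma fderiv_sum (f : Sp d → ℝ) (y w : Sp d) : fderiv ℝ f y w = ∑ i, w i * Dp i f y := by
  rw [← grad_inner, inner_sum]
  refine Finset.sum_congr rfl fun i _ => ?_
  rw [grad_coord, mul_comm]

lemma tang_inner {n : Sp d} (hn : ‖n‖ = 1) (v w : Sp d) :
    ⟪tang n v, tang n w⟫_ℝ = ⟪v, w⟫_ℝ - ⟪n, v⟫_ℝ * ⟪n, w⟫_ℝ := by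
  unfold tang
  have hnn : ⟪n, n⟫_ℝ = 1 := by rw [real_inner_self_eq_norm_sq, hn]; norm_num
  rw [inner_sub_left, inner_sub_right, inner_sub_right, real_inner_smul_left,
    real_inner_smul_right, real_inner_smul_left, real_inner_smul_right, hnn,
    real_inner_comm n v]
  ring

lemma tang_grad {n : Sp d} (hn : ‖n‖ = 1) (f g : Sp d → ℝ) (y : Sp d) :
    ⟪tang n (gradient f y), tang n (gradient g y)⟫_ℝ =
      ∑ i, Dp i f y * Dp i g y - fderiv ℝ f y n * fderiv ℝ g y n := by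
  rw [tang_inner hn, grad_grad, real_inner_comm (gradient f y) n, grad_inner,
    real_inner_comm (gradient g y) n, grad_inner]

lemma lap_sum {g : Sp d → ℝ} (hg : ContDiff ℝ ∞ g) (y : Sp d) :
    lap g y = ∑ i, Dp i (Dp i g) y := NN.lap_eq hg y

lemma d2_eq {g : Sp d → ℝ} (hg : ContDiff ℝ ∞ g) (n y : Sp d) :
    d2 n g y = ∑ i, ∑ j, n i * n j * Dp i (Dp j g) y := by
  unfold d2
  have h1 : iteratedFDeriv ℝ 2 g y (fun _ => n) = fderiv ℝ (fun z => fderiv ℝ g z n) y n := by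
    rw [iteratedFDeriv_two_apply, NN.iter2 hg]
  have h2 : (fun z => fderiv ℝ g z n) = fun z => ∑ j, n j * Dp j g z := by
    funext z
    exact fderiv_sum g z n
  rw [h1, h2, fderiv_sum]
  refine Finset.sum_congr rfl fun i _ => ?_
  have h3 : Dp i (fun z => ∑ j, n j * Dp j g z) = fun z => ∑ j, n j * Dp i (Dp j g) z := by
    rw [Dp_sum _ (fun j => contDiff_const.mul (Dp_smooth hg j))]
    funext z
    refine Finset.sum_congr rfl fun j _ => ?_
    rw [Dp_const_mul (Dp_smooth hg j)]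
  rw [h3, Finset.mul_sum]
  refine Finset.sum_congr rfl fun j _ => ?_
  ring

/-! ### linearity of nt -/

lemma NNp_add {b : Sp d → ℝ} (hβ : Continuous (Bp b)) (hs : ∀ x, 1 ≤ ‖x‖ → Bp b x = 0) {R : ℝ}
    (hR : 0 ≤ R) {f g : Sp d → ℝ} (hf : Continuous f) (hg : Continuous g) (y : Sp d) :
    NNp b R (fun z => f z + g z) y = NNp b R f y + NNp b R g y := by
  have h := NN.NNp_sum hβ hs hR (Finset.univ : Finset (Fin 2)) (g := ![f, g])
    (by intro i; fin_cases i <;> assumption) y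
  simpa [Fin.sum_univ_two] using h

lemma NNp_neg {b : Sp d → ℝ} (R : ℝ) (f : Sp d → ℝ) (y : Sp d) :
    NNp b R (fun z => - f z) y = - NNp b R f y := by
  unfold NNp avk
  rw [← intervalIntegral.integral_neg]
  congr 1
  funext s
  have : ∫ y_1 : Sp d, Bp b y_1 • -f (y + s • y_1) = - ∫ y_1 : Sp d, Bp b y_1 • f (y + s • y_1) := by
    rw [← integral_neg]
    congr 1
    funext z
    simp
  rw [this]
  ring

lemma NNp_zero {b : Sp d → ℝ} (R : ℝ) (y : Sp d) : NNp b R (fun _ => 0) y = 0 := by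
  unfold NNp avk
  simp

lemma dd2_eq {F : Fin d → Fin d → Sp d → ℝ} (hF : ∀ i j, ContDiff ℝ ∞ (F i j)) :
    dd2 F = fun x => ∑ i, ∑ j, Dp i (Dp j (F i j)) x := by
  funext x
  unfold dd2
  refine Finset.sum_congr rfl fun i _ => Finset.sum_congr rfl fun j _ => ?_
  exact pd2_eq (hF i j) i j x

lemma nt_add {b : Sp d → ℝ} (hβ : Continuous (Bp b)) (hs : ∀ x, 1 ≤ ‖x‖ → Bp b x = 0) {R : ℝ}
    (hR : 0 ≤ R) {F G : Fin d → Fin d → Sp d → ℝ} (hF : ∀ i j, ContDiff ℝ ∞ (F i j))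
    (hG : ∀ i j, ContDiff ℝ ∞ (G i j)) (y : Sp d) :
    nt b R (fun i j x => F i j x + G i j x) y = nt b R F y + nt b R G y := by
  unfold nt
  have h1 : dd2 (fun i j x => F i j x + G i j x) = fun x => dd2 F x + dd2 G x := by
    rw [dd2_eq (fun i j => (hF i j).add (hG i j)), dd2_eq hF, dd2_eq hG]
    funext x
    rw [← Finset.sum_add_distrib]
    refine Finset.sum_congr rfl fun i _ => ?_
    rw [← Finset.sum_add_distrib]
    refine Finset.sum_congr rfl fun j _ => ?_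
    rw [Dp_add (hF i j) (hG i j), Dp_add (Dp_smooth (hF i j) j) (Dp_smooth (hG i j) j)]
  rw [h1, NNp_add hβ hs hR (NN.dd2_smooth hF).continuous (NN.dd2_smooth hG).continuous]
  ring

lemma nt_neg {b : Sp d → ℝ} (R : ℝ) {F : Fin d → Fin d → Sp d → ℝ}
    (hF : ∀ i j, ContDiff ℝ ∞ (F i j)) (y : Sp d) :
    nt b R (fun i j x => - F i j x) y = - nt b R F y := by
  unfold nt
  have h1 : dd2 (fun i j x => - F i j x) = fun x => - dd2 F x := by
    rw [dd2_eq (fun i j => (hF i j).neg), dd2_eq hF]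
    funext x
    rw [← Finset.sum_neg_distrib]
    refine Finset.sum_congr rfl fun i _ => ?_
    rw [← Finset.sum_neg_distrib]
    refine Finset.sum_congr rfl fun j _ => ?_
    have e : ∀ {f : Sp d → ℝ} (k : Fin d), Dp k (fun y => - f y) = fun y => - Dp k f y := by
      intro f k
      funext y
      unfold Dp
      rw [fderiv_fun_neg]
      rfl
    rw [e, e]
  rw [h1, NNp_neg]

/-! ### the field sym DY - (div Y) I is annihilated -/

/-- the field sym DY - (div Y) I -/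
def Fd (Y : Fin d → Sp d → ℝ) (i j : Fin d) (x : Sp d) : ℝ :=
  1 / 2 * (Dp i (Y j) x + Dp j (Y i) x) - (if i = j then ∑ k, Dp k (Y k) x else 0)

lemma Fd_smooth {Y : Fin d → Sp d → ℝ} (hY : ∀ i, ContDiff ℝ ∞ (Y i)) (i j : Fin d) :
    ContDiff ℝ ∞ (Fd Y i j) := by
  unfold Fd
  have h1 : ContDiff ℝ ∞ (fun x => 1 / 2 * (Dp i (Y j) x + Dp j (Y i) x)) :=
    contDiff_const.mul ((Dp_smooth (hY j) i).add (Dp_smooth (hY i) j))
  by_cases hij : i = j
  · simp only [hij, if_true]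
    subst hij
    exact h1.sub (ContDiff.sum fun k _ => Dp_smooth (hY k) k)
  · simp only [hij, if_false, sub_zero]
    exact h1

lemma dd2_Fd {Y : Fin d → Sp d → ℝ} (hY : ∀ i, ContDiff ℝ ∞ (Y i)) :
    dd2 (Fd Y) = fun _ => 0 := by
  rw [dd2_eq (Fd_smooth hY)]
  funext x
  have hdiv : ContDiff ℝ ∞ (fun x => ∑ k, Dp k (Y k) x) :=
    ContDiff.sum fun k _ => Dp_smooth (hY k) k
  have h1 : ∀ i j, Dp i (Dp j (Fd Y i j)) x =
      1 / 2 * (Dp i (Dp j (Dp i (Y j))) x + Dp i (Dp j (Dp j (Y i))) x) -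
        (if i = j then Dp i (Dp i (fun x => ∑ k, Dp k (Y k) x)) x else 0) := by
    intro i j
    have hs1 := Dp_smooth (hY j) i
    have hs2 := Dp_smooth (hY i) j
    by_cases hij : i = j
    · subst hij
      have e : Fd Y i i = fun x => 1 / 2 * (Dp i (Y i) x + Dp i (Y i) x) -
          ∑ k, Dp k (Y k) x := by
        funext z
        simp [Fd]
      rw [e, Dp_sub (contDiff_const.mul (hs1.add hs2)) hdiv,
        Dp_const_mul (hs1.add hs2), Dp_add hs1 hs2,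
        Dp_sub (contDiff_const.mul ((Dp_smooth hs1 i).add (Dp_smooth hs2 i))) (Dp_smooth hdiv i),
        Dp_const_mul ((Dp_smooth hs1 i).add (Dp_smooth hs2 i)),
        Dp_add (Dp_smooth hs1 i) (Dp_smooth hs2 i)]
      simp
    · have e : Fd Y i j = fun x => 1 / 2 * (Dp i (Y j) x + Dp j (Y i) x) := by
        funext z
        simp [Fd, hij]
      rw [e, Dp_const_mul (hs1.add hs2), Dp_add hs1 hs2,
        Dp_const_mul ((Dp_smooth hs1 j).add (Dp_smooth hs2 j)),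
        Dp_add (Dp_smooth hs1 j) (Dp_smooth hs2 j)]
      simp [hij]
  simp only [h1, Finset.sum_sub_distrib, Finset.sum_ite_eq, Finset.mem_univ, if_true]
  have h2 : ∀ i, Dp i (Dp i (fun x => ∑ k, Dp k (Y k) x)) x =
      ∑ k, Dp i (Dp i (Dp k (Y k))) x := by
    intro i
    rw [Dp_sum _ (fun k => Dp_smooth (hY k) k),
      Dp_sum _ (fun k => Dp_smooth (Dp_smooth (hY k) k) i)]
  simp only [h2]
  have h3 : ∀ i j, Dp i (Dp j (Dp i (Y j))) x = Dp i (Dp i (Dp j (Y j))) x := by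
    intro i j
    rw [Dp_comm (hY j) j i]
  have h4 : ∀ i j, Dp i (Dp j (Dp j (Y i))) x = Dp j (Dp j (Dp i (Y i))) x := by
    intro i j
    rw [Dp_comm (Dp_smooth (hY i) j) i j, Dp_comm (hY i) i j]
  have h34 : ∑ i, ∑ j, (1 / 2 * (Dp i (Dp j (Dp i (Y j))) x + Dp i (Dp j (Dp j (Y i))) x)) =
      ∑ i, ∑ j, (1 / 2 * (Dp i (Dp i (Dp j (Y j))) x + Dp j (Dp j (Dp i (Y i))) x)) :=
    Finset.sum_congr rfl fun i _ => Finset.sum_congr rfl fun j _ => by rw [h3, h4]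
  rw [h34]
  have h5 : ∑ i, ∑ j, (1 / 2 * (Dp i (Dp i (Dp j (Y j))) x + Dp j (Dp j (Dp i (Y i))) x)) =
      ∑ i, ∑ j, Dp i (Dp i (Dp j (Y j))) x := by
    have e1 : ∑ i, ∑ j, (1 / 2 * (Dp i (Dp i (Dp j (Y j))) x + Dp j (Dp j (Dp i (Y i))) x)) =
        1 / 2 * (∑ i, ∑ j, Dp i (Dp i (Dp j (Y j))) x) +
        1 / 2 * (∑ i, ∑ j, Dp j (Dp j (Dp i (Y i))) x) := by
      rw [Finset.mul_sum, Finset.mul_sum, ← Finset.sum_add_distrib]
      refine Finset.sum_congr rfl fun i _ => ?_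
      rw [Finset.mul_sum, Finset.mul_sum, ← Finset.sum_add_distrib]
      refine Finset.sum_congr rfl fun j _ => ?_
      ring
    have e2 : ∑ i, ∑ j, Dp j (Dp j (Dp i (Y i))) x = ∑ i, ∑ j, Dp i (Dp i (Dp j (Y j))) x := by
      rw [Finset.sum_comm]
    rw [e1, e2]
    ring
  rw [h5]
  ring

lemma nt_Fd {b : Sp d → ℝ} (R : ℝ) {Y : Fin d → Sp d → ℝ} (hY : ∀ i, ContDiff ℝ ∞ (Y i))
    (y : Sp d) : nt b R (Fd Y) y = 0 := by
  unfold nt
  rw [dd2_Fd hY, NNp_zero]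
  simp

end HH

open _root_.TG.HH in
theorem stmtHH (hUB : StmtUB) (hNN : StmtNN) : StmtHH := by
  intro d hd M C' ε p0 A hC' hε hε1 hp0 hp01 hA β hβ μ hμ
  obtain ⟨C, hC, hUB'⟩ := hUB d 0 hd M C' ε p0 A hC' hε hε1 hp0 hp01 hA
  have hβ4 : Kit 4 M β := by
    constructor
    · have hp := hβ.prof
      exact ⟨hp.smooth.of_le (by norm_num), hp.nonneg, hp.mono, hp.supp, hp.int,
        fun j hj => hp.der j (by omega)⟩
    · exact hβ.smooth1.of_le (by norm_num)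
    · exact hβ.smooth2.of_le (by norm_num)
    · exact hβ.supp1
    · exact hβ.supp2
    · exact hβ.grad1
    · exact hβ.grad2
    · exact hβ.nonneg1
    · exact hβ.nonneg2
    · exact hβ.le1
    · exact hβ.le2
    · exact hβ.mono1
    · exact hβ.mono2
    · exact fun j hj => hβ.der1 j (by omega)
    · exact fun j hj => hβ.der2 j (by omega)
  obtain ⟨hW, hG, -, -, -, -, -, hU, -, -, -, -⟩ := hUB' β hβ4 μ hμ
  -- abbreviations
  set W := WW β ε μ 1 with hWd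
  set G := GG β ε μ 1 with hGd
  set U := Ups p0 A μ 1 with hUd
  refine ⟨fun n hn y => ?_, fun n hn χ hχ y => ?_, fun b Mb cb hb R hR χ hχ hχc y => ?_⟩
  · -- the quadratic form
    have hnn : ∑ i, n i * n i = 1 := by
      rw [← inner_sum, real_inner_self_eq_norm_sq, hn]
      norm_num
    have e1 : ∀ i j, n i * n j * HHm β ε p0 A μ i j y =
        (if i = j then n i * n j * (U y * (G y - lap W y) + (1 - U y) * G y -
          ⟪gradient U y, gradient W y⟫_ℝ) else 0) + U y * (n i * n j * Dp i (Dp j W) y) +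
          1 / 2 * ((n i * Dp i U y) * (n j * Dp j W y) + (n j * Dp j U y) * (n i * Dp i W y)) := by
      intro i j
      have hp : pd2 i j W y = Dp i (Dp j W) y := pd2_eq hW i j y
      unfold HHm
      rw [← hWd, ← hGd, ← hUd, hp]
      unfold Dp
      by_cases hij : i = j
      · simp only [hij, if_true]
        ring
      · simp only [hij, if_false]
        ring
    simp only [e1, Finset.sum_add_distrib, Finset.sum_ite_eq, Finset.mem_univ, if_true]
    have e2 : ∑ i, n i * n i * (U y * (G y - lap W y) + (1 - U y) * G y -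
          ⟪gradient U y, gradient W y⟫_ℝ) = U y * (G y - lap W y) + (1 - U y) * G y -
          ⟪gradient U y, gradient W y⟫_ℝ := by
      rw [← Finset.sum_mul, hnn, one_mul]
    have e3 : ∑ i, ∑ j, U y * (n i * n j * Dp i (Dp j W) y) = U y * d2 n W y := by
      rw [d2_eq hW, Finset.mul_sum]
      refine Finset.sum_congr rfl fun i _ => ?_
      rw [Finset.mul_sum]
    have e4 : ∑ i, ∑ j, 1 / 2 * ((n i * Dp i U y) * (n j * Dp j W y) +
        (n j * Dp j U y) * (n i * Dp i W y)) = fderiv ℝ U y n * fderiv ℝ W y n := by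
      rw [fderiv_sum U y n, fderiv_sum W y n, Finset.sum_mul_sum]
      have h5 : ∑ i, ∑ j, (n j * Dp j U y) * (n i * Dp i W y) =
          ∑ i, ∑ j, (n i * Dp i U y) * (n j * Dp j W y) := Finset.sum_comm
      have h6 : ∑ i, ∑ j, 1 / 2 * ((n i * Dp i U y) * (n j * Dp j W y) +
          (n j * Dp j U y) * (n i * Dp i W y)) =
          1 / 2 * (∑ i, ∑ j, (n i * Dp i U y) * (n j * Dp j W y)) +
          1 / 2 * (∑ i, ∑ j, (n j * Dp j U y) * (n i * Dp i W y)) := by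
        rw [Finset.mul_sum, Finset.mul_sum, ← Finset.sum_add_distrib]
        refine Finset.sum_congr rfl fun i _ => ?_
        rw [Finset.mul_sum, Finset.mul_sum, ← Finset.sum_add_distrib]
        refine Finset.sum_congr rfl fun j _ => ?_
        ring
      rw [h6, h5]
      ring
    rw [e2, e3, e4]
    unfold Hn gn
    rw [← hWd, ← hGd, ← hUd, tang_grad hn, grad_grad]
    ring
  · -- the tangential divergence
    have hχU : ContDiff ℝ ∞ (fun y => χ y * U y) := hχ.mul hU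
    have hdn : ContDiff ℝ ∞ (fun y => fderiv ℝ W y n) := NN.smooth_fd hW n
    have hcoord : ∀ j, (fun y => χ y * Ups p0 A μ 1 y * (tang n (gradient (WW β ε μ 1) y)) j) =
        fun y => (χ y * U y) * (Dp j W y - n j * fderiv ℝ W y n) := by
      intro j
      funext z
      have : (tang n (gradient (WW β ε μ 1) z)) j = Dp j W z - n j * fderiv ℝ W z n := by
        unfold tang
        rw [real_inner_comm, grad_inner, PiLp.sub_apply, PiLp.smul_apply, grad_coord]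
        simp only [smul_eq_mul]
        ring
      rw [this]
    have hdv : dvT χ β ε p0 A μ n y = ∑ j, (Dp j (fun y => χ y * U y) y *
        (Dp j W y - n j * fderiv ℝ W y n) + (χ y * U y) *
        (Dp j (Dp j W) y - n j * Dp j (fun y => fderiv ℝ W y n) y)) := by
      unfold dvT
      refine Finset.sum_congr rfl fun j _ => ?_
      rw [hcoord j]
      have h1 : ContDiff ℝ ∞ (fun y => Dp j W y - n j * fderiv ℝ W y n) :=
        (Dp_smooth hW j).sub (contDiff_const.mul hdn)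
      have h2 := congrFun (Dp_mul hχU h1 j) y
      have h3 := congrFun (Dp_sub (Dp_smooth hW j) (contDiff_const.mul hdn) j : Dp j
        (fun y => Dp j W y - n j * fderiv ℝ W y n) = _) y
      have h4 := congrFun (Dp_const_mul hdn (n j) j) y
      have h5 : fderiv ℝ (fun y => (χ y * U y) * (Dp j W y - n j * fderiv ℝ W y n)) y
          (EuclideanSpace.single j (1 : ℝ)) =
          Dp j (fun y => (χ y * U y) * (Dp j W y - n j * fderiv ℝ W y n)) y := rfl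
      rw [h5, h2, h3, h4]
    have hs1 : ∑ j, Dp j (fun y => χ y * U y) y * (Dp j W y - n j * fderiv ℝ W y n) =
        (U y * ∑ j, Dp j χ y * Dp j W y) + (χ y * ∑ j, Dp j U y * Dp j W y) -
          fderiv ℝ W y n * (U y * fderiv ℝ χ y n + χ y * fderiv ℝ U y n) := by
      rw [fderiv_sum χ y n, fderiv_sum U y n]
      simp only [Finset.mul_sum, ← Finset.sum_add_distrib, ← Finset.sum_sub_distrib]
      refine Finset.sum_congr rfl fun j _ => ?_
      rw [Dp_mul hχ hU j]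
      ring
    have hs2 : ∑ j, (χ y * U y) * (Dp j (Dp j W) y - n j * Dp j (fun y => fderiv ℝ W y n) y) =
        (χ y * U y) * (lap W y - d2 n W y) := by
      rw [← Finset.mul_sum, Finset.sum_sub_distrib, ← lap_sum hW, ← fderiv_sum
        (fun y => fderiv ℝ W y n) y n]
      congr 2
      unfold d2
      rw [iteratedFDeriv_two_apply, NN.iter2 hW]
    rw [hdv, Finset.sum_add_distrib, hs1, hs2]
    unfold Hn gn fxA
    rw [← hWd, ← hGd, ← hUd, tang_grad hn, tang_grad hn]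
    ring
  · -- the Newton field
    have hk := hb.kit 0
    have hBc : Continuous (Bp b) := hk.smooth1.continuous
    have hb2 : BaseKer 2 Mb cb b := by
      refine ⟨hb.c_pos, hb.smooth.of_le (by norm_num), hb.nonneg, hb.mono, hb.supp, hb.int,
        fun n => ?_, hb.low⟩
      have hkn := hb.kit n
      constructor
      · have hp := hkn.prof
        exact ⟨hp.smooth.of_le (by norm_num), hp.nonneg, hp.mono, hp.supp, hp.int,
          fun j hj => hp.der j (by omega)⟩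
      · exact hkn.smooth1.of_le (by norm_num)
      · exact hkn.smooth2.of_le (by norm_num)
      · exact hkn.supp1
      · exact hkn.supp2
      · exact hkn.grad1
      · exact hkn.grad2
      · exact hkn.nonneg1
      · exact hkn.nonneg2
      · exact hkn.le1
      · exact hkn.le2
      · exact hkn.mono1
      · exact hkn.mono2
      · exact fun j hj => hkn.der1 j (by omega)
      · exact fun j hj => hkn.der2 j (by omega)
    obtain ⟨-, hnI, -⟩ := hNN d hd Mb cb b hb2 R hR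
    -- the four fields
    let Y : Fin d → Sp d → ℝ := fun j z => χ z * U z * Dp j W z
    have hY : ∀ j, ContDiff ℝ ∞ (Y j) := fun j => (hχ.mul hU).mul (Dp_smooth hW j)
    let q : Sp d → ℝ := fun z => U z * ⟪gradient χ z, gradient W z⟫_ℝ
    have hq' : q = fun z => U z * ∑ k, Dp k χ z * Dp k W z := by
      funext z
      show U z * ⟪gradient χ z, gradient W z⟫_ℝ = _
      rw [grad_grad]
    have hq : ContDiff ℝ ∞ q := by
      rw [hq']
      exact hU.mul (ContDiff.sum fun k _ => (Dp_smooth hχ k).mul (Dp_smooth hW k))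
    have hqc : HasCompactSupport q := by
      rw [hq']
      refine HasCompactSupport.mul_left ?_
      exact NN.cs_sum _ fun k => (hχc.fderiv_apply ℝ (bv k)).mul_right
    let g : Sp d → ℝ := fun z => χ z * G z
    have hg : ContDiff ℝ ∞ g := hχ.mul hG
    have hgc : HasCompactSupport g := hχc.mul_right
    let F1 : Fin d → Fin d → Sp d → ℝ := fun i j z => if i = j then g z else 0
    let F2 : Fin d → Fin d → Sp d → ℝ := fun i j z => if i = j then q z else 0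
    let F3 : Fin d → Fin d → Sp d → ℝ := fun i j x => U x * (1 / 2 *
                (fderiv ℝ χ x (bv i) * fderiv ℝ W x (bv j)
                + fderiv ℝ χ x (bv j) * fderiv ℝ W x (bv i)))
    have hI : ∀ {f : Sp d → ℝ}, ContDiff ℝ ∞ f → ∀ i j : Fin d,
        ContDiff ℝ ∞ (fun z => if i = j then f z else 0) := by
      intro f hf i j
      by_cases hij : i = j
      · simp only [hij, if_true]; exact hf
      · simp only [hij, if_false]; exact contDiff_const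
    have hF1 : ∀ i j, ContDiff ℝ ∞ (F1 i j) := hI hg
    have hF2 : ∀ i j, ContDiff ℝ ∞ (F2 i j) := hI hq
    have hF3 : ∀ i j, ContDiff ℝ ∞ (F3 i j) := fun i j =>
      hU.mul (contDiff_const.mul (((Dp_smooth hχ i).mul (Dp_smooth hW j)).add
        ((Dp_smooth hχ j).mul (Dp_smooth hW i))))
    have hF4 : ∀ i j, ContDiff ℝ ∞ (Fd Y i j) := Fd_smooth hY
    have hkey : (fun i j x => χ x * HHm β ε p0 A μ i j x) =
        fun i j x => ((F1 i j x + F2 i j x) + (- F3 i j x)) + Fd Y i j x := by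
      funext i j x
      have hYd : ∀ a b' : Fin d, Dp a (Y b') x = Dp a χ x * U x * Dp b' W x +
          χ x * Dp a U x * Dp b' W x + χ x * U x * Dp a (Dp b' W) x := by
        intro a b'
        have h1 := congrFun (Dp_mul (hχ.mul hU) (Dp_smooth hW b') a) x
        have h2 := congrFun (Dp_mul hχ hU a) x
        have h3 : Dp a (Y b') x = Dp a (fun z => (χ z * U z) * Dp b' W z) x := rfl
        rw [h3, h1, h2]
        ring
      have hdivY : ∑ k, Dp k (Y k) x = q x + χ x * ⟪gradient U x, gradient W x⟫_ℝ +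
          χ x * U x * lap W x := by
        rw [lap_sum hW, grad_grad, hq']
        simp only [hYd, Finset.sum_add_distrib, Finset.mul_sum]
        congr 1
        · congr 1
          · refine Finset.sum_congr rfl fun k _ => ?_
            ring
          · refine Finset.sum_congr rfl fun k _ => ?_
            ring
      have hp : pd2 i j W x = Dp i (Dp j W) x := pd2_eq hW i j x
      have hcm : Dp j (Dp i W) x = Dp i (Dp j W) x := congrFun (Dp_comm hW j i) x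
      show χ x * HHm β ε p0 A μ i j x = (((if i = j then g x else 0) +
        (if i = j then q x else 0)) + (- F3 i j x)) + Fd Y i j x
      unfold Fd HHm
      rw [← hWd, ← hGd, ← hUd, hp, hYd i j, hYd j i, hcm, hdivY]
      show _ = (((if i = j then χ x * G x else 0) +
        (if i = j then q x else 0)) + (- (U x * (1 / 2 *
                (Dp i χ x * Dp j W x + Dp j χ x * Dp i W x))))) + _
      have e1 : fderiv ℝ U x (bv i) = Dp i U x := rfl
      have e2 : fderiv ℝ U x (bv j) = Dp j U x := rfl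
      have e3 : fderiv ℝ W x (bv i) = Dp i W x := rfl
      have e4 : fderiv ℝ W x (bv j) = Dp j W x := rfl
      rw [e1, e2, e3, e4]
      by_cases hij : i = j
      · simp only [hij, if_true]
        ring
      · simp only [hij, if_false]
        ring
    have h1 := nt_add (b := b) hBc hk.supp1 hR.le
      (F := fun i j x => (F1 i j x + F2 i j x) + (- F3 i j x)) (G := Fd Y)
      (fun i j => ((hF1 i j).add (hF2 i j)).add (hF3 i j).neg) hF4 y
    have h2 := nt_add (b := b) hBc hk.supp1 hR.le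
      (F := fun i j x => F1 i j x + F2 i j x) (G := fun i j x => - F3 i j x)
      (fun i j => (hF1 i j).add (hF2 i j)) (fun i j => (hF3 i j).neg) y
    have h3 := nt_add (b := b) hBc hk.supp1 hR.le (F := F1) (G := F2) hF1 hF2 y
    have h4 := nt_neg (b := b) R hF3 y
    have h5 := nt_Fd (b := b) R hY y
    have h6 := hnI g hg hgc y
    have h7 := hnI q hq hqc y
    rw [hkey, h1, h2, h3, h4, h5, h6, h7]
    show χ y * G y = _
    have e1 : g y = χ y * G y := rfl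
    have e2 : q y = U y * ⟪gradient χ y, gradient W y⟫_ℝ := rfl
    rw [e1, e2]
    ring

end

end TG


end

section

/-!
# MODULE SM: the mass around a point where the jump is not small
-/

open MeasureTheory Metric Set TrI Filter
open scoped InnerProductSpace ContDiff Topology

set_option linter.unusedSectionVars false

namespace TG

noncomputable section

namespace SMm

variable {d : ℕ}

lemma cu1_nonneg (ρ z : ℝ) : 0 ≤ cu1 ρ z := Real.smoothTransition.nonneg _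

lemma cu1_le_one (ρ z : ℝ) : cu1 ρ z ≤ 1 := Real.smoothTransition.le_one _

lemma zR_nonneg (ρ : ℝ) (y : Sp d) : 0 ≤ zR ρ y := Real.smoothTransition.nonneg _

lemma zR_le_one (ρ : ℝ) (y : Sp d) : zR ρ y ≤ 1 := Real.smoothTransition.le_one _

lemma nat_le_inf (J : ℕ) : (J : WithTop ℕ∞) ≤ ∞ := by
  exact_mod_cast le_top

lemma two_le_inf : ((2 : ℕ) : WithTop ℕ∞) ≤ ∞ := nat_le_inf 2

lemma abs_ht_le {ν : Sp d} (hν : ‖ν‖ = 1) (c : ℝ) (y : Sp d) : |ht ν c y| ≤ ‖y‖ + |c| := by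
  unfold ht
  refine (abs_sub _ _).trans ?_
  have := abs_real_inner_le_norm ν y
  rw [hν, one_mul] at this
  linarith

/-- uniform constants -/
lemma consts (d J : ℕ) {R0 : ℝ} (hR0 : 100 ≤ R0) : ∃ K : ℝ, 1 ≤ K ∧ ∀ (ν : Sp d) (c : ℝ), ‖ν‖ = 1 →
    |c| ≤ R0 / 3 →
    BF 2 K (fun y => zR R0 y * ht ν c y ^ 2) ∧
    BF 2 K (fun y => cu1 4 (ht ν c y) * ht ν c y) ∧
    BF 2 K (fun y => cu1 4 (ht ν c y)) ∧
    BF 2 K (zR (d := d) (R0 - 2)) ∧
    ∀ x : Sp d, BF 2 K (fun y => zR 1 (y - x)) ∧ BF J K (fun y => zR 1 (tang ν (y - x))) ∧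
      BF 2 K (fun y => zR 1 (tang ν (y - x))) := by
  obtain ⟨N1, hN1, h1⟩ := sT_BF (G := Sp d) 2 (R := R0) (by linarith)
  obtain ⟨N2, hN2, h2⟩ := BF.of_compact (J := 2) (g := fun z : ℝ => sT (2 * R0) z * z ^ 2)
    (((sT_smooth (G := ℝ) (by linarith)).of_le two_le_inf).mul (contDiff_id.pow 2))
    ((sT_cs (G := ℝ) (2 * R0)).mul_right)
  obtain ⟨N3, hN3, h3⟩ := BF.of_compact (J := 2) (g := fun z : ℝ => sT 4 z * z)
    (((sT_smooth (G := ℝ) (by norm_num)).of_le two_le_inf).mul contDiff_id)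
    ((sT_cs (G := ℝ) 4).mul_right)
  obtain ⟨N4, hN4, h4⟩ := sT_BF (G := ℝ) 2 (R := 4) (by norm_num)
  obtain ⟨N5, hN5, h5⟩ := sT_BF (G := Sp d) 2 (R := R0 - 2) (by linarith)
  obtain ⟨N6, hN6, h6⟩ := sT_BF (G := Sp d) 2 (R := 1) (by norm_num)
  obtain ⟨N7, hN7, h7⟩ := sT_BF (G := Sp d) J (R := 1) (by norm_num)
  set K : ℝ := 1 + 2 ^ 2 * (N1 * N2) + N3 + N4 + N5 + N6 + N7 with hK
  have hp : 0 < 2 ^ 2 * (N1 * N2) := by positivity
  refine ⟨K, by linarith, ?_⟩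
  intro ν c hν hc
  have e1 : (fun y => zR R0 y * ht ν c y ^ 2) =
      fun y : Sp d => sT R0 y * (sT (2 * R0) (ht ν c y) * ht ν c y ^ 2) := by
    funext y
    rw [zR_eq]
    by_cases h : sT R0 y = 0
    · rw [h, zero_mul, zero_mul]
    · have h8 := sT_ne h
      have h9 := abs_ht_le hν c y
      rw [sT_one (x := ht ν c y) (by rw [Real.norm_eq_abs]; linarith), one_mul]
  refine ⟨?_, ?_, ?_, ?_, ?_⟩
  · rw [e1]
    exact (h1.mul (h2.comp_ht hν c)).mono (by linarith)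
  · exact (h3.comp_ht hν c).mono (by linarith)
  · exact (h4.comp_ht hν c).mono (by linarith)
  · exact h5.mono (by linarith)
  · intro x
    refine ⟨?_, ?_, ?_⟩
    · have := h6.comp_aff (ContinuousLinearMap.id ℝ (Sp d)) ContinuousLinearMap.norm_id_le (-x)
      have e2 : (fun y : Sp d => zR 1 (y - x)) =
          fun y => sT 1 (ContinuousLinearMap.id ℝ (Sp d) y + -x) := by
        funext y; rw [zR_eq]; simp [sub_eq_add_neg]
      rw [e2]
      exact this.mono (by linarith)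
    · have := h7.comp_aff (tg ν) (tg_norm hν) (-(tg ν x))
      have e2 : (fun y : Sp d => zR 1 (tang ν (y - x))) =
          fun y => sT 1 (tg ν y + -(tg ν x)) := by
        funext y; rw [zR_eq, ← tg_apply, map_sub, sub_eq_add_neg]
      rw [e2]
      exact this.mono (by linarith)
    · have := h6.comp_aff (tg ν) (tg_norm hν) (-(tg ν x))
      have e2 : (fun y : Sp d => zR 1 (tang ν (y - x))) =
          fun y => sT 1 (tg ν y + -(tg ν x)) := by
        funext y; rw [zR_eq, ← tg_apply, map_sub, sub_eq_add_neg]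
      rw [e2]
      exact this.mono (by linarith)

/-- the abstract situation -/
structure Env (m : Sp d → ℝ) (ν : Sp d) (c R0 R K CZ CM Dv av bv : ℝ) : Prop where
  hm : Continuous m
  hmc : HasCompactSupport m
  hν : ‖ν‖ = 1
  hc : |c| ≤ R0 / 3
  hR0 : 100 ≤ R0
  hR : R0 + 10 ≤ R
  hK : 1 ≤ K
  hCZ : 0 < CZ
  hCM : 0 < CM
  hD : 0 ≤ Dv
  ha : 0 ≤ av
  hbb : bv = ∫ y, m y * (zR R0 y * ht ν c y ^ 2)
  z : ∀ (H : Sp d → ℝ) (N : ℝ), 0 < N → BF 2 N H → (∀ y, 0 ≤ H y) →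
    (∀ y, R - 2 ≤ ‖y‖ → H y = 0) → -(CZ * N * Dv) ≤ ∫ y, m y * H y
  ma : ∀ (H : Sp d → ℝ) (N : ℝ), 0 < N → BF 2 N H →
    (∀ y, R0 - 1 ≤ ‖y‖ → H y = 0) → |∫ y, m y * H y| ≤ CM * N * (av + Dv)
  k1 : BF 2 K (fun y => zR R0 y * ht ν c y ^ 2)
  k2 : BF 2 K (fun y => cu1 4 (ht ν c y) * ht ν c y)
  k3 : BF 2 K (fun y => cu1 4 (ht ν c y))
  k4 : BF 2 K (zR (d := d) (R0 - 2))

lemma Env.int {m : Sp d → ℝ} {ν : Sp d} {c R0 R K CZ CM Dv av bv : ℝ}
    (h : Env m ν c R0 R K CZ CM Dv av bv) {g : Sp d → ℝ} (hg : Continuous g) :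
    Integrable (fun y => m y * g y) :=
  (h.hm.mul hg).integrable_of_hasCompactSupport h.hmc.mul_right

lemma BF.cont {J : ℕ} {N : ℝ} {g : Sp d → ℝ} (h : BF J N g) : Continuous g := h.smooth.continuous

/-- the support of cu1 4 (ht) G -/
lemma supp_aux {ν : Sp d} (hν : ‖ν‖ = 1) {c R0 : ℝ} (hc : |c| ≤ R0 / 3) (hR0 : 100 ≤ R0) {y : Sp d}
    (h1 : cu1 4 (ht ν c y) ≠ 0) (h2 : ‖tang ν y‖ ≤ R0 / 2) : ‖y‖ ≤ R0 - 2 := by
  rw [cu1_eq] at h1
  have h3 := sT_ne h1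
  rw [Real.norm_eq_abs] at h3
  have := norm_le_ht hν c y
  linarith

/-- the mean of the height -/
lemma Env.L1 {m : Sp d → ℝ} {ν : Sp d} {c R0 R K CZ CM Dv av bv : ℝ}
    (h : Env m ν c R0 R K CZ CM Dv av bv) {G : Sp d → ℝ} {N : ℝ} (hN : 0 < N) (hG : BF 2 N G)
    (hGs : ∀ y, G y ≠ 0 → ‖tang ν y‖ ≤ R0 / 2) {δ : ℝ} (hδ : 0 < δ) (hδ1 : δ ≤ 1) :
    |∫ y, m y * (cu1 4 (ht ν c y) * (ht ν c y * G y))| ≤
      (CM * K + 1 + CZ * (K + K + 8 * K)) * N * (δ * (av + Dv) + (max 0 bv + Dv) / δ) := by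
  have hK0 : 0 < K := by linarith [h.hK]
  -- the four functions
  have b1 : BF 2 (K * (N / δ)) (fun y => δ * N * zR (R0 - 2) y) :=
    (h.k4.const_mul (δ * N)).mono (by
      rw [abs_of_pos (by positivity)]
      have : δ * N ≤ N / δ := by
        rw [le_div_iff₀ hδ]
        have h1 : δ * δ ≤ 1 := by nlinarith
        have h2 : N * (δ * δ) ≤ N * 1 := mul_le_mul_of_nonneg_left h1 hN.le
        linarith
      nlinarith)
  have b2 : BF 2 (K * (N / δ)) (fun y => N / δ * (zR R0 y * ht ν c y ^ 2)) :=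
    (h.k1.const_mul (N / δ)).mono (by
      rw [abs_of_pos (by positivity)]; nlinarith)
  have b3 : BF 2 (8 * K * (N / δ)) (fun y => 2 * (cu1 4 (ht ν c y) * ht ν c y * G y)) :=
    ((h.k2.mul hG).const_mul 2).mono (by
      rw [abs_of_pos (by norm_num)]
      have : N ≤ N / δ := by
        rw [le_div_iff₀ hδ]; nlinarith
      nlinarith)
  have b3' : BF 2 (8 * K * (N / δ)) (fun y => (-2) * (cu1 4 (ht ν c y) * ht ν c y * G y)) :=
    ((h.k2.mul hG).const_mul (-2)).mono (by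
      rw [abs_of_neg (by norm_num)]
      have : N ≤ N / δ := by
        rw [le_div_iff₀ hδ]; nlinarith
      nlinarith)
  have hNδ : 0 < N / δ := by positivity
  have i1 := h.int b1.cont
  have i2 := h.int b2.cont
  have i3 := h.int (h.k2.mul hG).cont
  have key : ∀ σ : ℝ, (σ = 2 ∨ σ = -2) → -(CZ * ((K + K + 8 * K) * (N / δ)) * Dv) ≤
      δ * N * (∫ y, m y * zR (R0 - 2) y) + N / δ * bv +
        σ * ∫ y, m y * (cu1 4 (ht ν c y) * ht ν c y * G y) := by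
    intro σ hσ
    have b3σ : BF 2 (8 * K * (N / δ)) (fun y => σ * (cu1 4 (ht ν c y) * ht ν c y * G y)) := by
      rcases hσ with rfl | rfl
      · exact b3
      · exact b3'
    have bb := (b1.add b2).add b3σ
    have hz := h.z _ ((K + K + 8 * K) * (N / δ)) (by positivity) (bb.mono (by nlinarith)) ?_ ?_
    · refine hz.trans (le_of_eq ?_)
      rw [h.hbb, ← integral_const_mul, ← integral_const_mul, ← integral_const_mul,
        ← integral_add, ← integral_add]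
      · refine integral_congr_ae (Eventually.of_forall fun y => ?_)
        simp only []
        ring
      · exact (h.int h.k4.cont).const_mul _ |>.add ((h.int h.k1.cont).const_mul _)
      · exact i3.const_mul _
      · exact (h.int h.k4.cont).const_mul _
      · exact (h.int h.k1.cont).const_mul _
    · intro y
      have z1 : 0 ≤ zR (R0 - 2) y := sT_nonneg _ _
      have z2 : 0 ≤ zR R0 y := sT_nonneg _ _
      by_cases h0 : cu1 4 (ht ν c y) * ht ν c y * G y = 0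
      · have t1 : 0 ≤ δ * N * zR (R0 - 2) y := mul_nonneg (by positivity) z1
        have t2 : 0 ≤ N / δ * (zR R0 y * ht ν c y ^ 2) :=
          mul_nonneg hNδ.le (mul_nonneg z2 (sq_nonneg _))
        rw [h0]; linarith
      · have h1 : cu1 4 (ht ν c y) ≠ 0 := fun h' => h0 (by rw [h']; ring)
        have h2 : G y ≠ 0 := fun h' => h0 (by rw [h']; ring)
        have h3 := supp_aux h.hν h.hc h.hR0 h1 (hGs y h2)
        have e1 : zR (R0 - 2) y = 1 := sT_one h3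
        have e2 : zR R0 y = 1 := sT_one (by linarith)
        rw [e1, e2]
        have h4 : 0 ≤ cu1 4 (ht ν c y) := cu1_nonneg _ _
        have h5 : cu1 4 (ht ν c y) ≤ 1 := cu1_le_one _ _
        have h6 := hG.norm_le y
        rw [Real.norm_eq_abs] at h6
        have h7 : |cu1 4 (ht ν c y) * ht ν c y * G y| ≤ |ht ν c y| * N := by
          rw [abs_mul, abs_mul, abs_of_nonneg h4]
          calc cu1 4 (ht ν c y) * |ht ν c y| * |G y| ≤ 1 * |ht ν c y| * N := by (clear * - h5 h6 h2; gcongr)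
            _ = _ := by ring
        have h8 : 2 * (|ht ν c y| * N) ≤ δ * N * 1 + N / δ * (1 * ht ν c y ^ 2) := by
          have h9 : 0 ≤ N / δ * (δ - |ht ν c y|) ^ 2 := by positivity
          have h10 : N / δ * (δ - |ht ν c y|) ^ 2 =
              δ * N * 1 + N / δ * (1 * ht ν c y ^ 2) - 2 * (|ht ν c y| * N) := by
            rw [← sq_abs (ht ν c y)]; field_simp; ring
          linarith
        have h11 := abs_le.1 h7
        rcases hσ with rfl | rfl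
        · linarith [h11.1]
        · linarith [h11.2]
    · intro y hy
      have e1 : zR (R0 - 2) y = 0 := sT_zero (by linarith [h.hR])
      have e2 : zR R0 y = 0 := sT_zero (by linarith [h.hR])
      have e3 : cu1 4 (ht ν c y) * ht ν c y * G y = 0 := by
        by_contra h0
        have h1 : cu1 4 (ht ν c y) ≠ 0 := fun h' => h0 (by rw [h']; ring)
        have h2 : G y ≠ 0 := fun h' => h0 (by rw [h']; ring)
        have h3 := supp_aux h.hν h.hc h.hR0 h1 (hGs y h2)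
        linarith [h.hR]
      rw [e1, e2, e3]; ring
  have k1 := key 2 (Or.inl rfl)
  have k2 := key (-2) (Or.inr rfl)
  have hma := h.ma (zR (R0 - 2)) K hK0 h.k4 (fun y hy => sT_zero (by linarith))
  have e : (fun y => m y * (cu1 4 (ht ν c y) * (ht ν c y * G y))) =
      fun y => m y * (cu1 4 (ht ν c y) * ht ν c y * G y) := by
    funext y; ring
  rw [e]
  set I := ∫ y, m y * (cu1 4 (ht ν c y) * ht ν c y * G y) with hI
  set Z := ∫ y, m y * zR (R0 - 2) y with hZ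
  have hav : 0 ≤ av + Dv := add_nonneg h.ha h.hD
  have h1 : δ * N * Z ≤ δ * N * (CM * K * (av + Dv)) :=
    mul_le_mul_of_nonneg_left ((le_abs_self Z).trans hma) (by positivity)
  have h2 : N / δ * bv ≤ N / δ * max 0 bv :=
    mul_le_mul_of_nonneg_left (le_max_right _ _) hNδ.le
  have h3 : |I| ≤ δ * N * (CM * K * (av + Dv)) + N / δ * max 0 bv +
      CZ * ((K + K + 8 * K) * (N / δ)) * Dv := by
    have h4 : 0 ≤ δ * N * (CM * K * (av + Dv)) + N / δ * max 0 bv +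
      CZ * ((K + K + 8 * K) * (N / δ)) * Dv := by
      have := le_max_left 0 bv
      have := h.hCM
      have := h.hCZ
      have := h.hD
      positivity
    rw [abs_le]
    constructor <;> linarith
  refine h3.trans ?_
  have := le_max_left 0 bv
  have hCM := h.hCM
  have hCZ := h.hCZ
  have hD := h.hD
  have q1 : 0 ≤ δ * (av + Dv) := by positivity
  have q2 : 0 ≤ (max 0 bv) / δ := by positivity
  have q3 : 0 ≤ Dv / δ := by positivity
  have e2 : (CM * K + 1 + CZ * (K + K + 8 * K)) * N * (δ * (av + Dv) + (max 0 bv + Dv) / δ) =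
      (CM * K + (1 + CZ * (K + K + 8 * K))) * N * (δ * (av + Dv)) +
      (1 + (CM * K + CZ * (K + K + 8 * K))) * N * (max 0 bv / δ) +
      (CZ * (K + K + 8 * K) + (1 + CM * K)) * N * (Dv / δ) := by
    rw [add_div]; ring
  rw [e2]
  have r1 : δ * N * (CM * K * (av + Dv)) = CM * K * N * (δ * (av + Dv)) := by ring
  have r2 : N / δ * max 0 bv = N * (max 0 bv / δ) := by ring
  have r3 : CZ * ((K + K + 8 * K) * (N / δ)) * Dv = CZ * (K + K + 8 * K) * N * (Dv / δ) := by ring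
  rw [r1, r2, r3]
  have s1 : 0 ≤ (1 + CZ * (K + K + 8 * K)) * N * (δ * (av + Dv)) := by positivity
  have s2 : 0 ≤ (CM * K + CZ * (K + K + 8 * K)) * N * (max 0 bv / δ) := by (clear * - hCM hK0 hCZ hN hδ; positivity)
  have s3 : 0 ≤ (1 + CM * K) * N * (Dv / δ) := by positivity
  linarith only [s1, s2, s3]

/-- almost positivity -/
lemma Env.L2 {m : Sp d → ℝ} {ν : Sp d} {c R0 R K CZ CM Dv av bv : ℝ}
    (h : Env m ν c R0 R K CZ CM Dv av bv) {G : Sp d → ℝ} {N : ℝ} (hN : 0 < N) (hG : BF 2 N G)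
    (hG0 : ∀ y, 0 ≤ G y) (hGs : ∀ y, G y ≠ 0 → ‖tang ν y‖ ≤ R0 / 2) :
    -(CZ * (4 * K * N) * Dv) ≤ ∫ y, m y * (cu1 4 (ht ν c y) * G y) := by
  have hK0 : 0 < K := by linarith [h.hK]
  refine h.z _ (4 * K * N) (by positivity) ((h.k3.mul hG).mono (by nlinarith)) ?_ ?_
  · intro y
    exact mul_nonneg (cu1_nonneg _ _) (hG0 y)
  · intro y hy
    by_contra h0
    have h1 : cu1 4 (ht ν c y) ≠ 0 := fun h' => h0 (by rw [h']; ring)
    have h2 : G y ≠ 0 := fun h' => h0 (by rw [h']; ring)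
    have h3 := supp_aux h.hν h.hc h.hR0 h1 (hGs y h2)
    linarith [h.hR]

/-- comparison of a cylinder and a ball -/
lemma Env.L3 {m : Sp d → ℝ} {ν : Sp d} {c R0 R K CZ CM Dv av bv : ℝ}
    (h : Env m ν c R0 R K CZ CM Dv av bv) {Lp : ℝ} (hLp : 0 < Lp)
    (hlip : ∀ a b : ℝ, a ≤ 2 → b ≤ 2 →
      |Real.smoothTransition a - Real.smoothTransition b| ≤ Lp * |a - b|)
    {x : Sp d} (hx : ⟪ν, x⟫_ℝ = c) (hxR : ‖x‖ ≤ R0 / 3)
    (k5 : BF 2 K (fun y => zR 1 (y - x))) (k6 : BF 2 K (fun y => zR 1 (tang ν (y - x)))) :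
    ∫ y, m y * (cu1 4 (ht ν c y) * zR 1 (tang ν (y - x))) ≤
      (∫ y, m y * zR 1 (y - x)) + (Lp + CZ * (K + Lp * K + 4 * K * K)) * (max 0 bv + Dv) := by
  have hK0 : 0 < K := by linarith [h.hK]
  have b1 : BF 2 (Lp * K) (fun y => Lp * (zR R0 y * ht ν c y ^ 2)) :=
    (h.k1.const_mul Lp).mono (by rw [abs_of_pos hLp])
  have b2 : BF 2 (4 * K * K) (fun y => (-1) * (cu1 4 (ht ν c y) * zR 1 (tang ν (y - x)))) :=
    ((h.k3.mul k6).const_mul (-1)).mono (by rw [abs_of_neg (by norm_num)]; nlinarith)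
  have bb := (k5.add b1).add b2
  have hz := h.z _ (K + Lp * K + 4 * K * K) (by positivity) bb ?_ ?_
  · have e : ∫ y, m y * (zR 1 (y - x) + Lp * (zR R0 y * ht ν c y ^ 2) +
        (-1) * (cu1 4 (ht ν c y) * zR 1 (tang ν (y - x)))) =
        (∫ y, m y * zR 1 (y - x)) + Lp * bv -
          ∫ y, m y * (cu1 4 (ht ν c y) * zR 1 (tang ν (y - x))) := by
      rw [h.hbb, ← integral_const_mul, ← integral_add, ← integral_sub]
      · refine integral_congr_ae (Eventually.of_forall fun y => ?_)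
        simp only []
        ring
      · exact (h.int k5.cont).add ((h.int h.k1.cont).const_mul _)
      · exact h.int (h.k3.mul k6).cont
      · exact h.int k5.cont
      · exact (h.int h.k1.cont).const_mul _
    rw [e] at hz
    have h1 : Lp * bv ≤ Lp * max 0 bv := mul_le_mul_of_nonneg_left (le_max_right _ _) hLp.le
    have h2 : 0 ≤ CZ * (K + Lp * K + 4 * K * K) * max 0 bv := by
      have := le_max_left 0 bv
      have := h.hCZ
      positivity
    have h3 : 0 ≤ Lp * Dv := mul_nonneg hLp.le h.hD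
    have e3 : (Lp + CZ * (K + Lp * K + 4 * K * K)) * (max 0 bv + Dv) =
      Lp * max 0 bv + CZ * (K + Lp * K + 4 * K * K) * max 0 bv + Lp * Dv +
        CZ * (K + Lp * K + 4 * K * K) * Dv := by ring
    rw [e3]
    linarith
  · intro y
    have z1 : 0 ≤ zR 1 (y - x) := sT_nonneg _ _
    have z2 : 0 ≤ zR R0 y := sT_nonneg _ _
    by_cases h0 : cu1 4 (ht ν c y) * zR 1 (tang ν (y - x)) = 0
    · have t1 : 0 ≤ Lp * (zR R0 y * ht ν c y ^ 2) :=
        mul_nonneg hLp.le (mul_nonneg z2 (sq_nonneg _))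
      rw [h0]; linarith
    · have h1 : cu1 4 (ht ν c y) ≠ 0 := fun h' => h0 (by rw [h']; ring)
      have h2 : zR 1 (tang ν (y - x)) ≠ 0 := fun h' => h0 (by rw [h']; ring)
      have h3 : ‖tang ν (y - x)‖ ≤ 1 + 1 := sT_ne h2
      have h4 : ‖tang ν y‖ ≤ R0 / 2 := by
        have h5 : tang ν y = tang ν (y - x) + tang ν x := by rw [tang_sub]; abel
        rw [h5]
        refine (norm_add_le _ _).trans ?_
        have := tang_le h.hν x
        linarith [h.hR0]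
      have h5 := supp_aux h.hν h.hc h.hR0 h1 h4
      have e2 : zR R0 y = 1 := sT_one (by linarith)
      rw [e2]
      have h6 : 0 ≤ cu1 4 (ht ν c y) := cu1_nonneg _ _
      have h7 : cu1 4 (ht ν c y) ≤ 1 := cu1_le_one _ _
      have h8 : 0 ≤ zR 1 (tang ν (y - x)) := sT_nonneg _ _
      have h9 : cu1 4 (ht ν c y) * zR 1 (tang ν (y - x)) ≤ zR 1 (tang ν (y - x)) := by nlinarith only [h7, h8]
      have h10 : zR 1 (tang ν (y - x)) ≤ zR 1 (y - x) + Lp * ht ν c y ^ 2 := by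
        have hh : ⟪ν, y - x⟫_ℝ = ht ν c y := by
          unfold ht; rw [inner_sub_right, hx]
        have hs := tang_sq h.hν (y - x)
        rw [hh] at hs
        by_cases hr : ‖y - x‖ ≤ 1
        · rw [show zR 1 (y - x) = 1 from sT_one hr]
          have : zR 1 (tang ν (y - x)) ≤ 1 := sT_le_one _ _
          have : 0 ≤ Lp * ht ν c y ^ 2 := by positivity
          linarith
        · push Not at hr
          have hl := hlip (1 + 1 - ‖tang ν (y - x)‖) (1 + 1 - ‖y - x‖)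
            (by linarith [norm_nonneg (tang ν (y - x))]) (by linarith)
          have hle := tang_le h.hν (y - x)
          have e4 : |1 + 1 - ‖tang ν (y - x)‖ - (1 + 1 - ‖y - x‖)| =
              ‖y - x‖ - ‖tang ν (y - x)‖ := by
            rw [show (1 : ℝ) + 1 - ‖tang ν (y - x)‖ - (1 + 1 - ‖y - x‖) =
              ‖y - x‖ - ‖tang ν (y - x)‖ by ring, abs_of_nonneg (by linarith)]
          rw [e4] at hl
          have h11 : ‖y - x‖ - ‖tang ν (y - x)‖ ≤ ht ν c y ^ 2 := by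
            have : (‖y - x‖ - ‖tang ν (y - x)‖) * (‖y - x‖ + ‖tang ν (y - x)‖) = ht ν c y ^ 2 := by
              nlinarith
            rw [← this]
            have h12 := norm_nonneg (tang ν (y - x))
            nlinarith
          have h13 := le_abs_self (Real.smoothTransition (1 + 1 - ‖tang ν (y - x)‖) -
            Real.smoothTransition (1 + 1 - ‖y - x‖))
          have h14 : Lp * (‖y - x‖ - ‖tang ν (y - x)‖) ≤ Lp * ht ν c y ^ 2 :=
            mul_le_mul_of_nonneg_left h11 hLp.le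
          unfold zR
          linarith
      linarith
  · intro y hy
    have hy2 : R - 2 - R0 / 3 ≤ ‖y - x‖ := by
      have := norm_sub_norm_le y x
      linarith
    have e1 : zR 1 (y - x) = 0 := sT_zero (by linarith [h.hR, h.hR0])
    have e2 : zR R0 y = 0 := sT_zero (by linarith [h.hR])
    have e3 : cu1 4 (ht ν c y) * zR 1 (tang ν (y - x)) = 0 := by
      by_contra h0
      have h1 : cu1 4 (ht ν c y) ≠ 0 := fun h' => h0 (by rw [h']; ring)
      have h2 : zR 1 (tang ν (y - x)) ≠ 0 := fun h' => h0 (by rw [h']; ring)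
      have h3 : ‖tang ν (y - x)‖ ≤ 1 + 1 := sT_ne h2
      have h4 : ‖tang ν y‖ ≤ R0 / 2 := by
        have h5 : tang ν y = tang ν (y - x) + tang ν x := by rw [tang_sub]; abel
        rw [h5]
        refine (norm_add_le _ _).trans ?_
        have := tang_le h.hν x
        linarith [h.hR0]
      have h5 := supp_aux h.hν h.hc h.hR0 h1 h4
      linarith [h.hR]
    rw [e1, e2, e3]; ring

lemma BF.tfn {F : Type*} [NormedAddCommGroup F] [NormedSpace ℝ F] {J : ℕ} {N : ℝ} {g : Sp d → F}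
    (h : BF J N g) : TFn J N g := ⟨h.smooth, h.bd⟩

lemma bf_of {F : Type*} [NormedAddCommGroup F] [NormedSpace ℝ F] {J : ℕ} {N : ℝ} {g : Sp d → F}
    (h : TFn J N g) : BF J N g := ⟨h.smooth, h.bd⟩

section op

variable {V : Type} [NormedAddCommGroup V] [InnerProductSpace ℝ V] [FiniteDimensional ℝ V]

lemma JJ_poly (hd : 1 ≤ d) (n0 : ℕ) {u : Sp d → V} (hu : TF u) (ν q : Sp d) {r : ℝ} (hr : 0 < r) :
    ContDiff ℝ ∞ (JJ n0 ν q r u) ∧ ∀ y, iteratedFDeriv ℝ (n0 + 1) (JJ n0 ν q r u) y = 0 := by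
  obtain ⟨a1, a2, -⟩ := stmtTQ d V n0 u hd hu.smooth (q + (6 * r) • ν) r hr
  obtain ⟨b1, b2, -⟩ := stmtTQ d V n0 u hd hu.smooth (q - (6 * r) • ν) r hr
  have e : JJ n0 ν q r u = fun y => ATP n0 (q + (6 * r) • ν) r u y - ATP n0 (q - (6 * r) • ν) r u y :=
    rfl
  refine ⟨by rw [e]; exact a1.sub b1, fun y => ?_⟩
  rw [e]
  have h1 := iteratedFDeriv_sub_apply (x := y) (i := n0 + 1) ((a1.of_le (nat_le_inf _)).contDiffAt)
    ((b1.of_le (nat_le_inf _)).contDiffAt)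
  have h2 : iteratedFDeriv ℝ (n0 + 1) (fun y => ATP n0 (q + (6 * r) • ν) r u y -
      ATP n0 (q - (6 * r) • ν) r u y) y = _ := h1
  rw [h2, a2, b2, sub_zero]

lemma comp_poly (l : V →L[ℝ] ℝ) {P : Sp d → V} {k : ℕ} (hP : ContDiff ℝ ∞ P)
    (h0 : ∀ y, iteratedFDeriv ℝ k P y = 0) : ContDiff ℝ ∞ (fun y => l (P y)) ∧
      ∀ y, iteratedFDeriv ℝ k (fun y => l (P y)) y = 0 := by
  refine ⟨l.contDiff.comp hP, fun y => ?_⟩
  have h1 := l.iteratedFDeriv_comp_left (i := k) (x := y) (f := P)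
    ((hP.of_le (nat_le_inf k)).contDiffAt) le_rfl
  have h2 : (l ∘ P) = fun y => l (P y) := rfl
  rw [h2] at h1
  rw [h1, h0]
  ext v
  simp

end op

lemma dv_smul {J : ℕ} {N : ℝ} {ψ : Sp d → ℝ} (hψ : BF (J + 1) N ψ) (w : Sp d) (y : Sp d) :
    dv (fun y => ψ y • w) y = fderiv ℝ ψ y w := by
  have hdiff : DifferentiableAt ℝ ψ y :=
    (hψ.smooth.differentiable (by norm_cast)).differentiableAt
  have h1 : ∀ v, fderiv ℝ (fun y => ψ y • w) y v = (fderiv ℝ ψ y v) • w := by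
    intro v
    rw [fderiv_smul_const hdiff w]
    simp
  unfold dv
  simp only [h1]
  have h2 : w = ∑ j : Fin d, w j • EuclideanSpace.single j (1 : ℝ) := by
    ext i
    simp [Finset.sum_apply, Pi.single_apply]
  conv_rhs => rw [h2, map_sum]
  refine Finset.sum_congr rfl fun j _ => ?_
  rw [map_smul]
  simp [mul_comm]

/-- the final algebra -/
lemma final_alg {a I s Cs cn A3 A6 A7 P0 P1 η : ℝ} (hcn : 0 < cn) (hCs : 0 < Cs)
    (hs : 0 < s) (hA7 : A7 = Cs * (A6 / cn + A3 + 2)) (hs7 : A7 * s ≤ 1 / 2) (ha : 0 < a)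
    (h0 : cn * P0 ≤ I + A6 * (s * a)) (h1 : P1 ≤ A3 * (s * a)) (hη : η ≤ 2 * (s * a))
    (h : a ≤ Cs * (P0 + P1 + η)) : a ≤ 2 * (Cs / cn) * I := by
  have h2 : P0 ≤ (I + A6 * (s * a)) / cn := by
    rw [le_div_iff₀ hcn]; linarith
  have h3 : a ≤ Cs * ((I + A6 * (s * a)) / cn + A3 * (s * a) + 2 * (s * a)) :=
    h.trans (mul_le_mul_of_nonneg_left (by linarith) hCs.le)
  have h4 : Cs * ((I + A6 * (s * a)) / cn + A3 * (s * a) + 2 * (s * a)) =
      (Cs / cn) * I + (A7 * s) * a := by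
    rw [hA7]; field_simp; ring
  rw [h4] at h3
  have h5 : (A7 * s) * a ≤ 1 / 2 * a := mul_le_mul_of_nonneg_right hs7 ha.le
  linarith only [h3, h5]

end SMm

open _root_.TG.SMm

/-- MODULE SM -/
theorem stmtSM (hSHB : StmtSHB) (hNC : StmtNC) (hZ : StmtZ) (_hPF : StmtPF) : StmtSM := by
  intro d V E _ _ _ _ _ _ L n0 T hd hn0 hL hT M c0 ε hε hε1 b hb R0 hR0
  obtain ⟨J, hSJ⟩ := hSHB d V E L n0 T hd hn0 hL hT
  obtain ⟨Cs, κs, hCs, hκs, hS⟩ := hSJ M c0 ε hε hε1 b hb R0 hR0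
  set J' : ℕ := J + 3 with hJ'
  obtain ⟨cn, Cn, hcn, hCn, hN⟩ := hNC d hd n0 J' 2 le_rfl
  obtain ⟨CZ, hCZ, hz⟩ := hZ d (by omega) M c0 ε hε hε1 b hb
  obtain ⟨CM, hCM, hm⟩ := stmtMA hZ d (by omega) M c0 ε hε hε1 b hb
  obtain ⟨K, hK, hk⟩ := consts d J' hR0
  obtain ⟨Lp, hLp, hlip⟩ := st_lip
  have hK0 : 0 < K := by linarith
  -- constants
  set A1 : ℝ := CM * K + 1 + CZ * (K + K + 8 * K) with hA1
  set A2 : ℝ := 3 * A1 + 2 * Cs with hA2
  set A3 : ℝ := A2 * (K + Cn) / cn with hA3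
  set A4 : ℝ := 4 * CZ * K + 2 * Cs with hA4
  set A5 : ℝ := Lp + CZ * (K + Lp * K + 4 * K * K) with hA5
  set A6 : ℝ := A5 + 2 * Cs * K + Cn * A4 with hA6
  set A7 : ℝ := Cs * (A6 / cn + A3 + 2) with hA7
  have pA1 : 0 < A1 := by positivity
  have pA2 : 0 < A2 := by positivity
  have pA3 : 0 < A3 := by positivity
  have pA4 : 0 < A4 := by positivity
  have pA5 : 0 < A5 := by positivity
  have pA6 : 0 < A6 := by positivity
  have pA7 : 0 < A7 := by (clear * - hCs hLp hCZ hK hCn hcn hCM; positivity)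
  set s : ℝ := min 1 (min (Real.sqrt κs) (1 / (2 * A7))) with hs
  have hs0 : 0 < s := lt_min one_pos (lt_min (Real.sqrt_pos.2 hκs) (by (clear * - hCs hLp hCZ hK hCn hcn hCM; positivity)))
  have hs1 : s ≤ 1 := min_le_left _ _
  have hs2 : s ≤ Real.sqrt κs := (min_le_right _ _).trans (min_le_left _ _)
  have hs3 : s ≤ 1 / (2 * A7) := (min_le_right _ _).trans (min_le_right _ _)
  have hs7 : A7 * s ≤ 1 / 2 := by
    calc A7 * s ≤ A7 * (1 / (2 * A7)) := mul_le_mul_of_nonneg_left hs3 pA7.le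
      _ = 1 / 2 := by field_simp
  have hsκ : s ^ 2 ≤ κs := by
    calc s ^ 2 ≤ Real.sqrt κs ^ 2 := pow_le_pow_left₀ hs0.le hs2 2
      _ = κs := Real.sq_sqrt hκs.le
  refine ⟨2 * (Cs / cn), s ^ 2, by positivity, by (clear * - hκs hCs hLp hCZ hK hCn hcn hCM; positivity), ?_⟩
  intro R hR n u hu e he ν c hν hc hflat x a hx hxR ha haJ hbD hmabD
  -- abbreviations
  have hlev : lev ((1 / 2 : ℝ) ^ n) n = 1 := by
    unfold lev; rw [← mul_pow]; norm_num
  have hfc : Continuous (fo L u) := A0.fo_cont L hu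
  have hfs : HasCompactSupport (fo L u) := A0.fo_cs L hu
  obtain ⟨Dv, hDv⟩ : ∃ v, v = DD b ε R ((1 / 2) ^ n) (fo L u) n 0 e := ⟨_, rfl⟩
  obtain ⟨av, hav⟩ : ∃ v, v = ma b ε R0 ((1 / 2) ^ n) (fo L u) n 0 := ⟨_, rfl⟩
  obtain ⟨bv, hbv⟩ : ∃ v, v = bb R0 ((1 / 2) ^ n) (fo L u) n 0 e ν c := ⟨_, rfl⟩
  have hbDv : bD b ε R0 R ((1 / 2) ^ n) (fo L u) n 0 e ν c = max 0 bv + Dv := by
    rw [hDv, hbv]; rfl
  have hDv0 : 0 ≤ Dv := by
    have := MA.DD_ge b ε R (n := n) (fo L u) 0 he (Nat.zero_le (n + 1))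
    rw [Finset.range_zero, Finset.sum_empty] at this
    rw [hDv]; exact this
  have hav' : av = ∫ y in ball (0 : Sp d) R0, ‖fl b ε ((1 / 2) ^ n) (fo L u) (n - 1) y‖ := by
    rw [hav]; unfold ma; rw [hlev]; simp
  have hav0 : 0 ≤ av := by
    rw [hav']; exact integral_nonneg fun _ => norm_nonneg _
  have hbv' : bv = ∫ y, ⟪fo L u y, e⟫_ℝ * (zR R0 y * ht ν c y ^ 2) := by
    rw [hbv]; unfold bb; rw [hlev]; simp
  obtain ⟨k1, k2, k3, k4, k56⟩ := hk ν c hν hc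
  obtain ⟨k5, k6, k7⟩ := k56 x
  have env : Env (fun y => ⟪fo L u y, e⟫_ℝ) ν c R0 R K CZ CM Dv av bv := by
    refine ⟨by fun_prop, ?_, hν, hc, hR0, hR, hK, hCZ, hCM, hDv0, hav0, hbv', ?_, ?_, k1, k2, k3, k4⟩
    · exact hfs.mono (fun y hy => by
        simp only [Function.mem_support] at hy ⊢
        intro h; apply hy; rw [h, inner_zero_left])
    · intro H N hN hH hH0 hHs
      have h1 := hz E (fo L u) hfc hfs R (by linarith) n e he 0 (fun y => (1 / N) * H y)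
        (contDiff_const.mul hH.smooth) (fun y => mul_nonneg (by positivity) (hH0 y))
        (fun y => by
          have := hH.norm_le y
          rw [Real.norm_eq_abs] at this
          have h2 := (le_abs_self (H y)).trans this
          rw [one_div, inv_mul_le_iff₀ hN, mul_one]; exact h2)
        (fun y => by
          have := (hH.const_mul (1 / N)).bd 2 le_rfl y
          refine this.trans (le_of_eq ?_)
          rw [abs_of_pos (by positivity)]; field_simp)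
        (fun y hy => by
          rw [sub_zero] at hy
          simp only [hHs y hy, mul_zero])
      have h2 : ∫ y, ⟪fo L u y, e⟫_ℝ * ((1 / N) * H y) =
          (1 / N) * ∫ y, ⟪fo L u y, e⟫_ℝ * H y := by
        rw [← integral_const_mul]
        refine integral_congr_ae (Eventually.of_forall fun y => ?_)
        simp only []
        ring
      rw [h2, ← hDv] at h1
      have h3 : N * (-CZ * Dv) ≤ N * ((1 / N) * ∫ y, ⟪fo L u y, e⟫_ℝ * H y) :=
        mul_le_mul_of_nonneg_left h1 hN.le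
      have h4 : N * ((1 / N) * ∫ y, ⟪fo L u y, e⟫_ℝ * H y) = ∫ y, ⟪fo L u y, e⟫_ℝ * H y := by
        field_simp
      rw [h4] at h3
      linarith
    · intro H N hN hH hHs
      have hm1 := (hm E (fo L u) hfc hfs R (by linarith) n e he 0 (ball 0 R0)
        measurableSet_ball).1 (fun y => (1 / N) * H y)
        (contDiff_const.mul hH.smooth)
        (fun y => by
          have := hH.norm_le y
          rw [Real.norm_eq_abs] at this
          rw [abs_mul, abs_of_pos (by positivity : 0 < 1 / N), one_div, inv_mul_le_iff₀ hN, mul_one]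
          exact this)
        (fun y => by
          have := (hH.const_mul (1 / N)).bd 2 le_rfl y
          refine this.trans (le_of_eq ?_)
          rw [abs_of_pos (by positivity)]; field_simp)
        (fun y hy => by
          rw [sub_zero] at hy
          simp only [hHs y (by linarith only [hR, hy]), mul_zero])
        (fun y z hy hzy => by
          have h1 : H y ≠ 0 := fun h => hy (by simp only [h, mul_zero])
          have h2 : ‖y‖ < R0 - 1 := by
            by_contra h3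
            exact h1 (hHs y (by linarith only [h3]))
          rw [mem_ball_zero_iff]
          have := norm_le_norm_add_norm_sub' z y
          linarith only [hzy, h2, this])
      have h2 : ∫ y, ⟪fo L u y, e⟫_ℝ * ((1 / N) * H y) =
          (1 / N) * ∫ y, ⟪fo L u y, e⟫_ℝ * H y := by
        rw [← integral_const_mul]
        refine integral_congr_ae (Eventually.of_forall fun y => ?_)
        simp only []
        ring
      rw [h2, ← hDv, ← hav', abs_mul, abs_of_pos (by positivity : 0 < 1 / N)] at hm1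
      have h3 : N * ((1 / N) * |∫ y, ⟪fo L u y, e⟫_ℝ * H y|) ≤ N * (CM * (av + Dv)) :=
        mul_le_mul_of_nonneg_left hm1 hN.le
      have h4 : N * ((1 / N) * |∫ y, ⟪fo L u y, e⟫_ℝ * H y|) = |∫ y, ⟪fo L u y, e⟫_ℝ * H y| := by
        field_simp
      rw [h4] at h3
      linarith only [h3]
  -- sizes
  rw [hbDv] at hbD
  rw [← hav, hbDv] at hmabD
  have hmx : 0 ≤ max 0 bv := le_max_left _ _
  have hsa : 0 < s * a := by (clear * - hκs hCs hLp hCZ hK hCn hcn hCM ha; positivity)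
  have hs2a : s ^ 2 * a ≤ s * a := by
    have : s ^ 2 ≤ s := by nlinarith only [hs0, hs1]
    exact mul_le_mul_of_nonneg_right this ha.le
  have hbs : max 0 bv + Dv ≤ s * a := hbD.trans hs2a
  have hDs : Dv ≤ s * a := by linarith only [hbD, hmx, hs2a]
  have hsaa : s * a ≤ a := by nlinarith only [hs2a, hs0]
  obtain ⟨η, hη⟩ : ∃ η, η = (max 0 bv + Dv) + Real.sqrt (av * Dv) := ⟨_, rfl⟩
  have hηs : η ≤ 2 * (s * a) := by
    have h1 : Real.sqrt (av * Dv) ≤ s * a := by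
      rw [Real.sqrt_le_left hsa.le]
      calc av * Dv ≤ av * (max 0 bv + Dv) := mul_le_mul_of_nonneg_left (by linarith only [hmx]) hav0
        _ ≤ s ^ 2 * a ^ 2 := hmabD
        _ = (s * a) ^ 2 := by ring
    linarith only [hbD, hs2a, hη, h1]
  have hη0 : 0 ≤ η := by
    rw [hη]; have := Real.sqrt_nonneg (av * Dv); linarith only [hDv0, hmx, this]
  -- the sheet lemma
  have hflat' : Flat b ε R0 R κs (fo L u) n e ν c := by
    obtain ⟨f1, f2, f3⟩ := hflat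
    refine ⟨f1, f2.trans (mul_le_mul_of_nonneg_right hsκ f1.le),
      f3.trans (mul_le_mul_of_nonneg_right hsκ (sq_nonneg _))⟩
  obtain ⟨l0, l1, hl0, hl1, hl1t, hT1, hT2⟩ := hS R hR n u hu e he ν c hν hc hflat' η
    (by rw [hη, hbDv, hav, hDv])
  obtain ⟨Jsm, Jpoly⟩ := JJ_poly (by omega : 1 ≤ d) n0 hu ν (c • ν) (r := 1) one_pos
  -- cylinders
  have cylx : ∀ {ψ : Sp d → ℝ}, (∀ y, ψ y = ψ (tang ν y)) →
      (∀ y, ψ y ≠ 0 → ‖tang ν (y - x)‖ ≤ 2) → Cyl ν (R0 / 2) ψ := by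
    intro ψ h1 h2
    refine ⟨h1, fun y hy => ?_⟩
    have h3 := h2 y hy
    have h5 : tang ν y = tang ν (y - x) + tang ν x := by rw [tang_sub]; abel
    rw [h5]
    refine (norm_add_le _ _).trans ?_
    have := tang_le hν x
    linarith only [hR0, hxR, h3, this]
  have zc1 : ∀ y, zR 1 (tang ν (y - x)) = zR 1 (tang ν (tang ν y - x)) := by
    intro y; rw [tang_sub, tang_sub, tang_tang hν]
  have zc2 : ∀ y, zR 1 (tang ν (y - x)) ≠ 0 → ‖tang ν (y - x)‖ ≤ 2 := by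
    intro y hy
    have := sT_ne hy
    linarith only [this]
  -- tests of l1
  have T1 : ∀ (ψ : Sp d → ℝ) (N : ℝ), 0 < N → BF J' N ψ → (∀ y, ψ y = ψ (tang ν y)) →
      (∀ y, ψ y ≠ 0 → ‖tang ν (y - x)‖ ≤ 2) → ∀ w : Sp d, ‖w‖ = 1 → ⟪ν, w⟫_ℝ = 0 →
      |plInt ν c (fun y => ⟪l1 (JJ n0 ν (c • ν) 1 u y), w⟫_ℝ * ψ y)| ≤ A2 * N * (s * a) := by
    intro ψ N hN0 hψ h1 h2 w hw hνw
    have cy := cylx h1 h2
    have cyY : Cyl ν (R0 / 2) (fun y => ψ y • w) := by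
      refine ⟨fun y => by rw [← h1 y], fun y hy => cy.supp y fun h => hy (by simp only [h, zero_smul])⟩
    have cy0 : Cyl ν (R0 / 2) (fun _ : Sp d => (0 : ℝ)) := ⟨fun _ => rfl, fun y hy => absurd rfl hy⟩
    have hY := (hψ.smul_const w hw.le).le (J' := J) (by omega)
    have h0 : BF J N (fun _ : Sp d => (0 : ℝ)) := (BF.const (0 : ℝ)).mono (by rw [abs_zero]; exact hN0.le)
    have h3 := hT1 (fun _ => 0) (fun y => ψ y • w) N h0.tfn hY.tfn cy0 cyY
      (fun y => by rw [inner_smul_right, hνw, mul_zero])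
    have hdv : ∀ y, dv (fun y => ψ y • w) y = fderiv ℝ ψ y w := fun y =>
      dv_smul (J := 2) (hψ.le (by omega)) w y
    have hG : BF 2 N (fun y => fderiv ℝ ψ y w) := (hψ.le (J' := 3) (by omega)).fderiv_apply w hw.le
    have hGs : ∀ y, fderiv ℝ ψ y w ≠ 0 → ‖tang ν y‖ ≤ R0 / 2 := by
      intro y hy
      by_contra hlt
      push Not at hlt
      apply hy
      have hopen : ∀ᶠ z in 𝓝 y, ψ z = 0 := by
        have hc1 : Continuous fun z => ‖tang ν z‖ := by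
          have : (fun z => ‖tang ν z‖) = fun z => ‖tg ν z‖ := by funext z; rw [tg_apply]
          rw [this]; fun_prop
        filter_upwards [hc1.continuousAt.eventually (lt_mem_nhds hlt)] with z hz
        by_contra h
        have := cy.supp z h
        linarith only [hz, this]
      have h4 : ψ =ᶠ[𝓝 y] fun _ => (0 : ℝ) := hopen
      rw [h4.fderiv_eq]
      simp
    set δ : ℝ := s * a / (av + a) with hδ
    have hava : 0 < av + a := by linarith only [ha, hav0]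
    have hδ0 : 0 < δ := by (clear * - hκs hCs hLp hCZ hK hCn hcn hCM ha hav0; positivity)
    have hδ1 : δ ≤ 1 := by
      rw [hδ, div_le_one hava]; linarith only [hav0, hsaa]
    have h5 := env.L1 hN0 hG hGs hδ0 hδ1
    have h6 : δ * (av + Dv) + (max 0 bv + Dv) / δ ≤ 3 * (s * a) := by
      have h7 : δ * (av + Dv) ≤ s * a := by
        calc δ * (av + Dv) ≤ δ * (av + a) := mul_le_mul_of_nonneg_left (by linarith only [hbD, hmx, hs2a, hsaa]) hδ0.le
          _ = s * a := by rw [hδ]; field_simp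
      have h8 : (max 0 bv + Dv) / δ ≤ 2 * (s * a) := by
        rw [div_le_iff₀ hδ0]
        have h9 : 2 * (s * a) * δ = 2 * (s ^ 2 * a ^ 2) / (av + a) := by
          rw [hδ]; field_simp
        rw [h9, le_div_iff₀ hava]
        have h10 : (max 0 bv + Dv) * a ≤ s ^ 2 * a * a := mul_le_mul_of_nonneg_right hbD ha.le
        linarith only [hmabD, h10]
      linarith only [h7, h8]
    have h7 : |∫ y, ⟪fo L u y, e⟫_ℝ * (cu1 4 (ht ν c y) * (ht ν c y * fderiv ℝ ψ y w))| ≤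
        3 * A1 * N * (s * a) := by
      refine h5.trans ?_
      rw [← hA1]
      calc A1 * N * (δ * (av + Dv) + (max 0 bv + Dv) / δ) ≤ A1 * N * (3 * (s * a)) :=
            mul_le_mul_of_nonneg_left h6 (by (clear * - hCM hK hCZ hN0; positivity))
        _ = _ := by ring
    have e1 : (∫ y, ⟪fo L u y, e⟫_ℝ * (cu1 4 (ht ν c y) *
        ((0 : ℝ) - ht ν c y * dv (fun y => ψ y • w) y))) =
        -∫ y, ⟪fo L u y, e⟫_ℝ * (cu1 4 (ht ν c y) * (ht ν c y * fderiv ℝ ψ y w)) := by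
      rw [← integral_neg]
      refine integral_congr_ae (Eventually.of_forall fun y => ?_)
      simp only [hdv]
      ring
    have e2 : (fun y => l0 (JJ n0 ν (c • ν) 1 u y) * (0 : ℝ) +
        ⟪l1 (JJ n0 ν (c • ν) 1 u y), ψ y • w⟫_ℝ) =
        fun y => ⟪l1 (JJ n0 ν (c • ν) 1 u y), w⟫_ℝ * ψ y := by
      funext y
      rw [inner_smul_right]; ring
    rw [e1, e2] at h3
    have h8 : Cs * N * η ≤ Cs * N * (2 * (s * a)) := mul_le_mul_of_nonneg_left hηs (by positivity)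
    rw [abs_le] at h3 h7 ⊢
    have e4 : A2 * N * (s * a) = 3 * A1 * N * (s * a) + Cs * N * (2 * (s * a)) := by
      rw [hA2]; ring
    rw [e4]
    obtain ⟨h31, h32⟩ := h3
    obtain ⟨h71, h72⟩ := h7
    constructor <;> (first | linarith only [h8, h32, h72] | linarith only [h8, h31, h71] | linarith)
  -- the pointwise bound of l1
  have P1 : ‖l1 (JJ n0 ν (c • ν) 1 u x)‖ ≤ A3 * (s * a) := by
    by_cases hz0 : l1 (JJ n0 ν (c • ν) 1 u x) = 0
    · rw [hz0, norm_zero]; (clear * - hCM hK hCZ hCs hCn hcn hκs hLp ha; positivity)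
    · set v1 := l1 (JJ n0 ν (c • ν) 1 u x) with hv1
      have hv0 : 0 < ‖v1‖ := norm_pos_iff.2 hz0
      set w : Sp d := (1 / ‖v1‖) • v1 with hw
      have hw1 : ‖w‖ = 1 := by
        rw [hw, norm_smul, Real.norm_of_nonneg (by positivity)]; field_simp
      have hνw : ⟪ν, w⟫_ℝ = 0 := by
        rw [hw, inner_smul_right, hv1, hl1t, mul_zero]
      obtain ⟨Psm, Ppoly⟩ := comp_poly (((innerSL ℝ w).comp l1)) Jsm Jpoly
      have eP : (fun y => ((innerSL ℝ w).comp l1) (JJ n0 ν (c • ν) 1 u y)) =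
          fun y => ⟪l1 (JJ n0 ν (c • ν) 1 u y), w⟫_ℝ := by
        funext y
        simp only [ContinuousLinearMap.comp_apply, innerSL_apply_apply]
        exact real_inner_comm _ _
      rw [eP] at Psm Ppoly
      have h1 := hN ν x c hν (fun y => ⟪l1 (JJ n0 ν (c • ν) 1 u y), w⟫_ℝ) Psm Ppoly (A2 * 1 * (s * a))
        (by (clear * - hCM hK hCZ hCs hκs hLp hCn hcn ha; positivity))
        (fun ψ hψ hψ1 hψ2 hψ0 => by
          have := T1 ψ 1 one_pos (bf_of hψ) hψ1 hψ2 w hw1 hνw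
          exact (abs_le.1 this).1)
        0 1 x hx (by rw [sub_self, show tang ν (0 : Sp d) = 0 by simp [tang], norm_zero]; norm_num)
      have e3 : (fun y => ⟪l1 (JJ n0 ν (c • ν) 1 u y), w⟫_ℝ * (zR (2 - 1) (tang ν (y - x)) *
          (⟪(0 : Sp d), tang ν (y - x)⟫_ℝ + 1) ^ 2)) =
          fun y => ⟪l1 (JJ n0 ν (c • ν) 1 u y), w⟫_ℝ * zR 1 (tang ν (y - x)) := by
        funext y
        rw [inner_zero_left]; norm_num
      rw [e3] at h1
      have h2 := T1 (fun y => zR 1 (tang ν (y - x))) K hK0 k6 zc1 zc2 w hw1 hνw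
      have h3 : ‖tang ν (0 : Sp d)‖ ^ 2 + (1 : ℝ) ^ 2 = 1 := by simp [tang]
      rw [h3] at h1
      have h4 : ⟪l1 (JJ n0 ν (c • ν) 1 u x), w⟫_ℝ = ‖v1‖ := by
        rw [← hv1, hw, inner_smul_right, real_inner_self_eq_norm_sq]; field_simp
      rw [h4, abs_of_pos hv0] at h1
      have h5 := (abs_le.1 h2).2
      rw [hA3]
      have e5 : A2 * (K + Cn) * (s * a) = A2 * K * (s * a) + Cn * (A2 * 1 * (s * a)) * 1 := by ring
      have h6 : cn * ‖v1‖ ≤ A2 * (K + Cn) * (s * a) := by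
        rw [e5]; linarith only [h1, h5]
      rw [div_mul_eq_mul_div, le_div_iff₀ hcn]
      linarith only [h1, h5]
  -- the tests of l0
  have T0 : ∀ (ψ : Sp d → ℝ) (N : ℝ), 0 < N → BF J' N ψ → (∀ y, ψ y = ψ (tang ν y)) →
      (∀ y, ψ y ≠ 0 → ‖tang ν (y - x)‖ ≤ 2) →
      |(∫ y, ⟪fo L u y, e⟫_ℝ * (cu1 4 (ht ν c y) * ψ y)) -
        plInt ν c (fun y => l0 (JJ n0 ν (c • ν) 1 u y) * ψ y)| ≤ Cs * N * (2 * (s * a)) := by
    intro ψ N hN0 hψ h1 h2
    have cy := cylx h1 h2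
    have cy0 : Cyl ν (R0 / 2) (fun _ : Sp d => (0 : Sp d)) := ⟨fun _ => rfl, fun y hy => absurd rfl hy⟩
    have h0 : BF J N (fun _ : Sp d => (0 : Sp d)) := by
      have := ((BF.const (J := J) (G := Sp d) (0 : ℝ)).mono
        (by rw [abs_zero]; exact hN0.le : |(0 : ℝ)| ≤ N)).smul_const (0 : Sp d) (by simp)
      simpa using this
    have h3 := hT1 ψ (fun _ => 0) N (hψ.le (by omega)).tfn h0.tfn cy cy0
      (fun y => inner_zero_right _)
    have hdv : ∀ y, dv (fun _ : Sp d => (0 : Sp d)) y = 0 := by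
      intro y; simp [dv]
    have e1 : (∫ y, ⟪fo L u y, e⟫_ℝ * (cu1 4 (ht ν c y) *
        (ψ y - ht ν c y * dv (fun _ : Sp d => (0 : Sp d)) y))) =
        ∫ y, ⟪fo L u y, e⟫_ℝ * (cu1 4 (ht ν c y) * ψ y) := by
      refine integral_congr_ae (Eventually.of_forall fun y => ?_)
      simp only [hdv]
      ring
    have e2 : (fun y => l0 (JJ n0 ν (c • ν) 1 u y) * ψ y +
        ⟪l1 (JJ n0 ν (c • ν) 1 u y), (0 : Sp d)⟫_ℝ) =
        fun y => l0 (JJ n0 ν (c • ν) 1 u y) * ψ y := by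
      funext y
      rw [inner_zero_right, add_zero]
    rw [e1, e2] at h3
    exact h3.trans (mul_le_mul_of_nonneg_left hηs (by positivity))
  -- the pointwise bound of l0
  have P0 : cn * |l0 (JJ n0 ν (c • ν) 1 u x)| ≤
      (∫ y, ⟪fo L u y, e⟫_ℝ * zR 1 (y - x)) + A6 * (s * a) := by
    obtain ⟨Psm, Ppoly⟩ := comp_poly l0 Jsm Jpoly
    have h1 := hN ν x c hν (fun y => l0 (JJ n0 ν (c • ν) 1 u y)) Psm Ppoly (A4 * (s * a))
      (by (clear * - hCZ hK hCs hκs hLp hCn hcn hCM ha; positivity))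
      (fun ψ hψ hψ1 hψ2 hψ0 => by
        have t1 := (abs_le.1 (T0 ψ 1 one_pos (bf_of hψ) hψ1 hψ2)).2
        have t2 := env.L2 one_pos ((bf_of hψ).le (by omega)) hψ0 (cylx hψ1 hψ2).supp
        have t3 : CZ * (4 * K * 1) * Dv ≤ CZ * (4 * K * 1) * (s * a) :=
          mul_le_mul_of_nonneg_left hDs (by positivity)
        rw [hA4]
        linarith only [t1, t2, t3])
      0 1 x hx (by rw [sub_self, show tang ν (0 : Sp d) = 0 by simp [tang], norm_zero]; norm_num)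
    have e3 : (fun y => l0 (JJ n0 ν (c • ν) 1 u y) * (zR (2 - 1) (tang ν (y - x)) *
        (⟪(0 : Sp d), tang ν (y - x)⟫_ℝ + 1) ^ 2)) =
        fun y => l0 (JJ n0 ν (c • ν) 1 u y) * zR 1 (tang ν (y - x)) := by
      funext y
      rw [inner_zero_left]; norm_num
    rw [e3] at h1
    have h3 : ‖tang ν (0 : Sp d)‖ ^ 2 + (1 : ℝ) ^ 2 = 1 := by simp [tang]
    rw [h3] at h1
    have t1 := (abs_le.1 (T0 (fun y => zR 1 (tang ν (y - x))) K hK0 k6 zc1 zc2)).1
    have t2 := env.L3 hLp hlip hx hxR k5 k7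
    rw [← hA5] at t2
    have t3 : A5 * (max 0 bv + Dv) ≤ A5 * (s * a) := mul_le_mul_of_nonneg_left hbs pA5.le
    rw [hA6]
    linarith only [h1, t1, t2, t3]
  -- conclusion
  have hx0 : ‖x‖ ≤ R0 := by linarith only [hR0, hxR]
  exact final_alg hcn hCs hs0 hA7 hs7 ha P0 P1 hηs (haJ.trans (hT2 x hx hx0))

end

end TG


end

section

/-!
# Tools for the modules W3, W4, W5, WB6: Newton cells   (helper64)

(1) monotonicity of Str, MG, WNw and WOK; (2) frame facts; (3) lower bound of the main contribution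
of a Newton cell; (4) fluxes between two Newton cells; (5) fluxes towards cells which are not near.
-/

open MeasureTheory Metric Set TrI Filter
open scoped InnerProductSpace ContDiff Topology

set_option linter.unusedSectionVars false

namespace TG

noncomputable section

namespace WTc

variable {d : ℕ}

/-! ## Monotonicity -/

lemma ZP_mono {R R' D D' : ℝ} {m : Sp d → ℝ} (h : ZP R D m) (hR : R' ≤ R) (hD : D ≤ D') :
    ZP R' D' m := fun H h1 h2 h3 h4 h5 =>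
  (neg_le_neg hD).trans (h H h1 h2 h3 h4 fun y hy => h5 y (hR.trans hy))

lemma MG_mono {K γ R R' a D : ℝ} {m : Sp d → ℝ} (h : MG K γ R a D m) (hR : R' ≤ R) :
    MG K γ R' a D m := fun ρ h1 h2 => h ρ h1 (h2.trans hR)

lemma Str_mono {J rm : ℕ} {R1 Rs Rs' e' e'' a : ℝ} {m : Sp d → ℝ} {r : ℕ} {ν : Fin r → Sp d}
    {κ : Fin r → Sp d → ℝ} (h : Str J rm R1 Rs e' a m r ν κ) (ha : 0 ≤ a) (hR : Rs' ≤ Rs)
    (he : e' ≤ e'') : Str J rm R1 Rs' e'' a m r ν κ where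
  rle := h.rle
  n1 := h.n1
  k0 := h.k0
  kb := h.kb
  ks := fun i y hy => (h.ks i y hy).trans (by linarith)
  kt := h.kt
  est := by
    intro ζ N hζ h0
    have hN : 0 ≤ N := (norm_nonneg _).trans (hζ.bd 0 (Nat.zero_le _) 0)
    refine (h.est ζ N hζ fun y hy => h0 y (hR.trans hy)).trans ?_
    exact mul_le_mul_of_nonneg_right (mul_le_mul_of_nonneg_right he ha) hN

section W

variable {E : Type} [NormedAddCommGroup E] [InnerProductSpace ℝ E]

lemma WNw_mono {K γ R1 Rs Rs' RM RM' : ℝ} {rm : ℕ} {tol tol' : ℕ → ℝ} {W : Wld d E} {Q : Cell d}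
    (h : WNw K γ R1 Rs RM rm tol W Q) (hR : Rs' ≤ Rs) (hM : RM' ≤ RM)
    (ht : ∀ J, tol J ≤ tol' J) : WNw K γ R1 Rs' RM' rm tol' W Q := by
  obtain ⟨h0, ⟨J, r, ν, κ, h1⟩, h2⟩ := h
  exact ⟨h0, ⟨J, r, ν, κ, Str_mono h1 h0 hR (ht J)⟩, MG_mono h2 hM⟩

lemma WOK_mono {JA : ℕ} {C' R0 Rz Rz' : ℝ} {X : Prm d} {W : Wld d E}
    (h : WOK JA C' R0 Rz X W) (hR : Rz' ≤ Rz) : WOK JA C' R0 Rz' X W where
  X_eq := h.X_eq
  s0_pos := h.s0_pos
  gro := h.gro
  fc := h.fc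
  fs := h.fs
  eu := h.eu
  nu := h.nu
  ab0 := h.ab0
  D0 := h.D0
  zp := fun Q => ZP_mono (h.zp Q) hR le_rfl
  dir := fun Q Q' hQ' ζ N hζ h0 => h.dir Q Q' hQ' ζ N hζ fun y hy => h0 y (hR.trans hy)

/-- change of the radius of the Newton field -/
lemma XOK_RN {J JA : ℕ} {M c0 C' c R0 : ℝ} {X : Prm d} (h : XOK J JA M c0 C' c R0 X) {RN : ℝ}
    (hR : 1 ≤ RN) : XOK J JA M c0 C' c R0 { X with RN := RN } where
  J_ge := h.J_ge
  C'_pos := h.C'_pos
  prm := { ker := h.prm.ker, RN_ge := hR, ε_pos := h.prm.ε_pos, ε_le := h.prm.ε_le,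
           p0_pos := h.prm.p0_pos, p0_le := h.prm.p0_le, A_ge := h.prm.A_ge }
  ker := h.ker
  far := h.far
  R0_ge := h.R0_ge
  JA_ge := h.JA_ge
  JA_7 := h.JA_7

/-! ## Frame facts -/

lemma adj_lev {Q Q' : Cell d} (h : Q' ∈ adj Q) : Q'.1 = Q.1 := by
  unfold adj at h
  rw [Finset.mem_product] at h
  exact Finset.mem_singleton.mp h.1

lemma adj_symm {Q Q' : Cell d} (h : Q' ∈ adj Q) : Q ∈ adj Q' := by
  unfold adj at h ⊢
  rw [Finset.mem_product, Finset.mem_singleton, Fintype.mem_piFinset] at h ⊢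
  refine ⟨h.1.symm, fun j => ?_⟩
  have h1 := h.2 j
  rw [Finset.mem_Icc] at h1 ⊢
  constructor <;> omega

lemma mem_ns (hd : 2 ≤ d) {JA : ℕ} {C' R0 Rz : ℝ} {X : Prm d} {W : Wld d E}
    (hW : WOK JA C' R0 Rz X W) (hR0 : (d : ℝ) ≤ R0) {Q Q' : Cell d} (h : Q' ∈ adj Q) :
    Q' ∈ W.ns R0 JA Q := by
  have hd1 : (1 : ℝ) ≤ d := by exact_mod_cast (by omega : 1 ≤ d)
  have h1 := stmtNS d (by omega) W.s0 (3 * R0) hW.s0_pos (by linarith) JA Q
  obtain ⟨-, -, -, -, -, -, -, h2⟩ := h1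
  refine h2 ?_ h
  have h3 : Real.sqrt d ≤ d := by
    rw [Real.sqrt_le_left (by linarith)]
    nlinarith
  linarith

lemma gro_mu (hd : 2 ≤ d) {C' : ℝ} (hC' : 0 < C') {JA : ℕ} {R0 Rz : ℝ} {X : Prm d} {W : Wld d E}
    (hW : WOK JA C' R0 Rz X W) (Q : Cell d) : Gro C' (W.mu Q) :=
  WT.gro_muQ stmtSC hd hC' hW.gro hW.s0_pos Q

lemma v_eq (hd : 2 ≤ d) {C' : ℝ} (hC' : 0 < C') {JA : ℕ} {R0 Rz : ℝ} {X : Prm d} {W : Wld d E}
    (hW : WOK JA C' R0 Rz X W) (Q : Cell d) : W.v Q = vv (W.mu Q) 1 0 := by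
  have h := WT.vv_frame stmtSC hd hC' hW.gro hW.s0_pos Q one_pos 0
  rw [mul_one, smul_zero, add_zero] at h
  exact h.symm

lemma v_nonneg (W : Wld d E) (Q : Cell d) : 0 ≤ W.v Q := Real.sqrt_nonneg _

lemma w_nonneg {W : Wld d E} (h : 0 < W.s0) (Q : Cell d) : 0 ≤ W.w Q := by
  have h1 : 0 < lev W.s0 Q.1 := by unfold lev; positivity
  unfold Wld.w cw
  positivity

lemma m_cont {JA : ℕ} {C' R0 Rz : ℝ} {X : Prm d} {W : Wld d E} (hW : WOK JA C' R0 Rz X W)
    (Q : Cell d) : Continuous (W.m Q) := W1m.mQ_cont hW.fc _ _ _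

/-! ## Lower bound of the main contribution of a Newton cell -/

/-- the gain in every direction is nonnegative -/
lemma Hn_nonneg {J : ℕ} {M C' ε p0 A c : ℝ} (hF : FarK d J M C' ε p0 A c) {β : Sp d → ℝ}
    (hβ : Kit J M β) {μ : Measure (Sp d)} (hμ : Gro C' μ) {n : Sp d} (hn : ‖n‖ = 1) (y : Sp d) :
    0 ≤ Hn β ε p0 A μ n 1 y :=
  (mul_nonneg hF.c_pos.le (UUm.XX_nonneg hβ ε μ n y)).trans (hF.gain β hβ μ hμ n hn y)

/-- the main contribution of a Newton cell -/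
theorem gam_low (hd : 2 ≤ d) {J JA : ℕ} {M c0 C' c R0 : ℝ} {X0 : Prm d}
    (hX : XOK J JA M c0 C' c R0 X0) {K γ δ : ℝ} (hK : 0 < K) (hγ0 : 0 < γ)
    (hγ : γ ≤ 1 / (8 * d)) (hδ : 0 < δ) :
    ∃ RN0 : ℝ, 1 ≤ RN0 ∧ ∀ RN : ℝ, RN0 ≤ RN → ∃ tol : ℕ → ℝ, (∀ J, 0 < tol J) ∧
    ∀ (R1 : ℝ) (rm : ℕ), ∃ C : ℝ, 0 < C ∧
    ∀ (E : Type) [NormedAddCommGroup E] [InnerProductSpace ℝ E] (W : Wld d E) (Rz : ℝ),
      WOK JA C' R0 Rz { X0 with RN := RN } W → R1 ≤ Rz → ∀ Q : Cell d, W.kd Q = 1 →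
      WNw K γ R1 (RN + d + 3) (RN + d + 4) rm tol W Q →
      -(δ * W.v Q * W.a Q + C * W.v Q * W.D Q) ≤ W.gam Q := by
  have hd1 : (1 : ℝ) ≤ d := by exact_mod_cast (by omega : 1 ≤ d)
  have hε := hX.prm.ε_pos
  have hε4 := hX.prm.ε_le
  have hp0 := hX.prm.p0_pos
  have hA := hX.prm.A_ge
  obtain ⟨B, hB0, hfam⟩ := WTb.fam (p0 := X0.p0) hd hX.C'_pos hε (by linarith : X0.ε ≤ 1)
    (by linarith : 0 < X0.A) M
  obtain ⟨RN0, hRN0, h1⟩ := stmtB1 (stmtNN stmtPF) stmtPF d hd M c0 K γ d (δ / 2) B X0.b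
    (hX.ker.mono_order (by omega)) hK hγ0 hγ hd1 (by positivity)
  refine ⟨RN0, hRN0, fun RN hRN => ?_⟩
  obtain ⟨tol, htol, h2⟩ := h1 RN hRN
  refine ⟨tol, htol, fun R1 rm => ?_⟩
  obtain ⟨C, hC, h3⟩ := h2 R1 rm
  refine ⟨3 * C, by positivity, ?_⟩
  intro E _ _ W Rz hW hRz Q hk hN
  obtain ⟨ha, ⟨J', r, ν, κ, hS⟩, hMG⟩ := hN
  have hv := v_eq hd hX.C'_pos hW Q
  have hv0 := v_nonneg W Q
  have hgro := gro_mu hd hX.C'_pos hW Q
  have hXe := hW.X_eq
  have hkit : Kit (J + 10) M (bQ X0.b Q) := hX.ker.kit _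
  obtain ⟨f1, f2, -, -, -⟩ := hfam (bQ X0.b Q) (hkit.mono_order (by omega)) (W.mu Q) hgro
  obtain ⟨g1, -, g3⟩ := h3 (W.m Q) (W.a Q) (W.D Q) J' r ν κ (m_cont hW Q) ha (hW.D0 Q)
    (ZP_mono (hW.zp Q) hRz le_rfl) hS hMG
  have hHH := (stmtHH (stmtUB stmtTH) (stmtNN stmtPF) d hd M C' X0.ε X0.p0 X0.A hX.C'_pos hε
    (by linarith) hp0 hX.prm.p0_le hA (bQ X0.b Q) (hkit.mono_order (by omega)) (W.mu Q) hgro).1
  obtain ⟨a1, a2⟩ := g1 (fun i j x => chi x * HHm (bQ X0.b Q) X0.ε X0.p0 X0.A (W.mu Q) i j x)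
    (vv (W.mu Q) 1 0) (Real.sqrt_nonneg _) (fun i j => (f1 i j).sm) (fun i j => (f1 i j).bd)
    (fun i j => (f1 i j).vs) (fun n hn y => by
      have e : qf (fun i j x => chi x * HHm (bQ X0.b Q) X0.ε X0.p0 X0.A (W.mu Q) i j x) n y =
          chi y * Hn (bQ X0.b Q) X0.ε X0.p0 X0.A (W.mu Q) n 1 y := by
        unfold qf
        rw [← hHH n hn y, Finset.mul_sum]
        refine Finset.sum_congr rfl fun i _ => ?_
        rw [Finset.mul_sum]
        exact Finset.sum_congr rfl fun j _ => by ring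
      rw [e]
      exact mul_nonneg (PTm.chi_nonneg y) (Hn_nonneg hX.far hkit hgro hn y))
  have a3 := g3 (fun x => chi x * GG (bQ X0.b Q) X0.ε (W.mu Q) 1 x) (vv (W.mu Q) 1 0)
    (Real.sqrt_nonneg _) f2.sm f2.bd f2.vs
  rw [← hv] at a1 a2 a3
  have e : W.gam Q =
      (∫ y, W.m Q y * nt X0.b RN (fun i j x => chi x *
        HHm (bQ X0.b Q) X0.ε X0.p0 X0.A (W.mu Q) i j x) y) +
      ∫ y, W.m Q y * avk X0.b RN (fun x => chi x * GG (bQ X0.b Q) X0.ε (W.mu Q) 1 x) y := by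
    unfold Wld.gam Gam
    rw [if_neg (by rw [hk]; norm_num), if_pos hk, hXe]
    rfl
  rw [e]
  have a4 := (abs_le.1 a3).1
  linarith only [a1, a2, a4]

/-! ## Fluxes -/

/-- the flux between two Newton cells -/
theorem fct_nn (hd : 2 ≤ d) {J JA : ℕ} {M c0 C' c R0 : ℝ} {X0 : Prm d}
    (hX : XOK J JA M c0 C' c R0 X0) {RN : ℝ} (hRN : 1 ≤ RN) : ∃ C : ℝ, 0 < C ∧
    ∀ (E : Type) [NormedAddCommGroup E] [InnerProductSpace ℝ E] (W : Wld d E) (Rz : ℝ),
      WOK JA C' R0 Rz { X0 with RN := RN } W → d + 1 + RN ≤ Rz → ∀ Q : Cell d, W.kd Q = 1 →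
      ∀ Q' ∈ adj Q, W.kd Q' = 1 →
      |Fct W.X W.s0 W.μ W.f W.e W.kd W.nv Q Q'| ≤ C * W.v Q * W.D Q := by
  have hε := hX.prm.ε_pos
  have hε4 := hX.prm.ε_le
  have hA := hX.prm.A_ge
  obtain ⟨B, hB0, hfam⟩ := WTb.fam (p0 := X0.p0) hd hX.C'_pos hε (by linarith : X0.ε ≤ 1)
    (by linarith : 0 < X0.A) M
  refine ⟨2 * B1m.SB B 2 + RN ^ 2 * (d * (d * B1m.SB B 4)) + 1, ?_, ?_⟩
  · have := B1m.SB_nonneg B 2
    have := B1m.SB_nonneg B 4
    positivity
  intro E _ _ W Rz hW hRz Q hk Q' hQ' hk'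
  have hv := v_eq hd hX.C'_pos hW Q
  have hv0 := v_nonneg W Q
  have hgro := gro_mu hd hX.C'_pos hW Q
  have hXe := hW.X_eq
  have hkit : Kit (J + 10) M (bQ X0.b Q) := hX.ker.kit _
  obtain ⟨-, -, f3, f4, -⟩ := hfam (bQ X0.b Q) (hkit.mono_order (by omega)) (W.mu Q) hgro
  obtain ⟨b1, b2⟩ := WTb.fxB_tfn hd (hX.ker.mono_order (by omega)) (by linarith : 0 < RN)
    (Real.sqrt_nonneg _) (f3 (dsp Q Q')) (f4 (dsp Q Q'))
  have hns := mem_ns hd hW (by linarith [hX.R0_ge]) hQ'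
  have h1 := hW.dir Q Q' hns _ _ b1 (fun y hy => b2 y (hRz.trans hy))
  have e : Fct W.X W.s0 W.μ W.f W.e W.kd W.nv Q Q' =
      -∫ y, (mQ W.s0 W.f (W.e Q') Q y - mQ W.s0 W.f (W.e Q) Q y) *
        fxB X0.b RN chi (fun x => chi (x - dsp Q Q')) (bQ X0.b Q) X0.ε X0.p0 X0.A (W.mu Q) y := by
    unfold Fct flx
    rw [if_neg (by rw [hk]; norm_num), if_pos hk, if_neg (by rw [hk']; norm_num), if_pos hk', hXe]
    have hc : Continuous (fxB X0.b RN chi (fun x => chi (x - dsp Q Q')) (bQ X0.b Q) X0.ε X0.p0 X0.A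
        (W.mu Q)) := b1.smooth.continuous
    have hs : HasCompactSupport (fxB X0.b RN chi (fun x => chi (x - dsp Q Q')) (bQ X0.b Q) X0.ε
        X0.p0 X0.A (W.mu Q)) := by
      refine HasCompactSupport.intro (isCompact_closedBall (0 : Sp d) (d + 1 + RN)) fun x hx => ?_
      rw [mem_closedBall, dist_zero_right, not_le] at hx
      exact b2 x hx.le
    have i1 : ∀ e' : E, Integrable fun y => mQ W.s0 W.f e' Q y *
        fxB X0.b RN chi (fun x => chi (x - dsp Q Q')) (bQ X0.b Q) X0.ε X0.p0 X0.A (W.mu Q) y :=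
      fun e' => ((W1m.mQ_cont hW.fc _ _ _).mul hc).integrable_of_hasCompactSupport hs.mul_left
    simp only [sub_mul]
    rw [integral_sub (i1 _) (i1 _)]
    change (∫ y, _ * fxB X0.b RN chi (fun x => chi (x - dsp Q Q')) (bQ X0.b Q) X0.ε X0.p0 X0.A
      (W.mu Q) y) - (∫ y, _ * fxB X0.b RN chi (fun x => chi (x - dsp Q Q')) (bQ X0.b Q) X0.ε X0.p0
      X0.A (W.mu Q) y) = _
    ring
  rw [e, abs_neg]
  refine h1.trans ?_
  change vv (W.mu Q) 1 0 * _ * _ ≤ _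
  rw [← hv]
  have hD := hW.D0 Q
  have : 0 ≤ W.v Q * W.D Q := mul_nonneg hv0 hD
  linarith only [this]

/-- the flux towards a cell which is not near vanishes -/
theorem fct_far (hd : 2 ≤ d) {J JA : ℕ} {M c0 C' c R0 : ℝ} {X0 : Prm d}
    (hX : XOK J JA M c0 C' c R0 X0) {RN : ℝ} (hRN : 1 ≤ RN) : ∃ Rz0 : ℝ,
    ∀ (E : Type) [NormedAddCommGroup E] [InnerProductSpace ℝ E] [FiniteDimensional ℝ E]
      (W : Wld d E) (Rz : ℝ),
      WOK JA C' R0 Rz { X0 with RN := RN } W → Rz0 ≤ Rz → ∀ Q : Cell d,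
      ∀ Q' ∈ adj Q, ¬ W.Near Q' →
      Fct W.X W.s0 W.μ W.f W.e W.kd W.nv Q Q' = 0 := by
  obtain ⟨C, Rz0, -, h⟩ := stmtW1 (stmtNN stmtPF) (stmtUB stmtTH) (stmtNF stmtTH (stmtUB stmtTH))
    (stmtFM stmtSC (stmtSE stmtSC)) d J JA hd M c0 C' c R0 _ (XOK_RN hX hRN)
  refine ⟨Rz0, fun E _ _ _ W Rz hW hRz Q Q' hQ' hn => ?_⟩
  obtain ⟨-, -, h1, -⟩ := h E W (WOK_mono hW hRz) Q' hn
  exact (h1 Q (adj_symm hQ')).2

end W

end WTc

end

end TG


end

section

/-!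
# Module W3: near cells of type B whose near neighbours are of type B   (helper64)
-/

open MeasureTheory Metric Set TrI
open scoped InnerProductSpace ContDiff

namespace TG

noncomputable section

open Classical in
theorem stmtW3 : StmtW3 := by
  intro d J JA hd M c0 C' c R0 X0 hX K γ δ hK hγ0 hγ hδ
  obtain ⟨RN0, hRN0, h1⟩ := WTc.gam_low hd hX hK hγ0 hγ hδ
  refine ⟨RN0, hRN0, fun RN hRN => ?_⟩
  obtain ⟨tol, htol, h2⟩ := h1 RN hRN
  have hRN1 : 1 ≤ RN := hRN0.trans hRN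
  have hd0 : (0 : ℝ) ≤ d := Nat.cast_nonneg d
  obtain ⟨C2, hC2, h3⟩ := WTc.fct_nn hd hX hRN1
  obtain ⟨Rz0, h4⟩ := WTc.fct_far hd hX hRN1
  refine ⟨RN + d + 3, RN + d + 4, tol, htol, by linarith, fun R1 rm => ?_⟩
  obtain ⟨C1, hC1, h5⟩ := h2 R1 rm
  refine ⟨C1 + 3 ^ d * C2, max R1 (max (d + 1 + RN) Rz0), by positivity, ?_⟩
  intro E _ _ _ W hW Q hnear hk hN hadj
  have hv0 := WTc.v_nonneg W Q
  have hw0 := WTc.w_nonneg hW.s0_pos Q
  have hD := hW.D0 Q
  have ha := hN.a0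
  have g1 := h5 E W _ hW (le_max_left _ _) Q hk hN
  have g2 : ∀ Q' ∈ adj Q, |Fct W.X W.s0 W.μ W.f W.e W.kd W.nv Q Q'| ≤ C2 * W.v Q * W.D Q := by
    intro Q' hQ'
    by_cases hn : W.Near Q'
    · exact h3 E W _ hW ((le_max_left _ _).trans (le_max_right _ _)) Q hk Q' hQ' (hadj Q' hQ' hn)
    · rw [h4 E W _ hW ((le_max_right _ _).trans (le_max_right _ _)) Q Q' hQ' hn, abs_zero]
      positivity
  have g3 : |∑ Q' ∈ adj Q, Fct W.X W.s0 W.μ W.f W.e W.kd W.nv Q Q'| ≤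
      3 ^ d * (C2 * W.v Q * W.D Q) := by
    refine (Finset.abs_sum_le_sum_abs _ _).trans ((Finset.sum_le_sum g2).trans ?_)
    rw [Finset.sum_const, nsmul_eq_mul, CS2.adj_card]
  have hval : W.val Q = max 0 (W.gam Q) := by
    unfold Wld.val
    rw [if_neg (fun h => by rw [hk] at h; omega), if_neg (fun h => h.2 hk)]
  have hV : Vct W.X W.s0 W.μ W.f W.e W.kd W.nv Q = 0 := by
    unfold Vct
    rw [if_neg (by rw [hk]; norm_num)]
  have hnt : W.nt1 Q = W.w Q * (W.gam Q -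
      ∑ Q' ∈ adj Q, Fct W.X W.s0 W.μ W.f W.e W.kd W.nv Q Q') := by
    unfold Wld.nt1 net
    rw [hV, add_zero]
    rfl
  rw [hval, hnt]
  set g := W.gam Q with hg
  set S := ∑ Q' ∈ adj Q, Fct W.X W.s0 W.μ W.f W.e W.kd W.nv Q Q' with hS
  have h6 := (abs_le.1 g3).2
  have h7 : 0 ≤ δ * W.v Q * W.a Q := by positivity
  have h8 : 0 ≤ C1 * W.v Q * W.D Q := by positivity
  have h9 : max 0 g ≤ g - S + δ * W.v Q * W.a Q + (C1 + 3 ^ d * C2) * W.v Q * W.D Q := by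
    refine max_le ?_ ?_ <;> linarith
  have h10 := mul_le_mul_of_nonneg_left h9 hw0
  linarith

end

end TG


end

section

/-!
# MODULE W4, third part: cells of a world   (helper38)
-/

open MeasureTheory Metric Set TrI Filter
open scoped InnerProductSpace ContDiff Topology

set_option linter.unusedSectionVars false

namespace TG

noncomputable section

namespace W4m

variable {d : ℕ}

section W

variable {E : Type} [NormedAddCommGroup E] [InnerProductSpace ℝ E]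

lemma shf {J JA : ℕ} {C' R0 Rz κ : ℝ} {X : Prm d} {W : Wld d E} (hW : WOK JA C' R0 Rz X W)
    (hRz : 64 * R0 + 1 ≤ Rz) {P : Cell d} (h : WSh J R0 κ W P) :
    ShF J (64 * R0) (W.ab P) (W.er P) (W.dl P) (W.D P) (W.m P) (W.nv P) (W.sv P) where
  sh := h.sh
  bl := h.bl
  loc := h.loc
  dl0 := h.dl0
  D0 := hW.D0 P
  mc := WTc.m_cont hW P
  zp := zp_mono (hW.zp P) hRz le_rfl

/-- the world with other parameters -/
lemma wok_X {JA : ℕ} {C' R0 Rz : ℝ} {X X' : Prm d} {W : Wld d E} (hW : WOK JA C' R0 Rz X W) :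
    WOK JA C' R0 Rz X' { W with X := X' } where
  X_eq := rfl
  s0_pos := hW.s0_pos
  gro := hW.gro
  fc := hW.fc
  fs := hW.fs
  eu := hW.eu
  nu := hW.nu
  ab0 := hW.ab0
  D0 := hW.D0
  zp := hW.zp
  dir := hW.dir

lemma wsh_X {J : ℕ} {R0 κ : ℝ} {X' : Prm d} {W : Wld d E} {P : Cell d} (h : WSh J R0 κ W P) :
    WSh J R0 κ { W with X := X' } P where
  sh := h.sh
  bl := h.bl
  loc := h.loc
  dl0 := h.dl0
  small := h.small
  smalld := h.smalld

end W

open Classical in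
/-- main part of a sheet cell -/
lemma cell0 (hTA2 : StmtTA2) (hTD2 : StmtTD2) (hd : 2 ≤ d) {J JA : ℕ} {M c0 C' c R0 : ℝ}
    {X0 : Prm d} (hX : XOK J JA M c0 C' c R0 X0) : ∃ cA C : ℝ, 0 < cA ∧ 0 < C ∧
    ∀ (E : Type) [NormedAddCommGroup E] [InnerProductSpace ℝ E] (W : Wld d E) (RN Rz κ : ℝ),
      WOK JA C' R0 Rz { X0 with RN := RN } W → 64 * R0 + 1 ≤ Rz → ∀ Q : Cell d, W.Near Q →
      W.kd Q = 0 → WSh J R0 κ W Q → ∀ c1 : ℝ, 0 ≤ c1 → c1 ≤ cA → c1 ≤ 1 →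
      c1 * W.val Q ≤ W.gam Q + Vct W.X W.s0 W.μ W.f W.e W.kd W.nv Q +
        W.v Q * (C * (W.er Q + W.dl Q + W.D Q)) := by
  have hd0 : (0 : ℝ) ≤ d := Nat.cast_nonneg d
  have hA := hX.prm.A_ge
  have hR0 := hX.R0_ge
  obtain ⟨cA, C1, hcA, hC1, h1⟩ := main0 hTA2 hTD2 hd J hX.C'_pos hX.prm.ε_pos hX.prm.ε_le
    hX.far (R := 64 * R0) (by linarith)
  obtain ⟨K, hK, h2⟩ := bl_le hd (R := 64 * R0) (by linarith)
  refine ⟨cA, 2 * C1 + 1 + K, hcA, by positivity, ?_⟩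
  intro E _ _ W RN Rz κ hW hRz Q hN hk hS c1 hc0 hcA1 hc1
  have hv := WTc.v_eq hd hX.C'_pos hW Q
  have hv0 := WTc.v_nonneg W Q
  have hgro := WTc.gro_mu hd hX.C'_pos hW Q
  have hXe := hW.X_eq
  have hkit : Kit (J + 10) M (bQ X0.b Q) := hX.ker.kit _
  have hSh := shf hW hRz hS
  obtain ⟨h3, h4⟩ := h1 (bQ X0.b Q) hkit (W.mu Q) hgro _ _ _ _ _ _ _ hSh
  have h5 := h2 J _ _ _ _ _ _ _ hSh
  rw [← hv] at h3 h4
  have her := hSh.sh.ep0
  have hdl := hSh.dl0
  have hD := hSh.D0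
  have e1 : W.sg Q = W.ab Q * plInt (W.nv Q) (W.sv Q)
      (fun x => chi x * XX (bQ X0.b Q) X0.ε (W.mu Q) (W.nv Q) 1 x) := by
    unfold Wld.sg Wld.be
    rw [hXe]
  have e2 : W.gam Q = ∫ y, W.m Q y *
      (chi y * Hn (bQ X0.b Q) X0.ε X0.p0 X0.A (W.mu Q) (W.nv Q) 1 y) := by
    unfold Wld.gam Gam
    rw [if_pos hk, hXe]
    rfl
  have e3 : Vct W.X W.s0 W.μ W.f W.e W.kd W.nv Q = ∫ y, W.m Q y *
      dvT chi (bQ X0.b Q) X0.ε X0.p0 X0.A (W.mu Q) (W.nv Q) y := by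
    unfold Vct
    rw [if_pos hk, hXe]
    rfl
  have e4 : W.val Q = W.sg Q + max 0 (W.bl Q) := by
    unfold Wld.val
    rw [if_pos ⟨hN, hk⟩]
  have hsg : 0 ≤ W.sg Q := by
    rw [e1]
    exact mul_nonneg (hW.ab0 Q) (integral_nonneg fun x => mul_nonneg (PTm.chi_nonneg _)
      (UUm.XX_nonneg hkit _ _ _ _))
  have h6 : max 0 (W.bl Q) ≤ W.v Q * (W.er Q + K * W.D Q) := by
    refine max_le (mul_nonneg hv0 (by positivity)) ?_
    unfold Wld.bl
    refine mul_le_mul_of_nonneg_left ?_ hv0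
    exact (le_max_right _ _).trans h5
  rw [← e1, ← e2] at h3
  rw [← e3] at h4
  have h7 := (abs_le.1 h4).1
  have h8 : c1 * W.sg Q ≤ cA * W.sg Q := mul_le_mul_of_nonneg_right hcA1 hsg
  have h9 : c1 * max 0 (W.bl Q) ≤ 1 * max 0 (W.bl Q) :=
    mul_le_mul_of_nonneg_right hc1 (le_max_left _ _)
  rw [e4, mul_add]
  have e5 : W.v Q * ((2 * C1 + 1 + K) * (W.er Q + W.dl Q + W.D Q)) =
      C1 * W.v Q * (W.er Q + W.dl Q + W.D Q) + C1 * W.v Q * (W.er Q + W.dl Q + W.D Q) +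
      W.v Q * (W.er Q + K * W.D Q) + W.v Q * (K * W.er Q + (1 + K) * W.dl Q + W.D Q) := by ring
  have h10 : 0 ≤ W.v Q * (K * W.er Q + (1 + K) * W.dl Q + W.D Q) := by (clear * - hv0 hK her hdl hD; positivity)
  rw [e5]
  linarith

/-- flux between two sheet cells -/
lemma pair00 (hTF : StmtTF) (hWA : StmtWA) (hP1 : StmtP1) (hd : 2 ≤ d) {J JA : ℕ}
    {M c0 C' c R0 : ℝ} {X0 : Prm d} (hX : XOK J JA M c0 C' c R0 X0) (Kc : ℝ) (hKc : 1 ≤ Kc) :
    ∃ κ C Rz0 : ℝ, 0 < κ ∧ 0 < C ∧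
    ∀ (E : Type) [NormedAddCommGroup E] [InnerProductSpace ℝ E] [FiniteDimensional ℝ E]
      (W : Wld d E) (RN Rz : ℝ),
      WOK JA C' R0 Rz { X0 with RN := RN } W → Rz0 ≤ Rz → ∀ Q : Cell d, W.kd Q = 0 →
      |W.sv Q| ≤ 32 * R0 + 4 → WSh J R0 κ W Q → ∀ Q' ∈ adj Q, W.kd Q' = 0 → WSh J R0 κ W Q' →
      W.ab Q' ≤ Kc * W.ab Q → |Fct W.X W.s0 W.μ W.f W.e W.kd W.nv Q Q'| ≤
        W.v Q * (C * ((W.er Q + W.dl Q + W.D Q) + (W.er Q' + W.dl Q' + W.D Q'))) := by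
  have hd0 : (0 : ℝ) ≤ d := Nat.cast_nonneg d
  have hA := hX.prm.A_ge
  have hR0 := hX.R0_ge
  obtain ⟨Cf, hCf, h1⟩ := flux00 hTF hWA hd J (M := M) hX.C'_pos hX.prm.ε_pos hX.prm.ε_le
    hX.prm.p0_pos hX.prm.p0_le hA (R := 64 * R0) (by linarith)
  obtain ⟨CP, -, h2⟩ := hP1 d J JA hd M c0 C' c R0 X0 hX
  obtain ⟨κ, CK, Rz1, hκ, hCK, h3⟩ := h2 Kc hKc
  refine ⟨κ, Cf * (1 + CK), max Rz1 (64 * R0 + 1), hκ, by positivity, ?_⟩
  intro E _ _ _ W RN Rz hW hRz Q hk hs hQ Q' hadj hk' hQ' hab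
  have hRz1 : Rz1 ≤ Rz := (le_max_left _ _).trans hRz
  have hRz2 : 64 * R0 + 1 ≤ Rz := (le_max_right _ _).trans hRz
  have hv := WTc.v_eq hd hX.C'_pos hW Q
  have hv0 := WTc.v_nonneg W Q
  have hgro := WTc.gro_mu hd hX.C'_pos hW Q
  have hXe := hW.X_eq
  have hkit : Kit (J + 10) M (bQ X0.b Q) := hX.ker.kit _
  have hSh := shf hW hRz2 hQ
  have hSh' := shf hW hRz2 hQ'
  have her := hSh.sh.ep0
  have hdl := hSh.dl0
  have hD := hSh.D0
  have her' := hSh'.sh.ep0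
  have hdl' := hSh'.dl0
  have hD' := hSh'.D0
  have hns := WTc.mem_ns hd hW (by linarith) hadj
  obtain ⟨-, -, -, σ, hσ, htilt⟩ := h3 E { W with X := X0 } (wok_X (WTc.WOK_mono hW hRz1)) Q hs
    (wsh_X hQ) Q' hns (wsh_X hQ') hab 0 (by rw [add_zero]; exact WTc.adj_lev hadj)
  change W.ab Q * ‖W.nv Q - σ • W.nv Q'‖ ≤
    CK * (W.er Q + W.er Q' + W.dl Q + W.dl Q' + W.D Q + W.D Q') at htilt
  have hn' : ‖σ • W.nv Q'‖ = 1 := by
    rw [norm_smul, hSh'.sh.n1]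
    rcases hσ with rfl | rfl <;> simp
  have hT : 0 ≤ CK * (W.er Q + W.er Q' + W.dl Q + W.dl Q' + W.D Q + W.D Q') := by (clear * - hCK her her' hdl hdl' hD hD'; positivity)
  have h4 := h1 (bQ X0.b Q) hkit (W.mu Q) hgro _ _ _ _ _ _
    (mQ W.s0 W.f (W.e Q') Q) _ (σ • W.nv Q') _ (dsp Q Q') hSh (W1m.mQ_cont hW.fc _ _ _) hn' hT
    htilt (fun ζ N hζ h0 => hW.dir Q Q' hns ζ N hζ fun y hy => h0 y (by linarith))
  have e1 : Fct W.X W.s0 W.μ W.f W.e W.kd W.nv Q Q' =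
      (∫ y, W.m Q y * fxA chi (fun x => chi (x - dsp Q Q')) (bQ X0.b Q) X0.ε X0.p0 X0.A (W.mu Q)
        (W.nv Q) y) - ∫ y, mQ W.s0 W.f (W.e Q') Q y *
        fxA chi (fun x => chi (x - dsp Q Q')) (bQ X0.b Q) X0.ε X0.p0 X0.A (W.mu Q)
          (σ • W.nv Q') y := by
    simp only [WT.fxA_sign _ _ _ _ _ _ _ _ _ hσ]
    unfold Fct flx
    rw [if_pos hk, if_pos hk', hXe]
    rfl
  rw [e1]
  refine h4.trans ?_
  rw [← hv]
  have e2 : W.v Q * (Cf * (1 + CK) * ((W.er Q + W.dl Q + W.D Q) + (W.er Q' + W.dl Q' + W.D Q'))) =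
      Cf * W.v Q * (W.er Q + W.dl Q + W.D Q +
        CK * (W.er Q + W.er Q' + W.dl Q + W.dl Q' + W.D Q + W.D Q')) +
      W.v Q * (Cf * (W.er Q' + W.dl Q' + W.D Q')) := by ring
  have h5 : 0 ≤ W.v Q * (Cf * (W.er Q' + W.dl Q' + W.D Q')) := by (clear * - hv0 hCf her' hdl' hD'; positivity)
  rw [e2]
  linarith

lemma split2 {ζ ξ m m' : Sp d → ℝ} (i1 : Integrable (fun y => m' y * ζ y))
    (i2 : Integrable (fun y => m' y * ξ y)) (i3 : Integrable (fun y => m y * ξ y)) :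
    (∫ y, m y * ξ y) - ∫ y, m' y * ζ y =
      -(∫ y, m' y * (ζ y - ξ y)) - ∫ y, (m' y - m y) * ξ y := by
  have e1 : ∫ y, m' y * (ζ y - ξ y) = (∫ y, m' y * ζ y) - ∫ y, m' y * ξ y := by
    rw [← integral_sub i1 i2]
    congr 1
    funext y
    ring
  have e2 : ∫ y, (m' y - m y) * ξ y = (∫ y, m' y * ξ y) - ∫ y, m y * ξ y := by
    rw [← integral_sub i2 i3]
    congr 1
    funext y
    ring
  rw [e1, e2]
  ring

/-- flux between a sheet cell and a Newton cell; the error terms belong to the sheet cell -/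
lemma pair01 (hd : 2 ≤ d) {J JA : ℕ} {M c0 C' c R0 : ℝ} {X0 : Prm d}
    (hX : XOK J JA M c0 C' c R0 X0) : ∃ C1 : ℝ, 0 < C1 ∧
    ∀ (K γ δ : ℝ), 0 < K → 0 < γ → γ ≤ 1 / (8 * d) → 0 < δ → ∃ RN0 : ℝ, 1 ≤ RN0 ∧
    ∀ RN : ℝ, RN0 ≤ RN → ∃ C2 : ℝ, 0 < C2 ∧
    ∀ (E : Type) [NormedAddCommGroup E] [InnerProductSpace ℝ E] [FiniteDimensional ℝ E]
      (W : Wld d E) (Rz : ℝ),
      WOK JA C' R0 Rz { X0 with RN := RN } W → d + 1 + RN ≤ Rz → ∀ Q : Cell d, ∀ Q' ∈ adj Q,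
      ∀ EI : ℝ, 0 ≤ EI →
      (W.kd Q = 0 → W.kd Q' = 1 → WIf J W Q EI → 0 ≤ W.a Q →
        MG K γ (RN + d + 4) (W.a Q) (W.D Q) (W.m Q) →
        |Fct W.X W.s0 W.μ W.f W.e W.kd W.nv Q Q'| ≤
          W.v Q * (C1 * EI + δ * W.a Q + C2 * W.D Q)) ∧
      (W.kd Q = 1 → W.kd Q' = 0 → WIf J W Q' EI → 0 ≤ W.a Q' →
        MG K γ (RN + d + 4) (W.a Q') (W.D Q') (W.m Q') →
        |Fct W.X W.s0 W.μ W.f W.e W.kd W.nv Q Q'| ≤
          W.v Q * (C1 * EI + δ * W.a Q' + C2 * (W.D Q' + W.D Q))) := by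
  have hε := hX.prm.ε_pos
  have hε4 := hX.prm.ε_le
  have hA := hX.prm.A_ge
  have hd0 : (0 : ℝ) ≤ d := Nat.cast_nonneg d
  obtain ⟨B, hB0, hfam⟩ := WTb.fam (p0 := X0.p0) hd hX.C'_pos hε (by linarith : X0.ε ≤ 1)
    (by linarith : 0 < X0.A) M
  have hS2 := B1m.SB_nonneg B 2
  have hS4 := B1m.SB_nonneg B 4
  have hSJ := B1m.SB_nonneg B (J + 6)
  have hker : BaseKer 2 M c0 X0.b := hX.ker.mono_order (by omega)
  refine ⟨B1m.SB B (J + 6) + 1, by positivity, fun K γ δ hK hγ0 hγ hδ => ?_⟩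
  obtain ⟨RN0, hRN0, h1⟩ := WTb.avk_mg hd hker hK hγ0 hγ
    (δ := δ / (B1m.SB B 2 + 1)) (by positivity)
  refine ⟨RN0, hRN0, fun RN hRN => ?_⟩
  have hRN1 : 0 < RN := by linarith
  obtain ⟨Cv, hCv, h2⟩ := h1 RN hRN
  refine ⟨B1m.SB B 2 * Cv + (2 * B1m.SB B 2 + RN ^ 2 * (d * (d * B1m.SB B 4))) + 1,
    by (clear * - hS2 hCv hRN1 hd hS4; positivity), ?_⟩
  intro E _ _ _ W Rz hW hRz Q Q' hadj EI hEI
  have hv := WTc.v_eq hd hX.C'_pos hW Q
  have hv0 := WTc.v_nonneg W Q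
  have hgro := WTc.gro_mu hd hX.C'_pos hW Q
  have hXe := hW.X_eq
  have hkit : Kit (J + 10) M (bQ X0.b Q) := hX.ker.kit _
  have hns := WTc.mem_ns hd hW (by linarith [hX.R0_ge]) hadj
  have hlev := WTc.adj_lev hadj
  have hvv : 0 ≤ vv (W.mu Q) 1 0 := Real.sqrt_nonneg _
  obtain ⟨-, -, f3, f4, -⟩ := hfam (bQ X0.b Q) (hkit.mono_order (by omega)) (W.mu Q) hgro
  obtain ⟨b1, b2⟩ := WTb.fxB_tfn hd hker hRN1 hvv (f3 (dsp Q Q')) (f4 (dsp Q Q'))
  have hdir := hW.dir Q Q' hns _ _ b1 (fun y hy => b2 y (hRz.trans hy))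
  have hD := hW.D0 Q
  have hm1 : Continuous (mQ W.s0 W.f (W.e Q') Q) := W1m.mQ_cont hW.fc _ _ _
  have iB : ∀ {m : Sp d → ℝ}, Continuous m → Integrable (fun y => m y *
      fxB X0.b RN chi (fun x => chi (x - dsp Q Q')) (bQ X0.b Q) X0.ε X0.p0 X0.A (W.mu Q) y) :=
    fun hm => W5m.int_m hm b1.smooth.continuous b2
  have iA : ∀ {m : Sp d → ℝ} (n : Sp d), ‖n‖ = 1 → Continuous m → Integrable (fun y => m y *
      fxA chi (fun x => chi (x - dsp Q Q')) (bQ X0.b Q) X0.ε X0.p0 X0.A (W.mu Q) n y) :=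
    fun n hn hm => W5m.int_m hm
      (WTb.fxA_tfn hvv (f3 (dsp Q Q')) (f4 (dsp Q Q')) 2 hn).smooth.continuous
      (WTb.fxA_vs hd (dsp Q Q') (bQ X0.b Q) X0.ε X0.p0 X0.A (W.mu Q) hn)
  have key : ∀ a D : ℝ, 0 ≤ a → B1m.SB B 2 * (δ / (B1m.SB B 2 + 1) * a + Cv * D) ≤
      δ * a + B1m.SB B 2 * Cv * D := by
    intro a D ha
    have e1 : B1m.SB B 2 * (δ / (B1m.SB B 2 + 1) * a + Cv * D) =
      δ * a * (B1m.SB B 2 / (B1m.SB B 2 + 1)) + B1m.SB B 2 * Cv * D := by ring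
    have h3 : B1m.SB B 2 / (B1m.SB B 2 + 1) ≤ 1 := by
      rw [div_le_one (by positivity)]
      linarith
    have h4 : δ * a * (B1m.SB B 2 / (B1m.SB B 2 + 1)) ≤ δ * a * 1 :=
      mul_le_mul_of_nonneg_left h3 (by positivity)
    rw [e1]
    linarith
  constructor
  · intro hk hk' hIf ha hMG
    have hg : ∀ g : Sp d → ℝ, WTb.Sm B (vv (W.mu Q) 1 0) d g →
        |∫ y, W.m Q y * avk X0.b RN g y| ≤
          vv (W.mu Q) 1 0 * B1m.SB B 2 * (δ / (B1m.SB B 2 + 1) * W.a Q + Cv * W.D Q) :=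
      fun g hg => h2 (W.m Q) (W.a Q) (W.D Q) ha hD hMG B _ g hvv hg
    have h3 := AB_diff hd J hker hRN1 hvv (x := 0) (Or.inl rfl) (f3 (dsp Q Q')) (f4 (dsp Q Q'))
      (hW.nu Q) (WTc.m_cont hW Q) (EI := EI)
      (Ea := δ / (B1m.SB B 2 + 1) * W.a Q + Cv * W.D Q)
      (fun Y N hY h0 => by
        have := hIf Y N hY h0
        rwa [hXe] at this) hg
    simp only [zero_add] at h3
    have e1 : Fct W.X W.s0 W.μ W.f W.e W.kd W.nv Q Q' =
      (∫ y, W.m Q y * fxA chi (fun x => chi (x - dsp Q Q')) (bQ X0.b Q) X0.ε X0.p0 X0.A (W.mu Q)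
        (W.nv Q) y) - ∫ y, mQ W.s0 W.f (W.e Q') Q y *
        fxB X0.b RN chi (fun x => chi (x - dsp Q Q')) (bQ X0.b Q) X0.ε X0.p0 X0.A (W.mu Q) y := by
      unfold Fct flx
      rw [if_pos hk, if_neg (by rw [hk']; norm_num), if_pos hk', hXe]
      rfl
    rw [e1, split (iA _ (hW.nu Q) (WTc.m_cont hW Q)) (iB (WTc.m_cont hW Q)) (iB hm1)]
    refine (abs_sub _ _).trans ((add_le_add h3 hdir).trans ?_)
    rw [← hv]
    have h4 := mul_le_mul_of_nonneg_left (key (W.a Q) (W.D Q) ha) hv0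
    have e2 : W.v Q * ((B1m.SB B (J + 6) + 1) * EI + δ * W.a Q +
        (B1m.SB B 2 * Cv + (2 * B1m.SB B 2 + RN ^ 2 * (d * (d * B1m.SB B 4))) + 1) * W.D Q) =
      W.v Q * B1m.SB B (J + 6) * EI + W.v Q * (δ * W.a Q + B1m.SB B 2 * Cv * W.D Q) +
      W.v Q * (2 * B1m.SB B 2 + RN ^ 2 * (d * (d * B1m.SB B 4))) * W.D Q +
      W.v Q * (EI + W.D Q) := by ring
    have h5 : 0 ≤ W.v Q * (EI + W.D Q) := by positivity
    rw [e2]
    linarith only [h4, h5]
  · intro hk hk' hIf ha hMG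
    have hg : ∀ g : Sp d → ℝ, WTb.Sm B (vv (W.mu Q) 1 0) d g →
        |∫ y, W.m Q' y * avk X0.b RN g y| ≤
          vv (W.mu Q) 1 0 * B1m.SB B 2 * (δ / (B1m.SB B 2 + 1) * W.a Q' + Cv * W.D Q') :=
      fun g hg => h2 (W.m Q') (W.a Q') (W.D Q') ha (hW.D0 Q') hMG B _ g hvv hg
    have hx : dsp Q Q' = tw W.s0 Q Q' := WT.dsp_eq hW.s0_pos Q Q' hlev
    have h3 := AB_diff hd J hker hRN1 hvv (x := dsp Q Q') (Or.inr rfl) (f3 (dsp Q Q'))
      (f4 (dsp Q Q')) (hW.nu Q') (WTc.m_cont hW Q') (EI := EI)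
      (Ea := δ / (B1m.SB B 2 + 1) * W.a Q' + Cv * W.D Q')
      (fun Y N hY h0 => by
        have := hIf Y N hY h0
        rwa [hXe] at this) hg
    have e3 := W5m.pair_frame hW.s0_pos W.f (W.e Q') Q Q' hlev
      (fun y => fxA chi (fun x => chi (x - dsp Q Q')) (bQ X0.b Q) X0.ε X0.p0 X0.A (W.mu Q)
        (W.nv Q') y -
        fxB X0.b RN chi (fun x => chi (x - dsp Q Q')) (bQ X0.b Q) X0.ε X0.p0 X0.A (W.mu Q) y)
    rw [← hx] at e3
    have e1 : Fct W.X W.s0 W.μ W.f W.e W.kd W.nv Q Q' =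
      (∫ y, W.m Q y *
        fxB X0.b RN chi (fun x => chi (x - dsp Q Q')) (bQ X0.b Q) X0.ε X0.p0 X0.A (W.mu Q) y) -
      ∫ y, mQ W.s0 W.f (W.e Q') Q y *
        fxA chi (fun x => chi (x - dsp Q Q')) (bQ X0.b Q) X0.ε X0.p0 X0.A (W.mu Q)
        (W.nv Q') y := by
      unfold Fct flx
      rw [if_neg (by rw [hk]; norm_num), if_pos hk, if_pos hk', hXe]
      rfl
    rw [e1, split2 (iA _ (hW.nu Q') hm1) (iB hm1) (iB (WTc.m_cont hW Q)), e3]
    refine (abs_sub _ _).trans ?_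
    rw [abs_neg]
    refine (add_le_add h3 hdir).trans ?_
    rw [← hv]
    have hD' := hW.D0 Q'
    have h4 := mul_le_mul_of_nonneg_left (key (W.a Q') (W.D Q') ha) hv0
    have e2 : W.v Q * ((B1m.SB B (J + 6) + 1) * EI + δ * W.a Q' +
        (B1m.SB B 2 * Cv + (2 * B1m.SB B 2 + RN ^ 2 * (d * (d * B1m.SB B 4))) + 1) *
          (W.D Q' + W.D Q)) =
      W.v Q * B1m.SB B (J + 6) * EI + W.v Q * (δ * W.a Q' + B1m.SB B 2 * Cv * W.D Q') +
      W.v Q * (2 * B1m.SB B 2 + RN ^ 2 * (d * (d * B1m.SB B 4))) * W.D Q +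
      W.v Q * (EI + W.D Q' + W.D Q + B1m.SB B 2 * Cv * W.D Q +
        (2 * B1m.SB B 2 + RN ^ 2 * (d * (d * B1m.SB B 4))) * W.D Q') := by ring
    have h5 : 0 ≤ W.v Q * (EI + W.D Q' + W.D Q + B1m.SB B 2 * Cv * W.D Q +
        (2 * B1m.SB B 2 + RN ^ 2 * (d * (d * B1m.SB B 4))) * W.D Q') := by (clear * - hv0 hEI hD' hD hS2 hCv hRN1 hd hS4; positivity)
    rw [e2]
    linarith only [h4, h5]

end W4m

end

end TG


end

section

/-!
# Module W4: near cells at the interface   (helper38)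
-/

open MeasureTheory Metric Set TrI
open scoped InnerProductSpace ContDiff

namespace TG

noncomputable section

namespace W4m

variable {d : ℕ}

lemma self_adj (Q : Cell d) : Q ∈ adj Q := by
  unfold adj
  rw [Finset.mem_product, Finset.mem_singleton, Fintype.mem_piFinset]
  refine ⟨rfl, fun j => ?_⟩
  rw [Finset.mem_Icc]
  constructor <;> omega

/-- the sum of the fluxes -/
lemma sum_bd {Q : Cell d} {F E0 a D : Cell d → ℝ} {v Ca δ1 Cb : ℝ} (hv : 0 ≤ v) (hCa : 0 ≤ Ca)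
    (hδ : 0 ≤ δ1) (hCb : 0 ≤ Cb) (hE : ∀ P ∈ adj Q, 0 ≤ E0 P) (ha : ∀ P ∈ adj Q, 0 ≤ a P)
    (hD : ∀ P ∈ adj Q, 0 ≤ D P)
    (h : ∀ P ∈ adj Q, |F P| ≤ v * (Ca * (E0 Q + E0 P) + δ1 * (a Q + a P) + Cb * (D Q + D P))) :
    |∑ P ∈ adj Q, F P| + v * (Ca * E0 Q + δ1 * a Q + Cb * D Q) ≤
      v * (Ca * (3 ^ d + 2) * ∑ P ∈ adj Q, E0 P + δ1 * (3 ^ d + 2) * ∑ P ∈ adj Q, a P +
        Cb * (3 ^ d + 2) * ∑ P ∈ adj Q, D P) := by
  have h1 : |∑ P ∈ adj Q, F P| ≤
      ∑ P ∈ adj Q, v * (Ca * (E0 Q + E0 P) + δ1 * (a Q + a P) + Cb * (D Q + D P)) :=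
    (Finset.abs_sum_le_sum_abs _ _).trans (Finset.sum_le_sum h)
  have e1 : ∑ P ∈ adj Q, v * (Ca * (E0 Q + E0 P) + δ1 * (a Q + a P) + Cb * (D Q + D P)) =
      v * (Ca * (3 ^ d * E0 Q + ∑ P ∈ adj Q, E0 P) + δ1 * (3 ^ d * a Q + ∑ P ∈ adj Q, a P) +
        Cb * (3 ^ d * D Q + ∑ P ∈ adj Q, D P)) := by
    rw [← Finset.mul_sum, Finset.sum_add_distrib, Finset.sum_add_distrib, ← Finset.mul_sum,
      ← Finset.mul_sum, ← Finset.mul_sum, Finset.sum_add_distrib, Finset.sum_add_distrib,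
      Finset.sum_add_distrib, Finset.sum_const, Finset.sum_const, Finset.sum_const,
      nsmul_eq_mul, nsmul_eq_mul, nsmul_eq_mul, CS2.adj_card]
  rw [e1] at h1
  have hE1 : E0 Q ≤ ∑ P ∈ adj Q, E0 P := Finset.single_le_sum hE (self_adj Q)
  have ha1 : a Q ≤ ∑ P ∈ adj Q, a P := Finset.single_le_sum ha (self_adj Q)
  have hD1 : D Q ≤ ∑ P ∈ adj Q, D P := Finset.single_le_sum hD (self_adj Q)
  have h3 : (0 : ℝ) ≤ 3 ^ d + 1 := by positivity
  have k1 := mul_le_mul_of_nonneg_left (mul_le_mul_of_nonneg_left hE1 h3) hCa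
  have k2 := mul_le_mul_of_nonneg_left (mul_le_mul_of_nonneg_left ha1 h3) hδ
  have k3 := mul_le_mul_of_nonneg_left (mul_le_mul_of_nonneg_left hD1 h3) hCb
  have k4 : Ca * ((3 ^ d + 1) * E0 Q) + δ1 * ((3 ^ d + 1) * a Q) + Cb * ((3 ^ d + 1) * D Q) ≤
      Ca * ((3 ^ d + 1) * ∑ P ∈ adj Q, E0 P) + δ1 * ((3 ^ d + 1) * ∑ P ∈ adj Q, a P) +
        Cb * ((3 ^ d + 1) * ∑ P ∈ adj Q, D P) := by linarith
  have k5 := mul_le_mul_of_nonneg_left k4 hv
  have e2 : v * (Ca * (3 ^ d + 2) * ∑ P ∈ adj Q, E0 P + δ1 * (3 ^ d + 2) * ∑ P ∈ adj Q, a P +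
        Cb * (3 ^ d + 2) * ∑ P ∈ adj Q, D P) =
      v * (Ca * ((3 ^ d + 1) * ∑ P ∈ adj Q, E0 P) + δ1 * ((3 ^ d + 1) * ∑ P ∈ adj Q, a P) +
        Cb * ((3 ^ d + 1) * ∑ P ∈ adj Q, D P)) +
      v * (Ca * ∑ P ∈ adj Q, E0 P + δ1 * ∑ P ∈ adj Q, a P + Cb * ∑ P ∈ adj Q, D P) := by ring
  rw [e2]
  have e3 : v * (Ca * (3 ^ d * E0 Q + ∑ P ∈ adj Q, E0 P) +
        δ1 * (3 ^ d * a Q + ∑ P ∈ adj Q, a P) +
        Cb * (3 ^ d * D Q + ∑ P ∈ adj Q, D P)) + v * (Ca * E0 Q + δ1 * a Q + Cb * D Q) =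
      v * (Ca * ((3 ^ d + 1) * E0 Q) + δ1 * ((3 ^ d + 1) * a Q) + Cb * ((3 ^ d + 1) * D Q)) +
      v * (Ca * ∑ P ∈ adj Q, E0 P + δ1 * ∑ P ∈ adj Q, a P + Cb * ∑ P ∈ adj Q, D P) := by ring
  linarith

end W4m

theorem stmtW4 (hTA2 : StmtTA2) (hTD2 : StmtTD2) (hTF : StmtTF) (hWA : StmtWA)
    (hP1 : StmtP1) : StmtW4 := by
  intro d J JA hd M c0 C' c R0 X0 hX
  obtain ⟨cA, Cm, hcA, hCm, hcell⟩ := W4m.cell0 hTA2 hTD2 hd hX
  obtain ⟨CI, hCI, hpair⟩ := W4m.pair01 hd hX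
  refine ⟨min cA 1, lt_min hcA one_pos, fun Kc hKc => ?_⟩
  obtain ⟨κ, C0, RzP, hκ, hC0, h00⟩ := W4m.pair00 hTF hWA hP1 hd hX Kc hKc
  have hd0 : (0 : ℝ) ≤ d := Nat.cast_nonneg d
  have hN : (0 : ℝ) < 3 ^ d + 2 := by positivity
  refine ⟨κ, (Cm + C0 + CI) * (3 ^ d + 2), hκ, by positivity, fun K γ δ hK hγ0 hγ hδ => ?_⟩
  have hδ1 : 0 < δ / (3 ^ d + 2) := by positivity
  have hδe : δ / (3 ^ d + 2) * (3 ^ d + 2) = δ := div_mul_cancel₀ _ hN.ne'
  set δ1 : ℝ := δ / (3 ^ d + 2) with hδ1d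
  obtain ⟨RN1, hRN1, hp1⟩ := hpair K γ δ1 hK hγ0 hγ hδ1
  obtain ⟨RN2, hRN2, hg1⟩ := WTc.gam_low hd hX hK hγ0 hγ hδ1
  refine ⟨max RN1 RN2, hRN1.trans (le_max_left _ _), fun RN hRN => ?_⟩
  have hRN1' : 1 ≤ RN := (hRN1.trans (le_max_left _ _)).trans hRN
  obtain ⟨C2, hC2, hp2⟩ := hp1 RN ((le_max_left _ _).trans hRN)
  obtain ⟨tol, htol, hg2⟩ := hg1 RN ((le_max_right _ _).trans hRN)
  obtain ⟨Cn, hCn, hnn⟩ := WTc.fct_nn hd hX hRN1'
  obtain ⟨RzF, hfar⟩ := WTc.fct_far hd hX hRN1'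
  refine ⟨RN + d + 3, RN + d + 4, tol, htol, by linarith, fun R1 rm => ?_⟩
  obtain ⟨Cg, hCg, hg3⟩ := hg2 R1 rm
  refine ⟨(Cm + C0 + C2 + Cn + Cg) * (3 ^ d + 2),
    max (max RzP (64 * R0 + 1)) (max (max R1 (d + 1 + RN)) RzF), by positivity, ?_⟩
  intro E _ _ _ W hW Q hnear hsv hkd hnw EI hEI
  have r1 : RzP ≤ max (max RzP (64 * R0 + 1)) (max (max R1 (d + 1 + RN)) RzF) :=
    (le_max_left _ _).trans (le_max_left _ _)
  have r2 : 64 * R0 + 1 ≤ max (max RzP (64 * R0 + 1)) (max (max R1 (d + 1 + RN)) RzF) :=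
    (le_max_right _ _).trans (le_max_left _ _)
  have r3 : R1 ≤ max (max RzP (64 * R0 + 1)) (max (max R1 (d + 1 + RN)) RzF) :=
    ((le_max_left _ _).trans (le_max_left _ _)).trans (le_max_right _ _)
  have r4 : d + 1 + RN ≤ max (max RzP (64 * R0 + 1)) (max (max R1 (d + 1 + RN)) RzF) :=
    ((le_max_right _ _).trans (le_max_left _ _)).trans (le_max_right _ _)
  have r5 : RzF ≤ max (max RzP (64 * R0 + 1)) (max (max R1 (d + 1 + RN)) RzF) :=
    (le_max_right _ _).trans (le_max_right _ _)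
  have hv0 := WTc.v_nonneg W Q
  have hw0 := WTc.w_nonneg hW.s0_pos Q
  have hQQ := W4m.self_adj Q
  set Ca : ℝ := Cm + C0 + CI with hCa
  set Cb : ℝ := Cm + C0 + C2 + Cn + Cg with hCb
  have hCa0 : 0 < Ca := by positivity
  have hCb0 : 0 < Cb := by positivity
  set E0 : Cell d → ℝ := fun P => if W.kd P = 0 then W.er P + W.dl P + EI P else 0 with hE0
  have hE0z : ∀ P, W.kd P = 0 → E0 P = W.er P + W.dl P + EI P := fun P h => if_pos h
  have hE0n : ∀ P, W.kd P = 1 → E0 P = 0 := fun P h => if_neg (by rw [h]; norm_num)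
  have hDn : ∀ P ∈ adj Q, 0 ≤ W.D P := fun P _ => hW.D0 P
  have han : ∀ P ∈ adj Q, 0 ≤ W.a P := by
    intro P hP
    rcases hkd P hP with h | h
    · exact (hEI P hP h).2.2.2.1
    · exact (hnw P hP h).a0
  have hpos : ∀ P ∈ adj Q, W.kd P = 0 → 0 ≤ W.er P ∧ 0 ≤ W.dl P ∧ 0 ≤ EI P :=
    fun P hP h => ⟨(hEI P hP h).2.1.sh.ep0, (hEI P hP h).2.1.dl0, (hEI P hP h).1⟩
  have hE0nn : ∀ P ∈ adj Q, 0 ≤ E0 P := by
    intro P hP
    rcases hkd P hP with h | h
    · obtain ⟨p1, p2, p3⟩ := hpos P hP h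
      rw [hE0z P h]
      positivity
    · rw [hE0n P h]
  have hflux : ∀ P ∈ adj Q, |Fct W.X W.s0 W.μ W.f W.e W.kd W.nv Q P| ≤
      W.v Q * (Ca * (E0 Q + E0 P) + δ1 * (W.a Q + W.a P) + Cb * (W.D Q + W.D P)) := by
    intro P hP
    have q1 := hE0nn Q hQQ
    have q2 := hE0nn P hP
    have q3 := han Q hQQ
    have q4 := han P hP
    have q5 := hDn Q hQQ
    have q6 := hDn P hP
    by_cases hnP : W.Near P
    · rcases hkd Q hQQ with hk | hk <;> rcases hkd P hP with hk' | hk'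
      · -- sheet, sheet
        obtain ⟨p1, p2, p3⟩ := hpos Q hQQ hk
        obtain ⟨p1', p2', p3'⟩ := hpos P hP hk'
        have h1 := h00 E W RN _ hW r1 Q hk (hsv hk) (hEI Q hQQ hk).2.1 P hP hk'
          (hEI P hP hk').2.1 ((hEI P hP hk').2.2.2.2.2 hk)
        refine h1.trans (mul_le_mul_of_nonneg_left ?_ hv0)
        rw [hE0z Q hk, hE0z P hk', hCa, hCb]
        have e1 : (Cm + C0 + CI) * (W.er Q + W.dl Q + EI Q + (W.er P + W.dl P + EI P)) +
            δ1 * (W.a Q + W.a P) + (Cm + C0 + C2 + Cn + Cg) * (W.D Q + W.D P) =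
            C0 * (W.er Q + W.dl Q + W.D Q + (W.er P + W.dl P + W.D P)) +
            ((Cm + CI) * (W.er Q + W.dl Q + EI Q + (W.er P + W.dl P + EI P)) +
            C0 * (EI Q + EI P) + δ1 * (W.a Q + W.a P) +
            (Cm + C2 + Cn + Cg) * (W.D Q + W.D P)) := by ring
        rw [e1]
        have : 0 ≤ (Cm + CI) * (W.er Q + W.dl Q + EI Q + (W.er P + W.dl P + EI P)) +
            C0 * (EI Q + EI P) + δ1 * (W.a Q + W.a P) +
            (Cm + C2 + Cn + Cg) * (W.D Q + W.D P) := by (clear * - hCm hCI p1 p2 p3 p1' p2' p3' hC0 hδ q3 q4 hC2 hCn hCg q5 q6; positivity)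
        linarith
      · -- sheet, Newton
        obtain ⟨p1, p2, p3⟩ := hpos Q hQQ hk
        obtain ⟨h1, -, h2, h3, h4, -⟩ := hEI Q hQQ hk
        have h5 := (hp2 E W _ hW r4 Q P hP (EI Q) h1).1 hk hk' h2 h3 h4
        refine h5.trans (mul_le_mul_of_nonneg_left ?_ hv0)
        rw [hE0z Q hk, hE0n P hk', hCa, hCb]
        have e1 : (Cm + C0 + CI) * (W.er Q + W.dl Q + EI Q + 0) +
            δ1 * (W.a Q + W.a P) + (Cm + C0 + C2 + Cn + Cg) * (W.D Q + W.D P) =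
            CI * EI Q + δ1 * W.a Q + C2 * W.D Q +
            ((Cm + C0 + CI) * (W.er Q + W.dl Q) + (Cm + C0) * EI Q + δ1 * W.a P +
            (Cm + C0 + Cn + Cg) * (W.D Q + W.D P) + C2 * W.D P) := by ring
        rw [e1]
        have : 0 ≤ (Cm + C0 + CI) * (W.er Q + W.dl Q) + (Cm + C0) * EI Q + δ1 * W.a P +
            (Cm + C0 + Cn + Cg) * (W.D Q + W.D P) + C2 * W.D P := by (clear * - hCm hC0 hCI p1 p2 p3 hδ q4 hCn hCg q5 q6 hC2; positivity)
        linarith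
      · -- Newton, sheet
        obtain ⟨p1, p2, p3⟩ := hpos P hP hk'
        obtain ⟨h1, -, h2, h3, h4, -⟩ := hEI P hP hk'
        have h5 := (hp2 E W _ hW r4 Q P hP (EI P) h1).2 hk hk' h2 h3 h4
        refine h5.trans (mul_le_mul_of_nonneg_left ?_ hv0)
        rw [hE0n Q hk, hE0z P hk', hCa, hCb]
        have e1 : (Cm + C0 + CI) * (0 + (W.er P + W.dl P + EI P)) +
            δ1 * (W.a Q + W.a P) + (Cm + C0 + C2 + Cn + Cg) * (W.D Q + W.D P) =
            CI * EI P + δ1 * W.a P + C2 * (W.D P + W.D Q) +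
            ((Cm + C0 + CI) * (W.er P + W.dl P) + (Cm + C0) * EI P + δ1 * W.a Q +
            (Cm + C0 + Cn + Cg) * (W.D Q + W.D P)) := by ring
        rw [e1]
        have : 0 ≤ (Cm + C0 + CI) * (W.er P + W.dl P) + (Cm + C0) * EI P + δ1 * W.a Q +
            (Cm + C0 + Cn + Cg) * (W.D Q + W.D P) := by (clear * - hCm hC0 hCI p1 p2 p3 hδ q3 hCn hCg q5 q6; positivity)
        linarith
      · -- Newton, Newton
        have h1 := hnn E W _ hW r4 Q hk P hP hk'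
        refine h1.trans ?_
        rw [hCb]
        have e1 : W.v Q * (Ca * (E0 Q + E0 P) + δ1 * (W.a Q + W.a P) +
            (Cm + C0 + C2 + Cn + Cg) * (W.D Q + W.D P)) = Cn * W.v Q * W.D Q +
            W.v Q * (Ca * (E0 Q + E0 P) + δ1 * (W.a Q + W.a P) +
            (Cm + C0 + C2 + Cg) * (W.D Q + W.D P) + Cn * W.D P) := by ring
        rw [e1]
        have : 0 ≤ W.v Q * (Ca * (E0 Q + E0 P) + δ1 * (W.a Q + W.a P) +
            (Cm + C0 + C2 + Cg) * (W.D Q + W.D P) + Cn * W.D P) := by (clear * - hv0 hCm hC0 hCI q1 q2 hδ q3 q4 hC2 hCg q5 q6 hCn; positivity)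
        linarith
    · rw [hfar E W _ hW r5 Q P hP hnP, abs_zero]
      (clear * - hv0 hCm hC0 hCI q1 q2 hδ q3 q4 hC2 hCn hCg q5 q6; positivity)
  have hsum := W4m.sum_bd hv0 hCa0.le hδ1.le hCb0.le hE0nn han hDn hflux
  -- the cell itself
  have hself : min cA 1 * W.val Q ≤ W.gam Q + Vct W.X W.s0 W.μ W.f W.e W.kd W.nv Q +
      W.v Q * (Ca * E0 Q + δ1 * W.a Q + Cb * W.D Q) := by
    have q3 := han Q hQQ
    have q5 := hDn Q hQQ
    rcases hkd Q hQQ with hk | hk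
    · obtain ⟨p1, p2, p3⟩ := hpos Q hQQ hk
      have h1 := hcell E W RN _ κ hW r2 Q hnear hk (hEI Q hQQ hk).2.1 (min cA 1)
        (le_min hcA.le zero_le_one) (min_le_left _ _) (min_le_right _ _)
      refine h1.trans (add_le_add le_rfl (mul_le_mul_of_nonneg_left ?_ hv0))
      rw [hE0z Q hk, hCa, hCb]
      have e1 : (Cm + C0 + CI) * (W.er Q + W.dl Q + EI Q) + δ1 * W.a Q +
          (Cm + C0 + C2 + Cn + Cg) * W.D Q = Cm * (W.er Q + W.dl Q + W.D Q) +
          ((C0 + CI) * (W.er Q + W.dl Q + EI Q) + Cm * EI Q + δ1 * W.a Q +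
          (C0 + C2 + Cn + Cg) * W.D Q) := by ring
      rw [e1]
      have : 0 ≤ (C0 + CI) * (W.er Q + W.dl Q + EI Q) + Cm * EI Q + δ1 * W.a Q +
          (C0 + C2 + Cn + Cg) * W.D Q := by (clear * - hC0 hCI p1 p2 p3 hCm hδ q3 hC2 hCn hCg q5; positivity)
      linarith
    · have h1 := hg3 E W _ hW r3 Q hk (hnw Q hQQ hk)
      have hval : W.val Q = max 0 (W.gam Q) := by
        unfold Wld.val
        rw [if_neg (fun h => by rw [hk] at h; omega), if_neg (fun h => h.2 hk)]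
      have hV : Vct W.X W.s0 W.μ W.f W.e W.kd W.nv Q = 0 := by
        unfold Vct
        rw [if_neg (by rw [hk]; norm_num)]
      rw [hval, hV, hE0n Q hk, hCb, add_zero]
      have h2 : min cA 1 * max 0 (W.gam Q) ≤ 1 * max 0 (W.gam Q) :=
        mul_le_mul_of_nonneg_right (min_le_right _ _) (le_max_left _ _)
      have e1 : W.v Q * (Ca * 0 + δ1 * W.a Q + (Cm + C0 + C2 + Cn + Cg) * W.D Q) =
          (δ1 * W.v Q * W.a Q + Cg * W.v Q * W.D Q) +
          W.v Q * ((Cm + C0 + C2 + Cn) * W.D Q) := by ring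
      rw [e1]
      have h3 : 0 ≤ W.v Q * ((Cm + C0 + C2 + Cn) * W.D Q) := by (clear * - hv0 hCm hC0 hC2 hCn q5; positivity)
      have h4 : 0 ≤ δ1 * W.v Q * W.a Q + Cg * W.v Q * W.D Q := by (clear * - hδ hv0 q3 hCg q5; positivity)
      have h5 : max 0 (W.gam Q) ≤ W.gam Q + ((δ1 * W.v Q * W.a Q + Cg * W.v Q * W.D Q) +
          W.v Q * ((Cm + C0 + C2 + Cn) * W.D Q)) := by
        refine max_le ?_ ?_ <;> linarith
      linarith
  have hnt : W.nt1 Q = W.w Q * (W.gam Q + Vct W.X W.s0 W.μ W.f W.e W.kd W.nv Q -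
      ∑ Q' ∈ adj Q, Fct W.X W.s0 W.μ W.f W.e W.kd W.nv Q Q') := rfl
  rw [hnt, Finset.sum_filter]
  have h6 := (abs_le.1 (le_refl |∑ P ∈ adj Q, Fct W.X W.s0 W.μ W.f W.e W.kd W.nv Q P|)).2
  have h7 : min cA 1 * W.val Q ≤ W.gam Q + Vct W.X W.s0 W.μ W.f W.e W.kd W.nv Q -
      ∑ Q' ∈ adj Q, Fct W.X W.s0 W.μ W.f W.e W.kd W.nv Q Q' +
      W.v Q * (Ca * (3 ^ d + 2) * ∑ P ∈ adj Q, E0 P + δ1 * (3 ^ d + 2) * ∑ P ∈ adj Q, W.a P +
        Cb * (3 ^ d + 2) * ∑ P ∈ adj Q, W.D P) := by linarith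
  have h8 := mul_le_mul_of_nonneg_left h7 hw0
  rw [hδe] at h8
  have e5 : W.w Q * (W.gam Q + Vct W.X W.s0 W.μ W.f W.e W.kd W.nv Q -
      ∑ Q' ∈ adj Q, Fct W.X W.s0 W.μ W.f W.e W.kd W.nv Q Q' +
      W.v Q * (Ca * (3 ^ d + 2) * ∑ P ∈ adj Q, E0 P + δ * ∑ P ∈ adj Q, W.a P +
        Cb * (3 ^ d + 2) * ∑ P ∈ adj Q, W.D P)) =
      W.w Q * (W.gam Q + Vct W.X W.s0 W.μ W.f W.e W.kd W.nv Q -
      ∑ Q' ∈ adj Q, Fct W.X W.s0 W.μ W.f W.e W.kd W.nv Q Q') +
      Ca * (3 ^ d + 2) * (W.w Q * W.v Q) * (∑ P ∈ adj Q, E0 P) +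
      δ * (W.w Q * W.v Q) * (∑ P ∈ adj Q, W.a P) +
      Cb * (3 ^ d + 2) * (W.w Q * W.v Q) * ∑ P ∈ adj Q, W.D P := by ring
  rw [e5] at h8
  have e6 : W.w Q * (min cA 1 * W.val Q) = min cA 1 * (W.w Q * W.val Q) := by ring
  rw [e6] at h8
  exact h8

end

end TG


end
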