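import Mathlib
import Pool.Agent.TRM.C02
import Pool.Agent.TRM.C04
import Pool.Agent.TRM.C08
import Pool.Agent.TRM.C10
import Pool.Agent.TRM.C11
import Pool.Agent.TRM.C13

/-! Parts: TG.CO, TG.PLa, TG.PLb, TG.MPa, TG.MPb, TG.MP, TG.PL, TG.PTc, TG.PT -/

section

/-!
# Module CO: pointwise bound of u (cost) (by helper85)

A chain of balls B_i of radius t_i/2 (t_i = lev s0 i) is chosen bottom-up such that B_(i-1) and B_i lie on
the same side of the plane S_i, at distance at least 4 t_i; by HU, transported to the frame of level i, the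
averaged Taylor polynomials over B_(i-1) and B_i differ at x by at most C bD_i.
-/

open MeasureTheory Metric Set TrI Filter Topology
open scoped InnerProductSpace ContDiff

namespace TG

noncomputable section

variable {d : ℕ}

section Geom

/-- one step of the choice of the centres: a move of length at most 20 t in the direction ± ν', which does
not decrease the signed height s⟨ν,·⟩ and after which the height over the plane (ν',c') is at least 10 t -/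
lemma co_step (ν ν' : Sp d) (c' : ℝ) (hν' : ‖ν'‖ = 1) (s t : ℝ) (htp : 0 < t) (p : Sp d) :
    ∃ q : Sp d, ‖q - p‖ ≤ 20 * t ∧ 0 ≤ s * ⟪ν, q - p⟫_ℝ ∧ 10 * t ≤ |ht ν' c' q| := by
  have key : ∀ σ : ℝ, ⟪ν', σ • ν'⟫_ℝ = σ := by
    intro σ
    rw [inner_smul_right, real_inner_self_eq_norm_sq, hν']
    ring
  by_cases h : 10 * t ≤ |ht ν' c' p|
  · exact ⟨p, by simp [htp.le], by simp, h⟩
  · push Not at h
    obtain ⟨σ, hσ1, hσ2⟩ : ∃ σ : ℝ, |σ| = 1 ∧ 0 ≤ s * (σ * ⟪ν, ν'⟫_ℝ) := by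
      rcases le_total 0 (s * ⟪ν, ν'⟫_ℝ) with h1 | h1
      · exact ⟨1, by simp, by linarith⟩
      · exact ⟨-1, by simp, by linarith⟩
    refine ⟨p + (20 * t * σ) • ν', ?_, ?_, ?_⟩
    · rw [add_sub_cancel_left, norm_smul, hν', mul_one, Real.norm_eq_abs, abs_mul, hσ1, mul_one,
        abs_of_pos (by positivity)]
    · rw [add_sub_cancel_left, inner_smul_right]
      have : s * (20 * t * σ * ⟪ν, ν'⟫_ℝ) = 20 * t * (s * (σ * ⟪ν, ν'⟫_ℝ)) := by ring
      rw [this]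
      positivity
    · have h2 : ht ν' c' (p + (20 * t * σ) • ν') = ht ν' c' p + 20 * t * σ := by
        unfold ht
        rw [inner_add_right, key]
        ring
      rw [h2]
      have h3 : |20 * t * σ| = 20 * t := by
        rw [abs_mul, hσ1, mul_one, abs_of_pos (by positivity)]
      have h4 : |20 * t * σ| ≤ |ht ν' c' p + 20 * t * σ| + |ht ν' c' p| := by
        have := abs_sub_abs_le_abs_sub (20 * t * σ) (-(ht ν' c' p))
        rw [abs_neg] at this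
        have h5 : 20 * t * σ - -(ht ν' c' p) = ht ν' c' p + 20 * t * σ := by ring
        rw [h5] at this
        linarith
      rw [h3] at h4
      linarith

/-- the centres of the balls; ball number i belongs to level i + 1 -/
lemma co_centres (s0 : ℝ) (hs0 : 0 < s0) (x : Sp d) (νs : ℕ → Sp d) (cs : ℕ → ℝ)
    (hν : ∀ i, ‖νs i‖ = 1) :
    ∃ q : ℕ → Sp d, (∀ i, ‖q i - x‖ ≤ 40 * lev s0 (i + 1)) ∧
      (∀ i, 10 * lev s0 (i + 1) ≤ |ht (νs (i + 2)) (cs (i + 2)) (q i)|) ∧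
      (∀ i, 0 ≤ ht (νs (i + 2)) (cs (i + 2)) (q i) * ⟪νs (i + 2), q (i + 1) - q i⟫_ℝ) := by
  obtain ⟨q0, h1, -, h3⟩ := co_step (νs 2) (νs 2) (cs 2) (hν 2) 0 (lev s0 1) (levA_pos hs0 1) x
  have hstep : ∀ (i : ℕ) (p : Sp d), ∃ q : Sp d, ‖q - p‖ ≤ 20 * lev s0 (i + 2) ∧
      0 ≤ ht (νs (i + 2)) (cs (i + 2)) p * ⟪νs (i + 2), q - p⟫_ℝ ∧
      10 * lev s0 (i + 2) ≤ |ht (νs (i + 3)) (cs (i + 3)) q| := fun i p =>
    co_step (νs (i + 2)) (νs (i + 3)) (cs (i + 3)) (hν _) _ (lev s0 (i + 2)) (levA_pos hs0 _) p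
  choose F hF1 hF2 hF3 using hstep
  let q : ℕ → Sp d := fun i => Nat.rec q0 (fun i p => F i p) i
  have hq0 : q 0 = q0 := rfl
  have hqs : ∀ i, q (i + 1) = F i (q i) := fun i => rfl
  refine ⟨q, ?_, ?_, ?_⟩
  · intro i
    induction i with
    | zero =>
      rw [hq0]
      have := levA_pos hs0 1
      exact h1.trans (by simp only [zero_add]; linarith)
    | succ i ih =>
      have h4 := hF1 i (q i)
      have h5 : q (i + 1) - x = (F i (q i) - q i) + (q i - x) := by rw [hqs]; abel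
      rw [h5]
      refine (norm_add_le _ _).trans ?_
      have h6 := levA_succ s0 (i + 1)
      have h7 : i + 1 + 1 = i + 2 := rfl
      rw [h7] at h6 ⊢
      linarith
  · intro i
    cases i with
    | zero => exact h3
    | succ i => exact hF3 i (q i)
  · intro i
    rw [hqs]
    exact hF2 i (q i)

/-- the hull of two balls on the same side of the plane -/
lemma co_hull (ν : Sp d) (hν : ‖ν‖ = 1) (c : ℝ) (c1 c2 : Sp d)
    (h1 : 5 ≤ |ht ν c c1|) (h2 : 0 ≤ ht ν c c1 * ⟪ν, c2 - c1⟫_ℝ) :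
    ∀ y ∈ convexHull ℝ (closedBall c1 (1 / 4) ∪ closedBall c2 (1 / 2)), 4 ≤ |ht ν c y| := by
  have hin : ∀ (a b : Sp d) (r : ℝ), b ∈ closedBall a r → |⟪ν, b⟫_ℝ - ⟪ν, a⟫_ℝ| ≤ r := by
    intro a b r hb
    rw [← inner_sub_right]
    have h3 := abs_real_inner_le_norm ν (b - a)
    rw [hν, one_mul] at h3
    rw [mem_closedBall, dist_eq_norm] at hb
    exact h3.trans hb
  rcases lt_or_ge (ht ν c c1) 0 with hs | hs
  · have h5 : ht ν c c1 ≤ -5 := by rw [abs_of_neg hs] at h1; linarith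
    have h6 : ⟪ν, c2 - c1⟫_ℝ ≤ 0 := by
      by_contra h7
      push Not at h7
      nlinarith
    rw [inner_sub_right] at h6
    have hconv : Convex ℝ {y : Sp d | ⟪ν, y⟫_ℝ ≤ c - 4} :=
      convex_halfSpace_le (f := fun y => ⟪ν, y⟫_ℝ)
        ⟨fun a b => inner_add_right _ _ _, fun a b => inner_smul_right _ _ _⟩ _
    have hsub : closedBall c1 (1 / 4) ∪ closedBall c2 (1 / 2) ⊆ {y : Sp d | ⟪ν, y⟫_ℝ ≤ c - 4} := by
      rintro y (hy | hy)
      · have h7 := abs_le.mp (hin c1 y _ hy)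
        unfold ht at h5
        simp only [Set.mem_ofPred_eq]
        linarith [h7.1, h7.2]
      · have h7 := abs_le.mp (hin c2 y _ hy)
        unfold ht at h5
        simp only [Set.mem_ofPred_eq]
        linarith [h7.1, h7.2]
    intro y hy
    have h8 : ⟪ν, y⟫_ℝ ≤ c - 4 := convexHull_min hsub hconv hy
    have h9 : ht ν c y ≤ -4 := by unfold ht; linarith
    rw [abs_of_nonpos (by linarith)]
    linarith
  · have h5 : 5 ≤ ht ν c c1 := by rwa [abs_of_nonneg hs] at h1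
    have h6 : 0 ≤ ⟪ν, c2 - c1⟫_ℝ := by
      by_contra h7
      push Not at h7
      nlinarith
    rw [inner_sub_right] at h6
    have hconv : Convex ℝ {y : Sp d | c + 4 ≤ ⟪ν, y⟫_ℝ} :=
      convex_halfSpace_ge (f := fun y => ⟪ν, y⟫_ℝ)
        ⟨fun a b => inner_add_right _ _ _, fun a b => inner_smul_right _ _ _⟩ _
    have hsub : closedBall c1 (1 / 4) ∪ closedBall c2 (1 / 2) ⊆ {y : Sp d | c + 4 ≤ ⟪ν, y⟫_ℝ} := by
      rintro y (hy | hy)
      · have h7 := abs_le.mp (hin c1 y _ hy)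
        unfold ht at h5
        simp only [Set.mem_ofPred_eq]
        linarith [h7.1, h7.2]
      · have h7 := abs_le.mp (hin c2 y _ hy)
        unfold ht at h5
        simp only [Set.mem_ofPred_eq]
        linarith [h7.1, h7.2]
    intro y hy
    have h8 : c + 4 ≤ ⟪ν, y⟫_ℝ := convexHull_min hsub hconv hy
    have h9 : 4 ≤ ht ν c y := by unfold ht; linarith
    exact h9.trans (le_abs_self _)

end Geom

section Taylor

variable {V : Type} [NormedAddCommGroup V] [InnerProductSpace ℝ V] [FiniteDimensional ℝ V]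

/-- averaged Taylor polynomials over small balls near x are close to u(x) -/
lemma co_bottom (n : ℕ) (u : Sp d → V) (hu : TF u) : ∃ Cu : ℝ, 0 ≤ Cu ∧
    ∀ s : ℝ, 0 < s → s ≤ 1 → ∀ x c : Sp d, ‖c - x‖ ≤ 80 * s →
      ‖u x - ATP n c s u x‖ ≤ Cu * s := by
  have hb : ∀ k : ℕ, ∃ K : ℝ, 0 ≤ K ∧ ∀ y, ‖iteratedFDeriv ℝ k u y‖ ≤ K := by
    intro k
    have h1 : HasCompactSupport (iteratedFDeriv ℝ k u) := hu.supp.iteratedFDeriv k
    obtain ⟨K, hK⟩ := h1.exists_bound_of_continuous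
      (hu.smooth.continuous_iteratedFDeriv (by exact_mod_cast le_top))
    exact ⟨|K|, abs_nonneg _, fun y => (hK y).trans (le_abs_self _)⟩
  choose K hK0 hK using hb
  have hdiff : Differentiable ℝ u := hu.smooth.differentiable (by simp)
  have hlip : ∀ a b : Sp d, ‖u a - u b‖ ≤ K 1 * ‖a - b‖ := by
    intro a b
    refine Convex.norm_image_sub_le_of_norm_fderiv_le (s := univ) (𝕜 := ℝ)
      (fun y _ => hdiff y) (fun y _ => ?_) convex_univ (mem_univ _) (mem_univ _)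
    have := hK 1 y
    rwa [norm_iteratedFDeriv_one] at this
  set S : ℝ := ∑ k ∈ Finset.range n, K (k + 1) * 81 ^ (k + 1) with hS
  have hS0 : 0 ≤ S := Finset.sum_nonneg fun k _ => mul_nonneg (hK0 _) (by positivity)
  refine ⟨K 1 * 81 + S, by have := hK0 1; positivity, ?_⟩
  intro s hs hs1 x c hc
  have hterm : ∀ z : Sp d, ‖z‖ ≤ 1 → ‖u x - ∑ k ∈ Finset.range (n + 1),
      ((Nat.factorial k : ℝ)⁻¹ • iteratedFDeriv ℝ k u (c + s • z) (fun _ => x - (c + s • z)))‖ ≤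
      (K 1 * 81 + S) * s := by
    intro z hz
    have hδ : ‖x - (c + s • z)‖ ≤ 81 * s := by
      have h1 : x - (c + s • z) = -(c - x) - s • z := by abel
      rw [h1]
      refine (norm_sub_le _ _).trans ?_
      rw [norm_neg, norm_smul, Real.norm_eq_abs, abs_of_pos hs]
      have : s * ‖z‖ ≤ s * 1 := mul_le_mul_of_nonneg_left hz hs.le
      linarith
    rw [Finset.sum_range_succ']
    have h0 : ((Nat.factorial 0 : ℝ)⁻¹ • iteratedFDeriv ℝ 0 u (c + s • z)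
        (fun _ => x - (c + s • z))) = u (c + s • z) := by simp
    rw [h0, ← sub_sub, sub_right_comm]
    refine (norm_sub_le _ _).trans ?_
    have h2 : ‖u x - u (c + s • z)‖ ≤ K 1 * 81 * s := by
      refine (hlip _ _).trans ?_
      have := mul_le_mul_of_nonneg_left hδ (hK0 1)
      linarith
    have h3 : ‖∑ k ∈ Finset.range n, ((Nat.factorial (k + 1) : ℝ)⁻¹ •
        iteratedFDeriv ℝ (k + 1) u (c + s • z) (fun _ => x - (c + s • z)))‖ ≤ S * s := by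
      rw [hS, Finset.sum_mul]
      refine norm_sum_le_of_le _ fun k _ => ?_
      rw [norm_smul, norm_inv, Real.norm_natCast]
      have hf : ((Nat.factorial (k + 1) : ℝ))⁻¹ ≤ 1 := by
        refine inv_le_one_of_one_le₀ ?_
        exact_mod_cast Nat.succ_le_of_lt (Nat.factorial_pos _)
      have h4 : ‖iteratedFDeriv ℝ (k + 1) u (c + s • z) (fun _ => x - (c + s • z))‖ ≤
          K (k + 1) * (81 ^ (k + 1) * s) := by
        refine (ContinuousMultilinearMap.le_opNorm _ _).trans ?_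
        refine mul_le_mul (hK _ _) ?_ (Finset.prod_nonneg fun _ _ => norm_nonneg _) (hK0 _)
        rw [Finset.prod_const, Finset.card_univ, Fintype.card_fin]
        have h5 : ‖x - (c + s • z)‖ ^ (k + 1) ≤ (81 * s) ^ (k + 1) :=
          pow_le_pow_left₀ (norm_nonneg _) hδ _
        refine h5.trans ?_
        rw [mul_pow]
        refine mul_le_mul_of_nonneg_left ?_ (by positivity)
        calc s ^ (k + 1) = s ^ k * s := pow_succ _ _
          _ ≤ 1 * s := mul_le_mul_of_nonneg_right (pow_le_one₀ hs.le hs1) hs.le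
          _ = s := one_mul _
      calc ((Nat.factorial (k + 1) : ℝ))⁻¹ *
            ‖iteratedFDeriv ℝ (k + 1) u (c + s • z) (fun _ => x - (c + s • z))‖
          ≤ 1 * (K (k + 1) * (81 ^ (k + 1) * s)) :=
            mul_le_mul hf h4 (norm_nonneg _) zero_le_one
        _ = K (k + 1) * 81 ^ (k + 1) * s := by ring
    linarith
  have hint1 : Integrable (fun z : Sp d => bk d z • u x) := bk_integrable.smul_const _
  have hint2 : Integrable (fun z : Sp d => bk d z • ∑ k ∈ Finset.range (n + 1),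
      ((Nat.factorial k : ℝ)⁻¹ • iteratedFDeriv ℝ k u (c + s • z)
        (fun _ => x - (c + s • z)))) := by
    refine Continuous.integrable_of_hasCompactSupport ?_
      ((bmp d).hasCompactSupport_normed.smul_right)
    refine bk_cont.smul (continuous_finsetSum _ fun k _ => continuous_const.smul ?_)
    have hc1 : Continuous fun z : Sp d => c + s • z := by fun_prop
    have hc2 : Continuous fun z : Sp d => iteratedFDeriv ℝ k u (c + s • z) :=
      (hu.smooth.continuous_iteratedFDeriv (by exact_mod_cast le_top)).comp hc1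
    have hc3 : Continuous fun z : Sp d => (fun _ : Fin k => x - (c + s • z)) := by
      exact continuous_pi fun _ => continuous_const.sub hc1
    exact hc2.eval hc3
  have hATP : u x - ATP n c s u x = ∫ z, (bk d z • u x - bk d z • ∑ k ∈ Finset.range (n + 1),
      ((Nat.factorial k : ℝ)⁻¹ • iteratedFDeriv ℝ k u (c + s • z)
        (fun _ => x - (c + s • z)))) := by
    rw [integral_sub hint1 hint2, integral_smul_const, bk_int, one_smul]
    rfl
  rw [hATP]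
  have h6 : ‖∫ z, (bk d z • u x - bk d z • ∑ k ∈ Finset.range (n + 1),
      ((Nat.factorial k : ℝ)⁻¹ • iteratedFDeriv ℝ k u (c + s • z)
        (fun _ => x - (c + s • z))))‖ ≤ ∫ z, bk d z * ((K 1 * 81 + S) * s) := by
    refine norm_integral_le_of_norm_le (bk_integrable.mul_const _)
      (Filter.Eventually.of_forall fun z => ?_)
    rw [← smul_sub, norm_smul, Real.norm_eq_abs, abs_of_nonneg (bk_nonneg z)]
    rcases le_or_gt 1 ‖z‖ with hz | hz
    · rw [bk_zero hz]; simp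
    · exact mul_le_mul_of_nonneg_left (hterm z hz.le) (bk_nonneg z)
  rwa [integral_mul_const, bk_int, one_mul] at h6

omit [FiniteDimensional ℝ V] in
/-- the averaged Taylor polynomial over a ball on which u vanishes is zero -/
lemma co_zero (n : ℕ) (u : Sp d → V) (c : Sp d) (r : ℝ) (hr : 0 < r)
    (h : ∀ y, ‖y - c‖ ≤ r → y ∉ tsupport u) (x : Sp d) : ATP n c r u x = 0 := by
  unfold ATP
  have h1 : ∀ z : Sp d, bk d z • ∑ k ∈ Finset.range (n + 1),
      ((Nat.factorial k : ℝ)⁻¹ • iteratedFDeriv ℝ k u (c + r • z) (fun _ => x - (c + r • z))) =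
      0 := by
    intro z
    rcases le_or_gt 1 ‖z‖ with hz | hz
    · rw [bk_zero hz, zero_smul]
    · have h2 : c + r • z ∉ tsupport u := by
        refine h _ ?_
        rw [add_sub_cancel_left, norm_smul, Real.norm_eq_abs, abs_of_pos hr]
        calc r * ‖z‖ ≤ r * 1 := mul_le_mul_of_nonneg_left hz.le hr.le
          _ = r := mul_one r
      have h3 : ∀ k : ℕ, iteratedFDeriv ℝ k u (c + r • z) = 0 := by
        intro k
        have h4 : c + r • z ∉ tsupport (iteratedFDeriv ℝ k u) := fun h5 =>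
          h2 (tsupport_iteratedFDeriv_subset k h5)
        exact image_eq_zero_of_notMem_tsupport h4
      simp [h3]
  simp only [h1, integral_zero]

end Taylor

section Decay

variable {E : Type} [NormedAddCommGroup E] [InnerProductSpace ℝ E] [FiniteDimensional ℝ E]
  {b : Sp d → ℝ} {M c0 : ℝ}

/-- the L1 norms of the smoothed fields are at most that of f -/
lemma co_fl_int (hb : BaseKer 2 M c0 b) (ε s0 : ℝ) {f : Sp d → E} (hf : Continuous f)
    (hfc : HasCompactSupport f) (i : ℕ) :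
    Integrable (fun y => ‖fl b ε s0 f i y‖) ∧
      ∫ y, ‖fl b ε s0 f i y‖ ≤ ∫ y, ‖f y‖ := by
  have hc : ∀ i, Continuous (fl b ε s0 f i) := fun i => flA_cont hb ε s0 hf i
  have hcs : ∀ i, HasCompactSupport (fl b ε s0 f i) := fun i => flA_cs hb ε s0 hfc i
  have hi : ∀ i, Integrable (fun y => ‖fl b ε s0 f i y‖) := fun i =>
    (hc i).norm.integrable_of_hasCompactSupport (hcs i).norm
  refine ⟨hi i, ?_⟩
  induction i with
  | zero => exact le_rfl
  | succ i ih =>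
    refine le_trans ?_ ih
    have h1 : ∫ y, ‖fl b ε s0 f (i + 1) y‖ ≤
        ∫ y, avk b (ε * lev s0 (i + 1)) (fun z => ‖fl b ε s0 f i z‖) y := by
      refine integral_mono (hi (i + 1)) ?_ fun y => ?_
      · exact hb.gk.avk_integrable (hi i) (LB.of_cont (hc i).norm) _
      · exact hb.gk.norm_avk_le _ _ _
    rwa [hb.gk.avk_int (hi i) (LB.of_cont (hc i).norm)] at h1

lemma co_ma (hb : BaseKer 2 M c0 b) (ε s0 : ℝ) (hs0 : 0 < s0) {f : Sp d → E}
    (hf : Continuous f) (hfc : HasCompactSupport f) (R0 : ℝ) (i : ℕ) (x : Sp d) :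
    ma b ε R0 s0 f i x ≤ lev s0 i / lev s0 i ^ d * ∫ y, ‖f y‖ := by
  unfold ma
  obtain ⟨h1, h2⟩ := co_fl_int hb ε s0 hf hfc (i - 1)
  have h3 := levA_pos hs0 i
  refine mul_le_mul_of_nonneg_left ?_ (by positivity)
  exact (setIntegral_le_integral h1 (Filter.Eventually.of_forall fun y => norm_nonneg _)).trans h2

lemma co_geom (i : ℕ) : ∑ l ∈ Finset.range (i + 1), (1 / 4 : ℝ) ^ (i - l) ≤ 2 := by
  have h1 : ∑ l ∈ Finset.range (i + 1), (1 / 4 : ℝ) ^ (i - l) =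
      ∑ l ∈ Finset.range (i + 1), (1 / 4 : ℝ) ^ l := by
    rw [← Finset.sum_range_reflect]
    refine Finset.sum_congr rfl fun l hl => ?_
    have := Finset.mem_range.mp hl
    congr 1
    omega
  rw [h1, geom_sum_eq (by norm_num)]
  have h2 : 0 ≤ (1 / 4 : ℝ) ^ (i + 1) := by positivity
  have h3 : ((1 / 4 : ℝ) ^ (i + 1) - 1) / (1 / 4 - 1) = 4 / 3 - 4 / 3 * (1 / 4 : ℝ) ^ (i + 1) := by
    ring
  rw [h3]
  linarith only [h2]

lemma co_DD (hb : BaseKer 2 M c0 b) (ε s0 : ℝ) (hs0 : 0 < s0) {f : Sp d → E}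
    (hf : Continuous f) (hfc : HasCompactSupport f) (R : ℝ) (i : ℕ) (x : Sp d) (e : E)
    (he : ‖e‖ = 1) :
    DD b ε R s0 f i x e ≤ lev s0 i / lev s0 i ^ d * (5 * ∫ y, ‖f y‖) := by
  unfold DD
  have h3 := levA_pos hs0 i
  refine mul_le_mul_of_nonneg_left ?_ (by positivity)
  have hI : 0 ≤ ∫ y, ‖f y‖ := integral_nonneg fun y => norm_nonneg _
  have hA : ∀ l, (∫ y in ball x (R * lev s0 i), (‖fl b ε s0 f l y‖ - ⟪fl b ε s0 f l y, e⟫_ℝ)) ≤
      2 * ∫ y, ‖f y‖ := by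
    intro l
    obtain ⟨h1, h2⟩ := co_fl_int hb ε s0 hf hfc l
    have hin : ∀ y, |⟪fl b ε s0 f l y, e⟫_ℝ| ≤ ‖fl b ε s0 f l y‖ := fun y => by
      have := abs_real_inner_le_norm (fl b ε s0 f l y) e
      rwa [he, mul_one] at this
    calc (∫ y in ball x (R * lev s0 i), (‖fl b ε s0 f l y‖ - ⟪fl b ε s0 f l y, e⟫_ℝ))
        ≤ ∫ y in ball x (R * lev s0 i), 2 * ‖fl b ε s0 f l y‖ := by
          refine integral_mono_of_nonneg (Filter.Eventually.of_forall fun y => ?_)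
            (h1.integrableOn.const_mul 2) (Filter.Eventually.of_forall fun y => ?_)
          · have := (abs_le.mp (hin y)).2
            simp only [Pi.zero_apply]
            linarith
          · have := (abs_le.mp (hin y)).1
            simp only
            linarith
      _ ≤ ∫ y, 2 * ‖fl b ε s0 f l y‖ := setIntegral_le_integral (h1.const_mul 2)
          (Filter.Eventually.of_forall fun y => by positivity)
      _ = 2 * ∫ y, ‖fl b ε s0 f l y‖ := integral_const_mul _ _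
      _ ≤ 2 * ∫ y, ‖f y‖ := by linarith
  have hB : ∑ l ∈ Finset.range (i + 1), (1 / 4 : ℝ) ^ (i - l) *
      (∫ y in ball x (R * lev s0 i), (‖fl b ε s0 f l y‖ - ⟪fl b ε s0 f l y, e⟫_ℝ)) ≤
      2 * (2 * ∫ y, ‖f y‖) := by
    calc ∑ l ∈ Finset.range (i + 1), (1 / 4 : ℝ) ^ (i - l) *
        (∫ y in ball x (R * lev s0 i), (‖fl b ε s0 f l y‖ - ⟪fl b ε s0 f l y, e⟫_ℝ))
        ≤ ∑ l ∈ Finset.range (i + 1), (1 / 4 : ℝ) ^ (i - l) * (2 * ∫ y, ‖f y‖) :=
          Finset.sum_le_sum fun l _ => mul_le_mul_of_nonneg_left (hA l) (by positivity)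
      _ = (∑ l ∈ Finset.range (i + 1), (1 / 4 : ℝ) ^ (i - l)) * (2 * ∫ y, ‖f y‖) := by
          rw [Finset.sum_mul]
      _ ≤ 2 * (2 * ∫ y, ‖f y‖) := mul_le_mul_of_nonneg_right (co_geom i) (by positivity)
  have hC : (1 / 4 : ℝ) ^ i * ∫ y in ball x (R * lev s0 i), ‖f y‖ ≤ 1 * ∫ y, ‖f y‖ := by
    refine mul_le_mul (pow_le_one₀ (by norm_num) (by norm_num)) ?_
      (integral_nonneg fun y => norm_nonneg _) zero_le_one
    exact setIntegral_le_integral (hf.norm.integrable_of_hasCompactSupport hfc.norm)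
      (Filter.Eventually.of_forall fun y => norm_nonneg _)
  linarith

lemma co_lim (hd : 2 ≤ d) (s0 : ℝ) (hs0 : 0 < s0) (K : ℝ) :
    Tendsto (fun i => lev s0 i / lev s0 i ^ d * K) atTop (𝓝 0) := by
  have h1 : Tendsto (fun i => lev s0 i) atTop atTop := by
    unfold lev
    exact (tendsto_pow_atTop_atTop_of_one_lt (by norm_num : (1 : ℝ) < 2)).const_mul_atTop hs0
  have h2 : Tendsto (fun i => (lev s0 i ^ (d - 1))⁻¹) atTop (𝓝 0) :=
    ((tendsto_pow_atTop (by omega)).comp h1).inv_tendsto_atTop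
  have h3 : (fun i => lev s0 i / lev s0 i ^ d * K) = fun i => (lev s0 i ^ (d - 1))⁻¹ * K := by
    funext i
    have h4 := levA_pos hs0 i
    have h5 : lev s0 i ^ d = lev s0 i * lev s0 i ^ (d - 1) := by
      rw [← pow_succ']
      congr 1
      omega
    rw [h5]
    field_simp
  rw [h3]
  simpa using h2.mul_const K

end Decay

section Main

lemma co_sqrt_le (hd : 1 ≤ d) : Real.sqrt d ≤ d := by
  rw [Real.sqrt_le_iff]
  have h1 : (1 : ℝ) ≤ d := by exact_mod_cast hd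
  exact ⟨by linarith, by nlinarith⟩

theorem stmtCO (hNS : TrI.StmtNS) (hHU : StmtHU) (_hTQ : StmtTQ) (hSC : StmtSC) (hSD : StmtSD) :
    StmtCO := by
  intro d V E _ _ _ _ _ _ L hd hL M c0 ε hε hε1 b hb R0 hR0
  obtain ⟨n0, T, hn0, hNSP⟩ := hNS d V E L hL
  have hd1 : 1 ≤ d := by omega
  have hdR : (2 : ℝ) ≤ d := by exact_mod_cast hd
  obtain ⟨C, hC, hHUC⟩ := hHU d V E L n0 T hd1 hn0 hNSP M c0 ε hε hε1 b hb R0 (by linarith)
  refine ⟨C, hC, fun R hR u hu => ?_⟩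
  obtain ⟨Cu, hCu, hbot⟩ := co_bottom n0 u hu
  refine ⟨Cu, hCu, fun s0 hs0 hs01 x xs e νs cs B hxs he hν hht hB => ?_⟩
  obtain ⟨q, hq1, hq2, hq3⟩ := co_centres s0 hs0 x νs cs hν
  have hf : Continuous (fo L u) := by
    unfold fo
    exact L.continuous.comp (hu.smooth.continuous_fderiv (by simp))
  have hfc : HasCompactSupport (fo L u) := by
    have h1 : HasCompactSupport (fderiv ℝ u) := hu.supp.fderiv ℝ
    exact h1.comp_left (g := fun A => L A) (map_zero L)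
  have hsq := co_sqrt_le hd1
  have hlev := fun i => levA_pos hs0 i
  -- the frame of level i
  have hframe : ∀ (i : ℕ), s0 / lev s0 i = (1 / 2 : ℝ) ^ i := by
    intro i
    unfold lev
    rw [one_div, inv_pow]
    field_simp
  have hSCi := fun (i : ℕ) => hSC d hd 1 one_pos (xs i) (lev s0 i) (hlev i)
  have hu' : ∀ i, TF (fun y => u (xs i + lev s0 i • y)) := fun i =>
    ((hSCi i).2.2 V E L u hu).1
  have hfo' : ∀ i, fo L (fun y => u (xs i + lev s0 i • y)) = rs (xs i) (lev s0 i) (fo L u) :=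
    fun i => ((hSCi i).2.2 V E L u hu).2
  have hDD' : ∀ i, DD b ε R ((1 / 2) ^ i) (fo L fun y => u (xs i + lev s0 i • y)) i 0 (e i) =
      DD b ε R s0 (fo L u) i (xs i) (e i) := by
    intro i
    rw [hfo' i, ← hframe i,
      ((hSCi i).2.1 E M c0 b hb ε hε hε1 (fo L u) hf hfc s0 hs0).2.1 R i 0 (e i), smul_zero,
      add_zero]
  have hma' : ∀ i, ma b ε R0 ((1 / 2) ^ i) (fo L fun y => u (xs i + lev s0 i • y)) i 0 =
      ma b ε R0 s0 (fo L u) i (xs i) := by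
    intro i
    rw [hfo' i, ← hframe i,
      ((hSCi i).2.1 E M c0 b hb ε hε hε1 (fo L u) hf hfc s0 hs0).2.2 R0 i 0, smul_zero, add_zero]
  have hATP : ∀ (i : ℕ) (p : Sp d) (r : ℝ), ATP n0 ((1 / lev s0 i) • (p - xs i)) r
      (fun y => u (xs i + lev s0 i • y)) ((1 / lev s0 i) • (x - xs i)) =
      ATP n0 p (lev s0 i * r) u x := by
    intro i p r
    rw [hSD.1 d V u hu.smooth (xs i) (lev s0 i) (hlev i)]
    have h1 : ∀ w : Sp d, xs i + lev s0 i • ((1 / lev s0 i) • (w - xs i)) = w := by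
      intro w
      rw [smul_smul, mul_one_div_cancel (hlev i).ne', one_smul, add_sub_cancel]
    rw [h1, h1]
  have hxx : ∀ i, ‖(1 / lev s0 i) • (x - xs i)‖ ≤ Real.sqrt d := by
    intro i
    rw [norm_smul, Real.norm_eq_abs, abs_of_pos (by have := hlev i; positivity), norm_sub_rev,
      one_div, inv_mul_le_iff₀ (hlev i)]
    linarith [hxs i]
  have hpt : ∀ (i : ℕ) (p : Sp d) (K : ℝ), ‖p - x‖ ≤ K * lev s0 i →
      ‖(1 / lev s0 i) • (p - xs i)‖ ≤ K + Real.sqrt d := by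
    intro i p K hp
    rw [norm_smul, Real.norm_eq_abs, abs_of_pos (by have := hlev i; positivity),
      one_div, inv_mul_le_iff₀ (hlev i)]
    have h1 : p - xs i = (p - x) - (xs i - x) := by abel
    rw [h1]
    refine (norm_sub_le _ _).trans ?_
    linarith [hxs i]
  -- one step
  have hstep : ∀ i, ‖ATP n0 (q i) (lev s0 (i + 1) / 2) u x -
      ATP n0 (q (i + 1)) (lev s0 (i + 2) / 2) u x‖ ≤
      C * bD b ε R0 R s0 (fo L u) (i + 2) (xs (i + 2)) (e (i + 2)) (νs (i + 2)) (cs (i + 2)) := by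
    intro i
    set k := i + 2 with hk
    have ht := hlev k
    have hlk : lev s0 k = 2 * lev s0 (i + 1) := levA_succ s0 (i + 1)
    have hc1 : ‖(1 / lev s0 k) • (q i - xs k)‖ ≤ 20 + Real.sqrt d :=
      hpt k (q i) 20 (by linarith [hq1 i])
    have hc2 : ‖(1 / lev s0 k) • (q (i + 1) - xs k)‖ ≤ 40 + Real.sqrt d :=
      hpt k (q (i + 1)) 40 (hq1 (i + 1))
    set cc : ℝ := (cs k - ⟪νs k, xs k⟫_ℝ) / lev s0 k with hcc
    have hccle : |cc| ≤ 3 * R0 := by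
      rw [hcc, abs_div, abs_of_pos ht, div_le_iff₀ ht, abs_sub_comm]
      have := hht k
      unfold TG.ht at this
      refine this.trans ?_
      have : R0 + 3 ≤ 3 * R0 := by linarith
      exact mul_le_mul_of_nonneg_right this ht.le
    have hhtq : ∀ p : Sp d, TG.ht (νs k) cc ((1 / lev s0 k) • (p - xs k)) =
        TG.ht (νs k) (cs k) p / lev s0 k := by
      intro p
      unfold TG.ht
      rw [hcc, inner_smul_right, inner_sub_right]
      field_simp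
      ring
    have hhull := co_hull (νs k) (hν k) cc ((1 / lev s0 k) • (q i - xs k))
      ((1 / lev s0 k) • (q (i + 1) - xs k))
      (by
        rw [hhtq, abs_div, abs_of_pos ht, le_div_iff₀ ht]
        have := hq2 i
        linarith)
      (by
        have h1 : q (i + 1) - xs k - (q i - xs k) = q (i + 1) - q i := by abel
        rw [hhtq, ← smul_sub, inner_smul_right, h1]
        have h2 := hq3 i
        rw [← hk] at h2
        have h4 : TG.ht (νs k) (cs k) (q i) / lev s0 k *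
            (1 / lev s0 k * ⟪νs k, q (i + 1) - q i⟫_ℝ) =
            (1 / lev s0 k) ^ 2 * (TG.ht (νs k) (cs k) (q i) * ⟪νs k, q (i + 1) - q i⟫_ℝ) := by
          field_simp
        rw [h4]
        positivity)
    have hHU2 := (hHUC R hR k (fun y => u (xs k + lev s0 k • y)) (hu' k) (e k) (he k)
      ((1 / lev s0 k) • (q i - xs k)) ((1 / lev s0 k) • (q (i + 1) - xs k)) (1 / 4) (1 / 2)
      (by norm_num) (by norm_num) (by norm_num) (by norm_num) (by linarith) (by linarith)).2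
      (νs k) cc (hν k) hccle hhull ((1 / lev s0 k) • (x - xs k))
      ((hxx k).trans (by linarith))
    rw [hATP, hATP] at hHU2
    have h5 : lev s0 k * (1 / 4) = lev s0 (i + 1) / 2 := by rw [hlk]; ring
    have h6 : lev s0 k * (1 / 2) = lev s0 k / 2 := by ring
    rw [h5, h6] at hHU2
    refine hHU2.trans (le_of_eq ?_)
    congr 1
    unfold bD
    rw [hDD' k]
    congr 2
    have h7 := hSD.2 d E (fo L u) hd1 hf hfc (xs k) (lev s0 k) ht R0 s0 k 0 (e k) (νs k) cc hs0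
    rw [hframe k, smul_zero, add_zero] at h7
    rw [hfo' k, h7]
    congr 1
    rw [hcc]
    field_simp
    ring
  -- top
  have htop : Tendsto (fun i => ATP n0 (q i) (lev s0 (i + 1) / 2) u x) atTop (𝓝 0) := by
    set I := ∫ y, ‖fo L u y‖ with hI
    have hlim : Tendsto (fun i => C * (lev s0 (i + 1) / lev s0 (i + 1) ^ d * (6 * I))) atTop
        (𝓝 0) := by
      have := ((co_lim hd s0 hs0 (6 * I)).comp (tendsto_add_atTop_nat 1)).const_mul C
      simpa using this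
    obtain ⟨ρ, hρ⟩ := hu.supp.isCompact.isBounded.subset_closedBall (0 : Sp d)
    have hlarge : ∀ᶠ i in atTop, ρ + ‖x‖ < lev s0 (i + 1) := by
      have h1 : Tendsto (fun i => lev s0 (i + 1)) atTop atTop := by
        have : Tendsto (fun i => lev s0 i) atTop atTop := by
          unfold lev
          exact (tendsto_pow_atTop_atTop_of_one_lt (by norm_num : (1 : ℝ) < 2)).const_mul_atTop hs0
        exact this.comp (tendsto_add_atTop_nat 1)
      exact h1.eventually_gt_atTop _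
    refine squeeze_zero_norm' ?_ hlim
    filter_upwards [hlarge] with i hi
    set k := i + 1 with hk
    have ht := hlev k
    set p : Sp d := x + (30 * lev s0 k) • νs 0 with hp
    have hpx : ‖p - x‖ = 30 * lev s0 k := by
      rw [hp, add_sub_cancel_left, norm_smul, hν 0, mul_one, Real.norm_eq_abs,
        abs_of_pos (by positivity)]
    have hzero : ATP n0 p (lev s0 k / 2) u x = 0 := by
      refine co_zero n0 u p _ (by positivity) (fun y hy hy' => ?_) x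
      have h1 := hρ hy'
      rw [mem_closedBall, dist_zero_right] at h1
      have h2 : ‖p - x‖ ≤ ‖y - p‖ + ‖y‖ + ‖x‖ := by
        have : p - x = -(y - p) + y - x := by abel
        rw [this]
        refine (norm_sub_le _ _).trans ?_
        have := norm_add_le (-(y - p)) y
        rw [norm_neg] at this
        linarith
      rw [hpx] at h2
      linarith
    have hc1 : ‖(1 / lev s0 k) • (q i - xs k)‖ ≤ 40 + Real.sqrt d := hpt k (q i) 40 (hq1 i)
    have hc2 : ‖(1 / lev s0 k) • (p - xs k)‖ ≤ 30 + Real.sqrt d := hpt k p 30 hpx.le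
    have hHU1 := (hHUC R hR k (fun y => u (xs k + lev s0 k • y)) (hu' k) (e k) (he k)
      ((1 / lev s0 k) • (q i - xs k)) ((1 / lev s0 k) • (p - xs k)) (1 / 2) (1 / 2)
      (by norm_num) (by norm_num) (by norm_num) (by norm_num) (by linarith) (by linarith)).1
      ((1 / lev s0 k) • (x - xs k)) ((hxx k).trans (by linarith))
    have h6 : lev s0 k * (1 / 2) = lev s0 k / 2 := by ring
    rw [hATP, hATP, h6, hzero, sub_zero, hDD' k, hma' k] at hHU1
    refine hHU1.trans ?_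
    refine mul_le_mul_of_nonneg_left ?_ hC.le
    have h7 := co_ma hb ε s0 hs0 hf hfc R0 k (xs k)
    have h8 := co_DD hb ε s0 hs0 hf hfc R k (xs k) (e k) (he k)
    calc _ ≤ lev s0 k / lev s0 k ^ d * I + lev s0 k / lev s0 k ^ d * (5 * I) := add_le_add h7 h8
      _ = _ := by ring
  -- telescoping
  have htel : ∀ I : ℕ, ‖ATP n0 (q 0) (lev s0 1 / 2) u x‖ ≤
      C * B + ‖ATP n0 (q I) (lev s0 (I + 1) / 2) u x‖ := by
    intro I
    have h1 : ∀ I : ℕ, ‖ATP n0 (q 0) (lev s0 1 / 2) u x‖ ≤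
        C * (∑ i ∈ Finset.Ico 2 (I + 2),
          bD b ε R0 R s0 (fo L u) i (xs i) (e i) (νs i) (cs i)) +
        ‖ATP n0 (q I) (lev s0 (I + 1) / 2) u x‖ := by
      intro I
      induction I with
      | zero => simp
      | succ I ih =>
        rw [Finset.sum_Ico_succ_top (by omega : 2 ≤ I + 2)]
        have h2 := hstep I
        have h3 : ‖ATP n0 (q I) (lev s0 (I + 1) / 2) u x‖ ≤
            ‖ATP n0 (q I) (lev s0 (I + 1) / 2) u x - ATP n0 (q (I + 1)) (lev s0 (I + 2) / 2) u x‖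
            + ‖ATP n0 (q (I + 1)) (lev s0 (I + 2) / 2) u x‖ := by
          have := norm_add_le (ATP n0 (q I) (lev s0 (I + 1) / 2) u x -
            ATP n0 (q (I + 1)) (lev s0 (I + 2) / 2) u x)
            (ATP n0 (q (I + 1)) (lev s0 (I + 2) / 2) u x)
          rwa [sub_add_cancel] at this
        have h4 : I + 1 + 1 = I + 2 := rfl
        rw [h4]
        linarith
    have h5 := mul_le_mul_of_nonneg_left (hB (I + 2)) hC.le
    linarith [h1 I]
  have hlev1 : lev s0 1 / 2 = s0 := by unfold lev; ring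
  have h1 : ‖ATP n0 (q 0) s0 u x‖ ≤ C * B := by
    have h2 : Tendsto (fun I => C * B + ‖ATP n0 (q I) (lev s0 (I + 1) / 2) u x‖) atTop
        (𝓝 (C * B + ‖(0 : V)‖)) := tendsto_const_nhds.add htop.norm
    have h3 := ge_of_tendsto' h2 htel
    rwa [norm_zero, add_zero, hlev1] at h3
  have h2 := hbot s0 hs0 hs01 x (q 0) (by
    have := hq1 0
    simp only [zero_add] at this
    have h3 : lev s0 1 = 2 * s0 := by unfold lev; ring
    rw [h3] at this
    linarith)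
  have h3 : ‖u x‖ ≤ ‖u x - ATP n0 (q 0) s0 u x‖ + ‖ATP n0 (q 0) s0 u x‖ := by
    have := norm_add_le (u x - ATP n0 (q 0) s0 u x) (ATP n0 (q 0) s0 u x)
    rwa [sub_add_cancel] at this
  linarith

end Main

end

end TG


end

section

/-!
# Module PL, part 1: functions with bounded derivatives, cut-off functions (by helper95)
-/

open MeasureTheory Metric Set TrI
open scoped InnerProductSpace ContDiff

namespace TG

namespace PL

section CBs

variable {X X' F F' : Type*} [NormedAddCommGroup X] [NormedSpace ℝ X] [NormedAddCommGroup X']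
  [NormedSpace ℝ X'] [NormedAddCommGroup F] [NormedSpace ℝ F] [NormedAddCommGroup F']
  [NormedSpace ℝ F'] {J : ℕ} {N : ℝ}

/-- all derivatives of order at most J are bounded by N -/
structure CB (J : ℕ) (N : ℝ) (g : X → F) : Prop where
  smooth : ContDiff ℝ J g
  bd : ∀ j ≤ J, ∀ x, ‖iteratedFDeriv ℝ j g x‖ ≤ N

lemma CB.nonneg {g : X → F} (h : CB J N g) : 0 ≤ N :=
  (norm_nonneg _).trans (h.bd 0 (Nat.zero_le _) 0)

lemma CB.mono {g : X → F} (h : CB J N g) {J' : ℕ} {N' : ℝ} (hJ : J' ≤ J) (hN : N ≤ N') :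
    CB J' N' g :=
  ⟨h.smooth.of_le (by exact_mod_cast hJ), fun j hj x => (h.bd j (hj.trans hJ) x).trans hN⟩

lemma CB.norm_le {g : X → F} (h : CB J N g) (x : X) : ‖g x‖ ≤ N := by
  have := h.bd 0 (Nat.zero_le _) x
  rwa [norm_iteratedFDeriv_zero] at this

lemma CB.add {f g : X → F} {N' : ℝ} (hf : CB J N f) (hg : CB J N' g) :
    CB J (N + N') (fun x => f x + g x) := by
  refine ⟨hf.smooth.add hg.smooth, fun j hj x => ?_⟩
  have e : (fun x => f x + g x) = f + g := rfl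
  rw [e, iteratedFDeriv_add_apply (hf.smooth.contDiffAt.of_le (by exact_mod_cast hj))
    (hg.smooth.contDiffAt.of_le (by exact_mod_cast hj))]
  exact (norm_add_le _ _).trans (add_le_add (hf.bd j hj x) (hg.bd j hj x))

lemma CB.neg {f : X → F} (hf : CB J N f) : CB J N (fun x => -f x) := by
  refine ⟨hf.smooth.neg, fun j hj x => ?_⟩
  have e : (fun x => -f x) = -f := rfl
  rw [e, iteratedFDeriv_neg_apply, norm_neg]
  exact hf.bd j hj x

lemma CB.sub {f g : X → F} {N' : ℝ} (hf : CB J N f) (hg : CB J N' g) :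
    CB J (N + N') (fun x => f x - g x) := by
  have := hf.add hg.neg
  simpa only [sub_eq_add_neg] using this

lemma CB.smul {f : X → F} (c : ℝ) (hf : CB J N f) : CB J (|c| * N) (fun x => c • f x) := by
  refine ⟨hf.smooth.const_smul c, fun j hj x => ?_⟩
  rw [iteratedFDeriv_const_smul_apply' (hf.smooth.contDiffAt.of_le (by exact_mod_cast hj)),
    norm_smul, Real.norm_eq_abs]
  exact mul_le_mul_of_nonneg_left (hf.bd j hj x) (abs_nonneg _)

lemma CB.mulc {f : X → ℝ} (c : ℝ) (hf : CB J N f) : CB J (|c| * N) (fun x => c * f x) := by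
  simpa only [smul_eq_mul] using hf.smul c

lemma CB.mul {f g : X → ℝ} {N' : ℝ} (hf : CB J N f) (hg : CB J N' g) :
    CB J (2 ^ J * (N * N')) (fun x => f x * g x) := by
  refine ⟨hf.smooth.mul hg.smooth, fun j hj x => ?_⟩
  have h1 := norm_iteratedFDeriv_mul_le hf.smooth hg.smooth x (n := j) (by exact_mod_cast hj)
  refine h1.trans ?_
  have hN := hf.nonneg
  have hN' := hg.nonneg
  calc ∑ i ∈ Finset.range (j + 1), (j.choose i : ℝ) * ‖iteratedFDeriv ℝ i f x‖ *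
        ‖iteratedFDeriv ℝ (j - i) g x‖
      ≤ ∑ i ∈ Finset.range (j + 1), (j.choose i : ℝ) * (N * N') := by
        refine Finset.sum_le_sum fun i hi => ?_
        have hi' := Finset.mem_range.mp hi
        rw [mul_assoc]
        refine mul_le_mul_of_nonneg_left ?_ (Nat.cast_nonneg _)
        exact mul_le_mul (hf.bd i (by omega) x) (hg.bd (j - i) (by omega) x) (norm_nonneg _) hN
    _ = 2 ^ j * (N * N') := by
        rw [← Finset.sum_mul]
        congr 1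
        exact_mod_cast Nat.sum_range_choose j
    _ ≤ 2 ^ J * (N * N') := by
        refine mul_le_mul_of_nonneg_right ?_ (by positivity)
        exact pow_le_pow_right₀ (by norm_num) hj

lemma CB.comp_right {g : X → F} (hg : CB J N g) (A : X' →L[ℝ] X) (hA : ‖A‖ ≤ 1) :
    CB J N (fun x => g (A x)) := by
  refine ⟨hg.smooth.comp A.contDiff, fun j hj x => ?_⟩
  have e : (fun x => g (A x)) = g ∘ A := rfl
  rw [e, A.iteratedFDeriv_comp_right hg.smooth x (by exact_mod_cast hj)]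
  refine (ContinuousMultilinearMap.norm_compContinuousLinearMap_le _ _).trans ?_
  rw [Finset.prod_const, Finset.card_univ, Fintype.card_fin]
  have h1 : ‖A‖ ^ j ≤ 1 := pow_le_one₀ (norm_nonneg _) hA
  have h2 := hg.bd j hj (A x)
  have h3 : 0 ≤ ‖A‖ ^ j := by positivity
  have h4 := norm_nonneg (iteratedFDeriv ℝ j g (A x))
  nlinarith only [h2, h1, h4]

lemma CB.comp_left {g : X → F} (hg : CB J N g) (A : F →L[ℝ] F') :
    CB J (‖A‖ * N) (fun x => A (g x)) := by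
  refine ⟨A.contDiff.comp hg.smooth, fun j hj x => ?_⟩
  have e : (fun x => A (g x)) = A ∘ g := rfl
  rw [e]
  refine (A.norm_iteratedFDeriv_comp_left hg.smooth.contDiffAt (by exact_mod_cast hj)).trans ?_
  exact mul_le_mul_of_nonneg_left (hg.bd j hj x) (norm_nonneg _)

lemma CB.comp_subc {g : X → F} (hg : CB J N g) (a : X) : CB J N (fun x => g (x - a)) := by
  refine ⟨hg.smooth.comp (contDiff_id.sub contDiff_const), fun j hj x => ?_⟩
  rw [iteratedFDeriv_comp_sub]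
  exact hg.bd j hj _

lemma CB.of_compact {g : X → F} (hg : ContDiff ℝ ∞ g) (hs : HasCompactSupport g) (J : ℕ) :
    ∃ K : ℝ, 0 < K ∧ CB J K g := by
  have h1 : ∀ j : ℕ, ∃ C : ℝ, 0 ≤ C ∧ ∀ x, ‖iteratedFDeriv ℝ j g x‖ ≤ C := by
    intro j
    obtain ⟨C, hC⟩ := (hg.continuous_iteratedFDeriv (m := j)
      (by exact_mod_cast le_top)).bounded_above_of_compact_support (hs.iteratedFDeriv j)
    exact ⟨max C 0, le_max_right _ _, fun x => (hC x).trans (le_max_left _ _)⟩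
  choose C hC0 hC using h1
  refine ⟨(∑ j ∈ Finset.range (J + 1), C j) + 1, ?_, hg.of_le (by exact_mod_cast le_top), ?_⟩
  · have := Finset.sum_nonneg (s := Finset.range (J + 1)) (f := C) fun j _ => hC0 j
    linarith
  · intro j hj x
    have h2 : C j ≤ ∑ j ∈ Finset.range (J + 1), C j :=
      Finset.single_le_sum (f := C) (fun j _ => hC0 j) (Finset.mem_range.mpr (by omega))
    linarith [hC j x]

end CBs

variable {d : ℕ}

lemma CB_of_TFn {F : Type*} [NormedAddCommGroup F] [NormedSpace ℝ F] {J : ℕ} {N : ℝ}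
    {g : Sp d → F} (h : TFn J N g) : CB J N g := ⟨h.smooth, h.bd⟩

lemma TFn_of_CB {F : Type*} [NormedAddCommGroup F] [NormedSpace ℝ F] {J : ℕ} {N : ℝ}
    {g : Sp d → F} (h : CB J N g) : TFn J N g := ⟨h.smooth, h.bd⟩

/-! ### cut-off functions -/

lemma zR_nonneg (R : ℝ) (x : Sp d) : 0 ≤ zR R x := Real.smoothTransition.nonneg _

lemma zR_le_one (R : ℝ) (x : Sp d) : zR R x ≤ 1 := Real.smoothTransition.le_one _

lemma zR_one {R : ℝ} {x : Sp d} (h : ‖x‖ ≤ R) : zR R x = 1 :=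
  Real.smoothTransition.one_of_one_le (by linarith)

lemma zR_zero {R : ℝ} {x : Sp d} (h : R + 1 ≤ ‖x‖) : zR R x = 0 :=
  Real.smoothTransition.zero_of_nonpos (by linarith)

lemma norm_lt_of_zR {R : ℝ} {x : Sp d} (h : zR R x ≠ 0) : ‖x‖ < R + 1 := by
  by_contra h1
  exact h (zR_zero (not_lt.mp h1))

lemma zR_cd {R : ℝ} (hR : 0 < R) : ContDiff ℝ ∞ (zR R : Sp d → ℝ) := by
  rw [contDiff_iff_contDiffAt]
  intro x
  by_cases hx : x = 0
  · subst hx
    have h1 : (zR R : Sp d → ℝ) =ᶠ[nhds 0] fun _ => 1 := by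
      filter_upwards [Metric.ball_mem_nhds (0 : Sp d) hR] with y hy
      exact zR_one (by simpa using (mem_ball_zero_iff.mp hy).le)
    exact contDiffAt_const.congr_of_eventuallyEq h1
  · have h1 : ContDiffAt ℝ ∞ (fun y : Sp d => R + 1 - ‖y‖) x :=
      contDiffAt_const.sub (contDiffAt_norm ℝ hx)
    exact (Real.smoothTransition.contDiff (n := ⊤)).contDiffAt.comp x h1

lemma zR_cs (R : ℝ) : HasCompactSupport (zR R : Sp d → ℝ) := by
  refine HasCompactSupport.intro (isCompact_closedBall (0 : Sp d) (R + 1)) fun x hx => ?_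
  rw [mem_closedBall_zero_iff, not_le] at hx
  exact zR_zero hx.le

lemma cu1_nonneg (ρ z : ℝ) : 0 ≤ cu1 ρ z := Real.smoothTransition.nonneg _

lemma cu1_le_one (ρ z : ℝ) : cu1 ρ z ≤ 1 := Real.smoothTransition.le_one _

lemma cu1_one {ρ z : ℝ} (h : |z| ≤ ρ) : cu1 ρ z = 1 :=
  Real.smoothTransition.one_of_one_le (by linarith)

lemma cu1_zero {ρ z : ℝ} (h : ρ + 1 ≤ |z|) : cu1 ρ z = 0 :=
  Real.smoothTransition.zero_of_nonpos (by linarith)

lemma abs_lt_of_cu1 {ρ z : ℝ} (h : cu1 ρ z ≠ 0) : |z| < ρ + 1 := by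
  by_contra h1
  exact h (cu1_zero (not_lt.mp h1))

lemma cu1_cd {ρ : ℝ} (hρ : 0 < ρ) : ContDiff ℝ ∞ (cu1 ρ) := by
  rw [contDiff_iff_contDiffAt]
  intro x
  by_cases hx : x = 0
  · subst hx
    have h1 : cu1 ρ =ᶠ[nhds 0] fun _ => 1 := by
      filter_upwards [Metric.ball_mem_nhds (0 : ℝ) hρ] with y hy
      exact cu1_one (by simpa using (mem_ball_zero_iff.mp hy).le)
    exact contDiffAt_const.congr_of_eventuallyEq h1
  · have h1 : ContDiffAt ℝ ∞ (fun y : ℝ => ρ + 1 - |y|) x := by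
      have : ContDiffAt ℝ ∞ (fun y : ℝ => ‖y‖) x := contDiffAt_norm ℝ hx
      simpa only [Real.norm_eq_abs] using contDiffAt_const.sub this
    exact (Real.smoothTransition.contDiff (n := ⊤)).contDiffAt.comp x h1

lemma cu1_cs (ρ : ℝ) : HasCompactSupport (cu1 ρ) := by
  refine HasCompactSupport.intro (isCompact_closedBall (0 : ℝ) (ρ + 1)) fun x hx => ?_
  rw [mem_closedBall_zero_iff, not_le, Real.norm_eq_abs] at hx
  exact cu1_zero hx.le

/-- the cut-off in the height -/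
lemma cut_CB (J : ℕ) {ρ : ℝ} (hρ : 0 < ρ) : ∃ K : ℝ, 0 < K ∧ ∀ (d : ℕ) (ν : Sp d) (c : ℝ),
    ‖ν‖ = 1 → CB J K (fun y => cu1 ρ (ht ν c y)) := by
  obtain ⟨K, hK, h⟩ := CB.of_compact (cu1_cd hρ) (cu1_cs ρ) J
  refine ⟨K, hK, fun d ν c hν => ?_⟩
  have h1 := (h.comp_subc c).comp_right (innerSL ℝ ν) (by rw [innerSL_apply_norm, hν])
  exact h1

/-! ### tangential part -/

/-- tang as a linear map -/
noncomputable def tangL (ν : Sp d) : Sp d →L[ℝ] Sp d :=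
  ContinuousLinearMap.id ℝ (Sp d) - (innerSL ℝ ν).smulRight ν

lemma tangL_apply (ν y : Sp d) : tangL ν y = tang ν y := by
  simp [tangL, tang, innerSL_apply_apply]

lemma inner_tang {ν : Sp d} (hν : ‖ν‖ = 1) (y : Sp d) : ⟪ν, tang ν y⟫_ℝ = 0 := by
  unfold tang
  rw [inner_sub_right, inner_smul_right, real_inner_self_eq_norm_sq, hν]
  ring

lemma norm_tang_sq {ν : Sp d} (hν : ‖ν‖ = 1) (y : Sp d) :
    ‖y‖ ^ 2 = ‖tang ν y‖ ^ 2 + ⟪ν, y⟫_ℝ ^ 2 := by
  have h1 : y = tang ν y + ⟪ν, y⟫_ℝ • ν := by unfold tang; abel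
  have h0 : ⟪tang ν y, ν⟫_ℝ = 0 := by
    have h := inner_tang hν y
    rwa [real_inner_comm] at h
  have h2 : ⟪tang ν y, ⟪ν, y⟫_ℝ • ν⟫_ℝ = 0 := by
    rw [inner_smul_right, h0, mul_zero]
  have h3 := norm_add_sq_eq_norm_sq_add_norm_sq_real h2
  rw [← h1, norm_smul, hν, Real.norm_eq_abs] at h3
  have h4 : |⟪ν, y⟫_ℝ| * |⟪ν, y⟫_ℝ| = ⟪ν, y⟫_ℝ ^ 2 := by rw [abs_mul_abs_self]; ring
  linarith only [h3, h4]

lemma norm_tang_le {ν : Sp d} (hν : ‖ν‖ = 1) (y : Sp d) : ‖tang ν y‖ ≤ ‖y‖ := by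
  have := norm_tang_sq hν y
  exact abs_le_of_sq_le_sq' (by linarith only [this, sq_nonneg ⟪ν, y⟫_ℝ]) (norm_nonneg _) |>.2

lemma tangL_norm {ν : Sp d} (hν : ‖ν‖ = 1) : ‖tangL ν‖ ≤ 1 := by
  refine ContinuousLinearMap.opNorm_le_bound _ (by norm_num) fun y => ?_
  rw [tangL_apply, one_mul]
  exact norm_tang_le hν y

lemma tang_tang {ν : Sp d} (hν : ‖ν‖ = 1) (y : Sp d) : tang ν (tang ν y) = tang ν y := by
  conv_lhs => unfold tang
  have := inner_tang hν y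
  unfold tang at this
  rw [this, zero_smul, sub_zero]
  rfl

lemma inner_tang_left (ν w y : Sp d) (hν : ‖ν‖ = 1) :
    ⟪w, tang ν y⟫_ℝ = ⟪tang ν w, tang ν y⟫_ℝ := by
  have h1 : w = tang ν w + ⟪ν, w⟫_ℝ • ν := by unfold tang; abel
  conv_lhs => rw [h1]
  rw [inner_add_left, inner_smul_left, inner_tang hν]
  simp

/-! ### quadratic functions with cut-off -/

lemma quad_CB (d J : ℕ) {ρ : ℝ} (hρ : 0 < ρ) : ∃ K : ℝ, 0 < K ∧ ∀ (w : Sp d) (o : ℝ),
    CB J (K * (‖w‖ ^ 2 + o ^ 2)) (fun x => zR ρ x * (⟪w, x⟫_ℝ + o) ^ 2) := by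
  obtain ⟨K0, hK0, h0⟩ := CB.of_compact (zR_cd (d := d) hρ) (zR_cs ρ) J
  obtain ⟨K1, hK1, h1⟩ := CB.of_compact (zR_cd (d := d) (R := ρ + 1) (by linarith)) (zR_cs (ρ + 1)) J
  have hX : ContDiff ℝ ∞ (fun x : Sp d => zR (ρ + 1) x • x) :=
    (zR_cd (by linarith)).smul contDiff_id
  have hXs : HasCompactSupport (fun x : Sp d => zR (ρ + 1) x • x) :=
    (zR_cs (d := d) (ρ + 1)).smul_right
  obtain ⟨K2, hK2, h2⟩ := CB.of_compact hX hXs J
  refine ⟨2 ^ J * (K0 * (2 ^ J * (2 * (K1 + K2) ^ 2))), by positivity, fun w o => ?_⟩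
  have h3 : CB J (‖innerSL ℝ w‖ * K2 + |o| * K1)
      (fun x : Sp d => (innerSL ℝ w) (zR (ρ + 1) x • x) + o * zR (ρ + 1) x) :=
    (h2.comp_left (innerSL ℝ w)).add (h1.mulc o)
  have h4 := h0.mul (h3.mul h3)
  have e : (fun x : Sp d => zR ρ x * (((innerSL ℝ w) (zR (ρ + 1) x • x) + o * zR (ρ + 1) x) *
      ((innerSL ℝ w) (zR (ρ + 1) x • x) + o * zR (ρ + 1) x))) =
      fun x => zR ρ x * (⟪w, x⟫_ℝ + o) ^ 2 := by
    funext x
    by_cases hx : zR ρ x = 0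
    · rw [hx, zero_mul, zero_mul]
    · have hx1 : zR (ρ + 1) x = 1 := zR_one (norm_lt_of_zR hx).le
      rw [hx1, one_smul, innerSL_apply_apply]
      ring
  rw [e] at h4
  refine h4.mono le_rfl ?_
  rw [innerSL_apply_norm]
  have hw := norm_nonneg w
  have ho := abs_nonneg o
  have h5 : (‖w‖ * K2 + |o| * K1) * (‖w‖ * K2 + |o| * K1) ≤
      2 * (K1 + K2) ^ 2 * (‖w‖ ^ 2 + o ^ 2) := by
    have h6 : ‖w‖ * K2 + |o| * K1 ≤ (K1 + K2) * (‖w‖ + |o|) := by nlinarith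
    have h7 : 0 ≤ ‖w‖ * K2 + |o| * K1 := by positivity
    have h8 : (‖w‖ + |o|) ^ 2 ≤ 2 * (‖w‖ ^ 2 + o ^ 2) := by
      have : |o| ^ 2 = o ^ 2 := sq_abs o
      nlinarith [sq_nonneg (‖w‖ - |o|)]
    have h9 : (‖w‖ * K2 + |o| * K1) * (‖w‖ * K2 + |o| * K1) ≤
        ((K1 + K2) * (‖w‖ + |o|)) * ((K1 + K2) * (‖w‖ + |o|)) :=
      mul_le_mul h6 h6 h7 (by positivity)
    have h10 : 0 ≤ (K1 + K2) ^ 2 := by positivity
    nlinarith only [h9, h8]
  calc 2 ^ J * (K0 * (2 ^ J * ((‖w‖ * K2 + |o| * K1) * (‖w‖ * K2 + |o| * K1))))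
      ≤ 2 ^ J * (K0 * (2 ^ J * (2 * (K1 + K2) ^ 2 * (‖w‖ ^ 2 + o ^ 2)))) := by
        gcongr
    _ = _ := by ring

end PL

end TG


end

section

/-!
# Module PL, part 2: the functionals at unit scale, use of Lemma Z (by helper95)
-/

open MeasureTheory Metric Set TrI
open scoped InnerProductSpace ContDiff

namespace TG

namespace PL

variable {d : ℕ}

section Fn

variable {E : Type} [NormedAddCommGroup E] [InnerProductSpace ℝ E]

lemma DD_nn (b : Sp d → ℝ) (ε R : ℝ) (n : ℕ) (f : Sp d → E) (x : Sp d) {e : E} (he : ‖e‖ = 1) :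
    0 ≤ DD b ε R ((1 / 2) ^ n) f n x e := by
  unfold DD
  rw [ZZ.lev_one]
  have h1 : ∀ v : E, 0 ≤ ‖v‖ - ⟪v, e⟫_ℝ := by
    intro v
    have := real_inner_le_norm v e
    rw [he, mul_one] at this
    linarith
  refine mul_nonneg (by positivity) (add_nonneg (Finset.sum_nonneg fun l _ => ?_) ?_)
  · exact mul_nonneg (by positivity) (integral_nonneg fun y => h1 _)
  · exact mul_nonneg (by positivity) (integral_nonneg fun y => norm_nonneg _)

lemma ma_nn (b : Sp d → ℝ) (ε R : ℝ) (n : ℕ) (f : Sp d → E) (x : Sp d) :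
    0 ≤ ma b ε R ((1 / 2) ^ n) f n x := by
  unfold ma
  rw [ZZ.lev_one]
  exact mul_nonneg (by positivity) (integral_nonneg fun y => norm_nonneg _)

lemma bb_eq (ρ : ℝ) (n : ℕ) (f : Sp d → E) (e : E) (ν : Sp d) (c : ℝ) :
    bb ρ ((1 / 2) ^ n) f n 0 e ν c = ∫ y, ⟪f y, e⟫_ℝ * (zR ρ y * ht ν c y ^ 2) := by
  unfold bb
  rw [ZZ.lev_one]
  simp

lemma bD_eq (b : Sp d → ℝ) (ε R0 R : ℝ) (n : ℕ) (f : Sp d → E) (e : E) (ν : Sp d) (c : ℝ) :
    bD b ε R0 R ((1 / 2) ^ n) f n 0 e ν c =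
      max 0 (∫ y, ⟪f y, e⟫_ℝ * (zR R0 y * ht ν c y ^ 2)) + DD b ε R ((1 / 2) ^ n) f n 0 e := by
  unfold bD
  rw [bb_eq]

end Fn

section Op

variable {V E : Type} [NormedAddCommGroup V] [InnerProductSpace ℝ V] [FiniteDimensional ℝ V]
  [NormedAddCommGroup E] [InnerProductSpace ℝ E] [FiniteDimensional ℝ E]

omit [FiniteDimensional ℝ V] [FiniteDimensional ℝ E] in
lemma fo_cont (L : (Sp d →L[ℝ] V) →L[ℝ] E) {u : Sp d → V} (hu : TF u) : Continuous (fo L u) :=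
  L.continuous.comp (hu.smooth.continuous_fderiv (by simp))

omit [FiniteDimensional ℝ V] [FiniteDimensional ℝ E] in
lemma fo_cs (L : (Sp d →L[ℝ] V) →L[ℝ] E) {u : Sp d → V} (hu : TF u) :
    HasCompactSupport (fo L u) := by
  refine (hu.supp.fderiv ℝ).comp_left (g := fun M => L M) ?_
  exact map_zero L

omit [FiniteDimensional ℝ E] in
lemma int_mH {f : Sp d → E} (hf : Continuous f) (hs : HasCompactSupport f) (e : E)
    {H : Sp d → ℝ} (hH : Continuous H) : Integrable (fun y => ⟪f y, e⟫_ℝ * H y) := by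
  refine Continuous.integrable_of_hasCompactSupport ((hf.inner continuous_const).mul hH) ?_
  refine HasCompactSupport.mul_right ?_
  exact hs.comp_left (g := fun v => ⟪v, e⟫_ℝ) (inner_zero_left _)

/-- the jump polynomial is a polynomial -/
lemma JJ_poly (hd : 1 ≤ d) (m : ℕ) (ν q : Sp d) {r : ℝ} (hr : 0 < r) {u : Sp d → V}
    (hu : ContDiff ℝ ∞ u) (l : V →L[ℝ] ℝ) :
    ContDiff ℝ ∞ (fun y => l (JJ m ν q r u y)) ∧
      ∀ y, iteratedFDeriv ℝ (m + 1) (fun y => l (JJ m ν q r u y)) y = 0 := by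
  obtain ⟨h1, h2, _⟩ := stmtTQ d V m u hd hu (q + (6 * r) • ν) r hr
  obtain ⟨h3, h4, _⟩ := stmtTQ d V m u hd hu (q - (6 * r) • ν) r hr
  have h5 : ContDiff ℝ ∞ (fun y => JJ m ν q r u y) := h1.sub h3
  refine ⟨l.contDiff.comp h5, fun y => ?_⟩
  have h6 : iteratedFDeriv ℝ (m + 1) (fun y => JJ m ν q r u y) y = 0 := by
    have e : (fun y => JJ m ν q r u y) =
        ATP m (q + (6 * r) • ν) r u + -ATP m (q - (6 * r) • ν) r u := by
      funext y
      simp [JJ, sub_eq_add_neg]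
    have h3' : ContDiff ℝ ∞ (-ATP m (q - (6 * r) • ν) r u) := h3.neg
    rw [e, iteratedFDeriv_add_apply (h1.contDiffAt.of_le (by exact_mod_cast le_top))
      (h3'.contDiffAt.of_le (by exact_mod_cast le_top)), iteratedFDeriv_neg_apply, h2, h4]
    simp
  have h7 := l.norm_iteratedFDeriv_comp_left (n := m + 1) (h5.contDiffAt (x := y))
    (by exact_mod_cast le_top)
  rw [h6, norm_zero, mul_zero] at h7
  exact norm_le_zero_iff.mp h7

end Op

/-- Lemma Z for functions with bounded second derivatives -/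
lemma Zuse (hZ : StmtZ) (hd : 1 ≤ d) {M c ε : ℝ} (hε : 0 < ε) (hε1 : ε ≤ 1) {b : Sp d → ℝ}
    (hb : BaseKer 2 M c b) : ∃ C : ℝ, 0 < C ∧
    ∀ (E : Type) [NormedAddCommGroup E] [InnerProductSpace ℝ E] [FiniteDimensional ℝ E],
    ∀ f : Sp d → E, Continuous f → HasCompactSupport f → ∀ (R : ℝ), 3 ≤ R → ∀ (n : ℕ) (e : E),
    ‖e‖ = 1 → ∀ (H : Sp d → ℝ) (K : ℝ), 0 < K → CB 2 K H → (∀ y, 0 ≤ H y) →
      (∀ y, H y ≠ 0 → ‖y‖ < R - 2) →
      -(C * K) * DD b ε R ((1 / 2) ^ n) f n 0 e ≤ ∫ y, ⟪f y, e⟫_ℝ * H y := by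
  obtain ⟨C, hC, h⟩ := hZ d hd M c ε hε hε1 b hb
  refine ⟨C, hC, ?_⟩
  intro E _ _ _ f hf hs R hR n e he H K hK hH h0 hsupp
  have h1 := h E f hf hs R hR n e he 0 (fun y => K⁻¹ * H y)
    ((hH.smooth).const_smul K⁻¹)
    (fun y => mul_nonneg (inv_nonneg.mpr hK.le) (h0 y)) ?_ ?_ ?_
  · have h2 : ∫ y, ⟪f y, e⟫_ℝ * (K⁻¹ * H y) = K⁻¹ * ∫ y, ⟪f y, e⟫_ℝ * H y := by
      rw [← integral_const_mul]
      congr 1
      funext y
      ring
    rw [h2] at h1
    have h3 := mul_le_mul_of_nonneg_left h1 hK.le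
    rw [← mul_assoc K K⁻¹, mul_inv_cancel₀ hK.ne', one_mul] at h3
    linarith
  · intro y
    have := (le_abs_self _).trans (hH.norm_le y)
    rw [inv_mul_le_iff₀ hK, mul_one]
    exact this
  · intro y
    have h3 := (hH.mulc K⁻¹).bd 2 le_rfl y
    rw [abs_of_pos (inv_pos.mpr hK), inv_mul_cancel₀ hK.ne'] at h3
    exact h3
  · intro y hy
    rw [sub_zero] at hy
    by_contra h3
    have h4 : H y ≠ 0 := by
      intro h5
      exact h3 (by rw [h5, mul_zero])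
    linarith [hsupp y h4]

end PL

end TG


end

section

/-!
# Trace inequality, general operators: module MP, part 1 (frames, start of the tower, one step)
-/

open MeasureTheory Metric Set TrI
open scoped InnerProductSpace ContDiff

namespace TG

noncomputable section

namespace MPm

variable {d : ℕ}

/-! ## frames -/

section Fr

variable {V E : Type} [NormedAddCommGroup V] [InnerProductSpace ℝ V] [FiniteDimensional ℝ V]
  [NormedAddCommGroup E] [InnerProductSpace ℝ E] [FiniteDimensional ℝ E]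

lemma half_pow (n r : ℕ) : (1 / 2 : ℝ) ^ (n + r) = (1 / 2) ^ n / 2 ^ r := by
  rw [pow_add, one_div, inv_pow, inv_pow]
  rfl

omit [FiniteDimensional ℝ E] in
lemma rs_cont {f : Sp d → E} (hf : Continuous f) (x : Sp d) (t : ℝ) : Continuous (rs x t f) := by
  have h1 : Continuous (fun y : Sp d => x + t • y) := by fun_prop
  exact (hf.comp h1).const_smul t

omit [FiniteDimensional ℝ E] in
lemma rs_cs {f : Sp d → E} (hf : HasCompactSupport f) (x : Sp d) {t : ℝ} (ht : 0 < t) :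
    HasCompactSupport (rs x t f) := by
  obtain ⟨ρ, hρ⟩ := hf.isCompact.isBounded.subset_ball (0 : Sp d)
  refine HasCompactSupport.intro (isCompact_closedBall (0 : Sp d) ((ρ + ‖x‖) / t)) fun y hy => ?_
  rw [mem_closedBall_zero_iff, not_le, div_lt_iff₀ ht] at hy
  have h1 : f (x + t • y) = 0 := by
    by_contra h
    have h2 := hρ (subset_tsupport _ (Function.mem_support.mpr h))
    rw [mem_ball_zero_iff] at h2
    have h3 : ‖t • y‖ ≤ ‖x + t • y‖ + ‖x‖ := by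
      have := norm_sub_le (x + t • y) x
      rwa [add_sub_cancel_left] at this
    rw [norm_smul, Real.norm_eq_abs, abs_of_pos ht] at h3
    linarith
  unfold rs
  rw [h1, smul_zero]

omit [FiniteDimensional ℝ E] in
lemma rs_rs (f : Sp d → E) (x x' : Sp d) (r : ℕ) :
    rs ((1 / (2 : ℝ) ^ r) • (x' - x)) 2 (rs x (2 ^ r) f) = rs x' (2 ^ (r + 1)) f := by
  funext y
  unfold rs
  have h1 : ((2 : ℝ) ^ r) ≠ 0 := by positivity
  rw [smul_smul]
  congr 1
  · rw [pow_succ]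
    ring
  · congr 1
    rw [smul_add, smul_smul, mul_one_div_cancel h1, one_smul, ← add_assoc, add_sub_cancel,
      smul_smul, pow_succ]

lemma frame (hSC : StmtSC) (hSD : StmtSD) (hd : 2 ≤ d) {M c0 ε : ℝ} (hε : 0 < ε) (hε1 : ε ≤ 1)
    {b : Sp d → ℝ} (hb : BaseKer 2 M c0 b) {f : Sp d → E} (hf : Continuous f)
    (hfc : HasCompactSupport f) (x : Sp d) (r n : ℕ) :
    (∀ R i y e, DD b ε R ((1 / 2) ^ (n + r)) (rs x (2 ^ r) f) i y e =
      DD b ε R ((1 / 2) ^ n) f i (x + (2 : ℝ) ^ r • y) e) ∧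
    (∀ R i y, ma b ε R ((1 / 2) ^ (n + r)) (rs x (2 ^ r) f) i y =
      ma b ε R ((1 / 2) ^ n) f i (x + (2 : ℝ) ^ r • y)) ∧
    (∀ R0 R i e (ν : Sp d) (c : ℝ), bD b ε R0 R ((1 / 2) ^ (n + r)) (rs x (2 ^ r) f) i 0 e ν
      ((c - ⟪ν, x⟫_ℝ) / 2 ^ r) = bD b ε R0 R ((1 / 2) ^ n) f i x e ν c) := by
  have htp : (0 : ℝ) < 2 ^ r := by positivity
  obtain ⟨-, hSC2, -⟩ := hSC d hd 1 one_pos x (2 ^ r) htp
  obtain ⟨-, hDD, hma⟩ := hSC2 E M c0 b hb ε hε hε1 f hf hfc ((1 / 2 : ℝ) ^ n) (by positivity)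
  rw [half_pow]
  refine ⟨hDD, hma, fun R0 R i e ν c => ?_⟩
  have hbb := hSD.2 d E f (by omega) hf hfc x (2 ^ r) htp R0
    ((1 / 2 : ℝ) ^ n) i 0 e ν ((c - ⟪ν, x⟫_ℝ) / 2 ^ r) (by positivity)
  unfold bD
  rw [hDD, hbb, smul_zero, add_zero]
  congr 3
  field_simp
  ring

end Fr

/-! ## towers -/

section To

variable {E : Type} [NormedAddCommGroup E] [InnerProductSpace ℝ E]

omit [InnerProductSpace ℝ E] in
lemma tower_norm {x : ℕ → Sp d} {e : ℕ → E} (hT : Tower x e) (r : ℕ) :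
    ‖x r‖ ≤ Real.sqrt d * (2 ^ r - 1) := by
  induction r with
  | zero => simp [hT.zero]
  | succ r ih =>
    calc ‖x (r + 1)‖ = ‖x r + (x (r + 1) - x r)‖ := by rw [add_sub_cancel]
      _ ≤ ‖x r‖ + ‖x (r + 1) - x r‖ := norm_add_le _ _
      _ ≤ Real.sqrt d * (2 ^ r - 1) + Real.sqrt d * 2 ^ r := add_le_add ih (hT.step r)
      _ = Real.sqrt d * (2 ^ (r + 1) - 1) := by ring

omit [InnerProductSpace ℝ E] in
lemma tower_norm2 {x : ℕ → Sp d} {e : ℕ → E} (hT : Tower x e) (r : ℕ) (hr : 2 ≤ r) :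
    ‖x r - x 2‖ ≤ Real.sqrt d * (2 ^ r - 4) := by
  induction r, hr using Nat.le_induction with
  | base => norm_num
  | succ r hr ih =>
    calc ‖x (r + 1) - x 2‖ = ‖(x r - x 2) + (x (r + 1) - x r)‖ := by
          congr 1
          abel
      _ ≤ ‖x r - x 2‖ + ‖x (r + 1) - x r‖ := norm_add_le _ _
      _ ≤ Real.sqrt d * (2 ^ r - 4) + Real.sqrt d * 2 ^ r := add_le_add ih (hT.step r)
      _ = Real.sqrt d * (2 ^ (r + 1) - 4) := by ring

omit [InnerProductSpace ℝ E] in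
lemma xi_norm {x : ℕ → Sp d} {e : ℕ → E} (hT : Tower x e) (r : ℕ) :
    ‖(1 / (2 : ℝ) ^ r) • (x (r + 1) - x r)‖ ≤ Real.sqrt d := by
  have htp : (0 : ℝ) < 2 ^ r := by positivity
  rw [norm_smul, Real.norm_eq_abs, abs_of_pos (by positivity), one_div, inv_mul_le_iff₀ htp,
    mul_comm]
  exact hT.step r

lemma sqrt_le_nat (hd : 1 ≤ d) : Real.sqrt d ≤ d := by
  rw [Real.sqrt_le_iff]
  have : (1 : ℝ) ≤ d := by exact_mod_cast hd
  exact ⟨by positivity, by nlinarith⟩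

lemma sqrt_R0 {R0 : ℝ} (hR0 : 200 + 8 * d ≤ R0) : 168 + 32 * Real.sqrt d ≤ R0 := by
  have h1 : Real.sqrt d * Real.sqrt d = d := Real.mul_self_sqrt (by positivity)
  nlinarith [sq_nonneg (Real.sqrt d - 2)]

end To

section Ch

variable {E : Type} [NormedAddCommGroup E] [InnerProductSpace ℝ E] [FiniteDimensional ℝ E]

/-- the defect of the unit cell in the direction e' is controlled by the defect of level r -/
lemma DD_chain (hSC : StmtSC) (hSD : StmtSD) (hTW : StmtTW) (hd : 2 ≤ d) {M c0 ε : ℝ}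
    (hε : 0 < ε) (hε1 : ε ≤ 1) {b : Sp d → ℝ} (hb : BaseKer 2 M c0 b) {R0 : ℝ}
    (hR0 : 100 + 8 * d ≤ R0) : ∃ C : ℝ, 0 < C ∧
    ∀ (E : Type) [NormedAddCommGroup E] [InnerProductSpace ℝ E] [FiniteDimensional ℝ E],
    ∀ (R : ℝ), 4 * R0 + 10 ≤ R → ∀ f : Sp d → E, Continuous f → HasCompactSupport f →
    ∀ (n : ℕ) (x : ℕ → Sp d) (e : ℕ → E), Tower x e → ∀ e' : E, ‖e'‖ = 1 → ∀ r : ℕ,
      DD b ε R ((1 / 2) ^ n) f n 0 e' ≤ C ^ r * DD b ε R ((1 / 2) ^ n) f (n + r) (x r) e' := by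
  obtain ⟨C, hC, h⟩ := hTW d (by omega) M c0 ε hε hε1 b hb R0 hR0
  refine ⟨C, hC, ?_⟩
  intro E _ _ _ R hR f hf hfc n x e hT e' he' r
  induction r with
  | zero => rw [pow_zero, one_mul, hT.zero, add_zero]
  | succ r ih =>
    obtain ⟨h1, -, -⟩ := frame hSC hSD hd hε hε1 hb hf hfc (x r) r n
    have htp : (0 : ℝ) < 2 ^ r := by positivity
    obtain ⟨h2, -⟩ := h E R hR (rs (x r) (2 ^ r) f) (rs_cont hf _ _) (rs_cs hfc _ htp) (n + r)
      ((1 / (2 : ℝ) ^ r) • (x (r + 1) - x r)) e' e' (xi_norm hT r) he' he'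
    rw [h1, h1, smul_zero, add_zero, smul_smul, mul_one_div_cancel htp.ne', one_smul,
      add_sub_cancel] at h2
    calc DD b ε R ((1 / 2) ^ n) f n 0 e' ≤
          C ^ r * DD b ε R ((1 / 2) ^ n) f (n + r) (x r) e' := ih
      _ ≤ C ^ r * (C * DD b ε R ((1 / 2) ^ n) f (n + r + 1) (x (r + 1)) e') :=
          mul_le_mul_of_nonneg_left h2 (by positivity)
      _ = C ^ (r + 1) * DD b ε R ((1 / 2) ^ n) f (n + (r + 1)) (x (r + 1)) e' := by
          rw [pow_succ, mul_assoc]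
          rfl

/-- the mass of the unit cell against the inner mass of the levels 2 and 3 -/
lemma start_mass (hSC : StmtSC) (hSD : StmtSD) (hTW : StmtTW) (hMA : StmtMA) (hd : 2 ≤ d)
    {M c0 ε : ℝ} (hε : 0 < ε) (hε1 : ε ≤ 1) {b : Sp d → ℝ} (hb : BaseKer 2 M c0 b) {R0 : ℝ}
    (hR0 : 200 + 8 * d ≤ R0) : ∃ C : ℝ, 0 < C ∧
    ∀ (E : Type) [NormedAddCommGroup E] [InnerProductSpace ℝ E] [FiniteDimensional ℝ E],
    ∀ (R : ℝ), 4 * R0 + 10 ≤ R → ∀ f : Sp d → E, Continuous f → HasCompactSupport f →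
    ∀ (n : ℕ) (x : ℕ → Sp d) (e : ℕ → E), Tower x e → ∀ r : ℕ, 2 ≤ r → r ≤ 3 →
      ma b ε R0 ((1 / 2) ^ n) f n 0 ≤ (2 ^ r) ^ d / 2 ^ r * Mi R0 (rs (x r) (2 ^ r) f) (e r) +
        C * DD b ε R ((1 / 2) ^ n) f (n + r) (x r) (e r) := by
  have hd1 : 1 ≤ d := by omega
  have hd0 : (0 : ℝ) ≤ d := Nat.cast_nonneg d
  obtain ⟨C1, hC1, h1⟩ := DD_chain hSC hSD hTW hd hε hε1 hb (R0 := R0) (by linarith)
  obtain ⟨C2, hC2, h2⟩ := TU.MA' hMA hd1 hε hε1 hb
  obtain ⟨N, hN, hz⟩ := PL.CB.of_compact (PL.zR_cd (d := d) (R := R0 / 3) (by linarith))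
    (PL.zR_cs (R0 / 3)) 2
  refine ⟨C2 * N * (C1 ^ 2 + C1 ^ 3), by positivity, ?_⟩
  intro E _ _ _ R hR f hf hfc n x e hT r hr2 hr3
  have htp : (0 : ℝ) < 2 ^ r := by positivity
  have ht4 : (4 : ℝ) ≤ 2 ^ r := by
    calc (4 : ℝ) = 2 ^ 2 := by norm_num
      _ ≤ 2 ^ r := pow_le_pow_right₀ (by norm_num) hr2
  have ht8 : (2 : ℝ) ^ r ≤ 8 := by
    calc (2 : ℝ) ^ r ≤ 2 ^ 3 := pow_le_pow_right₀ (by norm_num) hr3
      _ = 8 := by norm_num
  have hxr := tower_norm hT r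
  have hs0 := Real.sqrt_nonneg (d : ℝ)
  have hsq : Real.sqrt d ≤ d := sqrt_le_nat hd1
  set H : Sp d → ℝ := fun y => zR (R0 / 3) (-(1 / (2 : ℝ) ^ r) • x r + (1 / (2 : ℝ) ^ r) • y)
    with hH
  have hT0 := TU.TFn_aff (PL.TFn_of_CB hz) (-(1 / (2 : ℝ) ^ r) • x r)
    (t := 1 / (2 : ℝ) ^ r) (by positivity)
  have hmax : max 1 |1 / (2 : ℝ) ^ r| = 1 := by
    refine max_eq_left ?_
    rw [abs_of_pos (by positivity), div_le_one htp]
    linarith
  rw [hmax, one_pow, one_mul] at hT0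
  have harg : ∀ y : Sp d, ‖-(1 / (2 : ℝ) ^ r) • x r + (1 / (2 : ℝ) ^ r) • y‖ =
      ‖y - x r‖ / 2 ^ r := by
    intro y
    have e1 : -(1 / (2 : ℝ) ^ r) • x r + (1 / (2 : ℝ) ^ r) • y = (1 / (2 : ℝ) ^ r) • (y - x r) := by
      rw [smul_sub, neg_smul]
      abel
    rw [e1, norm_smul, Real.norm_eq_abs, abs_of_pos (by positivity), one_div, inv_mul_eq_div]
  obtain ⟨-, h3⟩ := h2 E f hf hfc R (by linarith only [hR0, hR]) n (e r) (hT.unit r) 0 (ball 0 (R0 * 1))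
    measurableSet_ball
  have h4 := h3 H N 1 one_pos hT0 (fun y => PL.zR_nonneg _ _) ?_ ?_
  · have h5 := TU.frame_int f (e r) (x r) htp H
    have h6 : (fun y => ⟪rs (x r) (2 ^ r) f y, e r⟫_ℝ * H (x r + (2 : ℝ) ^ r • y)) =
        fun y => ⟪rs (x r) (2 ^ r) f y, e r⟫_ℝ * zR (R0 / 3) y := by
      funext y
      rw [hH]
      beta_reduce
      congr 2
      rw [smul_add, smul_smul, one_div_mul_cancel htp.ne', one_smul, neg_smul]
      abel
    rw [h6] at h5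
    have h7 : ∫ y, ⟪f y, e r⟫_ℝ * H y = (2 ^ r) ^ d / 2 ^ r * Mi R0 (rs (x r) (2 ^ r) f) (e r) := by
      unfold Mi
      rw [h5]
      field_simp
    rw [h7, one_mul] at h4
    have h8 : ma b ε R0 ((1 / 2) ^ n) f n 0 =
        ∫ y in ball (0 : Sp d) (R0 * 1), ‖fl b ε ((1 / 2) ^ n) f (n - 1) y‖ := by
      unfold ma
      rw [ZZ.lev_one]
      simp
    rw [h8]
    have h9 := h1 E R hR f hf hfc n x e hT (e r) (hT.unit r) r
    have hD0 : 0 ≤ DD b ε R ((1 / 2) ^ n) f (n + r) (x r) (e r) :=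
      TU.DD_nonneg b ε R (by positivity) f _ _ (hT.unit r)
    have h10 : C1 ^ r ≤ C1 ^ 2 + C1 ^ 3 := by
      have h11 : r = 2 ∨ r = 3 := by omega
      have : 0 < C1 ^ 2 := by positivity
      have : 0 < C1 ^ 3 := by positivity
      rcases h11 with rfl | rfl <;> linarith
    have h12 : C2 * N * DD b ε R ((1 / 2) ^ n) f n 0 (e r) ≤
        C2 * N * (C1 ^ 2 + C1 ^ 3) * DD b ε R ((1 / 2) ^ n) f (n + r) (x r) (e r) := by
      rw [mul_assoc (C2 * N)]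
      refine mul_le_mul_of_nonneg_left (h9.trans ?_) (by positivity)
      exact mul_le_mul_of_nonneg_right h10 hD0
    linarith only [h4, h12]
  · intro y hy
    rw [sub_zero] at hy
    rw [hH]
    refine PL.zR_zero ?_
    rw [harg, le_div_iff₀ htp]
    have h5 : ‖y‖ ≤ ‖y - x r‖ + ‖x r‖ := by
      have := norm_add_le (y - x r) (x r)
      rwa [sub_add_cancel] at this
    have h6 : Real.sqrt d * (2 ^ r - 1) ≤ Real.sqrt d * 7 :=
      mul_le_mul_of_nonneg_left (by linarith only [ht8]) hs0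
    have h7 : (R0 / 3 + 1) * 2 ^ r ≤ (R0 / 3 + 1) * 8 :=
      mul_le_mul_of_nonneg_left ht8 (by linarith)
    linarith only [hR0, hR, hxr, hsq, hy, h5, h6, h7]
  · intro y z hy hz'
    rw [mem_ball_zero_iff, mul_one] at hy
    rw [hH]
    beta_reduce
    rw [PL.zR_one]
    rw [harg, div_le_iff₀ htp]
    have h5 : ‖z - x r‖ ≤ ‖z - y‖ + ‖y‖ + ‖x r‖ := by
      have e1 : z - x r = (z - y) + y - x r := by abel
      rw [e1]
      exact (norm_sub_le _ _).trans (add_le_add (norm_add_le _ _) le_rfl)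
    have h7 : R0 / 3 * 4 ≤ R0 / 3 * 2 ^ r :=
      mul_le_mul_of_nonneg_left ht4 (by linarith)
    have h9 := sqrt_R0 hR0
    have h8 : 0 ≤ (R0 / 3 - Real.sqrt d) * (2 ^ r - 4) :=
      mul_nonneg (by linarith) (by linarith)
    linarith only [hR0, hxr, hy, hz', h5, h9, h8]

end Ch

end MPm

end

end TG


end

section

/-!
# Trace inequality, general operators: module MP, part 2 (one step, start of the jump)
-/

open MeasureTheory Metric Set TrI
open scoped InnerProductSpace ContDiff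

namespace TG

noncomputable section

namespace MPm

variable {d : ℕ}

/-- mass near a point of the central part gives inner mass on the next level -/
lemma step_mass (hZ : StmtZ) (hTW : StmtTW) (hd : 2 ≤ d) {M c0 ε : ℝ} (hε : 0 < ε) (hε1 : ε ≤ 1)
    {b : Sp d → ℝ} (hb : BaseKer 2 M c0 b) {R0 : ℝ} (hR0 : 200 + 8 * d ≤ R0) :
    ∃ C : ℝ, 0 < C ∧
    ∀ (E : Type) [NormedAddCommGroup E] [InnerProductSpace ℝ E] [FiniteDimensional ℝ E],
    ∀ (R : ℝ), 4 * R0 + 10 ≤ R → ∀ f : Sp d → E, Continuous f → HasCompactSupport f →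
    ∀ (n : ℕ) (ξ : Sp d) (e e' : E), ‖ξ‖ ≤ Real.sqrt d → ‖e‖ = 1 → ‖e'‖ = 1 →
    ∀ p : Sp d, ‖p‖ ≤ R0 / 3 →
      (∫ y, ⟪f y, e⟫_ℝ * zR 1 (y - p)) ≤ 2 ^ d / 2 * Mi R0 (rs ξ 2 f) e' +
        C * (DD b ε R ((1 / 2) ^ n) f n 0 e + DD b ε R ((1 / 2) ^ n) f (n + 1) ξ e') := by
  have hd1 : 1 ≤ d := by omega
  have hd0 : (0 : ℝ) ≤ d := Nat.cast_nonneg d
  have hRs := sqrt_R0 hR0
  have hs0 := Real.sqrt_nonneg (d : ℝ)
  obtain ⟨C1, hC1, h1⟩ := TU.Z' hZ hd1 hε hε1 hb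
  obtain ⟨C2, hC2, h2⟩ := hTW d hd1 M c0 ε hε hε1 b hb R0 (by linarith)
  obtain ⟨N1, hN1, hz1⟩ := PL.CB.of_compact (PL.zR_cd (d := d) (R := R0 / 3) (by linarith))
    (PL.zR_cs (R0 / 3)) 2
  obtain ⟨N2, hN2, hz2⟩ := PL.CB.of_compact (PL.zR_cd (d := d) (R := 1) one_pos)
    (PL.zR_cs 1) 2
  refine ⟨C1 * (N1 + N2) + C2 * N1, by positivity, ?_⟩
  intro E _ _ _ R hR f hf hfc n ξ e e' hξ he he' p hp
  obtain ⟨-, h3, -⟩ := h2 E R hR f hf hfc n ξ e e' hξ he he'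
  have hT0 := TU.TFn_aff (PL.TFn_of_CB hz1) (-(1 / 2 : ℝ) • ξ) (t := 1 / 2) (by norm_num)
  have hmax : max 1 |(1 / 2 : ℝ)| = 1 := by
    refine max_eq_left ?_
    rw [abs_of_pos (by positivity)]
    norm_num
  rw [hmax, one_pow, one_mul] at hT0
  have hT1 : TFn 2 N2 (fun y => zR 1 (y - p)) := PL.TFn_of_CB (hz2.comp_subc p)
  have harg : ∀ y : Sp d, ‖-(1 / 2 : ℝ) • ξ + (1 / 2 : ℝ) • y‖ = ‖y - ξ‖ / 2 := by
    intro y
    have e1 : -(1 / 2 : ℝ) • ξ + (1 / 2 : ℝ) • y = (1 / 2 : ℝ) • (y - ξ) := by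
      rw [smul_sub, neg_smul]
      abel
    rw [e1, norm_smul, Real.norm_eq_abs, abs_of_pos (by norm_num)]
    ring
  set ζ : Sp d → ℝ := fun y => zR (R0 / 3) (-(1 / 2 : ℝ) • ξ + (1 / 2 : ℝ) • y) with hζ
  have hζs : ∀ y, 2 * (R0 / 3 + 1) + Real.sqrt d ≤ ‖y‖ → ζ y = 0 := by
    intro y hy
    rw [hζ]
    refine PL.zR_zero ?_
    rw [harg]
    have h5 : ‖y‖ ≤ ‖y - ξ‖ + ‖ξ‖ := by
      have := norm_add_le (y - ξ) ξ
      rwa [sub_add_cancel] at this
    linarith only [hξ, hy, h5]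
  have hps : ∀ y : Sp d, ‖y - p‖ ≤ 2 → ‖y‖ ≤ R0 / 3 + 2 := by
    intro y hy
    have := norm_add_le (y - p) p
    rw [sub_add_cancel] at this
    linarith only [hp, hy, this]
  have h4 := h3 ζ N1 hT0 (fun y hy => hζs y (by linarith only [hR0, hRs, hR, hy]))
  have h5 := h1 E f hf hfc R (by linarith) n e he 0 (fun y => ζ y - zR 1 (y - p)) (N1 + N2)
    (TU.TFn_sub hT0 hT1) ?_ ?_
  · have hi1 : Integrable (fun y => ⟪f y, e⟫_ℝ * ζ y) := PL.int_mH hf hfc e hT0.smooth.continuous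
    have hi1' : Integrable (fun y => ⟪f y, e'⟫_ℝ * ζ y) := PL.int_mH hf hfc e' hT0.smooth.continuous
    have hi2 : Integrable (fun y => ⟪f y, e⟫_ℝ * zR 1 (y - p)) :=
      PL.int_mH hf hfc e hT1.smooth.continuous
    have h6 : ∫ y, ⟪f y, e⟫_ℝ * (ζ y - zR 1 (y - p)) =
        (∫ y, ⟪f y, e⟫_ℝ * ζ y) - ∫ y, ⟪f y, e⟫_ℝ * zR 1 (y - p) := by
      rw [← integral_sub hi1 hi2]
      congr 1
      funext y
      ring
    have h7 : ∫ y, ⟪f y, e - e'⟫_ℝ * ζ y =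
        (∫ y, ⟪f y, e⟫_ℝ * ζ y) - ∫ y, ⟪f y, e'⟫_ℝ * ζ y := by
      rw [← integral_sub hi1 hi1']
      congr 1
      funext y
      rw [inner_sub_right]
      ring
    rw [h6] at h5
    rw [h7] at h4
    have h8 := TU.frame_int f e' ξ (t := 2) (by norm_num) ζ
    have h9 : (fun y => ⟪rs ξ 2 f y, e'⟫_ℝ * ζ (ξ + (2 : ℝ) • y)) =
        fun y => ⟪rs ξ 2 f y, e'⟫_ℝ * zR (R0 / 3) y := by
      funext y
      rw [hζ]
      beta_reduce
      congr 2
      rw [smul_add, smul_smul, neg_smul]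
      norm_num
    rw [h9] at h8
    have h10 : ∫ y, ⟪f y, e'⟫_ℝ * ζ y = 2 ^ d / 2 * Mi R0 (rs ξ 2 f) e' := by
      unfold Mi
      rw [h8]
      field_simp
    rw [h10] at h4
    have h11 := (abs_le.mp h4).2
    have hD0 : 0 ≤ DD b ε R ((1 / 2) ^ n) f n 0 e :=
      TU.DD_nonneg b ε R (by positivity) f _ _ he
    have hD1 : 0 ≤ DD b ε R ((1 / 2) ^ n) f (n + 1) ξ e' :=
      TU.DD_nonneg b ε R (by positivity) f _ _ he'
    have h12 : 0 ≤ C1 * (N1 + N2) * DD b ε R ((1 / 2) ^ n) f (n + 1) ξ e' := by (clear * - hC1 hN1 hN2 hD1; positivity)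
    linarith only [h5, h11, h12]
  · intro y
    by_cases hy : zR 1 (y - p) = 0
    · rw [hy, sub_zero]
      exact PL.zR_nonneg _ _
    · have h6 := PL.norm_lt_of_zR hy
      have h7 := hps y (by linarith)
      have h8 : ζ y = 1 := by
        rw [hζ]
        refine PL.zR_one ?_
        rw [harg]
        have := norm_sub_le y ξ
        linarith only [hR0, hRs, hξ, h7, this]
      rw [h8]
      linarith [PL.zR_le_one 1 (y - p)]
  · intro y hy
    rw [sub_zero] at hy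
    rw [hζs y (by linarith), PL.zR_zero, sub_zero]
    by_contra h
    push Not at h
    have := hps y (by linarith)
    linarith

lemma G_nonneg {ν : Sp d} (hν : ‖ν‖ = 1) {c R0 : ℝ} (hR0 : 100 ≤ R0) (y : Sp d) :
    0 ≤ cu1 4 (ht ν c y) * zR (R0 / 3 + 1) (tang ν y) + zR R0 y * (⟪ν, y⟫_ℝ + -c) ^ 2 -
      zR (R0 / 3) y := by
  have h1 := PL.cu1_nonneg 4 (ht ν c y)
  have h2 := PL.zR_nonneg (R0 / 3 + 1) (tang ν y)
  have h3 := PL.zR_nonneg R0 y
  have h4 := PL.zR_le_one (R0 / 3) y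
  have h5 : 0 ≤ zR R0 y * (⟪ν, y⟫_ℝ + -c) ^ 2 := mul_nonneg h3 (sq_nonneg _)
  have h6 := mul_nonneg h1 h2
  by_cases hy : zR (R0 / 3) y = 0
  · rw [hy]
    linarith
  · have h7 := PL.norm_lt_of_zR hy
    have h8 : ‖tang ν y‖ ≤ R0 / 3 + 1 := (PL.norm_tang_le hν y).trans (by linarith)
    rw [PL.zR_one h8, PL.zR_one (R := R0) (x := y) (by linarith), mul_one, one_mul]
    by_cases h9 : |ht ν c y| ≤ 4
    · rw [PL.cu1_one h9]
      linarith only [h4, sq_nonneg (⟪ν, y⟫_ℝ + -c)]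
    · have h10 : (4 : ℝ) ^ 2 ≤ |ht ν c y| ^ 2 := pow_le_pow_left₀ (by norm_num) (not_le.mp h9).le 2
      have h11 : |ht ν c y| ^ 2 = (⟪ν, y⟫_ℝ + -c) ^ 2 := by
        rw [sq_abs]
        unfold ht
        ring
      rw [h11] at h10
      linarith only [h1, h4, h10]

lemma eta_small {κ1 δ Mi bD mm D : ℝ} (hδ0 : 0 < δ) (hδ1 : δ ≤ 1) (hMi : 0 < Mi) (hmm : 0 ≤ mm)
    (hDb : D ≤ bD) (h1 : bD ≤ min κ1 (δ ^ 2) * Mi)
    (h2 : mm * bD ≤ min κ1 (δ ^ 2) * Mi ^ 2) : bD + Real.sqrt (mm * D) ≤ 2 * δ * Mi := by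
  have h3 : min κ1 (δ ^ 2) ≤ δ ^ 2 := min_le_right _ _
  have h4 : δ ^ 2 ≤ δ := by nlinarith
  have h5 : bD ≤ δ * Mi := h1.trans (mul_le_mul_of_nonneg_right (h3.trans h4) hMi.le)
  have h6 : Real.sqrt (mm * D) ≤ δ * Mi := by
    rw [show δ * Mi = Real.sqrt ((δ * Mi) ^ 2) from (Real.sqrt_sq (by positivity)).symm]
    refine Real.sqrt_le_sqrt ?_
    calc mm * D ≤ mm * bD := mul_le_mul_of_nonneg_left hDb hmm
      _ ≤ min κ1 (δ ^ 2) * Mi ^ 2 := h2
      _ ≤ δ ^ 2 * Mi ^ 2 := mul_le_mul_of_nonneg_right h3 (sq_nonneg _)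
      _ = (δ * Mi) ^ 2 := by ring
  linarith

lemma exists_big {ν : Sp d} {ρ C5 : ℝ}
    (hP : ∀ (F : Sp d → ℝ) (N : ℝ), Continuous F →
      (∀ y, |F y| ≤ N) → (∀ y, F y ≠ 0 → ‖tang ν y‖ ≤ ρ + 2) → ∀ c, |plInt ν c F| ≤ C5 * N)
    (hν : ‖ν‖ = 1) (hC5 : 0 < C5) {c Mi' : ℝ} (hMi : 0 < Mi') {P : Sp d → ℝ}
    (hPc : Continuous P) (hψc : Continuous (fun y : Sp d => zR (ρ + 1) (tang ν y)))
    (hp0 : Mi' / 2 ≤ plInt ν c (fun y => P y * zR (ρ + 1) (tang ν y))) :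
    ∃ y0 : Sp d, ⟪ν, y0⟫_ℝ = c ∧ ‖tang ν y0‖ ≤ ρ + 2 ∧ Mi' ≤ 4 * C5 * |P y0| := by
  by_contra hcon
  push Not at hcon
  have hMC : 0 ≤ Mi' / (4 * C5) := by positivity
  have hpl : ∀ y : Sp d, ⟪ν, tang ν y + c • ν⟫_ℝ = c := by
    intro y
    rw [inner_add_right, PL.inner_tang hν, inner_smul_right, real_inner_self_eq_norm_sq, hν]
    ring
  have htp : ∀ y : Sp d, tang ν (tang ν y + c • ν) = tang ν y := by
    intro y
    conv_lhs => unfold tang
    rw [show y - ⟪ν, y⟫_ℝ • ν = tang ν y from rfl, hpl]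
    abel
  have h1 := hP (fun y => P (tang ν y + c • ν) * zR (ρ + 1) (tang ν y))
    (Mi' / (4 * C5)) ?_ ?_ ?_ c
  · have h2 : plInt ν c (fun y => P (tang ν y + c • ν) * zR (ρ + 1) (tang ν y)) =
        plInt ν c (fun y => P y * zR (ρ + 1) (tang ν y)) := by
      unfold plInt
      congr 1
      funext y
      have hy : ⟪ν, c • ν + (y : Sp d)⟫_ℝ = c := by
        have h1 : ⟪ν, (y : Sp d)⟫_ℝ = 0 :=
          Submodule.mem_orthogonal_singleton_iff_inner_right.mp y.2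
        rw [inner_add_right, inner_smul_right, real_inner_self_eq_norm_sq, hν, h1]
        ring
      have h3 : tang ν (c • ν + (y : Sp d)) + c • ν = c • ν + (y : Sp d) := by
        conv_lhs => unfold tang
        rw [hy]
        abel
      beta_reduce
      rw [h3]
    rw [h2] at h1
    have h4 := (le_abs_self _).trans h1
    have h5 : C5 * (Mi' / (4 * C5)) = Mi' / 4 := by field_simp
    linarith
  · have hc1 : Continuous (fun y : Sp d => tang ν y) := by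
      have := (PL.tangL ν).continuous
      simpa only [← PL.tangL_apply] using this
    exact (hPc.comp (hc1.add continuous_const)).mul hψc
  · intro y
    by_cases hy : zR (ρ + 1) (tang ν y) = 0
    · rw [hy, mul_zero, abs_zero]
      exact hMC
    · have h2 := PL.norm_lt_of_zR hy
      have h3 := (hcon _ (hpl y) (by rw [htp]; linarith)).le
      have h4 : |P (tang ν y + c • ν)| ≤ Mi' / (4 * C5) := by
        rw [le_div_iff₀ (by positivity)]
        linarith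
      rw [abs_mul, abs_of_nonneg (PL.zR_nonneg _ _)]
      calc |P (tang ν y + c • ν)| * zR (ρ + 1) (tang ν y)
          ≤ (Mi' / (4 * C5)) * 1 :=
            mul_le_mul h4 (PL.zR_le_one _ _) (PL.zR_nonneg _ _) hMC
        _ = Mi' / (4 * C5) := mul_one _
  · intro y hy
    have := PL.norm_lt_of_zR (right_ne_zero_of_mul hy)
    linarith

/-- a point of the central disc where the jump is not small -/
lemma start_jump (hSHB : StmtSHB) (hZ : StmtZ) (hd : 2 ≤ d) {V E : Type} [NormedAddCommGroup V]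
    [InnerProductSpace ℝ V] [FiniteDimensional ℝ V] [NormedAddCommGroup E]
    [InnerProductSpace ℝ E] [FiniteDimensional ℝ E] {L : (Sp d →L[ℝ] V) →L[ℝ] E} {n0 : ℕ}
    {T : (ContinuousMultilinearMap ℝ (fun _ : Fin n0 => Sp d) E) →L[ℝ]
      (ContinuousMultilinearMap ℝ (fun _ : Fin (n0 + 1) => Sp d) V)} (hn : 1 ≤ n0) (hL : CEll L)
    (hT : NSProp L n0 T) {M c0 ε : ℝ} (hε : 0 < ε) (hε1 : ε ≤ 1)
    {b : Sp d → ℝ} (hb : BaseKer 2 M c0 b) {R0 : ℝ} (hR0 : 100 ≤ R0) :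
    ∃ (C κ : ℝ), 0 < C ∧ 0 < κ ∧
      ∀ (R : ℝ), R0 + 10 ≤ R → ∀ (n : ℕ) (u : Sp d → V), TF u → ∀ e : E, ‖e‖ = 1 →
      ∀ (ν : Sp d) (c : ℝ), ‖ν‖ = 1 → |c| ≤ R0 / 3 → Flat b ε R0 R κ (fo L u) n e ν c →
      ∃ y0 : Sp d, ⟪ν, y0⟫_ℝ = c ∧ ‖tang ν y0‖ ≤ R0 / 3 + 2 ∧
        Mi R0 (fo L u) e ≤ C * ‖JJ n0 ν (c • ν) 1 u y0‖ := by
  have hd1 : 1 ≤ d := by omega
  have hR0p : 0 < R0 := by linarith
  obtain ⟨J1, hSHJ⟩ := hSHB d V E L n0 T hd hn hL hT
  obtain ⟨C1, κ1, hC1, hκ1, hSH⟩ := hSHJ M c0 ε hε hε1 b hb R0 hR0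
  obtain ⟨C5, hC5, hP⟩ := (stmtPF d hd1).1 (R0 / 3 + 2)
  obtain ⟨CZ, hCZ, hZu⟩ := PL.Zuse hZ hd1 hε hε1 hb
  obtain ⟨Kh, hKh, hcut⟩ := PL.cut_CB 2 (ρ := 4) (by norm_num)
  obtain ⟨K0, hK0, hz0⟩ := PL.CB.of_compact (PL.zR_cd (d := d) (R := R0 / 3 + 1) (by linarith))
    (PL.zR_cs (R0 / 3 + 1)) (J1 + 2)
  obtain ⟨K2, hK2, hq2⟩ := PL.quad_CB d 2 (ρ := R0) hR0p
  obtain ⟨K3, hK3, hz3⟩ := PL.CB.of_compact (PL.zR_cd (d := d) (R := R0 / 3) (by linarith))
    (PL.zR_cs (R0 / 3)) 2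
  -- constants
  obtain ⟨B2, hB2, hB2p⟩ : ∃ B2 : ℝ, 2 ^ 2 * (Kh * K0) + K2 * (1 ^ 2 + R0 ^ 2) + K3 ≤ B2 ∧ 0 < B2 :=
    ⟨_, le_rfl, by positivity⟩
  obtain ⟨A2, hA2, hA2p⟩ : ∃ A2 : ℝ, A2 = CZ * B2 ∧ 0 < A2 := ⟨_, rfl, by positivity⟩
  obtain ⟨δ, hδp, hδ1, hδ6⟩ : ∃ δ : ℝ, 0 < δ ∧ δ ≤ 1 ∧
      δ * (4 * (C1 * K0 + 1 + A2)) ≤ 1 := by
    refine ⟨min 1 (1 / (4 * (C1 * K0 + 1 + A2))), lt_min one_pos (by positivity),
      min_le_left _ _, ?_⟩
    rw [← le_div_iff₀ (by positivity)]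
    exact min_le_right _ _
  refine ⟨4 * C5 * C1, min κ1 (δ ^ 2), by positivity, lt_min hκ1 (by positivity), ?_⟩
  intro R hR n u hu e he ν c hν hc hflat
  obtain ⟨hMi, hfl1, hfl2⟩ := hflat
  have hfc : Continuous (fo L u) := PL.fo_cont L hu
  have hfs : HasCompactSupport (fo L u) := PL.fo_cs L hu
  unfold Mi
  generalize hf : fo L u = f at *
  have hD0 : 0 ≤ DD b ε R ((1 / 2) ^ n) f n 0 e := PL.DD_nn b ε R n f 0 he
  have hbν0 : 0 ≤ max 0 (∫ y, ⟪f y, e⟫_ℝ * (zR R0 y * ht ν c y ^ 2)) := le_max_left _ _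
  have hbνI : (∫ y, ⟪f y, e⟫_ℝ * (zR R0 y * ht ν c y ^ 2)) ≤
    max 0 (∫ y, ⟪f y, e⟫_ℝ * (zR R0 y * ht ν c y ^ 2)) := le_max_right _ _
  have hflat1 : Flat b ε R0 R κ1 f n e ν c := by
    refine ⟨hMi, ?_, ?_⟩
    · exact hfl1.trans (mul_le_mul_of_nonneg_right (min_le_left _ _) hMi.le)
    · exact hfl2.trans (mul_le_mul_of_nonneg_right (min_le_left _ _) (sq_nonneg _))
  have hmm0 : 0 ≤ ma b ε R0 ((1 / 2) ^ n) f n 0 := PL.ma_nn b ε R0 n f 0
  have hS0 := hSH R hR n u hu e he ν c hν hc (by rw [hf]; exact hflat1) _ rfl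
  rw [hf, PL.bD_eq b ε R0 R n f e ν c] at hS0
  rw [PL.bD_eq b ε R0 R n f e ν c] at hfl1 hfl2
  obtain ⟨l0, l1, hl0, -, -, hS, -⟩ := hS0
  generalize ma b ε R0 ((1 / 2) ^ n) f n 0 = mm at *
  generalize hMidef : (∫ y, ⟪f y, e⟫_ℝ * zR (R0 / 3) y) = Mi' at *
  generalize hDdef : DD b ε R ((1 / 2) ^ n) f n 0 e = D at *
  generalize max 0 (∫ y, ⟪f y, e⟫_ℝ * (zR R0 y * ht ν c y ^ 2)) = bν at *
  have hηδ := eta_small hδp hδ1 hMi hmm0 (by linarith : D ≤ bν + D) hfl1 hfl2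
  have hηb : bν + D ≤ (bν + D) + Real.sqrt (mm * D) := by
    linarith [Real.sqrt_nonneg (mm * D)]
  generalize (bν + D) + Real.sqrt (mm * D) = η at *
  have hη0 : 0 ≤ η := by linarith
  have hPol := PL.JJ_poly hd1 n0 ν (c • ν) one_pos hu.smooth l0
  have hPc : Continuous (fun y => l0 (JJ n0 ν (c • ν) 1 u y)) := hPol.1.continuous
  have hS' : ∀ (ψ : Sp d → ℝ) (N : ℝ), PL.CB J1 N ψ → Cyl ν (R0 / 2) ψ →
      |(∫ y, ⟪f y, e⟫_ℝ * (cu1 4 (ht ν c y) * ψ y)) -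
        plInt ν c (fun y => l0 (JJ n0 ν (c • ν) 1 u y) * ψ y)| ≤ C1 * N * η := by
    intro ψ N hψ hcyl
    have h1 := hS ψ (fun _ => 0) N (PL.TFn_of_CB hψ)
      ⟨contDiff_const, fun j hj x => by
        rcases Nat.eq_zero_or_pos j with h | h
        · subst h
          rw [norm_iteratedFDeriv_zero, norm_zero]
          exact hψ.nonneg
        · rw [iteratedFDeriv_const_of_ne (by omega)]
          simpa using hψ.nonneg⟩ hcyl
      ⟨fun _ => rfl, fun y hy => absurd rfl hy⟩ (fun y => inner_zero_right _)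
    have e1 : ∀ y : Sp d, dv (fun _ => (0 : Sp d)) y = 0 := by
      intro y
      simp [dv]
    simp only [e1, mul_zero, sub_zero, inner_zero_right, add_zero] at h1
    exact h1
  have hlP : ∀ y, |l0 (JJ n0 ν (c • ν) 1 u y)| ≤ C1 * ‖JJ n0 ν (c • ν) 1 u y‖ := by
    intro y
    have := l0.le_opNorm (JJ n0 ν (c • ν) 1 u y)
    rw [Real.norm_eq_abs] at this
    exact this.trans (mul_le_mul_of_nonneg_right hl0 (norm_nonneg _))
  generalize hPdef : (fun y => l0 (JJ n0 ν (c • ν) 1 u y)) = P at *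
  have hPy : ∀ y, l0 (JJ n0 ν (c • ν) 1 u y) = P y := fun y => by rw [← hPdef]
  simp only [hPy] at hS' hlP
  clear hS hSH hSHJ hSHB hPy
  have hR3 : (3 : ℝ) ≤ R := by linarith only [hR0, hR]
  have hcu : PL.CB 2 Kh (fun y => cu1 4 (ht ν c y)) := hcut d ν c hν
  have htL := PL.tangL_norm hν
  -- test functions
  have hψ0 : PL.CB (J1 + 2) K0 (fun y => zR (R0 / 3 + 1) (tang ν y)) := by
    have := hz0.comp_right (PL.tangL ν) htL
    simpa only [PL.tangL_apply] using this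
  have hψ0c : Cyl ν (R0 / 2) (fun y => zR (R0 / 3 + 1) (tang ν y)) := by
    refine ⟨fun y => by simp only [PL.tang_tang hν], fun y hy => ?_⟩
    have := PL.norm_lt_of_zR hy
    linarith
  have hsupp : ∀ (ψ : Sp d → ℝ), Cyl ν (R0 / 2) ψ → ∀ y, cu1 4 (ht ν c y) * ψ y ≠ 0 →
      ‖y‖ < R - 2 := by
    intro ψ hψ y hy
    have h1 := PL.abs_lt_of_cu1 (left_ne_zero_of_mul hy)
    have h2 := hψ.supp y (right_ne_zero_of_mul hy)
    have h3 : ‖y‖ ≤ R0 := by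
      have h3 := PL.norm_tang_sq hν y
      unfold ht at h1
      have h4 : |⟪ν, y⟫_ℝ| ≤ R0 / 2 := by
        rw [abs_lt] at h1
        rw [abs_le] at hc ⊢
        constructor <;> linarith [h1.1, h1.2, hc.1, hc.2]
      have h5 : ⟪ν, y⟫_ℝ ^ 2 ≤ (R0 / 2) ^ 2 := by
        rw [← sq_abs]
        exact pow_le_pow_left₀ (abs_nonneg _) h4 2
      have h6 : ‖tang ν y‖ ^ 2 ≤ (R0 / 2) ^ 2 := pow_le_pow_left₀ (norm_nonneg _) h2 2
      exact (abs_le_of_sq_le_sq' (by nlinarith) (by linarith)).2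
    linarith
  have hzsupp : ∀ (ρ : ℝ), ρ ≤ R0 → ∀ y : Sp d, zR ρ y ≠ 0 → ‖y‖ < R - 2 := by
    intro ρ hρ y hy
    have := PL.norm_lt_of_zR hy
    linarith
  have hcR0 : c ^ 2 ≤ R0 ^ 2 := by
    rw [← sq_abs]
    exact pow_le_pow_left₀ (abs_nonneg _) (by linarith) 2
  have hI : ∀ {H : Sp d → ℝ}, Continuous H → Integrable (fun y => ⟪f y, e⟫_ℝ * H y) :=
    fun hH => PL.int_mH hfc hfs e hH
  have hquad : (∫ y, ⟪f y, e⟫_ℝ * (zR R0 y * (⟪ν, y⟫_ℝ + -c) ^ 2)) =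
      ∫ y, ⟪f y, e⟫_ℝ * (zR R0 y * ht ν c y ^ 2) := by
    congr 1
  have hU2 : Mi' ≤ (∫ y, ⟪f y, e⟫_ℝ * (cu1 4 (ht ν c y) * zR (R0 / 3 + 1) (tang ν y))) + bν +
      A2 * D := by
    have hCB2 : PL.CB 2 B2 (fun y => cu1 4 (ht ν c y) * zR (R0 / 3 + 1) (tang ν y) +
        zR R0 y * (⟪ν, y⟫_ℝ + -c) ^ 2 - zR (R0 / 3) y) := by
      refine (((hcu.mul (hψ0.mono (by omega) le_rfl)).add (hq2 ν (-c))).sub hz3).mono le_rfl ?_
      refine le_trans ?_ hB2
      rw [hν, neg_sq]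
      (clear * - hcR0 hK2; gcongr)
    have h1 := hZu E f hfc hfs R hR3 n e he _ B2 hB2p hCB2 (G_nonneg hν hR0) ?_
    · rw [← hA2, hDdef] at h1
      have hc1 : Continuous (fun y => cu1 4 (ht ν c y) * zR (R0 / 3 + 1) (tang ν y)) :=
        hcu.smooth.continuous.mul hψ0.smooth.continuous
      have hc2' := (hq2 ν (-c)).smooth.continuous
      have hc3 := hz3.smooth.continuous
      have h2 : (∫ y, ⟪f y, e⟫_ℝ * (cu1 4 (ht ν c y) * zR (R0 / 3 + 1) (tang ν y) +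
          zR R0 y * (⟪ν, y⟫_ℝ + -c) ^ 2 - zR (R0 / 3) y)) =
          (∫ y, ⟪f y, e⟫_ℝ * (cu1 4 (ht ν c y) * zR (R0 / 3 + 1) (tang ν y))) +
          (∫ y, ⟪f y, e⟫_ℝ * (zR R0 y * (⟪ν, y⟫_ℝ + -c) ^ 2)) -
          ∫ y, ⟪f y, e⟫_ℝ * zR (R0 / 3) y := by
        have h3 : ∫ y, (⟪f y, e⟫_ℝ * (cu1 4 (ht ν c y) * zR (R0 / 3 + 1) (tang ν y)) +
            ⟪f y, e⟫_ℝ * (zR R0 y * (⟪ν, y⟫_ℝ + -c) ^ 2) - ⟪f y, e⟫_ℝ * zR (R0 / 3) y) =
            (∫ y, (⟪f y, e⟫_ℝ * (cu1 4 (ht ν c y) * zR (R0 / 3 + 1) (tang ν y)) +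
            ⟪f y, e⟫_ℝ * (zR R0 y * (⟪ν, y⟫_ℝ + -c) ^ 2))) - ∫ y, ⟪f y, e⟫_ℝ * zR (R0 / 3) y :=
          integral_sub ((hI hc1).add (hI hc2')) (hI hc3)
        rw [integral_add (hI hc1) (hI hc2')] at h3
        rw [← h3]
        congr 1
        funext y
        ring
      rw [h2, hquad, hMidef] at h1
      linarith
    · intro y hy
      by_contra h
      have h3 : cu1 4 (ht ν c y) * zR (R0 / 3 + 1) (tang ν y) = 0 := by
        by_contra h4
        exact h (hsupp _ hψ0c y h4)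
      have h4 : zR R0 y = 0 := by
        by_contra h5
        exact h (hzsupp R0 le_rfl y h5)
      have h5 : zR (R0 / 3) y = 0 := by
        by_contra h6
        exact h (hzsupp (R0 / 3) (by linarith) y h6)
      rw [h3, h4, h5] at hy
      apply hy
      ring
  -- the lower bound for the integral
  have hp0 : Mi' / 2 ≤ plInt ν c (fun y => P y * zR (R0 / 3 + 1) (tang ν y)) := by
    have h2 := hS' _ K0 (hψ0.mono (by omega) le_rfl) hψ0c
    generalize (∫ y, ⟪f y, e⟫_ℝ * (cu1 4 (ht ν c y) * zR (R0 / 3 + 1) (tang ν y))) = I0 at *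
    generalize plInt ν c (fun y => P y * zR (R0 / 3 + 1) (tang ν y)) = p0 at *
    have h6 : I0 ≤ p0 + C1 * K0 * η := by
      have := (abs_le.mp h2).2
      linarith
    have h7 : bν + A2 * D ≤ (1 + A2) * η := by nlinarith only [hD0, hηb, hA2p, hbν0]
    have h8 : Mi' ≤ p0 + (C1 * K0 + 1 + A2) * η := by linarith
    have h9 : (C1 * K0 + 1 + A2) * η ≤ (C1 * K0 + 1 + A2) * (2 * δ * Mi') :=
      mul_le_mul_of_nonneg_left hηδ (by positivity)
    have h10 : (C1 * K0 + 1 + A2) * (2 * δ * Mi') = δ * (4 * (C1 * K0 + 1 + A2)) * (Mi' / 2) := by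
      ring
    have h11 : δ * (4 * (C1 * K0 + 1 + A2)) * (Mi' / 2) ≤ 1 * (Mi' / 2) :=
      mul_le_mul_of_nonneg_right hδ6 (by linarith)
    linarith only [hU2, h6, h7, h9, h11]
  obtain ⟨y0, hy1, hy2, hy3⟩ := exists_big (hP ν hν) hν hC5 hMi hPc
    hψ0.smooth.continuous hp0
  refine ⟨y0, hy1, hy2, hy3.trans ?_⟩
  rw [mul_assoc (4 * C5)]
  exact mul_le_mul_of_nonneg_left (hlP y0) (by positivity)

/-- jump polynomials of a fixed plane in the frames of a tower -/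
lemma jump_frame (hJC : StmtJC) (hSC : StmtSC) (hSD : StmtSD) (hd : 2 ≤ d) {V E : Type}
    [NormedAddCommGroup V] [InnerProductSpace ℝ V] [FiniteDimensional ℝ V] [NormedAddCommGroup E]
    [InnerProductSpace ℝ E] [FiniteDimensional ℝ E] {L : (Sp d →L[ℝ] V) →L[ℝ] E} {n0 : ℕ}
    {T : (ContinuousMultilinearMap ℝ (fun _ : Fin n0 => Sp d) E) →L[ℝ]
      (ContinuousMultilinearMap ℝ (fun _ : Fin (n0 + 1) => Sp d) V)} (hn : 1 ≤ n0)
    (hT : NSProp L n0 T) {M c0 ε : ℝ} (hε : 0 < ε) (hε1 : ε ≤ 1)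
    {b : Sp d → ℝ} (hb : BaseKer 2 M c0 b) {R0 : ℝ} (hR0 : 200 + 8 * d ≤ R0) :
    ∃ C : ℝ, 0 < C ∧ ∀ (R : ℝ), R0 + 10 ≤ R → ∀ (n : ℕ) (u : Sp d → V), TF u →
      ∀ (x : ℕ → Sp d) (e : ℕ → E), Tower x e → ∀ (ν : Sp d) (c : ℝ), ‖ν‖ = 1 → |c| ≤ R0 + 3 →
      ∀ r : ℕ, 2 ≤ r → ∀ z : Sp d, ‖z‖ ≤ R0 →
        ‖JJ n0 ν (((c - ⟪ν, x r⟫_ℝ) / 2 ^ r) • ν) 1 (fun y => u (x r + (2 : ℝ) ^ r • y)) z -
          JJ n0 ν (c • ν) (2 ^ r) u (x r + (2 : ℝ) ^ r • z)‖ ≤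
          C * bD b ε R0 R ((1 / 2) ^ n) (fo L u) (n + r) (x r) (e r) ν c ∧
        ‖JJ n0 ν (c • ν) (2 ^ (r + 1)) u (x r + (2 : ℝ) ^ r • z) -
          JJ n0 ν (c • ν) (2 ^ r) u (x r + (2 : ℝ) ^ r • z)‖ ≤
          2 * C * bD b ε R0 R ((1 / 2) ^ n) (fo L u) (n + r) (x r) (e r) ν c := by
  have hd1 : 1 ≤ d := by omega
  have hd0 : (0 : ℝ) ≤ d := Nat.cast_nonneg d
  have hRs := sqrt_R0 hR0
  have hs0 := Real.sqrt_nonneg (d : ℝ)
  obtain ⟨C, hC, hJ⟩ := hJC d V E L n0 T hd1 hn hT M c0 ε hε hε1 b hb R0 (by linarith)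
  refine ⟨C, hC, ?_⟩
  intro R hR n u hu x e hTw ν c hν hc r hr z hz
  set t : ℝ := (2 : ℝ) ^ r with htt
  have htp : 0 < t := by positivity
  have ht4 : 4 ≤ t := by
    calc (4 : ℝ) = 2 ^ 2 := by norm_num
      _ ≤ 2 ^ r := pow_le_pow_right₀ (by norm_num) hr
  obtain ⟨hut, hfo⟩ := (hSC d hd 1 one_pos (x r) t htp).2.2 V E L u hu
  have hbD := (frame hSC hSD hd hε hε1 hb (PL.fo_cont L hu) (PL.fo_cs L hu) (x r) r n).2.2 R0 R
    (n + r) (e r) ν c
  set q : Sp d := ((c - ⟪ν, x r⟫_ℝ) / t) • ν with hq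
  set q' : Sp d := (1 / t) • (c • ν - x r) with hq'
  have hνν : ⟪ν, ν⟫_ℝ = 1 := by rw [real_inner_self_eq_norm_sq, hν, one_pow]
  have hinq : ⟪ν, q⟫_ℝ = (c - ⟪ν, x r⟫_ℝ) / t := by
    rw [hq, real_inner_smul_right, hνν, mul_one]
  have hinq' : ⟪ν, q'⟫_ℝ = (c - ⟪ν, x r⟫_ℝ) / t := by
    rw [hq', real_inner_smul_right, inner_sub_right, real_inner_smul_right, hνν]
    ring
  have hxr := tower_norm hTw r
  have hinner : |⟪ν, x r⟫_ℝ| ≤ ‖x r‖ := by
    have := abs_real_inner_le_norm ν (x r)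
    rwa [hν, one_mul] at this
  have hbnd : R0 + 3 + Real.sqrt d * (t - 1) ≤ R0 / 2 * t := by
    have h1 : 0 ≤ (R0 / 2 - Real.sqrt d) * (t - 4) := mul_nonneg (by linarith) (by linarith)
    nlinarith
  have hqn : ‖q‖ ≤ R0 / 2 := by
    rw [hq, norm_smul, hν, mul_one, Real.norm_eq_abs, abs_div, abs_of_pos htp, div_le_iff₀ htp]
    exact ((abs_sub _ _).trans (add_le_add hc (hinner.trans hxr))).trans hbnd
  have hqn' : ‖q'‖ ≤ R0 / 2 := by
    rw [hq', norm_smul, Real.norm_eq_abs, abs_of_pos (by positivity), one_div,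
      inv_mul_le_iff₀ htp, mul_comm]
    refine ((norm_sub_le _ _).trans (add_le_add ?_ hxr)).trans hbnd
    rw [norm_smul, hν, mul_one, Real.norm_eq_abs]
    exact hc
  obtain ⟨-, h2, h3⟩ := hJ R hR (n + r) (fun y => u (x r + t • y)) hut (e r) (hTw.unit r) ν q q' hν
    (hinq.trans hinq'.symm) hqn hqn' z hz
  rw [hinq, hfo, hbD] at h2 h3
  have hsc : ∀ s : ℝ, JJ n0 ν q' s (fun y => u (x r + t • y)) z =
      JJ n0 ν (c • ν) (t * s) u (x r + t • z) := by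
    intro s
    unfold JJ
    rw [hSD.1 d V u hu.smooth (x r) t htp, hSD.1 d V u hu.smooth (x r) t htp]
    have e1 : x r + t • (q' + (6 * s) • ν) = c • ν + (6 * (t * s)) • ν := by
      rw [hq', smul_add, smul_smul, smul_smul, mul_one_div_cancel htp.ne', one_smul, ← add_assoc,
        add_sub_cancel]
      congr 2
      ring
    have e2 : x r + t • (q' - (6 * s) • ν) = c • ν - (6 * (t * s)) • ν := by
      rw [hq', smul_sub, smul_smul, smul_smul, mul_one_div_cancel htp.ne', one_smul, ← add_sub_assoc,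
        add_sub_cancel]
      congr 2
      ring
    rw [e1, e2]
  rw [hsc, mul_one] at h2
  rw [hsc] at h3
  have h4 : (2 : ℝ) ^ (r + 1) = t * 2 := by rw [pow_succ]
  rw [h4]
  refine ⟨by rw [norm_sub_rev]; exact h2, ?_⟩
  set a1 := JJ n0 ν (c • ν) (t * 2) u (x r + t • z)
  set a2 := JJ n0 ν (c • ν) t u (x r + t • z)
  set a3 := JJ n0 ν q 1 (fun y => u (x r + t • y)) z
  have e3 : a1 - a2 = (a1 - a3) - (a2 - a3) := by abel
  rw [e3]
  refine (norm_sub_le _ _).trans ?_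
  linarith only [h3, h2]

end MPm

end

end TG


end

section

/-!
# Trace inequality, general operators: persistence of the mass along a common plane (module MP)
-/

open MeasureTheory Metric Set TrI
open scoped InnerProductSpace ContDiff

namespace TG

noncomputable section

namespace MPm

variable {d : ℕ}

lemma sum_le {q : ℕ → ℝ} (h0 : ∀ r, 0 ≤ q r) {B : ℝ}
    (hB : ∀ I : ℕ, ∑ r ∈ Finset.range I, wq (1 / 2) r * q r ≤ B) (r : ℕ) :
    ∑ j ∈ Finset.range (r + 1), q j ≤ (2 : ℝ) ^ ((1 / 2 : ℝ) * r) * B := by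
  have h1 : ∀ j ∈ Finset.range (r + 1), q j ≤ (2 : ℝ) ^ ((1 / 2 : ℝ) * r) * (wq (1 / 2) j * q j) := by
    intro j hj
    have hjr : (j : ℝ) ≤ r := by exact_mod_cast Nat.lt_succ_iff.mp (Finset.mem_range.mp hj)
    have h2 : (1 : ℝ) ≤ (2 : ℝ) ^ ((1 / 2 : ℝ) * r) * wq (1 / 2) j := by
      unfold wq
      rw [← Real.rpow_add (by norm_num)]
      exact Real.one_le_rpow (by norm_num) (by linarith)
    calc q j = 1 * q j := (one_mul _).symm
      _ ≤ ((2 : ℝ) ^ ((1 / 2 : ℝ) * r) * wq (1 / 2) j) * q j :=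
          mul_le_mul_of_nonneg_right h2 (h0 j)
      _ = _ := mul_assoc _ _ _
  refine (Finset.sum_le_sum h1).trans ?_
  rw [← Finset.mul_sum]
  exact mul_le_mul_of_nonneg_left (hB _) (by positivity)

/-- the numbers of flatness -/
lemma flat_num {a Mi q m κ κ' C K : ℝ} (ha : 0 < a) (hC : 0 < C) (hK : 1 ≤ K) (hκ : 0 < κ)
    (h1 : a ≤ C * Mi) (h2 : q ≤ κ * a) (h3 : m * q ≤ κ * K * a ^ 2) (h4 : κ * C ≤ κ')
    (h5 : κ * K * C ^ 2 ≤ κ') : 0 < Mi ∧ q ≤ κ' * Mi ∧ m * q ≤ κ' * Mi ^ 2 := by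
  have hMi : 0 < Mi := by
    by_contra h
    push Not at h
    have := mul_nonpos_of_nonneg_of_nonpos hC.le h
    linarith
  refine ⟨hMi, ?_, ?_⟩
  · calc q ≤ κ * a := h2
      _ ≤ κ * (C * Mi) := mul_le_mul_of_nonneg_left h1 hκ.le
      _ = κ * C * Mi := by ring
      _ ≤ κ' * Mi := mul_le_mul_of_nonneg_right h4 hMi.le
  · have h6 : a ^ 2 ≤ (C * Mi) ^ 2 := pow_le_pow_left₀ ha.le h1 2
    calc m * q ≤ κ * K * a ^ 2 := h3
      _ ≤ κ * K * (C * Mi) ^ 2 := mul_le_mul_of_nonneg_left h6 (by positivity)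
      _ = κ * K * C ^ 2 * Mi ^ 2 := by ring
      _ ≤ κ' * Mi ^ 2 := mul_le_mul_of_nonneg_right h5 (sq_nonneg _)

/-- a small constant -/
lemma exists_kappa {X1 X2 X3 X4 X5 X6 X7 : ℝ} (h1 : 0 < X1) (h2 : 0 < X2) (h3 : 0 < X3)
    (h4 : 0 < X4) (h5 : 0 < X5) (h6 : 0 < X6) (h7 : 0 < X7) :
    ∃ κ : ℝ, 0 < κ ∧ κ * X1 ≤ 1 ∧ κ * X2 ≤ 1 ∧ κ * X3 ≤ 1 ∧ κ * X4 ≤ 1 ∧ κ * X5 ≤ 1 ∧
      κ * X6 ≤ 1 ∧ κ * X7 ≤ 1 := by
  have hS : 0 < X1 + X2 + X3 + X4 + X5 + X6 + X7 := by positivity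
  refine ⟨1 / (X1 + X2 + X3 + X4 + X5 + X6 + X7), by positivity, ?_, ?_, ?_, ?_, ?_, ?_, ?_⟩ <;>
  · rw [one_div, inv_mul_le_iff₀ hS]
    linarith

lemma jump_num {F : Type*} [SeminormedAddCommGroup F] (v2 j2 jr vr : F) {a S CJ q2 qr s κ : ℝ}
    (h0 : a / S ≤ ‖v2‖) (h1 : ‖v2 - j2‖ ≤ CJ * q2) (h3 : ‖jr - j2‖ ≤ 2 * CJ * s)
    (h2 : ‖vr - jr‖ ≤ CJ * qr) (hCJ : 0 < CJ) (hqr : 0 ≤ qr) (hs : 0 ≤ s) (h5 : q2 ≤ s)
    (h4 : s + qr ≤ κ * a) (h6 : 4 * CJ * (κ * a) ≤ a / (2 * S))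
    (h7 : a / S = 2 * (a / (2 * S))) : a / (2 * S) ≤ ‖vr‖ := by
  have n1 : ‖v2‖ ≤ ‖v2 - j2‖ + ‖j2‖ := norm_le_norm_sub_add v2 j2
  have n2 : ‖j2‖ ≤ ‖jr - j2‖ + ‖jr‖ := by
    rw [norm_sub_rev]
    exact norm_le_norm_sub_add j2 jr
  have n3 : ‖jr‖ ≤ ‖vr - jr‖ + ‖vr‖ := by
    rw [norm_sub_rev]
    exact norm_le_norm_sub_add jr vr
  have h8 : CJ * q2 ≤ CJ * s := mul_le_mul_of_nonneg_left h5 hCJ.le
  have h9 : CJ * (s + qr) ≤ CJ * (κ * a) := mul_le_mul_of_nonneg_left h4 hCJ.le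
  have h10 : 0 ≤ CJ * qr := mul_nonneg hCJ.le hqr
  have h11 : 0 ≤ CJ * s := mul_nonneg hCJ.le hs
  rw [mul_add] at h9
  linarith

end MPm

open _root_.TG.MPm in
theorem stmtMP (hNS : TrI.StmtNS) (hSHB : StmtSHB) (hSM : StmtSM) (hJC : StmtJC) (_hNC : StmtNC)
    (hZ : StmtZ) (hMA : StmtMA) (hTW : StmtTW) (hSC : StmtSC) (hSD : StmtSD) : StmtMP := by
  intro d V E _ _ _ _ _ _ L hd hL M c0 ε hε hε1 b hb R0 γ K κ1 hR0 hγ hγ1 hK hκ1
  obtain ⟨n0, T, hn, hT⟩ := hNS d V E L hL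
  have hd1 : 1 ≤ d := by omega
  have hd0 : (0 : ℝ) ≤ d := Nat.cast_nonneg d
  have hd2 : (2 : ℝ) ≤ d := by exact_mod_cast hd
  have hRs := sqrt_R0 hR0
  have hs0 := Real.sqrt_nonneg (d : ℝ)
  obtain ⟨CB, hCB, hstart⟩ := start_mass hSC hSD hTW hMA hd hε hε1 hb hR0
  obtain ⟨CS, κS, hCS, hκS, hjump⟩ := start_jump hSHB hZ hd hn hL hT hε hε1 hb (R0 := R0)
    (by linarith)
  obtain ⟨CP, hCP, hstep⟩ := step_mass hZ hTW hd hε hε1 hb hR0
  obtain ⟨CJ, hCJ, hJf⟩ := jump_frame hJC hSC hSD hd hn hT hε hε1 hb hR0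
  obtain ⟨CM, κM, hCM, hκM, hM⟩ := hSM d V E L n0 T hd hn hL hT M c0 ε hε hε1 b hb R0 (by linarith)
  obtain ⟨A, hAdef, hA⟩ : ∃ A : ℝ, A = 2 * 8 ^ d ∧ 0 < A := ⟨_, rfl, by positivity⟩
  obtain ⟨S, hSdef, hS⟩ : ∃ S : ℝ, S = A * CS ∧ 0 < S := ⟨_, rfl, by positivity⟩
  obtain ⟨C, hCdef, hC⟩ : ∃ C : ℝ, C = A + 4 * S * CM * (2 ^ d / 2) ∧ 0 < C :=
    ⟨_, rfl, by positivity⟩
  obtain ⟨κ', hκ'def, hκ'⟩ : ∃ κ' : ℝ, κ' = min κ1 (min κS κM) ∧ 0 < κ' :=
    ⟨_, rfl, lt_min hκ1 (lt_min hκS hκM)⟩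
  have hκ'1 : κ' ≤ κ1 := by rw [hκ'def]; exact min_le_left _ _
  have hκ'S : κ' ≤ κS := by rw [hκ'def]; exact (min_le_right _ _).trans (min_le_left _ _)
  have hκ'M : κ' ≤ κM := by rw [hκ'def]; exact (min_le_right _ _).trans (min_le_right _ _)
  have hK0 : 0 < K := by linarith
  obtain ⟨κ, hκ, k1, k2, k3, k4, k5, k6, k7⟩ := exists_kappa (X1 := 2 * CB) (X2 := C / κ')
    (X3 := K * C ^ 2 / κ') (X4 := 8 * CJ * S) (X5 := 2 * S / κM) (X6 := K * (2 * S) ^ 2 / κM)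
    (X7 := 8 * CM * CP * S) (by positivity) (by positivity) (by positivity) (by positivity)
    (by positivity) (by positivity) (by positivity)
  rw [mul_div_assoc', div_le_one (by positivity)] at k2 k3 k5 k6
  rw [← mul_assoc] at k3 k6
  refine ⟨C, κ, hC, hκ, ?_⟩
  intro R hR n u hu x e hTw a ha hadef hgr ν c B hν hc hB
  obtain ⟨f, hf⟩ : ∃ f : Sp d → E, f = fo L u := ⟨_, rfl⟩
  have hfc : Continuous f := by rw [hf]; exact PL.fo_cont L hu
  have hfs : HasCompactSupport f := by rw [hf]; exact PL.fo_cs L hu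
  rw [← hf] at hadef hgr hB ⊢
  obtain ⟨q, hq⟩ : ∃ q : ℕ → ℝ, ∀ r, q r = bD b ε R0 R ((1 / 2) ^ n) f (n + r) (x r) (e r) ν c :=
    ⟨_, fun _ => rfl⟩
  obtain ⟨D, hD⟩ : ∃ D : ℕ → ℝ, ∀ r, D r = DD b ε R ((1 / 2) ^ n) f (n + r) (x r) (e r) :=
    ⟨_, fun _ => rfl⟩
  obtain ⟨m, hm⟩ : ∃ m : ℕ → ℝ, ∀ r, m r = ma b ε R0 ((1 / 2) ^ n) f (n + r) (x r) :=
    ⟨_, fun _ => rfl⟩
  obtain ⟨I, hI⟩ : ∃ I : ℕ → ℝ, ∀ r, I r = Mi R0 (rs (x r) (2 ^ r) f) (e r) := ⟨_, fun _ => rfl⟩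
  simp only [← hq] at hB
  simp only [← hm] at hgr
  have hD0 : ∀ r, 0 ≤ D r := fun r => by
    rw [hD]
    exact TU.DD_nonneg b ε R (by positivity) f _ _ (hTw.unit r)
  have hDq : ∀ r, D r ≤ q r := fun r => by
    rw [hD, hq]
    unfold bD
    linarith [le_max_left 0 (bb R0 ((1 / 2) ^ n) f (n + r) (x r) (e r) ν c)]
  have hq0 : ∀ r, 0 ≤ q r := fun r => (hD0 r).trans (hDq r)
  have hm0 : ∀ r, 0 ≤ m r := fun r => by
    rw [hm]
    exact TU.ma_nonneg b ε R0 (by positivity) f _ _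
  have hB0 : 0 ≤ B := by simpa using hB 0
  -- good levels
  have hgs : ∀ r : ℕ, (2 : ℝ) ^ ((3 / 5 : ℝ) * r) * B ≤ κ * a →
      ∑ j ∈ Finset.range (r + 1), q j ≤ κ * a := by
    intro r hr
    refine (sum_le hq0 hB r).trans (le_trans ?_ hr)
    refine mul_le_mul_of_nonneg_right ?_ hB0
    refine Real.rpow_le_rpow_of_exponent_le (by norm_num) ?_
    have : (0 : ℝ) ≤ r := Nat.cast_nonneg r
    linarith only []
  have hgq : ∀ r : ℕ, (2 : ℝ) ^ ((3 / 5 : ℝ) * r) * B ≤ κ * a → q r ≤ κ * a := by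
    intro r hr
    refine le_trans ?_ (hgs r hr)
    exact Finset.single_le_sum (f := q) (fun j _ => hq0 j) (Finset.mem_range.mpr (by omega))
  have hgm : ∀ r : ℕ, (2 : ℝ) ^ ((3 / 5 : ℝ) * r) * B ≤ κ * a →
      m r * q r ≤ κ * K * a ^ 2 := by
    intro r hr
    have hr0 : (0 : ℝ) ≤ r := Nat.cast_nonneg r
    have h1 : q r ≤ (2 : ℝ) ^ ((1 / 2 : ℝ) * r) * B := by
      refine le_trans ?_ (sum_le hq0 hB r)
      exact Finset.single_le_sum (f := q) (fun j _ => hq0 j) (Finset.mem_range.mpr (by omega))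
    have hγ2 : γ ≤ 1 / 10 := by
      refine hγ1.trans ?_
      rw [div_le_div_iff₀ (by positivity) (by norm_num)]
      linarith only [hd2]
    have h2 : (2 : ℝ) ^ (γ * r) * (2 : ℝ) ^ ((1 / 2 : ℝ) * r) ≤ (2 : ℝ) ^ ((3 / 5 : ℝ) * r) := by
      rw [← Real.rpow_add (by norm_num)]
      refine Real.rpow_le_rpow_of_exponent_le (by norm_num) ?_
      nlinarith only [hγ2]
    calc m r * q r ≤ (K * (2 : ℝ) ^ (γ * r) * a) * ((2 : ℝ) ^ ((1 / 2 : ℝ) * r) * B) :=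
          mul_le_mul (hgr r) h1 (hq0 r) (by positivity)
      _ = K * a * (((2 : ℝ) ^ (γ * r) * (2 : ℝ) ^ ((1 / 2 : ℝ) * r)) * B) := by ring
      _ ≤ K * a * ((2 : ℝ) ^ ((3 / 5 : ℝ) * r) * B) :=
          mul_le_mul_of_nonneg_left (mul_le_mul_of_nonneg_right h2 hB0) (by positivity)
      _ ≤ K * a * (κ * a) := mul_le_mul_of_nonneg_left hr (by positivity)
      _ = κ * K * a ^ 2 := by ring
  have hgd : ∀ j r : ℕ, j ≤ r → (2 : ℝ) ^ ((3 / 5 : ℝ) * r) * B ≤ κ * a →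
      (2 : ℝ) ^ ((3 / 5 : ℝ) * j) * B ≤ κ * a := by
    intro j r hjr hr
    refine le_trans (mul_le_mul_of_nonneg_right ?_ hB0) hr
    refine Real.rpow_le_rpow_of_exponent_le (by norm_num) ?_
    have : (j : ℝ) ≤ r := by exact_mod_cast hjr
    linarith only [this]
  -- frames
  have hfr := fun r : ℕ => frame hSC hSD hd hε hε1 hb hfc hfs (x r) r n
  have hflat : ∀ κ2 : ℝ, κ' ≤ κ2 → ∀ r : ℕ, (2 : ℝ) ^ ((3 / 5 : ℝ) * r) * B ≤ κ * a →
      a ≤ C * I r → Flat b ε R0 R κ2 (rs (x r) (2 ^ r) f) (n + r) (e r) ν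
        ((c - ⟪ν, x r⟫_ℝ) / 2 ^ r) := by
    intro κ2 hκ2 r hr haI
    obtain ⟨h1, h2, h3⟩ := flat_num ha hC hK hκ haI (hgq r hr) (hgm r hr) k2 k3
    have h4 : (∫ y, ⟪rs (x r) (2 ^ r) f y, e r⟫_ℝ * zR (R0 / 3) y) = I r := by
      rw [hI]
      rfl
    unfold Flat
    rw [(hfr r).2.2, (hfr r).2.1, smul_zero, add_zero, h4, ← hq, ← hm]
    exact ⟨h1, h2.trans (mul_le_mul_of_nonneg_right hκ2 h1.le),
      h3.trans (mul_le_mul_of_nonneg_right hκ2 (sq_nonneg _))⟩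
  -- levels 2 and 3
  have h23 : ∀ r : ℕ, 2 ≤ r → r ≤ 3 → (2 : ℝ) ^ ((3 / 5 : ℝ) * r) * B ≤ κ * a →
      a ≤ A * I r := by
    intro r hr2 hr3 hr
    have h1 := hstart E R hR f hfc hfs n x e hTw r hr2 hr3
    rw [← hadef, ← hI, ← hD] at h1
    have h2 : CB * D r ≤ a / 2 := by
      calc CB * D r ≤ CB * (κ * a) :=
            mul_le_mul_of_nonneg_left ((hDq r).trans (hgq r hr)) hCB.le
        _ = (κ * (2 * CB)) * (a / 2) := by ring
        _ ≤ 1 * (a / 2) := mul_le_mul_of_nonneg_right k1 (by positivity)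
        _ = a / 2 := one_mul _
    have h3 : a / 2 ≤ (2 ^ r) ^ d / 2 ^ r * I r := by linarith only [h1, h2]
    have h4 : 0 < I r := by
      by_contra h
      push Not at h
      have : ((2 : ℝ) ^ r) ^ d / 2 ^ r * I r ≤ 0 :=
        mul_nonpos_of_nonneg_of_nonpos (by positivity) h
      linarith only [ha, h1, h2, this]
    have h5 : ((2 : ℝ) ^ r) ^ d / 2 ^ r ≤ 8 ^ d := by
      rw [div_le_iff₀ (by positivity)]
      have h6 : (2 : ℝ) ^ r ≤ 8 := by
        calc (2 : ℝ) ^ r ≤ 2 ^ 3 := pow_le_pow_right₀ (by norm_num) hr3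
          _ = 8 := by norm_num
      have h7 : (1 : ℝ) ≤ 2 ^ r := one_le_pow₀ (by norm_num)
      calc ((2 : ℝ) ^ r) ^ d ≤ 8 ^ d := pow_le_pow_left₀ (by positivity) h6 d
        _ = 8 ^ d * 1 := (mul_one _).symm
        _ ≤ 8 ^ d * 2 ^ r := mul_le_mul_of_nonneg_left h7 (by positivity)
    have h8 : ((2 : ℝ) ^ r) ^ d / 2 ^ r * I r ≤ 8 ^ d * I r :=
      mul_le_mul_of_nonneg_right h5 h4.le
    rw [hAdef]
    linarith only [h1, h2, h8]
  have hAC : ∀ r, a ≤ A * I r → a ≤ C * I r := by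
    intro r h
    have h1 : 0 < I r := by
      by_contra h'
      push Not at h'
      have := mul_nonpos_of_nonneg_of_nonpos hA.le h'
      linarith
    refine h.trans (mul_le_mul_of_nonneg_right ?_ h1.le)
    rw [hCdef]
    have : 0 < 4 * S * CM * (2 ^ d / 2) := by positivity
    linarith
  -- the main claim
  have key : ∀ r : ℕ, 2 ≤ r → (2 : ℝ) ^ ((3 / 5 : ℝ) * r) * B ≤ κ * a → a ≤ C * I r := by
    intro r hr2
    induction r, hr2 using Nat.le_induction with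
    | base => exact fun hr => hAC 2 (h23 2 le_rfl (by norm_num) hr)
    | succ r hr2 ih =>
      intro hr
      rcases Nat.lt_or_ge r 3 with hr3 | hr3
      · exact hAC (r + 1) (h23 (r + 1) (by omega) (by omega) hr)
      have hgr1 := hgd r (r + 1) (by omega) hr
      have hg2 := hgd 2 r (by omega) hgr1
      have ihr := ih hgr1
      have hut := fun r : ℕ =>
        (hSC d hd 1 one_pos (x r) (2 ^ r) (by positivity)).2.2 V E L u hu
      rw [← hf] at hut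
      have hνν : ⟪ν, ν⟫_ℝ = 1 := by rw [real_inner_self_eq_norm_sq, hν, one_pow]
      have hinner : ∀ y : Sp d, |⟪ν, y⟫_ℝ| ≤ ‖y‖ := by
        intro y
        have := abs_real_inner_le_norm ν y
        rwa [hν, one_mul] at this
      have hcr : ∀ r : ℕ, 2 ≤ r → |(c - ⟪ν, x r⟫_ℝ) / 2 ^ r| ≤ (R0 + 3 + 3 * Real.sqrt d) / 4 +
          Real.sqrt d ∧ |(c - ⟪ν, x r⟫_ℝ) / 2 ^ r| ≤ R0 / 3 := by
        intro r hr
        have htp : (0 : ℝ) < 2 ^ r := by positivity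
        have ht4 : (4 : ℝ) ≤ 2 ^ r := by
          calc (4 : ℝ) = 2 ^ 2 := by norm_num
            _ ≤ 2 ^ r := pow_le_pow_right₀ (by norm_num) hr
        have hxr := tower_norm hTw r
        have h1 : |c - ⟪ν, x r⟫_ℝ| ≤ R0 + 3 + Real.sqrt d * (2 ^ r - 1) :=
          (abs_sub _ _).trans (add_le_add hc ((hinner _).trans hxr))
        have h2 : 0 ≤ (R0 / 3 - Real.sqrt d) * (2 ^ r - 4) :=
          mul_nonneg (by linarith only [hR0, hRs]) (by linarith only [ht4])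
        have h3 : 0 ≤ (R0 + 3) * (2 ^ r - 4) := mul_nonneg (by linarith only [hR0]) (by linarith only [ht4])
        have h4 : 0 ≤ Real.sqrt d * (2 ^ r - 4) := mul_nonneg hs0 (by linarith only [ht4])
        constructor
        · rw [abs_div, abs_of_pos htp, div_le_iff₀ htp]
          linarith only [hs0, h1, h3, h4]
        · rw [abs_div, abs_of_pos htp, div_le_iff₀ htp]
          linarith only [hR0, hRs, h1, h2]
      -- the point with large jump
      obtain ⟨y0, hy1, hy2, hy3⟩ := hjump R (by linarith only [hR0, hR]) (n + 2)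
        (fun y => u (x 2 + (2 : ℝ) ^ 2 • y)) (hut 2).1 (e 2) (hTw.unit 2) ν
        ((c - ⟪ν, x 2⟫_ℝ) / 2 ^ 2) hν (hcr 2 le_rfl).2 (by
          rw [(hut 2).2]
          exact hflat κS hκ'S 2 hg2 (hAC 2 (h23 2 le_rfl (by norm_num) hg2)))
      rw [(hut 2).2, ← hI] at hy3
      have haS : a / S ≤ ‖JJ n0 ν (((c - ⟪ν, x 2⟫_ℝ) / 2 ^ 2) • ν) 1
          (fun y => u (x 2 + (2 : ℝ) ^ 2 • y)) y0‖ := by
        rw [div_le_iff₀ hS]
        calc a ≤ A * I 2 := h23 2 le_rfl (by norm_num) hg2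
          _ ≤ A * (CS * ‖JJ n0 ν (((c - ⟪ν, x 2⟫_ℝ) / 2 ^ 2) • ν) 1
          (fun y => u (x 2 + (2 : ℝ) ^ 2 • y)) y0‖) := mul_le_mul_of_nonneg_left hy3 hA.le
          _ = _ := by rw [hSdef]; ring
      have hy0n : ‖y0‖ ≤ (R0 + 3 + 3 * Real.sqrt d) / 4 + (R0 / 3 + 2) := by
        have h1 : y0 = tang ν y0 + ⟪ν, y0⟫_ℝ • ν := by unfold tang; abel
        have h2 : ‖y0‖ ≤ ‖tang ν y0‖ + ‖⟪ν, y0⟫_ℝ • ν‖ := by
          conv_lhs => rw [h1]
          exact norm_add_le _ _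
        rw [norm_smul, hν, mul_one, Real.norm_eq_abs, hy1, abs_div,
          abs_of_pos (by positivity : (0 : ℝ) < 2 ^ 2)] at h2
        have h3 : |c - ⟪ν, x 2⟫_ℝ| ≤ R0 + 3 + Real.sqrt d * (2 ^ 2 - 1) :=
          (abs_sub _ _).trans (add_le_add hc ((hinner _).trans (tower_norm hTw 2)))
        have h4 : |c - ⟪ν, x 2⟫_ℝ| / 2 ^ 2 ≤ (R0 + 3 + 3 * Real.sqrt d) / 4 := by
          rw [div_le_div_iff₀ (by positivity) (by norm_num)]
          linarith only [h3]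
        linarith only [hy2, h2, h3]
      obtain ⟨xs, hxs⟩ : ∃ xs : Sp d, xs = x 2 + (2 : ℝ) ^ 2 • y0 := ⟨_, rfl⟩
      obtain ⟨p, hp⟩ : ∃ p : ℕ → Sp d, ∀ r, p r = (1 / (2 : ℝ) ^ r) • (xs - x r) :=
        ⟨_, fun _ => rfl⟩
      have hxp : ∀ r, x r + (2 : ℝ) ^ r • p r = xs := by
        intro r
        rw [hp, smul_smul, mul_one_div_cancel (by positivity), one_smul, add_sub_cancel]
      have hp2 : p 2 = y0 := by
        rw [hp, hxs, add_sub_cancel_left, smul_smul, one_div_mul_cancel (by positivity), one_smul]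
      have hpn : ∀ r : ℕ, 2 ≤ r → ‖p r‖ * 2 ^ r ≤ 4 * ‖y0‖ + Real.sqrt d * (2 ^ r - 4) := by
        intro r hr
        have h1 : ‖p r‖ * 2 ^ r = ‖xs - x r‖ := by
          rw [hp, norm_smul, Real.norm_eq_abs, abs_of_pos (by positivity), one_div, mul_comm,
            ← mul_assoc, mul_inv_cancel₀ (by positivity), one_mul]
        rw [h1]
        have h2 : xs - x r = (2 : ℝ) ^ 2 • y0 - (x r - x 2) := by
          rw [hxs]
          abel
        rw [h2]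
        refine (norm_sub_le _ _).trans (add_le_add ?_ (tower_norm2 hTw r hr))
        rw [norm_smul, Real.norm_eq_abs, abs_of_pos (by positivity)]
        norm_num
      have hpR : ∀ r : ℕ, 2 ≤ r → ‖p r‖ ≤ R0 := by
        intro r hr
        have htp : (0 : ℝ) < 2 ^ r := by positivity
        have ht4 : (4 : ℝ) ≤ 2 ^ r := by
          calc (4 : ℝ) = 2 ^ 2 := by norm_num
            _ ≤ 2 ^ r := pow_le_pow_right₀ (by norm_num) hr
        have h1 := hpn r hr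
        have h2 : 0 ≤ (R0 - Real.sqrt d) * (2 ^ r - 4) :=
          mul_nonneg (by linarith only [hR0, hRs]) (by linarith only [ht4])
        by_contra h
        push Not at h
        have h3 : R0 * 2 ^ r < ‖p r‖ * 2 ^ r := mul_lt_mul_of_pos_right h htp
        linarith only [hR0, hRs, hy0n, h1, h2, h3]
      have hpR3 : ‖p r‖ ≤ R0 / 3 := by
        have htp : (0 : ℝ) < 2 ^ r := by positivity
        have ht8 : (8 : ℝ) ≤ 2 ^ r := by
          calc (8 : ℝ) = 2 ^ 3 := by norm_num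
            _ ≤ 2 ^ r := pow_le_pow_right₀ (by norm_num) hr3
        have h1 := hpn r hr2
        have h2 : 0 ≤ (R0 / 3 - Real.sqrt d) * (2 ^ r - 8) :=
          mul_nonneg (by linarith only [hR0, hRs]) (by linarith only [ht8])
        by_contra h
        push Not at h
        have h3 : R0 / 3 * 2 ^ r < ‖p r‖ * 2 ^ r := mul_lt_mul_of_pos_right h htp
        linarith only [hR0, hRs, hy0n, h1, h2, h3]
      -- the jumps
      have hJF : ∀ r : ℕ, 2 ≤ r →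
          ‖JJ n0 ν (((c - ⟪ν, x r⟫_ℝ) / 2 ^ r) • ν) 1 (fun y => u (x r + (2 : ℝ) ^ r • y)) (p r) -
            JJ n0 ν (c • ν) (2 ^ r) u xs‖ ≤ CJ * q r ∧
          ‖JJ n0 ν (c • ν) (2 ^ (r + 1)) u xs - JJ n0 ν (c • ν) (2 ^ r) u xs‖ ≤
            2 * CJ * q r := by
        intro r hr
        have := hJf R (by linarith only [hR0, hR]) n u hu x e hTw ν c hν hc r hr (p r) (hpR r hr)
        rwa [hxp, ← hf, ← hq] at this
      have hsum : ∀ r : ℕ, 2 ≤ r → ‖JJ n0 ν (c • ν) (2 ^ r) u xs - JJ n0 ν (c • ν) (2 ^ 2) u xs‖ ≤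
          2 * CJ * ∑ j ∈ Finset.range r, q j := by
        intro r hr
        induction r, hr using Nat.le_induction with
        | base =>
          rw [sub_self, norm_zero]
          exact mul_nonneg (by positivity) (Finset.sum_nonneg fun j _ => hq0 j)
        | succ r hr ihs =>
          rw [Finset.sum_range_succ, mul_add]
          have h1 := (hJF r hr).2
          have h2 : JJ n0 ν (c • ν) (2 ^ (r + 1)) u xs - JJ n0 ν (c • ν) (2 ^ 2) u xs =
              (JJ n0 ν (c • ν) (2 ^ r) u xs - JJ n0 ν (c • ν) (2 ^ 2) u xs) +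
              (JJ n0 ν (c • ν) (2 ^ (r + 1)) u xs - JJ n0 ν (c • ν) (2 ^ r) u xs) := by abel
          rw [h2]
          refine (norm_add_le _ _).trans (add_le_add ?_ h1)
          exact ihs
      have hJr : a / (2 * S) ≤ ‖JJ n0 ν (((c - ⟪ν, x r⟫_ℝ) / 2 ^ r) • ν) 1
          (fun y => u (x r + (2 : ℝ) ^ r • y)) (p r)‖ := by
        have h1 := (hJF 2 le_rfl).1
        rw [hp2] at h1
        have h2 := (hJF r hr2).1
        have h3 := hsum r hr2
        have h4 := hgs r hgr1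
        rw [Finset.sum_range_succ] at h4
        have h5 : q 2 ≤ ∑ j ∈ Finset.range r, q j :=
          Finset.single_le_sum (f := q) (fun j _ => hq0 j) (Finset.mem_range.mpr (by omega))
        have h6 : 4 * CJ * (κ * a) ≤ a / (2 * S) := by
          rw [le_div_iff₀ (by positivity)]
          calc 4 * CJ * (κ * a) * (2 * S) = κ * (8 * CJ * S) * a := by ring
            _ ≤ 1 * a := mul_le_mul_of_nonneg_right k4 ha.le
            _ = a := one_mul a
        have h7 : a / S = 2 * (a / (2 * S)) := by field_simp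
        exact jump_num _ _ _ _ haS h1 h3 h2 hCJ (hq0 r)
          (Finset.sum_nonneg fun j _ => hq0 j) h5 h4 h6 h7
      have hinp : ⟪ν, p r⟫_ℝ = (c - ⟪ν, x r⟫_ℝ) / 2 ^ r := by
        rw [hp, inner_smul_right, inner_sub_right, hxs, inner_add_right, inner_smul_right, hy1]
        field_simp
        ring
      have hSMr := hM R (by linarith only [hR0, hR]) (n + r) (fun y => u (x r + (2 : ℝ) ^ r • y)) (hut r).1 (e r)
        (hTw.unit r) ν ((c - ⟪ν, x r⟫_ℝ) / 2 ^ r) hν (hcr r hr2).2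
        (by rw [(hut r).2]; exact hflat κM hκ'M r hgr1 ihr) (p r) (a / (2 * S)) hinp hpR3
        (by positivity) hJr
        (by
          rw [(hut r).2, (hfr r).2.2, ← hq]
          calc q r ≤ κ * a := hgq r hgr1
            _ = κ * (2 * S) * (a / (2 * S)) := by field_simp
            _ ≤ κM * (a / (2 * S)) := mul_le_mul_of_nonneg_right k5 (by positivity))
        (by
          rw [(hut r).2, (hfr r).2.2, (hfr r).2.1, smul_zero, add_zero, ← hq, ← hm]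
          calc m r * q r ≤ κ * K * a ^ 2 := hgm r hgr1
            _ = κ * K * (2 * S) ^ 2 * (a / (2 * S)) ^ 2 := by field_simp
            _ ≤ κM * (a / (2 * S)) ^ 2 := mul_le_mul_of_nonneg_right k6 (by positivity))
      rw [(hut r).2] at hSMr
      have hst := hstep E R hR (rs (x r) (2 ^ r) f) (rs_cont hfc _ _)
        (rs_cs hfs _ (by positivity)) (n + r) ((1 / (2 : ℝ) ^ r) • (x (r + 1) - x r)) (e r)
        (e (r + 1)) (xi_norm hTw r) (hTw.unit r) (hTw.unit (r + 1)) (p r) hpR3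
      rw [rs_rs, (hfr r).1, (hfr r).1, smul_zero, add_zero, smul_smul,
        mul_one_div_cancel (by positivity), one_smul, add_sub_cancel, ← hI (r + 1),
        add_assoc n r 1, ← hD (r + 1), ← hD r] at hst
      have hDr : D r ≤ κ * a := (hDq r).trans (hgq r hgr1)
      have hDr1 : D (r + 1) ≤ κ * a := (hDq (r + 1)).trans (hgq (r + 1) hr)
      have h1 : a / (2 * S) ≤ CM * (2 ^ d / 2 * I (r + 1) + CP * (κ * a + κ * a)) := by
        refine hSMr.trans (mul_le_mul_of_nonneg_left (hst.trans ?_) hCM.le)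
        exact add_le_add le_rfl (mul_le_mul_of_nonneg_left (add_le_add hDr hDr1) hCP.le)
      have h2 : CM * (CP * (κ * a + κ * a)) ≤ a / (4 * S) := by
        rw [le_div_iff₀ (by positivity)]
        calc CM * (CP * (κ * a + κ * a)) * (4 * S) = κ * (8 * CM * CP * S) * a := by ring
          _ ≤ 1 * a := mul_le_mul_of_nonneg_right k7 ha.le
          _ = a := one_mul a
      have h3 : a / (2 * S) = 2 * (a / (4 * S)) := by
        field_simp
        norm_num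
      have h4 : a / (4 * S) ≤ CM * (2 ^ d / 2) * I (r + 1) := by
        rw [mul_add] at h1
        linarith only [h1, h2, h3]
      have h5 : 0 < I (r + 1) := by
        by_contra h
        push Not at h
        have h6 : CM * (2 ^ d / 2) * I (r + 1) ≤ 0 :=
          mul_nonpos_of_nonneg_of_nonpos (by positivity) h
        have h7 : 0 < a / (4 * S) := by positivity
        linarith only [h1, h2, h3, h6, h7]
      rw [div_le_iff₀ (by positivity)] at h4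
      calc a ≤ CM * (2 ^ d / 2) * I (r + 1) * (4 * S) := h4
        _ = 4 * S * CM * (2 ^ d / 2) * I (r + 1) := by ring
        _ ≤ C * I (r + 1) := by
          refine mul_le_mul_of_nonneg_right ?_ h5.le
          rw [hCdef]
          linarith only [hA]
  intro r hr2 hr
  have h1 := key r hr2 hr
  refine ⟨hflat κ1 hκ'1 r hr h1, ?_⟩
  rw [← hI]
  exact h1

end

end TG


end

section

/-!
# Module PL: planes carrying the mass are close (by helper95)
-/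

open MeasureTheory Metric Set TrI
open scoped InnerProductSpace ContDiff

namespace TG

namespace PL

variable {d : ℕ}

lemma ht_eq (ν ν' : Sp d) (c c' : ℝ) (y : Sp d) :
    ht ν' c' y = (⟪ν', tang ν y⟫_ℝ + (c * ⟪ν, ν'⟫_ℝ - c')) + ht ν c y * ⟪ν, ν'⟫_ℝ := by
  unfold ht tang
  rw [inner_sub_right, inner_smul_right, real_inner_comm ν ν']
  ring

lemma norm_le_R0 {ν : Sp d} (hν : ‖ν‖ = 1) {c R0 : ℝ} (hc : |c| ≤ R0 / 3) (hR0 : 100 ≤ R0)
    {y : Sp d} (h1 : |ht ν c y| < 5) (h2 : ‖tang ν y‖ ≤ R0 / 2) : ‖y‖ ≤ R0 := by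
  have h3 := norm_tang_sq hν y
  unfold ht at h1
  have h4 : |⟪ν, y⟫_ℝ| ≤ R0 / 2 := by
    rw [abs_lt] at h1
    rw [abs_le] at hc ⊢
    constructor <;> linarith [h1.1, h1.2, hc.1, hc.2]
  have h5 : ⟪ν, y⟫_ℝ ^ 2 ≤ (R0 / 2) ^ 2 := by
    rw [← sq_abs]
    exact pow_le_pow_left₀ (abs_nonneg _) h4 2
  have h6 : ‖tang ν y‖ ^ 2 ≤ (R0 / 2) ^ 2 := pow_le_pow_left₀ (norm_nonneg _) h2 2
  refine (abs_le_of_sq_le_sq' (by nlinarith) (by linarith)).2

lemma geo {ν ν' : Sp d} (hν : ‖ν‖ = 1) (hν' : ‖ν'‖ = 1) {c c' R0 : ℝ} (hc : |c| ≤ R0) :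
    ∃ σ : ℝ, (σ = 1 ∨ σ = -1) ∧ ‖ν - σ • ν'‖ ^ 2 + (c - σ * c') ^ 2 ≤
      (2 + 2 * R0 ^ 2) * (‖tang ν ν'‖ ^ 2 + (c * ⟪ν, ν'⟫_ℝ - c') ^ 2) := by
  set s := ⟪ν, ν'⟫_ℝ with hs
  have ht2 : ‖tang ν ν'‖ ^ 2 = 1 - s ^ 2 := by
    have := norm_tang_sq hν ν'
    rw [hν'] at this
    linarith
  have hs1 : |s| ≤ 1 := by
    have h := abs_real_inner_le_norm ν ν'
    rw [hν, hν'] at h
    simpa using h
  have hc2 : c ^ 2 ≤ R0 ^ 2 := by
    rw [← sq_abs]
    exact pow_le_pow_left₀ (abs_nonneg _) hc 2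
  have key : ∀ σ : ℝ, (σ = 1 ∨ σ = -1) → σ * s = |s| →
      ‖ν - σ • ν'‖ ^ 2 + (c - σ * c') ^ 2 ≤
        (2 + 2 * R0 ^ 2) * (‖tang ν ν'‖ ^ 2 + (c * s - c') ^ 2) := by
    intro σ hσ hσs
    have hσ2 : σ ^ 2 = 1 := by rcases hσ with h | h <;> rw [h] <;> norm_num
    have e1 : ‖ν - σ • ν'‖ ^ 2 = 2 - 2 * |s| := by
      rw [norm_sub_sq_real, inner_smul_right, norm_smul, hν, hν', ← hs, hσs, Real.norm_eq_abs,
        mul_one, sq_abs, hσ2]
      ring
    have e2 : c - σ * c' = σ * (c * s - c') + c * (1 - |s|) := by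
      rw [← hσs]
      ring
    have hs0 := abs_nonneg s
    have hss : s ^ 2 = |s| ^ 2 := (sq_abs s).symm
    have h1 : 1 - |s| ≤ 1 - s ^ 2 := by rw [hss]; nlinarith
    have h2 : (1 - |s|) ^ 2 ≤ 1 - s ^ 2 := by rw [hss]; linarith only [hss, h1]
    have h3 : (c - σ * c') ^ 2 ≤ 2 * (c * s - c') ^ 2 + 2 * R0 ^ 2 * (1 - s ^ 2) := by
      rw [e2]
      have h4 : (σ * (c * s - c') + c * (1 - |s|)) ^ 2 ≤
          2 * (σ * (c * s - c')) ^ 2 + 2 * (c * (1 - |s|)) ^ 2 := by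
        linarith only [sq_nonneg (σ * (c * s - c') - c * (1 - |s|))]
      have h5 : (σ * (c * s - c')) ^ 2 = (c * s - c') ^ 2 := by rw [mul_pow, hσ2, one_mul]
      have h6 : (c * (1 - |s|)) ^ 2 ≤ R0 ^ 2 * (1 - s ^ 2) := by
        rw [mul_pow]
        exact mul_le_mul hc2 h2 (sq_nonneg _) (sq_nonneg _)
      linarith
    rw [e1, ht2]
    have h7 : 0 ≤ (c * s - c') ^ 2 := sq_nonneg _
    have h8 : 0 ≤ R0 ^ 2 := sq_nonneg _
    have h9 : 0 ≤ 1 - s ^ 2 := by linarith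
    linarith only [h1, h3, mul_nonneg h8 h7]
  rcases le_or_gt 0 s with h | h
  · exact ⟨1, Or.inl rfl, key 1 (Or.inl rfl) (by rw [one_mul, abs_of_nonneg h])⟩
  · exact ⟨-1, Or.inr rfl, key (-1) (Or.inr rfl) (by rw [abs_of_neg h]; ring)⟩


lemma eta_small {κ1 δ Mi bD mm D : ℝ} (hδ0 : 0 < δ) (hδ1 : δ ≤ 1) (hMi : 0 < Mi) (hmm : 0 ≤ mm)
    (hDb : D ≤ bD) (h1 : bD ≤ min κ1 (δ ^ 2) * Mi)
    (h2 : mm * bD ≤ min κ1 (δ ^ 2) * Mi ^ 2) : bD + Real.sqrt (mm * D) ≤ 2 * δ * Mi := by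
  have h3 : min κ1 (δ ^ 2) ≤ δ ^ 2 := min_le_right _ _
  have h4 : δ ^ 2 ≤ δ := by nlinarith only [hδ0, hδ1]
  have h5 : bD ≤ δ * Mi := h1.trans (mul_le_mul_of_nonneg_right (h3.trans h4) hMi.le)
  have h6 : Real.sqrt (mm * D) ≤ δ * Mi := by
    rw [show δ * Mi = Real.sqrt ((δ * Mi) ^ 2) from (Real.sqrt_sq (by positivity)).symm]
    refine Real.sqrt_le_sqrt ?_
    calc mm * D ≤ mm * bD := mul_le_mul_of_nonneg_left hDb hmm
      _ ≤ min κ1 (δ ^ 2) * Mi ^ 2 := h2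
      _ ≤ δ ^ 2 * Mi ^ 2 := mul_le_mul_of_nonneg_right h3 (sq_nonneg _)
      _ = (δ * Mi) ^ 2 := by ring
  linarith

/-- first numerical step: the integral of P over the disc is not small -/
lemma num1 {Mi I0 p0 bν D η δ C1 K0 A2 : ℝ} (hC1 : 0 < C1) (hK0 : 0 < K0) (hA2 : 0 < A2)
    (hMi : 0 < Mi) (hbν : 0 ≤ bν) (hD : 0 ≤ D)
    (h1 : Mi ≤ I0 + bν + A2 * D) (h2 : |I0 - p0| ≤ C1 * K0 * η) (h3 : bν + D ≤ η)
    (h4 : η ≤ 2 * δ * Mi) (h5 : δ * (4 * (C1 * K0 + 1 + A2)) ≤ 1) : Mi / 2 ≤ p0 := by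
  have h6 : I0 ≤ p0 + C1 * K0 * η := by
    have := (abs_le.mp h2).2
    linarith
  have h7 : bν + A2 * D ≤ (1 + A2) * η := by nlinarith
  have h8 : Mi ≤ p0 + (C1 * K0 + 1 + A2) * η := by linarith
  have h9 : (C1 * K0 + 1 + A2) * η ≤ (C1 * K0 + 1 + A2) * (2 * δ * Mi) :=
    mul_le_mul_of_nonneg_left h4 (by positivity)
  have h10 : (C1 * K0 + 1 + A2) * (2 * δ * Mi) = δ * (4 * (C1 * K0 + 1 + A2)) * (Mi / 2) := by ring
  have h11 : δ * (4 * (C1 * K0 + 1 + A2)) * (Mi / 2) ≤ 1 * (Mi / 2) :=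
    mul_le_mul_of_nonneg_right h5 (by linarith)
  linarith

/-- second numerical step -/
lemma num2 {Mi I1 p1 bν bν' D η δ S a C1 C2 c2 C5 K1 A1 A3 : ℝ} (hc2 : 0 < c2) (hC5 : 0 < C5)
    (hC1 : 0 < C1) (hC2 : 0 < C2) (hK1 : 0 < K1) (hA1 : 0 < A1) (hA3 : 0 < A3)
    (hMi : 0 < Mi) (hbν : 0 ≤ bν) (hbν' : 0 ≤ bν') (hD : 0 ≤ D) (hS : 0 ≤ S)
    (ha : Mi / (4 * C5) ≤ a)
    (h1 : c2 * a * S ≤ p1 + C2 * ((C1 + A1) * η) * S)
    (h2 : |I1 - p1| ≤ C1 * (K1 * S) * η) (h3 : I1 ≤ 2 * bν' + 2 * bν + A3 * D)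
    (h4 : η ≤ 2 * δ * Mi) (h5 : δ * (16 * C5 * (C1 * K1 + C2 * (C1 + A1))) ≤ c2) :
    Mi * S ≤ (8 * C5 / c2) * (2 + A3) * ((bν + D) + (bν' + D)) := by
  have h6 : p1 ≤ I1 + C1 * (K1 * S) * η := by
    have := (abs_le.mp h2).1
    linarith
  have h7 : c2 * (Mi / (4 * C5)) * S ≤ c2 * a * S := by (clear * - ha hc2 hS; gcongr)
  have h8 : c2 * (Mi / (4 * C5)) * S ≤ 2 * bν' + 2 * bν + A3 * D +
      (C1 * K1 + C2 * (C1 + A1)) * η * S := by linarith only [h1, h3, h6, h7]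
  have h9 : (C1 * K1 + C2 * (C1 + A1)) * η * S ≤
      (C1 * K1 + C2 * (C1 + A1)) * (2 * δ * Mi) * S := by gcongr
  have h10 : (C1 * K1 + C2 * (C1 + A1)) * (2 * δ * Mi) * S =
      δ * (16 * C5 * (C1 * K1 + C2 * (C1 + A1))) * (Mi / (8 * C5) * S) := by
    field_simp
    ring
  have h11 : δ * (16 * C5 * (C1 * K1 + C2 * (C1 + A1))) * (Mi / (8 * C5) * S) ≤
      c2 * (Mi / (8 * C5) * S) := mul_le_mul_of_nonneg_right h5 (by positivity)
  have h12 : c2 * (Mi / (4 * C5)) * S = 2 * (c2 * (Mi / (8 * C5) * S)) := by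
    field_simp
    ring
  have h13 : c2 * (Mi / (8 * C5) * S) ≤ 2 * bν' + 2 * bν + A3 * D := by linarith
  have h14 : 2 * bν' + 2 * bν + A3 * D ≤ (2 + A3) * ((bν + D) + (bν' + D)) := by nlinarith only [hD, hA3, hbν, hbν']
  have h15 : Mi * S = (8 * C5 / c2) * (c2 * (Mi / (8 * C5) * S)) := by
    field_simp
  rw [h15, mul_assoc]
  exact mul_le_mul_of_nonneg_left (h13.trans h14) (by positivity)


lemma int3 {F G H : Sp d → ℝ} (hF : Integrable F) (hG : Integrable G) (hH : Integrable H) :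
    ∫ y, (F y + G y - H y) = (∫ y, F y) + (∫ y, G y) - ∫ y, H y := by
  have h1 : ∫ y, (F y + G y - H y) = (∫ y, (F y + G y)) - ∫ y, H y := integral_sub (hF.add hG) hH
  rw [h1, integral_add hF hG]

lemma plInt_congr {ν : Sp d} (hν : ‖ν‖ = 1) (c : ℝ) {F G : Sp d → ℝ}
    (h : ∀ y, ⟪ν, y⟫_ℝ = c → F y = G y) : plInt ν c F = plInt ν c G := by
  unfold plInt
  congr 1
  funext y
  refine h _ ?_
  have h1 : ⟪ν, (y : Sp d)⟫_ℝ = 0 := Submodule.mem_orthogonal_singleton_iff_inner_right.mp y.2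
  rw [inner_add_right, inner_smul_right, real_inner_self_eq_norm_sq, hν, h1]
  ring

lemma H2_nonneg {ν : Sp d} (hν : ‖ν‖ = 1) {c R0 : ℝ} (hR0 : 100 ≤ R0) (y : Sp d) :
    0 ≤ cu1 4 (ht ν c y) * zR (R0 / 2 - 1) (tang ν y) + zR R0 y * (⟪ν, y⟫_ℝ + -c) ^ 2 -
      zR (R0 / 3) y := by
  have h1 := cu1_nonneg 4 (ht ν c y)
  have h2 := zR_nonneg (R0 / 2 - 1) (tang ν y)
  have h3 := zR_nonneg R0 y
  have h4 := zR_le_one (R0 / 3) y
  have h5 : 0 ≤ zR R0 y * (⟪ν, y⟫_ℝ + -c) ^ 2 := mul_nonneg h3 (sq_nonneg _)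
  have h6 := mul_nonneg h1 h2
  by_cases hy : zR (R0 / 3) y = 0
  · rw [hy]
    linarith
  · have h7 := norm_lt_of_zR hy
    have h8 : ‖tang ν y‖ ≤ R0 / 2 - 1 := (norm_tang_le hν y).trans (by linarith)
    rw [zR_one h8, zR_one (R := R0) (x := y) (by linarith), mul_one, one_mul]
    by_cases h9 : |ht ν c y| ≤ 4
    · rw [cu1_one h9]
      linarith only [h4, sq_nonneg (⟪ν, y⟫_ℝ + -c)]
    · have h10 : (4 : ℝ) ^ 2 ≤ |ht ν c y| ^ 2 := pow_le_pow_left₀ (by norm_num) (not_le.mp h9).le 2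
      have h11 : |ht ν c y| ^ 2 = (⟪ν, y⟫_ℝ + -c) ^ 2 := by
        rw [sq_abs]
        unfold ht
        ring
      rw [h11] at h10
      linarith only [h1, h4, h10]

lemma H3_nonneg {ν ν' : Sp d} (hν : ‖ν‖ = 1) (hν' : ‖ν'‖ = 1) {c c' R0 : ℝ} (hR0 : 100 ≤ R0)
    (hc : |c| ≤ R0 / 3) (y : Sp d) :
    0 ≤ 2 * (zR R0 y * (⟪ν', y⟫_ℝ + -c') ^ 2) + 2 * (zR R0 y * (⟪ν, y⟫_ℝ + -c) ^ 2) -
      cu1 4 (ht ν c y) * (zR (R0 / 2 - 1) (tang ν y) *
        (⟪ν', tang ν y⟫_ℝ + (c * ⟪ν, ν'⟫_ℝ - c')) ^ 2) := by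
  have h3 := zR_nonneg R0 y
  have h5 : 0 ≤ zR R0 y * (⟪ν, y⟫_ℝ + -c) ^ 2 := mul_nonneg h3 (sq_nonneg _)
  have h5' : 0 ≤ zR R0 y * (⟪ν', y⟫_ℝ + -c') ^ 2 := mul_nonneg h3 (sq_nonneg _)
  by_cases h6 : cu1 4 (ht ν c y) = 0
  · rw [h6, zero_mul]
    linarith
  by_cases h7 : zR (R0 / 2 - 1) (tang ν y) = 0
  · rw [h7, zero_mul, mul_zero]
    linarith
  have h8 : ‖tang ν y‖ ≤ R0 / 2 := by
    have := norm_lt_of_zR h7
    linarith
  have h9 : |ht ν c y| < 5 := by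
    have := abs_lt_of_cu1 h6
    linarith
  have h10 := norm_le_R0 hν hc hR0 h9 h8
  rw [zR_one (R := R0) h10, one_mul, one_mul]
  have h11 := ht_eq ν ν' c c' y
  have hs1 : |⟪ν, ν'⟫_ℝ| ≤ 1 := by
    have h := abs_real_inner_le_norm ν ν'
    rw [hν, hν'] at h
    simpa using h
  have hs2 : ⟪ν, ν'⟫_ℝ ^ 2 ≤ 1 := by
    rw [← sq_abs]
    exact pow_le_one₀ (abs_nonneg _) hs1
  have e1 : ⟪ν', y⟫_ℝ + -c' = ht ν' c' y := by unfold ht; ring
  have e2 : ⟪ν, y⟫_ℝ + -c = ht ν c y := by unfold ht; ring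
  rw [e1, e2]
  set l := ⟪ν', tang ν y⟫_ℝ + (c * ⟪ν, ν'⟫_ℝ - c') with hl
  set s := ⟪ν, ν'⟫_ℝ with hs
  have h12 : l ^ 2 ≤ 2 * ht ν' c' y ^ 2 + 2 * ht ν c y ^ 2 := by
    have h13 : l = ht ν' c' y - ht ν c y * s := by linarith
    have h14 : (ht ν' c' y - ht ν c y * s) ^ 2 ≤
        2 * ht ν' c' y ^ 2 + 2 * (ht ν c y * s) ^ 2 := by
      nlinarith [sq_nonneg (ht ν' c' y + ht ν c y * s)]
    have h15 : (ht ν c y * s) ^ 2 ≤ ht ν c y ^ 2 := by
      rw [mul_pow]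
      exact mul_le_of_le_one_right (sq_nonneg _) hs2
    rw [h13]
    linarith
  have h16 : cu1 4 (ht ν c y) * (zR (R0 / 2 - 1) (tang ν y) * l ^ 2) ≤ 1 * (1 * l ^ 2) := by
    refine mul_le_mul (cu1_le_one _ _) ?_ ?_ (by norm_num)
    · exact mul_le_mul_of_nonneg_right (zR_le_one _ _) (sq_nonneg _)
    · exact mul_nonneg (zR_nonneg _ _) (sq_nonneg _)
  linarith

end PL

set_option maxHeartbeats 1600000 in
open _root_.TG.PL in
theorem stmtPL (hSHB : StmtSHB) (hNC : StmtNC) (hZ : StmtZ) (hPF : StmtPF) : StmtPL := by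
  intro d V E _ _ _ _ _ _ L n0 T hd hn hL hT M c0 ε hε hε1 b hb R0 hR0
  have hd1 : 1 ≤ d := by omega
  have hR0p : 0 < R0 := by linarith
  obtain ⟨J1, hSHJ⟩ := hSHB d V E L n0 T hd hn hL hT
  obtain ⟨C1, κ1, hC1, hκ1, hSH⟩ := hSHJ M c0 ε hε hε1 b hb R0 hR0
  obtain ⟨c2, C2, hc2, hC2, hN⟩ := hNC d hd n0 (J1 + 2) (R0 / 2) (by linarith)
  obtain ⟨C5, hC5, hP⟩ := (hPF d hd1).1 (R0 / 2)
  obtain ⟨CZ, hCZ, hZu⟩ := Zuse hZ hd1 hε hε1 hb
  obtain ⟨Kh, hKh, hcut⟩ := cut_CB 2 (ρ := 4) (by norm_num)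
  obtain ⟨K0, hK0, hz0⟩ := CB.of_compact (zR_cd (d := d) (R := R0 / 2 - 1) (by linarith))
    (zR_cs (R0 / 2 - 1)) (J1 + 2)
  obtain ⟨K1, hK1, hq1⟩ := quad_CB d (J1 + 2) (ρ := R0 / 2 - 1) (by linarith)
  obtain ⟨K2, hK2, hq2⟩ := quad_CB d 2 (ρ := R0) hR0p
  obtain ⟨K3, hK3, hz3⟩ := CB.of_compact (zR_cd (d := d) (R := R0 / 3) (by linarith))
    (zR_cs (R0 / 3)) 2
  -- constants
  obtain ⟨B1, hB1, hB1p⟩ : ∃ B1 : ℝ, 2 ^ 2 * (Kh * 1) ≤ B1 ∧ 0 < B1 :=
    ⟨_, le_rfl, by positivity⟩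
  obtain ⟨B2, hB2, hB2p⟩ : ∃ B2 : ℝ, 2 ^ 2 * (Kh * K0) + K2 * (1 ^ 2 + R0 ^ 2) + K3 ≤ B2 ∧ 0 < B2 :=
    ⟨_, le_rfl, by positivity⟩
  obtain ⟨B3, hB3, hB3p⟩ : ∃ B3 : ℝ, 2 * (K2 * (1 ^ 2 + (3 * R0) ^ 2)) + 2 * (K2 * (1 ^ 2 + R0 ^ 2)) +
      2 ^ 2 * (Kh * (K1 * (1 ^ 2 + (4 * R0) ^ 2))) ≤ B3 ∧ 0 < B3 :=
    ⟨_, le_rfl, by positivity⟩
  obtain ⟨A1, hA1, hA1p⟩ : ∃ A1 : ℝ, A1 = CZ * B1 ∧ 0 < A1 := ⟨_, rfl, by positivity⟩
  obtain ⟨A2, hA2, hA2p⟩ : ∃ A2 : ℝ, A2 = CZ * B2 ∧ 0 < A2 := ⟨_, rfl, by positivity⟩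
  obtain ⟨A3, hA3, hA3p⟩ : ∃ A3 : ℝ, A3 = CZ * B3 ∧ 0 < A3 := ⟨_, rfl, by positivity⟩
  obtain ⟨δ, hδp, hδ1, hδ6, hδ7⟩ : ∃ δ : ℝ, 0 < δ ∧ δ ≤ 1 ∧
      δ * (4 * (C1 * K0 + 1 + A2)) ≤ 1 ∧ δ * (16 * C5 * (C1 * K1 + C2 * (C1 + A1))) ≤ c2 := by
    refine ⟨min 1 (min (1 / (4 * (C1 * K0 + 1 + A2)))
      (c2 / (16 * C5 * (C1 * K1 + C2 * (C1 + A1))))), ?_, min_le_left _ _, ?_, ?_⟩
    · exact lt_min one_pos (lt_min (by positivity) (by positivity))
    · rw [← le_div_iff₀ (by positivity)]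
      exact (min_le_right _ _).trans (min_le_left _ _)
    · rw [← le_div_iff₀ (by positivity)]
      exact (min_le_right _ _).trans (min_le_right _ _)
  refine ⟨(2 + 2 * R0 ^ 2) * ((8 * C5 / c2) * (2 + A3)), min κ1 (δ ^ 2), by positivity,
    lt_min hκ1 (by positivity), ?_⟩
  intro R hR n u hu e he ν ν' c c' hν hν' hc hc' hflat
  obtain ⟨hMi, hfl1, hfl2⟩ := hflat
  have hfc : Continuous (fo L u) := fo_cont L hu
  have hfs : HasCompactSupport (fo L u) := fo_cs L hu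
  generalize hf : fo L u = f at *
  have hD0 : 0 ≤ DD b ε R ((1 / 2) ^ n) f n 0 e := DD_nn b ε R n f 0 he
  have hbν0 : 0 ≤ max 0 (∫ y, ⟪f y, e⟫_ℝ * (zR R0 y * ht ν c y ^ 2)) := le_max_left _ _
  have hbν0' : 0 ≤ max 0 (∫ y, ⟪f y, e⟫_ℝ * (zR R0 y * ht ν' c' y ^ 2)) := le_max_left _ _
  have hbνI : (∫ y, ⟪f y, e⟫_ℝ * (zR R0 y * ht ν c y ^ 2)) ≤
    max 0 (∫ y, ⟪f y, e⟫_ℝ * (zR R0 y * ht ν c y ^ 2)) := le_max_right _ _
  have hbνI' : (∫ y, ⟪f y, e⟫_ℝ * (zR R0 y * ht ν' c' y ^ 2)) ≤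
    max 0 (∫ y, ⟪f y, e⟫_ℝ * (zR R0 y * ht ν' c' y ^ 2)) := le_max_right _ _
  rw [bD_eq b ε R0 R n f e ν c, bD_eq b ε R0 R n f e ν' c']
  have hflat1 : Flat b ε R0 R κ1 f n e ν c := by
    refine ⟨hMi, ?_, ?_⟩
    · exact hfl1.trans (mul_le_mul_of_nonneg_right (min_le_left _ _) hMi.le)
    · exact hfl2.trans (mul_le_mul_of_nonneg_right (min_le_left _ _) (sq_nonneg _))
  have hmm0 : 0 ≤ ma b ε R0 ((1 / 2) ^ n) f n 0 := ma_nn b ε R0 n f 0
  have hS0 := hSH R hR n u hu e he ν c hν hc (by rw [hf]; exact hflat1) _ rfl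
  rw [hf, bD_eq b ε R0 R n f e ν c] at hS0
  rw [bD_eq b ε R0 R n f e ν c] at hfl1 hfl2
  obtain ⟨l0, l1, -, -, -, hS, -⟩ := hS0
  generalize ma b ε R0 ((1 / 2) ^ n) f n 0 = mm at *
  generalize hMidef : (∫ y, ⟪f y, e⟫_ℝ * zR (R0 / 3) y) = Mi at *
  generalize hDdef : DD b ε R ((1 / 2) ^ n) f n 0 e = D at *
  generalize max 0 (∫ y, ⟪f y, e⟫_ℝ * (zR R0 y * ht ν c y ^ 2)) = bν at *
  generalize max 0 (∫ y, ⟪f y, e⟫_ℝ * (zR R0 y * ht ν' c' y ^ 2)) = bν' at *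
  have hηδ := eta_small hδp hδ1 hMi hmm0 (by linarith : D ≤ bν + D) hfl1 hfl2
  have hηb : bν + D ≤ (bν + D) + Real.sqrt (mm * D) := by
    linarith [Real.sqrt_nonneg (mm * D)]
  generalize (bν + D) + Real.sqrt (mm * D) = η at *
  have hη0 : 0 ≤ η := by linarith
  have hPol := JJ_poly hd1 n0 ν (c • ν) one_pos hu.smooth l0
  have hPc : Continuous (fun y => l0 (JJ n0 ν (c • ν) 1 u y)) := hPol.1.continuous
  have hS' : ∀ (ψ : Sp d → ℝ) (N : ℝ), CB J1 N ψ → Cyl ν (R0 / 2) ψ →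
      |(∫ y, ⟪f y, e⟫_ℝ * (cu1 4 (ht ν c y) * ψ y)) -
        plInt ν c (fun y => l0 (JJ n0 ν (c • ν) 1 u y) * ψ y)| ≤ C1 * N * η := by
    intro ψ N hψ hcyl
    have h1 := hS ψ (fun _ => 0) N (TFn_of_CB hψ)
      ⟨contDiff_const, fun j hj x => by
        rcases Nat.eq_zero_or_pos j with h | h
        · subst h
          rw [norm_iteratedFDeriv_zero, norm_zero]
          exact hψ.nonneg
        · rw [iteratedFDeriv_const_of_ne (by omega)]
          simpa using hψ.nonneg⟩ hcyl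
      ⟨fun _ => rfl, fun y hy => absurd rfl hy⟩ (fun y => inner_zero_right _)
    have e1 : ∀ y : Sp d, dv (fun _ => (0 : Sp d)) y = 0 := by
      intro y
      simp [dv]
    simp only [e1, mul_zero, sub_zero, inner_zero_right, add_zero] at h1
    exact h1
  generalize hPdef : (fun y => l0 (JJ n0 ν (c • ν) 1 u y)) = P at *
  have hPy : ∀ y, l0 (JJ n0 ν (c • ν) 1 u y) = P y := fun y => by rw [← hPdef]
  simp only [hPy] at hS'
  clear hS hSH hSHJ hSHB hPy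
  have hR3 : (3 : ℝ) ≤ R := by linarith
  have hcu : CB 2 Kh (fun y => cu1 4 (ht ν c y)) := hcut d ν c hν
  have htL := tangL_norm hν
  -- test functions
  have hψ0 : CB (J1 + 2) K0 (fun y => zR (R0 / 2 - 1) (tang ν y)) := by
    have := hz0.comp_right (tangL ν) htL
    simpa only [tangL_apply] using this
  have hψ0c : Cyl ν (R0 / 2) (fun y => zR (R0 / 2 - 1) (tang ν y)) := by
    refine ⟨fun y => by simp only [tang_tang hν], fun y hy => ?_⟩
    have := norm_lt_of_zR hy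
    linarith only [this]
  obtain ⟨S, hSdef⟩ : ∃ S : ℝ, S = ‖tang ν ν'‖ ^ 2 + (c * ⟪ν, ν'⟫_ℝ - c') ^ 2 := ⟨_, rfl⟩
  have hS0 : 0 ≤ S := by rw [hSdef]; (clear * -; positivity)
  have hψ1 : CB (J1 + 2) (K1 * S) (fun y => zR (R0 / 2 - 1) (tang ν y) *
      (⟪ν', tang ν y⟫_ℝ + (c * ⟪ν, ν'⟫_ℝ - c')) ^ 2) := by
    have := (hq1 (tang ν ν') (c * ⟪ν, ν'⟫_ℝ - c')).comp_right (tangL ν) htL
    simp only [tangL_apply, ← inner_tang_left ν ν' _ hν, ← hSdef] at this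
    exact this
  have hψ1c : Cyl ν (R0 / 2) (fun y => zR (R0 / 2 - 1) (tang ν y) *
      (⟪ν', tang ν y⟫_ℝ + (c * ⟪ν, ν'⟫_ℝ - c')) ^ 2) := by
    refine ⟨fun y => by simp only [tang_tang hν], fun y hy => ?_⟩
    have := norm_lt_of_zR (left_ne_zero_of_mul hy)
    linarith only [this]
  have hsupp : ∀ (ψ : Sp d → ℝ), Cyl ν (R0 / 2) ψ → ∀ y, cu1 4 (ht ν c y) * ψ y ≠ 0 →
      ‖y‖ < R - 2 := by
    intro ψ hψ y hy
    have h1 := abs_lt_of_cu1 (left_ne_zero_of_mul hy)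
    have h2 := hψ.supp y (right_ne_zero_of_mul hy)
    have h3 := norm_le_R0 hν hc hR0 (by linarith) h2
    linarith
  have hzsupp : ∀ (ρ : ℝ), ρ ≤ R0 → ∀ y : Sp d, zR ρ y ≠ 0 → ‖y‖ < R - 2 := by
    intro ρ hρ y hy
    have := norm_lt_of_zR hy
    linarith
  -- use 1
  have hU1 : ∀ ψ : Sp d → ℝ, CB (J1 + 2) 1 ψ → Cyl ν (R0 / 2) ψ → (∀ y, 0 ≤ ψ y) →
      -((C1 + A1) * η) ≤ plInt ν c (fun y => P y * ψ y) := by
    intro ψ hψ hcyl hψn
    have h1 := hZu E f hfc hfs R hR3 n e he (fun y => cu1 4 (ht ν c y) * ψ y) B1 hB1p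
      ((hcu.mul (hψ.mono (by omega) le_rfl)).mono le_rfl hB1)
      (fun y => mul_nonneg (cu1_nonneg _ _) (hψn y)) (hsupp ψ hcyl)
    rw [← hA1, hDdef] at h1
    have h2 := (abs_le.mp (hS' ψ 1 (hψ.mono (by omega) le_rfl) hcyl)).2
    have h3 : A1 * D ≤ A1 * η := mul_le_mul_of_nonneg_left (by linarith) hA1p.le
    linarith only [h1, h2, h3]
  -- use 2
  have hcR0 : c ^ 2 ≤ R0 ^ 2 := by
    rw [← sq_abs]
    exact pow_le_pow_left₀ (abs_nonneg _) (by linarith) 2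
  have hI : ∀ {H : Sp d → ℝ}, Continuous H → Integrable (fun y => ⟪f y, e⟫_ℝ * H y) :=
    fun hH => int_mH hfc hfs e hH
  have hquad : ∀ (ν1 : Sp d) (c1 : ℝ), (∫ y, ⟪f y, e⟫_ℝ * (zR R0 y * (⟪ν1, y⟫_ℝ + -c1) ^ 2)) =
      ∫ y, ⟪f y, e⟫_ℝ * (zR R0 y * ht ν1 c1 y ^ 2) := by
    intro ν1 c1
    congr 1
  have hU2 : Mi ≤ (∫ y, ⟪f y, e⟫_ℝ * (cu1 4 (ht ν c y) * zR (R0 / 2 - 1) (tang ν y))) + bν +
      A2 * D := by
    have hCB2 : CB 2 B2 (fun y => cu1 4 (ht ν c y) * zR (R0 / 2 - 1) (tang ν y) +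
        zR R0 y * (⟪ν, y⟫_ℝ + -c) ^ 2 - zR (R0 / 3) y) := by
      refine (((hcu.mul (hψ0.mono (by omega) le_rfl)).add (hq2 ν (-c))).sub hz3).mono le_rfl ?_
      refine le_trans ?_ hB2
      rw [hν, neg_sq]
      (clear * - hcR0 hK2; gcongr)
    have h1 := hZu E f hfc hfs R hR3 n e he _ B2 hB2p hCB2 (H2_nonneg hν hR0) ?_
    · rw [← hA2, hDdef] at h1
      have hc1 : Continuous (fun y => cu1 4 (ht ν c y) * zR (R0 / 2 - 1) (tang ν y)) :=
        hcu.smooth.continuous.mul hψ0.smooth.continuous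
      have hc2' := (hq2 ν (-c)).smooth.continuous
      have hc3 := hz3.smooth.continuous
      have h2 : (∫ y, ⟪f y, e⟫_ℝ * (cu1 4 (ht ν c y) * zR (R0 / 2 - 1) (tang ν y) +
          zR R0 y * (⟪ν, y⟫_ℝ + -c) ^ 2 - zR (R0 / 3) y)) =
          (∫ y, ⟪f y, e⟫_ℝ * (cu1 4 (ht ν c y) * zR (R0 / 2 - 1) (tang ν y))) +
          (∫ y, ⟪f y, e⟫_ℝ * (zR R0 y * (⟪ν, y⟫_ℝ + -c) ^ 2)) -
          ∫ y, ⟪f y, e⟫_ℝ * zR (R0 / 3) y := by
        rw [← int3 (hI hc1) (hI hc2') (hI hc3)]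
        congr 1
        funext y
        ring
      rw [h2, hquad, hMidef] at h1
      linarith only [hbνI, h1]
    · intro y hy
      by_contra h
      have h3 : cu1 4 (ht ν c y) * zR (R0 / 2 - 1) (tang ν y) = 0 := by
        by_contra h4
        exact h (hsupp _ hψ0c y h4)
      have h4 : zR R0 y = 0 := by
        by_contra h5
        exact h (hzsupp R0 le_rfl y h5)
      have h5 : zR (R0 / 3) y = 0 := by
        by_contra h6
        exact h (hzsupp (R0 / 3) (by linarith) y h6)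
      rw [h3, h4, h5] at hy
      apply hy
      ring
  -- the lower bound for the integral
  have hp0 := num1 hC1 hK0 hA2p hMi hbν0 hD0 hU2
    (hS' _ K0 (hψ0.mono (by omega) le_rfl) hψ0c) hηb hηδ hδ6
  -- a point where P is large
  obtain ⟨y0, hy0, hy0T, hy0P⟩ : ∃ y0 : Sp d, ⟪ν, y0⟫_ℝ = c ∧ ‖tang ν y0‖ ≤ R0 / 2 ∧
      Mi / (4 * C5) ≤ |P y0| := by
    by_contra hcon
    push Not at hcon
    have hMC : 0 ≤ Mi / (4 * C5) := by positivity
    have hpl : ∀ y : Sp d, ⟪ν, tang ν y + c • ν⟫_ℝ = c := by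
      intro y
      rw [inner_add_right, inner_tang hν, inner_smul_right, real_inner_self_eq_norm_sq, hν]
      ring
    have htp : ∀ y : Sp d, tang ν (tang ν y + c • ν) = tang ν y := by
      intro y
      conv_lhs => unfold tang
      rw [show y - ⟪ν, y⟫_ℝ • ν = tang ν y from rfl, hpl]
      abel
    have h1 := hP ν hν (fun y => P (tang ν y + c • ν) * zR (R0 / 2 - 1) (tang ν y))
      (Mi / (4 * C5)) ?_ ?_ ?_ c
    · have h2 : plInt ν c (fun y => P (tang ν y + c • ν) * zR (R0 / 2 - 1) (tang ν y)) =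
          plInt ν c (fun y => P y * zR (R0 / 2 - 1) (tang ν y)) := by
        refine plInt_congr hν c fun y hy => ?_
        have h3 : tang ν y + c • ν = y := by
          unfold tang
          rw [hy]
          abel
        rw [h3]
      rw [h2] at h1
      have h4 := (le_abs_self _).trans h1
      have h5 : C5 * (Mi / (4 * C5)) = Mi / 4 := by field_simp
      linarith only [hMi, hp0, h4, h5]
    · have hc1 : Continuous (fun y : Sp d => tang ν y) := by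
        have := (tangL ν).continuous
        simpa only [← tangL_apply] using this
      exact (hPc.comp (hc1.add continuous_const)).mul hψ0.smooth.continuous
    · intro y
      by_cases hy : zR (R0 / 2 - 1) (tang ν y) = 0
      · rw [hy, mul_zero, abs_zero]
        exact hMC
      · have h2 := norm_lt_of_zR hy
        have h3 := (hcon _ (hpl y) (by rw [htp]; linarith)).le
        rw [abs_mul, abs_of_nonneg (zR_nonneg _ _)]
        calc |P (tang ν y + c • ν)| * zR (R0 / 2 - 1) (tang ν y)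
            ≤ (Mi / (4 * C5)) * 1 :=
              mul_le_mul h3 (zR_le_one _ _) (zR_nonneg _ _) hMC
          _ = Mi / (4 * C5) := mul_one _
    · intro y hy
      have := norm_lt_of_zR (right_ne_zero_of_mul hy)
      linarith
  -- nonconcentration
  have hNc := hN ν 0 c hν P hPol.1 hPol.2 ((C1 + A1) * η) (by positivity) ?_ ν'
    (c * ⟪ν, ν'⟫_ℝ - c') y0 hy0 (by rw [sub_zero]; exact hy0T)
  · simp only [sub_zero, ← hSdef] at hNc
    -- use 3
    have hU3 : (∫ y, ⟪f y, e⟫_ℝ * (cu1 4 (ht ν c y) * (zR (R0 / 2 - 1) (tang ν y) *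
        (⟪ν', tang ν y⟫_ℝ + (c * ⟪ν, ν'⟫_ℝ - c')) ^ 2))) ≤ 2 * bν' + 2 * bν + A3 * D := by
      have hSle : S ≤ 1 ^ 2 + (4 * R0) ^ 2 := by
        rw [hSdef]
        have h1 : ‖tang ν ν'‖ ^ 2 ≤ 1 ^ 2 := by
          have := norm_tang_le hν ν'
          rw [hν'] at this
          exact pow_le_pow_left₀ (norm_nonneg _) this 2
        have h2 : |c * ⟪ν, ν'⟫_ℝ - c'| ≤ 4 * R0 := by
          have h3 : |⟪ν, ν'⟫_ℝ| ≤ 1 := by
            have h := abs_real_inner_le_norm ν ν'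
            rw [hν, hν'] at h
            simpa using h
          calc |c * ⟪ν, ν'⟫_ℝ - c'| ≤ |c * ⟪ν, ν'⟫_ℝ| + |c'| := abs_sub _ _
            _ = |c| * |⟪ν, ν'⟫_ℝ| + |c'| := by rw [abs_mul]
            _ ≤ |c| * 1 + |c'| := by (clear * - h3; gcongr)
            _ ≤ 4 * R0 := by linarith only [hR0, hc, hc']
        have h3 : (c * ⟪ν, ν'⟫_ℝ - c') ^ 2 ≤ (4 * R0) ^ 2 := by
          rw [← sq_abs]
          exact pow_le_pow_left₀ (abs_nonneg _) h2 2
        linarith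
      have hc'2 : c' ^ 2 ≤ (3 * R0) ^ 2 := by
        rw [← sq_abs]
        exact pow_le_pow_left₀ (abs_nonneg _) hc' 2
      have hCB3 : CB 2 B3 (fun y => 2 * (zR R0 y * (⟪ν', y⟫_ℝ + -c') ^ 2) +
          2 * (zR R0 y * (⟪ν, y⟫_ℝ + -c) ^ 2) - cu1 4 (ht ν c y) * (zR (R0 / 2 - 1) (tang ν y) *
            (⟪ν', tang ν y⟫_ℝ + (c * ⟪ν, ν'⟫_ℝ - c')) ^ 2)) := by
        refine ((((hq2 ν' (-c')).mulc 2).add ((hq2 ν (-c)).mulc 2)).sub
          (hcu.mul (hψ1.mono (by omega) le_rfl))).mono le_rfl ?_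
        refine le_trans ?_ hB3
        rw [hν, hν', neg_sq, neg_sq, abs_of_pos (by norm_num : (0 : ℝ) < 2)]
        (clear * - hc'2 hK2 hcR0 hSle hK1 hKh; gcongr)
      have h1 := hZu E f hfc hfs R hR3 n e he _ B3 hB3p hCB3 (H3_nonneg hν hν' hR0 hc) ?_
      · rw [← hA3, hDdef] at h1
        have hc1 : Continuous (fun y => cu1 4 (ht ν c y) * (zR (R0 / 2 - 1) (tang ν y) *
            (⟪ν', tang ν y⟫_ℝ + (c * ⟪ν, ν'⟫_ℝ - c')) ^ 2)) :=
          hcu.smooth.continuous.mul hψ1.smooth.continuous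
        have hca := (hq2 ν (-c)).smooth.continuous
        have hcb := (hq2 ν' (-c')).smooth.continuous
        have h2 : (∫ y, ⟪f y, e⟫_ℝ * (2 * (zR R0 y * (⟪ν', y⟫_ℝ + -c') ^ 2) +
            2 * (zR R0 y * (⟪ν, y⟫_ℝ + -c) ^ 2) - cu1 4 (ht ν c y) *
            (zR (R0 / 2 - 1) (tang ν y) *
            (⟪ν', tang ν y⟫_ℝ + (c * ⟪ν, ν'⟫_ℝ - c')) ^ 2))) =
            2 * (∫ y, ⟪f y, e⟫_ℝ * (zR R0 y * (⟪ν', y⟫_ℝ + -c') ^ 2)) +
            2 * (∫ y, ⟪f y, e⟫_ℝ * (zR R0 y * (⟪ν, y⟫_ℝ + -c) ^ 2)) -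
            ∫ y, ⟪f y, e⟫_ℝ * (cu1 4 (ht ν c y) * (zR (R0 / 2 - 1) (tang ν y) *
            (⟪ν', tang ν y⟫_ℝ + (c * ⟪ν, ν'⟫_ℝ - c')) ^ 2)) := by
          rw [← integral_const_mul, ← integral_const_mul,
            ← int3 ((hI hcb).const_mul 2) ((hI hca).const_mul 2) (hI hc1)]
          congr 1
          funext y
          ring
        rw [h2, hquad, hquad] at h1
        linarith only [hbνI, hbνI', h1]
      · intro y hy
        by_contra h
        have h3 : cu1 4 (ht ν c y) * (zR (R0 / 2 - 1) (tang ν y) *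
            (⟪ν', tang ν y⟫_ℝ + (c * ⟪ν, ν'⟫_ℝ - c')) ^ 2) = 0 := by
          by_contra h4
          exact h (hsupp _ hψ1c y h4)
        have h4 : zR R0 y = 0 := by
          by_contra h5
          exact h (hzsupp R0 le_rfl y h5)
        rw [h3, h4] at hy
        apply hy
        ring
    have hfin := num2 hc2 hC5 hC1 hC2 hK1 hA1p hA3p hMi hbν0 hbν0' hD0 hS0 hy0P hNc
      (hS' _ (K1 * S) (hψ1.mono (by omega) le_rfl) hψ1c) hU3 hηδ hδ7
    obtain ⟨σ, hσ, hg⟩ := geo hν hν' (c' := c') (by linarith only [hR0, hc] : |c| ≤ R0)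
    refine ⟨σ, hσ, ?_⟩
    rw [← hSdef] at hg
    calc Mi * (‖ν - σ • ν'‖ ^ 2 + (c - σ * c') ^ 2)
        ≤ Mi * ((2 + 2 * R0 ^ 2) * S) := mul_le_mul_of_nonneg_left hg hMi.le
      _ = (2 + 2 * R0 ^ 2) * (Mi * S) := by ring
      _ ≤ (2 + 2 * R0 ^ 2) * ((8 * C5 / c2) * (2 + A3) * ((bν + D) + (bν' + D))) := by
          (clear * - hfin hR0; gcongr)
      _ = (2 + 2 * R0 ^ 2) * ((8 * C5 / c2) * (2 + A3)) * ((bν + D) + (bν' + D)) := by ring
  · intro ψ hψ hψc hψs hψn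
    exact hU1 ψ (CB_of_TFn hψ) ⟨hψc, fun y hy => by
      have := hψs y hy
      rwa [sub_zero] at this⟩ hψn

end TG


end

section

/-!
# Reduction to cells (module PT), part c: one level at unit scale
-/

open MeasureTheory Metric Set TrI Filter
open scoped InnerProductSpace ContDiff

set_option linter.unusedSectionVars false

namespace TG

noncomputable section

namespace PTm

variable {d : ℕ}

/-- the partition function of the lattice point p -/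
def ch (p : Fin d → ℤ) (y : Sp d) : ℝ := chi (y - lat p)

lemma ch_nonneg (p : Fin d → ℤ) (y : Sp d) : 0 ≤ ch p y := chi_nonneg _

lemma ch_le_one (p : Fin d → ℤ) (y : Sp d) : ch p y ≤ 1 := chi_le_one _

lemma ch_cont (p : Fin d → ℤ) : Continuous (ch p) :=
  chi_contDiff.continuous.comp (by fun_prop)

lemma mulc {a c : Sp d → ℝ} (ha : Continuous a) (hc : Continuous c) :
    Continuous fun y => a y * c y := ha.mul hc

lemma ch_far {p : Fin d → ℤ} {y : Sp d} {j : Fin d} (h : 1 ≤ |y j - p j|) : ch p y = 0 :=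
  chi_zero (j := j) h

lemma apply_le (y : Sp d) (j : Fin d) : |y j| ≤ ‖y‖ := by
  rw [← Real.norm_eq_abs]
  exact PiLp.norm_apply_le y j

/-- neighbouring lattice points -/
def nb (p : Fin d → ℤ) : Finset (Fin d → ℤ) :=
  Fintype.piFinset fun j => Finset.Icc (p j - 2) (p j + 2)

lemma nb_card (p : Fin d → ℤ) : (nb p).card = 5 ^ d := by
  unfold nb
  rw [Fintype.card_piFinset]
  have : ∀ j : Fin d, (Finset.Icc (p j - 2) (p j + 2)).card = 5 := by
    intro j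
    rw [Int.card_Icc]
    have : p j + 2 + 1 - (p j - 2) = 5 := by ring
    rw [this]
    rfl
  simp [this]

lemma mem_nb {p p' : Fin d → ℤ} : p' ∈ nb p ↔ ∀ j, |p j - p' j| ≤ 2 := by
  unfold nb
  rw [Fintype.mem_piFinset]
  refine forall_congr' fun j => ?_
  rw [Finset.mem_Icc, abs_le]
  constructor
  · rintro ⟨h1, h2⟩
    constructor <;> linarith
  · rintro ⟨h1, h2⟩
    constructor <;> linarith

lemma nb_comm {p p' : Fin d → ℤ} : p' ∈ nb p ↔ p ∈ nb p' := by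
  rw [mem_nb, mem_nb]
  refine forall_congr' fun j => ?_
  rw [abs_sub_comm]

open Classical in
/-- sums over pairs of neighbours -/
lemma pair_sum (P : Finset (Fin d → ℤ)) (D : (Fin d → ℤ) → ℝ) (hD : ∀ p, 0 ≤ D p) :
    ∑ p ∈ P, ∑ p' ∈ P, (if p' ∈ nb p then D p + D p' else 0) ≤ 2 * 5 ^ d * ∑ p ∈ P, D p := by
  have h1 : ∀ p, ∑ p' ∈ P, (if p' ∈ nb p then D p else 0) ≤ 5 ^ d * D p := by
    intro p
    rw [← Finset.sum_filter, Finset.sum_const, nsmul_eq_mul]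
    refine mul_le_mul_of_nonneg_right ?_ (hD p)
    have h2 : (P.filter (fun p' => p' ∈ nb p)).card ≤ (nb p).card :=
      Finset.card_le_card fun q hq => (Finset.mem_filter.mp hq).2
    rw [nb_card] at h2
    exact_mod_cast h2
  have e : ∀ p p', (if p' ∈ nb p then D p + D p' else 0) =
      (if p' ∈ nb p then D p else 0) + (if p ∈ nb p' then D p' else 0) := by
    intro p p'
    by_cases h : p' ∈ nb p
    · rw [if_pos h, if_pos h, if_pos (nb_comm.mp h)]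
    · rw [if_neg h, if_neg h, if_neg (fun h' => h (nb_comm.mpr h')), add_zero]
  simp only [e, Finset.sum_add_distrib]
  have h3 : ∑ p ∈ P, ∑ p' ∈ P, (if p ∈ nb p' then D p' else 0) =
      ∑ p ∈ P, ∑ p' ∈ P, (if p' ∈ nb p then D p else 0) := Finset.sum_comm
  rw [h3]
  have h4 : ∑ p ∈ P, ∑ p' ∈ P, (if p' ∈ nb p then D p else 0) ≤ 5 ^ d * ∑ p ∈ P, D p := by
    rw [Finset.mul_sum]
    exact Finset.sum_le_sum fun p _ => h1 p
  linarith

lemma int_cs {G : Type*} [NormedAddCommGroup G] {g : Sp d → G} (hg : Continuous g)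
    {ρ : ℝ} (h : ∀ y, ρ < ‖y‖ → g y = 0) : Integrable g :=
  hg.integrable_of_hasCompactSupport (HasCompactSupport.intro (isCompact_closedBall (0 : Sp d) ρ)
    fun x hx => h x (by rwa [mem_closedBall, dist_zero_right, not_le] at hx))

lemma cs_of {G : Type*} [NormedAddCommGroup G] {g : Sp d → G}
    {ρ : ℝ} (h : ∀ y, ρ < ‖y‖ → g y = 0) : HasCompactSupport g :=
  HasCompactSupport.intro (isCompact_closedBall (0 : Sp d) ρ)
    fun x hx => h x (by rwa [mem_closedBall, dist_zero_right, not_le] at hx)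

/-- the data of one level at unit scale -/
structure Lv (d : ℕ) (E : Type) [NormedAddCommGroup E] [InnerProductSpace ℝ E]
    (β : Sp d → ℝ) (B s R H K0 CD : ℝ) (g G : Sp d → ℝ) (f : Sp d → E) (e : (Fin d → ℤ) → E)
    (D : (Fin d → ℤ) → ℝ) : Prop where
  hd : 1 ≤ d
  ker : Ker β
  nonneg : ∀ y, 0 ≤ β y
  even : ∀ y, β (-y) = β y
  int1 : ∫ y, β y = 1
  B_bd : TFn 2 B β
  s_pos : 0 < s
  s_le : s ≤ 1
  R_le : (d : ℝ) + 4 ≤ R
  g_cont : Continuous g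
  g_bd : ∀ y, |g y| ≤ H
  G_cont : Continuous G
  G_bd : ∀ y, |avk β s g y - G y| ≤ K0
  f_cont : Continuous f
  f_cs : HasCompactSupport f
  e_norm : ∀ p, ‖e p‖ = 1
  D_nonneg : ∀ p, 0 ≤ D p
  CD_nonneg : 0 ≤ CD
  D_def : ∀ p, ∫ y in ball (lat p) R, (‖avk β s f y‖ - ⟪avk β s f y, e p⟫_ℝ) ≤ 4 * D p
  DI : ∀ p p' (Y : Sp d → ℝ), ContDiff ℝ 2 Y → (∀ y, |Y y| ≤ 1) →
      (∀ y, ‖iteratedFDeriv ℝ 2 Y y‖ ≤ 1) → (∀ y, R - 1 ≤ ‖y - lat p‖ → Y y = 0) →
      (∀ y, R - 1 ≤ ‖y - lat p'‖ → Y y = 0) →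
      |∫ y, ⟪f y, e p - e p'⟫_ℝ * Y y| ≤ CD * (D p + D p')

section Level

variable {E : Type} [NormedAddCommGroup E] [InnerProductSpace ℝ E] [FiniteDimensional ℝ E]
  {β : Sp d → ℝ} {B s R H K0 CD : ℝ} {g G : Sp d → ℝ} {f : Sp d → E} {e : (Fin d → ℤ) → E}
  {D : (Fin d → ℤ) → ℝ}

/-- the commutator -/
def cc (β : Sp d → ℝ) (s : ℝ) (g : Sp d → ℝ) (p : Fin d → ℤ) (y : Sp d) : ℝ :=
  ch p y * avk β s g y - avk β s (fun z => ch p z * g z) y

lemma Lv.cc_cont (h : Lv d E β B s R H K0 CD g G f e D) (p : Fin d → ℤ) :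
    Continuous (cc β s g p) :=
  ((ch_cont p).mul (avk_cont h.ker h.g_cont s)).sub
    (avk_cont h.ker (mulc (ch_cont p) h.g_cont) s)

lemma Lv.cc_far (h : Lv d E β B s R H K0 CD g G f e D) {p : Fin d → ℤ} {y : Sp d} {j : Fin d}
    (hj : 1 + s ≤ |y j - p j|) : cc β s g p y = 0 := by
  have hs := h.s_pos
  unfold cc
  rw [ch_far (j := j) (by linarith), zero_mul, avk_zero_of h.ker hs.le, sub_self]
  intro z hz
  rw [ch_far (j := j), zero_mul]
  have h1 : |z j - y j| ≤ s := (apply_le (z - y) j).trans hz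
  have h2 : |y j - p j| ≤ |z j - p j| + |z j - y j| := by
    have := abs_sub (z j - p j) (z j - y j)
    rwa [sub_sub_sub_cancel_left] at this
  linarith

lemma Lv.cc_supp (h : Lv d E β B s R H K0 CD g G f e D) {p : Fin d → ℤ} {y : Sp d}
    (hy : (d : ℝ) + s ≤ ‖y - lat p‖) : cc β s g p y = 0 := by
  have hs := h.s_pos
  unfold cc
  have h1 : ch p y = 0 := chi_supp (by linarith) h.hd
  rw [h1, zero_mul, avk_zero_of h.ker hs.le, sub_self]
  intro z hz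
  have h2 : ch p z = 0 := by
    refine chi_supp ?_ h.hd
    have h3 : ‖y - lat p‖ ≤ ‖z - lat p‖ + ‖z - y‖ := by
      have := norm_sub_le (z - lat p) (z - y)
      rwa [sub_sub_sub_cancel_left] at this
    linarith
  rw [h2, zero_mul]

lemma Lv.cc_TFn (h : Lv d E β B s R H K0 CD g G f e D) {N : ℝ} (hN : TFn 2 N (chi : Sp d → ℝ))
    (p : Fin d → ℤ) :
    TFn 2 (4 * N * ((s⁻¹) ^ 2 * (H * B * (volume (closedBall (0 : Sp d) 1)).toReal)) +
      (s⁻¹) ^ 2 * (H * B * (volume (closedBall (0 : Sp d) 1)).toReal)) (cc β s g p) := by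
  have h1 := avk_TFn h.g_cont h.g_bd h.B_bd h.ker.supp h.even h.s_pos h.s_le
  have h2 := avk_TFn (k := fun z => ch p z * g z) (mulc (ch_cont p) h.g_cont) (H := H) (fun z => by
    rw [abs_mul, abs_of_nonneg (ch_nonneg p z)]
    have := h.g_bd z
    have := ch_le_one p z
    have := ch_nonneg p z
    nlinarith [abs_nonneg (g z)]) h.B_bd h.ker.supp h.even h.s_pos h.s_le
  exact TFn.sub (TFn.mul (TFn.comp_sub hN (lat p)) h1) h2

lemma Lv.cc_sum (h : Lv d E β B s R H K0 CD g G f e D) {L : ℕ} {y : Sp d} (hy : ‖y‖ + 1 ≤ L) :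
    ∑ p ∈ box d L, cc β s g p y = 0 := by
  have hs := h.s_pos
  have hs1 := h.s_le
  unfold cc
  rw [Finset.sum_sub_distrib, ← Finset.sum_mul, ← avk_sum h.ker s _
    fun p _ => mulc (ch_cont p) h.g_cont]
  have h1 : ∑ p ∈ box d L, ch p y = 1 := chi_sum L fun j => (apply_le y j).trans (by linarith)
  rw [h1, one_mul]
  have h2 : avk β s (fun z => ∑ p ∈ box d L, ch p z * g z) y = avk β s g y := by
    refine avk_congr h.ker hs.le fun z hz => ?_
    rw [← Finset.sum_mul]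
    have h3 : ∑ p ∈ box d L, ch p z = 1 := chi_sum L fun j => (apply_le z j).trans (by
      have : ‖z‖ ≤ ‖y‖ + ‖z - y‖ := by
        have := norm_add_le y (z - y)
        rwa [add_sub_cancel] at this
      linarith)
    rw [h3, one_mul]
  rw [h2, sub_self]

lemma inner_bd (v w : E) (hw : ‖w‖ = 1) : |⟪v, w⟫_ℝ| ≤ ‖v‖ := by
  have := abs_real_inner_le_norm v w
  rwa [hw, mul_one] at this

/-- the estimate of one level at unit scale -/
lemma Lv.main (h : Lv d E β B s R H K0 CD g G f e D) {N : ℝ}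
    (hN : TFn 2 N (chi : Sp d → ℝ)) {ρ : ℝ} (hρ : ∀ y, ρ < ‖y‖ → f y = 0) {L : ℕ}
    (hL : ρ + 2 ≤ L) {N2 : ℝ} (hN2 : 0 < N2)
    (hN2' : 4 * N * (4 * N * ((s⁻¹) ^ 2 * (H * B * (volume (closedBall (0 : Sp d) 1)).toReal)) +
      (s⁻¹) ^ 2 * (H * B * (volume (closedBall (0 : Sp d) 1)).toReal)) ≤ N2) :
    ∑ p ∈ box d L, ∫ y, ch p y * ⟪f y, e p⟫_ℝ * G y ≤
      (∫ y, ‖avk β s f y‖ * g y) + K0 * (∫ y, ‖f y‖) +
        (4 * H + N2 * CD * (2 * 5 ^ d)) * ∑ p ∈ box d L, D p := by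
  classical
  have hs := h.s_pos
  have hs1 := h.s_le
  have hH0 : 0 ≤ H := (abs_nonneg _).trans (h.g_bd 0)
  set A : Sp d → ℝ := avk β s g with hA
  set Ff : Sp d → E := avk β s f with hFf
  have hAc : Continuous A := avk_cont h.ker h.g_cont s
  have hFc : Continuous Ff := avk_cont h.ker h.f_cont s
  have hFs : ∀ y, ρ + 1 < ‖y‖ → Ff y = 0 := by
    intro y hy
    refine avk_zero_of h.ker hs.le fun z hz => hρ z ?_
    have : ‖y‖ ≤ ‖z‖ + ‖z - y‖ := by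
      have := norm_sub_le z (z - y)
      rwa [sub_sub_cancel] at this
    linarith
  have hφc : ∀ v : E, Continuous fun y => ⟪f y, v⟫_ℝ := fun v => h.f_cont.inner continuous_const
  have hφs : ∀ (v : E) (y : Sp d), ρ < ‖y‖ → ⟪f y, v⟫_ℝ = 0 := fun v y hy => by
    rw [hρ y hy, inner_zero_left]
  -- integrability of functions with a factor from f
  have hI : ∀ (v : E) (k : Sp d → ℝ), Continuous k → Integrable fun y => ⟪f y, v⟫_ℝ * k y := by
    intro v k hk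
    refine int_cs (mulc (hφc v) hk) (ρ := ρ) fun y hy => ?_
    rw [hφs v y hy, zero_mul]
  -- (a)
  have ha : ∀ p, ∫ y, ch p y * ⟪f y, e p⟫_ℝ * G y ≤
      (∫ y, ⟪f y, e p⟫_ℝ * (ch p y * A y)) + ∫ y, ‖f y‖ * (ch p y * K0) := by
    intro p
    rw [← integral_add (hI _ _ (mulc (ch_cont p) hAc))]
    · refine integral_mono ?_ ?_ fun y => ?_
      · have := hI (e p) (fun y => ch p y * G y) (mulc (ch_cont p) h.G_cont)
        refine this.congr (Eventually.of_forall fun y => ?_)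
        show ⟪f y, e p⟫_ℝ * (ch p y * G y) = ch p y * ⟪f y, e p⟫_ℝ * G y
        ring
      · refine (hI _ _ (mulc (ch_cont p) hAc)).add ?_
        refine int_cs (mulc h.f_cont.norm (mulc (ch_cont p) continuous_const)) (ρ := ρ) fun y hy => ?_
        rw [hρ y hy, norm_zero, zero_mul]
      · show ch p y * ⟪f y, e p⟫_ℝ * G y ≤ ⟪f y, e p⟫_ℝ * (ch p y * A y) + ‖f y‖ * (ch p y * K0)
        have h1 : ⟪f y, e p⟫_ℝ * (G y - A y) ≤ ‖f y‖ * K0 := by
          calc ⟪f y, e p⟫_ℝ * (G y - A y) ≤ |⟪f y, e p⟫_ℝ * (G y - A y)| := le_abs_self _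
            _ = |⟪f y, e p⟫_ℝ| * |A y - G y| := by rw [abs_mul, abs_sub_comm]
            _ ≤ ‖f y‖ * K0 := mul_le_mul (inner_bd _ _ (h.e_norm p)) (h.G_bd y) (abs_nonneg _)
                (norm_nonneg _)
        have h2 := mul_le_mul_of_nonneg_left h1 (ch_nonneg p y)
        linarith only [h2]
    · refine int_cs (mulc h.f_cont.norm (mulc (ch_cont p) continuous_const)) (ρ := ρ) fun y hy => ?_
      rw [hρ y hy, norm_zero, zero_mul]
  have ha2 : ∑ p ∈ box d L, ∫ y, ‖f y‖ * (ch p y * K0) = K0 * ∫ y, ‖f y‖ := by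
    rw [← integral_finsetSum _ fun p _ => ?_]
    · rw [← integral_const_mul]
      congr 1
      ext y
      rw [← Finset.mul_sum, ← Finset.sum_mul]
      by_cases hy : ρ < ‖y‖
      · rw [hρ y hy, norm_zero, zero_mul, mul_zero]
      · have h3 : ∑ p ∈ box d L, ch p y = 1 := chi_sum L fun j => (apply_le y j).trans (by
          push Not at hy; linarith)
        rw [h3]
        ring
    · refine int_cs (mulc h.f_cont.norm (mulc (ch_cont p) continuous_const)) (ρ := ρ) fun y hy => ?_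
      rw [hρ y hy, norm_zero, zero_mul]
  -- (b)
  have hb : ∀ p, ∫ y, ⟪f y, e p⟫_ℝ * (ch p y * A y) =
      (∫ y, ⟪f y, e p⟫_ℝ * avk β s (fun z => ch p z * g z) y) +
        ∫ y, ⟪f y, e p⟫_ℝ * cc β s g p y := by
    intro p
    rw [← integral_add (hI _ _ (avk_cont h.ker (mulc (ch_cont p) h.g_cont) s))
      (hI _ _ (h.cc_cont p))]
    congr 1
    ext y
    unfold cc
    ring
  -- (c)
  have hJ : ∀ (k : Sp d → ℝ) (w : Sp d → ℝ), Continuous k → Continuous w →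
      (∀ y, Ff y = 0 → w y = 0) → Integrable fun y => w y * k y := by
    intro k w hk hw h0
    refine int_cs (mulc hw hk) (ρ := ρ + 1) fun y hy => ?_
    rw [h0 y (hFs y hy), zero_mul]
  have hc : ∀ p, ∫ y, ⟪f y, e p⟫_ℝ * avk β s (fun z => ch p z * g z) y ≤
      (∫ y, ‖Ff y‖ * (ch p y * g y)) + 4 * H * D p := by
    intro p
    rw [← avk_adj h.ker h.even (hφc (e p)) (cs_of (hφs (e p))) (mulc (ch_cont p) h.g_cont)]
    have e1 : ∀ y, avk β s (fun z => ⟪f z, e p⟫_ℝ) y = ⟪Ff y, e p⟫_ℝ := fun y =>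
      (avk_inner h.ker h.f_cont s y (e p)).symm
    simp only [e1]
    have hic : Continuous fun y => ⟪Ff y, e p⟫_ℝ := hFc.inner continuous_const
    have hdc : Continuous fun y => ‖Ff y‖ - ⟪Ff y, e p⟫_ℝ := hFc.norm.sub hic
    have hd0 : ∀ y, 0 ≤ ‖Ff y‖ - ⟪Ff y, e p⟫_ℝ := fun y => by
      have := (abs_le.mp (inner_bd (Ff y) (e p) (h.e_norm p))).2
      linarith
    have i1 : Integrable fun y => ⟪Ff y, e p⟫_ℝ * (ch p y * g y) :=
      hJ _ _ (mulc (ch_cont p) h.g_cont) hic fun y hy => by rw [hy, inner_zero_left]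
    have i2 : Integrable fun y => ‖Ff y‖ * (ch p y * g y) :=
      hJ _ _ (mulc (ch_cont p) h.g_cont) hFc.norm fun y hy => by rw [hy, norm_zero]
    have i3 : Integrable fun y => (‖Ff y‖ - ⟪Ff y, e p⟫_ℝ) * (ch p y * H) :=
      hJ _ _ (mulc (ch_cont p) continuous_const) hdc fun y hy => by
        rw [hy, inner_zero_left, norm_zero, sub_zero]
    have h1 : ∫ y, ⟪Ff y, e p⟫_ℝ * (ch p y * g y) ≤
        (∫ y, ‖Ff y‖ * (ch p y * g y)) + ∫ y, (‖Ff y‖ - ⟪Ff y, e p⟫_ℝ) * (ch p y * H) := by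
      rw [← integral_add i2 i3]
      refine integral_mono i1 (i2.add i3) fun y => ?_
      show ⟪Ff y, e p⟫_ℝ * (ch p y * g y) ≤
        ‖Ff y‖ * (ch p y * g y) + (‖Ff y‖ - ⟪Ff y, e p⟫_ℝ) * (ch p y * H)
      have h2 : -g y ≤ H := by
        have := h.g_bd y
        linarith [neg_abs_le (g y)]
      have h3 := mul_nonneg (hd0 y) (mul_nonneg (ch_nonneg p y) (by linarith : 0 ≤ H + g y))
      linarith only [h3]
    have h4 : ∫ y, (‖Ff y‖ - ⟪Ff y, e p⟫_ℝ) * (ch p y * H) ≤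
        H * ∫ y in ball (lat p) R, (‖Ff y‖ - ⟪Ff y, e p⟫_ℝ) := by
      rw [← integral_const_mul]
      have e2 : ∫ y, (‖Ff y‖ - ⟪Ff y, e p⟫_ℝ) * (ch p y * H) =
          ∫ y in ball (lat p) R, (‖Ff y‖ - ⟪Ff y, e p⟫_ℝ) * (ch p y * H) := by
        symm
        refine setIntegral_eq_integral_of_forall_compl_eq_zero fun y hy => ?_
        rw [mem_ball, dist_eq_norm, not_lt] at hy
        have h5 : ch p y = 0 := chi_supp (by linarith [h.R_le]) h.hd
        rw [h5, zero_mul, mul_zero]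
      rw [e2]
      refine setIntegral_mono_on i3.integrableOn ?_ measurableSet_ball fun y _ => ?_
      · have i4 : Integrable fun y => (‖Ff y‖ - ⟪Ff y, e p⟫_ℝ) :=
          int_cs hdc (ρ := ρ + 1) fun y hy => by
            rw [hFs y hy, inner_zero_left, norm_zero, sub_zero]
        exact (i4.const_mul H).integrableOn
      · have := ch_le_one p y
        have h6 := mul_nonneg (hd0 y) (mul_nonneg hH0 (by linarith : 0 ≤ 1 - ch p y))
        linarith only [h6]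
    have h5 := mul_le_mul_of_nonneg_left (h.D_def p) hH0
    linarith
  have hc2 : ∑ p ∈ box d L, ∫ y, ‖Ff y‖ * (ch p y * g y) = ∫ y, ‖Ff y‖ * g y := by
    rw [← integral_finsetSum _ fun p _ => ?_]
    · congr 1
      ext y
      rw [← Finset.mul_sum, ← Finset.sum_mul]
      by_cases hy : ρ + 1 < ‖y‖
      · rw [hFs y hy, norm_zero, zero_mul, zero_mul]
      · have h3 : ∑ p ∈ box d L, ch p y = 1 := chi_sum L fun j => (apply_le y j).trans (by
          push Not at hy; linarith)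
        rw [h3, one_mul]
    · exact hJ _ _ (mulc (ch_cont p) h.g_cont) hFc.norm fun y hy => by rw [hy, norm_zero]
  -- (d)
  have hd1 : ∀ p, ∫ y, ⟪f y, e p⟫_ℝ * cc β s g p y =
      ∑ p' ∈ box d L, ∫ y, ⟪f y, e p⟫_ℝ * (ch p' y * cc β s g p y) := by
    intro p
    rw [← integral_finsetSum _ fun p' _ => hI _ _ (mulc (ch_cont p') (h.cc_cont p))]
    congr 1
    ext y
    rw [← Finset.mul_sum, ← Finset.sum_mul]
    by_cases hy : ρ < ‖y‖
    · rw [hφs _ y hy, zero_mul, zero_mul]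
    · have h3 : ∑ p ∈ box d L, ch p y = 1 := chi_sum L fun j => (apply_le y j).trans (by
        push Not at hy; linarith)
      rw [h3, one_mul]
  have hd2 : ∑ p ∈ box d L, ∑ p' ∈ box d L, ∫ y, ⟪f y, e p'⟫_ℝ * (ch p' y * cc β s g p y) = 0 := by
    rw [Finset.sum_comm]
    refine Finset.sum_eq_zero fun p' _ => ?_
    rw [← integral_finsetSum _ fun p _ => hI _ _ (mulc (ch_cont p') (h.cc_cont p))]
    have : ∀ y, ∑ p ∈ box d L, ⟪f y, e p'⟫_ℝ * (ch p' y * cc β s g p y) = 0 := by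
      intro y
      rw [← Finset.mul_sum, ← Finset.mul_sum]
      by_cases hy : ρ < ‖y‖
      · rw [hφs _ y hy, zero_mul]
      · rw [h.cc_sum (by push Not at hy; linarith), mul_zero, mul_zero]
    simp only [this, integral_zero]
  have hd3 : ∑ p ∈ box d L, ∫ y, ⟪f y, e p⟫_ℝ * cc β s g p y =
      ∑ p ∈ box d L, ∑ p' ∈ box d L, ∫ y, ⟪f y, e p - e p'⟫_ℝ * (ch p' y * cc β s g p y) := by
    simp only [hd1]
    rw [← sub_zero (∑ p ∈ box d L, ∑ p' ∈ box d L, ∫ y, ⟪f y, e p⟫_ℝ * (ch p' y * cc β s g p y)),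
      ← hd2, ← Finset.sum_sub_distrib]
    refine Finset.sum_congr rfl fun p _ => ?_
    rw [← Finset.sum_sub_distrib]
    refine Finset.sum_congr rfl fun p' _ => ?_
    rw [← integral_sub (hI _ _ (mulc (ch_cont p') (h.cc_cont p)))
      (hI _ _ (mulc (ch_cont p') (h.cc_cont p)))]
    congr 1
    ext y
    rw [inner_sub_right]
    ring
  -- (e)
  have he : ∀ p p', ∫ y, ⟪f y, e p - e p'⟫_ℝ * (ch p' y * cc β s g p y) ≤
      if p' ∈ nb p then N2 * CD * (D p + D p') else 0 := by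
    intro p p'
    split_ifs with hnb
    · have hT : TFn 2 N2 (fun y => ch p' y * cc β s g p y) :=
        TFn.mono' (TFn.mul (TFn.comp_sub hN (lat p')) (h.cc_TFn hN p)) hN2'
      have hT2 := TFn.const_mul hT N2⁻¹
      have h1 : |N2⁻¹| * N2 = 1 := by
        rw [abs_of_pos (by positivity), inv_mul_cancel₀ hN2.ne']
      rw [h1] at hT2
      have h2 := h.DI p p' (fun y => N2⁻¹ * (ch p' y * cc β s g p y)) hT2.smooth
        (fun y => TFn.abs_le hT2 y) (fun y => hT2.bd 2 le_rfl y)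
        (fun y hy => by
          rw [h.cc_supp (by linarith [h.R_le]), mul_zero, mul_zero])
        (fun y hy => by
          have h5 : ch p' y = 0 := chi_supp (by linarith [h.R_le]) h.hd
          rw [h5, zero_mul, mul_zero])
      have h3 : ∫ y, ⟪f y, e p - e p'⟫_ℝ * (N2⁻¹ * (ch p' y * cc β s g p y)) =
          N2⁻¹ * ∫ y, ⟪f y, e p - e p'⟫_ℝ * (ch p' y * cc β s g p y) := by
        rw [← integral_const_mul]
        congr 1
        ext y
        ring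
      rw [h3] at h2
      have h4 := (le_abs_self _).trans h2
      rw [inv_mul_le_iff₀ hN2] at h4
      linarith
    · refine le_of_eq ?_
      rw [mem_nb] at hnb
      push Not at hnb
      obtain ⟨j, hj⟩ := hnb
      have h1 : ∀ y : Sp d, ⟪f y, e p - e p'⟫_ℝ * (ch p' y * cc β s g p y) = 0 := by
        intro y
        have hj' : (3 : ℝ) ≤ |(p j : ℝ) - p' j| := by
          have : (3 : ℤ) ≤ |p j - p' j| := hj
          exact_mod_cast this
        by_cases h2 : 1 ≤ |y j - p' j|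
        · rw [ch_far h2, zero_mul, mul_zero]
        · push Not at h2
          rw [h.cc_far (j := j), mul_zero, mul_zero]
          have h3 : |(p j : ℝ) - p' j| ≤ |y j - p' j| + |y j - p j| := by
            have := abs_sub (y j - p' j) (y j - p j)
            rwa [sub_sub_sub_cancel_left] at this
          linarith
      simp only [h1, integral_zero]
  have he2 : ∑ p ∈ box d L, ∑ p' ∈ box d L,
      ∫ y, ⟪f y, e p - e p'⟫_ℝ * (ch p' y * cc β s g p y) ≤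
      N2 * CD * (2 * 5 ^ d * ∑ p ∈ box d L, D p) := by
    have h1 : ∑ p ∈ box d L, ∑ p' ∈ box d L,
        ∫ y, ⟪f y, e p - e p'⟫_ℝ * (ch p' y * cc β s g p y) ≤
        ∑ p ∈ box d L, ∑ p' ∈ box d L, N2 * CD * (if p' ∈ nb p then (D p + D p') else 0) := by
      refine Finset.sum_le_sum fun p _ => Finset.sum_le_sum fun p' _ => ?_
      refine (he p p').trans (le_of_eq ?_)
      split_ifs
      · rfl
      · rw [mul_zero]
    refine h1.trans ?_
    simp only [← Finset.mul_sum]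
    exact mul_le_mul_of_nonneg_left (pair_sum _ D h.D_nonneg)
      (mul_nonneg hN2.le h.CD_nonneg)
  -- conclusion
  have hfin : ∑ p ∈ box d L, ∫ y, ch p y * ⟪f y, e p⟫_ℝ * G y ≤
      ∑ p ∈ box d L, ((∫ y, ‖Ff y‖ * (ch p y * g y)) + 4 * H * D p +
        (∫ y, ⟪f y, e p⟫_ℝ * cc β s g p y) + ∫ y, ‖f y‖ * (ch p y * K0)) := by
    refine Finset.sum_le_sum fun p _ => ?_
    have h1 := ha p
    rw [hb p] at h1
    have h2 := hc p
    linarith
  rw [Finset.sum_add_distrib, Finset.sum_add_distrib, Finset.sum_add_distrib, hc2, ha2, hd3,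
    ← Finset.mul_sum] at hfin
  have : (4 * H + N2 * CD * (2 * 5 ^ d)) * ∑ p ∈ box d L, D p =
      4 * H * ∑ p ∈ box d L, D p + N2 * CD * (2 * 5 ^ d * ∑ p ∈ box d L, D p) := by ring
  rw [this]
  linarith

end Level

end PTm

end

end TG


end

section

/-!
# Reduction to cells: module PT
-/

open MeasureTheory Metric Set TrI Filter
open scoped InnerProductSpace ContDiff

set_option linter.unusedSectionVars false

namespace TG

noncomputable section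

namespace PTm

variable {d : ℕ}

lemma lev_half_self (i : ℕ) : lev ((1 / 2 : ℝ) ^ i) i = 1 := by
  unfold lev
  rw [← mul_pow]
  norm_num

lemma lev_half_pred {i : ℕ} (hi : 1 ≤ i) : lev ((1 / 2 : ℝ) ^ i) (i - 1) = 1 / 2 := by
  have h1 := lev_half_self i
  obtain ⟨k, rfl⟩ : ∃ k, i = k + 1 := ⟨i - 1, by omega⟩
  rw [lev_succ] at h1
  rw [Nat.add_sub_cancel]
  linarith only [h1]

lemma lev_half_le {l i : ℕ} (h : l ≤ i) : lev ((1 / 2 : ℝ) ^ i) l ≤ 1 := by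
  have h1 : (2 : ℝ) ^ l ≤ 2 ^ i := pow_le_pow_right₀ (by norm_num) h
  have h2 : (1 / 2 : ℝ) ^ i * 2 ^ i = 1 := by
    rw [← mul_pow]
    norm_num
  have h3 : (0 : ℝ) ≤ (1 / 2) ^ i := by positivity
  unfold lev
  calc (1 / 2 : ℝ) ^ i * 2 ^ l ≤ (1 / 2) ^ i * 2 ^ i := mul_le_mul_of_nonneg_left h1 h3
    _ = 1 := h2

section Pot

variable {C' : ℝ} {μ : Measure (Sp d)}

lemma vv_nonneg (μ : Measure (Sp d)) (t : ℝ) (x : Sp d) : 0 ≤ vv μ t x := Real.sqrt_nonneg _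

lemma vv_cont (h : ContDiffOn ℝ ∞ (fun p : ℝ × Sp d => vv μ p.1 p.2) {p | 0 < p.1}) {t : ℝ}
    (ht : 0 < t) : Continuous (vv μ t) := by
  have h1 := h.continuousOn
  have h2 : Continuous fun x : Sp d => ((t, x) : ℝ × Sp d) := by fun_prop
  exact h1.comp_continuous h2 fun x => ht

lemma wv_eq (β : Sp d → ℝ) (ε : ℝ) (μ : Measure (Sp d)) (t : ℝ) :
    wv β ε μ t = avk β (ε * t) (vv μ t) := rfl

lemma GG_cont (h : ContDiffOn ℝ ∞ (fun p : ℝ × Sp d => vv μ p.1 p.2) {p | 0 < p.1})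
    {β : Sp d → ℝ} (hβ : Ker β) (ε : ℝ) {t : ℝ} (ht : 0 < t) : Continuous (GG β ε μ t) := by
  unfold GG
  have h1 : ∀ r : ℝ, 0 < r → Continuous (wv β ε μ r) := fun r hr => by
    rw [wv_eq]
    exact avk_cont hβ (vv_cont h hr) _
  exact ((h1 t ht).sub (continuous_const.mul (h1 (t / 2) (by positivity)))).sub
    (continuous_const.mul (h1 (2 * t) (by positivity)))

lemma gk_cont (h : ContDiffOn ℝ ∞ (fun p : ℝ × Sp d => vv μ p.1 p.2) {p | 0 < p.1})
    {b : Sp d → ℝ} (hb : Ker b) (ε : ℝ) {s0 : ℝ} (hs : 0 < s0) (i : ℕ) :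
    Continuous (gk b ε μ s0 i) := by
  unfold gk
  have h1 : ∀ k, Continuous (vv μ (lev s0 k)) := fun k => vv_cont h (lev_pos hs k)
  have h2 : Continuous fun x => vv μ (lev s0 i) x
      - 1 / 3 * avk b (ε * lev s0 (i + 1)) (vv μ (lev s0 (i + 1))) x :=
    (h1 i).sub (continuous_const.mul (avk_cont hb (h1 (i + 1)) _))
  exact (avk_cont hb h2 _).sub (continuous_const.mul (h1 (i - 1)))

lemma avk_scale {F : Type*} [NormedAddCommGroup F] [NormedSpace ℝ F] (b : Sp d → ℝ) (k : Sp d → F)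
    {t : ℝ} (ht : 0 < t) (s : ℝ) (y : Sp d) :
    avk b (s / t) (fun x => k (t • x)) y = avk b s k (t • y) := by
  unfold avk
  congr 1
  ext z
  beta_reduce
  rw [smul_add, smul_smul, mul_div_cancel₀ _ ht.ne']

lemma lev_div (s0 t : ℝ) (i : ℕ) : lev (s0 / t) i = lev s0 i / t := by
  unfold lev; ring

lemma gk_scale {b : Sp d → ℝ} {ε t s0 : ℝ} (ht : 0 < t) (hs : 0 < s0) {μ' : Measure (Sp d)}
    (hv : ∀ r y, 0 < r → vv μ' r y = vv μ (t * r) (t • y)) (i : ℕ) (y : Sp d) :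
    gk b ε μ' (s0 / t) i y = gk b ε μ s0 i (t • y) := by
  have hst : 0 < s0 / t := by positivity
  have h1 : ∀ (k : ℕ) (x : Sp d), vv μ' (lev (s0 / t) k) x = vv μ (lev s0 k) (t • x) := by
    intro k x
    rw [hv _ _ (lev_pos hst k), lev_div, mul_div_cancel₀ _ ht.ne']
  have h2 : ∀ k : ℕ, ε * lev (s0 / t) k = ε * lev s0 k / t := fun k => by rw [lev_div]; ring
  unfold gk
  have h3 : (fun x => vv μ' (lev (s0 / t) i) x
      - 1 / 3 * avk b (ε * lev (s0 / t) (i + 1)) (vv μ' (lev (s0 / t) (i + 1))) x) =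
      fun x => (fun w => vv μ (lev s0 i) w
        - 1 / 3 * avk b (ε * lev s0 (i + 1)) (vv μ (lev s0 (i + 1))) w) (t • x) := by
    funext x
    beta_reduce
    rw [h1, h2]
    have h4 : vv μ' (lev (s0 / t) (i + 1)) = fun x => vv μ (lev s0 (i + 1)) (t • x) := by
      funext x
      exact h1 _ _
    have h6 : avk b (ε * lev s0 (i + 1) / t) (fun x => vv μ (lev s0 (i + 1)) (t • x)) x =
        avk b (ε * lev s0 (i + 1)) (vv μ (lev s0 (i + 1))) (t • x) :=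
      avk_scale b (vv μ (lev s0 (i + 1))) ht _ x
    rw [h4, h6]
  have h5 : avk b (ε * lev (s0 / t) i) (fun x => vv μ' (lev (s0 / t) i) x
      - 1 / 3 * avk b (ε * lev (s0 / t) (i + 1)) (vv μ' (lev (s0 / t) (i + 1))) x) y =
      avk b (ε * lev s0 i) (fun w => vv μ (lev s0 i) w
        - 1 / 3 * avk b (ε * lev s0 (i + 1)) (vv μ (lev s0 (i + 1))) w) (t • y) := by
    rw [h3, h2]
    exact avk_scale b (fun w => vv μ (lev s0 i) w
        - 1 / 3 * avk b (ε * lev s0 (i + 1)) (vv μ (lev s0 (i + 1))) w) ht (ε * lev s0 i) y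
  rw [h5, h1]

end Pot

section Defect

variable {E : Type} [NormedAddCommGroup E] [InnerProductSpace ℝ E] [FiniteDimensional ℝ E]

lemma def_nonneg (v e : E) (he : ‖e‖ = 1) : 0 ≤ ‖v‖ - ⟪v, e⟫_ℝ := by
  have := (abs_le.mp (inner_bd v e he)).2
  linarith

lemma DD_nonneg (b : Sp d → ℝ) (ε R : ℝ) {s0 : ℝ} (hs : 0 < s0) (f : Sp d → E) (i : ℕ) (x : Sp d)
    {e : E} (he : ‖e‖ = 1) : 0 ≤ DD b ε R s0 f i x e := by
  unfold DD
  have h0 := lev_pos hs i
  refine mul_nonneg (by positivity) (add_nonneg (Finset.sum_nonneg fun l _ => ?_) ?_)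
  · exact mul_nonneg (by positivity) (integral_nonneg fun y => def_nonneg _ _ he)
  · exact mul_nonneg (by positivity) (integral_nonneg fun y => norm_nonneg _)

lemma DD_ge (b : Sp d → ℝ) (ε R : ℝ) (f : Sp d → E) {i : ℕ} (hi : 1 ≤ i) (x : Sp d)
    {e : E} (he : ‖e‖ = 1) :
    ∫ y in ball x R, (‖fl b ε ((1 / 2) ^ i) f (i - 1) y‖ - ⟪fl b ε ((1 / 2) ^ i) f (i - 1) y, e⟫_ℝ) ≤
      4 * DD b ε R ((1 / 2) ^ i) f i x e := by
  unfold DD
  rw [lev_half_self, one_pow, div_one, one_mul, mul_one]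
  have h1 := Finset.single_le_sum (s := Finset.range (i + 1))
    (f := fun l => (1 / 4 : ℝ) ^ (i - l) *
        (∫ y in ball x R, (‖fl b ε ((1 / 2) ^ i) f l y‖ - ⟪fl b ε ((1 / 2) ^ i) f l y, e⟫_ℝ)))
    (fun l _ => mul_nonneg (by positivity) (integral_nonneg fun y => def_nonneg _ _ he))
    (Finset.mem_range.mpr (show i - 1 < i + 1 by omega))
  have h2 : i - (i - 1) = 1 := by omega
  simp only [h2, pow_one] at h1
  have h3 : 0 ≤ (1 / 4 : ℝ) ^ i * ∫ y in ball x R, ‖f y‖ :=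
    mul_nonneg (by positivity) (integral_nonneg fun y => norm_nonneg _)
  linarith only [h1, h3]

lemma DD_far {b : Sp d → ℝ} (hb : Ker b) {ε R : ℝ} (hε : 0 ≤ ε) (hε1 : ε ≤ 1 / 4) {f : Sp d → E}
    {ρ : ℝ} (hρ : ∀ y, ρ < ‖y‖ → f y = 0) (i : ℕ) {x : Sp d} (hx : ρ + 1 + R ≤ ‖x‖) (e : E) :
    DD b ε R ((1 / 2) ^ i) f i x e = 0 := by
  unfold DD
  rw [lev_half_self, mul_one]
  have hy : ∀ y ∈ ball x R, ρ + 1 < ‖y‖ := by
    intro y hy
    rw [mem_ball, dist_eq_norm] at hy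
    have : ‖x‖ ≤ ‖y‖ + ‖y - x‖ := by
      have := norm_sub_le y (y - x)
      rwa [sub_sub_cancel] at this
    linarith
  have h1 : ∀ l ∈ Finset.range (i + 1), (1 / 4 : ℝ) ^ (i - l) *
      (∫ y in ball x R, (‖fl b ε ((1 / 2) ^ i) f l y‖ - ⟪fl b ε ((1 / 2) ^ i) f l y, e⟫_ℝ)) = 0 := by
    intro l hl
    have hl' : l ≤ i := Nat.lt_succ_iff.mp (Finset.mem_range.mp hl)
    have h2 := lev_half_le hl'
    rw [setIntegral_eq_zero_of_forall_eq_zero, mul_zero]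
    intro y hyb
    have h3 : fl b ε ((1 / 2) ^ i) f l y = 0 := by
      refine fl_supp hb hε (by positivity) hρ l y (lt_of_le_of_lt ?_ (hy y hyb))
      nlinarith
    rw [h3, norm_zero, inner_zero_left, sub_zero]
  rw [Finset.sum_eq_zero h1, setIntegral_eq_zero_of_forall_eq_zero, mul_zero, add_zero, mul_zero]
  intro y hyb
  rw [hρ y (by linarith [hy y hyb]), norm_zero]

end Defect

lemma not_mem_box {L : ℕ} {p : Fin d → ℤ} (h : p ∉ box d L) : ∃ j, (L : ℝ) + 1 ≤ |(p j : ℝ)| := by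
  unfold box at h
  rw [Fintype.mem_piFinset] at h
  push Not at h
  obtain ⟨j, hj⟩ := h
  refine ⟨j, ?_⟩
  rw [Finset.mem_Icc] at hj
  have h1 : (L : ℤ) + 1 ≤ |p j| := by
    rcases abs_cases (p j) with h | h <;> omega
  exact_mod_cast h1

/-- the estimate of one level at unit scale, with the constants of the hypotheses -/
lemma unit_level (hd : 2 ≤ d) {M c ε R : ℝ} (hε : 0 < ε) (hε4 : ε ≤ 1 / 4)
    (hR : (d : ℝ) + 4 ≤ R) {b : Sp d → ℝ} (hb : BaseKer 4 M c b) {CP CD Cv B N N2 : ℝ}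
    (hCP : 0 < CP) (hCD : 0 < CD) (hB : ∀ (J : ℕ) (β : Sp d → ℝ), 2 ≤ J → Kit J M β → TFn 2 B β)
    (hN : TFn 2 N (chi : Sp d → ℝ)) (hN2 : 0 < N2)
    (hN2' : 4 * N * (4 * N * (((ε / 2)⁻¹) ^ 2 * (CP * Cv * B *
      (volume (closedBall (0 : Sp d) 1)).toReal)) +
      ((ε / 2)⁻¹) ^ 2 * (CP * Cv * B * (volume (closedBall (0 : Sp d) 1)).toReal)) ≤ N2)
    {E : Type} [NormedAddCommGroup E] [InnerProductSpace ℝ E] [FiniteDimensional ℝ E]
    {μ : Measure (Sp d)}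
    (hsm : ContDiffOn ℝ ∞ (fun p : ℝ × Sp d => vv μ p.1 p.2) {p | 0 < p.1})
    (hv : ∀ y, vv μ 1 y ≤ Cv) {i : ℕ} (hi : 2 ≤ i)
    (hP1 : ∀ y, |gk b ε μ ((1 / 2) ^ i) i y| ≤ CP * vv μ (lev ((1 / 2) ^ i) i) y)
    (hP2 : ∀ y, |avk (KN b (i - 2)) (ε * lev ((1 / 2) ^ i) (i - 1)) (gk b ε μ ((1 / 2) ^ i) i) y
        - GG (KN b (i - 2)) ε μ (lev ((1 / 2) ^ i) i) y| ≤
          CP * (1 / 4) ^ i * vv μ (lev ((1 / 2) ^ i) i) y)
    {f : Sp d → E} (hf : Continuous f) (hf' : HasCompactSupport f)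
    (hDI : ∀ (e e' : E), ‖e‖ = 1 → ‖e'‖ = 1 → ∀ (x x' : Sp d) (Y : Sp d → ℝ), ContDiff ℝ 2 Y →
      (∀ y, |Y y| ≤ 1) → (∀ y, ‖iteratedFDeriv ℝ 2 Y y‖ ≤ 1) →
      (∀ y, R - 1 ≤ ‖y - x‖ → Y y = 0) → (∀ y, R - 1 ≤ ‖y - x'‖ → Y y = 0) →
      |∫ y, ⟪f y, e - e'⟫_ℝ * Y y| ≤
        CD * (DD b ε R ((1 / 2) ^ i) f i x e + DD b ε R ((1 / 2) ^ i) f i x' e'))
    {e : (Fin d → ℤ) → E} (he : ∀ p, ‖e p‖ = 1) :
    ∑' p : Fin d → ℤ, ∫ y, ch p y * ⟪f y, e p⟫_ℝ * GG (KN b (i - 2)) ε μ 1 y ≤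
      (∫ y, ‖fl b ε ((1 / 2) ^ i) f (i - 1) y‖ * gk b ε μ ((1 / 2) ^ i) i y) +
        CP * (1 / 4) ^ i * Cv * (∫ y, ‖f y‖) +
        (4 * (CP * Cv) + N2 * CD * (2 * 5 ^ d)) *
          ∑' p : Fin d → ℤ, DD b ε R ((1 / 2) ^ i) f i (lat p) (e p) := by
  have hs0 : (0 : ℝ) < (1 / 2) ^ i := by positivity
  have hbk := base_ker hb
  have hβ := hb.kit (i - 2)
  have hfl : fl b ε ((1 / 2) ^ i) f (i - 1) = avk (KN b (i - 2)) (ε / 2) f := by
    have h1 := fl_eq hbk (fun n => kit_ker (hb.kit n)) hf ε ((1 / 2) ^ i) (i - 2)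
    have h2 : i - 2 + 1 = i - 1 := by omega
    rw [h2, lev_half_pred (by omega), mul_one_div] at h1
    exact h1
  rw [lev_half_pred (by omega : 1 ≤ i), lev_half_self, mul_one_div] at hP2
  rw [lev_half_self] at hP1
  have hlv : Lv d E (KN b (i - 2)) B (ε / 2) R (CP * Cv) (CP * (1 / 4) ^ i * Cv) CD
      (gk b ε μ ((1 / 2) ^ i) i) (GG (KN b (i - 2)) ε μ 1) f e
      (fun p => DD b ε R ((1 / 2) ^ i) f i (lat p) (e p)) :=
    { hd := by omega
      ker := kit_ker hβ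
      nonneg := hβ.prof.nonneg
      even := kit_even hβ
      int1 := hβ.prof.int
      B_bd := hB 4 _ (by norm_num) hβ
      s_pos := by positivity
      s_le := by linarith
      R_le := hR
      g_cont := gk_cont hsm hbk ε hs0 i
      g_bd := fun y => (hP1 y).trans (mul_le_mul_of_nonneg_left (hv y) hCP.le)
      G_cont := GG_cont hsm (kit_ker hβ) ε one_pos
      G_bd := fun y => (hP2 y).trans (mul_le_mul_of_nonneg_left (hv y) (by positivity))
      f_cont := hf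
      f_cs := hf'
      e_norm := he
      D_nonneg := fun p => DD_nonneg b ε R hs0 f i (lat p) (he p)
      CD_nonneg := hCD.le
      D_def := fun p => by
        rw [← hfl]
        exact DD_ge b ε R f (by omega) (lat p) (he p)
      DI := fun p p' Y => hDI (e p) (e p') (he p) (he p') (lat p) (lat p') Y }
  obtain ⟨ρ, hρ0, hρ⟩ := cs_bd hf'
  obtain ⟨L, hL⟩ := exists_nat_ge (ρ + 2 + R)
  have hR0 : 0 ≤ R := by
    have : (0 : ℝ) ≤ d := Nat.cast_nonneg d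
    linarith
  have hmain := hlv.main hN hρ (L := L) (by linarith) hN2 hN2'
  have e1 : ∑' p : Fin d → ℤ, ∫ y, ch p y * ⟪f y, e p⟫_ℝ * GG (KN b (i - 2)) ε μ 1 y =
      ∑ p ∈ box d L, ∫ y, ch p y * ⟪f y, e p⟫_ℝ * GG (KN b (i - 2)) ε μ 1 y := by
    refine tsum_eq_sum fun p hp => ?_
    obtain ⟨j, hj⟩ := not_mem_box hp
    have h1 : ∀ y, ch p y * ⟪f y, e p⟫_ℝ * GG (KN b (i - 2)) ε μ 1 y = 0 := by
      intro y
      by_cases hy : ρ < ‖y‖
      · rw [hρ y hy, inner_zero_left, mul_zero, zero_mul]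
      · push Not at hy
        rw [ch_far (j := j), zero_mul, zero_mul]
        have h2 : |(p j : ℝ)| ≤ |y j - p j| + |y j| := by
          have := abs_sub (y j - p j) (y j)
          rwa [sub_sub_cancel_left, abs_neg] at this
        have h3 := apply_le y j
        linarith only [hR, hL, hj, hy, h2, h3]
    simp only [h1, integral_zero]
  have e2 : ∑' p : Fin d → ℤ, DD b ε R ((1 / 2) ^ i) f i (lat p) (e p) =
      ∑ p ∈ box d L, DD b ε R ((1 / 2) ^ i) f i (lat p) (e p) := by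
    refine tsum_eq_sum fun p hp => ?_
    obtain ⟨j, hj⟩ := not_mem_box hp
    refine DD_far hbk hε.le hε4 hρ i ?_ _
    have h1 : |(p j : ℝ)| ≤ ‖lat p‖ := apply_le (lat p) j
    linarith only [hL, hj, h1]
  rw [e1, e2, hfl]
  exact hmain

lemma geo_le (I : ℕ) : ∑ i ∈ Finset.Ico 2 I, (1 / 4 : ℝ) ^ i ≤ 2 := by
  have h1 : ∑ i ∈ Finset.Ico 2 I, (1 / 4 : ℝ) ^ i ≤ ∑ i ∈ Finset.range I, (1 / 4 : ℝ) ^ i := by
    refine Finset.sum_le_sum_of_subset_of_nonneg ?_ fun i _ _ => by positivity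
    intro i hi
    rw [Finset.mem_Ico] at hi
    exact Finset.mem_range.mpr hi.2
  refine h1.trans ?_
  have h2 := geom_sum_eq (by norm_num : (1 / 4 : ℝ) ≠ 1) I
  rw [h2]
  have : (0 : ℝ) ≤ (1 / 4) ^ I := by positivity
  rw [div_le_iff_of_neg (by norm_num)]
  linarith

end PTm

open _root_.TG.PTm

theorem stmtPT (h : StmtPO) (h1 : StmtDI) (h2 : StmtSC) (h3 : StmtTH) : StmtPT := by
  intro d hd M c C' ε R hC' hε hε4 hR b hb
  have hb2 : BaseKer 2 M c b := base_mono (by norm_num) hb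
  obtain ⟨CP, hCP, hPO⟩ := h d hd M c C' ε hC' hε hε4 b hb
  obtain ⟨CD, hCD, hDI⟩ := h1 d (by omega) M c ε hε (by linarith) b hb2
  have hSC := h2 d hd C' hC'
  obtain ⟨CT, hCT, hTH⟩ := h3 d 0 hd C' hC'
  obtain ⟨B, hB0, hB⟩ := kit_TFn (d := d) (by omega) M
  obtain ⟨N, hN0, hN⟩ := chi_TFn (d := d) (by omega)
  set Cv : ℝ := Real.sqrt CT with hCv
  have hCv0 : 0 ≤ Cv := Real.sqrt_nonneg _
  set V : ℝ := (volume (closedBall (0 : Sp d) 1)).toReal with hV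
  have hV0 : 0 ≤ V := ENNReal.toReal_nonneg
  set N2 : ℝ := 4 * N * (4 * N * (((ε / 2)⁻¹) ^ 2 * (CP * Cv * B * V)) +
      ((ε / 2)⁻¹) ^ 2 * (CP * Cv * B * V)) + 1 with hN2
  have hN20 : 0 < N2 := by positivity
  set CL : ℝ := 4 * (CP * Cv) + N2 * CD * (2 * 5 ^ d) with hCL
  have hCL0 : 0 ≤ CL := by (clear * - hCP hCT hN0 hε hB0 hCD; positivity)
  refine ⟨CP + 2 * (CP * Cv) + CL, by (clear * - hCP hCT hN0 hε hB0 hCD; positivity), ?_⟩
  intro E _ _ _ μ hμ f hf hf' s0 hs0 e he I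
  have hR3 : (3 : ℝ) ≤ R := by
    have : (0 : ℝ) ≤ d := Nat.cast_nonneg d
    linarith
  -- one level
  have hlevel : ∀ i, 2 ≤ i → ∑' p : Fin d → ℤ,
      ∫ y, chiQ (cen s0 i p) (lev s0 i) y * ⟪f y, e i p⟫_ℝ * GG (KN b (i - 2)) ε μ (lev s0 i) y ≤
      (∫ y, ‖fl b ε s0 f (i - 1) y‖ * gk b ε μ s0 i y) + CP * (1 / 4) ^ i * Cv * (∫ y, ‖f y‖) +
        CL * ∑' p : Fin d → ℤ, lev s0 i ^ (d - 1) * DD b ε R s0 f i (cen s0 i p) (e i p) := by
    intro i hi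
    set t : ℝ := lev s0 i with ht
    have ht0 : 0 < t := lev_pos hs0 i
    have hst : s0 / t = (1 / 2) ^ i := by
      rw [ht]
      unfold lev
      rw [div_mul_cancel_left₀ hs0.ne', one_div, inv_pow]
    obtain ⟨⟨hg', -, hvv, -, hGG⟩, hfield⟩ : (Gro C' (rsm 0 t μ) ∧
      (∀ r y, 0 < r → th (rsm 0 t μ) r y = th μ (t * r) (0 + t • y)) ∧
      (∀ r y, 0 < r → vv (rsm 0 t μ) r y = vv μ (t * r) (0 + t • y)) ∧ _ ∧ _) ∧ _ :=
      ⟨(hSC 0 t ht0).1 μ hμ, (hSC 0 t ht0).2.1⟩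
    obtain ⟨hfl, hDD, -⟩ := hfield E M c b hb2 ε hε (by linarith) f hf hf' s0 hs0
    set μ' : Measure (Sp d) := rsm 0 t μ with hμ'
    set f' : Sp d → E := rs 0 t f with hf0
    have hf'e : ∀ y, f' y = t • f (t • y) := fun y => by
      rw [hf0]
      unfold rs
      rw [zero_add]
    have hfc : Continuous f' := by
      have : f' = fun y => t • f (t • y) := funext hf'e
      rw [this]
      fun_prop
    have hfcs : HasCompactSupport f' := by
      obtain ⟨ρ, hρ0, hρ⟩ := cs_bd hf'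
      refine cs_of (ρ := ρ / t) fun y hy => ?_
      rw [hf'e, hρ, smul_zero]
      rw [norm_smul, Real.norm_of_nonneg ht0.le]
      rwa [div_lt_iff₀ ht0, mul_comm] at hy
    obtain ⟨hth, hsm, -⟩ := hTH μ' hg'
    have hv : ∀ y, vv μ' 1 y ≤ Cv := fun y => Real.sqrt_le_sqrt (hth 1 y one_pos).2
    obtain ⟨hP1, hP2, -⟩ := hPO μ' hg' ((1 / 2) ^ i) (by positivity)
    have hU := unit_level hd hε hε4 hR hb hCP hCD hB hN hN20 (by rw [hN2]; linarith only []) hsm hv hi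
      (fun y => hP1 i y (by omega)) (fun y => hP2 i y hi) hfc hfcs
      (fun e e' h1 h2 x x' Y a1 a2 a3 a4 a5 => hDI E f' hfc hfcs R hR3 i e e' h1 h2 x x' Y a1 a2 a3
        a4 a5) (he i)
    -- rescaling
    have hvv' : ∀ r y, 0 < r → vv μ' r y = vv μ (t * r) (t • y) := fun r y hr => by
      rw [hvv r y hr, zero_add]
    have hgk : ∀ y, gk b ε μ' ((1 / 2) ^ i) i y = gk b ε μ s0 i (t • y) := fun y => by
      rw [← hst]
      exact gk_scale ht0 hs0 hvv' i y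
    have hGG' : ∀ y, GG (KN b (i - 2)) ε μ' 1 y = GG (KN b (i - 2)) ε μ t (t • y) := fun y => by
      have := (hGG 4 M (KN b (i - 2)) (hb.kit _) (by norm_num) ε hε (by linarith) 1 y one_pos).1
      rw [this, mul_one, zero_add]
    have hfl' : ∀ y, fl b ε ((1 / 2) ^ i) f' (i - 1) y = t • fl b ε s0 f (i - 1) (t • y) := fun y => by
      rw [← hst, hfl (i - 1) y, zero_add]
    have hDD' : ∀ p, DD b ε R ((1 / 2) ^ i) f' i (lat p) (e i p) =
        DD b ε R s0 f i (cen s0 i p) (e i p) := fun p => by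
      rw [← hst, hDD R i (lat p) (e i p), zero_add]
      rfl
    have hint : ∀ Φ : Sp d → ℝ, ∫ y, t * Φ (t • y) = t * ((t ^ d)⁻¹ * ∫ y, Φ y) := by
      intro Φ
      rw [integral_const_mul, Measure.integral_comp_smul volume Φ t, finrank_euclideanSpace_fin,
        abs_of_pos (by positivity), smul_eq_mul]
    have e1 : ∀ p, ∫ y, ch p y * ⟪f' y, e i p⟫_ℝ * GG (KN b (i - 2)) ε μ' 1 y =
        t * (t ^ d)⁻¹ * ∫ y, chiQ (cen s0 i p) t y * ⟪f y, e i p⟫_ℝ * GG (KN b (i - 2)) ε μ t y := by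
      intro p
      rw [mul_assoc, ← hint]
      congr 1
      ext y
      have hc : chiQ (cen s0 i p) t (t • y) = ch p y := by
        unfold chiQ cen ch
        rw [← ht, ← smul_sub, smul_smul, one_div, inv_mul_cancel₀ ht0.ne', one_smul]
      rw [hc, hf'e, hGG', real_inner_smul_left]
      ring
    have e2 : ∫ y, ‖fl b ε ((1 / 2) ^ i) f' (i - 1) y‖ * gk b ε μ' ((1 / 2) ^ i) i y =
        t * (t ^ d)⁻¹ * ∫ y, ‖fl b ε s0 f (i - 1) y‖ * gk b ε μ s0 i y := by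
      rw [mul_assoc, ← hint]
      congr 1
      ext y
      rw [hfl', hgk, norm_smul, Real.norm_of_nonneg ht0.le]
      ring
    have e3 : ∫ y, ‖f' y‖ = t * (t ^ d)⁻¹ * ∫ y, ‖f y‖ := by
      rw [mul_assoc, ← hint]
      congr 1
      ext y
      rw [hf'e, norm_smul, Real.norm_of_nonneg ht0.le]
    simp only [e1, e2, e3, hDD'] at hU
    rw [tsum_mul_left] at hU
    have htd : t ^ d = t ^ (d - 1) * t := by
      rw [← pow_succ]
      congr 1
      omega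
    have hq : t ^ (d - 1) * (t * (t ^ d)⁻¹) = 1 := by
      rw [htd]
      field_simp
    have hmul := mul_le_mul_of_nonneg_left hU (by positivity : (0 : ℝ) ≤ t ^ (d - 1))
    rw [tsum_mul_left]
    have e4 : ∀ X : ℝ, t ^ (d - 1) * (t * (t ^ d)⁻¹ * X) = X := fun X => by
      rw [← mul_assoc, hq, one_mul]
    rw [e4] at hmul
    refine hmul.trans (le_of_eq ?_)
    rw [mul_add, mul_add, e4]
    have e5 : t ^ (d - 1) * (CP * (1 / 4) ^ i * Cv * (t * (t ^ d)⁻¹ * ∫ y, ‖f y‖)) =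
        CP * (1 / 4) ^ i * Cv * ∫ y, ‖f y‖ := by
      rw [← e4 (CP * (1 / 4) ^ i * Cv * ∫ y, ‖f y‖)]
      ring
    rw [e5]
    ring
  -- summation
  have hsum := Finset.sum_le_sum fun i (hi : i ∈ Finset.Ico 2 I) =>
    hlevel i (Finset.mem_Ico.mp hi).1
  refine hsum.trans ?_
  rw [Finset.sum_add_distrib, Finset.sum_add_distrib, ← Finset.mul_sum]
  have hP3 := (hPO μ hμ s0 hs0).2.2 E f hf hf' I
  have hf0 : 0 ≤ ∫ y, ‖f y‖ := integral_nonneg fun y => norm_nonneg _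
  have hg1 : ∑ i ∈ Finset.Ico 2 I, CP * (1 / 4) ^ i * Cv * (∫ y, ‖f y‖) ≤
      2 * (CP * Cv) * ∫ y, ‖f y‖ := by
    have e1 : ∑ i ∈ Finset.Ico 2 I, CP * (1 / 4) ^ i * Cv * (∫ y, ‖f y‖) =
        (CP * Cv * ∫ y, ‖f y‖) * ∑ i ∈ Finset.Ico 2 I, (1 / 4 : ℝ) ^ i := by
      rw [Finset.mul_sum]
      refine Finset.sum_congr rfl fun i _ => ?_
      ring
    rw [e1]
    have h5 := mul_le_mul_of_nonneg_left (geo_le I) (by positivity : 0 ≤ CP * Cv * ∫ y, ‖f y‖)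
    linarith only [h5]
  have hD0 : 0 ≤ ∑ i ∈ Finset.Ico 2 I, ∑' p : Fin d → ℤ,
      lev s0 i ^ (d - 1) * DD b ε R s0 f i (cen s0 i p) (e i p) :=
    Finset.sum_nonneg fun i _ => tsum_nonneg fun p => mul_nonneg
      (pow_nonneg (lev_pos hs0 i).le _) (DD_nonneg b ε R hs0 f i _ (he i p))
  set S : ℝ := ∑ i ∈ Finset.Ico 2 I, ∑' p : Fin d → ℤ,
      lev s0 i ^ (d - 1) * DD b ε R s0 f i (cen s0 i p) (e i p) with hS
  have h6 : 0 ≤ CL * ∫ y, ‖f y‖ := by (clear * - hCP hCT hN0 hε hB0 hCD; positivity)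
  have h7 : 0 ≤ (CP + 2 * (CP * Cv)) * S := by (clear * - hCP hCT hD0; positivity)
  linarith only [hP3, hg1, h6, h7]

end

end TG


end
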