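import Mathlib
import Pool.Agent.TRM.C02
import Pool.Agent.TRM.C04
import Pool.Agent.TRM.C08
import Pool.Agent.TRM.C10
import Pool.Agent.TRM.C11
import Pool.Agent.TRM.C13
import Pool.Agent.TRM.C14
import Pool.Agent.TRM.C38

/-! Parts: TG.SAFf, TG.SAFg, TG.SA7, TG.SAFh, TG.SAFi, TG.SH2, TG.SAF2, TG.SAF, TG.SS2, TG.SA8, TG.SAS, TG.SS3 -/

section

/-!
# Module SAF: frames (base frame and frame of level 2) (helper95)
-/

open MeasureTheory Metric Set TrI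
open scoped InnerProductSpace ContDiff

namespace TG

namespace SAFm

noncomputable section

open TU

variable {d : ℕ}

/-- plane integrals in a frame -/
lemma plInt_frame (hd : 1 ≤ d) {ν : Sp d} (hν : ‖ν‖ = 1) (c : ℝ) (x : Sp d) {t : ℝ} (ht : 0 < t)
    (F : Sp d → ℝ) :
    plInt ν c F = t ^ (d - 1) * plInt ν ((c - ⟪ν, x⟫_ℝ) / t) (fun y => F (x + t • y)) := by
  obtain ⟨n, rfl⟩ : ∃ n, d = n + 1 := ⟨d - 1, by omega⟩
  obtain ⟨i, _, _, hi⟩ := GE.param ν hν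
  have h1 := hi (c • ν) F
  have e1 : ⟪ν, c • ν⟫_ℝ = c := by
    rw [inner_smul_right, real_inner_self_eq_norm_sq, hν]
    ring
  rw [e1] at h1
  have h2 := hi ((1 / t) • (c • ν - x)) (fun y => F (x + t • y))
  have e2 : ⟪ν, (1 / t) • (c • ν - x)⟫_ℝ = (c - ⟪ν, x⟫_ℝ) / t := by
    rw [inner_smul_right, inner_sub_right, e1]
    ring
  rw [e2] at h2
  have e3 : (fun v => F (x + t • ((1 / t) • (c • ν - x) + i v))) =
      fun v => (fun v => F (c • ν + i v)) (t • v) := by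
    funext v
    simp only
    congr 1
    rw [smul_add, smul_smul, mul_one_div_cancel ht.ne', one_smul, map_smul]
    abel
  rw [h1, h2, e3, Measure.integral_comp_smul_of_nonneg volume (fun v => F (c • ν + i v)) t
    (hR := ht.le), finrank_euclideanSpace_fin, smul_eq_mul, ← mul_assoc]
  have : t ^ (n + 1 - 1) * (t ^ n)⁻¹ = 1 := by
    rw [Nat.add_sub_cancel]
    exact mul_inv_cancel₀ (by positivity)
  rw [this, one_mul]

section E

variable {E : Type} [NormedAddCommGroup E] [InnerProductSpace ℝ E]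

lemma int_frame (hd : 1 ≤ d) (f : Sp d → E) (e : E) (x : Sp d) {t : ℝ} (ht : 0 < t)
    (ζ : Sp d → ℝ) :
    ∫ y, ⟪f y, e⟫_ℝ * ζ y = t ^ (d - 1) * ∫ y, ⟪rs x t f y, e⟫_ℝ * ζ (x + t • y) := by
  rw [frame_int f e x ht ζ]
  have h1 : t ^ (d - 1) * (t / t ^ d) = 1 := by
    obtain ⟨n, rfl⟩ : ∃ n, d = n + 1 := ⟨d - 1, by omega⟩
    rw [Nat.add_sub_cancel, pow_succ]
    field_simp
  rw [← mul_assoc, h1, one_mul]

lemma rs_cont {f : Sp d → E} (hf : Continuous f) (x : Sp d) (t : ℝ) : Continuous (rs x t f) := by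
  unfold rs
  fun_prop

lemma rs_cs {f : Sp d → E} (hf : HasCompactSupport f) (x : Sp d) {t : ℝ} (ht : t ≠ 0) :
    HasCompactSupport (rs x t f) := by
  unfold rs
  have h1 : HasCompactSupport (fun y : Sp d => f (x + t • y)) := by
    have := hf.comp_homeomorph ((Homeomorph.smulOfNeZero t ht).trans (Homeomorph.addLeft x))
    refine (congrArg HasCompactSupport ?_).mp this
    funext y
    rfl
  exact h1.smul_left (f := fun _ => t)

end E

lemma tower_le {E : Type} [NormedAddCommGroup E] {x : ℕ → Sp d} {e : ℕ → E} (h : Tower x e) :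
    ‖x 1‖ ≤ Real.sqrt d ∧ ‖x 2 - x 1‖ ≤ 2 * Real.sqrt d ∧ ‖x 2‖ ≤ 3 * Real.sqrt d := by
  have h1 := h.step 0
  have h2 := h.step 1
  rw [h.zero, sub_zero, pow_zero, mul_one] at h1
  rw [pow_one] at h2
  refine ⟨h1, by linarith, ?_⟩
  have h3 := norm_add_le (x 2 - x 1) (x 1)
  rw [sub_add_cancel] at h3
  norm_num at h1 h2 h3 ⊢
  linarith

/-! ## scaling of the functionals -/

lemma half_pow (n r : ℕ) : ((1 : ℝ) / 2) ^ n / 2 ^ r = (1 / 2) ^ (n + r) := by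
  rw [pow_add, one_div_pow (2 : ℝ) r]
  ring

section Sca

variable {E : Type} [NormedAddCommGroup E] [InnerProductSpace ℝ E] [FiniteDimensional ℝ E]

lemma DD_fr (hSC : StmtSC) (hd : 2 ≤ d) {M c0 ε : ℝ} (hε : 0 < ε) (hε1 : ε ≤ 1) {b : Sp d → ℝ}
    (hb : BaseKer 2 M c0 b) {f : Sp d → E} (hf : Continuous f) (hfc : HasCompactSupport f)
    (n r : ℕ) (x : Sp d) (R : ℝ) (i : ℕ) (y : Sp d) (e : E) :
    DD b ε R ((1 / 2) ^ (n + r)) (rs x (2 ^ r) f) i y e =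
      DD b ε R ((1 / 2) ^ n) f i (x + (2 : ℝ) ^ r • y) e := by
  have h := ((hSC d hd 1 one_pos x (2 ^ r) (by positivity)).2.1 E M c0 b hb ε hε hε1 f hf hfc
    ((1 / 2) ^ n) (by positivity)).2.1 R i y e
  rwa [half_pow] at h

lemma ma_fr (hSC : StmtSC) (hd : 2 ≤ d) {M c0 ε : ℝ} (hε : 0 < ε) (hε1 : ε ≤ 1) {b : Sp d → ℝ}
    (hb : BaseKer 2 M c0 b) {f : Sp d → E} (hf : Continuous f) (hfc : HasCompactSupport f)
    (n r : ℕ) (x : Sp d) (R : ℝ) (i : ℕ) (y : Sp d) :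
    ma b ε R ((1 / 2) ^ (n + r)) (rs x (2 ^ r) f) i y =
      ma b ε R ((1 / 2) ^ n) f i (x + (2 : ℝ) ^ r • y) := by
  have h := ((hSC d hd 1 one_pos x (2 ^ r) (by positivity)).2.1 E M c0 b hb ε hε hε1 f hf hfc
    ((1 / 2) ^ n) (by positivity)).2.2 R i y
  rwa [half_pow] at h

lemma bb_fr (hSD : StmtSD) (hd : 2 ≤ d) {f : Sp d → E} (hf : Continuous f)
    (hfc : HasCompactSupport f) (n r : ℕ) (x : Sp d) (ρ : ℝ) (i : ℕ) (e : E) (ν : Sp d)
    (c : ℝ) :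
    bb ρ ((1 / 2) ^ (n + r)) (rs x (2 ^ r) f) i 0 e ν ((c - ⟪ν, x⟫_ℝ) / 2 ^ r) =
      bb ρ ((1 / 2) ^ n) f i x e ν c := by
  have h := hSD.2 d E f (by omega) hf hfc x (2 ^ r) (by positivity) ρ ((1 / 2) ^ n) i 0 e ν
    ((c - ⟪ν, x⟫_ℝ) / 2 ^ r) (by positivity)
  rw [half_pow] at h
  rw [h, smul_zero, add_zero]
  congr 1
  have : (2 : ℝ) ^ r ≠ 0 := by positivity
  field_simp
  ring

lemma bD_fr (hSC : StmtSC) (hSD : StmtSD) (hd : 2 ≤ d) {M c0 ε : ℝ} (hε : 0 < ε) (hε1 : ε ≤ 1)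
    {b : Sp d → ℝ} (hb : BaseKer 2 M c0 b) {f : Sp d → E} (hf : Continuous f)
    (hfc : HasCompactSupport f) (n r : ℕ) (x : Sp d) (R0 R : ℝ) (e : E) (ν : Sp d) (c : ℝ) :
    bD b ε R0 R ((1 / 2) ^ (n + r)) (rs x (2 ^ r) f) (n + r) 0 e ν ((c - ⟪ν, x⟫_ℝ) / 2 ^ r) =
      bD b ε R0 R ((1 / 2) ^ n) f (n + r) x e ν c := by
  unfold bD
  rw [bb_fr hSD hd hf hfc, DD_fr hSC hd hε hε1 hb hf hfc, smul_zero, add_zero]

end Sca

/-! ## direction change and mass in the base frame -/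

/-- change of direction between the levels 0 and 2 -/
lemma dirch (hTW : StmtTW) (hSC : StmtSC) (hd : 2 ≤ d) {M c0 ε : ℝ} (hε : 0 < ε) (hε1 : ε ≤ 1)
    {b : Sp d → ℝ} (hb : BaseKer 2 M c0 b) {R0 : ℝ} (hR0 : 100 + 8 * d ≤ R0) :
    ∃ C : ℝ, 0 < C ∧
    ∀ (E : Type) [NormedAddCommGroup E] [InnerProductSpace ℝ E] [FiniteDimensional ℝ E],
    ∀ (R : ℝ), 4 * R0 + 10 ≤ R → ∀ f : Sp d → E, Continuous f → HasCompactSupport f →
    ∀ (n : ℕ) (x : ℕ → Sp d) (e : ℕ → E), Tower x e →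
      ∀ (ζ : Sp d → ℝ) (N : ℝ), TFn 2 N ζ → (∀ y, R - 1 ≤ ‖y‖ → ζ y = 0) →
        |∫ y, ⟪f y, e 0 - e 2⟫_ℝ * ζ y| ≤ C * N *
          (DD b ε R ((1 / 2) ^ n) f n 0 (e 0) + DD b ε R ((1 / 2) ^ n) f (n + 2) (x 2) (e 2)) := by
  obtain ⟨C, hC, h⟩ := hTW d (by omega) M c0 ε hε hε1 b hb R0 hR0
  refine ⟨C * (1 + C), by positivity, ?_⟩
  intro E _ _ _ R hR f hf hfc n x e hT ζ N hζ hs
  obtain ⟨hx1, hx2, hx3⟩ := tower_le hT
  have h1 := (h E R hR f hf hfc n (x 1) (e 0) (e 2) hx1 (hT.unit 0) (hT.unit 2)).2.1 ζ N hζ hs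
  have h2 := (h E R hR (rs (x 1) (2 ^ 1) f) (rs_cont hf _ _) (rs_cs hfc _ (by norm_num)) (n + 1)
    ((1 / 2 : ℝ) • (x 2 - x 1)) (e 2) (e 2) (by
      rw [norm_smul]
      norm_num
      linarith) (hT.unit 2) (hT.unit 2)).1
  rw [DD_fr hSC hd hε hε1 hb hf hfc, DD_fr hSC hd hε hε1 hb hf hfc, smul_zero, add_zero,
    pow_one, smul_smul] at h2
  norm_num at h2
  have hN := TFn_nonneg hζ
  have hD0 := DD_nonneg b ε R (by positivity : (0 : ℝ) < (1 / 2) ^ n) f n 0 (hT.unit 0)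
  have hD2 := DD_nonneg b ε R (by positivity : (0 : ℝ) < (1 / 2) ^ n) f (n + 2) (x 2) (hT.unit 2)
  have e1 : n + 1 + 1 = n + 2 := rfl
  rw [e1] at h2
  norm_num at hD0 hD2 h1 ⊢
  refine h1.trans ?_
  have h3 : 0 ≤ C * N := by positivity
  have h4 : 0 ≤ C * N * C := by positivity
  nlinarith only [h2, h3, hD0, h4, hD2]

lemma sqrt_le_d (hd : 1 ≤ d) : Real.sqrt d ≤ d := by
  have hd1 : (1 : ℝ) ≤ d := by exact_mod_cast hd
  rw [Real.sqrt_le_left (by positivity)]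
  nlinarith only [hd1]

section Unit

variable {E : Type} [NormedAddCommGroup E] [InnerProductSpace ℝ E]

lemma lev_u (n : ℕ) : lev ((1 / 2 : ℝ) ^ n) n = 1 := by
  unfold lev
  rw [← mul_pow]
  norm_num

lemma ma_u (b : Sp d → ℝ) (ε R : ℝ) (n : ℕ) (f : Sp d → E) :
    ma b ε R ((1 / 2) ^ n) f n 0 = ∫ y in ball (0 : Sp d) R, ‖fl b ε ((1 / 2) ^ n) f (n - 1) y‖ := by
  unfold ma
  rw [lev_u]
  simp

end Unit

/-- the mass in a unit frame -/
lemma mass_unit (hMA : StmtMA) (hd : 1 ≤ d) {M c0 ε : ℝ} (hε : 0 < ε) (hε1 : ε ≤ 1)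
    {b : Sp d → ℝ} (hb : BaseKer 2 M c0 b) :
    ∃ C : ℝ, 0 < C ∧
    ∀ (E : Type) [NormedAddCommGroup E] [InnerProductSpace ℝ E] [FiniteDimensional ℝ E],
    ∀ (R0 R : ℝ), 10 ≤ R0 → R0 + 10 ≤ R → ∀ f : Sp d → E, Continuous f → HasCompactSupport f →
    ∀ (n : ℕ) (e : E), ‖e‖ = 1 →
      ∀ (ζ : Sp d → ℝ) (N : ℝ), TFn 2 N ζ → (∀ y, R0 - 1 ≤ ‖y‖ → ζ y = 0) →
        |∫ y, ⟪f y, e⟫_ℝ * ζ y| ≤ C * N *
          (ma b ε R0 ((1 / 2) ^ n) f n 0 + DD b ε R ((1 / 2) ^ n) f n 0 e) := by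
  obtain ⟨C, hC, h⟩ := MA' hMA hd hε hε1 hb
  refine ⟨C, hC, ?_⟩
  intro E _ _ _ R0 R hR0 hR f hf hfc n e he ζ N hζ hs
  have h1 := (h E f hf hfc R (by linarith) n e he 0 (ball 0 R0) measurableSet_ball).1 ζ N hζ
    (fun y hy => hs y (by rw [sub_zero] at hy; linarith)) (fun y z hy hz => by
      have h2 : ‖y‖ < R0 - 1 := by
        by_contra hh
        exact hy (hs y (not_lt.1 hh))
      rw [mem_ball, dist_zero_right]
      have h3 := norm_add_le (z - y) y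
      rw [sub_add_cancel] at h3
      linarith)
  rw [ma_u]
  exact h1

/-- transfer of integrals to the frame of level 2 -/
lemma transfer (hTW : StmtTW) (hSC : StmtSC) (hd : 2 ≤ d) {M c0 ε : ℝ} (hε : 0 < ε) (hε1 : ε ≤ 1)
    {b : Sp d → ℝ} (hb : BaseKer 2 M c0 b) {R0 : ℝ} (hR0 : 100 + 8 * d ≤ R0) :
    ∃ C : ℝ, 0 < C ∧
    ∀ (E : Type) [NormedAddCommGroup E] [InnerProductSpace ℝ E] [FiniteDimensional ℝ E],
    ∀ (R : ℝ), 4 * R0 + 10 ≤ R → ∀ f : Sp d → E, Continuous f → HasCompactSupport f →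
    ∀ (n : ℕ) (x : ℕ → Sp d) (e : ℕ → E), Tower x e →
      ∀ (ζ : Sp d → ℝ) (N : ℝ), TFn 2 N ζ → (∀ y, R - 1 ≤ ‖y‖ → ζ y = 0) →
        |(∫ y, ⟪f y, e 0⟫_ℝ * ζ y) -
          4 ^ (d - 1) * ∫ y, ⟪rs (x 2) 4 f y, e 2⟫_ℝ * ζ (x 2 + (4 : ℝ) • y)| ≤ C * N *
          (DD b ε R ((1 / 2) ^ n) f n 0 (e 0) + DD b ε R ((1 / 2) ^ n) f (n + 2) (x 2) (e 2)) := by
  obtain ⟨C, hC, h⟩ := dirch hTW hSC hd hε hε1 hb hR0
  refine ⟨C, hC, ?_⟩
  intro E _ _ _ R hR f hf hfc n x e hT ζ N hζ hs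
  have h1 := h E R hR f hf hfc n x e hT ζ N hζ hs
  rw [← int_frame (by omega) f (e 2) (x 2) (by norm_num : (0 : ℝ) < 4) ζ]
  have i1 := SS.integrable_m hf hfc (e 0) hζ.smooth.continuous
  have i2 := SS.integrable_m hf hfc (e 2) hζ.smooth.continuous
  have e1 : ∫ y, ⟪f y, e 0 - e 2⟫_ℝ * ζ y =
      (∫ y, ⟪f y, e 0⟫_ℝ * ζ y) - ∫ y, ⟪f y, e 2⟫_ℝ * ζ y := by
    rw [← integral_sub i1 i2]
    congr 1
    funext y
    rw [inner_sub_right]
    ring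
  rw [← e1]
  exact h1

/-- the mass in the base frame is bounded by the mass of level 2 -/
lemma mass_base (hTW : StmtTW) (hSC : StmtSC) (hMA : StmtMA) (hd : 2 ≤ d) {M c0 ε : ℝ}
    (hε : 0 < ε) (hε1 : ε ≤ 1)
    {b : Sp d → ℝ} (hb : BaseKer 2 M c0 b) {R0 : ℝ} (hR0 : 100 + 8 * d ≤ R0) :
    ∃ C : ℝ, 0 < C ∧
    ∀ (E : Type) [NormedAddCommGroup E] [InnerProductSpace ℝ E] [FiniteDimensional ℝ E],
    ∀ (R : ℝ), 4 * R0 + 10 ≤ R → ∀ f : Sp d → E, Continuous f → HasCompactSupport f →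
    ∀ (n : ℕ) (x : ℕ → Sp d) (e : ℕ → E), Tower x e →
      ∀ (ζ : Sp d → ℝ) (N : ℝ), TFn 2 N ζ → (∀ y, 2 * R0 ≤ ‖y‖ → ζ y = 0) →
        |∫ y, ⟪f y, e 0⟫_ℝ * ζ y| ≤ C * N *
          (ma b ε R0 ((1 / 2) ^ n) f (n + 2) (x 2) + DD b ε R ((1 / 2) ^ n) f n 0 (e 0) +
            DD b ε R ((1 / 2) ^ n) f (n + 2) (x 2) (e 2)) := by
  obtain ⟨C, hC, h⟩ := transfer hTW hSC hd hε hε1 hb hR0
  obtain ⟨C1, hC1, h1⟩ := mass_unit hMA (by omega : 1 ≤ d) hε hε1 hb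
  refine ⟨C + 4 ^ (d - 1) * (C1 * 16), by positivity, ?_⟩
  intro E _ _ _ R hR f hf hfc n x e hT ζ N hζ hs
  have hd0 : (0 : ℝ) ≤ d := by positivity
  have k1 := h E R hR f hf hfc n x e hT ζ N hζ (fun y hy => hs y (by linarith))
  have k2 := h1 E R0 R (by linarith) (by linarith) (rs (x 2) 4 f) (rs_cont hf _ _)
    (rs_cs hfc _ (by norm_num)) (n + 2) (e 2) (hT.unit 2) (fun y => ζ (x 2 + (4 : ℝ) • y))
    (max 1 |(4 : ℝ)| ^ 2 * N) (TFn_aff hζ (x 2) (by norm_num)) (fun y hy => hs _ (by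
      obtain ⟨_, _, hx⟩ := tower_le hT
      have h3 := norm_sub_norm_le ((4 : ℝ) • y) (-(x 2))
      rw [norm_neg, sub_neg_eq_add, add_comm, norm_smul] at h3
      norm_num at h3
      have := sqrt_le_d (d := d) (by omega)
      linarith))
  have e4 : (2 : ℝ) ^ 2 = 4 := by norm_num
  have hm := ma_fr hSC hd hε hε1 hb hf hfc n 2 (x 2) R0 (n + 2) 0
  have hD := DD_fr hSC hd hε hε1 hb hf hfc n 2 (x 2) R (n + 2) 0 (e 2)
  rw [smul_zero, add_zero, e4] at hm hD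
  rw [hm, hD] at k2
  have hN := TFn_nonneg hζ
  have hD0 := DD_nonneg b ε R (by positivity : (0 : ℝ) < (1 / 2) ^ n) f n 0 (hT.unit 0)
  have hD2 := DD_nonneg b ε R (by positivity : (0 : ℝ) < (1 / 2) ^ n) f (n + 2) (x 2) (hT.unit 2)
  have hm2 := ma_nonneg b ε R0 (by positivity : (0 : ℝ) < (1 / 2) ^ n) f (n + 2) (x 2)
  generalize DD b ε R ((1 / 2) ^ n) f n 0 (e 0) = D0 at *
  generalize DD b ε R ((1 / 2) ^ n) f (n + 2) (x 2) (e 2) = D2 at *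
  generalize ma b ε R0 ((1 / 2) ^ n) f (n + 2) (x 2) = mm at *
  generalize (∫ y, ⟪rs (x 2) 4 f y, e 2⟫_ℝ * ζ (x 2 + (4 : ℝ) • y)) = X at *
  generalize (∫ y, ⟪f y, e 0⟫_ℝ * ζ y) = Y at *
  have e5 : max 1 |(4 : ℝ)| ^ 2 = 16 := by norm_num
  rw [e5] at k2
  have hP : (0 : ℝ) < 4 ^ (d - 1) := by positivity
  generalize ((4 : ℝ) ^ (d - 1)) = P at *
  have k3 : |Y| ≤ |Y - P * X| + P * |X| := by
    have := abs_add_le (Y - P * X) (P * X)
    rwa [sub_add_cancel, abs_mul, abs_of_pos hP] at this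
  have k4 := mul_le_mul_of_nonneg_left k2 hP.le
  have k5 : 0 ≤ C * N * mm := by positivity
  have k6 : 0 ≤ P * (C1 * 16) * N * D0 := by positivity
  calc |Y| ≤ |Y - P * X| + P * |X| := k3
    _ ≤ C * N * (D0 + D2) + P * (C1 * (16 * N) * (mm + D2)) := add_le_add k1 k4
    _ ≤ _ := by nlinarith

end

end SAFm

end TG


end

section

/-!
# Module SAF: the sheet data in the frame of level 2 (helper95)
-/

open MeasureTheory Metric Set TrI
open scoped InnerProductSpace ContDiff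

namespace TG

namespace SAFm

noncomputable section

open TU

variable {d : ℕ}

/-! ## single terms of the sum -/

lemma bD_nn {E : Type} [NormedAddCommGroup E] [InnerProductSpace ℝ E] (b : Sp d → ℝ)
    (ε R0 R : ℝ) (n i : ℕ) (f : Sp d → E) (x : Sp d) {e : E} (he : ‖e‖ = 1) (ν : Sp d) (c : ℝ) :
    0 ≤ bD b ε R0 R ((1 / 2) ^ n) f i x e ν c := by
  unfold bD
  exact add_nonneg (le_max_left _ _) (DD_nonneg b ε R (by positivity) f i x he)

lemma DD_le_bD {E : Type} [NormedAddCommGroup E] [InnerProductSpace ℝ E] (b : Sp d → ℝ)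
    (ε R0 R : ℝ) (n i : ℕ) (f : Sp d → E) (x : Sp d) (e : E) (ν : Sp d) (c : ℝ) :
    DD b ε R ((1 / 2) ^ n) f i x e ≤ bD b ε R0 R ((1 / 2) ^ n) f i x e ν c := by
  unfold bD
  linarith [le_max_left 0 (bb R0 ((1 / 2) ^ n) f i x e ν c)]

lemma term_le {β : ℕ → ℝ} (h0 : ∀ r, 0 ≤ β r) {B : ℝ}
    (h : ∀ I : ℕ, ∑ r ∈ Finset.range I, (1 / 2 : ℝ) ^ r * β r ≤ B) (r : ℕ) :
    β r ≤ 2 ^ r * B := by
  have h1 := h (r + 1)
  have h2 : (1 / 2 : ℝ) ^ r * β r ≤ ∑ r ∈ Finset.range (r + 1), (1 / 2 : ℝ) ^ r * β r :=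
    Finset.single_le_sum (f := fun r => (1 / 2 : ℝ) ^ r * β r)
      (fun i _ => mul_nonneg (by positivity) (h0 i)) (Finset.mem_range.2 (by omega))
  have h3 := mul_le_mul_of_nonneg_left (h2.trans h1) (by positivity : (0 : ℝ) ≤ 2 ^ r)
  have h4 : (2 : ℝ) ^ r * ((1 / 2) ^ r * β r) = β r := by
    rw [← mul_assoc, ← mul_pow]
    norm_num
  rwa [h4] at h3

section Fo

variable {V E : Type} [NormedAddCommGroup V] [InnerProductSpace ℝ V] [FiniteDimensional ℝ V]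
  [NormedAddCommGroup E] [InnerProductSpace ℝ E] [FiniteDimensional ℝ E]

omit [FiniteDimensional ℝ V] [FiniteDimensional ℝ E] in
lemma TU_fo_cont (L : (Sp d →L[ℝ] V) →L[ℝ] E) {u : Sp d → V} (hu : TF u) :
    Continuous (fo L u) := by
  unfold fo
  exact L.continuous.comp (hu.smooth.continuous_fderiv (by simp))

omit [FiniteDimensional ℝ V] [FiniteDimensional ℝ E] in
lemma TU_fo_cs (L : (Sp d →L[ℝ] V) →L[ℝ] E) {u : Sp d → V} (hu : TF u) :
    HasCompactSupport (fo L u) := by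
  unfold fo
  exact (hu.supp.fderiv (𝕜 := ℝ)).comp_left (map_zero L)

end Fo

/-! ## the jump polynomial -/

section JJs

variable {V : Type} [NormedAddCommGroup V] [InnerProductSpace ℝ V] [FiniteDimensional ℝ V]

lemma JJ_cont (hd : 1 ≤ d) (m : ℕ) (ν q : Sp d) {r : ℝ} (hr : 0 < r) {u : Sp d → V}
    (hu : ContDiff ℝ ∞ u) : Continuous (JJ m ν q r u) := by
  obtain ⟨h1, _, _⟩ := stmtTQ d V m u hd hu (q + (6 * r) • ν) r hr
  obtain ⟨h3, _, _⟩ := stmtTQ d V m u hd hu (q - (6 * r) • ν) r hr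
  exact h1.continuous.sub h3.continuous

end JJs

/-- replacing the jump by its value -/
lemma jump_const (hd : 1 ≤ d) {R0 : ℝ} (hR0 : 100 ≤ R0) : ∃ P : ℝ, 0 < P ∧
    ∀ (V : Type) [NormedAddCommGroup V] [InnerProductSpace ℝ V],
    ∀ (g : Sp d → V), Continuous g → ∀ (v0 : V) (β C : ℝ), 0 ≤ β → 0 ≤ C →
      (∀ y, ‖y‖ ≤ R0 → ‖g y - v0‖ ≤ β) →
    ∀ (l0 : V →L[ℝ] ℝ) (l1 : V →L[ℝ] Sp d), ‖l0‖ ≤ C → ‖l1‖ ≤ C →
    ∀ (ν : Sp d) (c : ℝ), ‖ν‖ = 1 → |c| ≤ R0 / 3 →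
    ∀ (ψ : Sp d → ℝ) (Y : Sp d → Sp d) (N : ℝ), Continuous ψ → Continuous Y → (∀ y, |ψ y| ≤ N) →
      (∀ y, ‖Y y‖ ≤ N) → Cyl ν (R0 / 2) ψ → Cyl ν (R0 / 2) Y →
      |plInt ν c (fun y => l0 (g y) * ψ y + ⟪l1 (g y), Y y⟫_ℝ) -
        (l0 v0 * plInt ν c ψ + plInt ν c (fun y => ⟪l1 v0, Y y⟫_ℝ))| ≤ P * (C * β * N) := by
  obtain ⟨P, hP, h⟩ := SAm.plInt_bound (d := d) hd (R0 / 2)
  refine ⟨2 * P, by positivity, ?_⟩
  intro V _ _ g hg v0 β C hβ hC hgv l0 l1 hl0 hl1 ν c hν hc ψ Y N hψ hY hψN hYN hψC hYC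
  have hN : 0 ≤ N := (abs_nonneg _).trans (hψN 0)
  have s1 : ∀ y, l0 (g y) * ψ y + ⟪l1 (g y), Y y⟫_ℝ ≠ 0 → ‖tang ν y‖ ≤ R0 / 2 := by
    intro y hy
    by_contra hh
    refine hy ?_
    have e1 : ψ y = 0 := by
      by_contra h2
      exact hh (hψC.supp y h2)
    have e2 : Y y = 0 := by
      by_contra h2
      exact hh (hYC.supp y h2)
    rw [e1, e2, mul_zero, inner_zero_right, add_zero]
  have s2 : ∀ y, l0 v0 * ψ y ≠ 0 → ‖tang ν y‖ ≤ R0 / 2 := fun y hy =>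
    hψC.supp y (right_ne_zero_of_mul hy)
  have s3 : ∀ y, ⟪l1 v0, Y y⟫_ℝ ≠ 0 → ‖tang ν y‖ ≤ R0 / 2 := fun y hy =>
    hYC.supp y (fun h2 => hy (by rw [h2, inner_zero_right]))
  have s4 : ∀ y, l0 v0 * ψ y + ⟪l1 v0, Y y⟫_ℝ ≠ 0 → ‖tang ν y‖ ≤ R0 / 2 := by
    intro y hy
    by_contra hh
    refine hy ?_
    have e1 : l0 v0 * ψ y = 0 := by
      by_contra h2
      exact hh (s2 y h2)
    have e2 : ⟪l1 v0, Y y⟫_ℝ = 0 := by
      by_contra h2
      exact hh (s3 y h2)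
    rw [e1, e2, add_zero]
  have c1 : Continuous (fun y => l0 (g y) * ψ y + ⟪l1 (g y), Y y⟫_ℝ) := by fun_prop
  have c2 : Continuous (fun y => l0 v0 * ψ y) := by fun_prop
  have c3 : Continuous (fun y => ⟪l1 v0, Y y⟫_ℝ) := by fun_prop
  have c4 : Continuous (fun y => l0 v0 * ψ y + ⟪l1 v0, Y y⟫_ℝ) := c2.add c3
  rw [← SAm.plInt_mul, ← SAm.plInt_add hν c2 c3 s2 s3, ← SAm.plInt_sub hν c1 c4 s1 s4]
  have hkey := h ν hν (fun y => l0 (g y) * ψ y + ⟪l1 (g y), Y y⟫_ℝ -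
    (l0 v0 * ψ y + ⟪l1 v0, Y y⟫_ℝ)) c (2 * (C * β * N)) (by positivity) ?_ ?_
  · refine hkey.trans (le_of_eq (by ring))
  · intro y hy
    by_cases hyR : ‖y‖ ≤ R0
    · have e1 : l0 (g y) * ψ y + ⟪l1 (g y), Y y⟫_ℝ - (l0 v0 * ψ y + ⟪l1 v0, Y y⟫_ℝ) =
          l0 (g y - v0) * ψ y + ⟪l1 (g y - v0), Y y⟫_ℝ := by
        rw [map_sub, map_sub, inner_sub_left]
        ring
      rw [e1]
      have k1 : |l0 (g y - v0)| ≤ C * β := by
        rw [← Real.norm_eq_abs]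
        exact (l0.le_opNorm _).trans (mul_le_mul hl0 (hgv y hyR) (norm_nonneg _) hC)
      have k2 : ‖l1 (g y - v0)‖ ≤ C * β :=
        (l1.le_opNorm _).trans (mul_le_mul hl1 (hgv y hyR) (norm_nonneg _) hC)
      have k3 : |l0 (g y - v0) * ψ y| ≤ C * β * N := by
        rw [abs_mul]
        exact mul_le_mul k1 (hψN y) (abs_nonneg _) (by positivity)
      have k4 : |⟪l1 (g y - v0), Y y⟫_ℝ| ≤ C * β * N :=
        (abs_real_inner_le_norm _ _).trans (mul_le_mul k2 (hYN y) (norm_nonneg _) (by positivity))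
      refine (abs_add_le _ _).trans ?_
      linarith
    · have h5 : ¬ ‖tang ν y‖ ≤ R0 / 2 := by
        intro h6
        have h7 := SAm.norm_le_tang hν y
        rw [hy] at h7
        exact hyR (by linarith)
      have e1 : l0 (g y) * ψ y + ⟪l1 (g y), Y y⟫_ℝ = 0 := by
        by_contra h6
        exact h5 (s1 y h6)
      have e2 : l0 v0 * ψ y + ⟪l1 v0, Y y⟫_ℝ = 0 := by
        by_contra h6
        exact h5 (s4 y h6)
      rw [e1, e2, sub_zero, abs_zero]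
      positivity
  · intro y _ hF
    by_contra h5
    have e1 : l0 (g y) * ψ y + ⟪l1 (g y), Y y⟫_ℝ = 0 := by
      by_contra h6
      exact h5 (s1 y h6)
    have e2 : l0 v0 * ψ y + ⟪l1 v0, Y y⟫_ℝ = 0 := by
      by_contra h6
      exact h5 (s4 y h6)
    exact hF (by rw [e1, e2, sub_zero])

lemma mul_le_eta {B a : ℝ} (hB : 0 ≤ B) (hBa : B ≤ a) : B ≤ Real.sqrt (a * B) := by
  refine Real.le_sqrt_of_sq_le ?_
  nlinarith

lemma sqrt_four {a B m D : ℝ} (hm : 0 ≤ m) (hma : m ≤ a) (hD0 : 0 ≤ D) (hD : D ≤ 4 * B) :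
    Real.sqrt (m * D) ≤ 2 * Real.sqrt (a * B) := by
  have h1 : m * D ≤ 4 * (a * B) := by nlinarith
  have h2 : Real.sqrt (4 * (a * B)) = 2 * Real.sqrt (a * B) := by
    rw [Real.sqrt_mul (by norm_num), show (4 : ℝ) = 2 ^ 2 by norm_num,
      Real.sqrt_sq (by norm_num)]
  rw [← h2]
  exact Real.sqrt_le_sqrt h1

lemma c2_le (hd : 2 ≤ d) {R0 : ℝ} (hR0 : 200 + 8 * d ≤ R0) {ν x2 : Sp d} {c : ℝ} (hν : ‖ν‖ = 1)
    (hc : |c| ≤ R0 + 3) (hx : ‖x2‖ ≤ 3 * Real.sqrt d) : |(c - ⟪ν, x2⟫_ℝ) / 4| ≤ R0 / 3 := by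
  have h1 := abs_real_inner_le_norm ν x2
  rw [hν, one_mul] at h1
  have h2 : Real.sqrt d ≤ ((d : ℝ) + 1) / 2 := by
    rw [Real.sqrt_le_left (by positivity)]
    linarith only [sq_nonneg ((d : ℝ) - 1)]
  have h3 : |c - ⟪ν, x2⟫_ℝ| ≤ |c| + |⟪ν, x2⟫_ℝ| := abs_sub _ _
  rw [abs_div, abs_of_pos (by norm_num : (0 : ℝ) < 4)]
  have hd0 : (0 : ℝ) ≤ d := by positivity
  rw [div_le_iff₀ (by norm_num)]
  linarith

/-- the sheet data from the estimates, abstract form -/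
lemma assemble {JB : ℕ} {V : Type} [NormedAddCommGroup V] [InnerProductSpace ℝ V]
    {R0 CS C2 CJ CZ CM N1 P : ℝ} (hCS : 0 < CS) (hC2 : 0 < C2) (hCJ : 0 < CJ) (hCZ : 0 < CZ)
    (hCM : 0 < CM) (hN1 : 0 < N1) (hP : 0 < P) {m : Sp d → ℝ} {g : Sp d → V} {ν : Sp d}
    {c2 B D a bD2 D2 m2 : ℝ} {v0 : V} (hmc : Continuous m) (hν : ‖ν‖ = 1) (hc2 : |c2| ≤ R0 / 3)
    (ha : 0 < a) (hB0 : 0 ≤ B) (hBa : B ≤ a) (hma : m2 ≤ a) (hma0 : 0 ≤ m2) (hDD0 : 0 ≤ D2)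
    (hDD : D2 ≤ D) (hDD4 : D2 ≤ 4 * B) (hbD0 : 0 ≤ bD2) (hbD2 : bD2 ≤ 4 * B)
    (hzz : ∀ (H : Sp d → ℝ) (N : ℝ), TFn 2 N H → (∀ y, 0 ≤ H y) →
      (∀ y, R0 + 1 ≤ ‖y‖ → H y = 0) → -(CZ * N * D2) ≤ ∫ y, m y * H y)
    (hmm : |∫ y, m y * zR (R0 - 2) y| ≤ CM * N1 * (m2 + D2))
    (hbb : ∫ y, m y * (zR R0 y * ht ν c2 y ^ 2) ≤ bD2)
    (hv0' : ‖g 0 - v0‖ ≤ C2 * B) (hJ0 : ‖g 0‖ ≤ CJ * (m2 + D2))
    (l0 : V →L[ℝ] ℝ) (l1 : V →L[ℝ] Sp d) (hl0 : ‖l0‖ ≤ CS) (_hl1 : ‖l1‖ ≤ CS)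
    (hl1ν : ⟪ν, l1 v0⟫_ℝ = 0)
    (hmain : ∀ (ψ : Sp d → ℝ) (Y : Sp d → Sp d) (N : ℝ), TFn JB N ψ → TFn JB N Y →
      Cyl ν (R0 / 2) ψ → Cyl ν (R0 / 2) Y → (∀ y, ⟪ν, Y y⟫_ℝ = 0) →
      |(∫ y, m y * (cu1 4 (ht ν c2 y) * (ψ y - ht ν c2 y * dv Y y)))
        - plInt ν c2 (fun y => l0 (g y) * ψ y + ⟪l1 (g y), Y y⟫_ℝ)| ≤
        CS * N * (bD2 + Real.sqrt (m2 * D2)))
    (hj : ∀ (ψ : Sp d → ℝ) (Y : Sp d → Sp d) (N : ℝ), Continuous ψ → Continuous Y →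
      (∀ y, |ψ y| ≤ N) → (∀ y, ‖Y y‖ ≤ N) → Cyl ν (R0 / 2) ψ → Cyl ν (R0 / 2) Y →
      |plInt ν c2 (fun y => l0 (g y) * ψ y + ⟪l1 (g y), Y y⟫_ℝ) -
        (l0 v0 * plInt ν c2 ψ + plInt ν c2 (fun y => ⟪l1 v0, Y y⟫_ℝ))| ≤
          P * (CS * (C2 * B) * N)) :
    ∃ (al : ℝ) (w : Sp d) (η : ℝ),
      η ≤ (7 + 4 * CZ + 5 * (CM * N1) + CS * (C2 + 5 * CJ) + (CS + P * CS * C2)) *
        (B + Real.sqrt (a * D)) ∧
      SAm.SFr JB (7 + 4 * CZ + 5 * (CM * N1) + CS * (C2 + 5 * CJ) + (CS + P * CS * C2)) R0 m ν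
        c2 a B η al w := by
  have hB1 : B ≤ Real.sqrt (a * B) := mul_le_eta hB0 hBa
  have hs4 : Real.sqrt (m2 * D2) ≤ 2 * Real.sqrt (a * B) := sqrt_four hma0 hma hDD0 hDD4
  have hs5 : Real.sqrt (m2 * D2) ≤ Real.sqrt (a * D) :=
    Real.sqrt_le_sqrt (mul_le_mul hma hDD hDD0 ha.le)
  have hs0 := Real.sqrt_nonneg (m2 * D2)
  have hs1 := Real.sqrt_nonneg (a * D)
  have hs2 := Real.sqrt_nonneg (a * B)
  have p1 : 0 < 4 * CZ := by positivity
  have p2 : 0 < 5 * (CM * N1) := by positivity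
  have p3 : 0 < CS * (C2 + 5 * CJ) := by positivity
  have p4 : 0 < CS + P * CS * C2 := by positivity
  refine ⟨l0 v0, l1 v0, bD2 + Real.sqrt (m2 * D2) + B, ?_, hmc, hν, hc2, ha, hB0, hBa,
    by positivity, ?_, ?_, ?_, ?_, hl1ν, ?_, ?_⟩
  · have : 0 ≤ B + Real.sqrt (a * D) := by positivity
    nlinarith
  · nlinarith only [hbD2, hB1, hs4, hCZ, hB0, p2, p3, p4]
  · intro H N hH hH0 hHs
    have k1 := hzz H N hH hH0 hHs
    have hN := TFn_nonneg hH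
    have k2 : CZ * N * D2 ≤ 4 * CZ * N * B := by
      have := mul_le_mul_of_nonneg_left hDD4 (by positivity : 0 ≤ CZ * N)
      linarith
    have k3 : 0 ≤ N * B := by positivity
    refine le_trans ?_ k1
    have k4 : 4 * CZ * (N * B) ≤
        (7 + 4 * CZ + 5 * (CM * N1) + CS * (C2 + 5 * CJ) + (CS + P * CS * C2)) * (N * B) :=
      mul_le_mul_of_nonneg_right (by linarith) k3
    linarith
  · have k1 := (le_abs_self _).trans hmm
    have k2 : CM * N1 * (m2 + D2) ≤ CM * N1 * (5 * a) :=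
      mul_le_mul_of_nonneg_left (by linarith) (by positivity)
    have k3 : 5 * (CM * N1) * a ≤
        (7 + 4 * CZ + 5 * (CM * N1) + CS * (C2 + 5 * CJ) + (CS + P * CS * C2)) * a :=
      mul_le_mul_of_nonneg_right (by linarith) ha.le
    linarith
  · have k3 : 4 * B ≤
        (7 + 4 * CZ + 5 * (CM * N1) + CS * (C2 + 5 * CJ) + (CS + P * CS * C2)) * B :=
      mul_le_mul_of_nonneg_right (by linarith) hB0
    linarith
  · have k1 : ‖v0‖ ≤ (C2 + 5 * CJ) * a := by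
      have k2 : ‖v0‖ ≤ ‖g 0 - v0‖ + ‖g 0‖ := by
        have := norm_sub_le (g 0) (g 0 - v0)
        rw [sub_sub_cancel] at this
        linarith
      have k3 : CJ * (m2 + D2) ≤ CJ * (5 * a) := mul_le_mul_of_nonneg_left (by linarith) hCJ.le
      have k4 : C2 * B ≤ C2 * a := mul_le_mul_of_nonneg_left hBa hC2.le
      linarith
    have k5 : |l0 v0| ≤ CS * ((C2 + 5 * CJ) * a) := by
      rw [← Real.norm_eq_abs]
      exact (l0.le_opNorm _).trans (mul_le_mul hl0 k1 (norm_nonneg _) hCS.le)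
    have k3 : CS * (C2 + 5 * CJ) * a ≤
        (7 + 4 * CZ + 5 * (CM * N1) + CS * (C2 + 5 * CJ) + (CS + P * CS * C2)) * a :=
      mul_le_mul_of_nonneg_right (by linarith) ha.le
    linarith
  · intro ψ Y N hψ hY hψC hYC hYν
    have hN := TFn_nonneg hψ
    have k1 := hmain ψ Y N hψ hY hψC hYC hYν
    have k2 := hj ψ Y N hψ.smooth.continuous hY.smooth.continuous
      (fun y => by have := TFn_norm hψ y; rwa [Real.norm_eq_abs] at this) (TFn_norm hY) hψC hYC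
    have k3 := abs_sub_le (∫ y, m y * (cu1 4 (ht ν c2 y) *
      (ψ y - ht ν c2 y * dv Y y)))
      (plInt ν c2 (fun y => l0 (g y) * ψ y + ⟪l1 (g y), Y y⟫_ℝ))
      (l0 v0 * plInt ν c2 ψ +
        plInt ν c2 (fun y => ⟪l1 v0, Y y⟫_ℝ))
    refine k3.trans ((add_le_add k1 k2).trans ?_)
    have k4 : CS * N * (bD2 + Real.sqrt (m2 * D2)) ≤
        CS * N * (bD2 + Real.sqrt (m2 * D2) + B) :=
      mul_le_mul_of_nonneg_left (by linarith) (by positivity)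
    have k5 : P * (CS * (C2 * B) * N) ≤
        P * CS * C2 * N * (bD2 + Real.sqrt (m2 * D2) + B) := by
      have := mul_le_mul_of_nonneg_left (show B ≤ bD2 + Real.sqrt (m2 * D2) + B by linarith)
        (by positivity : 0 ≤ P * CS * C2 * N)
      linarith
    have k6 : (CS + P * CS * C2) * (N * (bD2 + Real.sqrt (m2 * D2) + B)) ≤
        (7 + 4 * CZ + 5 * (CM * N1) + CS * (C2 + 5 * CJ) + (CS + P * CS * C2)) *
          (N * (bD2 + Real.sqrt (m2 * D2) + B)) :=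
      mul_le_mul_of_nonneg_right (by linarith) (by positivity)
    linarith

theorem mkSFr (hSHB : StmtSHB) (hS2 : StmtSAF2) (hJC : StmtJC) (hZ : StmtZ) (hMA : StmtMA)
    (hSC : StmtSC) (hSD : StmtSD) (d : ℕ) (V E : Type) [NormedAddCommGroup V]
    [InnerProductSpace ℝ V] [FiniteDimensional ℝ V] [NormedAddCommGroup E]
    [InnerProductSpace ℝ E] [FiniteDimensional ℝ E] (L : (Sp d →L[ℝ] V) →L[ℝ] E) (n0 : ℕ)
    (T : (ContinuousMultilinearMap ℝ (fun _ : Fin n0 => Sp d) E) →L[ℝ]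
      (ContinuousMultilinearMap ℝ (fun _ : Fin (n0 + 1) => Sp d) V)) (hd : 2 ≤ d)
    (hn0 : 1 ≤ n0) (hL : CEll L) (hNS : NSProp L n0 T) : ∃ JB : ℕ,
    ∀ (M c0 ε : ℝ), 0 < ε → ε ≤ 1 → ∀ (b : Sp d → ℝ), BaseKer 2 M c0 b →
    ∀ R0 : ℝ, 200 + 8 * d ≤ R0 → ∃ (C0 κ : ℝ), 0 < C0 ∧ 0 < κ ∧
      ∀ (R : ℝ), 4 * R0 + 10 ≤ R → ∀ (n : ℕ) (u : Sp d → V), TF u →
      ∀ (x : ℕ → Sp d) (e : ℕ → E), Tower x e →
      ∀ (ν : Sp d) (c B D a : ℝ), ‖ν‖ = 1 → |c| ≤ R0 + 3 →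
        Flat b ε R0 R κ (rs (x 2) 4 (fo L u)) (n + 2) (e 2) ν ((c - ⟪ν, x 2⟫_ℝ) / 4) →
        0 < a → B ≤ a → ma b ε R0 ((1 / 2) ^ n) (fo L u) (n + 2) (x 2) ≤ a →
        (∀ I : ℕ, ∑ r ∈ Finset.range I, (1 / 2 : ℝ) ^ r *
          bD b ε R0 R ((1 / 2) ^ n) (fo L u) (n + r) (x r) (e r) ν c ≤ B) →
        DD b ε R ((1 / 2) ^ n) (fo L u) (n + 2) (x 2) (e 2) ≤ D →
        ∃ (al : ℝ) (w : Sp d) (η : ℝ), η ≤ C0 * (B + Real.sqrt (a * D)) ∧
          SAm.SFr JB C0 R0 (fun y => ⟪rs (x 2) 4 (fo L u) y, e 2⟫_ℝ) ν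
            ((c - ⟪ν, x 2⟫_ℝ) / 4) a B η al w := by
  have hd1 : 1 ≤ d := by omega
  obtain ⟨JB, hSHB'⟩ := hSHB d V E L n0 T hd hn0 hL hNS
  refine ⟨JB, ?_⟩
  intro M c0 ε hε hε1 b hb R0 hR0
  have hd0 : (0 : ℝ) ≤ d := by positivity
  have hR01 : 100 ≤ R0 := by linarith
  obtain ⟨CS, κ, hCS, hκ, hS⟩ := hSHB' M c0 ε hε hε1 b hb R0 hR01
  obtain ⟨C2, hC2, h2⟩ := hS2 d V E L n0 T hd hn0 hNS M c0 ε hε hε1 b hb R0 hR0
  obtain ⟨CJ, hCJ, hJ⟩ := hJC d V E L n0 T hd1 hn0 hNS M c0 ε hε hε1 b hb R0 hR01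
  obtain ⟨CZ, hCZ, hz⟩ := Z' hZ hd1 hε hε1 hb
  obtain ⟨CM, hCM, hm⟩ := mass_unit hMA hd1 hε hε1 hb
  obtain ⟨P, hP, hjc⟩ := jump_const (d := d) hd1 hR01
  obtain ⟨N1, hN1, hz1⟩ := TFn_of_cs (J := 2) (ζ := (zR (R0 - 2) : Sp d → ℝ))
    (SAm.zR_contDiff (by linarith) 2) (zR_cs _)
  refine ⟨7 + 4 * CZ + 5 * (CM * N1) + CS * (C2 + 5 * CJ) + (CS + P * CS * C2), κ, by positivity,
    hκ, ?_⟩
  intro R hR n u hu x e hT ν c B D a hν hc hFlat ha hBa hma hsum hDD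
  obtain ⟨hx1, hx12, hx2⟩ := tower_le hT
  have hf := TU_fo_cont L hu
  have hfc := TU_fo_cs L hu
  have he2 := hT.unit 2
  have e4 : (2 : ℝ) ^ 2 = 4 := by norm_num
  obtain ⟨hTF2, hfo2⟩ := (hSC d hd 1 one_pos (x 2) 4 (by norm_num)).2.2 V E L u hu
  have hc2 : |(c - ⟪ν, x 2⟫_ℝ) / 4| ≤ R0 / 3 := c2_le hd hR0 hν hc hx2
  -- functionals in the frame
  have hmaf := ma_fr hSC hd hε hε1 hb hf hfc n 2 (x 2) R0 (n + 2) 0
  have hDDf := DD_fr hSC hd hε hε1 hb hf hfc n 2 (x 2) R (n + 2) 0 (e 2)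
  have hbDf := bD_fr hSC hSD hd hε hε1 hb hf hfc n 2 (x 2) R0 R (e 2) ν c
  rw [smul_zero, add_zero, e4] at hmaf hDDf
  rw [e4] at hbDf
  have hB0 : 0 ≤ B := by simpa using hsum 0
  have hterm := term_le (fun r => bD_nn b ε R0 R n (n + r) (fo L u) (x r) (hT.unit r) ν c) hsum
  have hbD2 := hterm 2
  rw [e4] at hbD2
  have hDD4 : DD b ε R ((1 / 2) ^ n) (fo L u) (n + 2) (x 2) (e 2) ≤ 4 * B :=
    (DD_le_bD b ε R0 R n (n + 2) (fo L u) (x 2) (e 2) ν c).trans hbD2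
  have hDD0 := DD_nonneg b ε R (by positivity : (0 : ℝ) < (1 / 2) ^ n) (fo L u) (n + 2) (x 2) he2
  have hma0 := ma_nonneg b ε R0 (by positivity : (0 : ℝ) < (1 / 2) ^ n) (fo L u) (n + 2) (x 2)
  have hbD0 := bD_nn b ε R0 R n (n + 2) (fo L u) (x 2) he2 ν c
  obtain ⟨v0, hv0⟩ := h2 R hR n u hu x e hT ν c B hν hc hsum
  have hFlat2 : Flat b ε R0 R κ (fo L (fun y => u (x 2 + (4 : ℝ) • y))) (n + 2) (e 2) ν
      ((c - ⟪ν, x 2⟫_ℝ) / 4) := by
    rw [hfo2]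
    exact hFlat
  obtain ⟨l0, l1, hl0, hl1, hl1ν, hmain, _⟩ := hS R (by linarith only [hR0, hR]) (n + 2)
    (fun y => u (x 2 + (4 : ℝ) • y)) hTF2 (e 2) he2 ν _ hν hc2 hFlat2 _ rfl
  have hq : ‖((c - ⟪ν, x 2⟫_ℝ) / 4) • ν‖ ≤ R0 / 2 := by
    rw [norm_smul, hν, mul_one, Real.norm_eq_abs]
    linarith
  have hJ0 := (hJ R (by linarith) (n + 2) (fun y => u (x 2 + (4 : ℝ) • y)) hTF2 (e 2) he2 ν
    (((c - ⟪ν, x 2⟫_ℝ) / 4) • ν) (((c - ⟪ν, x 2⟫_ℝ) / 4) • ν) hν rfl hq hq 0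
    (by rw [norm_zero]; linarith)).1
  rw [hfo2] at hmain hJ0
  rw [hmaf, hDDf, hbDf] at hmain
  rw [hmaf, hDDf] at hJ0
  have hJc : Continuous (JJ n0 ν (((c - ⟪ν, x 2⟫_ℝ) / 4) • ν) 1
      (fun y => u (x 2 + (4 : ℝ) • y))) := JJ_cont hd1 n0 ν _ one_pos hTF2.smooth
  have hv0' := hv0 0 (by rw [norm_zero]; linarith only [hR0])
  have hj := hjc V _ hJc v0 (C2 * B) CS (by positivity) hCS.le hv0 l0 l1 hl0 hl1 ν _ hν hc2
  have hzz := hz E (rs (x 2) 4 (fo L u)) (rs_cont hf _ _) (rs_cs hfc _ (by norm_num)) R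
    (by linarith only [hR0, hR]) (n + 2) (e 2) he2 0
  have hmm := hm E R0 R (by linarith only [hR0]) (by linarith only [hR0, hR]) (rs (x 2) 4 (fo L u)) (rs_cont hf _ _)
    (rs_cs hfc _ (by norm_num)) (n + 2) (e 2) he2 (zR (R0 - 2)) N1 hz1
    (fun y hy => zR_zero (by linarith))
  have hbb : ∫ y, ⟪rs (x 2) 4 (fo L u) y, e 2⟫_ℝ *
      (zR R0 y * ht ν ((c - ⟪ν, x 2⟫_ℝ) / 4) y ^ 2) ≤
      bD b ε R0 R ((1 / 2) ^ n) (fo L u) (n + 2) (x 2) (e 2) ν c := by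
    rw [← hbDf]
    unfold bD bb
    rw [lev_u]
    have h9 := DD_nonneg b ε R (by positivity : (0 : ℝ) < (1 / 2) ^ (n + 2))
      (rs (x 2) 4 (fo L u)) (n + 2) 0 he2
    simp only [one_pow, div_one, sub_zero, one_smul, one_mul]
    have h10 := le_max_right 0 (∫ y, ⟪rs (x 2) 4 (fo L u) y, e 2⟫_ℝ *
      (zR R0 y * ht ν ((c - ⟪ν, x 2⟫_ℝ) / 4) y ^ 2))
    linarith only [hDDf, hDD0, h10]
  rw [hDDf] at hzz
  rw [hmaf, hDDf] at hmm
  have hmc : Continuous (fun y => ⟪rs (x 2) 4 (fo L u) y, e 2⟫_ℝ) :=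
    (rs_cont hf _ _).inner continuous_const
  have hzz' : ∀ (H : Sp d → ℝ) (N : ℝ), TFn 2 N H → (∀ y, 0 ≤ H y) →
      (∀ y, R0 + 1 ≤ ‖y‖ → H y = 0) →
        -(CZ * N * DD b ε R ((1 / 2) ^ n) (fo L u) (n + 2) (x 2) (e 2)) ≤
          ∫ y, ⟪rs (x 2) 4 (fo L u) y, e 2⟫_ℝ * H y :=
    fun H N hH hH0 hHs => hzz H N hH hH0 (fun y hy => hHs y (by rw [sub_zero] at hy; linarith only [hR0, hR, hy]))
  exact assemble hCS hC2 hCJ hCZ hCM hN1 hP hmc hν hc2 ha hB0 hBa hma hma0 hDD0 hDD hDD4 hbD0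
    hbD2 hzz' hmm hbb hv0' hJ0 l0 l1 hl0 hl1 (hl1ν v0) hmain hj

end

end SAFm

end TG


end

section

/-!
# Sheet lemma (module SA), part 7: the abstract sheet theorem in the frame of the sheet (helper65)
-/

open MeasureTheory Metric Set TrI
open scoped InnerProductSpace ContDiff

namespace TG

namespace SAm

noncomputable section

open TU PF

variable {d : ℕ}

/-- lower bound for the density of the sheet -/
lemma L5 (hd : 1 ≤ d) (JB : ℕ) (R0 C0 : ℝ) (hR0 : 100 ≤ R0) (hC0 : 0 < C0) :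
    ∃ (C κ : ℝ), 0 < C ∧ 0 < κ ∧
    ∀ (m : Sp d → ℝ) (ν : Sp d) (c a B η al : ℝ) (w : Sp d),
      SFr JB C0 R0 m ν c a B η al w → ∀ m2 : ℝ, 0 < m2 → m2 = ∫ y, m y * zR (R0 / 3) y →
        m2 ≤ a → a * B ≤ κ * m2 ^ 2 → m2 ≤ C * al := by
  obtain ⟨NJ, hNJ, hzJ⟩ := TFn_of_cs (J := max JB 2) (ζ := (zR (R0 / 3 + 1) : Sp d → ℝ))
    (zR_contDiff (by linarith) _) (zR_cs _)
  obtain ⟨N2, hN2, hz2⟩ := TFn_of_cs (J := 2) (ζ := (zR R0 : Sp d → ℝ))
    (zR_contDiff (by linarith) 2) (zR_cs _)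
  obtain ⟨N3, hN3, hz3⟩ := TFn_of_cs (J := 2) (ζ := (zR (R0 / 3) : Sp d → ℝ))
    (zR_contDiff (by linarith) 2) (zR_cs _)
  obtain ⟨Ck, hCk, hk⟩ := cutK d 2 R0 hR0
  obtain ⟨CP, hCP, hpl⟩ := plInt_bound hd (R0 / 2)
  set K2 := 4 ^ 2 * N2 * max 1 ((R0 + 1) + R0 / 3) ^ 2 with hK2
  have hK2' : 0 < K2 := by positivity
  set C1 := C0 * NJ * C0 + C0 + C0 * (Ck * NJ + K2 + N3) with hC1
  have hC1' : 0 < C1 := by positivity
  refine ⟨2 * CP, min 1 ((1 / (4 * C1)) ^ 2), by positivity, by positivity, ?_⟩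
  intro m ν c a B η al w h m2 hm2 hm2e hm2a hκ
  have hν := h.nu
  have ha := h.a0
  have hB := h.B0
  -- small quantities
  have hs : Real.sqrt (a * B) ≤ 1 / (4 * C1) * m2 := by
    have h1 : a * B ≤ (1 / (4 * C1) * m2) ^ 2 := by
      refine hκ.trans ?_
      rw [mul_pow]
      exact mul_le_mul_of_nonneg_right (min_le_right _ _) (by positivity)
    exact (Real.sqrt_le_sqrt h1).trans (le_of_eq (Real.sqrt_sq (by positivity)))
  have hBs : B ≤ Real.sqrt (a * B) := Real.le_sqrt_of_sq_le (by nlinarith only [hB, h.Ba])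
  set χ : Sp d → ℝ := zR (R0 / 3 + 1) with hχ
  set ψ : Sp d → ℝ := fun y => χ (tang ν y) with hψ
  have hψT : TFn (max JB 2) NJ ψ := TFn_tang0 hzJ hν
  have hψC : Cyl ν (R0 / 2) ψ := Cyl_tang0 hν fun y hy => by
    by_contra h0
    push Not at h0
    exact hy (zR_zero (by linarith only [hR0, h0]))
  have hψ0 : ∀ y, 0 ≤ ψ y := fun y => zR_nonneg _ _
  have h1 := h.SH ψ (fun _ => 0) NJ (TFn_mono hψT (le_max_left _ _) le_rfl)
    (TFn_zero JB hNJ.le) hψC (Cyl_zero ν _) (fun y => inner_zero_right _)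
  simp only [dv_zero, inner_zero_right, mul_zero, sub_zero] at h1
  have e1 : plInt ν c (fun _ => (0 : ℝ)) = 0 := by
    unfold plInt
    simp
  rw [e1, add_zero] at h1
  obtain ⟨k1, -, k3⟩ := hk ν c hν h.cle ψ NJ (TFn_mono hψT (le_max_right _ _) le_rfl) hψC
  have t2 := TFn_ht_sq hz2 (ρ := R0 + 1) (fun y hy => zR_zero (by linarith)) hν h.cle
  have t3 := TFn_sub (TFn_add k1 t2) hz3
  have h2 := h.Z _ _ t3 (fun y => by
    have g1 : 0 ≤ cu1 4 (ht ν c y) * ψ y := mul_nonneg (cu1_nonneg _ _) (hψ0 y)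
    have g2 : 0 ≤ zR R0 y * ht ν c y ^ 2 := mul_nonneg (zR_nonneg _ _) (sq_nonneg _)
    rcases le_or_gt (R0 / 3 + 1) ‖y‖ with hy | hy
    · rw [zR_zero hy]
      linarith
    · have g3 := zR_le_one (R0 / 3) y
      rcases le_or_gt |ht ν c y| 4 with hz | hz
      · have g4 : ψ y = 1 := zR_one ((norm_tang_le hν y).trans hy.le)
        rw [cu1_one hz, g4]
        linarith
      · have g5 : zR R0 y = 1 := zR_one (by linarith)
        have g6 : 16 ≤ ht ν c y ^ 2 := by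
          rw [← sq_abs]
          nlinarith only [hz]
        rw [g5, one_mul]
        linarith) (fun y hy => by
    rw [k3 y (by linarith), zR_zero (by linarith), zR_zero (by linarith)]
    ring)
  have i1 := int_m h.cont k1.smooth.continuous k3
  have i2 := int_m h.cont t2.smooth.continuous (R := R0 + 1) (fun y hy => by
    rw [zR_zero (by linarith), zero_mul])
  have i3 := int_m h.cont hz3.smooth.continuous (R := R0 + 1) (fun y hy =>
    zR_zero (by linarith))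
  have e2 : ∫ y, m y * (cu1 4 (ht ν c y) * ψ y + zR R0 y * ht ν c y ^ 2 - zR (R0 / 3) y) =
      (∫ y, m y * (cu1 4 (ht ν c y) * ψ y)) + (∫ y, m y * (zR R0 y * ht ν c y ^ 2)) -
        ∫ y, m y * zR (R0 / 3) y := by
    rw [← integral_add i1 i2, ← integral_sub]
    · congr 1
      funext y
      ring
    · exact i1.add i2
    · exact i3
  rw [e2, ← hm2e] at h2
  have h3 := h.bb
  have h4 := (abs_le.1 h1).2
  have h5 := h.eta
  set P := plInt ν c ψ with hP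
  have hP0 : 0 ≤ P := plInt_nonneg ν c hψ0
  have hP1 : P ≤ CP * 1 := by
    have := hpl ν hν ψ c 1 zero_le_one (fun y _ => by
      rw [abs_of_nonneg (hψ0 y)]
      exact zR_le_one _ _) (fun y _ hy => hψC.supp y hy)
    exact (le_abs_self _).trans this
  rw [mul_one] at hP1
  set s := Real.sqrt (a * B) with hsd
  have h6 : C0 * NJ * η ≤ C0 * NJ * (C0 * s) := mul_le_mul_of_nonneg_left h5 (by positivity)
  simp only [← hK2] at h2
  have h7 : m2 ≤ al * P + C1 * s := by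
    have f1 : C0 * B ≤ C0 * s := mul_le_mul_of_nonneg_left hBs hC0.le
    have f2 : C0 * (Ck * NJ + K2 + N3) * B ≤ C0 * (Ck * NJ + K2 + N3) * s :=
      mul_le_mul_of_nonneg_left hBs (by positivity)
    rw [hC1]
    linarith only [h3, h4, h6, h2, f1, f2]
  have h8 : C1 * s ≤ 1 / 4 * m2 := by
    have := mul_le_mul_of_nonneg_left hs hC1'.le
    have e : C1 * (1 / (4 * C1) * m2) = 1 / 4 * m2 := by field_simp
    linarith only [this, e]
  have h9 : 3 / 4 * m2 ≤ al * P := by linarith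
  have hal : 0 < al := by
    by_contra h0
    push Not at h0
    have : al * P ≤ 0 := mul_nonpos_of_nonpos_of_nonneg h0 hP0
    linarith only [hm2, h7, h8, this]
  have h10 : al * P ≤ al * CP := mul_le_mul_of_nonneg_left hP1 hal.le
  linarith only [hm2, h7, h8, h10]

/-- the abstract sheet theorem -/
theorem frame (hDV : StmtDV) (hd : 2 ≤ d) (JB : ℕ) : ∃ J' : ℕ, ∀ (R0 C0 : ℝ), 100 ≤ R0 →
    0 < C0 → ∃ (C κ : ℝ), 0 < C ∧ 0 < κ ∧
    ∀ (m : Sp d → ℝ) (ν : Sp d) (c a B η al : ℝ) (w : Sp d),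
      SFr JB C0 R0 m ν c a B η al w → ∀ m2 : ℝ, 0 < m2 → m2 = ∫ y, m y * zR (R0 / 3) y →
        m2 ≤ a → a * B ≤ κ * m2 ^ 2 → m2 ≤ C * al ∧ ∃ o : ℝ, ‖w‖ ^ 2 + o ^ 2 ≤ C * a * B ∧
      ∀ (G : Sp d → ℝ) (N : ℝ), TFn J' N G → (∀ y, G y ≠ 0 → ‖y‖ ≤ R0 - 2) →
        (∀ y, G y ≠ 0 → ‖tang ν y‖ ≤ R0 / 2) →
        |(∫ y, m y * G y) - (al * plInt ν c G +
          plInt ν c (fun y => (⟪w, y⟫_ℝ + o) * fderiv ℝ G y ν))| ≤ C * N * (B + η) := by
  have hd1 : 1 ≤ d := by omega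
  obtain ⟨J4, hL4'⟩ := L4 hDV hd JB
  refine ⟨max (max J4 JB) 2 + 1, ?_⟩
  intro R0 C0 hR0 hC0
  obtain ⟨C5, κ, hC5, hκ0, hL5⟩ := L5 hd1 JB R0 C0 hR0 hC0
  obtain ⟨C4, hC4, hL4⟩ := hL4' R0 C0 hR0 hC0
  obtain ⟨C3, hC3, hL3⟩ := L3 hd1 JB R0 C0 hR0 hC0
  obtain ⟨C1, hC1, hL1⟩ := L1 (d := d) R0 C0 hR0 hC0
  obtain ⟨Ck, hCk, hk⟩ := cutK d 2 R0 hR0
  set CR := 1 + 2 * Ck with hCR
  have hCR0 : 0 < CR := by positivity
  refine ⟨C5 + (C3 ^ 2 + C4 ^ 2) + (C1 * CR + C0 + C4), κ, by positivity, hκ0, ?_⟩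
  intro m ν c a B η al w h m2 hm2 hm2e hm2a hκ
  have hν := h.nu
  have ha := h.a0
  have hB := h.B0
  have hη := h.eta0
  have hal := hL5 m ν c a B η al w h m2 hm2 hm2e hm2a hκ
  have hal0 : 0 < al := by
    by_contra h0
    push Not at h0
    have : C5 * al ≤ 0 := mul_nonpos_of_nonneg_of_nonpos hC5.le h0
    linarith
  have hs2 : Real.sqrt (a * B) ^ 2 = a * B := Real.sq_sqrt (by positivity)
  obtain ⟨o, ho, hform⟩ := hL4 m ν c a B η al w h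
  have hw := hL3 m ν c a B η al w h
  refine ⟨?_, o, ?_, ?_⟩
  · refine hal.trans (mul_le_mul_of_nonneg_right ?_ hal0.le)
    have : 0 < (C3 ^ 2 + C4 ^ 2) + (C1 * CR + C0 + C4) := by positivity
    linarith
  · have g1 : ‖w‖ ^ 2 ≤ C3 ^ 2 * (a * B) := by
      have := pow_le_pow_left₀ (norm_nonneg w) hw 2
      rwa [mul_pow, hs2] at this
    have g2 : o ^ 2 ≤ C4 ^ 2 * (a * B) := by
      have := pow_le_pow_left₀ (abs_nonneg o) ho 2
      rwa [mul_pow, hs2, sq_abs] at this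
    have g3 : 0 ≤ (C5 + (C1 * CR + C0 + C4)) * (a * B) := by positivity
    linarith only [g1, g2, g3]
  intro G N hG hGs hGt
  have hN := TFn_nonneg hG
  have hG2 : TFn 2 N G := TFn_mono hG (by omega) le_rfl
  have hG1 : ContDiff ℝ 1 G := hG2.smooth.of_le (by norm_num)
  have hGd : Differentiable ℝ G := hG1.differentiable one_ne_zero
  set JJ' := max (max J4 JB) 2 with hJJ'
  -- the two coefficient functions
  have hg1T : TFn JJ' N (fun y => fderiv ℝ G y ν) := by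
    have := TFn_fderiv (J := JJ') hG ν
    rwa [hν, one_mul] at this
  set g0 : Sp d → ℝ := fun y => G (tang ν y + c • ν) with hg0
  set g1 : Sp d → ℝ := fun y => fderiv ℝ G (tang ν y + c • ν) ν with hg1
  have hg0T : TFn JJ' N g0 := TFn_tang (TFn_mono hG (by omega) le_rfl) hν (c • ν)
  have hg1T' : TFn JJ' N g1 := TFn_tang hg1T hν (c • ν)
  have htp : ∀ y : Sp d, tang ν (tang ν y + c • ν) = tang ν y := fun y => by
    rw [tang_add, tang_smul, tang_self hν, smul_zero, add_zero, tang_tang hν]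
  have hg0C : Cyl ν (R0 / 2) g0 := by
    refine ⟨fun y => by simp only [hg0]; rw [tang_tang hν], fun y hy => ?_⟩
    have := hGt _ hy
    rwa [htp] at this
  have hg1C : Cyl ν (R0 / 2) g1 := by
    refine ⟨fun y => by simp only [hg1]; rw [tang_tang hν], fun y hy => ?_⟩
    by_contra h0
    push Not at h0
    apply hy
    simp only [hg1]
    rw [fderiv_zero_of (ρ := R0 / 2) hGt (by rw [htp]; exact h0)]
    rfl
  obtain ⟨k1, -, k3⟩ := hk ν c hν h.cle g0 N (TFn_mono hg0T (le_max_right _ _) le_rfl) hg0C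
  obtain ⟨-, k2', k3'⟩ := hk ν c hν h.cle g1 N (TFn_mono hg1T' (le_max_right _ _) le_rfl) hg1C
  have k3'' : ∀ y, R0 - 2 < ‖y‖ → cu1 4 (ht ν c y) * (ht ν c y * g1 y) = 0 := by
    intro y hy
    have : cu1 4 (ht ν c y) * (ht ν c y * g1 y) = ht ν c y * (cu1 4 (ht ν c y) * g1 y) := by ring
    rw [this, k3' y hy, mul_zero]
  have hGs' : ∀ y, R0 - 2 < ‖y‖ → G y = 0 := by
    intro y hy
    by_contra h0
    exact absurd (hGs y h0) (not_le.2 hy)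
  -- the remainder
  set Rm : Sp d → ℝ := fun y => G y - cu1 4 (ht ν c y) * g0 y -
    cu1 4 (ht ν c y) * (ht ν c y * g1 y) with hRm
  have hRmT : TFn 2 (CR * N) Rm := by
    refine TFn_mono (TFn_sub (TFn_sub hG2 k1) k2') le_rfl (le_of_eq ?_)
    rw [hCR]
    ring
  have hRmb : ∀ y, |Rm y| ≤ CR * N * ht ν c y ^ 2 := by
    intro y
    have hpt : tang ν y + c • ν + ht ν c y • ν = y := by
      have h1 : c • ν + ht ν c y • ν = ⟪ν, y⟫_ℝ • ν := by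
        rw [← add_smul]
        congr 1
        unfold ht
        ring
      rw [add_assoc, h1, tang_add_inner]
    set z := ht ν c y with hz
    have hCR1 : N * z ^ 2 ≤ CR * N * z ^ 2 := by
      have : 0 ≤ 2 * Ck * (N * z ^ 2) := by (clear * - hCk hN; positivity)
      rw [hCR]
      linarith only [this]
    refine le_trans ?_ hCR1
    rcases le_or_gt |z| 4 with hz4 | hz4
    · have h1 : Rm y = G (tang ν y + c • ν + z • ν) - G (tang ν y + c • ν) -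
          fderiv ℝ G (tang ν y + c • ν) (z • ν) := by
        simp only [hRm, hg0, hg1]
        rw [← hz, cu1_one hz4, hpt, map_smul, smul_eq_mul]
        ring
      rw [h1]
      have h2 := taylor2 hG2 (tang ν y + c • ν) (z • ν)
      rwa [norm_smul, hν, mul_one, Real.norm_eq_abs, sq_abs] at h2
    · have b0 := TFn_norm hG y
      have b1 := TFn_norm hg0T y
      have b2 := TFn_norm hg1T' y
      rw [Real.norm_eq_abs] at b0 b1 b2
      have c0 := cu1_nonneg 4 z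
      have c1 := cu1_le_one 4 z
      have h1 : |Rm y| ≤ N + N + |z| * N := by
        simp only [hRm]
        rw [← hz]
        refine (abs_sub _ _).trans (add_le_add ((abs_sub _ _).trans (add_le_add b0 ?_)) ?_)
        · rw [abs_mul, abs_of_nonneg c0]
          calc cu1 4 z * |g0 y| ≤ 1 * N := mul_le_mul c1 b1 (abs_nonneg _) zero_le_one
            _ = N := one_mul N
        · rw [abs_mul, abs_mul, abs_of_nonneg c0]
          calc cu1 4 z * (|z| * |g1 y|) ≤ 1 * (|z| * N) := by gcongr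
            _ = _ := one_mul _
      refine h1.trans ?_
      have h2 : 2 + |z| ≤ z ^ 2 := by
        rw [← sq_abs]
        nlinarith only [hz4]
      nlinarith only [hN, h2]
  obtain ⟨_, _, hL1c⟩ := hL1 JB m ν c a B η al w h
  have hRmI := hL1c Rm (CR * N) hRmT hRmb (fun y hy => by
    simp only [hRm]
    rw [hGs' y hy, k3 y hy, k3'' y hy]
    ring)
  -- the main terms
  have hM0 := h.SH g0 (fun _ => 0) N (TFn_mono hg0T (by omega) le_rfl)
    (TFn_zero JB hN) hg0C (Cyl_zero ν _) (fun y => inner_zero_right _)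
  simp only [dv_zero, inner_zero_right, mul_zero, sub_zero] at hM0
  have e1 : plInt ν c (fun _ => (0 : ℝ)) = 0 := by
    unfold plInt
    simp
  rw [e1, add_zero] at hM0
  have hM1 := hform g1 N (TFn_mono hg1T' (by omega) le_rfl) hg1C
  have hpl : ∀ y : Sp d, ⟪ν, y⟫_ℝ = c → tang ν y + c • ν = y := fun y hy => by
    rw [← hy]
    exact tang_add_inner ν y
  have e2 : plInt ν c g0 = plInt ν c G := plInt_congr hν fun y hy => by
    simp only [hg0]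
    rw [hpl y hy]
  have e3 : plInt ν c (fun y => (⟪w, y⟫_ℝ + o) * g1 y) =
      plInt ν c (fun y => (⟪w, y⟫_ℝ + o) * fderiv ℝ G y ν) := plInt_congr hν fun y hy => by
    simp only [hg1]
    rw [hpl y hy]
  rw [e2] at hM0
  rw [e3] at hM1
  have iG := int_m h.cont hG2.smooth.continuous hGs'
  have i0 := int_m h.cont k1.smooth.continuous k3
  have i1 := int_m h.cont k2'.smooth.continuous k3''
  have e4 : ∫ y, m y * Rm y = (∫ y, m y * G y) - (∫ y, m y * (cu1 4 (ht ν c y) * g0 y)) -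
      K1 m ν c g1 := by
    unfold K1
    rw [← integral_sub iG i0, ← integral_sub]
    · congr 1
      funext y
      simp only [hRm]
      ring
    · exact iG.sub i0
    · exact i1
  rw [e4] at hRmI
  have e5 : (∫ y, m y * G y) - (al * plInt ν c G +
      plInt ν c (fun y => (⟪w, y⟫_ℝ + o) * fderiv ℝ G y ν)) =
      ((∫ y, m y * G y) - (∫ y, m y * (cu1 4 (ht ν c y) * g0 y)) - K1 m ν c g1) +
      ((∫ y, m y * (cu1 4 (ht ν c y) * g0 y)) - al * plInt ν c G) +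
      (K1 m ν c g1 - plInt ν c (fun y => (⟪w, y⟫_ℝ + o) * fderiv ℝ G y ν)) := by ring
  rw [e5]
  refine (abs_add_le _ _).trans ((add_le_add (abs_add_le _ _) le_rfl).trans ?_)
  have f1 : 0 ≤ (C5 + (C3 ^ 2 + C4 ^ 2) + (C0 + C4)) * N * B := by (clear * - hC5 hC3 hC4 hC0 hN hB; positivity)
  have f2 : 0 ≤ (C5 + (C3 ^ 2 + C4 ^ 2) + C1 * CR) * N * η := by (clear * - hC5 hC3 hC4 hC1 hCk hN hη; positivity)
  have f3 : C1 * (CR * N) * B + C0 * N * η + C4 * N * η ≤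
      (C5 + (C3 ^ 2 + C4 ^ 2) + (C1 * CR + C0 + C4)) * N * (B + η) := by linarith only [f1, f2]
  linarith

end

end SAm

end TG


end

section

/-!
# Module SAF: recentring (helper95)
-/

open MeasureTheory Metric Set TrI
open scoped InnerProductSpace ContDiff

namespace TG

namespace SAFm

noncomputable section

open TU

variable {d : ℕ}

lemma plane_change {ν w x2 : Sp d} {c o q : ℝ} (hq : q ≠ 0) :
    ((c + (4 * o - ⟪w, x2⟫_ℝ)) / q - ⟪(1 / q) • (ν - w), x2⟫_ℝ) / 4 =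
      ((c - ⟪ν, x2⟫_ℝ) / 4 + o) / q := by
  rw [real_inner_smul_left, inner_sub_left]
  field_simp
  ring

lemma num_rec {X0 X1 A Bq Q PP K C N E Δ al S : ℝ} (hPP : 0 < PP) (hK : 0 ≤ K) (hC : 0 < C)
    (hN : 0 ≤ N) (hE : 0 ≤ E) (hΔ : 0 ≤ Δ) (hal : 0 < al) (hS : 0 ≤ S)
    (k1 : |X0 - PP * X1| ≤ N * Δ) (k2 : |X1 - (al * A + al * Bq)| ≤ K * N * E)
    (k3 : |A + Bq - Q| ≤ C * (K * N) * S) :
    |X0 - al * (PP * Q)| ≤ (1 + PP * K * (1 + C)) * N * (E + al * S + Δ) := by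
  have h1 : X0 - al * (PP * Q) = (X0 - PP * X1) + PP * (X1 - (al * A + al * Bq)) +
      PP * al * (A + Bq - Q) := by ring
  have h2 : |PP * (X1 - (al * A + al * Bq))| ≤ PP * (K * N * E) := by
    rw [abs_mul, abs_of_pos hPP]
    exact mul_le_mul_of_nonneg_left k2 hPP.le
  have h3 : |PP * al * (A + Bq - Q)| ≤ PP * al * (C * (K * N) * S) := by
    rw [abs_mul, abs_of_pos (mul_pos hPP hal)]
    exact mul_le_mul_of_nonneg_left k3 (by positivity)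
  rw [h1]
  refine (abs_add_three _ _ _).trans ?_
  have g1 : 0 ≤ N * (E + al * S) := by positivity
  have g2 : 0 ≤ PP * K * N * (al * S + Δ) := by positivity
  have g3 : 0 ≤ PP * K * C * N * (E + Δ) := by positivity
  linarith only [k1, h2, h3, g1, g2, g3]

/-- recentring: from the first order formula in the frame of level 2 to the tilted plane in the
base frame -/
theorem recenter (hd : 2 ≤ d) {R0 : ℝ} (hR0 : 200 + 8 * d ≤ R0) (J' : ℕ) : ∃ C : ℝ, 0 < C ∧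
    ∀ (m0 m : Sp d → ℝ) (x2 ν w : Sp d) (c al o q E Δ : ℝ), ‖ν‖ = 1 → ⟪ν, w⟫_ℝ = 0 →
      |c| ≤ R0 + 3 → ‖x2‖ ≤ 3 * Real.sqrt d → 0 < al → ‖w‖ ≤ 1 → |o| ≤ 1 →
      q = Real.sqrt (1 + ‖w‖ ^ 2) → 0 ≤ E → 0 ≤ Δ →
      (∀ (ζ : Sp d → ℝ) (N : ℝ), TFn 2 N ζ → (∀ y, ζ y ≠ 0 → ‖y‖ ≤ 3 * R0) →
        |(∫ y, m0 y * ζ y) - 4 ^ (d - 1) * ∫ y, m y * ζ (x2 + (4 : ℝ) • y)| ≤ N * Δ) →
      (∀ (G : Sp d → ℝ) (N : ℝ), TFn J' N G → (∀ y, G y ≠ 0 → ‖y‖ ≤ R0 - 2) →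
        (∀ y, G y ≠ 0 → ‖tang ν y‖ ≤ R0 / 2) →
        |(∫ y, m y * G y) - (al * plInt ν ((c - ⟪ν, x2⟫_ℝ) / 4) G +
          plInt ν ((c - ⟪ν, x2⟫_ℝ) / 4)
            (fun y => (⟪al • w, y⟫_ℝ + al * o) * fderiv ℝ G y ν))| ≤ N * E) →
      ∀ (F : Sp d → ℝ) (N : ℝ), TFn (max J' 2) N F → (∀ y, F y ≠ 0 → ‖y‖ ≤ 3 * R0) →
        (∀ y, F y ≠ 0 → ‖tang ν y‖ ≤ 7 / 4 * R0) →
        |(∫ y, m0 y * F y) - al * plInt ((1 / q) • (ν - w)) ((c + (4 * o - ⟪w, x2⟫_ℝ)) / q) F| ≤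
          C * N * (E + al * (‖w‖ ^ 2 + o ^ 2) + Δ) := by
  have hd0 : (0 : ℝ) ≤ d := by positivity
  have hsd : Real.sqrt d ≤ ((d : ℝ) + 1) / 2 := by
    rw [Real.sqrt_le_left (by positivity)]
    linarith only [sq_nonneg ((d : ℝ) - 1)]
  obtain ⟨C, hC, hrot⟩ := SAm.rot_cmp (d := d) (by omega) R0 (by linarith)
  set K : ℝ := 4 ^ (max J' 2) with hK
  have hK1 : 1 ≤ K := one_le_pow₀ (by norm_num)
  have hP : (0 : ℝ) < 4 ^ (d - 1) := by positivity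
  refine ⟨1 + 4 ^ (d - 1) * K * (1 + C), by positivity, ?_⟩
  intro m0 m x2 ν w c al o q E Δ hν hw hc hx2 hal hw1 ho1 hq hE hΔ htr hfr F N hF hFs hFt
  have hN := TFn_nonneg hF
  set G : Sp d → ℝ := fun y => F (x2 + (4 : ℝ) • y) with hG
  have hGT : TFn (max J' 2) (K * N) G := by
    have := TFn_aff hF x2 (show (4 : ℝ) ≠ 0 by norm_num)
    refine TFn_mono this le_rfl (le_of_eq ?_)
    rw [hK]
    norm_num
  have hns : ∀ y : Sp d, 4 * ‖y‖ ≤ ‖x2 + (4 : ℝ) • y‖ + ‖x2‖ := by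
    intro y
    have h1 := norm_sub_le (x2 + (4 : ℝ) • y) x2
    rw [add_sub_cancel_left, norm_smul] at h1
    norm_num at h1
    exact h1
  have hGs : ∀ y, G y ≠ 0 → ‖y‖ ≤ R0 - 2 := by
    intro y hy
    have h1 := hFs _ hy
    have h2 := hns y
    linarith
  have hGt : ∀ y, G y ≠ 0 → ‖tang ν y‖ ≤ R0 / 2 := by
    intro y hy
    have h1 := hFt _ hy
    have e1 : tang ν (x2 + (4 : ℝ) • y) = tang ν x2 + (4 : ℝ) • tang ν y := by
      rw [SAm.tang_add, SAm.tang_smul]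
    rw [e1] at h1
    have h2 := norm_sub_le (tang ν x2 + (4 : ℝ) • tang ν y) (tang ν x2)
    rw [add_sub_cancel_left, norm_smul] at h2
    norm_num at h2
    have h3 : ‖tang ν x2‖ ≤ ‖x2‖ := SS.norm_tang_le hν x2
    linarith
  have hc2 : |(c - ⟪ν, x2⟫_ℝ) / 4| ≤ R0 / 3 := c2_le hd hR0 hν hc hx2
  set c2 : ℝ := (c - ⟪ν, x2⟫_ℝ) / 4 with hc2d
  have hq0 : q ≠ 0 := by
    have := SAm.one_le_q ‖w‖
    rw [← hq] at this
    positivity
  have k1 := htr F N (TFn_mono hF (le_max_right _ _) le_rfl) hFs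
  have k2 := hfr G (K * N) (TFn_mono hGT (le_max_left _ _) le_rfl) hGs hGt
  have k3 := hrot ν w c2 o q hν hw hw1 ho1 (by linarith) hq G (K * N)
    (TFn_mono hGT (le_max_right _ _) le_rfl) (fun y hy => by
      by_contra h
      linarith [hGs y h])
  -- splitting
  have hG1 : ContDiff ℝ 1 G := hGT.smooth.of_le (by
    have : 1 ≤ max J' 2 := by omega
    exact_mod_cast this)
  have hGd : Continuous (fun y => fderiv ℝ G y ν) :=
    (hG1.continuous_fderiv one_ne_zero).clm_apply continuous_const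
  have hGdt : ∀ y, fderiv ℝ G y ν ≠ 0 → ‖tang ν y‖ ≤ R0 / 2 := by
    intro y hy
    by_contra h
    push Not at h
    exact hy (by rw [SAm.fderiv_zero_of hGt h]; rfl)
  have e1 : plInt ν c2 (fun y => G y + (⟪w, y⟫_ℝ + o) * fderiv ℝ G y ν) =
      plInt ν c2 G + plInt ν c2 (fun y => (⟪w, y⟫_ℝ + o) * fderiv ℝ G y ν) :=
    SAm.plInt_add hν hG1.continuous (by fun_prop) hGt
      (fun y hy => hGdt y (right_ne_zero_of_mul hy)) c2
  have e2 : plInt ν c2 (fun y => (⟪al • w, y⟫_ℝ + al * o) * fderiv ℝ G y ν) =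
      al * plInt ν c2 (fun y => (⟪w, y⟫_ℝ + o) * fderiv ℝ G y ν) := by
    rw [← SAm.plInt_mul]
    congr 1
    funext y
    rw [real_inner_smul_left]
    ring
  have e3 : plInt ((1 / q) • (ν - w)) ((c + (4 * o - ⟪w, x2⟫_ℝ)) / q) F =
      4 ^ (d - 1) * plInt ((1 / q) • (ν - w)) ((c2 + o) / q) G := by
    have hν'1 : ‖(1 / q) • (ν - w)‖ = 1 := by
      have hq1 : 0 < q := by
        have := SAm.one_le_q ‖w‖
        rw [← hq] at this
        linarith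
      have h1 : ‖ν - w‖ ^ 2 = q ^ 2 := by
        rw [norm_sub_sq_real, hν, hw, hq, Real.sq_sqrt (by positivity)]
        ring
      have h2 : ‖ν - w‖ = q := by
        rw [← Real.sqrt_sq (norm_nonneg _), h1, Real.sqrt_sq hq1.le]
      rw [norm_smul, h2, Real.norm_of_nonneg (by positivity)]
      field_simp
    have := plInt_frame (by omega : 1 ≤ d) hν'1 ((c + (4 * o - ⟪w, x2⟫_ℝ)) / q) x2
      (by norm_num : (0 : ℝ) < 4) F
    rw [plane_change hq0] at this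
    exact this
  rw [e2] at k2
  rw [e1] at k3
  rw [e3]
  exact num_rec hP (by linarith) hC hN hE hΔ hal (by positivity) k1 k2 k3

end

end SAFm

end TG


end

section

/-!
# Module SAF: geometry of the new plane, its plane functional, the test functions (helper95)
-/

open MeasureTheory Metric Set TrI
open scoped InnerProductSpace ContDiff

namespace TG

namespace SAFm

noncomputable section

open TU

variable {d : ℕ}

lemma nu_unit {ν w : Sp d} {q : ℝ} (hν : ‖ν‖ = 1) (hw : ⟪ν, w⟫_ℝ = 0)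
    (hq : q = Real.sqrt (1 + ‖w‖ ^ 2)) : ‖(1 / q) • (ν - w)‖ = 1 := by
  have hq1 : 0 < q := by
    have := SAm.one_le_q ‖w‖
    rw [← hq] at this
    linarith
  have h1 : ‖ν - w‖ ^ 2 = q ^ 2 := by
    rw [norm_sub_sq_real, hν, hw, hq, Real.sq_sqrt (by positivity)]
    ring
  have h2 : ‖ν - w‖ = q := by
    rw [← Real.sqrt_sq (norm_nonneg _), h1, Real.sqrt_sq hq1.le]
  rw [norm_smul, h2, Real.norm_of_nonneg (by positivity)]
  field_simp

lemma nu_close {ν w : Sp d} {q : ℝ} (hν : ‖ν‖ = 1) (hw1 : ‖w‖ ≤ 1)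
    (hq : q = Real.sqrt (1 + ‖w‖ ^ 2)) : ‖(1 / q) • (ν - w) - ν‖ ≤ 2 * ‖w‖ := by
  obtain ⟨hq1, _, _, hqb⟩ := SAm.q_bounds (norm_nonneg w) hw1 hq
  have e1 : (1 / q) • (ν - w) - ν = (1 / q - 1) • ν - (1 / q) • w := by
    rw [smul_sub, sub_smul, one_smul]
    abel
  rw [e1]
  refine (norm_sub_le _ _).trans ?_
  rw [norm_smul, norm_smul, hν, mul_one, Real.norm_eq_abs, Real.norm_eq_abs,
    abs_of_nonneg (by positivity : (0 : ℝ) ≤ 1 / q)]
  have h1 : 1 / q ≤ 1 := (div_le_one (by linarith)).2 hq1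
  have h2 : 1 / q * ‖w‖ ≤ ‖w‖ := mul_le_of_le_one_left (norm_nonneg w) h1
  nlinarith only [hqb, h2, hw1, norm_nonneg w]

lemma ob_le {d : ℕ} {R0 : ℝ} (hR0 : 200 + 8 * d ≤ R0) {w x2 : Sp d} {o : ℝ}
    (hx2 : ‖x2‖ ≤ 3 * Real.sqrt d) :
    |4 * o - ⟪w, x2⟫_ℝ| ≤ 4 * |o| + R0 * ‖w‖ := by
  have hd0 : (0 : ℝ) ≤ d := by positivity
  have hsd : Real.sqrt d ≤ ((d : ℝ) + 1) / 2 := by
    rw [Real.sqrt_le_left (by positivity)]
    linarith only [sq_nonneg ((d : ℝ) - 1)]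
  have h1 := abs_real_inner_le_norm w x2
  have h2 : ‖w‖ * ‖x2‖ ≤ ‖w‖ * R0 := mul_le_mul_of_nonneg_left (by linarith) (norm_nonneg w)
  refine (abs_sub _ _).trans ?_
  rw [abs_mul, abs_of_pos (by norm_num : (0 : ℝ) < 4)]
  linarith

lemma c_close {R0 : ℝ} (hR0 : 200 + 8 * d ≤ R0) {w x2 : Sp d} {c o q : ℝ}
    (hc : |c| ≤ R0 + 3) (hx2 : ‖x2‖ ≤ 3 * Real.sqrt d) (hw1 : ‖w‖ ≤ 1)
    (hq : q = Real.sqrt (1 + ‖w‖ ^ 2)) :
    |(c + (4 * o - ⟪w, x2⟫_ℝ)) / q - c| ≤ 4 * |o| + 3 * R0 * ‖w‖ := by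
  have hd0 : (0 : ℝ) ≤ d := by positivity
  obtain ⟨hq1, _, _, hqb⟩ := SAm.q_bounds (norm_nonneg w) hw1 hq
  have h1 := ob_le (o := o) hR0 (w := w) hx2
  have e1 : (c + (4 * o - ⟪w, x2⟫_ℝ)) / q - c = c * (1 / q - 1) + (4 * o - ⟪w, x2⟫_ℝ) / q := by
    have : q ≠ 0 := by positivity
    field_simp
    ring
  rw [e1]
  refine (abs_add_le _ _).trans ?_
  have h2 : |c * (1 / q - 1)| ≤ (R0 + 3) * ‖w‖ := by
    rw [abs_mul]
    have : ‖w‖ ^ 2 ≤ ‖w‖ := by nlinarith only [hw1, norm_nonneg w]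
    exact mul_le_mul hc (hqb.trans this) (abs_nonneg _) (by linarith)
  have h3 : |(4 * o - ⟪w, x2⟫_ℝ) / q| ≤ |4 * o - ⟪w, x2⟫_ℝ| := by
    rw [abs_div, abs_of_pos (by linarith : 0 < q)]
    exact div_le_self (abs_nonneg _) hq1
  nlinarith only [h1, h2, h3, hR0, norm_nonneg w]

lemma ht_new {ν w x2 : Sp d} {c o q : ℝ} (y : Sp d) :
    ht ((1 / q) • (ν - w)) ((c + (4 * o - ⟪w, x2⟫_ℝ)) / q) y =
      (ht ν c y - (⟪w, y⟫_ℝ + (4 * o - ⟪w, x2⟫_ℝ))) / q := by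
  unfold ht
  rw [real_inner_smul_left, inner_sub_left]
  ring

/-- the tangential parts with respect to close normals -/
lemma tang_close {ν ν' : Sp d} (hν : ‖ν‖ = 1) (hν' : ‖ν'‖ = 1) (y : Sp d) :
    ‖tang ν y‖ ≤ ‖tang ν' y‖ + 2 * ‖ν' - ν‖ * ‖y‖ := by
  have e1 : tang ν y = tang ν' y + (⟪ν' - ν, y⟫_ℝ • ν' + ⟪ν, y⟫_ℝ • (ν' - ν)) := by
    unfold tang
    rw [inner_sub_left, sub_smul, smul_sub]
    abel
  rw [e1]
  refine (norm_add_le _ _).trans ?_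
  have h1 : ‖⟪ν' - ν, y⟫_ℝ • ν' + ⟪ν, y⟫_ℝ • (ν' - ν)‖ ≤ 2 * ‖ν' - ν‖ * ‖y‖ := by
    refine (norm_add_le _ _).trans ?_
    rw [norm_smul, norm_smul, hν', mul_one, Real.norm_eq_abs, Real.norm_eq_abs]
    have h2 := abs_real_inner_le_norm (ν' - ν) y
    have h3 := abs_real_inner_le_norm ν y
    rw [hν, one_mul] at h3
    have h4 := mul_le_mul_of_nonneg_right h3 (norm_nonneg (ν' - ν))
    linarith
  linarith

/-- the test functions -/
lemma testF (d J : ℕ) : ∃ C : ℝ, 0 < C ∧ ∀ (ν : Sp d) (c : ℝ), ‖ν‖ = 1 →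
    ∀ (ζ0 ζ1 : Sp d → ℝ) (N : ℝ), TFn J N ζ0 → TFn J N ζ1 →
      TFn J (C * N) (fun y => cu1 1 (ht ν c y) * (ζ0 y + ht ν c y * ζ1 y)) := by
  obtain ⟨N0, hN0, h0⟩ := SAm.cu1_TFn d J
  obtain ⟨N1, hN1, h1⟩ := TC.CB.of_compactSupport (X := ℝ) (F := ℝ) (J := J)
    (g := fun z : ℝ => z * cu1 1 z) (by
      obtain ⟨N2, _, h2⟩ := TC.cu1_cb J
      exact contDiff_id.mul (h2 1 zero_le_one).smooth) (by
      refine HasCompactSupport.intro (isCompact_Icc (a := (-2 : ℝ)) (b := 2)) fun z hz => ?_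
      have : 1 + 1 ≤ |z| := by
        by_contra h
        push Not at h
        exact hz ⟨by linarith [neg_abs_le z], by linarith [le_abs_self z]⟩
      rw [TC.cu1_zero this, mul_zero])
  refine ⟨2 ^ J * N0 + 2 ^ J * N1, by positivity, ?_⟩
  intro ν c hν ζ0 ζ1 N hζ0 hζ1
  have t1 := TFn_mul (h0 1 zero_le_one ν c hν) hζ0
  have t2 := TFn_mul (h1.comp_ht hν.le c).tfn hζ1
  have t3 := TFn_add t1 t2
  have e1 : (fun y => cu1 1 (ht ν c y) * ζ0 y + ht ν c y * cu1 1 (ht ν c y) * ζ1 y) =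
      fun y => cu1 1 (ht ν c y) * (ζ0 y + ht ν c y * ζ1 y) := by
    funext y
    ring
  rw [e1] at t3
  refine TFn_mono t3 le_rfl (le_of_eq ?_)
  ring

lemma lin_sq (d : ℕ) {R0 : ℝ} (hR0 : 200 + 8 * d ≤ R0) : ∃ K : ℝ, 0 < K ∧
    ∀ (w x2 : Sp d) (o : ℝ), ‖x2‖ ≤ 3 * Real.sqrt d →
      TFn 2 (K * (‖w‖ ^ 2 + o ^ 2))
        (fun y => zR R0 y * (⟪w, y⟫_ℝ + (4 * o - ⟪w, x2⟫_ℝ)) ^ 2) := by
  have hd0 : (0 : ℝ) ≤ d := by positivity
  obtain ⟨N1, hN1, h1⟩ := TFn_of_cs (J := 2) (ζ := (zR R0 : Sp d → ℝ))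
    (SAm.zR_contDiff (by linarith) 2) (zR_cs _)
  have hRp : 0 < R0 := by linarith
  refine ⟨2 ^ 2 * 2 ^ 2 * N1 * (18 * R0 ^ 2), by positivity, ?_⟩
  intro w x2 o hx2
  have hob := ob_le (o := o) hR0 (w := w) hx2
  have hρ : 0 ≤ R0 + 1 := by linarith
  have t1 := SAm.TFn_mul_lin h1 hρ (fun y hy => zR_zero hy.le) w (4 * o - ⟪w, x2⟫_ℝ)
  have t2 := SAm.TFn_mul_lin t1 hρ (fun y hy => by rw [zR_zero hy.le, zero_mul]) w
    (4 * o - ⟪w, x2⟫_ℝ)
  have e1 : (fun y => zR R0 y * (⟪w, y⟫_ℝ + (4 * o - ⟪w, x2⟫_ℝ)) *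
      (⟪w, y⟫_ℝ + (4 * o - ⟪w, x2⟫_ℝ))) =
      fun y => zR R0 y * (⟪w, y⟫_ℝ + (4 * o - ⟪w, x2⟫_ℝ)) ^ 2 := by
    funext y
    ring
  rw [e1] at t2
  refine TFn_mono t2 le_rfl ?_
  set A := ‖w‖ * (1 + (R0 + 1)) + |4 * o - ⟪w, x2⟫_ℝ| with hA
  have hA0 : 0 ≤ A := by positivity
  have hA1 : A ≤ 3 * R0 * (‖w‖ + |o|) := by
    have g1 : 4 * |o| ≤ 3 * R0 * |o| := mul_le_mul_of_nonneg_right (by linarith) (abs_nonneg o)
    have g2 : ‖w‖ * (1 + (R0 + 1)) + R0 * ‖w‖ ≤ 3 * R0 * ‖w‖ := by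
      nlinarith only [hR0, norm_nonneg w]
    linarith
  have hA2 : A ^ 2 ≤ 18 * R0 ^ 2 * (‖w‖ ^ 2 + o ^ 2) := by
    have g1 : A ^ 2 ≤ (3 * R0 * (‖w‖ + |o|)) ^ 2 := pow_le_pow_left₀ hA0 hA1 2
    have g2 : (‖w‖ + |o|) ^ 2 ≤ 2 * (‖w‖ ^ 2 + o ^ 2) := by
      linarith only [sq_nonneg (‖w‖ - |o|), sq_abs o]
    calc A ^ 2 ≤ 9 * R0 ^ 2 * (‖w‖ + |o|) ^ 2 := by linarith [g1]
      _ ≤ 9 * R0 ^ 2 * (2 * (‖w‖ ^ 2 + o ^ 2)) :=
        mul_le_mul_of_nonneg_left g2 (by positivity)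
      _ = _ := by ring
  have e2 : (2 : ℝ) ^ 2 * (2 ^ 2 * (N1 * A) * A) = 2 ^ 2 * 2 ^ 2 * N1 * A ^ 2 := by ring
  rw [e2]
  calc (2 : ℝ) ^ 2 * 2 ^ 2 * N1 * A ^ 2 ≤
      2 ^ 2 * 2 ^ 2 * N1 * (18 * R0 ^ 2 * (‖w‖ ^ 2 + o ^ 2)) :=
        mul_le_mul_of_nonneg_left hA2 (by positivity)
    _ = _ := by ring

lemma int_split {m a b c : Sp d → ℝ} (ia : Integrable (fun y => m y * a y))
    (ib : Integrable (fun y => m y * b y)) (ic : Integrable (fun y => m y * c y)) :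
    ∫ y, m y * (2 * a y + 2 * b y - c y) =
      2 * (∫ y, m y * a y) + 2 * (∫ y, m y * b y) - ∫ y, m y * c y := by
  have i3 := ia.const_mul 2
  have i4 := ib.const_mul 2
  have i34 : Integrable (fun y => 2 * (m y * a y) + 2 * (m y * b y)) := i3.add i4
  rw [← integral_const_mul, ← integral_const_mul, ← integral_add i3 i4,
    ← integral_sub i34 ic]
  congr 1
  funext y
  ring

lemma num_blc {CZ CM K1 K2 Sw mm D0 D2 X0 X1 X2 : ℝ} (hCZ : 0 < CZ) (hCM : 0 < CM)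
    (hK1 : 0 < K1) (hK2 : 0 < K2) (hSw : 0 ≤ Sw) (hmm : 0 ≤ mm) (hD0 : 0 ≤ D0) (hD2 : 0 ≤ D2)
    (k1 : -(CZ * (3 * K1 + 4 * K2) * D0) ≤ 2 * X0 + 2 * X1 - X2)
    (k3 : X1 ≤ CM * (K2 * Sw) * (mm + D0 + D2)) :
    X2 ≤ 2 * X0 + (2 * (CM * K2) + CZ * (3 * K1 + 4 * K2)) * Sw * (mm + D0 + D2) +
      (2 * (CM * K2) + CZ * (3 * K1 + 4 * K2)) * D0 := by
  have p1 : 0 ≤ CZ * (3 * K1 + 4 * K2) * Sw * (mm + D0 + D2) := by positivity
  have p2 : 0 ≤ 2 * (CM * K2) * D0 := by positivity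
  linarith only [k1, k3, p1, p2]

/-- the plane functional of the new plane -/
theorem blc_new (hZ : StmtZ) (hTW : StmtTW) (hSC : StmtSC) (hMA : StmtMA) (hd : 2 ≤ d)
    {M c0 ε : ℝ} (hε : 0 < ε) (hε1 : ε ≤ 1) {b : Sp d → ℝ} (hb : BaseKer 2 M c0 b) {R0 : ℝ}
    (hR0 : 200 + 8 * d ≤ R0) : ∃ C : ℝ, 0 < C ∧
    ∀ (E : Type) [NormedAddCommGroup E] [InnerProductSpace ℝ E] [FiniteDimensional ℝ E],
    ∀ (R : ℝ), 4 * R0 + 10 ≤ R → ∀ f : Sp d → E, Continuous f → HasCompactSupport f →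
    ∀ (n : ℕ) (x : ℕ → Sp d) (e : ℕ → E), Tower x e →
    ∀ (ν w : Sp d) (c o q : ℝ), ‖ν‖ = 1 → ⟪ν, w⟫_ℝ = 0 → |c| ≤ R0 + 3 → ‖w‖ ≤ 1 → |o| ≤ 1 →
      q = Real.sqrt (1 + ‖w‖ ^ 2) → |(c + (4 * o - ⟪w, x 2⟫_ℝ)) / q| ≤ R0 + 4 →
      blc ((1 / q) • (ν - w)) ((c + (4 * o - ⟪w, x 2⟫_ℝ)) / q) (fun y => ⟪f y, e 0⟫_ℝ) R0 ≤
        2 * (∫ y, ⟪f y, e 0⟫_ℝ * (zR R0 y * ht ν c y ^ 2)) +
        C * (‖w‖ ^ 2 + o ^ 2) * (ma b ε R0 ((1 / 2) ^ n) f (n + 2) (x 2) +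
          DD b ε R ((1 / 2) ^ n) f n 0 (e 0) + DD b ε R ((1 / 2) ^ n) f (n + 2) (x 2) (e 2)) +
        C * DD b ε R ((1 / 2) ^ n) f n 0 (e 0) := by
  have hd0 : (0 : ℝ) ≤ d := by positivity
  obtain ⟨CZ, hCZ, hz⟩ := Z' hZ (by omega : 1 ≤ d) hε hε1 hb
  obtain ⟨CM, hCM, hm⟩ := mass_base hTW hSC hMA hd hε hε1 hb (R0 := R0) (by linarith)
  obtain ⟨N1, hN1, h1⟩ := TFn_of_cs (J := 2) (ζ := (zR R0 : Sp d → ℝ))
    (SAm.zR_contDiff (by linarith) 2) (zR_cs _)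
  obtain ⟨K2, hK2, h2⟩ := lin_sq d hR0
  set K1 : ℝ := 4 ^ 2 * N1 * max 1 (R0 + 1 + (R0 + 4)) ^ 2 with hK1
  have hK1p : 0 < K1 := by positivity
  refine ⟨2 * (CM * K2) + CZ * (3 * K1 + 4 * K2), by positivity, ?_⟩
  intro E _ _ _ R hR f hf hfc n x e hT ν w c o q hν hw hc hw1 ho1 hq hc'
  obtain ⟨_, _, hx2⟩ := tower_le hT
  have hν' := nu_unit hν hw hq
  obtain ⟨hq1, _, _, _⟩ := SAm.q_bounds (norm_nonneg w) hw1 hq
  have t0 : TFn 2 K1 (fun y => zR R0 y * ht ν c y ^ 2) :=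
    TFn_ht_sq h1 (ρ := R0 + 1) (fun y hy => zR_zero hy.le) hν (by linarith)
  have t1 : TFn 2 K1 (fun y => zR R0 y *
      ht ((1 / q) • (ν - w)) ((c + (4 * o - ⟪w, x 2⟫_ℝ)) / q) y ^ 2) :=
    TFn_ht_sq h1 (ρ := R0 + 1) (fun y hy => zR_zero hy.le) hν' hc'
  have t2 := h2 w (x 2) o hx2
  set Sw := ‖w‖ ^ 2 + o ^ 2 with hSw
  have hSw0 : 0 ≤ Sw := by positivity
  have hSw2 : Sw ≤ 2 := by
    have g1 : ‖w‖ ^ 2 ≤ 1 := by nlinarith [norm_nonneg w]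
    have g2 : o ^ 2 ≤ 1 := by nlinarith only [ho1, sq_abs o, abs_nonneg o]
    linarith
  have t3 := TFn_sub (TFn_add (TFn_const_mul t0 2) (TFn_const_mul t2 2)) t1
  have t4 := TFn_mono t3 le_rfl (show |(2 : ℝ)| * K1 + |(2 : ℝ)| * (K2 * Sw) + K1 ≤
      3 * K1 + 4 * K2 by
    rw [abs_of_pos (by norm_num : (0 : ℝ) < 2)]
    nlinarith only [hK2, hSw2])
  have k1 := hz E f hf hfc R (by linarith) n (e 0) (hT.unit 0) 0 _ _ t4 (fun y => by
    rw [ht_new]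
    have g0 := zR_nonneg R0 y
    set z := ht ν c y
    set l := ⟪w, y⟫_ℝ + (4 * o - ⟪w, x 2⟫_ℝ)
    have g1 : ((z - l) / q) ^ 2 ≤ (z - l) ^ 2 := by
      rw [div_pow]
      exact div_le_self (sq_nonneg _) (one_le_pow₀ hq1)
    have g2 : 0 ≤ 2 * z ^ 2 + 2 * l ^ 2 - ((z - l) / q) ^ 2 := by linarith only [g1, sq_nonneg (z + l)]
    have g3 := mul_nonneg g0 g2
    linarith only [g3]) (fun y hy => by
    rw [sub_zero] at hy
    rw [zR_zero (by linarith)]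
    ring)
  have k2 := hm E R hR f hf hfc n x e hT _ _ t2 (fun y hy => by
    rw [zR_zero (by linarith), zero_mul])
  have i0 := SS.integrable_m hf hfc (e 0) t0.smooth.continuous
  have i1 := SS.integrable_m hf hfc (e 0) t1.smooth.continuous
  have i2 := SS.integrable_m hf hfc (e 0) t2.smooth.continuous
  have e1 := int_split i0 i2 i1
  rw [e1] at k1
  have hD0 := DD_nonneg b ε R (by positivity : (0 : ℝ) < (1 / 2) ^ n) f n 0 (hT.unit 0)
  have hD2 := DD_nonneg b ε R (by positivity : (0 : ℝ) < (1 / 2) ^ n) f (n + 2) (x 2) (hT.unit 2)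
  have hm2 := ma_nonneg b ε R0 (by positivity : (0 : ℝ) < (1 / 2) ^ n) f (n + 2) (x 2)
  have e3 : blc ((1 / q) • (ν - w)) ((c + (4 * o - ⟪w, x 2⟫_ℝ)) / q)
      (fun y => ⟪f y, e 0⟫_ℝ) R0 = ∫ y, ⟪f y, e 0⟫_ℝ *
        (zR R0 y * ht ((1 / q) • (ν - w)) ((c + (4 * o - ⟪w, x 2⟫_ℝ)) / q) y ^ 2) := rfl
  rw [e3]
  generalize DD b ε R ((1 / 2) ^ n) f n 0 (e 0) = D0 at *
  generalize DD b ε R ((1 / 2) ^ n) f (n + 2) (x 2) (e 2) = D2 at *
  generalize ma b ε R0 ((1 / 2) ^ n) f (n + 2) (x 2) = mm at *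
  generalize (∫ y, ⟪f y, e 0⟫_ℝ * (zR R0 y * ht ν c y ^ 2)) = X0 at *
  generalize (∫ y, ⟪f y, e 0⟫_ℝ *
    (zR R0 y * (⟪w, y⟫_ℝ + (4 * o - ⟪w, x 2⟫_ℝ)) ^ 2)) = X1 at *
  generalize (∫ y, ⟪f y, e 0⟫_ℝ *
        (zR R0 y * ht ((1 / q) • (ν - w)) ((c + (4 * o - ⟪w, x 2⟫_ℝ)) / q) y ^ 2)) = X2 at *
  exact num_blc hCZ hCM hK1p hK2 hSw0 hm2 hD0 hD2 k1 ((le_abs_self _).trans k2)

end

end SAFm

end TG


end

section

/-!
# Trace inequality, general operators: the nonconstant part of the jump (module SH2)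
-/

open MeasureTheory Metric Set TrI
open scoped InnerProductSpace ContDiff

namespace TG

noncomputable section

namespace SH2

/-! ## Markov inequality -/

/-- weights computing the derivative at 0 of real polynomials of degree at most m -/
lemma weights (m : ℕ) : ∃ w : ℕ → ℝ, ∀ k ≤ m,
    ∑ i ∈ Finset.range (m + 1), w i * ((i : ℝ) / (m + 1)) ^ k = if k = 1 then 1 else 0 := by
  set v : ℕ → ℝ := fun i => (i : ℝ) / (m + 1) with hv
  have hm : (0 : ℝ) < (m : ℝ) + 1 := by positivity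
  have hinj : Set.InjOn v (Finset.range (m + 1) : Finset ℕ) := by
    intro i _ j _ h
    have h1 : (i : ℝ) / (m + 1) = (j : ℝ) / (m + 1) := h
    rw [div_left_inj' hm.ne'] at h1
    exact_mod_cast h1
  refine ⟨fun i => (Lagrange.basis (Finset.range (m + 1)) v i).derivative.eval 0, fun k hk => ?_⟩
  have hdeg : (Polynomial.X ^ k : Polynomial ℝ).degree < (Finset.range (m + 1)).card := by
    rw [Polynomial.degree_X_pow, Finset.card_range]
    exact_mod_cast Nat.lt_succ_of_le hk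
  have h1 := Lagrange.eq_interpolate (f := (Polynomial.X ^ k : Polynomial ℝ)) hinj hdeg
  have h2 := congrArg (fun p : Polynomial ℝ => p.derivative.eval 0) h1
  simp only [Lagrange.interpolate_apply, Polynomial.derivative_sum, Polynomial.eval_finsetSum,
    Polynomial.derivative_C_mul, Polynomial.eval_mul, Polynomial.eval_C, Polynomial.eval_pow,
    Polynomial.eval_X, Polynomial.derivative_X_pow] at h2
  have h3 : ∑ i ∈ Finset.range (m + 1),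
      (Lagrange.basis (Finset.range (m + 1)) v i).derivative.eval 0 * ((i : ℝ) / (m + 1)) ^ k =
      (k : ℝ) * (0 : ℝ) ^ (k - 1) := by
    rw [h2]
    exact Finset.sum_congr rfl fun i _ => mul_comm _ _
  rw [h3]
  rcases Nat.lt_or_ge k 2 with h | h
  · interval_cases k <;> simp
  · have h4 : k - 1 ≠ 0 := by omega
    rw [zero_pow h4, mul_zero, if_neg (by omega)]

lemma markov1 (m : ℕ) (ρ : ℝ) (hρ : 0 < ρ) : ∃ C : ℝ, 0 < C ∧
    ∀ (d : ℕ) (V : Type) [NormedAddCommGroup V] [NormedSpace ℝ V] (P : Sp d → V),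
      PolL (m + 1) P → ∀ (q : Sp d) (A : ℝ), (∀ y ∈ closedBall q (ρ + ρ), ‖P y‖ ≤ A) →
        ∀ y ∈ closedBall q ρ, ‖fderiv ℝ P y‖ ≤ C * A := by
  obtain ⟨w, hw⟩ := weights m
  refine ⟨(∑ i ∈ Finset.range (m + 1), |w i| + 1) / ρ, by positivity, ?_⟩
  intro d V _ _ P hP q A hA y hy
  have hA0 : 0 ≤ A := (norm_nonneg _).trans (hA q (by simp; positivity))
  -- the identity
  have key : ∀ h : Sp d, ‖h‖ ≤ ρ →
      ‖fderiv ℝ P y h‖ ≤ (∑ i ∈ Finset.range (m + 1), |w i| + 1) * A := by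
    intro h hh
    rcases Nat.eq_zero_or_pos m with hm0 | hm0
    · -- constant
      subst hm0
      have h1 : ‖fderiv ℝ P y‖ = 0 := by
        rw [← norm_iteratedFDeriv_one, hP.2 y, norm_zero]
      rw [norm_eq_zero] at h1
      rw [h1]
      simp only [_root_.zero_apply, norm_zero]
      positivity
    have e1 : ∀ i ∈ Finset.range (m + 1), P (y + ((i : ℝ) / (m + 1)) • h) =
        ∑ k ∈ Finset.range (m + 1), ((i : ℝ) / (m + 1)) ^ k •
          ((Nat.factorial k : ℝ)⁻¹ • iteratedFDeriv ℝ k P y (fun _ => h)) := by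
      intro i _
      rw [← eq_taylor hP.1 hP.2 (y + ((i : ℝ) / (m + 1)) • h) y]
      refine Finset.sum_congr rfl fun k _ => ?_
      rw [add_sub_cancel_left]
      have h3 := ContinuousMultilinearMap.map_smul_univ
        (iteratedFDeriv ℝ k P y) (fun _ => (i : ℝ) / (m + 1)) (fun _ => h)
      rw [h3, Finset.prod_const, Finset.card_univ, Fintype.card_fin, smul_comm]
    have e2 : ∑ i ∈ Finset.range (m + 1), w i • P (y + ((i : ℝ) / (m + 1)) • h) =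
        fderiv ℝ P y h := by
      rw [Finset.sum_congr rfl fun i hi => by rw [e1 i hi, Finset.smul_sum], Finset.sum_comm]
      have e3 : ∀ k ∈ Finset.range (m + 1), ∑ i ∈ Finset.range (m + 1),
          w i • (((i : ℝ) / (m + 1)) ^ k •
            ((Nat.factorial k : ℝ)⁻¹ • iteratedFDeriv ℝ k P y (fun _ => h))) =
          (if k = 1 then (1 : ℝ) else 0) •
            ((Nat.factorial k : ℝ)⁻¹ • iteratedFDeriv ℝ k P y (fun _ => h)) := by
        intro k hk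
        rw [← hw k (by have := Finset.mem_range.mp hk; omega), Finset.sum_smul]
        exact Finset.sum_congr rfl fun i _ => by rw [smul_smul]
      rw [Finset.sum_congr rfl e3, Finset.sum_eq_single 1]
      · simp
      · intro k _ hk
        rw [if_neg hk, zero_smul]
      · intro h1
        exact absurd (Finset.mem_range.mpr (by omega)) h1
    rw [← e2]
    refine (norm_sum_le _ _).trans ?_
    have e4 : ∀ i ∈ Finset.range (m + 1), ‖w i • P (y + ((i : ℝ) / (m + 1)) • h)‖ ≤ |w i| * A := by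
      intro i hi
      rw [norm_smul, Real.norm_eq_abs]
      refine mul_le_mul_of_nonneg_left (hA _ ?_) (abs_nonneg _)
      rw [mem_closedBall, dist_eq_norm] at hy ⊢
      have h5 : ‖((i : ℝ) / (m + 1)) • h‖ ≤ ρ := by
        rw [norm_smul, Real.norm_eq_abs, abs_of_nonneg (by positivity)]
        have h6 : (i : ℝ) / (m + 1) ≤ 1 := by
          rw [div_le_one (by positivity)]
          have := Finset.mem_range.mp hi
          exact_mod_cast this.le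
        calc (i : ℝ) / (m + 1) * ‖h‖ ≤ 1 * ρ :=
              mul_le_mul h6 hh (norm_nonneg _) zero_le_one
          _ = ρ := one_mul _
      calc ‖y + ((i : ℝ) / (m + 1)) • h - q‖ = ‖(y - q) + ((i : ℝ) / (m + 1)) • h‖ := by
            congr 1; abel
        _ ≤ ‖y - q‖ + ‖((i : ℝ) / (m + 1)) • h‖ := norm_add_le _ _
        _ ≤ ρ + ρ := add_le_add hy h5
    refine (Finset.sum_le_sum e4).trans ?_
    rw [← Finset.sum_mul]
    nlinarith
  refine ContinuousLinearMap.opNorm_le_bound _ (by positivity) fun h => ?_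
  rcases eq_or_ne h 0 with h0 | h0
  · subst h0
    simp
  have hn : 0 < ‖h‖ := norm_pos_iff.mpr h0
  have h1 := key ((ρ / ‖h‖) • h) (by
    rw [norm_smul, Real.norm_eq_abs, abs_of_nonneg (by positivity), div_mul_cancel₀ _ hn.ne'])
  rw [map_smul, norm_smul, Real.norm_eq_abs, abs_of_nonneg (by positivity)] at h1
  have h2 : ‖fderiv ℝ P y h‖ = ‖h‖ / ρ * (ρ / ‖h‖ * ‖fderiv ℝ P y h‖) := by
    field_simp
  rw [h2]
  calc ‖h‖ / ρ * (ρ / ‖h‖ * ‖fderiv ℝ P y h‖) ≤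
        ‖h‖ / ρ * ((∑ i ∈ Finset.range (m + 1), |w i| + 1) * A) :=
        mul_le_mul_of_nonneg_left h1 (by positivity)
    _ = (∑ i ∈ Finset.range (m + 1), |w i| + 1) / ρ * A * ‖h‖ := by ring

lemma polFderiv {d : ℕ} {V : Type} [NormedAddCommGroup V] [NormedSpace ℝ V] {k : ℕ}
    {P : Sp d → V} (hP : PolL k P) : PolL k (fderiv ℝ P) := by
  refine ⟨hP.1.fderiv_right (by exact_mod_cast le_top), fun x => ?_⟩
  rw [← norm_eq_zero, norm_iteratedFDeriv_fderiv, hP.succ.2 x, norm_zero]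

lemma markov (m j : ℕ) : ∀ (ρ : ℝ), 0 < ρ → ∃ C : ℝ, 0 < C ∧
    ∀ (d : ℕ) (V : Type) [NormedAddCommGroup V] [NormedSpace ℝ V] (P : Sp d → V),
      PolL (m + 1) P → ∀ (q : Sp d) (A : ℝ), (∀ y ∈ closedBall q ρ, ‖P y‖ ≤ A) →
        ‖iteratedFDeriv ℝ j P q‖ ≤ C * A := by
  induction j with
  | zero =>
    intro ρ hρ
    refine ⟨1, one_pos, ?_⟩
    intro d V _ _ P _ q A hA
    rw [norm_iteratedFDeriv_zero, one_mul]
    exact hA q (by simp; positivity)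
  | succ j ih =>
    intro ρ hρ
    obtain ⟨C1, hC1, h1⟩ := markov1 m (ρ / 2) (by positivity)
    obtain ⟨C2, hC2, h2⟩ := ih (ρ / 2) (by positivity)
    refine ⟨C2 * C1, by positivity, ?_⟩
    intro d V _ _ P hP q A hA
    rw [← norm_iteratedFDeriv_fderiv, mul_assoc]
    refine h2 d (Sp d →L[ℝ] V) (fderiv ℝ P) (polFderiv hP) q (C1 * A) ?_
    intro y hy
    exact h1 d V P hP q A (by rw [add_halves]; exact hA) y hy

lemma markov_all (m : ℕ) : ∃ C : ℝ, 0 < C ∧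
    ∀ (d : ℕ) (V : Type) [NormedAddCommGroup V] [NormedSpace ℝ V] (P : Sp d → V),
      PolL (m + 1) P → ∀ (q : Sp d) (A : ℝ), (∀ y ∈ closedBall q 1, ‖P y‖ ≤ A) →
        ∀ j ≤ m, ‖iteratedFDeriv ℝ j P q‖ ≤ C * A := by
  choose C hC h using fun j => markov m j 1 one_pos
  refine ⟨∑ j ∈ Finset.range (m + 1), C j, Finset.sum_pos (fun j _ => hC j) (by simp), ?_⟩
  intro d V _ _ P hP q A hA j hj
  have hA0 : 0 ≤ A := (norm_nonneg _).trans (hA q (by simp))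
  refine (h j d V P hP q A hA).trans (mul_le_mul_of_nonneg_right ?_ hA0)
  exact Finset.single_le_sum (f := C) (fun i _ => (hC i).le) (Finset.mem_range.mpr (by omega))

/-! ## Scaling -/

section Sc

variable {d : ℕ} {V E : Type} [NormedAddCommGroup V] [InnerProductSpace ℝ V]
  [FiniteDimensional ℝ V] [NormedAddCommGroup E] [InnerProductSpace ℝ E] [FiniteDimensional ℝ E]

lemma itF_aff' {F : Type} [NormedAddCommGroup F] [NormedSpace ℝ F] (k : ℕ) (g : Sp d → F)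
    (x : Sp d) {t : ℝ} (ht : t ≠ 0) (y : Sp d) :
    iteratedFDeriv ℝ k (fun y => g (x + t • y)) y = t ^ k • iteratedFDeriv ℝ k g (x + t • y) := by
  ext m
  rw [SC.itF_aff k g x ht y m]
  rfl

lemma polAff {F : Type} [NormedAddCommGroup F] [NormedSpace ℝ F] {k : ℕ} {g : Sp d → F}
    (hg : PolL k g) (x : Sp d) {t : ℝ} (ht : t ≠ 0) : PolL k (fun y => g (x + t • y)) := by
  refine ⟨hg.1.comp (contDiff_const.add (contDiff_id.const_smul t)), fun y => ?_⟩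
  rw [itF_aff' k g x ht, hg.2, smul_zero]

lemma polSub {F : Type} [NormedAddCommGroup F] [NormedSpace ℝ F] {k : ℕ} {g h : Sp d → F}
    (hg : PolL k g) (hh : PolL k h) : PolL k (fun y => g y - h y) := by
  refine ⟨hg.1.sub hh.1, fun y => ?_⟩
  have h1 := iteratedFDeriv_sub_apply (𝕜 := ℝ) (i := k) (f := g) (g := h) (x := y)
    (hg.1.contDiffAt.of_le (by exact_mod_cast le_top))
    (hh.1.contDiffAt.of_le (by exact_mod_cast le_top))
  have h2 : (fun y => g y - h y) = g - h := rfl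
  rw [h2, h1, hg.2, hh.2, sub_zero]

omit [FiniteDimensional ℝ V] [FiniteDimensional ℝ E] in
lemma fo_cont (L : (Sp d →L[ℝ] V) →L[ℝ] E) {u : Sp d → V} (hu : TF u) :
    Continuous (fo L u) :=
  L.continuous.comp (hu.smooth.continuous_fderiv (by simp))

omit [FiniteDimensional ℝ V] [FiniteDimensional ℝ E] in
lemma fo_cs (L : (Sp d →L[ℝ] V) →L[ℝ] E) {u : Sp d → V} (hu : TF u) :
    HasCompactSupport (fo L u) :=
  (hu.supp.fderiv (𝕜 := ℝ)).comp_left (g := fun M => L M) (map_zero L)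

lemma JJ_PolL (hd : 1 ≤ d) (m : ℕ) (ν q : Sp d) {r : ℝ} (hr : 0 < r) {u : Sp d → V}
    (hu : ContDiff ℝ ∞ u) : PolL (m + 1) (JJ m ν q r u) := by
  have h1 := stmtTQ d V m u hd hu (q + (6 * r) • ν) r hr
  have h2 := stmtTQ d V m u hd hu (q - (6 * r) • ν) r hr
  exact polSub ⟨h1.1, h1.2.1⟩ ⟨h2.1, h2.2.1⟩

omit [FiniteDimensional ℝ V] in
/-- averaged Taylor polynomials on balls away from the support vanish -/
lemma ATP_zero (m : ℕ) (c : Sp d) {r : ℝ} (hr : 0 < r) {u : Sp d → V} {ρ : ℝ}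
    (hu : ∀ y, ρ ≤ ‖y‖ → u y = 0) (hc : ρ + r < ‖c‖) (x : Sp d) : ATP m c r u x = 0 := by
  unfold ATP
  refine integral_eq_zero_of_ae (Filter.Eventually.of_forall fun z => ?_)
  beta_reduce
  rcases le_or_gt 1 ‖z‖ with hz | hz
  · rw [bk_zero hz, zero_smul]
    rfl
  have h1 : ρ < ‖c + r • z‖ := by
    have h2 : ‖c‖ ≤ ‖c + r • z‖ + ‖r • z‖ := by
      calc ‖c‖ = ‖(c + r • z) - r • z‖ := by rw [add_sub_cancel_right]
        _ ≤ _ := norm_sub_le _ _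
    have h3 : ‖r • z‖ ≤ r := by
      rw [norm_smul, Real.norm_eq_abs, abs_of_pos hr]
      nlinarith
    linarith
  have h2 : u =ᶠ[nhds (c + r • z)] fun _ => 0 := by
    have h3 : ∀ᶠ y in nhds (c + r • z), ρ < ‖y‖ :=
      continuous_norm.continuousAt.eventually (lt_mem_nhds h1)
    filter_upwards [h3] with y hy using hu y hy.le
  have h4 : ∀ k, iteratedFDeriv ℝ k u (c + r • z) = 0 := by
    intro k
    rw [(Filter.EventuallyEq.iteratedFDeriv ℝ h2 k).eq_of_nhds]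
    simp
  rw [Finset.sum_eq_zero fun k _ => by rw [h4 k]; simp, smul_zero]
  rfl

omit [InnerProductSpace ℝ E] [FiniteDimensional ℝ E] in
lemma tower_norm {x : ℕ → Sp d} {e : ℕ → E} (hT : Tower x e) (r : ℕ) :
    ‖x r‖ ≤ Real.sqrt d * (2 ^ r - 1) := by
  induction r with
  | zero => simp [hT.zero]
  | succ r ih =>
    calc ‖x (r + 1)‖ = ‖x r + (x (r + 1) - x r)‖ := by rw [add_sub_cancel]
      _ ≤ ‖x r‖ + ‖x (r + 1) - x r‖ := norm_add_le _ _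
      _ ≤ Real.sqrt d * (2 ^ r - 1) + Real.sqrt d * 2 ^ r := add_le_add ih (hT.step r)
      _ = Real.sqrt d * (2 ^ (r + 1) - 1) := by ring

end Sc

end SH2

open _root_.TG.SH2 in
theorem stmtSH2 (hHU : StmtHU) : StmtSH2 := by
  intro d V E _ _ _ _ _ _ L n0 T hd hn hNS M c0 ε hε hε1 b hb R0 hR0
  have hd0 : (0 : ℝ) ≤ d := Nat.cast_nonneg d
  have hd1 : 1 ≤ d := by omega
  obtain ⟨C1, hC1, hU⟩ := hHU d V E L n0 T hd1 hn hNS M c0 ε hε hε1 b hb R0 (by linarith)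
  obtain ⟨C2, hC2, hM⟩ := markov_all n0
  refine ⟨4 * (C2 * (2 * C1)), by positivity, ?_⟩
  intro R hR n u hu x e hT ν c B hν hc hB j hj1 hjn
  have hsq : Real.sqrt d ≤ d := by
    rw [Real.sqrt_le_iff]
    refine ⟨hd0, ?_⟩
    have : (1 : ℝ) ≤ d := by exact_mod_cast hd1
    nlinarith only [this]
  -- frame estimate
  have frame : ∀ r : ℕ, 2 ≤ r → ∀ σ : ℝ, (σ = 1 ∨ σ = -1) → ∀ z : Sp d, ‖z‖ ≤ R0 →
      ‖ATP n0 (c • ν + (6 * (2 : ℝ) ^ r * σ) • ν) ((2 : ℝ) ^ r) u (x r + (2 : ℝ) ^ r • z) -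
        ATP n0 (c • ν + (6 * (2 : ℝ) ^ (r + 1) * σ) • ν) ((2 : ℝ) ^ (r + 1)) u
          (x r + (2 : ℝ) ^ r • z)‖ ≤
      C1 * bD b ε R0 R ((1 / 2) ^ n) (fo L u) (n + r) (x r) (e r) ν c := by
    intro r hr σ hσ z hz
    set t : ℝ := (2 : ℝ) ^ r with htt
    have htp : 0 < t := by positivity
    have ht4 : 4 ≤ t := by
      calc (4 : ℝ) = 2 ^ 2 := by norm_num
        _ ≤ 2 ^ r := pow_le_pow_right₀ (by norm_num) hr
    obtain ⟨-, hSC2, hSC3⟩ := stmtSC d hd 1 one_pos (x r) t htp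
    obtain ⟨hut, hfo⟩ := hSC3 V E L u hu
    obtain ⟨-, hDD, -⟩ := hSC2 E M c0 b hb ε hε hε1 (fo L u) (fo_cont L hu) (fo_cs L hu)
      ((1 / 2 : ℝ) ^ n) (by positivity)
    set c' : ℝ := (c - ⟪ν, x r⟫_ℝ) / t with hc'
    have hbb := stmtSD.2 d E (fo L u) hd1 (fo_cont L hu) (fo_cs L hu) (x r) t htp R0
      ((1 / 2 : ℝ) ^ n) (n + r) 0 (e r) ν c' (by positivity)
    have hs0 : (1 / 2 : ℝ) ^ (n + r) = (1 / 2) ^ n / t := by
      rw [pow_add, htt, one_div, inv_pow, inv_pow]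
      rfl
    have hbD : bD b ε R0 R ((1 / 2) ^ (n + r)) (fo L (fun y => u (x r + t • y))) (n + r) 0
        (e r) ν c' = bD b ε R0 R ((1 / 2) ^ n) (fo L u) (n + r) (x r) (e r) ν c := by
      unfold bD
      rw [hs0, hfo, hDD, hbb, smul_zero, add_zero]
      congr 3
      rw [hc']
      field_simp
      ring
    set q' : Sp d := (1 / t) • (c • ν - x r) with hq'
    have hxr := tower_norm hT r
    have hxr' : ‖x r‖ ≤ Real.sqrt d * t :=
      hxr.trans (mul_le_mul_of_nonneg_left (by linarith) (Real.sqrt_nonneg _))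
    have hinner : |⟪ν, x r⟫_ℝ| ≤ ‖x r‖ := by
      have := abs_real_inner_le_norm ν (x r)
      rwa [hν, one_mul] at this
    have hq'n : ‖q'‖ ≤ (R0 + 3) / 4 + Real.sqrt d := by
      rw [hq', norm_smul, Real.norm_eq_abs, abs_of_pos (by positivity)]
      have h1 : ‖c • ν - x r‖ ≤ (R0 + 3) + Real.sqrt d * t := by
        refine (norm_sub_le _ _).trans (add_le_add ?_ hxr')
        rw [norm_smul, hν, mul_one, Real.norm_eq_abs]
        exact hc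
      calc 1 / t * ‖c • ν - x r‖ ≤ 1 / t * ((R0 + 3) + Real.sqrt d * t) :=
            mul_le_mul_of_nonneg_left h1 (by positivity)
        _ = (R0 + 3) / t + Real.sqrt d := by field_simp
        _ ≤ (R0 + 3) / 4 + Real.sqrt d := by
            gcongr
            linarith
    have hc'b : |c'| ≤ 3 * R0 := by
      rw [hc', abs_div, abs_of_pos htp, div_le_iff₀ htp]
      have h1 : |c - ⟪ν, x r⟫_ℝ| ≤ (R0 + 3) + Real.sqrt d * t :=
        (abs_sub _ _).trans (add_le_add hc (hinner.trans hxr'))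
      refine h1.trans ?_
      nlinarith only [ht4, hR0, hsq]
    have hσ1 : |σ| = 1 := by rcases hσ with rfl | rfl <;> simp
    have hin : ∀ a : ℝ, ht ν c' (q' + (a * σ) • ν) = a * σ := by
      intro a
      have hνν : ⟪ν, ν⟫_ℝ = 1 := by rw [real_inner_self_eq_norm_sq, hν, one_pow]
      unfold TG.ht
      simp only [hq', hc', inner_add_right, real_inner_smul_right, inner_sub_right, hνν]
      field_simp
      ring
    have hdist : ∀ y z : Sp d, |ht ν c' y - ht ν c' z| ≤ ‖y - z‖ := by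
      intro y z
      unfold TG.ht
      have := abs_real_inner_le_norm ν (y - z)
      rw [hν, one_mul, inner_sub_right] at this
      convert this using 2
      ring
    have hball : ∀ (a ρ : ℝ), 4 + ρ ≤ a → ∀ y ∈ closedBall (q' + (a * σ) • ν) ρ,
        4 ≤ σ * ht ν c' y := by
      intro a ρ ha y hy
      have h1 := hdist y (q' + (a * σ) • ν)
      rw [hin a] at h1
      rw [mem_closedBall, dist_eq_norm] at hy
      have h2 := abs_le.mp (h1.trans hy)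
      rcases hσ with rfl | rfl
      · linarith [h2.1]
      · linarith [h2.2]
    have hhull : ∀ y ∈ convexHull ℝ (closedBall (q' + (6 * σ) • ν) 1 ∪
        closedBall (q' + (12 * σ) • ν) 2), 4 ≤ |ht ν c' y| := by
      intro y hy
      have hconv : Convex ℝ {y : Sp d | 4 ≤ σ * ht ν c' y} := by
        have h1 : {y : Sp d | 4 ≤ σ * ht ν c' y} = {y : Sp d | 4 + σ * c' ≤ ⟪σ • ν, y⟫_ℝ} := by
          ext y
          simp only [mem_ofPred_eq, TG.ht]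
          rw [real_inner_smul_left]
          constructor <;> intro h <;> linarith
        rw [h1]
        exact convex_halfSpace_ge (innerSL ℝ (σ • ν)).isLinear _
      have h2 := convexHull_min (s := closedBall (q' + (6 * σ) • ν) 1 ∪
        closedBall (q' + (12 * σ) • ν) 2) (t := {y : Sp d | 4 ≤ σ * ht ν c' y})
        (union_subset (fun y hy => hball 6 1 (by norm_num) y hy)
          (fun y hy => hball 12 2 (by norm_num) y hy)) hconv hy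
      have h3 : 4 ≤ σ * ht ν c' y := h2
      calc (4 : ℝ) ≤ σ * ht ν c' y := h3
        _ ≤ |σ * ht ν c' y| := le_abs_self _
        _ = |ht ν c' y| := by rw [abs_mul, hσ1, one_mul]
    have hnorm : ∀ a : ℝ, 0 ≤ a → ‖q' + (a * σ) • ν‖ ≤ (R0 + 3) / 4 + Real.sqrt d + a := by
      intro a ha
      refine (norm_add_le _ _).trans (add_le_add hq'n ?_)
      rw [norm_smul, hν, mul_one, Real.norm_eq_abs, abs_mul, hσ1, mul_one, abs_of_nonneg ha]
    have h6 := hnorm 6 (by norm_num)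
    have h12 := hnorm 12 (by norm_num)
    have hfin := (hU R (by linarith only [hR0, hR]) (n + r) (fun y => u (x r + t • y)) hut (e r) (hT.unit r)
      (q' + (6 * σ) • ν) (q' + (12 * σ) • ν) 1 2 (by norm_num) (by norm_num) (by norm_num)
      (by norm_num) (by linarith) (by linarith only [hR0, hsq, h12])).2 ν c' hν hc'b hhull z hz
    rw [hbD, stmtSD.1 d V u hu.smooth (x r) t htp, stmtSD.1 d V u hu.smooth (x r) t htp] at hfin
    have e1 : ∀ a : ℝ, x r + t • (q' + (a * σ) • ν) = c • ν + (a * t * σ) • ν := by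
      intro a
      rw [hq', smul_add, smul_smul, smul_smul, mul_one_div_cancel htp.ne', one_smul, ← add_assoc,
        add_sub_cancel]
      congr 2
      ring
    rw [e1, e1, mul_one] at hfin
    have e2 : (2 : ℝ) ^ (r + 1) = t * 2 := by rw [pow_succ]
    rw [e2]
    have e3 : 6 * (t * 2) * σ = 12 * t * σ := by ring
    rw [e3]
    exact hfin
  -- one step
  set J : ℕ → Sp d → V := fun r => JJ n0 ν (c • ν) ((2 : ℝ) ^ r) u with hJ
  have hJP : ∀ r, PolL (n0 + 1) (J r) := fun r => JJ_PolL hd1 n0 ν (c • ν) (by positivity) hu.smooth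
  have stepJ : ∀ r : ℕ, 2 ≤ r → ∀ z : Sp d, ‖z‖ ≤ R0 →
      ‖J (r + 1) (x r + (2 : ℝ) ^ r • z) - J r (x r + (2 : ℝ) ^ r • z)‖ ≤
      2 * C1 * bD b ε R0 R ((1 / 2) ^ n) (fo L u) (n + r) (x r) (e r) ν c := by
    intro r hr z hz
    have h1 := frame r hr 1 (Or.inl rfl) z hz
    have h2 := frame r hr (-1) (Or.inr rfl) z hz
    simp only [hJ, JJ]
    rw [mul_one, mul_one] at h1
    rw [mul_neg_one, mul_neg_one, neg_smul, neg_smul, ← sub_eq_add_neg, ← sub_eq_add_neg] at h2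
    set a1 := ATP n0 (c • ν + (6 * (2 : ℝ) ^ r) • ν) ((2 : ℝ) ^ r) u (x r + (2 : ℝ) ^ r • z)
    set a2 := ATP n0 (c • ν + (6 * (2 : ℝ) ^ (r + 1)) • ν) ((2 : ℝ) ^ (r + 1)) u
      (x r + (2 : ℝ) ^ r • z)
    set a3 := ATP n0 (c • ν - (6 * (2 : ℝ) ^ r) • ν) ((2 : ℝ) ^ r) u (x r + (2 : ℝ) ^ r • z)
    set a4 := ATP n0 (c • ν - (6 * (2 : ℝ) ^ (r + 1)) • ν) ((2 : ℝ) ^ (r + 1)) u
      (x r + (2 : ℝ) ^ r • z)
    have h3 : a2 - a4 - (a1 - a3) = (a3 - a4) - (a1 - a2) := by abel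
    rw [h3]
    refine (norm_sub_le _ _).trans ?_
    linarith
  have hstep : ∀ r : ℕ, 2 ≤ r →
      ((2 : ℝ) ^ r) ^ j * ‖iteratedFDeriv ℝ j (J r) (c • ν)‖ ≤
        1 / 2 * (((2 : ℝ) ^ (r + 1)) ^ j * ‖iteratedFDeriv ℝ j (J (r + 1)) (c • ν)‖) +
        C2 * (2 * C1) * bD b ε R0 R ((1 / 2) ^ n) (fo L u) (n + r) (x r) (e r) ν c := by
    intro r hr
    set t : ℝ := (2 : ℝ) ^ r with htt
    have htp : 0 < t := by positivity
    have ht4 : 4 ≤ t := by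
      calc (4 : ℝ) = 2 ^ 2 := by norm_num
        _ ≤ 2 ^ r := pow_le_pow_right₀ (by norm_num) hr
    set q' : Sp d := (1 / t) • (c • ν - x r) with hq'
    have hxr := tower_norm hT r
    have hxr' : ‖x r‖ ≤ Real.sqrt d * t :=
      hxr.trans (mul_le_mul_of_nonneg_left (by linarith) (Real.sqrt_nonneg _))
    have hq'n : ‖q'‖ ≤ (R0 + 3) / 4 + Real.sqrt d := by
      rw [hq', norm_smul, Real.norm_eq_abs, abs_of_pos (by positivity)]
      have h1 : ‖c • ν - x r‖ ≤ (R0 + 3) + Real.sqrt d * t := by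
        refine (norm_sub_le _ _).trans (add_le_add ?_ hxr')
        rw [norm_smul, hν, mul_one, Real.norm_eq_abs]
        exact hc
      calc 1 / t * ‖c • ν - x r‖ ≤ 1 / t * ((R0 + 3) + Real.sqrt d * t) :=
            mul_le_mul_of_nonneg_left h1 (by positivity)
        _ = (R0 + 3) / t + Real.sqrt d := by field_simp
        _ ≤ (R0 + 3) / 4 + Real.sqrt d := by
            gcongr
            linarith
    have hpt : x r + t • q' = c • ν := by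
      rw [hq', smul_smul, mul_one_div_cancel htp.ne', one_smul, add_sub_cancel]
    have hP : PolL (n0 + 1) (fun z => J (r + 1) (x r + t • z) - J r (x r + t • z)) :=
      polSub (polAff (hJP (r + 1)) (x r) htp.ne') (polAff (hJP r) (x r) htp.ne')
    have h1 := hM d V _ hP q'
      (2 * C1 * bD b ε R0 R ((1 / 2) ^ n) (fo L u) (n + r) (x r) (e r) ν c) (by
        intro y hy
        refine stepJ r hr y ?_
        rw [mem_closedBall, dist_eq_norm] at hy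
        have h2 : ‖y‖ ≤ ‖y - q'‖ + ‖q'‖ := by
          calc ‖y‖ = ‖(y - q') + q'‖ := by rw [sub_add_cancel]
            _ ≤ _ := norm_add_le _ _
        linarith) j hjn
    have h2 : iteratedFDeriv ℝ j (fun z => J (r + 1) (x r + t • z) - J r (x r + t • z)) q' =
        t ^ j • (iteratedFDeriv ℝ j (J (r + 1)) (c • ν) - iteratedFDeriv ℝ j (J r) (c • ν)) := by
      have h3 : (fun z => J (r + 1) (x r + t • z) - J r (x r + t • z)) =
        (fun z => J (r + 1) (x r + t • z)) - (fun z => J r (x r + t • z)) := rfl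
      rw [h3, iteratedFDeriv_sub_apply
        ((polAff (hJP (r + 1)) (x r) htp.ne').1.contDiffAt.of_le (by exact_mod_cast le_top))
        ((polAff (hJP r) (x r) htp.ne').1.contDiffAt.of_le (by exact_mod_cast le_top)),
        itF_aff' _ _ _ htp.ne', itF_aff' _ _ _ htp.ne', hpt, smul_sub]
    rw [h2, norm_smul, Real.norm_eq_abs, abs_of_pos (by positivity)] at h1
    have h3 : ‖iteratedFDeriv ℝ j (J r) (c • ν)‖ ≤ ‖iteratedFDeriv ℝ j (J (r + 1)) (c • ν)‖ +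
        ‖iteratedFDeriv ℝ j (J (r + 1)) (c • ν) - iteratedFDeriv ℝ j (J r) (c • ν)‖ := by
      have h4 := norm_sub_le (iteratedFDeriv ℝ j (J (r + 1)) (c • ν))
        (iteratedFDeriv ℝ j (J (r + 1)) (c • ν) - iteratedFDeriv ℝ j (J r) (c • ν))
      rwa [sub_sub_cancel] at h4
    have h5 : t ^ j ≤ 1 / 2 * ((2 : ℝ) ^ (r + 1)) ^ j := by
      rw [pow_succ, ← htt, mul_pow]
      have h6 : (2 : ℝ) ≤ 2 ^ j := by
        calc (2 : ℝ) = 2 ^ 1 := by norm_num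
          _ ≤ 2 ^ j := pow_le_pow_right₀ (by norm_num) hj1
      have h7 : 0 < t ^ j := by positivity
      nlinarith only [h6, h7]
    calc t ^ j * ‖iteratedFDeriv ℝ j (J r) (c • ν)‖ ≤
          t ^ j * (‖iteratedFDeriv ℝ j (J (r + 1)) (c • ν)‖ +
        ‖iteratedFDeriv ℝ j (J (r + 1)) (c • ν) - iteratedFDeriv ℝ j (J r) (c • ν)‖) :=
          mul_le_mul_of_nonneg_left h3 (by positivity)
      _ = t ^ j * ‖iteratedFDeriv ℝ j (J (r + 1)) (c • ν)‖ +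
        t ^ j * ‖iteratedFDeriv ℝ j (J (r + 1)) (c • ν) -
          iteratedFDeriv ℝ j (J r) (c • ν)‖ := mul_add _ _ _
      _ ≤ 1 / 2 * ((2 : ℝ) ^ (r + 1)) ^ j * ‖iteratedFDeriv ℝ j (J (r + 1)) (c • ν)‖ +
        C2 * (2 * C1 * bD b ε R0 R ((1 / 2) ^ n) (fo L u) (n + r) (x r) (e r) ν c) :=
          add_le_add (mul_le_mul_of_nonneg_right h5 (norm_nonneg _)) h1
      _ = _ := by ring
  -- induction
  have hind : ∀ I : ℕ, 2 ≤ I →
      ((2 : ℝ) ^ 2) ^ j * ‖iteratedFDeriv ℝ j (J 2) (c • ν)‖ ≤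
        (1 / 2) ^ (I - 2) * (((2 : ℝ) ^ I) ^ j * ‖iteratedFDeriv ℝ j (J I) (c • ν)‖) +
        4 * (C2 * (2 * C1)) * ∑ r ∈ Finset.Ico 2 I, (1 / 2 : ℝ) ^ r *
          bD b ε R0 R ((1 / 2) ^ n) (fo L u) (n + r) (x r) (e r) ν c := by
    intro I hI
    induction I, hI using Nat.le_induction with
    | base => simp
    | succ I hI ih =>
      have h1 := hstep I hI
      rw [Finset.sum_Ico_succ_top hI]
      have h2 : (1 / 2 : ℝ) ^ I = (1 / 4) * (1 / 2) ^ (I - 2) := by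
        obtain ⟨k, rfl⟩ := Nat.exists_eq_add_of_le hI
        rw [add_tsub_cancel_left, pow_add]
        norm_num
      have h3 : I + 1 - 2 = (I - 2) + 1 := by omega
      have h4 : (0 : ℝ) < (1 / 2) ^ (I - 2) := by positivity
      have h5 := mul_le_mul_of_nonneg_left h1 h4.le
      rw [h3, pow_succ, h2]
      refine ih.trans ?_
      have h6 : ∀ a b c d' s k : ℝ, k * a ≤ k * (1 / 2 * b + c * d') →
          k * a + 4 * c * s ≤ k * (1 / 2) * b + 4 * c * (s + 1 / 4 * k * d') := by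
        intro a b c d' s k h
        linarith only [h]
      exact h6 _ _ _ _ _ _ h5
  -- large levels
  obtain ⟨ρ, hρ⟩ : ∃ ρ : ℝ, ∀ y, ρ ≤ ‖y‖ → u y = 0 := by
    obtain ⟨ρ, hρ⟩ := hu.supp.isCompact.isBounded.subset_ball (0 : Sp d)
    refine ⟨ρ, fun y hy => ?_⟩
    by_contra h
    have := hρ (subset_tsupport _ (Function.mem_support.mpr h))
    rw [mem_ball_zero_iff] at this
    linarith
  obtain ⟨I, hI⟩ : ∃ I : ℕ, max ρ 0 + |c| < 2 ^ I := by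
    obtain ⟨I, hI⟩ := pow_unbounded_of_one_lt (max ρ 0 + |c|) (one_lt_two (α := ℝ))
    exact ⟨I, hI⟩
  have hI2 : max ρ 0 + |c| < 2 ^ (I + 2) :=
    hI.trans_le (pow_le_pow_right₀ (by norm_num) (by omega))
  have hzero : J (I + 2) = fun _ => 0 := by
    funext y
    simp only [hJ, JJ]
    have htp : (0 : ℝ) < 2 ^ (I + 2) := by positivity
    have hcn : |c| ≤ 2 ^ (I + 2) := by
      have := le_max_right ρ 0
      linarith
    have hcc : ∀ s : ℝ, |s| = 1 → ρ + 2 ^ (I + 2) < ‖(c + 6 * 2 ^ (I + 2) * s) • ν‖ := by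
      intro s hs
      rw [norm_smul, hν, mul_one, Real.norm_eq_abs]
      have h1 : |6 * 2 ^ (I + 2) * s| ≤ |c + 6 * 2 ^ (I + 2) * s| + |c| := by
        calc |6 * 2 ^ (I + 2) * s| = |(c + 6 * 2 ^ (I + 2) * s) - c| := by
              rw [add_sub_cancel_left]
          _ ≤ _ := abs_sub _ _
      rw [abs_mul, hs, mul_one, abs_of_pos (by positivity)] at h1
      have := le_max_left ρ 0
      linarith
    have h1 := hcc 1 (by simp)
    have h2 := hcc (-1) (by simp)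
    rw [add_smul, mul_one] at h1
    rw [add_smul, mul_neg_one, neg_smul, ← sub_eq_add_neg] at h2
    rw [ATP_zero n0 _ htp hρ h1, ATP_zero n0 _ htp hρ h2, sub_zero]
  have hfin := hind (I + 2) (by omega)
  have hz : iteratedFDeriv ℝ j (J (I + 2)) (c • ν) = 0 := by
    rw [hzero]
    simp
  rw [hz, norm_zero, mul_zero, mul_zero, zero_add] at hfin
  have hfin2 := hfin.trans (mul_le_mul_of_nonneg_left (hB (I + 2))
    (by positivity : (0 : ℝ) ≤ 4 * (C2 * (2 * C1))))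
  have h4 : J 2 = JJ n0 ν (c • ν) 4 u := by
    simp only [hJ]
    norm_num
  rw [h4] at hfin2
  have h5 : (1 : ℝ) ≤ ((2 : ℝ) ^ 2) ^ j := one_le_pow₀ (by norm_num)
  calc ‖iteratedFDeriv ℝ j (JJ n0 ν (c • ν) 4 u) (c • ν)‖ ≤
        ((2 : ℝ) ^ 2) ^ j * ‖iteratedFDeriv ℝ j (JJ n0 ν (c • ν) 4 u) (c • ν)‖ :=
        le_mul_of_one_le_left (norm_nonneg _) h5
    _ ≤ _ := hfin2

end

end TG


end

section

/-!
# Trace inequality, general operators: module SAF, piece 2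
-/

open MeasureTheory Metric Set TrI
open scoped InnerProductSpace ContDiff

namespace TG

noncomputable section

namespace SAF2

lemma taylor_diff {d : ℕ} {V : Type} [NormedAddCommGroup V] [NormedSpace ℝ V] {m : ℕ}
    {P : Sp d → V} (hP : PolL (m + 1) P) (q y : Sp d) {ρ A : ℝ} (hρ : 1 ≤ ρ)
    (hy : ‖y - q‖ ≤ ρ)
    (hA : ∀ j, 1 ≤ j → j ≤ m → ‖iteratedFDeriv ℝ j P q‖ ≤ A) :
    ‖P y - P q‖ ≤ m * (ρ ^ m * A) := by
  have h0 := eq_taylor hP.1 hP.2 y q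
  rw [Finset.sum_range_succ'] at h0
  simp only [Nat.factorial_zero, Nat.cast_one, inv_one, one_smul, iteratedFDeriv_zero_apply] at h0
  rw [← h0, add_sub_cancel_right]
  refine (norm_sum_le _ _).trans ?_
  have h1 : ∀ k ∈ Finset.range m, ‖((Nat.factorial (k + 1) : ℝ)⁻¹ •
      iteratedFDeriv ℝ (k + 1) P q (fun _ => y - q))‖ ≤ ρ ^ m * A := by
    intro k hk
    rw [Finset.mem_range] at hk
    rw [norm_smul, norm_inv, Real.norm_natCast]
    have h2 : ((Nat.factorial (k + 1) : ℝ))⁻¹ ≤ 1 :=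
      inv_le_one_of_one_le₀ (by exact_mod_cast Nat.factorial_pos (k + 1))
    have h3 : ‖iteratedFDeriv ℝ (k + 1) P q (fun _ => y - q)‖ ≤ ρ ^ m * A := by
      refine ((iteratedFDeriv ℝ (k + 1) P q).le_opNorm _).trans ?_
      rw [Finset.prod_const, Finset.card_univ, Fintype.card_fin, mul_comm]
      refine mul_le_mul ?_ (hA (k + 1) (by omega) (by omega)) (norm_nonneg _) (by positivity)
      exact (pow_le_pow_left₀ (norm_nonneg _) hy _).trans (pow_le_pow_right₀ hρ (by omega))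
    calc _ ≤ 1 * (ρ ^ m * A) := mul_le_mul h2 h3 (norm_nonneg _) zero_le_one
      _ = _ := one_mul _
  refine (Finset.sum_le_sum h1).trans ?_
  rw [Finset.sum_const, Finset.card_range, nsmul_eq_mul]

end SAF2

open _root_.TG.SAF2 SH2 in
theorem stmtSAF2 (hSH2 : StmtSH2) (hJC : StmtJC) : StmtSAF2 := by
  intro d V E _ _ _ _ _ _ L n0 T hd hn hNS M c0 ε hε hε1 b hb R0 hR0
  have hd0 : (0 : ℝ) ≤ d := Nat.cast_nonneg d
  have hd1 : 1 ≤ d := by omega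
  obtain ⟨C1, hC1, h1⟩ := hSH2 d V E L n0 T hd hn hNS M c0 ε hε hε1 b hb R0 hR0
  obtain ⟨C2, hC2, h2⟩ := hJC d V E L n0 T hd1 hn hNS M c0 ε hε hε1 b hb R0 (by linarith)
  have hR0p : 0 < R0 := by linarith
  refine ⟨n0 * ((10 * R0) ^ n0 * C1) + 4 * C2, by positivity, ?_⟩
  intro R hR n u hu x e hT ν c B hν hc hB
  have hsq : Real.sqrt d ≤ d := by
    rw [Real.sqrt_le_iff]
    refine ⟨hd0, ?_⟩
    have : (1 : ℝ) ≤ d := by exact_mod_cast hd1
    nlinarith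
  have hbD0 : ∀ r, 0 ≤ bD b ε R0 R ((1 / 2) ^ n) (fo L u) (n + r) (x r) (e r) ν c := fun r =>
    add_nonneg (le_max_left _ _) (TU.DD_nonneg b ε R (by positivity) _ _ _ (hT.unit r))
  have hterm : ∀ r, 0 ≤ (1 / 2 : ℝ) ^ r *
      bD b ε R0 R ((1 / 2) ^ n) (fo L u) (n + r) (x r) (e r) ν c := fun r =>
    mul_nonneg (by positivity) (hbD0 r)
  have hB0 : 0 ≤ B := by simpa using hB 0
  have hder := h1 R hR n u hu x e hT ν c B hν hc (fun I =>
    (Finset.sum_le_sum_of_subset_of_nonneg (fun r hr => by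
      rw [Finset.mem_Ico] at hr
      exact Finset.mem_range.mpr hr.2) (fun r _ _ => hterm r)).trans (hB I))
  -- the term with r = 2
  have hb2 : bD b ε R0 R ((1 / 2) ^ n) (fo L u) (n + 2) (x 2) (e 2) ν c ≤ 4 * B := by
    have h3 := (Finset.single_le_sum (f := fun r => (1 / 2 : ℝ) ^ r *
      bD b ε R0 R ((1 / 2) ^ n) (fo L u) (n + r) (x r) (e r) ν c)
      (fun r _ => hterm r) (Finset.mem_range.mpr (by norm_num : 2 < 3))).trans (hB 3)
    have h4 : (1 / 2 : ℝ) ^ 2 * bD b ε R0 R ((1 / 2) ^ n) (fo L u) (n + 2) (x 2) (e 2) ν c ≤ B :=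
      h3
    linarith
  -- norms
  have hx2 : ‖x 2‖ ≤ 3 * Real.sqrt d := by
    have := tower_norm hT 2
    linarith
  have hinner : |⟪ν, x 2⟫_ℝ| ≤ ‖x 2‖ := by
    have := abs_real_inner_le_norm ν (x 2)
    rwa [hν, one_mul] at this
  have hcn : ‖c • ν‖ ≤ R0 + 3 := by
    rw [norm_smul, hν, mul_one, Real.norm_eq_abs]
    exact hc
  -- frame of level 2
  have ht4 : (0 : ℝ) < 4 := by norm_num
  obtain ⟨-, hSC2, hSC3⟩ := stmtSC d hd 1 one_pos (x 2) 4 ht4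
  obtain ⟨hut, hfo⟩ := hSC3 V E L u hu
  obtain ⟨-, hDD, -⟩ := hSC2 E M c0 b hb ε hε hε1 (fo L u) (fo_cont L hu) (fo_cs L hu)
    ((1 / 2 : ℝ) ^ n) (by positivity)
  set c' : ℝ := (c - ⟪ν, x 2⟫_ℝ) / 4 with hc'
  have hbb := stmtSD.2 d E (fo L u) hd1 (fo_cont L hu) (fo_cs L hu) (x 2) 4 ht4 R0
    ((1 / 2 : ℝ) ^ n) (n + 2) 0 (e 2) ν c' (by positivity)
  have hs0 : (1 / 2 : ℝ) ^ (n + 2) = (1 / 2) ^ n / 4 := by
    rw [pow_add]
    ring
  have hbD : bD b ε R0 R ((1 / 2) ^ (n + 2)) (fo L (fun y => u (x 2 + (4 : ℝ) • y))) (n + 2) 0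
      (e 2) ν c' = bD b ε R0 R ((1 / 2) ^ n) (fo L u) (n + 2) (x 2) (e 2) ν c := by
    unfold bD
    rw [hs0, hfo, hDD, hbb, smul_zero, add_zero]
    congr 3
    rw [hc']
    ring
  set q : Sp d := (1 / 4 : ℝ) • (c • ν - x 2) with hq
  have hνν : ⟪ν, ν⟫_ℝ = 1 := by rw [real_inner_self_eq_norm_sq, hν, one_pow]
  have hνq : ⟪ν, q⟫_ℝ = c' := by
    rw [hq, hc', real_inner_smul_right, inner_sub_right, real_inner_smul_right, hνν]
    ring
  have hνq' : ⟪ν, c' • ν⟫_ℝ = c' := by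
    rw [real_inner_smul_right, hνν, mul_one]
  have hqn : ‖q‖ ≤ R0 / 2 := by
    rw [hq, norm_smul, Real.norm_eq_abs, abs_of_pos (by norm_num)]
    have := norm_sub_le (c • ν) (x 2)
    linarith
  have hqn' : ‖c' • ν‖ ≤ R0 / 2 := by
    rw [norm_smul, hν, mul_one, Real.norm_eq_abs, hc', abs_div, abs_of_pos ht4]
    have := abs_sub c ⟪ν, x 2⟫_ℝ
    rw [div_le_iff₀ ht4]
    linarith
  refine ⟨JJ n0 ν (c • ν) 4 u (c • ν), fun y hy => ?_⟩
  have h5 := (h2 R (by linarith) (n + 2) (fun y => u (x 2 + (4 : ℝ) • y)) hut (e 2) (hT.unit 2)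
    ν q (c' • ν) hν (hνq.trans hνq'.symm) hqn hqn' y hy).2.1
  rw [hνq, hbD] at h5
  have h6 : JJ n0 ν q 1 (fun y => u (x 2 + (4 : ℝ) • y)) y =
      JJ n0 ν (c • ν) 4 u (x 2 + (4 : ℝ) • y) := by
    unfold JJ
    rw [stmtSD.1 d V u hu.smooth (x 2) 4 ht4, stmtSD.1 d V u hu.smooth (x 2) 4 ht4, mul_one,
      mul_one]
    have e1 : x 2 + (4 : ℝ) • (q + (6 : ℝ) • ν) = c • ν + (6 * 4 : ℝ) • ν := by
      rw [hq]
      module
    have e2 : x 2 + (4 : ℝ) • (q - (6 : ℝ) • ν) = c • ν - (6 * 4 : ℝ) • ν := by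
      rw [hq]
      module
    rw [e1, e2]
  rw [h6] at h5
  have h7 := taylor_diff (JJ_PolL hd1 n0 ν (c • ν) ht4 hu.smooth) (c • ν) (x 2 + (4 : ℝ) • y)
    (ρ := 10 * R0) (A := C1 * B) (by linarith) (by
      have a1 := norm_sub_le (x 2 + (4 : ℝ) • y) (c • ν)
      have a2 := norm_add_le (x 2) ((4 : ℝ) • y)
      have a3 : ‖(4 : ℝ) • y‖ = 4 * ‖y‖ := by
        rw [norm_smul, Real.norm_eq_abs, abs_of_pos ht4]
      linarith) hder
  have h8 := norm_add_le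
    (JJ n0 ν (c' • ν) 1 (fun y => u (x 2 + (4 : ℝ) • y)) y - JJ n0 ν (c • ν) 4 u (x 2 + (4 : ℝ) • y))
    (JJ n0 ν (c • ν) 4 u (x 2 + (4 : ℝ) • y) - JJ n0 ν (c • ν) 4 u (c • ν))
  rw [sub_add_sub_cancel] at h8
  refine h8.trans ?_
  have h9 : C2 * bD b ε R0 R ((1 / 2) ^ n) (fo L u) (n + 2) (x 2) (e 2) ν c ≤ C2 * (4 * B) :=
    mul_le_mul_of_nonneg_left hb2 hC2.le
  calc _ ≤ C2 * (4 * B) + n0 * ((10 * R0) ^ n0 * (C1 * B)) := add_le_add (h5.trans h9) h7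
    _ = _ := by ring

end

end TG


end

section

/-!
# Module SAF: the sheet lemma from Flat at level 2 (helper95, with helper65, helper51, helper21)
-/

open MeasureTheory Metric Set TrI
open scoped InnerProductSpace ContDiff

namespace TG

namespace SAFm

noncomputable section

open TU

variable {d : ℕ}

lemma num_w {C1 al m2 W Lam B : ℝ} (hC1 : 0 < C1) (hal : 0 < al) (hm2 : 0 < m2)
    (h : m2 ≤ C1 * al) (hLam : 1 ≤ Lam) (hB : 0 ≤ B) (hW : W ≤ C1 * (Lam * m2) * B) :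
    al * (W / al ^ 2) ≤ C1 ^ 2 * Lam * B ∧ m2 * (W / al ^ 2) ≤ C1 ^ 3 * Lam * B := by
  have e1 : al * (W / al ^ 2) = W / al := by
    field_simp
  have h1 : W / al ≤ C1 ^ 2 * Lam * B := by
    rw [div_le_iff₀ hal]
    refine hW.trans ?_
    have : C1 * Lam * B * m2 ≤ C1 * Lam * B * (C1 * al) :=
      mul_le_mul_of_nonneg_left h (by positivity)
    linarith
  refine ⟨by rw [e1]; exact h1, ?_⟩
  rcases le_or_gt 0 W with hW0 | hW0
  · have h2 : 0 ≤ W / al ^ 2 := by positivity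
    calc m2 * (W / al ^ 2) ≤ C1 * al * (W / al ^ 2) := mul_le_mul_of_nonneg_right h h2
      _ = C1 * (al * (W / al ^ 2)) := by ring
      _ ≤ C1 * (C1 ^ 2 * Lam * B) := by
        rw [e1]
        exact mul_le_mul_of_nonneg_left h1 hC1.le
      _ = _ := by ring
  · have h2 : W / al ^ 2 < 0 := div_neg_of_neg_of_pos hW0 (by positivity)
    have h3 : m2 * (W / al ^ 2) < 0 := mul_neg_of_pos_of_neg hm2 h2
    have h4 : 0 ≤ C1 ^ 3 * Lam * B := by positivity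
    linarith

lemma num_small {w o R0 : ℝ} (hR0 : 200 ≤ R0) (_hw : 0 ≤ w)
    (h : w ^ 2 + o ^ 2 ≤ 1 / (100 * R0 ^ 2)) :
    w ≤ 1 ∧ |o| ≤ 1 ∧ 2 * w ≤ 1 / 24 ∧ 4 * |o| + 3 * R0 * w ≤ 1 := by
  have hR : 0 < R0 := by linarith
  have e1 : (1 / (10 * R0)) ^ 2 = 1 / (100 * R0 ^ 2) := by
    rw [div_pow, one_pow, mul_pow]
    norm_num
  have h1 : w ≤ 1 / (10 * R0) := by
    refine abs_le_of_sq_le_sq' ?_ (by positivity) |>.2
    rw [e1]
    linarith [sq_nonneg o]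
  have h2 : |o| ≤ 1 / (10 * R0) := by
    refine abs_le_of_sq_le_sq ?_ (by positivity)
    rw [e1]
    linarith only [h, sq_nonneg w]
  have h3 : 1 / (10 * R0) ≤ 1 / 2000 := by
    refine one_div_le_one_div_of_le (by norm_num) (by linarith)
  have h4 : 3 * R0 * w ≤ 3 / 10 := by
    calc 3 * R0 * w ≤ 3 * R0 * (1 / (10 * R0)) := mul_le_mul_of_nonneg_left h1 (by positivity)
      _ = 3 / 10 := by field_simp
  refine ⟨by linarith, by linarith, by linarith, by linarith⟩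

lemma sqrt_lam {Lam m2 D : ℝ} (hLam : 1 ≤ Lam) :
    Real.sqrt (Lam * m2 * D) ≤ Lam * Real.sqrt (m2 * D) := by
  rw [mul_assoc, Real.sqrt_mul (by linarith)]
  refine mul_le_mul_of_nonneg_right ?_ (Real.sqrt_nonneg _)
  rw [Real.sqrt_le_left (by linarith)]
  nlinarith

/-- smallness of the coefficients -/
lemma num_Sw {C1 al m2 W Lam B κ R0 : ℝ} (hC1 : 0 < C1) (hal : 0 < al) (hm2 : 0 < m2)
    (h : m2 ≤ C1 * al) (hLam : 1 ≤ Lam) (hB : 0 ≤ B) (hW : W ≤ C1 * (Lam * m2) * B)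
    (hR0 : 0 < R0) (hκ : κ ≤ 1 / (C1 ^ 3 * (100 * R0 ^ 2))) (hBκ : Lam ^ 2 * B ≤ κ * m2) :
    W / al ^ 2 ≤ 1 / (100 * R0 ^ 2) := by
  have h1 := (num_w hC1 hal hm2 h hLam hB hW).2
  have h2 : C1 ^ 3 * Lam * B ≤ C1 ^ 3 * (κ * m2) := by
    have : Lam * B ≤ Lam ^ 2 * B := by
      have : Lam ≤ Lam ^ 2 := by nlinarith only [hLam]
      exact mul_le_mul_of_nonneg_right this hB
    have := mul_le_mul_of_nonneg_left (this.trans hBκ) (by positivity : 0 ≤ C1 ^ 3)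
    linarith
  have h3 : C1 ^ 3 * (κ * m2) ≤ m2 * (1 / (100 * R0 ^ 2)) := by
    have : C1 ^ 3 * m2 * κ ≤ C1 ^ 3 * m2 * (1 / (C1 ^ 3 * (100 * R0 ^ 2))) :=
      mul_le_mul_of_nonneg_left hκ (by positivity)
    refine le_trans (by linarith) (this.trans (le_of_eq ?_))
    field_simp
  exact le_of_mul_le_mul_left (h1.trans (h2.trans h3)) hm2

/-- the closeness of the planes -/
lemma num_close {R0 C K m2 Sw w o δ γ Lam B : ℝ} (hR0 : 200 ≤ R0) (hm2 : 0 < m2) (hw : 0 ≤ w)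
    (hSw : Sw = w ^ 2 + o ^ 2) (hδ0 : 0 ≤ δ) (hδ : δ ≤ 2 * w)
    (hγ : |γ| ≤ 4 * |o| + 3 * R0 * w) (h : m2 * Sw ≤ K * Lam * B) (hLam : 0 ≤ Lam) (hB : 0 ≤ B)
    (hC : (4 + 18 * R0 ^ 2) * K ≤ C) : m2 * (δ ^ 2 + γ ^ 2) ≤ C * Lam * B := by
  have h1 : δ ^ 2 ≤ 4 * w ^ 2 := by nlinarith only [hδ, hδ0]
  have h2 : γ ^ 2 ≤ 18 * R0 ^ 2 * Sw := by
    have g1 : γ ^ 2 ≤ (4 * |o| + 3 * R0 * w) ^ 2 := by
      rw [← sq_abs]
      exact pow_le_pow_left₀ (abs_nonneg _) hγ 2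
    have g2 : (4 * |o| + 3 * R0 * w) ^ 2 ≤ 2 * ((4 * |o|) ^ 2 + (3 * R0 * w) ^ 2) := by
      linarith only [sq_nonneg (4 * |o| - 3 * R0 * w)]
    have g3 : (4 * |o|) ^ 2 = 16 * o ^ 2 := by
      rw [mul_pow, sq_abs]
      norm_num
    have g4 : 32 * o ^ 2 ≤ 18 * R0 ^ 2 * o ^ 2 :=
      mul_le_mul_of_nonneg_right (by nlinarith only [hR0]) (sq_nonneg o)
    rw [hSw]
    linarith only [g1, g2, g3, g4]
  have h3 : δ ^ 2 + γ ^ 2 ≤ (4 + 18 * R0 ^ 2) * Sw := by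
    have : 4 * w ^ 2 ≤ 4 * Sw := by rw [hSw]; linarith only [sq_nonneg o]
    linarith
  calc m2 * (δ ^ 2 + γ ^ 2) ≤ m2 * ((4 + 18 * R0 ^ 2) * Sw) :=
        mul_le_mul_of_nonneg_left h3 hm2.le
    _ = (4 + 18 * R0 ^ 2) * (m2 * Sw) := by ring
    _ ≤ (4 + 18 * R0 ^ 2) * (K * Lam * B) := mul_le_mul_of_nonneg_left h (by positivity)
    _ = (4 + 18 * R0 ^ 2) * K * (Lam * B) := by ring
    _ ≤ C * (Lam * B) := mul_le_mul_of_nonneg_right hC (by positivity)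
    _ = _ := by ring

lemma num_X {C5 K m2 Sw Lam B X0 mm D0 D2 : ℝ} (hC5 : 0 < C5) (_hK : 0 < K) (hm2 : 0 < m2)
    (hSw : 0 ≤ Sw) (hLam : 1 ≤ Lam) (hB : 0 ≤ B) (hBm : B ≤ m2) (h : m2 * Sw ≤ K * Lam * B)
    (hX0 : X0 ≤ B) (hmm : mm ≤ Lam * m2) (hD0 : D0 ≤ B) (hD2 : D2 ≤ 4 * B) :
    2 * X0 + C5 * Sw * (mm + D0 + D2) + C5 * D0 ≤ (2 + 6 * C5 * K + C5) * Lam ^ 2 * B := by
  have h1 : mm + D0 + D2 ≤ 6 * (Lam * m2) := by nlinarith
  have h2 : C5 * Sw * (mm + D0 + D2) ≤ 6 * C5 * K * Lam ^ 2 * B := by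
    calc C5 * Sw * (mm + D0 + D2) ≤ C5 * Sw * (6 * (Lam * m2)) :=
          mul_le_mul_of_nonneg_left h1 (by positivity)
      _ = 6 * C5 * Lam * (m2 * Sw) := by ring
      _ ≤ 6 * C5 * Lam * (K * Lam * B) := mul_le_mul_of_nonneg_left h (by positivity)
      _ = _ := by ring
  have h3 : B ≤ Lam ^ 2 * B := le_mul_of_one_le_left hB (one_le_pow₀ hLam)
  have h4 : C5 * D0 ≤ C5 * (Lam ^ 2 * B) := mul_le_mul_of_nonneg_left (by linarith) hC5.le
  linarith only [hX0, h2, h3, h4]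

lemma num_ep {C0 C1 C2 C3 C4 CX K η al Sw Lam B D m2 D0 D2 : ℝ} (hC0 : 0 < C0) (hC1 : 0 < C1)
    (hC2 : 0 < C2) (hC3 : 0 < C3) (hC4 : 0 < C4) (hCX : 0 < CX) (hK : 0 < K)
    (hLam : 1 ≤ Lam) (hB : 0 ≤ B) (hη : η ≤ C0 * (B + Real.sqrt (Lam * m2 * D)))
    (hal : al * Sw ≤ K * Lam * B) (hD0 : D0 ≤ B) (hD2 : D2 ≤ 4 * B) :
    C3 * C4 * (C1 * (B + η) + al * Sw + C2 * (D0 + D2)) + 2 * (CX * Lam ^ 2 * B) ≤
      (C3 * C4 * (C1 * (1 + C0) + K + 5 * C2) + 2 * CX) * Lam ^ 2 *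
        (B + Real.sqrt (m2 * D)) := by
  have h1 := sqrt_lam (m2 := m2) (D := D) hLam
  have h0 := Real.sqrt_nonneg (m2 * D)
  have hL2 : Lam ≤ Lam ^ 2 := by nlinarith only [hLam]
  have hL3 : 1 ≤ Lam ^ 2 := one_le_pow₀ hLam
  set S := Real.sqrt (m2 * D) with hS
  set A := Lam ^ 2 * (B + S) with hA
  have a1 : B ≤ A := by
    rw [hA]
    nlinarith only [h0, hLam, hB, hL2]
  have a2 : Real.sqrt (Lam * m2 * D) ≤ Lam ^ 2 * S :=
    h1.trans (mul_le_mul_of_nonneg_right hL2 h0)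
  have a3 : B + Real.sqrt (Lam * m2 * D) ≤ A := by
    rw [hA, mul_add]
    exact add_le_add (le_mul_of_one_le_left hB hL3) a2
  have a4 : Lam * B ≤ A := by
    rw [hA]
    have := mul_le_mul_of_nonneg_right hL2 hB
    nlinarith
  have a5 : Lam ^ 2 * B ≤ A := by
    rw [hA]
    nlinarith only [h0]
  have b1 : C1 * (B + η) ≤ C1 * (1 + C0) * A := by
    have := mul_le_mul_of_nonneg_left a3 hC0.le
    have h2 : B + η ≤ (1 + C0) * A := by linarith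
    have := mul_le_mul_of_nonneg_left h2 hC1.le
    linarith
  have b2 : al * Sw ≤ K * A := by
    have := mul_le_mul_of_nonneg_left a4 hK.le
    linarith
  have b3 : C2 * (D0 + D2) ≤ 5 * C2 * A := by
    have h2 : D0 + D2 ≤ 5 * A := by linarith
    have := mul_le_mul_of_nonneg_left h2 hC2.le
    linarith
  have b4 : C3 * C4 * (C1 * (B + η) + al * Sw + C2 * (D0 + D2)) ≤
      C3 * C4 * ((C1 * (1 + C0) + K + 5 * C2) * A) :=
    mul_le_mul_of_nonneg_left (by linarith) (by positivity)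
  have b5 : 2 * (CX * Lam ^ 2 * B) ≤ 2 * CX * A := by
    have := mul_le_mul_of_nonneg_left a5 hCX.le
    linarith
  have e1 : (C3 * C4 * (C1 * (1 + C0) + K + 5 * C2) + 2 * CX) * Lam ^ 2 * (B + S) =
      C3 * C4 * ((C1 * (1 + C0) + K + 5 * C2) * A) + 2 * CX * A := by
    rw [hA]
    ring
  rw [e1]
  linarith

/-- support of the test functions -/
lemma testF_supp {R0 : ℝ} (hR0 : 200 ≤ R0) {ν ν' : Sp d} (hν : ‖ν‖ = 1) (hν' : ‖ν'‖ = 1) {c' : ℝ}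
    (hc' : |c'| ≤ R0 + 4) (hcl : ‖ν' - ν‖ ≤ 1 / 24) {ζ0 ζ1 : Sp d → ℝ}
    (h0 : Cyl ν' (3 / 2 * R0) ζ0) (h1 : Cyl ν' (3 / 2 * R0) ζ1) (y : Sp d)
    (hy : cu1 1 (ht ν' c' y) * (ζ0 y + ht ν' c' y * ζ1 y) ≠ 0) :
    ‖y‖ ≤ 3 * R0 ∧ ‖tang ν y‖ ≤ 7 / 4 * R0 := by
  have h2 : ‖tang ν' y‖ ≤ 3 / 2 * R0 := by
    by_contra h
    refine right_ne_zero_of_mul hy ?_
    have e0 : ζ0 y = 0 := by
      by_contra h3
      exact h (h0.supp y h3)
    have e1 : ζ1 y = 0 := by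
      by_contra h3
      exact h (h1.supp y h3)
    rw [e0, e1, mul_zero, add_zero]
  have h3 : |ht ν' c' y| ≤ 2 := by
    by_contra h
    push Not at h
    exact left_ne_zero_of_mul hy (SAm.cu1_zero (by linarith))
  have h4 : |⟪ν', y⟫_ℝ| ≤ R0 + 6 := by
    have e1 : ⟪ν', y⟫_ℝ = ht ν' c' y + c' := by
      unfold ht
      ring
    rw [e1]
    exact (abs_add_le _ _).trans (by linarith)
  have h5 := SAm.norm_le_tang hν' y
  have h6 : ‖y‖ ≤ 3 * R0 := by linarith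
  refine ⟨h6, ?_⟩
  have h7 := tang_close hν hν' y
  have h8 : 2 * ‖ν' - ν‖ * ‖y‖ ≤ 2 * (1 / 24) * (3 * R0) := by gcongr
  linarith

lemma testF_plInt {ν : Sp d} (hν : ‖ν‖ = 1) (c : ℝ) (ζ0 ζ1 : Sp d → ℝ) :
    plInt ν c (fun y => cu1 1 (ht ν c y) * (ζ0 y + ht ν c y * ζ1 y)) = plInt ν c ζ0 := by
  refine SAm.plInt_congr hν fun y hy => ?_
  have : ht ν c y = 0 := by
    unfold ht
    rw [hy, sub_self]
  rw [this, SAm.cu1_one (by simp)]
  ring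

lemma flat_mono {E : Type} [NormedAddCommGroup E] [InnerProductSpace ℝ E] {b : Sp d → ℝ}
    {ε R0 R κ κ' : ℝ} {f : Sp d → E} {n : ℕ} {e : E} {ν : Sp d} {c : ℝ} (hκ : κ ≤ κ')
    (h : Flat b ε R0 R κ f n e ν c) : Flat b ε R0 R κ' f n e ν c :=
  ⟨h.1, h.2.1.trans (mul_le_mul_of_nonneg_right hκ h.1.le),
    h.2.2.trans (mul_le_mul_of_nonneg_right hκ (sq_nonneg _))⟩

end

end SAFm

open _root_.TG.SAFm TU in
theorem stmtSAF (hNS : TrI.StmtNS) (hSHB : StmtSHB) (hSH2 : StmtSH2) (hJC : StmtJC)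
    (hDV : StmtDV) (hZ : StmtZ) (hMA : StmtMA) (hTW : StmtTW) (hSC : StmtSC) (hSD : StmtSD) :
    StmtSAF := by
  intro d V E _ _ _ _ _ _ L hd hL
  obtain ⟨n0, T, hn0, hNSP⟩ := hNS d V E L hL
  obtain ⟨JB, hmk'⟩ := mkSFr hSHB (stmtSAF2 hSH2 hJC) hJC hZ hMA hSC hSD d V E L n0 T hd hn0 hL
    hNSP
  obtain ⟨J', hfrm⟩ := SAm.frame (d := d) hDV hd JB
  refine ⟨max J' 2, ?_⟩
  intro M c0 ε hε hε1 b hb R0 hR0
  have hd0 : (0 : ℝ) ≤ d := by positivity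
  have hR2 : 200 ≤ R0 := by linarith
  have hRp : 0 < R0 := by linarith
  obtain ⟨C0, κ1, hC0, hκ1, hmk⟩ := hmk' M c0 ε hε hε1 b hb R0 hR0
  obtain ⟨C1, κ2, hC1, hκ2, hfr⟩ := hfrm R0 C0 (by linarith) hC0
  obtain ⟨C2, hC2, htr⟩ := transfer hTW hSC hd hε hε1 hb (R0 := R0) (by linarith)
  obtain ⟨C3, hC3, hrec⟩ := recenter hd hR0 J'
  obtain ⟨C4, hC4, htest⟩ := testF d (max J' 2)
  obtain ⟨C5, hC5, hblc⟩ := blc_new hZ hTW hSC hMA hd hε hε1 hb hR0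
  obtain ⟨C6, hC6, hsh⟩ := SS.sheet_of_est hZ (by omega : 1 ≤ d) hε hε1 hb (R0 := R0)
    (by linarith)
  set CX : ℝ := 2 + 6 * C5 * C1 ^ 3 + C5 with hCX
  have hCXp : 0 < CX := by positivity
  set CE : ℝ := C3 * C4 * (C1 * (1 + C0) + C1 ^ 2 + 5 * C2) + 2 * CX with hCE
  have hCEp : 0 < CE := by positivity
  set C : ℝ := (4 + 18 * R0 ^ 2) * C1 ^ 3 + C1 + C0 + CX + CE + C6 with hC
  have hCp1 : 0 < (4 + 18 * R0 ^ 2) * C1 ^ 3 := by positivity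
  refine ⟨C, min (min κ1 κ2) (min 1 (1 / (C1 ^ 3 * (100 * R0 ^ 2)))), by (clear * - hR2 hC1 hC0 hC5 hC3 hC4 hC2 hC6; positivity),
    by positivity, ?_⟩
  set κ : ℝ := min (min κ1 κ2) (min 1 (1 / (C1 ^ 3 * (100 * R0 ^ 2)))) with hκd
  have hκ1' : κ ≤ κ1 := (min_le_left _ _).trans (min_le_left _ _)
  have hκ2' : κ ≤ κ2 := (min_le_left _ _).trans (min_le_right _ _)
  have hκ3 : κ ≤ 1 := (min_le_right _ _).trans (min_le_left _ _)
  have hκ4 : κ ≤ 1 / (C1 ^ 3 * (100 * R0 ^ 2)) := (min_le_right _ _).trans (min_le_right _ _)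
  have hκ0 : 0 < κ := by positivity
  intro R hR n u hu x e hT ν c B D Lam m2 hν hc hFlat hm2 hLam hma hBκ hsum hDD
  have hm2p : 0 < m2 := by
    rw [hm2]
    exact hFlat.1
  have hB0 : 0 ≤ B := by simpa using hsum 0
  have hBm : B ≤ m2 := by
    have h1 : B ≤ Lam ^ 2 * B := le_mul_of_one_le_left hB0 (one_le_pow₀ hLam)
    have h2 : κ * m2 ≤ 1 * m2 := mul_le_mul_of_nonneg_right hκ3 hm2p.le
    linarith
  have hma2 : m2 ≤ Lam * m2 := le_mul_of_one_le_left hm2p.le hLam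
  have ha : 0 < Lam * m2 := by positivity
  obtain ⟨al, w0, η, hη, hSFr⟩ := hmk R hR n u hu x e hT ν c B D (Lam * m2) hν hc
    (flat_mono hκ1' hFlat) ha (hBm.trans hma2) hma hsum (hDD 2 le_rfl)
  have haB : Lam * m2 * B ≤ κ2 * m2 ^ 2 := by
    have h1 : Lam * B ≤ Lam ^ 2 * B := by
      have : Lam ≤ Lam ^ 2 := by nlinarith only [hLam]
      exact mul_le_mul_of_nonneg_right this hB0
    have h2 := mul_le_mul_of_nonneg_left (h1.trans hBκ) hm2p.le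
    have h3 : κ * m2 ^ 2 ≤ κ2 * m2 ^ 2 := mul_le_mul_of_nonneg_right hκ2' (sq_nonneg _)
    linarith only [h2, h3]
  obtain ⟨hal, o0, hwo, hform⟩ := hfr _ ν _ (Lam * m2) B η al w0 hSFr m2 hm2p hm2 hma2 haB
  have halp : 0 < al := by
    by_contra h
    push Not at h
    have := mul_nonpos_of_nonneg_of_nonpos hC1.le h
    linarith
  obtain ⟨_, _, hx2⟩ := tower_le hT
  have hf := TU_fo_cont L hu
  have hfc := TU_fo_cs L hu
  have hs0 : (0 : ℝ) < (1 / 2) ^ n := by positivity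
  have hterm := term_le (fun r => bD_nn b ε R0 R n (n + r) (fo L u) (x r) (hT.unit r) ν c) hsum
  have hbD0 := hterm 0
  have hbD2 := hterm 2
  rw [pow_zero, one_mul, add_zero, hT.zero] at hbD0
  have e4 : (2 : ℝ) ^ 2 = 4 := by norm_num
  rw [e4] at hbD2
  have hD0 : DD b ε R ((1 / 2) ^ n) (fo L u) n 0 (e 0) ≤ B :=
    (DD_le_bD b ε R0 R n n (fo L u) 0 (e 0) ν c).trans hbD0
  have hD2 : DD b ε R ((1 / 2) ^ n) (fo L u) (n + 2) (x 2) (e 2) ≤ 4 * B :=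
    (DD_le_bD b ε R0 R n (n + 2) (fo L u) (x 2) (e 2) ν c).trans hbD2
  have hX0 : ∫ y, ⟪fo L u y, e 0⟫_ℝ * (zR R0 y * ht ν c y ^ 2) ≤ B := by
    refine le_trans ?_ hbD0
    unfold bD bb
    rw [lev_u]
    have h9 := DD_nonneg b ε R hs0 (fo L u) n 0 (hT.unit 0)
    simp only [one_pow, div_one, sub_zero, one_smul, one_mul]
    have h10 := le_max_right 0 (∫ y, ⟪fo L u y, e 0⟫_ℝ * (zR R0 y * ht ν c y ^ 2))
    linarith
  -- the new plane
  set w : Sp d := (1 / al) • w0 with hw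
  set o : ℝ := o0 / al with ho
  have hSw : ‖w‖ ^ 2 + o ^ 2 = (‖w0‖ ^ 2 + o0 ^ 2) / al ^ 2 := by
    rw [hw, ho, norm_smul, Real.norm_of_nonneg (by positivity)]
    field_simp
  have hSwb : ‖w‖ ^ 2 + o ^ 2 ≤ 1 / (100 * R0 ^ 2) := by
    rw [hSw]
    exact num_Sw hC1 halp hm2p hal hLam hB0 hwo hRp hκ4 hBκ
  obtain ⟨hal1, hal2⟩ := num_w hC1 halp hm2p hal hLam hB0 hwo
  rw [← hSw] at hal1 hal2
  obtain ⟨hw1, ho1, hw24, hcl⟩ := num_small hR2 (norm_nonneg w) hSwb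
  have hνw : ⟪ν, w⟫_ℝ = 0 := by
    rw [hw, inner_smul_right, hSFr.wn, mul_zero]
  obtain ⟨q, hq⟩ : ∃ q, q = Real.sqrt (1 + ‖w‖ ^ 2) := ⟨_, rfl⟩
  have hν' := nu_unit hν hνw hq
  have hνc := nu_close hν hw1 hq
  have hcc := c_close (o := o) hR0 hc hx2 hw1 hq
  have hc' : |(c + (4 * o - ⟪w, x 2⟫_ℝ)) / q| ≤ R0 + 4 := by
    have h1 := abs_add_le ((c + (4 * o - ⟪w, x 2⟫_ℝ)) / q - c) c
    rw [sub_add_cancel] at h1
    linarith only [hc, hcl, hcc, h1]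
  have hb1 := hblc E R hR (fo L u) hf hfc n x e hT ν w c o q hν hνw hc hw1 ho1 hq hc'
  have hDD0 := DD_nonneg b ε R hs0 (fo L u) n 0 (hT.unit 0)
  have hDD2 := DD_nonneg b ε R hs0 (fo L u) (n + 2) (x 2) (hT.unit 2)
  have hSw0 : 0 ≤ ‖w‖ ^ 2 + o ^ 2 := by (clear * -; positivity)
  have hXb : blc ((1 / q) • (ν - w)) ((c + (4 * o - ⟪w, x 2⟫_ℝ)) / q)
      (fun y => ⟪fo L u y, e 0⟫_ℝ) R0 ≤ CX * Lam ^ 2 * B :=
    hb1.trans (num_X hC5 (by positivity) hm2p hSw0 hLam hB0 hBm hal2 hX0 hma hD0 hD2)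
  have hX00 : 0 ≤ CX * Lam ^ 2 * B := by positivity
  -- the test estimate
  have hest := hrec (fun y => ⟪fo L u y, e 0⟫_ℝ) (fun y => ⟪rs (x 2) 4 (fo L u) y, e 2⟫_ℝ)
    (x 2) ν w c al o q (C1 * (B + η))
    (C2 * (DD b ε R ((1 / 2) ^ n) (fo L u) n 0 (e 0) +
      DD b ε R ((1 / 2) ^ n) (fo L u) (n + 2) (x 2) (e 2))) hν hνw hc hx2 halp hw1 ho1 hq
    (mul_nonneg hC1.le (add_nonneg hB0 hSFr.eta0)) (by (clear * - hC2 hDD0 hDD2; positivity))
    (fun ζ N hζ hs => by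
      have h1 := htr E R hR (fo L u) hf hfc n x e hT ζ N hζ (fun y hy => by
        by_contra h
        have := hs y h
        linarith only [hR0, hR, hy, this])
      refine h1.trans (le_of_eq (by ring)))
    (fun G N hG hs ht' => by
      have h1 := hform G N hG hs ht'
      have e1 : al • w = w0 := by
        rw [hw, smul_smul, mul_one_div_cancel halp.ne', one_smul]
      have e2 : al * o = o0 := by
        rw [ho]
        field_simp
      rw [e1, e2]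
      refine h1.trans (le_of_eq (by ring)))
  have hep0 : 0 ≤ C3 * C4 * (C1 * (B + η) + al * (‖w‖ ^ 2 + o ^ 2) +
      C2 * (DD b ε R ((1 / 2) ^ n) (fo L u) n 0 (e 0) +
        DD b ε R ((1 / 2) ^ n) (fo L u) (n + 2) (x 2) (e 2))) := by
    have := hSFr.eta0
    (clear * - hC3 hC4 hC1 hB0 this halp hC2 hDD0 hDD2; positivity)
  have hsheet := hsh E (fo L u) hf hfc R hR n (e 0) (hT.unit 0) (max J' 2) _ _ al _
    (CX * Lam ^ 2 * B) (le_max_right _ _) hν' hc' halp hep0 hX00 hXb (by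
      intro ζ0 ζ1 N h0 h1 hC0' hC1'
      have hs := testF_supp hR2 hν hν' hc' (by linarith only [hw24, hνc]) hC0' hC1'
      have h2 := hest _ _ (htest _ _ hν' ζ0 ζ1 N h0 h1) (fun y hy => (hs y hy).1)
        (fun y hy => (hs y hy).2)
      rw [testF_plInt hν'] at h2
      refine h2.trans (le_of_eq (by ring)))
  have hep := num_ep hC0 hC1 hC2 hC3 hC4 hCXp (by positivity : 0 < C1 ^ 2) hLam hB0 hη hal1 hD0
    hD2
  refine ⟨(1 / q) • (ν - w), (c + (4 * o - ⟪w, x 2⟫_ℝ)) / q, al, hν', ?_, ?_, ?_, ?_, ?_⟩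
  · exact num_close hR2 hm2p (norm_nonneg w) rfl (norm_nonneg _) hνc hcc hal2 (by linarith only [hLam]) hB0
      (by linarith only [hC0, hC1, hC6, hCXp, hCEp])
  · exact hal.trans (mul_le_mul_of_nonneg_right (by linarith only [hC0, hC6, hCXp, hCEp, hCp1]) halp.le)
  · have h1 := (le_abs_self _).trans hSFr.al_le
    have h2 : C0 * (Lam * m2) ≤ C * (Lam * m2) := mul_le_mul_of_nonneg_right (by linarith only [hC1, hC6, hCXp, hCEp, hCp1]) ha.le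
    linarith only [h1, h2]
  · refine max_le (by (clear * - hR2 hC1 hC0 hC5 hC3 hC4 hC2 hC6 hLam hB0; positivity)) (hXb.trans ?_)
    exact mul_le_mul_of_nonneg_right (mul_le_mul_of_nonneg_right (by linarith only [hC0, hC1, hC6, hCEp, hCp1]) (by positivity)) hB0
  · refine FS_sheet_mono hsheet (hep.trans ?_) ?_
    · refine mul_le_mul_of_nonneg_right (mul_le_mul_of_nonneg_right ?_ (by positivity)) ?_
      · linarith only [hC0, hC1, hC6, hCXp, hCp1]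
      · have := Real.sqrt_nonneg (m2 * D)
        linarith only [hB0, this]
    · have h1 := hDD 0 (by norm_num)
      rw [add_zero, hT.zero] at h1
      exact mul_le_mul (by linarith only [hC0, hC1, hCXp, hCEp, hCp1]) h1 hDD0 (by (clear * - hR2 hC1 hC0 hC5 hC3 hC4 hC2 hC6; positivity))

end TG


end

section

/-!
# Module SS from module SAF (helper65)
-/

open MeasureTheory Metric Set TrI
open scoped InnerProductSpace ContDiff

namespace TG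

namespace SS2

noncomputable section

open TU SAFm

variable {d : ℕ}

/-- the defect of level 0 in the direction of level 2 -/
lemma DD02 (hTW : StmtTW) (hSC : StmtSC) (hd : 2 ≤ d) {M c0 ε : ℝ} (hε : 0 < ε) (hε1 : ε ≤ 1)
    {b : Sp d → ℝ} (hb : BaseKer 2 M c0 b) {R0 : ℝ} (hR0 : 100 + 8 * d ≤ R0) :
    ∃ C : ℝ, 0 < C ∧
    ∀ (E : Type) [NormedAddCommGroup E] [InnerProductSpace ℝ E] [FiniteDimensional ℝ E],
    ∀ (R : ℝ), 4 * R0 + 10 ≤ R → ∀ f : Sp d → E, Continuous f → HasCompactSupport f →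
    ∀ (n : ℕ) (x : ℕ → Sp d) (e : ℕ → E), Tower x e →
      DD b ε R ((1 / 2) ^ n) f n 0 (e 2) ≤ C * DD b ε R ((1 / 2) ^ n) f (n + 2) (x 2) (e 2) := by
  obtain ⟨C, hC, h⟩ := hTW d (by omega) M c0 ε hε hε1 b hb R0 hR0
  refine ⟨C * C, by positivity, ?_⟩
  intro E _ _ _ R hR f hf hfc n x e hT
  obtain ⟨hx1, hx2, hx3⟩ := tower_le hT
  have h1 := (h E R hR f hf hfc n (x 1) (e 2) (e 2) hx1 (hT.unit 2) (hT.unit 2)).1
  have h2 := (h E R hR (rs (x 1) (2 ^ 1) f) (rs_cont hf _ _) (rs_cs hfc _ (by norm_num)) (n + 1)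
    ((1 / 2 : ℝ) • (x 2 - x 1)) (e 2) (e 2) (by
      rw [norm_smul]
      norm_num
      linarith only [hx2]) (hT.unit 2) (hT.unit 2)).1
  rw [DD_fr hSC hd hε hε1 hb hf hfc, DD_fr hSC hd hε hε1 hb hf hfc, smul_zero, add_zero,
    pow_one, smul_smul] at h2
  norm_num at h2
  have e1 : n + 1 + 1 = n + 2 := rfl
  rw [e1] at h2
  norm_num at h1 ⊢
  calc _ ≤ _ := h1
    _ ≤ C * (C * DD b ε R ((1 / 2) ^ n) f (n + 2) (x 2) (e 2)) :=
        mul_le_mul_of_nonneg_left h2 hC.le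
    _ = _ := by ring

/-- the mass of level 0 is bounded by the inner mass of level 2 -/
lemma mass_low (hTW : StmtTW) (hSC : StmtSC) (hMA : StmtMA) (hd : 2 ≤ d) {M c0 ε : ℝ}
    (hε : 0 < ε) (hε1 : ε ≤ 1) {b : Sp d → ℝ} (hb : BaseKer 2 M c0 b) {R0 : ℝ}
    (hR0 : 200 + 8 * d ≤ R0) : ∃ C : ℝ, 0 < C ∧
    ∀ (E : Type) [NormedAddCommGroup E] [InnerProductSpace ℝ E] [FiniteDimensional ℝ E],
    ∀ (R : ℝ), 4 * R0 + 10 ≤ R → ∀ f : Sp d → E, Continuous f → HasCompactSupport f →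
    ∀ (n : ℕ) (x : ℕ → Sp d) (e : ℕ → E), Tower x e →
      ma b ε R0 ((1 / 2) ^ n) f n 0 ≤ 4 ^ (d - 1) * Mi R0 (rs (x 2) 4 f) (e 2) +
        C * DD b ε R ((1 / 2) ^ n) f (n + 2) (x 2) (e 2) := by
  have hd0 : (0 : ℝ) ≤ d := Nat.cast_nonneg d
  have hd1 : 1 ≤ d := by omega
  obtain ⟨C1, hC1, h1⟩ := DD02 hTW hSC hd hε hε1 hb (R0 := R0) (by linarith)
  obtain ⟨C2, hC2, h2⟩ := MA' hMA hd1 hε hε1 hb
  obtain ⟨N, hN, hz⟩ := TFn_of_cs (J := 2) (ζ := (zR (R0 / 3) : Sp d → ℝ))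
    (contDiff_infty.1 (zR_smooth (by linarith)) 2) (zR_cs _)
  refine ⟨C2 * N * C1, by positivity, ?_⟩
  intro E _ _ _ R hR f hf hfc n x e hT
  obtain ⟨hx1, hx2, hx3⟩ := tower_le hT
  have hsd := sqrt_le_d (d := d) hd1
  have hsd2 : Real.sqrt d ≤ (1 + d) / 2 := by
    have := Real.sqrt_nonneg (d : ℝ)
    nlinarith [Real.sq_sqrt hd0, sq_nonneg (Real.sqrt d - 1)]
  set H : Sp d → ℝ := fun y => zR (R0 / 3) (-(1 / 4 : ℝ) • x 2 + (1 / 4 : ℝ) • y) with hH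
  have hHT : TFn 2 N H := by
    have := TFn_aff hz (-(1 / 4 : ℝ) • x 2) (t := 1 / 4) (by norm_num)
    have e1 : max 1 |(1 / 4 : ℝ)| = 1 := by
      rw [abs_of_pos (by norm_num)]
      norm_num
    rwa [e1, one_pow, one_mul] at this
  have hnorm : ∀ y : Sp d, ‖-(1 / 4 : ℝ) • x 2 + (1 / 4 : ℝ) • y‖ ≤ (‖x 2‖ + ‖y‖) / 4 := by
    intro y
    refine (norm_add_le _ _).trans ?_
    rw [norm_smul, norm_smul]
    norm_num
    linarith
  have hnorm' : ∀ y : Sp d, (‖y‖ - ‖x 2‖) / 4 ≤ ‖-(1 / 4 : ℝ) • x 2 + (1 / 4 : ℝ) • y‖ := by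
    intro y
    have h3 : -(1 / 4 : ℝ) • x 2 + (1 / 4 : ℝ) • y = (1 / 4 : ℝ) • (y - x 2) := by module
    rw [h3, norm_smul]
    norm_num
    linarith [norm_sub_norm_le y (x 2)]
  have h3 := (h2 E f hf hfc R (by linarith) n (e 2) (hT.unit 2) 0 (ball 0 R0)
    measurableSet_ball).2 H N 1 one_pos hHT (fun y => zR_nonneg _ _) (fun y hy => by
      rw [sub_zero] at hy
      refine zR_zero ?_
      have := hnorm' y
      linarith) (fun y z hy hz => by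
      have h4 : ‖z‖ ≤ R0 + 2 := by
        rw [mem_ball, dist_zero_right] at hy
        have := norm_add_le (z - y) y
        rw [sub_add_cancel] at this
        linarith
      have h5 := hnorm z
      refine le_of_eq (zR_one ?_).symm
      linarith)
  rw [one_mul, ← ma_u] at h3
  have h4 : ∫ y, ⟪f y, e 2⟫_ℝ * H y = 4 ^ (d - 1) * Mi R0 (rs (x 2) 4 f) (e 2) := by
    rw [int_frame hd1 f (e 2) (x 2) (by norm_num : (0 : ℝ) < 4) H]
    congr 1
    unfold Mi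
    congr 1
    funext y
    congr 1
    simp only [hH]
    congr 1
    rw [smul_add, smul_smul]
    module
  rw [h4] at h3
  have h5 := h1 E R hR f hf hfc n x e hT
  have h6 := mul_le_mul_of_nonneg_left h5 (show 0 ≤ C2 * N by positivity)
  linarith

/-- the inner mass of level 2 is bounded by the mass -/
lemma mass_up (hSC : StmtSC) (hMA : StmtMA) (hd : 2 ≤ d) {M c0 ε : ℝ}
    (hε : 0 < ε) (hε1 : ε ≤ 1) {b : Sp d → ℝ} (hb : BaseKer 2 M c0 b) {R0 : ℝ}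
    (hR0 : 200 + 8 * d ≤ R0) : ∃ C : ℝ, 0 < C ∧
    ∀ (E : Type) [NormedAddCommGroup E] [InnerProductSpace ℝ E] [FiniteDimensional ℝ E],
    ∀ (R : ℝ), 4 * R0 + 10 ≤ R → ∀ f : Sp d → E, Continuous f → HasCompactSupport f →
    ∀ (n : ℕ) (x : ℕ → Sp d) (e : ℕ → E), Tower x e →
      Mi R0 (rs (x 2) 4 f) (e 2) ≤ C * (ma b ε R0 ((1 / 2) ^ n) f (n + 2) (x 2) +
        DD b ε R ((1 / 2) ^ n) f (n + 2) (x 2) (e 2)) := by
  have hd0 : (0 : ℝ) ≤ d := Nat.cast_nonneg d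
  obtain ⟨C1, hC1, h1⟩ := mass_unit hMA (by omega : 1 ≤ d) hε hε1 hb
  obtain ⟨N, hN, hz⟩ := TFn_of_cs (J := 2) (ζ := (zR (R0 / 3) : Sp d → ℝ))
    (contDiff_infty.1 (zR_smooth (by linarith)) 2) (zR_cs _)
  refine ⟨C1 * N, by positivity, ?_⟩
  intro E _ _ _ R hR f hf hfc n x e hT
  have k2 := h1 E R0 R (by linarith) (by linarith) (rs (x 2) 4 f) (rs_cont hf _ _)
    (rs_cs hfc _ (by norm_num)) (n + 2) (e 2) (hT.unit 2) _ N hz (fun y hy => zR_zero (by linarith))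
  have e4 : (2 : ℝ) ^ 2 = 4 := by norm_num
  have hm := ma_fr hSC hd hε hε1 hb hf hfc n 2 (x 2) R0 (n + 2) 0
  have hD := DD_fr hSC hd hε hε1 hb hf hfc n 2 (x 2) R (n + 2) 0 (e 2)
  rw [smul_zero, add_zero, e4] at hm hD
  rw [hm, hD] at k2
  exact (le_abs_self _).trans k2

lemma half_le_wq (r : ℕ) : ((1 / 2 : ℝ)) ^ r ≤ wq (1 / 2) r := by
  unfold wq
  have h1 : ((1 / 2 : ℝ)) ^ r = (2 : ℝ) ^ (-(r : ℝ)) := by
    rw [Real.rpow_neg (by norm_num), Real.rpow_natCast]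
    rw [one_div, inv_pow]
  rw [h1]
  apply Real.rpow_le_rpow_of_exponent_le (by norm_num)
  have hr : (0 : ℝ) ≤ r := Nat.cast_nonneg r
  linarith

lemma wq_pos (q : ℝ) (r : ℕ) : 0 < wq q r := by
  unfold wq
  positivity

/-- a term of a sum, for the levels at most 2 -/
lemma term2 {β : ℕ → ℝ} (h0 : ∀ r, 0 ≤ β r) {B : ℝ}
    (h : ∀ I : ℕ, ∑ r ∈ Finset.range I, wq (1 / 2) r * β r ≤ B) {r : ℕ} (hr : r ≤ 2) :
    β r ≤ 2 * B := by
  have h1 := h (r + 1)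
  have h2 : wq (1 / 2) r * β r ≤ ∑ r ∈ Finset.range (r + 1), wq (1 / 2) r * β r :=
    Finset.single_le_sum (f := fun r => wq (1 / 2) r * β r)
      (fun i _ => mul_nonneg (wq_pos _ _).le (h0 i)) (Finset.mem_range.2 (by omega))
  have h3 : (1 / 2 : ℝ) ≤ wq (1 / 2) r := by
    unfold wq
    have h4 : (1 / 2 : ℝ) = (2 : ℝ) ^ (-1 : ℝ) := by
      rw [Real.rpow_neg_one]
      norm_num
    rw [h4]
    apply Real.rpow_le_rpow_of_exponent_le (by norm_num)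
    have hr' : (r : ℝ) ≤ 2 := by exact_mod_cast hr
    rw [Real.rpow_neg_one]
    linarith
  have h4 := mul_le_mul_of_nonneg_right h3 (h0 r)
  linarith only [h1, h2, h4]

/-- the sums for a tilted plane -/
def SumsS : Prop := ∀ (d : ℕ), 2 ≤ d → ∀ (M c0 ε : ℝ), 0 < ε → ε ≤ 1 →
    ∀ (b : Sp d → ℝ), BaseKer 2 M c0 b → ∀ (R0 γ K : ℝ), 200 + 8 * d ≤ R0 → 0 < γ →
    γ ≤ 1 / (8 * d) → 1 ≤ K → ∃ C : ℝ, 0 < C ∧
    ∀ (E : Type) [NormedAddCommGroup E] [InnerProductSpace ℝ E] [FiniteDimensional ℝ E],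
    ∀ (R : ℝ), 4 * R0 + 10 ≤ R → ∀ (n : ℕ) (f : Sp d → E), Continuous f → HasCompactSupport f →
    ∀ (x : ℕ → Sp d) (e : ℕ → E), Tower x e → ∀ a : ℝ, 0 < a →
      (∀ r : ℕ, ma b ε R0 ((1 / 2) ^ n) f (n + r) (x r) ≤ K * (2 : ℝ) ^ (γ * r) * a) →
      ∀ (ν ν' : Sp d) (c c' B T : ℝ), ‖ν‖ = 1 → ‖ν'‖ = 1 → |c| ≤ R0 + 3 → |c'| ≤ R0 + 4 →
        ‖ν' - ν‖ ^ 2 + (c' - c) ^ 2 ≤ T →
        (∀ I : ℕ, ∑ r ∈ Finset.range I, wq (1 / 2) r *
          bD b ε R0 R ((1 / 2) ^ n) f (n + r) (x r) (e r) ν c ≤ B) →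
        ∀ I : ℕ, ∑ r ∈ Finset.range I, wq (1 / 2) r *
          bD b ε R0 R ((1 / 2) ^ n) f (n + r) (x r) (e r) ν' c' ≤ C * (B + T * (a + B))

end

end SS2

open TU SAFm _root_.TG.SS2 in
/-- MODULE SS from module SAF -/
theorem stmtSS_of_SAF (hSAF : StmtSAF) (hMA : StmtMA) (hTW : StmtTW) (hSC : StmtSC)
    (hSD : StmtSD) (hSu : SumsS) : StmtSS := by
  intro d V E _ _ _ _ _ _ L hd hL
  obtain ⟨J, HJ⟩ := hSAF d V E L hd hL
  refine ⟨J, ?_⟩
  intro M c0 ε hε hε1 b hb R0 γ K hR0 hγ hγ1 hK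
  obtain ⟨CS, κS, hCS, hκS, H⟩ := HJ M c0 ε hε hε1 b hb R0 hR0
  obtain ⟨C1, hC1, h1⟩ := mass_low hTW hSC hMA hd hε hε1 hb hR0
  obtain ⟨C2, hC2, h2⟩ := mass_up hSC hMA hd hε hε1 hb hR0
  obtain ⟨C4, hC4, h4⟩ := hSu d hd M c0 ε hε hε1 b hb R0 γ K hR0 hγ hγ1 hK
  obtain ⟨P, hP⟩ : ∃ P : ℝ, P = 4 ^ (d - 1) := ⟨_, rfl⟩
  have hP1 : 1 ≤ P := by
    rw [hP]
    exact one_le_pow₀ (by norm_num)
  have hP0 : 0 < P := by linarith
  obtain ⟨Lam, hLam⟩ : ∃ Lam : ℝ, Lam = 4 * K * P := ⟨_, rfl⟩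
  have hLam1 : 1 ≤ Lam := by
    rw [hLam]
    nlinarith
  have hLam0 : 0 < Lam := by linarith
  have hd1 : (1 : ℝ) ≤ d := by exact_mod_cast (by omega : 1 ≤ d)
  obtain ⟨κ, hκ⟩ : ∃ κ : ℝ, κ = min (min 1 (1 / (4 * C1)))
    (min (κS / (4 * P * Lam ^ 2)) (1 / (2 * P * CS * Lam))) := ⟨_, rfl⟩
  have hκ0 : 0 < κ := by
    rw [hκ]
    refine lt_min (lt_min one_pos (by positivity)) (lt_min (by positivity) (by positivity))
  have k1 : κ ≤ 1 := by
    rw [hκ]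
    exact (min_le_left _ _).trans (min_le_left _ _)
  have k2 : C1 * (2 * κ) ≤ 1 / 2 := by
    have : κ ≤ 1 / (4 * C1) := by
      rw [hκ]
      exact (min_le_left _ _).trans (min_le_right _ _)
    rw [le_div_iff₀ (by positivity)] at this
    linarith
  have k3 : 4 * P * Lam ^ 2 * κ ≤ κS := by
    have : κ ≤ κS / (4 * P * Lam ^ 2) := by
      rw [hκ]
      exact (min_le_right _ _).trans (min_le_left _ _)
    rw [le_div_iff₀ (by positivity)] at this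
    linarith
  have k4 : 2 * P * CS * Lam * κ ≤ 1 := by
    have : κ ≤ 1 / (2 * P * CS * Lam) := by
      rw [hκ]
      exact (min_le_right _ _).trans (min_le_right _ _)
    rw [le_div_iff₀ (by positivity)] at this
    linarith only [this]
  obtain ⟨C3, hC3⟩ : ∃ C3 : ℝ, C3 = C2 * (4 * K + 2) := ⟨_, rfl⟩
  have hC30 : 0 < C3 := by
    rw [hC3]
    positivity
  obtain ⟨C, hC⟩ : ∃ C : ℝ, C = 2 * P * CS * Lam + CS * Lam * C3 +
    C4 * (1 + 4 * P * CS * Lam) + CS * Lam ^ 2 * (2 + 2 * CS) + 2 * CS + 2 * P * CS := ⟨_, rfl⟩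
  have q1 : 0 ≤ 2 * P * CS * Lam := by positivity
  have q2 : 0 ≤ CS * Lam * C3 := by positivity
  have q3 : 0 ≤ C4 * (1 + 4 * P * CS * Lam) := by positivity
  have q4 : 0 ≤ CS * Lam ^ 2 * (2 + 2 * CS) := by positivity
  have q5 : 0 ≤ 2 * P * CS := by positivity
  refine ⟨C, κ, by rw [hC]; (clear * - hP1 hCS hLam1 hC30 hC4; positivity), hκ0, ?_⟩
  intro R hR n u hu x e hT a ha haeq hgr ν c B D hν hc hB hsum hD
  have hf : Continuous (fo L u) := by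
    unfold fo
    exact L.continuous.comp (hu.smooth.continuous_fderiv (by simp))
  have hfc : HasCompactSupport (fo L u) := by
    have h : HasCompactSupport (fderiv ℝ u) := hu.supp.fderiv ℝ
    exact h.comp_left (map_zero L)
  have hBnn : ∀ r, 0 ≤ bD b ε R0 R ((1 / 2) ^ n) (fo L u) (n + r) (x r) (e r) ν c :=
    fun r => bD_nn b ε R0 R n (n + r) _ _ (hT.unit r) ν c
  have hDnn : ∀ r, 0 ≤ DD b ε R ((1 / 2) ^ n) (fo L u) (n + r) (x r) (e r) :=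
    fun r => DD_nonneg b ε R (by positivity) _ _ _ (hT.unit r)
  have hB0 : 0 ≤ B := by simpa using hsum 0
  have hD0 : 0 ≤ D := by simpa using hD 0
  have hb2 := term2 hBnn hsum (le_refl 2)
  have hd2 := DD_le_bD b ε R0 R n (n + 2) (fo L u) (x 2) (e 2) ν c
  have hD2 := fun (r : ℕ) (hr : r ≤ 2) => term2 hDnn hD hr
  have m1 := h1 E R hR (fo L u) hf hfc n x e hT
  have m2' := h2 E R hR (fo L u) hf hfc n x e hT
  rw [← haeq, ← hP] at m1
  have g2 := hgr 2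
  have hma2 := ma_nonneg b ε R0 (by positivity : (0 : ℝ) < (1 / 2) ^ n) (fo L u) (n + 2) (x 2)
  have e4 : (2 : ℝ) ^ 2 = 4 := by norm_num
  have fb := bD_fr hSC hSD hd hε hε1 hb hf hfc n 2 (x 2) R0 R (e 2) ν c
  have fm := ma_fr hSC hd hε hε1 hb hf hfc n 2 (x 2) R0 (n + 2) 0
  rw [smul_zero, add_zero] at fm
  rw [e4] at fb fm
  obtain ⟨m2, hm2⟩ : ∃ m2 : ℝ, m2 = Mi R0 (rs (x 2) 4 (fo L u)) (e 2) := ⟨_, rfl⟩
  have hgg : (2 : ℝ) ^ (γ * (2 : ℕ)) ≤ 2 := by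
    have h5 : (2 : ℝ) ^ (γ * (2 : ℕ)) ≤ (2 : ℝ) ^ (1 : ℝ) := by
      apply Real.rpow_le_rpow_of_exponent_le (by norm_num)
      have h6 : 1 / (8 * (d : ℝ)) ≤ 1 / 8 :=
        one_div_le_one_div_of_le (by norm_num) (by linarith only [hd1])
      push_cast
      linarith only [hγ1, h6]
    rwa [Real.rpow_one] at h5
  have g3 : ma b ε R0 ((1 / 2) ^ n) (fo L u) (n + 2) (x 2) ≤ 2 * K * a := by
    refine g2.trans ?_
    have h6 : K * (2 : ℝ) ^ (γ * (2 : ℕ)) ≤ K * 2 := mul_le_mul_of_nonneg_left hgg (by linarith only [hK])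
    have := mul_le_mul_of_nonneg_right h6 ha.le
    linarith
  rw [← hm2] at m1 m2'
  -- smallness
  have hC1D : C1 * DD b ε R ((1 / 2) ^ n) (fo L u) (n + 2) (x 2) (e 2) ≤ 1 / 2 * a := by
    have h6 : DD b ε R ((1 / 2) ^ n) (fo L u) (n + 2) (x 2) (e 2) ≤ 2 * κ * a := by linarith only [hB, hb2, hd2]
    calc _ ≤ C1 * (2 * κ * a) := mul_le_mul_of_nonneg_left h6 hC1.le
      _ = C1 * (2 * κ) * a := by ring
      _ ≤ 1 / 2 * a := mul_le_mul_of_nonneg_right k2 ha.le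
  have ham : a ≤ 2 * P * m2 := by linarith only [m1, hC1D]
  have hm20 : 0 < m2 := by
    by_contra hh
    have : P * m2 ≤ 0 := mul_nonpos_of_nonneg_of_nonpos hP0.le (not_lt.1 hh)
    linarith only [ha, m1, hC1D, this]
  have hBm : 2 * B ≤ 4 * P * κ * m2 := by
    have : κ * a ≤ κ * (2 * P * m2) := mul_le_mul_of_nonneg_left ham hκ0.le
    linarith only [hB, this]
  have hLm : ma b ε R0 ((1 / 2) ^ n) (fo L u) (n + 2) (x 2) ≤ Lam * m2 := by
    refine g3.trans ?_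
    have : 2 * K * a ≤ 2 * K * (2 * P * m2) := mul_le_mul_of_nonneg_left ham (by linarith only [hK])
    rw [hLam]
    linarith only [this]
  have hL2 : Lam ≤ Lam ^ 2 := by nlinarith only [hLam1]
  have hL3 : 4 * P * κ ≤ κS := by
    have h6 : 4 * P * κ * 1 ≤ 4 * P * κ * Lam ^ 2 :=
      mul_le_mul_of_nonneg_left (by linarith only [hLam1, hL2]) (by positivity)
    linarith only [k3, h6]
  have hL4 : 4 * P * κ * Lam ≤ κS := by
    have h6 : 4 * P * κ * Lam ≤ 4 * P * κ * Lam ^ 2 :=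
      mul_le_mul_of_nonneg_left hL2 (by positivity)
    linarith only [k3, h6]
  have hFlat : Flat b ε R0 R κS (rs (x 2) 4 (fo L u)) (n + 2) (e 2) ν ((c - ⟪ν, x 2⟫_ℝ) / 4) := by
    unfold Flat
    rw [fb, fm]
    change 0 < Mi R0 (rs (x 2) 4 (fo L u)) (e 2) ∧ _ ≤ κS * Mi R0 (rs (x 2) 4 (fo L u)) (e 2) ∧
      _ ≤ κS * Mi R0 (rs (x 2) 4 (fo L u)) (e 2) ^ 2
    rw [← hm2]
    refine ⟨hm20, ?_, ?_⟩
    · have := mul_le_mul_of_nonneg_right hL3 hm20.le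
      linarith only [hb2, hBm, this]
    · have h6 := mul_le_mul hLm (hb2.trans hBm) (hBnn 2) (by positivity)
      have h7 := mul_le_mul_of_nonneg_right hL4 (sq_nonneg m2)
      refine h6.trans ?_
      calc Lam * m2 * (4 * P * κ * m2) = 4 * P * κ * Lam * m2 ^ 2 := by ring
        _ ≤ _ := h7
  have hLB : Lam ^ 2 * B ≤ κS * m2 := by
    have h6 := mul_le_mul_of_nonneg_left hBm (show 0 ≤ Lam ^ 2 by positivity)
    have h7 := mul_le_mul_of_nonneg_right k3 hm20.le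
    have h8 : 0 ≤ Lam ^ 2 * B := by positivity
    calc Lam ^ 2 * B ≤ Lam ^ 2 * (2 * B) := by linarith only [h8]
      _ ≤ Lam ^ 2 * (4 * P * κ * m2) := h6
      _ = 4 * P * Lam ^ 2 * κ * m2 := by ring
      _ ≤ _ := h7
  have hsum2 : ∀ I : ℕ, ∑ r ∈ Finset.range I, (1 / 2 : ℝ) ^ r *
      bD b ε R0 R ((1 / 2) ^ n) (fo L u) (n + r) (x r) (e r) ν c ≤ B := fun I =>
    (Finset.sum_le_sum fun r _ => mul_le_mul_of_nonneg_right (half_le_wq r) (hBnn r)).trans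
      (hsum I)
  obtain ⟨ν', c', a', hν', t1, t2, t3, t4, t5⟩ := H R hR n u hu x e hT ν c B (2 * D) Lam m2 hν hc
    hFlat hm2 hLam1 hLm hLB hsum2 hD2
  have ha' : 0 < a' := t5.ab0
  have hmC : m2 ≤ C3 * a := by
    have h6 : DD b ε R ((1 / 2) ^ n) (fo L u) (n + 2) (x 2) (e 2) ≤ 2 * a := by
      have := mul_le_mul_of_nonneg_right k1 ha.le
      linarith only [hB, hb2, hd2, this]
    have h7 : ma b ε R0 ((1 / 2) ^ n) (fo L u) (n + 2) (x 2) +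
        DD b ε R ((1 / 2) ^ n) (fo L u) (n + 2) (x 2) (e 2) ≤ (4 * K + 2) * a := by
      have : 0 ≤ K * a := by positivity
      linarith only [hma2, g3, h6]
    refine m2'.trans ((mul_le_mul_of_nonneg_left h7 hC2.le).trans (le_of_eq ?_))
    rw [hC3]
    ring
  have htn : 0 ≤ ‖ν' - ν‖ ^ 2 + (c' - c) ^ 2 := by (clear * -; positivity)
  have u1 : a * (‖ν' - ν‖ ^ 2 + (c' - c) ^ 2) ≤ 2 * P * CS * Lam * B := by
    have h6 := mul_le_mul_of_nonneg_right ham htn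
    have h7 := mul_le_mul_of_nonneg_left t1 (show 0 ≤ 2 * P by positivity)
    calc _ ≤ 2 * P * m2 * (‖ν' - ν‖ ^ 2 + (c' - c) ^ 2) := h6
      _ = 2 * P * (m2 * (‖ν' - ν‖ ^ 2 + (c' - c) ^ 2)) := by ring
      _ ≤ 2 * P * (CS * Lam * B) := h7
      _ = _ := by ring
  have u2 : ‖ν' - ν‖ ^ 2 + (c' - c) ^ 2 ≤ 2 * P * CS * Lam * B / a := by
    rw [le_div_iff₀ ha]
    linarith only [u1]
  have u3 : 2 * P * CS * Lam * B ≤ a := by
    have h6 := mul_le_mul_of_nonneg_left hB q1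
    have h7 := mul_le_mul_of_nonneg_right k4 ha.le
    linarith only [h6, h7]
  have u4 : |c'| ≤ R0 + 4 := by
    have h6 : (c' - c) ^ 2 ≤ 1 := by
      have h7 : 2 * P * CS * Lam * B / a ≤ 1 := by
        rw [div_le_one ha]
        exact u3
      have := sq_nonneg ‖ν' - ν‖
      linarith only [u2, h7, this]
    have h8 : |c' - c| ≤ 1 := by
      rw [← sq_abs] at h6
      nlinarith only [h6]
    calc |c'| = |c + (c' - c)| := by ring_nf
      _ ≤ |c| + |c' - c| := abs_add_le _ _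
      _ ≤ R0 + 4 := by linarith only [hc, h8]
  refine ⟨ν', c', a', hν', ?_, ?_, ?_, ?_, ?_⟩
  · refine u1.trans (mul_le_mul_of_nonneg_right ?_ hB0)
    rw [hC]
    linarith only [hCS, q2, q3, q4, q5]
  · have h6 := mul_le_mul_of_nonneg_left t2 (show 0 ≤ 2 * P by positivity)
    have h7 : 2 * P * CS ≤ C := by
      rw [hC]
      linarith only [hCS, q1, q2, q3, q4]
    have h8 := mul_le_mul_of_nonneg_right h7 ha'.le
    linarith only [m1, hC1D, h6, h8]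
  · have h6 := mul_le_mul_of_nonneg_left hmC (show 0 ≤ CS * Lam by positivity)
    have h7 : CS * Lam * C3 ≤ C := by
      rw [hC]
      linarith only [hCS, q1, q3, q4, q5]
    have h8 := mul_le_mul_of_nonneg_right h7 ha.le
    linarith only [t3, h6, h8]
  · intro I
    have h6 := h4 E R hR n (fo L u) hf hfc x e hT a ha hgr ν ν' c c' B _ hν hν' hc u4 u2 hsum I
    refine h6.trans ?_
    have h7 : 2 * P * CS * Lam * B / a * (a + B) ≤ 4 * P * CS * Lam * B := by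
      have h8 : B ≤ a := by
        have := mul_le_mul_of_nonneg_right k1 ha.le
        linarith only [hB, this]
      calc 2 * P * CS * Lam * B / a * (a + B) ≤ 2 * P * CS * Lam * B / a * (a + a) :=
            mul_le_mul_of_nonneg_left (by linarith only [h8]) (by (clear * - hP1 hCS hLam1 hB0 ha; positivity))
        _ = 4 * P * CS * Lam * B := by
            field_simp
            ring
    have h9 : C4 * (B + 2 * P * CS * Lam * B / a * (a + B)) ≤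
        C4 * (1 + 4 * P * CS * Lam) * B := by
      have := mul_le_mul_of_nonneg_left h7 hC4.le
      linarith only [this]
    refine h9.trans (mul_le_mul_of_nonneg_right ?_ hB0)
    rw [hC]
    linarith only [hCS, q1, q2, q4, q5]
  · have hs1 : Real.sqrt (m2 * (2 * D)) ≤ (1 + 2 * CS) * Real.sqrt (a' * D) := by
      have h6 : m2 * (2 * D) ≤ (1 + 2 * CS) ^ 2 * (a' * D) := by
        have h7 := mul_le_mul_of_nonneg_right t2 (show 0 ≤ 2 * D by positivity)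
        have h8 : 0 ≤ a' * D := by positivity
        linarith only [h7, mul_nonneg (show 0 ≤ 1 + 2 * CS + 4 * CS ^ 2 by positivity) h8]
      refine (Real.sqrt_le_sqrt h6).trans (le_of_eq ?_)
      rw [Real.sqrt_mul (by positivity), Real.sqrt_sq (by positivity)]
    have hs0 : 0 ≤ Real.sqrt (a' * D) := Real.sqrt_nonneg _
    refine FS_sheet_mono t5 ?_ ?_
    · have h6 : CS * Lam ^ 2 * (2 + 2 * CS) ≤ C := by
        rw [hC]
        linarith only [hCS, q1, q2, q3, q5]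
      have h7 : 0 ≤ CS * Lam ^ 2 := by positivity
      calc CS * Lam ^ 2 * (B + Real.sqrt (m2 * (2 * D)))
          ≤ CS * Lam ^ 2 * ((2 + 2 * CS) * (B + Real.sqrt (a' * D))) := by
            refine mul_le_mul_of_nonneg_left ?_ h7
            have : 0 ≤ (1 + 2 * CS) * B := by positivity
            linarith only [hs1, hs0, this]
        _ = CS * Lam ^ 2 * (2 + 2 * CS) * (B + Real.sqrt (a' * D)) := by ring
        _ ≤ C * (B + Real.sqrt (a' * D)) := mul_le_mul_of_nonneg_right h6 (by (clear * - hB0; positivity))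
    · have h6 : 2 * CS ≤ C := by
        rw [hC]
        linarith only [q1, q2, q3, q4, q5]
      have := mul_le_mul_of_nonneg_right h6 hD0
      linarith only [this]

end TG


end

section

/-!
# Sheet lemma (module SA), part 8: change of plane in the functionals b (helper65)
-/

open MeasureTheory Metric Set TrI
open scoped InnerProductSpace ContDiff

namespace TG

namespace SAm

noncomputable section

open TU PF

variable {d : ℕ}

/-- cut-off times the square of an affine function -/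
lemma TFn_lin_sq {N ρ : ℝ} {φ : Sp d → ℝ} (h : TFn 2 N φ) (hρ : 0 ≤ ρ)
    (hs : ∀ y, ρ < ‖y‖ → φ y = 0) {w : Sp d} {W : ℝ} (hw : ‖w‖ ≤ W) :
    TFn 2 (16 * N * (W * (1 + ρ)) ^ 2) (fun y => φ y * ⟪w, y⟫_ℝ ^ 2) := by
  have hN := TFn_nonneg h
  have hW : 0 ≤ W := (norm_nonneg _).trans hw
  have h1 := TFn_mul_lin h hρ hs w 0
  have h2 := TFn_mul_lin h1 hρ (fun y hy => by rw [hs y hy, zero_mul]) w 0
  have e : (fun y => φ y * ⟪w, y⟫_ℝ ^ 2) =
      fun y => φ y * (⟪w, y⟫_ℝ + 0) * (⟪w, y⟫_ℝ + 0) := by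
    funext y
    ring
  rw [e]
  refine TFn_mono h2 le_rfl ?_
  rw [abs_zero, add_zero]
  have h3 : ‖w‖ * (1 + ρ) ≤ W * (1 + ρ) := mul_le_mul_of_nonneg_right hw (by linarith)
  have h4 : 0 ≤ ‖w‖ * (1 + ρ) := by positivity
  have h5 : (‖w‖ * (1 + ρ)) ^ 2 ≤ (W * (1 + ρ)) ^ 2 := pow_le_pow_left₀ h4 h3 2
  nlinarith only [hN, h5]

/-- the functional b of a tilted plane, unit scale -/
lemma tilt (hZ : StmtZ) (hTW : StmtTW) (hd : 1 ≤ d) {M c0 ε : ℝ} (hε : 0 < ε) (hε1 : ε ≤ 1)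
    {b : Sp d → ℝ} (hb : BaseKer 2 M c0 b) {R0 : ℝ} (hR0 : 100 + 8 * d ≤ R0) :
    ∃ C : ℝ, 0 < C ∧
    ∀ (E : Type) [NormedAddCommGroup E] [InnerProductSpace ℝ E] [FiniteDimensional ℝ E],
    ∀ (R : ℝ), 4 * R0 + 10 ≤ R → ∀ f : Sp d → E, Continuous f → HasCompactSupport f →
    ∀ (n : ℕ) (x : Sp d) (e e' : E), ‖x‖ ≤ Real.sqrt d → ‖e‖ = 1 → ‖e'‖ = 1 →
    ∀ (ν ν' : Sp d) (c c' T : ℝ), ‖ν‖ = 1 → ‖ν'‖ = 1 → |c| ≤ 2 * R0 → |c'| ≤ 2 * R0 →
      ‖ν' - ν‖ ^ 2 + (c' - c) ^ 2 ≤ T →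
      max 0 (bb R0 ((1 / 2) ^ n) f n 0 e ν' c') ≤ 2 * max 0 (bb R0 ((1 / 2) ^ n) f n 0 e ν c) +
        C * T * (ma b ε R0 ((1 / 2) ^ n) f (n + 1) x + DD b ε R ((1 / 2) ^ n) f n 0 e +
            DD b ε R ((1 / 2) ^ n) f (n + 1) x e') + C * DD b ε R ((1 / 2) ^ n) f n 0 e := by
  have hd0 : (0 : ℝ) ≤ d := Nat.cast_nonneg d
  have hR00 : 100 ≤ R0 := by linarith
  obtain ⟨CT, hCT, htw⟩ := hTW d hd M c0 ε hε hε1 b hb R0 hR0
  obtain ⟨CZ, hCZ, hz⟩ := Z' hZ hd hε hε1 hb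
  obtain ⟨N1, hN1, hz1⟩ := TFn_of_cs (J := 2) (ζ := (zR R0 : Sp d → ℝ))
    (zR_contDiff (by linarith) 2) (zR_cs _)
  set Kh := 4 ^ 2 * N1 * max 1 ((R0 + 1) + 2 * R0) ^ 2 with hKh
  set K4 := 4 ^ 2 * N1 * max 1 ((R0 + 1) + 4 * R0) ^ 2 with hK4
  set Kp := 16 * N1 * (2 * (1 + (R0 + 1))) ^ 2 with hKp
  have hKh0 : 0 < Kh := by positivity
  have hK40 : 0 < K4 := by positivity
  have hKp0 : 0 < Kp := by positivity
  set NH := 2 * Kh + 4 * Kp + 4 * (4 * R0) ^ 2 * N1 + Kh with hNH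
  have hNH0 : 0 < NH := by positivity
  refine ⟨8 * CT + 4 * CZ * (K4 + N1) + CZ * NH, by positivity, ?_⟩
  intro E _ _ _ R hR f hf hfc n x e e' hx he he' ν ν' c c' T hν hν' hc hc' hT
  obtain ⟨-, -, -, htw4⟩ := htw E R hR f hf hfc n x e e' hx he he'
  have hD0 : 0 ≤ DD b ε R ((1 / 2) ^ n) f n 0 e := PL.DD_nn b ε R n f 0 he
  set D0 := DD b ε R ((1 / 2) ^ n) f n 0 e with hD0d
  set Q := ma b ε R0 ((1 / 2) ^ n) f (n + 1) x + D0 + DD b ε R ((1 / 2) ^ n) f (n + 1) x e'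
    with hQ
  rw [PL.bb_eq, PL.bb_eq]
  set δ := ν' - ν with hδ
  have hδ2 : ‖δ‖ ≤ 2 := by
    refine (norm_sub_le _ _).trans ?_
    rw [hν, hν']
    norm_num
  have hcc : |c' - c| ≤ 4 * R0 := (abs_sub _ _).trans (by linarith)
  have hT0 : 0 ≤ T := by
    refine le_trans ?_ hT
    (clear * -; positivity)
  have hQ0 : 0 ≤ CT * Q := (le_max_left _ _).trans (htw4 ν 0 hν (by
    rw [abs_zero]
    positivity)).2
  set m : Sp d → ℝ := fun y => ⟪f y, e⟫_ℝ with hm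
  -- (i) the quadratic form of δ
  have s0 : ∀ y : Sp d, R0 + 1 < ‖y‖ → zR R0 y = 0 := fun y hy => zR_zero hy.le
  have tp := TFn_lin_sq hz1 (ρ := R0 + 1) (by linarith) s0 hδ2
  have ip := int_m (R := R0 + 1) (m := m) (hf.inner continuous_const) tp.smooth.continuous
    (fun y hy => by rw [s0 y hy, zero_mul])
  have b1 : ∫ y, m y * (zR R0 y * ⟪δ, y⟫_ℝ ^ 2) ≤ ‖δ‖ ^ 2 * (CT * Q) := by
    rcases (norm_nonneg δ).eq_or_lt with h0 | h0
    · have h1 : δ = 0 := norm_eq_zero.1 h0.symm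
      rw [h1]
      simp
    · have h1 : ‖(1 / ‖δ‖) • δ‖ = 1 := by
        rw [norm_smul, Real.norm_of_nonneg (by positivity)]
        field_simp
      have h2 := (htw4 ((1 / ‖δ‖) • δ) 0 h1 (by rw [abs_zero]; positivity)).2
      rw [PL.bb_eq] at h2
      have h3 := (le_max_right _ _).trans h2
      have h4 : ∫ y, m y * (zR R0 y * ⟪δ, y⟫_ℝ ^ 2) =
          ‖δ‖ ^ 2 * ∫ y, m y * (zR R0 y * ht ((1 / ‖δ‖) • δ) 0 y ^ 2) := by
        rw [← integral_const_mul]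
        congr 1
        funext y
        unfold ht
        rw [inner_smul_left]
        simp only [conj_trivial, sub_zero]
        field_simp
      rw [h4]
      exact mul_le_mul_of_nonneg_left h3 (by positivity)
  -- (ii) the mass
  have t4 := TFn_ht_sq hz1 (ρ := R0 + 1) s0 hν (show |4 * R0| ≤ 4 * R0 by
    rw [abs_of_nonneg (by positivity)])
  have i4 := int_m (R := R0 + 1) (m := m) (hf.inner continuous_const) t4.smooth.continuous
    (fun y hy => by rw [s0 y hy, zero_mul])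
  have iz := int_m (R := R0 + 1) (m := m) (hf.inner continuous_const) hz1.smooth.continuous s0
  have b2 : ∫ y, m y * zR R0 y ≤ CT * Q + CZ * (K4 + N1) * D0 := by
    have h1 := hz E f hf hfc R (by linarith) n e he 0 _ _ (TFn_sub t4 hz1) (fun y => by
      rcases le_or_gt (R0 + 1) ‖y‖ with hy | hy
      · rw [zR_zero hy]
        simp
      · have h2 : 1 ≤ ht ν (4 * R0) y ^ 2 := by
          have h3 : |⟪ν, y⟫_ℝ| ≤ R0 + 1 := by
            refine (abs_real_inner_le_norm ν y).trans ?_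
            rw [hν, one_mul]
            exact hy.le
          have h4 : ht ν (4 * R0) y ≤ -1 := by
            unfold ht
            linarith [le_abs_self ⟪ν, y⟫_ℝ]
          nlinarith only [h4]
        have h5 := zR_nonneg R0 y
        nlinarith only [h2, h5]) (fun y hy => by
      rw [sub_zero] at hy
      rw [zR_zero (by linarith)]
      ring)
    have h2 : ∫ y, ⟪f y, e⟫_ℝ * (zR R0 y * ht ν (4 * R0) y ^ 2 - zR R0 y) =
        (∫ y, m y * (zR R0 y * ht ν (4 * R0) y ^ 2)) - ∫ y, m y * zR R0 y := by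
      rw [← integral_sub i4 iz]
      congr 1
      funext y
      simp only [hm]
      ring
    rw [h2, ← hK4] at h1
    have h3 := (htw4 ν (4 * R0) hν (by rw [abs_of_nonneg (by positivity)])).2
    rw [PL.bb_eq] at h3
    have h4 := (le_max_right _ _).trans h3
    linarith
  -- the main inequality
  have th := TFn_ht_sq hz1 (ρ := R0 + 1) s0 hν hc
  have th' := TFn_ht_sq hz1 (ρ := R0 + 1) s0 hν' hc'
  have ih := int_m (R := R0 + 1) (m := m) (hf.inner continuous_const) th.smooth.continuous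
    (fun y hy => by rw [s0 y hy, zero_mul])
  have ih' := int_m (R := R0 + 1) (m := m) (hf.inner continuous_const) th'.smooth.continuous
    (fun y hy => by rw [s0 y hy, zero_mul])
  have tH := TFn_sub (TFn_add (TFn_add (TFn_const_mul th 2) (TFn_const_mul tp 4))
    (TFn_const_mul hz1 (4 * (c' - c) ^ 2))) th'
  have tHn : |2| * (4 ^ 2 * N1 * max 1 (R0 + 1 + 2 * R0) ^ 2) +
      |4| * (16 * N1 * (2 * (1 + (R0 + 1))) ^ 2) + |4 * (c' - c) ^ 2| * N1 +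
      4 ^ 2 * N1 * max 1 (R0 + 1 + 2 * R0) ^ 2 ≤ NH := by
    have h1 : |4 * (c' - c) ^ 2| ≤ 4 * (4 * R0) ^ 2 := by
      rw [abs_of_nonneg (by positivity)]
      have : (c' - c) ^ 2 ≤ (4 * R0) ^ 2 := by
        rw [← sq_abs (c' - c)]
        exact pow_le_pow_left₀ (abs_nonneg _) hcc 2
      linarith
    have h2 := mul_le_mul_of_nonneg_right h1 hN1.le
    rw [← hKh, ← hKp, hNH, abs_of_pos (by norm_num : (0 : ℝ) < 2),
      abs_of_pos (by norm_num : (0 : ℝ) < 4)]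
    linarith
  have h1 := hz E f hf hfc R (by linarith) n e he 0 _ _ (TFn_mono tH le_rfl tHn) (fun y => by
    have h2 := zR_nonneg R0 y
    have h3 : ht ν' c' y = ht ν c y + (⟪δ, y⟫_ℝ - (c' - c)) := by
      unfold ht
      rw [hδ, inner_sub_left]
      ring
    have h4 : ht ν' c' y ^ 2 ≤ 2 * ht ν c y ^ 2 + 4 * ⟪δ, y⟫_ℝ ^ 2 + 4 * (c' - c) ^ 2 := by
      rw [h3]
      linarith only [sq_nonneg (ht ν c y - (⟪δ, y⟫_ℝ - (c' - c))), sq_nonneg (⟪δ, y⟫_ℝ + (c' - c))]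
    nlinarith only [h2, h4]) (fun y hy => by
    rw [sub_zero] at hy
    rw [zR_zero (by linarith)]
    ring)
  have h2 : ∫ y, ⟪f y, e⟫_ℝ * (2 * (zR R0 y * ht ν c y ^ 2) + 4 * (zR R0 y * ⟪δ, y⟫_ℝ ^ 2) +
      4 * (c' - c) ^ 2 * zR R0 y - zR R0 y * ht ν' c' y ^ 2) =
      2 * (∫ y, m y * (zR R0 y * ht ν c y ^ 2)) + 4 * (∫ y, m y * (zR R0 y * ⟪δ, y⟫_ℝ ^ 2)) +
      4 * (c' - c) ^ 2 * (∫ y, m y * zR R0 y) - ∫ y, m y * (zR R0 y * ht ν' c' y ^ 2) := by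
    rw [← integral_const_mul, ← integral_const_mul, ← integral_const_mul, ← integral_add,
      ← integral_add, ← integral_sub]
    · congr 1
      funext y
      simp only [hm]
      ring
    · exact ((ih.const_mul 2).add (ip.const_mul 4)).add (iz.const_mul _)
    · exact ih'
    · exact (ih.const_mul 2).add (ip.const_mul 4)
    · exact iz.const_mul _
    · exact ih.const_mul 2
    · exact ip.const_mul 4
  rw [h2] at h1
  have h3 : 4 * (c' - c) ^ 2 * (∫ y, m y * zR R0 y) ≤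
      4 * (c' - c) ^ 2 * (CT * Q + CZ * (K4 + N1) * D0) :=
    mul_le_mul_of_nonneg_left b2 (by positivity)
  have h4 : ∫ y, m y * (zR R0 y * ht ν c y ^ 2) ≤
    max 0 (∫ y, m y * (zR R0 y * ht ν c y ^ 2)) := le_max_right _ _
  have hA : 4 * (‖δ‖ ^ 2 * (CT * Q)) + 4 * (c' - c) ^ 2 * (CT * Q) ≤ 4 * T * (CT * Q) := by
    have := mul_le_mul_of_nonneg_right hT hQ0
    linarith only [this]
  have hB : 4 * (c' - c) ^ 2 * (CZ * (K4 + N1) * D0) ≤ T * (4 * CZ * (K4 + N1)) * Q := by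
    have g1 : (c' - c) ^ 2 ≤ T := le_trans (le_add_of_nonneg_left (by positivity)) hT
    have g2 : D0 ≤ Q := by
      have g3 : 0 ≤ ma b ε R0 ((1 / 2) ^ n) f (n + 1) x := TU.ma_nonneg b ε R0 (by positivity) f _ _
      have g4 : 0 ≤ DD b ε R ((1 / 2) ^ n) f (n + 1) x e' :=
        TU.DD_nonneg b ε R (by positivity) f _ _ he'
      rw [hQ]
      linarith only [g3, g4]
    have g5 : 4 * (c' - c) ^ 2 * (CZ * (K4 + N1) * D0) ≤ 4 * T * (CZ * (K4 + N1) * D0) := by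
      (clear * - g1 hCZ hN1 hD0; gcongr)
    have g6 : 4 * T * (CZ * (K4 + N1) * D0) ≤ 4 * T * (CZ * (K4 + N1) * Q) := by
      (clear * - g2 hCZ hN1 hT0; gcongr)
    linarith only [g5, g6]
  have hmx : 0 ≤ max 0 (∫ y, m y * (zR R0 y * ht ν c y ^ 2)) := le_max_left _ _
  have hQ00 : 0 ≤ Q := by
    by_contra h0
    push Not at h0
    have := mul_neg_of_pos_of_neg hCT h0
    linarith only [hQ0, this]
  have hfin : ∫ y, m y * (zR R0 y * ht ν' c' y ^ 2) ≤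
      2 * max 0 (∫ y, m y * (zR R0 y * ht ν c y ^ 2)) +
        (8 * CT + 4 * CZ * (K4 + N1) + CZ * NH) * T * Q +
        (8 * CT + 4 * CZ * (K4 + N1) + CZ * NH) * D0 := by
    have z1 : 0 ≤ (8 * CT + 4 * CZ * (K4 + N1)) * D0 := by positivity
    have z2 : 0 ≤ (4 * CT + CZ * NH) * (T * Q) := by (clear * - hCT hCZ hN1 hR00 hT0 hQ00; positivity)
    linarith only [b1, h1, h3, h4, hA, hB, z1, z2]
  refine max_le ?_ hfin
  (clear * - hCT hCZ hN1 hR00 hT0 hQ00 hD0; positivity)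

end

end SAm

end TG


end

section

/-!
# Sheet lemma (module SA): change of the common plane in the sums over all levels (helper70)
-/

open MeasureTheory Metric Set TrI
open scoped InnerProductSpace ContDiff

namespace TG

namespace SAm

noncomputable section

/-- position of the centres of a tower -/
lemma tower_norm {d : ℕ} {E : Type} [NormedAddCommGroup E] [InnerProductSpace ℝ E]
    {x : ℕ → Sp d} {e : ℕ → E} (hT : Tower x e) (r : ℕ) :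
    ‖x r‖ ≤ Real.sqrt d * (2 ^ r - 1) := by
  induction r with
  | zero => rw [hT.zero]; simp
  | succ r ih =>
    have h1 := hT.step r
    have h2 : ‖x (r + 1)‖ ≤ ‖x (r + 1) - x r‖ + ‖x r‖ := by
      have := norm_add_le (x (r + 1) - x r) (x r)
      rwa [sub_add_cancel] at this
    have h3 : Real.sqrt d * (2 ^ (r + 1) - 1) = Real.sqrt d * 2 ^ r + Real.sqrt d * (2 ^ r - 1) := by
      rw [pow_succ]
      ring
    rw [h3]
    linarith

lemma DD_nn' {d : ℕ} {E : Type} [NormedAddCommGroup E] [InnerProductSpace ℝ E] (b : Sp d → ℝ)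
    (ε R : ℝ) {s0 : ℝ} (hs : 0 < s0) (f : Sp d → E) (i : ℕ) (x : Sp d) {e : E} (he : ‖e‖ = 1) :
    0 ≤ DD b ε R s0 f i x e := by
  have hl : 0 < lev s0 i := by
    unfold lev
    positivity
  have h1 : ∀ v : E, 0 ≤ ‖v‖ - ⟪v, e⟫_ℝ := by
    intro v
    have := real_inner_le_norm v e
    rw [he, mul_one] at this
    linarith
  unfold DD
  refine mul_nonneg (by positivity) (add_nonneg (Finset.sum_nonneg fun l _ => ?_) ?_)
  · exact mul_nonneg (by positivity) (integral_nonneg fun y => h1 _)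
  · exact mul_nonneg (by positivity) (integral_nonneg fun y => norm_nonneg _)

lemma ma_nn' {d : ℕ} {E : Type} [NormedAddCommGroup E] [InnerProductSpace ℝ E] (b : Sp d → ℝ)
    (ε R : ℝ) {s0 : ℝ} (hs : 0 < s0) (f : Sp d → E) (i : ℕ) (x : Sp d) :
    0 ≤ ma b ε R s0 f i x := by
  have hl : 0 < lev s0 i := by
    unfold lev
    positivity
  unfold ma
  exact mul_nonneg (by positivity) (integral_nonneg fun y => norm_nonneg _)

/-- the weights -/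
lemma wq_nonneg (q : ℝ) (r : ℕ) : 0 ≤ wq q r := by
  unfold wq
  positivity

lemma wq_half_succ (r : ℕ) : wq (1 / 2) r ≤ 2 * wq (1 / 2) (r + 1) := by
  unfold wq
  have h1 : (2 : ℝ) * (2 : ℝ) ^ (-(1 / 2 * ((r + 1 : ℕ) : ℝ))) =
      (2 : ℝ) ^ (1 + -(1 / 2 * ((r + 1 : ℕ) : ℝ))) := by
    rw [Real.rpow_add (by norm_num), Real.rpow_one]
  rw [h1]
  refine Real.rpow_le_rpow_of_exponent_le (by norm_num) ?_
  push_cast
  linarith only []

/-- the geometric sum -/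
lemma geo_sum {γ : ℝ} (hγ : γ ≤ 1 / 16) (I : ℕ) :
    ∑ r ∈ Finset.range I, wq (1 / 2) r * (2 : ℝ) ^ (γ * ((r : ℝ) + 1)) ≤
      2 * (1 - (2 : ℝ) ^ (-(1 / 4 : ℝ)))⁻¹ := by
  set q : ℝ := (2 : ℝ) ^ (-(1 / 4 : ℝ)) with hq
  have hq0 : 0 < q := by positivity
  have hq1 : q < 1 := Real.rpow_lt_one_of_one_lt_of_neg (by norm_num) (by norm_num)
  have h1 : ∀ r ∈ Finset.range I, wq (1 / 2) r * (2 : ℝ) ^ (γ * ((r : ℝ) + 1)) ≤ 2 * q ^ r := by
    intro r _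
    unfold wq
    have hr : (0 : ℝ) ≤ r := Nat.cast_nonneg r
    rw [← Real.rpow_add (by norm_num), hq, ← Real.rpow_natCast, ← Real.rpow_mul (by norm_num)]
    have h2 : (2 : ℝ) * (2 : ℝ) ^ (-(1 / 4 : ℝ) * (r : ℝ)) =
        (2 : ℝ) ^ (1 + -(1 / 4 : ℝ) * (r : ℝ)) := by
      rw [Real.rpow_add (by norm_num), Real.rpow_one]
    rw [h2]
    refine Real.rpow_le_rpow_of_exponent_le (by norm_num) ?_
    nlinarith only [hγ]
  refine (Finset.sum_le_sum h1).trans ?_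
  rw [← Finset.mul_sum]
  refine mul_le_mul_of_nonneg_left ?_ (by norm_num)
  have h3 := (hasSum_geometric_of_lt_one hq0.le hq1)
  exact sum_le_hasSum _ (fun i _ => by positivity) h3

/-- one level -/
lemma tilt_level (hZ : StmtZ) (hTW : StmtTW) (hSC : StmtSC) (hSD : StmtSD) {d : ℕ} (hd : 2 ≤ d)
    {M c0 ε : ℝ} (hε : 0 < ε) (hε1 : ε ≤ 1) {b : Sp d → ℝ} (hb : BaseKer 2 M c0 b) {R0 : ℝ}
    (hR0 : 200 + 8 * d ≤ R0) : ∃ C : ℝ, 0 < C ∧
    ∀ (E : Type) [NormedAddCommGroup E] [InnerProductSpace ℝ E] [FiniteDimensional ℝ E],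
    ∀ (R : ℝ), 4 * R0 + 10 ≤ R → ∀ (n : ℕ) (f : Sp d → E), Continuous f → HasCompactSupport f →
    ∀ (x : ℕ → Sp d) (e : ℕ → E), Tower x e →
    ∀ (ν ν' : Sp d) (c c' T : ℝ), ‖ν‖ = 1 → ‖ν'‖ = 1 → |c| ≤ R0 + 3 → |c'| ≤ R0 + 4 →
      ‖ν' - ν‖ ^ 2 + (c' - c) ^ 2 ≤ T → ∀ r : ℕ,
      max 0 (bb R0 ((1 / 2) ^ n) f (n + r) (x r) (e r) ν' c') ≤
        2 * max 0 (bb R0 ((1 / 2) ^ n) f (n + r) (x r) (e r) ν c) +
        C * T * (ma b ε R0 ((1 / 2) ^ n) f (n + (r + 1)) (x (r + 1)) +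
            DD b ε R ((1 / 2) ^ n) f (n + r) (x r) (e r) +
            DD b ε R ((1 / 2) ^ n) f (n + (r + 1)) (x (r + 1)) (e (r + 1))) +
        C * DD b ε R ((1 / 2) ^ n) f (n + r) (x r) (e r) := by
  have hdr : (2 : ℝ) ≤ d := by exact_mod_cast hd
  obtain ⟨C, hC, ht⟩ := tilt hZ hTW (d := d) (by omega) hε hε1 hb (R0 := R0) (by linarith)
  refine ⟨C * (2 + 2 * d) + C, by positivity, ?_⟩
  intro E _ _ _ R hR n f hf hfc x e hT ν ν' c c' T hν hν' hc hc' hTT r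
  have hT0 : 0 ≤ T := le_trans (by positivity) hTT
  have h2r : (0 : ℝ) < 2 ^ r := by positivity
  have h2r1 : (1 : ℝ) ≤ 2 ^ r := one_le_pow₀ (by norm_num)
  have hs0 : (0 : ℝ) < (1 / 2) ^ n := by positivity
  obtain ⟨-, hSC2, -⟩ := hSC d hd 1 one_pos (x r) (2 ^ r) h2r
  obtain ⟨-, hDDs, hmas⟩ := hSC2 E M c0 b hb ε hε hε1 f hf hfc ((1 / 2) ^ n) hs0
  have hlev : ((1 / 2 : ℝ)) ^ (n + r) = (1 / 2) ^ n / 2 ^ r := by
    rw [pow_add, div_eq_mul_inv ((1 / 2 : ℝ) ^ n), ← inv_pow]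
    norm_num
  have hsd : Real.sqrt d ≤ d := by
    rw [Real.sqrt_le_left (by positivity)]
    nlinarith only [hdr]
  have hsd0 : 0 ≤ Real.sqrt d := Real.sqrt_nonneg _
  have hsd2 : Real.sqrt d ^ 2 = d := Real.sq_sqrt (by positivity)
  have hxr := tower_norm hT r
  have hxr' : ‖x r‖ / 2 ^ r ≤ Real.sqrt d := by
    rw [div_le_iff₀ h2r]
    linarith only [hsd0, hxr]
  -- the rescaled field
  have hfr : Continuous (rs (x r) (2 ^ r) f) := by
    unfold rs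
    exact (hf.comp (by fun_prop)).const_smul _
  have hfrc : HasCompactSupport (rs (x r) (2 ^ r) f) := by
    obtain ⟨ρ, hρ⟩ := hfc.isCompact.isBounded.subset_closedBall 0
    refine HasCompactSupport.intro (isCompact_closedBall (0 : Sp d) ((|ρ| + ‖x r‖) / 2 ^ r))
      fun y hy => ?_
    rw [mem_closedBall, dist_zero_right, not_le, div_lt_iff₀ h2r] at hy
    unfold rs
    have h3 : f (x r + (2 : ℝ) ^ r • y) = 0 := by
      by_contra hne
      have h4 := hρ (subset_tsupport _ hne)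
      rw [mem_closedBall, dist_zero_right] at h4
      have h5 : ‖(2 : ℝ) ^ r • y‖ ≤ ‖x r + (2 : ℝ) ^ r • y‖ + ‖x r‖ := by
        have := norm_sub_le (x r + (2 : ℝ) ^ r • y) (x r)
        rwa [add_sub_cancel_left] at this
      rw [norm_smul, Real.norm_of_nonneg h2r.le] at h5
      have := le_abs_self ρ
      linarith
    rw [h3, smul_zero]
  -- the data in the frame r
  set x' : Sp d := ((2 : ℝ) ^ r)⁻¹ • (x (r + 1) - x r) with hx'
  have hx'n : ‖x'‖ ≤ Real.sqrt d := by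
    rw [hx', norm_smul, Real.norm_of_nonneg (by positivity), inv_mul_le_iff₀ h2r]
    have := hT.step r
    linarith
  set cr : ℝ := (c - ⟪ν, x r⟫_ℝ) / 2 ^ r with hcr
  set cr' : ℝ := (c' - ⟪ν', x r⟫_ℝ) / 2 ^ r with hcr'
  have hin : ∀ w : Sp d, |⟪w, x r⟫_ℝ / 2 ^ r| ≤ ‖w‖ * Real.sqrt d := by
    intro w
    rw [abs_div, abs_of_pos h2r, div_le_iff₀ h2r]
    refine (abs_real_inner_le_norm _ _).trans ?_
    have h3 : ‖x r‖ ≤ Real.sqrt d * 2 ^ r := by nlinarith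
    calc ‖w‖ * ‖x r‖ ≤ ‖w‖ * (Real.sqrt d * 2 ^ r) := mul_le_mul_of_nonneg_left h3 (norm_nonneg _)
      _ = ‖w‖ * Real.sqrt d * 2 ^ r := by ring
  have hdiv : ∀ z : ℝ, |z / 2 ^ r| ≤ |z| := by
    intro z
    rw [abs_div, abs_of_pos h2r]
    exact div_le_self (abs_nonneg _) h2r1
  have hcrb : |cr| ≤ 2 * R0 := by
    have h3 : cr = c / 2 ^ r - ⟪ν, x r⟫_ℝ / 2 ^ r := by rw [hcr, sub_div]
    have h4 := hin ν
    rw [hν, one_mul] at h4
    rw [h3]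
    refine (abs_sub _ _).trans ?_
    have := hdiv c
    linarith only [hR0, hc, hsd, h4, this]
  have hcrb' : |cr'| ≤ 2 * R0 := by
    have h3 : cr' = c' / 2 ^ r - ⟪ν', x r⟫_ℝ / 2 ^ r := by rw [hcr', sub_div]
    have h4 := hin ν'
    rw [hν', one_mul] at h4
    rw [h3]
    refine (abs_sub _ _).trans ?_
    have := hdiv c'
    linarith only [hR0, hc', hsd, h4, this]
  have hTr : ‖ν' - ν‖ ^ 2 + (cr' - cr) ^ 2 ≤ (2 + 2 * d) * T := by
    have h3 : cr' - cr = (c' - c) / 2 ^ r - ⟪ν' - ν, x r⟫_ℝ / 2 ^ r := by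
      rw [hcr, hcr', inner_sub_left]
      ring
    have h4 : |cr' - cr| ≤ |c' - c| + ‖ν' - ν‖ * Real.sqrt d := by
      rw [h3]
      exact (abs_sub _ _).trans (add_le_add (hdiv _) (hin _))
    have h5 : (cr' - cr) ^ 2 ≤ (|c' - c| + ‖ν' - ν‖ * Real.sqrt d) ^ 2 := by
      rw [← sq_abs (cr' - cr)]
      exact pow_le_pow_left₀ (abs_nonneg _) h4 2
    have h6 : (|c' - c| + ‖ν' - ν‖ * Real.sqrt d) ^ 2 ≤
        2 * (c' - c) ^ 2 + 2 * (‖ν' - ν‖ ^ 2 * d) := by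
      have key : ∀ u v s : ℝ, (u + v * s) ^ 2 ≤ 2 * u ^ 2 + 2 * (v ^ 2 * s ^ 2) := fun u v s => by
        linarith only [sq_nonneg (u - v * s)]
      have h9 := key |c' - c| ‖ν' - ν‖ (Real.sqrt d)
      rwa [hsd2, sq_abs] at h9
    have h7 := sq_nonneg ‖ν' - ν‖
    have h8 := sq_nonneg (c' - c)
    nlinarith only [hTT, h5, h6]
  have hmain := ht E R hR (rs (x r) (2 ^ r) f) hfr hfrc (n + r) x' (e r) (e (r + 1)) hx'n
    (hT.unit r) (hT.unit (r + 1)) ν ν' cr cr' ((2 + 2 * d) * T) hν hν' hcrb hcrb' hTr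
  -- rescaling
  have hx0 : x r + (2 : ℝ) ^ r • (0 : Sp d) = x r := by rw [smul_zero, add_zero]
  have hx1 : x r + (2 : ℝ) ^ r • x' = x (r + 1) := by
    rw [hx', smul_smul, mul_inv_cancel₀ h2r.ne', one_smul]
    abel
  have hc1 : 2 ^ r * cr + ⟪ν, x r⟫_ℝ = c := by rw [hcr]; field_simp; ring
  have hc2 : 2 ^ r * cr' + ⟪ν', x r⟫_ℝ = c' := by rw [hcr']; field_simp; ring
  rw [hlev, hSD.2 d E f (by omega) hf hfc (x r) (2 ^ r) h2r R0 ((1 / 2) ^ n) (n + r) 0 (e r) ν' cr'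
    hs0, hSD.2 d E f (by omega) hf hfc (x r) (2 ^ r) h2r R0 ((1 / 2) ^ n) (n + r) 0 (e r) ν cr
    hs0, hDDs, hDDs, hmas, hx0, hx1, hc1, hc2, add_assoc n r 1] at hmain
  have hD0 : 0 ≤ DD b ε R ((1 / 2) ^ n) f (n + r) (x r) (e r) :=
    DD_nn' b ε R hs0 f _ _ (hT.unit r)
  have hD1 : 0 ≤ DD b ε R ((1 / 2) ^ n) f (n + (r + 1)) (x (r + 1)) (e (r + 1)) :=
    DD_nn' b ε R hs0 f _ _ (hT.unit (r + 1))
  have hm1 : 0 ≤ ma b ε R0 ((1 / 2) ^ n) f (n + (r + 1)) (x (r + 1)) := ma_nn' b ε R0 hs0 f _ _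
  have hQ : 0 ≤ C * T * (ma b ε R0 ((1 / 2) ^ n) f (n + (r + 1)) (x (r + 1)) +
      DD b ε R ((1 / 2) ^ n) f (n + r) (x r) (e r) +
      DD b ε R ((1 / 2) ^ n) f (n + (r + 1)) (x (r + 1)) (e (r + 1))) :=
    mul_nonneg (mul_nonneg hC.le hT0) (by linarith)
  have hQ2 : 0 ≤ C * (2 + 2 * d) * DD b ε R ((1 / 2) ^ n) f (n + r) (x r) (e r) := by positivity
  linarith only [hmain, hQ, hQ2]

theorem sums (hZ : StmtZ) (hTW : StmtTW) (hSC : StmtSC) (hSD : StmtSD) {d : ℕ} (hd : 2 ≤ d)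
    {M c0 ε : ℝ} (hε : 0 < ε) (hε1 : ε ≤ 1) {b : Sp d → ℝ} (hb : BaseKer 2 M c0 b)
    {R0 γ K : ℝ} (hR0 : 200 + 8 * d ≤ R0) (hγ : 0 < γ) (hγ1 : γ ≤ 1 / (8 * d)) (hK : 1 ≤ K) :
    ∃ C : ℝ, 0 < C ∧
    ∀ (E : Type) [NormedAddCommGroup E] [InnerProductSpace ℝ E] [FiniteDimensional ℝ E],
    ∀ (R : ℝ), 4 * R0 + 10 ≤ R → ∀ (n : ℕ) (f : Sp d → E), Continuous f → HasCompactSupport f →
    ∀ (x : ℕ → Sp d) (e : ℕ → E), Tower x e → ∀ a : ℝ, 0 < a →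
    (∀ r : ℕ, ma b ε R0 ((1 / 2) ^ n) f (n + r) (x r) ≤ K * (2 : ℝ) ^ (γ * r) * a) →
    ∀ (ν ν' : Sp d) (c c' B T : ℝ), ‖ν‖ = 1 → ‖ν'‖ = 1 → |c| ≤ R0 + 3 → |c'| ≤ R0 + 4 →
      ‖ν' - ν‖ ^ 2 + (c' - c) ^ 2 ≤ T →
      (∀ I : ℕ, ∑ r ∈ Finset.range I, wq (1 / 2) r *
        bD b ε R0 R ((1 / 2) ^ n) f (n + r) (x r) (e r) ν c ≤ B) →
      ∀ I : ℕ, ∑ r ∈ Finset.range I, wq (1 / 2) r *
        bD b ε R0 R ((1 / 2) ^ n) f (n + r) (x r) (e r) ν' c' ≤ C * (B + T * (a + B)) := by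
  have hdr : (2 : ℝ) ≤ d := by exact_mod_cast hd
  obtain ⟨C, hC, hlev⟩ := tilt_level hZ hTW hSC hSD hd hε hε1 hb hR0
  set G : ℝ := (1 - (2 : ℝ) ^ (-(1 / 4 : ℝ)))⁻¹ with hG
  have hq1 : (2 : ℝ) ^ (-(1 / 4 : ℝ)) < 1 :=
    Real.rpow_lt_one_of_one_lt_of_neg (by norm_num) (by norm_num)
  have hG0 : 0 < G := inv_pos.2 (by linarith only [hq1])
  have hγ2 : γ ≤ 1 / 16 := by
    refine hγ1.trans ?_
    rw [div_le_div_iff₀ (by positivity) (by norm_num)]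
    linarith
  have hK0 : 0 < K := by linarith
  refine ⟨(3 + C) + C * (2 * K * G + 3), by positivity, ?_⟩
  intro E _ _ _ R hR n f hf hfc x e hT a ha hma ν ν' c c' B T hν hν' hc hc' hTT hB I
  have hT0 : 0 ≤ T := le_trans (by (clear * -; positivity)) hTT
  have hs0 : (0 : ℝ) < (1 / 2) ^ n := by positivity
  have hD : ∀ r, 0 ≤ DD b ε R ((1 / 2) ^ n) f (n + r) (x r) (e r) := fun r =>
    DD_nn' b ε R hs0 f _ _ (hT.unit r)
  have hbD : ∀ r, 0 ≤ bD b ε R0 R ((1 / 2) ^ n) f (n + r) (x r) (e r) ν c := fun r =>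
    add_nonneg (le_max_left _ _) (hD r)
  have hDb : ∀ r, DD b ε R ((1 / 2) ^ n) f (n + r) (x r) (e r) ≤
      bD b ε R0 R ((1 / 2) ^ n) f (n + r) (x r) (e r) ν c := fun r =>
    le_add_of_nonneg_left (le_max_left _ _)
  have hB0 : 0 ≤ B := by
    have := hB 0
    rwa [Finset.sum_range_zero] at this
  -- one level
  have h1 : ∀ r, wq (1 / 2) r * bD b ε R0 R ((1 / 2) ^ n) f (n + r) (x r) (e r) ν' c' ≤
      (3 + C) * (wq (1 / 2) r * bD b ε R0 R ((1 / 2) ^ n) f (n + r) (x r) (e r) ν c) +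
      C * T * (K * a * (wq (1 / 2) r * (2 : ℝ) ^ (γ * ((r : ℝ) + 1))) +
        wq (1 / 2) r * bD b ε R0 R ((1 / 2) ^ n) f (n + r) (x r) (e r) ν c +
        2 * (wq (1 / 2) (r + 1) *
          bD b ε R0 R ((1 / 2) ^ n) f (n + (r + 1)) (x (r + 1)) (e (r + 1)) ν c)) := by
    intro r
    have h2 := hlev E R hR n f hf hfc x e hT ν ν' c c' T hν hν' hc hc' hTT r
    have h3 := hma (r + 1)
    push_cast at h3
    set w := wq (1 / 2) r with hw
    set w' := wq (1 / 2) (r + 1) with hw'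
    have hw0 : 0 ≤ w := wq_nonneg _ _
    have hww : w ≤ 2 * w' := wq_half_succ r
    set D0 := DD b ε R ((1 / 2) ^ n) f (n + r) (x r) (e r) with hD0
    set D1 := DD b ε R ((1 / 2) ^ n) f (n + (r + 1)) (x (r + 1)) (e (r + 1)) with hD1
    set b0 := bD b ε R0 R ((1 / 2) ^ n) f (n + r) (x r) (e r) ν c with hb0
    set b1 := bD b ε R0 R ((1 / 2) ^ n) f (n + (r + 1)) (x (r + 1)) (e (r + 1)) ν c with hb1
    set ma1 := ma b ε R0 ((1 / 2) ^ n) f (n + (r + 1)) (x (r + 1)) with hma1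
    have hb00 : 0 ≤ b0 := hbD r
    have hb10 : 0 ≤ b1 := hbD (r + 1)
    have hd0 : D0 ≤ b0 := hDb r
    have hd1 : D1 ≤ b1 := hDb (r + 1)
    have hd00 : 0 ≤ D0 := hD r
    have hmx : max 0 (bb R0 ((1 / 2) ^ n) f (n + r) (x r) (e r) ν c) + D0 = b0 := rfl
    have hmx0 := le_max_left 0 (bb R0 ((1 / 2) ^ n) f (n + r) (x r) (e r) ν c)
    have h4 : bD b ε R0 R ((1 / 2) ^ n) f (n + r) (x r) (e r) ν' c' ≤
        (3 + C) * b0 + C * T * (K * (2 : ℝ) ^ (γ * ((r : ℝ) + 1)) * a + b0 + b1) := by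
      have h5 : bD b ε R0 R ((1 / 2) ^ n) f (n + r) (x r) (e r) ν' c' =
        max 0 (bb R0 ((1 / 2) ^ n) f (n + r) (x r) (e r) ν' c') + D0 := rfl
      rw [h5]
      have h6 : C * T * (ma1 + D0 + D1) ≤
          C * T * (K * (2 : ℝ) ^ (γ * ((r : ℝ) + 1)) * a + b0 + b1) :=
        mul_le_mul_of_nonneg_left (by linarith only [h3, hd0, hd1]) (mul_nonneg hC.le hT0)
      have h7 : C * D0 ≤ C * b0 := mul_le_mul_of_nonneg_left hd0 hC.le
      linarith only [h2, hb00, hd00, hmx, h6, h7]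
    have h8 : w * b1 ≤ 2 * (w' * b1) := by
      have := mul_le_mul_of_nonneg_right hww hb10
      linarith only [this]
    have hCT : 0 ≤ C * T := mul_nonneg hC.le hT0
    calc w * bD b ε R0 R ((1 / 2) ^ n) f (n + r) (x r) (e r) ν' c'
        ≤ w * ((3 + C) * b0 + C * T * (K * (2 : ℝ) ^ (γ * ((r : ℝ) + 1)) * a + b0 + b1)) :=
          mul_le_mul_of_nonneg_left h4 hw0
      _ = (3 + C) * (w * b0) + C * T * (K * a * (w * (2 : ℝ) ^ (γ * ((r : ℝ) + 1))) + w * b0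
          + w * b1) := by ring
      _ ≤ _ := by
          have := mul_le_mul_of_nonneg_left h8 hCT
          linarith only [this]
  refine (Finset.sum_le_sum fun r _ => h1 r).trans ?_
  rw [Finset.sum_add_distrib, ← Finset.mul_sum, ← Finset.mul_sum, Finset.sum_add_distrib,
    Finset.sum_add_distrib, ← Finset.mul_sum, ← Finset.mul_sum]
  have hs1 := hB I
  have hs2 := geo_sum hγ2 I
  have hs3 : ∑ r ∈ Finset.range I, wq (1 / 2) (r + 1) *
      bD b ε R0 R ((1 / 2) ^ n) f (n + (r + 1)) (x (r + 1)) (e (r + 1)) ν c ≤ B := by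
    have h5 := hB (I + 1)
    rw [Finset.sum_range_succ'] at h5
    have h6 : 0 ≤ wq (1 / 2) 0 * bD b ε R0 R ((1 / 2) ^ n) f (n + 0) (x 0) (e 0) ν c :=
      mul_nonneg (wq_nonneg _ _) (hbD 0)
    linarith only [h5, h6]
  have hCT : 0 ≤ C * T := mul_nonneg hC.le hT0
  have hKa : 0 ≤ K * a := by positivity
  have hs4 := mul_le_mul_of_nonneg_left hs2 hKa
  have hs5 := mul_le_mul_of_nonneg_left hs1 (show 0 ≤ 3 + C by positivity)
  have hs6 : C * T * (K * a * (∑ r ∈ Finset.range I, wq (1 / 2) r * (2 : ℝ) ^ (γ * ((r : ℝ) + 1))) +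
      (∑ r ∈ Finset.range I, wq (1 / 2) r * bD b ε R0 R ((1 / 2) ^ n) f (n + r) (x r) (e r) ν c) +
      2 * ∑ r ∈ Finset.range I, wq (1 / 2) (r + 1) *
        bD b ε R0 R ((1 / 2) ^ n) f (n + (r + 1)) (x (r + 1)) (e (r + 1)) ν c) ≤
      C * T * (K * a * (2 * G) + B + 2 * B) :=
    mul_le_mul_of_nonneg_left (by linarith only [hs1, hs3, hs4]) hCT
  refine (add_le_add hs5 hs6).trans ?_
  have h9 : 0 ≤ C * (2 * K * G + 3) * B := by positivity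
  have h10 : 0 ≤ (3 + C) * (T * (a + B)) := by positivity
  have h11 : 0 ≤ C * T * (3 * a) := by positivity
  have h12 : 0 ≤ C * T * (2 * K * G * B) := by positivity
  linarith only [h9, h10, h11, h12]

end

end SAm

end TG


end

section

/-!
# Module SS: the sheet lemma as the structure Sheet, from module SAF (helper65)
-/

namespace TG

theorem sumsS (hZ : StmtZ) (hTW : StmtTW) (hSC : StmtSC) (hSD : StmtSD) : SS2.SumsS :=
  fun _ hd _ _ _ hε hε1 _ hb _ _ _ hR0 hγ hγ1 hK =>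
    SAm.sums hZ hTW hSC hSD hd hε hε1 hb hR0 hγ hγ1 hK

theorem stmtSS_F (hSAF : StmtSAF) (hZ : StmtZ) (hMA : StmtMA) (hTW : StmtTW) (hSC : StmtSC)
    (hSD : StmtSD) : StmtSS :=
  stmtSS_of_SAF hSAF hMA hTW hSC hSD (sumsS hZ hTW hSC hSD)

end TG


end
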