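import Mathlib
import Pool.Agent.TRM.C02
import Pool.Agent.TRM.C06
import Pool.Agent.TRM.C07
import Pool.Agent.TRM.C10
import Pool.Agent.TRM.C14
import Pool.Agent.TRM.C15
import Pool.Agent.TRM.C18
import Pool.Agent.TRM.C20
import Pool.Agent.TRM.C26

/-! Parts: TG.FF, TG.FinB, TG.FinC, TG.MainA0, TG.MainA, TG.SHA -/

section

/-!
# Module FF: finiteness of the sums of b and Y  (helper53)
-/

open MeasureTheory Metric Set TrI
open scoped InnerProductSpace ContDiff ENNReal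

namespace TG

namespace FFm

noncomputable section

variable {d : ℕ}

lemma lev_pos {s0 : ℝ} (h : 0 < s0) (i : ℕ) : 0 < lev s0 i := by
  unfold lev; positivity

/-- height of a point over the plane, from the height of the centre -/
lemma ht_abs {ν : Sp d} (hν : ‖ν‖ = 1) (c : ℝ) (x y : Sp d) :
    |ht ν c y| ≤ |ht ν c x| + ‖y - x‖ := by
  have h1 : ht ν c y = ht ν c x + ⟪ν, y - x⟫_ℝ := by
    unfold ht
    rw [inner_sub_right]
    ring
  have h2 : |⟪ν, y - x⟫_ℝ| ≤ ‖y - x‖ := by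
    have := abs_real_inner_le_norm ν (y - x)
    rwa [hν, one_mul] at this
  rw [h1]
  exact (abs_add_le _ _).trans (by linarith)

section B

variable {E : Type} [NormedAddCommGroup E] [InnerProductSpace ℝ E]

lemma zR_arg {s0 : ℝ} (h : 0 < s0) (i : ℕ) {R0 : ℝ} {x y : Sp d}
    (hz : (R0 + 1) * lev s0 i ≤ ‖y - x‖) : zR R0 ((1 / lev s0 i) • (y - x)) = 0 := by
  have hl := lev_pos h i
  unfold zR
  refine Real.smoothTransition.zero_of_nonpos ?_
  rw [norm_smul, Real.norm_of_nonneg (by positivity)]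
  have h1 : R0 + 1 ≤ 1 / lev s0 i * ‖y - x‖ := by
    rw [one_div, inv_mul_eq_div, le_div_iff₀ hl]
    exact hz
  linarith

/-- the plane functional is bounded -/
lemma bb_le {f : Sp d → E} (hf : Continuous f) (hc : HasCompactSupport f) {s0 R0 : ℝ}
    (h : 0 < s0) (hR : 0 ≤ R0) (i : ℕ) (x : Sp d) {e : E} (he : ‖e‖ = 1) {ν : Sp d}
    (hν : ‖ν‖ = 1) {c : ℝ} (hloc : |ht ν c x| ≤ (R0 + 1) * lev s0 i) :
    bb R0 s0 f i x e ν c ≤ lev s0 i / lev s0 i ^ d * ((2 * (R0 + 1)) ^ 2 * ∫ y, ‖f y‖) := by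
  have hl := lev_pos h i
  unfold bb
  refine mul_le_mul_of_nonneg_left ?_ (by positivity)
  have hI : Integrable (fun y => (2 * (R0 + 1)) ^ 2 * ‖f y‖) :=
    ((hf.integrable_of_hasCompactSupport hc).norm).const_mul _
  have h1 := norm_integral_le_of_norm_le hI (f := fun y => ⟪f y, e⟫_ℝ *
    (zR R0 ((1 / lev s0 i) • (y - x)) * (ht ν c y / lev s0 i) ^ 2)) (by
      refine Filter.Eventually.of_forall fun y => ?_
      have h2 : |⟪f y, e⟫_ℝ| ≤ ‖f y‖ := by
        have := abs_real_inner_le_norm (f y) e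
        rwa [he, mul_one] at this
      have hz0 : 0 ≤ zR R0 ((1 / lev s0 i) • (y - x)) := Real.smoothTransition.nonneg _
      have hz1 : zR R0 ((1 / lev s0 i) • (y - x)) ≤ 1 := Real.smoothTransition.le_one _
      have h3 : zR R0 ((1 / lev s0 i) • (y - x)) * (ht ν c y / lev s0 i) ^ 2 ≤
          (2 * (R0 + 1)) ^ 2 := by
        by_cases hz : (R0 + 1) * lev s0 i ≤ ‖y - x‖
        · rw [zR_arg h i hz, zero_mul]
          positivity
        · push Not at hz
          have h4 := ht_abs hν c x y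
          have h5 : |ht ν c y / lev s0 i| ≤ 2 * (R0 + 1) := by
            rw [abs_div, abs_of_pos hl, div_le_iff₀ hl]
            linarith
          have h6 : (ht ν c y / lev s0 i) ^ 2 ≤ (2 * (R0 + 1)) ^ 2 := by
            rw [← sq_abs (ht ν c y / lev s0 i)]
            exact pow_le_pow_left₀ (abs_nonneg _) h5 2
          have h7 : 0 ≤ (ht ν c y / lev s0 i) ^ 2 := sq_nonneg _
          nlinarith only [h6, hz1]
      rw [Real.norm_eq_abs, abs_mul, abs_of_nonneg (mul_nonneg hz0 (sq_nonneg (_ / _))), mul_comm]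
      exact mul_le_mul h3 h2 (abs_nonneg _) (by positivity))
  rw [integral_const_mul] at h1
  exact (Real.le_norm_self _).trans h1

/-- the plane functional vanishes far from the support -/
lemma bb_zero {f : Sp d → E} {B : ℝ} (hB : ∀ y, B < ‖y‖ → f y = 0) {s0 R0 : ℝ}
    (h : 0 < s0) (i : ℕ) {x : Sp d} (e : E) (ν : Sp d) (c : ℝ)
    (hx : B + (R0 + 1) * lev s0 i < ‖x‖) : bb R0 s0 f i x e ν c = 0 := by
  unfold bb
  have h1 : ∀ y, ⟪f y, e⟫_ℝ *
      (zR R0 ((1 / lev s0 i) • (y - x)) * (ht ν c y / lev s0 i) ^ 2) = 0 := by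
    intro y
    by_cases hy : B < ‖y‖
    · rw [hB y hy, inner_zero_left, zero_mul]
    · push Not at hy
      rw [zR_arg h i, zero_mul, mul_zero]
      have h2 : ‖x‖ ≤ ‖y‖ + ‖y - x‖ := by
        have := norm_sub_le y (y - x)
        rwa [sub_sub_cancel] at this
      linarith
  simp_rw [h1]
  simp

lemma mT_nonneg (b : Sp d → ℝ) (ε : ℝ) {s0 : ℝ} (h : 0 < s0) (f : Sp d → E) (Q : Cell d) :
    0 ≤ mT b ε s0 f Q := by
  have hl := lev_pos h Q.1
  unfold mT
  refine mul_nonneg (CT6.nw_nonneg h Q) (integral_nonneg fun y => ?_)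
  simp only [Pi.zero_apply]
  positivity

lemma mC_zero {b : Sp d → ℝ} (hb : PTm.Ker b) {ε : ℝ} (hε : 0 < ε) (hε1 : ε ≤ 1)
    {f : Sp d → E} {B : ℝ} (hB : ∀ y, B < ‖y‖ → f y = 0) {s0 : ℝ} (h : 0 < s0) (r : ℝ)
    {Q : Cell d} (hx : B + (2 + |r|) * lev s0 Q.1 < ‖xC s0 Q‖) : mC b ε r s0 f Q = 0 := by
  have hl := lev_pos h Q.1
  unfold mC ma
  rw [setIntegral_eq_zero_of_forall_eq_zero, mul_zero]
  intro y hy
  rw [norm_eq_zero]
  refine PTm.fl_supp hb hε.le h hB (Q.1 - 1) y ?_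
  have h1 : lev s0 (Q.1 - 1) ≤ lev s0 Q.1 := by
    unfold lev
    exact mul_le_mul_of_nonneg_left (pow_le_pow_right₀ (by norm_num) (by omega)) h.le
  have h0 := lev_pos h (Q.1 - 1)
  rw [mem_ball, dist_eq_norm] at hy
  have h2 : ‖xC s0 Q‖ ≤ ‖y‖ + ‖y - xC s0 Q‖ := by
    have := norm_sub_le y (y - xC s0 Q)
    rwa [sub_sub_cancel] at this
  have h3 : r * lev s0 Q.1 ≤ |r| * lev s0 Q.1 := mul_le_mul_of_nonneg_right (le_abs_self r) hl.le
  nlinarith only [hx, hy, h2, h3, hε, h1, hε1, hl]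

end B

/-- the second moment is bounded by the potential -/
lemma Mo_le (hd : 1 ≤ d) (μ : Measure (Sp d)) [IsFiniteMeasure μ] {n : Sp d} (hn : ‖n‖ = 1)
    {c K : ℝ} (hc : |c| ≤ K) (h0 : 0 < vv μ 1 0) :
    Mo μ n c 2 1 0 ≤ 2 * (1 + K ^ 2) * vv μ 1 0 := by
  unfold Mo
  rw [div_le_iff₀ h0]
  have h1 : 2 * (1 + K ^ 2) * vv μ 1 0 * vv μ 1 0 = ∫ η, 2 * (1 + K ^ 2) * kk 1 (0 - η) ∂μ := by
    rw [integral_const_mul]
    have h2 : vv μ 1 0 * vv μ 1 0 = th μ 1 0 := by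
      unfold vv
      exact Real.mul_self_sqrt (integral_nonneg fun η => THm.kk_nonneg one_pos _)
    rw [mul_assoc, h2]
    rfl
  rw [h1]
  refine integral_mono_of_nonneg (Filter.Eventually.of_forall fun η => ?_)
    ((THm.kk_int hd μ one_pos 0).const_mul _) (Filter.Eventually.of_forall fun η => ?_)
  · have := THm.kk_nonneg one_pos ((0 : Sp d) - η)
    simp only [Pi.zero_apply]
    positivity
  · simp only
    refine mul_le_mul_of_nonneg_right ?_ (THm.kk_nonneg one_pos _)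
    rw [zero_sub, norm_neg]
    rw [div_le_iff₀ (by positivity)]
    have h3 : ⟪η, n⟫_ℝ ^ 2 ≤ ‖η‖ ^ 2 := by
      have h4 := abs_real_inner_le_norm η n
      rw [hn, mul_one] at h4
      rw [← sq_abs ⟪η, n⟫_ℝ]
      exact pow_le_pow_left₀ (abs_nonneg _) h4 2
    have h5 : c ^ 2 ≤ K ^ 2 := by
      rw [← sq_abs c]
      exact pow_le_pow_left₀ (abs_nonneg _) hc 2
    have h6 : (⟪η, n⟫_ℝ - c) ^ 2 ≤ 2 * ‖η‖ ^ 2 + 2 * K ^ 2 := by
      nlinarith [sq_nonneg (⟪η, n⟫_ℝ + c)]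
    refine h6.trans ?_
    have h7 : 0 ≤ ‖η‖ ^ 2 := sq_nonneg _
    have h8 : 0 ≤ K ^ 2 := sq_nonneg _
    have h9 : (1 : ℝ) ≤ (1 ^ 2 + ‖η‖ ^ 2) ^ 2 := by nlinarith
    have h10 : ‖η‖ ^ 2 ≤ (1 ^ 2 + ‖η‖ ^ 2) ^ 2 := by nlinarith
    have h11 := mul_le_mul_of_nonneg_left h9 h8
    nlinarith [mul_nonneg h8 h7]

lemma nw_up {s0 : ℝ} (hd : 1 ≤ d) (h : 0 < s0) (i : ℕ) (Q : Cell d) :
    nw s0 (up i Q) ≤ nw s0 Q := by
  have e : ∀ P : Cell d, nw s0 P = (lev s0 P.1 ^ (d - 1))⁻¹ := by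
    intro P
    have hl := lev_pos h P.1
    unfold nw
    have h3 : lev s0 P.1 ^ d = lev s0 P.1 ^ (d - 1) * lev s0 P.1 := by
      rw [← pow_succ]
      congr 1
      omega
    rw [h3]
    field_simp
  rw [e, e]
  have hl := lev_pos h Q.1
  refine inv_anti₀ (by positivity) (pow_le_pow_left₀ hl.le ?_ _)
  rw [up_fst]
  unfold lev
  exact mul_le_mul_of_nonneg_left (pow_le_pow_right₀ (by norm_num) (by omega)) h.le

end

end FFm

open _root_.TG.FFm

/-- MODULE FF -/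
theorem stmtFF (h4 : StmtCT4) (h6 : StmtCT6) (h7 : StmtCT7) : StmtFF := by
  intro d hd C' hC' μ hμ M c0 ε hε hε1 b hb R0 R ρ hR0 hR hρ E _ _ _ _ f hf hc s0 h e he ν c hν
    S r C hS
  have hd1 : 1 ≤ d := by omega
  have hdR : (0 : ℝ) ≤ d := Nat.cast_nonneg d
  have hR00 : 0 ≤ R0 := by linarith
  obtain ⟨B, hB0, hB⟩ := PTm.cs_bd hc
  set I := ∫ y, ‖f y‖ with hI
  have hI0 : 0 ≤ I := integral_nonneg fun y => norm_nonneg _
  have hnw : ∀ Q : Cell d, 0 ≤ nw s0 Q := CT6.nw_nonneg h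
  have hom : ∀ Q : Cell d, 0 ≤ omC μ s0 Q := fun Q => Real.sqrt_nonneg _
  -- facts for b
  have hb0 : ∀ Q, 0 ≤ bC R0 s0 f e ν c Q := fun Q => le_max_left _ _
  have hb1 : ∀ Q, bC R0 s0 f e ν c Q ≤ ((2 * (R0 + 1)) ^ 2 * I) * nw s0 Q := by
    intro Q
    refine max_le (mul_nonneg (by positivity) (hnw Q)) ?_
    have := bb_le hf hc h hR00 Q.1 (xC s0 Q) (he.unit Q) (hν.unit Q) (hν.loc Q)
    rw [mul_comm]
    exact this
  have hb2 : ∀ Q, bC R0 s0 f e ν c Q ≠ 0 → ‖xC s0 Q‖ ≤ B + (R0 + 1) * lev s0 Q.1 := by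
    intro Q hQ
    by_contra hcon
    push Not at hcon
    apply hQ
    unfold bC
    rw [bb_zero hB h Q.1 _ _ _ hcon, max_self]
  constructor
  · refine (h6 d hd C' ρ hC' hρ μ hμ s0 h (bC R0 s0 f e ν c) ((2 * (R0 + 1)) ^ 2 * I)
      (B + (R0 + 1)) (by positivity) (by positivity) hb0 hb1 fun Q hQ => ?_).1
    have h1 := hb2 Q hQ
    have hl := FFm.lev_pos h Q.1
    nlinarith [mul_nonneg hB0 hl.le]
  · obtain ⟨C7, hC7, g7⟩ := h7 d hd C' 1 1 0 hC' one_pos le_rfl le_rfl le_rfl 0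
    obtain ⟨g71, -, -, -⟩ := g7 μ hμ s0 h
    obtain ⟨C4, hC4, g4⟩ := h4 d hd1 0 le_rfl
    obtain ⟨-, g42, -, -⟩ := g4 M c0 ε hε hε1 b hb E f hf hc s0 h
    have hsd := Real.sqrt_nonneg (d : ℝ)
    set K : ℝ := (R0 + 1 + Real.sqrt d) * 512 with hK
    set C2 : ℝ := 2 * (1 + K ^ 2) with hC2
    have hC20 : 0 ≤ C2 := by positivity
    have hm0 := FFm.mT_nonneg b ε h f
    classical
    set F : Cell d → ℝ := fun Q => (if Q ∈ S then C2 * mT b ε s0 f Q else 0) +
      bC R0 s0 f e ν c (up 9 Q) with hF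
    have hlev : ∀ Q : Cell d, lev s0 (Q.1 + 9) = 512 * lev s0 Q.1 := by
      intro Q
      unfold lev
      rw [pow_add]
      ring
    -- Y
    have hY : ∀ Q, YC b ε s0 f μ ν c Q ≤ C2 * mT b ε s0 f Q * omC μ s0 Q := by
      intro Q
      obtain ⟨a1, a2, a3, a4⟩ := g71 Q
      have hl := FFm.lev_pos h Q.1
      have := a4.fin
      unfold YC
      have hσ : |(c (up 9 Q) - ⟪ν (up 9 Q), xC s0 Q⟫_ℝ) / lev s0 Q.1| ≤ K := by
        rw [abs_div, abs_of_pos hl, div_le_iff₀ hl, abs_sub_comm]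
        have h1 := ht_abs (hν.unit (up 9 Q)) (c (up 9 Q)) (xC s0 (up 9 Q)) (xC s0 Q)
        have h2 := hν.loc (up 9 Q)
        have h3 := FR.xC_up h 9 Q
        rw [norm_sub_rev] at h3
        rw [up_fst, hlev] at h2
        rw [hlev] at h3
        unfold ht at h1 h2
        rw [hK]
        linarith
      have h1 := Mo_le hd1 (muQ s0 μ Q) (hν.unit (up 9 Q)) hσ (by rw [a3]; exact a1)
      rw [a3] at h1
      have h2 := mul_le_mul_of_nonneg_left h1 (hm0 Q)
      refine h2.trans (le_of_eq ?_)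
      ring
    have hF0 : ∀ Q, 0 ≤ F Q := by
      intro Q
      simp only [hF]
      refine add_nonneg ?_ (hb0 _)
      split_ifs
      · exact mul_nonneg hC20 (hm0 Q)
      · exact le_rfl
    have hF1 : ∀ Q, F Q ≤ (C2 * I + (2 * (R0 + 1)) ^ 2 * I) * nw s0 Q := by
      intro Q
      simp only [hF]
      have h1 : (if Q ∈ S then C2 * mT b ε s0 f Q else 0) ≤ C2 * I * nw s0 Q := by
        split_ifs
        · have h2 := mul_le_mul_of_nonneg_left (g42 Q) hC20
          refine h2.trans (le_of_eq ?_)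
          ring
        · exact mul_nonneg (by positivity) (hnw Q)
      have h3 := (hb1 (up 9 Q)).trans (mul_le_mul_of_nonneg_left (nw_up hd1 h 9 Q)
        (by positivity))
      linarith
    have hF2 : ∀ Q, F Q ≠ 0 → ‖xC s0 Q‖ ≤
        (B + (2 + |r|) + K) * (1 + lev s0 Q.1) := by
      intro Q hQ
      have hl := FFm.lev_pos h Q.1
      have hr := abs_nonneg r
      have hK0 : 0 ≤ K := by positivity
      by_cases hbQ : bC R0 s0 f e ν c (up 9 Q) = 0
      · simp only [hF, hbQ, add_zero] at hQ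
        split_ifs at hQ with hQS
        · have hmne : mT b ε s0 f Q ≠ 0 := fun h0 => hQ (by rw [h0, mul_zero])
          have h1 : ‖xC s0 Q‖ ≤ B + (2 + |r|) * lev s0 Q.1 := by
            by_contra hcon
            push Not at hcon
            have h2 := hS Q hQS
            rw [mC_zero (PTm.base_ker hb) hε hε1 hB h r hcon, mul_zero] at h2
            exact hmne (le_antisymm h2 (hm0 Q))
          nlinarith [mul_nonneg hB0 hl.le, mul_nonneg hK0 hl.le]
        · exact absurd rfl hQ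
      · have h1 := hb2 _ hbQ
        rw [up_fst, hlev] at h1
        have h3 := FR.xC_up h 9 Q
        rw [hlev] at h3
        have h4 : ‖xC s0 Q‖ ≤ ‖xC s0 (up 9 Q)‖ + ‖xC s0 (up 9 Q) - xC s0 Q‖ := by
          have := norm_sub_le (xC s0 (up 9 Q)) (xC s0 (up 9 Q) - xC s0 Q)
          rwa [sub_sub_cancel] at this
        have h5 : ‖xC s0 Q‖ ≤ B + K * lev s0 Q.1 := by
          rw [hK]
          linarith
        linarith only [hR0, hsd, hl, hr, h1, h3, h4, mul_nonneg hB0 hl.le, mul_nonneg hr hl.le]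
    have hfin := (h6 d hd C' ρ hC' hρ μ hμ s0 h F (C2 * I + (2 * (R0 + 1)) ^ 2 * I)
      (B + (2 + |r|) + K) (by (clear * - hR00 hd; positivity)) (by positivity) hF0 hF1 hF2).2
    refine lt_of_le_of_lt ((cs_mono fun Q hQ => ?_).trans (cs_le_univ S _)) hfin
    have h1 : F Q = C2 * mT b ε s0 f Q + bC R0 s0 f e ν c (up 9 Q) := by
      simp only [hF]
      rw [if_pos hQ]
    rw [h1, mul_assoc (cw s0 Q)]
    refine mul_le_mul_of_nonneg_left ?_ (cw_nonneg h Q)
    have := hY Q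
    rw [add_mul]
    linarith

end TG


end

section

set_option autoImplicit false
set_option linter.unusedSectionVars false
set_option linter.unusedVariables false

/-!
# Final assembly, abstract part: light costs and the inequality (M_j)   (helper47)
-/

open MeasureTheory Metric Set TrI
open scoped InnerProductSpace ContDiff ENNReal

namespace TG

noncomputable section

variable {d : ℕ}

namespace Fin

section
variable {C0 C1R C9 Cu γ s0 tot : ℝ} {J e ρb Nb : ℕ}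
  {ns nb : Cell d → Finset (Cell d)} {Nr : Set (Cell d)}
  {a al ah at' D b oml omp v TG Y : Cell d → ℝ} {G : ℕ → Cell d → ℝ}

lemma fX_eq {S : Set (Cell d)} (hS : S ⊆ L2 d) (s0 : ℝ) (b oml : Cell d → ℝ) :
    cs S (fXF s0 b oml) = cs S (fun Q => cw s0 Q * (b Q * oml Q)) := by
  unfold cs
  refine tsum_congr fun Q => ?_
  by_cases h : Q ∈ S
  · rw [indicator_of_mem h, indicator_of_mem h]
    unfold fXF
    rw [indicator_of_mem (hS h)]
  · rw [indicator_of_notMem h, indicator_of_notMem h]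

lemma fB_eq {S : Set (Cell d)} (hS : S ⊆ L2 d) (s0 : ℝ) (Y b v : Cell d → ℝ) :
    cs S (fBF s0 Y b v) = cs S (fun Q => cw s0 Q * (Y Q + b (up 9 Q) * v Q)) := by
  unfold cs
  refine tsum_congr fun Q => ?_
  by_cases h : Q ∈ S
  · rw [indicator_of_mem h, indicator_of_mem h]
    unfold fBF
    rw [indicator_of_mem (hS h)]
  · rw [indicator_of_notMem h, indicator_of_notMem h]

/-- the modified Y -/
def Ym (at' v Y : Cell d → ℝ) (P : Cell d) : ℝ := if 2 ≤ P.1 then Y P else at' P * v P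

/-- the light costs -/
lemma lemLW {CL CL' C1I κI θ δ' : ℝ} (hCL : 0 < CL) (hCL' : 0 < CL') (hC1I : 0 ≤ C1I)
    (hκI : 0 < κI) (hκI1 : κI ≤ 1) (hθ : 0 < θ) (hδ' : 0 < δ')
    (H : FinH C0 C1R C9 J e ρb Nb Cu γ s0 tot ns nb Nr a al ah at' D b oml omp v TG Y G)
    (hIII : ∀ P ∈ CIII γ κI δ' 9 at' D b TG, ∀ (i : ℕ) (S : Finset (Cell d)), i ≤ P.1 →
      S ⊆ dn i P → (∀ Q ∈ S, Top γ θ ah at' i Q) →
        ∑ Q ∈ S, cw s0 Q * al Q ≤ C1I * (cw s0 P * (b (up 9 P) + D (up 9 P)) + G i P) ∧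
        at' P * ∑ Q ∈ S, cw s0 Q * oml Q ^ 2 ≤ C1I * (cw s0 P * v P * Y P))
    (hLT : ∀ (s0 tot : ℝ) (a at' al ah D oml omp om b Y TG : Cell d → ℝ) (G : ℕ → Cell d → ℝ),
      TreeH C0 s0 tot a at' D oml omp G →
      (∀ Q, 0 ≤ al Q) → (∀ Q, al Q ≤ ah Q) → (∀ Q, ah Q ≤ a Q) → (∀ Q, 0 ≤ b Q) →
      (∀ Q, 0 ≤ Y Q) → (∀ Q, 0 ≤ om Q) → (∀ Q, om Q ≤ C0) → (∀ Q, 0 ≤ TG Q) →
      (∀ Q, omp Q ≤ C0 * oml (up 9 Q)) →
      cs univ (fun P => cw s0 P * TG P) ≤ ENNReal.ofReal (C0 * tot) →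
      (∀ P, (∀ l : ℕ, at' (up l P) ≤ (2 : ℝ) ^ (γ * l) * at' P) → at' P ≤ C0 * (a P + TG P)) →
      (∀ P ∈ CIII γ κI δ' 9 at' D b TG, ∀ (i : ℕ) (S : Finset (Cell d)), i ≤ P.1 → S ⊆ dn i P →
        (∀ Q ∈ S, Top γ θ ah at' i Q) →
        ∑ Q ∈ S, cw s0 Q * al Q ≤ (C1I + C0 ^ 3) *
          (cw s0 P * (b (up 9 P) + D (up 9 P)) + G i P) ∧
        at' P * ∑ Q ∈ S, cw s0 Q * oml Q ^ 2 ≤ (C1I + C0 ^ 3) * (cw s0 P * om P * Y P)) →
      cs (WL γ θ ah at') (fun Q => cw s0 Q * al Q * oml Q) ≤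
        ENNReal.ofReal (CL * Real.sqrt θ / κI) * cs univ (fun P => cw s0 P * b P * oml P)
        + ENNReal.ofReal (CL * Real.sqrt θ) *
          cs (CIII γ κI δ' 9 at' D b TG) (fun P => cw s0 P * (Y P + b (up 9 P) * om P))
        + ENNReal.ofReal (CL' * tot)) :
    cs (WL γ θ ah at') (fun Q => cw s0 Q * al Q * oml Q) ≤
      ENNReal.ofReal (CL * Real.sqrt θ / κI) * cs univ (fXF s0 b oml)
        + ENNReal.ofReal (CL * Real.sqrt θ) *
          cs (L2 d ∩ CIII γ κI δ' 9 at' D b TG) (fBF s0 Y b v)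
        + ENNReal.ofReal ((CL * Real.sqrt θ / κI * (3 * C0 ^ 3) + CL * Real.sqrt θ * (6 * C0 ^ 3)
          + CL') * tot) := by
  have h0 := C0_pos H
  have ht := H.T.tot_nonneg
  have hY0 : ∀ Q, 0 ≤ Ym at' v Y Q := by
    intro Q
    unfold Ym
    split_ifs
    · exact H.Y0 Q
    · exact mul_nonneg (H.T.at_nonneg Q) (H.W.v0 Q)
  have hmain := hLT s0 tot a at' al ah D oml omp v b (Ym at' v Y) TG G H.T H.al0 H.al_ah H.R.ah_le
    H.R.b_nonneg hY0 H.W.v0 H.v_le H.TG0 H.omp9 H.TGs (fun P hP => by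
      refine (H.flat P hP).trans (mul_le_mul_of_nonneg_left ?_ h0.le)
      linarith [H.R.ah_le P]) (fun P hP i S hi hS hT => by
      obtain ⟨g1, g2⟩ := hIII P hP i S hi hS hT
      have hbD : 0 ≤ cw s0 P * (b (up 9 P) + D (up 9 P)) + G i P :=
        add_nonneg (mul_nonneg (cwp H P).le (add_nonneg (H.R.b_nonneg _) (H.T.D_nonneg _)))
          (H.T.G_nonneg i P)
      have hc3 : 0 ≤ C0 ^ 3 := by positivity
      refine ⟨g1.trans (mul_le_mul_of_nonneg_right (by linarith) hbD), ?_⟩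
      unfold Ym
      split_ifs with h2
      · exact g2.trans (mul_le_mul_of_nonneg_right (by linarith)
          (mul_nonneg (mul_nonneg (cwp H P).le (H.W.v0 P)) (H.Y0 P)))
      · have h3 : ∑ Q ∈ S, cw s0 Q * oml Q ^ 2 ≤ C0 * (cw s0 P * omp P ^ 2) :=
          (Finset.sum_le_sum_of_subset_of_nonneg hS fun Q _ _ => mul_nonneg (cwp H Q).le
            (sq_nonneg _)).trans (H.T.T2 i P hi)
        have h4 : omp P ^ 2 ≤ (C0 * v P) ^ 2 := pow_le_pow_left₀ (H.T.omp_nonneg P) (H.omp_v P) 2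
        have hat := H.T.at_nonneg P
        have hv := H.W.v0 P
        have hw := (cwp H P).le
        have h5 : 0 ≤ cw s0 P * v P * (at' P * v P) := by positivity
        calc at' P * ∑ Q ∈ S, cw s0 Q * oml Q ^ 2 ≤ at' P * (C0 * (cw s0 P * (C0 * v P) ^ 2)) := by
              refine mul_le_mul_of_nonneg_left (h3.trans ?_) hat
              exact mul_le_mul_of_nonneg_left (mul_le_mul_of_nonneg_left h4 hw) h0.le
          _ = C0 ^ 3 * (cw s0 P * v P * (at' P * v P)) := by ring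
          _ ≤ _ := mul_le_mul_of_nonneg_right (by linarith) h5)
  have hIIIs : cs (CIII γ κI δ' 9 at' D b TG) (fun P => cw s0 P * (Ym at' v Y P +
      b (up 9 P) * v P)) ≤ cs (L2 d ∩ CIII γ κI δ' 9 at' D b TG) (fBF s0 Y b v) +
        ENNReal.ofReal (6 * C0 ^ 3 * tot) := by
    refine (cs_split _ (L2 d) _).trans (add_le_add ?_ ?_)
    · rw [inter_comm, fB_eq inter_subset_left]
      refine cs_mono fun Q hQ => ?_
      have hL : 2 ≤ Q.1 := hQ.1
      have : Ym at' v Y Q = Y Q := by unfold Ym; rw [if_pos hL]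
      rw [this]
    · calc cs (CIII γ κI δ' 9 at' D b TG ∩ (L2 d)ᶜ) (fun P => cw s0 P * (Ym at' v Y P +
            b (up 9 P) * v P))
          ≤ cs (CIII γ κI δ' 9 at' D b TG ∩ (L2 d)ᶜ)
              (fun P => 2 * C0 ^ 2 * (cw s0 P * a P) + 2 * C0 ^ 2 * (cw s0 P * TG P)) := by
            refine cs_mono fun P hP => ?_
            obtain ⟨⟨q1, q2, q3, q4, q5⟩, hL⟩ := hP
            have hL' : ¬ 2 ≤ P.1 := hL
            have e1 : Ym at' v Y P = at' P * v P := by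
              unfold Ym
              rw [if_neg hL']
            rw [e1]
            have hat := H.T.at_nonneg P
            have hv := H.W.v0 P
            have hvC := H.v_le P
            have hw := (cwp H P).le
            have hb : b (up 9 P) ≤ at' P := q5.trans (by nlinarith)
            have hfl := H.flat P q2
            have hah := H.R.ah_le P
            have hat2 : at' P ≤ C0 * (a P + TG P) :=
              hfl.trans (mul_le_mul_of_nonneg_left (by linarith) h0.le)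
            have hbn := H.R.b_nonneg (up 9 P)
            calc cw s0 P * (at' P * v P + b (up 9 P) * v P)
                = cw s0 P * ((at' P + b (up 9 P)) * v P) := by ring
              _ ≤ cw s0 P * ((at' P + at' P) * C0) := by
                  refine mul_le_mul_of_nonneg_left ?_ hw
                  exact mul_le_mul (by linarith) hvC hv (by linarith)
              _ = 2 * C0 * (cw s0 P * at' P) := by ring
              _ ≤ 2 * C0 * (cw s0 P * (C0 * (a P + TG P))) :=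
                  mul_le_mul_of_nonneg_left (mul_le_mul_of_nonneg_left hat2 hw) (by positivity)
              _ = _ := by ring
        _ = ENNReal.ofReal (2 * C0 ^ 2) * cs (CIII γ κI δ' 9 at' D b TG ∩ (L2 d)ᶜ)
              (fun P => cw s0 P * a P) + ENNReal.ofReal (2 * C0 ^ 2) *
              cs (CIII γ κI δ' 9 at' D b TG ∩ (L2 d)ᶜ) (fun P => cw s0 P * TG P) := by
            rw [cs_add (fun Q _ => mul_nonneg (by positivity) (mul_nonneg (cwp H Q).le
              (H.T.a_nonneg Q))) (fun Q _ => mul_nonneg (by positivity) (mul_nonneg (cwp H Q).le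
              (H.TG0 Q))), cs_mul (by positivity), cs_mul (by positivity)]
        _ ≤ ENNReal.ofReal (2 * C0 ^ 2) * ENNReal.ofReal (2 * C0 * tot) +
              ENNReal.ofReal (2 * C0 ^ 2) * ENNReal.ofReal (C0 * tot) :=
            add_le_add (mul_le_mul_right ((cs_subset inter_subset_right _).trans (low_a H)) _)
              (mul_le_mul_right ((cs_le_univ _ _).trans H.TGs) _)
        _ = _ := by
            rw [← ENNReal.ofReal_mul (by positivity), ← ENNReal.ofReal_mul (by positivity),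
              ← ENNReal.ofReal_add (by positivity) (by positivity)]
            ring_nf
  have hX : 0 ≤ CL * Real.sqrt θ / κI := by positivity
  have hX2 : 0 ≤ CL * Real.sqrt θ := by positivity
  refine hmain.trans ?_
  calc _ ≤ ENNReal.ofReal (CL * Real.sqrt θ / κI) * (cs univ (fXF s0 b oml) +
          ENNReal.ofReal (3 * C0 ^ 3 * tot)) + ENNReal.ofReal (CL * Real.sqrt θ) *
          (cs (L2 d ∩ CIII γ κI δ' 9 at' D b TG) (fBF s0 Y b v) +
        ENNReal.ofReal (6 * C0 ^ 3 * tot)) + ENNReal.ofReal (CL' * tot) := by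
        refine add_le_add (add_le_add (mul_le_mul_right (sum_b H) _)
          (mul_le_mul_right hIIIs _)) le_rfl
    _ = _ := by
        have e1 : (CL * Real.sqrt θ / κI * (3 * C0 ^ 3) + CL * Real.sqrt θ * (6 * C0 ^ 3)
          + CL') * tot = CL * Real.sqrt θ / κI * (3 * C0 ^ 3 * tot) +
            CL * Real.sqrt θ * (6 * C0 ^ 3 * tot) + CL' * tot := by ring
        rw [e1, ENNReal.ofReal_add (by positivity) (by positivity),
          ENNReal.ofReal_add (by positivity) (by positivity), ENNReal.ofReal_mul hX,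
          ENNReal.ofReal_mul hX2 (q := 6 * C0 ^ 3 * tot)]
        ring

/-- the inequality (M_j) in the form of AS -/
lemma lemMj {CM η2 CKi B1 B2 CC ηA Cj : ℝ} {St Sol III INT : Set (Cell d)} {LW : ℝ≥0∞}
    (hCM : 0 < CM) (hη2 : 0 ≤ η2) (hCKi : 0 ≤ CKi) (hB1 : 0 ≤ B1) (hB2 : 0 ≤ B2) (hCC : 0 ≤ CC)
    (hCj : 0 ≤ Cj) (hηA : CM * η2 * B1 ≤ ηA)
    (H : FinH C0 C1R C9 J e ρb Nb Cu γ s0 tot ns nb Nr a al ah at' D b oml omp v TG Y G)
    (hst : cs St (fun Q => cw s0 Q * (sh b Q * oml Q)) ≤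
      ENNReal.ofReal B1 * cs univ (fXF s0 b oml) + ENNReal.ofReal (B2 * tot))
    (hco : cs univ (fun Q => cw s0 Q * costF Sol al D oml Q) ≤ LW + ENNReal.ofReal (CC * tot))
    (hMJ : cs (L2 d ∩ Sol ∩ INT) (fun Q => cw s0 Q * (b Q * oml Q)) +
        cs (L2 d ∩ III ∩ INT) (fun Q => cw s0 Q * (Y Q + b (up 9 Q) * v Q)) ≤
        ENNReal.ofReal (Cj * tot) + ENNReal.ofReal (CM * η2) *
            cs univ (fun Q => cw s0 Q * sBF St b oml Q)
          + ENNReal.ofReal (CM * CKi) * cs univ (fun Q => cw s0 Q * iFF Sol INT D b oml Q)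
          + ENNReal.ofReal CM * cs univ (fun Q => cw s0 Q * costF Sol al D oml Q)) :
    cs (L2 d ∩ Sol ∩ INT) (fXF s0 b oml) + cs (L2 d ∩ III ∩ INT) (fBF s0 Y b v) ≤
      ENNReal.ofReal ((Cj + CM * η2 * B2 + CM * CC) * tot) +
        ENNReal.ofReal ηA * cs univ (fXF s0 b oml) +
        ENNReal.ofReal (CM * CKi) * cs (L2 d ∩ Sol ∩ INTᶜ) (fSF s0 D b oml) +
        ENNReal.ofReal CM * LW := by
  have ht := H.T.tot_nonneg
  rw [fX_eq (inter_subset_left.trans inter_subset_left),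
    fB_eq (inter_subset_left.trans inter_subset_left)]
  refine hMJ.trans ?_
  have e1 : cs univ (fun Q => cw s0 Q * sBF St b oml Q) =
      cs St (fun Q => cw s0 Q * (sh b Q * oml Q)) := by unfold sBF; rw [cs_ind_mul]
  have e2 : cs univ (fun Q => cw s0 Q * iFF Sol INT D b oml Q) =
      cs (L2 d ∩ Sol ∩ INTᶜ) (fSF s0 D b oml) := by unfold iFF; rw [cs_ind_mul]; rfl
  rw [e1, e2]
  have hX : 0 ≤ CM * η2 := by positivity
  calc _ ≤ ENNReal.ofReal (Cj * tot) + ENNReal.ofReal (CM * η2) *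
        (ENNReal.ofReal B1 * cs univ (fXF s0 b oml) + ENNReal.ofReal (B2 * tot)) +
        ENNReal.ofReal (CM * CKi) * cs (L2 d ∩ Sol ∩ INTᶜ) (fSF s0 D b oml) +
        ENNReal.ofReal CM * (LW + ENNReal.ofReal (CC * tot)) :=
        add_le_add (add_le_add (add_le_add le_rfl (mul_le_mul_right hst _)) le_rfl)
          (mul_le_mul_right hco _)
    _ = ENNReal.ofReal ((Cj + CM * η2 * B2 + CM * CC) * tot) +
        ENNReal.ofReal (CM * η2 * B1) * cs univ (fXF s0 b oml) +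
        ENNReal.ofReal (CM * CKi) * cs (L2 d ∩ Sol ∩ INTᶜ) (fSF s0 D b oml) +
        ENNReal.ofReal CM * LW := by
        have e3 : (Cj + CM * η2 * B2 + CM * CC) * tot = Cj * tot + CM * η2 * (B2 * tot) +
          CM * (CC * tot) := by ring
        rw [e3, ENNReal.ofReal_add (by positivity) (by positivity),
          ENNReal.ofReal_add (by positivity) (by positivity), ENNReal.ofReal_mul hX (q := B2 * tot),
          ENNReal.ofReal_mul hCM.le (q := CC * tot), ENNReal.ofReal_mul hX (q := B1)]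
        ring
    _ ≤ _ := by
        refine add_le_add (add_le_add (add_le_add le_rfl ?_) le_rfl) le_rfl
        exact mul_le_mul_left (ofR hηA) _

end

end Fin

end

end TG


end

section

set_option autoImplicit false
set_option linter.unusedSectionVars false
set_option linter.unusedVariables false

/-!
# Final assembly, abstract part: the chain of constants   (helper47)
-/

open MeasureTheory Metric Set TrI
open scoped InnerProductSpace ContDiff ENNReal

namespace TG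

noncomputable section

variable {d : ℕ}

namespace Fin

lemma rhs_mono {Cv Cc Cb Ci Cp Cp' : ℝ} {r0 : ℕ} {nb : Cell d → Finset (Cell d)}
    {St Sol INT : Set (Cell d)} {val al D b oml TG : Cell d → ℝ} (h : Cp ≤ Cp')
    (hp : ∀ Q, 0 ≤ payF r0 St D oml TG Q) (Q : Cell d) :
    rhsF Cv Cc Cb Ci Cp r0 nb St Sol INT val al D b oml TG Q ≤
      rhsF Cv Cc Cb Ci Cp' r0 nb St Sol INT val al D b oml TG Q := by
  unfold rhsF
  refine Finset.sum_le_sum fun Q' _ => ?_
  have := mul_le_mul_of_nonneg_right h (hp Q')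
  linarith

end Fin

open TG.Fin in
theorem fin : StmtFin := by
  intro d J ρb Nb e C0 Cu c1 C1R C9 C1I γ κI θI δI hd hγ hγ8 hC0 hCu hc1 hc11 hC1R hC9 hC1I hκI
    hκI1 hθI hθI1 hδI
  have hC00 : 0 < C0 := by linarith
  have hCu0 : 0 < Cu := by linarith
  obtain ⟨C1P, hC1P, HPQ⟩ := stmtPQ Cu Nb hCu
  obtain ⟨η1, CM, hη1, hCM, HMJ⟩ := stmtMJ d J ρb C1P c1 hd hC1P hc1
  obtain ⟨CA, hCA, HTS1⟩ := stmtTS1 d C0 γ hd hγ hγ8
  obtain ⟨CT2s, hCT2s, HTS2⟩ := stmtTS2 d C0 γ hd hγ hγ8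
  obtain ⟨CB, hCB, HTS3⟩ := stmtTS3 d C0 9 hd hC00.le
  obtain ⟨CL, hCL, HLT⟩ := stmtLT d C0 (C1I + C0 ^ 3) γ 9 hd (by positivity) hγ hγ8
  obtain ⟨Cθ, hCθ, HRH⟩ := stmtRH C1R C9 J e hC1R hC9
  obtain ⟨η0, hη0, HAS⟩ := stmtAS2 (CM + C0 + 1) (by positivity)
  -- θ
  set x : ℝ := min 1 (η0 * κI / CL) with hx
  have hx0 : 0 < x := lt_min one_pos (by positivity)
  set θ : ℝ := min θI (min (x ^ 2) (1 / (4 * C0))) with hθdef
  have hθ : 0 < θ := lt_min hθI (lt_min (by positivity) (by positivity))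
  have hθθI : θ ≤ θI := min_le_left _ _
  have hθ1 : θ ≤ 1 := hθθI.trans hθI1
  have hθx : Real.sqrt θ ≤ x := by
    rw [Real.sqrt_le_left hx0.le]
    exact (min_le_right _ _).trans (min_le_left _ _)
  have hθC : θ * (4 * C0) ≤ 1 := by
    have : θ ≤ 1 / (4 * C0) := (min_le_right _ _).trans (min_le_right _ _)
    rwa [le_div_iff₀ (by positivity)] at this
  have hLη : CL * Real.sqrt θ / κI ≤ η0 := by
    have h1 : Real.sqrt θ ≤ η0 * κI / CL := hθx.trans (min_le_right _ _)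
    rw [le_div_iff₀ hCL] at h1
    rw [div_le_iff₀ hκI]
    linarith
  have hLη2 : CL * Real.sqrt θ ≤ η0 := by
    refine le_trans ?_ hLη
    rw [le_div_iff₀ hκI]
    have : 0 ≤ CL * Real.sqrt θ := by positivity
    nlinarith only [hκI1, this]
  obtain ⟨Cr, nI, hCr, HRK⟩ := HRH θ hθ hθ1
  set K : ℝ := Cθ / θ with hKdef
  have hK1 : 1 ≤ K := by rw [hKdef, le_div_iff₀ hθ]; linarith
  have hK0 : 0 < K := by linarith
  refine ⟨η1 / Cu, K, Cr, θ, by positivity, hK1, hCr, hθ, hθθI, ?_⟩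
  intro CK κ0 hCK hκ0
  obtain ⟨C2, hC2, HPQ2⟩ := HPQ Cr CK hCr hCK
  set B1 : ℝ := CA * Real.sqrt K * CB with hB1
  have hsK : 0 < Real.sqrt K := Real.sqrt_pos.2 hK0
  have hB10 : 0 < B1 := by positivity
  set κ1 : ℝ := min κ0 (min 1 (η0 / (2 * CM * C2 * B1))) with hκ1def
  have hκ1 : 0 < κ1 := lt_min hκ0 (lt_min one_pos (by positivity))
  have hκ11 : κ1 ≤ 1 := (min_le_right _ _).trans (min_le_left _ _)
  have hκ1η : κ1 * (2 * CM * C2 * B1) ≤ η0 := by
    have : κ1 ≤ η0 / (2 * CM * C2 * B1) := (min_le_right _ _).trans (min_le_right _ _)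
    rwa [le_div_iff₀ (by positivity)] at this
  obtain ⟨n, HASn⟩ := HAS (CM * C2 + B1) (by positivity) nI
  set δ : ℝ := (κ1 * (1 / 2) ^ n) ^ 2 with hδdef
  have hδ : 0 < δ := by positivity
  refine ⟨n, κ1, δ, hκ1, min_le_left _ _, hδ, ?_⟩
  -- thresholds
  set κj : ℕ → ℝ := fun j => κ1 * (1 / 2) ^ j with hκjdef
  have hκj0 : ∀ j, 0 < κj j := fun j => by simp only [hκjdef]; positivity
  have hκj1 : ∀ j, κj j ≤ κ1 := by
    intro j
    simp only [hκjdef]
    have : (1 / 2 : ℝ) ^ j ≤ 1 := pow_le_one₀ (by norm_num) (by norm_num)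
    nlinarith only [hκ1, this]
  have hδκ : ∀ j < n, δ / κj j ≤ κ1 := by
    intro j hj
    rw [div_le_iff₀ (hκj0 j)]
    have h1 : κj n ≤ κj j := by
      simp only [hκjdef]
      refine mul_le_mul_of_nonneg_left ?_ hκ1.le
      exact pow_le_pow_of_le_one (by norm_num) (by norm_num) hj.le
    have h2 : δ = κj n * κj n := by simp only [hδdef, hκjdef]; ring
    rw [h2]
    exact mul_le_mul (hκj1 n) h1 (hκj0 n).le hκ1.le
  have hδκ' : ∀ j < n, δ ≤ κj j := by
    intro j hj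
    have h1 := hδκ j hj
    rw [div_le_iff₀ (hκj0 j)] at h1
    have := hκj0 j
    nlinarith
  intro d0 Cs CN r0 hd0 hd01 hCs hCN
  obtain ⟨d1, hd1, hd1d, HR⟩ := HRK K le_rfl d0 hd0 hd01
  have hd11 : d1 ≤ 1 := hd1d.trans hd01
  obtain ⟨C3, hC3, HPQ3⟩ := HPQ2 Cs hCs
  obtain ⟨CDP, hCDP, HDP⟩ := stmtDP d r0 C0 hd hC00.le
  set δ' : ℝ := min δI (min (1 / (2 * C0)) (d1 / (4 * C0))) with hδ'def
  have hδ' : 0 < δ' := lt_min hδI (lt_min (by positivity) (by positivity))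
  have hδ'1 : 2 * C0 * δ' ≤ 1 := by
    have : δ' ≤ 1 / (2 * C0) := (min_le_right _ _).trans (min_le_left _ _)
    rw [le_div_iff₀ (by positivity)] at this
    linarith
  have hδ'2 : C0 * δ' ≤ d1 / 4 := by
    have : δ' ≤ d1 / (4 * C0) := (min_le_right _ _).trans (min_le_right _ _)
    rw [le_div_iff₀ (by positivity)] at this
    linarith
  obtain ⟨CL', hCL', HLT'⟩ := HLT κI θ δ' hκI hκI1 hθ hθ1 hδ' hδ'1
  set CsM : ℝ := C3 + CN + (CDP + CA * K + C0) with hCsM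
  have hCsM0 : 0 ≤ CsM := by positivity
  have HM : ∀ j : ℕ, ∃ C' : ℝ, 0 < C' ∧ _ := fun j =>
    HMJ (C2 * (κj j + δ / κj j)) C2 CsM (by have := hκj0 j; (clear * - hC2 hκ0 hη0 hCM hCA hCθ hθI hκI hCL hC0 hCB; positivity)) hC2.le hCsM0
  choose Cj hCj HMj using HM
  set CI : ℝ := CT2s * (1 / θ) / d1 with hCI
  have hCI0 : 0 ≤ CI := by positivity
  set B2 : ℝ := CA * Real.sqrt K * CB * (3 * C0 ^ 3 + 1) + CA * K with hB2
  have hB20 : 0 ≤ B2 := by positivity
  set CC : ℝ := CI + C0 ^ 2 with hCC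
  have hCC0 : 0 ≤ CC := by positivity
  set CE : ℝ := CL * Real.sqrt θ / κI * (3 * C0 ^ 3) + CL * Real.sqrt θ * (6 * C0 ^ 3) + CL'
    with hCE
  have hCE0 : 0 ≤ CE := by positivity
  set SJ : ℝ := ∑ j ∈ Finset.range n, Cj j with hSJ
  have hSJ0 : 0 ≤ SJ := Finset.sum_nonneg fun j _ => (hCj j).le
  have hSJj : ∀ j < n, Cj j ≤ SJ := fun j hj =>
    Finset.single_le_sum (f := Cj) (fun i _ => (hCj i).le) (Finset.mem_range.2 hj)
  set CsA : ℝ := SJ + CM * (2 * C2) * B2 + CM * CC + (B2 + CA * K) + CE + C0 * CC with hCsA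
  have hCsA0 : 0 ≤ CsA := by (clear * - hSJ0 hCM hC2 hCA hCθ hθI hη0 hκI hCL hC0 hCB hCT2s hd1 hCL'; positivity)
  obtain ⟨C', hC', HF⟩ := HASn CsA hCsA0
  refine ⟨δ', C', hδ', min_le_left _ _, hδ'1, hC', ?_⟩
  intro s0 tot ns nb Nr a al ah at' D b oml omp v TG Y G N val E1 E2 H hIII hfin2 hLj
  have ht := H.T.tot_nonneg
  have hup9 : ∀ Q, up 9 Q ∈ nb Q := fun Q => H.W.ns9 Q (H.W.self (up 9 Q))
  obtain ⟨RB, hWL, hcount, hCIII⟩ := HR d γ hγ hγ8 nb a ah at' D b H.R hup9 H.ah9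
  have hIIIs : CIII γ κI δ' 9 at' D b TG ⊆ Solid γ θ d1 a ah at' D :=
    hCIII κI δ' 9 TG C0 hC0 hδ'1 hδ'2 hθC H.flat
  set Sol := Solid γ θ d1 a ah at' D with hSol
  set St := Strc γ K d0 a at' D with hSt
  set LW := cs (WL γ θ ah at') (fun Q => cw s0 Q * al Q * oml Q) with hLW
  obtain ⟨BD, hBD⟩ := H.R.D_bd
  have hshb0 : ∀ Q, 0 ≤ sh b Q := fun Q => tsum_nonneg fun _ =>
    mul_nonneg (by positivity) (H.R.b_nonneg _)
  have hshD0 : ∀ Q, 0 ≤ sh D Q := fun Q => tsum_nonneg fun _ =>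
    mul_nonneg (by positivity) (H.T.D_nonneg _)
  -- the four sums
  obtain ⟨tD, tb0⟩ := ts_D (K := K) (d0 := d0) hCA hK1 hd0 hd01 H HTS1
  have h4 := HTS3 s0 tot D oml omp b H.T.s0_pos ht H.R.b_nonneg H.T.D_nonneg H.T.oml_nonneg
    H.T.omp_nonneg H.b9 H.omp9 H.T.omp_le H.T.D_sum
  have tb := ts_b (K := K) (d0 := d0) hCA hCB hK1 H tb0 h4
  have tI := inc_sum (θ := θ) (d1 := d1) hCT2s hθ hθ1 hd1 hd11 H HTS2 hWL
  have tC := cost_sum (θ := θ) (d1 := d1) hCI0 H tI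
  have tP := pay_sum (K := K) (d0 := d0) (r0 := r0) (CDs := CA * K) (CP := CDP) (by positivity)
    hCDP.le H (HDP s0 tot D H.T.s0_pos ht H.T.D_nonneg H.T.D_sum) tD
  have hSolSt : Sol ⊆ St := fun Q hQ => (RB.sol Q hQ Q (H.W.ns_nb Q (H.W.self Q))).1
  have hfSn : ∀ Q, 0 ≤ fSF s0 D b oml Q := fun Q =>
    mul_nonneg (cwp H Q).le (mul_nonneg (add_nonneg (hshb0 Q) (hshD0 Q)) (H.T.oml_nonneg Q))
  have hpayn : ∀ Q, 0 ≤ payF r0 St D oml TG Q := fun Q => PQ.pay_nonneg H.W RB H.TG0 Q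
  refine HF d n tot η0 le_rfl ht hη0.le le_rfl (fXF s0 b oml) (fBF s0 Y b v) (fSF s0 D b oml)
    (L2 d ∩ Sol) (L2 d ∩ CIII γ κI δ' 9 at' D b TG) (fun j => Intr (κj j) a D b nb) LW
    ?_ ?_ hfSn ?_ ?_ ?_ ?_ ?_ ?_ ?_ ?_
  · intro Q
    exact indicator_nonneg (fun Q _ => mul_nonneg (cwp H Q).le (mul_nonneg (H.R.b_nonneg Q)
      (H.T.oml_nonneg Q))) Q
  · intro Q
    exact indicator_nonneg (fun Q _ => mul_nonneg (cwp H Q).le (add_nonneg (H.Y0 Q)
      (mul_nonneg (H.R.b_nonneg _) (H.W.v0 Q)))) Q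
  · intro Q hQ
    exact hcount κ1 hκ1 n Q hQ.2
  · intro Q hQ
    exact hcount κ1 hκ1 n Q (hIIIs hQ.2)
  · -- (M_j)
    intro j hj
    obtain ⟨L, hsum, hNtot, hN0, hvfin⟩ := hLj j hj
    have hκ := hκj0 j
    have hκ1' : κj j ≤ 1 := (hκj1 j).trans hκ11
    obtain ⟨P1, P2, P3⟩ := HPQ3 (κj j) δ hκ hκ1' hδ (hδκ' j hj) d r0 s0 γ c1 (η1 / Cu) ns nb Nr St
      Sol (N j) (val j) v oml a al ah D b at' TG Y (E1 j) (E2 j) hc1 hc11 (by positivity) H.W RB
      H.al0 H.TG0 hN0 L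
    have hCuη : Cu * (η1 / Cu) = η1 := by field_simp
    rw [hCuη] at P1
    have hv2 := PQ.v2_nonneg L.val0
    have hC3M : C3 ≤ CsM := by rw [hCsM]; linarith only [hC0, hCN, hCDP, mul_pos hCA hK0]
    have hMJ := HMj j s0 tot nb (N j) (val2 (val j)) (costF Sol al D oml) (sBF St b oml)
      (payF r0 St D oml TG) (iFF Sol (Intr (κj j) a D b nb) D b oml) (fun Q => b Q * oml Q)
      (fun Q => Y Q + b (up 9 Q) * v Q) (L2 d ∩ Sol ∩ Intr (κj j) a D b nb)
      (L2 d ∩ CIII γ κI δ' 9 at' D b TG ∩ Intr (κj j) a D b nb) H.T.s0_pos ht H.box hv2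
      (PQ.cost_nonneg H.W RB H.al0) (PQ.sB_nonneg H.W RB) hpayn (PQ.iF_nonneg H.W RB _)
      (fun Q => (P1 Q).trans (add_le_add le_rfl (mul_le_mul_of_nonneg_left
        (rhs_mono hC3M hpayn Q) (cwp H Q).le)))
      hsum (hNtot.trans (mul_le_mul_of_nonneg_right (by
        rw [hCsM]; linarith only [hC0, hC3, hCDP, mul_pos hCA hK0]) ht))
      (fun Q hQ => (P2 Q hQ).trans (rhs_mono hC3M hpayn Q))
      (fun Q hQ => (P3 Q ⟨⟨hQ.1.1, hIIIs hQ.1.2⟩, hQ.2⟩ hQ.1.2.2.1).trans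
        (rhs_mono hC3M hpayn Q))
      (tP.trans (ofR (mul_le_mul_of_nonneg_right (by rw [hCsM]; linarith only [hCN, hC3]) ht)))
      (lt_of_le_of_lt (cs_mono fun Q _ => mul_le_mul_of_nonneg_left (by
        unfold val2
        split_ifs
        · exact le_rfl
        · exact L.val0 Q) (cwp H Q).le) hvfin)
    have hη2 : 0 ≤ C2 * (κj j + δ / κj j) := by (clear * - hC2 hκ0 hη0 hCM hCA hCθ hθI hκI hCL hC0 hCB; positivity)
    have hkk : κj j + δ / κj j ≤ 2 * κ1 := by linarith only [hκj1 j, hδκ j hj]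
    have hη2' : C2 * (κj j + δ / κj j) ≤ C2 * (2 * κ1) := mul_le_mul_of_nonneg_left hkk hC2.le
    have hM := lemMj (ηA := η0) (B1 := B1) (B2 := B2) (CC := CC) (Cj := Cj j)
      (LW := LW) hCM hη2 hC2.le hB10.le hB20 hCC0 (hCj j).le (by
        calc CM * (C2 * (κj j + δ / κj j)) * B1 ≤ CM * (C2 * (2 * κ1)) * B1 :=
              mul_le_mul_of_nonneg_right (mul_le_mul_of_nonneg_left hη2' hCM.le) hB10.le
          _ = κ1 * (2 * CM * C2 * B1) := by ring
          _ ≤ η0 := hκ1η) H tb tC hMJ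
    refine hM.trans (add_le_add (add_le_add (add_le_add (ofR ?_) le_rfl) ?_) ?_)
    · refine mul_le_mul_of_nonneg_right ?_ ht
      have h5 : CM * (C2 * (κj j + δ / κj j)) * B2 ≤ CM * (2 * C2) * B2 := by
        refine mul_le_mul_of_nonneg_right (mul_le_mul_of_nonneg_left ?_ hCM.le) hB20
        nlinarith only [hη2', hC2, hκ11]
      have h6 := hSJj j hj
      have h7 : 0 ≤ C0 * CC := by positivity
      have h8 : 0 ≤ CA * K := by positivity
      rw [hCsA]
      linarith only [hB20, hCE0, h5, h6, h7, h8]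
    · exact mul_le_mul_left (ofR (by linarith only [hB10])) _
    · exact mul_le_mul_left (ofR (by linarith only [hC0])) _
  · -- (d)
    calc cs (L2 d ∩ Sol) (fSF s0 D b oml) ≤ cs St (fSF s0 D b oml) :=
          cs_subset (inter_subset_right.trans hSolSt) _
      _ = cs St (fun Q => cw s0 Q * (sh b Q * oml Q)) +
            cs St (fun Q => cw s0 Q * (sh D Q * oml Q)) := by
          rw [← cs_add (fun Q _ => mul_nonneg (cwp H Q).le (mul_nonneg (hshb0 Q)
            (H.T.oml_nonneg Q))) (fun Q _ => mul_nonneg (cwp H Q).le (mul_nonneg (hshD0 Q)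
            (H.T.oml_nonneg Q)))]
          exact congrArg _ (funext fun Q => by unfold fSF; ring)
      _ ≤ (ENNReal.ofReal B1 * cs univ (fXF s0 b oml) + ENNReal.ofReal (B2 * tot)) +
            ENNReal.ofReal (CA * K * tot) := add_le_add tb tD
      _ = ENNReal.ofReal B1 * cs univ (fXF s0 b oml) + ENNReal.ofReal ((B2 + CA * K) * tot) := by
          rw [add_assoc, ← ENNReal.ofReal_add (by (clear * - hCA hCθ hθI hη0 hκI hCL hC0 hCB ht; positivity)) (by positivity), ← add_mul]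
      _ ≤ _ := by
          refine add_le_add (mul_le_mul_left (ofR ?_) _) (ofR ?_)
          · have : 0 ≤ CM * C2 := by positivity
            linarith only [this]
          · refine mul_le_mul_of_nonneg_right ?_ ht
            have h5 : 0 ≤ CM * (2 * C2) * B2 := by positivity
            have h6 : 0 ≤ CM * CC := by positivity
            have h7 : 0 ≤ C0 * CC := by positivity
            rw [hCsA]
            linarith only [hCE0, hSJ0, h5, h6, h7]
  · -- (e)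
    have hE := lemLW (κI := κI) (θ := θ) (δ' := δ') hCL hCL' hC1I hκI hκI1 hθ hδ' H hIII HLT'
    refine hE.trans (add_le_add (add_le_add (mul_le_mul_left (ofR hLη) _)
      (mul_le_mul_left (ofR hLη2) _)) (ofR ?_))
    refine mul_le_mul_of_nonneg_right ?_ ht
    have h5 : 0 ≤ CM * (2 * C2) * B2 := by positivity
    have h6 : 0 ≤ CM * CC := by positivity
    have h7 : 0 ≤ C0 * CC := by positivity
    have h8 : 0 ≤ CA * K := by positivity
    rw [hCsA]
    linarith only [hB20, hSJ0, h5, h6, h7, h8]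
  · -- (f)
    have hf := lemf (θ := θ) (d1 := d1) hCC0 H tC
    refine hf.trans (add_le_add (add_le_add ?_ (mul_le_mul_left (ofR (by linarith only [hCM])) _)) (ofR ?_))
    · calc cs (L2 d ∩ Sol) (fXF s0 b oml) = 1 * cs (L2 d ∩ Sol) (fXF s0 b oml) := (one_mul _).symm
        _ ≤ _ := by
            refine mul_le_mul_left ?_ _
            rw [← ENNReal.ofReal_one]
            exact ofR (by linarith only [hC0, hCM])
    · refine mul_le_mul_of_nonneg_right ?_ ht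
      have h5 : 0 ≤ CM * (2 * C2) * B2 := by positivity
      have h6 : 0 ≤ CM * CC := by positivity
      have h8 : 0 ≤ CA * K := by positivity
      rw [hCsA]
      linarith only [hB20, hCE0, hSJ0, h5, h6, h8]
  · -- finiteness
    refine lt_of_le_of_lt ?_ H.fin1
    refine cs_mono fun Q _ => ?_
    unfold fXF
    by_cases hL : Q ∈ L2 d
    · rw [indicator_of_mem hL]
    · rw [indicator_of_notMem hL]
      exact mul_nonneg (cwp H Q).le (mul_nonneg (H.R.b_nonneg Q) (H.T.oml_nonneg Q))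
  · refine lt_of_le_of_lt ?_ hfin2
    rw [fB_eq inter_subset_left]
    exact cs_subset inter_subset_right _

end

end TG


end

section

set_option autoImplicit false
set_option linter.unusedSectionVars false
set_option linter.unusedVariables false

/-!
# The main estimate StmtMain   (helper47)
-/

open MeasureTheory Metric Set TrI
open scoped InnerProductSpace ContDiff ENNReal

namespace TG

noncomputable section

variable {d : ℕ}

namespace MainA

/-- monotonicity of LocW in Cu and c1 -/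
lemma locW_mono {s0 γ Cu Cu' c1 c1' η Cr CK κ δ Cs : ℝ} {r0 : ℕ} {ns : Cell d → Finset (Cell d)}
    {Nr St TA : Set (Cell d)} {N val v a al ah D b at' TG Y E1 E2 : Cell d → ℝ}
    (h : LocW s0 γ Cu c1 η Cr CK κ δ Cs r0 ns Nr St TA N val v a al ah D b at' TG Y E1 E2)
    (hs : 0 < s0) (hCu : Cu ≤ Cu') (hc1 : c1' ≤ c1) (hv : ∀ Q, 0 ≤ v Q) (hal : ∀ Q, 0 ≤ al Q)
    (hD : ∀ Q, 0 ≤ D Q) (hb : ∀ Q, 0 ≤ b Q) :
    LocW s0 γ Cu' c1' η Cr CK κ δ Cs r0 ns Nr St TA N val v a al ah D b at' TG Y E1 E2 := by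
  have hw : ∀ Q : Cell d, 0 ≤ cw s0 Q := fun Q => cw_nonneg hs Q
  have hwv : ∀ Q : Cell d, 0 ≤ cw s0 Q * v Q := fun Q => mul_nonneg (hw Q) (hv Q)
  have hval : ∀ Q, 0 ≤ cw s0 Q * val Q := fun Q => mul_nonneg (hw Q) (h.val0 Q)
  have hsum : ∀ Q, 0 ≤ ∑ Q' ∈ ns Q, cw s0 Q' * val Q' := fun Q =>
    Finset.sum_nonneg fun Q' _ => hval Q'
  have i1 : ∀ Q, c1' * (cw s0 Q * val Q) ≤ c1 * (cw s0 Q * val Q) := fun Q =>
    mul_le_mul_of_nonneg_right hc1 (hval Q)
  have i2 : ∀ Q, Cu * (∑ Q' ∈ ns Q, cw s0 Q' * val Q') ≤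
      Cu' * (∑ Q' ∈ ns Q, cw s0 Q' * val Q') := fun Q => mul_le_mul_of_nonneg_right hCu (hsum Q)
  refine ⟨h.val0, h.E1_le, h.E2_le, h.w1, fun Q hN h2 hA => (i1 Q).trans (h.w2 Q hN h2 hA), h.w3,
    fun Q hN h2 h3 h4 => (i1 Q).trans (h.w4 Q hN h2 h3 h4), fun Q hN h2 => ?_, fun Q h2 hA => ?_,
    fun Q h2 hA => ?_, fun P h2 hf hA => ?_, fun P h2 hf hA => ?_⟩
  · have h5 := h.w5 Q hN h2
    have h6 : Cu * (cw s0 Q * v Q) * (al Q + D Q) ≤ Cu' * (cw s0 Q * v Q) * (al Q + D Q) :=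
      mul_le_mul_of_nonneg_right (mul_le_mul_of_nonneg_right hCu (hwv Q))
        (add_nonneg (hal Q) (hD Q))
    linarith
  · have h5 := h.wA6 Q h2 hA
    linarith [i2 Q]
  · have h5 := h.wB6 Q h2 hA
    linarith [i2 Q]
  · have h5 := h.wA7 P h2 hf hA
    have h6 : Cu * (cw s0 P * v P) * b (up 9 P) ≤ Cu' * (cw s0 P * v P) * b (up 9 P) :=
      mul_le_mul_of_nonneg_right (mul_le_mul_of_nonneg_right hCu (hwv P)) (hb _)
    linarith [i2 P]
  · have h5 := h.wB7 P h2 hf hA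
    have h6 : Cu * (cw s0 P * v P) * b (up 9 P) ≤ Cu' * (cw s0 P * v P) * b (up 9 P) :=
      mul_le_mul_of_nonneg_right (mul_le_mul_of_nonneg_right hCu (hwv P)) (hb _)
    linarith [i2 P]

section Fo
variable {V E : Type} [NormedAddCommGroup V] [InnerProductSpace ℝ V] [FiniteDimensional ℝ V]
    [NormedAddCommGroup E] [InnerProductSpace ℝ E] [FiniteDimensional ℝ E]
    {L : (Sp d →L[ℝ] V) →L[ℝ] E}

lemma fo_cont {u : Sp d → V} (hu : TF u) : Continuous (fo L u) := by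
  unfold fo
  exact L.continuous.comp (hu.smooth.continuous_fderiv (by simp))

lemma fo_cs {u : Sp d → V} (hu : TF u) : HasCompactSupport (fo L u) := by
  have h := hu.supp.fderiv (𝕜 := ℝ)
  exact h.comp_left (g := fun A => L A) (map_zero L)

end Fo

end MainA

open _root_.TG.MainA in
theorem stmtMain0 (hfin : StmtFin) (hBK : StmtBK) (hFA : StmtFA) (hCG : StmtCG) (hCS : StmtCS) (hFH : StmtFH)
    (hLW : StmtLW) (hT2 : StmtT2) (hFF : StmtFF) : StmtMain := by
  intro d V E _ _ _ _ _ _ _ L hd hL C' hC'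
  have hd1 : 1 ≤ d := by omega
  have hdr : (2 : ℝ) ≤ d := by exact_mod_cast hd
  have hd0r : (0 : ℝ) < d := by linarith
  obtain ⟨J, RtL, hRtL, HL⟩ := hLW d V E L hd hL
  obtain ⟨RtH, hRtH, HH⟩ := hFH d hd
  obtain ⟨RtT, hRtT, HT⟩ := hT2 d V E L hd hL
  obtain ⟨M, c0, b, hb⟩ := hBK d (J + 14) (by omega)
  have hb2 : BaseKer 2 M c0 b := hb.mono_order (by omega)
  have hb14 : BaseKer 14 M c0 b := hb.mono_order (by omega)
  obtain ⟨ε0, hε0, HFA⟩ := hFA d (J + 10) hd (by omega) M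
  set ε : ℝ := min ε0 (1 / 4) with hεdef
  have hε : 0 < ε := lt_min hε0 (by norm_num)
  have hε4 : ε ≤ 1 / 4 := min_le_right _ _
  have hε1 : ε ≤ 1 := by linarith
  obtain ⟨p0, A, c, hF⟩ := HFA ε hε (min_le_left _ _) C' hC'
  have hp0 := hF.p0_pos
  have hp1 := hF.p0_le
  have hA := hF.A_ge
  obtain ⟨n1, hn1⟩ := pow_unbounded_of_one_lt (32 * A) (one_lt_two : (1 : ℝ) < 2)
  set JA : ℕ := max n1 7 with hJA
  have hJA1 : 32 * A ≤ 2 ^ JA := hn1.le.trans (pow_le_pow_right₀ (by norm_num) (le_max_left _ _))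
  have hJA7 : 7 ≤ JA := le_max_right _ _
  set γ : ℝ := 1 / (32 * d) with hγdef
  have hγ : 0 < γ := by positivity
  have hγ32 : γ ≤ 1 / (32 * d) := le_rfl
  have hγ8d : γ ≤ 1 / (8 * d) := one_div_le_one_div_of_le (by positivity) (by linarith)
  have hγ8 : γ ≤ 1 / 8 := one_div_le_one_div_of_le (by norm_num) (by linarith)
  have hγ1 : γ ≤ 1 := by linarith
  set ρ : ℝ := A + 3 * d with hρ
  have hρ0 : 0 < ρ := by positivity
  set R0 : ℝ := 4 * A + 8 * d + 400 + 8 * RtL + 8 * RtH + 8 * RtT + 8 * ρ with hR0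
  obtain ⟨CuL, c1L, hCuL, hc1L, HL1⟩ := HL M c0 b hb C' ε p0 A c hC' hε hε4 hF JA γ R0 hJA1 hJA7
    hγ hγ32 (by rw [hR0]; linarith) (by rw [hR0]; linarith)
  obtain ⟨C0, CuH, C1R, C9, Nb, ρb, hC0, hCuH, hC1R, hC9, HH1⟩ := HH M c0 ε hε hε1 b hb2 C' p0 A R0
    ρ JA hC' hp0 hp1 hA (by rw [hR0]; linarith) (by rw [hR0]; linarith) le_rfl
  obtain ⟨C1I, κI0, θI0, δI, RmT, hC1I, hκI0, hθI0, hδI, HT1⟩ := HT M c0 ε hε hε1 b hb2 C' R0 γ ρ
    hC' (by rw [hR0]; linarith) (by rw [hR0]; linarith) hγ hγ8d (by rw [hρ]; linarith)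
    (by rw [hR0]; linarith)
  set Cu : ℝ := max CuL CuH with hCudef
  have hCu : 1 ≤ Cu := hCuL.trans (le_max_left _ _)
  set c1 : ℝ := min c1L 1 with hc1def
  have hc1 : 0 < c1 := lt_min hc1L one_pos
  have hc11 : c1 ≤ 1 := min_le_right _ _
  obtain ⟨η, K, Cr, θ, hη, hK, hCr, hθ, hθI, HF1⟩ := hfin d (JA + 9) ρb Nb 3 C0 Cu c1 C1R C9 C1I γ
    (min κI0 1) (min θI0 1) δI hd1 hγ hγ8 hC0 hCu hc1 hc11 hC1R hC9 hC1I.le
    (lt_min hκI0 one_pos) (min_le_right _ _) (lt_min hθI0 one_pos) (min_le_right _ _) hδI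
  set κI : ℝ := min κI0 1 with hκIdef
  have hCr2 : 1 ≤ Cr ^ 2 := one_le_pow₀ hCr
  obtain ⟨CK, κ0, hCK, hκ0, HL2⟩ := HL1 η hη K (Cr ^ 2) hK hCr2
  obtain ⟨n, κ1, δ, hκ1, hκ10, hδ, HF2⟩ := HF1 CK κ0 hCK hκ0
  obtain ⟨RN, Rm, d0, Cs, r0, hRN, hd0, hd01, hCs, hr0, HL3⟩ := HL2 (κ1 * (1 / 2) ^ n) δ
    (by positivity) hδ
  set R : ℝ := |Rm| + |RmT| + 200 * R0 with hR
  have hR0pos : 0 < R0 := by rw [hR0]; positivity
  have hRm : Rm ≤ R := by
    have h1 := le_abs_self Rm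
    have h2 := abs_nonneg RmT
    rw [hR]; linarith only [hdr, hRtL, hRtH, hRtT, hA, h1, h2]
  have hRmT : RmT ≤ R := by
    have h1 := le_abs_self RmT
    have h2 := abs_nonneg Rm
    rw [hR]; linarith only [hdr, hRtL, hRtH, hRtT, hA, h1, h2]
  have hR200 : 200 * R0 ≤ R := by
    have h1 := abs_nonneg RmT
    have h2 := abs_nonneg Rm
    rw [hR]; linarith only [h1, h2]
  have hR0big : 400 + 8 * (d : ℝ) ≤ R0 := by rw [hR0]; linarith only [hRtL, hRtH, hRtT, hA]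
  have hR0R1 : R0 + 10 ≤ R := by linarith only [hdr, hRtL, hRtH, hRtT, hA, hR200]
  have hR0R2 : 2 * R0 + 10 ≤ R := by linarith only [hdr, hRtL, hRtH, hRtT, hA, hR200]
  have hRd4 : (d : ℝ) + 4 ≤ R := by linarith only [hRtL, hRtH, hRtT, hA, hR200]
  obtain ⟨Λ, hΛ, HH2⟩ := HH1 R hR200
  obtain ⟨CN, hCN, HCS⟩ := hCS d hd M c0 C' R hC' hRd4 (⟨b, RN, ε, p0, A⟩ : Prm d)
    ⟨hb14, hRN, hε, hε4, hp0, hp1, hA⟩
  obtain ⟨δ', C'', hδ', hδ'I, hδ'C, hC'', HF3⟩ := HF2 d0 Cs CN r0 hd0 hd01 hCs hCN.le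
  have hCδ : C0 * δ' ≤ 1 / 2 := by linarith only [hδ'C]
  refine ⟨M, c0, ε, R0, R, ρ, C'' * Λ + C0 ^ 2 * Λ, b, hb2, hε, hε1, hR0big, hR0R1,
    by rw [hρ]; linarith only [hA], by positivity, ?_⟩
  intro u hu μ hμ s0 hs0 hs01
  set f := fo L u with hf
  have hfc : Continuous f := fo_cont hu
  have hfs : HasCompactSupport f := fo_cs hu
  have hint : 0 ≤ ∫ y, ‖f y‖ := integral_nonneg fun y => norm_nonneg _
  obtain ⟨⟨e, he⟩, hP⟩ := hCG d hd1 M c0 ε hε hε1 b hb2 E f hfc hfs R s0 (by linarith only [hdr, hRtL, hRtH, hRtT, hA, hR200]) hs0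
  obtain ⟨ν, c', hpl⟩ := hP e R0 (by linarith only [hdr, hRtL, hRtH, hRtT, hA]) he.unit
  refine ⟨e, ν, c', he.unit, hpl.unit, fun Q => (hpl.loc Q).trans ?_, ?_⟩
  · refine mul_le_mul_of_nonneg_right (by linarith only []) ?_
    unfold lev; positivity
  have H := HH2 E f hfc hfs μ hμ s0 hs0 e he ν c' hpl γ hγ hγ1
  set a := mC b ε (64 * R0) s0 f with ha
  set al := mC b ε (R0 + 3) s0 f with hal
  set ah := mC b ε (32 * R0) s0 f with hah
  set at' := mT b ε s0 f with hat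
  set D := dC b ε R s0 f e with hD
  set bb' := bC R0 s0 f e ν c' with hbb
  set oml := oC μ ρ s0 with homl
  set v := omC μ s0 with hv
  set TG := tG b ε s0 f with hTG
  set Y := YC b ε s0 f μ ν c' with hY
  -- W with the larger Cu
  have H' : FinH C0 C1R C9 (JA + 9) 3 ρb Nb Cu γ s0 (Λ * ∫ y, ‖f y‖)
      (nst s0 (3 * R0) JA) (nst s0 (3 * R0 + d) (JA + 9)) (NrC p0 A s0 μ) a al ah at' D bb' oml
      (oC μ (ρ + Real.sqrt d) s0) v TG Y (gC b ε (128 * R0) s0 f) := by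
    have hCC : CuH ≤ Cu := le_max_right _ _
    have hcwn : ∀ Q : Cell d, 0 ≤ cw s0 Q := fun Q => cw_nonneg hs0 Q
    refine { H with W := ?_ }
    have W := H.W
    exact ⟨W.s0_pos, W.v0, fun Q => (W.v1 Q).trans hCC, W.oml0,
      fun Q => (W.ov Q).trans (mul_le_mul_of_nonneg_right hCC (W.v0 Q)),
      fun Q hQ => (W.vN Q hQ).trans (mul_le_mul_of_nonneg_right hCC (W.oml0 Q)),
      fun Q hQ Q' hQ' => (W.vA Q hQ Q' hQ').trans (mul_le_mul_of_nonneg_right hCC (W.oml0 Q')),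
      fun Q Q' hQ' => (W.vnb Q Q' hQ').trans (mul_le_mul_of_nonneg_right hCC (W.v0 Q')),
      W.adj_ns, W.self, W.ns_nb, W.ns9, W.lvl,
      fun Q Q' hQ' => (W.cw2 Q Q' hQ').trans (mul_le_mul_of_nonneg_right hCC (hcwn Q)), W.card⟩
  have hC00 : 0 < C0 := by linarith only [hC0]
  -- the worlds
  have hworld : ∀ j : ℕ, ∃ (N val E1 E2 : Cell d → ℝ), j < n →
      LocW s0 γ Cu c1 η (Cr ^ 2) CK (κ1 * (1 / 2) ^ j) δ Cs r0 (nst s0 (3 * R0) JA)
        (NrC p0 A s0 μ) (Strc γ K d0 a at' D) (TyA (κ1 * (1 / 2) ^ j) a D bb') N val v a al ah D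
        bb' at' TG Y E1 E2 ∧
      Summable N ∧ ∑' Q, N Q ≤ CN * (Λ * ∫ y, ‖f y‖) ∧ (∀ Q : Cell d, ¬ 2 ≤ Q.1 → N Q = 0) ∧
      cs univ (fun Q => cw s0 Q * val Q) < ⊤ := by
    intro j
    by_cases hj : j < n
    · have hκm : κ1 * (1 / 2 : ℝ) ^ n ≤ κ1 * (1 / 2) ^ j :=
        mul_le_mul_of_nonneg_left (pow_le_pow_of_le_one (by norm_num) (by norm_num) hj.le) hκ1.le
      have hκM : κ1 * (1 / 2 : ℝ) ^ j ≤ κ0 := by
        have h1 : (1 / 2 : ℝ) ^ j ≤ 1 := pow_le_one₀ (by norm_num) (by norm_num)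
        exact (mul_le_of_le_one_right hκ1.le h1).trans hκ10
      obtain ⟨kd, nv, val, E1, E2, hnv, hfin, hLoc⟩ := HL3 R hRm u hu μ hμ s0 hs0 e he ν c' hpl
        (κ1 * (1 / 2) ^ j) hκm hκM
      obtain ⟨hsum, htot⟩ := HCS E f hfc hfs μ hμ s0 hs0 e kd nv he hnv
      refine ⟨net2 (⟨b, RN, ε, p0, A⟩ : Prm d) s0 μ f e kd nv, val, E1, E2, fun _ =>
        ⟨locW_mono hLoc hs0 (le_max_left _ _) (min_le_left _ _) H.W.v0 H.al0 H.T.D_nonneg
          H.R.b_nonneg, hsum, htot.trans ?_, fun Q hQ => ?_, hfin⟩⟩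
      · exact mul_le_mul_of_nonneg_left (le_mul_of_one_le_left hint hΛ) hCN.le
      · unfold net2; rw [if_neg hQ]
    · exact ⟨0, 0, 0, 0, fun h => absurd h hj⟩
  choose N val E1 E2 hNv using hworld
  -- finiteness of the tops
  have hfin2 : cs (CIII γ κI δ' 9 at' D bb' TG)
      (fun P => cw s0 P * (Y P + bb' (up 9 P) * v P)) < ⊤ := by
    refine (hFF d hd C' hC' μ hμ M c0 ε hε hε1 b hb2 R0 R ρ hR0big hR0R2
      (by rw [hρ]; linarith only [hA]) E f hfc hfs s0 hs0 e he ν c' hpl (CIII γ κI δ' 9 at' D bb' TG)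
      (32 * R0) (2 * C0) (fun P hP => ?_)).2
    obtain ⟨q1, q2, q3, q4, q5⟩ := hP
    have h1 := H.flat P q2
    have h2 : C0 * TG P ≤ 1 / 2 * at' P := by
      have h3 : C0 * TG P ≤ C0 * (δ' * at' P) := mul_le_mul_of_nonneg_left q3 hC00.le
      have h5 : C0 * (δ' * at' P) = (C0 * δ') * at' P := by ring
      have h6 : (C0 * δ') * at' P ≤ 1 / 2 * at' P := mul_le_mul_of_nonneg_right hCδ (H.T.at_nonneg P)
      exact h3.trans (h5.le.trans h6)
    have h4 : at' P ≤ 2 * C0 * ah P := by linarith only [h1, h2]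
    exact h4
  have hmain := HF3 s0 (Λ * ∫ y, ‖f y‖) (nst s0 (3 * R0) JA) (nst s0 (3 * R0 + d) (JA + 9))
    (NrC p0 A s0 μ) a al ah at' D bb' oml (oC μ (ρ + Real.sqrt d) s0) v TG Y
    (gC b ε (128 * R0) s0 f) N val E1 E2 H' (fun P hP i S hi hS hT =>
      HT1 R hRmT u hu μ hμ s0 hs0 e he ν c' hpl κI θ δ' (min_le_left _ _)
        (hθI.trans (min_le_left _ _)) hδ'I P hP i S hi hS hT) hfin2 (fun j hj => hNv j hj)
  -- conclusion
  have hDs := H.T.D_sum
  calc cs {Q : Cell d | 2 ≤ Q.1} (fun Q => cw s0 Q *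
        bD b ε R0 R s0 f Q.1 (xC s0 Q) (e Q) (ν Q) (c' Q) * oC μ ρ s0 Q)
      ≤ cs (L2 d) (fun Q => cw s0 Q * (bb' Q * oml Q) + C0 * (cw s0 Q * D Q)) := by
        refine cs_mono fun Q _ => ?_
        have e1 : bD b ε R0 R s0 f Q.1 (xC s0 Q) (e Q) (ν Q) (c' Q) = bb' Q + D Q := rfl
        rw [e1]
        have h1 := mul_le_mul_of_nonneg_left (H.oml_le Q)
          (mul_nonneg (cw_nonneg hs0 Q) (H.T.D_nonneg Q))
        have e2 : oC μ ρ s0 Q = oml Q := rfl
        rw [e2]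
        linarith only [h1]
    _ = cs (L2 d) (fun Q => cw s0 Q * (bb' Q * oml Q)) +
          ENNReal.ofReal C0 * cs (L2 d) (fun Q => cw s0 Q * D Q) := by
        rw [cs_add (fun Q _ => mul_nonneg (cw_nonneg hs0 Q) (mul_nonneg (H.R.b_nonneg Q)
          (H.T.oml_nonneg Q))) (fun Q _ => mul_nonneg hC00.le (mul_nonneg (cw_nonneg hs0 Q)
          (H.T.D_nonneg Q))), cs_mul hC00.le]
    _ ≤ cs univ (fXF s0 bb' oml) + ENNReal.ofReal C0 * ENNReal.ofReal (C0 * (Λ * ∫ y, ‖f y‖)) := by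
        refine add_le_add ?_ (mul_le_mul_right ((cs_le_univ _ _).trans hDs) _)
        rw [← _root_.TG.Fin.fX_eq (S := L2 d) Subset.rfl]
        exact cs_le_univ _ _
    _ ≤ ENNReal.ofReal (C'' * (Λ * ∫ y, ‖f y‖)) +
          ENNReal.ofReal C0 * ENNReal.ofReal (C0 * (Λ * ∫ y, ‖f y‖)) := add_le_add hmain le_rfl
    _ = ENNReal.ofReal ((C'' * Λ + C0 ^ 2 * Λ) * ∫ y, ‖f y‖) := by
        rw [← ENNReal.ofReal_mul hC00.le, ← ENNReal.ofReal_add (by (clear * - hC'' hΛ; positivity)) (by (clear * - hC0 hΛ; positivity))]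
        ring_nf

end

end TG


end

section

set_option autoImplicit false
set_option linter.unusedSectionVars false
set_option linter.unusedVariables false

/-!
# The main estimate StmtMain   (helper47)
-/

open MeasureTheory Metric Set TrI
open scoped InnerProductSpace ContDiff ENNReal

namespace TG

noncomputable section

variable {d : ℕ}

theorem stmtMain (hBK : StmtBK) (hFA : StmtFA) (hCG : StmtCG) (hCS : StmtCS) (hFH : StmtFH)
    (hLW : StmtLW) (hT2 : StmtT2) (hFF : StmtFF) : StmtMain :=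
  stmtMain0 fin hBK hFA hCG hCS hFH hLW hT2 hFF

end

end TG


end

section

/-!
# Module SHA: the jump identity on one level (MP_287c87_an; helper22)

The field `Φh = cu1 (Φ + z Φ1) + O(z²)` is mapped by the adjoint operator to a field supported in
`4 ≤ |z| ≤ 5`, which is tested against `u` minus averaged Taylor polynomials on the two sides; the
polynomials are integrated by parts over the half spaces.
-/

set_option linter.unusedSectionVars false

open MeasureTheory Metric Set TrI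
open scoped InnerProductSpace ContDiff

namespace TG
namespace SH

/-- tests supported on one side of the plane, against u minus an averaged Taylor polynomial -/
theorem side (hTP : StmtTP) (hZ : StmtZ) (hMA : StmtMA) (hPE : StmtPE)
    (d : ℕ) (V E : Type) [NormedAddCommGroup V] [InnerProductSpace ℝ V] [FiniteDimensional ℝ V]
    [NormedAddCommGroup E] [InnerProductSpace ℝ E] [FiniteDimensional ℝ E]
    (L : (Sp d →L[ℝ] V) →L[ℝ] E) (m : ℕ)
    (T : (ContinuousMultilinearMap ℝ (fun _ : Fin m => Sp d) E) →L[ℝ]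
      (ContinuousMultilinearMap ℝ (fun _ : Fin (m + 1) => Sp d) V)) (hd : 1 ≤ d) (hm : 1 ≤ m)
    (hNS : NSProp L m T) {M c0 ε : ℝ} (hε : 0 < ε) (hε1 : ε ≤ 1) {b : Sp d → ℝ}
    (hb : BaseKer 2 M c0 b) {R0 : ℝ} (hR0 : 100 ≤ R0) : ∃ C : ℝ, 0 < C ∧
    ∀ (R : ℝ), R0 + 10 ≤ R → ∀ (n : ℕ) (u : Sp d → V), TF u → ∀ e : E, ‖e‖ = 1 →
      ∀ (ν : Sp d) (c : ℝ), ‖ν‖ = 1 → |c| ≤ R0 / 3 → ∀ (σ : ℝ), (σ = 1 ∨ σ = -1) →
      ∀ (c1 : Sp d), ‖c1‖ ≤ R0 / 3 + 6 → σ * ht ν c c1 = 6 →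
      ∀ (g : Sp d → V) (N : ℝ), TFn (2 + m + 1) N g →
        (∀ y, g y ≠ 0 → 4 ≤ σ * ht ν c y ∧ ‖y‖ ≤ 5 / 6 * R0 + 7) →
        |∫ y, ⟪u y - ATP m c1 1 u y, g y⟫_ℝ| ≤
          C * N * bD b ε R0 R ((1 / 2) ^ n) (fo L u) n 0 e ν c := by
  obtain ⟨C1, hC1, h1⟩ := hTP d V E L m T hd hm hNS 2 1 R0 one_pos (by linarith)
  obtain ⟨C2, hC2, h2⟩ := off_plane hZ hMA hPE hd hε hε1 hb (by linarith : 10 ≤ R0)
  refine ⟨C2 * C1, by positivity, ?_⟩
  intro R hR n u hu e he ν c hν hc σ hσ c1 hc1 hσ1 g N hg hgs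
  have hf : ContDiff ℝ ∞ (fo L u) := by
    have : ContDiff ℝ ∞ (fderiv ℝ u) := hu.smooth.fderiv_right (m := ∞) le_rfl
    exact L.contDiff.comp this
  have hfs : HasCompactSupport (fo L u) := (hu.supp.fderiv ℝ).comp_left (map_zero _)
  have hσa : |σ| = 1 := by rcases hσ with rfl | rfl <;> simp
  obtain ⟨Y, hY1, hY2, hY3⟩ := h1 c1 1 (by linarith) le_rfl (by linarith) g N hg (fun y hy => by
    by_contra h
    have := (hgs y h).2
    linarith only [hR0, hy, this])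
  rw [hY3 u hu.smooth]
  -- the hull
  set H : Set (Sp d) := {y | 4 ≤ σ * ht ν c y} ∩ closedBall 0 (5 / 6 * R0 + 7) with hH
  have hHc : Convex ℝ H := by
    refine Convex.inter ?_ (convex_closedBall _ _)
    intro x hx y hy a b' ha hb' hab
    have e1 : ht ν c (a • x + b' • y) = a * ht ν c x + b' * ht ν c y := by
      unfold ht
      rw [inner_add_right, inner_smul_right, inner_smul_right]
      have : b' = 1 - a := by linarith only [hab]
      rw [this]
      ring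
    show 4 ≤ σ * ht ν c (a • x + b' • y)
    have hx' : 4 ≤ σ * ht ν c x := hx
    have hy' : 4 ≤ σ * ht ν c y := hy
    rw [e1]
    nlinarith only [hab, ha, hx', hb', hy']
  have hHcl : IsClosed H :=
    (isClosed_le continuous_const (continuous_const.mul (ht_continuous ν c))).inter
      isClosed_closedBall
  have hsub : convexHull ℝ (tsupport g ∪ closedBall c1 1) ⊆ H := by
    refine convexHull_min (union_subset ?_ ?_) hHc
    · refine closure_minimal (fun y hy => ?_) hHcl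
      obtain ⟨q1, q2⟩ := hgs y hy
      exact ⟨q1, by rwa [mem_closedBall_zero_iff]⟩
    · intro y hy
      rw [mem_closedBall, dist_eq_norm] at hy
      have e1 : ht ν c y = ht ν c c1 + ⟪ν, y - c1⟫_ℝ := by
        unfold ht
        rw [inner_sub_right]
        ring
      have e2 : |⟪ν, y - c1⟫_ℝ| ≤ 1 := by
        have := abs_real_inner_le_norm ν (y - c1)
        rw [hν, one_mul] at this
        linarith
      have e3 : |σ * ⟪ν, y - c1⟫_ℝ| ≤ 1 := by rw [abs_mul, hσa, one_mul]; exact e2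
      refine ⟨?_, ?_⟩
      · show 4 ≤ σ * ht ν c y
        rw [e1, mul_add, hσ1]
        have := (abs_le.1 e3).1
        linarith
      · rw [mem_closedBall_zero_iff]
        calc ‖y‖ = ‖(y - c1) + c1‖ := by rw [sub_add_cancel]
          _ ≤ ‖y - c1‖ + ‖c1‖ := norm_add_le _ _
          _ ≤ _ := by linarith
  have h3 := h2 E R hR (fo L u) hf.continuous hfs n e he ν c hν (by linarith) Y (C1 * N) hY1
    (fun y hy => by
      obtain ⟨q1, q2⟩ := hsub (hY2 y hy)
      rw [mem_closedBall_zero_iff] at q2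
      refine ⟨?_, by linarith⟩
      have q3 : σ * ht ν c y ≤ |ht ν c y| := by
        have := le_abs_self (σ * ht ν c y)
        rwa [abs_mul, hσa, one_mul] at this
      exact le_trans q1 q3)
  calc _ ≤ C2 * (C1 * N) * bD b ε R0 R ((1 / 2) ^ n) (fo L u) n 0 e ν c := h3
    _ = _ := by ring

/-- the operator applied to an averaged Taylor polynomial -/
theorem poly_side (hTP : StmtTP) (hZ : StmtZ) (hMA : StmtMA) (hPE : StmtPE)
    (d : ℕ) (V E : Type) [NormedAddCommGroup V] [InnerProductSpace ℝ V] [FiniteDimensional ℝ V]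
    [NormedAddCommGroup E] [InnerProductSpace ℝ E] [FiniteDimensional ℝ E]
    (L : (Sp d →L[ℝ] V) →L[ℝ] E) (m : ℕ)
    (T : (ContinuousMultilinearMap ℝ (fun _ : Fin m => Sp d) E) →L[ℝ]
      (ContinuousMultilinearMap ℝ (fun _ : Fin (m + 1) => Sp d) V)) (hd : 1 ≤ d) (hm : 1 ≤ m)
    (hNS : NSProp L m T) {M c0 ε : ℝ} (hε : 0 < ε) (hε1 : ε ≤ 1) {b : Sp d → ℝ}
    (hb : BaseKer 2 M c0 b) {R0 : ℝ} (hR0 : 100 ≤ R0) : ∃ C : ℝ, 0 < C ∧
    ∀ (R : ℝ), R0 + 10 ≤ R → ∀ (n : ℕ) (u : Sp d → V), TF u → ∀ e : E, ‖e‖ = 1 →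
      ∀ (ν : Sp d) (c : ℝ), ‖ν‖ = 1 → |c| ≤ R0 / 3 → ∀ (σ : ℝ), (σ = 1 ∨ σ = -1) →
      ∀ (c1 : Sp d), ‖c1‖ ≤ R0 / 3 + 6 → σ * ht ν c c1 = 6 →
      ∀ x, ‖x‖ ≤ R0 → ‖fo L (ATP m c1 1 u) x‖ ≤
          C * bD b ε R0 R ((1 / 2) ^ n) (fo L u) n 0 e ν c := by
  obtain ⟨C1, hC1, h1⟩ := side hTP hZ hMA hPE d V E L m T hd hm hNS hε hε1 hb hR0
  obtain ⟨C2, hC2, h2⟩ := off_plane hZ hMA hPE hd hε hε1 hb (by linarith : 10 ≤ R0)
  obtain ⟨C3, hC3, h3⟩ := poly_bd d m (m + 4) (ρ := 1) (R := R0) one_pos (by linarith)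
  set D : ℝ := ‖DL L‖ with hD
  have hD0 : 0 ≤ D := (DL L).opNorm_nonneg
  refine ⟨C3 * (C1 * D + C2), by positivity, ?_⟩
  intro R hR n u hu e he ν c hν hc σ hσ c1 hc1 hσ1 x hx
  have hf : ContDiff ℝ ∞ (fo L u) := by
    have : ContDiff ℝ ∞ (fderiv ℝ u) := hu.smooth.fderiv_right (m := ∞) le_rfl
    exact L.contDiff.comp this
  have hfs : HasCompactSupport (fo L u) := (hu.supp.fderiv ℝ).comp_left (map_zero _)
  have hσa : |σ| = 1 := by rcases hσ with rfl | rfl <;> simp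
  have hDD := DD_nonneg b ε R (fo L u) n he
  have hbD := bD_ge b ε R0 R (fo L u) n e ν c
  have hB0 : 0 ≤ bD b ε R0 R ((1 / 2) ^ n) (fo L u) n 0 e ν c := hDD.trans hbD
  obtain ⟨hP1, hP2, -⟩ := stmtTQ d V m u hd hu.smooth c1 1 one_pos
  set P := ATP m c1 1 u with hP
  have hq1 : ContDiff ℝ ∞ (fo L P) := by
    have : ContDiff ℝ ∞ (fderiv ℝ P) := hP1.fderiv_right (m := ∞) le_rfl
    exact L.contDiff.comp this
  have hq2 : ∀ x, iteratedFDeriv ℝ (m + 1) (fo L P) x = 0 := by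
    intro x
    have e1 : ContDiff ℝ ∞ (fderiv ℝ P) := hP1.fderiv_right (m := ∞) le_rfl
    have e2 := L.norm_iteratedFDeriv_comp_left (e1.contDiffAt (x := x)) (n := m + 1)
      (by exact_mod_cast le_top)
    have e3 : iteratedFDeriv ℝ (m + 2) P x = 0 := by
      ext v
      rw [iteratedFDeriv_succ_apply_left]
      have e4 : iteratedFDeriv ℝ (m + 1) P = fun _ => 0 := funext hP2
      rw [e4]
      simp
    rw [norm_iteratedFDeriv_fderiv, e3, norm_zero, mul_zero] at e2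
    exact norm_le_zero_iff.1 e2
  have h4 := h3 E (fo L P) hq1 hq2 c1 ((C1 * D + C2) *
    bD b ε R0 R ((1 / 2) ^ n) (fo L u) n 0 e ν c) (by linarith) (by (clear * - hC1 hC2 hB0; positivity)) (fun Y N1 hY hYs => by
      have hN1 := tfn_nonneg hY
      have hYc : ContDiff ℝ 1 Y := hY.smooth.of_le (by norm_cast; omega)
      have hYcs : HasCompactSupport Y := by
        refine HasCompactSupport.intro (isCompact_closedBall c1 1) fun y hy => ?_
        rw [mem_closedBall, dist_eq_norm] at hy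
        by_contra h
        exact hy (hYs y h)
      have hball : ∀ y, ‖y - c1‖ ≤ 1 → 5 ≤ σ * ht ν c y ∧ ‖y‖ ≤ R0 / 3 + 7 := by
        intro y hy
        have e1 : ht ν c y = ht ν c c1 + ⟪ν, y - c1⟫_ℝ := by
          unfold ht
          rw [inner_sub_right]
          ring
        have e2 : |⟪ν, y - c1⟫_ℝ| ≤ 1 := by
          have := abs_real_inner_le_norm ν (y - c1)
          rw [hν, one_mul] at this
          linarith
        have e3 : |σ * ⟪ν, y - c1⟫_ℝ| ≤ 1 := by rw [abs_mul, hσa, one_mul]; exact e2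
        refine ⟨?_, ?_⟩
        · rw [e1, mul_add, hσ1]
          have := (abs_le.1 e3).1
          linarith
        · calc ‖y‖ = ‖(y - c1) + c1‖ := by rw [sub_add_cancel]
            _ ≤ ‖y - c1‖ + ‖c1‖ := norm_add_le _ _
            _ ≤ _ := by linarith
      have hYd : TFn (2 + m + 1) (D * N1) (dV L Y) := by
        have := tfn_clm (DL L) (tfn_fderiv (J := m + 3) hY)
        exact tfn_le this (by omega) le_rfl
      have hYds : ∀ y, dV L Y y ≠ 0 → 4 ≤ σ * ht ν c y ∧ ‖y‖ ≤ 5 / 6 * R0 + 7 := by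
        intro y hy
        have e1 : fderiv ℝ Y y ≠ 0 := fun h => hy (by unfold dV; rw [h, map_zero])
        have e2 : y ∈ tsupport Y := support_fderiv_subset ℝ e1
        have e3 : tsupport Y ⊆ closedBall c1 1 := by
          refine closure_minimal (fun z hz => ?_) isClosed_closedBall
          rw [mem_closedBall, dist_eq_norm]
          exact hYs z hz
        have e4 := e3 e2
        rw [mem_closedBall, dist_eq_norm] at e4
        obtain ⟨q1, q2⟩ := hball y e4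
        exact ⟨by linarith, by linarith⟩
      have i1 := ibp_L L (hP1.of_le (by exact_mod_cast le_top)) hYc hYcs
      have i2 := ibp_L L (hu.smooth.of_le (by exact_mod_cast le_top)) hYc hYcs
      have hdc : Continuous (dV L Y) := hYd.smooth.continuous
      have hdcs : HasCompactSupport (dV L Y) := (hYcs.fderiv ℝ).comp_left (map_zero _)
      have j1 : Integrable fun y => ⟪u y, dV L Y y⟫_ℝ :=
        (hu.smooth.continuous.inner hdc).integrable_of_hasCompactSupport (inner_cs_right hdcs)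
      have j2 : Integrable fun y => ⟪P y, dV L Y y⟫_ℝ :=
        (hP1.continuous.inner hdc).integrable_of_hasCompactSupport (inner_cs_right hdcs)
      have e1 : ∫ y, ⟪fo L P y, Y y⟫_ℝ = (∫ y, ⟪u y - P y, dV L Y y⟫_ℝ) +
          ∫ y, ⟪fo L u y, Y y⟫_ℝ := by
        have e2 : ∫ y, ⟪u y - P y, dV L Y y⟫_ℝ = (∫ y, ⟪u y, dV L Y y⟫_ℝ) -
            ∫ y, ⟪P y, dV L Y y⟫_ℝ := by
          rw [← integral_sub j1 j2]
          refine integral_congr_ae (Filter.Eventually.of_forall fun y => ?_)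
          simp only [inner_sub_left]
        rw [i1, e2, i2]
        ring
      have k1 := h1 R hR n u hu e he ν c hν hc σ hσ c1 hc1 hσ1 (dV L Y) (D * N1) hYd hYds
      have k2 := h2 E R hR (fo L u) hf.continuous hfs n e he ν c hν (by linarith) Y N1
        (tfn_le hY (by omega) le_rfl) (fun y hy => by
          obtain ⟨q1, q2⟩ := hball y (hYs y hy)
          have q3 : σ * ht ν c y ≤ |ht ν c y| := by
            have := le_abs_self (σ * ht ν c y)
            rwa [abs_mul, hσa, one_mul] at this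
          exact ⟨by linarith, by linarith⟩)
      rw [e1]
      refine (abs_add_le _ _).trans ((add_le_add k1 k2).trans (le_of_eq ?_))
      ring) x hx
  calc _ ≤ C3 * ((C1 * D + C2) * bD b ε R0 R ((1 / 2) ^ n) (fo L u) n 0 e ν c) := h4
    _ = _ := by ring

/-- the truncated one sided cut-offs -/
theorem thc_bd (σ : ℝ) (J : ℕ) : ∃ A : ℝ, 0 < A ∧
    ContDiff ℝ ∞ (fun t : ℝ => Real.smoothTransition (σ * t) * cu1 6 t) ∧
    ∀ j ≤ J, ∀ t, |iteratedDeriv j (fun t : ℝ => Real.smoothTransition (σ * t) * cu1 6 t) t| ≤ A := by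
  have h1 : ContDiff ℝ ∞ (fun t : ℝ => Real.smoothTransition (σ * t) * cu1 6 t) :=
    (th_contDiff σ).mul (cu1_contDiff le_rfl (by norm_num))
  obtain ⟨A, hA, h2⟩ := line_bd h1 (cu1_cs 6).mul_left J
  exact ⟨A, hA, h1, h2⟩

/-- one sided parts of the image field -/
theorem part_tfn {d : ℕ} {V : Type} [NormedAddCommGroup V] [InnerProductSpace ℝ V] {σ A : ℝ} {J : ℕ}
    (h1 : ContDiff ℝ ∞ (fun t : ℝ => Real.smoothTransition (σ * t) * cu1 6 t))
    (h2 : ∀ j ≤ J, ∀ t,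
      |iteratedDeriv j (fun t : ℝ => Real.smoothTransition (σ * t) * cu1 6 t) t| ≤ A)
    {ν : Sp d} (hν : ‖ν‖ = 1) {c N : ℝ} {g : Sp d → V} (hg : TFn J N g)
    (hgs : ∀ y, g y ≠ 0 → |ht ν c y| ≤ 5) :
    TFn J (2 ^ J * A * N) (fun y => Real.smoothTransition (σ * ht ν c y) • g y) := by
  have h3 := tfn_htmul (h1.of_le (nat_le_inf J)) h2 hν c hg
  have h4 : (fun y => (Real.smoothTransition (σ * ht ν c y) * cu1 6 (ht ν c y)) • g y) =
      fun y => Real.smoothTransition (σ * ht ν c y) • g y := by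
    funext y
    by_cases h5 : g y = 0
    · rw [h5, smul_zero, smul_zero]
    · rw [cu1_one (by linarith [hgs y h5]), mul_one]
  rw [h4] at h3
  exact h3

end SH

open _root_.TG.SH in
theorem stmtSHA (hTP : StmtTP) (hZ : StmtZ) (hMA : StmtMA) (hPE : StmtPE) (hPF : StmtPF) :
    StmtSHA := by
  intro d V E _ _ _ _ _ _ L n0 T hd2 hn0 hC hNS
  refine ⟨n0 + 5, ?_⟩
  intro M c0 ε hε hε1 b hb R0 hR0
  have hd : 1 ≤ d := by omega
  obtain ⟨Cf, hCf, hfield⟩ := field L hC n0 T hNS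
  obtain ⟨Cs, hCs, hside⟩ := side hTP hZ hMA hPE d V E L n0 T hd hn0 hNS hε hε1 hb hR0
  obtain ⟨Cp, hCp, hpoly⟩ := poly_side hTP hZ hMA hPE d V E L n0 T hd hn0 hNS hε hε1 hb hR0
  obtain ⟨Cq, hCq, hquad⟩ := quad hZ hd hε hε1 hb (by linarith : 1 ≤ R0)
  obtain ⟨Ce, hCe, hperp⟩ := perp hPE hd hε hε1 hb
  obtain ⟨CF, hCF, hpl⟩ := (hPF d hd).1 (R0 / 2)
  obtain ⟨A1, hA1, a11, a12⟩ := thc_bd 1 (2 + n0 + 1)
  obtain ⟨A2, hA2, a21, a22⟩ := thc_bd (-1) (2 + n0 + 1)
  refine ⟨6 * CF * Cp * Cf + 6 * CF * Cp * Cf + Cs * (2 ^ (2 + n0 + 1) * A1 * Cf) +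
    Cs * (2 ^ (2 + n0 + 1) * A2 * Cf) + Cq * Cf + Ce * Cf + Ce * Cf, by (clear * - hCF hCp hCf hCs hA1 hA2 hCq hCe; positivity), ?_⟩
  intro R hR n u hu e he ν c hν hc ve hve Φ N hΦ hcyl
  obtain ⟨Φh, X, g, hF⟩ := hfield ν hν c (R0 / 2) Φ N hΦ hcyl.const hcyl.supp
  have hN := tfn_nonneg hΦ
  set N' : ℝ := Cf * N with hN'
  have hN'0 : 0 ≤ N' := by positivity
  have hf : ContDiff ℝ ∞ (fo L u) := by
    have : ContDiff ℝ ∞ (fderiv ℝ u) := hu.smooth.fderiv_right (m := ∞) le_rfl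
    exact L.contDiff.comp this
  have hfs : HasCompactSupport (fo L u) := (hu.supp.fderiv ℝ).comp_left (map_zero _)
  have hfc : Continuous (fo L u) := hf.continuous
  have huc : Continuous u := hu.smooth.continuous
  have hDD := DD_nonneg b ε R (fo L u) n he
  have hbD := bD_ge b ε R0 R (fo L u) n e ν c
  set B : ℝ := bD b ε R0 R ((1 / 2) ^ n) (fo L u) n 0 e ν c with hB
  have hB0 : 0 ≤ B := hDD.trans hbD
  have hΦh1 : ContDiff ℝ 1 Φh := hF.tf.smooth.of_le (by norm_cast)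
  have hΦhs : HasCompactSupport Φh := cyl_cs hν hF.fs
  have hΦhc : Continuous Φh := hΦh1.continuous
  have hXc : Continuous X := hF.tx.smooth.continuous
  have hgc : Continuous g := hF.tg.smooth.continuous
  have hgs : HasCompactSupport g := cyl_cs hν (fun y hy => (hF.gs y hy).1)
  have hcylR : ∀ y ∈ cyl ν c 5 (R0 / 2), ‖y‖ ≤ 5 / 6 * R0 + 5 := by
    intro y hy
    have := norm_le_tang hν c y
    linarith [hy.1, hy.2]
  -- (4), (5): the identity for the pairing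
  set gp : Sp d → V := fun y => Real.smoothTransition (1 * ht ν c y) • g y with hgp
  set gm : Sp d → V := fun y => Real.smoothTransition (-1 * ht ν c y) • g y with hgm
  have hgsum : ∀ y, g y = gp y + gm y := by
    intro y
    by_cases h5 : g y = 0
    · simp only [hgp, hgm, h5, smul_zero, add_zero]
    · have h6 := (hF.gs y h5).2
      simp only [hgp, hgm]
      rcases le_total 0 (ht ν c y) with h7 | h7
      · rw [abs_of_nonneg h7] at h6
        rw [Real.smoothTransition.one_of_one_le (by linarith : 1 ≤ 1 * ht ν c y),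
          Real.smoothTransition.zero_of_nonpos (by linarith : -1 * ht ν c y ≤ 0), one_smul,
          zero_smul, add_zero]
      · rw [abs_of_nonpos h7] at h6
        rw [Real.smoothTransition.one_of_one_le (by linarith : 1 ≤ -1 * ht ν c y),
          Real.smoothTransition.zero_of_nonpos (by linarith : 1 * ht ν c y ≤ 0), one_smul,
          zero_smul, zero_add]
  have hgt : TFn (2 + n0 + 1) N' g := tfn_le hF.tg (by omega) le_rfl
  have hg5 : ∀ y, g y ≠ 0 → |ht ν c y| ≤ 5 := fun y hy => (hF.gs y hy).1.1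
  have hgpt : TFn (2 + n0 + 1) (2 ^ (2 + n0 + 1) * A1 * N') gp := part_tfn a11 a12 hν hgt hg5
  have hgmt : TFn (2 + n0 + 1) (2 ^ (2 + n0 + 1) * A2 * N') gm := part_tfn a21 a22 hν hgt hg5
  have hgps : HasCompactSupport gp := hgs.smul_left
  have hgms : HasCompactSupport gm := hgs.smul_left
  have hgpn : ∀ y, gp y ≠ 0 → 4 ≤ 1 * ht ν c y ∧ ‖y‖ ≤ 5 / 6 * R0 + 7 := by
    intro y hy
    have h5 : g y ≠ 0 := fun h => hy (by simp only [hgp]; rw [h, smul_zero])
    obtain ⟨h6, h7⟩ := hF.gs y h5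
    have h8 : 0 < ht ν c y := by
      by_contra h9
      push Not at h9
      apply hy
      simp only [hgp]
      rw [Real.smoothTransition.zero_of_nonpos (by linarith), zero_smul]
    rw [abs_of_pos h8] at h7
    exact ⟨by linarith, by linarith only [hcylR y h6]⟩
  have hgmn : ∀ y, gm y ≠ 0 → 4 ≤ -1 * ht ν c y ∧ ‖y‖ ≤ 5 / 6 * R0 + 7 := by
    intro y hy
    have h5 : g y ≠ 0 := fun h => hy (by simp only [hgm]; rw [h, smul_zero])
    obtain ⟨h6, h7⟩ := hF.gs y h5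
    have h8 : ht ν c y < 0 := by
      by_contra h9
      push Not at h9
      apply hy
      simp only [hgm]
      rw [Real.smoothTransition.zero_of_nonpos (by linarith), zero_smul]
    rw [abs_of_neg h8] at h7
    exact ⟨by linarith, by linarith [hcylR y h6]⟩
  -- the polynomials
  set cp : Sp d := c • ν + (6 * (1 : ℝ)) • ν with hcp
  set cm : Sp d := c • ν - (6 * (1 : ℝ)) • ν with hcm
  have hνν : ⟪ν, ν⟫_ℝ = 1 := by rw [real_inner_self_eq_norm_sq, hν, one_pow]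
  have hcp1 : ‖cp‖ ≤ R0 / 3 + 6 := by
    refine (norm_add_le _ _).trans ?_
    rw [norm_smul, norm_smul, hν, Real.norm_eq_abs, Real.norm_eq_abs]
    have : |(6 * (1 : ℝ))| = 6 := by norm_num
    rw [this]
    linarith
  have hcm1 : ‖cm‖ ≤ R0 / 3 + 6 := by
    refine (norm_sub_le _ _).trans ?_
    rw [norm_smul, norm_smul, hν, Real.norm_eq_abs, Real.norm_eq_abs]
    have : |(6 * (1 : ℝ))| = 6 := by norm_num
    rw [this]
    linarith
  have hcp2 : 1 * ht ν c cp = 6 := by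
    simp only [hcp, ht, inner_add_right, inner_smul_right, hνν]
    ring
  have hcm2 : -1 * ht ν c cm = 6 := by
    simp only [hcm, ht, inner_sub_right, inner_smul_right, hνν]
    ring
  set Pp := ATP n0 cp 1 u with hPp
  set Pm := ATP n0 cm 1 u with hPm
  have hPp1 : ContDiff ℝ ∞ Pp := (stmtTQ d V n0 u hd hu.smooth cp 1 one_pos).1
  have hPm1 : ContDiff ℝ ∞ Pm := (stmtTQ d V n0 u hd hu.smooth cm 1 one_pos).1
  have hsp := hside R hR n u hu e he ν c hν hc 1 (Or.inl rfl) cp hcp1 hcp2 gp _ hgpt hgpn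
  have hsm := hside R hR n u hu e he ν c hν hc (-1) (Or.inr rfl) cm hcm1 hcm2 gm _ hgmt hgmn
  have hqp := hpoly R hR n u hu e he ν c hν hc 1 (Or.inl rfl) cp hcp1 hcp2
  have hqm := hpoly R hR n u hu e he ν c hν hc (-1) (Or.inr rfl) cm hcm1 hcm2
  have hup := upper hPF hd L hν hF hPp1
  have hlo := lower_half hPF hd L hν hF hPm1
  -- bounds of the plane integrals
  have hplb : ∀ P : Sp d → V, ContDiff ℝ ∞ P → (∀ x, ‖x‖ ≤ R0 → ‖fo L P x‖ ≤ Cp * B) →
      ∀ s, ‖plInt ν s (fun y => ⟪fo L P y, Φh y⟫_ℝ)‖ ≤ CF * (Cp * B * N') := by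
    intro P hP hPb s
    have hP1 : ContDiff ℝ 1 P := hP.of_le (by exact_mod_cast le_top)
    have hfoc : Continuous (fo L P) := L.continuous.comp (hP1.continuous_fderiv (by simp))
    rw [Real.norm_eq_abs]
    refine hpl ν hν _ _ (hfoc.inner hΦhc) (fun y => ?_) (fun y hy => ?_) s
    · by_cases h5 : Φh y = 0
      · rw [h5, inner_zero_right, abs_zero]
        (clear * - hCp hB0 hCf hN; positivity)
      · have h6 := hcylR y (hF.fs y h5)
        refine (abs_real_inner_le_norm _ _).trans ?_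
        exact mul_le_mul (hPb y (by linarith only [hR0, h6])) (tfn_norm_le hF.tf y) (norm_nonneg _)
          (by positivity)
    · have h5 : Φh y ≠ 0 := fun h => hy (by rw [h, inner_zero_right])
      exact (hF.fs y h5).2
  have hJp : |∫ s in c..(c + 6), plInt ν s (fun y => ⟪fo L Pp y, Φh y⟫_ℝ)| ≤
      CF * (Cp * B * N') * 6 := by
    have := intervalIntegral.norm_integral_le_of_norm_le_const (a := c) (b := c + 6)
      (f := fun s => plInt ν s (fun y => ⟪fo L Pp y, Φh y⟫_ℝ)) (C := CF * (Cp * B * N'))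
      (fun s _ => hplb Pp hPp1 hqp s)
    rw [Real.norm_eq_abs, add_sub_cancel_left, abs_of_pos (by norm_num : (0 : ℝ) < 6)] at this
    exact this
  have hJm : |∫ s in (c - 6)..c, plInt ν s (fun y => ⟪fo L Pm y, Φh y⟫_ℝ)| ≤
      CF * (Cp * B * N') * 6 := by
    have := intervalIntegral.norm_integral_le_of_norm_le_const (a := c - 6) (b := c)
      (f := fun s => plInt ν s (fun y => ⟪fo L Pm y, Φh y⟫_ℝ)) (C := CF * (Cp * B * N'))
      (fun s _ => hplb Pm hPm1 hqm s)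
    have h6 : c - (c - 6) = (6 : ℝ) := by ring
    rw [Real.norm_eq_abs, h6, abs_of_pos (by norm_num : (0 : ℝ) < 6)] at this
    exact this
  -- the jump
  have hjump : plInt ν c (fun y => ⟪L (rk1 ν (JJ n0 ν (c • ν) 1 u y)), Φ y⟫_ℝ) =
      plInt ν c (fun y => ⟪L (rk1 ν (Pp y)), Φ y⟫_ℝ) -
        plInt ν c (fun y => ⟪L (rk1 ν (Pm y)), Φ y⟫_ℝ) := by
    have e1 : ∀ P : Sp d → V, plInt ν c (fun y => ⟪L (rk1 ν (P y)), Φ y⟫_ℝ) =
        plInt ν c (fun y => ⟪L (rk1 ν (P y)), Φh y⟫_ℝ) := fun P =>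
      pl_congr hν c c fun y hy => by rw [hF.on y (by rw [hy, sub_self])]
    rw [e1, e1, e1]
    have c1 := (pair_contDiff L ν (hPp1.of_le (by exact_mod_cast le_top)) hΦh1).continuous
    have c2 := (pair_contDiff L ν (hPm1.of_le (by exact_mod_cast le_top)) hΦh1).continuous
    rw [← pl_sub c1 (pair_supp L ν hΦhs) c2 (pair_supp L ν hΦhs)]
    congr 1
    funext y
    rw [← inner_sub_left]
    congr 1
    have e2 : JJ n0 ν (c • ν) 1 u y = Pp y - Pm y := rfl
    rw [e2, ← AL_apply, map_sub]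
    rfl
  -- the pairing with the field
  have hI : ∫ y, ⟪fo L u y, Φh y⟫_ℝ = -(∫ y, ⟪u y, gp y⟫_ℝ) - ∫ y, ⟪u y, gm y⟫_ℝ := by
    have e1 := ibp_L L (hu.smooth.of_le (by exact_mod_cast le_top)) hΦh1 hΦhs
    rw [e1]
    have j1 : Integrable fun y => ⟪u y, gp y⟫_ℝ :=
      (huc.inner hgpt.smooth.continuous).integrable_of_hasCompactSupport (inner_cs_right hgps)
    have j2 : Integrable fun y => ⟪u y, gm y⟫_ℝ :=
      (huc.inner hgmt.smooth.continuous).integrable_of_hasCompactSupport (inner_cs_right hgms)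
    have e2 : ∫ y, ⟪u y, dV L Φh y⟫_ℝ = (∫ y, ⟪u y, gp y⟫_ℝ) + ∫ y, ⟪u y, gm y⟫_ℝ := by
      rw [← integral_add j1 j2]
      refine integral_congr_ae (Filter.Eventually.of_forall fun y => ?_)
      simp only
      rw [hF.eq, hgsum y, inner_add_right]
    rw [e2]
    ring
  have hup2 : ∫ y, ⟪u y, gp y⟫_ℝ = (∫ y, ⟪u y - Pp y, gp y⟫_ℝ) + ∫ y, ⟪Pp y, gp y⟫_ℝ := by
    rw [← integral_add]
    · refine integral_congr_ae (Filter.Eventually.of_forall fun y => ?_)
      simp only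
      rw [← inner_add_left, sub_add_cancel]
    · exact ((huc.sub hPp1.continuous).inner
        hgpt.smooth.continuous).integrable_of_hasCompactSupport (inner_cs_right hgps)
    · exact (hPp1.continuous.inner
        hgpt.smooth.continuous).integrable_of_hasCompactSupport (inner_cs_right hgps)
  have hlo2 : ∫ y, ⟪u y, gm y⟫_ℝ = (∫ y, ⟪u y - Pm y, gm y⟫_ℝ) + ∫ y, ⟪Pm y, gm y⟫_ℝ := by
    rw [← integral_add]
    · refine integral_congr_ae (Filter.Eventually.of_forall fun y => ?_)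
      simp only
      rw [← inner_add_left, sub_add_cancel]
    · exact ((huc.sub hPm1.continuous).inner
        hgmt.smooth.continuous).integrable_of_hasCompactSupport (inner_cs_right hgms)
    · exact (hPm1.continuous.inner
        hgmt.smooth.continuous).integrable_of_hasCompactSupport (inner_cs_right hgms)
  -- the left side
  have hsplit := split hfc hfs e hΦhc
  have hdvc : Continuous fun y => dvE L Φ ve y := by
    have e1 : (fun y => dvE L Φ ve y) = fun y => ⟪ve, dV L Φ y⟫_ℝ :=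
      funext fun y => (inner_dV L Φ ve y).symm
    rw [e1]
    have e2 : Continuous (fderiv ℝ Φ) := hΦ.smooth.continuous_fderiv (by simp)
    exact continuous_const.inner ((DL L).continuous.comp e2)
  have hΦc : Continuous Φ := hΦ.smooth.continuous
  have hcuc : Continuous fun y => cu1 4 (ht ν c y) :=
    (cu1_contDiff (k := 0) (by simp) (by norm_num)).continuous.comp (ht_continuous ν c)
  have hmain : ∫ y, ⟪fo L u y, e⟫_ℝ * ⟪e, Φh y⟫_ℝ =
      (∫ y, ⟪fo L u y, e⟫_ℝ * (cu1 4 (ht ν c y) * (⟪e, Φ y⟫_ℝ - ht ν c y * dvE L Φ ve y))) +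
        ∫ y, ⟪fo L u y, e⟫_ℝ * ⟪e, X y⟫_ℝ := by
    rw [← integral_add]
    · refine integral_congr_ae (Filter.Eventually.of_forall fun y => ?_)
      simp only
      rw [hF.pair e ve hve, mul_add]
    · exact int_mul hfc hfs e (hcuc.mul ((continuous_const.inner hΦc).sub
        ((ht_continuous ν c).mul hdvc)))
    · exact int_mul hfc hfs e (continuous_const.inner hXc)
  have hwX : TFn 2 N' (fun y => ⟪e, X y⟫_ℝ) := by
    have := tfn_clm (innerSL ℝ e) hF.tx
    rwa [innerSL_apply_norm, he, one_mul] at this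
  have hq := hquad E R hR (fo L u) hfc hfs n e he ν c hν (by linarith only [hR0, hc]) _ N' hwX (fun y => by
    refine (abs_real_inner_le_norm _ _).trans ?_
    rw [he, one_mul]
    exact hF.xq y) (fun y hy => by
    by_cases h5 : X y = 0
    · rw [h5, inner_zero_right]
    · have := hcylR y (hF.xs y h5)
      exfalso
      linarith only [hR0, hy, this])
  have hpe := hperp E R (by linarith only [hR0, hR]) (fo L u) hfc hfs n e he Φh N' (ball 0 R0)
    measurableSet_ball hF.tf (fun y hy => by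
      by_contra h5
      have := hcylR y (hF.fs y h5)
      linarith only [hR0, hR, hy, this]) (fun y z hy hz => by
      have h6 := hcylR y (hF.fs y hy)
      rw [mem_ball_zero_iff]
      calc ‖z‖ = ‖(z - y) + y‖ := by rw [sub_add_cancel]
        _ ≤ ‖z - y‖ + ‖y‖ := norm_add_le _ _
        _ < R0 := by linarith only [hR0, hz, h6])
  rw [← ma_unit] at hpe
  set S : ℝ := Real.sqrt (ma b ε R0 ((1 / 2) ^ n) (fo L u) n 0 *
    DD b ε R ((1 / 2) ^ n) (fo L u) n 0 e) with hS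
  have hS0 : 0 ≤ S := Real.sqrt_nonneg _
  set Dd : ℝ := DD b ε R ((1 / 2) ^ n) (fo L u) n 0 e with hDd
  have hCD : Ce * N' * (S + Dd) ≤ Ce * N' * (S + B) := by gcongr
  -- conclusion
  have hup' : (∫ y, ⟪Pp y, gp y⟫_ℝ) = -plInt ν c (fun y => ⟪L (rk1 ν (Pp y)), Φ y⟫_ℝ) -
        ∫ s in c..(c + 6), plInt ν s (fun y => ⟪fo L Pp y, Φh y⟫_ℝ) := hup
  have hlo' : (∫ y, ⟪Pm y, gm y⟫_ℝ) = plInt ν c (fun y => ⟪L (rk1 ν (Pm y)), Φ y⟫_ℝ) -
        ∫ s in (c - 6)..c, plInt ν s (fun y => ⟪fo L Pm y, Φh y⟫_ℝ) := hlo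
  rw [hjump]
  rw [abs_le] at hsp hsm hJp hJm hq hpe ⊢
  have hcons : (6 * CF * Cp * Cf + 6 * CF * Cp * Cf + Cs * (2 ^ (2 + n0 + 1) * A1 * Cf) +
      Cs * (2 ^ (2 + n0 + 1) * A2 * Cf) + Cq * Cf + Ce * Cf + Ce * Cf) * N * (B + S) =
      CF * (Cp * B * N') * 6 + CF * (Cp * B * N') * 6 + Cs * (2 ^ (2 + n0 + 1) * A1 * N') * B +
      Cs * (2 ^ (2 + n0 + 1) * A2 * N') * B + Cq * N' * B + Ce * N' * (S + B) +
      ((6 * CF * Cp * Cf + 6 * CF * Cp * Cf + Cs * (2 ^ (2 + n0 + 1) * A1 * Cf) +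
      Cs * (2 ^ (2 + n0 + 1) * A2 * Cf) + Cq * Cf + Ce * Cf) * N * S + Ce * Cf * N * B) := by
    rw [hN']
    ring
  have hex : 0 ≤ (6 * CF * Cp * Cf + 6 * CF * Cp * Cf + Cs * (2 ^ (2 + n0 + 1) * A1 * Cf) +
      Cs * (2 ^ (2 + n0 + 1) * A2 * Cf) + Cq * Cf + Ce * Cf) * N * S + Ce * Cf * N * B := by
    (clear * - hCF hCp hCf hCs hA1 hA2 hCq hCe hN hB0; positivity)
  rw [hcons]
  constructor
  · linarith only [hsp, hsm, hup, hlo, hJp, hJm, hI, hup2, hlo2, hsplit, hmain, hq, hpe, hCD, hex]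
  · linarith only [hsp, hsm, hup, hlo, hJp, hJm, hI, hup2, hlo2, hsplit, hmain, hq, hpe, hCD, hex]

end TG


end
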