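import Mathlib
import Pool.Agent.TRM.C02
import Pool.Agent.TRM.C10
import Pool.Agent.TRM.C13
import Pool.Agent.TRM.C15
import Pool.Agent.TRM.C17

/-! Parts: TG.P3 -/

section

/-!
# Trace inequality, general operators: module P3   (helper18)

Case A2: a large gain on the sheet at some scale bounds the total sheet mass.
-/

open MeasureTheory Metric Set TrI
open scoped InnerProductSpace ContDiff ENNReal

namespace TG

noncomputable section

namespace P3m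

variable {d : ℕ}

/-- uniform constants for finitely many scales -/
lemma unif {P : ℕ → ℝ → Prop} (hm : ∀ i a b, a ≤ b → P i a → P i b) (h : ∀ i, ∃ C, P i C)
    (N : ℕ) : ∃ C : ℝ, 1 ≤ C ∧ ∀ i ≤ N, P i C := by
  choose f hf using h
  refine ⟨1 + ∑ i ∈ Finset.range (N + 1), |f i|, ?_, ?_⟩
  · have : 0 ≤ ∑ i ∈ Finset.range (N + 1), |f i| := Finset.sum_nonneg fun i _ => abs_nonneg _
    linarith
  · intro i hi
    refine hm i (f i) _ ?_ (hf i)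
    have h1 : |f i| ≤ ∑ i ∈ Finset.range (N + 1), |f i| :=
      Finset.single_le_sum (f := fun i => |f i|) (fun i _ => abs_nonneg _)
        (Finset.mem_range.2 (by omega))
    linarith [le_abs_self (f i)]

/-- Harnack for the weights -/
lemma harn (hd : 2 ≤ d) {C' r : ℝ} (hC' : 0 < C') (hr : 0 ≤ r) (JA : ℕ) :
    ∃ C : ℝ, 1 ≤ C ∧ ∀ i ≤ JA, ∀ μ : Measure (Sp d), Gro C' μ → ∀ s0 : ℝ, 0 < s0 →
      ∀ Q Q' : Cell d, Q'.1 = Q.1 + i → ‖xC s0 Q' - xC s0 Q‖ ≤ r * lev s0 Q'.1 →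
        omC μ s0 Q' ≤ C * omC μ s0 Q ∧ omC μ s0 Q ≤ C * omC μ s0 Q' := by
  refine unif (P := fun i C => ∀ μ : Measure (Sp d), Gro C' μ → ∀ s0 : ℝ, 0 < s0 →
      ∀ Q Q' : Cell d, Q'.1 = Q.1 + i → ‖xC s0 Q' - xC s0 Q‖ ≤ r * lev s0 Q'.1 →
        omC μ s0 Q' ≤ C * omC μ s0 Q ∧ omC μ s0 Q ≤ C * omC μ s0 Q') ?_ ?_ JA
  · intro i a b hab h μ hμ s0 hs0 Q Q' h1 h2
    obtain ⟨h3, h4⟩ := h μ hμ s0 hs0 Q Q' h1 h2
    have h5 : 0 ≤ omC μ s0 Q := Real.sqrt_nonneg _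
    have h6 : 0 ≤ omC μ s0 Q' := Real.sqrt_nonneg _
    exact ⟨h3.trans (by gcongr), h4.trans (by gcongr)⟩
  · intro i
    obtain ⟨C, hC, h⟩ := stmtCT7 d hd C' 1 1 r hC' one_pos le_rfl le_rfl hr i
    exact ⟨C, fun μ hμ s0 hs0 Q Q' h1 h2 => (h μ hμ s0 hs0).2.2.1 Q Q' h1 h2⟩

/-- the gain functional at the scale 2^i -/
lemma XXb (hWA : StmtWA) (hd : 2 ≤ d) {M C' ε r : ℝ} (hC' : 0 < C') (hε : 0 < ε) (hε1 : ε ≤ 1)
    (hr : 0 ≤ r) (JA : ℕ) :
    ∃ C : ℝ, 0 < C ∧ ∀ i ≤ JA, ∀ β : Sp d → ℝ, Kit 4 M β → ∀ μ : Measure (Sp d), Gro C' μ →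
      ∀ n : Sp d, ‖n‖ = 1 → Continuous (XX β ε μ n (2 ^ i)) ∧ (∀ x, 0 ≤ XX β ε μ n (2 ^ i) x) ∧
        ∀ x, ‖x‖ ≤ r * 2 ^ i → XX β ε μ n (2 ^ i) x ≤ C * vv μ 1 0 := by
  obtain ⟨C, hC, h⟩ := hWA d 0 hd M C' ε hC' hε hε1
  have hd1 : 1 ≤ d := by omega
  refine ⟨C * ((1 + r) ^ d * 2 ^ JA), by positivity, ?_⟩
  intro i hi β hβ μ hμ n hn
  have hfin := hμ.fin
  have ht : (0 : ℝ) < 2 ^ i := by positivity
  obtain ⟨hG, -, hv, -, hX⟩ := (stmtSC d hd C' hC' 0 (2 ^ i) ht).1 μ hμ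
  obtain ⟨-, -, -, -, h4⟩ := h β hβ _ hG
  obtain ⟨h5, h6, h7, -⟩ := h4 n hn
  have hXX : ∀ x, XX β ε μ n (2 ^ i) x =
      XX β ε (rsm 0 (2 ^ i) μ) n 1 ((1 / 2 ^ i : ℝ) • x) := by
    intro x
    have := (hX 4 M β hβ (by norm_num) ε hε hε1 1 ((1 / 2 ^ i : ℝ) • x) one_pos).2.2.1 n
    rw [this, mul_one, zero_add, smul_smul, mul_one_div, div_self ht.ne', one_smul]
  have hvv : ∀ x, vv (rsm 0 (2 ^ i) μ) 1 ((1 / 2 ^ i : ℝ) • x) = vv μ (2 ^ i) x := by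
    intro x
    rw [hv 1 _ one_pos, mul_one, zero_add, smul_smul, mul_one_div, div_self ht.ne', one_smul]
  refine ⟨?_, ?_, ?_⟩
  · have h8 : XX β ε μ n (2 ^ i) = fun x => XX β ε (rsm 0 (2 ^ i) μ) n 1 ((1 / 2 ^ i : ℝ) • x) :=
      funext hXX
    rw [h8]
    exact h5.continuous.comp (by fun_prop)
  · intro x
    rw [hXX]
    exact h6 _
  · intro x hx
    have h8 := h7 0 le_rfl ((1 / 2 ^ i : ℝ) • x)
    rw [norm_iteratedFDeriv_zero, hvv, ← hXX, Real.norm_eq_abs] at h8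
    have h9 : vv μ (2 ^ i) x ≤ (1 + r) ^ d * 2 ^ JA * vv μ 1 0 := by
      have h10 := CT7.th_harnack hd1 μ ht 0 x
      have h11 := CT7.th_up hd1 μ one_pos i (0 : Sp d)
      rw [one_mul] at h11
      have h12 : (1 + ‖0 - x‖ / 2 ^ i) ^ d ≤ (1 + r) ^ d := by
        rw [zero_sub, norm_neg]
        gcongr
        rw [div_le_iff₀ ht]
        exact hx
      have h13 : (2 : ℝ) ^ i ≤ 2 ^ JA := pow_le_pow_right₀ (by norm_num) hi
      have h14 : 0 ≤ th μ 1 (0 : Sp d) := CT7.th_nonneg μ one_pos 0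
      have h15 : 0 ≤ th μ (2 ^ i) (0 : Sp d) := CT7.th_nonneg μ ht 0
      have h16 : th μ (2 ^ i) x ≤ ((1 + r) ^ d * 2 ^ JA) * th μ 1 0 := by
        calc th μ (2 ^ i) x ≤ (1 + ‖0 - x‖ / 2 ^ i) ^ d * th μ (2 ^ i) 0 := h10
          _ ≤ (1 + r) ^ d * (2 ^ JA * th μ 1 0) := by
            gcongr
            exact h11.trans (by gcongr)
          _ = _ := by ring
      have h17 : (1 : ℝ) ≤ (1 + r) ^ d * 2 ^ JA := by
        have a1 : (1 : ℝ) ≤ (1 + r) ^ d := one_le_pow₀ (by linarith)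
        have a2 : (1 : ℝ) ≤ 2 ^ JA := one_le_pow₀ (by norm_num)
        nlinarith
      set K : ℝ := (1 + r) ^ d * 2 ^ JA with hK
      have h18 : th μ (2 ^ i) x ≤ K ^ 2 * th μ 1 0 := by
        refine h16.trans ?_
        have : K ≤ K ^ 2 := by nlinarith only [h17]
        gcongr
      unfold vv
      calc Real.sqrt (th μ (2 ^ i) x) ≤ Real.sqrt (K ^ 2 * th μ 1 0) := Real.sqrt_le_sqrt h18
        _ = K * Real.sqrt (th μ 1 0) := by
          rw [Real.sqrt_mul (by positivity), Real.sqrt_sq (by linarith)]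
    calc XX β ε μ n (2 ^ i) x ≤ |XX β ε μ n (2 ^ i) x| := le_abs_self _
      _ ≤ C * vv μ (2 ^ i) x := h8
      _ ≤ C * ((1 + r) ^ d * 2 ^ JA * vv μ 1 0) := by gcongr
      _ = _ := by ring

lemma chia_supp (hd : 1 ≤ d) {i : ℕ} {t x : Sp d} (h : chi (((1 / 2 : ℝ) ^ i) • (x - t)) ≠ 0) :
    ‖x - t‖ ≤ d * 2 ^ i := by
  by_contra h1
  apply h
  refine PTm.chi_supp ?_ hd
  rw [norm_smul, Real.norm_of_nonneg (by positivity)]
  push Not at h1
  have h2 : (1 / 2 : ℝ) ^ i * 2 ^ i = 1 := by rw [← mul_pow]; norm_num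
  have h3 : (0 : ℝ) < (1 / 2) ^ i := by positivity
  nlinarith

lemma chia_cont (i : ℕ) (t : Sp d) :
    Continuous fun x : Sp d => chi (((1 / 2 : ℝ) ^ i) • (x - t)) :=
  PTm.chi_contDiff.continuous.comp (by fun_prop)

lemma zR_cont (ρ : ℝ) : Continuous (zR ρ : Sp d → ℝ) := by
  unfold zR
  exact Real.smoothTransition.continuous.comp (by fun_prop)

lemma zR_zero {ρ : ℝ} {x : Sp d} (h : ρ + 1 ≤ ‖x‖) : zR ρ x = 0 :=
  Real.smoothTransition.zero_of_nonpos (by linarith)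

lemma int_chia (hd : 1 ≤ d) {n : Sp d} (hn : ‖n‖ = 1) (s : ℝ) {F : Sp d → ℝ} (hF : Continuous F)
    (i : ℕ) (t : Sp d) : Integrable (fun y : (Submodule.span ℝ {n})ᗮ =>
      chi (((1 / 2 : ℝ) ^ i) • (s • n + (y : Sp d) - t)) * F (s • n + (y : Sp d))) := by
  refine PF.integrable_pl hn (F := fun x => chi (((1 / 2 : ℝ) ^ i) • (x - t)) * F x)
    ((chia_cont i t).mul hF) (ρ := ‖t‖ + d * 2 ^ i) ?_ s
  intro y hy
  have h1 := chia_supp hd (left_ne_zero_of_mul hy)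
  calc ‖tang n y‖ ≤ ‖y‖ := PF.norm_tang_le hn y
    _ = ‖t + (y - t)‖ := by congr 1; abel
    _ ≤ ‖t‖ + ‖y - t‖ := norm_add_le _ _
    _ ≤ _ := by linarith

/-- the partition of unity on the plane -/
lemma pl_sum (hd : 1 ≤ d) {n : Sp d} (hn : ‖n‖ = 1) (s ρ : ℝ) {F : Sp d → ℝ} (hF : Continuous F)
    (hF0 : ∀ x, 0 ≤ F x) (i : ℕ) {ι : Type*} (S : Finset ι) (t : ι → Sp d)
    (h1 : ∀ x : Sp d, ‖x‖ ≤ ρ + 1 → ∑ q ∈ S, chi (((1 / 2 : ℝ) ^ i) • (x - t q)) = 1) :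
    plInt n s (fun x => zR ρ x * F x) ≤
      ∑ q ∈ S, plInt n s (fun x => chi (((1 / 2 : ℝ) ^ i) • (x - t q)) * F x) := by
  unfold plInt
  rw [← integral_finsetSum _ fun q _ => int_chia hd hn s hF i (t q)]
  refine integral_mono ?_ (integrable_finsetSum _ fun q _ => int_chia hd hn s hF i (t q)) ?_
  · refine PF.integrable_pl hn (F := fun x => zR ρ x * F x) ((zR_cont ρ).mul hF) (ρ := ρ + 1) ?_ s
    intro y hy
    refine (PF.norm_tang_le hn y).trans ?_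
    by_contra h2
    exact left_ne_zero_of_mul hy (zR_zero (not_le.1 h2).le)
  · intro y
    simp only
    rw [← Finset.sum_mul]
    set x : Sp d := s • n + (y : Sp d)
    by_cases hx : ‖x‖ ≤ ρ + 1
    · rw [h1 x hx]
      exact mul_le_mul_of_nonneg_right (Real.smoothTransition.le_one _) (hF0 x)
    · rw [zR_zero (not_le.1 hx).le, zero_mul]
      exact mul_nonneg (Finset.sum_nonneg fun q _ => PTm.chi_nonneg _) (hF0 x)

/-- a bound on the support of the cut-off -/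
lemma pl_bd (hd : 1 ≤ d) {n : Sp d} (hn : ‖n‖ = 1) (s : ℝ) {F : Sp d → ℝ} (hF : Continuous F)
    (i : ℕ) (t : Sp d) {K : ℝ} (hK : ∀ x, ‖x - t‖ ≤ d * 2 ^ i → F x ≤ K) :
    plInt n s (fun x => chi (((1 / 2 : ℝ) ^ i) • (x - t)) * F x) ≤
      K * plInt n s (fun x => chi (((1 / 2 : ℝ) ^ i) • (x - t))) := by
  unfold plInt
  rw [← integral_const_mul]
  refine integral_mono (int_chia hd hn s hF i t) ?_ ?_
  · have := (int_chia hd hn s (F := fun _ => (1 : ℝ)) continuous_const i t).const_mul K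
    simpa using this
  · intro y
    simp only
    set x : Sp d := s • n + (y : Sp d)
    by_cases hx : chi (((1 / 2 : ℝ) ^ i) • (x - t)) = 0
    · rw [hx]; simp
    · rw [mul_comm]
      exact mul_le_mul_of_nonneg_right (hK x (chia_supp hd hx)) (PTm.chi_nonneg _)

lemma card_nst (s0 r : ℝ) (JA : ℕ) (Q : Cell d) (i : ℕ) :
    ((nst s0 r JA Q).filter (fun Q' => Q'.1 = Q.1 + i)).card ≤
      (2 * (⌈r⌉ + 1) + 1 : ℤ).toNat ^ d := by
  classical
  have h1 : (Fintype.piFinset fun j => Finset.Icc (Q.2 j / 2 ^ i - (⌈r⌉ + 1))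
      (Q.2 j / 2 ^ i + (⌈r⌉ + 1))).card = (2 * (⌈r⌉ + 1) + 1 : ℤ).toNat ^ d := by
    rw [Fintype.card_piFinset]
    have : ∀ j, (Finset.Icc (Q.2 j / 2 ^ i - (⌈r⌉ + 1)) (Q.2 j / 2 ^ i + (⌈r⌉ + 1))).card =
        (2 * (⌈r⌉ + 1) + 1 : ℤ).toNat := by
      intro j
      rw [Int.card_Icc]
      congr 1
      ring
    rw [Finset.prod_congr rfl fun j _ => this j]
    simp
  rw [← h1]
  refine Finset.card_le_card_of_injOn Prod.snd ?_ ?_
  · intro Q' hQ'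
    rw [Finset.mem_coe, Finset.mem_filter] at hQ'
    obtain ⟨h2, h3⟩ := hQ'
    unfold nst at h2
    rw [Finset.mem_filter, Finset.mem_biUnion] at h2
    obtain ⟨⟨k, hk, h4⟩, -⟩ := h2
    rw [Finset.mem_product, Finset.mem_singleton] at h4
    have h5 : k = i := by have := h4.1; omega
    rw [h5] at h4
    exact h4.2
  · intro P hP P' hP' h
    have h2 := (Finset.mem_filter.1 (Finset.mem_coe.1 hP)).2
    have h3 := (Finset.mem_filter.1 (Finset.mem_coe.1 hP')).2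
    exact Prod.ext (h2.trans h3.symm) h

section World

variable {E : Type} [NormedAddCommGroup E] [InnerProductSpace ℝ E]

lemma wok_mono {JA : ℕ} {C' R0 Rz Rz' : ℝ} {X : Prm d} {W : Wld d E} (h : WOK JA C' R0 Rz X W)
    (hR : Rz' ≤ Rz) : WOK JA C' R0 Rz' X W where
  X_eq := h.X_eq
  s0_pos := h.s0_pos
  gro := h.gro
  fc := h.fc
  fs := h.fs
  eu := h.eu
  nu := h.nu
  ab0 := h.ab0
  D0 := h.D0
  zp := fun Q H h1 h2 h3 h4 h5 => h.zp Q H h1 h2 h3 h4 fun y hy => h5 y (hR.trans hy)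
  dir := fun Q Q' hQ' ζ N h1 h2 => h.dir Q Q' hQ' ζ N h1 fun y hy => h2 y (hR.trans hy)

lemma wsh_mono {J : ℕ} {R0 κ κ' : ℝ} {W : Wld d E} {Q : Cell d} (h : WSh J R0 κ W Q)
    (hκ : κ ≤ κ') : WSh J R0 κ' W Q where
  sh := h.sh
  bl := h.bl
  loc := h.loc
  dl0 := h.dl0
  small := h.small.trans (mul_le_mul_of_nonneg_right hκ h.sh.ab0.le)
  smalld := h.smalld.trans (mul_le_mul_of_nonneg_right hκ h.sh.ab0.le)

lemma sg_nonneg {JA : ℕ} {C' R0 Rz : ℝ} {X : Prm d} {W : Wld d E} (h : WOK JA C' R0 Rz X W)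
    (Q : Cell d) (hX : ∀ x, 0 ≤ XX (W.be Q) W.X.ε (W.mu Q) (W.nv Q) 1 x) : 0 ≤ W.sg Q :=
  mul_nonneg (h.ab0 Q) (integral_nonneg fun _ => mul_nonneg (PTm.chi_nonneg _) (hX _))

lemma val_nonneg {JA : ℕ} {C' R0 Rz : ℝ} {X : Prm d} {W : Wld d E} (h : WOK JA C' R0 Rz X W)
    (Q : Cell d) (hX : ∀ x, 0 ≤ XX (W.be Q) W.X.ε (W.mu Q) (W.nv Q) 1 x) : 0 ≤ W.val Q := by
  unfold Wld.val
  split_ifs
  · exact add_nonneg (sg_nonneg h Q hX) (le_max_left _ _)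
  · exact le_rfl
  · exact le_max_left _ _

lemma sg_le_val {W : Wld d E} {Q : Cell d} (h1 : W.Near Q) (h2 : W.kd Q = 0) :
    W.sg Q ≤ W.val Q := by
  unfold Wld.val
  rw [if_pos ⟨h1, h2⟩]
  linarith [le_max_left 0 (W.bl Q)]

end World

lemma absb {κ ab er : ℝ} (h1 : 0 ≤ er) (h2 : 0 < ab) (h3 : er ≤ κ * ab) (h4 : κ ≤ 1) :
    er ^ 2 / ab ≤ κ * ab := by
  rw [div_le_iff₀ h2]
  nlinarith [mul_nonneg h1 h2.le]

end P3m

open _root_.TG.P3m in
theorem stmtP3 (hP1 : StmtP1) (hW1 : StmtW1) (hNS : StmtNS) (hWA : StmtWA) : StmtP3 := by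
  intro d J JA hd M c0 C' c R0 X hX
  have hd1 : 1 ≤ d := by omega
  obtain ⟨CP, hCP, hP⟩ := hP1 d J JA hd M c0 C' c R0 X hX
  obtain ⟨CW, RzW, hCW, hW⟩ := hW1 d J JA hd M c0 C' c R0 X hX
  have hA := hX.prm.A_ge
  have hR0 : 0 ≤ R0 := by
    have := hX.R0_ge
    have h1 : (0 : ℝ) ≤ d := Nat.cast_nonneg d
    linarith
  have hr : 0 ≤ 3 * R0 := by linarith
  obtain ⟨CH, hCH, hH⟩ := harn (d := d) hd hX.C'_pos hr JA
  obtain ⟨CX, hCX, hXX⟩ := XXb (d := d) hWA hd (M := M) (C' := C') (ε := X.ε) (r := 3 * R0 + d)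
    hX.C'_pos hX.prm.ε_pos (by linarith [hX.prm.ε_le]) (by positivity) JA
  have hkit : ∀ k, Kit 4 M (KN X.b k) := fun k => (hX.prm.ker.kit k).mono_order (by norm_num)
  set Ca : ℝ := CP + CX * CP * CW with hCa
  have hCa0 : 0 < Ca := by positivity
  refine ⟨2 * Ca, by positivity, ?_⟩
  intro i0 Kc hi0 hKc
  obtain ⟨κ1, CK, Rz1, hκ1, hCK, hP⟩ := hP Kc hKc
  set cN : ℝ := ((2 * (⌈3 * R0⌉ + 1) + 1 : ℤ).toNat ^ d : ℕ) + 1 with hcN
  have hcN0 : 0 < cN := by positivity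
  set CKa : ℝ := CK + CX * CK + CX * CP * CW * (CH * 2 ^ (JA * (d - 1))) with hCKa
  have hCH0 : 0 < CH := by linarith
  have hCKa0 : 0 < CKa := by positivity
  have hKc0 : 0 < Kc := by linarith
  set κ : ℝ := min (min κ1 1) (i0 / (12 * cN * CKa * Kc)) with hκ
  have hκ0 : 0 < κ := by
    rw [hκ]
    exact lt_min (lt_min hκ1 one_pos) (by positivity)
  have hκκ1 : κ ≤ κ1 := (min_le_left _ _).trans (min_le_left _ _)
  have hκ11 : κ ≤ 1 := (min_le_left _ _).trans (min_le_right _ _)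
  have hκ3 : CKa * (cN * (6 * κ * Kc)) ≤ i0 / 2 := by
    have h1 : κ ≤ i0 / (12 * cN * CKa * Kc) := min_le_right _ _
    rw [le_div_iff₀ (by positivity)] at h1
    linarith only [h1]
  refine ⟨κ, 2 * CKa * (cN + 1) / i0, max Rz1 RzW, hκ0, by positivity, ?_⟩
  intro E _ _ _ W hWO Q hAsh i ρ hi hρ hρ1 hgain
  have hWO1 : WOK JA C' R0 Rz1 X W := wok_mono hWO (le_max_left _ _)
  have hWOW : WOK JA C' R0 RzW X W := wok_mono hWO (le_max_right _ _)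
  obtain ⟨hsv, hshQ, hnb⟩ := hAsh
  have hXeq := hWO.X_eq
  have hs0 := hWO.s0_pos
  -- the frames
  obtain ⟨_, _, hCT⟩ := stmtCT7 d hd C' 1 1 (3 * R0) hX.C'_pos one_pos le_rfl le_rfl hr 0
  have hCT1 := (hCT W.μ hWO.gro W.s0 hs0).1
  have hgro : ∀ P : Cell d, Gro C' (W.mu P) := fun P => (hCT1 P).2.2.2
  have hv1 : ∀ P : Cell d, vv (W.mu P) 1 0 = W.v P := fun P => (hCT1 P).2.2.1
  have hv0 : ∀ P : Cell d, 0 < W.v P := fun P => (hCT1 P).1
  have hw0 : ∀ P : Cell d, 0 < W.w P := by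
    intro P
    have := CT7.lev_pos hs0 P.1
    unfold Wld.w cw
    positivity
  -- the gain functionals
  have hX0 : ∀ P : Cell d, ∀ x, 0 ≤ XX (W.be P) W.X.ε (W.mu P) (W.nv P) 1 x := by
    intro P x
    have := (hXX 0 (Nat.zero_le _) (W.be P) (by unfold Wld.be bQ; rw [hXeq]; exact hkit _)
      (W.mu P) (hgro P) (W.nv P) (hWO.nu P)).2.1 x
    rw [hXeq]
    simpa using this
  have hval0 : ∀ P : Cell d, 0 ≤ W.val P := fun P => val_nonneg hWO P (hX0 P)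
  set F : Sp d → ℝ := fun x => XX (W.bi Q i) W.X.ε (W.mu Q) (W.nv Q) (2 ^ i) x with hF
  obtain ⟨hFc, hF0, hFb⟩ := hXX i hi (W.bi Q i) (by unfold Wld.bi; rw [hXeq]; exact hkit _)
    (W.mu Q) (hgro Q) (W.nv Q) (hWO.nu Q)
  rw [← hXeq] at hFc hF0 hFb
  rw [hv1 Q] at hFb
  -- the neighbourhood
  obtain ⟨hmem, hsc, hpou, -⟩ := hNS d hd1 W.s0 (3 * R0) hs0 hr JA Q
  set N : Finset (Cell d) := (W.ns R0 JA Q).filter (fun Q' => Q'.1 = Q.1 + i) with hN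
  have hcard : (N.card : ℝ) ≤ cN := by
    have h1 := card_nst W.s0 (3 * R0) JA Q i
    have h2 : (N.card : ℝ) ≤ ((2 * (⌈3 * R0⌉ + 1) + 1 : ℤ).toNat ^ d : ℕ) := by exact_mod_cast h1
    rw [hcN]
    linarith
  have hNn : ∀ Q' ∈ N, Q' ∈ W.ns R0 JA Q ∧ Q'.1 = Q.1 + i := fun Q' h => Finset.mem_filter.1 h
  have hsum := pl_sum hd1 (hWO.nu Q) (W.sv Q) ρ hFc hF0 i N (fun Q' => tw W.s0 Q Q')
    (fun x hx => hpou i hi x (hx.trans hρ1))
  set P : Cell d → ℝ := fun Q' => plInt (W.nv Q) (W.sv Q) (fun x =>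
    chi (((1 / 2 : ℝ) ^ i) • (x - tw W.s0 Q Q')) * F x) with hPd
  have hgain2 : i0 * W.v Q ≤ ∑ Q' ∈ N, P Q' := hgain.trans hsum
  have hab := hshQ.sh.ab0
  have her := hshQ.sh.ep0
  -- the errors
  set R : Cell d → ℝ := fun Q' => W.er Q ^ 2 / W.ab Q + W.er Q' ^ 2 / W.ab Q' + W.dl Q + W.dl Q' +
    W.er Q + W.er Q' with hR
  have hRb : ∀ Q' ∈ N, R Q' ≤ 6 * κ * Kc * W.ab Q := by
    intro Q' hQ'
    obtain ⟨-, h2, h3⟩ := hnb Q' (hNn Q' hQ').1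
    have a1 := absb her hab hshQ.small hκ11
    have a2 := absb h2.sh.ep0 h2.sh.ab0 h2.small hκ11
    have a3 : κ * W.ab Q ≤ κ * Kc * W.ab Q := by
      nlinarith only [hKc, mul_pos hκ0 hab]
    have a4 : κ * W.ab Q' ≤ κ * Kc * W.ab Q := by
      linarith only [mul_le_mul_of_nonneg_left h3 hκ0.le]
    have a5 := hshQ.smalld
    have a6 := h2.smalld
    have a7 := hshQ.small
    have a8 := h2.small
    simp only [hR]
    linarith only [a1, a2, a3, a4, a5, a6, a7, a8]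
  -- the estimate for one cell
  have hcell : ∀ Q' ∈ N, W.w Q * (W.ab Q * P Q') ≤ Ca * (W.w Q' * W.val Q') +
      CKa * (W.w Q * W.v Q) * (R Q' + W.D Q + W.D Q') := by
    intro Q' hQ'
    obtain ⟨hQn, hQi⟩ := hNn Q' hQ'
    obtain ⟨hk0, h2, h3⟩ := hnb Q' hQn
    obtain ⟨p1, p2, -, -⟩ := hP E W hWO1 Q hsv (wsh_mono hshQ hκκ1) Q' hQn (wsh_mono h2 hκκ1) h3 i hQi
    have hbe : W.be Q' = W.bi Q i := by
      unfold Wld.be Wld.bi bQ
      rw [hQi]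
    rw [hbe] at p1
    have hwv : 0 < W.w Q * W.v Q := mul_pos (hw0 Q) (hv0 Q)
    have e1 : 0 ≤ W.er Q' := h2.sh.ep0
    have e2 : 0 ≤ W.er Q ^ 2 / W.ab Q := div_nonneg (sq_nonneg _) hab.le
    have e3 : 0 ≤ W.er Q' ^ 2 / W.ab Q' := div_nonneg (sq_nonneg _) h2.sh.ab0.le
    have e4 := hshQ.dl0
    have e5 := h2.dl0
    have e6 := hWO.D0 Q
    have e7 := hWO.D0 Q'
    have e8 := hval0 Q'
    have e9 := hw0 Q'
    have e10 := hv0 Q'
    have hRR : 0 ≤ R Q' + W.D Q + W.D Q' := by simp only [hR]; (clear * - hab e3 e4 e5 her e1 e6 e7; positivity)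
    have hwval : 0 ≤ W.w Q' * W.val Q' := by positivity
    by_cases hnear : W.Near Q'
    · have h4 := sg_le_val hnear hk0
      calc W.w Q * (W.ab Q * P Q') ≤ CP * (W.w Q' * W.sg Q') + CK * (W.w Q * W.v Q) *
            (W.er Q ^ 2 / W.ab Q + W.er Q' ^ 2 / W.ab Q' + W.dl Q + W.dl Q' + W.D Q + W.D Q') := p1
        _ ≤ CP * (W.w Q' * W.val Q') + CK * (W.w Q * W.v Q) * (R Q' + W.D Q + W.D Q') := by
          gcongr
          simp only [hR]
          linarith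
        _ ≤ Ca * (W.w Q' * W.val Q') + CKa * (W.w Q * W.v Q) * (R Q' + W.D Q + W.D Q') := by
          gcongr
          · rw [hCa]; have : 0 ≤ CX * CP * CW := by positivity
            linarith
          · rw [hCKa]
            have : 0 ≤ CX * CK + CX * CP * CW * (CH * 2 ^ (JA * (d - 1))) := by positivity
            linarith
    · -- a cell which is not near
      obtain ⟨-, -, -, -, w5⟩ := hW E W hWOW Q' hnear
      set mm : ℝ := ∫ y, W.m Q' y * chi y with hmm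
      have b1 : P Q' ≤ (CX * W.v Q) * plInt (W.nv Q) (W.sv Q) (fun x =>
          chi (((1 / 2 : ℝ) ^ i) • (x - tw W.s0 Q Q'))) := by
        refine pl_bd hd1 (hWO.nu Q) (W.sv Q) hFc i (tw W.s0 Q Q') ?_
        intro x hx
        refine hFb x ?_
        have h4 := ((hsc i hi Q' hQi).2.2).1 hQn
        calc ‖x‖ = ‖(x - tw W.s0 Q Q') + tw W.s0 Q Q'‖ := by congr 1; abel
          _ ≤ ‖x - tw W.s0 Q Q'‖ + ‖tw W.s0 Q Q'‖ := norm_add_le _ _
          _ ≤ (3 * R0 + d) * 2 ^ i := by linarith only [hx, h4]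
      have b2 : W.w Q' * W.v Q' ≤ (CH * 2 ^ (JA * (d - 1))) * (W.w Q * W.v Q) := by
        have h4 := (hsc i hi Q' hQi).1
        obtain ⟨j, hj, hj1, hj2⟩ := (hmem Q').1 hQn
        have hji : j = i := by omega
        have h5 := (hH j hj W.μ hWO.gro W.s0 hs0 Q Q' hj1 hj2).1
        have h6 : (2 : ℝ) ^ (i * (d - 1)) ≤ 2 ^ (JA * (d - 1)) :=
          pow_le_pow_right₀ (by norm_num) (Nat.mul_le_mul_right _ hi)
        have h7 : W.w Q' ≤ 2 ^ (JA * (d - 1)) * W.w Q := by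
          show cw W.s0 Q' ≤ 2 ^ (JA * (d - 1)) * cw W.s0 Q
          rw [h4]
          exact mul_le_mul_of_nonneg_right h6 (hw0 Q).le
        have h8 : W.v Q' ≤ CH * W.v Q := h5
        have h9 := hv0 Q
        have h10 := hw0 Q
        calc W.w Q' * W.v Q' ≤ (2 ^ (JA * (d - 1)) * W.w Q) * (CH * W.v Q) := by (clear * - h7 h8 e10 h10; gcongr)
          _ = _ := by ring
      have b3 : W.w Q * (W.ab Q * P Q') ≤ CX * (CP * (W.w Q' * W.v Q') * mm +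
          CK * (W.w Q * W.v Q) * (W.er Q + W.er Q' + W.dl Q + W.dl Q' + W.D Q + W.D Q')) := by
        have h9 := hw0 Q
        calc W.w Q * (W.ab Q * P Q') ≤ W.w Q * (W.ab Q * ((CX * W.v Q) *
              plInt (W.nv Q) (W.sv Q) (fun x =>
                chi (((1 / 2 : ℝ) ^ i) • (x - tw W.s0 Q Q'))))) := by (clear * - b1 hab h9; gcongr)
          _ = CX * (W.w Q * (W.v Q * (W.ab Q * plInt (W.nv Q) (W.sv Q) (fun x =>
                chi (((1 / 2 : ℝ) ^ i) • (x - tw W.s0 Q Q')))))) := by ring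
          _ ≤ _ := by (clear * - p2 hCX; gcongr)
      have b4 : CP * (W.w Q' * W.v Q') * mm ≤ CP * CW * (W.w Q' * W.val Q') +
          CP * CW * (CH * 2 ^ (JA * (d - 1))) * (W.w Q * W.v Q) * W.D Q' := by
        calc CP * (W.w Q' * W.v Q') * mm = CP * W.w Q' * (W.v Q' * mm) := by ring
          _ ≤ CP * W.w Q' * (CW * W.val Q' + CW * W.v Q' * W.D Q') := by (clear * - w5 hCP e9; gcongr)
          _ = CP * CW * (W.w Q' * W.val Q') + CP * CW * W.D Q' * (W.w Q' * W.v Q') := by ring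
          _ ≤ CP * CW * (W.w Q' * W.val Q') + CP * CW * W.D Q' *
              ((CH * 2 ^ (JA * (d - 1))) * (W.w Q * W.v Q)) := by (clear * - b2 hCP hCW e7; gcongr)
          _ = _ := by ring
      have b5 : W.er Q + W.er Q' + W.dl Q + W.dl Q' + W.D Q + W.D Q' ≤
          R Q' + W.D Q + W.D Q' := by
        simp only [hR]
        linarith only [e2, e3]
      have b6 : W.D Q' ≤ R Q' + W.D Q + W.D Q' := by
        simp only [hR]
        linarith only [her, e1, e2, e3, e4, e5, e6]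
      calc W.w Q * (W.ab Q * P Q') ≤ CX * (CP * (W.w Q' * W.v Q') * mm +
          CK * (W.w Q * W.v Q) * (W.er Q + W.er Q' + W.dl Q + W.dl Q' + W.D Q + W.D Q')) := b3
        _ ≤ CX * ((CP * CW * (W.w Q' * W.val Q') +
          CP * CW * (CH * 2 ^ (JA * (d - 1))) * (W.w Q * W.v Q) * (R Q' + W.D Q + W.D Q')) +
          CK * (W.w Q * W.v Q) * (R Q' + W.D Q + W.D Q')) := by
            have b7 : CP * (W.w Q' * W.v Q') * mm ≤ CP * CW * (W.w Q' * W.val Q') +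
                CP * CW * (CH * 2 ^ (JA * (d - 1))) * (W.w Q * W.v Q) *
                  (R Q' + W.D Q + W.D Q') := b4.trans (by (clear * - b6 hCP hCW hCH hwv; gcongr))
            (clear * - b7 b5 hCK hwv hCX; gcongr)
        _ = (CX * CP * CW) * (W.w Q' * W.val Q') +
            (CX * CK + CX * CP * CW * (CH * 2 ^ (JA * (d - 1)))) * (W.w Q * W.v Q) *
              (R Q' + W.D Q + W.D Q') := by ring
        _ ≤ Ca * (W.w Q' * W.val Q') + CKa * (W.w Q * W.v Q) * (R Q' + W.D Q + W.D Q') := by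
          gcongr
          · rw [hCa]; linarith
          · rw [hCKa]; linarith
  -- summation
  have hwv : 0 < W.w Q * W.v Q := mul_pos (hw0 Q) (hv0 Q)
  have s1 : ∑ Q' ∈ N, W.w Q' * W.val Q' ≤ W.sV R0 JA Q :=
    Finset.sum_le_sum_of_subset_of_nonneg (Finset.filter_subset _ _)
      fun Q' _ _ => mul_nonneg (hw0 Q').le (hval0 Q')
  have s2 : ∑ Q' ∈ N, W.D Q' ≤ W.sD R0 JA Q :=
    Finset.sum_le_sum_of_subset_of_nonneg (Finset.filter_subset _ _) fun Q' _ _ => hWO.D0 Q'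
  have s3 : W.D Q ≤ W.sD R0 JA Q := by
    have h1 : Q ∈ W.ns R0 JA Q := by
      refine (hmem Q).2 ⟨0, Nat.zero_le _, rfl, ?_⟩
      have := CT7.lev_pos hs0 Q.1
      rw [sub_self, norm_zero]
      (clear * - hR0 this; positivity)
    exact Finset.single_le_sum (f := W.D) (fun Q' _ => hWO.D0 Q') h1
  have s4 : ∑ Q' ∈ N, (R Q' + W.D Q + W.D Q') ≤ cN * (6 * κ * Kc * W.ab Q) +
      (cN + 1) * W.sD R0 JA Q := by
    have h1 : ∑ Q' ∈ N, (R Q' + W.D Q + W.D Q') ≤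
        ∑ Q' ∈ N, (6 * κ * Kc * W.ab Q + W.sD R0 JA Q + W.D Q') :=
      Finset.sum_le_sum fun Q' hQ' => by
        have := hRb Q' hQ'
        linarith
    have h1' : ∑ Q' ∈ N, (6 * κ * Kc * W.ab Q + W.sD R0 JA Q + W.D Q') =
        N.card * (6 * κ * Kc * W.ab Q + W.sD R0 JA Q) + ∑ Q' ∈ N, W.D Q' := by
      rw [Finset.sum_add_distrib, Finset.sum_const, nsmul_eq_mul]
    have h2 : 0 ≤ W.sD R0 JA Q := (hWO.D0 Q).trans s3
    have h3 : (N.card : ℝ) * (6 * κ * Kc * W.ab Q + W.sD R0 JA Q) ≤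
        cN * (6 * κ * Kc * W.ab Q + W.sD R0 JA Q) := by gcongr
    rw [h1'] at h1
    linarith only [s2, h1, h3]
  have s5 : W.w Q * (W.ab Q * ∑ Q' ∈ N, P Q') ≤ Ca * W.sV R0 JA Q +
      CKa * (W.w Q * W.v Q) * (cN * (6 * κ * Kc * W.ab Q) + (cN + 1) * W.sD R0 JA Q) := by
    calc W.w Q * (W.ab Q * ∑ Q' ∈ N, P Q') = ∑ Q' ∈ N, W.w Q * (W.ab Q * P Q') := by
          rw [Finset.mul_sum, Finset.mul_sum]
      _ ≤ ∑ Q' ∈ N, (Ca * (W.w Q' * W.val Q') +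
          CKa * (W.w Q * W.v Q) * (R Q' + W.D Q + W.D Q')) := Finset.sum_le_sum hcell
      _ = Ca * ∑ Q' ∈ N, W.w Q' * W.val Q' +
          CKa * (W.w Q * W.v Q) * ∑ Q' ∈ N, (R Q' + W.D Q + W.D Q') := by
          rw [Finset.sum_add_distrib, ← Finset.mul_sum, ← Finset.mul_sum]
      _ ≤ _ := by gcongr
  have s6 : i0 * (W.w Q * W.v Q * W.ab Q) ≤ W.w Q * (W.ab Q * ∑ Q' ∈ N, P Q') := by
    have h9 := hw0 Q
    calc i0 * (W.w Q * W.v Q * W.ab Q) = W.w Q * (W.ab Q * (i0 * W.v Q)) := by ring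
      _ ≤ _ := by (clear * - hgain2 hab h9; gcongr)
  have s7 : CKa * (W.w Q * W.v Q) * (cN * (6 * κ * Kc * W.ab Q)) ≤
      i0 / 2 * (W.w Q * W.v Q * W.ab Q) := by
    calc CKa * (W.w Q * W.v Q) * (cN * (6 * κ * Kc * W.ab Q)) =
        (CKa * (cN * (6 * κ * Kc))) * (W.w Q * W.v Q * W.ab Q) := by ring
      _ ≤ _ := by gcongr
  have s8 : i0 * (W.w Q * W.v Q * W.ab Q) ≤ 2 * Ca * W.sV R0 JA Q +
      2 * CKa * (cN + 1) * (W.w Q * W.v Q) * W.sD R0 JA Q := by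
    linarith only [s5, s6, s7]
  calc W.w Q * W.v Q * W.ab Q = i0 * (W.w Q * W.v Q * W.ab Q) / i0 := by
        field_simp
    _ ≤ (2 * Ca * W.sV R0 JA Q + 2 * CKa * (cN + 1) * (W.w Q * W.v Q) * W.sD R0 JA Q) / i0 := by
        gcongr
    _ = 2 * Ca / i0 * W.sV R0 JA Q +
        2 * CKa * (cN + 1) / i0 * (W.w Q * W.v Q) * W.sD R0 JA Q := by ring

end

end TG


end
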