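import Mathlib
import Pool.Agent.TRM.C02
import Pool.Agent.TRM.C04
import Pool.Agent.TRM.C06
import Pool.Agent.TRM.C07
import Pool.Agent.TRM.C08
import Pool.Agent.TRM.C10
import Pool.Agent.TRM.C11
import Pool.Agent.TRM.C12
import Pool.Agent.TRM.C13
import Pool.Agent.TRM.C14
import Pool.Agent.TRM.C15
import Pool.Agent.TRM.C16
import Pool.Agent.TRM.C17
import Pool.Agent.TRM.C18
import Pool.Agent.TRM.C19
import Pool.Agent.TRM.C20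
import Pool.Agent.TRM.C21
import Pool.Agent.TRM.C22
import Pool.Agent.TRM.C23
import Pool.Agent.TRM.C24
import Pool.Agent.TRM.C25
import Pool.Agent.TRM.C26
import Pool.Agent.TRM.C27
import Pool.Agent.TRM.C28
import Pool.Agent.TRM.C29
import Pool.Agent.TRM.C30
import Pool.Agent.TRM.C31
import Pool.Agent.TRM.C32
import Pool.Agent.TRM.C33
import Pool.Agent.TRM.C34
import Pool.Agent.TRM.C35
import Pool.Agent.TRM.C36
import Pool.Agent.TRM.C37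
import Pool.Agent.TRM.C38
import Pool.Agent.TRM.C39
import Pool.Agent.TRM.C40
import Pool.Agent.TRM.C41
import Pool.Agent.TRM.C42
import Pool.Agent.TRM.C43

/-! Parts: TG.Chain -/

section

/-!
# Trace inequality, general operators (MP_287c87_an): the chain of the modules

Generated by helper97.  Every statement StmtXX needed for the main theorem is available as theorem
TG.Chain.XX without hypotheses.
-/

open MeasureTheory Metric Set TrI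

namespace TG

namespace Chain

theorem BK : TG.StmtBK := TG.stmtBK 

theorem TH : TG.StmtTH := TG.stmtTH 

theorem GI : TG.StmtGI := TG.stmtGI TG.Chain.TH

theorem GP : TG.StmtGP := TG.stmtGP TG.Chain.TH

theorem GN : TG.StmtGN := TG.stmtGN TG.Chain.TH TG.Chain.GI TG.Chain.GP

theorem WA : TG.StmtWA := TG.stmtWA TG.Chain.TH

theorem TT : TG.StmtTT := TG.stmtTT TG.Chain.TH

theorem FA : TG.StmtFA := TG.stmtFA TG.Chain.TH TG.Chain.GN TG.Chain.WA TG.Chain.TT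

theorem CG : TG.StmtCG := TG.stmtCG 

theorem UB : TG.StmtUB := TG.stmtUB TG.Chain.TH

theorem PF : TG.StmtPF := TG.stmtPF 

theorem NN : TG.StmtNN := TG.stmtNN TG.Chain.PF

theorem HH : TG.StmtHH := TG.stmtHH TG.Chain.UB TG.Chain.NN

theorem CS1 : TG.StmtCS1 := TG.stmtCS1 TG.Chain.HH TG.Chain.UB

theorem CS2 : TG.StmtCS2 := TG.stmtCS2 

theorem PK : TG.StmtPK := TG.stmtPK 

theorem CT2 : TG.StmtCT2 := TG.stmtCT2 TG.Chain.PK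

theorem CT6 : TG.StmtCT6 := TG.stmtCT6 

theorem PO : TG.StmtPO := TG.stmtPO TG.Chain.TH

theorem DI : TG.StmtDI := TG.stmtDI 

theorem SC : TG.StmtSC := TG.stmtSC 

theorem PT : TG.StmtPT := TG.stmtPT TG.Chain.PO TG.Chain.DI TG.Chain.SC TG.Chain.TH

theorem CS : TG.StmtCS := TG.stmtCS TG.Chain.CS1 TG.Chain.CS2 TG.Chain.CT2 TG.Chain.CT6 TG.Chain.PT

theorem CT1 : TG.StmtCT1 := TG.stmtCT1 

theorem CT3 : TG.StmtCT3 := TG.stmtCT3 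

theorem CT4 : TG.StmtCT4 := TG.stmtCT4 

theorem Z : TG.StmtZ := TG.stmtZ 

theorem MA : TG.StmtMA := TG.stmtMA TG.Chain.Z

theorem CT5 : TG.StmtCT5 := TG.stmtCT5 TG.Chain.Z TG.Chain.MA TG.Chain.DI

theorem CT7 : TG.StmtCT7 := TG.stmtCT7 

theorem RB : TG.StmtRB := TG.stmtRB TG.Chain.CT2 TG.Chain.CT4 TG.Chain.CT5

theorem NS : TG.StmtNS := TG.stmtNS 

theorem WH : TG.StmtWH := TG.stmtWH TG.Chain.CT7 TG.Chain.NS

theorem LS : TG.StmtLS := TG.stmtLS 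

theorem FF : TG.StmtFF := TG.stmtFF TG.Chain.CT4 TG.Chain.CT6 TG.Chain.CT7

theorem FH : TG.StmtFH := TG.stmtFH TG.Chain.CT1 TG.Chain.CT2 TG.Chain.CT3 TG.Chain.CT4 TG.Chain.CT5 TG.Chain.CT7 TG.Chain.RB TG.Chain.WH TG.Chain.LS TG.Chain.FF

theorem AL : TG.StmtAL := TG.stmtAL 

theorem PE : TG.StmtPE := TG.stmtPE 

theorem ST2 : TG.StmtST2 := TG.stmtST2 TG.Chain.AL TG.Chain.MA TG.Chain.PE

theorem CT8 : TG.StmtCT8 := TG.stmtCT8 TG.Chain.Z TG.Chain.MA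

theorem FR1 : TG.StmtFR1 := TG.stmtFR1 TG.Chain.ST2 TG.Chain.CT8 TG.Chain.SC

theorem LN : TG.StmtLN := TG.stmtLN TG.Chain.FR1 TG.Chain.CT8

theorem TrNS : TrI.StmtNS := TrI.stmtNS 

theorem TP : TG.StmtTP := TG.stmtTP 

theorem SHA : TG.StmtSHA := TG.stmtSHA TG.Chain.TP TG.Chain.Z TG.Chain.MA TG.Chain.PE TG.Chain.PF

theorem SHB : TG.StmtSHB := TG.stmtSHB TG.Chain.SHA

theorem NC : TG.StmtNC := TG.stmtNC 

theorem PL : TG.StmtPL := TG.stmtPL TG.Chain.SHB TG.Chain.NC TG.Chain.Z TG.Chain.PF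

theorem SM : TG.StmtSM := TG.stmtSM TG.Chain.SHB TG.Chain.NC TG.Chain.Z TG.Chain.PF

theorem TQ : TG.StmtTQ := TG.stmtTQ 

theorem HU : TG.StmtHU := TG.stmtHU TG.Chain.TP TG.Chain.MA TG.Chain.PE TG.Chain.Z TG.Chain.TQ

theorem JC : TG.StmtJC := TG.stmtJC TG.Chain.HU

theorem TW : TG.StmtTW := TG.stmtTW TG.Chain.Z TG.Chain.MA TG.Chain.DI TG.Chain.SC

theorem SD : TG.StmtSD := TG.stmtSD 

theorem CM : TG.StmtCM := TG.stmtCM TG.Chain.TrNS TG.Chain.SHB TG.Chain.PL TG.Chain.SM TG.Chain.JC TG.Chain.Z TG.Chain.MA TG.Chain.TW TG.Chain.SC TG.Chain.SD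

theorem SH2 : TG.StmtSH2 := TG.stmtSH2 TG.Chain.HU

theorem DV : TG.StmtDV := TG.stmtDV TG.Chain.TP

theorem SAF : TG.StmtSAF := TG.stmtSAF TG.Chain.TrNS TG.Chain.SHB TG.Chain.SH2 TG.Chain.JC TG.Chain.DV TG.Chain.Z TG.Chain.MA TG.Chain.TW TG.Chain.SC TG.Chain.SD

theorem SS : TG.StmtSS := TG.stmtSS_F TG.Chain.SAF TG.Chain.Z TG.Chain.MA TG.Chain.TW TG.Chain.SC TG.Chain.SD

theorem FS : TG.StmtFS := TG.stmtFS TG.Chain.CM TG.Chain.SS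

theorem FR2 : TG.StmtFR2 := TG.FR2.main TG.Chain.FS TG.Chain.CT2 TG.Chain.CT4 TG.Chain.CT5 TG.Chain.CT8 TG.Chain.SC TG.Chain.SD

theorem MP : TG.StmtMP := TG.stmtMP TG.Chain.TrNS TG.Chain.SHB TG.Chain.SM TG.Chain.JC TG.Chain.NC TG.Chain.Z TG.Chain.MA TG.Chain.TW TG.Chain.SC TG.Chain.SD

theorem GE : TG.StmtGE := TG.stmtGE 

theorem GS : TG.StmtGS := TG.stmtGS TG.Chain.GE TG.Chain.PF

theorem ML : TG.StmtML := TG.stmtML TG.Chain.CM TG.Chain.MP TG.Chain.SAF TG.Chain.GS TG.Chain.Z TG.Chain.MA TG.Chain.DI TG.Chain.SC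

theorem AB : TG.StmtAB := TG.stmtAB TG.Chain.PF

theorem FR4 : TG.StmtFR4 := TG.stmtFR4 TG.Chain.ML TG.Chain.AB TG.Chain.GS TG.Chain.CT2 TG.Chain.CT4 TG.Chain.CT5 TG.Chain.CT8 TG.Chain.SC TG.Chain.SD

theorem CT9 : TG.StmtCT9 := TG.stmtCT9 TG.Chain.DI

theorem WD : TG.StmtWD := TG.stmtWD TG.Chain.LN TG.Chain.FR2 TG.Chain.FR4 TG.Chain.MA TG.Chain.SC TG.Chain.CT2 TG.Chain.CT4 TG.Chain.CT5 TG.Chain.CT8 TG.Chain.CT9 TG.Chain.NS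

theorem WF : TG.StmtWF := TG.stmtWF 

theorem LP : TG.StmtLP := TG.stmtLP TG.Chain.CT3 TG.Chain.MA TG.Chain.SC TG.Chain.CT8 TG.Chain.CT5

theorem NF : TG.StmtNF := TG.stmtNF TG.Chain.TH TG.Chain.UB

theorem SE : TG.StmtSE := TG.stmtSE TG.Chain.SC

theorem FM : TG.StmtFM := TG.stmtFM TG.Chain.SC TG.Chain.SE

theorem W1 : TG.StmtW1 := TG.stmtW1 TG.Chain.NN TG.Chain.UB TG.Chain.NF TG.Chain.FM

theorem WB : TG.StmtWB := TG.stmtWB TG.Chain.TH TG.Chain.WA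

theorem MO : TG.StmtMO := TG.stmtMO TG.Chain.TH

theorem PtA : TG.TA1m.StmtPtA := TG.TA1m.stmtPtA TG.Chain.TH TG.Chain.WA TG.Chain.WB TG.Chain.MO

theorem TA1 : TG.StmtTA1 := TG.stmtTA1_of TG.Chain.PtA TG.Chain.WA TG.Chain.UB TG.Chain.WB TG.Chain.MO TG.Chain.PF

theorem TA2 : TG.StmtTA2 := TG.stmtTA2 TG.Chain.WA TG.Chain.UB

theorem IN : TG.StmtIN := TG.stmtIN TG.Chain.TH TG.Chain.MO TG.Chain.UB TG.Chain.TT

theorem TD1 : TG.StmtTD1 := TG.stmtTD1 TG.Chain.TH TG.Chain.WB TG.Chain.WA TG.Chain.IN TG.Chain.UB TG.Chain.PF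

theorem TD2 : TG.StmtTD2 := TG.stmtTD2 TG.Chain.PF TG.Chain.TH TG.Chain.UB

theorem TF : TG.StmtTF := TG.stmtTF TG.Chain.TH TG.Chain.WA TG.Chain.WB TG.Chain.MO TG.Chain.UB

theorem FG : TG.StmtFG := TG.stmtFG TG.Chain.TH

theorem TC : TG.StmtTC := TG.stmtTC TG.Chain.TH TG.Chain.WA TG.Chain.PF

theorem P1 : TG.StmtP1 := TG.stmtP1 TG.Chain.GS TG.Chain.TC TG.Chain.NS TG.Chain.FM TG.Chain.WA TG.Chain.PF

theorem P3 : TG.StmtP3 := TG.stmtP3 TG.Chain.P1 TG.Chain.W1 TG.Chain.NS TG.Chain.WA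

theorem P4 : TG.StmtP4 := TG.stmtP4 TG.Chain.P1 TG.Chain.W1 TG.Chain.NS TG.Chain.FM TG.Chain.WA TG.Chain.TH

theorem W2 : TG.StmtW2 := TG.stmtW2 TG.Chain.TA1 TG.Chain.TA2 TG.Chain.TD1 TG.Chain.TD2 TG.Chain.TF TG.Chain.FG TG.Chain.P1 TG.Chain.P3 TG.Chain.P4 TG.Chain.W1 TG.Chain.NS TG.Chain.FM TG.Chain.UB TG.Chain.WA

theorem W3 : TG.StmtW3 := TG.stmtW3 

theorem W4 : TG.StmtW4 := TG.stmtW4 TG.Chain.TA2 TG.Chain.TD2 TG.Chain.TF TG.Chain.WA TG.Chain.P1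

theorem B1 : TG.StmtB1 := TG.stmtB1 TG.Chain.NN TG.Chain.PF

theorem W5 : TG.StmtW5 := TG.stmtW5 TG.Chain.WA TG.Chain.B1 TG.Chain.NS

theorem WA6 : TG.StmtWA6 := TG.stmtWA6 TG.Chain.P4

theorem WA7 : TG.StmtWA7 := TG.stmtWA7 TG.Chain.TH TG.Chain.WA TG.Chain.PF TG.Chain.SC TG.Chain.SE TG.Chain.NS TG.Chain.P3 TG.Chain.P4

theorem UU : TG.StmtUU := TG.stmtUU TG.Chain.TH TG.Chain.UB

theorem B2 : TG.StmtB2 := TG.stmtB2 TG.Chain.UU TG.Chain.UB TG.Chain.TH TG.Chain.PF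

theorem B4 : TG.StmtB4 := TG.stmtB4 TG.Chain.UB TG.Chain.TH TG.Chain.PF

theorem WB6 : TG.StmtWB6 := TG.stmtWB6 TG.Chain.B1 TG.Chain.B2 TG.Chain.B4 TG.Chain.W1 TG.Chain.NS TG.Chain.FM TG.Chain.HH TG.Chain.NN TG.Chain.PF TG.Chain.TH

theorem LW : TG.StmtLW := TG.stmtLW TG.Chain.WD TG.Chain.WF TG.Chain.LP TG.Chain.NS TG.Chain.CT8 TG.Chain.CT3 TG.Chain.W1 TG.Chain.W2 TG.Chain.W3 TG.Chain.W4 TG.Chain.W5 TG.Chain.WA6 TG.Chain.WA7 TG.Chain.WB6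

theorem T1 : TG.StmtT1 := TG.stmtT1 TG.Chain.FR1 TG.Chain.MA TG.Chain.CT5 TG.Chain.CT8

theorem T2 : TG.StmtT2 := TG.stmtT2 TG.Chain.T1 TG.Chain.CT3 TG.Chain.MA TG.Chain.Z

theorem Main : TG.StmtMain := TG.stmtMain TG.Chain.BK TG.Chain.FA TG.Chain.CG TG.Chain.CS TG.Chain.FH TG.Chain.LW TG.Chain.T2 TG.Chain.FF

theorem CO : TG.StmtCO := TG.stmtCO TG.Chain.TrNS TG.Chain.HU TG.Chain.TQ TG.Chain.SC TG.Chain.SD

theorem CF : TG.StmtCF := TG.stmtCF 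

end Chain

end TG


end
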