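import Mathlib
import Pool.Agent.TRM.C02
import Pool.Agent.TRM.C06
import Pool.Agent.TRM.C07
import Pool.Agent.TRM.C08
import Pool.Agent.TRM.C10
import Pool.Agent.TRM.C11
import Pool.Agent.TRM.C13
import Pool.Agent.TRM.C14
import Pool.Agent.TRM.C17

/-! Parts: TG.CS, TG.CT5, TG.MLa, TG.MLb, TG.MLc, TG.ML, TG.B3, TG.T1a, TG.T1b, TG.T1g, TG.T1, TG.T2, TG.TD2 -/

section

/-!
# Trace inequality, general operators: modules CA and CS   (helper71)

The abstract summation lemma and the total of all net contributions.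
-/

open MeasureTheory Metric Set TrI
open scoped InnerProductSpace ContDiff ENNReal

namespace TG

noncomputable section

variable {d : ℕ}

namespace CSm

/-- a nonnegative function with finite cs is summable -/
theorem summable_of_cs {F : Cell d → ℝ} (h : ∀ Q, 0 ≤ F Q) (hF : cs univ F ≠ ⊤) : Summable F := by
  rw [cs_univ] at hF
  have h1 := ENNReal.summable_toReal hF
  refine h1.congr fun Q => ?_
  rw [ENNReal.toReal_ofReal (h Q)]

/-- cs as a real sum -/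
theorem cs_eq_tsum {F : Cell d → ℝ} (h : ∀ Q, 0 ≤ F Q) (hF : Summable F) :
    cs univ F = ENNReal.ofReal (∑' Q, F Q) := by
  rw [cs_univ, ENNReal.ofReal_tsum_of_nonneg h hF]

/-- profiles: fewer derivatives -/
theorem isProf_lower {J J' : ℕ} (hJ : J' ≤ J) {M : ℝ} {β : Sp d → ℝ} (h : IsProf J M β) :
    IsProf J' M β where
  smooth := h.smooth.of_le (by exact_mod_cast hJ)
  nonneg := h.nonneg
  mono := h.mono
  supp := h.supp
  int := h.int
  der := fun j hj => h.der j (hj.trans hJ)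

theorem kit_lower {J J' : ℕ} (hJ : J' ≤ J) {M : ℝ} {β : Sp d → ℝ} (h : Kit J M β) :
    Kit J' M β where
  prof := isProf_lower hJ h.prof
  smooth1 := h.smooth1.of_le (by exact_mod_cast hJ)
  smooth2 := h.smooth2.of_le (by exact_mod_cast hJ)
  supp1 := h.supp1
  supp2 := h.supp2
  grad1 := h.grad1
  grad2 := h.grad2
  nonneg1 := h.nonneg1
  nonneg2 := h.nonneg2
  le1 := h.le1
  le2 := h.le2
  mono1 := h.mono1
  mono2 := h.mono2
  der1 := fun j hj => h.der1 j (hj.trans hJ)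
  der2 := fun j hj => h.der2 j (hj.trans hJ)

theorem baseKer_lower {J J' : ℕ} (hJ : J' ≤ J) {M c : ℝ} {b : Sp d → ℝ} (h : BaseKer J M c b) :
    BaseKer J' M c b where
  c_pos := h.c_pos
  smooth := h.smooth.of_le (by exact_mod_cast hJ)
  nonneg := h.nonneg
  mono := h.mono
  supp := h.supp
  int := h.int
  kit := fun n => kit_lower hJ (h.kit n)
  low := h.low

theorem lev_pos' {s0 : ℝ} (h : 0 < s0) (i : ℕ) : 0 < lev s0 i := by
  unfold lev; positivity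

/-- the two normalisations are inverse to each other -/
theorem cw_mul_nw {s0 : ℝ} (hd : 1 ≤ d) (h : 0 < s0) (Q : Cell d) : cw s0 Q * nw s0 Q = 1 := by
  unfold cw nw
  have h1 := lev_pos' h Q.1
  have h2 : lev s0 Q.1 ^ d = lev s0 Q.1 ^ (d - 1) * lev s0 Q.1 := by
    rw [← pow_succ]; congr 1; omega
  rw [h2]
  field_simp

end CSm

open _root_.TG.CSm in
/-- MODULE CA -/
theorem stmtCA : StmtCA := by
  intro d N g err T hN hT hg herr hle hT0
  by_cases htop : cs univ err = ⊤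
  · rw [htop]; simp
  have he : Summable err := summable_of_cs herr htop
  have hsum : Summable fun Q => N Q + err Q := hN.add he
  have hgs : Summable g := Summable.of_nonneg_of_le hg hle hsum
  rw [cs_eq_tsum hg hgs, cs_eq_tsum herr he, ← ENNReal.ofReal_add hT0 (tsum_nonneg herr)]
  apply ENNReal.ofReal_le_ofReal
  calc ∑' Q, g Q ≤ ∑' Q, (N Q + err Q) := hgs.tsum_le_tsum hle hsum
    _ = ∑' Q, N Q + ∑' Q, err Q := hN.tsum_add he
    _ ≤ T + ∑' Q, err Q := by linarith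

open _root_.TG.CSm in
/-- MODULE CS -/
theorem stmtCS (h1 : StmtCS1) (h2 : StmtCS2) (h3 : StmtCT2) (h4 : StmtCT6) (h5 : StmtPT) :
    StmtCS := by
  intro d hd M c0 C' R hC' hR X hX
  obtain ⟨Cb, hCb, H2⟩ := h2 d hd M c0 C' hC' X hX
  have hε1 : X.ε ≤ 1 := hX.ε_le.trans (by norm_num)
  have hR1 : 1 ≤ R := by
    have : (0 : ℝ) ≤ (d : ℝ) := Nat.cast_nonneg d
    linarith
  obtain ⟨Cp, hCp, H3⟩ := h3 d (by omega) M c0 X.ε R hX.ε_pos hε1 hR1 X.b
    (baseKer_lower (by norm_num) hX.ker)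
  obtain ⟨Ct, hCt, H5⟩ := h5 d hd M c0 C' X.ε R hC' hX.ε_pos hX.ε_le hR X.b
    (baseKer_lower (by norm_num) hX.ker)
  refine ⟨Ct * (1 + Cp), by positivity, ?_⟩
  intro E _ _ _ _ f hf hfs μ hμ s0 hs0 e kd nv hDe hnv
  have hI : 0 ≤ ∫ y, ‖f y‖ := integral_nonneg fun y => norm_nonneg _
  -- a ball outside which f vanishes
  obtain ⟨B, hB0, hB⟩ : ∃ B : ℝ, 0 ≤ B ∧ ∀ y, B ≤ ‖y‖ → f y = 0 := by
    obtain ⟨r, hr⟩ := hfs.isCompact.isBounded.subset_closedBall (0 : Sp d)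
    refine ⟨|r| + 1, by positivity, fun y hy => ?_⟩
    by_contra hne
    have hy' := hr (subset_tsupport f (Function.mem_support.2 hne))
    rw [mem_closedBall_zero_iff] at hy'
    have := le_abs_self r
    linarith
  -- summability
  set B2 : ℝ := B + Cb with hB2
  have hB20 : 0 ≤ B2 := by positivity
  set B1 : ℝ := Cb * ∫ y, ‖f y‖ with hB1
  have hB10 : 0 ≤ B1 := by positivity
  have hnw : ∀ Q : Cell d, 0 ≤ nw s0 Q := by
    intro Q
    have := lev_pos' hs0 Q.1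
    unfold nw; positivity
  have hom : ∀ Q : Cell d, 0 ≤ omC μ s0 Q := fun Q => Real.sqrt_nonneg _
  classical
  set F : Cell d → ℝ := fun Q =>
    if ‖xC s0 Q‖ ≤ B2 * (1 + lev s0 Q.1) then B1 * nw s0 Q else 0 with hF
  have hF0 : ∀ Q, 0 ≤ F Q := by
    intro Q
    simp only [hF]
    split_ifs
    · exact mul_nonneg hB10 (hnw Q)
    · exact le_rfl
  have hFle : ∀ Q, F Q ≤ B1 * nw s0 Q := by
    intro Q
    simp only [hF]
    split_ifs
    · exact le_rfl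
    · exact mul_nonneg hB10 (hnw Q)
  have hFne : ∀ Q, F Q ≠ 0 → ‖xC s0 Q‖ ≤ B2 * (1 + lev s0 Q.1) := by
    intro Q hQ
    by_contra hcon
    exact hQ (by simp only [hF]; rw [if_neg hcon])
  have hfin := (h4 d hd C' 1 hC' le_rfl μ hμ s0 hs0 F B1 B2 hB10 hB20 hF0 hFle hFne).2
  have hG0 : ∀ Q, 0 ≤ cw s0 Q * F Q * omC μ s0 Q := fun Q =>
    mul_nonneg (mul_nonneg (cw_nonneg hs0 Q) (hF0 Q)) (hom Q)
  have hGs : Summable fun Q => cw s0 Q * F Q * omC μ s0 Q := summable_of_cs hG0 hfin.ne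
  have hbd : ∀ Q, |net2 X s0 μ f e kd nv Q| ≤ cw s0 Q * F Q * omC μ s0 Q := by
    intro Q
    unfold net2
    split_ifs with hQ2
    · by_cases hz : net X s0 μ f e kd nv Q = 0
      · rw [hz, abs_zero]; exact hG0 Q
      · obtain ⟨ha, hb⟩ := H2 E f hf hfs μ hμ s0 hs0 e kd nv hDe.unit hnv Q
        have hloc := hb B hB hz
        have hl := lev_pos' hs0 Q.1
        have hloc2 : ‖xC s0 Q‖ ≤ B2 * (1 + lev s0 Q.1) := by
          rw [hB2]
          linarith only [hCb, hloc, mul_nonneg hB0 hl.le]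
        have hFQ : F Q = B1 * nw s0 Q := by simp only [hF]; rw [if_pos hloc2]
        rw [hFQ]
        have h1' := cw_mul_nw (by omega : 1 ≤ d) hs0 Q
        calc |net X s0 μ f e kd nv Q| ≤ B1 * omC μ s0 Q := ha
          _ = cw s0 Q * (B1 * nw s0 Q) * omC μ s0 Q := by
            rw [show cw s0 Q * (B1 * nw s0 Q) = B1 * (cw s0 Q * nw s0 Q) by ring, h1', mul_one]
    · rw [abs_zero]; exact hG0 Q
  have hsum : Summable (net2 X s0 μ f e kd nv) := Summable.of_norm_bounded hGs fun Q => by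
    rw [Real.norm_eq_abs]; exact hbd Q
  refine ⟨hsum, ?_⟩
  -- the defects
  obtain ⟨hD0, -, hDs⟩ := H3 E f hf hfs s0 hs0 e hDe
  set g : Cell d → ℝ := fun Q => cw s0 Q * dC X.b X.ε R s0 f e Q with hg
  have hg0 : ∀ Q, 0 ≤ g Q := fun Q => mul_nonneg (cw_nonneg hs0 Q) (hD0 Q)
  have hgs : Summable g := summable_of_cs hg0 (hDs.trans_lt ENNReal.ofReal_lt_top).ne
  have hgle : ∑' Q, g Q ≤ Cp * ∫ y, ‖f y‖ := by
    rw [cs_eq_tsum hg0 hgs] at hDs
    exact (ENNReal.ofReal_le_ofReal_iff (by positivity)).1 hDs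
  have hgI : ∀ I : ℕ, ∑ i ∈ Finset.Ico 2 I, ∑' p : Fin d → ℤ, g (i, p) ≤ Cp * ∫ y, ‖f y‖ := by
    intro I
    have hh := hgs.prod
    calc ∑ i ∈ Finset.Ico 2 I, ∑' p : Fin d → ℤ, g (i, p)
        ≤ ∑' i : ℕ, ∑' p : Fin d → ℤ, g (i, p) :=
          hh.sum_le_tsum _ fun i _ => tsum_nonneg fun p => hg0 _
      _ = ∑' Q, g Q := (hgs.tsum_prod).symm
      _ ≤ _ := hgle
  -- partial sums
  have hpart : ∀ I : ℕ, ∑ i ∈ Finset.range I, ∑' p : Fin d → ℤ, net2 X s0 μ f e kd nv (i, p) ≤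
      Ct * (1 + Cp) * ∫ y, ‖f y‖ := by
    intro I
    have e1 : ∑ i ∈ Finset.range I, ∑' p : Fin d → ℤ, net2 X s0 μ f e kd nv (i, p) =
        ∑ i ∈ Finset.Ico 2 I, ∑' p : Fin d → ℤ, net X s0 μ f e kd nv (i, p) := by
      symm
      have hsub : Finset.Ico 2 I ⊆ Finset.range I := by
        intro i hi
        rw [Finset.mem_Ico] at hi
        exact Finset.mem_range.2 hi.2
      rw [← Finset.sum_subset (f := fun i => ∑' p : Fin d → ℤ, net2 X s0 μ f e kd nv (i, p)) hsub]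
      · apply Finset.sum_congr rfl
        intro i hi
        rw [Finset.mem_Ico] at hi
        apply tsum_congr
        intro p
        simp only [net2]
        rw [if_pos hi.1]
      · intro i hi hni
        have hi2 : ¬ 2 ≤ i := by
          intro hcon
          exact hni (Finset.mem_Ico.2 ⟨hcon, Finset.mem_range.1 hi⟩)
        simp only [net2, hi2, if_false, tsum_zero]
    have e2 : ∑ i ∈ Finset.Ico 2 I, ∑' p : Fin d → ℤ, net X s0 μ f e kd nv (i, p) =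
        ∑ i ∈ Finset.Ico 2 I, ∑' p : Fin d → ℤ,
          ∫ y, chiQ (cen s0 i p) (lev s0 i) y * ⟪f y, e (i, p)⟫_ℝ *
            GG (KN X.b (i - 2)) X.ε μ (lev s0 i) y := by
      apply Finset.sum_congr rfl
      intro i _
      exact (h1 d hd M c0 C' hC' X hX E f hf hfs μ hμ s0 hs0 e kd nv hnv i).2
    have e3 := H5 E μ hμ f hf hfs s0 hs0 (fun i p => e (i, p)) (fun i p => hDe.unit (i, p)) I
    have e4 := hgI I
    have e5 : ∑ i ∈ Finset.Ico 2 I, ∑' p : Fin d → ℤ,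
        lev s0 i ^ (d - 1) * DD X.b X.ε R s0 f i (cen s0 i p) (e (i, p)) ≤
          Cp * ∫ y, ‖f y‖ := e4
    rw [e1, e2]
    refine e3.trans ?_
    rw [mul_assoc]
    apply mul_le_mul_of_nonneg_left _ hCt.le
    linarith
  have hlim : Filter.Tendsto (fun I : ℕ => ∑ i ∈ Finset.range I, ∑' p : Fin d → ℤ,
      net2 X s0 μ f e kd nv (i, p)) Filter.atTop (nhds (∑' Q, net2 X s0 μ f e kd nv Q)) := by
    rw [hsum.tsum_prod]
    exact hsum.prod.hasSum.tendsto_sum_nat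
  exact le_of_tendsto' hlim hpart

end

end TG


end

section

/-!
# Trace inequality, general operators: MODULE CT5, masses, defects and plane functionals of
cells of different levels
-/

open MeasureTheory Metric Set TrI
open scoped InnerProductSpace ContDiff

namespace TG

namespace CT5

noncomputable section

variable {d : ℕ} {E : Type} [NormedAddCommGroup E] [InnerProductSpace ℝ E]

/-! ## frames -/

lemma s0_div {s0 : ℝ} (hs : 0 < s0) (n : ℕ) : s0 / lev s0 n = (1 / 2) ^ n := by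
  unfold lev
  rw [one_div, inv_pow, div_mul_eq_div_div, div_self hs.ne', one_div]

lemma DD_fr (b : Sp d → ℝ) (ε R : ℝ) {s0 : ℝ} (hs : 0 < s0) (f : Sp d → E) (n : ℕ) (x : Sp d)
    (e : E) : DD b ε R ((1 / 2) ^ n) (rs x (lev s0 n) f) n 0 e = DD b ε R s0 f n x e := by
  have h := TW.DD_rs b ε R s0 f n x 0 e (lev_pos hs n)
  rw [s0_div hs, smul_zero, add_zero] at h
  exact h

lemma ma_fr (b : Sp d → ℝ) (ε R : ℝ) {s0 : ℝ} (hs : 0 < s0) (f : Sp d → E) (n : ℕ) (x : Sp d) :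
    ma b ε R ((1 / 2) ^ n) (rs x (lev s0 n) f) n 0 = ma b ε R s0 f n x := by
  have h := TW.ma_rs b ε R s0 f n x 0 (lev_pos hs n)
  rw [s0_div hs, smul_zero, add_zero] at h
  exact h

lemma ma_u (b : Sp d → ℝ) (ε R : ℝ) (f : Sp d → E) (n : ℕ) :
    ma b ε R ((1 / 2) ^ n) f n 0 =
      ∫ y in ball (0 : Sp d) R, ‖fl b ε ((1 / 2) ^ n) f (n - 1) y‖ := by
  unfold ma
  rw [TW.lev_u, one_pow, div_one, one_mul, mul_one]

lemma rs_cont {f : Sp d → E} (hf : Continuous f) (x : Sp d) (t : ℝ) : Continuous (rs x t f) := by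
  unfold rs
  fun_prop

lemma rs_cs {f : Sp d → E} (hf : HasCompactSupport f) (x : Sp d) {t : ℝ} (ht : 0 < t) :
    HasCompactSupport (rs x t f) := by
  have h3 := hf.comp_homeomorph
    ((Homeomorph.smulOfNeZero t ht.ne').trans (Homeomorph.addLeft x))
  exact h3.smul_left (f := fun _ : Sp d => t)

/-- the plane functional in the frame of the cell -/
lemma bb_fr (ρ : ℝ) {s0 : ℝ} (hs : 0 < s0) (f : Sp d → E) (n : ℕ) (x : Sp d) (e : E)
    (ν : Sp d) (c : ℝ) :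
    bb ρ s0 f n x e ν c = ∫ y, ⟪rs x (lev s0 n) f y, e⟫_ℝ *
      (zR ρ y * ht ν (-(ht ν c x / lev s0 n)) y ^ 2) := by
  have ht0 := lev_pos hs n
  have h1 := TU.frame_int f e x ht0 (fun y => zR ρ ((1 / lev s0 n) • (y - x)) *
    (ht ν c y / lev s0 n) ^ 2)
  unfold bb
  rw [← h1]
  congr 1
  ext y
  have e1 : (1 / lev s0 n) • (x + lev s0 n • y - x) = y := by
    rw [add_sub_cancel_left, smul_smul, one_div, inv_mul_cancel₀ ht0.ne', one_smul]
  have e2 : ht ν c (x + lev s0 n • y) / lev s0 n = ht ν (-(ht ν c x / lev s0 n)) y := by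
    unfold ht
    rw [inner_add_right, inner_smul_right]
    field_simp
    ring
  simp only [e1, e2]

/-! ## levels -/

lemma lev_ge {s0 : ℝ} (hs : 0 < s0) (i m : ℕ) : lev s0 i ≤ lev s0 (i + m) := by
  rw [lev_add]
  have h1 : (1 : ℝ) ≤ 2 ^ m := one_le_pow₀ (by norm_num)
  have h2 := lev_pos hs i
  nlinarith

/-- the ratio of the normalisations -/
lemma nw_ratio {s0 : ℝ} (hs : 0 < s0) (i m : ℕ) :
    lev s0 i / lev s0 i ^ d = (2 ^ m) ^ d / 2 ^ m * (lev s0 (i + m) / lev s0 (i + m) ^ d) := by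
  have h0 := lev_pos hs i
  rw [lev_add, mul_pow]
  field_simp

lemma dfn_nn {e : E} (he : ‖e‖ = 1) (g : Sp d → E) (y : Sp d) : 0 ≤ ‖g y‖ - ⟪g y, e⟫_ℝ := by
  have h2 := (abs_le.1 (abs_real_inner_le_norm (g y) e)).2
  rw [he, mul_one] at h2
  linarith

lemma dfn_int {g : Sp d → E} (hg : Continuous g) (hc : HasCompactSupport g) (e : E) :
    Integrable fun y => ‖g y‖ - ⟪g y, e⟫_ℝ := by
  refine (hg.norm.integrable_of_hasCompactSupport hc.norm).sub ?_
  refine Continuous.integrable_of_hasCompactSupport (hg.inner continuous_const) ?_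
  exact hc.comp_left (g := fun v : E => ⟪v, e⟫_ℝ) (inner_zero_left _)

/-- the defect grows at most by a factor if the ball grows -/
lemma DD_mono {b : Sp d → ℝ} {J : ℕ} {M c0 : ℝ} (hb : BaseKer J M c0 b) (ε : ℝ) {f : Sp d → E}
    (hf : Continuous f) (hfc : HasCompactSupport f) {s0 : ℝ} (hs : 0 < s0) (i m : ℕ) {R : ℝ}
    {x x' : Sp d} (hB : ball x (R * lev s0 i) ⊆ ball x' (R * lev s0 (i + m)))
    {e : E} (he : ‖e‖ = 1) :
    DD b ε R s0 f i x e ≤ (2 ^ m) ^ d / 2 ^ m * 4 ^ m * DD b ε R s0 f (i + m) x' e := by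
  have hfl := TW.fl_ok hb ε s0 hf hfc
  have hI : ∀ l, ∫ y in ball x (R * lev s0 i), (‖fl b ε s0 f l y‖ - ⟪fl b ε s0 f l y, e⟫_ℝ) ≤
      ∫ y in ball x' (R * lev s0 (i + m)), (‖fl b ε s0 f l y‖ - ⟪fl b ε s0 f l y, e⟫_ℝ) := by
    intro l
    exact setIntegral_mono_set (dfn_int (hfl l).1 (hfl l).2 e).integrableOn
      (Filter.Eventually.of_forall fun y => dfn_nn he _ y)
      (Filter.Eventually.of_forall hB)
  have hJ : ∫ y in ball x (R * lev s0 i), ‖f y‖ ≤ ∫ y in ball x' (R * lev s0 (i + m)), ‖f y‖ :=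
    setIntegral_mono_set (hf.norm.integrable_of_hasCompactSupport hfc.norm).integrableOn
      (Filter.Eventually.of_forall fun y => norm_nonneg _) (Filter.Eventually.of_forall hB)
  have hp := lev_pos hs (i + m)
  have hnn : 0 ≤ (2 ^ m) ^ d / 2 ^ m * (lev s0 (i + m) / lev s0 (i + m) ^ d) := by positivity
  unfold DD
  rw [nw_ratio hs i m, mul_assoc ((2 ^ m) ^ d / 2 ^ m : ℝ) (4 ^ m) _, mul_assoc _ _
    (∑ l ∈ Finset.range (i + 1), _ + _)]
  have key : (∑ l ∈ Finset.range (i + 1), (1 / 4 : ℝ) ^ (i - l) *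
      (∫ y in ball x (R * lev s0 i), (‖fl b ε s0 f l y‖ - ⟪fl b ε s0 f l y, e⟫_ℝ))
      + (1 / 4 : ℝ) ^ i * ∫ y in ball x (R * lev s0 i), ‖f y‖) ≤
      4 ^ m * (∑ l ∈ Finset.range (i + m + 1), (1 / 4 : ℝ) ^ (i + m - l) *
      (∫ y in ball x' (R * lev s0 (i + m)), (‖fl b ε s0 f l y‖ - ⟪fl b ε s0 f l y, e⟫_ℝ))
      + (1 / 4 : ℝ) ^ (i + m) * ∫ y in ball x' (R * lev s0 (i + m)), ‖f y‖) := by
    rw [mul_add, Finset.mul_sum]
    refine add_le_add ?_ ?_
    · refine (Finset.sum_le_sum (fun l hl => ?_)).trans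
        (Finset.sum_le_sum_of_subset_of_nonneg (Finset.range_mono (by omega : i + 1 ≤ i + m + 1))
          fun l _ _ => ?_)
      · have hl' := Finset.mem_range.1 hl
        have e2 : (1 / 4 : ℝ) ^ (i + m - l) = (1 / 4) ^ m * (1 / 4) ^ (i - l) := by
          rw [← pow_add]
          congr 1
          omega
        have e3 : (4 : ℝ) ^ m * (1 / 4) ^ m = 1 := by
          rw [← mul_pow]
          norm_num
        rw [e2, ← mul_assoc, ← mul_assoc, e3, one_mul]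
        exact mul_le_mul_of_nonneg_left (hI l) (by positivity)
      · exact mul_nonneg (by positivity) (mul_nonneg (by positivity)
          (integral_nonneg fun y => dfn_nn he _ y))
    · have e3 : (4 : ℝ) ^ m * (1 / 4) ^ m = 1 := by
        rw [← mul_pow]
        norm_num
      calc (1 / 4 : ℝ) ^ i * ∫ y in ball x (R * lev s0 i), ‖f y‖
          ≤ (1 / 4 : ℝ) ^ i * ∫ y in ball x' (R * lev s0 (i + m)), ‖f y‖ :=
            mul_le_mul_of_nonneg_left hJ (by positivity)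
        _ = (4 ^ m * (1 / 4) ^ m) * ((1 / 4 : ℝ) ^ i *
            ∫ y in ball x' (R * lev s0 (i + m)), ‖f y‖) := by rw [e3, one_mul]
        _ = _ := by rw [pow_add]; ring
  calc (2 ^ m) ^ d / 2 ^ m * ((lev s0 (i + m) / lev s0 (i + m) ^ d) * _) ≤
      (2 ^ m) ^ d / 2 ^ m * ((lev s0 (i + m) / lev s0 (i + m) ^ d) * _) := by
        refine mul_le_mul_of_nonneg_left (mul_le_mul_of_nonneg_left key ?_) ?_ <;> positivity
    _ = _ := by ring

/-! ## transfer of mass between levels -/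

lemma mass_tr [FiniteDimensional ℝ E] {b : Sp d → ℝ} {M c0 ε : ℝ} (hb : BaseKer 2 M c0 b)
    (hε : 0 < ε) (hε1 : ε ≤ 1) {f : Sp d → E} (hf : Continuous f) (hfc : HasCompactSupport f)
    {s0 : ℝ} (hs : 0 < s0) (i m : ℕ) {R r1 r2 : ℝ} {x x' : Sp d} {e : E} (he : ‖e‖ = 1)
    (hr2 : r2 ≤ R - 3)
    (h : r1 * lev s0 i + ‖x' - x‖ + lev s0 (i + m) ≤ r2 * lev s0 (i + m)) :
    ma b ε r1 s0 f i x ≤ (2 ^ m) ^ d / 2 ^ m *
      (ma b ε r2 s0 f (i + m) x' + 4 ^ (m + 1) * DD b ε R s0 f (i + m) x' e) := by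
  set n := i + m with hn
  set t := lev s0 n with ht
  have ht0 : 0 < t := lev_pos hs n
  have hsn : (0 : ℝ) < (1 / 2) ^ n := by positivity
  set F := rs x' t f with hF
  have hFc : Continuous F := rs_cont hf x' t
  have hFs : HasCompactSupport F := rs_cs hfc x' ht0
  have hun : lev ((1 / 2 : ℝ) ^ n) n = 1 := TW.lev_u n
  set y0 : Sp d := (1 / t) • (x - x') with hy0
  have hy0n : ‖y0‖ = ‖x' - x‖ / t := by
    rw [hy0, norm_smul, norm_sub_rev, one_div, norm_inv, Real.norm_of_nonneg ht0.le, inv_mul_eq_div]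
  set U : Set (Sp d) := ball y0 (r1 * lev s0 i / t) with hU
  have hUn : ∀ y ∈ U, ‖y‖ < r2 - 1 := by
    intro y hy
    rw [hU, mem_ball, dist_eq_norm] at hy
    have h1 := norm_add_le (y - y0) y0
    rw [sub_add_cancel, hy0n] at h1
    have h2 : r1 * lev s0 i / t + ‖x' - x‖ / t ≤ r2 - 1 := by
      rw [← add_div, div_le_iff₀ ht0]
      linarith
    linarith
  -- the integral in the frame
  have hfr : ∫ z in U, ‖fl b ε ((1 / 2) ^ n) F (i - 1) z‖ =
      t / t ^ d * ∫ y in ball x (r1 * lev s0 i), ‖fl b ε s0 f (i - 1) y‖ := by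
    have h1 : ∀ z, ‖fl b ε ((1 / 2) ^ n) F (i - 1) z‖ =
        t * ‖fl b ε s0 f (i - 1) (x' + t • z)‖ := by
      intro z
      have h2 := SC.fl_rs b ε s0 x' ht0 f (i - 1) z
      rw [ht, s0_div hs, ← ht] at h2
      rw [hF, h2, norm_smul, Real.norm_of_nonneg ht0.le]
    simp_rw [h1]
    rw [integral_const_mul, hU, SC.ball_scale x' ht0 (fun y => ‖fl b ε s0 f (i - 1) y‖)]
    have h3 : x' + t • y0 = x := by
      rw [hy0, smul_smul, mul_one_div_cancel ht0.ne', one_smul]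
      abel
    rw [h3]
    ring
  have hma : ma b ε r1 s0 f i x = (2 ^ m) ^ d / 2 ^ m *
      ∫ z in U, ‖fl b ε ((1 / 2) ^ n) F (i - 1) z‖ := by
    rw [hfr]
    unfold ma
    rw [nw_ratio hs i m, mul_assoc]
  have hNl : i - 1 ≤ n - 1 := by omega
  have hlevN : lev ((1 / 2 : ℝ) ^ n) (n - 1) ≤ 1 :=
    (MA.lev_le_lev hsn (by omega : n - 1 ≤ n)).trans hun.le
  have hlev2 : 1 / 2 + (lev ((1 / 2 : ℝ) ^ n) (n - 1) - lev ((1 / 2 : ℝ) ^ n) (i - 1)) ≤ 1 := by
    have h0 := lev_pos hsn (i - 1)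
    rcases Nat.eq_zero_or_pos n with h1 | h1
    · have h2 : i - 1 = n - 1 := by omega
      rw [h2]
      norm_num
    · have h2 := lev_succ ((1 / 2 : ℝ) ^ n) (n - 1)
      rw [show n - 1 + 1 = n by omega, hun] at h2
      linarith only [h0, h2]
  have hlev0 : lev ((1 / 2 : ℝ) ^ n) (i - 1) ≤ lev ((1 / 2 : ℝ) ^ n) (n - 1) :=
    MA.lev_le_lev hsn hNl
  have tr := MA.transfer hb.ak hb.even hb.supp hε hε1 hsn hFc hFs he (x := 0) (R := R) (U := U)
    (fun y hy => by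
      rw [sub_zero]
      have := hUn y hy
      linarith only [hr2, this]) hlevN (n - 1 - (i - 1)) (i - 1) (1 / 2) (by omega) (by norm_num) hlev2
  have hfl := TW.fl_ok hb ε ((1 / 2 : ℝ) ^ n) hFc hFs
  have t1 : ∫ z in U, ‖fl b ε ((1 / 2) ^ n) F (i - 1) z‖ ≤
      ∫ z in thickening (1 / 2) U, ‖fl b ε ((1 / 2) ^ n) F (i - 1) z‖ :=
    setIntegral_mono_set
      ((hfl (i - 1)).1.norm.integrable_of_hasCompactSupport (hfl (i - 1)).2.norm).integrableOn
      (Filter.Eventually.of_forall fun y => norm_nonneg _)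
      (Filter.Eventually.of_forall (self_subset_thickening (by norm_num) U))
  have t2 : ∫ z in thickening (1 / 2 + (lev ((1 / 2 : ℝ) ^ n) (n - 1) -
      lev ((1 / 2 : ℝ) ^ n) (i - 1))) U, ‖fl b ε ((1 / 2) ^ n) F (n - 1) z‖ ≤
      ma b ε r2 s0 f n x' := by
    rw [← ma_fr b ε r2 hs f n x', ma_u]
    refine setIntegral_mono_set
      ((hfl (n - 1)).1.norm.integrable_of_hasCompactSupport (hfl (n - 1)).2.norm).integrableOn
      (Filter.Eventually.of_forall fun y => norm_nonneg _)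
      (Filter.Eventually.of_forall fun z hz => ?_)
    obtain ⟨w, hw, hzw⟩ := mem_thickening_iff.1 hz
    have h1 := hUn w hw
    rw [dist_eq_norm] at hzw
    have h2 := norm_add_le (z - w) w
    rw [sub_add_cancel] at h2
    exact mem_ball_zero_iff.2 (by linarith only [hlev2, hzw, h1, h2])
  have t3 : ∑ j ∈ Finset.Ico (i - 1) (n - 1), ∫ y in ball (0 : Sp d) R,
      MA.dfn (fl b ε ((1 / 2) ^ n) F j) e y ≤ 4 ^ (m + 1) * DD b ε R s0 f n x' e := by
    rw [← DD_fr b ε R hs f n x' e]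
    have h1 := MA.DD_ge b ε R (n := n) F 0 he (N := n - 1) (by omega)
    refine le_trans ?_ (mul_le_mul_of_nonneg_left h1 (by positivity))
    rw [Finset.mul_sum]
    refine le_trans (Finset.sum_le_sum (fun j hj => ?_)) (Finset.sum_le_sum_of_subset_of_nonneg
      (s := Finset.Ico (i - 1) (n - 1)) (t := Finset.range (n - 1)) (f := fun j =>
        4 ^ (m + 1) * ((1 / 4 : ℝ) ^ (n - j) * ∫ y in ball (0 : Sp d) R,
          MA.dfn (fl b ε ((1 / 2) ^ n) F j) e y)) ?_ ?_)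
    · have hj' := Finset.mem_Ico.1 hj
      have h2 : 0 ≤ ∫ y in ball (0 : Sp d) R, MA.dfn (fl b ε ((1 / 2) ^ n) F j) e y :=
        integral_nonneg fun y => MA.dfn_nonneg he _ y
      have h3 : (1 : ℝ) ≤ 4 ^ (m + 1) * (1 / 4) ^ (n - j) := by
        have h4 : (1 / 4 : ℝ) ^ (m + 1) ≤ (1 / 4) ^ (n - j) :=
          pow_le_pow_of_le_one (by norm_num) (by norm_num) (by omega)
        have h5 : (4 : ℝ) ^ (m + 1) * (1 / 4) ^ (m + 1) = 1 := by
          rw [← mul_pow]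
          norm_num
        exact h5.symm.le.trans (mul_le_mul_of_nonneg_left h4 (by positivity))
      calc ∫ y in ball (0 : Sp d) R, MA.dfn (fl b ε ((1 / 2) ^ n) F j) e y
          ≤ (4 ^ (m + 1) * (1 / 4) ^ (n - j)) *
            ∫ y in ball (0 : Sp d) R, MA.dfn (fl b ε ((1 / 2) ^ n) F j) e y :=
            le_mul_of_one_le_left h2 h3
        _ = _ := by ring
    · intro j hj
      exact Finset.mem_range.2 (Finset.mem_Ico.1 hj).2
    · intro j _ _
      exact mul_nonneg (by positivity) (mul_nonneg (by positivity)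
        (integral_nonneg fun y => MA.dfn_nonneg he _ y))
  rw [hma]
  refine mul_le_mul_of_nonneg_left ?_ (by positivity)
  linarith only [tr, t1, t2, t3]

/-! ## planes -/

/-- a plane which passes through the big ball of a cell can be moved to one near the cell -/
lemma shift (ν : Sp d) (c : ℝ) (hν : ‖ν‖ = 1) (x : Sp d) {ρ : ℝ} (hρ : 0 ≤ ρ) :
    ∃ c' : ℝ, |ht ν c' x| ≤ ρ ∧ ∀ y : Sp d, ‖y - x‖ ≤ ρ → |ht ν c' y| ≤ |ht ν c y| := by
  have hd : ∀ y : Sp d, ‖y - x‖ ≤ ρ → |⟪ν, y⟫_ℝ - ⟪ν, x⟫_ℝ| ≤ ρ := by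
    intro y hy
    rw [← inner_sub_right]
    have := abs_real_inner_le_norm ν (y - x)
    rw [hν, one_mul] at this
    linarith
  rcases le_total |ht ν c x| ρ with h | h
  · exact ⟨c, h, fun y _ => le_rfl⟩
  · rcases le_total 0 (ht ν c x) with h1 | h1
    · rw [abs_of_nonneg h1] at h
      unfold ht at h
      refine ⟨⟪ν, x⟫_ℝ - ρ, ?_, fun y hy => ?_⟩
      · unfold ht
        rw [sub_sub_cancel, abs_of_nonneg hρ]
      · have h2 := abs_le.1 (hd y hy)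
        unfold ht
        rw [abs_of_nonneg (by linarith), abs_of_nonneg (by linarith)]
        linarith
    · rw [abs_of_nonpos h1] at h
      unfold ht at h
      refine ⟨⟪ν, x⟫_ℝ + ρ, ?_, fun y hy => ?_⟩
      · unfold ht
        rw [sub_add_cancel_left, abs_neg, abs_of_nonneg hρ]
      · have h2 := abs_le.1 (hd y hy)
        unfold ht
        rw [abs_of_nonpos (by linarith), abs_of_nonpos (by linarith)]
        linarith

/-! ## cut-off times squared height -/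

/-- the test function of the plane functional -/
def gq (R0 : ℝ) (ν : Sp d) (c : ℝ) (y : Sp d) : ℝ := zR R0 y * ht ν c y ^ 2

lemma gq_nonneg (R0 : ℝ) (ν : Sp d) (c : ℝ) (y : Sp d) : 0 ≤ gq R0 ν c y :=
  mul_nonneg (TU.zR_nonneg R0 y) (sq_nonneg _)

lemma gq_zero {R0 : ℝ} (ν : Sp d) (c : ℝ) {y : Sp d} (h : R0 + 1 ≤ ‖y‖) : gq R0 ν c y = 0 := by
  unfold gq
  rw [TU.zR_zero h, zero_mul]

lemma gq_int {R0 : ℝ} (hR0 : 0 < R0) {F : Sp d → E} (hF : Continuous F) (hc : HasCompactSupport F)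
    (e : E) (ν : Sp d) (c : ℝ) : Integrable fun y => ⟪F y, e⟫_ℝ * gq R0 ν c y := by
  have h1 : Continuous (gq R0 ν c) := by
    unfold gq
    exact (TU.zR_smooth hR0).continuous.mul ((TU.ht_smooth (n := 0) ν c).continuous.pow 2)
  refine Continuous.integrable_of_hasCompactSupport
    ((hF.inner continuous_const).mul h1) ?_
  exact (hc.comp_left (g := fun v : E => ⟪v, e⟫_ℝ) (inner_zero_left _)).mul_right

lemma ht_div (ν x y : Sp d) (c : ℝ) {t : ℝ} (ht0 : 0 < t) :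
    ht ν c y / t = ht ν (-(ht ν c x / t)) ((1 / t) • (y - x)) := by
  unfold ht
  rw [inner_smul_right, inner_sub_right]
  field_simp
  ring

/-- the plane functional, written with gq -/
lemma bb_gq (ρ : ℝ) {s0 : ℝ} (hs : 0 < s0) (f : Sp d → E) (n : ℕ) (x : Sp d) (e : E)
    (ν : Sp d) (c : ℝ) :
    bb ρ s0 f n x e ν c = lev s0 n / lev s0 n ^ d * ∫ y, ⟪f y, e⟫_ℝ *
      gq ρ ν (-(ht ν c x / lev s0 n)) ((1 / lev s0 n) • (y - x)) := by
  unfold bb gq
  simp only [← ht_div ν x _ c (lev_pos hs n)]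

/-- comparison of the plane functionals of two cells, same direction -/
lemma cmp [FiniteDimensional ℝ E] {b : Sp d → ℝ} {ε : ℝ} {CZ : ℝ}
    (hZ : ∀ f : Sp d → E, Continuous f → HasCompactSupport f → ∀ (R : ℝ), 3 ≤ R →
      ∀ (n : ℕ) (e : E), ‖e‖ = 1 → ∀ (x : Sp d) (H : Sp d → ℝ) (N : ℝ), TFn 2 N H →
      (∀ y, 0 ≤ H y) → (∀ y, R - 2 ≤ ‖y - x‖ → H y = 0) →
      -(CZ * N * DD b ε R ((1 / 2) ^ n) f n x e) ≤ ∫ y, ⟪f y, e⟫_ℝ * H y)
    {R0 N2 : ℝ} (hR0 : 3 ≤ R0)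
    (hN2 : ∀ (ν : Sp d) (c : ℝ), ‖ν‖ = 1 → |c| ≤ R0 + 1 → TFn 2 N2 (gq R0 ν c))
    {R : ℝ} (hR : 2 * R0 + 10 ≤ R) {f : Sp d → E} (hf : Continuous f) (hfc : HasCompactSupport f)
    {s0 : ℝ} (hs : 0 < s0) (i m : ℕ) {x x' : Sp d}
    (hx : ‖x' - x‖ ≤ R0 * lev s0 (i + m) - (R0 + 1) * lev s0 i) {e : E} (he : ‖e‖ = 1)
    {ν : Sp d} (hν : ‖ν‖ = 1) {c c' : ℝ} (hc : |ht ν c x'| ≤ (R0 + 1) * lev s0 (i + m))
    (hc' : |ht ν c' x| ≤ (R0 + 1) * lev s0 i)
    (hcc : ∀ y : Sp d, ‖y - x‖ ≤ (R0 + 1) * lev s0 i → |ht ν c' y| ≤ |ht ν c y|) :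
    bb R0 s0 f i x e ν c' ≤ (2 ^ m) ^ d / 2 ^ m * (4 ^ m * bb R0 s0 f (i + m) x' e ν c +
      CZ * (|(4 : ℝ) ^ m| * N2 + max 1 |(2 : ℝ) ^ m| ^ 2 * N2) *
        DD b ε R s0 f (i + m) x' e) := by
  set t := lev s0 i with ht1
  set T := lev s0 (i + m) with hT1
  have ht0 : 0 < t := lev_pos hs i
  have hT0 : 0 < T := lev_pos hs (i + m)
  have hTt : T = 2 ^ m * t := by
    rw [hT1, lev_add, ← ht1]
  set κ := -(ht ν c' x / t) with hκ
  set γ := -(ht ν c x' / T) with hγ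
  have hκ1 : |κ| ≤ R0 + 1 := by
    rw [hκ, abs_neg, abs_div, abs_of_pos ht0, div_le_iff₀ ht0]
    exact hc'
  have hγ1 : |γ| ≤ R0 + 1 := by
    rw [hγ, abs_neg, abs_div, abs_of_pos hT0, div_le_iff₀ hT0]
    exact hc
  set a : Sp d := (1 / t) • (x' - x) with ha
  have han : ‖a‖ ≤ R0 * 2 ^ m - (R0 + 1) := by
    rw [ha, norm_smul, one_div, norm_inv, Real.norm_of_nonneg ht0.le, inv_mul_le_iff₀ ht0]
    refine hx.trans (le_of_eq ?_)
    rw [hTt]
    ring
  set F := rs x' T f with hF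
  have hFc : Continuous F := rs_cont hf x' T
  have hFs : HasCompactSupport F := rs_cs hfc x' hT0
  have hpt : ∀ w : Sp d, (1 / t) • (x' + T • w - x) = a + (2 : ℝ) ^ m • w := by
    intro w
    rw [ha, add_sub_right_comm, smul_add, smul_smul, hTt]
    congr 2
    field_simp
  have h1 := hN2 ν γ hν hγ1
  have h2 := TU.TFn_aff (hN2 ν κ hν hκ1) a (t := (2 : ℝ) ^ m) (by positivity)
  have h3 := TU.TFn_sub (TU.TFn_const_mul h1 (4 ^ m)) h2
  have hout : ∀ w : Sp d, R0 + 1 ≤ ‖w‖ → R0 + 1 ≤ ‖a + (2 : ℝ) ^ m • w‖ := by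
    intro w hw
    have h4 := norm_sub_norm_le ((2 : ℝ) ^ m • w) (-a)
    rw [norm_smul, norm_neg, sub_neg_eq_add, Real.norm_of_nonneg (by positivity),
      add_comm _ a] at h4
    have h5 : (1 : ℝ) ≤ 2 ^ m := one_le_pow₀ (by norm_num)
    nlinarith only [hT0, hTt, ht0, han, h4, hw]
  have hnn : ∀ w : Sp d, 0 ≤ 4 ^ m * gq R0 ν γ w - gq R0 ν κ (a + (2 : ℝ) ^ m • w) := by
    intro w
    rcases le_or_gt (R0 + 1) ‖a + (2 : ℝ) ^ m • w‖ with h4 | h4
    · rw [gq_zero ν κ h4, sub_zero]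
      exact mul_nonneg (by positivity) (gq_nonneg _ _ _ _)
    · -- the point y
      set y : Sp d := x' + T • w with hy
      have hyx : (1 / t) • (y - x) = a + (2 : ℝ) ^ m • w := hpt w
      have hyx' : (1 / T) • (y - x') = w := by
        rw [hy, add_sub_cancel_left, smul_smul, one_div, inv_mul_cancel₀ hT0.ne', one_smul]
      have h5 : ‖y - x‖ ≤ (R0 + 1) * t := by
        have h6 : y - x = t • (a + (2 : ℝ) ^ m • w) := by
          rw [← hyx, smul_smul, mul_one_div_cancel ht0.ne', one_smul]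
        rw [h6, norm_smul, Real.norm_of_nonneg ht0.le, mul_comm]
        exact mul_le_mul_of_nonneg_right h4.le ht0.le
      have h7 : ‖w‖ ≤ R0 := by
        rw [← hyx', norm_smul, one_div, norm_inv, Real.norm_of_nonneg hT0.le, inv_mul_le_iff₀ hT0]
        have h8 : y - x' = (y - x) - (x' - x) := by abel
        rw [h8]
        refine (norm_sub_le _ _).trans ?_
        linarith
      have h9 := hcc y h5
      unfold gq
      rw [TU.zR_one h7, ← hyx, hκ, ← ht_div ν x y c' ht0, ← hyx', hγ, ← ht_div ν x' y c hT0]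
      have h10 : ht ν c' y ^ 2 ≤ ht ν c y ^ 2 := sq_le_sq.2 h9
      have h11 : (4 : ℝ) ^ m * (1 * (ht ν c y / T) ^ 2) = (ht ν c y / t) ^ 2 := by
        rw [hTt, div_pow, div_pow, mul_pow, ← pow_mul, mul_comm m 2, pow_mul]
        norm_num
        field_simp
      rw [h11, sub_nonneg]
      calc zR R0 ((1 / t) • (y - x)) * (ht ν c' y / t) ^ 2 ≤ 1 * (ht ν c' y / t) ^ 2 :=
            mul_le_mul_of_nonneg_right (TU.zR_le_one _ _) (sq_nonneg _)
        _ = ht ν c' y ^ 2 / t ^ 2 := by rw [one_mul, div_pow]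
        _ ≤ ht ν c y ^ 2 / t ^ 2 := by gcongr
        _ = _ := by rw [div_pow]
  have key := hZ F hFc hFs R (by linarith) (i + m) e he 0 _ _ h3 hnn (by
    intro w hw
    rw [sub_zero] at hw
    rw [gq_zero ν γ (by linarith), gq_zero ν κ (hout w (by linarith))]
    ring)
  rw [DD_fr b ε R hs f (i + m) x' e] at key
  -- split the integral
  have e1 : ∫ w, ⟪F w, e⟫_ℝ * gq R0 ν γ w = bb R0 s0 f (i + m) x' e ν c := by
    rw [bb_fr R0 hs f (i + m) x' e ν c]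
    rfl
  have e2 : ∫ w, ⟪F w, e⟫_ℝ * gq R0 ν κ (a + (2 : ℝ) ^ m • w) =
      T / T ^ d * ∫ y, ⟪f y, e⟫_ℝ * gq R0 ν κ ((1 / t) • (y - x)) := by
    rw [← TU.frame_int f e x' hT0]
    simp only [hpt]
    rfl
  have e3 : bb R0 s0 f i x e ν c' = (2 ^ m) ^ d / 2 ^ m *
      ∫ w, ⟪F w, e⟫_ℝ * gq R0 ν κ (a + (2 : ℝ) ^ m • w) := by
    rw [e2, bb_gq R0 hs f i x e ν c', nw_ratio hs i m, mul_assoc]
  have i1 : Integrable fun w => ⟪F w, e⟫_ℝ * gq R0 ν γ w :=
    gq_int (by linarith) hFc hFs e ν γ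
  have i2 : Integrable fun w => ⟪F w, e⟫_ℝ * gq R0 ν κ (a + (2 : ℝ) ^ m • w) := by
    have hc1 : Continuous (gq R0 ν κ) := (hN2 ν κ hν hκ1).smooth.continuous
    refine Continuous.integrable_of_hasCompactSupport
      ((hFc.inner continuous_const).mul (hc1.comp (by fun_prop))) ?_
    exact (hFs.comp_left (g := fun v : E => ⟪v, e⟫_ℝ) (inner_zero_left _)).mul_right
  have e4 : ∫ w, ⟪F w, e⟫_ℝ * (4 ^ m * gq R0 ν γ w - gq R0 ν κ (a + (2 : ℝ) ^ m • w)) =
      4 ^ m * bb R0 s0 f (i + m) x' e ν c -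
        ∫ w, ⟪F w, e⟫_ℝ * gq R0 ν κ (a + (2 : ℝ) ^ m • w) := by
    rw [← e1, ← integral_const_mul, ← integral_sub (i1.const_mul _) i2]
    congr 1
    ext w
    ring
  rw [e4] at key
  rw [e3]
  refine mul_le_mul_of_nonneg_left ?_ (by positivity)
  linarith

end

end CT5

open _root_.TG.CT5 in
/-- MODULE CT5 -/
theorem stmtCT5 (hZ : StmtZ) (hMA : StmtMA) (hDI : StmtDI) : StmtCT5 := by
  intro d hd M c0 ε hε hε1 b hb R0 m hR0
  obtain ⟨CZ, hCZ, zz⟩ := TU.Z' hZ hd hε hε1 hb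
  obtain ⟨CM, hCM, mm⟩ := TU.MA' hMA hd hε hε1 hb
  obtain ⟨CD, hCD, dd⟩ := TU.DI' hDI hd hε hε1 hb
  obtain ⟨N1, hN1, T1⟩ := TU.TFn_of_cs (J := 2) (ζ := (zR R0 : Sp d → ℝ))
    (contDiff_infty.1 (TU.zR_smooth (by linarith)) 2) (TU.zR_cs R0)
  set N2 : ℝ := 4 ^ 2 * N1 * max 1 ((R0 + 1) + (R0 + 1)) ^ 2 with hN2d
  have hN2 : 0 ≤ N2 := by positivity
  have T2 : ∀ (ν : Sp d) (c : ℝ), ‖ν‖ = 1 → |c| ≤ R0 + 1 → TFn 2 N2 (gq R0 ν c) := by
    intro ν c hν hc
    exact TU.TFn_ht_sq T1 (fun y hy => TU.zR_zero hy.le) hν hc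
  set K : ℝ := (2 ^ m) ^ d / 2 ^ m * 4 ^ m with hK
  set W : ℝ := (2 ^ m) ^ d / 2 ^ m with hW
  have hK0 : 0 ≤ K := by positivity
  have hW0 : 0 ≤ W := by positivity
  set N3 : ℝ := |(4 : ℝ) ^ m| * N2 + max 1 |(2 : ℝ) ^ m| ^ 2 * N2 with hN3
  have hN30 : 0 ≤ N3 := by positivity
  refine ⟨1 + CM * N2 + K + W * (1 + 4 ^ (m + 1)) + CD * (1 + K) + (W * 4 ^ m + W * (CZ * N3)) +
    CD * (1 + K) * N2, by positivity, ?_⟩
  set C : ℝ := 1 + CM * N2 + K + W * (1 + 4 ^ (m + 1)) + CD * (1 + K) +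
    (W * 4 ^ m + W * (CZ * N3)) + CD * (1 + K) * N2 with hC
  have p1 : 0 ≤ CM * N2 := by positivity
  have p2 : 0 ≤ W * (1 + 4 ^ (m + 1)) := by positivity
  have p3 : 0 ≤ CD * (1 + K) := by positivity
  have p4 : 0 ≤ W * 4 ^ m := by positivity
  have p5 : 0 ≤ W * (CZ * N3) := by positivity
  have p6 : 0 ≤ CD * (1 + K) * N2 := by positivity
  intro E _ _ _ R hR f hf hfc s0 hs e hDirs ν c hPl
  have hdC : ∀ Q, 0 ≤ dC b ε R s0 f e Q := fun Q =>
    TU.DD_nonneg b ε R hs f Q.1 (xC s0 Q) (hDirs.unit Q)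
  have hmC : ∀ (r : ℝ) (Q : Cell d), 0 ≤ mC b ε r s0 f Q := fun r Q =>
    TU.ma_nonneg b ε r hs f Q.1 (xC s0 Q)
  have hbC : ∀ Q, 0 ≤ bC R0 s0 f e ν c Q := fun Q => le_max_left _ _
  -- (2), for a general direction
  have D2 : ∀ Q P : Cell d, P.1 = Q.1 + m →
      ‖xC s0 P - xC s0 Q‖ ≤ R * (lev s0 P.1 - lev s0 Q.1) →
      DD b ε R s0 f Q.1 (xC s0 Q) (e P) ≤ K * dC b ε R s0 f e P := by
    intro Q P hQP hx
    have hB : ball (xC s0 Q) (R * lev s0 Q.1) ⊆ ball (xC s0 P) (R * lev s0 (Q.1 + m)) := by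
      refine ball_subset_ball' ?_
      rw [dist_comm, dist_eq_norm, ← hQP]
      linarith
    have h1 := DD_mono hb ε hf hfc hs Q.1 m hB (hDirs.unit P)
    rw [← hQP] at h1
    exact h1
  -- (5)
  have D5 : ∀ Q P : Cell d, P.1 = Q.1 + m → ∀ (ζ : Sp d → ℝ) (N : ℝ), TFn 2 N ζ →
        (∀ y, R - 3 ≤ ‖y‖ → ζ y = 0) →
        ‖xC s0 P - xC s0 Q‖ ≤ R * (lev s0 P.1 - lev s0 Q.1) →
        |∫ y, ⟪rs (xC s0 Q) (lev s0 Q.1) f y, e Q - e P⟫_ℝ * ζ y| ≤
          CD * (1 + K) * N * (dC b ε R s0 f e Q + dC b ε R s0 f e P) := by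
    intro Q P hQP ζ N hζ hζ0 hx
    have ht0 := lev_pos hs Q.1
    have h1 := dd E (rs (xC s0 Q) (lev s0 Q.1) f) (rs_cont hf _ _) (rs_cs hfc _ ht0) R
      (by linarith only [hR0, hR]) Q.1 (e Q) (e P) (hDirs.unit Q) (hDirs.unit P) 0 0 ζ N hζ
      (fun y hy => hζ0 y (by rw [sub_zero] at hy; linarith only [hy]))
      (fun y hy => hζ0 y (by rw [sub_zero] at hy; linarith only [hy]))
    rw [DD_fr b ε R hs f Q.1 (xC s0 Q) (e Q), DD_fr b ε R hs f Q.1 (xC s0 Q) (e P)] at h1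
    refine h1.trans ?_
    have h2 := D2 Q P hQP hx
    have h3 := hdC Q
    have h4 := hdC P
    have h5 := TU.TFn_nonneg hζ
    have h6 : DD b ε R s0 f Q.1 (xC s0 Q) (e Q) + DD b ε R s0 f Q.1 (xC s0 Q) (e P) ≤
        (1 + K) * (dC b ε R s0 f e Q + dC b ε R s0 f e P) := by
      have : DD b ε R s0 f Q.1 (xC s0 Q) (e Q) = dC b ε R s0 f e Q := rfl
      rw [this]
      linarith only [h2, h4, mul_nonneg hK0 h3]
    calc CD * N * (DD b ε R s0 f Q.1 (xC s0 Q) (e Q) + DD b ε R s0 f Q.1 (xC s0 Q) (e P))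
        ≤ CD * N * ((1 + K) * (dC b ε R s0 f e Q + dC b ε R s0 f e P)) :=
          mul_le_mul_of_nonneg_left h6 (by positivity)
      _ = _ := by ring
  refine ⟨fun Q => ⟨hdC Q, hbC Q, ?_⟩, ?_, ?_, ?_, ?_⟩
  · -- (1)
    have ht0 := lev_pos hs Q.1
    refine max_le (mul_nonneg (by positivity) (add_nonneg (hmC _ Q) (hdC Q))) ?_
    have h0 : ht (ν Q) ⟪ν Q, xC s0 Q⟫_ℝ (xC s0 Q) = 0 := by
      unfold ht
      exact sub_self _
    refine (hPl.min Q (ν Q) ⟪ν Q, xC s0 Q⟫_ℝ (hPl.unit Q) (by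
      rw [h0, abs_zero]
      positivity)).trans ?_
    rw [bb_fr R0 hs f Q.1 (xC s0 Q) (e Q), h0, zero_div, neg_zero]
    have h1 := (mm E (rs (xC s0 Q) (lev s0 Q.1) f) (rs_cont hf _ _) (rs_cs hfc _ ht0) R
      (by linarith) Q.1 (e Q) (hDirs.unit Q) 0 (ball (0 : Sp d) (R0 + 3)) measurableSet_ball).1
      (gq R0 (ν Q) 0) N2 (T2 (ν Q) 0 (hPl.unit Q) (by rw [abs_zero]; linarith))
      (fun y hy => gq_zero _ _ (by rw [sub_zero] at hy; linarith))
      (fun y z hy hz => by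
        have h2 : ‖y‖ < R0 + 1 := by
          by_contra h3
          exact hy (gq_zero _ _ (not_lt.1 h3))
        have h3 := norm_add_le (z - y) y
        rw [sub_add_cancel] at h3
        exact mem_ball_zero_iff.2 (by linarith))
    rw [DD_fr b ε R hs f Q.1 (xC s0 Q) (e Q), ← ma_u, ma_fr b ε (R0 + 3) hs f] at h1
    have h2 := (le_abs_self _).trans h1
    refine h2.trans ?_
    refine mul_le_mul_of_nonneg_right (by rw [hC]; linarith) (add_nonneg (hmC _ Q) (hdC Q))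
  · -- (2)
    intro Q P hQP hx
    refine (hDirs.min Q (e P) (hDirs.unit P)).trans ((D2 Q P hQP hx).trans ?_)
    exact mul_le_mul_of_nonneg_right (by rw [hC]; linarith) (hdC P)
  · -- (3)
    intro Q P hQP hx
    have ht0 := lev_pos hs Q.1
    have hle : lev s0 Q.1 ≤ lev s0 P.1 := by
      rw [hQP]
      exact lev_ge hs Q.1 m
    have hx2 : ‖xC s0 P - xC s0 Q‖ ≤ R * (lev s0 P.1 - lev s0 Q.1) := by
      refine hx.trans ?_
      linarith only [ht0, mul_nonneg (by linarith : 0 ≤ R - R0) (sub_nonneg.2 hle)]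
    have hnn := add_nonneg (add_nonneg (hbC P) (hdC Q)) (hdC P)
    refine max_le (mul_nonneg (by positivity) hnn) ?_
    obtain ⟨c', hc', hcc⟩ := shift (ν P) (c P) (hPl.unit P) (xC s0 Q)
      (by positivity : 0 ≤ (R0 + 1) * lev s0 Q.1)
    refine (hPl.min Q (ν P) c' (hPl.unit P) hc').trans ?_
    have hκ1 : |-(ht (ν P) c' (xC s0 Q) / lev s0 Q.1)| ≤ R0 + 1 := by
      rw [abs_neg, abs_div, abs_of_pos ht0, div_le_iff₀ ht0]
      exact hc'
    have hFc := rs_cont hf (xC s0 Q) (lev s0 Q.1)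
    have hFs := rs_cs hfc (xC s0 Q) ht0
    have hsplit : bb R0 s0 f Q.1 (xC s0 Q) (e Q) (ν P) c' =
        bb R0 s0 f Q.1 (xC s0 Q) (e P) (ν P) c' +
        ∫ y, ⟪rs (xC s0 Q) (lev s0 Q.1) f y, e Q - e P⟫_ℝ *
          gq R0 (ν P) (-(ht (ν P) c' (xC s0 Q) / lev s0 Q.1)) y := by
      rw [bb_fr R0 hs f Q.1 (xC s0 Q) (e Q), bb_fr R0 hs f Q.1 (xC s0 Q) (e P)]
      have i1 := gq_int (by linarith : 0 < R0) hFc hFs (e P) (ν P)
        (-(ht (ν P) c' (xC s0 Q) / lev s0 Q.1))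
      have i2 := gq_int (by linarith : 0 < R0) hFc hFs (e Q - e P) (ν P)
        (-(ht (ν P) c' (xC s0 Q) / lev s0 Q.1))
      have h3 := integral_add i1 i2
      unfold gq at h3 ⊢
      rw [← h3]
      congr 1
      ext y
      rw [inner_sub_right]
      ring
    have hA := cmp (zz E) hR0 T2 hR hf hfc hs Q.1 m (x := xC s0 Q) (x' := xC s0 P)
      (by rw [← hQP]; exact hx) (hDirs.unit P) (hPl.unit P) (c := c P) (c' := c')
      (by rw [← hQP]; exact hPl.loc P) hc' hcc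
    rw [← hQP] at hA
    have hB := (le_abs_self _).trans (D5 Q P hQP
      (gq R0 (ν P) (-(ht (ν P) c' (xC s0 Q) / lev s0 Q.1))) N2 (T2 _ _ (hPl.unit P) hκ1)
      (fun y hy => gq_zero _ _ (by linarith)) hx2)
    rw [hsplit]
    have h4 : bb R0 s0 f P.1 (xC s0 P) (e P) (ν P) (c P) ≤ bC R0 s0 f e ν c P := le_max_right _ _
    have h5 := mul_le_mul_of_nonneg_left h4 p4
    have h6 : DD b ε R s0 f P.1 (xC s0 P) (e P) = dC b ε R s0 f e P := rfl
    rw [h6, ← hN3, ← hW] at hA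
    have q1 := hbC P
    have q2 := hdC Q
    have q3 := hdC P
    have g1 : W * 4 ^ m * bC R0 s0 f e ν c P ≤ C * bC R0 s0 f e ν c P :=
      mul_le_mul_of_nonneg_right (by rw [hC]; linarith only [hK0, p1, p2, p3, p5, p6]) q1
    have g2 : CD * (1 + K) * N2 * dC b ε R s0 f e Q ≤ C * dC b ε R s0 f e Q :=
      mul_le_mul_of_nonneg_right (by rw [hC]; linarith only [hK0, p1, p2, p3, p5]) q2
    have g3 : (W * (CZ * N3) + CD * (1 + K) * N2) * dC b ε R s0 f e P ≤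
        C * dC b ε R s0 f e P :=
      mul_le_mul_of_nonneg_right (by rw [hC]; linarith only [hK0, p1, p2, p3]) q3
    calc _ ≤ W * (4 ^ m * bb R0 s0 f P.1 (xC s0 P) (e P) (ν P) (c P) +
          CZ * N3 * dC b ε R s0 f e P) +
          CD * (1 + K) * N2 * (dC b ε R s0 f e Q + dC b ε R s0 f e P) := add_le_add hA hB
      _ = W * 4 ^ m * bb R0 s0 f P.1 (xC s0 P) (e P) (ν P) (c P) +
          CD * (1 + K) * N2 * dC b ε R s0 f e Q +
          (W * (CZ * N3) + CD * (1 + K) * N2) * dC b ε R s0 f e P := by ring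
      _ ≤ _ := by linarith only [h5, g1, g2, g3]
  · -- (4)
    intro Q P hQP r1 r2 hr1 hr2 h
    have h1 := mass_tr hb hε hε1 hf hfc hs Q.1 m (R := R) (x := xC s0 Q) (x' := xC s0 P)
      (hDirs.unit P) hr2 (by rw [← hQP]; exact h)
    rw [← hQP] at h1
    refine h1.trans ?_
    have q1 := hmC r2 P
    have q2 := hdC P
    have h6 : DD b ε R s0 f P.1 (xC s0 P) (e P) = dC b ε R s0 f e P := rfl
    have h7 : ma b ε r2 s0 f P.1 (xC s0 P) = mC b ε r2 s0 f P := rfl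
    rw [h6, h7, ← hW]
    have h8 : (0 : ℝ) ≤ 4 ^ (m + 1) := by positivity
    calc W * (mC b ε r2 s0 f P + 4 ^ (m + 1) * dC b ε R s0 f e P)
        ≤ W * ((1 + 4 ^ (m + 1)) * (mC b ε r2 s0 f P + dC b ε R s0 f e P)) := by
          refine mul_le_mul_of_nonneg_left ?_ hW0
          linarith only [q2, mul_nonneg h8 q1]
      _ = W * (1 + 4 ^ (m + 1)) * (mC b ε r2 s0 f P + dC b ε R s0 f e P) := by ring
      _ ≤ _ := mul_le_mul_of_nonneg_right (by rw [hC]; linarith) (add_nonneg q1 q2)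
  · -- (5)
    intro Q P hQP ζ N hζ hζ0 hx
    refine (D5 Q P hQP ζ N hζ hζ0 hx).trans ?_
    have h5 := TU.TFn_nonneg hζ
    have q2 := hdC Q
    have q3 := hdC P
    refine mul_le_mul_of_nonneg_right (mul_le_mul_of_nonneg_right ?_ h5) (add_nonneg q2 q3)
    rw [hC]
    linarith

end TG


end

section

/-!
# MODULE ML, part 1: frames, comparison of radii, directions, transfer of sheets (helper25)
-/

open MeasureTheory Metric Set TrI
open scoped InnerProductSpace ContDiff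

namespace TG

namespace ML

noncomputable section

set_option linter.unusedSectionVars false

variable {d : ℕ}

/-! ## powers of two -/

/-- 2^(q l) -/
def pw (q : ℝ) (l : ℕ) : ℝ := (2 : ℝ) ^ (q * (l : ℝ))

lemma pw_pos (q : ℝ) (l : ℕ) : 0 < pw q l := Real.rpow_pos_of_pos two_pos _

lemma one_le_pw {q : ℝ} (hq : 0 ≤ q) (l : ℕ) : 1 ≤ pw q l :=
  Real.one_le_rpow (by norm_num) (by positivity)

lemma pw_add (q : ℝ) (l r : ℕ) : pw q (l + r) = pw q l * pw q r := by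
  unfold pw
  rw [← Real.rpow_add two_pos]
  congr 1
  push_cast
  ring

lemma pw_mul (q q' : ℝ) (l : ℕ) : pw q l * pw q' l = pw (q + q') l := by
  unfold pw
  rw [← Real.rpow_add two_pos]
  congr 1
  ring

lemma pw_le {q q' : ℝ} (h : q ≤ q') (l : ℕ) : pw q l ≤ pw q' l :=
  Real.rpow_le_rpow_of_exponent_le (by norm_num) (mul_le_mul_of_nonneg_right h (by positivity))

lemma pw_mono {q : ℝ} (hq : 0 ≤ q) {l l' : ℕ} (h : l ≤ l') : pw q l ≤ pw q l' :=
  Real.rpow_le_rpow_of_exponent_le (by norm_num)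
    (mul_le_mul_of_nonneg_left (by exact_mod_cast h) hq)

lemma pw_one (l : ℕ) : pw 1 l = 2 ^ l := by
  unfold pw
  rw [one_mul, Real.rpow_natCast]

lemma pw_zero (q : ℝ) : pw q 0 = 1 := by
  unfold pw
  simp

lemma pw_sq (q : ℝ) (l : ℕ) : pw q l ^ 2 = pw (2 * q) l := by
  rw [sq, pw_mul]
  congr 1
  ring

lemma pw_sqrt (q : ℝ) (l : ℕ) : Real.sqrt (pw q l) = pw (q / 2) l := by
  rw [Real.sqrt_eq_iff_eq_sq (pw_pos _ _).le (pw_pos _ _).le, pw_sq]
  congr 1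
  ring

lemma pw_add_le {q : ℝ} (hq : q ≤ 1) (l r : ℕ) : pw q (l + r) ≤ 2 ^ r * pw q l := by
  rw [pw_add, mul_comm]
  refine mul_le_mul_of_nonneg_right ?_ (pw_pos _ _).le
  rw [← pw_one]
  exact pw_le hq r

lemma wq_eq (q : ℝ) (r : ℕ) : wq q r * pw q r = 1 := by
  unfold wq pw
  rw [← Real.rpow_add two_pos]
  simp

lemma wq_pos (q : ℝ) (r : ℕ) : 0 < wq q r := Real.rpow_pos_of_pos two_pos _

/-- a term of a weighted sum -/
lemma term_le {q B : ℝ} {F : ℕ → ℝ} (hF : ∀ r, 0 ≤ F r)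
    (h : ∀ I : ℕ, ∑ r ∈ Finset.range I, wq q r * F r ≤ B) (r : ℕ) : F r ≤ pw q r * B := by
  have h1 : wq q r * F r ≤ B :=
    (Finset.single_le_sum (f := fun r => wq q r * F r)
      (fun i _ => mul_nonneg (wq_pos q i).le (hF i)) (Finset.self_mem_range_succ r)).trans
      (h (r + 1))
  have h2 := mul_le_mul_of_nonneg_left h1 (pw_pos q r).le
  rw [← mul_assoc, mul_comm (pw q r), wq_eq, one_mul] at h2
  exact h2

/-- geometric sums -/
lemma geo_half (I : ℕ) : ∑ r ∈ Finset.range I, (1 / 2 : ℝ) ^ r * pw (1 / 2) r ≤ 4 := by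
  have h0 : ∀ r : ℕ, (1 / 2 : ℝ) ^ r * pw (1 / 2) r ≤ (3 / 4) ^ r := by
    intro r
    have h1 : pw (1 / 2) r = (pw (1 / 2) 1) ^ r := by
      unfold pw
      rw [← Real.rpow_natCast, ← Real.rpow_mul (by norm_num)]
      congr 1
      push_cast
      ring
    rw [h1, ← mul_pow]
    have h2 : pw (1 / 2) 1 ≤ 3 / 2 := by
      have h3 : pw (1 / 2) 1 ^ 2 = 2 := by
        rw [pw_sq, show (2 : ℝ) * (1 / 2) = 1 by norm_num, pw_one]
        norm_num
      have h4 := pw_pos (1 / 2) 1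
      nlinarith only [h3]
    have h5 := pw_pos (1 / 2) 1
    exact pow_le_pow_left₀ (by positivity) (by linarith) r
  refine (Finset.sum_le_sum fun r _ => h0 r).trans ?_
  have h1 : ∑ r ∈ Finset.range I, (3 / 4 : ℝ) ^ r = ((3 / 4) ^ I - 1) / (3 / 4 - 1) :=
    geom_sum_eq (by norm_num) I
  rw [h1]
  have h2 : (0 : ℝ) < (3 / 4) ^ I := by positivity
  rw [div_le_iff_of_neg (by norm_num)]
  linarith

lemma geo_three (l : ℕ) : ∑ r ∈ Finset.range l, pw (3 / 4) r ≤ 2 * pw (3 / 4) l := by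
  induction l with
  | zero => simp [pw_zero]
  | succ l ih =>
    rw [Finset.sum_range_succ, pw_add]
    have h1 : (3 / 2 : ℝ) ≤ pw (3 / 4) 1 := by
      have h3 : pw (3 / 4) 1 ^ 4 = 8 := by
        have : pw (3 / 4) 1 ^ 4 = pw (3 / 4) 1 ^ 2 * pw (3 / 4) 1 ^ 2 := by ring
        rw [this, pw_sq, pw_mul]
        unfold pw
        rw [show ((2 : ℝ) * (3 / 4) + 2 * (3 / 4)) * ((1 : ℕ) : ℝ) = (3 : ℕ) by norm_num,
          Real.rpow_natCast]
        norm_num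
      by_contra hcon
      push Not at hcon
      have h4 := pw_pos (3 / 4) 1
      have h5 : pw (3 / 4) 1 ^ 4 < (3 / 2) ^ 4 := pow_lt_pow_left₀ hcon h4.le (by norm_num)
      rw [h3] at h5
      norm_num at h5
    have h2 := pw_pos (3 / 4) l
    nlinarith only [ih, h1, h2]

/-! ## frames -/

section Fr

variable {F : Type*} [NormedAddCommGroup F] [NormedSpace ℝ F]

lemma rs_rs (x x' : Sp d) (t t' : ℝ) (f : Sp d → F) :
    rs x' t' (rs x t f) = rs (x + t • x') (t * t') f := by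
  funext y
  unfold rs
  rw [smul_smul, smul_add, ← add_assoc, smul_smul, mul_comm t' t]

/-- centres of the cells of a tower in the frame of its cell l -/
def xf (x : ℕ → Sp d) (l r : ℕ) : Sp d := (1 / (2 : ℝ) ^ l) • (x (l + r) - x l)

lemma xf_spec (x : ℕ → Sp d) (l r : ℕ) : x l + (2 : ℝ) ^ l • xf x l r = x (l + r) := by
  unfold xf
  rw [smul_smul, mul_one_div_cancel (by positivity), one_smul]
  abel

lemma xf_zero (x : ℕ → Sp d) (l : ℕ) : xf x l 0 = 0 := by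
  unfold xf
  simp

lemma pow_n (n l : ℕ) : (1 / 2 : ℝ) ^ (n + l) = (1 / 2) ^ n / 2 ^ l := by
  rw [pow_add, div_eq_mul_inv _ ((2 : ℝ) ^ l), ← inv_pow, one_div]

end Fr

section Fr2

variable {E : Type} [NormedAddCommGroup E] [InnerProductSpace ℝ E]

lemma tower_fr {x : ℕ → Sp d} {e : ℕ → E} (h : Tower x e) (l : ℕ) :
    Tower (xf x l) (fun r => e (l + r)) where
  zero := xf_zero x l
  step := by
    intro r
    have h1 : xf x l (r + 1) - xf x l r = (1 / (2 : ℝ) ^ l) • (x (l + r + 1) - x (l + r)) := by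
      unfold xf
      rw [← smul_sub]
      congr 1
      rw [← add_assoc]
      abel
    rw [h1, norm_smul, Real.norm_of_nonneg (by positivity)]
    have h2 := mul_le_mul_of_nonneg_left (h.step (l + r))
      (by positivity : (0 : ℝ) ≤ 1 / (2 : ℝ) ^ l)
    refine h2.trans (le_of_eq ?_)
    rw [pow_add]
    field_simp
  unit := fun r => h.unit _

lemma tower_norm {x : ℕ → Sp d} {e : ℕ → E} (h : Tower x e) (l : ℕ) :
    ‖x l‖ ≤ Real.sqrt d * (2 ^ l - 1) := by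
  induction l with
  | zero => rw [h.zero]; simp
  | succ l ih =>
    have h1 := h.step l
    have h2 : ‖x (l + 1)‖ ≤ ‖x (l + 1) - x l‖ + ‖x l‖ := by
      have := norm_add_le (x (l + 1) - x l) (x l)
      rwa [sub_add_cancel] at this
    rw [pow_succ]
    linarith

lemma xf_one {x : ℕ → Sp d} {e : ℕ → E} (h : Tower x e) (l : ℕ) : ‖xf x l 1‖ ≤ Real.sqrt d := by
  have h1 := (tower_fr h l).step 0
  rw [zero_add, xf_zero, sub_zero, pow_zero, mul_one] at h1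
  exact h1

lemma rs_cont {f : Sp d → E} (hf : Continuous f) (x : Sp d) (t : ℝ) : Continuous (rs x t f) := by
  unfold rs
  fun_prop

lemma rs_cs {f : Sp d → E} (hfc : HasCompactSupport f) (x : Sp d) {t : ℝ} (ht : t ≠ 0) :
    HasCompactSupport (rs x t f) := by
  have h3 := hfc.comp_homeomorph
    ((Homeomorph.smulOfNeZero (t : ℝ) ht).trans (Homeomorph.addLeft x))
  exact h3.smul_left (f := fun _ : Sp d => (t : ℝ))

lemma DD_fr (b : Sp d → ℝ) (ε R : ℝ) (n : ℕ) (f : Sp d → E) (x : ℕ → Sp d) (l r : ℕ) (e : E) :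
    DD b ε R ((1 / 2) ^ (n + l)) (rs (x l) (2 ^ l) f) (n + l + r) (xf x l r) e =
      DD b ε R ((1 / 2) ^ n) f (n + (l + r)) (x (l + r)) e := by
  rw [pow_n, TW.DD_rs _ _ _ _ _ _ _ _ _ (by positivity), xf_spec, add_assoc]

lemma ma_fr (b : Sp d → ℝ) (ε R : ℝ) (n : ℕ) (f : Sp d → E) (x : ℕ → Sp d) (l r : ℕ) :
    ma b ε R ((1 / 2) ^ (n + l)) (rs (x l) (2 ^ l) f) (n + l + r) (xf x l r) =
      ma b ε R ((1 / 2) ^ n) f (n + (l + r)) (x (l + r)) := by
  rw [pow_n, TW.ma_rs _ _ _ _ _ _ _ _ (by positivity), xf_spec, add_assoc]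

variable [FiniteDimensional ℝ E]

/-- height of the plane in the frame of the cell l -/
def cf (ν : Sp d) (c : ℝ) (x : ℕ → Sp d) (l : ℕ) : ℝ := (c - ⟪ν, x l⟫_ℝ) / 2 ^ l

lemma bb_fr (hd : 1 ≤ d) (ρ : ℝ) (n : ℕ) {f : Sp d → E} (hf : Continuous f)
    (hfc : HasCompactSupport f) (x : ℕ → Sp d) (l r : ℕ) (e : E) (ν : Sp d) (c : ℝ) :
    bb ρ ((1 / 2) ^ (n + l)) (rs (x l) (2 ^ l) f) (n + l + r) (xf x l r) e ν (cf ν c x l) =
      bb ρ ((1 / 2) ^ n) f (n + (l + r)) (x (l + r)) e ν c := by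
  rw [pow_n, stmtSD.2 d E f hd hf hfc (x l) (2 ^ l) (by positivity) ρ _ _ _ _ _ _ (by positivity),
    xf_spec, add_assoc]
  congr 1
  unfold cf
  field_simp
  ring

lemma bD_fr (hd : 1 ≤ d) (b : Sp d → ℝ) (ε ρ R : ℝ) (n : ℕ) {f : Sp d → E} (hf : Continuous f)
    (hfc : HasCompactSupport f) (x : ℕ → Sp d) (l r : ℕ) (e : E) (ν : Sp d) (c : ℝ) :
    bD b ε ρ R ((1 / 2) ^ (n + l)) (rs (x l) (2 ^ l) f) (n + l + r) (xf x l r) e ν (cf ν c x l) =
      bD b ε ρ R ((1 / 2) ^ n) f (n + (l + r)) (x (l + r)) e ν c := by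
  unfold bD
  rw [bb_fr hd ρ n hf hfc, DD_fr]

lemma rs_fr (f : Sp d → E) (x : ℕ → Sp d) (l r : ℕ) :
    rs (xf x l r) (2 ^ r) (rs (x l) (2 ^ l) f) = rs (x (l + r)) (2 ^ (l + r)) f := by
  rw [rs_rs, xf_spec, pow_add]

lemma cf_cf (ν : Sp d) (c : ℝ) (x : ℕ → Sp d) (l r : ℕ) :
    (cf ν c x l - ⟪ν, xf x l r⟫_ℝ) / 2 ^ r = cf ν c x (l + r) := by
  unfold cf xf
  rw [real_inner_smul_right, inner_sub_right, pow_add]
  field_simp
  ring

lemma cf_le {x : ℕ → Sp d} {e : ℕ → E} (h : Tower x e) {ν : Sp d} (hν : ‖ν‖ = 1) {c r : ℝ}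
    (hc : |c| ≤ r) (hr : Real.sqrt d ≤ r) (l : ℕ) : |cf ν c x l| ≤ r := by
  unfold cf
  rw [abs_div, abs_of_pos (by positivity : (0 : ℝ) < 2 ^ l), div_le_iff₀ (by positivity)]
  have h1 := tower_norm h l
  have h2 := abs_real_inner_le_norm ν (x l)
  rw [hν, one_mul] at h2
  have h3 : (1 : ℝ) ≤ 2 ^ l := one_le_pow₀ (by norm_num)
  have h4 : |c - ⟪ν, x l⟫_ℝ| ≤ |c| + |⟪ν, x l⟫_ℝ| := abs_sub _ _
  have h5 : Real.sqrt d * (2 ^ l - 1) ≤ r * (2 ^ l - 1) :=
    mul_le_mul_of_nonneg_right hr (by linarith)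
  linarith

end Fr2

/-! ## comparison of radii -/

/-- the pairing at the next level -/
theorem next (hMA : StmtMA) (hd : 1 ≤ d) {M c ε : ℝ} (h0 : 0 < ε) (h1 : ε ≤ 1)
    {b : Sp d → ℝ} (hb : BaseKer 2 M c b) {R0 : ℝ} (hR0 : 100 + 8 * d ≤ R0) : ∃ C : ℝ, 0 < C ∧
    ∀ (E : Type) [NormedAddCommGroup E] [InnerProductSpace ℝ E] [FiniteDimensional ℝ E],
    ∀ f : Sp d → E, Continuous f → HasCompactSupport f → ∀ (R : ℝ), 4 * R0 + 10 ≤ R →
    ∀ (n : ℕ) (e : E), ‖e‖ = 1 → ∀ (x : Sp d), ‖x‖ ≤ Real.sqrt d →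
    ∀ (ζ : Sp d → ℝ) (N : ℝ), TFn 2 N ζ → (∀ y, R0 + 13 ≤ ‖y‖ → ζ y = 0) →
      |∫ y, ⟪f y, e⟫_ℝ * ζ y| ≤ C * N * (ma b ε R0 ((1 / 2) ^ n) f (n + 1) x +
        DD b ε R ((1 / 2) ^ n) f (n + 1) x e) := by
  have hd1 : (1 : ℝ) ≤ d := by exact_mod_cast hd
  have hsq : Real.sqrt d ≤ d := by
    rw [Real.sqrt_le_left (by positivity)]
    nlinarith
  obtain ⟨C, hC, H⟩ := TU.MA' hMA hd h0 h1 hb
  refine ⟨2 * 2 ^ d * C, by positivity, ?_⟩
  intro E _ _ _ f hf hfc R hR n e he x hx ζ N hζ hs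
  have h2 : (0 : ℝ) < 2 := by norm_num
  have hx0 := norm_nonneg x
  have hxy : ∀ y : Sp d, 2 * ‖y‖ ≤ ‖x + (2 : ℝ) • y‖ + ‖x‖ := by
    intro y
    have e1 : (2 : ℝ) • y = (x + (2 : ℝ) • y) - x := by abel
    have e2 := norm_sub_le (x + (2 : ℝ) • y) x
    rw [← e1, norm_smul] at e2
    simpa using e2
  have hrc : Continuous (rs x 2 f) := rs_cont hf x 2
  have hrs : HasCompactSupport (rs x 2 f) := rs_cs hfc x h2.ne'
  have T := TU.TFn_aff hζ x (t := (2 : ℝ)) (by norm_num)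
  have e1 : max 1 |(2 : ℝ)| ^ 2 * N = 4 * N := by
    rw [abs_of_pos h2, max_eq_right (by norm_num)]
    norm_num
  rw [e1] at T
  have k1 := (H E (rs x 2 f) hrc hrs R (by linarith) (n + 1) e he 0 (ball 0 R0)
    measurableSet_ball).1 (fun y => ζ (x + (2 : ℝ) • y)) (4 * N) T (fun y hy => hs _ (by
      rw [sub_zero] at hy
      have := hxy y
      linarith)) (fun y z hy hz => by
      have h3 : ‖x + (2 : ℝ) • y‖ < R0 + 13 := by
        by_contra h4
        push Not at h4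
        exact hy (hs _ h4)
      have h5 := hxy y
      rw [mem_ball, dist_zero_right]
      have h6 := norm_add_le (z - y) y
      rw [sub_add_cancel] at h6
      linarith)
  rw [TU.frame_int f e x h2 ζ] at k1
  have hs0 : (1 / 2 : ℝ) ^ (n + 1) = (1 / 2) ^ n / 2 := by
    rw [pow_succ]
    ring
  have k2 : DD b ε R ((1 / 2) ^ (n + 1)) (rs x 2 f) (n + 1) 0 e =
      DD b ε R ((1 / 2) ^ n) f (n + 1) x e := by
    rw [hs0, TW.DD_rs b ε R _ f (n + 1) x 0 e h2, smul_zero, add_zero]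
  have k3 : ∫ y in ball (0 : Sp d) R0, ‖fl b ε ((1 / 2) ^ (n + 1)) (rs x 2 f) (n + 1 - 1) y‖ =
      ma b ε R0 ((1 / 2) ^ n) f (n + 1) x := by
    have k4 := TW.ma_rs b ε R0 ((1 / 2) ^ n) f (n + 1) x 0 h2
    rw [← hs0, smul_zero, add_zero] at k4
    rw [← k4]
    unfold ma
    rw [TW.lev_u, one_pow, div_one, one_mul, mul_one]
  rw [k2, k3, abs_mul, abs_of_pos (by positivity : (0 : ℝ) < 2 / 2 ^ d)] at k1
  have k5 := mul_le_mul_of_nonneg_left k1 (by positivity : (0 : ℝ) ≤ 2 ^ d / 2)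
  have k6 : (2 : ℝ) ^ d / 2 * (2 / 2 ^ d * |∫ y, ⟪f y, e⟫_ℝ * ζ y|) =
      |∫ y, ⟪f y, e⟫_ℝ * ζ y| := by
    have : (2 : ℝ) ^ d ≠ 0 := by positivity
    field_simp
  rw [k6] at k5
  refine k5.trans (le_of_eq ?_)
  ring

lemma zR_mono {ρ ρ' : ℝ} (h : ρ ≤ ρ') (y : Sp d) : zR ρ y ≤ zR ρ' y :=
  Real.smoothTransition.monotone (by linarith)

/-- quantities with the radius ρ between R0 and R0 + 10 in terms of the next level and R0 -/
theorem cmp (h : StmtZ) (h1 : StmtMA) (h2 : StmtDI) (hd : 1 ≤ d) {M c0 ε : ℝ} (hε : 0 < ε)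
    (hε1 : ε ≤ 1) {b : Sp d → ℝ} (hb : BaseKer 2 M c0 b) {R0 ρ : ℝ} (hR0 : 100 + 8 * d ≤ R0)
    (hρ : R0 ≤ ρ) (hρ' : ρ ≤ R0 + 10) : ∃ C : ℝ, 1 ≤ C ∧
    ∀ (E : Type) [NormedAddCommGroup E] [InnerProductSpace ℝ E] [FiniteDimensional ℝ E],
    ∀ (R : ℝ), 4 * R0 + 10 ≤ R → ∀ f : Sp d → E, Continuous f → HasCompactSupport f →
    ∀ (n : ℕ) (x : Sp d) (e e' : E), ‖x‖ ≤ Real.sqrt d → ‖e‖ = 1 → ‖e'‖ = 1 →
      ma b ε ρ ((1 / 2) ^ n) f n 0 ≤ C *
        (ma b ε R0 ((1 / 2) ^ n) f (n + 1) x + DD b ε R ((1 / 2) ^ n) f (n + 1) x e') ∧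
      (∀ (ν : Sp d) (c : ℝ), ‖ν‖ = 1 → |c| ≤ 4 * R0 →
        bD b ε ρ R ((1 / 2) ^ n) f n 0 e ν c ≤ C *
          (bD b ε R0 R ((1 / 2) ^ n) f (n + 1) x e' ν c + DD b ε R ((1 / 2) ^ n) f n 0 e)) ∧
      Mi R0 f e ≤ Mi ρ f e + C * DD b ε R ((1 / 2) ^ n) f n 0 e ∧
      Mi ρ f e ≤ C * (ma b ε R0 ((1 / 2) ^ n) f n 0 + DD b ε R ((1 / 2) ^ n) f n 0 e) := by
  have hd1 : (1 : ℝ) ≤ d := by exact_mod_cast hd
  have hsq : Real.sqrt d ≤ d := by
    rw [Real.sqrt_le_left (by positivity)]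
    nlinarith
  have hR0' : 100 ≤ R0 := by linarith
  obtain ⟨CZ, hCZ, Z⟩ := TU.Z' h hd hε hε1 hb
  obtain ⟨CM, hCM, MM⟩ := TU.MA' h1 hd hε hε1 hb
  obtain ⟨CD, hCD, DI⟩ := TU.DI' h2 hd hε hε1 hb
  obtain ⟨CP, hCP, PP⟩ := next h1 hd hε hε1 hb hR0
  obtain ⟨N0, hN0, T0⟩ := TU.TFn_of_cs (J := 2) (ζ := (zR (ρ + 2) : Sp d → ℝ))
    (contDiff_infty.1 (TU.zR_smooth (by linarith)) 2) (TU.zR_cs _)
  obtain ⟨N1, hN1, T1⟩ := TU.TFn_of_cs (J := 2) (ζ := (zR R0 : Sp d → ℝ))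
    (contDiff_infty.1 (TU.zR_smooth (by linarith)) 2) (TU.zR_cs _)
  obtain ⟨N1', hN1', T1'⟩ := TU.TFn_of_cs (J := 2) (ζ := (zR ρ : Sp d → ℝ))
    (contDiff_infty.1 (TU.zR_smooth (by linarith)) 2) (TU.zR_cs _)
  obtain ⟨N4, hN4, T5⟩ := TU.TFn_of_cs (J := 2) (ζ := (zR (R0 / 3) : Sp d → ℝ))
    (contDiff_infty.1 (TU.zR_smooth (by linarith)) 2) (TU.zR_cs _)
  obtain ⟨N5, hN5, T6⟩ := TU.TFn_of_cs (J := 2) (ζ := (zR (ρ / 3) : Sp d → ℝ))
    (contDiff_infty.1 (TU.zR_smooth (by linarith)) 2) (TU.zR_cs _)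
  obtain ⟨K, hK⟩ : ∃ K : ℝ, K = 2 * 2 ^ d := ⟨_, rfl⟩
  have hK0 : 0 < K := by rw [hK]; positivity
  have hK1 : 1 ≤ K := by
    have : (1 : ℝ) ≤ 2 ^ d := one_le_pow₀ (by norm_num)
    linarith
  obtain ⟨N2, hN2⟩ : ∃ N2 : ℝ, N2 = 4 ^ 2 * N1' * max 1 ((ρ + 1) + 4 * R0) ^ 2 := ⟨_, rfl⟩
  obtain ⟨N3, hN3⟩ : ∃ N3 : ℝ, N3 = 4 ^ 2 * N1 * max 1 ((3 * R0) + 4 * R0) ^ 2 := ⟨_, rfl⟩
  have hN2p : 0 < N2 := by rw [hN2]; positivity
  have hN3p : 0 < N3 := by rw [hN3]; positivity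
  obtain ⟨C, hC⟩ : ∃ C : ℝ, C = 1 + (CP * N0 + CM * N0 * K) +
    (K + CZ * (N3 + N2) * K + CD * N2 * K + 1) + CZ * (N5 + N4) + CM * N5 := ⟨_, rfl⟩
  have c2 : 0 < CP * N0 := by positivity
  have c3 : 0 < CM * N0 * K := by positivity
  have c4 : 0 < CZ * (N3 + N2) * K := by positivity
  have c5 : 0 < CD * N2 * K := by positivity
  have c7 : 0 < CZ * (N5 + N4) := by positivity
  have c8 : 0 < CM * N5 := by positivity
  refine ⟨C, by linarith, ?_⟩
  intro E _ _ _ R hR f hf hfc n x e e' hx he he'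
  have hs0 : (0 : ℝ) < (1 / 2) ^ n := by positivity
  have hDn := TU.DD_nonneg b ε R hs0 f n 0 he
  have hDn' := TU.DD_nonneg b ε R hs0 f n 0 he'
  have hD1 := TU.DD_nonneg b ε R hs0 f (n + 1) x he'
  have hm1 := TU.ma_nonneg b ε R0 hs0 f (n + 1) x
  have hm0 := TU.ma_nonneg b ε R0 hs0 f n 0
  have hstep : DD b ε R ((1 / 2) ^ n) f n 0 e' ≤ K * DD b ε R ((1 / 2) ^ n) f (n + 1) x e' := by
    rw [hK]
    exact TW.DD_step hb ε hf hfc n (by linarith) he'
  generalize hA : DD b ε R ((1 / 2) ^ n) f n 0 e = A at *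
  generalize hA' : DD b ε R ((1 / 2) ^ n) f n 0 e' = A' at *
  generalize hB : DD b ε R ((1 / 2) ^ n) f (n + 1) x e' = B at *
  generalize hmm : ma b ε R0 ((1 / 2) ^ n) f (n + 1) x = m at *
  -- change of direction
  have hii : ∀ (ζ : Sp d → ℝ) (N : ℝ), TFn 2 N ζ → (∀ y, R - 1 ≤ ‖y‖ → ζ y = 0) →
      |∫ y, ⟪f y, e - e'⟫_ℝ * ζ y| ≤ CD * K * N * (A + B) := by
    intro ζ N hζ hs
    have hN := TU.TFn_nonneg hζ
    have k1 := DI E f hf hfc R (by linarith) n e e' he he' 0 0 ζ N hζ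
      (by simpa using hs) (by simpa using hs)
    rw [hA, hA'] at k1
    refine k1.trans ?_
    have k2 : A + A' ≤ K * (A + B) := by
      have k3 : 1 * A ≤ K * A := mul_le_mul_of_nonneg_right hK1 hDn
      linarith
    calc CD * N * (A + A') ≤ CD * N * (K * (A + B)) :=
          mul_le_mul_of_nonneg_left k2 (by positivity)
      _ = _ := by ring
  -- integrability
  have hint : ∀ (w : E) (ζ : Sp d → ℝ), Continuous ζ → Integrable fun y => ⟪f y, w⟫_ℝ * ζ y := by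
    intro w ζ hζ
    refine Continuous.integrable_of_hasCompactSupport
      ((hf.inner continuous_const).mul hζ) ?_
    exact (hfc.comp_left (g := fun v : E => ⟪v, w⟫_ℝ) (inner_zero_left _)).mul_right
  have hsplit : ∀ ζ : Sp d → ℝ, Continuous ζ → ∫ y, ⟪f y, e⟫_ℝ * ζ y =
      (∫ y, ⟪f y, e'⟫_ℝ * ζ y) + ∫ y, ⟪f y, e - e'⟫_ℝ * ζ y := by
    intro ζ hζ
    rw [← integral_add (hint e' ζ hζ) (hint (e - e') ζ hζ)]
    congr 1
    ext y
    rw [inner_sub_right]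
    ring
  refine ⟨?_, ?_, ?_, ?_⟩
  · -- mass
    have k1 := (MM E f hf hfc R (by linarith) n e' he' 0 (ball 0 ρ) measurableSet_ball).2
      (zR (ρ + 2)) N0 1 one_pos T0 (TU.zR_nonneg _) (fun y hy => TU.zR_zero (by
        rw [sub_zero] at hy
        linarith)) (fun y z hy hz => by
        rw [TU.zR_one]
        rw [mem_ball, dist_zero_right] at hy
        have := norm_add_le (z - y) y
        rw [sub_add_cancel] at this
        linarith)
    rw [one_mul, hA'] at k1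
    have k2 := PP E f hf hfc R hR n e' he' x hx (zR (ρ + 2)) N0 T0
      (fun y hy => TU.zR_zero (by linarith))
    rw [hmm, hB] at k2
    have k3 := (le_abs_self _).trans k2
    have k4 : ma b ε ρ ((1 / 2) ^ n) f n 0 =
        ∫ y in ball (0 : Sp d) ρ, ‖fl b ε ((1 / 2) ^ n) f (n - 1) y‖ := by
      unfold ma
      rw [TW.lev_u, one_pow, div_one, one_mul, mul_one]
    rw [k4]
    have k5 : CM * N0 * A' ≤ CM * N0 * K * B := by
      have := mul_le_mul_of_nonneg_left hstep (by positivity : 0 ≤ CM * N0)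
      linarith
    have k6 : CP * N0 * (m + B) + CM * N0 * K * B ≤ C * (m + B) := by
      have e1 : (CP * N0 + CM * N0 * K) * (m + B) ≤ C * (m + B) :=
        mul_le_mul_of_nonneg_right (by linarith) (by linarith)
      have e2 : 0 ≤ CM * N0 * K * m := by positivity
      linarith only [e1, e2]
    linarith
  · intro ν c hν hc
    -- the test function at level n
    have T2 : TFn 2 N2 (fun y => zR ρ y * ht ν c y ^ 2) := by
      rw [hN2]
      exact TU.TFn_ht_sq (ρ := ρ + 1) T1' (fun y hy => TU.zR_zero hy.le) hν hc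
    have s2 : ∀ y : Sp d, ρ + 1 ≤ ‖y‖ → zR ρ y * ht ν c y ^ 2 = 0 := fun y hy => by
      rw [TU.zR_zero hy, zero_mul]
    have c2' : Continuous fun y => zR ρ y * ht ν c y ^ 2 := T2.smooth.continuous
    -- the test function at level n + 1
    have T3a : TFn 2 N1 (fun y => zR R0 (-((1 / 2 : ℝ) • x) + (1 / 2 : ℝ) • y)) := by
      have := TU.TFn_aff T1 (-((1 / 2 : ℝ) • x)) (t := (1 / 2 : ℝ)) (by norm_num)
      have e1 : max 1 |(1 / 2 : ℝ)| = 1 := by
        rw [abs_of_pos (by norm_num)]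
        norm_num
      rw [e1, one_pow, one_mul] at this
      exact this
    have hnx : ∀ y : Sp d, ‖y‖ ≤ 2 * ‖-((1 / 2 : ℝ) • x) + (1 / 2 : ℝ) • y‖ + ‖x‖ := by
      intro y
      have e1 : y = (2 : ℝ) • (-((1 / 2 : ℝ) • x) + (1 / 2 : ℝ) • y) + x := by
        module
      have e2 := norm_add_le ((2 : ℝ) • (-((1 / 2 : ℝ) • x) + (1 / 2 : ℝ) • y)) x
      rw [← e1, norm_smul] at e2
      simpa using e2
    have hnx' : ∀ y : Sp d, 2 * ‖-((1 / 2 : ℝ) • x) + (1 / 2 : ℝ) • y‖ ≤ ‖y‖ + ‖x‖ := by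
      intro y
      have e1 : (2 : ℝ) • (-((1 / 2 : ℝ) • x) + (1 / 2 : ℝ) • y) = y - x := by
        module
      have e2 := norm_sub_le y x
      rw [← e1, norm_smul] at e2
      simpa using e2
    have s3a : ∀ y : Sp d, 3 * R0 < ‖y‖ →
        zR R0 (-((1 / 2 : ℝ) • x) + (1 / 2 : ℝ) • y) = 0 := by
      intro y hy
      refine TU.zR_zero ?_
      have := hnx y
      linarith
    have T3 : TFn 2 N3 (fun y => zR R0 (-((1 / 2 : ℝ) • x) + (1 / 2 : ℝ) • y) *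
        ht ν c y ^ 2) := by
      rw [hN3]
      exact TU.TFn_ht_sq (ρ := 3 * R0) T3a s3a hν hc
    have c3' : Continuous fun y => zR R0 (-((1 / 2 : ℝ) • x) + (1 / 2 : ℝ) • y) *
        ht ν c y ^ 2 := T3.smooth.continuous
    have T4 := TU.TFn_sub T3 T2
    have k1 := Z E f hf hfc R (by linarith) n e' he' 0 _ (N3 + N2) T4 (fun y => by
      rw [← sub_mul]
      refine mul_nonneg ?_ (sq_nonneg _)
      by_cases hy : ρ + 1 ≤ ‖y‖
      · rw [TU.zR_zero hy, sub_zero]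
        exact TU.zR_nonneg _ _
      · push Not at hy
        have := hnx' y
        rw [TU.zR_one (x := -((1 / 2 : ℝ) • x) + (1 / 2 : ℝ) • y) (by linarith)]
        have := TU.zR_le_one ρ y
        linarith) (fun y hy => by
      rw [sub_zero] at hy
      rw [s3a y (by linarith), s2 y (by linarith)]
      ring)
    rw [hA'] at k1
    have k2 : ∫ y, ⟪f y, e'⟫_ℝ * (zR R0 (-((1 / 2 : ℝ) • x) + (1 / 2 : ℝ) • y) *
        ht ν c y ^ 2 - zR ρ y * ht ν c y ^ 2) =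
        (∫ y, ⟪f y, e'⟫_ℝ * (zR R0 (-((1 / 2 : ℝ) • x) + (1 / 2 : ℝ) • y) * ht ν c y ^ 2)) -
        ∫ y, ⟪f y, e'⟫_ℝ * (zR ρ y * ht ν c y ^ 2) := by
      rw [← integral_sub (hint e' _ c3') (hint e' _ c2')]
      congr 1
      ext y
      ring
    rw [k2, ← TW.bb_u1, ← hK] at k1
    have k3 := hii _ N2 T2 (fun y hy => s2 y (by linarith))
    have k4 := hsplit _ c2'
    have k5 := TW.bb_u ρ f n e ν c
    rw [k4] at k5
    have k6 := (le_abs_self _).trans k3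
    have k7 : CZ * (N3 + N2) * A' ≤ CZ * (N3 + N2) * K * B := by
      have := mul_le_mul_of_nonneg_left hstep (by positivity : 0 ≤ CZ * (N3 + N2))
      linarith only [this]
    unfold bD
    rw [hA, hB]
    generalize hβ : bb ρ ((1 / 2) ^ n) f n 0 e ν c = β at *
    generalize hβ1 : bb R0 ((1 / 2) ^ n) f (n + 1) x e' ν c = β1 at *
    have hβ1m := le_max_right (0 : ℝ) β1
    have hβ10 := le_max_left (0 : ℝ) β1
    have m1 : β ≤ K * max 0 β1 + CZ * (N3 + N2) * K * B + CD * K * N2 * (A + B) := by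
      have : K * β1 ≤ K * max 0 β1 := mul_le_mul_of_nonneg_left hβ1m hK0.le
      linarith only [k6, k7, k5, k1, this]
    have m2 : max 0 β ≤ K * max 0 β1 + CZ * (N3 + N2) * K * B + CD * K * N2 * (A + B) := by
      refine max_le ?_ m1
      (clear * - hK0 hCZ hN3p hN2p hD1 hCD hDn; positivity)
    have m3 : K * max 0 β1 + CZ * (N3 + N2) * K * B + CD * K * N2 * (A + B) + A ≤
        (K + CZ * (N3 + N2) * K + CD * N2 * K + 1) * (max 0 β1 + B + A) := by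
      have e1 : 0 ≤ K * (B + A) := by (clear * - hK0 hD1 hDn; positivity)
      have e2 : 0 ≤ CZ * (N3 + N2) * K * (max 0 β1 + A) := by (clear * - hCZ hN3p hN2p hK0 hDn; positivity)
      have e3 : 0 ≤ CD * N2 * K * max 0 β1 := by (clear * - hCD hN2p hK0; positivity)
      linarith only [hD1, hβ10, e1, e2, e3]
    have m4 : (K + CZ * (N3 + N2) * K + CD * N2 * K + 1) * (max 0 β1 + B + A) ≤
        C * (max 0 β1 + B + A) :=
      mul_le_mul_of_nonneg_right (by linarith only [hC, c2, c3, c7, c8]) (by (clear * - hD1 hDn; positivity))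
    linarith only [m2, m3, m4]
  · -- inner masses
    have T7 := TU.TFn_sub T6 T5
    have k1 := Z E f hf hfc R (by linarith) n e he 0 _ (N5 + N4) T7 (fun y => by
      have := zR_mono (show R0 / 3 ≤ ρ / 3 by linarith) y
      linarith) (fun y hy => by
      rw [sub_zero] at hy
      rw [TU.zR_zero (by linarith), TU.zR_zero (by linarith)]
      ring)
    rw [hA] at k1
    have k2 : ∫ y, ⟪f y, e⟫_ℝ * (zR (ρ / 3) y - zR (R0 / 3) y) = Mi ρ f e - Mi R0 f e := by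
      unfold Mi
      rw [← integral_sub (hint e _ T6.smooth.continuous) (hint e _ T5.smooth.continuous)]
      congr 1
      ext y
      ring
    rw [k2] at k1
    have k3 : CZ * (N5 + N4) * A ≤ C * A := mul_le_mul_of_nonneg_right (by linarith) hDn
    linarith
  · have k1 := (MM E f hf hfc R (by linarith) n e he 0 (ball 0 R0) measurableSet_ball).1
      (zR (ρ / 3)) N5 T6 (fun y hy => TU.zR_zero (by
        rw [sub_zero] at hy
        linarith)) (fun y z hy hz => by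
        have h3 : ‖y‖ < ρ / 3 + 1 := by
          by_contra h4
          push Not at h4
          exact hy (TU.zR_zero h4)
        rw [mem_ball, dist_zero_right]
        have h6 := norm_add_le (z - y) y
        rw [sub_add_cancel] at h6
        linarith)
    have k4 : ma b ε R0 ((1 / 2) ^ n) f n 0 =
        ∫ y in ball (0 : Sp d) R0, ‖fl b ε ((1 / 2) ^ n) f (n - 1) y‖ := by
      unfold ma
      rw [TW.lev_u, one_pow, div_one, one_mul, mul_one]
    rw [hA, ← k4] at k1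
    have k2 := (le_abs_self _).trans k1
    have k3 : CM * N5 * (ma b ε R0 ((1 / 2) ^ n) f n 0 + A) ≤
        C * (ma b ε R0 ((1 / 2) ^ n) f n 0 + A) :=
      mul_le_mul_of_nonneg_right (by linarith) (by linarith)
    exact k2.trans k3

end

end ML

end TG


end

section

/-!
# MODULE ML, part 2: directions, transfer of sheets, two consecutive levels (helper25)
-/

open MeasureTheory Metric Set TrI
open scoped InnerProductSpace ContDiff

namespace TG

namespace ML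

noncomputable section

set_option linter.unusedSectionVars false

variable {d : ℕ}

/-! ## unit frames -/

section U

variable {E : Type} [NormedAddCommGroup E] [InnerProductSpace ℝ E] [FiniteDimensional ℝ E]

lemma DD_f0 (b : Sp d → ℝ) (ε R : ℝ) (n : ℕ) (f : Sp d → E) (x : ℕ → Sp d) (l : ℕ) (e : E) :
    DD b ε R ((1 / 2) ^ (n + l)) (rs (x l) (2 ^ l) f) (n + l) 0 e =
      DD b ε R ((1 / 2) ^ n) f (n + l) (x l) e := by
  have h := DD_fr b ε R n f x l 0 e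
  rw [xf_zero, add_zero, add_zero] at h
  exact h

lemma ma_f0 (b : Sp d → ℝ) (ε R : ℝ) (n : ℕ) (f : Sp d → E) (x : ℕ → Sp d) (l : ℕ) :
    ma b ε R ((1 / 2) ^ (n + l)) (rs (x l) (2 ^ l) f) (n + l) 0 =
      ma b ε R ((1 / 2) ^ n) f (n + l) (x l) := by
  have h := ma_fr b ε R n f x l 0
  rw [xf_zero, add_zero, add_zero] at h
  exact h

lemma bD_f0 (hd : 1 ≤ d) (b : Sp d → ℝ) (ε ρ R : ℝ) (n : ℕ) {f : Sp d → E} (hf : Continuous f)
    (hfc : HasCompactSupport f) (x : ℕ → Sp d) (l : ℕ) (e : E) (ν : Sp d) (c : ℝ) :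
    bD b ε ρ R ((1 / 2) ^ (n + l)) (rs (x l) (2 ^ l) f) (n + l) 0 e ν (cf ν c x l) =
      bD b ε ρ R ((1 / 2) ^ n) f (n + l) (x l) e ν c := by
  have h := bD_fr hd b ε ρ R n hf hfc x l 0 e ν c
  rw [xf_zero, add_zero, add_zero] at h
  exact h

lemma DD_chain {b : Sp d → ℝ} {J : ℕ} {M c0 : ℝ} (hb : BaseKer J M c0 b) (ε : ℝ) {f : Sp d → E}
    (hf : Continuous f) (hfc : HasCompactSupport f) (n : ℕ) {R : ℝ} (hR : Real.sqrt d ≤ R)
    {x : ℕ → Sp d} {e : ℕ → E} (h : Tower x e) {w : E} (hw : ‖w‖ = 1) (l : ℕ) :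
    DD b ε R ((1 / 2) ^ n) f n 0 w ≤
      (2 * 2 ^ d) ^ l * DD b ε R ((1 / 2) ^ n) f (n + l) (x l) w := by
  induction l with
  | zero => rw [pow_zero, one_mul, add_zero, h.zero]
  | succ l ih =>
    have h1 := TW.DD_step hb ε (rs_cont hf (x l) (2 ^ l)) (rs_cs hfc (x l) (by positivity)) (n + l)
      (x := xf x l 1) ((xf_one h l).trans hR) hw
    rw [DD_f0, DD_fr] at h1
    have h2 := mul_le_mul_of_nonneg_left h1 (by positivity : (0 : ℝ) ≤ (2 * 2 ^ d) ^ l)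
    rw [pow_succ]
    linarith

/-- integrals in a frame as integrals at level 0 -/
lemma frame_back (f : Sp d → E) (e : E) (x : Sp d) {t : ℝ} (ht : 0 < t) (ζ : Sp d → ℝ) :
    ∫ y, ⟪rs x t f y, e⟫_ℝ * ζ y =
      t / t ^ d * ∫ y, ⟪f y, e⟫_ℝ * ζ (-((1 / t) • x) + (1 / t) • y) := by
  rw [← TU.frame_int f e x ht (fun y => ζ (-((1 / t) • x) + (1 / t) • y))]
  congr 1
  ext y
  congr 2
  rw [smul_add, smul_smul, one_div_mul_cancel ht.ne', one_smul]
  abel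

end U

/-! ## directions -/

/-- the density of the cell l, with the direction of the cell 0 -/
def mo {E : Type} [NormedAddCommGroup E] [InnerProductSpace ℝ E] (f : Sp d → E) (x : ℕ → Sp d)
    (e : E) (l : ℕ) (y : Sp d) : ℝ := ⟪rs (x l) (2 ^ l) f y, e⟫_ℝ

theorem dirn (hZ : StmtZ) (hDI : StmtDI) (hd : 1 ≤ d) {M c0 ε : ℝ} (hε : 0 < ε) (hε1 : ε ≤ 1)
    {b : Sp d → ℝ} (hb : BaseKer 2 M c0 b) {R0 : ℝ} (hR0 : 100 + 8 * d ≤ R0) (I : ℕ) :
    ∃ C : ℝ, 0 < C ∧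
    ∀ (E : Type) [NormedAddCommGroup E] [InnerProductSpace ℝ E] [FiniteDimensional ℝ E],
    ∀ (R : ℝ), 2 ^ (I + 2) * R0 + 10 ≤ R → ∀ f : Sp d → E, Continuous f → HasCompactSupport f →
    ∀ (n : ℕ) (x : ℕ → Sp d) (e : ℕ → E), Tower x e → ∀ D : ℝ,
      (∀ j, DD b ε R ((1 / 2) ^ n) f (n + j) (x j) (e j) ≤ pw (1 / 4) j * D) → ∀ l ≤ I,
      (∀ (ζ : Sp d → ℝ) (N : ℝ), TFn 2 N ζ → (∀ y, R0 + 13 ≤ ‖y‖ → ζ y = 0) →
        |(∫ y, mo f x (e l) l y * ζ y) - ∫ y, mo f x (e 0) l y * ζ y| ≤ N * (C * D)) ∧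
      ZP (R0 + 13) (C * D) (mo f x (e 0) l) := by
  have hd1 : (1 : ℝ) ≤ d := by exact_mod_cast hd
  have hsq : Real.sqrt d ≤ d := by
    rw [Real.sqrt_le_left (by positivity)]
    nlinarith only [hd1]
  obtain ⟨CZ, hCZ, Z⟩ := hZ d hd M c0 ε hε hε1 b hb
  obtain ⟨CD, hCD, DI⟩ := TU.DI' hDI hd hε hε1 hb
  obtain ⟨K, hK⟩ : ∃ K : ℝ, K = 2 * 2 ^ d := ⟨_, rfl⟩
  have hK1 : 1 ≤ K := by
    have : (1 : ℝ) ≤ 2 ^ d := one_le_pow₀ (by norm_num)
    rw [hK]
    linarith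
  refine ⟨CD * (K ^ I * 2 ^ I + 1) + CZ, by positivity, ?_⟩
  intro E _ _ _ R hR f hf hfc n x e hT D hD l hl
  have hs0 : (0 : ℝ) < (1 / 2) ^ n := by positivity
  have hDD0 : DD b ε R ((1 / 2) ^ n) f n 0 (e 0) ≤ D := by
    have := hD 0
    rwa [pw_zero, one_mul, add_zero, hT.zero] at this
  have hD0 : 0 ≤ D := (TU.DD_nonneg b ε R hs0 f n 0 (hT.unit 0)).trans hDD0
  obtain ⟨t, ht⟩ : ∃ t : ℝ, t = 2 ^ l := ⟨_, rfl⟩
  have ht1 : 1 ≤ t := by rw [ht]; exact one_le_pow₀ (by norm_num)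
  have ht0 : 0 < t := by linarith
  have htI : t ≤ 2 ^ I := by rw [ht]; exact pow_le_pow_right₀ (by norm_num) hl
  have hR4 : 4 * t * R0 + 10 ≤ R := by
    have e1 : (2 : ℝ) ^ (I + 2) = 4 * 2 ^ I := by rw [pow_add]; ring
    rw [e1] at hR
    have : t * R0 ≤ 2 ^ I * R0 := mul_le_mul_of_nonneg_right htI (by linarith)
    linarith
  have htR : R0 ≤ t * R0 := le_mul_of_one_le_left (by linarith) ht1
  have hR3 : 3 ≤ R := by linarith
  have hRd : Real.sqrt d ≤ R := by linarith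
  have hfac : t / t ^ d ≤ 1 := by
    rw [div_le_one (by positivity)]
    exact le_self_pow₀ ht1 (by omega)
  have hfac0 : 0 ≤ t / t ^ d := by positivity
  have hxl : ‖x l‖ ≤ Real.sqrt d * t := by
    have h1 := tower_norm hT l
    rw [← ht] at h1
    have := Real.sqrt_nonneg (d : ℝ)
    linarith
  -- supports
  have hsupp : ∀ z : Sp d, R - 2 ≤ ‖z‖ → R0 + 13 ≤ ‖-((1 / t) • x l) + (1 / t) • z‖ := by
    intro z hz
    have e1 : z = t • (-((1 / t) • x l) + (1 / t) • z) + x l := by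
      rw [smul_add, smul_neg, smul_smul, smul_smul, mul_one_div_cancel ht0.ne', one_smul, one_smul]
      abel
    have e2 := norm_add_le (t • (-((1 / t) • x l) + (1 / t) • z)) (x l)
    rw [← e1, norm_smul, Real.norm_of_nonneg ht0.le] at e2
    have e3 : t * (R0 + 13) ≤ t * ‖-((1 / t) • x l) + (1 / t) • z‖ := by
      have e4 : Real.sqrt d * t ≤ d * t := mul_le_mul_of_nonneg_right hsq ht0.le
      have e5 : t * (100 + 8 * d) ≤ t * R0 := mul_le_mul_of_nonneg_left hR0 ht0.le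
      have e6 : 0 ≤ t * d := by positivity
      linarith
    exact le_of_mul_le_mul_left e3 ht0
  have hDl : DD b ε R ((1 / 2) ^ n) f n 0 (e l) ≤ K ^ I * 2 ^ I * D := by
    have h1 := DD_chain hb ε hf hfc n hRd hT (hT.unit l) l
    rw [← hK] at h1
    have h2 := hD l
    have h3 : pw (1 / 4) l ≤ 2 ^ I := by
      have := pw_le (show (1 / 4 : ℝ) ≤ 1 by norm_num) l
      rw [pw_one, ← ht] at this
      exact this.trans htI
    have h4 : K ^ l ≤ K ^ I := pow_le_pow_right₀ hK1 hl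
    calc DD b ε R ((1 / 2) ^ n) f n 0 (e l)
        ≤ K ^ l * (pw (1 / 4) l * D) := h1.trans (mul_le_mul_of_nonneg_left h2 (by positivity))
      _ ≤ K ^ I * (2 ^ I * D) := by
          refine mul_le_mul h4 (mul_le_mul_of_nonneg_right h3 hD0) ?_ (by positivity)
          exact mul_nonneg (pw_pos _ _).le hD0
      _ = _ := by ring
  have hmo : ∀ (w : E) (ζ : Sp d → ℝ), ∫ y, mo f x w l y * ζ y =
      t / t ^ d * ∫ y, ⟪f y, w⟫_ℝ * ζ (-((1 / t) • x l) + (1 / t) • y) := by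
    intro w ζ
    unfold mo
    rw [← ht]
    exact frame_back f w (x l) ht0 ζ
  refine ⟨?_, ?_⟩
  · intro ζ N hζ hs
    have hN := TU.TFn_nonneg hζ
    have T := TU.TFn_aff hζ (-((1 / t) • x l)) (t := 1 / t) (by positivity)
    have e1 : max 1 |1 / t| = 1 := by
      rw [abs_of_pos (by positivity), max_eq_left]
      rw [div_le_one ht0]
      exact ht1
    rw [e1, one_pow, one_mul] at T
    have k1 := DI E f hf hfc R hR3 n (e l) (e 0) (hT.unit l) (hT.unit 0) 0 0 _ N T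
      (fun z hz => hs _ (hsupp z (by rw [sub_zero] at hz; linarith)))
      (fun z hz => hs _ (hsupp z (by rw [sub_zero] at hz; linarith)))
    have hint : ∀ (w : E), Integrable fun y => ⟪f y, w⟫_ℝ *
        ζ (-((1 / t) • x l) + (1 / t) • y) := by
      intro w
      refine Continuous.integrable_of_hasCompactSupport
        ((hf.inner continuous_const).mul T.smooth.continuous) ?_
      exact (hfc.comp_left (g := fun v : E => ⟪v, w⟫_ℝ) (inner_zero_left _)).mul_right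
    have k2 : ∫ y, ⟪f y, e l - e 0⟫_ℝ * ζ (-((1 / t) • x l) + (1 / t) • y) =
        (∫ y, ⟪f y, e l⟫_ℝ * ζ (-((1 / t) • x l) + (1 / t) • y)) -
        ∫ y, ⟪f y, e 0⟫_ℝ * ζ (-((1 / t) • x l) + (1 / t) • y) := by
      rw [← integral_sub (hint _) (hint _)]
      congr 1
      ext y
      rw [inner_sub_right]
      ring
    rw [k2] at k1
    rw [hmo, hmo, ← mul_sub, abs_mul, abs_of_nonneg hfac0]
    have k3 : CD * N * (DD b ε R ((1 / 2) ^ n) f n 0 (e l) + DD b ε R ((1 / 2) ^ n) f n 0 (e 0)) ≤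
        CD * N * (K ^ I * 2 ^ I * D + D) :=
      mul_le_mul_of_nonneg_left (add_le_add hDl hDD0) (by positivity)
    calc t / t ^ d * |(∫ y, ⟪f y, e l⟫_ℝ * ζ (-((1 / t) • x l) + (1 / t) • y)) -
          ∫ y, ⟪f y, e 0⟫_ℝ * ζ (-((1 / t) • x l) + (1 / t) • y)|
        ≤ 1 * (CD * N * (K ^ I * 2 ^ I * D + D)) :=
          mul_le_mul hfac (k1.trans k3) (abs_nonneg _) (by norm_num)
      _ ≤ N * ((CD * (K ^ I * 2 ^ I + 1) + CZ) * D) := by
          have : 0 ≤ N * (CZ * D) := by positivity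
          linarith
  · intro H hH hH0 hH1 hH2 hHs
    have e0 : ContDiff ℝ 2 (fun y => H (-((1 / t) • x l) + (1 / t) • y)) := by
      have e1 : ContDiff ℝ 2 (fun y : Sp d => -((1 / t) • x l) + (1 / t) • y) := by fun_prop
      exact hH.comp e1
    have k1 := Z E f hf hfc R hR3 n (e 0) (hT.unit 0) 0
      (fun y => H (-((1 / t) • x l) + (1 / t) • y)) e0 (fun y => hH0 _) (fun y => hH1 _)
      (fun y => by
        rw [TU.itF_aff_norm 2 H (-((1 / t) • x l)) (1 / t) (by positivity) y,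
          abs_of_pos (by positivity)]
        have e1 : (1 / t) ^ 2 ≤ 1 := by
          refine pow_le_one₀ (by positivity) ?_
          rw [div_le_one ht0]
          exact ht1
        have := mul_le_mul e1 (hH2 (-((1 / t) • x l) + (1 / t) • y)) (norm_nonneg _)
          (by norm_num : (0 : ℝ) ≤ 1)
        linarith)
      (fun z hz => hHs _ (hsupp z (by rw [sub_zero] at hz; linarith)))
    rw [hmo]
    have k2 : -(CZ * D) ≤
        ∫ y, ⟪f y, e 0⟫_ℝ * H (-((1 / t) • x l) + (1 / t) • y) := by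
      have := mul_le_mul_of_nonneg_left hDD0 hCZ.le
      linarith
    have k3 : -(CZ * D) ≤ t / t ^ d *
        ∫ y, ⟪f y, e 0⟫_ℝ * H (-((1 / t) • x l) + (1 / t) • y) := by
      have k4 := mul_le_mul_of_nonneg_left k2 hfac0
      have k5 : t / t ^ d * (CZ * D) ≤ 1 * (CZ * D) :=
        mul_le_mul_of_nonneg_right hfac (by positivity)
      linarith
    have k6 : 0 ≤ CD * (K ^ I * 2 ^ I + 1) * D := by positivity
    linarith

/-! ## sheets -/

lemma TB_nonneg {J : ℕ} {n : Sp d} (hn : ‖n‖ = 1) {s N : ℝ} {ζ : Sp d → ℝ}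
    (h : TB J n s N ζ) : 0 ≤ N := by
  have h1 := (h 0 (Nat.zero_le _) (fun i => i.elim0) (fun i => i.elim0) (fun i => i.elim0)
    (s • n) (by rw [real_inner_smul_right, real_inner_self_eq_norm_sq, hn]; ring)).1
  exact (abs_nonneg _).trans h1

lemma Sheet_mono {J : ℕ} {R ab ep D s : ℝ} {m : Sp d → ℝ} {n : Sp d}
    (h : Sheet J R ab ep D m n s) {ep' D' : ℝ} (h1 : ep ≤ ep') (h2 : D ≤ D') :
    Sheet J R ab ep' D' m n s where
  n1 := h.n1
  ab0 := h.ab0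
  ep0 := h.ep0.trans h1
  loc := h.loc
  est := by
    intro ζ ρ N N2 hζ hρ hρR hs hT h2'
    have hN := TB_nonneg h.n1 hT
    have hN2 : 0 ≤ N2 := (norm_nonneg _).trans (h2' 0)
    refine (h.est ζ ρ N N2 hζ hρ hρR hs hT h2').trans ?_
    have k1 := mul_le_mul_of_nonneg_right h1 hN
    have k2 := mul_le_mul_of_nonneg_left h2 (add_nonneg hN hN2)
    linarith

lemma Sheet_rad {J : ℕ} {R ab ep D s : ℝ} {m : Sp d → ℝ} {n : Sp d}
    (h : Sheet J R ab ep D m n s) {R' : ℝ} (h1 : R' ≤ R) (h2 : |s| ≤ 3 / 2 * R') :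
    Sheet J R' ab ep D m n s where
  n1 := h.n1
  ab0 := h.ab0
  ep0 := h.ep0
  loc := h2
  est := fun ζ ρ N N2 hζ hρ hρR hs hT h2' =>
    h.est ζ ρ N N2 hζ hρ (hρR.trans h1) hs hT h2'

/-- replacing the density by one which is close on test functions -/
theorem transfer (d : ℕ) {R : ℝ} (hR : 1 ≤ R) : ∃ C : ℝ, 1 ≤ C ∧
    ∀ (J : ℕ) (ab ep D δ s : ℝ) (m m' : Sp d → ℝ) (n : Sp d), Sheet J R ab ep D m n s →
      0 ≤ δ → (∀ (ζ : Sp d → ℝ) (N : ℝ), TFn 2 N ζ → (∀ y, R + 2 ≤ ‖y‖ → ζ y = 0) →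
        |(∫ y, m y * ζ y) - ∫ y, m' y * ζ y| ≤ N * δ) →
      Sheet J R ab ep (D + C * δ) m' n s ∧ blc n s m' R ≤ blc n s m R + C * δ := by
  obtain ⟨Cz, hCz, T0⟩ := SS.TFn_zR (d := d) (R + 1)
  obtain ⟨Cb, hCb⟩ : ∃ Cb : ℝ, Cb = 4 ^ 2 * Cz * max 1 ((R + 2) + 3 / 2 * R) ^ 2 := ⟨_, rfl⟩
  have hCb0 : 0 < Cb := by rw [hCb]; positivity
  have hC1 : 1 ≤ (2 * R + 1) ^ 2 := one_le_pow₀ (by linarith)
  refine ⟨Cb + (2 * R + 1) ^ 2, by linarith, ?_⟩
  intro J ab ep D δ s m m' n hS hδ hm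
  have hblc : ∀ ρ, 1 ≤ ρ → ρ ≤ R + 1 → |blc n s m ρ - blc n s m' ρ| ≤ Cb * δ := by
    intro ρ h1 h2
    have T1 : TFn 2 Cb (fun y => zR ρ y * ht n s y ^ 2) := by
      rw [hCb]
      exact TU.TFn_ht_sq (ρ := R + 2) (T0 ρ h1 h2) (fun y hy => TU.zR_zero (by linarith))
        hS.n1 hS.loc
    exact hm _ _ T1 (fun y hy => by rw [TU.zR_zero (by linarith), zero_mul])
  refine ⟨⟨hS.n1, hS.ab0, hS.ep0, hS.loc, ?_⟩, ?_⟩
  · intro ζ ρ N N2 hζ hρ hρR hs hT h2
    have hN := TB_nonneg hS.n1 hT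
    have hN2 : 0 ≤ N2 := (norm_nonneg _).trans (h2 0)
    have k1 := hS.est ζ ρ N N2 hζ hρ hρR hs hT h2
    have k2 := hm ζ ((2 * R + 1) ^ 2 * N2) (SS.TFn_of_d2
      (hζ.of_le (by exact_mod_cast (by omega : 2 ≤ J + 2))) hρ hρR h2 hs hS.n1)
      (fun y hy => hs y (by linarith))
    have k3 := hblc (ρ + 1) (by linarith) (by linarith)
    have k4 := (abs_le.1 k3).2
    have k5 : N2 * blc n s m (ρ + 1) ≤ N2 * (blc n s m' (ρ + 1) + Cb * δ) :=
      mul_le_mul_of_nonneg_left (by linarith) hN2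
    have k6 : |(∫ y, m' y * ζ y) - ab * plInt n s ζ| ≤
        |(∫ y, m y * ζ y) - ab * plInt n s ζ| + |(∫ y, m y * ζ y) - ∫ y, m' y * ζ y| := by
      have e1 : (∫ y, m' y * ζ y) - ab * plInt n s ζ = ((∫ y, m y * ζ y) - ab * plInt n s ζ) -
        ((∫ y, m y * ζ y) - ∫ y, m' y * ζ y) := by ring
      rw [e1]
      exact abs_sub _ _
    have k7 : 0 ≤ N * ((Cb + (2 * R + 1) ^ 2) * δ) := by positivity
    linarith
  · have k3 := hblc R hR (by linarith)
    have k4 := (abs_le.1 k3).1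
    have k5 : 0 ≤ (2 * R + 1) ^ 2 * δ := by positivity
    linarith

/-- the off-sheet mass for two radii -/
theorem blc_rad (d : ℕ) {R R' : ℝ} (hR : 1 ≤ R) (hR' : R ≤ R') : ∃ C : ℝ, 1 ≤ C ∧
    ∀ (D s : ℝ) (m : Sp d → ℝ) (n : Sp d), Continuous m → 0 ≤ D → ‖n‖ = 1 → |s| ≤ 3 / 2 * R →
      ZP (R' + 1) D m → blc n s m R ≤ blc n s m R' + C * D := by
  obtain ⟨Cz, hCz, T0⟩ := SS.TFn_zR (d := d) R'
  obtain ⟨Cb, hCb⟩ : ∃ Cb : ℝ, Cb = 4 ^ 2 * Cz * max 1 ((R' + 1) + 3 / 2 * R) ^ 2 := ⟨_, rfl⟩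
  have hCb0 : 0 < Cb := by rw [hCb]; positivity
  refine ⟨1 + 2 * Cb, by linarith, ?_⟩
  intro D s m n hm hD hn hs hZ
  have T1 : TFn 2 Cb (fun y => zR R y * ht n s y ^ 2) := by
    rw [hCb]
    exact TU.TFn_ht_sq (ρ := R' + 1) (T0 R hR hR') (fun y hy => TU.zR_zero (by linarith)) hn hs
  have T2 : TFn 2 Cb (fun y => zR R' y * ht n s y ^ 2) := by
    rw [hCb]
    exact TU.TFn_ht_sq (ρ := R' + 1) (T0 R' (by linarith) le_rfl)
      (fun y hy => TU.zR_zero (by linarith)) hn hs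
  have T3 := TU.TFn_const_mul (TU.TFn_sub T2 T1) (1 / (Cb + Cb))
  have e1 : |1 / (Cb + Cb)| * (Cb + Cb) = 1 := by
    rw [abs_of_pos (by positivity)]
    field_simp
  rw [e1] at T3
  have k1 := hZ _ T3.smooth (fun y => by
      have := zR_mono (d := d) hR' y
      have := mul_le_mul_of_nonneg_right this (sq_nonneg (ht n s y))
      have h2 : 0 ≤ 1 / (Cb + Cb) := by positivity
      exact mul_nonneg h2 (by linarith)) (fun y => (le_abs_self _).trans (TU.TFn_norm T3 y))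
    (fun y => T3.bd 2 le_rfl y) (fun y hy => by
      rw [TU.zR_zero (R := R') hy, TU.zR_zero (R := R) (by linarith)]
      ring)
  have hint : ∀ ρ, 0 < ρ → Integrable fun y => m y * (zR ρ y * ht n s y ^ 2) := by
    intro ρ hρ
    have h1 : Continuous (zR ρ : Sp d → ℝ) := (TU.zR_smooth hρ).continuous
    have h2 : Continuous (ht n s) := (TU.ht_smooth n s (n := 0)).continuous
    refine Continuous.integrable_of_hasCompactSupport (by fun_prop) ?_
    exact ((TU.zR_cs ρ).mul_right).mul_left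
  have k2 : ∫ y, m y * (1 / (Cb + Cb) * (zR R' y * ht n s y ^ 2 - zR R y * ht n s y ^ 2)) =
      1 / (Cb + Cb) * (blc n s m R' - blc n s m R) := by
    have e2 : blc n s m R' - blc n s m R =
        ∫ y, (m y * (zR R' y * ht n s y ^ 2) - m y * (zR R y * ht n s y ^ 2)) :=
      (integral_sub (hint R' (by linarith)) (hint R (by linarith))).symm
    rw [e2, ← integral_const_mul]
    congr 1
    ext y
    ring
  rw [k2] at k1
  have k3 := mul_le_mul_of_nonneg_left k1 (by positivity : 0 ≤ Cb + Cb)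
  have k4 : (Cb + Cb) * (1 / (Cb + Cb) * (blc n s m R' - blc n s m R)) =
      blc n s m R' - blc n s m R := by
    field_simp
  rw [k4] at k3
  linarith

end

end ML

end TG


end

section

/-!
# MODULE ML, part 3: the sheet of one level (helper25)
-/

open MeasureTheory Metric Set TrI
open scoped InnerProductSpace ContDiff

namespace TG

namespace ML

noncomputable section

set_option linter.unusedSectionVars false

/-- comparison of the radii R0 and ρ for the cells of a tower -/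
theorem lv (h : StmtZ) (h1 : StmtMA) (h2 : StmtDI) {d : ℕ} (hd : 1 ≤ d) {M c0 ε : ℝ}
    (hε : 0 < ε) (hε1 : ε ≤ 1) {b : Sp d → ℝ} (hb : BaseKer 2 M c0 b) {R0 ρ : ℝ}
    (hR0 : 100 + 8 * d ≤ R0) (hρ : R0 ≤ ρ) (hρ' : ρ ≤ R0 + 10) : ∃ C : ℝ, 1 ≤ C ∧
    ∀ (E : Type) [NormedAddCommGroup E] [InnerProductSpace ℝ E] [FiniteDimensional ℝ E],
    ∀ (R : ℝ), 4 * R0 + 10 ≤ R → ∀ f : Sp d → E, Continuous f → HasCompactSupport f →
    ∀ (n : ℕ) (x : ℕ → Sp d) (e : ℕ → E), Tower x e → ∀ j : ℕ,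
      ma b ε ρ ((1 / 2) ^ n) f (n + j) (x j) ≤ C *
        (ma b ε R0 ((1 / 2) ^ n) f (n + (j + 1)) (x (j + 1)) +
          DD b ε R ((1 / 2) ^ n) f (n + (j + 1)) (x (j + 1)) (e (j + 1))) ∧
      (∀ (ν : Sp d) (c : ℝ), ‖ν‖ = 1 → |c| ≤ R0 + 3 →
        bD b ε ρ R ((1 / 2) ^ n) f (n + j) (x j) (e j) ν c ≤ C *
          (bD b ε R0 R ((1 / 2) ^ n) f (n + (j + 1)) (x (j + 1)) (e (j + 1)) ν c +
            DD b ε R ((1 / 2) ^ n) f (n + j) (x j) (e j))) ∧
      Mi R0 (rs (x j) (2 ^ j) f) (e j) ≤ Mi ρ (rs (x j) (2 ^ j) f) (e j) +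
        C * DD b ε R ((1 / 2) ^ n) f (n + j) (x j) (e j) ∧
      Mi ρ (rs (x j) (2 ^ j) f) (e j) ≤ C * (ma b ε R0 ((1 / 2) ^ n) f (n + j) (x j) +
        DD b ε R ((1 / 2) ^ n) f (n + j) (x j) (e j)) := by
  have hd1 : (1 : ℝ) ≤ d := by exact_mod_cast hd
  have hsq : Real.sqrt d ≤ d := by
    rw [Real.sqrt_le_left (by positivity)]
    nlinarith
  obtain ⟨C, hC, H⟩ := cmp h h1 h2 hd hε hε1 hb hR0 hρ hρ'
  refine ⟨C, hC, ?_⟩
  intro E _ _ _ R hR f hf hfc n x e hT j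
  obtain ⟨k1, k2, k3, k4⟩ := H E R hR (rs (x j) (2 ^ j) f) (rs_cont hf _ _)
    (rs_cs hfc _ (by positivity)) (n + j) (xf x j 1) (e j) (e (j + 1)) (xf_one hT j) (hT.unit _)
    (hT.unit _)
  rw [ma_f0, ma_fr, DD_fr] at k1
  rw [DD_f0] at k3 k4
  rw [ma_f0] at k4
  refine ⟨k1, fun ν c hν hc => ?_, k3, k4⟩
  have k5 := k2 ν (cf ν c x j) hν ((cf_le hT hν hc (by linarith) j).trans (by linarith))
  rw [bD_f0 hd b ε ρ R n hf hfc, bD_fr hd b ε R0 R n hf hfc, DD_f0] at k5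
  exact k5

/-- the sheet of one level -/
theorem core (hSAF : StmtSAF) (hZ : StmtZ) (hMA : StmtMA) (hDI : StmtDI) (hSC : StmtSC)
    (d : ℕ) (V E : Type) [NormedAddCommGroup V] [InnerProductSpace ℝ V] [FiniteDimensional ℝ V]
    [NormedAddCommGroup E] [InnerProductSpace ℝ E] [FiniteDimensional ℝ E]
    (L : (Sp d →L[ℝ] V) →L[ℝ] E) (hd : 2 ≤ d) (hL : CEll L) : ∃ J : ℕ,
    ∀ (M c0 ε : ℝ), 0 < ε → ε ≤ 1 → ∀ (b : Sp d → ℝ), BaseKer 2 M c0 b →
    ∀ (R0 ρ γ K CP : ℝ), 200 + 8 * d ≤ R0 → R0 ≤ ρ → ρ ≤ R0 + 10 → 0 < γ → γ ≤ 1 / 64 → 1 ≤ K →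
      1 ≤ CP → ∃ (C κ : ℝ), 0 < C ∧ 0 < κ ∧
      ∀ (R : ℝ), 4 * ρ + 10 ≤ R → ∀ (n : ℕ) (u : Sp d → V), TF u →
      ∀ (x : ℕ → Sp d) (e : ℕ → E), Tower x e → ∀ (a B D : ℝ), 0 < a → 0 ≤ B → 0 ≤ D →
      (∀ j, ma b ε R0 ((1 / 2) ^ n) (fo L u) (n + j) (x j) ≤ K * pw γ j * a) →
      ∀ (ν : Sp d) (c : ℝ), ‖ν‖ = 1 → |c| ≤ R0 + 3 →
      (∀ j, bD b ε R0 R ((1 / 2) ^ n) (fo L u) (n + j) (x j) (e j) ν c ≤ pw (1 / 2) j * B) →
      (∀ j, DD b ε R ((1 / 2) ^ n) (fo L u) (n + j) (x j) (e j) ≤ pw (1 / 4) j * D) →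
      ∀ l : ℕ, pw (3 / 5) l * B ≤ κ * a →
      a ≤ CP * Mi R0 (rs (x (l + 2)) (2 ^ (l + 2)) (fo L u)) (e (l + 2)) →
      ∃ (ν' : Sp d) (c' ab : ℝ), ‖ν'‖ = 1 ∧ ‖ν' - ν‖ ≤ 1 / 4 ∧ |c'| ≤ R0 + 4 ∧
        a ≤ C * ab ∧ ab ≤ C * pw (1 / 8) l * a ∧
        max 0 (blc ν' c' (mo (fo L u) x (e l) l) ρ) ≤ C * pw (3 / 4) l * B ∧
        Sheet J ρ ab (C * pw (3 / 4) l * (B + Real.sqrt (a * D))) (C * pw (1 / 4) l * D)
          (mo (fo L u) x (e l) l) ν' c' := by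
  obtain ⟨J, hJ⟩ := hSAF d V E L hd hL
  refine ⟨J, ?_⟩
  intro M c0 ε hε hε1 b hb R0 ρ γ K CP hR0 hρ hρ' hγ0 hγ hK hCP
  have hd1 : (2 : ℝ) ≤ d := by exact_mod_cast hd
  have hsq : Real.sqrt d ≤ d := by
    rw [Real.sqrt_le_left (by positivity)]
    nlinarith only [hd1]
  obtain ⟨CS, κS, hCS, hκS, HS⟩ := hJ M c0 ε hε hε1 b hb ρ (by linarith)
  obtain ⟨CT, hCT, HT⟩ := lv hZ hMA hDI (by omega : 1 ≤ d) hε hε1 hb (R0 := R0) (ρ := ρ)
    (by linarith) hρ hρ'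
  have hCT0 : 0 < CT := by linarith
  have hCP0 : 0 < CP := by linarith
  have hK0 : 0 < K := by linarith
  obtain ⟨A, hA⟩ : ∃ A : ℝ, A = 1 + 32 * CT * K * CP := ⟨_, rfl⟩
  have hA1 : 1 ≤ A := by
    rw [hA]
    have : 0 < 32 * CT * K * CP := by positivity
    linarith
  have hA0 : 0 < A := by linarith
  obtain ⟨κ, hκ0, hκ1, hκ2, hκ3, hκ4, hκ5, hκ6⟩ : ∃ κ : ℝ, 0 < κ ∧ κ ≤ 1 ∧
      8 * CT * CP * κ ≤ 1 ∧ 24 * CT * CP * κ ≤ κS ∧ 768 * CT ^ 2 * K * CP ^ 2 * κ ≤ κS ∧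
      24 * A ^ 2 * CT * CP * κ ≤ κS ∧ 384 * CS * A * CT * CP * κ ≤ 1 := by
    refine ⟨min (min (min 1 (1 / (8 * CT * CP))) (min (κS / (24 * CT * CP))
      (κS / (768 * CT ^ 2 * K * CP ^ 2)))) (min (κS / (24 * A ^ 2 * CT * CP))
      (1 / (384 * CS * A * CT * CP))), by positivity, ?_, ?_, ?_, ?_, ?_, ?_⟩
    · exact (min_le_left _ _).trans ((min_le_left _ _).trans (min_le_left _ _))
    · rw [← le_div_iff₀' (by positivity)]
      exact (min_le_left _ _).trans ((min_le_left _ _).trans (min_le_right _ _))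
    · rw [← le_div_iff₀' (by positivity)]
      exact (min_le_left _ _).trans ((min_le_right _ _).trans (min_le_left _ _))
    · rw [← le_div_iff₀' (by positivity)]
      exact (min_le_left _ _).trans ((min_le_right _ _).trans (min_le_right _ _))
    · rw [← le_div_iff₀' (by positivity)]
      exact (min_le_right _ _).trans (min_le_left _ _)
    · rw [← le_div_iff₀' (by positivity)]
      exact (min_le_right _ _).trans (min_le_right _ _)
  obtain ⟨C, hC⟩ : ∃ C : ℝ, C = 2 * CP * CS + 8 * CS * A * CT * K + 12 * CS * A ^ 2 * CT +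
    32 * CS * A ^ 2 * CT * K + 4 * CS := ⟨_, rfl⟩
  have c1 : 0 < 2 * CP * CS := by positivity
  have c2 : 0 < 8 * CS * A * CT * K := by positivity
  have c3 : 0 < 12 * CS * A ^ 2 * CT := by positivity
  have c4 : 0 < 32 * CS * A ^ 2 * CT * K := by positivity
  have c5 : 0 < 4 * CS := by positivity
  refine ⟨C, κ, by linarith, hκ0, ?_⟩
  intro R hR n u hu x e hT a B D ha hB hD hma ν c hν hc hbD hDD l hsm hMi
  have hf : Continuous (fo L u) := CM.fo_cont hu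
  have hfc : HasCompactSupport (fo L u) := CM.fo_cs hu
  obtain ⟨f, hff⟩ : ∃ f, f = fo L u := ⟨_, rfl⟩
  have hs0 : (0 : ℝ) < (1 / 2) ^ n := by positivity
  have hR' : 4 * R0 + 10 ≤ R := by linarith
  have HTj := HT E R hR' (fo L u) hf hfc n x e hT
  -- names
  have w0 := pw_pos (1 / 2) l
  have g0 := pw_pos γ l
  have g1 := one_le_pw hγ0.le l
  have q0 := pw_pos (1 / 4) l
  have hDD0 : ∀ j, 0 ≤ DD b ε R ((1 / 2) ^ n) (fo L u) (n + j) (x j) (e j) := fun j =>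
    TU.DD_nonneg b ε R hs0 _ _ _ (hT.unit j)
  have hDB : ∀ j, DD b ε R ((1 / 2) ^ n) (fo L u) (n + j) (x j) (e j) ≤ pw (1 / 2) j * B := by
    intro j
    refine le_trans ?_ (hbD j)
    unfold bD
    have := le_max_left 0 (bb R0 ((1 / 2) ^ n) (fo L u) (n + j) (x j) (e j) ν c)
    linarith
  have hw2 : pw (1 / 2) (l + 2) ≤ 4 * pw (1 / 2) l := by
    have := pw_add_le (show (1 / 2 : ℝ) ≤ 1 by norm_num) l 2
    linarith
  have hw3 : pw (1 / 2) (l + 2 + 1) ≤ 8 * pw (1 / 2) l := by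
    have := pw_add_le (show (1 / 2 : ℝ) ≤ 1 by norm_num) l 3
    linarith
  have hg2 : pw γ (l + 2) ≤ 4 * pw γ l := by
    have := pw_add_le (show γ ≤ 1 by linarith) l 2
    linarith
  have hg3 : pw γ (l + 2 + 1) ≤ 8 * pw γ l := by
    have := pw_add_le (show γ ≤ 1 by linarith) l 3
    linarith
  have hwB : pw (1 / 2) l * B ≤ κ * a :=
    (mul_le_mul_of_nonneg_right (pw_le (by norm_num) l) hB).trans hsm
  have hwB0 : 0 ≤ pw (1 / 2) l * B := by positivity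
  obtain ⟨w, hw⟩ : ∃ w : ℝ, w = pw (1 / 2) l := ⟨_, rfl⟩
  obtain ⟨g, hg⟩ : ∃ g : ℝ, g = pw γ l := ⟨_, rfl⟩
  obtain ⟨q, hq⟩ : ∃ q : ℝ, q = pw (1 / 4) l := ⟨_, rfl⟩
  rw [← hw] at w0 hw2 hw3 hwB hwB0
  rw [← hg] at g0 g1 hg2 hg3
  rw [← hq] at q0
  obtain ⟨T1, T2, T3, T4⟩ := HTj (l + 2)
  have hD2 : DD b ε R ((1 / 2) ^ n) (fo L u) (n + (l + 2)) (x (l + 2)) (e (l + 2)) ≤
      4 * (w * B) := by
    refine (hDB (l + 2)).trans ?_
    have := mul_le_mul_of_nonneg_right hw2 hB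
    linarith only [this]
  have hD3 : DD b ε R ((1 / 2) ^ n) (fo L u) (n + (l + 2 + 1)) (x (l + 2 + 1)) (e (l + 2 + 1)) ≤
      8 * (w * B) := by
    refine (hDB (l + 2 + 1)).trans ?_
    have := mul_le_mul_of_nonneg_right hw3 hB
    linarith only [this]
  have hb3 : bD b ε R0 R ((1 / 2) ^ n) (fo L u) (n + (l + 2 + 1)) (x (l + 2 + 1))
      (e (l + 2 + 1)) ν c ≤ 8 * (w * B) := by
    refine (hbD (l + 2 + 1)).trans ?_
    have := mul_le_mul_of_nonneg_right hw3 hB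
    linarith only [this]
  have hm2' : ma b ε R0 ((1 / 2) ^ n) (fo L u) (n + (l + 2)) (x (l + 2)) ≤ 4 * (K * g * a) := by
    refine (hma (l + 2)).trans ?_
    have := mul_le_mul_of_nonneg_left hg2 (by positivity : 0 ≤ K * a)
    linarith only [this]
  have hm3' : ma b ε R0 ((1 / 2) ^ n) (fo L u) (n + (l + 2 + 1)) (x (l + 2 + 1)) ≤
      8 * (K * g * a) := by
    refine (hma (l + 2 + 1)).trans ?_
    have := mul_le_mul_of_nonneg_left hg3 (by positivity : 0 ≤ K * a)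
    linarith only [this]
  have hKga : κ * a ≤ K * g * a := by
    have h1 : 1 ≤ K * g := by
      have := mul_le_mul hK g1 (by norm_num) hK0.le
      linarith only [this]
    exact mul_le_mul_of_nonneg_right (hκ1.trans h1) ha.le
  obtain ⟨m2, hm2⟩ : ∃ m2 : ℝ, m2 = Mi ρ (rs (x (l + 2)) (2 ^ (l + 2)) (fo L u)) (e (l + 2)) :=
    ⟨_, rfl⟩
  rw [← hm2] at T3 T4
  have ham : a ≤ 2 * CP * m2 := by
    have e1 : CP * Mi R0 (rs (x (l + 2)) (2 ^ (l + 2)) (fo L u)) (e (l + 2)) ≤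
        CP * (m2 + CT * (4 * (κ * a))) := by
      refine mul_le_mul_of_nonneg_left (T3.trans ?_) hCP0.le
      have := mul_le_mul_of_nonneg_left (hD2.trans (mul_le_mul_of_nonneg_left hwB
        (by norm_num : (0 : ℝ) ≤ 4))) hCT0.le
      linarith only [this]
    have e2 := mul_le_mul_of_nonneg_right hκ2 ha.le
    linarith only [hMi, e1, e2]
  have hm20 : 0 < m2 := by
    by_contra hcon
    push Not at hcon
    have : 2 * CP * m2 ≤ 0 := mul_nonpos_of_nonneg_of_nonpos (by positivity) hcon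
    linarith only [ha, ham, this]
  have hm2le : m2 ≤ 8 * CT * K * g * a := by
    refine T4.trans ?_
    have e1 : ma b ε R0 ((1 / 2) ^ n) (fo L u) (n + (l + 2)) (x (l + 2)) +
        DD b ε R ((1 / 2) ^ n) (fo L u) (n + (l + 2)) (x (l + 2)) (e (l + 2)) ≤
        8 * (K * g * a) := by linarith only [hwB, hD2, hm2', hKga]
    have := mul_le_mul_of_nonneg_left e1 hCT0.le
    linarith only [this]
  have hmaρ : ma b ε ρ ((1 / 2) ^ n) (fo L u) (n + (l + 2)) (x (l + 2)) ≤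
      16 * CT * K * g * a := by
    refine T1.trans ?_
    have e1 : ma b ε R0 ((1 / 2) ^ n) (fo L u) (n + (l + 2 + 1)) (x (l + 2 + 1)) +
        DD b ε R ((1 / 2) ^ n) (fo L u) (n + (l + 2 + 1)) (x (l + 2 + 1)) (e (l + 2 + 1)) ≤
        16 * (K * g * a) := by linarith only [hwB, hD3, hm3', hKga]
    have := mul_le_mul_of_nonneg_left e1 hCT0.le
    linarith only [this]
  have hbDρ : bD b ε ρ R ((1 / 2) ^ n) (fo L u) (n + (l + 2)) (x (l + 2)) (e (l + 2)) ν c ≤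
      12 * CT * (w * B) := by
    refine (T2 ν c hν hc).trans ?_
    have e1 : bD b ε R0 R ((1 / 2) ^ n) (fo L u) (n + (l + 2 + 1)) (x (l + 2 + 1))
        (e (l + 2 + 1)) ν c +
        DD b ε R ((1 / 2) ^ n) (fo L u) (n + (l + 2)) (x (l + 2)) (e (l + 2)) ≤
        12 * (w * B) := by linarith only [hD2, hb3]
    have := mul_le_mul_of_nonneg_left e1 hCT0.le
    linarith only [this]
  have hbDρ0 : 0 ≤ bD b ε ρ R ((1 / 2) ^ n) (fo L u) (n + (l + 2)) (x (l + 2))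
      (e (l + 2)) ν c := by
    unfold bD
    have e1 := hDD0 (l + 2)
    have e2 := le_max_left 0 (bb ρ ((1 / 2) ^ n) (fo L u) (n + (l + 2)) (x (l + 2)) (e (l + 2)) ν c)
    linarith only [e1, e2]
  have hκa : κ * a ≤ κ * (2 * CP * m2) := mul_le_mul_of_nonneg_left ham hκ0.le
  -- the frame
  have hul := (hSC d hd 1 one_pos (x l) (2 ^ l) (by positivity)).2.2 V E L u hu
  have hTf := tower_fr hT l
  have e4 : (4 : ℝ) = 2 ^ 2 := by norm_num
  have hrs : rs (xf x l 2) 4 (fo L fun y => u (x l + (2 : ℝ) ^ l • y)) =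
      rs (x (l + 2)) (2 ^ (l + 2)) (fo L u) := by
    rw [hul.2, e4, rs_fr]
  have hcf : (cf ν c x l - ⟪ν, xf x l 2⟫_ℝ) / 4 = cf ν c x (l + 2) := by
    rw [e4, cf_cf]
  have hFlat : Flat b ε ρ R κS (rs (xf x l 2) 4 (fo L fun y => u (x l + (2 : ℝ) ^ l • y)))
      (n + l + 2) (e (l + 2)) ν ((cf ν c x l - ⟪ν, xf x l 2⟫_ℝ) / 4) := by
    rw [hrs, hcf]
    unfold Flat
    have e1 : (∫ y, ⟪rs (x (l + 2)) (2 ^ (l + 2)) (fo L u) y, e (l + 2)⟫_ℝ * zR (ρ / 3) y) = m2 :=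
      hm2.symm
    rw [e1, add_assoc n l 2, bD_f0 (by omega) b ε ρ R n hf hfc, ma_f0]
    refine ⟨hm20, ?_, ?_⟩
    · refine hbDρ.trans ?_
      have k1 : 12 * CT * (w * B) ≤ 12 * CT * (κ * (2 * CP * m2)) :=
        mul_le_mul_of_nonneg_left (hwB.trans hκa) (by positivity)
      have k2 := mul_le_mul_of_nonneg_right hκ3 hm20.le
      linarith only [k1, k2]
    · have k1 : ma b ε ρ ((1 / 2) ^ n) (fo L u) (n + (l + 2)) (x (l + 2)) *
          bD b ε ρ R ((1 / 2) ^ n) (fo L u) (n + (l + 2)) (x (l + 2)) (e (l + 2)) ν c ≤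
          (16 * CT * K * g * a) * (12 * CT * (w * B)) :=
        mul_le_mul hmaρ hbDρ hbDρ0 (by positivity)
      have k2 : g * (w * B) ≤ κ * a := by
        rw [← mul_assoc, hg, hw, pw_mul]
        exact (mul_le_mul_of_nonneg_right (pw_le (by linarith only [hγ]) l) hB).trans hsm
      have k3 : 192 * CT ^ 2 * K * a * (g * (w * B)) ≤ 192 * CT ^ 2 * K * a * (κ * a) :=
        mul_le_mul_of_nonneg_left k2 (by positivity)
      have k4 : a * a ≤ (2 * CP * m2) * (2 * CP * m2) := mul_le_mul ham ham ha.le (by positivity)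
      have k5 : 192 * CT ^ 2 * K * κ * (a * a) ≤
          192 * CT ^ 2 * K * κ * ((2 * CP * m2) * (2 * CP * m2)) :=
        mul_le_mul_of_nonneg_left k4 (by positivity)
      have k6 := mul_le_mul_of_nonneg_right hκ4 (by positivity : 0 ≤ m2 ^ 2)
      linarith only [k1, k3, k5, k6]
  have hLam1 : 1 ≤ A * g := by
    have := mul_le_mul hA1 g1 (by norm_num) hA0.le
    linarith only [this]
  have hmaLam : ma b ε ρ ((1 / 2) ^ (n + l)) (fo L fun y => u (x l + (2 : ℝ) ^ l • y))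
      (n + l + 2) (xf x l 2) ≤ A * g * m2 := by
    rw [hul.2, ma_fr]
    refine hmaρ.trans ?_
    have k1 : 16 * CT * K * g * a ≤ 16 * CT * K * g * (2 * CP * m2) :=
      mul_le_mul_of_nonneg_left ham (by positivity)
    refine k1.trans ?_
    rw [hA]
    have : 0 ≤ g * m2 := by positivity
    linarith only [this]
  have hgw : g ^ 2 * (w * B) ≤ κ * a := by
    rw [← mul_assoc, hg, hw, pw_sq, pw_mul]
    exact (mul_le_mul_of_nonneg_right (pw_le (by linarith only [hγ]) l) hB).trans hsm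
  have hgw' : g * (w * B) ≤ κ * a := by
    rw [← mul_assoc, hg, hw, pw_mul]
    exact (mul_le_mul_of_nonneg_right (pw_le (by linarith only [hγ]) l) hB).trans hsm
  have hLamB : (A * g) ^ 2 * (12 * CT * (w * B)) ≤ κS * m2 := by
    have k1 : 12 * A ^ 2 * CT * (g ^ 2 * (w * B)) ≤ 12 * A ^ 2 * CT * (κ * (2 * CP * m2)) :=
      mul_le_mul_of_nonneg_left (hgw.trans hκa) (by positivity)
    have k2 := mul_le_mul_of_nonneg_right hκ5 hm20.le
    linarith only [k1, k2]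
  have hsum : ∀ I : ℕ, ∑ r ∈ Finset.range I, (1 / 2 : ℝ) ^ r *
      bD b ε ρ R ((1 / 2) ^ (n + l)) (fo L fun y => u (x l + (2 : ℝ) ^ l • y)) (n + l + r)
        (xf x l r) (e (l + r)) ν (cf ν c x l) ≤ 12 * CT * (w * B) := by
    intro I
    rw [hul.2]
    have k1 : ∀ r, bD b ε ρ R ((1 / 2) ^ (n + l)) (rs (x l) (2 ^ l) (fo L u)) (n + l + r)
        (xf x l r) (e (l + r)) ν (cf ν c x l) ≤ 3 * CT * (w * B) * pw (1 / 2) r := by
      intro r
      rw [bD_fr (by omega) b ε ρ R n hf hfc]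
      obtain ⟨-, t2, -, -⟩ := HTj (l + r)
      refine (t2 ν c hν hc).trans ?_
      have k2 := hbD (l + r + 1)
      have k3 := hDB (l + r)
      have k4 : pw (1 / 2) (l + r + 1) ≤ 2 * pw (1 / 2) (l + r) := by
        have := pw_add_le (show (1 / 2 : ℝ) ≤ 1 by norm_num) (l + r) 1
        linarith only [this]
      have k5 : bD b ε R0 R ((1 / 2) ^ n) (fo L u) (n + (l + r + 1)) (x (l + r + 1))
          (e (l + r + 1)) ν c +
          DD b ε R ((1 / 2) ^ n) (fo L u) (n + (l + r)) (x (l + r)) (e (l + r)) ≤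
          3 * (pw (1 / 2) (l + r) * B) := by
        have := mul_le_mul_of_nonneg_right k4 hB
        linarith only [k2, k3, this]
      rw [pw_add, ← hw] at k5
      have := mul_le_mul_of_nonneg_left k5 hCT0.le
      linarith only [this]
    calc _ ≤ ∑ r ∈ Finset.range I, 3 * CT * (w * B) * ((1 / 2 : ℝ) ^ r * pw (1 / 2) r) := by
          refine Finset.sum_le_sum fun r _ => ?_
          have := mul_le_mul_of_nonneg_left (k1 r) (by positivity : (0 : ℝ) ≤ (1 / 2) ^ r)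
          linarith only [this]
      _ = 3 * CT * (w * B) * ∑ r ∈ Finset.range I, ((1 / 2 : ℝ) ^ r * pw (1 / 2) r) := by
          rw [Finset.mul_sum]
      _ ≤ 3 * CT * (w * B) * 4 := mul_le_mul_of_nonneg_left (geo_half I) (by (clear * - hCT w0 hB; positivity))
      _ = _ := by ring
  have hDr : ∀ r ≤ 2, DD b ε R ((1 / 2) ^ (n + l)) (fo L fun y => u (x l + (2 : ℝ) ^ l • y))
      (n + l + r) (xf x l r) (e (l + r)) ≤ 4 * (q * D) := by
    intro r hr
    rw [hul.2, DD_fr]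
    refine (hDD (l + r)).trans ?_
    have k1 : pw (1 / 4) (l + r) ≤ 4 * q := by
      rw [hq]
      have k2 := pw_mono (show (0 : ℝ) ≤ 1 / 4 by norm_num) (show l + r ≤ l + 2 by omega)
      have k3 := pw_add_le (show (1 / 4 : ℝ) ≤ 1 by norm_num) l 2
      linarith only [k2, k3]
    have := mul_le_mul_of_nonneg_right k1 hD
    linarith only [this]
  obtain ⟨ν', c', ab, s1, s2, s3, s4, s5, s6⟩ := HS R hR (n + l)
    (fun y => u (x l + (2 : ℝ) ^ l • y)) hul.1 (xf x l) (fun r => e (l + r)) hTf ν (cf ν c x l)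
    (12 * CT * (w * B)) (4 * (q * D)) (A * g) m2 hν
    ((cf_le hT hν hc (by linarith only [hR0, hsq]) l).trans (by linarith only [hρ])) hFlat
    (by rw [hrs]; exact hm2) hLam1 hmaLam hLamB hsum hDr
  rw [hul.2] at s5 s6
  simp only [add_zero] at s5 s6
  have hmo : (fun y => ⟪rs (x l) (2 ^ l) (fo L u) y, e l⟫_ℝ) = mo (fo L u) x (e l) l := rfl
  rw [hmo] at s5 s6
  have hab0 : 0 < ab := s6.ab0
  -- closeness
  have hcl : ‖ν' - ν‖ ^ 2 + (c' - cf ν c x l) ^ 2 ≤ 1 / 16 := by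
    have k1 : CS * (A * g) * (12 * CT * (w * B)) ≤ m2 * (1 / 16) := by
      have k2 : 12 * CS * A * CT * (g * (w * B)) ≤ 12 * CS * A * CT * (κ * (2 * CP * m2)) :=
        mul_le_mul_of_nonneg_left (hgw'.trans hκa) (by positivity)
      have k3 := mul_le_mul_of_nonneg_right hκ6 hm20.le
      linarith only [k2, k3]
    exact le_of_mul_le_mul_left (s2.trans k1) hm20
  have hcl1 : ‖ν' - ν‖ ≤ 1 / 4 := by
    have k1 : ‖ν' - ν‖ ^ 2 ≤ (1 / 4) ^ 2 := by
      have := sq_nonneg (c' - cf ν c x l)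
      linarith only [hcl, this]
    exact le_of_sq_le_sq k1 (by norm_num)
  have hcl2 : |c'| ≤ R0 + 4 := by
    have k1 : |c' - cf ν c x l| ^ 2 ≤ (1 / 4) ^ 2 := by
      rw [sq_abs]
      have := sq_nonneg ‖ν' - ν‖
      linarith only [hcl, this]
    have k2 := le_of_sq_le_sq k1 (by norm_num)
    have k3 := cf_le hT hν hc (by linarith only [hR0, hsq]) l
    have k4 : |c'| ≤ |c' - cf ν c x l| + |cf ν c x l| := by
      have := abs_add_le (c' - cf ν c x l) (cf ν c x l)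
      rwa [sub_add_cancel] at this
    linarith only [k2, k3, k4]
  have hg2p : g ^ 2 ≤ pw (1 / 8) l := by
    rw [hg, pw_sq]
    exact pw_le (by linarith only [hγ]) l
  have hgw3 : g ^ 2 * w ≤ pw (3 / 4) l := by
    rw [hg, hw, pw_sq, pw_mul]
    exact pw_le (by linarith only [hγ]) l
  have hgs : g ^ 2 * pw (1 / 5) l ≤ pw (3 / 4) l := by
    rw [hg, pw_sq, pw_mul]
    exact pw_le (by linarith only [hγ]) l
  have p34 := pw_pos (3 / 4) l
  have p18 := pw_pos (1 / 8) l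
  refine ⟨ν', c', ab, s1, hcl1, hcl2, ?_, ?_, ?_, ?_⟩
  · have k1 : 2 * CP * m2 ≤ 2 * CP * (CS * ab) := mul_le_mul_of_nonneg_left s3 (by positivity)
    have k2 : 2 * CP * CS * ab ≤ C * ab := mul_le_mul_of_nonneg_right (by linarith only [hCS, hC, c2, c3, c4]) hab0.le
    linarith only [ham, k1, k2]
  · have k1 : CS * (A * g) * m2 ≤ CS * (A * g) * (8 * CT * K * g * a) :=
      mul_le_mul_of_nonneg_left hm2le (by positivity)
    have k2 : 8 * CS * A * CT * K * a * g ^ 2 ≤ 8 * CS * A * CT * K * a * pw (1 / 8) l :=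
      mul_le_mul_of_nonneg_left hg2p (by positivity)
    have k3 : 8 * CS * A * CT * K * (pw (1 / 8) l * a) ≤ C * (pw (1 / 8) l * a) :=
      mul_le_mul_of_nonneg_right (by linarith only [hCS, hC, c1, c3, c4]) (by positivity)
    linarith only [s4, k1, k2, k3]
  · have k2 : 12 * CS * A ^ 2 * CT * B * (g ^ 2 * w) ≤ 12 * CS * A ^ 2 * CT * B * pw (3 / 4) l :=
      mul_le_mul_of_nonneg_left hgw3 (by positivity)
    have k3 : 12 * CS * A ^ 2 * CT * (pw (3 / 4) l * B) ≤ C * (pw (3 / 4) l * B) :=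
      mul_le_mul_of_nonneg_right (by linarith only [hCS, hC, c1, c2, c4]) (by (clear * - p34 hB; positivity))
    linarith only [s5, k2, k3]
  · refine Sheet_mono s6 ?_ ?_
    · obtain ⟨S, hS⟩ : ∃ S : ℝ, S = Real.sqrt (a * D) := ⟨_, rfl⟩
      have hS0 : 0 ≤ S := by rw [hS]; exact Real.sqrt_nonneg _
      have hSS : S ^ 2 = a * D := by rw [hS]; exact Real.sq_sqrt (by positivity)
      have k1 : Real.sqrt (m2 * (4 * (q * D))) ≤ 32 * CT * K * pw (1 / 5) l * S := by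
        have p15 := pw_pos (1 / 5) l
        rw [Real.sqrt_le_iff]
        refine ⟨by (clear * - hCT hK p15 hS0; positivity), ?_⟩
        have e1 : m2 * (4 * (q * D)) ≤ 8 * CT * K * g * a * (4 * (q * D)) :=
          mul_le_mul_of_nonneg_right hm2le (by (clear * - q0 hD; positivity))
        have e2 : g * q ≤ pw (1 / 5) l ^ 2 := by
          rw [hg, hq, pw_mul, pw_sq]
          exact pw_le (by linarith only [hγ]) l
        have e3 : 32 * CT * K * (a * D) * (g * q) ≤ 32 * CT * K * (a * D) * pw (1 / 5) l ^ 2 :=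
          mul_le_mul_of_nonneg_left e2 (by (clear * - hCT hK ha hD; positivity))
        have e5 : 32 * CT * K ≤ (32 * CT * K) ^ 2 := by
          have : 1 ≤ 32 * CT * K := by
            have := mul_le_mul hCT hK (by norm_num) hCT0.le
            linarith only [this]
          rw [sq]
          exact le_mul_of_one_le_left (by linarith only [this]) this
        have e6 : 32 * CT * K * ((a * D) * pw (1 / 5) l ^ 2) ≤
            (32 * CT * K) ^ 2 * ((a * D) * pw (1 / 5) l ^ 2) :=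
          mul_le_mul_of_nonneg_right e5 (by (clear * - ha hD p15; positivity))
        have e7 : (32 * CT * K * pw (1 / 5) l * S) ^ 2 =
            (32 * CT * K) ^ 2 * ((a * D) * pw (1 / 5) l ^ 2) := by
          rw [← hSS]
          ring
        rw [e7]
        linarith only [e1, e3, e6]
      rw [← hS]
      have k2 : CS * (A * g) ^ 2 * (12 * CT * (w * B) + Real.sqrt (m2 * (4 * (q * D)))) ≤
          CS * (A * g) ^ 2 * (12 * CT * (w * B) + 32 * CT * K * pw (1 / 5) l * S) :=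
        mul_le_mul_of_nonneg_left (by linarith only [k1]) (by positivity)
      refine k2.trans ?_
      have k3 : 12 * CS * A ^ 2 * CT * B * (g ^ 2 * w) ≤
          12 * CS * A ^ 2 * CT * B * pw (3 / 4) l :=
        mul_le_mul_of_nonneg_left hgw3 (by (clear * - hCS hA1 hCT hB; positivity))
      have k4 : 32 * CS * A ^ 2 * CT * K * S * (g ^ 2 * pw (1 / 5) l) ≤
          32 * CS * A ^ 2 * CT * K * S * pw (3 / 4) l :=
        mul_le_mul_of_nonneg_left hgs (by (clear * - hCS hA1 hCT hK hS0; positivity))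
      have k5 : 12 * CS * A ^ 2 * CT * (pw (3 / 4) l * B) ≤ C * (pw (3 / 4) l * B) :=
        mul_le_mul_of_nonneg_right (by linarith only [hCS, hC, c1, c2, c4]) (by (clear * - p34 hB; positivity))
      have k6 : 32 * CS * A ^ 2 * CT * K * (pw (3 / 4) l * S) ≤ C * (pw (3 / 4) l * S) :=
        mul_le_mul_of_nonneg_right (by linarith only [hCS, hC, c1, c2, c3]) (by (clear * - p34 hS0; positivity))
      linarith only [k3, k4, k5, k6]
    · rw [← hq]
      have k1 : 4 * CS * (q * D) ≤ C * (q * D) :=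
        mul_le_mul_of_nonneg_right (by linarith only [hC, c1, c2, c3, c4]) (by (clear * - q0 hD; positivity))
      linarith only [k1]

end

end ML

end TG


end

section

/-!
# MODULE ML: sheets at many levels (helper25)

The sheets are constructed with the radius ρ = R0 + 10 (ρ = R0 if I = 0), so that the planes of two
consecutive levels meet the common ball well inside, see StmtGS.
-/

open MeasureTheory Metric Set TrI
open scoped InnerProductSpace ContDiff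

namespace TG

namespace ML

noncomputable section

set_option linter.unusedSectionVars false

lemma ZP_mono {d : ℕ} {R D : ℝ} {m : Sp d → ℝ} (h : ZP R D m) {R' D' : ℝ} (hR : R' ≤ R)
    (hD : D ≤ D') : ZP R' D' m := fun H h1 h2 h3 h4 h5 => by
  have := h H h1 h2 h3 h4 (fun y hy => h5 y (hR.trans hy))
  linarith

lemma mo_eq {d : ℕ} {E : Type} [NormedAddCommGroup E] [InnerProductSpace ℝ E] (f : Sp d → E)
    (x : ℕ → Sp d) (e : E) (l : ℕ) :
    mo f x e l = fun y => 2 ^ l * ⟪f (x l + (2 : ℝ) ^ l • y), e⟫_ℝ := by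
  funext y
  unfold mo rs
  rw [real_inner_smul_left]

lemma mo_next {d : ℕ} {E : Type} [NormedAddCommGroup E] [InnerProductSpace ℝ E]
    [FiniteDimensional ℝ E] (f : Sp d → E) (x : ℕ → Sp d) (e : E) (l : ℕ) :
    mo f x e (l + 1) = fun y => 2 ^ 1 * mo f x e l (xf x l 1 + (2 : ℝ) ^ 1 • y) := by
  funext y
  unfold mo
  rw [← rs_fr f x l 1]
  conv_lhs => unfold rs
  rw [real_inner_smul_left]
  rfl

lemma mo_cont {d : ℕ} {E : Type} [NormedAddCommGroup E] [InnerProductSpace ℝ E] {f : Sp d → E}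
    (hf : Continuous f) (x : ℕ → Sp d) (e : E) (l : ℕ) : Continuous (mo f x e l) := by
  unfold mo
  exact (rs_cont hf _ _).inner continuous_const

/-- the sheets of all levels, with the radius ρ -/
theorem fam (hCM : StmtCM) (hMP : StmtMP) (hSAF : StmtSAF) (hZ : StmtZ) (hMA : StmtMA)
    (hDI : StmtDI) (hSC : StmtSC)
    (d : ℕ) (V E : Type) [NormedAddCommGroup V] [InnerProductSpace ℝ V] [FiniteDimensional ℝ V]
    [NormedAddCommGroup E] [InnerProductSpace ℝ E] [FiniteDimensional ℝ E]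
    (L : (Sp d →L[ℝ] V) →L[ℝ] E) (hd : 2 ≤ d) (hL : CEll L) : ∃ J : ℕ,
    ∀ (M c0 ε : ℝ), 0 < ε → ε ≤ 1 → ∀ (b : Sp d → ℝ), BaseKer 2 M c0 b →
    ∀ (R0 γ K : ℝ), 200 + 8 * d ≤ R0 → 0 < γ → γ ≤ 1 / (32 * d) → 1 ≤ K →
    ∀ ρ : ℝ, R0 ≤ ρ → ρ ≤ R0 + 10 →
    ∃ (C κ : ℝ), 0 < C ∧ 0 < κ ∧ ∀ I : ℕ, ∃ C1 : ℝ, 0 < C1 ∧
      ∀ (R : ℝ), 4 * ρ + 10 ≤ R → 2 ^ (I + 2) * R0 + 10 ≤ R → ∀ (n : ℕ) (u : Sp d → V), TF u →
      ∀ (x : ℕ → Sp d) (e : ℕ → E), Tower x e →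
      ∀ a : ℝ, 0 < a → a = ma b ε R0 ((1 / 2) ^ n) (fo L u) n 0 →
      (∀ r : ℕ, ma b ε R0 ((1 / 2) ^ n) (fo L u) (n + r) (x r) ≤ K * (2 : ℝ) ^ (γ * r) * a) →
      ∀ (νs : ℕ → Sp d) (cs : ℕ → ℝ) (B D : ℝ), (∀ r, ‖νs r‖ = 1) →
        (∀ r, |ht (νs r) (cs r) (x r)| ≤ 4 * R0 * 2 ^ r) → pw (3 / 5) I * B ≤ κ * a →
        (∀ I : ℕ, ∑ r ∈ Finset.range I, wq (1 / 4) r *
          bD b ε R0 R ((1 / 2) ^ n) (fo L u) (n + r) (x r) (e r) (νs r) (cs r) ≤ B) →
        (∀ I : ℕ, ∑ r ∈ Finset.range I, wq (1 / 4) r *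
          DD b ε R ((1 / 2) ^ n) (fo L u) (n + r) (x r) (e r) ≤ D) →
        0 ≤ B ∧ 0 ≤ D ∧
        ∃ (ν0 : Sp d) (ν : ℕ → Sp d) (c ab : ℕ → ℝ), (∀ l, ‖ν l‖ = 1) ∧
          ∀ l ≤ I, ‖ν l - ν0‖ ≤ 1 / 4 ∧ |c l| ≤ R0 + 4 ∧
            a ≤ C * ab l ∧ ab l ≤ C * pw (1 / 8) l * a ∧
            max 0 (blc (ν l) (c l) (mo (fo L u) x (e 0) l) ρ) ≤ C * pw (3 / 4) l * B + C1 * D ∧
            max 0 (blc (ν l) (c l) (mo (fo L u) x (e 0) l) R0) ≤
              C * pw (3 / 4) l * B + C1 * D ∧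
            Sheet J ρ (ab l) (C * pw (3 / 4) l * (B + Real.sqrt (a * D)))
              (C1 * D) (mo (fo L u) x (e 0) l) (ν l) (c l) ∧
            ZP (ρ + 1) (C1 * D) (mo (fo L u) x (e 0) l) := by
  obtain ⟨J, hJ⟩ := core hSAF hZ hMA hDI hSC d V E L hd hL
  refine ⟨J, ?_⟩
  intro M c0 ε hε hε1 b hb R0 γ K hR0 hγ0 hγ hK ρ hρ hρ'
  have hd1 : (2 : ℝ) ≤ d := by exact_mod_cast hd
  have hγ16 : γ ≤ 1 / (16 * d) := by
    refine hγ.trans ?_
    exact one_div_le_one_div_of_le (by positivity) (by linarith)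
  have hγ64 : γ ≤ 1 / 64 := by
    refine hγ.trans ?_
    exact one_div_le_one_div_of_le (by positivity) (by linarith)
  obtain ⟨CC, hCC, HCM⟩ := hCM d V E L hd hL M c0 ε hε hε1 b hb R0 γ K hR0 hγ0 hγ16 hK
  obtain ⟨CP0, κM, hCP0, hκM, HMP⟩ := hMP d V E L hd hL M c0 ε hε hε1 b hb R0 γ K 1 hR0 hγ0 hγ16
    hK one_pos
  obtain ⟨CP, hCP⟩ : ∃ CP : ℝ, CP = 1 + CP0 := ⟨_, rfl⟩
  have hCP1 : 1 ≤ CP := by linarith
  obtain ⟨C, κc, hC, hκc, HC⟩ := hJ M c0 ε hε hε1 b hb R0 ρ γ K CP hR0 hρ hρ' hγ0 hγ64 hK hCP1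
  obtain ⟨Ct, hCt, HT⟩ := transfer d (R := ρ) (by linarith)
  obtain ⟨Cr, hCr, HR⟩ := blc_rad d (R := R0) (R' := ρ) (by linarith) hρ
  refine ⟨C * (1 + CC), min (κM / (4 * CC)) (κc / CC), by positivity, by positivity, ?_⟩
  intro I
  obtain ⟨Cd, hCd, HD⟩ := dirn hZ hDI (by omega : 1 ≤ d) hε hε1 hb (R0 := R0) (by linarith) I
  obtain ⟨C1, hC1⟩ : ∃ C1 : ℝ, C1 = C * 2 ^ I + Ct * Cd + Cr * Cd + Cd := ⟨_, rfl⟩
  have d1 : 0 < C * 2 ^ I := by positivity
  have d2 : 0 < Ct * Cd := by positivity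
  have d3 : 0 < Cr * Cd := by positivity
  refine ⟨C1, by linarith, ?_⟩
  intro R hR hR2 n u hu x e hT a ha haa hma νs cs B D hνs hcs hsm hB hD
  have hs0 : (0 : ℝ) < (1 / 2) ^ n := by positivity
  have hB0 : 0 ≤ B := by simpa using hB 0
  have hD0 : 0 ≤ D := by simpa using hD 0
  refine ⟨hB0, hD0, ?_⟩
  have hf : Continuous (fo L u) := CM.fo_cont hu
  have hfc : HasCompactSupport (fo L u) := CM.fo_cs hu
  have hDDn : ∀ j, 0 ≤ DD b ε R ((1 / 2) ^ n) (fo L u) (n + j) (x j) (e j) := fun j =>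
    TU.DD_nonneg b ε R hs0 _ _ _ (hT.unit j)
  obtain ⟨ν0, c, hν0, hc, hsum⟩ := HCM R (by linarith) n u hu x e hT a ha haa hma νs cs B hνs hcs hB
  have hbDn : ∀ j, 0 ≤ bD b ε R0 R ((1 / 2) ^ n) (fo L u) (n + j) (x j) (e j) ν0 c := fun j =>
    add_nonneg (le_max_left _ _) (hDDn j)
  have hbD := term_le hbDn hsum
  have hDD := term_le hDDn hD
  have hκ1 : 4 * CC * (pw (3 / 5) I * B) ≤ κM * a := by
    have k1 := hsm.trans (mul_le_mul_of_nonneg_right (min_le_left _ _) ha.le)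
    have k2 := mul_le_mul_of_nonneg_left k1 (by positivity : 0 ≤ 4 * CC)
    have k3 : 4 * CC * (κM / (4 * CC) * a) = κM * a := by field_simp
    rwa [k3] at k2
  have hκ2 : CC * (pw (3 / 5) I * B) ≤ κc * a := by
    have k1 := hsm.trans (mul_le_mul_of_nonneg_right (min_le_right _ _) ha.le)
    have k2 := mul_le_mul_of_nonneg_left k1 hCC.le
    have k3 : CC * (κc / CC * a) = κc * a := by field_simp
    rwa [k3] at k2
  have hS0 : 0 ≤ Real.sqrt (a * D) := Real.sqrt_nonneg _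
  have main : ∀ l, ∃ (ν' : Sp d) (c' ab : ℝ), ‖ν'‖ = 1 ∧ (l ≤ I → (‖ν' - ν0‖ ≤ 1 / 4 ∧
      |c'| ≤ R0 + 4 ∧
      a ≤ C * (1 + CC) * ab ∧ ab ≤ C * (1 + CC) * pw (1 / 8) l * a ∧
      max 0 (blc ν' c' (mo (fo L u) x (e 0) l) ρ) ≤
        C * (1 + CC) * pw (3 / 4) l * B + C1 * D ∧
      max 0 (blc ν' c' (mo (fo L u) x (e 0) l) R0) ≤
        C * (1 + CC) * pw (3 / 4) l * B + C1 * D ∧
      Sheet J ρ ab (C * (1 + CC) * pw (3 / 4) l * (B + Real.sqrt (a * D)))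
        (C1 * D) (mo (fo L u) x (e 0) l) ν' c' ∧
      ZP (ρ + 1) (C1 * D) (mo (fo L u) x (e 0) l))) := by
    intro l
    by_cases hl : l ≤ I
    swap
    · exact ⟨ν0, 0, 0, hν0, fun h => absurd h hl⟩
    have p35 : pw (3 / 5) l ≤ pw (3 / 5) I := pw_mono (by norm_num) hl
    have p34 := pw_pos (3 / 4) l
    have p18 := pw_pos (1 / 8) l
    have hMP2 := HMP R (by linarith only [hρ, hR]) n u hu x e hT a ha haa hma ν0 c (CC * B) hν0 hc hsum (l + 2)
      (by omega) (by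
        have k1 : pw (3 / 5) (l + 2) * (CC * B) ≤ 4 * CC * (pw (3 / 5) I * B) := by
          have k2 := pw_add_le (show (3 / 5 : ℝ) ≤ 1 by norm_num) l 2
          have k3 := mul_le_mul_of_nonneg_right k2 (by (clear * - hCC hB0; positivity) : 0 ≤ CC * B)
          have k4 := mul_le_mul_of_nonneg_right p35 (by positivity : 0 ≤ CC * B)
          linarith
        exact k1.trans hκ1)
    have hMi : a ≤ CP * Mi R0 (rs (x (l + 2)) (2 ^ (l + 2)) (fo L u)) (e (l + 2)) := by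
      have k1 := hMP2.2
      have k2 : 0 < Mi R0 (rs (x (l + 2)) (2 ^ (l + 2)) (fo L u)) (e (l + 2)) := by
        by_contra hcon
        push Not at hcon
        have := mul_nonpos_of_nonneg_of_nonpos hCP0.le hcon
        linarith only [ha, hMP2, this]
      rw [hCP]
      linarith
    have hsm' : pw (3 / 5) l * (CC * B) ≤ κc * a := by
      have k4 := mul_le_mul_of_nonneg_right p35 (by positivity : 0 ≤ CC * B)
      linarith
    obtain ⟨ν', c', ab, s1, s2, s3, s4, s5, s6, s7⟩ := HC R hR n u hu x e hT a (CC * B) D ha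
      (by positivity) hD0 hma ν0 c hν0 hc hbD hDD l hsm' hMi
    obtain ⟨t1, t2⟩ := HD E R hR2 (fo L u) hf hfc n x e hT D hDD l hl
    obtain ⟨v1, v2⟩ := HT J ab _ _ (Cd * D) c' _ (mo (fo L u) x (e 0) l) ν' s7 (by positivity)
      (fun ζ N hζ hs => t1 ζ N hζ (fun y hy => hs y (by linarith)))
    have hab : 0 < ab := s7.ab0
    have hloc : |c'| ≤ 3 / 2 * R0 := by linarith only [hR0, s3]
    have w1 := HR (Cd * D) c' (mo (fo L u) x (e 0) l) ν' (mo_cont hf _ _ _) (by positivity) s1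
      hloc (ZP_mono t2 (by linarith only [hρ']) le_rfl)
    have hp14 : pw (1 / 4) l ≤ 2 ^ I := by
      have k1 := pw_le (show (1 / 4 : ℝ) ≤ 1 by norm_num) l
      rw [pw_one] at k1
      exact k1.trans (pow_le_pow_right₀ (by norm_num) hl)
    have hDle : C * pw (1 / 4) l * D + Ct * (Cd * D) ≤ C1 * D := by
      have k1 := mul_le_mul_of_nonneg_left hp14 (by positivity : 0 ≤ C * D)
      have k2 : 0 ≤ Cr * Cd * D := by positivity
      have k3 : 0 ≤ Cd * D := by positivity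
      rw [hC1]
      linarith
    have hb1 : max 0 (blc ν' c' (mo (fo L u) x (e l) l) ρ) + Ct * (Cd * D) ≤
        C * (1 + CC) * pw (3 / 4) l * B + Ct * (Cd * D) := by
      have k1 : 0 ≤ C * (pw (3 / 4) l * B) := by (clear * - hC p34 hB0; positivity)
      linarith only [s6, k1]
    have hblm := le_max_right 0 (blc ν' c' (mo (fo L u) x (e l) l) ρ)
    have k10 : 0 ≤ C * (1 + CC) * pw (3 / 4) l * B := by (clear * - hC hCC p34 hB0; positivity)
    have k11 : 0 ≤ C1 * D := mul_nonneg (by linarith only [hCd, hC1, d1, d2, d3]) hD0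
    have k12 : 0 ≤ C * 2 ^ I * D := by positivity
    have k13 : 0 ≤ Ct * (Cd * D) := by positivity
    have k14 : 0 ≤ Cr * (Cd * D) := by positivity
    have k15 : 0 ≤ Cd * D := by positivity
    have hC1D : C1 * D = C * 2 ^ I * D + Ct * (Cd * D) + Cr * (Cd * D) + Cd * D := by
      rw [hC1]
      ring
    refine ⟨ν', c', ab, s1, fun _ => ⟨s2, s3, ?_, ?_, ?_, ?_, ?_, ?_⟩⟩
    · have : 0 ≤ C * CC * ab := by positivity
      linarith only [s4, this]
    · have : 0 ≤ C * CC * (pw (1 / 8) l * a) := by positivity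
      linarith only [s5, this]
    · refine max_le (by linarith only [k10, k11]) ?_
      linarith only [v2, hb1, hblm, k12, k14, k15, hC1D]
    · refine max_le (by linarith only [k10, k11]) ?_
      linarith only [v2, w1, hb1, hblm, k12, k15, hC1D]
    · refine Sheet_mono v1 ?_ hDle
      have k1 : 0 ≤ C * CC * (pw (3 / 4) l * Real.sqrt (a * D)) := by (clear * - hC hCC p34; positivity)
      have k2 : 0 ≤ C * (pw (3 / 4) l * B) := by (clear * - hC p34 hB0; positivity)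
      linarith only [k1, k2]
    · exact ZP_mono t2 (by linarith only [hρ']) (by linarith only [k12, k13, k14, hC1D])
  choose ν' c' ab h1 h2 using main
  exact ⟨ν0, ν', c', ab, h1, h2⟩

/-- two consecutive levels -/
theorem gs1 (hGS : StmtGS) {d : ℕ} (hd : 2 ≤ d) (J : ℕ) {R0 : ℝ} (hR0 : 200 + 8 * d ≤ R0) :
    ∃ C : ℝ, 0 < C ∧ ∀ (m m1 : Sp d → ℝ) (n n' : Sp d) (s s' ab ab' ep ep' D b1 b2 : ℝ) (x : Sp d),
      Continuous m → 0 ≤ D → (m1 = fun y => 2 ^ 1 * m (x + (2 : ℝ) ^ 1 • y)) →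
      Sheet J (R0 + 10) ab ep D m n s → Sheet J (R0 + 10) ab' ep' D m1 n' s' →
      ZP (R0 + 10 + 1) D m → ZP (R0 + 10 + 1) D m1 → |s| ≤ R0 + 4 → ‖x‖ ≤ Real.sqrt d →
      ‖n - n'‖ ≤ 1 / 2 → max 0 (blc n s m (R0 + 10)) ≤ b1 →
      max 0 (blc n' s' m1 (R0 + 10)) ≤ b2 →
      ab * ‖n - n'‖ ≤ C * (ep + ep' + b1 + b2 + D) := by
  have hd1 : (2 : ℝ) ≤ d := by exact_mod_cast hd
  have hsq : Real.sqrt d ≤ d := by
    rw [Real.sqrt_le_left (by positivity)]
    nlinarith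
  obtain ⟨c0, C, hc0, hC, H⟩ := hGS d J hd (R0 + 10) 1 (by linarith)
  refine ⟨C + 1 / c0, by positivity, ?_⟩
  intro m m1 n n' s s' ab ab' ep ep' D b1 b2 x hm hD hm1 hS hS' hZ hZ' hs hx hnn hb1 hb2
  have hab := hS.ab0
  have hep := hS.ep0
  have hep' := hS'.ep0
  have hb10 : 0 ≤ b1 := (le_max_left _ _).trans hb1
  have hb20 : 0 ≤ b2 := (le_max_left _ _).trans hb2
  obtain ⟨Er, hEr⟩ : ∃ Er : ℝ, Er = ep + ep' + b1 + b2 + D := ⟨_, rfl⟩
  have hEr0 : 0 ≤ Er := by linarith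
  rw [← hEr]
  have hn := norm_nonneg (n - n')
  have k0 : 0 ≤ 1 / c0 * Er := by positivity
  have k00 : 0 ≤ C * Er := by positivity
  by_cases hcase : Er ≤ c0 * ab
  · rw [hm1] at hS' hZ' hb2
    have hp : ‖s • n‖ = |s| := by rw [norm_smul, hS.n1, mul_one, Real.norm_eq_abs]
    obtain ⟨-, σ, hσ, h3⟩ := H m m n n' s s' ab ab' ep ep' D Er x (s • n) hm hm hD hS hS' hZ hZ'
      (fun Y _ _ _ _ => by simpa using hD) (by rw [hp]; linarith) (by
        unfold hgt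
        rw [real_inner_smul_right, real_inner_self_eq_norm_sq, hS.n1]
        norm_num) (by
        have := norm_sub_le (s • n) x
        rw [hp] at this
        linarith) (by linarith) hcase
    have h4 := abs_nonneg (s - σ * (⟪n', x⟫_ℝ + 2 ^ 1 * s'))
    have h5 : ab * ‖n - σ • n'‖ ≤ C * Er := by
      have : 0 ≤ ab * |s - σ * (⟪n', x⟫_ℝ + 2 ^ 1 * s')| := by positivity
      linarith
    have h6 : ‖n - n'‖ ≤ ‖n - σ • n'‖ := by
      rcases hσ with rfl | rfl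
      · rw [one_smul]
      · have k1 : ‖n + n‖ ≤ ‖n - (-1 : ℝ) • n'‖ + ‖n - n'‖ := by
          have := norm_add_le (n - (-1 : ℝ) • n') (n - n')
          refine le_trans (le_of_eq ?_) this
          congr 1
          module
        have k2 : ‖n + n‖ = 2 := by
          rw [← two_smul ℝ n, norm_smul, hS.n1]
          norm_num
        rw [k2] at k1
        linarith only [hnn, k1]
    have h7 := mul_le_mul_of_nonneg_left h6 hab.le
    linarith
  · push Not at hcase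
    have h1 : ab * ‖n - n'‖ ≤ ab * 1 := mul_le_mul_of_nonneg_left (by linarith) hab.le
    have h2 : ab ≤ 1 / c0 * Er := by
      have := mul_le_mul_of_nonneg_left hcase.le (by positivity : 0 ≤ 1 / c0)
      have k3 : 1 / c0 * (c0 * ab) = ab := by field_simp
      linarith
    linarith

end

end ML

open _root_.TG.ML in
theorem stmtML (hCM : StmtCM) (hMP : StmtMP) (hSAF : StmtSAF) (hGS : StmtGS) (hZ : StmtZ)
    (hMA : StmtMA) (hDI : StmtDI) (hSC : StmtSC) : StmtML := by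
  intro d V E _ _ _ _ _ _ L hd hL
  obtain ⟨J, hJ⟩ := fam hCM hMP hSAF hZ hMA hDI hSC d V E L hd hL
  refine ⟨J, ?_⟩
  intro M c0 ε hε hε1 b hb R0 γ K hR0 hγ0 hγ hK
  have hd1 : (2 : ℝ) ≤ d := by exact_mod_cast hd
  obtain ⟨Ca, κa, hCa, hκa, Ha⟩ := hJ M c0 ε hε hε1 b hb R0 γ K hR0 hγ0 hγ hK R0 le_rfl
    (by linarith)
  obtain ⟨Cb, κb, hCb, hκb, Hb⟩ := hJ M c0 ε hε hε1 b hb R0 γ K hR0 hγ0 hγ hK (R0 + 10)
    (by linarith) le_rfl
  obtain ⟨Cg, hCg, HG⟩ := gs1 hGS hd J hR0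
  obtain ⟨C, hC⟩ : ∃ C : ℝ, C = Ca + Cb + 12 * Cb ^ 2 * Cg := ⟨_, rfl⟩
  have c1 : 0 < 12 * Cb ^ 2 * Cg := by positivity
  have hC0 : 0 < C := by linarith
  refine ⟨C, min κa κb, hC0, by positivity, ?_⟩
  intro I
  rcases Nat.eq_zero_or_pos I with rfl | hI
  · obtain ⟨C1, hC1, H⟩ := Ha 0
    refine ⟨C1, hC1, ?_⟩
    intro R hR n u hu x e hT a ha haa hma νs cs B D hνs hcs hsm hB hD
    obtain ⟨hB0, hD0, ν0, ν, c, ab, h1, h2⟩ := H R (by norm_num at hR; linarith) hR n u hu x e hT a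
      ha haa hma νs cs B D hνs hcs
      (hsm.trans (mul_le_mul_of_nonneg_right (min_le_left _ _) ha.le)) hB hD
    refine ⟨ν, c, ab, h1, by linarith [(h2 0 le_rfl).2.1], ?_⟩
    intro l hl
    obtain rfl : l = 0 := by omega
    obtain ⟨-, g2, g3, g4, g5, g6, g7, g8⟩ := h2 0 le_rfl
    rw [mo_eq] at g5 g6 g7
    have hab := g7.ab0
    have hS0 : 0 ≤ Real.sqrt (a * D) := Real.sqrt_nonneg _
    have p34 := pw_pos (3 / 4) 0
    have p18 := pw_pos (1 / 8) 0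
    have k1 : Ca ≤ C := by linarith
    refine ⟨g3.trans (mul_le_mul_of_nonneg_right k1 hab.le), ?_, ?_, ?_, ?_⟩
    · refine g4.trans ?_
      change Ca * pw (1 / 8) 0 * a ≤ C * pw (1 / 8) 0 * a
      gcongr
    · rw [sub_self, norm_zero, mul_zero]
      change 0 ≤ C * pw (3 / 4) 0 * (B + Real.sqrt (a * D)) + C1 * D
      positivity
    · refine g6.trans ?_
      change Ca * pw (3 / 4) 0 * B + C1 * D ≤ C * pw (3 / 4) 0 * B + C1 * D
      gcongr
    · refine Sheet_mono g7 ?_ le_rfl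
      change Ca * pw (3 / 4) 0 * (B + Real.sqrt (a * D)) ≤
        C * pw (3 / 4) 0 * (B + Real.sqrt (a * D))
      gcongr
  · obtain ⟨C1, hC1, H⟩ := Hb I
    refine ⟨C1 + 3 * I * (Cb * Cg * C1), by positivity, ?_⟩
    intro R hR n u hu x e hT a ha haa hma νs cs B D hνs hcs hsm hB hD
    have hR8 : 8 * R0 + 10 ≤ R := by
      refine le_trans ?_ hR
      have k1 : (8 : ℝ) ≤ 2 ^ (I + 2) := by
        have : (2 : ℝ) ^ 3 ≤ 2 ^ (I + 2) := pow_le_pow_right₀ (by norm_num) (by omega)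
        linarith
      have := mul_le_mul_of_nonneg_right k1 (by linarith : 0 ≤ R0)
      linarith
    obtain ⟨hB0, hD0, ν0, ν, c, ab, h1, h2⟩ := H R (by linarith) hR n u hu x e hT a
      ha haa hma νs cs B D hνs hcs
      (hsm.trans (mul_le_mul_of_nonneg_right (min_le_right _ _) ha.le)) hB hD
    have hf : Continuous (fo L u) := CM.fo_cont hu
    have hS0 : 0 ≤ Real.sqrt (a * D) := Real.sqrt_nonneg _
    obtain ⟨S, hS⟩ : ∃ S : ℝ, S = B + Real.sqrt (a * D) := ⟨_, rfl⟩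
    have hSB : B ≤ S := by linarith
    have hSp : 0 ≤ S := by linarith
    -- one step
    have hstep : ∀ l, l + 1 ≤ I → a * ‖ν l - ν (l + 1)‖ ≤
        6 * Cb ^ 2 * Cg * S * pw (3 / 4) l + 3 * (Cb * Cg * C1) * D := by
      intro l hl
      obtain ⟨a1, a2, a3, a4, a5, a6, a7, a8⟩ := h2 l (by omega)
      obtain ⟨b1, b2, b3, b4, b5, b6, b7, b8⟩ := h2 (l + 1) hl
      have hnn : ‖ν l - ν (l + 1)‖ ≤ 1 / 2 := by
        have e1 : ν l - ν (l + 1) = (ν l - ν0) - (ν (l + 1) - ν0) := by abel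
        rw [e1]
        exact (norm_sub_le _ _).trans (by linarith)
      have k1 := HG (mo (fo L u) x (e 0) l) (mo (fo L u) x (e 0) (l + 1)) (ν l) (ν (l + 1)) (c l)
        (c (l + 1)) (ab l) (ab (l + 1)) _ _ (C1 * D) _ _ (xf x l 1) (mo_cont hf _ _ _)
        (by positivity) (mo_next _ _ _ _) a7 b7 a8 b8 a2 (xf_one hT l) hnn a5 b5
      rw [← hS] at k1
      have p34 := pw_pos (3 / 4) l
      have k2 : pw (3 / 4) (l + 1) ≤ 2 * pw (3 / 4) l := by
        have := pw_add_le (show (3 / 4 : ℝ) ≤ 1 by norm_num) l 1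
        linarith
      have k3 : Cb * pw (3 / 4) l * S + Cb * pw (3 / 4) (l + 1) * S +
          (Cb * pw (3 / 4) l * B + C1 * D) + (Cb * pw (3 / 4) (l + 1) * B + C1 * D) + C1 * D ≤
          6 * (Cb * pw (3 / 4) l * S) + 3 * (C1 * D) := by
        have e1 : Cb * S * pw (3 / 4) (l + 1) ≤ Cb * S * (2 * pw (3 / 4) l) :=
          mul_le_mul_of_nonneg_left k2 (by positivity)
        have e2 : Cb * pw (3 / 4) l * B ≤ Cb * pw (3 / 4) l * S :=
          mul_le_mul_of_nonneg_left hSB (by positivity)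
        have e3 : Cb * B * pw (3 / 4) (l + 1) ≤ Cb * B * (2 * pw (3 / 4) l) :=
          mul_le_mul_of_nonneg_left k2 (by positivity)
        linarith
      have k4 := k1.trans (mul_le_mul_of_nonneg_left k3 hCg.le)
      have hn0 := norm_nonneg (ν l - ν (l + 1))
      have k5 : a * ‖ν l - ν (l + 1)‖ ≤ Cb * ab l * ‖ν l - ν (l + 1)‖ :=
        mul_le_mul_of_nonneg_right a3 hn0
      have k6 := mul_le_mul_of_nonneg_left k4 hCb.le
      linarith
    have hsum : ∀ l, l ≤ I → a * ‖ν l - ν 0‖ ≤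
        6 * Cb ^ 2 * Cg * S * (∑ k ∈ Finset.range l, pw (3 / 4) k) +
          l * (3 * (Cb * Cg * C1) * D) := by
      intro l
      induction l with
      | zero => simp
      | succ l ih =>
        intro hl
        have k1 := ih (by omega)
        have k2 := hstep l hl
        have k3 : ‖ν (l + 1) - ν 0‖ ≤ ‖ν l - ν (l + 1)‖ + ‖ν l - ν 0‖ := by
          have e1 : ν (l + 1) - ν 0 = (ν (l + 1) - ν l) + (ν l - ν 0) := by abel
          rw [e1, norm_sub_rev (ν l) (ν (l + 1))]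
          exact norm_add_le _ _
        have k4 := mul_le_mul_of_nonneg_left k3 ha.le
        rw [Finset.sum_range_succ]
        push_cast
        linarith
    refine ⟨ν, c, ab, h1, by linarith [(h2 0 (Nat.zero_le _)).2.1], ?_⟩
    intro l hl
    obtain ⟨-, g2, g3, g4, g5, g6, g7, g8⟩ := h2 l hl
    rw [mo_eq] at g5 g6 g7
    have hab := g7.ab0
    have p34 := pw_pos (3 / 4) l
    have p18 := pw_pos (1 / 8) l
    have k1 : Cb ≤ C := by linarith
    have hI0 : 0 ≤ 3 * I * (Cb * Cg * C1) * D := by positivity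
    refine ⟨g3.trans (mul_le_mul_of_nonneg_right k1 hab.le), ?_, ?_, ?_, ?_⟩
    · refine g4.trans ?_
      change Cb * pw (1 / 8) l * a ≤ C * pw (1 / 8) l * a
      gcongr
    · change a * ‖ν l - ν 0‖ ≤ C * pw (3 / 4) l * (B + Real.sqrt (a * D)) +
        (C1 + 3 * I * (Cb * Cg * C1)) * D
      rw [← hS]
      refine (hsum l hl).trans ?_
      have e1 : 6 * Cb ^ 2 * Cg * S * (∑ k ∈ Finset.range l, pw (3 / 4) k) ≤
          6 * Cb ^ 2 * Cg * S * (2 * pw (3 / 4) l) :=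
        mul_le_mul_of_nonneg_left (geo_three l) (by positivity)
      have e2 : (l : ℝ) * (3 * (Cb * Cg * C1) * D) ≤ I * (3 * (Cb * Cg * C1) * D) :=
        mul_le_mul_of_nonneg_right (by exact_mod_cast hl) (by positivity)
      have e3 : 12 * Cb ^ 2 * Cg * (pw (3 / 4) l * S) ≤ C * (pw (3 / 4) l * S) :=
        mul_le_mul_of_nonneg_right (by linarith) (by positivity)
      have e4 : 0 ≤ C1 * D := by positivity
      linarith
    · refine g6.trans ?_
      change Cb * pw (3 / 4) l * B + C1 * D ≤ C * pw (3 / 4) l * B +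
        (C1 + 3 * I * (Cb * Cg * C1)) * D
      have e3 : Cb * (pw (3 / 4) l * B) ≤ C * (pw (3 / 4) l * B) :=
        mul_le_mul_of_nonneg_right k1 (by positivity)
      linarith
    · refine Sheet_mono (Sheet_rad g7 (by linarith) (by linarith)) ?_ ?_
      · change Cb * pw (3 / 4) l * (B + Real.sqrt (a * D)) ≤
          C * pw (3 / 4) l * (B + Real.sqrt (a * D))
        gcongr
      · linarith

end TG


end

section

/-!
MODULE B3 (section 12): the pieces see a nonnegative function at most as much as m does.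
helper48.  No double quotes.
-/

open MeasureTheory Metric Set TrI
open scoped InnerProductSpace ContDiff

namespace TG

noncomputable section

namespace B3m

open TC

variable {d : ℕ}

/-- functions of one real variable -/
lemma cb_real {P P1 P2 : ℝ → ℝ} {L : ℝ} (hP : ContDiff ℝ 2 P) (h1 : ∀ c, HasDerivAt P (P1 c) c)
    (h2 : ∀ c, HasDerivAt P1 (P2 c) c) (b0 : ∀ c, |P c| ≤ L) (b1 : ∀ c, |P1 c| ≤ L)
    (b2 : ∀ c, |P2 c| ≤ L) : CB 2 L P := by
  refine ⟨hP, fun j hj x => ?_⟩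
  rw [norm_iteratedFDeriv_eq_norm_iteratedDeriv, Real.norm_eq_abs]
  have e1 : deriv P = P1 := funext fun c => (h1 c).deriv
  have e2 : deriv P1 = P2 := funext fun c => (h2 c).deriv
  interval_cases j
  · simpa using b0 x
  · rw [iteratedDeriv_one, e1]
    exact b1 x
  · rw [iteratedDeriv_succ, iteratedDeriv_one, e1, e2]
    exact b2 x

lemma tang_add {ν : Sp d} (y : Sp d) : y = ⟪ν, y⟫_ℝ • ν + tang ν y := by
  unfold tang
  abel

lemma norm_le_tang' {ν : Sp d} (hν : ‖ν‖ = 1) (y : Sp d) : ‖y‖ ≤ |⟪ν, y⟫_ℝ| + ‖tang ν y‖ := by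
  conv_lhs => rw [tang_add (ν := ν) y]
  refine (norm_add_le _ _).trans ?_
  rw [norm_smul, hν, Real.norm_eq_abs, mul_one]

lemma abs_le_norm {ν : Sp d} (hν : ‖ν‖ = 1) (c : ℝ) (y : PF.Pl ν) :
    |c| ≤ ‖c • ν + (y : Sp d)‖ := by
  have h1 : ⟪ν, c • ν + (y : Sp d)⟫_ℝ = c := by
    rw [inner_add_right, inner_smul_right, real_inner_self_eq_norm_sq, hν, PF.inner_pl]
    simp
  have h2 := abs_real_inner_le_norm ν (c • ν + (y : Sp d))
  rw [h1, hν, one_mul] at h2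
  exact h2

/-- plane integrals of a function with support in a ball vanish for far planes -/
lemma pl_zero {ν : Sp d} (hν : ‖ν‖ = 1) {G : Sp d → ℝ} {ρ : ℝ} (hG : ∀ y, ρ ≤ ‖y‖ → G y = 0)
    {c : ℝ} (hc : ρ ≤ |c|) : plInt ν c G = 0 := by
  unfold plInt
  have : (fun y : (Submodule.span ℝ {ν})ᗮ => G (c • ν + (y : Sp d))) = fun _ => 0 := by
    funext y
    exact hG _ (hc.trans (abs_le_norm hν c y))
  rw [this, integral_zero]

lemma cs_of {G : Sp d → ℝ} {ρ : ℝ} (hG : ∀ y, ρ ≤ ‖y‖ → G y = 0) : HasCompactSupport G := by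
  refine HasCompactSupport.intro (isCompact_closedBall (0 : Sp d) ρ) fun y hy => hG y ?_
  rw [mem_closedBall, dist_zero_right, not_le] at hy
  exact hy.le

/-- the plane integral as a function of the point -/
lemma pl_cb (hd : 1 ≤ d) (ρ : ℝ) : ∃ C : ℝ, 0 < C ∧ ∀ ν : Sp d, ‖ν‖ = 1 → ∀ (G : Sp d → ℝ) (N : ℝ),
    TFn 2 N G → (∀ y, ρ ≤ ‖y‖ → G y = 0) →
    CB 2 (C * N) (fun y : Sp d => plInt ν ⟪ν, y⟫_ℝ G) := by
  obtain ⟨hb, hν⟩ := stmtPF d hd
  obtain ⟨C, hC, hCb⟩ := hb ρ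
  refine ⟨C, hC, fun ν h1 G N hG hs => ?_⟩
  obtain ⟨-, -, hder, hcd, -, -⟩ := hν ν h1
  have hcs := cs_of hs
  have hG1 : CB 1 N (fun y => fderiv ℝ G y ν) := by
    have := hG.cb.fderiv_apply (J := 1) ν
    rwa [h1, one_mul] at this
  have hG2 : CB 0 N (fun y => fderiv ℝ (fun y => fderiv ℝ G y ν) y ν) := by
    have := hG1.fderiv_apply (J := 0) ν
    rwa [h1, one_mul] at this
  have hcs1 : HasCompactSupport (fun y => fderiv ℝ G y ν) := PF.cs_fd hcs ν
  have hcs2 : HasCompactSupport (fun y => fderiv ℝ (fun y => fderiv ℝ G y ν) y ν) :=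
    PF.cs_fd hcs1 ν
  -- supports
  have hz : ∀ (g : Sp d → ℝ), (∀ y, ρ ≤ ‖y‖ → g y = 0) → ∀ y, g y ≠ 0 → ‖tang ν y‖ ≤ ρ := by
    intro g hg y hy
    by_contra hcon
    rw [not_le] at hcon
    exact hy (hg y (hcon.le.trans (PF.norm_tang_le h1 y)))
  have hs' : ∀ (g : Sp d → ℝ), ContDiff ℝ 1 g → (∀ y, ρ ≤ ‖y‖ → g y = 0) →
      ∀ y, ρ ≤ ‖y‖ → fderiv ℝ g y ν = 0 := by
    intro g hg1 hg0 y hy
    have hU : ∀ y, ρ < ‖y‖ → fderiv ℝ g y = 0 := by
      intro y hy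
      have : g =ᶠ[nhds y] fun _ => 0 := by
        filter_upwards [(isOpen_lt continuous_const continuous_norm).mem_nhds hy] with z hz
        exact hg0 z (le_of_lt hz)
      rw [this.fderiv_eq]
      simp
    have hcl : y ∈ closure {z : Sp d | ρ < ‖z‖} := by
      rcases hy.lt_or_eq with h | h
      · exact subset_closure h
      · rw [mem_closure_iff_seq_limit]
        by_cases hy0 : y = 0
        · -- every neighbourhood of the origin contains points with norm > 0 = ρ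
          refine ⟨fun n => ((1 : ℝ) / (n + 1)) • ν, fun n => ?_, ?_⟩
          · show ρ < ‖((1 : ℝ) / (n + 1)) • ν‖
            rw [norm_smul, h1, h, hy0, norm_zero, mul_one, Real.norm_eq_abs]
            positivity
          · rw [hy0]
            have := (tendsto_one_div_add_atTop_nhds_zero_nat (𝕜 := ℝ)).smul_const ν
            simpa using this
        · refine ⟨fun n => ((1 : ℝ) + 1 / (n + 1)) • y, fun n => ?_, ?_⟩
          · show ρ < ‖((1 : ℝ) + 1 / (n + 1)) • y‖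
            have hp : 0 < ‖y‖ := norm_pos_iff.2 hy0
            have h3 : (0 : ℝ) < 1 / ((n : ℝ) + 1) := by positivity
            rw [norm_smul, h, Real.norm_eq_abs, abs_of_pos (by positivity)]
            nlinarith
          · have h4 := (tendsto_one_div_add_atTop_nhds_zero_nat (𝕜 := ℝ)).const_add (1 : ℝ)
            rw [add_zero] at h4
            have := h4.smul_const y
            simpa using this
    have hc : Continuous (fun z => fderiv ℝ g z) := hg1.continuous_fderiv one_ne_zero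
    have hcl2 : fderiv ℝ g y = 0 := by
      have h5 : {z : Sp d | ρ < ‖z‖} ⊆ {z | fderiv ℝ g z = 0} := fun z hz => hU z hz
      have h6 : IsClosed {z : Sp d | fderiv ℝ g z = 0} := isClosed_eq hc continuous_const
      exact closure_minimal h5 h6 hcl
    rw [hcl2]
    rfl
  have hGs1 := hs' G (hG.smooth.of_le (by norm_num)) hs
  have hGs2 := hs' _ hG1.smooth hGs1
  have hP2 : ContDiff ℝ 2 (fun c => plInt ν c G) := by
    have := hcd 2 G hG.smooth hcs
    exact_mod_cast this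
  have key : CB 2 (C * N) (fun c : ℝ => plInt ν c G) := by
    refine cb_real (P1 := fun c => plInt ν c (fun y => fderiv ℝ G y ν))
      (P2 := fun c => plInt ν c (fun y => fderiv ℝ (fun y => fderiv ℝ G y ν) y ν)) hP2
      (fun c => hder G (hG.smooth.of_le (by norm_num)) hcs c)
      (fun c => hder _ hG1.smooth hcs1 c) ?_ ?_ ?_
    · exact hCb ν h1 G N hG.smooth.continuous (fun y => hG.cb.abs_le y) (hz G hs)
    · exact hCb ν h1 _ N hG1.smooth.continuous (fun y => hG1.abs_le y) (hz _ hGs1)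
    · exact hCb ν h1 _ N hG2.smooth.continuous (fun y => hG2.abs_le y) (hz _ hGs2)
  have := key.comp_clm (innerSL ℝ ν) (by rw [innerSL_apply_norm, h1])
  simpa using this

/-- ZP for functions of arbitrary size -/
lemma zp_app {m : Sp d → ℝ} {R1 D L : ℝ} (hZ : ZP R1 D m) {H : Sp d → ℝ} (hH : CB 2 L H)
    (h0 : ∀ y, 0 ≤ H y) (hs : ∀ y, R1 ≤ ‖y‖ → H y = 0) : -(L * D) ≤ ∫ y, m y * H y := by
  rcases hH.nonneg.eq_or_lt with hL | hL
  · have h1 : ∀ y, H y = 0 := fun y => by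
      have := hH.norm_le y
      rw [← hL] at this
      exact norm_le_zero_iff.1 this
    have h2 : (fun y => m y * H y) = fun _ => 0 := by
      funext y
      rw [h1, mul_zero]
    rw [h2, integral_zero, ← hL]
    simp
  · have hc := hH.const_mul (1 / L)
    have e1 : |1 / L| * L = 1 := by
      rw [abs_of_pos (by positivity)]
      field_simp
    rw [e1] at hc
    have h1 := hZ (fun y => 1 / L * H y) (by exact_mod_cast hc.smooth)
      (fun y => mul_nonneg (by positivity) (h0 y)) (fun y => (le_abs_self _).trans (hc.abs_le y))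
      (fun y => hc.bd 2 le_rfl y) (fun y hy => by rw [hs y hy, mul_zero])
    have h2 : ∫ y, m y * (1 / L * H y) = 1 / L * ∫ y, m y * H y := by
      rw [← integral_const_mul]
      congr 1
      funext y
      ring
    rw [h2] at h1
    have h3 : L * (1 / L * ∫ y, m y * H y) = ∫ y, m y * H y := by
      field_simp
    rw [← h3]
    have := mul_le_mul_of_nonneg_left h1 hL.le
    linarith only [this]

end B3m

open _root_.TG.B3m TC in
theorem stmtB3 : StmtB3 := by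
  intro d hd Rs δ B hRs hδ
  obtain ⟨Cp, hCp, hpl⟩ := pl_cb (d := d) (by omega) Rs
  let S : ℕ → ℝ := fun J => 1 + ∑ j ∈ Finset.range (J + 1), |B j|
  have hS : ∀ J, 1 ≤ S J := fun J => by
    have : 0 ≤ ∑ j ∈ Finset.range (J + 1), |B j| := Finset.sum_nonneg fun j _ => abs_nonneg _
    show 1 ≤ 1 + ∑ j ∈ Finset.range (J + 1), |B j|
    linarith
  have hSB : ∀ J j, j ≤ J → B j ≤ S J := fun J j hj => by
    have h1 : |B j| ≤ ∑ j ∈ Finset.range (J + 1), |B j| :=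
      Finset.single_le_sum (f := fun j => |B j|) (fun i _ => abs_nonneg _)
        (Finset.mem_range.2 (by omega))
    have h2 := le_abs_self (B j)
    show B j ≤ 1 + ∑ j ∈ Finset.range (J + 1), |B j|
    linarith
  refine ⟨fun J => δ / S J, fun J => div_pos hδ (by linarith [hS J]), fun R1 rm => ?_⟩
  refine ⟨rm * (4 * Cp * (S 2 + 1)) + 1, by have := hS 2; positivity, ?_⟩
  intro m a D J r ν κ hm ha hD hZ hStr χ F N hχ hχ0 hχs hχB hF hF0 hFχ
  have hN : 0 ≤ N := (hF 0).cb.nonneg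
  have hFs : ∀ n y, Rs ≤ ‖y‖ → F n y = 0 := fun n y hy => by
    have h1 := hFχ n y
    rw [hχs y hy, mul_zero] at h1
    exact le_antisymm h1 (hF0 n y)
  have hχT : ∀ J, TFn J (S J) χ := fun J =>
    ⟨hχ.of_le (by exact_mod_cast le_top), fun j hj x => (hχB j x).trans (hSB J j hj)⟩
  -- a piece with a nonnegative function
  have piece : ∀ (i : Fin r) (G : Sp d → ℝ) (L : ℝ), TFn 2 L G → (∀ y, 0 ≤ G y) →
      (∀ y, Rs ≤ ‖y‖ → G y = 0) →
      -(4 * (Cp * L) * D) ≤ ∫ y, m y * (κ i y * plInt (ν i) ⟪ν i, y⟫_ℝ G) := by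
    intro i G L hG hG0 hGs
    have h1 := (hStr.kb i).cb.mul (hpl (ν i) (hStr.n1 i) G L hG hGs)
    have h2 : (2 : ℝ) ^ 2 * 1 * (Cp * L) = 4 * (Cp * L) := by norm_num
    rw [h2] at h1
    refine zp_app hZ h1 (fun y => mul_nonneg (hStr.k0 i y) ?_) fun y hy => ?_
    · exact integral_nonneg fun z => hG0 _
    · by_contra hcon
      have hk : κ i y ≠ 0 := fun h => hcon (by rw [h, zero_mul])
      have hp : plInt (ν i) ⟪ν i, y⟫_ℝ G ≠ 0 := fun h => hcon (by rw [h, mul_zero])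
      have h3 := hStr.ks i y hk
      have h4 : |⟪ν i, y⟫_ℝ| < Rs := by
        by_contra h5
        exact hp (pl_zero (hStr.n1 i) hGs (not_lt.1 h5))
      have h5 := norm_le_tang' (hStr.n1 i) y
      linarith
  have hr : (r : ℝ) ≤ rm := by exact_mod_cast hStr.rle
  have hND : 0 ≤ N * D := mul_nonneg hN hD
  -- integrability
  have hint : ∀ (i : Fin r) (G : Sp d → ℝ) (L : ℝ), TFn 2 L G → (∀ y, Rs ≤ ‖y‖ → G y = 0) →
      Integrable (fun y => m y * (κ i y * plInt (ν i) ⟪ν i, y⟫_ℝ G)) := by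
    intro i G L hG hGs
    have h1 := (hStr.kb i).cb.mul (hpl (ν i) (hStr.n1 i) G L hG hGs)
    refine (hm.mul h1.smooth.continuous).integrable_of_hasCompactSupport ?_
    refine HasCompactSupport.mul_left ?_
    refine HasCompactSupport.intro (isCompact_closedBall (0 : Sp d) R1) fun y hy => ?_
    rw [mem_closedBall, dist_zero_right, not_le] at hy
    by_contra hcon
    have hk : κ i y ≠ 0 := fun h => hcon (by rw [h, zero_mul])
    have hp : plInt (ν i) ⟪ν i, y⟫_ℝ G ≠ 0 := fun h => hcon (by rw [h, mul_zero])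
    have h3 := hStr.ks i y hk
    have h4 : |⟪ν i, y⟫_ℝ| < Rs := by
      by_contra h5
      exact hp (pl_zero (hStr.n1 i) hGs (not_lt.1 h5))
    have h5 := norm_le_tang' (hStr.n1 i) y
    linarith
  constructor
  · -- the lower bound
    have h1 : ∑ _i : Fin r, -(4 * (Cp * N) * D) ≤ pieces m ν κ F :=
      Finset.sum_le_sum fun i _ => piece i (F (ν i)) N (hF _) (hF0 _) (hFs _)
    rw [Finset.sum_const, Finset.card_univ, Fintype.card_fin, nsmul_eq_mul] at h1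
    refine le_trans ?_ h1
    have h2 : (r : ℝ) * (4 * Cp * (N * D)) ≤ rm * (4 * Cp * (S 2 + 1)) * (N * D) := by
      have h3 : 4 * Cp * (N * D) ≤ 4 * Cp * (S 2 + 1) * (N * D) := by
        have h4 := hS 2
        have h5 : 0 ≤ 4 * Cp * (N * D) * S 2 := by positivity
        linarith only [h5]
      calc (r : ℝ) * (4 * Cp * (N * D)) ≤ rm * (4 * Cp * (N * D)) := by
            exact mul_le_mul_of_nonneg_right hr (by positivity)
        _ ≤ rm * (4 * Cp * (S 2 + 1) * (N * D)) :=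
            mul_le_mul_of_nonneg_left h3 (by positivity)
        _ = _ := by ring
    linarith only [hND, h2]
  · -- the upper bound
    have hest := hStr.est χ (S J) (hχT J) hχs
    have hSJ : 0 < S J := by linarith [hS J]
    have e1 : δ / S J * a * S J = δ * a := by field_simp
    rw [e1] at hest
    have hG : ∀ i : Fin r, TFn 2 (N * S 2 + N) (fun y => N * χ y - F (ν i) y) := by
      intro i
      have h1 := ((hχT 2).cb.const_mul N).sub (hF (ν i)).cb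
      rw [abs_of_nonneg hN] at h1
      exact h1.tfn
    have hlow : ∀ i : Fin r, ∫ y, m y * (κ i y * plInt (ν i) ⟪ν i, y⟫_ℝ (F (ν i))) ≤
        N * (∫ y, m y * (κ i y * plInt (ν i) ⟪ν i, y⟫_ℝ χ)) + 4 * (Cp * (N * S 2 + N)) * D := by
      intro i
      have h1 := piece i _ _ (hG i) (fun y => sub_nonneg.2 (hFχ _ y)) (fun y hy => by
        rw [hχs y hy, hFs _ y hy, mul_zero, sub_zero])
      have hlin : ∀ y : Sp d, plInt (ν i) ⟪ν i, y⟫_ℝ (fun y => N * χ y - F (ν i) y) =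
          N * plInt (ν i) ⟪ν i, y⟫_ℝ χ - plInt (ν i) ⟪ν i, y⟫_ℝ (F (ν i)) := by
        intro y
        unfold plInt
        have hz : ∀ (g : Sp d → ℝ), (∀ y, Rs ≤ ‖y‖ → g y = 0) → ∀ y, g y ≠ 0 →
            ‖tang (ν i) y‖ ≤ Rs := by
          intro g hg y hy
          by_contra hcon
          rw [not_le] at hcon
          exact hy (hg y (hcon.le.trans (PF.norm_tang_le (hStr.n1 i) y)))
        rw [← integral_const_mul, ← integral_sub]
        · exact (PF.integrable_pl (hStr.n1 i) hχ.continuous (hz χ hχs) _).const_mul N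
        · exact PF.integrable_pl (hStr.n1 i) (hF (ν i)).smooth.continuous (hz _ (hFs _)) _
      have h2 : ∫ y, m y * (κ i y * plInt (ν i) ⟪ν i, y⟫_ℝ (fun y => N * χ y - F (ν i) y)) =
          N * (∫ y, m y * (κ i y * plInt (ν i) ⟪ν i, y⟫_ℝ χ)) -
            ∫ y, m y * (κ i y * plInt (ν i) ⟪ν i, y⟫_ℝ (F (ν i))) := by
        rw [← integral_const_mul, ← integral_sub]
        · congr 1
          funext y
          rw [hlin]
          ring
        · exact (hint i χ _ (hχT 2) hχs).const_mul N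
        · exact hint i _ _ (hF _) (hFs _)
      rw [h2] at h1
      linarith
    have h1 : pieces m ν κ F ≤ ∑ i : Fin r, (N * (∫ y, m y * (κ i y *
        plInt (ν i) ⟪ν i, y⟫_ℝ χ)) + 4 * (Cp * (N * S 2 + N)) * D) :=
      Finset.sum_le_sum fun i _ => hlow i
    rw [Finset.sum_add_distrib, ← Finset.mul_sum, Finset.sum_const, Finset.card_univ,
      Fintype.card_fin, nsmul_eq_mul] at h1
    have h2 : ∑ i, ∫ y, m y * (κ i y * plInt (ν i) ⟪ν i, y⟫_ℝ χ) ≤ (∫ y, m y * χ y) + δ * a := by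
      have := (abs_le.1 hest).1
      linarith
    have h3 := mul_le_mul_of_nonneg_left h2 hN
    have h4 : (r : ℝ) * (4 * (Cp * (N * S 2 + N)) * D) ≤
        rm * (4 * Cp * (S 2 + 1)) * (N * D) := by
      have h5 : 4 * (Cp * (N * S 2 + N)) * D = 4 * Cp * (S 2 + 1) * (N * D) := by ring
      rw [h5]
      have h6 : 0 ≤ 4 * Cp * (S 2 + 1) * (N * D) := by
        have := hS 2
        positivity
      calc (r : ℝ) * (4 * Cp * (S 2 + 1) * (N * D)) ≤ rm * (4 * Cp * (S 2 + 1) * (N * D)) :=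
            mul_le_mul_of_nonneg_right hr h6
        _ = _ := by ring
    linarith only [hND, h1, h3, h4]

end

end TG


end

section

/-!
# Trace inequality, general operators: auxiliary lemmas for module T1   (helper51)

No double quotes.
-/

open MeasureTheory Metric Set TrI
open scoped InnerProductSpace ContDiff

namespace TG

namespace T1m

noncomputable section

variable {d : ℕ} {E : Type} [NormedAddCommGroup E] [InnerProductSpace ℝ E]

/-- the defect of a smaller cell, two radii -/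
lemma DD_mono2 {b : Sp d → ℝ} {J : ℕ} {M c0 : ℝ} (hb : BaseKer J M c0 b) (ε : ℝ) {f : Sp d → E}
    (hf : Continuous f) (hfc : HasCompactSupport f) {s0 : ℝ} (hs : 0 < s0) (i m : ℕ) {R R' : ℝ}
    {x x' : Sp d} (hB : ball x (R * lev s0 i) ⊆ ball x' (R' * lev s0 (i + m)))
    {e : E} (he : ‖e‖ = 1) :
    DD b ε R s0 f i x e ≤ (2 ^ m) ^ d / 2 ^ m * 4 ^ m * DD b ε R' s0 f (i + m) x' e := by
  have hfl := TW.fl_ok hb ε s0 hf hfc
  have hI : ∀ l, ∫ y in ball x (R * lev s0 i), (‖fl b ε s0 f l y‖ - ⟪fl b ε s0 f l y, e⟫_ℝ) ≤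
      ∫ y in ball x' (R' * lev s0 (i + m)), (‖fl b ε s0 f l y‖ - ⟪fl b ε s0 f l y, e⟫_ℝ) := by
    intro l
    exact setIntegral_mono_set (CT5.dfn_int (hfl l).1 (hfl l).2 e).integrableOn
      (Filter.Eventually.of_forall fun y => CT5.dfn_nn he _ y)
      (Filter.Eventually.of_forall hB)
  have hJ : ∫ y in ball x (R * lev s0 i), ‖f y‖ ≤ ∫ y in ball x' (R' * lev s0 (i + m)), ‖f y‖ :=
    setIntegral_mono_set (hf.norm.integrable_of_hasCompactSupport hfc.norm).integrableOn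
      (Filter.Eventually.of_forall fun y => norm_nonneg _) (Filter.Eventually.of_forall hB)
  have hp := FR.lev_pos hs (i + m)
  have hnn : 0 ≤ (2 ^ m) ^ d / 2 ^ m * (lev s0 (i + m) / lev s0 (i + m) ^ d) := by positivity
  unfold DD
  rw [CT5.nw_ratio hs i m, mul_assoc ((2 ^ m) ^ d / 2 ^ m : ℝ) (4 ^ m) _, mul_assoc _ _
    (∑ l ∈ Finset.range (i + 1), _ + _)]
  have key : (∑ l ∈ Finset.range (i + 1), (1 / 4 : ℝ) ^ (i - l) *
      (∫ y in ball x (R * lev s0 i), (‖fl b ε s0 f l y‖ - ⟪fl b ε s0 f l y, e⟫_ℝ))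
      + (1 / 4 : ℝ) ^ i * ∫ y in ball x (R * lev s0 i), ‖f y‖) ≤
      4 ^ m * (∑ l ∈ Finset.range (i + m + 1), (1 / 4 : ℝ) ^ (i + m - l) *
      (∫ y in ball x' (R' * lev s0 (i + m)), (‖fl b ε s0 f l y‖ - ⟪fl b ε s0 f l y, e⟫_ℝ))
      + (1 / 4 : ℝ) ^ (i + m) * ∫ y in ball x' (R' * lev s0 (i + m)), ‖f y‖) := by
    rw [mul_add, Finset.mul_sum]
    refine add_le_add ?_ ?_
    · refine (Finset.sum_le_sum (fun l hl => ?_)).trans
        (Finset.sum_le_sum_of_subset_of_nonneg (Finset.range_mono (by omega : i + 1 ≤ i + m + 1))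
          fun l _ _ => ?_)
      · have hl' := Finset.mem_range.1 hl
        have e2 : (1 / 4 : ℝ) ^ (i + m - l) = (1 / 4) ^ m * (1 / 4) ^ (i - l) := by
          rw [← pow_add]
          congr 1
          omega
        have e3 : (4 : ℝ) ^ m * (1 / 4) ^ m = 1 := by
          rw [← mul_pow]
          norm_num
        rw [e2, ← mul_assoc, ← mul_assoc, e3, one_mul]
        exact mul_le_mul_of_nonneg_left (hI l) (by positivity)
      · exact mul_nonneg (by positivity) (mul_nonneg (by positivity)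
          (integral_nonneg fun y => CT5.dfn_nn he _ y))
    · have e3 : (4 : ℝ) ^ m * (1 / 4) ^ m = 1 := by
        rw [← mul_pow]
        norm_num
      calc (1 / 4 : ℝ) ^ i * ∫ y in ball x (R * lev s0 i), ‖f y‖
          ≤ (1 / 4 : ℝ) ^ i * ∫ y in ball x' (R' * lev s0 (i + m)), ‖f y‖ :=
            mul_le_mul_of_nonneg_left hJ (by positivity)
        _ = (4 ^ m * (1 / 4) ^ m) * ((1 / 4 : ℝ) ^ i *
            ∫ y in ball x' (R' * lev s0 (i + m)), ‖f y‖) := by rw [e3, one_mul]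
        _ = _ := by rw [pow_add]; ring
  calc (2 ^ m) ^ d / 2 ^ m * ((lev s0 (i + m) / lev s0 (i + m) ^ d) * _) ≤
      (2 ^ m) ^ d / 2 ^ m * ((lev s0 (i + m) / lev s0 (i + m) ^ d) * _) := by
        refine mul_le_mul_of_nonneg_left (mul_le_mul_of_nonneg_left key ?_) ?_ <;> positivity
    _ = _ := by ring

/-- a function with nonnegative plane integrals has almost nonnegative integral against m -/
lemma pos_of_planes (hd : 1 ≤ d) (Rs : ℝ) : ∃ C : ℝ, 0 < C ∧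
    ∀ (J rm r : ℕ) (R1 e' a D R2 : ℝ) (m : Sp d → ℝ) (ν : Fin r → Sp d) (κ : Fin r → Sp d → ℝ),
      Str J rm R1 Rs e' a m r ν κ → 0 ≤ D → ZP R2 D m → R1 - 3 ≤ R2 →
      ∀ (ζ : Sp d → ℝ) (N2 NJ : ℝ), TFn 2 N2 ζ → TFn J NJ ζ → (∀ y, Rs ≤ ‖y‖ → ζ y = 0) →
        (∀ (n : Sp d) (s : ℝ), ‖n‖ = 1 → 0 ≤ plInt n s ζ) →
        -(rm * (4 * (C * N2) * D)) - e' * a * NJ ≤ ∫ y, m y * ζ y := by
  obtain ⟨Cp, hCp, hpl⟩ := B3m.pl_cb (d := d) hd Rs
  refine ⟨Cp, hCp, ?_⟩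
  intro J rm r R1 e' a D R2 m ν κ hStr hD hZ hR2 ζ N2 NJ hζ2 hζJ hζs hpos
  have hN2 : 0 ≤ N2 := hζ2.cb.nonneg
  have piece : ∀ i : Fin r,
      -(4 * (Cp * N2) * D) ≤ ∫ y, m y * (κ i y * plInt (ν i) ⟪ν i, y⟫_ℝ ζ) := by
    intro i
    have h1 := (hStr.kb i).cb.mul (hpl (ν i) (hStr.n1 i) ζ N2 hζ2 hζs)
    have h2 : (2 : ℝ) ^ 2 * 1 * (Cp * N2) = 4 * (Cp * N2) := by norm_num
    rw [h2] at h1
    refine B3m.zp_app hZ h1 (fun y => mul_nonneg (hStr.k0 i y) (hpos _ _ (hStr.n1 i)))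
      fun y hy => ?_
    by_contra hcon
    have hk : κ i y ≠ 0 := fun h => hcon (by rw [h, zero_mul])
    have hp : plInt (ν i) ⟪ν i, y⟫_ℝ ζ ≠ 0 := fun h => hcon (by rw [h, mul_zero])
    have h3 := hStr.ks i y hk
    have h4 : |⟪ν i, y⟫_ℝ| < Rs := by
      by_contra h5
      exact hp (B3m.pl_zero (hStr.n1 i) hζs (not_lt.1 h5))
    have h5 := B3m.norm_le_tang' (hStr.n1 i) y
    linarith
  have h1 : ∑ _i : Fin r, -(4 * (Cp * N2) * D) ≤
      ∑ i, ∫ y, m y * (κ i y * plInt (ν i) ⟪ν i, y⟫_ℝ ζ) :=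
    Finset.sum_le_sum fun i _ => piece i
  rw [Finset.sum_const, Finset.card_univ, Fintype.card_fin, nsmul_eq_mul] at h1
  have h2 := (abs_le.1 (hStr.est ζ NJ hζJ hζs)).1
  have hr : (r : ℝ) ≤ rm := by exact_mod_cast hStr.rle
  have h3 : (r : ℝ) * (4 * (Cp * N2) * D) ≤ rm * (4 * (Cp * N2) * D) :=
    mul_le_mul_of_nonneg_right hr (by positivity)
  linarith

/-- lower bound for the mass -/
lemma low (hMA : StmtMA) (hd : 1 ≤ d) {M c0 ε : ℝ} (hε : 0 < ε) (hε1 : ε ≤ 1) {b : Sp d → ℝ}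
    (hb : BaseKer 2 M c0 b) : ∃ C : ℝ, 0 < C ∧
    ∀ (E : Type) [NormedAddCommGroup E] [InnerProductSpace ℝ E] [FiniteDimensional ℝ E],
    ∀ f : Sp d → E, Continuous f → HasCompactSupport f → ∀ (R Rt : ℝ), 1 ≤ Rt → Rt + 5 ≤ R →
    ∀ s0 : ℝ, 0 < s0 → ∀ (Q : Cell d) (e : E), ‖e‖ = 1 →
      mC b ε Rt s0 f Q ≤ (∫ y, mQ s0 f e Q y * zR (Rt + 2) y) +
        C * DD b ε R s0 f Q.1 (xC s0 Q) e := by
  obtain ⟨C, hC, mm⟩ := TU.MA' hMA hd hε hε1 hb
  obtain ⟨N, hN, hT⟩ := exists_TFn_zR d 2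
  refine ⟨C * N, by positivity, ?_⟩
  intro E _ _ _ f hf hfc R Rt hRt hR s0 hs Q e he
  have ht0 := FR.lev_pos hs Q.1
  have h1 := (mm E (rs (xC s0 Q) (lev s0 Q.1) f) (CT5.rs_cont hf _ _) (CT5.rs_cs hfc _ ht0) R
      (by linarith) Q.1 e he 0 (ball (0 : Sp d) Rt) measurableSet_ball).2
      (zR (Rt + 2)) N 1 one_pos (hT (Rt + 2) (by linarith)) (fun y => zR_nonneg _ y)
      (fun y hy => zR_eq_zero (by rw [sub_zero] at hy; linarith))
      (fun y z hy hz => by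
        have h2 : ‖y‖ < Rt := mem_ball_zero_iff.1 hy
        have h3 := norm_add_le (z - y) y
        rw [sub_add_cancel] at h3
        rw [zR_eq_one (by linarith)])
  rw [CT5.DD_fr b ε R hs f Q.1 (xC s0 Q) e, ← CT5.ma_u, CT5.ma_fr b ε Rt hs f, one_mul] at h1
  exact h1

/-- upper bound for the integral of a cut-off -/
lemma upp (hMA : StmtMA) (hd : 1 ≤ d) {M c0 ε : ℝ} (hε : 0 < ε) (hε1 : ε ≤ 1) {b : Sp d → ℝ}
    (hb : BaseKer 2 M c0 b) : ∃ C : ℝ, 0 < C ∧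
    ∀ (E : Type) [NormedAddCommGroup E] [InnerProductSpace ℝ E] [FiniteDimensional ℝ E],
    ∀ f : Sp d → E, Continuous f → HasCompactSupport f → ∀ (ρ : ℝ), 5 ≤ ρ →
    ∀ s0 : ℝ, 0 < s0 → ∀ (n : ℕ) (y : Sp d) (e : E), ‖e‖ = 1 →
      ∫ w, ⟪rs y (lev s0 n) f w, e⟫_ℝ * zR 2 w ≤
        C * (ma b ε ρ s0 f n y + DD b ε ρ s0 f n y e) := by
  obtain ⟨C, hC, mm⟩ := TU.MA' hMA hd hε hε1 hb
  obtain ⟨N, hN, hT⟩ := exists_TFn_zR d 2
  refine ⟨C * N, by positivity, ?_⟩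
  intro E _ _ _ f hf hfc ρ hρ s0 hs n y e he
  have ht0 := FR.lev_pos hs n
  have h1 := (mm E (rs y (lev s0 n) f) (CT5.rs_cont hf _ _) (CT5.rs_cs hfc _ ht0) ρ
      hρ n e he 0 (ball (0 : Sp d) ρ) measurableSet_ball).1
      (zR 2) N (hT 2 (by norm_num))
      (fun y hy => zR_eq_zero (by rw [sub_zero] at hy; linarith))
      (fun y z hy hz => by
        have h2 : ‖y‖ < 2 + 1 := by
          by_contra h3
          exact hy (zR_eq_zero (not_lt.1 h3))
        have h3 := norm_add_le (z - y) y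
        rw [sub_add_cancel] at h3
        exact mem_ball_zero_iff.2 (by linarith))
  rw [CT5.DD_fr b ε ρ hs f n y e, ← CT5.ma_u, CT5.ma_fr b ε ρ hs f] at h1
  exact (le_abs_self _).trans h1

/-- the change of variables for the small cut-off -/
lemma small_int (hd : 1 ≤ d) (f : Sp d → E) (e : E) (x y : Sp d) {s0 : ℝ} (hs : 0 < s0) (n i : ℕ) :
    ((2 : ℝ) ^ i) ^ (d - 1) * ∫ z, ⟪rs x (lev s0 (n + i)) f z, e⟫_ℝ *
        zR 2 ((2 : ℝ) ^ i • (z - (1 / lev s0 (n + i)) • (y - x))) =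
      ∫ w, ⟪rs y (lev s0 n) f w, e⟫_ℝ * zR 2 w := by
  have h0 := FR.lev_pos hs n
  have h1 := FR.lev_pos hs (n + i)
  have hl : lev s0 (n + i) = 2 ^ i * lev s0 n := FR.lev_add s0 n i
  have e1 := TU.frame_int f e y h0 (fun z => zR 2 ((1 / lev s0 n) • (z - y)))
  have e2 := TU.frame_int f e x h1 (fun z => zR 2 ((1 / lev s0 n) • (z - y)))
  have h2 : ∀ w : Sp d, (1 / lev s0 n) • (y + lev s0 n • w - y) = w := by
    intro w
    rw [add_sub_cancel_left, smul_smul, one_div, inv_mul_cancel₀ h0.ne', one_smul]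
  have h3 : ∀ w : Sp d, (1 / lev s0 n) • (x + lev s0 (n + i) • w - y) =
      (2 : ℝ) ^ i • (w - (1 / lev s0 (n + i)) • (y - x)) := by
    intro w
    have h4 : x + lev s0 (n + i) • w - y =
        lev s0 (n + i) • (w - (1 / lev s0 (n + i)) • (y - x)) := by
      rw [smul_sub, smul_smul, mul_one_div_cancel h1.ne', one_smul]
      abel
    rw [h4, smul_smul, hl]
    congr 1
    field_simp
  simp only [h2] at e1
  simp only [h3] at e2
  rw [e1, e2, CT5.nw_ratio hs n i]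
  have h5 : ((2 : ℝ) ^ i) ^ (d - 1) = (2 ^ i) ^ d / 2 ^ i := by
    rw [eq_div_iff (by positivity), ← pow_succ, Nat.sub_add_cancel hd]
  rw [h5]
  ring

end

end T1m

end TG


end

section

/-!
# Trace inequality, general operators: the flat part of module T1   (helper51)

No double quotes.
-/

open MeasureTheory Metric Set TrI
open scoped InnerProductSpace ContDiff

namespace TG

namespace T1m

noncomputable section

variable {d : ℕ}

lemma mQ_int {E : Type} [NormedAddCommGroup E] [InnerProductSpace ℝ E] {f : Sp d → E}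
    (hf : Continuous f) (hfc : HasCompactSupport f) {s0 : ℝ} (hs : 0 < s0) (Q : Cell d) (e : E)
    {g : Sp d → ℝ} (hg : Continuous g) :
    Integrable fun y => ⟪rs (xC s0 Q) (lev s0 Q.1) f y, e⟫_ℝ * g y := by
  have h1 := CT5.rs_cont hf (xC s0 Q) (lev s0 Q.1)
  have h2 := CT5.rs_cs hfc (xC s0 Q) (FR.lev_pos hs Q.1)
  exact ((h1.inner continuous_const).mul hg).integrable_of_hasCompactSupport
    (h2.comp_left (g := fun v : E => ⟪v, e⟫_ℝ) (inner_zero_left _)).mul_right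

lemma sqrt_le_self (hd : 1 ≤ d) : Real.sqrt d ≤ d := by
  have h1 : (1 : ℝ) ≤ d := by exact_mod_cast hd
  rw [Real.sqrt_le_left (by linarith)]
  nlinarith

/-- the second moment over the plane of up 9 P in the frame of P -/
lemma flat (hSD : StmtSD) (hCT5 : StmtCT5) (hCT8 : StmtCT8) (hd : 1 ≤ d) {M c0 ε : ℝ}
    (hε : 0 < ε) (hε1 : ε ≤ 1) {b : Sp d → ℝ} (hb : BaseKer 2 M c0 b) {R0 : ℝ}
    (hR0 : 400 + 8 * d ≤ R0) : ∃ C : ℝ, 0 < C ∧
    ∀ (E : Type) [NormedAddCommGroup E] [InnerProductSpace ℝ E] [FiniteDimensional ℝ E],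
    ∀ f : Sp d → E, Continuous f → HasCompactSupport f → ∀ (R : ℝ), 700 * R0 ≤ R →
    ∀ s0 : ℝ, 0 < s0 → ∀ e : Cell d → E, Dirs b ε R s0 f e →
    ∀ (ν : Cell d → Sp d) (c : Cell d → ℝ), Plns R0 s0 f e ν c → ∀ P : Cell d,
      |FR.cfr s0 P (ν (up 9 P)) (c (up 9 P))| ≤ 64 * R0 →
      ∫ y, mQ s0 f (e P) P y * (zR (256 * R0) y *
        ht (ν (up 9 P)) (FR.cfr s0 P (ν (up 9 P)) (c (up 9 P))) y ^ 2) ≤
        C * (bC R0 s0 f e ν c (up 9 P) + dC b ε R s0 f e P + dC b ε R s0 f e (up 9 P)) := by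
  have hd1 : (1 : ℝ) ≤ d := by exact_mod_cast hd
  obtain ⟨C5, hC5, h5⟩ := hCT5 d hd M c0 ε hε hε1 b hb R0 9 (by linarith)
  obtain ⟨C8, hC8, h8⟩ := hCT8 d hd M c0 ε hε hε1 b hb
  obtain ⟨C9, hC9, h8⟩ := h8 0
  obtain ⟨Na, hNa, Ta⟩ := exists_TFn_ht2 d 2 (256 * R0) (64 * R0) (by linarith)
  obtain ⟨Nb, hNb, Tb⟩ := exists_TFn_ht2 d 2 R0 (R0 + 1) (by linarith)
  refine ⟨512 ^ d * 512 + C5 * (|(512 : ℝ) ^ 2| * (1 ^ 2 * Nb)) +
    (|(512 : ℝ) ^ 2| * (1 ^ 2 * Nb) + Na) * C8, by positivity, ?_⟩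
  intro E _ _ _ f hf hfc R hR s0 hs e hDirs ν c hPl P hcP
  obtain ⟨p1, p2, p3, p4, p5⟩ := h5 E R (by linarith) f hf hfc s0 hs e hDirs ν c hPl
  obtain ⟨q1, -⟩ := h8 E R (by linarith) (by norm_num; linarith) f hf hfc s0 hs e hDirs
  obtain ⟨-, hZ⟩ := q1 P
  set n := ν (up 9 P) with hn
  set cs := FR.cfr s0 P n (c (up 9 P)) with hcs
  set x9 := tw s0 P (up 9 P) with hx9
  have hn1 : ‖n‖ = 1 := hPl.unit _
  have hsq := sqrt_le_self hd
  have hx9n : ‖x9‖ ≤ 64 * R0 := by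
    have h1 := FR.norm_tw_up hs 9 P
    rw [← hx9] at h1
    norm_num at h1
    linarith
  have hnx : |⟪n, x9⟫_ℝ| ≤ 64 * R0 := by
    have := abs_real_inner_le_norm n x9
    rw [hn1, one_mul] at this
    linarith
  set c'' := (cs - ⟪n, x9⟫_ℝ) / 512 with hc''
  have hc''1 : |c''| ≤ R0 + 1 := by
    rw [hc'', abs_div, div_le_iff₀ (by norm_num)]
    have h1 := abs_sub cs ⟪n, x9⟫_ℝ
    norm_num
    linarith
  set g1 : Sp d → ℝ := fun y => zR (256 * R0) y * ht n cs y ^ 2 with hg1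
  set g2 : Sp d → ℝ := fun y => zR R0 ((1 / 512 : ℝ) • (y - x9)) * ht n cs y ^ 2 with hg2
  have T1 : TFn 2 Na g1 := Ta n cs hn1 hcP
  have T2 : TFn 2 (|(512 : ℝ) ^ 2| * (1 ^ 2 * Nb)) g2 := by
    have h1 := ((Tb n c'' hn1 hc''1).comp_aff (-((1 / 512 : ℝ) • x9)) (1 / 512) (T := 1) le_rfl
      (by norm_num [abs_of_pos])).const_mul (512 ^ 2)
    refine (congrArg (TFn 2 _) ?_).mp h1
    funext y
    have h2 : -((1 / 512 : ℝ) • x9) + (1 / 512 : ℝ) • y = (1 / 512 : ℝ) • (y - x9) := by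
      rw [smul_sub]
      abel
    have h3 : ht n cs y = 512 * ht n c'' ((1 / 512 : ℝ) • (y - x9)) := by
      unfold ht
      rw [inner_smul_right, inner_sub_right, hc'']
      ring
    rw [h2, hg2]
    simp only
    rw [h3]
    ring
  have hz2 : ∀ y, R - 3 ≤ ‖y‖ → g2 y = 0 := by
    intro y hy
    rw [hg2]
    simp only
    rw [zR_eq_zero, zero_mul]
    rw [norm_smul, Real.norm_of_nonneg (by norm_num)]
    have h1 := norm_sub_norm_le y x9
    linarith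
  have hz1 : ∀ y, R - 3 ≤ ‖y‖ → g1 y = 0 := by
    intro y hy
    rw [hg1]
    simp only
    rw [zR_eq_zero (by linarith), zero_mul]
  have h12 : ∀ y, 0 ≤ g2 y - g1 y := by
    intro y
    rw [hg1, hg2]
    simp only
    rw [← sub_mul]
    refine mul_nonneg (sub_nonneg.2 ?_) (sq_nonneg _)
    rcases le_or_gt (256 * R0 + 1) ‖y‖ with h | h
    · rw [zR_eq_zero h]
      exact zR_nonneg _ _
    · rw [zR_eq_one (ρ := R0) (y := (1 / 512 : ℝ) • (y - x9))]
      · exact zR_le_one _ _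
      · rw [norm_smul, Real.norm_of_nonneg (by norm_num)]
        have h1 := norm_sub_le y x9
        linarith
  -- the defect of P
  have k1 := B3m.zp_app hZ (T2.cb.sub T1.cb) h12 (fun y hy => by
    rw [hz1 y (by linarith), hz2 y (by linarith), sub_zero])
  have i1 : Integrable fun y => mQ s0 f (e P) P y * g1 y :=
    mQ_int hf hfc hs P (e P) T1.smooth.continuous
  have i2 : Integrable fun y => mQ s0 f (e P) P y * g2 y :=
    mQ_int hf hfc hs P (e P) T2.smooth.continuous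
  have k2 : ∫ y, mQ s0 f (e P) P y * (g2 y - g1 y) =
      (∫ y, mQ s0 f (e P) P y * g2 y) - ∫ y, mQ s0 f (e P) P y * g1 y := by
    rw [← integral_sub i2 i1]
    congr 1
    funext y
    ring
  rw [k2] at k1
  -- the change of direction
  have hlev : lev s0 (up 9 P).1 = 2 ^ 9 * lev s0 P.1 := by
    rw [FR.up_fst, FR.lev_add]
  have ht0 := FR.lev_pos hs P.1
  have k3 := p5 P (up 9 P) (FR.up_fst 9 P) g2 _ T2 hz2 (by
    have h1 := FR.xC_up' hs 9 P
    refine h1.trans ?_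
    rw [hlev]
    have h2 : (2 : ℝ) ^ 9 * lev s0 P.1 - lev s0 P.1 = (2 ^ 9 - 1) * lev s0 P.1 := by ring
    rw [h2]
    exact mul_le_mul_of_nonneg_right (by linarith) (mul_nonneg (by norm_num) ht0.le))
  have i3 : Integrable fun y => ⟪rs (xC s0 P) (lev s0 P.1) f y, e (up 9 P)⟫_ℝ * g2 y :=
    mQ_int hf hfc hs P (e (up 9 P)) T2.smooth.continuous
  have k4 : ∫ y, ⟪rs (xC s0 P) (lev s0 P.1) f y, e P - e (up 9 P)⟫_ℝ * g2 y =
      (∫ y, mQ s0 f (e P) P y * g2 y) -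
        ∫ y, ⟪rs (xC s0 P) (lev s0 P.1) f y, e (up 9 P)⟫_ℝ * g2 y := by
    rw [← integral_sub i2 i3]
    congr 1
    funext y
    unfold mQ
    rw [inner_sub_right]
    ring
  rw [k4] at k3
  -- the plane functional of up 9 P
  have k5 := FR.bb_frame hSD hd hf hfc hs R0 9 P (e (up 9 P)) n (c (up 9 P))
  have k6 : bb R0 ((1 / 2) ^ P.1) (rs (xC s0 P) (lev s0 P.1) f) (P.1 + 9) x9 (e (up 9 P)) n cs =
      512 / 512 ^ d / 512 ^ 2 *
        ∫ y, ⟪rs (xC s0 P) (lev s0 P.1) f y, e (up 9 P)⟫_ℝ * g2 y := by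
    have e3 : (2 : ℝ) ^ 9 = 512 := by norm_num
    unfold bb
    rw [FR.lev_half, e3, ← integral_const_mul, ← integral_const_mul]
    congr 1
    funext y
    rw [hg2]
    simp only
    ring
  rw [← hx9, ← hcs, k6] at k5
  have k7 : ∫ y, ⟪rs (xC s0 P) (lev s0 P.1) f y, e (up 9 P)⟫_ℝ * g2 y =
      512 ^ d * 512 * bb R0 s0 f (up 9 P).1 (xC s0 (up 9 P)) (e (up 9 P)) n (c (up 9 P)) := by
    rw [← k5]
    field_simp
  have k8 : bb R0 s0 f (up 9 P).1 (xC s0 (up 9 P)) (e (up 9 P)) n (c (up 9 P)) ≤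
      bC R0 s0 f e ν c (up 9 P) := le_max_right _ _
  have k9 : (512 : ℝ) ^ d * 512 *
      bb R0 s0 f (up 9 P).1 (xC s0 (up 9 P)) (e (up 9 P)) n (c (up 9 P)) ≤
      512 ^ d * 512 * bC R0 s0 f e ν c (up 9 P) :=
    mul_le_mul_of_nonneg_left k8 (by positivity)
  have hdP := (p1 P).1
  have hd9 := (p1 (up 9 P)).1
  have hb9 := (p1 (up 9 P)).2.1
  set NB : ℝ := |(512 : ℝ) ^ 2| * (1 ^ 2 * Nb) with hNB
  have hNB0 : 0 < NB := by positivity
  have k10 := (abs_le.1 k3).2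
  set X := dC b ε R s0 f e P with hX
  set Y := dC b ε R s0 f e (up 9 P) with hY
  set Z := bC R0 s0 f e ν c (up 9 P) with hZ'
  have e1 : (512 ^ d * 512 + C5 * NB + (NB + Na) * C8) * (Z + X + Y) =
      512 ^ d * 512 * Z + C5 * NB * (X + Y) + (NB + Na) * (C8 * X) +
      (512 ^ d * 512 * (X + Y) + C5 * NB * Z + (NB + Na) * C8 * (Z + Y)) := by ring
  have e2 : 0 ≤ 512 ^ d * 512 * (X + Y) + C5 * NB * Z + (NB + Na) * C8 * (Z + Y) := by
    positivity
  rw [e1]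
  linarith

end

end T1m

end TG


end

section

/-!
# Part (d) of module T1: geometry of two planes (helper75)

plInt n s (zR (Rt+2)) is bounded by the plane integral of a small bump centred at a point y0 of the
plane S = {ht n1 s1 = 0}, plus the plane integral of zR(256 R0) times the squared height over S.
-/

open MeasureTheory Metric Set TrI
open scoped InnerProductSpace ContDiff

namespace TG

namespace T1g

noncomputable section

open TU PF SAm

/-- the bump of scale 2^-i centred at y0 -/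
def bmp {d : ℕ} (i : ℕ) (y0 : Sp d) (y : Sp d) : ℝ := zR 2 ((2 : ℝ) ^ i • (y - y0))

variable {d : ℕ}

lemma bmp_nonneg (i : ℕ) (y0 y : Sp d) : 0 ≤ bmp i y0 y := zR_nonneg _ _

lemma bmp_le_one (i : ℕ) (y0 y : Sp d) : bmp i y0 y ≤ 1 := zR_le_one _ _

lemma bmp_one {i : ℕ} {y0 y : Sp d} (h : ‖y - y0‖ ≤ (1 / 2 : ℝ) ^ i) : bmp i y0 y = 1 := by
  unfold bmp
  refine zR_one ?_
  rw [norm_smul, Real.norm_of_nonneg (by positivity)]
  calc (2 : ℝ) ^ i * ‖y - y0‖ ≤ (2 : ℝ) ^ i * (1 / 2 : ℝ) ^ i :=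
        mul_le_mul_of_nonneg_left h (by positivity)
    _ ≤ 2 := by rw [← mul_pow]; norm_num

lemma bmp_zero {i : ℕ} {y0 y : Sp d} (h : 3 * (1 / 2 : ℝ) ^ i ≤ ‖y - y0‖) : bmp i y0 y = 0 := by
  unfold bmp
  refine zR_zero ?_
  rw [norm_smul, Real.norm_of_nonneg (by positivity)]
  calc (2 : ℝ) + 1 = (2 : ℝ) ^ i * (3 * (1 / 2 : ℝ) ^ i) := by
        rw [mul_left_comm, ← mul_pow]; norm_num
    _ ≤ (2 : ℝ) ^ i * ‖y - y0‖ := mul_le_mul_of_nonneg_left h (by positivity)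

lemma bmp_cont (i : ℕ) (y0 : Sp d) : Continuous (bmp i y0 : Sp d → ℝ) := by
  have h : Continuous (zR 2 : Sp d → ℝ) := (zR_smooth two_pos).continuous
  unfold bmp
  exact h.comp (by fun_prop)

/-- lower bound for plane integrals -/
lemma low (n : ℕ) (ν : Sp (n + 1)) (hν : ‖ν‖ = 1) (c : ℝ) {F : Sp (n + 1) → ℝ}
    (hF : Continuous F) {ρ : ℝ} (hs : ∀ y, F y ≠ 0 → ‖tang ν y‖ ≤ ρ) (h0 : ∀ y, 0 ≤ F y)
    (z0 : Pl ν) {r m : ℝ} (hr : 0 ≤ r)
    (hm : ∀ y ∈ closedBall z0 r, m ≤ F (c • ν + (y : Sp (n + 1)))) :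
    m * (r ^ n * (volume (closedBall (0 : Sp n) 1)).toReal) ≤ plInt ν c F := by
  have hint := integrable_pl hν hF hs c
  have hvol : (volume : Measure (Pl ν)).real (closedBall z0 r) =
      r ^ n * (volume (closedBall (0 : Sp n) 1)).toReal := by
    rw [Measure.real, Measure.addHaar_closedBall_center, vol n ν hν r,
      Measure.addHaar_closedBall' _ _ hr, ENNReal.toReal_mul, ENNReal.toReal_ofReal (by positivity)]
    simp
  unfold plInt
  calc m * (r ^ n * (volume (closedBall (0 : Sp n) 1)).toReal)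
      = ∫ _y in closedBall z0 r, m := by
        rw [setIntegral_const, smul_eq_mul, hvol, mul_comm]
    _ ≤ ∫ y in closedBall z0 r, F (c • ν + (y : Sp (n + 1))) :=
        setIntegral_mono_on (integrableOn_const measure_closedBall_lt_top.ne)
          hint.integrableOn measurableSet_closedBall fun y hy => hm y hy
    _ ≤ ∫ y : Pl ν, F (c • ν + (y : Sp (n + 1))) :=
        setIntegral_le_integral hint (Filter.Eventually.of_forall fun y => h0 _)

lemma ht_plane {ν : Sp d} (c : ℝ) (y : Pl ν) (n1 : Sp d) (s1 : ℝ) :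
    ht n1 s1 (c • ν + (y : Sp d)) = (c * ⟪ν, n1⟫_ℝ - s1) + ⟪(y : Sp d), tang ν n1⟫_ℝ := by
  unfold ht
  have h1 : ⟪(y : Sp d), tang ν n1⟫_ℝ = ⟪(y : Sp d), n1⟫_ℝ := by
    unfold tang
    rw [inner_sub_right, inner_smul_right]
    have : ⟪(y : Sp d), ν⟫_ℝ = 0 := by
      rw [real_inner_comm]
      exact Submodule.mem_orthogonal_singleton_iff_inner_right.1 y.2
    rw [this]; ring
  rw [h1, inner_add_right, inner_smul_right, real_inner_comm n1 ν, real_inner_comm n1 (y : Sp d)]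
  ring

theorem geo0 (hd : 2 ≤ d) (Rt R0 : ℝ) (hRt : 1 ≤ Rt) (hR0 : 400 ≤ R0) (h8 : 8 * Rt ≤ R0) :
    ∃ C2 : ℝ, 0 < C2 ∧ ∀ n0 : ℕ, ∃ C3 : ℝ, 0 < C3 ∧ ∀ (n1 : Sp d) (s1 : ℝ), ‖n1‖ = 1 →
      ∀ (n : Sp d) (s : ℝ), ‖n‖ = 1 → ∀ y0 : Sp d, ht n1 s1 y0 = 0 → ‖y0‖ ≤ 64 * R0 →
      ∀ i ≤ n0, plInt n s (zR (Rt + 2)) ≤
        C2 * (2 : ℝ) ^ (i * (d - 1)) * plInt n s (bmp i y0) +
        C3 * plInt n s (fun y => zR (256 * R0) y * ht n1 s1 y ^ 2) := by
  obtain ⟨n', rfl⟩ : ∃ n, d = n + 1 := ⟨d - 1, by omega⟩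
  obtain ⟨C, hC, hbound⟩ := plInt_bound (d := n' + 1) (by omega) (Rt + 3)
  set v1 : ℝ := (volume (closedBall (0 : Sp n') 1)).toReal with hv1
  have hv1pos : 0 < v1 := ENNReal.toReal_pos (measure_closedBall_pos _ _ one_pos).ne'
    measure_closedBall_lt_top.ne
  refine ⟨C * 2 ^ n' / v1, by positivity, fun n0 => ?_⟩
  set τ : ℝ := (1 / 2 : ℝ) ^ n0 / 4 with hτ
  have hτpos : 0 < τ := by positivity
  have hτ1 : τ ≤ 1 / 4 := by
    have : (1 / 2 : ℝ) ^ n0 ≤ 1 := pow_le_one₀ (by norm_num) (by norm_num)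
    rw [hτ]; linarith
  set θ : ℝ := τ / (64 * R0) with hθ
  have hR0pos : 0 < R0 := by linarith
  have hθpos : 0 < θ := by positivity
  refine ⟨C / (θ ^ 2 * v1), by positivity, ?_⟩
  intro n1 s1 hn1 ν s hν y0 hy0 hy0R i hi
  have hnorm0 : 0 ≤ plInt ν s (bmp i y0) := plInt_nonneg ν s fun y => bmp_nonneg _ _ _
  have hG0 : 0 ≤ plInt ν s (fun y => zR (256 * R0) y * ht n1 s1 y ^ 2) :=
    plInt_nonneg ν s fun y => mul_nonneg (zR_nonneg _ _) (sq_nonneg _)
  have hC2 : 0 ≤ C * 2 ^ n' / v1 := by positivity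
  have hC3 : 0 ≤ C / (θ ^ 2 * v1) := by positivity
  have hup : plInt ν s (zR (Rt + 2)) ≤ C := by
    have h := hbound ν hν (zR (Rt + 2)) s 1 zero_le_one
      (fun y _ => by
        rw [abs_of_nonneg (zR_nonneg _ _)]
        exact zR_le_one _ _)
      (fun y _ hne => by
        refine (norm_tang_le hν y).trans ?_
        by_contra hcon
        push Not at hcon
        exact hne (zR_zero (by linarith)))
    rw [mul_one] at h
    exact (le_abs_self _).trans h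
  by_cases hs : Rt + 3 ≤ |s|
  · -- the plane does not meet the ball
    have hz : plInt ν s (zR (Rt + 2)) = 0 := by
      have h1 : plInt ν s (zR (Rt + 2)) = plInt ν s (fun _ => (0 : ℝ)) := by
        refine plInt_congr hν fun y hy => zR_zero ?_
        have h2 := abs_real_inner_le_norm ν y
        rw [hν, one_mul, hy] at h2
        linarith
      rw [h1]
      unfold plInt
      exact integral_zero _ _
    rw [hz]
    positivity
  push Not at hs
  -- the height restricted to the plane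
  set w : Sp (n' + 1) := tang ν n1 with hw
  set a : ℝ := s * ⟪ν, n1⟫_ℝ - s1 with ha
  have hinner : ⟪ν, w⟫_ℝ = 0 := tang_inner hν n1
  have hnsq := norm_sq_tang hν n1
  rw [hn1] at hnsq
  by_cases hA : |a| + 64 * R0 * ‖w‖ ≤ τ
  · -- the plane passes near y0
    have hw1 : ‖w‖ ≤ 1 / 4 := by
      have h1 : ‖w‖ ≤ 64 * R0 * ‖w‖ := by
        have : (1 : ℝ) ≤ 64 * R0 := by linarith
        nlinarith only [hR0, norm_nonneg w]
      have := abs_nonneg a
      linarith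
    have hα : 1 / 2 ≤ |⟪ν, n1⟫_ℝ| := by
      by_contra hcon
      push Not at hcon
      have h1 : ⟪ν, n1⟫_ℝ ^ 2 < 1 / 4 := by
        rw [← sq_abs]
        nlinarith only [hcon, abs_nonneg ⟪ν, n1⟫_ℝ]
      have h2 : ‖w‖ ^ 2 ≤ 1 / 16 := by nlinarith only [hw1, norm_nonneg w]
      have h3 : ‖tang ν n1‖ ^ 2 = ‖w‖ ^ 2 := rfl
      linarith only [hnsq, h1, h2]
    have hkey : (⟪ν, y0⟫_ℝ - s) * ⟪ν, n1⟫_ℝ = -(a + ⟪tang ν y0, w⟫_ℝ) := by
      have e1 : ⟪ν, y0⟫_ℝ • ν + tang ν y0 = y0 := by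
        exact (add_comm _ _).trans (tang_add_inner ν y0)
      have e2 := ht_plane ⟪ν, y0⟫_ℝ (⟨tang ν y0, by
          rw [Submodule.mem_orthogonal_singleton_iff_inner_right]
          exact tang_inner hν y0⟩ : Pl ν) n1 s1
      have e4 : ht n1 s1 (⟪ν, y0⟫_ℝ • ν + tang ν y0) = (⟪ν, y0⟫_ℝ * ⟪ν, n1⟫_ℝ - s1) +
          ⟪tang ν y0, w⟫_ℝ := e2
      rw [e1, hy0] at e4
      rw [ha]
      linarith only [e4]
    have hdist : |⟪ν, y0⟫_ℝ - s| ≤ 2 * τ := by
      have h1 : |⟪ν, y0⟫_ℝ - s| * |⟪ν, n1⟫_ℝ| ≤ τ := by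
        rw [← abs_mul, hkey, abs_neg]
        refine (abs_add_le _ _).trans ?_
        have h2 : |⟪tang ν y0, w⟫_ℝ| ≤ 64 * R0 * ‖w‖ := by
          refine (abs_real_inner_le_norm _ _).trans ?_
          exact mul_le_mul_of_nonneg_right ((norm_tang_le hν y0).trans hy0R) (norm_nonneg _)
        linarith
      nlinarith only [h1, hτpos, hα]
    have hpow : (1 / 2 : ℝ) ^ n0 ≤ (1 / 2 : ℝ) ^ i :=
      pow_le_pow_of_le_one (by norm_num) (by norm_num) hi
    have hdist' : |⟪ν, y0⟫_ℝ - s| ≤ (1 / 2 : ℝ) ^ i / 2 := by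
      rw [hτ] at hdist
      linarith only [hdist, hpow]
    -- lower bound for the bump
    have hlow := low n' ν hν s (bmp_cont i y0) (ρ := ‖y0‖ + 3)
      (fun y hne => by
        refine (norm_tang_le hν y).trans ?_
        by_contra hcon
        push Not at hcon
        refine hne (bmp_zero ?_)
        have h1 : ‖y‖ ≤ ‖y - y0‖ + ‖y0‖ := by
          have := norm_add_le (y - y0) y0
          rwa [sub_add_cancel] at this
        have h2 : (1 / 2 : ℝ) ^ i ≤ 1 := pow_le_one₀ (by norm_num) (by norm_num)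
        linarith only [hcon, h1, h2])
      (fun y => bmp_nonneg i y0 y)
      (⟨tang ν y0, by
          rw [Submodule.mem_orthogonal_singleton_iff_inner_right]
          exact tang_inner hν y0⟩ : Pl ν) (r := (1 / 2 : ℝ) ^ i / 2) (m := 1) (by positivity)
      (fun y hy => by
        rw [bmp_one]
        have h1 : s • ν + (y : Sp (n' + 1)) - y0 = ((y : Sp (n' + 1)) - tang ν y0) -
            (⟪ν, y0⟫_ℝ - s) • ν := by
          have h2 := tang_add_inner ν y0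
          rw [sub_smul]
          nth_rewrite 1 [← h2]
          abel
        rw [h1]
        refine (norm_sub_le _ _).trans ?_
        rw [norm_smul, hν, mul_one, Real.norm_eq_abs]
        have h3 : ‖(y : Sp (n' + 1)) - tang ν y0‖ ≤ (1 / 2 : ℝ) ^ i / 2 := by
          have := mem_closedBall.mp hy
          rw [dist_eq_norm] at this
          exact this
        linarith only [hτ, hdist, hpow, h3])
    rw [one_mul] at hlow
    have h2i : (2 : ℝ) ^ (i * (n' + 1 - 1)) * ((1 / 2 : ℝ) ^ i / 2) ^ n' = 1 / 2 ^ n' := by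
      rw [Nat.add_sub_cancel, div_pow, pow_mul, ← mul_div_assoc, ← mul_pow, ← mul_pow]
      norm_num
    calc plInt ν s (zR (Rt + 2)) ≤ C := hup
      _ = C * 2 ^ n' / v1 * (1 / 2 ^ n' * v1) := by field_simp
      _ = C * 2 ^ n' / v1 * (2 : ℝ) ^ (i * (n' + 1 - 1)) *
          (((1 / 2 : ℝ) ^ i / 2) ^ n' * v1) := by
          rw [← h2i]; ring
      _ ≤ C * 2 ^ n' / v1 * (2 : ℝ) ^ (i * (n' + 1 - 1)) * plInt ν s (bmp i y0) :=
          mul_le_mul_of_nonneg_left hlow (by positivity)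
      _ ≤ _ := le_add_of_nonneg_right (mul_nonneg hC3 hG0)
  · -- the height is large on the plane
    push Not at hA
    set σ : ℝ := if 0 ≤ a then 1 else -1 with hσ
    have hσa : σ * a = |a| := by
      rw [hσ]
      split_ifs with h
      · rw [abs_of_nonneg h, one_mul]
      · rw [abs_of_neg (not_le.mp h)]; ring
    have hσ2 : σ * σ = 1 := by
      rw [hσ]
      split_ifs <;> norm_num
    have hσabs : |σ| = 1 := by
      rw [hσ]
      split_ifs <;> norm_num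
    set z0 : Sp (n' + 1) := (σ * 2 * ‖w‖⁻¹) • w with hz0
    have hz0mem : z0 ∈ Pl ν := by
      rw [Submodule.mem_orthogonal_singleton_iff_inner_right, hz0, inner_smul_right, hinner,
        mul_zero]
    have hz0n : ‖z0‖ ≤ 2 := by
      rw [hz0, norm_smul, Real.norm_eq_abs, abs_mul, abs_mul, hσabs, abs_inv, abs_norm]
      by_cases hw0 : ‖w‖ = 0
      · rw [hw0]; norm_num
      · rw [one_mul, mul_assoc, inv_mul_cancel₀ hw0]; norm_num
    have hz0w : σ * ⟪z0, w⟫_ℝ = 2 * ‖w‖ := by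
      rw [hz0, real_inner_smul_left, real_inner_self_eq_norm_sq]
      by_cases hw0 : ‖w‖ = 0
      · rw [hw0]; norm_num
      · field_simp
        linear_combination hσ2
    have hcontG : Continuous (fun y : Sp (n' + 1) => zR (256 * R0) y * ht n1 s1 y ^ 2) := by
      have h1 : Continuous (zR (256 * R0) : Sp (n' + 1) → ℝ) :=
        (zR_smooth (by positivity)).continuous
      have h2 : Continuous (fun y : Sp (n' + 1) => ht n1 s1 y) := by
        unfold ht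
        fun_prop
      exact h1.mul (h2.pow 2)
    have hlow := low n' ν hν s hcontG (ρ := 256 * R0 + 1)
      (fun y hne => by
        refine (norm_tang_le hν y).trans ?_
        by_contra hcon
        push Not at hcon
        refine hne ?_
        rw [zR_zero hcon.le, zero_mul])
      (fun y => mul_nonneg (zR_nonneg _ _) (sq_nonneg _))
      (⟨z0, hz0mem⟩ : Pl ν) (r := 1) (m := θ ^ 2) zero_le_one
      (fun y hy => by
        have hyz : ‖(y : Sp (n' + 1)) - z0‖ ≤ 1 := by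
          have := mem_closedBall.mp hy
          rw [dist_eq_norm] at this
          exact this
        have hyn : ‖(y : Sp (n' + 1))‖ ≤ 3 := by
          have := norm_add_le ((y : Sp (n' + 1)) - z0) z0
          rw [sub_add_cancel] at this
          linarith
        rw [zR_one, one_mul, ht_plane]
        · have h1 : σ * ⟪(y : Sp (n' + 1)), w⟫_ℝ ≥ ‖w‖ := by
            have e : ⟪(y : Sp (n' + 1)), w⟫_ℝ = ⟪z0, w⟫_ℝ + ⟪(y : Sp (n' + 1)) - z0, w⟫_ℝ := by
              rw [← inner_add_left]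
              congr 1
              abel
            rw [e, mul_add, hz0w]
            have h2 : |σ * ⟪(y : Sp (n' + 1)) - z0, w⟫_ℝ| ≤ ‖w‖ := by
              rw [abs_mul, hσabs, one_mul]
              refine (abs_real_inner_le_norm _ _).trans ?_
              nlinarith only [hyz, norm_nonneg w]
            have := neg_abs_le (σ * ⟪(y : Sp (n' + 1)) - z0, w⟫_ℝ)
            linarith
          have h3 : θ ≤ σ * (a + ⟪(y : Sp (n' + 1)), w⟫_ℝ) := by
            rw [mul_add, hσa, hθ, div_le_iff₀ (by positivity)]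
            have h4 : |a| ≤ |a| * (64 * R0) := by
              have : (1 : ℝ) ≤ 64 * R0 := by linarith
              nlinarith only [hR0, abs_nonneg a]
            have h5 : ‖w‖ * (64 * R0) ≤ σ * ⟪(y : Sp (n' + 1)), w⟫_ℝ * (64 * R0) :=
              mul_le_mul_of_nonneg_right h1 (by positivity)
            linarith
          calc θ ^ 2 ≤ (σ * (a + ⟪(y : Sp (n' + 1)), w⟫_ℝ)) ^ 2 :=
                pow_le_pow_left₀ hθpos.le h3 2
            _ = (a + ⟪(y : Sp (n' + 1)), w⟫_ℝ) ^ 2 := by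
                rw [mul_pow, sq σ, hσ2, one_mul]
        · refine (norm_add_le _ _).trans ?_
          rw [norm_smul, hν, mul_one, Real.norm_eq_abs]
          linarith)
    rw [one_pow, one_mul] at hlow
    calc plInt ν s (zR (Rt + 2)) ≤ C := hup
      _ = C / (θ ^ 2 * v1) * (θ ^ 2 * v1) := by field_simp
      _ ≤ C / (θ ^ 2 * v1) * plInt ν s (fun y => zR (256 * R0) y * ht n1 s1 y ^ 2) :=
          mul_le_mul_of_nonneg_left hlow hC3
      _ ≤ _ := le_add_of_nonneg_left (mul_nonneg (mul_nonneg hC2 (by positivity)) hnorm0)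

/-- (d) GEOMETRY -/
theorem geo (d : ℕ) (hd : 2 ≤ d) (Rt R0 : ℝ) (hRt : 1 ≤ Rt) (h8 : 8 * Rt ≤ R0)
    (h400 : 400 ≤ R0) :
    ∃ C2 : ℝ, 0 < C2 ∧ ∀ n0 : ℕ, ∃ C3 : ℝ, 0 < C3 ∧ ∀ (n n' y0 : Sp d) (s : ℝ) (i : ℕ),
      ‖n‖ = 1 → ‖n'‖ = 1 → ‖y0‖ ≤ 64 * R0 → i ≤ n0 →
      plInt n s (zR (Rt + 2)) ≤
        C2 * ((2 : ℝ) ^ i) ^ (d - 1) * plInt n s (fun y => zR 2 ((2 : ℝ) ^ i • (y - y0))) +
        C3 * plInt n s (fun y => zR (256 * R0) y * ht n' ⟪n', y0⟫_ℝ y ^ 2) := by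
  obtain ⟨C2, hC2, h⟩ := geo0 hd Rt R0 hRt h400 h8
  refine ⟨C2, hC2, fun n0 => ?_⟩
  obtain ⟨C3, hC3, h3⟩ := h n0
  refine ⟨C3, hC3, fun n n' y0 s i hn hn' hy0 hi => ?_⟩
  have h4 := h3 n' ⟪n', y0⟫_ℝ hn' n s hn y0 (by unfold ht; ring) hy0 i hi
  rw [← pow_mul]
  exact h4

end

end T1g

end TG


end

section

/-!
# Trace inequality, general operators: MODULE T1, the uniform sheet   (helper51)

No double quotes.
-/

open MeasureTheory Metric Set TrI
open scoped InnerProductSpace ContDiff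

namespace TG

namespace T1m

noncomputable section

variable {d : ℕ}

/-- the small cut-off -/
def ph (i : ℕ) (y0 y : Sp d) : ℝ := zR 2 ((2 : ℝ) ^ i • (y - y0))

/-- the second moment -/
def qd (R0 : ℝ) (n' y0 y : Sp d) : ℝ := zR (256 * R0) y * ht n' ⟪n', y0⟫_ℝ y ^ 2

/-- the test function -/
def tf (Rt R0 A B : ℝ) (i : ℕ) (n' y0 y : Sp d) : ℝ :=
  A * ph i y0 y + B * qd R0 n' y0 y - zR (Rt + 2) y

lemma tf_TFn (d J n0 : ℕ) {Rt R0 : ℝ} (hRt : 1 ≤ Rt) (hR0 : 400 ≤ R0) (A B : ℝ) :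
    ∃ N : ℝ, 0 < N ∧ ∀ (n' y0 : Sp d) (i : ℕ), ‖n'‖ = 1 → ‖y0‖ ≤ 64 * R0 → i ≤ n0 →
      TFn J N (tf Rt R0 (A * ((2 : ℝ) ^ i) ^ (d - 1)) B i n' y0) := by
  obtain ⟨N, hN, hT⟩ := exists_TFn_zR d J
  obtain ⟨N', hN', hT'⟩ := exists_TFn_ht2 d J (256 * R0) (64 * R0) (by linarith)
  refine ⟨|A| * ((2 : ℝ) ^ n0) ^ (d - 1) * (((2 : ℝ) ^ n0) ^ J * N) + |B| * N' + N,
    by positivity, ?_⟩
  intro n' y0 i hn hy hi
  have h2 : (2 : ℝ) ^ i ≤ 2 ^ n0 := pow_le_pow_right₀ (by norm_num) hi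
  have h1 : TFn J ((((2 : ℝ) ^ n0) ^ J) * N) (ph i y0 : Sp d → ℝ) := by
    have h3 := (hT 2 (by norm_num)).comp_aff (-((2 : ℝ) ^ i • y0)) ((2 : ℝ) ^ i)
      (T := (2 : ℝ) ^ n0) (one_le_pow₀ (by norm_num)) (by
        rw [abs_of_pos (by positivity)]
        exact h2)
    refine (congrArg (TFn J _) ?_).mp h3
    funext y
    unfold ph
    rw [smul_sub]
    congr 1
    abel
  have hc : |⟪n', y0⟫_ℝ| ≤ 64 * R0 := by
    have := abs_real_inner_le_norm n' y0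
    rw [hn, one_mul] at this
    linarith
  have h4 := ((h1.const_mul (A * ((2 : ℝ) ^ i) ^ (d - 1))).add
    ((hT' n' ⟪n', y0⟫_ℝ hn hc).const_mul B)).sub (hT (Rt + 2) (by linarith))
  refine TFn.mono h4 ?_
  have h5 : |A * ((2 : ℝ) ^ i) ^ (d - 1)| ≤ |A| * ((2 : ℝ) ^ n0) ^ (d - 1) := by
    rw [abs_mul, abs_of_pos (by positivity : (0 : ℝ) < (2 ^ i) ^ (d - 1))]
    exact mul_le_mul_of_nonneg_left (pow_le_pow_left₀ (by positivity) h2 _) (abs_nonneg _)
  have h6 : 0 ≤ ((2 : ℝ) ^ n0) ^ J * N := by positivity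
  have := mul_le_mul_of_nonneg_right h5 h6
  linarith

lemma ph_zero {R0 : ℝ} (hR0 : 400 ≤ R0) {y0 : Sp d} (hy0 : ‖y0‖ ≤ 64 * R0) (i : ℕ) {y : Sp d}
    (hy : 300 * R0 ≤ ‖y‖) : ph i y0 y = 0 := by
  unfold ph
  refine zR_eq_zero ?_
  rw [norm_smul, Real.norm_of_nonneg (by positivity)]
  have h1 := norm_sub_norm_le y y0
  have h2 : (1 : ℝ) ≤ 2 ^ i := one_le_pow₀ (by norm_num)
  nlinarith

lemma qd_zero {R0 : ℝ} (hR0 : 400 ≤ R0) (n' y0 : Sp d) {y : Sp d}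
    (hy : 300 * R0 ≤ ‖y‖) : qd R0 n' y0 y = 0 := by
  unfold qd
  rw [zR_eq_zero (by linarith), zero_mul]

lemma ph_cont (i : ℕ) (y0 : Sp d) : Continuous (ph i y0 : Sp d → ℝ) := by
  have h : Continuous (zR 2 : Sp d → ℝ) := (TU.zR_smooth two_pos).continuous
  unfold ph
  exact h.comp (by fun_prop)

lemma qd_cont {R0 : ℝ} (hR0 : 400 ≤ R0) (n' y0 : Sp d) : Continuous (qd R0 n' y0 : Sp d → ℝ) := by
  have h : Continuous (zR (256 * R0) : Sp d → ℝ) := (TU.zR_smooth (by linarith)).continuous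
  unfold qd ht
  exact h.mul (by fun_prop)

/-- plane integrals of the test function -/
lemma tf_pl {Rt R0 : ℝ} (hRt : 1 ≤ Rt) (h8 : 8 * Rt ≤ R0) (h400 : 400 ≤ R0) (A B : ℝ) (i : ℕ)
    {n n' y0 : Sp d} (s : ℝ) (hn : ‖n‖ = 1) (hy : ‖y0‖ ≤ 64 * R0) :
    plInt n s (tf Rt R0 A B i n' y0) = A * plInt n s (ph i y0) + B * plInt n s (qd R0 n' y0) -
      plInt n s (zR (Rt + 2)) := by
  have hz : ∀ (g : Sp d → ℝ), (∀ y, 300 * R0 ≤ ‖y‖ → g y = 0) → ∀ y, g y ≠ 0 →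
      ‖tang n y‖ ≤ 300 * R0 := by
    intro g hg y hy
    by_contra hcon
    rw [not_le] at hcon
    exact hy (hg y (hcon.le.trans (PF.norm_tang_le hn y)))
  have i1 := PF.integrable_pl hn (ph_cont i y0) (hz _ fun y => ph_zero h400 hy i) s
  have i2 := PF.integrable_pl hn (qd_cont h400 n' y0) (hz _ fun y => qd_zero h400 n' y0) s
  have i3 := PF.integrable_pl (F := (zR (Rt + 2) : Sp d → ℝ)) hn
    (TU.zR_smooth (by linarith)).continuous
    (hz _ fun y hy => zR_eq_zero (by linarith)) s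
  have i4 : Integrable (fun y : PF.Pl n => A * ph i y0 (s • n + (y : Sp d)) +
      B * qd R0 n' y0 (s • n + (y : Sp d))) := (i1.const_mul A).add (i2.const_mul B)
  have e1 : plInt n s (tf Rt R0 A B i n' y0) =
      (∫ y : PF.Pl n, (A * ph i y0 (s • n + (y : Sp d)) + B * qd R0 n' y0 (s • n + (y : Sp d)))) -
        ∫ y : PF.Pl n, zR (Rt + 2) (s • n + (y : Sp d)) := integral_sub i4 i3
  have e2 : (∫ y : PF.Pl n, (A * ph i y0 (s • n + (y : Sp d)) +
      B * qd R0 n' y0 (s • n + (y : Sp d)))) =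
      (∫ y : PF.Pl n, A * ph i y0 (s • n + (y : Sp d))) +
        ∫ y : PF.Pl n, B * qd R0 n' y0 (s • n + (y : Sp d)) :=
    integral_add (i1.const_mul A) (i2.const_mul B)
  rw [e1, e2, integral_const_mul, integral_const_mul]
  rfl

end

end T1m

open _root_.TG.T1m in
/-- MODULE T1 -/
theorem stmtT1 (hFR1 : StmtFR1) (hMA : StmtMA) (hCT5 : StmtCT5) (hCT8 : StmtCT8) : StmtT1 := by
  intro d V E _ _ _ _ _ _ _ L hd hL M c0 ε hε hε1 b hb Rt R0 γ hRt hR0 h8 hγ hγ1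
  have hd1 : 1 ≤ d := by omega
  have hdR : (2 : ℝ) ≤ d := by exact_mod_cast hd
  have h400 : 400 ≤ R0 := by linarith
  obtain ⟨C2, hC2, hgeo⟩ := T1g.geo d hd Rt R0 hRt h8 h400
  obtain ⟨CL, hCL, hlow⟩ := low hMA hd1 hε hε1 hb
  obtain ⟨CU, hCU, hupp⟩ := upp hMA hd1 hε hε1 hb
  obtain ⟨CF, hCF, hflat⟩ := flat stmtSD hCT5 hCT8 hd1 hε hε1 hb hR0
  obtain ⟨CP, hCP, hpos⟩ := pos_of_planes hd1 (300 * R0)
  obtain ⟨C8, hC8, h8'⟩ := hCT8 d hd1 M c0 ε hε hε1 b hb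
  obtain ⟨C9, -, h8'⟩ := h8' 0
  refine ⟨1 / (16 * (C2 * CU)), by positivity, fun n0 => ?_⟩
  obtain ⟨C3, hC3, hgeo⟩ := hgeo n0
  choose N hN hNT using fun J => tf_TFn d J n0 hRt h400 C2 C3
  obtain ⟨rm, R1, δ1, hR1, hδ1, hFR⟩ := hFR1 d V E L hd hL M c0 ε hε hε1 b hb γ 1 (300 * R0)
    (fun J => 1 / (32 * N J)) hγ hγ1 le_rfl (by linarith) (fun J => by
      have := hN J
      positivity)
  set K1 : ℝ := rm * (4 * (CP * N 2) * C8) with hK1
  set G : ℝ := ((2 : ℝ) ^ n0) ^ d * 4 ^ n0 with hG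
  set KK : ℝ := K1 + CL + 5 * (C3 * CF) + C2 * CU * G + 1 with hKK
  have hN2 := hN 2
  have hK1p : 0 ≤ K1 := by positivity
  have hKKp : 0 < KK := by positivity
  refine ⟨1 / (16 * (C3 * CF + 1)), min δ1 (1 / (16 * KK)), max (2 * R1 + 2 * d + 20) (700 * R0),
    by positivity, lt_min hδ1 (by positivity), ?_⟩
  intro R hR u hu s0 hs e hDirs ν c hPl P haP hgr hamC hdC hbC y hy hyx i hi hiP
  have hR2 : 2 * R1 + 2 * d + 20 ≤ R := (le_max_left _ _).trans hR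
  have hR3 : 700 * R0 ≤ R := (le_max_right _ _).trans hR
  have hf : Continuous (fo L u) := TC.fo_cont L hu
  have hfc : HasCompactSupport (fo L u) := TC.fo_cs L hu
  set f := fo L u with hfdef
  set a := mT b ε s0 f P with ha
  set κ : ℝ := 1 / (16 * (C3 * CF + 1)) with hκ
  set δ : ℝ := min δ1 (1 / (16 * KK)) with hδ
  have hδ0 : 0 < δ := lt_min hδ1 (by positivity)
  have hdCn : ∀ Q, 0 ≤ dC b ε R s0 f e Q := fun Q =>
    TU.DD_nonneg b ε R hs f Q.1 (xC s0 Q) (hDirs.unit Q)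
  have hdP : dC b ε R s0 f e P ≤ δ * a := by
    have h1 := hdC 0
    rw [FR.up_zero] at h1
    simpa using h1
  have hd9 : dC b ε R s0 f e (up 9 P) ≤ 4 * (δ * a) := by
    refine (hdC 9).trans ?_
    have h1 : (2 : ℝ) ^ (((9 : ℕ) : ℝ) / 8) ≤ (2 : ℝ) ^ (2 : ℝ) :=
      Real.rpow_le_rpow_of_exponent_le (by norm_num) (by norm_num)
    have h2 : (2 : ℝ) ^ (2 : ℝ) = 4 := by norm_num
    rw [h2] at h1
    have h3 : 0 ≤ δ * a := by (clear * - hδ1 hCP hN2 hC8 hCL hC3 hCF hC2 hCU haP; positivity)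
    calc δ * (2 : ℝ) ^ (((9 : ℕ) : ℝ) / 8) * a = (2 : ℝ) ^ (((9 : ℕ) : ℝ) / 8) * (δ * a) := by ring
      _ ≤ _ := mul_le_mul_of_nonneg_right h1 h3
  -- the point in the frame of P
  have ht0 := FR.lev_pos hs P.1
  set n' := ν (up 9 P) with hn'
  set y0 : Sp d := (1 / lev s0 P.1) • (y - xC s0 P) with hy0
  have hn'1 : ‖n'‖ = 1 := hPl.unit _
  have hy0n : ‖y0‖ ≤ 64 * R0 := by
    rw [hy0, norm_smul, Real.norm_of_nonneg (by positivity), one_div_mul_eq_div, div_le_iff₀ ht0]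
    exact hyx
  have hcfr : FR.cfr s0 P n' (c (up 9 P)) = ⟪n', y0⟫_ℝ := by
    unfold ht at hy
    unfold FR.cfr
    rw [hy0, inner_smul_right, inner_sub_right, one_div_mul_eq_div]
    congr 1
    linarith only [hy]
  have hcabs : |⟪n', y0⟫_ℝ| ≤ 64 * R0 := by
    have := abs_real_inner_le_norm n' y0
    rw [hn'1, one_mul] at this
    linarith
  set A : ℝ := C2 * ((2 : ℝ) ^ i) ^ (d - 1) with hA
  -- (A)
  obtain ⟨q1, -⟩ := h8' E R (by linarith) (by norm_num; linarith) f hf hfc s0 hs e hDirs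
  obtain ⟨-, hZ⟩ := q1 P
  obtain ⟨J, r, νs, κs, hStr⟩ := hFR R hR2 u hu s0 hs e hDirs P a haP.le
    (fun l => by rw [one_mul]; exact hgr l)
    (fun l => (hdC l).trans (mul_le_mul_of_nonneg_right (mul_le_mul_of_nonneg_right
      (min_le_left _ _) (by positivity)) haP.le))
  have hTF := fun J => hNT J n' y0 i hn'1 hy0n hi
  have hA1 := hpos J rm r R1 (1 / (32 * N J)) a (C8 * dC b ε R s0 f e P) (R - 2)
    (mQ s0 f (e P) P) νs κs hStr (mul_nonneg hC8.le (hdCn P)) hZ (by linarith)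
    (tf Rt R0 A C3 i n' y0) (N 2) (N J) (hTF 2) (hTF J)
    (fun y hy => by
      unfold tf
      rw [ph_zero h400 hy0n i hy, qd_zero h400 n' y0 hy, zR_eq_zero (by linarith)]
      ring)
    (fun n s hn => by
      rw [tf_pl hRt h8 h400 A C3 i s hn hy0n]
      have := hgeo n n' y0 s i hn hn'1 hy0n hi
      have e1 : plInt n s (ph i y0) = plInt n s (fun y => zR 2 ((2 : ℝ) ^ i • (y - y0))) := rfl
      have e2 : plInt n s (qd R0 n' y0) =
        plInt n s (fun y => zR (256 * R0) y * ht n' ⟪n', y0⟫_ℝ y ^ 2) := rfl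
      rw [e1, e2]
      linarith)
  have hNJ := hN J
  have e1 : 1 / (32 * N J) * a * N J = a / 32 := by
    field_simp
  rw [e1] at hA1
  -- (B)
  have i1 : Integrable fun y => mQ s0 f (e P) P y * ph i y0 y :=
    mQ_int hf hfc hs P (e P) (ph_cont i y0)
  have i2 : Integrable fun y => mQ s0 f (e P) P y * qd R0 n' y0 y :=
    mQ_int hf hfc hs P (e P) (qd_cont h400 n' y0)
  have i3 : Integrable fun y => mQ s0 f (e P) P y * zR (Rt + 2) y :=
    mQ_int hf hfc hs P (e P) (TU.zR_smooth (by linarith)).continuous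
  have hB : ∫ y, mQ s0 f (e P) P y * tf Rt R0 A C3 i n' y0 y =
      A * (∫ y, mQ s0 f (e P) P y * ph i y0 y) + C3 * (∫ y, mQ s0 f (e P) P y * qd R0 n' y0 y) -
        ∫ y, mQ s0 f (e P) P y * zR (Rt + 2) y := by
    have i4 : Integrable fun y => A * (mQ s0 f (e P) P y * ph i y0 y) +
        C3 * (mQ s0 f (e P) P y * qd R0 n' y0 y) := (i1.const_mul A).add (i2.const_mul C3)
    rw [← integral_const_mul, ← integral_const_mul, ← integral_add (i1.const_mul A)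
      (i2.const_mul C3), ← integral_sub i4 i3]
    congr 1
    funext y
    unfold tf
    ring
  -- (C)
  have hC := hlow E f hf hfc R Rt hRt (by linarith only [hR0, h8, hR3]) s0 hs P (e P) (hDirs.unit P)
  have hC' : DD b ε R s0 f P.1 (xC s0 P) (e P) = dC b ε R s0 f e P := rfl
  rw [hC'] at hC
  -- (D)
  have hD := hflat E f hf hfc R hR3 s0 hs e hDirs ν c hPl P (by rw [← hn', hcfr]; exact hcabs)
  rw [← hn', hcfr] at hD
  have hD' : ∫ y, mQ s0 f (e P) P y * qd R0 n' y0 y =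
    ∫ y, mQ s0 f (e P) P y * (zR (256 * R0) y * ht n' ⟪n', y0⟫_ℝ y ^ 2) := rfl
  rw [← hD'] at hD
  -- (E)
  set k := P.1 - i with hk
  have hki : k + i = P.1 := Nat.sub_add_cancel hiP
  have hE1 := small_int hd1 f (e P) (xC s0 P) y hs k i
  rw [hki] at hE1
  have hE1' : ∫ z, ⟪rs (xC s0 P) (lev s0 P.1) f z, e P⟫_ℝ *
      zR 2 ((2 : ℝ) ^ i • (z - (1 / lev s0 P.1) • (y - xC s0 P))) =
      ∫ z, mQ s0 f (e P) P z * ph i y0 z := rfl
  rw [hE1'] at hE1
  have hE2 := hupp E f hf hfc (16 * R0) (by linarith only [hR0]) s0 hs k y (e P) (hDirs.unit P)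
  rw [← hE1] at hE2
  have hlk := FR.lev_pos hs k
  have hlev : lev s0 (k + i) = 2 ^ i * lev s0 k := FR.lev_add s0 k i
  have h2i : (1 : ℝ) ≤ 2 ^ i := one_le_pow₀ (by norm_num)
  have hE3 := DD_mono2 hb ε hf hfc hs k i (R := 16 * R0) (R' := R) (x := y) (x' := xC s0 P)
    (by
      refine ball_subset_ball' ?_
      rw [dist_eq_norm, hki]
      have h1 : lev s0 k ≤ lev s0 P.1 := by
        rw [← hki, hlev]
        nlinarith only [hlk, h2i]
      have h2 : 16 * R0 * lev s0 k ≤ 16 * R0 * lev s0 P.1 :=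
        mul_le_mul_of_nonneg_left h1 (by linarith only [hR0])
      have h3 : 80 * R0 * lev s0 P.1 ≤ R * lev s0 P.1 :=
        mul_le_mul_of_nonneg_right (by linarith only [hR0, hR3]) ht0.le
      linarith only [hyx, h2, h3]) (hDirs.unit P)
  rw [hki, hC'] at hE3
  have hG1 : ((2 : ℝ) ^ i) ^ d / 2 ^ i * 4 ^ i ≤ G := by
    have h1 : ((2 : ℝ) ^ i) ^ d / 2 ^ i ≤ (2 ^ n0) ^ d := by
      rw [div_le_iff₀ (by positivity)]
      have h2 : ((2 : ℝ) ^ i) ^ d ≤ (2 ^ n0) ^ d :=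
        pow_le_pow_left₀ (by positivity) (pow_le_pow_right₀ (by norm_num) hi) _
      have h3 : (0 : ℝ) ≤ (2 ^ n0) ^ d := by positivity
      nlinarith only [h2, h2i, h3]
    have h4 : (4 : ℝ) ^ i ≤ 4 ^ n0 := pow_le_pow_right₀ (by norm_num) hi
    exact mul_le_mul h1 h4 (by positivity) (by positivity)
  have hE4 : DD b ε (16 * R0) s0 f k y (e P) ≤ G * (δ * a) :=
    hE3.trans (mul_le_mul hG1 hdP (hdCn P) (by positivity))
  -- conclusion
  have hfin : 1 / (16 * (C2 * CU)) * a ≤ ma b ε (16 * R0) s0 f k y := by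
    rw [one_div_mul_eq_div, div_le_iff₀ (by positivity)]
    set m0 := ma b ε (16 * R0) s0 f k y with hm0
    set Ip := ∫ y, mQ s0 f (e P) P y * ph i y0 y with hIp
    set Iq := ∫ y, mQ s0 f (e P) P y * qd R0 n' y0 y with hIq
    set Iz := ∫ y, mQ s0 f (e P) P y * zR (Rt + 2) y with hIz
    set X := dC b ε R s0 f e P with hX
    have hX0 : 0 ≤ X := hdCn P
    -- upper bound for A Ip
    have u1 : A * Ip ≤ C2 * CU * m0 + C2 * CU * G * (δ * a) := by
      have h1 := mul_le_mul_of_nonneg_left hE2 hC2.le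
      have h2 : C2 * (CU * (m0 + DD b ε (16 * R0) s0 f k y (e P))) ≤
          C2 * (CU * (m0 + G * (δ * a))) :=
        mul_le_mul_of_nonneg_left (mul_le_mul_of_nonneg_left (by linarith only [hE4]) hCU.le) hC2.le
      have h3 : A * Ip = C2 * (((2 : ℝ) ^ i) ^ (d - 1) * Ip) := by rw [hA]; ring
      rw [h3]
      refine h1.trans (h2.trans (le_of_eq (by ring)))
    have u2 : C3 * Iq ≤ C3 * CF * (κ * a) + 5 * (C3 * CF) * (δ * a) := by
      have h1 : Iq ≤ CF * (κ * a + δ * a + 4 * (δ * a)) :=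
        hD.trans (mul_le_mul_of_nonneg_left (by linarith only [hbC, hd9, hdP]) hCF.le)
      refine (mul_le_mul_of_nonneg_left h1 hC3.le).trans (le_of_eq (by ring))
    have u3 : a / 4 ≤ Iz + CL * (δ * a) := by
      have h1 := mul_le_mul_of_nonneg_left hdP hCL.le
      linarith only [hamC, hC, h1]
    have u4 : -(K1 * (δ * a)) - a / 32 ≤ A * Ip + C3 * Iq - Iz := by
      rw [← hB]
      refine le_trans ?_ hA1
      have h1 : (rm : ℝ) * (4 * (CP * N 2) * (C8 * X)) = K1 * X := by rw [hK1]; ring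
      have h2 := mul_le_mul_of_nonneg_left hdP hK1p
      rw [h1]
      linarith only [h2]
    have u5 : KK * (δ * a) ≤ a / 16 := by
      have h1 : δ ≤ 1 / (16 * KK) := min_le_right _ _
      have h2 : KK * δ ≤ 1 / 16 := by
        have h3 := mul_le_mul_of_nonneg_left h1 hKKp.le
        refine h3.trans (le_of_eq ?_)
        field_simp
      calc KK * (δ * a) = KK * δ * a := by ring
        _ ≤ 1 / 16 * a := mul_le_mul_of_nonneg_right h2 haP.le
        _ = a / 16 := by ring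
    have u6 : C3 * CF * (κ * a) ≤ a / 16 := by
      have h1 : C3 * CF * κ ≤ 1 / 16 := by
        rw [hκ, mul_one_div, div_le_div_iff₀ (by positivity) (by norm_num)]
        linarith only []
      calc C3 * CF * (κ * a) = C3 * CF * κ * a := by ring
        _ ≤ 1 / 16 * a := mul_le_mul_of_nonneg_right h1 haP.le
        _ = a / 16 := by ring
    have u7 : KK * (δ * a) = K1 * (δ * a) + CL * (δ * a) + 5 * (C3 * CF) * (δ * a) +
        C2 * CU * G * (δ * a) + δ * a := by rw [hKK]; ring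
    have u8 : 0 ≤ δ * a := by (clear * - hδ1 hCP hN2 hC8 hCL hC3 hCF hC2 hCU haP; positivity)
    have u9 : a / 16 ≤ C2 * CU * m0 := by linarith only [haP, hdP, hX0, u1, u2, u3, u4, u5, u6]
    linarith only [haP, hdP, hX0, u1, u2, u3, u4, u5, u6]
  exact hfin

end TG


end

section

/-!
# Trace inequality, general operators: MODULE T2, light cells below a flat top
-/

open MeasureTheory Metric Set TrI
open scoped InnerProductSpace ContDiff ENNReal

namespace TG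

namespace T2

noncomputable section

set_option linter.unusedSectionVars false

variable {d : ℕ}

/-! ## heights and feet -/

lemma ht_lip {ν : Sp d} (hν : ‖ν‖ = 1) (c : ℝ) (x y : Sp d) :
    |ht ν c x| ≤ |ht ν c y| + ‖x - y‖ := by
  have h1 : ht ν c x = ht ν c y + ⟪ν, x - y⟫_ℝ := by
    unfold ht
    rw [inner_sub_right]
    ring
  rw [h1]
  refine (abs_add_le _ _).trans ?_
  have := abs_real_inner_le_norm ν (x - y)
  rw [hν, one_mul] at this
  linarith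

/-- the foot of the perpendicular -/
lemma foot {ν : Sp d} (hν : ‖ν‖ = 1) (c : ℝ) (x : Sp d) :
    ht ν c (x - ht ν c x • ν) = 0 ∧ ‖(x - ht ν c x • ν) - x‖ = |ht ν c x| := by
  constructor
  · unfold ht
    rw [inner_sub_right, inner_smul_right, real_inner_self_eq_norm_sq, hν]
    ring
  · rw [sub_sub_cancel_left, norm_neg, norm_smul, hν, mul_one, Real.norm_eq_abs]

section Flds

variable {E : Type} [NormedAddCommGroup E] [InnerProductSpace ℝ E] [FiniteDimensional ℝ E]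

/-- what the uniform sheet says on cells whose centre is near the plane -/
lemma near_cell {b : Sp d → ℝ} (hb : AK b) {ε s0 R0 cu : ℝ} (hs : 0 < s0) (hR0 : 400 + 8 * d ≤ R0)
    {f : Sp d → E} (hf : Continuous f) (hc : HasCompactSupport f) {ν : Sp d} (hν : ‖ν‖ = 1)
    {c : ℝ} {P : Cell d} {A : ℝ} {n0 : ℕ}
    (hT : ∀ y : Sp d, ht ν c y = 0 → ‖y - xC s0 P‖ ≤ 64 * R0 * lev s0 P.1 →
      ∀ i ≤ n0, i ≤ P.1 → cu * A ≤ lev s0 (P.1 - i) / lev s0 (P.1 - i) ^ d *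
          ∫ z in ball y (16 * R0 * lev s0 (P.1 - i)), ‖fl b ε s0 f (P.1 - i - 1) z‖)
    {i : ℕ} (hi : i ≤ n0) (hiP : i ≤ P.1) {Q : Cell d} (hQ : Q ∈ dn i P)
    (hlt : |ht ν c (xC s0 Q)| < 16 * R0 * lev s0 Q.1) :
    cu * A ≤ mC b ε (32 * R0) s0 f Q := by
  have hd0 : (0 : ℝ) ≤ d := Nat.cast_nonneg d
  have hR1 : 0 < R0 := by linarith
  have hlQ := lev_pos hs Q.1
  have hlP := lev_pos hs P.1
  have hQ1 := CT1.lvl_dn hQ
  have hle : lev s0 Q.1 ≤ lev s0 P.1 := by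
    rw [hQ1]
    exact CT1.MAlev hs (by omega)
  have hx := CT1.cen_sub_dn hs hiP hQ
  obtain ⟨f1, f2⟩ := foot hν c (xC s0 Q)
  set y := xC s0 Q - ht ν c (xC s0 Q) • ν with hy
  have hsd : Real.sqrt d ≤ R0 := by
    rw [Real.sqrt_le_left (by linarith only [hR0])]
    nlinarith only [hR0]
  have h1 : ‖y - xC s0 P‖ ≤ 64 * R0 * lev s0 P.1 := by
    have h2 : y - xC s0 P = (y - xC s0 Q) + (xC s0 Q - xC s0 P) := by abel
    rw [h2]
    refine (norm_add_le _ _).trans ?_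
    rw [f2]
    have h3 : Real.sqrt d * lev s0 P.1 ≤ R0 * lev s0 P.1 :=
      mul_le_mul_of_nonneg_right hsd hlP.le
    have h4 : 16 * R0 * lev s0 Q.1 ≤ 16 * R0 * lev s0 P.1 :=
      mul_le_mul_of_nonneg_left hle (by linarith)
    nlinarith only [hlt, hlQ, hx, h3, h4, hR0]
  have h5 := hT y f1 h1 i hi hiP
  rw [← hQ1] at h5
  refine h5.trans ?_
  unfold mC ma
  refine mul_le_mul_of_nonneg_left ?_ (by positivity)
  refine setIntegral_mono_set ?_ ?_ ?_
  · exact ((fl_cont hb ε s0 hf _).norm.integrable_of_hasCompactSupport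
      (fl_cs hb ε s0 hc _).norm).integrableOn
  · exact Filter.Eventually.of_forall fun y => norm_nonneg _
  · refine (ball_subset_ball' ?_).eventuallyLE
    rw [dist_eq_norm, f2]
    linarith only [hlt]

/-- (III.2): the centres of the light cells are far from the plane -/
lemma far_cells {b : Sp d → ℝ} (hb : AK b) {ε s0 R0 cu : ℝ} (hs : 0 < s0)
    (hR0 : 400 + 8 * d ≤ R0)
    {f : Sp d → E} (hf : Continuous f) (hc : HasCompactSupport f) {ν : Sp d} (hν : ‖ν‖ = 1)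
    {c : ℝ} {P : Cell d} {n0 : ℕ} (hP : 0 < mT b ε s0 f P)
    (hT : ∀ y : Sp d, ht ν c y = 0 → ‖y - xC s0 P‖ ≤ 64 * R0 * lev s0 P.1 →
      ∀ i ≤ n0, i ≤ P.1 → cu * mT b ε s0 f P ≤ lev s0 (P.1 - i) / lev s0 (P.1 - i) ^ d *
          ∫ z in ball y (16 * R0 * lev s0 (P.1 - i)), ‖fl b ε s0 f (P.1 - i - 1) z‖)
    {γ θ' θ : ℝ} (hγ : 0 < γ) (hn0 : (1 + 32 * R0) ^ (d + 2) * (2 : ℝ) ^ (-(γ * n0)) < cu)
    (hθ : θ < cu) (hθ0 : 0 < θ) (hθ' : θ' ≤ θ)
    {i : ℕ} (hiP : i ≤ P.1) {Q : Cell d} (hQ : Q ∈ dn i P)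
    (hTop : Top γ θ' (mC b ε (32 * R0) s0 f) (mT b ε s0 f) i Q) :
    (i ≤ n0 → 16 * R0 * lev s0 Q.1 ≤ |ht ν c (xC s0 Q)|) ∧
    (n0 < i → 16 * R0 * lev s0 (P.1 - n0) ≤ |ht ν c (xC s0 (up (i - n0) Q))|) := by
  have hd0 : (0 : ℝ) ≤ d := Nat.cast_nonneg d
  have hup := (mem_dn hiP).1 hQ
  obtain ⟨t1, t2⟩ := hTop
  rw [hup] at t1 t2
  have hpow : ∀ i : ℕ, (2 : ℝ) ^ (-(γ * i)) ≤ 1 := by
    intro i
    apply Real.rpow_le_one_of_one_le_of_nonpos (by norm_num)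
    have : 0 ≤ γ * i := by positivity
    linarith
  have hpos : ∀ i : ℕ, (0 : ℝ) < (2 : ℝ) ^ (-(γ * i)) := fun i => by positivity
  constructor
  · intro hi
    by_contra hcon
    push Not at hcon
    have h1 := near_cell (cu := cu) (A := mT b ε s0 f P) hb hs hR0 hf hc hν hT hi hiP hQ hcon
    have h2 : θ' * ((2 : ℝ) ^ (-(γ * i)) * mT b ε s0 f P) ≤
        θ * ((2 : ℝ) ^ (-(γ * i)) * mT b ε s0 f P) :=
      mul_le_mul_of_nonneg_right hθ' (mul_nonneg (hpos i).le hP.le)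
    have h3 : (2 : ℝ) ^ (-(γ * i)) * mT b ε s0 f P ≤ 1 * mT b ε s0 f P :=
      mul_le_mul_of_nonneg_right (hpow i) hP.le
    have h4 := mul_le_mul_of_nonneg_left h3 hθ0.le
    have h5 : θ * (1 * mT b ε s0 f P) < cu * mT b ε s0 f P := by
      rw [one_mul]
      exact mul_lt_mul_of_pos_right hθ hP
    linarith
  · intro hi
    by_contra hcon
    push Not at hcon
    have hQ1 := CT1.lvl_dn hQ
    set Q' := up (i - n0) Q with hQ'
    have hQ'1 : Q'.1 = P.1 - n0 := by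
      rw [hQ', up_fst, hQ1]
      omega
    have hQ'd : Q' ∈ dn n0 P := by
      rw [mem_dn (by omega), hQ', up_up, show i - n0 + n0 = i by omega]
      exact hup
    rw [← hQ'1] at hcon
    have h1 := near_cell (cu := cu) (A := mT b ε s0 f P) hb hs hR0 hf hc hν hT le_rfl
      (by omega) hQ'd hcon
    have h2 := CT1.mC_le_mT hb (ε := ε) (R := 32 * R0) (by linarith only [hR0]) hs hf hc Q'
    have h3 := t1 (i - n0)
    have h4 : mT b ε s0 f Q' ≤ (2 : ℝ) ^ (-(γ * n0)) * mT b ε s0 f P := by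
      have h5 : (2 : ℝ) ^ (-(γ * i)) = (2 : ℝ) ^ (-(γ * ((i - n0 : ℕ) : ℝ))) *
          (2 : ℝ) ^ (-(γ * n0)) := by
        rw [← Real.rpow_add (by norm_num)]
        congr 1
        rw [Nat.cast_sub hi.le]
        ring
      rw [h5, mul_assoc] at h3
      exact le_of_mul_le_mul_left h3 (hpos _)
    have h6 : (0 : ℝ) ≤ (1 + 32 * R0) ^ (d + 2) := by
      have : 0 ≤ 1 + 32 * R0 := by linarith only [hR0]
      (clear * - this; positivity)
    have h7 := mul_le_mul_of_nonneg_left h4 h6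
    have h8 := mul_lt_mul_of_pos_right hn0 hP
    have h9 : (1 + 32 * R0) ^ (d + 2) * ((2 : ℝ) ^ (-(γ * n0)) * mT b ε s0 f P) =
      (1 + 32 * R0) ^ (d + 2) * (2 : ℝ) ^ (-(γ * n0)) * mT b ε s0 f P := by ring
    linarith only [h1, h2, h7, h8]

/-! ## cells near the level of the top -/

lemma TFn_zero : TFn 2 0 (fun _ : Sp d => (0 : ℝ)) where
  smooth := contDiff_const
  bd := by
    intro j _ x
    rw [show (fun _ : Sp d => (0 : ℝ)) = 0 from rfl]
    simp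

lemma TFn_sum {ι : Type} (S : Finset ι) (g : ι → Sp d → ℝ) {N : ℝ}
    (h : ∀ i ∈ S, TFn 2 N (g i)) : TFn 2 (S.card * N) (fun y => ∑ i ∈ S, g i y) := by
  classical
  induction S using Finset.induction_on with
  | empty =>
    simp only [Finset.card_empty, Nat.cast_zero, zero_mul, Finset.sum_empty]
    exact TFn_zero
  | insert a S ha ih =>
    have h1 := TU.TFn_add (h a (Finset.mem_insert_self a S))
      (ih fun i hi => h i (Finset.mem_insert_of_mem hi))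
    have h2 : (fun y => ∑ i ∈ insert a S, g i y) = fun y => g a y + ∑ i ∈ S, g i y := by
      funext y
      rw [Finset.sum_insert ha]
    rw [h2, Finset.card_insert_of_notMem ha]
    have h3 : (((S.card + 1 : ℕ) : ℝ)) * N = N + S.card * N := by
      push_cast
      ring
    rw [h3]
    exact h1

lemma cs_comp_aff {g : Sp d → ℝ} (hg : Continuous g) (a : Sp d) {r : ℝ} {F : Sp d → E}
    (hF : Continuous F) (hc : HasCompactSupport F) (e : E) :
    Integrable fun w => ⟪F w, e⟫_ℝ * g (a + r • w) := by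
  refine Continuous.integrable_of_hasCompactSupport
    ((hF.inner continuous_const).mul (hg.comp (by fun_prop))) ?_
  exact (hc.comp_left (g := fun v : E => ⟪v, e⟫_ℝ) (inner_zero_left _)).mul_right

lemma nearA (hd : 1 ≤ d) {b : Sp d → ℝ} {M c0 ε : ℝ} (hb : BaseKer 2 M c0 b) {CZ CM : ℝ}
    (hCM : 0 < CM)
    (hZ : ∀ f : Sp d → E, Continuous f → HasCompactSupport f → ∀ (R : ℝ), 3 ≤ R →
      ∀ (n : ℕ) (e : E), ‖e‖ = 1 → ∀ (x : Sp d) (H : Sp d → ℝ) (N : ℝ), TFn 2 N H →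
      (∀ y, 0 ≤ H y) → (∀ y, R - 2 ≤ ‖y - x‖ → H y = 0) →
      -(CZ * N * DD b ε R ((1 / 2) ^ n) f n x e) ≤ ∫ y, ⟪f y, e⟫_ℝ * H y)
    (hMA : ∀ f : Sp d → E, Continuous f → HasCompactSupport f → ∀ (R : ℝ), 5 ≤ R →
      ∀ (n : ℕ) (e : E), ‖e‖ = 1 → ∀ (x : Sp d) (S : Set (Sp d)), MeasurableSet S →
      ∀ (H : Sp d → ℝ) (N h0 : ℝ), 0 < h0 → TFn 2 N H → (∀ y, 0 ≤ H y) →
        (∀ y, R - 2 ≤ ‖y - x‖ → H y = 0) → (∀ y z, y ∈ S → ‖z - y‖ ≤ 2 → h0 ≤ H z) →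
        h0 * (∫ y in S, ‖fl b ε ((1 / 2) ^ n) f (n - 1) y‖) ≤
          (∫ y, ⟪f y, e⟫_ℝ * H y) + CM * N * DD b ε R ((1 / 2) ^ n) f n x e)
    {R0 N2 N5 : ℝ} (hR0 : 400 + 8 * d ≤ R0)
    (hN2 : ∀ (ν : Sp d) (c : ℝ), ‖ν‖ = 1 → |c| ≤ R0 + 1 → TFn 2 N2 (CT5.gq R0 ν c))
    (hN5 : TFn 2 N5 (zR (R0 + 5) : Sp d → ℝ))
    {R : ℝ} (hR : 3 * R0 + 20 ≤ R) {f : Sp d → E} (hf : Continuous f) (hfc : HasCompactSupport f)
    {s0 : ℝ} (hs : 0 < s0) {e : E} (he : ‖e‖ = 1) {ν : Sp d} (hν : ‖ν‖ = 1) {c : ℝ}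
    (i : ℕ) {P : Cell d} (hi : i ≤ P.1)
    (hloc : |ht ν c (xC s0 (up 9 P))| ≤ (R0 + 1) * lev s0 (P.1 + 9))
    (S : Finset (Cell d)) (hS : S ⊆ dn i P)
    (hfar : ∀ Q ∈ S, 16 * R0 * lev s0 Q.1 ≤ |ht ν c (xC s0 Q)|) :
    ∑ Q ∈ S, cw s0 Q * mC b ε (R0 + 3) s0 f Q ≤
      cw s0 (up 9 P) * (((2 ^ i) ^ d : ℕ) * (2 ^ (i + 9)) ^ 2 *
          bb R0 s0 f (P.1 + 9) (xC s0 (up 9 P)) e ν c +
        CZ * (|(((2 ^ i) ^ d : ℕ) : ℝ) * (2 ^ (i + 9)) ^ 2| * N2 +
          ((2 ^ i) ^ d : ℕ) * (max 1 |(2 : ℝ) ^ (i + 9)| ^ 2 * N5)) *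
          DD b ε R s0 f (P.1 + 9) (xC s0 (up 9 P)) e) +
      ((2 ^ i) ^ d : ℕ) * (cw s0 P * (CM * N5 * ((2 ^ (i + 9)) ^ d / 2 ^ (i + 9) * 4 ^ (i + 9) *
        DD b ε R s0 f (P.1 + 9) (xC s0 (up 9 P)) e))) := by
  classical
  have hd0 : (0 : ℝ) ≤ d := Nat.cast_nonneg d
  have hR1 : 0 < R0 := by linarith
  set m := i + 9 with hm
  set x9 := xC s0 (up 9 P) with hx9
  set T := lev s0 (P.1 + 9) with hT
  set t := lev s0 (P.1 - i) with ht1
  set Nc : ℝ := (((2 ^ i) ^ d : ℕ) : ℝ) with hNc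
  set CA : ℝ := Nc * (2 ^ m) ^ 2 with hCA
  set DD9 := DD b ε R s0 f (P.1 + 9) x9 e with hDD9
  have hDD0 : 0 ≤ DD9 := TU.DD_nonneg b ε R hs f _ _ he
  have hT0 : 0 < T := lev_pos hs _
  have ht0 : 0 < t := lev_pos hs _
  have hlv : P.1 - i + m = P.1 + 9 := by omega
  have hTt : T = 2 ^ m * t := by
    rw [hT, ← hlv, lev_add]
  have hQ1 : ∀ Q ∈ S, Q.1 = P.1 - i := fun Q hQ => CT1.lvl_dn (hS hQ)
  have hup : ∀ Q ∈ S, up m Q = up 9 P := by
    intro Q hQ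
    have h1 := (mem_dn hi).1 (hS hQ)
    rw [← h1, up_up]
  have hxQ : ∀ Q ∈ S, ‖x9 - xC s0 Q‖ ≤ Real.sqrt d * T := by
    intro Q hQ
    have h1 := CT1.cen_sub_up hs m Q
    rw [hup Q hQ, hQ1 Q hQ, hlv, norm_sub_rev] at h1
    exact h1
  have hsd : Real.sqrt d ≤ R0 / 8 := by
    rw [Real.sqrt_le_left (by linarith only [hR0])]
    nlinarith only [hR0]
  have hsd0 := Real.sqrt_nonneg (d : ℝ)
  have h2m : (512 : ℝ) ≤ 2 ^ m := by
    rw [hm, pow_add]
    have : (1 : ℝ) ≤ 2 ^ i := one_le_pow₀ (by norm_num)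
    norm_num
    linarith only [this]
  have hN5' := TU.TFn_nonneg hN5
  have hcard : (S.card : ℝ) ≤ Nc := by
    rw [hNc, ← card_dn i P]
    exact_mod_cast Finset.card_le_card hS
  have hcwP := cw_nonneg hs P
  set K : ℝ := (2 ^ m) ^ d / 2 ^ m * 4 ^ m with hK
  have hK0 : 0 ≤ K := by positivity
  -- step 1: the masses
  have step1 : ∀ Q ∈ S, cw s0 Q * mC b ε (R0 + 3) s0 f Q ≤
      (∫ y, ⟪f y, e⟫_ℝ * zR (R0 + 5) ((1 / t) • (y - xC s0 Q))) +
        cw s0 P * (CM * N5 * (K * DD9)) := by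
    intro Q hQ
    have hQ1' := hQ1 Q hQ
    have htQ : lev s0 Q.1 = t := by rw [hQ1']
    have hfc' := CT5.rs_cs hfc (xC s0 Q) (t := lev s0 Q.1) (by rw [htQ]; exact ht0)
    have hf' := CT5.rs_cont hf (xC s0 Q) (lev s0 Q.1)
    have h1 := hMA (rs (xC s0 Q) (lev s0 Q.1) f) hf' hfc' R (by linarith) Q.1 e he 0
      (ball (0 : Sp d) (R0 + 3)) measurableSet_ball (zR (R0 + 5)) N5 1 one_pos hN5
      (TU.zR_nonneg (R0 + 5))
      (fun y hy => TU.zR_zero (by rw [sub_zero] at hy; linarith))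
      (fun y z hy hz => by
        have h2 := norm_add_le (z - y) y
        rw [sub_add_cancel] at h2
        have h3 := mem_ball_zero_iff.1 hy
        rw [TU.zR_one (by linarith only [hz, h2, h3])])
    rw [CT5.DD_fr b ε R hs f Q.1 (xC s0 Q) e, ← CT5.ma_u, CT5.ma_fr b ε (R0 + 3) hs f,
      one_mul] at h1
    have hB : ball (xC s0 Q) (R * lev s0 Q.1) ⊆ ball x9 (R * lev s0 (Q.1 + m)) := by
      refine ball_subset_ball' ?_
      rw [dist_comm, dist_eq_norm, hQ1', hlv, ← hT, ← ht1]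
      have h2 := hxQ Q hQ
      have h3 : Real.sqrt d * T ≤ R0 / 8 * T := mul_le_mul_of_nonneg_right hsd hT0.le
      have h4 : t ≤ T / 2 := by rw [hTt]; nlinarith
      have h5 : R * t ≤ R * (T / 2) := mul_le_mul_of_nonneg_left h4 (by linarith only [hR0, hR])
      nlinarith only [h2, h3, h5, hT0, hR0, hR]
    have h2 := CT5.DD_mono hb ε hf hfc hs Q.1 m hB he
    have h2' : DD b ε R s0 f Q.1 (xC s0 Q) e ≤ K * DD9 := by
      refine h2.trans (le_of_eq ?_)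
      rw [hDD9, hQ1', hlv]
    have h3 : ∫ y, ⟪rs (xC s0 Q) (lev s0 Q.1) f y, e⟫_ℝ * zR (R0 + 5) y =
        nw s0 Q * ∫ y, ⟪f y, e⟫_ℝ * zR (R0 + 5) ((1 / t) • (y - xC s0 Q)) := by
      have h4 := TU.frame_int f e (xC s0 Q) (t := lev s0 Q.1) (by rw [htQ]; exact ht0)
        (fun y => zR (R0 + 5) ((1 / t) • (y - xC s0 Q)))
      unfold nw
      rw [← h4]
      congr 1
      ext y
      have e1 : (1 / t) • (xC s0 Q + lev s0 Q.1 • y - xC s0 Q) = y := by
        rw [htQ, add_sub_cancel_left, smul_smul, one_div, inv_mul_cancel₀ ht0.ne', one_smul]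
      simp only [e1]
    have hcw := cw_nonneg hs Q
    have h5 := mul_le_mul_of_nonneg_left h1 hcw
    rw [h3, mul_add, ← mul_assoc, CT1.cw_nw hd hs, one_mul] at h5
    refine h5.trans (add_le_add le_rfl ?_)
    have h6 : cw s0 Q ≤ cw s0 P := by
      unfold cw
      refine pow_le_pow_left₀ (lev_pos hs _).le ?_ _
      rw [hQ1']
      exact CT1.MAlev hs (by omega)
    have h7 : CM * N5 * DD b ε R s0 f Q.1 (xC s0 Q) e ≤ CM * N5 * (K * DD9) :=
      mul_le_mul_of_nonneg_left h2' (by positivity)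
    exact mul_le_mul h6 h7 (mul_nonneg (by positivity) (TU.DD_nonneg b ε R hs f _ _ he)) hcwP
  -- step 3: Lemma Z in the frame of the ninth ancestor
  set γ9 := -(ht ν c x9 / T) with hγ9
  have hγ1 : |γ9| ≤ R0 + 1 := by
    rw [hγ9, abs_neg, abs_div, abs_of_pos hT0, div_le_iff₀ hT0]
    exact hloc
  set F9 := rs x9 T f with hF9
  have hFc : Continuous F9 := CT5.rs_cont hf x9 T
  have hFs : HasCompactSupport F9 := CT5.rs_cs hfc x9 hT0
  have hpt : ∀ (Q : Cell d) (w : Sp d), (1 / t) • (x9 + T • w - xC s0 Q) =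
      (1 / t) • (x9 - xC s0 Q) + (2 : ℝ) ^ m • w := by
    intro Q w
    rw [add_sub_right_comm, smul_add, smul_smul, hTt]
    congr 2
    field_simp
  have h1 := hN2 ν γ9 hν hγ1
  have h2 : TFn 2 (Nc * (max 1 |(2 : ℝ) ^ m| ^ 2 * N5))
      (fun w => ∑ Q ∈ S, zR (R0 + 5) ((1 / t) • (x9 - xC s0 Q) + (2 : ℝ) ^ m • w)) :=
    TU.TFn_mono (TFn_sum S (fun Q w => zR (R0 + 5) ((1 / t) • (x9 - xC s0 Q) + (2 : ℝ) ^ m • w))
      fun Q _ => TU.TFn_aff hN5 _ (by positivity)) le_rfl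
      (mul_le_mul_of_nonneg_right hcard (by positivity))
  have h3 := TU.TFn_sub (TU.TFn_const_mul h1 CA) h2
  have hCA0 : 0 ≤ CA := by positivity
  have hnn : ∀ w : Sp d, 0 ≤ CA * CT5.gq R0 ν γ9 w -
      ∑ Q ∈ S, zR (R0 + 5) ((1 / t) • (x9 - xC s0 Q) + (2 : ℝ) ^ m • w) := by
    intro w
    by_cases hex : ∃ Q ∈ S, ‖(1 / t) • (x9 - xC s0 Q) + (2 : ℝ) ^ m • w‖ < R0 + 5 + 1
    · obtain ⟨Q, hQ, hlt⟩ := hex
      set y : Sp d := x9 + T • w with hy
      rw [← hpt Q w, ← hy, norm_smul, one_div, norm_inv, Real.norm_of_nonneg ht0.le,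
        inv_mul_lt_iff₀ ht0] at hlt
      have h5 := ht_lip hν c (xC s0 Q) y
      rw [norm_sub_rev] at h5
      have h6 := hfar Q hQ
      rw [hQ1 Q hQ, ← ht1] at h6
      have h7 : t ≤ |ht ν c y| := by nlinarith
      have h8 : ht ν c y / T = ht ν γ9 w := by
        have h9 := CT5.ht_div ν x9 y c hT0
        rw [h9, hγ9, hy, add_sub_cancel_left, smul_smul, one_div, inv_mul_cancel₀ hT0.ne',
          one_smul]
      have h10 : ‖w‖ ≤ R0 := by
        have h11 : ‖T • w‖ ≤ (R0 + 5 + 1) * t + Real.sqrt d * T := by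
          have h12 : T • w = (y - xC s0 Q) - (x9 - xC s0 Q) := by
            rw [hy]
            abel
          rw [h12]
          refine (norm_sub_le _ _).trans (add_le_add ?_ (hxQ Q hQ))
          linarith only [hlt]
        rw [norm_smul, Real.norm_of_nonneg hT0.le] at h11
        have h13 : (R0 + 5 + 1) * t ≤ R0 / 2 * T := by
          rw [hTt]
          have : (R0 + 5 + 1) * t ≤ (R0 / 2 * 2 ^ m) * t := by
            apply mul_le_mul_of_nonneg_right _ ht0.le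
            nlinarith only [hR0, h2m]
          linarith only [this]
        have h14 : Real.sqrt d * T ≤ R0 / 8 * T := mul_le_mul_of_nonneg_right hsd hT0.le
        have h15 : T * ‖w‖ ≤ T * R0 := by nlinarith only [hT0, h11, h13, h14, hR0]
        exact le_of_mul_le_mul_left h15 hT0
      have h16 : ∑ Q ∈ S, zR (R0 + 5) ((1 / t) • (x9 - xC s0 Q) + (2 : ℝ) ^ m • w) ≤ Nc := by
        refine (Finset.sum_le_sum fun Q _ => TU.zR_le_one _ _).trans ?_
        rw [Finset.sum_const, nsmul_eq_mul, mul_one]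
        exact hcard
      have h17 : Nc ≤ CA * CT5.gq R0 ν γ9 w := by
        unfold CT5.gq
        rw [TU.zR_one h10, one_mul, ← h8, hCA, mul_assoc]
        apply le_mul_of_one_le_right (by positivity)
        rw [← mul_pow]
        have h18 : (1 : ℝ) ≤ 2 ^ m * (|ht ν c y| / T) := by
          rw [mul_div_assoc', le_div_iff₀ hT0, one_mul, hTt]
          exact mul_le_mul_of_nonneg_left h7 (by positivity)
        have h19 : (2 ^ m * (ht ν c y / T)) ^ 2 = (2 ^ m * (|ht ν c y| / T)) ^ 2 := by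
          rw [mul_pow, mul_pow, div_pow, div_pow, sq_abs]
        rw [h19]
        exact one_le_pow₀ h18
      linarith
    · push Not at hex
      rw [Finset.sum_eq_zero fun Q hQ => TU.zR_zero (hex Q hQ), sub_zero]
      exact mul_nonneg hCA0 (CT5.gq_nonneg _ _ _ _)
  have hout : ∀ w : Sp d, R - 2 ≤ ‖w - 0‖ → CA * CT5.gq R0 ν γ9 w -
      ∑ Q ∈ S, zR (R0 + 5) ((1 / t) • (x9 - xC s0 Q) + (2 : ℝ) ^ m • w) = 0 := by
    intro w hw
    rw [sub_zero] at hw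
    rw [CT5.gq_zero ν γ9 (by linarith only [hR0, hR, hw]), mul_zero, zero_sub, neg_eq_zero]
    apply Finset.sum_eq_zero
    intro Q hQ
    apply TU.zR_zero
    have h4 := norm_sub_norm_le ((2 : ℝ) ^ m • w) (-((1 / t) • (x9 - xC s0 Q)))
    rw [norm_smul, norm_neg, sub_neg_eq_add, Real.norm_of_nonneg (by positivity),
      add_comm _ ((1 / t) • (x9 - xC s0 Q))] at h4
    have h5 : ‖(1 / t) • (x9 - xC s0 Q)‖ ≤ R0 / 8 * 2 ^ m := by
      rw [norm_smul, one_div, norm_inv, Real.norm_of_nonneg ht0.le, inv_mul_le_iff₀ ht0]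
      refine (hxQ Q hQ).trans ?_
      rw [hTt]
      have := mul_le_mul_of_nonneg_right hsd (by positivity : (0 : ℝ) ≤ 2 ^ m * t)
      linarith
    have h6 : R0 + 5 + 1 ≤ 2 ^ m * ‖w‖ - R0 / 8 * 2 ^ m := by
      have h7 : 2 ^ m * (2 * R0) ≤ 2 ^ m * ‖w‖ :=
        mul_le_mul_of_nonneg_left (by linarith) (by positivity)
      nlinarith only [hR0, h2m, h7]
    linarith only [h4, h5, h6]
  have key := hZ F9 hFc hFs R (by linarith) (P.1 + 9) e he 0 _ _ h3 hnn hout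
  rw [CT5.DD_fr b ε R hs f (P.1 + 9) x9 e] at key
  have i1 : Integrable fun w => ⟪F9 w, e⟫_ℝ * CT5.gq R0 ν γ9 w :=
    CT5.gq_int hR1 hFc hFs e ν γ9
  have hzc : Continuous (zR (R0 + 5) : Sp d → ℝ) := hN5.smooth.continuous
  have i2 : ∀ Q : Cell d, Integrable fun w => ⟪F9 w, e⟫_ℝ *
      zR (R0 + 5) ((1 / t) • (x9 - xC s0 Q) + (2 : ℝ) ^ m • w) :=
    fun Q => cs_comp_aff hzc _ hFc hFs e
  have e1 : ∫ w, ⟪F9 w, e⟫_ℝ * CT5.gq R0 ν γ9 w = bb R0 s0 f (P.1 + 9) x9 e ν c := by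
    rw [CT5.bb_fr R0 hs f (P.1 + 9) x9 e ν c]
    rfl
  have e2 : ∀ Q : Cell d, ∫ w, ⟪F9 w, e⟫_ℝ *
      zR (R0 + 5) ((1 / t) • (x9 - xC s0 Q) + (2 : ℝ) ^ m • w) =
      T / T ^ d * ∫ y, ⟪f y, e⟫_ℝ * zR (R0 + 5) ((1 / t) • (y - xC s0 Q)) := by
    intro Q
    rw [← TU.frame_int f e x9 hT0]
    simp only [hpt]
    rfl
  have e4 : ∫ w, ⟪F9 w, e⟫_ℝ * (CA * CT5.gq R0 ν γ9 w -
      ∑ Q ∈ S, zR (R0 + 5) ((1 / t) • (x9 - xC s0 Q) + (2 : ℝ) ^ m • w)) =
      CA * bb R0 s0 f (P.1 + 9) x9 e ν c -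
        T / T ^ d * ∑ Q ∈ S, ∫ y, ⟪f y, e⟫_ℝ * zR (R0 + 5) ((1 / t) • (y - xC s0 Q)) := by
    rw [← e1, Finset.mul_sum, ← Finset.sum_congr rfl fun Q _ => e2 Q,
      ← integral_finsetSum _ fun Q _ => i2 Q, ← integral_const_mul,
      ← integral_sub (i1.const_mul _) (integrable_finsetSum _ fun Q _ => i2 Q)]
    congr 1
    ext w
    rw [mul_sub, Finset.mul_sum]
    ring
  rw [e4] at key
  have hcw9 := cw_nonneg hs (up 9 P)
  have hcn : cw s0 (up 9 P) * (T / T ^ d) = 1 := CT1.cw_nw hd hs (up 9 P)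
  have step3 : ∑ Q ∈ S, ∫ y, ⟪f y, e⟫_ℝ * zR (R0 + 5) ((1 / t) • (y - xC s0 Q)) ≤
      cw s0 (up 9 P) * (CA * bb R0 s0 f (P.1 + 9) x9 e ν c +
        CZ * (|CA| * N2 + Nc * (max 1 |(2 : ℝ) ^ m| ^ 2 * N5)) * DD9) := by
    have h4 : T / T ^ d * ∑ Q ∈ S, ∫ y, ⟪f y, e⟫_ℝ * zR (R0 + 5) ((1 / t) • (y - xC s0 Q)) ≤
        CA * bb R0 s0 f (P.1 + 9) x9 e ν c +
        CZ * (|CA| * N2 + Nc * (max 1 |(2 : ℝ) ^ m| ^ 2 * N5)) * DD9 := by
      linarith only [key]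
    have h5 := mul_le_mul_of_nonneg_left h4 hcw9
    rw [← mul_assoc, hcn, one_mul] at h5
    exact h5
  refine (Finset.sum_le_sum step1).trans ?_
  rw [Finset.sum_add_distrib, Finset.sum_const, nsmul_eq_mul]
  refine add_le_add step3 ?_
  exact mul_le_mul_of_nonneg_right hcard (by (clear * - hcwP hCM hN5' hDD0; positivity))

/-! ## cells far below the top -/

lemma overlap_S (ν : Measure (Sp d)) {s0 ρ : ℝ} (hs : 0 < s0) (hρ : 0 ≤ ρ) {i : ℕ} {P : Cell d}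
    (S : Finset (Cell d)) (hS : S ⊆ dn i P) {g : Sp d → ℝ} {A : Set (Sp d)}
    (hA : MeasurableSet A) (hg : IntegrableOn g A ν) (h0 : ∀ y, 0 ≤ g y)
    (hsub : ∀ Q ∈ S, ball (xC s0 Q) (ρ * lev s0 Q.1) ⊆ A) :
    ∑ Q ∈ S, ∫ y in ball (xC s0 Q) (ρ * lev s0 Q.1), g y ∂ν ≤
      (2 * ρ + 1) ^ d * ∫ y in A, g y ∂ν := by
  classical
  have hQ1 : ∀ Q ∈ S, Q.1 = P.1 - i := fun Q hQ => CT1.lvl_dn (hS hQ)
  have h1 : ∑ Q ∈ S, ∫ y in ball (xC s0 Q) (ρ * lev s0 Q.1), g y ∂ν =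
      ∑ p ∈ S.image Prod.snd,
        ∫ y in ball (lev s0 (P.1 - i) • lat p) (ρ * lev s0 (P.1 - i)), g y ∂ν := by
    rw [Finset.sum_image]
    · refine Finset.sum_congr rfl fun Q hQ => ?_
      unfold xC cen
      rw [hQ1 Q hQ]
    · intro Q hQ Q' hQ' he
      exact Prod.ext ((hQ1 Q hQ).trans (hQ1 Q' hQ').symm) he
  rw [h1]
  refine CT1.overlap ν (lev s0 (P.1 - i)) ρ (lev_pos hs _) hρ _ hA hg h0 ?_
  intro p hp
  obtain ⟨Q, hQ, rfl⟩ := Finset.mem_image.1 hp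
  have h2 := hsub Q hQ
  unfold xC cen at h2
  rw [hQ1 Q hQ] at h2
  exact h2

lemma meas_U (s0 : ℝ) (S : Finset (Cell d)) (r : ℝ) :
    MeasurableSet (⋃ Q ∈ S, ball (xC s0 Q) r) :=
  S.measurableSet_biUnion fun _ _ => measurableSet_ball

/-- one step of the transfer of a union of balls -/
lemma stepU {b : Sp d → ℝ} (hb : AK b) (hev : ∀ x, b (-x) = b x)
    (hρ : ∀ x, 1 / 2 ≤ ‖x‖ → b x = 0) {ε s0 : ℝ}
    (hε : 0 < ε) (hε1 : ε ≤ 1) (hs : 0 < s0) {f : Sp d → E} (hf : Continuous f)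
    (hc : HasCompactSupport f) (S : Finset (Cell d)) (r : ℝ) (j : ℕ) :
    ∫ y in ⋃ Q ∈ S, ball (xC s0 Q) r, ‖fl b ε s0 f j y‖ ≤
      (∫ y in ⋃ Q ∈ S, ball (xC s0 Q) (r + lev s0 j), ‖fl b ε s0 f (j + 1) y‖) +
        ∫ y in ⋃ Q ∈ S, ball (xC s0 Q) (r + lev s0 j), gm b ε s0 f j y := by
  have hl := lev_pos hs j
  have hl1 := lev_succ s0 j
  have hs' : 0 < ε * lev s0 (j + 1) := mul_pos hε (lev_pos hs _)
  have hn : Continuous (fun y => ‖fl b ε s0 f j y‖) := (fl_cont hb ε s0 hf j).norm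
  have h1 := hb.setInt_le_avk hev hρ (LB.of_cont hn) (fl_cs hb ε s0 hc j).norm
    (fun _ => norm_nonneg _) hs' (E := ⋃ Q ∈ S, ball (xC s0 Q) r)
    (E' := ⋃ Q ∈ S, ball (xC s0 Q) (r + lev s0 j))
    (meas_U s0 S r) (meas_U s0 S _) (fun y hy z hz => by
      rw [Set.mem_iUnion₂] at hy ⊢
      obtain ⟨Q, hQ, hy⟩ := hy
      refine ⟨Q, hQ, ?_⟩
      rw [mem_ball] at hy ⊢
      have h2 := dist_triangle z y (xC s0 Q)
      rw [← dist_eq_norm] at hz
      have h3 : 1 / 2 * (ε * lev s0 (j + 1)) ≤ lev s0 j := by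
        rw [hl1]
        nlinarith only [hε1, hl]
      linarith)
  have i1 : Integrable (fun y => ‖fl b ε s0 f (j + 1) y‖) :=
    (fl_cont hb ε s0 hf (j + 1)).norm.integrable_of_hasCompactSupport (fl_cs hb ε s0 hc (j + 1)).norm
  have i2 : Integrable (gm b ε s0 f j) :=
    (CT1.gm_cont hb ε s0 hf j).integrable_of_hasCompactSupport (CT1.gm_cs hb ε s0 hc j)
  rw [← integral_add i1.integrableOn i2.integrableOn]
  refine h1.trans (le_of_eq ?_)
  congr 1
  funext y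
  unfold gm
  ring

/-- transfer of the mass of a union of balls between two levels -/
lemma transferU {b : Sp d → ℝ} (hb : AK b) (hev : ∀ x, b (-x) = b x)
    (hρ : ∀ x, 1 / 2 ≤ ‖x‖ → b x = 0) {ε s0 : ℝ}
    (hε : 0 < ε) (hε1 : ε ≤ 1) (hs : 0 < s0) {f : Sp d → E} (hf : Continuous f)
    (hc : HasCompactSupport f) (S : Finset (Cell d)) (r : ℝ) (l : ℕ) :
    ∀ (k : ℕ) (A : Set (Sp d)),
      (⋃ Q ∈ S, ball (xC s0 Q) (r + (lev s0 (l + k) - lev s0 l))) ⊆ A →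
    ∫ y in ⋃ Q ∈ S, ball (xC s0 Q) r, ‖fl b ε s0 f l y‖ ≤
      (∫ y in ⋃ Q ∈ S, ball (xC s0 Q) (r + (lev s0 (l + k) - lev s0 l)),
        ‖fl b ε s0 f (l + k) y‖) +
        ∑ j ∈ Finset.Ico l (l + k), ∫ y in A, gm b ε s0 f j y := by
  intro k
  induction k with
  | zero => intro A _; simp
  | succ k ih =>
    intro A hA
    have hl := lev_pos hs (l + k)
    have hl1 : lev s0 (l + (k + 1)) = 2 * lev s0 (l + k) := lev_succ s0 (l + k)
    have h1 := ih A (by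
      refine Subset.trans (Set.iUnion₂_mono fun Q _ => ball_subset_ball ?_) hA
      rw [hl1]
      linarith)
    have h2 := stepU hb hev hρ hε hε1 hs hf hc S (r + (lev s0 (l + k) - lev s0 l)) (l + k)
    have e1 : r + (lev s0 (l + k) - lev s0 l) + lev s0 (l + k) =
        r + (lev s0 (l + (k + 1)) - lev s0 l) := by rw [hl1]; ring
    rw [e1] at h2
    have h3 : ∫ y in ⋃ Q ∈ S, ball (xC s0 Q) (r + (lev s0 (l + (k + 1)) - lev s0 l)),
        gm b ε s0 f (l + k) y ≤ ∫ y in A, gm b ε s0 f (l + k) y := by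
      refine setIntegral_mono_set ?_ ?_ ?_
      · exact ((CT1.gm_cont hb ε s0 hf _).integrable_of_hasCompactSupport
          (CT1.gm_cs hb ε s0 hc _)).integrableOn
      · exact Filter.Eventually.of_forall fun y => CT1.gm_nonneg hb ε s0 f _ y
      · exact hA.eventuallyLE
    have e2 : l + (k + 1) = l + k + 1 := rfl
    have e3 : ∑ j ∈ Finset.Ico l (l + (k + 1)), ∫ y in A, gm b ε s0 f j y =
        (∑ j ∈ Finset.Ico l (l + k), ∫ y in A, gm b ε s0 f j y) +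
          ∫ y in A, gm b ε s0 f (l + k) y := by
      rw [e2, Finset.sum_Ico_succ_top (by omega)]
    rw [e3]
    have e4 : ∫ y in ⋃ Q ∈ S, ball (xC s0 Q) (r + (lev s0 (l + (k + 1)) - lev s0 l)),
        ‖fl b ε s0 f (l + (k + 1)) y‖ =
      ∫ y in ⋃ Q ∈ S, ball (xC s0 Q) (r + (lev s0 (l + (k + 1)) - lev s0 l)),
        ‖fl b ε s0 f (l + k + 1) y‖ := rfl
    rw [e4]
    linarith only [h1, h2, h3]

lemma union_le {ι : Type} (S : Finset ι) (B : ι → Set (Sp d)) (hB : ∀ Q, MeasurableSet (B Q))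
    {g : Sp d → ℝ} (hg : Integrable g) (h0 : ∀ y, 0 ≤ g y) :
    ∫ y in ⋃ Q ∈ S, B Q, g y ≤ ∑ Q ∈ S, ∫ y in B Q, g y := by
  classical
  induction S using Finset.induction_on with
  | empty => simp
  | insert a S ha ih =>
    rw [Finset.sum_insert ha, Finset.set_biUnion_insert]
    have hm : MeasurableSet (⋃ Q ∈ S, B Q) := S.measurableSet_biUnion fun Q _ => hB Q
    have h1 : B a ∪ (⋃ Q ∈ S, B Q) = B a ∪ ((⋃ Q ∈ S, B Q) \ B a) := Set.union_sdiff_self.symm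
    rw [h1, setIntegral_union disjoint_sdiff_right (hm.diff (hB a)) hg.integrableOn
      hg.integrableOn]
    have h2 : ∫ y in (⋃ Q ∈ S, B Q) \ B a, g y ≤ ∫ y in ⋃ Q ∈ S, B Q, g y :=
      setIntegral_mono_set hg.integrableOn (Filter.Eventually.of_forall fun y => h0 y)
        Set.sdiff_subset.eventuallyLE
    linarith

lemma farB (hd : 1 ≤ d) {b : Sp d → ℝ} (hb : AK b) (hev : ∀ x, b (-x) = b x)
    (hρ : ∀ x, 1 / 2 ≤ ‖x‖ → b x = 0) {ε s0 R0 : ℝ}
    (hε : 0 < ε) (hε1 : ε ≤ 1) (hs : 0 < s0) (hR0 : 400 + 8 * d ≤ R0)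
    {f : Sp d → E} (hf : Continuous f) (hc : HasCompactSupport f)
    {i n0 : ℕ} {P : Cell d} (hi : i ≤ P.1) (hn : n0 < i) (S : Finset (Cell d))
    (hS : S ⊆ dn i P) [DecidableEq (Cell d)] :
    ∑ Q ∈ S, cw s0 Q * mC b ε (R0 + 3) s0 f Q ≤
      (2 * (R0 + 3) + 1) ^ d * ((∑ Q ∈ S.image (up (i - n0)), cw s0 Q * mC b ε (R0 + 3) s0 f Q) +
        gC b ε (128 * R0) s0 f i P) := by
  have hd0 : (0 : ℝ) ≤ d := Nat.cast_nonneg d
  have hR1 : 0 < R0 := by linarith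
  have hsd : Real.sqrt d ≤ R0 / 8 := by
    rw [Real.sqrt_le_left (by linarith only [hR0])]
    nlinarith only [hR0]
  have hsd0 := Real.sqrt_nonneg (d : ℝ)
  have hQ1 : ∀ Q ∈ S, Q.1 = P.1 - i := fun Q hQ => CT1.lvl_dn (hS hQ)
  set t := lev s0 (P.1 - i) with ht1
  set t' := lev s0 (P.1 - n0) with ht'
  have ht0 : 0 < t := lev_pos hs _
  have ht0' : 0 < t' := lev_pos hs _
  have hlP := lev_pos hs P.1
  have htP : t' ≤ lev s0 P.1 := CT1.MAlev hs (by omega)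
  have hsucc : t' = 2 * lev s0 (P.1 - n0 - 1) := by
    rw [ht', show P.1 - n0 = P.1 - n0 - 1 + 1 by omega, lev_succ]
    simp
  have htt : t ≤ t' / 2 := by
    have h1 : t ≤ lev s0 (P.1 - n0 - 1) := CT1.MAlev hs (by omega)
    linarith only [hsucc, h1]
  obtain ⟨k, hk⟩ : ∃ k, P.1 - i - 1 + k = P.1 - n0 - 1 :=
    ⟨P.1 - n0 - 1 - (P.1 - i - 1), by omega⟩
  have hl0 := lev_pos hs (P.1 - i - 1)
  set g : Sp d → ℝ := fun y => ‖fl b ε s0 f (P.1 - i - 1) y‖ with hg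
  have hgi : Integrable g := (fl_cont hb ε s0 hf _).norm.integrable_of_hasCompactSupport
    (fl_cs hb ε s0 hc _).norm
  have e1 : ∑ Q ∈ S, cw s0 Q * mC b ε (R0 + 3) s0 f Q =
      ∑ Q ∈ S, ∫ y in ball (xC s0 Q) ((R0 + 3) * lev s0 Q.1), g y := by
    refine Finset.sum_congr rfl fun Q hQ => ?_
    rw [CT1.cw_mC hd hs, hQ1 Q hQ]
  have h1 := overlap_S (volume : Measure (Sp d)) (s0 := s0) (ρ := R0 + 3) hs (by linarith only [hR0]) S hS
    (g := g) (A := ⋃ Q ∈ S, ball (xC s0 Q) ((R0 + 3) * t)) (meas_U s0 S _) hgi.integrableOn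
    (fun _ => norm_nonneg _) (by
      intro Q hQ
      rw [hQ1 Q hQ]
      exact Set.subset_biUnion_of_mem (u := fun Q => ball (xC s0 Q) ((R0 + 3) * t)) hQ)
  have h2 := transferU hb hev hρ hε hε1 hs hf hc S ((R0 + 3) * t) (P.1 - i - 1) k
    (ball (xC s0 P) (128 * R0 * lev s0 P.1)) (by
      refine Set.iUnion₂_subset fun Q hQ => ball_subset_ball' ?_
      rw [hk, dist_eq_norm]
      have h3 := CT1.cen_sub_dn hs hi (hS hQ)
      have h4 := mul_le_mul_of_nonneg_right hsd hlP.le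
      have h5 : (R0 + 3) * t ≤ (R0 + 3) * lev s0 P.1 :=
        mul_le_mul_of_nonneg_left (by linarith only [ht0, htP, htt]) (by linarith only [hR0])
      nlinarith only [htP, hsucc, hl0, h3, h4, h5, hlP, hR0])
  rw [hk] at h2
  have hgi' : Integrable fun y => ‖fl b ε s0 f (P.1 - n0 - 1) y‖ :=
    (fl_cont hb ε s0 hf _).norm.integrable_of_hasCompactSupport (fl_cs hb ε s0 hc _).norm
  have h3 : ∫ y in ⋃ Q ∈ S, ball (xC s0 Q)
      ((R0 + 3) * t + (lev s0 (P.1 - n0 - 1) - lev s0 (P.1 - i - 1))),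
        ‖fl b ε s0 f (P.1 - n0 - 1) y‖ ≤
      ∑ Q ∈ S.image (up (i - n0)), cw s0 Q * mC b ε (R0 + 3) s0 f Q := by
    have h4 : (⋃ Q ∈ S, ball (xC s0 Q)
        ((R0 + 3) * t + (lev s0 (P.1 - n0 - 1) - lev s0 (P.1 - i - 1)))) ⊆
        ⋃ Q ∈ S.image (up (i - n0)), ball (xC s0 Q) ((R0 + 3) * t') := by
      refine Set.iUnion₂_subset fun Q hQ => ?_
      refine Subset.trans ?_ (Set.subset_biUnion_of_mem
        (u := fun Q => ball (xC s0 Q) ((R0 + 3) * t'))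
        (Finset.mem_image_of_mem (up (i - n0)) hQ))
      refine ball_subset_ball' ?_
      rw [dist_eq_norm]
      have h5 := CT1.cen_sub_up hs (i - n0) Q
      rw [hQ1 Q hQ, show P.1 - i + (i - n0) = P.1 - n0 by omega, ← ht'] at h5
      have h6 := mul_le_mul_of_nonneg_right hsd ht0'.le
      have h7 : (R0 + 3) * t ≤ (R0 + 3) * (t' / 2) :=
        mul_le_mul_of_nonneg_left htt (by linarith)
      nlinarith only [hsucc, hl0, h5, h6, h7, ht0', hR0]
    refine (setIntegral_mono_set hgi'.integrableOn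
      (Filter.Eventually.of_forall fun y => norm_nonneg _) h4.eventuallyLE).trans ?_
    refine (union_le _ _ (fun Q => measurableSet_ball) hgi' fun y => norm_nonneg _).trans
      (le_of_eq ?_)
    refine Finset.sum_congr rfl fun Q hQ => ?_
    obtain ⟨Q0, hQ0, rfl⟩ := Finset.mem_image.1 hQ
    have h5 : (up (i - n0) Q0).1 = P.1 - n0 := by
      rw [up_fst, hQ1 Q0 hQ0]
      omega
    rw [CT1.cw_mC hd hs, h5]
  have h4 : ∑ j ∈ Finset.Ico (P.1 - i - 1) (P.1 - n0 - 1),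
      ∫ y in ball (xC s0 P) (128 * R0 * lev s0 P.1), gm b ε s0 f j y ≤
      gC b ε (128 * R0) s0 f i P := by
    unfold gC
    refine Finset.sum_le_sum_of_subset_of_nonneg ?_ fun j _ _ =>
      integral_nonneg fun y => CT1.gm_nonneg hb ε s0 f j y
    intro j hj
    have := Finset.mem_Ico.1 hj
    exact Finset.mem_Ico.2 (by omega)
  rw [e1]
  refine h1.trans (mul_le_mul_of_nonneg_left ?_ (by
    have : 0 ≤ 2 * (R0 + 3) + 1 := by linarith only [hR0]
    positivity))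
  exact h2.trans (add_le_add h3 h4)

end Flds

/-! ## the measure -/

/-- the integrand of the second moment -/
def Gm (ν : Sp d) (s : ℝ) (η : Sp d) : ℝ :=
  (⟪η, ν⟫_ℝ - s) ^ 2 / (1 ^ 2 + ‖0 - η‖ ^ 2) ^ 2 * kk 1 (0 - η)

lemma kk1 (η : Sp d) : kk 1 (0 - η) = 1 / Real.sqrt (1 + ‖η‖ ^ 2) ^ d := by
  unfold kk
  rw [zero_sub, norm_neg, one_pow]

lemma Gm_nonneg (ν : Sp d) (s : ℝ) (η : Sp d) : 0 ≤ Gm ν s η := by
  unfold Gm
  rw [kk1]
  positivity

lemma Gm_le {ν : Sp d} (hν : ‖ν‖ = 1) (s : ℝ) (η : Sp d) : Gm ν s η ≤ 2 * (1 + s ^ 2) := by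
  unfold Gm
  rw [kk1, zero_sub, norm_neg, one_pow]
  have h1 : (1 : ℝ) ≤ Real.sqrt (1 + ‖η‖ ^ 2) := by
    rw [Real.one_le_sqrt]
    nlinarith [sq_nonneg ‖η‖]
  have h2 : 1 / Real.sqrt (1 + ‖η‖ ^ 2) ^ d ≤ 1 := by
    rw [div_le_one (by positivity)]
    exact one_le_pow₀ h1
  have h3 : (⟪η, ν⟫_ℝ - s) ^ 2 ≤ 2 * (1 + s ^ 2) * (1 + ‖η‖ ^ 2) ^ 2 := by
    have h4 : |⟪η, ν⟫_ℝ| ≤ ‖η‖ := by
      have := abs_real_inner_le_norm η ν
      rwa [hν, mul_one] at this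
    have h5 : ⟪η, ν⟫_ℝ ^ 2 ≤ ‖η‖ ^ 2 := by
      rw [← sq_abs ⟪η, ν⟫_ℝ]
      exact pow_le_pow_left₀ (abs_nonneg _) h4 2
    have h6 : (⟪η, ν⟫_ℝ - s) ^ 2 ≤ 2 * (⟪η, ν⟫_ℝ ^ 2 + s ^ 2) := by
      linarith only [sq_nonneg (⟪η, ν⟫_ℝ + s)]
    have h7 : ‖η‖ ^ 2 + s ^ 2 ≤ (1 + s ^ 2) * (1 + ‖η‖ ^ 2) := by
      linarith only [mul_nonneg (sq_nonneg s) (sq_nonneg ‖η‖)]
    have h8 : (1 + ‖η‖ ^ 2) ≤ (1 + ‖η‖ ^ 2) ^ 2 := by
      linarith only [sq_nonneg ‖η‖, sq_nonneg (‖η‖ ^ 2)]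
    have h9 : (1 + s ^ 2) * (1 + ‖η‖ ^ 2) ≤ (1 + s ^ 2) * (1 + ‖η‖ ^ 2) ^ 2 :=
      mul_le_mul_of_nonneg_left h8 (by positivity)
    nlinarith
  have h4 : (⟪η, ν⟫_ℝ - s) ^ 2 / (1 + ‖η‖ ^ 2) ^ 2 ≤ 2 * (1 + s ^ 2) := by
    rw [div_le_iff₀ (by positivity)]
    exact h3
  calc (⟪η, ν⟫_ℝ - s) ^ 2 / (1 + ‖η‖ ^ 2) ^ 2 * (1 / Real.sqrt (1 + ‖η‖ ^ 2) ^ d)
      ≤ (2 * (1 + s ^ 2)) * 1 := mul_le_mul h4 h2 (by positivity) (by positivity)
    _ = _ := mul_one _

lemma Gm_cont (ν : Sp d) (s : ℝ) : Continuous (Gm ν s) := by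
  unfold Gm
  refine Continuous.mul (Continuous.div (by fun_prop) (by fun_prop) fun η => ?_) ?_
  · positivity
  · have h : (fun η : Sp d => kk 1 (0 - η)) = fun η => 1 / Real.sqrt (1 + ‖η‖ ^ 2) ^ d := by
      funext η
      exact kk1 η
    rw [h]
    refine Continuous.div (by fun_prop) (by fun_prop) fun η => ?_
    positivity

lemma Gm_ge {ν : Sp d} {s R0 δ : ℝ} (hδ : 0 ≤ δ) {η : Sp d} (h1 : δ ≤ |⟪η, ν⟫_ℝ - s|)
    (h2 : ‖η‖ ≤ R0) :
    δ ^ 2 / (1 + R0 ^ 2) ^ 2 * (1 / Real.sqrt (1 + R0 ^ 2) ^ d) ≤ Gm ν s η := by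
  unfold Gm
  rw [kk1, zero_sub, norm_neg, one_pow]
  have h3 : ‖η‖ ^ 2 ≤ R0 ^ 2 := pow_le_pow_left₀ (norm_nonneg _) h2 2
  have h4 : δ ^ 2 ≤ (⟪η, ν⟫_ℝ - s) ^ 2 := by
    rw [← sq_abs (⟪η, ν⟫_ℝ - s)]
    exact pow_le_pow_left₀ hδ h1 2
  have h5 : Real.sqrt (1 + ‖η‖ ^ 2) ≤ Real.sqrt (1 + R0 ^ 2) := Real.sqrt_le_sqrt (by linarith)
  have h6 : 0 < Real.sqrt (1 + ‖η‖ ^ 2) := Real.sqrt_pos.2 (by positivity)
  gcongr

lemma measP (hd : 1 ≤ d) {C' : ℝ} {μ : Measure (Sp d)} (hμ : Gro C' μ) {s0 ρ R0 : ℝ} (hs : 0 < s0)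
    (hρ : 1 ≤ ρ) (hρR : 8 * ρ ≤ R0) (hR0 : 400 + 8 * d ≤ R0) {ν : Sp d} (hν : ‖ν‖ = 1) (c : ℝ)
    {i n0 : ℕ} {P : Cell d} (hi : i ≤ P.1) (S : Finset (Cell d)) (hS : S ⊆ dn i P)
    (hfar : ∀ Q ∈ S, ∀ y : Sp d, ‖y - xC s0 Q‖ ≤ ρ * lev s0 Q.1 →
      (1 / 2) ^ n0 * lev s0 P.1 ≤ |ht ν c y|) :
    ∑ Q ∈ S, cw s0 Q * oC μ ρ s0 Q ^ 2 ≤
      (2 * ρ + 1) ^ d * ((((1 / 2 : ℝ) ^ n0) ^ 2 / (1 + R0 ^ 2) ^ 2 *
        (1 / Real.sqrt (1 + R0 ^ 2) ^ d))⁻¹ *
      (cw s0 P * (omC μ s0 P * Mo (muQ s0 μ P) ν ((c - ⟪ν, xC s0 P⟫_ℝ) / lev s0 P.1) 2 1 0))) := by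
  have hd0 : (0 : ℝ) ≤ d := Nat.cast_nonneg d
  have hR1 : 0 < R0 := by linarith
  have hfin := hμ.fin
  have hsd : Real.sqrt d ≤ R0 / 8 := by
    rw [Real.sqrt_le_left (by linarith only [hR0])]
    nlinarith only [hR0]
  have hlP := lev_pos hs P.1
  set sg := (c - ⟪ν, xC s0 P⟫_ℝ) / lev s0 P.1 with hsg
  set κ : ℝ := ((1 / 2 : ℝ) ^ n0) ^ 2 / (1 + R0 ^ 2) ^ 2 * (1 / Real.sqrt (1 + R0 ^ 2) ^ d) with hκ
  have hsq : 0 < Real.sqrt (1 + R0 ^ 2) := Real.sqrt_pos.2 (by positivity)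
  have hκ0 : 0 < κ := by positivity
  set O : Set (Sp d) := ⋃ Q ∈ S, ball (xC s0 Q) (ρ * lev s0 (P.1 - i)) with hO
  have hOm : MeasurableSet O := meas_U s0 S _
  -- the integrand in the frame
  set G : Sp d → ℝ := fun y => Gm ν sg ((1 / lev s0 P.1) • (y - xC s0 P)) with hG
  have hGi : Integrable G μ := by
    refine Integrable.of_bound ?_ (2 * (1 + sg ^ 2)) (Filter.Eventually.of_forall fun y => ?_)
    · exact ((Gm_cont ν sg).comp (by fun_prop)).aestronglyMeasurable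
    · rw [Real.norm_of_nonneg (Gm_nonneg _ _ _)]
      exact Gm_le hν _ _
  have hGge : ∀ y ∈ O, κ ≤ G y := by
    intro y hy
    rw [hO, Set.mem_iUnion₂] at hy
    obtain ⟨Q, hQ, hy⟩ := hy
    rw [mem_ball, dist_eq_norm] at hy
    have hQ1 := CT1.lvl_dn (hS hQ)
    have h1 := hfar Q hQ y (by rw [hQ1]; exact hy.le)
    refine Gm_ge (by positivity) ?_ ?_
    · have h2 : ⟪(1 / lev s0 P.1) • (y - xC s0 P), ν⟫_ℝ - sg = ht ν c y / lev s0 P.1 := by
        rw [hsg, inner_smul_left, real_inner_comm, inner_sub_right]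
        unfold ht
        simp only [conj_trivial]
        field_simp
        ring
      rw [h2, abs_div, abs_of_pos hlP, le_div_iff₀ hlP]
      exact h1
    · rw [norm_smul, one_div, norm_inv, Real.norm_of_nonneg hlP.le, inv_mul_le_iff₀ hlP]
      have h3 : y - xC s0 P = (y - xC s0 Q) + (xC s0 Q - xC s0 P) := by abel
      rw [h3]
      refine (norm_add_le _ _).trans ?_
      have h4 := CT1.cen_sub_dn hs hi (hS hQ)
      have h5 : lev s0 (P.1 - i) ≤ lev s0 P.1 := CT1.MAlev hs (by omega)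
      have h6 := mul_le_mul_of_nonneg_right hsd hlP.le
      have h7 : ρ * lev s0 (P.1 - i) ≤ R0 / 8 * lev s0 P.1 :=
        mul_le_mul (by linarith only [hρR]) h5 (lev_pos hs _).le (by linarith only [hR0])
      nlinarith only [hlP, hy, h4, h6, h7, hρ, hρR]
  have e1 : ∑ Q ∈ S, cw s0 Q * oC μ ρ s0 Q ^ 2 =
      ∑ Q ∈ S, ∫ y in ball (xC s0 Q) (ρ * lev s0 Q.1), (1 : ℝ) ∂μ := by
    refine Finset.sum_congr rfl fun Q _ => ?_
    rw [CT1.cw_oC_sq hd hs]
    simp [Measure.real]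
  have h1 := overlap_S μ hs (by linarith : 0 ≤ ρ) S hS (g := fun _ => (1 : ℝ)) hOm
    (integrable_const (1 : ℝ)).integrableOn (fun _ => zero_le_one) (by
      intro Q hQ
      rw [CT1.lvl_dn (hS hQ)]
      exact Set.subset_biUnion_of_mem (u := fun Q => ball (xC s0 Q) (ρ * lev s0 (P.1 - i))) hQ)
  have h2 : ∫ _ in O, (1 : ℝ) ∂μ ≤ κ⁻¹ * ∫ y, G y ∂μ := by
    rw [← integral_indicator hOm, ← integral_const_mul]
    refine integral_mono ((integrable_const (1 : ℝ)).indicator hOm) (hGi.const_mul _) ?_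
    intro y
    change O.indicator (fun _ => (1 : ℝ)) y ≤ κ⁻¹ * G y
    by_cases hy : y ∈ O
    · rw [Set.indicator_of_mem hy]
      have := hGge y hy
      rw [inv_mul_eq_div, le_div_iff₀ hκ0, one_mul]
      exact this
    · rw [Set.indicator_of_notMem hy]
      exact mul_nonneg (by positivity) (Gm_nonneg _ _ _)
  have h3 : ∫ y, G y ∂μ = cw s0 P * (omC μ s0 P * Mo (muQ s0 μ P) ν sg 2 1 0) := by
    have h4 := SC.integral_rsm (xC s0 P) hlP μ (Gm ν sg)
    have h5 : vv (muQ s0 μ P) 1 0 = omC μ s0 P := by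
      unfold muQ omC
      rw [SC.vv_rsm (xC s0 P) hlP μ 1 0, smul_zero, add_zero, mul_one]
    have h6 : omC μ s0 P * Mo (muQ s0 μ P) ν sg 2 1 0 = ∫ η, Gm ν sg η ∂(muQ s0 μ P) := by
      unfold Mo
      rw [h5, mul_div_assoc', mul_comm, mul_div_assoc, div_self, mul_one]
      · rfl
      · have h7 := THm.th_pos hd μ hμ.ne hlP (xC s0 P)
        unfold omC vv
        exact (Real.sqrt_pos.2 h7).ne'
    rw [h6]
    unfold muQ
    rw [h4]
    have h7 := CT1.cw_nw hd hs P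
    unfold nw at h7
    rw [← mul_assoc, h7, one_mul]
  rw [e1]
  refine h1.trans (mul_le_mul_of_nonneg_left ?_ (by
    have : 0 ≤ 2 * ρ + 1 := by linarith
    positivity))
  rw [← h3]
  exact h2

lemma Mo_nonneg (μ : Measure (Sp d)) (ν : Sp d) (s : ℝ) : 0 ≤ Mo μ ν s 2 1 0 := by
  unfold Mo
  exact div_nonneg (integral_nonneg fun η => Gm_nonneg ν s η) (Real.sqrt_nonneg _)

end

end T2

open _root_.TG.T2 in
open Classical in
/-- MODULE T2 -/
theorem stmtT2 (hT1 : StmtT1) (hCT3 : StmtCT3) (hMA : StmtMA) (hZ : StmtZ) : StmtT2 := by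
  intro d V E _ _ _ _ _ _ _ L hd hL
  have hd1 : 1 ≤ d := by omega
  obtain ⟨Rt, hRt, ct3⟩ := hCT3 d hd1
  refine ⟨Rt, hRt, ?_⟩
  intro M c0 ε hε hε1 b hb C' R0 γ ρ hC' hR0 hRtR hγ hγd hρ hρR
  have hd0 : (0 : ℝ) ≤ d := Nat.cast_nonneg d
  have hR1 : 0 < R0 := by linarith
  obtain ⟨CT, hCT, ct⟩ := ct3 M c0 ε hε hε1 b hb
  obtain ⟨CZ, hCZ, zz⟩ := TU.Z' hZ hd1 hε hε1 hb
  obtain ⟨CM, hCM, mm⟩ := TU.MA' hMA hd1 hε hε1 hb
  obtain ⟨cu, hcu, t1⟩ := hT1 d V E L hd hL M c0 ε hε hε1 b hb Rt R0 γ hRt hR0 hRtR hγ hγd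
  -- the number of levels
  obtain ⟨n0, hn0⟩ : ∃ n0 : ℕ, (1 + 32 * R0) ^ (d + 2) * (2 : ℝ) ^ (-(γ * n0)) < cu := by
    have h1 : (2 : ℝ) ^ (-γ) < 1 := Real.rpow_lt_one_of_one_lt_of_neg (by norm_num) (by linarith)
    have h2 : 0 < (1 + 32 * R0) ^ (d + 2) := by
      have : 0 < 1 + 32 * R0 := by linarith
      positivity
    obtain ⟨n, hn⟩ := exists_pow_lt_of_lt_one (div_pos hcu h2) h1
    refine ⟨n, ?_⟩
    have h3 : (2 : ℝ) ^ (-(γ * n)) = ((2 : ℝ) ^ (-γ)) ^ n := by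
      rw [← Real.rpow_natCast, ← Real.rpow_mul (by norm_num)]
      congr 1
      ring
    rw [h3, mul_comm]
    exact (lt_div_iff₀ h2).1 hn
  obtain ⟨κ1, δ1, Rm1, hκ1, hδ1, t1⟩ := t1 n0
  obtain ⟨N1, hN1, T1⟩ := TU.TFn_of_cs (J := 2) (ζ := (zR R0 : Sp d → ℝ))
    (contDiff_infty.1 (TU.zR_smooth (by linarith)) 2) (TU.zR_cs R0)
  obtain ⟨N5, hN5, T5⟩ := TU.TFn_of_cs (J := 2) (ζ := (zR (R0 + 5) : Sp d → ℝ))
    (contDiff_infty.1 (TU.zR_smooth (by linarith)) 2) (TU.zR_cs (R0 + 5))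
  set N2 : ℝ := 4 ^ 2 * N1 * max 1 ((R0 + 1) + (R0 + 1)) ^ 2 with hN2d
  have hN2 : 0 ≤ N2 := by positivity
  have T2 : ∀ (ν : Sp d) (c : ℝ), ‖ν‖ = 1 → |c| ≤ R0 + 1 → TFn 2 N2 (CT5.gq R0 ν c) := by
    intro ν c hν hc
    exact TU.TFn_ht_sq T1 (fun y hy => TU.zR_zero hy.le) hν hc
  -- the constants
  set A1 : ℕ → ℝ := fun i => (2 ^ 9) ^ (d - 1) * (((2 ^ i) ^ d : ℕ) * (2 ^ (i + 9)) ^ 2) with hA1
  set A2 : ℕ → ℝ := fun i => (2 ^ 9) ^ (d - 1) *
    (CZ * (|(((2 ^ i) ^ d : ℕ) : ℝ) * (2 ^ (i + 9)) ^ 2| * N2 +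
          ((2 ^ i) ^ d : ℕ) * (max 1 |(2 : ℝ) ^ (i + 9)| ^ 2 * N5))) +
    ((2 ^ i) ^ d : ℕ) * (CM * N5 * ((2 ^ (i + 9)) ^ d / 2 ^ (i + 9) * 4 ^ (i + 9))) with hA2
  have hA1n : ∀ i, 0 ≤ A1 i := fun i => by positivity
  have hA2n : ∀ i, 0 ≤ A2 i := fun i => by positivity
  set A : ℝ := ∑ i ∈ Finset.range (n0 + 1), (A1 i + A2 i) with hA
  have hAn : 0 ≤ A := Finset.sum_nonneg fun i _ => add_nonneg (hA1n i) (hA2n i)
  set κm : ℝ := ((1 / 2 : ℝ) ^ n0) ^ 2 / (1 + R0 ^ 2) ^ 2 *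
    (1 / Real.sqrt (1 + R0 ^ 2) ^ d) with hκm
  have hsq : 0 < Real.sqrt (1 + R0 ^ 2) := Real.sqrt_pos.2 (by positivity)
  have hκm0 : 0 < κm := by positivity
  have hρ0 : 0 < 2 * ρ + 1 := by linarith only [hρ]
  have hRR : 0 < 2 * (R0 + 3) + 1 := by linarith only [hR0]
  have hRR1 : (1 : ℝ) ≤ (2 * (R0 + 3) + 1) ^ d := one_le_pow₀ (by linarith only [hR0])
  refine ⟨(2 * (R0 + 3) + 1) ^ d * (1 + A) + (2 * ρ + 1) ^ d * κm⁻¹, κ1, cu / 2,
    min δ1 (1 / (2 * CT)), max Rm1 (3 * R0 + 20), by (clear * - hR1 hCZ hN1 hN5 hCM hρ; positivity), hκ1, by positivity,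
    lt_min hδ1 (by positivity), ?_⟩
  intro R hR u hu μ hμ s0 hs e hDirs ν c hPl κ' θ' δ' hκ' hθ' hδ' P hP i S hi hS hTop
  have hf : Continuous (fo L u) := by
    unfold fo
    exact L.continuous.comp (hu.smooth.continuous_fderiv (by simp))
  have hfc : HasCompactSupport (fo L u) := by
    have h : HasCompactSupport (fderiv ℝ u) := hu.supp.fderiv ℝ
    exact h.comp_left (map_zero L)
  set f := fo L u with hfd
  obtain ⟨hP0, hP1, hP2, hP3, hP4⟩ := hP
  have hRm1 : Rm1 ≤ R := (le_max_left _ _).trans hR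
  have hRm2 : 3 * R0 + 20 ≤ R := (le_max_right _ _).trans hR
  have hγ1 : γ ≤ 1 := by
    refine hγd.trans ?_
    have : (2 : ℝ) ≤ d := by exact_mod_cast hd
    rw [div_le_one (by positivity)]
    linarith only [this]
  -- the mass near the centre
  have hm4 : mT b ε s0 f P ≤ 4 * mC b ε Rt s0 f P := by
    obtain ⟨g0, -, g1⟩ := ct E f hf hfc s0 hs
    have h1 := g1 γ hγ1 P hP1
    have h2 : tG b ε s0 f P ≤ 1 / (2 * CT) * mT b ε s0 f P :=
      hP2.trans (mul_le_mul_of_nonneg_right (hδ'.trans (min_le_right _ _)) hP0.le)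
    have h3 := mul_le_mul_of_nonneg_left h2 hCT.le
    have h4 : CT * (1 / (2 * CT) * mT b ε s0 f P) = mT b ε s0 f P / 2 := by
      field_simp
    rw [h4] at h3
    linarith only [h1, h3]
  have hD1 : ∀ l : ℕ, dC b ε R s0 f e (up l P) ≤
      δ1 * (2 : ℝ) ^ ((l : ℝ) / 8) * mT b ε s0 f P := by
    intro l
    refine (hP3 l).trans ?_
    exact mul_le_mul_of_nonneg_right (mul_le_mul_of_nonneg_right
      (hδ'.trans (min_le_left _ _)) (by positivity)) hP0.le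
  have hb1 : bC R0 s0 f e ν c (up 9 P) ≤ κ1 * mT b ε s0 f P :=
    hP4.trans (mul_le_mul_of_nonneg_right hκ' hP0.le)
  have hsheet := t1 R hRm1 u hu s0 hs e hDirs ν c hPl P hP0 hP1 hm4 hD1 hb1
  -- distances
  have hfar := fun Q (hQ : Q ∈ S) => far_cells hb.ak hs hR0 hf hfc (hPl.unit (up 9 P)) hP0
    hsheet hγ hn0 (by linarith only [hcu] : cu / 2 < cu) (by linarith only [hcu]) hθ' hi (hS hQ) (hTop Q hQ)
  set ν9 := ν (up 9 P) with hν9
  set c9 := c (up 9 P) with hc9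
  have hν1 : ‖ν9‖ = 1 := hPl.unit _
  have hcwP := cw_nonneg hs P
  have hb0 : 0 ≤ bC R0 s0 f e ν c (up 9 P) := le_max_left _ _
  have hd9 : 0 ≤ dC b ε R s0 f e (up 9 P) :=
    TU.DD_nonneg b ε R hs f _ _ (hDirs.unit _)
  have hgC := CT1.gC_nonneg hb.ak ε (128 * R0) s0 f i P
  have hlP := lev_pos hs P.1
  have hsd : Real.sqrt d ≤ R0 / 8 := by
    rw [Real.sqrt_le_left (by linarith only [hR0])]
    nlinarith only [hR0]
  set X : ℝ := cw s0 P * (bC R0 s0 f e ν c (up 9 P) + dC b ε R s0 f e (up 9 P)) with hX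
  have hX0 : 0 ≤ X := mul_nonneg hcwP (add_nonneg hb0 hd9)
  have near : ∀ j ≤ n0, j ≤ P.1 → ∀ S' : Finset (Cell d), S' ⊆ dn j P →
      (∀ Q ∈ S', 16 * R0 * lev s0 Q.1 ≤ |ht ν9 c9 (xC s0 Q)|) →
      ∑ Q ∈ S', cw s0 Q * mC b ε (R0 + 3) s0 f Q ≤ A * X := by
    intro j hj hjP S' hS' hf'
    have h1 := nearA hd1 hb hCM (zz E)
      (fun f hf hfc R hR n e he x S hS => (mm E f hf hfc R hR n e he x S hS).2)
      hR0 T2 T5 hRm2 hf hfc hs (hDirs.unit (up 9 P)) hν1 j hjP (hPl.loc (up 9 P)) S' hS' hf'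
    have h2 : bb R0 s0 f (P.1 + 9) (xC s0 (up 9 P)) (e (up 9 P)) ν9 c9 ≤
        bC R0 s0 f e ν c (up 9 P) := le_max_right _ _
    have h3 : DD b ε R s0 f (P.1 + 9) (xC s0 (up 9 P)) (e (up 9 P)) =
        dC b ε R s0 f e (up 9 P) := rfl
    have h4 : cw s0 (up 9 P) = (2 ^ 9) ^ (d - 1) * cw s0 P := by
      unfold cw
      rw [up_fst, lev_add, mul_pow]
    rw [h3, h4] at h1
    refine h1.trans ?_
    have h5 : A1 j + A2 j ≤ A :=
      Finset.single_le_sum (f := fun i => A1 i + A2 i)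
        (fun i _ => add_nonneg (hA1n i) (hA2n i)) (Finset.mem_range.2 (by omega))
    have h6 := mul_le_mul_of_nonneg_left h2 (mul_nonneg (hA1n j) hcwP)
    calc (2 ^ 9) ^ (d - 1) * cw s0 P * (((2 ^ j) ^ d : ℕ) * (2 ^ (j + 9)) ^ 2 *
          bb R0 s0 f (P.1 + 9) (xC s0 (up 9 P)) (e (up 9 P)) ν9 c9 +
        CZ * (|(((2 ^ j) ^ d : ℕ) : ℝ) * (2 ^ (j + 9)) ^ 2| * N2 +
          ((2 ^ j) ^ d : ℕ) * (max 1 |(2 : ℝ) ^ (j + 9)| ^ 2 * N5)) *
          dC b ε R s0 f e (up 9 P)) +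
      ((2 ^ j) ^ d : ℕ) * (cw s0 P * (CM * N5 * ((2 ^ (j + 9)) ^ d / 2 ^ (j + 9) * 4 ^ (j + 9) *
        dC b ε R s0 f e (up 9 P)))) =
        A1 j * cw s0 P * bb R0 s0 f (P.1 + 9) (xC s0 (up 9 P)) (e (up 9 P)) ν9 c9 +
          A2 j * (cw s0 P * dC b ε R s0 f e (up 9 P)) := by
          rw [hA1, hA2]
          ring
      _ ≤ A1 j * cw s0 P * bC R0 s0 f e ν c (up 9 P) +
          A2 j * (cw s0 P * dC b ε R s0 f e (up 9 P)) := add_le_add h6 le_rfl
      _ ≤ (A1 j + A2 j) * X := by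
          rw [hX]
          have q1 := mul_nonneg (hA2n j) (mul_nonneg hcwP hb0)
          have q2 := mul_nonneg (hA1n j) (mul_nonneg hcwP hd9)
          linarith only [q1, q2]
      _ ≤ A * X := mul_le_mul_of_nonneg_right h5 hX0
  constructor
  · -- (III.3)
    have hgoal : ∑ Q ∈ S, cw s0 Q * mC b ε (R0 + 3) s0 f Q ≤
        (2 * (R0 + 3) + 1) ^ d * (1 + A) * (X + gC b ε (128 * R0) s0 f i P) := by
      rcases le_or_gt i n0 with hin | hin
      · have h1 := near i hin hi S hS fun Q hQ => (hfar Q hQ).1 hin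
        refine h1.trans ?_
        have h2 : A * X ≤ (1 + A) * (X + gC b ε (128 * R0) s0 f i P) := by nlinarith only [hgC, hX0, hAn]
        have h3 : 0 ≤ (1 + A) * (X + gC b ε (128 * R0) s0 f i P) :=
          mul_nonneg (by linarith) (add_nonneg hX0 hgC)
        rw [mul_assoc]
        exact h2.trans (le_mul_of_one_le_left h3 hRR1)
      · have h1 := farB hd1 hb.ak hb.even hb.supp hε hε1 hs hR0 hf hfc hi hin S hS
        have h2 := near n0 le_rfl (by omega) (S.image (up (i - n0))) (by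
          intro Q hQ
          obtain ⟨Q0, hQ0, rfl⟩ := Finset.mem_image.1 hQ
          rw [mem_dn (by omega), up_up, show i - n0 + n0 = i by omega]
          exact (mem_dn hi).1 (hS hQ0)) (by
          intro Q hQ
          obtain ⟨Q0, hQ0, rfl⟩ := Finset.mem_image.1 hQ
          have h3 := (hfar Q0 hQ0).2 hin
          have h4 : (up (i - n0) Q0).1 = P.1 - n0 := by
            rw [up_fst, CT1.lvl_dn (hS hQ0)]
            omega
          rw [h4]
          exact h3)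
        refine h1.trans ?_
        rw [mul_assoc]
        refine mul_le_mul_of_nonneg_left ?_ (by linarith only [hRR1])
        nlinarith only [hX0, h2, hAn, hgC]
    refine hgoal.trans ?_
    refine mul_le_mul_of_nonneg_right ?_ (add_nonneg hX0 hgC)
    have : 0 ≤ (2 * ρ + 1) ^ d * κm⁻¹ := by positivity
    linarith only [this]
  · -- (III.4)
    have hpt : ∀ Q ∈ S, ∀ y : Sp d, ‖y - xC s0 Q‖ ≤ ρ * lev s0 Q.1 →
        (1 / 2) ^ n0 * lev s0 P.1 ≤ |ht ν9 c9 y| := by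
      intro Q hQ y hy
      have hQ1 := CT1.lvl_dn (hS hQ)
      have hlQ := lev_pos hs Q.1
      rcases le_or_gt i n0 with hin | hin
      · have h1 := (hfar Q hQ).1 hin
        have h2 := ht_lip hν1 c9 (xC s0 Q) y
        rw [norm_sub_rev] at h2
        have h3 : lev s0 P.1 = 2 ^ i * lev s0 Q.1 := by
          rw [hQ1, ← lev_add, show P.1 - i + i = P.1 by omega]
        have h4 : ((1 : ℝ) / 2) ^ n0 * lev s0 P.1 ≤ lev s0 Q.1 := by
          rw [h3]
          have h5 : ((1 : ℝ) / 2) ^ n0 ≤ (1 / 2) ^ i :=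
            pow_le_pow_of_le_one (by norm_num) (by norm_num) hin
          have h6 : ((1 : ℝ) / 2) ^ i * 2 ^ i = 1 := by
            rw [← mul_pow]
            norm_num
          calc ((1 : ℝ) / 2) ^ n0 * (2 ^ i * lev s0 Q.1) ≤ (1 / 2) ^ i * (2 ^ i * lev s0 Q.1) :=
                mul_le_mul_of_nonneg_right h5 (by positivity)
            _ = ((1 / 2) ^ i * 2 ^ i) * lev s0 Q.1 := by ring
            _ = lev s0 Q.1 := by rw [h6, one_mul]
        have h7 : (16 * R0 - ρ) * lev s0 Q.1 ≤ |ht ν9 c9 y| := by linarith only [hy, h1, h2]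
        have h8 : lev s0 Q.1 ≤ (16 * R0 - ρ) * lev s0 Q.1 :=
          le_mul_of_one_le_left hlQ.le (by linarith only [hR0, hρR])
        linarith only [hy, h1, h2, h4, h8]
      · have h1 := (hfar Q hQ).2 hin
        have h2 := ht_lip hν1 c9 (xC s0 (up (i - n0) Q)) y
        have h3 := CT1.cen_sub_up hs (i - n0) Q
        have h4 : Q.1 + (i - n0) = P.1 - n0 := by omega
        rw [h4] at h3
        set t' := lev s0 (P.1 - n0) with ht'
        have ht0' : 0 < t' := lev_pos hs _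
        have h5 : ‖xC s0 (up (i - n0) Q) - y‖ ≤ Real.sqrt d * t' + ρ * lev s0 Q.1 := by
          have h6 : xC s0 (up (i - n0) Q) - y =
              -(xC s0 Q - xC s0 (up (i - n0) Q)) + -(y - xC s0 Q) := by abel
          rw [h6]
          refine (norm_add_le _ _).trans ?_
          rw [norm_neg, norm_neg]
          exact add_le_add h3 hy
        have h7 : lev s0 Q.1 ≤ t' := by
          rw [hQ1]
          exact CT1.MAlev hs (by omega)
        have h8 : ((1 : ℝ) / 2) ^ n0 * lev s0 P.1 = t' := by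
          have h9 : lev s0 P.1 = 2 ^ n0 * t' := by
            rw [ht', ← lev_add, show P.1 - n0 + n0 = P.1 by omega]
          rw [h9, ← mul_assoc, ← mul_pow]
          norm_num
        rw [h8]
        have h10 := mul_le_mul_of_nonneg_right hsd ht0'.le
        have h11 : ρ * lev s0 Q.1 ≤ R0 / 8 * t' :=
          mul_le_mul (by linarith only [hρR]) h7 hlQ.le (by linarith only [hR0])
        nlinarith only [h2, h1, ht0', h5, h10, h11, hR0]
    have h1 := measP hd1 hμ hs hρ hρR hR0 hν1 c9 hi S hS hpt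
    have h2 := mul_le_mul_of_nonneg_left h1 hP0.le
    have hMo := Mo_nonneg (muQ s0 μ P) ν9 ((c9 - ⟪ν9, xC s0 P⟫_ℝ) / lev s0 P.1)
    have hom : 0 ≤ omC μ s0 P := Real.sqrt_nonneg _
    have hY : YC b ε s0 f μ ν c P = mT b ε s0 f P *
        Mo (muQ s0 μ P) ν9 ((c9 - ⟪ν9, xC s0 P⟫_ℝ) / lev s0 P.1) 2 1 0 := rfl
    have hZ0 : 0 ≤ cw s0 P * omC μ s0 P * YC b ε s0 f μ ν c P := by
      rw [hY]
      exact mul_nonneg (mul_nonneg hcwP hom) (mul_nonneg hP0.le hMo)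
    refine h2.trans ?_
    calc mT b ε s0 f P * ((2 * ρ + 1) ^ d * (κm⁻¹ * (cw s0 P * (omC μ s0 P *
          Mo (muQ s0 μ P) ν9 ((c9 - ⟪ν9, xC s0 P⟫_ℝ) / lev s0 P.1) 2 1 0))))
        = ((2 * ρ + 1) ^ d * κm⁻¹) * (cw s0 P * omC μ s0 P * YC b ε s0 f μ ν c P) := by
          rw [hY]
          ring
      _ ≤ _ := by
          refine mul_le_mul_of_nonneg_right ?_ hZ0
          have : 0 ≤ (2 * (R0 + 3) + 1) ^ d * (1 + A) := by (clear * - hR1 hCZ hN1 hN5 hCM hi hS hP0 hP1 hP2 hP3 hP4 hm4 hD1 hb1 hν9 hsheet hfar hc9 hν1 hcwP hb0 hd9 hgC hlP hX hX0 near hpt h1 h2 hMo hom hY hZ0; positivity)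
          linarith only [this]

end TG


end

section

set_option autoImplicit false

/-!
# Module TD2 (11.2), general case (helper15; common part by helper63, TDc.lean)
-/

open MeasureTheory Metric Set TrI Filter
open scoped InnerProductSpace ContDiff Topology

namespace TG

noncomputable section

namespace TD2m

variable {d : ℕ}

lemma kit_mono {J J' : ℕ} (h : J' ≤ J) {M : ℝ} {β : Sp d → ℝ} (hk : Kit J M β) : Kit J' M β where
  prof :=
    { smooth := hk.prof.smooth.of_le (by exact_mod_cast h)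
      nonneg := hk.prof.nonneg
      mono := hk.prof.mono
      supp := hk.prof.supp
      int := hk.prof.int
      der := fun j hj => hk.prof.der j (hj.trans h) }
  smooth1 := hk.smooth1.of_le (by exact_mod_cast h)
  smooth2 := hk.smooth2.of_le (by exact_mod_cast h)
  supp1 := hk.supp1
  supp2 := hk.supp2
  grad1 := hk.grad1
  grad2 := hk.grad2
  nonneg1 := hk.nonneg1
  nonneg2 := hk.nonneg2
  le1 := hk.le1
  le2 := hk.le2
  mono1 := hk.mono1
  mono2 := hk.mono2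
  der1 := fun j hj => hk.der1 j (hj.trans h)
  der2 := fun j hj => hk.der2 j (hj.trans h)

/-- tangential part as a continuous linear map -/
def tangL (n : Sp d) : Sp d →L[ℝ] Sp d :=
  ContinuousLinearMap.id ℝ (Sp d) - (innerSL ℝ n).smulRight n

lemma tangL_apply (n w : Sp d) : tangL n w = tang n w := by
  simp [tangL, tang]

lemma tang_norm {n : Sp d} (hn : ‖n‖ = 1) (w : Sp d) : ‖tang n w‖ ≤ ‖w‖ := by
  have h1 : ‖tang n w‖ ^ 2 = ‖w‖ ^ 2 - ⟪n, w⟫_ℝ ^ 2 := by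
    unfold tang
    rw [norm_sub_sq_real, inner_smul_right, norm_smul, hn, real_inner_comm n w,
      Real.norm_eq_abs, mul_one, sq_abs]
    ring
  nlinarith only [h1, norm_nonneg w]

lemma tangL_norm {n : Sp d} (hn : ‖n‖ = 1) : ‖tangL n‖ ≤ 1 :=
  ContinuousLinearMap.opNorm_le_bound _ zero_le_one fun w => by
    rw [tangL_apply, one_mul]
    exact tang_norm hn w

lemma inner_tang {n : Sp d} (hn : ‖n‖ = 1) (w : Sp d) : ⟪n, tang n w⟫_ℝ = 0 := by
  unfold tang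
  rw [inner_sub_right, inner_smul_right, real_inner_self_eq_norm_sq, hn]
  ring

/-- the Riesz map as a real linear map -/
def rz (d : ℕ) : (Sp d →L[ℝ] ℝ) →L[ℝ] Sp d :=
  LinearMap.mkContinuous
    { toFun := fun L => (InnerProductSpace.toDual ℝ (Sp d)).symm L
      map_add' := fun L L' => map_add _ L L'
      map_smul' := fun c L => by
        rw [LinearIsometryEquiv.map_smulₛₗ]
        simp } 1 (fun L => by
        rw [one_mul]
        exact le_of_eq ((InnerProductSpace.toDual ℝ (Sp d)).symm.norm_map L))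

lemma rz_norm (L : Sp d →L[ℝ] ℝ) : ‖rz d L‖ = ‖L‖ :=
  (InnerProductSpace.toDual ℝ (Sp d)).symm.norm_map L

/-- the field of tangential gradients as a composition -/
lemma tg_eq (n : Sp d) (W : Sp d → ℝ) : (fun y => tang n (gradient W y)) =
    ⇑((tangL n).comp (rz d)) ∘ (fderiv ℝ W) := by
  funext y
  simp only [Function.comp_apply, ContinuousLinearMap.comp_apply, tangL_apply]
  rfl

lemma tg_smooth (n : Sp d) {W : Sp d → ℝ} (hW : ContDiff ℝ ∞ W) :
    ContDiff ℝ ∞ (fun y => tang n (gradient W y)) := by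
  rw [tg_eq]
  exact ((tangL n).comp (rz d)).contDiff.comp (hW.fderiv_right (m := ∞) (by norm_cast))

lemma tg_bd {n : Sp d} (hn : ‖n‖ = 1) {W : Sp d → ℝ} (hW : ContDiff ℝ ∞ W) (i : ℕ) (y : Sp d) :
    ‖iteratedFDeriv ℝ i (fun y => tang n (gradient W y)) y‖ ≤ ‖iteratedFDeriv ℝ (i + 1) W y‖ := by
  rw [tg_eq]
  have h3 : ContDiff ℝ i (fderiv ℝ W) :=
    (hW.fderiv_right (m := ∞) (by norm_cast)).of_le (by exact_mod_cast le_top)
  have h4 := ((tangL n).comp (rz d)).norm_iteratedFDeriv_comp_left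
        (f := fderiv ℝ W) (x := y) (n := i) h3.contDiffAt le_rfl
  have h5 : ‖(tangL n).comp (rz d)‖ ≤ 1 := by
    refine ContinuousLinearMap.opNorm_le_bound _ zero_le_one fun L => ?_
    rw [one_mul, ContinuousLinearMap.comp_apply]
    refine ((tangL n).le_opNorm _).trans ?_
    refine (mul_le_of_le_one_left (norm_nonneg _) (tangL_norm hn)).trans ?_
    exact le_of_eq (rz_norm L)
  refine h4.trans ?_
  rw [norm_iteratedFDeriv_fderiv]
  exact mul_le_of_le_one_left (norm_nonneg _) h5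

/-- the general bound: N = C v(0) and blc(d+1) + 2 D -/
theorem core (hPF : StmtPF) (hTH : StmtTH) (hUB : StmtUB) :
  ∀ (d J : ℕ), 2 ≤ d → ∀ (M C' ε p0 A R0 : ℝ), 0 < C' → 0 < ε → ε ≤ 1 / 4 → 0 < p0 →
    p0 ≤ 1 → 1 ≤ A → 4 * A + 4 * d + 20 ≤ R0 → ∃ C : ℝ, 0 < C ∧
    ∀ β : Sp d → ℝ, Kit (J + 10) M β → ∀ μ : Measure (Sp d), Gro C' μ →
    ∀ (m : Sp d → ℝ) (n : Sp d) (s ab ep D : ℝ), Continuous m → 0 ≤ D → ZP R0 D m →
      Sheet J R0 ab ep D m n s → 0 ≤ blc n s m (d + 1) + D ∧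
      |∫ y, m y * dvT chi β ε p0 A μ n y| ≤
        C * vv μ 1 0 * (ep + blc n s m (d + 1) + 2 * D) := by
  intro d J hd M C' ε p0 A R0 hC' hε hε4 hp0 hp1 hA hR
  obtain ⟨CU, hCU, hU⟩ := hUB d (J + 4) hd M C' ε p0 A hC' hε (by linarith) hp0 hp1 hA
  obtain ⟨CL, hCL, hL⟩ := TDc.dvg_bd hd (J + 2) CU hCU.le
  have hd' : (2 : ℝ) ≤ d := by exact_mod_cast hd
  set H : ℝ := (1 + (d : ℝ)) ^ d with hH
  have hH0 : 0 < H := by positivity
  refine ⟨CL * (((J : ℝ) + 4) * (CU * H)), by positivity, ?_⟩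
  intro β hβ μ hμ m n s ab ep D hm hD _ hS
  obtain ⟨hWs, -, hWb, -, -, -, -, hUs, hUb, -⟩ := hU β (kit_mono (by omega) hβ) μ hμ
  have hn := hS.n1
  have hv0 : 0 ≤ vv μ 1 0 := Real.sqrt_nonneg _
  set g : Sp d → Sp d := fun y => tang n (gradient (WW β ε μ 1) y) with hg
  set u : Sp d → ℝ := Ups p0 A μ 1 with hu
  have hgs : ContDiff ℝ ∞ g := tg_smooth n hWs
  have hgb : ∀ i ≤ J + 3, ∀ y, ‖y‖ ≤ d → ‖iteratedFDeriv ℝ i g y‖ ≤ CU * H * vv μ 1 0 := by
    intro i hi y hy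
    calc ‖iteratedFDeriv ℝ i g y‖ ≤ ‖iteratedFDeriv ℝ (i + 1) (WW β ε μ 1) y‖ := tg_bd hn hWs i y
      _ ≤ CU * vv μ 1 y := hWb (i + 1) (by omega) y
      _ ≤ CU * (H * vv μ 1 0) :=
          mul_le_mul_of_nonneg_left (TDc.vv_le hTH hd hC' hμ hy) hCU.le
      _ = CU * H * vv μ 1 0 := by ring
  set N : ℝ := CL * (((J : ℝ) + 4) * (CU * H)) * vv μ 1 0 with hN
  have hN0 : 0 ≤ N := by positivity
  have hb : ∀ j ≤ J + 2, ∀ y, ‖y‖ ≤ d → ‖iteratedFDeriv ℝ j (TDc.dvg u g) y‖ ≤ N := by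
    intro j hj y hy
    refine (hL u g hUs hgs (fun k hk x => hUb k (by omega) x) j hj y).trans ?_
    have h1 : ∑ i ∈ Finset.range (J + 2 + 2), ‖iteratedFDeriv ℝ i g y‖ ≤
        ∑ i ∈ Finset.range (J + 2 + 2), CU * H * vv μ 1 0 :=
      Finset.sum_le_sum fun i hi => hgb i (by have := Finset.mem_range.1 hi; omega) y hy
    rw [Finset.sum_const, Finset.card_range, nsmul_eq_mul] at h1
    calc CL * ∑ i ∈ Finset.range (J + 2 + 2), ‖iteratedFDeriv ℝ i g y‖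
        ≤ CL * (((J + 2 + 2 : ℕ) : ℝ) * (CU * H * vv μ 1 0)) :=
          mul_le_mul_of_nonneg_left h1 hCL.le
      _ = N := by rw [hN]; push_cast; ring
  have hb' : ∀ j ≤ J + 2, ∀ y, ‖iteratedFDeriv ℝ j (TDc.dvg u g) y‖ ≤ N := by
    intro j hj y
    rcases le_or_gt (d : ℝ) ‖y‖ with h1 | h1
    · rw [TDc.iter_zero (TDc.dvg_ev_far hd h1), norm_zero]
      exact hN0
    · exact hb j hj y h1.le
  have hTB : TB J n s N (TDc.dvg u g) :=
    TDc.dvg_TB hd hn hN0 hUs hgs (fun j hj y hy _ => hb j (by omega) y hy)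
  have hpl : plInt n s (TDc.dvg u g) = 0 :=
    TDc.dvg_pl hPF hd hn hUs hgs (fun y => inner_tang hn _) s
  have hest := hS.est (TDc.dvg u g) d N N
    ((TDc.dvg_smooth hUs hgs).of_le (WithTop.coe_le_coe.2 le_top)) (by positivity) (by linarith)
    (fun y hy => (TDc.dvg_ev_far hd hy).eq_of_nhds) hTB (fun y => hb' 2 (by omega) y)
  have hpos : 0 ≤ blc n s m (d + 1) + D := by
    have h0 := hS.est (fun _ => 0) d 0 1 contDiff_const (by positivity) (by linarith)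
      (fun _ _ => rfl) (by
        intro j _ h _ _ y _
        have e1 : (fun x : Sp d => fderiv ℝ (fun _ : Sp d => (0 : ℝ)) x n) = fun _ => 0 := by
          funext x
          simp
        rw [e1]
        rw [iteratedFDeriv_fun_zero]
        simp) (by
        intro y
        rw [iteratedFDeriv_fun_zero]
        simp)
    simp only [mul_zero, integral_zero, zero_sub, zero_add, one_mul] at h0
    have h1 : 0 ≤ |(-(ab * plInt n s (fun _ : Sp d => (0 : ℝ))))| := abs_nonneg _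
    exact h1.trans (by simpa using h0)
  refine ⟨hpos, ?_⟩
  rw [TDc.dvT_eq]
  rw [hpl, mul_zero, sub_zero] at hest
  calc |∫ y, m y * TDc.dvg u g y| ≤ ep * N + N * blc n s m (d + 1) + (N + N) * D := hest
    _ = N * (ep + blc n s m (d + 1) + 2 * D) := by ring
    _ = CL * (((J : ℝ) + 4) * (CU * H)) * vv μ 1 0 * (ep + blc n s m (d + 1) + 2 * D) := by
        rw [hN]

end TD2m

/-- MODULE TD2 -/
theorem stmtTD2 (hPF : StmtPF) (hTH : StmtTH) (hUB : StmtUB) : StmtTD2 := by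
  intro d J hd M C' ε p0 A R0 hC' hε hε4 hp0 hp1 hA hR
  obtain ⟨C, hC, h⟩ := TD2m.core hPF hTH hUB d J hd M C' ε p0 A R0 hC' hε hε4 hp0 hp1 hA hR
  exact ⟨C, hC, fun β hβ μ hμ m n s ab ep D hm hD hZ hS =>
    (h β hβ μ hμ m n s ab ep D hm hD hZ hS).2⟩

end

end TG


end
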